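import Pool.Agent.TOPW.R6116H.Tm_1
import Pool.Agent.TOPW.R6116H.Tm_10
import Pool.Agent.TOPW.R6116H.Tm_11
import Pool.Agent.TOPW.R6116H.Tm_12
import Pool.Agent.TOPW.R6116H.Tm_13
import Pool.Agent.TOPW.R6116H.Tm_14
import Pool.Agent.TOPW.R6116H.Tm_15
import Pool.Agent.TOPW.R6116H.Tm_2
import Pool.Agent.TOPW.R6116H.Tm_3
import Pool.Agent.TOPW.R6116H.Tm_4
import Pool.Agent.TOPW.R6116H.Tm_5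
import Pool.Agent.TOPW.R6116H.Tm_6
import Pool.Agent.TOPW.R6116H.Tm_7
import Pool.Agent.TOPW.R6116H.Tm_8
import Pool.Agent.TOPW.R6116H.Tm_9
import Pool.Agent.TOPW.R6116H.Tp_1
import Pool.Agent.TOPW.R6116H.Tp_2
import Pool.Agent.TOPW.R6116H.Tp_3
import Pool.Agent.TOPW.R6116H.Tp_4
import Pool.Agent.TOPW.R6116H.Tp_5
import Pool.Agent.TOPW.R6116H.Tp_6
import Pool.Agent.TOPW.R6116H.Tp_7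
import Pool.Agent.TOPW.R6116H.Ts_1
import Pool.Agent.TOPW.R6116H.Ts_10
import Pool.Agent.TOPW.R6116H.Ts_11
import Pool.Agent.TOPW.R6116H.Ts_12
import Pool.Agent.TOPW.R6116H.Ts_13
import Pool.Agent.TOPW.R6116H.Ts_14
import Pool.Agent.TOPW.R6116H.Ts_15
import Pool.Agent.TOPW.R6116H.Ts_16
import Pool.Agent.TOPW.R6116H.Ts_17
import Pool.Agent.TOPW.R6116H.Ts_18
import Pool.Agent.TOPW.R6116H.Ts_19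
import Pool.Agent.TOPW.R6116H.Ts_2
import Pool.Agent.TOPW.R6116H.Ts_20
import Pool.Agent.TOPW.R6116H.Ts_21
import Pool.Agent.TOPW.R6116H.Ts_22
import Pool.Agent.TOPW.R6116H.Ts_23
import Pool.Agent.TOPW.R6116H.Ts_24
import Pool.Agent.TOPW.R6116H.Ts_25
import Pool.Agent.TOPW.R6116H.Ts_26
import Pool.Agent.TOPW.R6116H.Ts_27
import Pool.Agent.TOPW.R6116H.Ts_28
import Pool.Agent.TOPW.R6116H.Ts_29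
import Pool.Agent.TOPW.R6116H.Ts_3
import Pool.Agent.TOPW.R6116H.Ts_30
import Pool.Agent.TOPW.R6116H.Ts_31
import Pool.Agent.TOPW.R6116H.Ts_32
import Pool.Agent.TOPW.R6116H.Ts_33
import Pool.Agent.TOPW.R6116H.Ts_34
import Pool.Agent.TOPW.R6116H.Ts_35
import Pool.Agent.TOPW.R6116H.Ts_36
import Pool.Agent.TOPW.R6116H.Ts_37
import Pool.Agent.TOPW.R6116H.Ts_38
import Pool.Agent.TOPW.R6116H.Ts_39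
import Pool.Agent.TOPW.R6116H.Ts_4
import Pool.Agent.TOPW.R6116H.Ts_40
import Pool.Agent.TOPW.R6116H.Ts_41
import Pool.Agent.TOPW.R6116H.Ts_42
import Pool.Agent.TOPW.R6116H.Ts_43
import Pool.Agent.TOPW.R6116H.Ts_44
import Pool.Agent.TOPW.R6116H.Ts_5
import Pool.Agent.TOPW.R6116H.Ts_6
import Pool.Agent.TOPW.R6116H.Ts_7
import Pool.Agent.TOPW.R6116H.Ts_8
import Pool.Agent.TOPW.R6116H.Ts_9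
import Pool.Agent.Helper64.TOP.Rg
import Pool.Agent.Helper6.TOP.Cell

set_option autoImplicit false
set_option linter.all false
set_option maxRecDepth 100000

namespace Pool.Agent.TOPR.R6116H.Inst

open Helper80.CW.DL Pool.Agent.Helper6.TOP Pool.Agent.TOPR.R6116H
open Pool.Agent.Helper31.SR.FinT

def tS_0 : UT := (UT.cut true (UT.cut true (UT.cut true (UT.cut false (UT.cut false (UT.cut true (UT.cut false (UT.cut false (UT.cut false UT.leaf UT.leaf) (UT.cut false UT.leaf UT.leaf)) (UT.cut false UT.leaf (UT.cut false UT.leaf UT.leaf))) (UT.cut false (UT.cut false (UT.cut false UT.leaf UT.leaf) (UT.cut false UT.leaf UT.leaf)) (UT.cut false UT.leaf (UT.cut false UT.leaf UT.leaf)))) (UT.cut false (UT.cut true (UT.cut false (UT.cut false UT.leaf UT.leaf) (UT.cut false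 UT.leaf UT.leaf)) (UT.cut false (UT.cut false UT.leaf UT.leaf) (UT.cut false UT.leaf UT.leaf))) (UT.cut false (UT.cut false UT.leaf UT.leaf) UT.leaf))) (UT.cut false (UT.cut false (UT.cut false UT.leaf UT.out) UT.out) UT.out)) (UT.cut false (UT.cut false (UT.cut true (UT.cut false (UT.cut false (UT.cut false UT.leaf UT.leaf) (UT.cut false UT.leaf UT.leaf)) (UT.cut false (UT.cut false UT.leaf UT.leaf) (UT.cut false UT.leaf UT.leaf))) (UT.cut false (UT.cut false (UT.cut false UT.leaf UT.leaf) (UT.cut false UT.leaf UT.leaf)) (UT.cut false (UT.cut false UT.leaf UT.leaf) (UT.cut false UT.leaf UT.leaf)))) (UT.cut false (UT.cut false (UT.cut true (UT.cut false UT.leaf UT.leaf) (UT.cut false UT.leaf UT.leaf)) (UT.cut false UT.leaf UT.leaf)) (UT.cut false UT.leaf UT.leaf)))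 (UT.cut false (UT.cut false (UT.cut false UT.leaf UT.leaf) UT.out) UT.out))) (UT.cut true (UT.cut false (UT.cut false (UT.cut true (UT.cut false (UT.cut false (UT.cut false UT.leaf UT.leaf) (UT.cut false UT.leaf UT.leaf)) (UT.cut false (UT.cut false UT.leaf UT.leaf) (UT.cut false UT.leaf UT.leaf))) (UT.cut false (UT.cut false (UT.cut false UT.leaf UT.leaf) (UT.cut false UT.leaf UT.leaf)) (UT.cut false (UT.cut false UT.leaf UT.leaf) (UT.cut false UT.leaf UT.leaf)))) (UT.cut false (UT.cut false (UT.cut false UT.leaf UT.leaf) UT.leaf) (UT.cut false UT.leaf UT.leaf))) (UT.cut false (UT.cut false (UT.cut false UT.leaf UT.leaf) (UT.cut false UT.leaf UT.out)) UT.out)) (UT.cut false (UT.cut false (UT.cut false (UT.cut true (UT.cut false (UT.cut false UT.leaf UT.leaf)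 (UT.cut false UT.leaf UT.leaf)) (UT.cut false (UT.cut false UT.leaf UT.leaf) (UT.cut false UT.leaf UT.leaf))) (UT.cut false (UT.cut true (UT.cut false UT.leaf UT.leaf) (UT.cut false UT.leaf UT.leaf)) (UT.cut false UT.leaf UT.leaf))) (UT.cut false (UT.cut false UT.leaf UT.leaf) (UT.cut false UT.leaf UT.leaf))) (UT.cut false (UT.cut false (UT.cut false UT.leaf UT.leaf) (UT.cut false (UT.cut false UT.leaf UT.leaf) (UT.cut true (UT.cut false UT.leaf UT.out) (UT.cut false UT.leaf UT.leaf)))) UT.out)))) (UT.cut true (UT.cut true (UT.cut false (UT.cut false (UT.cut false (UT.cut true (UT.cut false (UT.cut false UT.leaf UT.leaf) (UT.cut false UT.leaf UT.leaf)) (UT.cut false (UT.cut false UT.leaf UT.leaf) (UT.cut false UT.leaf UT.leaf))) (UT.cut false (UT.cut false UT.leaf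 UT.leaf) UT.leaf)) (UT.cut false (UT.cut false (UT.cut true UT.leaf (UT.cut false UT.leaf UT.leaf)) (UT.cut false (UT.cut true UT.leaf UT.leaf) UT.leaf)) (UT.cut false (UT.cut false UT.leaf (UT.cut true UT.leaf UT.leaf)) (UT.cut false (UT.cut true UT.leaf UT.leaf) UT.leaf)))) (UT.cut false (UT.cut false (UT.cut false (UT.cut false UT.leaf UT.leaf) UT.leaf) (UT.cut false (UT.cut false UT.leaf (UT.cut true UT.leaf UT.out)) UT.out)) UT.out)) (UT.cut false (UT.cut false (UT.cut false (UT.cut false (UT.cut true (UT.cut false UT.leaf UT.leaf) UT.out) (UT.cut false (UT.cut true UT.leaf UT.out) UT.leaf)) (UT.cut false UT.leaf UT.leaf)) (UT.cut true (UT.cut false (UT.cut false (UT.cut false UT.leaf UT.leaf) UT.out) UT.out) UT.out)) UT.out)) UT.out))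

def TS : UT := (UT.cut true (UT.cut true (UT.cut true (UT.cut true (UT.cut false (UT.cut false (UT.cut false (UT.cut false UT.leaf UT.out) UT.out) UT.out) UT.out) (UT.cut false (UT.cut false (UT.cut false (UT.cut false UT.leaf UT.leaf) UT.out) UT.out) UT.out)) (UT.cut true (UT.cut false (UT.cut false (UT.cut false (UT.cut false UT.leaf UT.leaf) (UT.cut false UT.leaf UT.out)) UT.out) UT.out) (UT.cut false (UT.cut false (UT.cut false (UT.cut false UT.leaf UT.leaf) (UT.cut false UT.leaf UT.leaf)) UT.out) UT.out))) (UT.cut true (UT.cut true (UT.cut false (UT.cut false (UT.cut false (UT.cut false UT.leaf UT.leaf) (UT.cut false UT.leaf (UT.cut false UT.leaf UT.leaf))) (UT.cut true (UT.cut false (UT.cut false (UT.cut false UT.leaf UT.out) UT.out) UT.out) (UT.cut false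 (UT.cut false (UT.cut false UT.leaf UT.leaf) UT.out) UT.out))) UT.out) (UT.cut false (UT.cut false (UT.cut false (UT.cut false UT.leaf UT.leaf) (UT.cut false UT.leaf (UT.cut false UT.leaf (UT.cut true UT.leaf UT.leaf)))) (UT.cut true (UT.cut false (UT.cut false (UT.cut false UT.leaf UT.leaf) (UT.cut false UT.leaf UT.out)) UT.out) (UT.cut false (UT.cut false (UT.cut false UT.leaf UT.leaf) (UT.cut false UT.leaf UT.leaf)) UT.out))) UT.out)) (UT.cut true (UT.cut false (UT.cut false (UT.cut false (UT.cut false UT.leaf UT.leaf) (UT.cut false (UT.cut true UT.leaf UT.leaf) (UT.cut false UT.leaf UT.leaf))) (UT.cut true (UT.cut false (UT.cut false (UT.cut false UT.leaf UT.leaf) (UT.cut false UT.leaf UT.leaf)) (UT.cut false (UT.cut false UT.leaf UT.out) UT.out)) (UT.cut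 false (UT.cut false (UT.cut false UT.leaf UT.leaf) (UT.cut false UT.leaf UT.leaf)) (UT.cut false (UT.cut false UT.leaf UT.leaf) UT.out)))) UT.out) (UT.cut true (UT.cut false (UT.cut false (UT.cut false (UT.cut false UT.leaf (UT.cut false UT.leaf UT.leaf)) (UT.cut false UT.leaf (UT.cut false UT.leaf UT.leaf))) (UT.cut false (UT.cut false (UT.cut false UT.leaf UT.leaf) (UT.cut false UT.leaf UT.leaf)) (UT.cut false (UT.cut false UT.leaf UT.leaf) UT.leaf))) UT.out) (UT.cut false (UT.cut false (UT.cut false (UT.cut false UT.leaf (UT.cut false UT.leaf UT.leaf)) (UT.cut false UT.leaf (UT.cut false UT.leaf UT.leaf))) (UT.cut false (UT.cut false (UT.cut false UT.leaf UT.leaf) (UT.cut false UT.leaf UT.leaf)) (UT.cut false (UT.cut false UT.leaf UT.leaf) UT.leaf))) UT.out)))))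 tS_0)

def LS_0 : List UC := [⟨5, 0, 5, 0⟩, ⟨5, 1, 5, 0⟩, ⟨5, 1, 5, 1⟩, ⟨5, 2, 5, 0⟩, ⟨5, 2, 5, 1⟩, ⟨5, 2, 5, 2⟩, ⟨5, 3, 5, 0⟩, ⟨5, 3, 5, 1⟩, ⟨5, 3, 5, 2⟩, ⟨5, 3, 5, 3⟩, ⟨5, 4, 5, 0⟩, ⟨5, 4, 5, 1⟩, ⟨5, 4, 5, 2⟩, ⟨5, 4, 6, 6⟩, ⟨5, 4, 6, 7⟩, ⟨6, 8, 6, 8⟩, ⟨6, 9, 6, 8⟩, ⟨6, 9, 6, 9⟩, ⟨5, 5, 5, 0⟩, ⟨5, 5, 5, 1⟩, ⟨5, 5, 5, 2⟩, ⟨5, 5, 6, 6⟩, ⟨6, 10, 6, 7⟩, ⟨6, 11, 6, 7⟩, ⟨6, 10, 6, 8⟩, ⟨6, 10, 6, 9⟩, ⟨6, 10, 6, 10⟩, ⟨6, 11, 6, 8⟩, ⟨6, 11, 6, 9⟩, ⟨6, 11, 6, 10⟩, ⟨6, 11, 6, 11⟩, ⟨5, 6, 5, 0⟩]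

theorem aS_0 : AllC (PSc c) LS_0 := AllC.cons Pool.Agent.TOPW.R6116H.Ts_1.cellS_5_0_5_0 (AllC.cons Pool.Agent.TOPW.R6116H.Ts_1.cellS_5_1_5_0 (AllC.cons Pool.Agent.TOPW.R6116H.Ts_1.cellS_5_1_5_1 (AllC.cons Pool.Agent.TOPW.R6116H.Ts_1.cellS_5_2_5_0 (AllC.cons Pool.Agent.TOPW.R6116H.Ts_1.cellS_5_2_5_1 (AllC.cons Pool.Agent.TOPW.R6116H.Ts_2.cellS_5_2_5_2 (AllC.cons Pool.Agent.TOPW.R6116H.Ts_2.cellS_5_3_5_0 (AllC.cons Pool.Agent.TOPW.R6116H.Ts_2.cellS_5_3_5_1 (AllC.cons Pool.Agent.TOPW.R6116H.Ts_3.cellS_5_3_5_2 (AllC.cons Pool.Agent.TOPW.R6116H.Ts_3.cellS_5_3_5_3 (AllC.cons Pool.Agent.TOPW.R6116H.Ts_4.cellS_5_4_5_0 (AllC.cons Pool.Agent.TOPW.R6116H.Ts_4.cellS_5_4_5_1 (AllC.cons Pool.Agent.TOPW.R6116H.Ts_5.cellS_5_4_5_2 (AllC.cons Pool.Agent.TOPW.R6116H.Ts_5.cellS_5_4_6_6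 (AllC.cons Pool.Agent.TOPW.R6116H.Ts_6.cellS_5_4_6_7 (AllC.cons Pool.Agent.TOPW.R6116H.Ts_16.cellS_6_8_6_8 (AllC.cons Pool.Agent.TOPW.R6116H.Ts_16.cellS_6_9_6_8 (AllC.cons Pool.Agent.TOPW.R6116H.Ts_16.cellS_6_9_6_9 (AllC.cons Pool.Agent.TOPW.R6116H.Ts_6.cellS_5_5_5_0 (AllC.cons Pool.Agent.TOPW.R6116H.Ts_7.cellS_5_5_5_1 (AllC.cons Pool.Agent.TOPW.R6116H.Ts_8.cellS_5_5_5_2 (AllC.cons Pool.Agent.TOPW.R6116H.Ts_9.cellS_5_5_6_6 (AllC.cons Pool.Agent.TOPW.R6116H.Ts_17.cellS_6_10_6_7 (AllC.cons Pool.Agent.TOPW.R6116H.Ts_17.cellS_6_11_6_7 (AllC.cons Pool.Agent.TOPW.R6116H.Ts_17.cellS_6_10_6_8 (AllC.cons Pool.Agent.TOPW.R6116H.Ts_17.cellS_6_10_6_9 (AllC.cons Pool.Agent.TOPW.R6116H.Ts_17.cellS_6_10_6_10 (AllC.cons Pool.Agent.TOPW.R6116H.Ts_18.cellS_6_11_6_8 (AllC.cons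 Pool.Agent.TOPW.R6116H.Ts_18.cellS_6_11_6_9 (AllC.cons Pool.Agent.TOPW.R6116H.Ts_18.cellS_6_11_6_10 (AllC.cons Pool.Agent.TOPW.R6116H.Ts_18.cellS_6_11_6_11 (AllC.cons Pool.Agent.TOPW.R6116H.Ts_9.cellS_5_6_5_0 (AllC.nil))))))))))))))))))))))))))))))))

def LS_1 : List UC := [⟨5, 6, 5, 1⟩, ⟨6, 12, 5, 2⟩, ⟨6, 13, 5, 2⟩, ⟨5, 6, 6, 6⟩, ⟨5, 6, 6, 7⟩, ⟨6, 12, 6, 8⟩, ⟨6, 12, 6, 9⟩, ⟨6, 12, 6, 10⟩, ⟨6, 12, 6, 11⟩, ⟨6, 12, 6, 12⟩, ⟨6, 13, 6, 8⟩, ⟨6, 13, 6, 9⟩, ⟨6, 13, 6, 10⟩, ⟨6, 13, 6, 11⟩, ⟨6, 13, 6, 12⟩, ⟨6, 13, 6, 13⟩, ⟨6, 14, 5, 0⟩, ⟨6, 14, 6, 2⟩, ⟨6, 14, 6, 3⟩, ⟨6, 14, 5, 2⟩, ⟨6, 14, 6, 6⟩, ⟨6, 14, 6, 7⟩, ⟨6, 14, 6, 8⟩, ⟨6, 14, 6, 9⟩, ⟨6, 14, 6, 10⟩, ⟨6, 14, 6, 11⟩, ⟨6, 14, 6, 12⟩, ⟨6, 14, 6, 13⟩, ⟨6, 14, 5, 7⟩, ⟨6, 15, 5, 0⟩, ⟨6, 15, 6, 2⟩, ⟨6, 15, 6, 3⟩]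

theorem aS_1 : AllC (PSc c) LS_1 := AllC.cons Pool.Agent.TOPW.R6116H.Ts_10.cellS_5_6_5_1 (AllC.cons Pool.Agent.TOPW.R6116H.Ts_19.cellS_6_12_5_2 (AllC.cons Pool.Agent.TOPW.R6116H.Ts_20.cellS_6_13_5_2 (AllC.cons Pool.Agent.TOPW.R6116H.Ts_10.cellS_5_6_6_6 (AllC.cons Pool.Agent.TOPW.R6116H.Ts_11.cellS_5_6_6_7 (AllC.cons Pool.Agent.TOPW.R6116H.Ts_19.cellS_6_12_6_8 (AllC.cons Pool.Agent.TOPW.R6116H.Ts_19.cellS_6_12_6_9 (AllC.cons Pool.Agent.TOPW.R6116H.Ts_19.cellS_6_12_6_10 (AllC.cons Pool.Agent.TOPW.R6116H.Ts_20.cellS_6_12_6_11 (AllC.cons Pool.Agent.TOPW.R6116H.Ts_20.cellS_6_12_6_12 (AllC.cons Pool.Agent.TOPW.R6116H.Ts_21.cellS_6_13_6_8 (AllC.cons Pool.Agent.TOPW.R6116H.Ts_21.cellS_6_13_6_9 (AllC.cons Pool.Agent.TOPW.R6116H.Ts_21.cellS_6_13_6_10 (AllC.cons Pool.Agent.TOPW.R6116H.Ts_21.cellS_6_13_6_11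 (AllC.cons Pool.Agent.TOPW.R6116H.Ts_22.cellS_6_13_6_12 (AllC.cons Pool.Agent.TOPW.R6116H.Ts_22.cellS_6_13_6_13 (AllC.cons Pool.Agent.TOPW.R6116H.Ts_22.cellS_6_14_5_0 (AllC.cons Pool.Agent.TOPW.R6116H.Ts_23.cellS_6_14_6_2 (AllC.cons Pool.Agent.TOPW.R6116H.Ts_23.cellS_6_14_6_3 (AllC.cons Pool.Agent.TOPW.R6116H.Ts_22.cellS_6_14_5_2 (AllC.cons Pool.Agent.TOPW.R6116H.Ts_23.cellS_6_14_6_6 (AllC.cons Pool.Agent.TOPW.R6116H.Ts_23.cellS_6_14_6_7 (AllC.cons Pool.Agent.TOPW.R6116H.Ts_23.cellS_6_14_6_8 (AllC.cons Pool.Agent.TOPW.R6116H.Ts_24.cellS_6_14_6_9 (AllC.cons Pool.Agent.TOPW.R6116H.Ts_24.cellS_6_14_6_10 (AllC.cons Pool.Agent.TOPW.R6116H.Ts_24.cellS_6_14_6_11 (AllC.cons Pool.Agent.TOPW.R6116H.Ts_24.cellS_6_14_6_12 (AllC.cons Pool.Agent.TOPW.R6116H.Ts_24.cellS_6_14_6_13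 (AllC.cons Pool.Agent.TOPW.R6116H.Ts_23.cellS_6_14_5_7 (AllC.cons Pool.Agent.TOPW.R6116H.Ts_25.cellS_6_15_5_0 (AllC.cons Pool.Agent.TOPW.R6116H.Ts_25.cellS_6_15_6_2 (AllC.cons Pool.Agent.TOPW.R6116H.Ts_26.cellS_6_15_6_3 (AllC.nil))))))))))))))))))))))))))))))))

def LS_2 : List UC := [⟨6, 15, 5, 2⟩, ⟨6, 15, 6, 6⟩, ⟨6, 15, 6, 7⟩, ⟨6, 15, 6, 8⟩, ⟨6, 15, 6, 9⟩, ⟨6, 15, 6, 10⟩, ⟨6, 15, 6, 11⟩, ⟨6, 15, 6, 12⟩, ⟨6, 15, 6, 13⟩, ⟨6, 15, 5, 7⟩, ⟨6, 16, 6, 0⟩, ⟨6, 16, 6, 1⟩, ⟨6, 16, 6, 2⟩, ⟨6, 16, 6, 3⟩, ⟨6, 16, 5, 2⟩, ⟨6, 16, 6, 6⟩, ⟨6, 16, 6, 7⟩, ⟨6, 17, 6, 0⟩, ⟨6, 17, 6, 1⟩, ⟨6, 17, 6, 2⟩, ⟨6, 17, 6, 3⟩, ⟨6, 17, 5, 2⟩, ⟨6, 17, 6, 6⟩, ⟨6, 17, 6, 7⟩, ⟨6, 16, 6, 8⟩, ⟨6, 16, 6, 9⟩, ⟨6, 16, 6, 10⟩, ⟨6, 16, 6, 11⟩, ⟨6, 17, 6, 8⟩, ⟨6, 17, 6, 9⟩, ⟨6, 17, 6, 10⟩, ⟨6, 17, 6,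 11⟩]

theorem aS_2 : AllC (PSc c) LS_2 := AllC.cons Pool.Agent.TOPW.R6116H.Ts_25.cellS_6_15_5_2 (AllC.cons Pool.Agent.TOPW.R6116H.Ts_26.cellS_6_15_6_6 (AllC.cons Pool.Agent.TOPW.R6116H.Ts_26.cellS_6_15_6_7 (AllC.cons Pool.Agent.TOPW.R6116H.Ts_26.cellS_6_15_6_8 (AllC.cons Pool.Agent.TOPW.R6116H.Ts_26.cellS_6_15_6_9 (AllC.cons Pool.Agent.TOPW.R6116H.Ts_27.cellS_6_15_6_10 (AllC.cons Pool.Agent.TOPW.R6116H.Ts_27.cellS_6_15_6_11 (AllC.cons Pool.Agent.TOPW.R6116H.Ts_27.cellS_6_15_6_12 (AllC.cons Pool.Agent.TOPW.R6116H.Ts_27.cellS_6_15_6_13 (AllC.cons Pool.Agent.TOPW.R6116H.Ts_25.cellS_6_15_5_7 (AllC.cons Pool.Agent.TOPW.R6116H.Ts_28.cellS_6_16_6_0 (AllC.cons Pool.Agent.TOPW.R6116H.Ts_28.cellS_6_16_6_1 (AllC.cons Pool.Agent.TOPW.R6116H.Ts_28.cellS_6_16_6_2 (AllC.cons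 Pool.Agent.TOPW.R6116H.Ts_29.cellS_6_16_6_3 (AllC.cons Pool.Agent.TOPW.R6116H.Ts_28.cellS_6_16_5_2 (AllC.cons Pool.Agent.TOPW.R6116H.Ts_29.cellS_6_16_6_6 (AllC.cons Pool.Agent.TOPW.R6116H.Ts_29.cellS_6_16_6_7 (AllC.cons Pool.Agent.TOPW.R6116H.Ts_30.cellS_6_17_6_0 (AllC.cons Pool.Agent.TOPW.R6116H.Ts_31.cellS_6_17_6_1 (AllC.cons Pool.Agent.TOPW.R6116H.Ts_31.cellS_6_17_6_2 (AllC.cons Pool.Agent.TOPW.R6116H.Ts_31.cellS_6_17_6_3 (AllC.cons Pool.Agent.TOPW.R6116H.Ts_30.cellS_6_17_5_2 (AllC.cons Pool.Agent.TOPW.R6116H.Ts_31.cellS_6_17_6_6 (AllC.cons Pool.Agent.TOPW.R6116H.Ts_31.cellS_6_17_6_7 (AllC.cons Pool.Agent.TOPW.R6116H.Ts_29.cellS_6_16_6_8 (AllC.cons Pool.Agent.TOPW.R6116H.Ts_29.cellS_6_16_6_9 (AllC.cons Pool.Agent.TOPW.R6116H.Ts_30.cellS_6_16_6_10 (AllC.cons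 Pool.Agent.TOPW.R6116H.Ts_30.cellS_6_16_6_11 (AllC.cons Pool.Agent.TOPW.R6116H.Ts_32.cellS_6_17_6_8 (AllC.cons Pool.Agent.TOPW.R6116H.Ts_32.cellS_6_17_6_9 (AllC.cons Pool.Agent.TOPW.R6116H.Ts_32.cellS_6_17_6_10 (AllC.cons Pool.Agent.TOPW.R6116H.Ts_32.cellS_6_17_6_11 (AllC.nil))))))))))))))))))))))))))))))))

def LS_3 : List UC := [⟨5, 8, 6, 12⟩, ⟨5, 8, 6, 13⟩, ⟨5, 8, 5, 7⟩, ⟨5, 8, 5, 8⟩, ⟨6, 18, 6, 0⟩, ⟨6, 18, 6, 1⟩, ⟨6, 18, 6, 2⟩, ⟨6, 18, 6, 3⟩, ⟨6, 18, 6, 4⟩, ⟨6, 18, 6, 5⟩, ⟨6, 18, 6, 6⟩, ⟨6, 18, 6, 7⟩, ⟨6, 19, 6, 0⟩, ⟨6, 19, 6, 1⟩, ⟨6, 19, 6, 2⟩, ⟨6, 19, 6, 3⟩, ⟨6, 19, 6, 4⟩, ⟨6, 19, 6, 5⟩, ⟨6, 19, 6, 6⟩, ⟨6, 19, 6, 7⟩, ⟨6, 18, 6, 8⟩, ⟨6, 18, 6, 9⟩, ⟨6, 19, 6, 8⟩, ⟨6, 19, 6, 9⟩, ⟨5, 9, 6, 10⟩, ⟨5, 9, 6, 11⟩, ⟨5, 9, 5, 6⟩, ⟨5, 9, 5, 7⟩, ⟨5, 9, 5, 8⟩, ⟨5, 9,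 5, 9⟩, ⟨6, 20, 6, 0⟩, ⟨6, 20, 6, 1⟩]

theorem aS_3 : AllC (PSc c) LS_3 := AllC.cons Pool.Agent.TOPW.R6116H.Ts_11.cellS_5_8_6_12 (AllC.cons Pool.Agent.TOPW.R6116H.Ts_11.cellS_5_8_6_13 (AllC.cons Pool.Agent.TOPW.R6116H.Ts_11.cellS_5_8_5_7 (AllC.cons Pool.Agent.TOPW.R6116H.Ts_11.cellS_5_8_5_8 (AllC.cons Pool.Agent.TOPW.R6116H.Ts_32.cellS_6_18_6_0 (AllC.cons Pool.Agent.TOPW.R6116H.Ts_32.cellS_6_18_6_1 (AllC.cons Pool.Agent.TOPW.R6116H.Ts_32.cellS_6_18_6_2 (AllC.cons Pool.Agent.TOPW.R6116H.Ts_33.cellS_6_18_6_3 (AllC.cons Pool.Agent.TOPW.R6116H.Ts_33.cellS_6_18_6_4 (AllC.cons Pool.Agent.TOPW.R6116H.Ts_33.cellS_6_18_6_5 (AllC.cons Pool.Agent.TOPW.R6116H.Ts_33.cellS_6_18_6_6 (AllC.cons Pool.Agent.TOPW.R6116H.Ts_33.cellS_6_18_6_7 (AllC.cons Pool.Agent.TOPW.R6116H.Ts_34.cellS_6_19_6_0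 (AllC.cons Pool.Agent.TOPW.R6116H.Ts_34.cellS_6_19_6_1 (AllC.cons Pool.Agent.TOPW.R6116H.Ts_34.cellS_6_19_6_2 (AllC.cons Pool.Agent.TOPW.R6116H.Ts_34.cellS_6_19_6_3 (AllC.cons Pool.Agent.TOPW.R6116H.Ts_35.cellS_6_19_6_4 (AllC.cons Pool.Agent.TOPW.R6116H.Ts_35.cellS_6_19_6_5 (AllC.cons Pool.Agent.TOPW.R6116H.Ts_35.cellS_6_19_6_6 (AllC.cons Pool.Agent.TOPW.R6116H.Ts_35.cellS_6_19_6_7 (AllC.cons Pool.Agent.TOPW.R6116H.Ts_34.cellS_6_18_6_8 (AllC.cons Pool.Agent.TOPW.R6116H.Ts_34.cellS_6_18_6_9 (AllC.cons Pool.Agent.TOPW.R6116H.Ts_35.cellS_6_19_6_8 (AllC.cons Pool.Agent.TOPW.R6116H.Ts_35.cellS_6_19_6_9 (AllC.cons Pool.Agent.TOPW.R6116H.Ts_12.cellS_5_9_6_10 (AllC.cons Pool.Agent.TOPW.R6116H.Ts_12.cellS_5_9_6_11 (AllC.cons Pool.Agent.TOPW.R6116H.Ts_11.cellS_5_9_5_6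 (AllC.cons Pool.Agent.TOPW.R6116H.Ts_11.cellS_5_9_5_7 (AllC.cons Pool.Agent.TOPW.R6116H.Ts_11.cellS_5_9_5_8 (AllC.cons Pool.Agent.TOPW.R6116H.Ts_12.cellS_5_9_5_9 (AllC.cons Pool.Agent.TOPW.R6116H.Ts_36.cellS_6_20_6_0 (AllC.cons Pool.Agent.TOPW.R6116H.Ts_36.cellS_6_20_6_1 (AllC.nil))))))))))))))))))))))))))))))))

def LS_4 : List UC := [⟨6, 20, 6, 2⟩, ⟨6, 20, 6, 3⟩, ⟨6, 20, 6, 4⟩, ⟨6, 20, 6, 5⟩, ⟨6, 20, 6, 6⟩, ⟨6, 20, 6, 7⟩, ⟨6, 21, 6, 0⟩, ⟨6, 21, 6, 1⟩, ⟨6, 21, 6, 2⟩, ⟨6, 21, 6, 3⟩, ⟨6, 21, 6, 4⟩, ⟨6, 21, 6, 5⟩, ⟨6, 21, 6, 6⟩, ⟨6, 21, 6, 7⟩, ⟨5, 10, 6, 8⟩, ⟨5, 10, 6, 9⟩, ⟨5, 10, 5, 5⟩, ⟨5, 10, 5, 6⟩, ⟨5, 10, 5, 7⟩, ⟨5, 10, 5, 8⟩, ⟨5, 10, 5, 9⟩, ⟨5, 10, 5, 10⟩, ⟨6, 22, 6, 0⟩, ⟨6, 22, 6, 1⟩, ⟨6, 22, 6, 2⟩, ⟨6, 22, 6, 3⟩, ⟨6, 23, 6, 0⟩, ⟨6, 23, 6, 1⟩, ⟨6, 23, 6,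 2⟩, ⟨6, 23, 6, 3⟩, ⟨6, 22, 6, 4⟩, ⟨6, 22, 6, 5⟩]

theorem aS_4 : AllC (PSc c) LS_4 := AllC.cons Pool.Agent.TOPW.R6116H.Ts_36.cellS_6_20_6_2 (AllC.cons Pool.Agent.TOPW.R6116H.Ts_36.cellS_6_20_6_3 (AllC.cons Pool.Agent.TOPW.R6116H.Ts_36.cellS_6_20_6_4 (AllC.cons Pool.Agent.TOPW.R6116H.Ts_37.cellS_6_20_6_5 (AllC.cons Pool.Agent.TOPW.R6116H.Ts_37.cellS_6_20_6_6 (AllC.cons Pool.Agent.TOPW.R6116H.Ts_37.cellS_6_20_6_7 (AllC.cons Pool.Agent.TOPW.R6116H.Ts_37.cellS_6_21_6_0 (AllC.cons Pool.Agent.TOPW.R6116H.Ts_37.cellS_6_21_6_1 (AllC.cons Pool.Agent.TOPW.R6116H.Ts_37.cellS_6_21_6_2 (AllC.cons Pool.Agent.TOPW.R6116H.Ts_38.cellS_6_21_6_3 (AllC.cons Pool.Agent.TOPW.R6116H.Ts_38.cellS_6_21_6_4 (AllC.cons Pool.Agent.TOPW.R6116H.Ts_38.cellS_6_21_6_5 (AllC.cons Pool.Agent.TOPW.R6116H.Ts_38.cellS_6_21_6_6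 (AllC.cons Pool.Agent.TOPW.R6116H.Ts_38.cellS_6_21_6_7 (AllC.cons Pool.Agent.TOPW.R6116H.Ts_12.cellS_5_10_6_8 (AllC.cons Pool.Agent.TOPW.R6116H.Ts_12.cellS_5_10_6_9 (AllC.cons Pool.Agent.TOPW.R6116H.Ts_12.cellS_5_10_5_5 (AllC.cons Pool.Agent.TOPW.R6116H.Ts_12.cellS_5_10_5_6 (AllC.cons Pool.Agent.TOPW.R6116H.Ts_12.cellS_5_10_5_7 (AllC.cons Pool.Agent.TOPW.R6116H.Ts_12.cellS_5_10_5_8 (AllC.cons Pool.Agent.TOPW.R6116H.Ts_12.cellS_5_10_5_9 (AllC.cons Pool.Agent.TOPW.R6116H.Ts_12.cellS_5_10_5_10 (AllC.cons Pool.Agent.TOPW.R6116H.Ts_38.cellS_6_22_6_0 (AllC.cons Pool.Agent.TOPW.R6116H.Ts_39.cellS_6_22_6_1 (AllC.cons Pool.Agent.TOPW.R6116H.Ts_39.cellS_6_22_6_2 (AllC.cons Pool.Agent.TOPW.R6116H.Ts_39.cellS_6_22_6_3 (AllC.cons Pool.Agent.TOPW.R6116H.Ts_40.cellS_6_23_6_0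 (AllC.cons Pool.Agent.TOPW.R6116H.Ts_40.cellS_6_23_6_1 (AllC.cons Pool.Agent.TOPW.R6116H.Ts_40.cellS_6_23_6_2 (AllC.cons Pool.Agent.TOPW.R6116H.Ts_40.cellS_6_23_6_3 (AllC.cons Pool.Agent.TOPW.R6116H.Ts_39.cellS_6_22_6_4 (AllC.cons Pool.Agent.TOPW.R6116H.Ts_39.cellS_6_22_6_5 (AllC.nil))))))))))))))))))))))))))))))))

def LS_5 : List UC := [⟨6, 23, 6, 4⟩, ⟨6, 23, 6, 5⟩, ⟨5, 11, 6, 6⟩, ⟨5, 11, 6, 7⟩, ⟨5, 11, 5, 4⟩, ⟨5, 11, 5, 5⟩, ⟨5, 11, 5, 6⟩, ⟨5, 11, 5, 7⟩, ⟨5, 11, 5, 8⟩, ⟨5, 11, 5, 9⟩, ⟨5, 11, 6, 20⟩, ⟨5, 11, 6, 21⟩, ⟨6, 22, 6, 22⟩, ⟨6, 23, 6, 22⟩, ⟨6, 23, 6, 23⟩, ⟨6, 24, 6, 0⟩, ⟨6, 24, 6, 1⟩, ⟨6, 24, 6, 2⟩, ⟨6, 24, 6, 3⟩, ⟨6, 25, 6, 0⟩, ⟨6, 25, 6, 1⟩, ⟨6, 25, 6, 2⟩, ⟨6, 25, 6, 3⟩, ⟨5, 12, 6, 4⟩, ⟨5, 12, 6, 5⟩, ⟨5, 12, 5, 3⟩, ⟨6, 24, 5, 4⟩, ⟨6, 25, 6, 8⟩, ⟨6,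 25, 6, 9⟩, ⟨6, 24, 6, 10⟩, ⟨6, 25, 6, 10⟩, ⟨5, 12, 6, 11⟩]

theorem aS_5 : AllC (PSc c) LS_5 := AllC.cons Pool.Agent.TOPW.R6116H.Ts_40.cellS_6_23_6_4 (AllC.cons Pool.Agent.TOPW.R6116H.Ts_40.cellS_6_23_6_5 (AllC.cons Pool.Agent.TOPW.R6116H.Ts_13.cellS_5_11_6_6 (AllC.cons Pool.Agent.TOPW.R6116H.Ts_13.cellS_5_11_6_7 (AllC.cons Pool.Agent.TOPW.R6116H.Ts_12.cellS_5_11_5_4 (AllC.cons Pool.Agent.TOPW.R6116H.Ts_13.cellS_5_11_5_5 (AllC.cons Pool.Agent.TOPW.R6116H.Ts_13.cellS_5_11_5_6 (AllC.cons Pool.Agent.TOPW.R6116H.Ts_13.cellS_5_11_5_7 (AllC.cons Pool.Agent.TOPW.R6116H.Ts_13.cellS_5_11_5_8 (AllC.cons Pool.Agent.TOPW.R6116H.Ts_13.cellS_5_11_5_9 (AllC.cons Pool.Agent.TOPW.R6116H.Ts_13.cellS_5_11_6_20 (AllC.cons Pool.Agent.TOPW.R6116H.Ts_14.cellS_5_11_6_21 (AllC.cons Pool.Agent.TOPW.R6116H.Ts_39.cellS_6_22_6_22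 (AllC.cons Pool.Agent.TOPW.R6116H.Ts_41.cellS_6_23_6_22 (AllC.cons Pool.Agent.TOPW.R6116H.Ts_41.cellS_6_23_6_23 (AllC.cons Pool.Agent.TOPW.R6116H.Ts_41.cellS_6_24_6_0 (AllC.cons Pool.Agent.TOPW.R6116H.Ts_41.cellS_6_24_6_1 (AllC.cons Pool.Agent.TOPW.R6116H.Ts_42.cellS_6_24_6_2 (AllC.cons Pool.Agent.TOPW.R6116H.Ts_42.cellS_6_24_6_3 (AllC.cons Pool.Agent.TOPW.R6116H.Ts_42.cellS_6_25_6_0 (AllC.cons Pool.Agent.TOPW.R6116H.Ts_42.cellS_6_25_6_1 (AllC.cons Pool.Agent.TOPW.R6116H.Ts_43.cellS_6_25_6_2 (AllC.cons Pool.Agent.TOPW.R6116H.Ts_43.cellS_6_25_6_3 (AllC.cons Pool.Agent.TOPW.R6116H.Ts_14.cellS_5_12_6_4 (AllC.cons Pool.Agent.TOPW.R6116H.Ts_14.cellS_5_12_6_5 (AllC.cons Pool.Agent.TOPW.R6116H.Ts_14.cellS_5_12_5_3 (AllC.cons Pool.Agent.TOPW.R6116H.Ts_41.cellS_6_24_5_4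 (AllC.cons Pool.Agent.TOPW.R6116H.Ts_43.cellS_6_25_6_8 (AllC.cons Pool.Agent.TOPW.R6116H.Ts_43.cellS_6_25_6_9 (AllC.cons Pool.Agent.TOPW.R6116H.Ts_42.cellS_6_24_6_10 (AllC.cons Pool.Agent.TOPW.R6116H.Ts_43.cellS_6_25_6_10 (AllC.cons Pool.Agent.TOPW.R6116H.Ts_14.cellS_5_12_6_11 (AllC.nil))))))))))))))))))))))))))))))))

def LS_6 : List UC := [⟨5, 12, 6, 12⟩, ⟨6, 24, 6, 13⟩, ⟨6, 25, 6, 13⟩, ⟨6, 24, 6, 14⟩, ⟨6, 25, 6, 14⟩, ⟨5, 12, 6, 15⟩, ⟨5, 12, 6, 16⟩, ⟨5, 12, 6, 17⟩, ⟨5, 12, 5, 9⟩, ⟨5, 12, 6, 20⟩, ⟨6, 24, 6, 21⟩, ⟨6, 26, 6, 0⟩, ⟨6, 26, 6, 1⟩, ⟨6, 26, 6, 2⟩, ⟨5, 13, 6, 3⟩, ⟨5, 13, 5, 2⟩, ⟨5, 13, 5, 3⟩, ⟨6, 26, 6, 8⟩, ⟨6, 26, 6, 9⟩]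

theorem aS_6 : AllC (PSc c) LS_6 := AllC.cons Pool.Agent.TOPW.R6116H.Ts_15.cellS_5_12_6_12 (AllC.cons Pool.Agent.TOPW.R6116H.Ts_42.cellS_6_24_6_13 (AllC.cons Pool.Agent.TOPW.R6116H.Ts_43.cellS_6_25_6_13 (AllC.cons Pool.Agent.TOPW.R6116H.Ts_42.cellS_6_24_6_14 (AllC.cons Pool.Agent.TOPW.R6116H.Ts_43.cellS_6_25_6_14 (AllC.cons Pool.Agent.TOPW.R6116H.Ts_15.cellS_5_12_6_15 (AllC.cons Pool.Agent.TOPW.R6116H.Ts_15.cellS_5_12_6_16 (AllC.cons Pool.Agent.TOPW.R6116H.Ts_15.cellS_5_12_6_17 (AllC.cons Pool.Agent.TOPW.R6116H.Ts_14.cellS_5_12_5_9 (AllC.cons Pool.Agent.TOPW.R6116H.Ts_15.cellS_5_12_6_20 (AllC.cons Pool.Agent.TOPW.R6116H.Ts_42.cellS_6_24_6_21 (AllC.cons Pool.Agent.TOPW.R6116H.Ts_43.cellS_6_26_6_0 (AllC.cons Pool.Agent.TOPW.R6116H.Ts_44.cellS_6_26_6_1 (AllC.cons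 Pool.Agent.TOPW.R6116H.Ts_44.cellS_6_26_6_2 (AllC.cons Pool.Agent.TOPW.R6116H.Ts_16.cellS_5_13_6_3 (AllC.cons Pool.Agent.TOPW.R6116H.Ts_15.cellS_5_13_5_2 (AllC.cons Pool.Agent.TOPW.R6116H.Ts_15.cellS_5_13_5_3 (AllC.cons Pool.Agent.TOPW.R6116H.Ts_44.cellS_6_26_6_8 (AllC.cons Pool.Agent.TOPW.R6116H.Ts_44.cellS_6_26_6_9 (AllC.nil)))))))))))))))))))

def LLS : List UC := ((LS_0 ++ (LS_1 ++ LS_2)) ++ ((LS_3 ++ LS_4) ++ (LS_5 ++ LS_6)))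

theorem allS : AllC (PSc c) LLS := (AllC.append (AllC.append aS_0 (AllC.append aS_1 aS_2)) (AllC.append (AllC.append aS_3 aS_4) (AllC.append aS_5 aS_6)))

theorem tokS : TS.ok rootU = true := by decide +kernel

theorem tlS : TS.leaves rootU = LLS := by decide +kernel

def tP_0 : UT := (UT.cut true (UT.cut true (UT.cut true (UT.cut true (UT.cut false (UT.cut false (UT.cut false (UT.cut false UT.leaf UT.out) UT.out) UT.out) UT.out) (UT.cut false (UT.cut false (UT.cut false (UT.cut false UT.leaf (UT.cut true UT.leaf (UT.cut false UT.leaf UT.leaf))) UT.out) UT.out) UT.out)) (UT.cut true (UT.cut false (UT.cut false (UT.cut false (UT.cut false UT.leaf UT.leaf) (UT.cut false UT.leaf UT.out)) UT.out) UT.out) (UT.cut false (UT.cut false (UT.cut false (UT.cut false UT.leaf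 UT.leaf) (UT.cut false UT.leaf (UT.cut false UT.leaf (UT.cut true UT.out UT.leaf)))) UT.out) UT.out))) (UT.cut true (UT.cut true (UT.cut false (UT.cut false (UT.cut false (UT.cut false UT.leaf UT.leaf) (UT.cut true (UT.cut false UT.leaf UT.leaf) (UT.cut false UT.leaf UT.leaf))) (UT.cut false (UT.cut false (UT.cut false UT.leaf (UT.cut true UT.out UT.leaf)) UT.out) UT.out)) UT.out) (UT.cut false (UT.cut false (UT.cut false (UT.cut false UT.leaf UT.leaf) (UT.cut false UT.leaf UT.leaf)) (UT.cut true (UT.cut false (UT.cut false (UT.cut false UT.leaf (UT.cut true UT.leaf (UT.cut false UT.leaf (UT.cut true UT.leaf UT.leaf)))) (UT.cut true (UT.cut false (UT.cut false UT.leaf UT.out) UT.out) (UT.cut false UT.leaf UT.out))) UT.out) (UT.cut false (UT.cut false (UT.cut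 true (UT.cut false (UT.cut false UT.leaf UT.leaf) (UT.cut true (UT.cut false (UT.cut false UT.leaf UT.leaf) (UT.cut false UT.leaf UT.leaf)) (UT.cut false (UT.cut false UT.leaf UT.leaf) (UT.cut false UT.leaf UT.leaf)))) (UT.cut false (UT.cut false UT.leaf UT.leaf) (UT.cut true (UT.cut false (UT.cut false UT.leaf UT.leaf) (UT.cut false UT.leaf UT.leaf)) (UT.cut false (UT.cut false UT.leaf UT.leaf) UT.leaf)))) (UT.cut false UT.leaf UT.leaf)) UT.out))) UT.out)) (UT.cut true (UT.cut false (UT.cut false (UT.cut false (UT.cut false UT.leaf UT.leaf) (UT.cut false UT.leaf (UT.cut true (UT.cut false UT.leaf UT.leaf) (UT.cut false UT.leaf UT.leaf)))) (UT.cut false (UT.cut true (UT.cut false (UT.cut true (UT.cut false UT.leaf (UT.cut false UT.leaf UT.leaf)) (UT.cut false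 UT.leaf UT.leaf)) UT.leaf) (UT.cut false (UT.cut false UT.leaf UT.leaf) UT.leaf)) (UT.cut false UT.leaf UT.out))) UT.out) (UT.cut false (UT.cut false (UT.cut true (UT.cut false (UT.cut false UT.leaf UT.leaf) (UT.cut false (UT.cut false UT.leaf UT.leaf) (UT.cut false (UT.cut true UT.leaf (UT.cut false UT.leaf UT.leaf)) UT.leaf))) (UT.cut false (UT.cut false UT.leaf UT.leaf) (UT.cut false (UT.cut false UT.leaf (UT.cut true UT.leaf UT.leaf)) (UT.cut true (UT.cut false (UT.cut false UT.leaf UT.leaf) UT.leaf) (UT.cut false (UT.cut false UT.leaf (UT.cut true UT.leaf UT.leaf)) (UT.cut false UT.leaf UT.leaf)))))) (UT.cut false (UT.cut false (UT.cut true UT.leaf (UT.cut false UT.leaf UT.leaf)) UT.leaf) (UT.cut false UT.leaf UT.leaf))) UT.out)))) (UT.cut true (UT.cut true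 (UT.cut true (UT.cut false (UT.cut false (UT.cut false (UT.cut false UT.leaf UT.leaf) (UT.cut false UT.leaf (UT.cut true (UT.cut true (UT.cut false UT.leaf (UT.cut false (UT.cut true UT.leaf UT.leaf) UT.leaf)) (UT.cut false UT.leaf (UT.cut false UT.leaf UT.leaf))) (UT.cut false UT.leaf (UT.cut true (UT.cut false UT.leaf UT.leaf) UT.leaf))))) (UT.cut false (UT.cut false (UT.cut false (UT.cut true (UT.cut true UT.leaf (UT.cut false (UT.cut true (UT.cut false UT.leaf UT.leaf) UT.leaf) UT.leaf)) UT.leaf) UT.leaf) UT.leaf) (UT.cut false UT.leaf UT.leaf))) (UT.cut false (UT.cut false (UT.cut false UT.leaf UT.out) UT.out) UT.out)) (UT.cut false (UT.cut false (UT.cut false (UT.cut false UT.leaf UT.leaf) (UT.cut false UT.leaf UT.leaf)) (UT.cut false (UT.cut false UT.leaf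 UT.leaf) (UT.cut false UT.leaf UT.leaf))) (UT.cut false (UT.cut false (UT.cut false UT.leaf UT.leaf) UT.out) UT.out))) (UT.cut true (UT.cut false (UT.cut false (UT.cut false (UT.cut false UT.leaf UT.leaf) (UT.cut false UT.leaf UT.leaf)) (UT.cut false (UT.cut false UT.leaf UT.leaf) (UT.cut false UT.leaf UT.leaf))) (UT.cut false (UT.cut false (UT.cut false UT.leaf UT.leaf) (UT.cut false UT.leaf UT.out)) UT.out)) (UT.cut false (UT.cut false (UT.cut false (UT.cut false UT.leaf UT.leaf) (UT.cut false UT.leaf UT.leaf)) (UT.cut false (UT.cut false UT.leaf UT.leaf) (UT.cut false UT.leaf UT.leaf))) (UT.cut false (UT.cut false (UT.cut false UT.leaf UT.leaf) (UT.cut false UT.leaf UT.leaf)) UT.out)))) (UT.cut true (UT.cut true (UT.cut false (UT.cut false (UT.cut false (UT.cut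 false UT.leaf UT.leaf) (UT.cut false UT.leaf UT.leaf)) (UT.cut false (UT.cut false UT.leaf UT.leaf) (UT.cut false UT.leaf UT.leaf))) (UT.cut false (UT.cut false (UT.cut false UT.leaf UT.leaf) (UT.cut false UT.leaf UT.out)) UT.out)) (UT.cut false (UT.cut false (UT.cut false (UT.cut false (UT.cut true (UT.cut false UT.leaf UT.leaf) UT.out) UT.leaf) (UT.cut false UT.leaf UT.leaf)) (UT.cut false (UT.cut false UT.leaf UT.out) UT.out)) UT.out)) UT.out)))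

def TP : UT := tP_0

def LP_0 : List UC := [⟨5, 0, 5, 0⟩, ⟨5, 1, 5, 0⟩, ⟨6, 2, 5, 1⟩, ⟨6, 3, 6, 2⟩, ⟨6, 3, 6, 3⟩, ⟨5, 2, 5, 0⟩, ⟨5, 2, 5, 1⟩, ⟨5, 2, 5, 2⟩, ⟨5, 3, 5, 0⟩, ⟨5, 3, 5, 1⟩, ⟨5, 3, 5, 2⟩, ⟨5, 3, 6, 6⟩, ⟨6, 7, 6, 7⟩, ⟨5, 4, 5, 0⟩, ⟨5, 4, 5, 1⟩, ⟨6, 8, 5, 2⟩, ⟨6, 8, 5, 3⟩, ⟨6, 9, 5, 2⟩, ⟨6, 9, 5, 3⟩, ⟨5, 4, 6, 8⟩, ⟨6, 9, 6, 9⟩, ⟨5, 5, 5, 0⟩, ⟨5, 5, 5, 1⟩, ⟨5, 5, 5, 2⟩, ⟨5, 5, 5, 3⟩, ⟨6, 10, 6, 8⟩, ⟨7, 20, 6, 9⟩, ⟨7, 21, 7, 18⟩, ⟨8, 42, 7, 19⟩, ⟨8, 43, 7, 19⟩, ⟨7, 20, 7, 20⟩, ⟨7, 21, 6, 10⟩]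

theorem aP_0 : AllC (PPc c) LP_0 := AllC.cons Pool.Agent.TOPW.R6116H.Tp_1.cellP_5_0_5_0 (AllC.cons Pool.Agent.TOPW.R6116H.Tp_1.cellP_5_1_5_0 (AllC.cons Pool.Agent.TOPW.R6116H.Tp_3.cellP_6_2_5_1 (AllC.cons Pool.Agent.TOPW.R6116H.Tp_3.cellP_6_3_6_2 (AllC.cons Pool.Agent.TOPW.R6116H.Tp_3.cellP_6_3_6_3 (AllC.cons Pool.Agent.TOPW.R6116H.Tp_1.cellP_5_2_5_0 (AllC.cons Pool.Agent.TOPW.R6116H.Tp_1.cellP_5_2_5_1 (AllC.cons Pool.Agent.TOPW.R6116H.Tp_1.cellP_5_2_5_2 (AllC.cons Pool.Agent.TOPW.R6116H.Tp_1.cellP_5_3_5_0 (AllC.cons Pool.Agent.TOPW.R6116H.Tp_1.cellP_5_3_5_1 (AllC.cons Pool.Agent.TOPW.R6116H.Tp_1.cellP_5_3_5_2 (AllC.cons Pool.Agent.TOPW.R6116H.Tp_1.cellP_5_3_6_6 (AllC.cons Pool.Agent.TOPW.R6116H.Tp_3.cellP_6_7_6_7 (AllC.cons Pool.Agent.TOPW.R6116H.Tp_1.cellP_5_4_5_0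 (AllC.cons Pool.Agent.TOPW.R6116H.Tp_1.cellP_5_4_5_1 (AllC.cons Pool.Agent.TOPW.R6116H.Tp_3.cellP_6_8_5_2 (AllC.cons Pool.Agent.TOPW.R6116H.Tp_3.cellP_6_8_5_3 (AllC.cons Pool.Agent.TOPW.R6116H.Tp_3.cellP_6_9_5_2 (AllC.cons Pool.Agent.TOPW.R6116H.Tp_4.cellP_6_9_5_3 (AllC.cons Pool.Agent.TOPW.R6116H.Tp_1.cellP_5_4_6_8 (AllC.cons Pool.Agent.TOPW.R6116H.Tp_4.cellP_6_9_6_9 (AllC.cons Pool.Agent.TOPW.R6116H.Tp_1.cellP_5_5_5_0 (AllC.cons Pool.Agent.TOPW.R6116H.Tp_1.cellP_5_5_5_1 (AllC.cons Pool.Agent.TOPW.R6116H.Tp_1.cellP_5_5_5_2 (AllC.cons Pool.Agent.TOPW.R6116H.Tp_2.cellP_5_5_5_3 (AllC.cons Pool.Agent.TOPW.R6116H.Tp_4.cellP_6_10_6_8 (AllC.cons Pool.Agent.TOPW.R6116H.Tp_5.cellP_7_20_6_9 (AllC.cons Pool.Agent.TOPW.R6116H.Tp_5.cellP_7_21_7_18 (AllC.cons Pool.Agent.TOPW.R6116H.Tp_6.cellP_8_42_7_19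 (AllC.cons Pool.Agent.TOPW.R6116H.Tp_6.cellP_8_43_7_19 (AllC.cons Pool.Agent.TOPW.R6116H.Tp_5.cellP_7_20_7_20 (AllC.cons Pool.Agent.TOPW.R6116H.Tp_5.cellP_7_21_6_10 (AllC.nil))))))))))))))))))))))))))))))))

def LP_1 : List UC := [⟨7, 22, 7, 16⟩, ⟨7, 22, 7, 17⟩, ⟨8, 44, 8, 36⟩, ⟨8, 44, 8, 37⟩, ⟨8, 44, 8, 38⟩, ⟨8, 44, 8, 39⟩, ⟨8, 45, 8, 36⟩, ⟨8, 45, 8, 37⟩, ⟨8, 45, 8, 38⟩, ⟨8, 45, 8, 39⟩, ⟨7, 23, 7, 16⟩, ⟨7, 23, 7, 17⟩, ⟨8, 46, 8, 36⟩, ⟨8, 46, 8, 37⟩, ⟨8, 46, 8, 38⟩, ⟨8, 46, 8, 39⟩, ⟨8, 47, 8, 36⟩, ⟨8, 47, 8, 37⟩, ⟨8, 47, 7, 19⟩, ⟨6, 11, 6, 10⟩, ⟨6, 11, 6, 11⟩, ⟨5, 6, 5, 0⟩, ⟨5, 6, 5, 1⟩, ⟨5, 6, 5, 2⟩, ⟨6, 12, 6, 6⟩, ⟨6, 12, 6, 7⟩, ⟨6, 13, 6, 6⟩, ⟨6, 13, 6, 7⟩, ⟨7, 24, 6, 8⟩, ⟨7, 24, 7, 18⟩, ⟨7, 24, 7, 19⟩, ⟨7, 25, 6, 8⟩]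

theorem aP_1 : AllC (PPc c) LP_1 := AllC.cons Pool.Agent.TOPW.R6116H.Tp_5.cellP_7_22_7_16 (AllC.cons Pool.Agent.TOPW.R6116H.Tp_5.cellP_7_22_7_17 (AllC.cons Pool.Agent.TOPW.R6116H.Tp_6.cellP_8_44_8_36 (AllC.cons Pool.Agent.TOPW.R6116H.Tp_6.cellP_8_44_8_37 (AllC.cons Pool.Agent.TOPW.R6116H.Tp_6.cellP_8_44_8_38 (AllC.cons Pool.Agent.TOPW.R6116H.Tp_6.cellP_8_44_8_39 (AllC.cons Pool.Agent.TOPW.R6116H.Tp_6.cellP_8_45_8_36 (AllC.cons Pool.Agent.TOPW.R6116H.Tp_6.cellP_8_45_8_37 (AllC.cons Pool.Agent.TOPW.R6116H.Tp_6.cellP_8_45_8_38 (AllC.cons Pool.Agent.TOPW.R6116H.Tp_6.cellP_8_45_8_39 (AllC.cons Pool.Agent.TOPW.R6116H.Tp_5.cellP_7_23_7_16 (AllC.cons Pool.Agent.TOPW.R6116H.Tp_5.cellP_7_23_7_17 (AllC.cons Pool.Agent.TOPW.R6116H.Tp_6.cellP_8_46_8_36 (AllC.cons Pool.Agent.TOPW.R6116H.Tp_6.cellP_8_46_8_37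 (AllC.cons Pool.Agent.TOPW.R6116H.Tp_6.cellP_8_46_8_38 (AllC.cons Pool.Agent.TOPW.R6116H.Tp_6.cellP_8_46_8_39 (AllC.cons Pool.Agent.TOPW.R6116H.Tp_6.cellP_8_47_8_36 (AllC.cons Pool.Agent.TOPW.R6116H.Tp_7.cellP_8_47_8_37 (AllC.cons Pool.Agent.TOPW.R6116H.Tp_6.cellP_8_47_7_19 (AllC.cons Pool.Agent.TOPW.R6116H.Tp_4.cellP_6_11_6_10 (AllC.cons Pool.Agent.TOPW.R6116H.Tp_4.cellP_6_11_6_11 (AllC.cons Pool.Agent.TOPW.R6116H.Tp_2.cellP_5_6_5_0 (AllC.cons Pool.Agent.TOPW.R6116H.Tp_2.cellP_5_6_5_1 (AllC.cons Pool.Agent.TOPW.R6116H.Tp_2.cellP_5_6_5_2 (AllC.cons Pool.Agent.TOPW.R6116H.Tp_4.cellP_6_12_6_6 (AllC.cons Pool.Agent.TOPW.R6116H.Tp_4.cellP_6_12_6_7 (AllC.cons Pool.Agent.TOPW.R6116H.Tp_4.cellP_6_13_6_6 (AllC.cons Pool.Agent.TOPW.R6116H.Tp_4.cellP_6_13_6_7 (AllC.cons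 Pool.Agent.TOPW.R6116H.Tp_5.cellP_7_24_6_8 (AllC.cons Pool.Agent.TOPW.R6116H.Tp_5.cellP_7_24_7_18 (AllC.cons Pool.Agent.TOPW.R6116H.Tp_5.cellP_7_24_7_19 (AllC.cons Pool.Agent.TOPW.R6116H.Tp_5.cellP_7_25_6_8 (AllC.nil))))))))))))))))))))))))))))))))

def LP_2 : List UC := [⟨7, 25, 6, 9⟩, ⟨6, 12, 5, 5⟩, ⟨6, 13, 6, 8⟩, ⟨6, 13, 6, 9⟩, ⟨6, 13, 5, 5⟩, ⟨5, 6, 5, 6⟩, ⟨6, 14, 5, 0⟩, ⟨6, 14, 5, 1⟩, ⟨6, 14, 6, 4⟩, ⟨6, 14, 6, 5⟩, ⟨7, 28, 6, 6⟩, ⟨7, 29, 7, 12⟩, ⟨7, 29, 7, 13⟩, ⟨6, 14, 6, 7⟩, ⟨6, 15, 5, 0⟩, ⟨6, 15, 5, 1⟩, ⟨6, 15, 6, 4⟩, ⟨7, 30, 6, 5⟩, ⟨7, 31, 6, 5⟩, ⟨7, 30, 7, 12⟩, ⟨7, 30, 7, 13⟩, ⟨7, 30, 6, 7⟩, ⟨7, 31, 7, 12⟩, ⟨8, 62, 7, 13⟩, ⟨8, 63, 7, 13⟩, ⟨7, 31, 7, 14⟩, ⟨7, 31, 7, 15⟩, ⟨6, 14, 5, 4⟩, ⟨6, 15, 6, 8⟩, ⟨6, 15, 6, 9⟩, ⟨5, 7, 5, 5⟩, ⟨5, 7, 5, 6⟩]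

theorem aP_2 : AllC (PPc c) LP_2 := AllC.cons Pool.Agent.TOPW.R6116H.Tp_5.cellP_7_25_6_9 (AllC.cons Pool.Agent.TOPW.R6116H.Tp_4.cellP_6_12_5_5 (AllC.cons Pool.Agent.TOPW.R6116H.Tp_4.cellP_6_13_6_8 (AllC.cons Pool.Agent.TOPW.R6116H.Tp_4.cellP_6_13_6_9 (AllC.cons Pool.Agent.TOPW.R6116H.Tp_4.cellP_6_13_5_5 (AllC.cons Pool.Agent.TOPW.R6116H.Tp_2.cellP_5_6_5_6 (AllC.cons Pool.Agent.TOPW.R6116H.Tp_4.cellP_6_14_5_0 (AllC.cons Pool.Agent.TOPW.R6116H.Tp_4.cellP_6_14_5_1 (AllC.cons Pool.Agent.TOPW.R6116H.Tp_4.cellP_6_14_6_4 (AllC.cons Pool.Agent.TOPW.R6116H.Tp_4.cellP_6_14_6_5 (AllC.cons Pool.Agent.TOPW.R6116H.Tp_5.cellP_7_28_6_6 (AllC.cons Pool.Agent.TOPW.R6116H.Tp_5.cellP_7_29_7_12 (AllC.cons Pool.Agent.TOPW.R6116H.Tp_5.cellP_7_29_7_13 (AllC.cons Pool.Agent.TOPW.R6116H.Tp_4.cellP_6_14_6_7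 (AllC.cons Pool.Agent.TOPW.R6116H.Tp_5.cellP_6_15_5_0 (AllC.cons Pool.Agent.TOPW.R6116H.Tp_5.cellP_6_15_5_1 (AllC.cons Pool.Agent.TOPW.R6116H.Tp_5.cellP_6_15_6_4 (AllC.cons Pool.Agent.TOPW.R6116H.Tp_5.cellP_7_30_6_5 (AllC.cons Pool.Agent.TOPW.R6116H.Tp_6.cellP_7_31_6_5 (AllC.cons Pool.Agent.TOPW.R6116H.Tp_6.cellP_7_30_7_12 (AllC.cons Pool.Agent.TOPW.R6116H.Tp_6.cellP_7_30_7_13 (AllC.cons Pool.Agent.TOPW.R6116H.Tp_6.cellP_7_30_6_7 (AllC.cons Pool.Agent.TOPW.R6116H.Tp_6.cellP_7_31_7_12 (AllC.cons Pool.Agent.TOPW.R6116H.Tp_7.cellP_8_62_7_13 (AllC.cons Pool.Agent.TOPW.R6116H.Tp_7.cellP_8_63_7_13 (AllC.cons Pool.Agent.TOPW.R6116H.Tp_6.cellP_7_31_7_14 (AllC.cons Pool.Agent.TOPW.R6116H.Tp_6.cellP_7_31_7_15 (AllC.cons Pool.Agent.TOPW.R6116H.Tp_4.cellP_6_14_5_4 (AllC.cons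 Pool.Agent.TOPW.R6116H.Tp_5.cellP_6_15_6_8 (AllC.cons Pool.Agent.TOPW.R6116H.Tp_5.cellP_6_15_6_9 (AllC.cons Pool.Agent.TOPW.R6116H.Tp_2.cellP_5_7_5_5 (AllC.cons Pool.Agent.TOPW.R6116H.Tp_2.cellP_5_7_5_6 (AllC.nil))))))))))))))))))))))))))))))))

def LP_3 : List UC := [⟨5, 7, 5, 7⟩, ⟨5, 8, 5, 0⟩, ⟨5, 8, 5, 1⟩, ⟨5, 8, 5, 2⟩, ⟨7, 32, 6, 6⟩, ⟨8, 64, 7, 14⟩, ⟨8, 65, 7, 14⟩, ⟨7, 32, 7, 15⟩, ⟨7, 33, 6, 6⟩, ⟨7, 33, 7, 14⟩, ⟨7, 33, 7, 15⟩, ⟨6, 17, 6, 6⟩, ⟨7, 34, 7, 14⟩, ⟨7, 34, 7, 15⟩, ⟨7, 35, 6, 7⟩, ⟨7, 32, 6, 8⟩, ⟨8, 66, 8, 32⟩, ⟨8, 66, 8, 33⟩, ⟨8, 67, 7, 16⟩, ⟨7, 33, 7, 17⟩, ⟨6, 17, 6, 8⟩, ⟨5, 8, 6, 9⟩, ⟨5, 8, 5, 5⟩, ⟨5, 8, 5, 6⟩, ⟨5, 8, 5, 7⟩, ⟨5, 8, 5, 8⟩, ⟨5, 9, 5, 0⟩, ⟨5, 9, 5, 1⟩, ⟨5, 9, 5, 2⟩, ⟨5, 9, 5, 3⟩, ⟨5, 9, 5, 4⟩, ⟨5, 9, 5, 5⟩]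

theorem aP_3 : AllC (PPc c) LP_3 := AllC.cons Pool.Agent.TOPW.R6116H.Tp_2.cellP_5_7_5_7 (AllC.cons Pool.Agent.TOPW.R6116H.Tp_2.cellP_5_8_5_0 (AllC.cons Pool.Agent.TOPW.R6116H.Tp_2.cellP_5_8_5_1 (AllC.cons Pool.Agent.TOPW.R6116H.Tp_2.cellP_5_8_5_2 (AllC.cons Pool.Agent.TOPW.R6116H.Tp_6.cellP_7_32_6_6 (AllC.cons Pool.Agent.TOPW.R6116H.Tp_7.cellP_8_64_7_14 (AllC.cons Pool.Agent.TOPW.R6116H.Tp_7.cellP_8_65_7_14 (AllC.cons Pool.Agent.TOPW.R6116H.Tp_6.cellP_7_32_7_15 (AllC.cons Pool.Agent.TOPW.R6116H.Tp_6.cellP_7_33_6_6 (AllC.cons Pool.Agent.TOPW.R6116H.Tp_6.cellP_7_33_7_14 (AllC.cons Pool.Agent.TOPW.R6116H.Tp_6.cellP_7_33_7_15 (AllC.cons Pool.Agent.TOPW.R6116H.Tp_5.cellP_6_17_6_6 (AllC.cons Pool.Agent.TOPW.R6116H.Tp_6.cellP_7_34_7_14 (AllC.cons Pool.Agent.TOPW.R6116H.Tp_6.cellP_7_34_7_15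 (AllC.cons Pool.Agent.TOPW.R6116H.Tp_6.cellP_7_35_6_7 (AllC.cons Pool.Agent.TOPW.R6116H.Tp_6.cellP_7_32_6_8 (AllC.cons Pool.Agent.TOPW.R6116H.Tp_7.cellP_8_66_8_32 (AllC.cons Pool.Agent.TOPW.R6116H.Tp_7.cellP_8_66_8_33 (AllC.cons Pool.Agent.TOPW.R6116H.Tp_7.cellP_8_67_7_16 (AllC.cons Pool.Agent.TOPW.R6116H.Tp_6.cellP_7_33_7_17 (AllC.cons Pool.Agent.TOPW.R6116H.Tp_5.cellP_6_17_6_8 (AllC.cons Pool.Agent.TOPW.R6116H.Tp_2.cellP_5_8_6_9 (AllC.cons Pool.Agent.TOPW.R6116H.Tp_2.cellP_5_8_5_5 (AllC.cons Pool.Agent.TOPW.R6116H.Tp_2.cellP_5_8_5_6 (AllC.cons Pool.Agent.TOPW.R6116H.Tp_2.cellP_5_8_5_7 (AllC.cons Pool.Agent.TOPW.R6116H.Tp_2.cellP_5_8_5_8 (AllC.cons Pool.Agent.TOPW.R6116H.Tp_2.cellP_5_9_5_0 (AllC.cons Pool.Agent.TOPW.R6116H.Tp_2.cellP_5_9_5_1 (AllC.cons Pool.Agent.TOPW.R6116H.Tp_2.cellP_5_9_5_2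 (AllC.cons Pool.Agent.TOPW.R6116H.Tp_2.cellP_5_9_5_3 (AllC.cons Pool.Agent.TOPW.R6116H.Tp_2.cellP_5_9_5_4 (AllC.cons Pool.Agent.TOPW.R6116H.Tp_2.cellP_5_9_5_5 (AllC.nil))))))))))))))))))))))))))))))))

def LP_4 : List UC := [⟨5, 9, 5, 6⟩, ⟨5, 9, 5, 7⟩, ⟨5, 9, 5, 8⟩, ⟨5, 9, 5, 9⟩, ⟨5, 10, 5, 0⟩, ⟨5, 10, 5, 1⟩, ⟨5, 10, 5, 2⟩, ⟨5, 10, 5, 3⟩, ⟨5, 10, 5, 4⟩, ⟨5, 10, 5, 5⟩, ⟨5, 10, 5, 6⟩, ⟨5, 10, 5, 7⟩, ⟨5, 10, 5, 8⟩, ⟨5, 10, 5, 9⟩, ⟨5, 10, 5, 10⟩, ⟨5, 11, 5, 0⟩, ⟨5, 11, 5, 1⟩, ⟨5, 11, 5, 2⟩, ⟨5, 11, 5, 3⟩, ⟨5, 11, 5, 4⟩, ⟨5, 11, 5, 5⟩, ⟨5, 11, 5, 6⟩, ⟨5, 11, 5, 7⟩, ⟨5, 11, 5, 8⟩, ⟨5, 11, 5, 9⟩, ⟨5, 11, 5, 10⟩, ⟨5, 11, 5, 11⟩, ⟨5, 12, 5, 0⟩, ⟨5, 12, 5, 1⟩, ⟨5, 12, 5, 2⟩, ⟨5, 12, 5, 3⟩, ⟨5, 12, 5, 4⟩]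

theorem aP_4 : AllC (PPc c) LP_4 := AllC.cons Pool.Agent.TOPW.R6116H.Tp_2.cellP_5_9_5_6 (AllC.cons Pool.Agent.TOPW.R6116H.Tp_2.cellP_5_9_5_7 (AllC.cons Pool.Agent.TOPW.R6116H.Tp_2.cellP_5_9_5_8 (AllC.cons Pool.Agent.TOPW.R6116H.Tp_2.cellP_5_9_5_9 (AllC.cons Pool.Agent.TOPW.R6116H.Tp_3.cellP_5_10_5_0 (AllC.cons Pool.Agent.TOPW.R6116H.Tp_3.cellP_5_10_5_1 (AllC.cons Pool.Agent.TOPW.R6116H.Tp_3.cellP_5_10_5_2 (AllC.cons Pool.Agent.TOPW.R6116H.Tp_3.cellP_5_10_5_3 (AllC.cons Pool.Agent.TOPW.R6116H.Tp_3.cellP_5_10_5_4 (AllC.cons Pool.Agent.TOPW.R6116H.Tp_3.cellP_5_10_5_5 (AllC.cons Pool.Agent.TOPW.R6116H.Tp_3.cellP_5_10_5_6 (AllC.cons Pool.Agent.TOPW.R6116H.Tp_3.cellP_5_10_5_7 (AllC.cons Pool.Agent.TOPW.R6116H.Tp_3.cellP_5_10_5_8 (AllC.cons Pool.Agent.TOPW.R6116H.Tp_3.cellP_5_10_5_9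 (AllC.cons Pool.Agent.TOPW.R6116H.Tp_3.cellP_5_10_5_10 (AllC.cons Pool.Agent.TOPW.R6116H.Tp_3.cellP_5_11_5_0 (AllC.cons Pool.Agent.TOPW.R6116H.Tp_3.cellP_5_11_5_1 (AllC.cons Pool.Agent.TOPW.R6116H.Tp_3.cellP_5_11_5_2 (AllC.cons Pool.Agent.TOPW.R6116H.Tp_3.cellP_5_11_5_3 (AllC.cons Pool.Agent.TOPW.R6116H.Tp_3.cellP_5_11_5_4 (AllC.cons Pool.Agent.TOPW.R6116H.Tp_3.cellP_5_11_5_5 (AllC.cons Pool.Agent.TOPW.R6116H.Tp_3.cellP_5_11_5_6 (AllC.cons Pool.Agent.TOPW.R6116H.Tp_3.cellP_5_11_5_7 (AllC.cons Pool.Agent.TOPW.R6116H.Tp_3.cellP_5_11_5_8 (AllC.cons Pool.Agent.TOPW.R6116H.Tp_3.cellP_5_11_5_9 (AllC.cons Pool.Agent.TOPW.R6116H.Tp_3.cellP_5_11_5_10 (AllC.cons Pool.Agent.TOPW.R6116H.Tp_3.cellP_5_11_5_11 (AllC.cons Pool.Agent.TOPW.R6116H.Tp_3.cellP_5_12_5_0 (AllC.cons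 Pool.Agent.TOPW.R6116H.Tp_3.cellP_5_12_5_1 (AllC.cons Pool.Agent.TOPW.R6116H.Tp_3.cellP_5_12_5_2 (AllC.cons Pool.Agent.TOPW.R6116H.Tp_3.cellP_5_12_5_3 (AllC.cons Pool.Agent.TOPW.R6116H.Tp_3.cellP_5_12_5_4 (AllC.nil))))))))))))))))))))))))))))))))

def LP_5 : List UC := [⟨5, 12, 5, 5⟩, ⟨5, 12, 5, 6⟩, ⟨5, 12, 5, 7⟩, ⟨5, 12, 5, 8⟩, ⟨5, 12, 5, 9⟩, ⟨5, 12, 5, 10⟩, ⟨6, 26, 6, 0⟩, ⟨6, 26, 6, 1⟩, ⟨5, 13, 5, 1⟩, ⟨5, 13, 5, 2⟩, ⟨5, 13, 5, 3⟩, ⟨5, 13, 5, 4⟩]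

theorem aP_5 : AllC (PPc c) LP_5 := AllC.cons Pool.Agent.TOPW.R6116H.Tp_3.cellP_5_12_5_5 (AllC.cons Pool.Agent.TOPW.R6116H.Tp_3.cellP_5_12_5_6 (AllC.cons Pool.Agent.TOPW.R6116H.Tp_3.cellP_5_12_5_7 (AllC.cons Pool.Agent.TOPW.R6116H.Tp_3.cellP_5_12_5_8 (AllC.cons Pool.Agent.TOPW.R6116H.Tp_3.cellP_5_12_5_9 (AllC.cons Pool.Agent.TOPW.R6116H.Tp_3.cellP_5_12_5_10 (AllC.cons Pool.Agent.TOPW.R6116H.Tp_5.cellP_6_26_6_0 (AllC.cons Pool.Agent.TOPW.R6116H.Tp_5.cellP_6_26_6_1 (AllC.cons Pool.Agent.TOPW.R6116H.Tp_3.cellP_5_13_5_1 (AllC.cons Pool.Agent.TOPW.R6116H.Tp_3.cellP_5_13_5_2 (AllC.cons Pool.Agent.TOPW.R6116H.Tp_3.cellP_5_13_5_3 (AllC.cons Pool.Agent.TOPW.R6116H.Tp_3.cellP_5_13_5_4 (AllC.nil))))))))))))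

def LLP : List UC := ((LP_0 ++ (LP_1 ++ LP_2)) ++ (LP_3 ++ (LP_4 ++ LP_5)))

theorem allP : AllC (PPc c) LLP := (AllC.append (AllC.append aP_0 (AllC.append aP_1 aP_2)) (AllC.append aP_3 (AllC.append aP_4 aP_5)))

theorem tokP : TP.ok rootU = true := by decide +kernel

theorem tlP : TP.leaves rootU = LLP := by decide +kernel

def tM_0 : UT := (UT.cut true (UT.cut true (UT.cut false (UT.cut false (UT.cut false (UT.cut false UT.leaf UT.leaf) (UT.cut false UT.leaf (UT.cut false UT.leaf UT.leaf))) (UT.cut false (UT.cut false (UT.cut false UT.leaf UT.leaf) (UT.cut false UT.leaf UT.leaf)) (UT.cut true (UT.cut false (UT.cut false UT.leaf UT.leaf) (UT.cut false UT.leaf UT.leaf)) (UT.cut false (UT.cut false UT.leaf UT.leaf) (UT.cut false UT.leaf UT.leaf))))) (UT.cut true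 (UT.cut false (UT.cut false (UT.cut false (UT.cut false UT.leaf UT.out) UT.out) UT.out) UT.out) (UT.cut false (UT.cut false (UT.cut false (UT.cut false UT.leaf UT.leaf) UT.out) UT.out) UT.out))) (UT.cut false (UT.cut false (UT.cut false (UT.cut false UT.leaf UT.leaf) (UT.cut false (UT.cut false UT.leaf UT.leaf) (UT.cut false UT.leaf UT.leaf))) (UT.cut false (UT.cut false (UT.cut false (UT.cut true UT.leaf UT.leaf) UT.leaf) (UT.cut true UT.leaf (UT.cut false UT.leaf UT.leaf))) (UT.cut true (UT.cut false (UT.cut false UT.leaf UT.leaf) (UT.cut false UT.leaf UT.leaf)) (UT.cut false (UT.cut false UT.leaf UT.leaf) (UT.cut false UT.leaf UT.leaf))))) (UT.cut true (UT.cut false (UT.cut false (UT.cut false (UT.cut false UT.leaf UT.leaf) (UT.cut false UT.leaf UT.out)) UT.out)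 UT.out) (UT.cut false (UT.cut false (UT.cut false (UT.cut false UT.leaf UT.leaf) (UT.cut false UT.leaf UT.leaf)) UT.out) UT.out)))) (UT.cut true (UT.cut false (UT.cut false (UT.cut false (UT.cut false UT.leaf (UT.cut true UT.leaf UT.leaf)) (UT.cut true (UT.cut false (UT.cut false UT.leaf UT.leaf) (UT.cut false UT.leaf UT.leaf)) (UT.cut false (UT.cut false UT.leaf UT.leaf) (UT.cut false (UT.cut false UT.leaf UT.leaf) UT.leaf)))) (UT.cut true (UT.cut false (UT.cut false (UT.cut false UT.leaf UT.leaf) (UT.cut false UT.leaf UT.leaf)) (UT.cut false (UT.cut false UT.leaf UT.leaf) (UT.cut false UT.leaf UT.leaf))) (UT.cut false (UT.cut false (UT.cut false UT.leaf UT.leaf) (UT.cut false UT.leaf UT.leaf)) (UT.cut false (UT.cut false (UT.cut false UT.leaf UT.leaf) (UT.cut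 false UT.leaf UT.leaf)) (UT.cut false (UT.cut false UT.leaf UT.leaf) UT.leaf))))) (UT.cut false (UT.cut false (UT.cut false (UT.cut true (UT.cut false UT.leaf UT.leaf) (UT.cut false UT.leaf UT.leaf)) (UT.cut false (UT.cut true UT.leaf UT.leaf) UT.leaf)) (UT.cut false (UT.cut false UT.leaf UT.leaf) UT.out)) UT.out)) (UT.cut false (UT.cut true (UT.cut false (UT.cut false (UT.cut false UT.leaf (UT.cut false UT.leaf UT.leaf)) (UT.cut false (UT.cut false UT.leaf UT.leaf) (UT.cut false (UT.cut false UT.leaf UT.leaf) (UT.cut false UT.leaf UT.leaf)))) (UT.cut false (UT.cut false (UT.cut false (UT.cut false UT.leaf UT.leaf) (UT.cut false UT.leaf UT.leaf)) (UT.cut false (UT.cut false UT.leaf UT.leaf) (UT.cut false UT.leaf UT.leaf))) (UT.cut false (UT.cut false (UT.cut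 false UT.leaf UT.leaf) (UT.cut false UT.leaf UT.leaf)) (UT.cut false (UT.cut false UT.leaf UT.leaf) UT.leaf)))) (UT.cut false (UT.cut false (UT.cut false UT.leaf (UT.cut false UT.leaf UT.leaf)) (UT.cut false (UT.cut false UT.leaf UT.leaf) (UT.cut false (UT.cut false UT.leaf UT.leaf) (UT.cut false UT.leaf UT.leaf)))) (UT.cut false (UT.cut false (UT.cut false (UT.cut false UT.leaf UT.leaf) (UT.cut false UT.leaf UT.leaf)) (UT.cut false (UT.cut false UT.leaf UT.leaf) (UT.cut false UT.leaf UT.leaf))) (UT.cut false (UT.cut false (UT.cut false UT.leaf UT.leaf) (UT.cut false UT.leaf UT.leaf)) (UT.cut false (UT.cut false UT.leaf UT.leaf) UT.leaf))))) (UT.cut false (UT.cut false (UT.cut false (UT.cut true (UT.cut false UT.leaf UT.leaf) (UT.cut false UT.leaf UT.leaf)) (UT.cut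 false (UT.cut true UT.leaf UT.leaf) UT.leaf)) (UT.cut false (UT.cut false UT.leaf UT.leaf) UT.leaf)) UT.out))))

def tM_1 : UT := (UT.cut true (UT.cut true (UT.cut true (UT.cut true (UT.cut false (UT.cut false (UT.cut false (UT.cut false UT.leaf UT.out) UT.out) UT.out) UT.out) (UT.cut false (UT.cut false (UT.cut false (UT.cut false UT.leaf UT.leaf) UT.out) UT.out) UT.out)) (UT.cut true (UT.cut false (UT.cut false (UT.cut false (UT.cut false UT.leaf UT.leaf) (UT.cut false UT.leaf UT.out)) UT.out) UT.out) (UT.cut false (UT.cut false (UT.cut false (UT.cut false UT.leaf UT.leaf) (UT.cut false UT.leaf UT.leaf)) UT.out) UT.out))) (UT.cut true (UT.cut true (UT.cut false (UT.cut false (UT.cut false (UT.cut false UT.leaf UT.leaf) (UT.cut false UT.leaf UT.leaf)) (UT.cut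 false (UT.cut false UT.leaf UT.out) UT.out)) UT.out) (UT.cut false (UT.cut false (UT.cut false (UT.cut false UT.leaf UT.leaf) (UT.cut false UT.leaf UT.leaf)) (UT.cut false (UT.cut false UT.leaf UT.leaf) UT.out)) UT.out)) (UT.cut true (UT.cut false (UT.cut false (UT.cut false (UT.cut false UT.leaf UT.leaf) (UT.cut false UT.leaf UT.leaf)) (UT.cut false (UT.cut false UT.leaf (UT.cut false UT.leaf (UT.cut true UT.leaf UT.leaf))) (UT.cut true (UT.cut false (UT.cut false UT.leaf UT.out) UT.out) (UT.cut false (UT.cut false UT.leaf UT.leaf) UT.out)))) UT.out) (UT.cut false (UT.cut false (UT.cut false (UT.cut false (UT.cut true UT.leaf UT.leaf) UT.leaf) (UT.cut false UT.leaf UT.leaf)) (UT.cut false (UT.cut false (UT.cut false UT.leaf UT.leaf) (UT.cut false UT.leaf UT.leaf))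 (UT.cut true (UT.cut false (UT.cut false UT.leaf UT.leaf) (UT.cut false UT.leaf UT.out)) (UT.cut false (UT.cut false UT.leaf UT.leaf) (UT.cut false UT.leaf UT.leaf))))) UT.out)))) (UT.cut true tM_0 (UT.cut true (UT.cut true (UT.cut false (UT.cut true (UT.cut false (UT.cut false (UT.cut false (UT.cut false (UT.cut true UT.leaf UT.leaf) UT.leaf) (UT.cut false UT.leaf UT.leaf)) (UT.cut false (UT.cut false UT.leaf UT.leaf) (UT.cut false (UT.cut false UT.leaf UT.leaf) (UT.cut false UT.leaf UT.leaf)))) (UT.cut false (UT.cut false (UT.cut false (UT.cut false UT.leaf UT.leaf) (UT.cut false UT.leaf UT.leaf)) (UT.cut false (UT.cut false UT.leaf UT.leaf) (UT.cut false UT.leaf UT.leaf))) (UT.cut false (UT.cut false (UT.cut false UT.leaf UT.leaf) (UT.cut false UT.leaf UT.leaf))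 (UT.cut false (UT.cut false UT.leaf UT.leaf) (UT.cut false UT.leaf UT.leaf))))) (UT.cut false (UT.cut false (UT.cut false (UT.cut false (UT.cut true UT.leaf UT.leaf) UT.leaf) (UT.cut false (UT.cut false (UT.cut true UT.leaf UT.leaf) UT.leaf) (UT.cut false UT.leaf UT.leaf))) (UT.cut false (UT.cut false UT.leaf UT.leaf) (UT.cut false (UT.cut false UT.leaf UT.leaf) (UT.cut false UT.leaf UT.leaf)))) (UT.cut false (UT.cut false (UT.cut false (UT.cut false UT.leaf UT.leaf) (UT.cut false UT.leaf UT.leaf)) (UT.cut false (UT.cut false UT.leaf UT.leaf) (UT.cut false UT.leaf UT.leaf))) (UT.cut false (UT.cut false (UT.cut false UT.leaf UT.leaf) (UT.cut false UT.leaf UT.leaf)) (UT.cut false (UT.cut false UT.leaf UT.leaf) (UT.cut false UT.leaf UT.leaf)))))) (UT.cut false (UT.cut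 false (UT.cut true (UT.cut false (UT.cut false UT.leaf UT.leaf) (UT.cut false UT.leaf UT.leaf)) (UT.cut false (UT.cut false UT.leaf UT.out) UT.out)) (UT.cut false (UT.cut false UT.leaf UT.leaf) UT.out)) UT.out)) (UT.cut true (UT.cut false (UT.cut false (UT.cut false (UT.cut false (UT.cut false UT.leaf (UT.cut false UT.leaf (UT.cut true UT.leaf UT.out))) (UT.cut false (UT.cut false (UT.cut true UT.leaf UT.out) UT.leaf) (UT.cut false (UT.cut true UT.leaf UT.out) UT.leaf))) (UT.cut false (UT.cut false UT.leaf UT.leaf) (UT.cut false UT.leaf (UT.cut false UT.leaf UT.leaf)))) (UT.cut false (UT.cut false (UT.cut false (UT.cut false UT.leaf UT.leaf) (UT.cut false UT.leaf UT.leaf)) UT.out) UT.out)) UT.out) UT.out)) UT.out)))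

def TM : UT := tM_1

def LM_0 : List UC := [⟨5, 0, 5, 0⟩, ⟨5, 1, 5, 0⟩, ⟨5, 1, 5, 1⟩, ⟨5, 2, 5, 0⟩, ⟨5, 2, 5, 1⟩, ⟨5, 2, 5, 2⟩, ⟨5, 3, 5, 0⟩, ⟨5, 3, 5, 1⟩, ⟨5, 3, 5, 2⟩, ⟨5, 3, 5, 3⟩, ⟨5, 4, 5, 0⟩, ⟨5, 4, 5, 1⟩, ⟨5, 4, 5, 2⟩, ⟨5, 4, 5, 3⟩, ⟨5, 4, 5, 4⟩, ⟨5, 5, 5, 0⟩, ⟨5, 5, 5, 1⟩, ⟨5, 5, 5, 2⟩, ⟨5, 5, 5, 3⟩, ⟨5, 5, 5, 4⟩, ⟨5, 5, 5, 5⟩, ⟨5, 6, 5, 0⟩, ⟨5, 6, 5, 1⟩, ⟨5, 6, 5, 2⟩, ⟨5, 6, 5, 3⟩, ⟨5, 6, 5, 4⟩, ⟨5, 6, 6, 10⟩, ⟨6, 12, 6, 11⟩, ⟨6, 13, 6, 11⟩, ⟨6, 12, 6, 12⟩, ⟨6, 13, 6, 12⟩, ⟨6, 13, 6, 13⟩]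

theorem aM_0 : AllC (PMc c) LM_0 := AllC.cons Pool.Agent.TOPW.R6116H.Tm_1.cellM_5_0_5_0 (AllC.cons Pool.Agent.TOPW.R6116H.Tm_1.cellM_5_1_5_0 (AllC.cons Pool.Agent.TOPW.R6116H.Tm_1.cellM_5_1_5_1 (AllC.cons Pool.Agent.TOPW.R6116H.Tm_1.cellM_5_2_5_0 (AllC.cons Pool.Agent.TOPW.R6116H.Tm_1.cellM_5_2_5_1 (AllC.cons Pool.Agent.TOPW.R6116H.Tm_1.cellM_5_2_5_2 (AllC.cons Pool.Agent.TOPW.R6116H.Tm_1.cellM_5_3_5_0 (AllC.cons Pool.Agent.TOPW.R6116H.Tm_1.cellM_5_3_5_1 (AllC.cons Pool.Agent.TOPW.R6116H.Tm_1.cellM_5_3_5_2 (AllC.cons Pool.Agent.TOPW.R6116H.Tm_1.cellM_5_3_5_3 (AllC.cons Pool.Agent.TOPW.R6116H.Tm_1.cellM_5_4_5_0 (AllC.cons Pool.Agent.TOPW.R6116H.Tm_1.cellM_5_4_5_1 (AllC.cons Pool.Agent.TOPW.R6116H.Tm_1.cellM_5_4_5_2 (AllC.cons Pool.Agent.TOPW.R6116H.Tm_1.cellM_5_4_5_3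 (AllC.cons Pool.Agent.TOPW.R6116H.Tm_1.cellM_5_4_5_4 (AllC.cons Pool.Agent.TOPW.R6116H.Tm_1.cellM_5_5_5_0 (AllC.cons Pool.Agent.TOPW.R6116H.Tm_1.cellM_5_5_5_1 (AllC.cons Pool.Agent.TOPW.R6116H.Tm_2.cellM_5_5_5_2 (AllC.cons Pool.Agent.TOPW.R6116H.Tm_2.cellM_5_5_5_3 (AllC.cons Pool.Agent.TOPW.R6116H.Tm_2.cellM_5_5_5_4 (AllC.cons Pool.Agent.TOPW.R6116H.Tm_2.cellM_5_5_5_5 (AllC.cons Pool.Agent.TOPW.R6116H.Tm_2.cellM_5_6_5_0 (AllC.cons Pool.Agent.TOPW.R6116H.Tm_2.cellM_5_6_5_1 (AllC.cons Pool.Agent.TOPW.R6116H.Tm_2.cellM_5_6_5_2 (AllC.cons Pool.Agent.TOPW.R6116H.Tm_2.cellM_5_6_5_3 (AllC.cons Pool.Agent.TOPW.R6116H.Tm_2.cellM_5_6_5_4 (AllC.cons Pool.Agent.TOPW.R6116H.Tm_2.cellM_5_6_6_10 (AllC.cons Pool.Agent.TOPW.R6116H.Tm_5.cellM_6_12_6_11 (AllC.cons Pool.Agent.TOPW.R6116H.Tm_5.cellM_6_13_6_11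 (AllC.cons Pool.Agent.TOPW.R6116H.Tm_5.cellM_6_12_6_12 (AllC.cons Pool.Agent.TOPW.R6116H.Tm_5.cellM_6_13_6_12 (AllC.cons Pool.Agent.TOPW.R6116H.Tm_5.cellM_6_13_6_13 (AllC.nil))))))))))))))))))))))))))))))))

def LM_1 : List UC := [⟨6, 14, 5, 0⟩, ⟨6, 15, 5, 0⟩, ⟨5, 7, 5, 1⟩, ⟨5, 7, 5, 2⟩, ⟨5, 7, 5, 3⟩, ⟨5, 7, 6, 8⟩, ⟨5, 7, 6, 9⟩, ⟨5, 7, 6, 10⟩, ⟨5, 7, 6, 11⟩, ⟨6, 14, 6, 12⟩, ⟨6, 14, 6, 13⟩, ⟨6, 14, 6, 14⟩, ⟨6, 15, 6, 12⟩, ⟨6, 15, 6, 13⟩, ⟨6, 15, 6, 14⟩, ⟨6, 15, 6, 15⟩, ⟨5, 8, 5, 0⟩, ⟨5, 8, 5, 1⟩, ⟨5, 8, 5, 2⟩, ⟨5, 8, 6, 6⟩, ⟨5, 8, 6, 7⟩, ⟨5, 8, 6, 8⟩, ⟨5, 8, 6, 9⟩, ⟨5, 8, 6, 10⟩, ⟨5, 8, 6, 11⟩, ⟨6, 16, 6, 12⟩, ⟨6, 16, 6, 13⟩, ⟨6, 16, 6, 14⟩, ⟨6, 16, 6, 15⟩, ⟨6, 17, 6, 12⟩, ⟨6, 17, 6, 13⟩, ⟨6, 17, 6, 14⟩]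

theorem aM_1 : AllC (PMc c) LM_1 := AllC.cons Pool.Agent.TOPW.R6116H.Tm_5.cellM_6_14_5_0 (AllC.cons Pool.Agent.TOPW.R6116H.Tm_5.cellM_6_15_5_0 (AllC.cons Pool.Agent.TOPW.R6116H.Tm_2.cellM_5_7_5_1 (AllC.cons Pool.Agent.TOPW.R6116H.Tm_2.cellM_5_7_5_2 (AllC.cons Pool.Agent.TOPW.R6116H.Tm_2.cellM_5_7_5_3 (AllC.cons Pool.Agent.TOPW.R6116H.Tm_3.cellM_5_7_6_8 (AllC.cons Pool.Agent.TOPW.R6116H.Tm_3.cellM_5_7_6_9 (AllC.cons Pool.Agent.TOPW.R6116H.Tm_3.cellM_5_7_6_10 (AllC.cons Pool.Agent.TOPW.R6116H.Tm_3.cellM_5_7_6_11 (AllC.cons Pool.Agent.TOPW.R6116H.Tm_5.cellM_6_14_6_12 (AllC.cons Pool.Agent.TOPW.R6116H.Tm_5.cellM_6_14_6_13 (AllC.cons Pool.Agent.TOPW.R6116H.Tm_5.cellM_6_14_6_14 (AllC.cons Pool.Agent.TOPW.R6116H.Tm_5.cellM_6_15_6_12 (AllC.cons Pool.Agent.TOPW.R6116H.Tm_5.cellM_6_15_6_13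 (AllC.cons Pool.Agent.TOPW.R6116H.Tm_5.cellM_6_15_6_14 (AllC.cons Pool.Agent.TOPW.R6116H.Tm_5.cellM_6_15_6_15 (AllC.cons Pool.Agent.TOPW.R6116H.Tm_3.cellM_5_8_5_0 (AllC.cons Pool.Agent.TOPW.R6116H.Tm_3.cellM_5_8_5_1 (AllC.cons Pool.Agent.TOPW.R6116H.Tm_3.cellM_5_8_5_2 (AllC.cons Pool.Agent.TOPW.R6116H.Tm_3.cellM_5_8_6_6 (AllC.cons Pool.Agent.TOPW.R6116H.Tm_3.cellM_5_8_6_7 (AllC.cons Pool.Agent.TOPW.R6116H.Tm_3.cellM_5_8_6_8 (AllC.cons Pool.Agent.TOPW.R6116H.Tm_3.cellM_5_8_6_9 (AllC.cons Pool.Agent.TOPW.R6116H.Tm_4.cellM_5_8_6_10 (AllC.cons Pool.Agent.TOPW.R6116H.Tm_4.cellM_5_8_6_11 (AllC.cons Pool.Agent.TOPW.R6116H.Tm_5.cellM_6_16_6_12 (AllC.cons Pool.Agent.TOPW.R6116H.Tm_5.cellM_6_16_6_13 (AllC.cons Pool.Agent.TOPW.R6116H.Tm_5.cellM_6_16_6_14 (AllC.cons Pool.Agent.TOPW.R6116H.Tm_5.cellM_6_16_6_15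 (AllC.cons Pool.Agent.TOPW.R6116H.Tm_5.cellM_6_17_6_12 (AllC.cons Pool.Agent.TOPW.R6116H.Tm_5.cellM_6_17_6_13 (AllC.cons Pool.Agent.TOPW.R6116H.Tm_5.cellM_6_17_6_14 (AllC.nil))))))))))))))))))))))))))))))))

def LM_2 : List UC := [⟨6, 17, 6, 15⟩, ⟨6, 16, 6, 16⟩, ⟨6, 17, 6, 16⟩, ⟨6, 17, 6, 17⟩, ⟨5, 9, 5, 0⟩, ⟨5, 9, 5, 1⟩, ⟨5, 9, 6, 4⟩, ⟨5, 9, 6, 5⟩, ⟨5, 9, 6, 6⟩, ⟨5, 9, 6, 7⟩, ⟨6, 18, 6, 8⟩, ⟨6, 19, 6, 8⟩, ⟨5, 9, 6, 9⟩, ⟨6, 18, 5, 5⟩, ⟨6, 19, 6, 10⟩, ⟨6, 19, 6, 11⟩, ⟨6, 18, 6, 12⟩, ⟨6, 18, 6, 13⟩, ⟨6, 18, 6, 14⟩, ⟨6, 18, 6, 15⟩, ⟨6, 19, 6, 12⟩, ⟨6, 19, 6, 13⟩, ⟨6, 19, 6, 14⟩, ⟨6, 19, 6, 15⟩, ⟨6, 18, 6, 16⟩, ⟨6, 18, 6, 17⟩, ⟨6, 18, 6, 18⟩, ⟨6, 19, 6, 16⟩, ⟨6, 19, 6, 17⟩, ⟨6, 19, 6, 18⟩, ⟨6, 19, 6, 19⟩, ⟨5, 10, 5, 0⟩]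

theorem aM_2 : AllC (PMc c) LM_2 := AllC.cons Pool.Agent.TOPW.R6116H.Tm_5.cellM_6_17_6_15 (AllC.cons Pool.Agent.TOPW.R6116H.Tm_5.cellM_6_16_6_16 (AllC.cons Pool.Agent.TOPW.R6116H.Tm_5.cellM_6_17_6_16 (AllC.cons Pool.Agent.TOPW.R6116H.Tm_5.cellM_6_17_6_17 (AllC.cons Pool.Agent.TOPW.R6116H.Tm_4.cellM_5_9_5_0 (AllC.cons Pool.Agent.TOPW.R6116H.Tm_4.cellM_5_9_5_1 (AllC.cons Pool.Agent.TOPW.R6116H.Tm_4.cellM_5_9_6_4 (AllC.cons Pool.Agent.TOPW.R6116H.Tm_4.cellM_5_9_6_5 (AllC.cons Pool.Agent.TOPW.R6116H.Tm_4.cellM_5_9_6_6 (AllC.cons Pool.Agent.TOPW.R6116H.Tm_4.cellM_5_9_6_7 (AllC.cons Pool.Agent.TOPW.R6116H.Tm_6.cellM_6_18_6_8 (AllC.cons Pool.Agent.TOPW.R6116H.Tm_6.cellM_6_19_6_8 (AllC.cons Pool.Agent.TOPW.R6116H.Tm_4.cellM_5_9_6_9 (AllC.cons Pool.Agent.TOPW.R6116H.Tm_6.cellM_6_18_5_5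 (AllC.cons Pool.Agent.TOPW.R6116H.Tm_6.cellM_6_19_6_10 (AllC.cons Pool.Agent.TOPW.R6116H.Tm_6.cellM_6_19_6_11 (AllC.cons Pool.Agent.TOPW.R6116H.Tm_6.cellM_6_18_6_12 (AllC.cons Pool.Agent.TOPW.R6116H.Tm_6.cellM_6_18_6_13 (AllC.cons Pool.Agent.TOPW.R6116H.Tm_6.cellM_6_18_6_14 (AllC.cons Pool.Agent.TOPW.R6116H.Tm_6.cellM_6_18_6_15 (AllC.cons Pool.Agent.TOPW.R6116H.Tm_6.cellM_6_19_6_12 (AllC.cons Pool.Agent.TOPW.R6116H.Tm_6.cellM_6_19_6_13 (AllC.cons Pool.Agent.TOPW.R6116H.Tm_6.cellM_6_19_6_14 (AllC.cons Pool.Agent.TOPW.R6116H.Tm_6.cellM_6_19_6_15 (AllC.cons Pool.Agent.TOPW.R6116H.Tm_6.cellM_6_18_6_16 (AllC.cons Pool.Agent.TOPW.R6116H.Tm_6.cellM_6_18_6_17 (AllC.cons Pool.Agent.TOPW.R6116H.Tm_6.cellM_6_18_6_18 (AllC.cons Pool.Agent.TOPW.R6116H.Tm_6.cellM_6_19_6_16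 (AllC.cons Pool.Agent.TOPW.R6116H.Tm_6.cellM_6_19_6_17 (AllC.cons Pool.Agent.TOPW.R6116H.Tm_6.cellM_6_19_6_18 (AllC.cons Pool.Agent.TOPW.R6116H.Tm_6.cellM_6_19_6_19 (AllC.cons Pool.Agent.TOPW.R6116H.Tm_4.cellM_5_10_5_0 (AllC.nil))))))))))))))))))))))))))))))))

def LM_3 : List UC := [⟨6, 20, 5, 1⟩, ⟨6, 21, 5, 1⟩, ⟨6, 20, 6, 4⟩, ⟨6, 20, 6, 5⟩, ⟨6, 20, 6, 6⟩, ⟨6, 20, 6, 7⟩, ⟨6, 21, 6, 4⟩, ⟨6, 21, 6, 5⟩, ⟨6, 21, 7, 12⟩, ⟨6, 21, 7, 13⟩, ⟨6, 21, 6, 7⟩, ⟨6, 20, 6, 8⟩, ⟨6, 20, 6, 9⟩, ⟨6, 20, 6, 10⟩, ⟨6, 20, 6, 11⟩, ⟨6, 20, 6, 12⟩, ⟨6, 20, 6, 13⟩, ⟨6, 20, 6, 14⟩, ⟨6, 20, 6, 15⟩, ⟨6, 21, 6, 8⟩, ⟨6, 21, 6, 9⟩, ⟨6, 21, 6, 10⟩, ⟨6, 21, 6, 11⟩, ⟨6, 21, 7, 24⟩, ⟨6, 21, 7, 25⟩, ⟨6, 21, 7, 26⟩, ⟨6, 21, 7, 27⟩, ⟨6, 21, 7, 28⟩, ⟨6, 21, 7, 29⟩, ⟨6, 21, 6, 15⟩, ⟨6, 20, 6, 16⟩, ⟨6,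 20, 6, 17⟩]

theorem aM_3 : AllC (PMc c) LM_3 := AllC.cons Pool.Agent.TOPW.R6116H.Tm_6.cellM_6_20_5_1 (AllC.cons Pool.Agent.TOPW.R6116H.Tm_7.cellM_6_21_5_1 (AllC.cons Pool.Agent.TOPW.R6116H.Tm_6.cellM_6_20_6_4 (AllC.cons Pool.Agent.TOPW.R6116H.Tm_6.cellM_6_20_6_5 (AllC.cons Pool.Agent.TOPW.R6116H.Tm_6.cellM_6_20_6_6 (AllC.cons Pool.Agent.TOPW.R6116H.Tm_6.cellM_6_20_6_7 (AllC.cons Pool.Agent.TOPW.R6116H.Tm_7.cellM_6_21_6_4 (AllC.cons Pool.Agent.TOPW.R6116H.Tm_7.cellM_6_21_6_5 (AllC.cons Pool.Agent.TOPW.R6116H.Tm_7.cellM_6_21_7_12 (AllC.cons Pool.Agent.TOPW.R6116H.Tm_8.cellM_6_21_7_13 (AllC.cons Pool.Agent.TOPW.R6116H.Tm_7.cellM_6_21_6_7 (AllC.cons Pool.Agent.TOPW.R6116H.Tm_6.cellM_6_20_6_8 (AllC.cons Pool.Agent.TOPW.R6116H.Tm_6.cellM_6_20_6_9 (AllC.cons Pool.Agent.TOPW.R6116H.Tm_6.cellM_6_20_6_10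 (AllC.cons Pool.Agent.TOPW.R6116H.Tm_7.cellM_6_20_6_11 (AllC.cons Pool.Agent.TOPW.R6116H.Tm_7.cellM_6_20_6_12 (AllC.cons Pool.Agent.TOPW.R6116H.Tm_7.cellM_6_20_6_13 (AllC.cons Pool.Agent.TOPW.R6116H.Tm_7.cellM_6_20_6_14 (AllC.cons Pool.Agent.TOPW.R6116H.Tm_7.cellM_6_20_6_15 (AllC.cons Pool.Agent.TOPW.R6116H.Tm_7.cellM_6_21_6_8 (AllC.cons Pool.Agent.TOPW.R6116H.Tm_7.cellM_6_21_6_9 (AllC.cons Pool.Agent.TOPW.R6116H.Tm_7.cellM_6_21_6_10 (AllC.cons Pool.Agent.TOPW.R6116H.Tm_7.cellM_6_21_6_11 (AllC.cons Pool.Agent.TOPW.R6116H.Tm_8.cellM_6_21_7_24 (AllC.cons Pool.Agent.TOPW.R6116H.Tm_8.cellM_6_21_7_25 (AllC.cons Pool.Agent.TOPW.R6116H.Tm_8.cellM_6_21_7_26 (AllC.cons Pool.Agent.TOPW.R6116H.Tm_8.cellM_6_21_7_27 (AllC.cons Pool.Agent.TOPW.R6116H.Tm_8.cellM_6_21_7_28 (AllC.cons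 Pool.Agent.TOPW.R6116H.Tm_8.cellM_6_21_7_29 (AllC.cons Pool.Agent.TOPW.R6116H.Tm_7.cellM_6_21_6_15 (AllC.cons Pool.Agent.TOPW.R6116H.Tm_7.cellM_6_20_6_16 (AllC.cons Pool.Agent.TOPW.R6116H.Tm_7.cellM_6_20_6_17 (AllC.nil))))))))))))))))))))))))))))))))

def LM_4 : List UC := [⟨6, 21, 6, 16⟩, ⟨6, 21, 6, 17⟩, ⟨6, 20, 6, 18⟩, ⟨6, 21, 6, 18⟩, ⟨5, 10, 6, 19⟩, ⟨5, 10, 6, 20⟩, ⟨5, 10, 6, 21⟩, ⟨6, 22, 5, 0⟩, ⟨6, 22, 6, 2⟩, ⟨6, 22, 6, 3⟩, ⟨6, 22, 6, 4⟩, ⟨6, 22, 6, 5⟩, ⟨6, 22, 7, 12⟩, ⟨6, 22, 7, 13⟩, ⟨6, 22, 7, 14⟩, ⟨6, 22, 7, 15⟩, ⟨6, 22, 7, 16⟩, ⟨6, 22, 7, 17⟩, ⟨6, 22, 7, 18⟩, ⟨6, 22, 7, 19⟩, ⟨6, 22, 7, 20⟩, ⟨6, 22, 7, 21⟩, ⟨6, 22, 7, 22⟩, ⟨6, 22, 7, 23⟩, ⟨6, 22, 7, 24⟩, ⟨6, 22, 7, 25⟩, ⟨6, 22, 7, 26⟩, ⟨6, 22, 7, 27⟩, ⟨6, 22, 7, 28⟩, ⟨6, 22, 7, 29⟩, ⟨6, 22, 6, 15⟩, ⟨6,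 23, 5, 0⟩]

theorem aM_4 : AllC (PMc c) LM_4 := AllC.cons Pool.Agent.TOPW.R6116H.Tm_7.cellM_6_21_6_16 (AllC.cons Pool.Agent.TOPW.R6116H.Tm_7.cellM_6_21_6_17 (AllC.cons Pool.Agent.TOPW.R6116H.Tm_7.cellM_6_20_6_18 (AllC.cons Pool.Agent.TOPW.R6116H.Tm_7.cellM_6_21_6_18 (AllC.cons Pool.Agent.TOPW.R6116H.Tm_4.cellM_5_10_6_19 (AllC.cons Pool.Agent.TOPW.R6116H.Tm_4.cellM_5_10_6_20 (AllC.cons Pool.Agent.TOPW.R6116H.Tm_4.cellM_5_10_6_21 (AllC.cons Pool.Agent.TOPW.R6116H.Tm_8.cellM_6_22_5_0 (AllC.cons Pool.Agent.TOPW.R6116H.Tm_8.cellM_6_22_6_2 (AllC.cons Pool.Agent.TOPW.R6116H.Tm_8.cellM_6_22_6_3 (AllC.cons Pool.Agent.TOPW.R6116H.Tm_8.cellM_6_22_6_4 (AllC.cons Pool.Agent.TOPW.R6116H.Tm_8.cellM_6_22_6_5 (AllC.cons Pool.Agent.TOPW.R6116H.Tm_8.cellM_6_22_7_12 (AllC.cons Pool.Agent.TOPW.R6116H.Tm_8.cellM_6_22_7_13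 (AllC.cons Pool.Agent.TOPW.R6116H.Tm_8.cellM_6_22_7_14 (AllC.cons Pool.Agent.TOPW.R6116H.Tm_8.cellM_6_22_7_15 (AllC.cons Pool.Agent.TOPW.R6116H.Tm_8.cellM_6_22_7_16 (AllC.cons Pool.Agent.TOPW.R6116H.Tm_8.cellM_6_22_7_17 (AllC.cons Pool.Agent.TOPW.R6116H.Tm_8.cellM_6_22_7_18 (AllC.cons Pool.Agent.TOPW.R6116H.Tm_8.cellM_6_22_7_19 (AllC.cons Pool.Agent.TOPW.R6116H.Tm_9.cellM_6_22_7_20 (AllC.cons Pool.Agent.TOPW.R6116H.Tm_9.cellM_6_22_7_21 (AllC.cons Pool.Agent.TOPW.R6116H.Tm_9.cellM_6_22_7_22 (AllC.cons Pool.Agent.TOPW.R6116H.Tm_9.cellM_6_22_7_23 (AllC.cons Pool.Agent.TOPW.R6116H.Tm_9.cellM_6_22_7_24 (AllC.cons Pool.Agent.TOPW.R6116H.Tm_9.cellM_6_22_7_25 (AllC.cons Pool.Agent.TOPW.R6116H.Tm_9.cellM_6_22_7_26 (AllC.cons Pool.Agent.TOPW.R6116H.Tm_9.cellM_6_22_7_27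 (AllC.cons Pool.Agent.TOPW.R6116H.Tm_9.cellM_6_22_7_28 (AllC.cons Pool.Agent.TOPW.R6116H.Tm_9.cellM_6_22_7_29 (AllC.cons Pool.Agent.TOPW.R6116H.Tm_8.cellM_6_22_6_15 (AllC.cons Pool.Agent.TOPW.R6116H.Tm_9.cellM_6_23_5_0 (AllC.nil))))))))))))))))))))))))))))))))

def LM_5 : List UC := [⟨6, 23, 6, 2⟩, ⟨6, 23, 6, 3⟩, ⟨6, 23, 6, 4⟩, ⟨6, 23, 6, 5⟩, ⟨6, 23, 7, 12⟩, ⟨6, 23, 7, 13⟩, ⟨6, 23, 7, 14⟩, ⟨6, 23, 7, 15⟩, ⟨6, 23, 7, 16⟩, ⟨6, 23, 7, 17⟩, ⟨6, 23, 7, 18⟩, ⟨6, 23, 7, 19⟩, ⟨6, 23, 7, 20⟩, ⟨6, 23, 7, 21⟩, ⟨6, 23, 7, 22⟩, ⟨6, 23, 7, 23⟩, ⟨6, 23, 7, 24⟩, ⟨6, 23, 7, 25⟩, ⟨6, 23, 7, 26⟩, ⟨6, 23, 7, 27⟩, ⟨6, 23, 7, 28⟩, ⟨6, 23, 7, 29⟩, ⟨6, 23, 6, 15⟩, ⟨6, 22, 6, 16⟩, ⟨6, 22, 6, 17⟩, ⟨6, 23, 6, 16⟩, ⟨6, 23, 6, 17⟩, ⟨6, 22, 6, 18⟩, ⟨6, 23, 6, 18⟩, ⟨5, 11, 6, 19⟩, ⟨5, 11,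 6, 20⟩, ⟨5, 11, 6, 21⟩]

theorem aM_5 : AllC (PMc c) LM_5 := AllC.cons Pool.Agent.TOPW.R6116H.Tm_9.cellM_6_23_6_2 (AllC.cons Pool.Agent.TOPW.R6116H.Tm_9.cellM_6_23_6_3 (AllC.cons Pool.Agent.TOPW.R6116H.Tm_9.cellM_6_23_6_4 (AllC.cons Pool.Agent.TOPW.R6116H.Tm_9.cellM_6_23_6_5 (AllC.cons Pool.Agent.TOPW.R6116H.Tm_10.cellM_6_23_7_12 (AllC.cons Pool.Agent.TOPW.R6116H.Tm_10.cellM_6_23_7_13 (AllC.cons Pool.Agent.TOPW.R6116H.Tm_10.cellM_6_23_7_14 (AllC.cons Pool.Agent.TOPW.R6116H.Tm_10.cellM_6_23_7_15 (AllC.cons Pool.Agent.TOPW.R6116H.Tm_10.cellM_6_23_7_16 (AllC.cons Pool.Agent.TOPW.R6116H.Tm_10.cellM_6_23_7_17 (AllC.cons Pool.Agent.TOPW.R6116H.Tm_10.cellM_6_23_7_18 (AllC.cons Pool.Agent.TOPW.R6116H.Tm_10.cellM_6_23_7_19 (AllC.cons Pool.Agent.TOPW.R6116H.Tm_10.cellM_6_23_7_20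 (AllC.cons Pool.Agent.TOPW.R6116H.Tm_10.cellM_6_23_7_21 (AllC.cons Pool.Agent.TOPW.R6116H.Tm_10.cellM_6_23_7_22 (AllC.cons Pool.Agent.TOPW.R6116H.Tm_10.cellM_6_23_7_23 (AllC.cons Pool.Agent.TOPW.R6116H.Tm_10.cellM_6_23_7_24 (AllC.cons Pool.Agent.TOPW.R6116H.Tm_10.cellM_6_23_7_25 (AllC.cons Pool.Agent.TOPW.R6116H.Tm_10.cellM_6_23_7_26 (AllC.cons Pool.Agent.TOPW.R6116H.Tm_10.cellM_6_23_7_27 (AllC.cons Pool.Agent.TOPW.R6116H.Tm_10.cellM_6_23_7_28 (AllC.cons Pool.Agent.TOPW.R6116H.Tm_10.cellM_6_23_7_29 (AllC.cons Pool.Agent.TOPW.R6116H.Tm_9.cellM_6_23_6_15 (AllC.cons Pool.Agent.TOPW.R6116H.Tm_8.cellM_6_22_6_16 (AllC.cons Pool.Agent.TOPW.R6116H.Tm_8.cellM_6_22_6_17 (AllC.cons Pool.Agent.TOPW.R6116H.Tm_9.cellM_6_23_6_16 (AllC.cons Pool.Agent.TOPW.R6116H.Tm_9.cellM_6_23_6_17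 (AllC.cons Pool.Agent.TOPW.R6116H.Tm_8.cellM_6_22_6_18 (AllC.cons Pool.Agent.TOPW.R6116H.Tm_9.cellM_6_23_6_18 (AllC.cons Pool.Agent.TOPW.R6116H.Tm_4.cellM_5_11_6_19 (AllC.cons Pool.Agent.TOPW.R6116H.Tm_4.cellM_5_11_6_20 (AllC.cons Pool.Agent.TOPW.R6116H.Tm_4.cellM_5_11_6_21 (AllC.nil))))))))))))))))))))))))))))))))

def LM_6 : List UC := [⟨5, 11, 5, 11⟩, ⟨7, 48, 6, 0⟩, ⟨7, 49, 6, 0⟩, ⟨6, 24, 6, 1⟩, ⟨6, 24, 6, 2⟩, ⟨6, 24, 6, 3⟩, ⟨6, 24, 6, 4⟩, ⟨6, 24, 6, 5⟩, ⟨6, 24, 7, 12⟩, ⟨6, 24, 7, 13⟩, ⟨6, 24, 7, 14⟩, ⟨6, 24, 7, 15⟩, ⟨6, 24, 7, 16⟩, ⟨6, 24, 7, 17⟩, ⟨6, 24, 7, 18⟩, ⟨6, 24, 7, 19⟩, ⟨6, 24, 7, 20⟩, ⟨6, 24, 7, 21⟩, ⟨6, 24, 7, 22⟩, ⟨6, 24, 7, 23⟩, ⟨6, 24, 7, 24⟩, ⟨6, 24, 7, 25⟩, ⟨6, 24, 7, 26⟩, ⟨6, 24, 7, 27⟩, ⟨6, 24, 7, 28⟩, ⟨6, 24, 7, 29⟩, ⟨6, 24, 7, 30⟩, ⟨6,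 24, 7, 31⟩, ⟨7, 50, 6, 0⟩, ⟨7, 51, 6, 0⟩, ⟨6, 25, 6, 1⟩, ⟨7, 50, 7, 4⟩]

theorem aM_6 : AllC (PMc c) LM_6 := AllC.cons Pool.Agent.TOPW.R6116H.Tm_4.cellM_5_11_5_11 (AllC.cons Pool.Agent.TOPW.R6116H.Tm_14.cellM_7_48_6_0 (AllC.cons Pool.Agent.TOPW.R6116H.Tm_14.cellM_7_49_6_0 (AllC.cons Pool.Agent.TOPW.R6116H.Tm_10.cellM_6_24_6_1 (AllC.cons Pool.Agent.TOPW.R6116H.Tm_10.cellM_6_24_6_2 (AllC.cons Pool.Agent.TOPW.R6116H.Tm_11.cellM_6_24_6_3 (AllC.cons Pool.Agent.TOPW.R6116H.Tm_11.cellM_6_24_6_4 (AllC.cons Pool.Agent.TOPW.R6116H.Tm_11.cellM_6_24_6_5 (AllC.cons Pool.Agent.TOPW.R6116H.Tm_11.cellM_6_24_7_12 (AllC.cons Pool.Agent.TOPW.R6116H.Tm_11.cellM_6_24_7_13 (AllC.cons Pool.Agent.TOPW.R6116H.Tm_11.cellM_6_24_7_14 (AllC.cons Pool.Agent.TOPW.R6116H.Tm_11.cellM_6_24_7_15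 (AllC.cons Pool.Agent.TOPW.R6116H.Tm_11.cellM_6_24_7_16 (AllC.cons Pool.Agent.TOPW.R6116H.Tm_11.cellM_6_24_7_17 (AllC.cons Pool.Agent.TOPW.R6116H.Tm_11.cellM_6_24_7_18 (AllC.cons Pool.Agent.TOPW.R6116H.Tm_11.cellM_6_24_7_19 (AllC.cons Pool.Agent.TOPW.R6116H.Tm_11.cellM_6_24_7_20 (AllC.cons Pool.Agent.TOPW.R6116H.Tm_11.cellM_6_24_7_21 (AllC.cons Pool.Agent.TOPW.R6116H.Tm_12.cellM_6_24_7_22 (AllC.cons Pool.Agent.TOPW.R6116H.Tm_12.cellM_6_24_7_23 (AllC.cons Pool.Agent.TOPW.R6116H.Tm_12.cellM_6_24_7_24 (AllC.cons Pool.Agent.TOPW.R6116H.Tm_12.cellM_6_24_7_25 (AllC.cons Pool.Agent.TOPW.R6116H.Tm_12.cellM_6_24_7_26 (AllC.cons Pool.Agent.TOPW.R6116H.Tm_12.cellM_6_24_7_27 (AllC.cons Pool.Agent.TOPW.R6116H.Tm_12.cellM_6_24_7_28 (AllC.cons Pool.Agent.TOPW.R6116H.Tm_12.cellM_6_24_7_29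 (AllC.cons Pool.Agent.TOPW.R6116H.Tm_12.cellM_6_24_7_30 (AllC.cons Pool.Agent.TOPW.R6116H.Tm_12.cellM_6_24_7_31 (AllC.cons Pool.Agent.TOPW.R6116H.Tm_14.cellM_7_50_6_0 (AllC.cons Pool.Agent.TOPW.R6116H.Tm_15.cellM_7_51_6_0 (AllC.cons Pool.Agent.TOPW.R6116H.Tm_12.cellM_6_25_6_1 (AllC.cons Pool.Agent.TOPW.R6116H.Tm_15.cellM_7_50_7_4 (AllC.nil))))))))))))))))))))))))))))))))

def LM_7 : List UC := [⟨7, 51, 7, 4⟩, ⟨6, 25, 7, 5⟩, ⟨6, 25, 7, 6⟩, ⟨6, 25, 7, 7⟩, ⟨6, 25, 6, 4⟩, ⟨6, 25, 6, 5⟩, ⟨6, 25, 7, 12⟩, ⟨6, 25, 7, 13⟩, ⟨6, 25, 7, 14⟩, ⟨6, 25, 7, 15⟩, ⟨6, 25, 7, 16⟩, ⟨6, 25, 7, 17⟩, ⟨6, 25, 7, 18⟩, ⟨6, 25, 7, 19⟩, ⟨6, 25, 7, 20⟩, ⟨6, 25, 7, 21⟩, ⟨6, 25, 7, 22⟩, ⟨6, 25, 7, 23⟩, ⟨6, 25, 7, 24⟩, ⟨6, 25, 7, 25⟩, ⟨6, 25, 7, 26⟩, ⟨6, 25, 7, 27⟩, ⟨6, 25, 7, 28⟩, ⟨6, 25, 7,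 29⟩, ⟨6, 25, 7, 30⟩, ⟨6, 25, 7, 31⟩, ⟨6, 24, 6, 16⟩, ⟨6, 24, 6, 17⟩, ⟨6, 24, 6, 18⟩, ⟨6, 24, 6, 19⟩, ⟨6, 25, 6, 16⟩, ⟨5, 12, 6, 20⟩]

theorem aM_7 : AllC (PMc c) LM_7 := AllC.cons Pool.Agent.TOPW.R6116H.Tm_15.cellM_7_51_7_4 (AllC.cons Pool.Agent.TOPW.R6116H.Tm_12.cellM_6_25_7_5 (AllC.cons Pool.Agent.TOPW.R6116H.Tm_12.cellM_6_25_7_6 (AllC.cons Pool.Agent.TOPW.R6116H.Tm_13.cellM_6_25_7_7 (AllC.cons Pool.Agent.TOPW.R6116H.Tm_12.cellM_6_25_6_4 (AllC.cons Pool.Agent.TOPW.R6116H.Tm_12.cellM_6_25_6_5 (AllC.cons Pool.Agent.TOPW.R6116H.Tm_13.cellM_6_25_7_12 (AllC.cons Pool.Agent.TOPW.R6116H.Tm_13.cellM_6_25_7_13 (AllC.cons Pool.Agent.TOPW.R6116H.Tm_13.cellM_6_25_7_14 (AllC.cons Pool.Agent.TOPW.R6116H.Tm_13.cellM_6_25_7_15 (AllC.cons Pool.Agent.TOPW.R6116H.Tm_13.cellM_6_25_7_16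 (AllC.cons Pool.Agent.TOPW.R6116H.Tm_13.cellM_6_25_7_17 (AllC.cons Pool.Agent.TOPW.R6116H.Tm_13.cellM_6_25_7_18 (AllC.cons Pool.Agent.TOPW.R6116H.Tm_13.cellM_6_25_7_19 (AllC.cons Pool.Agent.TOPW.R6116H.Tm_13.cellM_6_25_7_20 (AllC.cons Pool.Agent.TOPW.R6116H.Tm_13.cellM_6_25_7_21 (AllC.cons Pool.Agent.TOPW.R6116H.Tm_13.cellM_6_25_7_22 (AllC.cons Pool.Agent.TOPW.R6116H.Tm_13.cellM_6_25_7_23 (AllC.cons Pool.Agent.TOPW.R6116H.Tm_13.cellM_6_25_7_24 (AllC.cons Pool.Agent.TOPW.R6116H.Tm_13.cellM_6_25_7_25 (AllC.cons Pool.Agent.TOPW.R6116H.Tm_13.cellM_6_25_7_26 (AllC.cons Pool.Agent.TOPW.R6116H.Tm_13.cellM_6_25_7_27 (AllC.cons Pool.Agent.TOPW.R6116H.Tm_13.cellM_6_25_7_28 (AllC.cons Pool.Agent.TOPW.R6116H.Tm_13.cellM_6_25_7_29 (AllC.cons Pool.Agent.TOPW.R6116H.Tm_13.cellM_6_25_7_30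 (AllC.cons Pool.Agent.TOPW.R6116H.Tm_13.cellM_6_25_7_31 (AllC.cons Pool.Agent.TOPW.R6116H.Tm_11.cellM_6_24_6_16 (AllC.cons Pool.Agent.TOPW.R6116H.Tm_11.cellM_6_24_6_17 (AllC.cons Pool.Agent.TOPW.R6116H.Tm_11.cellM_6_24_6_18 (AllC.cons Pool.Agent.TOPW.R6116H.Tm_11.cellM_6_24_6_19 (AllC.cons Pool.Agent.TOPW.R6116H.Tm_12.cellM_6_25_6_16 (AllC.cons Pool.Agent.TOPW.R6116H.Tm_5.cellM_5_12_6_20 (AllC.nil))))))))))))))))))))))))))))))))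

def LM_8 : List UC := [⟨5, 12, 6, 21⟩, ⟨6, 26, 6, 0⟩, ⟨6, 26, 7, 2⟩, ⟨7, 52, 7, 3⟩, ⟨7, 52, 7, 4⟩, ⟨6, 26, 7, 5⟩, ⟨7, 52, 7, 6⟩, ⟨6, 26, 7, 7⟩, ⟨6, 26, 6, 4⟩, ⟨6, 26, 6, 5⟩, ⟨6, 26, 6, 6⟩, ⟨6, 26, 7, 14⟩, ⟨6, 26, 7, 15⟩, ⟨6, 26, 7, 16⟩, ⟨6, 26, 7, 17⟩, ⟨6, 26, 7, 18⟩, ⟨6, 26, 7, 19⟩]

theorem aM_8 : AllC (PMc c) LM_8 := AllC.cons Pool.Agent.TOPW.R6116H.Tm_5.cellM_5_12_6_21 (AllC.cons Pool.Agent.TOPW.R6116H.Tm_14.cellM_6_26_6_0 (AllC.cons Pool.Agent.TOPW.R6116H.Tm_14.cellM_6_26_7_2 (AllC.cons Pool.Agent.TOPW.R6116H.Tm_15.cellM_7_52_7_3 (AllC.cons Pool.Agent.TOPW.R6116H.Tm_15.cellM_7_52_7_4 (AllC.cons Pool.Agent.TOPW.R6116H.Tm_14.cellM_6_26_7_5 (AllC.cons Pool.Agent.TOPW.R6116H.Tm_15.cellM_7_52_7_6 (AllC.cons Pool.Agent.TOPW.R6116H.Tm_14.cellM_6_26_7_7 (AllC.cons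 Pool.Agent.TOPW.R6116H.Tm_14.cellM_6_26_6_4 (AllC.cons Pool.Agent.TOPW.R6116H.Tm_14.cellM_6_26_6_5 (AllC.cons Pool.Agent.TOPW.R6116H.Tm_14.cellM_6_26_6_6 (AllC.cons Pool.Agent.TOPW.R6116H.Tm_14.cellM_6_26_7_14 (AllC.cons Pool.Agent.TOPW.R6116H.Tm_14.cellM_6_26_7_15 (AllC.cons Pool.Agent.TOPW.R6116H.Tm_14.cellM_6_26_7_16 (AllC.cons Pool.Agent.TOPW.R6116H.Tm_14.cellM_6_26_7_17 (AllC.cons Pool.Agent.TOPW.R6116H.Tm_14.cellM_6_26_7_18 (AllC.cons Pool.Agent.TOPW.R6116H.Tm_14.cellM_6_26_7_19 (AllC.nil)))))))))))))))))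

def LLM : List UC := (((LM_0 ++ LM_1) ++ (LM_2 ++ LM_3)) ++ ((LM_4 ++ LM_5) ++ (LM_6 ++ (LM_7 ++ LM_8))))

theorem allM : AllC (PMc c) LLM := (AllC.append (AllC.append (AllC.append aM_0 aM_1) (AllC.append aM_2 aM_3)) (AllC.append (AllC.append aM_4 aM_5) (AllC.append aM_6 (AllC.append aM_7 aM_8))))

theorem tokM : TM.ok rootU = true := by decide +kernel

theorem tlM : TM.leaves rootU = LLM := by decide +kernel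

theorem rok : rootOK c = true := by decide +kernel

theorem aff (u p : Helper80.CW.DL.V3) (hu : u.1 ^ 2 + u.2.1 ^ 2 + u.2.2 ^ 2 = 1) (h3 : 0 ≤ u.2.2)
    (h2 : u.2.2 ≤ u.2.1) (h1 : u.2.1 ≤ u.1) : c.AffS u p :=
  affS_all3 rok TS TP TM LLS LLP LLM tokS tlS allS tokP tlP allP tokM tlM allM u p hu h3 h2 h1

theorem okB' : Pool.Agent.Helper64.TOP.okB c 6115999 6119001 10000000 182220 1000000000000 = true := by decide +kernel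

/-- **the range** -/
theorem top : Top 0.6116 0.6119 :=
  Pool.Agent.Helper64.TOP.top_rg okB' (by norm_num) (by norm_num) aff

end Pool.Agent.TOPR.R6116H.Inst
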