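import Pool.Agent.Helper6.TOP.Br2

set_option autoImplicit false
set_option linter.all false
set_option maxRecDepth 100000

namespace Pool.Agent.TOPR.R6116H

open Helper10.PC hiding V3
open Helper80.CW.DL Pool.Agent.Helper6.TOP

/-- `p` scaled by `2 ^ mu`, degree in `p` at most `dp`, degree in `u` at most `Kd` -/
def mu : ℕ := 12
def dp : ℕ := 6
def Kd : ℕ := 13

/-- exponents of `u` -/
def AL : List Al := [(0, 0, 0), (0, 0, 2), (0, 0, 7), (0, 0, 8), (0, 0, 9), (0, 0, 10), (0, 0, 11), (0, 0, 12), (0, 0, 13), (0, 1, 1), (0, 1, 6), (0, 1, 7), (0, 1, 8), (0, 1, 9), (0, 1, 10), (0, 1, 11), (0, 1, 12), (0, 2, 0), (0, 2, 5), (0, 2, 6), (0, 2, 7), (0, 2, 8), (0, 2, 9), (0, 2, 10), (0, 2, 11), (0, 3, 4), (0, 3, 5), (0, 3, 6), (0, 3, 7), (0, 3, 8), (0, 3, 9), (0, 3, 10), (0, 4, 3), (0, 4, 4), (0, 4, 5), (0, 4, 6), (0, 4, 7), (0, 4, 8), (0, 4, 9), (0, 5, 2), (0, 5, 3), (0, 5, 4), (0, 5, 5), (0, 5, 6), (0, 5, 7), (0, 5, 8), (0, 6, 1), (0, 6, 2), (0, 6, 3), (0,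 6, 4), (0, 6, 5), (0, 6, 6), (0, 6, 7), (0, 7, 0), (0, 7, 1), (0, 7, 2), (0, 7, 3), (0, 7, 4), (0, 7, 5), (0, 7, 6), (0, 8, 0), (0, 8, 1), (0, 8, 2), (0, 8, 3), (0, 8, 4), (0, 8, 5), (0, 9, 0), (0, 9, 1), (0, 9, 2), (0, 9, 3), (0, 9, 4), (0, 10, 0), (0, 10, 1), (0, 10, 2), (0, 10, 3), (0, 11, 0), (0, 11, 1), (0, 11, 2), (0, 12, 0), (0, 12, 1), (0, 13, 0), (1, 0, 6), (1, 0, 7), (1, 0, 8), (1, 0, 9), (1, 0, 10), (1, 0, 11), (1, 0, 12), (1, 1, 5), (1, 1, 6), (1, 1, 7), (1, 1, 8), (1, 1, 9), (1, 1, 10), (1, 1, 11), (1, 2, 4), (1, 2, 5), (1, 2, 6), (1, 2, 7), (1, 2, 8), (1, 2, 9), (1, 2, 10), (1, 3, 3), (1, 3, 4), (1, 3, 5), (1, 3, 6), (1, 3, 7), (1, 3, 8), (1, 3, 9), (1, 4, 2), (1, 4, 3), (1, 4, 4), (1, 4, 5), (1, 4, 6), (1, 4, 7), (1, 4, 8), (1, 5, 1), (1, 5, 2), (1, 5, 3), (1, 5, 4), (1, 5, 5), (1, 5, 6), (1, 5, 7), (1, 6, 0), (1, 6, 1), (1, 6, 2), (1, 6, 3), (1, 6, 4), (1, 6, 5), (1, 6, 6), (1, 7, 0), (1, 7, 1), (1, 7, 2), (1, 7, 3), (1, 7, 4), (1, 7,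 5), (1, 8, 0), (1, 8, 1), (1, 8, 2), (1, 8, 3), (1, 8, 4), (1, 9, 0), (1, 9, 1), (1, 9, 2), (1, 9, 3), (1, 10, 0), (1, 10, 1), (1, 10, 2), (1, 11, 0), (1, 11, 1), (1, 12, 0), (2, 0, 0), (2, 0, 5), (2, 0, 6), (2, 0, 7), (2, 0, 8), (2, 0, 9), (2, 0, 10), (2, 0, 11), (2, 1, 4), (2, 1, 5), (2, 1, 6), (2, 1, 7), (2, 1, 8), (2, 1, 9), (2, 1, 10), (2, 2, 3), (2, 2, 4), (2, 2, 5), (2, 2, 6), (2, 2, 7), (2, 2, 8), (2, 2, 9), (2, 3, 2), (2, 3, 3), (2, 3, 4), (2, 3, 5), (2, 3, 6), (2, 3, 7), (2, 3, 8), (2, 4, 1), (2, 4, 2), (2, 4, 3), (2, 4, 4), (2, 4, 5), (2, 4, 6), (2, 4, 7), (2, 5, 0), (2, 5, 1), (2, 5, 2), (2, 5, 3), (2, 5, 4), (2, 5, 5), (2, 5, 6), (2, 6, 0), (2, 6, 1), (2, 6, 2), (2, 6, 3), (2, 6, 4), (2, 6, 5), (2, 7, 0), (2, 7, 1), (2, 7, 2), (2, 7, 3), (2, 7, 4), (2, 8, 0), (2, 8, 1), (2, 8, 2), (2, 8, 3), (2, 9, 0), (2, 9, 1), (2, 9, 2), (2, 10, 0), (2, 10, 1), (2, 11, 0), (3, 0, 4), (3, 0, 5), (3, 0, 6), (3, 0, 7), (3, 0, 8), (3, 0, 9), (3, 0, 10),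 (3, 1, 3), (3, 1, 4), (3, 1, 5), (3, 1, 6), (3, 1, 7), (3, 1, 8), (3, 1, 9), (3, 2, 2), (3, 2, 3), (3, 2, 4), (3, 2, 5), (3, 2, 6), (3, 2, 7), (3, 2, 8), (3, 3, 1), (3, 3, 2), (3, 3, 3), (3, 3, 4), (3, 3, 5), (3, 3, 6), (3, 3, 7), (3, 4, 0), (3, 4, 1), (3, 4, 2), (3, 4, 3), (3, 4, 4), (3, 4, 5), (3, 4, 6), (3, 5, 0), (3, 5, 1), (3, 5, 2), (3, 5, 3), (3, 5, 4), (3, 5, 5), (3, 6, 0), (3, 6, 1), (3, 6, 2), (3, 6, 3), (3, 6, 4), (3, 7, 0), (3, 7, 1), (3, 7, 2), (3, 7, 3), (3, 8, 0), (3, 8, 1), (3, 8, 2), (3, 9, 0), (3, 9, 1), (3, 10, 0), (4, 0, 3), (4, 0, 4), (4, 0, 5), (4, 0, 6), (4, 0, 7), (4, 0, 8), (4, 0, 9), (4, 1, 2), (4, 1, 3), (4, 1, 4), (4, 1, 5), (4, 1, 6), (4, 1, 7), (4, 1, 8), (4, 2, 1), (4, 2, 2), (4, 2, 3), (4, 2, 4), (4, 2, 5), (4, 2, 6), (4, 2, 7), (4, 3, 0), (4, 3, 1), (4, 3, 2), (4, 3, 3), (4, 3, 4), (4, 3, 5), (4, 3, 6), (4, 4, 0), (4, 4, 1), (4, 4, 2), (4, 4, 3), (4, 4, 4), (4, 4, 5), (4, 5, 0), (4, 5, 1), (4, 5, 2), (4, 5, 3), (4, 5,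 4), (4, 6, 0), (4, 6, 1), (4, 6, 2), (4, 6, 3), (4, 7, 0), (4, 7, 1), (4, 7, 2), (4, 8, 0), (4, 8, 1), (4, 9, 0), (5, 0, 2), (5, 0, 3), (5, 0, 4), (5, 0, 5), (5, 0, 6), (5, 0, 7), (5, 0, 8), (5, 1, 1), (5, 1, 2), (5, 1, 3), (5, 1, 4), (5, 1, 5), (5, 1, 6), (5, 1, 7), (5, 2, 0), (5, 2, 1), (5, 2, 2), (5, 2, 3), (5, 2, 4), (5, 2, 5), (5, 2, 6), (5, 3, 0), (5, 3, 1), (5, 3, 2), (5, 3, 3), (5, 3, 4), (5, 3, 5), (5, 4, 0), (5, 4, 1), (5, 4, 2), (5, 4, 3), (5, 4, 4), (5, 5, 0), (5, 5, 1), (5, 5, 2), (5, 5, 3), (5, 6, 0), (5, 6, 1), (5, 6, 2), (5, 7, 0), (5, 7, 1), (5, 8, 0), (6, 0, 1), (6, 0, 2), (6, 0, 3), (6, 0, 4), (6, 0, 5), (6, 0, 6), (6, 0, 7), (6, 1, 0), (6, 1, 1), (6, 1, 2), (6, 1, 3), (6, 1, 4), (6, 1, 5), (6, 1, 6), (6, 2, 0), (6, 2, 1), (6, 2, 2), (6, 2, 3), (6, 2, 4), (6, 2, 5), (6, 3, 0), (6, 3, 1), (6, 3, 2), (6, 3, 3), (6, 3, 4), (6, 4, 0), (6, 4, 1), (6, 4, 2), (6, 4, 3), (6, 5, 0), (6, 5, 1), (6, 5, 2), (6, 6, 0), (6, 6, 1), (6, 7, 0), (7,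 0, 0), (7, 0, 1), (7, 0, 2), (7, 0, 3), (7, 0, 4), (7, 0, 5), (7, 0, 6), (7, 1, 0), (7, 1, 1), (7, 1, 2), (7, 1, 3), (7, 1, 4), (7, 1, 5), (7, 2, 0), (7, 2, 1), (7, 2, 2), (7, 2, 3), (7, 2, 4), (7, 3, 0), (7, 3, 1), (7, 3, 2), (7, 3, 3), (7, 4, 0), (7, 4, 1), (7, 4, 2), (7, 5, 0), (7, 5, 1), (7, 6, 0), (8, 0, 0), (8, 0, 1), (8, 0, 2), (8, 0, 3), (8, 0, 4), (8, 0, 5), (8, 1, 0), (8, 1, 1), (8, 1, 2), (8, 1, 3), (8, 1, 4), (8, 2, 0), (8, 2, 1), (8, 2, 2), (8, 2, 3), (8, 3, 0), (8, 3, 1), (8, 3, 2), (8, 4, 0), (8, 4, 1), (8, 5, 0), (9, 0, 0), (9, 0, 1), (9, 0, 2), (9, 0, 3), (9, 0, 4), (9, 1, 0), (9, 1, 1), (9, 1, 2), (9, 1, 3), (9, 2, 0), (9, 2, 1), (9, 2, 2), (9, 3, 0), (9, 3, 1), (9, 4, 0), (10, 0, 0), (10, 0, 1), (10, 0, 2), (10, 0, 3), (10, 1, 0), (10, 1, 1), (10, 1, 2), (10, 2, 0), (10, 2, 1), (10, 3, 0), (11, 0, 0), (11, 0, 1), (11, 0, 2), (11, 1, 0), (11, 1, 1), (11, 2, 0), (12, 0, 0), (12, 0, 1), (12, 1, 0), (13, 0, 0)]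


def lQp_0 : List (T ℤ) := [(P (nat_lit 5034231565398356583608483840000)), (P (nat_lit 0)), (T.h (T.h (T.h (P (nat_lit 0)) (T.h (M (nat_lit 10212045392436279570270781439)) (T.h (P (nat_lit 0)) (T.h (P (nat_lit 18936214877807918972928)) (T.h (P (nat_lit 0)) (P (nat_lit 73170271617875968))))))) (T.h (P (nat_lit 0)) (T.h (T.h (P (nat_lit 0)) (T.h (M (nat_lit 658474017311560826879)) (T.h (P (nat_lit 0)) (P (nat_lit 13795086358216704))))) (T.h (P (nat_lit 0)) (T.h (T.h (P (nat_lit 0)) (M (nat_lit 2448628643758079))) (P (nat_lit 0))))))) (T.h (T.h (P (nat_lit 0)) (T.h (T.h (P (nat_lit 741706005672169918431232)) (T.h (P (nat_lit 0)) (T.h (P (nat_lit 16419294656111575040)) (T.h (P (nat_lit 0)) (P (nat_lit 32315373365840)))))) (T.h (P (nat_lit 0)) (T.h (T.h (P (nat_lit 2839401542845464576)) (T.h (P (nat_lit 0)) (P (nat_lit 6154245470960)))) (T.h (P (nat_lit 0)) (M (nat_lit 1200533198935))))))) (T.h (T.h (T.h (P (nat_lit 0)) (T.h (M (nat_lit 658474017311560826879))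 (T.h (P (nat_lit 0)) (P (nat_lit 13795086358216704))))) (T.h (P (nat_lit 0)) (T.h (T.h (P (nat_lit 0)) (M (nat_lit 11402419868467199))) (P (nat_lit 0))))) (T.h (T.h (P (nat_lit 0)) (T.h (T.h (P (nat_lit 2839401542845464576)) (T.h (P (nat_lit 0)) (P (nat_lit 6154245470960)))) (T.h (P (nat_lit 0)) (M (nat_lit 7920728801471))))) (T.h (T.h (T.h (P (nat_lit 0)) (M (nat_lit 2448628643758079))) (P (nat_lit 0))) (T.h (T.h (P (nat_lit 0)) (M (nat_lit 1200533198935))) (P (nat_lit 0)))))))), (T.h (T.h (T.h (M (nat_lit 8970997173878140039931440922623)) (T.h (P (nat_lit 0)) (T.h (P (nat_lit 4809974907341691670233088)) (T.h (P (nat_lit 0)) (T.h (P (nat_lit 157772246912990183424)) (T.h (P (nat_lit 0)) (M (nat_lit 9234645211199)))))))) (T.h (P (nat_lit 0)) (T.h (T.h (P (nat_lit 978353580458961784537088)) (T.h (P (nat_lit 0)) (T.h (M (nat_lit 15228380118436020223)) (T.h (P (nat_lit 0)) (P (nat_lit 28106565702272)))))) (T.h (P (nat_lit 0)) (T.h (T.h (P (nat_lit 2389887418619658240))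 (T.h (P (nat_lit 0)) (M (nat_lit 15443532767759)))) (T.h (P (nat_lit 0)) (M (nat_lit 165424305583)))))))) (T.h (T.h (P (nat_lit 0)) (T.h (T.h (P (nat_lit 0)) (T.h (M (nat_lit 2662948729969270849535)) (T.h (P (nat_lit 0)) (P (nat_lit 107255350181560320))))) (T.h (P (nat_lit 0)) (T.h (T.h (P (nat_lit 0)) (P (nat_lit 13170292645003264))) (P (nat_lit 0)))))) (T.h (T.h (T.h (P (nat_lit 978353580458961784537088)) (T.h (P (nat_lit 0)) (T.h (M (nat_lit 15228380118436020223)) (T.h (P (nat_lit 0)) (P (nat_lit 28106565702272)))))) (T.h (P (nat_lit 0)) (T.h (T.h (M (nat_lit 13135542799900344319)) (T.h (P (nat_lit 0)) (P (nat_lit 35413500645568)))) (T.h (P (nat_lit 0)) (M (nat_lit 4239509951935)))))) (T.h (T.h (P (nat_lit 0)) (T.h (T.h (P (nat_lit 0)) (P (nat_lit 13170292645003264))) (P (nat_lit 0)))) (T.h (T.h (T.h (P (nat_lit 2389887418619658240)) (T.h (P (nat_lit 0)) (M (nat_lit 15443532767759)))) (T.h (P (nat_lit 0)) (M (nat_lit 4239509951935)))) (T.h (P (nat_lit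 0)) (M (nat_lit 165424305583)))))))), (T.h (T.h (T.h (P (nat_lit 0)) (T.h (P (nat_lit 4596200364159134283318951936)) (T.h (P (nat_lit 0)) (T.h (P (nat_lit 15703917169784586764288)) (T.h (P (nat_lit 0)) (M (nat_lit 21714547579813887))))))) (T.h (P (nat_lit 0)) (T.h (T.h (P (nat_lit 0)) (T.h (M (nat_lit 8278749748978604048383)) (T.h (P (nat_lit 0)) (P (nat_lit 34950437389729792))))) (T.h (P (nat_lit 0)) (T.h (T.h (P (nat_lit 0)) (P (nat_lit 5455506261671936))) (P (nat_lit 0))))))) (T.h (T.h (P (nat_lit 0)) (T.h (T.h (M (nat_lit 216187792611341833863167)) (T.h (P (nat_lit 0)) (T.h (M (nat_lit 16369758572956876799)) (T.h (P (nat_lit 0)) (M (nat_lit 53858954616319)))))) (T.h (P (nat_lit 0)) (T.h (T.h (M (nat_lit 3961292155565113343)) (T.h (P (nat_lit 0)) (M (nat_lit 13710230630079)))) (T.h (P (nat_lit 0)) (P (nat_lit 3155819464560))))))) (T.h (T.h (T.h (P (nat_lit 0)) (T.h (M (nat_lit 8278749748978604048383)) (T.h (P (nat_lit 0)) (P (nat_lit 34950437389729792)))))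 (T.h (P (nat_lit 0)) (T.h (T.h (P (nat_lit 0)) (P (nat_lit 56948847809921024))) (P (nat_lit 0))))) (T.h (T.h (P (nat_lit 0)) (T.h (T.h (M (nat_lit 3961292155565113343)) (T.h (P (nat_lit 0)) (M (nat_lit 13710230630079)))) (T.h (P (nat_lit 0)) (P (nat_lit 13201214689440))))) (T.h (T.h (T.h (P (nat_lit 0)) (P (nat_lit 5455506261671936))) (P (nat_lit 0))) (T.h (T.h (P (nat_lit 0)) (P (nat_lit 3155819464560))) (P (nat_lit 0)))))))), (T.h (T.h (T.h (P (nat_lit 3948621279540221083939168583680)) (T.h (P (nat_lit 0)) (T.h (M (nat_lit 3553202741703086916501503)) (T.h (P (nat_lit 0)) (T.h (M (nat_lit 176895427923450789887)) (T.h (P (nat_lit 0)) (P (nat_lit 14511582942912)))))))) (T.h (P (nat_lit 0)) (T.h (T.h (M (nat_lit 674436486761574870024191)) (T.h (P (nat_lit 0)) (T.h (M (nat_lit 5355990087802814463)) (T.h (P (nat_lit 0)) (M (nat_lit 56118708733823)))))) (T.h (P (nat_lit 0)) (T.h (T.h (M (nat_lit 1077428141279936511)) (T.h (P (nat_lit 0)) (P (nat_lit 12342157505568))))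 (T.h (P (nat_lit 0)) (P (nat_lit 742147470768)))))))) (T.h (T.h (P (nat_lit 0)) (T.h (T.h (P (nat_lit 0)) (T.h (M (nat_lit 13285698098565511905279)) (T.h (P (nat_lit 0)) (M (nat_lit 121986559857917951))))) (T.h (P (nat_lit 0)) (T.h (T.h (P (nat_lit 0)) (M (nat_lit 4307079362576383))) (P (nat_lit 0)))))) (T.h (T.h (T.h (M (nat_lit 674436486761574870024191)) (T.h (P (nat_lit 0)) (T.h (M (nat_lit 5355990087802814463)) (T.h (P (nat_lit 0)) (M (nat_lit 56118708733823)))))) (T.h (P (nat_lit 0)) (T.h (T.h (P (nat_lit 7703816849347051520)) (T.h (P (nat_lit 0)) (M (nat_lit 55649786596799)))) (T.h (P (nat_lit 0)) (P (nat_lit 7551023902224)))))) (T.h (T.h (P (nat_lit 0)) (T.h (T.h (P (nat_lit 0)) (M (nat_lit 4307079362576383))) (P (nat_lit 0)))) (T.h (T.h (T.h (M (nat_lit 1077428141279936511)) (T.h (P (nat_lit 0)) (P (nat_lit 12342157505568)))) (T.h (P (nat_lit 0)) (P (nat_lit 7551023902224)))) (T.h (P (nat_lit 0)) (P (nat_lit 742147470768)))))))), (T.h (T.h (T.h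 (P (nat_lit 0)) (T.h (P (nat_lit 5897302073599640136660811776)) (T.h (P (nat_lit 0)) (T.h (M (nat_lit 38739346812376056856575)) (T.h (P (nat_lit 0)) (P (nat_lit 16210757382045696))))))) (T.h (P (nat_lit 0)) (T.h (T.h (P (nat_lit 0)) (T.h (P (nat_lit 5209847404018203099136)) (T.h (P (nat_lit 0)) (M (nat_lit 41793132904316927))))) (T.h (P (nat_lit 0)) (T.h (T.h (P (nat_lit 0)) (P (nat_lit 4595770649346048))) (P (nat_lit 0))))))) (T.h (T.h (P (nat_lit 0)) (T.h (T.h (M (nat_lit 386661090139917950910463)) (T.h (P (nat_lit 0)) (M (nat_lit 43491311747944415231)))) (T.h (P (nat_lit 0)) (P (nat_lit 243643318179725312))))) (T.h (T.h (T.h (P (nat_lit 0)) (T.h (P (nat_lit 5209847404018203099136)) (T.h (P (nat_lit 0)) (M (nat_lit 41793132904316927))))) (T.h (P (nat_lit 0)) (T.h (T.h (P (nat_lit 0)) (M (nat_lit 20721956900044799))) (P (nat_lit 0))))) (T.h (T.h (P (nat_lit 0)) (P (nat_lit 243643318179725312))) (T.h (T.h (T.h (P (nat_lit 0)) (P (nat_lit 4595770649346048)))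 (P (nat_lit 0))) (P (nat_lit 0))))))), (P (nat_lit 0))]
def lQp_1 : List (T ℤ) := [(P (nat_lit 0)), (P (nat_lit 0)), (T.h (T.h (P (nat_lit 0)) (T.h (T.h (P (nat_lit 12794100345879409982347149312)) (T.h (P (nat_lit 0)) (T.h (M (nat_lit 495899353916857384959)) (T.h (P (nat_lit 0)) (M (nat_lit 38793684289617919)))))) (T.h (P (nat_lit 0)) (T.h (T.h (M (nat_lit 1384689428146249793535)) (T.h (P (nat_lit 0)) (M (nat_lit 10798372299145215)))) (T.h (P (nat_lit 0)) (M (nat_lit 12294808850366463))))))) (T.h (T.h (T.h (P (nat_lit 0)) (T.h (P (nat_lit 1857953842829409745108992)) (T.h (P (nat_lit 0)) (T.h (P (nat_lit 8107869170617548800)) (T.h (P (nat_lit 0)) (P (nat_lit 62471784628984))))))) (T.h (P (nat_lit 0)) (T.h (T.h (P (nat_lit 0)) (T.h (M (nat_lit 593274009924141055)) (T.h (P (nat_lit 0)) (P (nat_lit 13916663262256))))) (T.h (P (nat_lit 0)) (T.h (T.h (P (nat_lit 0)) (M (nat_lit 8435143216095))) (P (nat_lit 0))))))) (T.h (T.h (P (nat_lit 0)) (T.h (T.h (P (nat_lit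 1358226987020332302336)) (T.h (P (nat_lit 0)) (M (nat_lit 4763249007394815)))) (T.h (P (nat_lit 0)) (M (nat_lit 132703734923263))))) (T.h (T.h (T.h (P (nat_lit 0)) (T.h (P (nat_lit 5207521057891680256)) (T.h (P (nat_lit 0)) (M (nat_lit 13168855558335))))) (T.h (P (nat_lit 0)) (T.h (T.h (P (nat_lit 0)) (M (nat_lit 1495307379447))) (P (nat_lit 0))))) (T.h (T.h (P (nat_lit 0)) (M (nat_lit 108913887543295))) (T.h (T.h (T.h (P (nat_lit 0)) (M (nat_lit 7889238589567))) (P (nat_lit 0))) (P (nat_lit 0)))))))), (T.h (T.h (P (nat_lit 0)) (T.h (T.h (P (nat_lit 0)) (T.h (P (nat_lit 5760110150759249130553344)) (T.h (P (nat_lit 0)) (T.h (M (nat_lit 155560528027376943103)) (T.h (P (nat_lit 0)) (P (nat_lit 126624751875824))))))) (T.h (P (nat_lit 0)) (T.h (T.h (P (nat_lit 0)) (T.h (M (nat_lit 44187288449497169919)) (T.h (P (nat_lit 0)) (M (nat_lit 29896136530671))))) (T.h (P (nat_lit 0)) (T.h (T.h (P (nat_lit 0)) (P (nat_lit 7351350546784))) (P (nat_lit 0)))))))) (T.h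 (T.h (T.h (P (nat_lit 226318629704904614210437120)) (T.h (P (nat_lit 0)) (T.h (P (nat_lit 13548174235352948539392)) (T.h (P (nat_lit 0)) (P (nat_lit 148610963780747264)))))) (T.h (P (nat_lit 0)) (T.h (T.h (P (nat_lit 6115334825654234382336)) (T.h (P (nat_lit 0)) (P (nat_lit 11298605499367424)))) (T.h (P (nat_lit 0)) (P (nat_lit 13485241803522048)))))) (T.h (T.h (P (nat_lit 0)) (T.h (T.h (P (nat_lit 0)) (T.h (P (nat_lit 4478360613369675776)) (T.h (P (nat_lit 0)) (P (nat_lit 20853968390928))))) (T.h (P (nat_lit 0)) (T.h (T.h (P (nat_lit 0)) (M (nat_lit 4256921589567))) (P (nat_lit 0)))))) (T.h (T.h (T.h (P (nat_lit 766451334615954096128)) (T.h (P (nat_lit 0)) (P (nat_lit 1936205404995584)))) (T.h (P (nat_lit 0)) (P (nat_lit 18148605108125696)))) (T.h (T.h (P (nat_lit 0)) (T.h (T.h (P (nat_lit 0)) (M (nat_lit 14115448294655))) (P (nat_lit 0)))) (M (nat_lit 2974749091381247))))))), (T.h (T.h (P (nat_lit 0)) (T.h (T.h (M (nat_lit 16157316351655077914389512191))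 (T.h (P (nat_lit 0)) (T.h (P (nat_lit 13429755321487863054336)) (T.h (P (nat_lit 0)) (P (nat_lit 274177761625079808)))))) (T.h (P (nat_lit 0)) (T.h (T.h (M (nat_lit 5325104209578101309439)) (T.h (P (nat_lit 0)) (M (nat_lit 27539627497783295)))) (T.h (P (nat_lit 0)) (P (nat_lit 29353014219341824))))))) (T.h (T.h (T.h (P (nat_lit 0)) (T.h (M (nat_lit 11214666536666130125160447)) (T.h (P (nat_lit 0)) (T.h (M (nat_lit 273829416074412556287)) (T.h (P (nat_lit 0)) (M (nat_lit 649950281733359))))))) (T.h (P (nat_lit 0)) (T.h (T.h (P (nat_lit 0)) (T.h (M (nat_lit 26743036042488578047)) (T.h (P (nat_lit 0)) (M (nat_lit 63537919357359))))) (T.h (P (nat_lit 0)) (T.h (T.h (P (nat_lit 0)) (P (nat_lit 38000328702000))) (P (nat_lit 0))))))) (T.h (T.h (P (nat_lit 0)) (T.h (T.h (M (nat_lit 1472349745841981882367)) (T.h (P (nat_lit 0)) (P (nat_lit 171041178281050112)))) (T.h (P (nat_lit 0)) (P (nat_lit 23172711675297792))))) (T.h (T.h (T.h (P (nat_lit 0)) (T.h (M (nat_lit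 16014234136231280639)) (T.h (P (nat_lit 0)) (P (nat_lit 78533988872880))))) (T.h (P (nat_lit 0)) (T.h (T.h (P (nat_lit 0)) (M (nat_lit 10694443811919))) (P (nat_lit 0))))) (T.h (T.h (P (nat_lit 0)) (P (nat_lit 7029372037136384))) (T.h (T.h (T.h (P (nat_lit 0)) (P (nat_lit 6700780526240))) (P (nat_lit 0))) (P (nat_lit 0)))))))), (T.h (T.h (P (nat_lit 0)) (T.h (T.h (P (nat_lit 0)) (T.h (P (nat_lit 24061905069947047567687680)) (T.h (P (nat_lit 0)) (T.h (P (nat_lit 83946722356541521920)) (T.h (P (nat_lit 0)) (M (nat_lit 430642633814447))))))) (T.h (P (nat_lit 0)) (T.h (T.h (P (nat_lit 0)) (T.h (P (nat_lit 50873018507107237888)) (T.h (P (nat_lit 0)) (P (nat_lit 847315013424))))) (T.h (P (nat_lit 0)) (T.h (T.h (P (nat_lit 0)) (M (nat_lit 6662556455103))) (P (nat_lit 0)))))))) (T.h (T.h (T.h (M (nat_lit 1468683830756010962882396159)) (T.h (P (nat_lit 0)) (T.h (M (nat_lit 14144146517207239622655)) (T.h (P (nat_lit 0)) (M (nat_lit 486616909737345023)))))) (T.h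 (P (nat_lit 0)) (T.h (T.h (M (nat_lit 2152802899987471007743)) (T.h (P (nat_lit 0)) (P (nat_lit 7918000311222272)))) (T.h (P (nat_lit 0)) (M (nat_lit 4140057265930239)))))) (T.h (T.h (P (nat_lit 0)) (T.h (T.h (P (nat_lit 0)) (T.h (P (nat_lit 40906388900327456768)) (T.h (P (nat_lit 0)) (M (nat_lit 64739948756207))))) (T.h (P (nat_lit 0)) (T.h (T.h (P (nat_lit 0)) (P (nat_lit 238877194160))) (P (nat_lit 0)))))) (T.h (T.h (T.h (M (nat_lit 4805245990692022386687)) (T.h (P (nat_lit 0)) (P (nat_lit 131025791878840320)))) (T.h (P (nat_lit 0)) (P (nat_lit 13742695469957120)))) (T.h (T.h (P (nat_lit 0)) (T.h (T.h (P (nat_lit 0)) (P (nat_lit 37730281781984))) (P (nat_lit 0)))) (P (nat_lit 2598847362711552))))))), (T.h (T.h (P (nat_lit 0)) (T.h (T.h (P (nat_lit 3849283284899336926831575040)) (T.h (P (nat_lit 0)) (T.h (P (nat_lit 7915433807328952975360)) (T.h (P (nat_lit 0)) (M (nat_lit 421785709203062783)))))) (T.h (P (nat_lit 0)) (T.h (T.h (P (nat_lit 2169209033493156200448))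 (T.h (P (nat_lit 0)) (P (nat_lit 9664805248008192)))) (T.h (P (nat_lit 0)) (M (nat_lit 411400681750527))))))) (T.h (T.h (T.h (P (nat_lit 0)) (T.h (P (nat_lit 8685767576524368306503680)) (T.h (P (nat_lit 0)) (P (nat_lit 126973145165437337600))))) (T.h (P (nat_lit 0)) (T.h (T.h (P (nat_lit 0)) (P (nat_lit 21352153951422644224))) (P (nat_lit 0))))) (T.h (T.h (P (nat_lit 0)) (T.h (T.h (P (nat_lit 318127756473987497984)) (T.h (P (nat_lit 0)) (M (nat_lit 56882161005330431)))) (T.h (P (nat_lit 0)) (P (nat_lit 5667928027332608))))) (T.h (T.h (T.h (P (nat_lit 0)) (P (nat_lit 32111403715541336064))) (P (nat_lit 0))) (T.h (T.h (P (nat_lit 0)) (P (nat_lit 9836419181182976))) (P (nat_lit 0))))))), (P (nat_lit 0))]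
def lQp_2 : List (T ℤ) := [(P (nat_lit 0)), (P (nat_lit 0)), (T.h (T.h (T.h (P (nat_lit 0)) (T.h (M (nat_lit 2055456681931519564426772479)) (T.h (P (nat_lit 0)) (T.h (M (nat_lit 4248991952857825542143)) (T.h (P (nat_lit 0)) (P (nat_lit 3485283988078592))))))) (T.h (P (nat_lit 0)) (T.h (T.h (P (nat_lit 0)) (T.h (P (nat_lit 2766668727805554982912)) (T.h (P (nat_lit 0)) (P (nat_lit 8725047214145536))))) (T.h (P (nat_lit 0)) (T.h (T.h (P (nat_lit 0)) (P (nat_lit 2451024506814464))) (P (nat_lit 0))))))) (T.h (T.h (P (nat_lit 0)) (T.h (T.h (P (nat_lit 1705315292969379989291008)) (T.h (P (nat_lit 0)) (T.h (M (nat_lit 876704851256410111)) (T.h (P (nat_lit 0)) (P (nat_lit 28937018074768)))))) (T.h (P (nat_lit 0)) (T.h (T.h (M (nat_lit 2476425389400915967)) (T.h (P (nat_lit 0)) (P (nat_lit 1415563387736)))) (T.h (P (nat_lit 0)) (P (nat_lit 6242764166040))))))) (T.h (T.h (T.h (P (nat_lit 0)) (T.h (P (nat_lit 10035423191259844444160)) (T.h (P (nat_lit 0)) (M (nat_lit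 48569078005039103))))) (T.h (P (nat_lit 0)) (T.h (T.h (P (nat_lit 0)) (M (nat_lit 454002489458687))) (P (nat_lit 0))))) (T.h (T.h (P (nat_lit 0)) (T.h (T.h (M (nat_lit 2377763215032451071)) (T.h (P (nat_lit 0)) (M (nat_lit 12562440285327)))) (T.h (P (nat_lit 0)) (M (nat_lit 2063416401615))))) (T.h (T.h (T.h (P (nat_lit 0)) (M (nat_lit 4075656891629567))) (P (nat_lit 0))) (T.h (T.h (P (nat_lit 0)) (M (nat_lit 7158406918607))) (P (nat_lit 0)))))))), (T.h (T.h (T.h (M (nat_lit 16310421525849164254090450960383)) (T.h (P (nat_lit 0)) (T.h (P (nat_lit 11683839568522379406606336)) (T.h (P (nat_lit 0)) (T.h (M (nat_lit 2035208997841141759)) (T.h (P (nat_lit 0)) (P (nat_lit 63359498543120)))))))) (T.h (P (nat_lit 0)) (T.h (T.h (P (nat_lit 10121519114408553399451648)) (T.h (P (nat_lit 0)) (T.h (P (nat_lit 61914797905744494592)) (T.h (P (nat_lit 0)) (P (nat_lit 439341944415168)))))) (T.h (P (nat_lit 0)) (T.h (T.h (M (nat_lit 2857327944320155647)) (T.h (P (nat_lit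 0)) (M (nat_lit 25450372979775)))) (T.h (P (nat_lit 0)) (P (nat_lit 7181325551792)))))))) (T.h (T.h (P (nat_lit 0)) (T.h (T.h (P (nat_lit 0)) (T.h (P (nat_lit 10010703217678719385600)) (T.h (P (nat_lit 0)) (M (nat_lit 190586810511065087))))) (T.h (P (nat_lit 0)) (T.h (T.h (P (nat_lit 0)) (P (nat_lit 62959274422501376))) (P (nat_lit 0)))))) (T.h (T.h (T.h (M (nat_lit 1377791761044098531721215)) (T.h (P (nat_lit 0)) (T.h (M (nat_lit 48808837752610095103)) (T.h (P (nat_lit 0)) (P (nat_lit 65805890694080)))))) (T.h (P (nat_lit 0)) (T.h (T.h (M (nat_lit 244134082416476159)) (T.h (P (nat_lit 0)) (M (nat_lit 2428238407215)))) (T.h (P (nat_lit 0)) (P (nat_lit 7834943220656)))))) (T.h (T.h (P (nat_lit 0)) (T.h (T.h (P (nat_lit 0)) (M (nat_lit 61646594252767231))) (P (nat_lit 0)))) (T.h (T.h (T.h (P (nat_lit 4136264342167355392)) (T.h (P (nat_lit 0)) (M (nat_lit 27352561037247)))) (T.h (P (nat_lit 0)) (P (nat_lit 7778266412928)))) (T.h (P (nat_lit 0)) (M (nat_lit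 2258787755471)))))))), (T.h (T.h (T.h (P (nat_lit 0)) (T.h (P (nat_lit 21123593321619357335306633216)) (T.h (P (nat_lit 0)) (T.h (M (nat_lit 15010200804235572936703)) (T.h (P (nat_lit 0)) (P (nat_lit 154004297327050752))))))) (T.h (P (nat_lit 0)) (T.h (T.h (P (nat_lit 0)) (T.h (M (nat_lit 5919988966405504499711)) (T.h (P (nat_lit 0)) (P (nat_lit 58402257737056256))))) (T.h (P (nat_lit 0)) (T.h (T.h (P (nat_lit 0)) (P (nat_lit 10609186901458944))) (P (nat_lit 0))))))) (T.h (T.h (P (nat_lit 0)) (T.h (T.h (M (nat_lit 2581634979122964043137023)) (T.h (P (nat_lit 0)) (T.h (M (nat_lit 58709018431610421247)) (T.h (P (nat_lit 0)) (M (nat_lit 58319323554319)))))) (T.h (P (nat_lit 0)) (T.h (T.h (P (nat_lit 21661246487506452480)) (T.h (P (nat_lit 0)) (P (nat_lit 103123823580640)))) (T.h (P (nat_lit 0)) (M (nat_lit 33653347756399))))))) (T.h (T.h (T.h (P (nat_lit 0)) (T.h (P (nat_lit 50430542327613638049792)) (T.h (P (nat_lit 0)) (P (nat_lit 165041657512427520)))))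 (T.h (P (nat_lit 0)) (T.h (T.h (P (nat_lit 0)) (M (nat_lit 50862758182420479))) (P (nat_lit 0))))) (T.h (T.h (P (nat_lit 0)) (T.h (T.h (P (nat_lit 32675668490924851200)) (T.h (P (nat_lit 0)) (P (nat_lit 107680149905440)))) (T.h (P (nat_lit 0)) (M (nat_lit 66069034018639))))) (T.h (T.h (T.h (P (nat_lit 0)) (M (nat_lit 55334082025422847))) (P (nat_lit 0))) (T.h (T.h (P (nat_lit 0)) (M (nat_lit 16361497986479))) (P (nat_lit 0)))))))), (T.h (T.h (T.h (P (nat_lit 648354378398368560434359828480)) (T.h (P (nat_lit 0)) (T.h (P (nat_lit 7052920268108960389660672)) (T.h (P (nat_lit 0)) (T.h (P (nat_lit 192230385199957934080)) (T.h (P (nat_lit 0)) (P (nat_lit 130481994932784)))))))) (T.h (P (nat_lit 0)) (T.h (T.h (P (nat_lit 6029595519567029736570880)) (T.h (P (nat_lit 0)) (T.h (M (nat_lit 80224259377891115007)) (T.h (P (nat_lit 0)) (P (nat_lit 78162321228816)))))) (T.h (P (nat_lit 0)) (T.h (T.h (P (nat_lit 22782046953774514176)) (T.h (P (nat_lit 0)) (P (nat_lit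 129681242717312)))) (T.h (P (nat_lit 0)) (P (nat_lit 1586148909312)))))))) (T.h (T.h (P (nat_lit 0)) (T.h (T.h (P (nat_lit 0)) (T.h (M (nat_lit 44952741325817528713215)) (T.h (P (nat_lit 0)) (P (nat_lit 150087276435439616))))) (T.h (P (nat_lit 0)) (T.h (T.h (P (nat_lit 0)) (P (nat_lit 134958845215637504))) (P (nat_lit 0)))))) (T.h (T.h (T.h (P (nat_lit 405226602017100610404352)) (T.h (P (nat_lit 0)) (T.h (P (nat_lit 34010185905997873152)) (T.h (P (nat_lit 0)) (P (nat_lit 33231154151888)))))) (T.h (P (nat_lit 0)) (T.h (T.h (P (nat_lit 1458250011144880128)) (T.h (P (nat_lit 0)) (P (nat_lit 109922351265936)))) (T.h (P (nat_lit 0)) (M (nat_lit 52667779269951)))))) (T.h (T.h (P (nat_lit 0)) (T.h (T.h (P (nat_lit 0)) (M (nat_lit 36359330566864895))) (P (nat_lit 0)))) (T.h (T.h (T.h (M (nat_lit 5430699604901363711)) (T.h (P (nat_lit 0)) (M (nat_lit 17832029004943)))) (T.h (P (nat_lit 0)) (M (nat_lit 49126568938831)))) (T.h (P (nat_lit 0)) (P (nat_lit 3821769693456)))))))),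 (T.h (T.h (T.h (P (nat_lit 0)) (T.h (M (nat_lit 3166846873336167602856132607)) (T.h (P (nat_lit 0)) (T.h (P (nat_lit 14344602706940511911936)) (T.h (P (nat_lit 0)) (P (nat_lit 65582421789278208))))))) (T.h (P (nat_lit 0)) (T.h (T.h (P (nat_lit 0)) (T.h (M (nat_lit 54548994911447583555583)) (T.h (P (nat_lit 0)) (P (nat_lit 58682876268085248))))) (T.h (P (nat_lit 0)) (T.h (T.h (P (nat_lit 0)) (P (nat_lit 42086344733622272))) (P (nat_lit 0))))))) (T.h (T.h (P (nat_lit 0)) (T.h (T.h (M (nat_lit 9767776142240778154934271)) (T.h (P (nat_lit 0)) (P (nat_lit 145672624222347722752)))) (T.h (P (nat_lit 0)) (P (nat_lit 181177798486917120))))) (T.h (T.h (T.h (P (nat_lit 0)) (T.h (M (nat_lit 35266817870928178839551)) (T.h (P (nat_lit 0)) (P (nat_lit 12694745432686592))))) (T.h (P (nat_lit 0)) (T.h (T.h (P (nat_lit 0)) (P (nat_lit 41064510206017536))) (P (nat_lit 0))))) (T.h (T.h (P (nat_lit 0)) (M (nat_lit 11252920928419446783))) (T.h (T.h (T.h (P (nat_lit 0)) (P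 (nat_lit 384693298659328))) (P (nat_lit 0))) (P (nat_lit 0))))))), (P (nat_lit 0))]
def lQp_3 : List (T ℤ) := [(P (nat_lit 0)), (T.h (T.h (P (nat_lit 0)) (T.h (T.h (P (nat_lit 9662406685631375686768787456)) (T.h (P (nat_lit 0)) (T.h (M (nat_lit 6265702064994287353855)) (T.h (P (nat_lit 0)) (P (nat_lit 62734219519557632)))))) (T.h (P (nat_lit 0)) (T.h (T.h (M (nat_lit 308556873341813653503)) (T.h (P (nat_lit 0)) (M (nat_lit 1053344965394431)))) (T.h (P (nat_lit 0)) (M (nat_lit 9054777712148479))))))) (T.h (T.h (T.h (P (nat_lit 0)) (T.h (M (nat_lit 11058409231915517491544063)) (T.h (P (nat_lit 0)) (T.h (P (nat_lit 14467366569325363200)) (T.h (P (nat_lit 0)) (P (nat_lit 25228408055952))))))) (T.h (P (nat_lit 0)) (T.h (T.h (P (nat_lit 0)) (T.h (M (nat_lit 41046958461903962111)) (T.h (P (nat_lit 0)) (P (nat_lit 30631383465104))))) (T.h (P (nat_lit 0)) (T.h (T.h (P (nat_lit 0)) (M (nat_lit 20903774469775))) (P (nat_lit 0))))))) (T.h (T.h (P (nat_lit 0)) (T.h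 (T.h (M (nat_lit 6831777259271273578495)) (T.h (P (nat_lit 0)) (M (nat_lit 71706097648828415)))) (T.h (P (nat_lit 0)) (P (nat_lit 9890563182690304))))) (T.h (T.h (T.h (P (nat_lit 0)) (T.h (P (nat_lit 11501981165653327872)) (T.h (P (nat_lit 0)) (P (nat_lit 56548575864128))))) (T.h (P (nat_lit 0)) (T.h (T.h (P (nat_lit 0)) (P (nat_lit 17713433119432))) (P (nat_lit 0))))) (T.h (T.h (P (nat_lit 0)) (P (nat_lit 725418309091328))) (T.h (T.h (T.h (P (nat_lit 0)) (P (nat_lit 16978705696584))) (P (nat_lit 0))) (P (nat_lit 0)))))))), (T.h (T.h (P (nat_lit 0)) (T.h (T.h (P (nat_lit 0)) (T.h (M (nat_lit 39555283947184431235596287)) (T.h (P (nat_lit 0)) (T.h (M (nat_lit 287531455608975785983)) (T.h (P (nat_lit 0)) (P (nat_lit 5629987302560))))))) (T.h (P (nat_lit 0)) (T.h (T.h (P (nat_lit 0)) (T.h (M (nat_lit 30022983081594454015)) (T.h (P (nat_lit 0)) (P (nat_lit 346327786339536))))) (T.h (P (nat_lit 0)) (T.h (T.h (P (nat_lit 0)) (M (nat_lit 20915930440255))) (P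 (nat_lit 0)))))))) (T.h (T.h (T.h (M (nat_lit 21439020041541902305889091583)) (T.h (P (nat_lit 0)) (T.h (M (nat_lit 3327027577897286107135)) (T.h (P (nat_lit 0)) (M (nat_lit 131088948266926079)))))) (T.h (P (nat_lit 0)) (T.h (T.h (M (nat_lit 3066642079731815546879)) (T.h (P (nat_lit 0)) (P (nat_lit 1332017585995776)))) (T.h (P (nat_lit 0)) (P (nat_lit 2510440788918272)))))) (T.h (T.h (P (nat_lit 0)) (T.h (T.h (P (nat_lit 0)) (T.h (P (nat_lit 55318303577196199936)) (T.h (P (nat_lit 0)) (M (nat_lit 138743880398239))))) (T.h (P (nat_lit 0)) (T.h (T.h (P (nat_lit 0)) (P (nat_lit 18354663940000))) (P (nat_lit 0)))))) (T.h (T.h (T.h (P (nat_lit 17368237073517154140160)) (T.h (P (nat_lit 0)) (M (nat_lit 1071105886158847)))) (T.h (P (nat_lit 0)) (M (nat_lit 43936759381704703)))) (T.h (T.h (P (nat_lit 0)) (T.h (T.h (P (nat_lit 0)) (P (nat_lit 33481742598912))) (P (nat_lit 0)))) (P (nat_lit 3881363090505728))))))), (T.h (T.h (P (nat_lit 0)) (T.h (T.h (M (nat_lit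 20775842496571973614966931455)) (T.h (P (nat_lit 0)) (T.h (M (nat_lit 242381418927757509787647)) (T.h (P (nat_lit 0)) (M (nat_lit 534317465604161535)))))) (T.h (P (nat_lit 0)) (T.h (T.h (M (nat_lit 31027422118557268312063)) (T.h (P (nat_lit 0)) (M (nat_lit 214374929667096575)))) (T.h (P (nat_lit 0)) (P (nat_lit 80492444654338048))))))) (T.h (T.h (T.h (P (nat_lit 0)) (T.h (P (nat_lit 59228253820624305253253120)) (T.h (P (nat_lit 0)) (T.h (P (nat_lit 177530439701318598656)) (T.h (P (nat_lit 0)) (P (nat_lit 115487932780160))))))) (T.h (P (nat_lit 0)) (T.h (T.h (P (nat_lit 0)) (T.h (P (nat_lit 131191371818267049984)) (T.h (P (nat_lit 0)) (P (nat_lit 404751258890800))))) (T.h (P (nat_lit 0)) (T.h (T.h (P (nat_lit 0)) (M (nat_lit 168865378043199))) (P (nat_lit 0))))))) (T.h (T.h (P (nat_lit 0)) (T.h (T.h (P (nat_lit 2528523741828411817984)) (T.h (P (nat_lit 0)) (M (nat_lit 53650938488881151)))) (T.h (P (nat_lit 0)) (M (nat_lit 72660222417698815))))) (T.h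 (T.h (T.h (P (nat_lit 0)) (T.h (M (nat_lit 128776015067756888063)) (T.h (P (nat_lit 0)) (M (nat_lit 216660159992639))))) (T.h (P (nat_lit 0)) (T.h (T.h (P (nat_lit 0)) (M (nat_lit 162100968221039))) (P (nat_lit 0))))) (T.h (T.h (P (nat_lit 0)) (M (nat_lit 145499149792968703))) (T.h (T.h (T.h (P (nat_lit 0)) (M (nat_lit 12924331522799))) (P (nat_lit 0))) (P (nat_lit 0)))))))), (T.h (T.h (P (nat_lit 0)) (T.h (T.h (P (nat_lit 0)) (T.h (M (nat_lit 58042082194932585631580159)) (T.h (P (nat_lit 0)) (T.h (P (nat_lit 169026438565197774848)) (T.h (P (nat_lit 0)) (M (nat_lit 202010613196303))))))) (T.h (P (nat_lit 0)) (T.h (T.h (P (nat_lit 0)) (T.h (M (nat_lit 72074611859338035199)) (T.h (P (nat_lit 0)) (M (nat_lit 40807260833679))))) (T.h (P (nat_lit 0)) (T.h (T.h (P (nat_lit 0)) (P (nat_lit 9843633707952))) (P (nat_lit 0)))))))) (T.h (T.h (T.h (P (nat_lit 30592359351173919146378264576)) (T.h (P (nat_lit 0)) (T.h (M (nat_lit 126206691015345766924287)) (T.h (P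 (nat_lit 0)) (P (nat_lit 153230669436993536)))))) (T.h (P (nat_lit 0)) (T.h (T.h (M (nat_lit 47570282094454540075007)) (T.h (P (nat_lit 0)) (P (nat_lit 142951232725958656)))) (T.h (P (nat_lit 0)) (M (nat_lit 100432000003391487)))))) (T.h (T.h (P (nat_lit 0)) (T.h (T.h (P (nat_lit 0)) (T.h (M (nat_lit 23453482314404724735)) (T.h (P (nat_lit 0)) (M (nat_lit 160765879742335))))) (T.h (P (nat_lit 0)) (T.h (T.h (P (nat_lit 0)) (M (nat_lit 153951304182895))) (P (nat_lit 0)))))) (T.h (T.h (T.h (M (nat_lit 18885243591323641970687)) (T.h (P (nat_lit 0)) (M (nat_lit 105060780253347839)))) (T.h (P (nat_lit 0)) (P (nat_lit 5924892080504832)))) (T.h (T.h (P (nat_lit 0)) (T.h (T.h (P (nat_lit 0)) (M (nat_lit 46938132056991))) (P (nat_lit 0)))) (M (nat_lit 20021605155700735))))))), (T.h (T.h (P (nat_lit 0)) (T.h (T.h (M (nat_lit 9479945226855203678944493567)) (T.h (P (nat_lit 0)) (T.h (P (nat_lit 252405377024740638588928)) (T.h (P (nat_lit 0)) (M (nat_lit 158948710125174783))))))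 (T.h (P (nat_lit 0)) (T.h (T.h (P (nat_lit 8055960460481364230144)) (T.h (P (nat_lit 0)) (P (nat_lit 73784448161644544)))) (T.h (P (nat_lit 0)) (P (nat_lit 3604578148319232))))))) (T.h (T.h (T.h (P (nat_lit 0)) (T.h (M (nat_lit 68480659706341009634885631)) (T.h (P (nat_lit 0)) (P (nat_lit 76622548805082939392))))) (T.h (P (nat_lit 0)) (T.h (T.h (P (nat_lit 0)) (M (nat_lit 28561419631895511039))) (P (nat_lit 0))))) (T.h (T.h (P (nat_lit 0)) (T.h (T.h (P (nat_lit 15229871120192928481280)) (T.h (P (nat_lit 0)) (M (nat_lit 48863964941058047)))) (T.h (P (nat_lit 0)) (M (nat_lit 67886065340547071))))) (T.h (T.h (T.h (P (nat_lit 0)) (M (nat_lit 11930534835996590079))) (P (nat_lit 0))) (T.h (T.h (P (nat_lit 0)) (M (nat_lit 27031974620561407))) (P (nat_lit 0))))))), (P (nat_lit 0)), (P (nat_lit 0))]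
def lQp_4 : List (T ℤ) := [(T.h (T.h (T.h (P (nat_lit 0)) (T.h (P (nat_lit 9662406685631375686768787456)) (T.h (P (nat_lit 0)) (T.h (M (nat_lit 308556873341813653503)) (T.h (P (nat_lit 0)) (M (nat_lit 9054777712148479))))))) (T.h (P (nat_lit 0)) (T.h (T.h (P (nat_lit 0)) (T.h (M (nat_lit 6265702064994287353855)) (T.h (P (nat_lit 0)) (M (nat_lit 1053344965394431))))) (T.h (P (nat_lit 0)) (T.h (T.h (P (nat_lit 0)) (P (nat_lit 62734219519557632))) (P (nat_lit 0))))))) (T.h (T.h (P (nat_lit 0)) (T.h (T.h (M (nat_lit 11058409231915517491544063)) (T.h (P (nat_lit 0)) (T.h (M (nat_lit 41046958461903962111)) (T.h (P (nat_lit 0)) (M (nat_lit 20903774469775)))))) (T.h (P (nat_lit 0)) (T.h (T.h (P (nat_lit 14467366569325363200)) (T.h (P (nat_lit 0)) (P (nat_lit 30631383465104)))) (T.h (P (nat_lit 0)) (P (nat_lit 25228408055952))))))) (T.h (T.h (T.h (P (nat_lit 0)) (T.h (M (nat_lit 6831777259271273578495)) (T.h (P (nat_lit 0)) (P (nat_lit 9890563182690304)))))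 (T.h (P (nat_lit 0)) (T.h (T.h (P (nat_lit 0)) (M (nat_lit 71706097648828415))) (P (nat_lit 0))))) (T.h (T.h (P (nat_lit 0)) (T.h (T.h (P (nat_lit 11501981165653327872)) (T.h (P (nat_lit 0)) (P (nat_lit 17713433119432)))) (T.h (P (nat_lit 0)) (P (nat_lit 56548575864128))))) (T.h (T.h (T.h (P (nat_lit 0)) (P (nat_lit 725418309091328))) (P (nat_lit 0))) (T.h (T.h (P (nat_lit 0)) (P (nat_lit 16978705696584))) (P (nat_lit 0)))))))), (T.h (T.h (T.h (M (nat_lit 20254831134507439147727913484287)) (T.h (P (nat_lit 0)) (T.h (P (nat_lit 29599268406989750704013312)) (T.h (P (nat_lit 0)) (T.h (M (nat_lit 57188527308720308223)) (T.h (P (nat_lit 0)) (M (nat_lit 26207854071903)))))))) (T.h (P (nat_lit 0)) (T.h (T.h (P (nat_lit 29599268406989750704013312)) (T.h (P (nat_lit 0)) (T.h (M (nat_lit 148159826317262454783)) (T.h (P (nat_lit 0)) (M (nat_lit 171985111421919)))))) (T.h (P (nat_lit 0)) (T.h (T.h (M (nat_lit 57188527308720308223)) (T.h (P (nat_lit 0)) (M (nat_lit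 171985111421919)))) (T.h (P (nat_lit 0)) (M (nat_lit 26207854071903)))))))) (T.h (T.h (P (nat_lit 0)) (T.h (T.h (P (nat_lit 0)) (T.h (P (nat_lit 453731183376403592642560)) (T.h (P (nat_lit 0)) (P (nat_lit 53449368928747520))))) (T.h (P (nat_lit 0)) (T.h (T.h (P (nat_lit 0)) (P (nat_lit 53449368928747520))) (P (nat_lit 0)))))) (T.h (T.h (T.h (P (nat_lit 8623154526300995311370240)) (T.h (P (nat_lit 0)) (T.h (M (nat_lit 58732646427604811775)) (T.h (P (nat_lit 0)) (P (nat_lit 15164383117568)))))) (T.h (P (nat_lit 0)) (T.h (T.h (M (nat_lit 58732646427604811775)) (T.h (P (nat_lit 0)) (P (nat_lit 913938109348384)))) (T.h (P (nat_lit 0)) (P (nat_lit 15164383117568)))))) (T.h (T.h (P (nat_lit 0)) (T.h (T.h (P (nat_lit 0)) (M (nat_lit 227822629654233087))) (P (nat_lit 0)))) (T.h (T.h (T.h (M (nat_lit 3791356520545910783)) (T.h (P (nat_lit 0)) (P (nat_lit 18863524992736)))) (T.h (P (nat_lit 0)) (P (nat_lit 18863524992736)))) (T.h (P (nat_lit 0)) (P (nat_lit 6987571952256)))))))),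 (T.h (T.h (T.h (P (nat_lit 0)) (T.h (P (nat_lit 15103393910805811674524680192)) (T.h (P (nat_lit 0)) (T.h (M (nat_lit 35708899549047051780095)) (T.h (P (nat_lit 0)) (M (nat_lit 157679197717659647))))))) (T.h (P (nat_lit 0)) (T.h (T.h (P (nat_lit 0)) (T.h (M (nat_lit 164756038612868625596415)) (T.h (P (nat_lit 0)) (P (nat_lit 51203836739551232))))) (T.h (P (nat_lit 0)) (T.h (T.h (P (nat_lit 0)) (P (nat_lit 253737492773535744))) (P (nat_lit 0))))))) (T.h (T.h (P (nat_lit 0)) (T.h (T.h (P (nat_lit 84196165240367251311296512)) (T.h (P (nat_lit 0)) (T.h (M (nat_lit 228585117517172703231)) (T.h (P (nat_lit 0)) (P (nat_lit 332259197192240)))))) (T.h (P (nat_lit 0)) (T.h (T.h (M (nat_lit 179317428776303853567)) (T.h (P (nat_lit 0)) (M (nat_lit 416838103512879)))) (T.h (P (nat_lit 0)) (P (nat_lit 134158551876800))))))) (T.h (T.h (T.h (P (nat_lit 0)) (T.h (M (nat_lit 71252488799191958552575)) (T.h (P (nat_lit 0)) (M (nat_lit 120247537389076479))))) (T.h (P (nat_lit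 0)) (T.h (T.h (P (nat_lit 0)) (P (nat_lit 1020327917606305792))) (P (nat_lit 0))))) (T.h (T.h (P (nat_lit 0)) (T.h (T.h (P (nat_lit 88201718308815241216)) (T.h (P (nat_lit 0)) (P (nat_lit 46060579552080)))) (T.h (P (nat_lit 0)) (P (nat_lit 246642587654000))))) (T.h (T.h (T.h (P (nat_lit 0)) (P (nat_lit 195913816851152896))) (P (nat_lit 0))) (T.h (T.h (P (nat_lit 0)) (P (nat_lit 14276070104160))) (P (nat_lit 0)))))))), (T.h (T.h (T.h (M (nat_lit 5579030000330377679209261694975)) (T.h (P (nat_lit 0)) (T.h (P (nat_lit 19216157866977268909211648)) (T.h (P (nat_lit 0)) (T.h (P (nat_lit 32562526019337060352)) (T.h (P (nat_lit 0)) (M (nat_lit 499469368768831)))))))) (T.h (P (nat_lit 0)) (T.h (T.h (M (nat_lit 96726347834487794787418111)) (T.h (P (nat_lit 0)) (T.h (M (nat_lit 52139860623666184191)) (T.h (P (nat_lit 0)) (M (nat_lit 1548465693749039)))))) (T.h (P (nat_lit 0)) (T.h (T.h (P (nat_lit 90695716078622867456)) (T.h (P (nat_lit 0)) (P (nat_lit 227616305269056))))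 (T.h (P (nat_lit 0)) (M (nat_lit 100380931134879)))))))) (T.h (T.h (P (nat_lit 0)) (T.h (T.h (P (nat_lit 0)) (T.h (M (nat_lit 457499459866436042751999)) (T.h (P (nat_lit 0)) (M (nat_lit 472196403872694271))))) (T.h (P (nat_lit 0)) (T.h (T.h (P (nat_lit 0)) (M (nat_lit 82063394174631935))) (P (nat_lit 0)))))) (T.h (T.h (T.h (M (nat_lit 5657961527253364136476671)) (T.h (P (nat_lit 0)) (T.h (P (nat_lit 49910012661702066176)) (T.h (P (nat_lit 0)) (M (nat_lit 311887139930959)))))) (T.h (P (nat_lit 0)) (T.h (T.h (M (nat_lit 10372977650615451647)) (T.h (P (nat_lit 0)) (M (nat_lit 1201170315836127)))) (T.h (P (nat_lit 0)) (P (nat_lit 211605099716560)))))) (T.h (T.h (P (nat_lit 0)) (T.h (T.h (P (nat_lit 0)) (P (nat_lit 329846517412593664))) (P (nat_lit 0)))) (T.h (T.h (T.h (P (nat_lit 13357060239115943936)) (T.h (P (nat_lit 0)) (P (nat_lit 45874032146976)))) (T.h (P (nat_lit 0)) (P (nat_lit 46870734497312)))) (T.h (P (nat_lit 0)) (M (nat_lit 10492294430287)))))))),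 (T.h (T.h (T.h (P (nat_lit 0)) (T.h (M (nat_lit 23189883887025830961654792191)) (T.h (P (nat_lit 0)) (T.h (P (nat_lit 243099935357513639133184)) (T.h (P (nat_lit 0)) (M (nat_lit 595563394477948927))))))) (T.h (P (nat_lit 0)) (T.h (T.h (P (nat_lit 0)) (T.h (P (nat_lit 33956056854755006218240)) (T.h (P (nat_lit 0)) (M (nat_lit 1175977343068569599))))) (T.h (P (nat_lit 0)) (T.h (T.h (P (nat_lit 0)) (P (nat_lit 93919563231952896))) (P (nat_lit 0))))))) (T.h (T.h (P (nat_lit 0)) (T.h (T.h (M (nat_lit 104213714518363397557321727)) (T.h (P (nat_lit 0)) (M (nat_lit 571332830943741214719)))) (T.h (P (nat_lit 0)) (P (nat_lit 18889754215679262720))))) (T.h (T.h (T.h (P (nat_lit 0)) (T.h (P (nat_lit 87515735663265416478720)) (T.h (P (nat_lit 0)) (M (nat_lit 262202542911520767))))) (T.h (P (nat_lit 0)) (T.h (T.h (P (nat_lit 0)) (M (nat_lit 533260947869499391))) (P (nat_lit 0))))) (T.h (T.h (P (nat_lit 0)) (P (nat_lit 99944006815716474880))) (T.h (T.h (T.h (P (nat_lit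 0)) (P (nat_lit 8342794656481280))) (P (nat_lit 0))) (P (nat_lit 0))))))), (P (nat_lit 0)), (P (nat_lit 0)), (T.h (T.h (P (nat_lit 0)) (T.h (T.h (M (nat_lit 2055456681931519564426772479)) (T.h (P (nat_lit 0)) (T.h (P (nat_lit 2766668727805554982912)) (T.h (P (nat_lit 0)) (P (nat_lit 2451024506814464)))))) (T.h (P (nat_lit 0)) (T.h (T.h (M (nat_lit 4248991952857825542143)) (T.h (P (nat_lit 0)) (P (nat_lit 8725047214145536)))) (T.h (P (nat_lit 0)) (P (nat_lit 3485283988078592))))))) (T.h (T.h (T.h (P (nat_lit 0)) (T.h (P (nat_lit 1705315292969379989291008)) (T.h (P (nat_lit 0)) (T.h (M (nat_lit 2476425389400915967)) (T.h (P (nat_lit 0)) (P (nat_lit 6242764166040))))))) (T.h (P (nat_lit 0)) (T.h (T.h (P (nat_lit 0)) (T.h (M (nat_lit 876704851256410111)) (T.h (P (nat_lit 0)) (P (nat_lit 1415563387736))))) (T.h (P (nat_lit 0)) (T.h (T.h (P (nat_lit 0)) (P (nat_lit 28937018074768))) (P (nat_lit 0))))))) (T.h (T.h (P (nat_lit 0)) (T.h (T.h (P (nat_lit 10035423191259844444160))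 (T.h (P (nat_lit 0)) (M (nat_lit 454002489458687)))) (T.h (P (nat_lit 0)) (M (nat_lit 48569078005039103))))) (T.h (T.h (T.h (P (nat_lit 0)) (T.h (M (nat_lit 2377763215032451071)) (T.h (P (nat_lit 0)) (M (nat_lit 2063416401615))))) (T.h (P (nat_lit 0)) (T.h (T.h (P (nat_lit 0)) (M (nat_lit 12562440285327))) (P (nat_lit 0))))) (T.h (T.h (P (nat_lit 0)) (M (nat_lit 4075656891629567))) (T.h (T.h (T.h (P (nat_lit 0)) (M (nat_lit 7158406918607))) (P (nat_lit 0))) (P (nat_lit 0))))))))]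
def lQp_5 : List (T ℤ) := [(T.h (T.h (P (nat_lit 0)) (T.h (T.h (P (nat_lit 0)) (T.h (M (nat_lit 39555283947184431235596287)) (T.h (P (nat_lit 0)) (T.h (M (nat_lit 30022983081594454015)) (T.h (P (nat_lit 0)) (M (nat_lit 20915930440255))))))) (T.h (P (nat_lit 0)) (T.h (T.h (P (nat_lit 0)) (T.h (M (nat_lit 287531455608975785983)) (T.h (P (nat_lit 0)) (P (nat_lit 346327786339536))))) (T.h (P (nat_lit 0)) (T.h (T.h (P (nat_lit 0)) (P (nat_lit 5629987302560))) (P (nat_lit 0)))))))) (T.h (T.h (T.h (M (nat_lit 21439020041541902305889091583)) (T.h (P (nat_lit 0)) (T.h (M (nat_lit 3066642079731815546879)) (T.h (P (nat_lit 0)) (P (nat_lit 2510440788918272)))))) (T.h (P (nat_lit 0)) (T.h (T.h (M (nat_lit 3327027577897286107135)) (T.h (P (nat_lit 0)) (P (nat_lit 1332017585995776)))) (T.h (P (nat_lit 0)) (M (nat_lit 131088948266926079)))))) (T.h (T.h (P (nat_lit 0)) (T.h (T.h (P (nat_lit 0)) (T.h (P (nat_lit 55318303577196199936)) (T.h (P (nat_lit 0)) (P (nat_lit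 18354663940000))))) (T.h (P (nat_lit 0)) (T.h (T.h (P (nat_lit 0)) (M (nat_lit 138743880398239))) (P (nat_lit 0)))))) (T.h (T.h (T.h (P (nat_lit 17368237073517154140160)) (T.h (P (nat_lit 0)) (M (nat_lit 43936759381704703)))) (T.h (P (nat_lit 0)) (M (nat_lit 1071105886158847)))) (T.h (T.h (P (nat_lit 0)) (T.h (T.h (P (nat_lit 0)) (P (nat_lit 33481742598912))) (P (nat_lit 0)))) (P (nat_lit 3881363090505728))))))), (T.h (T.h (P (nat_lit 0)) (T.h (T.h (P (nat_lit 15103393910805811674524680192)) (T.h (P (nat_lit 0)) (T.h (M (nat_lit 164756038612868625596415)) (T.h (P (nat_lit 0)) (P (nat_lit 253737492773535744)))))) (T.h (P (nat_lit 0)) (T.h (T.h (M (nat_lit 35708899549047051780095)) (T.h (P (nat_lit 0)) (P (nat_lit 51203836739551232)))) (T.h (P (nat_lit 0)) (M (nat_lit 157679197717659647))))))) (T.h (T.h (T.h (P (nat_lit 0)) (T.h (P (nat_lit 84196165240367251311296512)) (T.h (P (nat_lit 0)) (T.h (M (nat_lit 179317428776303853567)) (T.h (P (nat_lit 0))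 (P (nat_lit 134158551876800))))))) (T.h (P (nat_lit 0)) (T.h (T.h (P (nat_lit 0)) (T.h (M (nat_lit 228585117517172703231)) (T.h (P (nat_lit 0)) (M (nat_lit 416838103512879))))) (T.h (P (nat_lit 0)) (T.h (T.h (P (nat_lit 0)) (P (nat_lit 332259197192240))) (P (nat_lit 0))))))) (T.h (T.h (P (nat_lit 0)) (T.h (T.h (M (nat_lit 71252488799191958552575)) (T.h (P (nat_lit 0)) (P (nat_lit 1020327917606305792)))) (T.h (P (nat_lit 0)) (M (nat_lit 120247537389076479))))) (T.h (T.h (T.h (P (nat_lit 0)) (T.h (P (nat_lit 88201718308815241216)) (T.h (P (nat_lit 0)) (P (nat_lit 246642587654000))))) (T.h (P (nat_lit 0)) (T.h (T.h (P (nat_lit 0)) (P (nat_lit 46060579552080))) (P (nat_lit 0))))) (T.h (T.h (P (nat_lit 0)) (P (nat_lit 195913816851152896))) (T.h (T.h (T.h (P (nat_lit 0)) (P (nat_lit 14276070104160))) (P (nat_lit 0))) (P (nat_lit 0)))))))), (T.h (T.h (P (nat_lit 0)) (T.h (T.h (P (nat_lit 0)) (T.h (M (nat_lit 13044743086543117431603199)) (T.h (P (nat_lit 0))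 (T.h (P (nat_lit 895701505092815421440)) (T.h (P (nat_lit 0)) (M (nat_lit 511264914572719))))))) (T.h (P (nat_lit 0)) (T.h (T.h (P (nat_lit 0)) (T.h (P (nat_lit 895701505092815421440)) (T.h (P (nat_lit 0)) (M (nat_lit 1759458341326751))))) (T.h (P (nat_lit 0)) (T.h (T.h (P (nat_lit 0)) (M (nat_lit 511264914572719))) (P (nat_lit 0)))))))) (T.h (T.h (T.h (M (nat_lit 24992318524765064333499564031)) (T.h (P (nat_lit 0)) (T.h (P (nat_lit 260361686357432774688768)) (T.h (P (nat_lit 0)) (P (nat_lit 265449525198569472)))))) (T.h (P (nat_lit 0)) (T.h (T.h (P (nat_lit 260361686357432774688768)) (T.h (P (nat_lit 0)) (P (nat_lit 205872335258877952)))) (T.h (P (nat_lit 0)) (P (nat_lit 265449525198569472)))))) (T.h (T.h (P (nat_lit 0)) (T.h (T.h (P (nat_lit 0)) (T.h (P (nat_lit 198258432899561816064)) (T.h (P (nat_lit 0)) (P (nat_lit 523327662662640))))) (T.h (P (nat_lit 0)) (T.h (T.h (P (nat_lit 0)) (P (nat_lit 523327662662640))) (P (nat_lit 0)))))) (T.h (T.h (T.h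 (P (nat_lit 11604628832279974641664)) (T.h (P (nat_lit 0)) (M (nat_lit 58673506168897535)))) (T.h (P (nat_lit 0)) (M (nat_lit 58673506168897535)))) (T.h (T.h (P (nat_lit 0)) (T.h (T.h (P (nat_lit 0)) (M (nat_lit 237527651697951))) (P (nat_lit 0)))) (P (nat_lit 10089550851538944))))))), (T.h (T.h (P (nat_lit 0)) (T.h (T.h (M (nat_lit 37495071686497208421731794943)) (T.h (P (nat_lit 0)) (T.h (P (nat_lit 426842702168290282700800)) (T.h (P (nat_lit 0)) (M (nat_lit 1052533473347338239)))))) (T.h (P (nat_lit 0)) (T.h (T.h (P (nat_lit 138571131412666097074176)) (T.h (P (nat_lit 0)) (M (nat_lit 813225388758859775)))) (T.h (P (nat_lit 0)) (M (nat_lit 207322856984575999))))))) (T.h (T.h (T.h (P (nat_lit 0)) (T.h (P (nat_lit 8530470887322473985998848)) (T.h (P (nat_lit 0)) (M (nat_lit 124755095903367331839))))) (T.h (P (nat_lit 0)) (T.h (T.h (P (nat_lit 0)) (P (nat_lit 394182288451529867264))) (P (nat_lit 0))))) (T.h (T.h (P (nat_lit 0)) (T.h (T.h (M (nat_lit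 16057378342646109437951)) (T.h (P (nat_lit 0)) (M (nat_lit 154969859478683647)))) (T.h (P (nat_lit 0)) (P (nat_lit 255022184546467840))))) (T.h (T.h (T.h (P (nat_lit 0)) (M (nat_lit 11526735466153902079))) (P (nat_lit 0))) (T.h (T.h (P (nat_lit 0)) (M (nat_lit 26770372925128703))) (P (nat_lit 0))))))), (P (nat_lit 0)), (P (nat_lit 0)), (T.h (T.h (T.h (P (nat_lit 0)) (T.h (P (nat_lit 12794100345879409982347149312)) (T.h (P (nat_lit 0)) (T.h (M (nat_lit 1384689428146249793535)) (T.h (P (nat_lit 0)) (M (nat_lit 12294808850366463))))))) (T.h (P (nat_lit 0)) (T.h (T.h (P (nat_lit 0)) (T.h (M (nat_lit 495899353916857384959)) (T.h (P (nat_lit 0)) (M (nat_lit 10798372299145215))))) (T.h (P (nat_lit 0)) (T.h (T.h (P (nat_lit 0)) (M (nat_lit 38793684289617919))) (P (nat_lit 0))))))) (T.h (T.h (P (nat_lit 0)) (T.h (T.h (P (nat_lit 1857953842829409745108992)) (T.h (P (nat_lit 0)) (T.h (M (nat_lit 593274009924141055)) (T.h (P (nat_lit 0)) (M (nat_lit 8435143216095))))))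 (T.h (P (nat_lit 0)) (T.h (T.h (P (nat_lit 8107869170617548800)) (T.h (P (nat_lit 0)) (P (nat_lit 13916663262256)))) (T.h (P (nat_lit 0)) (P (nat_lit 62471784628984))))))) (T.h (T.h (T.h (P (nat_lit 0)) (T.h (P (nat_lit 1358226987020332302336)) (T.h (P (nat_lit 0)) (M (nat_lit 132703734923263))))) (T.h (P (nat_lit 0)) (T.h (T.h (P (nat_lit 0)) (M (nat_lit 4763249007394815))) (P (nat_lit 0))))) (T.h (T.h (P (nat_lit 0)) (T.h (T.h (P (nat_lit 5207521057891680256)) (T.h (P (nat_lit 0)) (M (nat_lit 1495307379447)))) (T.h (P (nat_lit 0)) (M (nat_lit 13168855558335))))) (T.h (T.h (T.h (P (nat_lit 0)) (M (nat_lit 108913887543295))) (P (nat_lit 0))) (T.h (T.h (P (nat_lit 0)) (M (nat_lit 7889238589567))) (P (nat_lit 0)))))))), (T.h (T.h (T.h (M (nat_lit 16310421525849164254090450960383)) (T.h (P (nat_lit 0)) (T.h (P (nat_lit 10121519114408553399451648)) (T.h (P (nat_lit 0)) (T.h (M (nat_lit 2857327944320155647)) (T.h (P (nat_lit 0)) (P (nat_lit 7181325551792))))))))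 (T.h (P (nat_lit 0)) (T.h (T.h (P (nat_lit 11683839568522379406606336)) (T.h (P (nat_lit 0)) (T.h (P (nat_lit 61914797905744494592)) (T.h (P (nat_lit 0)) (M (nat_lit 25450372979775)))))) (T.h (P (nat_lit 0)) (T.h (T.h (M (nat_lit 2035208997841141759)) (T.h (P (nat_lit 0)) (P (nat_lit 439341944415168)))) (T.h (P (nat_lit 0)) (P (nat_lit 63359498543120)))))))) (T.h (T.h (P (nat_lit 0)) (T.h (T.h (P (nat_lit 0)) (T.h (P (nat_lit 10010703217678719385600)) (T.h (P (nat_lit 0)) (P (nat_lit 62959274422501376))))) (T.h (P (nat_lit 0)) (T.h (T.h (P (nat_lit 0)) (M (nat_lit 190586810511065087))) (P (nat_lit 0)))))) (T.h (T.h (T.h (M (nat_lit 1377791761044098531721215)) (T.h (P (nat_lit 0)) (T.h (M (nat_lit 244134082416476159)) (T.h (P (nat_lit 0)) (P (nat_lit 7834943220656)))))) (T.h (P (nat_lit 0)) (T.h (T.h (M (nat_lit 48808837752610095103)) (T.h (P (nat_lit 0)) (M (nat_lit 2428238407215)))) (T.h (P (nat_lit 0)) (P (nat_lit 65805890694080)))))) (T.h (T.h (P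 (nat_lit 0)) (T.h (T.h (P (nat_lit 0)) (M (nat_lit 61646594252767231))) (P (nat_lit 0)))) (T.h (T.h (T.h (P (nat_lit 4136264342167355392)) (T.h (P (nat_lit 0)) (P (nat_lit 7778266412928)))) (T.h (P (nat_lit 0)) (M (nat_lit 27352561037247)))) (T.h (P (nat_lit 0)) (M (nat_lit 2258787755471))))))))]
def lQp_6 : List (T ℤ) := [(T.h (T.h (T.h (P (nat_lit 0)) (T.h (M (nat_lit 20775842496571973614966931455)) (T.h (P (nat_lit 0)) (T.h (M (nat_lit 31027422118557268312063)) (T.h (P (nat_lit 0)) (P (nat_lit 80492444654338048))))))) (T.h (P (nat_lit 0)) (T.h (T.h (P (nat_lit 0)) (T.h (M (nat_lit 242381418927757509787647)) (T.h (P (nat_lit 0)) (M (nat_lit 214374929667096575))))) (T.h (P (nat_lit 0)) (T.h (T.h (P (nat_lit 0)) (M (nat_lit 534317465604161535))) (P (nat_lit 0))))))) (T.h (T.h (P (nat_lit 0)) (T.h (T.h (P (nat_lit 59228253820624305253253120)) (T.h (P (nat_lit 0)) (T.h (P (nat_lit 131191371818267049984)) (T.h (P (nat_lit 0)) (M (nat_lit 168865378043199))))))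 (T.h (P (nat_lit 0)) (T.h (T.h (P (nat_lit 177530439701318598656)) (T.h (P (nat_lit 0)) (P (nat_lit 404751258890800)))) (T.h (P (nat_lit 0)) (P (nat_lit 115487932780160))))))) (T.h (T.h (T.h (P (nat_lit 0)) (T.h (P (nat_lit 2528523741828411817984)) (T.h (P (nat_lit 0)) (M (nat_lit 72660222417698815))))) (T.h (P (nat_lit 0)) (T.h (T.h (P (nat_lit 0)) (M (nat_lit 53650938488881151))) (P (nat_lit 0))))) (T.h (T.h (P (nat_lit 0)) (T.h (T.h (M (nat_lit 128776015067756888063)) (T.h (P (nat_lit 0)) (M (nat_lit 162100968221039)))) (T.h (P (nat_lit 0)) (M (nat_lit 216660159992639))))) (T.h (T.h (T.h (P (nat_lit 0)) (M (nat_lit 145499149792968703))) (P (nat_lit 0))) (T.h (T.h (P (nat_lit 0)) (M (nat_lit 12924331522799))) (P (nat_lit 0)))))))), (T.h (T.h (T.h (M (nat_lit 5579030000330377679209261694975)) (T.h (P (nat_lit 0)) (T.h (M (nat_lit 96726347834487794787418111)) (T.h (P (nat_lit 0)) (T.h (P (nat_lit 90695716078622867456)) (T.h (P (nat_lit 0)) (M (nat_lit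 100380931134879)))))))) (T.h (P (nat_lit 0)) (T.h (T.h (P (nat_lit 19216157866977268909211648)) (T.h (P (nat_lit 0)) (T.h (M (nat_lit 52139860623666184191)) (T.h (P (nat_lit 0)) (P (nat_lit 227616305269056)))))) (T.h (P (nat_lit 0)) (T.h (T.h (P (nat_lit 32562526019337060352)) (T.h (P (nat_lit 0)) (M (nat_lit 1548465693749039)))) (T.h (P (nat_lit 0)) (M (nat_lit 499469368768831)))))))) (T.h (T.h (P (nat_lit 0)) (T.h (T.h (P (nat_lit 0)) (T.h (M (nat_lit 457499459866436042751999)) (T.h (P (nat_lit 0)) (M (nat_lit 82063394174631935))))) (T.h (P (nat_lit 0)) (T.h (T.h (P (nat_lit 0)) (M (nat_lit 472196403872694271))) (P (nat_lit 0)))))) (T.h (T.h (T.h (M (nat_lit 5657961527253364136476671)) (T.h (P (nat_lit 0)) (T.h (M (nat_lit 10372977650615451647)) (T.h (P (nat_lit 0)) (P (nat_lit 211605099716560)))))) (T.h (P (nat_lit 0)) (T.h (T.h (P (nat_lit 49910012661702066176)) (T.h (P (nat_lit 0)) (M (nat_lit 1201170315836127)))) (T.h (P (nat_lit 0)) (M (nat_lit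 311887139930959)))))) (T.h (T.h (P (nat_lit 0)) (T.h (T.h (P (nat_lit 0)) (P (nat_lit 329846517412593664))) (P (nat_lit 0)))) (T.h (T.h (T.h (P (nat_lit 13357060239115943936)) (T.h (P (nat_lit 0)) (P (nat_lit 46870734497312)))) (T.h (P (nat_lit 0)) (P (nat_lit 45874032146976)))) (T.h (P (nat_lit 0)) (M (nat_lit 10492294430287)))))))), (T.h (T.h (T.h (P (nat_lit 0)) (T.h (M (nat_lit 37495071686497208421731794943)) (T.h (P (nat_lit 0)) (T.h (P (nat_lit 138571131412666097074176)) (T.h (P (nat_lit 0)) (M (nat_lit 207322856984575999))))))) (T.h (P (nat_lit 0)) (T.h (T.h (P (nat_lit 0)) (T.h (P (nat_lit 426842702168290282700800)) (T.h (P (nat_lit 0)) (M (nat_lit 813225388758859775))))) (T.h (P (nat_lit 0)) (T.h (T.h (P (nat_lit 0)) (M (nat_lit 1052533473347338239))) (P (nat_lit 0))))))) (T.h (T.h (P (nat_lit 0)) (T.h (T.h (P (nat_lit 8530470887322473985998848)) (T.h (P (nat_lit 0)) (P (nat_lit 394182288451529867264)))) (T.h (P (nat_lit 0)) (M (nat_lit 124755095903367331839)))))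 (T.h (T.h (T.h (P (nat_lit 0)) (T.h (M (nat_lit 16057378342646109437951)) (T.h (P (nat_lit 0)) (P (nat_lit 255022184546467840))))) (T.h (P (nat_lit 0)) (T.h (T.h (P (nat_lit 0)) (M (nat_lit 154969859478683647))) (P (nat_lit 0))))) (T.h (T.h (P (nat_lit 0)) (M (nat_lit 11526735466153902079))) (T.h (T.h (T.h (P (nat_lit 0)) (M (nat_lit 26770372925128703))) (P (nat_lit 0))) (P (nat_lit 0))))))), (P (nat_lit 0)), (P (nat_lit 0)), (T.h (T.h (P (nat_lit 0)) (T.h (T.h (M (nat_lit 10212045392436279570270781439)) (T.h (P (nat_lit 0)) (T.h (M (nat_lit 658474017311560826879)) (T.h (P (nat_lit 0)) (M (nat_lit 2448628643758079)))))) (T.h (P (nat_lit 0)) (T.h (T.h (P (nat_lit 18936214877807918972928)) (T.h (P (nat_lit 0)) (P (nat_lit 13795086358216704)))) (T.h (P (nat_lit 0)) (P (nat_lit 73170271617875968))))))) (T.h (T.h (T.h (P (nat_lit 0)) (T.h (P (nat_lit 741706005672169918431232)) (T.h (P (nat_lit 0)) (T.h (P (nat_lit 2839401542845464576)) (T.h (P (nat_lit 0))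 (M (nat_lit 1200533198935))))))) (T.h (P (nat_lit 0)) (T.h (T.h (P (nat_lit 0)) (T.h (P (nat_lit 16419294656111575040)) (T.h (P (nat_lit 0)) (P (nat_lit 6154245470960))))) (T.h (P (nat_lit 0)) (T.h (T.h (P (nat_lit 0)) (P (nat_lit 32315373365840))) (P (nat_lit 0))))))) (T.h (T.h (P (nat_lit 0)) (T.h (T.h (M (nat_lit 658474017311560826879)) (T.h (P (nat_lit 0)) (M (nat_lit 11402419868467199)))) (T.h (P (nat_lit 0)) (P (nat_lit 13795086358216704))))) (T.h (T.h (T.h (P (nat_lit 0)) (T.h (P (nat_lit 2839401542845464576)) (T.h (P (nat_lit 0)) (M (nat_lit 7920728801471))))) (T.h (P (nat_lit 0)) (T.h (T.h (P (nat_lit 0)) (P (nat_lit 6154245470960))) (P (nat_lit 0))))) (T.h (T.h (P (nat_lit 0)) (M (nat_lit 2448628643758079))) (T.h (T.h (T.h (P (nat_lit 0)) (M (nat_lit 1200533198935))) (P (nat_lit 0))) (P (nat_lit 0)))))))), (T.h (T.h (P (nat_lit 0)) (T.h (T.h (P (nat_lit 0)) (T.h (P (nat_lit 5760110150759249130553344)) (T.h (P (nat_lit 0)) (T.h (M (nat_lit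 44187288449497169919)) (T.h (P (nat_lit 0)) (P (nat_lit 7351350546784))))))) (T.h (P (nat_lit 0)) (T.h (T.h (P (nat_lit 0)) (T.h (M (nat_lit 155560528027376943103)) (T.h (P (nat_lit 0)) (M (nat_lit 29896136530671))))) (T.h (P (nat_lit 0)) (T.h (T.h (P (nat_lit 0)) (P (nat_lit 126624751875824))) (P (nat_lit 0)))))))) (T.h (T.h (T.h (P (nat_lit 226318629704904614210437120)) (T.h (P (nat_lit 0)) (T.h (P (nat_lit 6115334825654234382336)) (T.h (P (nat_lit 0)) (P (nat_lit 13485241803522048)))))) (T.h (P (nat_lit 0)) (T.h (T.h (P (nat_lit 13548174235352948539392)) (T.h (P (nat_lit 0)) (P (nat_lit 11298605499367424)))) (T.h (P (nat_lit 0)) (P (nat_lit 148610963780747264)))))) (T.h (T.h (P (nat_lit 0)) (T.h (T.h (P (nat_lit 0)) (T.h (P (nat_lit 4478360613369675776)) (T.h (P (nat_lit 0)) (M (nat_lit 4256921589567))))) (T.h (P (nat_lit 0)) (T.h (T.h (P (nat_lit 0)) (P (nat_lit 20853968390928))) (P (nat_lit 0)))))) (T.h (T.h (T.h (P (nat_lit 766451334615954096128))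 (T.h (P (nat_lit 0)) (P (nat_lit 18148605108125696)))) (T.h (P (nat_lit 0)) (P (nat_lit 1936205404995584)))) (T.h (T.h (P (nat_lit 0)) (T.h (T.h (P (nat_lit 0)) (M (nat_lit 14115448294655))) (P (nat_lit 0)))) (M (nat_lit 2974749091381247))))))), (T.h (T.h (P (nat_lit 0)) (T.h (T.h (P (nat_lit 21123593321619357335306633216)) (T.h (P (nat_lit 0)) (T.h (M (nat_lit 5919988966405504499711)) (T.h (P (nat_lit 0)) (P (nat_lit 10609186901458944)))))) (T.h (P (nat_lit 0)) (T.h (T.h (M (nat_lit 15010200804235572936703)) (T.h (P (nat_lit 0)) (P (nat_lit 58402257737056256)))) (T.h (P (nat_lit 0)) (P (nat_lit 154004297327050752))))))) (T.h (T.h (T.h (P (nat_lit 0)) (T.h (M (nat_lit 2581634979122964043137023)) (T.h (P (nat_lit 0)) (T.h (P (nat_lit 21661246487506452480)) (T.h (P (nat_lit 0)) (M (nat_lit 33653347756399))))))) (T.h (P (nat_lit 0)) (T.h (T.h (P (nat_lit 0)) (T.h (M (nat_lit 58709018431610421247)) (T.h (P (nat_lit 0)) (P (nat_lit 103123823580640))))) (T.h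 (P (nat_lit 0)) (T.h (T.h (P (nat_lit 0)) (M (nat_lit 58319323554319))) (P (nat_lit 0))))))) (T.h (T.h (P (nat_lit 0)) (T.h (T.h (P (nat_lit 50430542327613638049792)) (T.h (P (nat_lit 0)) (M (nat_lit 50862758182420479)))) (T.h (P (nat_lit 0)) (P (nat_lit 165041657512427520))))) (T.h (T.h (T.h (P (nat_lit 0)) (T.h (P (nat_lit 32675668490924851200)) (T.h (P (nat_lit 0)) (M (nat_lit 66069034018639))))) (T.h (P (nat_lit 0)) (T.h (T.h (P (nat_lit 0)) (P (nat_lit 107680149905440))) (P (nat_lit 0))))) (T.h (T.h (P (nat_lit 0)) (M (nat_lit 55334082025422847))) (T.h (T.h (T.h (P (nat_lit 0)) (M (nat_lit 16361497986479))) (P (nat_lit 0))) (P (nat_lit 0))))))))]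
def lQp_7 : List (T ℤ) := [(T.h (T.h (P (nat_lit 0)) (T.h (T.h (P (nat_lit 0)) (T.h (M (nat_lit 58042082194932585631580159)) (T.h (P (nat_lit 0)) (T.h (M (nat_lit 72074611859338035199)) (T.h (P (nat_lit 0)) (P (nat_lit 9843633707952))))))) (T.h (P (nat_lit 0)) (T.h (T.h (P (nat_lit 0)) (T.h (P (nat_lit 169026438565197774848)) (T.h (P (nat_lit 0)) (M (nat_lit 40807260833679))))) (T.h (P (nat_lit 0)) (T.h (T.h (P (nat_lit 0)) (M (nat_lit 202010613196303))) (P (nat_lit 0)))))))) (T.h (T.h (T.h (P (nat_lit 30592359351173919146378264576)) (T.h (P (nat_lit 0)) (T.h (M (nat_lit 47570282094454540075007)) (T.h (P (nat_lit 0)) (M (nat_lit 100432000003391487)))))) (T.h (P (nat_lit 0)) (T.h (T.h (M (nat_lit 126206691015345766924287)) (T.h (P (nat_lit 0)) (P (nat_lit 142951232725958656)))) (T.h (P (nat_lit 0)) (P (nat_lit 153230669436993536)))))) (T.h (T.h (P (nat_lit 0)) (T.h (T.h (P (nat_lit 0)) (T.h (M (nat_lit 23453482314404724735)) (T.h (P (nat_lit 0)) (M (nat_lit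 153951304182895))))) (T.h (P (nat_lit 0)) (T.h (T.h (P (nat_lit 0)) (M (nat_lit 160765879742335))) (P (nat_lit 0)))))) (T.h (T.h (T.h (M (nat_lit 18885243591323641970687)) (T.h (P (nat_lit 0)) (P (nat_lit 5924892080504832)))) (T.h (P (nat_lit 0)) (M (nat_lit 105060780253347839)))) (T.h (T.h (P (nat_lit 0)) (T.h (T.h (P (nat_lit 0)) (M (nat_lit 46938132056991))) (P (nat_lit 0)))) (M (nat_lit 20021605155700735))))))), (T.h (T.h (P (nat_lit 0)) (T.h (T.h (M (nat_lit 23189883887025830961654792191)) (T.h (P (nat_lit 0)) (T.h (P (nat_lit 33956056854755006218240)) (T.h (P (nat_lit 0)) (P (nat_lit 93919563231952896)))))) (T.h (P (nat_lit 0)) (T.h (T.h (P (nat_lit 243099935357513639133184)) (T.h (P (nat_lit 0)) (M (nat_lit 1175977343068569599)))) (T.h (P (nat_lit 0)) (M (nat_lit 595563394477948927))))))) (T.h (T.h (T.h (P (nat_lit 0)) (T.h (M (nat_lit 104213714518363397557321727)) (T.h (P (nat_lit 0)) (P (nat_lit 18889754215679262720))))) (T.h (P (nat_lit 0))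 (T.h (T.h (P (nat_lit 0)) (M (nat_lit 571332830943741214719))) (P (nat_lit 0))))) (T.h (T.h (P (nat_lit 0)) (T.h (T.h (P (nat_lit 87515735663265416478720)) (T.h (P (nat_lit 0)) (M (nat_lit 533260947869499391)))) (T.h (P (nat_lit 0)) (M (nat_lit 262202542911520767))))) (T.h (T.h (T.h (P (nat_lit 0)) (P (nat_lit 99944006815716474880))) (P (nat_lit 0))) (T.h (T.h (P (nat_lit 0)) (P (nat_lit 8342794656481280))) (P (nat_lit 0))))))), (P (nat_lit 0)), (P (nat_lit 0)), (T.h (T.h (T.h (M (nat_lit 8970997173878140039931440922623)) (T.h (P (nat_lit 0)) (T.h (P (nat_lit 978353580458961784537088)) (T.h (P (nat_lit 0)) (T.h (P (nat_lit 2389887418619658240)) (T.h (P (nat_lit 0)) (M (nat_lit 165424305583)))))))) (T.h (P (nat_lit 0)) (T.h (T.h (P (nat_lit 4809974907341691670233088)) (T.h (P (nat_lit 0)) (T.h (M (nat_lit 15228380118436020223)) (T.h (P (nat_lit 0)) (M (nat_lit 15443532767759)))))) (T.h (P (nat_lit 0)) (T.h (T.h (P (nat_lit 157772246912990183424)) (T.h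 (P (nat_lit 0)) (P (nat_lit 28106565702272)))) (T.h (P (nat_lit 0)) (M (nat_lit 9234645211199)))))))) (T.h (T.h (P (nat_lit 0)) (T.h (T.h (P (nat_lit 0)) (T.h (M (nat_lit 2662948729969270849535)) (T.h (P (nat_lit 0)) (P (nat_lit 13170292645003264))))) (T.h (P (nat_lit 0)) (T.h (T.h (P (nat_lit 0)) (P (nat_lit 107255350181560320))) (P (nat_lit 0)))))) (T.h (T.h (T.h (P (nat_lit 978353580458961784537088)) (T.h (P (nat_lit 0)) (T.h (M (nat_lit 13135542799900344319)) (T.h (P (nat_lit 0)) (M (nat_lit 4239509951935)))))) (T.h (P (nat_lit 0)) (T.h (T.h (M (nat_lit 15228380118436020223)) (T.h (P (nat_lit 0)) (P (nat_lit 35413500645568)))) (T.h (P (nat_lit 0)) (P (nat_lit 28106565702272)))))) (T.h (T.h (P (nat_lit 0)) (T.h (T.h (P (nat_lit 0)) (P (nat_lit 13170292645003264))) (P (nat_lit 0)))) (T.h (T.h (T.h (P (nat_lit 2389887418619658240)) (T.h (P (nat_lit 0)) (M (nat_lit 4239509951935)))) (T.h (P (nat_lit 0)) (M (nat_lit 15443532767759)))) (T.h (P (nat_lit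 0)) (M (nat_lit 165424305583)))))))), (T.h (T.h (T.h (P (nat_lit 0)) (T.h (M (nat_lit 16157316351655077914389512191)) (T.h (P (nat_lit 0)) (T.h (M (nat_lit 5325104209578101309439)) (T.h (P (nat_lit 0)) (P (nat_lit 29353014219341824))))))) (T.h (P (nat_lit 0)) (T.h (T.h (P (nat_lit 0)) (T.h (P (nat_lit 13429755321487863054336)) (T.h (P (nat_lit 0)) (M (nat_lit 27539627497783295))))) (T.h (P (nat_lit 0)) (T.h (T.h (P (nat_lit 0)) (P (nat_lit 274177761625079808))) (P (nat_lit 0))))))) (T.h (T.h (P (nat_lit 0)) (T.h (T.h (M (nat_lit 11214666536666130125160447)) (T.h (P (nat_lit 0)) (T.h (M (nat_lit 26743036042488578047)) (T.h (P (nat_lit 0)) (P (nat_lit 38000328702000)))))) (T.h (P (nat_lit 0)) (T.h (T.h (M (nat_lit 273829416074412556287)) (T.h (P (nat_lit 0)) (M (nat_lit 63537919357359)))) (T.h (P (nat_lit 0)) (M (nat_lit 649950281733359))))))) (T.h (T.h (T.h (P (nat_lit 0)) (T.h (M (nat_lit 1472349745841981882367)) (T.h (P (nat_lit 0)) (P (nat_lit 23172711675297792)))))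 (T.h (P (nat_lit 0)) (T.h (T.h (P (nat_lit 0)) (P (nat_lit 171041178281050112))) (P (nat_lit 0))))) (T.h (T.h (P (nat_lit 0)) (T.h (T.h (M (nat_lit 16014234136231280639)) (T.h (P (nat_lit 0)) (M (nat_lit 10694443811919)))) (T.h (P (nat_lit 0)) (P (nat_lit 78533988872880))))) (T.h (T.h (T.h (P (nat_lit 0)) (P (nat_lit 7029372037136384))) (P (nat_lit 0))) (T.h (T.h (P (nat_lit 0)) (P (nat_lit 6700780526240))) (P (nat_lit 0)))))))), (T.h (T.h (T.h (P (nat_lit 648354378398368560434359828480)) (T.h (P (nat_lit 0)) (T.h (P (nat_lit 6029595519567029736570880)) (T.h (P (nat_lit 0)) (T.h (P (nat_lit 22782046953774514176)) (T.h (P (nat_lit 0)) (P (nat_lit 1586148909312)))))))) (T.h (P (nat_lit 0)) (T.h (T.h (P (nat_lit 7052920268108960389660672)) (T.h (P (nat_lit 0)) (T.h (M (nat_lit 80224259377891115007)) (T.h (P (nat_lit 0)) (P (nat_lit 129681242717312)))))) (T.h (P (nat_lit 0)) (T.h (T.h (P (nat_lit 192230385199957934080)) (T.h (P (nat_lit 0)) (P (nat_lit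 78162321228816)))) (T.h (P (nat_lit 0)) (P (nat_lit 130481994932784)))))))) (T.h (T.h (P (nat_lit 0)) (T.h (T.h (P (nat_lit 0)) (T.h (M (nat_lit 44952741325817528713215)) (T.h (P (nat_lit 0)) (P (nat_lit 134958845215637504))))) (T.h (P (nat_lit 0)) (T.h (T.h (P (nat_lit 0)) (P (nat_lit 150087276435439616))) (P (nat_lit 0)))))) (T.h (T.h (T.h (P (nat_lit 405226602017100610404352)) (T.h (P (nat_lit 0)) (T.h (P (nat_lit 1458250011144880128)) (T.h (P (nat_lit 0)) (M (nat_lit 52667779269951)))))) (T.h (P (nat_lit 0)) (T.h (T.h (P (nat_lit 34010185905997873152)) (T.h (P (nat_lit 0)) (P (nat_lit 109922351265936)))) (T.h (P (nat_lit 0)) (P (nat_lit 33231154151888)))))) (T.h (T.h (P (nat_lit 0)) (T.h (T.h (P (nat_lit 0)) (M (nat_lit 36359330566864895))) (P (nat_lit 0)))) (T.h (T.h (T.h (M (nat_lit 5430699604901363711)) (T.h (P (nat_lit 0)) (M (nat_lit 49126568938831)))) (T.h (P (nat_lit 0)) (M (nat_lit 17832029004943)))) (T.h (P (nat_lit 0)) (P (nat_lit 3821769693456)))))))),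 (T.h (T.h (T.h (P (nat_lit 0)) (T.h (M (nat_lit 9479945226855203678944493567)) (T.h (P (nat_lit 0)) (T.h (P (nat_lit 8055960460481364230144)) (T.h (P (nat_lit 0)) (P (nat_lit 3604578148319232))))))) (T.h (P (nat_lit 0)) (T.h (T.h (P (nat_lit 0)) (T.h (P (nat_lit 252405377024740638588928)) (T.h (P (nat_lit 0)) (P (nat_lit 73784448161644544))))) (T.h (P (nat_lit 0)) (T.h (T.h (P (nat_lit 0)) (M (nat_lit 158948710125174783))) (P (nat_lit 0))))))) (T.h (T.h (P (nat_lit 0)) (T.h (T.h (M (nat_lit 68480659706341009634885631)) (T.h (P (nat_lit 0)) (M (nat_lit 28561419631895511039)))) (T.h (P (nat_lit 0)) (P (nat_lit 76622548805082939392))))) (T.h (T.h (T.h (P (nat_lit 0)) (T.h (P (nat_lit 15229871120192928481280)) (T.h (P (nat_lit 0)) (M (nat_lit 67886065340547071))))) (T.h (P (nat_lit 0)) (T.h (T.h (P (nat_lit 0)) (M (nat_lit 48863964941058047))) (P (nat_lit 0))))) (T.h (T.h (P (nat_lit 0)) (M (nat_lit 11930534835996590079))) (T.h (T.h (T.h (P (nat_lit 0))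 (M (nat_lit 27031974620561407))) (P (nat_lit 0))) (P (nat_lit 0)))))))]
def lQp_8 : List (T ℤ) := [(P (nat_lit 0)), (P (nat_lit 0)), (T.h (T.h (P (nat_lit 0)) (T.h (T.h (P (nat_lit 4596200364159134283318951936)) (T.h (P (nat_lit 0)) (T.h (M (nat_lit 8278749748978604048383)) (T.h (P (nat_lit 0)) (P (nat_lit 5455506261671936)))))) (T.h (P (nat_lit 0)) (T.h (T.h (P (nat_lit 15703917169784586764288)) (T.h (P (nat_lit 0)) (P (nat_lit 34950437389729792)))) (T.h (P (nat_lit 0)) (M (nat_lit 21714547579813887))))))) (T.h (T.h (T.h (P (nat_lit 0)) (T.h (M (nat_lit 216187792611341833863167)) (T.h (P (nat_lit 0)) (T.h (M (nat_lit 3961292155565113343)) (T.h (P (nat_lit 0)) (P (nat_lit 3155819464560))))))) (T.h (P (nat_lit 0)) (T.h (T.h (P (nat_lit 0)) (T.h (M (nat_lit 16369758572956876799)) (T.h (P (nat_lit 0)) (M (nat_lit 13710230630079))))) (T.h (P (nat_lit 0)) (T.h (T.h (P (nat_lit 0)) (M (nat_lit 53858954616319))) (P (nat_lit 0))))))) (T.h (T.h (P (nat_lit 0))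 (T.h (T.h (M (nat_lit 8278749748978604048383)) (T.h (P (nat_lit 0)) (P (nat_lit 56948847809921024)))) (T.h (P (nat_lit 0)) (P (nat_lit 34950437389729792))))) (T.h (T.h (T.h (P (nat_lit 0)) (T.h (M (nat_lit 3961292155565113343)) (T.h (P (nat_lit 0)) (P (nat_lit 13201214689440))))) (T.h (P (nat_lit 0)) (T.h (T.h (P (nat_lit 0)) (M (nat_lit 13710230630079))) (P (nat_lit 0))))) (T.h (T.h (P (nat_lit 0)) (P (nat_lit 5455506261671936))) (T.h (T.h (T.h (P (nat_lit 0)) (P (nat_lit 3155819464560))) (P (nat_lit 0))) (P (nat_lit 0)))))))), (T.h (T.h (P (nat_lit 0)) (T.h (T.h (P (nat_lit 0)) (T.h (P (nat_lit 24061905069947047567687680)) (T.h (P (nat_lit 0)) (T.h (P (nat_lit 50873018507107237888)) (T.h (P (nat_lit 0)) (M (nat_lit 6662556455103))))))) (T.h (P (nat_lit 0)) (T.h (T.h (P (nat_lit 0)) (T.h (P (nat_lit 83946722356541521920)) (T.h (P (nat_lit 0)) (P (nat_lit 847315013424))))) (T.h (P (nat_lit 0)) (T.h (T.h (P (nat_lit 0)) (M (nat_lit 430642633814447)))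 (P (nat_lit 0)))))))) (T.h (T.h (T.h (M (nat_lit 1468683830756010962882396159)) (T.h (P (nat_lit 0)) (T.h (M (nat_lit 2152802899987471007743)) (T.h (P (nat_lit 0)) (M (nat_lit 4140057265930239)))))) (T.h (P (nat_lit 0)) (T.h (T.h (M (nat_lit 14144146517207239622655)) (T.h (P (nat_lit 0)) (P (nat_lit 7918000311222272)))) (T.h (P (nat_lit 0)) (M (nat_lit 486616909737345023)))))) (T.h (T.h (P (nat_lit 0)) (T.h (T.h (P (nat_lit 0)) (T.h (P (nat_lit 40906388900327456768)) (T.h (P (nat_lit 0)) (P (nat_lit 238877194160))))) (T.h (P (nat_lit 0)) (T.h (T.h (P (nat_lit 0)) (M (nat_lit 64739948756207))) (P (nat_lit 0)))))) (T.h (T.h (T.h (M (nat_lit 4805245990692022386687)) (T.h (P (nat_lit 0)) (P (nat_lit 13742695469957120)))) (T.h (P (nat_lit 0)) (P (nat_lit 131025791878840320)))) (T.h (T.h (P (nat_lit 0)) (T.h (T.h (P (nat_lit 0)) (P (nat_lit 37730281781984))) (P (nat_lit 0)))) (P (nat_lit 2598847362711552))))))), (T.h (T.h (P (nat_lit 0)) (T.h (T.h (M (nat_lit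 3166846873336167602856132607)) (T.h (P (nat_lit 0)) (T.h (M (nat_lit 54548994911447583555583)) (T.h (P (nat_lit 0)) (P (nat_lit 42086344733622272)))))) (T.h (P (nat_lit 0)) (T.h (T.h (P (nat_lit 14344602706940511911936)) (T.h (P (nat_lit 0)) (P (nat_lit 58682876268085248)))) (T.h (P (nat_lit 0)) (P (nat_lit 65582421789278208))))))) (T.h (T.h (T.h (P (nat_lit 0)) (T.h (M (nat_lit 9767776142240778154934271)) (T.h (P (nat_lit 0)) (P (nat_lit 181177798486917120))))) (T.h (P (nat_lit 0)) (T.h (T.h (P (nat_lit 0)) (P (nat_lit 145672624222347722752))) (P (nat_lit 0))))) (T.h (T.h (P (nat_lit 0)) (T.h (T.h (M (nat_lit 35266817870928178839551)) (T.h (P (nat_lit 0)) (P (nat_lit 41064510206017536)))) (T.h (P (nat_lit 0)) (P (nat_lit 12694745432686592))))) (T.h (T.h (T.h (P (nat_lit 0)) (M (nat_lit 11252920928419446783))) (P (nat_lit 0))) (T.h (T.h (P (nat_lit 0)) (P (nat_lit 384693298659328))) (P (nat_lit 0))))))), (P (nat_lit 0)), (P (nat_lit 0)), (T.h (T.h (T.h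 (P (nat_lit 3948621279540221083939168583680)) (T.h (P (nat_lit 0)) (T.h (M (nat_lit 674436486761574870024191)) (T.h (P (nat_lit 0)) (T.h (M (nat_lit 1077428141279936511)) (T.h (P (nat_lit 0)) (P (nat_lit 742147470768)))))))) (T.h (P (nat_lit 0)) (T.h (T.h (M (nat_lit 3553202741703086916501503)) (T.h (P (nat_lit 0)) (T.h (M (nat_lit 5355990087802814463)) (T.h (P (nat_lit 0)) (P (nat_lit 12342157505568)))))) (T.h (P (nat_lit 0)) (T.h (T.h (M (nat_lit 176895427923450789887)) (T.h (P (nat_lit 0)) (M (nat_lit 56118708733823)))) (T.h (P (nat_lit 0)) (P (nat_lit 14511582942912)))))))) (T.h (T.h (P (nat_lit 0)) (T.h (T.h (P (nat_lit 0)) (T.h (M (nat_lit 13285698098565511905279)) (T.h (P (nat_lit 0)) (M (nat_lit 4307079362576383))))) (T.h (P (nat_lit 0)) (T.h (T.h (P (nat_lit 0)) (M (nat_lit 121986559857917951))) (P (nat_lit 0)))))) (T.h (T.h (T.h (M (nat_lit 674436486761574870024191)) (T.h (P (nat_lit 0)) (T.h (P (nat_lit 7703816849347051520)) (T.h (P (nat_lit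 0)) (P (nat_lit 7551023902224)))))) (T.h (P (nat_lit 0)) (T.h (T.h (M (nat_lit 5355990087802814463)) (T.h (P (nat_lit 0)) (M (nat_lit 55649786596799)))) (T.h (P (nat_lit 0)) (M (nat_lit 56118708733823)))))) (T.h (T.h (P (nat_lit 0)) (T.h (T.h (P (nat_lit 0)) (M (nat_lit 4307079362576383))) (P (nat_lit 0)))) (T.h (T.h (T.h (M (nat_lit 1077428141279936511)) (T.h (P (nat_lit 0)) (P (nat_lit 7551023902224)))) (T.h (P (nat_lit 0)) (P (nat_lit 12342157505568)))) (T.h (P (nat_lit 0)) (P (nat_lit 742147470768))))))))]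
def lQp_9 : List (T ℤ) := [(T.h (T.h (T.h (P (nat_lit 0)) (T.h (P (nat_lit 3849283284899336926831575040)) (T.h (P (nat_lit 0)) (T.h (P (nat_lit 2169209033493156200448)) (T.h (P (nat_lit 0)) (M (nat_lit 411400681750527))))))) (T.h (P (nat_lit 0)) (T.h (T.h (P (nat_lit 0)) (T.h (P (nat_lit 7915433807328952975360)) (T.h (P (nat_lit 0)) (P (nat_lit 9664805248008192))))) (T.h (P (nat_lit 0)) (T.h (T.h (P (nat_lit 0)) (M (nat_lit 421785709203062783))) (P (nat_lit 0))))))) (T.h (T.h (P (nat_lit 0)) (T.h (T.h (P (nat_lit 8685767576524368306503680)) (T.h (P (nat_lit 0)) (P (nat_lit 21352153951422644224)))) (T.h (P (nat_lit 0)) (P (nat_lit 126973145165437337600))))) (T.h (T.h (T.h (P (nat_lit 0)) (T.h (P (nat_lit 318127756473987497984)) (T.h (P (nat_lit 0)) (P (nat_lit 5667928027332608))))) (T.h (P (nat_lit 0)) (T.h (T.h (P (nat_lit 0)) (M (nat_lit 56882161005330431))) (P (nat_lit 0))))) (T.h (T.h (P (nat_lit 0)) (P (nat_lit 32111403715541336064))) (T.h (T.h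 (T.h (P (nat_lit 0)) (P (nat_lit 9836419181182976))) (P (nat_lit 0))) (P (nat_lit 0))))))), (P (nat_lit 0)), (P (nat_lit 0)), (T.h (T.h (P (nat_lit 0)) (T.h (T.h (P (nat_lit 5897302073599640136660811776)) (T.h (P (nat_lit 0)) (T.h (P (nat_lit 5209847404018203099136)) (T.h (P (nat_lit 0)) (P (nat_lit 4595770649346048)))))) (T.h (P (nat_lit 0)) (T.h (T.h (M (nat_lit 38739346812376056856575)) (T.h (P (nat_lit 0)) (M (nat_lit 41793132904316927)))) (T.h (P (nat_lit 0)) (P (nat_lit 16210757382045696))))))) (T.h (T.h (T.h (P (nat_lit 0)) (T.h (M (nat_lit 386661090139917950910463)) (T.h (P (nat_lit 0)) (P (nat_lit 243643318179725312))))) (T.h (P (nat_lit 0)) (T.h (T.h (P (nat_lit 0)) (M (nat_lit 43491311747944415231))) (P (nat_lit 0))))) (T.h (T.h (P (nat_lit 0)) (T.h (T.h (P (nat_lit 5209847404018203099136)) (T.h (P (nat_lit 0)) (M (nat_lit 20721956900044799)))) (T.h (P (nat_lit 0)) (M (nat_lit 41793132904316927))))) (T.h (T.h (T.h (P (nat_lit 0)) (P (nat_lit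 243643318179725312))) (P (nat_lit 0))) (T.h (T.h (P (nat_lit 0)) (P (nat_lit 4595770649346048))) (P (nat_lit 0))))))), (P (nat_lit 0)), (P (nat_lit 0)), (P (nat_lit 0)), (P (nat_lit 0))]
def lQp_10 : List (T ℤ) := [(P (nat_lit 0)), (T.h (T.h (P (nat_lit 0)) (T.h (T.h (P (nat_lit 0)) (T.h (P (nat_lit 1857953842829409745108992)) (T.h (P (nat_lit 0)) (T.h (P (nat_lit 8107869170617548800)) (T.h (P (nat_lit 0)) (P (nat_lit 62471784628984))))))) (T.h (P (nat_lit 0)) (T.h (T.h (P (nat_lit 0)) (T.h (P (nat_lit 5207521057891680256)) (T.h (P (nat_lit 0)) (M (nat_lit 13168855558335))))) (T.h (P (nat_lit 0)) (T.h (T.h (P (nat_lit 0)) (M (nat_lit 7889238589567))) (P (nat_lit 0)))))))) (T.h (T.h (T.h (P (nat_lit 12794100345879409982347149312)) (T.h (P (nat_lit 0)) (T.h (M (nat_lit 495899353916857384959)) (T.h (P (nat_lit 0)) (M (nat_lit 38793684289617919)))))) (T.h (P (nat_lit 0)) (T.h (T.h (P (nat_lit 1358226987020332302336)) (T.h (P (nat_lit 0)) (M (nat_lit 4763249007394815))))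 (T.h (P (nat_lit 0)) (M (nat_lit 108913887543295)))))) (T.h (T.h (P (nat_lit 0)) (T.h (T.h (P (nat_lit 0)) (T.h (M (nat_lit 593274009924141055)) (T.h (P (nat_lit 0)) (P (nat_lit 13916663262256))))) (T.h (P (nat_lit 0)) (T.h (T.h (P (nat_lit 0)) (M (nat_lit 1495307379447))) (P (nat_lit 0)))))) (T.h (T.h (T.h (M (nat_lit 1384689428146249793535)) (T.h (P (nat_lit 0)) (M (nat_lit 10798372299145215)))) (T.h (P (nat_lit 0)) (M (nat_lit 132703734923263)))) (T.h (T.h (P (nat_lit 0)) (T.h (T.h (P (nat_lit 0)) (M (nat_lit 8435143216095))) (P (nat_lit 0)))) (M (nat_lit 12294808850366463))))))), (T.h (T.h (P (nat_lit 0)) (T.h (T.h (P (nat_lit 226318629704904614210437120)) (T.h (P (nat_lit 0)) (T.h (P (nat_lit 13548174235352948539392)) (T.h (P (nat_lit 0)) (P (nat_lit 148610963780747264)))))) (T.h (P (nat_lit 0)) (T.h (T.h (P (nat_lit 766451334615954096128)) (T.h (P (nat_lit 0)) (P (nat_lit 1936205404995584)))) (T.h (P (nat_lit 0)) (M (nat_lit 2974749091381247)))))))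 (T.h (T.h (T.h (P (nat_lit 0)) (T.h (P (nat_lit 5760110150759249130553344)) (T.h (P (nat_lit 0)) (T.h (M (nat_lit 155560528027376943103)) (T.h (P (nat_lit 0)) (P (nat_lit 126624751875824))))))) (T.h (P (nat_lit 0)) (T.h (T.h (P (nat_lit 0)) (T.h (P (nat_lit 4478360613369675776)) (T.h (P (nat_lit 0)) (P (nat_lit 20853968390928))))) (T.h (P (nat_lit 0)) (T.h (T.h (P (nat_lit 0)) (M (nat_lit 14115448294655))) (P (nat_lit 0))))))) (T.h (T.h (P (nat_lit 0)) (T.h (T.h (P (nat_lit 6115334825654234382336)) (T.h (P (nat_lit 0)) (P (nat_lit 11298605499367424)))) (T.h (P (nat_lit 0)) (P (nat_lit 18148605108125696))))) (T.h (T.h (T.h (P (nat_lit 0)) (T.h (M (nat_lit 44187288449497169919)) (T.h (P (nat_lit 0)) (M (nat_lit 29896136530671))))) (T.h (P (nat_lit 0)) (T.h (T.h (P (nat_lit 0)) (M (nat_lit 4256921589567))) (P (nat_lit 0))))) (T.h (T.h (P (nat_lit 0)) (P (nat_lit 13485241803522048))) (T.h (T.h (T.h (P (nat_lit 0)) (P (nat_lit 7351350546784))) (P (nat_lit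 0))) (P (nat_lit 0)))))))), (T.h (T.h (P (nat_lit 0)) (T.h (T.h (P (nat_lit 0)) (T.h (M (nat_lit 11214666536666130125160447)) (T.h (P (nat_lit 0)) (T.h (M (nat_lit 273829416074412556287)) (T.h (P (nat_lit 0)) (M (nat_lit 649950281733359))))))) (T.h (P (nat_lit 0)) (T.h (T.h (P (nat_lit 0)) (T.h (M (nat_lit 16014234136231280639)) (T.h (P (nat_lit 0)) (P (nat_lit 78533988872880))))) (T.h (P (nat_lit 0)) (T.h (T.h (P (nat_lit 0)) (P (nat_lit 6700780526240))) (P (nat_lit 0)))))))) (T.h (T.h (T.h (M (nat_lit 16157316351655077914389512191)) (T.h (P (nat_lit 0)) (T.h (P (nat_lit 13429755321487863054336)) (T.h (P (nat_lit 0)) (P (nat_lit 274177761625079808)))))) (T.h (P (nat_lit 0)) (T.h (T.h (M (nat_lit 1472349745841981882367)) (T.h (P (nat_lit 0)) (P (nat_lit 171041178281050112)))) (T.h (P (nat_lit 0)) (P (nat_lit 7029372037136384)))))) (T.h (T.h (P (nat_lit 0)) (T.h (T.h (P (nat_lit 0)) (T.h (M (nat_lit 26743036042488578047)) (T.h (P (nat_lit 0)) (M (nat_lit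 63537919357359))))) (T.h (P (nat_lit 0)) (T.h (T.h (P (nat_lit 0)) (M (nat_lit 10694443811919))) (P (nat_lit 0)))))) (T.h (T.h (T.h (M (nat_lit 5325104209578101309439)) (T.h (P (nat_lit 0)) (M (nat_lit 27539627497783295)))) (T.h (P (nat_lit 0)) (P (nat_lit 23172711675297792)))) (T.h (T.h (P (nat_lit 0)) (T.h (T.h (P (nat_lit 0)) (P (nat_lit 38000328702000))) (P (nat_lit 0)))) (P (nat_lit 29353014219341824))))))), (T.h (T.h (P (nat_lit 0)) (T.h (T.h (M (nat_lit 1468683830756010962882396159)) (T.h (P (nat_lit 0)) (T.h (M (nat_lit 14144146517207239622655)) (T.h (P (nat_lit 0)) (M (nat_lit 486616909737345023)))))) (T.h (P (nat_lit 0)) (T.h (T.h (M (nat_lit 4805245990692022386687)) (T.h (P (nat_lit 0)) (P (nat_lit 131025791878840320)))) (T.h (P (nat_lit 0)) (P (nat_lit 2598847362711552))))))) (T.h (T.h (T.h (P (nat_lit 0)) (T.h (P (nat_lit 24061905069947047567687680)) (T.h (P (nat_lit 0)) (T.h (P (nat_lit 83946722356541521920)) (T.h (P (nat_lit 0)) (M (nat_lit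 430642633814447))))))) (T.h (P (nat_lit 0)) (T.h (T.h (P (nat_lit 0)) (T.h (P (nat_lit 40906388900327456768)) (T.h (P (nat_lit 0)) (M (nat_lit 64739948756207))))) (T.h (P (nat_lit 0)) (T.h (T.h (P (nat_lit 0)) (P (nat_lit 37730281781984))) (P (nat_lit 0))))))) (T.h (T.h (P (nat_lit 0)) (T.h (T.h (M (nat_lit 2152802899987471007743)) (T.h (P (nat_lit 0)) (P (nat_lit 7918000311222272)))) (T.h (P (nat_lit 0)) (P (nat_lit 13742695469957120))))) (T.h (T.h (T.h (P (nat_lit 0)) (T.h (P (nat_lit 50873018507107237888)) (T.h (P (nat_lit 0)) (P (nat_lit 847315013424))))) (T.h (P (nat_lit 0)) (T.h (T.h (P (nat_lit 0)) (P (nat_lit 238877194160))) (P (nat_lit 0))))) (T.h (T.h (P (nat_lit 0)) (M (nat_lit 4140057265930239))) (T.h (T.h (T.h (P (nat_lit 0)) (M (nat_lit 6662556455103))) (P (nat_lit 0))) (P (nat_lit 0)))))))), (T.h (T.h (P (nat_lit 0)) (T.h (T.h (P (nat_lit 0)) (T.h (P (nat_lit 8685767576524368306503680)) (T.h (P (nat_lit 0)) (P (nat_lit 126973145165437337600)))))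 (T.h (P (nat_lit 0)) (T.h (T.h (P (nat_lit 0)) (P (nat_lit 32111403715541336064))) (P (nat_lit 0)))))) (T.h (T.h (T.h (P (nat_lit 3849283284899336926831575040)) (T.h (P (nat_lit 0)) (T.h (P (nat_lit 7915433807328952975360)) (T.h (P (nat_lit 0)) (M (nat_lit 421785709203062783)))))) (T.h (P (nat_lit 0)) (T.h (T.h (P (nat_lit 318127756473987497984)) (T.h (P (nat_lit 0)) (M (nat_lit 56882161005330431)))) (T.h (P (nat_lit 0)) (P (nat_lit 9836419181182976)))))) (T.h (T.h (P (nat_lit 0)) (T.h (T.h (P (nat_lit 0)) (P (nat_lit 21352153951422644224))) (P (nat_lit 0)))) (T.h (T.h (T.h (P (nat_lit 2169209033493156200448)) (T.h (P (nat_lit 0)) (P (nat_lit 9664805248008192)))) (T.h (P (nat_lit 0)) (P (nat_lit 5667928027332608)))) (T.h (P (nat_lit 0)) (M (nat_lit 411400681750527))))))), (P (nat_lit 0)), (P (nat_lit 0))]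
def lQp_11 : List (T ℤ) := [(T.h (T.h (T.h (M (nat_lit 1807427213973969121941494169599)) (T.h (P (nat_lit 0)) (T.h (P (nat_lit 6160842414801612932382720)) (T.h (P (nat_lit 0)) (T.h (M (nat_lit 22231608460203524095)) (T.h (P (nat_lit 0)) (M (nat_lit 6013664591647)))))))) (T.h (P (nat_lit 0)) (T.h (T.h (P (nat_lit 8092536662202114245656576)) (T.h (P (nat_lit 0)) (T.h (P (nat_lit 1170152927893913600)) (T.h (P (nat_lit 0)) (M (nat_lit 89708038750207)))))) (T.h (P (nat_lit 0)) (T.h (T.h (M (nat_lit 2062319634303942655)) (T.h (P (nat_lit 0)) (P (nat_lit 59823184640880)))) (T.h (P (nat_lit 0)) (P (nat_lit 13405914314464)))))))) (T.h (T.h (P (nat_lit 0)) (T.h (T.h (P (nat_lit 0)) (T.h (M (nat_lit 974192166565486526463)) (T.h (P (nat_lit 0)) (M (nat_lit 75502955984846847))))) (T.h (P (nat_lit 0)) (T.h (T.h (P (nat_lit 0)) (M (nat_lit 15505712372383743))) (P (nat_lit 0)))))) (T.h (T.h (T.h (P (nat_lit 8092536662202114245656576)) (T.h (P (nat_lit 0)) (T.h (P (nat_lit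 1170152927893913600)) (T.h (P (nat_lit 0)) (M (nat_lit 89708038750207)))))) (T.h (P (nat_lit 0)) (T.h (T.h (M (nat_lit 540505362181128191)) (T.h (P (nat_lit 0)) (P (nat_lit 38999358614880)))) (T.h (P (nat_lit 0)) (M (nat_lit 4223076310863)))))) (T.h (T.h (P (nat_lit 0)) (T.h (T.h (P (nat_lit 0)) (M (nat_lit 15505712372383743))) (P (nat_lit 0)))) (T.h (T.h (T.h (M (nat_lit 2062319634303942655)) (T.h (P (nat_lit 0)) (P (nat_lit 59823184640880)))) (T.h (P (nat_lit 0)) (M (nat_lit 4223076310863)))) (T.h (P (nat_lit 0)) (P (nat_lit 13405914314464)))))))), (T.h (T.h (T.h (P (nat_lit 0)) (T.h (P (nat_lit 22778679047823241513898344448)) (T.h (P (nat_lit 0)) (T.h (M (nat_lit 103945883092789225324543)) (T.h (P (nat_lit 0)) (P (nat_lit 67245607427866624))))))) (T.h (P (nat_lit 0)) (T.h (T.h (P (nat_lit 0)) (T.h (P (nat_lit 16637201450160661463040)) (T.h (P (nat_lit 0)) (M (nat_lit 56333667256090623))))) (T.h (P (nat_lit 0)) (T.h (T.h (P (nat_lit 0)) (M (nat_lit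 52018046610030591))) (P (nat_lit 0))))))) (T.h (T.h (P (nat_lit 0)) (T.h (T.h (M (nat_lit 6317920619929703964213247)) (T.h (P (nat_lit 0)) (T.h (M (nat_lit 162904376799993528319)) (T.h (P (nat_lit 0)) (M (nat_lit 216448194887871)))))) (T.h (P (nat_lit 0)) (T.h (T.h (P (nat_lit 31644833031112359936)) (T.h (P (nat_lit 0)) (P (nat_lit 13668783183072)))) (T.h (P (nat_lit 0)) (M (nat_lit 9359451847407))))))) (T.h (T.h (T.h (P (nat_lit 0)) (T.h (P (nat_lit 16637201450160661463040)) (T.h (P (nat_lit 0)) (M (nat_lit 56333667256090623))))) (T.h (P (nat_lit 0)) (T.h (T.h (P (nat_lit 0)) (P (nat_lit 108384944355377152))) (P (nat_lit 0))))) (T.h (T.h (P (nat_lit 0)) (T.h (T.h (P (nat_lit 31644833031112359936)) (T.h (P (nat_lit 0)) (P (nat_lit 13668783183072)))) (T.h (P (nat_lit 0)) (M (nat_lit 9080975901567))))) (T.h (T.h (T.h (P (nat_lit 0)) (M (nat_lit 52018046610030591))) (P (nat_lit 0))) (T.h (T.h (P (nat_lit 0)) (M (nat_lit 9359451847407))) (P (nat_lit 0)))))))),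 (T.h (T.h (T.h (P (nat_lit 6081048895083401288390784581632)) (T.h (P (nat_lit 0)) (T.h (M (nat_lit 108437855115324437412446207)) (T.h (P (nat_lit 0)) (T.h (M (nat_lit 101942302530837938175)) (T.h (P (nat_lit 0)) (M (nat_lit 324870464918399)))))))) (T.h (P (nat_lit 0)) (T.h (T.h (M (nat_lit 19483869153050037778907135)) (T.h (P (nat_lit 0)) (T.h (M (nat_lit 101090038753620131839)) (T.h (P (nat_lit 0)) (P (nat_lit 31525620239920)))))) (T.h (P (nat_lit 0)) (T.h (T.h (P (nat_lit 29005607260221603840)) (T.h (P (nat_lit 0)) (P (nat_lit 109348784641440)))) (T.h (P (nat_lit 0)) (M (nat_lit 41982303589839)))))))) (T.h (T.h (P (nat_lit 0)) (T.h (T.h (P (nat_lit 0)) (T.h (M (nat_lit 71402954464064150962175)) (T.h (P (nat_lit 0)) (M (nat_lit 160309572647387135))))) (T.h (P (nat_lit 0)) (T.h (T.h (P (nat_lit 0)) (P (nat_lit 97011076799922176))) (P (nat_lit 0)))))) (T.h (T.h (T.h (M (nat_lit 19483869153050037778907135)) (T.h (P (nat_lit 0)) (T.h (M (nat_lit 101090038753620131839))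 (T.h (P (nat_lit 0)) (P (nat_lit 31525620239920)))))) (T.h (P (nat_lit 0)) (T.h (T.h (P (nat_lit 21029657652544667648)) (T.h (P (nat_lit 0)) (M (nat_lit 237646975361599)))) (T.h (P (nat_lit 0)) (M (nat_lit 61431585420319)))))) (T.h (T.h (P (nat_lit 0)) (T.h (T.h (P (nat_lit 0)) (P (nat_lit 97011076799922176))) (P (nat_lit 0)))) (T.h (T.h (T.h (P (nat_lit 29005607260221603840)) (T.h (P (nat_lit 0)) (P (nat_lit 109348784641440)))) (T.h (P (nat_lit 0)) (M (nat_lit 61431585420319)))) (T.h (P (nat_lit 0)) (M (nat_lit 41982303589839)))))))), (T.h (T.h (T.h (P (nat_lit 0)) (T.h (M (nat_lit 88476704524665135652308779007)) (T.h (P (nat_lit 0)) (T.h (M (nat_lit 98649202954236063645695)) (T.h (P (nat_lit 0)) (M (nat_lit 732502817971994623))))))) (T.h (P (nat_lit 0)) (T.h (T.h (P (nat_lit 0)) (T.h (M (nat_lit 62360555743963334574079)) (T.h (P (nat_lit 0)) (P (nat_lit 43458579367362560))))) (T.h (P (nat_lit 0)) (T.h (T.h (P (nat_lit 0)) (P (nat_lit 18997831817314304)))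 (P (nat_lit 0))))))) (T.h (T.h (P (nat_lit 0)) (T.h (T.h (M (nat_lit 11630828762409913171312639)) (T.h (P (nat_lit 0)) (T.h (P (nat_lit 678278750592739311616)) (T.h (P (nat_lit 0)) (M (nat_lit 170370273170943)))))) (T.h (P (nat_lit 0)) (T.h (T.h (M (nat_lit 6560148199749713919)) (T.h (P (nat_lit 0)) (M (nat_lit 232315348433871)))) (T.h (P (nat_lit 0)) (M (nat_lit 53103933012239))))))) (T.h (T.h (T.h (P (nat_lit 0)) (T.h (M (nat_lit 62360555743963334574079)) (T.h (P (nat_lit 0)) (P (nat_lit 43458579367362560))))) (T.h (P (nat_lit 0)) (T.h (T.h (P (nat_lit 0)) (M (nat_lit 210565724574416895))) (P (nat_lit 0))))) (T.h (T.h (P (nat_lit 0)) (T.h (T.h (M (nat_lit 6560148199749713919)) (T.h (P (nat_lit 0)) (M (nat_lit 232315348433871)))) (T.h (P (nat_lit 0)) (P (nat_lit 1364867077376))))) (T.h (T.h (T.h (P (nat_lit 0)) (P (nat_lit 18997831817314304))) (P (nat_lit 0))) (T.h (T.h (P (nat_lit 0)) (M (nat_lit 53103933012239))) (P (nat_lit 0)))))))), (T.h (T.h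 (T.h (M (nat_lit 6680708591493659502204118106111)) (T.h (P (nat_lit 0)) (T.h (P (nat_lit 2149890956194024676917248)) (T.h (P (nat_lit 0)) (P (nat_lit 8287550168841060352)))))) (T.h (P (nat_lit 0)) (T.h (T.h (M (nat_lit 3152629237428887272554495)) (T.h (P (nat_lit 0)) (P (nat_lit 48278542870674145280)))) (T.h (P (nat_lit 0)) (M (nat_lit 9809641144634572799)))))) (T.h (T.h (P (nat_lit 0)) (T.h (T.h (P (nat_lit 0)) (T.h (P (nat_lit 65334891981411134210048)) (T.h (P (nat_lit 0)) (M (nat_lit 175092994366111743))))) (T.h (P (nat_lit 0)) (T.h (T.h (P (nat_lit 0)) (M (nat_lit 58318068894531583))) (P (nat_lit 0)))))) (T.h (T.h (T.h (M (nat_lit 3152629237428887272554495)) (T.h (P (nat_lit 0)) (P (nat_lit 48278542870674145280)))) (T.h (P (nat_lit 0)) (M (nat_lit 9895869601147781119)))) (T.h (T.h (P (nat_lit 0)) (T.h (T.h (P (nat_lit 0)) (M (nat_lit 58318068894531583))) (P (nat_lit 0)))) (M (nat_lit 9809641144634572799)))))), (P (nat_lit 0)), (P (nat_lit 0)), (T.h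 (T.h (P (nat_lit 0)) (T.h (T.h (P (nat_lit 0)) (T.h (P (nat_lit 16689975229306857561522176)) (T.h (P (nat_lit 0)) (T.h (M (nat_lit 69817159720112226303)) (T.h (P (nat_lit 0)) (M (nat_lit 380826871142319))))))) (T.h (P (nat_lit 0)) (T.h (T.h (P (nat_lit 0)) (T.h (P (nat_lit 365066461145726976)) (T.h (P (nat_lit 0)) (P (nat_lit 382192262736496))))) (T.h (P (nat_lit 0)) (T.h (T.h (P (nat_lit 0)) (P (nat_lit 26716995752968))) (P (nat_lit 0)))))))) (T.h (T.h (T.h (P (nat_lit 14749881374374213291704582144)) (T.h (P (nat_lit 0)) (T.h (P (nat_lit 45578621915765286109184)) (T.h (P (nat_lit 0)) (P (nat_lit 82368393406119936)))))) (T.h (P (nat_lit 0)) (T.h (T.h (M (nat_lit 11789734253094215090175)) (T.h (P (nat_lit 0)) (M (nat_lit 192862439883210751)))) (T.h (P (nat_lit 0)) (P (nat_lit 3093658246119424)))))) (T.h (T.h (P (nat_lit 0)) (T.h (T.h (P (nat_lit 0)) (T.h (M (nat_lit 162779457600087916543)) (T.h (P (nat_lit 0)) (P (nat_lit 194229106012304))))) (T.h (P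 (nat_lit 0)) (T.h (T.h (P (nat_lit 0)) (P (nat_lit 62213392378344))) (P (nat_lit 0)))))) (T.h (T.h (T.h (P (nat_lit 23967263814739944275968)) (T.h (P (nat_lit 0)) (P (nat_lit 73661871872507904)))) (T.h (P (nat_lit 0)) (P (nat_lit 8725983411961856)))) (T.h (T.h (P (nat_lit 0)) (T.h (T.h (P (nat_lit 0)) (P (nat_lit 168625746219080))) (P (nat_lit 0)))) (M (nat_lit 15704723851444223)))))))]
def lQp_12 : List (T ℤ) := [(T.h (T.h (P (nat_lit 0)) (T.h (T.h (M (nat_lit 16673976384456745519977332735)) (T.h (P (nat_lit 0)) (T.h (M (nat_lit 276038670265591703535615)) (T.h (P (nat_lit 0)) (M (nat_lit 147136834461990911)))))) (T.h (P (nat_lit 0)) (T.h (T.h (P (nat_lit 21987762614248631435264)) (T.h (P (nat_lit 0)) (P (nat_lit 432994986391224320)))) (T.h (P (nat_lit 0)) (M (nat_lit 5203831536091135))))))) (T.h (T.h (T.h (P (nat_lit 0)) (T.h (P (nat_lit 139046393886373083755839488)) (T.h (P (nat_lit 0)) (T.h (P (nat_lit 317902782325436973056)) (T.h (P (nat_lit 0))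 (M (nat_lit 72084300084943))))))) (T.h (P (nat_lit 0)) (T.h (T.h (P (nat_lit 0)) (T.h (P (nat_lit 49455307798848995328)) (T.h (P (nat_lit 0)) (M (nat_lit 75934935373951))))) (T.h (P (nat_lit 0)) (T.h (T.h (P (nat_lit 0)) (P (nat_lit 4164924265456))) (P (nat_lit 0))))))) (T.h (T.h (P (nat_lit 0)) (T.h (T.h (M (nat_lit 636810433992612380671)) (T.h (P (nat_lit 0)) (P (nat_lit 280027309767213056)))) (T.h (P (nat_lit 0)) (M (nat_lit 92686055715602431))))) (T.h (T.h (T.h (P (nat_lit 0)) (T.h (P (nat_lit 4517300243741540352)) (T.h (P (nat_lit 0)) (P (nat_lit 6711510549152))))) (T.h (P (nat_lit 0)) (T.h (T.h (P (nat_lit 0)) (P (nat_lit 16557836531408))) (P (nat_lit 0))))) (T.h (T.h (P (nat_lit 0)) (M (nat_lit 150854767535882239))) (T.h (T.h (T.h (P (nat_lit 0)) (M (nat_lit 34652740068447))) (P (nat_lit 0))) (P (nat_lit 0)))))))), (T.h (T.h (P (nat_lit 0)) (T.h (T.h (P (nat_lit 0)) (T.h (M (nat_lit 21803050347179325362536447)) (T.h (P (nat_lit 0)) (T.h (P (nat_lit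 1399096577830976225280)) (T.h (P (nat_lit 0)) (M (nat_lit 50797908111999))))))) (T.h (P (nat_lit 0)) (T.h (T.h (P (nat_lit 0)) (T.h (M (nat_lit 252614769847746691071)) (T.h (P (nat_lit 0)) (M (nat_lit 711631137030639))))) (T.h (P (nat_lit 0)) (T.h (T.h (P (nat_lit 0)) (M (nat_lit 43199649132079))) (P (nat_lit 0)))))))) (T.h (T.h (T.h (P (nat_lit 49729393334821837117149151232)) (T.h (P (nat_lit 0)) (T.h (M (nat_lit 73843120531193250971647)) (T.h (P (nat_lit 0)) (M (nat_lit 415386975931596799)))))) (T.h (P (nat_lit 0)) (T.h (T.h (M (nat_lit 40371155272180078477311)) (T.h (P (nat_lit 0)) (M (nat_lit 271640997523259391)))) (T.h (P (nat_lit 0)) (M (nat_lit 147024609411497983)))))) (T.h (T.h (P (nat_lit 0)) (T.h (T.h (P (nat_lit 0)) (T.h (P (nat_lit 196772623904814399488)) (T.h (P (nat_lit 0)) (M (nat_lit 441513584918559))))) (T.h (P (nat_lit 0)) (T.h (T.h (P (nat_lit 0)) (P (nat_lit 20503582987040))) (P (nat_lit 0)))))) (T.h (T.h (T.h (M (nat_lit 147949350077792008536063))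 (T.h (P (nat_lit 0)) (M (nat_lit 266648551588659199)))) (T.h (P (nat_lit 0)) (P (nat_lit 10659707077853184)))) (T.h (T.h (P (nat_lit 0)) (T.h (T.h (P (nat_lit 0)) (M (nat_lit 44698048341039))) (P (nat_lit 0)))) (P (nat_lit 39457157562138624))))))), (T.h (T.h (P (nat_lit 0)) (T.h (T.h (M (nat_lit 4917936981971218361554567167)) (T.h (P (nat_lit 0)) (T.h (P (nat_lit 419121629837070438498304)) (T.h (P (nat_lit 0)) (M (nat_lit 2451348865101381631)))))) (T.h (P (nat_lit 0)) (T.h (T.h (M (nat_lit 63985465020640980369407)) (T.h (P (nat_lit 0)) (M (nat_lit 325957275491155967)))) (T.h (P (nat_lit 0)) (M (nat_lit 37867905166016511))))))) (T.h (T.h (T.h (P (nat_lit 0)) (T.h (M (nat_lit 24686943158788964208345087)) (T.h (P (nat_lit 0)) (T.h (P (nat_lit 630235638186064740352)) (T.h (P (nat_lit 0)) (P (nat_lit 323965957366480))))))) (T.h (P (nat_lit 0)) (T.h (T.h (P (nat_lit 0)) (T.h (M (nat_lit 126279138848112902143)) (T.h (P (nat_lit 0)) (P (nat_lit 357255833203280)))))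 (T.h (P (nat_lit 0)) (T.h (T.h (P (nat_lit 0)) (P (nat_lit 53051936705152))) (P (nat_lit 0))))))) (T.h (T.h (P (nat_lit 0)) (T.h (T.h (P (nat_lit 69494433174587336294400)) (T.h (P (nat_lit 0)) (M (nat_lit 395215621298323455)))) (T.h (P (nat_lit 0)) (M (nat_lit 112431178090102783))))) (T.h (T.h (T.h (P (nat_lit 0)) (T.h (M (nat_lit 237096645803731058687)) (T.h (P (nat_lit 0)) (P (nat_lit 186187917737008))))) (T.h (P (nat_lit 0)) (T.h (T.h (P (nat_lit 0)) (M (nat_lit 58086204154527))) (P (nat_lit 0))))) (T.h (T.h (P (nat_lit 0)) (M (nat_lit 2208243714326527))) (T.h (T.h (T.h (P (nat_lit 0)) (P (nat_lit 56760557853824))) (P (nat_lit 0))) (P (nat_lit 0)))))))), (T.h (T.h (P (nat_lit 0)) (T.h (T.h (P (nat_lit 0)) (T.h (P (nat_lit 59607409781330600397897728)) (T.h (P (nat_lit 0)) (M (nat_lit 1752441552205047136255))))) (T.h (P (nat_lit 0)) (T.h (T.h (P (nat_lit 0)) (M (nat_lit 18434105099233001471))) (P (nat_lit 0)))))) (T.h (T.h (T.h (P (nat_lit 3852606373610495334007439360))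 (T.h (P (nat_lit 0)) (T.h (P (nat_lit 245447685447027747979264)) (T.h (P (nat_lit 0)) (P (nat_lit 282237081034981376)))))) (T.h (P (nat_lit 0)) (T.h (T.h (M (nat_lit 6837357369292922814463)) (T.h (P (nat_lit 0)) (P (nat_lit 110716026291683328)))) (T.h (P (nat_lit 0)) (M (nat_lit 59169193778446335)))))) (T.h (T.h (P (nat_lit 0)) (T.h (T.h (P (nat_lit 0)) (M (nat_lit 114307951635558563839))) (P (nat_lit 0)))) (T.h (T.h (T.h (M (nat_lit 22505124835361908850687)) (T.h (P (nat_lit 0)) (P (nat_lit 47461522852282368)))) (T.h (P (nat_lit 0)) (M (nat_lit 46638150502907903)))) (T.h (P (nat_lit 0)) (P (nat_lit 4950061242613760))))))), (P (nat_lit 0)), (P (nat_lit 0)), (T.h (T.h (T.h (P (nat_lit 4003925593441881032265673211904)) (T.h (P (nat_lit 0)) (T.h (P (nat_lit 16734569273838329772638208)) (T.h (P (nat_lit 0)) (T.h (M (nat_lit 9010077383461437439)) (T.h (P (nat_lit 0)) (P (nat_lit 25183938140720)))))))) (T.h (P (nat_lit 0)) (T.h (T.h (P (nat_lit 16734569273838329772638208))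 (T.h (P (nat_lit 0)) (T.h (P (nat_lit 96789512615666647040)) (T.h (P (nat_lit 0)) (M (nat_lit 600146009325087)))))) (T.h (P (nat_lit 0)) (T.h (T.h (M (nat_lit 9010077383461437439)) (T.h (P (nat_lit 0)) (M (nat_lit 600146009325087)))) (T.h (P (nat_lit 0)) (P (nat_lit 25183938140720)))))))) (T.h (T.h (P (nat_lit 0)) (T.h (T.h (P (nat_lit 0)) (T.h (P (nat_lit 184282931739216937222144)) (T.h (P (nat_lit 0)) (M (nat_lit 195834303825641471))))) (T.h (P (nat_lit 0)) (T.h (T.h (P (nat_lit 0)) (M (nat_lit 195834303825641471))) (P (nat_lit 0)))))) (T.h (T.h (T.h (P (nat_lit 20325167141636930082439168)) (T.h (P (nat_lit 0)) (T.h (P (nat_lit 81171585130385375232)) (T.h (P (nat_lit 0)) (M (nat_lit 21082120614943)))))) (T.h (P (nat_lit 0)) (T.h (T.h (P (nat_lit 81171585130385375232)) (T.h (P (nat_lit 0)) (M (nat_lit 433126156423391)))) (T.h (P (nat_lit 0)) (M (nat_lit 21082120614943)))))) (T.h (T.h (P (nat_lit 0)) (T.h (T.h (P (nat_lit 0)) (M (nat_lit 35065780278001663)))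 (P (nat_lit 0)))) (T.h (T.h (T.h (M (nat_lit 12051081045290778623)) (T.h (P (nat_lit 0)) (P (nat_lit 28549522906480)))) (T.h (P (nat_lit 0)) (P (nat_lit 28549522906480)))) (T.h (P (nat_lit 0)) (P (nat_lit 10333849775936)))))))), (T.h (T.h (T.h (P (nat_lit 0)) (T.h (P (nat_lit 2940885621627575000643928064)) (T.h (P (nat_lit 0)) (T.h (P (nat_lit 116406846110943819071488)) (T.h (P (nat_lit 0)) (M (nat_lit 56047310886469631))))))) (T.h (P (nat_lit 0)) (T.h (T.h (P (nat_lit 0)) (T.h (M (nat_lit 94851712084561593630719)) (T.h (P (nat_lit 0)) (P (nat_lit 835144473480052736))))) (T.h (P (nat_lit 0)) (T.h (T.h (P (nat_lit 0)) (M (nat_lit 735089316496408575))) (P (nat_lit 0))))))) (T.h (T.h (P (nat_lit 0)) (T.h (T.h (M (nat_lit 16415219717815830516334591)) (T.h (P (nat_lit 0)) (T.h (M (nat_lit 828259457634934980607)) (T.h (P (nat_lit 0)) (P (nat_lit 20469176266336)))))) (T.h (P (nat_lit 0)) (T.h (T.h (P (nat_lit 109908203411100139520)) (T.h (P (nat_lit 0)) (P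 (nat_lit 145511679509456)))) (T.h (P (nat_lit 0)) (P (nat_lit 20495869015824))))))) (T.h (T.h (T.h (P (nat_lit 0)) (T.h (P (nat_lit 80986423199241164816384)) (T.h (P (nat_lit 0)) (P (nat_lit 19203365430902784))))) (T.h (P (nat_lit 0)) (T.h (T.h (P (nat_lit 0)) (P (nat_lit 96651728867672064))) (P (nat_lit 0))))) (T.h (T.h (P (nat_lit 0)) (T.h (T.h (P (nat_lit 69725839715362406400)) (T.h (P (nat_lit 0)) (P (nat_lit 713975442312624)))) (T.h (P (nat_lit 0)) (M (nat_lit 45475820045455))))) (T.h (T.h (T.h (P (nat_lit 0)) (P (nat_lit 511413832325070848))) (P (nat_lit 0))) (T.h (T.h (P (nat_lit 0)) (M (nat_lit 22027988921247))) (P (nat_lit 0))))))))]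
def lQp_13 : List (T ℤ) := [(T.h (T.h (T.h (M (nat_lit 16373032247394188254534424330239)) (T.h (P (nat_lit 0)) (T.h (P (nat_lit 183164102553771000985550848)) (T.h (P (nat_lit 0)) (T.h (P (nat_lit 64186300245037023232)) (T.h (P (nat_lit 0)) (M (nat_lit 181077617065439)))))))) (T.h (P (nat_lit 0)) (T.h (T.h (M (nat_lit 82364093836797918939447295)) (T.h (P (nat_lit 0)) (T.h (M (nat_lit 149752501920275103743)) (T.h (P (nat_lit 0)) (P (nat_lit 328360484248640)))))) (T.h (P (nat_lit 0)) (T.h (T.h (P (nat_lit 105868750466731474944)) (T.h (P (nat_lit 0)) (P (nat_lit 2048257231413680)))) (T.h (P (nat_lit 0)) (M (nat_lit 221185732879199)))))))) (T.h (T.h (P (nat_lit 0)) (T.h (T.h (P (nat_lit 0)) (T.h (M (nat_lit 176562571776358048858111)) (T.h (P (nat_lit 0)) (M (nat_lit 260329813543616511))))) (T.h (P (nat_lit 0)) (T.h (T.h (P (nat_lit 0)) (M (nat_lit 363780600151343103))) (P (nat_lit 0)))))) (T.h (T.h (T.h (M (nat_lit 23688841013614905995034623)) (T.h (P (nat_lit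 0)) (T.h (M (nat_lit 448948537288898379775)) (T.h (P (nat_lit 0)) (P (nat_lit 12008700755280)))))) (T.h (P (nat_lit 0)) (T.h (T.h (P (nat_lit 64247427580427239424)) (T.h (P (nat_lit 0)) (P (nat_lit 831663739764240)))) (T.h (P (nat_lit 0)) (P (nat_lit 6417808484560)))))) (T.h (T.h (P (nat_lit 0)) (T.h (T.h (P (nat_lit 0)) (M (nat_lit 15819515406319615))) (P (nat_lit 0)))) (T.h (T.h (T.h (P (nat_lit 18525544061490692096)) (T.h (P (nat_lit 0)) (M (nat_lit 583660449321759)))) (T.h (P (nat_lit 0)) (P (nat_lit 174617535857840)))) (T.h (P (nat_lit 0)) (P (nat_lit 19992458540480)))))))), (T.h (T.h (T.h (P (nat_lit 0)) (T.h (P (nat_lit 97760208326290814134334259200)) (T.h (P (nat_lit 0)) (T.h (P (nat_lit 137990060745107722731520)) (T.h (P (nat_lit 0)) (P (nat_lit 133679943531233280))))))) (T.h (P (nat_lit 0)) (T.h (T.h (P (nat_lit 0)) (T.h (M (nat_lit 278980705928123856715775)) (T.h (P (nat_lit 0)) (M (nat_lit 485870168424939519))))) (T.h (P (nat_lit 0)) (T.h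 (T.h (P (nat_lit 0)) (P (nat_lit 882516363633868800))) (P (nat_lit 0))))))) (T.h (T.h (P (nat_lit 0)) (T.h (T.h (M (nat_lit 44325833412268898624995327)) (T.h (P (nat_lit 0)) (T.h (M (nat_lit 1098496507911096762367)) (T.h (P (nat_lit 0)) (P (nat_lit 1882318035580224)))))) (T.h (P (nat_lit 0)) (T.h (T.h (M (nat_lit 1378257928816951295)) (T.h (P (nat_lit 0)) (P (nat_lit 361794974546192)))) (T.h (P (nat_lit 0)) (P (nat_lit 172986961464416))))))) (T.h (T.h (T.h (P (nat_lit 0)) (T.h (M (nat_lit 20690681049946643234815)) (T.h (P (nat_lit 0)) (M (nat_lit 165709087135268863))))) (T.h (P (nat_lit 0)) (T.h (T.h (P (nat_lit 0)) (P (nat_lit 236215949933527040))) (P (nat_lit 0))))) (T.h (T.h (P (nat_lit 0)) (T.h (T.h (P (nat_lit 72822950036406009856)) (T.h (P (nat_lit 0)) (P (nat_lit 130585546475472)))) (T.h (P (nat_lit 0)) (M (nat_lit 25054827595247))))) (T.h (T.h (T.h (P (nat_lit 0)) (M (nat_lit 194314061239648255))) (P (nat_lit 0))) (T.h (T.h (P (nat_lit 0)) (P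 (nat_lit 110851673169776))) (P (nat_lit 0)))))))), (T.h (T.h (T.h (P (nat_lit 16610131237050969157222881296384)) (T.h (P (nat_lit 0)) (T.h (P (nat_lit 23126752110161750401220608)) (T.h (P (nat_lit 0)) (M (nat_lit 118912105825926381567)))))) (T.h (P (nat_lit 0)) (T.h (T.h (M (nat_lit 78577746382943512002822143)) (T.h (P (nat_lit 0)) (M (nat_lit 254876444120481529855)))) (T.h (P (nat_lit 0)) (P (nat_lit 44363430733904084992)))))) (T.h (T.h (P (nat_lit 0)) (T.h (T.h (P (nat_lit 0)) (T.h (M (nat_lit 170774383045035088150527)) (T.h (P (nat_lit 0)) (P (nat_lit 1474979290622656512))))) (T.h (P (nat_lit 0)) (T.h (T.h (P (nat_lit 0)) (P (nat_lit 116902649026969600))) (P (nat_lit 0)))))) (T.h (T.h (T.h (P (nat_lit 12159185391653889647837184)) (T.h (P (nat_lit 0)) (P (nat_lit 12886189783738482688)))) (T.h (P (nat_lit 0)) (P (nat_lit 26916983604714143744)))) (T.h (T.h (P (nat_lit 0)) (T.h (T.h (P (nat_lit 0)) (M (nat_lit 7959988333117439))) (P (nat_lit 0)))) (P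 (nat_lit 8542965040104341504)))))), (P (nat_lit 0)), (P (nat_lit 0)), (T.h (T.h (P (nat_lit 0)) (T.h (T.h (P (nat_lit 0)) (T.h (P (nat_lit 16689975229306857561522176)) (T.h (P (nat_lit 0)) (T.h (P (nat_lit 365066461145726976)) (T.h (P (nat_lit 0)) (P (nat_lit 26716995752968))))))) (T.h (P (nat_lit 0)) (T.h (T.h (P (nat_lit 0)) (T.h (M (nat_lit 69817159720112226303)) (T.h (P (nat_lit 0)) (P (nat_lit 382192262736496))))) (T.h (P (nat_lit 0)) (T.h (T.h (P (nat_lit 0)) (M (nat_lit 380826871142319))) (P (nat_lit 0)))))))) (T.h (T.h (T.h (P (nat_lit 14749881374374213291704582144)) (T.h (P (nat_lit 0)) (T.h (M (nat_lit 11789734253094215090175)) (T.h (P (nat_lit 0)) (P (nat_lit 3093658246119424)))))) (T.h (P (nat_lit 0)) (T.h (T.h (P (nat_lit 45578621915765286109184)) (T.h (P (nat_lit 0)) (M (nat_lit 192862439883210751)))) (T.h (P (nat_lit 0)) (P (nat_lit 82368393406119936)))))) (T.h (T.h (P (nat_lit 0)) (T.h (T.h (P (nat_lit 0)) (T.h (M (nat_lit 162779457600087916543))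 (T.h (P (nat_lit 0)) (P (nat_lit 62213392378344))))) (T.h (P (nat_lit 0)) (T.h (T.h (P (nat_lit 0)) (P (nat_lit 194229106012304))) (P (nat_lit 0)))))) (T.h (T.h (T.h (P (nat_lit 23967263814739944275968)) (T.h (P (nat_lit 0)) (P (nat_lit 8725983411961856)))) (T.h (P (nat_lit 0)) (P (nat_lit 73661871872507904)))) (T.h (T.h (P (nat_lit 0)) (T.h (T.h (P (nat_lit 0)) (P (nat_lit 168625746219080))) (P (nat_lit 0)))) (M (nat_lit 15704723851444223))))))), (T.h (T.h (P (nat_lit 0)) (T.h (T.h (P (nat_lit 2940885621627575000643928064)) (T.h (P (nat_lit 0)) (T.h (M (nat_lit 94851712084561593630719)) (T.h (P (nat_lit 0)) (M (nat_lit 735089316496408575)))))) (T.h (P (nat_lit 0)) (T.h (T.h (P (nat_lit 116406846110943819071488)) (T.h (P (nat_lit 0)) (P (nat_lit 835144473480052736)))) (T.h (P (nat_lit 0)) (M (nat_lit 56047310886469631))))))) (T.h (T.h (T.h (P (nat_lit 0)) (T.h (M (nat_lit 16415219717815830516334591)) (T.h (P (nat_lit 0)) (T.h (P (nat_lit 109908203411100139520))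 (T.h (P (nat_lit 0)) (P (nat_lit 20495869015824))))))) (T.h (P (nat_lit 0)) (T.h (T.h (P (nat_lit 0)) (T.h (M (nat_lit 828259457634934980607)) (T.h (P (nat_lit 0)) (P (nat_lit 145511679509456))))) (T.h (P (nat_lit 0)) (T.h (T.h (P (nat_lit 0)) (P (nat_lit 20469176266336))) (P (nat_lit 0))))))) (T.h (T.h (P (nat_lit 0)) (T.h (T.h (P (nat_lit 80986423199241164816384)) (T.h (P (nat_lit 0)) (P (nat_lit 96651728867672064)))) (T.h (P (nat_lit 0)) (P (nat_lit 19203365430902784))))) (T.h (T.h (T.h (P (nat_lit 0)) (T.h (P (nat_lit 69725839715362406400)) (T.h (P (nat_lit 0)) (M (nat_lit 45475820045455))))) (T.h (P (nat_lit 0)) (T.h (T.h (P (nat_lit 0)) (P (nat_lit 713975442312624))) (P (nat_lit 0))))) (T.h (T.h (P (nat_lit 0)) (P (nat_lit 511413832325070848))) (T.h (T.h (T.h (P (nat_lit 0)) (M (nat_lit 22027988921247))) (P (nat_lit 0))) (P (nat_lit 0)))))))), (T.h (T.h (P (nat_lit 0)) (T.h (T.h (P (nat_lit 0)) (T.h (M (nat_lit 488671878389637485219020799)) (T.h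 (P (nat_lit 0)) (T.h (M (nat_lit 393195357113180749823)) (T.h (P (nat_lit 0)) (P (nat_lit 449154530998320))))))) (T.h (P (nat_lit 0)) (T.h (T.h (P (nat_lit 0)) (T.h (M (nat_lit 393195357113180749823)) (T.h (P (nat_lit 0)) (M (nat_lit 1721559305570879))))) (T.h (P (nat_lit 0)) (T.h (T.h (P (nat_lit 0)) (P (nat_lit 449154530998320))) (P (nat_lit 0)))))))) (T.h (T.h (T.h (M (nat_lit 197031728879750133897284812799)) (T.h (P (nat_lit 0)) (T.h (P (nat_lit 166136637892943920758784)) (T.h (P (nat_lit 0)) (P (nat_lit 408605711218049024)))))) (T.h (P (nat_lit 0)) (T.h (T.h (P (nat_lit 166136637892943920758784)) (T.h (P (nat_lit 0)) (P (nat_lit 2002835965574316032)))) (T.h (P (nat_lit 0)) (P (nat_lit 408605711218049024)))))) (T.h (T.h (P (nat_lit 0)) (T.h (T.h (P (nat_lit 0)) (T.h (P (nat_lit 1578504036410229522432)) (T.h (P (nat_lit 0)) (P (nat_lit 285630882025040))))) (T.h (P (nat_lit 0)) (T.h (T.h (P (nat_lit 0)) (P (nat_lit 285630882025040))) (P (nat_lit 0))))))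 (T.h (T.h (T.h (P (nat_lit 350381446078574004011008)) (T.h (P (nat_lit 0)) (M (nat_lit 82532489449930751)))) (T.h (P (nat_lit 0)) (M (nat_lit 82532489449930751)))) (T.h (T.h (P (nat_lit 0)) (T.h (T.h (P (nat_lit 0)) (M (nat_lit 1404487554440639))) (P (nat_lit 0)))) (M (nat_lit 109275666967429119)))))))]
def lQp_14 : List (T ℤ) := [(T.h (T.h (P (nat_lit 0)) (T.h (T.h (M (nat_lit 134270297398750438269189619711)) (T.h (P (nat_lit 0)) (T.h (M (nat_lit 382351651573250465464319)) (T.h (P (nat_lit 0)) (P (nat_lit 461622103824433152)))))) (T.h (P (nat_lit 0)) (T.h (T.h (P (nat_lit 35199011028150773612544)) (T.h (P (nat_lit 0)) (M (nat_lit 663185509083824127)))) (T.h (P (nat_lit 0)) (M (nat_lit 220288745474244607))))))) (T.h (T.h (T.h (P (nat_lit 0)) (T.h (M (nat_lit 65024100211193024643858431)) (T.h (P (nat_lit 0)) (T.h (M (nat_lit 173216666178182709247)) (T.h (P (nat_lit 0)) (P (nat_lit 128431816472960))))))) (T.h (P (nat_lit 0)) (T.h (T.h (P (nat_lit 0))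 (T.h (P (nat_lit 1791209464431277768704)) (T.h (P (nat_lit 0)) (M (nat_lit 150609851272495))))) (T.h (P (nat_lit 0)) (T.h (T.h (P (nat_lit 0)) (P (nat_lit 56095130371632))) (P (nat_lit 0))))))) (T.h (T.h (P (nat_lit 0)) (T.h (T.h (P (nat_lit 214501384980258199961600)) (T.h (P (nat_lit 0)) (P (nat_lit 1694244006401474560)))) (T.h (P (nat_lit 0)) (P (nat_lit 327056660642496512))))) (T.h (T.h (T.h (P (nat_lit 0)) (T.h (P (nat_lit 189888095720235335680)) (T.h (P (nat_lit 0)) (M (nat_lit 126198014860367))))) (T.h (P (nat_lit 0)) (T.h (T.h (P (nat_lit 0)) (M (nat_lit 625848463900175))) (P (nat_lit 0))))) (T.h (T.h (P (nat_lit 0)) (M (nat_lit 325401417075720191))) (T.h (T.h (T.h (P (nat_lit 0)) (M (nat_lit 171358582288431))) (P (nat_lit 0))) (P (nat_lit 0)))))))), (T.h (T.h (P (nat_lit 0)) (T.h (T.h (P (nat_lit 0)) (T.h (M (nat_lit 178450648329772352166428671)) (T.h (P (nat_lit 0)) (M (nat_lit 468182160841962946559))))) (T.h (P (nat_lit 0)) (T.h (T.h (P (nat_lit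 0)) (M (nat_lit 312703088898592473087))) (P (nat_lit 0)))))) (T.h (T.h (T.h (M (nat_lit 12264306295860865433992167423)) (T.h (P (nat_lit 0)) (T.h (M (nat_lit 72151306072020993703935)) (T.h (P (nat_lit 0)) (P (nat_lit 353876310217654272)))))) (T.h (P (nat_lit 0)) (T.h (T.h (P (nat_lit 126715159606584970051584)) (T.h (P (nat_lit 0)) (M (nat_lit 329315656024653823)))) (T.h (P (nat_lit 0)) (P (nat_lit 250273072803250176)))))) (T.h (T.h (P (nat_lit 0)) (T.h (T.h (P (nat_lit 0)) (P (nat_lit 632434394254251393024))) (P (nat_lit 0)))) (T.h (T.h (T.h (P (nat_lit 38351697694890571857920)) (T.h (P (nat_lit 0)) (M (nat_lit 12011030252027903)))) (T.h (P (nat_lit 0)) (M (nat_lit 95609950710071295)))) (T.h (P (nat_lit 0)) (M (nat_lit 22986133075853311))))))), (P (nat_lit 0)), (P (nat_lit 0)), (T.h (T.h (T.h (M (nat_lit 1807427213973969121941494169599)) (T.h (P (nat_lit 0)) (T.h (P (nat_lit 8092536662202114245656576)) (T.h (P (nat_lit 0)) (T.h (M (nat_lit 2062319634303942655))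 (T.h (P (nat_lit 0)) (P (nat_lit 13405914314464)))))))) (T.h (P (nat_lit 0)) (T.h (T.h (P (nat_lit 6160842414801612932382720)) (T.h (P (nat_lit 0)) (T.h (P (nat_lit 1170152927893913600)) (T.h (P (nat_lit 0)) (P (nat_lit 59823184640880)))))) (T.h (P (nat_lit 0)) (T.h (T.h (M (nat_lit 22231608460203524095)) (T.h (P (nat_lit 0)) (M (nat_lit 89708038750207)))) (T.h (P (nat_lit 0)) (M (nat_lit 6013664591647)))))))) (T.h (T.h (P (nat_lit 0)) (T.h (T.h (P (nat_lit 0)) (T.h (M (nat_lit 974192166565486526463)) (T.h (P (nat_lit 0)) (M (nat_lit 15505712372383743))))) (T.h (P (nat_lit 0)) (T.h (T.h (P (nat_lit 0)) (M (nat_lit 75502955984846847))) (P (nat_lit 0)))))) (T.h (T.h (T.h (P (nat_lit 8092536662202114245656576)) (T.h (P (nat_lit 0)) (T.h (M (nat_lit 540505362181128191)) (T.h (P (nat_lit 0)) (M (nat_lit 4223076310863)))))) (T.h (P (nat_lit 0)) (T.h (T.h (P (nat_lit 1170152927893913600)) (T.h (P (nat_lit 0)) (P (nat_lit 38999358614880)))) (T.h (P (nat_lit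 0)) (M (nat_lit 89708038750207)))))) (T.h (T.h (P (nat_lit 0)) (T.h (T.h (P (nat_lit 0)) (M (nat_lit 15505712372383743))) (P (nat_lit 0)))) (T.h (T.h (T.h (M (nat_lit 2062319634303942655)) (T.h (P (nat_lit 0)) (M (nat_lit 4223076310863)))) (T.h (P (nat_lit 0)) (P (nat_lit 59823184640880)))) (T.h (P (nat_lit 0)) (P (nat_lit 13405914314464)))))))), (T.h (T.h (T.h (P (nat_lit 0)) (T.h (M (nat_lit 16673976384456745519977332735)) (T.h (P (nat_lit 0)) (T.h (P (nat_lit 21987762614248631435264)) (T.h (P (nat_lit 0)) (M (nat_lit 5203831536091135))))))) (T.h (P (nat_lit 0)) (T.h (T.h (P (nat_lit 0)) (T.h (M (nat_lit 276038670265591703535615)) (T.h (P (nat_lit 0)) (P (nat_lit 432994986391224320))))) (T.h (P (nat_lit 0)) (T.h (T.h (P (nat_lit 0)) (M (nat_lit 147136834461990911))) (P (nat_lit 0))))))) (T.h (T.h (P (nat_lit 0)) (T.h (T.h (P (nat_lit 139046393886373083755839488)) (T.h (P (nat_lit 0)) (T.h (P (nat_lit 49455307798848995328)) (T.h (P (nat_lit 0)) (P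 (nat_lit 4164924265456)))))) (T.h (P (nat_lit 0)) (T.h (T.h (P (nat_lit 317902782325436973056)) (T.h (P (nat_lit 0)) (M (nat_lit 75934935373951)))) (T.h (P (nat_lit 0)) (M (nat_lit 72084300084943))))))) (T.h (T.h (T.h (P (nat_lit 0)) (T.h (M (nat_lit 636810433992612380671)) (T.h (P (nat_lit 0)) (M (nat_lit 92686055715602431))))) (T.h (P (nat_lit 0)) (T.h (T.h (P (nat_lit 0)) (P (nat_lit 280027309767213056))) (P (nat_lit 0))))) (T.h (T.h (P (nat_lit 0)) (T.h (T.h (P (nat_lit 4517300243741540352)) (T.h (P (nat_lit 0)) (P (nat_lit 16557836531408)))) (T.h (P (nat_lit 0)) (P (nat_lit 6711510549152))))) (T.h (T.h (T.h (P (nat_lit 0)) (M (nat_lit 150854767535882239))) (P (nat_lit 0))) (T.h (T.h (P (nat_lit 0)) (M (nat_lit 34652740068447))) (P (nat_lit 0)))))))), (T.h (T.h (T.h (M (nat_lit 16373032247394188254534424330239)) (T.h (P (nat_lit 0)) (T.h (M (nat_lit 82364093836797918939447295)) (T.h (P (nat_lit 0)) (T.h (P (nat_lit 105868750466731474944)) (T.h (P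 (nat_lit 0)) (M (nat_lit 221185732879199)))))))) (T.h (P (nat_lit 0)) (T.h (T.h (P (nat_lit 183164102553771000985550848)) (T.h (P (nat_lit 0)) (T.h (M (nat_lit 149752501920275103743)) (T.h (P (nat_lit 0)) (P (nat_lit 2048257231413680)))))) (T.h (P (nat_lit 0)) (T.h (T.h (P (nat_lit 64186300245037023232)) (T.h (P (nat_lit 0)) (P (nat_lit 328360484248640)))) (T.h (P (nat_lit 0)) (M (nat_lit 181077617065439)))))))) (T.h (T.h (P (nat_lit 0)) (T.h (T.h (P (nat_lit 0)) (T.h (M (nat_lit 176562571776358048858111)) (T.h (P (nat_lit 0)) (M (nat_lit 363780600151343103))))) (T.h (P (nat_lit 0)) (T.h (T.h (P (nat_lit 0)) (M (nat_lit 260329813543616511))) (P (nat_lit 0)))))) (T.h (T.h (T.h (M (nat_lit 23688841013614905995034623)) (T.h (P (nat_lit 0)) (T.h (P (nat_lit 64247427580427239424)) (T.h (P (nat_lit 0)) (P (nat_lit 6417808484560)))))) (T.h (P (nat_lit 0)) (T.h (T.h (M (nat_lit 448948537288898379775)) (T.h (P (nat_lit 0)) (P (nat_lit 831663739764240)))) (T.h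 (P (nat_lit 0)) (P (nat_lit 12008700755280)))))) (T.h (T.h (P (nat_lit 0)) (T.h (T.h (P (nat_lit 0)) (M (nat_lit 15819515406319615))) (P (nat_lit 0)))) (T.h (T.h (T.h (P (nat_lit 18525544061490692096)) (T.h (P (nat_lit 0)) (P (nat_lit 174617535857840)))) (T.h (P (nat_lit 0)) (M (nat_lit 583660449321759)))) (T.h (P (nat_lit 0)) (P (nat_lit 19992458540480)))))))), (T.h (T.h (T.h (P (nat_lit 0)) (T.h (M (nat_lit 134270297398750438269189619711)) (T.h (P (nat_lit 0)) (T.h (P (nat_lit 35199011028150773612544)) (T.h (P (nat_lit 0)) (M (nat_lit 220288745474244607))))))) (T.h (P (nat_lit 0)) (T.h (T.h (P (nat_lit 0)) (T.h (M (nat_lit 382351651573250465464319)) (T.h (P (nat_lit 0)) (M (nat_lit 663185509083824127))))) (T.h (P (nat_lit 0)) (T.h (T.h (P (nat_lit 0)) (P (nat_lit 461622103824433152))) (P (nat_lit 0))))))) (T.h (T.h (P (nat_lit 0)) (T.h (T.h (M (nat_lit 65024100211193024643858431)) (T.h (P (nat_lit 0)) (T.h (P (nat_lit 1791209464431277768704)) (T.h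 (P (nat_lit 0)) (P (nat_lit 56095130371632)))))) (T.h (P (nat_lit 0)) (T.h (T.h (M (nat_lit 173216666178182709247)) (T.h (P (nat_lit 0)) (M (nat_lit 150609851272495)))) (T.h (P (nat_lit 0)) (P (nat_lit 128431816472960))))))) (T.h (T.h (T.h (P (nat_lit 0)) (T.h (P (nat_lit 214501384980258199961600)) (T.h (P (nat_lit 0)) (P (nat_lit 327056660642496512))))) (T.h (P (nat_lit 0)) (T.h (T.h (P (nat_lit 0)) (P (nat_lit 1694244006401474560))) (P (nat_lit 0))))) (T.h (T.h (P (nat_lit 0)) (T.h (T.h (P (nat_lit 189888095720235335680)) (T.h (P (nat_lit 0)) (M (nat_lit 625848463900175)))) (T.h (P (nat_lit 0)) (M (nat_lit 126198014860367))))) (T.h (T.h (T.h (P (nat_lit 0)) (M (nat_lit 325401417075720191))) (P (nat_lit 0))) (T.h (T.h (P (nat_lit 0)) (M (nat_lit 171358582288431))) (P (nat_lit 0))))))))]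
def lQp_15 : List (T ℤ) := [(T.h (T.h (T.h (M (nat_lit 19911686985342792395777992818687)) (T.h (P (nat_lit 0)) (T.h (P (nat_lit 66216282854357790449729536)) (T.h (P (nat_lit 0)) (M (nat_lit 89483072378851295231)))))) (T.h (P (nat_lit 0)) (T.h (T.h (P (nat_lit 66216282854357790449729536)) (T.h (P (nat_lit 0)) (M (nat_lit 1204606997567086002175)))) (T.h (P (nat_lit 0)) (M (nat_lit 89483072378851295231)))))) (T.h (T.h (P (nat_lit 0)) (T.h (T.h (P (nat_lit 0)) (T.h (P (nat_lit 678210062349546654007296)) (T.h (P (nat_lit 0)) (P (nat_lit 180562133041676288))))) (T.h (P (nat_lit 0)) (T.h (T.h (P (nat_lit 0)) (P (nat_lit 180562133041676288))) (P (nat_lit 0)))))) (T.h (T.h (T.h (M (nat_lit 29866378528940360116207615)) (T.h (P (nat_lit 0)) (P (nat_lit 153817068035633053696)))) (T.h (P (nat_lit 0)) (P (nat_lit 153817068035633053696)))) (T.h (T.h (P (nat_lit 0)) (T.h (T.h (P (nat_lit 0)) (M (nat_lit 642979739907260415))) (P (nat_lit 0)))) (M (nat_lit 42188510695096582143)))))),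 (P (nat_lit 0)), (P (nat_lit 0)), (T.h (T.h (P (nat_lit 0)) (T.h (T.h (P (nat_lit 0)) (T.h (P (nat_lit 1857953842829409745108992)) (T.h (P (nat_lit 0)) (T.h (P (nat_lit 5207521057891680256)) (T.h (P (nat_lit 0)) (M (nat_lit 7889238589567))))))) (T.h (P (nat_lit 0)) (T.h (T.h (P (nat_lit 0)) (T.h (P (nat_lit 8107869170617548800)) (T.h (P (nat_lit 0)) (M (nat_lit 13168855558335))))) (T.h (P (nat_lit 0)) (T.h (T.h (P (nat_lit 0)) (P (nat_lit 62471784628984))) (P (nat_lit 0)))))))) (T.h (T.h (T.h (P (nat_lit 12794100345879409982347149312)) (T.h (P (nat_lit 0)) (T.h (P (nat_lit 1358226987020332302336)) (T.h (P (nat_lit 0)) (M (nat_lit 108913887543295)))))) (T.h (P (nat_lit 0)) (T.h (T.h (M (nat_lit 495899353916857384959)) (T.h (P (nat_lit 0)) (M (nat_lit 4763249007394815)))) (T.h (P (nat_lit 0)) (M (nat_lit 38793684289617919)))))) (T.h (T.h (P (nat_lit 0)) (T.h (T.h (P (nat_lit 0)) (T.h (M (nat_lit 593274009924141055)) (T.h (P (nat_lit 0)) (M (nat_lit 1495307379447)))))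 (T.h (P (nat_lit 0)) (T.h (T.h (P (nat_lit 0)) (P (nat_lit 13916663262256))) (P (nat_lit 0)))))) (T.h (T.h (T.h (M (nat_lit 1384689428146249793535)) (T.h (P (nat_lit 0)) (M (nat_lit 132703734923263)))) (T.h (P (nat_lit 0)) (M (nat_lit 10798372299145215)))) (T.h (T.h (P (nat_lit 0)) (T.h (T.h (P (nat_lit 0)) (M (nat_lit 8435143216095))) (P (nat_lit 0)))) (M (nat_lit 12294808850366463))))))), (T.h (T.h (P (nat_lit 0)) (T.h (T.h (P (nat_lit 22778679047823241513898344448)) (T.h (P (nat_lit 0)) (T.h (P (nat_lit 16637201450160661463040)) (T.h (P (nat_lit 0)) (M (nat_lit 52018046610030591)))))) (T.h (P (nat_lit 0)) (T.h (T.h (M (nat_lit 103945883092789225324543)) (T.h (P (nat_lit 0)) (M (nat_lit 56333667256090623)))) (T.h (P (nat_lit 0)) (P (nat_lit 67245607427866624))))))) (T.h (T.h (T.h (P (nat_lit 0)) (T.h (M (nat_lit 6317920619929703964213247)) (T.h (P (nat_lit 0)) (T.h (P (nat_lit 31644833031112359936)) (T.h (P (nat_lit 0)) (M (nat_lit 9359451847407)))))))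 (T.h (P (nat_lit 0)) (T.h (T.h (P (nat_lit 0)) (T.h (M (nat_lit 162904376799993528319)) (T.h (P (nat_lit 0)) (P (nat_lit 13668783183072))))) (T.h (P (nat_lit 0)) (T.h (T.h (P (nat_lit 0)) (M (nat_lit 216448194887871))) (P (nat_lit 0))))))) (T.h (T.h (P (nat_lit 0)) (T.h (T.h (P (nat_lit 16637201450160661463040)) (T.h (P (nat_lit 0)) (P (nat_lit 108384944355377152)))) (T.h (P (nat_lit 0)) (M (nat_lit 56333667256090623))))) (T.h (T.h (T.h (P (nat_lit 0)) (T.h (P (nat_lit 31644833031112359936)) (T.h (P (nat_lit 0)) (M (nat_lit 9080975901567))))) (T.h (P (nat_lit 0)) (T.h (T.h (P (nat_lit 0)) (P (nat_lit 13668783183072))) (P (nat_lit 0))))) (T.h (T.h (P (nat_lit 0)) (M (nat_lit 52018046610030591))) (T.h (T.h (T.h (P (nat_lit 0)) (M (nat_lit 9359451847407))) (P (nat_lit 0))) (P (nat_lit 0)))))))), (T.h (T.h (P (nat_lit 0)) (T.h (T.h (P (nat_lit 0)) (T.h (M (nat_lit 21803050347179325362536447)) (T.h (P (nat_lit 0)) (T.h (M (nat_lit 252614769847746691071))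 (T.h (P (nat_lit 0)) (M (nat_lit 43199649132079))))))) (T.h (P (nat_lit 0)) (T.h (T.h (P (nat_lit 0)) (T.h (P (nat_lit 1399096577830976225280)) (T.h (P (nat_lit 0)) (M (nat_lit 711631137030639))))) (T.h (P (nat_lit 0)) (T.h (T.h (P (nat_lit 0)) (M (nat_lit 50797908111999))) (P (nat_lit 0)))))))) (T.h (T.h (T.h (P (nat_lit 49729393334821837117149151232)) (T.h (P (nat_lit 0)) (T.h (M (nat_lit 40371155272180078477311)) (T.h (P (nat_lit 0)) (M (nat_lit 147024609411497983)))))) (T.h (P (nat_lit 0)) (T.h (T.h (M (nat_lit 73843120531193250971647)) (T.h (P (nat_lit 0)) (M (nat_lit 271640997523259391)))) (T.h (P (nat_lit 0)) (M (nat_lit 415386975931596799)))))) (T.h (T.h (P (nat_lit 0)) (T.h (T.h (P (nat_lit 0)) (T.h (P (nat_lit 196772623904814399488)) (T.h (P (nat_lit 0)) (P (nat_lit 20503582987040))))) (T.h (P (nat_lit 0)) (T.h (T.h (P (nat_lit 0)) (M (nat_lit 441513584918559))) (P (nat_lit 0)))))) (T.h (T.h (T.h (M (nat_lit 147949350077792008536063)) (T.h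 (P (nat_lit 0)) (P (nat_lit 10659707077853184)))) (T.h (P (nat_lit 0)) (M (nat_lit 266648551588659199)))) (T.h (T.h (P (nat_lit 0)) (T.h (T.h (P (nat_lit 0)) (M (nat_lit 44698048341039))) (P (nat_lit 0)))) (P (nat_lit 39457157562138624))))))), (T.h (T.h (P (nat_lit 0)) (T.h (T.h (P (nat_lit 97760208326290814134334259200)) (T.h (P (nat_lit 0)) (T.h (M (nat_lit 278980705928123856715775)) (T.h (P (nat_lit 0)) (P (nat_lit 882516363633868800)))))) (T.h (P (nat_lit 0)) (T.h (T.h (P (nat_lit 137990060745107722731520)) (T.h (P (nat_lit 0)) (M (nat_lit 485870168424939519)))) (T.h (P (nat_lit 0)) (P (nat_lit 133679943531233280))))))) (T.h (T.h (T.h (P (nat_lit 0)) (T.h (M (nat_lit 44325833412268898624995327)) (T.h (P (nat_lit 0)) (T.h (M (nat_lit 1378257928816951295)) (T.h (P (nat_lit 0)) (P (nat_lit 172986961464416))))))) (T.h (P (nat_lit 0)) (T.h (T.h (P (nat_lit 0)) (T.h (M (nat_lit 1098496507911096762367)) (T.h (P (nat_lit 0)) (P (nat_lit 361794974546192)))))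 (T.h (P (nat_lit 0)) (T.h (T.h (P (nat_lit 0)) (P (nat_lit 1882318035580224))) (P (nat_lit 0))))))) (T.h (T.h (P (nat_lit 0)) (T.h (T.h (M (nat_lit 20690681049946643234815)) (T.h (P (nat_lit 0)) (P (nat_lit 236215949933527040)))) (T.h (P (nat_lit 0)) (M (nat_lit 165709087135268863))))) (T.h (T.h (T.h (P (nat_lit 0)) (T.h (P (nat_lit 72822950036406009856)) (T.h (P (nat_lit 0)) (M (nat_lit 25054827595247))))) (T.h (P (nat_lit 0)) (T.h (T.h (P (nat_lit 0)) (P (nat_lit 130585546475472))) (P (nat_lit 0))))) (T.h (T.h (P (nat_lit 0)) (M (nat_lit 194314061239648255))) (T.h (T.h (T.h (P (nat_lit 0)) (P (nat_lit 110851673169776))) (P (nat_lit 0))) (P (nat_lit 0)))))))), (T.h (T.h (P (nat_lit 0)) (T.h (T.h (P (nat_lit 0)) (T.h (M (nat_lit 178450648329772352166428671)) (T.h (P (nat_lit 0)) (M (nat_lit 312703088898592473087))))) (T.h (P (nat_lit 0)) (T.h (T.h (P (nat_lit 0)) (M (nat_lit 468182160841962946559))) (P (nat_lit 0)))))) (T.h (T.h (T.h (M (nat_lit 12264306295860865433992167423))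 (T.h (P (nat_lit 0)) (T.h (P (nat_lit 126715159606584970051584)) (T.h (P (nat_lit 0)) (P (nat_lit 250273072803250176)))))) (T.h (P (nat_lit 0)) (T.h (T.h (M (nat_lit 72151306072020993703935)) (T.h (P (nat_lit 0)) (M (nat_lit 329315656024653823)))) (T.h (P (nat_lit 0)) (P (nat_lit 353876310217654272)))))) (T.h (T.h (P (nat_lit 0)) (T.h (T.h (P (nat_lit 0)) (P (nat_lit 632434394254251393024))) (P (nat_lit 0)))) (T.h (T.h (T.h (P (nat_lit 38351697694890571857920)) (T.h (P (nat_lit 0)) (M (nat_lit 95609950710071295)))) (T.h (P (nat_lit 0)) (M (nat_lit 12011030252027903)))) (T.h (P (nat_lit 0)) (M (nat_lit 22986133075853311)))))))]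
def lQp_16 : List (T ℤ) := [(P (nat_lit 0)), (P (nat_lit 0)), (T.h (T.h (T.h (P (nat_lit 0)) (T.h (P (nat_lit 226318629704904614210437120)) (T.h (P (nat_lit 0)) (T.h (P (nat_lit 766451334615954096128)) (T.h (P (nat_lit 0)) (M (nat_lit 2974749091381247))))))) (T.h (P (nat_lit 0)) (T.h (T.h (P (nat_lit 0)) (T.h (P (nat_lit 13548174235352948539392)) (T.h (P (nat_lit 0)) (P (nat_lit 1936205404995584))))) (T.h (P (nat_lit 0)) (T.h (T.h (P (nat_lit 0)) (P (nat_lit 148610963780747264))) (P (nat_lit 0))))))) (T.h (T.h (P (nat_lit 0)) (T.h (T.h (P (nat_lit 5760110150759249130553344)) (T.h (P (nat_lit 0)) (T.h (P (nat_lit 4478360613369675776)) (T.h (P (nat_lit 0)) (M (nat_lit 14115448294655)))))) (T.h (P (nat_lit 0)) (T.h (T.h (M (nat_lit 155560528027376943103)) (T.h (P (nat_lit 0)) (P (nat_lit 20853968390928)))) (T.h (P (nat_lit 0)) (P (nat_lit 126624751875824))))))) (T.h (T.h (T.h (P (nat_lit 0)) (T.h (P (nat_lit 6115334825654234382336)) (T.h (P (nat_lit 0))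 (P (nat_lit 18148605108125696))))) (T.h (P (nat_lit 0)) (T.h (T.h (P (nat_lit 0)) (P (nat_lit 11298605499367424))) (P (nat_lit 0))))) (T.h (T.h (P (nat_lit 0)) (T.h (T.h (M (nat_lit 44187288449497169919)) (T.h (P (nat_lit 0)) (M (nat_lit 4256921589567)))) (T.h (P (nat_lit 0)) (M (nat_lit 29896136530671))))) (T.h (T.h (T.h (P (nat_lit 0)) (P (nat_lit 13485241803522048))) (P (nat_lit 0))) (T.h (T.h (P (nat_lit 0)) (P (nat_lit 7351350546784))) (P (nat_lit 0)))))))), (T.h (T.h (T.h (P (nat_lit 6081048895083401288390784581632)) (T.h (P (nat_lit 0)) (T.h (M (nat_lit 19483869153050037778907135)) (T.h (P (nat_lit 0)) (T.h (P (nat_lit 29005607260221603840)) (T.h (P (nat_lit 0)) (M (nat_lit 41982303589839)))))))) (T.h (P (nat_lit 0)) (T.h (T.h (M (nat_lit 108437855115324437412446207)) (T.h (P (nat_lit 0)) (T.h (M (nat_lit 101090038753620131839)) (T.h (P (nat_lit 0)) (P (nat_lit 109348784641440)))))) (T.h (P (nat_lit 0)) (T.h (T.h (M (nat_lit 101942302530837938175))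 (T.h (P (nat_lit 0)) (P (nat_lit 31525620239920)))) (T.h (P (nat_lit 0)) (M (nat_lit 324870464918399)))))))) (T.h (T.h (P (nat_lit 0)) (T.h (T.h (P (nat_lit 0)) (T.h (M (nat_lit 71402954464064150962175)) (T.h (P (nat_lit 0)) (P (nat_lit 97011076799922176))))) (T.h (P (nat_lit 0)) (T.h (T.h (P (nat_lit 0)) (M (nat_lit 160309572647387135))) (P (nat_lit 0)))))) (T.h (T.h (T.h (M (nat_lit 19483869153050037778907135)) (T.h (P (nat_lit 0)) (T.h (P (nat_lit 21029657652544667648)) (T.h (P (nat_lit 0)) (M (nat_lit 61431585420319)))))) (T.h (P (nat_lit 0)) (T.h (T.h (M (nat_lit 101090038753620131839)) (T.h (P (nat_lit 0)) (M (nat_lit 237646975361599)))) (T.h (P (nat_lit 0)) (P (nat_lit 31525620239920)))))) (T.h (T.h (P (nat_lit 0)) (T.h (T.h (P (nat_lit 0)) (P (nat_lit 97011076799922176))) (P (nat_lit 0)))) (T.h (T.h (T.h (P (nat_lit 29005607260221603840)) (T.h (P (nat_lit 0)) (M (nat_lit 61431585420319)))) (T.h (P (nat_lit 0)) (P (nat_lit 109348784641440))))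 (T.h (P (nat_lit 0)) (M (nat_lit 41982303589839)))))))), (T.h (T.h (T.h (P (nat_lit 0)) (T.h (M (nat_lit 4917936981971218361554567167)) (T.h (P (nat_lit 0)) (T.h (M (nat_lit 63985465020640980369407)) (T.h (P (nat_lit 0)) (M (nat_lit 37867905166016511))))))) (T.h (P (nat_lit 0)) (T.h (T.h (P (nat_lit 0)) (T.h (P (nat_lit 419121629837070438498304)) (T.h (P (nat_lit 0)) (M (nat_lit 325957275491155967))))) (T.h (P (nat_lit 0)) (T.h (T.h (P (nat_lit 0)) (M (nat_lit 2451348865101381631))) (P (nat_lit 0))))))) (T.h (T.h (P (nat_lit 0)) (T.h (T.h (M (nat_lit 24686943158788964208345087)) (T.h (P (nat_lit 0)) (T.h (M (nat_lit 126279138848112902143)) (T.h (P (nat_lit 0)) (P (nat_lit 53051936705152)))))) (T.h (P (nat_lit 0)) (T.h (T.h (P (nat_lit 630235638186064740352)) (T.h (P (nat_lit 0)) (P (nat_lit 357255833203280)))) (T.h (P (nat_lit 0)) (P (nat_lit 323965957366480))))))) (T.h (T.h (T.h (P (nat_lit 0)) (T.h (P (nat_lit 69494433174587336294400)) (T.h (P (nat_lit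 0)) (M (nat_lit 112431178090102783))))) (T.h (P (nat_lit 0)) (T.h (T.h (P (nat_lit 0)) (M (nat_lit 395215621298323455))) (P (nat_lit 0))))) (T.h (T.h (P (nat_lit 0)) (T.h (T.h (M (nat_lit 237096645803731058687)) (T.h (P (nat_lit 0)) (M (nat_lit 58086204154527)))) (T.h (P (nat_lit 0)) (P (nat_lit 186187917737008))))) (T.h (T.h (T.h (P (nat_lit 0)) (M (nat_lit 2208243714326527))) (P (nat_lit 0))) (T.h (T.h (P (nat_lit 0)) (P (nat_lit 56760557853824))) (P (nat_lit 0)))))))), (T.h (T.h (T.h (P (nat_lit 16610131237050969157222881296384)) (T.h (P (nat_lit 0)) (T.h (M (nat_lit 78577746382943512002822143)) (T.h (P (nat_lit 0)) (P (nat_lit 44363430733904084992)))))) (T.h (P (nat_lit 0)) (T.h (T.h (P (nat_lit 23126752110161750401220608)) (T.h (P (nat_lit 0)) (M (nat_lit 254876444120481529855)))) (T.h (P (nat_lit 0)) (M (nat_lit 118912105825926381567)))))) (T.h (T.h (P (nat_lit 0)) (T.h (T.h (P (nat_lit 0)) (T.h (M (nat_lit 170774383045035088150527)) (T.h (P (nat_lit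 0)) (P (nat_lit 116902649026969600))))) (T.h (P (nat_lit 0)) (T.h (T.h (P (nat_lit 0)) (P (nat_lit 1474979290622656512))) (P (nat_lit 0)))))) (T.h (T.h (T.h (P (nat_lit 12159185391653889647837184)) (T.h (P (nat_lit 0)) (P (nat_lit 26916983604714143744)))) (T.h (P (nat_lit 0)) (P (nat_lit 12886189783738482688)))) (T.h (T.h (P (nat_lit 0)) (T.h (T.h (P (nat_lit 0)) (M (nat_lit 7959988333117439))) (P (nat_lit 0)))) (P (nat_lit 8542965040104341504)))))), (P (nat_lit 0)), (P (nat_lit 0))]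
def lQp_17 : List (T ℤ) := [(T.h (T.h (P (nat_lit 0)) (T.h (T.h (P (nat_lit 0)) (T.h (M (nat_lit 11214666536666130125160447)) (T.h (P (nat_lit 0)) (T.h (M (nat_lit 16014234136231280639)) (T.h (P (nat_lit 0)) (P (nat_lit 6700780526240))))))) (T.h (P (nat_lit 0)) (T.h (T.h (P (nat_lit 0)) (T.h (M (nat_lit 273829416074412556287)) (T.h (P (nat_lit 0)) (P (nat_lit 78533988872880))))) (T.h (P (nat_lit 0)) (T.h (T.h (P (nat_lit 0)) (M (nat_lit 649950281733359))) (P (nat_lit 0)))))))) (T.h (T.h (T.h (M (nat_lit 16157316351655077914389512191)) (T.h (P (nat_lit 0)) (T.h (M (nat_lit 1472349745841981882367)) (T.h (P (nat_lit 0)) (P (nat_lit 7029372037136384)))))) (T.h (P (nat_lit 0)) (T.h (T.h (P (nat_lit 13429755321487863054336)) (T.h (P (nat_lit 0)) (P (nat_lit 171041178281050112)))) (T.h (P (nat_lit 0)) (P (nat_lit 274177761625079808)))))) (T.h (T.h (P (nat_lit 0)) (T.h (T.h (P (nat_lit 0)) (T.h (M (nat_lit 26743036042488578047)) (T.h (P (nat_lit 0)) (M (nat_lit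 10694443811919))))) (T.h (P (nat_lit 0)) (T.h (T.h (P (nat_lit 0)) (M (nat_lit 63537919357359))) (P (nat_lit 0)))))) (T.h (T.h (T.h (M (nat_lit 5325104209578101309439)) (T.h (P (nat_lit 0)) (P (nat_lit 23172711675297792)))) (T.h (P (nat_lit 0)) (M (nat_lit 27539627497783295)))) (T.h (T.h (P (nat_lit 0)) (T.h (T.h (P (nat_lit 0)) (P (nat_lit 38000328702000))) (P (nat_lit 0)))) (P (nat_lit 29353014219341824))))))), (T.h (T.h (P (nat_lit 0)) (T.h (T.h (M (nat_lit 88476704524665135652308779007)) (T.h (P (nat_lit 0)) (T.h (M (nat_lit 62360555743963334574079)) (T.h (P (nat_lit 0)) (P (nat_lit 18997831817314304)))))) (T.h (P (nat_lit 0)) (T.h (T.h (M (nat_lit 98649202954236063645695)) (T.h (P (nat_lit 0)) (P (nat_lit 43458579367362560)))) (T.h (P (nat_lit 0)) (M (nat_lit 732502817971994623))))))) (T.h (T.h (T.h (P (nat_lit 0)) (T.h (M (nat_lit 11630828762409913171312639)) (T.h (P (nat_lit 0)) (T.h (M (nat_lit 6560148199749713919)) (T.h (P (nat_lit 0)) (M (nat_lit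 53103933012239))))))) (T.h (P (nat_lit 0)) (T.h (T.h (P (nat_lit 0)) (T.h (P (nat_lit 678278750592739311616)) (T.h (P (nat_lit 0)) (M (nat_lit 232315348433871))))) (T.h (P (nat_lit 0)) (T.h (T.h (P (nat_lit 0)) (M (nat_lit 170370273170943))) (P (nat_lit 0))))))) (T.h (T.h (P (nat_lit 0)) (T.h (T.h (M (nat_lit 62360555743963334574079)) (T.h (P (nat_lit 0)) (M (nat_lit 210565724574416895)))) (T.h (P (nat_lit 0)) (P (nat_lit 43458579367362560))))) (T.h (T.h (T.h (P (nat_lit 0)) (T.h (M (nat_lit 6560148199749713919)) (T.h (P (nat_lit 0)) (P (nat_lit 1364867077376))))) (T.h (P (nat_lit 0)) (T.h (T.h (P (nat_lit 0)) (M (nat_lit 232315348433871))) (P (nat_lit 0))))) (T.h (T.h (P (nat_lit 0)) (P (nat_lit 18997831817314304))) (T.h (T.h (T.h (P (nat_lit 0)) (M (nat_lit 53103933012239))) (P (nat_lit 0))) (P (nat_lit 0)))))))), (T.h (T.h (P (nat_lit 0)) (T.h (T.h (P (nat_lit 0)) (T.h (P (nat_lit 59607409781330600397897728)) (T.h (P (nat_lit 0)) (M (nat_lit 18434105099233001471)))))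 (T.h (P (nat_lit 0)) (T.h (T.h (P (nat_lit 0)) (M (nat_lit 1752441552205047136255))) (P (nat_lit 0)))))) (T.h (T.h (T.h (P (nat_lit 3852606373610495334007439360)) (T.h (P (nat_lit 0)) (T.h (M (nat_lit 6837357369292922814463)) (T.h (P (nat_lit 0)) (M (nat_lit 59169193778446335)))))) (T.h (P (nat_lit 0)) (T.h (T.h (P (nat_lit 245447685447027747979264)) (T.h (P (nat_lit 0)) (P (nat_lit 110716026291683328)))) (T.h (P (nat_lit 0)) (P (nat_lit 282237081034981376)))))) (T.h (T.h (P (nat_lit 0)) (T.h (T.h (P (nat_lit 0)) (M (nat_lit 114307951635558563839))) (P (nat_lit 0)))) (T.h (T.h (T.h (M (nat_lit 22505124835361908850687)) (T.h (P (nat_lit 0)) (M (nat_lit 46638150502907903)))) (T.h (P (nat_lit 0)) (P (nat_lit 47461522852282368)))) (T.h (P (nat_lit 0)) (P (nat_lit 4950061242613760))))))), (P (nat_lit 0)), (P (nat_lit 0)), (T.h (T.h (T.h (P (nat_lit 0)) (T.h (M (nat_lit 1468683830756010962882396159)) (T.h (P (nat_lit 0)) (T.h (M (nat_lit 4805245990692022386687))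 (T.h (P (nat_lit 0)) (P (nat_lit 2598847362711552))))))) (T.h (P (nat_lit 0)) (T.h (T.h (P (nat_lit 0)) (T.h (M (nat_lit 14144146517207239622655)) (T.h (P (nat_lit 0)) (P (nat_lit 131025791878840320))))) (T.h (P (nat_lit 0)) (T.h (T.h (P (nat_lit 0)) (M (nat_lit 486616909737345023))) (P (nat_lit 0))))))) (T.h (T.h (P (nat_lit 0)) (T.h (T.h (P (nat_lit 24061905069947047567687680)) (T.h (P (nat_lit 0)) (T.h (P (nat_lit 40906388900327456768)) (T.h (P (nat_lit 0)) (P (nat_lit 37730281781984)))))) (T.h (P (nat_lit 0)) (T.h (T.h (P (nat_lit 83946722356541521920)) (T.h (P (nat_lit 0)) (M (nat_lit 64739948756207)))) (T.h (P (nat_lit 0)) (M (nat_lit 430642633814447))))))) (T.h (T.h (T.h (P (nat_lit 0)) (T.h (M (nat_lit 2152802899987471007743)) (T.h (P (nat_lit 0)) (P (nat_lit 13742695469957120))))) (T.h (P (nat_lit 0)) (T.h (T.h (P (nat_lit 0)) (P (nat_lit 7918000311222272))) (P (nat_lit 0))))) (T.h (T.h (P (nat_lit 0)) (T.h (T.h (P (nat_lit 50873018507107237888))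 (T.h (P (nat_lit 0)) (P (nat_lit 238877194160)))) (T.h (P (nat_lit 0)) (P (nat_lit 847315013424))))) (T.h (T.h (T.h (P (nat_lit 0)) (M (nat_lit 4140057265930239))) (P (nat_lit 0))) (T.h (T.h (P (nat_lit 0)) (M (nat_lit 6662556455103))) (P (nat_lit 0)))))))), (T.h (T.h (T.h (M (nat_lit 6680708591493659502204118106111)) (T.h (P (nat_lit 0)) (T.h (M (nat_lit 3152629237428887272554495)) (T.h (P (nat_lit 0)) (M (nat_lit 9809641144634572799)))))) (T.h (P (nat_lit 0)) (T.h (T.h (P (nat_lit 2149890956194024676917248)) (T.h (P (nat_lit 0)) (P (nat_lit 48278542870674145280)))) (T.h (P (nat_lit 0)) (P (nat_lit 8287550168841060352)))))) (T.h (T.h (P (nat_lit 0)) (T.h (T.h (P (nat_lit 0)) (T.h (P (nat_lit 65334891981411134210048)) (T.h (P (nat_lit 0)) (M (nat_lit 58318068894531583))))) (T.h (P (nat_lit 0)) (T.h (T.h (P (nat_lit 0)) (M (nat_lit 175092994366111743))) (P (nat_lit 0)))))) (T.h (T.h (T.h (M (nat_lit 3152629237428887272554495)) (T.h (P (nat_lit 0)) (M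 (nat_lit 9895869601147781119)))) (T.h (P (nat_lit 0)) (P (nat_lit 48278542870674145280)))) (T.h (T.h (P (nat_lit 0)) (T.h (T.h (P (nat_lit 0)) (M (nat_lit 58318068894531583))) (P (nat_lit 0)))) (M (nat_lit 9809641144634572799)))))), (P (nat_lit 0))]
def lQp_18 : List (T ℤ) := [(P (nat_lit 0)), (T.h (T.h (P (nat_lit 0)) (T.h (T.h (P (nat_lit 0)) (T.h (P (nat_lit 8685767576524368306503680)) (T.h (P (nat_lit 0)) (P (nat_lit 32111403715541336064))))) (T.h (P (nat_lit 0)) (T.h (T.h (P (nat_lit 0)) (P (nat_lit 126973145165437337600))) (P (nat_lit 0)))))) (T.h (T.h (T.h (P (nat_lit 3849283284899336926831575040)) (T.h (P (nat_lit 0)) (T.h (P (nat_lit 318127756473987497984)) (T.h (P (nat_lit 0)) (P (nat_lit 9836419181182976)))))) (T.h (P (nat_lit 0)) (T.h (T.h (P (nat_lit 7915433807328952975360)) (T.h (P (nat_lit 0)) (M (nat_lit 56882161005330431)))) (T.h (P (nat_lit 0)) (M (nat_lit 421785709203062783)))))) (T.h (T.h (P (nat_lit 0)) (T.h (T.h (P (nat_lit 0))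 (P (nat_lit 21352153951422644224))) (P (nat_lit 0)))) (T.h (T.h (T.h (P (nat_lit 2169209033493156200448)) (T.h (P (nat_lit 0)) (P (nat_lit 5667928027332608)))) (T.h (P (nat_lit 0)) (P (nat_lit 9664805248008192)))) (T.h (P (nat_lit 0)) (M (nat_lit 411400681750527))))))), (P (nat_lit 0)), (P (nat_lit 0)), (P (nat_lit 0)), (P (nat_lit 0)), (P (nat_lit 0)), (P (nat_lit 0))]
def lQp_19 : List (T ℤ) := [(T.h (T.h (T.h (P (nat_lit 0)) (T.h (M (nat_lit 2055456681931519564426772479)) (T.h (P (nat_lit 0)) (T.h (M (nat_lit 4248991952857825542143)) (T.h (P (nat_lit 0)) (P (nat_lit 3485283988078592))))))) (T.h (P (nat_lit 0)) (T.h (T.h (P (nat_lit 0)) (T.h (P (nat_lit 10035423191259844444160)) (T.h (P (nat_lit 0)) (M (nat_lit 48569078005039103))))) (T.h (P (nat_lit 0)) (T.h (T.h (P (nat_lit 0)) (M (nat_lit 4075656891629567))) (P (nat_lit 0))))))) (T.h (T.h (P (nat_lit 0)) (T.h (T.h (P (nat_lit 1705315292969379989291008)) (T.h (P (nat_lit 0)) (T.h (M (nat_lit 876704851256410111))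 (T.h (P (nat_lit 0)) (P (nat_lit 28937018074768)))))) (T.h (P (nat_lit 0)) (T.h (T.h (M (nat_lit 2377763215032451071)) (T.h (P (nat_lit 0)) (M (nat_lit 12562440285327)))) (T.h (P (nat_lit 0)) (M (nat_lit 7158406918607))))))) (T.h (T.h (T.h (P (nat_lit 0)) (T.h (P (nat_lit 2766668727805554982912)) (T.h (P (nat_lit 0)) (P (nat_lit 8725047214145536))))) (T.h (P (nat_lit 0)) (T.h (T.h (P (nat_lit 0)) (M (nat_lit 454002489458687))) (P (nat_lit 0))))) (T.h (T.h (P (nat_lit 0)) (T.h (T.h (M (nat_lit 2476425389400915967)) (T.h (P (nat_lit 0)) (P (nat_lit 1415563387736)))) (T.h (P (nat_lit 0)) (M (nat_lit 2063416401615))))) (T.h (T.h (T.h (P (nat_lit 0)) (P (nat_lit 2451024506814464))) (P (nat_lit 0))) (T.h (T.h (P (nat_lit 0)) (P (nat_lit 6242764166040))) (P (nat_lit 0)))))))), (T.h (T.h (T.h (M (nat_lit 16310421525849164254090450960383)) (T.h (P (nat_lit 0)) (T.h (P (nat_lit 11683839568522379406606336)) (T.h (P (nat_lit 0)) (T.h (M (nat_lit 2035208997841141759))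 (T.h (P (nat_lit 0)) (P (nat_lit 63359498543120)))))))) (T.h (P (nat_lit 0)) (T.h (T.h (M (nat_lit 1377791761044098531721215)) (T.h (P (nat_lit 0)) (T.h (M (nat_lit 48808837752610095103)) (T.h (P (nat_lit 0)) (P (nat_lit 65805890694080)))))) (T.h (P (nat_lit 0)) (T.h (T.h (P (nat_lit 4136264342167355392)) (T.h (P (nat_lit 0)) (M (nat_lit 27352561037247)))) (T.h (P (nat_lit 0)) (M (nat_lit 2258787755471)))))))) (T.h (T.h (P (nat_lit 0)) (T.h (T.h (P (nat_lit 0)) (T.h (P (nat_lit 10010703217678719385600)) (T.h (P (nat_lit 0)) (M (nat_lit 190586810511065087))))) (T.h (P (nat_lit 0)) (T.h (T.h (P (nat_lit 0)) (M (nat_lit 61646594252767231))) (P (nat_lit 0)))))) (T.h (T.h (T.h (P (nat_lit 10121519114408553399451648)) (T.h (P (nat_lit 0)) (T.h (P (nat_lit 61914797905744494592)) (T.h (P (nat_lit 0)) (P (nat_lit 439341944415168)))))) (T.h (P (nat_lit 0)) (T.h (T.h (M (nat_lit 244134082416476159)) (T.h (P (nat_lit 0)) (M (nat_lit 2428238407215)))) (T.h (P (nat_lit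 0)) (P (nat_lit 7778266412928)))))) (T.h (T.h (P (nat_lit 0)) (T.h (T.h (P (nat_lit 0)) (P (nat_lit 62959274422501376))) (P (nat_lit 0)))) (T.h (T.h (T.h (M (nat_lit 2857327944320155647)) (T.h (P (nat_lit 0)) (M (nat_lit 25450372979775)))) (T.h (P (nat_lit 0)) (P (nat_lit 7834943220656)))) (T.h (P (nat_lit 0)) (P (nat_lit 7181325551792)))))))), (T.h (T.h (T.h (P (nat_lit 0)) (T.h (P (nat_lit 21123593321619357335306633216)) (T.h (P (nat_lit 0)) (T.h (M (nat_lit 15010200804235572936703)) (T.h (P (nat_lit 0)) (P (nat_lit 154004297327050752))))))) (T.h (P (nat_lit 0)) (T.h (T.h (P (nat_lit 0)) (T.h (P (nat_lit 50430542327613638049792)) (T.h (P (nat_lit 0)) (P (nat_lit 165041657512427520))))) (T.h (P (nat_lit 0)) (T.h (T.h (P (nat_lit 0)) (M (nat_lit 55334082025422847))) (P (nat_lit 0))))))) (T.h (T.h (P (nat_lit 0)) (T.h (T.h (M (nat_lit 2581634979122964043137023)) (T.h (P (nat_lit 0)) (T.h (M (nat_lit 58709018431610421247)) (T.h (P (nat_lit 0)) (M (nat_lit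 58319323554319)))))) (T.h (P (nat_lit 0)) (T.h (T.h (P (nat_lit 32675668490924851200)) (T.h (P (nat_lit 0)) (P (nat_lit 107680149905440)))) (T.h (P (nat_lit 0)) (M (nat_lit 16361497986479))))))) (T.h (T.h (T.h (P (nat_lit 0)) (T.h (M (nat_lit 5919988966405504499711)) (T.h (P (nat_lit 0)) (P (nat_lit 58402257737056256))))) (T.h (P (nat_lit 0)) (T.h (T.h (P (nat_lit 0)) (M (nat_lit 50862758182420479))) (P (nat_lit 0))))) (T.h (T.h (P (nat_lit 0)) (T.h (T.h (P (nat_lit 21661246487506452480)) (T.h (P (nat_lit 0)) (P (nat_lit 103123823580640)))) (T.h (P (nat_lit 0)) (M (nat_lit 66069034018639))))) (T.h (T.h (T.h (P (nat_lit 0)) (P (nat_lit 10609186901458944))) (P (nat_lit 0))) (T.h (T.h (P (nat_lit 0)) (M (nat_lit 33653347756399))) (P (nat_lit 0)))))))), (T.h (T.h (T.h (P (nat_lit 648354378398368560434359828480)) (T.h (P (nat_lit 0)) (T.h (P (nat_lit 7052920268108960389660672)) (T.h (P (nat_lit 0)) (T.h (P (nat_lit 192230385199957934080)) (T.h (P (nat_lit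 0)) (P (nat_lit 130481994932784)))))))) (T.h (P (nat_lit 0)) (T.h (T.h (P (nat_lit 405226602017100610404352)) (T.h (P (nat_lit 0)) (T.h (P (nat_lit 34010185905997873152)) (T.h (P (nat_lit 0)) (P (nat_lit 33231154151888)))))) (T.h (P (nat_lit 0)) (T.h (T.h (M (nat_lit 5430699604901363711)) (T.h (P (nat_lit 0)) (M (nat_lit 17832029004943)))) (T.h (P (nat_lit 0)) (P (nat_lit 3821769693456)))))))) (T.h (T.h (P (nat_lit 0)) (T.h (T.h (P (nat_lit 0)) (T.h (M (nat_lit 44952741325817528713215)) (T.h (P (nat_lit 0)) (P (nat_lit 150087276435439616))))) (T.h (P (nat_lit 0)) (T.h (T.h (P (nat_lit 0)) (M (nat_lit 36359330566864895))) (P (nat_lit 0)))))) (T.h (T.h (T.h (P (nat_lit 6029595519567029736570880)) (T.h (P (nat_lit 0)) (T.h (M (nat_lit 80224259377891115007)) (T.h (P (nat_lit 0)) (P (nat_lit 78162321228816)))))) (T.h (P (nat_lit 0)) (T.h (T.h (P (nat_lit 1458250011144880128)) (T.h (P (nat_lit 0)) (P (nat_lit 109922351265936)))) (T.h (P (nat_lit 0)) (M (nat_lit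 49126568938831)))))) (T.h (T.h (P (nat_lit 0)) (T.h (T.h (P (nat_lit 0)) (P (nat_lit 134958845215637504))) (P (nat_lit 0)))) (T.h (T.h (T.h (P (nat_lit 22782046953774514176)) (T.h (P (nat_lit 0)) (P (nat_lit 129681242717312)))) (T.h (P (nat_lit 0)) (M (nat_lit 52667779269951)))) (T.h (P (nat_lit 0)) (P (nat_lit 1586148909312)))))))), (T.h (T.h (T.h (P (nat_lit 0)) (T.h (M (nat_lit 3166846873336167602856132607)) (T.h (P (nat_lit 0)) (T.h (P (nat_lit 14344602706940511911936)) (T.h (P (nat_lit 0)) (P (nat_lit 65582421789278208))))))) (T.h (P (nat_lit 0)) (T.h (T.h (P (nat_lit 0)) (T.h (M (nat_lit 35266817870928178839551)) (T.h (P (nat_lit 0)) (P (nat_lit 12694745432686592))))) (T.h (P (nat_lit 0)) (T.h (T.h (P (nat_lit 0)) (P (nat_lit 384693298659328))) (P (nat_lit 0))))))) (T.h (T.h (P (nat_lit 0)) (T.h (T.h (M (nat_lit 9767776142240778154934271)) (T.h (P (nat_lit 0)) (P (nat_lit 145672624222347722752)))) (T.h (P (nat_lit 0)) (M (nat_lit 11252920928419446783)))))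 (T.h (T.h (T.h (P (nat_lit 0)) (T.h (M (nat_lit 54548994911447583555583)) (T.h (P (nat_lit 0)) (P (nat_lit 58682876268085248))))) (T.h (P (nat_lit 0)) (T.h (T.h (P (nat_lit 0)) (P (nat_lit 41064510206017536))) (P (nat_lit 0))))) (T.h (T.h (P (nat_lit 0)) (P (nat_lit 181177798486917120))) (T.h (T.h (T.h (P (nat_lit 0)) (P (nat_lit 42086344733622272))) (P (nat_lit 0))) (P (nat_lit 0))))))), (P (nat_lit 0)), (P (nat_lit 0)), (T.h (T.h (P (nat_lit 0)) (T.h (T.h (P (nat_lit 14749881374374213291704582144)) (T.h (P (nat_lit 0)) (T.h (P (nat_lit 45578621915765286109184)) (T.h (P (nat_lit 0)) (P (nat_lit 82368393406119936)))))) (T.h (P (nat_lit 0)) (T.h (T.h (P (nat_lit 23967263814739944275968)) (T.h (P (nat_lit 0)) (P (nat_lit 73661871872507904)))) (T.h (P (nat_lit 0)) (M (nat_lit 15704723851444223))))))) (T.h (T.h (T.h (P (nat_lit 0)) (T.h (P (nat_lit 16689975229306857561522176)) (T.h (P (nat_lit 0)) (T.h (M (nat_lit 69817159720112226303)) (T.h (P (nat_lit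 0)) (M (nat_lit 380826871142319))))))) (T.h (P (nat_lit 0)) (T.h (T.h (P (nat_lit 0)) (T.h (M (nat_lit 162779457600087916543)) (T.h (P (nat_lit 0)) (P (nat_lit 194229106012304))))) (T.h (P (nat_lit 0)) (T.h (T.h (P (nat_lit 0)) (P (nat_lit 168625746219080))) (P (nat_lit 0))))))) (T.h (T.h (P (nat_lit 0)) (T.h (T.h (M (nat_lit 11789734253094215090175)) (T.h (P (nat_lit 0)) (M (nat_lit 192862439883210751)))) (T.h (P (nat_lit 0)) (P (nat_lit 8725983411961856))))) (T.h (T.h (T.h (P (nat_lit 0)) (T.h (P (nat_lit 365066461145726976)) (T.h (P (nat_lit 0)) (P (nat_lit 382192262736496))))) (T.h (P (nat_lit 0)) (T.h (T.h (P (nat_lit 0)) (P (nat_lit 62213392378344))) (P (nat_lit 0))))) (T.h (T.h (P (nat_lit 0)) (P (nat_lit 3093658246119424))) (T.h (T.h (T.h (P (nat_lit 0)) (P (nat_lit 26716995752968))) (P (nat_lit 0))) (P (nat_lit 0))))))))]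
def lQp_20 : List (T ℤ) := [(T.h (T.h (P (nat_lit 0)) (T.h (T.h (P (nat_lit 0)) (T.h (P (nat_lit 139046393886373083755839488)) (T.h (P (nat_lit 0)) (T.h (P (nat_lit 317902782325436973056)) (T.h (P (nat_lit 0)) (M (nat_lit 72084300084943))))))) (T.h (P (nat_lit 0)) (T.h (T.h (P (nat_lit 0)) (T.h (P (nat_lit 4517300243741540352)) (T.h (P (nat_lit 0)) (P (nat_lit 6711510549152))))) (T.h (P (nat_lit 0)) (T.h (T.h (P (nat_lit 0)) (M (nat_lit 34652740068447))) (P (nat_lit 0)))))))) (T.h (T.h (T.h (M (nat_lit 16673976384456745519977332735)) (T.h (P (nat_lit 0)) (T.h (M (nat_lit 276038670265591703535615)) (T.h (P (nat_lit 0)) (M (nat_lit 147136834461990911)))))) (T.h (P (nat_lit 0)) (T.h (T.h (M (nat_lit 636810433992612380671)) (T.h (P (nat_lit 0)) (P (nat_lit 280027309767213056)))) (T.h (P (nat_lit 0)) (M (nat_lit 150854767535882239)))))) (T.h (T.h (P (nat_lit 0)) (T.h (T.h (P (nat_lit 0)) (T.h (P (nat_lit 49455307798848995328)) (T.h (P (nat_lit 0)) (M (nat_lit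 75934935373951))))) (T.h (P (nat_lit 0)) (T.h (T.h (P (nat_lit 0)) (P (nat_lit 16557836531408))) (P (nat_lit 0)))))) (T.h (T.h (T.h (P (nat_lit 21987762614248631435264)) (T.h (P (nat_lit 0)) (P (nat_lit 432994986391224320)))) (T.h (P (nat_lit 0)) (M (nat_lit 92686055715602431)))) (T.h (T.h (P (nat_lit 0)) (T.h (T.h (P (nat_lit 0)) (P (nat_lit 4164924265456))) (P (nat_lit 0)))) (M (nat_lit 5203831536091135))))))), (T.h (T.h (P (nat_lit 0)) (T.h (T.h (P (nat_lit 49729393334821837117149151232)) (T.h (P (nat_lit 0)) (T.h (M (nat_lit 73843120531193250971647)) (T.h (P (nat_lit 0)) (M (nat_lit 415386975931596799)))))) (T.h (P (nat_lit 0)) (T.h (T.h (M (nat_lit 147949350077792008536063)) (T.h (P (nat_lit 0)) (M (nat_lit 266648551588659199)))) (T.h (P (nat_lit 0)) (P (nat_lit 39457157562138624))))))) (T.h (T.h (T.h (P (nat_lit 0)) (T.h (M (nat_lit 21803050347179325362536447)) (T.h (P (nat_lit 0)) (T.h (P (nat_lit 1399096577830976225280)) (T.h (P (nat_lit 0))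 (M (nat_lit 50797908111999))))))) (T.h (P (nat_lit 0)) (T.h (T.h (P (nat_lit 0)) (T.h (P (nat_lit 196772623904814399488)) (T.h (P (nat_lit 0)) (M (nat_lit 441513584918559))))) (T.h (P (nat_lit 0)) (T.h (T.h (P (nat_lit 0)) (M (nat_lit 44698048341039))) (P (nat_lit 0))))))) (T.h (T.h (P (nat_lit 0)) (T.h (T.h (M (nat_lit 40371155272180078477311)) (T.h (P (nat_lit 0)) (M (nat_lit 271640997523259391)))) (T.h (P (nat_lit 0)) (P (nat_lit 10659707077853184))))) (T.h (T.h (T.h (P (nat_lit 0)) (T.h (M (nat_lit 252614769847746691071)) (T.h (P (nat_lit 0)) (M (nat_lit 711631137030639))))) (T.h (P (nat_lit 0)) (T.h (T.h (P (nat_lit 0)) (P (nat_lit 20503582987040))) (P (nat_lit 0))))) (T.h (T.h (P (nat_lit 0)) (M (nat_lit 147024609411497983))) (T.h (T.h (T.h (P (nat_lit 0)) (M (nat_lit 43199649132079))) (P (nat_lit 0))) (P (nat_lit 0)))))))), (T.h (T.h (P (nat_lit 0)) (T.h (T.h (P (nat_lit 0)) (T.h (M (nat_lit 24686943158788964208345087)) (T.h (P (nat_lit 0)) (T.h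 (P (nat_lit 630235638186064740352)) (T.h (P (nat_lit 0)) (P (nat_lit 323965957366480))))))) (T.h (P (nat_lit 0)) (T.h (T.h (P (nat_lit 0)) (T.h (M (nat_lit 237096645803731058687)) (T.h (P (nat_lit 0)) (P (nat_lit 186187917737008))))) (T.h (P (nat_lit 0)) (T.h (T.h (P (nat_lit 0)) (P (nat_lit 56760557853824))) (P (nat_lit 0)))))))) (T.h (T.h (T.h (M (nat_lit 4917936981971218361554567167)) (T.h (P (nat_lit 0)) (T.h (P (nat_lit 419121629837070438498304)) (T.h (P (nat_lit 0)) (M (nat_lit 2451348865101381631)))))) (T.h (P (nat_lit 0)) (T.h (T.h (P (nat_lit 69494433174587336294400)) (T.h (P (nat_lit 0)) (M (nat_lit 395215621298323455)))) (T.h (P (nat_lit 0)) (M (nat_lit 2208243714326527)))))) (T.h (T.h (P (nat_lit 0)) (T.h (T.h (P (nat_lit 0)) (T.h (M (nat_lit 126279138848112902143)) (T.h (P (nat_lit 0)) (P (nat_lit 357255833203280))))) (T.h (P (nat_lit 0)) (T.h (T.h (P (nat_lit 0)) (M (nat_lit 58086204154527))) (P (nat_lit 0)))))) (T.h (T.h (T.h (M (nat_lit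 63985465020640980369407)) (T.h (P (nat_lit 0)) (M (nat_lit 325957275491155967)))) (T.h (P (nat_lit 0)) (M (nat_lit 112431178090102783)))) (T.h (T.h (P (nat_lit 0)) (T.h (T.h (P (nat_lit 0)) (P (nat_lit 53051936705152))) (P (nat_lit 0)))) (M (nat_lit 37867905166016511))))))), (T.h (T.h (P (nat_lit 0)) (T.h (T.h (P (nat_lit 3852606373610495334007439360)) (T.h (P (nat_lit 0)) (T.h (P (nat_lit 245447685447027747979264)) (T.h (P (nat_lit 0)) (P (nat_lit 282237081034981376)))))) (T.h (P (nat_lit 0)) (T.h (T.h (M (nat_lit 22505124835361908850687)) (T.h (P (nat_lit 0)) (P (nat_lit 47461522852282368)))) (T.h (P (nat_lit 0)) (P (nat_lit 4950061242613760))))))) (T.h (T.h (T.h (P (nat_lit 0)) (T.h (P (nat_lit 59607409781330600397897728)) (T.h (P (nat_lit 0)) (M (nat_lit 1752441552205047136255))))) (T.h (P (nat_lit 0)) (T.h (T.h (P (nat_lit 0)) (M (nat_lit 114307951635558563839))) (P (nat_lit 0))))) (T.h (T.h (P (nat_lit 0)) (T.h (T.h (M (nat_lit 6837357369292922814463))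 (T.h (P (nat_lit 0)) (P (nat_lit 110716026291683328)))) (T.h (P (nat_lit 0)) (M (nat_lit 46638150502907903))))) (T.h (T.h (T.h (P (nat_lit 0)) (M (nat_lit 18434105099233001471))) (P (nat_lit 0))) (T.h (T.h (P (nat_lit 0)) (M (nat_lit 59169193778446335))) (P (nat_lit 0))))))), (P (nat_lit 0)), (P (nat_lit 0)), (T.h (T.h (T.h (P (nat_lit 0)) (T.h (P (nat_lit 10761264159112345455830237184)) (T.h (P (nat_lit 0)) (T.h (M (nat_lit 239678259340123308031)) (T.h (P (nat_lit 0)) (M (nat_lit 6083027579699199))))))) (T.h (P (nat_lit 0)) (T.h (T.h (P (nat_lit 0)) (T.h (P (nat_lit 44057131584592925425664)) (T.h (P (nat_lit 0)) (P (nat_lit 391172053358706688))))) (T.h (P (nat_lit 0)) (T.h (T.h (P (nat_lit 0)) (P (nat_lit 33232012783714304))) (P (nat_lit 0))))))) (T.h (T.h (P (nat_lit 0)) (T.h (T.h (M (nat_lit 16120402417381523331219455)) (T.h (P (nat_lit 0)) (T.h (M (nat_lit 65573374711457382399)) (T.h (P (nat_lit 0)) (M (nat_lit 48589310894703)))))) (T.h (P (nat_lit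 0)) (T.h (T.h (P (nat_lit 27908753054742085632)) (T.h (P (nat_lit 0)) (P (nat_lit 440929459787480)))) (T.h (P (nat_lit 0)) (M (nat_lit 33881669526207))))))) (T.h (T.h (T.h (P (nat_lit 0)) (T.h (P (nat_lit 44057131584592925425664)) (T.h (P (nat_lit 0)) (P (nat_lit 391172053358706688))))) (T.h (P (nat_lit 0)) (T.h (T.h (P (nat_lit 0)) (P (nat_lit 36504727480696832))) (P (nat_lit 0))))) (T.h (T.h (P (nat_lit 0)) (T.h (T.h (P (nat_lit 27908753054742085632)) (T.h (P (nat_lit 0)) (P (nat_lit 440929459787480)))) (T.h (P (nat_lit 0)) (M (nat_lit 51133428393359))))) (T.h (T.h (T.h (P (nat_lit 0)) (P (nat_lit 33232012783714304))) (P (nat_lit 0))) (T.h (T.h (P (nat_lit 0)) (M (nat_lit 33881669526207))) (P (nat_lit 0)))))))), (T.h (T.h (T.h (M (nat_lit 17594253107046821248647494107135)) (T.h (P (nat_lit 0)) (T.h (M (nat_lit 2350367630756910246920191)) (T.h (P (nat_lit 0)) (T.h (P (nat_lit 69696027185236672512)) (T.h (P (nat_lit 0)) (M (nat_lit 16207010583903))))))))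 (T.h (P (nat_lit 0)) (T.h (T.h (P (nat_lit 21304803120963885708869632)) (T.h (P (nat_lit 0)) (T.h (P (nat_lit 297407163401181855744)) (T.h (P (nat_lit 0)) (M (nat_lit 59244869932431)))))) (T.h (P (nat_lit 0)) (T.h (T.h (M (nat_lit 10244170915285827583)) (T.h (P (nat_lit 0)) (M (nat_lit 155512376735103)))) (T.h (P (nat_lit 0)) (P (nat_lit 35204148183136)))))))) (T.h (T.h (P (nat_lit 0)) (T.h (T.h (P (nat_lit 0)) (T.h (P (nat_lit 194674404354259844857856)) (T.h (P (nat_lit 0)) (P (nat_lit 187746599905984512))))) (T.h (P (nat_lit 0)) (T.h (T.h (P (nat_lit 0)) (M (nat_lit 285714783448793087))) (P (nat_lit 0)))))) (T.h (T.h (T.h (P (nat_lit 21304803120963885708869632)) (T.h (P (nat_lit 0)) (T.h (P (nat_lit 297407163401181855744)) (T.h (P (nat_lit 0)) (M (nat_lit 59244869932431)))))) (T.h (P (nat_lit 0)) (T.h (T.h (M (nat_lit 44292742647633674239)) (T.h (P (nat_lit 0)) (P (nat_lit 158867203205152)))) (T.h (P (nat_lit 0)) (P (nat_lit 7477112616224)))))) (T.h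 (T.h (P (nat_lit 0)) (T.h (T.h (P (nat_lit 0)) (M (nat_lit 285714783448793087))) (P (nat_lit 0)))) (T.h (T.h (T.h (M (nat_lit 10244170915285827583)) (T.h (P (nat_lit 0)) (M (nat_lit 155512376735103)))) (T.h (P (nat_lit 0)) (P (nat_lit 7477112616224)))) (T.h (P (nat_lit 0)) (P (nat_lit 35204148183136))))))))]
def lQp_21 : List (T ℤ) := [(T.h (T.h (T.h (P (nat_lit 0)) (T.h (P (nat_lit 69633019206119853098857922560)) (T.h (P (nat_lit 0)) (T.h (M (nat_lit 32165377150601421389823)) (T.h (P (nat_lit 0)) (P (nat_lit 549582392462606336))))))) (T.h (P (nat_lit 0)) (T.h (T.h (P (nat_lit 0)) (T.h (P (nat_lit 158227689711631811477504)) (T.h (P (nat_lit 0)) (P (nat_lit 1577009487523938304))))) (T.h (P (nat_lit 0)) (T.h (T.h (P (nat_lit 0)) (M (nat_lit 299866337198079999))) (P (nat_lit 0))))))) (T.h (T.h (P (nat_lit 0)) (T.h (T.h (M (nat_lit 195476179480490388299448319)) (T.h (P (nat_lit 0)) (T.h (M (nat_lit 733300534981362188287)) (T.h (P (nat_lit 0)) (M (nat_lit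 712331587072959)))))) (T.h (P (nat_lit 0)) (T.h (T.h (P (nat_lit 117559666176704905216)) (T.h (P (nat_lit 0)) (P (nat_lit 327972253000560)))) (T.h (P (nat_lit 0)) (P (nat_lit 40329959640400))))))) (T.h (T.h (T.h (P (nat_lit 0)) (T.h (P (nat_lit 158227689711631811477504)) (T.h (P (nat_lit 0)) (P (nat_lit 1577009487523938304))))) (T.h (P (nat_lit 0)) (T.h (T.h (P (nat_lit 0)) (M (nat_lit 185226729645146111))) (P (nat_lit 0))))) (T.h (T.h (P (nat_lit 0)) (T.h (T.h (P (nat_lit 117559666176704905216)) (T.h (P (nat_lit 0)) (P (nat_lit 327972253000560)))) (T.h (P (nat_lit 0)) (M (nat_lit 178876977698559))))) (T.h (T.h (T.h (P (nat_lit 0)) (M (nat_lit 299866337198079999))) (P (nat_lit 0))) (T.h (T.h (P (nat_lit 0)) (P (nat_lit 40329959640400))) (P (nat_lit 0)))))))), (T.h (T.h (T.h (P (nat_lit 26077830506595865461661229907968)) (T.h (P (nat_lit 0)) (T.h (M (nat_lit 264928016980467986982764543)) (T.h (P (nat_lit 0)) (T.h (M (nat_lit 218518617920488079359)) (T.h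 (P (nat_lit 0)) (P (nat_lit 329438584916672)))))))) (T.h (P (nat_lit 0)) (T.h (T.h (M (nat_lit 318182497165845239080943615)) (T.h (P (nat_lit 0)) (T.h (M (nat_lit 693921528551026196479)) (T.h (P (nat_lit 0)) (P (nat_lit 60230847533472)))))) (T.h (P (nat_lit 0)) (T.h (T.h (P (nat_lit 85790700551431782400)) (T.h (P (nat_lit 0)) (M (nat_lit 153371460460767)))) (T.h (P (nat_lit 0)) (M (nat_lit 48388242410463)))))))) (T.h (T.h (P (nat_lit 0)) (T.h (T.h (P (nat_lit 0)) (T.h (P (nat_lit 318982793860663945986048)) (T.h (P (nat_lit 0)) (M (nat_lit 1483349204858044415))))) (T.h (P (nat_lit 0)) (T.h (T.h (P (nat_lit 0)) (M (nat_lit 193123563191042047))) (P (nat_lit 0)))))) (T.h (T.h (T.h (M (nat_lit 318182497165845239080943615)) (T.h (P (nat_lit 0)) (T.h (M (nat_lit 693921528551026196479)) (T.h (P (nat_lit 0)) (P (nat_lit 60230847533472)))))) (T.h (P (nat_lit 0)) (T.h (T.h (P (nat_lit 179141532945106337792)) (T.h (P (nat_lit 0)) (P (nat_lit 1545953600471104))))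 (T.h (P (nat_lit 0)) (P (nat_lit 115714159541728)))))) (T.h (T.h (P (nat_lit 0)) (T.h (T.h (P (nat_lit 0)) (M (nat_lit 193123563191042047))) (P (nat_lit 0)))) (T.h (T.h (T.h (P (nat_lit 85790700551431782400)) (T.h (P (nat_lit 0)) (M (nat_lit 153371460460767)))) (T.h (P (nat_lit 0)) (P (nat_lit 115714159541728)))) (T.h (P (nat_lit 0)) (M (nat_lit 48388242410463)))))))), (T.h (T.h (T.h (P (nat_lit 0)) (T.h (P (nat_lit 29376288194465710613708406784)) (T.h (P (nat_lit 0)) (T.h (P (nat_lit 35093809422728020623360)) (T.h (P (nat_lit 0)) (P (nat_lit 488645990257197056))))))) (T.h (P (nat_lit 0)) (T.h (T.h (P (nat_lit 0)) (T.h (M (nat_lit 286482203539050432823295)) (T.h (P (nat_lit 0)) (P (nat_lit 215364510542790656))))) (T.h (P (nat_lit 0)) (T.h (T.h (P (nat_lit 0)) (P (nat_lit 5606270613454848))) (P (nat_lit 0))))))) (T.h (T.h (P (nat_lit 0)) (T.h (T.h (P (nat_lit 101656164803558409808904192)) (T.h (P (nat_lit 0)) (M (nat_lit 369651032577932263423)))) (T.h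 (P (nat_lit 0)) (M (nat_lit 28898813761829208063))))) (T.h (T.h (T.h (P (nat_lit 0)) (T.h (M (nat_lit 286482203539050432823295)) (T.h (P (nat_lit 0)) (P (nat_lit 215364510542790656))))) (T.h (P (nat_lit 0)) (T.h (T.h (P (nat_lit 0)) (P (nat_lit 510769333716254720))) (P (nat_lit 0))))) (T.h (T.h (P (nat_lit 0)) (M (nat_lit 28898813761829208063))) (T.h (T.h (T.h (P (nat_lit 0)) (P (nat_lit 5606270613454848))) (P (nat_lit 0))) (P (nat_lit 0))))))), (P (nat_lit 0)), (P (nat_lit 0)), (T.h (T.h (P (nat_lit 0)) (T.h (T.h (P (nat_lit 10761264159112345455830237184)) (T.h (P (nat_lit 0)) (T.h (P (nat_lit 44057131584592925425664)) (T.h (P (nat_lit 0)) (P (nat_lit 33232012783714304)))))) (T.h (P (nat_lit 0)) (T.h (T.h (M (nat_lit 239678259340123308031)) (T.h (P (nat_lit 0)) (P (nat_lit 391172053358706688)))) (T.h (P (nat_lit 0)) (M (nat_lit 6083027579699199))))))) (T.h (T.h (T.h (P (nat_lit 0)) (T.h (M (nat_lit 16120402417381523331219455)) (T.h (P (nat_lit 0))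 (T.h (P (nat_lit 27908753054742085632)) (T.h (P (nat_lit 0)) (M (nat_lit 33881669526207))))))) (T.h (P (nat_lit 0)) (T.h (T.h (P (nat_lit 0)) (T.h (M (nat_lit 65573374711457382399)) (T.h (P (nat_lit 0)) (P (nat_lit 440929459787480))))) (T.h (P (nat_lit 0)) (T.h (T.h (P (nat_lit 0)) (M (nat_lit 48589310894703))) (P (nat_lit 0))))))) (T.h (T.h (P (nat_lit 0)) (T.h (T.h (P (nat_lit 44057131584592925425664)) (T.h (P (nat_lit 0)) (P (nat_lit 36504727480696832)))) (T.h (P (nat_lit 0)) (P (nat_lit 391172053358706688))))) (T.h (T.h (T.h (P (nat_lit 0)) (T.h (P (nat_lit 27908753054742085632)) (T.h (P (nat_lit 0)) (M (nat_lit 51133428393359))))) (T.h (P (nat_lit 0)) (T.h (T.h (P (nat_lit 0)) (P (nat_lit 440929459787480))) (P (nat_lit 0))))) (T.h (T.h (P (nat_lit 0)) (P (nat_lit 33232012783714304))) (T.h (T.h (T.h (P (nat_lit 0)) (M (nat_lit 33881669526207))) (P (nat_lit 0))) (P (nat_lit 0)))))))), (T.h (T.h (P (nat_lit 0)) (T.h (T.h (P (nat_lit 0)) (T.h (P (nat_lit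 140625031238847143539113984)) (T.h (P (nat_lit 0)) (T.h (P (nat_lit 236949001531557937152)) (T.h (P (nat_lit 0)) (M (nat_lit 216556818452527))))))) (T.h (P (nat_lit 0)) (T.h (T.h (P (nat_lit 0)) (T.h (P (nat_lit 236949001531557937152)) (T.h (P (nat_lit 0)) (P (nat_lit 119539678158720))))) (T.h (P (nat_lit 0)) (T.h (T.h (P (nat_lit 0)) (M (nat_lit 216556818452527))) (P (nat_lit 0)))))))) (T.h (T.h (T.h (M (nat_lit 50668298085092119346977701887)) (T.h (P (nat_lit 0)) (T.h (P (nat_lit 196856778047455427035136)) (T.h (P (nat_lit 0)) (M (nat_lit 330592782220787711)))))) (T.h (P (nat_lit 0)) (T.h (T.h (P (nat_lit 196856778047455427035136)) (T.h (P (nat_lit 0)) (P (nat_lit 2657302187266899968)))) (T.h (P (nat_lit 0)) (M (nat_lit 330592782220787711)))))) (T.h (T.h (P (nat_lit 0)) (T.h (T.h (P (nat_lit 0)) (T.h (M (nat_lit 263741200188655534079)) (T.h (P (nat_lit 0)) (P (nat_lit 138986061083440))))) (T.h (P (nat_lit 0)) (T.h (T.h (P (nat_lit 0)) (P (nat_lit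 138986061083440))) (P (nat_lit 0)))))) (T.h (T.h (T.h (M (nat_lit 48593471775423498027007)) (T.h (P (nat_lit 0)) (P (nat_lit 22193432475156480)))) (T.h (P (nat_lit 0)) (P (nat_lit 22193432475156480)))) (T.h (T.h (P (nat_lit 0)) (T.h (T.h (P (nat_lit 0)) (P (nat_lit 354904499076288))) (P (nat_lit 0)))) (P (nat_lit 27206592869531648))))))), (T.h (T.h (P (nat_lit 0)) (T.h (T.h (M (nat_lit 73688174316094309240714297343)) (T.h (P (nat_lit 0)) (T.h (M (nat_lit 726654696203499998281727)) (T.h (P (nat_lit 0)) (M (nat_lit 1696284430605844479)))))) (T.h (P (nat_lit 0)) (T.h (T.h (P (nat_lit 134279257036277961195520)) (T.h (P (nat_lit 0)) (M (nat_lit 307185335357767679)))) (T.h (P (nat_lit 0)) (M (nat_lit 139676563536871423))))))) (T.h (T.h (T.h (P (nat_lit 0)) (T.h (P (nat_lit 478282437530316076392382464)) (T.h (P (nat_lit 0)) (T.h (M (nat_lit 739671426795699175423)) (T.h (P (nat_lit 0)) (M (nat_lit 462128520591279))))))) (T.h (P (nat_lit 0)) (T.h (T.h (P (nat_lit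 0)) (T.h (P (nat_lit 1331577639341846953984)) (T.h (P (nat_lit 0)) (M (nat_lit 2142289766531599))))) (T.h (P (nat_lit 0)) (T.h (T.h (P (nat_lit 0)) (P (nat_lit 558493873015360))) (P (nat_lit 0))))))) (T.h (T.h (P (nat_lit 0)) (T.h (T.h (P (nat_lit 249519099618854889848832)) (T.h (P (nat_lit 0)) (P (nat_lit 3996098057559965696)))) (T.h (P (nat_lit 0)) (M (nat_lit 15462797180403711))))) (T.h (T.h (T.h (P (nat_lit 0)) (T.h (P (nat_lit 496675261125670993920)) (T.h (P (nat_lit 0)) (P (nat_lit 645090628846960))))) (T.h (P (nat_lit 0)) (T.h (T.h (P (nat_lit 0)) (M (nat_lit 280959651272239))) (P (nat_lit 0))))) (T.h (T.h (P (nat_lit 0)) (P (nat_lit 92734955848695808))) (T.h (T.h (T.h (P (nat_lit 0)) (M (nat_lit 152269385097519))) (P (nat_lit 0))) (P (nat_lit 0))))))))]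
def lQp_22 : List (T ℤ) := [(T.h (T.h (P (nat_lit 0)) (T.h (T.h (P (nat_lit 0)) (T.h (M (nat_lit 554268061982648718608826367)) (T.h (P (nat_lit 0)) (T.h (M (nat_lit 1509857225257798074367)) (T.h (P (nat_lit 0)) (P (nat_lit 346719340363264))))))) (T.h (P (nat_lit 0)) (T.h (T.h (P (nat_lit 0)) (T.h (M (nat_lit 443740358902233956351)) (T.h (P (nat_lit 0)) (M (nat_lit 204484843713391))))) (T.h (P (nat_lit 0)) (T.h (T.h (P (nat_lit 0)) (M (nat_lit 233783438575983))) (P (nat_lit 0)))))))) (T.h (T.h (T.h (P (nat_lit 19358757907562315046719586304)) (T.h (P (nat_lit 0)) (T.h (M (nat_lit 821825102410671628222463)) (T.h (P (nat_lit 0)) (M (nat_lit 822325341666951167)))))) (T.h (P (nat_lit 0)) (T.h (T.h (P (nat_lit 476423577245513565601792)) (T.h (P (nat_lit 0)) (M (nat_lit 1120090004433469439)))) (T.h (P (nat_lit 0)) (P (nat_lit 189194584109727744)))))) (T.h (T.h (P (nat_lit 0)) (T.h (T.h (P (nat_lit 0)) (T.h (P (nat_lit 1515155284965963333632)) (T.h (P (nat_lit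 0)) (M (nat_lit 209987776456831))))) (T.h (P (nat_lit 0)) (T.h (T.h (P (nat_lit 0)) (P (nat_lit 295459527894608))) (P (nat_lit 0)))))) (T.h (T.h (T.h (P (nat_lit 178031969107254934765568)) (T.h (P (nat_lit 0)) (M (nat_lit 787272089171591167)))) (T.h (P (nat_lit 0)) (P (nat_lit 64653329598595072)))) (T.h (T.h (P (nat_lit 0)) (T.h (T.h (P (nat_lit 0)) (M (nat_lit 842506019795263))) (P (nat_lit 0)))) (M (nat_lit 106449234473418751))))))), (T.h (T.h (P (nat_lit 0)) (T.h (T.h (M (nat_lit 133768656778760561275365752831)) (T.h (P (nat_lit 0)) (T.h (M (nat_lit 1083909940175908072587263)) (T.h (P (nat_lit 0)) (P (nat_lit 695645357607747584)))))) (T.h (P (nat_lit 0)) (T.h (T.h (P (nat_lit 29219963289720217141248)) (T.h (P (nat_lit 0)) (M (nat_lit 161074343272644607)))) (T.h (P (nat_lit 0)) (M (nat_lit 65373264351297535))))))) (T.h (T.h (T.h (P (nat_lit 0)) (T.h (M (nat_lit 71817996516439123818446847)) (T.h (P (nat_lit 0)) (M (nat_lit 237324560957846847487)))))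 (T.h (P (nat_lit 0)) (T.h (T.h (P (nat_lit 0)) (M (nat_lit 302479476523544870911))) (P (nat_lit 0))))) (T.h (T.h (P (nat_lit 0)) (T.h (T.h (P (nat_lit 265991905201773512491008)) (T.h (P (nat_lit 0)) (P (nat_lit 531307149684015104)))) (T.h (P (nat_lit 0)) (P (nat_lit 127190422486253568))))) (T.h (T.h (T.h (P (nat_lit 0)) (M (nat_lit 293417813422567849983))) (P (nat_lit 0))) (T.h (T.h (P (nat_lit 0)) (M (nat_lit 10578727072661503))) (P (nat_lit 0))))))), (P (nat_lit 0)), (P (nat_lit 0)), (T.h (T.h (T.h (P (nat_lit 0)) (T.h (P (nat_lit 14749881374374213291704582144)) (T.h (P (nat_lit 0)) (T.h (P (nat_lit 23967263814739944275968)) (T.h (P (nat_lit 0)) (M (nat_lit 15704723851444223))))))) (T.h (P (nat_lit 0)) (T.h (T.h (P (nat_lit 0)) (T.h (P (nat_lit 45578621915765286109184)) (T.h (P (nat_lit 0)) (P (nat_lit 73661871872507904))))) (T.h (P (nat_lit 0)) (T.h (T.h (P (nat_lit 0)) (P (nat_lit 82368393406119936))) (P (nat_lit 0))))))) (T.h (T.h (P (nat_lit 0))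 (T.h (T.h (P (nat_lit 16689975229306857561522176)) (T.h (P (nat_lit 0)) (T.h (M (nat_lit 162779457600087916543)) (T.h (P (nat_lit 0)) (P (nat_lit 168625746219080)))))) (T.h (P (nat_lit 0)) (T.h (T.h (M (nat_lit 69817159720112226303)) (T.h (P (nat_lit 0)) (P (nat_lit 194229106012304)))) (T.h (P (nat_lit 0)) (M (nat_lit 380826871142319))))))) (T.h (T.h (T.h (P (nat_lit 0)) (T.h (M (nat_lit 11789734253094215090175)) (T.h (P (nat_lit 0)) (P (nat_lit 8725983411961856))))) (T.h (P (nat_lit 0)) (T.h (T.h (P (nat_lit 0)) (M (nat_lit 192862439883210751))) (P (nat_lit 0))))) (T.h (T.h (P (nat_lit 0)) (T.h (T.h (P (nat_lit 365066461145726976)) (T.h (P (nat_lit 0)) (P (nat_lit 62213392378344)))) (T.h (P (nat_lit 0)) (P (nat_lit 382192262736496))))) (T.h (T.h (T.h (P (nat_lit 0)) (P (nat_lit 3093658246119424))) (P (nat_lit 0))) (T.h (T.h (P (nat_lit 0)) (P (nat_lit 26716995752968))) (P (nat_lit 0)))))))), (T.h (T.h (T.h (M (nat_lit 17594253107046821248647494107135))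 (T.h (P (nat_lit 0)) (T.h (P (nat_lit 21304803120963885708869632)) (T.h (P (nat_lit 0)) (T.h (M (nat_lit 10244170915285827583)) (T.h (P (nat_lit 0)) (P (nat_lit 35204148183136)))))))) (T.h (P (nat_lit 0)) (T.h (T.h (M (nat_lit 2350367630756910246920191)) (T.h (P (nat_lit 0)) (T.h (P (nat_lit 297407163401181855744)) (T.h (P (nat_lit 0)) (M (nat_lit 155512376735103)))))) (T.h (P (nat_lit 0)) (T.h (T.h (P (nat_lit 69696027185236672512)) (T.h (P (nat_lit 0)) (M (nat_lit 59244869932431)))) (T.h (P (nat_lit 0)) (M (nat_lit 16207010583903)))))))) (T.h (T.h (P (nat_lit 0)) (T.h (T.h (P (nat_lit 0)) (T.h (P (nat_lit 194674404354259844857856)) (T.h (P (nat_lit 0)) (M (nat_lit 285714783448793087))))) (T.h (P (nat_lit 0)) (T.h (T.h (P (nat_lit 0)) (P (nat_lit 187746599905984512))) (P (nat_lit 0)))))) (T.h (T.h (T.h (P (nat_lit 21304803120963885708869632)) (T.h (P (nat_lit 0)) (T.h (M (nat_lit 44292742647633674239)) (T.h (P (nat_lit 0)) (P (nat_lit 7477112616224))))))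 (T.h (P (nat_lit 0)) (T.h (T.h (P (nat_lit 297407163401181855744)) (T.h (P (nat_lit 0)) (P (nat_lit 158867203205152)))) (T.h (P (nat_lit 0)) (M (nat_lit 59244869932431)))))) (T.h (T.h (P (nat_lit 0)) (T.h (T.h (P (nat_lit 0)) (M (nat_lit 285714783448793087))) (P (nat_lit 0)))) (T.h (T.h (T.h (M (nat_lit 10244170915285827583)) (T.h (P (nat_lit 0)) (P (nat_lit 7477112616224)))) (T.h (P (nat_lit 0)) (M (nat_lit 155512376735103)))) (T.h (P (nat_lit 0)) (P (nat_lit 35204148183136)))))))), (T.h (T.h (T.h (P (nat_lit 0)) (T.h (M (nat_lit 73688174316094309240714297343)) (T.h (P (nat_lit 0)) (T.h (P (nat_lit 134279257036277961195520)) (T.h (P (nat_lit 0)) (M (nat_lit 139676563536871423))))))) (T.h (P (nat_lit 0)) (T.h (T.h (P (nat_lit 0)) (T.h (M (nat_lit 726654696203499998281727)) (T.h (P (nat_lit 0)) (M (nat_lit 307185335357767679))))) (T.h (P (nat_lit 0)) (T.h (T.h (P (nat_lit 0)) (M (nat_lit 1696284430605844479))) (P (nat_lit 0))))))) (T.h (T.h (P (nat_lit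 0)) (T.h (T.h (P (nat_lit 478282437530316076392382464)) (T.h (P (nat_lit 0)) (T.h (P (nat_lit 1331577639341846953984)) (T.h (P (nat_lit 0)) (P (nat_lit 558493873015360)))))) (T.h (P (nat_lit 0)) (T.h (T.h (M (nat_lit 739671426795699175423)) (T.h (P (nat_lit 0)) (M (nat_lit 2142289766531599)))) (T.h (P (nat_lit 0)) (M (nat_lit 462128520591279))))))) (T.h (T.h (T.h (P (nat_lit 0)) (T.h (P (nat_lit 249519099618854889848832)) (T.h (P (nat_lit 0)) (M (nat_lit 15462797180403711))))) (T.h (P (nat_lit 0)) (T.h (T.h (P (nat_lit 0)) (P (nat_lit 3996098057559965696))) (P (nat_lit 0))))) (T.h (T.h (P (nat_lit 0)) (T.h (T.h (P (nat_lit 496675261125670993920)) (T.h (P (nat_lit 0)) (M (nat_lit 280959651272239)))) (T.h (P (nat_lit 0)) (P (nat_lit 645090628846960))))) (T.h (T.h (T.h (P (nat_lit 0)) (P (nat_lit 92734955848695808))) (P (nat_lit 0))) (T.h (T.h (P (nat_lit 0)) (M (nat_lit 152269385097519))) (P (nat_lit 0)))))))), (T.h (T.h (T.h (M (nat_lit 92097496189341942435335758675967))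 (T.h (P (nat_lit 0)) (T.h (P (nat_lit 103826132449980981687877632)) (T.h (P (nat_lit 0)) (T.h (M (nat_lit 65786709903167979519)) (T.h (P (nat_lit 0)) (M (nat_lit 65631642162591)))))))) (T.h (P (nat_lit 0)) (T.h (T.h (P (nat_lit 103826132449980981687877632)) (T.h (P (nat_lit 0)) (T.h (M (nat_lit 718624041559339827199)) (T.h (P (nat_lit 0)) (P (nat_lit 892110877397168)))))) (T.h (P (nat_lit 0)) (T.h (T.h (M (nat_lit 65786709903167979519)) (T.h (P (nat_lit 0)) (P (nat_lit 892110877397168)))) (T.h (P (nat_lit 0)) (M (nat_lit 65631642162591)))))))) (T.h (T.h (P (nat_lit 0)) (T.h (T.h (P (nat_lit 0)) (T.h (P (nat_lit 1190323880092584575500288)) (T.h (P (nat_lit 0)) (P (nat_lit 169024480259538944))))) (T.h (P (nat_lit 0)) (T.h (T.h (P (nat_lit 0)) (P (nat_lit 169024480259538944))) (P (nat_lit 0)))))) (T.h (T.h (T.h (P (nat_lit 627887850013612944052453376)) (T.h (P (nat_lit 0)) (T.h (P (nat_lit 395518736283207729152)) (T.h (P (nat_lit 0)) (M (nat_lit 46665150786847))))))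 (T.h (P (nat_lit 0)) (T.h (T.h (P (nat_lit 395518736283207729152)) (T.h (P (nat_lit 0)) (M (nat_lit 2378042901799487)))) (T.h (P (nat_lit 0)) (M (nat_lit 46665150786847)))))) (T.h (T.h (P (nat_lit 0)) (T.h (T.h (P (nat_lit 0)) (P (nat_lit 1362370564348903424))) (P (nat_lit 0)))) (T.h (T.h (T.h (M (nat_lit 72963703496805187583)) (T.h (P (nat_lit 0)) (P (nat_lit 762953646744960)))) (T.h (P (nat_lit 0)) (P (nat_lit 762953646744960)))) (T.h (P (nat_lit 0)) (P (nat_lit 21455725471840))))))))]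
def lQp_23 : List (T ℤ) := [(T.h (T.h (T.h (P (nat_lit 0)) (T.h (M (nat_lit 58533588080269667130553663487)) (T.h (P (nat_lit 0)) (T.h (M (nat_lit 194793753450289104420863)) (T.h (P (nat_lit 0)) (P (nat_lit 15147995482423296))))))) (T.h (P (nat_lit 0)) (T.h (T.h (P (nat_lit 0)) (T.h (P (nat_lit 228364555603926038085632)) (T.h (P (nat_lit 0)) (P (nat_lit 522124404768768000))))) (T.h (P (nat_lit 0)) (T.h (T.h (P (nat_lit 0)) (P (nat_lit 125002415436529664))) (P (nat_lit 0))))))) (T.h (T.h (P (nat_lit 0)) (T.h (T.h (P (nat_lit 62512067805864717822459904)) (T.h (P (nat_lit 0)) (P (nat_lit 562928614136549998592)))) (T.h (P (nat_lit 0)) (P (nat_lit 152497253471509020672))))) (T.h (T.h (T.h (P (nat_lit 0)) (T.h (P (nat_lit 307387787828805941329920)) (T.h (P (nat_lit 0)) (M (nat_lit 144336044066504703))))) (T.h (P (nat_lit 0)) (T.h (T.h (P (nat_lit 0)) (M (nat_lit 1070033940780810239))) (P (nat_lit 0))))) (T.h (T.h (P (nat_lit 0)) (P (nat_lit 451596974912692027392)))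 (T.h (T.h (T.h (P (nat_lit 0)) (M (nat_lit 32282370373353471))) (P (nat_lit 0))) (P (nat_lit 0))))))), (P (nat_lit 0)), (P (nat_lit 0)), (T.h (T.h (P (nat_lit 0)) (T.h (T.h (M (nat_lit 2055456681931519564426772479)) (T.h (P (nat_lit 0)) (T.h (P (nat_lit 10035423191259844444160)) (T.h (P (nat_lit 0)) (M (nat_lit 4075656891629567)))))) (T.h (P (nat_lit 0)) (T.h (T.h (M (nat_lit 4248991952857825542143)) (T.h (P (nat_lit 0)) (M (nat_lit 48569078005039103)))) (T.h (P (nat_lit 0)) (P (nat_lit 3485283988078592))))))) (T.h (T.h (T.h (P (nat_lit 0)) (T.h (P (nat_lit 1705315292969379989291008)) (T.h (P (nat_lit 0)) (T.h (M (nat_lit 2377763215032451071)) (T.h (P (nat_lit 0)) (M (nat_lit 7158406918607))))))) (T.h (P (nat_lit 0)) (T.h (T.h (P (nat_lit 0)) (T.h (M (nat_lit 876704851256410111)) (T.h (P (nat_lit 0)) (M (nat_lit 12562440285327))))) (T.h (P (nat_lit 0)) (T.h (T.h (P (nat_lit 0)) (P (nat_lit 28937018074768))) (P (nat_lit 0))))))) (T.h (T.h (P (nat_lit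 0)) (T.h (T.h (P (nat_lit 2766668727805554982912)) (T.h (P (nat_lit 0)) (M (nat_lit 454002489458687)))) (T.h (P (nat_lit 0)) (P (nat_lit 8725047214145536))))) (T.h (T.h (T.h (P (nat_lit 0)) (T.h (M (nat_lit 2476425389400915967)) (T.h (P (nat_lit 0)) (M (nat_lit 2063416401615))))) (T.h (P (nat_lit 0)) (T.h (T.h (P (nat_lit 0)) (P (nat_lit 1415563387736))) (P (nat_lit 0))))) (T.h (T.h (P (nat_lit 0)) (P (nat_lit 2451024506814464))) (T.h (T.h (T.h (P (nat_lit 0)) (P (nat_lit 6242764166040))) (P (nat_lit 0))) (P (nat_lit 0)))))))), (T.h (T.h (P (nat_lit 0)) (T.h (T.h (P (nat_lit 0)) (T.h (P (nat_lit 139046393886373083755839488)) (T.h (P (nat_lit 0)) (T.h (P (nat_lit 4517300243741540352)) (T.h (P (nat_lit 0)) (M (nat_lit 34652740068447))))))) (T.h (P (nat_lit 0)) (T.h (T.h (P (nat_lit 0)) (T.h (P (nat_lit 317902782325436973056)) (T.h (P (nat_lit 0)) (P (nat_lit 6711510549152))))) (T.h (P (nat_lit 0)) (T.h (T.h (P (nat_lit 0)) (M (nat_lit 72084300084943)))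 (P (nat_lit 0)))))))) (T.h (T.h (T.h (M (nat_lit 16673976384456745519977332735)) (T.h (P (nat_lit 0)) (T.h (M (nat_lit 636810433992612380671)) (T.h (P (nat_lit 0)) (M (nat_lit 150854767535882239)))))) (T.h (P (nat_lit 0)) (T.h (T.h (M (nat_lit 276038670265591703535615)) (T.h (P (nat_lit 0)) (P (nat_lit 280027309767213056)))) (T.h (P (nat_lit 0)) (M (nat_lit 147136834461990911)))))) (T.h (T.h (P (nat_lit 0)) (T.h (T.h (P (nat_lit 0)) (T.h (P (nat_lit 49455307798848995328)) (T.h (P (nat_lit 0)) (P (nat_lit 16557836531408))))) (T.h (P (nat_lit 0)) (T.h (T.h (P (nat_lit 0)) (M (nat_lit 75934935373951))) (P (nat_lit 0)))))) (T.h (T.h (T.h (P (nat_lit 21987762614248631435264)) (T.h (P (nat_lit 0)) (M (nat_lit 92686055715602431)))) (T.h (P (nat_lit 0)) (P (nat_lit 432994986391224320)))) (T.h (T.h (P (nat_lit 0)) (T.h (T.h (P (nat_lit 0)) (P (nat_lit 4164924265456))) (P (nat_lit 0)))) (M (nat_lit 5203831536091135))))))), (T.h (T.h (P (nat_lit 0)) (T.h (T.h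 (P (nat_lit 69633019206119853098857922560)) (T.h (P (nat_lit 0)) (T.h (P (nat_lit 158227689711631811477504)) (T.h (P (nat_lit 0)) (M (nat_lit 299866337198079999)))))) (T.h (P (nat_lit 0)) (T.h (T.h (M (nat_lit 32165377150601421389823)) (T.h (P (nat_lit 0)) (P (nat_lit 1577009487523938304)))) (T.h (P (nat_lit 0)) (P (nat_lit 549582392462606336))))))) (T.h (T.h (T.h (P (nat_lit 0)) (T.h (M (nat_lit 195476179480490388299448319)) (T.h (P (nat_lit 0)) (T.h (P (nat_lit 117559666176704905216)) (T.h (P (nat_lit 0)) (P (nat_lit 40329959640400))))))) (T.h (P (nat_lit 0)) (T.h (T.h (P (nat_lit 0)) (T.h (M (nat_lit 733300534981362188287)) (T.h (P (nat_lit 0)) (P (nat_lit 327972253000560))))) (T.h (P (nat_lit 0)) (T.h (T.h (P (nat_lit 0)) (M (nat_lit 712331587072959))) (P (nat_lit 0))))))) (T.h (T.h (P (nat_lit 0)) (T.h (T.h (P (nat_lit 158227689711631811477504)) (T.h (P (nat_lit 0)) (M (nat_lit 185226729645146111)))) (T.h (P (nat_lit 0)) (P (nat_lit 1577009487523938304)))))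 (T.h (T.h (T.h (P (nat_lit 0)) (T.h (P (nat_lit 117559666176704905216)) (T.h (P (nat_lit 0)) (M (nat_lit 178876977698559))))) (T.h (P (nat_lit 0)) (T.h (T.h (P (nat_lit 0)) (P (nat_lit 327972253000560))) (P (nat_lit 0))))) (T.h (T.h (P (nat_lit 0)) (M (nat_lit 299866337198079999))) (T.h (T.h (T.h (P (nat_lit 0)) (P (nat_lit 40329959640400))) (P (nat_lit 0))) (P (nat_lit 0)))))))), (T.h (T.h (P (nat_lit 0)) (T.h (T.h (P (nat_lit 0)) (T.h (M (nat_lit 554268061982648718608826367)) (T.h (P (nat_lit 0)) (T.h (M (nat_lit 443740358902233956351)) (T.h (P (nat_lit 0)) (M (nat_lit 233783438575983))))))) (T.h (P (nat_lit 0)) (T.h (T.h (P (nat_lit 0)) (T.h (M (nat_lit 1509857225257798074367)) (T.h (P (nat_lit 0)) (M (nat_lit 204484843713391))))) (T.h (P (nat_lit 0)) (T.h (T.h (P (nat_lit 0)) (P (nat_lit 346719340363264))) (P (nat_lit 0)))))))) (T.h (T.h (T.h (P (nat_lit 19358757907562315046719586304)) (T.h (P (nat_lit 0)) (T.h (P (nat_lit 476423577245513565601792))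 (T.h (P (nat_lit 0)) (P (nat_lit 189194584109727744)))))) (T.h (P (nat_lit 0)) (T.h (T.h (M (nat_lit 821825102410671628222463)) (T.h (P (nat_lit 0)) (M (nat_lit 1120090004433469439)))) (T.h (P (nat_lit 0)) (M (nat_lit 822325341666951167)))))) (T.h (T.h (P (nat_lit 0)) (T.h (T.h (P (nat_lit 0)) (T.h (P (nat_lit 1515155284965963333632)) (T.h (P (nat_lit 0)) (P (nat_lit 295459527894608))))) (T.h (P (nat_lit 0)) (T.h (T.h (P (nat_lit 0)) (M (nat_lit 209987776456831))) (P (nat_lit 0)))))) (T.h (T.h (T.h (P (nat_lit 178031969107254934765568)) (T.h (P (nat_lit 0)) (P (nat_lit 64653329598595072)))) (T.h (P (nat_lit 0)) (M (nat_lit 787272089171591167)))) (T.h (T.h (P (nat_lit 0)) (T.h (T.h (P (nat_lit 0)) (M (nat_lit 842506019795263))) (P (nat_lit 0)))) (M (nat_lit 106449234473418751))))))), (T.h (T.h (P (nat_lit 0)) (T.h (T.h (M (nat_lit 58533588080269667130553663487)) (T.h (P (nat_lit 0)) (T.h (P (nat_lit 228364555603926038085632)) (T.h (P (nat_lit 0)) (P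 (nat_lit 125002415436529664)))))) (T.h (P (nat_lit 0)) (T.h (T.h (M (nat_lit 194793753450289104420863)) (T.h (P (nat_lit 0)) (P (nat_lit 522124404768768000)))) (T.h (P (nat_lit 0)) (P (nat_lit 15147995482423296))))))) (T.h (T.h (T.h (P (nat_lit 0)) (T.h (P (nat_lit 62512067805864717822459904)) (T.h (P (nat_lit 0)) (P (nat_lit 152497253471509020672))))) (T.h (P (nat_lit 0)) (T.h (T.h (P (nat_lit 0)) (P (nat_lit 562928614136549998592))) (P (nat_lit 0))))) (T.h (T.h (P (nat_lit 0)) (T.h (T.h (P (nat_lit 307387787828805941329920)) (T.h (P (nat_lit 0)) (M (nat_lit 1070033940780810239)))) (T.h (P (nat_lit 0)) (M (nat_lit 144336044066504703))))) (T.h (T.h (T.h (P (nat_lit 0)) (P (nat_lit 451596974912692027392))) (P (nat_lit 0))) (T.h (T.h (P (nat_lit 0)) (M (nat_lit 32282370373353471))) (P (nat_lit 0)))))))]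
def lQp_24 : List (T ℤ) := [(P (nat_lit 0)), (P (nat_lit 0)), (T.h (T.h (T.h (M (nat_lit 16310421525849164254090450960383)) (T.h (P (nat_lit 0)) (T.h (M (nat_lit 1377791761044098531721215)) (T.h (P (nat_lit 0)) (T.h (P (nat_lit 4136264342167355392)) (T.h (P (nat_lit 0)) (M (nat_lit 2258787755471)))))))) (T.h (P (nat_lit 0)) (T.h (T.h (P (nat_lit 11683839568522379406606336)) (T.h (P (nat_lit 0)) (T.h (M (nat_lit 48808837752610095103)) (T.h (P (nat_lit 0)) (M (nat_lit 27352561037247)))))) (T.h (P (nat_lit 0)) (T.h (T.h (M (nat_lit 2035208997841141759)) (T.h (P (nat_lit 0)) (P (nat_lit 65805890694080)))) (T.h (P (nat_lit 0)) (P (nat_lit 63359498543120)))))))) (T.h (T.h (P (nat_lit 0)) (T.h (T.h (P (nat_lit 0)) (T.h (P (nat_lit 10010703217678719385600)) (T.h (P (nat_lit 0)) (M (nat_lit 61646594252767231))))) (T.h (P (nat_lit 0)) (T.h (T.h (P (nat_lit 0)) (M (nat_lit 190586810511065087))) (P (nat_lit 0)))))) (T.h (T.h (T.h (P (nat_lit 10121519114408553399451648))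 (T.h (P (nat_lit 0)) (T.h (M (nat_lit 244134082416476159)) (T.h (P (nat_lit 0)) (P (nat_lit 7778266412928)))))) (T.h (P (nat_lit 0)) (T.h (T.h (P (nat_lit 61914797905744494592)) (T.h (P (nat_lit 0)) (M (nat_lit 2428238407215)))) (T.h (P (nat_lit 0)) (P (nat_lit 439341944415168)))))) (T.h (T.h (P (nat_lit 0)) (T.h (T.h (P (nat_lit 0)) (P (nat_lit 62959274422501376))) (P (nat_lit 0)))) (T.h (T.h (T.h (M (nat_lit 2857327944320155647)) (T.h (P (nat_lit 0)) (P (nat_lit 7834943220656)))) (T.h (P (nat_lit 0)) (M (nat_lit 25450372979775)))) (T.h (P (nat_lit 0)) (P (nat_lit 7181325551792)))))))), (T.h (T.h (T.h (P (nat_lit 0)) (T.h (P (nat_lit 49729393334821837117149151232)) (T.h (P (nat_lit 0)) (T.h (M (nat_lit 147949350077792008536063)) (T.h (P (nat_lit 0)) (P (nat_lit 39457157562138624))))))) (T.h (P (nat_lit 0)) (T.h (T.h (P (nat_lit 0)) (T.h (M (nat_lit 73843120531193250971647)) (T.h (P (nat_lit 0)) (M (nat_lit 266648551588659199))))) (T.h (P (nat_lit 0))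 (T.h (T.h (P (nat_lit 0)) (M (nat_lit 415386975931596799))) (P (nat_lit 0))))))) (T.h (T.h (P (nat_lit 0)) (T.h (T.h (M (nat_lit 21803050347179325362536447)) (T.h (P (nat_lit 0)) (T.h (P (nat_lit 196772623904814399488)) (T.h (P (nat_lit 0)) (M (nat_lit 44698048341039)))))) (T.h (P (nat_lit 0)) (T.h (T.h (P (nat_lit 1399096577830976225280)) (T.h (P (nat_lit 0)) (M (nat_lit 441513584918559)))) (T.h (P (nat_lit 0)) (M (nat_lit 50797908111999))))))) (T.h (T.h (T.h (P (nat_lit 0)) (T.h (M (nat_lit 40371155272180078477311)) (T.h (P (nat_lit 0)) (P (nat_lit 10659707077853184))))) (T.h (P (nat_lit 0)) (T.h (T.h (P (nat_lit 0)) (M (nat_lit 271640997523259391))) (P (nat_lit 0))))) (T.h (T.h (P (nat_lit 0)) (T.h (T.h (M (nat_lit 252614769847746691071)) (T.h (P (nat_lit 0)) (P (nat_lit 20503582987040)))) (T.h (P (nat_lit 0)) (M (nat_lit 711631137030639))))) (T.h (T.h (T.h (P (nat_lit 0)) (M (nat_lit 147024609411497983))) (P (nat_lit 0))) (T.h (T.h (P (nat_lit 0))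 (M (nat_lit 43199649132079))) (P (nat_lit 0)))))))), (T.h (T.h (T.h (P (nat_lit 26077830506595865461661229907968)) (T.h (P (nat_lit 0)) (T.h (M (nat_lit 318182497165845239080943615)) (T.h (P (nat_lit 0)) (T.h (P (nat_lit 85790700551431782400)) (T.h (P (nat_lit 0)) (M (nat_lit 48388242410463)))))))) (T.h (P (nat_lit 0)) (T.h (T.h (M (nat_lit 264928016980467986982764543)) (T.h (P (nat_lit 0)) (T.h (M (nat_lit 693921528551026196479)) (T.h (P (nat_lit 0)) (M (nat_lit 153371460460767)))))) (T.h (P (nat_lit 0)) (T.h (T.h (M (nat_lit 218518617920488079359)) (T.h (P (nat_lit 0)) (P (nat_lit 60230847533472)))) (T.h (P (nat_lit 0)) (P (nat_lit 329438584916672)))))))) (T.h (T.h (P (nat_lit 0)) (T.h (T.h (P (nat_lit 0)) (T.h (P (nat_lit 318982793860663945986048)) (T.h (P (nat_lit 0)) (M (nat_lit 193123563191042047))))) (T.h (P (nat_lit 0)) (T.h (T.h (P (nat_lit 0)) (M (nat_lit 1483349204858044415))) (P (nat_lit 0)))))) (T.h (T.h (T.h (M (nat_lit 318182497165845239080943615))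 (T.h (P (nat_lit 0)) (T.h (P (nat_lit 179141532945106337792)) (T.h (P (nat_lit 0)) (P (nat_lit 115714159541728)))))) (T.h (P (nat_lit 0)) (T.h (T.h (M (nat_lit 693921528551026196479)) (T.h (P (nat_lit 0)) (P (nat_lit 1545953600471104)))) (T.h (P (nat_lit 0)) (P (nat_lit 60230847533472)))))) (T.h (T.h (P (nat_lit 0)) (T.h (T.h (P (nat_lit 0)) (M (nat_lit 193123563191042047))) (P (nat_lit 0)))) (T.h (T.h (T.h (P (nat_lit 85790700551431782400)) (T.h (P (nat_lit 0)) (P (nat_lit 115714159541728)))) (T.h (P (nat_lit 0)) (M (nat_lit 153371460460767)))) (T.h (P (nat_lit 0)) (M (nat_lit 48388242410463)))))))), (T.h (T.h (T.h (P (nat_lit 0)) (T.h (M (nat_lit 133768656778760561275365752831)) (T.h (P (nat_lit 0)) (T.h (P (nat_lit 29219963289720217141248)) (T.h (P (nat_lit 0)) (M (nat_lit 65373264351297535))))))) (T.h (P (nat_lit 0)) (T.h (T.h (P (nat_lit 0)) (T.h (M (nat_lit 1083909940175908072587263)) (T.h (P (nat_lit 0)) (M (nat_lit 161074343272644607))))) (T.h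 (P (nat_lit 0)) (T.h (T.h (P (nat_lit 0)) (P (nat_lit 695645357607747584))) (P (nat_lit 0))))))) (T.h (T.h (P (nat_lit 0)) (T.h (T.h (M (nat_lit 71817996516439123818446847)) (T.h (P (nat_lit 0)) (M (nat_lit 302479476523544870911)))) (T.h (P (nat_lit 0)) (M (nat_lit 237324560957846847487))))) (T.h (T.h (T.h (P (nat_lit 0)) (T.h (P (nat_lit 265991905201773512491008)) (T.h (P (nat_lit 0)) (P (nat_lit 127190422486253568))))) (T.h (P (nat_lit 0)) (T.h (T.h (P (nat_lit 0)) (P (nat_lit 531307149684015104))) (P (nat_lit 0))))) (T.h (T.h (P (nat_lit 0)) (M (nat_lit 293417813422567849983))) (T.h (T.h (T.h (P (nat_lit 0)) (M (nat_lit 10578727072661503))) (P (nat_lit 0))) (P (nat_lit 0))))))), (P (nat_lit 0)), (P (nat_lit 0))]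
def lQp_25 : List (T ℤ) := [(T.h (T.h (P (nat_lit 0)) (T.h (T.h (P (nat_lit 21123593321619357335306633216)) (T.h (P (nat_lit 0)) (T.h (P (nat_lit 50430542327613638049792)) (T.h (P (nat_lit 0)) (M (nat_lit 55334082025422847)))))) (T.h (P (nat_lit 0)) (T.h (T.h (M (nat_lit 15010200804235572936703)) (T.h (P (nat_lit 0)) (P (nat_lit 165041657512427520)))) (T.h (P (nat_lit 0)) (P (nat_lit 154004297327050752))))))) (T.h (T.h (T.h (P (nat_lit 0)) (T.h (M (nat_lit 2581634979122964043137023)) (T.h (P (nat_lit 0)) (T.h (P (nat_lit 32675668490924851200)) (T.h (P (nat_lit 0)) (M (nat_lit 16361497986479))))))) (T.h (P (nat_lit 0)) (T.h (T.h (P (nat_lit 0)) (T.h (M (nat_lit 58709018431610421247)) (T.h (P (nat_lit 0)) (P (nat_lit 107680149905440))))) (T.h (P (nat_lit 0)) (T.h (T.h (P (nat_lit 0)) (M (nat_lit 58319323554319))) (P (nat_lit 0))))))) (T.h (T.h (P (nat_lit 0)) (T.h (T.h (M (nat_lit 5919988966405504499711)) (T.h (P (nat_lit 0)) (M (nat_lit 50862758182420479))))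 (T.h (P (nat_lit 0)) (P (nat_lit 58402257737056256))))) (T.h (T.h (T.h (P (nat_lit 0)) (T.h (P (nat_lit 21661246487506452480)) (T.h (P (nat_lit 0)) (M (nat_lit 66069034018639))))) (T.h (P (nat_lit 0)) (T.h (T.h (P (nat_lit 0)) (P (nat_lit 103123823580640))) (P (nat_lit 0))))) (T.h (T.h (P (nat_lit 0)) (P (nat_lit 10609186901458944))) (T.h (T.h (T.h (P (nat_lit 0)) (M (nat_lit 33653347756399))) (P (nat_lit 0))) (P (nat_lit 0)))))))), (T.h (T.h (P (nat_lit 0)) (T.h (T.h (P (nat_lit 0)) (T.h (M (nat_lit 24686943158788964208345087)) (T.h (P (nat_lit 0)) (T.h (M (nat_lit 237096645803731058687)) (T.h (P (nat_lit 0)) (P (nat_lit 56760557853824))))))) (T.h (P (nat_lit 0)) (T.h (T.h (P (nat_lit 0)) (T.h (P (nat_lit 630235638186064740352)) (T.h (P (nat_lit 0)) (P (nat_lit 186187917737008))))) (T.h (P (nat_lit 0)) (T.h (T.h (P (nat_lit 0)) (P (nat_lit 323965957366480))) (P (nat_lit 0)))))))) (T.h (T.h (T.h (M (nat_lit 4917936981971218361554567167)) (T.h (P (nat_lit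 0)) (T.h (P (nat_lit 69494433174587336294400)) (T.h (P (nat_lit 0)) (M (nat_lit 2208243714326527)))))) (T.h (P (nat_lit 0)) (T.h (T.h (P (nat_lit 419121629837070438498304)) (T.h (P (nat_lit 0)) (M (nat_lit 395215621298323455)))) (T.h (P (nat_lit 0)) (M (nat_lit 2451348865101381631)))))) (T.h (T.h (P (nat_lit 0)) (T.h (T.h (P (nat_lit 0)) (T.h (M (nat_lit 126279138848112902143)) (T.h (P (nat_lit 0)) (M (nat_lit 58086204154527))))) (T.h (P (nat_lit 0)) (T.h (T.h (P (nat_lit 0)) (P (nat_lit 357255833203280))) (P (nat_lit 0)))))) (T.h (T.h (T.h (M (nat_lit 63985465020640980369407)) (T.h (P (nat_lit 0)) (M (nat_lit 112431178090102783)))) (T.h (P (nat_lit 0)) (M (nat_lit 325957275491155967)))) (T.h (T.h (P (nat_lit 0)) (T.h (T.h (P (nat_lit 0)) (P (nat_lit 53051936705152))) (P (nat_lit 0)))) (M (nat_lit 37867905166016511))))))), (T.h (T.h (P (nat_lit 0)) (T.h (T.h (P (nat_lit 29376288194465710613708406784)) (T.h (P (nat_lit 0)) (T.h (M (nat_lit 286482203539050432823295))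 (T.h (P (nat_lit 0)) (P (nat_lit 5606270613454848)))))) (T.h (P (nat_lit 0)) (T.h (T.h (P (nat_lit 35093809422728020623360)) (T.h (P (nat_lit 0)) (P (nat_lit 215364510542790656)))) (T.h (P (nat_lit 0)) (P (nat_lit 488645990257197056))))))) (T.h (T.h (T.h (P (nat_lit 0)) (T.h (P (nat_lit 101656164803558409808904192)) (T.h (P (nat_lit 0)) (M (nat_lit 28898813761829208063))))) (T.h (P (nat_lit 0)) (T.h (T.h (P (nat_lit 0)) (M (nat_lit 369651032577932263423))) (P (nat_lit 0))))) (T.h (T.h (P (nat_lit 0)) (T.h (T.h (M (nat_lit 286482203539050432823295)) (T.h (P (nat_lit 0)) (P (nat_lit 510769333716254720)))) (T.h (P (nat_lit 0)) (P (nat_lit 215364510542790656))))) (T.h (T.h (T.h (P (nat_lit 0)) (M (nat_lit 28898813761829208063))) (P (nat_lit 0))) (T.h (T.h (P (nat_lit 0)) (P (nat_lit 5606270613454848))) (P (nat_lit 0))))))), (P (nat_lit 0)), (P (nat_lit 0)), (T.h (T.h (T.h (P (nat_lit 648354378398368560434359828480)) (T.h (P (nat_lit 0)) (T.h (P (nat_lit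 405226602017100610404352)) (T.h (P (nat_lit 0)) (T.h (M (nat_lit 5430699604901363711)) (T.h (P (nat_lit 0)) (P (nat_lit 3821769693456)))))))) (T.h (P (nat_lit 0)) (T.h (T.h (P (nat_lit 7052920268108960389660672)) (T.h (P (nat_lit 0)) (T.h (P (nat_lit 34010185905997873152)) (T.h (P (nat_lit 0)) (M (nat_lit 17832029004943)))))) (T.h (P (nat_lit 0)) (T.h (T.h (P (nat_lit 192230385199957934080)) (T.h (P (nat_lit 0)) (P (nat_lit 33231154151888)))) (T.h (P (nat_lit 0)) (P (nat_lit 130481994932784)))))))) (T.h (T.h (P (nat_lit 0)) (T.h (T.h (P (nat_lit 0)) (T.h (M (nat_lit 44952741325817528713215)) (T.h (P (nat_lit 0)) (M (nat_lit 36359330566864895))))) (T.h (P (nat_lit 0)) (T.h (T.h (P (nat_lit 0)) (P (nat_lit 150087276435439616))) (P (nat_lit 0)))))) (T.h (T.h (T.h (P (nat_lit 6029595519567029736570880)) (T.h (P (nat_lit 0)) (T.h (P (nat_lit 1458250011144880128)) (T.h (P (nat_lit 0)) (M (nat_lit 49126568938831)))))) (T.h (P (nat_lit 0)) (T.h (T.h (M (nat_lit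 80224259377891115007)) (T.h (P (nat_lit 0)) (P (nat_lit 109922351265936)))) (T.h (P (nat_lit 0)) (P (nat_lit 78162321228816)))))) (T.h (T.h (P (nat_lit 0)) (T.h (T.h (P (nat_lit 0)) (P (nat_lit 134958845215637504))) (P (nat_lit 0)))) (T.h (T.h (T.h (P (nat_lit 22782046953774514176)) (T.h (P (nat_lit 0)) (M (nat_lit 52667779269951)))) (T.h (P (nat_lit 0)) (P (nat_lit 129681242717312)))) (T.h (P (nat_lit 0)) (P (nat_lit 1586148909312)))))))), (T.h (T.h (T.h (P (nat_lit 0)) (T.h (P (nat_lit 3852606373610495334007439360)) (T.h (P (nat_lit 0)) (T.h (M (nat_lit 22505124835361908850687)) (T.h (P (nat_lit 0)) (P (nat_lit 4950061242613760))))))) (T.h (P (nat_lit 0)) (T.h (T.h (P (nat_lit 0)) (T.h (P (nat_lit 245447685447027747979264)) (T.h (P (nat_lit 0)) (P (nat_lit 47461522852282368))))) (T.h (P (nat_lit 0)) (T.h (T.h (P (nat_lit 0)) (P (nat_lit 282237081034981376))) (P (nat_lit 0))))))) (T.h (T.h (P (nat_lit 0)) (T.h (T.h (P (nat_lit 59607409781330600397897728))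 (T.h (P (nat_lit 0)) (M (nat_lit 114307951635558563839)))) (T.h (P (nat_lit 0)) (M (nat_lit 1752441552205047136255))))) (T.h (T.h (T.h (P (nat_lit 0)) (T.h (M (nat_lit 6837357369292922814463)) (T.h (P (nat_lit 0)) (M (nat_lit 46638150502907903))))) (T.h (P (nat_lit 0)) (T.h (T.h (P (nat_lit 0)) (P (nat_lit 110716026291683328))) (P (nat_lit 0))))) (T.h (T.h (P (nat_lit 0)) (M (nat_lit 18434105099233001471))) (T.h (T.h (T.h (P (nat_lit 0)) (M (nat_lit 59169193778446335))) (P (nat_lit 0))) (P (nat_lit 0))))))), (P (nat_lit 0))]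
def lQp_26 : List (T ℤ) := [(P (nat_lit 0)), (T.h (T.h (P (nat_lit 0)) (T.h (T.h (M (nat_lit 3166846873336167602856132607)) (T.h (P (nat_lit 0)) (T.h (M (nat_lit 35266817870928178839551)) (T.h (P (nat_lit 0)) (P (nat_lit 384693298659328)))))) (T.h (P (nat_lit 0)) (T.h (T.h (P (nat_lit 14344602706940511911936)) (T.h (P (nat_lit 0)) (P (nat_lit 12694745432686592)))) (T.h (P (nat_lit 0)) (P (nat_lit 65582421789278208))))))) (T.h (T.h (T.h (P (nat_lit 0)) (T.h (M (nat_lit 9767776142240778154934271)) (T.h (P (nat_lit 0)) (M (nat_lit 11252920928419446783))))) (T.h (P (nat_lit 0)) (T.h (T.h (P (nat_lit 0)) (P (nat_lit 145672624222347722752))) (P (nat_lit 0))))) (T.h (T.h (P (nat_lit 0)) (T.h (T.h (M (nat_lit 54548994911447583555583)) (T.h (P (nat_lit 0)) (P (nat_lit 41064510206017536)))) (T.h (P (nat_lit 0)) (P (nat_lit 58682876268085248))))) (T.h (T.h (T.h (P (nat_lit 0)) (P (nat_lit 181177798486917120))) (P (nat_lit 0))) (T.h (T.h (P (nat_lit 0)) (P (nat_lit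 42086344733622272))) (P (nat_lit 0))))))), (P (nat_lit 0)), (P (nat_lit 0)), (P (nat_lit 0)), (P (nat_lit 0)), (P (nat_lit 0)), (T.h (T.h (P (nat_lit 0)) (T.h (T.h (P (nat_lit 0)) (T.h (M (nat_lit 11058409231915517491544063)) (T.h (P (nat_lit 0)) (T.h (P (nat_lit 14467366569325363200)) (T.h (P (nat_lit 0)) (P (nat_lit 25228408055952))))))) (T.h (P (nat_lit 0)) (T.h (T.h (P (nat_lit 0)) (T.h (P (nat_lit 11501981165653327872)) (T.h (P (nat_lit 0)) (P (nat_lit 56548575864128))))) (T.h (P (nat_lit 0)) (T.h (T.h (P (nat_lit 0)) (P (nat_lit 16978705696584))) (P (nat_lit 0)))))))) (T.h (T.h (T.h (P (nat_lit 9662406685631375686768787456)) (T.h (P (nat_lit 0)) (T.h (M (nat_lit 6265702064994287353855)) (T.h (P (nat_lit 0)) (P (nat_lit 62734219519557632)))))) (T.h (P (nat_lit 0)) (T.h (T.h (M (nat_lit 6831777259271273578495)) (T.h (P (nat_lit 0)) (M (nat_lit 71706097648828415)))) (T.h (P (nat_lit 0)) (P (nat_lit 725418309091328)))))) (T.h (T.h (P (nat_lit 0))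 (T.h (T.h (P (nat_lit 0)) (T.h (M (nat_lit 41046958461903962111)) (T.h (P (nat_lit 0)) (P (nat_lit 30631383465104))))) (T.h (P (nat_lit 0)) (T.h (T.h (P (nat_lit 0)) (P (nat_lit 17713433119432))) (P (nat_lit 0)))))) (T.h (T.h (T.h (M (nat_lit 308556873341813653503)) (T.h (P (nat_lit 0)) (M (nat_lit 1053344965394431)))) (T.h (P (nat_lit 0)) (P (nat_lit 9890563182690304)))) (T.h (T.h (P (nat_lit 0)) (T.h (T.h (P (nat_lit 0)) (M (nat_lit 20903774469775))) (P (nat_lit 0)))) (M (nat_lit 9054777712148479)))))))]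
def lQp_27 : List (T ℤ) := [(T.h (T.h (P (nat_lit 0)) (T.h (T.h (M (nat_lit 21439020041541902305889091583)) (T.h (P (nat_lit 0)) (T.h (M (nat_lit 3327027577897286107135)) (T.h (P (nat_lit 0)) (M (nat_lit 131088948266926079)))))) (T.h (P (nat_lit 0)) (T.h (T.h (P (nat_lit 17368237073517154140160)) (T.h (P (nat_lit 0)) (M (nat_lit 1071105886158847)))) (T.h (P (nat_lit 0)) (P (nat_lit 3881363090505728))))))) (T.h (T.h (T.h (P (nat_lit 0)) (T.h (M (nat_lit 39555283947184431235596287)) (T.h (P (nat_lit 0)) (T.h (M (nat_lit 287531455608975785983)) (T.h (P (nat_lit 0)) (P (nat_lit 5629987302560))))))) (T.h (P (nat_lit 0)) (T.h (T.h (P (nat_lit 0)) (T.h (P (nat_lit 55318303577196199936)) (T.h (P (nat_lit 0)) (M (nat_lit 138743880398239))))) (T.h (P (nat_lit 0)) (T.h (T.h (P (nat_lit 0)) (P (nat_lit 33481742598912))) (P (nat_lit 0))))))) (T.h (T.h (P (nat_lit 0)) (T.h (T.h (M (nat_lit 3066642079731815546879)) (T.h (P (nat_lit 0)) (P (nat_lit 1332017585995776))))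 (T.h (P (nat_lit 0)) (M (nat_lit 43936759381704703))))) (T.h (T.h (T.h (P (nat_lit 0)) (T.h (M (nat_lit 30022983081594454015)) (T.h (P (nat_lit 0)) (P (nat_lit 346327786339536))))) (T.h (P (nat_lit 0)) (T.h (T.h (P (nat_lit 0)) (P (nat_lit 18354663940000))) (P (nat_lit 0))))) (T.h (T.h (P (nat_lit 0)) (P (nat_lit 2510440788918272))) (T.h (T.h (T.h (P (nat_lit 0)) (M (nat_lit 20915930440255))) (P (nat_lit 0))) (P (nat_lit 0)))))))), (T.h (T.h (P (nat_lit 0)) (T.h (T.h (P (nat_lit 0)) (T.h (P (nat_lit 59228253820624305253253120)) (T.h (P (nat_lit 0)) (T.h (P (nat_lit 177530439701318598656)) (T.h (P (nat_lit 0)) (P (nat_lit 115487932780160))))))) (T.h (P (nat_lit 0)) (T.h (T.h (P (nat_lit 0)) (T.h (M (nat_lit 128776015067756888063)) (T.h (P (nat_lit 0)) (M (nat_lit 216660159992639))))) (T.h (P (nat_lit 0)) (T.h (T.h (P (nat_lit 0)) (M (nat_lit 12924331522799))) (P (nat_lit 0)))))))) (T.h (T.h (T.h (M (nat_lit 20775842496571973614966931455)) (T.h (P (nat_lit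 0)) (T.h (M (nat_lit 242381418927757509787647)) (T.h (P (nat_lit 0)) (M (nat_lit 534317465604161535)))))) (T.h (P (nat_lit 0)) (T.h (T.h (P (nat_lit 2528523741828411817984)) (T.h (P (nat_lit 0)) (M (nat_lit 53650938488881151)))) (T.h (P (nat_lit 0)) (M (nat_lit 145499149792968703)))))) (T.h (T.h (P (nat_lit 0)) (T.h (T.h (P (nat_lit 0)) (T.h (P (nat_lit 131191371818267049984)) (T.h (P (nat_lit 0)) (P (nat_lit 404751258890800))))) (T.h (P (nat_lit 0)) (T.h (T.h (P (nat_lit 0)) (M (nat_lit 162100968221039))) (P (nat_lit 0)))))) (T.h (T.h (T.h (M (nat_lit 31027422118557268312063)) (T.h (P (nat_lit 0)) (M (nat_lit 214374929667096575)))) (T.h (P (nat_lit 0)) (M (nat_lit 72660222417698815)))) (T.h (T.h (P (nat_lit 0)) (T.h (T.h (P (nat_lit 0)) (M (nat_lit 168865378043199))) (P (nat_lit 0)))) (P (nat_lit 80492444654338048))))))), (T.h (T.h (P (nat_lit 0)) (T.h (T.h (P (nat_lit 30592359351173919146378264576)) (T.h (P (nat_lit 0)) (T.h (M (nat_lit 126206691015345766924287))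 (T.h (P (nat_lit 0)) (P (nat_lit 153230669436993536)))))) (T.h (P (nat_lit 0)) (T.h (T.h (M (nat_lit 18885243591323641970687)) (T.h (P (nat_lit 0)) (M (nat_lit 105060780253347839)))) (T.h (P (nat_lit 0)) (M (nat_lit 20021605155700735))))))) (T.h (T.h (T.h (P (nat_lit 0)) (T.h (M (nat_lit 58042082194932585631580159)) (T.h (P (nat_lit 0)) (T.h (P (nat_lit 169026438565197774848)) (T.h (P (nat_lit 0)) (M (nat_lit 202010613196303))))))) (T.h (P (nat_lit 0)) (T.h (T.h (P (nat_lit 0)) (T.h (M (nat_lit 23453482314404724735)) (T.h (P (nat_lit 0)) (M (nat_lit 160765879742335))))) (T.h (P (nat_lit 0)) (T.h (T.h (P (nat_lit 0)) (M (nat_lit 46938132056991))) (P (nat_lit 0))))))) (T.h (T.h (P (nat_lit 0)) (T.h (T.h (M (nat_lit 47570282094454540075007)) (T.h (P (nat_lit 0)) (P (nat_lit 142951232725958656)))) (T.h (P (nat_lit 0)) (P (nat_lit 5924892080504832))))) (T.h (T.h (T.h (P (nat_lit 0)) (T.h (M (nat_lit 72074611859338035199)) (T.h (P (nat_lit 0)) (M (nat_lit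 40807260833679))))) (T.h (P (nat_lit 0)) (T.h (T.h (P (nat_lit 0)) (M (nat_lit 153951304182895))) (P (nat_lit 0))))) (T.h (T.h (P (nat_lit 0)) (M (nat_lit 100432000003391487))) (T.h (T.h (T.h (P (nat_lit 0)) (P (nat_lit 9843633707952))) (P (nat_lit 0))) (P (nat_lit 0)))))))), (T.h (T.h (P (nat_lit 0)) (T.h (T.h (P (nat_lit 0)) (T.h (M (nat_lit 68480659706341009634885631)) (T.h (P (nat_lit 0)) (P (nat_lit 76622548805082939392))))) (T.h (P (nat_lit 0)) (T.h (T.h (P (nat_lit 0)) (M (nat_lit 11930534835996590079))) (P (nat_lit 0)))))) (T.h (T.h (T.h (M (nat_lit 9479945226855203678944493567)) (T.h (P (nat_lit 0)) (T.h (P (nat_lit 252405377024740638588928)) (T.h (P (nat_lit 0)) (M (nat_lit 158948710125174783)))))) (T.h (P (nat_lit 0)) (T.h (T.h (P (nat_lit 15229871120192928481280)) (T.h (P (nat_lit 0)) (M (nat_lit 48863964941058047)))) (T.h (P (nat_lit 0)) (M (nat_lit 27031974620561407)))))) (T.h (T.h (P (nat_lit 0)) (T.h (T.h (P (nat_lit 0)) (M (nat_lit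 28561419631895511039))) (P (nat_lit 0)))) (T.h (T.h (T.h (P (nat_lit 8055960460481364230144)) (T.h (P (nat_lit 0)) (P (nat_lit 73784448161644544)))) (T.h (P (nat_lit 0)) (M (nat_lit 67886065340547071)))) (T.h (P (nat_lit 0)) (P (nat_lit 3604578148319232))))))), (P (nat_lit 0)), (P (nat_lit 0)), (T.h (T.h (T.h (P (nat_lit 4003925593441881032265673211904)) (T.h (P (nat_lit 0)) (T.h (P (nat_lit 16734569273838329772638208)) (T.h (P (nat_lit 0)) (T.h (M (nat_lit 9010077383461437439)) (T.h (P (nat_lit 0)) (P (nat_lit 25183938140720)))))))) (T.h (P (nat_lit 0)) (T.h (T.h (P (nat_lit 20325167141636930082439168)) (T.h (P (nat_lit 0)) (T.h (P (nat_lit 81171585130385375232)) (T.h (P (nat_lit 0)) (M (nat_lit 21082120614943)))))) (T.h (P (nat_lit 0)) (T.h (T.h (M (nat_lit 12051081045290778623)) (T.h (P (nat_lit 0)) (P (nat_lit 28549522906480)))) (T.h (P (nat_lit 0)) (P (nat_lit 10333849775936)))))))) (T.h (T.h (P (nat_lit 0)) (T.h (T.h (P (nat_lit 0)) (T.h (P (nat_lit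 184282931739216937222144)) (T.h (P (nat_lit 0)) (M (nat_lit 195834303825641471))))) (T.h (P (nat_lit 0)) (T.h (T.h (P (nat_lit 0)) (M (nat_lit 35065780278001663))) (P (nat_lit 0)))))) (T.h (T.h (T.h (P (nat_lit 16734569273838329772638208)) (T.h (P (nat_lit 0)) (T.h (P (nat_lit 96789512615666647040)) (T.h (P (nat_lit 0)) (M (nat_lit 600146009325087)))))) (T.h (P (nat_lit 0)) (T.h (T.h (P (nat_lit 81171585130385375232)) (T.h (P (nat_lit 0)) (M (nat_lit 433126156423391)))) (T.h (P (nat_lit 0)) (P (nat_lit 28549522906480)))))) (T.h (T.h (P (nat_lit 0)) (T.h (T.h (P (nat_lit 0)) (M (nat_lit 195834303825641471))) (P (nat_lit 0)))) (T.h (T.h (T.h (M (nat_lit 9010077383461437439)) (T.h (P (nat_lit 0)) (M (nat_lit 600146009325087)))) (T.h (P (nat_lit 0)) (M (nat_lit 21082120614943)))) (T.h (P (nat_lit 0)) (P (nat_lit 25183938140720)))))))), (T.h (T.h (T.h (P (nat_lit 0)) (T.h (P (nat_lit 2940885621627575000643928064)) (T.h (P (nat_lit 0)) (T.h (P (nat_lit 116406846110943819071488))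 (T.h (P (nat_lit 0)) (M (nat_lit 56047310886469631))))))) (T.h (P (nat_lit 0)) (T.h (T.h (P (nat_lit 0)) (T.h (P (nat_lit 80986423199241164816384)) (T.h (P (nat_lit 0)) (P (nat_lit 19203365430902784))))) (T.h (P (nat_lit 0)) (T.h (T.h (P (nat_lit 0)) (P (nat_lit 511413832325070848))) (P (nat_lit 0))))))) (T.h (T.h (P (nat_lit 0)) (T.h (T.h (M (nat_lit 16415219717815830516334591)) (T.h (P (nat_lit 0)) (T.h (M (nat_lit 828259457634934980607)) (T.h (P (nat_lit 0)) (P (nat_lit 20469176266336)))))) (T.h (P (nat_lit 0)) (T.h (T.h (P (nat_lit 69725839715362406400)) (T.h (P (nat_lit 0)) (P (nat_lit 713975442312624)))) (T.h (P (nat_lit 0)) (M (nat_lit 22027988921247))))))) (T.h (T.h (T.h (P (nat_lit 0)) (T.h (M (nat_lit 94851712084561593630719)) (T.h (P (nat_lit 0)) (P (nat_lit 835144473480052736))))) (T.h (P (nat_lit 0)) (T.h (T.h (P (nat_lit 0)) (P (nat_lit 96651728867672064))) (P (nat_lit 0))))) (T.h (T.h (P (nat_lit 0)) (T.h (T.h (P (nat_lit 109908203411100139520))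 (T.h (P (nat_lit 0)) (P (nat_lit 145511679509456)))) (T.h (P (nat_lit 0)) (M (nat_lit 45475820045455))))) (T.h (T.h (T.h (P (nat_lit 0)) (M (nat_lit 735089316496408575))) (P (nat_lit 0))) (T.h (T.h (P (nat_lit 0)) (P (nat_lit 20495869015824))) (P (nat_lit 0))))))))]
def lQp_28 : List (T ℤ) := [(T.h (T.h (T.h (M (nat_lit 16373032247394188254534424330239)) (T.h (P (nat_lit 0)) (T.h (P (nat_lit 183164102553771000985550848)) (T.h (P (nat_lit 0)) (T.h (P (nat_lit 64186300245037023232)) (T.h (P (nat_lit 0)) (M (nat_lit 181077617065439)))))))) (T.h (P (nat_lit 0)) (T.h (T.h (M (nat_lit 23688841013614905995034623)) (T.h (P (nat_lit 0)) (T.h (M (nat_lit 448948537288898379775)) (T.h (P (nat_lit 0)) (P (nat_lit 12008700755280)))))) (T.h (P (nat_lit 0)) (T.h (T.h (P (nat_lit 18525544061490692096)) (T.h (P (nat_lit 0)) (M (nat_lit 583660449321759)))) (T.h (P (nat_lit 0)) (P (nat_lit 19992458540480)))))))) (T.h (T.h (P (nat_lit 0)) (T.h (T.h (P (nat_lit 0)) (T.h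 (M (nat_lit 176562571776358048858111)) (T.h (P (nat_lit 0)) (M (nat_lit 260329813543616511))))) (T.h (P (nat_lit 0)) (T.h (T.h (P (nat_lit 0)) (M (nat_lit 15819515406319615))) (P (nat_lit 0)))))) (T.h (T.h (T.h (M (nat_lit 82364093836797918939447295)) (T.h (P (nat_lit 0)) (T.h (M (nat_lit 149752501920275103743)) (T.h (P (nat_lit 0)) (P (nat_lit 328360484248640)))))) (T.h (P (nat_lit 0)) (T.h (T.h (P (nat_lit 64247427580427239424)) (T.h (P (nat_lit 0)) (P (nat_lit 831663739764240)))) (T.h (P (nat_lit 0)) (P (nat_lit 174617535857840)))))) (T.h (T.h (P (nat_lit 0)) (T.h (T.h (P (nat_lit 0)) (M (nat_lit 363780600151343103))) (P (nat_lit 0)))) (T.h (T.h (T.h (P (nat_lit 105868750466731474944)) (T.h (P (nat_lit 0)) (P (nat_lit 2048257231413680)))) (T.h (P (nat_lit 0)) (P (nat_lit 6417808484560)))) (T.h (P (nat_lit 0)) (M (nat_lit 221185732879199)))))))), (T.h (T.h (T.h (P (nat_lit 0)) (T.h (P (nat_lit 97760208326290814134334259200)) (T.h (P (nat_lit 0)) (T.h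 (P (nat_lit 137990060745107722731520)) (T.h (P (nat_lit 0)) (P (nat_lit 133679943531233280))))))) (T.h (P (nat_lit 0)) (T.h (T.h (P (nat_lit 0)) (T.h (M (nat_lit 20690681049946643234815)) (T.h (P (nat_lit 0)) (M (nat_lit 165709087135268863))))) (T.h (P (nat_lit 0)) (T.h (T.h (P (nat_lit 0)) (M (nat_lit 194314061239648255))) (P (nat_lit 0))))))) (T.h (T.h (P (nat_lit 0)) (T.h (T.h (M (nat_lit 44325833412268898624995327)) (T.h (P (nat_lit 0)) (T.h (M (nat_lit 1098496507911096762367)) (T.h (P (nat_lit 0)) (P (nat_lit 1882318035580224)))))) (T.h (P (nat_lit 0)) (T.h (T.h (P (nat_lit 72822950036406009856)) (T.h (P (nat_lit 0)) (P (nat_lit 130585546475472)))) (T.h (P (nat_lit 0)) (P (nat_lit 110851673169776))))))) (T.h (T.h (T.h (P (nat_lit 0)) (T.h (M (nat_lit 278980705928123856715775)) (T.h (P (nat_lit 0)) (M (nat_lit 485870168424939519))))) (T.h (P (nat_lit 0)) (T.h (T.h (P (nat_lit 0)) (P (nat_lit 236215949933527040))) (P (nat_lit 0))))) (T.h (T.h (P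 (nat_lit 0)) (T.h (T.h (M (nat_lit 1378257928816951295)) (T.h (P (nat_lit 0)) (P (nat_lit 361794974546192)))) (T.h (P (nat_lit 0)) (M (nat_lit 25054827595247))))) (T.h (T.h (T.h (P (nat_lit 0)) (P (nat_lit 882516363633868800))) (P (nat_lit 0))) (T.h (T.h (P (nat_lit 0)) (P (nat_lit 172986961464416))) (P (nat_lit 0)))))))), (T.h (T.h (T.h (P (nat_lit 16610131237050969157222881296384)) (T.h (P (nat_lit 0)) (T.h (P (nat_lit 23126752110161750401220608)) (T.h (P (nat_lit 0)) (M (nat_lit 118912105825926381567)))))) (T.h (P (nat_lit 0)) (T.h (T.h (P (nat_lit 12159185391653889647837184)) (T.h (P (nat_lit 0)) (P (nat_lit 12886189783738482688)))) (T.h (P (nat_lit 0)) (P (nat_lit 8542965040104341504)))))) (T.h (T.h (P (nat_lit 0)) (T.h (T.h (P (nat_lit 0)) (T.h (M (nat_lit 170774383045035088150527)) (T.h (P (nat_lit 0)) (P (nat_lit 1474979290622656512))))) (T.h (P (nat_lit 0)) (T.h (T.h (P (nat_lit 0)) (M (nat_lit 7959988333117439))) (P (nat_lit 0)))))) (T.h (T.h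 (T.h (M (nat_lit 78577746382943512002822143)) (T.h (P (nat_lit 0)) (M (nat_lit 254876444120481529855)))) (T.h (P (nat_lit 0)) (P (nat_lit 26916983604714143744)))) (T.h (T.h (P (nat_lit 0)) (T.h (T.h (P (nat_lit 0)) (P (nat_lit 116902649026969600))) (P (nat_lit 0)))) (P (nat_lit 44363430733904084992)))))), (P (nat_lit 0)), (P (nat_lit 0)), (T.h (T.h (P (nat_lit 0)) (T.h (T.h (P (nat_lit 0)) (T.h (M (nat_lit 16120402417381523331219455)) (T.h (P (nat_lit 0)) (T.h (P (nat_lit 27908753054742085632)) (T.h (P (nat_lit 0)) (M (nat_lit 33881669526207))))))) (T.h (P (nat_lit 0)) (T.h (T.h (P (nat_lit 0)) (T.h (P (nat_lit 27908753054742085632)) (T.h (P (nat_lit 0)) (M (nat_lit 51133428393359))))) (T.h (P (nat_lit 0)) (T.h (T.h (P (nat_lit 0)) (M (nat_lit 33881669526207))) (P (nat_lit 0)))))))) (T.h (T.h (T.h (P (nat_lit 10761264159112345455830237184)) (T.h (P (nat_lit 0)) (T.h (P (nat_lit 44057131584592925425664)) (T.h (P (nat_lit 0)) (P (nat_lit 33232012783714304))))))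 (T.h (P (nat_lit 0)) (T.h (T.h (P (nat_lit 44057131584592925425664)) (T.h (P (nat_lit 0)) (P (nat_lit 36504727480696832)))) (T.h (P (nat_lit 0)) (P (nat_lit 33232012783714304)))))) (T.h (T.h (P (nat_lit 0)) (T.h (T.h (P (nat_lit 0)) (T.h (M (nat_lit 65573374711457382399)) (T.h (P (nat_lit 0)) (P (nat_lit 440929459787480))))) (T.h (P (nat_lit 0)) (T.h (T.h (P (nat_lit 0)) (P (nat_lit 440929459787480))) (P (nat_lit 0)))))) (T.h (T.h (T.h (M (nat_lit 239678259340123308031)) (T.h (P (nat_lit 0)) (P (nat_lit 391172053358706688)))) (T.h (P (nat_lit 0)) (P (nat_lit 391172053358706688)))) (T.h (T.h (P (nat_lit 0)) (T.h (T.h (P (nat_lit 0)) (M (nat_lit 48589310894703))) (P (nat_lit 0)))) (M (nat_lit 6083027579699199))))))), (T.h (T.h (P (nat_lit 0)) (T.h (T.h (M (nat_lit 50668298085092119346977701887)) (T.h (P (nat_lit 0)) (T.h (P (nat_lit 196856778047455427035136)) (T.h (P (nat_lit 0)) (M (nat_lit 330592782220787711)))))) (T.h (P (nat_lit 0)) (T.h (T.h (M (nat_lit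 48593471775423498027007)) (T.h (P (nat_lit 0)) (P (nat_lit 22193432475156480)))) (T.h (P (nat_lit 0)) (P (nat_lit 27206592869531648))))))) (T.h (T.h (T.h (P (nat_lit 0)) (T.h (P (nat_lit 140625031238847143539113984)) (T.h (P (nat_lit 0)) (T.h (P (nat_lit 236949001531557937152)) (T.h (P (nat_lit 0)) (M (nat_lit 216556818452527))))))) (T.h (P (nat_lit 0)) (T.h (T.h (P (nat_lit 0)) (T.h (M (nat_lit 263741200188655534079)) (T.h (P (nat_lit 0)) (P (nat_lit 138986061083440))))) (T.h (P (nat_lit 0)) (T.h (T.h (P (nat_lit 0)) (P (nat_lit 354904499076288))) (P (nat_lit 0))))))) (T.h (T.h (P (nat_lit 0)) (T.h (T.h (P (nat_lit 196856778047455427035136)) (T.h (P (nat_lit 0)) (P (nat_lit 2657302187266899968)))) (T.h (P (nat_lit 0)) (P (nat_lit 22193432475156480))))) (T.h (T.h (T.h (P (nat_lit 0)) (T.h (P (nat_lit 236949001531557937152)) (T.h (P (nat_lit 0)) (P (nat_lit 119539678158720))))) (T.h (P (nat_lit 0)) (T.h (T.h (P (nat_lit 0)) (P (nat_lit 138986061083440)))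 (P (nat_lit 0))))) (T.h (T.h (P (nat_lit 0)) (M (nat_lit 330592782220787711))) (T.h (T.h (T.h (P (nat_lit 0)) (M (nat_lit 216556818452527))) (P (nat_lit 0))) (P (nat_lit 0)))))))), (T.h (T.h (P (nat_lit 0)) (T.h (T.h (P (nat_lit 0)) (T.h (P (nat_lit 478282437530316076392382464)) (T.h (P (nat_lit 0)) (T.h (M (nat_lit 739671426795699175423)) (T.h (P (nat_lit 0)) (M (nat_lit 462128520591279))))))) (T.h (P (nat_lit 0)) (T.h (T.h (P (nat_lit 0)) (T.h (P (nat_lit 496675261125670993920)) (T.h (P (nat_lit 0)) (P (nat_lit 645090628846960))))) (T.h (P (nat_lit 0)) (T.h (T.h (P (nat_lit 0)) (M (nat_lit 152269385097519))) (P (nat_lit 0)))))))) (T.h (T.h (T.h (M (nat_lit 73688174316094309240714297343)) (T.h (P (nat_lit 0)) (T.h (M (nat_lit 726654696203499998281727)) (T.h (P (nat_lit 0)) (M (nat_lit 1696284430605844479)))))) (T.h (P (nat_lit 0)) (T.h (T.h (P (nat_lit 249519099618854889848832)) (T.h (P (nat_lit 0)) (P (nat_lit 3996098057559965696)))) (T.h (P (nat_lit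 0)) (P (nat_lit 92734955848695808)))))) (T.h (T.h (P (nat_lit 0)) (T.h (T.h (P (nat_lit 0)) (T.h (P (nat_lit 1331577639341846953984)) (T.h (P (nat_lit 0)) (M (nat_lit 2142289766531599))))) (T.h (P (nat_lit 0)) (T.h (T.h (P (nat_lit 0)) (M (nat_lit 280959651272239))) (P (nat_lit 0)))))) (T.h (T.h (T.h (P (nat_lit 134279257036277961195520)) (T.h (P (nat_lit 0)) (M (nat_lit 307185335357767679)))) (T.h (P (nat_lit 0)) (M (nat_lit 15462797180403711)))) (T.h (T.h (P (nat_lit 0)) (T.h (T.h (P (nat_lit 0)) (P (nat_lit 558493873015360))) (P (nat_lit 0)))) (M (nat_lit 139676563536871423)))))))]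
def lQp_29 : List (T ℤ) := [(T.h (T.h (P (nat_lit 0)) (T.h (T.h (P (nat_lit 19358757907562315046719586304)) (T.h (P (nat_lit 0)) (T.h (M (nat_lit 821825102410671628222463)) (T.h (P (nat_lit 0)) (M (nat_lit 822325341666951167)))))) (T.h (P (nat_lit 0)) (T.h (T.h (P (nat_lit 178031969107254934765568)) (T.h (P (nat_lit 0)) (M (nat_lit 787272089171591167)))) (T.h (P (nat_lit 0)) (M (nat_lit 106449234473418751))))))) (T.h (T.h (T.h (P (nat_lit 0)) (T.h (M (nat_lit 554268061982648718608826367)) (T.h (P (nat_lit 0)) (T.h (M (nat_lit 1509857225257798074367)) (T.h (P (nat_lit 0)) (P (nat_lit 346719340363264))))))) (T.h (P (nat_lit 0)) (T.h (T.h (P (nat_lit 0)) (T.h (P (nat_lit 1515155284965963333632)) (T.h (P (nat_lit 0)) (M (nat_lit 209987776456831))))) (T.h (P (nat_lit 0)) (T.h (T.h (P (nat_lit 0)) (M (nat_lit 842506019795263))) (P (nat_lit 0))))))) (T.h (T.h (P (nat_lit 0)) (T.h (T.h (P (nat_lit 476423577245513565601792)) (T.h (P (nat_lit 0)) (M (nat_lit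 1120090004433469439)))) (T.h (P (nat_lit 0)) (P (nat_lit 64653329598595072))))) (T.h (T.h (T.h (P (nat_lit 0)) (T.h (M (nat_lit 443740358902233956351)) (T.h (P (nat_lit 0)) (M (nat_lit 204484843713391))))) (T.h (P (nat_lit 0)) (T.h (T.h (P (nat_lit 0)) (P (nat_lit 295459527894608))) (P (nat_lit 0))))) (T.h (T.h (P (nat_lit 0)) (P (nat_lit 189194584109727744))) (T.h (T.h (T.h (P (nat_lit 0)) (M (nat_lit 233783438575983))) (P (nat_lit 0))) (P (nat_lit 0)))))))), (T.h (T.h (P (nat_lit 0)) (T.h (T.h (P (nat_lit 0)) (T.h (M (nat_lit 71817996516439123818446847)) (T.h (P (nat_lit 0)) (M (nat_lit 237324560957846847487))))) (T.h (P (nat_lit 0)) (T.h (T.h (P (nat_lit 0)) (M (nat_lit 293417813422567849983))) (P (nat_lit 0)))))) (T.h (T.h (T.h (M (nat_lit 133768656778760561275365752831)) (T.h (P (nat_lit 0)) (T.h (M (nat_lit 1083909940175908072587263)) (T.h (P (nat_lit 0)) (P (nat_lit 695645357607747584)))))) (T.h (P (nat_lit 0)) (T.h (T.h (P (nat_lit 265991905201773512491008))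 (T.h (P (nat_lit 0)) (P (nat_lit 531307149684015104)))) (T.h (P (nat_lit 0)) (M (nat_lit 10578727072661503)))))) (T.h (T.h (P (nat_lit 0)) (T.h (T.h (P (nat_lit 0)) (M (nat_lit 302479476523544870911))) (P (nat_lit 0)))) (T.h (T.h (T.h (P (nat_lit 29219963289720217141248)) (T.h (P (nat_lit 0)) (M (nat_lit 161074343272644607)))) (T.h (P (nat_lit 0)) (P (nat_lit 127190422486253568)))) (T.h (P (nat_lit 0)) (M (nat_lit 65373264351297535))))))), (P (nat_lit 0)), (P (nat_lit 0)), (T.h (T.h (T.h (P (nat_lit 4003925593441881032265673211904)) (T.h (P (nat_lit 0)) (T.h (P (nat_lit 20325167141636930082439168)) (T.h (P (nat_lit 0)) (T.h (M (nat_lit 12051081045290778623)) (T.h (P (nat_lit 0)) (P (nat_lit 10333849775936)))))))) (T.h (P (nat_lit 0)) (T.h (T.h (P (nat_lit 16734569273838329772638208)) (T.h (P (nat_lit 0)) (T.h (P (nat_lit 81171585130385375232)) (T.h (P (nat_lit 0)) (P (nat_lit 28549522906480)))))) (T.h (P (nat_lit 0)) (T.h (T.h (M (nat_lit 9010077383461437439))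 (T.h (P (nat_lit 0)) (M (nat_lit 21082120614943)))) (T.h (P (nat_lit 0)) (P (nat_lit 25183938140720)))))))) (T.h (T.h (P (nat_lit 0)) (T.h (T.h (P (nat_lit 0)) (T.h (P (nat_lit 184282931739216937222144)) (T.h (P (nat_lit 0)) (M (nat_lit 35065780278001663))))) (T.h (P (nat_lit 0)) (T.h (T.h (P (nat_lit 0)) (M (nat_lit 195834303825641471))) (P (nat_lit 0)))))) (T.h (T.h (T.h (P (nat_lit 16734569273838329772638208)) (T.h (P (nat_lit 0)) (T.h (P (nat_lit 81171585130385375232)) (T.h (P (nat_lit 0)) (P (nat_lit 28549522906480)))))) (T.h (P (nat_lit 0)) (T.h (T.h (P (nat_lit 96789512615666647040)) (T.h (P (nat_lit 0)) (M (nat_lit 433126156423391)))) (T.h (P (nat_lit 0)) (M (nat_lit 600146009325087)))))) (T.h (T.h (P (nat_lit 0)) (T.h (T.h (P (nat_lit 0)) (M (nat_lit 195834303825641471))) (P (nat_lit 0)))) (T.h (T.h (T.h (M (nat_lit 9010077383461437439)) (T.h (P (nat_lit 0)) (M (nat_lit 21082120614943)))) (T.h (P (nat_lit 0)) (M (nat_lit 600146009325087))))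 (T.h (P (nat_lit 0)) (P (nat_lit 25183938140720)))))))), (T.h (T.h (T.h (P (nat_lit 0)) (T.h (M (nat_lit 50668298085092119346977701887)) (T.h (P (nat_lit 0)) (T.h (M (nat_lit 48593471775423498027007)) (T.h (P (nat_lit 0)) (P (nat_lit 27206592869531648))))))) (T.h (P (nat_lit 0)) (T.h (T.h (P (nat_lit 0)) (T.h (P (nat_lit 196856778047455427035136)) (T.h (P (nat_lit 0)) (P (nat_lit 22193432475156480))))) (T.h (P (nat_lit 0)) (T.h (T.h (P (nat_lit 0)) (M (nat_lit 330592782220787711))) (P (nat_lit 0))))))) (T.h (T.h (P (nat_lit 0)) (T.h (T.h (P (nat_lit 140625031238847143539113984)) (T.h (P (nat_lit 0)) (T.h (M (nat_lit 263741200188655534079)) (T.h (P (nat_lit 0)) (P (nat_lit 354904499076288)))))) (T.h (P (nat_lit 0)) (T.h (T.h (P (nat_lit 236949001531557937152)) (T.h (P (nat_lit 0)) (P (nat_lit 138986061083440)))) (T.h (P (nat_lit 0)) (M (nat_lit 216556818452527))))))) (T.h (T.h (T.h (P (nat_lit 0)) (T.h (P (nat_lit 196856778047455427035136)) (T.h (P (nat_lit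 0)) (P (nat_lit 22193432475156480))))) (T.h (P (nat_lit 0)) (T.h (T.h (P (nat_lit 0)) (P (nat_lit 2657302187266899968))) (P (nat_lit 0))))) (T.h (T.h (P (nat_lit 0)) (T.h (T.h (P (nat_lit 236949001531557937152)) (T.h (P (nat_lit 0)) (P (nat_lit 138986061083440)))) (T.h (P (nat_lit 0)) (P (nat_lit 119539678158720))))) (T.h (T.h (T.h (P (nat_lit 0)) (M (nat_lit 330592782220787711))) (P (nat_lit 0))) (T.h (T.h (P (nat_lit 0)) (M (nat_lit 216556818452527))) (P (nat_lit 0)))))))), (T.h (T.h (T.h (P (nat_lit 24662525560210955274396408741888)) (T.h (P (nat_lit 0)) (T.h (P (nat_lit 242636164986715691202641920)) (T.h (P (nat_lit 0)) (T.h (M (nat_lit 125497729431724097535)) (T.h (P (nat_lit 0)) (P (nat_lit 393912681234400)))))))) (T.h (P (nat_lit 0)) (T.h (T.h (P (nat_lit 242636164986715691202641920)) (T.h (P (nat_lit 0)) (T.h (M (nat_lit 79004508721780883455)) (T.h (P (nat_lit 0)) (M (nat_lit 54202385929039)))))) (T.h (P (nat_lit 0)) (T.h (T.h (M (nat_lit 125497729431724097535))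 (T.h (P (nat_lit 0)) (M (nat_lit 54202385929039)))) (T.h (P (nat_lit 0)) (P (nat_lit 393912681234400)))))))) (T.h (T.h (P (nat_lit 0)) (T.h (T.h (P (nat_lit 0)) (T.h (P (nat_lit 2025299577124846565326848)) (T.h (P (nat_lit 0)) (P (nat_lit 1674825471461556224))))) (T.h (P (nat_lit 0)) (T.h (T.h (P (nat_lit 0)) (P (nat_lit 1674825471461556224))) (P (nat_lit 0)))))) (T.h (T.h (T.h (P (nat_lit 242636164986715691202641920)) (T.h (P (nat_lit 0)) (T.h (M (nat_lit 79004508721780883455)) (T.h (P (nat_lit 0)) (M (nat_lit 54202385929039)))))) (T.h (P (nat_lit 0)) (T.h (T.h (M (nat_lit 79004508721780883455)) (T.h (P (nat_lit 0)) (M (nat_lit 2165630810738399)))) (T.h (P (nat_lit 0)) (M (nat_lit 54202385929039)))))) (T.h (T.h (P (nat_lit 0)) (T.h (T.h (P (nat_lit 0)) (P (nat_lit 1674825471461556224))) (P (nat_lit 0)))) (T.h (T.h (T.h (M (nat_lit 125497729431724097535)) (T.h (P (nat_lit 0)) (M (nat_lit 54202385929039)))) (T.h (P (nat_lit 0)) (M (nat_lit 54202385929039))))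 (T.h (P (nat_lit 0)) (P (nat_lit 393912681234400)))))))), (T.h (T.h (T.h (P (nat_lit 0)) (T.h (P (nat_lit 132662359041641761680029384704)) (T.h (P (nat_lit 0)) (T.h (M (nat_lit 211491743838683518730239)) (T.h (P (nat_lit 0)) (P (nat_lit 398653127412121600))))))) (T.h (P (nat_lit 0)) (T.h (T.h (P (nat_lit 0)) (T.h (M (nat_lit 43995443509180686663679)) (T.h (P (nat_lit 0)) (P (nat_lit 612240489964568576))))) (T.h (P (nat_lit 0)) (T.h (T.h (P (nat_lit 0)) (M (nat_lit 876883693688602623))) (P (nat_lit 0))))))) (T.h (T.h (P (nat_lit 0)) (T.h (T.h (P (nat_lit 1067453883979868015085748224)) (T.h (P (nat_lit 0)) (T.h (P (nat_lit 3801908698515834404864)) (T.h (P (nat_lit 0)) (P (nat_lit 778262612392320)))))) (T.h (P (nat_lit 0)) (T.h (T.h (P (nat_lit 340584785934494466048)) (T.h (P (nat_lit 0)) (M (nat_lit 4190516314817007)))) (T.h (P (nat_lit 0)) (P (nat_lit 527227441331536))))))) (T.h (T.h (T.h (P (nat_lit 0)) (T.h (M (nat_lit 43995443509180686663679)) (T.h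 (P (nat_lit 0)) (P (nat_lit 612240489964568576))))) (T.h (P (nat_lit 0)) (T.h (T.h (P (nat_lit 0)) (M (nat_lit 689360924530540543))) (P (nat_lit 0))))) (T.h (T.h (P (nat_lit 0)) (T.h (T.h (P (nat_lit 340584785934494466048)) (T.h (P (nat_lit 0)) (M (nat_lit 4190516314817007)))) (T.h (P (nat_lit 0)) (P (nat_lit 499486613566688))))) (T.h (T.h (T.h (P (nat_lit 0)) (M (nat_lit 876883693688602623))) (P (nat_lit 0))) (T.h (T.h (P (nat_lit 0)) (P (nat_lit 527227441331536))) (P (nat_lit 0))))))))]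
def lQp_30 : List (T ℤ) := [(T.h (T.h (T.h (P (nat_lit 10480330179334628032889529303040)) (T.h (P (nat_lit 0)) (T.h (M (nat_lit 185157826882941110320103423)) (T.h (P (nat_lit 0)) (P (nat_lit 19219055889835098112)))))) (T.h (P (nat_lit 0)) (T.h (T.h (P (nat_lit 98177673145268500133052416)) (T.h (P (nat_lit 0)) (M (nat_lit 105537405580398821375)))) (T.h (P (nat_lit 0)) (M (nat_lit 246263348381943332863)))))) (T.h (T.h (P (nat_lit 0)) (T.h (T.h (P (nat_lit 0)) (T.h (P (nat_lit 1299879884616596717568000)) (T.h (P (nat_lit 0)) (P (nat_lit 423209768725774336))))) (T.h (P (nat_lit 0)) (T.h (T.h (P (nat_lit 0)) (M (nat_lit 2077814719399723007))) (P (nat_lit 0)))))) (T.h (T.h (T.h (P (nat_lit 98177673145268500133052416)) (T.h (P (nat_lit 0)) (M (nat_lit 105537405580398821375)))) (T.h (P (nat_lit 0)) (P (nat_lit 200558750337517748224)))) (T.h (T.h (P (nat_lit 0)) (T.h (T.h (P (nat_lit 0)) (M (nat_lit 2077814719399723007))) (P (nat_lit 0)))) (M (nat_lit 246263348381943332863)))))),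 (P (nat_lit 0)), (P (nat_lit 0)), (T.h (T.h (P (nat_lit 0)) (T.h (T.h (P (nat_lit 0)) (T.h (M (nat_lit 11058409231915517491544063)) (T.h (P (nat_lit 0)) (T.h (P (nat_lit 11501981165653327872)) (T.h (P (nat_lit 0)) (P (nat_lit 16978705696584))))))) (T.h (P (nat_lit 0)) (T.h (T.h (P (nat_lit 0)) (T.h (P (nat_lit 14467366569325363200)) (T.h (P (nat_lit 0)) (P (nat_lit 56548575864128))))) (T.h (P (nat_lit 0)) (T.h (T.h (P (nat_lit 0)) (P (nat_lit 25228408055952))) (P (nat_lit 0)))))))) (T.h (T.h (T.h (P (nat_lit 9662406685631375686768787456)) (T.h (P (nat_lit 0)) (T.h (M (nat_lit 6831777259271273578495)) (T.h (P (nat_lit 0)) (P (nat_lit 725418309091328)))))) (T.h (P (nat_lit 0)) (T.h (T.h (M (nat_lit 6265702064994287353855)) (T.h (P (nat_lit 0)) (M (nat_lit 71706097648828415)))) (T.h (P (nat_lit 0)) (P (nat_lit 62734219519557632)))))) (T.h (T.h (P (nat_lit 0)) (T.h (T.h (P (nat_lit 0)) (T.h (M (nat_lit 41046958461903962111)) (T.h (P (nat_lit 0)) (P (nat_lit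 17713433119432))))) (T.h (P (nat_lit 0)) (T.h (T.h (P (nat_lit 0)) (P (nat_lit 30631383465104))) (P (nat_lit 0)))))) (T.h (T.h (T.h (M (nat_lit 308556873341813653503)) (T.h (P (nat_lit 0)) (P (nat_lit 9890563182690304)))) (T.h (P (nat_lit 0)) (M (nat_lit 1053344965394431)))) (T.h (T.h (P (nat_lit 0)) (T.h (T.h (P (nat_lit 0)) (M (nat_lit 20903774469775))) (P (nat_lit 0)))) (M (nat_lit 9054777712148479))))))), (T.h (T.h (P (nat_lit 0)) (T.h (T.h (P (nat_lit 2940885621627575000643928064)) (T.h (P (nat_lit 0)) (T.h (P (nat_lit 80986423199241164816384)) (T.h (P (nat_lit 0)) (P (nat_lit 511413832325070848)))))) (T.h (P (nat_lit 0)) (T.h (T.h (P (nat_lit 116406846110943819071488)) (T.h (P (nat_lit 0)) (P (nat_lit 19203365430902784)))) (T.h (P (nat_lit 0)) (M (nat_lit 56047310886469631))))))) (T.h (T.h (T.h (P (nat_lit 0)) (T.h (M (nat_lit 16415219717815830516334591)) (T.h (P (nat_lit 0)) (T.h (P (nat_lit 69725839715362406400)) (T.h (P (nat_lit 0)) (M (nat_lit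 22027988921247))))))) (T.h (P (nat_lit 0)) (T.h (T.h (P (nat_lit 0)) (T.h (M (nat_lit 828259457634934980607)) (T.h (P (nat_lit 0)) (P (nat_lit 713975442312624))))) (T.h (P (nat_lit 0)) (T.h (T.h (P (nat_lit 0)) (P (nat_lit 20469176266336))) (P (nat_lit 0))))))) (T.h (T.h (P (nat_lit 0)) (T.h (T.h (M (nat_lit 94851712084561593630719)) (T.h (P (nat_lit 0)) (P (nat_lit 96651728867672064)))) (T.h (P (nat_lit 0)) (P (nat_lit 835144473480052736))))) (T.h (T.h (T.h (P (nat_lit 0)) (T.h (P (nat_lit 109908203411100139520)) (T.h (P (nat_lit 0)) (M (nat_lit 45475820045455))))) (T.h (P (nat_lit 0)) (T.h (T.h (P (nat_lit 0)) (P (nat_lit 145511679509456))) (P (nat_lit 0))))) (T.h (T.h (P (nat_lit 0)) (M (nat_lit 735089316496408575))) (T.h (T.h (T.h (P (nat_lit 0)) (P (nat_lit 20495869015824))) (P (nat_lit 0))) (P (nat_lit 0)))))))), (T.h (T.h (P (nat_lit 0)) (T.h (T.h (P (nat_lit 0)) (T.h (P (nat_lit 478282437530316076392382464)) (T.h (P (nat_lit 0)) (T.h (P (nat_lit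 496675261125670993920)) (T.h (P (nat_lit 0)) (M (nat_lit 152269385097519))))))) (T.h (P (nat_lit 0)) (T.h (T.h (P (nat_lit 0)) (T.h (M (nat_lit 739671426795699175423)) (T.h (P (nat_lit 0)) (P (nat_lit 645090628846960))))) (T.h (P (nat_lit 0)) (T.h (T.h (P (nat_lit 0)) (M (nat_lit 462128520591279))) (P (nat_lit 0)))))))) (T.h (T.h (T.h (M (nat_lit 73688174316094309240714297343)) (T.h (P (nat_lit 0)) (T.h (P (nat_lit 249519099618854889848832)) (T.h (P (nat_lit 0)) (P (nat_lit 92734955848695808)))))) (T.h (P (nat_lit 0)) (T.h (T.h (M (nat_lit 726654696203499998281727)) (T.h (P (nat_lit 0)) (P (nat_lit 3996098057559965696)))) (T.h (P (nat_lit 0)) (M (nat_lit 1696284430605844479)))))) (T.h (T.h (P (nat_lit 0)) (T.h (T.h (P (nat_lit 0)) (T.h (P (nat_lit 1331577639341846953984)) (T.h (P (nat_lit 0)) (M (nat_lit 280959651272239))))) (T.h (P (nat_lit 0)) (T.h (T.h (P (nat_lit 0)) (M (nat_lit 2142289766531599))) (P (nat_lit 0)))))) (T.h (T.h (T.h (P (nat_lit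 134279257036277961195520)) (T.h (P (nat_lit 0)) (M (nat_lit 15462797180403711)))) (T.h (P (nat_lit 0)) (M (nat_lit 307185335357767679)))) (T.h (T.h (P (nat_lit 0)) (T.h (T.h (P (nat_lit 0)) (P (nat_lit 558493873015360))) (P (nat_lit 0)))) (M (nat_lit 139676563536871423))))))), (T.h (T.h (P (nat_lit 0)) (T.h (T.h (P (nat_lit 132662359041641761680029384704)) (T.h (P (nat_lit 0)) (T.h (M (nat_lit 43995443509180686663679)) (T.h (P (nat_lit 0)) (M (nat_lit 876883693688602623)))))) (T.h (P (nat_lit 0)) (T.h (T.h (M (nat_lit 211491743838683518730239)) (T.h (P (nat_lit 0)) (P (nat_lit 612240489964568576)))) (T.h (P (nat_lit 0)) (P (nat_lit 398653127412121600))))))) (T.h (T.h (T.h (P (nat_lit 0)) (T.h (P (nat_lit 1067453883979868015085748224)) (T.h (P (nat_lit 0)) (T.h (P (nat_lit 340584785934494466048)) (T.h (P (nat_lit 0)) (P (nat_lit 527227441331536))))))) (T.h (P (nat_lit 0)) (T.h (T.h (P (nat_lit 0)) (T.h (P (nat_lit 3801908698515834404864)) (T.h (P (nat_lit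 0)) (M (nat_lit 4190516314817007))))) (T.h (P (nat_lit 0)) (T.h (T.h (P (nat_lit 0)) (P (nat_lit 778262612392320))) (P (nat_lit 0))))))) (T.h (T.h (P (nat_lit 0)) (T.h (T.h (M (nat_lit 43995443509180686663679)) (T.h (P (nat_lit 0)) (M (nat_lit 689360924530540543)))) (T.h (P (nat_lit 0)) (P (nat_lit 612240489964568576))))) (T.h (T.h (T.h (P (nat_lit 0)) (T.h (P (nat_lit 340584785934494466048)) (T.h (P (nat_lit 0)) (P (nat_lit 499486613566688))))) (T.h (P (nat_lit 0)) (T.h (T.h (P (nat_lit 0)) (M (nat_lit 4190516314817007))) (P (nat_lit 0))))) (T.h (T.h (P (nat_lit 0)) (M (nat_lit 876883693688602623))) (T.h (T.h (T.h (P (nat_lit 0)) (P (nat_lit 527227441331536))) (P (nat_lit 0))) (P (nat_lit 0)))))))), (T.h (T.h (P (nat_lit 0)) (T.h (T.h (P (nat_lit 0)) (T.h (M (nat_lit 147135853041917332044120063)) (T.h (P (nat_lit 0)) (M (nat_lit 257392247864654036991))))) (T.h (P (nat_lit 0)) (T.h (T.h (P (nat_lit 0)) (M (nat_lit 257392247864654036991))) (P (nat_lit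 0)))))) (T.h (T.h (T.h (P (nat_lit 389297995439723300115101777920)) (T.h (P (nat_lit 0)) (T.h (P (nat_lit 223777562771128231919616)) (T.h (P (nat_lit 0)) (P (nat_lit 618322761071951872)))))) (T.h (P (nat_lit 0)) (T.h (T.h (P (nat_lit 223777562771128231919616)) (T.h (P (nat_lit 0)) (M (nat_lit 5566684382022008831)))) (T.h (P (nat_lit 0)) (P (nat_lit 618322761071951872)))))) (T.h (T.h (P (nat_lit 0)) (T.h (T.h (P (nat_lit 0)) (P (nat_lit 1936470657569816313856))) (P (nat_lit 0)))) (T.h (T.h (T.h (M (nat_lit 80184449228608727154687)) (T.h (P (nat_lit 0)) (P (nat_lit 66980419558473728)))) (T.h (P (nat_lit 0)) (P (nat_lit 66980419558473728)))) (T.h (P (nat_lit 0)) (P (nat_lit 220288323117449216)))))))]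
def lQp_31 : List (T ℤ) := [(P (nat_lit 0)), (P (nat_lit 0)), (T.h (T.h (T.h (P (nat_lit 0)) (T.h (M (nat_lit 21439020041541902305889091583)) (T.h (P (nat_lit 0)) (T.h (P (nat_lit 17368237073517154140160)) (T.h (P (nat_lit 0)) (P (nat_lit 3881363090505728))))))) (T.h (P (nat_lit 0)) (T.h (T.h (P (nat_lit 0)) (T.h (M (nat_lit 3327027577897286107135)) (T.h (P (nat_lit 0)) (M (nat_lit 1071105886158847))))) (T.h (P (nat_lit 0)) (T.h (T.h (P (nat_lit 0)) (M (nat_lit 131088948266926079))) (P (nat_lit 0))))))) (T.h (T.h (P (nat_lit 0)) (T.h (T.h (M (nat_lit 39555283947184431235596287)) (T.h (P (nat_lit 0)) (T.h (P (nat_lit 55318303577196199936)) (T.h (P (nat_lit 0)) (P (nat_lit 33481742598912)))))) (T.h (P (nat_lit 0)) (T.h (T.h (M (nat_lit 287531455608975785983)) (T.h (P (nat_lit 0)) (M (nat_lit 138743880398239)))) (T.h (P (nat_lit 0)) (P (nat_lit 5629987302560))))))) (T.h (T.h (T.h (P (nat_lit 0)) (T.h (M (nat_lit 3066642079731815546879)) (T.h (P (nat_lit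 0)) (M (nat_lit 43936759381704703))))) (T.h (P (nat_lit 0)) (T.h (T.h (P (nat_lit 0)) (P (nat_lit 1332017585995776))) (P (nat_lit 0))))) (T.h (T.h (P (nat_lit 0)) (T.h (T.h (M (nat_lit 30022983081594454015)) (T.h (P (nat_lit 0)) (P (nat_lit 18354663940000)))) (T.h (P (nat_lit 0)) (P (nat_lit 346327786339536))))) (T.h (T.h (T.h (P (nat_lit 0)) (P (nat_lit 2510440788918272))) (P (nat_lit 0))) (T.h (T.h (P (nat_lit 0)) (M (nat_lit 20915930440255))) (P (nat_lit 0)))))))), (T.h (T.h (T.h (M (nat_lit 16373032247394188254534424330239)) (T.h (P (nat_lit 0)) (T.h (M (nat_lit 23688841013614905995034623)) (T.h (P (nat_lit 0)) (T.h (P (nat_lit 18525544061490692096)) (T.h (P (nat_lit 0)) (P (nat_lit 19992458540480)))))))) (T.h (P (nat_lit 0)) (T.h (T.h (P (nat_lit 183164102553771000985550848)) (T.h (P (nat_lit 0)) (T.h (M (nat_lit 448948537288898379775)) (T.h (P (nat_lit 0)) (M (nat_lit 583660449321759)))))) (T.h (P (nat_lit 0)) (T.h (T.h (P (nat_lit 64186300245037023232))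 (T.h (P (nat_lit 0)) (P (nat_lit 12008700755280)))) (T.h (P (nat_lit 0)) (M (nat_lit 181077617065439)))))))) (T.h (T.h (P (nat_lit 0)) (T.h (T.h (P (nat_lit 0)) (T.h (M (nat_lit 176562571776358048858111)) (T.h (P (nat_lit 0)) (M (nat_lit 15819515406319615))))) (T.h (P (nat_lit 0)) (T.h (T.h (P (nat_lit 0)) (M (nat_lit 260329813543616511))) (P (nat_lit 0)))))) (T.h (T.h (T.h (M (nat_lit 82364093836797918939447295)) (T.h (P (nat_lit 0)) (T.h (P (nat_lit 64247427580427239424)) (T.h (P (nat_lit 0)) (P (nat_lit 174617535857840)))))) (T.h (P (nat_lit 0)) (T.h (T.h (M (nat_lit 149752501920275103743)) (T.h (P (nat_lit 0)) (P (nat_lit 831663739764240)))) (T.h (P (nat_lit 0)) (P (nat_lit 328360484248640)))))) (T.h (T.h (P (nat_lit 0)) (T.h (T.h (P (nat_lit 0)) (M (nat_lit 363780600151343103))) (P (nat_lit 0)))) (T.h (T.h (T.h (P (nat_lit 105868750466731474944)) (T.h (P (nat_lit 0)) (P (nat_lit 6417808484560)))) (T.h (P (nat_lit 0)) (P (nat_lit 2048257231413680))))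 (T.h (P (nat_lit 0)) (M (nat_lit 221185732879199)))))))), (T.h (T.h (T.h (P (nat_lit 0)) (T.h (P (nat_lit 19358757907562315046719586304)) (T.h (P (nat_lit 0)) (T.h (P (nat_lit 178031969107254934765568)) (T.h (P (nat_lit 0)) (M (nat_lit 106449234473418751))))))) (T.h (P (nat_lit 0)) (T.h (T.h (P (nat_lit 0)) (T.h (M (nat_lit 821825102410671628222463)) (T.h (P (nat_lit 0)) (M (nat_lit 787272089171591167))))) (T.h (P (nat_lit 0)) (T.h (T.h (P (nat_lit 0)) (M (nat_lit 822325341666951167))) (P (nat_lit 0))))))) (T.h (T.h (P (nat_lit 0)) (T.h (T.h (M (nat_lit 554268061982648718608826367)) (T.h (P (nat_lit 0)) (T.h (P (nat_lit 1515155284965963333632)) (T.h (P (nat_lit 0)) (M (nat_lit 842506019795263)))))) (T.h (P (nat_lit 0)) (T.h (T.h (M (nat_lit 1509857225257798074367)) (T.h (P (nat_lit 0)) (M (nat_lit 209987776456831)))) (T.h (P (nat_lit 0)) (P (nat_lit 346719340363264))))))) (T.h (T.h (T.h (P (nat_lit 0)) (T.h (P (nat_lit 476423577245513565601792)) (T.h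 (P (nat_lit 0)) (P (nat_lit 64653329598595072))))) (T.h (P (nat_lit 0)) (T.h (T.h (P (nat_lit 0)) (M (nat_lit 1120090004433469439))) (P (nat_lit 0))))) (T.h (T.h (P (nat_lit 0)) (T.h (T.h (M (nat_lit 443740358902233956351)) (T.h (P (nat_lit 0)) (P (nat_lit 295459527894608)))) (T.h (P (nat_lit 0)) (M (nat_lit 204484843713391))))) (T.h (T.h (T.h (P (nat_lit 0)) (P (nat_lit 189194584109727744))) (P (nat_lit 0))) (T.h (T.h (P (nat_lit 0)) (M (nat_lit 233783438575983))) (P (nat_lit 0)))))))), (T.h (T.h (T.h (P (nat_lit 10480330179334628032889529303040)) (T.h (P (nat_lit 0)) (T.h (P (nat_lit 98177673145268500133052416)) (T.h (P (nat_lit 0)) (M (nat_lit 246263348381943332863)))))) (T.h (P (nat_lit 0)) (T.h (T.h (M (nat_lit 185157826882941110320103423)) (T.h (P (nat_lit 0)) (M (nat_lit 105537405580398821375)))) (T.h (P (nat_lit 0)) (P (nat_lit 19219055889835098112)))))) (T.h (T.h (P (nat_lit 0)) (T.h (T.h (P (nat_lit 0)) (T.h (P (nat_lit 1299879884616596717568000))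 (T.h (P (nat_lit 0)) (M (nat_lit 2077814719399723007))))) (T.h (P (nat_lit 0)) (T.h (T.h (P (nat_lit 0)) (P (nat_lit 423209768725774336))) (P (nat_lit 0)))))) (T.h (T.h (T.h (P (nat_lit 98177673145268500133052416)) (T.h (P (nat_lit 0)) (P (nat_lit 200558750337517748224)))) (T.h (P (nat_lit 0)) (M (nat_lit 105537405580398821375)))) (T.h (T.h (P (nat_lit 0)) (T.h (T.h (P (nat_lit 0)) (M (nat_lit 2077814719399723007))) (P (nat_lit 0)))) (M (nat_lit 246263348381943332863)))))), (P (nat_lit 0)), (P (nat_lit 0))]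
def lQp_32 : List (T ℤ) := [(T.h (T.h (P (nat_lit 0)) (T.h (T.h (P (nat_lit 0)) (T.h (P (nat_lit 59228253820624305253253120)) (T.h (P (nat_lit 0)) (T.h (M (nat_lit 128776015067756888063)) (T.h (P (nat_lit 0)) (M (nat_lit 12924331522799))))))) (T.h (P (nat_lit 0)) (T.h (T.h (P (nat_lit 0)) (T.h (P (nat_lit 177530439701318598656)) (T.h (P (nat_lit 0)) (M (nat_lit 216660159992639))))) (T.h (P (nat_lit 0)) (T.h (T.h (P (nat_lit 0)) (P (nat_lit 115487932780160))) (P (nat_lit 0)))))))) (T.h (T.h (T.h (M (nat_lit 20775842496571973614966931455)) (T.h (P (nat_lit 0)) (T.h (P (nat_lit 2528523741828411817984)) (T.h (P (nat_lit 0)) (M (nat_lit 145499149792968703)))))) (T.h (P (nat_lit 0)) (T.h (T.h (M (nat_lit 242381418927757509787647)) (T.h (P (nat_lit 0)) (M (nat_lit 53650938488881151)))) (T.h (P (nat_lit 0)) (M (nat_lit 534317465604161535)))))) (T.h (T.h (P (nat_lit 0)) (T.h (T.h (P (nat_lit 0)) (T.h (P (nat_lit 131191371818267049984)) (T.h (P (nat_lit 0)) (M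 (nat_lit 162100968221039))))) (T.h (P (nat_lit 0)) (T.h (T.h (P (nat_lit 0)) (P (nat_lit 404751258890800))) (P (nat_lit 0)))))) (T.h (T.h (T.h (M (nat_lit 31027422118557268312063)) (T.h (P (nat_lit 0)) (M (nat_lit 72660222417698815)))) (T.h (P (nat_lit 0)) (M (nat_lit 214374929667096575)))) (T.h (T.h (P (nat_lit 0)) (T.h (T.h (P (nat_lit 0)) (M (nat_lit 168865378043199))) (P (nat_lit 0)))) (P (nat_lit 80492444654338048))))))), (T.h (T.h (P (nat_lit 0)) (T.h (T.h (P (nat_lit 97760208326290814134334259200)) (T.h (P (nat_lit 0)) (T.h (M (nat_lit 20690681049946643234815)) (T.h (P (nat_lit 0)) (M (nat_lit 194314061239648255)))))) (T.h (P (nat_lit 0)) (T.h (T.h (P (nat_lit 137990060745107722731520)) (T.h (P (nat_lit 0)) (M (nat_lit 165709087135268863)))) (T.h (P (nat_lit 0)) (P (nat_lit 133679943531233280))))))) (T.h (T.h (T.h (P (nat_lit 0)) (T.h (M (nat_lit 44325833412268898624995327)) (T.h (P (nat_lit 0)) (T.h (P (nat_lit 72822950036406009856)) (T.h (P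 (nat_lit 0)) (P (nat_lit 110851673169776))))))) (T.h (P (nat_lit 0)) (T.h (T.h (P (nat_lit 0)) (T.h (M (nat_lit 1098496507911096762367)) (T.h (P (nat_lit 0)) (P (nat_lit 130585546475472))))) (T.h (P (nat_lit 0)) (T.h (T.h (P (nat_lit 0)) (P (nat_lit 1882318035580224))) (P (nat_lit 0))))))) (T.h (T.h (P (nat_lit 0)) (T.h (T.h (M (nat_lit 278980705928123856715775)) (T.h (P (nat_lit 0)) (P (nat_lit 236215949933527040)))) (T.h (P (nat_lit 0)) (M (nat_lit 485870168424939519))))) (T.h (T.h (T.h (P (nat_lit 0)) (T.h (M (nat_lit 1378257928816951295)) (T.h (P (nat_lit 0)) (M (nat_lit 25054827595247))))) (T.h (P (nat_lit 0)) (T.h (T.h (P (nat_lit 0)) (P (nat_lit 361794974546192))) (P (nat_lit 0))))) (T.h (T.h (P (nat_lit 0)) (P (nat_lit 882516363633868800))) (T.h (T.h (T.h (P (nat_lit 0)) (P (nat_lit 172986961464416))) (P (nat_lit 0))) (P (nat_lit 0)))))))), (T.h (T.h (P (nat_lit 0)) (T.h (T.h (P (nat_lit 0)) (T.h (M (nat_lit 71817996516439123818446847)) (T.h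 (P (nat_lit 0)) (M (nat_lit 293417813422567849983))))) (T.h (P (nat_lit 0)) (T.h (T.h (P (nat_lit 0)) (M (nat_lit 237324560957846847487))) (P (nat_lit 0)))))) (T.h (T.h (T.h (M (nat_lit 133768656778760561275365752831)) (T.h (P (nat_lit 0)) (T.h (P (nat_lit 265991905201773512491008)) (T.h (P (nat_lit 0)) (M (nat_lit 10578727072661503)))))) (T.h (P (nat_lit 0)) (T.h (T.h (M (nat_lit 1083909940175908072587263)) (T.h (P (nat_lit 0)) (P (nat_lit 531307149684015104)))) (T.h (P (nat_lit 0)) (P (nat_lit 695645357607747584)))))) (T.h (T.h (P (nat_lit 0)) (T.h (T.h (P (nat_lit 0)) (M (nat_lit 302479476523544870911))) (P (nat_lit 0)))) (T.h (T.h (T.h (P (nat_lit 29219963289720217141248)) (T.h (P (nat_lit 0)) (P (nat_lit 127190422486253568)))) (T.h (P (nat_lit 0)) (M (nat_lit 161074343272644607)))) (T.h (P (nat_lit 0)) (M (nat_lit 65373264351297535))))))), (P (nat_lit 0)), (P (nat_lit 0)), (T.h (T.h (T.h (P (nat_lit 0)) (T.h (P (nat_lit 30592359351173919146378264576))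 (T.h (P (nat_lit 0)) (T.h (M (nat_lit 18885243591323641970687)) (T.h (P (nat_lit 0)) (M (nat_lit 20021605155700735))))))) (T.h (P (nat_lit 0)) (T.h (T.h (P (nat_lit 0)) (T.h (M (nat_lit 126206691015345766924287)) (T.h (P (nat_lit 0)) (M (nat_lit 105060780253347839))))) (T.h (P (nat_lit 0)) (T.h (T.h (P (nat_lit 0)) (P (nat_lit 153230669436993536))) (P (nat_lit 0))))))) (T.h (T.h (P (nat_lit 0)) (T.h (T.h (M (nat_lit 58042082194932585631580159)) (T.h (P (nat_lit 0)) (T.h (M (nat_lit 23453482314404724735)) (T.h (P (nat_lit 0)) (M (nat_lit 46938132056991)))))) (T.h (P (nat_lit 0)) (T.h (T.h (P (nat_lit 169026438565197774848)) (T.h (P (nat_lit 0)) (M (nat_lit 160765879742335)))) (T.h (P (nat_lit 0)) (M (nat_lit 202010613196303))))))) (T.h (T.h (T.h (P (nat_lit 0)) (T.h (M (nat_lit 47570282094454540075007)) (T.h (P (nat_lit 0)) (P (nat_lit 5924892080504832))))) (T.h (P (nat_lit 0)) (T.h (T.h (P (nat_lit 0)) (P (nat_lit 142951232725958656))) (P (nat_lit 0)))))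 (T.h (T.h (P (nat_lit 0)) (T.h (T.h (M (nat_lit 72074611859338035199)) (T.h (P (nat_lit 0)) (M (nat_lit 153951304182895)))) (T.h (P (nat_lit 0)) (M (nat_lit 40807260833679))))) (T.h (T.h (T.h (P (nat_lit 0)) (M (nat_lit 100432000003391487))) (P (nat_lit 0))) (T.h (T.h (P (nat_lit 0)) (P (nat_lit 9843633707952))) (P (nat_lit 0)))))))), (T.h (T.h (T.h (P (nat_lit 16610131237050969157222881296384)) (T.h (P (nat_lit 0)) (T.h (P (nat_lit 12159185391653889647837184)) (T.h (P (nat_lit 0)) (P (nat_lit 8542965040104341504)))))) (T.h (P (nat_lit 0)) (T.h (T.h (P (nat_lit 23126752110161750401220608)) (T.h (P (nat_lit 0)) (P (nat_lit 12886189783738482688)))) (T.h (P (nat_lit 0)) (M (nat_lit 118912105825926381567)))))) (T.h (T.h (P (nat_lit 0)) (T.h (T.h (P (nat_lit 0)) (T.h (M (nat_lit 170774383045035088150527)) (T.h (P (nat_lit 0)) (M (nat_lit 7959988333117439))))) (T.h (P (nat_lit 0)) (T.h (T.h (P (nat_lit 0)) (P (nat_lit 1474979290622656512))) (P (nat_lit 0))))))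 (T.h (T.h (T.h (M (nat_lit 78577746382943512002822143)) (T.h (P (nat_lit 0)) (P (nat_lit 26916983604714143744)))) (T.h (P (nat_lit 0)) (M (nat_lit 254876444120481529855)))) (T.h (T.h (P (nat_lit 0)) (T.h (T.h (P (nat_lit 0)) (P (nat_lit 116902649026969600))) (P (nat_lit 0)))) (P (nat_lit 44363430733904084992)))))), (P (nat_lit 0))]
def lQp_33 : List (T ℤ) := [(P (nat_lit 0)), (T.h (T.h (P (nat_lit 0)) (T.h (T.h (P (nat_lit 0)) (T.h (M (nat_lit 68480659706341009634885631)) (T.h (P (nat_lit 0)) (M (nat_lit 11930534835996590079))))) (T.h (P (nat_lit 0)) (T.h (T.h (P (nat_lit 0)) (P (nat_lit 76622548805082939392))) (P (nat_lit 0)))))) (T.h (T.h (T.h (M (nat_lit 9479945226855203678944493567)) (T.h (P (nat_lit 0)) (T.h (P (nat_lit 15229871120192928481280)) (T.h (P (nat_lit 0)) (M (nat_lit 27031974620561407)))))) (T.h (P (nat_lit 0)) (T.h (T.h (P (nat_lit 252405377024740638588928)) (T.h (P (nat_lit 0)) (M (nat_lit 48863964941058047)))) (T.h (P (nat_lit 0))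 (M (nat_lit 158948710125174783)))))) (T.h (T.h (P (nat_lit 0)) (T.h (T.h (P (nat_lit 0)) (M (nat_lit 28561419631895511039))) (P (nat_lit 0)))) (T.h (T.h (T.h (P (nat_lit 8055960460481364230144)) (T.h (P (nat_lit 0)) (M (nat_lit 67886065340547071)))) (T.h (P (nat_lit 0)) (P (nat_lit 73784448161644544)))) (T.h (P (nat_lit 0)) (P (nat_lit 3604578148319232))))))), (P (nat_lit 0)), (P (nat_lit 0)), (P (nat_lit 0)), (P (nat_lit 0)), (P (nat_lit 0)), (T.h (T.h (T.h (P (nat_lit 0)) (T.h (P (nat_lit 9662406685631375686768787456)) (T.h (P (nat_lit 0)) (T.h (M (nat_lit 308556873341813653503)) (T.h (P (nat_lit 0)) (M (nat_lit 9054777712148479))))))) (T.h (P (nat_lit 0)) (T.h (T.h (P (nat_lit 0)) (T.h (M (nat_lit 6831777259271273578495)) (T.h (P (nat_lit 0)) (P (nat_lit 9890563182690304))))) (T.h (P (nat_lit 0)) (T.h (T.h (P (nat_lit 0)) (P (nat_lit 725418309091328))) (P (nat_lit 0))))))) (T.h (T.h (P (nat_lit 0)) (T.h (T.h (M (nat_lit 11058409231915517491544063))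 (T.h (P (nat_lit 0)) (T.h (M (nat_lit 41046958461903962111)) (T.h (P (nat_lit 0)) (M (nat_lit 20903774469775)))))) (T.h (P (nat_lit 0)) (T.h (T.h (P (nat_lit 11501981165653327872)) (T.h (P (nat_lit 0)) (P (nat_lit 17713433119432)))) (T.h (P (nat_lit 0)) (P (nat_lit 16978705696584))))))) (T.h (T.h (T.h (P (nat_lit 0)) (T.h (M (nat_lit 6265702064994287353855)) (T.h (P (nat_lit 0)) (M (nat_lit 1053344965394431))))) (T.h (P (nat_lit 0)) (T.h (T.h (P (nat_lit 0)) (M (nat_lit 71706097648828415))) (P (nat_lit 0))))) (T.h (T.h (P (nat_lit 0)) (T.h (T.h (P (nat_lit 14467366569325363200)) (T.h (P (nat_lit 0)) (P (nat_lit 30631383465104)))) (T.h (P (nat_lit 0)) (P (nat_lit 56548575864128))))) (T.h (T.h (T.h (P (nat_lit 0)) (P (nat_lit 62734219519557632))) (P (nat_lit 0))) (T.h (T.h (P (nat_lit 0)) (P (nat_lit 25228408055952))) (P (nat_lit 0))))))))]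
def lQp_34 : List (T ℤ) := [(T.h (T.h (T.h (M (nat_lit 20254831134507439147727913484287)) (T.h (P (nat_lit 0)) (T.h (P (nat_lit 29599268406989750704013312)) (T.h (P (nat_lit 0)) (T.h (M (nat_lit 57188527308720308223)) (T.h (P (nat_lit 0)) (M (nat_lit 26207854071903)))))))) (T.h (P (nat_lit 0)) (T.h (T.h (P (nat_lit 8623154526300995311370240)) (T.h (P (nat_lit 0)) (T.h (M (nat_lit 58732646427604811775)) (T.h (P (nat_lit 0)) (P (nat_lit 15164383117568)))))) (T.h (P (nat_lit 0)) (T.h (T.h (M (nat_lit 3791356520545910783)) (T.h (P (nat_lit 0)) (P (nat_lit 18863524992736)))) (T.h (P (nat_lit 0)) (P (nat_lit 6987571952256)))))))) (T.h (T.h (P (nat_lit 0)) (T.h (T.h (P (nat_lit 0)) (T.h (P (nat_lit 453731183376403592642560)) (T.h (P (nat_lit 0)) (P (nat_lit 53449368928747520))))) (T.h (P (nat_lit 0)) (T.h (T.h (P (nat_lit 0)) (M (nat_lit 227822629654233087))) (P (nat_lit 0)))))) (T.h (T.h (T.h (P (nat_lit 29599268406989750704013312)) (T.h (P (nat_lit 0)) (T.h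 (M (nat_lit 148159826317262454783)) (T.h (P (nat_lit 0)) (M (nat_lit 171985111421919)))))) (T.h (P (nat_lit 0)) (T.h (T.h (M (nat_lit 58732646427604811775)) (T.h (P (nat_lit 0)) (P (nat_lit 913938109348384)))) (T.h (P (nat_lit 0)) (P (nat_lit 18863524992736)))))) (T.h (T.h (P (nat_lit 0)) (T.h (T.h (P (nat_lit 0)) (P (nat_lit 53449368928747520))) (P (nat_lit 0)))) (T.h (T.h (T.h (M (nat_lit 57188527308720308223)) (T.h (P (nat_lit 0)) (M (nat_lit 171985111421919)))) (T.h (P (nat_lit 0)) (P (nat_lit 15164383117568)))) (T.h (P (nat_lit 0)) (M (nat_lit 26207854071903)))))))), (T.h (T.h (T.h (P (nat_lit 0)) (T.h (P (nat_lit 15103393910805811674524680192)) (T.h (P (nat_lit 0)) (T.h (M (nat_lit 35708899549047051780095)) (T.h (P (nat_lit 0)) (M (nat_lit 157679197717659647))))))) (T.h (P (nat_lit 0)) (T.h (T.h (P (nat_lit 0)) (T.h (M (nat_lit 71252488799191958552575)) (T.h (P (nat_lit 0)) (M (nat_lit 120247537389076479))))) (T.h (P (nat_lit 0)) (T.h (T.h (P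 (nat_lit 0)) (P (nat_lit 195913816851152896))) (P (nat_lit 0))))))) (T.h (T.h (P (nat_lit 0)) (T.h (T.h (P (nat_lit 84196165240367251311296512)) (T.h (P (nat_lit 0)) (T.h (M (nat_lit 228585117517172703231)) (T.h (P (nat_lit 0)) (P (nat_lit 332259197192240)))))) (T.h (P (nat_lit 0)) (T.h (T.h (P (nat_lit 88201718308815241216)) (T.h (P (nat_lit 0)) (P (nat_lit 46060579552080)))) (T.h (P (nat_lit 0)) (P (nat_lit 14276070104160))))))) (T.h (T.h (T.h (P (nat_lit 0)) (T.h (M (nat_lit 164756038612868625596415)) (T.h (P (nat_lit 0)) (P (nat_lit 51203836739551232))))) (T.h (P (nat_lit 0)) (T.h (T.h (P (nat_lit 0)) (P (nat_lit 1020327917606305792))) (P (nat_lit 0))))) (T.h (T.h (P (nat_lit 0)) (T.h (T.h (M (nat_lit 179317428776303853567)) (T.h (P (nat_lit 0)) (M (nat_lit 416838103512879)))) (T.h (P (nat_lit 0)) (P (nat_lit 246642587654000))))) (T.h (T.h (T.h (P (nat_lit 0)) (P (nat_lit 253737492773535744))) (P (nat_lit 0))) (T.h (T.h (P (nat_lit 0)) (P (nat_lit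 134158551876800))) (P (nat_lit 0)))))))), (T.h (T.h (T.h (M (nat_lit 5579030000330377679209261694975)) (T.h (P (nat_lit 0)) (T.h (P (nat_lit 19216157866977268909211648)) (T.h (P (nat_lit 0)) (T.h (P (nat_lit 32562526019337060352)) (T.h (P (nat_lit 0)) (M (nat_lit 499469368768831)))))))) (T.h (P (nat_lit 0)) (T.h (T.h (M (nat_lit 5657961527253364136476671)) (T.h (P (nat_lit 0)) (T.h (P (nat_lit 49910012661702066176)) (T.h (P (nat_lit 0)) (M (nat_lit 311887139930959)))))) (T.h (P (nat_lit 0)) (T.h (T.h (P (nat_lit 13357060239115943936)) (T.h (P (nat_lit 0)) (P (nat_lit 45874032146976)))) (T.h (P (nat_lit 0)) (M (nat_lit 10492294430287)))))))) (T.h (T.h (P (nat_lit 0)) (T.h (T.h (P (nat_lit 0)) (T.h (M (nat_lit 457499459866436042751999)) (T.h (P (nat_lit 0)) (M (nat_lit 472196403872694271))))) (T.h (P (nat_lit 0)) (T.h (T.h (P (nat_lit 0)) (P (nat_lit 329846517412593664))) (P (nat_lit 0)))))) (T.h (T.h (T.h (M (nat_lit 96726347834487794787418111)) (T.h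 (P (nat_lit 0)) (T.h (M (nat_lit 52139860623666184191)) (T.h (P (nat_lit 0)) (M (nat_lit 1548465693749039)))))) (T.h (P (nat_lit 0)) (T.h (T.h (M (nat_lit 10372977650615451647)) (T.h (P (nat_lit 0)) (M (nat_lit 1201170315836127)))) (T.h (P (nat_lit 0)) (P (nat_lit 46870734497312)))))) (T.h (T.h (P (nat_lit 0)) (T.h (T.h (P (nat_lit 0)) (M (nat_lit 82063394174631935))) (P (nat_lit 0)))) (T.h (T.h (T.h (P (nat_lit 90695716078622867456)) (T.h (P (nat_lit 0)) (P (nat_lit 227616305269056)))) (T.h (P (nat_lit 0)) (P (nat_lit 211605099716560)))) (T.h (P (nat_lit 0)) (M (nat_lit 100380931134879)))))))), (T.h (T.h (T.h (P (nat_lit 0)) (T.h (M (nat_lit 23189883887025830961654792191)) (T.h (P (nat_lit 0)) (T.h (P (nat_lit 243099935357513639133184)) (T.h (P (nat_lit 0)) (M (nat_lit 595563394477948927))))))) (T.h (P (nat_lit 0)) (T.h (T.h (P (nat_lit 0)) (T.h (P (nat_lit 87515735663265416478720)) (T.h (P (nat_lit 0)) (M (nat_lit 262202542911520767))))) (T.h (P (nat_lit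 0)) (T.h (T.h (P (nat_lit 0)) (P (nat_lit 8342794656481280))) (P (nat_lit 0))))))) (T.h (T.h (P (nat_lit 0)) (T.h (T.h (M (nat_lit 104213714518363397557321727)) (T.h (P (nat_lit 0)) (M (nat_lit 571332830943741214719)))) (T.h (P (nat_lit 0)) (P (nat_lit 99944006815716474880))))) (T.h (T.h (T.h (P (nat_lit 0)) (T.h (P (nat_lit 33956056854755006218240)) (T.h (P (nat_lit 0)) (M (nat_lit 1175977343068569599))))) (T.h (P (nat_lit 0)) (T.h (T.h (P (nat_lit 0)) (M (nat_lit 533260947869499391))) (P (nat_lit 0))))) (T.h (T.h (P (nat_lit 0)) (P (nat_lit 18889754215679262720))) (T.h (T.h (T.h (P (nat_lit 0)) (P (nat_lit 93919563231952896))) (P (nat_lit 0))) (P (nat_lit 0))))))), (P (nat_lit 0)), (P (nat_lit 0)), (T.h (T.h (P (nat_lit 0)) (T.h (T.h (P (nat_lit 14749881374374213291704582144)) (T.h (P (nat_lit 0)) (T.h (M (nat_lit 11789734253094215090175)) (T.h (P (nat_lit 0)) (P (nat_lit 3093658246119424)))))) (T.h (P (nat_lit 0)) (T.h (T.h (P (nat_lit 23967263814739944275968))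 (T.h (P (nat_lit 0)) (P (nat_lit 8725983411961856)))) (T.h (P (nat_lit 0)) (M (nat_lit 15704723851444223))))))) (T.h (T.h (T.h (P (nat_lit 0)) (T.h (P (nat_lit 16689975229306857561522176)) (T.h (P (nat_lit 0)) (T.h (P (nat_lit 365066461145726976)) (T.h (P (nat_lit 0)) (P (nat_lit 26716995752968))))))) (T.h (P (nat_lit 0)) (T.h (T.h (P (nat_lit 0)) (T.h (M (nat_lit 162779457600087916543)) (T.h (P (nat_lit 0)) (P (nat_lit 62213392378344))))) (T.h (P (nat_lit 0)) (T.h (T.h (P (nat_lit 0)) (P (nat_lit 168625746219080))) (P (nat_lit 0))))))) (T.h (T.h (P (nat_lit 0)) (T.h (T.h (P (nat_lit 45578621915765286109184)) (T.h (P (nat_lit 0)) (M (nat_lit 192862439883210751)))) (T.h (P (nat_lit 0)) (P (nat_lit 73661871872507904))))) (T.h (T.h (T.h (P (nat_lit 0)) (T.h (M (nat_lit 69817159720112226303)) (T.h (P (nat_lit 0)) (P (nat_lit 382192262736496))))) (T.h (P (nat_lit 0)) (T.h (T.h (P (nat_lit 0)) (P (nat_lit 194229106012304))) (P (nat_lit 0))))) (T.h (T.h (P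 (nat_lit 0)) (P (nat_lit 82368393406119936))) (T.h (T.h (T.h (P (nat_lit 0)) (M (nat_lit 380826871142319))) (P (nat_lit 0))) (P (nat_lit 0)))))))), (T.h (T.h (P (nat_lit 0)) (T.h (T.h (P (nat_lit 0)) (T.h (M (nat_lit 16415219717815830516334591)) (T.h (P (nat_lit 0)) (T.h (P (nat_lit 109908203411100139520)) (T.h (P (nat_lit 0)) (P (nat_lit 20495869015824))))))) (T.h (P (nat_lit 0)) (T.h (T.h (P (nat_lit 0)) (T.h (P (nat_lit 69725839715362406400)) (T.h (P (nat_lit 0)) (M (nat_lit 45475820045455))))) (T.h (P (nat_lit 0)) (T.h (T.h (P (nat_lit 0)) (M (nat_lit 22027988921247))) (P (nat_lit 0)))))))) (T.h (T.h (T.h (P (nat_lit 2940885621627575000643928064)) (T.h (P (nat_lit 0)) (T.h (M (nat_lit 94851712084561593630719)) (T.h (P (nat_lit 0)) (M (nat_lit 735089316496408575)))))) (T.h (P (nat_lit 0)) (T.h (T.h (P (nat_lit 80986423199241164816384)) (T.h (P (nat_lit 0)) (P (nat_lit 96651728867672064)))) (T.h (P (nat_lit 0)) (P (nat_lit 511413832325070848))))))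 (T.h (T.h (P (nat_lit 0)) (T.h (T.h (P (nat_lit 0)) (T.h (M (nat_lit 828259457634934980607)) (T.h (P (nat_lit 0)) (P (nat_lit 145511679509456))))) (T.h (P (nat_lit 0)) (T.h (T.h (P (nat_lit 0)) (P (nat_lit 713975442312624))) (P (nat_lit 0)))))) (T.h (T.h (T.h (P (nat_lit 116406846110943819071488)) (T.h (P (nat_lit 0)) (P (nat_lit 835144473480052736)))) (T.h (P (nat_lit 0)) (P (nat_lit 19203365430902784)))) (T.h (T.h (P (nat_lit 0)) (T.h (T.h (P (nat_lit 0)) (P (nat_lit 20469176266336))) (P (nat_lit 0)))) (M (nat_lit 56047310886469631)))))))]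
def lQp_35 : List (T ℤ) := [(T.h (T.h (P (nat_lit 0)) (T.h (T.h (M (nat_lit 197031728879750133897284812799)) (T.h (P (nat_lit 0)) (T.h (P (nat_lit 166136637892943920758784)) (T.h (P (nat_lit 0)) (P (nat_lit 408605711218049024)))))) (T.h (P (nat_lit 0)) (T.h (T.h (P (nat_lit 350381446078574004011008)) (T.h (P (nat_lit 0)) (M (nat_lit 82532489449930751)))) (T.h (P (nat_lit 0)) (M (nat_lit 109275666967429119))))))) (T.h (T.h (T.h (P (nat_lit 0)) (T.h (M (nat_lit 488671878389637485219020799)) (T.h (P (nat_lit 0)) (T.h (M (nat_lit 393195357113180749823)) (T.h (P (nat_lit 0)) (P (nat_lit 449154530998320))))))) (T.h (P (nat_lit 0)) (T.h (T.h (P (nat_lit 0)) (T.h (P (nat_lit 1578504036410229522432)) (T.h (P (nat_lit 0)) (P (nat_lit 285630882025040))))) (T.h (P (nat_lit 0)) (T.h (T.h (P (nat_lit 0)) (M (nat_lit 1404487554440639))) (P (nat_lit 0))))))) (T.h (T.h (P (nat_lit 0)) (T.h (T.h (P (nat_lit 166136637892943920758784)) (T.h (P (nat_lit 0)) (P (nat_lit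 2002835965574316032)))) (T.h (P (nat_lit 0)) (M (nat_lit 82532489449930751))))) (T.h (T.h (T.h (P (nat_lit 0)) (T.h (M (nat_lit 393195357113180749823)) (T.h (P (nat_lit 0)) (M (nat_lit 1721559305570879))))) (T.h (P (nat_lit 0)) (T.h (T.h (P (nat_lit 0)) (P (nat_lit 285630882025040))) (P (nat_lit 0))))) (T.h (T.h (P (nat_lit 0)) (P (nat_lit 408605711218049024))) (T.h (T.h (T.h (P (nat_lit 0)) (P (nat_lit 449154530998320))) (P (nat_lit 0))) (P (nat_lit 0)))))))), (T.h (T.h (P (nat_lit 0)) (T.h (T.h (P (nat_lit 0)) (T.h (M (nat_lit 65024100211193024643858431)) (T.h (P (nat_lit 0)) (T.h (M (nat_lit 173216666178182709247)) (T.h (P (nat_lit 0)) (P (nat_lit 128431816472960))))))) (T.h (P (nat_lit 0)) (T.h (T.h (P (nat_lit 0)) (T.h (P (nat_lit 189888095720235335680)) (T.h (P (nat_lit 0)) (M (nat_lit 126198014860367))))) (T.h (P (nat_lit 0)) (T.h (T.h (P (nat_lit 0)) (M (nat_lit 171358582288431))) (P (nat_lit 0)))))))) (T.h (T.h (T.h (M (nat_lit 134270297398750438269189619711))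 (T.h (P (nat_lit 0)) (T.h (M (nat_lit 382351651573250465464319)) (T.h (P (nat_lit 0)) (P (nat_lit 461622103824433152)))))) (T.h (P (nat_lit 0)) (T.h (T.h (P (nat_lit 214501384980258199961600)) (T.h (P (nat_lit 0)) (P (nat_lit 1694244006401474560)))) (T.h (P (nat_lit 0)) (M (nat_lit 325401417075720191)))))) (T.h (T.h (P (nat_lit 0)) (T.h (T.h (P (nat_lit 0)) (T.h (P (nat_lit 1791209464431277768704)) (T.h (P (nat_lit 0)) (M (nat_lit 150609851272495))))) (T.h (P (nat_lit 0)) (T.h (T.h (P (nat_lit 0)) (M (nat_lit 625848463900175))) (P (nat_lit 0)))))) (T.h (T.h (T.h (P (nat_lit 35199011028150773612544)) (T.h (P (nat_lit 0)) (M (nat_lit 663185509083824127)))) (T.h (P (nat_lit 0)) (P (nat_lit 327056660642496512)))) (T.h (T.h (P (nat_lit 0)) (T.h (T.h (P (nat_lit 0)) (P (nat_lit 56095130371632))) (P (nat_lit 0)))) (M (nat_lit 220288745474244607))))))), (T.h (T.h (P (nat_lit 0)) (T.h (T.h (M (nat_lit 12264306295860865433992167423)) (T.h (P (nat_lit 0)) (T.h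 (M (nat_lit 72151306072020993703935)) (T.h (P (nat_lit 0)) (P (nat_lit 353876310217654272)))))) (T.h (P (nat_lit 0)) (T.h (T.h (P (nat_lit 38351697694890571857920)) (T.h (P (nat_lit 0)) (M (nat_lit 12011030252027903)))) (T.h (P (nat_lit 0)) (M (nat_lit 22986133075853311))))))) (T.h (T.h (T.h (P (nat_lit 0)) (T.h (M (nat_lit 178450648329772352166428671)) (T.h (P (nat_lit 0)) (M (nat_lit 468182160841962946559))))) (T.h (P (nat_lit 0)) (T.h (T.h (P (nat_lit 0)) (P (nat_lit 632434394254251393024))) (P (nat_lit 0))))) (T.h (T.h (P (nat_lit 0)) (T.h (T.h (P (nat_lit 126715159606584970051584)) (T.h (P (nat_lit 0)) (M (nat_lit 329315656024653823)))) (T.h (P (nat_lit 0)) (M (nat_lit 95609950710071295))))) (T.h (T.h (T.h (P (nat_lit 0)) (M (nat_lit 312703088898592473087))) (P (nat_lit 0))) (T.h (T.h (P (nat_lit 0)) (P (nat_lit 250273072803250176))) (P (nat_lit 0))))))), (P (nat_lit 0)), (P (nat_lit 0)), (T.h (T.h (T.h (P (nat_lit 0)) (T.h (P (nat_lit 14749881374374213291704582144))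 (T.h (P (nat_lit 0)) (T.h (P (nat_lit 23967263814739944275968)) (T.h (P (nat_lit 0)) (M (nat_lit 15704723851444223))))))) (T.h (P (nat_lit 0)) (T.h (T.h (P (nat_lit 0)) (T.h (M (nat_lit 11789734253094215090175)) (T.h (P (nat_lit 0)) (P (nat_lit 8725983411961856))))) (T.h (P (nat_lit 0)) (T.h (T.h (P (nat_lit 0)) (P (nat_lit 3093658246119424))) (P (nat_lit 0))))))) (T.h (T.h (P (nat_lit 0)) (T.h (T.h (P (nat_lit 16689975229306857561522176)) (T.h (P (nat_lit 0)) (T.h (M (nat_lit 162779457600087916543)) (T.h (P (nat_lit 0)) (P (nat_lit 168625746219080)))))) (T.h (P (nat_lit 0)) (T.h (T.h (P (nat_lit 365066461145726976)) (T.h (P (nat_lit 0)) (P (nat_lit 62213392378344)))) (T.h (P (nat_lit 0)) (P (nat_lit 26716995752968))))))) (T.h (T.h (T.h (P (nat_lit 0)) (T.h (P (nat_lit 45578621915765286109184)) (T.h (P (nat_lit 0)) (P (nat_lit 73661871872507904))))) (T.h (P (nat_lit 0)) (T.h (T.h (P (nat_lit 0)) (M (nat_lit 192862439883210751))) (P (nat_lit 0))))) (T.h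 (T.h (P (nat_lit 0)) (T.h (T.h (M (nat_lit 69817159720112226303)) (T.h (P (nat_lit 0)) (P (nat_lit 194229106012304)))) (T.h (P (nat_lit 0)) (P (nat_lit 382192262736496))))) (T.h (T.h (T.h (P (nat_lit 0)) (P (nat_lit 82368393406119936))) (P (nat_lit 0))) (T.h (T.h (P (nat_lit 0)) (M (nat_lit 380826871142319))) (P (nat_lit 0)))))))), (T.h (T.h (T.h (M (nat_lit 17594253107046821248647494107135)) (T.h (P (nat_lit 0)) (T.h (P (nat_lit 21304803120963885708869632)) (T.h (P (nat_lit 0)) (T.h (M (nat_lit 10244170915285827583)) (T.h (P (nat_lit 0)) (P (nat_lit 35204148183136)))))))) (T.h (P (nat_lit 0)) (T.h (T.h (P (nat_lit 21304803120963885708869632)) (T.h (P (nat_lit 0)) (T.h (M (nat_lit 44292742647633674239)) (T.h (P (nat_lit 0)) (P (nat_lit 7477112616224)))))) (T.h (P (nat_lit 0)) (T.h (T.h (M (nat_lit 10244170915285827583)) (T.h (P (nat_lit 0)) (P (nat_lit 7477112616224)))) (T.h (P (nat_lit 0)) (P (nat_lit 35204148183136)))))))) (T.h (T.h (P (nat_lit 0))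 (T.h (T.h (P (nat_lit 0)) (T.h (P (nat_lit 194674404354259844857856)) (T.h (P (nat_lit 0)) (M (nat_lit 285714783448793087))))) (T.h (P (nat_lit 0)) (T.h (T.h (P (nat_lit 0)) (M (nat_lit 285714783448793087))) (P (nat_lit 0)))))) (T.h (T.h (T.h (M (nat_lit 2350367630756910246920191)) (T.h (P (nat_lit 0)) (T.h (P (nat_lit 297407163401181855744)) (T.h (P (nat_lit 0)) (M (nat_lit 155512376735103)))))) (T.h (P (nat_lit 0)) (T.h (T.h (P (nat_lit 297407163401181855744)) (T.h (P (nat_lit 0)) (P (nat_lit 158867203205152)))) (T.h (P (nat_lit 0)) (M (nat_lit 155512376735103)))))) (T.h (T.h (P (nat_lit 0)) (T.h (T.h (P (nat_lit 0)) (P (nat_lit 187746599905984512))) (P (nat_lit 0)))) (T.h (T.h (T.h (P (nat_lit 69696027185236672512)) (T.h (P (nat_lit 0)) (M (nat_lit 59244869932431)))) (T.h (P (nat_lit 0)) (M (nat_lit 59244869932431)))) (T.h (P (nat_lit 0)) (M (nat_lit 16207010583903)))))))), (T.h (T.h (T.h (P (nat_lit 0)) (T.h (M (nat_lit 73688174316094309240714297343))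 (T.h (P (nat_lit 0)) (T.h (P (nat_lit 134279257036277961195520)) (T.h (P (nat_lit 0)) (M (nat_lit 139676563536871423))))))) (T.h (P (nat_lit 0)) (T.h (T.h (P (nat_lit 0)) (T.h (P (nat_lit 249519099618854889848832)) (T.h (P (nat_lit 0)) (M (nat_lit 15462797180403711))))) (T.h (P (nat_lit 0)) (T.h (T.h (P (nat_lit 0)) (P (nat_lit 92734955848695808))) (P (nat_lit 0))))))) (T.h (T.h (P (nat_lit 0)) (T.h (T.h (P (nat_lit 478282437530316076392382464)) (T.h (P (nat_lit 0)) (T.h (P (nat_lit 1331577639341846953984)) (T.h (P (nat_lit 0)) (P (nat_lit 558493873015360)))))) (T.h (P (nat_lit 0)) (T.h (T.h (P (nat_lit 496675261125670993920)) (T.h (P (nat_lit 0)) (M (nat_lit 280959651272239)))) (T.h (P (nat_lit 0)) (M (nat_lit 152269385097519))))))) (T.h (T.h (T.h (P (nat_lit 0)) (T.h (M (nat_lit 726654696203499998281727)) (T.h (P (nat_lit 0)) (M (nat_lit 307185335357767679))))) (T.h (P (nat_lit 0)) (T.h (T.h (P (nat_lit 0)) (P (nat_lit 3996098057559965696))) (P (nat_lit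 0))))) (T.h (T.h (P (nat_lit 0)) (T.h (T.h (M (nat_lit 739671426795699175423)) (T.h (P (nat_lit 0)) (M (nat_lit 2142289766531599)))) (T.h (P (nat_lit 0)) (P (nat_lit 645090628846960))))) (T.h (T.h (T.h (P (nat_lit 0)) (M (nat_lit 1696284430605844479))) (P (nat_lit 0))) (T.h (T.h (P (nat_lit 0)) (M (nat_lit 462128520591279))) (P (nat_lit 0))))))))]
def lQp_36 : List (T ℤ) := [(T.h (T.h (T.h (M (nat_lit 92097496189341942435335758675967)) (T.h (P (nat_lit 0)) (T.h (P (nat_lit 103826132449980981687877632)) (T.h (P (nat_lit 0)) (T.h (M (nat_lit 65786709903167979519)) (T.h (P (nat_lit 0)) (M (nat_lit 65631642162591)))))))) (T.h (P (nat_lit 0)) (T.h (T.h (P (nat_lit 627887850013612944052453376)) (T.h (P (nat_lit 0)) (T.h (P (nat_lit 395518736283207729152)) (T.h (P (nat_lit 0)) (M (nat_lit 46665150786847)))))) (T.h (P (nat_lit 0)) (T.h (T.h (M (nat_lit 72963703496805187583)) (T.h (P (nat_lit 0)) (P (nat_lit 762953646744960)))) (T.h (P (nat_lit 0)) (P (nat_lit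 21455725471840)))))))) (T.h (T.h (P (nat_lit 0)) (T.h (T.h (P (nat_lit 0)) (T.h (P (nat_lit 1190323880092584575500288)) (T.h (P (nat_lit 0)) (P (nat_lit 169024480259538944))))) (T.h (P (nat_lit 0)) (T.h (T.h (P (nat_lit 0)) (P (nat_lit 1362370564348903424))) (P (nat_lit 0)))))) (T.h (T.h (T.h (P (nat_lit 103826132449980981687877632)) (T.h (P (nat_lit 0)) (T.h (M (nat_lit 718624041559339827199)) (T.h (P (nat_lit 0)) (P (nat_lit 892110877397168)))))) (T.h (P (nat_lit 0)) (T.h (T.h (P (nat_lit 395518736283207729152)) (T.h (P (nat_lit 0)) (M (nat_lit 2378042901799487)))) (T.h (P (nat_lit 0)) (P (nat_lit 762953646744960)))))) (T.h (T.h (P (nat_lit 0)) (T.h (T.h (P (nat_lit 0)) (P (nat_lit 169024480259538944))) (P (nat_lit 0)))) (T.h (T.h (T.h (M (nat_lit 65786709903167979519)) (T.h (P (nat_lit 0)) (P (nat_lit 892110877397168)))) (T.h (P (nat_lit 0)) (M (nat_lit 46665150786847)))) (T.h (P (nat_lit 0)) (M (nat_lit 65631642162591)))))))), (T.h (T.h (T.h (P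 (nat_lit 0)) (T.h (M (nat_lit 58533588080269667130553663487)) (T.h (P (nat_lit 0)) (T.h (M (nat_lit 194793753450289104420863)) (T.h (P (nat_lit 0)) (P (nat_lit 15147995482423296))))))) (T.h (P (nat_lit 0)) (T.h (T.h (P (nat_lit 0)) (T.h (P (nat_lit 307387787828805941329920)) (T.h (P (nat_lit 0)) (M (nat_lit 144336044066504703))))) (T.h (P (nat_lit 0)) (T.h (T.h (P (nat_lit 0)) (M (nat_lit 32282370373353471))) (P (nat_lit 0))))))) (T.h (T.h (P (nat_lit 0)) (T.h (T.h (P (nat_lit 62512067805864717822459904)) (T.h (P (nat_lit 0)) (P (nat_lit 562928614136549998592)))) (T.h (P (nat_lit 0)) (P (nat_lit 451596974912692027392))))) (T.h (T.h (T.h (P (nat_lit 0)) (T.h (P (nat_lit 228364555603926038085632)) (T.h (P (nat_lit 0)) (P (nat_lit 522124404768768000))))) (T.h (P (nat_lit 0)) (T.h (T.h (P (nat_lit 0)) (M (nat_lit 1070033940780810239))) (P (nat_lit 0))))) (T.h (T.h (P (nat_lit 0)) (P (nat_lit 152497253471509020672))) (T.h (T.h (T.h (P (nat_lit 0)) (P (nat_lit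 125002415436529664))) (P (nat_lit 0))) (P (nat_lit 0))))))), (P (nat_lit 0)), (P (nat_lit 0)), (T.h (T.h (P (nat_lit 0)) (T.h (T.h (P (nat_lit 9662406685631375686768787456)) (T.h (P (nat_lit 0)) (T.h (M (nat_lit 6831777259271273578495)) (T.h (P (nat_lit 0)) (P (nat_lit 725418309091328)))))) (T.h (P (nat_lit 0)) (T.h (T.h (M (nat_lit 308556873341813653503)) (T.h (P (nat_lit 0)) (P (nat_lit 9890563182690304)))) (T.h (P (nat_lit 0)) (M (nat_lit 9054777712148479))))))) (T.h (T.h (T.h (P (nat_lit 0)) (T.h (M (nat_lit 11058409231915517491544063)) (T.h (P (nat_lit 0)) (T.h (P (nat_lit 11501981165653327872)) (T.h (P (nat_lit 0)) (P (nat_lit 16978705696584))))))) (T.h (P (nat_lit 0)) (T.h (T.h (P (nat_lit 0)) (T.h (M (nat_lit 41046958461903962111)) (T.h (P (nat_lit 0)) (P (nat_lit 17713433119432))))) (T.h (P (nat_lit 0)) (T.h (T.h (P (nat_lit 0)) (M (nat_lit 20903774469775))) (P (nat_lit 0))))))) (T.h (T.h (P (nat_lit 0)) (T.h (T.h (M (nat_lit 6265702064994287353855))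 (T.h (P (nat_lit 0)) (M (nat_lit 71706097648828415)))) (T.h (P (nat_lit 0)) (M (nat_lit 1053344965394431))))) (T.h (T.h (T.h (P (nat_lit 0)) (T.h (P (nat_lit 14467366569325363200)) (T.h (P (nat_lit 0)) (P (nat_lit 56548575864128))))) (T.h (P (nat_lit 0)) (T.h (T.h (P (nat_lit 0)) (P (nat_lit 30631383465104))) (P (nat_lit 0))))) (T.h (T.h (P (nat_lit 0)) (P (nat_lit 62734219519557632))) (T.h (T.h (T.h (P (nat_lit 0)) (P (nat_lit 25228408055952))) (P (nat_lit 0))) (P (nat_lit 0)))))))), (T.h (T.h (P (nat_lit 0)) (T.h (T.h (P (nat_lit 0)) (T.h (M (nat_lit 16415219717815830516334591)) (T.h (P (nat_lit 0)) (T.h (P (nat_lit 69725839715362406400)) (T.h (P (nat_lit 0)) (M (nat_lit 22027988921247))))))) (T.h (P (nat_lit 0)) (T.h (T.h (P (nat_lit 0)) (T.h (P (nat_lit 109908203411100139520)) (T.h (P (nat_lit 0)) (M (nat_lit 45475820045455))))) (T.h (P (nat_lit 0)) (T.h (T.h (P (nat_lit 0)) (P (nat_lit 20495869015824))) (P (nat_lit 0)))))))) (T.h (T.h (T.h (P (nat_lit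 2940885621627575000643928064)) (T.h (P (nat_lit 0)) (T.h (P (nat_lit 80986423199241164816384)) (T.h (P (nat_lit 0)) (P (nat_lit 511413832325070848)))))) (T.h (P (nat_lit 0)) (T.h (T.h (M (nat_lit 94851712084561593630719)) (T.h (P (nat_lit 0)) (P (nat_lit 96651728867672064)))) (T.h (P (nat_lit 0)) (M (nat_lit 735089316496408575)))))) (T.h (T.h (P (nat_lit 0)) (T.h (T.h (P (nat_lit 0)) (T.h (M (nat_lit 828259457634934980607)) (T.h (P (nat_lit 0)) (P (nat_lit 713975442312624))))) (T.h (P (nat_lit 0)) (T.h (T.h (P (nat_lit 0)) (P (nat_lit 145511679509456))) (P (nat_lit 0)))))) (T.h (T.h (T.h (P (nat_lit 116406846110943819071488)) (T.h (P (nat_lit 0)) (P (nat_lit 19203365430902784)))) (T.h (P (nat_lit 0)) (P (nat_lit 835144473480052736)))) (T.h (T.h (P (nat_lit 0)) (T.h (T.h (P (nat_lit 0)) (P (nat_lit 20469176266336))) (P (nat_lit 0)))) (M (nat_lit 56047310886469631))))))), (T.h (T.h (P (nat_lit 0)) (T.h (T.h (M (nat_lit 73688174316094309240714297343))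 (T.h (P (nat_lit 0)) (T.h (P (nat_lit 249519099618854889848832)) (T.h (P (nat_lit 0)) (P (nat_lit 92734955848695808)))))) (T.h (P (nat_lit 0)) (T.h (T.h (P (nat_lit 134279257036277961195520)) (T.h (P (nat_lit 0)) (M (nat_lit 15462797180403711)))) (T.h (P (nat_lit 0)) (M (nat_lit 139676563536871423))))))) (T.h (T.h (T.h (P (nat_lit 0)) (T.h (P (nat_lit 478282437530316076392382464)) (T.h (P (nat_lit 0)) (T.h (P (nat_lit 496675261125670993920)) (T.h (P (nat_lit 0)) (M (nat_lit 152269385097519))))))) (T.h (P (nat_lit 0)) (T.h (T.h (P (nat_lit 0)) (T.h (P (nat_lit 1331577639341846953984)) (T.h (P (nat_lit 0)) (M (nat_lit 280959651272239))))) (T.h (P (nat_lit 0)) (T.h (T.h (P (nat_lit 0)) (P (nat_lit 558493873015360))) (P (nat_lit 0))))))) (T.h (T.h (P (nat_lit 0)) (T.h (T.h (M (nat_lit 726654696203499998281727)) (T.h (P (nat_lit 0)) (P (nat_lit 3996098057559965696)))) (T.h (P (nat_lit 0)) (M (nat_lit 307185335357767679))))) (T.h (T.h (T.h (P (nat_lit 0))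 (T.h (M (nat_lit 739671426795699175423)) (T.h (P (nat_lit 0)) (P (nat_lit 645090628846960))))) (T.h (P (nat_lit 0)) (T.h (T.h (P (nat_lit 0)) (M (nat_lit 2142289766531599))) (P (nat_lit 0))))) (T.h (T.h (P (nat_lit 0)) (M (nat_lit 1696284430605844479))) (T.h (T.h (T.h (P (nat_lit 0)) (M (nat_lit 462128520591279))) (P (nat_lit 0))) (P (nat_lit 0)))))))), (T.h (T.h (P (nat_lit 0)) (T.h (T.h (P (nat_lit 0)) (T.h (P (nat_lit 1067453883979868015085748224)) (T.h (P (nat_lit 0)) (T.h (P (nat_lit 340584785934494466048)) (T.h (P (nat_lit 0)) (P (nat_lit 527227441331536))))))) (T.h (P (nat_lit 0)) (T.h (T.h (P (nat_lit 0)) (T.h (P (nat_lit 340584785934494466048)) (T.h (P (nat_lit 0)) (P (nat_lit 499486613566688))))) (T.h (P (nat_lit 0)) (T.h (T.h (P (nat_lit 0)) (P (nat_lit 527227441331536))) (P (nat_lit 0)))))))) (T.h (T.h (T.h (P (nat_lit 132662359041641761680029384704)) (T.h (P (nat_lit 0)) (T.h (M (nat_lit 43995443509180686663679)) (T.h (P (nat_lit 0)) (M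 (nat_lit 876883693688602623)))))) (T.h (P (nat_lit 0)) (T.h (T.h (M (nat_lit 43995443509180686663679)) (T.h (P (nat_lit 0)) (M (nat_lit 689360924530540543)))) (T.h (P (nat_lit 0)) (M (nat_lit 876883693688602623)))))) (T.h (T.h (P (nat_lit 0)) (T.h (T.h (P (nat_lit 0)) (T.h (P (nat_lit 3801908698515834404864)) (T.h (P (nat_lit 0)) (M (nat_lit 4190516314817007))))) (T.h (P (nat_lit 0)) (T.h (T.h (P (nat_lit 0)) (M (nat_lit 4190516314817007))) (P (nat_lit 0)))))) (T.h (T.h (T.h (M (nat_lit 211491743838683518730239)) (T.h (P (nat_lit 0)) (P (nat_lit 612240489964568576)))) (T.h (P (nat_lit 0)) (P (nat_lit 612240489964568576)))) (T.h (T.h (P (nat_lit 0)) (T.h (T.h (P (nat_lit 0)) (P (nat_lit 778262612392320))) (P (nat_lit 0)))) (P (nat_lit 398653127412121600)))))))]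
def lQp_37 : List (T ℤ) := [(T.h (T.h (P (nat_lit 0)) (T.h (T.h (P (nat_lit 389297995439723300115101777920)) (T.h (P (nat_lit 0)) (T.h (P (nat_lit 223777562771128231919616)) (T.h (P (nat_lit 0)) (P (nat_lit 618322761071951872)))))) (T.h (P (nat_lit 0)) (T.h (T.h (M (nat_lit 80184449228608727154687)) (T.h (P (nat_lit 0)) (P (nat_lit 66980419558473728)))) (T.h (P (nat_lit 0)) (P (nat_lit 220288323117449216))))))) (T.h (T.h (T.h (P (nat_lit 0)) (T.h (M (nat_lit 147135853041917332044120063)) (T.h (P (nat_lit 0)) (M (nat_lit 257392247864654036991))))) (T.h (P (nat_lit 0)) (T.h (T.h (P (nat_lit 0)) (P (nat_lit 1936470657569816313856))) (P (nat_lit 0))))) (T.h (T.h (P (nat_lit 0)) (T.h (T.h (P (nat_lit 223777562771128231919616)) (T.h (P (nat_lit 0)) (M (nat_lit 5566684382022008831)))) (T.h (P (nat_lit 0)) (P (nat_lit 66980419558473728))))) (T.h (T.h (T.h (P (nat_lit 0)) (M (nat_lit 257392247864654036991))) (P (nat_lit 0))) (T.h (T.h (P (nat_lit 0)) (P (nat_lit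 618322761071951872))) (P (nat_lit 0))))))), (P (nat_lit 0)), (P (nat_lit 0)), (T.h (T.h (T.h (M (nat_lit 20254831134507439147727913484287)) (T.h (P (nat_lit 0)) (T.h (P (nat_lit 8623154526300995311370240)) (T.h (P (nat_lit 0)) (T.h (M (nat_lit 3791356520545910783)) (T.h (P (nat_lit 0)) (P (nat_lit 6987571952256)))))))) (T.h (P (nat_lit 0)) (T.h (T.h (P (nat_lit 29599268406989750704013312)) (T.h (P (nat_lit 0)) (T.h (M (nat_lit 58732646427604811775)) (T.h (P (nat_lit 0)) (P (nat_lit 18863524992736)))))) (T.h (P (nat_lit 0)) (T.h (T.h (M (nat_lit 57188527308720308223)) (T.h (P (nat_lit 0)) (P (nat_lit 15164383117568)))) (T.h (P (nat_lit 0)) (M (nat_lit 26207854071903)))))))) (T.h (T.h (P (nat_lit 0)) (T.h (T.h (P (nat_lit 0)) (T.h (P (nat_lit 453731183376403592642560)) (T.h (P (nat_lit 0)) (M (nat_lit 227822629654233087))))) (T.h (P (nat_lit 0)) (T.h (T.h (P (nat_lit 0)) (P (nat_lit 53449368928747520))) (P (nat_lit 0)))))) (T.h (T.h (T.h (P (nat_lit 29599268406989750704013312))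 (T.h (P (nat_lit 0)) (T.h (M (nat_lit 58732646427604811775)) (T.h (P (nat_lit 0)) (P (nat_lit 18863524992736)))))) (T.h (P (nat_lit 0)) (T.h (T.h (M (nat_lit 148159826317262454783)) (T.h (P (nat_lit 0)) (P (nat_lit 913938109348384)))) (T.h (P (nat_lit 0)) (M (nat_lit 171985111421919)))))) (T.h (T.h (P (nat_lit 0)) (T.h (T.h (P (nat_lit 0)) (P (nat_lit 53449368928747520))) (P (nat_lit 0)))) (T.h (T.h (T.h (M (nat_lit 57188527308720308223)) (T.h (P (nat_lit 0)) (P (nat_lit 15164383117568)))) (T.h (P (nat_lit 0)) (M (nat_lit 171985111421919)))) (T.h (P (nat_lit 0)) (M (nat_lit 26207854071903)))))))), (T.h (T.h (T.h (P (nat_lit 0)) (T.h (M (nat_lit 197031728879750133897284812799)) (T.h (P (nat_lit 0)) (T.h (P (nat_lit 350381446078574004011008)) (T.h (P (nat_lit 0)) (M (nat_lit 109275666967429119))))))) (T.h (P (nat_lit 0)) (T.h (T.h (P (nat_lit 0)) (T.h (P (nat_lit 166136637892943920758784)) (T.h (P (nat_lit 0)) (M (nat_lit 82532489449930751))))) (T.h (P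 (nat_lit 0)) (T.h (T.h (P (nat_lit 0)) (P (nat_lit 408605711218049024))) (P (nat_lit 0))))))) (T.h (T.h (P (nat_lit 0)) (T.h (T.h (M (nat_lit 488671878389637485219020799)) (T.h (P (nat_lit 0)) (T.h (P (nat_lit 1578504036410229522432)) (T.h (P (nat_lit 0)) (M (nat_lit 1404487554440639)))))) (T.h (P (nat_lit 0)) (T.h (T.h (M (nat_lit 393195357113180749823)) (T.h (P (nat_lit 0)) (P (nat_lit 285630882025040)))) (T.h (P (nat_lit 0)) (P (nat_lit 449154530998320))))))) (T.h (T.h (T.h (P (nat_lit 0)) (T.h (P (nat_lit 166136637892943920758784)) (T.h (P (nat_lit 0)) (M (nat_lit 82532489449930751))))) (T.h (P (nat_lit 0)) (T.h (T.h (P (nat_lit 0)) (P (nat_lit 2002835965574316032))) (P (nat_lit 0))))) (T.h (T.h (P (nat_lit 0)) (T.h (T.h (M (nat_lit 393195357113180749823)) (T.h (P (nat_lit 0)) (P (nat_lit 285630882025040)))) (T.h (P (nat_lit 0)) (M (nat_lit 1721559305570879))))) (T.h (T.h (T.h (P (nat_lit 0)) (P (nat_lit 408605711218049024))) (P (nat_lit 0))) (T.h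 (T.h (P (nat_lit 0)) (P (nat_lit 449154530998320))) (P (nat_lit 0)))))))), (T.h (T.h (T.h (M (nat_lit 92097496189341942435335758675967)) (T.h (P (nat_lit 0)) (T.h (P (nat_lit 627887850013612944052453376)) (T.h (P (nat_lit 0)) (T.h (M (nat_lit 72963703496805187583)) (T.h (P (nat_lit 0)) (P (nat_lit 21455725471840)))))))) (T.h (P (nat_lit 0)) (T.h (T.h (P (nat_lit 103826132449980981687877632)) (T.h (P (nat_lit 0)) (T.h (P (nat_lit 395518736283207729152)) (T.h (P (nat_lit 0)) (P (nat_lit 762953646744960)))))) (T.h (P (nat_lit 0)) (T.h (T.h (M (nat_lit 65786709903167979519)) (T.h (P (nat_lit 0)) (M (nat_lit 46665150786847)))) (T.h (P (nat_lit 0)) (M (nat_lit 65631642162591)))))))) (T.h (T.h (P (nat_lit 0)) (T.h (T.h (P (nat_lit 0)) (T.h (P (nat_lit 1190323880092584575500288)) (T.h (P (nat_lit 0)) (P (nat_lit 1362370564348903424))))) (T.h (P (nat_lit 0)) (T.h (T.h (P (nat_lit 0)) (P (nat_lit 169024480259538944))) (P (nat_lit 0)))))) (T.h (T.h (T.h (P (nat_lit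 103826132449980981687877632)) (T.h (P (nat_lit 0)) (T.h (P (nat_lit 395518736283207729152)) (T.h (P (nat_lit 0)) (P (nat_lit 762953646744960)))))) (T.h (P (nat_lit 0)) (T.h (T.h (M (nat_lit 718624041559339827199)) (T.h (P (nat_lit 0)) (M (nat_lit 2378042901799487)))) (T.h (P (nat_lit 0)) (P (nat_lit 892110877397168)))))) (T.h (T.h (P (nat_lit 0)) (T.h (T.h (P (nat_lit 0)) (P (nat_lit 169024480259538944))) (P (nat_lit 0)))) (T.h (T.h (T.h (M (nat_lit 65786709903167979519)) (T.h (P (nat_lit 0)) (M (nat_lit 46665150786847)))) (T.h (P (nat_lit 0)) (P (nat_lit 892110877397168)))) (T.h (P (nat_lit 0)) (M (nat_lit 65631642162591)))))))), (T.h (T.h (T.h (P (nat_lit 0)) (T.h (P (nat_lit 389297995439723300115101777920)) (T.h (P (nat_lit 0)) (T.h (M (nat_lit 80184449228608727154687)) (T.h (P (nat_lit 0)) (P (nat_lit 220288323117449216))))))) (T.h (P (nat_lit 0)) (T.h (T.h (P (nat_lit 0)) (T.h (P (nat_lit 223777562771128231919616)) (T.h (P (nat_lit 0)) (P (nat_lit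 66980419558473728))))) (T.h (P (nat_lit 0)) (T.h (T.h (P (nat_lit 0)) (P (nat_lit 618322761071951872))) (P (nat_lit 0))))))) (T.h (T.h (P (nat_lit 0)) (T.h (T.h (M (nat_lit 147135853041917332044120063)) (T.h (P (nat_lit 0)) (P (nat_lit 1936470657569816313856)))) (T.h (P (nat_lit 0)) (M (nat_lit 257392247864654036991))))) (T.h (T.h (T.h (P (nat_lit 0)) (T.h (P (nat_lit 223777562771128231919616)) (T.h (P (nat_lit 0)) (P (nat_lit 66980419558473728))))) (T.h (P (nat_lit 0)) (T.h (T.h (P (nat_lit 0)) (M (nat_lit 5566684382022008831))) (P (nat_lit 0))))) (T.h (T.h (P (nat_lit 0)) (M (nat_lit 257392247864654036991))) (T.h (T.h (T.h (P (nat_lit 0)) (P (nat_lit 618322761071951872))) (P (nat_lit 0))) (P (nat_lit 0))))))), (P (nat_lit 0))]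
def lQp_38 : List (T ℤ) := [(P (nat_lit 0)), (T.h (T.h (P (nat_lit 0)) (T.h (T.h (P (nat_lit 15103393910805811674524680192)) (T.h (P (nat_lit 0)) (T.h (M (nat_lit 71252488799191958552575)) (T.h (P (nat_lit 0)) (P (nat_lit 195913816851152896)))))) (T.h (P (nat_lit 0)) (T.h (T.h (M (nat_lit 35708899549047051780095)) (T.h (P (nat_lit 0)) (M (nat_lit 120247537389076479)))) (T.h (P (nat_lit 0)) (M (nat_lit 157679197717659647))))))) (T.h (T.h (T.h (P (nat_lit 0)) (T.h (P (nat_lit 84196165240367251311296512)) (T.h (P (nat_lit 0)) (T.h (P (nat_lit 88201718308815241216)) (T.h (P (nat_lit 0)) (P (nat_lit 14276070104160))))))) (T.h (P (nat_lit 0)) (T.h (T.h (P (nat_lit 0)) (T.h (M (nat_lit 228585117517172703231)) (T.h (P (nat_lit 0)) (P (nat_lit 46060579552080))))) (T.h (P (nat_lit 0)) (T.h (T.h (P (nat_lit 0)) (P (nat_lit 332259197192240))) (P (nat_lit 0))))))) (T.h (T.h (P (nat_lit 0)) (T.h (T.h (M (nat_lit 164756038612868625596415)) (T.h (P (nat_lit 0)) (P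 (nat_lit 1020327917606305792)))) (T.h (P (nat_lit 0)) (P (nat_lit 51203836739551232))))) (T.h (T.h (T.h (P (nat_lit 0)) (T.h (M (nat_lit 179317428776303853567)) (T.h (P (nat_lit 0)) (P (nat_lit 246642587654000))))) (T.h (P (nat_lit 0)) (T.h (T.h (P (nat_lit 0)) (M (nat_lit 416838103512879))) (P (nat_lit 0))))) (T.h (T.h (P (nat_lit 0)) (P (nat_lit 253737492773535744))) (T.h (T.h (T.h (P (nat_lit 0)) (P (nat_lit 134158551876800))) (P (nat_lit 0))) (P (nat_lit 0)))))))), (T.h (T.h (P (nat_lit 0)) (T.h (T.h (P (nat_lit 0)) (T.h (M (nat_lit 65024100211193024643858431)) (T.h (P (nat_lit 0)) (T.h (P (nat_lit 189888095720235335680)) (T.h (P (nat_lit 0)) (M (nat_lit 171358582288431))))))) (T.h (P (nat_lit 0)) (T.h (T.h (P (nat_lit 0)) (T.h (M (nat_lit 173216666178182709247)) (T.h (P (nat_lit 0)) (M (nat_lit 126198014860367))))) (T.h (P (nat_lit 0)) (T.h (T.h (P (nat_lit 0)) (P (nat_lit 128431816472960))) (P (nat_lit 0)))))))) (T.h (T.h (T.h (M (nat_lit 134270297398750438269189619711))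 (T.h (P (nat_lit 0)) (T.h (P (nat_lit 214501384980258199961600)) (T.h (P (nat_lit 0)) (M (nat_lit 325401417075720191)))))) (T.h (P (nat_lit 0)) (T.h (T.h (M (nat_lit 382351651573250465464319)) (T.h (P (nat_lit 0)) (P (nat_lit 1694244006401474560)))) (T.h (P (nat_lit 0)) (P (nat_lit 461622103824433152)))))) (T.h (T.h (P (nat_lit 0)) (T.h (T.h (P (nat_lit 0)) (T.h (P (nat_lit 1791209464431277768704)) (T.h (P (nat_lit 0)) (M (nat_lit 625848463900175))))) (T.h (P (nat_lit 0)) (T.h (T.h (P (nat_lit 0)) (M (nat_lit 150609851272495))) (P (nat_lit 0)))))) (T.h (T.h (T.h (P (nat_lit 35199011028150773612544)) (T.h (P (nat_lit 0)) (P (nat_lit 327056660642496512)))) (T.h (P (nat_lit 0)) (M (nat_lit 663185509083824127)))) (T.h (T.h (P (nat_lit 0)) (T.h (T.h (P (nat_lit 0)) (P (nat_lit 56095130371632))) (P (nat_lit 0)))) (M (nat_lit 220288745474244607))))))), (T.h (T.h (P (nat_lit 0)) (T.h (T.h (M (nat_lit 58533588080269667130553663487)) (T.h (P (nat_lit 0)) (T.h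 (P (nat_lit 307387787828805941329920)) (T.h (P (nat_lit 0)) (M (nat_lit 32282370373353471)))))) (T.h (P (nat_lit 0)) (T.h (T.h (M (nat_lit 194793753450289104420863)) (T.h (P (nat_lit 0)) (M (nat_lit 144336044066504703)))) (T.h (P (nat_lit 0)) (P (nat_lit 15147995482423296))))))) (T.h (T.h (T.h (P (nat_lit 0)) (T.h (P (nat_lit 62512067805864717822459904)) (T.h (P (nat_lit 0)) (P (nat_lit 451596974912692027392))))) (T.h (P (nat_lit 0)) (T.h (T.h (P (nat_lit 0)) (P (nat_lit 562928614136549998592))) (P (nat_lit 0))))) (T.h (T.h (P (nat_lit 0)) (T.h (T.h (P (nat_lit 228364555603926038085632)) (T.h (P (nat_lit 0)) (M (nat_lit 1070033940780810239)))) (T.h (P (nat_lit 0)) (P (nat_lit 522124404768768000))))) (T.h (T.h (T.h (P (nat_lit 0)) (P (nat_lit 152497253471509020672))) (P (nat_lit 0))) (T.h (T.h (P (nat_lit 0)) (P (nat_lit 125002415436529664))) (P (nat_lit 0))))))), (P (nat_lit 0)), (P (nat_lit 0)), (T.h (T.h (T.h (M (nat_lit 5579030000330377679209261694975))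 (T.h (P (nat_lit 0)) (T.h (M (nat_lit 5657961527253364136476671)) (T.h (P (nat_lit 0)) (T.h (P (nat_lit 13357060239115943936)) (T.h (P (nat_lit 0)) (M (nat_lit 10492294430287)))))))) (T.h (P (nat_lit 0)) (T.h (T.h (P (nat_lit 19216157866977268909211648)) (T.h (P (nat_lit 0)) (T.h (P (nat_lit 49910012661702066176)) (T.h (P (nat_lit 0)) (P (nat_lit 45874032146976)))))) (T.h (P (nat_lit 0)) (T.h (T.h (P (nat_lit 32562526019337060352)) (T.h (P (nat_lit 0)) (M (nat_lit 311887139930959)))) (T.h (P (nat_lit 0)) (M (nat_lit 499469368768831)))))))) (T.h (T.h (P (nat_lit 0)) (T.h (T.h (P (nat_lit 0)) (T.h (M (nat_lit 457499459866436042751999)) (T.h (P (nat_lit 0)) (P (nat_lit 329846517412593664))))) (T.h (P (nat_lit 0)) (T.h (T.h (P (nat_lit 0)) (M (nat_lit 472196403872694271))) (P (nat_lit 0)))))) (T.h (T.h (T.h (M (nat_lit 96726347834487794787418111)) (T.h (P (nat_lit 0)) (T.h (M (nat_lit 10372977650615451647)) (T.h (P (nat_lit 0)) (P (nat_lit 46870734497312))))))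 (T.h (P (nat_lit 0)) (T.h (T.h (M (nat_lit 52139860623666184191)) (T.h (P (nat_lit 0)) (M (nat_lit 1201170315836127)))) (T.h (P (nat_lit 0)) (M (nat_lit 1548465693749039)))))) (T.h (T.h (P (nat_lit 0)) (T.h (T.h (P (nat_lit 0)) (M (nat_lit 82063394174631935))) (P (nat_lit 0)))) (T.h (T.h (T.h (P (nat_lit 90695716078622867456)) (T.h (P (nat_lit 0)) (P (nat_lit 211605099716560)))) (T.h (P (nat_lit 0)) (P (nat_lit 227616305269056)))) (T.h (P (nat_lit 0)) (M (nat_lit 100380931134879)))))))), (T.h (T.h (T.h (P (nat_lit 0)) (T.h (M (nat_lit 12264306295860865433992167423)) (T.h (P (nat_lit 0)) (T.h (P (nat_lit 38351697694890571857920)) (T.h (P (nat_lit 0)) (M (nat_lit 22986133075853311))))))) (T.h (P (nat_lit 0)) (T.h (T.h (P (nat_lit 0)) (T.h (M (nat_lit 72151306072020993703935)) (T.h (P (nat_lit 0)) (M (nat_lit 12011030252027903))))) (T.h (P (nat_lit 0)) (T.h (T.h (P (nat_lit 0)) (P (nat_lit 353876310217654272))) (P (nat_lit 0))))))) (T.h (T.h (P (nat_lit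 0)) (T.h (T.h (M (nat_lit 178450648329772352166428671)) (T.h (P (nat_lit 0)) (P (nat_lit 632434394254251393024)))) (T.h (P (nat_lit 0)) (M (nat_lit 468182160841962946559))))) (T.h (T.h (T.h (P (nat_lit 0)) (T.h (P (nat_lit 126715159606584970051584)) (T.h (P (nat_lit 0)) (M (nat_lit 95609950710071295))))) (T.h (P (nat_lit 0)) (T.h (T.h (P (nat_lit 0)) (M (nat_lit 329315656024653823))) (P (nat_lit 0))))) (T.h (T.h (P (nat_lit 0)) (M (nat_lit 312703088898592473087))) (T.h (T.h (T.h (P (nat_lit 0)) (P (nat_lit 250273072803250176))) (P (nat_lit 0))) (P (nat_lit 0)))))))]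
def lQp_39 : List (T ℤ) := [(P (nat_lit 0)), (P (nat_lit 0)), (T.h (T.h (P (nat_lit 0)) (T.h (T.h (M (nat_lit 23189883887025830961654792191)) (T.h (P (nat_lit 0)) (T.h (P (nat_lit 87515735663265416478720)) (T.h (P (nat_lit 0)) (P (nat_lit 8342794656481280)))))) (T.h (P (nat_lit 0)) (T.h (T.h (P (nat_lit 243099935357513639133184)) (T.h (P (nat_lit 0)) (M (nat_lit 262202542911520767)))) (T.h (P (nat_lit 0)) (M (nat_lit 595563394477948927))))))) (T.h (T.h (T.h (P (nat_lit 0)) (T.h (M (nat_lit 104213714518363397557321727)) (T.h (P (nat_lit 0)) (P (nat_lit 99944006815716474880))))) (T.h (P (nat_lit 0)) (T.h (T.h (P (nat_lit 0)) (M (nat_lit 571332830943741214719))) (P (nat_lit 0))))) (T.h (T.h (P (nat_lit 0)) (T.h (T.h (P (nat_lit 33956056854755006218240)) (T.h (P (nat_lit 0)) (M (nat_lit 533260947869499391)))) (T.h (P (nat_lit 0)) (M (nat_lit 1175977343068569599))))) (T.h (T.h (T.h (P (nat_lit 0)) (P (nat_lit 18889754215679262720))) (P (nat_lit 0))) (T.h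 (T.h (P (nat_lit 0)) (P (nat_lit 93919563231952896))) (P (nat_lit 0))))))), (P (nat_lit 0)), (P (nat_lit 0)), (P (nat_lit 0)), (P (nat_lit 0)), (P (nat_lit 0))]
def lQp_40 : List (T ℤ) := [(T.h (T.h (P (nat_lit 0)) (T.h (T.h (P (nat_lit 0)) (T.h (P (nat_lit 1705315292969379989291008)) (T.h (P (nat_lit 0)) (T.h (M (nat_lit 2476425389400915967)) (T.h (P (nat_lit 0)) (P (nat_lit 6242764166040))))))) (T.h (P (nat_lit 0)) (T.h (T.h (P (nat_lit 0)) (T.h (M (nat_lit 2377763215032451071)) (T.h (P (nat_lit 0)) (M (nat_lit 2063416401615))))) (T.h (P (nat_lit 0)) (T.h (T.h (P (nat_lit 0)) (M (nat_lit 7158406918607))) (P (nat_lit 0)))))))) (T.h (T.h (T.h (M (nat_lit 2055456681931519564426772479)) (T.h (P (nat_lit 0)) (T.h (P (nat_lit 2766668727805554982912)) (T.h (P (nat_lit 0)) (P (nat_lit 2451024506814464)))))) (T.h (P (nat_lit 0)) (T.h (T.h (P (nat_lit 10035423191259844444160)) (T.h (P (nat_lit 0)) (M (nat_lit 454002489458687)))) (T.h (P (nat_lit 0)) (M (nat_lit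 4075656891629567)))))) (T.h (T.h (P (nat_lit 0)) (T.h (T.h (P (nat_lit 0)) (T.h (M (nat_lit 876704851256410111)) (T.h (P (nat_lit 0)) (P (nat_lit 1415563387736))))) (T.h (P (nat_lit 0)) (T.h (T.h (P (nat_lit 0)) (M (nat_lit 12562440285327))) (P (nat_lit 0)))))) (T.h (T.h (T.h (M (nat_lit 4248991952857825542143)) (T.h (P (nat_lit 0)) (P (nat_lit 8725047214145536)))) (T.h (P (nat_lit 0)) (M (nat_lit 48569078005039103)))) (T.h (T.h (P (nat_lit 0)) (T.h (T.h (P (nat_lit 0)) (P (nat_lit 28937018074768))) (P (nat_lit 0)))) (P (nat_lit 3485283988078592))))))), (T.h (T.h (P (nat_lit 0)) (T.h (T.h (M (nat_lit 21439020041541902305889091583)) (T.h (P (nat_lit 0)) (T.h (M (nat_lit 3066642079731815546879)) (T.h (P (nat_lit 0)) (P (nat_lit 2510440788918272)))))) (T.h (P (nat_lit 0)) (T.h (T.h (P (nat_lit 17368237073517154140160)) (T.h (P (nat_lit 0)) (M (nat_lit 43936759381704703)))) (T.h (P (nat_lit 0)) (P (nat_lit 3881363090505728))))))) (T.h (T.h (T.h (P (nat_lit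 0)) (T.h (M (nat_lit 39555283947184431235596287)) (T.h (P (nat_lit 0)) (T.h (M (nat_lit 30022983081594454015)) (T.h (P (nat_lit 0)) (M (nat_lit 20915930440255))))))) (T.h (P (nat_lit 0)) (T.h (T.h (P (nat_lit 0)) (T.h (P (nat_lit 55318303577196199936)) (T.h (P (nat_lit 0)) (P (nat_lit 18354663940000))))) (T.h (P (nat_lit 0)) (T.h (T.h (P (nat_lit 0)) (P (nat_lit 33481742598912))) (P (nat_lit 0))))))) (T.h (T.h (P (nat_lit 0)) (T.h (T.h (M (nat_lit 3327027577897286107135)) (T.h (P (nat_lit 0)) (P (nat_lit 1332017585995776)))) (T.h (P (nat_lit 0)) (M (nat_lit 1071105886158847))))) (T.h (T.h (T.h (P (nat_lit 0)) (T.h (M (nat_lit 287531455608975785983)) (T.h (P (nat_lit 0)) (P (nat_lit 346327786339536))))) (T.h (P (nat_lit 0)) (T.h (T.h (P (nat_lit 0)) (M (nat_lit 138743880398239))) (P (nat_lit 0))))) (T.h (T.h (P (nat_lit 0)) (M (nat_lit 131088948266926079))) (T.h (T.h (T.h (P (nat_lit 0)) (P (nat_lit 5629987302560))) (P (nat_lit 0))) (P (nat_lit 0)))))))),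 (T.h (T.h (P (nat_lit 0)) (T.h (T.h (P (nat_lit 0)) (T.h (P (nat_lit 84196165240367251311296512)) (T.h (P (nat_lit 0)) (T.h (M (nat_lit 179317428776303853567)) (T.h (P (nat_lit 0)) (P (nat_lit 134158551876800))))))) (T.h (P (nat_lit 0)) (T.h (T.h (P (nat_lit 0)) (T.h (P (nat_lit 88201718308815241216)) (T.h (P (nat_lit 0)) (P (nat_lit 246642587654000))))) (T.h (P (nat_lit 0)) (T.h (T.h (P (nat_lit 0)) (P (nat_lit 14276070104160))) (P (nat_lit 0)))))))) (T.h (T.h (T.h (P (nat_lit 15103393910805811674524680192)) (T.h (P (nat_lit 0)) (T.h (M (nat_lit 164756038612868625596415)) (T.h (P (nat_lit 0)) (P (nat_lit 253737492773535744)))))) (T.h (P (nat_lit 0)) (T.h (T.h (M (nat_lit 71252488799191958552575)) (T.h (P (nat_lit 0)) (P (nat_lit 1020327917606305792)))) (T.h (P (nat_lit 0)) (P (nat_lit 195913816851152896)))))) (T.h (T.h (P (nat_lit 0)) (T.h (T.h (P (nat_lit 0)) (T.h (M (nat_lit 228585117517172703231)) (T.h (P (nat_lit 0)) (M (nat_lit 416838103512879)))))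 (T.h (P (nat_lit 0)) (T.h (T.h (P (nat_lit 0)) (P (nat_lit 46060579552080))) (P (nat_lit 0)))))) (T.h (T.h (T.h (M (nat_lit 35708899549047051780095)) (T.h (P (nat_lit 0)) (P (nat_lit 51203836739551232)))) (T.h (P (nat_lit 0)) (M (nat_lit 120247537389076479)))) (T.h (T.h (P (nat_lit 0)) (T.h (T.h (P (nat_lit 0)) (P (nat_lit 332259197192240))) (P (nat_lit 0)))) (M (nat_lit 157679197717659647))))))), (T.h (T.h (P (nat_lit 0)) (T.h (T.h (M (nat_lit 24992318524765064333499564031)) (T.h (P (nat_lit 0)) (T.h (P (nat_lit 260361686357432774688768)) (T.h (P (nat_lit 0)) (P (nat_lit 265449525198569472)))))) (T.h (P (nat_lit 0)) (T.h (T.h (P (nat_lit 11604628832279974641664)) (T.h (P (nat_lit 0)) (M (nat_lit 58673506168897535)))) (T.h (P (nat_lit 0)) (P (nat_lit 10089550851538944))))))) (T.h (T.h (T.h (P (nat_lit 0)) (T.h (M (nat_lit 13044743086543117431603199)) (T.h (P (nat_lit 0)) (T.h (P (nat_lit 895701505092815421440)) (T.h (P (nat_lit 0)) (M (nat_lit 511264914572719)))))))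 (T.h (P (nat_lit 0)) (T.h (T.h (P (nat_lit 0)) (T.h (P (nat_lit 198258432899561816064)) (T.h (P (nat_lit 0)) (P (nat_lit 523327662662640))))) (T.h (P (nat_lit 0)) (T.h (T.h (P (nat_lit 0)) (M (nat_lit 237527651697951))) (P (nat_lit 0))))))) (T.h (T.h (P (nat_lit 0)) (T.h (T.h (P (nat_lit 260361686357432774688768)) (T.h (P (nat_lit 0)) (P (nat_lit 205872335258877952)))) (T.h (P (nat_lit 0)) (M (nat_lit 58673506168897535))))) (T.h (T.h (T.h (P (nat_lit 0)) (T.h (P (nat_lit 895701505092815421440)) (T.h (P (nat_lit 0)) (M (nat_lit 1759458341326751))))) (T.h (P (nat_lit 0)) (T.h (T.h (P (nat_lit 0)) (P (nat_lit 523327662662640))) (P (nat_lit 0))))) (T.h (T.h (P (nat_lit 0)) (P (nat_lit 265449525198569472))) (T.h (T.h (T.h (P (nat_lit 0)) (M (nat_lit 511264914572719))) (P (nat_lit 0))) (P (nat_lit 0)))))))), (T.h (T.h (P (nat_lit 0)) (T.h (T.h (P (nat_lit 0)) (T.h (P (nat_lit 8530470887322473985998848)) (T.h (P (nat_lit 0)) (M (nat_lit 124755095903367331839)))))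 (T.h (P (nat_lit 0)) (T.h (T.h (P (nat_lit 0)) (M (nat_lit 11526735466153902079))) (P (nat_lit 0)))))) (T.h (T.h (T.h (M (nat_lit 37495071686497208421731794943)) (T.h (P (nat_lit 0)) (T.h (P (nat_lit 426842702168290282700800)) (T.h (P (nat_lit 0)) (M (nat_lit 1052533473347338239)))))) (T.h (P (nat_lit 0)) (T.h (T.h (M (nat_lit 16057378342646109437951)) (T.h (P (nat_lit 0)) (M (nat_lit 154969859478683647)))) (T.h (P (nat_lit 0)) (M (nat_lit 26770372925128703)))))) (T.h (T.h (P (nat_lit 0)) (T.h (T.h (P (nat_lit 0)) (P (nat_lit 394182288451529867264))) (P (nat_lit 0)))) (T.h (T.h (T.h (P (nat_lit 138571131412666097074176)) (T.h (P (nat_lit 0)) (M (nat_lit 813225388758859775)))) (T.h (P (nat_lit 0)) (P (nat_lit 255022184546467840)))) (T.h (P (nat_lit 0)) (M (nat_lit 207322856984575999))))))), (P (nat_lit 0)), (P (nat_lit 0)), (T.h (T.h (T.h (M (nat_lit 1807427213973969121941494169599)) (T.h (P (nat_lit 0)) (T.h (P (nat_lit 8092536662202114245656576)) (T.h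 (P (nat_lit 0)) (T.h (M (nat_lit 2062319634303942655)) (T.h (P (nat_lit 0)) (P (nat_lit 13405914314464)))))))) (T.h (P (nat_lit 0)) (T.h (T.h (P (nat_lit 8092536662202114245656576)) (T.h (P (nat_lit 0)) (T.h (M (nat_lit 540505362181128191)) (T.h (P (nat_lit 0)) (M (nat_lit 4223076310863)))))) (T.h (P (nat_lit 0)) (T.h (T.h (M (nat_lit 2062319634303942655)) (T.h (P (nat_lit 0)) (M (nat_lit 4223076310863)))) (T.h (P (nat_lit 0)) (P (nat_lit 13405914314464)))))))) (T.h (T.h (P (nat_lit 0)) (T.h (T.h (P (nat_lit 0)) (T.h (M (nat_lit 974192166565486526463)) (T.h (P (nat_lit 0)) (M (nat_lit 15505712372383743))))) (T.h (P (nat_lit 0)) (T.h (T.h (P (nat_lit 0)) (M (nat_lit 15505712372383743))) (P (nat_lit 0)))))) (T.h (T.h (T.h (P (nat_lit 6160842414801612932382720)) (T.h (P (nat_lit 0)) (T.h (P (nat_lit 1170152927893913600)) (T.h (P (nat_lit 0)) (P (nat_lit 59823184640880)))))) (T.h (P (nat_lit 0)) (T.h (T.h (P (nat_lit 1170152927893913600)) (T.h (P (nat_lit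 0)) (P (nat_lit 38999358614880)))) (T.h (P (nat_lit 0)) (P (nat_lit 59823184640880)))))) (T.h (T.h (P (nat_lit 0)) (T.h (T.h (P (nat_lit 0)) (M (nat_lit 75502955984846847))) (P (nat_lit 0)))) (T.h (T.h (T.h (M (nat_lit 22231608460203524095)) (T.h (P (nat_lit 0)) (M (nat_lit 89708038750207)))) (T.h (P (nat_lit 0)) (M (nat_lit 89708038750207)))) (T.h (P (nat_lit 0)) (M (nat_lit 6013664591647))))))))]
def lQp_41 : List (T ℤ) := [(T.h (T.h (T.h (P (nat_lit 0)) (T.h (M (nat_lit 16673976384456745519977332735)) (T.h (P (nat_lit 0)) (T.h (P (nat_lit 21987762614248631435264)) (T.h (P (nat_lit 0)) (M (nat_lit 5203831536091135))))))) (T.h (P (nat_lit 0)) (T.h (T.h (P (nat_lit 0)) (T.h (M (nat_lit 636810433992612380671)) (T.h (P (nat_lit 0)) (M (nat_lit 92686055715602431))))) (T.h (P (nat_lit 0)) (T.h (T.h (P (nat_lit 0)) (M (nat_lit 150854767535882239))) (P (nat_lit 0))))))) (T.h (T.h (P (nat_lit 0)) (T.h (T.h (P (nat_lit 139046393886373083755839488)) (T.h (P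 (nat_lit 0)) (T.h (P (nat_lit 49455307798848995328)) (T.h (P (nat_lit 0)) (P (nat_lit 4164924265456)))))) (T.h (P (nat_lit 0)) (T.h (T.h (P (nat_lit 4517300243741540352)) (T.h (P (nat_lit 0)) (P (nat_lit 16557836531408)))) (T.h (P (nat_lit 0)) (M (nat_lit 34652740068447))))))) (T.h (T.h (T.h (P (nat_lit 0)) (T.h (M (nat_lit 276038670265591703535615)) (T.h (P (nat_lit 0)) (P (nat_lit 432994986391224320))))) (T.h (P (nat_lit 0)) (T.h (T.h (P (nat_lit 0)) (P (nat_lit 280027309767213056))) (P (nat_lit 0))))) (T.h (T.h (P (nat_lit 0)) (T.h (T.h (P (nat_lit 317902782325436973056)) (T.h (P (nat_lit 0)) (M (nat_lit 75934935373951)))) (T.h (P (nat_lit 0)) (P (nat_lit 6711510549152))))) (T.h (T.h (T.h (P (nat_lit 0)) (M (nat_lit 147136834461990911))) (P (nat_lit 0))) (T.h (T.h (P (nat_lit 0)) (M (nat_lit 72084300084943))) (P (nat_lit 0)))))))), (T.h (T.h (T.h (M (nat_lit 16373032247394188254534424330239)) (T.h (P (nat_lit 0)) (T.h (M (nat_lit 82364093836797918939447295))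 (T.h (P (nat_lit 0)) (T.h (P (nat_lit 105868750466731474944)) (T.h (P (nat_lit 0)) (M (nat_lit 221185732879199)))))))) (T.h (P (nat_lit 0)) (T.h (T.h (M (nat_lit 23688841013614905995034623)) (T.h (P (nat_lit 0)) (T.h (P (nat_lit 64247427580427239424)) (T.h (P (nat_lit 0)) (P (nat_lit 6417808484560)))))) (T.h (P (nat_lit 0)) (T.h (T.h (P (nat_lit 18525544061490692096)) (T.h (P (nat_lit 0)) (P (nat_lit 174617535857840)))) (T.h (P (nat_lit 0)) (P (nat_lit 19992458540480)))))))) (T.h (T.h (P (nat_lit 0)) (T.h (T.h (P (nat_lit 0)) (T.h (M (nat_lit 176562571776358048858111)) (T.h (P (nat_lit 0)) (M (nat_lit 363780600151343103))))) (T.h (P (nat_lit 0)) (T.h (T.h (P (nat_lit 0)) (M (nat_lit 15819515406319615))) (P (nat_lit 0)))))) (T.h (T.h (T.h (P (nat_lit 183164102553771000985550848)) (T.h (P (nat_lit 0)) (T.h (M (nat_lit 149752501920275103743)) (T.h (P (nat_lit 0)) (P (nat_lit 2048257231413680)))))) (T.h (P (nat_lit 0)) (T.h (T.h (M (nat_lit 448948537288898379775))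 (T.h (P (nat_lit 0)) (P (nat_lit 831663739764240)))) (T.h (P (nat_lit 0)) (M (nat_lit 583660449321759)))))) (T.h (T.h (P (nat_lit 0)) (T.h (T.h (P (nat_lit 0)) (M (nat_lit 260329813543616511))) (P (nat_lit 0)))) (T.h (T.h (T.h (P (nat_lit 64186300245037023232)) (T.h (P (nat_lit 0)) (P (nat_lit 328360484248640)))) (T.h (P (nat_lit 0)) (P (nat_lit 12008700755280)))) (T.h (P (nat_lit 0)) (M (nat_lit 181077617065439)))))))), (T.h (T.h (T.h (P (nat_lit 0)) (T.h (M (nat_lit 134270297398750438269189619711)) (T.h (P (nat_lit 0)) (T.h (P (nat_lit 35199011028150773612544)) (T.h (P (nat_lit 0)) (M (nat_lit 220288745474244607))))))) (T.h (P (nat_lit 0)) (T.h (T.h (P (nat_lit 0)) (T.h (P (nat_lit 214501384980258199961600)) (T.h (P (nat_lit 0)) (P (nat_lit 327056660642496512))))) (T.h (P (nat_lit 0)) (T.h (T.h (P (nat_lit 0)) (M (nat_lit 325401417075720191))) (P (nat_lit 0))))))) (T.h (T.h (P (nat_lit 0)) (T.h (T.h (M (nat_lit 65024100211193024643858431)) (T.h (P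 (nat_lit 0)) (T.h (P (nat_lit 1791209464431277768704)) (T.h (P (nat_lit 0)) (P (nat_lit 56095130371632)))))) (T.h (P (nat_lit 0)) (T.h (T.h (P (nat_lit 189888095720235335680)) (T.h (P (nat_lit 0)) (M (nat_lit 625848463900175)))) (T.h (P (nat_lit 0)) (M (nat_lit 171358582288431))))))) (T.h (T.h (T.h (P (nat_lit 0)) (T.h (M (nat_lit 382351651573250465464319)) (T.h (P (nat_lit 0)) (M (nat_lit 663185509083824127))))) (T.h (P (nat_lit 0)) (T.h (T.h (P (nat_lit 0)) (P (nat_lit 1694244006401474560))) (P (nat_lit 0))))) (T.h (T.h (P (nat_lit 0)) (T.h (T.h (M (nat_lit 173216666178182709247)) (T.h (P (nat_lit 0)) (M (nat_lit 150609851272495)))) (T.h (P (nat_lit 0)) (M (nat_lit 126198014860367))))) (T.h (T.h (T.h (P (nat_lit 0)) (P (nat_lit 461622103824433152))) (P (nat_lit 0))) (T.h (T.h (P (nat_lit 0)) (P (nat_lit 128431816472960))) (P (nat_lit 0)))))))), (T.h (T.h (T.h (M (nat_lit 19911686985342792395777992818687)) (T.h (P (nat_lit 0)) (T.h (P (nat_lit 66216282854357790449729536))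 (T.h (P (nat_lit 0)) (M (nat_lit 89483072378851295231)))))) (T.h (P (nat_lit 0)) (T.h (T.h (M (nat_lit 29866378528940360116207615)) (T.h (P (nat_lit 0)) (P (nat_lit 153817068035633053696)))) (T.h (P (nat_lit 0)) (M (nat_lit 42188510695096582143)))))) (T.h (T.h (P (nat_lit 0)) (T.h (T.h (P (nat_lit 0)) (T.h (P (nat_lit 678210062349546654007296)) (T.h (P (nat_lit 0)) (P (nat_lit 180562133041676288))))) (T.h (P (nat_lit 0)) (T.h (T.h (P (nat_lit 0)) (M (nat_lit 642979739907260415))) (P (nat_lit 0)))))) (T.h (T.h (T.h (P (nat_lit 66216282854357790449729536)) (T.h (P (nat_lit 0)) (M (nat_lit 1204606997567086002175)))) (T.h (P (nat_lit 0)) (P (nat_lit 153817068035633053696)))) (T.h (T.h (P (nat_lit 0)) (T.h (T.h (P (nat_lit 0)) (P (nat_lit 180562133041676288))) (P (nat_lit 0)))) (M (nat_lit 89483072378851295231)))))), (P (nat_lit 0)), (P (nat_lit 0)), (T.h (T.h (P (nat_lit 0)) (T.h (T.h (P (nat_lit 0)) (T.h (P (nat_lit 1705315292969379989291008)) (T.h (P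 (nat_lit 0)) (T.h (M (nat_lit 2377763215032451071)) (T.h (P (nat_lit 0)) (M (nat_lit 7158406918607))))))) (T.h (P (nat_lit 0)) (T.h (T.h (P (nat_lit 0)) (T.h (M (nat_lit 2476425389400915967)) (T.h (P (nat_lit 0)) (M (nat_lit 2063416401615))))) (T.h (P (nat_lit 0)) (T.h (T.h (P (nat_lit 0)) (P (nat_lit 6242764166040))) (P (nat_lit 0)))))))) (T.h (T.h (T.h (M (nat_lit 2055456681931519564426772479)) (T.h (P (nat_lit 0)) (T.h (P (nat_lit 10035423191259844444160)) (T.h (P (nat_lit 0)) (M (nat_lit 4075656891629567)))))) (T.h (P (nat_lit 0)) (T.h (T.h (P (nat_lit 2766668727805554982912)) (T.h (P (nat_lit 0)) (M (nat_lit 454002489458687)))) (T.h (P (nat_lit 0)) (P (nat_lit 2451024506814464)))))) (T.h (T.h (P (nat_lit 0)) (T.h (T.h (P (nat_lit 0)) (T.h (M (nat_lit 876704851256410111)) (T.h (P (nat_lit 0)) (M (nat_lit 12562440285327))))) (T.h (P (nat_lit 0)) (T.h (T.h (P (nat_lit 0)) (P (nat_lit 1415563387736))) (P (nat_lit 0)))))) (T.h (T.h (T.h (M (nat_lit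 4248991952857825542143)) (T.h (P (nat_lit 0)) (M (nat_lit 48569078005039103)))) (T.h (P (nat_lit 0)) (P (nat_lit 8725047214145536)))) (T.h (T.h (P (nat_lit 0)) (T.h (T.h (P (nat_lit 0)) (P (nat_lit 28937018074768))) (P (nat_lit 0)))) (P (nat_lit 3485283988078592))))))), (T.h (T.h (P (nat_lit 0)) (T.h (T.h (M (nat_lit 16673976384456745519977332735)) (T.h (P (nat_lit 0)) (T.h (M (nat_lit 636810433992612380671)) (T.h (P (nat_lit 0)) (M (nat_lit 150854767535882239)))))) (T.h (P (nat_lit 0)) (T.h (T.h (P (nat_lit 21987762614248631435264)) (T.h (P (nat_lit 0)) (M (nat_lit 92686055715602431)))) (T.h (P (nat_lit 0)) (M (nat_lit 5203831536091135))))))) (T.h (T.h (T.h (P (nat_lit 0)) (T.h (P (nat_lit 139046393886373083755839488)) (T.h (P (nat_lit 0)) (T.h (P (nat_lit 4517300243741540352)) (T.h (P (nat_lit 0)) (M (nat_lit 34652740068447))))))) (T.h (P (nat_lit 0)) (T.h (T.h (P (nat_lit 0)) (T.h (P (nat_lit 49455307798848995328)) (T.h (P (nat_lit 0)) (P (nat_lit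 16557836531408))))) (T.h (P (nat_lit 0)) (T.h (T.h (P (nat_lit 0)) (P (nat_lit 4164924265456))) (P (nat_lit 0))))))) (T.h (T.h (P (nat_lit 0)) (T.h (T.h (M (nat_lit 276038670265591703535615)) (T.h (P (nat_lit 0)) (P (nat_lit 280027309767213056)))) (T.h (P (nat_lit 0)) (P (nat_lit 432994986391224320))))) (T.h (T.h (T.h (P (nat_lit 0)) (T.h (P (nat_lit 317902782325436973056)) (T.h (P (nat_lit 0)) (P (nat_lit 6711510549152))))) (T.h (P (nat_lit 0)) (T.h (T.h (P (nat_lit 0)) (M (nat_lit 75934935373951))) (P (nat_lit 0))))) (T.h (T.h (P (nat_lit 0)) (M (nat_lit 147136834461990911))) (T.h (T.h (T.h (P (nat_lit 0)) (M (nat_lit 72084300084943))) (P (nat_lit 0))) (P (nat_lit 0))))))))]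
def lQp_42 : List (T ℤ) := [(T.h (T.h (P (nat_lit 0)) (T.h (T.h (P (nat_lit 0)) (T.h (M (nat_lit 195476179480490388299448319)) (T.h (P (nat_lit 0)) (T.h (P (nat_lit 117559666176704905216)) (T.h (P (nat_lit 0)) (P (nat_lit 40329959640400))))))) (T.h (P (nat_lit 0)) (T.h (T.h (P (nat_lit 0)) (T.h (P (nat_lit 117559666176704905216)) (T.h (P (nat_lit 0)) (M (nat_lit 178876977698559))))) (T.h (P (nat_lit 0)) (T.h (T.h (P (nat_lit 0)) (P (nat_lit 40329959640400))) (P (nat_lit 0)))))))) (T.h (T.h (T.h (P (nat_lit 69633019206119853098857922560)) (T.h (P (nat_lit 0)) (T.h (P (nat_lit 158227689711631811477504)) (T.h (P (nat_lit 0)) (M (nat_lit 299866337198079999)))))) (T.h (P (nat_lit 0)) (T.h (T.h (P (nat_lit 158227689711631811477504)) (T.h (P (nat_lit 0)) (M (nat_lit 185226729645146111)))) (T.h (P (nat_lit 0)) (M (nat_lit 299866337198079999)))))) (T.h (T.h (P (nat_lit 0)) (T.h (T.h (P (nat_lit 0)) (T.h (M (nat_lit 733300534981362188287)) (T.h (P (nat_lit 0))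 (P (nat_lit 327972253000560))))) (T.h (P (nat_lit 0)) (T.h (T.h (P (nat_lit 0)) (P (nat_lit 327972253000560))) (P (nat_lit 0)))))) (T.h (T.h (T.h (M (nat_lit 32165377150601421389823)) (T.h (P (nat_lit 0)) (P (nat_lit 1577009487523938304)))) (T.h (P (nat_lit 0)) (P (nat_lit 1577009487523938304)))) (T.h (T.h (P (nat_lit 0)) (T.h (T.h (P (nat_lit 0)) (M (nat_lit 712331587072959))) (P (nat_lit 0)))) (P (nat_lit 549582392462606336))))))), (T.h (T.h (P (nat_lit 0)) (T.h (T.h (P (nat_lit 19358757907562315046719586304)) (T.h (P (nat_lit 0)) (T.h (P (nat_lit 476423577245513565601792)) (T.h (P (nat_lit 0)) (P (nat_lit 189194584109727744)))))) (T.h (P (nat_lit 0)) (T.h (T.h (P (nat_lit 178031969107254934765568)) (T.h (P (nat_lit 0)) (P (nat_lit 64653329598595072)))) (T.h (P (nat_lit 0)) (M (nat_lit 106449234473418751))))))) (T.h (T.h (T.h (P (nat_lit 0)) (T.h (M (nat_lit 554268061982648718608826367)) (T.h (P (nat_lit 0)) (T.h (M (nat_lit 443740358902233956351))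 (T.h (P (nat_lit 0)) (M (nat_lit 233783438575983))))))) (T.h (P (nat_lit 0)) (T.h (T.h (P (nat_lit 0)) (T.h (P (nat_lit 1515155284965963333632)) (T.h (P (nat_lit 0)) (P (nat_lit 295459527894608))))) (T.h (P (nat_lit 0)) (T.h (T.h (P (nat_lit 0)) (M (nat_lit 842506019795263))) (P (nat_lit 0))))))) (T.h (T.h (P (nat_lit 0)) (T.h (T.h (M (nat_lit 821825102410671628222463)) (T.h (P (nat_lit 0)) (M (nat_lit 1120090004433469439)))) (T.h (P (nat_lit 0)) (M (nat_lit 787272089171591167))))) (T.h (T.h (T.h (P (nat_lit 0)) (T.h (M (nat_lit 1509857225257798074367)) (T.h (P (nat_lit 0)) (M (nat_lit 204484843713391))))) (T.h (P (nat_lit 0)) (T.h (T.h (P (nat_lit 0)) (M (nat_lit 209987776456831))) (P (nat_lit 0))))) (T.h (T.h (P (nat_lit 0)) (M (nat_lit 822325341666951167))) (T.h (T.h (T.h (P (nat_lit 0)) (P (nat_lit 346719340363264))) (P (nat_lit 0))) (P (nat_lit 0)))))))), (T.h (T.h (P (nat_lit 0)) (T.h (T.h (P (nat_lit 0)) (T.h (P (nat_lit 62512067805864717822459904))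 (T.h (P (nat_lit 0)) (P (nat_lit 152497253471509020672))))) (T.h (P (nat_lit 0)) (T.h (T.h (P (nat_lit 0)) (P (nat_lit 451596974912692027392))) (P (nat_lit 0)))))) (T.h (T.h (T.h (M (nat_lit 58533588080269667130553663487)) (T.h (P (nat_lit 0)) (T.h (P (nat_lit 228364555603926038085632)) (T.h (P (nat_lit 0)) (P (nat_lit 125002415436529664)))))) (T.h (P (nat_lit 0)) (T.h (T.h (P (nat_lit 307387787828805941329920)) (T.h (P (nat_lit 0)) (M (nat_lit 1070033940780810239)))) (T.h (P (nat_lit 0)) (M (nat_lit 32282370373353471)))))) (T.h (T.h (P (nat_lit 0)) (T.h (T.h (P (nat_lit 0)) (P (nat_lit 562928614136549998592))) (P (nat_lit 0)))) (T.h (T.h (T.h (M (nat_lit 194793753450289104420863)) (T.h (P (nat_lit 0)) (P (nat_lit 522124404768768000)))) (T.h (P (nat_lit 0)) (M (nat_lit 144336044066504703)))) (T.h (P (nat_lit 0)) (P (nat_lit 15147995482423296))))))), (P (nat_lit 0)), (P (nat_lit 0)), (T.h (T.h (T.h (P (nat_lit 0)) (T.h (M (nat_lit 21439020041541902305889091583))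 (T.h (P (nat_lit 0)) (T.h (P (nat_lit 17368237073517154140160)) (T.h (P (nat_lit 0)) (P (nat_lit 3881363090505728))))))) (T.h (P (nat_lit 0)) (T.h (T.h (P (nat_lit 0)) (T.h (M (nat_lit 3066642079731815546879)) (T.h (P (nat_lit 0)) (M (nat_lit 43936759381704703))))) (T.h (P (nat_lit 0)) (T.h (T.h (P (nat_lit 0)) (P (nat_lit 2510440788918272))) (P (nat_lit 0))))))) (T.h (T.h (P (nat_lit 0)) (T.h (T.h (M (nat_lit 39555283947184431235596287)) (T.h (P (nat_lit 0)) (T.h (P (nat_lit 55318303577196199936)) (T.h (P (nat_lit 0)) (P (nat_lit 33481742598912)))))) (T.h (P (nat_lit 0)) (T.h (T.h (M (nat_lit 30022983081594454015)) (T.h (P (nat_lit 0)) (P (nat_lit 18354663940000)))) (T.h (P (nat_lit 0)) (M (nat_lit 20915930440255))))))) (T.h (T.h (T.h (P (nat_lit 0)) (T.h (M (nat_lit 3327027577897286107135)) (T.h (P (nat_lit 0)) (M (nat_lit 1071105886158847))))) (T.h (P (nat_lit 0)) (T.h (T.h (P (nat_lit 0)) (P (nat_lit 1332017585995776))) (P (nat_lit 0))))) (T.h (T.h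 (P (nat_lit 0)) (T.h (T.h (M (nat_lit 287531455608975785983)) (T.h (P (nat_lit 0)) (M (nat_lit 138743880398239)))) (T.h (P (nat_lit 0)) (P (nat_lit 346327786339536))))) (T.h (T.h (T.h (P (nat_lit 0)) (M (nat_lit 131088948266926079))) (P (nat_lit 0))) (T.h (T.h (P (nat_lit 0)) (P (nat_lit 5629987302560))) (P (nat_lit 0)))))))), (T.h (T.h (T.h (M (nat_lit 16373032247394188254534424330239)) (T.h (P (nat_lit 0)) (T.h (M (nat_lit 23688841013614905995034623)) (T.h (P (nat_lit 0)) (T.h (P (nat_lit 18525544061490692096)) (T.h (P (nat_lit 0)) (P (nat_lit 19992458540480)))))))) (T.h (P (nat_lit 0)) (T.h (T.h (M (nat_lit 82364093836797918939447295)) (T.h (P (nat_lit 0)) (T.h (P (nat_lit 64247427580427239424)) (T.h (P (nat_lit 0)) (P (nat_lit 174617535857840)))))) (T.h (P (nat_lit 0)) (T.h (T.h (P (nat_lit 105868750466731474944)) (T.h (P (nat_lit 0)) (P (nat_lit 6417808484560)))) (T.h (P (nat_lit 0)) (M (nat_lit 221185732879199)))))))) (T.h (T.h (P (nat_lit 0))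 (T.h (T.h (P (nat_lit 0)) (T.h (M (nat_lit 176562571776358048858111)) (T.h (P (nat_lit 0)) (M (nat_lit 15819515406319615))))) (T.h (P (nat_lit 0)) (T.h (T.h (P (nat_lit 0)) (M (nat_lit 363780600151343103))) (P (nat_lit 0)))))) (T.h (T.h (T.h (P (nat_lit 183164102553771000985550848)) (T.h (P (nat_lit 0)) (T.h (M (nat_lit 448948537288898379775)) (T.h (P (nat_lit 0)) (M (nat_lit 583660449321759)))))) (T.h (P (nat_lit 0)) (T.h (T.h (M (nat_lit 149752501920275103743)) (T.h (P (nat_lit 0)) (P (nat_lit 831663739764240)))) (T.h (P (nat_lit 0)) (P (nat_lit 2048257231413680)))))) (T.h (T.h (P (nat_lit 0)) (T.h (T.h (P (nat_lit 0)) (M (nat_lit 260329813543616511))) (P (nat_lit 0)))) (T.h (T.h (T.h (P (nat_lit 64186300245037023232)) (T.h (P (nat_lit 0)) (P (nat_lit 12008700755280)))) (T.h (P (nat_lit 0)) (P (nat_lit 328360484248640)))) (T.h (P (nat_lit 0)) (M (nat_lit 181077617065439)))))))), (T.h (T.h (T.h (P (nat_lit 0)) (T.h (P (nat_lit 19358757907562315046719586304))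 (T.h (P (nat_lit 0)) (T.h (P (nat_lit 178031969107254934765568)) (T.h (P (nat_lit 0)) (M (nat_lit 106449234473418751))))))) (T.h (P (nat_lit 0)) (T.h (T.h (P (nat_lit 0)) (T.h (P (nat_lit 476423577245513565601792)) (T.h (P (nat_lit 0)) (P (nat_lit 64653329598595072))))) (T.h (P (nat_lit 0)) (T.h (T.h (P (nat_lit 0)) (P (nat_lit 189194584109727744))) (P (nat_lit 0))))))) (T.h (T.h (P (nat_lit 0)) (T.h (T.h (M (nat_lit 554268061982648718608826367)) (T.h (P (nat_lit 0)) (T.h (P (nat_lit 1515155284965963333632)) (T.h (P (nat_lit 0)) (M (nat_lit 842506019795263)))))) (T.h (P (nat_lit 0)) (T.h (T.h (M (nat_lit 443740358902233956351)) (T.h (P (nat_lit 0)) (P (nat_lit 295459527894608)))) (T.h (P (nat_lit 0)) (M (nat_lit 233783438575983))))))) (T.h (T.h (T.h (P (nat_lit 0)) (T.h (M (nat_lit 821825102410671628222463)) (T.h (P (nat_lit 0)) (M (nat_lit 787272089171591167))))) (T.h (P (nat_lit 0)) (T.h (T.h (P (nat_lit 0)) (M (nat_lit 1120090004433469439))) (P (nat_lit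 0))))) (T.h (T.h (P (nat_lit 0)) (T.h (T.h (M (nat_lit 1509857225257798074367)) (T.h (P (nat_lit 0)) (M (nat_lit 209987776456831)))) (T.h (P (nat_lit 0)) (M (nat_lit 204484843713391))))) (T.h (T.h (T.h (P (nat_lit 0)) (M (nat_lit 822325341666951167))) (P (nat_lit 0))) (T.h (T.h (P (nat_lit 0)) (P (nat_lit 346719340363264))) (P (nat_lit 0))))))))]
def lQp_43 : List (T ℤ) := [(T.h (T.h (T.h (P (nat_lit 10480330179334628032889529303040)) (T.h (P (nat_lit 0)) (T.h (P (nat_lit 98177673145268500133052416)) (T.h (P (nat_lit 0)) (M (nat_lit 246263348381943332863)))))) (T.h (P (nat_lit 0)) (T.h (T.h (P (nat_lit 98177673145268500133052416)) (T.h (P (nat_lit 0)) (P (nat_lit 200558750337517748224)))) (T.h (P (nat_lit 0)) (M (nat_lit 246263348381943332863)))))) (T.h (T.h (P (nat_lit 0)) (T.h (T.h (P (nat_lit 0)) (T.h (P (nat_lit 1299879884616596717568000)) (T.h (P (nat_lit 0)) (M (nat_lit 2077814719399723007))))) (T.h (P (nat_lit 0)) (T.h (T.h (P (nat_lit 0)) (M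 (nat_lit 2077814719399723007))) (P (nat_lit 0)))))) (T.h (T.h (T.h (M (nat_lit 185157826882941110320103423)) (T.h (P (nat_lit 0)) (M (nat_lit 105537405580398821375)))) (T.h (P (nat_lit 0)) (M (nat_lit 105537405580398821375)))) (T.h (T.h (P (nat_lit 0)) (T.h (T.h (P (nat_lit 0)) (P (nat_lit 423209768725774336))) (P (nat_lit 0)))) (P (nat_lit 19219055889835098112)))))), (P (nat_lit 0)), (P (nat_lit 0)), (T.h (T.h (P (nat_lit 0)) (T.h (T.h (P (nat_lit 0)) (T.h (P (nat_lit 84196165240367251311296512)) (T.h (P (nat_lit 0)) (T.h (P (nat_lit 88201718308815241216)) (T.h (P (nat_lit 0)) (P (nat_lit 14276070104160))))))) (T.h (P (nat_lit 0)) (T.h (T.h (P (nat_lit 0)) (T.h (M (nat_lit 179317428776303853567)) (T.h (P (nat_lit 0)) (P (nat_lit 246642587654000))))) (T.h (P (nat_lit 0)) (T.h (T.h (P (nat_lit 0)) (P (nat_lit 134158551876800))) (P (nat_lit 0)))))))) (T.h (T.h (T.h (P (nat_lit 15103393910805811674524680192)) (T.h (P (nat_lit 0)) (T.h (M (nat_lit 71252488799191958552575))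 (T.h (P (nat_lit 0)) (P (nat_lit 195913816851152896)))))) (T.h (P (nat_lit 0)) (T.h (T.h (M (nat_lit 164756038612868625596415)) (T.h (P (nat_lit 0)) (P (nat_lit 1020327917606305792)))) (T.h (P (nat_lit 0)) (P (nat_lit 253737492773535744)))))) (T.h (T.h (P (nat_lit 0)) (T.h (T.h (P (nat_lit 0)) (T.h (M (nat_lit 228585117517172703231)) (T.h (P (nat_lit 0)) (P (nat_lit 46060579552080))))) (T.h (P (nat_lit 0)) (T.h (T.h (P (nat_lit 0)) (M (nat_lit 416838103512879))) (P (nat_lit 0)))))) (T.h (T.h (T.h (M (nat_lit 35708899549047051780095)) (T.h (P (nat_lit 0)) (M (nat_lit 120247537389076479)))) (T.h (P (nat_lit 0)) (P (nat_lit 51203836739551232)))) (T.h (T.h (P (nat_lit 0)) (T.h (T.h (P (nat_lit 0)) (P (nat_lit 332259197192240))) (P (nat_lit 0)))) (M (nat_lit 157679197717659647))))))), (T.h (T.h (P (nat_lit 0)) (T.h (T.h (M (nat_lit 134270297398750438269189619711)) (T.h (P (nat_lit 0)) (T.h (P (nat_lit 214501384980258199961600)) (T.h (P (nat_lit 0)) (M (nat_lit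 325401417075720191)))))) (T.h (P (nat_lit 0)) (T.h (T.h (P (nat_lit 35199011028150773612544)) (T.h (P (nat_lit 0)) (P (nat_lit 327056660642496512)))) (T.h (P (nat_lit 0)) (M (nat_lit 220288745474244607))))))) (T.h (T.h (T.h (P (nat_lit 0)) (T.h (M (nat_lit 65024100211193024643858431)) (T.h (P (nat_lit 0)) (T.h (P (nat_lit 189888095720235335680)) (T.h (P (nat_lit 0)) (M (nat_lit 171358582288431))))))) (T.h (P (nat_lit 0)) (T.h (T.h (P (nat_lit 0)) (T.h (P (nat_lit 1791209464431277768704)) (T.h (P (nat_lit 0)) (M (nat_lit 625848463900175))))) (T.h (P (nat_lit 0)) (T.h (T.h (P (nat_lit 0)) (P (nat_lit 56095130371632))) (P (nat_lit 0))))))) (T.h (T.h (P (nat_lit 0)) (T.h (T.h (M (nat_lit 382351651573250465464319)) (T.h (P (nat_lit 0)) (P (nat_lit 1694244006401474560)))) (T.h (P (nat_lit 0)) (M (nat_lit 663185509083824127))))) (T.h (T.h (T.h (P (nat_lit 0)) (T.h (M (nat_lit 173216666178182709247)) (T.h (P (nat_lit 0)) (M (nat_lit 126198014860367))))) (T.h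 (P (nat_lit 0)) (T.h (T.h (P (nat_lit 0)) (M (nat_lit 150609851272495))) (P (nat_lit 0))))) (T.h (T.h (P (nat_lit 0)) (P (nat_lit 461622103824433152))) (T.h (T.h (T.h (P (nat_lit 0)) (P (nat_lit 128431816472960))) (P (nat_lit 0))) (P (nat_lit 0)))))))), (T.h (T.h (P (nat_lit 0)) (T.h (T.h (P (nat_lit 0)) (T.h (P (nat_lit 62512067805864717822459904)) (T.h (P (nat_lit 0)) (P (nat_lit 451596974912692027392))))) (T.h (P (nat_lit 0)) (T.h (T.h (P (nat_lit 0)) (P (nat_lit 152497253471509020672))) (P (nat_lit 0)))))) (T.h (T.h (T.h (M (nat_lit 58533588080269667130553663487)) (T.h (P (nat_lit 0)) (T.h (P (nat_lit 307387787828805941329920)) (T.h (P (nat_lit 0)) (M (nat_lit 32282370373353471)))))) (T.h (P (nat_lit 0)) (T.h (T.h (P (nat_lit 228364555603926038085632)) (T.h (P (nat_lit 0)) (M (nat_lit 1070033940780810239)))) (T.h (P (nat_lit 0)) (P (nat_lit 125002415436529664)))))) (T.h (T.h (P (nat_lit 0)) (T.h (T.h (P (nat_lit 0)) (P (nat_lit 562928614136549998592)))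 (P (nat_lit 0)))) (T.h (T.h (T.h (M (nat_lit 194793753450289104420863)) (T.h (P (nat_lit 0)) (M (nat_lit 144336044066504703)))) (T.h (P (nat_lit 0)) (P (nat_lit 522124404768768000)))) (T.h (P (nat_lit 0)) (P (nat_lit 15147995482423296))))))), (P (nat_lit 0)), (P (nat_lit 0))]
def lQp_44 : List (T ℤ) := [(T.h (T.h (T.h (P (nat_lit 0)) (T.h (M (nat_lit 24992318524765064333499564031)) (T.h (P (nat_lit 0)) (T.h (P (nat_lit 11604628832279974641664)) (T.h (P (nat_lit 0)) (P (nat_lit 10089550851538944))))))) (T.h (P (nat_lit 0)) (T.h (T.h (P (nat_lit 0)) (T.h (P (nat_lit 260361686357432774688768)) (T.h (P (nat_lit 0)) (M (nat_lit 58673506168897535))))) (T.h (P (nat_lit 0)) (T.h (T.h (P (nat_lit 0)) (P (nat_lit 265449525198569472))) (P (nat_lit 0))))))) (T.h (T.h (P (nat_lit 0)) (T.h (T.h (M (nat_lit 13044743086543117431603199)) (T.h (P (nat_lit 0)) (T.h (P (nat_lit 198258432899561816064)) (T.h (P (nat_lit 0)) (M (nat_lit 237527651697951)))))) (T.h (P (nat_lit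 0)) (T.h (T.h (P (nat_lit 895701505092815421440)) (T.h (P (nat_lit 0)) (P (nat_lit 523327662662640)))) (T.h (P (nat_lit 0)) (M (nat_lit 511264914572719))))))) (T.h (T.h (T.h (P (nat_lit 0)) (T.h (P (nat_lit 260361686357432774688768)) (T.h (P (nat_lit 0)) (M (nat_lit 58673506168897535))))) (T.h (P (nat_lit 0)) (T.h (T.h (P (nat_lit 0)) (P (nat_lit 205872335258877952))) (P (nat_lit 0))))) (T.h (T.h (P (nat_lit 0)) (T.h (T.h (P (nat_lit 895701505092815421440)) (T.h (P (nat_lit 0)) (P (nat_lit 523327662662640)))) (T.h (P (nat_lit 0)) (M (nat_lit 1759458341326751))))) (T.h (T.h (T.h (P (nat_lit 0)) (P (nat_lit 265449525198569472))) (P (nat_lit 0))) (T.h (T.h (P (nat_lit 0)) (M (nat_lit 511264914572719))) (P (nat_lit 0)))))))), (T.h (T.h (T.h (M (nat_lit 19911686985342792395777992818687)) (T.h (P (nat_lit 0)) (T.h (M (nat_lit 29866378528940360116207615)) (T.h (P (nat_lit 0)) (M (nat_lit 42188510695096582143)))))) (T.h (P (nat_lit 0)) (T.h (T.h (P (nat_lit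 66216282854357790449729536)) (T.h (P (nat_lit 0)) (P (nat_lit 153817068035633053696)))) (T.h (P (nat_lit 0)) (M (nat_lit 89483072378851295231)))))) (T.h (T.h (P (nat_lit 0)) (T.h (T.h (P (nat_lit 0)) (T.h (P (nat_lit 678210062349546654007296)) (T.h (P (nat_lit 0)) (M (nat_lit 642979739907260415))))) (T.h (P (nat_lit 0)) (T.h (T.h (P (nat_lit 0)) (P (nat_lit 180562133041676288))) (P (nat_lit 0)))))) (T.h (T.h (T.h (P (nat_lit 66216282854357790449729536)) (T.h (P (nat_lit 0)) (P (nat_lit 153817068035633053696)))) (T.h (P (nat_lit 0)) (M (nat_lit 1204606997567086002175)))) (T.h (T.h (P (nat_lit 0)) (T.h (T.h (P (nat_lit 0)) (P (nat_lit 180562133041676288))) (P (nat_lit 0)))) (M (nat_lit 89483072378851295231)))))), (P (nat_lit 0)), (P (nat_lit 0)), (T.h (T.h (P (nat_lit 0)) (T.h (T.h (P (nat_lit 0)) (T.h (P (nat_lit 8530470887322473985998848)) (T.h (P (nat_lit 0)) (M (nat_lit 11526735466153902079))))) (T.h (P (nat_lit 0)) (T.h (T.h (P (nat_lit 0)) (M (nat_lit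 124755095903367331839))) (P (nat_lit 0)))))) (T.h (T.h (T.h (M (nat_lit 37495071686497208421731794943)) (T.h (P (nat_lit 0)) (T.h (M (nat_lit 16057378342646109437951)) (T.h (P (nat_lit 0)) (M (nat_lit 26770372925128703)))))) (T.h (P (nat_lit 0)) (T.h (T.h (P (nat_lit 426842702168290282700800)) (T.h (P (nat_lit 0)) (M (nat_lit 154969859478683647)))) (T.h (P (nat_lit 0)) (M (nat_lit 1052533473347338239)))))) (T.h (T.h (P (nat_lit 0)) (T.h (T.h (P (nat_lit 0)) (P (nat_lit 394182288451529867264))) (P (nat_lit 0)))) (T.h (T.h (T.h (P (nat_lit 138571131412666097074176)) (T.h (P (nat_lit 0)) (P (nat_lit 255022184546467840)))) (T.h (P (nat_lit 0)) (M (nat_lit 813225388758859775)))) (T.h (P (nat_lit 0)) (M (nat_lit 207322856984575999))))))), (P (nat_lit 0)), (P (nat_lit 0)), (P (nat_lit 0))]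
def lQp_45 : List (T ℤ) := [(P (nat_lit 0)), (P (nat_lit 0)), (T.h (T.h (T.h (P (nat_lit 0)) (T.h (P (nat_lit 12794100345879409982347149312)) (T.h (P (nat_lit 0)) (T.h (M (nat_lit 1384689428146249793535)) (T.h (P (nat_lit 0)) (M (nat_lit 12294808850366463))))))) (T.h (P (nat_lit 0)) (T.h (T.h (P (nat_lit 0)) (T.h (P (nat_lit 1358226987020332302336)) (T.h (P (nat_lit 0)) (M (nat_lit 132703734923263))))) (T.h (P (nat_lit 0)) (T.h (T.h (P (nat_lit 0)) (M (nat_lit 108913887543295))) (P (nat_lit 0))))))) (T.h (T.h (P (nat_lit 0)) (T.h (T.h (P (nat_lit 1857953842829409745108992)) (T.h (P (nat_lit 0)) (T.h (M (nat_lit 593274009924141055)) (T.h (P (nat_lit 0)) (M (nat_lit 8435143216095)))))) (T.h (P (nat_lit 0)) (T.h (T.h (P (nat_lit 5207521057891680256)) (T.h (P (nat_lit 0)) (M (nat_lit 1495307379447)))) (T.h (P (nat_lit 0)) (M (nat_lit 7889238589567))))))) (T.h (T.h (T.h (P (nat_lit 0)) (T.h (M (nat_lit 495899353916857384959)) (T.h (P (nat_lit 0)) (M (nat_lit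 10798372299145215))))) (T.h (P (nat_lit 0)) (T.h (T.h (P (nat_lit 0)) (M (nat_lit 4763249007394815))) (P (nat_lit 0))))) (T.h (T.h (P (nat_lit 0)) (T.h (T.h (P (nat_lit 8107869170617548800)) (T.h (P (nat_lit 0)) (P (nat_lit 13916663262256)))) (T.h (P (nat_lit 0)) (M (nat_lit 13168855558335))))) (T.h (T.h (T.h (P (nat_lit 0)) (M (nat_lit 38793684289617919))) (P (nat_lit 0))) (T.h (T.h (P (nat_lit 0)) (P (nat_lit 62471784628984))) (P (nat_lit 0)))))))), (T.h (T.h (T.h (M (nat_lit 16310421525849164254090450960383)) (T.h (P (nat_lit 0)) (T.h (P (nat_lit 10121519114408553399451648)) (T.h (P (nat_lit 0)) (T.h (M (nat_lit 2857327944320155647)) (T.h (P (nat_lit 0)) (P (nat_lit 7181325551792)))))))) (T.h (P (nat_lit 0)) (T.h (T.h (M (nat_lit 1377791761044098531721215)) (T.h (P (nat_lit 0)) (T.h (M (nat_lit 244134082416476159)) (T.h (P (nat_lit 0)) (P (nat_lit 7834943220656)))))) (T.h (P (nat_lit 0)) (T.h (T.h (P (nat_lit 4136264342167355392)) (T.h (P (nat_lit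 0)) (P (nat_lit 7778266412928)))) (T.h (P (nat_lit 0)) (M (nat_lit 2258787755471)))))))) (T.h (T.h (P (nat_lit 0)) (T.h (T.h (P (nat_lit 0)) (T.h (P (nat_lit 10010703217678719385600)) (T.h (P (nat_lit 0)) (P (nat_lit 62959274422501376))))) (T.h (P (nat_lit 0)) (T.h (T.h (P (nat_lit 0)) (M (nat_lit 61646594252767231))) (P (nat_lit 0)))))) (T.h (T.h (T.h (P (nat_lit 11683839568522379406606336)) (T.h (P (nat_lit 0)) (T.h (P (nat_lit 61914797905744494592)) (T.h (P (nat_lit 0)) (M (nat_lit 25450372979775)))))) (T.h (P (nat_lit 0)) (T.h (T.h (M (nat_lit 48808837752610095103)) (T.h (P (nat_lit 0)) (M (nat_lit 2428238407215)))) (T.h (P (nat_lit 0)) (M (nat_lit 27352561037247)))))) (T.h (T.h (P (nat_lit 0)) (T.h (T.h (P (nat_lit 0)) (M (nat_lit 190586810511065087))) (P (nat_lit 0)))) (T.h (T.h (T.h (M (nat_lit 2035208997841141759)) (T.h (P (nat_lit 0)) (P (nat_lit 439341944415168)))) (T.h (P (nat_lit 0)) (P (nat_lit 65805890694080)))) (T.h (P (nat_lit 0)) (P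 (nat_lit 63359498543120)))))))), (T.h (T.h (T.h (P (nat_lit 0)) (T.h (M (nat_lit 20775842496571973614966931455)) (T.h (P (nat_lit 0)) (T.h (M (nat_lit 31027422118557268312063)) (T.h (P (nat_lit 0)) (P (nat_lit 80492444654338048))))))) (T.h (P (nat_lit 0)) (T.h (T.h (P (nat_lit 0)) (T.h (P (nat_lit 2528523741828411817984)) (T.h (P (nat_lit 0)) (M (nat_lit 72660222417698815))))) (T.h (P (nat_lit 0)) (T.h (T.h (P (nat_lit 0)) (M (nat_lit 145499149792968703))) (P (nat_lit 0))))))) (T.h (T.h (P (nat_lit 0)) (T.h (T.h (P (nat_lit 59228253820624305253253120)) (T.h (P (nat_lit 0)) (T.h (P (nat_lit 131191371818267049984)) (T.h (P (nat_lit 0)) (M (nat_lit 168865378043199)))))) (T.h (P (nat_lit 0)) (T.h (T.h (M (nat_lit 128776015067756888063)) (T.h (P (nat_lit 0)) (M (nat_lit 162100968221039)))) (T.h (P (nat_lit 0)) (M (nat_lit 12924331522799))))))) (T.h (T.h (T.h (P (nat_lit 0)) (T.h (M (nat_lit 242381418927757509787647)) (T.h (P (nat_lit 0)) (M (nat_lit 214374929667096575)))))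 (T.h (P (nat_lit 0)) (T.h (T.h (P (nat_lit 0)) (M (nat_lit 53650938488881151))) (P (nat_lit 0))))) (T.h (T.h (P (nat_lit 0)) (T.h (T.h (P (nat_lit 177530439701318598656)) (T.h (P (nat_lit 0)) (P (nat_lit 404751258890800)))) (T.h (P (nat_lit 0)) (M (nat_lit 216660159992639))))) (T.h (T.h (T.h (P (nat_lit 0)) (M (nat_lit 534317465604161535))) (P (nat_lit 0))) (T.h (T.h (P (nat_lit 0)) (P (nat_lit 115487932780160))) (P (nat_lit 0)))))))), (T.h (T.h (T.h (M (nat_lit 5579030000330377679209261694975)) (T.h (P (nat_lit 0)) (T.h (M (nat_lit 96726347834487794787418111)) (T.h (P (nat_lit 0)) (T.h (P (nat_lit 90695716078622867456)) (T.h (P (nat_lit 0)) (M (nat_lit 100380931134879)))))))) (T.h (P (nat_lit 0)) (T.h (T.h (M (nat_lit 5657961527253364136476671)) (T.h (P (nat_lit 0)) (T.h (M (nat_lit 10372977650615451647)) (T.h (P (nat_lit 0)) (P (nat_lit 211605099716560)))))) (T.h (P (nat_lit 0)) (T.h (T.h (P (nat_lit 13357060239115943936)) (T.h (P (nat_lit 0)) (P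 (nat_lit 46870734497312)))) (T.h (P (nat_lit 0)) (M (nat_lit 10492294430287)))))))) (T.h (T.h (P (nat_lit 0)) (T.h (T.h (P (nat_lit 0)) (T.h (M (nat_lit 457499459866436042751999)) (T.h (P (nat_lit 0)) (M (nat_lit 82063394174631935))))) (T.h (P (nat_lit 0)) (T.h (T.h (P (nat_lit 0)) (P (nat_lit 329846517412593664))) (P (nat_lit 0)))))) (T.h (T.h (T.h (P (nat_lit 19216157866977268909211648)) (T.h (P (nat_lit 0)) (T.h (M (nat_lit 52139860623666184191)) (T.h (P (nat_lit 0)) (P (nat_lit 227616305269056)))))) (T.h (P (nat_lit 0)) (T.h (T.h (P (nat_lit 49910012661702066176)) (T.h (P (nat_lit 0)) (M (nat_lit 1201170315836127)))) (T.h (P (nat_lit 0)) (P (nat_lit 45874032146976)))))) (T.h (T.h (P (nat_lit 0)) (T.h (T.h (P (nat_lit 0)) (M (nat_lit 472196403872694271))) (P (nat_lit 0)))) (T.h (T.h (T.h (P (nat_lit 32562526019337060352)) (T.h (P (nat_lit 0)) (M (nat_lit 1548465693749039)))) (T.h (P (nat_lit 0)) (M (nat_lit 311887139930959)))) (T.h (P (nat_lit 0))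 (M (nat_lit 499469368768831)))))))), (T.h (T.h (T.h (P (nat_lit 0)) (T.h (M (nat_lit 37495071686497208421731794943)) (T.h (P (nat_lit 0)) (T.h (P (nat_lit 138571131412666097074176)) (T.h (P (nat_lit 0)) (M (nat_lit 207322856984575999))))))) (T.h (P (nat_lit 0)) (T.h (T.h (P (nat_lit 0)) (T.h (M (nat_lit 16057378342646109437951)) (T.h (P (nat_lit 0)) (P (nat_lit 255022184546467840))))) (T.h (P (nat_lit 0)) (T.h (T.h (P (nat_lit 0)) (M (nat_lit 26770372925128703))) (P (nat_lit 0))))))) (T.h (T.h (P (nat_lit 0)) (T.h (T.h (P (nat_lit 8530470887322473985998848)) (T.h (P (nat_lit 0)) (P (nat_lit 394182288451529867264)))) (T.h (P (nat_lit 0)) (M (nat_lit 11526735466153902079))))) (T.h (T.h (T.h (P (nat_lit 0)) (T.h (P (nat_lit 426842702168290282700800)) (T.h (P (nat_lit 0)) (M (nat_lit 813225388758859775))))) (T.h (P (nat_lit 0)) (T.h (T.h (P (nat_lit 0)) (M (nat_lit 154969859478683647))) (P (nat_lit 0))))) (T.h (T.h (P (nat_lit 0)) (M (nat_lit 124755095903367331839)))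 (T.h (T.h (T.h (P (nat_lit 0)) (M (nat_lit 1052533473347338239))) (P (nat_lit 0))) (P (nat_lit 0))))))), (P (nat_lit 0))]
def lQp_46 : List (T ℤ) := [(P (nat_lit 0)), (T.h (T.h (P (nat_lit 0)) (T.h (T.h (P (nat_lit 12794100345879409982347149312)) (T.h (P (nat_lit 0)) (T.h (P (nat_lit 1358226987020332302336)) (T.h (P (nat_lit 0)) (M (nat_lit 108913887543295)))))) (T.h (P (nat_lit 0)) (T.h (T.h (M (nat_lit 1384689428146249793535)) (T.h (P (nat_lit 0)) (M (nat_lit 132703734923263)))) (T.h (P (nat_lit 0)) (M (nat_lit 12294808850366463))))))) (T.h (T.h (T.h (P (nat_lit 0)) (T.h (P (nat_lit 1857953842829409745108992)) (T.h (P (nat_lit 0)) (T.h (P (nat_lit 5207521057891680256)) (T.h (P (nat_lit 0)) (M (nat_lit 7889238589567))))))) (T.h (P (nat_lit 0)) (T.h (T.h (P (nat_lit 0)) (T.h (M (nat_lit 593274009924141055)) (T.h (P (nat_lit 0)) (M (nat_lit 1495307379447))))) (T.h (P (nat_lit 0)) (T.h (T.h (P (nat_lit 0)) (M (nat_lit 8435143216095))) (P (nat_lit 0)))))))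 (T.h (T.h (P (nat_lit 0)) (T.h (T.h (M (nat_lit 495899353916857384959)) (T.h (P (nat_lit 0)) (M (nat_lit 4763249007394815)))) (T.h (P (nat_lit 0)) (M (nat_lit 10798372299145215))))) (T.h (T.h (T.h (P (nat_lit 0)) (T.h (P (nat_lit 8107869170617548800)) (T.h (P (nat_lit 0)) (M (nat_lit 13168855558335))))) (T.h (P (nat_lit 0)) (T.h (T.h (P (nat_lit 0)) (P (nat_lit 13916663262256))) (P (nat_lit 0))))) (T.h (T.h (P (nat_lit 0)) (M (nat_lit 38793684289617919))) (T.h (T.h (T.h (P (nat_lit 0)) (P (nat_lit 62471784628984))) (P (nat_lit 0))) (P (nat_lit 0)))))))), (T.h (T.h (P (nat_lit 0)) (T.h (T.h (P (nat_lit 0)) (T.h (M (nat_lit 6317920619929703964213247)) (T.h (P (nat_lit 0)) (T.h (P (nat_lit 31644833031112359936)) (T.h (P (nat_lit 0)) (M (nat_lit 9359451847407))))))) (T.h (P (nat_lit 0)) (T.h (T.h (P (nat_lit 0)) (T.h (P (nat_lit 31644833031112359936)) (T.h (P (nat_lit 0)) (M (nat_lit 9080975901567))))) (T.h (P (nat_lit 0)) (T.h (T.h (P (nat_lit 0)) (M (nat_lit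 9359451847407))) (P (nat_lit 0)))))))) (T.h (T.h (T.h (P (nat_lit 22778679047823241513898344448)) (T.h (P (nat_lit 0)) (T.h (P (nat_lit 16637201450160661463040)) (T.h (P (nat_lit 0)) (M (nat_lit 52018046610030591)))))) (T.h (P (nat_lit 0)) (T.h (T.h (P (nat_lit 16637201450160661463040)) (T.h (P (nat_lit 0)) (P (nat_lit 108384944355377152)))) (T.h (P (nat_lit 0)) (M (nat_lit 52018046610030591)))))) (T.h (T.h (P (nat_lit 0)) (T.h (T.h (P (nat_lit 0)) (T.h (M (nat_lit 162904376799993528319)) (T.h (P (nat_lit 0)) (P (nat_lit 13668783183072))))) (T.h (P (nat_lit 0)) (T.h (T.h (P (nat_lit 0)) (P (nat_lit 13668783183072))) (P (nat_lit 0)))))) (T.h (T.h (T.h (M (nat_lit 103945883092789225324543)) (T.h (P (nat_lit 0)) (M (nat_lit 56333667256090623)))) (T.h (P (nat_lit 0)) (M (nat_lit 56333667256090623)))) (T.h (T.h (P (nat_lit 0)) (T.h (T.h (P (nat_lit 0)) (M (nat_lit 216448194887871))) (P (nat_lit 0)))) (P (nat_lit 67245607427866624))))))), (T.h (T.h (P (nat_lit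 0)) (T.h (T.h (P (nat_lit 49729393334821837117149151232)) (T.h (P (nat_lit 0)) (T.h (M (nat_lit 40371155272180078477311)) (T.h (P (nat_lit 0)) (M (nat_lit 147024609411497983)))))) (T.h (P (nat_lit 0)) (T.h (T.h (M (nat_lit 147949350077792008536063)) (T.h (P (nat_lit 0)) (P (nat_lit 10659707077853184)))) (T.h (P (nat_lit 0)) (P (nat_lit 39457157562138624))))))) (T.h (T.h (T.h (P (nat_lit 0)) (T.h (M (nat_lit 21803050347179325362536447)) (T.h (P (nat_lit 0)) (T.h (M (nat_lit 252614769847746691071)) (T.h (P (nat_lit 0)) (M (nat_lit 43199649132079))))))) (T.h (P (nat_lit 0)) (T.h (T.h (P (nat_lit 0)) (T.h (P (nat_lit 196772623904814399488)) (T.h (P (nat_lit 0)) (P (nat_lit 20503582987040))))) (T.h (P (nat_lit 0)) (T.h (T.h (P (nat_lit 0)) (M (nat_lit 44698048341039))) (P (nat_lit 0))))))) (T.h (T.h (P (nat_lit 0)) (T.h (T.h (M (nat_lit 73843120531193250971647)) (T.h (P (nat_lit 0)) (M (nat_lit 271640997523259391)))) (T.h (P (nat_lit 0)) (M (nat_lit 266648551588659199)))))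 (T.h (T.h (T.h (P (nat_lit 0)) (T.h (P (nat_lit 1399096577830976225280)) (T.h (P (nat_lit 0)) (M (nat_lit 711631137030639))))) (T.h (P (nat_lit 0)) (T.h (T.h (P (nat_lit 0)) (M (nat_lit 441513584918559))) (P (nat_lit 0))))) (T.h (T.h (P (nat_lit 0)) (M (nat_lit 415386975931596799))) (T.h (T.h (T.h (P (nat_lit 0)) (M (nat_lit 50797908111999))) (P (nat_lit 0))) (P (nat_lit 0)))))))), (T.h (T.h (P (nat_lit 0)) (T.h (T.h (P (nat_lit 0)) (T.h (M (nat_lit 44325833412268898624995327)) (T.h (P (nat_lit 0)) (T.h (M (nat_lit 1378257928816951295)) (T.h (P (nat_lit 0)) (P (nat_lit 172986961464416))))))) (T.h (P (nat_lit 0)) (T.h (T.h (P (nat_lit 0)) (T.h (P (nat_lit 72822950036406009856)) (T.h (P (nat_lit 0)) (M (nat_lit 25054827595247))))) (T.h (P (nat_lit 0)) (T.h (T.h (P (nat_lit 0)) (P (nat_lit 110851673169776))) (P (nat_lit 0)))))))) (T.h (T.h (T.h (P (nat_lit 97760208326290814134334259200)) (T.h (P (nat_lit 0)) (T.h (M (nat_lit 278980705928123856715775))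 (T.h (P (nat_lit 0)) (P (nat_lit 882516363633868800)))))) (T.h (P (nat_lit 0)) (T.h (T.h (M (nat_lit 20690681049946643234815)) (T.h (P (nat_lit 0)) (P (nat_lit 236215949933527040)))) (T.h (P (nat_lit 0)) (M (nat_lit 194314061239648255)))))) (T.h (T.h (P (nat_lit 0)) (T.h (T.h (P (nat_lit 0)) (T.h (M (nat_lit 1098496507911096762367)) (T.h (P (nat_lit 0)) (P (nat_lit 361794974546192))))) (T.h (P (nat_lit 0)) (T.h (T.h (P (nat_lit 0)) (P (nat_lit 130585546475472))) (P (nat_lit 0)))))) (T.h (T.h (T.h (P (nat_lit 137990060745107722731520)) (T.h (P (nat_lit 0)) (M (nat_lit 485870168424939519)))) (T.h (P (nat_lit 0)) (M (nat_lit 165709087135268863)))) (T.h (T.h (P (nat_lit 0)) (T.h (T.h (P (nat_lit 0)) (P (nat_lit 1882318035580224))) (P (nat_lit 0)))) (P (nat_lit 133679943531233280))))))), (T.h (T.h (P (nat_lit 0)) (T.h (T.h (M (nat_lit 12264306295860865433992167423)) (T.h (P (nat_lit 0)) (T.h (P (nat_lit 126715159606584970051584)) (T.h (P (nat_lit 0)) (P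 (nat_lit 250273072803250176)))))) (T.h (P (nat_lit 0)) (T.h (T.h (P (nat_lit 38351697694890571857920)) (T.h (P (nat_lit 0)) (M (nat_lit 95609950710071295)))) (T.h (P (nat_lit 0)) (M (nat_lit 22986133075853311))))))) (T.h (T.h (T.h (P (nat_lit 0)) (T.h (M (nat_lit 178450648329772352166428671)) (T.h (P (nat_lit 0)) (M (nat_lit 312703088898592473087))))) (T.h (P (nat_lit 0)) (T.h (T.h (P (nat_lit 0)) (P (nat_lit 632434394254251393024))) (P (nat_lit 0))))) (T.h (T.h (P (nat_lit 0)) (T.h (T.h (M (nat_lit 72151306072020993703935)) (T.h (P (nat_lit 0)) (M (nat_lit 329315656024653823)))) (T.h (P (nat_lit 0)) (M (nat_lit 12011030252027903))))) (T.h (T.h (T.h (P (nat_lit 0)) (M (nat_lit 468182160841962946559))) (P (nat_lit 0))) (T.h (T.h (P (nat_lit 0)) (P (nat_lit 353876310217654272))) (P (nat_lit 0))))))), (P (nat_lit 0)), (P (nat_lit 0))]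
def lQp_47 : List (T ℤ) := [(T.h (T.h (T.h (M (nat_lit 16310421525849164254090450960383)) (T.h (P (nat_lit 0)) (T.h (M (nat_lit 1377791761044098531721215)) (T.h (P (nat_lit 0)) (T.h (P (nat_lit 4136264342167355392)) (T.h (P (nat_lit 0)) (M (nat_lit 2258787755471)))))))) (T.h (P (nat_lit 0)) (T.h (T.h (P (nat_lit 10121519114408553399451648)) (T.h (P (nat_lit 0)) (T.h (M (nat_lit 244134082416476159)) (T.h (P (nat_lit 0)) (P (nat_lit 7778266412928)))))) (T.h (P (nat_lit 0)) (T.h (T.h (M (nat_lit 2857327944320155647)) (T.h (P (nat_lit 0)) (P (nat_lit 7834943220656)))) (T.h (P (nat_lit 0)) (P (nat_lit 7181325551792)))))))) (T.h (T.h (P (nat_lit 0)) (T.h (T.h (P (nat_lit 0)) (T.h (P (nat_lit 10010703217678719385600)) (T.h (P (nat_lit 0)) (M (nat_lit 61646594252767231))))) (T.h (P (nat_lit 0)) (T.h (T.h (P (nat_lit 0)) (P (nat_lit 62959274422501376))) (P (nat_lit 0)))))) (T.h (T.h (T.h (P (nat_lit 11683839568522379406606336)) (T.h (P (nat_lit 0)) (T.h (M (nat_lit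 48808837752610095103)) (T.h (P (nat_lit 0)) (M (nat_lit 27352561037247)))))) (T.h (P (nat_lit 0)) (T.h (T.h (P (nat_lit 61914797905744494592)) (T.h (P (nat_lit 0)) (M (nat_lit 2428238407215)))) (T.h (P (nat_lit 0)) (M (nat_lit 25450372979775)))))) (T.h (T.h (P (nat_lit 0)) (T.h (T.h (P (nat_lit 0)) (M (nat_lit 190586810511065087))) (P (nat_lit 0)))) (T.h (T.h (T.h (M (nat_lit 2035208997841141759)) (T.h (P (nat_lit 0)) (P (nat_lit 65805890694080)))) (T.h (P (nat_lit 0)) (P (nat_lit 439341944415168)))) (T.h (P (nat_lit 0)) (P (nat_lit 63359498543120)))))))), (T.h (T.h (T.h (P (nat_lit 0)) (T.h (P (nat_lit 49729393334821837117149151232)) (T.h (P (nat_lit 0)) (T.h (M (nat_lit 147949350077792008536063)) (T.h (P (nat_lit 0)) (P (nat_lit 39457157562138624))))))) (T.h (P (nat_lit 0)) (T.h (T.h (P (nat_lit 0)) (T.h (M (nat_lit 40371155272180078477311)) (T.h (P (nat_lit 0)) (P (nat_lit 10659707077853184))))) (T.h (P (nat_lit 0)) (T.h (T.h (P (nat_lit 0)) (M (nat_lit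 147024609411497983))) (P (nat_lit 0))))))) (T.h (T.h (P (nat_lit 0)) (T.h (T.h (M (nat_lit 21803050347179325362536447)) (T.h (P (nat_lit 0)) (T.h (P (nat_lit 196772623904814399488)) (T.h (P (nat_lit 0)) (M (nat_lit 44698048341039)))))) (T.h (P (nat_lit 0)) (T.h (T.h (M (nat_lit 252614769847746691071)) (T.h (P (nat_lit 0)) (P (nat_lit 20503582987040)))) (T.h (P (nat_lit 0)) (M (nat_lit 43199649132079))))))) (T.h (T.h (T.h (P (nat_lit 0)) (T.h (M (nat_lit 73843120531193250971647)) (T.h (P (nat_lit 0)) (M (nat_lit 266648551588659199))))) (T.h (P (nat_lit 0)) (T.h (T.h (P (nat_lit 0)) (M (nat_lit 271640997523259391))) (P (nat_lit 0))))) (T.h (T.h (P (nat_lit 0)) (T.h (T.h (P (nat_lit 1399096577830976225280)) (T.h (P (nat_lit 0)) (M (nat_lit 441513584918559)))) (T.h (P (nat_lit 0)) (M (nat_lit 711631137030639))))) (T.h (T.h (T.h (P (nat_lit 0)) (M (nat_lit 415386975931596799))) (P (nat_lit 0))) (T.h (T.h (P (nat_lit 0)) (M (nat_lit 50797908111999))) (P (nat_lit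 0)))))))), (T.h (T.h (T.h (P (nat_lit 26077830506595865461661229907968)) (T.h (P (nat_lit 0)) (T.h (M (nat_lit 318182497165845239080943615)) (T.h (P (nat_lit 0)) (T.h (P (nat_lit 85790700551431782400)) (T.h (P (nat_lit 0)) (M (nat_lit 48388242410463)))))))) (T.h (P (nat_lit 0)) (T.h (T.h (M (nat_lit 318182497165845239080943615)) (T.h (P (nat_lit 0)) (T.h (P (nat_lit 179141532945106337792)) (T.h (P (nat_lit 0)) (P (nat_lit 115714159541728)))))) (T.h (P (nat_lit 0)) (T.h (T.h (P (nat_lit 85790700551431782400)) (T.h (P (nat_lit 0)) (P (nat_lit 115714159541728)))) (T.h (P (nat_lit 0)) (M (nat_lit 48388242410463)))))))) (T.h (T.h (P (nat_lit 0)) (T.h (T.h (P (nat_lit 0)) (T.h (P (nat_lit 318982793860663945986048)) (T.h (P (nat_lit 0)) (M (nat_lit 193123563191042047))))) (T.h (P (nat_lit 0)) (T.h (T.h (P (nat_lit 0)) (M (nat_lit 193123563191042047))) (P (nat_lit 0)))))) (T.h (T.h (T.h (M (nat_lit 264928016980467986982764543)) (T.h (P (nat_lit 0)) (T.h (M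 (nat_lit 693921528551026196479)) (T.h (P (nat_lit 0)) (M (nat_lit 153371460460767)))))) (T.h (P (nat_lit 0)) (T.h (T.h (M (nat_lit 693921528551026196479)) (T.h (P (nat_lit 0)) (P (nat_lit 1545953600471104)))) (T.h (P (nat_lit 0)) (M (nat_lit 153371460460767)))))) (T.h (T.h (P (nat_lit 0)) (T.h (T.h (P (nat_lit 0)) (M (nat_lit 1483349204858044415))) (P (nat_lit 0)))) (T.h (T.h (T.h (M (nat_lit 218518617920488079359)) (T.h (P (nat_lit 0)) (P (nat_lit 60230847533472)))) (T.h (P (nat_lit 0)) (P (nat_lit 60230847533472)))) (T.h (P (nat_lit 0)) (P (nat_lit 329438584916672)))))))), (T.h (T.h (T.h (P (nat_lit 0)) (T.h (M (nat_lit 133768656778760561275365752831)) (T.h (P (nat_lit 0)) (T.h (P (nat_lit 29219963289720217141248)) (T.h (P (nat_lit 0)) (M (nat_lit 65373264351297535))))))) (T.h (P (nat_lit 0)) (T.h (T.h (P (nat_lit 0)) (T.h (P (nat_lit 265991905201773512491008)) (T.h (P (nat_lit 0)) (P (nat_lit 127190422486253568))))) (T.h (P (nat_lit 0)) (T.h (T.h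 (P (nat_lit 0)) (M (nat_lit 10578727072661503))) (P (nat_lit 0))))))) (T.h (T.h (P (nat_lit 0)) (T.h (T.h (M (nat_lit 71817996516439123818446847)) (T.h (P (nat_lit 0)) (M (nat_lit 302479476523544870911)))) (T.h (P (nat_lit 0)) (M (nat_lit 293417813422567849983))))) (T.h (T.h (T.h (P (nat_lit 0)) (T.h (M (nat_lit 1083909940175908072587263)) (T.h (P (nat_lit 0)) (M (nat_lit 161074343272644607))))) (T.h (P (nat_lit 0)) (T.h (T.h (P (nat_lit 0)) (P (nat_lit 531307149684015104))) (P (nat_lit 0))))) (T.h (T.h (P (nat_lit 0)) (M (nat_lit 237324560957846847487))) (T.h (T.h (T.h (P (nat_lit 0)) (P (nat_lit 695645357607747584))) (P (nat_lit 0))) (P (nat_lit 0))))))), (P (nat_lit 0)), (P (nat_lit 0)), (T.h (T.h (P (nat_lit 0)) (T.h (T.h (M (nat_lit 20775842496571973614966931455)) (T.h (P (nat_lit 0)) (T.h (P (nat_lit 2528523741828411817984)) (T.h (P (nat_lit 0)) (M (nat_lit 145499149792968703)))))) (T.h (P (nat_lit 0)) (T.h (T.h (M (nat_lit 31027422118557268312063))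 (T.h (P (nat_lit 0)) (M (nat_lit 72660222417698815)))) (T.h (P (nat_lit 0)) (P (nat_lit 80492444654338048))))))) (T.h (T.h (T.h (P (nat_lit 0)) (T.h (P (nat_lit 59228253820624305253253120)) (T.h (P (nat_lit 0)) (T.h (M (nat_lit 128776015067756888063)) (T.h (P (nat_lit 0)) (M (nat_lit 12924331522799))))))) (T.h (P (nat_lit 0)) (T.h (T.h (P (nat_lit 0)) (T.h (P (nat_lit 131191371818267049984)) (T.h (P (nat_lit 0)) (M (nat_lit 162100968221039))))) (T.h (P (nat_lit 0)) (T.h (T.h (P (nat_lit 0)) (M (nat_lit 168865378043199))) (P (nat_lit 0))))))) (T.h (T.h (P (nat_lit 0)) (T.h (T.h (M (nat_lit 242381418927757509787647)) (T.h (P (nat_lit 0)) (M (nat_lit 53650938488881151)))) (T.h (P (nat_lit 0)) (M (nat_lit 214374929667096575))))) (T.h (T.h (T.h (P (nat_lit 0)) (T.h (P (nat_lit 177530439701318598656)) (T.h (P (nat_lit 0)) (M (nat_lit 216660159992639))))) (T.h (P (nat_lit 0)) (T.h (T.h (P (nat_lit 0)) (P (nat_lit 404751258890800))) (P (nat_lit 0))))) (T.h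 (T.h (P (nat_lit 0)) (M (nat_lit 534317465604161535))) (T.h (T.h (T.h (P (nat_lit 0)) (P (nat_lit 115487932780160))) (P (nat_lit 0))) (P (nat_lit 0)))))))), (T.h (T.h (P (nat_lit 0)) (T.h (T.h (P (nat_lit 0)) (T.h (M (nat_lit 44325833412268898624995327)) (T.h (P (nat_lit 0)) (T.h (P (nat_lit 72822950036406009856)) (T.h (P (nat_lit 0)) (P (nat_lit 110851673169776))))))) (T.h (P (nat_lit 0)) (T.h (T.h (P (nat_lit 0)) (T.h (M (nat_lit 1378257928816951295)) (T.h (P (nat_lit 0)) (M (nat_lit 25054827595247))))) (T.h (P (nat_lit 0)) (T.h (T.h (P (nat_lit 0)) (P (nat_lit 172986961464416))) (P (nat_lit 0)))))))) (T.h (T.h (T.h (P (nat_lit 97760208326290814134334259200)) (T.h (P (nat_lit 0)) (T.h (M (nat_lit 20690681049946643234815)) (T.h (P (nat_lit 0)) (M (nat_lit 194314061239648255)))))) (T.h (P (nat_lit 0)) (T.h (T.h (M (nat_lit 278980705928123856715775)) (T.h (P (nat_lit 0)) (P (nat_lit 236215949933527040)))) (T.h (P (nat_lit 0)) (P (nat_lit 882516363633868800))))))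 (T.h (T.h (P (nat_lit 0)) (T.h (T.h (P (nat_lit 0)) (T.h (M (nat_lit 1098496507911096762367)) (T.h (P (nat_lit 0)) (P (nat_lit 130585546475472))))) (T.h (P (nat_lit 0)) (T.h (T.h (P (nat_lit 0)) (P (nat_lit 361794974546192))) (P (nat_lit 0)))))) (T.h (T.h (T.h (P (nat_lit 137990060745107722731520)) (T.h (P (nat_lit 0)) (M (nat_lit 165709087135268863)))) (T.h (P (nat_lit 0)) (M (nat_lit 485870168424939519)))) (T.h (T.h (P (nat_lit 0)) (T.h (T.h (P (nat_lit 0)) (P (nat_lit 1882318035580224))) (P (nat_lit 0)))) (P (nat_lit 133679943531233280)))))))]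
def lQp_48 : List (T ℤ) := [(T.h (T.h (P (nat_lit 0)) (T.h (T.h (M (nat_lit 133768656778760561275365752831)) (T.h (P (nat_lit 0)) (T.h (P (nat_lit 265991905201773512491008)) (T.h (P (nat_lit 0)) (M (nat_lit 10578727072661503)))))) (T.h (P (nat_lit 0)) (T.h (T.h (P (nat_lit 29219963289720217141248)) (T.h (P (nat_lit 0)) (P (nat_lit 127190422486253568)))) (T.h (P (nat_lit 0)) (M (nat_lit 65373264351297535))))))) (T.h (T.h (T.h (P (nat_lit 0)) (T.h (M (nat_lit 71817996516439123818446847)) (T.h (P (nat_lit 0)) (M (nat_lit 293417813422567849983))))) (T.h (P (nat_lit 0)) (T.h (T.h (P (nat_lit 0)) (M (nat_lit 302479476523544870911))) (P (nat_lit 0))))) (T.h (T.h (P (nat_lit 0)) (T.h (T.h (M (nat_lit 1083909940175908072587263)) (T.h (P (nat_lit 0)) (P (nat_lit 531307149684015104)))) (T.h (P (nat_lit 0)) (M (nat_lit 161074343272644607))))) (T.h (T.h (T.h (P (nat_lit 0)) (M (nat_lit 237324560957846847487))) (P (nat_lit 0))) (T.h (T.h (P (nat_lit 0)) (P (nat_lit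 695645357607747584))) (P (nat_lit 0))))))), (P (nat_lit 0)), (P (nat_lit 0)), (T.h (T.h (T.h (M (nat_lit 5579030000330377679209261694975)) (T.h (P (nat_lit 0)) (T.h (M (nat_lit 5657961527253364136476671)) (T.h (P (nat_lit 0)) (T.h (P (nat_lit 13357060239115943936)) (T.h (P (nat_lit 0)) (M (nat_lit 10492294430287)))))))) (T.h (P (nat_lit 0)) (T.h (T.h (M (nat_lit 96726347834487794787418111)) (T.h (P (nat_lit 0)) (T.h (M (nat_lit 10372977650615451647)) (T.h (P (nat_lit 0)) (P (nat_lit 46870734497312)))))) (T.h (P (nat_lit 0)) (T.h (T.h (P (nat_lit 90695716078622867456)) (T.h (P (nat_lit 0)) (P (nat_lit 211605099716560)))) (T.h (P (nat_lit 0)) (M (nat_lit 100380931134879)))))))) (T.h (T.h (P (nat_lit 0)) (T.h (T.h (P (nat_lit 0)) (T.h (M (nat_lit 457499459866436042751999)) (T.h (P (nat_lit 0)) (P (nat_lit 329846517412593664))))) (T.h (P (nat_lit 0)) (T.h (T.h (P (nat_lit 0)) (M (nat_lit 82063394174631935))) (P (nat_lit 0)))))) (T.h (T.h (T.h (P (nat_lit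 19216157866977268909211648)) (T.h (P (nat_lit 0)) (T.h (P (nat_lit 49910012661702066176)) (T.h (P (nat_lit 0)) (P (nat_lit 45874032146976)))))) (T.h (P (nat_lit 0)) (T.h (T.h (M (nat_lit 52139860623666184191)) (T.h (P (nat_lit 0)) (M (nat_lit 1201170315836127)))) (T.h (P (nat_lit 0)) (P (nat_lit 227616305269056)))))) (T.h (T.h (P (nat_lit 0)) (T.h (T.h (P (nat_lit 0)) (M (nat_lit 472196403872694271))) (P (nat_lit 0)))) (T.h (T.h (T.h (P (nat_lit 32562526019337060352)) (T.h (P (nat_lit 0)) (M (nat_lit 311887139930959)))) (T.h (P (nat_lit 0)) (M (nat_lit 1548465693749039)))) (T.h (P (nat_lit 0)) (M (nat_lit 499469368768831)))))))), (T.h (T.h (T.h (P (nat_lit 0)) (T.h (M (nat_lit 12264306295860865433992167423)) (T.h (P (nat_lit 0)) (T.h (P (nat_lit 38351697694890571857920)) (T.h (P (nat_lit 0)) (M (nat_lit 22986133075853311))))))) (T.h (P (nat_lit 0)) (T.h (T.h (P (nat_lit 0)) (T.h (P (nat_lit 126715159606584970051584)) (T.h (P (nat_lit 0)) (M (nat_lit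 95609950710071295))))) (T.h (P (nat_lit 0)) (T.h (T.h (P (nat_lit 0)) (P (nat_lit 250273072803250176))) (P (nat_lit 0))))))) (T.h (T.h (P (nat_lit 0)) (T.h (T.h (M (nat_lit 178450648329772352166428671)) (T.h (P (nat_lit 0)) (P (nat_lit 632434394254251393024)))) (T.h (P (nat_lit 0)) (M (nat_lit 312703088898592473087))))) (T.h (T.h (T.h (P (nat_lit 0)) (T.h (M (nat_lit 72151306072020993703935)) (T.h (P (nat_lit 0)) (M (nat_lit 12011030252027903))))) (T.h (P (nat_lit 0)) (T.h (T.h (P (nat_lit 0)) (M (nat_lit 329315656024653823))) (P (nat_lit 0))))) (T.h (T.h (P (nat_lit 0)) (M (nat_lit 468182160841962946559))) (T.h (T.h (T.h (P (nat_lit 0)) (P (nat_lit 353876310217654272))) (P (nat_lit 0))) (P (nat_lit 0))))))), (P (nat_lit 0)), (P (nat_lit 0)), (T.h (T.h (P (nat_lit 0)) (T.h (T.h (M (nat_lit 37495071686497208421731794943)) (T.h (P (nat_lit 0)) (T.h (M (nat_lit 16057378342646109437951)) (T.h (P (nat_lit 0)) (M (nat_lit 26770372925128703)))))) (T.h (P (nat_lit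 0)) (T.h (T.h (P (nat_lit 138571131412666097074176)) (T.h (P (nat_lit 0)) (P (nat_lit 255022184546467840)))) (T.h (P (nat_lit 0)) (M (nat_lit 207322856984575999))))))) (T.h (T.h (T.h (P (nat_lit 0)) (T.h (P (nat_lit 8530470887322473985998848)) (T.h (P (nat_lit 0)) (M (nat_lit 11526735466153902079))))) (T.h (P (nat_lit 0)) (T.h (T.h (P (nat_lit 0)) (P (nat_lit 394182288451529867264))) (P (nat_lit 0))))) (T.h (T.h (P (nat_lit 0)) (T.h (T.h (P (nat_lit 426842702168290282700800)) (T.h (P (nat_lit 0)) (M (nat_lit 154969859478683647)))) (T.h (P (nat_lit 0)) (M (nat_lit 813225388758859775))))) (T.h (T.h (T.h (P (nat_lit 0)) (M (nat_lit 124755095903367331839))) (P (nat_lit 0))) (T.h (T.h (P (nat_lit 0)) (M (nat_lit 1052533473347338239))) (P (nat_lit 0)))))))]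
def lQp_49 : List (T ℤ) := [(P (nat_lit 0)), (P (nat_lit 0)), (P (nat_lit 0)), (P (nat_lit 0)), (P (nat_lit 0)), (T.h (T.h (P (nat_lit 0)) (T.h (T.h (P (nat_lit 0)) (T.h (P (nat_lit 741706005672169918431232)) (T.h (P (nat_lit 0)) (T.h (P (nat_lit 2839401542845464576)) (T.h (P (nat_lit 0)) (M (nat_lit 1200533198935))))))) (T.h (P (nat_lit 0)) (T.h (T.h (P (nat_lit 0)) (T.h (P (nat_lit 2839401542845464576)) (T.h (P (nat_lit 0)) (M (nat_lit 7920728801471))))) (T.h (P (nat_lit 0)) (T.h (T.h (P (nat_lit 0)) (M (nat_lit 1200533198935))) (P (nat_lit 0)))))))) (T.h (T.h (T.h (M (nat_lit 10212045392436279570270781439)) (T.h (P (nat_lit 0)) (T.h (M (nat_lit 658474017311560826879)) (T.h (P (nat_lit 0)) (M (nat_lit 2448628643758079)))))) (T.h (P (nat_lit 0)) (T.h (T.h (M (nat_lit 658474017311560826879)) (T.h (P (nat_lit 0)) (M (nat_lit 11402419868467199)))) (T.h (P (nat_lit 0)) (M (nat_lit 2448628643758079)))))) (T.h (T.h (P (nat_lit 0)) (T.h (T.h (P (nat_lit 0))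 (T.h (P (nat_lit 16419294656111575040)) (T.h (P (nat_lit 0)) (P (nat_lit 6154245470960))))) (T.h (P (nat_lit 0)) (T.h (T.h (P (nat_lit 0)) (P (nat_lit 6154245470960))) (P (nat_lit 0)))))) (T.h (T.h (T.h (P (nat_lit 18936214877807918972928)) (T.h (P (nat_lit 0)) (P (nat_lit 13795086358216704)))) (T.h (P (nat_lit 0)) (P (nat_lit 13795086358216704)))) (T.h (T.h (P (nat_lit 0)) (T.h (T.h (P (nat_lit 0)) (P (nat_lit 32315373365840))) (P (nat_lit 0)))) (P (nat_lit 73170271617875968))))))), (T.h (T.h (P (nat_lit 0)) (T.h (T.h (P (nat_lit 226318629704904614210437120)) (T.h (P (nat_lit 0)) (T.h (P (nat_lit 6115334825654234382336)) (T.h (P (nat_lit 0)) (P (nat_lit 13485241803522048)))))) (T.h (P (nat_lit 0)) (T.h (T.h (P (nat_lit 766451334615954096128)) (T.h (P (nat_lit 0)) (P (nat_lit 18148605108125696)))) (T.h (P (nat_lit 0)) (M (nat_lit 2974749091381247))))))) (T.h (T.h (T.h (P (nat_lit 0)) (T.h (P (nat_lit 5760110150759249130553344)) (T.h (P (nat_lit 0))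 (T.h (M (nat_lit 44187288449497169919)) (T.h (P (nat_lit 0)) (P (nat_lit 7351350546784))))))) (T.h (P (nat_lit 0)) (T.h (T.h (P (nat_lit 0)) (T.h (P (nat_lit 4478360613369675776)) (T.h (P (nat_lit 0)) (M (nat_lit 4256921589567))))) (T.h (P (nat_lit 0)) (T.h (T.h (P (nat_lit 0)) (M (nat_lit 14115448294655))) (P (nat_lit 0))))))) (T.h (T.h (P (nat_lit 0)) (T.h (T.h (P (nat_lit 13548174235352948539392)) (T.h (P (nat_lit 0)) (P (nat_lit 11298605499367424)))) (T.h (P (nat_lit 0)) (P (nat_lit 1936205404995584))))) (T.h (T.h (T.h (P (nat_lit 0)) (T.h (M (nat_lit 155560528027376943103)) (T.h (P (nat_lit 0)) (M (nat_lit 29896136530671))))) (T.h (P (nat_lit 0)) (T.h (T.h (P (nat_lit 0)) (P (nat_lit 20853968390928))) (P (nat_lit 0))))) (T.h (T.h (P (nat_lit 0)) (P (nat_lit 148610963780747264))) (T.h (T.h (T.h (P (nat_lit 0)) (P (nat_lit 126624751875824))) (P (nat_lit 0))) (P (nat_lit 0)))))))), (T.h (T.h (P (nat_lit 0)) (T.h (T.h (P (nat_lit 0)) (T.h (M (nat_lit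 2581634979122964043137023)) (T.h (P (nat_lit 0)) (T.h (P (nat_lit 21661246487506452480)) (T.h (P (nat_lit 0)) (M (nat_lit 33653347756399))))))) (T.h (P (nat_lit 0)) (T.h (T.h (P (nat_lit 0)) (T.h (P (nat_lit 32675668490924851200)) (T.h (P (nat_lit 0)) (M (nat_lit 66069034018639))))) (T.h (P (nat_lit 0)) (T.h (T.h (P (nat_lit 0)) (M (nat_lit 16361497986479))) (P (nat_lit 0)))))))) (T.h (T.h (T.h (P (nat_lit 21123593321619357335306633216)) (T.h (P (nat_lit 0)) (T.h (M (nat_lit 5919988966405504499711)) (T.h (P (nat_lit 0)) (P (nat_lit 10609186901458944)))))) (T.h (P (nat_lit 0)) (T.h (T.h (P (nat_lit 50430542327613638049792)) (T.h (P (nat_lit 0)) (M (nat_lit 50862758182420479)))) (T.h (P (nat_lit 0)) (M (nat_lit 55334082025422847)))))) (T.h (T.h (P (nat_lit 0)) (T.h (T.h (P (nat_lit 0)) (T.h (M (nat_lit 58709018431610421247)) (T.h (P (nat_lit 0)) (P (nat_lit 103123823580640))))) (T.h (P (nat_lit 0)) (T.h (T.h (P (nat_lit 0)) (P (nat_lit 107680149905440)))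 (P (nat_lit 0)))))) (T.h (T.h (T.h (M (nat_lit 15010200804235572936703)) (T.h (P (nat_lit 0)) (P (nat_lit 58402257737056256)))) (T.h (P (nat_lit 0)) (P (nat_lit 165041657512427520)))) (T.h (T.h (P (nat_lit 0)) (T.h (T.h (P (nat_lit 0)) (M (nat_lit 58319323554319))) (P (nat_lit 0)))) (P (nat_lit 154004297327050752)))))))]
def lQp_50 : List (T ℤ) := [(T.h (T.h (P (nat_lit 0)) (T.h (T.h (P (nat_lit 30592359351173919146378264576)) (T.h (P (nat_lit 0)) (T.h (M (nat_lit 47570282094454540075007)) (T.h (P (nat_lit 0)) (M (nat_lit 100432000003391487)))))) (T.h (P (nat_lit 0)) (T.h (T.h (M (nat_lit 18885243591323641970687)) (T.h (P (nat_lit 0)) (P (nat_lit 5924892080504832)))) (T.h (P (nat_lit 0)) (M (nat_lit 20021605155700735))))))) (T.h (T.h (T.h (P (nat_lit 0)) (T.h (M (nat_lit 58042082194932585631580159)) (T.h (P (nat_lit 0)) (T.h (M (nat_lit 72074611859338035199)) (T.h (P (nat_lit 0)) (P (nat_lit 9843633707952))))))) (T.h (P (nat_lit 0)) (T.h (T.h (P (nat_lit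 0)) (T.h (M (nat_lit 23453482314404724735)) (T.h (P (nat_lit 0)) (M (nat_lit 153951304182895))))) (T.h (P (nat_lit 0)) (T.h (T.h (P (nat_lit 0)) (M (nat_lit 46938132056991))) (P (nat_lit 0))))))) (T.h (T.h (P (nat_lit 0)) (T.h (T.h (M (nat_lit 126206691015345766924287)) (T.h (P (nat_lit 0)) (P (nat_lit 142951232725958656)))) (T.h (P (nat_lit 0)) (M (nat_lit 105060780253347839))))) (T.h (T.h (T.h (P (nat_lit 0)) (T.h (P (nat_lit 169026438565197774848)) (T.h (P (nat_lit 0)) (M (nat_lit 40807260833679))))) (T.h (P (nat_lit 0)) (T.h (T.h (P (nat_lit 0)) (M (nat_lit 160765879742335))) (P (nat_lit 0))))) (T.h (T.h (P (nat_lit 0)) (P (nat_lit 153230669436993536))) (T.h (T.h (T.h (P (nat_lit 0)) (M (nat_lit 202010613196303))) (P (nat_lit 0))) (P (nat_lit 0)))))))), (T.h (T.h (P (nat_lit 0)) (T.h (T.h (P (nat_lit 0)) (T.h (M (nat_lit 104213714518363397557321727)) (T.h (P (nat_lit 0)) (P (nat_lit 18889754215679262720))))) (T.h (P (nat_lit 0)) (T.h (T.h (P (nat_lit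 0)) (P (nat_lit 99944006815716474880))) (P (nat_lit 0)))))) (T.h (T.h (T.h (M (nat_lit 23189883887025830961654792191)) (T.h (P (nat_lit 0)) (T.h (P (nat_lit 33956056854755006218240)) (T.h (P (nat_lit 0)) (P (nat_lit 93919563231952896)))))) (T.h (P (nat_lit 0)) (T.h (T.h (P (nat_lit 87515735663265416478720)) (T.h (P (nat_lit 0)) (M (nat_lit 533260947869499391)))) (T.h (P (nat_lit 0)) (P (nat_lit 8342794656481280)))))) (T.h (T.h (P (nat_lit 0)) (T.h (T.h (P (nat_lit 0)) (M (nat_lit 571332830943741214719))) (P (nat_lit 0)))) (T.h (T.h (T.h (P (nat_lit 243099935357513639133184)) (T.h (P (nat_lit 0)) (M (nat_lit 1175977343068569599)))) (T.h (P (nat_lit 0)) (M (nat_lit 262202542911520767)))) (T.h (P (nat_lit 0)) (M (nat_lit 595563394477948927))))))), (P (nat_lit 0)), (P (nat_lit 0)), (T.h (T.h (T.h (P (nat_lit 0)) (T.h (P (nat_lit 226318629704904614210437120)) (T.h (P (nat_lit 0)) (T.h (P (nat_lit 766451334615954096128)) (T.h (P (nat_lit 0)) (M (nat_lit 2974749091381247)))))))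 (T.h (P (nat_lit 0)) (T.h (T.h (P (nat_lit 0)) (T.h (P (nat_lit 6115334825654234382336)) (T.h (P (nat_lit 0)) (P (nat_lit 18148605108125696))))) (T.h (P (nat_lit 0)) (T.h (T.h (P (nat_lit 0)) (P (nat_lit 13485241803522048))) (P (nat_lit 0))))))) (T.h (T.h (P (nat_lit 0)) (T.h (T.h (P (nat_lit 5760110150759249130553344)) (T.h (P (nat_lit 0)) (T.h (P (nat_lit 4478360613369675776)) (T.h (P (nat_lit 0)) (M (nat_lit 14115448294655)))))) (T.h (P (nat_lit 0)) (T.h (T.h (M (nat_lit 44187288449497169919)) (T.h (P (nat_lit 0)) (M (nat_lit 4256921589567)))) (T.h (P (nat_lit 0)) (P (nat_lit 7351350546784))))))) (T.h (T.h (T.h (P (nat_lit 0)) (T.h (P (nat_lit 13548174235352948539392)) (T.h (P (nat_lit 0)) (P (nat_lit 1936205404995584))))) (T.h (P (nat_lit 0)) (T.h (T.h (P (nat_lit 0)) (P (nat_lit 11298605499367424))) (P (nat_lit 0))))) (T.h (T.h (P (nat_lit 0)) (T.h (T.h (M (nat_lit 155560528027376943103)) (T.h (P (nat_lit 0)) (P (nat_lit 20853968390928)))) (T.h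 (P (nat_lit 0)) (M (nat_lit 29896136530671))))) (T.h (T.h (T.h (P (nat_lit 0)) (P (nat_lit 148610963780747264))) (P (nat_lit 0))) (T.h (T.h (P (nat_lit 0)) (P (nat_lit 126624751875824))) (P (nat_lit 0)))))))), (T.h (T.h (T.h (P (nat_lit 6081048895083401288390784581632)) (T.h (P (nat_lit 0)) (T.h (M (nat_lit 19483869153050037778907135)) (T.h (P (nat_lit 0)) (T.h (P (nat_lit 29005607260221603840)) (T.h (P (nat_lit 0)) (M (nat_lit 41982303589839)))))))) (T.h (P (nat_lit 0)) (T.h (T.h (M (nat_lit 19483869153050037778907135)) (T.h (P (nat_lit 0)) (T.h (P (nat_lit 21029657652544667648)) (T.h (P (nat_lit 0)) (M (nat_lit 61431585420319)))))) (T.h (P (nat_lit 0)) (T.h (T.h (P (nat_lit 29005607260221603840)) (T.h (P (nat_lit 0)) (M (nat_lit 61431585420319)))) (T.h (P (nat_lit 0)) (M (nat_lit 41982303589839)))))))) (T.h (T.h (P (nat_lit 0)) (T.h (T.h (P (nat_lit 0)) (T.h (M (nat_lit 71402954464064150962175)) (T.h (P (nat_lit 0)) (P (nat_lit 97011076799922176)))))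 (T.h (P (nat_lit 0)) (T.h (T.h (P (nat_lit 0)) (P (nat_lit 97011076799922176))) (P (nat_lit 0)))))) (T.h (T.h (T.h (M (nat_lit 108437855115324437412446207)) (T.h (P (nat_lit 0)) (T.h (M (nat_lit 101090038753620131839)) (T.h (P (nat_lit 0)) (P (nat_lit 109348784641440)))))) (T.h (P (nat_lit 0)) (T.h (T.h (M (nat_lit 101090038753620131839)) (T.h (P (nat_lit 0)) (M (nat_lit 237646975361599)))) (T.h (P (nat_lit 0)) (P (nat_lit 109348784641440)))))) (T.h (T.h (P (nat_lit 0)) (T.h (T.h (P (nat_lit 0)) (M (nat_lit 160309572647387135))) (P (nat_lit 0)))) (T.h (T.h (T.h (M (nat_lit 101942302530837938175)) (T.h (P (nat_lit 0)) (P (nat_lit 31525620239920)))) (T.h (P (nat_lit 0)) (P (nat_lit 31525620239920)))) (T.h (P (nat_lit 0)) (M (nat_lit 324870464918399)))))))), (T.h (T.h (T.h (P (nat_lit 0)) (T.h (M (nat_lit 4917936981971218361554567167)) (T.h (P (nat_lit 0)) (T.h (M (nat_lit 63985465020640980369407)) (T.h (P (nat_lit 0)) (M (nat_lit 37867905166016511)))))))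 (T.h (P (nat_lit 0)) (T.h (T.h (P (nat_lit 0)) (T.h (P (nat_lit 69494433174587336294400)) (T.h (P (nat_lit 0)) (M (nat_lit 112431178090102783))))) (T.h (P (nat_lit 0)) (T.h (T.h (P (nat_lit 0)) (M (nat_lit 2208243714326527))) (P (nat_lit 0))))))) (T.h (T.h (P (nat_lit 0)) (T.h (T.h (M (nat_lit 24686943158788964208345087)) (T.h (P (nat_lit 0)) (T.h (M (nat_lit 126279138848112902143)) (T.h (P (nat_lit 0)) (P (nat_lit 53051936705152)))))) (T.h (P (nat_lit 0)) (T.h (T.h (M (nat_lit 237096645803731058687)) (T.h (P (nat_lit 0)) (M (nat_lit 58086204154527)))) (T.h (P (nat_lit 0)) (P (nat_lit 56760557853824))))))) (T.h (T.h (T.h (P (nat_lit 0)) (T.h (P (nat_lit 419121629837070438498304)) (T.h (P (nat_lit 0)) (M (nat_lit 325957275491155967))))) (T.h (P (nat_lit 0)) (T.h (T.h (P (nat_lit 0)) (M (nat_lit 395215621298323455))) (P (nat_lit 0))))) (T.h (T.h (P (nat_lit 0)) (T.h (T.h (P (nat_lit 630235638186064740352)) (T.h (P (nat_lit 0)) (P (nat_lit 357255833203280))))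 (T.h (P (nat_lit 0)) (P (nat_lit 186187917737008))))) (T.h (T.h (T.h (P (nat_lit 0)) (M (nat_lit 2451348865101381631))) (P (nat_lit 0))) (T.h (T.h (P (nat_lit 0)) (P (nat_lit 323965957366480))) (P (nat_lit 0)))))))), (T.h (T.h (T.h (P (nat_lit 16610131237050969157222881296384)) (T.h (P (nat_lit 0)) (T.h (M (nat_lit 78577746382943512002822143)) (T.h (P (nat_lit 0)) (P (nat_lit 44363430733904084992)))))) (T.h (P (nat_lit 0)) (T.h (T.h (P (nat_lit 12159185391653889647837184)) (T.h (P (nat_lit 0)) (P (nat_lit 26916983604714143744)))) (T.h (P (nat_lit 0)) (P (nat_lit 8542965040104341504)))))) (T.h (T.h (P (nat_lit 0)) (T.h (T.h (P (nat_lit 0)) (T.h (M (nat_lit 170774383045035088150527)) (T.h (P (nat_lit 0)) (P (nat_lit 116902649026969600))))) (T.h (P (nat_lit 0)) (T.h (T.h (P (nat_lit 0)) (M (nat_lit 7959988333117439))) (P (nat_lit 0)))))) (T.h (T.h (T.h (P (nat_lit 23126752110161750401220608)) (T.h (P (nat_lit 0)) (M (nat_lit 254876444120481529855)))) (T.h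 (P (nat_lit 0)) (P (nat_lit 12886189783738482688)))) (T.h (T.h (P (nat_lit 0)) (T.h (T.h (P (nat_lit 0)) (P (nat_lit 1474979290622656512))) (P (nat_lit 0)))) (M (nat_lit 118912105825926381567))))))]
def lQp_51 : List (T ℤ) := [(P (nat_lit 0)), (P (nat_lit 0)), (T.h (T.h (P (nat_lit 0)) (T.h (T.h (P (nat_lit 0)) (T.h (M (nat_lit 2581634979122964043137023)) (T.h (P (nat_lit 0)) (T.h (P (nat_lit 32675668490924851200)) (T.h (P (nat_lit 0)) (M (nat_lit 16361497986479))))))) (T.h (P (nat_lit 0)) (T.h (T.h (P (nat_lit 0)) (T.h (P (nat_lit 21661246487506452480)) (T.h (P (nat_lit 0)) (M (nat_lit 66069034018639))))) (T.h (P (nat_lit 0)) (T.h (T.h (P (nat_lit 0)) (M (nat_lit 33653347756399))) (P (nat_lit 0)))))))) (T.h (T.h (T.h (P (nat_lit 21123593321619357335306633216)) (T.h (P (nat_lit 0)) (T.h (P (nat_lit 50430542327613638049792)) (T.h (P (nat_lit 0)) (M (nat_lit 55334082025422847)))))) (T.h (P (nat_lit 0)) (T.h (T.h (M (nat_lit 5919988966405504499711)) (T.h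 (P (nat_lit 0)) (M (nat_lit 50862758182420479)))) (T.h (P (nat_lit 0)) (P (nat_lit 10609186901458944)))))) (T.h (T.h (P (nat_lit 0)) (T.h (T.h (P (nat_lit 0)) (T.h (M (nat_lit 58709018431610421247)) (T.h (P (nat_lit 0)) (P (nat_lit 107680149905440))))) (T.h (P (nat_lit 0)) (T.h (T.h (P (nat_lit 0)) (P (nat_lit 103123823580640))) (P (nat_lit 0)))))) (T.h (T.h (T.h (M (nat_lit 15010200804235572936703)) (T.h (P (nat_lit 0)) (P (nat_lit 165041657512427520)))) (T.h (P (nat_lit 0)) (P (nat_lit 58402257737056256)))) (T.h (T.h (P (nat_lit 0)) (T.h (T.h (P (nat_lit 0)) (M (nat_lit 58319323554319))) (P (nat_lit 0)))) (P (nat_lit 154004297327050752))))))), (T.h (T.h (P (nat_lit 0)) (T.h (T.h (M (nat_lit 4917936981971218361554567167)) (T.h (P (nat_lit 0)) (T.h (P (nat_lit 69494433174587336294400)) (T.h (P (nat_lit 0)) (M (nat_lit 2208243714326527)))))) (T.h (P (nat_lit 0)) (T.h (T.h (M (nat_lit 63985465020640980369407)) (T.h (P (nat_lit 0)) (M (nat_lit 112431178090102783))))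 (T.h (P (nat_lit 0)) (M (nat_lit 37867905166016511))))))) (T.h (T.h (T.h (P (nat_lit 0)) (T.h (M (nat_lit 24686943158788964208345087)) (T.h (P (nat_lit 0)) (T.h (M (nat_lit 237096645803731058687)) (T.h (P (nat_lit 0)) (P (nat_lit 56760557853824))))))) (T.h (P (nat_lit 0)) (T.h (T.h (P (nat_lit 0)) (T.h (M (nat_lit 126279138848112902143)) (T.h (P (nat_lit 0)) (M (nat_lit 58086204154527))))) (T.h (P (nat_lit 0)) (T.h (T.h (P (nat_lit 0)) (P (nat_lit 53051936705152))) (P (nat_lit 0))))))) (T.h (T.h (P (nat_lit 0)) (T.h (T.h (P (nat_lit 419121629837070438498304)) (T.h (P (nat_lit 0)) (M (nat_lit 395215621298323455)))) (T.h (P (nat_lit 0)) (M (nat_lit 325957275491155967))))) (T.h (T.h (T.h (P (nat_lit 0)) (T.h (P (nat_lit 630235638186064740352)) (T.h (P (nat_lit 0)) (P (nat_lit 186187917737008))))) (T.h (P (nat_lit 0)) (T.h (T.h (P (nat_lit 0)) (P (nat_lit 357255833203280))) (P (nat_lit 0))))) (T.h (T.h (P (nat_lit 0)) (M (nat_lit 2451348865101381631)))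 (T.h (T.h (T.h (P (nat_lit 0)) (P (nat_lit 323965957366480))) (P (nat_lit 0))) (P (nat_lit 0)))))))), (T.h (T.h (P (nat_lit 0)) (T.h (T.h (P (nat_lit 0)) (T.h (P (nat_lit 101656164803558409808904192)) (T.h (P (nat_lit 0)) (M (nat_lit 28898813761829208063))))) (T.h (P (nat_lit 0)) (T.h (T.h (P (nat_lit 0)) (M (nat_lit 28898813761829208063))) (P (nat_lit 0)))))) (T.h (T.h (T.h (P (nat_lit 29376288194465710613708406784)) (T.h (P (nat_lit 0)) (T.h (M (nat_lit 286482203539050432823295)) (T.h (P (nat_lit 0)) (P (nat_lit 5606270613454848)))))) (T.h (P (nat_lit 0)) (T.h (T.h (M (nat_lit 286482203539050432823295)) (T.h (P (nat_lit 0)) (P (nat_lit 510769333716254720)))) (T.h (P (nat_lit 0)) (P (nat_lit 5606270613454848)))))) (T.h (T.h (P (nat_lit 0)) (T.h (T.h (P (nat_lit 0)) (M (nat_lit 369651032577932263423))) (P (nat_lit 0)))) (T.h (T.h (T.h (P (nat_lit 35093809422728020623360)) (T.h (P (nat_lit 0)) (P (nat_lit 215364510542790656)))) (T.h (P (nat_lit 0)) (P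 (nat_lit 215364510542790656)))) (T.h (P (nat_lit 0)) (P (nat_lit 488645990257197056))))))), (P (nat_lit 0)), (P (nat_lit 0)), (T.h (T.h (T.h (P (nat_lit 0)) (T.h (P (nat_lit 30592359351173919146378264576)) (T.h (P (nat_lit 0)) (T.h (M (nat_lit 18885243591323641970687)) (T.h (P (nat_lit 0)) (M (nat_lit 20021605155700735))))))) (T.h (P (nat_lit 0)) (T.h (T.h (P (nat_lit 0)) (T.h (M (nat_lit 47570282094454540075007)) (T.h (P (nat_lit 0)) (P (nat_lit 5924892080504832))))) (T.h (P (nat_lit 0)) (T.h (T.h (P (nat_lit 0)) (M (nat_lit 100432000003391487))) (P (nat_lit 0))))))) (T.h (T.h (P (nat_lit 0)) (T.h (T.h (M (nat_lit 58042082194932585631580159)) (T.h (P (nat_lit 0)) (T.h (M (nat_lit 23453482314404724735)) (T.h (P (nat_lit 0)) (M (nat_lit 46938132056991)))))) (T.h (P (nat_lit 0)) (T.h (T.h (M (nat_lit 72074611859338035199)) (T.h (P (nat_lit 0)) (M (nat_lit 153951304182895)))) (T.h (P (nat_lit 0)) (P (nat_lit 9843633707952))))))) (T.h (T.h (T.h (P (nat_lit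 0)) (T.h (M (nat_lit 126206691015345766924287)) (T.h (P (nat_lit 0)) (M (nat_lit 105060780253347839))))) (T.h (P (nat_lit 0)) (T.h (T.h (P (nat_lit 0)) (P (nat_lit 142951232725958656))) (P (nat_lit 0))))) (T.h (T.h (P (nat_lit 0)) (T.h (T.h (P (nat_lit 169026438565197774848)) (T.h (P (nat_lit 0)) (M (nat_lit 160765879742335)))) (T.h (P (nat_lit 0)) (M (nat_lit 40807260833679))))) (T.h (T.h (T.h (P (nat_lit 0)) (P (nat_lit 153230669436993536))) (P (nat_lit 0))) (T.h (T.h (P (nat_lit 0)) (M (nat_lit 202010613196303))) (P (nat_lit 0))))))))]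
def lQp_52 : List (T ℤ) := [(T.h (T.h (T.h (P (nat_lit 16610131237050969157222881296384)) (T.h (P (nat_lit 0)) (T.h (P (nat_lit 12159185391653889647837184)) (T.h (P (nat_lit 0)) (P (nat_lit 8542965040104341504)))))) (T.h (P (nat_lit 0)) (T.h (T.h (M (nat_lit 78577746382943512002822143)) (T.h (P (nat_lit 0)) (P (nat_lit 26916983604714143744)))) (T.h (P (nat_lit 0)) (P (nat_lit 44363430733904084992)))))) (T.h (T.h (P (nat_lit 0)) (T.h (T.h (P (nat_lit 0)) (T.h (M (nat_lit 170774383045035088150527)) (T.h (P (nat_lit 0)) (M (nat_lit 7959988333117439))))) (T.h (P (nat_lit 0)) (T.h (T.h (P (nat_lit 0)) (P (nat_lit 116902649026969600))) (P (nat_lit 0)))))) (T.h (T.h (T.h (P (nat_lit 23126752110161750401220608)) (T.h (P (nat_lit 0)) (P (nat_lit 12886189783738482688)))) (T.h (P (nat_lit 0)) (M (nat_lit 254876444120481529855)))) (T.h (T.h (P (nat_lit 0)) (T.h (T.h (P (nat_lit 0)) (P (nat_lit 1474979290622656512))) (P (nat_lit 0)))) (M (nat_lit 118912105825926381567)))))),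 (P (nat_lit 0)), (P (nat_lit 0)), (T.h (T.h (P (nat_lit 0)) (T.h (T.h (P (nat_lit 0)) (T.h (M (nat_lit 104213714518363397557321727)) (T.h (P (nat_lit 0)) (P (nat_lit 99944006815716474880))))) (T.h (P (nat_lit 0)) (T.h (T.h (P (nat_lit 0)) (P (nat_lit 18889754215679262720))) (P (nat_lit 0)))))) (T.h (T.h (T.h (M (nat_lit 23189883887025830961654792191)) (T.h (P (nat_lit 0)) (T.h (P (nat_lit 87515735663265416478720)) (T.h (P (nat_lit 0)) (P (nat_lit 8342794656481280)))))) (T.h (P (nat_lit 0)) (T.h (T.h (P (nat_lit 33956056854755006218240)) (T.h (P (nat_lit 0)) (M (nat_lit 533260947869499391)))) (T.h (P (nat_lit 0)) (P (nat_lit 93919563231952896)))))) (T.h (T.h (P (nat_lit 0)) (T.h (T.h (P (nat_lit 0)) (M (nat_lit 571332830943741214719))) (P (nat_lit 0)))) (T.h (T.h (T.h (P (nat_lit 243099935357513639133184)) (T.h (P (nat_lit 0)) (M (nat_lit 262202542911520767)))) (T.h (P (nat_lit 0)) (M (nat_lit 1175977343068569599)))) (T.h (P (nat_lit 0)) (M (nat_lit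 595563394477948927))))))), (P (nat_lit 0)), (P (nat_lit 0)), (P (nat_lit 0)), (P (nat_lit 0))]
def lQp_53 : List (T ℤ) := [(P (nat_lit 0)), (T.h (T.h (T.h (M (nat_lit 8970997173878140039931440922623)) (T.h (P (nat_lit 0)) (T.h (P (nat_lit 978353580458961784537088)) (T.h (P (nat_lit 0)) (T.h (P (nat_lit 2389887418619658240)) (T.h (P (nat_lit 0)) (M (nat_lit 165424305583)))))))) (T.h (P (nat_lit 0)) (T.h (T.h (P (nat_lit 978353580458961784537088)) (T.h (P (nat_lit 0)) (T.h (M (nat_lit 13135542799900344319)) (T.h (P (nat_lit 0)) (M (nat_lit 4239509951935)))))) (T.h (P (nat_lit 0)) (T.h (T.h (P (nat_lit 2389887418619658240)) (T.h (P (nat_lit 0)) (M (nat_lit 4239509951935)))) (T.h (P (nat_lit 0)) (M (nat_lit 165424305583)))))))) (T.h (T.h (P (nat_lit 0)) (T.h (T.h (P (nat_lit 0)) (T.h (M (nat_lit 2662948729969270849535)) (T.h (P (nat_lit 0)) (P (nat_lit 13170292645003264))))) (T.h (P (nat_lit 0)) (T.h (T.h (P (nat_lit 0)) (P (nat_lit 13170292645003264)))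 (P (nat_lit 0)))))) (T.h (T.h (T.h (P (nat_lit 4809974907341691670233088)) (T.h (P (nat_lit 0)) (T.h (M (nat_lit 15228380118436020223)) (T.h (P (nat_lit 0)) (M (nat_lit 15443532767759)))))) (T.h (P (nat_lit 0)) (T.h (T.h (M (nat_lit 15228380118436020223)) (T.h (P (nat_lit 0)) (P (nat_lit 35413500645568)))) (T.h (P (nat_lit 0)) (M (nat_lit 15443532767759)))))) (T.h (T.h (P (nat_lit 0)) (T.h (T.h (P (nat_lit 0)) (P (nat_lit 107255350181560320))) (P (nat_lit 0)))) (T.h (T.h (T.h (P (nat_lit 157772246912990183424)) (T.h (P (nat_lit 0)) (P (nat_lit 28106565702272)))) (T.h (P (nat_lit 0)) (P (nat_lit 28106565702272)))) (T.h (P (nat_lit 0)) (M (nat_lit 9234645211199)))))))), (T.h (T.h (T.h (P (nat_lit 0)) (T.h (M (nat_lit 16157316351655077914389512191)) (T.h (P (nat_lit 0)) (T.h (M (nat_lit 5325104209578101309439)) (T.h (P (nat_lit 0)) (P (nat_lit 29353014219341824))))))) (T.h (P (nat_lit 0)) (T.h (T.h (P (nat_lit 0)) (T.h (M (nat_lit 1472349745841981882367))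 (T.h (P (nat_lit 0)) (P (nat_lit 23172711675297792))))) (T.h (P (nat_lit 0)) (T.h (T.h (P (nat_lit 0)) (P (nat_lit 7029372037136384))) (P (nat_lit 0))))))) (T.h (T.h (P (nat_lit 0)) (T.h (T.h (M (nat_lit 11214666536666130125160447)) (T.h (P (nat_lit 0)) (T.h (M (nat_lit 26743036042488578047)) (T.h (P (nat_lit 0)) (P (nat_lit 38000328702000)))))) (T.h (P (nat_lit 0)) (T.h (T.h (M (nat_lit 16014234136231280639)) (T.h (P (nat_lit 0)) (M (nat_lit 10694443811919)))) (T.h (P (nat_lit 0)) (P (nat_lit 6700780526240))))))) (T.h (T.h (T.h (P (nat_lit 0)) (T.h (P (nat_lit 13429755321487863054336)) (T.h (P (nat_lit 0)) (M (nat_lit 27539627497783295))))) (T.h (P (nat_lit 0)) (T.h (T.h (P (nat_lit 0)) (P (nat_lit 171041178281050112))) (P (nat_lit 0))))) (T.h (T.h (P (nat_lit 0)) (T.h (T.h (M (nat_lit 273829416074412556287)) (T.h (P (nat_lit 0)) (M (nat_lit 63537919357359)))) (T.h (P (nat_lit 0)) (P (nat_lit 78533988872880))))) (T.h (T.h (T.h (P (nat_lit 0)) (P (nat_lit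 274177761625079808))) (P (nat_lit 0))) (T.h (T.h (P (nat_lit 0)) (M (nat_lit 649950281733359))) (P (nat_lit 0)))))))), (T.h (T.h (T.h (P (nat_lit 648354378398368560434359828480)) (T.h (P (nat_lit 0)) (T.h (P (nat_lit 6029595519567029736570880)) (T.h (P (nat_lit 0)) (T.h (P (nat_lit 22782046953774514176)) (T.h (P (nat_lit 0)) (P (nat_lit 1586148909312)))))))) (T.h (P (nat_lit 0)) (T.h (T.h (P (nat_lit 405226602017100610404352)) (T.h (P (nat_lit 0)) (T.h (P (nat_lit 1458250011144880128)) (T.h (P (nat_lit 0)) (M (nat_lit 52667779269951)))))) (T.h (P (nat_lit 0)) (T.h (T.h (M (nat_lit 5430699604901363711)) (T.h (P (nat_lit 0)) (M (nat_lit 49126568938831)))) (T.h (P (nat_lit 0)) (P (nat_lit 3821769693456)))))))) (T.h (T.h (P (nat_lit 0)) (T.h (T.h (P (nat_lit 0)) (T.h (M (nat_lit 44952741325817528713215)) (T.h (P (nat_lit 0)) (P (nat_lit 134958845215637504))))) (T.h (P (nat_lit 0)) (T.h (T.h (P (nat_lit 0)) (M (nat_lit 36359330566864895))) (P (nat_lit 0))))))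 (T.h (T.h (T.h (P (nat_lit 7052920268108960389660672)) (T.h (P (nat_lit 0)) (T.h (M (nat_lit 80224259377891115007)) (T.h (P (nat_lit 0)) (P (nat_lit 129681242717312)))))) (T.h (P (nat_lit 0)) (T.h (T.h (P (nat_lit 34010185905997873152)) (T.h (P (nat_lit 0)) (P (nat_lit 109922351265936)))) (T.h (P (nat_lit 0)) (M (nat_lit 17832029004943)))))) (T.h (T.h (P (nat_lit 0)) (T.h (T.h (P (nat_lit 0)) (P (nat_lit 150087276435439616))) (P (nat_lit 0)))) (T.h (T.h (T.h (P (nat_lit 192230385199957934080)) (T.h (P (nat_lit 0)) (P (nat_lit 78162321228816)))) (T.h (P (nat_lit 0)) (P (nat_lit 33231154151888)))) (T.h (P (nat_lit 0)) (P (nat_lit 130481994932784)))))))), (T.h (T.h (T.h (P (nat_lit 0)) (T.h (M (nat_lit 9479945226855203678944493567)) (T.h (P (nat_lit 0)) (T.h (P (nat_lit 8055960460481364230144)) (T.h (P (nat_lit 0)) (P (nat_lit 3604578148319232))))))) (T.h (P (nat_lit 0)) (T.h (T.h (P (nat_lit 0)) (T.h (P (nat_lit 15229871120192928481280)) (T.h (P (nat_lit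 0)) (M (nat_lit 67886065340547071))))) (T.h (P (nat_lit 0)) (T.h (T.h (P (nat_lit 0)) (M (nat_lit 27031974620561407))) (P (nat_lit 0))))))) (T.h (T.h (P (nat_lit 0)) (T.h (T.h (M (nat_lit 68480659706341009634885631)) (T.h (P (nat_lit 0)) (M (nat_lit 28561419631895511039)))) (T.h (P (nat_lit 0)) (M (nat_lit 11930534835996590079))))) (T.h (T.h (T.h (P (nat_lit 0)) (T.h (P (nat_lit 252405377024740638588928)) (T.h (P (nat_lit 0)) (P (nat_lit 73784448161644544))))) (T.h (P (nat_lit 0)) (T.h (T.h (P (nat_lit 0)) (M (nat_lit 48863964941058047))) (P (nat_lit 0))))) (T.h (T.h (P (nat_lit 0)) (P (nat_lit 76622548805082939392))) (T.h (T.h (T.h (P (nat_lit 0)) (M (nat_lit 158948710125174783))) (P (nat_lit 0))) (P (nat_lit 0))))))), (P (nat_lit 0)), (P (nat_lit 0)), (T.h (T.h (P (nat_lit 0)) (T.h (T.h (M (nat_lit 16157316351655077914389512191)) (T.h (P (nat_lit 0)) (T.h (M (nat_lit 1472349745841981882367)) (T.h (P (nat_lit 0)) (P (nat_lit 7029372037136384))))))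 (T.h (P (nat_lit 0)) (T.h (T.h (M (nat_lit 5325104209578101309439)) (T.h (P (nat_lit 0)) (P (nat_lit 23172711675297792)))) (T.h (P (nat_lit 0)) (P (nat_lit 29353014219341824))))))) (T.h (T.h (T.h (P (nat_lit 0)) (T.h (M (nat_lit 11214666536666130125160447)) (T.h (P (nat_lit 0)) (T.h (M (nat_lit 16014234136231280639)) (T.h (P (nat_lit 0)) (P (nat_lit 6700780526240))))))) (T.h (P (nat_lit 0)) (T.h (T.h (P (nat_lit 0)) (T.h (M (nat_lit 26743036042488578047)) (T.h (P (nat_lit 0)) (M (nat_lit 10694443811919))))) (T.h (P (nat_lit 0)) (T.h (T.h (P (nat_lit 0)) (P (nat_lit 38000328702000))) (P (nat_lit 0))))))) (T.h (T.h (P (nat_lit 0)) (T.h (T.h (P (nat_lit 13429755321487863054336)) (T.h (P (nat_lit 0)) (P (nat_lit 171041178281050112)))) (T.h (P (nat_lit 0)) (M (nat_lit 27539627497783295))))) (T.h (T.h (T.h (P (nat_lit 0)) (T.h (M (nat_lit 273829416074412556287)) (T.h (P (nat_lit 0)) (P (nat_lit 78533988872880))))) (T.h (P (nat_lit 0)) (T.h (T.h (P (nat_lit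 0)) (M (nat_lit 63537919357359))) (P (nat_lit 0))))) (T.h (T.h (P (nat_lit 0)) (P (nat_lit 274177761625079808))) (T.h (T.h (T.h (P (nat_lit 0)) (M (nat_lit 649950281733359))) (P (nat_lit 0))) (P (nat_lit 0))))))))]
def lQp_54 : List (T ℤ) := [(T.h (T.h (P (nat_lit 0)) (T.h (T.h (P (nat_lit 0)) (T.h (M (nat_lit 11630828762409913171312639)) (T.h (P (nat_lit 0)) (T.h (M (nat_lit 6560148199749713919)) (T.h (P (nat_lit 0)) (M (nat_lit 53103933012239))))))) (T.h (P (nat_lit 0)) (T.h (T.h (P (nat_lit 0)) (T.h (M (nat_lit 6560148199749713919)) (T.h (P (nat_lit 0)) (P (nat_lit 1364867077376))))) (T.h (P (nat_lit 0)) (T.h (T.h (P (nat_lit 0)) (M (nat_lit 53103933012239))) (P (nat_lit 0)))))))) (T.h (T.h (T.h (M (nat_lit 88476704524665135652308779007)) (T.h (P (nat_lit 0)) (T.h (M (nat_lit 62360555743963334574079)) (T.h (P (nat_lit 0)) (P (nat_lit 18997831817314304)))))) (T.h (P (nat_lit 0)) (T.h (T.h (M (nat_lit 62360555743963334574079)) (T.h (P (nat_lit 0))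 (M (nat_lit 210565724574416895)))) (T.h (P (nat_lit 0)) (P (nat_lit 18997831817314304)))))) (T.h (T.h (P (nat_lit 0)) (T.h (T.h (P (nat_lit 0)) (T.h (P (nat_lit 678278750592739311616)) (T.h (P (nat_lit 0)) (M (nat_lit 232315348433871))))) (T.h (P (nat_lit 0)) (T.h (T.h (P (nat_lit 0)) (M (nat_lit 232315348433871))) (P (nat_lit 0)))))) (T.h (T.h (T.h (M (nat_lit 98649202954236063645695)) (T.h (P (nat_lit 0)) (P (nat_lit 43458579367362560)))) (T.h (P (nat_lit 0)) (P (nat_lit 43458579367362560)))) (T.h (T.h (P (nat_lit 0)) (T.h (T.h (P (nat_lit 0)) (M (nat_lit 170370273170943))) (P (nat_lit 0)))) (M (nat_lit 732502817971994623))))))), (T.h (T.h (P (nat_lit 0)) (T.h (T.h (P (nat_lit 3852606373610495334007439360)) (T.h (P (nat_lit 0)) (T.h (M (nat_lit 6837357369292922814463)) (T.h (P (nat_lit 0)) (M (nat_lit 59169193778446335)))))) (T.h (P (nat_lit 0)) (T.h (T.h (M (nat_lit 22505124835361908850687)) (T.h (P (nat_lit 0)) (M (nat_lit 46638150502907903))))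 (T.h (P (nat_lit 0)) (P (nat_lit 4950061242613760))))))) (T.h (T.h (T.h (P (nat_lit 0)) (T.h (P (nat_lit 59607409781330600397897728)) (T.h (P (nat_lit 0)) (M (nat_lit 18434105099233001471))))) (T.h (P (nat_lit 0)) (T.h (T.h (P (nat_lit 0)) (M (nat_lit 114307951635558563839))) (P (nat_lit 0))))) (T.h (T.h (P (nat_lit 0)) (T.h (T.h (P (nat_lit 245447685447027747979264)) (T.h (P (nat_lit 0)) (P (nat_lit 110716026291683328)))) (T.h (P (nat_lit 0)) (P (nat_lit 47461522852282368))))) (T.h (T.h (T.h (P (nat_lit 0)) (M (nat_lit 1752441552205047136255))) (P (nat_lit 0))) (T.h (T.h (P (nat_lit 0)) (P (nat_lit 282237081034981376))) (P (nat_lit 0))))))), (P (nat_lit 0)), (P (nat_lit 0)), (T.h (T.h (T.h (P (nat_lit 648354378398368560434359828480)) (T.h (P (nat_lit 0)) (T.h (P (nat_lit 405226602017100610404352)) (T.h (P (nat_lit 0)) (T.h (M (nat_lit 5430699604901363711)) (T.h (P (nat_lit 0)) (P (nat_lit 3821769693456)))))))) (T.h (P (nat_lit 0)) (T.h (T.h (P (nat_lit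 6029595519567029736570880)) (T.h (P (nat_lit 0)) (T.h (P (nat_lit 1458250011144880128)) (T.h (P (nat_lit 0)) (M (nat_lit 49126568938831)))))) (T.h (P (nat_lit 0)) (T.h (T.h (P (nat_lit 22782046953774514176)) (T.h (P (nat_lit 0)) (M (nat_lit 52667779269951)))) (T.h (P (nat_lit 0)) (P (nat_lit 1586148909312)))))))) (T.h (T.h (P (nat_lit 0)) (T.h (T.h (P (nat_lit 0)) (T.h (M (nat_lit 44952741325817528713215)) (T.h (P (nat_lit 0)) (M (nat_lit 36359330566864895))))) (T.h (P (nat_lit 0)) (T.h (T.h (P (nat_lit 0)) (P (nat_lit 134958845215637504))) (P (nat_lit 0)))))) (T.h (T.h (T.h (P (nat_lit 7052920268108960389660672)) (T.h (P (nat_lit 0)) (T.h (P (nat_lit 34010185905997873152)) (T.h (P (nat_lit 0)) (M (nat_lit 17832029004943)))))) (T.h (P (nat_lit 0)) (T.h (T.h (M (nat_lit 80224259377891115007)) (T.h (P (nat_lit 0)) (P (nat_lit 109922351265936)))) (T.h (P (nat_lit 0)) (P (nat_lit 129681242717312)))))) (T.h (T.h (P (nat_lit 0)) (T.h (T.h (P (nat_lit 0))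 (P (nat_lit 150087276435439616))) (P (nat_lit 0)))) (T.h (T.h (T.h (P (nat_lit 192230385199957934080)) (T.h (P (nat_lit 0)) (P (nat_lit 33231154151888)))) (T.h (P (nat_lit 0)) (P (nat_lit 78162321228816)))) (T.h (P (nat_lit 0)) (P (nat_lit 130481994932784)))))))), (T.h (T.h (T.h (P (nat_lit 0)) (T.h (P (nat_lit 3852606373610495334007439360)) (T.h (P (nat_lit 0)) (T.h (M (nat_lit 22505124835361908850687)) (T.h (P (nat_lit 0)) (P (nat_lit 4950061242613760))))))) (T.h (P (nat_lit 0)) (T.h (T.h (P (nat_lit 0)) (T.h (M (nat_lit 6837357369292922814463)) (T.h (P (nat_lit 0)) (M (nat_lit 46638150502907903))))) (T.h (P (nat_lit 0)) (T.h (T.h (P (nat_lit 0)) (M (nat_lit 59169193778446335))) (P (nat_lit 0))))))) (T.h (T.h (P (nat_lit 0)) (T.h (T.h (P (nat_lit 59607409781330600397897728)) (T.h (P (nat_lit 0)) (M (nat_lit 114307951635558563839)))) (T.h (P (nat_lit 0)) (M (nat_lit 18434105099233001471))))) (T.h (T.h (T.h (P (nat_lit 0)) (T.h (P (nat_lit 245447685447027747979264))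 (T.h (P (nat_lit 0)) (P (nat_lit 47461522852282368))))) (T.h (P (nat_lit 0)) (T.h (T.h (P (nat_lit 0)) (P (nat_lit 110716026291683328))) (P (nat_lit 0))))) (T.h (T.h (P (nat_lit 0)) (M (nat_lit 1752441552205047136255))) (T.h (T.h (T.h (P (nat_lit 0)) (P (nat_lit 282237081034981376))) (P (nat_lit 0))) (P (nat_lit 0))))))), (P (nat_lit 0)), (P (nat_lit 0))]
def lQp_55 : List (T ℤ) := [(T.h (T.h (P (nat_lit 0)) (T.h (T.h (M (nat_lit 9479945226855203678944493567)) (T.h (P (nat_lit 0)) (T.h (P (nat_lit 15229871120192928481280)) (T.h (P (nat_lit 0)) (M (nat_lit 27031974620561407)))))) (T.h (P (nat_lit 0)) (T.h (T.h (P (nat_lit 8055960460481364230144)) (T.h (P (nat_lit 0)) (M (nat_lit 67886065340547071)))) (T.h (P (nat_lit 0)) (P (nat_lit 3604578148319232))))))) (T.h (T.h (T.h (P (nat_lit 0)) (T.h (M (nat_lit 68480659706341009634885631)) (T.h (P (nat_lit 0)) (M (nat_lit 11930534835996590079))))) (T.h (P (nat_lit 0)) (T.h (T.h (P (nat_lit 0)) (M (nat_lit 28561419631895511039)))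 (P (nat_lit 0))))) (T.h (T.h (P (nat_lit 0)) (T.h (T.h (P (nat_lit 252405377024740638588928)) (T.h (P (nat_lit 0)) (M (nat_lit 48863964941058047)))) (T.h (P (nat_lit 0)) (P (nat_lit 73784448161644544))))) (T.h (T.h (T.h (P (nat_lit 0)) (P (nat_lit 76622548805082939392))) (P (nat_lit 0))) (T.h (T.h (P (nat_lit 0)) (M (nat_lit 158948710125174783))) (P (nat_lit 0))))))), (P (nat_lit 0)), (P (nat_lit 0)), (P (nat_lit 0)), (P (nat_lit 0)), (P (nat_lit 0)), (T.h (T.h (P (nat_lit 0)) (T.h (T.h (P (nat_lit 0)) (T.h (M (nat_lit 216187792611341833863167)) (T.h (P (nat_lit 0)) (T.h (M (nat_lit 3961292155565113343)) (T.h (P (nat_lit 0)) (P (nat_lit 3155819464560))))))) (T.h (P (nat_lit 0)) (T.h (T.h (P (nat_lit 0)) (T.h (M (nat_lit 3961292155565113343)) (T.h (P (nat_lit 0)) (P (nat_lit 13201214689440))))) (T.h (P (nat_lit 0)) (T.h (T.h (P (nat_lit 0)) (P (nat_lit 3155819464560))) (P (nat_lit 0)))))))) (T.h (T.h (T.h (P (nat_lit 4596200364159134283318951936)) (T.h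 (P (nat_lit 0)) (T.h (M (nat_lit 8278749748978604048383)) (T.h (P (nat_lit 0)) (P (nat_lit 5455506261671936)))))) (T.h (P (nat_lit 0)) (T.h (T.h (M (nat_lit 8278749748978604048383)) (T.h (P (nat_lit 0)) (P (nat_lit 56948847809921024)))) (T.h (P (nat_lit 0)) (P (nat_lit 5455506261671936)))))) (T.h (T.h (P (nat_lit 0)) (T.h (T.h (P (nat_lit 0)) (T.h (M (nat_lit 16369758572956876799)) (T.h (P (nat_lit 0)) (M (nat_lit 13710230630079))))) (T.h (P (nat_lit 0)) (T.h (T.h (P (nat_lit 0)) (M (nat_lit 13710230630079))) (P (nat_lit 0)))))) (T.h (T.h (T.h (P (nat_lit 15703917169784586764288)) (T.h (P (nat_lit 0)) (P (nat_lit 34950437389729792)))) (T.h (P (nat_lit 0)) (P (nat_lit 34950437389729792)))) (T.h (T.h (P (nat_lit 0)) (T.h (T.h (P (nat_lit 0)) (M (nat_lit 53858954616319))) (P (nat_lit 0)))) (M (nat_lit 21714547579813887))))))), (T.h (T.h (P (nat_lit 0)) (T.h (T.h (M (nat_lit 1468683830756010962882396159)) (T.h (P (nat_lit 0)) (T.h (M (nat_lit 2152802899987471007743))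 (T.h (P (nat_lit 0)) (M (nat_lit 4140057265930239)))))) (T.h (P (nat_lit 0)) (T.h (T.h (M (nat_lit 4805245990692022386687)) (T.h (P (nat_lit 0)) (P (nat_lit 13742695469957120)))) (T.h (P (nat_lit 0)) (P (nat_lit 2598847362711552))))))) (T.h (T.h (T.h (P (nat_lit 0)) (T.h (P (nat_lit 24061905069947047567687680)) (T.h (P (nat_lit 0)) (T.h (P (nat_lit 50873018507107237888)) (T.h (P (nat_lit 0)) (M (nat_lit 6662556455103))))))) (T.h (P (nat_lit 0)) (T.h (T.h (P (nat_lit 0)) (T.h (P (nat_lit 40906388900327456768)) (T.h (P (nat_lit 0)) (P (nat_lit 238877194160))))) (T.h (P (nat_lit 0)) (T.h (T.h (P (nat_lit 0)) (P (nat_lit 37730281781984))) (P (nat_lit 0))))))) (T.h (T.h (P (nat_lit 0)) (T.h (T.h (M (nat_lit 14144146517207239622655)) (T.h (P (nat_lit 0)) (P (nat_lit 7918000311222272)))) (T.h (P (nat_lit 0)) (P (nat_lit 131025791878840320))))) (T.h (T.h (T.h (P (nat_lit 0)) (T.h (P (nat_lit 83946722356541521920)) (T.h (P (nat_lit 0)) (P (nat_lit 847315013424)))))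 (T.h (P (nat_lit 0)) (T.h (T.h (P (nat_lit 0)) (M (nat_lit 64739948756207))) (P (nat_lit 0))))) (T.h (T.h (P (nat_lit 0)) (M (nat_lit 486616909737345023))) (T.h (T.h (T.h (P (nat_lit 0)) (M (nat_lit 430642633814447))) (P (nat_lit 0))) (P (nat_lit 0))))))))]
def lQp_56 : List (T ℤ) := [(T.h (T.h (P (nat_lit 0)) (T.h (T.h (P (nat_lit 0)) (T.h (M (nat_lit 9767776142240778154934271)) (T.h (P (nat_lit 0)) (P (nat_lit 181177798486917120))))) (T.h (P (nat_lit 0)) (T.h (T.h (P (nat_lit 0)) (M (nat_lit 11252920928419446783))) (P (nat_lit 0)))))) (T.h (T.h (T.h (M (nat_lit 3166846873336167602856132607)) (T.h (P (nat_lit 0)) (T.h (M (nat_lit 54548994911447583555583)) (T.h (P (nat_lit 0)) (P (nat_lit 42086344733622272)))))) (T.h (P (nat_lit 0)) (T.h (T.h (M (nat_lit 35266817870928178839551)) (T.h (P (nat_lit 0)) (P (nat_lit 41064510206017536)))) (T.h (P (nat_lit 0)) (P (nat_lit 384693298659328)))))) (T.h (T.h (P (nat_lit 0)) (T.h (T.h (P (nat_lit 0)) (P (nat_lit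 145672624222347722752))) (P (nat_lit 0)))) (T.h (T.h (T.h (P (nat_lit 14344602706940511911936)) (T.h (P (nat_lit 0)) (P (nat_lit 58682876268085248)))) (T.h (P (nat_lit 0)) (P (nat_lit 12694745432686592)))) (T.h (P (nat_lit 0)) (P (nat_lit 65582421789278208))))))), (P (nat_lit 0)), (P (nat_lit 0)), (T.h (T.h (T.h (P (nat_lit 0)) (T.h (M (nat_lit 1468683830756010962882396159)) (T.h (P (nat_lit 0)) (T.h (M (nat_lit 4805245990692022386687)) (T.h (P (nat_lit 0)) (P (nat_lit 2598847362711552))))))) (T.h (P (nat_lit 0)) (T.h (T.h (P (nat_lit 0)) (T.h (M (nat_lit 2152802899987471007743)) (T.h (P (nat_lit 0)) (P (nat_lit 13742695469957120))))) (T.h (P (nat_lit 0)) (T.h (T.h (P (nat_lit 0)) (M (nat_lit 4140057265930239))) (P (nat_lit 0))))))) (T.h (T.h (P (nat_lit 0)) (T.h (T.h (P (nat_lit 24061905069947047567687680)) (T.h (P (nat_lit 0)) (T.h (P (nat_lit 40906388900327456768)) (T.h (P (nat_lit 0)) (P (nat_lit 37730281781984)))))) (T.h (P (nat_lit 0)) (T.h (T.h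 (P (nat_lit 50873018507107237888)) (T.h (P (nat_lit 0)) (P (nat_lit 238877194160)))) (T.h (P (nat_lit 0)) (M (nat_lit 6662556455103))))))) (T.h (T.h (T.h (P (nat_lit 0)) (T.h (M (nat_lit 14144146517207239622655)) (T.h (P (nat_lit 0)) (P (nat_lit 131025791878840320))))) (T.h (P (nat_lit 0)) (T.h (T.h (P (nat_lit 0)) (P (nat_lit 7918000311222272))) (P (nat_lit 0))))) (T.h (T.h (P (nat_lit 0)) (T.h (T.h (P (nat_lit 83946722356541521920)) (T.h (P (nat_lit 0)) (M (nat_lit 64739948756207)))) (T.h (P (nat_lit 0)) (P (nat_lit 847315013424))))) (T.h (T.h (T.h (P (nat_lit 0)) (M (nat_lit 486616909737345023))) (P (nat_lit 0))) (T.h (T.h (P (nat_lit 0)) (M (nat_lit 430642633814447))) (P (nat_lit 0)))))))), (T.h (T.h (T.h (M (nat_lit 6680708591493659502204118106111)) (T.h (P (nat_lit 0)) (T.h (M (nat_lit 3152629237428887272554495)) (T.h (P (nat_lit 0)) (M (nat_lit 9809641144634572799)))))) (T.h (P (nat_lit 0)) (T.h (T.h (M (nat_lit 3152629237428887272554495)) (T.h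 (P (nat_lit 0)) (M (nat_lit 9895869601147781119)))) (T.h (P (nat_lit 0)) (M (nat_lit 9809641144634572799)))))) (T.h (T.h (P (nat_lit 0)) (T.h (T.h (P (nat_lit 0)) (T.h (P (nat_lit 65334891981411134210048)) (T.h (P (nat_lit 0)) (M (nat_lit 58318068894531583))))) (T.h (P (nat_lit 0)) (T.h (T.h (P (nat_lit 0)) (M (nat_lit 58318068894531583))) (P (nat_lit 0)))))) (T.h (T.h (T.h (P (nat_lit 2149890956194024676917248)) (T.h (P (nat_lit 0)) (P (nat_lit 48278542870674145280)))) (T.h (P (nat_lit 0)) (P (nat_lit 48278542870674145280)))) (T.h (T.h (P (nat_lit 0)) (T.h (T.h (P (nat_lit 0)) (M (nat_lit 175092994366111743))) (P (nat_lit 0)))) (P (nat_lit 8287550168841060352)))))), (P (nat_lit 0)), (P (nat_lit 0)), (T.h (T.h (P (nat_lit 0)) (T.h (T.h (P (nat_lit 0)) (T.h (M (nat_lit 9767776142240778154934271)) (T.h (P (nat_lit 0)) (M (nat_lit 11252920928419446783))))) (T.h (P (nat_lit 0)) (T.h (T.h (P (nat_lit 0)) (P (nat_lit 181177798486917120))) (P (nat_lit 0))))))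 (T.h (T.h (T.h (M (nat_lit 3166846873336167602856132607)) (T.h (P (nat_lit 0)) (T.h (M (nat_lit 35266817870928178839551)) (T.h (P (nat_lit 0)) (P (nat_lit 384693298659328)))))) (T.h (P (nat_lit 0)) (T.h (T.h (M (nat_lit 54548994911447583555583)) (T.h (P (nat_lit 0)) (P (nat_lit 41064510206017536)))) (T.h (P (nat_lit 0)) (P (nat_lit 42086344733622272)))))) (T.h (T.h (P (nat_lit 0)) (T.h (T.h (P (nat_lit 0)) (P (nat_lit 145672624222347722752))) (P (nat_lit 0)))) (T.h (T.h (T.h (P (nat_lit 14344602706940511911936)) (T.h (P (nat_lit 0)) (P (nat_lit 12694745432686592)))) (T.h (P (nat_lit 0)) (P (nat_lit 58682876268085248)))) (T.h (P (nat_lit 0)) (P (nat_lit 65582421789278208)))))))]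
def lQp_57 : List (T ℤ) := [(P (nat_lit 0)), (P (nat_lit 0)), (P (nat_lit 0)), (P (nat_lit 0)), (P (nat_lit 0)), (T.h (T.h (T.h (P (nat_lit 3948621279540221083939168583680)) (T.h (P (nat_lit 0)) (T.h (M (nat_lit 674436486761574870024191)) (T.h (P (nat_lit 0)) (T.h (M (nat_lit 1077428141279936511)) (T.h (P (nat_lit 0)) (P (nat_lit 742147470768)))))))) (T.h (P (nat_lit 0)) (T.h (T.h (M (nat_lit 674436486761574870024191)) (T.h (P (nat_lit 0)) (T.h (P (nat_lit 7703816849347051520)) (T.h (P (nat_lit 0)) (P (nat_lit 7551023902224)))))) (T.h (P (nat_lit 0)) (T.h (T.h (M (nat_lit 1077428141279936511)) (T.h (P (nat_lit 0)) (P (nat_lit 7551023902224)))) (T.h (P (nat_lit 0)) (P (nat_lit 742147470768)))))))) (T.h (T.h (P (nat_lit 0)) (T.h (T.h (P (nat_lit 0)) (T.h (M (nat_lit 13285698098565511905279)) (T.h (P (nat_lit 0)) (M (nat_lit 4307079362576383))))) (T.h (P (nat_lit 0)) (T.h (T.h (P (nat_lit 0)) (M (nat_lit 4307079362576383))) (P (nat_lit 0)))))) (T.h (T.h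 (T.h (M (nat_lit 3553202741703086916501503)) (T.h (P (nat_lit 0)) (T.h (M (nat_lit 5355990087802814463)) (T.h (P (nat_lit 0)) (P (nat_lit 12342157505568)))))) (T.h (P (nat_lit 0)) (T.h (T.h (M (nat_lit 5355990087802814463)) (T.h (P (nat_lit 0)) (M (nat_lit 55649786596799)))) (T.h (P (nat_lit 0)) (P (nat_lit 12342157505568)))))) (T.h (T.h (P (nat_lit 0)) (T.h (T.h (P (nat_lit 0)) (M (nat_lit 121986559857917951))) (P (nat_lit 0)))) (T.h (T.h (T.h (M (nat_lit 176895427923450789887)) (T.h (P (nat_lit 0)) (M (nat_lit 56118708733823)))) (T.h (P (nat_lit 0)) (M (nat_lit 56118708733823)))) (T.h (P (nat_lit 0)) (P (nat_lit 14511582942912)))))))), (T.h (T.h (T.h (P (nat_lit 0)) (T.h (P (nat_lit 3849283284899336926831575040)) (T.h (P (nat_lit 0)) (T.h (P (nat_lit 2169209033493156200448)) (T.h (P (nat_lit 0)) (M (nat_lit 411400681750527))))))) (T.h (P (nat_lit 0)) (T.h (T.h (P (nat_lit 0)) (T.h (P (nat_lit 318127756473987497984)) (T.h (P (nat_lit 0)) (P (nat_lit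 5667928027332608))))) (T.h (P (nat_lit 0)) (T.h (T.h (P (nat_lit 0)) (P (nat_lit 9836419181182976))) (P (nat_lit 0))))))) (T.h (T.h (P (nat_lit 0)) (T.h (T.h (P (nat_lit 8685767576524368306503680)) (T.h (P (nat_lit 0)) (P (nat_lit 21352153951422644224)))) (T.h (P (nat_lit 0)) (P (nat_lit 32111403715541336064))))) (T.h (T.h (T.h (P (nat_lit 0)) (T.h (P (nat_lit 7915433807328952975360)) (T.h (P (nat_lit 0)) (P (nat_lit 9664805248008192))))) (T.h (P (nat_lit 0)) (T.h (T.h (P (nat_lit 0)) (M (nat_lit 56882161005330431))) (P (nat_lit 0))))) (T.h (T.h (P (nat_lit 0)) (P (nat_lit 126973145165437337600))) (T.h (T.h (T.h (P (nat_lit 0)) (M (nat_lit 421785709203062783))) (P (nat_lit 0))) (P (nat_lit 0))))))), (P (nat_lit 0))]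
def lQp_58 : List (T ℤ) := [(P (nat_lit 0)), (T.h (T.h (P (nat_lit 0)) (T.h (T.h (P (nat_lit 3849283284899336926831575040)) (T.h (P (nat_lit 0)) (T.h (P (nat_lit 318127756473987497984)) (T.h (P (nat_lit 0)) (P (nat_lit 9836419181182976)))))) (T.h (P (nat_lit 0)) (T.h (T.h (P (nat_lit 2169209033493156200448)) (T.h (P (nat_lit 0)) (P (nat_lit 5667928027332608)))) (T.h (P (nat_lit 0)) (M (nat_lit 411400681750527))))))) (T.h (T.h (T.h (P (nat_lit 0)) (T.h (P (nat_lit 8685767576524368306503680)) (T.h (P (nat_lit 0)) (P (nat_lit 32111403715541336064))))) (T.h (P (nat_lit 0)) (T.h (T.h (P (nat_lit 0)) (P (nat_lit 21352153951422644224))) (P (nat_lit 0))))) (T.h (T.h (P (nat_lit 0)) (T.h (T.h (P (nat_lit 7915433807328952975360)) (T.h (P (nat_lit 0)) (M (nat_lit 56882161005330431)))) (T.h (P (nat_lit 0)) (P (nat_lit 9664805248008192))))) (T.h (T.h (T.h (P (nat_lit 0)) (P (nat_lit 126973145165437337600))) (P (nat_lit 0))) (T.h (T.h (P (nat_lit 0)) (M (nat_lit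 421785709203062783))) (P (nat_lit 0))))))), (P (nat_lit 0)), (P (nat_lit 0)), (P (nat_lit 0)), (P (nat_lit 0)), (P (nat_lit 0)), (T.h (T.h (P (nat_lit 0)) (T.h (T.h (P (nat_lit 0)) (T.h (M (nat_lit 386661090139917950910463)) (T.h (P (nat_lit 0)) (P (nat_lit 243643318179725312))))) (T.h (P (nat_lit 0)) (T.h (T.h (P (nat_lit 0)) (P (nat_lit 243643318179725312))) (P (nat_lit 0)))))) (T.h (T.h (T.h (P (nat_lit 5897302073599640136660811776)) (T.h (P (nat_lit 0)) (T.h (P (nat_lit 5209847404018203099136)) (T.h (P (nat_lit 0)) (P (nat_lit 4595770649346048)))))) (T.h (P (nat_lit 0)) (T.h (T.h (P (nat_lit 5209847404018203099136)) (T.h (P (nat_lit 0)) (M (nat_lit 20721956900044799)))) (T.h (P (nat_lit 0)) (P (nat_lit 4595770649346048)))))) (T.h (T.h (P (nat_lit 0)) (T.h (T.h (P (nat_lit 0)) (M (nat_lit 43491311747944415231))) (P (nat_lit 0)))) (T.h (T.h (T.h (M (nat_lit 38739346812376056856575)) (T.h (P (nat_lit 0)) (M (nat_lit 41793132904316927)))) (T.h (P (nat_lit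 0)) (M (nat_lit 41793132904316927)))) (T.h (P (nat_lit 0)) (P (nat_lit 16210757382045696)))))))]
def lQp_59 : List (T ℤ) := [(P (nat_lit 0)), (P (nat_lit 0)), (P (nat_lit 0)), (P (nat_lit 0)), (P (nat_lit 0)), (P (nat_lit 0)), (P (nat_lit 0)), (P (nat_lit 0))]
def lQp_60 : List (T ℤ) := [(P (nat_lit 0))]

def CQp : List (T ℤ) := lQp_0 ++ (lQp_1 ++ (lQp_2 ++ (lQp_3 ++ (lQp_4 ++ (lQp_5 ++ (lQp_6 ++ (lQp_7 ++ (lQp_8 ++ (lQp_9 ++ (lQp_10 ++ (lQp_11 ++ (lQp_12 ++ (lQp_13 ++ (lQp_14 ++ (lQp_15 ++ (lQp_16 ++ (lQp_17 ++ (lQp_18 ++ (lQp_19 ++ (lQp_20 ++ (lQp_21 ++ (lQp_22 ++ (lQp_23 ++ (lQp_24 ++ (lQp_25 ++ (lQp_26 ++ (lQp_27 ++ (lQp_28 ++ (lQp_29 ++ (lQp_30 ++ (lQp_31 ++ (lQp_32 ++ (lQp_33 ++ (lQp_34 ++ (lQp_35 ++ (lQp_36 ++ (lQp_37 ++ (lQp_38 ++ (lQp_39 ++ (lQp_40 ++ (lQp_41 ++ (lQp_42 ++ (lQp_43 ++ (lQp_44 ++ (lQp_45 ++ (lQp_46 ++ (lQp_47 ++ (lQp_48 ++ (lQp_49 ++ (lQp_50 ++ (lQp_51 ++ (lQp_52 ++ (lQp_53 ++ (lQp_54 ++ (lQp_55 ++ (lQp_56 ++ (lQp_57 ++ (lQp_58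 ++ (lQp_59 ++ (lQp_60))))))))))))))))))))))))))))))))))))))))))))))))))))))))))))

/-- norms at radius 1536 -/
def NQp : List ℕ := [(nat_lit 5034231565398356583608483840000), (nat_lit 0), (nat_lit 1936249348962702484545994953326592), (nat_lit 4170141418882642536058622182424576), (nat_lit 2946835483687255799354126789246976), (nat_lit 5216759397481387291827652387667968), (nat_lit 1541913322740312906285538672115712), (nat_lit 0), (nat_lit 0), (nat_lit 0), (nat_lit 2095230836906382242898518413934592), (nat_lit 5571590136520568920929144296964096), (nat_lit 17566673911081210103780376708120576), (nat_lit 13740034555752654911455447713054720), (nat_lit 5379688343161541790212226337996800), (nat_lit 0), (nat_lit 0), (nat_lit 0), (nat_lit 1446876750359959258353104830070784), (nat_lit 11990309699620455024518895335636992), (nat_lit 10210892362686663878720572039888896), (nat_lit 12779386240225529523267431745716224), (nat_lit 3165067436911905324468088300634112), (nat_lit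 0), (nat_lit 0), (nat_lit 3995485505665862631187123292602368), (nat_lit 11259064105425486217843300374675456), (nat_lit 27213608856120029334814171645083648), (nat_lit 14933267167960163038427692287393792), (nat_lit 5077039350393258466700208019341312), (nat_lit 0), (nat_lit 0), (nat_lit 3995485505665862631187123292602368), (nat_lit 25015968845869239855514864649764864), (nat_lit 34980759013812674914884577866547200), (nat_lit 66102350838006440043205899407327232), (nat_lit 28266015128656486240017912900354048), (nat_lit 0), (nat_lit 0), (nat_lit 1446876750359959258353104830070784), (nat_lit 11259064105425486217843300374675456), (nat_lit 34980759013812674914884577866547200), (nat_lit 73861050275293107502553318956204032), (nat_lit 26596281468057084762184039595507712), (nat_lit 0), (nat_lit 0), (nat_lit 2095230836906382242898518413934592), (nat_lit 11990309699620455024518895335636992), (nat_lit 27213608856120029334814171645083648), (nat_lit 66102350838006440043205899407327232),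 (nat_lit 26596281468057084762184039595507712), (nat_lit 0), (nat_lit 0), (nat_lit 1936249348962702484545994953326592), (nat_lit 5571590136520568920929144296964096), (nat_lit 10210892362686663878720572039888896), (nat_lit 14933267167960163038427692287393792), (nat_lit 28266015128656486240017912900354048), (nat_lit 0), (nat_lit 0), (nat_lit 4170141418882642536058622182424576), (nat_lit 17566673911081210103780376708120576), (nat_lit 12779386240225529523267431745716224), (nat_lit 5077039350393258466700208019341312), (nat_lit 0), (nat_lit 0), (nat_lit 2946835483687255799354126789246976), (nat_lit 13740034555752654911455447713054720), (nat_lit 3165067436911905324468088300634112), (nat_lit 0), (nat_lit 0), (nat_lit 5216759397481387291827652387667968), (nat_lit 5379688343161541790212226337996800), (nat_lit 0), (nat_lit 0), (nat_lit 1541913322740312906285538672115712), (nat_lit 0), (nat_lit 0), (nat_lit 0), (nat_lit 0), (nat_lit 0), (nat_lit 2095230836906382242898518413934592),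 (nat_lit 5571590136520568920929144296964096), (nat_lit 17566673911081210103780376708120576), (nat_lit 13740034555752654911455447713054720), (nat_lit 5379688343161541790212226337996800), (nat_lit 0), (nat_lit 0), (nat_lit 6113072133486313587448702662868992), (nat_lit 8727197887138125106369890783068160), (nat_lit 19578358060901119095753804705955840), (nat_lit 23704202962686517157247584506478592), (nat_lit 3505504948021139736566282493886464), (nat_lit 0), (nat_lit 0), (nat_lit 20825218022600536113024427056168960), (nat_lit 15746071662480190965866063135244288), (nat_lit 38440666659878787074525790876991488), (nat_lit 49623601449714309396573538624733184), (nat_lit 16348222677415602568976898566651904), (nat_lit 0), (nat_lit 0), (nat_lit 29608622065258569761900513753825280), (nat_lit 38691606899191200422691387431976960), (nat_lit 69427771601424280979721003097653248), (nat_lit 61550691365455361125071775542018048), (nat_lit 17179104328625352243046203671969792),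 (nat_lit 0), (nat_lit 0), (nat_lit 20825218022600536113024427056168960), (nat_lit 38691606899191200422691387431976960), (nat_lit 103901420465428310048028436495073280), (nat_lit 62733585082498689615946544584851456), (nat_lit 18264041879335211232804045431242752), (nat_lit 0), (nat_lit 0), (nat_lit 6113072133486313587448702662868992), (nat_lit 15746071662480190965866063135244288), (nat_lit 69427771601424280979721003097653248), (nat_lit 62733585082498689615946544584851456), (nat_lit 21094026943910034324907254895083520), (nat_lit 0), (nat_lit 0), (nat_lit 2095230836906382242898518413934592), (nat_lit 8727197887138125106369890783068160), (nat_lit 38440666659878787074525790876991488), (nat_lit 61550691365455361125071775542018048), (nat_lit 18264041879335211232804045431242752), (nat_lit 0), (nat_lit 0), (nat_lit 5571590136520568920929144296964096), (nat_lit 19578358060901119095753804705955840), (nat_lit 49623601449714309396573538624733184), (nat_lit 17179104328625352243046203671969792),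 (nat_lit 0), (nat_lit 0), (nat_lit 17566673911081210103780376708120576), (nat_lit 23704202962686517157247584506478592), (nat_lit 16348222677415602568976898566651904), (nat_lit 0), (nat_lit 0), (nat_lit 13740034555752654911455447713054720), (nat_lit 3505504948021139736566282493886464), (nat_lit 0), (nat_lit 0), (nat_lit 5379688343161541790212226337996800), (nat_lit 0), (nat_lit 0), (nat_lit 0), (nat_lit 0), (nat_lit 0), (nat_lit 0), (nat_lit 1446876750359959258353104830070784), (nat_lit 11990309699620455024518895335636992), (nat_lit 10210892362686663878720572039888896), (nat_lit 12779386240225529523267431745716224), (nat_lit 3165067436911905324468088300634112), (nat_lit 0), (nat_lit 0), (nat_lit 20825218022600536113024427056168960), (nat_lit 15746071662480190965866063135244288), (nat_lit 38440666659878787074525790876991488), (nat_lit 49623601449714309396573538624733184), (nat_lit 16348222677415602568976898566651904), (nat_lit 0), (nat_lit 0), (nat_lit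 22452219647001854323504669198909440), (nat_lit 20440171499564853970877765220564992), (nat_lit 66975551787154279365565426736037888), (nat_lit 64735798158136763034646554236420096), (nat_lit 17191102653566429062841068456771584), (nat_lit 0), (nat_lit 0), (nat_lit 22452219647001854323504669198909440), (nat_lit 50671866438855271371382503128432640), (nat_lit 128671879767785461882625984997359616), (nat_lit 80424918065622668746096277377253376), (nat_lit 23614805616898103220892522908745728), (nat_lit 0), (nat_lit 0), (nat_lit 20825218022600536113024427056168960), (nat_lit 20440171499564853970877765220564992), (nat_lit 128671879767785461882625984997359616), (nat_lit 108388069744674300048765798580224000), (nat_lit 25701725736600187509343177219768320), (nat_lit 0), (nat_lit 0), (nat_lit 1446876750359959258353104830070784), (nat_lit 15746071662480190965866063135244288), (nat_lit 66975551787154279365565426736037888), (nat_lit 80424918065622668746096277377253376),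 (nat_lit 25701725736600187509343177219768320), (nat_lit 0), (nat_lit 0), (nat_lit 11990309699620455024518895335636992), (nat_lit 38440666659878787074525790876991488), (nat_lit 64735798158136763034646554236420096), (nat_lit 23614805616898103220892522908745728), (nat_lit 0), (nat_lit 0), (nat_lit 10210892362686663878720572039888896), (nat_lit 49623601449714309396573538624733184), (nat_lit 17191102653566429062841068456771584), (nat_lit 0), (nat_lit 0), (nat_lit 12779386240225529523267431745716224), (nat_lit 16348222677415602568976898566651904), (nat_lit 0), (nat_lit 0), (nat_lit 3165067436911905324468088300634112), (nat_lit 0), (nat_lit 0), (nat_lit 0), (nat_lit 0), (nat_lit 0), (nat_lit 3995485505665862631187123292602368), (nat_lit 11259064105425486217843300374675456), (nat_lit 27213608856120029334814171645083648), (nat_lit 14933267167960163038427692287393792), (nat_lit 5077039350393258466700208019341312), (nat_lit 0), (nat_lit 0), (nat_lit 29608622065258569761900513753825280),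 (nat_lit 38691606899191200422691387431976960), (nat_lit 69427771601424280979721003097653248), (nat_lit 61550691365455361125071775542018048), (nat_lit 17179104328625352243046203671969792), (nat_lit 0), (nat_lit 0), (nat_lit 22452219647001854323504669198909440), (nat_lit 50671866438855271371382503128432640), (nat_lit 128671879767785461882625984997359616), (nat_lit 80424918065622668746096277377253376), (nat_lit 23614805616898103220892522908745728), (nat_lit 0), (nat_lit 0), (nat_lit 29608622065258569761900513753825280), (nat_lit 50671866438855271371382503128432640), (nat_lit 103684868997626660571908887610916864), (nat_lit 204218840376593640613278125138116608), (nat_lit 49909145936145494412896563231719424), (nat_lit 0), (nat_lit 0), (nat_lit 3995485505665862631187123292602368), (nat_lit 38691606899191200422691387431976960), (nat_lit 128671879767785461882625984997359616), (nat_lit 204218840376593640613278125138116608), (nat_lit 77697816427418304057586141649436672),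 (nat_lit 0), (nat_lit 0), (nat_lit 11259064105425486217843300374675456), (nat_lit 69427771601424280979721003097653248), (nat_lit 80424918065622668746096277377253376), (nat_lit 49909145936145494412896563231719424), (nat_lit 0), (nat_lit 0), (nat_lit 27213608856120029334814171645083648), (nat_lit 61550691365455361125071775542018048), (nat_lit 23614805616898103220892522908745728), (nat_lit 0), (nat_lit 0), (nat_lit 14933267167960163038427692287393792), (nat_lit 17179104328625352243046203671969792), (nat_lit 0), (nat_lit 0), (nat_lit 5077039350393258466700208019341312), (nat_lit 0), (nat_lit 0), (nat_lit 0), (nat_lit 0), (nat_lit 0), (nat_lit 3995485505665862631187123292602368), (nat_lit 25015968845869239855514864649764864), (nat_lit 34980759013812674914884577866547200), (nat_lit 66102350838006440043205899407327232), (nat_lit 28266015128656486240017912900354048), (nat_lit 0), (nat_lit 0), (nat_lit 20825218022600536113024427056168960), (nat_lit 38691606899191200422691387431976960),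 (nat_lit 103901420465428310048028436495073280), (nat_lit 62733585082498689615946544584851456), (nat_lit 18264041879335211232804045431242752), (nat_lit 0), (nat_lit 0), (nat_lit 20825218022600536113024427056168960), (nat_lit 20440171499564853970877765220564992), (nat_lit 128671879767785461882625984997359616), (nat_lit 108388069744674300048765798580224000), (nat_lit 25701725736600187509343177219768320), (nat_lit 0), (nat_lit 0), (nat_lit 3995485505665862631187123292602368), (nat_lit 38691606899191200422691387431976960), (nat_lit 128671879767785461882625984997359616), (nat_lit 204218840376593640613278125138116608), (nat_lit 77697816427418304057586141649436672), (nat_lit 0), (nat_lit 0), (nat_lit 25015968845869239855514864649764864), (nat_lit 103901420465428310048028436495073280), (nat_lit 108388069744674300048765798580224000), (nat_lit 77697816427418304057586141649436672), (nat_lit 0), (nat_lit 0), (nat_lit 34980759013812674914884577866547200), (nat_lit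 62733585082498689615946544584851456), (nat_lit 25701725736600187509343177219768320), (nat_lit 0), (nat_lit 0), (nat_lit 66102350838006440043205899407327232), (nat_lit 18264041879335211232804045431242752), (nat_lit 0), (nat_lit 0), (nat_lit 28266015128656486240017912900354048), (nat_lit 0), (nat_lit 0), (nat_lit 0), (nat_lit 0), (nat_lit 0), (nat_lit 1446876750359959258353104830070784), (nat_lit 11259064105425486217843300374675456), (nat_lit 34980759013812674914884577866547200), (nat_lit 73861050275293107502553318956204032), (nat_lit 26596281468057084762184039595507712), (nat_lit 0), (nat_lit 0), (nat_lit 6113072133486313587448702662868992), (nat_lit 15746071662480190965866063135244288), (nat_lit 69427771601424280979721003097653248), (nat_lit 62733585082498689615946544584851456), (nat_lit 21094026943910034324907254895083520), (nat_lit 0), (nat_lit 0), (nat_lit 1446876750359959258353104830070784), (nat_lit 15746071662480190965866063135244288), (nat_lit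 66975551787154279365565426736037888), (nat_lit 80424918065622668746096277377253376), (nat_lit 25701725736600187509343177219768320), (nat_lit 0), (nat_lit 0), (nat_lit 11259064105425486217843300374675456), (nat_lit 69427771601424280979721003097653248), (nat_lit 80424918065622668746096277377253376), (nat_lit 49909145936145494412896563231719424), (nat_lit 0), (nat_lit 0), (nat_lit 34980759013812674914884577866547200), (nat_lit 62733585082498689615946544584851456), (nat_lit 25701725736600187509343177219768320), (nat_lit 0), (nat_lit 0), (nat_lit 73861050275293107502553318956204032), (nat_lit 21094026943910034324907254895083520), (nat_lit 0), (nat_lit 0), (nat_lit 26596281468057084762184039595507712), (nat_lit 0), (nat_lit 0), (nat_lit 0), (nat_lit 0), (nat_lit 0), (nat_lit 2095230836906382242898518413934592), (nat_lit 11990309699620455024518895335636992), (nat_lit 27213608856120029334814171645083648), (nat_lit 66102350838006440043205899407327232), (nat_lit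 26596281468057084762184039595507712), (nat_lit 0), (nat_lit 0), (nat_lit 2095230836906382242898518413934592), (nat_lit 8727197887138125106369890783068160), (nat_lit 38440666659878787074525790876991488), (nat_lit 61550691365455361125071775542018048), (nat_lit 18264041879335211232804045431242752), (nat_lit 0), (nat_lit 0), (nat_lit 11990309699620455024518895335636992), (nat_lit 38440666659878787074525790876991488), (nat_lit 64735798158136763034646554236420096), (nat_lit 23614805616898103220892522908745728), (nat_lit 0), (nat_lit 0), (nat_lit 27213608856120029334814171645083648), (nat_lit 61550691365455361125071775542018048), (nat_lit 23614805616898103220892522908745728), (nat_lit 0), (nat_lit 0), (nat_lit 66102350838006440043205899407327232), (nat_lit 18264041879335211232804045431242752), (nat_lit 0), (nat_lit 0), (nat_lit 26596281468057084762184039595507712), (nat_lit 0), (nat_lit 0), (nat_lit 0), (nat_lit 0), (nat_lit 0), (nat_lit 1936249348962702484545994953326592),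 (nat_lit 5571590136520568920929144296964096), (nat_lit 10210892362686663878720572039888896), (nat_lit 14933267167960163038427692287393792), (nat_lit 28266015128656486240017912900354048), (nat_lit 0), (nat_lit 0), (nat_lit 5571590136520568920929144296964096), (nat_lit 19578358060901119095753804705955840), (nat_lit 49623601449714309396573538624733184), (nat_lit 17179104328625352243046203671969792), (nat_lit 0), (nat_lit 0), (nat_lit 10210892362686663878720572039888896), (nat_lit 49623601449714309396573538624733184), (nat_lit 17191102653566429062841068456771584), (nat_lit 0), (nat_lit 0), (nat_lit 14933267167960163038427692287393792), (nat_lit 17179104328625352243046203671969792), (nat_lit 0), (nat_lit 0), (nat_lit 28266015128656486240017912900354048), (nat_lit 0), (nat_lit 0), (nat_lit 0), (nat_lit 0), (nat_lit 0), (nat_lit 4170141418882642536058622182424576), (nat_lit 17566673911081210103780376708120576), (nat_lit 12779386240225529523267431745716224),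 (nat_lit 5077039350393258466700208019341312), (nat_lit 0), (nat_lit 0), (nat_lit 17566673911081210103780376708120576), (nat_lit 23704202962686517157247584506478592), (nat_lit 16348222677415602568976898566651904), (nat_lit 0), (nat_lit 0), (nat_lit 12779386240225529523267431745716224), (nat_lit 16348222677415602568976898566651904), (nat_lit 0), (nat_lit 0), (nat_lit 5077039350393258466700208019341312), (nat_lit 0), (nat_lit 0), (nat_lit 0), (nat_lit 0), (nat_lit 0), (nat_lit 2946835483687255799354126789246976), (nat_lit 13740034555752654911455447713054720), (nat_lit 3165067436911905324468088300634112), (nat_lit 0), (nat_lit 0), (nat_lit 13740034555752654911455447713054720), (nat_lit 3505504948021139736566282493886464), (nat_lit 0), (nat_lit 0), (nat_lit 3165067436911905324468088300634112), (nat_lit 0), (nat_lit 0), (nat_lit 0), (nat_lit 0), (nat_lit 0), (nat_lit 5216759397481387291827652387667968), (nat_lit 5379688343161541790212226337996800), (nat_lit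 0), (nat_lit 0), (nat_lit 5379688343161541790212226337996800), (nat_lit 0), (nat_lit 0), (nat_lit 0), (nat_lit 0), (nat_lit 0), (nat_lit 1541913322740312906285538672115712), (nat_lit 0), (nat_lit 0), (nat_lit 0), (nat_lit 0), (nat_lit 0), (nat_lit 0), (nat_lit 0), (nat_lit 0), (nat_lit 0)]


def lQm_0 : List (T ℤ) := [(P (nat_lit 5034231565398356583608483840000)), (P (nat_lit 0)), (T.h (T.h (T.h (P (nat_lit 0)) (T.h (P (nat_lit 10212045392436279570270781440)) (T.h (P (nat_lit 0)) (T.h (M (nat_lit 18936214877807918972927)) (T.h (P (nat_lit 0)) (M (nat_lit 73170271617875967))))))) (T.h (P (nat_lit 0)) (T.h (T.h (P (nat_lit 0)) (T.h (P (nat_lit 658474017311560826880)) (T.h (P (nat_lit 0)) (M (nat_lit 13795086358216703))))) (T.h (P (nat_lit 0)) (T.h (T.h (P (nat_lit 0)) (P (nat_lit 2448628643758080))) (P (nat_lit 0))))))) (T.h (T.h (P (nat_lit 0)) (T.h (T.h (M (nat_lit 741706005672169918431231)) (T.h (P (nat_lit 0)) (T.h (M (nat_lit 16419294656111575039))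 (T.h (P (nat_lit 0)) (M (nat_lit 32315373365839)))))) (T.h (P (nat_lit 0)) (T.h (T.h (M (nat_lit 2839401542845464575)) (T.h (P (nat_lit 0)) (M (nat_lit 6154245470959)))) (T.h (P (nat_lit 0)) (P (nat_lit 1200533198936))))))) (T.h (T.h (T.h (P (nat_lit 0)) (T.h (P (nat_lit 658474017311560826880)) (T.h (P (nat_lit 0)) (M (nat_lit 13795086358216703))))) (T.h (P (nat_lit 0)) (T.h (T.h (P (nat_lit 0)) (P (nat_lit 11402419868467200))) (P (nat_lit 0))))) (T.h (T.h (P (nat_lit 0)) (T.h (T.h (M (nat_lit 2839401542845464575)) (T.h (P (nat_lit 0)) (M (nat_lit 6154245470959)))) (T.h (P (nat_lit 0)) (P (nat_lit 7920728801472))))) (T.h (T.h (T.h (P (nat_lit 0)) (P (nat_lit 2448628643758080))) (P (nat_lit 0))) (T.h (T.h (P (nat_lit 0)) (P (nat_lit 1200533198936))) (P (nat_lit 0)))))))), (T.h (T.h (T.h (M (nat_lit 8970997173878140039931440922623)) (T.h (P (nat_lit 0)) (T.h (P (nat_lit 4809974907341691670233088)) (T.h (P (nat_lit 0)) (T.h (P (nat_lit 157772246912990183424))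 (T.h (P (nat_lit 0)) (M (nat_lit 9234645211199)))))))) (T.h (P (nat_lit 0)) (T.h (T.h (P (nat_lit 978353580458961784537088)) (T.h (P (nat_lit 0)) (T.h (M (nat_lit 15228380118436020223)) (T.h (P (nat_lit 0)) (P (nat_lit 28106565702272)))))) (T.h (P (nat_lit 0)) (T.h (T.h (P (nat_lit 2389887418619658240)) (T.h (P (nat_lit 0)) (M (nat_lit 15443532767759)))) (T.h (P (nat_lit 0)) (M (nat_lit 165424305583)))))))) (T.h (T.h (P (nat_lit 0)) (T.h (T.h (P (nat_lit 0)) (T.h (M (nat_lit 2662948729969270849535)) (T.h (P (nat_lit 0)) (P (nat_lit 107255350181560320))))) (T.h (P (nat_lit 0)) (T.h (T.h (P (nat_lit 0)) (P (nat_lit 13170292645003264))) (P (nat_lit 0)))))) (T.h (T.h (T.h (P (nat_lit 978353580458961784537088)) (T.h (P (nat_lit 0)) (T.h (M (nat_lit 15228380118436020223)) (T.h (P (nat_lit 0)) (P (nat_lit 28106565702272)))))) (T.h (P (nat_lit 0)) (T.h (T.h (M (nat_lit 13135542799900344319)) (T.h (P (nat_lit 0)) (P (nat_lit 35413500645568)))) (T.h (P (nat_lit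 0)) (M (nat_lit 4239509951935)))))) (T.h (T.h (P (nat_lit 0)) (T.h (T.h (P (nat_lit 0)) (P (nat_lit 13170292645003264))) (P (nat_lit 0)))) (T.h (T.h (T.h (P (nat_lit 2389887418619658240)) (T.h (P (nat_lit 0)) (M (nat_lit 15443532767759)))) (T.h (P (nat_lit 0)) (M (nat_lit 4239509951935)))) (T.h (P (nat_lit 0)) (M (nat_lit 165424305583)))))))), (T.h (T.h (T.h (P (nat_lit 0)) (T.h (M (nat_lit 4596200364159134283318951935)) (T.h (P (nat_lit 0)) (T.h (M (nat_lit 15703917169784586764287)) (T.h (P (nat_lit 0)) (P (nat_lit 21714547579813888))))))) (T.h (P (nat_lit 0)) (T.h (T.h (P (nat_lit 0)) (T.h (P (nat_lit 8278749748978604048384)) (T.h (P (nat_lit 0)) (M (nat_lit 34950437389729791))))) (T.h (P (nat_lit 0)) (T.h (T.h (P (nat_lit 0)) (M (nat_lit 5455506261671935))) (P (nat_lit 0))))))) (T.h (T.h (P (nat_lit 0)) (T.h (T.h (P (nat_lit 216187792611341833863168)) (T.h (P (nat_lit 0)) (T.h (P (nat_lit 16369758572956876800)) (T.h (P (nat_lit 0)) (P (nat_lit 53858954616320))))))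 (T.h (P (nat_lit 0)) (T.h (T.h (P (nat_lit 3961292155565113344)) (T.h (P (nat_lit 0)) (P (nat_lit 13710230630080)))) (T.h (P (nat_lit 0)) (M (nat_lit 3155819464559))))))) (T.h (T.h (T.h (P (nat_lit 0)) (T.h (P (nat_lit 8278749748978604048384)) (T.h (P (nat_lit 0)) (M (nat_lit 34950437389729791))))) (T.h (P (nat_lit 0)) (T.h (T.h (P (nat_lit 0)) (M (nat_lit 56948847809921023))) (P (nat_lit 0))))) (T.h (T.h (P (nat_lit 0)) (T.h (T.h (P (nat_lit 3961292155565113344)) (T.h (P (nat_lit 0)) (P (nat_lit 13710230630080)))) (T.h (P (nat_lit 0)) (M (nat_lit 13201214689439))))) (T.h (T.h (T.h (P (nat_lit 0)) (M (nat_lit 5455506261671935))) (P (nat_lit 0))) (T.h (T.h (P (nat_lit 0)) (M (nat_lit 3155819464559))) (P (nat_lit 0)))))))), (T.h (T.h (T.h (P (nat_lit 3948621279540221083939168583680)) (T.h (P (nat_lit 0)) (T.h (M (nat_lit 3553202741703086916501503)) (T.h (P (nat_lit 0)) (T.h (M (nat_lit 176895427923450789887)) (T.h (P (nat_lit 0)) (P (nat_lit 14511582942912))))))))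 (T.h (P (nat_lit 0)) (T.h (T.h (M (nat_lit 674436486761574870024191)) (T.h (P (nat_lit 0)) (T.h (M (nat_lit 5355990087802814463)) (T.h (P (nat_lit 0)) (M (nat_lit 56118708733823)))))) (T.h (P (nat_lit 0)) (T.h (T.h (M (nat_lit 1077428141279936511)) (T.h (P (nat_lit 0)) (P (nat_lit 12342157505568)))) (T.h (P (nat_lit 0)) (P (nat_lit 742147470768)))))))) (T.h (T.h (P (nat_lit 0)) (T.h (T.h (P (nat_lit 0)) (T.h (M (nat_lit 13285698098565511905279)) (T.h (P (nat_lit 0)) (M (nat_lit 121986559857917951))))) (T.h (P (nat_lit 0)) (T.h (T.h (P (nat_lit 0)) (M (nat_lit 4307079362576383))) (P (nat_lit 0)))))) (T.h (T.h (T.h (M (nat_lit 674436486761574870024191)) (T.h (P (nat_lit 0)) (T.h (M (nat_lit 5355990087802814463)) (T.h (P (nat_lit 0)) (M (nat_lit 56118708733823)))))) (T.h (P (nat_lit 0)) (T.h (T.h (P (nat_lit 7703816849347051520)) (T.h (P (nat_lit 0)) (M (nat_lit 55649786596799)))) (T.h (P (nat_lit 0)) (P (nat_lit 7551023902224)))))) (T.h (T.h (P (nat_lit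 0)) (T.h (T.h (P (nat_lit 0)) (M (nat_lit 4307079362576383))) (P (nat_lit 0)))) (T.h (T.h (T.h (M (nat_lit 1077428141279936511)) (T.h (P (nat_lit 0)) (P (nat_lit 12342157505568)))) (T.h (P (nat_lit 0)) (P (nat_lit 7551023902224)))) (T.h (P (nat_lit 0)) (P (nat_lit 742147470768)))))))), (T.h (T.h (T.h (P (nat_lit 0)) (T.h (M (nat_lit 5897302073599640136660811775)) (T.h (P (nat_lit 0)) (T.h (P (nat_lit 38739346812376056856576)) (T.h (P (nat_lit 0)) (M (nat_lit 16210757382045695))))))) (T.h (P (nat_lit 0)) (T.h (T.h (P (nat_lit 0)) (T.h (M (nat_lit 5209847404018203099135)) (T.h (P (nat_lit 0)) (P (nat_lit 41793132904316928))))) (T.h (P (nat_lit 0)) (T.h (T.h (P (nat_lit 0)) (M (nat_lit 4595770649346047))) (P (nat_lit 0))))))) (T.h (T.h (P (nat_lit 0)) (T.h (T.h (P (nat_lit 386661090139917950910464)) (T.h (P (nat_lit 0)) (P (nat_lit 43491311747944415232)))) (T.h (P (nat_lit 0)) (M (nat_lit 243643318179725311))))) (T.h (T.h (T.h (P (nat_lit 0)) (T.h (M (nat_lit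 5209847404018203099135)) (T.h (P (nat_lit 0)) (P (nat_lit 41793132904316928))))) (T.h (P (nat_lit 0)) (T.h (T.h (P (nat_lit 0)) (P (nat_lit 20721956900044800))) (P (nat_lit 0))))) (T.h (T.h (P (nat_lit 0)) (M (nat_lit 243643318179725311))) (T.h (T.h (T.h (P (nat_lit 0)) (M (nat_lit 4595770649346047))) (P (nat_lit 0))) (P (nat_lit 0))))))), (P (nat_lit 0))]
def lQm_1 : List (T ℤ) := [(P (nat_lit 0)), (P (nat_lit 0)), (T.h (T.h (P (nat_lit 0)) (T.h (T.h (M (nat_lit 12794100345879409982347149311)) (T.h (P (nat_lit 0)) (T.h (P (nat_lit 495899353916857384960)) (T.h (P (nat_lit 0)) (P (nat_lit 38793684289617920)))))) (T.h (P (nat_lit 0)) (T.h (T.h (P (nat_lit 1384689428146249793536)) (T.h (P (nat_lit 0)) (P (nat_lit 10798372299145216)))) (T.h (P (nat_lit 0)) (P (nat_lit 12294808850366464))))))) (T.h (T.h (T.h (P (nat_lit 0)) (T.h (M (nat_lit 1857953842829409745108991)) (T.h (P (nat_lit 0)) (T.h (M (nat_lit 8107869170617548799)) (T.h (P (nat_lit 0)) (M (nat_lit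 62471784628983))))))) (T.h (P (nat_lit 0)) (T.h (T.h (P (nat_lit 0)) (T.h (P (nat_lit 593274009924141056)) (T.h (P (nat_lit 0)) (M (nat_lit 13916663262255))))) (T.h (P (nat_lit 0)) (T.h (T.h (P (nat_lit 0)) (P (nat_lit 8435143216096))) (P (nat_lit 0))))))) (T.h (T.h (P (nat_lit 0)) (T.h (T.h (M (nat_lit 1358226987020332302335)) (T.h (P (nat_lit 0)) (P (nat_lit 4763249007394816)))) (T.h (P (nat_lit 0)) (P (nat_lit 132703734923264))))) (T.h (T.h (T.h (P (nat_lit 0)) (T.h (M (nat_lit 5207521057891680255)) (T.h (P (nat_lit 0)) (P (nat_lit 13168855558336))))) (T.h (P (nat_lit 0)) (T.h (T.h (P (nat_lit 0)) (P (nat_lit 1495307379448))) (P (nat_lit 0))))) (T.h (T.h (P (nat_lit 0)) (P (nat_lit 108913887543296))) (T.h (T.h (T.h (P (nat_lit 0)) (P (nat_lit 7889238589568))) (P (nat_lit 0))) (P (nat_lit 0)))))))), (T.h (T.h (P (nat_lit 0)) (T.h (T.h (P (nat_lit 0)) (T.h (P (nat_lit 5760110150759249130553344)) (T.h (P (nat_lit 0)) (T.h (M (nat_lit 155560528027376943103))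 (T.h (P (nat_lit 0)) (P (nat_lit 126624751875824))))))) (T.h (P (nat_lit 0)) (T.h (T.h (P (nat_lit 0)) (T.h (M (nat_lit 44187288449497169919)) (T.h (P (nat_lit 0)) (M (nat_lit 29896136530671))))) (T.h (P (nat_lit 0)) (T.h (T.h (P (nat_lit 0)) (P (nat_lit 7351350546784))) (P (nat_lit 0)))))))) (T.h (T.h (T.h (P (nat_lit 226318629704904614210437120)) (T.h (P (nat_lit 0)) (T.h (P (nat_lit 13548174235352948539392)) (T.h (P (nat_lit 0)) (P (nat_lit 148610963780747264)))))) (T.h (P (nat_lit 0)) (T.h (T.h (P (nat_lit 6115334825654234382336)) (T.h (P (nat_lit 0)) (P (nat_lit 11298605499367424)))) (T.h (P (nat_lit 0)) (P (nat_lit 13485241803522048)))))) (T.h (T.h (P (nat_lit 0)) (T.h (T.h (P (nat_lit 0)) (T.h (P (nat_lit 4478360613369675776)) (T.h (P (nat_lit 0)) (P (nat_lit 20853968390928))))) (T.h (P (nat_lit 0)) (T.h (T.h (P (nat_lit 0)) (M (nat_lit 4256921589567))) (P (nat_lit 0)))))) (T.h (T.h (T.h (P (nat_lit 766451334615954096128)) (T.h (P (nat_lit 0))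 (P (nat_lit 1936205404995584)))) (T.h (P (nat_lit 0)) (P (nat_lit 18148605108125696)))) (T.h (T.h (P (nat_lit 0)) (T.h (T.h (P (nat_lit 0)) (M (nat_lit 14115448294655))) (P (nat_lit 0)))) (M (nat_lit 2974749091381247))))))), (T.h (T.h (P (nat_lit 0)) (T.h (T.h (P (nat_lit 16157316351655077914389512192)) (T.h (P (nat_lit 0)) (T.h (M (nat_lit 13429755321487863054335)) (T.h (P (nat_lit 0)) (M (nat_lit 274177761625079807)))))) (T.h (P (nat_lit 0)) (T.h (T.h (P (nat_lit 5325104209578101309440)) (T.h (P (nat_lit 0)) (P (nat_lit 27539627497783296)))) (T.h (P (nat_lit 0)) (M (nat_lit 29353014219341823))))))) (T.h (T.h (T.h (P (nat_lit 0)) (T.h (P (nat_lit 11214666536666130125160448)) (T.h (P (nat_lit 0)) (T.h (P (nat_lit 273829416074412556288)) (T.h (P (nat_lit 0)) (P (nat_lit 649950281733360))))))) (T.h (P (nat_lit 0)) (T.h (T.h (P (nat_lit 0)) (T.h (P (nat_lit 26743036042488578048)) (T.h (P (nat_lit 0)) (P (nat_lit 63537919357360))))) (T.h (P (nat_lit 0))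 (T.h (T.h (P (nat_lit 0)) (M (nat_lit 38000328701999))) (P (nat_lit 0))))))) (T.h (T.h (P (nat_lit 0)) (T.h (T.h (P (nat_lit 1472349745841981882368)) (T.h (P (nat_lit 0)) (M (nat_lit 171041178281050111)))) (T.h (P (nat_lit 0)) (M (nat_lit 23172711675297791))))) (T.h (T.h (T.h (P (nat_lit 0)) (T.h (P (nat_lit 16014234136231280640)) (T.h (P (nat_lit 0)) (M (nat_lit 78533988872879))))) (T.h (P (nat_lit 0)) (T.h (T.h (P (nat_lit 0)) (P (nat_lit 10694443811920))) (P (nat_lit 0))))) (T.h (T.h (P (nat_lit 0)) (M (nat_lit 7029372037136383))) (T.h (T.h (T.h (P (nat_lit 0)) (M (nat_lit 6700780526239))) (P (nat_lit 0))) (P (nat_lit 0)))))))), (T.h (T.h (P (nat_lit 0)) (T.h (T.h (P (nat_lit 0)) (T.h (P (nat_lit 24061905069947047567687680)) (T.h (P (nat_lit 0)) (T.h (P (nat_lit 83946722356541521920)) (T.h (P (nat_lit 0)) (M (nat_lit 430642633814447))))))) (T.h (P (nat_lit 0)) (T.h (T.h (P (nat_lit 0)) (T.h (P (nat_lit 50873018507107237888)) (T.h (P (nat_lit 0))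 (P (nat_lit 847315013424))))) (T.h (P (nat_lit 0)) (T.h (T.h (P (nat_lit 0)) (M (nat_lit 6662556455103))) (P (nat_lit 0)))))))) (T.h (T.h (T.h (M (nat_lit 1468683830756010962882396159)) (T.h (P (nat_lit 0)) (T.h (M (nat_lit 14144146517207239622655)) (T.h (P (nat_lit 0)) (M (nat_lit 486616909737345023)))))) (T.h (P (nat_lit 0)) (T.h (T.h (M (nat_lit 2152802899987471007743)) (T.h (P (nat_lit 0)) (P (nat_lit 7918000311222272)))) (T.h (P (nat_lit 0)) (M (nat_lit 4140057265930239)))))) (T.h (T.h (P (nat_lit 0)) (T.h (T.h (P (nat_lit 0)) (T.h (P (nat_lit 40906388900327456768)) (T.h (P (nat_lit 0)) (M (nat_lit 64739948756207))))) (T.h (P (nat_lit 0)) (T.h (T.h (P (nat_lit 0)) (P (nat_lit 238877194160))) (P (nat_lit 0)))))) (T.h (T.h (T.h (M (nat_lit 4805245990692022386687)) (T.h (P (nat_lit 0)) (P (nat_lit 131025791878840320)))) (T.h (P (nat_lit 0)) (P (nat_lit 13742695469957120)))) (T.h (T.h (P (nat_lit 0)) (T.h (T.h (P (nat_lit 0)) (P (nat_lit 37730281781984)))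 (P (nat_lit 0)))) (P (nat_lit 2598847362711552))))))), (T.h (T.h (P (nat_lit 0)) (T.h (T.h (M (nat_lit 3849283284899336926831575039)) (T.h (P (nat_lit 0)) (T.h (M (nat_lit 7915433807328952975359)) (T.h (P (nat_lit 0)) (P (nat_lit 421785709203062784)))))) (T.h (P (nat_lit 0)) (T.h (T.h (M (nat_lit 2169209033493156200447)) (T.h (P (nat_lit 0)) (M (nat_lit 9664805248008191)))) (T.h (P (nat_lit 0)) (P (nat_lit 411400681750528))))))) (T.h (T.h (T.h (P (nat_lit 0)) (T.h (M (nat_lit 8685767576524368306503679)) (T.h (P (nat_lit 0)) (M (nat_lit 126973145165437337599))))) (T.h (P (nat_lit 0)) (T.h (T.h (P (nat_lit 0)) (M (nat_lit 21352153951422644223))) (P (nat_lit 0))))) (T.h (T.h (P (nat_lit 0)) (T.h (T.h (M (nat_lit 318127756473987497983)) (T.h (P (nat_lit 0)) (P (nat_lit 56882161005330432)))) (T.h (P (nat_lit 0)) (M (nat_lit 5667928027332607))))) (T.h (T.h (T.h (P (nat_lit 0)) (M (nat_lit 32111403715541336063))) (P (nat_lit 0))) (T.h (T.h (P (nat_lit 0))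 (M (nat_lit 9836419181182975))) (P (nat_lit 0))))))), (P (nat_lit 0))]
def lQm_2 : List (T ℤ) := [(P (nat_lit 0)), (P (nat_lit 0)), (T.h (T.h (T.h (P (nat_lit 0)) (T.h (P (nat_lit 2055456681931519564426772480)) (T.h (P (nat_lit 0)) (T.h (P (nat_lit 4248991952857825542144)) (T.h (P (nat_lit 0)) (M (nat_lit 3485283988078591))))))) (T.h (P (nat_lit 0)) (T.h (T.h (P (nat_lit 0)) (T.h (M (nat_lit 2766668727805554982911)) (T.h (P (nat_lit 0)) (M (nat_lit 8725047214145535))))) (T.h (P (nat_lit 0)) (T.h (T.h (P (nat_lit 0)) (M (nat_lit 2451024506814463))) (P (nat_lit 0))))))) (T.h (T.h (P (nat_lit 0)) (T.h (T.h (M (nat_lit 1705315292969379989291007)) (T.h (P (nat_lit 0)) (T.h (P (nat_lit 876704851256410112)) (T.h (P (nat_lit 0)) (M (nat_lit 28937018074767)))))) (T.h (P (nat_lit 0)) (T.h (T.h (P (nat_lit 2476425389400915968)) (T.h (P (nat_lit 0)) (M (nat_lit 1415563387735)))) (T.h (P (nat_lit 0)) (M (nat_lit 6242764166039))))))) (T.h (T.h (T.h (P (nat_lit 0))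 (T.h (M (nat_lit 10035423191259844444159)) (T.h (P (nat_lit 0)) (P (nat_lit 48569078005039104))))) (T.h (P (nat_lit 0)) (T.h (T.h (P (nat_lit 0)) (P (nat_lit 454002489458688))) (P (nat_lit 0))))) (T.h (T.h (P (nat_lit 0)) (T.h (T.h (P (nat_lit 2377763215032451072)) (T.h (P (nat_lit 0)) (P (nat_lit 12562440285328)))) (T.h (P (nat_lit 0)) (P (nat_lit 2063416401616))))) (T.h (T.h (T.h (P (nat_lit 0)) (P (nat_lit 4075656891629568))) (P (nat_lit 0))) (T.h (T.h (P (nat_lit 0)) (P (nat_lit 7158406918608))) (P (nat_lit 0)))))))), (T.h (T.h (T.h (M (nat_lit 16310421525849164254090450960383)) (T.h (P (nat_lit 0)) (T.h (P (nat_lit 11683839568522379406606336)) (T.h (P (nat_lit 0)) (T.h (M (nat_lit 2035208997841141759)) (T.h (P (nat_lit 0)) (P (nat_lit 63359498543120)))))))) (T.h (P (nat_lit 0)) (T.h (T.h (P (nat_lit 10121519114408553399451648)) (T.h (P (nat_lit 0)) (T.h (P (nat_lit 61914797905744494592)) (T.h (P (nat_lit 0)) (P (nat_lit 439341944415168)))))) (T.h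 (P (nat_lit 0)) (T.h (T.h (M (nat_lit 2857327944320155647)) (T.h (P (nat_lit 0)) (M (nat_lit 25450372979775)))) (T.h (P (nat_lit 0)) (P (nat_lit 7181325551792)))))))) (T.h (T.h (P (nat_lit 0)) (T.h (T.h (P (nat_lit 0)) (T.h (P (nat_lit 10010703217678719385600)) (T.h (P (nat_lit 0)) (M (nat_lit 190586810511065087))))) (T.h (P (nat_lit 0)) (T.h (T.h (P (nat_lit 0)) (P (nat_lit 62959274422501376))) (P (nat_lit 0)))))) (T.h (T.h (T.h (M (nat_lit 1377791761044098531721215)) (T.h (P (nat_lit 0)) (T.h (M (nat_lit 48808837752610095103)) (T.h (P (nat_lit 0)) (P (nat_lit 65805890694080)))))) (T.h (P (nat_lit 0)) (T.h (T.h (M (nat_lit 244134082416476159)) (T.h (P (nat_lit 0)) (M (nat_lit 2428238407215)))) (T.h (P (nat_lit 0)) (P (nat_lit 7834943220656)))))) (T.h (T.h (P (nat_lit 0)) (T.h (T.h (P (nat_lit 0)) (M (nat_lit 61646594252767231))) (P (nat_lit 0)))) (T.h (T.h (T.h (P (nat_lit 4136264342167355392)) (T.h (P (nat_lit 0)) (M (nat_lit 27352561037247)))) (T.h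 (P (nat_lit 0)) (P (nat_lit 7778266412928)))) (T.h (P (nat_lit 0)) (M (nat_lit 2258787755471)))))))), (T.h (T.h (T.h (P (nat_lit 0)) (T.h (M (nat_lit 21123593321619357335306633215)) (T.h (P (nat_lit 0)) (T.h (P (nat_lit 15010200804235572936704)) (T.h (P (nat_lit 0)) (M (nat_lit 154004297327050751))))))) (T.h (P (nat_lit 0)) (T.h (T.h (P (nat_lit 0)) (T.h (P (nat_lit 5919988966405504499712)) (T.h (P (nat_lit 0)) (M (nat_lit 58402257737056255))))) (T.h (P (nat_lit 0)) (T.h (T.h (P (nat_lit 0)) (M (nat_lit 10609186901458943))) (P (nat_lit 0))))))) (T.h (T.h (P (nat_lit 0)) (T.h (T.h (P (nat_lit 2581634979122964043137024)) (T.h (P (nat_lit 0)) (T.h (P (nat_lit 58709018431610421248)) (T.h (P (nat_lit 0)) (P (nat_lit 58319323554320)))))) (T.h (P (nat_lit 0)) (T.h (T.h (M (nat_lit 21661246487506452479)) (T.h (P (nat_lit 0)) (M (nat_lit 103123823580639)))) (T.h (P (nat_lit 0)) (P (nat_lit 33653347756400))))))) (T.h (T.h (T.h (P (nat_lit 0)) (T.h (M (nat_lit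 50430542327613638049791)) (T.h (P (nat_lit 0)) (M (nat_lit 165041657512427519))))) (T.h (P (nat_lit 0)) (T.h (T.h (P (nat_lit 0)) (P (nat_lit 50862758182420480))) (P (nat_lit 0))))) (T.h (T.h (P (nat_lit 0)) (T.h (T.h (M (nat_lit 32675668490924851199)) (T.h (P (nat_lit 0)) (M (nat_lit 107680149905439)))) (T.h (P (nat_lit 0)) (P (nat_lit 66069034018640))))) (T.h (T.h (T.h (P (nat_lit 0)) (P (nat_lit 55334082025422848))) (P (nat_lit 0))) (T.h (T.h (P (nat_lit 0)) (P (nat_lit 16361497986480))) (P (nat_lit 0)))))))), (T.h (T.h (T.h (P (nat_lit 648354378398368560434359828480)) (T.h (P (nat_lit 0)) (T.h (P (nat_lit 7052920268108960389660672)) (T.h (P (nat_lit 0)) (T.h (P (nat_lit 192230385199957934080)) (T.h (P (nat_lit 0)) (P (nat_lit 130481994932784)))))))) (T.h (P (nat_lit 0)) (T.h (T.h (P (nat_lit 6029595519567029736570880)) (T.h (P (nat_lit 0)) (T.h (M (nat_lit 80224259377891115007)) (T.h (P (nat_lit 0)) (P (nat_lit 78162321228816)))))) (T.h (P (nat_lit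 0)) (T.h (T.h (P (nat_lit 22782046953774514176)) (T.h (P (nat_lit 0)) (P (nat_lit 129681242717312)))) (T.h (P (nat_lit 0)) (P (nat_lit 1586148909312)))))))) (T.h (T.h (P (nat_lit 0)) (T.h (T.h (P (nat_lit 0)) (T.h (M (nat_lit 44952741325817528713215)) (T.h (P (nat_lit 0)) (P (nat_lit 150087276435439616))))) (T.h (P (nat_lit 0)) (T.h (T.h (P (nat_lit 0)) (P (nat_lit 134958845215637504))) (P (nat_lit 0)))))) (T.h (T.h (T.h (P (nat_lit 405226602017100610404352)) (T.h (P (nat_lit 0)) (T.h (P (nat_lit 34010185905997873152)) (T.h (P (nat_lit 0)) (P (nat_lit 33231154151888)))))) (T.h (P (nat_lit 0)) (T.h (T.h (P (nat_lit 1458250011144880128)) (T.h (P (nat_lit 0)) (P (nat_lit 109922351265936)))) (T.h (P (nat_lit 0)) (M (nat_lit 52667779269951)))))) (T.h (T.h (P (nat_lit 0)) (T.h (T.h (P (nat_lit 0)) (M (nat_lit 36359330566864895))) (P (nat_lit 0)))) (T.h (T.h (T.h (M (nat_lit 5430699604901363711)) (T.h (P (nat_lit 0)) (M (nat_lit 17832029004943)))) (T.h (P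 (nat_lit 0)) (M (nat_lit 49126568938831)))) (T.h (P (nat_lit 0)) (P (nat_lit 3821769693456)))))))), (T.h (T.h (T.h (P (nat_lit 0)) (T.h (P (nat_lit 3166846873336167602856132608)) (T.h (P (nat_lit 0)) (T.h (M (nat_lit 14344602706940511911935)) (T.h (P (nat_lit 0)) (M (nat_lit 65582421789278207))))))) (T.h (P (nat_lit 0)) (T.h (T.h (P (nat_lit 0)) (T.h (P (nat_lit 54548994911447583555584)) (T.h (P (nat_lit 0)) (M (nat_lit 58682876268085247))))) (T.h (P (nat_lit 0)) (T.h (T.h (P (nat_lit 0)) (M (nat_lit 42086344733622271))) (P (nat_lit 0))))))) (T.h (T.h (P (nat_lit 0)) (T.h (T.h (P (nat_lit 9767776142240778154934272)) (T.h (P (nat_lit 0)) (M (nat_lit 145672624222347722751)))) (T.h (P (nat_lit 0)) (M (nat_lit 181177798486917119))))) (T.h (T.h (T.h (P (nat_lit 0)) (T.h (P (nat_lit 35266817870928178839552)) (T.h (P (nat_lit 0)) (M (nat_lit 12694745432686591))))) (T.h (P (nat_lit 0)) (T.h (T.h (P (nat_lit 0)) (M (nat_lit 41064510206017535))) (P (nat_lit 0)))))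 (T.h (T.h (P (nat_lit 0)) (P (nat_lit 11252920928419446784))) (T.h (T.h (T.h (P (nat_lit 0)) (M (nat_lit 384693298659327))) (P (nat_lit 0))) (P (nat_lit 0))))))), (P (nat_lit 0))]
def lQm_3 : List (T ℤ) := [(P (nat_lit 0)), (T.h (T.h (P (nat_lit 0)) (T.h (T.h (M (nat_lit 9662406685631375686768787455)) (T.h (P (nat_lit 0)) (T.h (P (nat_lit 6265702064994287353856)) (T.h (P (nat_lit 0)) (M (nat_lit 62734219519557631)))))) (T.h (P (nat_lit 0)) (T.h (T.h (P (nat_lit 308556873341813653504)) (T.h (P (nat_lit 0)) (P (nat_lit 1053344965394432)))) (T.h (P (nat_lit 0)) (P (nat_lit 9054777712148480))))))) (T.h (T.h (T.h (P (nat_lit 0)) (T.h (P (nat_lit 11058409231915517491544064)) (T.h (P (nat_lit 0)) (T.h (M (nat_lit 14467366569325363199)) (T.h (P (nat_lit 0)) (M (nat_lit 25228408055951))))))) (T.h (P (nat_lit 0)) (T.h (T.h (P (nat_lit 0)) (T.h (P (nat_lit 41046958461903962112)) (T.h (P (nat_lit 0)) (M (nat_lit 30631383465103))))) (T.h (P (nat_lit 0)) (T.h (T.h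 (P (nat_lit 0)) (P (nat_lit 20903774469776))) (P (nat_lit 0))))))) (T.h (T.h (P (nat_lit 0)) (T.h (T.h (P (nat_lit 6831777259271273578496)) (T.h (P (nat_lit 0)) (P (nat_lit 71706097648828416)))) (T.h (P (nat_lit 0)) (M (nat_lit 9890563182690303))))) (T.h (T.h (T.h (P (nat_lit 0)) (T.h (M (nat_lit 11501981165653327871)) (T.h (P (nat_lit 0)) (M (nat_lit 56548575864127))))) (T.h (P (nat_lit 0)) (T.h (T.h (P (nat_lit 0)) (M (nat_lit 17713433119431))) (P (nat_lit 0))))) (T.h (T.h (P (nat_lit 0)) (M (nat_lit 725418309091327))) (T.h (T.h (T.h (P (nat_lit 0)) (M (nat_lit 16978705696583))) (P (nat_lit 0))) (P (nat_lit 0)))))))), (T.h (T.h (P (nat_lit 0)) (T.h (T.h (P (nat_lit 0)) (T.h (M (nat_lit 39555283947184431235596287)) (T.h (P (nat_lit 0)) (T.h (M (nat_lit 287531455608975785983)) (T.h (P (nat_lit 0)) (P (nat_lit 5629987302560))))))) (T.h (P (nat_lit 0)) (T.h (T.h (P (nat_lit 0)) (T.h (M (nat_lit 30022983081594454015)) (T.h (P (nat_lit 0)) (P (nat_lit 346327786339536)))))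 (T.h (P (nat_lit 0)) (T.h (T.h (P (nat_lit 0)) (M (nat_lit 20915930440255))) (P (nat_lit 0)))))))) (T.h (T.h (T.h (M (nat_lit 21439020041541902305889091583)) (T.h (P (nat_lit 0)) (T.h (M (nat_lit 3327027577897286107135)) (T.h (P (nat_lit 0)) (M (nat_lit 131088948266926079)))))) (T.h (P (nat_lit 0)) (T.h (T.h (M (nat_lit 3066642079731815546879)) (T.h (P (nat_lit 0)) (P (nat_lit 1332017585995776)))) (T.h (P (nat_lit 0)) (P (nat_lit 2510440788918272)))))) (T.h (T.h (P (nat_lit 0)) (T.h (T.h (P (nat_lit 0)) (T.h (P (nat_lit 55318303577196199936)) (T.h (P (nat_lit 0)) (M (nat_lit 138743880398239))))) (T.h (P (nat_lit 0)) (T.h (T.h (P (nat_lit 0)) (P (nat_lit 18354663940000))) (P (nat_lit 0)))))) (T.h (T.h (T.h (P (nat_lit 17368237073517154140160)) (T.h (P (nat_lit 0)) (M (nat_lit 1071105886158847)))) (T.h (P (nat_lit 0)) (M (nat_lit 43936759381704703)))) (T.h (T.h (P (nat_lit 0)) (T.h (T.h (P (nat_lit 0)) (P (nat_lit 33481742598912))) (P (nat_lit 0)))) (P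 (nat_lit 3881363090505728))))))), (T.h (T.h (P (nat_lit 0)) (T.h (T.h (P (nat_lit 20775842496571973614966931456)) (T.h (P (nat_lit 0)) (T.h (P (nat_lit 242381418927757509787648)) (T.h (P (nat_lit 0)) (P (nat_lit 534317465604161536)))))) (T.h (P (nat_lit 0)) (T.h (T.h (P (nat_lit 31027422118557268312064)) (T.h (P (nat_lit 0)) (P (nat_lit 214374929667096576)))) (T.h (P (nat_lit 0)) (M (nat_lit 80492444654338047))))))) (T.h (T.h (T.h (P (nat_lit 0)) (T.h (M (nat_lit 59228253820624305253253119)) (T.h (P (nat_lit 0)) (T.h (M (nat_lit 177530439701318598655)) (T.h (P (nat_lit 0)) (M (nat_lit 115487932780159))))))) (T.h (P (nat_lit 0)) (T.h (T.h (P (nat_lit 0)) (T.h (M (nat_lit 131191371818267049983)) (T.h (P (nat_lit 0)) (M (nat_lit 404751258890799))))) (T.h (P (nat_lit 0)) (T.h (T.h (P (nat_lit 0)) (P (nat_lit 168865378043200))) (P (nat_lit 0))))))) (T.h (T.h (P (nat_lit 0)) (T.h (T.h (M (nat_lit 2528523741828411817983)) (T.h (P (nat_lit 0)) (P (nat_lit 53650938488881152))))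 (T.h (P (nat_lit 0)) (P (nat_lit 72660222417698816))))) (T.h (T.h (T.h (P (nat_lit 0)) (T.h (P (nat_lit 128776015067756888064)) (T.h (P (nat_lit 0)) (P (nat_lit 216660159992640))))) (T.h (P (nat_lit 0)) (T.h (T.h (P (nat_lit 0)) (P (nat_lit 162100968221040))) (P (nat_lit 0))))) (T.h (T.h (P (nat_lit 0)) (P (nat_lit 145499149792968704))) (T.h (T.h (T.h (P (nat_lit 0)) (P (nat_lit 12924331522800))) (P (nat_lit 0))) (P (nat_lit 0)))))))), (T.h (T.h (P (nat_lit 0)) (T.h (T.h (P (nat_lit 0)) (T.h (M (nat_lit 58042082194932585631580159)) (T.h (P (nat_lit 0)) (T.h (P (nat_lit 169026438565197774848)) (T.h (P (nat_lit 0)) (M (nat_lit 202010613196303))))))) (T.h (P (nat_lit 0)) (T.h (T.h (P (nat_lit 0)) (T.h (M (nat_lit 72074611859338035199)) (T.h (P (nat_lit 0)) (M (nat_lit 40807260833679))))) (T.h (P (nat_lit 0)) (T.h (T.h (P (nat_lit 0)) (P (nat_lit 9843633707952))) (P (nat_lit 0)))))))) (T.h (T.h (T.h (P (nat_lit 30592359351173919146378264576)) (T.h (P (nat_lit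 0)) (T.h (M (nat_lit 126206691015345766924287)) (T.h (P (nat_lit 0)) (P (nat_lit 153230669436993536)))))) (T.h (P (nat_lit 0)) (T.h (T.h (M (nat_lit 47570282094454540075007)) (T.h (P (nat_lit 0)) (P (nat_lit 142951232725958656)))) (T.h (P (nat_lit 0)) (M (nat_lit 100432000003391487)))))) (T.h (T.h (P (nat_lit 0)) (T.h (T.h (P (nat_lit 0)) (T.h (M (nat_lit 23453482314404724735)) (T.h (P (nat_lit 0)) (M (nat_lit 160765879742335))))) (T.h (P (nat_lit 0)) (T.h (T.h (P (nat_lit 0)) (M (nat_lit 153951304182895))) (P (nat_lit 0)))))) (T.h (T.h (T.h (M (nat_lit 18885243591323641970687)) (T.h (P (nat_lit 0)) (M (nat_lit 105060780253347839)))) (T.h (P (nat_lit 0)) (P (nat_lit 5924892080504832)))) (T.h (T.h (P (nat_lit 0)) (T.h (T.h (P (nat_lit 0)) (M (nat_lit 46938132056991))) (P (nat_lit 0)))) (M (nat_lit 20021605155700735))))))), (T.h (T.h (P (nat_lit 0)) (T.h (T.h (P (nat_lit 9479945226855203678944493568)) (T.h (P (nat_lit 0)) (T.h (M (nat_lit 252405377024740638588927))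 (T.h (P (nat_lit 0)) (P (nat_lit 158948710125174784)))))) (T.h (P (nat_lit 0)) (T.h (T.h (M (nat_lit 8055960460481364230143)) (T.h (P (nat_lit 0)) (M (nat_lit 73784448161644543)))) (T.h (P (nat_lit 0)) (M (nat_lit 3604578148319231))))))) (T.h (T.h (T.h (P (nat_lit 0)) (T.h (P (nat_lit 68480659706341009634885632)) (T.h (P (nat_lit 0)) (M (nat_lit 76622548805082939391))))) (T.h (P (nat_lit 0)) (T.h (T.h (P (nat_lit 0)) (P (nat_lit 28561419631895511040))) (P (nat_lit 0))))) (T.h (T.h (P (nat_lit 0)) (T.h (T.h (M (nat_lit 15229871120192928481279)) (T.h (P (nat_lit 0)) (P (nat_lit 48863964941058048)))) (T.h (P (nat_lit 0)) (P (nat_lit 67886065340547072))))) (T.h (T.h (T.h (P (nat_lit 0)) (P (nat_lit 11930534835996590080))) (P (nat_lit 0))) (T.h (T.h (P (nat_lit 0)) (P (nat_lit 27031974620561408))) (P (nat_lit 0))))))), (P (nat_lit 0)), (P (nat_lit 0))]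
def lQm_4 : List (T ℤ) := [(T.h (T.h (T.h (P (nat_lit 0)) (T.h (M (nat_lit 9662406685631375686768787455)) (T.h (P (nat_lit 0)) (T.h (P (nat_lit 308556873341813653504)) (T.h (P (nat_lit 0)) (P (nat_lit 9054777712148480))))))) (T.h (P (nat_lit 0)) (T.h (T.h (P (nat_lit 0)) (T.h (P (nat_lit 6265702064994287353856)) (T.h (P (nat_lit 0)) (P (nat_lit 1053344965394432))))) (T.h (P (nat_lit 0)) (T.h (T.h (P (nat_lit 0)) (M (nat_lit 62734219519557631))) (P (nat_lit 0))))))) (T.h (T.h (P (nat_lit 0)) (T.h (T.h (P (nat_lit 11058409231915517491544064)) (T.h (P (nat_lit 0)) (T.h (P (nat_lit 41046958461903962112)) (T.h (P (nat_lit 0)) (P (nat_lit 20903774469776)))))) (T.h (P (nat_lit 0)) (T.h (T.h (M (nat_lit 14467366569325363199)) (T.h (P (nat_lit 0)) (M (nat_lit 30631383465103)))) (T.h (P (nat_lit 0)) (M (nat_lit 25228408055951))))))) (T.h (T.h (T.h (P (nat_lit 0)) (T.h (P (nat_lit 6831777259271273578496)) (T.h (P (nat_lit 0)) (M (nat_lit 9890563182690303)))))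 (T.h (P (nat_lit 0)) (T.h (T.h (P (nat_lit 0)) (P (nat_lit 71706097648828416))) (P (nat_lit 0))))) (T.h (T.h (P (nat_lit 0)) (T.h (T.h (M (nat_lit 11501981165653327871)) (T.h (P (nat_lit 0)) (M (nat_lit 17713433119431)))) (T.h (P (nat_lit 0)) (M (nat_lit 56548575864127))))) (T.h (T.h (T.h (P (nat_lit 0)) (M (nat_lit 725418309091327))) (P (nat_lit 0))) (T.h (T.h (P (nat_lit 0)) (M (nat_lit 16978705696583))) (P (nat_lit 0)))))))), (T.h (T.h (T.h (M (nat_lit 20254831134507439147727913484287)) (T.h (P (nat_lit 0)) (T.h (P (nat_lit 29599268406989750704013312)) (T.h (P (nat_lit 0)) (T.h (M (nat_lit 57188527308720308223)) (T.h (P (nat_lit 0)) (M (nat_lit 26207854071903)))))))) (T.h (P (nat_lit 0)) (T.h (T.h (P (nat_lit 29599268406989750704013312)) (T.h (P (nat_lit 0)) (T.h (M (nat_lit 148159826317262454783)) (T.h (P (nat_lit 0)) (M (nat_lit 171985111421919)))))) (T.h (P (nat_lit 0)) (T.h (T.h (M (nat_lit 57188527308720308223)) (T.h (P (nat_lit 0)) (M (nat_lit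 171985111421919)))) (T.h (P (nat_lit 0)) (M (nat_lit 26207854071903)))))))) (T.h (T.h (P (nat_lit 0)) (T.h (T.h (P (nat_lit 0)) (T.h (P (nat_lit 453731183376403592642560)) (T.h (P (nat_lit 0)) (P (nat_lit 53449368928747520))))) (T.h (P (nat_lit 0)) (T.h (T.h (P (nat_lit 0)) (P (nat_lit 53449368928747520))) (P (nat_lit 0)))))) (T.h (T.h (T.h (P (nat_lit 8623154526300995311370240)) (T.h (P (nat_lit 0)) (T.h (M (nat_lit 58732646427604811775)) (T.h (P (nat_lit 0)) (P (nat_lit 15164383117568)))))) (T.h (P (nat_lit 0)) (T.h (T.h (M (nat_lit 58732646427604811775)) (T.h (P (nat_lit 0)) (P (nat_lit 913938109348384)))) (T.h (P (nat_lit 0)) (P (nat_lit 15164383117568)))))) (T.h (T.h (P (nat_lit 0)) (T.h (T.h (P (nat_lit 0)) (M (nat_lit 227822629654233087))) (P (nat_lit 0)))) (T.h (T.h (T.h (M (nat_lit 3791356520545910783)) (T.h (P (nat_lit 0)) (P (nat_lit 18863524992736)))) (T.h (P (nat_lit 0)) (P (nat_lit 18863524992736)))) (T.h (P (nat_lit 0)) (P (nat_lit 6987571952256)))))))),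 (T.h (T.h (T.h (P (nat_lit 0)) (T.h (M (nat_lit 15103393910805811674524680191)) (T.h (P (nat_lit 0)) (T.h (P (nat_lit 35708899549047051780096)) (T.h (P (nat_lit 0)) (P (nat_lit 157679197717659648))))))) (T.h (P (nat_lit 0)) (T.h (T.h (P (nat_lit 0)) (T.h (P (nat_lit 164756038612868625596416)) (T.h (P (nat_lit 0)) (M (nat_lit 51203836739551231))))) (T.h (P (nat_lit 0)) (T.h (T.h (P (nat_lit 0)) (M (nat_lit 253737492773535743))) (P (nat_lit 0))))))) (T.h (T.h (P (nat_lit 0)) (T.h (T.h (M (nat_lit 84196165240367251311296511)) (T.h (P (nat_lit 0)) (T.h (P (nat_lit 228585117517172703232)) (T.h (P (nat_lit 0)) (M (nat_lit 332259197192239)))))) (T.h (P (nat_lit 0)) (T.h (T.h (P (nat_lit 179317428776303853568)) (T.h (P (nat_lit 0)) (P (nat_lit 416838103512880)))) (T.h (P (nat_lit 0)) (M (nat_lit 134158551876799))))))) (T.h (T.h (T.h (P (nat_lit 0)) (T.h (P (nat_lit 71252488799191958552576)) (T.h (P (nat_lit 0)) (P (nat_lit 120247537389076480))))) (T.h (P (nat_lit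 0)) (T.h (T.h (P (nat_lit 0)) (M (nat_lit 1020327917606305791))) (P (nat_lit 0))))) (T.h (T.h (P (nat_lit 0)) (T.h (T.h (M (nat_lit 88201718308815241215)) (T.h (P (nat_lit 0)) (M (nat_lit 46060579552079)))) (T.h (P (nat_lit 0)) (M (nat_lit 246642587653999))))) (T.h (T.h (T.h (P (nat_lit 0)) (M (nat_lit 195913816851152895))) (P (nat_lit 0))) (T.h (T.h (P (nat_lit 0)) (M (nat_lit 14276070104159))) (P (nat_lit 0)))))))), (T.h (T.h (T.h (M (nat_lit 5579030000330377679209261694975)) (T.h (P (nat_lit 0)) (T.h (P (nat_lit 19216157866977268909211648)) (T.h (P (nat_lit 0)) (T.h (P (nat_lit 32562526019337060352)) (T.h (P (nat_lit 0)) (M (nat_lit 499469368768831)))))))) (T.h (P (nat_lit 0)) (T.h (T.h (M (nat_lit 96726347834487794787418111)) (T.h (P (nat_lit 0)) (T.h (M (nat_lit 52139860623666184191)) (T.h (P (nat_lit 0)) (M (nat_lit 1548465693749039)))))) (T.h (P (nat_lit 0)) (T.h (T.h (P (nat_lit 90695716078622867456)) (T.h (P (nat_lit 0)) (P (nat_lit 227616305269056))))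 (T.h (P (nat_lit 0)) (M (nat_lit 100380931134879)))))))) (T.h (T.h (P (nat_lit 0)) (T.h (T.h (P (nat_lit 0)) (T.h (M (nat_lit 457499459866436042751999)) (T.h (P (nat_lit 0)) (M (nat_lit 472196403872694271))))) (T.h (P (nat_lit 0)) (T.h (T.h (P (nat_lit 0)) (M (nat_lit 82063394174631935))) (P (nat_lit 0)))))) (T.h (T.h (T.h (M (nat_lit 5657961527253364136476671)) (T.h (P (nat_lit 0)) (T.h (P (nat_lit 49910012661702066176)) (T.h (P (nat_lit 0)) (M (nat_lit 311887139930959)))))) (T.h (P (nat_lit 0)) (T.h (T.h (M (nat_lit 10372977650615451647)) (T.h (P (nat_lit 0)) (M (nat_lit 1201170315836127)))) (T.h (P (nat_lit 0)) (P (nat_lit 211605099716560)))))) (T.h (T.h (P (nat_lit 0)) (T.h (T.h (P (nat_lit 0)) (P (nat_lit 329846517412593664))) (P (nat_lit 0)))) (T.h (T.h (T.h (P (nat_lit 13357060239115943936)) (T.h (P (nat_lit 0)) (P (nat_lit 45874032146976)))) (T.h (P (nat_lit 0)) (P (nat_lit 46870734497312)))) (T.h (P (nat_lit 0)) (M (nat_lit 10492294430287)))))))),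 (T.h (T.h (T.h (P (nat_lit 0)) (T.h (P (nat_lit 23189883887025830961654792192)) (T.h (P (nat_lit 0)) (T.h (M (nat_lit 243099935357513639133183)) (T.h (P (nat_lit 0)) (P (nat_lit 595563394477948928))))))) (T.h (P (nat_lit 0)) (T.h (T.h (P (nat_lit 0)) (T.h (M (nat_lit 33956056854755006218239)) (T.h (P (nat_lit 0)) (P (nat_lit 1175977343068569600))))) (T.h (P (nat_lit 0)) (T.h (T.h (P (nat_lit 0)) (M (nat_lit 93919563231952895))) (P (nat_lit 0))))))) (T.h (T.h (P (nat_lit 0)) (T.h (T.h (P (nat_lit 104213714518363397557321728)) (T.h (P (nat_lit 0)) (P (nat_lit 571332830943741214720)))) (T.h (P (nat_lit 0)) (M (nat_lit 18889754215679262719))))) (T.h (T.h (T.h (P (nat_lit 0)) (T.h (M (nat_lit 87515735663265416478719)) (T.h (P (nat_lit 0)) (P (nat_lit 262202542911520768))))) (T.h (P (nat_lit 0)) (T.h (T.h (P (nat_lit 0)) (P (nat_lit 533260947869499392))) (P (nat_lit 0))))) (T.h (T.h (P (nat_lit 0)) (M (nat_lit 99944006815716474879))) (T.h (T.h (T.h (P (nat_lit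 0)) (M (nat_lit 8342794656481279))) (P (nat_lit 0))) (P (nat_lit 0))))))), (P (nat_lit 0)), (P (nat_lit 0)), (T.h (T.h (P (nat_lit 0)) (T.h (T.h (P (nat_lit 2055456681931519564426772480)) (T.h (P (nat_lit 0)) (T.h (M (nat_lit 2766668727805554982911)) (T.h (P (nat_lit 0)) (M (nat_lit 2451024506814463)))))) (T.h (P (nat_lit 0)) (T.h (T.h (P (nat_lit 4248991952857825542144)) (T.h (P (nat_lit 0)) (M (nat_lit 8725047214145535)))) (T.h (P (nat_lit 0)) (M (nat_lit 3485283988078591))))))) (T.h (T.h (T.h (P (nat_lit 0)) (T.h (M (nat_lit 1705315292969379989291007)) (T.h (P (nat_lit 0)) (T.h (P (nat_lit 2476425389400915968)) (T.h (P (nat_lit 0)) (M (nat_lit 6242764166039))))))) (T.h (P (nat_lit 0)) (T.h (T.h (P (nat_lit 0)) (T.h (P (nat_lit 876704851256410112)) (T.h (P (nat_lit 0)) (M (nat_lit 1415563387735))))) (T.h (P (nat_lit 0)) (T.h (T.h (P (nat_lit 0)) (M (nat_lit 28937018074767))) (P (nat_lit 0))))))) (T.h (T.h (P (nat_lit 0)) (T.h (T.h (M (nat_lit 10035423191259844444159))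 (T.h (P (nat_lit 0)) (P (nat_lit 454002489458688)))) (T.h (P (nat_lit 0)) (P (nat_lit 48569078005039104))))) (T.h (T.h (T.h (P (nat_lit 0)) (T.h (P (nat_lit 2377763215032451072)) (T.h (P (nat_lit 0)) (P (nat_lit 2063416401616))))) (T.h (P (nat_lit 0)) (T.h (T.h (P (nat_lit 0)) (P (nat_lit 12562440285328))) (P (nat_lit 0))))) (T.h (T.h (P (nat_lit 0)) (P (nat_lit 4075656891629568))) (T.h (T.h (T.h (P (nat_lit 0)) (P (nat_lit 7158406918608))) (P (nat_lit 0))) (P (nat_lit 0))))))))]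
def lQm_5 : List (T ℤ) := [(T.h (T.h (P (nat_lit 0)) (T.h (T.h (P (nat_lit 0)) (T.h (M (nat_lit 39555283947184431235596287)) (T.h (P (nat_lit 0)) (T.h (M (nat_lit 30022983081594454015)) (T.h (P (nat_lit 0)) (M (nat_lit 20915930440255))))))) (T.h (P (nat_lit 0)) (T.h (T.h (P (nat_lit 0)) (T.h (M (nat_lit 287531455608975785983)) (T.h (P (nat_lit 0)) (P (nat_lit 346327786339536))))) (T.h (P (nat_lit 0)) (T.h (T.h (P (nat_lit 0)) (P (nat_lit 5629987302560))) (P (nat_lit 0)))))))) (T.h (T.h (T.h (M (nat_lit 21439020041541902305889091583)) (T.h (P (nat_lit 0)) (T.h (M (nat_lit 3066642079731815546879)) (T.h (P (nat_lit 0)) (P (nat_lit 2510440788918272)))))) (T.h (P (nat_lit 0)) (T.h (T.h (M (nat_lit 3327027577897286107135)) (T.h (P (nat_lit 0)) (P (nat_lit 1332017585995776)))) (T.h (P (nat_lit 0)) (M (nat_lit 131088948266926079)))))) (T.h (T.h (P (nat_lit 0)) (T.h (T.h (P (nat_lit 0)) (T.h (P (nat_lit 55318303577196199936)) (T.h (P (nat_lit 0)) (P (nat_lit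 18354663940000))))) (T.h (P (nat_lit 0)) (T.h (T.h (P (nat_lit 0)) (M (nat_lit 138743880398239))) (P (nat_lit 0)))))) (T.h (T.h (T.h (P (nat_lit 17368237073517154140160)) (T.h (P (nat_lit 0)) (M (nat_lit 43936759381704703)))) (T.h (P (nat_lit 0)) (M (nat_lit 1071105886158847)))) (T.h (T.h (P (nat_lit 0)) (T.h (T.h (P (nat_lit 0)) (P (nat_lit 33481742598912))) (P (nat_lit 0)))) (P (nat_lit 3881363090505728))))))), (T.h (T.h (P (nat_lit 0)) (T.h (T.h (M (nat_lit 15103393910805811674524680191)) (T.h (P (nat_lit 0)) (T.h (P (nat_lit 164756038612868625596416)) (T.h (P (nat_lit 0)) (M (nat_lit 253737492773535743)))))) (T.h (P (nat_lit 0)) (T.h (T.h (P (nat_lit 35708899549047051780096)) (T.h (P (nat_lit 0)) (M (nat_lit 51203836739551231)))) (T.h (P (nat_lit 0)) (P (nat_lit 157679197717659648))))))) (T.h (T.h (T.h (P (nat_lit 0)) (T.h (M (nat_lit 84196165240367251311296511)) (T.h (P (nat_lit 0)) (T.h (P (nat_lit 179317428776303853568)) (T.h (P (nat_lit 0))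 (M (nat_lit 134158551876799))))))) (T.h (P (nat_lit 0)) (T.h (T.h (P (nat_lit 0)) (T.h (P (nat_lit 228585117517172703232)) (T.h (P (nat_lit 0)) (P (nat_lit 416838103512880))))) (T.h (P (nat_lit 0)) (T.h (T.h (P (nat_lit 0)) (M (nat_lit 332259197192239))) (P (nat_lit 0))))))) (T.h (T.h (P (nat_lit 0)) (T.h (T.h (P (nat_lit 71252488799191958552576)) (T.h (P (nat_lit 0)) (M (nat_lit 1020327917606305791)))) (T.h (P (nat_lit 0)) (P (nat_lit 120247537389076480))))) (T.h (T.h (T.h (P (nat_lit 0)) (T.h (M (nat_lit 88201718308815241215)) (T.h (P (nat_lit 0)) (M (nat_lit 246642587653999))))) (T.h (P (nat_lit 0)) (T.h (T.h (P (nat_lit 0)) (M (nat_lit 46060579552079))) (P (nat_lit 0))))) (T.h (T.h (P (nat_lit 0)) (M (nat_lit 195913816851152895))) (T.h (T.h (T.h (P (nat_lit 0)) (M (nat_lit 14276070104159))) (P (nat_lit 0))) (P (nat_lit 0)))))))), (T.h (T.h (P (nat_lit 0)) (T.h (T.h (P (nat_lit 0)) (T.h (M (nat_lit 13044743086543117431603199)) (T.h (P (nat_lit 0))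 (T.h (P (nat_lit 895701505092815421440)) (T.h (P (nat_lit 0)) (M (nat_lit 511264914572719))))))) (T.h (P (nat_lit 0)) (T.h (T.h (P (nat_lit 0)) (T.h (P (nat_lit 895701505092815421440)) (T.h (P (nat_lit 0)) (M (nat_lit 1759458341326751))))) (T.h (P (nat_lit 0)) (T.h (T.h (P (nat_lit 0)) (M (nat_lit 511264914572719))) (P (nat_lit 0)))))))) (T.h (T.h (T.h (M (nat_lit 24992318524765064333499564031)) (T.h (P (nat_lit 0)) (T.h (P (nat_lit 260361686357432774688768)) (T.h (P (nat_lit 0)) (P (nat_lit 265449525198569472)))))) (T.h (P (nat_lit 0)) (T.h (T.h (P (nat_lit 260361686357432774688768)) (T.h (P (nat_lit 0)) (P (nat_lit 205872335258877952)))) (T.h (P (nat_lit 0)) (P (nat_lit 265449525198569472)))))) (T.h (T.h (P (nat_lit 0)) (T.h (T.h (P (nat_lit 0)) (T.h (P (nat_lit 198258432899561816064)) (T.h (P (nat_lit 0)) (P (nat_lit 523327662662640))))) (T.h (P (nat_lit 0)) (T.h (T.h (P (nat_lit 0)) (P (nat_lit 523327662662640))) (P (nat_lit 0)))))) (T.h (T.h (T.h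 (P (nat_lit 11604628832279974641664)) (T.h (P (nat_lit 0)) (M (nat_lit 58673506168897535)))) (T.h (P (nat_lit 0)) (M (nat_lit 58673506168897535)))) (T.h (T.h (P (nat_lit 0)) (T.h (T.h (P (nat_lit 0)) (M (nat_lit 237527651697951))) (P (nat_lit 0)))) (P (nat_lit 10089550851538944))))))), (T.h (T.h (P (nat_lit 0)) (T.h (T.h (P (nat_lit 37495071686497208421731794944)) (T.h (P (nat_lit 0)) (T.h (M (nat_lit 426842702168290282700799)) (T.h (P (nat_lit 0)) (P (nat_lit 1052533473347338240)))))) (T.h (P (nat_lit 0)) (T.h (T.h (M (nat_lit 138571131412666097074175)) (T.h (P (nat_lit 0)) (P (nat_lit 813225388758859776)))) (T.h (P (nat_lit 0)) (P (nat_lit 207322856984576000))))))) (T.h (T.h (T.h (P (nat_lit 0)) (T.h (M (nat_lit 8530470887322473985998847)) (T.h (P (nat_lit 0)) (P (nat_lit 124755095903367331840))))) (T.h (P (nat_lit 0)) (T.h (T.h (P (nat_lit 0)) (M (nat_lit 394182288451529867263))) (P (nat_lit 0))))) (T.h (T.h (P (nat_lit 0)) (T.h (T.h (P (nat_lit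 16057378342646109437952)) (T.h (P (nat_lit 0)) (P (nat_lit 154969859478683648)))) (T.h (P (nat_lit 0)) (M (nat_lit 255022184546467839))))) (T.h (T.h (T.h (P (nat_lit 0)) (P (nat_lit 11526735466153902080))) (P (nat_lit 0))) (T.h (T.h (P (nat_lit 0)) (P (nat_lit 26770372925128704))) (P (nat_lit 0))))))), (P (nat_lit 0)), (P (nat_lit 0)), (T.h (T.h (T.h (P (nat_lit 0)) (T.h (M (nat_lit 12794100345879409982347149311)) (T.h (P (nat_lit 0)) (T.h (P (nat_lit 1384689428146249793536)) (T.h (P (nat_lit 0)) (P (nat_lit 12294808850366464))))))) (T.h (P (nat_lit 0)) (T.h (T.h (P (nat_lit 0)) (T.h (P (nat_lit 495899353916857384960)) (T.h (P (nat_lit 0)) (P (nat_lit 10798372299145216))))) (T.h (P (nat_lit 0)) (T.h (T.h (P (nat_lit 0)) (P (nat_lit 38793684289617920))) (P (nat_lit 0))))))) (T.h (T.h (P (nat_lit 0)) (T.h (T.h (M (nat_lit 1857953842829409745108991)) (T.h (P (nat_lit 0)) (T.h (P (nat_lit 593274009924141056)) (T.h (P (nat_lit 0)) (P (nat_lit 8435143216096))))))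 (T.h (P (nat_lit 0)) (T.h (T.h (M (nat_lit 8107869170617548799)) (T.h (P (nat_lit 0)) (M (nat_lit 13916663262255)))) (T.h (P (nat_lit 0)) (M (nat_lit 62471784628983))))))) (T.h (T.h (T.h (P (nat_lit 0)) (T.h (M (nat_lit 1358226987020332302335)) (T.h (P (nat_lit 0)) (P (nat_lit 132703734923264))))) (T.h (P (nat_lit 0)) (T.h (T.h (P (nat_lit 0)) (P (nat_lit 4763249007394816))) (P (nat_lit 0))))) (T.h (T.h (P (nat_lit 0)) (T.h (T.h (M (nat_lit 5207521057891680255)) (T.h (P (nat_lit 0)) (P (nat_lit 1495307379448)))) (T.h (P (nat_lit 0)) (P (nat_lit 13168855558336))))) (T.h (T.h (T.h (P (nat_lit 0)) (P (nat_lit 108913887543296))) (P (nat_lit 0))) (T.h (T.h (P (nat_lit 0)) (P (nat_lit 7889238589568))) (P (nat_lit 0)))))))), (T.h (T.h (T.h (M (nat_lit 16310421525849164254090450960383)) (T.h (P (nat_lit 0)) (T.h (P (nat_lit 10121519114408553399451648)) (T.h (P (nat_lit 0)) (T.h (M (nat_lit 2857327944320155647)) (T.h (P (nat_lit 0)) (P (nat_lit 7181325551792))))))))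 (T.h (P (nat_lit 0)) (T.h (T.h (P (nat_lit 11683839568522379406606336)) (T.h (P (nat_lit 0)) (T.h (P (nat_lit 61914797905744494592)) (T.h (P (nat_lit 0)) (M (nat_lit 25450372979775)))))) (T.h (P (nat_lit 0)) (T.h (T.h (M (nat_lit 2035208997841141759)) (T.h (P (nat_lit 0)) (P (nat_lit 439341944415168)))) (T.h (P (nat_lit 0)) (P (nat_lit 63359498543120)))))))) (T.h (T.h (P (nat_lit 0)) (T.h (T.h (P (nat_lit 0)) (T.h (P (nat_lit 10010703217678719385600)) (T.h (P (nat_lit 0)) (P (nat_lit 62959274422501376))))) (T.h (P (nat_lit 0)) (T.h (T.h (P (nat_lit 0)) (M (nat_lit 190586810511065087))) (P (nat_lit 0)))))) (T.h (T.h (T.h (M (nat_lit 1377791761044098531721215)) (T.h (P (nat_lit 0)) (T.h (M (nat_lit 244134082416476159)) (T.h (P (nat_lit 0)) (P (nat_lit 7834943220656)))))) (T.h (P (nat_lit 0)) (T.h (T.h (M (nat_lit 48808837752610095103)) (T.h (P (nat_lit 0)) (M (nat_lit 2428238407215)))) (T.h (P (nat_lit 0)) (P (nat_lit 65805890694080)))))) (T.h (T.h (P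 (nat_lit 0)) (T.h (T.h (P (nat_lit 0)) (M (nat_lit 61646594252767231))) (P (nat_lit 0)))) (T.h (T.h (T.h (P (nat_lit 4136264342167355392)) (T.h (P (nat_lit 0)) (P (nat_lit 7778266412928)))) (T.h (P (nat_lit 0)) (M (nat_lit 27352561037247)))) (T.h (P (nat_lit 0)) (M (nat_lit 2258787755471))))))))]
def lQm_6 : List (T ℤ) := [(T.h (T.h (T.h (P (nat_lit 0)) (T.h (P (nat_lit 20775842496571973614966931456)) (T.h (P (nat_lit 0)) (T.h (P (nat_lit 31027422118557268312064)) (T.h (P (nat_lit 0)) (M (nat_lit 80492444654338047))))))) (T.h (P (nat_lit 0)) (T.h (T.h (P (nat_lit 0)) (T.h (P (nat_lit 242381418927757509787648)) (T.h (P (nat_lit 0)) (P (nat_lit 214374929667096576))))) (T.h (P (nat_lit 0)) (T.h (T.h (P (nat_lit 0)) (P (nat_lit 534317465604161536))) (P (nat_lit 0))))))) (T.h (T.h (P (nat_lit 0)) (T.h (T.h (M (nat_lit 59228253820624305253253119)) (T.h (P (nat_lit 0)) (T.h (M (nat_lit 131191371818267049983)) (T.h (P (nat_lit 0)) (P (nat_lit 168865378043200))))))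 (T.h (P (nat_lit 0)) (T.h (T.h (M (nat_lit 177530439701318598655)) (T.h (P (nat_lit 0)) (M (nat_lit 404751258890799)))) (T.h (P (nat_lit 0)) (M (nat_lit 115487932780159))))))) (T.h (T.h (T.h (P (nat_lit 0)) (T.h (M (nat_lit 2528523741828411817983)) (T.h (P (nat_lit 0)) (P (nat_lit 72660222417698816))))) (T.h (P (nat_lit 0)) (T.h (T.h (P (nat_lit 0)) (P (nat_lit 53650938488881152))) (P (nat_lit 0))))) (T.h (T.h (P (nat_lit 0)) (T.h (T.h (P (nat_lit 128776015067756888064)) (T.h (P (nat_lit 0)) (P (nat_lit 162100968221040)))) (T.h (P (nat_lit 0)) (P (nat_lit 216660159992640))))) (T.h (T.h (T.h (P (nat_lit 0)) (P (nat_lit 145499149792968704))) (P (nat_lit 0))) (T.h (T.h (P (nat_lit 0)) (P (nat_lit 12924331522800))) (P (nat_lit 0)))))))), (T.h (T.h (T.h (M (nat_lit 5579030000330377679209261694975)) (T.h (P (nat_lit 0)) (T.h (M (nat_lit 96726347834487794787418111)) (T.h (P (nat_lit 0)) (T.h (P (nat_lit 90695716078622867456)) (T.h (P (nat_lit 0)) (M (nat_lit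 100380931134879)))))))) (T.h (P (nat_lit 0)) (T.h (T.h (P (nat_lit 19216157866977268909211648)) (T.h (P (nat_lit 0)) (T.h (M (nat_lit 52139860623666184191)) (T.h (P (nat_lit 0)) (P (nat_lit 227616305269056)))))) (T.h (P (nat_lit 0)) (T.h (T.h (P (nat_lit 32562526019337060352)) (T.h (P (nat_lit 0)) (M (nat_lit 1548465693749039)))) (T.h (P (nat_lit 0)) (M (nat_lit 499469368768831)))))))) (T.h (T.h (P (nat_lit 0)) (T.h (T.h (P (nat_lit 0)) (T.h (M (nat_lit 457499459866436042751999)) (T.h (P (nat_lit 0)) (M (nat_lit 82063394174631935))))) (T.h (P (nat_lit 0)) (T.h (T.h (P (nat_lit 0)) (M (nat_lit 472196403872694271))) (P (nat_lit 0)))))) (T.h (T.h (T.h (M (nat_lit 5657961527253364136476671)) (T.h (P (nat_lit 0)) (T.h (M (nat_lit 10372977650615451647)) (T.h (P (nat_lit 0)) (P (nat_lit 211605099716560)))))) (T.h (P (nat_lit 0)) (T.h (T.h (P (nat_lit 49910012661702066176)) (T.h (P (nat_lit 0)) (M (nat_lit 1201170315836127)))) (T.h (P (nat_lit 0)) (M (nat_lit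 311887139930959)))))) (T.h (T.h (P (nat_lit 0)) (T.h (T.h (P (nat_lit 0)) (P (nat_lit 329846517412593664))) (P (nat_lit 0)))) (T.h (T.h (T.h (P (nat_lit 13357060239115943936)) (T.h (P (nat_lit 0)) (P (nat_lit 46870734497312)))) (T.h (P (nat_lit 0)) (P (nat_lit 45874032146976)))) (T.h (P (nat_lit 0)) (M (nat_lit 10492294430287)))))))), (T.h (T.h (T.h (P (nat_lit 0)) (T.h (P (nat_lit 37495071686497208421731794944)) (T.h (P (nat_lit 0)) (T.h (M (nat_lit 138571131412666097074175)) (T.h (P (nat_lit 0)) (P (nat_lit 207322856984576000))))))) (T.h (P (nat_lit 0)) (T.h (T.h (P (nat_lit 0)) (T.h (M (nat_lit 426842702168290282700799)) (T.h (P (nat_lit 0)) (P (nat_lit 813225388758859776))))) (T.h (P (nat_lit 0)) (T.h (T.h (P (nat_lit 0)) (P (nat_lit 1052533473347338240))) (P (nat_lit 0))))))) (T.h (T.h (P (nat_lit 0)) (T.h (T.h (M (nat_lit 8530470887322473985998847)) (T.h (P (nat_lit 0)) (M (nat_lit 394182288451529867263)))) (T.h (P (nat_lit 0)) (P (nat_lit 124755095903367331840)))))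 (T.h (T.h (T.h (P (nat_lit 0)) (T.h (P (nat_lit 16057378342646109437952)) (T.h (P (nat_lit 0)) (M (nat_lit 255022184546467839))))) (T.h (P (nat_lit 0)) (T.h (T.h (P (nat_lit 0)) (P (nat_lit 154969859478683648))) (P (nat_lit 0))))) (T.h (T.h (P (nat_lit 0)) (P (nat_lit 11526735466153902080))) (T.h (T.h (T.h (P (nat_lit 0)) (P (nat_lit 26770372925128704))) (P (nat_lit 0))) (P (nat_lit 0))))))), (P (nat_lit 0)), (P (nat_lit 0)), (T.h (T.h (P (nat_lit 0)) (T.h (T.h (P (nat_lit 10212045392436279570270781440)) (T.h (P (nat_lit 0)) (T.h (P (nat_lit 658474017311560826880)) (T.h (P (nat_lit 0)) (P (nat_lit 2448628643758080)))))) (T.h (P (nat_lit 0)) (T.h (T.h (M (nat_lit 18936214877807918972927)) (T.h (P (nat_lit 0)) (M (nat_lit 13795086358216703)))) (T.h (P (nat_lit 0)) (M (nat_lit 73170271617875967))))))) (T.h (T.h (T.h (P (nat_lit 0)) (T.h (M (nat_lit 741706005672169918431231)) (T.h (P (nat_lit 0)) (T.h (M (nat_lit 2839401542845464575)) (T.h (P (nat_lit 0))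 (P (nat_lit 1200533198936))))))) (T.h (P (nat_lit 0)) (T.h (T.h (P (nat_lit 0)) (T.h (M (nat_lit 16419294656111575039)) (T.h (P (nat_lit 0)) (M (nat_lit 6154245470959))))) (T.h (P (nat_lit 0)) (T.h (T.h (P (nat_lit 0)) (M (nat_lit 32315373365839))) (P (nat_lit 0))))))) (T.h (T.h (P (nat_lit 0)) (T.h (T.h (P (nat_lit 658474017311560826880)) (T.h (P (nat_lit 0)) (P (nat_lit 11402419868467200)))) (T.h (P (nat_lit 0)) (M (nat_lit 13795086358216703))))) (T.h (T.h (T.h (P (nat_lit 0)) (T.h (M (nat_lit 2839401542845464575)) (T.h (P (nat_lit 0)) (P (nat_lit 7920728801472))))) (T.h (P (nat_lit 0)) (T.h (T.h (P (nat_lit 0)) (M (nat_lit 6154245470959))) (P (nat_lit 0))))) (T.h (T.h (P (nat_lit 0)) (P (nat_lit 2448628643758080))) (T.h (T.h (T.h (P (nat_lit 0)) (P (nat_lit 1200533198936))) (P (nat_lit 0))) (P (nat_lit 0)))))))), (T.h (T.h (P (nat_lit 0)) (T.h (T.h (P (nat_lit 0)) (T.h (P (nat_lit 5760110150759249130553344)) (T.h (P (nat_lit 0)) (T.h (M (nat_lit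 44187288449497169919)) (T.h (P (nat_lit 0)) (P (nat_lit 7351350546784))))))) (T.h (P (nat_lit 0)) (T.h (T.h (P (nat_lit 0)) (T.h (M (nat_lit 155560528027376943103)) (T.h (P (nat_lit 0)) (M (nat_lit 29896136530671))))) (T.h (P (nat_lit 0)) (T.h (T.h (P (nat_lit 0)) (P (nat_lit 126624751875824))) (P (nat_lit 0)))))))) (T.h (T.h (T.h (P (nat_lit 226318629704904614210437120)) (T.h (P (nat_lit 0)) (T.h (P (nat_lit 6115334825654234382336)) (T.h (P (nat_lit 0)) (P (nat_lit 13485241803522048)))))) (T.h (P (nat_lit 0)) (T.h (T.h (P (nat_lit 13548174235352948539392)) (T.h (P (nat_lit 0)) (P (nat_lit 11298605499367424)))) (T.h (P (nat_lit 0)) (P (nat_lit 148610963780747264)))))) (T.h (T.h (P (nat_lit 0)) (T.h (T.h (P (nat_lit 0)) (T.h (P (nat_lit 4478360613369675776)) (T.h (P (nat_lit 0)) (M (nat_lit 4256921589567))))) (T.h (P (nat_lit 0)) (T.h (T.h (P (nat_lit 0)) (P (nat_lit 20853968390928))) (P (nat_lit 0)))))) (T.h (T.h (T.h (P (nat_lit 766451334615954096128))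 (T.h (P (nat_lit 0)) (P (nat_lit 18148605108125696)))) (T.h (P (nat_lit 0)) (P (nat_lit 1936205404995584)))) (T.h (T.h (P (nat_lit 0)) (T.h (T.h (P (nat_lit 0)) (M (nat_lit 14115448294655))) (P (nat_lit 0)))) (M (nat_lit 2974749091381247))))))), (T.h (T.h (P (nat_lit 0)) (T.h (T.h (M (nat_lit 21123593321619357335306633215)) (T.h (P (nat_lit 0)) (T.h (P (nat_lit 5919988966405504499712)) (T.h (P (nat_lit 0)) (M (nat_lit 10609186901458943)))))) (T.h (P (nat_lit 0)) (T.h (T.h (P (nat_lit 15010200804235572936704)) (T.h (P (nat_lit 0)) (M (nat_lit 58402257737056255)))) (T.h (P (nat_lit 0)) (M (nat_lit 154004297327050751))))))) (T.h (T.h (T.h (P (nat_lit 0)) (T.h (P (nat_lit 2581634979122964043137024)) (T.h (P (nat_lit 0)) (T.h (M (nat_lit 21661246487506452479)) (T.h (P (nat_lit 0)) (P (nat_lit 33653347756400))))))) (T.h (P (nat_lit 0)) (T.h (T.h (P (nat_lit 0)) (T.h (P (nat_lit 58709018431610421248)) (T.h (P (nat_lit 0)) (M (nat_lit 103123823580639))))) (T.h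 (P (nat_lit 0)) (T.h (T.h (P (nat_lit 0)) (P (nat_lit 58319323554320))) (P (nat_lit 0))))))) (T.h (T.h (P (nat_lit 0)) (T.h (T.h (M (nat_lit 50430542327613638049791)) (T.h (P (nat_lit 0)) (P (nat_lit 50862758182420480)))) (T.h (P (nat_lit 0)) (M (nat_lit 165041657512427519))))) (T.h (T.h (T.h (P (nat_lit 0)) (T.h (M (nat_lit 32675668490924851199)) (T.h (P (nat_lit 0)) (P (nat_lit 66069034018640))))) (T.h (P (nat_lit 0)) (T.h (T.h (P (nat_lit 0)) (M (nat_lit 107680149905439))) (P (nat_lit 0))))) (T.h (T.h (P (nat_lit 0)) (P (nat_lit 55334082025422848))) (T.h (T.h (T.h (P (nat_lit 0)) (P (nat_lit 16361497986480))) (P (nat_lit 0))) (P (nat_lit 0))))))))]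
def lQm_7 : List (T ℤ) := [(T.h (T.h (P (nat_lit 0)) (T.h (T.h (P (nat_lit 0)) (T.h (M (nat_lit 58042082194932585631580159)) (T.h (P (nat_lit 0)) (T.h (M (nat_lit 72074611859338035199)) (T.h (P (nat_lit 0)) (P (nat_lit 9843633707952))))))) (T.h (P (nat_lit 0)) (T.h (T.h (P (nat_lit 0)) (T.h (P (nat_lit 169026438565197774848)) (T.h (P (nat_lit 0)) (M (nat_lit 40807260833679))))) (T.h (P (nat_lit 0)) (T.h (T.h (P (nat_lit 0)) (M (nat_lit 202010613196303))) (P (nat_lit 0)))))))) (T.h (T.h (T.h (P (nat_lit 30592359351173919146378264576)) (T.h (P (nat_lit 0)) (T.h (M (nat_lit 47570282094454540075007)) (T.h (P (nat_lit 0)) (M (nat_lit 100432000003391487)))))) (T.h (P (nat_lit 0)) (T.h (T.h (M (nat_lit 126206691015345766924287)) (T.h (P (nat_lit 0)) (P (nat_lit 142951232725958656)))) (T.h (P (nat_lit 0)) (P (nat_lit 153230669436993536)))))) (T.h (T.h (P (nat_lit 0)) (T.h (T.h (P (nat_lit 0)) (T.h (M (nat_lit 23453482314404724735)) (T.h (P (nat_lit 0)) (M (nat_lit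 153951304182895))))) (T.h (P (nat_lit 0)) (T.h (T.h (P (nat_lit 0)) (M (nat_lit 160765879742335))) (P (nat_lit 0)))))) (T.h (T.h (T.h (M (nat_lit 18885243591323641970687)) (T.h (P (nat_lit 0)) (P (nat_lit 5924892080504832)))) (T.h (P (nat_lit 0)) (M (nat_lit 105060780253347839)))) (T.h (T.h (P (nat_lit 0)) (T.h (T.h (P (nat_lit 0)) (M (nat_lit 46938132056991))) (P (nat_lit 0)))) (M (nat_lit 20021605155700735))))))), (T.h (T.h (P (nat_lit 0)) (T.h (T.h (P (nat_lit 23189883887025830961654792192)) (T.h (P (nat_lit 0)) (T.h (M (nat_lit 33956056854755006218239)) (T.h (P (nat_lit 0)) (M (nat_lit 93919563231952895)))))) (T.h (P (nat_lit 0)) (T.h (T.h (M (nat_lit 243099935357513639133183)) (T.h (P (nat_lit 0)) (P (nat_lit 1175977343068569600)))) (T.h (P (nat_lit 0)) (P (nat_lit 595563394477948928))))))) (T.h (T.h (T.h (P (nat_lit 0)) (T.h (P (nat_lit 104213714518363397557321728)) (T.h (P (nat_lit 0)) (M (nat_lit 18889754215679262719))))) (T.h (P (nat_lit 0))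 (T.h (T.h (P (nat_lit 0)) (P (nat_lit 571332830943741214720))) (P (nat_lit 0))))) (T.h (T.h (P (nat_lit 0)) (T.h (T.h (M (nat_lit 87515735663265416478719)) (T.h (P (nat_lit 0)) (P (nat_lit 533260947869499392)))) (T.h (P (nat_lit 0)) (P (nat_lit 262202542911520768))))) (T.h (T.h (T.h (P (nat_lit 0)) (M (nat_lit 99944006815716474879))) (P (nat_lit 0))) (T.h (T.h (P (nat_lit 0)) (M (nat_lit 8342794656481279))) (P (nat_lit 0))))))), (P (nat_lit 0)), (P (nat_lit 0)), (T.h (T.h (T.h (M (nat_lit 8970997173878140039931440922623)) (T.h (P (nat_lit 0)) (T.h (P (nat_lit 978353580458961784537088)) (T.h (P (nat_lit 0)) (T.h (P (nat_lit 2389887418619658240)) (T.h (P (nat_lit 0)) (M (nat_lit 165424305583)))))))) (T.h (P (nat_lit 0)) (T.h (T.h (P (nat_lit 4809974907341691670233088)) (T.h (P (nat_lit 0)) (T.h (M (nat_lit 15228380118436020223)) (T.h (P (nat_lit 0)) (M (nat_lit 15443532767759)))))) (T.h (P (nat_lit 0)) (T.h (T.h (P (nat_lit 157772246912990183424)) (T.h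 (P (nat_lit 0)) (P (nat_lit 28106565702272)))) (T.h (P (nat_lit 0)) (M (nat_lit 9234645211199)))))))) (T.h (T.h (P (nat_lit 0)) (T.h (T.h (P (nat_lit 0)) (T.h (M (nat_lit 2662948729969270849535)) (T.h (P (nat_lit 0)) (P (nat_lit 13170292645003264))))) (T.h (P (nat_lit 0)) (T.h (T.h (P (nat_lit 0)) (P (nat_lit 107255350181560320))) (P (nat_lit 0)))))) (T.h (T.h (T.h (P (nat_lit 978353580458961784537088)) (T.h (P (nat_lit 0)) (T.h (M (nat_lit 13135542799900344319)) (T.h (P (nat_lit 0)) (M (nat_lit 4239509951935)))))) (T.h (P (nat_lit 0)) (T.h (T.h (M (nat_lit 15228380118436020223)) (T.h (P (nat_lit 0)) (P (nat_lit 35413500645568)))) (T.h (P (nat_lit 0)) (P (nat_lit 28106565702272)))))) (T.h (T.h (P (nat_lit 0)) (T.h (T.h (P (nat_lit 0)) (P (nat_lit 13170292645003264))) (P (nat_lit 0)))) (T.h (T.h (T.h (P (nat_lit 2389887418619658240)) (T.h (P (nat_lit 0)) (M (nat_lit 4239509951935)))) (T.h (P (nat_lit 0)) (M (nat_lit 15443532767759)))) (T.h (P (nat_lit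 0)) (M (nat_lit 165424305583)))))))), (T.h (T.h (T.h (P (nat_lit 0)) (T.h (P (nat_lit 16157316351655077914389512192)) (T.h (P (nat_lit 0)) (T.h (P (nat_lit 5325104209578101309440)) (T.h (P (nat_lit 0)) (M (nat_lit 29353014219341823))))))) (T.h (P (nat_lit 0)) (T.h (T.h (P (nat_lit 0)) (T.h (M (nat_lit 13429755321487863054335)) (T.h (P (nat_lit 0)) (P (nat_lit 27539627497783296))))) (T.h (P (nat_lit 0)) (T.h (T.h (P (nat_lit 0)) (M (nat_lit 274177761625079807))) (P (nat_lit 0))))))) (T.h (T.h (P (nat_lit 0)) (T.h (T.h (P (nat_lit 11214666536666130125160448)) (T.h (P (nat_lit 0)) (T.h (P (nat_lit 26743036042488578048)) (T.h (P (nat_lit 0)) (M (nat_lit 38000328701999)))))) (T.h (P (nat_lit 0)) (T.h (T.h (P (nat_lit 273829416074412556288)) (T.h (P (nat_lit 0)) (P (nat_lit 63537919357360)))) (T.h (P (nat_lit 0)) (P (nat_lit 649950281733360))))))) (T.h (T.h (T.h (P (nat_lit 0)) (T.h (P (nat_lit 1472349745841981882368)) (T.h (P (nat_lit 0)) (M (nat_lit 23172711675297791)))))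 (T.h (P (nat_lit 0)) (T.h (T.h (P (nat_lit 0)) (M (nat_lit 171041178281050111))) (P (nat_lit 0))))) (T.h (T.h (P (nat_lit 0)) (T.h (T.h (P (nat_lit 16014234136231280640)) (T.h (P (nat_lit 0)) (P (nat_lit 10694443811920)))) (T.h (P (nat_lit 0)) (M (nat_lit 78533988872879))))) (T.h (T.h (T.h (P (nat_lit 0)) (M (nat_lit 7029372037136383))) (P (nat_lit 0))) (T.h (T.h (P (nat_lit 0)) (M (nat_lit 6700780526239))) (P (nat_lit 0)))))))), (T.h (T.h (T.h (P (nat_lit 648354378398368560434359828480)) (T.h (P (nat_lit 0)) (T.h (P (nat_lit 6029595519567029736570880)) (T.h (P (nat_lit 0)) (T.h (P (nat_lit 22782046953774514176)) (T.h (P (nat_lit 0)) (P (nat_lit 1586148909312)))))))) (T.h (P (nat_lit 0)) (T.h (T.h (P (nat_lit 7052920268108960389660672)) (T.h (P (nat_lit 0)) (T.h (M (nat_lit 80224259377891115007)) (T.h (P (nat_lit 0)) (P (nat_lit 129681242717312)))))) (T.h (P (nat_lit 0)) (T.h (T.h (P (nat_lit 192230385199957934080)) (T.h (P (nat_lit 0)) (P (nat_lit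 78162321228816)))) (T.h (P (nat_lit 0)) (P (nat_lit 130481994932784)))))))) (T.h (T.h (P (nat_lit 0)) (T.h (T.h (P (nat_lit 0)) (T.h (M (nat_lit 44952741325817528713215)) (T.h (P (nat_lit 0)) (P (nat_lit 134958845215637504))))) (T.h (P (nat_lit 0)) (T.h (T.h (P (nat_lit 0)) (P (nat_lit 150087276435439616))) (P (nat_lit 0)))))) (T.h (T.h (T.h (P (nat_lit 405226602017100610404352)) (T.h (P (nat_lit 0)) (T.h (P (nat_lit 1458250011144880128)) (T.h (P (nat_lit 0)) (M (nat_lit 52667779269951)))))) (T.h (P (nat_lit 0)) (T.h (T.h (P (nat_lit 34010185905997873152)) (T.h (P (nat_lit 0)) (P (nat_lit 109922351265936)))) (T.h (P (nat_lit 0)) (P (nat_lit 33231154151888)))))) (T.h (T.h (P (nat_lit 0)) (T.h (T.h (P (nat_lit 0)) (M (nat_lit 36359330566864895))) (P (nat_lit 0)))) (T.h (T.h (T.h (M (nat_lit 5430699604901363711)) (T.h (P (nat_lit 0)) (M (nat_lit 49126568938831)))) (T.h (P (nat_lit 0)) (M (nat_lit 17832029004943)))) (T.h (P (nat_lit 0)) (P (nat_lit 3821769693456)))))))),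 (T.h (T.h (T.h (P (nat_lit 0)) (T.h (P (nat_lit 9479945226855203678944493568)) (T.h (P (nat_lit 0)) (T.h (M (nat_lit 8055960460481364230143)) (T.h (P (nat_lit 0)) (M (nat_lit 3604578148319231))))))) (T.h (P (nat_lit 0)) (T.h (T.h (P (nat_lit 0)) (T.h (M (nat_lit 252405377024740638588927)) (T.h (P (nat_lit 0)) (M (nat_lit 73784448161644543))))) (T.h (P (nat_lit 0)) (T.h (T.h (P (nat_lit 0)) (P (nat_lit 158948710125174784))) (P (nat_lit 0))))))) (T.h (T.h (P (nat_lit 0)) (T.h (T.h (P (nat_lit 68480659706341009634885632)) (T.h (P (nat_lit 0)) (P (nat_lit 28561419631895511040)))) (T.h (P (nat_lit 0)) (M (nat_lit 76622548805082939391))))) (T.h (T.h (T.h (P (nat_lit 0)) (T.h (M (nat_lit 15229871120192928481279)) (T.h (P (nat_lit 0)) (P (nat_lit 67886065340547072))))) (T.h (P (nat_lit 0)) (T.h (T.h (P (nat_lit 0)) (P (nat_lit 48863964941058048))) (P (nat_lit 0))))) (T.h (T.h (P (nat_lit 0)) (P (nat_lit 11930534835996590080))) (T.h (T.h (T.h (P (nat_lit 0))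 (P (nat_lit 27031974620561408))) (P (nat_lit 0))) (P (nat_lit 0)))))))]
def lQm_8 : List (T ℤ) := [(P (nat_lit 0)), (P (nat_lit 0)), (T.h (T.h (P (nat_lit 0)) (T.h (T.h (M (nat_lit 4596200364159134283318951935)) (T.h (P (nat_lit 0)) (T.h (P (nat_lit 8278749748978604048384)) (T.h (P (nat_lit 0)) (M (nat_lit 5455506261671935)))))) (T.h (P (nat_lit 0)) (T.h (T.h (M (nat_lit 15703917169784586764287)) (T.h (P (nat_lit 0)) (M (nat_lit 34950437389729791)))) (T.h (P (nat_lit 0)) (P (nat_lit 21714547579813888))))))) (T.h (T.h (T.h (P (nat_lit 0)) (T.h (P (nat_lit 216187792611341833863168)) (T.h (P (nat_lit 0)) (T.h (P (nat_lit 3961292155565113344)) (T.h (P (nat_lit 0)) (M (nat_lit 3155819464559))))))) (T.h (P (nat_lit 0)) (T.h (T.h (P (nat_lit 0)) (T.h (P (nat_lit 16369758572956876800)) (T.h (P (nat_lit 0)) (P (nat_lit 13710230630080))))) (T.h (P (nat_lit 0)) (T.h (T.h (P (nat_lit 0)) (P (nat_lit 53858954616320))) (P (nat_lit 0))))))) (T.h (T.h (P (nat_lit 0))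 (T.h (T.h (P (nat_lit 8278749748978604048384)) (T.h (P (nat_lit 0)) (M (nat_lit 56948847809921023)))) (T.h (P (nat_lit 0)) (M (nat_lit 34950437389729791))))) (T.h (T.h (T.h (P (nat_lit 0)) (T.h (P (nat_lit 3961292155565113344)) (T.h (P (nat_lit 0)) (M (nat_lit 13201214689439))))) (T.h (P (nat_lit 0)) (T.h (T.h (P (nat_lit 0)) (P (nat_lit 13710230630080))) (P (nat_lit 0))))) (T.h (T.h (P (nat_lit 0)) (M (nat_lit 5455506261671935))) (T.h (T.h (T.h (P (nat_lit 0)) (M (nat_lit 3155819464559))) (P (nat_lit 0))) (P (nat_lit 0)))))))), (T.h (T.h (P (nat_lit 0)) (T.h (T.h (P (nat_lit 0)) (T.h (P (nat_lit 24061905069947047567687680)) (T.h (P (nat_lit 0)) (T.h (P (nat_lit 50873018507107237888)) (T.h (P (nat_lit 0)) (M (nat_lit 6662556455103))))))) (T.h (P (nat_lit 0)) (T.h (T.h (P (nat_lit 0)) (T.h (P (nat_lit 83946722356541521920)) (T.h (P (nat_lit 0)) (P (nat_lit 847315013424))))) (T.h (P (nat_lit 0)) (T.h (T.h (P (nat_lit 0)) (M (nat_lit 430642633814447)))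 (P (nat_lit 0)))))))) (T.h (T.h (T.h (M (nat_lit 1468683830756010962882396159)) (T.h (P (nat_lit 0)) (T.h (M (nat_lit 2152802899987471007743)) (T.h (P (nat_lit 0)) (M (nat_lit 4140057265930239)))))) (T.h (P (nat_lit 0)) (T.h (T.h (M (nat_lit 14144146517207239622655)) (T.h (P (nat_lit 0)) (P (nat_lit 7918000311222272)))) (T.h (P (nat_lit 0)) (M (nat_lit 486616909737345023)))))) (T.h (T.h (P (nat_lit 0)) (T.h (T.h (P (nat_lit 0)) (T.h (P (nat_lit 40906388900327456768)) (T.h (P (nat_lit 0)) (P (nat_lit 238877194160))))) (T.h (P (nat_lit 0)) (T.h (T.h (P (nat_lit 0)) (M (nat_lit 64739948756207))) (P (nat_lit 0)))))) (T.h (T.h (T.h (M (nat_lit 4805245990692022386687)) (T.h (P (nat_lit 0)) (P (nat_lit 13742695469957120)))) (T.h (P (nat_lit 0)) (P (nat_lit 131025791878840320)))) (T.h (T.h (P (nat_lit 0)) (T.h (T.h (P (nat_lit 0)) (P (nat_lit 37730281781984))) (P (nat_lit 0)))) (P (nat_lit 2598847362711552))))))), (T.h (T.h (P (nat_lit 0)) (T.h (T.h (P (nat_lit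 3166846873336167602856132608)) (T.h (P (nat_lit 0)) (T.h (P (nat_lit 54548994911447583555584)) (T.h (P (nat_lit 0)) (M (nat_lit 42086344733622271)))))) (T.h (P (nat_lit 0)) (T.h (T.h (M (nat_lit 14344602706940511911935)) (T.h (P (nat_lit 0)) (M (nat_lit 58682876268085247)))) (T.h (P (nat_lit 0)) (M (nat_lit 65582421789278207))))))) (T.h (T.h (T.h (P (nat_lit 0)) (T.h (P (nat_lit 9767776142240778154934272)) (T.h (P (nat_lit 0)) (M (nat_lit 181177798486917119))))) (T.h (P (nat_lit 0)) (T.h (T.h (P (nat_lit 0)) (M (nat_lit 145672624222347722751))) (P (nat_lit 0))))) (T.h (T.h (P (nat_lit 0)) (T.h (T.h (P (nat_lit 35266817870928178839552)) (T.h (P (nat_lit 0)) (M (nat_lit 41064510206017535)))) (T.h (P (nat_lit 0)) (M (nat_lit 12694745432686591))))) (T.h (T.h (T.h (P (nat_lit 0)) (P (nat_lit 11252920928419446784))) (P (nat_lit 0))) (T.h (T.h (P (nat_lit 0)) (M (nat_lit 384693298659327))) (P (nat_lit 0))))))), (P (nat_lit 0)), (P (nat_lit 0)), (T.h (T.h (T.h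 (P (nat_lit 3948621279540221083939168583680)) (T.h (P (nat_lit 0)) (T.h (M (nat_lit 674436486761574870024191)) (T.h (P (nat_lit 0)) (T.h (M (nat_lit 1077428141279936511)) (T.h (P (nat_lit 0)) (P (nat_lit 742147470768)))))))) (T.h (P (nat_lit 0)) (T.h (T.h (M (nat_lit 3553202741703086916501503)) (T.h (P (nat_lit 0)) (T.h (M (nat_lit 5355990087802814463)) (T.h (P (nat_lit 0)) (P (nat_lit 12342157505568)))))) (T.h (P (nat_lit 0)) (T.h (T.h (M (nat_lit 176895427923450789887)) (T.h (P (nat_lit 0)) (M (nat_lit 56118708733823)))) (T.h (P (nat_lit 0)) (P (nat_lit 14511582942912)))))))) (T.h (T.h (P (nat_lit 0)) (T.h (T.h (P (nat_lit 0)) (T.h (M (nat_lit 13285698098565511905279)) (T.h (P (nat_lit 0)) (M (nat_lit 4307079362576383))))) (T.h (P (nat_lit 0)) (T.h (T.h (P (nat_lit 0)) (M (nat_lit 121986559857917951))) (P (nat_lit 0)))))) (T.h (T.h (T.h (M (nat_lit 674436486761574870024191)) (T.h (P (nat_lit 0)) (T.h (P (nat_lit 7703816849347051520)) (T.h (P (nat_lit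 0)) (P (nat_lit 7551023902224)))))) (T.h (P (nat_lit 0)) (T.h (T.h (M (nat_lit 5355990087802814463)) (T.h (P (nat_lit 0)) (M (nat_lit 55649786596799)))) (T.h (P (nat_lit 0)) (M (nat_lit 56118708733823)))))) (T.h (T.h (P (nat_lit 0)) (T.h (T.h (P (nat_lit 0)) (M (nat_lit 4307079362576383))) (P (nat_lit 0)))) (T.h (T.h (T.h (M (nat_lit 1077428141279936511)) (T.h (P (nat_lit 0)) (P (nat_lit 7551023902224)))) (T.h (P (nat_lit 0)) (P (nat_lit 12342157505568)))) (T.h (P (nat_lit 0)) (P (nat_lit 742147470768))))))))]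
def lQm_9 : List (T ℤ) := [(T.h (T.h (T.h (P (nat_lit 0)) (T.h (M (nat_lit 3849283284899336926831575039)) (T.h (P (nat_lit 0)) (T.h (M (nat_lit 2169209033493156200447)) (T.h (P (nat_lit 0)) (P (nat_lit 411400681750528))))))) (T.h (P (nat_lit 0)) (T.h (T.h (P (nat_lit 0)) (T.h (M (nat_lit 7915433807328952975359)) (T.h (P (nat_lit 0)) (M (nat_lit 9664805248008191))))) (T.h (P (nat_lit 0)) (T.h (T.h (P (nat_lit 0)) (P (nat_lit 421785709203062784))) (P (nat_lit 0))))))) (T.h (T.h (P (nat_lit 0)) (T.h (T.h (M (nat_lit 8685767576524368306503679)) (T.h (P (nat_lit 0)) (M (nat_lit 21352153951422644223)))) (T.h (P (nat_lit 0)) (M (nat_lit 126973145165437337599))))) (T.h (T.h (T.h (P (nat_lit 0)) (T.h (M (nat_lit 318127756473987497983)) (T.h (P (nat_lit 0)) (M (nat_lit 5667928027332607))))) (T.h (P (nat_lit 0)) (T.h (T.h (P (nat_lit 0)) (P (nat_lit 56882161005330432))) (P (nat_lit 0))))) (T.h (T.h (P (nat_lit 0)) (M (nat_lit 32111403715541336063))) (T.h (T.h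 (T.h (P (nat_lit 0)) (M (nat_lit 9836419181182975))) (P (nat_lit 0))) (P (nat_lit 0))))))), (P (nat_lit 0)), (P (nat_lit 0)), (T.h (T.h (P (nat_lit 0)) (T.h (T.h (M (nat_lit 5897302073599640136660811775)) (T.h (P (nat_lit 0)) (T.h (M (nat_lit 5209847404018203099135)) (T.h (P (nat_lit 0)) (M (nat_lit 4595770649346047)))))) (T.h (P (nat_lit 0)) (T.h (T.h (P (nat_lit 38739346812376056856576)) (T.h (P (nat_lit 0)) (P (nat_lit 41793132904316928)))) (T.h (P (nat_lit 0)) (M (nat_lit 16210757382045695))))))) (T.h (T.h (T.h (P (nat_lit 0)) (T.h (P (nat_lit 386661090139917950910464)) (T.h (P (nat_lit 0)) (M (nat_lit 243643318179725311))))) (T.h (P (nat_lit 0)) (T.h (T.h (P (nat_lit 0)) (P (nat_lit 43491311747944415232))) (P (nat_lit 0))))) (T.h (T.h (P (nat_lit 0)) (T.h (T.h (M (nat_lit 5209847404018203099135)) (T.h (P (nat_lit 0)) (P (nat_lit 20721956900044800)))) (T.h (P (nat_lit 0)) (P (nat_lit 41793132904316928))))) (T.h (T.h (T.h (P (nat_lit 0)) (M (nat_lit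 243643318179725311))) (P (nat_lit 0))) (T.h (T.h (P (nat_lit 0)) (M (nat_lit 4595770649346047))) (P (nat_lit 0))))))), (P (nat_lit 0)), (P (nat_lit 0)), (P (nat_lit 0)), (P (nat_lit 0))]
def lQm_10 : List (T ℤ) := [(P (nat_lit 0)), (T.h (T.h (P (nat_lit 0)) (T.h (T.h (P (nat_lit 0)) (T.h (M (nat_lit 1857953842829409745108991)) (T.h (P (nat_lit 0)) (T.h (M (nat_lit 8107869170617548799)) (T.h (P (nat_lit 0)) (M (nat_lit 62471784628983))))))) (T.h (P (nat_lit 0)) (T.h (T.h (P (nat_lit 0)) (T.h (M (nat_lit 5207521057891680255)) (T.h (P (nat_lit 0)) (P (nat_lit 13168855558336))))) (T.h (P (nat_lit 0)) (T.h (T.h (P (nat_lit 0)) (P (nat_lit 7889238589568))) (P (nat_lit 0)))))))) (T.h (T.h (T.h (M (nat_lit 12794100345879409982347149311)) (T.h (P (nat_lit 0)) (T.h (P (nat_lit 495899353916857384960)) (T.h (P (nat_lit 0)) (P (nat_lit 38793684289617920)))))) (T.h (P (nat_lit 0)) (T.h (T.h (M (nat_lit 1358226987020332302335)) (T.h (P (nat_lit 0)) (P (nat_lit 4763249007394816))))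 (T.h (P (nat_lit 0)) (P (nat_lit 108913887543296)))))) (T.h (T.h (P (nat_lit 0)) (T.h (T.h (P (nat_lit 0)) (T.h (P (nat_lit 593274009924141056)) (T.h (P (nat_lit 0)) (M (nat_lit 13916663262255))))) (T.h (P (nat_lit 0)) (T.h (T.h (P (nat_lit 0)) (P (nat_lit 1495307379448))) (P (nat_lit 0)))))) (T.h (T.h (T.h (P (nat_lit 1384689428146249793536)) (T.h (P (nat_lit 0)) (P (nat_lit 10798372299145216)))) (T.h (P (nat_lit 0)) (P (nat_lit 132703734923264)))) (T.h (T.h (P (nat_lit 0)) (T.h (T.h (P (nat_lit 0)) (P (nat_lit 8435143216096))) (P (nat_lit 0)))) (P (nat_lit 12294808850366464))))))), (T.h (T.h (P (nat_lit 0)) (T.h (T.h (P (nat_lit 226318629704904614210437120)) (T.h (P (nat_lit 0)) (T.h (P (nat_lit 13548174235352948539392)) (T.h (P (nat_lit 0)) (P (nat_lit 148610963780747264)))))) (T.h (P (nat_lit 0)) (T.h (T.h (P (nat_lit 766451334615954096128)) (T.h (P (nat_lit 0)) (P (nat_lit 1936205404995584)))) (T.h (P (nat_lit 0)) (M (nat_lit 2974749091381247)))))))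 (T.h (T.h (T.h (P (nat_lit 0)) (T.h (P (nat_lit 5760110150759249130553344)) (T.h (P (nat_lit 0)) (T.h (M (nat_lit 155560528027376943103)) (T.h (P (nat_lit 0)) (P (nat_lit 126624751875824))))))) (T.h (P (nat_lit 0)) (T.h (T.h (P (nat_lit 0)) (T.h (P (nat_lit 4478360613369675776)) (T.h (P (nat_lit 0)) (P (nat_lit 20853968390928))))) (T.h (P (nat_lit 0)) (T.h (T.h (P (nat_lit 0)) (M (nat_lit 14115448294655))) (P (nat_lit 0))))))) (T.h (T.h (P (nat_lit 0)) (T.h (T.h (P (nat_lit 6115334825654234382336)) (T.h (P (nat_lit 0)) (P (nat_lit 11298605499367424)))) (T.h (P (nat_lit 0)) (P (nat_lit 18148605108125696))))) (T.h (T.h (T.h (P (nat_lit 0)) (T.h (M (nat_lit 44187288449497169919)) (T.h (P (nat_lit 0)) (M (nat_lit 29896136530671))))) (T.h (P (nat_lit 0)) (T.h (T.h (P (nat_lit 0)) (M (nat_lit 4256921589567))) (P (nat_lit 0))))) (T.h (T.h (P (nat_lit 0)) (P (nat_lit 13485241803522048))) (T.h (T.h (T.h (P (nat_lit 0)) (P (nat_lit 7351350546784))) (P (nat_lit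 0))) (P (nat_lit 0)))))))), (T.h (T.h (P (nat_lit 0)) (T.h (T.h (P (nat_lit 0)) (T.h (P (nat_lit 11214666536666130125160448)) (T.h (P (nat_lit 0)) (T.h (P (nat_lit 273829416074412556288)) (T.h (P (nat_lit 0)) (P (nat_lit 649950281733360))))))) (T.h (P (nat_lit 0)) (T.h (T.h (P (nat_lit 0)) (T.h (P (nat_lit 16014234136231280640)) (T.h (P (nat_lit 0)) (M (nat_lit 78533988872879))))) (T.h (P (nat_lit 0)) (T.h (T.h (P (nat_lit 0)) (M (nat_lit 6700780526239))) (P (nat_lit 0)))))))) (T.h (T.h (T.h (P (nat_lit 16157316351655077914389512192)) (T.h (P (nat_lit 0)) (T.h (M (nat_lit 13429755321487863054335)) (T.h (P (nat_lit 0)) (M (nat_lit 274177761625079807)))))) (T.h (P (nat_lit 0)) (T.h (T.h (P (nat_lit 1472349745841981882368)) (T.h (P (nat_lit 0)) (M (nat_lit 171041178281050111)))) (T.h (P (nat_lit 0)) (M (nat_lit 7029372037136383)))))) (T.h (T.h (P (nat_lit 0)) (T.h (T.h (P (nat_lit 0)) (T.h (P (nat_lit 26743036042488578048)) (T.h (P (nat_lit 0)) (P (nat_lit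 63537919357360))))) (T.h (P (nat_lit 0)) (T.h (T.h (P (nat_lit 0)) (P (nat_lit 10694443811920))) (P (nat_lit 0)))))) (T.h (T.h (T.h (P (nat_lit 5325104209578101309440)) (T.h (P (nat_lit 0)) (P (nat_lit 27539627497783296)))) (T.h (P (nat_lit 0)) (M (nat_lit 23172711675297791)))) (T.h (T.h (P (nat_lit 0)) (T.h (T.h (P (nat_lit 0)) (M (nat_lit 38000328701999))) (P (nat_lit 0)))) (M (nat_lit 29353014219341823))))))), (T.h (T.h (P (nat_lit 0)) (T.h (T.h (M (nat_lit 1468683830756010962882396159)) (T.h (P (nat_lit 0)) (T.h (M (nat_lit 14144146517207239622655)) (T.h (P (nat_lit 0)) (M (nat_lit 486616909737345023)))))) (T.h (P (nat_lit 0)) (T.h (T.h (M (nat_lit 4805245990692022386687)) (T.h (P (nat_lit 0)) (P (nat_lit 131025791878840320)))) (T.h (P (nat_lit 0)) (P (nat_lit 2598847362711552))))))) (T.h (T.h (T.h (P (nat_lit 0)) (T.h (P (nat_lit 24061905069947047567687680)) (T.h (P (nat_lit 0)) (T.h (P (nat_lit 83946722356541521920)) (T.h (P (nat_lit 0)) (M (nat_lit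 430642633814447))))))) (T.h (P (nat_lit 0)) (T.h (T.h (P (nat_lit 0)) (T.h (P (nat_lit 40906388900327456768)) (T.h (P (nat_lit 0)) (M (nat_lit 64739948756207))))) (T.h (P (nat_lit 0)) (T.h (T.h (P (nat_lit 0)) (P (nat_lit 37730281781984))) (P (nat_lit 0))))))) (T.h (T.h (P (nat_lit 0)) (T.h (T.h (M (nat_lit 2152802899987471007743)) (T.h (P (nat_lit 0)) (P (nat_lit 7918000311222272)))) (T.h (P (nat_lit 0)) (P (nat_lit 13742695469957120))))) (T.h (T.h (T.h (P (nat_lit 0)) (T.h (P (nat_lit 50873018507107237888)) (T.h (P (nat_lit 0)) (P (nat_lit 847315013424))))) (T.h (P (nat_lit 0)) (T.h (T.h (P (nat_lit 0)) (P (nat_lit 238877194160))) (P (nat_lit 0))))) (T.h (T.h (P (nat_lit 0)) (M (nat_lit 4140057265930239))) (T.h (T.h (T.h (P (nat_lit 0)) (M (nat_lit 6662556455103))) (P (nat_lit 0))) (P (nat_lit 0)))))))), (T.h (T.h (P (nat_lit 0)) (T.h (T.h (P (nat_lit 0)) (T.h (M (nat_lit 8685767576524368306503679)) (T.h (P (nat_lit 0)) (M (nat_lit 126973145165437337599)))))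 (T.h (P (nat_lit 0)) (T.h (T.h (P (nat_lit 0)) (M (nat_lit 32111403715541336063))) (P (nat_lit 0)))))) (T.h (T.h (T.h (M (nat_lit 3849283284899336926831575039)) (T.h (P (nat_lit 0)) (T.h (M (nat_lit 7915433807328952975359)) (T.h (P (nat_lit 0)) (P (nat_lit 421785709203062784)))))) (T.h (P (nat_lit 0)) (T.h (T.h (M (nat_lit 318127756473987497983)) (T.h (P (nat_lit 0)) (P (nat_lit 56882161005330432)))) (T.h (P (nat_lit 0)) (M (nat_lit 9836419181182975)))))) (T.h (T.h (P (nat_lit 0)) (T.h (T.h (P (nat_lit 0)) (M (nat_lit 21352153951422644223))) (P (nat_lit 0)))) (T.h (T.h (T.h (M (nat_lit 2169209033493156200447)) (T.h (P (nat_lit 0)) (M (nat_lit 9664805248008191)))) (T.h (P (nat_lit 0)) (M (nat_lit 5667928027332607)))) (T.h (P (nat_lit 0)) (P (nat_lit 411400681750528))))))), (P (nat_lit 0)), (P (nat_lit 0))]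
def lQm_11 : List (T ℤ) := [(T.h (T.h (T.h (P (nat_lit 1807427213973969121941494169600)) (T.h (P (nat_lit 0)) (T.h (M (nat_lit 6160842414801612932382719)) (T.h (P (nat_lit 0)) (T.h (P (nat_lit 22231608460203524096)) (T.h (P (nat_lit 0)) (P (nat_lit 6013664591648)))))))) (T.h (P (nat_lit 0)) (T.h (T.h (M (nat_lit 8092536662202114245656575)) (T.h (P (nat_lit 0)) (T.h (M (nat_lit 1170152927893913599)) (T.h (P (nat_lit 0)) (P (nat_lit 89708038750208)))))) (T.h (P (nat_lit 0)) (T.h (T.h (P (nat_lit 2062319634303942656)) (T.h (P (nat_lit 0)) (M (nat_lit 59823184640879)))) (T.h (P (nat_lit 0)) (M (nat_lit 13405914314463)))))))) (T.h (T.h (P (nat_lit 0)) (T.h (T.h (P (nat_lit 0)) (T.h (P (nat_lit 974192166565486526464)) (T.h (P (nat_lit 0)) (P (nat_lit 75502955984846848))))) (T.h (P (nat_lit 0)) (T.h (T.h (P (nat_lit 0)) (P (nat_lit 15505712372383744))) (P (nat_lit 0)))))) (T.h (T.h (T.h (M (nat_lit 8092536662202114245656575)) (T.h (P (nat_lit 0)) (T.h (M (nat_lit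 1170152927893913599)) (T.h (P (nat_lit 0)) (P (nat_lit 89708038750208)))))) (T.h (P (nat_lit 0)) (T.h (T.h (P (nat_lit 540505362181128192)) (T.h (P (nat_lit 0)) (M (nat_lit 38999358614879)))) (T.h (P (nat_lit 0)) (P (nat_lit 4223076310864)))))) (T.h (T.h (P (nat_lit 0)) (T.h (T.h (P (nat_lit 0)) (P (nat_lit 15505712372383744))) (P (nat_lit 0)))) (T.h (T.h (T.h (P (nat_lit 2062319634303942656)) (T.h (P (nat_lit 0)) (M (nat_lit 59823184640879)))) (T.h (P (nat_lit 0)) (P (nat_lit 4223076310864)))) (T.h (P (nat_lit 0)) (M (nat_lit 13405914314463)))))))), (T.h (T.h (T.h (P (nat_lit 0)) (T.h (P (nat_lit 22778679047823241513898344448)) (T.h (P (nat_lit 0)) (T.h (M (nat_lit 103945883092789225324543)) (T.h (P (nat_lit 0)) (P (nat_lit 67245607427866624))))))) (T.h (P (nat_lit 0)) (T.h (T.h (P (nat_lit 0)) (T.h (P (nat_lit 16637201450160661463040)) (T.h (P (nat_lit 0)) (M (nat_lit 56333667256090623))))) (T.h (P (nat_lit 0)) (T.h (T.h (P (nat_lit 0)) (M (nat_lit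 52018046610030591))) (P (nat_lit 0))))))) (T.h (T.h (P (nat_lit 0)) (T.h (T.h (M (nat_lit 6317920619929703964213247)) (T.h (P (nat_lit 0)) (T.h (M (nat_lit 162904376799993528319)) (T.h (P (nat_lit 0)) (M (nat_lit 216448194887871)))))) (T.h (P (nat_lit 0)) (T.h (T.h (P (nat_lit 31644833031112359936)) (T.h (P (nat_lit 0)) (P (nat_lit 13668783183072)))) (T.h (P (nat_lit 0)) (M (nat_lit 9359451847407))))))) (T.h (T.h (T.h (P (nat_lit 0)) (T.h (P (nat_lit 16637201450160661463040)) (T.h (P (nat_lit 0)) (M (nat_lit 56333667256090623))))) (T.h (P (nat_lit 0)) (T.h (T.h (P (nat_lit 0)) (P (nat_lit 108384944355377152))) (P (nat_lit 0))))) (T.h (T.h (P (nat_lit 0)) (T.h (T.h (P (nat_lit 31644833031112359936)) (T.h (P (nat_lit 0)) (P (nat_lit 13668783183072)))) (T.h (P (nat_lit 0)) (M (nat_lit 9080975901567))))) (T.h (T.h (T.h (P (nat_lit 0)) (M (nat_lit 52018046610030591))) (P (nat_lit 0))) (T.h (T.h (P (nat_lit 0)) (M (nat_lit 9359451847407))) (P (nat_lit 0)))))))),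 (T.h (T.h (T.h (M (nat_lit 6081048895083401288390784581631)) (T.h (P (nat_lit 0)) (T.h (P (nat_lit 108437855115324437412446208)) (T.h (P (nat_lit 0)) (T.h (P (nat_lit 101942302530837938176)) (T.h (P (nat_lit 0)) (P (nat_lit 324870464918400)))))))) (T.h (P (nat_lit 0)) (T.h (T.h (P (nat_lit 19483869153050037778907136)) (T.h (P (nat_lit 0)) (T.h (P (nat_lit 101090038753620131840)) (T.h (P (nat_lit 0)) (M (nat_lit 31525620239919)))))) (T.h (P (nat_lit 0)) (T.h (T.h (M (nat_lit 29005607260221603839)) (T.h (P (nat_lit 0)) (M (nat_lit 109348784641439)))) (T.h (P (nat_lit 0)) (P (nat_lit 41982303589840)))))))) (T.h (T.h (P (nat_lit 0)) (T.h (T.h (P (nat_lit 0)) (T.h (P (nat_lit 71402954464064150962176)) (T.h (P (nat_lit 0)) (P (nat_lit 160309572647387136))))) (T.h (P (nat_lit 0)) (T.h (T.h (P (nat_lit 0)) (M (nat_lit 97011076799922175))) (P (nat_lit 0)))))) (T.h (T.h (T.h (P (nat_lit 19483869153050037778907136)) (T.h (P (nat_lit 0)) (T.h (P (nat_lit 101090038753620131840))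 (T.h (P (nat_lit 0)) (M (nat_lit 31525620239919)))))) (T.h (P (nat_lit 0)) (T.h (T.h (M (nat_lit 21029657652544667647)) (T.h (P (nat_lit 0)) (P (nat_lit 237646975361600)))) (T.h (P (nat_lit 0)) (P (nat_lit 61431585420320)))))) (T.h (T.h (P (nat_lit 0)) (T.h (T.h (P (nat_lit 0)) (M (nat_lit 97011076799922175))) (P (nat_lit 0)))) (T.h (T.h (T.h (M (nat_lit 29005607260221603839)) (T.h (P (nat_lit 0)) (M (nat_lit 109348784641439)))) (T.h (P (nat_lit 0)) (P (nat_lit 61431585420320)))) (T.h (P (nat_lit 0)) (P (nat_lit 41982303589840)))))))), (T.h (T.h (T.h (P (nat_lit 0)) (T.h (M (nat_lit 88476704524665135652308779007)) (T.h (P (nat_lit 0)) (T.h (M (nat_lit 98649202954236063645695)) (T.h (P (nat_lit 0)) (M (nat_lit 732502817971994623))))))) (T.h (P (nat_lit 0)) (T.h (T.h (P (nat_lit 0)) (T.h (M (nat_lit 62360555743963334574079)) (T.h (P (nat_lit 0)) (P (nat_lit 43458579367362560))))) (T.h (P (nat_lit 0)) (T.h (T.h (P (nat_lit 0)) (P (nat_lit 18997831817314304)))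 (P (nat_lit 0))))))) (T.h (T.h (P (nat_lit 0)) (T.h (T.h (M (nat_lit 11630828762409913171312639)) (T.h (P (nat_lit 0)) (T.h (P (nat_lit 678278750592739311616)) (T.h (P (nat_lit 0)) (M (nat_lit 170370273170943)))))) (T.h (P (nat_lit 0)) (T.h (T.h (M (nat_lit 6560148199749713919)) (T.h (P (nat_lit 0)) (M (nat_lit 232315348433871)))) (T.h (P (nat_lit 0)) (M (nat_lit 53103933012239))))))) (T.h (T.h (T.h (P (nat_lit 0)) (T.h (M (nat_lit 62360555743963334574079)) (T.h (P (nat_lit 0)) (P (nat_lit 43458579367362560))))) (T.h (P (nat_lit 0)) (T.h (T.h (P (nat_lit 0)) (M (nat_lit 210565724574416895))) (P (nat_lit 0))))) (T.h (T.h (P (nat_lit 0)) (T.h (T.h (M (nat_lit 6560148199749713919)) (T.h (P (nat_lit 0)) (M (nat_lit 232315348433871)))) (T.h (P (nat_lit 0)) (P (nat_lit 1364867077376))))) (T.h (T.h (T.h (P (nat_lit 0)) (P (nat_lit 18997831817314304))) (P (nat_lit 0))) (T.h (T.h (P (nat_lit 0)) (M (nat_lit 53103933012239))) (P (nat_lit 0)))))))), (T.h (T.h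 (T.h (P (nat_lit 6680708591493659502204118106112)) (T.h (P (nat_lit 0)) (T.h (M (nat_lit 2149890956194024676917247)) (T.h (P (nat_lit 0)) (M (nat_lit 8287550168841060351)))))) (T.h (P (nat_lit 0)) (T.h (T.h (P (nat_lit 3152629237428887272554496)) (T.h (P (nat_lit 0)) (M (nat_lit 48278542870674145279)))) (T.h (P (nat_lit 0)) (P (nat_lit 9809641144634572800)))))) (T.h (T.h (P (nat_lit 0)) (T.h (T.h (P (nat_lit 0)) (T.h (M (nat_lit 65334891981411134210047)) (T.h (P (nat_lit 0)) (P (nat_lit 175092994366111744))))) (T.h (P (nat_lit 0)) (T.h (T.h (P (nat_lit 0)) (P (nat_lit 58318068894531584))) (P (nat_lit 0)))))) (T.h (T.h (T.h (P (nat_lit 3152629237428887272554496)) (T.h (P (nat_lit 0)) (M (nat_lit 48278542870674145279)))) (T.h (P (nat_lit 0)) (P (nat_lit 9895869601147781120)))) (T.h (T.h (P (nat_lit 0)) (T.h (T.h (P (nat_lit 0)) (P (nat_lit 58318068894531584))) (P (nat_lit 0)))) (P (nat_lit 9809641144634572800)))))), (P (nat_lit 0)), (P (nat_lit 0)), (T.h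 (T.h (P (nat_lit 0)) (T.h (T.h (P (nat_lit 0)) (T.h (M (nat_lit 16689975229306857561522175)) (T.h (P (nat_lit 0)) (T.h (P (nat_lit 69817159720112226304)) (T.h (P (nat_lit 0)) (P (nat_lit 380826871142320))))))) (T.h (P (nat_lit 0)) (T.h (T.h (P (nat_lit 0)) (T.h (M (nat_lit 365066461145726975)) (T.h (P (nat_lit 0)) (M (nat_lit 382192262736495))))) (T.h (P (nat_lit 0)) (T.h (T.h (P (nat_lit 0)) (M (nat_lit 26716995752967))) (P (nat_lit 0)))))))) (T.h (T.h (T.h (M (nat_lit 14749881374374213291704582143)) (T.h (P (nat_lit 0)) (T.h (M (nat_lit 45578621915765286109183)) (T.h (P (nat_lit 0)) (M (nat_lit 82368393406119935)))))) (T.h (P (nat_lit 0)) (T.h (T.h (P (nat_lit 11789734253094215090176)) (T.h (P (nat_lit 0)) (P (nat_lit 192862439883210752)))) (T.h (P (nat_lit 0)) (M (nat_lit 3093658246119423)))))) (T.h (T.h (P (nat_lit 0)) (T.h (T.h (P (nat_lit 0)) (T.h (P (nat_lit 162779457600087916544)) (T.h (P (nat_lit 0)) (M (nat_lit 194229106012303))))) (T.h (P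 (nat_lit 0)) (T.h (T.h (P (nat_lit 0)) (M (nat_lit 62213392378343))) (P (nat_lit 0)))))) (T.h (T.h (T.h (M (nat_lit 23967263814739944275967)) (T.h (P (nat_lit 0)) (M (nat_lit 73661871872507903)))) (T.h (P (nat_lit 0)) (M (nat_lit 8725983411961855)))) (T.h (T.h (P (nat_lit 0)) (T.h (T.h (P (nat_lit 0)) (M (nat_lit 168625746219079))) (P (nat_lit 0)))) (P (nat_lit 15704723851444224)))))))]
def lQm_12 : List (T ℤ) := [(T.h (T.h (P (nat_lit 0)) (T.h (T.h (M (nat_lit 16673976384456745519977332735)) (T.h (P (nat_lit 0)) (T.h (M (nat_lit 276038670265591703535615)) (T.h (P (nat_lit 0)) (M (nat_lit 147136834461990911)))))) (T.h (P (nat_lit 0)) (T.h (T.h (P (nat_lit 21987762614248631435264)) (T.h (P (nat_lit 0)) (P (nat_lit 432994986391224320)))) (T.h (P (nat_lit 0)) (M (nat_lit 5203831536091135))))))) (T.h (T.h (T.h (P (nat_lit 0)) (T.h (P (nat_lit 139046393886373083755839488)) (T.h (P (nat_lit 0)) (T.h (P (nat_lit 317902782325436973056)) (T.h (P (nat_lit 0))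 (M (nat_lit 72084300084943))))))) (T.h (P (nat_lit 0)) (T.h (T.h (P (nat_lit 0)) (T.h (P (nat_lit 49455307798848995328)) (T.h (P (nat_lit 0)) (M (nat_lit 75934935373951))))) (T.h (P (nat_lit 0)) (T.h (T.h (P (nat_lit 0)) (P (nat_lit 4164924265456))) (P (nat_lit 0))))))) (T.h (T.h (P (nat_lit 0)) (T.h (T.h (M (nat_lit 636810433992612380671)) (T.h (P (nat_lit 0)) (P (nat_lit 280027309767213056)))) (T.h (P (nat_lit 0)) (M (nat_lit 92686055715602431))))) (T.h (T.h (T.h (P (nat_lit 0)) (T.h (P (nat_lit 4517300243741540352)) (T.h (P (nat_lit 0)) (P (nat_lit 6711510549152))))) (T.h (P (nat_lit 0)) (T.h (T.h (P (nat_lit 0)) (P (nat_lit 16557836531408))) (P (nat_lit 0))))) (T.h (T.h (P (nat_lit 0)) (M (nat_lit 150854767535882239))) (T.h (T.h (T.h (P (nat_lit 0)) (M (nat_lit 34652740068447))) (P (nat_lit 0))) (P (nat_lit 0)))))))), (T.h (T.h (P (nat_lit 0)) (T.h (T.h (P (nat_lit 0)) (T.h (P (nat_lit 21803050347179325362536448)) (T.h (P (nat_lit 0)) (T.h (M (nat_lit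 1399096577830976225279)) (T.h (P (nat_lit 0)) (P (nat_lit 50797908112000))))))) (T.h (P (nat_lit 0)) (T.h (T.h (P (nat_lit 0)) (T.h (P (nat_lit 252614769847746691072)) (T.h (P (nat_lit 0)) (P (nat_lit 711631137030640))))) (T.h (P (nat_lit 0)) (T.h (T.h (P (nat_lit 0)) (P (nat_lit 43199649132080))) (P (nat_lit 0)))))))) (T.h (T.h (T.h (M (nat_lit 49729393334821837117149151231)) (T.h (P (nat_lit 0)) (T.h (P (nat_lit 73843120531193250971648)) (T.h (P (nat_lit 0)) (P (nat_lit 415386975931596800)))))) (T.h (P (nat_lit 0)) (T.h (T.h (P (nat_lit 40371155272180078477312)) (T.h (P (nat_lit 0)) (P (nat_lit 271640997523259392)))) (T.h (P (nat_lit 0)) (P (nat_lit 147024609411497984)))))) (T.h (T.h (P (nat_lit 0)) (T.h (T.h (P (nat_lit 0)) (T.h (M (nat_lit 196772623904814399487)) (T.h (P (nat_lit 0)) (P (nat_lit 441513584918560))))) (T.h (P (nat_lit 0)) (T.h (T.h (P (nat_lit 0)) (M (nat_lit 20503582987039))) (P (nat_lit 0)))))) (T.h (T.h (T.h (P (nat_lit 147949350077792008536064))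 (T.h (P (nat_lit 0)) (P (nat_lit 266648551588659200)))) (T.h (P (nat_lit 0)) (M (nat_lit 10659707077853183)))) (T.h (T.h (P (nat_lit 0)) (T.h (T.h (P (nat_lit 0)) (P (nat_lit 44698048341040))) (P (nat_lit 0)))) (M (nat_lit 39457157562138623))))))), (T.h (T.h (P (nat_lit 0)) (T.h (T.h (M (nat_lit 4917936981971218361554567167)) (T.h (P (nat_lit 0)) (T.h (P (nat_lit 419121629837070438498304)) (T.h (P (nat_lit 0)) (M (nat_lit 2451348865101381631)))))) (T.h (P (nat_lit 0)) (T.h (T.h (M (nat_lit 63985465020640980369407)) (T.h (P (nat_lit 0)) (M (nat_lit 325957275491155967)))) (T.h (P (nat_lit 0)) (M (nat_lit 37867905166016511))))))) (T.h (T.h (T.h (P (nat_lit 0)) (T.h (M (nat_lit 24686943158788964208345087)) (T.h (P (nat_lit 0)) (T.h (P (nat_lit 630235638186064740352)) (T.h (P (nat_lit 0)) (P (nat_lit 323965957366480))))))) (T.h (P (nat_lit 0)) (T.h (T.h (P (nat_lit 0)) (T.h (M (nat_lit 126279138848112902143)) (T.h (P (nat_lit 0)) (P (nat_lit 357255833203280)))))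 (T.h (P (nat_lit 0)) (T.h (T.h (P (nat_lit 0)) (P (nat_lit 53051936705152))) (P (nat_lit 0))))))) (T.h (T.h (P (nat_lit 0)) (T.h (T.h (P (nat_lit 69494433174587336294400)) (T.h (P (nat_lit 0)) (M (nat_lit 395215621298323455)))) (T.h (P (nat_lit 0)) (M (nat_lit 112431178090102783))))) (T.h (T.h (T.h (P (nat_lit 0)) (T.h (M (nat_lit 237096645803731058687)) (T.h (P (nat_lit 0)) (P (nat_lit 186187917737008))))) (T.h (P (nat_lit 0)) (T.h (T.h (P (nat_lit 0)) (M (nat_lit 58086204154527))) (P (nat_lit 0))))) (T.h (T.h (P (nat_lit 0)) (M (nat_lit 2208243714326527))) (T.h (T.h (T.h (P (nat_lit 0)) (P (nat_lit 56760557853824))) (P (nat_lit 0))) (P (nat_lit 0)))))))), (T.h (T.h (P (nat_lit 0)) (T.h (T.h (P (nat_lit 0)) (T.h (M (nat_lit 59607409781330600397897727)) (T.h (P (nat_lit 0)) (P (nat_lit 1752441552205047136256))))) (T.h (P (nat_lit 0)) (T.h (T.h (P (nat_lit 0)) (P (nat_lit 18434105099233001472))) (P (nat_lit 0)))))) (T.h (T.h (T.h (M (nat_lit 3852606373610495334007439359))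 (T.h (P (nat_lit 0)) (T.h (M (nat_lit 245447685447027747979263)) (T.h (P (nat_lit 0)) (M (nat_lit 282237081034981375)))))) (T.h (P (nat_lit 0)) (T.h (T.h (P (nat_lit 6837357369292922814464)) (T.h (P (nat_lit 0)) (M (nat_lit 110716026291683327)))) (T.h (P (nat_lit 0)) (P (nat_lit 59169193778446336)))))) (T.h (T.h (P (nat_lit 0)) (T.h (T.h (P (nat_lit 0)) (P (nat_lit 114307951635558563840))) (P (nat_lit 0)))) (T.h (T.h (T.h (P (nat_lit 22505124835361908850688)) (T.h (P (nat_lit 0)) (M (nat_lit 47461522852282367)))) (T.h (P (nat_lit 0)) (P (nat_lit 46638150502907904)))) (T.h (P (nat_lit 0)) (M (nat_lit 4950061242613759))))))), (P (nat_lit 0)), (P (nat_lit 0)), (T.h (T.h (T.h (M (nat_lit 4003925593441881032265673211903)) (T.h (P (nat_lit 0)) (T.h (M (nat_lit 16734569273838329772638207)) (T.h (P (nat_lit 0)) (T.h (P (nat_lit 9010077383461437440)) (T.h (P (nat_lit 0)) (M (nat_lit 25183938140719)))))))) (T.h (P (nat_lit 0)) (T.h (T.h (M (nat_lit 16734569273838329772638207))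 (T.h (P (nat_lit 0)) (T.h (M (nat_lit 96789512615666647039)) (T.h (P (nat_lit 0)) (P (nat_lit 600146009325088)))))) (T.h (P (nat_lit 0)) (T.h (T.h (P (nat_lit 9010077383461437440)) (T.h (P (nat_lit 0)) (P (nat_lit 600146009325088)))) (T.h (P (nat_lit 0)) (M (nat_lit 25183938140719)))))))) (T.h (T.h (P (nat_lit 0)) (T.h (T.h (P (nat_lit 0)) (T.h (M (nat_lit 184282931739216937222143)) (T.h (P (nat_lit 0)) (P (nat_lit 195834303825641472))))) (T.h (P (nat_lit 0)) (T.h (T.h (P (nat_lit 0)) (P (nat_lit 195834303825641472))) (P (nat_lit 0)))))) (T.h (T.h (T.h (M (nat_lit 20325167141636930082439167)) (T.h (P (nat_lit 0)) (T.h (M (nat_lit 81171585130385375231)) (T.h (P (nat_lit 0)) (P (nat_lit 21082120614944)))))) (T.h (P (nat_lit 0)) (T.h (T.h (M (nat_lit 81171585130385375231)) (T.h (P (nat_lit 0)) (P (nat_lit 433126156423392)))) (T.h (P (nat_lit 0)) (P (nat_lit 21082120614944)))))) (T.h (T.h (P (nat_lit 0)) (T.h (T.h (P (nat_lit 0)) (P (nat_lit 35065780278001664)))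 (P (nat_lit 0)))) (T.h (T.h (T.h (P (nat_lit 12051081045290778624)) (T.h (P (nat_lit 0)) (M (nat_lit 28549522906479)))) (T.h (P (nat_lit 0)) (M (nat_lit 28549522906479)))) (T.h (P (nat_lit 0)) (M (nat_lit 10333849775935)))))))), (T.h (T.h (T.h (P (nat_lit 0)) (T.h (P (nat_lit 2940885621627575000643928064)) (T.h (P (nat_lit 0)) (T.h (P (nat_lit 116406846110943819071488)) (T.h (P (nat_lit 0)) (M (nat_lit 56047310886469631))))))) (T.h (P (nat_lit 0)) (T.h (T.h (P (nat_lit 0)) (T.h (M (nat_lit 94851712084561593630719)) (T.h (P (nat_lit 0)) (P (nat_lit 835144473480052736))))) (T.h (P (nat_lit 0)) (T.h (T.h (P (nat_lit 0)) (M (nat_lit 735089316496408575))) (P (nat_lit 0))))))) (T.h (T.h (P (nat_lit 0)) (T.h (T.h (M (nat_lit 16415219717815830516334591)) (T.h (P (nat_lit 0)) (T.h (M (nat_lit 828259457634934980607)) (T.h (P (nat_lit 0)) (P (nat_lit 20469176266336)))))) (T.h (P (nat_lit 0)) (T.h (T.h (P (nat_lit 109908203411100139520)) (T.h (P (nat_lit 0)) (P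 (nat_lit 145511679509456)))) (T.h (P (nat_lit 0)) (P (nat_lit 20495869015824))))))) (T.h (T.h (T.h (P (nat_lit 0)) (T.h (P (nat_lit 80986423199241164816384)) (T.h (P (nat_lit 0)) (P (nat_lit 19203365430902784))))) (T.h (P (nat_lit 0)) (T.h (T.h (P (nat_lit 0)) (P (nat_lit 96651728867672064))) (P (nat_lit 0))))) (T.h (T.h (P (nat_lit 0)) (T.h (T.h (P (nat_lit 69725839715362406400)) (T.h (P (nat_lit 0)) (P (nat_lit 713975442312624)))) (T.h (P (nat_lit 0)) (M (nat_lit 45475820045455))))) (T.h (T.h (T.h (P (nat_lit 0)) (P (nat_lit 511413832325070848))) (P (nat_lit 0))) (T.h (T.h (P (nat_lit 0)) (M (nat_lit 22027988921247))) (P (nat_lit 0))))))))]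
def lQm_13 : List (T ℤ) := [(T.h (T.h (T.h (P (nat_lit 16373032247394188254534424330240)) (T.h (P (nat_lit 0)) (T.h (M (nat_lit 183164102553771000985550847)) (T.h (P (nat_lit 0)) (T.h (M (nat_lit 64186300245037023231)) (T.h (P (nat_lit 0)) (P (nat_lit 181077617065440)))))))) (T.h (P (nat_lit 0)) (T.h (T.h (P (nat_lit 82364093836797918939447296)) (T.h (P (nat_lit 0)) (T.h (P (nat_lit 149752501920275103744)) (T.h (P (nat_lit 0)) (M (nat_lit 328360484248639)))))) (T.h (P (nat_lit 0)) (T.h (T.h (M (nat_lit 105868750466731474943)) (T.h (P (nat_lit 0)) (M (nat_lit 2048257231413679)))) (T.h (P (nat_lit 0)) (P (nat_lit 221185732879200)))))))) (T.h (T.h (P (nat_lit 0)) (T.h (T.h (P (nat_lit 0)) (T.h (P (nat_lit 176562571776358048858112)) (T.h (P (nat_lit 0)) (P (nat_lit 260329813543616512))))) (T.h (P (nat_lit 0)) (T.h (T.h (P (nat_lit 0)) (P (nat_lit 363780600151343104))) (P (nat_lit 0)))))) (T.h (T.h (T.h (P (nat_lit 23688841013614905995034624)) (T.h (P (nat_lit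 0)) (T.h (P (nat_lit 448948537288898379776)) (T.h (P (nat_lit 0)) (M (nat_lit 12008700755279)))))) (T.h (P (nat_lit 0)) (T.h (T.h (M (nat_lit 64247427580427239423)) (T.h (P (nat_lit 0)) (M (nat_lit 831663739764239)))) (T.h (P (nat_lit 0)) (M (nat_lit 6417808484559)))))) (T.h (T.h (P (nat_lit 0)) (T.h (T.h (P (nat_lit 0)) (P (nat_lit 15819515406319616))) (P (nat_lit 0)))) (T.h (T.h (T.h (M (nat_lit 18525544061490692095)) (T.h (P (nat_lit 0)) (P (nat_lit 583660449321760)))) (T.h (P (nat_lit 0)) (M (nat_lit 174617535857839)))) (T.h (P (nat_lit 0)) (M (nat_lit 19992458540479)))))))), (T.h (T.h (T.h (P (nat_lit 0)) (T.h (P (nat_lit 97760208326290814134334259200)) (T.h (P (nat_lit 0)) (T.h (P (nat_lit 137990060745107722731520)) (T.h (P (nat_lit 0)) (P (nat_lit 133679943531233280))))))) (T.h (P (nat_lit 0)) (T.h (T.h (P (nat_lit 0)) (T.h (M (nat_lit 278980705928123856715775)) (T.h (P (nat_lit 0)) (M (nat_lit 485870168424939519))))) (T.h (P (nat_lit 0)) (T.h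 (T.h (P (nat_lit 0)) (P (nat_lit 882516363633868800))) (P (nat_lit 0))))))) (T.h (T.h (P (nat_lit 0)) (T.h (T.h (M (nat_lit 44325833412268898624995327)) (T.h (P (nat_lit 0)) (T.h (M (nat_lit 1098496507911096762367)) (T.h (P (nat_lit 0)) (P (nat_lit 1882318035580224)))))) (T.h (P (nat_lit 0)) (T.h (T.h (M (nat_lit 1378257928816951295)) (T.h (P (nat_lit 0)) (P (nat_lit 361794974546192)))) (T.h (P (nat_lit 0)) (P (nat_lit 172986961464416))))))) (T.h (T.h (T.h (P (nat_lit 0)) (T.h (M (nat_lit 20690681049946643234815)) (T.h (P (nat_lit 0)) (M (nat_lit 165709087135268863))))) (T.h (P (nat_lit 0)) (T.h (T.h (P (nat_lit 0)) (P (nat_lit 236215949933527040))) (P (nat_lit 0))))) (T.h (T.h (P (nat_lit 0)) (T.h (T.h (P (nat_lit 72822950036406009856)) (T.h (P (nat_lit 0)) (P (nat_lit 130585546475472)))) (T.h (P (nat_lit 0)) (M (nat_lit 25054827595247))))) (T.h (T.h (T.h (P (nat_lit 0)) (M (nat_lit 194314061239648255))) (P (nat_lit 0))) (T.h (T.h (P (nat_lit 0)) (P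 (nat_lit 110851673169776))) (P (nat_lit 0)))))))), (T.h (T.h (T.h (M (nat_lit 16610131237050969157222881296383)) (T.h (P (nat_lit 0)) (T.h (M (nat_lit 23126752110161750401220607)) (T.h (P (nat_lit 0)) (P (nat_lit 118912105825926381568)))))) (T.h (P (nat_lit 0)) (T.h (T.h (P (nat_lit 78577746382943512002822144)) (T.h (P (nat_lit 0)) (P (nat_lit 254876444120481529856)))) (T.h (P (nat_lit 0)) (M (nat_lit 44363430733904084991)))))) (T.h (T.h (P (nat_lit 0)) (T.h (T.h (P (nat_lit 0)) (T.h (P (nat_lit 170774383045035088150528)) (T.h (P (nat_lit 0)) (M (nat_lit 1474979290622656511))))) (T.h (P (nat_lit 0)) (T.h (T.h (P (nat_lit 0)) (M (nat_lit 116902649026969599))) (P (nat_lit 0)))))) (T.h (T.h (T.h (M (nat_lit 12159185391653889647837183)) (T.h (P (nat_lit 0)) (M (nat_lit 12886189783738482687)))) (T.h (P (nat_lit 0)) (M (nat_lit 26916983604714143743)))) (T.h (T.h (P (nat_lit 0)) (T.h (T.h (P (nat_lit 0)) (P (nat_lit 7959988333117440))) (P (nat_lit 0)))) (M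 (nat_lit 8542965040104341503)))))), (P (nat_lit 0)), (P (nat_lit 0)), (T.h (T.h (P (nat_lit 0)) (T.h (T.h (P (nat_lit 0)) (T.h (M (nat_lit 16689975229306857561522175)) (T.h (P (nat_lit 0)) (T.h (M (nat_lit 365066461145726975)) (T.h (P (nat_lit 0)) (M (nat_lit 26716995752967))))))) (T.h (P (nat_lit 0)) (T.h (T.h (P (nat_lit 0)) (T.h (P (nat_lit 69817159720112226304)) (T.h (P (nat_lit 0)) (M (nat_lit 382192262736495))))) (T.h (P (nat_lit 0)) (T.h (T.h (P (nat_lit 0)) (P (nat_lit 380826871142320))) (P (nat_lit 0)))))))) (T.h (T.h (T.h (M (nat_lit 14749881374374213291704582143)) (T.h (P (nat_lit 0)) (T.h (P (nat_lit 11789734253094215090176)) (T.h (P (nat_lit 0)) (M (nat_lit 3093658246119423)))))) (T.h (P (nat_lit 0)) (T.h (T.h (M (nat_lit 45578621915765286109183)) (T.h (P (nat_lit 0)) (P (nat_lit 192862439883210752)))) (T.h (P (nat_lit 0)) (M (nat_lit 82368393406119935)))))) (T.h (T.h (P (nat_lit 0)) (T.h (T.h (P (nat_lit 0)) (T.h (P (nat_lit 162779457600087916544))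 (T.h (P (nat_lit 0)) (M (nat_lit 62213392378343))))) (T.h (P (nat_lit 0)) (T.h (T.h (P (nat_lit 0)) (M (nat_lit 194229106012303))) (P (nat_lit 0)))))) (T.h (T.h (T.h (M (nat_lit 23967263814739944275967)) (T.h (P (nat_lit 0)) (M (nat_lit 8725983411961855)))) (T.h (P (nat_lit 0)) (M (nat_lit 73661871872507903)))) (T.h (T.h (P (nat_lit 0)) (T.h (T.h (P (nat_lit 0)) (M (nat_lit 168625746219079))) (P (nat_lit 0)))) (P (nat_lit 15704723851444224))))))), (T.h (T.h (P (nat_lit 0)) (T.h (T.h (P (nat_lit 2940885621627575000643928064)) (T.h (P (nat_lit 0)) (T.h (M (nat_lit 94851712084561593630719)) (T.h (P (nat_lit 0)) (M (nat_lit 735089316496408575)))))) (T.h (P (nat_lit 0)) (T.h (T.h (P (nat_lit 116406846110943819071488)) (T.h (P (nat_lit 0)) (P (nat_lit 835144473480052736)))) (T.h (P (nat_lit 0)) (M (nat_lit 56047310886469631))))))) (T.h (T.h (T.h (P (nat_lit 0)) (T.h (M (nat_lit 16415219717815830516334591)) (T.h (P (nat_lit 0)) (T.h (P (nat_lit 109908203411100139520))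 (T.h (P (nat_lit 0)) (P (nat_lit 20495869015824))))))) (T.h (P (nat_lit 0)) (T.h (T.h (P (nat_lit 0)) (T.h (M (nat_lit 828259457634934980607)) (T.h (P (nat_lit 0)) (P (nat_lit 145511679509456))))) (T.h (P (nat_lit 0)) (T.h (T.h (P (nat_lit 0)) (P (nat_lit 20469176266336))) (P (nat_lit 0))))))) (T.h (T.h (P (nat_lit 0)) (T.h (T.h (P (nat_lit 80986423199241164816384)) (T.h (P (nat_lit 0)) (P (nat_lit 96651728867672064)))) (T.h (P (nat_lit 0)) (P (nat_lit 19203365430902784))))) (T.h (T.h (T.h (P (nat_lit 0)) (T.h (P (nat_lit 69725839715362406400)) (T.h (P (nat_lit 0)) (M (nat_lit 45475820045455))))) (T.h (P (nat_lit 0)) (T.h (T.h (P (nat_lit 0)) (P (nat_lit 713975442312624))) (P (nat_lit 0))))) (T.h (T.h (P (nat_lit 0)) (P (nat_lit 511413832325070848))) (T.h (T.h (T.h (P (nat_lit 0)) (M (nat_lit 22027988921247))) (P (nat_lit 0))) (P (nat_lit 0)))))))), (T.h (T.h (P (nat_lit 0)) (T.h (T.h (P (nat_lit 0)) (T.h (P (nat_lit 488671878389637485219020800)) (T.h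 (P (nat_lit 0)) (T.h (P (nat_lit 393195357113180749824)) (T.h (P (nat_lit 0)) (M (nat_lit 449154530998319))))))) (T.h (P (nat_lit 0)) (T.h (T.h (P (nat_lit 0)) (T.h (P (nat_lit 393195357113180749824)) (T.h (P (nat_lit 0)) (P (nat_lit 1721559305570880))))) (T.h (P (nat_lit 0)) (T.h (T.h (P (nat_lit 0)) (M (nat_lit 449154530998319))) (P (nat_lit 0)))))))) (T.h (T.h (T.h (P (nat_lit 197031728879750133897284812800)) (T.h (P (nat_lit 0)) (T.h (M (nat_lit 166136637892943920758783)) (T.h (P (nat_lit 0)) (M (nat_lit 408605711218049023)))))) (T.h (P (nat_lit 0)) (T.h (T.h (M (nat_lit 166136637892943920758783)) (T.h (P (nat_lit 0)) (M (nat_lit 2002835965574316031)))) (T.h (P (nat_lit 0)) (M (nat_lit 408605711218049023)))))) (T.h (T.h (P (nat_lit 0)) (T.h (T.h (P (nat_lit 0)) (T.h (M (nat_lit 1578504036410229522431)) (T.h (P (nat_lit 0)) (M (nat_lit 285630882025039))))) (T.h (P (nat_lit 0)) (T.h (T.h (P (nat_lit 0)) (M (nat_lit 285630882025039))) (P (nat_lit 0))))))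 (T.h (T.h (T.h (M (nat_lit 350381446078574004011007)) (T.h (P (nat_lit 0)) (P (nat_lit 82532489449930752)))) (T.h (P (nat_lit 0)) (P (nat_lit 82532489449930752)))) (T.h (T.h (P (nat_lit 0)) (T.h (T.h (P (nat_lit 0)) (P (nat_lit 1404487554440640))) (P (nat_lit 0)))) (P (nat_lit 109275666967429120)))))))]
def lQm_14 : List (T ℤ) := [(T.h (T.h (P (nat_lit 0)) (T.h (T.h (M (nat_lit 134270297398750438269189619711)) (T.h (P (nat_lit 0)) (T.h (M (nat_lit 382351651573250465464319)) (T.h (P (nat_lit 0)) (P (nat_lit 461622103824433152)))))) (T.h (P (nat_lit 0)) (T.h (T.h (P (nat_lit 35199011028150773612544)) (T.h (P (nat_lit 0)) (M (nat_lit 663185509083824127)))) (T.h (P (nat_lit 0)) (M (nat_lit 220288745474244607))))))) (T.h (T.h (T.h (P (nat_lit 0)) (T.h (M (nat_lit 65024100211193024643858431)) (T.h (P (nat_lit 0)) (T.h (M (nat_lit 173216666178182709247)) (T.h (P (nat_lit 0)) (P (nat_lit 128431816472960))))))) (T.h (P (nat_lit 0)) (T.h (T.h (P (nat_lit 0))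 (T.h (P (nat_lit 1791209464431277768704)) (T.h (P (nat_lit 0)) (M (nat_lit 150609851272495))))) (T.h (P (nat_lit 0)) (T.h (T.h (P (nat_lit 0)) (P (nat_lit 56095130371632))) (P (nat_lit 0))))))) (T.h (T.h (P (nat_lit 0)) (T.h (T.h (P (nat_lit 214501384980258199961600)) (T.h (P (nat_lit 0)) (P (nat_lit 1694244006401474560)))) (T.h (P (nat_lit 0)) (P (nat_lit 327056660642496512))))) (T.h (T.h (T.h (P (nat_lit 0)) (T.h (P (nat_lit 189888095720235335680)) (T.h (P (nat_lit 0)) (M (nat_lit 126198014860367))))) (T.h (P (nat_lit 0)) (T.h (T.h (P (nat_lit 0)) (M (nat_lit 625848463900175))) (P (nat_lit 0))))) (T.h (T.h (P (nat_lit 0)) (M (nat_lit 325401417075720191))) (T.h (T.h (T.h (P (nat_lit 0)) (M (nat_lit 171358582288431))) (P (nat_lit 0))) (P (nat_lit 0)))))))), (T.h (T.h (P (nat_lit 0)) (T.h (T.h (P (nat_lit 0)) (T.h (P (nat_lit 178450648329772352166428672)) (T.h (P (nat_lit 0)) (P (nat_lit 468182160841962946560))))) (T.h (P (nat_lit 0)) (T.h (T.h (P (nat_lit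 0)) (P (nat_lit 312703088898592473088))) (P (nat_lit 0)))))) (T.h (T.h (T.h (P (nat_lit 12264306295860865433992167424)) (T.h (P (nat_lit 0)) (T.h (P (nat_lit 72151306072020993703936)) (T.h (P (nat_lit 0)) (M (nat_lit 353876310217654271)))))) (T.h (P (nat_lit 0)) (T.h (T.h (M (nat_lit 126715159606584970051583)) (T.h (P (nat_lit 0)) (P (nat_lit 329315656024653824)))) (T.h (P (nat_lit 0)) (M (nat_lit 250273072803250175)))))) (T.h (T.h (P (nat_lit 0)) (T.h (T.h (P (nat_lit 0)) (M (nat_lit 632434394254251393023))) (P (nat_lit 0)))) (T.h (T.h (T.h (M (nat_lit 38351697694890571857919)) (T.h (P (nat_lit 0)) (P (nat_lit 12011030252027904)))) (T.h (P (nat_lit 0)) (P (nat_lit 95609950710071296)))) (T.h (P (nat_lit 0)) (P (nat_lit 22986133075853312))))))), (P (nat_lit 0)), (P (nat_lit 0)), (T.h (T.h (T.h (P (nat_lit 1807427213973969121941494169600)) (T.h (P (nat_lit 0)) (T.h (M (nat_lit 8092536662202114245656575)) (T.h (P (nat_lit 0)) (T.h (P (nat_lit 2062319634303942656))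 (T.h (P (nat_lit 0)) (M (nat_lit 13405914314463)))))))) (T.h (P (nat_lit 0)) (T.h (T.h (M (nat_lit 6160842414801612932382719)) (T.h (P (nat_lit 0)) (T.h (M (nat_lit 1170152927893913599)) (T.h (P (nat_lit 0)) (M (nat_lit 59823184640879)))))) (T.h (P (nat_lit 0)) (T.h (T.h (P (nat_lit 22231608460203524096)) (T.h (P (nat_lit 0)) (P (nat_lit 89708038750208)))) (T.h (P (nat_lit 0)) (P (nat_lit 6013664591648)))))))) (T.h (T.h (P (nat_lit 0)) (T.h (T.h (P (nat_lit 0)) (T.h (P (nat_lit 974192166565486526464)) (T.h (P (nat_lit 0)) (P (nat_lit 15505712372383744))))) (T.h (P (nat_lit 0)) (T.h (T.h (P (nat_lit 0)) (P (nat_lit 75502955984846848))) (P (nat_lit 0)))))) (T.h (T.h (T.h (M (nat_lit 8092536662202114245656575)) (T.h (P (nat_lit 0)) (T.h (P (nat_lit 540505362181128192)) (T.h (P (nat_lit 0)) (P (nat_lit 4223076310864)))))) (T.h (P (nat_lit 0)) (T.h (T.h (M (nat_lit 1170152927893913599)) (T.h (P (nat_lit 0)) (M (nat_lit 38999358614879)))) (T.h (P (nat_lit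 0)) (P (nat_lit 89708038750208)))))) (T.h (T.h (P (nat_lit 0)) (T.h (T.h (P (nat_lit 0)) (P (nat_lit 15505712372383744))) (P (nat_lit 0)))) (T.h (T.h (T.h (P (nat_lit 2062319634303942656)) (T.h (P (nat_lit 0)) (P (nat_lit 4223076310864)))) (T.h (P (nat_lit 0)) (M (nat_lit 59823184640879)))) (T.h (P (nat_lit 0)) (M (nat_lit 13405914314463)))))))), (T.h (T.h (T.h (P (nat_lit 0)) (T.h (M (nat_lit 16673976384456745519977332735)) (T.h (P (nat_lit 0)) (T.h (P (nat_lit 21987762614248631435264)) (T.h (P (nat_lit 0)) (M (nat_lit 5203831536091135))))))) (T.h (P (nat_lit 0)) (T.h (T.h (P (nat_lit 0)) (T.h (M (nat_lit 276038670265591703535615)) (T.h (P (nat_lit 0)) (P (nat_lit 432994986391224320))))) (T.h (P (nat_lit 0)) (T.h (T.h (P (nat_lit 0)) (M (nat_lit 147136834461990911))) (P (nat_lit 0))))))) (T.h (T.h (P (nat_lit 0)) (T.h (T.h (P (nat_lit 139046393886373083755839488)) (T.h (P (nat_lit 0)) (T.h (P (nat_lit 49455307798848995328)) (T.h (P (nat_lit 0)) (P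 (nat_lit 4164924265456)))))) (T.h (P (nat_lit 0)) (T.h (T.h (P (nat_lit 317902782325436973056)) (T.h (P (nat_lit 0)) (M (nat_lit 75934935373951)))) (T.h (P (nat_lit 0)) (M (nat_lit 72084300084943))))))) (T.h (T.h (T.h (P (nat_lit 0)) (T.h (M (nat_lit 636810433992612380671)) (T.h (P (nat_lit 0)) (M (nat_lit 92686055715602431))))) (T.h (P (nat_lit 0)) (T.h (T.h (P (nat_lit 0)) (P (nat_lit 280027309767213056))) (P (nat_lit 0))))) (T.h (T.h (P (nat_lit 0)) (T.h (T.h (P (nat_lit 4517300243741540352)) (T.h (P (nat_lit 0)) (P (nat_lit 16557836531408)))) (T.h (P (nat_lit 0)) (P (nat_lit 6711510549152))))) (T.h (T.h (T.h (P (nat_lit 0)) (M (nat_lit 150854767535882239))) (P (nat_lit 0))) (T.h (T.h (P (nat_lit 0)) (M (nat_lit 34652740068447))) (P (nat_lit 0)))))))), (T.h (T.h (T.h (P (nat_lit 16373032247394188254534424330240)) (T.h (P (nat_lit 0)) (T.h (P (nat_lit 82364093836797918939447296)) (T.h (P (nat_lit 0)) (T.h (M (nat_lit 105868750466731474943)) (T.h (P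 (nat_lit 0)) (P (nat_lit 221185732879200)))))))) (T.h (P (nat_lit 0)) (T.h (T.h (M (nat_lit 183164102553771000985550847)) (T.h (P (nat_lit 0)) (T.h (P (nat_lit 149752501920275103744)) (T.h (P (nat_lit 0)) (M (nat_lit 2048257231413679)))))) (T.h (P (nat_lit 0)) (T.h (T.h (M (nat_lit 64186300245037023231)) (T.h (P (nat_lit 0)) (M (nat_lit 328360484248639)))) (T.h (P (nat_lit 0)) (P (nat_lit 181077617065440)))))))) (T.h (T.h (P (nat_lit 0)) (T.h (T.h (P (nat_lit 0)) (T.h (P (nat_lit 176562571776358048858112)) (T.h (P (nat_lit 0)) (P (nat_lit 363780600151343104))))) (T.h (P (nat_lit 0)) (T.h (T.h (P (nat_lit 0)) (P (nat_lit 260329813543616512))) (P (nat_lit 0)))))) (T.h (T.h (T.h (P (nat_lit 23688841013614905995034624)) (T.h (P (nat_lit 0)) (T.h (M (nat_lit 64247427580427239423)) (T.h (P (nat_lit 0)) (M (nat_lit 6417808484559)))))) (T.h (P (nat_lit 0)) (T.h (T.h (P (nat_lit 448948537288898379776)) (T.h (P (nat_lit 0)) (M (nat_lit 831663739764239)))) (T.h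 (P (nat_lit 0)) (M (nat_lit 12008700755279)))))) (T.h (T.h (P (nat_lit 0)) (T.h (T.h (P (nat_lit 0)) (P (nat_lit 15819515406319616))) (P (nat_lit 0)))) (T.h (T.h (T.h (M (nat_lit 18525544061490692095)) (T.h (P (nat_lit 0)) (M (nat_lit 174617535857839)))) (T.h (P (nat_lit 0)) (P (nat_lit 583660449321760)))) (T.h (P (nat_lit 0)) (M (nat_lit 19992458540479)))))))), (T.h (T.h (T.h (P (nat_lit 0)) (T.h (M (nat_lit 134270297398750438269189619711)) (T.h (P (nat_lit 0)) (T.h (P (nat_lit 35199011028150773612544)) (T.h (P (nat_lit 0)) (M (nat_lit 220288745474244607))))))) (T.h (P (nat_lit 0)) (T.h (T.h (P (nat_lit 0)) (T.h (M (nat_lit 382351651573250465464319)) (T.h (P (nat_lit 0)) (M (nat_lit 663185509083824127))))) (T.h (P (nat_lit 0)) (T.h (T.h (P (nat_lit 0)) (P (nat_lit 461622103824433152))) (P (nat_lit 0))))))) (T.h (T.h (P (nat_lit 0)) (T.h (T.h (M (nat_lit 65024100211193024643858431)) (T.h (P (nat_lit 0)) (T.h (P (nat_lit 1791209464431277768704)) (T.h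 (P (nat_lit 0)) (P (nat_lit 56095130371632)))))) (T.h (P (nat_lit 0)) (T.h (T.h (M (nat_lit 173216666178182709247)) (T.h (P (nat_lit 0)) (M (nat_lit 150609851272495)))) (T.h (P (nat_lit 0)) (P (nat_lit 128431816472960))))))) (T.h (T.h (T.h (P (nat_lit 0)) (T.h (P (nat_lit 214501384980258199961600)) (T.h (P (nat_lit 0)) (P (nat_lit 327056660642496512))))) (T.h (P (nat_lit 0)) (T.h (T.h (P (nat_lit 0)) (P (nat_lit 1694244006401474560))) (P (nat_lit 0))))) (T.h (T.h (P (nat_lit 0)) (T.h (T.h (P (nat_lit 189888095720235335680)) (T.h (P (nat_lit 0)) (M (nat_lit 625848463900175)))) (T.h (P (nat_lit 0)) (M (nat_lit 126198014860367))))) (T.h (T.h (T.h (P (nat_lit 0)) (M (nat_lit 325401417075720191))) (P (nat_lit 0))) (T.h (T.h (P (nat_lit 0)) (M (nat_lit 171358582288431))) (P (nat_lit 0))))))))]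
def lQm_15 : List (T ℤ) := [(T.h (T.h (T.h (P (nat_lit 19911686985342792395777992818688)) (T.h (P (nat_lit 0)) (T.h (M (nat_lit 66216282854357790449729535)) (T.h (P (nat_lit 0)) (P (nat_lit 89483072378851295232)))))) (T.h (P (nat_lit 0)) (T.h (T.h (M (nat_lit 66216282854357790449729535)) (T.h (P (nat_lit 0)) (P (nat_lit 1204606997567086002176)))) (T.h (P (nat_lit 0)) (P (nat_lit 89483072378851295232)))))) (T.h (T.h (P (nat_lit 0)) (T.h (T.h (P (nat_lit 0)) (T.h (M (nat_lit 678210062349546654007295)) (T.h (P (nat_lit 0)) (M (nat_lit 180562133041676287))))) (T.h (P (nat_lit 0)) (T.h (T.h (P (nat_lit 0)) (M (nat_lit 180562133041676287))) (P (nat_lit 0)))))) (T.h (T.h (T.h (P (nat_lit 29866378528940360116207616)) (T.h (P (nat_lit 0)) (M (nat_lit 153817068035633053695)))) (T.h (P (nat_lit 0)) (M (nat_lit 153817068035633053695)))) (T.h (T.h (P (nat_lit 0)) (T.h (T.h (P (nat_lit 0)) (P (nat_lit 642979739907260416))) (P (nat_lit 0)))) (P (nat_lit 42188510695096582144)))))),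 (P (nat_lit 0)), (P (nat_lit 0)), (T.h (T.h (P (nat_lit 0)) (T.h (T.h (P (nat_lit 0)) (T.h (M (nat_lit 1857953842829409745108991)) (T.h (P (nat_lit 0)) (T.h (M (nat_lit 5207521057891680255)) (T.h (P (nat_lit 0)) (P (nat_lit 7889238589568))))))) (T.h (P (nat_lit 0)) (T.h (T.h (P (nat_lit 0)) (T.h (M (nat_lit 8107869170617548799)) (T.h (P (nat_lit 0)) (P (nat_lit 13168855558336))))) (T.h (P (nat_lit 0)) (T.h (T.h (P (nat_lit 0)) (M (nat_lit 62471784628983))) (P (nat_lit 0)))))))) (T.h (T.h (T.h (M (nat_lit 12794100345879409982347149311)) (T.h (P (nat_lit 0)) (T.h (M (nat_lit 1358226987020332302335)) (T.h (P (nat_lit 0)) (P (nat_lit 108913887543296)))))) (T.h (P (nat_lit 0)) (T.h (T.h (P (nat_lit 495899353916857384960)) (T.h (P (nat_lit 0)) (P (nat_lit 4763249007394816)))) (T.h (P (nat_lit 0)) (P (nat_lit 38793684289617920)))))) (T.h (T.h (P (nat_lit 0)) (T.h (T.h (P (nat_lit 0)) (T.h (P (nat_lit 593274009924141056)) (T.h (P (nat_lit 0)) (P (nat_lit 1495307379448)))))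 (T.h (P (nat_lit 0)) (T.h (T.h (P (nat_lit 0)) (M (nat_lit 13916663262255))) (P (nat_lit 0)))))) (T.h (T.h (T.h (P (nat_lit 1384689428146249793536)) (T.h (P (nat_lit 0)) (P (nat_lit 132703734923264)))) (T.h (P (nat_lit 0)) (P (nat_lit 10798372299145216)))) (T.h (T.h (P (nat_lit 0)) (T.h (T.h (P (nat_lit 0)) (P (nat_lit 8435143216096))) (P (nat_lit 0)))) (P (nat_lit 12294808850366464))))))), (T.h (T.h (P (nat_lit 0)) (T.h (T.h (P (nat_lit 22778679047823241513898344448)) (T.h (P (nat_lit 0)) (T.h (P (nat_lit 16637201450160661463040)) (T.h (P (nat_lit 0)) (M (nat_lit 52018046610030591)))))) (T.h (P (nat_lit 0)) (T.h (T.h (M (nat_lit 103945883092789225324543)) (T.h (P (nat_lit 0)) (M (nat_lit 56333667256090623)))) (T.h (P (nat_lit 0)) (P (nat_lit 67245607427866624))))))) (T.h (T.h (T.h (P (nat_lit 0)) (T.h (M (nat_lit 6317920619929703964213247)) (T.h (P (nat_lit 0)) (T.h (P (nat_lit 31644833031112359936)) (T.h (P (nat_lit 0)) (M (nat_lit 9359451847407)))))))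 (T.h (P (nat_lit 0)) (T.h (T.h (P (nat_lit 0)) (T.h (M (nat_lit 162904376799993528319)) (T.h (P (nat_lit 0)) (P (nat_lit 13668783183072))))) (T.h (P (nat_lit 0)) (T.h (T.h (P (nat_lit 0)) (M (nat_lit 216448194887871))) (P (nat_lit 0))))))) (T.h (T.h (P (nat_lit 0)) (T.h (T.h (P (nat_lit 16637201450160661463040)) (T.h (P (nat_lit 0)) (P (nat_lit 108384944355377152)))) (T.h (P (nat_lit 0)) (M (nat_lit 56333667256090623))))) (T.h (T.h (T.h (P (nat_lit 0)) (T.h (P (nat_lit 31644833031112359936)) (T.h (P (nat_lit 0)) (M (nat_lit 9080975901567))))) (T.h (P (nat_lit 0)) (T.h (T.h (P (nat_lit 0)) (P (nat_lit 13668783183072))) (P (nat_lit 0))))) (T.h (T.h (P (nat_lit 0)) (M (nat_lit 52018046610030591))) (T.h (T.h (T.h (P (nat_lit 0)) (M (nat_lit 9359451847407))) (P (nat_lit 0))) (P (nat_lit 0)))))))), (T.h (T.h (P (nat_lit 0)) (T.h (T.h (P (nat_lit 0)) (T.h (P (nat_lit 21803050347179325362536448)) (T.h (P (nat_lit 0)) (T.h (P (nat_lit 252614769847746691072))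 (T.h (P (nat_lit 0)) (P (nat_lit 43199649132080))))))) (T.h (P (nat_lit 0)) (T.h (T.h (P (nat_lit 0)) (T.h (M (nat_lit 1399096577830976225279)) (T.h (P (nat_lit 0)) (P (nat_lit 711631137030640))))) (T.h (P (nat_lit 0)) (T.h (T.h (P (nat_lit 0)) (P (nat_lit 50797908112000))) (P (nat_lit 0)))))))) (T.h (T.h (T.h (M (nat_lit 49729393334821837117149151231)) (T.h (P (nat_lit 0)) (T.h (P (nat_lit 40371155272180078477312)) (T.h (P (nat_lit 0)) (P (nat_lit 147024609411497984)))))) (T.h (P (nat_lit 0)) (T.h (T.h (P (nat_lit 73843120531193250971648)) (T.h (P (nat_lit 0)) (P (nat_lit 271640997523259392)))) (T.h (P (nat_lit 0)) (P (nat_lit 415386975931596800)))))) (T.h (T.h (P (nat_lit 0)) (T.h (T.h (P (nat_lit 0)) (T.h (M (nat_lit 196772623904814399487)) (T.h (P (nat_lit 0)) (M (nat_lit 20503582987039))))) (T.h (P (nat_lit 0)) (T.h (T.h (P (nat_lit 0)) (P (nat_lit 441513584918560))) (P (nat_lit 0)))))) (T.h (T.h (T.h (P (nat_lit 147949350077792008536064)) (T.h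 (P (nat_lit 0)) (M (nat_lit 10659707077853183)))) (T.h (P (nat_lit 0)) (P (nat_lit 266648551588659200)))) (T.h (T.h (P (nat_lit 0)) (T.h (T.h (P (nat_lit 0)) (P (nat_lit 44698048341040))) (P (nat_lit 0)))) (M (nat_lit 39457157562138623))))))), (T.h (T.h (P (nat_lit 0)) (T.h (T.h (P (nat_lit 97760208326290814134334259200)) (T.h (P (nat_lit 0)) (T.h (M (nat_lit 278980705928123856715775)) (T.h (P (nat_lit 0)) (P (nat_lit 882516363633868800)))))) (T.h (P (nat_lit 0)) (T.h (T.h (P (nat_lit 137990060745107722731520)) (T.h (P (nat_lit 0)) (M (nat_lit 485870168424939519)))) (T.h (P (nat_lit 0)) (P (nat_lit 133679943531233280))))))) (T.h (T.h (T.h (P (nat_lit 0)) (T.h (M (nat_lit 44325833412268898624995327)) (T.h (P (nat_lit 0)) (T.h (M (nat_lit 1378257928816951295)) (T.h (P (nat_lit 0)) (P (nat_lit 172986961464416))))))) (T.h (P (nat_lit 0)) (T.h (T.h (P (nat_lit 0)) (T.h (M (nat_lit 1098496507911096762367)) (T.h (P (nat_lit 0)) (P (nat_lit 361794974546192)))))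 (T.h (P (nat_lit 0)) (T.h (T.h (P (nat_lit 0)) (P (nat_lit 1882318035580224))) (P (nat_lit 0))))))) (T.h (T.h (P (nat_lit 0)) (T.h (T.h (M (nat_lit 20690681049946643234815)) (T.h (P (nat_lit 0)) (P (nat_lit 236215949933527040)))) (T.h (P (nat_lit 0)) (M (nat_lit 165709087135268863))))) (T.h (T.h (T.h (P (nat_lit 0)) (T.h (P (nat_lit 72822950036406009856)) (T.h (P (nat_lit 0)) (M (nat_lit 25054827595247))))) (T.h (P (nat_lit 0)) (T.h (T.h (P (nat_lit 0)) (P (nat_lit 130585546475472))) (P (nat_lit 0))))) (T.h (T.h (P (nat_lit 0)) (M (nat_lit 194314061239648255))) (T.h (T.h (T.h (P (nat_lit 0)) (P (nat_lit 110851673169776))) (P (nat_lit 0))) (P (nat_lit 0)))))))), (T.h (T.h (P (nat_lit 0)) (T.h (T.h (P (nat_lit 0)) (T.h (P (nat_lit 178450648329772352166428672)) (T.h (P (nat_lit 0)) (P (nat_lit 312703088898592473088))))) (T.h (P (nat_lit 0)) (T.h (T.h (P (nat_lit 0)) (P (nat_lit 468182160841962946560))) (P (nat_lit 0)))))) (T.h (T.h (T.h (P (nat_lit 12264306295860865433992167424))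 (T.h (P (nat_lit 0)) (T.h (M (nat_lit 126715159606584970051583)) (T.h (P (nat_lit 0)) (M (nat_lit 250273072803250175)))))) (T.h (P (nat_lit 0)) (T.h (T.h (P (nat_lit 72151306072020993703936)) (T.h (P (nat_lit 0)) (P (nat_lit 329315656024653824)))) (T.h (P (nat_lit 0)) (M (nat_lit 353876310217654271)))))) (T.h (T.h (P (nat_lit 0)) (T.h (T.h (P (nat_lit 0)) (M (nat_lit 632434394254251393023))) (P (nat_lit 0)))) (T.h (T.h (T.h (M (nat_lit 38351697694890571857919)) (T.h (P (nat_lit 0)) (P (nat_lit 95609950710071296)))) (T.h (P (nat_lit 0)) (P (nat_lit 12011030252027904)))) (T.h (P (nat_lit 0)) (P (nat_lit 22986133075853312)))))))]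
def lQm_16 : List (T ℤ) := [(P (nat_lit 0)), (P (nat_lit 0)), (T.h (T.h (T.h (P (nat_lit 0)) (T.h (P (nat_lit 226318629704904614210437120)) (T.h (P (nat_lit 0)) (T.h (P (nat_lit 766451334615954096128)) (T.h (P (nat_lit 0)) (M (nat_lit 2974749091381247))))))) (T.h (P (nat_lit 0)) (T.h (T.h (P (nat_lit 0)) (T.h (P (nat_lit 13548174235352948539392)) (T.h (P (nat_lit 0)) (P (nat_lit 1936205404995584))))) (T.h (P (nat_lit 0)) (T.h (T.h (P (nat_lit 0)) (P (nat_lit 148610963780747264))) (P (nat_lit 0))))))) (T.h (T.h (P (nat_lit 0)) (T.h (T.h (P (nat_lit 5760110150759249130553344)) (T.h (P (nat_lit 0)) (T.h (P (nat_lit 4478360613369675776)) (T.h (P (nat_lit 0)) (M (nat_lit 14115448294655)))))) (T.h (P (nat_lit 0)) (T.h (T.h (M (nat_lit 155560528027376943103)) (T.h (P (nat_lit 0)) (P (nat_lit 20853968390928)))) (T.h (P (nat_lit 0)) (P (nat_lit 126624751875824))))))) (T.h (T.h (T.h (P (nat_lit 0)) (T.h (P (nat_lit 6115334825654234382336)) (T.h (P (nat_lit 0))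 (P (nat_lit 18148605108125696))))) (T.h (P (nat_lit 0)) (T.h (T.h (P (nat_lit 0)) (P (nat_lit 11298605499367424))) (P (nat_lit 0))))) (T.h (T.h (P (nat_lit 0)) (T.h (T.h (M (nat_lit 44187288449497169919)) (T.h (P (nat_lit 0)) (M (nat_lit 4256921589567)))) (T.h (P (nat_lit 0)) (M (nat_lit 29896136530671))))) (T.h (T.h (T.h (P (nat_lit 0)) (P (nat_lit 13485241803522048))) (P (nat_lit 0))) (T.h (T.h (P (nat_lit 0)) (P (nat_lit 7351350546784))) (P (nat_lit 0)))))))), (T.h (T.h (T.h (M (nat_lit 6081048895083401288390784581631)) (T.h (P (nat_lit 0)) (T.h (P (nat_lit 19483869153050037778907136)) (T.h (P (nat_lit 0)) (T.h (M (nat_lit 29005607260221603839)) (T.h (P (nat_lit 0)) (P (nat_lit 41982303589840)))))))) (T.h (P (nat_lit 0)) (T.h (T.h (P (nat_lit 108437855115324437412446208)) (T.h (P (nat_lit 0)) (T.h (P (nat_lit 101090038753620131840)) (T.h (P (nat_lit 0)) (M (nat_lit 109348784641439)))))) (T.h (P (nat_lit 0)) (T.h (T.h (P (nat_lit 101942302530837938176))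 (T.h (P (nat_lit 0)) (M (nat_lit 31525620239919)))) (T.h (P (nat_lit 0)) (P (nat_lit 324870464918400)))))))) (T.h (T.h (P (nat_lit 0)) (T.h (T.h (P (nat_lit 0)) (T.h (P (nat_lit 71402954464064150962176)) (T.h (P (nat_lit 0)) (M (nat_lit 97011076799922175))))) (T.h (P (nat_lit 0)) (T.h (T.h (P (nat_lit 0)) (P (nat_lit 160309572647387136))) (P (nat_lit 0)))))) (T.h (T.h (T.h (P (nat_lit 19483869153050037778907136)) (T.h (P (nat_lit 0)) (T.h (M (nat_lit 21029657652544667647)) (T.h (P (nat_lit 0)) (P (nat_lit 61431585420320)))))) (T.h (P (nat_lit 0)) (T.h (T.h (P (nat_lit 101090038753620131840)) (T.h (P (nat_lit 0)) (P (nat_lit 237646975361600)))) (T.h (P (nat_lit 0)) (M (nat_lit 31525620239919)))))) (T.h (T.h (P (nat_lit 0)) (T.h (T.h (P (nat_lit 0)) (M (nat_lit 97011076799922175))) (P (nat_lit 0)))) (T.h (T.h (T.h (M (nat_lit 29005607260221603839)) (T.h (P (nat_lit 0)) (P (nat_lit 61431585420320)))) (T.h (P (nat_lit 0)) (M (nat_lit 109348784641439))))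 (T.h (P (nat_lit 0)) (P (nat_lit 41982303589840)))))))), (T.h (T.h (T.h (P (nat_lit 0)) (T.h (M (nat_lit 4917936981971218361554567167)) (T.h (P (nat_lit 0)) (T.h (M (nat_lit 63985465020640980369407)) (T.h (P (nat_lit 0)) (M (nat_lit 37867905166016511))))))) (T.h (P (nat_lit 0)) (T.h (T.h (P (nat_lit 0)) (T.h (P (nat_lit 419121629837070438498304)) (T.h (P (nat_lit 0)) (M (nat_lit 325957275491155967))))) (T.h (P (nat_lit 0)) (T.h (T.h (P (nat_lit 0)) (M (nat_lit 2451348865101381631))) (P (nat_lit 0))))))) (T.h (T.h (P (nat_lit 0)) (T.h (T.h (M (nat_lit 24686943158788964208345087)) (T.h (P (nat_lit 0)) (T.h (M (nat_lit 126279138848112902143)) (T.h (P (nat_lit 0)) (P (nat_lit 53051936705152)))))) (T.h (P (nat_lit 0)) (T.h (T.h (P (nat_lit 630235638186064740352)) (T.h (P (nat_lit 0)) (P (nat_lit 357255833203280)))) (T.h (P (nat_lit 0)) (P (nat_lit 323965957366480))))))) (T.h (T.h (T.h (P (nat_lit 0)) (T.h (P (nat_lit 69494433174587336294400)) (T.h (P (nat_lit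 0)) (M (nat_lit 112431178090102783))))) (T.h (P (nat_lit 0)) (T.h (T.h (P (nat_lit 0)) (M (nat_lit 395215621298323455))) (P (nat_lit 0))))) (T.h (T.h (P (nat_lit 0)) (T.h (T.h (M (nat_lit 237096645803731058687)) (T.h (P (nat_lit 0)) (M (nat_lit 58086204154527)))) (T.h (P (nat_lit 0)) (P (nat_lit 186187917737008))))) (T.h (T.h (T.h (P (nat_lit 0)) (M (nat_lit 2208243714326527))) (P (nat_lit 0))) (T.h (T.h (P (nat_lit 0)) (P (nat_lit 56760557853824))) (P (nat_lit 0)))))))), (T.h (T.h (T.h (M (nat_lit 16610131237050969157222881296383)) (T.h (P (nat_lit 0)) (T.h (P (nat_lit 78577746382943512002822144)) (T.h (P (nat_lit 0)) (M (nat_lit 44363430733904084991)))))) (T.h (P (nat_lit 0)) (T.h (T.h (M (nat_lit 23126752110161750401220607)) (T.h (P (nat_lit 0)) (P (nat_lit 254876444120481529856)))) (T.h (P (nat_lit 0)) (P (nat_lit 118912105825926381568)))))) (T.h (T.h (P (nat_lit 0)) (T.h (T.h (P (nat_lit 0)) (T.h (P (nat_lit 170774383045035088150528)) (T.h (P (nat_lit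 0)) (M (nat_lit 116902649026969599))))) (T.h (P (nat_lit 0)) (T.h (T.h (P (nat_lit 0)) (M (nat_lit 1474979290622656511))) (P (nat_lit 0)))))) (T.h (T.h (T.h (M (nat_lit 12159185391653889647837183)) (T.h (P (nat_lit 0)) (M (nat_lit 26916983604714143743)))) (T.h (P (nat_lit 0)) (M (nat_lit 12886189783738482687)))) (T.h (T.h (P (nat_lit 0)) (T.h (T.h (P (nat_lit 0)) (P (nat_lit 7959988333117440))) (P (nat_lit 0)))) (M (nat_lit 8542965040104341503)))))), (P (nat_lit 0)), (P (nat_lit 0))]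
def lQm_17 : List (T ℤ) := [(T.h (T.h (P (nat_lit 0)) (T.h (T.h (P (nat_lit 0)) (T.h (P (nat_lit 11214666536666130125160448)) (T.h (P (nat_lit 0)) (T.h (P (nat_lit 16014234136231280640)) (T.h (P (nat_lit 0)) (M (nat_lit 6700780526239))))))) (T.h (P (nat_lit 0)) (T.h (T.h (P (nat_lit 0)) (T.h (P (nat_lit 273829416074412556288)) (T.h (P (nat_lit 0)) (M (nat_lit 78533988872879))))) (T.h (P (nat_lit 0)) (T.h (T.h (P (nat_lit 0)) (P (nat_lit 649950281733360))) (P (nat_lit 0)))))))) (T.h (T.h (T.h (P (nat_lit 16157316351655077914389512192)) (T.h (P (nat_lit 0)) (T.h (P (nat_lit 1472349745841981882368)) (T.h (P (nat_lit 0)) (M (nat_lit 7029372037136383)))))) (T.h (P (nat_lit 0)) (T.h (T.h (M (nat_lit 13429755321487863054335)) (T.h (P (nat_lit 0)) (M (nat_lit 171041178281050111)))) (T.h (P (nat_lit 0)) (M (nat_lit 274177761625079807)))))) (T.h (T.h (P (nat_lit 0)) (T.h (T.h (P (nat_lit 0)) (T.h (P (nat_lit 26743036042488578048)) (T.h (P (nat_lit 0)) (P (nat_lit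 10694443811920))))) (T.h (P (nat_lit 0)) (T.h (T.h (P (nat_lit 0)) (P (nat_lit 63537919357360))) (P (nat_lit 0)))))) (T.h (T.h (T.h (P (nat_lit 5325104209578101309440)) (T.h (P (nat_lit 0)) (M (nat_lit 23172711675297791)))) (T.h (P (nat_lit 0)) (P (nat_lit 27539627497783296)))) (T.h (T.h (P (nat_lit 0)) (T.h (T.h (P (nat_lit 0)) (M (nat_lit 38000328701999))) (P (nat_lit 0)))) (M (nat_lit 29353014219341823))))))), (T.h (T.h (P (nat_lit 0)) (T.h (T.h (M (nat_lit 88476704524665135652308779007)) (T.h (P (nat_lit 0)) (T.h (M (nat_lit 62360555743963334574079)) (T.h (P (nat_lit 0)) (P (nat_lit 18997831817314304)))))) (T.h (P (nat_lit 0)) (T.h (T.h (M (nat_lit 98649202954236063645695)) (T.h (P (nat_lit 0)) (P (nat_lit 43458579367362560)))) (T.h (P (nat_lit 0)) (M (nat_lit 732502817971994623))))))) (T.h (T.h (T.h (P (nat_lit 0)) (T.h (M (nat_lit 11630828762409913171312639)) (T.h (P (nat_lit 0)) (T.h (M (nat_lit 6560148199749713919)) (T.h (P (nat_lit 0)) (M (nat_lit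 53103933012239))))))) (T.h (P (nat_lit 0)) (T.h (T.h (P (nat_lit 0)) (T.h (P (nat_lit 678278750592739311616)) (T.h (P (nat_lit 0)) (M (nat_lit 232315348433871))))) (T.h (P (nat_lit 0)) (T.h (T.h (P (nat_lit 0)) (M (nat_lit 170370273170943))) (P (nat_lit 0))))))) (T.h (T.h (P (nat_lit 0)) (T.h (T.h (M (nat_lit 62360555743963334574079)) (T.h (P (nat_lit 0)) (M (nat_lit 210565724574416895)))) (T.h (P (nat_lit 0)) (P (nat_lit 43458579367362560))))) (T.h (T.h (T.h (P (nat_lit 0)) (T.h (M (nat_lit 6560148199749713919)) (T.h (P (nat_lit 0)) (P (nat_lit 1364867077376))))) (T.h (P (nat_lit 0)) (T.h (T.h (P (nat_lit 0)) (M (nat_lit 232315348433871))) (P (nat_lit 0))))) (T.h (T.h (P (nat_lit 0)) (P (nat_lit 18997831817314304))) (T.h (T.h (T.h (P (nat_lit 0)) (M (nat_lit 53103933012239))) (P (nat_lit 0))) (P (nat_lit 0)))))))), (T.h (T.h (P (nat_lit 0)) (T.h (T.h (P (nat_lit 0)) (T.h (M (nat_lit 59607409781330600397897727)) (T.h (P (nat_lit 0)) (P (nat_lit 18434105099233001472)))))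 (T.h (P (nat_lit 0)) (T.h (T.h (P (nat_lit 0)) (P (nat_lit 1752441552205047136256))) (P (nat_lit 0)))))) (T.h (T.h (T.h (M (nat_lit 3852606373610495334007439359)) (T.h (P (nat_lit 0)) (T.h (P (nat_lit 6837357369292922814464)) (T.h (P (nat_lit 0)) (P (nat_lit 59169193778446336)))))) (T.h (P (nat_lit 0)) (T.h (T.h (M (nat_lit 245447685447027747979263)) (T.h (P (nat_lit 0)) (M (nat_lit 110716026291683327)))) (T.h (P (nat_lit 0)) (M (nat_lit 282237081034981375)))))) (T.h (T.h (P (nat_lit 0)) (T.h (T.h (P (nat_lit 0)) (P (nat_lit 114307951635558563840))) (P (nat_lit 0)))) (T.h (T.h (T.h (P (nat_lit 22505124835361908850688)) (T.h (P (nat_lit 0)) (P (nat_lit 46638150502907904)))) (T.h (P (nat_lit 0)) (M (nat_lit 47461522852282367)))) (T.h (P (nat_lit 0)) (M (nat_lit 4950061242613759))))))), (P (nat_lit 0)), (P (nat_lit 0)), (T.h (T.h (T.h (P (nat_lit 0)) (T.h (M (nat_lit 1468683830756010962882396159)) (T.h (P (nat_lit 0)) (T.h (M (nat_lit 4805245990692022386687))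 (T.h (P (nat_lit 0)) (P (nat_lit 2598847362711552))))))) (T.h (P (nat_lit 0)) (T.h (T.h (P (nat_lit 0)) (T.h (M (nat_lit 14144146517207239622655)) (T.h (P (nat_lit 0)) (P (nat_lit 131025791878840320))))) (T.h (P (nat_lit 0)) (T.h (T.h (P (nat_lit 0)) (M (nat_lit 486616909737345023))) (P (nat_lit 0))))))) (T.h (T.h (P (nat_lit 0)) (T.h (T.h (P (nat_lit 24061905069947047567687680)) (T.h (P (nat_lit 0)) (T.h (P (nat_lit 40906388900327456768)) (T.h (P (nat_lit 0)) (P (nat_lit 37730281781984)))))) (T.h (P (nat_lit 0)) (T.h (T.h (P (nat_lit 83946722356541521920)) (T.h (P (nat_lit 0)) (M (nat_lit 64739948756207)))) (T.h (P (nat_lit 0)) (M (nat_lit 430642633814447))))))) (T.h (T.h (T.h (P (nat_lit 0)) (T.h (M (nat_lit 2152802899987471007743)) (T.h (P (nat_lit 0)) (P (nat_lit 13742695469957120))))) (T.h (P (nat_lit 0)) (T.h (T.h (P (nat_lit 0)) (P (nat_lit 7918000311222272))) (P (nat_lit 0))))) (T.h (T.h (P (nat_lit 0)) (T.h (T.h (P (nat_lit 50873018507107237888))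 (T.h (P (nat_lit 0)) (P (nat_lit 238877194160)))) (T.h (P (nat_lit 0)) (P (nat_lit 847315013424))))) (T.h (T.h (T.h (P (nat_lit 0)) (M (nat_lit 4140057265930239))) (P (nat_lit 0))) (T.h (T.h (P (nat_lit 0)) (M (nat_lit 6662556455103))) (P (nat_lit 0)))))))), (T.h (T.h (T.h (P (nat_lit 6680708591493659502204118106112)) (T.h (P (nat_lit 0)) (T.h (P (nat_lit 3152629237428887272554496)) (T.h (P (nat_lit 0)) (P (nat_lit 9809641144634572800)))))) (T.h (P (nat_lit 0)) (T.h (T.h (M (nat_lit 2149890956194024676917247)) (T.h (P (nat_lit 0)) (M (nat_lit 48278542870674145279)))) (T.h (P (nat_lit 0)) (M (nat_lit 8287550168841060351)))))) (T.h (T.h (P (nat_lit 0)) (T.h (T.h (P (nat_lit 0)) (T.h (M (nat_lit 65334891981411134210047)) (T.h (P (nat_lit 0)) (P (nat_lit 58318068894531584))))) (T.h (P (nat_lit 0)) (T.h (T.h (P (nat_lit 0)) (P (nat_lit 175092994366111744))) (P (nat_lit 0)))))) (T.h (T.h (T.h (P (nat_lit 3152629237428887272554496)) (T.h (P (nat_lit 0)) (P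 (nat_lit 9895869601147781120)))) (T.h (P (nat_lit 0)) (M (nat_lit 48278542870674145279)))) (T.h (T.h (P (nat_lit 0)) (T.h (T.h (P (nat_lit 0)) (P (nat_lit 58318068894531584))) (P (nat_lit 0)))) (P (nat_lit 9809641144634572800)))))), (P (nat_lit 0))]
def lQm_18 : List (T ℤ) := [(P (nat_lit 0)), (T.h (T.h (P (nat_lit 0)) (T.h (T.h (P (nat_lit 0)) (T.h (M (nat_lit 8685767576524368306503679)) (T.h (P (nat_lit 0)) (M (nat_lit 32111403715541336063))))) (T.h (P (nat_lit 0)) (T.h (T.h (P (nat_lit 0)) (M (nat_lit 126973145165437337599))) (P (nat_lit 0)))))) (T.h (T.h (T.h (M (nat_lit 3849283284899336926831575039)) (T.h (P (nat_lit 0)) (T.h (M (nat_lit 318127756473987497983)) (T.h (P (nat_lit 0)) (M (nat_lit 9836419181182975)))))) (T.h (P (nat_lit 0)) (T.h (T.h (M (nat_lit 7915433807328952975359)) (T.h (P (nat_lit 0)) (P (nat_lit 56882161005330432)))) (T.h (P (nat_lit 0)) (P (nat_lit 421785709203062784)))))) (T.h (T.h (P (nat_lit 0)) (T.h (T.h (P (nat_lit 0))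 (M (nat_lit 21352153951422644223))) (P (nat_lit 0)))) (T.h (T.h (T.h (M (nat_lit 2169209033493156200447)) (T.h (P (nat_lit 0)) (M (nat_lit 5667928027332607)))) (T.h (P (nat_lit 0)) (M (nat_lit 9664805248008191)))) (T.h (P (nat_lit 0)) (P (nat_lit 411400681750528))))))), (P (nat_lit 0)), (P (nat_lit 0)), (P (nat_lit 0)), (P (nat_lit 0)), (P (nat_lit 0)), (P (nat_lit 0))]
def lQm_19 : List (T ℤ) := [(T.h (T.h (T.h (P (nat_lit 0)) (T.h (P (nat_lit 2055456681931519564426772480)) (T.h (P (nat_lit 0)) (T.h (P (nat_lit 4248991952857825542144)) (T.h (P (nat_lit 0)) (M (nat_lit 3485283988078591))))))) (T.h (P (nat_lit 0)) (T.h (T.h (P (nat_lit 0)) (T.h (M (nat_lit 10035423191259844444159)) (T.h (P (nat_lit 0)) (P (nat_lit 48569078005039104))))) (T.h (P (nat_lit 0)) (T.h (T.h (P (nat_lit 0)) (P (nat_lit 4075656891629568))) (P (nat_lit 0))))))) (T.h (T.h (P (nat_lit 0)) (T.h (T.h (M (nat_lit 1705315292969379989291007)) (T.h (P (nat_lit 0)) (T.h (P (nat_lit 876704851256410112))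 (T.h (P (nat_lit 0)) (M (nat_lit 28937018074767)))))) (T.h (P (nat_lit 0)) (T.h (T.h (P (nat_lit 2377763215032451072)) (T.h (P (nat_lit 0)) (P (nat_lit 12562440285328)))) (T.h (P (nat_lit 0)) (P (nat_lit 7158406918608))))))) (T.h (T.h (T.h (P (nat_lit 0)) (T.h (M (nat_lit 2766668727805554982911)) (T.h (P (nat_lit 0)) (M (nat_lit 8725047214145535))))) (T.h (P (nat_lit 0)) (T.h (T.h (P (nat_lit 0)) (P (nat_lit 454002489458688))) (P (nat_lit 0))))) (T.h (T.h (P (nat_lit 0)) (T.h (T.h (P (nat_lit 2476425389400915968)) (T.h (P (nat_lit 0)) (M (nat_lit 1415563387735)))) (T.h (P (nat_lit 0)) (P (nat_lit 2063416401616))))) (T.h (T.h (T.h (P (nat_lit 0)) (M (nat_lit 2451024506814463))) (P (nat_lit 0))) (T.h (T.h (P (nat_lit 0)) (M (nat_lit 6242764166039))) (P (nat_lit 0)))))))), (T.h (T.h (T.h (M (nat_lit 16310421525849164254090450960383)) (T.h (P (nat_lit 0)) (T.h (P (nat_lit 11683839568522379406606336)) (T.h (P (nat_lit 0)) (T.h (M (nat_lit 2035208997841141759))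 (T.h (P (nat_lit 0)) (P (nat_lit 63359498543120)))))))) (T.h (P (nat_lit 0)) (T.h (T.h (M (nat_lit 1377791761044098531721215)) (T.h (P (nat_lit 0)) (T.h (M (nat_lit 48808837752610095103)) (T.h (P (nat_lit 0)) (P (nat_lit 65805890694080)))))) (T.h (P (nat_lit 0)) (T.h (T.h (P (nat_lit 4136264342167355392)) (T.h (P (nat_lit 0)) (M (nat_lit 27352561037247)))) (T.h (P (nat_lit 0)) (M (nat_lit 2258787755471)))))))) (T.h (T.h (P (nat_lit 0)) (T.h (T.h (P (nat_lit 0)) (T.h (P (nat_lit 10010703217678719385600)) (T.h (P (nat_lit 0)) (M (nat_lit 190586810511065087))))) (T.h (P (nat_lit 0)) (T.h (T.h (P (nat_lit 0)) (M (nat_lit 61646594252767231))) (P (nat_lit 0)))))) (T.h (T.h (T.h (P (nat_lit 10121519114408553399451648)) (T.h (P (nat_lit 0)) (T.h (P (nat_lit 61914797905744494592)) (T.h (P (nat_lit 0)) (P (nat_lit 439341944415168)))))) (T.h (P (nat_lit 0)) (T.h (T.h (M (nat_lit 244134082416476159)) (T.h (P (nat_lit 0)) (M (nat_lit 2428238407215)))) (T.h (P (nat_lit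 0)) (P (nat_lit 7778266412928)))))) (T.h (T.h (P (nat_lit 0)) (T.h (T.h (P (nat_lit 0)) (P (nat_lit 62959274422501376))) (P (nat_lit 0)))) (T.h (T.h (T.h (M (nat_lit 2857327944320155647)) (T.h (P (nat_lit 0)) (M (nat_lit 25450372979775)))) (T.h (P (nat_lit 0)) (P (nat_lit 7834943220656)))) (T.h (P (nat_lit 0)) (P (nat_lit 7181325551792)))))))), (T.h (T.h (T.h (P (nat_lit 0)) (T.h (M (nat_lit 21123593321619357335306633215)) (T.h (P (nat_lit 0)) (T.h (P (nat_lit 15010200804235572936704)) (T.h (P (nat_lit 0)) (M (nat_lit 154004297327050751))))))) (T.h (P (nat_lit 0)) (T.h (T.h (P (nat_lit 0)) (T.h (M (nat_lit 50430542327613638049791)) (T.h (P (nat_lit 0)) (M (nat_lit 165041657512427519))))) (T.h (P (nat_lit 0)) (T.h (T.h (P (nat_lit 0)) (P (nat_lit 55334082025422848))) (P (nat_lit 0))))))) (T.h (T.h (P (nat_lit 0)) (T.h (T.h (P (nat_lit 2581634979122964043137024)) (T.h (P (nat_lit 0)) (T.h (P (nat_lit 58709018431610421248)) (T.h (P (nat_lit 0)) (P (nat_lit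 58319323554320)))))) (T.h (P (nat_lit 0)) (T.h (T.h (M (nat_lit 32675668490924851199)) (T.h (P (nat_lit 0)) (M (nat_lit 107680149905439)))) (T.h (P (nat_lit 0)) (P (nat_lit 16361497986480))))))) (T.h (T.h (T.h (P (nat_lit 0)) (T.h (P (nat_lit 5919988966405504499712)) (T.h (P (nat_lit 0)) (M (nat_lit 58402257737056255))))) (T.h (P (nat_lit 0)) (T.h (T.h (P (nat_lit 0)) (P (nat_lit 50862758182420480))) (P (nat_lit 0))))) (T.h (T.h (P (nat_lit 0)) (T.h (T.h (M (nat_lit 21661246487506452479)) (T.h (P (nat_lit 0)) (M (nat_lit 103123823580639)))) (T.h (P (nat_lit 0)) (P (nat_lit 66069034018640))))) (T.h (T.h (T.h (P (nat_lit 0)) (M (nat_lit 10609186901458943))) (P (nat_lit 0))) (T.h (T.h (P (nat_lit 0)) (P (nat_lit 33653347756400))) (P (nat_lit 0)))))))), (T.h (T.h (T.h (P (nat_lit 648354378398368560434359828480)) (T.h (P (nat_lit 0)) (T.h (P (nat_lit 7052920268108960389660672)) (T.h (P (nat_lit 0)) (T.h (P (nat_lit 192230385199957934080)) (T.h (P (nat_lit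 0)) (P (nat_lit 130481994932784)))))))) (T.h (P (nat_lit 0)) (T.h (T.h (P (nat_lit 405226602017100610404352)) (T.h (P (nat_lit 0)) (T.h (P (nat_lit 34010185905997873152)) (T.h (P (nat_lit 0)) (P (nat_lit 33231154151888)))))) (T.h (P (nat_lit 0)) (T.h (T.h (M (nat_lit 5430699604901363711)) (T.h (P (nat_lit 0)) (M (nat_lit 17832029004943)))) (T.h (P (nat_lit 0)) (P (nat_lit 3821769693456)))))))) (T.h (T.h (P (nat_lit 0)) (T.h (T.h (P (nat_lit 0)) (T.h (M (nat_lit 44952741325817528713215)) (T.h (P (nat_lit 0)) (P (nat_lit 150087276435439616))))) (T.h (P (nat_lit 0)) (T.h (T.h (P (nat_lit 0)) (M (nat_lit 36359330566864895))) (P (nat_lit 0)))))) (T.h (T.h (T.h (P (nat_lit 6029595519567029736570880)) (T.h (P (nat_lit 0)) (T.h (M (nat_lit 80224259377891115007)) (T.h (P (nat_lit 0)) (P (nat_lit 78162321228816)))))) (T.h (P (nat_lit 0)) (T.h (T.h (P (nat_lit 1458250011144880128)) (T.h (P (nat_lit 0)) (P (nat_lit 109922351265936)))) (T.h (P (nat_lit 0)) (M (nat_lit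 49126568938831)))))) (T.h (T.h (P (nat_lit 0)) (T.h (T.h (P (nat_lit 0)) (P (nat_lit 134958845215637504))) (P (nat_lit 0)))) (T.h (T.h (T.h (P (nat_lit 22782046953774514176)) (T.h (P (nat_lit 0)) (P (nat_lit 129681242717312)))) (T.h (P (nat_lit 0)) (M (nat_lit 52667779269951)))) (T.h (P (nat_lit 0)) (P (nat_lit 1586148909312)))))))), (T.h (T.h (T.h (P (nat_lit 0)) (T.h (P (nat_lit 3166846873336167602856132608)) (T.h (P (nat_lit 0)) (T.h (M (nat_lit 14344602706940511911935)) (T.h (P (nat_lit 0)) (M (nat_lit 65582421789278207))))))) (T.h (P (nat_lit 0)) (T.h (T.h (P (nat_lit 0)) (T.h (P (nat_lit 35266817870928178839552)) (T.h (P (nat_lit 0)) (M (nat_lit 12694745432686591))))) (T.h (P (nat_lit 0)) (T.h (T.h (P (nat_lit 0)) (M (nat_lit 384693298659327))) (P (nat_lit 0))))))) (T.h (T.h (P (nat_lit 0)) (T.h (T.h (P (nat_lit 9767776142240778154934272)) (T.h (P (nat_lit 0)) (M (nat_lit 145672624222347722751)))) (T.h (P (nat_lit 0)) (P (nat_lit 11252920928419446784)))))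 (T.h (T.h (T.h (P (nat_lit 0)) (T.h (P (nat_lit 54548994911447583555584)) (T.h (P (nat_lit 0)) (M (nat_lit 58682876268085247))))) (T.h (P (nat_lit 0)) (T.h (T.h (P (nat_lit 0)) (M (nat_lit 41064510206017535))) (P (nat_lit 0))))) (T.h (T.h (P (nat_lit 0)) (M (nat_lit 181177798486917119))) (T.h (T.h (T.h (P (nat_lit 0)) (M (nat_lit 42086344733622271))) (P (nat_lit 0))) (P (nat_lit 0))))))), (P (nat_lit 0)), (P (nat_lit 0)), (T.h (T.h (P (nat_lit 0)) (T.h (T.h (M (nat_lit 14749881374374213291704582143)) (T.h (P (nat_lit 0)) (T.h (M (nat_lit 45578621915765286109183)) (T.h (P (nat_lit 0)) (M (nat_lit 82368393406119935)))))) (T.h (P (nat_lit 0)) (T.h (T.h (M (nat_lit 23967263814739944275967)) (T.h (P (nat_lit 0)) (M (nat_lit 73661871872507903)))) (T.h (P (nat_lit 0)) (P (nat_lit 15704723851444224))))))) (T.h (T.h (T.h (P (nat_lit 0)) (T.h (M (nat_lit 16689975229306857561522175)) (T.h (P (nat_lit 0)) (T.h (P (nat_lit 69817159720112226304)) (T.h (P (nat_lit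 0)) (P (nat_lit 380826871142320))))))) (T.h (P (nat_lit 0)) (T.h (T.h (P (nat_lit 0)) (T.h (P (nat_lit 162779457600087916544)) (T.h (P (nat_lit 0)) (M (nat_lit 194229106012303))))) (T.h (P (nat_lit 0)) (T.h (T.h (P (nat_lit 0)) (M (nat_lit 168625746219079))) (P (nat_lit 0))))))) (T.h (T.h (P (nat_lit 0)) (T.h (T.h (P (nat_lit 11789734253094215090176)) (T.h (P (nat_lit 0)) (P (nat_lit 192862439883210752)))) (T.h (P (nat_lit 0)) (M (nat_lit 8725983411961855))))) (T.h (T.h (T.h (P (nat_lit 0)) (T.h (M (nat_lit 365066461145726975)) (T.h (P (nat_lit 0)) (M (nat_lit 382192262736495))))) (T.h (P (nat_lit 0)) (T.h (T.h (P (nat_lit 0)) (M (nat_lit 62213392378343))) (P (nat_lit 0))))) (T.h (T.h (P (nat_lit 0)) (M (nat_lit 3093658246119423))) (T.h (T.h (T.h (P (nat_lit 0)) (M (nat_lit 26716995752967))) (P (nat_lit 0))) (P (nat_lit 0))))))))]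
def lQm_20 : List (T ℤ) := [(T.h (T.h (P (nat_lit 0)) (T.h (T.h (P (nat_lit 0)) (T.h (P (nat_lit 139046393886373083755839488)) (T.h (P (nat_lit 0)) (T.h (P (nat_lit 317902782325436973056)) (T.h (P (nat_lit 0)) (M (nat_lit 72084300084943))))))) (T.h (P (nat_lit 0)) (T.h (T.h (P (nat_lit 0)) (T.h (P (nat_lit 4517300243741540352)) (T.h (P (nat_lit 0)) (P (nat_lit 6711510549152))))) (T.h (P (nat_lit 0)) (T.h (T.h (P (nat_lit 0)) (M (nat_lit 34652740068447))) (P (nat_lit 0)))))))) (T.h (T.h (T.h (M (nat_lit 16673976384456745519977332735)) (T.h (P (nat_lit 0)) (T.h (M (nat_lit 276038670265591703535615)) (T.h (P (nat_lit 0)) (M (nat_lit 147136834461990911)))))) (T.h (P (nat_lit 0)) (T.h (T.h (M (nat_lit 636810433992612380671)) (T.h (P (nat_lit 0)) (P (nat_lit 280027309767213056)))) (T.h (P (nat_lit 0)) (M (nat_lit 150854767535882239)))))) (T.h (T.h (P (nat_lit 0)) (T.h (T.h (P (nat_lit 0)) (T.h (P (nat_lit 49455307798848995328)) (T.h (P (nat_lit 0)) (M (nat_lit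 75934935373951))))) (T.h (P (nat_lit 0)) (T.h (T.h (P (nat_lit 0)) (P (nat_lit 16557836531408))) (P (nat_lit 0)))))) (T.h (T.h (T.h (P (nat_lit 21987762614248631435264)) (T.h (P (nat_lit 0)) (P (nat_lit 432994986391224320)))) (T.h (P (nat_lit 0)) (M (nat_lit 92686055715602431)))) (T.h (T.h (P (nat_lit 0)) (T.h (T.h (P (nat_lit 0)) (P (nat_lit 4164924265456))) (P (nat_lit 0)))) (M (nat_lit 5203831536091135))))))), (T.h (T.h (P (nat_lit 0)) (T.h (T.h (M (nat_lit 49729393334821837117149151231)) (T.h (P (nat_lit 0)) (T.h (P (nat_lit 73843120531193250971648)) (T.h (P (nat_lit 0)) (P (nat_lit 415386975931596800)))))) (T.h (P (nat_lit 0)) (T.h (T.h (P (nat_lit 147949350077792008536064)) (T.h (P (nat_lit 0)) (P (nat_lit 266648551588659200)))) (T.h (P (nat_lit 0)) (M (nat_lit 39457157562138623))))))) (T.h (T.h (T.h (P (nat_lit 0)) (T.h (P (nat_lit 21803050347179325362536448)) (T.h (P (nat_lit 0)) (T.h (M (nat_lit 1399096577830976225279)) (T.h (P (nat_lit 0))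 (P (nat_lit 50797908112000))))))) (T.h (P (nat_lit 0)) (T.h (T.h (P (nat_lit 0)) (T.h (M (nat_lit 196772623904814399487)) (T.h (P (nat_lit 0)) (P (nat_lit 441513584918560))))) (T.h (P (nat_lit 0)) (T.h (T.h (P (nat_lit 0)) (P (nat_lit 44698048341040))) (P (nat_lit 0))))))) (T.h (T.h (P (nat_lit 0)) (T.h (T.h (P (nat_lit 40371155272180078477312)) (T.h (P (nat_lit 0)) (P (nat_lit 271640997523259392)))) (T.h (P (nat_lit 0)) (M (nat_lit 10659707077853183))))) (T.h (T.h (T.h (P (nat_lit 0)) (T.h (P (nat_lit 252614769847746691072)) (T.h (P (nat_lit 0)) (P (nat_lit 711631137030640))))) (T.h (P (nat_lit 0)) (T.h (T.h (P (nat_lit 0)) (M (nat_lit 20503582987039))) (P (nat_lit 0))))) (T.h (T.h (P (nat_lit 0)) (P (nat_lit 147024609411497984))) (T.h (T.h (T.h (P (nat_lit 0)) (P (nat_lit 43199649132080))) (P (nat_lit 0))) (P (nat_lit 0)))))))), (T.h (T.h (P (nat_lit 0)) (T.h (T.h (P (nat_lit 0)) (T.h (M (nat_lit 24686943158788964208345087)) (T.h (P (nat_lit 0)) (T.h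 (P (nat_lit 630235638186064740352)) (T.h (P (nat_lit 0)) (P (nat_lit 323965957366480))))))) (T.h (P (nat_lit 0)) (T.h (T.h (P (nat_lit 0)) (T.h (M (nat_lit 237096645803731058687)) (T.h (P (nat_lit 0)) (P (nat_lit 186187917737008))))) (T.h (P (nat_lit 0)) (T.h (T.h (P (nat_lit 0)) (P (nat_lit 56760557853824))) (P (nat_lit 0)))))))) (T.h (T.h (T.h (M (nat_lit 4917936981971218361554567167)) (T.h (P (nat_lit 0)) (T.h (P (nat_lit 419121629837070438498304)) (T.h (P (nat_lit 0)) (M (nat_lit 2451348865101381631)))))) (T.h (P (nat_lit 0)) (T.h (T.h (P (nat_lit 69494433174587336294400)) (T.h (P (nat_lit 0)) (M (nat_lit 395215621298323455)))) (T.h (P (nat_lit 0)) (M (nat_lit 2208243714326527)))))) (T.h (T.h (P (nat_lit 0)) (T.h (T.h (P (nat_lit 0)) (T.h (M (nat_lit 126279138848112902143)) (T.h (P (nat_lit 0)) (P (nat_lit 357255833203280))))) (T.h (P (nat_lit 0)) (T.h (T.h (P (nat_lit 0)) (M (nat_lit 58086204154527))) (P (nat_lit 0)))))) (T.h (T.h (T.h (M (nat_lit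 63985465020640980369407)) (T.h (P (nat_lit 0)) (M (nat_lit 325957275491155967)))) (T.h (P (nat_lit 0)) (M (nat_lit 112431178090102783)))) (T.h (T.h (P (nat_lit 0)) (T.h (T.h (P (nat_lit 0)) (P (nat_lit 53051936705152))) (P (nat_lit 0)))) (M (nat_lit 37867905166016511))))))), (T.h (T.h (P (nat_lit 0)) (T.h (T.h (M (nat_lit 3852606373610495334007439359)) (T.h (P (nat_lit 0)) (T.h (M (nat_lit 245447685447027747979263)) (T.h (P (nat_lit 0)) (M (nat_lit 282237081034981375)))))) (T.h (P (nat_lit 0)) (T.h (T.h (P (nat_lit 22505124835361908850688)) (T.h (P (nat_lit 0)) (M (nat_lit 47461522852282367)))) (T.h (P (nat_lit 0)) (M (nat_lit 4950061242613759))))))) (T.h (T.h (T.h (P (nat_lit 0)) (T.h (M (nat_lit 59607409781330600397897727)) (T.h (P (nat_lit 0)) (P (nat_lit 1752441552205047136256))))) (T.h (P (nat_lit 0)) (T.h (T.h (P (nat_lit 0)) (P (nat_lit 114307951635558563840))) (P (nat_lit 0))))) (T.h (T.h (P (nat_lit 0)) (T.h (T.h (P (nat_lit 6837357369292922814464))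 (T.h (P (nat_lit 0)) (M (nat_lit 110716026291683327)))) (T.h (P (nat_lit 0)) (P (nat_lit 46638150502907904))))) (T.h (T.h (T.h (P (nat_lit 0)) (P (nat_lit 18434105099233001472))) (P (nat_lit 0))) (T.h (T.h (P (nat_lit 0)) (P (nat_lit 59169193778446336))) (P (nat_lit 0))))))), (P (nat_lit 0)), (P (nat_lit 0)), (T.h (T.h (T.h (P (nat_lit 0)) (T.h (M (nat_lit 10761264159112345455830237183)) (T.h (P (nat_lit 0)) (T.h (P (nat_lit 239678259340123308032)) (T.h (P (nat_lit 0)) (P (nat_lit 6083027579699200))))))) (T.h (P (nat_lit 0)) (T.h (T.h (P (nat_lit 0)) (T.h (M (nat_lit 44057131584592925425663)) (T.h (P (nat_lit 0)) (M (nat_lit 391172053358706687))))) (T.h (P (nat_lit 0)) (T.h (T.h (P (nat_lit 0)) (M (nat_lit 33232012783714303))) (P (nat_lit 0))))))) (T.h (T.h (P (nat_lit 0)) (T.h (T.h (P (nat_lit 16120402417381523331219456)) (T.h (P (nat_lit 0)) (T.h (P (nat_lit 65573374711457382400)) (T.h (P (nat_lit 0)) (P (nat_lit 48589310894704)))))) (T.h (P (nat_lit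 0)) (T.h (T.h (M (nat_lit 27908753054742085631)) (T.h (P (nat_lit 0)) (M (nat_lit 440929459787479)))) (T.h (P (nat_lit 0)) (P (nat_lit 33881669526208))))))) (T.h (T.h (T.h (P (nat_lit 0)) (T.h (M (nat_lit 44057131584592925425663)) (T.h (P (nat_lit 0)) (M (nat_lit 391172053358706687))))) (T.h (P (nat_lit 0)) (T.h (T.h (P (nat_lit 0)) (M (nat_lit 36504727480696831))) (P (nat_lit 0))))) (T.h (T.h (P (nat_lit 0)) (T.h (T.h (M (nat_lit 27908753054742085631)) (T.h (P (nat_lit 0)) (M (nat_lit 440929459787479)))) (T.h (P (nat_lit 0)) (P (nat_lit 51133428393360))))) (T.h (T.h (T.h (P (nat_lit 0)) (M (nat_lit 33232012783714303))) (P (nat_lit 0))) (T.h (T.h (P (nat_lit 0)) (P (nat_lit 33881669526208))) (P (nat_lit 0)))))))), (T.h (T.h (T.h (M (nat_lit 17594253107046821248647494107135)) (T.h (P (nat_lit 0)) (T.h (M (nat_lit 2350367630756910246920191)) (T.h (P (nat_lit 0)) (T.h (P (nat_lit 69696027185236672512)) (T.h (P (nat_lit 0)) (M (nat_lit 16207010583903))))))))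 (T.h (P (nat_lit 0)) (T.h (T.h (P (nat_lit 21304803120963885708869632)) (T.h (P (nat_lit 0)) (T.h (P (nat_lit 297407163401181855744)) (T.h (P (nat_lit 0)) (M (nat_lit 59244869932431)))))) (T.h (P (nat_lit 0)) (T.h (T.h (M (nat_lit 10244170915285827583)) (T.h (P (nat_lit 0)) (M (nat_lit 155512376735103)))) (T.h (P (nat_lit 0)) (P (nat_lit 35204148183136)))))))) (T.h (T.h (P (nat_lit 0)) (T.h (T.h (P (nat_lit 0)) (T.h (P (nat_lit 194674404354259844857856)) (T.h (P (nat_lit 0)) (P (nat_lit 187746599905984512))))) (T.h (P (nat_lit 0)) (T.h (T.h (P (nat_lit 0)) (M (nat_lit 285714783448793087))) (P (nat_lit 0)))))) (T.h (T.h (T.h (P (nat_lit 21304803120963885708869632)) (T.h (P (nat_lit 0)) (T.h (P (nat_lit 297407163401181855744)) (T.h (P (nat_lit 0)) (M (nat_lit 59244869932431)))))) (T.h (P (nat_lit 0)) (T.h (T.h (M (nat_lit 44292742647633674239)) (T.h (P (nat_lit 0)) (P (nat_lit 158867203205152)))) (T.h (P (nat_lit 0)) (P (nat_lit 7477112616224)))))) (T.h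 (T.h (P (nat_lit 0)) (T.h (T.h (P (nat_lit 0)) (M (nat_lit 285714783448793087))) (P (nat_lit 0)))) (T.h (T.h (T.h (M (nat_lit 10244170915285827583)) (T.h (P (nat_lit 0)) (M (nat_lit 155512376735103)))) (T.h (P (nat_lit 0)) (P (nat_lit 7477112616224)))) (T.h (P (nat_lit 0)) (P (nat_lit 35204148183136))))))))]
def lQm_21 : List (T ℤ) := [(T.h (T.h (T.h (P (nat_lit 0)) (T.h (M (nat_lit 69633019206119853098857922559)) (T.h (P (nat_lit 0)) (T.h (P (nat_lit 32165377150601421389824)) (T.h (P (nat_lit 0)) (M (nat_lit 549582392462606335))))))) (T.h (P (nat_lit 0)) (T.h (T.h (P (nat_lit 0)) (T.h (M (nat_lit 158227689711631811477503)) (T.h (P (nat_lit 0)) (M (nat_lit 1577009487523938303))))) (T.h (P (nat_lit 0)) (T.h (T.h (P (nat_lit 0)) (P (nat_lit 299866337198080000))) (P (nat_lit 0))))))) (T.h (T.h (P (nat_lit 0)) (T.h (T.h (P (nat_lit 195476179480490388299448320)) (T.h (P (nat_lit 0)) (T.h (P (nat_lit 733300534981362188288)) (T.h (P (nat_lit 0)) (P (nat_lit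 712331587072960)))))) (T.h (P (nat_lit 0)) (T.h (T.h (M (nat_lit 117559666176704905215)) (T.h (P (nat_lit 0)) (M (nat_lit 327972253000559)))) (T.h (P (nat_lit 0)) (M (nat_lit 40329959640399))))))) (T.h (T.h (T.h (P (nat_lit 0)) (T.h (M (nat_lit 158227689711631811477503)) (T.h (P (nat_lit 0)) (M (nat_lit 1577009487523938303))))) (T.h (P (nat_lit 0)) (T.h (T.h (P (nat_lit 0)) (P (nat_lit 185226729645146112))) (P (nat_lit 0))))) (T.h (T.h (P (nat_lit 0)) (T.h (T.h (M (nat_lit 117559666176704905215)) (T.h (P (nat_lit 0)) (M (nat_lit 327972253000559)))) (T.h (P (nat_lit 0)) (P (nat_lit 178876977698560))))) (T.h (T.h (T.h (P (nat_lit 0)) (P (nat_lit 299866337198080000))) (P (nat_lit 0))) (T.h (T.h (P (nat_lit 0)) (M (nat_lit 40329959640399))) (P (nat_lit 0)))))))), (T.h (T.h (T.h (P (nat_lit 26077830506595865461661229907968)) (T.h (P (nat_lit 0)) (T.h (M (nat_lit 264928016980467986982764543)) (T.h (P (nat_lit 0)) (T.h (M (nat_lit 218518617920488079359)) (T.h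 (P (nat_lit 0)) (P (nat_lit 329438584916672)))))))) (T.h (P (nat_lit 0)) (T.h (T.h (M (nat_lit 318182497165845239080943615)) (T.h (P (nat_lit 0)) (T.h (M (nat_lit 693921528551026196479)) (T.h (P (nat_lit 0)) (P (nat_lit 60230847533472)))))) (T.h (P (nat_lit 0)) (T.h (T.h (P (nat_lit 85790700551431782400)) (T.h (P (nat_lit 0)) (M (nat_lit 153371460460767)))) (T.h (P (nat_lit 0)) (M (nat_lit 48388242410463)))))))) (T.h (T.h (P (nat_lit 0)) (T.h (T.h (P (nat_lit 0)) (T.h (P (nat_lit 318982793860663945986048)) (T.h (P (nat_lit 0)) (M (nat_lit 1483349204858044415))))) (T.h (P (nat_lit 0)) (T.h (T.h (P (nat_lit 0)) (M (nat_lit 193123563191042047))) (P (nat_lit 0)))))) (T.h (T.h (T.h (M (nat_lit 318182497165845239080943615)) (T.h (P (nat_lit 0)) (T.h (M (nat_lit 693921528551026196479)) (T.h (P (nat_lit 0)) (P (nat_lit 60230847533472)))))) (T.h (P (nat_lit 0)) (T.h (T.h (P (nat_lit 179141532945106337792)) (T.h (P (nat_lit 0)) (P (nat_lit 1545953600471104))))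 (T.h (P (nat_lit 0)) (P (nat_lit 115714159541728)))))) (T.h (T.h (P (nat_lit 0)) (T.h (T.h (P (nat_lit 0)) (M (nat_lit 193123563191042047))) (P (nat_lit 0)))) (T.h (T.h (T.h (P (nat_lit 85790700551431782400)) (T.h (P (nat_lit 0)) (M (nat_lit 153371460460767)))) (T.h (P (nat_lit 0)) (P (nat_lit 115714159541728)))) (T.h (P (nat_lit 0)) (M (nat_lit 48388242410463)))))))), (T.h (T.h (T.h (P (nat_lit 0)) (T.h (M (nat_lit 29376288194465710613708406783)) (T.h (P (nat_lit 0)) (T.h (M (nat_lit 35093809422728020623359)) (T.h (P (nat_lit 0)) (M (nat_lit 488645990257197055))))))) (T.h (P (nat_lit 0)) (T.h (T.h (P (nat_lit 0)) (T.h (P (nat_lit 286482203539050432823296)) (T.h (P (nat_lit 0)) (M (nat_lit 215364510542790655))))) (T.h (P (nat_lit 0)) (T.h (T.h (P (nat_lit 0)) (M (nat_lit 5606270613454847))) (P (nat_lit 0))))))) (T.h (T.h (P (nat_lit 0)) (T.h (T.h (M (nat_lit 101656164803558409808904191)) (T.h (P (nat_lit 0)) (P (nat_lit 369651032577932263424)))) (T.h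 (P (nat_lit 0)) (P (nat_lit 28898813761829208064))))) (T.h (T.h (T.h (P (nat_lit 0)) (T.h (P (nat_lit 286482203539050432823296)) (T.h (P (nat_lit 0)) (M (nat_lit 215364510542790655))))) (T.h (P (nat_lit 0)) (T.h (T.h (P (nat_lit 0)) (M (nat_lit 510769333716254719))) (P (nat_lit 0))))) (T.h (T.h (P (nat_lit 0)) (P (nat_lit 28898813761829208064))) (T.h (T.h (T.h (P (nat_lit 0)) (M (nat_lit 5606270613454847))) (P (nat_lit 0))) (P (nat_lit 0))))))), (P (nat_lit 0)), (P (nat_lit 0)), (T.h (T.h (P (nat_lit 0)) (T.h (T.h (M (nat_lit 10761264159112345455830237183)) (T.h (P (nat_lit 0)) (T.h (M (nat_lit 44057131584592925425663)) (T.h (P (nat_lit 0)) (M (nat_lit 33232012783714303)))))) (T.h (P (nat_lit 0)) (T.h (T.h (P (nat_lit 239678259340123308032)) (T.h (P (nat_lit 0)) (M (nat_lit 391172053358706687)))) (T.h (P (nat_lit 0)) (P (nat_lit 6083027579699200))))))) (T.h (T.h (T.h (P (nat_lit 0)) (T.h (P (nat_lit 16120402417381523331219456)) (T.h (P (nat_lit 0))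 (T.h (M (nat_lit 27908753054742085631)) (T.h (P (nat_lit 0)) (P (nat_lit 33881669526208))))))) (T.h (P (nat_lit 0)) (T.h (T.h (P (nat_lit 0)) (T.h (P (nat_lit 65573374711457382400)) (T.h (P (nat_lit 0)) (M (nat_lit 440929459787479))))) (T.h (P (nat_lit 0)) (T.h (T.h (P (nat_lit 0)) (P (nat_lit 48589310894704))) (P (nat_lit 0))))))) (T.h (T.h (P (nat_lit 0)) (T.h (T.h (M (nat_lit 44057131584592925425663)) (T.h (P (nat_lit 0)) (M (nat_lit 36504727480696831)))) (T.h (P (nat_lit 0)) (M (nat_lit 391172053358706687))))) (T.h (T.h (T.h (P (nat_lit 0)) (T.h (M (nat_lit 27908753054742085631)) (T.h (P (nat_lit 0)) (P (nat_lit 51133428393360))))) (T.h (P (nat_lit 0)) (T.h (T.h (P (nat_lit 0)) (M (nat_lit 440929459787479))) (P (nat_lit 0))))) (T.h (T.h (P (nat_lit 0)) (M (nat_lit 33232012783714303))) (T.h (T.h (T.h (P (nat_lit 0)) (P (nat_lit 33881669526208))) (P (nat_lit 0))) (P (nat_lit 0)))))))), (T.h (T.h (P (nat_lit 0)) (T.h (T.h (P (nat_lit 0)) (T.h (P (nat_lit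 140625031238847143539113984)) (T.h (P (nat_lit 0)) (T.h (P (nat_lit 236949001531557937152)) (T.h (P (nat_lit 0)) (M (nat_lit 216556818452527))))))) (T.h (P (nat_lit 0)) (T.h (T.h (P (nat_lit 0)) (T.h (P (nat_lit 236949001531557937152)) (T.h (P (nat_lit 0)) (P (nat_lit 119539678158720))))) (T.h (P (nat_lit 0)) (T.h (T.h (P (nat_lit 0)) (M (nat_lit 216556818452527))) (P (nat_lit 0)))))))) (T.h (T.h (T.h (M (nat_lit 50668298085092119346977701887)) (T.h (P (nat_lit 0)) (T.h (P (nat_lit 196856778047455427035136)) (T.h (P (nat_lit 0)) (M (nat_lit 330592782220787711)))))) (T.h (P (nat_lit 0)) (T.h (T.h (P (nat_lit 196856778047455427035136)) (T.h (P (nat_lit 0)) (P (nat_lit 2657302187266899968)))) (T.h (P (nat_lit 0)) (M (nat_lit 330592782220787711)))))) (T.h (T.h (P (nat_lit 0)) (T.h (T.h (P (nat_lit 0)) (T.h (M (nat_lit 263741200188655534079)) (T.h (P (nat_lit 0)) (P (nat_lit 138986061083440))))) (T.h (P (nat_lit 0)) (T.h (T.h (P (nat_lit 0)) (P (nat_lit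 138986061083440))) (P (nat_lit 0)))))) (T.h (T.h (T.h (M (nat_lit 48593471775423498027007)) (T.h (P (nat_lit 0)) (P (nat_lit 22193432475156480)))) (T.h (P (nat_lit 0)) (P (nat_lit 22193432475156480)))) (T.h (T.h (P (nat_lit 0)) (T.h (T.h (P (nat_lit 0)) (P (nat_lit 354904499076288))) (P (nat_lit 0)))) (P (nat_lit 27206592869531648))))))), (T.h (T.h (P (nat_lit 0)) (T.h (T.h (P (nat_lit 73688174316094309240714297344)) (T.h (P (nat_lit 0)) (T.h (P (nat_lit 726654696203499998281728)) (T.h (P (nat_lit 0)) (P (nat_lit 1696284430605844480)))))) (T.h (P (nat_lit 0)) (T.h (T.h (M (nat_lit 134279257036277961195519)) (T.h (P (nat_lit 0)) (P (nat_lit 307185335357767680)))) (T.h (P (nat_lit 0)) (P (nat_lit 139676563536871424))))))) (T.h (T.h (T.h (P (nat_lit 0)) (T.h (M (nat_lit 478282437530316076392382463)) (T.h (P (nat_lit 0)) (T.h (P (nat_lit 739671426795699175424)) (T.h (P (nat_lit 0)) (P (nat_lit 462128520591280))))))) (T.h (P (nat_lit 0)) (T.h (T.h (P (nat_lit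 0)) (T.h (M (nat_lit 1331577639341846953983)) (T.h (P (nat_lit 0)) (P (nat_lit 2142289766531600))))) (T.h (P (nat_lit 0)) (T.h (T.h (P (nat_lit 0)) (M (nat_lit 558493873015359))) (P (nat_lit 0))))))) (T.h (T.h (P (nat_lit 0)) (T.h (T.h (M (nat_lit 249519099618854889848831)) (T.h (P (nat_lit 0)) (M (nat_lit 3996098057559965695)))) (T.h (P (nat_lit 0)) (P (nat_lit 15462797180403712))))) (T.h (T.h (T.h (P (nat_lit 0)) (T.h (M (nat_lit 496675261125670993919)) (T.h (P (nat_lit 0)) (M (nat_lit 645090628846959))))) (T.h (P (nat_lit 0)) (T.h (T.h (P (nat_lit 0)) (P (nat_lit 280959651272240))) (P (nat_lit 0))))) (T.h (T.h (P (nat_lit 0)) (M (nat_lit 92734955848695807))) (T.h (T.h (T.h (P (nat_lit 0)) (P (nat_lit 152269385097520))) (P (nat_lit 0))) (P (nat_lit 0))))))))]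
def lQm_22 : List (T ℤ) := [(T.h (T.h (P (nat_lit 0)) (T.h (T.h (P (nat_lit 0)) (T.h (M (nat_lit 554268061982648718608826367)) (T.h (P (nat_lit 0)) (T.h (M (nat_lit 1509857225257798074367)) (T.h (P (nat_lit 0)) (P (nat_lit 346719340363264))))))) (T.h (P (nat_lit 0)) (T.h (T.h (P (nat_lit 0)) (T.h (M (nat_lit 443740358902233956351)) (T.h (P (nat_lit 0)) (M (nat_lit 204484843713391))))) (T.h (P (nat_lit 0)) (T.h (T.h (P (nat_lit 0)) (M (nat_lit 233783438575983))) (P (nat_lit 0)))))))) (T.h (T.h (T.h (P (nat_lit 19358757907562315046719586304)) (T.h (P (nat_lit 0)) (T.h (M (nat_lit 821825102410671628222463)) (T.h (P (nat_lit 0)) (M (nat_lit 822325341666951167)))))) (T.h (P (nat_lit 0)) (T.h (T.h (P (nat_lit 476423577245513565601792)) (T.h (P (nat_lit 0)) (M (nat_lit 1120090004433469439)))) (T.h (P (nat_lit 0)) (P (nat_lit 189194584109727744)))))) (T.h (T.h (P (nat_lit 0)) (T.h (T.h (P (nat_lit 0)) (T.h (P (nat_lit 1515155284965963333632)) (T.h (P (nat_lit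 0)) (M (nat_lit 209987776456831))))) (T.h (P (nat_lit 0)) (T.h (T.h (P (nat_lit 0)) (P (nat_lit 295459527894608))) (P (nat_lit 0)))))) (T.h (T.h (T.h (P (nat_lit 178031969107254934765568)) (T.h (P (nat_lit 0)) (M (nat_lit 787272089171591167)))) (T.h (P (nat_lit 0)) (P (nat_lit 64653329598595072)))) (T.h (T.h (P (nat_lit 0)) (T.h (T.h (P (nat_lit 0)) (M (nat_lit 842506019795263))) (P (nat_lit 0)))) (M (nat_lit 106449234473418751))))))), (T.h (T.h (P (nat_lit 0)) (T.h (T.h (P (nat_lit 133768656778760561275365752832)) (T.h (P (nat_lit 0)) (T.h (P (nat_lit 1083909940175908072587264)) (T.h (P (nat_lit 0)) (M (nat_lit 695645357607747583)))))) (T.h (P (nat_lit 0)) (T.h (T.h (M (nat_lit 29219963289720217141247)) (T.h (P (nat_lit 0)) (P (nat_lit 161074343272644608)))) (T.h (P (nat_lit 0)) (P (nat_lit 65373264351297536))))))) (T.h (T.h (T.h (P (nat_lit 0)) (T.h (P (nat_lit 71817996516439123818446848)) (T.h (P (nat_lit 0)) (P (nat_lit 237324560957846847488)))))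 (T.h (P (nat_lit 0)) (T.h (T.h (P (nat_lit 0)) (P (nat_lit 302479476523544870912))) (P (nat_lit 0))))) (T.h (T.h (P (nat_lit 0)) (T.h (T.h (M (nat_lit 265991905201773512491007)) (T.h (P (nat_lit 0)) (M (nat_lit 531307149684015103)))) (T.h (P (nat_lit 0)) (M (nat_lit 127190422486253567))))) (T.h (T.h (T.h (P (nat_lit 0)) (P (nat_lit 293417813422567849984))) (P (nat_lit 0))) (T.h (T.h (P (nat_lit 0)) (P (nat_lit 10578727072661504))) (P (nat_lit 0))))))), (P (nat_lit 0)), (P (nat_lit 0)), (T.h (T.h (T.h (P (nat_lit 0)) (T.h (M (nat_lit 14749881374374213291704582143)) (T.h (P (nat_lit 0)) (T.h (M (nat_lit 23967263814739944275967)) (T.h (P (nat_lit 0)) (P (nat_lit 15704723851444224))))))) (T.h (P (nat_lit 0)) (T.h (T.h (P (nat_lit 0)) (T.h (M (nat_lit 45578621915765286109183)) (T.h (P (nat_lit 0)) (M (nat_lit 73661871872507903))))) (T.h (P (nat_lit 0)) (T.h (T.h (P (nat_lit 0)) (M (nat_lit 82368393406119935))) (P (nat_lit 0))))))) (T.h (T.h (P (nat_lit 0))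 (T.h (T.h (M (nat_lit 16689975229306857561522175)) (T.h (P (nat_lit 0)) (T.h (P (nat_lit 162779457600087916544)) (T.h (P (nat_lit 0)) (M (nat_lit 168625746219079)))))) (T.h (P (nat_lit 0)) (T.h (T.h (P (nat_lit 69817159720112226304)) (T.h (P (nat_lit 0)) (M (nat_lit 194229106012303)))) (T.h (P (nat_lit 0)) (P (nat_lit 380826871142320))))))) (T.h (T.h (T.h (P (nat_lit 0)) (T.h (P (nat_lit 11789734253094215090176)) (T.h (P (nat_lit 0)) (M (nat_lit 8725983411961855))))) (T.h (P (nat_lit 0)) (T.h (T.h (P (nat_lit 0)) (P (nat_lit 192862439883210752))) (P (nat_lit 0))))) (T.h (T.h (P (nat_lit 0)) (T.h (T.h (M (nat_lit 365066461145726975)) (T.h (P (nat_lit 0)) (M (nat_lit 62213392378343)))) (T.h (P (nat_lit 0)) (M (nat_lit 382192262736495))))) (T.h (T.h (T.h (P (nat_lit 0)) (M (nat_lit 3093658246119423))) (P (nat_lit 0))) (T.h (T.h (P (nat_lit 0)) (M (nat_lit 26716995752967))) (P (nat_lit 0)))))))), (T.h (T.h (T.h (M (nat_lit 17594253107046821248647494107135))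 (T.h (P (nat_lit 0)) (T.h (P (nat_lit 21304803120963885708869632)) (T.h (P (nat_lit 0)) (T.h (M (nat_lit 10244170915285827583)) (T.h (P (nat_lit 0)) (P (nat_lit 35204148183136)))))))) (T.h (P (nat_lit 0)) (T.h (T.h (M (nat_lit 2350367630756910246920191)) (T.h (P (nat_lit 0)) (T.h (P (nat_lit 297407163401181855744)) (T.h (P (nat_lit 0)) (M (nat_lit 155512376735103)))))) (T.h (P (nat_lit 0)) (T.h (T.h (P (nat_lit 69696027185236672512)) (T.h (P (nat_lit 0)) (M (nat_lit 59244869932431)))) (T.h (P (nat_lit 0)) (M (nat_lit 16207010583903)))))))) (T.h (T.h (P (nat_lit 0)) (T.h (T.h (P (nat_lit 0)) (T.h (P (nat_lit 194674404354259844857856)) (T.h (P (nat_lit 0)) (M (nat_lit 285714783448793087))))) (T.h (P (nat_lit 0)) (T.h (T.h (P (nat_lit 0)) (P (nat_lit 187746599905984512))) (P (nat_lit 0)))))) (T.h (T.h (T.h (P (nat_lit 21304803120963885708869632)) (T.h (P (nat_lit 0)) (T.h (M (nat_lit 44292742647633674239)) (T.h (P (nat_lit 0)) (P (nat_lit 7477112616224))))))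 (T.h (P (nat_lit 0)) (T.h (T.h (P (nat_lit 297407163401181855744)) (T.h (P (nat_lit 0)) (P (nat_lit 158867203205152)))) (T.h (P (nat_lit 0)) (M (nat_lit 59244869932431)))))) (T.h (T.h (P (nat_lit 0)) (T.h (T.h (P (nat_lit 0)) (M (nat_lit 285714783448793087))) (P (nat_lit 0)))) (T.h (T.h (T.h (M (nat_lit 10244170915285827583)) (T.h (P (nat_lit 0)) (P (nat_lit 7477112616224)))) (T.h (P (nat_lit 0)) (M (nat_lit 155512376735103)))) (T.h (P (nat_lit 0)) (P (nat_lit 35204148183136)))))))), (T.h (T.h (T.h (P (nat_lit 0)) (T.h (P (nat_lit 73688174316094309240714297344)) (T.h (P (nat_lit 0)) (T.h (M (nat_lit 134279257036277961195519)) (T.h (P (nat_lit 0)) (P (nat_lit 139676563536871424))))))) (T.h (P (nat_lit 0)) (T.h (T.h (P (nat_lit 0)) (T.h (P (nat_lit 726654696203499998281728)) (T.h (P (nat_lit 0)) (P (nat_lit 307185335357767680))))) (T.h (P (nat_lit 0)) (T.h (T.h (P (nat_lit 0)) (P (nat_lit 1696284430605844480))) (P (nat_lit 0))))))) (T.h (T.h (P (nat_lit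 0)) (T.h (T.h (M (nat_lit 478282437530316076392382463)) (T.h (P (nat_lit 0)) (T.h (M (nat_lit 1331577639341846953983)) (T.h (P (nat_lit 0)) (M (nat_lit 558493873015359)))))) (T.h (P (nat_lit 0)) (T.h (T.h (P (nat_lit 739671426795699175424)) (T.h (P (nat_lit 0)) (P (nat_lit 2142289766531600)))) (T.h (P (nat_lit 0)) (P (nat_lit 462128520591280))))))) (T.h (T.h (T.h (P (nat_lit 0)) (T.h (M (nat_lit 249519099618854889848831)) (T.h (P (nat_lit 0)) (P (nat_lit 15462797180403712))))) (T.h (P (nat_lit 0)) (T.h (T.h (P (nat_lit 0)) (M (nat_lit 3996098057559965695))) (P (nat_lit 0))))) (T.h (T.h (P (nat_lit 0)) (T.h (T.h (M (nat_lit 496675261125670993919)) (T.h (P (nat_lit 0)) (P (nat_lit 280959651272240)))) (T.h (P (nat_lit 0)) (M (nat_lit 645090628846959))))) (T.h (T.h (T.h (P (nat_lit 0)) (M (nat_lit 92734955848695807))) (P (nat_lit 0))) (T.h (T.h (P (nat_lit 0)) (P (nat_lit 152269385097520))) (P (nat_lit 0)))))))), (T.h (T.h (T.h (M (nat_lit 92097496189341942435335758675967))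 (T.h (P (nat_lit 0)) (T.h (P (nat_lit 103826132449980981687877632)) (T.h (P (nat_lit 0)) (T.h (M (nat_lit 65786709903167979519)) (T.h (P (nat_lit 0)) (M (nat_lit 65631642162591)))))))) (T.h (P (nat_lit 0)) (T.h (T.h (P (nat_lit 103826132449980981687877632)) (T.h (P (nat_lit 0)) (T.h (M (nat_lit 718624041559339827199)) (T.h (P (nat_lit 0)) (P (nat_lit 892110877397168)))))) (T.h (P (nat_lit 0)) (T.h (T.h (M (nat_lit 65786709903167979519)) (T.h (P (nat_lit 0)) (P (nat_lit 892110877397168)))) (T.h (P (nat_lit 0)) (M (nat_lit 65631642162591)))))))) (T.h (T.h (P (nat_lit 0)) (T.h (T.h (P (nat_lit 0)) (T.h (P (nat_lit 1190323880092584575500288)) (T.h (P (nat_lit 0)) (P (nat_lit 169024480259538944))))) (T.h (P (nat_lit 0)) (T.h (T.h (P (nat_lit 0)) (P (nat_lit 169024480259538944))) (P (nat_lit 0)))))) (T.h (T.h (T.h (P (nat_lit 627887850013612944052453376)) (T.h (P (nat_lit 0)) (T.h (P (nat_lit 395518736283207729152)) (T.h (P (nat_lit 0)) (M (nat_lit 46665150786847))))))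 (T.h (P (nat_lit 0)) (T.h (T.h (P (nat_lit 395518736283207729152)) (T.h (P (nat_lit 0)) (M (nat_lit 2378042901799487)))) (T.h (P (nat_lit 0)) (M (nat_lit 46665150786847)))))) (T.h (T.h (P (nat_lit 0)) (T.h (T.h (P (nat_lit 0)) (P (nat_lit 1362370564348903424))) (P (nat_lit 0)))) (T.h (T.h (T.h (M (nat_lit 72963703496805187583)) (T.h (P (nat_lit 0)) (P (nat_lit 762953646744960)))) (T.h (P (nat_lit 0)) (P (nat_lit 762953646744960)))) (T.h (P (nat_lit 0)) (P (nat_lit 21455725471840))))))))]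
def lQm_23 : List (T ℤ) := [(T.h (T.h (T.h (P (nat_lit 0)) (T.h (P (nat_lit 58533588080269667130553663488)) (T.h (P (nat_lit 0)) (T.h (P (nat_lit 194793753450289104420864)) (T.h (P (nat_lit 0)) (M (nat_lit 15147995482423295))))))) (T.h (P (nat_lit 0)) (T.h (T.h (P (nat_lit 0)) (T.h (M (nat_lit 228364555603926038085631)) (T.h (P (nat_lit 0)) (M (nat_lit 522124404768767999))))) (T.h (P (nat_lit 0)) (T.h (T.h (P (nat_lit 0)) (M (nat_lit 125002415436529663))) (P (nat_lit 0))))))) (T.h (T.h (P (nat_lit 0)) (T.h (T.h (M (nat_lit 62512067805864717822459903)) (T.h (P (nat_lit 0)) (M (nat_lit 562928614136549998591)))) (T.h (P (nat_lit 0)) (M (nat_lit 152497253471509020671))))) (T.h (T.h (T.h (P (nat_lit 0)) (T.h (M (nat_lit 307387787828805941329919)) (T.h (P (nat_lit 0)) (P (nat_lit 144336044066504704))))) (T.h (P (nat_lit 0)) (T.h (T.h (P (nat_lit 0)) (P (nat_lit 1070033940780810240))) (P (nat_lit 0))))) (T.h (T.h (P (nat_lit 0)) (M (nat_lit 451596974912692027391)))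 (T.h (T.h (T.h (P (nat_lit 0)) (P (nat_lit 32282370373353472))) (P (nat_lit 0))) (P (nat_lit 0))))))), (P (nat_lit 0)), (P (nat_lit 0)), (T.h (T.h (P (nat_lit 0)) (T.h (T.h (P (nat_lit 2055456681931519564426772480)) (T.h (P (nat_lit 0)) (T.h (M (nat_lit 10035423191259844444159)) (T.h (P (nat_lit 0)) (P (nat_lit 4075656891629568)))))) (T.h (P (nat_lit 0)) (T.h (T.h (P (nat_lit 4248991952857825542144)) (T.h (P (nat_lit 0)) (P (nat_lit 48569078005039104)))) (T.h (P (nat_lit 0)) (M (nat_lit 3485283988078591))))))) (T.h (T.h (T.h (P (nat_lit 0)) (T.h (M (nat_lit 1705315292969379989291007)) (T.h (P (nat_lit 0)) (T.h (P (nat_lit 2377763215032451072)) (T.h (P (nat_lit 0)) (P (nat_lit 7158406918608))))))) (T.h (P (nat_lit 0)) (T.h (T.h (P (nat_lit 0)) (T.h (P (nat_lit 876704851256410112)) (T.h (P (nat_lit 0)) (P (nat_lit 12562440285328))))) (T.h (P (nat_lit 0)) (T.h (T.h (P (nat_lit 0)) (M (nat_lit 28937018074767))) (P (nat_lit 0))))))) (T.h (T.h (P (nat_lit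 0)) (T.h (T.h (M (nat_lit 2766668727805554982911)) (T.h (P (nat_lit 0)) (P (nat_lit 454002489458688)))) (T.h (P (nat_lit 0)) (M (nat_lit 8725047214145535))))) (T.h (T.h (T.h (P (nat_lit 0)) (T.h (P (nat_lit 2476425389400915968)) (T.h (P (nat_lit 0)) (P (nat_lit 2063416401616))))) (T.h (P (nat_lit 0)) (T.h (T.h (P (nat_lit 0)) (M (nat_lit 1415563387735))) (P (nat_lit 0))))) (T.h (T.h (P (nat_lit 0)) (M (nat_lit 2451024506814463))) (T.h (T.h (T.h (P (nat_lit 0)) (M (nat_lit 6242764166039))) (P (nat_lit 0))) (P (nat_lit 0)))))))), (T.h (T.h (P (nat_lit 0)) (T.h (T.h (P (nat_lit 0)) (T.h (P (nat_lit 139046393886373083755839488)) (T.h (P (nat_lit 0)) (T.h (P (nat_lit 4517300243741540352)) (T.h (P (nat_lit 0)) (M (nat_lit 34652740068447))))))) (T.h (P (nat_lit 0)) (T.h (T.h (P (nat_lit 0)) (T.h (P (nat_lit 317902782325436973056)) (T.h (P (nat_lit 0)) (P (nat_lit 6711510549152))))) (T.h (P (nat_lit 0)) (T.h (T.h (P (nat_lit 0)) (M (nat_lit 72084300084943)))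 (P (nat_lit 0)))))))) (T.h (T.h (T.h (M (nat_lit 16673976384456745519977332735)) (T.h (P (nat_lit 0)) (T.h (M (nat_lit 636810433992612380671)) (T.h (P (nat_lit 0)) (M (nat_lit 150854767535882239)))))) (T.h (P (nat_lit 0)) (T.h (T.h (M (nat_lit 276038670265591703535615)) (T.h (P (nat_lit 0)) (P (nat_lit 280027309767213056)))) (T.h (P (nat_lit 0)) (M (nat_lit 147136834461990911)))))) (T.h (T.h (P (nat_lit 0)) (T.h (T.h (P (nat_lit 0)) (T.h (P (nat_lit 49455307798848995328)) (T.h (P (nat_lit 0)) (P (nat_lit 16557836531408))))) (T.h (P (nat_lit 0)) (T.h (T.h (P (nat_lit 0)) (M (nat_lit 75934935373951))) (P (nat_lit 0)))))) (T.h (T.h (T.h (P (nat_lit 21987762614248631435264)) (T.h (P (nat_lit 0)) (M (nat_lit 92686055715602431)))) (T.h (P (nat_lit 0)) (P (nat_lit 432994986391224320)))) (T.h (T.h (P (nat_lit 0)) (T.h (T.h (P (nat_lit 0)) (P (nat_lit 4164924265456))) (P (nat_lit 0)))) (M (nat_lit 5203831536091135))))))), (T.h (T.h (P (nat_lit 0)) (T.h (T.h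 (M (nat_lit 69633019206119853098857922559)) (T.h (P (nat_lit 0)) (T.h (M (nat_lit 158227689711631811477503)) (T.h (P (nat_lit 0)) (P (nat_lit 299866337198080000)))))) (T.h (P (nat_lit 0)) (T.h (T.h (P (nat_lit 32165377150601421389824)) (T.h (P (nat_lit 0)) (M (nat_lit 1577009487523938303)))) (T.h (P (nat_lit 0)) (M (nat_lit 549582392462606335))))))) (T.h (T.h (T.h (P (nat_lit 0)) (T.h (P (nat_lit 195476179480490388299448320)) (T.h (P (nat_lit 0)) (T.h (M (nat_lit 117559666176704905215)) (T.h (P (nat_lit 0)) (M (nat_lit 40329959640399))))))) (T.h (P (nat_lit 0)) (T.h (T.h (P (nat_lit 0)) (T.h (P (nat_lit 733300534981362188288)) (T.h (P (nat_lit 0)) (M (nat_lit 327972253000559))))) (T.h (P (nat_lit 0)) (T.h (T.h (P (nat_lit 0)) (P (nat_lit 712331587072960))) (P (nat_lit 0))))))) (T.h (T.h (P (nat_lit 0)) (T.h (T.h (M (nat_lit 158227689711631811477503)) (T.h (P (nat_lit 0)) (P (nat_lit 185226729645146112)))) (T.h (P (nat_lit 0)) (M (nat_lit 1577009487523938303)))))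 (T.h (T.h (T.h (P (nat_lit 0)) (T.h (M (nat_lit 117559666176704905215)) (T.h (P (nat_lit 0)) (P (nat_lit 178876977698560))))) (T.h (P (nat_lit 0)) (T.h (T.h (P (nat_lit 0)) (M (nat_lit 327972253000559))) (P (nat_lit 0))))) (T.h (T.h (P (nat_lit 0)) (P (nat_lit 299866337198080000))) (T.h (T.h (T.h (P (nat_lit 0)) (M (nat_lit 40329959640399))) (P (nat_lit 0))) (P (nat_lit 0)))))))), (T.h (T.h (P (nat_lit 0)) (T.h (T.h (P (nat_lit 0)) (T.h (M (nat_lit 554268061982648718608826367)) (T.h (P (nat_lit 0)) (T.h (M (nat_lit 443740358902233956351)) (T.h (P (nat_lit 0)) (M (nat_lit 233783438575983))))))) (T.h (P (nat_lit 0)) (T.h (T.h (P (nat_lit 0)) (T.h (M (nat_lit 1509857225257798074367)) (T.h (P (nat_lit 0)) (M (nat_lit 204484843713391))))) (T.h (P (nat_lit 0)) (T.h (T.h (P (nat_lit 0)) (P (nat_lit 346719340363264))) (P (nat_lit 0)))))))) (T.h (T.h (T.h (P (nat_lit 19358757907562315046719586304)) (T.h (P (nat_lit 0)) (T.h (P (nat_lit 476423577245513565601792))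 (T.h (P (nat_lit 0)) (P (nat_lit 189194584109727744)))))) (T.h (P (nat_lit 0)) (T.h (T.h (M (nat_lit 821825102410671628222463)) (T.h (P (nat_lit 0)) (M (nat_lit 1120090004433469439)))) (T.h (P (nat_lit 0)) (M (nat_lit 822325341666951167)))))) (T.h (T.h (P (nat_lit 0)) (T.h (T.h (P (nat_lit 0)) (T.h (P (nat_lit 1515155284965963333632)) (T.h (P (nat_lit 0)) (P (nat_lit 295459527894608))))) (T.h (P (nat_lit 0)) (T.h (T.h (P (nat_lit 0)) (M (nat_lit 209987776456831))) (P (nat_lit 0)))))) (T.h (T.h (T.h (P (nat_lit 178031969107254934765568)) (T.h (P (nat_lit 0)) (P (nat_lit 64653329598595072)))) (T.h (P (nat_lit 0)) (M (nat_lit 787272089171591167)))) (T.h (T.h (P (nat_lit 0)) (T.h (T.h (P (nat_lit 0)) (M (nat_lit 842506019795263))) (P (nat_lit 0)))) (M (nat_lit 106449234473418751))))))), (T.h (T.h (P (nat_lit 0)) (T.h (T.h (P (nat_lit 58533588080269667130553663488)) (T.h (P (nat_lit 0)) (T.h (M (nat_lit 228364555603926038085631)) (T.h (P (nat_lit 0)) (M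 (nat_lit 125002415436529663)))))) (T.h (P (nat_lit 0)) (T.h (T.h (P (nat_lit 194793753450289104420864)) (T.h (P (nat_lit 0)) (M (nat_lit 522124404768767999)))) (T.h (P (nat_lit 0)) (M (nat_lit 15147995482423295))))))) (T.h (T.h (T.h (P (nat_lit 0)) (T.h (M (nat_lit 62512067805864717822459903)) (T.h (P (nat_lit 0)) (M (nat_lit 152497253471509020671))))) (T.h (P (nat_lit 0)) (T.h (T.h (P (nat_lit 0)) (M (nat_lit 562928614136549998591))) (P (nat_lit 0))))) (T.h (T.h (P (nat_lit 0)) (T.h (T.h (M (nat_lit 307387787828805941329919)) (T.h (P (nat_lit 0)) (P (nat_lit 1070033940780810240)))) (T.h (P (nat_lit 0)) (P (nat_lit 144336044066504704))))) (T.h (T.h (T.h (P (nat_lit 0)) (M (nat_lit 451596974912692027391))) (P (nat_lit 0))) (T.h (T.h (P (nat_lit 0)) (P (nat_lit 32282370373353472))) (P (nat_lit 0)))))))]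
def lQm_24 : List (T ℤ) := [(P (nat_lit 0)), (P (nat_lit 0)), (T.h (T.h (T.h (M (nat_lit 16310421525849164254090450960383)) (T.h (P (nat_lit 0)) (T.h (M (nat_lit 1377791761044098531721215)) (T.h (P (nat_lit 0)) (T.h (P (nat_lit 4136264342167355392)) (T.h (P (nat_lit 0)) (M (nat_lit 2258787755471)))))))) (T.h (P (nat_lit 0)) (T.h (T.h (P (nat_lit 11683839568522379406606336)) (T.h (P (nat_lit 0)) (T.h (M (nat_lit 48808837752610095103)) (T.h (P (nat_lit 0)) (M (nat_lit 27352561037247)))))) (T.h (P (nat_lit 0)) (T.h (T.h (M (nat_lit 2035208997841141759)) (T.h (P (nat_lit 0)) (P (nat_lit 65805890694080)))) (T.h (P (nat_lit 0)) (P (nat_lit 63359498543120)))))))) (T.h (T.h (P (nat_lit 0)) (T.h (T.h (P (nat_lit 0)) (T.h (P (nat_lit 10010703217678719385600)) (T.h (P (nat_lit 0)) (M (nat_lit 61646594252767231))))) (T.h (P (nat_lit 0)) (T.h (T.h (P (nat_lit 0)) (M (nat_lit 190586810511065087))) (P (nat_lit 0)))))) (T.h (T.h (T.h (P (nat_lit 10121519114408553399451648))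 (T.h (P (nat_lit 0)) (T.h (M (nat_lit 244134082416476159)) (T.h (P (nat_lit 0)) (P (nat_lit 7778266412928)))))) (T.h (P (nat_lit 0)) (T.h (T.h (P (nat_lit 61914797905744494592)) (T.h (P (nat_lit 0)) (M (nat_lit 2428238407215)))) (T.h (P (nat_lit 0)) (P (nat_lit 439341944415168)))))) (T.h (T.h (P (nat_lit 0)) (T.h (T.h (P (nat_lit 0)) (P (nat_lit 62959274422501376))) (P (nat_lit 0)))) (T.h (T.h (T.h (M (nat_lit 2857327944320155647)) (T.h (P (nat_lit 0)) (P (nat_lit 7834943220656)))) (T.h (P (nat_lit 0)) (M (nat_lit 25450372979775)))) (T.h (P (nat_lit 0)) (P (nat_lit 7181325551792)))))))), (T.h (T.h (T.h (P (nat_lit 0)) (T.h (M (nat_lit 49729393334821837117149151231)) (T.h (P (nat_lit 0)) (T.h (P (nat_lit 147949350077792008536064)) (T.h (P (nat_lit 0)) (M (nat_lit 39457157562138623))))))) (T.h (P (nat_lit 0)) (T.h (T.h (P (nat_lit 0)) (T.h (P (nat_lit 73843120531193250971648)) (T.h (P (nat_lit 0)) (P (nat_lit 266648551588659200))))) (T.h (P (nat_lit 0))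 (T.h (T.h (P (nat_lit 0)) (P (nat_lit 415386975931596800))) (P (nat_lit 0))))))) (T.h (T.h (P (nat_lit 0)) (T.h (T.h (P (nat_lit 21803050347179325362536448)) (T.h (P (nat_lit 0)) (T.h (M (nat_lit 196772623904814399487)) (T.h (P (nat_lit 0)) (P (nat_lit 44698048341040)))))) (T.h (P (nat_lit 0)) (T.h (T.h (M (nat_lit 1399096577830976225279)) (T.h (P (nat_lit 0)) (P (nat_lit 441513584918560)))) (T.h (P (nat_lit 0)) (P (nat_lit 50797908112000))))))) (T.h (T.h (T.h (P (nat_lit 0)) (T.h (P (nat_lit 40371155272180078477312)) (T.h (P (nat_lit 0)) (M (nat_lit 10659707077853183))))) (T.h (P (nat_lit 0)) (T.h (T.h (P (nat_lit 0)) (P (nat_lit 271640997523259392))) (P (nat_lit 0))))) (T.h (T.h (P (nat_lit 0)) (T.h (T.h (P (nat_lit 252614769847746691072)) (T.h (P (nat_lit 0)) (M (nat_lit 20503582987039)))) (T.h (P (nat_lit 0)) (P (nat_lit 711631137030640))))) (T.h (T.h (T.h (P (nat_lit 0)) (P (nat_lit 147024609411497984))) (P (nat_lit 0))) (T.h (T.h (P (nat_lit 0))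 (P (nat_lit 43199649132080))) (P (nat_lit 0)))))))), (T.h (T.h (T.h (P (nat_lit 26077830506595865461661229907968)) (T.h (P (nat_lit 0)) (T.h (M (nat_lit 318182497165845239080943615)) (T.h (P (nat_lit 0)) (T.h (P (nat_lit 85790700551431782400)) (T.h (P (nat_lit 0)) (M (nat_lit 48388242410463)))))))) (T.h (P (nat_lit 0)) (T.h (T.h (M (nat_lit 264928016980467986982764543)) (T.h (P (nat_lit 0)) (T.h (M (nat_lit 693921528551026196479)) (T.h (P (nat_lit 0)) (M (nat_lit 153371460460767)))))) (T.h (P (nat_lit 0)) (T.h (T.h (M (nat_lit 218518617920488079359)) (T.h (P (nat_lit 0)) (P (nat_lit 60230847533472)))) (T.h (P (nat_lit 0)) (P (nat_lit 329438584916672)))))))) (T.h (T.h (P (nat_lit 0)) (T.h (T.h (P (nat_lit 0)) (T.h (P (nat_lit 318982793860663945986048)) (T.h (P (nat_lit 0)) (M (nat_lit 193123563191042047))))) (T.h (P (nat_lit 0)) (T.h (T.h (P (nat_lit 0)) (M (nat_lit 1483349204858044415))) (P (nat_lit 0)))))) (T.h (T.h (T.h (M (nat_lit 318182497165845239080943615))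 (T.h (P (nat_lit 0)) (T.h (P (nat_lit 179141532945106337792)) (T.h (P (nat_lit 0)) (P (nat_lit 115714159541728)))))) (T.h (P (nat_lit 0)) (T.h (T.h (M (nat_lit 693921528551026196479)) (T.h (P (nat_lit 0)) (P (nat_lit 1545953600471104)))) (T.h (P (nat_lit 0)) (P (nat_lit 60230847533472)))))) (T.h (T.h (P (nat_lit 0)) (T.h (T.h (P (nat_lit 0)) (M (nat_lit 193123563191042047))) (P (nat_lit 0)))) (T.h (T.h (T.h (P (nat_lit 85790700551431782400)) (T.h (P (nat_lit 0)) (P (nat_lit 115714159541728)))) (T.h (P (nat_lit 0)) (M (nat_lit 153371460460767)))) (T.h (P (nat_lit 0)) (M (nat_lit 48388242410463)))))))), (T.h (T.h (T.h (P (nat_lit 0)) (T.h (P (nat_lit 133768656778760561275365752832)) (T.h (P (nat_lit 0)) (T.h (M (nat_lit 29219963289720217141247)) (T.h (P (nat_lit 0)) (P (nat_lit 65373264351297536))))))) (T.h (P (nat_lit 0)) (T.h (T.h (P (nat_lit 0)) (T.h (P (nat_lit 1083909940175908072587264)) (T.h (P (nat_lit 0)) (P (nat_lit 161074343272644608))))) (T.h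 (P (nat_lit 0)) (T.h (T.h (P (nat_lit 0)) (M (nat_lit 695645357607747583))) (P (nat_lit 0))))))) (T.h (T.h (P (nat_lit 0)) (T.h (T.h (P (nat_lit 71817996516439123818446848)) (T.h (P (nat_lit 0)) (P (nat_lit 302479476523544870912)))) (T.h (P (nat_lit 0)) (P (nat_lit 237324560957846847488))))) (T.h (T.h (T.h (P (nat_lit 0)) (T.h (M (nat_lit 265991905201773512491007)) (T.h (P (nat_lit 0)) (M (nat_lit 127190422486253567))))) (T.h (P (nat_lit 0)) (T.h (T.h (P (nat_lit 0)) (M (nat_lit 531307149684015103))) (P (nat_lit 0))))) (T.h (T.h (P (nat_lit 0)) (P (nat_lit 293417813422567849984))) (T.h (T.h (T.h (P (nat_lit 0)) (P (nat_lit 10578727072661504))) (P (nat_lit 0))) (P (nat_lit 0))))))), (P (nat_lit 0)), (P (nat_lit 0))]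
def lQm_25 : List (T ℤ) := [(T.h (T.h (P (nat_lit 0)) (T.h (T.h (M (nat_lit 21123593321619357335306633215)) (T.h (P (nat_lit 0)) (T.h (M (nat_lit 50430542327613638049791)) (T.h (P (nat_lit 0)) (P (nat_lit 55334082025422848)))))) (T.h (P (nat_lit 0)) (T.h (T.h (P (nat_lit 15010200804235572936704)) (T.h (P (nat_lit 0)) (M (nat_lit 165041657512427519)))) (T.h (P (nat_lit 0)) (M (nat_lit 154004297327050751))))))) (T.h (T.h (T.h (P (nat_lit 0)) (T.h (P (nat_lit 2581634979122964043137024)) (T.h (P (nat_lit 0)) (T.h (M (nat_lit 32675668490924851199)) (T.h (P (nat_lit 0)) (P (nat_lit 16361497986480))))))) (T.h (P (nat_lit 0)) (T.h (T.h (P (nat_lit 0)) (T.h (P (nat_lit 58709018431610421248)) (T.h (P (nat_lit 0)) (M (nat_lit 107680149905439))))) (T.h (P (nat_lit 0)) (T.h (T.h (P (nat_lit 0)) (P (nat_lit 58319323554320))) (P (nat_lit 0))))))) (T.h (T.h (P (nat_lit 0)) (T.h (T.h (P (nat_lit 5919988966405504499712)) (T.h (P (nat_lit 0)) (P (nat_lit 50862758182420480))))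 (T.h (P (nat_lit 0)) (M (nat_lit 58402257737056255))))) (T.h (T.h (T.h (P (nat_lit 0)) (T.h (M (nat_lit 21661246487506452479)) (T.h (P (nat_lit 0)) (P (nat_lit 66069034018640))))) (T.h (P (nat_lit 0)) (T.h (T.h (P (nat_lit 0)) (M (nat_lit 103123823580639))) (P (nat_lit 0))))) (T.h (T.h (P (nat_lit 0)) (M (nat_lit 10609186901458943))) (T.h (T.h (T.h (P (nat_lit 0)) (P (nat_lit 33653347756400))) (P (nat_lit 0))) (P (nat_lit 0)))))))), (T.h (T.h (P (nat_lit 0)) (T.h (T.h (P (nat_lit 0)) (T.h (M (nat_lit 24686943158788964208345087)) (T.h (P (nat_lit 0)) (T.h (M (nat_lit 237096645803731058687)) (T.h (P (nat_lit 0)) (P (nat_lit 56760557853824))))))) (T.h (P (nat_lit 0)) (T.h (T.h (P (nat_lit 0)) (T.h (P (nat_lit 630235638186064740352)) (T.h (P (nat_lit 0)) (P (nat_lit 186187917737008))))) (T.h (P (nat_lit 0)) (T.h (T.h (P (nat_lit 0)) (P (nat_lit 323965957366480))) (P (nat_lit 0)))))))) (T.h (T.h (T.h (M (nat_lit 4917936981971218361554567167)) (T.h (P (nat_lit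 0)) (T.h (P (nat_lit 69494433174587336294400)) (T.h (P (nat_lit 0)) (M (nat_lit 2208243714326527)))))) (T.h (P (nat_lit 0)) (T.h (T.h (P (nat_lit 419121629837070438498304)) (T.h (P (nat_lit 0)) (M (nat_lit 395215621298323455)))) (T.h (P (nat_lit 0)) (M (nat_lit 2451348865101381631)))))) (T.h (T.h (P (nat_lit 0)) (T.h (T.h (P (nat_lit 0)) (T.h (M (nat_lit 126279138848112902143)) (T.h (P (nat_lit 0)) (M (nat_lit 58086204154527))))) (T.h (P (nat_lit 0)) (T.h (T.h (P (nat_lit 0)) (P (nat_lit 357255833203280))) (P (nat_lit 0)))))) (T.h (T.h (T.h (M (nat_lit 63985465020640980369407)) (T.h (P (nat_lit 0)) (M (nat_lit 112431178090102783)))) (T.h (P (nat_lit 0)) (M (nat_lit 325957275491155967)))) (T.h (T.h (P (nat_lit 0)) (T.h (T.h (P (nat_lit 0)) (P (nat_lit 53051936705152))) (P (nat_lit 0)))) (M (nat_lit 37867905166016511))))))), (T.h (T.h (P (nat_lit 0)) (T.h (T.h (M (nat_lit 29376288194465710613708406783)) (T.h (P (nat_lit 0)) (T.h (P (nat_lit 286482203539050432823296))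 (T.h (P (nat_lit 0)) (M (nat_lit 5606270613454847)))))) (T.h (P (nat_lit 0)) (T.h (T.h (M (nat_lit 35093809422728020623359)) (T.h (P (nat_lit 0)) (M (nat_lit 215364510542790655)))) (T.h (P (nat_lit 0)) (M (nat_lit 488645990257197055))))))) (T.h (T.h (T.h (P (nat_lit 0)) (T.h (M (nat_lit 101656164803558409808904191)) (T.h (P (nat_lit 0)) (P (nat_lit 28898813761829208064))))) (T.h (P (nat_lit 0)) (T.h (T.h (P (nat_lit 0)) (P (nat_lit 369651032577932263424))) (P (nat_lit 0))))) (T.h (T.h (P (nat_lit 0)) (T.h (T.h (P (nat_lit 286482203539050432823296)) (T.h (P (nat_lit 0)) (M (nat_lit 510769333716254719)))) (T.h (P (nat_lit 0)) (M (nat_lit 215364510542790655))))) (T.h (T.h (T.h (P (nat_lit 0)) (P (nat_lit 28898813761829208064))) (P (nat_lit 0))) (T.h (T.h (P (nat_lit 0)) (M (nat_lit 5606270613454847))) (P (nat_lit 0))))))), (P (nat_lit 0)), (P (nat_lit 0)), (T.h (T.h (T.h (P (nat_lit 648354378398368560434359828480)) (T.h (P (nat_lit 0)) (T.h (P (nat_lit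 405226602017100610404352)) (T.h (P (nat_lit 0)) (T.h (M (nat_lit 5430699604901363711)) (T.h (P (nat_lit 0)) (P (nat_lit 3821769693456)))))))) (T.h (P (nat_lit 0)) (T.h (T.h (P (nat_lit 7052920268108960389660672)) (T.h (P (nat_lit 0)) (T.h (P (nat_lit 34010185905997873152)) (T.h (P (nat_lit 0)) (M (nat_lit 17832029004943)))))) (T.h (P (nat_lit 0)) (T.h (T.h (P (nat_lit 192230385199957934080)) (T.h (P (nat_lit 0)) (P (nat_lit 33231154151888)))) (T.h (P (nat_lit 0)) (P (nat_lit 130481994932784)))))))) (T.h (T.h (P (nat_lit 0)) (T.h (T.h (P (nat_lit 0)) (T.h (M (nat_lit 44952741325817528713215)) (T.h (P (nat_lit 0)) (M (nat_lit 36359330566864895))))) (T.h (P (nat_lit 0)) (T.h (T.h (P (nat_lit 0)) (P (nat_lit 150087276435439616))) (P (nat_lit 0)))))) (T.h (T.h (T.h (P (nat_lit 6029595519567029736570880)) (T.h (P (nat_lit 0)) (T.h (P (nat_lit 1458250011144880128)) (T.h (P (nat_lit 0)) (M (nat_lit 49126568938831)))))) (T.h (P (nat_lit 0)) (T.h (T.h (M (nat_lit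 80224259377891115007)) (T.h (P (nat_lit 0)) (P (nat_lit 109922351265936)))) (T.h (P (nat_lit 0)) (P (nat_lit 78162321228816)))))) (T.h (T.h (P (nat_lit 0)) (T.h (T.h (P (nat_lit 0)) (P (nat_lit 134958845215637504))) (P (nat_lit 0)))) (T.h (T.h (T.h (P (nat_lit 22782046953774514176)) (T.h (P (nat_lit 0)) (M (nat_lit 52667779269951)))) (T.h (P (nat_lit 0)) (P (nat_lit 129681242717312)))) (T.h (P (nat_lit 0)) (P (nat_lit 1586148909312)))))))), (T.h (T.h (T.h (P (nat_lit 0)) (T.h (M (nat_lit 3852606373610495334007439359)) (T.h (P (nat_lit 0)) (T.h (P (nat_lit 22505124835361908850688)) (T.h (P (nat_lit 0)) (M (nat_lit 4950061242613759))))))) (T.h (P (nat_lit 0)) (T.h (T.h (P (nat_lit 0)) (T.h (M (nat_lit 245447685447027747979263)) (T.h (P (nat_lit 0)) (M (nat_lit 47461522852282367))))) (T.h (P (nat_lit 0)) (T.h (T.h (P (nat_lit 0)) (M (nat_lit 282237081034981375))) (P (nat_lit 0))))))) (T.h (T.h (P (nat_lit 0)) (T.h (T.h (M (nat_lit 59607409781330600397897727))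 (T.h (P (nat_lit 0)) (P (nat_lit 114307951635558563840)))) (T.h (P (nat_lit 0)) (P (nat_lit 1752441552205047136256))))) (T.h (T.h (T.h (P (nat_lit 0)) (T.h (P (nat_lit 6837357369292922814464)) (T.h (P (nat_lit 0)) (P (nat_lit 46638150502907904))))) (T.h (P (nat_lit 0)) (T.h (T.h (P (nat_lit 0)) (M (nat_lit 110716026291683327))) (P (nat_lit 0))))) (T.h (T.h (P (nat_lit 0)) (P (nat_lit 18434105099233001472))) (T.h (T.h (T.h (P (nat_lit 0)) (P (nat_lit 59169193778446336))) (P (nat_lit 0))) (P (nat_lit 0))))))), (P (nat_lit 0))]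
def lQm_26 : List (T ℤ) := [(P (nat_lit 0)), (T.h (T.h (P (nat_lit 0)) (T.h (T.h (P (nat_lit 3166846873336167602856132608)) (T.h (P (nat_lit 0)) (T.h (P (nat_lit 35266817870928178839552)) (T.h (P (nat_lit 0)) (M (nat_lit 384693298659327)))))) (T.h (P (nat_lit 0)) (T.h (T.h (M (nat_lit 14344602706940511911935)) (T.h (P (nat_lit 0)) (M (nat_lit 12694745432686591)))) (T.h (P (nat_lit 0)) (M (nat_lit 65582421789278207))))))) (T.h (T.h (T.h (P (nat_lit 0)) (T.h (P (nat_lit 9767776142240778154934272)) (T.h (P (nat_lit 0)) (P (nat_lit 11252920928419446784))))) (T.h (P (nat_lit 0)) (T.h (T.h (P (nat_lit 0)) (M (nat_lit 145672624222347722751))) (P (nat_lit 0))))) (T.h (T.h (P (nat_lit 0)) (T.h (T.h (P (nat_lit 54548994911447583555584)) (T.h (P (nat_lit 0)) (M (nat_lit 41064510206017535)))) (T.h (P (nat_lit 0)) (M (nat_lit 58682876268085247))))) (T.h (T.h (T.h (P (nat_lit 0)) (M (nat_lit 181177798486917119))) (P (nat_lit 0))) (T.h (T.h (P (nat_lit 0)) (M (nat_lit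 42086344733622271))) (P (nat_lit 0))))))), (P (nat_lit 0)), (P (nat_lit 0)), (P (nat_lit 0)), (P (nat_lit 0)), (P (nat_lit 0)), (T.h (T.h (P (nat_lit 0)) (T.h (T.h (P (nat_lit 0)) (T.h (P (nat_lit 11058409231915517491544064)) (T.h (P (nat_lit 0)) (T.h (M (nat_lit 14467366569325363199)) (T.h (P (nat_lit 0)) (M (nat_lit 25228408055951))))))) (T.h (P (nat_lit 0)) (T.h (T.h (P (nat_lit 0)) (T.h (M (nat_lit 11501981165653327871)) (T.h (P (nat_lit 0)) (M (nat_lit 56548575864127))))) (T.h (P (nat_lit 0)) (T.h (T.h (P (nat_lit 0)) (M (nat_lit 16978705696583))) (P (nat_lit 0)))))))) (T.h (T.h (T.h (M (nat_lit 9662406685631375686768787455)) (T.h (P (nat_lit 0)) (T.h (P (nat_lit 6265702064994287353856)) (T.h (P (nat_lit 0)) (M (nat_lit 62734219519557631)))))) (T.h (P (nat_lit 0)) (T.h (T.h (P (nat_lit 6831777259271273578496)) (T.h (P (nat_lit 0)) (P (nat_lit 71706097648828416)))) (T.h (P (nat_lit 0)) (M (nat_lit 725418309091327)))))) (T.h (T.h (P (nat_lit 0))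 (T.h (T.h (P (nat_lit 0)) (T.h (P (nat_lit 41046958461903962112)) (T.h (P (nat_lit 0)) (M (nat_lit 30631383465103))))) (T.h (P (nat_lit 0)) (T.h (T.h (P (nat_lit 0)) (M (nat_lit 17713433119431))) (P (nat_lit 0)))))) (T.h (T.h (T.h (P (nat_lit 308556873341813653504)) (T.h (P (nat_lit 0)) (P (nat_lit 1053344965394432)))) (T.h (P (nat_lit 0)) (M (nat_lit 9890563182690303)))) (T.h (T.h (P (nat_lit 0)) (T.h (T.h (P (nat_lit 0)) (P (nat_lit 20903774469776))) (P (nat_lit 0)))) (P (nat_lit 9054777712148480)))))))]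
def lQm_27 : List (T ℤ) := [(T.h (T.h (P (nat_lit 0)) (T.h (T.h (M (nat_lit 21439020041541902305889091583)) (T.h (P (nat_lit 0)) (T.h (M (nat_lit 3327027577897286107135)) (T.h (P (nat_lit 0)) (M (nat_lit 131088948266926079)))))) (T.h (P (nat_lit 0)) (T.h (T.h (P (nat_lit 17368237073517154140160)) (T.h (P (nat_lit 0)) (M (nat_lit 1071105886158847)))) (T.h (P (nat_lit 0)) (P (nat_lit 3881363090505728))))))) (T.h (T.h (T.h (P (nat_lit 0)) (T.h (M (nat_lit 39555283947184431235596287)) (T.h (P (nat_lit 0)) (T.h (M (nat_lit 287531455608975785983)) (T.h (P (nat_lit 0)) (P (nat_lit 5629987302560))))))) (T.h (P (nat_lit 0)) (T.h (T.h (P (nat_lit 0)) (T.h (P (nat_lit 55318303577196199936)) (T.h (P (nat_lit 0)) (M (nat_lit 138743880398239))))) (T.h (P (nat_lit 0)) (T.h (T.h (P (nat_lit 0)) (P (nat_lit 33481742598912))) (P (nat_lit 0))))))) (T.h (T.h (P (nat_lit 0)) (T.h (T.h (M (nat_lit 3066642079731815546879)) (T.h (P (nat_lit 0)) (P (nat_lit 1332017585995776))))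 (T.h (P (nat_lit 0)) (M (nat_lit 43936759381704703))))) (T.h (T.h (T.h (P (nat_lit 0)) (T.h (M (nat_lit 30022983081594454015)) (T.h (P (nat_lit 0)) (P (nat_lit 346327786339536))))) (T.h (P (nat_lit 0)) (T.h (T.h (P (nat_lit 0)) (P (nat_lit 18354663940000))) (P (nat_lit 0))))) (T.h (T.h (P (nat_lit 0)) (P (nat_lit 2510440788918272))) (T.h (T.h (T.h (P (nat_lit 0)) (M (nat_lit 20915930440255))) (P (nat_lit 0))) (P (nat_lit 0)))))))), (T.h (T.h (P (nat_lit 0)) (T.h (T.h (P (nat_lit 0)) (T.h (M (nat_lit 59228253820624305253253119)) (T.h (P (nat_lit 0)) (T.h (M (nat_lit 177530439701318598655)) (T.h (P (nat_lit 0)) (M (nat_lit 115487932780159))))))) (T.h (P (nat_lit 0)) (T.h (T.h (P (nat_lit 0)) (T.h (P (nat_lit 128776015067756888064)) (T.h (P (nat_lit 0)) (P (nat_lit 216660159992640))))) (T.h (P (nat_lit 0)) (T.h (T.h (P (nat_lit 0)) (P (nat_lit 12924331522800))) (P (nat_lit 0)))))))) (T.h (T.h (T.h (P (nat_lit 20775842496571973614966931456)) (T.h (P (nat_lit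 0)) (T.h (P (nat_lit 242381418927757509787648)) (T.h (P (nat_lit 0)) (P (nat_lit 534317465604161536)))))) (T.h (P (nat_lit 0)) (T.h (T.h (M (nat_lit 2528523741828411817983)) (T.h (P (nat_lit 0)) (P (nat_lit 53650938488881152)))) (T.h (P (nat_lit 0)) (P (nat_lit 145499149792968704)))))) (T.h (T.h (P (nat_lit 0)) (T.h (T.h (P (nat_lit 0)) (T.h (M (nat_lit 131191371818267049983)) (T.h (P (nat_lit 0)) (M (nat_lit 404751258890799))))) (T.h (P (nat_lit 0)) (T.h (T.h (P (nat_lit 0)) (P (nat_lit 162100968221040))) (P (nat_lit 0)))))) (T.h (T.h (T.h (P (nat_lit 31027422118557268312064)) (T.h (P (nat_lit 0)) (P (nat_lit 214374929667096576)))) (T.h (P (nat_lit 0)) (P (nat_lit 72660222417698816)))) (T.h (T.h (P (nat_lit 0)) (T.h (T.h (P (nat_lit 0)) (P (nat_lit 168865378043200))) (P (nat_lit 0)))) (M (nat_lit 80492444654338047))))))), (T.h (T.h (P (nat_lit 0)) (T.h (T.h (P (nat_lit 30592359351173919146378264576)) (T.h (P (nat_lit 0)) (T.h (M (nat_lit 126206691015345766924287))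 (T.h (P (nat_lit 0)) (P (nat_lit 153230669436993536)))))) (T.h (P (nat_lit 0)) (T.h (T.h (M (nat_lit 18885243591323641970687)) (T.h (P (nat_lit 0)) (M (nat_lit 105060780253347839)))) (T.h (P (nat_lit 0)) (M (nat_lit 20021605155700735))))))) (T.h (T.h (T.h (P (nat_lit 0)) (T.h (M (nat_lit 58042082194932585631580159)) (T.h (P (nat_lit 0)) (T.h (P (nat_lit 169026438565197774848)) (T.h (P (nat_lit 0)) (M (nat_lit 202010613196303))))))) (T.h (P (nat_lit 0)) (T.h (T.h (P (nat_lit 0)) (T.h (M (nat_lit 23453482314404724735)) (T.h (P (nat_lit 0)) (M (nat_lit 160765879742335))))) (T.h (P (nat_lit 0)) (T.h (T.h (P (nat_lit 0)) (M (nat_lit 46938132056991))) (P (nat_lit 0))))))) (T.h (T.h (P (nat_lit 0)) (T.h (T.h (M (nat_lit 47570282094454540075007)) (T.h (P (nat_lit 0)) (P (nat_lit 142951232725958656)))) (T.h (P (nat_lit 0)) (P (nat_lit 5924892080504832))))) (T.h (T.h (T.h (P (nat_lit 0)) (T.h (M (nat_lit 72074611859338035199)) (T.h (P (nat_lit 0)) (M (nat_lit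 40807260833679))))) (T.h (P (nat_lit 0)) (T.h (T.h (P (nat_lit 0)) (M (nat_lit 153951304182895))) (P (nat_lit 0))))) (T.h (T.h (P (nat_lit 0)) (M (nat_lit 100432000003391487))) (T.h (T.h (T.h (P (nat_lit 0)) (P (nat_lit 9843633707952))) (P (nat_lit 0))) (P (nat_lit 0)))))))), (T.h (T.h (P (nat_lit 0)) (T.h (T.h (P (nat_lit 0)) (T.h (P (nat_lit 68480659706341009634885632)) (T.h (P (nat_lit 0)) (M (nat_lit 76622548805082939391))))) (T.h (P (nat_lit 0)) (T.h (T.h (P (nat_lit 0)) (P (nat_lit 11930534835996590080))) (P (nat_lit 0)))))) (T.h (T.h (T.h (P (nat_lit 9479945226855203678944493568)) (T.h (P (nat_lit 0)) (T.h (M (nat_lit 252405377024740638588927)) (T.h (P (nat_lit 0)) (P (nat_lit 158948710125174784)))))) (T.h (P (nat_lit 0)) (T.h (T.h (M (nat_lit 15229871120192928481279)) (T.h (P (nat_lit 0)) (P (nat_lit 48863964941058048)))) (T.h (P (nat_lit 0)) (P (nat_lit 27031974620561408)))))) (T.h (T.h (P (nat_lit 0)) (T.h (T.h (P (nat_lit 0)) (P (nat_lit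 28561419631895511040))) (P (nat_lit 0)))) (T.h (T.h (T.h (M (nat_lit 8055960460481364230143)) (T.h (P (nat_lit 0)) (M (nat_lit 73784448161644543)))) (T.h (P (nat_lit 0)) (P (nat_lit 67886065340547072)))) (T.h (P (nat_lit 0)) (M (nat_lit 3604578148319231))))))), (P (nat_lit 0)), (P (nat_lit 0)), (T.h (T.h (T.h (M (nat_lit 4003925593441881032265673211903)) (T.h (P (nat_lit 0)) (T.h (M (nat_lit 16734569273838329772638207)) (T.h (P (nat_lit 0)) (T.h (P (nat_lit 9010077383461437440)) (T.h (P (nat_lit 0)) (M (nat_lit 25183938140719)))))))) (T.h (P (nat_lit 0)) (T.h (T.h (M (nat_lit 20325167141636930082439167)) (T.h (P (nat_lit 0)) (T.h (M (nat_lit 81171585130385375231)) (T.h (P (nat_lit 0)) (P (nat_lit 21082120614944)))))) (T.h (P (nat_lit 0)) (T.h (T.h (P (nat_lit 12051081045290778624)) (T.h (P (nat_lit 0)) (M (nat_lit 28549522906479)))) (T.h (P (nat_lit 0)) (M (nat_lit 10333849775935)))))))) (T.h (T.h (P (nat_lit 0)) (T.h (T.h (P (nat_lit 0)) (T.h (M (nat_lit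 184282931739216937222143)) (T.h (P (nat_lit 0)) (P (nat_lit 195834303825641472))))) (T.h (P (nat_lit 0)) (T.h (T.h (P (nat_lit 0)) (P (nat_lit 35065780278001664))) (P (nat_lit 0)))))) (T.h (T.h (T.h (M (nat_lit 16734569273838329772638207)) (T.h (P (nat_lit 0)) (T.h (M (nat_lit 96789512615666647039)) (T.h (P (nat_lit 0)) (P (nat_lit 600146009325088)))))) (T.h (P (nat_lit 0)) (T.h (T.h (M (nat_lit 81171585130385375231)) (T.h (P (nat_lit 0)) (P (nat_lit 433126156423392)))) (T.h (P (nat_lit 0)) (M (nat_lit 28549522906479)))))) (T.h (T.h (P (nat_lit 0)) (T.h (T.h (P (nat_lit 0)) (P (nat_lit 195834303825641472))) (P (nat_lit 0)))) (T.h (T.h (T.h (P (nat_lit 9010077383461437440)) (T.h (P (nat_lit 0)) (P (nat_lit 600146009325088)))) (T.h (P (nat_lit 0)) (P (nat_lit 21082120614944)))) (T.h (P (nat_lit 0)) (M (nat_lit 25183938140719)))))))), (T.h (T.h (T.h (P (nat_lit 0)) (T.h (P (nat_lit 2940885621627575000643928064)) (T.h (P (nat_lit 0)) (T.h (P (nat_lit 116406846110943819071488))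 (T.h (P (nat_lit 0)) (M (nat_lit 56047310886469631))))))) (T.h (P (nat_lit 0)) (T.h (T.h (P (nat_lit 0)) (T.h (P (nat_lit 80986423199241164816384)) (T.h (P (nat_lit 0)) (P (nat_lit 19203365430902784))))) (T.h (P (nat_lit 0)) (T.h (T.h (P (nat_lit 0)) (P (nat_lit 511413832325070848))) (P (nat_lit 0))))))) (T.h (T.h (P (nat_lit 0)) (T.h (T.h (M (nat_lit 16415219717815830516334591)) (T.h (P (nat_lit 0)) (T.h (M (nat_lit 828259457634934980607)) (T.h (P (nat_lit 0)) (P (nat_lit 20469176266336)))))) (T.h (P (nat_lit 0)) (T.h (T.h (P (nat_lit 69725839715362406400)) (T.h (P (nat_lit 0)) (P (nat_lit 713975442312624)))) (T.h (P (nat_lit 0)) (M (nat_lit 22027988921247))))))) (T.h (T.h (T.h (P (nat_lit 0)) (T.h (M (nat_lit 94851712084561593630719)) (T.h (P (nat_lit 0)) (P (nat_lit 835144473480052736))))) (T.h (P (nat_lit 0)) (T.h (T.h (P (nat_lit 0)) (P (nat_lit 96651728867672064))) (P (nat_lit 0))))) (T.h (T.h (P (nat_lit 0)) (T.h (T.h (P (nat_lit 109908203411100139520))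 (T.h (P (nat_lit 0)) (P (nat_lit 145511679509456)))) (T.h (P (nat_lit 0)) (M (nat_lit 45475820045455))))) (T.h (T.h (T.h (P (nat_lit 0)) (M (nat_lit 735089316496408575))) (P (nat_lit 0))) (T.h (T.h (P (nat_lit 0)) (P (nat_lit 20495869015824))) (P (nat_lit 0))))))))]
def lQm_28 : List (T ℤ) := [(T.h (T.h (T.h (P (nat_lit 16373032247394188254534424330240)) (T.h (P (nat_lit 0)) (T.h (M (nat_lit 183164102553771000985550847)) (T.h (P (nat_lit 0)) (T.h (M (nat_lit 64186300245037023231)) (T.h (P (nat_lit 0)) (P (nat_lit 181077617065440)))))))) (T.h (P (nat_lit 0)) (T.h (T.h (P (nat_lit 23688841013614905995034624)) (T.h (P (nat_lit 0)) (T.h (P (nat_lit 448948537288898379776)) (T.h (P (nat_lit 0)) (M (nat_lit 12008700755279)))))) (T.h (P (nat_lit 0)) (T.h (T.h (M (nat_lit 18525544061490692095)) (T.h (P (nat_lit 0)) (P (nat_lit 583660449321760)))) (T.h (P (nat_lit 0)) (M (nat_lit 19992458540479)))))))) (T.h (T.h (P (nat_lit 0)) (T.h (T.h (P (nat_lit 0)) (T.h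 (P (nat_lit 176562571776358048858112)) (T.h (P (nat_lit 0)) (P (nat_lit 260329813543616512))))) (T.h (P (nat_lit 0)) (T.h (T.h (P (nat_lit 0)) (P (nat_lit 15819515406319616))) (P (nat_lit 0)))))) (T.h (T.h (T.h (P (nat_lit 82364093836797918939447296)) (T.h (P (nat_lit 0)) (T.h (P (nat_lit 149752501920275103744)) (T.h (P (nat_lit 0)) (M (nat_lit 328360484248639)))))) (T.h (P (nat_lit 0)) (T.h (T.h (M (nat_lit 64247427580427239423)) (T.h (P (nat_lit 0)) (M (nat_lit 831663739764239)))) (T.h (P (nat_lit 0)) (M (nat_lit 174617535857839)))))) (T.h (T.h (P (nat_lit 0)) (T.h (T.h (P (nat_lit 0)) (P (nat_lit 363780600151343104))) (P (nat_lit 0)))) (T.h (T.h (T.h (M (nat_lit 105868750466731474943)) (T.h (P (nat_lit 0)) (M (nat_lit 2048257231413679)))) (T.h (P (nat_lit 0)) (M (nat_lit 6417808484559)))) (T.h (P (nat_lit 0)) (P (nat_lit 221185732879200)))))))), (T.h (T.h (T.h (P (nat_lit 0)) (T.h (P (nat_lit 97760208326290814134334259200)) (T.h (P (nat_lit 0)) (T.h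 (P (nat_lit 137990060745107722731520)) (T.h (P (nat_lit 0)) (P (nat_lit 133679943531233280))))))) (T.h (P (nat_lit 0)) (T.h (T.h (P (nat_lit 0)) (T.h (M (nat_lit 20690681049946643234815)) (T.h (P (nat_lit 0)) (M (nat_lit 165709087135268863))))) (T.h (P (nat_lit 0)) (T.h (T.h (P (nat_lit 0)) (M (nat_lit 194314061239648255))) (P (nat_lit 0))))))) (T.h (T.h (P (nat_lit 0)) (T.h (T.h (M (nat_lit 44325833412268898624995327)) (T.h (P (nat_lit 0)) (T.h (M (nat_lit 1098496507911096762367)) (T.h (P (nat_lit 0)) (P (nat_lit 1882318035580224)))))) (T.h (P (nat_lit 0)) (T.h (T.h (P (nat_lit 72822950036406009856)) (T.h (P (nat_lit 0)) (P (nat_lit 130585546475472)))) (T.h (P (nat_lit 0)) (P (nat_lit 110851673169776))))))) (T.h (T.h (T.h (P (nat_lit 0)) (T.h (M (nat_lit 278980705928123856715775)) (T.h (P (nat_lit 0)) (M (nat_lit 485870168424939519))))) (T.h (P (nat_lit 0)) (T.h (T.h (P (nat_lit 0)) (P (nat_lit 236215949933527040))) (P (nat_lit 0))))) (T.h (T.h (P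 (nat_lit 0)) (T.h (T.h (M (nat_lit 1378257928816951295)) (T.h (P (nat_lit 0)) (P (nat_lit 361794974546192)))) (T.h (P (nat_lit 0)) (M (nat_lit 25054827595247))))) (T.h (T.h (T.h (P (nat_lit 0)) (P (nat_lit 882516363633868800))) (P (nat_lit 0))) (T.h (T.h (P (nat_lit 0)) (P (nat_lit 172986961464416))) (P (nat_lit 0)))))))), (T.h (T.h (T.h (M (nat_lit 16610131237050969157222881296383)) (T.h (P (nat_lit 0)) (T.h (M (nat_lit 23126752110161750401220607)) (T.h (P (nat_lit 0)) (P (nat_lit 118912105825926381568)))))) (T.h (P (nat_lit 0)) (T.h (T.h (M (nat_lit 12159185391653889647837183)) (T.h (P (nat_lit 0)) (M (nat_lit 12886189783738482687)))) (T.h (P (nat_lit 0)) (M (nat_lit 8542965040104341503)))))) (T.h (T.h (P (nat_lit 0)) (T.h (T.h (P (nat_lit 0)) (T.h (P (nat_lit 170774383045035088150528)) (T.h (P (nat_lit 0)) (M (nat_lit 1474979290622656511))))) (T.h (P (nat_lit 0)) (T.h (T.h (P (nat_lit 0)) (P (nat_lit 7959988333117440))) (P (nat_lit 0)))))) (T.h (T.h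 (T.h (P (nat_lit 78577746382943512002822144)) (T.h (P (nat_lit 0)) (P (nat_lit 254876444120481529856)))) (T.h (P (nat_lit 0)) (M (nat_lit 26916983604714143743)))) (T.h (T.h (P (nat_lit 0)) (T.h (T.h (P (nat_lit 0)) (M (nat_lit 116902649026969599))) (P (nat_lit 0)))) (M (nat_lit 44363430733904084991)))))), (P (nat_lit 0)), (P (nat_lit 0)), (T.h (T.h (P (nat_lit 0)) (T.h (T.h (P (nat_lit 0)) (T.h (P (nat_lit 16120402417381523331219456)) (T.h (P (nat_lit 0)) (T.h (M (nat_lit 27908753054742085631)) (T.h (P (nat_lit 0)) (P (nat_lit 33881669526208))))))) (T.h (P (nat_lit 0)) (T.h (T.h (P (nat_lit 0)) (T.h (M (nat_lit 27908753054742085631)) (T.h (P (nat_lit 0)) (P (nat_lit 51133428393360))))) (T.h (P (nat_lit 0)) (T.h (T.h (P (nat_lit 0)) (P (nat_lit 33881669526208))) (P (nat_lit 0)))))))) (T.h (T.h (T.h (M (nat_lit 10761264159112345455830237183)) (T.h (P (nat_lit 0)) (T.h (M (nat_lit 44057131584592925425663)) (T.h (P (nat_lit 0)) (M (nat_lit 33232012783714303))))))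 (T.h (P (nat_lit 0)) (T.h (T.h (M (nat_lit 44057131584592925425663)) (T.h (P (nat_lit 0)) (M (nat_lit 36504727480696831)))) (T.h (P (nat_lit 0)) (M (nat_lit 33232012783714303)))))) (T.h (T.h (P (nat_lit 0)) (T.h (T.h (P (nat_lit 0)) (T.h (P (nat_lit 65573374711457382400)) (T.h (P (nat_lit 0)) (M (nat_lit 440929459787479))))) (T.h (P (nat_lit 0)) (T.h (T.h (P (nat_lit 0)) (M (nat_lit 440929459787479))) (P (nat_lit 0)))))) (T.h (T.h (T.h (P (nat_lit 239678259340123308032)) (T.h (P (nat_lit 0)) (M (nat_lit 391172053358706687)))) (T.h (P (nat_lit 0)) (M (nat_lit 391172053358706687)))) (T.h (T.h (P (nat_lit 0)) (T.h (T.h (P (nat_lit 0)) (P (nat_lit 48589310894704))) (P (nat_lit 0)))) (P (nat_lit 6083027579699200))))))), (T.h (T.h (P (nat_lit 0)) (T.h (T.h (M (nat_lit 50668298085092119346977701887)) (T.h (P (nat_lit 0)) (T.h (P (nat_lit 196856778047455427035136)) (T.h (P (nat_lit 0)) (M (nat_lit 330592782220787711)))))) (T.h (P (nat_lit 0)) (T.h (T.h (M (nat_lit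 48593471775423498027007)) (T.h (P (nat_lit 0)) (P (nat_lit 22193432475156480)))) (T.h (P (nat_lit 0)) (P (nat_lit 27206592869531648))))))) (T.h (T.h (T.h (P (nat_lit 0)) (T.h (P (nat_lit 140625031238847143539113984)) (T.h (P (nat_lit 0)) (T.h (P (nat_lit 236949001531557937152)) (T.h (P (nat_lit 0)) (M (nat_lit 216556818452527))))))) (T.h (P (nat_lit 0)) (T.h (T.h (P (nat_lit 0)) (T.h (M (nat_lit 263741200188655534079)) (T.h (P (nat_lit 0)) (P (nat_lit 138986061083440))))) (T.h (P (nat_lit 0)) (T.h (T.h (P (nat_lit 0)) (P (nat_lit 354904499076288))) (P (nat_lit 0))))))) (T.h (T.h (P (nat_lit 0)) (T.h (T.h (P (nat_lit 196856778047455427035136)) (T.h (P (nat_lit 0)) (P (nat_lit 2657302187266899968)))) (T.h (P (nat_lit 0)) (P (nat_lit 22193432475156480))))) (T.h (T.h (T.h (P (nat_lit 0)) (T.h (P (nat_lit 236949001531557937152)) (T.h (P (nat_lit 0)) (P (nat_lit 119539678158720))))) (T.h (P (nat_lit 0)) (T.h (T.h (P (nat_lit 0)) (P (nat_lit 138986061083440)))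 (P (nat_lit 0))))) (T.h (T.h (P (nat_lit 0)) (M (nat_lit 330592782220787711))) (T.h (T.h (T.h (P (nat_lit 0)) (M (nat_lit 216556818452527))) (P (nat_lit 0))) (P (nat_lit 0)))))))), (T.h (T.h (P (nat_lit 0)) (T.h (T.h (P (nat_lit 0)) (T.h (M (nat_lit 478282437530316076392382463)) (T.h (P (nat_lit 0)) (T.h (P (nat_lit 739671426795699175424)) (T.h (P (nat_lit 0)) (P (nat_lit 462128520591280))))))) (T.h (P (nat_lit 0)) (T.h (T.h (P (nat_lit 0)) (T.h (M (nat_lit 496675261125670993919)) (T.h (P (nat_lit 0)) (M (nat_lit 645090628846959))))) (T.h (P (nat_lit 0)) (T.h (T.h (P (nat_lit 0)) (P (nat_lit 152269385097520))) (P (nat_lit 0)))))))) (T.h (T.h (T.h (P (nat_lit 73688174316094309240714297344)) (T.h (P (nat_lit 0)) (T.h (P (nat_lit 726654696203499998281728)) (T.h (P (nat_lit 0)) (P (nat_lit 1696284430605844480)))))) (T.h (P (nat_lit 0)) (T.h (T.h (M (nat_lit 249519099618854889848831)) (T.h (P (nat_lit 0)) (M (nat_lit 3996098057559965695)))) (T.h (P (nat_lit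 0)) (M (nat_lit 92734955848695807)))))) (T.h (T.h (P (nat_lit 0)) (T.h (T.h (P (nat_lit 0)) (T.h (M (nat_lit 1331577639341846953983)) (T.h (P (nat_lit 0)) (P (nat_lit 2142289766531600))))) (T.h (P (nat_lit 0)) (T.h (T.h (P (nat_lit 0)) (P (nat_lit 280959651272240))) (P (nat_lit 0)))))) (T.h (T.h (T.h (M (nat_lit 134279257036277961195519)) (T.h (P (nat_lit 0)) (P (nat_lit 307185335357767680)))) (T.h (P (nat_lit 0)) (P (nat_lit 15462797180403712)))) (T.h (T.h (P (nat_lit 0)) (T.h (T.h (P (nat_lit 0)) (M (nat_lit 558493873015359))) (P (nat_lit 0)))) (P (nat_lit 139676563536871424)))))))]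
def lQm_29 : List (T ℤ) := [(T.h (T.h (P (nat_lit 0)) (T.h (T.h (P (nat_lit 19358757907562315046719586304)) (T.h (P (nat_lit 0)) (T.h (M (nat_lit 821825102410671628222463)) (T.h (P (nat_lit 0)) (M (nat_lit 822325341666951167)))))) (T.h (P (nat_lit 0)) (T.h (T.h (P (nat_lit 178031969107254934765568)) (T.h (P (nat_lit 0)) (M (nat_lit 787272089171591167)))) (T.h (P (nat_lit 0)) (M (nat_lit 106449234473418751))))))) (T.h (T.h (T.h (P (nat_lit 0)) (T.h (M (nat_lit 554268061982648718608826367)) (T.h (P (nat_lit 0)) (T.h (M (nat_lit 1509857225257798074367)) (T.h (P (nat_lit 0)) (P (nat_lit 346719340363264))))))) (T.h (P (nat_lit 0)) (T.h (T.h (P (nat_lit 0)) (T.h (P (nat_lit 1515155284965963333632)) (T.h (P (nat_lit 0)) (M (nat_lit 209987776456831))))) (T.h (P (nat_lit 0)) (T.h (T.h (P (nat_lit 0)) (M (nat_lit 842506019795263))) (P (nat_lit 0))))))) (T.h (T.h (P (nat_lit 0)) (T.h (T.h (P (nat_lit 476423577245513565601792)) (T.h (P (nat_lit 0)) (M (nat_lit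 1120090004433469439)))) (T.h (P (nat_lit 0)) (P (nat_lit 64653329598595072))))) (T.h (T.h (T.h (P (nat_lit 0)) (T.h (M (nat_lit 443740358902233956351)) (T.h (P (nat_lit 0)) (M (nat_lit 204484843713391))))) (T.h (P (nat_lit 0)) (T.h (T.h (P (nat_lit 0)) (P (nat_lit 295459527894608))) (P (nat_lit 0))))) (T.h (T.h (P (nat_lit 0)) (P (nat_lit 189194584109727744))) (T.h (T.h (T.h (P (nat_lit 0)) (M (nat_lit 233783438575983))) (P (nat_lit 0))) (P (nat_lit 0)))))))), (T.h (T.h (P (nat_lit 0)) (T.h (T.h (P (nat_lit 0)) (T.h (P (nat_lit 71817996516439123818446848)) (T.h (P (nat_lit 0)) (P (nat_lit 237324560957846847488))))) (T.h (P (nat_lit 0)) (T.h (T.h (P (nat_lit 0)) (P (nat_lit 293417813422567849984))) (P (nat_lit 0)))))) (T.h (T.h (T.h (P (nat_lit 133768656778760561275365752832)) (T.h (P (nat_lit 0)) (T.h (P (nat_lit 1083909940175908072587264)) (T.h (P (nat_lit 0)) (M (nat_lit 695645357607747583)))))) (T.h (P (nat_lit 0)) (T.h (T.h (M (nat_lit 265991905201773512491007))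 (T.h (P (nat_lit 0)) (M (nat_lit 531307149684015103)))) (T.h (P (nat_lit 0)) (P (nat_lit 10578727072661504)))))) (T.h (T.h (P (nat_lit 0)) (T.h (T.h (P (nat_lit 0)) (P (nat_lit 302479476523544870912))) (P (nat_lit 0)))) (T.h (T.h (T.h (M (nat_lit 29219963289720217141247)) (T.h (P (nat_lit 0)) (P (nat_lit 161074343272644608)))) (T.h (P (nat_lit 0)) (M (nat_lit 127190422486253567)))) (T.h (P (nat_lit 0)) (P (nat_lit 65373264351297536))))))), (P (nat_lit 0)), (P (nat_lit 0)), (T.h (T.h (T.h (M (nat_lit 4003925593441881032265673211903)) (T.h (P (nat_lit 0)) (T.h (M (nat_lit 20325167141636930082439167)) (T.h (P (nat_lit 0)) (T.h (P (nat_lit 12051081045290778624)) (T.h (P (nat_lit 0)) (M (nat_lit 10333849775935)))))))) (T.h (P (nat_lit 0)) (T.h (T.h (M (nat_lit 16734569273838329772638207)) (T.h (P (nat_lit 0)) (T.h (M (nat_lit 81171585130385375231)) (T.h (P (nat_lit 0)) (M (nat_lit 28549522906479)))))) (T.h (P (nat_lit 0)) (T.h (T.h (P (nat_lit 9010077383461437440))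 (T.h (P (nat_lit 0)) (P (nat_lit 21082120614944)))) (T.h (P (nat_lit 0)) (M (nat_lit 25183938140719)))))))) (T.h (T.h (P (nat_lit 0)) (T.h (T.h (P (nat_lit 0)) (T.h (M (nat_lit 184282931739216937222143)) (T.h (P (nat_lit 0)) (P (nat_lit 35065780278001664))))) (T.h (P (nat_lit 0)) (T.h (T.h (P (nat_lit 0)) (P (nat_lit 195834303825641472))) (P (nat_lit 0)))))) (T.h (T.h (T.h (M (nat_lit 16734569273838329772638207)) (T.h (P (nat_lit 0)) (T.h (M (nat_lit 81171585130385375231)) (T.h (P (nat_lit 0)) (M (nat_lit 28549522906479)))))) (T.h (P (nat_lit 0)) (T.h (T.h (M (nat_lit 96789512615666647039)) (T.h (P (nat_lit 0)) (P (nat_lit 433126156423392)))) (T.h (P (nat_lit 0)) (P (nat_lit 600146009325088)))))) (T.h (T.h (P (nat_lit 0)) (T.h (T.h (P (nat_lit 0)) (P (nat_lit 195834303825641472))) (P (nat_lit 0)))) (T.h (T.h (T.h (P (nat_lit 9010077383461437440)) (T.h (P (nat_lit 0)) (P (nat_lit 21082120614944)))) (T.h (P (nat_lit 0)) (P (nat_lit 600146009325088))))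 (T.h (P (nat_lit 0)) (M (nat_lit 25183938140719)))))))), (T.h (T.h (T.h (P (nat_lit 0)) (T.h (M (nat_lit 50668298085092119346977701887)) (T.h (P (nat_lit 0)) (T.h (M (nat_lit 48593471775423498027007)) (T.h (P (nat_lit 0)) (P (nat_lit 27206592869531648))))))) (T.h (P (nat_lit 0)) (T.h (T.h (P (nat_lit 0)) (T.h (P (nat_lit 196856778047455427035136)) (T.h (P (nat_lit 0)) (P (nat_lit 22193432475156480))))) (T.h (P (nat_lit 0)) (T.h (T.h (P (nat_lit 0)) (M (nat_lit 330592782220787711))) (P (nat_lit 0))))))) (T.h (T.h (P (nat_lit 0)) (T.h (T.h (P (nat_lit 140625031238847143539113984)) (T.h (P (nat_lit 0)) (T.h (M (nat_lit 263741200188655534079)) (T.h (P (nat_lit 0)) (P (nat_lit 354904499076288)))))) (T.h (P (nat_lit 0)) (T.h (T.h (P (nat_lit 236949001531557937152)) (T.h (P (nat_lit 0)) (P (nat_lit 138986061083440)))) (T.h (P (nat_lit 0)) (M (nat_lit 216556818452527))))))) (T.h (T.h (T.h (P (nat_lit 0)) (T.h (P (nat_lit 196856778047455427035136)) (T.h (P (nat_lit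 0)) (P (nat_lit 22193432475156480))))) (T.h (P (nat_lit 0)) (T.h (T.h (P (nat_lit 0)) (P (nat_lit 2657302187266899968))) (P (nat_lit 0))))) (T.h (T.h (P (nat_lit 0)) (T.h (T.h (P (nat_lit 236949001531557937152)) (T.h (P (nat_lit 0)) (P (nat_lit 138986061083440)))) (T.h (P (nat_lit 0)) (P (nat_lit 119539678158720))))) (T.h (T.h (T.h (P (nat_lit 0)) (M (nat_lit 330592782220787711))) (P (nat_lit 0))) (T.h (T.h (P (nat_lit 0)) (M (nat_lit 216556818452527))) (P (nat_lit 0)))))))), (T.h (T.h (T.h (M (nat_lit 24662525560210955274396408741887)) (T.h (P (nat_lit 0)) (T.h (M (nat_lit 242636164986715691202641919)) (T.h (P (nat_lit 0)) (T.h (P (nat_lit 125497729431724097536)) (T.h (P (nat_lit 0)) (M (nat_lit 393912681234399)))))))) (T.h (P (nat_lit 0)) (T.h (T.h (M (nat_lit 242636164986715691202641919)) (T.h (P (nat_lit 0)) (T.h (P (nat_lit 79004508721780883456)) (T.h (P (nat_lit 0)) (P (nat_lit 54202385929040)))))) (T.h (P (nat_lit 0)) (T.h (T.h (P (nat_lit 125497729431724097536))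 (T.h (P (nat_lit 0)) (P (nat_lit 54202385929040)))) (T.h (P (nat_lit 0)) (M (nat_lit 393912681234399)))))))) (T.h (T.h (P (nat_lit 0)) (T.h (T.h (P (nat_lit 0)) (T.h (M (nat_lit 2025299577124846565326847)) (T.h (P (nat_lit 0)) (M (nat_lit 1674825471461556223))))) (T.h (P (nat_lit 0)) (T.h (T.h (P (nat_lit 0)) (M (nat_lit 1674825471461556223))) (P (nat_lit 0)))))) (T.h (T.h (T.h (M (nat_lit 242636164986715691202641919)) (T.h (P (nat_lit 0)) (T.h (P (nat_lit 79004508721780883456)) (T.h (P (nat_lit 0)) (P (nat_lit 54202385929040)))))) (T.h (P (nat_lit 0)) (T.h (T.h (P (nat_lit 79004508721780883456)) (T.h (P (nat_lit 0)) (P (nat_lit 2165630810738400)))) (T.h (P (nat_lit 0)) (P (nat_lit 54202385929040)))))) (T.h (T.h (P (nat_lit 0)) (T.h (T.h (P (nat_lit 0)) (M (nat_lit 1674825471461556223))) (P (nat_lit 0)))) (T.h (T.h (T.h (P (nat_lit 125497729431724097536)) (T.h (P (nat_lit 0)) (P (nat_lit 54202385929040)))) (T.h (P (nat_lit 0)) (P (nat_lit 54202385929040))))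 (T.h (P (nat_lit 0)) (M (nat_lit 393912681234399)))))))), (T.h (T.h (T.h (P (nat_lit 0)) (T.h (P (nat_lit 132662359041641761680029384704)) (T.h (P (nat_lit 0)) (T.h (M (nat_lit 211491743838683518730239)) (T.h (P (nat_lit 0)) (P (nat_lit 398653127412121600))))))) (T.h (P (nat_lit 0)) (T.h (T.h (P (nat_lit 0)) (T.h (M (nat_lit 43995443509180686663679)) (T.h (P (nat_lit 0)) (P (nat_lit 612240489964568576))))) (T.h (P (nat_lit 0)) (T.h (T.h (P (nat_lit 0)) (M (nat_lit 876883693688602623))) (P (nat_lit 0))))))) (T.h (T.h (P (nat_lit 0)) (T.h (T.h (P (nat_lit 1067453883979868015085748224)) (T.h (P (nat_lit 0)) (T.h (P (nat_lit 3801908698515834404864)) (T.h (P (nat_lit 0)) (P (nat_lit 778262612392320)))))) (T.h (P (nat_lit 0)) (T.h (T.h (P (nat_lit 340584785934494466048)) (T.h (P (nat_lit 0)) (M (nat_lit 4190516314817007)))) (T.h (P (nat_lit 0)) (P (nat_lit 527227441331536))))))) (T.h (T.h (T.h (P (nat_lit 0)) (T.h (M (nat_lit 43995443509180686663679)) (T.h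 (P (nat_lit 0)) (P (nat_lit 612240489964568576))))) (T.h (P (nat_lit 0)) (T.h (T.h (P (nat_lit 0)) (M (nat_lit 689360924530540543))) (P (nat_lit 0))))) (T.h (T.h (P (nat_lit 0)) (T.h (T.h (P (nat_lit 340584785934494466048)) (T.h (P (nat_lit 0)) (M (nat_lit 4190516314817007)))) (T.h (P (nat_lit 0)) (P (nat_lit 499486613566688))))) (T.h (T.h (T.h (P (nat_lit 0)) (M (nat_lit 876883693688602623))) (P (nat_lit 0))) (T.h (T.h (P (nat_lit 0)) (P (nat_lit 527227441331536))) (P (nat_lit 0))))))))]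
def lQm_30 : List (T ℤ) := [(T.h (T.h (T.h (M (nat_lit 10480330179334628032889529303039)) (T.h (P (nat_lit 0)) (T.h (P (nat_lit 185157826882941110320103424)) (T.h (P (nat_lit 0)) (M (nat_lit 19219055889835098111)))))) (T.h (P (nat_lit 0)) (T.h (T.h (M (nat_lit 98177673145268500133052415)) (T.h (P (nat_lit 0)) (P (nat_lit 105537405580398821376)))) (T.h (P (nat_lit 0)) (P (nat_lit 246263348381943332864)))))) (T.h (T.h (P (nat_lit 0)) (T.h (T.h (P (nat_lit 0)) (T.h (M (nat_lit 1299879884616596717567999)) (T.h (P (nat_lit 0)) (M (nat_lit 423209768725774335))))) (T.h (P (nat_lit 0)) (T.h (T.h (P (nat_lit 0)) (P (nat_lit 2077814719399723008))) (P (nat_lit 0)))))) (T.h (T.h (T.h (M (nat_lit 98177673145268500133052415)) (T.h (P (nat_lit 0)) (P (nat_lit 105537405580398821376)))) (T.h (P (nat_lit 0)) (M (nat_lit 200558750337517748223)))) (T.h (T.h (P (nat_lit 0)) (T.h (T.h (P (nat_lit 0)) (P (nat_lit 2077814719399723008))) (P (nat_lit 0)))) (P (nat_lit 246263348381943332864)))))),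 (P (nat_lit 0)), (P (nat_lit 0)), (T.h (T.h (P (nat_lit 0)) (T.h (T.h (P (nat_lit 0)) (T.h (P (nat_lit 11058409231915517491544064)) (T.h (P (nat_lit 0)) (T.h (M (nat_lit 11501981165653327871)) (T.h (P (nat_lit 0)) (M (nat_lit 16978705696583))))))) (T.h (P (nat_lit 0)) (T.h (T.h (P (nat_lit 0)) (T.h (M (nat_lit 14467366569325363199)) (T.h (P (nat_lit 0)) (M (nat_lit 56548575864127))))) (T.h (P (nat_lit 0)) (T.h (T.h (P (nat_lit 0)) (M (nat_lit 25228408055951))) (P (nat_lit 0)))))))) (T.h (T.h (T.h (M (nat_lit 9662406685631375686768787455)) (T.h (P (nat_lit 0)) (T.h (P (nat_lit 6831777259271273578496)) (T.h (P (nat_lit 0)) (M (nat_lit 725418309091327)))))) (T.h (P (nat_lit 0)) (T.h (T.h (P (nat_lit 6265702064994287353856)) (T.h (P (nat_lit 0)) (P (nat_lit 71706097648828416)))) (T.h (P (nat_lit 0)) (M (nat_lit 62734219519557631)))))) (T.h (T.h (P (nat_lit 0)) (T.h (T.h (P (nat_lit 0)) (T.h (P (nat_lit 41046958461903962112)) (T.h (P (nat_lit 0)) (M (nat_lit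 17713433119431))))) (T.h (P (nat_lit 0)) (T.h (T.h (P (nat_lit 0)) (M (nat_lit 30631383465103))) (P (nat_lit 0)))))) (T.h (T.h (T.h (P (nat_lit 308556873341813653504)) (T.h (P (nat_lit 0)) (M (nat_lit 9890563182690303)))) (T.h (P (nat_lit 0)) (P (nat_lit 1053344965394432)))) (T.h (T.h (P (nat_lit 0)) (T.h (T.h (P (nat_lit 0)) (P (nat_lit 20903774469776))) (P (nat_lit 0)))) (P (nat_lit 9054777712148480))))))), (T.h (T.h (P (nat_lit 0)) (T.h (T.h (P (nat_lit 2940885621627575000643928064)) (T.h (P (nat_lit 0)) (T.h (P (nat_lit 80986423199241164816384)) (T.h (P (nat_lit 0)) (P (nat_lit 511413832325070848)))))) (T.h (P (nat_lit 0)) (T.h (T.h (P (nat_lit 116406846110943819071488)) (T.h (P (nat_lit 0)) (P (nat_lit 19203365430902784)))) (T.h (P (nat_lit 0)) (M (nat_lit 56047310886469631))))))) (T.h (T.h (T.h (P (nat_lit 0)) (T.h (M (nat_lit 16415219717815830516334591)) (T.h (P (nat_lit 0)) (T.h (P (nat_lit 69725839715362406400)) (T.h (P (nat_lit 0)) (M (nat_lit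 22027988921247))))))) (T.h (P (nat_lit 0)) (T.h (T.h (P (nat_lit 0)) (T.h (M (nat_lit 828259457634934980607)) (T.h (P (nat_lit 0)) (P (nat_lit 713975442312624))))) (T.h (P (nat_lit 0)) (T.h (T.h (P (nat_lit 0)) (P (nat_lit 20469176266336))) (P (nat_lit 0))))))) (T.h (T.h (P (nat_lit 0)) (T.h (T.h (M (nat_lit 94851712084561593630719)) (T.h (P (nat_lit 0)) (P (nat_lit 96651728867672064)))) (T.h (P (nat_lit 0)) (P (nat_lit 835144473480052736))))) (T.h (T.h (T.h (P (nat_lit 0)) (T.h (P (nat_lit 109908203411100139520)) (T.h (P (nat_lit 0)) (M (nat_lit 45475820045455))))) (T.h (P (nat_lit 0)) (T.h (T.h (P (nat_lit 0)) (P (nat_lit 145511679509456))) (P (nat_lit 0))))) (T.h (T.h (P (nat_lit 0)) (M (nat_lit 735089316496408575))) (T.h (T.h (T.h (P (nat_lit 0)) (P (nat_lit 20495869015824))) (P (nat_lit 0))) (P (nat_lit 0)))))))), (T.h (T.h (P (nat_lit 0)) (T.h (T.h (P (nat_lit 0)) (T.h (M (nat_lit 478282437530316076392382463)) (T.h (P (nat_lit 0)) (T.h (M (nat_lit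 496675261125670993919)) (T.h (P (nat_lit 0)) (P (nat_lit 152269385097520))))))) (T.h (P (nat_lit 0)) (T.h (T.h (P (nat_lit 0)) (T.h (P (nat_lit 739671426795699175424)) (T.h (P (nat_lit 0)) (M (nat_lit 645090628846959))))) (T.h (P (nat_lit 0)) (T.h (T.h (P (nat_lit 0)) (P (nat_lit 462128520591280))) (P (nat_lit 0)))))))) (T.h (T.h (T.h (P (nat_lit 73688174316094309240714297344)) (T.h (P (nat_lit 0)) (T.h (M (nat_lit 249519099618854889848831)) (T.h (P (nat_lit 0)) (M (nat_lit 92734955848695807)))))) (T.h (P (nat_lit 0)) (T.h (T.h (P (nat_lit 726654696203499998281728)) (T.h (P (nat_lit 0)) (M (nat_lit 3996098057559965695)))) (T.h (P (nat_lit 0)) (P (nat_lit 1696284430605844480)))))) (T.h (T.h (P (nat_lit 0)) (T.h (T.h (P (nat_lit 0)) (T.h (M (nat_lit 1331577639341846953983)) (T.h (P (nat_lit 0)) (P (nat_lit 280959651272240))))) (T.h (P (nat_lit 0)) (T.h (T.h (P (nat_lit 0)) (P (nat_lit 2142289766531600))) (P (nat_lit 0)))))) (T.h (T.h (T.h (M (nat_lit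 134279257036277961195519)) (T.h (P (nat_lit 0)) (P (nat_lit 15462797180403712)))) (T.h (P (nat_lit 0)) (P (nat_lit 307185335357767680)))) (T.h (T.h (P (nat_lit 0)) (T.h (T.h (P (nat_lit 0)) (M (nat_lit 558493873015359))) (P (nat_lit 0)))) (P (nat_lit 139676563536871424))))))), (T.h (T.h (P (nat_lit 0)) (T.h (T.h (P (nat_lit 132662359041641761680029384704)) (T.h (P (nat_lit 0)) (T.h (M (nat_lit 43995443509180686663679)) (T.h (P (nat_lit 0)) (M (nat_lit 876883693688602623)))))) (T.h (P (nat_lit 0)) (T.h (T.h (M (nat_lit 211491743838683518730239)) (T.h (P (nat_lit 0)) (P (nat_lit 612240489964568576)))) (T.h (P (nat_lit 0)) (P (nat_lit 398653127412121600))))))) (T.h (T.h (T.h (P (nat_lit 0)) (T.h (P (nat_lit 1067453883979868015085748224)) (T.h (P (nat_lit 0)) (T.h (P (nat_lit 340584785934494466048)) (T.h (P (nat_lit 0)) (P (nat_lit 527227441331536))))))) (T.h (P (nat_lit 0)) (T.h (T.h (P (nat_lit 0)) (T.h (P (nat_lit 3801908698515834404864)) (T.h (P (nat_lit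 0)) (M (nat_lit 4190516314817007))))) (T.h (P (nat_lit 0)) (T.h (T.h (P (nat_lit 0)) (P (nat_lit 778262612392320))) (P (nat_lit 0))))))) (T.h (T.h (P (nat_lit 0)) (T.h (T.h (M (nat_lit 43995443509180686663679)) (T.h (P (nat_lit 0)) (M (nat_lit 689360924530540543)))) (T.h (P (nat_lit 0)) (P (nat_lit 612240489964568576))))) (T.h (T.h (T.h (P (nat_lit 0)) (T.h (P (nat_lit 340584785934494466048)) (T.h (P (nat_lit 0)) (P (nat_lit 499486613566688))))) (T.h (P (nat_lit 0)) (T.h (T.h (P (nat_lit 0)) (M (nat_lit 4190516314817007))) (P (nat_lit 0))))) (T.h (T.h (P (nat_lit 0)) (M (nat_lit 876883693688602623))) (T.h (T.h (T.h (P (nat_lit 0)) (P (nat_lit 527227441331536))) (P (nat_lit 0))) (P (nat_lit 0)))))))), (T.h (T.h (P (nat_lit 0)) (T.h (T.h (P (nat_lit 0)) (T.h (P (nat_lit 147135853041917332044120064)) (T.h (P (nat_lit 0)) (P (nat_lit 257392247864654036992))))) (T.h (P (nat_lit 0)) (T.h (T.h (P (nat_lit 0)) (P (nat_lit 257392247864654036992))) (P (nat_lit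 0)))))) (T.h (T.h (T.h (M (nat_lit 389297995439723300115101777919)) (T.h (P (nat_lit 0)) (T.h (M (nat_lit 223777562771128231919615)) (T.h (P (nat_lit 0)) (M (nat_lit 618322761071951871)))))) (T.h (P (nat_lit 0)) (T.h (T.h (M (nat_lit 223777562771128231919615)) (T.h (P (nat_lit 0)) (P (nat_lit 5566684382022008832)))) (T.h (P (nat_lit 0)) (M (nat_lit 618322761071951871)))))) (T.h (T.h (P (nat_lit 0)) (T.h (T.h (P (nat_lit 0)) (M (nat_lit 1936470657569816313855))) (P (nat_lit 0)))) (T.h (T.h (T.h (P (nat_lit 80184449228608727154688)) (T.h (P (nat_lit 0)) (M (nat_lit 66980419558473727)))) (T.h (P (nat_lit 0)) (M (nat_lit 66980419558473727)))) (T.h (P (nat_lit 0)) (M (nat_lit 220288323117449215)))))))]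
def lQm_31 : List (T ℤ) := [(P (nat_lit 0)), (P (nat_lit 0)), (T.h (T.h (T.h (P (nat_lit 0)) (T.h (M (nat_lit 21439020041541902305889091583)) (T.h (P (nat_lit 0)) (T.h (P (nat_lit 17368237073517154140160)) (T.h (P (nat_lit 0)) (P (nat_lit 3881363090505728))))))) (T.h (P (nat_lit 0)) (T.h (T.h (P (nat_lit 0)) (T.h (M (nat_lit 3327027577897286107135)) (T.h (P (nat_lit 0)) (M (nat_lit 1071105886158847))))) (T.h (P (nat_lit 0)) (T.h (T.h (P (nat_lit 0)) (M (nat_lit 131088948266926079))) (P (nat_lit 0))))))) (T.h (T.h (P (nat_lit 0)) (T.h (T.h (M (nat_lit 39555283947184431235596287)) (T.h (P (nat_lit 0)) (T.h (P (nat_lit 55318303577196199936)) (T.h (P (nat_lit 0)) (P (nat_lit 33481742598912)))))) (T.h (P (nat_lit 0)) (T.h (T.h (M (nat_lit 287531455608975785983)) (T.h (P (nat_lit 0)) (M (nat_lit 138743880398239)))) (T.h (P (nat_lit 0)) (P (nat_lit 5629987302560))))))) (T.h (T.h (T.h (P (nat_lit 0)) (T.h (M (nat_lit 3066642079731815546879)) (T.h (P (nat_lit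 0)) (M (nat_lit 43936759381704703))))) (T.h (P (nat_lit 0)) (T.h (T.h (P (nat_lit 0)) (P (nat_lit 1332017585995776))) (P (nat_lit 0))))) (T.h (T.h (P (nat_lit 0)) (T.h (T.h (M (nat_lit 30022983081594454015)) (T.h (P (nat_lit 0)) (P (nat_lit 18354663940000)))) (T.h (P (nat_lit 0)) (P (nat_lit 346327786339536))))) (T.h (T.h (T.h (P (nat_lit 0)) (P (nat_lit 2510440788918272))) (P (nat_lit 0))) (T.h (T.h (P (nat_lit 0)) (M (nat_lit 20915930440255))) (P (nat_lit 0)))))))), (T.h (T.h (T.h (P (nat_lit 16373032247394188254534424330240)) (T.h (P (nat_lit 0)) (T.h (P (nat_lit 23688841013614905995034624)) (T.h (P (nat_lit 0)) (T.h (M (nat_lit 18525544061490692095)) (T.h (P (nat_lit 0)) (M (nat_lit 19992458540479)))))))) (T.h (P (nat_lit 0)) (T.h (T.h (M (nat_lit 183164102553771000985550847)) (T.h (P (nat_lit 0)) (T.h (P (nat_lit 448948537288898379776)) (T.h (P (nat_lit 0)) (P (nat_lit 583660449321760)))))) (T.h (P (nat_lit 0)) (T.h (T.h (M (nat_lit 64186300245037023231))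 (T.h (P (nat_lit 0)) (M (nat_lit 12008700755279)))) (T.h (P (nat_lit 0)) (P (nat_lit 181077617065440)))))))) (T.h (T.h (P (nat_lit 0)) (T.h (T.h (P (nat_lit 0)) (T.h (P (nat_lit 176562571776358048858112)) (T.h (P (nat_lit 0)) (P (nat_lit 15819515406319616))))) (T.h (P (nat_lit 0)) (T.h (T.h (P (nat_lit 0)) (P (nat_lit 260329813543616512))) (P (nat_lit 0)))))) (T.h (T.h (T.h (P (nat_lit 82364093836797918939447296)) (T.h (P (nat_lit 0)) (T.h (M (nat_lit 64247427580427239423)) (T.h (P (nat_lit 0)) (M (nat_lit 174617535857839)))))) (T.h (P (nat_lit 0)) (T.h (T.h (P (nat_lit 149752501920275103744)) (T.h (P (nat_lit 0)) (M (nat_lit 831663739764239)))) (T.h (P (nat_lit 0)) (M (nat_lit 328360484248639)))))) (T.h (T.h (P (nat_lit 0)) (T.h (T.h (P (nat_lit 0)) (P (nat_lit 363780600151343104))) (P (nat_lit 0)))) (T.h (T.h (T.h (M (nat_lit 105868750466731474943)) (T.h (P (nat_lit 0)) (M (nat_lit 6417808484559)))) (T.h (P (nat_lit 0)) (M (nat_lit 2048257231413679))))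 (T.h (P (nat_lit 0)) (P (nat_lit 221185732879200)))))))), (T.h (T.h (T.h (P (nat_lit 0)) (T.h (P (nat_lit 19358757907562315046719586304)) (T.h (P (nat_lit 0)) (T.h (P (nat_lit 178031969107254934765568)) (T.h (P (nat_lit 0)) (M (nat_lit 106449234473418751))))))) (T.h (P (nat_lit 0)) (T.h (T.h (P (nat_lit 0)) (T.h (M (nat_lit 821825102410671628222463)) (T.h (P (nat_lit 0)) (M (nat_lit 787272089171591167))))) (T.h (P (nat_lit 0)) (T.h (T.h (P (nat_lit 0)) (M (nat_lit 822325341666951167))) (P (nat_lit 0))))))) (T.h (T.h (P (nat_lit 0)) (T.h (T.h (M (nat_lit 554268061982648718608826367)) (T.h (P (nat_lit 0)) (T.h (P (nat_lit 1515155284965963333632)) (T.h (P (nat_lit 0)) (M (nat_lit 842506019795263)))))) (T.h (P (nat_lit 0)) (T.h (T.h (M (nat_lit 1509857225257798074367)) (T.h (P (nat_lit 0)) (M (nat_lit 209987776456831)))) (T.h (P (nat_lit 0)) (P (nat_lit 346719340363264))))))) (T.h (T.h (T.h (P (nat_lit 0)) (T.h (P (nat_lit 476423577245513565601792)) (T.h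 (P (nat_lit 0)) (P (nat_lit 64653329598595072))))) (T.h (P (nat_lit 0)) (T.h (T.h (P (nat_lit 0)) (M (nat_lit 1120090004433469439))) (P (nat_lit 0))))) (T.h (T.h (P (nat_lit 0)) (T.h (T.h (M (nat_lit 443740358902233956351)) (T.h (P (nat_lit 0)) (P (nat_lit 295459527894608)))) (T.h (P (nat_lit 0)) (M (nat_lit 204484843713391))))) (T.h (T.h (T.h (P (nat_lit 0)) (P (nat_lit 189194584109727744))) (P (nat_lit 0))) (T.h (T.h (P (nat_lit 0)) (M (nat_lit 233783438575983))) (P (nat_lit 0)))))))), (T.h (T.h (T.h (M (nat_lit 10480330179334628032889529303039)) (T.h (P (nat_lit 0)) (T.h (M (nat_lit 98177673145268500133052415)) (T.h (P (nat_lit 0)) (P (nat_lit 246263348381943332864)))))) (T.h (P (nat_lit 0)) (T.h (T.h (P (nat_lit 185157826882941110320103424)) (T.h (P (nat_lit 0)) (P (nat_lit 105537405580398821376)))) (T.h (P (nat_lit 0)) (M (nat_lit 19219055889835098111)))))) (T.h (T.h (P (nat_lit 0)) (T.h (T.h (P (nat_lit 0)) (T.h (M (nat_lit 1299879884616596717567999))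 (T.h (P (nat_lit 0)) (P (nat_lit 2077814719399723008))))) (T.h (P (nat_lit 0)) (T.h (T.h (P (nat_lit 0)) (M (nat_lit 423209768725774335))) (P (nat_lit 0)))))) (T.h (T.h (T.h (M (nat_lit 98177673145268500133052415)) (T.h (P (nat_lit 0)) (M (nat_lit 200558750337517748223)))) (T.h (P (nat_lit 0)) (P (nat_lit 105537405580398821376)))) (T.h (T.h (P (nat_lit 0)) (T.h (T.h (P (nat_lit 0)) (P (nat_lit 2077814719399723008))) (P (nat_lit 0)))) (P (nat_lit 246263348381943332864)))))), (P (nat_lit 0)), (P (nat_lit 0))]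
def lQm_32 : List (T ℤ) := [(T.h (T.h (P (nat_lit 0)) (T.h (T.h (P (nat_lit 0)) (T.h (M (nat_lit 59228253820624305253253119)) (T.h (P (nat_lit 0)) (T.h (P (nat_lit 128776015067756888064)) (T.h (P (nat_lit 0)) (P (nat_lit 12924331522800))))))) (T.h (P (nat_lit 0)) (T.h (T.h (P (nat_lit 0)) (T.h (M (nat_lit 177530439701318598655)) (T.h (P (nat_lit 0)) (P (nat_lit 216660159992640))))) (T.h (P (nat_lit 0)) (T.h (T.h (P (nat_lit 0)) (M (nat_lit 115487932780159))) (P (nat_lit 0)))))))) (T.h (T.h (T.h (P (nat_lit 20775842496571973614966931456)) (T.h (P (nat_lit 0)) (T.h (M (nat_lit 2528523741828411817983)) (T.h (P (nat_lit 0)) (P (nat_lit 145499149792968704)))))) (T.h (P (nat_lit 0)) (T.h (T.h (P (nat_lit 242381418927757509787648)) (T.h (P (nat_lit 0)) (P (nat_lit 53650938488881152)))) (T.h (P (nat_lit 0)) (P (nat_lit 534317465604161536)))))) (T.h (T.h (P (nat_lit 0)) (T.h (T.h (P (nat_lit 0)) (T.h (M (nat_lit 131191371818267049983)) (T.h (P (nat_lit 0)) (P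 (nat_lit 162100968221040))))) (T.h (P (nat_lit 0)) (T.h (T.h (P (nat_lit 0)) (M (nat_lit 404751258890799))) (P (nat_lit 0)))))) (T.h (T.h (T.h (P (nat_lit 31027422118557268312064)) (T.h (P (nat_lit 0)) (P (nat_lit 72660222417698816)))) (T.h (P (nat_lit 0)) (P (nat_lit 214374929667096576)))) (T.h (T.h (P (nat_lit 0)) (T.h (T.h (P (nat_lit 0)) (P (nat_lit 168865378043200))) (P (nat_lit 0)))) (M (nat_lit 80492444654338047))))))), (T.h (T.h (P (nat_lit 0)) (T.h (T.h (P (nat_lit 97760208326290814134334259200)) (T.h (P (nat_lit 0)) (T.h (M (nat_lit 20690681049946643234815)) (T.h (P (nat_lit 0)) (M (nat_lit 194314061239648255)))))) (T.h (P (nat_lit 0)) (T.h (T.h (P (nat_lit 137990060745107722731520)) (T.h (P (nat_lit 0)) (M (nat_lit 165709087135268863)))) (T.h (P (nat_lit 0)) (P (nat_lit 133679943531233280))))))) (T.h (T.h (T.h (P (nat_lit 0)) (T.h (M (nat_lit 44325833412268898624995327)) (T.h (P (nat_lit 0)) (T.h (P (nat_lit 72822950036406009856)) (T.h (P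 (nat_lit 0)) (P (nat_lit 110851673169776))))))) (T.h (P (nat_lit 0)) (T.h (T.h (P (nat_lit 0)) (T.h (M (nat_lit 1098496507911096762367)) (T.h (P (nat_lit 0)) (P (nat_lit 130585546475472))))) (T.h (P (nat_lit 0)) (T.h (T.h (P (nat_lit 0)) (P (nat_lit 1882318035580224))) (P (nat_lit 0))))))) (T.h (T.h (P (nat_lit 0)) (T.h (T.h (M (nat_lit 278980705928123856715775)) (T.h (P (nat_lit 0)) (P (nat_lit 236215949933527040)))) (T.h (P (nat_lit 0)) (M (nat_lit 485870168424939519))))) (T.h (T.h (T.h (P (nat_lit 0)) (T.h (M (nat_lit 1378257928816951295)) (T.h (P (nat_lit 0)) (M (nat_lit 25054827595247))))) (T.h (P (nat_lit 0)) (T.h (T.h (P (nat_lit 0)) (P (nat_lit 361794974546192))) (P (nat_lit 0))))) (T.h (T.h (P (nat_lit 0)) (P (nat_lit 882516363633868800))) (T.h (T.h (T.h (P (nat_lit 0)) (P (nat_lit 172986961464416))) (P (nat_lit 0))) (P (nat_lit 0)))))))), (T.h (T.h (P (nat_lit 0)) (T.h (T.h (P (nat_lit 0)) (T.h (P (nat_lit 71817996516439123818446848)) (T.h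 (P (nat_lit 0)) (P (nat_lit 293417813422567849984))))) (T.h (P (nat_lit 0)) (T.h (T.h (P (nat_lit 0)) (P (nat_lit 237324560957846847488))) (P (nat_lit 0)))))) (T.h (T.h (T.h (P (nat_lit 133768656778760561275365752832)) (T.h (P (nat_lit 0)) (T.h (M (nat_lit 265991905201773512491007)) (T.h (P (nat_lit 0)) (P (nat_lit 10578727072661504)))))) (T.h (P (nat_lit 0)) (T.h (T.h (P (nat_lit 1083909940175908072587264)) (T.h (P (nat_lit 0)) (M (nat_lit 531307149684015103)))) (T.h (P (nat_lit 0)) (M (nat_lit 695645357607747583)))))) (T.h (T.h (P (nat_lit 0)) (T.h (T.h (P (nat_lit 0)) (P (nat_lit 302479476523544870912))) (P (nat_lit 0)))) (T.h (T.h (T.h (M (nat_lit 29219963289720217141247)) (T.h (P (nat_lit 0)) (M (nat_lit 127190422486253567)))) (T.h (P (nat_lit 0)) (P (nat_lit 161074343272644608)))) (T.h (P (nat_lit 0)) (P (nat_lit 65373264351297536))))))), (P (nat_lit 0)), (P (nat_lit 0)), (T.h (T.h (T.h (P (nat_lit 0)) (T.h (P (nat_lit 30592359351173919146378264576))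 (T.h (P (nat_lit 0)) (T.h (M (nat_lit 18885243591323641970687)) (T.h (P (nat_lit 0)) (M (nat_lit 20021605155700735))))))) (T.h (P (nat_lit 0)) (T.h (T.h (P (nat_lit 0)) (T.h (M (nat_lit 126206691015345766924287)) (T.h (P (nat_lit 0)) (M (nat_lit 105060780253347839))))) (T.h (P (nat_lit 0)) (T.h (T.h (P (nat_lit 0)) (P (nat_lit 153230669436993536))) (P (nat_lit 0))))))) (T.h (T.h (P (nat_lit 0)) (T.h (T.h (M (nat_lit 58042082194932585631580159)) (T.h (P (nat_lit 0)) (T.h (M (nat_lit 23453482314404724735)) (T.h (P (nat_lit 0)) (M (nat_lit 46938132056991)))))) (T.h (P (nat_lit 0)) (T.h (T.h (P (nat_lit 169026438565197774848)) (T.h (P (nat_lit 0)) (M (nat_lit 160765879742335)))) (T.h (P (nat_lit 0)) (M (nat_lit 202010613196303))))))) (T.h (T.h (T.h (P (nat_lit 0)) (T.h (M (nat_lit 47570282094454540075007)) (T.h (P (nat_lit 0)) (P (nat_lit 5924892080504832))))) (T.h (P (nat_lit 0)) (T.h (T.h (P (nat_lit 0)) (P (nat_lit 142951232725958656))) (P (nat_lit 0)))))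 (T.h (T.h (P (nat_lit 0)) (T.h (T.h (M (nat_lit 72074611859338035199)) (T.h (P (nat_lit 0)) (M (nat_lit 153951304182895)))) (T.h (P (nat_lit 0)) (M (nat_lit 40807260833679))))) (T.h (T.h (T.h (P (nat_lit 0)) (M (nat_lit 100432000003391487))) (P (nat_lit 0))) (T.h (T.h (P (nat_lit 0)) (P (nat_lit 9843633707952))) (P (nat_lit 0)))))))), (T.h (T.h (T.h (M (nat_lit 16610131237050969157222881296383)) (T.h (P (nat_lit 0)) (T.h (M (nat_lit 12159185391653889647837183)) (T.h (P (nat_lit 0)) (M (nat_lit 8542965040104341503)))))) (T.h (P (nat_lit 0)) (T.h (T.h (M (nat_lit 23126752110161750401220607)) (T.h (P (nat_lit 0)) (M (nat_lit 12886189783738482687)))) (T.h (P (nat_lit 0)) (P (nat_lit 118912105825926381568)))))) (T.h (T.h (P (nat_lit 0)) (T.h (T.h (P (nat_lit 0)) (T.h (P (nat_lit 170774383045035088150528)) (T.h (P (nat_lit 0)) (P (nat_lit 7959988333117440))))) (T.h (P (nat_lit 0)) (T.h (T.h (P (nat_lit 0)) (M (nat_lit 1474979290622656511))) (P (nat_lit 0))))))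 (T.h (T.h (T.h (P (nat_lit 78577746382943512002822144)) (T.h (P (nat_lit 0)) (M (nat_lit 26916983604714143743)))) (T.h (P (nat_lit 0)) (P (nat_lit 254876444120481529856)))) (T.h (T.h (P (nat_lit 0)) (T.h (T.h (P (nat_lit 0)) (M (nat_lit 116902649026969599))) (P (nat_lit 0)))) (M (nat_lit 44363430733904084991)))))), (P (nat_lit 0))]
def lQm_33 : List (T ℤ) := [(P (nat_lit 0)), (T.h (T.h (P (nat_lit 0)) (T.h (T.h (P (nat_lit 0)) (T.h (P (nat_lit 68480659706341009634885632)) (T.h (P (nat_lit 0)) (P (nat_lit 11930534835996590080))))) (T.h (P (nat_lit 0)) (T.h (T.h (P (nat_lit 0)) (M (nat_lit 76622548805082939391))) (P (nat_lit 0)))))) (T.h (T.h (T.h (P (nat_lit 9479945226855203678944493568)) (T.h (P (nat_lit 0)) (T.h (M (nat_lit 15229871120192928481279)) (T.h (P (nat_lit 0)) (P (nat_lit 27031974620561408)))))) (T.h (P (nat_lit 0)) (T.h (T.h (M (nat_lit 252405377024740638588927)) (T.h (P (nat_lit 0)) (P (nat_lit 48863964941058048)))) (T.h (P (nat_lit 0))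 (P (nat_lit 158948710125174784)))))) (T.h (T.h (P (nat_lit 0)) (T.h (T.h (P (nat_lit 0)) (P (nat_lit 28561419631895511040))) (P (nat_lit 0)))) (T.h (T.h (T.h (M (nat_lit 8055960460481364230143)) (T.h (P (nat_lit 0)) (P (nat_lit 67886065340547072)))) (T.h (P (nat_lit 0)) (M (nat_lit 73784448161644543)))) (T.h (P (nat_lit 0)) (M (nat_lit 3604578148319231))))))), (P (nat_lit 0)), (P (nat_lit 0)), (P (nat_lit 0)), (P (nat_lit 0)), (P (nat_lit 0)), (T.h (T.h (T.h (P (nat_lit 0)) (T.h (M (nat_lit 9662406685631375686768787455)) (T.h (P (nat_lit 0)) (T.h (P (nat_lit 308556873341813653504)) (T.h (P (nat_lit 0)) (P (nat_lit 9054777712148480))))))) (T.h (P (nat_lit 0)) (T.h (T.h (P (nat_lit 0)) (T.h (P (nat_lit 6831777259271273578496)) (T.h (P (nat_lit 0)) (M (nat_lit 9890563182690303))))) (T.h (P (nat_lit 0)) (T.h (T.h (P (nat_lit 0)) (M (nat_lit 725418309091327))) (P (nat_lit 0))))))) (T.h (T.h (P (nat_lit 0)) (T.h (T.h (P (nat_lit 11058409231915517491544064))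 (T.h (P (nat_lit 0)) (T.h (P (nat_lit 41046958461903962112)) (T.h (P (nat_lit 0)) (P (nat_lit 20903774469776)))))) (T.h (P (nat_lit 0)) (T.h (T.h (M (nat_lit 11501981165653327871)) (T.h (P (nat_lit 0)) (M (nat_lit 17713433119431)))) (T.h (P (nat_lit 0)) (M (nat_lit 16978705696583))))))) (T.h (T.h (T.h (P (nat_lit 0)) (T.h (P (nat_lit 6265702064994287353856)) (T.h (P (nat_lit 0)) (P (nat_lit 1053344965394432))))) (T.h (P (nat_lit 0)) (T.h (T.h (P (nat_lit 0)) (P (nat_lit 71706097648828416))) (P (nat_lit 0))))) (T.h (T.h (P (nat_lit 0)) (T.h (T.h (M (nat_lit 14467366569325363199)) (T.h (P (nat_lit 0)) (M (nat_lit 30631383465103)))) (T.h (P (nat_lit 0)) (M (nat_lit 56548575864127))))) (T.h (T.h (T.h (P (nat_lit 0)) (M (nat_lit 62734219519557631))) (P (nat_lit 0))) (T.h (T.h (P (nat_lit 0)) (M (nat_lit 25228408055951))) (P (nat_lit 0))))))))]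
def lQm_34 : List (T ℤ) := [(T.h (T.h (T.h (M (nat_lit 20254831134507439147727913484287)) (T.h (P (nat_lit 0)) (T.h (P (nat_lit 29599268406989750704013312)) (T.h (P (nat_lit 0)) (T.h (M (nat_lit 57188527308720308223)) (T.h (P (nat_lit 0)) (M (nat_lit 26207854071903)))))))) (T.h (P (nat_lit 0)) (T.h (T.h (P (nat_lit 8623154526300995311370240)) (T.h (P (nat_lit 0)) (T.h (M (nat_lit 58732646427604811775)) (T.h (P (nat_lit 0)) (P (nat_lit 15164383117568)))))) (T.h (P (nat_lit 0)) (T.h (T.h (M (nat_lit 3791356520545910783)) (T.h (P (nat_lit 0)) (P (nat_lit 18863524992736)))) (T.h (P (nat_lit 0)) (P (nat_lit 6987571952256)))))))) (T.h (T.h (P (nat_lit 0)) (T.h (T.h (P (nat_lit 0)) (T.h (P (nat_lit 453731183376403592642560)) (T.h (P (nat_lit 0)) (P (nat_lit 53449368928747520))))) (T.h (P (nat_lit 0)) (T.h (T.h (P (nat_lit 0)) (M (nat_lit 227822629654233087))) (P (nat_lit 0)))))) (T.h (T.h (T.h (P (nat_lit 29599268406989750704013312)) (T.h (P (nat_lit 0)) (T.h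 (M (nat_lit 148159826317262454783)) (T.h (P (nat_lit 0)) (M (nat_lit 171985111421919)))))) (T.h (P (nat_lit 0)) (T.h (T.h (M (nat_lit 58732646427604811775)) (T.h (P (nat_lit 0)) (P (nat_lit 913938109348384)))) (T.h (P (nat_lit 0)) (P (nat_lit 18863524992736)))))) (T.h (T.h (P (nat_lit 0)) (T.h (T.h (P (nat_lit 0)) (P (nat_lit 53449368928747520))) (P (nat_lit 0)))) (T.h (T.h (T.h (M (nat_lit 57188527308720308223)) (T.h (P (nat_lit 0)) (M (nat_lit 171985111421919)))) (T.h (P (nat_lit 0)) (P (nat_lit 15164383117568)))) (T.h (P (nat_lit 0)) (M (nat_lit 26207854071903)))))))), (T.h (T.h (T.h (P (nat_lit 0)) (T.h (M (nat_lit 15103393910805811674524680191)) (T.h (P (nat_lit 0)) (T.h (P (nat_lit 35708899549047051780096)) (T.h (P (nat_lit 0)) (P (nat_lit 157679197717659648))))))) (T.h (P (nat_lit 0)) (T.h (T.h (P (nat_lit 0)) (T.h (P (nat_lit 71252488799191958552576)) (T.h (P (nat_lit 0)) (P (nat_lit 120247537389076480))))) (T.h (P (nat_lit 0)) (T.h (T.h (P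 (nat_lit 0)) (M (nat_lit 195913816851152895))) (P (nat_lit 0))))))) (T.h (T.h (P (nat_lit 0)) (T.h (T.h (M (nat_lit 84196165240367251311296511)) (T.h (P (nat_lit 0)) (T.h (P (nat_lit 228585117517172703232)) (T.h (P (nat_lit 0)) (M (nat_lit 332259197192239)))))) (T.h (P (nat_lit 0)) (T.h (T.h (M (nat_lit 88201718308815241215)) (T.h (P (nat_lit 0)) (M (nat_lit 46060579552079)))) (T.h (P (nat_lit 0)) (M (nat_lit 14276070104159))))))) (T.h (T.h (T.h (P (nat_lit 0)) (T.h (P (nat_lit 164756038612868625596416)) (T.h (P (nat_lit 0)) (M (nat_lit 51203836739551231))))) (T.h (P (nat_lit 0)) (T.h (T.h (P (nat_lit 0)) (M (nat_lit 1020327917606305791))) (P (nat_lit 0))))) (T.h (T.h (P (nat_lit 0)) (T.h (T.h (P (nat_lit 179317428776303853568)) (T.h (P (nat_lit 0)) (P (nat_lit 416838103512880)))) (T.h (P (nat_lit 0)) (M (nat_lit 246642587653999))))) (T.h (T.h (T.h (P (nat_lit 0)) (M (nat_lit 253737492773535743))) (P (nat_lit 0))) (T.h (T.h (P (nat_lit 0)) (M (nat_lit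 134158551876799))) (P (nat_lit 0)))))))), (T.h (T.h (T.h (M (nat_lit 5579030000330377679209261694975)) (T.h (P (nat_lit 0)) (T.h (P (nat_lit 19216157866977268909211648)) (T.h (P (nat_lit 0)) (T.h (P (nat_lit 32562526019337060352)) (T.h (P (nat_lit 0)) (M (nat_lit 499469368768831)))))))) (T.h (P (nat_lit 0)) (T.h (T.h (M (nat_lit 5657961527253364136476671)) (T.h (P (nat_lit 0)) (T.h (P (nat_lit 49910012661702066176)) (T.h (P (nat_lit 0)) (M (nat_lit 311887139930959)))))) (T.h (P (nat_lit 0)) (T.h (T.h (P (nat_lit 13357060239115943936)) (T.h (P (nat_lit 0)) (P (nat_lit 45874032146976)))) (T.h (P (nat_lit 0)) (M (nat_lit 10492294430287)))))))) (T.h (T.h (P (nat_lit 0)) (T.h (T.h (P (nat_lit 0)) (T.h (M (nat_lit 457499459866436042751999)) (T.h (P (nat_lit 0)) (M (nat_lit 472196403872694271))))) (T.h (P (nat_lit 0)) (T.h (T.h (P (nat_lit 0)) (P (nat_lit 329846517412593664))) (P (nat_lit 0)))))) (T.h (T.h (T.h (M (nat_lit 96726347834487794787418111)) (T.h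 (P (nat_lit 0)) (T.h (M (nat_lit 52139860623666184191)) (T.h (P (nat_lit 0)) (M (nat_lit 1548465693749039)))))) (T.h (P (nat_lit 0)) (T.h (T.h (M (nat_lit 10372977650615451647)) (T.h (P (nat_lit 0)) (M (nat_lit 1201170315836127)))) (T.h (P (nat_lit 0)) (P (nat_lit 46870734497312)))))) (T.h (T.h (P (nat_lit 0)) (T.h (T.h (P (nat_lit 0)) (M (nat_lit 82063394174631935))) (P (nat_lit 0)))) (T.h (T.h (T.h (P (nat_lit 90695716078622867456)) (T.h (P (nat_lit 0)) (P (nat_lit 227616305269056)))) (T.h (P (nat_lit 0)) (P (nat_lit 211605099716560)))) (T.h (P (nat_lit 0)) (M (nat_lit 100380931134879)))))))), (T.h (T.h (T.h (P (nat_lit 0)) (T.h (P (nat_lit 23189883887025830961654792192)) (T.h (P (nat_lit 0)) (T.h (M (nat_lit 243099935357513639133183)) (T.h (P (nat_lit 0)) (P (nat_lit 595563394477948928))))))) (T.h (P (nat_lit 0)) (T.h (T.h (P (nat_lit 0)) (T.h (M (nat_lit 87515735663265416478719)) (T.h (P (nat_lit 0)) (P (nat_lit 262202542911520768))))) (T.h (P (nat_lit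 0)) (T.h (T.h (P (nat_lit 0)) (M (nat_lit 8342794656481279))) (P (nat_lit 0))))))) (T.h (T.h (P (nat_lit 0)) (T.h (T.h (P (nat_lit 104213714518363397557321728)) (T.h (P (nat_lit 0)) (P (nat_lit 571332830943741214720)))) (T.h (P (nat_lit 0)) (M (nat_lit 99944006815716474879))))) (T.h (T.h (T.h (P (nat_lit 0)) (T.h (M (nat_lit 33956056854755006218239)) (T.h (P (nat_lit 0)) (P (nat_lit 1175977343068569600))))) (T.h (P (nat_lit 0)) (T.h (T.h (P (nat_lit 0)) (P (nat_lit 533260947869499392))) (P (nat_lit 0))))) (T.h (T.h (P (nat_lit 0)) (M (nat_lit 18889754215679262719))) (T.h (T.h (T.h (P (nat_lit 0)) (M (nat_lit 93919563231952895))) (P (nat_lit 0))) (P (nat_lit 0))))))), (P (nat_lit 0)), (P (nat_lit 0)), (T.h (T.h (P (nat_lit 0)) (T.h (T.h (M (nat_lit 14749881374374213291704582143)) (T.h (P (nat_lit 0)) (T.h (P (nat_lit 11789734253094215090176)) (T.h (P (nat_lit 0)) (M (nat_lit 3093658246119423)))))) (T.h (P (nat_lit 0)) (T.h (T.h (M (nat_lit 23967263814739944275967))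 (T.h (P (nat_lit 0)) (M (nat_lit 8725983411961855)))) (T.h (P (nat_lit 0)) (P (nat_lit 15704723851444224))))))) (T.h (T.h (T.h (P (nat_lit 0)) (T.h (M (nat_lit 16689975229306857561522175)) (T.h (P (nat_lit 0)) (T.h (M (nat_lit 365066461145726975)) (T.h (P (nat_lit 0)) (M (nat_lit 26716995752967))))))) (T.h (P (nat_lit 0)) (T.h (T.h (P (nat_lit 0)) (T.h (P (nat_lit 162779457600087916544)) (T.h (P (nat_lit 0)) (M (nat_lit 62213392378343))))) (T.h (P (nat_lit 0)) (T.h (T.h (P (nat_lit 0)) (M (nat_lit 168625746219079))) (P (nat_lit 0))))))) (T.h (T.h (P (nat_lit 0)) (T.h (T.h (M (nat_lit 45578621915765286109183)) (T.h (P (nat_lit 0)) (P (nat_lit 192862439883210752)))) (T.h (P (nat_lit 0)) (M (nat_lit 73661871872507903))))) (T.h (T.h (T.h (P (nat_lit 0)) (T.h (P (nat_lit 69817159720112226304)) (T.h (P (nat_lit 0)) (M (nat_lit 382192262736495))))) (T.h (P (nat_lit 0)) (T.h (T.h (P (nat_lit 0)) (M (nat_lit 194229106012303))) (P (nat_lit 0))))) (T.h (T.h (P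 (nat_lit 0)) (M (nat_lit 82368393406119935))) (T.h (T.h (T.h (P (nat_lit 0)) (P (nat_lit 380826871142320))) (P (nat_lit 0))) (P (nat_lit 0)))))))), (T.h (T.h (P (nat_lit 0)) (T.h (T.h (P (nat_lit 0)) (T.h (M (nat_lit 16415219717815830516334591)) (T.h (P (nat_lit 0)) (T.h (P (nat_lit 109908203411100139520)) (T.h (P (nat_lit 0)) (P (nat_lit 20495869015824))))))) (T.h (P (nat_lit 0)) (T.h (T.h (P (nat_lit 0)) (T.h (P (nat_lit 69725839715362406400)) (T.h (P (nat_lit 0)) (M (nat_lit 45475820045455))))) (T.h (P (nat_lit 0)) (T.h (T.h (P (nat_lit 0)) (M (nat_lit 22027988921247))) (P (nat_lit 0)))))))) (T.h (T.h (T.h (P (nat_lit 2940885621627575000643928064)) (T.h (P (nat_lit 0)) (T.h (M (nat_lit 94851712084561593630719)) (T.h (P (nat_lit 0)) (M (nat_lit 735089316496408575)))))) (T.h (P (nat_lit 0)) (T.h (T.h (P (nat_lit 80986423199241164816384)) (T.h (P (nat_lit 0)) (P (nat_lit 96651728867672064)))) (T.h (P (nat_lit 0)) (P (nat_lit 511413832325070848))))))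 (T.h (T.h (P (nat_lit 0)) (T.h (T.h (P (nat_lit 0)) (T.h (M (nat_lit 828259457634934980607)) (T.h (P (nat_lit 0)) (P (nat_lit 145511679509456))))) (T.h (P (nat_lit 0)) (T.h (T.h (P (nat_lit 0)) (P (nat_lit 713975442312624))) (P (nat_lit 0)))))) (T.h (T.h (T.h (P (nat_lit 116406846110943819071488)) (T.h (P (nat_lit 0)) (P (nat_lit 835144473480052736)))) (T.h (P (nat_lit 0)) (P (nat_lit 19203365430902784)))) (T.h (T.h (P (nat_lit 0)) (T.h (T.h (P (nat_lit 0)) (P (nat_lit 20469176266336))) (P (nat_lit 0)))) (M (nat_lit 56047310886469631)))))))]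
def lQm_35 : List (T ℤ) := [(T.h (T.h (P (nat_lit 0)) (T.h (T.h (P (nat_lit 197031728879750133897284812800)) (T.h (P (nat_lit 0)) (T.h (M (nat_lit 166136637892943920758783)) (T.h (P (nat_lit 0)) (M (nat_lit 408605711218049023)))))) (T.h (P (nat_lit 0)) (T.h (T.h (M (nat_lit 350381446078574004011007)) (T.h (P (nat_lit 0)) (P (nat_lit 82532489449930752)))) (T.h (P (nat_lit 0)) (P (nat_lit 109275666967429120))))))) (T.h (T.h (T.h (P (nat_lit 0)) (T.h (P (nat_lit 488671878389637485219020800)) (T.h (P (nat_lit 0)) (T.h (P (nat_lit 393195357113180749824)) (T.h (P (nat_lit 0)) (M (nat_lit 449154530998319))))))) (T.h (P (nat_lit 0)) (T.h (T.h (P (nat_lit 0)) (T.h (M (nat_lit 1578504036410229522431)) (T.h (P (nat_lit 0)) (M (nat_lit 285630882025039))))) (T.h (P (nat_lit 0)) (T.h (T.h (P (nat_lit 0)) (P (nat_lit 1404487554440640))) (P (nat_lit 0))))))) (T.h (T.h (P (nat_lit 0)) (T.h (T.h (M (nat_lit 166136637892943920758783)) (T.h (P (nat_lit 0)) (M (nat_lit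 2002835965574316031)))) (T.h (P (nat_lit 0)) (P (nat_lit 82532489449930752))))) (T.h (T.h (T.h (P (nat_lit 0)) (T.h (P (nat_lit 393195357113180749824)) (T.h (P (nat_lit 0)) (P (nat_lit 1721559305570880))))) (T.h (P (nat_lit 0)) (T.h (T.h (P (nat_lit 0)) (M (nat_lit 285630882025039))) (P (nat_lit 0))))) (T.h (T.h (P (nat_lit 0)) (M (nat_lit 408605711218049023))) (T.h (T.h (T.h (P (nat_lit 0)) (M (nat_lit 449154530998319))) (P (nat_lit 0))) (P (nat_lit 0)))))))), (T.h (T.h (P (nat_lit 0)) (T.h (T.h (P (nat_lit 0)) (T.h (M (nat_lit 65024100211193024643858431)) (T.h (P (nat_lit 0)) (T.h (M (nat_lit 173216666178182709247)) (T.h (P (nat_lit 0)) (P (nat_lit 128431816472960))))))) (T.h (P (nat_lit 0)) (T.h (T.h (P (nat_lit 0)) (T.h (P (nat_lit 189888095720235335680)) (T.h (P (nat_lit 0)) (M (nat_lit 126198014860367))))) (T.h (P (nat_lit 0)) (T.h (T.h (P (nat_lit 0)) (M (nat_lit 171358582288431))) (P (nat_lit 0)))))))) (T.h (T.h (T.h (M (nat_lit 134270297398750438269189619711))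 (T.h (P (nat_lit 0)) (T.h (M (nat_lit 382351651573250465464319)) (T.h (P (nat_lit 0)) (P (nat_lit 461622103824433152)))))) (T.h (P (nat_lit 0)) (T.h (T.h (P (nat_lit 214501384980258199961600)) (T.h (P (nat_lit 0)) (P (nat_lit 1694244006401474560)))) (T.h (P (nat_lit 0)) (M (nat_lit 325401417075720191)))))) (T.h (T.h (P (nat_lit 0)) (T.h (T.h (P (nat_lit 0)) (T.h (P (nat_lit 1791209464431277768704)) (T.h (P (nat_lit 0)) (M (nat_lit 150609851272495))))) (T.h (P (nat_lit 0)) (T.h (T.h (P (nat_lit 0)) (M (nat_lit 625848463900175))) (P (nat_lit 0)))))) (T.h (T.h (T.h (P (nat_lit 35199011028150773612544)) (T.h (P (nat_lit 0)) (M (nat_lit 663185509083824127)))) (T.h (P (nat_lit 0)) (P (nat_lit 327056660642496512)))) (T.h (T.h (P (nat_lit 0)) (T.h (T.h (P (nat_lit 0)) (P (nat_lit 56095130371632))) (P (nat_lit 0)))) (M (nat_lit 220288745474244607))))))), (T.h (T.h (P (nat_lit 0)) (T.h (T.h (P (nat_lit 12264306295860865433992167424)) (T.h (P (nat_lit 0)) (T.h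 (P (nat_lit 72151306072020993703936)) (T.h (P (nat_lit 0)) (M (nat_lit 353876310217654271)))))) (T.h (P (nat_lit 0)) (T.h (T.h (M (nat_lit 38351697694890571857919)) (T.h (P (nat_lit 0)) (P (nat_lit 12011030252027904)))) (T.h (P (nat_lit 0)) (P (nat_lit 22986133075853312))))))) (T.h (T.h (T.h (P (nat_lit 0)) (T.h (P (nat_lit 178450648329772352166428672)) (T.h (P (nat_lit 0)) (P (nat_lit 468182160841962946560))))) (T.h (P (nat_lit 0)) (T.h (T.h (P (nat_lit 0)) (M (nat_lit 632434394254251393023))) (P (nat_lit 0))))) (T.h (T.h (P (nat_lit 0)) (T.h (T.h (M (nat_lit 126715159606584970051583)) (T.h (P (nat_lit 0)) (P (nat_lit 329315656024653824)))) (T.h (P (nat_lit 0)) (P (nat_lit 95609950710071296))))) (T.h (T.h (T.h (P (nat_lit 0)) (P (nat_lit 312703088898592473088))) (P (nat_lit 0))) (T.h (T.h (P (nat_lit 0)) (M (nat_lit 250273072803250175))) (P (nat_lit 0))))))), (P (nat_lit 0)), (P (nat_lit 0)), (T.h (T.h (T.h (P (nat_lit 0)) (T.h (M (nat_lit 14749881374374213291704582143))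 (T.h (P (nat_lit 0)) (T.h (M (nat_lit 23967263814739944275967)) (T.h (P (nat_lit 0)) (P (nat_lit 15704723851444224))))))) (T.h (P (nat_lit 0)) (T.h (T.h (P (nat_lit 0)) (T.h (P (nat_lit 11789734253094215090176)) (T.h (P (nat_lit 0)) (M (nat_lit 8725983411961855))))) (T.h (P (nat_lit 0)) (T.h (T.h (P (nat_lit 0)) (M (nat_lit 3093658246119423))) (P (nat_lit 0))))))) (T.h (T.h (P (nat_lit 0)) (T.h (T.h (M (nat_lit 16689975229306857561522175)) (T.h (P (nat_lit 0)) (T.h (P (nat_lit 162779457600087916544)) (T.h (P (nat_lit 0)) (M (nat_lit 168625746219079)))))) (T.h (P (nat_lit 0)) (T.h (T.h (M (nat_lit 365066461145726975)) (T.h (P (nat_lit 0)) (M (nat_lit 62213392378343)))) (T.h (P (nat_lit 0)) (M (nat_lit 26716995752967))))))) (T.h (T.h (T.h (P (nat_lit 0)) (T.h (M (nat_lit 45578621915765286109183)) (T.h (P (nat_lit 0)) (M (nat_lit 73661871872507903))))) (T.h (P (nat_lit 0)) (T.h (T.h (P (nat_lit 0)) (P (nat_lit 192862439883210752))) (P (nat_lit 0))))) (T.h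 (T.h (P (nat_lit 0)) (T.h (T.h (P (nat_lit 69817159720112226304)) (T.h (P (nat_lit 0)) (M (nat_lit 194229106012303)))) (T.h (P (nat_lit 0)) (M (nat_lit 382192262736495))))) (T.h (T.h (T.h (P (nat_lit 0)) (M (nat_lit 82368393406119935))) (P (nat_lit 0))) (T.h (T.h (P (nat_lit 0)) (P (nat_lit 380826871142320))) (P (nat_lit 0)))))))), (T.h (T.h (T.h (M (nat_lit 17594253107046821248647494107135)) (T.h (P (nat_lit 0)) (T.h (P (nat_lit 21304803120963885708869632)) (T.h (P (nat_lit 0)) (T.h (M (nat_lit 10244170915285827583)) (T.h (P (nat_lit 0)) (P (nat_lit 35204148183136)))))))) (T.h (P (nat_lit 0)) (T.h (T.h (P (nat_lit 21304803120963885708869632)) (T.h (P (nat_lit 0)) (T.h (M (nat_lit 44292742647633674239)) (T.h (P (nat_lit 0)) (P (nat_lit 7477112616224)))))) (T.h (P (nat_lit 0)) (T.h (T.h (M (nat_lit 10244170915285827583)) (T.h (P (nat_lit 0)) (P (nat_lit 7477112616224)))) (T.h (P (nat_lit 0)) (P (nat_lit 35204148183136)))))))) (T.h (T.h (P (nat_lit 0))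 (T.h (T.h (P (nat_lit 0)) (T.h (P (nat_lit 194674404354259844857856)) (T.h (P (nat_lit 0)) (M (nat_lit 285714783448793087))))) (T.h (P (nat_lit 0)) (T.h (T.h (P (nat_lit 0)) (M (nat_lit 285714783448793087))) (P (nat_lit 0)))))) (T.h (T.h (T.h (M (nat_lit 2350367630756910246920191)) (T.h (P (nat_lit 0)) (T.h (P (nat_lit 297407163401181855744)) (T.h (P (nat_lit 0)) (M (nat_lit 155512376735103)))))) (T.h (P (nat_lit 0)) (T.h (T.h (P (nat_lit 297407163401181855744)) (T.h (P (nat_lit 0)) (P (nat_lit 158867203205152)))) (T.h (P (nat_lit 0)) (M (nat_lit 155512376735103)))))) (T.h (T.h (P (nat_lit 0)) (T.h (T.h (P (nat_lit 0)) (P (nat_lit 187746599905984512))) (P (nat_lit 0)))) (T.h (T.h (T.h (P (nat_lit 69696027185236672512)) (T.h (P (nat_lit 0)) (M (nat_lit 59244869932431)))) (T.h (P (nat_lit 0)) (M (nat_lit 59244869932431)))) (T.h (P (nat_lit 0)) (M (nat_lit 16207010583903)))))))), (T.h (T.h (T.h (P (nat_lit 0)) (T.h (P (nat_lit 73688174316094309240714297344))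 (T.h (P (nat_lit 0)) (T.h (M (nat_lit 134279257036277961195519)) (T.h (P (nat_lit 0)) (P (nat_lit 139676563536871424))))))) (T.h (P (nat_lit 0)) (T.h (T.h (P (nat_lit 0)) (T.h (M (nat_lit 249519099618854889848831)) (T.h (P (nat_lit 0)) (P (nat_lit 15462797180403712))))) (T.h (P (nat_lit 0)) (T.h (T.h (P (nat_lit 0)) (M (nat_lit 92734955848695807))) (P (nat_lit 0))))))) (T.h (T.h (P (nat_lit 0)) (T.h (T.h (M (nat_lit 478282437530316076392382463)) (T.h (P (nat_lit 0)) (T.h (M (nat_lit 1331577639341846953983)) (T.h (P (nat_lit 0)) (M (nat_lit 558493873015359)))))) (T.h (P (nat_lit 0)) (T.h (T.h (M (nat_lit 496675261125670993919)) (T.h (P (nat_lit 0)) (P (nat_lit 280959651272240)))) (T.h (P (nat_lit 0)) (P (nat_lit 152269385097520))))))) (T.h (T.h (T.h (P (nat_lit 0)) (T.h (P (nat_lit 726654696203499998281728)) (T.h (P (nat_lit 0)) (P (nat_lit 307185335357767680))))) (T.h (P (nat_lit 0)) (T.h (T.h (P (nat_lit 0)) (M (nat_lit 3996098057559965695))) (P (nat_lit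 0))))) (T.h (T.h (P (nat_lit 0)) (T.h (T.h (P (nat_lit 739671426795699175424)) (T.h (P (nat_lit 0)) (P (nat_lit 2142289766531600)))) (T.h (P (nat_lit 0)) (M (nat_lit 645090628846959))))) (T.h (T.h (T.h (P (nat_lit 0)) (P (nat_lit 1696284430605844480))) (P (nat_lit 0))) (T.h (T.h (P (nat_lit 0)) (P (nat_lit 462128520591280))) (P (nat_lit 0))))))))]
def lQm_36 : List (T ℤ) := [(T.h (T.h (T.h (M (nat_lit 92097496189341942435335758675967)) (T.h (P (nat_lit 0)) (T.h (P (nat_lit 103826132449980981687877632)) (T.h (P (nat_lit 0)) (T.h (M (nat_lit 65786709903167979519)) (T.h (P (nat_lit 0)) (M (nat_lit 65631642162591)))))))) (T.h (P (nat_lit 0)) (T.h (T.h (P (nat_lit 627887850013612944052453376)) (T.h (P (nat_lit 0)) (T.h (P (nat_lit 395518736283207729152)) (T.h (P (nat_lit 0)) (M (nat_lit 46665150786847)))))) (T.h (P (nat_lit 0)) (T.h (T.h (M (nat_lit 72963703496805187583)) (T.h (P (nat_lit 0)) (P (nat_lit 762953646744960)))) (T.h (P (nat_lit 0)) (P (nat_lit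 21455725471840)))))))) (T.h (T.h (P (nat_lit 0)) (T.h (T.h (P (nat_lit 0)) (T.h (P (nat_lit 1190323880092584575500288)) (T.h (P (nat_lit 0)) (P (nat_lit 169024480259538944))))) (T.h (P (nat_lit 0)) (T.h (T.h (P (nat_lit 0)) (P (nat_lit 1362370564348903424))) (P (nat_lit 0)))))) (T.h (T.h (T.h (P (nat_lit 103826132449980981687877632)) (T.h (P (nat_lit 0)) (T.h (M (nat_lit 718624041559339827199)) (T.h (P (nat_lit 0)) (P (nat_lit 892110877397168)))))) (T.h (P (nat_lit 0)) (T.h (T.h (P (nat_lit 395518736283207729152)) (T.h (P (nat_lit 0)) (M (nat_lit 2378042901799487)))) (T.h (P (nat_lit 0)) (P (nat_lit 762953646744960)))))) (T.h (T.h (P (nat_lit 0)) (T.h (T.h (P (nat_lit 0)) (P (nat_lit 169024480259538944))) (P (nat_lit 0)))) (T.h (T.h (T.h (M (nat_lit 65786709903167979519)) (T.h (P (nat_lit 0)) (P (nat_lit 892110877397168)))) (T.h (P (nat_lit 0)) (M (nat_lit 46665150786847)))) (T.h (P (nat_lit 0)) (M (nat_lit 65631642162591)))))))), (T.h (T.h (T.h (P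 (nat_lit 0)) (T.h (P (nat_lit 58533588080269667130553663488)) (T.h (P (nat_lit 0)) (T.h (P (nat_lit 194793753450289104420864)) (T.h (P (nat_lit 0)) (M (nat_lit 15147995482423295))))))) (T.h (P (nat_lit 0)) (T.h (T.h (P (nat_lit 0)) (T.h (M (nat_lit 307387787828805941329919)) (T.h (P (nat_lit 0)) (P (nat_lit 144336044066504704))))) (T.h (P (nat_lit 0)) (T.h (T.h (P (nat_lit 0)) (P (nat_lit 32282370373353472))) (P (nat_lit 0))))))) (T.h (T.h (P (nat_lit 0)) (T.h (T.h (M (nat_lit 62512067805864717822459903)) (T.h (P (nat_lit 0)) (M (nat_lit 562928614136549998591)))) (T.h (P (nat_lit 0)) (M (nat_lit 451596974912692027391))))) (T.h (T.h (T.h (P (nat_lit 0)) (T.h (M (nat_lit 228364555603926038085631)) (T.h (P (nat_lit 0)) (M (nat_lit 522124404768767999))))) (T.h (P (nat_lit 0)) (T.h (T.h (P (nat_lit 0)) (P (nat_lit 1070033940780810240))) (P (nat_lit 0))))) (T.h (T.h (P (nat_lit 0)) (M (nat_lit 152497253471509020671))) (T.h (T.h (T.h (P (nat_lit 0)) (M (nat_lit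 125002415436529663))) (P (nat_lit 0))) (P (nat_lit 0))))))), (P (nat_lit 0)), (P (nat_lit 0)), (T.h (T.h (P (nat_lit 0)) (T.h (T.h (M (nat_lit 9662406685631375686768787455)) (T.h (P (nat_lit 0)) (T.h (P (nat_lit 6831777259271273578496)) (T.h (P (nat_lit 0)) (M (nat_lit 725418309091327)))))) (T.h (P (nat_lit 0)) (T.h (T.h (P (nat_lit 308556873341813653504)) (T.h (P (nat_lit 0)) (M (nat_lit 9890563182690303)))) (T.h (P (nat_lit 0)) (P (nat_lit 9054777712148480))))))) (T.h (T.h (T.h (P (nat_lit 0)) (T.h (P (nat_lit 11058409231915517491544064)) (T.h (P (nat_lit 0)) (T.h (M (nat_lit 11501981165653327871)) (T.h (P (nat_lit 0)) (M (nat_lit 16978705696583))))))) (T.h (P (nat_lit 0)) (T.h (T.h (P (nat_lit 0)) (T.h (P (nat_lit 41046958461903962112)) (T.h (P (nat_lit 0)) (M (nat_lit 17713433119431))))) (T.h (P (nat_lit 0)) (T.h (T.h (P (nat_lit 0)) (P (nat_lit 20903774469776))) (P (nat_lit 0))))))) (T.h (T.h (P (nat_lit 0)) (T.h (T.h (P (nat_lit 6265702064994287353856))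 (T.h (P (nat_lit 0)) (P (nat_lit 71706097648828416)))) (T.h (P (nat_lit 0)) (P (nat_lit 1053344965394432))))) (T.h (T.h (T.h (P (nat_lit 0)) (T.h (M (nat_lit 14467366569325363199)) (T.h (P (nat_lit 0)) (M (nat_lit 56548575864127))))) (T.h (P (nat_lit 0)) (T.h (T.h (P (nat_lit 0)) (M (nat_lit 30631383465103))) (P (nat_lit 0))))) (T.h (T.h (P (nat_lit 0)) (M (nat_lit 62734219519557631))) (T.h (T.h (T.h (P (nat_lit 0)) (M (nat_lit 25228408055951))) (P (nat_lit 0))) (P (nat_lit 0)))))))), (T.h (T.h (P (nat_lit 0)) (T.h (T.h (P (nat_lit 0)) (T.h (M (nat_lit 16415219717815830516334591)) (T.h (P (nat_lit 0)) (T.h (P (nat_lit 69725839715362406400)) (T.h (P (nat_lit 0)) (M (nat_lit 22027988921247))))))) (T.h (P (nat_lit 0)) (T.h (T.h (P (nat_lit 0)) (T.h (P (nat_lit 109908203411100139520)) (T.h (P (nat_lit 0)) (M (nat_lit 45475820045455))))) (T.h (P (nat_lit 0)) (T.h (T.h (P (nat_lit 0)) (P (nat_lit 20495869015824))) (P (nat_lit 0)))))))) (T.h (T.h (T.h (P (nat_lit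 2940885621627575000643928064)) (T.h (P (nat_lit 0)) (T.h (P (nat_lit 80986423199241164816384)) (T.h (P (nat_lit 0)) (P (nat_lit 511413832325070848)))))) (T.h (P (nat_lit 0)) (T.h (T.h (M (nat_lit 94851712084561593630719)) (T.h (P (nat_lit 0)) (P (nat_lit 96651728867672064)))) (T.h (P (nat_lit 0)) (M (nat_lit 735089316496408575)))))) (T.h (T.h (P (nat_lit 0)) (T.h (T.h (P (nat_lit 0)) (T.h (M (nat_lit 828259457634934980607)) (T.h (P (nat_lit 0)) (P (nat_lit 713975442312624))))) (T.h (P (nat_lit 0)) (T.h (T.h (P (nat_lit 0)) (P (nat_lit 145511679509456))) (P (nat_lit 0)))))) (T.h (T.h (T.h (P (nat_lit 116406846110943819071488)) (T.h (P (nat_lit 0)) (P (nat_lit 19203365430902784)))) (T.h (P (nat_lit 0)) (P (nat_lit 835144473480052736)))) (T.h (T.h (P (nat_lit 0)) (T.h (T.h (P (nat_lit 0)) (P (nat_lit 20469176266336))) (P (nat_lit 0)))) (M (nat_lit 56047310886469631))))))), (T.h (T.h (P (nat_lit 0)) (T.h (T.h (P (nat_lit 73688174316094309240714297344))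 (T.h (P (nat_lit 0)) (T.h (M (nat_lit 249519099618854889848831)) (T.h (P (nat_lit 0)) (M (nat_lit 92734955848695807)))))) (T.h (P (nat_lit 0)) (T.h (T.h (M (nat_lit 134279257036277961195519)) (T.h (P (nat_lit 0)) (P (nat_lit 15462797180403712)))) (T.h (P (nat_lit 0)) (P (nat_lit 139676563536871424))))))) (T.h (T.h (T.h (P (nat_lit 0)) (T.h (M (nat_lit 478282437530316076392382463)) (T.h (P (nat_lit 0)) (T.h (M (nat_lit 496675261125670993919)) (T.h (P (nat_lit 0)) (P (nat_lit 152269385097520))))))) (T.h (P (nat_lit 0)) (T.h (T.h (P (nat_lit 0)) (T.h (M (nat_lit 1331577639341846953983)) (T.h (P (nat_lit 0)) (P (nat_lit 280959651272240))))) (T.h (P (nat_lit 0)) (T.h (T.h (P (nat_lit 0)) (M (nat_lit 558493873015359))) (P (nat_lit 0))))))) (T.h (T.h (P (nat_lit 0)) (T.h (T.h (P (nat_lit 726654696203499998281728)) (T.h (P (nat_lit 0)) (M (nat_lit 3996098057559965695)))) (T.h (P (nat_lit 0)) (P (nat_lit 307185335357767680))))) (T.h (T.h (T.h (P (nat_lit 0))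 (T.h (P (nat_lit 739671426795699175424)) (T.h (P (nat_lit 0)) (M (nat_lit 645090628846959))))) (T.h (P (nat_lit 0)) (T.h (T.h (P (nat_lit 0)) (P (nat_lit 2142289766531600))) (P (nat_lit 0))))) (T.h (T.h (P (nat_lit 0)) (P (nat_lit 1696284430605844480))) (T.h (T.h (T.h (P (nat_lit 0)) (P (nat_lit 462128520591280))) (P (nat_lit 0))) (P (nat_lit 0)))))))), (T.h (T.h (P (nat_lit 0)) (T.h (T.h (P (nat_lit 0)) (T.h (P (nat_lit 1067453883979868015085748224)) (T.h (P (nat_lit 0)) (T.h (P (nat_lit 340584785934494466048)) (T.h (P (nat_lit 0)) (P (nat_lit 527227441331536))))))) (T.h (P (nat_lit 0)) (T.h (T.h (P (nat_lit 0)) (T.h (P (nat_lit 340584785934494466048)) (T.h (P (nat_lit 0)) (P (nat_lit 499486613566688))))) (T.h (P (nat_lit 0)) (T.h (T.h (P (nat_lit 0)) (P (nat_lit 527227441331536))) (P (nat_lit 0)))))))) (T.h (T.h (T.h (P (nat_lit 132662359041641761680029384704)) (T.h (P (nat_lit 0)) (T.h (M (nat_lit 43995443509180686663679)) (T.h (P (nat_lit 0)) (M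 (nat_lit 876883693688602623)))))) (T.h (P (nat_lit 0)) (T.h (T.h (M (nat_lit 43995443509180686663679)) (T.h (P (nat_lit 0)) (M (nat_lit 689360924530540543)))) (T.h (P (nat_lit 0)) (M (nat_lit 876883693688602623)))))) (T.h (T.h (P (nat_lit 0)) (T.h (T.h (P (nat_lit 0)) (T.h (P (nat_lit 3801908698515834404864)) (T.h (P (nat_lit 0)) (M (nat_lit 4190516314817007))))) (T.h (P (nat_lit 0)) (T.h (T.h (P (nat_lit 0)) (M (nat_lit 4190516314817007))) (P (nat_lit 0)))))) (T.h (T.h (T.h (M (nat_lit 211491743838683518730239)) (T.h (P (nat_lit 0)) (P (nat_lit 612240489964568576)))) (T.h (P (nat_lit 0)) (P (nat_lit 612240489964568576)))) (T.h (T.h (P (nat_lit 0)) (T.h (T.h (P (nat_lit 0)) (P (nat_lit 778262612392320))) (P (nat_lit 0)))) (P (nat_lit 398653127412121600)))))))]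
def lQm_37 : List (T ℤ) := [(T.h (T.h (P (nat_lit 0)) (T.h (T.h (M (nat_lit 389297995439723300115101777919)) (T.h (P (nat_lit 0)) (T.h (M (nat_lit 223777562771128231919615)) (T.h (P (nat_lit 0)) (M (nat_lit 618322761071951871)))))) (T.h (P (nat_lit 0)) (T.h (T.h (P (nat_lit 80184449228608727154688)) (T.h (P (nat_lit 0)) (M (nat_lit 66980419558473727)))) (T.h (P (nat_lit 0)) (M (nat_lit 220288323117449215))))))) (T.h (T.h (T.h (P (nat_lit 0)) (T.h (P (nat_lit 147135853041917332044120064)) (T.h (P (nat_lit 0)) (P (nat_lit 257392247864654036992))))) (T.h (P (nat_lit 0)) (T.h (T.h (P (nat_lit 0)) (M (nat_lit 1936470657569816313855))) (P (nat_lit 0))))) (T.h (T.h (P (nat_lit 0)) (T.h (T.h (M (nat_lit 223777562771128231919615)) (T.h (P (nat_lit 0)) (P (nat_lit 5566684382022008832)))) (T.h (P (nat_lit 0)) (M (nat_lit 66980419558473727))))) (T.h (T.h (T.h (P (nat_lit 0)) (P (nat_lit 257392247864654036992))) (P (nat_lit 0))) (T.h (T.h (P (nat_lit 0)) (M (nat_lit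 618322761071951871))) (P (nat_lit 0))))))), (P (nat_lit 0)), (P (nat_lit 0)), (T.h (T.h (T.h (M (nat_lit 20254831134507439147727913484287)) (T.h (P (nat_lit 0)) (T.h (P (nat_lit 8623154526300995311370240)) (T.h (P (nat_lit 0)) (T.h (M (nat_lit 3791356520545910783)) (T.h (P (nat_lit 0)) (P (nat_lit 6987571952256)))))))) (T.h (P (nat_lit 0)) (T.h (T.h (P (nat_lit 29599268406989750704013312)) (T.h (P (nat_lit 0)) (T.h (M (nat_lit 58732646427604811775)) (T.h (P (nat_lit 0)) (P (nat_lit 18863524992736)))))) (T.h (P (nat_lit 0)) (T.h (T.h (M (nat_lit 57188527308720308223)) (T.h (P (nat_lit 0)) (P (nat_lit 15164383117568)))) (T.h (P (nat_lit 0)) (M (nat_lit 26207854071903)))))))) (T.h (T.h (P (nat_lit 0)) (T.h (T.h (P (nat_lit 0)) (T.h (P (nat_lit 453731183376403592642560)) (T.h (P (nat_lit 0)) (M (nat_lit 227822629654233087))))) (T.h (P (nat_lit 0)) (T.h (T.h (P (nat_lit 0)) (P (nat_lit 53449368928747520))) (P (nat_lit 0)))))) (T.h (T.h (T.h (P (nat_lit 29599268406989750704013312))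 (T.h (P (nat_lit 0)) (T.h (M (nat_lit 58732646427604811775)) (T.h (P (nat_lit 0)) (P (nat_lit 18863524992736)))))) (T.h (P (nat_lit 0)) (T.h (T.h (M (nat_lit 148159826317262454783)) (T.h (P (nat_lit 0)) (P (nat_lit 913938109348384)))) (T.h (P (nat_lit 0)) (M (nat_lit 171985111421919)))))) (T.h (T.h (P (nat_lit 0)) (T.h (T.h (P (nat_lit 0)) (P (nat_lit 53449368928747520))) (P (nat_lit 0)))) (T.h (T.h (T.h (M (nat_lit 57188527308720308223)) (T.h (P (nat_lit 0)) (P (nat_lit 15164383117568)))) (T.h (P (nat_lit 0)) (M (nat_lit 171985111421919)))) (T.h (P (nat_lit 0)) (M (nat_lit 26207854071903)))))))), (T.h (T.h (T.h (P (nat_lit 0)) (T.h (P (nat_lit 197031728879750133897284812800)) (T.h (P (nat_lit 0)) (T.h (M (nat_lit 350381446078574004011007)) (T.h (P (nat_lit 0)) (P (nat_lit 109275666967429120))))))) (T.h (P (nat_lit 0)) (T.h (T.h (P (nat_lit 0)) (T.h (M (nat_lit 166136637892943920758783)) (T.h (P (nat_lit 0)) (P (nat_lit 82532489449930752))))) (T.h (P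 (nat_lit 0)) (T.h (T.h (P (nat_lit 0)) (M (nat_lit 408605711218049023))) (P (nat_lit 0))))))) (T.h (T.h (P (nat_lit 0)) (T.h (T.h (P (nat_lit 488671878389637485219020800)) (T.h (P (nat_lit 0)) (T.h (M (nat_lit 1578504036410229522431)) (T.h (P (nat_lit 0)) (P (nat_lit 1404487554440640)))))) (T.h (P (nat_lit 0)) (T.h (T.h (P (nat_lit 393195357113180749824)) (T.h (P (nat_lit 0)) (M (nat_lit 285630882025039)))) (T.h (P (nat_lit 0)) (M (nat_lit 449154530998319))))))) (T.h (T.h (T.h (P (nat_lit 0)) (T.h (M (nat_lit 166136637892943920758783)) (T.h (P (nat_lit 0)) (P (nat_lit 82532489449930752))))) (T.h (P (nat_lit 0)) (T.h (T.h (P (nat_lit 0)) (M (nat_lit 2002835965574316031))) (P (nat_lit 0))))) (T.h (T.h (P (nat_lit 0)) (T.h (T.h (P (nat_lit 393195357113180749824)) (T.h (P (nat_lit 0)) (M (nat_lit 285630882025039)))) (T.h (P (nat_lit 0)) (P (nat_lit 1721559305570880))))) (T.h (T.h (T.h (P (nat_lit 0)) (M (nat_lit 408605711218049023))) (P (nat_lit 0))) (T.h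 (T.h (P (nat_lit 0)) (M (nat_lit 449154530998319))) (P (nat_lit 0)))))))), (T.h (T.h (T.h (M (nat_lit 92097496189341942435335758675967)) (T.h (P (nat_lit 0)) (T.h (P (nat_lit 627887850013612944052453376)) (T.h (P (nat_lit 0)) (T.h (M (nat_lit 72963703496805187583)) (T.h (P (nat_lit 0)) (P (nat_lit 21455725471840)))))))) (T.h (P (nat_lit 0)) (T.h (T.h (P (nat_lit 103826132449980981687877632)) (T.h (P (nat_lit 0)) (T.h (P (nat_lit 395518736283207729152)) (T.h (P (nat_lit 0)) (P (nat_lit 762953646744960)))))) (T.h (P (nat_lit 0)) (T.h (T.h (M (nat_lit 65786709903167979519)) (T.h (P (nat_lit 0)) (M (nat_lit 46665150786847)))) (T.h (P (nat_lit 0)) (M (nat_lit 65631642162591)))))))) (T.h (T.h (P (nat_lit 0)) (T.h (T.h (P (nat_lit 0)) (T.h (P (nat_lit 1190323880092584575500288)) (T.h (P (nat_lit 0)) (P (nat_lit 1362370564348903424))))) (T.h (P (nat_lit 0)) (T.h (T.h (P (nat_lit 0)) (P (nat_lit 169024480259538944))) (P (nat_lit 0)))))) (T.h (T.h (T.h (P (nat_lit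 103826132449980981687877632)) (T.h (P (nat_lit 0)) (T.h (P (nat_lit 395518736283207729152)) (T.h (P (nat_lit 0)) (P (nat_lit 762953646744960)))))) (T.h (P (nat_lit 0)) (T.h (T.h (M (nat_lit 718624041559339827199)) (T.h (P (nat_lit 0)) (M (nat_lit 2378042901799487)))) (T.h (P (nat_lit 0)) (P (nat_lit 892110877397168)))))) (T.h (T.h (P (nat_lit 0)) (T.h (T.h (P (nat_lit 0)) (P (nat_lit 169024480259538944))) (P (nat_lit 0)))) (T.h (T.h (T.h (M (nat_lit 65786709903167979519)) (T.h (P (nat_lit 0)) (M (nat_lit 46665150786847)))) (T.h (P (nat_lit 0)) (P (nat_lit 892110877397168)))) (T.h (P (nat_lit 0)) (M (nat_lit 65631642162591)))))))), (T.h (T.h (T.h (P (nat_lit 0)) (T.h (M (nat_lit 389297995439723300115101777919)) (T.h (P (nat_lit 0)) (T.h (P (nat_lit 80184449228608727154688)) (T.h (P (nat_lit 0)) (M (nat_lit 220288323117449215))))))) (T.h (P (nat_lit 0)) (T.h (T.h (P (nat_lit 0)) (T.h (M (nat_lit 223777562771128231919615)) (T.h (P (nat_lit 0)) (M (nat_lit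 66980419558473727))))) (T.h (P (nat_lit 0)) (T.h (T.h (P (nat_lit 0)) (M (nat_lit 618322761071951871))) (P (nat_lit 0))))))) (T.h (T.h (P (nat_lit 0)) (T.h (T.h (P (nat_lit 147135853041917332044120064)) (T.h (P (nat_lit 0)) (M (nat_lit 1936470657569816313855)))) (T.h (P (nat_lit 0)) (P (nat_lit 257392247864654036992))))) (T.h (T.h (T.h (P (nat_lit 0)) (T.h (M (nat_lit 223777562771128231919615)) (T.h (P (nat_lit 0)) (M (nat_lit 66980419558473727))))) (T.h (P (nat_lit 0)) (T.h (T.h (P (nat_lit 0)) (P (nat_lit 5566684382022008832))) (P (nat_lit 0))))) (T.h (T.h (P (nat_lit 0)) (P (nat_lit 257392247864654036992))) (T.h (T.h (T.h (P (nat_lit 0)) (M (nat_lit 618322761071951871))) (P (nat_lit 0))) (P (nat_lit 0))))))), (P (nat_lit 0))]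
def lQm_38 : List (T ℤ) := [(P (nat_lit 0)), (T.h (T.h (P (nat_lit 0)) (T.h (T.h (M (nat_lit 15103393910805811674524680191)) (T.h (P (nat_lit 0)) (T.h (P (nat_lit 71252488799191958552576)) (T.h (P (nat_lit 0)) (M (nat_lit 195913816851152895)))))) (T.h (P (nat_lit 0)) (T.h (T.h (P (nat_lit 35708899549047051780096)) (T.h (P (nat_lit 0)) (P (nat_lit 120247537389076480)))) (T.h (P (nat_lit 0)) (P (nat_lit 157679197717659648))))))) (T.h (T.h (T.h (P (nat_lit 0)) (T.h (M (nat_lit 84196165240367251311296511)) (T.h (P (nat_lit 0)) (T.h (M (nat_lit 88201718308815241215)) (T.h (P (nat_lit 0)) (M (nat_lit 14276070104159))))))) (T.h (P (nat_lit 0)) (T.h (T.h (P (nat_lit 0)) (T.h (P (nat_lit 228585117517172703232)) (T.h (P (nat_lit 0)) (M (nat_lit 46060579552079))))) (T.h (P (nat_lit 0)) (T.h (T.h (P (nat_lit 0)) (M (nat_lit 332259197192239))) (P (nat_lit 0))))))) (T.h (T.h (P (nat_lit 0)) (T.h (T.h (P (nat_lit 164756038612868625596416)) (T.h (P (nat_lit 0)) (M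 (nat_lit 1020327917606305791)))) (T.h (P (nat_lit 0)) (M (nat_lit 51203836739551231))))) (T.h (T.h (T.h (P (nat_lit 0)) (T.h (P (nat_lit 179317428776303853568)) (T.h (P (nat_lit 0)) (M (nat_lit 246642587653999))))) (T.h (P (nat_lit 0)) (T.h (T.h (P (nat_lit 0)) (P (nat_lit 416838103512880))) (P (nat_lit 0))))) (T.h (T.h (P (nat_lit 0)) (M (nat_lit 253737492773535743))) (T.h (T.h (T.h (P (nat_lit 0)) (M (nat_lit 134158551876799))) (P (nat_lit 0))) (P (nat_lit 0)))))))), (T.h (T.h (P (nat_lit 0)) (T.h (T.h (P (nat_lit 0)) (T.h (M (nat_lit 65024100211193024643858431)) (T.h (P (nat_lit 0)) (T.h (P (nat_lit 189888095720235335680)) (T.h (P (nat_lit 0)) (M (nat_lit 171358582288431))))))) (T.h (P (nat_lit 0)) (T.h (T.h (P (nat_lit 0)) (T.h (M (nat_lit 173216666178182709247)) (T.h (P (nat_lit 0)) (M (nat_lit 126198014860367))))) (T.h (P (nat_lit 0)) (T.h (T.h (P (nat_lit 0)) (P (nat_lit 128431816472960))) (P (nat_lit 0)))))))) (T.h (T.h (T.h (M (nat_lit 134270297398750438269189619711))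 (T.h (P (nat_lit 0)) (T.h (P (nat_lit 214501384980258199961600)) (T.h (P (nat_lit 0)) (M (nat_lit 325401417075720191)))))) (T.h (P (nat_lit 0)) (T.h (T.h (M (nat_lit 382351651573250465464319)) (T.h (P (nat_lit 0)) (P (nat_lit 1694244006401474560)))) (T.h (P (nat_lit 0)) (P (nat_lit 461622103824433152)))))) (T.h (T.h (P (nat_lit 0)) (T.h (T.h (P (nat_lit 0)) (T.h (P (nat_lit 1791209464431277768704)) (T.h (P (nat_lit 0)) (M (nat_lit 625848463900175))))) (T.h (P (nat_lit 0)) (T.h (T.h (P (nat_lit 0)) (M (nat_lit 150609851272495))) (P (nat_lit 0)))))) (T.h (T.h (T.h (P (nat_lit 35199011028150773612544)) (T.h (P (nat_lit 0)) (P (nat_lit 327056660642496512)))) (T.h (P (nat_lit 0)) (M (nat_lit 663185509083824127)))) (T.h (T.h (P (nat_lit 0)) (T.h (T.h (P (nat_lit 0)) (P (nat_lit 56095130371632))) (P (nat_lit 0)))) (M (nat_lit 220288745474244607))))))), (T.h (T.h (P (nat_lit 0)) (T.h (T.h (P (nat_lit 58533588080269667130553663488)) (T.h (P (nat_lit 0)) (T.h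 (M (nat_lit 307387787828805941329919)) (T.h (P (nat_lit 0)) (P (nat_lit 32282370373353472)))))) (T.h (P (nat_lit 0)) (T.h (T.h (P (nat_lit 194793753450289104420864)) (T.h (P (nat_lit 0)) (P (nat_lit 144336044066504704)))) (T.h (P (nat_lit 0)) (M (nat_lit 15147995482423295))))))) (T.h (T.h (T.h (P (nat_lit 0)) (T.h (M (nat_lit 62512067805864717822459903)) (T.h (P (nat_lit 0)) (M (nat_lit 451596974912692027391))))) (T.h (P (nat_lit 0)) (T.h (T.h (P (nat_lit 0)) (M (nat_lit 562928614136549998591))) (P (nat_lit 0))))) (T.h (T.h (P (nat_lit 0)) (T.h (T.h (M (nat_lit 228364555603926038085631)) (T.h (P (nat_lit 0)) (P (nat_lit 1070033940780810240)))) (T.h (P (nat_lit 0)) (M (nat_lit 522124404768767999))))) (T.h (T.h (T.h (P (nat_lit 0)) (M (nat_lit 152497253471509020671))) (P (nat_lit 0))) (T.h (T.h (P (nat_lit 0)) (M (nat_lit 125002415436529663))) (P (nat_lit 0))))))), (P (nat_lit 0)), (P (nat_lit 0)), (T.h (T.h (T.h (M (nat_lit 5579030000330377679209261694975))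 (T.h (P (nat_lit 0)) (T.h (M (nat_lit 5657961527253364136476671)) (T.h (P (nat_lit 0)) (T.h (P (nat_lit 13357060239115943936)) (T.h (P (nat_lit 0)) (M (nat_lit 10492294430287)))))))) (T.h (P (nat_lit 0)) (T.h (T.h (P (nat_lit 19216157866977268909211648)) (T.h (P (nat_lit 0)) (T.h (P (nat_lit 49910012661702066176)) (T.h (P (nat_lit 0)) (P (nat_lit 45874032146976)))))) (T.h (P (nat_lit 0)) (T.h (T.h (P (nat_lit 32562526019337060352)) (T.h (P (nat_lit 0)) (M (nat_lit 311887139930959)))) (T.h (P (nat_lit 0)) (M (nat_lit 499469368768831)))))))) (T.h (T.h (P (nat_lit 0)) (T.h (T.h (P (nat_lit 0)) (T.h (M (nat_lit 457499459866436042751999)) (T.h (P (nat_lit 0)) (P (nat_lit 329846517412593664))))) (T.h (P (nat_lit 0)) (T.h (T.h (P (nat_lit 0)) (M (nat_lit 472196403872694271))) (P (nat_lit 0)))))) (T.h (T.h (T.h (M (nat_lit 96726347834487794787418111)) (T.h (P (nat_lit 0)) (T.h (M (nat_lit 10372977650615451647)) (T.h (P (nat_lit 0)) (P (nat_lit 46870734497312))))))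 (T.h (P (nat_lit 0)) (T.h (T.h (M (nat_lit 52139860623666184191)) (T.h (P (nat_lit 0)) (M (nat_lit 1201170315836127)))) (T.h (P (nat_lit 0)) (M (nat_lit 1548465693749039)))))) (T.h (T.h (P (nat_lit 0)) (T.h (T.h (P (nat_lit 0)) (M (nat_lit 82063394174631935))) (P (nat_lit 0)))) (T.h (T.h (T.h (P (nat_lit 90695716078622867456)) (T.h (P (nat_lit 0)) (P (nat_lit 211605099716560)))) (T.h (P (nat_lit 0)) (P (nat_lit 227616305269056)))) (T.h (P (nat_lit 0)) (M (nat_lit 100380931134879)))))))), (T.h (T.h (T.h (P (nat_lit 0)) (T.h (P (nat_lit 12264306295860865433992167424)) (T.h (P (nat_lit 0)) (T.h (M (nat_lit 38351697694890571857919)) (T.h (P (nat_lit 0)) (P (nat_lit 22986133075853312))))))) (T.h (P (nat_lit 0)) (T.h (T.h (P (nat_lit 0)) (T.h (P (nat_lit 72151306072020993703936)) (T.h (P (nat_lit 0)) (P (nat_lit 12011030252027904))))) (T.h (P (nat_lit 0)) (T.h (T.h (P (nat_lit 0)) (M (nat_lit 353876310217654271))) (P (nat_lit 0))))))) (T.h (T.h (P (nat_lit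 0)) (T.h (T.h (P (nat_lit 178450648329772352166428672)) (T.h (P (nat_lit 0)) (M (nat_lit 632434394254251393023)))) (T.h (P (nat_lit 0)) (P (nat_lit 468182160841962946560))))) (T.h (T.h (T.h (P (nat_lit 0)) (T.h (M (nat_lit 126715159606584970051583)) (T.h (P (nat_lit 0)) (P (nat_lit 95609950710071296))))) (T.h (P (nat_lit 0)) (T.h (T.h (P (nat_lit 0)) (P (nat_lit 329315656024653824))) (P (nat_lit 0))))) (T.h (T.h (P (nat_lit 0)) (P (nat_lit 312703088898592473088))) (T.h (T.h (T.h (P (nat_lit 0)) (M (nat_lit 250273072803250175))) (P (nat_lit 0))) (P (nat_lit 0)))))))]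
def lQm_39 : List (T ℤ) := [(P (nat_lit 0)), (P (nat_lit 0)), (T.h (T.h (P (nat_lit 0)) (T.h (T.h (P (nat_lit 23189883887025830961654792192)) (T.h (P (nat_lit 0)) (T.h (M (nat_lit 87515735663265416478719)) (T.h (P (nat_lit 0)) (M (nat_lit 8342794656481279)))))) (T.h (P (nat_lit 0)) (T.h (T.h (M (nat_lit 243099935357513639133183)) (T.h (P (nat_lit 0)) (P (nat_lit 262202542911520768)))) (T.h (P (nat_lit 0)) (P (nat_lit 595563394477948928))))))) (T.h (T.h (T.h (P (nat_lit 0)) (T.h (P (nat_lit 104213714518363397557321728)) (T.h (P (nat_lit 0)) (M (nat_lit 99944006815716474879))))) (T.h (P (nat_lit 0)) (T.h (T.h (P (nat_lit 0)) (P (nat_lit 571332830943741214720))) (P (nat_lit 0))))) (T.h (T.h (P (nat_lit 0)) (T.h (T.h (M (nat_lit 33956056854755006218239)) (T.h (P (nat_lit 0)) (P (nat_lit 533260947869499392)))) (T.h (P (nat_lit 0)) (P (nat_lit 1175977343068569600))))) (T.h (T.h (T.h (P (nat_lit 0)) (M (nat_lit 18889754215679262719))) (P (nat_lit 0))) (T.h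 (T.h (P (nat_lit 0)) (M (nat_lit 93919563231952895))) (P (nat_lit 0))))))), (P (nat_lit 0)), (P (nat_lit 0)), (P (nat_lit 0)), (P (nat_lit 0)), (P (nat_lit 0))]
def lQm_40 : List (T ℤ) := [(T.h (T.h (P (nat_lit 0)) (T.h (T.h (P (nat_lit 0)) (T.h (M (nat_lit 1705315292969379989291007)) (T.h (P (nat_lit 0)) (T.h (P (nat_lit 2476425389400915968)) (T.h (P (nat_lit 0)) (M (nat_lit 6242764166039))))))) (T.h (P (nat_lit 0)) (T.h (T.h (P (nat_lit 0)) (T.h (P (nat_lit 2377763215032451072)) (T.h (P (nat_lit 0)) (P (nat_lit 2063416401616))))) (T.h (P (nat_lit 0)) (T.h (T.h (P (nat_lit 0)) (P (nat_lit 7158406918608))) (P (nat_lit 0)))))))) (T.h (T.h (T.h (P (nat_lit 2055456681931519564426772480)) (T.h (P (nat_lit 0)) (T.h (M (nat_lit 2766668727805554982911)) (T.h (P (nat_lit 0)) (M (nat_lit 2451024506814463)))))) (T.h (P (nat_lit 0)) (T.h (T.h (M (nat_lit 10035423191259844444159)) (T.h (P (nat_lit 0)) (P (nat_lit 454002489458688)))) (T.h (P (nat_lit 0)) (P (nat_lit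 4075656891629568)))))) (T.h (T.h (P (nat_lit 0)) (T.h (T.h (P (nat_lit 0)) (T.h (P (nat_lit 876704851256410112)) (T.h (P (nat_lit 0)) (M (nat_lit 1415563387735))))) (T.h (P (nat_lit 0)) (T.h (T.h (P (nat_lit 0)) (P (nat_lit 12562440285328))) (P (nat_lit 0)))))) (T.h (T.h (T.h (P (nat_lit 4248991952857825542144)) (T.h (P (nat_lit 0)) (M (nat_lit 8725047214145535)))) (T.h (P (nat_lit 0)) (P (nat_lit 48569078005039104)))) (T.h (T.h (P (nat_lit 0)) (T.h (T.h (P (nat_lit 0)) (M (nat_lit 28937018074767))) (P (nat_lit 0)))) (M (nat_lit 3485283988078591))))))), (T.h (T.h (P (nat_lit 0)) (T.h (T.h (M (nat_lit 21439020041541902305889091583)) (T.h (P (nat_lit 0)) (T.h (M (nat_lit 3066642079731815546879)) (T.h (P (nat_lit 0)) (P (nat_lit 2510440788918272)))))) (T.h (P (nat_lit 0)) (T.h (T.h (P (nat_lit 17368237073517154140160)) (T.h (P (nat_lit 0)) (M (nat_lit 43936759381704703)))) (T.h (P (nat_lit 0)) (P (nat_lit 3881363090505728))))))) (T.h (T.h (T.h (P (nat_lit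 0)) (T.h (M (nat_lit 39555283947184431235596287)) (T.h (P (nat_lit 0)) (T.h (M (nat_lit 30022983081594454015)) (T.h (P (nat_lit 0)) (M (nat_lit 20915930440255))))))) (T.h (P (nat_lit 0)) (T.h (T.h (P (nat_lit 0)) (T.h (P (nat_lit 55318303577196199936)) (T.h (P (nat_lit 0)) (P (nat_lit 18354663940000))))) (T.h (P (nat_lit 0)) (T.h (T.h (P (nat_lit 0)) (P (nat_lit 33481742598912))) (P (nat_lit 0))))))) (T.h (T.h (P (nat_lit 0)) (T.h (T.h (M (nat_lit 3327027577897286107135)) (T.h (P (nat_lit 0)) (P (nat_lit 1332017585995776)))) (T.h (P (nat_lit 0)) (M (nat_lit 1071105886158847))))) (T.h (T.h (T.h (P (nat_lit 0)) (T.h (M (nat_lit 287531455608975785983)) (T.h (P (nat_lit 0)) (P (nat_lit 346327786339536))))) (T.h (P (nat_lit 0)) (T.h (T.h (P (nat_lit 0)) (M (nat_lit 138743880398239))) (P (nat_lit 0))))) (T.h (T.h (P (nat_lit 0)) (M (nat_lit 131088948266926079))) (T.h (T.h (T.h (P (nat_lit 0)) (P (nat_lit 5629987302560))) (P (nat_lit 0))) (P (nat_lit 0)))))))),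 (T.h (T.h (P (nat_lit 0)) (T.h (T.h (P (nat_lit 0)) (T.h (M (nat_lit 84196165240367251311296511)) (T.h (P (nat_lit 0)) (T.h (P (nat_lit 179317428776303853568)) (T.h (P (nat_lit 0)) (M (nat_lit 134158551876799))))))) (T.h (P (nat_lit 0)) (T.h (T.h (P (nat_lit 0)) (T.h (M (nat_lit 88201718308815241215)) (T.h (P (nat_lit 0)) (M (nat_lit 246642587653999))))) (T.h (P (nat_lit 0)) (T.h (T.h (P (nat_lit 0)) (M (nat_lit 14276070104159))) (P (nat_lit 0)))))))) (T.h (T.h (T.h (M (nat_lit 15103393910805811674524680191)) (T.h (P (nat_lit 0)) (T.h (P (nat_lit 164756038612868625596416)) (T.h (P (nat_lit 0)) (M (nat_lit 253737492773535743)))))) (T.h (P (nat_lit 0)) (T.h (T.h (P (nat_lit 71252488799191958552576)) (T.h (P (nat_lit 0)) (M (nat_lit 1020327917606305791)))) (T.h (P (nat_lit 0)) (M (nat_lit 195913816851152895)))))) (T.h (T.h (P (nat_lit 0)) (T.h (T.h (P (nat_lit 0)) (T.h (P (nat_lit 228585117517172703232)) (T.h (P (nat_lit 0)) (P (nat_lit 416838103512880)))))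 (T.h (P (nat_lit 0)) (T.h (T.h (P (nat_lit 0)) (M (nat_lit 46060579552079))) (P (nat_lit 0)))))) (T.h (T.h (T.h (P (nat_lit 35708899549047051780096)) (T.h (P (nat_lit 0)) (M (nat_lit 51203836739551231)))) (T.h (P (nat_lit 0)) (P (nat_lit 120247537389076480)))) (T.h (T.h (P (nat_lit 0)) (T.h (T.h (P (nat_lit 0)) (M (nat_lit 332259197192239))) (P (nat_lit 0)))) (P (nat_lit 157679197717659648))))))), (T.h (T.h (P (nat_lit 0)) (T.h (T.h (M (nat_lit 24992318524765064333499564031)) (T.h (P (nat_lit 0)) (T.h (P (nat_lit 260361686357432774688768)) (T.h (P (nat_lit 0)) (P (nat_lit 265449525198569472)))))) (T.h (P (nat_lit 0)) (T.h (T.h (P (nat_lit 11604628832279974641664)) (T.h (P (nat_lit 0)) (M (nat_lit 58673506168897535)))) (T.h (P (nat_lit 0)) (P (nat_lit 10089550851538944))))))) (T.h (T.h (T.h (P (nat_lit 0)) (T.h (M (nat_lit 13044743086543117431603199)) (T.h (P (nat_lit 0)) (T.h (P (nat_lit 895701505092815421440)) (T.h (P (nat_lit 0)) (M (nat_lit 511264914572719)))))))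 (T.h (P (nat_lit 0)) (T.h (T.h (P (nat_lit 0)) (T.h (P (nat_lit 198258432899561816064)) (T.h (P (nat_lit 0)) (P (nat_lit 523327662662640))))) (T.h (P (nat_lit 0)) (T.h (T.h (P (nat_lit 0)) (M (nat_lit 237527651697951))) (P (nat_lit 0))))))) (T.h (T.h (P (nat_lit 0)) (T.h (T.h (P (nat_lit 260361686357432774688768)) (T.h (P (nat_lit 0)) (P (nat_lit 205872335258877952)))) (T.h (P (nat_lit 0)) (M (nat_lit 58673506168897535))))) (T.h (T.h (T.h (P (nat_lit 0)) (T.h (P (nat_lit 895701505092815421440)) (T.h (P (nat_lit 0)) (M (nat_lit 1759458341326751))))) (T.h (P (nat_lit 0)) (T.h (T.h (P (nat_lit 0)) (P (nat_lit 523327662662640))) (P (nat_lit 0))))) (T.h (T.h (P (nat_lit 0)) (P (nat_lit 265449525198569472))) (T.h (T.h (T.h (P (nat_lit 0)) (M (nat_lit 511264914572719))) (P (nat_lit 0))) (P (nat_lit 0)))))))), (T.h (T.h (P (nat_lit 0)) (T.h (T.h (P (nat_lit 0)) (T.h (M (nat_lit 8530470887322473985998847)) (T.h (P (nat_lit 0)) (P (nat_lit 124755095903367331840)))))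 (T.h (P (nat_lit 0)) (T.h (T.h (P (nat_lit 0)) (P (nat_lit 11526735466153902080))) (P (nat_lit 0)))))) (T.h (T.h (T.h (P (nat_lit 37495071686497208421731794944)) (T.h (P (nat_lit 0)) (T.h (M (nat_lit 426842702168290282700799)) (T.h (P (nat_lit 0)) (P (nat_lit 1052533473347338240)))))) (T.h (P (nat_lit 0)) (T.h (T.h (P (nat_lit 16057378342646109437952)) (T.h (P (nat_lit 0)) (P (nat_lit 154969859478683648)))) (T.h (P (nat_lit 0)) (P (nat_lit 26770372925128704)))))) (T.h (T.h (P (nat_lit 0)) (T.h (T.h (P (nat_lit 0)) (M (nat_lit 394182288451529867263))) (P (nat_lit 0)))) (T.h (T.h (T.h (M (nat_lit 138571131412666097074175)) (T.h (P (nat_lit 0)) (P (nat_lit 813225388758859776)))) (T.h (P (nat_lit 0)) (M (nat_lit 255022184546467839)))) (T.h (P (nat_lit 0)) (P (nat_lit 207322856984576000))))))), (P (nat_lit 0)), (P (nat_lit 0)), (T.h (T.h (T.h (P (nat_lit 1807427213973969121941494169600)) (T.h (P (nat_lit 0)) (T.h (M (nat_lit 8092536662202114245656575)) (T.h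 (P (nat_lit 0)) (T.h (P (nat_lit 2062319634303942656)) (T.h (P (nat_lit 0)) (M (nat_lit 13405914314463)))))))) (T.h (P (nat_lit 0)) (T.h (T.h (M (nat_lit 8092536662202114245656575)) (T.h (P (nat_lit 0)) (T.h (P (nat_lit 540505362181128192)) (T.h (P (nat_lit 0)) (P (nat_lit 4223076310864)))))) (T.h (P (nat_lit 0)) (T.h (T.h (P (nat_lit 2062319634303942656)) (T.h (P (nat_lit 0)) (P (nat_lit 4223076310864)))) (T.h (P (nat_lit 0)) (M (nat_lit 13405914314463)))))))) (T.h (T.h (P (nat_lit 0)) (T.h (T.h (P (nat_lit 0)) (T.h (P (nat_lit 974192166565486526464)) (T.h (P (nat_lit 0)) (P (nat_lit 15505712372383744))))) (T.h (P (nat_lit 0)) (T.h (T.h (P (nat_lit 0)) (P (nat_lit 15505712372383744))) (P (nat_lit 0)))))) (T.h (T.h (T.h (M (nat_lit 6160842414801612932382719)) (T.h (P (nat_lit 0)) (T.h (M (nat_lit 1170152927893913599)) (T.h (P (nat_lit 0)) (M (nat_lit 59823184640879)))))) (T.h (P (nat_lit 0)) (T.h (T.h (M (nat_lit 1170152927893913599)) (T.h (P (nat_lit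 0)) (M (nat_lit 38999358614879)))) (T.h (P (nat_lit 0)) (M (nat_lit 59823184640879)))))) (T.h (T.h (P (nat_lit 0)) (T.h (T.h (P (nat_lit 0)) (P (nat_lit 75502955984846848))) (P (nat_lit 0)))) (T.h (T.h (T.h (P (nat_lit 22231608460203524096)) (T.h (P (nat_lit 0)) (P (nat_lit 89708038750208)))) (T.h (P (nat_lit 0)) (P (nat_lit 89708038750208)))) (T.h (P (nat_lit 0)) (P (nat_lit 6013664591648))))))))]
def lQm_41 : List (T ℤ) := [(T.h (T.h (T.h (P (nat_lit 0)) (T.h (M (nat_lit 16673976384456745519977332735)) (T.h (P (nat_lit 0)) (T.h (P (nat_lit 21987762614248631435264)) (T.h (P (nat_lit 0)) (M (nat_lit 5203831536091135))))))) (T.h (P (nat_lit 0)) (T.h (T.h (P (nat_lit 0)) (T.h (M (nat_lit 636810433992612380671)) (T.h (P (nat_lit 0)) (M (nat_lit 92686055715602431))))) (T.h (P (nat_lit 0)) (T.h (T.h (P (nat_lit 0)) (M (nat_lit 150854767535882239))) (P (nat_lit 0))))))) (T.h (T.h (P (nat_lit 0)) (T.h (T.h (P (nat_lit 139046393886373083755839488)) (T.h (P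 (nat_lit 0)) (T.h (P (nat_lit 49455307798848995328)) (T.h (P (nat_lit 0)) (P (nat_lit 4164924265456)))))) (T.h (P (nat_lit 0)) (T.h (T.h (P (nat_lit 4517300243741540352)) (T.h (P (nat_lit 0)) (P (nat_lit 16557836531408)))) (T.h (P (nat_lit 0)) (M (nat_lit 34652740068447))))))) (T.h (T.h (T.h (P (nat_lit 0)) (T.h (M (nat_lit 276038670265591703535615)) (T.h (P (nat_lit 0)) (P (nat_lit 432994986391224320))))) (T.h (P (nat_lit 0)) (T.h (T.h (P (nat_lit 0)) (P (nat_lit 280027309767213056))) (P (nat_lit 0))))) (T.h (T.h (P (nat_lit 0)) (T.h (T.h (P (nat_lit 317902782325436973056)) (T.h (P (nat_lit 0)) (M (nat_lit 75934935373951)))) (T.h (P (nat_lit 0)) (P (nat_lit 6711510549152))))) (T.h (T.h (T.h (P (nat_lit 0)) (M (nat_lit 147136834461990911))) (P (nat_lit 0))) (T.h (T.h (P (nat_lit 0)) (M (nat_lit 72084300084943))) (P (nat_lit 0)))))))), (T.h (T.h (T.h (P (nat_lit 16373032247394188254534424330240)) (T.h (P (nat_lit 0)) (T.h (P (nat_lit 82364093836797918939447296))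 (T.h (P (nat_lit 0)) (T.h (M (nat_lit 105868750466731474943)) (T.h (P (nat_lit 0)) (P (nat_lit 221185732879200)))))))) (T.h (P (nat_lit 0)) (T.h (T.h (P (nat_lit 23688841013614905995034624)) (T.h (P (nat_lit 0)) (T.h (M (nat_lit 64247427580427239423)) (T.h (P (nat_lit 0)) (M (nat_lit 6417808484559)))))) (T.h (P (nat_lit 0)) (T.h (T.h (M (nat_lit 18525544061490692095)) (T.h (P (nat_lit 0)) (M (nat_lit 174617535857839)))) (T.h (P (nat_lit 0)) (M (nat_lit 19992458540479)))))))) (T.h (T.h (P (nat_lit 0)) (T.h (T.h (P (nat_lit 0)) (T.h (P (nat_lit 176562571776358048858112)) (T.h (P (nat_lit 0)) (P (nat_lit 363780600151343104))))) (T.h (P (nat_lit 0)) (T.h (T.h (P (nat_lit 0)) (P (nat_lit 15819515406319616))) (P (nat_lit 0)))))) (T.h (T.h (T.h (M (nat_lit 183164102553771000985550847)) (T.h (P (nat_lit 0)) (T.h (P (nat_lit 149752501920275103744)) (T.h (P (nat_lit 0)) (M (nat_lit 2048257231413679)))))) (T.h (P (nat_lit 0)) (T.h (T.h (P (nat_lit 448948537288898379776))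 (T.h (P (nat_lit 0)) (M (nat_lit 831663739764239)))) (T.h (P (nat_lit 0)) (P (nat_lit 583660449321760)))))) (T.h (T.h (P (nat_lit 0)) (T.h (T.h (P (nat_lit 0)) (P (nat_lit 260329813543616512))) (P (nat_lit 0)))) (T.h (T.h (T.h (M (nat_lit 64186300245037023231)) (T.h (P (nat_lit 0)) (M (nat_lit 328360484248639)))) (T.h (P (nat_lit 0)) (M (nat_lit 12008700755279)))) (T.h (P (nat_lit 0)) (P (nat_lit 181077617065440)))))))), (T.h (T.h (T.h (P (nat_lit 0)) (T.h (M (nat_lit 134270297398750438269189619711)) (T.h (P (nat_lit 0)) (T.h (P (nat_lit 35199011028150773612544)) (T.h (P (nat_lit 0)) (M (nat_lit 220288745474244607))))))) (T.h (P (nat_lit 0)) (T.h (T.h (P (nat_lit 0)) (T.h (P (nat_lit 214501384980258199961600)) (T.h (P (nat_lit 0)) (P (nat_lit 327056660642496512))))) (T.h (P (nat_lit 0)) (T.h (T.h (P (nat_lit 0)) (M (nat_lit 325401417075720191))) (P (nat_lit 0))))))) (T.h (T.h (P (nat_lit 0)) (T.h (T.h (M (nat_lit 65024100211193024643858431)) (T.h (P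 (nat_lit 0)) (T.h (P (nat_lit 1791209464431277768704)) (T.h (P (nat_lit 0)) (P (nat_lit 56095130371632)))))) (T.h (P (nat_lit 0)) (T.h (T.h (P (nat_lit 189888095720235335680)) (T.h (P (nat_lit 0)) (M (nat_lit 625848463900175)))) (T.h (P (nat_lit 0)) (M (nat_lit 171358582288431))))))) (T.h (T.h (T.h (P (nat_lit 0)) (T.h (M (nat_lit 382351651573250465464319)) (T.h (P (nat_lit 0)) (M (nat_lit 663185509083824127))))) (T.h (P (nat_lit 0)) (T.h (T.h (P (nat_lit 0)) (P (nat_lit 1694244006401474560))) (P (nat_lit 0))))) (T.h (T.h (P (nat_lit 0)) (T.h (T.h (M (nat_lit 173216666178182709247)) (T.h (P (nat_lit 0)) (M (nat_lit 150609851272495)))) (T.h (P (nat_lit 0)) (M (nat_lit 126198014860367))))) (T.h (T.h (T.h (P (nat_lit 0)) (P (nat_lit 461622103824433152))) (P (nat_lit 0))) (T.h (T.h (P (nat_lit 0)) (P (nat_lit 128431816472960))) (P (nat_lit 0)))))))), (T.h (T.h (T.h (P (nat_lit 19911686985342792395777992818688)) (T.h (P (nat_lit 0)) (T.h (M (nat_lit 66216282854357790449729535))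 (T.h (P (nat_lit 0)) (P (nat_lit 89483072378851295232)))))) (T.h (P (nat_lit 0)) (T.h (T.h (P (nat_lit 29866378528940360116207616)) (T.h (P (nat_lit 0)) (M (nat_lit 153817068035633053695)))) (T.h (P (nat_lit 0)) (P (nat_lit 42188510695096582144)))))) (T.h (T.h (P (nat_lit 0)) (T.h (T.h (P (nat_lit 0)) (T.h (M (nat_lit 678210062349546654007295)) (T.h (P (nat_lit 0)) (M (nat_lit 180562133041676287))))) (T.h (P (nat_lit 0)) (T.h (T.h (P (nat_lit 0)) (P (nat_lit 642979739907260416))) (P (nat_lit 0)))))) (T.h (T.h (T.h (M (nat_lit 66216282854357790449729535)) (T.h (P (nat_lit 0)) (P (nat_lit 1204606997567086002176)))) (T.h (P (nat_lit 0)) (M (nat_lit 153817068035633053695)))) (T.h (T.h (P (nat_lit 0)) (T.h (T.h (P (nat_lit 0)) (M (nat_lit 180562133041676287))) (P (nat_lit 0)))) (P (nat_lit 89483072378851295232)))))), (P (nat_lit 0)), (P (nat_lit 0)), (T.h (T.h (P (nat_lit 0)) (T.h (T.h (P (nat_lit 0)) (T.h (M (nat_lit 1705315292969379989291007)) (T.h (P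 (nat_lit 0)) (T.h (P (nat_lit 2377763215032451072)) (T.h (P (nat_lit 0)) (P (nat_lit 7158406918608))))))) (T.h (P (nat_lit 0)) (T.h (T.h (P (nat_lit 0)) (T.h (P (nat_lit 2476425389400915968)) (T.h (P (nat_lit 0)) (P (nat_lit 2063416401616))))) (T.h (P (nat_lit 0)) (T.h (T.h (P (nat_lit 0)) (M (nat_lit 6242764166039))) (P (nat_lit 0)))))))) (T.h (T.h (T.h (P (nat_lit 2055456681931519564426772480)) (T.h (P (nat_lit 0)) (T.h (M (nat_lit 10035423191259844444159)) (T.h (P (nat_lit 0)) (P (nat_lit 4075656891629568)))))) (T.h (P (nat_lit 0)) (T.h (T.h (M (nat_lit 2766668727805554982911)) (T.h (P (nat_lit 0)) (P (nat_lit 454002489458688)))) (T.h (P (nat_lit 0)) (M (nat_lit 2451024506814463)))))) (T.h (T.h (P (nat_lit 0)) (T.h (T.h (P (nat_lit 0)) (T.h (P (nat_lit 876704851256410112)) (T.h (P (nat_lit 0)) (P (nat_lit 12562440285328))))) (T.h (P (nat_lit 0)) (T.h (T.h (P (nat_lit 0)) (M (nat_lit 1415563387735))) (P (nat_lit 0)))))) (T.h (T.h (T.h (P (nat_lit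 4248991952857825542144)) (T.h (P (nat_lit 0)) (P (nat_lit 48569078005039104)))) (T.h (P (nat_lit 0)) (M (nat_lit 8725047214145535)))) (T.h (T.h (P (nat_lit 0)) (T.h (T.h (P (nat_lit 0)) (M (nat_lit 28937018074767))) (P (nat_lit 0)))) (M (nat_lit 3485283988078591))))))), (T.h (T.h (P (nat_lit 0)) (T.h (T.h (M (nat_lit 16673976384456745519977332735)) (T.h (P (nat_lit 0)) (T.h (M (nat_lit 636810433992612380671)) (T.h (P (nat_lit 0)) (M (nat_lit 150854767535882239)))))) (T.h (P (nat_lit 0)) (T.h (T.h (P (nat_lit 21987762614248631435264)) (T.h (P (nat_lit 0)) (M (nat_lit 92686055715602431)))) (T.h (P (nat_lit 0)) (M (nat_lit 5203831536091135))))))) (T.h (T.h (T.h (P (nat_lit 0)) (T.h (P (nat_lit 139046393886373083755839488)) (T.h (P (nat_lit 0)) (T.h (P (nat_lit 4517300243741540352)) (T.h (P (nat_lit 0)) (M (nat_lit 34652740068447))))))) (T.h (P (nat_lit 0)) (T.h (T.h (P (nat_lit 0)) (T.h (P (nat_lit 49455307798848995328)) (T.h (P (nat_lit 0)) (P (nat_lit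 16557836531408))))) (T.h (P (nat_lit 0)) (T.h (T.h (P (nat_lit 0)) (P (nat_lit 4164924265456))) (P (nat_lit 0))))))) (T.h (T.h (P (nat_lit 0)) (T.h (T.h (M (nat_lit 276038670265591703535615)) (T.h (P (nat_lit 0)) (P (nat_lit 280027309767213056)))) (T.h (P (nat_lit 0)) (P (nat_lit 432994986391224320))))) (T.h (T.h (T.h (P (nat_lit 0)) (T.h (P (nat_lit 317902782325436973056)) (T.h (P (nat_lit 0)) (P (nat_lit 6711510549152))))) (T.h (P (nat_lit 0)) (T.h (T.h (P (nat_lit 0)) (M (nat_lit 75934935373951))) (P (nat_lit 0))))) (T.h (T.h (P (nat_lit 0)) (M (nat_lit 147136834461990911))) (T.h (T.h (T.h (P (nat_lit 0)) (M (nat_lit 72084300084943))) (P (nat_lit 0))) (P (nat_lit 0))))))))]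
def lQm_42 : List (T ℤ) := [(T.h (T.h (P (nat_lit 0)) (T.h (T.h (P (nat_lit 0)) (T.h (P (nat_lit 195476179480490388299448320)) (T.h (P (nat_lit 0)) (T.h (M (nat_lit 117559666176704905215)) (T.h (P (nat_lit 0)) (M (nat_lit 40329959640399))))))) (T.h (P (nat_lit 0)) (T.h (T.h (P (nat_lit 0)) (T.h (M (nat_lit 117559666176704905215)) (T.h (P (nat_lit 0)) (P (nat_lit 178876977698560))))) (T.h (P (nat_lit 0)) (T.h (T.h (P (nat_lit 0)) (M (nat_lit 40329959640399))) (P (nat_lit 0)))))))) (T.h (T.h (T.h (M (nat_lit 69633019206119853098857922559)) (T.h (P (nat_lit 0)) (T.h (M (nat_lit 158227689711631811477503)) (T.h (P (nat_lit 0)) (P (nat_lit 299866337198080000)))))) (T.h (P (nat_lit 0)) (T.h (T.h (M (nat_lit 158227689711631811477503)) (T.h (P (nat_lit 0)) (P (nat_lit 185226729645146112)))) (T.h (P (nat_lit 0)) (P (nat_lit 299866337198080000)))))) (T.h (T.h (P (nat_lit 0)) (T.h (T.h (P (nat_lit 0)) (T.h (P (nat_lit 733300534981362188288)) (T.h (P (nat_lit 0))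 (M (nat_lit 327972253000559))))) (T.h (P (nat_lit 0)) (T.h (T.h (P (nat_lit 0)) (M (nat_lit 327972253000559))) (P (nat_lit 0)))))) (T.h (T.h (T.h (P (nat_lit 32165377150601421389824)) (T.h (P (nat_lit 0)) (M (nat_lit 1577009487523938303)))) (T.h (P (nat_lit 0)) (M (nat_lit 1577009487523938303)))) (T.h (T.h (P (nat_lit 0)) (T.h (T.h (P (nat_lit 0)) (P (nat_lit 712331587072960))) (P (nat_lit 0)))) (M (nat_lit 549582392462606335))))))), (T.h (T.h (P (nat_lit 0)) (T.h (T.h (P (nat_lit 19358757907562315046719586304)) (T.h (P (nat_lit 0)) (T.h (P (nat_lit 476423577245513565601792)) (T.h (P (nat_lit 0)) (P (nat_lit 189194584109727744)))))) (T.h (P (nat_lit 0)) (T.h (T.h (P (nat_lit 178031969107254934765568)) (T.h (P (nat_lit 0)) (P (nat_lit 64653329598595072)))) (T.h (P (nat_lit 0)) (M (nat_lit 106449234473418751))))))) (T.h (T.h (T.h (P (nat_lit 0)) (T.h (M (nat_lit 554268061982648718608826367)) (T.h (P (nat_lit 0)) (T.h (M (nat_lit 443740358902233956351))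 (T.h (P (nat_lit 0)) (M (nat_lit 233783438575983))))))) (T.h (P (nat_lit 0)) (T.h (T.h (P (nat_lit 0)) (T.h (P (nat_lit 1515155284965963333632)) (T.h (P (nat_lit 0)) (P (nat_lit 295459527894608))))) (T.h (P (nat_lit 0)) (T.h (T.h (P (nat_lit 0)) (M (nat_lit 842506019795263))) (P (nat_lit 0))))))) (T.h (T.h (P (nat_lit 0)) (T.h (T.h (M (nat_lit 821825102410671628222463)) (T.h (P (nat_lit 0)) (M (nat_lit 1120090004433469439)))) (T.h (P (nat_lit 0)) (M (nat_lit 787272089171591167))))) (T.h (T.h (T.h (P (nat_lit 0)) (T.h (M (nat_lit 1509857225257798074367)) (T.h (P (nat_lit 0)) (M (nat_lit 204484843713391))))) (T.h (P (nat_lit 0)) (T.h (T.h (P (nat_lit 0)) (M (nat_lit 209987776456831))) (P (nat_lit 0))))) (T.h (T.h (P (nat_lit 0)) (M (nat_lit 822325341666951167))) (T.h (T.h (T.h (P (nat_lit 0)) (P (nat_lit 346719340363264))) (P (nat_lit 0))) (P (nat_lit 0)))))))), (T.h (T.h (P (nat_lit 0)) (T.h (T.h (P (nat_lit 0)) (T.h (M (nat_lit 62512067805864717822459903))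 (T.h (P (nat_lit 0)) (M (nat_lit 152497253471509020671))))) (T.h (P (nat_lit 0)) (T.h (T.h (P (nat_lit 0)) (M (nat_lit 451596974912692027391))) (P (nat_lit 0)))))) (T.h (T.h (T.h (P (nat_lit 58533588080269667130553663488)) (T.h (P (nat_lit 0)) (T.h (M (nat_lit 228364555603926038085631)) (T.h (P (nat_lit 0)) (M (nat_lit 125002415436529663)))))) (T.h (P (nat_lit 0)) (T.h (T.h (M (nat_lit 307387787828805941329919)) (T.h (P (nat_lit 0)) (P (nat_lit 1070033940780810240)))) (T.h (P (nat_lit 0)) (P (nat_lit 32282370373353472)))))) (T.h (T.h (P (nat_lit 0)) (T.h (T.h (P (nat_lit 0)) (M (nat_lit 562928614136549998591))) (P (nat_lit 0)))) (T.h (T.h (T.h (P (nat_lit 194793753450289104420864)) (T.h (P (nat_lit 0)) (M (nat_lit 522124404768767999)))) (T.h (P (nat_lit 0)) (P (nat_lit 144336044066504704)))) (T.h (P (nat_lit 0)) (M (nat_lit 15147995482423295))))))), (P (nat_lit 0)), (P (nat_lit 0)), (T.h (T.h (T.h (P (nat_lit 0)) (T.h (M (nat_lit 21439020041541902305889091583))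 (T.h (P (nat_lit 0)) (T.h (P (nat_lit 17368237073517154140160)) (T.h (P (nat_lit 0)) (P (nat_lit 3881363090505728))))))) (T.h (P (nat_lit 0)) (T.h (T.h (P (nat_lit 0)) (T.h (M (nat_lit 3066642079731815546879)) (T.h (P (nat_lit 0)) (M (nat_lit 43936759381704703))))) (T.h (P (nat_lit 0)) (T.h (T.h (P (nat_lit 0)) (P (nat_lit 2510440788918272))) (P (nat_lit 0))))))) (T.h (T.h (P (nat_lit 0)) (T.h (T.h (M (nat_lit 39555283947184431235596287)) (T.h (P (nat_lit 0)) (T.h (P (nat_lit 55318303577196199936)) (T.h (P (nat_lit 0)) (P (nat_lit 33481742598912)))))) (T.h (P (nat_lit 0)) (T.h (T.h (M (nat_lit 30022983081594454015)) (T.h (P (nat_lit 0)) (P (nat_lit 18354663940000)))) (T.h (P (nat_lit 0)) (M (nat_lit 20915930440255))))))) (T.h (T.h (T.h (P (nat_lit 0)) (T.h (M (nat_lit 3327027577897286107135)) (T.h (P (nat_lit 0)) (M (nat_lit 1071105886158847))))) (T.h (P (nat_lit 0)) (T.h (T.h (P (nat_lit 0)) (P (nat_lit 1332017585995776))) (P (nat_lit 0))))) (T.h (T.h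 (P (nat_lit 0)) (T.h (T.h (M (nat_lit 287531455608975785983)) (T.h (P (nat_lit 0)) (M (nat_lit 138743880398239)))) (T.h (P (nat_lit 0)) (P (nat_lit 346327786339536))))) (T.h (T.h (T.h (P (nat_lit 0)) (M (nat_lit 131088948266926079))) (P (nat_lit 0))) (T.h (T.h (P (nat_lit 0)) (P (nat_lit 5629987302560))) (P (nat_lit 0)))))))), (T.h (T.h (T.h (P (nat_lit 16373032247394188254534424330240)) (T.h (P (nat_lit 0)) (T.h (P (nat_lit 23688841013614905995034624)) (T.h (P (nat_lit 0)) (T.h (M (nat_lit 18525544061490692095)) (T.h (P (nat_lit 0)) (M (nat_lit 19992458540479)))))))) (T.h (P (nat_lit 0)) (T.h (T.h (P (nat_lit 82364093836797918939447296)) (T.h (P (nat_lit 0)) (T.h (M (nat_lit 64247427580427239423)) (T.h (P (nat_lit 0)) (M (nat_lit 174617535857839)))))) (T.h (P (nat_lit 0)) (T.h (T.h (M (nat_lit 105868750466731474943)) (T.h (P (nat_lit 0)) (M (nat_lit 6417808484559)))) (T.h (P (nat_lit 0)) (P (nat_lit 221185732879200)))))))) (T.h (T.h (P (nat_lit 0))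 (T.h (T.h (P (nat_lit 0)) (T.h (P (nat_lit 176562571776358048858112)) (T.h (P (nat_lit 0)) (P (nat_lit 15819515406319616))))) (T.h (P (nat_lit 0)) (T.h (T.h (P (nat_lit 0)) (P (nat_lit 363780600151343104))) (P (nat_lit 0)))))) (T.h (T.h (T.h (M (nat_lit 183164102553771000985550847)) (T.h (P (nat_lit 0)) (T.h (P (nat_lit 448948537288898379776)) (T.h (P (nat_lit 0)) (P (nat_lit 583660449321760)))))) (T.h (P (nat_lit 0)) (T.h (T.h (P (nat_lit 149752501920275103744)) (T.h (P (nat_lit 0)) (M (nat_lit 831663739764239)))) (T.h (P (nat_lit 0)) (M (nat_lit 2048257231413679)))))) (T.h (T.h (P (nat_lit 0)) (T.h (T.h (P (nat_lit 0)) (P (nat_lit 260329813543616512))) (P (nat_lit 0)))) (T.h (T.h (T.h (M (nat_lit 64186300245037023231)) (T.h (P (nat_lit 0)) (M (nat_lit 12008700755279)))) (T.h (P (nat_lit 0)) (M (nat_lit 328360484248639)))) (T.h (P (nat_lit 0)) (P (nat_lit 181077617065440)))))))), (T.h (T.h (T.h (P (nat_lit 0)) (T.h (P (nat_lit 19358757907562315046719586304))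 (T.h (P (nat_lit 0)) (T.h (P (nat_lit 178031969107254934765568)) (T.h (P (nat_lit 0)) (M (nat_lit 106449234473418751))))))) (T.h (P (nat_lit 0)) (T.h (T.h (P (nat_lit 0)) (T.h (P (nat_lit 476423577245513565601792)) (T.h (P (nat_lit 0)) (P (nat_lit 64653329598595072))))) (T.h (P (nat_lit 0)) (T.h (T.h (P (nat_lit 0)) (P (nat_lit 189194584109727744))) (P (nat_lit 0))))))) (T.h (T.h (P (nat_lit 0)) (T.h (T.h (M (nat_lit 554268061982648718608826367)) (T.h (P (nat_lit 0)) (T.h (P (nat_lit 1515155284965963333632)) (T.h (P (nat_lit 0)) (M (nat_lit 842506019795263)))))) (T.h (P (nat_lit 0)) (T.h (T.h (M (nat_lit 443740358902233956351)) (T.h (P (nat_lit 0)) (P (nat_lit 295459527894608)))) (T.h (P (nat_lit 0)) (M (nat_lit 233783438575983))))))) (T.h (T.h (T.h (P (nat_lit 0)) (T.h (M (nat_lit 821825102410671628222463)) (T.h (P (nat_lit 0)) (M (nat_lit 787272089171591167))))) (T.h (P (nat_lit 0)) (T.h (T.h (P (nat_lit 0)) (M (nat_lit 1120090004433469439))) (P (nat_lit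 0))))) (T.h (T.h (P (nat_lit 0)) (T.h (T.h (M (nat_lit 1509857225257798074367)) (T.h (P (nat_lit 0)) (M (nat_lit 209987776456831)))) (T.h (P (nat_lit 0)) (M (nat_lit 204484843713391))))) (T.h (T.h (T.h (P (nat_lit 0)) (M (nat_lit 822325341666951167))) (P (nat_lit 0))) (T.h (T.h (P (nat_lit 0)) (P (nat_lit 346719340363264))) (P (nat_lit 0))))))))]
def lQm_43 : List (T ℤ) := [(T.h (T.h (T.h (M (nat_lit 10480330179334628032889529303039)) (T.h (P (nat_lit 0)) (T.h (M (nat_lit 98177673145268500133052415)) (T.h (P (nat_lit 0)) (P (nat_lit 246263348381943332864)))))) (T.h (P (nat_lit 0)) (T.h (T.h (M (nat_lit 98177673145268500133052415)) (T.h (P (nat_lit 0)) (M (nat_lit 200558750337517748223)))) (T.h (P (nat_lit 0)) (P (nat_lit 246263348381943332864)))))) (T.h (T.h (P (nat_lit 0)) (T.h (T.h (P (nat_lit 0)) (T.h (M (nat_lit 1299879884616596717567999)) (T.h (P (nat_lit 0)) (P (nat_lit 2077814719399723008))))) (T.h (P (nat_lit 0)) (T.h (T.h (P (nat_lit 0)) (P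 (nat_lit 2077814719399723008))) (P (nat_lit 0)))))) (T.h (T.h (T.h (P (nat_lit 185157826882941110320103424)) (T.h (P (nat_lit 0)) (P (nat_lit 105537405580398821376)))) (T.h (P (nat_lit 0)) (P (nat_lit 105537405580398821376)))) (T.h (T.h (P (nat_lit 0)) (T.h (T.h (P (nat_lit 0)) (M (nat_lit 423209768725774335))) (P (nat_lit 0)))) (M (nat_lit 19219055889835098111)))))), (P (nat_lit 0)), (P (nat_lit 0)), (T.h (T.h (P (nat_lit 0)) (T.h (T.h (P (nat_lit 0)) (T.h (M (nat_lit 84196165240367251311296511)) (T.h (P (nat_lit 0)) (T.h (M (nat_lit 88201718308815241215)) (T.h (P (nat_lit 0)) (M (nat_lit 14276070104159))))))) (T.h (P (nat_lit 0)) (T.h (T.h (P (nat_lit 0)) (T.h (P (nat_lit 179317428776303853568)) (T.h (P (nat_lit 0)) (M (nat_lit 246642587653999))))) (T.h (P (nat_lit 0)) (T.h (T.h (P (nat_lit 0)) (M (nat_lit 134158551876799))) (P (nat_lit 0)))))))) (T.h (T.h (T.h (M (nat_lit 15103393910805811674524680191)) (T.h (P (nat_lit 0)) (T.h (P (nat_lit 71252488799191958552576))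 (T.h (P (nat_lit 0)) (M (nat_lit 195913816851152895)))))) (T.h (P (nat_lit 0)) (T.h (T.h (P (nat_lit 164756038612868625596416)) (T.h (P (nat_lit 0)) (M (nat_lit 1020327917606305791)))) (T.h (P (nat_lit 0)) (M (nat_lit 253737492773535743)))))) (T.h (T.h (P (nat_lit 0)) (T.h (T.h (P (nat_lit 0)) (T.h (P (nat_lit 228585117517172703232)) (T.h (P (nat_lit 0)) (M (nat_lit 46060579552079))))) (T.h (P (nat_lit 0)) (T.h (T.h (P (nat_lit 0)) (P (nat_lit 416838103512880))) (P (nat_lit 0)))))) (T.h (T.h (T.h (P (nat_lit 35708899549047051780096)) (T.h (P (nat_lit 0)) (P (nat_lit 120247537389076480)))) (T.h (P (nat_lit 0)) (M (nat_lit 51203836739551231)))) (T.h (T.h (P (nat_lit 0)) (T.h (T.h (P (nat_lit 0)) (M (nat_lit 332259197192239))) (P (nat_lit 0)))) (P (nat_lit 157679197717659648))))))), (T.h (T.h (P (nat_lit 0)) (T.h (T.h (M (nat_lit 134270297398750438269189619711)) (T.h (P (nat_lit 0)) (T.h (P (nat_lit 214501384980258199961600)) (T.h (P (nat_lit 0)) (M (nat_lit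 325401417075720191)))))) (T.h (P (nat_lit 0)) (T.h (T.h (P (nat_lit 35199011028150773612544)) (T.h (P (nat_lit 0)) (P (nat_lit 327056660642496512)))) (T.h (P (nat_lit 0)) (M (nat_lit 220288745474244607))))))) (T.h (T.h (T.h (P (nat_lit 0)) (T.h (M (nat_lit 65024100211193024643858431)) (T.h (P (nat_lit 0)) (T.h (P (nat_lit 189888095720235335680)) (T.h (P (nat_lit 0)) (M (nat_lit 171358582288431))))))) (T.h (P (nat_lit 0)) (T.h (T.h (P (nat_lit 0)) (T.h (P (nat_lit 1791209464431277768704)) (T.h (P (nat_lit 0)) (M (nat_lit 625848463900175))))) (T.h (P (nat_lit 0)) (T.h (T.h (P (nat_lit 0)) (P (nat_lit 56095130371632))) (P (nat_lit 0))))))) (T.h (T.h (P (nat_lit 0)) (T.h (T.h (M (nat_lit 382351651573250465464319)) (T.h (P (nat_lit 0)) (P (nat_lit 1694244006401474560)))) (T.h (P (nat_lit 0)) (M (nat_lit 663185509083824127))))) (T.h (T.h (T.h (P (nat_lit 0)) (T.h (M (nat_lit 173216666178182709247)) (T.h (P (nat_lit 0)) (M (nat_lit 126198014860367))))) (T.h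 (P (nat_lit 0)) (T.h (T.h (P (nat_lit 0)) (M (nat_lit 150609851272495))) (P (nat_lit 0))))) (T.h (T.h (P (nat_lit 0)) (P (nat_lit 461622103824433152))) (T.h (T.h (T.h (P (nat_lit 0)) (P (nat_lit 128431816472960))) (P (nat_lit 0))) (P (nat_lit 0)))))))), (T.h (T.h (P (nat_lit 0)) (T.h (T.h (P (nat_lit 0)) (T.h (M (nat_lit 62512067805864717822459903)) (T.h (P (nat_lit 0)) (M (nat_lit 451596974912692027391))))) (T.h (P (nat_lit 0)) (T.h (T.h (P (nat_lit 0)) (M (nat_lit 152497253471509020671))) (P (nat_lit 0)))))) (T.h (T.h (T.h (P (nat_lit 58533588080269667130553663488)) (T.h (P (nat_lit 0)) (T.h (M (nat_lit 307387787828805941329919)) (T.h (P (nat_lit 0)) (P (nat_lit 32282370373353472)))))) (T.h (P (nat_lit 0)) (T.h (T.h (M (nat_lit 228364555603926038085631)) (T.h (P (nat_lit 0)) (P (nat_lit 1070033940780810240)))) (T.h (P (nat_lit 0)) (M (nat_lit 125002415436529663)))))) (T.h (T.h (P (nat_lit 0)) (T.h (T.h (P (nat_lit 0)) (M (nat_lit 562928614136549998591)))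 (P (nat_lit 0)))) (T.h (T.h (T.h (P (nat_lit 194793753450289104420864)) (T.h (P (nat_lit 0)) (P (nat_lit 144336044066504704)))) (T.h (P (nat_lit 0)) (M (nat_lit 522124404768767999)))) (T.h (P (nat_lit 0)) (M (nat_lit 15147995482423295))))))), (P (nat_lit 0)), (P (nat_lit 0))]
def lQm_44 : List (T ℤ) := [(T.h (T.h (T.h (P (nat_lit 0)) (T.h (M (nat_lit 24992318524765064333499564031)) (T.h (P (nat_lit 0)) (T.h (P (nat_lit 11604628832279974641664)) (T.h (P (nat_lit 0)) (P (nat_lit 10089550851538944))))))) (T.h (P (nat_lit 0)) (T.h (T.h (P (nat_lit 0)) (T.h (P (nat_lit 260361686357432774688768)) (T.h (P (nat_lit 0)) (M (nat_lit 58673506168897535))))) (T.h (P (nat_lit 0)) (T.h (T.h (P (nat_lit 0)) (P (nat_lit 265449525198569472))) (P (nat_lit 0))))))) (T.h (T.h (P (nat_lit 0)) (T.h (T.h (M (nat_lit 13044743086543117431603199)) (T.h (P (nat_lit 0)) (T.h (P (nat_lit 198258432899561816064)) (T.h (P (nat_lit 0)) (M (nat_lit 237527651697951)))))) (T.h (P (nat_lit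 0)) (T.h (T.h (P (nat_lit 895701505092815421440)) (T.h (P (nat_lit 0)) (P (nat_lit 523327662662640)))) (T.h (P (nat_lit 0)) (M (nat_lit 511264914572719))))))) (T.h (T.h (T.h (P (nat_lit 0)) (T.h (P (nat_lit 260361686357432774688768)) (T.h (P (nat_lit 0)) (M (nat_lit 58673506168897535))))) (T.h (P (nat_lit 0)) (T.h (T.h (P (nat_lit 0)) (P (nat_lit 205872335258877952))) (P (nat_lit 0))))) (T.h (T.h (P (nat_lit 0)) (T.h (T.h (P (nat_lit 895701505092815421440)) (T.h (P (nat_lit 0)) (P (nat_lit 523327662662640)))) (T.h (P (nat_lit 0)) (M (nat_lit 1759458341326751))))) (T.h (T.h (T.h (P (nat_lit 0)) (P (nat_lit 265449525198569472))) (P (nat_lit 0))) (T.h (T.h (P (nat_lit 0)) (M (nat_lit 511264914572719))) (P (nat_lit 0)))))))), (T.h (T.h (T.h (P (nat_lit 19911686985342792395777992818688)) (T.h (P (nat_lit 0)) (T.h (P (nat_lit 29866378528940360116207616)) (T.h (P (nat_lit 0)) (P (nat_lit 42188510695096582144)))))) (T.h (P (nat_lit 0)) (T.h (T.h (M (nat_lit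 66216282854357790449729535)) (T.h (P (nat_lit 0)) (M (nat_lit 153817068035633053695)))) (T.h (P (nat_lit 0)) (P (nat_lit 89483072378851295232)))))) (T.h (T.h (P (nat_lit 0)) (T.h (T.h (P (nat_lit 0)) (T.h (M (nat_lit 678210062349546654007295)) (T.h (P (nat_lit 0)) (P (nat_lit 642979739907260416))))) (T.h (P (nat_lit 0)) (T.h (T.h (P (nat_lit 0)) (M (nat_lit 180562133041676287))) (P (nat_lit 0)))))) (T.h (T.h (T.h (M (nat_lit 66216282854357790449729535)) (T.h (P (nat_lit 0)) (M (nat_lit 153817068035633053695)))) (T.h (P (nat_lit 0)) (P (nat_lit 1204606997567086002176)))) (T.h (T.h (P (nat_lit 0)) (T.h (T.h (P (nat_lit 0)) (M (nat_lit 180562133041676287))) (P (nat_lit 0)))) (P (nat_lit 89483072378851295232)))))), (P (nat_lit 0)), (P (nat_lit 0)), (T.h (T.h (P (nat_lit 0)) (T.h (T.h (P (nat_lit 0)) (T.h (M (nat_lit 8530470887322473985998847)) (T.h (P (nat_lit 0)) (P (nat_lit 11526735466153902080))))) (T.h (P (nat_lit 0)) (T.h (T.h (P (nat_lit 0)) (P (nat_lit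 124755095903367331840))) (P (nat_lit 0)))))) (T.h (T.h (T.h (P (nat_lit 37495071686497208421731794944)) (T.h (P (nat_lit 0)) (T.h (P (nat_lit 16057378342646109437952)) (T.h (P (nat_lit 0)) (P (nat_lit 26770372925128704)))))) (T.h (P (nat_lit 0)) (T.h (T.h (M (nat_lit 426842702168290282700799)) (T.h (P (nat_lit 0)) (P (nat_lit 154969859478683648)))) (T.h (P (nat_lit 0)) (P (nat_lit 1052533473347338240)))))) (T.h (T.h (P (nat_lit 0)) (T.h (T.h (P (nat_lit 0)) (M (nat_lit 394182288451529867263))) (P (nat_lit 0)))) (T.h (T.h (T.h (M (nat_lit 138571131412666097074175)) (T.h (P (nat_lit 0)) (M (nat_lit 255022184546467839)))) (T.h (P (nat_lit 0)) (P (nat_lit 813225388758859776)))) (T.h (P (nat_lit 0)) (P (nat_lit 207322856984576000))))))), (P (nat_lit 0)), (P (nat_lit 0)), (P (nat_lit 0))]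
def lQm_45 : List (T ℤ) := [(P (nat_lit 0)), (P (nat_lit 0)), (T.h (T.h (T.h (P (nat_lit 0)) (T.h (M (nat_lit 12794100345879409982347149311)) (T.h (P (nat_lit 0)) (T.h (P (nat_lit 1384689428146249793536)) (T.h (P (nat_lit 0)) (P (nat_lit 12294808850366464))))))) (T.h (P (nat_lit 0)) (T.h (T.h (P (nat_lit 0)) (T.h (M (nat_lit 1358226987020332302335)) (T.h (P (nat_lit 0)) (P (nat_lit 132703734923264))))) (T.h (P (nat_lit 0)) (T.h (T.h (P (nat_lit 0)) (P (nat_lit 108913887543296))) (P (nat_lit 0))))))) (T.h (T.h (P (nat_lit 0)) (T.h (T.h (M (nat_lit 1857953842829409745108991)) (T.h (P (nat_lit 0)) (T.h (P (nat_lit 593274009924141056)) (T.h (P (nat_lit 0)) (P (nat_lit 8435143216096)))))) (T.h (P (nat_lit 0)) (T.h (T.h (M (nat_lit 5207521057891680255)) (T.h (P (nat_lit 0)) (P (nat_lit 1495307379448)))) (T.h (P (nat_lit 0)) (P (nat_lit 7889238589568))))))) (T.h (T.h (T.h (P (nat_lit 0)) (T.h (P (nat_lit 495899353916857384960)) (T.h (P (nat_lit 0)) (P (nat_lit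 10798372299145216))))) (T.h (P (nat_lit 0)) (T.h (T.h (P (nat_lit 0)) (P (nat_lit 4763249007394816))) (P (nat_lit 0))))) (T.h (T.h (P (nat_lit 0)) (T.h (T.h (M (nat_lit 8107869170617548799)) (T.h (P (nat_lit 0)) (M (nat_lit 13916663262255)))) (T.h (P (nat_lit 0)) (P (nat_lit 13168855558336))))) (T.h (T.h (T.h (P (nat_lit 0)) (P (nat_lit 38793684289617920))) (P (nat_lit 0))) (T.h (T.h (P (nat_lit 0)) (M (nat_lit 62471784628983))) (P (nat_lit 0)))))))), (T.h (T.h (T.h (M (nat_lit 16310421525849164254090450960383)) (T.h (P (nat_lit 0)) (T.h (P (nat_lit 10121519114408553399451648)) (T.h (P (nat_lit 0)) (T.h (M (nat_lit 2857327944320155647)) (T.h (P (nat_lit 0)) (P (nat_lit 7181325551792)))))))) (T.h (P (nat_lit 0)) (T.h (T.h (M (nat_lit 1377791761044098531721215)) (T.h (P (nat_lit 0)) (T.h (M (nat_lit 244134082416476159)) (T.h (P (nat_lit 0)) (P (nat_lit 7834943220656)))))) (T.h (P (nat_lit 0)) (T.h (T.h (P (nat_lit 4136264342167355392)) (T.h (P (nat_lit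 0)) (P (nat_lit 7778266412928)))) (T.h (P (nat_lit 0)) (M (nat_lit 2258787755471)))))))) (T.h (T.h (P (nat_lit 0)) (T.h (T.h (P (nat_lit 0)) (T.h (P (nat_lit 10010703217678719385600)) (T.h (P (nat_lit 0)) (P (nat_lit 62959274422501376))))) (T.h (P (nat_lit 0)) (T.h (T.h (P (nat_lit 0)) (M (nat_lit 61646594252767231))) (P (nat_lit 0)))))) (T.h (T.h (T.h (P (nat_lit 11683839568522379406606336)) (T.h (P (nat_lit 0)) (T.h (P (nat_lit 61914797905744494592)) (T.h (P (nat_lit 0)) (M (nat_lit 25450372979775)))))) (T.h (P (nat_lit 0)) (T.h (T.h (M (nat_lit 48808837752610095103)) (T.h (P (nat_lit 0)) (M (nat_lit 2428238407215)))) (T.h (P (nat_lit 0)) (M (nat_lit 27352561037247)))))) (T.h (T.h (P (nat_lit 0)) (T.h (T.h (P (nat_lit 0)) (M (nat_lit 190586810511065087))) (P (nat_lit 0)))) (T.h (T.h (T.h (M (nat_lit 2035208997841141759)) (T.h (P (nat_lit 0)) (P (nat_lit 439341944415168)))) (T.h (P (nat_lit 0)) (P (nat_lit 65805890694080)))) (T.h (P (nat_lit 0)) (P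 (nat_lit 63359498543120)))))))), (T.h (T.h (T.h (P (nat_lit 0)) (T.h (P (nat_lit 20775842496571973614966931456)) (T.h (P (nat_lit 0)) (T.h (P (nat_lit 31027422118557268312064)) (T.h (P (nat_lit 0)) (M (nat_lit 80492444654338047))))))) (T.h (P (nat_lit 0)) (T.h (T.h (P (nat_lit 0)) (T.h (M (nat_lit 2528523741828411817983)) (T.h (P (nat_lit 0)) (P (nat_lit 72660222417698816))))) (T.h (P (nat_lit 0)) (T.h (T.h (P (nat_lit 0)) (P (nat_lit 145499149792968704))) (P (nat_lit 0))))))) (T.h (T.h (P (nat_lit 0)) (T.h (T.h (M (nat_lit 59228253820624305253253119)) (T.h (P (nat_lit 0)) (T.h (M (nat_lit 131191371818267049983)) (T.h (P (nat_lit 0)) (P (nat_lit 168865378043200)))))) (T.h (P (nat_lit 0)) (T.h (T.h (P (nat_lit 128776015067756888064)) (T.h (P (nat_lit 0)) (P (nat_lit 162100968221040)))) (T.h (P (nat_lit 0)) (P (nat_lit 12924331522800))))))) (T.h (T.h (T.h (P (nat_lit 0)) (T.h (P (nat_lit 242381418927757509787648)) (T.h (P (nat_lit 0)) (P (nat_lit 214374929667096576)))))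 (T.h (P (nat_lit 0)) (T.h (T.h (P (nat_lit 0)) (P (nat_lit 53650938488881152))) (P (nat_lit 0))))) (T.h (T.h (P (nat_lit 0)) (T.h (T.h (M (nat_lit 177530439701318598655)) (T.h (P (nat_lit 0)) (M (nat_lit 404751258890799)))) (T.h (P (nat_lit 0)) (P (nat_lit 216660159992640))))) (T.h (T.h (T.h (P (nat_lit 0)) (P (nat_lit 534317465604161536))) (P (nat_lit 0))) (T.h (T.h (P (nat_lit 0)) (M (nat_lit 115487932780159))) (P (nat_lit 0)))))))), (T.h (T.h (T.h (M (nat_lit 5579030000330377679209261694975)) (T.h (P (nat_lit 0)) (T.h (M (nat_lit 96726347834487794787418111)) (T.h (P (nat_lit 0)) (T.h (P (nat_lit 90695716078622867456)) (T.h (P (nat_lit 0)) (M (nat_lit 100380931134879)))))))) (T.h (P (nat_lit 0)) (T.h (T.h (M (nat_lit 5657961527253364136476671)) (T.h (P (nat_lit 0)) (T.h (M (nat_lit 10372977650615451647)) (T.h (P (nat_lit 0)) (P (nat_lit 211605099716560)))))) (T.h (P (nat_lit 0)) (T.h (T.h (P (nat_lit 13357060239115943936)) (T.h (P (nat_lit 0)) (P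 (nat_lit 46870734497312)))) (T.h (P (nat_lit 0)) (M (nat_lit 10492294430287)))))))) (T.h (T.h (P (nat_lit 0)) (T.h (T.h (P (nat_lit 0)) (T.h (M (nat_lit 457499459866436042751999)) (T.h (P (nat_lit 0)) (M (nat_lit 82063394174631935))))) (T.h (P (nat_lit 0)) (T.h (T.h (P (nat_lit 0)) (P (nat_lit 329846517412593664))) (P (nat_lit 0)))))) (T.h (T.h (T.h (P (nat_lit 19216157866977268909211648)) (T.h (P (nat_lit 0)) (T.h (M (nat_lit 52139860623666184191)) (T.h (P (nat_lit 0)) (P (nat_lit 227616305269056)))))) (T.h (P (nat_lit 0)) (T.h (T.h (P (nat_lit 49910012661702066176)) (T.h (P (nat_lit 0)) (M (nat_lit 1201170315836127)))) (T.h (P (nat_lit 0)) (P (nat_lit 45874032146976)))))) (T.h (T.h (P (nat_lit 0)) (T.h (T.h (P (nat_lit 0)) (M (nat_lit 472196403872694271))) (P (nat_lit 0)))) (T.h (T.h (T.h (P (nat_lit 32562526019337060352)) (T.h (P (nat_lit 0)) (M (nat_lit 1548465693749039)))) (T.h (P (nat_lit 0)) (M (nat_lit 311887139930959)))) (T.h (P (nat_lit 0))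 (M (nat_lit 499469368768831)))))))), (T.h (T.h (T.h (P (nat_lit 0)) (T.h (P (nat_lit 37495071686497208421731794944)) (T.h (P (nat_lit 0)) (T.h (M (nat_lit 138571131412666097074175)) (T.h (P (nat_lit 0)) (P (nat_lit 207322856984576000))))))) (T.h (P (nat_lit 0)) (T.h (T.h (P (nat_lit 0)) (T.h (P (nat_lit 16057378342646109437952)) (T.h (P (nat_lit 0)) (M (nat_lit 255022184546467839))))) (T.h (P (nat_lit 0)) (T.h (T.h (P (nat_lit 0)) (P (nat_lit 26770372925128704))) (P (nat_lit 0))))))) (T.h (T.h (P (nat_lit 0)) (T.h (T.h (M (nat_lit 8530470887322473985998847)) (T.h (P (nat_lit 0)) (M (nat_lit 394182288451529867263)))) (T.h (P (nat_lit 0)) (P (nat_lit 11526735466153902080))))) (T.h (T.h (T.h (P (nat_lit 0)) (T.h (M (nat_lit 426842702168290282700799)) (T.h (P (nat_lit 0)) (P (nat_lit 813225388758859776))))) (T.h (P (nat_lit 0)) (T.h (T.h (P (nat_lit 0)) (P (nat_lit 154969859478683648))) (P (nat_lit 0))))) (T.h (T.h (P (nat_lit 0)) (P (nat_lit 124755095903367331840)))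 (T.h (T.h (T.h (P (nat_lit 0)) (P (nat_lit 1052533473347338240))) (P (nat_lit 0))) (P (nat_lit 0))))))), (P (nat_lit 0))]
def lQm_46 : List (T ℤ) := [(P (nat_lit 0)), (T.h (T.h (P (nat_lit 0)) (T.h (T.h (M (nat_lit 12794100345879409982347149311)) (T.h (P (nat_lit 0)) (T.h (M (nat_lit 1358226987020332302335)) (T.h (P (nat_lit 0)) (P (nat_lit 108913887543296)))))) (T.h (P (nat_lit 0)) (T.h (T.h (P (nat_lit 1384689428146249793536)) (T.h (P (nat_lit 0)) (P (nat_lit 132703734923264)))) (T.h (P (nat_lit 0)) (P (nat_lit 12294808850366464))))))) (T.h (T.h (T.h (P (nat_lit 0)) (T.h (M (nat_lit 1857953842829409745108991)) (T.h (P (nat_lit 0)) (T.h (M (nat_lit 5207521057891680255)) (T.h (P (nat_lit 0)) (P (nat_lit 7889238589568))))))) (T.h (P (nat_lit 0)) (T.h (T.h (P (nat_lit 0)) (T.h (P (nat_lit 593274009924141056)) (T.h (P (nat_lit 0)) (P (nat_lit 1495307379448))))) (T.h (P (nat_lit 0)) (T.h (T.h (P (nat_lit 0)) (P (nat_lit 8435143216096))) (P (nat_lit 0)))))))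 (T.h (T.h (P (nat_lit 0)) (T.h (T.h (P (nat_lit 495899353916857384960)) (T.h (P (nat_lit 0)) (P (nat_lit 4763249007394816)))) (T.h (P (nat_lit 0)) (P (nat_lit 10798372299145216))))) (T.h (T.h (T.h (P (nat_lit 0)) (T.h (M (nat_lit 8107869170617548799)) (T.h (P (nat_lit 0)) (P (nat_lit 13168855558336))))) (T.h (P (nat_lit 0)) (T.h (T.h (P (nat_lit 0)) (M (nat_lit 13916663262255))) (P (nat_lit 0))))) (T.h (T.h (P (nat_lit 0)) (P (nat_lit 38793684289617920))) (T.h (T.h (T.h (P (nat_lit 0)) (M (nat_lit 62471784628983))) (P (nat_lit 0))) (P (nat_lit 0)))))))), (T.h (T.h (P (nat_lit 0)) (T.h (T.h (P (nat_lit 0)) (T.h (M (nat_lit 6317920619929703964213247)) (T.h (P (nat_lit 0)) (T.h (P (nat_lit 31644833031112359936)) (T.h (P (nat_lit 0)) (M (nat_lit 9359451847407))))))) (T.h (P (nat_lit 0)) (T.h (T.h (P (nat_lit 0)) (T.h (P (nat_lit 31644833031112359936)) (T.h (P (nat_lit 0)) (M (nat_lit 9080975901567))))) (T.h (P (nat_lit 0)) (T.h (T.h (P (nat_lit 0)) (M (nat_lit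 9359451847407))) (P (nat_lit 0)))))))) (T.h (T.h (T.h (P (nat_lit 22778679047823241513898344448)) (T.h (P (nat_lit 0)) (T.h (P (nat_lit 16637201450160661463040)) (T.h (P (nat_lit 0)) (M (nat_lit 52018046610030591)))))) (T.h (P (nat_lit 0)) (T.h (T.h (P (nat_lit 16637201450160661463040)) (T.h (P (nat_lit 0)) (P (nat_lit 108384944355377152)))) (T.h (P (nat_lit 0)) (M (nat_lit 52018046610030591)))))) (T.h (T.h (P (nat_lit 0)) (T.h (T.h (P (nat_lit 0)) (T.h (M (nat_lit 162904376799993528319)) (T.h (P (nat_lit 0)) (P (nat_lit 13668783183072))))) (T.h (P (nat_lit 0)) (T.h (T.h (P (nat_lit 0)) (P (nat_lit 13668783183072))) (P (nat_lit 0)))))) (T.h (T.h (T.h (M (nat_lit 103945883092789225324543)) (T.h (P (nat_lit 0)) (M (nat_lit 56333667256090623)))) (T.h (P (nat_lit 0)) (M (nat_lit 56333667256090623)))) (T.h (T.h (P (nat_lit 0)) (T.h (T.h (P (nat_lit 0)) (M (nat_lit 216448194887871))) (P (nat_lit 0)))) (P (nat_lit 67245607427866624))))))), (T.h (T.h (P (nat_lit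 0)) (T.h (T.h (M (nat_lit 49729393334821837117149151231)) (T.h (P (nat_lit 0)) (T.h (P (nat_lit 40371155272180078477312)) (T.h (P (nat_lit 0)) (P (nat_lit 147024609411497984)))))) (T.h (P (nat_lit 0)) (T.h (T.h (P (nat_lit 147949350077792008536064)) (T.h (P (nat_lit 0)) (M (nat_lit 10659707077853183)))) (T.h (P (nat_lit 0)) (M (nat_lit 39457157562138623))))))) (T.h (T.h (T.h (P (nat_lit 0)) (T.h (P (nat_lit 21803050347179325362536448)) (T.h (P (nat_lit 0)) (T.h (P (nat_lit 252614769847746691072)) (T.h (P (nat_lit 0)) (P (nat_lit 43199649132080))))))) (T.h (P (nat_lit 0)) (T.h (T.h (P (nat_lit 0)) (T.h (M (nat_lit 196772623904814399487)) (T.h (P (nat_lit 0)) (M (nat_lit 20503582987039))))) (T.h (P (nat_lit 0)) (T.h (T.h (P (nat_lit 0)) (P (nat_lit 44698048341040))) (P (nat_lit 0))))))) (T.h (T.h (P (nat_lit 0)) (T.h (T.h (P (nat_lit 73843120531193250971648)) (T.h (P (nat_lit 0)) (P (nat_lit 271640997523259392)))) (T.h (P (nat_lit 0)) (P (nat_lit 266648551588659200)))))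 (T.h (T.h (T.h (P (nat_lit 0)) (T.h (M (nat_lit 1399096577830976225279)) (T.h (P (nat_lit 0)) (P (nat_lit 711631137030640))))) (T.h (P (nat_lit 0)) (T.h (T.h (P (nat_lit 0)) (P (nat_lit 441513584918560))) (P (nat_lit 0))))) (T.h (T.h (P (nat_lit 0)) (P (nat_lit 415386975931596800))) (T.h (T.h (T.h (P (nat_lit 0)) (P (nat_lit 50797908112000))) (P (nat_lit 0))) (P (nat_lit 0)))))))), (T.h (T.h (P (nat_lit 0)) (T.h (T.h (P (nat_lit 0)) (T.h (M (nat_lit 44325833412268898624995327)) (T.h (P (nat_lit 0)) (T.h (M (nat_lit 1378257928816951295)) (T.h (P (nat_lit 0)) (P (nat_lit 172986961464416))))))) (T.h (P (nat_lit 0)) (T.h (T.h (P (nat_lit 0)) (T.h (P (nat_lit 72822950036406009856)) (T.h (P (nat_lit 0)) (M (nat_lit 25054827595247))))) (T.h (P (nat_lit 0)) (T.h (T.h (P (nat_lit 0)) (P (nat_lit 110851673169776))) (P (nat_lit 0)))))))) (T.h (T.h (T.h (P (nat_lit 97760208326290814134334259200)) (T.h (P (nat_lit 0)) (T.h (M (nat_lit 278980705928123856715775))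 (T.h (P (nat_lit 0)) (P (nat_lit 882516363633868800)))))) (T.h (P (nat_lit 0)) (T.h (T.h (M (nat_lit 20690681049946643234815)) (T.h (P (nat_lit 0)) (P (nat_lit 236215949933527040)))) (T.h (P (nat_lit 0)) (M (nat_lit 194314061239648255)))))) (T.h (T.h (P (nat_lit 0)) (T.h (T.h (P (nat_lit 0)) (T.h (M (nat_lit 1098496507911096762367)) (T.h (P (nat_lit 0)) (P (nat_lit 361794974546192))))) (T.h (P (nat_lit 0)) (T.h (T.h (P (nat_lit 0)) (P (nat_lit 130585546475472))) (P (nat_lit 0)))))) (T.h (T.h (T.h (P (nat_lit 137990060745107722731520)) (T.h (P (nat_lit 0)) (M (nat_lit 485870168424939519)))) (T.h (P (nat_lit 0)) (M (nat_lit 165709087135268863)))) (T.h (T.h (P (nat_lit 0)) (T.h (T.h (P (nat_lit 0)) (P (nat_lit 1882318035580224))) (P (nat_lit 0)))) (P (nat_lit 133679943531233280))))))), (T.h (T.h (P (nat_lit 0)) (T.h (T.h (P (nat_lit 12264306295860865433992167424)) (T.h (P (nat_lit 0)) (T.h (M (nat_lit 126715159606584970051583)) (T.h (P (nat_lit 0)) (M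 (nat_lit 250273072803250175)))))) (T.h (P (nat_lit 0)) (T.h (T.h (M (nat_lit 38351697694890571857919)) (T.h (P (nat_lit 0)) (P (nat_lit 95609950710071296)))) (T.h (P (nat_lit 0)) (P (nat_lit 22986133075853312))))))) (T.h (T.h (T.h (P (nat_lit 0)) (T.h (P (nat_lit 178450648329772352166428672)) (T.h (P (nat_lit 0)) (P (nat_lit 312703088898592473088))))) (T.h (P (nat_lit 0)) (T.h (T.h (P (nat_lit 0)) (M (nat_lit 632434394254251393023))) (P (nat_lit 0))))) (T.h (T.h (P (nat_lit 0)) (T.h (T.h (P (nat_lit 72151306072020993703936)) (T.h (P (nat_lit 0)) (P (nat_lit 329315656024653824)))) (T.h (P (nat_lit 0)) (P (nat_lit 12011030252027904))))) (T.h (T.h (T.h (P (nat_lit 0)) (P (nat_lit 468182160841962946560))) (P (nat_lit 0))) (T.h (T.h (P (nat_lit 0)) (M (nat_lit 353876310217654271))) (P (nat_lit 0))))))), (P (nat_lit 0)), (P (nat_lit 0))]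
def lQm_47 : List (T ℤ) := [(T.h (T.h (T.h (M (nat_lit 16310421525849164254090450960383)) (T.h (P (nat_lit 0)) (T.h (M (nat_lit 1377791761044098531721215)) (T.h (P (nat_lit 0)) (T.h (P (nat_lit 4136264342167355392)) (T.h (P (nat_lit 0)) (M (nat_lit 2258787755471)))))))) (T.h (P (nat_lit 0)) (T.h (T.h (P (nat_lit 10121519114408553399451648)) (T.h (P (nat_lit 0)) (T.h (M (nat_lit 244134082416476159)) (T.h (P (nat_lit 0)) (P (nat_lit 7778266412928)))))) (T.h (P (nat_lit 0)) (T.h (T.h (M (nat_lit 2857327944320155647)) (T.h (P (nat_lit 0)) (P (nat_lit 7834943220656)))) (T.h (P (nat_lit 0)) (P (nat_lit 7181325551792)))))))) (T.h (T.h (P (nat_lit 0)) (T.h (T.h (P (nat_lit 0)) (T.h (P (nat_lit 10010703217678719385600)) (T.h (P (nat_lit 0)) (M (nat_lit 61646594252767231))))) (T.h (P (nat_lit 0)) (T.h (T.h (P (nat_lit 0)) (P (nat_lit 62959274422501376))) (P (nat_lit 0)))))) (T.h (T.h (T.h (P (nat_lit 11683839568522379406606336)) (T.h (P (nat_lit 0)) (T.h (M (nat_lit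 48808837752610095103)) (T.h (P (nat_lit 0)) (M (nat_lit 27352561037247)))))) (T.h (P (nat_lit 0)) (T.h (T.h (P (nat_lit 61914797905744494592)) (T.h (P (nat_lit 0)) (M (nat_lit 2428238407215)))) (T.h (P (nat_lit 0)) (M (nat_lit 25450372979775)))))) (T.h (T.h (P (nat_lit 0)) (T.h (T.h (P (nat_lit 0)) (M (nat_lit 190586810511065087))) (P (nat_lit 0)))) (T.h (T.h (T.h (M (nat_lit 2035208997841141759)) (T.h (P (nat_lit 0)) (P (nat_lit 65805890694080)))) (T.h (P (nat_lit 0)) (P (nat_lit 439341944415168)))) (T.h (P (nat_lit 0)) (P (nat_lit 63359498543120)))))))), (T.h (T.h (T.h (P (nat_lit 0)) (T.h (M (nat_lit 49729393334821837117149151231)) (T.h (P (nat_lit 0)) (T.h (P (nat_lit 147949350077792008536064)) (T.h (P (nat_lit 0)) (M (nat_lit 39457157562138623))))))) (T.h (P (nat_lit 0)) (T.h (T.h (P (nat_lit 0)) (T.h (P (nat_lit 40371155272180078477312)) (T.h (P (nat_lit 0)) (M (nat_lit 10659707077853183))))) (T.h (P (nat_lit 0)) (T.h (T.h (P (nat_lit 0)) (P (nat_lit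 147024609411497984))) (P (nat_lit 0))))))) (T.h (T.h (P (nat_lit 0)) (T.h (T.h (P (nat_lit 21803050347179325362536448)) (T.h (P (nat_lit 0)) (T.h (M (nat_lit 196772623904814399487)) (T.h (P (nat_lit 0)) (P (nat_lit 44698048341040)))))) (T.h (P (nat_lit 0)) (T.h (T.h (P (nat_lit 252614769847746691072)) (T.h (P (nat_lit 0)) (M (nat_lit 20503582987039)))) (T.h (P (nat_lit 0)) (P (nat_lit 43199649132080))))))) (T.h (T.h (T.h (P (nat_lit 0)) (T.h (P (nat_lit 73843120531193250971648)) (T.h (P (nat_lit 0)) (P (nat_lit 266648551588659200))))) (T.h (P (nat_lit 0)) (T.h (T.h (P (nat_lit 0)) (P (nat_lit 271640997523259392))) (P (nat_lit 0))))) (T.h (T.h (P (nat_lit 0)) (T.h (T.h (M (nat_lit 1399096577830976225279)) (T.h (P (nat_lit 0)) (P (nat_lit 441513584918560)))) (T.h (P (nat_lit 0)) (P (nat_lit 711631137030640))))) (T.h (T.h (T.h (P (nat_lit 0)) (P (nat_lit 415386975931596800))) (P (nat_lit 0))) (T.h (T.h (P (nat_lit 0)) (P (nat_lit 50797908112000))) (P (nat_lit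 0)))))))), (T.h (T.h (T.h (P (nat_lit 26077830506595865461661229907968)) (T.h (P (nat_lit 0)) (T.h (M (nat_lit 318182497165845239080943615)) (T.h (P (nat_lit 0)) (T.h (P (nat_lit 85790700551431782400)) (T.h (P (nat_lit 0)) (M (nat_lit 48388242410463)))))))) (T.h (P (nat_lit 0)) (T.h (T.h (M (nat_lit 318182497165845239080943615)) (T.h (P (nat_lit 0)) (T.h (P (nat_lit 179141532945106337792)) (T.h (P (nat_lit 0)) (P (nat_lit 115714159541728)))))) (T.h (P (nat_lit 0)) (T.h (T.h (P (nat_lit 85790700551431782400)) (T.h (P (nat_lit 0)) (P (nat_lit 115714159541728)))) (T.h (P (nat_lit 0)) (M (nat_lit 48388242410463)))))))) (T.h (T.h (P (nat_lit 0)) (T.h (T.h (P (nat_lit 0)) (T.h (P (nat_lit 318982793860663945986048)) (T.h (P (nat_lit 0)) (M (nat_lit 193123563191042047))))) (T.h (P (nat_lit 0)) (T.h (T.h (P (nat_lit 0)) (M (nat_lit 193123563191042047))) (P (nat_lit 0)))))) (T.h (T.h (T.h (M (nat_lit 264928016980467986982764543)) (T.h (P (nat_lit 0)) (T.h (M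 (nat_lit 693921528551026196479)) (T.h (P (nat_lit 0)) (M (nat_lit 153371460460767)))))) (T.h (P (nat_lit 0)) (T.h (T.h (M (nat_lit 693921528551026196479)) (T.h (P (nat_lit 0)) (P (nat_lit 1545953600471104)))) (T.h (P (nat_lit 0)) (M (nat_lit 153371460460767)))))) (T.h (T.h (P (nat_lit 0)) (T.h (T.h (P (nat_lit 0)) (M (nat_lit 1483349204858044415))) (P (nat_lit 0)))) (T.h (T.h (T.h (M (nat_lit 218518617920488079359)) (T.h (P (nat_lit 0)) (P (nat_lit 60230847533472)))) (T.h (P (nat_lit 0)) (P (nat_lit 60230847533472)))) (T.h (P (nat_lit 0)) (P (nat_lit 329438584916672)))))))), (T.h (T.h (T.h (P (nat_lit 0)) (T.h (P (nat_lit 133768656778760561275365752832)) (T.h (P (nat_lit 0)) (T.h (M (nat_lit 29219963289720217141247)) (T.h (P (nat_lit 0)) (P (nat_lit 65373264351297536))))))) (T.h (P (nat_lit 0)) (T.h (T.h (P (nat_lit 0)) (T.h (M (nat_lit 265991905201773512491007)) (T.h (P (nat_lit 0)) (M (nat_lit 127190422486253567))))) (T.h (P (nat_lit 0)) (T.h (T.h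 (P (nat_lit 0)) (P (nat_lit 10578727072661504))) (P (nat_lit 0))))))) (T.h (T.h (P (nat_lit 0)) (T.h (T.h (P (nat_lit 71817996516439123818446848)) (T.h (P (nat_lit 0)) (P (nat_lit 302479476523544870912)))) (T.h (P (nat_lit 0)) (P (nat_lit 293417813422567849984))))) (T.h (T.h (T.h (P (nat_lit 0)) (T.h (P (nat_lit 1083909940175908072587264)) (T.h (P (nat_lit 0)) (P (nat_lit 161074343272644608))))) (T.h (P (nat_lit 0)) (T.h (T.h (P (nat_lit 0)) (M (nat_lit 531307149684015103))) (P (nat_lit 0))))) (T.h (T.h (P (nat_lit 0)) (P (nat_lit 237324560957846847488))) (T.h (T.h (T.h (P (nat_lit 0)) (M (nat_lit 695645357607747583))) (P (nat_lit 0))) (P (nat_lit 0))))))), (P (nat_lit 0)), (P (nat_lit 0)), (T.h (T.h (P (nat_lit 0)) (T.h (T.h (P (nat_lit 20775842496571973614966931456)) (T.h (P (nat_lit 0)) (T.h (M (nat_lit 2528523741828411817983)) (T.h (P (nat_lit 0)) (P (nat_lit 145499149792968704)))))) (T.h (P (nat_lit 0)) (T.h (T.h (P (nat_lit 31027422118557268312064))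 (T.h (P (nat_lit 0)) (P (nat_lit 72660222417698816)))) (T.h (P (nat_lit 0)) (M (nat_lit 80492444654338047))))))) (T.h (T.h (T.h (P (nat_lit 0)) (T.h (M (nat_lit 59228253820624305253253119)) (T.h (P (nat_lit 0)) (T.h (P (nat_lit 128776015067756888064)) (T.h (P (nat_lit 0)) (P (nat_lit 12924331522800))))))) (T.h (P (nat_lit 0)) (T.h (T.h (P (nat_lit 0)) (T.h (M (nat_lit 131191371818267049983)) (T.h (P (nat_lit 0)) (P (nat_lit 162100968221040))))) (T.h (P (nat_lit 0)) (T.h (T.h (P (nat_lit 0)) (P (nat_lit 168865378043200))) (P (nat_lit 0))))))) (T.h (T.h (P (nat_lit 0)) (T.h (T.h (P (nat_lit 242381418927757509787648)) (T.h (P (nat_lit 0)) (P (nat_lit 53650938488881152)))) (T.h (P (nat_lit 0)) (P (nat_lit 214374929667096576))))) (T.h (T.h (T.h (P (nat_lit 0)) (T.h (M (nat_lit 177530439701318598655)) (T.h (P (nat_lit 0)) (P (nat_lit 216660159992640))))) (T.h (P (nat_lit 0)) (T.h (T.h (P (nat_lit 0)) (M (nat_lit 404751258890799))) (P (nat_lit 0))))) (T.h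 (T.h (P (nat_lit 0)) (P (nat_lit 534317465604161536))) (T.h (T.h (T.h (P (nat_lit 0)) (M (nat_lit 115487932780159))) (P (nat_lit 0))) (P (nat_lit 0)))))))), (T.h (T.h (P (nat_lit 0)) (T.h (T.h (P (nat_lit 0)) (T.h (M (nat_lit 44325833412268898624995327)) (T.h (P (nat_lit 0)) (T.h (P (nat_lit 72822950036406009856)) (T.h (P (nat_lit 0)) (P (nat_lit 110851673169776))))))) (T.h (P (nat_lit 0)) (T.h (T.h (P (nat_lit 0)) (T.h (M (nat_lit 1378257928816951295)) (T.h (P (nat_lit 0)) (M (nat_lit 25054827595247))))) (T.h (P (nat_lit 0)) (T.h (T.h (P (nat_lit 0)) (P (nat_lit 172986961464416))) (P (nat_lit 0)))))))) (T.h (T.h (T.h (P (nat_lit 97760208326290814134334259200)) (T.h (P (nat_lit 0)) (T.h (M (nat_lit 20690681049946643234815)) (T.h (P (nat_lit 0)) (M (nat_lit 194314061239648255)))))) (T.h (P (nat_lit 0)) (T.h (T.h (M (nat_lit 278980705928123856715775)) (T.h (P (nat_lit 0)) (P (nat_lit 236215949933527040)))) (T.h (P (nat_lit 0)) (P (nat_lit 882516363633868800))))))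 (T.h (T.h (P (nat_lit 0)) (T.h (T.h (P (nat_lit 0)) (T.h (M (nat_lit 1098496507911096762367)) (T.h (P (nat_lit 0)) (P (nat_lit 130585546475472))))) (T.h (P (nat_lit 0)) (T.h (T.h (P (nat_lit 0)) (P (nat_lit 361794974546192))) (P (nat_lit 0)))))) (T.h (T.h (T.h (P (nat_lit 137990060745107722731520)) (T.h (P (nat_lit 0)) (M (nat_lit 165709087135268863)))) (T.h (P (nat_lit 0)) (M (nat_lit 485870168424939519)))) (T.h (T.h (P (nat_lit 0)) (T.h (T.h (P (nat_lit 0)) (P (nat_lit 1882318035580224))) (P (nat_lit 0)))) (P (nat_lit 133679943531233280)))))))]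
def lQm_48 : List (T ℤ) := [(T.h (T.h (P (nat_lit 0)) (T.h (T.h (P (nat_lit 133768656778760561275365752832)) (T.h (P (nat_lit 0)) (T.h (M (nat_lit 265991905201773512491007)) (T.h (P (nat_lit 0)) (P (nat_lit 10578727072661504)))))) (T.h (P (nat_lit 0)) (T.h (T.h (M (nat_lit 29219963289720217141247)) (T.h (P (nat_lit 0)) (M (nat_lit 127190422486253567)))) (T.h (P (nat_lit 0)) (P (nat_lit 65373264351297536))))))) (T.h (T.h (T.h (P (nat_lit 0)) (T.h (P (nat_lit 71817996516439123818446848)) (T.h (P (nat_lit 0)) (P (nat_lit 293417813422567849984))))) (T.h (P (nat_lit 0)) (T.h (T.h (P (nat_lit 0)) (P (nat_lit 302479476523544870912))) (P (nat_lit 0))))) (T.h (T.h (P (nat_lit 0)) (T.h (T.h (P (nat_lit 1083909940175908072587264)) (T.h (P (nat_lit 0)) (M (nat_lit 531307149684015103)))) (T.h (P (nat_lit 0)) (P (nat_lit 161074343272644608))))) (T.h (T.h (T.h (P (nat_lit 0)) (P (nat_lit 237324560957846847488))) (P (nat_lit 0))) (T.h (T.h (P (nat_lit 0)) (M (nat_lit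 695645357607747583))) (P (nat_lit 0))))))), (P (nat_lit 0)), (P (nat_lit 0)), (T.h (T.h (T.h (M (nat_lit 5579030000330377679209261694975)) (T.h (P (nat_lit 0)) (T.h (M (nat_lit 5657961527253364136476671)) (T.h (P (nat_lit 0)) (T.h (P (nat_lit 13357060239115943936)) (T.h (P (nat_lit 0)) (M (nat_lit 10492294430287)))))))) (T.h (P (nat_lit 0)) (T.h (T.h (M (nat_lit 96726347834487794787418111)) (T.h (P (nat_lit 0)) (T.h (M (nat_lit 10372977650615451647)) (T.h (P (nat_lit 0)) (P (nat_lit 46870734497312)))))) (T.h (P (nat_lit 0)) (T.h (T.h (P (nat_lit 90695716078622867456)) (T.h (P (nat_lit 0)) (P (nat_lit 211605099716560)))) (T.h (P (nat_lit 0)) (M (nat_lit 100380931134879)))))))) (T.h (T.h (P (nat_lit 0)) (T.h (T.h (P (nat_lit 0)) (T.h (M (nat_lit 457499459866436042751999)) (T.h (P (nat_lit 0)) (P (nat_lit 329846517412593664))))) (T.h (P (nat_lit 0)) (T.h (T.h (P (nat_lit 0)) (M (nat_lit 82063394174631935))) (P (nat_lit 0)))))) (T.h (T.h (T.h (P (nat_lit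 19216157866977268909211648)) (T.h (P (nat_lit 0)) (T.h (P (nat_lit 49910012661702066176)) (T.h (P (nat_lit 0)) (P (nat_lit 45874032146976)))))) (T.h (P (nat_lit 0)) (T.h (T.h (M (nat_lit 52139860623666184191)) (T.h (P (nat_lit 0)) (M (nat_lit 1201170315836127)))) (T.h (P (nat_lit 0)) (P (nat_lit 227616305269056)))))) (T.h (T.h (P (nat_lit 0)) (T.h (T.h (P (nat_lit 0)) (M (nat_lit 472196403872694271))) (P (nat_lit 0)))) (T.h (T.h (T.h (P (nat_lit 32562526019337060352)) (T.h (P (nat_lit 0)) (M (nat_lit 311887139930959)))) (T.h (P (nat_lit 0)) (M (nat_lit 1548465693749039)))) (T.h (P (nat_lit 0)) (M (nat_lit 499469368768831)))))))), (T.h (T.h (T.h (P (nat_lit 0)) (T.h (P (nat_lit 12264306295860865433992167424)) (T.h (P (nat_lit 0)) (T.h (M (nat_lit 38351697694890571857919)) (T.h (P (nat_lit 0)) (P (nat_lit 22986133075853312))))))) (T.h (P (nat_lit 0)) (T.h (T.h (P (nat_lit 0)) (T.h (M (nat_lit 126715159606584970051583)) (T.h (P (nat_lit 0)) (P (nat_lit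 95609950710071296))))) (T.h (P (nat_lit 0)) (T.h (T.h (P (nat_lit 0)) (M (nat_lit 250273072803250175))) (P (nat_lit 0))))))) (T.h (T.h (P (nat_lit 0)) (T.h (T.h (P (nat_lit 178450648329772352166428672)) (T.h (P (nat_lit 0)) (M (nat_lit 632434394254251393023)))) (T.h (P (nat_lit 0)) (P (nat_lit 312703088898592473088))))) (T.h (T.h (T.h (P (nat_lit 0)) (T.h (P (nat_lit 72151306072020993703936)) (T.h (P (nat_lit 0)) (P (nat_lit 12011030252027904))))) (T.h (P (nat_lit 0)) (T.h (T.h (P (nat_lit 0)) (P (nat_lit 329315656024653824))) (P (nat_lit 0))))) (T.h (T.h (P (nat_lit 0)) (P (nat_lit 468182160841962946560))) (T.h (T.h (T.h (P (nat_lit 0)) (M (nat_lit 353876310217654271))) (P (nat_lit 0))) (P (nat_lit 0))))))), (P (nat_lit 0)), (P (nat_lit 0)), (T.h (T.h (P (nat_lit 0)) (T.h (T.h (P (nat_lit 37495071686497208421731794944)) (T.h (P (nat_lit 0)) (T.h (P (nat_lit 16057378342646109437952)) (T.h (P (nat_lit 0)) (P (nat_lit 26770372925128704)))))) (T.h (P (nat_lit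 0)) (T.h (T.h (M (nat_lit 138571131412666097074175)) (T.h (P (nat_lit 0)) (M (nat_lit 255022184546467839)))) (T.h (P (nat_lit 0)) (P (nat_lit 207322856984576000))))))) (T.h (T.h (T.h (P (nat_lit 0)) (T.h (M (nat_lit 8530470887322473985998847)) (T.h (P (nat_lit 0)) (P (nat_lit 11526735466153902080))))) (T.h (P (nat_lit 0)) (T.h (T.h (P (nat_lit 0)) (M (nat_lit 394182288451529867263))) (P (nat_lit 0))))) (T.h (T.h (P (nat_lit 0)) (T.h (T.h (M (nat_lit 426842702168290282700799)) (T.h (P (nat_lit 0)) (P (nat_lit 154969859478683648)))) (T.h (P (nat_lit 0)) (P (nat_lit 813225388758859776))))) (T.h (T.h (T.h (P (nat_lit 0)) (P (nat_lit 124755095903367331840))) (P (nat_lit 0))) (T.h (T.h (P (nat_lit 0)) (P (nat_lit 1052533473347338240))) (P (nat_lit 0)))))))]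
def lQm_49 : List (T ℤ) := [(P (nat_lit 0)), (P (nat_lit 0)), (P (nat_lit 0)), (P (nat_lit 0)), (P (nat_lit 0)), (T.h (T.h (P (nat_lit 0)) (T.h (T.h (P (nat_lit 0)) (T.h (M (nat_lit 741706005672169918431231)) (T.h (P (nat_lit 0)) (T.h (M (nat_lit 2839401542845464575)) (T.h (P (nat_lit 0)) (P (nat_lit 1200533198936))))))) (T.h (P (nat_lit 0)) (T.h (T.h (P (nat_lit 0)) (T.h (M (nat_lit 2839401542845464575)) (T.h (P (nat_lit 0)) (P (nat_lit 7920728801472))))) (T.h (P (nat_lit 0)) (T.h (T.h (P (nat_lit 0)) (P (nat_lit 1200533198936))) (P (nat_lit 0)))))))) (T.h (T.h (T.h (P (nat_lit 10212045392436279570270781440)) (T.h (P (nat_lit 0)) (T.h (P (nat_lit 658474017311560826880)) (T.h (P (nat_lit 0)) (P (nat_lit 2448628643758080)))))) (T.h (P (nat_lit 0)) (T.h (T.h (P (nat_lit 658474017311560826880)) (T.h (P (nat_lit 0)) (P (nat_lit 11402419868467200)))) (T.h (P (nat_lit 0)) (P (nat_lit 2448628643758080)))))) (T.h (T.h (P (nat_lit 0)) (T.h (T.h (P (nat_lit 0))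 (T.h (M (nat_lit 16419294656111575039)) (T.h (P (nat_lit 0)) (M (nat_lit 6154245470959))))) (T.h (P (nat_lit 0)) (T.h (T.h (P (nat_lit 0)) (M (nat_lit 6154245470959))) (P (nat_lit 0)))))) (T.h (T.h (T.h (M (nat_lit 18936214877807918972927)) (T.h (P (nat_lit 0)) (M (nat_lit 13795086358216703)))) (T.h (P (nat_lit 0)) (M (nat_lit 13795086358216703)))) (T.h (T.h (P (nat_lit 0)) (T.h (T.h (P (nat_lit 0)) (M (nat_lit 32315373365839))) (P (nat_lit 0)))) (M (nat_lit 73170271617875967))))))), (T.h (T.h (P (nat_lit 0)) (T.h (T.h (P (nat_lit 226318629704904614210437120)) (T.h (P (nat_lit 0)) (T.h (P (nat_lit 6115334825654234382336)) (T.h (P (nat_lit 0)) (P (nat_lit 13485241803522048)))))) (T.h (P (nat_lit 0)) (T.h (T.h (P (nat_lit 766451334615954096128)) (T.h (P (nat_lit 0)) (P (nat_lit 18148605108125696)))) (T.h (P (nat_lit 0)) (M (nat_lit 2974749091381247))))))) (T.h (T.h (T.h (P (nat_lit 0)) (T.h (P (nat_lit 5760110150759249130553344)) (T.h (P (nat_lit 0))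 (T.h (M (nat_lit 44187288449497169919)) (T.h (P (nat_lit 0)) (P (nat_lit 7351350546784))))))) (T.h (P (nat_lit 0)) (T.h (T.h (P (nat_lit 0)) (T.h (P (nat_lit 4478360613369675776)) (T.h (P (nat_lit 0)) (M (nat_lit 4256921589567))))) (T.h (P (nat_lit 0)) (T.h (T.h (P (nat_lit 0)) (M (nat_lit 14115448294655))) (P (nat_lit 0))))))) (T.h (T.h (P (nat_lit 0)) (T.h (T.h (P (nat_lit 13548174235352948539392)) (T.h (P (nat_lit 0)) (P (nat_lit 11298605499367424)))) (T.h (P (nat_lit 0)) (P (nat_lit 1936205404995584))))) (T.h (T.h (T.h (P (nat_lit 0)) (T.h (M (nat_lit 155560528027376943103)) (T.h (P (nat_lit 0)) (M (nat_lit 29896136530671))))) (T.h (P (nat_lit 0)) (T.h (T.h (P (nat_lit 0)) (P (nat_lit 20853968390928))) (P (nat_lit 0))))) (T.h (T.h (P (nat_lit 0)) (P (nat_lit 148610963780747264))) (T.h (T.h (T.h (P (nat_lit 0)) (P (nat_lit 126624751875824))) (P (nat_lit 0))) (P (nat_lit 0)))))))), (T.h (T.h (P (nat_lit 0)) (T.h (T.h (P (nat_lit 0)) (T.h (P (nat_lit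 2581634979122964043137024)) (T.h (P (nat_lit 0)) (T.h (M (nat_lit 21661246487506452479)) (T.h (P (nat_lit 0)) (P (nat_lit 33653347756400))))))) (T.h (P (nat_lit 0)) (T.h (T.h (P (nat_lit 0)) (T.h (M (nat_lit 32675668490924851199)) (T.h (P (nat_lit 0)) (P (nat_lit 66069034018640))))) (T.h (P (nat_lit 0)) (T.h (T.h (P (nat_lit 0)) (P (nat_lit 16361497986480))) (P (nat_lit 0)))))))) (T.h (T.h (T.h (M (nat_lit 21123593321619357335306633215)) (T.h (P (nat_lit 0)) (T.h (P (nat_lit 5919988966405504499712)) (T.h (P (nat_lit 0)) (M (nat_lit 10609186901458943)))))) (T.h (P (nat_lit 0)) (T.h (T.h (M (nat_lit 50430542327613638049791)) (T.h (P (nat_lit 0)) (P (nat_lit 50862758182420480)))) (T.h (P (nat_lit 0)) (P (nat_lit 55334082025422848)))))) (T.h (T.h (P (nat_lit 0)) (T.h (T.h (P (nat_lit 0)) (T.h (P (nat_lit 58709018431610421248)) (T.h (P (nat_lit 0)) (M (nat_lit 103123823580639))))) (T.h (P (nat_lit 0)) (T.h (T.h (P (nat_lit 0)) (M (nat_lit 107680149905439)))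 (P (nat_lit 0)))))) (T.h (T.h (T.h (P (nat_lit 15010200804235572936704)) (T.h (P (nat_lit 0)) (M (nat_lit 58402257737056255)))) (T.h (P (nat_lit 0)) (M (nat_lit 165041657512427519)))) (T.h (T.h (P (nat_lit 0)) (T.h (T.h (P (nat_lit 0)) (P (nat_lit 58319323554320))) (P (nat_lit 0)))) (M (nat_lit 154004297327050751)))))))]
def lQm_50 : List (T ℤ) := [(T.h (T.h (P (nat_lit 0)) (T.h (T.h (P (nat_lit 30592359351173919146378264576)) (T.h (P (nat_lit 0)) (T.h (M (nat_lit 47570282094454540075007)) (T.h (P (nat_lit 0)) (M (nat_lit 100432000003391487)))))) (T.h (P (nat_lit 0)) (T.h (T.h (M (nat_lit 18885243591323641970687)) (T.h (P (nat_lit 0)) (P (nat_lit 5924892080504832)))) (T.h (P (nat_lit 0)) (M (nat_lit 20021605155700735))))))) (T.h (T.h (T.h (P (nat_lit 0)) (T.h (M (nat_lit 58042082194932585631580159)) (T.h (P (nat_lit 0)) (T.h (M (nat_lit 72074611859338035199)) (T.h (P (nat_lit 0)) (P (nat_lit 9843633707952))))))) (T.h (P (nat_lit 0)) (T.h (T.h (P (nat_lit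 0)) (T.h (M (nat_lit 23453482314404724735)) (T.h (P (nat_lit 0)) (M (nat_lit 153951304182895))))) (T.h (P (nat_lit 0)) (T.h (T.h (P (nat_lit 0)) (M (nat_lit 46938132056991))) (P (nat_lit 0))))))) (T.h (T.h (P (nat_lit 0)) (T.h (T.h (M (nat_lit 126206691015345766924287)) (T.h (P (nat_lit 0)) (P (nat_lit 142951232725958656)))) (T.h (P (nat_lit 0)) (M (nat_lit 105060780253347839))))) (T.h (T.h (T.h (P (nat_lit 0)) (T.h (P (nat_lit 169026438565197774848)) (T.h (P (nat_lit 0)) (M (nat_lit 40807260833679))))) (T.h (P (nat_lit 0)) (T.h (T.h (P (nat_lit 0)) (M (nat_lit 160765879742335))) (P (nat_lit 0))))) (T.h (T.h (P (nat_lit 0)) (P (nat_lit 153230669436993536))) (T.h (T.h (T.h (P (nat_lit 0)) (M (nat_lit 202010613196303))) (P (nat_lit 0))) (P (nat_lit 0)))))))), (T.h (T.h (P (nat_lit 0)) (T.h (T.h (P (nat_lit 0)) (T.h (P (nat_lit 104213714518363397557321728)) (T.h (P (nat_lit 0)) (M (nat_lit 18889754215679262719))))) (T.h (P (nat_lit 0)) (T.h (T.h (P (nat_lit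 0)) (M (nat_lit 99944006815716474879))) (P (nat_lit 0)))))) (T.h (T.h (T.h (P (nat_lit 23189883887025830961654792192)) (T.h (P (nat_lit 0)) (T.h (M (nat_lit 33956056854755006218239)) (T.h (P (nat_lit 0)) (M (nat_lit 93919563231952895)))))) (T.h (P (nat_lit 0)) (T.h (T.h (M (nat_lit 87515735663265416478719)) (T.h (P (nat_lit 0)) (P (nat_lit 533260947869499392)))) (T.h (P (nat_lit 0)) (M (nat_lit 8342794656481279)))))) (T.h (T.h (P (nat_lit 0)) (T.h (T.h (P (nat_lit 0)) (P (nat_lit 571332830943741214720))) (P (nat_lit 0)))) (T.h (T.h (T.h (M (nat_lit 243099935357513639133183)) (T.h (P (nat_lit 0)) (P (nat_lit 1175977343068569600)))) (T.h (P (nat_lit 0)) (P (nat_lit 262202542911520768)))) (T.h (P (nat_lit 0)) (P (nat_lit 595563394477948928))))))), (P (nat_lit 0)), (P (nat_lit 0)), (T.h (T.h (T.h (P (nat_lit 0)) (T.h (P (nat_lit 226318629704904614210437120)) (T.h (P (nat_lit 0)) (T.h (P (nat_lit 766451334615954096128)) (T.h (P (nat_lit 0)) (M (nat_lit 2974749091381247)))))))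 (T.h (P (nat_lit 0)) (T.h (T.h (P (nat_lit 0)) (T.h (P (nat_lit 6115334825654234382336)) (T.h (P (nat_lit 0)) (P (nat_lit 18148605108125696))))) (T.h (P (nat_lit 0)) (T.h (T.h (P (nat_lit 0)) (P (nat_lit 13485241803522048))) (P (nat_lit 0))))))) (T.h (T.h (P (nat_lit 0)) (T.h (T.h (P (nat_lit 5760110150759249130553344)) (T.h (P (nat_lit 0)) (T.h (P (nat_lit 4478360613369675776)) (T.h (P (nat_lit 0)) (M (nat_lit 14115448294655)))))) (T.h (P (nat_lit 0)) (T.h (T.h (M (nat_lit 44187288449497169919)) (T.h (P (nat_lit 0)) (M (nat_lit 4256921589567)))) (T.h (P (nat_lit 0)) (P (nat_lit 7351350546784))))))) (T.h (T.h (T.h (P (nat_lit 0)) (T.h (P (nat_lit 13548174235352948539392)) (T.h (P (nat_lit 0)) (P (nat_lit 1936205404995584))))) (T.h (P (nat_lit 0)) (T.h (T.h (P (nat_lit 0)) (P (nat_lit 11298605499367424))) (P (nat_lit 0))))) (T.h (T.h (P (nat_lit 0)) (T.h (T.h (M (nat_lit 155560528027376943103)) (T.h (P (nat_lit 0)) (P (nat_lit 20853968390928)))) (T.h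 (P (nat_lit 0)) (M (nat_lit 29896136530671))))) (T.h (T.h (T.h (P (nat_lit 0)) (P (nat_lit 148610963780747264))) (P (nat_lit 0))) (T.h (T.h (P (nat_lit 0)) (P (nat_lit 126624751875824))) (P (nat_lit 0)))))))), (T.h (T.h (T.h (M (nat_lit 6081048895083401288390784581631)) (T.h (P (nat_lit 0)) (T.h (P (nat_lit 19483869153050037778907136)) (T.h (P (nat_lit 0)) (T.h (M (nat_lit 29005607260221603839)) (T.h (P (nat_lit 0)) (P (nat_lit 41982303589840)))))))) (T.h (P (nat_lit 0)) (T.h (T.h (P (nat_lit 19483869153050037778907136)) (T.h (P (nat_lit 0)) (T.h (M (nat_lit 21029657652544667647)) (T.h (P (nat_lit 0)) (P (nat_lit 61431585420320)))))) (T.h (P (nat_lit 0)) (T.h (T.h (M (nat_lit 29005607260221603839)) (T.h (P (nat_lit 0)) (P (nat_lit 61431585420320)))) (T.h (P (nat_lit 0)) (P (nat_lit 41982303589840)))))))) (T.h (T.h (P (nat_lit 0)) (T.h (T.h (P (nat_lit 0)) (T.h (P (nat_lit 71402954464064150962176)) (T.h (P (nat_lit 0)) (M (nat_lit 97011076799922175)))))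 (T.h (P (nat_lit 0)) (T.h (T.h (P (nat_lit 0)) (M (nat_lit 97011076799922175))) (P (nat_lit 0)))))) (T.h (T.h (T.h (P (nat_lit 108437855115324437412446208)) (T.h (P (nat_lit 0)) (T.h (P (nat_lit 101090038753620131840)) (T.h (P (nat_lit 0)) (M (nat_lit 109348784641439)))))) (T.h (P (nat_lit 0)) (T.h (T.h (P (nat_lit 101090038753620131840)) (T.h (P (nat_lit 0)) (P (nat_lit 237646975361600)))) (T.h (P (nat_lit 0)) (M (nat_lit 109348784641439)))))) (T.h (T.h (P (nat_lit 0)) (T.h (T.h (P (nat_lit 0)) (P (nat_lit 160309572647387136))) (P (nat_lit 0)))) (T.h (T.h (T.h (P (nat_lit 101942302530837938176)) (T.h (P (nat_lit 0)) (M (nat_lit 31525620239919)))) (T.h (P (nat_lit 0)) (M (nat_lit 31525620239919)))) (T.h (P (nat_lit 0)) (P (nat_lit 324870464918400)))))))), (T.h (T.h (T.h (P (nat_lit 0)) (T.h (M (nat_lit 4917936981971218361554567167)) (T.h (P (nat_lit 0)) (T.h (M (nat_lit 63985465020640980369407)) (T.h (P (nat_lit 0)) (M (nat_lit 37867905166016511)))))))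 (T.h (P (nat_lit 0)) (T.h (T.h (P (nat_lit 0)) (T.h (P (nat_lit 69494433174587336294400)) (T.h (P (nat_lit 0)) (M (nat_lit 112431178090102783))))) (T.h (P (nat_lit 0)) (T.h (T.h (P (nat_lit 0)) (M (nat_lit 2208243714326527))) (P (nat_lit 0))))))) (T.h (T.h (P (nat_lit 0)) (T.h (T.h (M (nat_lit 24686943158788964208345087)) (T.h (P (nat_lit 0)) (T.h (M (nat_lit 126279138848112902143)) (T.h (P (nat_lit 0)) (P (nat_lit 53051936705152)))))) (T.h (P (nat_lit 0)) (T.h (T.h (M (nat_lit 237096645803731058687)) (T.h (P (nat_lit 0)) (M (nat_lit 58086204154527)))) (T.h (P (nat_lit 0)) (P (nat_lit 56760557853824))))))) (T.h (T.h (T.h (P (nat_lit 0)) (T.h (P (nat_lit 419121629837070438498304)) (T.h (P (nat_lit 0)) (M (nat_lit 325957275491155967))))) (T.h (P (nat_lit 0)) (T.h (T.h (P (nat_lit 0)) (M (nat_lit 395215621298323455))) (P (nat_lit 0))))) (T.h (T.h (P (nat_lit 0)) (T.h (T.h (P (nat_lit 630235638186064740352)) (T.h (P (nat_lit 0)) (P (nat_lit 357255833203280))))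 (T.h (P (nat_lit 0)) (P (nat_lit 186187917737008))))) (T.h (T.h (T.h (P (nat_lit 0)) (M (nat_lit 2451348865101381631))) (P (nat_lit 0))) (T.h (T.h (P (nat_lit 0)) (P (nat_lit 323965957366480))) (P (nat_lit 0)))))))), (T.h (T.h (T.h (M (nat_lit 16610131237050969157222881296383)) (T.h (P (nat_lit 0)) (T.h (P (nat_lit 78577746382943512002822144)) (T.h (P (nat_lit 0)) (M (nat_lit 44363430733904084991)))))) (T.h (P (nat_lit 0)) (T.h (T.h (M (nat_lit 12159185391653889647837183)) (T.h (P (nat_lit 0)) (M (nat_lit 26916983604714143743)))) (T.h (P (nat_lit 0)) (M (nat_lit 8542965040104341503)))))) (T.h (T.h (P (nat_lit 0)) (T.h (T.h (P (nat_lit 0)) (T.h (P (nat_lit 170774383045035088150528)) (T.h (P (nat_lit 0)) (M (nat_lit 116902649026969599))))) (T.h (P (nat_lit 0)) (T.h (T.h (P (nat_lit 0)) (P (nat_lit 7959988333117440))) (P (nat_lit 0)))))) (T.h (T.h (T.h (M (nat_lit 23126752110161750401220607)) (T.h (P (nat_lit 0)) (P (nat_lit 254876444120481529856)))) (T.h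 (P (nat_lit 0)) (M (nat_lit 12886189783738482687)))) (T.h (T.h (P (nat_lit 0)) (T.h (T.h (P (nat_lit 0)) (M (nat_lit 1474979290622656511))) (P (nat_lit 0)))) (P (nat_lit 118912105825926381568))))))]
def lQm_51 : List (T ℤ) := [(P (nat_lit 0)), (P (nat_lit 0)), (T.h (T.h (P (nat_lit 0)) (T.h (T.h (P (nat_lit 0)) (T.h (P (nat_lit 2581634979122964043137024)) (T.h (P (nat_lit 0)) (T.h (M (nat_lit 32675668490924851199)) (T.h (P (nat_lit 0)) (P (nat_lit 16361497986480))))))) (T.h (P (nat_lit 0)) (T.h (T.h (P (nat_lit 0)) (T.h (M (nat_lit 21661246487506452479)) (T.h (P (nat_lit 0)) (P (nat_lit 66069034018640))))) (T.h (P (nat_lit 0)) (T.h (T.h (P (nat_lit 0)) (P (nat_lit 33653347756400))) (P (nat_lit 0)))))))) (T.h (T.h (T.h (M (nat_lit 21123593321619357335306633215)) (T.h (P (nat_lit 0)) (T.h (M (nat_lit 50430542327613638049791)) (T.h (P (nat_lit 0)) (P (nat_lit 55334082025422848)))))) (T.h (P (nat_lit 0)) (T.h (T.h (P (nat_lit 5919988966405504499712)) (T.h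 (P (nat_lit 0)) (P (nat_lit 50862758182420480)))) (T.h (P (nat_lit 0)) (M (nat_lit 10609186901458943)))))) (T.h (T.h (P (nat_lit 0)) (T.h (T.h (P (nat_lit 0)) (T.h (P (nat_lit 58709018431610421248)) (T.h (P (nat_lit 0)) (M (nat_lit 107680149905439))))) (T.h (P (nat_lit 0)) (T.h (T.h (P (nat_lit 0)) (M (nat_lit 103123823580639))) (P (nat_lit 0)))))) (T.h (T.h (T.h (P (nat_lit 15010200804235572936704)) (T.h (P (nat_lit 0)) (M (nat_lit 165041657512427519)))) (T.h (P (nat_lit 0)) (M (nat_lit 58402257737056255)))) (T.h (T.h (P (nat_lit 0)) (T.h (T.h (P (nat_lit 0)) (P (nat_lit 58319323554320))) (P (nat_lit 0)))) (M (nat_lit 154004297327050751))))))), (T.h (T.h (P (nat_lit 0)) (T.h (T.h (M (nat_lit 4917936981971218361554567167)) (T.h (P (nat_lit 0)) (T.h (P (nat_lit 69494433174587336294400)) (T.h (P (nat_lit 0)) (M (nat_lit 2208243714326527)))))) (T.h (P (nat_lit 0)) (T.h (T.h (M (nat_lit 63985465020640980369407)) (T.h (P (nat_lit 0)) (M (nat_lit 112431178090102783))))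 (T.h (P (nat_lit 0)) (M (nat_lit 37867905166016511))))))) (T.h (T.h (T.h (P (nat_lit 0)) (T.h (M (nat_lit 24686943158788964208345087)) (T.h (P (nat_lit 0)) (T.h (M (nat_lit 237096645803731058687)) (T.h (P (nat_lit 0)) (P (nat_lit 56760557853824))))))) (T.h (P (nat_lit 0)) (T.h (T.h (P (nat_lit 0)) (T.h (M (nat_lit 126279138848112902143)) (T.h (P (nat_lit 0)) (M (nat_lit 58086204154527))))) (T.h (P (nat_lit 0)) (T.h (T.h (P (nat_lit 0)) (P (nat_lit 53051936705152))) (P (nat_lit 0))))))) (T.h (T.h (P (nat_lit 0)) (T.h (T.h (P (nat_lit 419121629837070438498304)) (T.h (P (nat_lit 0)) (M (nat_lit 395215621298323455)))) (T.h (P (nat_lit 0)) (M (nat_lit 325957275491155967))))) (T.h (T.h (T.h (P (nat_lit 0)) (T.h (P (nat_lit 630235638186064740352)) (T.h (P (nat_lit 0)) (P (nat_lit 186187917737008))))) (T.h (P (nat_lit 0)) (T.h (T.h (P (nat_lit 0)) (P (nat_lit 357255833203280))) (P (nat_lit 0))))) (T.h (T.h (P (nat_lit 0)) (M (nat_lit 2451348865101381631)))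 (T.h (T.h (T.h (P (nat_lit 0)) (P (nat_lit 323965957366480))) (P (nat_lit 0))) (P (nat_lit 0)))))))), (T.h (T.h (P (nat_lit 0)) (T.h (T.h (P (nat_lit 0)) (T.h (M (nat_lit 101656164803558409808904191)) (T.h (P (nat_lit 0)) (P (nat_lit 28898813761829208064))))) (T.h (P (nat_lit 0)) (T.h (T.h (P (nat_lit 0)) (P (nat_lit 28898813761829208064))) (P (nat_lit 0)))))) (T.h (T.h (T.h (M (nat_lit 29376288194465710613708406783)) (T.h (P (nat_lit 0)) (T.h (P (nat_lit 286482203539050432823296)) (T.h (P (nat_lit 0)) (M (nat_lit 5606270613454847)))))) (T.h (P (nat_lit 0)) (T.h (T.h (P (nat_lit 286482203539050432823296)) (T.h (P (nat_lit 0)) (M (nat_lit 510769333716254719)))) (T.h (P (nat_lit 0)) (M (nat_lit 5606270613454847)))))) (T.h (T.h (P (nat_lit 0)) (T.h (T.h (P (nat_lit 0)) (P (nat_lit 369651032577932263424))) (P (nat_lit 0)))) (T.h (T.h (T.h (M (nat_lit 35093809422728020623359)) (T.h (P (nat_lit 0)) (M (nat_lit 215364510542790655)))) (T.h (P (nat_lit 0)) (M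 (nat_lit 215364510542790655)))) (T.h (P (nat_lit 0)) (M (nat_lit 488645990257197055))))))), (P (nat_lit 0)), (P (nat_lit 0)), (T.h (T.h (T.h (P (nat_lit 0)) (T.h (P (nat_lit 30592359351173919146378264576)) (T.h (P (nat_lit 0)) (T.h (M (nat_lit 18885243591323641970687)) (T.h (P (nat_lit 0)) (M (nat_lit 20021605155700735))))))) (T.h (P (nat_lit 0)) (T.h (T.h (P (nat_lit 0)) (T.h (M (nat_lit 47570282094454540075007)) (T.h (P (nat_lit 0)) (P (nat_lit 5924892080504832))))) (T.h (P (nat_lit 0)) (T.h (T.h (P (nat_lit 0)) (M (nat_lit 100432000003391487))) (P (nat_lit 0))))))) (T.h (T.h (P (nat_lit 0)) (T.h (T.h (M (nat_lit 58042082194932585631580159)) (T.h (P (nat_lit 0)) (T.h (M (nat_lit 23453482314404724735)) (T.h (P (nat_lit 0)) (M (nat_lit 46938132056991)))))) (T.h (P (nat_lit 0)) (T.h (T.h (M (nat_lit 72074611859338035199)) (T.h (P (nat_lit 0)) (M (nat_lit 153951304182895)))) (T.h (P (nat_lit 0)) (P (nat_lit 9843633707952))))))) (T.h (T.h (T.h (P (nat_lit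 0)) (T.h (M (nat_lit 126206691015345766924287)) (T.h (P (nat_lit 0)) (M (nat_lit 105060780253347839))))) (T.h (P (nat_lit 0)) (T.h (T.h (P (nat_lit 0)) (P (nat_lit 142951232725958656))) (P (nat_lit 0))))) (T.h (T.h (P (nat_lit 0)) (T.h (T.h (P (nat_lit 169026438565197774848)) (T.h (P (nat_lit 0)) (M (nat_lit 160765879742335)))) (T.h (P (nat_lit 0)) (M (nat_lit 40807260833679))))) (T.h (T.h (T.h (P (nat_lit 0)) (P (nat_lit 153230669436993536))) (P (nat_lit 0))) (T.h (T.h (P (nat_lit 0)) (M (nat_lit 202010613196303))) (P (nat_lit 0))))))))]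
def lQm_52 : List (T ℤ) := [(T.h (T.h (T.h (M (nat_lit 16610131237050969157222881296383)) (T.h (P (nat_lit 0)) (T.h (M (nat_lit 12159185391653889647837183)) (T.h (P (nat_lit 0)) (M (nat_lit 8542965040104341503)))))) (T.h (P (nat_lit 0)) (T.h (T.h (P (nat_lit 78577746382943512002822144)) (T.h (P (nat_lit 0)) (M (nat_lit 26916983604714143743)))) (T.h (P (nat_lit 0)) (M (nat_lit 44363430733904084991)))))) (T.h (T.h (P (nat_lit 0)) (T.h (T.h (P (nat_lit 0)) (T.h (P (nat_lit 170774383045035088150528)) (T.h (P (nat_lit 0)) (P (nat_lit 7959988333117440))))) (T.h (P (nat_lit 0)) (T.h (T.h (P (nat_lit 0)) (M (nat_lit 116902649026969599))) (P (nat_lit 0)))))) (T.h (T.h (T.h (M (nat_lit 23126752110161750401220607)) (T.h (P (nat_lit 0)) (M (nat_lit 12886189783738482687)))) (T.h (P (nat_lit 0)) (P (nat_lit 254876444120481529856)))) (T.h (T.h (P (nat_lit 0)) (T.h (T.h (P (nat_lit 0)) (M (nat_lit 1474979290622656511))) (P (nat_lit 0)))) (P (nat_lit 118912105825926381568)))))),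 (P (nat_lit 0)), (P (nat_lit 0)), (T.h (T.h (P (nat_lit 0)) (T.h (T.h (P (nat_lit 0)) (T.h (P (nat_lit 104213714518363397557321728)) (T.h (P (nat_lit 0)) (M (nat_lit 99944006815716474879))))) (T.h (P (nat_lit 0)) (T.h (T.h (P (nat_lit 0)) (M (nat_lit 18889754215679262719))) (P (nat_lit 0)))))) (T.h (T.h (T.h (P (nat_lit 23189883887025830961654792192)) (T.h (P (nat_lit 0)) (T.h (M (nat_lit 87515735663265416478719)) (T.h (P (nat_lit 0)) (M (nat_lit 8342794656481279)))))) (T.h (P (nat_lit 0)) (T.h (T.h (M (nat_lit 33956056854755006218239)) (T.h (P (nat_lit 0)) (P (nat_lit 533260947869499392)))) (T.h (P (nat_lit 0)) (M (nat_lit 93919563231952895)))))) (T.h (T.h (P (nat_lit 0)) (T.h (T.h (P (nat_lit 0)) (P (nat_lit 571332830943741214720))) (P (nat_lit 0)))) (T.h (T.h (T.h (M (nat_lit 243099935357513639133183)) (T.h (P (nat_lit 0)) (P (nat_lit 262202542911520768)))) (T.h (P (nat_lit 0)) (P (nat_lit 1175977343068569600)))) (T.h (P (nat_lit 0)) (P (nat_lit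 595563394477948928))))))), (P (nat_lit 0)), (P (nat_lit 0)), (P (nat_lit 0)), (P (nat_lit 0))]
def lQm_53 : List (T ℤ) := [(P (nat_lit 0)), (T.h (T.h (T.h (M (nat_lit 8970997173878140039931440922623)) (T.h (P (nat_lit 0)) (T.h (P (nat_lit 978353580458961784537088)) (T.h (P (nat_lit 0)) (T.h (P (nat_lit 2389887418619658240)) (T.h (P (nat_lit 0)) (M (nat_lit 165424305583)))))))) (T.h (P (nat_lit 0)) (T.h (T.h (P (nat_lit 978353580458961784537088)) (T.h (P (nat_lit 0)) (T.h (M (nat_lit 13135542799900344319)) (T.h (P (nat_lit 0)) (M (nat_lit 4239509951935)))))) (T.h (P (nat_lit 0)) (T.h (T.h (P (nat_lit 2389887418619658240)) (T.h (P (nat_lit 0)) (M (nat_lit 4239509951935)))) (T.h (P (nat_lit 0)) (M (nat_lit 165424305583)))))))) (T.h (T.h (P (nat_lit 0)) (T.h (T.h (P (nat_lit 0)) (T.h (M (nat_lit 2662948729969270849535)) (T.h (P (nat_lit 0)) (P (nat_lit 13170292645003264))))) (T.h (P (nat_lit 0)) (T.h (T.h (P (nat_lit 0)) (P (nat_lit 13170292645003264)))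 (P (nat_lit 0)))))) (T.h (T.h (T.h (P (nat_lit 4809974907341691670233088)) (T.h (P (nat_lit 0)) (T.h (M (nat_lit 15228380118436020223)) (T.h (P (nat_lit 0)) (M (nat_lit 15443532767759)))))) (T.h (P (nat_lit 0)) (T.h (T.h (M (nat_lit 15228380118436020223)) (T.h (P (nat_lit 0)) (P (nat_lit 35413500645568)))) (T.h (P (nat_lit 0)) (M (nat_lit 15443532767759)))))) (T.h (T.h (P (nat_lit 0)) (T.h (T.h (P (nat_lit 0)) (P (nat_lit 107255350181560320))) (P (nat_lit 0)))) (T.h (T.h (T.h (P (nat_lit 157772246912990183424)) (T.h (P (nat_lit 0)) (P (nat_lit 28106565702272)))) (T.h (P (nat_lit 0)) (P (nat_lit 28106565702272)))) (T.h (P (nat_lit 0)) (M (nat_lit 9234645211199)))))))), (T.h (T.h (T.h (P (nat_lit 0)) (T.h (P (nat_lit 16157316351655077914389512192)) (T.h (P (nat_lit 0)) (T.h (P (nat_lit 5325104209578101309440)) (T.h (P (nat_lit 0)) (M (nat_lit 29353014219341823))))))) (T.h (P (nat_lit 0)) (T.h (T.h (P (nat_lit 0)) (T.h (P (nat_lit 1472349745841981882368))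 (T.h (P (nat_lit 0)) (M (nat_lit 23172711675297791))))) (T.h (P (nat_lit 0)) (T.h (T.h (P (nat_lit 0)) (M (nat_lit 7029372037136383))) (P (nat_lit 0))))))) (T.h (T.h (P (nat_lit 0)) (T.h (T.h (P (nat_lit 11214666536666130125160448)) (T.h (P (nat_lit 0)) (T.h (P (nat_lit 26743036042488578048)) (T.h (P (nat_lit 0)) (M (nat_lit 38000328701999)))))) (T.h (P (nat_lit 0)) (T.h (T.h (P (nat_lit 16014234136231280640)) (T.h (P (nat_lit 0)) (P (nat_lit 10694443811920)))) (T.h (P (nat_lit 0)) (M (nat_lit 6700780526239))))))) (T.h (T.h (T.h (P (nat_lit 0)) (T.h (M (nat_lit 13429755321487863054335)) (T.h (P (nat_lit 0)) (P (nat_lit 27539627497783296))))) (T.h (P (nat_lit 0)) (T.h (T.h (P (nat_lit 0)) (M (nat_lit 171041178281050111))) (P (nat_lit 0))))) (T.h (T.h (P (nat_lit 0)) (T.h (T.h (P (nat_lit 273829416074412556288)) (T.h (P (nat_lit 0)) (P (nat_lit 63537919357360)))) (T.h (P (nat_lit 0)) (M (nat_lit 78533988872879))))) (T.h (T.h (T.h (P (nat_lit 0)) (M (nat_lit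 274177761625079807))) (P (nat_lit 0))) (T.h (T.h (P (nat_lit 0)) (P (nat_lit 649950281733360))) (P (nat_lit 0)))))))), (T.h (T.h (T.h (P (nat_lit 648354378398368560434359828480)) (T.h (P (nat_lit 0)) (T.h (P (nat_lit 6029595519567029736570880)) (T.h (P (nat_lit 0)) (T.h (P (nat_lit 22782046953774514176)) (T.h (P (nat_lit 0)) (P (nat_lit 1586148909312)))))))) (T.h (P (nat_lit 0)) (T.h (T.h (P (nat_lit 405226602017100610404352)) (T.h (P (nat_lit 0)) (T.h (P (nat_lit 1458250011144880128)) (T.h (P (nat_lit 0)) (M (nat_lit 52667779269951)))))) (T.h (P (nat_lit 0)) (T.h (T.h (M (nat_lit 5430699604901363711)) (T.h (P (nat_lit 0)) (M (nat_lit 49126568938831)))) (T.h (P (nat_lit 0)) (P (nat_lit 3821769693456)))))))) (T.h (T.h (P (nat_lit 0)) (T.h (T.h (P (nat_lit 0)) (T.h (M (nat_lit 44952741325817528713215)) (T.h (P (nat_lit 0)) (P (nat_lit 134958845215637504))))) (T.h (P (nat_lit 0)) (T.h (T.h (P (nat_lit 0)) (M (nat_lit 36359330566864895))) (P (nat_lit 0))))))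 (T.h (T.h (T.h (P (nat_lit 7052920268108960389660672)) (T.h (P (nat_lit 0)) (T.h (M (nat_lit 80224259377891115007)) (T.h (P (nat_lit 0)) (P (nat_lit 129681242717312)))))) (T.h (P (nat_lit 0)) (T.h (T.h (P (nat_lit 34010185905997873152)) (T.h (P (nat_lit 0)) (P (nat_lit 109922351265936)))) (T.h (P (nat_lit 0)) (M (nat_lit 17832029004943)))))) (T.h (T.h (P (nat_lit 0)) (T.h (T.h (P (nat_lit 0)) (P (nat_lit 150087276435439616))) (P (nat_lit 0)))) (T.h (T.h (T.h (P (nat_lit 192230385199957934080)) (T.h (P (nat_lit 0)) (P (nat_lit 78162321228816)))) (T.h (P (nat_lit 0)) (P (nat_lit 33231154151888)))) (T.h (P (nat_lit 0)) (P (nat_lit 130481994932784)))))))), (T.h (T.h (T.h (P (nat_lit 0)) (T.h (P (nat_lit 9479945226855203678944493568)) (T.h (P (nat_lit 0)) (T.h (M (nat_lit 8055960460481364230143)) (T.h (P (nat_lit 0)) (M (nat_lit 3604578148319231))))))) (T.h (P (nat_lit 0)) (T.h (T.h (P (nat_lit 0)) (T.h (M (nat_lit 15229871120192928481279)) (T.h (P (nat_lit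 0)) (P (nat_lit 67886065340547072))))) (T.h (P (nat_lit 0)) (T.h (T.h (P (nat_lit 0)) (P (nat_lit 27031974620561408))) (P (nat_lit 0))))))) (T.h (T.h (P (nat_lit 0)) (T.h (T.h (P (nat_lit 68480659706341009634885632)) (T.h (P (nat_lit 0)) (P (nat_lit 28561419631895511040)))) (T.h (P (nat_lit 0)) (P (nat_lit 11930534835996590080))))) (T.h (T.h (T.h (P (nat_lit 0)) (T.h (M (nat_lit 252405377024740638588927)) (T.h (P (nat_lit 0)) (M (nat_lit 73784448161644543))))) (T.h (P (nat_lit 0)) (T.h (T.h (P (nat_lit 0)) (P (nat_lit 48863964941058048))) (P (nat_lit 0))))) (T.h (T.h (P (nat_lit 0)) (M (nat_lit 76622548805082939391))) (T.h (T.h (T.h (P (nat_lit 0)) (P (nat_lit 158948710125174784))) (P (nat_lit 0))) (P (nat_lit 0))))))), (P (nat_lit 0)), (P (nat_lit 0)), (T.h (T.h (P (nat_lit 0)) (T.h (T.h (P (nat_lit 16157316351655077914389512192)) (T.h (P (nat_lit 0)) (T.h (P (nat_lit 1472349745841981882368)) (T.h (P (nat_lit 0)) (M (nat_lit 7029372037136383))))))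 (T.h (P (nat_lit 0)) (T.h (T.h (P (nat_lit 5325104209578101309440)) (T.h (P (nat_lit 0)) (M (nat_lit 23172711675297791)))) (T.h (P (nat_lit 0)) (M (nat_lit 29353014219341823))))))) (T.h (T.h (T.h (P (nat_lit 0)) (T.h (P (nat_lit 11214666536666130125160448)) (T.h (P (nat_lit 0)) (T.h (P (nat_lit 16014234136231280640)) (T.h (P (nat_lit 0)) (M (nat_lit 6700780526239))))))) (T.h (P (nat_lit 0)) (T.h (T.h (P (nat_lit 0)) (T.h (P (nat_lit 26743036042488578048)) (T.h (P (nat_lit 0)) (P (nat_lit 10694443811920))))) (T.h (P (nat_lit 0)) (T.h (T.h (P (nat_lit 0)) (M (nat_lit 38000328701999))) (P (nat_lit 0))))))) (T.h (T.h (P (nat_lit 0)) (T.h (T.h (M (nat_lit 13429755321487863054335)) (T.h (P (nat_lit 0)) (M (nat_lit 171041178281050111)))) (T.h (P (nat_lit 0)) (P (nat_lit 27539627497783296))))) (T.h (T.h (T.h (P (nat_lit 0)) (T.h (P (nat_lit 273829416074412556288)) (T.h (P (nat_lit 0)) (M (nat_lit 78533988872879))))) (T.h (P (nat_lit 0)) (T.h (T.h (P (nat_lit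 0)) (P (nat_lit 63537919357360))) (P (nat_lit 0))))) (T.h (T.h (P (nat_lit 0)) (M (nat_lit 274177761625079807))) (T.h (T.h (T.h (P (nat_lit 0)) (P (nat_lit 649950281733360))) (P (nat_lit 0))) (P (nat_lit 0))))))))]
def lQm_54 : List (T ℤ) := [(T.h (T.h (P (nat_lit 0)) (T.h (T.h (P (nat_lit 0)) (T.h (M (nat_lit 11630828762409913171312639)) (T.h (P (nat_lit 0)) (T.h (M (nat_lit 6560148199749713919)) (T.h (P (nat_lit 0)) (M (nat_lit 53103933012239))))))) (T.h (P (nat_lit 0)) (T.h (T.h (P (nat_lit 0)) (T.h (M (nat_lit 6560148199749713919)) (T.h (P (nat_lit 0)) (P (nat_lit 1364867077376))))) (T.h (P (nat_lit 0)) (T.h (T.h (P (nat_lit 0)) (M (nat_lit 53103933012239))) (P (nat_lit 0)))))))) (T.h (T.h (T.h (M (nat_lit 88476704524665135652308779007)) (T.h (P (nat_lit 0)) (T.h (M (nat_lit 62360555743963334574079)) (T.h (P (nat_lit 0)) (P (nat_lit 18997831817314304)))))) (T.h (P (nat_lit 0)) (T.h (T.h (M (nat_lit 62360555743963334574079)) (T.h (P (nat_lit 0))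 (M (nat_lit 210565724574416895)))) (T.h (P (nat_lit 0)) (P (nat_lit 18997831817314304)))))) (T.h (T.h (P (nat_lit 0)) (T.h (T.h (P (nat_lit 0)) (T.h (P (nat_lit 678278750592739311616)) (T.h (P (nat_lit 0)) (M (nat_lit 232315348433871))))) (T.h (P (nat_lit 0)) (T.h (T.h (P (nat_lit 0)) (M (nat_lit 232315348433871))) (P (nat_lit 0)))))) (T.h (T.h (T.h (M (nat_lit 98649202954236063645695)) (T.h (P (nat_lit 0)) (P (nat_lit 43458579367362560)))) (T.h (P (nat_lit 0)) (P (nat_lit 43458579367362560)))) (T.h (T.h (P (nat_lit 0)) (T.h (T.h (P (nat_lit 0)) (M (nat_lit 170370273170943))) (P (nat_lit 0)))) (M (nat_lit 732502817971994623))))))), (T.h (T.h (P (nat_lit 0)) (T.h (T.h (M (nat_lit 3852606373610495334007439359)) (T.h (P (nat_lit 0)) (T.h (P (nat_lit 6837357369292922814464)) (T.h (P (nat_lit 0)) (P (nat_lit 59169193778446336)))))) (T.h (P (nat_lit 0)) (T.h (T.h (P (nat_lit 22505124835361908850688)) (T.h (P (nat_lit 0)) (P (nat_lit 46638150502907904))))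 (T.h (P (nat_lit 0)) (M (nat_lit 4950061242613759))))))) (T.h (T.h (T.h (P (nat_lit 0)) (T.h (M (nat_lit 59607409781330600397897727)) (T.h (P (nat_lit 0)) (P (nat_lit 18434105099233001472))))) (T.h (P (nat_lit 0)) (T.h (T.h (P (nat_lit 0)) (P (nat_lit 114307951635558563840))) (P (nat_lit 0))))) (T.h (T.h (P (nat_lit 0)) (T.h (T.h (M (nat_lit 245447685447027747979263)) (T.h (P (nat_lit 0)) (M (nat_lit 110716026291683327)))) (T.h (P (nat_lit 0)) (M (nat_lit 47461522852282367))))) (T.h (T.h (T.h (P (nat_lit 0)) (P (nat_lit 1752441552205047136256))) (P (nat_lit 0))) (T.h (T.h (P (nat_lit 0)) (M (nat_lit 282237081034981375))) (P (nat_lit 0))))))), (P (nat_lit 0)), (P (nat_lit 0)), (T.h (T.h (T.h (P (nat_lit 648354378398368560434359828480)) (T.h (P (nat_lit 0)) (T.h (P (nat_lit 405226602017100610404352)) (T.h (P (nat_lit 0)) (T.h (M (nat_lit 5430699604901363711)) (T.h (P (nat_lit 0)) (P (nat_lit 3821769693456)))))))) (T.h (P (nat_lit 0)) (T.h (T.h (P (nat_lit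 6029595519567029736570880)) (T.h (P (nat_lit 0)) (T.h (P (nat_lit 1458250011144880128)) (T.h (P (nat_lit 0)) (M (nat_lit 49126568938831)))))) (T.h (P (nat_lit 0)) (T.h (T.h (P (nat_lit 22782046953774514176)) (T.h (P (nat_lit 0)) (M (nat_lit 52667779269951)))) (T.h (P (nat_lit 0)) (P (nat_lit 1586148909312)))))))) (T.h (T.h (P (nat_lit 0)) (T.h (T.h (P (nat_lit 0)) (T.h (M (nat_lit 44952741325817528713215)) (T.h (P (nat_lit 0)) (M (nat_lit 36359330566864895))))) (T.h (P (nat_lit 0)) (T.h (T.h (P (nat_lit 0)) (P (nat_lit 134958845215637504))) (P (nat_lit 0)))))) (T.h (T.h (T.h (P (nat_lit 7052920268108960389660672)) (T.h (P (nat_lit 0)) (T.h (P (nat_lit 34010185905997873152)) (T.h (P (nat_lit 0)) (M (nat_lit 17832029004943)))))) (T.h (P (nat_lit 0)) (T.h (T.h (M (nat_lit 80224259377891115007)) (T.h (P (nat_lit 0)) (P (nat_lit 109922351265936)))) (T.h (P (nat_lit 0)) (P (nat_lit 129681242717312)))))) (T.h (T.h (P (nat_lit 0)) (T.h (T.h (P (nat_lit 0))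 (P (nat_lit 150087276435439616))) (P (nat_lit 0)))) (T.h (T.h (T.h (P (nat_lit 192230385199957934080)) (T.h (P (nat_lit 0)) (P (nat_lit 33231154151888)))) (T.h (P (nat_lit 0)) (P (nat_lit 78162321228816)))) (T.h (P (nat_lit 0)) (P (nat_lit 130481994932784)))))))), (T.h (T.h (T.h (P (nat_lit 0)) (T.h (M (nat_lit 3852606373610495334007439359)) (T.h (P (nat_lit 0)) (T.h (P (nat_lit 22505124835361908850688)) (T.h (P (nat_lit 0)) (M (nat_lit 4950061242613759))))))) (T.h (P (nat_lit 0)) (T.h (T.h (P (nat_lit 0)) (T.h (P (nat_lit 6837357369292922814464)) (T.h (P (nat_lit 0)) (P (nat_lit 46638150502907904))))) (T.h (P (nat_lit 0)) (T.h (T.h (P (nat_lit 0)) (P (nat_lit 59169193778446336))) (P (nat_lit 0))))))) (T.h (T.h (P (nat_lit 0)) (T.h (T.h (M (nat_lit 59607409781330600397897727)) (T.h (P (nat_lit 0)) (P (nat_lit 114307951635558563840)))) (T.h (P (nat_lit 0)) (P (nat_lit 18434105099233001472))))) (T.h (T.h (T.h (P (nat_lit 0)) (T.h (M (nat_lit 245447685447027747979263))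 (T.h (P (nat_lit 0)) (M (nat_lit 47461522852282367))))) (T.h (P (nat_lit 0)) (T.h (T.h (P (nat_lit 0)) (M (nat_lit 110716026291683327))) (P (nat_lit 0))))) (T.h (T.h (P (nat_lit 0)) (P (nat_lit 1752441552205047136256))) (T.h (T.h (T.h (P (nat_lit 0)) (M (nat_lit 282237081034981375))) (P (nat_lit 0))) (P (nat_lit 0))))))), (P (nat_lit 0)), (P (nat_lit 0))]
def lQm_55 : List (T ℤ) := [(T.h (T.h (P (nat_lit 0)) (T.h (T.h (P (nat_lit 9479945226855203678944493568)) (T.h (P (nat_lit 0)) (T.h (M (nat_lit 15229871120192928481279)) (T.h (P (nat_lit 0)) (P (nat_lit 27031974620561408)))))) (T.h (P (nat_lit 0)) (T.h (T.h (M (nat_lit 8055960460481364230143)) (T.h (P (nat_lit 0)) (P (nat_lit 67886065340547072)))) (T.h (P (nat_lit 0)) (M (nat_lit 3604578148319231))))))) (T.h (T.h (T.h (P (nat_lit 0)) (T.h (P (nat_lit 68480659706341009634885632)) (T.h (P (nat_lit 0)) (P (nat_lit 11930534835996590080))))) (T.h (P (nat_lit 0)) (T.h (T.h (P (nat_lit 0)) (P (nat_lit 28561419631895511040)))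 (P (nat_lit 0))))) (T.h (T.h (P (nat_lit 0)) (T.h (T.h (M (nat_lit 252405377024740638588927)) (T.h (P (nat_lit 0)) (P (nat_lit 48863964941058048)))) (T.h (P (nat_lit 0)) (M (nat_lit 73784448161644543))))) (T.h (T.h (T.h (P (nat_lit 0)) (M (nat_lit 76622548805082939391))) (P (nat_lit 0))) (T.h (T.h (P (nat_lit 0)) (P (nat_lit 158948710125174784))) (P (nat_lit 0))))))), (P (nat_lit 0)), (P (nat_lit 0)), (P (nat_lit 0)), (P (nat_lit 0)), (P (nat_lit 0)), (T.h (T.h (P (nat_lit 0)) (T.h (T.h (P (nat_lit 0)) (T.h (P (nat_lit 216187792611341833863168)) (T.h (P (nat_lit 0)) (T.h (P (nat_lit 3961292155565113344)) (T.h (P (nat_lit 0)) (M (nat_lit 3155819464559))))))) (T.h (P (nat_lit 0)) (T.h (T.h (P (nat_lit 0)) (T.h (P (nat_lit 3961292155565113344)) (T.h (P (nat_lit 0)) (M (nat_lit 13201214689439))))) (T.h (P (nat_lit 0)) (T.h (T.h (P (nat_lit 0)) (M (nat_lit 3155819464559))) (P (nat_lit 0)))))))) (T.h (T.h (T.h (M (nat_lit 4596200364159134283318951935)) (T.h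 (P (nat_lit 0)) (T.h (P (nat_lit 8278749748978604048384)) (T.h (P (nat_lit 0)) (M (nat_lit 5455506261671935)))))) (T.h (P (nat_lit 0)) (T.h (T.h (P (nat_lit 8278749748978604048384)) (T.h (P (nat_lit 0)) (M (nat_lit 56948847809921023)))) (T.h (P (nat_lit 0)) (M (nat_lit 5455506261671935)))))) (T.h (T.h (P (nat_lit 0)) (T.h (T.h (P (nat_lit 0)) (T.h (P (nat_lit 16369758572956876800)) (T.h (P (nat_lit 0)) (P (nat_lit 13710230630080))))) (T.h (P (nat_lit 0)) (T.h (T.h (P (nat_lit 0)) (P (nat_lit 13710230630080))) (P (nat_lit 0)))))) (T.h (T.h (T.h (M (nat_lit 15703917169784586764287)) (T.h (P (nat_lit 0)) (M (nat_lit 34950437389729791)))) (T.h (P (nat_lit 0)) (M (nat_lit 34950437389729791)))) (T.h (T.h (P (nat_lit 0)) (T.h (T.h (P (nat_lit 0)) (P (nat_lit 53858954616320))) (P (nat_lit 0)))) (P (nat_lit 21714547579813888))))))), (T.h (T.h (P (nat_lit 0)) (T.h (T.h (M (nat_lit 1468683830756010962882396159)) (T.h (P (nat_lit 0)) (T.h (M (nat_lit 2152802899987471007743))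 (T.h (P (nat_lit 0)) (M (nat_lit 4140057265930239)))))) (T.h (P (nat_lit 0)) (T.h (T.h (M (nat_lit 4805245990692022386687)) (T.h (P (nat_lit 0)) (P (nat_lit 13742695469957120)))) (T.h (P (nat_lit 0)) (P (nat_lit 2598847362711552))))))) (T.h (T.h (T.h (P (nat_lit 0)) (T.h (P (nat_lit 24061905069947047567687680)) (T.h (P (nat_lit 0)) (T.h (P (nat_lit 50873018507107237888)) (T.h (P (nat_lit 0)) (M (nat_lit 6662556455103))))))) (T.h (P (nat_lit 0)) (T.h (T.h (P (nat_lit 0)) (T.h (P (nat_lit 40906388900327456768)) (T.h (P (nat_lit 0)) (P (nat_lit 238877194160))))) (T.h (P (nat_lit 0)) (T.h (T.h (P (nat_lit 0)) (P (nat_lit 37730281781984))) (P (nat_lit 0))))))) (T.h (T.h (P (nat_lit 0)) (T.h (T.h (M (nat_lit 14144146517207239622655)) (T.h (P (nat_lit 0)) (P (nat_lit 7918000311222272)))) (T.h (P (nat_lit 0)) (P (nat_lit 131025791878840320))))) (T.h (T.h (T.h (P (nat_lit 0)) (T.h (P (nat_lit 83946722356541521920)) (T.h (P (nat_lit 0)) (P (nat_lit 847315013424)))))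 (T.h (P (nat_lit 0)) (T.h (T.h (P (nat_lit 0)) (M (nat_lit 64739948756207))) (P (nat_lit 0))))) (T.h (T.h (P (nat_lit 0)) (M (nat_lit 486616909737345023))) (T.h (T.h (T.h (P (nat_lit 0)) (M (nat_lit 430642633814447))) (P (nat_lit 0))) (P (nat_lit 0))))))))]
def lQm_56 : List (T ℤ) := [(T.h (T.h (P (nat_lit 0)) (T.h (T.h (P (nat_lit 0)) (T.h (P (nat_lit 9767776142240778154934272)) (T.h (P (nat_lit 0)) (M (nat_lit 181177798486917119))))) (T.h (P (nat_lit 0)) (T.h (T.h (P (nat_lit 0)) (P (nat_lit 11252920928419446784))) (P (nat_lit 0)))))) (T.h (T.h (T.h (P (nat_lit 3166846873336167602856132608)) (T.h (P (nat_lit 0)) (T.h (P (nat_lit 54548994911447583555584)) (T.h (P (nat_lit 0)) (M (nat_lit 42086344733622271)))))) (T.h (P (nat_lit 0)) (T.h (T.h (P (nat_lit 35266817870928178839552)) (T.h (P (nat_lit 0)) (M (nat_lit 41064510206017535)))) (T.h (P (nat_lit 0)) (M (nat_lit 384693298659327)))))) (T.h (T.h (P (nat_lit 0)) (T.h (T.h (P (nat_lit 0)) (M (nat_lit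 145672624222347722751))) (P (nat_lit 0)))) (T.h (T.h (T.h (M (nat_lit 14344602706940511911935)) (T.h (P (nat_lit 0)) (M (nat_lit 58682876268085247)))) (T.h (P (nat_lit 0)) (M (nat_lit 12694745432686591)))) (T.h (P (nat_lit 0)) (M (nat_lit 65582421789278207))))))), (P (nat_lit 0)), (P (nat_lit 0)), (T.h (T.h (T.h (P (nat_lit 0)) (T.h (M (nat_lit 1468683830756010962882396159)) (T.h (P (nat_lit 0)) (T.h (M (nat_lit 4805245990692022386687)) (T.h (P (nat_lit 0)) (P (nat_lit 2598847362711552))))))) (T.h (P (nat_lit 0)) (T.h (T.h (P (nat_lit 0)) (T.h (M (nat_lit 2152802899987471007743)) (T.h (P (nat_lit 0)) (P (nat_lit 13742695469957120))))) (T.h (P (nat_lit 0)) (T.h (T.h (P (nat_lit 0)) (M (nat_lit 4140057265930239))) (P (nat_lit 0))))))) (T.h (T.h (P (nat_lit 0)) (T.h (T.h (P (nat_lit 24061905069947047567687680)) (T.h (P (nat_lit 0)) (T.h (P (nat_lit 40906388900327456768)) (T.h (P (nat_lit 0)) (P (nat_lit 37730281781984)))))) (T.h (P (nat_lit 0)) (T.h (T.h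 (P (nat_lit 50873018507107237888)) (T.h (P (nat_lit 0)) (P (nat_lit 238877194160)))) (T.h (P (nat_lit 0)) (M (nat_lit 6662556455103))))))) (T.h (T.h (T.h (P (nat_lit 0)) (T.h (M (nat_lit 14144146517207239622655)) (T.h (P (nat_lit 0)) (P (nat_lit 131025791878840320))))) (T.h (P (nat_lit 0)) (T.h (T.h (P (nat_lit 0)) (P (nat_lit 7918000311222272))) (P (nat_lit 0))))) (T.h (T.h (P (nat_lit 0)) (T.h (T.h (P (nat_lit 83946722356541521920)) (T.h (P (nat_lit 0)) (M (nat_lit 64739948756207)))) (T.h (P (nat_lit 0)) (P (nat_lit 847315013424))))) (T.h (T.h (T.h (P (nat_lit 0)) (M (nat_lit 486616909737345023))) (P (nat_lit 0))) (T.h (T.h (P (nat_lit 0)) (M (nat_lit 430642633814447))) (P (nat_lit 0)))))))), (T.h (T.h (T.h (P (nat_lit 6680708591493659502204118106112)) (T.h (P (nat_lit 0)) (T.h (P (nat_lit 3152629237428887272554496)) (T.h (P (nat_lit 0)) (P (nat_lit 9809641144634572800)))))) (T.h (P (nat_lit 0)) (T.h (T.h (P (nat_lit 3152629237428887272554496)) (T.h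 (P (nat_lit 0)) (P (nat_lit 9895869601147781120)))) (T.h (P (nat_lit 0)) (P (nat_lit 9809641144634572800)))))) (T.h (T.h (P (nat_lit 0)) (T.h (T.h (P (nat_lit 0)) (T.h (M (nat_lit 65334891981411134210047)) (T.h (P (nat_lit 0)) (P (nat_lit 58318068894531584))))) (T.h (P (nat_lit 0)) (T.h (T.h (P (nat_lit 0)) (P (nat_lit 58318068894531584))) (P (nat_lit 0)))))) (T.h (T.h (T.h (M (nat_lit 2149890956194024676917247)) (T.h (P (nat_lit 0)) (M (nat_lit 48278542870674145279)))) (T.h (P (nat_lit 0)) (M (nat_lit 48278542870674145279)))) (T.h (T.h (P (nat_lit 0)) (T.h (T.h (P (nat_lit 0)) (P (nat_lit 175092994366111744))) (P (nat_lit 0)))) (M (nat_lit 8287550168841060351)))))), (P (nat_lit 0)), (P (nat_lit 0)), (T.h (T.h (P (nat_lit 0)) (T.h (T.h (P (nat_lit 0)) (T.h (P (nat_lit 9767776142240778154934272)) (T.h (P (nat_lit 0)) (P (nat_lit 11252920928419446784))))) (T.h (P (nat_lit 0)) (T.h (T.h (P (nat_lit 0)) (M (nat_lit 181177798486917119))) (P (nat_lit 0))))))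 (T.h (T.h (T.h (P (nat_lit 3166846873336167602856132608)) (T.h (P (nat_lit 0)) (T.h (P (nat_lit 35266817870928178839552)) (T.h (P (nat_lit 0)) (M (nat_lit 384693298659327)))))) (T.h (P (nat_lit 0)) (T.h (T.h (P (nat_lit 54548994911447583555584)) (T.h (P (nat_lit 0)) (M (nat_lit 41064510206017535)))) (T.h (P (nat_lit 0)) (M (nat_lit 42086344733622271)))))) (T.h (T.h (P (nat_lit 0)) (T.h (T.h (P (nat_lit 0)) (M (nat_lit 145672624222347722751))) (P (nat_lit 0)))) (T.h (T.h (T.h (M (nat_lit 14344602706940511911935)) (T.h (P (nat_lit 0)) (M (nat_lit 12694745432686591)))) (T.h (P (nat_lit 0)) (M (nat_lit 58682876268085247)))) (T.h (P (nat_lit 0)) (M (nat_lit 65582421789278207)))))))]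
def lQm_57 : List (T ℤ) := [(P (nat_lit 0)), (P (nat_lit 0)), (P (nat_lit 0)), (P (nat_lit 0)), (P (nat_lit 0)), (T.h (T.h (T.h (P (nat_lit 3948621279540221083939168583680)) (T.h (P (nat_lit 0)) (T.h (M (nat_lit 674436486761574870024191)) (T.h (P (nat_lit 0)) (T.h (M (nat_lit 1077428141279936511)) (T.h (P (nat_lit 0)) (P (nat_lit 742147470768)))))))) (T.h (P (nat_lit 0)) (T.h (T.h (M (nat_lit 674436486761574870024191)) (T.h (P (nat_lit 0)) (T.h (P (nat_lit 7703816849347051520)) (T.h (P (nat_lit 0)) (P (nat_lit 7551023902224)))))) (T.h (P (nat_lit 0)) (T.h (T.h (M (nat_lit 1077428141279936511)) (T.h (P (nat_lit 0)) (P (nat_lit 7551023902224)))) (T.h (P (nat_lit 0)) (P (nat_lit 742147470768)))))))) (T.h (T.h (P (nat_lit 0)) (T.h (T.h (P (nat_lit 0)) (T.h (M (nat_lit 13285698098565511905279)) (T.h (P (nat_lit 0)) (M (nat_lit 4307079362576383))))) (T.h (P (nat_lit 0)) (T.h (T.h (P (nat_lit 0)) (M (nat_lit 4307079362576383))) (P (nat_lit 0)))))) (T.h (T.h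 (T.h (M (nat_lit 3553202741703086916501503)) (T.h (P (nat_lit 0)) (T.h (M (nat_lit 5355990087802814463)) (T.h (P (nat_lit 0)) (P (nat_lit 12342157505568)))))) (T.h (P (nat_lit 0)) (T.h (T.h (M (nat_lit 5355990087802814463)) (T.h (P (nat_lit 0)) (M (nat_lit 55649786596799)))) (T.h (P (nat_lit 0)) (P (nat_lit 12342157505568)))))) (T.h (T.h (P (nat_lit 0)) (T.h (T.h (P (nat_lit 0)) (M (nat_lit 121986559857917951))) (P (nat_lit 0)))) (T.h (T.h (T.h (M (nat_lit 176895427923450789887)) (T.h (P (nat_lit 0)) (M (nat_lit 56118708733823)))) (T.h (P (nat_lit 0)) (M (nat_lit 56118708733823)))) (T.h (P (nat_lit 0)) (P (nat_lit 14511582942912)))))))), (T.h (T.h (T.h (P (nat_lit 0)) (T.h (M (nat_lit 3849283284899336926831575039)) (T.h (P (nat_lit 0)) (T.h (M (nat_lit 2169209033493156200447)) (T.h (P (nat_lit 0)) (P (nat_lit 411400681750528))))))) (T.h (P (nat_lit 0)) (T.h (T.h (P (nat_lit 0)) (T.h (M (nat_lit 318127756473987497983)) (T.h (P (nat_lit 0)) (M (nat_lit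 5667928027332607))))) (T.h (P (nat_lit 0)) (T.h (T.h (P (nat_lit 0)) (M (nat_lit 9836419181182975))) (P (nat_lit 0))))))) (T.h (T.h (P (nat_lit 0)) (T.h (T.h (M (nat_lit 8685767576524368306503679)) (T.h (P (nat_lit 0)) (M (nat_lit 21352153951422644223)))) (T.h (P (nat_lit 0)) (M (nat_lit 32111403715541336063))))) (T.h (T.h (T.h (P (nat_lit 0)) (T.h (M (nat_lit 7915433807328952975359)) (T.h (P (nat_lit 0)) (M (nat_lit 9664805248008191))))) (T.h (P (nat_lit 0)) (T.h (T.h (P (nat_lit 0)) (P (nat_lit 56882161005330432))) (P (nat_lit 0))))) (T.h (T.h (P (nat_lit 0)) (M (nat_lit 126973145165437337599))) (T.h (T.h (T.h (P (nat_lit 0)) (P (nat_lit 421785709203062784))) (P (nat_lit 0))) (P (nat_lit 0))))))), (P (nat_lit 0))]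
def lQm_58 : List (T ℤ) := [(P (nat_lit 0)), (T.h (T.h (P (nat_lit 0)) (T.h (T.h (M (nat_lit 3849283284899336926831575039)) (T.h (P (nat_lit 0)) (T.h (M (nat_lit 318127756473987497983)) (T.h (P (nat_lit 0)) (M (nat_lit 9836419181182975)))))) (T.h (P (nat_lit 0)) (T.h (T.h (M (nat_lit 2169209033493156200447)) (T.h (P (nat_lit 0)) (M (nat_lit 5667928027332607)))) (T.h (P (nat_lit 0)) (P (nat_lit 411400681750528))))))) (T.h (T.h (T.h (P (nat_lit 0)) (T.h (M (nat_lit 8685767576524368306503679)) (T.h (P (nat_lit 0)) (M (nat_lit 32111403715541336063))))) (T.h (P (nat_lit 0)) (T.h (T.h (P (nat_lit 0)) (M (nat_lit 21352153951422644223))) (P (nat_lit 0))))) (T.h (T.h (P (nat_lit 0)) (T.h (T.h (M (nat_lit 7915433807328952975359)) (T.h (P (nat_lit 0)) (P (nat_lit 56882161005330432)))) (T.h (P (nat_lit 0)) (M (nat_lit 9664805248008191))))) (T.h (T.h (T.h (P (nat_lit 0)) (M (nat_lit 126973145165437337599))) (P (nat_lit 0))) (T.h (T.h (P (nat_lit 0)) (P (nat_lit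 421785709203062784))) (P (nat_lit 0))))))), (P (nat_lit 0)), (P (nat_lit 0)), (P (nat_lit 0)), (P (nat_lit 0)), (P (nat_lit 0)), (T.h (T.h (P (nat_lit 0)) (T.h (T.h (P (nat_lit 0)) (T.h (P (nat_lit 386661090139917950910464)) (T.h (P (nat_lit 0)) (M (nat_lit 243643318179725311))))) (T.h (P (nat_lit 0)) (T.h (T.h (P (nat_lit 0)) (M (nat_lit 243643318179725311))) (P (nat_lit 0)))))) (T.h (T.h (T.h (M (nat_lit 5897302073599640136660811775)) (T.h (P (nat_lit 0)) (T.h (M (nat_lit 5209847404018203099135)) (T.h (P (nat_lit 0)) (M (nat_lit 4595770649346047)))))) (T.h (P (nat_lit 0)) (T.h (T.h (M (nat_lit 5209847404018203099135)) (T.h (P (nat_lit 0)) (P (nat_lit 20721956900044800)))) (T.h (P (nat_lit 0)) (M (nat_lit 4595770649346047)))))) (T.h (T.h (P (nat_lit 0)) (T.h (T.h (P (nat_lit 0)) (P (nat_lit 43491311747944415232))) (P (nat_lit 0)))) (T.h (T.h (T.h (P (nat_lit 38739346812376056856576)) (T.h (P (nat_lit 0)) (P (nat_lit 41793132904316928)))) (T.h (P (nat_lit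 0)) (P (nat_lit 41793132904316928)))) (T.h (P (nat_lit 0)) (M (nat_lit 16210757382045695)))))))]
def lQm_59 : List (T ℤ) := [(P (nat_lit 0)), (P (nat_lit 0)), (P (nat_lit 0)), (P (nat_lit 0)), (P (nat_lit 0)), (P (nat_lit 0)), (P (nat_lit 0)), (P (nat_lit 0))]
def lQm_60 : List (T ℤ) := [(P (nat_lit 0))]

def CQm : List (T ℤ) := lQm_0 ++ (lQm_1 ++ (lQm_2 ++ (lQm_3 ++ (lQm_4 ++ (lQm_5 ++ (lQm_6 ++ (lQm_7 ++ (lQm_8 ++ (lQm_9 ++ (lQm_10 ++ (lQm_11 ++ (lQm_12 ++ (lQm_13 ++ (lQm_14 ++ (lQm_15 ++ (lQm_16 ++ (lQm_17 ++ (lQm_18 ++ (lQm_19 ++ (lQm_20 ++ (lQm_21 ++ (lQm_22 ++ (lQm_23 ++ (lQm_24 ++ (lQm_25 ++ (lQm_26 ++ (lQm_27 ++ (lQm_28 ++ (lQm_29 ++ (lQm_30 ++ (lQm_31 ++ (lQm_32 ++ (lQm_33 ++ (lQm_34 ++ (lQm_35 ++ (lQm_36 ++ (lQm_37 ++ (lQm_38 ++ (lQm_39 ++ (lQm_40 ++ (lQm_41 ++ (lQm_42 ++ (lQm_43 ++ (lQm_44 ++ (lQm_45 ++ (lQm_46 ++ (lQm_47 ++ (lQm_48 ++ (lQm_49 ++ (lQm_50 ++ (lQm_51 ++ (lQm_52 ++ (lQm_53 ++ (lQm_54 ++ (lQm_55 ++ (lQm_56 ++ (lQm_57 ++ (lQm_58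 ++ (lQm_59 ++ (lQm_60))))))))))))))))))))))))))))))))))))))))))))))))))))))))))))

/-- norms at radius 1536 -/
def NQm : List ℕ := [(nat_lit 5034231565398356583608483840000), (nat_lit 0), (nat_lit 1936249348962702484545994953326592), (nat_lit 4170141418882642536058622182424576), (nat_lit 2946835483687255799354126789246976), (nat_lit 5216759397481387291827652387667968), (nat_lit 1541913322740312906285538672115712), (nat_lit 0), (nat_lit 0), (nat_lit 0), (nat_lit 2095230836906382242898518413934592), (nat_lit 5571590136520568920929144296964096), (nat_lit 17566673911081210103780376708120576), (nat_lit 13740034555752654911455447713054720), (nat_lit 5379688343161541790212226337996800), (nat_lit 0), (nat_lit 0), (nat_lit 0), (nat_lit 1446876750359959258353104830070784), (nat_lit 11990309699620455024518895335636992), (nat_lit 10210892362686663878720572039888896), (nat_lit 12779386240225529523267431745716224), (nat_lit 3165067436911905324468088300634112), (nat_lit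 0), (nat_lit 0), (nat_lit 3995485505665862631187123292602368), (nat_lit 11259064105425486217843300374675456), (nat_lit 27213608856120029334814171645083648), (nat_lit 14933267167960163038427692287393792), (nat_lit 5077039350393258466700208019341312), (nat_lit 0), (nat_lit 0), (nat_lit 3995485505665862631187123292602368), (nat_lit 25015968845869239855514864649764864), (nat_lit 34980759013812674914884577866547200), (nat_lit 66102350838006440043205899407327232), (nat_lit 28266015128656486240017912900354048), (nat_lit 0), (nat_lit 0), (nat_lit 1446876750359959258353104830070784), (nat_lit 11259064105425486217843300374675456), (nat_lit 34980759013812674914884577866547200), (nat_lit 73861050275293107502553318956204032), (nat_lit 26596281468057084762184039595507712), (nat_lit 0), (nat_lit 0), (nat_lit 2095230836906382242898518413934592), (nat_lit 11990309699620455024518895335636992), (nat_lit 27213608856120029334814171645083648), (nat_lit 66102350838006440043205899407327232),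 (nat_lit 26596281468057084762184039595507712), (nat_lit 0), (nat_lit 0), (nat_lit 1936249348962702484545994953326592), (nat_lit 5571590136520568920929144296964096), (nat_lit 10210892362686663878720572039888896), (nat_lit 14933267167960163038427692287393792), (nat_lit 28266015128656486240017912900354048), (nat_lit 0), (nat_lit 0), (nat_lit 4170141418882642536058622182424576), (nat_lit 17566673911081210103780376708120576), (nat_lit 12779386240225529523267431745716224), (nat_lit 5077039350393258466700208019341312), (nat_lit 0), (nat_lit 0), (nat_lit 2946835483687255799354126789246976), (nat_lit 13740034555752654911455447713054720), (nat_lit 3165067436911905324468088300634112), (nat_lit 0), (nat_lit 0), (nat_lit 5216759397481387291827652387667968), (nat_lit 5379688343161541790212226337996800), (nat_lit 0), (nat_lit 0), (nat_lit 1541913322740312906285538672115712), (nat_lit 0), (nat_lit 0), (nat_lit 0), (nat_lit 0), (nat_lit 0), (nat_lit 2095230836906382242898518413934592),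 (nat_lit 5571590136520568920929144296964096), (nat_lit 17566673911081210103780376708120576), (nat_lit 13740034555752654911455447713054720), (nat_lit 5379688343161541790212226337996800), (nat_lit 0), (nat_lit 0), (nat_lit 6113072133486313587448702662868992), (nat_lit 8727197887138125106369890783068160), (nat_lit 19578358060901119095753804705955840), (nat_lit 23704202962686517157247584506478592), (nat_lit 3505504948021139736566282493886464), (nat_lit 0), (nat_lit 0), (nat_lit 20825218022600536113024427056168960), (nat_lit 15746071662480190965866063135244288), (nat_lit 38440666659878787074525790876991488), (nat_lit 49623601449714309396573538624733184), (nat_lit 16348222677415602568976898566651904), (nat_lit 0), (nat_lit 0), (nat_lit 29608622065258569761900513753825280), (nat_lit 38691606899191200422691387431976960), (nat_lit 69427771601424280979721003097653248), (nat_lit 61550691365455361125071775542018048), (nat_lit 17179104328625352243046203671969792),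 (nat_lit 0), (nat_lit 0), (nat_lit 20825218022600536113024427056168960), (nat_lit 38691606899191200422691387431976960), (nat_lit 103901420465428310048028436495073280), (nat_lit 62733585082498689615946544584851456), (nat_lit 18264041879335211232804045431242752), (nat_lit 0), (nat_lit 0), (nat_lit 6113072133486313587448702662868992), (nat_lit 15746071662480190965866063135244288), (nat_lit 69427771601424280979721003097653248), (nat_lit 62733585082498689615946544584851456), (nat_lit 21094026943910034324907254895083520), (nat_lit 0), (nat_lit 0), (nat_lit 2095230836906382242898518413934592), (nat_lit 8727197887138125106369890783068160), (nat_lit 38440666659878787074525790876991488), (nat_lit 61550691365455361125071775542018048), (nat_lit 18264041879335211232804045431242752), (nat_lit 0), (nat_lit 0), (nat_lit 5571590136520568920929144296964096), (nat_lit 19578358060901119095753804705955840), (nat_lit 49623601449714309396573538624733184), (nat_lit 17179104328625352243046203671969792),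 (nat_lit 0), (nat_lit 0), (nat_lit 17566673911081210103780376708120576), (nat_lit 23704202962686517157247584506478592), (nat_lit 16348222677415602568976898566651904), (nat_lit 0), (nat_lit 0), (nat_lit 13740034555752654911455447713054720), (nat_lit 3505504948021139736566282493886464), (nat_lit 0), (nat_lit 0), (nat_lit 5379688343161541790212226337996800), (nat_lit 0), (nat_lit 0), (nat_lit 0), (nat_lit 0), (nat_lit 0), (nat_lit 0), (nat_lit 1446876750359959258353104830070784), (nat_lit 11990309699620455024518895335636992), (nat_lit 10210892362686663878720572039888896), (nat_lit 12779386240225529523267431745716224), (nat_lit 3165067436911905324468088300634112), (nat_lit 0), (nat_lit 0), (nat_lit 20825218022600536113024427056168960), (nat_lit 15746071662480190965866063135244288), (nat_lit 38440666659878787074525790876991488), (nat_lit 49623601449714309396573538624733184), (nat_lit 16348222677415602568976898566651904), (nat_lit 0), (nat_lit 0), (nat_lit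 22452219647001854323504669198909440), (nat_lit 20440171499564853970877765220564992), (nat_lit 66975551787154279365565426736037888), (nat_lit 64735798158136763034646554236420096), (nat_lit 17191102653566429062841068456771584), (nat_lit 0), (nat_lit 0), (nat_lit 22452219647001854323504669198909440), (nat_lit 50671866438855271371382503128432640), (nat_lit 128671879767785461882625984997359616), (nat_lit 80424918065622668746096277377253376), (nat_lit 23614805616898103220892522908745728), (nat_lit 0), (nat_lit 0), (nat_lit 20825218022600536113024427056168960), (nat_lit 20440171499564853970877765220564992), (nat_lit 128671879767785461882625984997359616), (nat_lit 108388069744674300048765798580224000), (nat_lit 25701725736600187509343177219768320), (nat_lit 0), (nat_lit 0), (nat_lit 1446876750359959258353104830070784), (nat_lit 15746071662480190965866063135244288), (nat_lit 66975551787154279365565426736037888), (nat_lit 80424918065622668746096277377253376),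 (nat_lit 25701725736600187509343177219768320), (nat_lit 0), (nat_lit 0), (nat_lit 11990309699620455024518895335636992), (nat_lit 38440666659878787074525790876991488), (nat_lit 64735798158136763034646554236420096), (nat_lit 23614805616898103220892522908745728), (nat_lit 0), (nat_lit 0), (nat_lit 10210892362686663878720572039888896), (nat_lit 49623601449714309396573538624733184), (nat_lit 17191102653566429062841068456771584), (nat_lit 0), (nat_lit 0), (nat_lit 12779386240225529523267431745716224), (nat_lit 16348222677415602568976898566651904), (nat_lit 0), (nat_lit 0), (nat_lit 3165067436911905324468088300634112), (nat_lit 0), (nat_lit 0), (nat_lit 0), (nat_lit 0), (nat_lit 0), (nat_lit 3995485505665862631187123292602368), (nat_lit 11259064105425486217843300374675456), (nat_lit 27213608856120029334814171645083648), (nat_lit 14933267167960163038427692287393792), (nat_lit 5077039350393258466700208019341312), (nat_lit 0), (nat_lit 0), (nat_lit 29608622065258569761900513753825280),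 (nat_lit 38691606899191200422691387431976960), (nat_lit 69427771601424280979721003097653248), (nat_lit 61550691365455361125071775542018048), (nat_lit 17179104328625352243046203671969792), (nat_lit 0), (nat_lit 0), (nat_lit 22452219647001854323504669198909440), (nat_lit 50671866438855271371382503128432640), (nat_lit 128671879767785461882625984997359616), (nat_lit 80424918065622668746096277377253376), (nat_lit 23614805616898103220892522908745728), (nat_lit 0), (nat_lit 0), (nat_lit 29608622065258569761900513753825280), (nat_lit 50671866438855271371382503128432640), (nat_lit 103684868997626660571908887610916864), (nat_lit 204218840376593640613278125138116608), (nat_lit 49909145936145494412896563231719424), (nat_lit 0), (nat_lit 0), (nat_lit 3995485505665862631187123292602368), (nat_lit 38691606899191200422691387431976960), (nat_lit 128671879767785461882625984997359616), (nat_lit 204218840376593640613278125138116608), (nat_lit 77697816427418304057586141649436672),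 (nat_lit 0), (nat_lit 0), (nat_lit 11259064105425486217843300374675456), (nat_lit 69427771601424280979721003097653248), (nat_lit 80424918065622668746096277377253376), (nat_lit 49909145936145494412896563231719424), (nat_lit 0), (nat_lit 0), (nat_lit 27213608856120029334814171645083648), (nat_lit 61550691365455361125071775542018048), (nat_lit 23614805616898103220892522908745728), (nat_lit 0), (nat_lit 0), (nat_lit 14933267167960163038427692287393792), (nat_lit 17179104328625352243046203671969792), (nat_lit 0), (nat_lit 0), (nat_lit 5077039350393258466700208019341312), (nat_lit 0), (nat_lit 0), (nat_lit 0), (nat_lit 0), (nat_lit 0), (nat_lit 3995485505665862631187123292602368), (nat_lit 25015968845869239855514864649764864), (nat_lit 34980759013812674914884577866547200), (nat_lit 66102350838006440043205899407327232), (nat_lit 28266015128656486240017912900354048), (nat_lit 0), (nat_lit 0), (nat_lit 20825218022600536113024427056168960), (nat_lit 38691606899191200422691387431976960),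 (nat_lit 103901420465428310048028436495073280), (nat_lit 62733585082498689615946544584851456), (nat_lit 18264041879335211232804045431242752), (nat_lit 0), (nat_lit 0), (nat_lit 20825218022600536113024427056168960), (nat_lit 20440171499564853970877765220564992), (nat_lit 128671879767785461882625984997359616), (nat_lit 108388069744674300048765798580224000), (nat_lit 25701725736600187509343177219768320), (nat_lit 0), (nat_lit 0), (nat_lit 3995485505665862631187123292602368), (nat_lit 38691606899191200422691387431976960), (nat_lit 128671879767785461882625984997359616), (nat_lit 204218840376593640613278125138116608), (nat_lit 77697816427418304057586141649436672), (nat_lit 0), (nat_lit 0), (nat_lit 25015968845869239855514864649764864), (nat_lit 103901420465428310048028436495073280), (nat_lit 108388069744674300048765798580224000), (nat_lit 77697816427418304057586141649436672), (nat_lit 0), (nat_lit 0), (nat_lit 34980759013812674914884577866547200), (nat_lit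 62733585082498689615946544584851456), (nat_lit 25701725736600187509343177219768320), (nat_lit 0), (nat_lit 0), (nat_lit 66102350838006440043205899407327232), (nat_lit 18264041879335211232804045431242752), (nat_lit 0), (nat_lit 0), (nat_lit 28266015128656486240017912900354048), (nat_lit 0), (nat_lit 0), (nat_lit 0), (nat_lit 0), (nat_lit 0), (nat_lit 1446876750359959258353104830070784), (nat_lit 11259064105425486217843300374675456), (nat_lit 34980759013812674914884577866547200), (nat_lit 73861050275293107502553318956204032), (nat_lit 26596281468057084762184039595507712), (nat_lit 0), (nat_lit 0), (nat_lit 6113072133486313587448702662868992), (nat_lit 15746071662480190965866063135244288), (nat_lit 69427771601424280979721003097653248), (nat_lit 62733585082498689615946544584851456), (nat_lit 21094026943910034324907254895083520), (nat_lit 0), (nat_lit 0), (nat_lit 1446876750359959258353104830070784), (nat_lit 15746071662480190965866063135244288), (nat_lit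 66975551787154279365565426736037888), (nat_lit 80424918065622668746096277377253376), (nat_lit 25701725736600187509343177219768320), (nat_lit 0), (nat_lit 0), (nat_lit 11259064105425486217843300374675456), (nat_lit 69427771601424280979721003097653248), (nat_lit 80424918065622668746096277377253376), (nat_lit 49909145936145494412896563231719424), (nat_lit 0), (nat_lit 0), (nat_lit 34980759013812674914884577866547200), (nat_lit 62733585082498689615946544584851456), (nat_lit 25701725736600187509343177219768320), (nat_lit 0), (nat_lit 0), (nat_lit 73861050275293107502553318956204032), (nat_lit 21094026943910034324907254895083520), (nat_lit 0), (nat_lit 0), (nat_lit 26596281468057084762184039595507712), (nat_lit 0), (nat_lit 0), (nat_lit 0), (nat_lit 0), (nat_lit 0), (nat_lit 2095230836906382242898518413934592), (nat_lit 11990309699620455024518895335636992), (nat_lit 27213608856120029334814171645083648), (nat_lit 66102350838006440043205899407327232), (nat_lit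 26596281468057084762184039595507712), (nat_lit 0), (nat_lit 0), (nat_lit 2095230836906382242898518413934592), (nat_lit 8727197887138125106369890783068160), (nat_lit 38440666659878787074525790876991488), (nat_lit 61550691365455361125071775542018048), (nat_lit 18264041879335211232804045431242752), (nat_lit 0), (nat_lit 0), (nat_lit 11990309699620455024518895335636992), (nat_lit 38440666659878787074525790876991488), (nat_lit 64735798158136763034646554236420096), (nat_lit 23614805616898103220892522908745728), (nat_lit 0), (nat_lit 0), (nat_lit 27213608856120029334814171645083648), (nat_lit 61550691365455361125071775542018048), (nat_lit 23614805616898103220892522908745728), (nat_lit 0), (nat_lit 0), (nat_lit 66102350838006440043205899407327232), (nat_lit 18264041879335211232804045431242752), (nat_lit 0), (nat_lit 0), (nat_lit 26596281468057084762184039595507712), (nat_lit 0), (nat_lit 0), (nat_lit 0), (nat_lit 0), (nat_lit 0), (nat_lit 1936249348962702484545994953326592),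 (nat_lit 5571590136520568920929144296964096), (nat_lit 10210892362686663878720572039888896), (nat_lit 14933267167960163038427692287393792), (nat_lit 28266015128656486240017912900354048), (nat_lit 0), (nat_lit 0), (nat_lit 5571590136520568920929144296964096), (nat_lit 19578358060901119095753804705955840), (nat_lit 49623601449714309396573538624733184), (nat_lit 17179104328625352243046203671969792), (nat_lit 0), (nat_lit 0), (nat_lit 10210892362686663878720572039888896), (nat_lit 49623601449714309396573538624733184), (nat_lit 17191102653566429062841068456771584), (nat_lit 0), (nat_lit 0), (nat_lit 14933267167960163038427692287393792), (nat_lit 17179104328625352243046203671969792), (nat_lit 0), (nat_lit 0), (nat_lit 28266015128656486240017912900354048), (nat_lit 0), (nat_lit 0), (nat_lit 0), (nat_lit 0), (nat_lit 0), (nat_lit 4170141418882642536058622182424576), (nat_lit 17566673911081210103780376708120576), (nat_lit 12779386240225529523267431745716224),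 (nat_lit 5077039350393258466700208019341312), (nat_lit 0), (nat_lit 0), (nat_lit 17566673911081210103780376708120576), (nat_lit 23704202962686517157247584506478592), (nat_lit 16348222677415602568976898566651904), (nat_lit 0), (nat_lit 0), (nat_lit 12779386240225529523267431745716224), (nat_lit 16348222677415602568976898566651904), (nat_lit 0), (nat_lit 0), (nat_lit 5077039350393258466700208019341312), (nat_lit 0), (nat_lit 0), (nat_lit 0), (nat_lit 0), (nat_lit 0), (nat_lit 2946835483687255799354126789246976), (nat_lit 13740034555752654911455447713054720), (nat_lit 3165067436911905324468088300634112), (nat_lit 0), (nat_lit 0), (nat_lit 13740034555752654911455447713054720), (nat_lit 3505504948021139736566282493886464), (nat_lit 0), (nat_lit 0), (nat_lit 3165067436911905324468088300634112), (nat_lit 0), (nat_lit 0), (nat_lit 0), (nat_lit 0), (nat_lit 0), (nat_lit 5216759397481387291827652387667968), (nat_lit 5379688343161541790212226337996800), (nat_lit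 0), (nat_lit 0), (nat_lit 5379688343161541790212226337996800), (nat_lit 0), (nat_lit 0), (nat_lit 0), (nat_lit 0), (nat_lit 0), (nat_lit 1541913322740312906285538672115712), (nat_lit 0), (nat_lit 0), (nat_lit 0), (nat_lit 0), (nat_lit 0), (nat_lit 0), (nat_lit 0), (nat_lit 0), (nat_lit 0)]


def lP11_0 : List (T ℤ) := [(P (nat_lit 0)), (P (nat_lit 0)), (P (nat_lit 0)), (P (nat_lit 0)), (P (nat_lit 0)), (P (nat_lit 0)), (P (nat_lit 0)), (P (nat_lit 0))]
def lP11_1 : List (T ℤ) := [(P (nat_lit 0)), (P (nat_lit 0)), (P (nat_lit 0)), (P (nat_lit 0)), (P (nat_lit 0)), (P (nat_lit 0)), (P (nat_lit 0)), (P (nat_lit 0))]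
def lP11_2 : List (T ℤ) := [(P (nat_lit 0)), (M (nat_lit 4410501400340933843783516159999)), (P (nat_lit 0)), (P (nat_lit 0)), (T.h (T.h (T.h (P (nat_lit 0)) (T.h (M (nat_lit 13616060523248372760361041919)) (T.h (P (nat_lit 0)) (T.h (P (nat_lit 25248286323423985008640)) (T.h (P (nat_lit 0)) (P (nat_lit 97560360966946816))))))) (T.h (P (nat_lit 0)) (T.h (T.h (P (nat_lit 0)) (T.h (M (nat_lit 1018639444731261616127)) (T.h (P (nat_lit 0)) (P (nat_lit 21287966337204224))))) (T.h (P (nat_lit 0)) (T.h (T.h (P (nat_lit 0)) (M (nat_lit 3105598149197823))) (P (nat_lit 0))))))) (T.h (T.h (P (nat_lit 0)) (T.h (T.h (P (nat_lit 988941334891427054747648)) (T.h (P (nat_lit 0)) (T.h (P (nat_lit 21892392839739867136)) (T.h (P (nat_lit 0)) (P (nat_lit 43087163693056)))))) (T.h (P (nat_lit 0)) (T.h (T.h (P (nat_lit 4289571691257921536)) (T.h (P (nat_lit 0)) (P (nat_lit 6954812085344)))) (T.h (P (nat_lit 0)) (M (nat_lit 1780149283047))))))) (T.h (T.h (T.h (P (nat_lit 0))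 (T.h (P (nat_lit 267052711276420530176)) (T.h (P (nat_lit 0)) (P (nat_lit 29095574034907136))))) (T.h (P (nat_lit 0)) (T.h (T.h (P (nat_lit 0)) (M (nat_lit 15203226427064319))) (P (nat_lit 0))))) (T.h (T.h (P (nat_lit 0)) (T.h (T.h (P (nat_lit 2589773294710292480)) (T.h (P (nat_lit 0)) (P (nat_lit 14981556922784)))) (T.h (P (nat_lit 0)) (M (nat_lit 10560971751551))))) (T.h (T.h (T.h (P (nat_lit 0)) (M (nat_lit 1271887051128831))) (P (nat_lit 0))) (T.h (T.h (P (nat_lit 0)) (M (nat_lit 3269161860247))) (P (nat_lit 0)))))))), (T.h (T.h (T.h (P (nat_lit 8381838962715691754272839434240)) (T.h (P (nat_lit 0)) (T.h (M (nat_lit 24966769086201063159103487)) (T.h (P (nat_lit 0)) (T.h (M (nat_lit 91567307508984840191)) (T.h (P (nat_lit 0)) (M (nat_lit 9234645211199)))))))) (T.h (P (nat_lit 0)) (T.h (T.h (P (nat_lit 94354545371969910472704)) (T.h (P (nat_lit 0)) (T.h (P (nat_lit 8545227737994887168)) (T.h (P (nat_lit 0)) (P (nat_lit 28106565702272)))))) (T.h (P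 (nat_lit 0)) (T.h (T.h (M (nat_lit 1002665088554893311)) (T.h (P (nat_lit 0)) (M (nat_lit 15443532767759)))) (T.h (P (nat_lit 0)) (M (nat_lit 165424305583)))))))) (T.h (T.h (P (nat_lit 0)) (T.h (T.h (P (nat_lit 0)) (T.h (P (nat_lit 5306139762653476683776)) (T.h (P (nat_lit 0)) (M (nat_lit 8154054174244863))))) (T.h (P (nat_lit 0)) (T.h (T.h (P (nat_lit 0)) (M (nat_lit 21171082134913023))) (P (nat_lit 0)))))) (T.h (T.h (T.h (P (nat_lit 94354545371969910472704)) (T.h (P (nat_lit 0)) (T.h (P (nat_lit 8545227737994887168)) (T.h (P (nat_lit 0)) (P (nat_lit 28106565702272)))))) (T.h (P (nat_lit 0)) (T.h (T.h (P (nat_lit 8284172608572751872)) (T.h (P (nat_lit 0)) (P (nat_lit 35413500645568)))) (T.h (P (nat_lit 0)) (M (nat_lit 4239509951935)))))) (T.h (T.h (P (nat_lit 0)) (T.h (T.h (P (nat_lit 0)) (M (nat_lit 21171082134913023))) (P (nat_lit 0)))) (T.h (T.h (T.h (M (nat_lit 1002665088554893311)) (T.h (P (nat_lit 0)) (M (nat_lit 15443532767759)))) (T.h (P (nat_lit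 0)) (M (nat_lit 4239509951935)))) (T.h (P (nat_lit 0)) (M (nat_lit 165424305583)))))))), (T.h (T.h (T.h (P (nat_lit 0)) (T.h (P (nat_lit 19513362596848012897021853696)) (T.h (P (nat_lit 0)) (T.h (M (nat_lit 63987633135800041865215)) (T.h (P (nat_lit 0)) (M (nat_lit 81349603584901119))))))) (T.h (P (nat_lit 0)) (T.h (T.h (P (nat_lit 0)) (T.h (P (nat_lit 4107924079950048526336)) (T.h (P (nat_lit 0)) (M (nat_lit 85837983571574783))))) (T.h (P (nat_lit 0)) (T.h (T.h (P (nat_lit 0)) (M (nat_lit 1307171908157439))) (P (nat_lit 0))))))) (T.h (T.h (P (nat_lit 0)) (T.h (T.h (M (nat_lit 1375602425031345005658111)) (T.h (P (nat_lit 0)) (T.h (M (nat_lit 65383704587684282367)) (T.h (P (nat_lit 0)) (M (nat_lit 43087163693055)))))) (T.h (P (nat_lit 0)) (T.h (T.h (M (nat_lit 8805342538014654463)) (T.h (P (nat_lit 0)) (M (nat_lit 10968184504063)))) (T.h (P (nat_lit 0)) (P (nat_lit 2524655571648))))))) (T.h (T.h (T.h (P (nat_lit 0)) (T.h (P (nat_lit 7063357461541198757888))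 (T.h (P (nat_lit 0)) (M (nat_lit 48131822609170431))))) (T.h (P (nat_lit 0)) (T.h (T.h (P (nat_lit 0)) (M (nat_lit 5518730472980479))) (P (nat_lit 0))))) (T.h (T.h (P (nat_lit 0)) (T.h (T.h (P (nat_lit 2413284188405891072)) (T.h (P (nat_lit 0)) (M (nat_lit 10968184504063)))) (T.h (P (nat_lit 0)) (P (nat_lit 10560971751552))))) (T.h (T.h (T.h (P (nat_lit 0)) (P (nat_lit 14876198407176192))) (P (nat_lit 0))) (T.h (T.h (P (nat_lit 0)) (P (nat_lit 2524655571648))) (P (nat_lit 0)))))))), (T.h (T.h (T.h (M (nat_lit 3022801708362945769365684879359)) (T.h (P (nat_lit 0)) (T.h (P (nat_lit 35228165051076154056769536)) (T.h (P (nat_lit 0)) (T.h (P (nat_lit 72859096151933059072)) (T.h (P (nat_lit 0)) (P (nat_lit 14511582942912)))))))) (T.h (P (nat_lit 0)) (T.h (T.h (M (nat_lit 866842690526014188027903)) (T.h (P (nat_lit 0)) (T.h (P (nat_lit 33338568917978710016)) (T.h (P (nat_lit 0)) (M (nat_lit 56118708733823)))))) (T.h (P (nat_lit 0)) (T.h (T.h (M (nat_lit 2198064352563560447))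 (T.h (P (nat_lit 0)) (P (nat_lit 12342157505568)))) (T.h (P (nat_lit 0)) (P (nat_lit 742147470768)))))))) (T.h (T.h (P (nat_lit 0)) (T.h (T.h (P (nat_lit 0)) (T.h (P (nat_lit 9132112169328112041984)) (T.h (P (nat_lit 0)) (M (nat_lit 33744048614539263))))) (T.h (P (nat_lit 0)) (T.h (T.h (P (nat_lit 0)) (P (nat_lit 6924341569585152))) (P (nat_lit 0)))))) (T.h (T.h (T.h (M (nat_lit 866842690526014188027903)) (T.h (P (nat_lit 0)) (T.h (P (nat_lit 33338568917978710016)) (T.h (P (nat_lit 0)) (M (nat_lit 56118708733823)))))) (T.h (P (nat_lit 0)) (T.h (T.h (M (nat_lit 80235081309880319)) (T.h (P (nat_lit 0)) (M (nat_lit 55649786596799)))) (T.h (P (nat_lit 0)) (P (nat_lit 7551023902224)))))) (T.h (T.h (P (nat_lit 0)) (T.h (T.h (P (nat_lit 0)) (P (nat_lit 6924341569585152))) (P (nat_lit 0)))) (T.h (T.h (T.h (M (nat_lit 2198064352563560447)) (T.h (P (nat_lit 0)) (P (nat_lit 12342157505568)))) (T.h (P (nat_lit 0)) (P (nat_lit 7551023902224)))) (T.h (P (nat_lit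 0)) (P (nat_lit 742147470768))))))))]
def lP11_3 : List (T ℤ) := [(T.h (T.h (T.h (P (nat_lit 0)) (T.h (M (nat_lit 5897302073599640136660811775)) (T.h (P (nat_lit 0)) (T.h (P (nat_lit 38739346812376056856576)) (T.h (P (nat_lit 0)) (M (nat_lit 16210757382045695))))))) (T.h (P (nat_lit 0)) (T.h (T.h (P (nat_lit 0)) (T.h (M (nat_lit 5209847404018203099135)) (T.h (P (nat_lit 0)) (P (nat_lit 41793132904316928))))) (T.h (P (nat_lit 0)) (T.h (T.h (P (nat_lit 0)) (M (nat_lit 4595770649346047))) (P (nat_lit 0))))))) (T.h (T.h (P (nat_lit 0)) (T.h (T.h (P (nat_lit 386661090139917950910464)) (T.h (P (nat_lit 0)) (P (nat_lit 43491311747944415232)))) (T.h (P (nat_lit 0)) (M (nat_lit 243643318179725311))))) (T.h (T.h (T.h (P (nat_lit 0)) (T.h (M (nat_lit 5209847404018203099135)) (T.h (P (nat_lit 0)) (P (nat_lit 41793132904316928))))) (T.h (P (nat_lit 0)) (T.h (T.h (P (nat_lit 0)) (P (nat_lit 20721956900044800))) (P (nat_lit 0))))) (T.h (T.h (P (nat_lit 0)) (M (nat_lit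 243643318179725311))) (T.h (T.h (T.h (P (nat_lit 0)) (M (nat_lit 4595770649346047))) (P (nat_lit 0))) (P (nat_lit 0))))))), (P (nat_lit 0)), (P (nat_lit 0)), (T.h (T.h (P (nat_lit 0)) (T.h (T.h (P (nat_lit 13204927875378715774934843392)) (T.h (P (nat_lit 0)) (T.h (P (nat_lit 13539892843789789691904)) (T.h (P (nat_lit 0)) (M (nat_lit 11870878074175487)))))) (T.h (P (nat_lit 0)) (T.h (T.h (M (nat_lit 590497161174321201151)) (T.h (P (nat_lit 0)) (M (nat_lit 27032684399165439)))) (T.h (P (nat_lit 0)) (M (nat_lit 17312308370309119))))))) (T.h (T.h (T.h (P (nat_lit 0)) (T.h (M (nat_lit 122639602115953821745151)) (T.h (P (nat_lit 0)) (T.h (P (nat_lit 23265789879055810560)) (T.h (P (nat_lit 0)) (M (nat_lit 36276789813271))))))) (T.h (P (nat_lit 0)) (T.h (T.h (P (nat_lit 0)) (T.h (P (nat_lit 17277838074277003264)) (T.h (P (nat_lit 0)) (M (nat_lit 33347038321839))))) (T.h (P (nat_lit 0)) (T.h (T.h (P (nat_lit 0)) (M (nat_lit 26065790100687))) (P (nat_lit 0)))))))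 (T.h (T.h (P (nat_lit 0)) (T.h (T.h (P (nat_lit 3282297356631899373568)) (T.h (P (nat_lit 0)) (M (nat_lit 21109903815409663)))) (T.h (P (nat_lit 0)) (M (nat_lit 7315163158740991))))) (T.h (T.h (T.h (P (nat_lit 0)) (T.h (P (nat_lit 2240755757060456448)) (T.h (P (nat_lit 0)) (M (nat_lit 20913852849103))))) (T.h (P (nat_lit 0)) (T.h (T.h (P (nat_lit 0)) (M (nat_lit 4134781533415))) (P (nat_lit 0))))) (T.h (T.h (P (nat_lit 0)) (M (nat_lit 2513831367540735))) (T.h (T.h (T.h (P (nat_lit 0)) (M (nat_lit 3482561271999))) (P (nat_lit 0))) (P (nat_lit 0)))))))), (T.h (T.h (P (nat_lit 0)) (T.h (T.h (P (nat_lit 0)) (T.h (M (nat_lit 3746786908111961168281599)) (T.h (P (nat_lit 0)) (T.h (P (nat_lit 150605351395472179200)) (T.h (P (nat_lit 0)) (P (nat_lit 126624751875824))))))) (T.h (P (nat_lit 0)) (T.h (T.h (P (nat_lit 0)) (T.h (P (nat_lit 21421683604952449024)) (T.h (P (nat_lit 0)) (M (nat_lit 29896136530671))))) (T.h (P (nat_lit 0)) (T.h (T.h (P (nat_lit 0)) (P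 (nat_lit 7351350546784))) (P (nat_lit 0)))))))) (T.h (T.h (T.h (P (nat_lit 825243808494547520458850304)) (T.h (P (nat_lit 0)) (T.h (M (nat_lit 26344594233526511992831)) (T.h (P (nat_lit 0)) (M (nat_lit 391640158868422655)))))) (T.h (P (nat_lit 0)) (T.h (T.h (M (nat_lit 4538456619322401882111)) (T.h (P (nat_lit 0)) (M (nat_lit 9636131581935615)))) (T.h (P (nat_lit 0)) (P (nat_lit 1673160524251136)))))) (T.h (T.h (P (nat_lit 0)) (T.h (T.h (P (nat_lit 0)) (T.h (P (nat_lit 6725667058576523264)) (T.h (P (nat_lit 0)) (P (nat_lit 20853968390928))))) (T.h (P (nat_lit 0)) (T.h (T.h (P (nat_lit 0)) (M (nat_lit 4256921589567))) (P (nat_lit 0)))))) (T.h (T.h (T.h (P (nat_lit 452590592553853648896)) (T.h (P (nat_lit 0)) (M (nat_lit 39437525538734079)))) (T.h (P (nat_lit 0)) (M (nat_lit 18297077188886527)))) (T.h (T.h (P (nat_lit 0)) (T.h (T.h (P (nat_lit 0)) (M (nat_lit 14115448294655))) (P (nat_lit 0)))) (P (nat_lit 2367037161553920))))))), (T.h (T.h (P (nat_lit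 0)) (T.h (T.h (M (nat_lit 11148306687387311073933656063)) (T.h (P (nat_lit 0)) (T.h (M (nat_lit 42457184328535899111423)) (T.h (P (nat_lit 0)) (P (nat_lit 107454521002655744)))))) (T.h (P (nat_lit 0)) (T.h (T.h (P (nat_lit 9990154410232597446656)) (T.h (P (nat_lit 0)) (P (nat_lit 177198910576820224)))) (T.h (P (nat_lit 0)) (P (nat_lit 15339279740928000))))))) (T.h (T.h (T.h (P (nat_lit 0)) (T.h (P (nat_lit 6837049029011826800590848)) (T.h (P (nat_lit 0)) (T.h (P (nat_lit 198712546212878221312)) (T.h (P (nat_lit 0)) (M (nat_lit 519960225386687))))))) (T.h (P (nat_lit 0)) (T.h (T.h (P (nat_lit 0)) (T.h (P (nat_lit 59282405974557589504)) (T.h (P (nat_lit 0)) (M (nat_lit 50830335485887))))) (T.h (P (nat_lit 0)) (T.h (T.h (P (nat_lit 0)) (P (nat_lit 30400262961600))) (P (nat_lit 0))))))) (T.h (T.h (P (nat_lit 0)) (T.h (T.h (M (nat_lit 10168343157988999036927)) (T.h (P (nat_lit 0)) (P (nat_lit 138485348847714304)))) (T.h (P (nat_lit 0)) (P (nat_lit 15342922548215808)))))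 (T.h (T.h (T.h (P (nat_lit 0)) (T.h (P (nat_lit 1303559475084394496)) (T.h (P (nat_lit 0)) (P (nat_lit 62827191098304))))) (T.h (P (nat_lit 0)) (T.h (T.h (P (nat_lit 0)) (M (nat_lit 8555555049535))) (P (nat_lit 0))))) (T.h (T.h (P (nat_lit 0)) (P (nat_lit 11197351691255808))) (T.h (T.h (T.h (P (nat_lit 0)) (P (nat_lit 5360624420992))) (P (nat_lit 0))) (P (nat_lit 0)))))))), (T.h (T.h (P (nat_lit 0)) (T.h (T.h (P (nat_lit 0)) (T.h (P (nat_lit 20370376071632726442115072)) (T.h (P (nat_lit 0)) (T.h (M (nat_lit 74258750209269956607)) (T.h (P (nat_lit 0)) (M (nat_lit 430642633814447))))))) (T.h (P (nat_lit 0)) (T.h (T.h (P (nat_lit 0)) (T.h (M (nat_lit 14468998367255986175)) (T.h (P (nat_lit 0)) (P (nat_lit 847315013424))))) (T.h (P (nat_lit 0)) (T.h (T.h (P (nat_lit 0)) (M (nat_lit 6662556455103))) (P (nat_lit 0)))))))) (T.h (T.h (T.h (P (nat_lit 994755837398416160144228352)) (T.h (P (nat_lit 0)) (T.h (P (nat_lit 62873011426048620888064)) (T.h (P (nat_lit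 0)) (P (nat_lit 866541895063420928)))))) (T.h (P (nat_lit 0)) (T.h (T.h (P (nat_lit 385848081155304194048)) (T.h (P (nat_lit 0)) (P (nat_lit 102840527015788544)))) (T.h (P (nat_lit 0)) (M (nat_lit 26168110165688319)))))) (T.h (T.h (P (nat_lit 0)) (T.h (T.h (P (nat_lit 0)) (T.h (M (nat_lit 52736164427403886591)) (T.h (P (nat_lit 0)) (M (nat_lit 64739948756207))))) (T.h (P (nat_lit 0)) (T.h (T.h (P (nat_lit 0)) (P (nat_lit 238877194160))) (P (nat_lit 0)))))) (T.h (T.h (T.h (P (nat_lit 1627259457768127463424)) (T.h (P (nat_lit 0)) (P (nat_lit 40138936817926144)))) (T.h (P (nat_lit 0)) (P (nat_lit 1901487044935680)))) (T.h (T.h (P (nat_lit 0)) (T.h (T.h (P (nat_lit 0)) (P (nat_lit 37730281781984))) (P (nat_lit 0)))) (M (nat_lit 1438415993520127))))))), (T.h (T.h (P (nat_lit 0)) (T.h (T.h (M (nat_lit 3849283284899336926831575039)) (T.h (P (nat_lit 0)) (T.h (M (nat_lit 7915433807328952975359)) (T.h (P (nat_lit 0)) (P (nat_lit 421785709203062784)))))) (T.h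 (P (nat_lit 0)) (T.h (T.h (M (nat_lit 2169209033493156200447)) (T.h (P (nat_lit 0)) (M (nat_lit 9664805248008191)))) (T.h (P (nat_lit 0)) (P (nat_lit 411400681750528))))))) (T.h (T.h (T.h (P (nat_lit 0)) (T.h (M (nat_lit 8685767576524368306503679)) (T.h (P (nat_lit 0)) (M (nat_lit 126973145165437337599))))) (T.h (P (nat_lit 0)) (T.h (T.h (P (nat_lit 0)) (M (nat_lit 21352153951422644223))) (P (nat_lit 0))))) (T.h (T.h (P (nat_lit 0)) (T.h (T.h (M (nat_lit 318127756473987497983)) (T.h (P (nat_lit 0)) (P (nat_lit 56882161005330432)))) (T.h (P (nat_lit 0)) (M (nat_lit 5667928027332607))))) (T.h (T.h (T.h (P (nat_lit 0)) (M (nat_lit 32111403715541336063))) (P (nat_lit 0))) (T.h (T.h (P (nat_lit 0)) (M (nat_lit 9836419181182975))) (P (nat_lit 0)))))))]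
def lP11_4 : List (T ℤ) := [(P (nat_lit 0)), (P (nat_lit 0)), (T.h (T.h (T.h (P (nat_lit 0)) (T.h (M (nat_lit 12684840511315129229494976511)) (T.h (P (nat_lit 0)) (T.h (M (nat_lit 53016593064264569192447)) (T.h (P (nat_lit 0)) (P (nat_lit 2782105205997568))))))) (T.h (P (nat_lit 0)) (T.h (T.h (P (nat_lit 0)) (T.h (P (nat_lit 4077642440654830174208)) (T.h (P (nat_lit 0)) (P (nat_lit 42281672534786048))))) (T.h (P (nat_lit 0)) (T.h (T.h (P (nat_lit 0)) (M (nat_lit 4290026769317887))) (P (nat_lit 0))))))) (T.h (T.h (P (nat_lit 0)) (T.h (T.h (P (nat_lit 1387203145980497050468352)) (T.h (P (nat_lit 0)) (T.h (P (nat_lit 7509937226516529152)) (T.h (P (nat_lit 0)) (M (nat_lit 18001481031807)))))) (T.h (P (nat_lit 0)) (T.h (T.h (P (nat_lit 5129996790287826944)) (T.h (P (nat_lit 0)) (P (nat_lit 80491955580040)))) (T.h (P (nat_lit 0)) (M (nat_lit 5667384178967))))))) (T.h (T.h (T.h (P (nat_lit 0)) (T.h (M (nat_lit 7879741752788425637887)) (T.h (P (nat_lit 0))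 (M (nat_lit 7310596866047999))))) (T.h (P (nat_lit 0)) (T.h (T.h (P (nat_lit 0)) (P (nat_lit 3910183346012160))) (P (nat_lit 0))))) (T.h (T.h (P (nat_lit 0)) (T.h (T.h (M (nat_lit 3278463469824770047)) (T.h (P (nat_lit 0)) (M (nat_lit 24712533350719)))) (T.h (P (nat_lit 0)) (P (nat_lit 5615599430704))))) (T.h (T.h (T.h (P (nat_lit 0)) (P (nat_lit 9953376213958656))) (P (nat_lit 0))) (T.h (T.h (P (nat_lit 0)) (P (nat_lit 15368633917056))) (P (nat_lit 0)))))))), (T.h (T.h (T.h (P (nat_lit 15172213786557349686731121623040)) (T.h (P (nat_lit 0)) (T.h (P (nat_lit 21374983709252717796917248)) (T.h (P (nat_lit 0)) (T.h (M (nat_lit 47365347442010619903)) (T.h (P (nat_lit 0)) (P (nat_lit 63359498543120)))))))) (T.h (P (nat_lit 0)) (T.h (T.h (M (nat_lit 18264153611699954183569407)) (T.h (P (nat_lit 0)) (T.h (M (nat_lit 32579711267497836543)) (T.h (P (nat_lit 0)) (P (nat_lit 439341944415168)))))) (T.h (P (nat_lit 0)) (T.h (T.h (M (nat_lit 8776527609941983231))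 (T.h (P (nat_lit 0)) (M (nat_lit 25450372979775)))) (T.h (P (nat_lit 0)) (P (nat_lit 7181325551792)))))))) (T.h (T.h (P (nat_lit 0)) (T.h (T.h (P (nat_lit 0)) (T.h (P (nat_lit 2070260029915047919616)) (T.h (P (nat_lit 0)) (P (nat_lit 184625113980796928))))) (T.h (P (nat_lit 0)) (T.h (T.h (P (nat_lit 0)) (M (nat_lit 56295723824119807))) (P (nat_lit 0)))))) (T.h (T.h (T.h (M (nat_lit 1210949200232913911676927)) (T.h (P (nat_lit 0)) (T.h (P (nat_lit 104816937201435672576)) (T.h (P (nat_lit 0)) (P (nat_lit 65805890694080)))))) (T.h (P (nat_lit 0)) (T.h (T.h (M (nat_lit 1443524170846568447)) (T.h (P (nat_lit 0)) (M (nat_lit 2428238407215)))) (T.h (P (nat_lit 0)) (P (nat_lit 7834943220656)))))) (T.h (T.h (P (nat_lit 0)) (T.h (T.h (P (nat_lit 0)) (P (nat_lit 71083122527076352))) (P (nat_lit 0)))) (T.h (T.h (T.h (M (nat_lit 1640313288946352127)) (T.h (P (nat_lit 0)) (M (nat_lit 27352561037247)))) (T.h (P (nat_lit 0)) (P (nat_lit 7778266412928)))) (T.h (P (nat_lit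 0)) (M (nat_lit 2258787755471)))))))), (T.h (T.h (T.h (P (nat_lit 0)) (T.h (P (nat_lit 556240270776678431303139328)) (T.h (P (nat_lit 0)) (T.h (M (nat_lit 106146170585502539841535)) (T.h (P (nat_lit 0)) (P (nat_lit 294432181340930048))))))) (T.h (P (nat_lit 0)) (T.h (T.h (P (nat_lit 0)) (T.h (M (nat_lit 22709465110943195201535)) (T.h (P (nat_lit 0)) (P (nat_lit 97128441095356416))))) (T.h (P (nat_lit 0)) (T.h (T.h (P (nat_lit 0)) (M (nat_lit 81212293442699263))) (P (nat_lit 0))))))) (T.h (T.h (P (nat_lit 0)) (T.h (T.h (M (nat_lit 33674519128823394065186815)) (T.h (P (nat_lit 0)) (T.h (P (nat_lit 56544454345603678208)) (T.h (P (nat_lit 0)) (M (nat_lit 46655458843455)))))) (T.h (P (nat_lit 0)) (T.h (T.h (M (nat_lit 1924344881111629823)) (T.h (P (nat_lit 0)) (P (nat_lit 82499058864512)))) (T.h (P (nat_lit 0)) (M (nat_lit 26922678205119))))))) (T.h (T.h (T.h (P (nat_lit 0)) (T.h (M (nat_lit 29407020964897829683199)) (T.h (P (nat_lit 0)) (P (nat_lit 8952162460336128)))))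 (T.h (P (nat_lit 0)) (T.h (T.h (P (nat_lit 0)) (M (nat_lit 23264011617468415))) (P (nat_lit 0))))) (T.h (T.h (P (nat_lit 0)) (T.h (T.h (P (nat_lit 19058927348914061312)) (T.h (P (nat_lit 0)) (P (nat_lit 86144119924352)))) (T.h (P (nat_lit 0)) (M (nat_lit 52855227214911))))) (T.h (T.h (T.h (P (nat_lit 0)) (M (nat_lit 37480698153926655))) (P (nat_lit 0))) (T.h (T.h (P (nat_lit 0)) (M (nat_lit 13089198389183))) (P (nat_lit 0)))))))), (T.h (T.h (T.h (P (nat_lit 1125191178323626060599525376000)) (T.h (P (nat_lit 0)) (T.h (M (nat_lit 46278492287481778855215103)) (T.h (P (nat_lit 0)) (T.h (M (nat_lit 156129275264035192831)) (T.h (P (nat_lit 0)) (P (nat_lit 130481994932784)))))))) (T.h (P (nat_lit 0)) (T.h (T.h (P (nat_lit 12526376508625760402014208)) (T.h (P (nat_lit 0)) (T.h (M (nat_lit 267369536469543682047)) (T.h (P (nat_lit 0)) (P (nat_lit 78162321228816)))))) (T.h (P (nat_lit 0)) (T.h (T.h (M (nat_lit 9306149800544043007)) (T.h (P (nat_lit 0)) (P (nat_lit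 129681242717312)))) (T.h (P (nat_lit 0)) (P (nat_lit 1586148909312)))))))) (T.h (T.h (P (nat_lit 0)) (T.h (T.h (P (nat_lit 0)) (T.h (M (nat_lit 56440631814495246745599)) (T.h (P (nat_lit 0)) (P (nat_lit 297687919684386816))))) (T.h (P (nat_lit 0)) (T.h (T.h (P (nat_lit 0)) (M (nat_lit 11779929606979583))) (P (nat_lit 0)))))) (T.h (T.h (T.h (P (nat_lit 5767003101391923837927424)) (T.h (P (nat_lit 0)) (T.h (M (nat_lit 217516683191390306303)) (T.h (P (nat_lit 0)) (P (nat_lit 33231154151888)))))) (T.h (P (nat_lit 0)) (T.h (T.h (P (nat_lit 1877110365234397184)) (T.h (P (nat_lit 0)) (P (nat_lit 109922351265936)))) (T.h (P (nat_lit 0)) (M (nat_lit 52667779269951)))))) (T.h (T.h (P (nat_lit 0)) (T.h (T.h (P (nat_lit 0)) (M (nat_lit 115810020998676479))) (P (nat_lit 0)))) (T.h (T.h (T.h (P (nat_lit 2169328327335084032)) (T.h (P (nat_lit 0)) (M (nat_lit 17832029004943)))) (T.h (P (nat_lit 0)) (M (nat_lit 49126568938831)))) (T.h (P (nat_lit 0)) (P (nat_lit 3821769693456)))))))),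 (T.h (T.h (T.h (P (nat_lit 0)) (T.h (P (nat_lit 3166846873336167602856132608)) (T.h (P (nat_lit 0)) (T.h (M (nat_lit 14344602706940511911935)) (T.h (P (nat_lit 0)) (M (nat_lit 65582421789278207))))))) (T.h (P (nat_lit 0)) (T.h (T.h (P (nat_lit 0)) (T.h (P (nat_lit 54548994911447583555584)) (T.h (P (nat_lit 0)) (M (nat_lit 58682876268085247))))) (T.h (P (nat_lit 0)) (T.h (T.h (P (nat_lit 0)) (M (nat_lit 42086344733622271))) (P (nat_lit 0))))))) (T.h (T.h (P (nat_lit 0)) (T.h (T.h (P (nat_lit 9767776142240778154934272)) (T.h (P (nat_lit 0)) (M (nat_lit 145672624222347722751)))) (T.h (P (nat_lit 0)) (M (nat_lit 181177798486917119))))) (T.h (T.h (T.h (P (nat_lit 0)) (T.h (P (nat_lit 35266817870928178839552)) (T.h (P (nat_lit 0)) (M (nat_lit 12694745432686591))))) (T.h (P (nat_lit 0)) (T.h (T.h (P (nat_lit 0)) (M (nat_lit 41064510206017535))) (P (nat_lit 0))))) (T.h (T.h (P (nat_lit 0)) (P (nat_lit 11252920928419446784))) (T.h (T.h (T.h (P (nat_lit 0)) (M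 (nat_lit 384693298659327))) (P (nat_lit 0))) (P (nat_lit 0))))))), (P (nat_lit 0))]
def lP11_5 : List (T ℤ) := [(P (nat_lit 0)), (T.h (T.h (P (nat_lit 0)) (T.h (T.h (P (nat_lit 5685019875831698336482590720)) (T.h (P (nat_lit 0)) (T.h (M (nat_lit 25833449350720953253887)) (T.h (P (nat_lit 0)) (P (nat_lit 68134088225685504)))))) (T.h (P (nat_lit 0)) (T.h (T.h (P (nat_lit 22558137889650198446080)) (T.h (P (nat_lit 0)) (P (nat_lit 51659034939162624)))) (T.h (P (nat_lit 0)) (M (nat_lit 43592615886290943))))))) (T.h (T.h (T.h (P (nat_lit 0)) (T.h (P (nat_lit 4354070054196628359741440)) (T.h (P (nat_lit 0)) (T.h (M (nat_lit 23581198596863688703)) (T.h (P (nat_lit 0)) (M (nat_lit 38572669247583))))))) (T.h (P (nat_lit 0)) (T.h (T.h (P (nat_lit 0)) (T.h (P (nat_lit 54497507742234705920)) (T.h (P (nat_lit 0)) (M (nat_lit 92577900358719))))) (T.h (P (nat_lit 0)) (T.h (T.h (P (nat_lit 0)) (P (nat_lit 27630245357104))) (P (nat_lit 0))))))) (T.h (T.h (P (nat_lit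 0)) (T.h (T.h (P (nat_lit 6175853262312199684096)) (T.h (P (nat_lit 0)) (P (nat_lit 104075782460309504)))) (T.h (P (nat_lit 0)) (M (nat_lit 22392977002594303))))) (T.h (T.h (T.h (P (nat_lit 0)) (T.h (M (nat_lit 7919079678348886015)) (T.h (P (nat_lit 0)) (M (nat_lit 21853032059887))))) (T.h (P (nat_lit 0)) (T.h (T.h (P (nat_lit 0)) (M (nat_lit 26900757114903))) (P (nat_lit 0))))) (T.h (T.h (P (nat_lit 0)) (M (nat_lit 2208110231322623))) (T.h (T.h (T.h (P (nat_lit 0)) (M (nat_lit 16789819801463))) (P (nat_lit 0))) (P (nat_lit 0)))))))), (T.h (T.h (P (nat_lit 0)) (T.h (T.h (P (nat_lit 0)) (T.h (P (nat_lit 70526209065233796783144960)) (T.h (P (nat_lit 0)) (T.h (M (nat_lit 817769225884234940415)) (T.h (P (nat_lit 0)) (P (nat_lit 5629987302560))))))) (T.h (P (nat_lit 0)) (T.h (T.h (P (nat_lit 0)) (T.h (P (nat_lit 23338111321054904320)) (T.h (P (nat_lit 0)) (P (nat_lit 346327786339536))))) (T.h (P (nat_lit 0)) (T.h (T.h (P (nat_lit 0)) (M (nat_lit 20915930440255)))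 (P (nat_lit 0)))))))) (T.h (T.h (T.h (P (nat_lit 497432562566840426191388672)) (T.h (P (nat_lit 0)) (T.h (M (nat_lit 40027040615283331956735)) (T.h (P (nat_lit 0)) (P (nat_lit 36767111433682944)))))) (T.h (P (nat_lit 0)) (T.h (T.h (P (nat_lit 6876364827149293584384)) (T.h (P (nat_lit 0)) (M (nat_lit 145468263997390847)))) (T.h (P (nat_lit 0)) (P (nat_lit 6341612324782080)))))) (T.h (T.h (P (nat_lit 0)) (T.h (T.h (P (nat_lit 0)) (T.h (M (nat_lit 103247090398378590207)) (T.h (P (nat_lit 0)) (M (nat_lit 138743880398239))))) (T.h (P (nat_lit 0)) (T.h (T.h (P (nat_lit 0)) (P (nat_lit 18354663940000))) (P (nat_lit 0)))))) (T.h (T.h (T.h (P (nat_lit 2862054342291145883648)) (T.h (P (nat_lit 0)) (M (nat_lit 37782777461571583)))) (T.h (P (nat_lit 0)) (P (nat_lit 45885516106907648)))) (T.h (T.h (P (nat_lit 0)) (T.h (T.h (P (nat_lit 0)) (P (nat_lit 33481742598912))) (P (nat_lit 0)))) (P (nat_lit 9812205560987648))))))), (T.h (T.h (P (nat_lit 0)) (T.h (T.h (M (nat_lit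 29811794875768097430166306815)) (T.h (P (nat_lit 0)) (T.h (P (nat_lit 506275462163121936793600)) (T.h (P (nat_lit 0)) (M (nat_lit 1512792907138695167)))))) (T.h (P (nat_lit 0)) (T.h (T.h (P (nat_lit 18779666287450602340352)) (T.h (P (nat_lit 0)) (M (nat_lit 125947280191946751)))) (T.h (P (nat_lit 0)) (M (nat_lit 23750232742199295))))))) (T.h (T.h (T.h (P (nat_lit 0)) (T.h (P (nat_lit 23381767355945894354616320)) (T.h (P (nat_lit 0)) (T.h (P (nat_lit 256980490934963666944)) (T.h (P (nat_lit 0)) (P (nat_lit 92390346224128))))))) (T.h (P (nat_lit 0)) (T.h (T.h (P (nat_lit 0)) (T.h (P (nat_lit 41452185600745537536)) (T.h (P (nat_lit 0)) (P (nat_lit 323801007112640))))) (T.h (P (nat_lit 0)) (T.h (T.h (P (nat_lit 0)) (M (nat_lit 135092302434559))) (P (nat_lit 0))))))) (T.h (T.h (P (nat_lit 0)) (T.h (T.h (P (nat_lit 14483498916290326691840)) (T.h (P (nat_lit 0)) (M (nat_lit 163866416494804991)))) (T.h (P (nat_lit 0)) (M (nat_lit 66990179196731391))))) (T.h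 (T.h (T.h (P (nat_lit 0)) (T.h (M (nat_lit 7445068234803380223)) (T.h (P (nat_lit 0)) (M (nat_lit 173328127994111))))) (T.h (P (nat_lit 0)) (T.h (T.h (P (nat_lit 0)) (M (nat_lit 129680774576831))) (P (nat_lit 0))))) (T.h (T.h (P (nat_lit 0)) (M (nat_lit 104316820470300671))) (T.h (T.h (T.h (P (nat_lit 0)) (M (nat_lit 10339465218239))) (P (nat_lit 0))) (P (nat_lit 0)))))))), (T.h (T.h (P (nat_lit 0)) (T.h (T.h (P (nat_lit 0)) (T.h (M (nat_lit 80905210978061627915501567)) (T.h (P (nat_lit 0)) (T.h (P (nat_lit 966498054002410782720)) (T.h (P (nat_lit 0)) (M (nat_lit 202010613196303))))))) (T.h (P (nat_lit 0)) (T.h (T.h (P (nat_lit 0)) (T.h (P (nat_lit 104709661005493305344)) (T.h (P (nat_lit 0)) (M (nat_lit 40807260833679))))) (T.h (P (nat_lit 0)) (T.h (T.h (P (nat_lit 0)) (P (nat_lit 9843633707952))) (P (nat_lit 0)))))))) (T.h (T.h (T.h (P (nat_lit 15233738752004595955919749120)) (T.h (P (nat_lit 0)) (T.h (M (nat_lit 190912665759102877564927)) (T.h (P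 (nat_lit 0)) (M (nat_lit 59401021968924671)))))) (T.h (P (nat_lit 0)) (T.h (T.h (M (nat_lit 50588246820526462337023)) (T.h (P (nat_lit 0)) (M (nat_lit 481125668614946815)))) (T.h (P (nat_lit 0)) (P (nat_lit 37657315048210432)))))) (T.h (T.h (P (nat_lit 0)) (T.h (T.h (P (nat_lit 0)) (T.h (P (nat_lit 180384892735593644032)) (T.h (P (nat_lit 0)) (M (nat_lit 160765879742335))))) (T.h (P (nat_lit 0)) (T.h (T.h (P (nat_lit 0)) (M (nat_lit 153951304182895))) (P (nat_lit 0)))))) (T.h (T.h (T.h (M (nat_lit 21694648982052280467455)) (T.h (P (nat_lit 0)) (P (nat_lit 117065434944339968)))) (T.h (P (nat_lit 0)) (P (nat_lit 153507077665947648)))) (T.h (T.h (P (nat_lit 0)) (T.h (T.h (P (nat_lit 0)) (M (nat_lit 46938132056991))) (P (nat_lit 0)))) (M (nat_lit 8026129388699647))))))), (T.h (T.h (P (nat_lit 0)) (T.h (T.h (P (nat_lit 9479945226855203678944493568)) (T.h (P (nat_lit 0)) (T.h (M (nat_lit 252405377024740638588927)) (T.h (P (nat_lit 0)) (P (nat_lit 158948710125174784))))))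 (T.h (P (nat_lit 0)) (T.h (T.h (M (nat_lit 8055960460481364230143)) (T.h (P (nat_lit 0)) (M (nat_lit 73784448161644543)))) (T.h (P (nat_lit 0)) (M (nat_lit 3604578148319231))))))) (T.h (T.h (T.h (P (nat_lit 0)) (T.h (P (nat_lit 68480659706341009634885632)) (T.h (P (nat_lit 0)) (M (nat_lit 76622548805082939391))))) (T.h (P (nat_lit 0)) (T.h (T.h (P (nat_lit 0)) (P (nat_lit 28561419631895511040))) (P (nat_lit 0))))) (T.h (T.h (P (nat_lit 0)) (T.h (T.h (M (nat_lit 15229871120192928481279)) (T.h (P (nat_lit 0)) (P (nat_lit 48863964941058048)))) (T.h (P (nat_lit 0)) (P (nat_lit 67886065340547072))))) (T.h (T.h (T.h (P (nat_lit 0)) (P (nat_lit 11930534835996590080))) (P (nat_lit 0))) (T.h (T.h (P (nat_lit 0)) (P (nat_lit 27031974620561408))) (P (nat_lit 0))))))), (P (nat_lit 0)), (P (nat_lit 0))]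
def lP11_6 : List (T ℤ) := [(T.h (T.h (T.h (P (nat_lit 0)) (T.h (P (nat_lit 5685019875831698336482590720)) (T.h (P (nat_lit 0)) (T.h (P (nat_lit 22558137889650198446080)) (T.h (P (nat_lit 0)) (M (nat_lit 43592615886290943))))))) (T.h (P (nat_lit 0)) (T.h (T.h (P (nat_lit 0)) (T.h (M (nat_lit 25833449350720953253887)) (T.h (P (nat_lit 0)) (P (nat_lit 51659034939162624))))) (T.h (P (nat_lit 0)) (T.h (T.h (P (nat_lit 0)) (P (nat_lit 68134088225685504))) (P (nat_lit 0))))))) (T.h (T.h (P (nat_lit 0)) (T.h (T.h (P (nat_lit 4354070054196628359741440)) (T.h (P (nat_lit 0)) (T.h (P (nat_lit 54497507742234705920)) (T.h (P (nat_lit 0)) (P (nat_lit 27630245357104)))))) (T.h (P (nat_lit 0)) (T.h (T.h (M (nat_lit 23581198596863688703)) (T.h (P (nat_lit 0)) (M (nat_lit 92577900358719)))) (T.h (P (nat_lit 0)) (M (nat_lit 38572669247583))))))) (T.h (T.h (T.h (P (nat_lit 0)) (T.h (P (nat_lit 6175853262312199684096)) (T.h (P (nat_lit 0)) (M (nat_lit 22392977002594303)))))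 (T.h (P (nat_lit 0)) (T.h (T.h (P (nat_lit 0)) (P (nat_lit 104075782460309504))) (P (nat_lit 0))))) (T.h (T.h (P (nat_lit 0)) (T.h (T.h (M (nat_lit 7919079678348886015)) (T.h (P (nat_lit 0)) (M (nat_lit 26900757114903)))) (T.h (P (nat_lit 0)) (M (nat_lit 21853032059887))))) (T.h (T.h (T.h (P (nat_lit 0)) (M (nat_lit 2208110231322623))) (P (nat_lit 0))) (T.h (T.h (P (nat_lit 0)) (M (nat_lit 16789819801463))) (P (nat_lit 0)))))))), (T.h (T.h (T.h (P (nat_lit 22617088506532989352597639921664)) (T.h (P (nat_lit 0)) (T.h (P (nat_lit 8457161709171102583881728)) (T.h (P (nat_lit 0)) (T.h (P (nat_lit 74036933237223194624)) (T.h (P (nat_lit 0)) (M (nat_lit 26207854071903)))))))) (T.h (P (nat_lit 0)) (T.h (T.h (P (nat_lit 8457161709171102583881728)) (T.h (P (nat_lit 0)) (T.h (P (nat_lit 101276404498535809024)) (T.h (P (nat_lit 0)) (M (nat_lit 171985111421919)))))) (T.h (P (nat_lit 0)) (T.h (T.h (P (nat_lit 74036933237223194624)) (T.h (P (nat_lit 0)) (M (nat_lit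 171985111421919)))) (T.h (P (nat_lit 0)) (M (nat_lit 26207854071903)))))))) (T.h (T.h (P (nat_lit 0)) (T.h (T.h (P (nat_lit 0)) (T.h (P (nat_lit 436545863640585823322112)) (T.h (P (nat_lit 0)) (P (nat_lit 231010450467749888))))) (T.h (P (nat_lit 0)) (T.h (T.h (P (nat_lit 0)) (P (nat_lit 231010450467749888))) (P (nat_lit 0)))))) (T.h (T.h (T.h (P (nat_lit 3140137524329456248815616)) (T.h (P (nat_lit 0)) (T.h (P (nat_lit 45458294552150409216)) (T.h (P (nat_lit 0)) (P (nat_lit 15164383117568)))))) (T.h (P (nat_lit 0)) (T.h (T.h (P (nat_lit 45458294552150409216)) (T.h (P (nat_lit 0)) (P (nat_lit 913938109348384)))) (T.h (P (nat_lit 0)) (P (nat_lit 15164383117568)))))) (T.h (T.h (P (nat_lit 0)) (T.h (T.h (P (nat_lit 0)) (M (nat_lit 186331836287156223))) (P (nat_lit 0)))) (T.h (T.h (T.h (M (nat_lit 13734426222065090559)) (T.h (P (nat_lit 0)) (P (nat_lit 18863524992736)))) (T.h (P (nat_lit 0)) (P (nat_lit 18863524992736)))) (T.h (P (nat_lit 0)) (P (nat_lit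 6987571952256)))))))), (T.h (T.h (T.h (P (nat_lit 0)) (T.h (P (nat_lit 46792758968280233293480198144)) (T.h (P (nat_lit 0)) (T.h (P (nat_lit 216971507881601824456704)) (T.h (P (nat_lit 0)) (P (nat_lit 11969581587103744))))))) (T.h (P (nat_lit 0)) (T.h (T.h (P (nat_lit 0)) (T.h (M (nat_lit 125136616968347103264767)) (T.h (P (nat_lit 0)) (M (nat_lit 277069416380858367))))) (T.h (P (nat_lit 0)) (T.h (T.h (P (nat_lit 0)) (P (nat_lit 265822393296289792))) (P (nat_lit 0))))))) (T.h (T.h (P (nat_lit 0)) (T.h (T.h (M (nat_lit 83626387721824454582468607)) (T.h (P (nat_lit 0)) (T.h (M (nat_lit 696900677064655372287)) (T.h (P (nat_lit 0)) (P (nat_lit 265807357753792)))))) (T.h (P (nat_lit 0)) (T.h (T.h (M (nat_lit 94436845230223261695)) (T.h (P (nat_lit 0)) (M (nat_lit 333470482810303)))) (T.h (P (nat_lit 0)) (P (nat_lit 107326841501440))))))) (T.h (T.h (T.h (P (nat_lit 0)) (T.h (M (nat_lit 24332516310276678615039)) (T.h (P (nat_lit 0)) (M (nat_lit 21901407346294783)))))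 (T.h (P (nat_lit 0)) (T.h (T.h (P (nat_lit 0)) (P (nat_lit 122755825063264256))) (P (nat_lit 0))))) (T.h (T.h (P (nat_lit 0)) (T.h (T.h (P (nat_lit 85766246270368743424)) (T.h (P (nat_lit 0)) (P (nat_lit 36848463641664)))) (T.h (P (nat_lit 0)) (P (nat_lit 197314070123200))))) (T.h (T.h (T.h (P (nat_lit 0)) (P (nat_lit 116005186613870592))) (P (nat_lit 0))) (T.h (T.h (P (nat_lit 0)) (P (nat_lit 11420856083328))) (P (nat_lit 0)))))))), (T.h (T.h (T.h (P (nat_lit 90041645070864497468254453760)) (T.h (P (nat_lit 0)) (T.h (M (nat_lit 74297551689310308902371327)) (T.h (P (nat_lit 0)) (T.h (P (nat_lit 336412622550833561600)) (T.h (P (nat_lit 0)) (M (nat_lit 499469368768831)))))))) (T.h (P (nat_lit 0)) (T.h (T.h (M (nat_lit 82978344281189709284114431)) (T.h (P (nat_lit 0)) (T.h (P (nat_lit 185568451651652550656)) (T.h (P (nat_lit 0)) (M (nat_lit 1548465693749039)))))) (T.h (P (nat_lit 0)) (T.h (T.h (M (nat_lit 78420376951661264895)) (T.h (P (nat_lit 0)) (P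 (nat_lit 227616305269056)))) (T.h (P (nat_lit 0)) (M (nat_lit 100380931134879)))))))) (T.h (T.h (P (nat_lit 0)) (T.h (T.h (P (nat_lit 0)) (T.h (M (nat_lit 465666743731333762121727)) (T.h (P (nat_lit 0)) (M (nat_lit 1348142103835803647))))) (T.h (P (nat_lit 0)) (T.h (T.h (P (nat_lit 0)) (P (nat_lit 536079415609098240))) (P (nat_lit 0)))))) (T.h (T.h (T.h (M (nat_lit 9814911570293775350628351)) (T.h (P (nat_lit 0)) (T.h (P (nat_lit 341679502975320457216)) (T.h (P (nat_lit 0)) (M (nat_lit 311887139930959)))))) (T.h (P (nat_lit 0)) (T.h (T.h (M (nat_lit 99246207615725731839)) (T.h (P (nat_lit 0)) (M (nat_lit 1201170315836127)))) (T.h (P (nat_lit 0)) (P (nat_lit 211605099716560)))))) (T.h (T.h (P (nat_lit 0)) (T.h (T.h (P (nat_lit 0)) (P (nat_lit 424906803810205696))) (P (nat_lit 0)))) (T.h (T.h (T.h (P (nat_lit 10325048240973545472)) (T.h (P (nat_lit 0)) (P (nat_lit 45874032146976)))) (T.h (P (nat_lit 0)) (P (nat_lit 46870734497312)))) (T.h (P (nat_lit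 0)) (M (nat_lit 10492294430287)))))))), (T.h (T.h (T.h (P (nat_lit 0)) (T.h (P (nat_lit 23189883887025830961654792192)) (T.h (P (nat_lit 0)) (T.h (M (nat_lit 243099935357513639133183)) (T.h (P (nat_lit 0)) (P (nat_lit 595563394477948928))))))) (T.h (P (nat_lit 0)) (T.h (T.h (P (nat_lit 0)) (T.h (M (nat_lit 33956056854755006218239)) (T.h (P (nat_lit 0)) (P (nat_lit 1175977343068569600))))) (T.h (P (nat_lit 0)) (T.h (T.h (P (nat_lit 0)) (M (nat_lit 93919563231952895))) (P (nat_lit 0))))))) (T.h (T.h (P (nat_lit 0)) (T.h (T.h (P (nat_lit 104213714518363397557321728)) (T.h (P (nat_lit 0)) (P (nat_lit 571332830943741214720)))) (T.h (P (nat_lit 0)) (M (nat_lit 18889754215679262719))))) (T.h (T.h (T.h (P (nat_lit 0)) (T.h (M (nat_lit 87515735663265416478719)) (T.h (P (nat_lit 0)) (P (nat_lit 262202542911520768))))) (T.h (P (nat_lit 0)) (T.h (T.h (P (nat_lit 0)) (P (nat_lit 533260947869499392))) (P (nat_lit 0))))) (T.h (T.h (P (nat_lit 0)) (M (nat_lit 99944006815716474879)))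 (T.h (T.h (T.h (P (nat_lit 0)) (M (nat_lit 8342794656481279))) (P (nat_lit 0))) (P (nat_lit 0))))))), (P (nat_lit 0)), (P (nat_lit 0)), (T.h (T.h (P (nat_lit 0)) (T.h (T.h (M (nat_lit 12684840511315129229494976511)) (T.h (P (nat_lit 0)) (T.h (P (nat_lit 4077642440654830174208)) (T.h (P (nat_lit 0)) (M (nat_lit 4290026769317887)))))) (T.h (P (nat_lit 0)) (T.h (T.h (M (nat_lit 53016593064264569192447)) (T.h (P (nat_lit 0)) (P (nat_lit 42281672534786048)))) (T.h (P (nat_lit 0)) (P (nat_lit 2782105205997568))))))) (T.h (T.h (T.h (P (nat_lit 0)) (T.h (P (nat_lit 1387203145980497050468352)) (T.h (P (nat_lit 0)) (T.h (P (nat_lit 5129996790287826944)) (T.h (P (nat_lit 0)) (M (nat_lit 5667384178967))))))) (T.h (P (nat_lit 0)) (T.h (T.h (P (nat_lit 0)) (T.h (P (nat_lit 7509937226516529152)) (T.h (P (nat_lit 0)) (P (nat_lit 80491955580040))))) (T.h (P (nat_lit 0)) (T.h (T.h (P (nat_lit 0)) (M (nat_lit 18001481031807))) (P (nat_lit 0))))))) (T.h (T.h (P (nat_lit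 0)) (T.h (T.h (M (nat_lit 7879741752788425637887)) (T.h (P (nat_lit 0)) (P (nat_lit 3910183346012160)))) (T.h (P (nat_lit 0)) (M (nat_lit 7310596866047999))))) (T.h (T.h (T.h (P (nat_lit 0)) (T.h (M (nat_lit 3278463469824770047)) (T.h (P (nat_lit 0)) (P (nat_lit 5615599430704))))) (T.h (P (nat_lit 0)) (T.h (T.h (P (nat_lit 0)) (M (nat_lit 24712533350719))) (P (nat_lit 0))))) (T.h (T.h (P (nat_lit 0)) (P (nat_lit 9953376213958656))) (T.h (T.h (T.h (P (nat_lit 0)) (P (nat_lit 15368633917056))) (P (nat_lit 0))) (P (nat_lit 0))))))))]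
def lP11_7 : List (T ℤ) := [(T.h (T.h (P (nat_lit 0)) (T.h (T.h (P (nat_lit 0)) (T.h (P (nat_lit 70526209065233796783144960)) (T.h (P (nat_lit 0)) (T.h (P (nat_lit 23338111321054904320)) (T.h (P (nat_lit 0)) (M (nat_lit 20915930440255))))))) (T.h (P (nat_lit 0)) (T.h (T.h (P (nat_lit 0)) (T.h (M (nat_lit 817769225884234940415)) (T.h (P (nat_lit 0)) (P (nat_lit 346327786339536))))) (T.h (P (nat_lit 0)) (T.h (T.h (P (nat_lit 0)) (P (nat_lit 5629987302560))) (P (nat_lit 0)))))))) (T.h (T.h (T.h (P (nat_lit 497432562566840426191388672)) (T.h (P (nat_lit 0)) (T.h (P (nat_lit 6876364827149293584384)) (T.h (P (nat_lit 0)) (P (nat_lit 6341612324782080)))))) (T.h (P (nat_lit 0)) (T.h (T.h (M (nat_lit 40027040615283331956735)) (T.h (P (nat_lit 0)) (M (nat_lit 145468263997390847)))) (T.h (P (nat_lit 0)) (P (nat_lit 36767111433682944)))))) (T.h (T.h (P (nat_lit 0)) (T.h (T.h (P (nat_lit 0)) (T.h (M (nat_lit 103247090398378590207)) (T.h (P (nat_lit 0)) (P (nat_lit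 18354663940000))))) (T.h (P (nat_lit 0)) (T.h (T.h (P (nat_lit 0)) (M (nat_lit 138743880398239))) (P (nat_lit 0)))))) (T.h (T.h (T.h (P (nat_lit 2862054342291145883648)) (T.h (P (nat_lit 0)) (P (nat_lit 45885516106907648)))) (T.h (P (nat_lit 0)) (M (nat_lit 37782777461571583)))) (T.h (T.h (P (nat_lit 0)) (T.h (T.h (P (nat_lit 0)) (P (nat_lit 33481742598912))) (P (nat_lit 0)))) (P (nat_lit 9812205560987648))))))), (T.h (T.h (P (nat_lit 0)) (T.h (T.h (P (nat_lit 46792758968280233293480198144)) (T.h (P (nat_lit 0)) (T.h (M (nat_lit 125136616968347103264767)) (T.h (P (nat_lit 0)) (P (nat_lit 265822393296289792)))))) (T.h (P (nat_lit 0)) (T.h (T.h (P (nat_lit 216971507881601824456704)) (T.h (P (nat_lit 0)) (M (nat_lit 277069416380858367)))) (T.h (P (nat_lit 0)) (P (nat_lit 11969581587103744))))))) (T.h (T.h (T.h (P (nat_lit 0)) (T.h (M (nat_lit 83626387721824454582468607)) (T.h (P (nat_lit 0)) (T.h (M (nat_lit 94436845230223261695)) (T.h (P (nat_lit 0))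 (P (nat_lit 107326841501440))))))) (T.h (P (nat_lit 0)) (T.h (T.h (P (nat_lit 0)) (T.h (M (nat_lit 696900677064655372287)) (T.h (P (nat_lit 0)) (M (nat_lit 333470482810303))))) (T.h (P (nat_lit 0)) (T.h (T.h (P (nat_lit 0)) (P (nat_lit 265807357753792))) (P (nat_lit 0))))))) (T.h (T.h (P (nat_lit 0)) (T.h (T.h (M (nat_lit 24332516310276678615039)) (T.h (P (nat_lit 0)) (P (nat_lit 122755825063264256)))) (T.h (P (nat_lit 0)) (M (nat_lit 21901407346294783))))) (T.h (T.h (T.h (P (nat_lit 0)) (T.h (P (nat_lit 85766246270368743424)) (T.h (P (nat_lit 0)) (P (nat_lit 197314070123200))))) (T.h (P (nat_lit 0)) (T.h (T.h (P (nat_lit 0)) (P (nat_lit 36848463641664))) (P (nat_lit 0))))) (T.h (T.h (P (nat_lit 0)) (P (nat_lit 116005186613870592))) (T.h (T.h (T.h (P (nat_lit 0)) (P (nat_lit 11420856083328))) (P (nat_lit 0))) (P (nat_lit 0)))))))), (T.h (T.h (P (nat_lit 0)) (T.h (T.h (P (nat_lit 0)) (T.h (M (nat_lit 30324963064396105518153727)) (T.h (P (nat_lit 0))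 (T.h (P (nat_lit 543754214121337257984)) (T.h (P (nat_lit 0)) (M (nat_lit 511264914572719))))))) (T.h (P (nat_lit 0)) (T.h (T.h (P (nat_lit 0)) (T.h (P (nat_lit 543754214121337257984)) (T.h (P (nat_lit 0)) (M (nat_lit 1759458341326751))))) (T.h (P (nat_lit 0)) (T.h (T.h (P (nat_lit 0)) (M (nat_lit 511264914572719))) (P (nat_lit 0)))))))) (T.h (T.h (T.h (P (nat_lit 2328535345222944051758628864)) (T.h (P (nat_lit 0)) (T.h (P (nat_lit 247039374308906822008832)) (T.h (P (nat_lit 0)) (M (nat_lit 145400556215058431)))))) (T.h (P (nat_lit 0)) (T.h (T.h (P (nat_lit 247039374308906822008832)) (T.h (P (nat_lit 0)) (P (nat_lit 1230293658452131840)))) (T.h (P (nat_lit 0)) (M (nat_lit 145400556215058431)))))) (T.h (T.h (P (nat_lit 0)) (T.h (T.h (P (nat_lit 0)) (T.h (M (nat_lit 151511431282023202815)) (T.h (P (nat_lit 0)) (P (nat_lit 523327662662640))))) (T.h (P (nat_lit 0)) (T.h (T.h (P (nat_lit 0)) (P (nat_lit 523327662662640))) (P (nat_lit 0)))))) (T.h (T.h (T.h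 (P (nat_lit 4364167748600012472320)) (T.h (P (nat_lit 0)) (M (nat_lit 380614331262664703)))) (T.h (P (nat_lit 0)) (M (nat_lit 380614331262664703)))) (T.h (T.h (P (nat_lit 0)) (T.h (T.h (P (nat_lit 0)) (M (nat_lit 237527651697951))) (P (nat_lit 0)))) (M (nat_lit 1605405777788927))))))), (T.h (T.h (P (nat_lit 0)) (T.h (T.h (P (nat_lit 37495071686497208421731794944)) (T.h (P (nat_lit 0)) (T.h (M (nat_lit 426842702168290282700799)) (T.h (P (nat_lit 0)) (P (nat_lit 1052533473347338240)))))) (T.h (P (nat_lit 0)) (T.h (T.h (M (nat_lit 138571131412666097074175)) (T.h (P (nat_lit 0)) (P (nat_lit 813225388758859776)))) (T.h (P (nat_lit 0)) (P (nat_lit 207322856984576000))))))) (T.h (T.h (T.h (P (nat_lit 0)) (T.h (M (nat_lit 8530470887322473985998847)) (T.h (P (nat_lit 0)) (P (nat_lit 124755095903367331840))))) (T.h (P (nat_lit 0)) (T.h (T.h (P (nat_lit 0)) (M (nat_lit 394182288451529867263))) (P (nat_lit 0))))) (T.h (T.h (P (nat_lit 0)) (T.h (T.h (P (nat_lit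 16057378342646109437952)) (T.h (P (nat_lit 0)) (P (nat_lit 154969859478683648)))) (T.h (P (nat_lit 0)) (M (nat_lit 255022184546467839))))) (T.h (T.h (T.h (P (nat_lit 0)) (P (nat_lit 11526735466153902080))) (P (nat_lit 0))) (T.h (T.h (P (nat_lit 0)) (P (nat_lit 26770372925128704))) (P (nat_lit 0))))))), (P (nat_lit 0)), (T.h (T.h (T.h (P (nat_lit 0)) (T.h (P (nat_lit 13204927875378715774934843392)) (T.h (P (nat_lit 0)) (T.h (M (nat_lit 590497161174321201151)) (T.h (P (nat_lit 0)) (M (nat_lit 17312308370309119))))))) (T.h (P (nat_lit 0)) (T.h (T.h (P (nat_lit 0)) (T.h (P (nat_lit 13539892843789789691904)) (T.h (P (nat_lit 0)) (M (nat_lit 27032684399165439))))) (T.h (P (nat_lit 0)) (T.h (T.h (P (nat_lit 0)) (M (nat_lit 11870878074175487))) (P (nat_lit 0))))))) (T.h (T.h (P (nat_lit 0)) (T.h (T.h (M (nat_lit 122639602115953821745151)) (T.h (P (nat_lit 0)) (T.h (P (nat_lit 17277838074277003264)) (T.h (P (nat_lit 0)) (M (nat_lit 26065790100687)))))) (T.h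 (P (nat_lit 0)) (T.h (T.h (P (nat_lit 23265789879055810560)) (T.h (P (nat_lit 0)) (M (nat_lit 33347038321839)))) (T.h (P (nat_lit 0)) (M (nat_lit 36276789813271))))))) (T.h (T.h (T.h (P (nat_lit 0)) (T.h (P (nat_lit 3282297356631899373568)) (T.h (P (nat_lit 0)) (M (nat_lit 7315163158740991))))) (T.h (P (nat_lit 0)) (T.h (T.h (P (nat_lit 0)) (M (nat_lit 21109903815409663))) (P (nat_lit 0))))) (T.h (T.h (P (nat_lit 0)) (T.h (T.h (P (nat_lit 2240755757060456448)) (T.h (P (nat_lit 0)) (M (nat_lit 4134781533415)))) (T.h (P (nat_lit 0)) (M (nat_lit 20913852849103))))) (T.h (T.h (T.h (P (nat_lit 0)) (M (nat_lit 2513831367540735))) (P (nat_lit 0))) (T.h (T.h (P (nat_lit 0)) (M (nat_lit 3482561271999))) (P (nat_lit 0)))))))), (T.h (T.h (T.h (P (nat_lit 15172213786557349686731121623040)) (T.h (P (nat_lit 0)) (T.h (M (nat_lit 18264153611699954183569407)) (T.h (P (nat_lit 0)) (T.h (M (nat_lit 8776527609941983231)) (T.h (P (nat_lit 0)) (P (nat_lit 7181325551792))))))))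 (T.h (P (nat_lit 0)) (T.h (T.h (P (nat_lit 21374983709252717796917248)) (T.h (P (nat_lit 0)) (T.h (M (nat_lit 32579711267497836543)) (T.h (P (nat_lit 0)) (M (nat_lit 25450372979775)))))) (T.h (P (nat_lit 0)) (T.h (T.h (M (nat_lit 47365347442010619903)) (T.h (P (nat_lit 0)) (P (nat_lit 439341944415168)))) (T.h (P (nat_lit 0)) (P (nat_lit 63359498543120)))))))) (T.h (T.h (P (nat_lit 0)) (T.h (T.h (P (nat_lit 0)) (T.h (P (nat_lit 2070260029915047919616)) (T.h (P (nat_lit 0)) (M (nat_lit 56295723824119807))))) (T.h (P (nat_lit 0)) (T.h (T.h (P (nat_lit 0)) (P (nat_lit 184625113980796928))) (P (nat_lit 0)))))) (T.h (T.h (T.h (M (nat_lit 1210949200232913911676927)) (T.h (P (nat_lit 0)) (T.h (M (nat_lit 1443524170846568447)) (T.h (P (nat_lit 0)) (P (nat_lit 7834943220656)))))) (T.h (P (nat_lit 0)) (T.h (T.h (P (nat_lit 104816937201435672576)) (T.h (P (nat_lit 0)) (M (nat_lit 2428238407215)))) (T.h (P (nat_lit 0)) (P (nat_lit 65805890694080)))))) (T.h (T.h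 (P (nat_lit 0)) (T.h (T.h (P (nat_lit 0)) (P (nat_lit 71083122527076352))) (P (nat_lit 0)))) (T.h (T.h (T.h (M (nat_lit 1640313288946352127)) (T.h (P (nat_lit 0)) (P (nat_lit 7778266412928)))) (T.h (P (nat_lit 0)) (M (nat_lit 27352561037247)))) (T.h (P (nat_lit 0)) (M (nat_lit 2258787755471)))))))), (T.h (T.h (T.h (P (nat_lit 0)) (T.h (M (nat_lit 29811794875768097430166306815)) (T.h (P (nat_lit 0)) (T.h (P (nat_lit 18779666287450602340352)) (T.h (P (nat_lit 0)) (M (nat_lit 23750232742199295))))))) (T.h (P (nat_lit 0)) (T.h (T.h (P (nat_lit 0)) (T.h (P (nat_lit 506275462163121936793600)) (T.h (P (nat_lit 0)) (M (nat_lit 125947280191946751))))) (T.h (P (nat_lit 0)) (T.h (T.h (P (nat_lit 0)) (M (nat_lit 1512792907138695167))) (P (nat_lit 0))))))) (T.h (T.h (P (nat_lit 0)) (T.h (T.h (P (nat_lit 23381767355945894354616320)) (T.h (P (nat_lit 0)) (T.h (P (nat_lit 41452185600745537536)) (T.h (P (nat_lit 0)) (M (nat_lit 135092302434559)))))) (T.h (P (nat_lit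 0)) (T.h (T.h (P (nat_lit 256980490934963666944)) (T.h (P (nat_lit 0)) (P (nat_lit 323801007112640)))) (T.h (P (nat_lit 0)) (P (nat_lit 92390346224128))))))) (T.h (T.h (T.h (P (nat_lit 0)) (T.h (P (nat_lit 14483498916290326691840)) (T.h (P (nat_lit 0)) (M (nat_lit 66990179196731391))))) (T.h (P (nat_lit 0)) (T.h (T.h (P (nat_lit 0)) (M (nat_lit 163866416494804991))) (P (nat_lit 0))))) (T.h (T.h (P (nat_lit 0)) (T.h (T.h (M (nat_lit 7445068234803380223)) (T.h (P (nat_lit 0)) (M (nat_lit 129680774576831)))) (T.h (P (nat_lit 0)) (M (nat_lit 173328127994111))))) (T.h (T.h (T.h (P (nat_lit 0)) (M (nat_lit 104316820470300671))) (P (nat_lit 0))) (T.h (T.h (P (nat_lit 0)) (M (nat_lit 10339465218239))) (P (nat_lit 0))))))))]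
def lP11_8 : List (T ℤ) := [(T.h (T.h (T.h (P (nat_lit 90041645070864497468254453760)) (T.h (P (nat_lit 0)) (T.h (M (nat_lit 82978344281189709284114431)) (T.h (P (nat_lit 0)) (T.h (M (nat_lit 78420376951661264895)) (T.h (P (nat_lit 0)) (M (nat_lit 100380931134879)))))))) (T.h (P (nat_lit 0)) (T.h (T.h (M (nat_lit 74297551689310308902371327)) (T.h (P (nat_lit 0)) (T.h (P (nat_lit 185568451651652550656)) (T.h (P (nat_lit 0)) (P (nat_lit 227616305269056)))))) (T.h (P (nat_lit 0)) (T.h (T.h (P (nat_lit 336412622550833561600)) (T.h (P (nat_lit 0)) (M (nat_lit 1548465693749039)))) (T.h (P (nat_lit 0)) (M (nat_lit 499469368768831)))))))) (T.h (T.h (P (nat_lit 0)) (T.h (T.h (P (nat_lit 0)) (T.h (M (nat_lit 465666743731333762121727)) (T.h (P (nat_lit 0)) (P (nat_lit 536079415609098240))))) (T.h (P (nat_lit 0)) (T.h (T.h (P (nat_lit 0)) (M (nat_lit 1348142103835803647))) (P (nat_lit 0)))))) (T.h (T.h (T.h (M (nat_lit 9814911570293775350628351)) (T.h (P (nat_lit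 0)) (T.h (M (nat_lit 99246207615725731839)) (T.h (P (nat_lit 0)) (P (nat_lit 211605099716560)))))) (T.h (P (nat_lit 0)) (T.h (T.h (P (nat_lit 341679502975320457216)) (T.h (P (nat_lit 0)) (M (nat_lit 1201170315836127)))) (T.h (P (nat_lit 0)) (M (nat_lit 311887139930959)))))) (T.h (T.h (P (nat_lit 0)) (T.h (T.h (P (nat_lit 0)) (P (nat_lit 424906803810205696))) (P (nat_lit 0)))) (T.h (T.h (T.h (P (nat_lit 10325048240973545472)) (T.h (P (nat_lit 0)) (P (nat_lit 46870734497312)))) (T.h (P (nat_lit 0)) (P (nat_lit 45874032146976)))) (T.h (P (nat_lit 0)) (M (nat_lit 10492294430287)))))))), (T.h (T.h (T.h (P (nat_lit 0)) (T.h (P (nat_lit 37495071686497208421731794944)) (T.h (P (nat_lit 0)) (T.h (M (nat_lit 138571131412666097074175)) (T.h (P (nat_lit 0)) (P (nat_lit 207322856984576000))))))) (T.h (P (nat_lit 0)) (T.h (T.h (P (nat_lit 0)) (T.h (M (nat_lit 426842702168290282700799)) (T.h (P (nat_lit 0)) (P (nat_lit 813225388758859776))))) (T.h (P (nat_lit 0))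 (T.h (T.h (P (nat_lit 0)) (P (nat_lit 1052533473347338240))) (P (nat_lit 0))))))) (T.h (T.h (P (nat_lit 0)) (T.h (T.h (M (nat_lit 8530470887322473985998847)) (T.h (P (nat_lit 0)) (M (nat_lit 394182288451529867263)))) (T.h (P (nat_lit 0)) (P (nat_lit 124755095903367331840))))) (T.h (T.h (T.h (P (nat_lit 0)) (T.h (P (nat_lit 16057378342646109437952)) (T.h (P (nat_lit 0)) (M (nat_lit 255022184546467839))))) (T.h (P (nat_lit 0)) (T.h (T.h (P (nat_lit 0)) (P (nat_lit 154969859478683648))) (P (nat_lit 0))))) (T.h (T.h (P (nat_lit 0)) (P (nat_lit 11526735466153902080))) (T.h (T.h (T.h (P (nat_lit 0)) (P (nat_lit 26770372925128704))) (P (nat_lit 0))) (P (nat_lit 0))))))), (T.h (T.h (P (nat_lit 0)) (T.h (T.h (M (nat_lit 13616060523248372760361041919)) (T.h (P (nat_lit 0)) (T.h (M (nat_lit 1018639444731261616127)) (T.h (P (nat_lit 0)) (M (nat_lit 3105598149197823)))))) (T.h (P (nat_lit 0)) (T.h (T.h (P (nat_lit 25248286323423985008640)) (T.h (P (nat_lit 0)) (P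 (nat_lit 21287966337204224)))) (T.h (P (nat_lit 0)) (P (nat_lit 97560360966946816))))))) (T.h (T.h (T.h (P (nat_lit 0)) (T.h (P (nat_lit 988941334891427054747648)) (T.h (P (nat_lit 0)) (T.h (P (nat_lit 4289571691257921536)) (T.h (P (nat_lit 0)) (M (nat_lit 1780149283047))))))) (T.h (P (nat_lit 0)) (T.h (T.h (P (nat_lit 0)) (T.h (P (nat_lit 21892392839739867136)) (T.h (P (nat_lit 0)) (P (nat_lit 6954812085344))))) (T.h (P (nat_lit 0)) (T.h (T.h (P (nat_lit 0)) (P (nat_lit 43087163693056))) (P (nat_lit 0))))))) (T.h (T.h (P (nat_lit 0)) (T.h (T.h (P (nat_lit 267052711276420530176)) (T.h (P (nat_lit 0)) (M (nat_lit 15203226427064319)))) (T.h (P (nat_lit 0)) (P (nat_lit 29095574034907136))))) (T.h (T.h (T.h (P (nat_lit 0)) (T.h (P (nat_lit 2589773294710292480)) (T.h (P (nat_lit 0)) (M (nat_lit 10560971751551))))) (T.h (P (nat_lit 0)) (T.h (T.h (P (nat_lit 0)) (P (nat_lit 14981556922784))) (P (nat_lit 0))))) (T.h (T.h (P (nat_lit 0)) (M (nat_lit 1271887051128831)))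 (T.h (T.h (T.h (P (nat_lit 0)) (M (nat_lit 3269161860247))) (P (nat_lit 0))) (P (nat_lit 0)))))))), (T.h (T.h (P (nat_lit 0)) (T.h (T.h (P (nat_lit 0)) (T.h (M (nat_lit 3746786908111961168281599)) (T.h (P (nat_lit 0)) (T.h (P (nat_lit 21421683604952449024)) (T.h (P (nat_lit 0)) (P (nat_lit 7351350546784))))))) (T.h (P (nat_lit 0)) (T.h (T.h (P (nat_lit 0)) (T.h (P (nat_lit 150605351395472179200)) (T.h (P (nat_lit 0)) (M (nat_lit 29896136530671))))) (T.h (P (nat_lit 0)) (T.h (T.h (P (nat_lit 0)) (P (nat_lit 126624751875824))) (P (nat_lit 0)))))))) (T.h (T.h (T.h (P (nat_lit 825243808494547520458850304)) (T.h (P (nat_lit 0)) (T.h (M (nat_lit 4538456619322401882111)) (T.h (P (nat_lit 0)) (P (nat_lit 1673160524251136)))))) (T.h (P (nat_lit 0)) (T.h (T.h (M (nat_lit 26344594233526511992831)) (T.h (P (nat_lit 0)) (M (nat_lit 9636131581935615)))) (T.h (P (nat_lit 0)) (M (nat_lit 391640158868422655)))))) (T.h (T.h (P (nat_lit 0)) (T.h (T.h (P (nat_lit 0)) (T.h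 (P (nat_lit 6725667058576523264)) (T.h (P (nat_lit 0)) (M (nat_lit 4256921589567))))) (T.h (P (nat_lit 0)) (T.h (T.h (P (nat_lit 0)) (P (nat_lit 20853968390928))) (P (nat_lit 0)))))) (T.h (T.h (T.h (P (nat_lit 452590592553853648896)) (T.h (P (nat_lit 0)) (M (nat_lit 18297077188886527)))) (T.h (P (nat_lit 0)) (M (nat_lit 39437525538734079)))) (T.h (T.h (P (nat_lit 0)) (T.h (T.h (P (nat_lit 0)) (M (nat_lit 14115448294655))) (P (nat_lit 0)))) (P (nat_lit 2367037161553920))))))), (T.h (T.h (P (nat_lit 0)) (T.h (T.h (P (nat_lit 556240270776678431303139328)) (T.h (P (nat_lit 0)) (T.h (M (nat_lit 22709465110943195201535)) (T.h (P (nat_lit 0)) (M (nat_lit 81212293442699263)))))) (T.h (P (nat_lit 0)) (T.h (T.h (M (nat_lit 106146170585502539841535)) (T.h (P (nat_lit 0)) (P (nat_lit 97128441095356416)))) (T.h (P (nat_lit 0)) (P (nat_lit 294432181340930048))))))) (T.h (T.h (T.h (P (nat_lit 0)) (T.h (M (nat_lit 33674519128823394065186815)) (T.h (P (nat_lit 0)) (T.h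 (M (nat_lit 1924344881111629823)) (T.h (P (nat_lit 0)) (M (nat_lit 26922678205119))))))) (T.h (P (nat_lit 0)) (T.h (T.h (P (nat_lit 0)) (T.h (P (nat_lit 56544454345603678208)) (T.h (P (nat_lit 0)) (P (nat_lit 82499058864512))))) (T.h (P (nat_lit 0)) (T.h (T.h (P (nat_lit 0)) (M (nat_lit 46655458843455))) (P (nat_lit 0))))))) (T.h (T.h (P (nat_lit 0)) (T.h (T.h (M (nat_lit 29407020964897829683199)) (T.h (P (nat_lit 0)) (M (nat_lit 23264011617468415)))) (T.h (P (nat_lit 0)) (P (nat_lit 8952162460336128))))) (T.h (T.h (T.h (P (nat_lit 0)) (T.h (P (nat_lit 19058927348914061312)) (T.h (P (nat_lit 0)) (M (nat_lit 52855227214911))))) (T.h (P (nat_lit 0)) (T.h (T.h (P (nat_lit 0)) (P (nat_lit 86144119924352))) (P (nat_lit 0))))) (T.h (T.h (P (nat_lit 0)) (M (nat_lit 37480698153926655))) (T.h (T.h (T.h (P (nat_lit 0)) (M (nat_lit 13089198389183))) (P (nat_lit 0))) (P (nat_lit 0)))))))), (T.h (T.h (P (nat_lit 0)) (T.h (T.h (P (nat_lit 0)) (T.h (M (nat_lit 80905210978061627915501567))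 (T.h (P (nat_lit 0)) (T.h (P (nat_lit 104709661005493305344)) (T.h (P (nat_lit 0)) (P (nat_lit 9843633707952))))))) (T.h (P (nat_lit 0)) (T.h (T.h (P (nat_lit 0)) (T.h (P (nat_lit 966498054002410782720)) (T.h (P (nat_lit 0)) (M (nat_lit 40807260833679))))) (T.h (P (nat_lit 0)) (T.h (T.h (P (nat_lit 0)) (M (nat_lit 202010613196303))) (P (nat_lit 0)))))))) (T.h (T.h (T.h (P (nat_lit 15233738752004595955919749120)) (T.h (P (nat_lit 0)) (T.h (M (nat_lit 50588246820526462337023)) (T.h (P (nat_lit 0)) (P (nat_lit 37657315048210432)))))) (T.h (P (nat_lit 0)) (T.h (T.h (M (nat_lit 190912665759102877564927)) (T.h (P (nat_lit 0)) (M (nat_lit 481125668614946815)))) (T.h (P (nat_lit 0)) (M (nat_lit 59401021968924671)))))) (T.h (T.h (P (nat_lit 0)) (T.h (T.h (P (nat_lit 0)) (T.h (P (nat_lit 180384892735593644032)) (T.h (P (nat_lit 0)) (M (nat_lit 153951304182895))))) (T.h (P (nat_lit 0)) (T.h (T.h (P (nat_lit 0)) (M (nat_lit 160765879742335))) (P (nat_lit 0))))))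 (T.h (T.h (T.h (M (nat_lit 21694648982052280467455)) (T.h (P (nat_lit 0)) (P (nat_lit 153507077665947648)))) (T.h (P (nat_lit 0)) (P (nat_lit 117065434944339968)))) (T.h (T.h (P (nat_lit 0)) (T.h (T.h (P (nat_lit 0)) (M (nat_lit 46938132056991))) (P (nat_lit 0)))) (M (nat_lit 8026129388699647))))))), (T.h (T.h (P (nat_lit 0)) (T.h (T.h (P (nat_lit 23189883887025830961654792192)) (T.h (P (nat_lit 0)) (T.h (M (nat_lit 33956056854755006218239)) (T.h (P (nat_lit 0)) (M (nat_lit 93919563231952895)))))) (T.h (P (nat_lit 0)) (T.h (T.h (M (nat_lit 243099935357513639133183)) (T.h (P (nat_lit 0)) (P (nat_lit 1175977343068569600)))) (T.h (P (nat_lit 0)) (P (nat_lit 595563394477948928))))))) (T.h (T.h (T.h (P (nat_lit 0)) (T.h (P (nat_lit 104213714518363397557321728)) (T.h (P (nat_lit 0)) (M (nat_lit 18889754215679262719))))) (T.h (P (nat_lit 0)) (T.h (T.h (P (nat_lit 0)) (P (nat_lit 571332830943741214720))) (P (nat_lit 0))))) (T.h (T.h (P (nat_lit 0)) (T.h (T.h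 (M (nat_lit 87515735663265416478719)) (T.h (P (nat_lit 0)) (P (nat_lit 533260947869499392)))) (T.h (P (nat_lit 0)) (P (nat_lit 262202542911520768))))) (T.h (T.h (T.h (P (nat_lit 0)) (M (nat_lit 99944006815716474879))) (P (nat_lit 0))) (T.h (T.h (P (nat_lit 0)) (M (nat_lit 8342794656481279))) (P (nat_lit 0))))))), (T.h (T.h (T.h (P (nat_lit 8381838962715691754272839434240)) (T.h (P (nat_lit 0)) (T.h (P (nat_lit 94354545371969910472704)) (T.h (P (nat_lit 0)) (T.h (M (nat_lit 1002665088554893311)) (T.h (P (nat_lit 0)) (M (nat_lit 165424305583)))))))) (T.h (P (nat_lit 0)) (T.h (T.h (M (nat_lit 24966769086201063159103487)) (T.h (P (nat_lit 0)) (T.h (P (nat_lit 8545227737994887168)) (T.h (P (nat_lit 0)) (M (nat_lit 15443532767759)))))) (T.h (P (nat_lit 0)) (T.h (T.h (M (nat_lit 91567307508984840191)) (T.h (P (nat_lit 0)) (P (nat_lit 28106565702272)))) (T.h (P (nat_lit 0)) (M (nat_lit 9234645211199)))))))) (T.h (T.h (P (nat_lit 0)) (T.h (T.h (P (nat_lit 0))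 (T.h (P (nat_lit 5306139762653476683776)) (T.h (P (nat_lit 0)) (M (nat_lit 21171082134913023))))) (T.h (P (nat_lit 0)) (T.h (T.h (P (nat_lit 0)) (M (nat_lit 8154054174244863))) (P (nat_lit 0)))))) (T.h (T.h (T.h (P (nat_lit 94354545371969910472704)) (T.h (P (nat_lit 0)) (T.h (P (nat_lit 8284172608572751872)) (T.h (P (nat_lit 0)) (M (nat_lit 4239509951935)))))) (T.h (P (nat_lit 0)) (T.h (T.h (P (nat_lit 8545227737994887168)) (T.h (P (nat_lit 0)) (P (nat_lit 35413500645568)))) (T.h (P (nat_lit 0)) (P (nat_lit 28106565702272)))))) (T.h (T.h (P (nat_lit 0)) (T.h (T.h (P (nat_lit 0)) (M (nat_lit 21171082134913023))) (P (nat_lit 0)))) (T.h (T.h (T.h (M (nat_lit 1002665088554893311)) (T.h (P (nat_lit 0)) (M (nat_lit 4239509951935)))) (T.h (P (nat_lit 0)) (M (nat_lit 15443532767759)))) (T.h (P (nat_lit 0)) (M (nat_lit 165424305583))))))))]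
def lP11_9 : List (T ℤ) := [(T.h (T.h (T.h (P (nat_lit 0)) (T.h (M (nat_lit 11148306687387311073933656063)) (T.h (P (nat_lit 0)) (T.h (P (nat_lit 9990154410232597446656)) (T.h (P (nat_lit 0)) (P (nat_lit 15339279740928000))))))) (T.h (P (nat_lit 0)) (T.h (T.h (P (nat_lit 0)) (T.h (M (nat_lit 42457184328535899111423)) (T.h (P (nat_lit 0)) (P (nat_lit 177198910576820224))))) (T.h (P (nat_lit 0)) (T.h (T.h (P (nat_lit 0)) (P (nat_lit 107454521002655744))) (P (nat_lit 0))))))) (T.h (T.h (P (nat_lit 0)) (T.h (T.h (P (nat_lit 6837049029011826800590848)) (T.h (P (nat_lit 0)) (T.h (P (nat_lit 59282405974557589504)) (T.h (P (nat_lit 0)) (P (nat_lit 30400262961600)))))) (T.h (P (nat_lit 0)) (T.h (T.h (P (nat_lit 198712546212878221312)) (T.h (P (nat_lit 0)) (M (nat_lit 50830335485887)))) (T.h (P (nat_lit 0)) (M (nat_lit 519960225386687))))))) (T.h (T.h (T.h (P (nat_lit 0)) (T.h (M (nat_lit 10168343157988999036927)) (T.h (P (nat_lit 0)) (P (nat_lit 15342922548215808)))))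 (T.h (P (nat_lit 0)) (T.h (T.h (P (nat_lit 0)) (P (nat_lit 138485348847714304))) (P (nat_lit 0))))) (T.h (T.h (P (nat_lit 0)) (T.h (T.h (P (nat_lit 1303559475084394496)) (T.h (P (nat_lit 0)) (M (nat_lit 8555555049535)))) (T.h (P (nat_lit 0)) (P (nat_lit 62827191098304))))) (T.h (T.h (T.h (P (nat_lit 0)) (P (nat_lit 11197351691255808))) (P (nat_lit 0))) (T.h (T.h (P (nat_lit 0)) (P (nat_lit 5360624420992))) (P (nat_lit 0)))))))), (T.h (T.h (T.h (P (nat_lit 1125191178323626060599525376000)) (T.h (P (nat_lit 0)) (T.h (P (nat_lit 12526376508625760402014208)) (T.h (P (nat_lit 0)) (T.h (M (nat_lit 9306149800544043007)) (T.h (P (nat_lit 0)) (P (nat_lit 1586148909312)))))))) (T.h (P (nat_lit 0)) (T.h (T.h (M (nat_lit 46278492287481778855215103)) (T.h (P (nat_lit 0)) (T.h (M (nat_lit 267369536469543682047)) (T.h (P (nat_lit 0)) (P (nat_lit 129681242717312)))))) (T.h (P (nat_lit 0)) (T.h (T.h (M (nat_lit 156129275264035192831)) (T.h (P (nat_lit 0)) (P (nat_lit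 78162321228816)))) (T.h (P (nat_lit 0)) (P (nat_lit 130481994932784)))))))) (T.h (T.h (P (nat_lit 0)) (T.h (T.h (P (nat_lit 0)) (T.h (M (nat_lit 56440631814495246745599)) (T.h (P (nat_lit 0)) (M (nat_lit 11779929606979583))))) (T.h (P (nat_lit 0)) (T.h (T.h (P (nat_lit 0)) (P (nat_lit 297687919684386816))) (P (nat_lit 0)))))) (T.h (T.h (T.h (P (nat_lit 5767003101391923837927424)) (T.h (P (nat_lit 0)) (T.h (P (nat_lit 1877110365234397184)) (T.h (P (nat_lit 0)) (M (nat_lit 52667779269951)))))) (T.h (P (nat_lit 0)) (T.h (T.h (M (nat_lit 217516683191390306303)) (T.h (P (nat_lit 0)) (P (nat_lit 109922351265936)))) (T.h (P (nat_lit 0)) (P (nat_lit 33231154151888)))))) (T.h (T.h (P (nat_lit 0)) (T.h (T.h (P (nat_lit 0)) (M (nat_lit 115810020998676479))) (P (nat_lit 0)))) (T.h (T.h (T.h (P (nat_lit 2169328327335084032)) (T.h (P (nat_lit 0)) (M (nat_lit 49126568938831)))) (T.h (P (nat_lit 0)) (M (nat_lit 17832029004943)))) (T.h (P (nat_lit 0)) (P (nat_lit 3821769693456)))))))),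 (T.h (T.h (T.h (P (nat_lit 0)) (T.h (P (nat_lit 9479945226855203678944493568)) (T.h (P (nat_lit 0)) (T.h (M (nat_lit 8055960460481364230143)) (T.h (P (nat_lit 0)) (M (nat_lit 3604578148319231))))))) (T.h (P (nat_lit 0)) (T.h (T.h (P (nat_lit 0)) (T.h (M (nat_lit 252405377024740638588927)) (T.h (P (nat_lit 0)) (M (nat_lit 73784448161644543))))) (T.h (P (nat_lit 0)) (T.h (T.h (P (nat_lit 0)) (P (nat_lit 158948710125174784))) (P (nat_lit 0))))))) (T.h (T.h (P (nat_lit 0)) (T.h (T.h (P (nat_lit 68480659706341009634885632)) (T.h (P (nat_lit 0)) (P (nat_lit 28561419631895511040)))) (T.h (P (nat_lit 0)) (M (nat_lit 76622548805082939391))))) (T.h (T.h (T.h (P (nat_lit 0)) (T.h (M (nat_lit 15229871120192928481279)) (T.h (P (nat_lit 0)) (P (nat_lit 67886065340547072))))) (T.h (P (nat_lit 0)) (T.h (T.h (P (nat_lit 0)) (P (nat_lit 48863964941058048))) (P (nat_lit 0))))) (T.h (T.h (P (nat_lit 0)) (P (nat_lit 11930534835996590080))) (T.h (T.h (T.h (P (nat_lit 0))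 (P (nat_lit 27031974620561408))) (P (nat_lit 0))) (P (nat_lit 0))))))), (T.h (T.h (P (nat_lit 0)) (T.h (T.h (P (nat_lit 19513362596848012897021853696)) (T.h (P (nat_lit 0)) (T.h (P (nat_lit 4107924079950048526336)) (T.h (P (nat_lit 0)) (M (nat_lit 1307171908157439)))))) (T.h (P (nat_lit 0)) (T.h (T.h (M (nat_lit 63987633135800041865215)) (T.h (P (nat_lit 0)) (M (nat_lit 85837983571574783)))) (T.h (P (nat_lit 0)) (M (nat_lit 81349603584901119))))))) (T.h (T.h (T.h (P (nat_lit 0)) (T.h (M (nat_lit 1375602425031345005658111)) (T.h (P (nat_lit 0)) (T.h (M (nat_lit 8805342538014654463)) (T.h (P (nat_lit 0)) (P (nat_lit 2524655571648))))))) (T.h (P (nat_lit 0)) (T.h (T.h (P (nat_lit 0)) (T.h (M (nat_lit 65383704587684282367)) (T.h (P (nat_lit 0)) (M (nat_lit 10968184504063))))) (T.h (P (nat_lit 0)) (T.h (T.h (P (nat_lit 0)) (M (nat_lit 43087163693055))) (P (nat_lit 0))))))) (T.h (T.h (P (nat_lit 0)) (T.h (T.h (P (nat_lit 7063357461541198757888)) (T.h (P (nat_lit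 0)) (M (nat_lit 5518730472980479)))) (T.h (P (nat_lit 0)) (M (nat_lit 48131822609170431))))) (T.h (T.h (T.h (P (nat_lit 0)) (T.h (P (nat_lit 2413284188405891072)) (T.h (P (nat_lit 0)) (P (nat_lit 10560971751552))))) (T.h (P (nat_lit 0)) (T.h (T.h (P (nat_lit 0)) (M (nat_lit 10968184504063))) (P (nat_lit 0))))) (T.h (T.h (P (nat_lit 0)) (P (nat_lit 14876198407176192))) (T.h (T.h (T.h (P (nat_lit 0)) (P (nat_lit 2524655571648))) (P (nat_lit 0))) (P (nat_lit 0)))))))), (T.h (T.h (P (nat_lit 0)) (T.h (T.h (P (nat_lit 0)) (T.h (P (nat_lit 20370376071632726442115072)) (T.h (P (nat_lit 0)) (T.h (M (nat_lit 14468998367255986175)) (T.h (P (nat_lit 0)) (M (nat_lit 6662556455103))))))) (T.h (P (nat_lit 0)) (T.h (T.h (P (nat_lit 0)) (T.h (M (nat_lit 74258750209269956607)) (T.h (P (nat_lit 0)) (P (nat_lit 847315013424))))) (T.h (P (nat_lit 0)) (T.h (T.h (P (nat_lit 0)) (M (nat_lit 430642633814447))) (P (nat_lit 0)))))))) (T.h (T.h (T.h (P (nat_lit 994755837398416160144228352))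 (T.h (P (nat_lit 0)) (T.h (P (nat_lit 385848081155304194048)) (T.h (P (nat_lit 0)) (M (nat_lit 26168110165688319)))))) (T.h (P (nat_lit 0)) (T.h (T.h (P (nat_lit 62873011426048620888064)) (T.h (P (nat_lit 0)) (P (nat_lit 102840527015788544)))) (T.h (P (nat_lit 0)) (P (nat_lit 866541895063420928)))))) (T.h (T.h (P (nat_lit 0)) (T.h (T.h (P (nat_lit 0)) (T.h (M (nat_lit 52736164427403886591)) (T.h (P (nat_lit 0)) (P (nat_lit 238877194160))))) (T.h (P (nat_lit 0)) (T.h (T.h (P (nat_lit 0)) (M (nat_lit 64739948756207))) (P (nat_lit 0)))))) (T.h (T.h (T.h (P (nat_lit 1627259457768127463424)) (T.h (P (nat_lit 0)) (P (nat_lit 1901487044935680)))) (T.h (P (nat_lit 0)) (P (nat_lit 40138936817926144)))) (T.h (T.h (P (nat_lit 0)) (T.h (T.h (P (nat_lit 0)) (P (nat_lit 37730281781984))) (P (nat_lit 0)))) (M (nat_lit 1438415993520127))))))), (T.h (T.h (P (nat_lit 0)) (T.h (T.h (P (nat_lit 3166846873336167602856132608)) (T.h (P (nat_lit 0)) (T.h (P (nat_lit 54548994911447583555584))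 (T.h (P (nat_lit 0)) (M (nat_lit 42086344733622271)))))) (T.h (P (nat_lit 0)) (T.h (T.h (M (nat_lit 14344602706940511911935)) (T.h (P (nat_lit 0)) (M (nat_lit 58682876268085247)))) (T.h (P (nat_lit 0)) (M (nat_lit 65582421789278207))))))) (T.h (T.h (T.h (P (nat_lit 0)) (T.h (P (nat_lit 9767776142240778154934272)) (T.h (P (nat_lit 0)) (M (nat_lit 181177798486917119))))) (T.h (P (nat_lit 0)) (T.h (T.h (P (nat_lit 0)) (M (nat_lit 145672624222347722751))) (P (nat_lit 0))))) (T.h (T.h (P (nat_lit 0)) (T.h (T.h (P (nat_lit 35266817870928178839552)) (T.h (P (nat_lit 0)) (M (nat_lit 41064510206017535)))) (T.h (P (nat_lit 0)) (M (nat_lit 12694745432686591))))) (T.h (T.h (T.h (P (nat_lit 0)) (P (nat_lit 11252920928419446784))) (P (nat_lit 0))) (T.h (T.h (P (nat_lit 0)) (M (nat_lit 384693298659327))) (P (nat_lit 0))))))), (T.h (T.h (T.h (M (nat_lit 3022801708362945769365684879359)) (T.h (P (nat_lit 0)) (T.h (M (nat_lit 866842690526014188027903)) (T.h (P (nat_lit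 0)) (T.h (M (nat_lit 2198064352563560447)) (T.h (P (nat_lit 0)) (P (nat_lit 742147470768)))))))) (T.h (P (nat_lit 0)) (T.h (T.h (P (nat_lit 35228165051076154056769536)) (T.h (P (nat_lit 0)) (T.h (P (nat_lit 33338568917978710016)) (T.h (P (nat_lit 0)) (P (nat_lit 12342157505568)))))) (T.h (P (nat_lit 0)) (T.h (T.h (P (nat_lit 72859096151933059072)) (T.h (P (nat_lit 0)) (M (nat_lit 56118708733823)))) (T.h (P (nat_lit 0)) (P (nat_lit 14511582942912)))))))) (T.h (T.h (P (nat_lit 0)) (T.h (T.h (P (nat_lit 0)) (T.h (P (nat_lit 9132112169328112041984)) (T.h (P (nat_lit 0)) (P (nat_lit 6924341569585152))))) (T.h (P (nat_lit 0)) (T.h (T.h (P (nat_lit 0)) (M (nat_lit 33744048614539263))) (P (nat_lit 0)))))) (T.h (T.h (T.h (M (nat_lit 866842690526014188027903)) (T.h (P (nat_lit 0)) (T.h (M (nat_lit 80235081309880319)) (T.h (P (nat_lit 0)) (P (nat_lit 7551023902224)))))) (T.h (P (nat_lit 0)) (T.h (T.h (P (nat_lit 33338568917978710016)) (T.h (P (nat_lit 0)) (M (nat_lit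 55649786596799)))) (T.h (P (nat_lit 0)) (M (nat_lit 56118708733823)))))) (T.h (T.h (P (nat_lit 0)) (T.h (T.h (P (nat_lit 0)) (P (nat_lit 6924341569585152))) (P (nat_lit 0)))) (T.h (T.h (T.h (M (nat_lit 2198064352563560447)) (T.h (P (nat_lit 0)) (P (nat_lit 7551023902224)))) (T.h (P (nat_lit 0)) (P (nat_lit 12342157505568)))) (T.h (P (nat_lit 0)) (P (nat_lit 742147470768)))))))), (T.h (T.h (T.h (P (nat_lit 0)) (T.h (M (nat_lit 3849283284899336926831575039)) (T.h (P (nat_lit 0)) (T.h (M (nat_lit 2169209033493156200447)) (T.h (P (nat_lit 0)) (P (nat_lit 411400681750528))))))) (T.h (P (nat_lit 0)) (T.h (T.h (P (nat_lit 0)) (T.h (M (nat_lit 7915433807328952975359)) (T.h (P (nat_lit 0)) (M (nat_lit 9664805248008191))))) (T.h (P (nat_lit 0)) (T.h (T.h (P (nat_lit 0)) (P (nat_lit 421785709203062784))) (P (nat_lit 0))))))) (T.h (T.h (P (nat_lit 0)) (T.h (T.h (M (nat_lit 8685767576524368306503679)) (T.h (P (nat_lit 0)) (M (nat_lit 21352153951422644223)))) (T.h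 (P (nat_lit 0)) (M (nat_lit 126973145165437337599))))) (T.h (T.h (T.h (P (nat_lit 0)) (T.h (M (nat_lit 318127756473987497983)) (T.h (P (nat_lit 0)) (M (nat_lit 5667928027332607))))) (T.h (P (nat_lit 0)) (T.h (T.h (P (nat_lit 0)) (P (nat_lit 56882161005330432))) (P (nat_lit 0))))) (T.h (T.h (P (nat_lit 0)) (M (nat_lit 32111403715541336063))) (T.h (T.h (T.h (P (nat_lit 0)) (M (nat_lit 9836419181182975))) (P (nat_lit 0))) (P (nat_lit 0)))))))]
def lP11_10 : List (T ℤ) := [(T.h (T.h (P (nat_lit 0)) (T.h (T.h (M (nat_lit 5897302073599640136660811775)) (T.h (P (nat_lit 0)) (T.h (M (nat_lit 5209847404018203099135)) (T.h (P (nat_lit 0)) (M (nat_lit 4595770649346047)))))) (T.h (P (nat_lit 0)) (T.h (T.h (P (nat_lit 38739346812376056856576)) (T.h (P (nat_lit 0)) (P (nat_lit 41793132904316928)))) (T.h (P (nat_lit 0)) (M (nat_lit 16210757382045695))))))) (T.h (T.h (T.h (P (nat_lit 0)) (T.h (P (nat_lit 386661090139917950910464)) (T.h (P (nat_lit 0)) (M (nat_lit 243643318179725311)))))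 (T.h (P (nat_lit 0)) (T.h (T.h (P (nat_lit 0)) (P (nat_lit 43491311747944415232))) (P (nat_lit 0))))) (T.h (T.h (P (nat_lit 0)) (T.h (T.h (M (nat_lit 5209847404018203099135)) (T.h (P (nat_lit 0)) (P (nat_lit 20721956900044800)))) (T.h (P (nat_lit 0)) (P (nat_lit 41793132904316928))))) (T.h (T.h (T.h (P (nat_lit 0)) (M (nat_lit 243643318179725311))) (P (nat_lit 0))) (T.h (T.h (P (nat_lit 0)) (M (nat_lit 4595770649346047))) (P (nat_lit 0))))))), (P (nat_lit 0)), (P (nat_lit 0)), (P (nat_lit 0)), (P (nat_lit 0)), (P (nat_lit 0)), (P (nat_lit 0)), (P (nat_lit 0))]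
def lP11_11 : List (T ℤ) := [(P (nat_lit 0)), (P (nat_lit 0)), (T.h (T.h (T.h (P (nat_lit 1297020999668584461810249236480)) (T.h (P (nat_lit 0)) (T.h (P (nat_lit 18795611996108090287063040)) (T.h (P (nat_lit 0)) (T.h (P (nat_lit 37934550995487948800)) (T.h (P (nat_lit 0)) (P (nat_lit 70987758550880)))))))) (T.h (P (nat_lit 0)) (T.h (T.h (M (nat_lit 535557376141384006762495)) (T.h (P (nat_lit 0)) (T.h (P (nat_lit 15638866604584861696)) (T.h (P (nat_lit 0)) (P (nat_lit 33625508429696)))))) (T.h (P (nat_lit 0)) (T.h (T.h (M (nat_lit 4242523556224696319)) (T.h (P (nat_lit 0)) (M (nat_lit 1048894253039)))) (T.h (P (nat_lit 0)) (P (nat_lit 1641657772256)))))))) (T.h (T.h (P (nat_lit 0)) (T.h (T.h (P (nat_lit 0)) (T.h (P (nat_lit 7421823565152869416960)) (T.h (P (nat_lit 0)) (M (nat_lit 58909351532822527))))) (T.h (P (nat_lit 0)) (T.h (T.h (P (nat_lit 0)) (M (nat_lit 8139028818755583))) (P (nat_lit 0)))))) (T.h (T.h (T.h (M (nat_lit 535557376141384006762495))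 (T.h (P (nat_lit 0)) (T.h (P (nat_lit 15638866604584861696)) (T.h (P (nat_lit 0)) (P (nat_lit 33625508429696)))))) (T.h (P (nat_lit 0)) (T.h (T.h (P (nat_lit 2084002327336845312)) (T.h (P (nat_lit 0)) (P (nat_lit 8530035727200)))) (T.h (P (nat_lit 0)) (P (nat_lit 4856821191136)))))) (T.h (T.h (P (nat_lit 0)) (T.h (T.h (P (nat_lit 0)) (M (nat_lit 8139028818755583))) (P (nat_lit 0)))) (T.h (T.h (T.h (M (nat_lit 4242523556224696319)) (T.h (P (nat_lit 0)) (M (nat_lit 1048894253039)))) (T.h (P (nat_lit 0)) (P (nat_lit 4856821191136)))) (T.h (P (nat_lit 0)) (P (nat_lit 1641657772256)))))))), (P (nat_lit 0)), (T.h (T.h (T.h (P (nat_lit 598974688817719074557215637504)) (T.h (P (nat_lit 0)) (T.h (P (nat_lit 1822080028184422477987840)) (T.h (P (nat_lit 0)) (M (nat_lit 74948138672381231103)))))) (T.h (P (nat_lit 0)) (T.h (T.h (M (nat_lit 993386829076405216608255)) (T.h (P (nat_lit 0)) (P (nat_lit 67986490654585782272)))) (T.h (P (nat_lit 0)) (M (nat_lit 1923840029851910143))))))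 (T.h (T.h (P (nat_lit 0)) (T.h (T.h (P (nat_lit 0)) (T.h (P (nat_lit 20065442976661006974976)) (T.h (P (nat_lit 0)) (M (nat_lit 23175746947121151))))) (T.h (P (nat_lit 0)) (T.h (T.h (P (nat_lit 0)) (M (nat_lit 8376559263285247))) (P (nat_lit 0)))))) (T.h (T.h (T.h (M (nat_lit 993386829076405216608255)) (T.h (P (nat_lit 0)) (P (nat_lit 67986490654585782272)))) (T.h (P (nat_lit 0)) (P (nat_lit 15082114753096581120)))) (T.h (T.h (P (nat_lit 0)) (T.h (T.h (P (nat_lit 0)) (M (nat_lit 8376559263285247))) (P (nat_lit 0)))) (M (nat_lit 1923840029851910143)))))), (P (nat_lit 0)), (P (nat_lit 0)), (P (nat_lit 0))]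
def lP11_12 : List (T ℤ) := [(P (nat_lit 0)), (T.h (T.h (P (nat_lit 0)) (T.h (T.h (P (nat_lit 0)) (T.h (P (nat_lit 30898303051841342248321024)) (T.h (P (nat_lit 0)) (T.h (P (nat_lit 30680473103448932352)) (T.h (P (nat_lit 0)) (P (nat_lit 329758805387944))))))) (T.h (P (nat_lit 0)) (T.h (T.h (P (nat_lit 0)) (T.h (P (nat_lit 30219089852804104192)) (T.h (P (nat_lit 0)) (M (nat_lit 101694640089231))))) (T.h (P (nat_lit 0)) (T.h (T.h (P (nat_lit 0)) (P (nat_lit 8721480899840))) (P (nat_lit 0)))))))) (T.h (T.h (T.h (P (nat_lit 16720224391768011437074546688)) (T.h (P (nat_lit 0)) (T.h (M (nat_lit 18013996512637706305535)) (T.h (P (nat_lit 0)) (M (nat_lit 181785815691591679)))))) (T.h (P (nat_lit 0)) (T.h (T.h (P (nat_lit 11941462245276024569856)) (T.h (P (nat_lit 0)) (P (nat_lit 13098606876098560)))) (T.h (P (nat_lit 0)) (M (nat_lit 7865576575860735)))))) (T.h (T.h (P (nat_lit 0)) (T.h (T.h (P (nat_lit 0)) (T.h (M (nat_lit 22805343476339703807)) (T.h (P (nat_lit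 0)) (M (nat_lit 41432074338415))))) (T.h (P (nat_lit 0)) (T.h (T.h (P (nat_lit 0)) (P (nat_lit 26677759400472))) (P (nat_lit 0)))))) (T.h (T.h (T.h (M (nat_lit 4121397066077524983807)) (T.h (P (nat_lit 0)) (M (nat_lit 21245440802947071)))) (T.h (P (nat_lit 0)) (P (nat_lit 3504176986259456)))) (T.h (T.h (P (nat_lit 0)) (T.h (T.h (P (nat_lit 0)) (M (nat_lit 30619395733135))) (P (nat_lit 0)))) (M (nat_lit 7569956503519231))))))), (T.h (T.h (P (nat_lit 0)) (T.h (T.h (P (nat_lit 825243808494547520458850304)) (T.h (P (nat_lit 0)) (T.h (M (nat_lit 26344594233526511992831)) (T.h (P (nat_lit 0)) (M (nat_lit 391640158868422655)))))) (T.h (P (nat_lit 0)) (T.h (T.h (P (nat_lit 452590592553853648896)) (T.h (P (nat_lit 0)) (M (nat_lit 39437525538734079)))) (T.h (P (nat_lit 0)) (P (nat_lit 2367037161553920))))))) (T.h (T.h (T.h (P (nat_lit 0)) (T.h (M (nat_lit 3746786908111961168281599)) (T.h (P (nat_lit 0)) (T.h (P (nat_lit 150605351395472179200)) (T.h (P (nat_lit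 0)) (P (nat_lit 126624751875824))))))) (T.h (P (nat_lit 0)) (T.h (T.h (P (nat_lit 0)) (T.h (P (nat_lit 6725667058576523264)) (T.h (P (nat_lit 0)) (P (nat_lit 20853968390928))))) (T.h (P (nat_lit 0)) (T.h (T.h (P (nat_lit 0)) (M (nat_lit 14115448294655))) (P (nat_lit 0))))))) (T.h (T.h (P (nat_lit 0)) (T.h (T.h (M (nat_lit 4538456619322401882111)) (T.h (P (nat_lit 0)) (M (nat_lit 9636131581935615)))) (T.h (P (nat_lit 0)) (M (nat_lit 18297077188886527))))) (T.h (T.h (T.h (P (nat_lit 0)) (T.h (P (nat_lit 21421683604952449024)) (T.h (P (nat_lit 0)) (M (nat_lit 29896136530671))))) (T.h (P (nat_lit 0)) (T.h (T.h (P (nat_lit 0)) (M (nat_lit 4256921589567))) (P (nat_lit 0))))) (T.h (T.h (P (nat_lit 0)) (P (nat_lit 1673160524251136))) (T.h (T.h (T.h (P (nat_lit 0)) (P (nat_lit 7351350546784))) (P (nat_lit 0))) (P (nat_lit 0)))))))), (T.h (T.h (P (nat_lit 0)) (T.h (T.h (P (nat_lit 0)) (T.h (P (nat_lit 14687585837093898757865472)) (T.h (P (nat_lit 0)) (T.h (P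 (nat_lit 260874937933494222848)) (T.h (P (nat_lit 0)) (M (nat_lit 519960225386687))))))) (T.h (P (nat_lit 0)) (T.h (T.h (P (nat_lit 0)) (T.h (P (nat_lit 19685868038063652864)) (T.h (P (nat_lit 0)) (P (nat_lit 62827191098304))))) (T.h (P (nat_lit 0)) (T.h (T.h (P (nat_lit 0)) (P (nat_lit 5360624420992))) (P (nat_lit 0)))))))) (T.h (T.h (T.h (M (nat_lit 7545880221992805317616861183)) (T.h (P (nat_lit 0)) (T.h (P (nat_lit 135857268729696623788032)) (T.h (P (nat_lit 0)) (M (nat_lit 256185710019379199)))))) (T.h (P (nat_lit 0)) (T.h (T.h (M (nat_lit 10622575404966005964799)) (T.h (P (nat_lit 0)) (M (nat_lit 47295445978382335)))) (T.h (P (nat_lit 0)) (M (nat_lit 48004631291133951)))))) (T.h (T.h (P (nat_lit 0)) (T.h (T.h (P (nat_lit 0)) (T.h (M (nat_lit 102910509908660060159)) (T.h (P (nat_lit 0)) (M (nat_lit 50830335485887))))) (T.h (P (nat_lit 0)) (T.h (T.h (P (nat_lit 0)) (M (nat_lit 8555555049535))) (P (nat_lit 0)))))) (T.h (T.h (T.h (P (nat_lit 931328635943476264960))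 (T.h (P (nat_lit 0)) (M (nat_lit 147449287571701759)))) (T.h (P (nat_lit 0)) (M (nat_lit 29366308743315455)))) (T.h (T.h (P (nat_lit 0)) (T.h (T.h (P (nat_lit 0)) (P (nat_lit 30400262961600))) (P (nat_lit 0)))) (P (nat_lit 12618543294152704))))))), (T.h (T.h (P (nat_lit 0)) (T.h (T.h (P (nat_lit 994755837398416160144228352)) (T.h (P (nat_lit 0)) (T.h (P (nat_lit 62873011426048620888064)) (T.h (P (nat_lit 0)) (P (nat_lit 866541895063420928)))))) (T.h (P (nat_lit 0)) (T.h (T.h (P (nat_lit 1627259457768127463424)) (T.h (P (nat_lit 0)) (P (nat_lit 40138936817926144)))) (T.h (P (nat_lit 0)) (M (nat_lit 1438415993520127))))))) (T.h (T.h (T.h (P (nat_lit 0)) (T.h (P (nat_lit 20370376071632726442115072)) (T.h (P (nat_lit 0)) (T.h (M (nat_lit 74258750209269956607)) (T.h (P (nat_lit 0)) (M (nat_lit 430642633814447))))))) (T.h (P (nat_lit 0)) (T.h (T.h (P (nat_lit 0)) (T.h (M (nat_lit 52736164427403886591)) (T.h (P (nat_lit 0)) (M (nat_lit 64739948756207)))))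 (T.h (P (nat_lit 0)) (T.h (T.h (P (nat_lit 0)) (P (nat_lit 37730281781984))) (P (nat_lit 0))))))) (T.h (T.h (P (nat_lit 0)) (T.h (T.h (P (nat_lit 385848081155304194048)) (T.h (P (nat_lit 0)) (P (nat_lit 102840527015788544)))) (T.h (P (nat_lit 0)) (P (nat_lit 1901487044935680))))) (T.h (T.h (T.h (P (nat_lit 0)) (T.h (M (nat_lit 14468998367255986175)) (T.h (P (nat_lit 0)) (P (nat_lit 847315013424))))) (T.h (P (nat_lit 0)) (T.h (T.h (P (nat_lit 0)) (P (nat_lit 238877194160))) (P (nat_lit 0))))) (T.h (T.h (P (nat_lit 0)) (M (nat_lit 26168110165688319))) (T.h (T.h (T.h (P (nat_lit 0)) (M (nat_lit 6662556455103))) (P (nat_lit 0))) (P (nat_lit 0)))))))), (T.h (T.h (P (nat_lit 0)) (T.h (T.h (P (nat_lit 0)) (T.h (M (nat_lit 8685767576524368306503679)) (T.h (P (nat_lit 0)) (M (nat_lit 126973145165437337599))))) (T.h (P (nat_lit 0)) (T.h (T.h (P (nat_lit 0)) (M (nat_lit 32111403715541336063))) (P (nat_lit 0)))))) (T.h (T.h (T.h (M (nat_lit 3849283284899336926831575039))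 (T.h (P (nat_lit 0)) (T.h (M (nat_lit 7915433807328952975359)) (T.h (P (nat_lit 0)) (P (nat_lit 421785709203062784)))))) (T.h (P (nat_lit 0)) (T.h (T.h (M (nat_lit 318127756473987497983)) (T.h (P (nat_lit 0)) (P (nat_lit 56882161005330432)))) (T.h (P (nat_lit 0)) (M (nat_lit 9836419181182975)))))) (T.h (T.h (P (nat_lit 0)) (T.h (T.h (P (nat_lit 0)) (M (nat_lit 21352153951422644223))) (P (nat_lit 0)))) (T.h (T.h (T.h (M (nat_lit 2169209033493156200447)) (T.h (P (nat_lit 0)) (M (nat_lit 9664805248008191)))) (T.h (P (nat_lit 0)) (M (nat_lit 5667928027332607)))) (T.h (P (nat_lit 0)) (P (nat_lit 411400681750528))))))), (P (nat_lit 0)), (P (nat_lit 0))]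
def lP11_13 : List (T ℤ) := [(T.h (T.h (T.h (M (nat_lit 3050221165982965858891387109375)) (T.h (P (nat_lit 0)) (T.h (M (nat_lit 10781205320472671966724095)) (T.h (P (nat_lit 0)) (T.h (M (nat_lit 127519819597720059903)) (T.h (P (nat_lit 0)) (P (nat_lit 91885726740320)))))))) (T.h (P (nat_lit 0)) (T.h (T.h (P (nat_lit 11271137998804260396990464)) (T.h (P (nat_lit 0)) (T.h (M (nat_lit 22808272842543595519)) (T.h (P (nat_lit 0)) (M (nat_lit 573700470264399)))))) (T.h (P (nat_lit 0)) (T.h (T.h (M (nat_lit 34847022814194565119)) (T.h (P (nat_lit 0)) (M (nat_lit 253534071292367)))) (T.h (P (nat_lit 0)) (P (nat_lit 52247510850896)))))))) (T.h (T.h (P (nat_lit 0)) (T.h (T.h (P (nat_lit 0)) (T.h (M (nat_lit 36962998555645520642047)) (T.h (P (nat_lit 0)) (M (nat_lit 106571254110420991))))) (T.h (P (nat_lit 0)) (T.h (T.h (P (nat_lit 0)) (P (nat_lit 6628057925877760))) (P (nat_lit 0)))))) (T.h (T.h (T.h (P (nat_lit 9117757203258986322722816)) (T.h (P (nat_lit 0))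 (T.h (P (nat_lit 34309527410996936704)) (T.h (P (nat_lit 0)) (M (nat_lit 178724609607039)))))) (T.h (P (nat_lit 0)) (T.h (T.h (M (nat_lit 11974111649612169215)) (T.h (P (nat_lit 0)) (P (nat_lit 129124711451760)))) (T.h (P (nat_lit 0)) (P (nat_lit 45205290417088)))))) (T.h (T.h (P (nat_lit 0)) (T.h (T.h (P (nat_lit 0)) (M (nat_lit 28969748299710463))) (P (nat_lit 0)))) (T.h (T.h (T.h (P (nat_lit 3026623075966779392)) (T.h (P (nat_lit 0)) (P (nat_lit 106079842663632)))) (T.h (P (nat_lit 0)) (M (nat_lit 3296272730431)))) (T.h (P (nat_lit 0)) (P (nat_lit 4793578431152)))))))), (T.h (T.h (T.h (P (nat_lit 0)) (T.h (M (nat_lit 10568642270593862374394953727)) (T.h (P (nat_lit 0)) (T.h (P (nat_lit 140262297202309164171264)) (T.h (P (nat_lit 0)) (M (nat_lit 263332630997860351))))))) (T.h (P (nat_lit 0)) (T.h (T.h (P (nat_lit 0)) (T.h (P (nat_lit 8179832511665811750912)) (T.h (P (nat_lit 0)) (P (nat_lit 126396749802356736))))) (T.h (P (nat_lit 0)) (T.h (T.h (P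 (nat_lit 0)) (P (nat_lit 42281017820037120))) (P (nat_lit 0))))))) (T.h (T.h (P (nat_lit 0)) (T.h (T.h (P (nat_lit 11439208824090017958723584)) (T.h (P (nat_lit 0)) (T.h (P (nat_lit 167073992415295569920)) (T.h (P (nat_lit 0)) (M (nat_lit 216448194887871)))))) (T.h (P (nat_lit 0)) (T.h (T.h (M (nat_lit 25606197467787821055)) (T.h (P (nat_lit 0)) (P (nat_lit 13668783183072)))) (T.h (P (nat_lit 0)) (M (nat_lit 9359451847407))))))) (T.h (T.h (T.h (P (nat_lit 0)) (T.h (P (nat_lit 8179832511665811750912)) (T.h (P (nat_lit 0)) (P (nat_lit 126396749802356736))))) (T.h (P (nat_lit 0)) (T.h (T.h (P (nat_lit 0)) (M (nat_lit 83790289926193151))) (P (nat_lit 0))))) (T.h (T.h (P (nat_lit 0)) (T.h (T.h (M (nat_lit 25606197467787821055)) (T.h (P (nat_lit 0)) (P (nat_lit 13668783183072)))) (T.h (P (nat_lit 0)) (M (nat_lit 9080975901567))))) (T.h (T.h (T.h (P (nat_lit 0)) (P (nat_lit 42281017820037120))) (P (nat_lit 0))) (T.h (T.h (P (nat_lit 0)) (M (nat_lit 9359451847407)))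 (P (nat_lit 0)))))))), (T.h (T.h (T.h (M (nat_lit 451371570892644458700375851007)) (T.h (P (nat_lit 0)) (T.h (M (nat_lit 124140892935933662322491391)) (T.h (P (nat_lit 0)) (T.h (P (nat_lit 110870326665958916096)) (T.h (P (nat_lit 0)) (M (nat_lit 259896371934719)))))))) (T.h (P (nat_lit 0)) (T.h (T.h (M (nat_lit 37919151538686333718364159)) (T.h (P (nat_lit 0)) (T.h (M (nat_lit 358588512846512914431)) (T.h (P (nat_lit 0)) (P (nat_lit 25220496191936)))))) (T.h (P (nat_lit 0)) (T.h (T.h (M (nat_lit 24796098954929373183)) (T.h (P (nat_lit 0)) (P (nat_lit 87479027713152)))) (T.h (P (nat_lit 0)) (M (nat_lit 33585842871871)))))))) (T.h (T.h (P (nat_lit 0)) (T.h (T.h (P (nat_lit 0)) (T.h (M (nat_lit 42988637549822149132287)) (T.h (P (nat_lit 0)) (P (nat_lit 1038887502988050432))))) (T.h (P (nat_lit 0)) (T.h (T.h (P (nat_lit 0)) (P (nat_lit 54255412921630720))) (P (nat_lit 0)))))) (T.h (T.h (T.h (P (nat_lit 4672964246757204557824)) (T.h (P (nat_lit 0)) (T.h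 (M (nat_lit 278979030134133096447)) (T.h (P (nat_lit 0)) (P (nat_lit 25220496191936)))))) (T.h (P (nat_lit 0)) (T.h (T.h (M (nat_lit 38660472408677285887)) (T.h (P (nat_lit 0)) (M (nat_lit 190117580289279)))) (T.h (P (nat_lit 0)) (M (nat_lit 49145268336255)))))) (T.h (T.h (P (nat_lit 0)) (T.h (T.h (P (nat_lit 0)) (M (nat_lit 42406834708414463))) (P (nat_lit 0)))) (T.h (T.h (T.h (P (nat_lit 20156511356041822208)) (T.h (P (nat_lit 0)) (P (nat_lit 87479027713152)))) (T.h (P (nat_lit 0)) (M (nat_lit 49145268336255)))) (T.h (P (nat_lit 0)) (M (nat_lit 33585842871871)))))))), (T.h (T.h (T.h (P (nat_lit 0)) (T.h (P (nat_lit 17659136188694529823951814656)) (T.h (P (nat_lit 0)) (T.h (P (nat_lit 73861470267005309288448)) (T.h (P (nat_lit 0)) (P (nat_lit 598338107407433728))))))) (T.h (P (nat_lit 0)) (T.h (T.h (P (nat_lit 0)) (T.h (P (nat_lit 39795335775124061159424)) (T.h (P (nat_lit 0)) (M (nat_lit 78670430591942655))))) (T.h (P (nat_lit 0)) (T.h (T.h (P (nat_lit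 0)) (M (nat_lit 99868825715032063))) (P (nat_lit 0))))))) (T.h (T.h (P (nat_lit 0)) (T.h (T.h (P (nat_lit 12728157364842137498157056)) (T.h (P (nat_lit 0)) (T.h (M (nat_lit 303699369560303992831)) (T.h (P (nat_lit 0)) (M (nat_lit 170370273170943)))))) (T.h (P (nat_lit 0)) (T.h (T.h (M (nat_lit 15539825767377534975)) (T.h (P (nat_lit 0)) (M (nat_lit 232315348433871)))) (T.h (P (nat_lit 0)) (M (nat_lit 53103933012239))))))) (T.h (T.h (T.h (P (nat_lit 0)) (T.h (P (nat_lit 39795335775124061159424)) (T.h (P (nat_lit 0)) (M (nat_lit 78670430591942655))))) (T.h (P (nat_lit 0)) (T.h (T.h (P (nat_lit 0)) (P (nat_lit 10397342753980416))) (P (nat_lit 0))))) (T.h (T.h (P (nat_lit 0)) (T.h (T.h (M (nat_lit 15539825767377534975)) (T.h (P (nat_lit 0)) (M (nat_lit 232315348433871)))) (T.h (P (nat_lit 0)) (P (nat_lit 1364867077376))))) (T.h (T.h (T.h (P (nat_lit 0)) (M (nat_lit 99868825715032063))) (P (nat_lit 0))) (T.h (T.h (P (nat_lit 0)) (M (nat_lit 53103933012239)))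 (P (nat_lit 0)))))))), (T.h (T.h (T.h (P (nat_lit 6680708591493659502204118106112)) (T.h (P (nat_lit 0)) (T.h (M (nat_lit 2149890956194024676917247)) (T.h (P (nat_lit 0)) (M (nat_lit 8287550168841060351)))))) (T.h (P (nat_lit 0)) (T.h (T.h (P (nat_lit 3152629237428887272554496)) (T.h (P (nat_lit 0)) (M (nat_lit 48278542870674145279)))) (T.h (P (nat_lit 0)) (P (nat_lit 9809641144634572800)))))) (T.h (T.h (P (nat_lit 0)) (T.h (T.h (P (nat_lit 0)) (T.h (M (nat_lit 65334891981411134210047)) (T.h (P (nat_lit 0)) (P (nat_lit 175092994366111744))))) (T.h (P (nat_lit 0)) (T.h (T.h (P (nat_lit 0)) (P (nat_lit 58318068894531584))) (P (nat_lit 0)))))) (T.h (T.h (T.h (P (nat_lit 3152629237428887272554496)) (T.h (P (nat_lit 0)) (M (nat_lit 48278542870674145279)))) (T.h (P (nat_lit 0)) (P (nat_lit 9895869601147781120)))) (T.h (T.h (P (nat_lit 0)) (T.h (T.h (P (nat_lit 0)) (P (nat_lit 58318068894531584))) (P (nat_lit 0)))) (P (nat_lit 9809641144634572800)))))), (P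 (nat_lit 0)), (P (nat_lit 0)), (T.h (T.h (P (nat_lit 0)) (T.h (T.h (P (nat_lit 0)) (T.h (P (nat_lit 23184063137846014708285440)) (T.h (P (nat_lit 0)) (T.h (P (nat_lit 84380841537177649152)) (T.h (P (nat_lit 0)) (M (nat_lit 758417917878207))))))) (T.h (P (nat_lit 0)) (T.h (T.h (P (nat_lit 0)) (T.h (P (nat_lit 114263556908772229120)) (T.h (P (nat_lit 0)) (P (nat_lit 1540299680151472))))) (T.h (P (nat_lit 0)) (T.h (T.h (P (nat_lit 0)) (M (nat_lit 136357517418903))) (P (nat_lit 0)))))))) (T.h (T.h (T.h (P (nat_lit 24720628873632274064840065024)) (T.h (P (nat_lit 0)) (T.h (M (nat_lit 1513734822001993842687)) (T.h (P (nat_lit 0)) (M (nat_lit 36128524567314431)))))) (T.h (P (nat_lit 0)) (T.h (T.h (M (nat_lit 385743763890107318271)) (T.h (P (nat_lit 0)) (M (nat_lit 507231716894048255)))) (T.h (P (nat_lit 0)) (M (nat_lit 40305488974905343)))))) (T.h (T.h (P (nat_lit 0)) (T.h (T.h (P (nat_lit 0)) (T.h (M (nat_lit 330605202168002641919)) (T.h (P (nat_lit 0)) (P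 (nat_lit 479727104432))))) (T.h (P (nat_lit 0)) (T.h (T.h (P (nat_lit 0)) (M (nat_lit 28042525457543))) (P (nat_lit 0)))))) (T.h (T.h (T.h (M (nat_lit 6216352766518433415167)) (T.h (P (nat_lit 0)) (P (nat_lit 44587433648488448)))) (T.h (P (nat_lit 0)) (P (nat_lit 16071640280662016)))) (T.h (T.h (P (nat_lit 0)) (T.h (T.h (P (nat_lit 0)) (P (nat_lit 454401778969128))) (P (nat_lit 0)))) (M (nat_lit 7346128619438079)))))))]
def lP11_14 : List (T ℤ) := [(T.h (T.h (P (nat_lit 0)) (T.h (T.h (P (nat_lit 14882683165086291058843713536)) (T.h (P (nat_lit 0)) (T.h (P (nat_lit 256807096225738805739520)) (T.h (P (nat_lit 0)) (P (nat_lit 1211095121471963136)))))) (T.h (P (nat_lit 0)) (T.h (T.h (P (nat_lit 20929441631043701440512)) (T.h (P (nat_lit 0)) (M (nat_lit 446271242066706431)))) (T.h (P (nat_lit 0)) (M (nat_lit 36176921370558463))))))) (T.h (T.h (T.h (P (nat_lit 0)) (T.h (M (nat_lit 53146542248726677021523967)) (T.h (P (nat_lit 0)) (T.h (P (nat_lit 37051053167047868416))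 (T.h (P (nat_lit 0)) (M (nat_lit 72084300084943))))))) (T.h (P (nat_lit 0)) (T.h (T.h (P (nat_lit 0)) (T.h (M (nat_lit 75408516526748205055)) (T.h (P (nat_lit 0)) (M (nat_lit 75934935373951))))) (T.h (P (nat_lit 0)) (T.h (T.h (P (nat_lit 0)) (P (nat_lit 4164924265456))) (P (nat_lit 0))))))) (T.h (T.h (P (nat_lit 0)) (T.h (T.h (M (nat_lit 18849529835447239311359)) (T.h (P (nat_lit 0)) (M (nat_lit 463891509779316735)))) (T.h (P (nat_lit 0)) (P (nat_lit 102934913059225600))))) (T.h (T.h (T.h (P (nat_lit 0)) (T.h (M (nat_lit 11548678206101913599)) (T.h (P (nat_lit 0)) (P (nat_lit 6711510549152))))) (T.h (P (nat_lit 0)) (T.h (T.h (P (nat_lit 0)) (P (nat_lit 16557836531408))) (P (nat_lit 0))))) (T.h (T.h (P (nat_lit 0)) (P (nat_lit 140018033237983232))) (T.h (T.h (T.h (P (nat_lit 0)) (M (nat_lit 34652740068447))) (P (nat_lit 0))) (P (nat_lit 0)))))))), (T.h (T.h (P (nat_lit 0)) (T.h (T.h (P (nat_lit 0)) (T.h (M (nat_lit 40829821524197619261243391)) (T.h (P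 (nat_lit 0)) (T.h (M (nat_lit 950575920179983679487)) (T.h (P (nat_lit 0)) (M (nat_lit 40638326489599))))))) (T.h (P (nat_lit 0)) (T.h (T.h (P (nat_lit 0)) (T.h (P (nat_lit 181847495206936510464)) (T.h (P (nat_lit 0)) (M (nat_lit 569304909624511))))) (T.h (P (nat_lit 0)) (T.h (T.h (P (nat_lit 0)) (M (nat_lit 34559719305663))) (P (nat_lit 0)))))))) (T.h (T.h (T.h (P (nat_lit 51582408548206184494769635328)) (T.h (P (nat_lit 0)) (T.h (M (nat_lit 200904069181834157621247)) (T.h (P (nat_lit 0)) (P (nat_lit 1043993211476312064)))))) (T.h (P (nat_lit 0)) (T.h (T.h (M (nat_lit 99487948763324301180927)) (T.h (P (nat_lit 0)) (M (nat_lit 96430074812661759)))) (T.h (P (nat_lit 0)) (P (nat_lit 196616084993900544)))))) (T.h (T.h (P (nat_lit 0)) (T.h (T.h (P (nat_lit 0)) (T.h (P (nat_lit 95133925868226740224)) (T.h (P (nat_lit 0)) (M (nat_lit 353210867934847))))) (T.h (P (nat_lit 0)) (T.h (T.h (P (nat_lit 0)) (P (nat_lit 16402866389632))) (P (nat_lit 0)))))) (T.h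 (T.h (T.h (M (nat_lit 117139666033039860826111)) (T.h (P (nat_lit 0)) (P (nat_lit 185561712988880896)))) (T.h (P (nat_lit 0)) (P (nat_lit 199864390115131392)))) (T.h (T.h (P (nat_lit 0)) (T.h (T.h (P (nat_lit 0)) (M (nat_lit 35758438672831))) (P (nat_lit 0)))) (P (nat_lit 70419940393320448))))))), (T.h (T.h (P (nat_lit 0)) (T.h (T.h (P (nat_lit 22056385171391749620211122176)) (T.h (P (nat_lit 0)) (T.h (M (nat_lit 25702737167881122873343)) (T.h (P (nat_lit 0)) (M (nat_lit 2349252942460698623)))))) (T.h (P (nat_lit 0)) (T.h (T.h (M (nat_lit 61689989667755156045823)) (T.h (P (nat_lit 0)) (P (nat_lit 327098498796929024)))) (T.h (P (nat_lit 0)) (P (nat_lit 96786791661895680))))))) (T.h (T.h (T.h (P (nat_lit 0)) (T.h (P (nat_lit 52630575178557683830620160)) (T.h (P (nat_lit 0)) (T.h (P (nat_lit 246123919164382904320)) (T.h (P (nat_lit 0)) (P (nat_lit 323965957366480))))))) (T.h (P (nat_lit 0)) (T.h (T.h (P (nat_lit 0)) (T.h (P (nat_lit 112460165131284774912))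 (T.h (P (nat_lit 0)) (P (nat_lit 357255833203280))))) (T.h (P (nat_lit 0)) (T.h (T.h (P (nat_lit 0)) (P (nat_lit 53051936705152))) (P (nat_lit 0))))))) (T.h (T.h (P (nat_lit 0)) (T.h (T.h (P (nat_lit 24522684844148118257664)) (T.h (P (nat_lit 0)) (P (nat_lit 209679305862021120)))) (T.h (P (nat_lit 0)) (P (nat_lit 61005692873162752))))) (T.h (T.h (T.h (P (nat_lit 0)) (T.h (P (nat_lit 30487834188759171072)) (T.h (P (nat_lit 0)) (P (nat_lit 186187917737008))))) (T.h (P (nat_lit 0)) (T.h (T.h (P (nat_lit 0)) (M (nat_lit 58086204154527))) (P (nat_lit 0))))) (T.h (T.h (P (nat_lit 0)) (P (nat_lit 99933179538800640))) (T.h (T.h (T.h (P (nat_lit 0)) (P (nat_lit 56760557853824))) (P (nat_lit 0))) (P (nat_lit 0)))))))), (T.h (T.h (P (nat_lit 0)) (T.h (T.h (P (nat_lit 0)) (T.h (M (nat_lit 59607409781330600397897727)) (T.h (P (nat_lit 0)) (P (nat_lit 1752441552205047136256))))) (T.h (P (nat_lit 0)) (T.h (T.h (P (nat_lit 0)) (P (nat_lit 18434105099233001472))) (P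 (nat_lit 0)))))) (T.h (T.h (T.h (M (nat_lit 3852606373610495334007439359)) (T.h (P (nat_lit 0)) (T.h (M (nat_lit 245447685447027747979263)) (T.h (P (nat_lit 0)) (M (nat_lit 282237081034981375)))))) (T.h (P (nat_lit 0)) (T.h (T.h (P (nat_lit 6837357369292922814464)) (T.h (P (nat_lit 0)) (M (nat_lit 110716026291683327)))) (T.h (P (nat_lit 0)) (P (nat_lit 59169193778446336)))))) (T.h (T.h (P (nat_lit 0)) (T.h (T.h (P (nat_lit 0)) (P (nat_lit 114307951635558563840))) (P (nat_lit 0)))) (T.h (T.h (T.h (P (nat_lit 22505124835361908850688)) (T.h (P (nat_lit 0)) (M (nat_lit 47461522852282367)))) (T.h (P (nat_lit 0)) (P (nat_lit 46638150502907904)))) (T.h (P (nat_lit 0)) (M (nat_lit 4950061242613759))))))), (P (nat_lit 0)), (P (nat_lit 0)), (T.h (T.h (T.h (P (nat_lit 8948906623492049372850681806848)) (T.h (P (nat_lit 0)) (T.h (P (nat_lit 58882065422910461715677184)) (T.h (P (nat_lit 0)) (T.h (M (nat_lit 68214842172949659647)) (T.h (P (nat_lit 0)) (P (nat_lit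 175710697989216)))))))) (T.h (P (nat_lit 0)) (T.h (T.h (M (nat_lit 4345724974159103378063359)) (T.h (P (nat_lit 0)) (T.h (P (nat_lit 125185706528037928960)) (T.h (P (nat_lit 0)) (M (nat_lit 1144396778049439)))))) (T.h (P (nat_lit 0)) (T.h (T.h (M (nat_lit 150082100589540409343)) (T.h (P (nat_lit 0)) (M (nat_lit 1228136039916415)))) (T.h (P (nat_lit 0)) (P (nat_lit 269274458298416)))))))) (T.h (T.h (P (nat_lit 0)) (T.h (T.h (P (nat_lit 0)) (T.h (P (nat_lit 310208173592460922978304)) (T.h (P (nat_lit 0)) (P (nat_lit 271959458402074624))))) (T.h (P (nat_lit 0)) (T.h (T.h (P (nat_lit 0)) (P (nat_lit 427093878656663552))) (P (nat_lit 0)))))) (T.h (T.h (T.h (P (nat_lit 36267432805759554466873344)) (T.h (P (nat_lit 0)) (T.h (P (nat_lit 30799174921044885504)) (T.h (P (nat_lit 0)) (P (nat_lit 105175988639904)))))) (T.h (P (nat_lit 0)) (T.h (T.h (P (nat_lit 173799879924342849536)) (T.h (P (nat_lit 0)) (M (nat_lit 781042328595599)))) (T.h (P (nat_lit 0)) (M (nat_lit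 188657044678431)))))) (T.h (T.h (P (nat_lit 0)) (T.h (T.h (P (nat_lit 0)) (M (nat_lit 43875112969502719))) (P (nat_lit 0)))) (T.h (T.h (T.h (M (nat_lit 22390230653014638591)) (T.h (P (nat_lit 0)) (M (nat_lit 53105316292191)))) (T.h (P (nat_lit 0)) (M (nat_lit 127853412312319)))) (T.h (P (nat_lit 0)) (P (nat_lit 20292413701888)))))))), (T.h (T.h (T.h (P (nat_lit 0)) (T.h (P (nat_lit 165657683186759434277748736)) (T.h (P (nat_lit 0)) (T.h (M (nat_lit 151525430621372818653183)) (T.h (P (nat_lit 0)) (M (nat_lit 4766301716283391))))))) (T.h (P (nat_lit 0)) (T.h (T.h (P (nat_lit 0)) (T.h (P (nat_lit 12971391210968743673856)) (T.h (P (nat_lit 0)) (M (nat_lit 503218121177612287))))) (T.h (P (nat_lit 0)) (T.h (T.h (P (nat_lit 0)) (P (nat_lit 721582360884019200))) (P (nat_lit 0))))))) (T.h (T.h (P (nat_lit 0)) (T.h (T.h (M (nat_lit 69642946525185967036301311)) (T.h (P (nat_lit 0)) (T.h (P (nat_lit 398757292396802736128)) (T.h (P (nat_lit 0)) (P (nat_lit 20469176266336))))))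 (T.h (P (nat_lit 0)) (T.h (T.h (M (nat_lit 107611019278756610047)) (T.h (P (nat_lit 0)) (P (nat_lit 145511679509456)))) (T.h (P (nat_lit 0)) (P (nat_lit 20495869015824))))))) (T.h (T.h (T.h (P (nat_lit 0)) (T.h (M (nat_lit 9028346044505141542911)) (T.h (P (nat_lit 0)) (M (nat_lit 327822764628525055))))) (T.h (P (nat_lit 0)) (T.h (T.h (P (nat_lit 0)) (P (nat_lit 27697189017501696))) (P (nat_lit 0))))) (T.h (T.h (P (nat_lit 0)) (T.h (T.h (P (nat_lit 30453531548156166144)) (T.h (P (nat_lit 0)) (P (nat_lit 713975442312624)))) (T.h (P (nat_lit 0)) (M (nat_lit 45475820045455))))) (T.h (T.h (T.h (P (nat_lit 0)) (M (nat_lit 169082224198090751))) (P (nat_lit 0))) (T.h (T.h (P (nat_lit 0)) (M (nat_lit 22027988921247))) (P (nat_lit 0))))))))]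
def lP11_15 : List (T ℤ) := [(T.h (T.h (T.h (M (nat_lit 26819273438698777877612882558975)) (T.h (P (nat_lit 0)) (T.h (P (nat_lit 94956833367416378281164800)) (T.h (P (nat_lit 0)) (T.h (M (nat_lit 105726602434612035583)) (T.h (P (nat_lit 0)) (M (nat_lit 144862093652351)))))))) (T.h (P (nat_lit 0)) (T.h (T.h (M (nat_lit 102711645931231509722693631)) (T.h (P (nat_lit 0)) (T.h (M (nat_lit 534161483143095255039)) (T.h (P (nat_lit 0)) (P (nat_lit 262688387398912)))))) (T.h (P (nat_lit 0)) (T.h (T.h (M (nat_lit 338273258655384076287)) (T.h (P (nat_lit 0)) (P (nat_lit 1638605785130944)))) (T.h (P (nat_lit 0)) (M (nat_lit 176948586303359)))))))) (T.h (T.h (P (nat_lit 0)) (T.h (T.h (P (nat_lit 0)) (T.h (P (nat_lit 452762698442645379743744)) (T.h (P (nat_lit 0)) (P (nat_lit 68776434946539520))))) (T.h (P (nat_lit 0)) (T.h (T.h (P (nat_lit 0)) (M (nat_lit 536783623510491135))) (P (nat_lit 0)))))) (T.h (T.h (T.h (M (nat_lit 34474436911378699967791103)) (T.h (P (nat_lit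 0)) (T.h (P (nat_lit 338747948474786906112)) (T.h (P (nat_lit 0)) (P (nat_lit 9606960604224)))))) (T.h (P (nat_lit 0)) (T.h (T.h (P (nat_lit 358647636008428896256)) (T.h (P (nat_lit 0)) (P (nat_lit 665330991811392)))) (T.h (P (nat_lit 0)) (P (nat_lit 5134246787648)))))) (T.h (T.h (P (nat_lit 0)) (T.h (T.h (P (nat_lit 0)) (M (nat_lit 568913496075010047))) (P (nat_lit 0)))) (T.h (T.h (T.h (M (nat_lit 43197256603180990463)) (T.h (P (nat_lit 0)) (M (nat_lit 466928359457407)))) (T.h (P (nat_lit 0)) (P (nat_lit 139694028686272)))) (T.h (P (nat_lit 0)) (P (nat_lit 15993966832384)))))))), (T.h (T.h (T.h (P (nat_lit 0)) (T.h (P (nat_lit 17704389529118597248316342272)) (T.h (P (nat_lit 0)) (T.h (M (nat_lit 80612603565561887064063)) (T.h (P (nat_lit 0)) (P (nat_lit 552199261127180288))))))) (T.h (P (nat_lit 0)) (T.h (T.h (P (nat_lit 0)) (T.h (M (nat_lit 89931286064732739469311)) (T.h (P (nat_lit 0)) (M (nat_lit 315189760276332543))))) (T.h (P (nat_lit 0)) (T.h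 (T.h (P (nat_lit 0)) (M (nat_lit 637775820071223295))) (P (nat_lit 0))))))) (T.h (T.h (P (nat_lit 0)) (T.h (T.h (P (nat_lit 90555554163492652484395008)) (T.h (P (nat_lit 0)) (T.h (P (nat_lit 38138849773442039808)) (T.h (P (nat_lit 0)) (P (nat_lit 1882318035580224)))))) (T.h (P (nat_lit 0)) (T.h (T.h (M (nat_lit 71140088274038554623)) (T.h (P (nat_lit 0)) (P (nat_lit 361794974546192)))) (T.h (P (nat_lit 0)) (P (nat_lit 172986961464416))))))) (T.h (T.h (T.h (P (nat_lit 0)) (T.h (P (nat_lit 179029490075745973698560)) (T.h (P (nat_lit 0)) (P (nat_lit 261691826528878592))))) (T.h (P (nat_lit 0)) (T.h (T.h (P (nat_lit 0)) (M (nat_lit 271088118705799167))) (P (nat_lit 0))))) (T.h (T.h (P (nat_lit 0)) (T.h (T.h (P (nat_lit 14186840661470216192)) (T.h (P (nat_lit 0)) (P (nat_lit 130585546475472)))) (T.h (P (nat_lit 0)) (M (nat_lit 25054827595247))))) (T.h (T.h (T.h (P (nat_lit 0)) (P (nat_lit 328597930403921920))) (P (nat_lit 0))) (T.h (T.h (P (nat_lit 0)) (P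 (nat_lit 110851673169776))) (P (nat_lit 0)))))))), (T.h (T.h (T.h (M (nat_lit 16610131237050969157222881296383)) (T.h (P (nat_lit 0)) (T.h (M (nat_lit 23126752110161750401220607)) (T.h (P (nat_lit 0)) (P (nat_lit 118912105825926381568)))))) (T.h (P (nat_lit 0)) (T.h (T.h (P (nat_lit 78577746382943512002822144)) (T.h (P (nat_lit 0)) (P (nat_lit 254876444120481529856)))) (T.h (P (nat_lit 0)) (M (nat_lit 44363430733904084991)))))) (T.h (T.h (P (nat_lit 0)) (T.h (T.h (P (nat_lit 0)) (T.h (P (nat_lit 170774383045035088150528)) (T.h (P (nat_lit 0)) (M (nat_lit 1474979290622656511))))) (T.h (P (nat_lit 0)) (T.h (T.h (P (nat_lit 0)) (M (nat_lit 116902649026969599))) (P (nat_lit 0)))))) (T.h (T.h (T.h (M (nat_lit 12159185391653889647837183)) (T.h (P (nat_lit 0)) (M (nat_lit 12886189783738482687)))) (T.h (P (nat_lit 0)) (M (nat_lit 26916983604714143743)))) (T.h (T.h (P (nat_lit 0)) (T.h (T.h (P (nat_lit 0)) (P (nat_lit 7959988333117440))) (P (nat_lit 0)))) (M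 (nat_lit 8542965040104341503)))))), (P (nat_lit 0)), (P (nat_lit 0)), (T.h (T.h (P (nat_lit 0)) (T.h (T.h (P (nat_lit 0)) (T.h (P (nat_lit 73173747939004148132872192)) (T.h (P (nat_lit 0)) (T.h (P (nat_lit 100116920423084457984)) (T.h (P (nat_lit 0)) (P (nat_lit 117991229823800))))))) (T.h (P (nat_lit 0)) (T.h (T.h (P (nat_lit 0)) (T.h (M (nat_lit 116599803523993960447)) (T.h (P (nat_lit 0)) (P (nat_lit 653171963338736))))) (T.h (P (nat_lit 0)) (T.h (T.h (P (nat_lit 0)) (M (nat_lit 337384071588415))) (P (nat_lit 0)))))))) (T.h (T.h (T.h (M (nat_lit 4200348833059441627065483263)) (T.h (P (nat_lit 0)) (T.h (P (nat_lit 65771125361030157303808)) (T.h (P (nat_lit 0)) (M (nat_lit 30167563418533887)))))) (T.h (P (nat_lit 0)) (T.h (T.h (P (nat_lit 69003529597436569845760)) (T.h (P (nat_lit 0)) (M (nat_lit 57670842199441407)))) (T.h (P (nat_lit 0)) (P (nat_lit 41492378451836928)))))) (T.h (T.h (P (nat_lit 0)) (T.h (T.h (P (nat_lit 0)) (T.h (M (nat_lit 188914717246885986303))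 (T.h (P (nat_lit 0)) (P (nat_lit 85922873224584))))) (T.h (P (nat_lit 0)) (T.h (T.h (P (nat_lit 0)) (M (nat_lit 231844959378511))) (P (nat_lit 0)))))) (T.h (T.h (T.h (P (nat_lit 57632162401080854970368)) (T.h (P (nat_lit 0)) (P (nat_lit 6577370794098688)))) (T.h (P (nat_lit 0)) (P (nat_lit 124992677276909568)))) (T.h (T.h (P (nat_lit 0)) (T.h (T.h (P (nat_lit 0)) (P (nat_lit 150784410835384))) (P (nat_lit 0)))) (M (nat_lit 30785319001522175))))))), (T.h (T.h (P (nat_lit 0)) (T.h (T.h (P (nat_lit 165657683186759434277748736)) (T.h (P (nat_lit 0)) (T.h (P (nat_lit 12971391210968743673856)) (T.h (P (nat_lit 0)) (P (nat_lit 721582360884019200)))))) (T.h (P (nat_lit 0)) (T.h (T.h (M (nat_lit 151525430621372818653183)) (T.h (P (nat_lit 0)) (M (nat_lit 503218121177612287)))) (T.h (P (nat_lit 0)) (M (nat_lit 4766301716283391))))))) (T.h (T.h (T.h (P (nat_lit 0)) (T.h (M (nat_lit 69642946525185967036301311)) (T.h (P (nat_lit 0)) (T.h (M (nat_lit 107611019278756610047))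 (T.h (P (nat_lit 0)) (P (nat_lit 20495869015824))))))) (T.h (P (nat_lit 0)) (T.h (T.h (P (nat_lit 0)) (T.h (P (nat_lit 398757292396802736128)) (T.h (P (nat_lit 0)) (P (nat_lit 145511679509456))))) (T.h (P (nat_lit 0)) (T.h (T.h (P (nat_lit 0)) (P (nat_lit 20469176266336))) (P (nat_lit 0))))))) (T.h (T.h (P (nat_lit 0)) (T.h (T.h (M (nat_lit 9028346044505141542911)) (T.h (P (nat_lit 0)) (P (nat_lit 27697189017501696)))) (T.h (P (nat_lit 0)) (M (nat_lit 327822764628525055))))) (T.h (T.h (T.h (P (nat_lit 0)) (T.h (P (nat_lit 30453531548156166144)) (T.h (P (nat_lit 0)) (M (nat_lit 45475820045455))))) (T.h (P (nat_lit 0)) (T.h (T.h (P (nat_lit 0)) (P (nat_lit 713975442312624))) (P (nat_lit 0))))) (T.h (T.h (P (nat_lit 0)) (M (nat_lit 169082224198090751))) (T.h (T.h (T.h (P (nat_lit 0)) (M (nat_lit 22027988921247))) (P (nat_lit 0))) (P (nat_lit 0)))))))), (T.h (T.h (P (nat_lit 0)) (T.h (T.h (P (nat_lit 0)) (T.h (M (nat_lit 379881761952645680249962495)) (T.h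 (P (nat_lit 0)) (T.h (M (nat_lit 1061532454852640112639)) (T.h (P (nat_lit 0)) (P (nat_lit 359323624798656))))))) (T.h (P (nat_lit 0)) (T.h (T.h (P (nat_lit 0)) (T.h (M (nat_lit 1952937546873269387263)) (T.h (P (nat_lit 0)) (M (nat_lit 1377247444456703))))) (T.h (P (nat_lit 0)) (T.h (T.h (P (nat_lit 0)) (P (nat_lit 359323624798656))) (P (nat_lit 0)))))))) (T.h (T.h (T.h (M (nat_lit 204624579741806548629973893119)) (T.h (P (nat_lit 0)) (T.h (P (nat_lit 372232361390405832409088)) (T.h (P (nat_lit 0)) (P (nat_lit 259054959866544128)))))) (T.h (P (nat_lit 0)) (T.h (T.h (M (nat_lit 87372054093438497325055)) (T.h (P (nat_lit 0)) (P (nat_lit 299268860508438528)))) (T.h (P (nat_lit 0)) (P (nat_lit 506848848190963712)))))) (T.h (T.h (P (nat_lit 0)) (T.h (T.h (P (nat_lit 0)) (T.h (P (nat_lit 2192958142800296148992)) (T.h (P (nat_lit 0)) (P (nat_lit 228504705620032))))) (T.h (P (nat_lit 0)) (T.h (T.h (P (nat_lit 0)) (P (nat_lit 228504705620032))) (P (nat_lit 0))))))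 (T.h (T.h (T.h (P (nat_lit 327501886745863012745216)) (T.h (P (nat_lit 0)) (M (nat_lit 162434554484064255)))) (T.h (P (nat_lit 0)) (M (nat_lit 118178916928159743)))) (T.h (T.h (P (nat_lit 0)) (T.h (T.h (P (nat_lit 0)) (M (nat_lit 1123590043552511))) (P (nat_lit 0)))) (M (nat_lit 168862143760629759)))))))]
def lP11_16 : List (T ℤ) := [(T.h (T.h (P (nat_lit 0)) (T.h (T.h (P (nat_lit 38654651469590484565549383680)) (T.h (P (nat_lit 0)) (T.h (P (nat_lit 254371583437503744442368)) (T.h (P (nat_lit 0)) (M (nat_lit 863332651526553599)))))) (T.h (P (nat_lit 0)) (T.h (T.h (P (nat_lit 75429900119833793527808)) (T.h (P (nat_lit 0)) (M (nat_lit 1732861195147624447)))) (T.h (P (nat_lit 0)) (P (nat_lit 84372272904028160))))))) (T.h (T.h (T.h (P (nat_lit 0)) (T.h (M (nat_lit 82005352132504340645543935)) (T.h (P (nat_lit 0)) (T.h (P (nat_lit 7255255734206595072)) (T.h (P (nat_lit 0)) (P (nat_lit 128431816472960))))))) (T.h (P (nat_lit 0)) (T.h (T.h (P (nat_lit 0))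 (T.h (P (nat_lit 6781948296333099008)) (T.h (P (nat_lit 0)) (M (nat_lit 150609851272495))))) (T.h (P (nat_lit 0)) (T.h (T.h (P (nat_lit 0)) (P (nat_lit 56095130371632))) (P (nat_lit 0))))))) (T.h (T.h (P (nat_lit 0)) (T.h (T.h (M (nat_lit 398869698903503942975487)) (T.h (P (nat_lit 0)) (P (nat_lit 605362602800644096)))) (T.h (P (nat_lit 0)) (M (nat_lit 103527097765298175))))) (T.h (T.h (T.h (P (nat_lit 0)) (T.h (P (nat_lit 40354807243362795520)) (T.h (P (nat_lit 0)) (M (nat_lit 126198014860367))))) (T.h (P (nat_lit 0)) (T.h (T.h (P (nat_lit 0)) (M (nat_lit 625848463900175))) (P (nat_lit 0))))) (T.h (T.h (P (nat_lit 0)) (P (nat_lit 77592608275103744))) (T.h (T.h (T.h (P (nat_lit 0)) (M (nat_lit 171358582288431))) (P (nat_lit 0))) (P (nat_lit 0)))))))), (T.h (T.h (P (nat_lit 0)) (T.h (T.h (P (nat_lit 0)) (T.h (P (nat_lit 178450648329772352166428672)) (T.h (P (nat_lit 0)) (P (nat_lit 468182160841962946560))))) (T.h (P (nat_lit 0)) (T.h (T.h (P (nat_lit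 0)) (P (nat_lit 312703088898592473088))) (P (nat_lit 0)))))) (T.h (T.h (T.h (P (nat_lit 12264306295860865433992167424)) (T.h (P (nat_lit 0)) (T.h (P (nat_lit 72151306072020993703936)) (T.h (P (nat_lit 0)) (M (nat_lit 353876310217654271)))))) (T.h (P (nat_lit 0)) (T.h (T.h (M (nat_lit 126715159606584970051583)) (T.h (P (nat_lit 0)) (P (nat_lit 329315656024653824)))) (T.h (P (nat_lit 0)) (M (nat_lit 250273072803250175)))))) (T.h (T.h (P (nat_lit 0)) (T.h (T.h (P (nat_lit 0)) (M (nat_lit 632434394254251393023))) (P (nat_lit 0)))) (T.h (T.h (T.h (M (nat_lit 38351697694890571857919)) (T.h (P (nat_lit 0)) (P (nat_lit 12011030252027904)))) (T.h (P (nat_lit 0)) (P (nat_lit 95609950710071296)))) (T.h (P (nat_lit 0)) (P (nat_lit 22986133075853312))))))), (P (nat_lit 0)), (T.h (T.h (T.h (M (nat_lit 2690135357055830871430104350719)) (T.h (P (nat_lit 0)) (T.h (P (nat_lit 14384806625130163086557184)) (T.h (P (nat_lit 0)) (T.h (M (nat_lit 38373990668330598399)) (T.h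 (P (nat_lit 0)) (P (nat_lit 47418413224544)))))))) (T.h (P (nat_lit 0)) (T.h (T.h (P (nat_lit 90428011681613564753215488)) (T.h (P (nat_lit 0)) (T.h (P (nat_lit 133324918198473064448)) (T.h (P (nat_lit 0)) (M (nat_lit 295100164764815)))))) (T.h (P (nat_lit 0)) (T.h (T.h (P (nat_lit 43844494366368333824)) (T.h (P (nat_lit 0)) (M (nat_lit 695768952324207)))) (T.h (P (nat_lit 0)) (P (nat_lit 224402492659280)))))))) (T.h (T.h (P (nat_lit 0)) (T.h (T.h (P (nat_lit 0)) (T.h (P (nat_lit 22079614946469096718336)) (T.h (P (nat_lit 0)) (M (nat_lit 17947052546981887))))) (T.h (P (nat_lit 0)) (T.h (T.h (P (nat_lit 0)) (M (nat_lit 508194556798828543))) (P (nat_lit 0)))))) (T.h (T.h (T.h (P (nat_lit 16316861935119989947236352)) (T.h (P (nat_lit 0)) (T.h (P (nat_lit 5131986785001275392)) (T.h (P (nat_lit 0)) (P (nat_lit 45051490068976)))))) (T.h (P (nat_lit 0)) (T.h (T.h (P (nat_lit 28548711468448612352)) (T.h (P (nat_lit 0)) (P (nat_lit 185852562425680)))) (T.h (P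 (nat_lit 0)) (P (nat_lit 611702451510640)))))) (T.h (T.h (P (nat_lit 0)) (T.h (T.h (P (nat_lit 0)) (M (nat_lit 7266021438980095))) (P (nat_lit 0)))) (T.h (T.h (T.h (M (nat_lit 1828277438623252479)) (T.h (P (nat_lit 0)) (P (nat_lit 48382225412400)))) (T.h (P (nat_lit 0)) (P (nat_lit 121191003591552)))) (T.h (P (nat_lit 0)) (P (nat_lit 18111614746944)))))))), (T.h (T.h (T.h (P (nat_lit 0)) (T.h (P (nat_lit 14882683165086291058843713536)) (T.h (P (nat_lit 0)) (T.h (P (nat_lit 20929441631043701440512)) (T.h (P (nat_lit 0)) (M (nat_lit 36176921370558463))))))) (T.h (P (nat_lit 0)) (T.h (T.h (P (nat_lit 0)) (T.h (P (nat_lit 256807096225738805739520)) (T.h (P (nat_lit 0)) (M (nat_lit 446271242066706431))))) (T.h (P (nat_lit 0)) (T.h (T.h (P (nat_lit 0)) (P (nat_lit 1211095121471963136))) (P (nat_lit 0))))))) (T.h (T.h (P (nat_lit 0)) (T.h (T.h (M (nat_lit 53146542248726677021523967)) (T.h (P (nat_lit 0)) (T.h (M (nat_lit 75408516526748205055)) (T.h (P (nat_lit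 0)) (P (nat_lit 4164924265456)))))) (T.h (P (nat_lit 0)) (T.h (T.h (P (nat_lit 37051053167047868416)) (T.h (P (nat_lit 0)) (M (nat_lit 75934935373951)))) (T.h (P (nat_lit 0)) (M (nat_lit 72084300084943))))))) (T.h (T.h (T.h (P (nat_lit 0)) (T.h (M (nat_lit 18849529835447239311359)) (T.h (P (nat_lit 0)) (P (nat_lit 102934913059225600))))) (T.h (P (nat_lit 0)) (T.h (T.h (P (nat_lit 0)) (M (nat_lit 463891509779316735))) (P (nat_lit 0))))) (T.h (T.h (P (nat_lit 0)) (T.h (T.h (M (nat_lit 11548678206101913599)) (T.h (P (nat_lit 0)) (P (nat_lit 16557836531408)))) (T.h (P (nat_lit 0)) (P (nat_lit 6711510549152))))) (T.h (T.h (T.h (P (nat_lit 0)) (P (nat_lit 140018033237983232))) (P (nat_lit 0))) (T.h (T.h (P (nat_lit 0)) (M (nat_lit 34652740068447))) (P (nat_lit 0)))))))), (T.h (T.h (T.h (P (nat_lit 6079050956271828798893774077952)) (T.h (P (nat_lit 0)) (T.h (M (nat_lit 91783584266237386185244671)) (T.h (P (nat_lit 0)) (T.h (P (nat_lit 72341885501719969792))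 (T.h (P (nat_lit 0)) (M (nat_lit 176948586303359)))))))) (T.h (P (nat_lit 0)) (T.h (T.h (P (nat_lit 14183898082384610450210816)) (T.h (P (nat_lit 0)) (T.h (M (nat_lit 483902684680515747839)) (T.h (P (nat_lit 0)) (P (nat_lit 1638605785130944)))))) (T.h (P (nat_lit 0)) (T.h (T.h (P (nat_lit 1576207568408653332480)) (T.h (P (nat_lit 0)) (P (nat_lit 262688387398912)))) (T.h (P (nat_lit 0)) (M (nat_lit 144862093652351)))))))) (T.h (T.h (P (nat_lit 0)) (T.h (T.h (P (nat_lit 0)) (T.h (M (nat_lit 470964527959331362045951)) (T.h (P (nat_lit 0)) (M (nat_lit 107001692910714879))))) (T.h (P (nat_lit 0)) (T.h (T.h (P (nat_lit 0)) (P (nat_lit 3661697074891587584))) (P (nat_lit 0)))))) (T.h (T.h (T.h (M (nat_lit 35360767025395417506381823)) (T.h (P (nat_lit 0)) (T.h (P (nat_lit 66966561222490587136)) (T.h (P (nat_lit 0)) (P (nat_lit 5134246787648)))))) (T.h (P (nat_lit 0)) (T.h (T.h (M (nat_lit 429635777253873811455)) (T.h (P (nat_lit 0)) (P (nat_lit 665330991811392))))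 (T.h (P (nat_lit 0)) (P (nat_lit 9606960604224)))))) (T.h (T.h (P (nat_lit 0)) (T.h (T.h (P (nat_lit 0)) (M (nat_lit 5975604795670527))) (P (nat_lit 0)))) (T.h (T.h (T.h (M (nat_lit 3904517961192308735)) (T.h (P (nat_lit 0)) (P (nat_lit 139694028686272)))) (T.h (P (nat_lit 0)) (M (nat_lit 466928359457407)))) (T.h (P (nat_lit 0)) (P (nat_lit 15993966832384)))))))), (T.h (T.h (T.h (P (nat_lit 0)) (T.h (P (nat_lit 38654651469590484565549383680)) (T.h (P (nat_lit 0)) (T.h (P (nat_lit 75429900119833793527808)) (T.h (P (nat_lit 0)) (P (nat_lit 84372272904028160))))))) (T.h (P (nat_lit 0)) (T.h (T.h (P (nat_lit 0)) (T.h (P (nat_lit 254371583437503744442368)) (T.h (P (nat_lit 0)) (M (nat_lit 1732861195147624447))))) (T.h (P (nat_lit 0)) (T.h (T.h (P (nat_lit 0)) (M (nat_lit 863332651526553599))) (P (nat_lit 0))))))) (T.h (T.h (P (nat_lit 0)) (T.h (T.h (M (nat_lit 82005352132504340645543935)) (T.h (P (nat_lit 0)) (T.h (P (nat_lit 6781948296333099008)) (T.h (P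 (nat_lit 0)) (P (nat_lit 56095130371632)))))) (T.h (P (nat_lit 0)) (T.h (T.h (P (nat_lit 7255255734206595072)) (T.h (P (nat_lit 0)) (M (nat_lit 150609851272495)))) (T.h (P (nat_lit 0)) (P (nat_lit 128431816472960))))))) (T.h (T.h (T.h (P (nat_lit 0)) (T.h (M (nat_lit 398869698903503942975487)) (T.h (P (nat_lit 0)) (M (nat_lit 103527097765298175))))) (T.h (P (nat_lit 0)) (T.h (T.h (P (nat_lit 0)) (P (nat_lit 605362602800644096))) (P (nat_lit 0))))) (T.h (T.h (P (nat_lit 0)) (T.h (T.h (P (nat_lit 40354807243362795520)) (T.h (P (nat_lit 0)) (M (nat_lit 625848463900175)))) (T.h (P (nat_lit 0)) (M (nat_lit 126198014860367))))) (T.h (T.h (T.h (P (nat_lit 0)) (P (nat_lit 77592608275103744))) (P (nat_lit 0))) (T.h (T.h (P (nat_lit 0)) (M (nat_lit 171358582288431))) (P (nat_lit 0)))))))), (T.h (T.h (T.h (P (nat_lit 19911686985342792395777992818688)) (T.h (P (nat_lit 0)) (T.h (M (nat_lit 66216282854357790449729535)) (T.h (P (nat_lit 0)) (P (nat_lit 89483072378851295232))))))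 (T.h (P (nat_lit 0)) (T.h (T.h (M (nat_lit 66216282854357790449729535)) (T.h (P (nat_lit 0)) (P (nat_lit 1204606997567086002176)))) (T.h (P (nat_lit 0)) (P (nat_lit 89483072378851295232)))))) (T.h (T.h (P (nat_lit 0)) (T.h (T.h (P (nat_lit 0)) (T.h (M (nat_lit 678210062349546654007295)) (T.h (P (nat_lit 0)) (M (nat_lit 180562133041676287))))) (T.h (P (nat_lit 0)) (T.h (T.h (P (nat_lit 0)) (M (nat_lit 180562133041676287))) (P (nat_lit 0)))))) (T.h (T.h (T.h (P (nat_lit 29866378528940360116207616)) (T.h (P (nat_lit 0)) (M (nat_lit 153817068035633053695)))) (T.h (P (nat_lit 0)) (M (nat_lit 153817068035633053695)))) (T.h (T.h (P (nat_lit 0)) (T.h (T.h (P (nat_lit 0)) (P (nat_lit 642979739907260416))) (P (nat_lit 0)))) (P (nat_lit 42188510695096582144))))))]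
def lP11_17 : List (T ℤ) := [(T.h (T.h (P (nat_lit 0)) (T.h (T.h (P (nat_lit 0)) (T.h (P (nat_lit 7767568136061330661572608)) (T.h (P (nat_lit 0)) (T.h (P (nat_lit 16006873665018789888)) (T.h (P (nat_lit 0)) (M (nat_lit 7238687569983))))))) (T.h (P (nat_lit 0)) (T.h (T.h (P (nat_lit 0)) (T.h (P (nat_lit 62422039299732013056)) (T.h (P (nat_lit 0)) (M (nat_lit 104740529347503))))) (T.h (P (nat_lit 0)) (T.h (T.h (P (nat_lit 0)) (P (nat_lit 1076197240586648))) (P (nat_lit 0)))))))) (T.h (T.h (T.h (P (nat_lit 9422099133578870097476321280)) (T.h (P (nat_lit 0)) (T.h (P (nat_lit 7610511668739915644928)) (T.h (P (nat_lit 0)) (P (nat_lit 11273812219789312)))))) (T.h (P (nat_lit 0)) (T.h (T.h (M (nat_lit 19998323685167607054335)) (T.h (P (nat_lit 0)) (M (nat_lit 131379255298686975)))) (T.h (P (nat_lit 0)) (M (nat_lit 167818423914430463)))))) (T.h (T.h (P (nat_lit 0)) (T.h (T.h (P (nat_lit 0)) (T.h (M (nat_lit 27999267637092679679)) (T.h (P (nat_lit 0)) (P (nat_lit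 21245891632488))))) (T.h (P (nat_lit 0)) (T.h (T.h (P (nat_lit 0)) (P (nat_lit 135007709293616))) (P (nat_lit 0)))))) (T.h (T.h (T.h (M (nat_lit 3603468943921617305599)) (T.h (P (nat_lit 0)) (M (nat_lit 11067179892670463)))) (T.h (P (nat_lit 0)) (M (nat_lit 91833471907921919)))) (T.h (T.h (P (nat_lit 0)) (T.h (T.h (P (nat_lit 0)) (M (nat_lit 34734735822511))) (P (nat_lit 0)))) (M (nat_lit 16078282145431551))))))), (T.h (T.h (P (nat_lit 0)) (T.h (T.h (M (nat_lit 10568642270593862374394953727)) (T.h (P (nat_lit 0)) (T.h (P (nat_lit 8179832511665811750912)) (T.h (P (nat_lit 0)) (P (nat_lit 42281017820037120)))))) (T.h (P (nat_lit 0)) (T.h (T.h (P (nat_lit 140262297202309164171264)) (T.h (P (nat_lit 0)) (P (nat_lit 126396749802356736)))) (T.h (P (nat_lit 0)) (M (nat_lit 263332630997860351))))))) (T.h (T.h (T.h (P (nat_lit 0)) (T.h (P (nat_lit 11439208824090017958723584)) (T.h (P (nat_lit 0)) (T.h (M (nat_lit 25606197467787821055)) (T.h (P (nat_lit 0)) (M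 (nat_lit 9359451847407))))))) (T.h (P (nat_lit 0)) (T.h (T.h (P (nat_lit 0)) (T.h (P (nat_lit 167073992415295569920)) (T.h (P (nat_lit 0)) (P (nat_lit 13668783183072))))) (T.h (P (nat_lit 0)) (T.h (T.h (P (nat_lit 0)) (M (nat_lit 216448194887871))) (P (nat_lit 0))))))) (T.h (T.h (P (nat_lit 0)) (T.h (T.h (P (nat_lit 8179832511665811750912)) (T.h (P (nat_lit 0)) (M (nat_lit 83790289926193151)))) (T.h (P (nat_lit 0)) (P (nat_lit 126396749802356736))))) (T.h (T.h (T.h (P (nat_lit 0)) (T.h (M (nat_lit 25606197467787821055)) (T.h (P (nat_lit 0)) (M (nat_lit 9080975901567))))) (T.h (P (nat_lit 0)) (T.h (T.h (P (nat_lit 0)) (P (nat_lit 13668783183072))) (P (nat_lit 0))))) (T.h (T.h (P (nat_lit 0)) (P (nat_lit 42281017820037120))) (T.h (T.h (T.h (P (nat_lit 0)) (M (nat_lit 9359451847407))) (P (nat_lit 0))) (P (nat_lit 0)))))))), (T.h (T.h (P (nat_lit 0)) (T.h (T.h (P (nat_lit 0)) (T.h (P (nat_lit 24593617747856343332552704)) (T.h (P (nat_lit 0)) (T.h (M (nat_lit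 130968615643038875647)) (T.h (P (nat_lit 0)) (M (nat_lit 34559719305663))))))) (T.h (P (nat_lit 0)) (T.h (T.h (P (nat_lit 0)) (T.h (M (nat_lit 1007912995429982142463)) (T.h (P (nat_lit 0)) (M (nat_lit 569304909624511))))) (T.h (P (nat_lit 0)) (T.h (T.h (P (nat_lit 0)) (M (nat_lit 40638326489599))) (P (nat_lit 0)))))))) (T.h (T.h (T.h (P (nat_lit 38925463074152110333261512704)) (T.h (P (nat_lit 0)) (T.h (M (nat_lit 58325728174218793713663)) (T.h (P (nat_lit 0)) (P (nat_lit 112449897471967232)))))) (T.h (P (nat_lit 0)) (T.h (T.h (P (nat_lit 369545719271725232816128)) (T.h (P (nat_lit 0)) (M (nat_lit 175201446627147775)))) (T.h (P (nat_lit 0)) (M (nat_lit 852549878750838783)))))) (T.h (T.h (P (nat_lit 0)) (T.h (T.h (P (nat_lit 0)) (T.h (P (nat_lit 87989143565492027392)) (T.h (P (nat_lit 0)) (P (nat_lit 16402866389632))))) (T.h (P (nat_lit 0)) (T.h (T.h (P (nat_lit 0)) (M (nat_lit 353210867934847))) (P (nat_lit 0)))))) (T.h (T.h (T.h (M (nat_lit 132791242963890449940479))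 (T.h (P (nat_lit 0)) (M (nat_lit 80061814870507519)))) (T.h (P (nat_lit 0)) (P (nat_lit 300563387517009920)))) (T.h (T.h (P (nat_lit 0)) (T.h (T.h (P (nat_lit 0)) (M (nat_lit 35758438672831))) (P (nat_lit 0)))) (P (nat_lit 45792333411090432))))))), (T.h (T.h (P (nat_lit 0)) (T.h (T.h (P (nat_lit 17704389529118597248316342272)) (T.h (P (nat_lit 0)) (T.h (M (nat_lit 89931286064732739469311)) (T.h (P (nat_lit 0)) (M (nat_lit 637775820071223295)))))) (T.h (P (nat_lit 0)) (T.h (T.h (M (nat_lit 80612603565561887064063)) (T.h (P (nat_lit 0)) (M (nat_lit 315189760276332543)))) (T.h (P (nat_lit 0)) (P (nat_lit 552199261127180288))))))) (T.h (T.h (T.h (P (nat_lit 0)) (T.h (P (nat_lit 90555554163492652484395008)) (T.h (P (nat_lit 0)) (T.h (M (nat_lit 71140088274038554623)) (T.h (P (nat_lit 0)) (P (nat_lit 172986961464416))))))) (T.h (P (nat_lit 0)) (T.h (T.h (P (nat_lit 0)) (T.h (P (nat_lit 38138849773442039808)) (T.h (P (nat_lit 0)) (P (nat_lit 361794974546192)))))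 (T.h (P (nat_lit 0)) (T.h (T.h (P (nat_lit 0)) (P (nat_lit 1882318035580224))) (P (nat_lit 0))))))) (T.h (T.h (P (nat_lit 0)) (T.h (T.h (P (nat_lit 179029490075745973698560)) (T.h (P (nat_lit 0)) (M (nat_lit 271088118705799167)))) (T.h (P (nat_lit 0)) (P (nat_lit 261691826528878592))))) (T.h (T.h (T.h (P (nat_lit 0)) (T.h (P (nat_lit 14186840661470216192)) (T.h (P (nat_lit 0)) (M (nat_lit 25054827595247))))) (T.h (P (nat_lit 0)) (T.h (T.h (P (nat_lit 0)) (P (nat_lit 130585546475472))) (P (nat_lit 0))))) (T.h (T.h (P (nat_lit 0)) (P (nat_lit 328597930403921920))) (T.h (T.h (T.h (P (nat_lit 0)) (P (nat_lit 110851673169776))) (P (nat_lit 0))) (P (nat_lit 0)))))))), (T.h (T.h (P (nat_lit 0)) (T.h (T.h (P (nat_lit 0)) (T.h (P (nat_lit 178450648329772352166428672)) (T.h (P (nat_lit 0)) (P (nat_lit 312703088898592473088))))) (T.h (P (nat_lit 0)) (T.h (T.h (P (nat_lit 0)) (P (nat_lit 468182160841962946560))) (P (nat_lit 0)))))) (T.h (T.h (T.h (P (nat_lit 12264306295860865433992167424))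 (T.h (P (nat_lit 0)) (T.h (M (nat_lit 126715159606584970051583)) (T.h (P (nat_lit 0)) (M (nat_lit 250273072803250175)))))) (T.h (P (nat_lit 0)) (T.h (T.h (P (nat_lit 72151306072020993703936)) (T.h (P (nat_lit 0)) (P (nat_lit 329315656024653824)))) (T.h (P (nat_lit 0)) (M (nat_lit 353876310217654271)))))) (T.h (T.h (P (nat_lit 0)) (T.h (T.h (P (nat_lit 0)) (M (nat_lit 632434394254251393023))) (P (nat_lit 0)))) (T.h (T.h (T.h (M (nat_lit 38351697694890571857919)) (T.h (P (nat_lit 0)) (P (nat_lit 95609950710071296)))) (T.h (P (nat_lit 0)) (P (nat_lit 12011030252027904)))) (T.h (P (nat_lit 0)) (P (nat_lit 22986133075853312))))))), (T.h (T.h (T.h (P (nat_lit 0)) (T.h (P (nat_lit 825243808494547520458850304)) (T.h (P (nat_lit 0)) (T.h (P (nat_lit 452590592553853648896)) (T.h (P (nat_lit 0)) (P (nat_lit 2367037161553920))))))) (T.h (P (nat_lit 0)) (T.h (T.h (P (nat_lit 0)) (T.h (M (nat_lit 26344594233526511992831)) (T.h (P (nat_lit 0)) (M (nat_lit 39437525538734079)))))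 (T.h (P (nat_lit 0)) (T.h (T.h (P (nat_lit 0)) (M (nat_lit 391640158868422655))) (P (nat_lit 0))))))) (T.h (T.h (P (nat_lit 0)) (T.h (T.h (M (nat_lit 3746786908111961168281599)) (T.h (P (nat_lit 0)) (T.h (P (nat_lit 6725667058576523264)) (T.h (P (nat_lit 0)) (M (nat_lit 14115448294655)))))) (T.h (P (nat_lit 0)) (T.h (T.h (P (nat_lit 150605351395472179200)) (T.h (P (nat_lit 0)) (P (nat_lit 20853968390928)))) (T.h (P (nat_lit 0)) (P (nat_lit 126624751875824))))))) (T.h (T.h (T.h (P (nat_lit 0)) (T.h (M (nat_lit 4538456619322401882111)) (T.h (P (nat_lit 0)) (M (nat_lit 18297077188886527))))) (T.h (P (nat_lit 0)) (T.h (T.h (P (nat_lit 0)) (M (nat_lit 9636131581935615))) (P (nat_lit 0))))) (T.h (T.h (P (nat_lit 0)) (T.h (T.h (P (nat_lit 21421683604952449024)) (T.h (P (nat_lit 0)) (M (nat_lit 4256921589567)))) (T.h (P (nat_lit 0)) (M (nat_lit 29896136530671))))) (T.h (T.h (T.h (P (nat_lit 0)) (P (nat_lit 1673160524251136))) (P (nat_lit 0))) (T.h (T.h (P (nat_lit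 0)) (P (nat_lit 7351350546784))) (P (nat_lit 0)))))))), (T.h (T.h (T.h (M (nat_lit 4938571078680980398957746192383)) (T.h (P (nat_lit 0)) (T.h (M (nat_lit 17641388210366794535272447)) (T.h (P (nat_lit 0)) (T.h (P (nat_lit 962233098714480640)) (T.h (P (nat_lit 0)) (M (nat_lit 33585842871871)))))))) (T.h (P (nat_lit 0)) (T.h (T.h (M (nat_lit 98586966737565796458823679)) (T.h (P (nat_lit 0)) (T.h (P (nat_lit 22918409602132344832)) (T.h (P (nat_lit 0)) (P (nat_lit 87479027713152)))))) (T.h (P (nat_lit 0)) (T.h (T.h (M (nat_lit 17050150359080632319)) (T.h (P (nat_lit 0)) (P (nat_lit 25220496191936)))) (T.h (P (nat_lit 0)) (M (nat_lit 259896371934719)))))))) (T.h (T.h (P (nat_lit 0)) (T.h (T.h (P (nat_lit 0)) (T.h (P (nat_lit 29511643764035099295744)) (T.h (P (nat_lit 0)) (M (nat_lit 47850695632617471))))) (T.h (P (nat_lit 0)) (T.h (T.h (P (nat_lit 0)) (P (nat_lit 374144111672688640))) (P (nat_lit 0)))))) (T.h (T.h (T.h (M (nat_lit 17836594619523343820259327))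 (T.h (P (nat_lit 0)) (T.h (M (nat_lit 23610914926365769727)) (T.h (P (nat_lit 0)) (M (nat_lit 49145268336255)))))) (T.h (P (nat_lit 0)) (T.h (T.h (M (nat_lit 171860310786876375039)) (T.h (P (nat_lit 0)) (M (nat_lit 190117580289279)))) (T.h (P (nat_lit 0)) (P (nat_lit 25220496191936)))))) (T.h (T.h (P (nat_lit 0)) (T.h (T.h (P (nat_lit 0)) (M (nat_lit 27056780088442879))) (P (nat_lit 0)))) (T.h (T.h (T.h (P (nat_lit 25787116305046831104)) (T.h (P (nat_lit 0)) (M (nat_lit 49145268336255)))) (T.h (P (nat_lit 0)) (P (nat_lit 87479027713152)))) (T.h (P (nat_lit 0)) (M (nat_lit 33585842871871)))))))), (T.h (T.h (T.h (P (nat_lit 0)) (T.h (P (nat_lit 22056385171391749620211122176)) (T.h (P (nat_lit 0)) (T.h (M (nat_lit 61689989667755156045823)) (T.h (P (nat_lit 0)) (P (nat_lit 96786791661895680))))))) (T.h (P (nat_lit 0)) (T.h (T.h (P (nat_lit 0)) (T.h (M (nat_lit 25702737167881122873343)) (T.h (P (nat_lit 0)) (P (nat_lit 327098498796929024))))) (T.h (P (nat_lit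 0)) (T.h (T.h (P (nat_lit 0)) (M (nat_lit 2349252942460698623))) (P (nat_lit 0))))))) (T.h (T.h (P (nat_lit 0)) (T.h (T.h (P (nat_lit 52630575178557683830620160)) (T.h (P (nat_lit 0)) (T.h (P (nat_lit 112460165131284774912)) (T.h (P (nat_lit 0)) (P (nat_lit 53051936705152)))))) (T.h (P (nat_lit 0)) (T.h (T.h (P (nat_lit 246123919164382904320)) (T.h (P (nat_lit 0)) (P (nat_lit 357255833203280)))) (T.h (P (nat_lit 0)) (P (nat_lit 323965957366480))))))) (T.h (T.h (T.h (P (nat_lit 0)) (T.h (P (nat_lit 24522684844148118257664)) (T.h (P (nat_lit 0)) (P (nat_lit 61005692873162752))))) (T.h (P (nat_lit 0)) (T.h (T.h (P (nat_lit 0)) (P (nat_lit 209679305862021120))) (P (nat_lit 0))))) (T.h (T.h (P (nat_lit 0)) (T.h (T.h (P (nat_lit 30487834188759171072)) (T.h (P (nat_lit 0)) (M (nat_lit 58086204154527)))) (T.h (P (nat_lit 0)) (P (nat_lit 186187917737008))))) (T.h (T.h (T.h (P (nat_lit 0)) (P (nat_lit 99933179538800640))) (P (nat_lit 0))) (T.h (T.h (P (nat_lit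 0)) (P (nat_lit 56760557853824))) (P (nat_lit 0))))))))]
def lP11_18 : List (T ℤ) := [(T.h (T.h (T.h (M (nat_lit 16610131237050969157222881296383)) (T.h (P (nat_lit 0)) (T.h (P (nat_lit 78577746382943512002822144)) (T.h (P (nat_lit 0)) (M (nat_lit 44363430733904084991)))))) (T.h (P (nat_lit 0)) (T.h (T.h (M (nat_lit 23126752110161750401220607)) (T.h (P (nat_lit 0)) (P (nat_lit 254876444120481529856)))) (T.h (P (nat_lit 0)) (P (nat_lit 118912105825926381568)))))) (T.h (T.h (P (nat_lit 0)) (T.h (T.h (P (nat_lit 0)) (T.h (P (nat_lit 170774383045035088150528)) (T.h (P (nat_lit 0)) (M (nat_lit 116902649026969599))))) (T.h (P (nat_lit 0)) (T.h (T.h (P (nat_lit 0)) (M (nat_lit 1474979290622656511))) (P (nat_lit 0)))))) (T.h (T.h (T.h (M (nat_lit 12159185391653889647837183)) (T.h (P (nat_lit 0)) (M (nat_lit 26916983604714143743)))) (T.h (P (nat_lit 0)) (M (nat_lit 12886189783738482687)))) (T.h (T.h (P (nat_lit 0)) (T.h (T.h (P (nat_lit 0)) (P (nat_lit 7959988333117440)))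 (P (nat_lit 0)))) (M (nat_lit 8542965040104341503)))))), (T.h (T.h (P (nat_lit 0)) (T.h (T.h (P (nat_lit 0)) (T.h (P (nat_lit 2889557590091532972589056)) (T.h (P (nat_lit 0)) (T.h (P (nat_lit 44671618533919031296)) (T.h (P (nat_lit 0)) (P (nat_lit 5360624420992))))))) (T.h (P (nat_lit 0)) (T.h (T.h (P (nat_lit 0)) (T.h (M (nat_lit 30454085060791369727)) (T.h (P (nat_lit 0)) (P (nat_lit 62827191098304))))) (T.h (P (nat_lit 0)) (T.h (T.h (P (nat_lit 0)) (M (nat_lit 519960225386687))) (P (nat_lit 0)))))))) (T.h (T.h (T.h (M (nat_lit 3780153751771600944814358527)) (T.h (P (nat_lit 0)) (T.h (M (nat_lit 88210354434840985599)) (T.h (P (nat_lit 0)) (M (nat_lit 284494181138431)))))) (T.h (P (nat_lit 0)) (T.h (T.h (P (nat_lit 64746482784571622424576)) (T.h (P (nat_lit 0)) (M (nat_lit 99760511744278527)))) (T.h (P (nat_lit 0)) (M (nat_lit 771336637420175359)))))) (T.h (T.h (P (nat_lit 0)) (T.h (T.h (P (nat_lit 0)) (T.h (M (nat_lit 5856668508896624639)) (T.h (P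 (nat_lit 0)) (M (nat_lit 8555555049535))))) (T.h (P (nat_lit 0)) (T.h (T.h (P (nat_lit 0)) (M (nat_lit 50830335485887))) (P (nat_lit 0)))))) (T.h (T.h (T.h (M (nat_lit 1457770238150346539007)) (T.h (P (nat_lit 0)) (P (nat_lit 14375276557860864)))) (T.h (P (nat_lit 0)) (M (nat_lit 39003143773716479)))) (T.h (T.h (P (nat_lit 0)) (T.h (T.h (P (nat_lit 0)) (P (nat_lit 30400262961600))) (P (nat_lit 0)))) (P (nat_lit 17228509411311616))))))), (T.h (T.h (P (nat_lit 0)) (T.h (T.h (P (nat_lit 17659136188694529823951814656)) (T.h (P (nat_lit 0)) (T.h (P (nat_lit 39795335775124061159424)) (T.h (P (nat_lit 0)) (M (nat_lit 99868825715032063)))))) (T.h (P (nat_lit 0)) (T.h (T.h (P (nat_lit 73861470267005309288448)) (T.h (P (nat_lit 0)) (M (nat_lit 78670430591942655)))) (T.h (P (nat_lit 0)) (P (nat_lit 598338107407433728))))))) (T.h (T.h (T.h (P (nat_lit 0)) (T.h (P (nat_lit 12728157364842137498157056)) (T.h (P (nat_lit 0)) (T.h (M (nat_lit 15539825767377534975))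 (T.h (P (nat_lit 0)) (M (nat_lit 53103933012239))))))) (T.h (P (nat_lit 0)) (T.h (T.h (P (nat_lit 0)) (T.h (M (nat_lit 303699369560303992831)) (T.h (P (nat_lit 0)) (M (nat_lit 232315348433871))))) (T.h (P (nat_lit 0)) (T.h (T.h (P (nat_lit 0)) (M (nat_lit 170370273170943))) (P (nat_lit 0))))))) (T.h (T.h (P (nat_lit 0)) (T.h (T.h (P (nat_lit 39795335775124061159424)) (T.h (P (nat_lit 0)) (P (nat_lit 10397342753980416)))) (T.h (P (nat_lit 0)) (M (nat_lit 78670430591942655))))) (T.h (T.h (T.h (P (nat_lit 0)) (T.h (M (nat_lit 15539825767377534975)) (T.h (P (nat_lit 0)) (P (nat_lit 1364867077376))))) (T.h (P (nat_lit 0)) (T.h (T.h (P (nat_lit 0)) (M (nat_lit 232315348433871))) (P (nat_lit 0))))) (T.h (T.h (P (nat_lit 0)) (M (nat_lit 99868825715032063))) (T.h (T.h (T.h (P (nat_lit 0)) (M (nat_lit 53103933012239))) (P (nat_lit 0))) (P (nat_lit 0)))))))), (T.h (T.h (P (nat_lit 0)) (T.h (T.h (P (nat_lit 0)) (T.h (M (nat_lit 59607409781330600397897727)) (T.h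 (P (nat_lit 0)) (P (nat_lit 18434105099233001472))))) (T.h (P (nat_lit 0)) (T.h (T.h (P (nat_lit 0)) (P (nat_lit 1752441552205047136256))) (P (nat_lit 0)))))) (T.h (T.h (T.h (M (nat_lit 3852606373610495334007439359)) (T.h (P (nat_lit 0)) (T.h (P (nat_lit 6837357369292922814464)) (T.h (P (nat_lit 0)) (P (nat_lit 59169193778446336)))))) (T.h (P (nat_lit 0)) (T.h (T.h (M (nat_lit 245447685447027747979263)) (T.h (P (nat_lit 0)) (M (nat_lit 110716026291683327)))) (T.h (P (nat_lit 0)) (M (nat_lit 282237081034981375)))))) (T.h (T.h (P (nat_lit 0)) (T.h (T.h (P (nat_lit 0)) (P (nat_lit 114307951635558563840))) (P (nat_lit 0)))) (T.h (T.h (T.h (P (nat_lit 22505124835361908850688)) (T.h (P (nat_lit 0)) (P (nat_lit 46638150502907904)))) (T.h (P (nat_lit 0)) (M (nat_lit 47461522852282367)))) (T.h (P (nat_lit 0)) (M (nat_lit 4950061242613759))))))), (T.h (T.h (T.h (P (nat_lit 0)) (T.h (P (nat_lit 994755837398416160144228352)) (T.h (P (nat_lit 0)) (T.h (P (nat_lit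 1627259457768127463424)) (T.h (P (nat_lit 0)) (M (nat_lit 1438415993520127))))))) (T.h (P (nat_lit 0)) (T.h (T.h (P (nat_lit 0)) (T.h (P (nat_lit 62873011426048620888064)) (T.h (P (nat_lit 0)) (P (nat_lit 40138936817926144))))) (T.h (P (nat_lit 0)) (T.h (T.h (P (nat_lit 0)) (P (nat_lit 866541895063420928))) (P (nat_lit 0))))))) (T.h (T.h (P (nat_lit 0)) (T.h (T.h (P (nat_lit 20370376071632726442115072)) (T.h (P (nat_lit 0)) (T.h (M (nat_lit 52736164427403886591)) (T.h (P (nat_lit 0)) (P (nat_lit 37730281781984)))))) (T.h (P (nat_lit 0)) (T.h (T.h (M (nat_lit 74258750209269956607)) (T.h (P (nat_lit 0)) (M (nat_lit 64739948756207)))) (T.h (P (nat_lit 0)) (M (nat_lit 430642633814447))))))) (T.h (T.h (T.h (P (nat_lit 0)) (T.h (P (nat_lit 385848081155304194048)) (T.h (P (nat_lit 0)) (P (nat_lit 1901487044935680))))) (T.h (P (nat_lit 0)) (T.h (T.h (P (nat_lit 0)) (P (nat_lit 102840527015788544))) (P (nat_lit 0))))) (T.h (T.h (P (nat_lit 0)) (T.h (T.h (M (nat_lit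 14468998367255986175)) (T.h (P (nat_lit 0)) (P (nat_lit 238877194160)))) (T.h (P (nat_lit 0)) (P (nat_lit 847315013424))))) (T.h (T.h (T.h (P (nat_lit 0)) (M (nat_lit 26168110165688319))) (P (nat_lit 0))) (T.h (T.h (P (nat_lit 0)) (M (nat_lit 6662556455103))) (P (nat_lit 0)))))))), (T.h (T.h (T.h (P (nat_lit 6680708591493659502204118106112)) (T.h (P (nat_lit 0)) (T.h (P (nat_lit 3152629237428887272554496)) (T.h (P (nat_lit 0)) (P (nat_lit 9809641144634572800)))))) (T.h (P (nat_lit 0)) (T.h (T.h (M (nat_lit 2149890956194024676917247)) (T.h (P (nat_lit 0)) (M (nat_lit 48278542870674145279)))) (T.h (P (nat_lit 0)) (M (nat_lit 8287550168841060351)))))) (T.h (T.h (P (nat_lit 0)) (T.h (T.h (P (nat_lit 0)) (T.h (M (nat_lit 65334891981411134210047)) (T.h (P (nat_lit 0)) (P (nat_lit 58318068894531584))))) (T.h (P (nat_lit 0)) (T.h (T.h (P (nat_lit 0)) (P (nat_lit 175092994366111744))) (P (nat_lit 0)))))) (T.h (T.h (T.h (P (nat_lit 3152629237428887272554496))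 (T.h (P (nat_lit 0)) (P (nat_lit 9895869601147781120)))) (T.h (P (nat_lit 0)) (M (nat_lit 48278542870674145279)))) (T.h (T.h (P (nat_lit 0)) (T.h (T.h (P (nat_lit 0)) (P (nat_lit 58318068894531584))) (P (nat_lit 0)))) (P (nat_lit 9809641144634572800)))))), (T.h (T.h (P (nat_lit 0)) (T.h (T.h (P (nat_lit 0)) (T.h (M (nat_lit 8685767576524368306503679)) (T.h (P (nat_lit 0)) (M (nat_lit 32111403715541336063))))) (T.h (P (nat_lit 0)) (T.h (T.h (P (nat_lit 0)) (M (nat_lit 126973145165437337599))) (P (nat_lit 0)))))) (T.h (T.h (T.h (M (nat_lit 3849283284899336926831575039)) (T.h (P (nat_lit 0)) (T.h (M (nat_lit 318127756473987497983)) (T.h (P (nat_lit 0)) (M (nat_lit 9836419181182975)))))) (T.h (P (nat_lit 0)) (T.h (T.h (M (nat_lit 7915433807328952975359)) (T.h (P (nat_lit 0)) (P (nat_lit 56882161005330432)))) (T.h (P (nat_lit 0)) (P (nat_lit 421785709203062784)))))) (T.h (T.h (P (nat_lit 0)) (T.h (T.h (P (nat_lit 0)) (M (nat_lit 21352153951422644223))) (P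 (nat_lit 0)))) (T.h (T.h (T.h (M (nat_lit 2169209033493156200447)) (T.h (P (nat_lit 0)) (M (nat_lit 5667928027332607)))) (T.h (P (nat_lit 0)) (M (nat_lit 9664805248008191)))) (T.h (P (nat_lit 0)) (P (nat_lit 411400681750528))))))), (M (nat_lit 4410501400340933843783516159999))]
def lP11_19 : List (T ℤ) := [(P (nat_lit 0)), (P (nat_lit 0)), (T.h (T.h (T.h (P (nat_lit 0)) (T.h (M (nat_lit 13616060523248372760361041919)) (T.h (P (nat_lit 0)) (T.h (P (nat_lit 25248286323423985008640)) (T.h (P (nat_lit 0)) (P (nat_lit 97560360966946816))))))) (T.h (P (nat_lit 0)) (T.h (T.h (P (nat_lit 0)) (T.h (P (nat_lit 267052711276420530176)) (T.h (P (nat_lit 0)) (P (nat_lit 29095574034907136))))) (T.h (P (nat_lit 0)) (T.h (T.h (P (nat_lit 0)) (M (nat_lit 1271887051128831))) (P (nat_lit 0))))))) (T.h (T.h (P (nat_lit 0)) (T.h (T.h (P (nat_lit 988941334891427054747648)) (T.h (P (nat_lit 0)) (T.h (P (nat_lit 21892392839739867136)) (T.h (P (nat_lit 0)) (P (nat_lit 43087163693056))))))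 (T.h (P (nat_lit 0)) (T.h (T.h (P (nat_lit 2589773294710292480)) (T.h (P (nat_lit 0)) (P (nat_lit 14981556922784)))) (T.h (P (nat_lit 0)) (M (nat_lit 3269161860247))))))) (T.h (T.h (T.h (P (nat_lit 0)) (T.h (M (nat_lit 1018639444731261616127)) (T.h (P (nat_lit 0)) (P (nat_lit 21287966337204224))))) (T.h (P (nat_lit 0)) (T.h (T.h (P (nat_lit 0)) (M (nat_lit 15203226427064319))) (P (nat_lit 0))))) (T.h (T.h (P (nat_lit 0)) (T.h (T.h (P (nat_lit 4289571691257921536)) (T.h (P (nat_lit 0)) (P (nat_lit 6954812085344)))) (T.h (P (nat_lit 0)) (M (nat_lit 10560971751551))))) (T.h (T.h (T.h (P (nat_lit 0)) (M (nat_lit 3105598149197823))) (P (nat_lit 0))) (T.h (T.h (P (nat_lit 0)) (M (nat_lit 1780149283047))) (P (nat_lit 0)))))))), (T.h (T.h (T.h (P (nat_lit 8381838962715691754272839434240)) (T.h (P (nat_lit 0)) (T.h (M (nat_lit 24966769086201063159103487)) (T.h (P (nat_lit 0)) (T.h (M (nat_lit 91567307508984840191)) (T.h (P (nat_lit 0)) (M (nat_lit 9234645211199))))))))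 (T.h (P (nat_lit 0)) (T.h (T.h (P (nat_lit 94354545371969910472704)) (T.h (P (nat_lit 0)) (T.h (P (nat_lit 8545227737994887168)) (T.h (P (nat_lit 0)) (P (nat_lit 28106565702272)))))) (T.h (P (nat_lit 0)) (T.h (T.h (M (nat_lit 1002665088554893311)) (T.h (P (nat_lit 0)) (M (nat_lit 15443532767759)))) (T.h (P (nat_lit 0)) (M (nat_lit 165424305583)))))))) (T.h (T.h (P (nat_lit 0)) (T.h (T.h (P (nat_lit 0)) (T.h (P (nat_lit 5306139762653476683776)) (T.h (P (nat_lit 0)) (M (nat_lit 8154054174244863))))) (T.h (P (nat_lit 0)) (T.h (T.h (P (nat_lit 0)) (M (nat_lit 21171082134913023))) (P (nat_lit 0)))))) (T.h (T.h (T.h (P (nat_lit 94354545371969910472704)) (T.h (P (nat_lit 0)) (T.h (P (nat_lit 8545227737994887168)) (T.h (P (nat_lit 0)) (P (nat_lit 28106565702272)))))) (T.h (P (nat_lit 0)) (T.h (T.h (P (nat_lit 8284172608572751872)) (T.h (P (nat_lit 0)) (P (nat_lit 35413500645568)))) (T.h (P (nat_lit 0)) (M (nat_lit 4239509951935)))))) (T.h (T.h (P (nat_lit 0))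 (T.h (T.h (P (nat_lit 0)) (M (nat_lit 21171082134913023))) (P (nat_lit 0)))) (T.h (T.h (T.h (M (nat_lit 1002665088554893311)) (T.h (P (nat_lit 0)) (M (nat_lit 15443532767759)))) (T.h (P (nat_lit 0)) (M (nat_lit 4239509951935)))) (T.h (P (nat_lit 0)) (M (nat_lit 165424305583)))))))), (T.h (T.h (T.h (P (nat_lit 0)) (T.h (P (nat_lit 19513362596848012897021853696)) (T.h (P (nat_lit 0)) (T.h (M (nat_lit 63987633135800041865215)) (T.h (P (nat_lit 0)) (M (nat_lit 81349603584901119))))))) (T.h (P (nat_lit 0)) (T.h (T.h (P (nat_lit 0)) (T.h (P (nat_lit 7063357461541198757888)) (T.h (P (nat_lit 0)) (M (nat_lit 48131822609170431))))) (T.h (P (nat_lit 0)) (T.h (T.h (P (nat_lit 0)) (P (nat_lit 14876198407176192))) (P (nat_lit 0))))))) (T.h (T.h (P (nat_lit 0)) (T.h (T.h (M (nat_lit 1375602425031345005658111)) (T.h (P (nat_lit 0)) (T.h (M (nat_lit 65383704587684282367)) (T.h (P (nat_lit 0)) (M (nat_lit 43087163693055)))))) (T.h (P (nat_lit 0)) (T.h (T.h (P (nat_lit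 2413284188405891072)) (T.h (P (nat_lit 0)) (M (nat_lit 10968184504063)))) (T.h (P (nat_lit 0)) (P (nat_lit 2524655571648))))))) (T.h (T.h (T.h (P (nat_lit 0)) (T.h (P (nat_lit 4107924079950048526336)) (T.h (P (nat_lit 0)) (M (nat_lit 85837983571574783))))) (T.h (P (nat_lit 0)) (T.h (T.h (P (nat_lit 0)) (M (nat_lit 5518730472980479))) (P (nat_lit 0))))) (T.h (T.h (P (nat_lit 0)) (T.h (T.h (M (nat_lit 8805342538014654463)) (T.h (P (nat_lit 0)) (M (nat_lit 10968184504063)))) (T.h (P (nat_lit 0)) (P (nat_lit 10560971751552))))) (T.h (T.h (T.h (P (nat_lit 0)) (M (nat_lit 1307171908157439))) (P (nat_lit 0))) (T.h (T.h (P (nat_lit 0)) (P (nat_lit 2524655571648))) (P (nat_lit 0)))))))), (T.h (T.h (T.h (M (nat_lit 3022801708362945769365684879359)) (T.h (P (nat_lit 0)) (T.h (P (nat_lit 35228165051076154056769536)) (T.h (P (nat_lit 0)) (T.h (P (nat_lit 72859096151933059072)) (T.h (P (nat_lit 0)) (P (nat_lit 14511582942912)))))))) (T.h (P (nat_lit 0)) (T.h (T.h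 (M (nat_lit 866842690526014188027903)) (T.h (P (nat_lit 0)) (T.h (P (nat_lit 33338568917978710016)) (T.h (P (nat_lit 0)) (M (nat_lit 56118708733823)))))) (T.h (P (nat_lit 0)) (T.h (T.h (M (nat_lit 2198064352563560447)) (T.h (P (nat_lit 0)) (P (nat_lit 12342157505568)))) (T.h (P (nat_lit 0)) (P (nat_lit 742147470768)))))))) (T.h (T.h (P (nat_lit 0)) (T.h (T.h (P (nat_lit 0)) (T.h (P (nat_lit 9132112169328112041984)) (T.h (P (nat_lit 0)) (M (nat_lit 33744048614539263))))) (T.h (P (nat_lit 0)) (T.h (T.h (P (nat_lit 0)) (P (nat_lit 6924341569585152))) (P (nat_lit 0)))))) (T.h (T.h (T.h (M (nat_lit 866842690526014188027903)) (T.h (P (nat_lit 0)) (T.h (P (nat_lit 33338568917978710016)) (T.h (P (nat_lit 0)) (M (nat_lit 56118708733823)))))) (T.h (P (nat_lit 0)) (T.h (T.h (M (nat_lit 80235081309880319)) (T.h (P (nat_lit 0)) (M (nat_lit 55649786596799)))) (T.h (P (nat_lit 0)) (P (nat_lit 7551023902224)))))) (T.h (T.h (P (nat_lit 0)) (T.h (T.h (P (nat_lit 0))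 (P (nat_lit 6924341569585152))) (P (nat_lit 0)))) (T.h (T.h (T.h (M (nat_lit 2198064352563560447)) (T.h (P (nat_lit 0)) (P (nat_lit 12342157505568)))) (T.h (P (nat_lit 0)) (P (nat_lit 7551023902224)))) (T.h (P (nat_lit 0)) (P (nat_lit 742147470768)))))))), (T.h (T.h (T.h (P (nat_lit 0)) (T.h (M (nat_lit 5897302073599640136660811775)) (T.h (P (nat_lit 0)) (T.h (P (nat_lit 38739346812376056856576)) (T.h (P (nat_lit 0)) (M (nat_lit 16210757382045695))))))) (T.h (P (nat_lit 0)) (T.h (T.h (P (nat_lit 0)) (T.h (M (nat_lit 5209847404018203099135)) (T.h (P (nat_lit 0)) (P (nat_lit 41793132904316928))))) (T.h (P (nat_lit 0)) (T.h (T.h (P (nat_lit 0)) (M (nat_lit 4595770649346047))) (P (nat_lit 0))))))) (T.h (T.h (P (nat_lit 0)) (T.h (T.h (P (nat_lit 386661090139917950910464)) (T.h (P (nat_lit 0)) (P (nat_lit 43491311747944415232)))) (T.h (P (nat_lit 0)) (M (nat_lit 243643318179725311))))) (T.h (T.h (T.h (P (nat_lit 0)) (T.h (M (nat_lit 5209847404018203099135))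 (T.h (P (nat_lit 0)) (P (nat_lit 41793132904316928))))) (T.h (P (nat_lit 0)) (T.h (T.h (P (nat_lit 0)) (P (nat_lit 20721956900044800))) (P (nat_lit 0))))) (T.h (T.h (P (nat_lit 0)) (M (nat_lit 243643318179725311))) (T.h (T.h (T.h (P (nat_lit 0)) (M (nat_lit 4595770649346047))) (P (nat_lit 0))) (P (nat_lit 0))))))), (P (nat_lit 0))]
def lP11_20 : List (T ℤ) := [(P (nat_lit 0)), (T.h (T.h (P (nat_lit 0)) (T.h (T.h (P (nat_lit 16720224391768011437074546688)) (T.h (P (nat_lit 0)) (T.h (M (nat_lit 18013996512637706305535)) (T.h (P (nat_lit 0)) (M (nat_lit 181785815691591679)))))) (T.h (P (nat_lit 0)) (T.h (T.h (M (nat_lit 4121397066077524983807)) (T.h (P (nat_lit 0)) (M (nat_lit 21245440802947071)))) (T.h (P (nat_lit 0)) (M (nat_lit 7569956503519231))))))) (T.h (T.h (T.h (P (nat_lit 0)) (T.h (P (nat_lit 30898303051841342248321024)) (T.h (P (nat_lit 0)) (T.h (P (nat_lit 30680473103448932352)) (T.h (P (nat_lit 0)) (P (nat_lit 329758805387944))))))) (T.h (P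 (nat_lit 0)) (T.h (T.h (P (nat_lit 0)) (T.h (M (nat_lit 22805343476339703807)) (T.h (P (nat_lit 0)) (M (nat_lit 41432074338415))))) (T.h (P (nat_lit 0)) (T.h (T.h (P (nat_lit 0)) (M (nat_lit 30619395733135))) (P (nat_lit 0))))))) (T.h (T.h (P (nat_lit 0)) (T.h (T.h (P (nat_lit 11941462245276024569856)) (T.h (P (nat_lit 0)) (P (nat_lit 13098606876098560)))) (T.h (P (nat_lit 0)) (P (nat_lit 3504176986259456))))) (T.h (T.h (T.h (P (nat_lit 0)) (T.h (P (nat_lit 30219089852804104192)) (T.h (P (nat_lit 0)) (M (nat_lit 101694640089231))))) (T.h (P (nat_lit 0)) (T.h (T.h (P (nat_lit 0)) (P (nat_lit 26677759400472))) (P (nat_lit 0))))) (T.h (T.h (P (nat_lit 0)) (M (nat_lit 7865576575860735))) (T.h (T.h (T.h (P (nat_lit 0)) (P (nat_lit 8721480899840))) (P (nat_lit 0))) (P (nat_lit 0)))))))), (T.h (T.h (P (nat_lit 0)) (T.h (T.h (P (nat_lit 0)) (T.h (M (nat_lit 3746786908111961168281599)) (T.h (P (nat_lit 0)) (T.h (P (nat_lit 150605351395472179200)) (T.h (P (nat_lit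 0)) (P (nat_lit 126624751875824))))))) (T.h (P (nat_lit 0)) (T.h (T.h (P (nat_lit 0)) (T.h (P (nat_lit 21421683604952449024)) (T.h (P (nat_lit 0)) (M (nat_lit 29896136530671))))) (T.h (P (nat_lit 0)) (T.h (T.h (P (nat_lit 0)) (P (nat_lit 7351350546784))) (P (nat_lit 0)))))))) (T.h (T.h (T.h (P (nat_lit 825243808494547520458850304)) (T.h (P (nat_lit 0)) (T.h (M (nat_lit 26344594233526511992831)) (T.h (P (nat_lit 0)) (M (nat_lit 391640158868422655)))))) (T.h (P (nat_lit 0)) (T.h (T.h (M (nat_lit 4538456619322401882111)) (T.h (P (nat_lit 0)) (M (nat_lit 9636131581935615)))) (T.h (P (nat_lit 0)) (P (nat_lit 1673160524251136)))))) (T.h (T.h (P (nat_lit 0)) (T.h (T.h (P (nat_lit 0)) (T.h (P (nat_lit 6725667058576523264)) (T.h (P (nat_lit 0)) (P (nat_lit 20853968390928))))) (T.h (P (nat_lit 0)) (T.h (T.h (P (nat_lit 0)) (M (nat_lit 4256921589567))) (P (nat_lit 0)))))) (T.h (T.h (T.h (P (nat_lit 452590592553853648896)) (T.h (P (nat_lit 0)) (M (nat_lit 39437525538734079))))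 (T.h (P (nat_lit 0)) (M (nat_lit 18297077188886527)))) (T.h (T.h (P (nat_lit 0)) (T.h (T.h (P (nat_lit 0)) (M (nat_lit 14115448294655))) (P (nat_lit 0)))) (P (nat_lit 2367037161553920))))))), (T.h (T.h (P (nat_lit 0)) (T.h (T.h (M (nat_lit 7545880221992805317616861183)) (T.h (P (nat_lit 0)) (T.h (P (nat_lit 135857268729696623788032)) (T.h (P (nat_lit 0)) (M (nat_lit 256185710019379199)))))) (T.h (P (nat_lit 0)) (T.h (T.h (P (nat_lit 931328635943476264960)) (T.h (P (nat_lit 0)) (M (nat_lit 147449287571701759)))) (T.h (P (nat_lit 0)) (P (nat_lit 12618543294152704))))))) (T.h (T.h (T.h (P (nat_lit 0)) (T.h (P (nat_lit 14687585837093898757865472)) (T.h (P (nat_lit 0)) (T.h (P (nat_lit 260874937933494222848)) (T.h (P (nat_lit 0)) (M (nat_lit 519960225386687))))))) (T.h (P (nat_lit 0)) (T.h (T.h (P (nat_lit 0)) (T.h (M (nat_lit 102910509908660060159)) (T.h (P (nat_lit 0)) (M (nat_lit 50830335485887))))) (T.h (P (nat_lit 0)) (T.h (T.h (P (nat_lit 0)) (P (nat_lit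 30400262961600))) (P (nat_lit 0))))))) (T.h (T.h (P (nat_lit 0)) (T.h (T.h (M (nat_lit 10622575404966005964799)) (T.h (P (nat_lit 0)) (M (nat_lit 47295445978382335)))) (T.h (P (nat_lit 0)) (M (nat_lit 29366308743315455))))) (T.h (T.h (T.h (P (nat_lit 0)) (T.h (P (nat_lit 19685868038063652864)) (T.h (P (nat_lit 0)) (P (nat_lit 62827191098304))))) (T.h (P (nat_lit 0)) (T.h (T.h (P (nat_lit 0)) (M (nat_lit 8555555049535))) (P (nat_lit 0))))) (T.h (T.h (P (nat_lit 0)) (M (nat_lit 48004631291133951))) (T.h (T.h (T.h (P (nat_lit 0)) (P (nat_lit 5360624420992))) (P (nat_lit 0))) (P (nat_lit 0)))))))), (T.h (T.h (P (nat_lit 0)) (T.h (T.h (P (nat_lit 0)) (T.h (P (nat_lit 20370376071632726442115072)) (T.h (P (nat_lit 0)) (T.h (M (nat_lit 74258750209269956607)) (T.h (P (nat_lit 0)) (M (nat_lit 430642633814447))))))) (T.h (P (nat_lit 0)) (T.h (T.h (P (nat_lit 0)) (T.h (M (nat_lit 14468998367255986175)) (T.h (P (nat_lit 0)) (P (nat_lit 847315013424))))) (T.h (P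 (nat_lit 0)) (T.h (T.h (P (nat_lit 0)) (M (nat_lit 6662556455103))) (P (nat_lit 0)))))))) (T.h (T.h (T.h (P (nat_lit 994755837398416160144228352)) (T.h (P (nat_lit 0)) (T.h (P (nat_lit 62873011426048620888064)) (T.h (P (nat_lit 0)) (P (nat_lit 866541895063420928)))))) (T.h (P (nat_lit 0)) (T.h (T.h (P (nat_lit 385848081155304194048)) (T.h (P (nat_lit 0)) (P (nat_lit 102840527015788544)))) (T.h (P (nat_lit 0)) (M (nat_lit 26168110165688319)))))) (T.h (T.h (P (nat_lit 0)) (T.h (T.h (P (nat_lit 0)) (T.h (M (nat_lit 52736164427403886591)) (T.h (P (nat_lit 0)) (M (nat_lit 64739948756207))))) (T.h (P (nat_lit 0)) (T.h (T.h (P (nat_lit 0)) (P (nat_lit 238877194160))) (P (nat_lit 0)))))) (T.h (T.h (T.h (P (nat_lit 1627259457768127463424)) (T.h (P (nat_lit 0)) (P (nat_lit 40138936817926144)))) (T.h (P (nat_lit 0)) (P (nat_lit 1901487044935680)))) (T.h (T.h (P (nat_lit 0)) (T.h (T.h (P (nat_lit 0)) (P (nat_lit 37730281781984))) (P (nat_lit 0)))) (M (nat_lit 1438415993520127))))))),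 (T.h (T.h (P (nat_lit 0)) (T.h (T.h (M (nat_lit 3849283284899336926831575039)) (T.h (P (nat_lit 0)) (T.h (M (nat_lit 7915433807328952975359)) (T.h (P (nat_lit 0)) (P (nat_lit 421785709203062784)))))) (T.h (P (nat_lit 0)) (T.h (T.h (M (nat_lit 2169209033493156200447)) (T.h (P (nat_lit 0)) (M (nat_lit 9664805248008191)))) (T.h (P (nat_lit 0)) (P (nat_lit 411400681750528))))))) (T.h (T.h (T.h (P (nat_lit 0)) (T.h (M (nat_lit 8685767576524368306503679)) (T.h (P (nat_lit 0)) (M (nat_lit 126973145165437337599))))) (T.h (P (nat_lit 0)) (T.h (T.h (P (nat_lit 0)) (M (nat_lit 21352153951422644223))) (P (nat_lit 0))))) (T.h (T.h (P (nat_lit 0)) (T.h (T.h (M (nat_lit 318127756473987497983)) (T.h (P (nat_lit 0)) (P (nat_lit 56882161005330432)))) (T.h (P (nat_lit 0)) (M (nat_lit 5667928027332607))))) (T.h (T.h (T.h (P (nat_lit 0)) (M (nat_lit 32111403715541336063))) (P (nat_lit 0))) (T.h (T.h (P (nat_lit 0)) (M (nat_lit 9836419181182975))) (P (nat_lit 0))))))), (P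 (nat_lit 0)), (P (nat_lit 0))]
def lP11_21 : List (T ℤ) := [(T.h (T.h (T.h (P (nat_lit 0)) (T.h (M (nat_lit 4107540118454744305406836735)) (T.h (P (nat_lit 0)) (T.h (P (nat_lit 275914748194599651508224)) (T.h (P (nat_lit 0)) (M (nat_lit 64397609604481023))))))) (T.h (P (nat_lit 0)) (T.h (T.h (P (nat_lit 0)) (T.h (P (nat_lit 76411334190873446449152)) (T.h (P (nat_lit 0)) (M (nat_lit 348959943407828991))))) (T.h (P (nat_lit 0)) (T.h (T.h (P (nat_lit 0)) (P (nat_lit 29781366118481920))) (P (nat_lit 0))))))) (T.h (T.h (P (nat_lit 0)) (T.h (T.h (P (nat_lit 12286498579513349251268608)) (T.h (P (nat_lit 0)) (T.h (M (nat_lit 463049382409797631)) (T.h (P (nat_lit 0)) (P (nat_lit 492984818946880)))))) (T.h (P (nat_lit 0)) (T.h (T.h (M (nat_lit 28241392984444108799)) (T.h (P (nat_lit 0)) (M (nat_lit 384829520269191)))) (T.h (P (nat_lit 0)) (P (nat_lit 13193311699512))))))) (T.h (T.h (T.h (P (nat_lit 0)) (T.h (P (nat_lit 76411334190873446449152)) (T.h (P (nat_lit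 0)) (M (nat_lit 348959943407828991))))) (T.h (P (nat_lit 0)) (T.h (T.h (P (nat_lit 0)) (P (nat_lit 14288014881521664))) (P (nat_lit 0))))) (T.h (T.h (P (nat_lit 0)) (T.h (T.h (M (nat_lit 28241392984444108799)) (T.h (P (nat_lit 0)) (M (nat_lit 384829520269191)))) (T.h (P (nat_lit 0)) (P (nat_lit 84935504053088))))) (T.h (T.h (T.h (P (nat_lit 0)) (P (nat_lit 29781366118481920))) (P (nat_lit 0))) (T.h (T.h (P (nat_lit 0)) (P (nat_lit 13193311699512))) (P (nat_lit 0)))))))), (T.h (T.h (T.h (P (nat_lit 30344427573114699373462243246080)) (T.h (P (nat_lit 0)) (T.h (P (nat_lit 42749967418505435593834496)) (T.h (P (nat_lit 0)) (T.h (M (nat_lit 94730694884021239807)) (T.h (P (nat_lit 0)) (P (nat_lit 126718997086240)))))))) (T.h (P (nat_lit 0)) (T.h (T.h (M (nat_lit 19475102811932868095246335)) (T.h (P (nat_lit 0)) (T.h (P (nat_lit 72237225933937836032)) (T.h (P (nat_lit 0)) (P (nat_lit 505147835109248)))))) (T.h (P (nat_lit 0)) (T.h (T.h (M (nat_lit 10416840898888335359))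 (T.h (P (nat_lit 0)) (M (nat_lit 52802934017023)))) (T.h (P (nat_lit 0)) (P (nat_lit 4922537796320)))))))) (T.h (T.h (P (nat_lit 0)) (T.h (T.h (P (nat_lit 0)) (T.h (P (nat_lit 4140520059830095839232)) (T.h (P (nat_lit 0)) (P (nat_lit 369250227961593856))))) (T.h (P (nat_lit 0)) (T.h (T.h (P (nat_lit 0)) (P (nat_lit 14787398702956544))) (P (nat_lit 0)))))) (T.h (T.h (T.h (M (nat_lit 19475102811932868095246335)) (T.h (P (nat_lit 0)) (T.h (P (nat_lit 72237225933937836032)) (T.h (P (nat_lit 0)) (P (nat_lit 505147835109248)))))) (T.h (P (nat_lit 0)) (T.h (T.h (M (nat_lit 2887048341693136895)) (T.h (P (nat_lit 0)) (M (nat_lit 4856476814431)))) (T.h (P (nat_lit 0)) (P (nat_lit 15613209633584)))))) (T.h (T.h (P (nat_lit 0)) (T.h (T.h (P (nat_lit 0)) (P (nat_lit 14787398702956544))) (P (nat_lit 0)))) (T.h (T.h (T.h (M (nat_lit 10416840898888335359)) (T.h (P (nat_lit 0)) (M (nat_lit 52802934017023)))) (T.h (P (nat_lit 0)) (P (nat_lit 15613209633584)))) (T.h (P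 (nat_lit 0)) (P (nat_lit 4922537796320)))))))), (T.h (T.h (T.h (P (nat_lit 0)) (T.h (P (nat_lit 59252945078247299837092429824)) (T.h (P (nat_lit 0)) (T.h (P (nat_lit 229248632812877991903232)) (T.h (P (nat_lit 0)) (P (nat_lit 812637238409297920))))))) (T.h (P (nat_lit 0)) (T.h (T.h (P (nat_lit 0)) (T.h (M (nat_lit 156218400100666872692735)) (T.h (P (nat_lit 0)) (P (nat_lit 125051970247786496))))) (T.h (P (nat_lit 0)) (T.h (T.h (P (nat_lit 0)) (P (nat_lit 115306280266235904))) (P (nat_lit 0))))))) (T.h (T.h (P (nat_lit 0)) (T.h (T.h (P (nat_lit 50469558689721989852037120)) (T.h (P (nat_lit 0)) (T.h (P (nat_lit 268623155452922822656)) (T.h (P (nat_lit 0)) (M (nat_lit 93310917686911)))))) (T.h (P (nat_lit 0)) (T.h (T.h (P (nat_lit 26346556876392497152)) (T.h (P (nat_lit 0)) (P (nat_lit 168643178788864)))) (T.h (P (nat_lit 0)) (M (nat_lit 40011876594303))))))) (T.h (T.h (T.h (P (nat_lit 0)) (T.h (M (nat_lit 156218400100666872692735)) (T.h (P (nat_lit 0))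 (P (nat_lit 125051970247786496))))) (T.h (P (nat_lit 0)) (T.h (T.h (P (nat_lit 0)) (M (nat_lit 81749391863382015))) (P (nat_lit 0))))) (T.h (T.h (P (nat_lit 0)) (T.h (T.h (P (nat_lit 26346556876392497152)) (T.h (P (nat_lit 0)) (P (nat_lit 168643178788864)))) (T.h (P (nat_lit 0)) (M (nat_lit 105710454429823))))) (T.h (T.h (T.h (P (nat_lit 0)) (P (nat_lit 115306280266235904))) (P (nat_lit 0))) (T.h (T.h (P (nat_lit 0)) (M (nat_lit 40011876594303))) (P (nat_lit 0)))))))), (T.h (T.h (T.h (P (nat_lit 2250382356647252121199050752000)) (T.h (P (nat_lit 0)) (T.h (M (nat_lit 92556984574963557710430207)) (T.h (P (nat_lit 0)) (T.h (M (nat_lit 312258550528070385663)) (T.h (P (nat_lit 0)) (P (nat_lit 260963989865568)))))))) (T.h (P (nat_lit 0)) (T.h (T.h (P (nat_lit 18293379610017684239941632)) (T.h (P (nat_lit 0)) (T.h (M (nat_lit 484886219660933988351)) (T.h (P (nat_lit 0)) (P (nat_lit 111393475380704)))))) (T.h (P (nat_lit 0)) (T.h (T.h (M (nat_lit 7136821473208958975))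 (T.h (P (nat_lit 0)) (P (nat_lit 111849213712368)))) (T.h (P (nat_lit 0)) (P (nat_lit 5407918602768)))))))) (T.h (T.h (P (nat_lit 0)) (T.h (T.h (P (nat_lit 0)) (T.h (M (nat_lit 112881263628990493491199)) (T.h (P (nat_lit 0)) (P (nat_lit 595375839368773632))))) (T.h (P (nat_lit 0)) (T.h (T.h (P (nat_lit 0)) (M (nat_lit 127589950605656063))) (P (nat_lit 0)))))) (T.h (T.h (T.h (P (nat_lit 18293379610017684239941632)) (T.h (P (nat_lit 0)) (T.h (M (nat_lit 484886219660933988351)) (T.h (P (nat_lit 0)) (P (nat_lit 111393475380704)))))) (T.h (P (nat_lit 0)) (T.h (T.h (P (nat_lit 3754220730468794368)) (T.h (P (nat_lit 0)) (P (nat_lit 219844702531872)))) (T.h (P (nat_lit 0)) (M (nat_lit 101794348208783)))))) (T.h (T.h (P (nat_lit 0)) (T.h (T.h (P (nat_lit 0)) (M (nat_lit 127589950605656063))) (P (nat_lit 0)))) (T.h (T.h (T.h (M (nat_lit 7136821473208958975)) (T.h (P (nat_lit 0)) (P (nat_lit 111849213712368)))) (T.h (P (nat_lit 0)) (M (nat_lit 101794348208783))))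 (T.h (P (nat_lit 0)) (P (nat_lit 5407918602768)))))))), (T.h (T.h (T.h (P (nat_lit 0)) (T.h (P (nat_lit 6333693746672335205712265216)) (T.h (P (nat_lit 0)) (T.h (M (nat_lit 28689205413881023823871)) (T.h (P (nat_lit 0)) (M (nat_lit 131164843578556415))))))) (T.h (P (nat_lit 0)) (T.h (T.h (P (nat_lit 0)) (T.h (P (nat_lit 89815812782375762395136)) (T.h (P (nat_lit 0)) (M (nat_lit 71377621700771839))))) (T.h (P (nat_lit 0)) (T.h (T.h (P (nat_lit 0)) (M (nat_lit 42471038032281599))) (P (nat_lit 0))))))) (T.h (T.h (P (nat_lit 0)) (T.h (T.h (P (nat_lit 19535552284481556309868544)) (T.h (P (nat_lit 0)) (M (nat_lit 291345248444695445503)))) (T.h (P (nat_lit 0)) (P (nat_lit 11071743129932529664))))) (T.h (T.h (T.h (P (nat_lit 0)) (T.h (P (nat_lit 89815812782375762395136)) (T.h (P (nat_lit 0)) (M (nat_lit 71377621700771839))))) (T.h (P (nat_lit 0)) (T.h (T.h (P (nat_lit 0)) (M (nat_lit 82129020412035071))) (P (nat_lit 0))))) (T.h (T.h (P (nat_lit 0)) (P (nat_lit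 11071743129932529664))) (T.h (T.h (T.h (P (nat_lit 0)) (M (nat_lit 42471038032281599))) (P (nat_lit 0))) (P (nat_lit 0))))))), (P (nat_lit 0)), (P (nat_lit 0)), (T.h (T.h (P (nat_lit 0)) (T.h (T.h (M (nat_lit 2701803597464350379122622463)) (T.h (P (nat_lit 0)) (T.h (P (nat_lit 130791519240976360013824)) (T.h (P (nat_lit 0)) (P (nat_lit 367126490482573312)))))) (T.h (P (nat_lit 0)) (T.h (T.h (P (nat_lit 42408897784464348807168)) (T.h (P (nat_lit 0)) (P (nat_lit 32593169109319680)))) (T.h (P (nat_lit 0)) (P (nat_lit 67411441131356160))))))) (T.h (T.h (T.h (P (nat_lit 0)) (T.h (M (nat_lit 135375362320327097479856127)) (T.h (P (nat_lit 0)) (T.h (M (nat_lit 155606382169957597183)) (T.h (P (nat_lit 0)) (P (nat_lit 209652406465312))))))) (T.h (P (nat_lit 0)) (T.h (T.h (P (nat_lit 0)) (T.h (M (nat_lit 123741823817952002047)) (T.h (P (nat_lit 0)) (P (nat_lit 746115527544112))))) (T.h (P (nat_lit 0)) (T.h (T.h (P (nat_lit 0)) (M (nat_lit 297684511264999))) (P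 (nat_lit 0))))))) (T.h (T.h (P (nat_lit 0)) (T.h (T.h (M (nat_lit 87112788446216649179135)) (T.h (P (nat_lit 0)) (M (nat_lit 204153046309240831)))) (T.h (P (nat_lit 0)) (P (nat_lit 89162228750811136))))) (T.h (T.h (T.h (P (nat_lit 0)) (T.h (P (nat_lit 73970947616961200128)) (T.h (P (nat_lit 0)) (P (nat_lit 250958008136960))))) (T.h (P (nat_lit 0)) (T.h (T.h (P (nat_lit 0)) (P (nat_lit 229864588273376))) (P (nat_lit 0))))) (T.h (T.h (P (nat_lit 0)) (M (nat_lit 20265644861390847))) (T.h (T.h (T.h (P (nat_lit 0)) (P (nat_lit 65624005949104))) (P (nat_lit 0))) (P (nat_lit 0))))))))]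
def lP11_22 : List (T ℤ) := [(T.h (T.h (P (nat_lit 0)) (T.h (T.h (P (nat_lit 0)) (T.h (P (nat_lit 17379666816507119761620992)) (T.h (P (nat_lit 0)) (T.h (M (nat_lit 780718172717187071999)) (T.h (P (nat_lit 0)) (M (nat_lit 66454312782383))))))) (T.h (P (nat_lit 0)) (T.h (T.h (P (nat_lit 0)) (T.h (P (nat_lit 11789433114952990720)) (T.h (P (nat_lit 0)) (P (nat_lit 353039296888688))))) (T.h (P (nat_lit 0)) (T.h (T.h (P (nat_lit 0)) (M (nat_lit 55568670508703))) (P (nat_lit 0)))))))) (T.h (T.h (T.h (P (nat_lit 15380115727653131485035102208)) (T.h (P (nat_lit 0)) (T.h (P (nat_lit 216780055610455473782784)) (T.h (P (nat_lit 0)) (P (nat_lit 1247862232905646080)))))) (T.h (P (nat_lit 0)) (T.h (T.h (M (nat_lit 11973165008297945726975)) (T.h (P (nat_lit 0)) (M (nat_lit 609359773776707583)))) (T.h (P (nat_lit 0)) (P (nat_lit 146359645562765312)))))) (T.h (T.h (P (nat_lit 0)) (T.h (T.h (P (nat_lit 0)) (T.h (M (nat_lit 178655606925126795263)) (T.h (P (nat_lit 0))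 (M (nat_lit 214678815772191))))) (T.h (P (nat_lit 0)) (T.h (T.h (P (nat_lit 0)) (P (nat_lit 34912500471408))) (P (nat_lit 0)))))) (T.h (T.h (T.h (P (nat_lit 23791495973334847324160)) (T.h (P (nat_lit 0)) (M (nat_lit 484054019528278015)))) (T.h (P (nat_lit 0)) (P (nat_lit 148820429166133248)))) (T.h (T.h (P (nat_lit 0)) (T.h (T.h (P (nat_lit 0)) (P (nat_lit 37646666864368))) (P (nat_lit 0)))) (M (nat_lit 26364715809570815))))))), (T.h (T.h (P (nat_lit 0)) (T.h (T.h (P (nat_lit 16668059683528823549844258816)) (T.h (P (nat_lit 0)) (T.h (P (nat_lit 349617350202979222814720)) (T.h (P (nat_lit 0)) (P (nat_lit 2397534844890349568)))))) (T.h (P (nat_lit 0)) (T.h (T.h (M (nat_lit 228711732591196530278399)) (T.h (P (nat_lit 0)) (M (nat_lit 925108444240871423)))) (T.h (P (nat_lit 0)) (P (nat_lit 288226290564268032))))))) (T.h (T.h (T.h (P (nat_lit 0)) (T.h (P (nat_lit 78643091181592859119714304)) (T.h (P (nat_lit 0)) (T.h (M (nat_lit 490118295586210840575)) (T.h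 (P (nat_lit 0)) (P (nat_lit 51752019734528))))))) (T.h (P (nat_lit 0)) (T.h (T.h (P (nat_lit 0)) (T.h (M (nat_lit 117641187764599783423)) (T.h (P (nat_lit 0)) (M (nat_lit 29409860822207))))) (T.h (P (nat_lit 0)) (T.h (T.h (P (nat_lit 0)) (M (nat_lit 170850741107391))) (P (nat_lit 0))))))) (T.h (T.h (P (nat_lit 0)) (T.h (T.h (P (nat_lit 20938238415108967497728)) (T.h (P (nat_lit 0)) (M (nat_lit 336951512124850175)))) (T.h (P (nat_lit 0)) (P (nat_lit 134406886334005248))))) (T.h (T.h (T.h (P (nat_lit 0)) (T.h (M (nat_lit 94555034986383147007)) (T.h (P (nat_lit 0)) (M (nat_lit 742633037618623))))) (T.h (P (nat_lit 0)) (T.h (T.h (P (nat_lit 0)) (M (nat_lit 113277908187199))) (P (nat_lit 0))))) (T.h (T.h (P (nat_lit 0)) (P (nat_lit 400568970346496))) (T.h (T.h (T.h (P (nat_lit 0)) (M (nat_lit 44899184523903))) (P (nat_lit 0))) (P (nat_lit 0)))))))), (T.h (T.h (P (nat_lit 0)) (T.h (T.h (P (nat_lit 0)) (T.h (M (nat_lit 28274635799503944084881407)) (T.h (P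 (nat_lit 0)) (T.h (P (nat_lit 1212621973166793687040)) (T.h (P (nat_lit 0)) (P (nat_lit 121955344170176))))))) (T.h (P (nat_lit 0)) (T.h (T.h (P (nat_lit 0)) (T.h (P (nat_lit 135197495194252476416)) (T.h (P (nat_lit 0)) (P (nat_lit 145380656903328))))) (T.h (P (nat_lit 0)) (T.h (T.h (P (nat_lit 0)) (P (nat_lit 66604191561776))) (P (nat_lit 0)))))))) (T.h (T.h (T.h (P (nat_lit 37290123923396345576130871296)) (T.h (P (nat_lit 0)) (T.h (M (nat_lit 216615402926984000438271)) (T.h (P (nat_lit 0)) (M (nat_lit 2408653964429623295)))))) (T.h (P (nat_lit 0)) (T.h (T.h (M (nat_lit 26065561976378344079359)) (T.h (P (nat_lit 0)) (M (nat_lit 271446362752925695)))) (T.h (P (nat_lit 0)) (P (nat_lit 137590494587011072)))))) (T.h (T.h (P (nat_lit 0)) (T.h (T.h (P (nat_lit 0)) (T.h (P (nat_lit 292845057866878418944)) (T.h (P (nat_lit 0)) (P (nat_lit 196489953460944))))) (T.h (P (nat_lit 0)) (T.h (T.h (P (nat_lit 0)) (M (nat_lit 212037508337423))) (P (nat_lit 0))))))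 (T.h (T.h (T.h (M (nat_lit 83384638649807436513279)) (T.h (P (nat_lit 0)) (P (nat_lit 444163933741268992)))) (T.h (P (nat_lit 0)) (P (nat_lit 214512770539110400)))) (T.h (T.h (P (nat_lit 0)) (T.h (T.h (P (nat_lit 0)) (P (nat_lit 6113804648160))) (P (nat_lit 0)))) (P (nat_lit 88760662273196032))))))), (T.h (T.h (P (nat_lit 0)) (T.h (T.h (P (nat_lit 5627338853244708344937054208)) (T.h (P (nat_lit 0)) (T.h (M (nat_lit 497853062471768386568191)) (T.h (P (nat_lit 0)) (M (nat_lit 123288370909806591)))))) (T.h (P (nat_lit 0)) (T.h (T.h (P (nat_lit 14449164374880544620544)) (T.h (P (nat_lit 0)) (M (nat_lit 121245971013926911)))) (T.h (P (nat_lit 0)) (M (nat_lit 8554639390932991))))))) (T.h (T.h (T.h (P (nat_lit 0)) (T.h (P (nat_lit 8873249925010409236987904)) (T.h (P (nat_lit 0)) (P (nat_lit 1675819003399964196864))))) (T.h (P (nat_lit 0)) (T.h (T.h (P (nat_lit 0)) (P (nat_lit 142869371267454074880))) (P (nat_lit 0))))) (T.h (T.h (P (nat_lit 0)) (T.h (T.h (M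 (nat_lit 8392513750900005666815)) (T.h (P (nat_lit 0)) (M (nat_lit 61852061350625279)))) (T.h (P (nat_lit 0)) (P (nat_lit 114524215843454976))))) (T.h (T.h (T.h (P (nat_lit 0)) (P (nat_lit 30364639935229591552))) (P (nat_lit 0))) (T.h (T.h (P (nat_lit 0)) (P (nat_lit 86201168399007744))) (P (nat_lit 0))))))), (P (nat_lit 0)), (P (nat_lit 0)), (T.h (T.h (T.h (P (nat_lit 0)) (T.h (M (nat_lit 22104091901107504304376250367)) (T.h (P (nat_lit 0)) (T.h (M (nat_lit 101575603554824172339199)) (T.h (P (nat_lit 0)) (P (nat_lit 166862766999830528))))))) (T.h (P (nat_lit 0)) (T.h (T.h (P (nat_lit 0)) (T.h (P (nat_lit 265432002081934186381312)) (T.h (P (nat_lit 0)) (P (nat_lit 692769815332487168))))) (T.h (P (nat_lit 0)) (T.h (T.h (P (nat_lit 0)) (M (nat_lit 108164584080244735))) (P (nat_lit 0))))))) (T.h (T.h (P (nat_lit 0)) (T.h (T.h (M (nat_lit 34254519714937530390413311)) (T.h (P (nat_lit 0)) (T.h (M (nat_lit 415238262945889648639)) (T.h (P (nat_lit 0)) (M (nat_lit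 322669152633231)))))) (T.h (P (nat_lit 0)) (T.h (T.h (P (nat_lit 221365810823784562688)) (T.h (P (nat_lit 0)) (P (nat_lit 1811791968199640)))) (T.h (P (nat_lit 0)) (P (nat_lit 119255286284848))))))) (T.h (T.h (T.h (P (nat_lit 0)) (T.h (M (nat_lit 124784113349167094431743)) (T.h (P (nat_lit 0)) (M (nat_lit 310718183101726719))))) (T.h (P (nat_lit 0)) (T.h (T.h (P (nat_lit 0)) (M (nat_lit 956220861495934975))) (P (nat_lit 0))))) (T.h (T.h (P (nat_lit 0)) (T.h (T.h (P (nat_lit 38720956170330177536)) (T.h (P (nat_lit 0)) (M (nat_lit 454489044396063)))) (T.h (P (nat_lit 0)) (P (nat_lit 217997659630480))))) (T.h (T.h (T.h (P (nat_lit 0)) (M (nat_lit 28025252770054143))) (P (nat_lit 0))) (T.h (T.h (P (nat_lit 0)) (P (nat_lit 212987210345448))) (P (nat_lit 0)))))))), (T.h (T.h (T.h (P (nat_lit 43208653158815113777419300896768)) (T.h (P (nat_lit 0)) (T.h (M (nat_lit 4719205070773021623451647)) (T.h (P (nat_lit 0)) (T.h (M (nat_lit 13314922712594907135)) (T.h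 (P (nat_lit 0)) (M (nat_lit 42414864655807)))))))) (T.h (P (nat_lit 0)) (T.h (T.h (P (nat_lit 72576428199824804957650944)) (T.h (P (nat_lit 0)) (T.h (P (nat_lit 349703550122757980160)) (T.h (P (nat_lit 0)) (M (nat_lit 231229981354351)))))) (T.h (P (nat_lit 0)) (T.h (T.h (P (nat_lit 18074038190473216000)) (T.h (P (nat_lit 0)) (M (nat_lit 327497488157023)))) (T.h (P (nat_lit 0)) (P (nat_lit 8996294111232)))))))) (T.h (T.h (P (nat_lit 0)) (T.h (T.h (P (nat_lit 0)) (T.h (P (nat_lit 286759272025000683503616)) (T.h (P (nat_lit 0)) (P (nat_lit 30305883593474048))))) (T.h (P (nat_lit 0)) (T.h (T.h (P (nat_lit 0)) (M (nat_lit 46517125578522623))) (P (nat_lit 0)))))) (T.h (T.h (T.h (P (nat_lit 67259404014983158622584832)) (T.h (P (nat_lit 0)) (T.h (P (nat_lit 293885440176372580352)) (T.h (P (nat_lit 0)) (M (nat_lit 44080486814863)))))) (T.h (P (nat_lit 0)) (T.h (T.h (P (nat_lit 117552525714856607744)) (T.h (P (nat_lit 0)) (P (nat_lit 1072805312553536)))) (T.h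 (P (nat_lit 0)) (P (nat_lit 22641495733792)))))) (T.h (T.h (P (nat_lit 0)) (T.h (T.h (P (nat_lit 0)) (M (nat_lit 463859412333428735))) (P (nat_lit 0)))) (T.h (T.h (T.h (M (nat_lit 69697321268815069183)) (T.h (P (nat_lit 0)) (M (nat_lit 136648851742367)))) (T.h (P (nat_lit 0)) (P (nat_lit 26340637608960)))) (T.h (P (nat_lit 0)) (P (nat_lit 42191720135392))))))))]
def lP11_23 : List (T ℤ) := [(T.h (T.h (T.h (P (nat_lit 0)) (T.h (M (nat_lit 39922114480524796813220249599)) (T.h (P (nat_lit 0)) (T.h (M (nat_lit 760442022012652592562175)) (T.h (P (nat_lit 0)) (P (nat_lit 321913026383773696))))))) (T.h (P (nat_lit 0)) (T.h (T.h (P (nat_lit 0)) (T.h (M (nat_lit 235705695844198669877247)) (T.h (P (nat_lit 0)) (P (nat_lit 44325914313588736))))) (T.h (P (nat_lit 0)) (T.h (T.h (P (nat_lit 0)) (P (nat_lit 251989686659973120))) (P (nat_lit 0))))))) (T.h (T.h (P (nat_lit 0)) (T.h (T.h (M (nat_lit 170225242134397112389992447)) (T.h (P (nat_lit 0)) (T.h (M (nat_lit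 172626538980066721791)) (T.h (P (nat_lit 0)) (M (nat_lit 304057911904575)))))) (T.h (P (nat_lit 0)) (T.h (T.h (P (nat_lit 299863005869694255104)) (T.h (P (nat_lit 0)) (M (nat_lit 71092680409855)))) (T.h (P (nat_lit 0)) (P (nat_lit 139590809213760))))))) (T.h (T.h (T.h (P (nat_lit 0)) (T.h (M (nat_lit 354108966750097843945471)) (T.h (P (nat_lit 0)) (M (nat_lit 1339971673303810047))))) (T.h (P (nat_lit 0)) (T.h (T.h (P (nat_lit 0)) (P (nat_lit 1143806116378148864))) (P (nat_lit 0))))) (T.h (T.h (P (nat_lit 0)) (T.h (T.h (P (nat_lit 479259445294006272)) (T.h (P (nat_lit 0)) (P (nat_lit 299226266042112)))) (T.h (P (nat_lit 0)) (P (nat_lit 54212487964352))))) (T.h (T.h (T.h (P (nat_lit 0)) (M (nat_lit 254820433037426687))) (P (nat_lit 0))) (T.h (T.h (P (nat_lit 0)) (P (nat_lit 43684823795648))) (P (nat_lit 0)))))))), (T.h (T.h (T.h (P (nat_lit 9842828176903212546727859978240)) (T.h (P (nat_lit 0)) (T.h (P (nat_lit 320469631190882521324716032)) (T.h (P (nat_lit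 0)) (T.h (P (nat_lit 210997532023150608384)) (T.h (P (nat_lit 0)) (M (nat_lit 170030783852159)))))))) (T.h (P (nat_lit 0)) (T.h (T.h (M (nat_lit 156975126325488610199994367)) (T.h (P (nat_lit 0)) (T.h (M (nat_lit 342410088431271018495)) (T.h (P (nat_lit 0)) (M (nat_lit 1488234846215567)))))) (T.h (P (nat_lit 0)) (T.h (T.h (M (nat_lit 69165089831692271615)) (T.h (P (nat_lit 0)) (P (nat_lit 74244844808288)))) (T.h (P (nat_lit 0)) (M (nat_lit 148769173545343)))))))) (T.h (T.h (P (nat_lit 0)) (T.h (T.h (P (nat_lit 0)) (T.h (M (nat_lit 68708426816214420946943)) (T.h (P (nat_lit 0)) (M (nat_lit 941031378902941695))))) (T.h (P (nat_lit 0)) (T.h (T.h (P (nat_lit 0)) (P (nat_lit 130717729978974208))) (P (nat_lit 0)))))) (T.h (T.h (T.h (M (nat_lit 83811693614592676266508287)) (T.h (P (nat_lit 0)) (T.h (M (nat_lit 186299037107603111935)) (T.h (P (nat_lit 0)) (M (nat_lit 251656292397487)))))) (T.h (P (nat_lit 0)) (T.h (T.h (P (nat_lit 48088645099138842624)) (T.h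 (P (nat_lit 0)) (P (nat_lit 344783284634976)))) (T.h (P (nat_lit 0)) (P (nat_lit 327319259258288)))))) (T.h (T.h (P (nat_lit 0)) (T.h (T.h (P (nat_lit 0)) (P (nat_lit 19545118180081664))) (P (nat_lit 0)))) (T.h (T.h (T.h (P (nat_lit 19580335360942538752)) (T.h (P (nat_lit 0)) (M (nat_lit 107497428313791)))) (T.h (P (nat_lit 0)) (P (nat_lit 162584894039040)))) (T.h (P (nat_lit 0)) (M (nat_lit 58880536840751)))))))), (T.h (T.h (T.h (P (nat_lit 0)) (T.h (M (nat_lit 6186404307439879652053614591)) (T.h (P (nat_lit 0)) (T.h (M (nat_lit 278193744780241659756543)) (T.h (P (nat_lit 0)) (P (nat_lit 106917404220751872))))))) (T.h (P (nat_lit 0)) (T.h (T.h (P (nat_lit 0)) (T.h (P (nat_lit 252526146684295426605056)) (T.h (P (nat_lit 0)) (P (nat_lit 960612832525778944))))) (T.h (P (nat_lit 0)) (T.h (T.h (P (nat_lit 0)) (M (nat_lit 99525833845407743))) (P (nat_lit 0))))))) (T.h (T.h (P (nat_lit 0)) (T.h (T.h (P (nat_lit 2557549714804987748417536)) (T.h (P (nat_lit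 0)) (P (nat_lit 940983863521673478144)))) (T.h (P (nat_lit 0)) (P (nat_lit 10009059546149945344))))) (T.h (T.h (T.h (P (nat_lit 0)) (T.h (P (nat_lit 198966467875785016344576)) (T.h (P (nat_lit 0)) (P (nat_lit 46838032368730112))))) (T.h (P (nat_lit 0)) (T.h (T.h (P (nat_lit 0)) (P (nat_lit 22491614153244672))) (P (nat_lit 0))))) (T.h (T.h (P (nat_lit 0)) (M (nat_lit 71045193053887266815))) (T.h (T.h (T.h (P (nat_lit 0)) (M (nat_lit 13949065269936127))) (P (nat_lit 0))) (P (nat_lit 0))))))), (P (nat_lit 0)), (P (nat_lit 0)), (T.h (T.h (P (nat_lit 0)) (T.h (T.h (P (nat_lit 44043784279207796534442721280)) (T.h (P (nat_lit 0)) (T.h (P (nat_lit 37034566795540832452608)) (T.h (P (nat_lit 0)) (P (nat_lit 104435568755769344)))))) (T.h (P (nat_lit 0)) (T.h (T.h (P (nat_lit 253142148029226709680128)) (T.h (P (nat_lit 0)) (P (nat_lit 361247566721351680)))) (T.h (P (nat_lit 0)) (P (nat_lit 62156344611700736))))))) (T.h (T.h (T.h (P (nat_lit 0)) (T.h (P (nat_lit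 60883256690989353754689536)) (T.h (P (nat_lit 0)) (T.h (M (nat_lit 42063747234597437439)) (T.h (P (nat_lit 0)) (M (nat_lit 1677232300423))))))) (T.h (P (nat_lit 0)) (T.h (T.h (P (nat_lit 0)) (T.h (P (nat_lit 195431889491831291904)) (T.h (P (nat_lit 0)) (P (nat_lit 163138853477600))))) (T.h (P (nat_lit 0)) (T.h (T.h (P (nat_lit 0)) (P (nat_lit 323372860184928))) (P (nat_lit 0))))))) (T.h (T.h (P (nat_lit 0)) (T.h (T.h (P (nat_lit 46838045802751248564224)) (T.h (P (nat_lit 0)) (M (nat_lit 188076409481560063)))) (T.h (P (nat_lit 0)) (M (nat_lit 446840307743752191))))) (T.h (T.h (T.h (P (nat_lit 0)) (T.h (M (nat_lit 43666829013879357439)) (T.h (P (nat_lit 0)) (P (nat_lit 100633830132304))))) (T.h (P (nat_lit 0)) (T.h (T.h (P (nat_lit 0)) (M (nat_lit 303064938009303))) (P (nat_lit 0))))) (T.h (T.h (P (nat_lit 0)) (M (nat_lit 75287729253220351))) (T.h (T.h (T.h (P (nat_lit 0)) (M (nat_lit 76044014823727))) (P (nat_lit 0))) (P (nat_lit 0)))))))), (T.h (T.h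 (P (nat_lit 0)) (T.h (T.h (P (nat_lit 0)) (T.h (P (nat_lit 68488995703743986117115904)) (T.h (P (nat_lit 0)) (T.h (M (nat_lit 421980741775222898687)) (T.h (P (nat_lit 0)) (M (nat_lit 237472748892783))))))) (T.h (P (nat_lit 0)) (T.h (T.h (P (nat_lit 0)) (T.h (M (nat_lit 1263088078980512743423)) (T.h (P (nat_lit 0)) (P (nat_lit 465867464498256))))) (T.h (P (nat_lit 0)) (T.h (T.h (P (nat_lit 0)) (M (nat_lit 210926831149967))) (P (nat_lit 0)))))))) (T.h (T.h (T.h (P (nat_lit 43608930294439283764622262272)) (T.h (P (nat_lit 0)) (T.h (P (nat_lit 164091087614450394464256)) (T.h (P (nat_lit 0)) (P (nat_lit 222728218553090048)))))) (T.h (P (nat_lit 0)) (T.h (T.h (P (nat_lit 117187682172017768923136)) (T.h (P (nat_lit 0)) (M (nat_lit 1844812118227271679)))) (T.h (P (nat_lit 0)) (P (nat_lit 253153717661990912)))))) (T.h (T.h (P (nat_lit 0)) (T.h (T.h (P (nat_lit 0)) (T.h (M (nat_lit 737849732724688945151)) (T.h (P (nat_lit 0)) (P (nat_lit 157340725023440)))))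 (T.h (P (nat_lit 0)) (T.h (T.h (P (nat_lit 0)) (P (nat_lit 242180685200))) (P (nat_lit 0)))))) (T.h (T.h (T.h (M (nat_lit 100120019111155228213247)) (T.h (P (nat_lit 0)) (P (nat_lit 214091041081786368)))) (T.h (P (nat_lit 0)) (P (nat_lit 130422747513307136)))) (T.h (T.h (P (nat_lit 0)) (T.h (T.h (P (nat_lit 0)) (P (nat_lit 388386241675200))) (P (nat_lit 0)))) (P (nat_lit 64711752328642560))))))), (T.h (T.h (P (nat_lit 0)) (T.h (T.h (M (nat_lit 179129466089127010116653023231)) (T.h (P (nat_lit 0)) (T.h (M (nat_lit 75495560259066698661887)) (T.h (P (nat_lit 0)) (P (nat_lit 990591122640437248)))))) (T.h (P (nat_lit 0)) (T.h (T.h (P (nat_lit 214622762663695834152960)) (T.h (P (nat_lit 0)) (M (nat_lit 3427589559710580735)))) (T.h (P (nat_lit 0)) (M (nat_lit 1087246410095067135))))))) (T.h (T.h (T.h (P (nat_lit 0)) (T.h (P (nat_lit 166380298136373605257183232)) (T.h (P (nat_lit 0)) (T.h (M (nat_lit 211747638831982051327)) (T.h (P (nat_lit 0)) (M (nat_lit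 262375974971583))))))) (T.h (P (nat_lit 0)) (T.h (T.h (P (nat_lit 0)) (T.h (P (nat_lit 1638052505897047949312)) (T.h (P (nat_lit 0)) (M (nat_lit 2047302296035583))))) (T.h (P (nat_lit 0)) (T.h (T.h (P (nat_lit 0)) (P (nat_lit 712602456166080))) (P (nat_lit 0))))))) (T.h (T.h (P (nat_lit 0)) (T.h (T.h (P (nat_lit 490425074098850205007872)) (T.h (P (nat_lit 0)) (P (nat_lit 2923461180412002304)))) (T.h (P (nat_lit 0)) (M (nat_lit 774191190274736127))))) (T.h (T.h (T.h (P (nat_lit 0)) (T.h (P (nat_lit 606827558921878634496)) (T.h (P (nat_lit 0)) (P (nat_lit 713386573200768))))) (T.h (P (nat_lit 0)) (T.h (T.h (P (nat_lit 0)) (M (nat_lit 187919257376127))) (P (nat_lit 0))))) (T.h (T.h (P (nat_lit 0)) (M (nat_lit 318881228964265983))) (T.h (T.h (T.h (P (nat_lit 0)) (M (nat_lit 110394651994687))) (P (nat_lit 0))) (P (nat_lit 0))))))))]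
def lP11_24 : List (T ℤ) := [(T.h (T.h (P (nat_lit 0)) (T.h (T.h (P (nat_lit 0)) (T.h (M (nat_lit 174896056153274827600297983)) (T.h (P (nat_lit 0)) (T.h (M (nat_lit 659523898980142415871)) (T.h (P (nat_lit 0)) (M (nat_lit 164545574209455))))))) (T.h (P (nat_lit 0)) (T.h (T.h (P (nat_lit 0)) (T.h (P (nat_lit 993715292942115012608)) (T.h (P (nat_lit 0)) (M (nat_lit 1963943185040143))))) (T.h (P (nat_lit 0)) (T.h (T.h (P (nat_lit 0)) (M (nat_lit 745048353148703))) (P (nat_lit 0)))))))) (T.h (T.h (T.h (P (nat_lit 18006126417590266352059285504)) (T.h (P (nat_lit 0)) (T.h (P (nat_lit 166813920078919525990400)) (T.h (P (nat_lit 0)) (P (nat_lit 260646802695290880)))))) (T.h (P (nat_lit 0)) (T.h (T.h (P (nat_lit 240450080164787395756032)) (T.h (P (nat_lit 0)) (P (nat_lit 1658338079030738944)))) (T.h (P (nat_lit 0)) (M (nat_lit 272818288546512895)))))) (T.h (T.h (P (nat_lit 0)) (T.h (T.h (P (nat_lit 0)) (T.h (P (nat_lit 276686059498119364608)) (T.h (P (nat_lit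 0)) (P (nat_lit 313339886205808))))) (T.h (P (nat_lit 0)) (T.h (T.h (P (nat_lit 0)) (P (nat_lit 818787190557248))) (P (nat_lit 0)))))) (T.h (T.h (T.h (P (nat_lit 161363873385588098859008)) (T.h (P (nat_lit 0)) (M (nat_lit 1138641939821658111)))) (T.h (P (nat_lit 0)) (M (nat_lit 267169269056454655)))) (T.h (T.h (P (nat_lit 0)) (T.h (T.h (P (nat_lit 0)) (M (nat_lit 1080033671493215))) (P (nat_lit 0)))) (M (nat_lit 111337717693054975))))))), (T.h (T.h (P (nat_lit 0)) (T.h (T.h (P (nat_lit 171263728465257769697097547776)) (T.h (P (nat_lit 0)) (T.h (P (nat_lit 657067238007617789886464)) (T.h (P (nat_lit 0)) (P (nat_lit 356888115739590656)))))) (T.h (P (nat_lit 0)) (T.h (T.h (M (nat_lit 167791094702386314215423)) (T.h (P (nat_lit 0)) (P (nat_lit 974299732031504384)))) (T.h (P (nat_lit 0)) (P (nat_lit 272696121335873536))))))) (T.h (T.h (T.h (P (nat_lit 0)) (T.h (P (nat_lit 63287525629116649832448000)) (T.h (P (nat_lit 0)) (P (nat_lit 362079656861214179328)))))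 (T.h (P (nat_lit 0)) (T.h (T.h (P (nat_lit 0)) (M (nat_lit 91702811927984996351))) (P (nat_lit 0))))) (T.h (T.h (P (nat_lit 0)) (T.h (T.h (M (nat_lit 249934526859127403053055)) (T.h (P (nat_lit 0)) (M (nat_lit 376337290205331455)))) (T.h (P (nat_lit 0)) (M (nat_lit 382212607032721407))))) (T.h (T.h (T.h (P (nat_lit 0)) (P (nat_lit 304944548888721752064))) (P (nat_lit 0))) (T.h (T.h (P (nat_lit 0)) (P (nat_lit 37349099997790208))) (P (nat_lit 0))))))), (P (nat_lit 0)), (T.h (T.h (T.h (P (nat_lit 0)) (T.h (M (nat_lit 86394741291898989137845288959)) (T.h (P (nat_lit 0)) (T.h (P (nat_lit 185869005889168557998080)) (T.h (P (nat_lit 0)) (M (nat_lit 22397046942760959))))))) (T.h (P (nat_lit 0)) (T.h (T.h (P (nat_lit 0)) (T.h (P (nat_lit 64179087763474688770048)) (T.h (P (nat_lit 0)) (P (nat_lit 393699495897628672))))) (T.h (P (nat_lit 0)) (T.h (T.h (P (nat_lit 0)) (P (nat_lit 172348565131526144))) (P (nat_lit 0))))))) (T.h (T.h (P (nat_lit 0)) (T.h (T.h (M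 (nat_lit 66250249002747418730561535)) (T.h (P (nat_lit 0)) (T.h (P (nat_lit 92667667655465893888)) (T.h (P (nat_lit 0)) (M (nat_lit 48648137756583)))))) (T.h (P (nat_lit 0)) (T.h (T.h (M (nat_lit 607715442782195679231)) (T.h (P (nat_lit 0)) (P (nat_lit 979698769586624)))) (T.h (P (nat_lit 0)) (P (nat_lit 88901919179672))))))) (T.h (T.h (T.h (P (nat_lit 0)) (T.h (M (nat_lit 2285398374446989836287)) (T.h (P (nat_lit 0)) (P (nat_lit 29521778791677952))))) (T.h (P (nat_lit 0)) (T.h (T.h (P (nat_lit 0)) (P (nat_lit 504104890202783744))) (P (nat_lit 0))))) (T.h (T.h (P (nat_lit 0)) (T.h (T.h (P (nat_lit 56213929714272698368)) (T.h (P (nat_lit 0)) (M (nat_lit 145406365404319)))) (T.h (P (nat_lit 0)) (P (nat_lit 587132495999520))))) (T.h (T.h (T.h (P (nat_lit 0)) (M (nat_lit 16100912104275967))) (P (nat_lit 0))) (T.h (T.h (P (nat_lit 0)) (M (nat_lit 57593272112311))) (P (nat_lit 0)))))))), (T.h (T.h (T.h (P (nat_lit 35763778438839474111552782598144)) (T.h (P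 (nat_lit 0)) (T.h (P (nat_lit 45855112878953748190199808)) (T.h (P (nat_lit 0)) (T.h (M (nat_lit 64739422656691961855)) (T.h (P (nat_lit 0)) (P (nat_lit 42385473734928)))))))) (T.h (P (nat_lit 0)) (T.h (T.h (P (nat_lit 8198616929308593589583872)) (T.h (P (nat_lit 0)) (T.h (P (nat_lit 215847434356724334592)) (T.h (P (nat_lit 0)) (M (nat_lit 180962749714879)))))) (T.h (P (nat_lit 0)) (T.h (T.h (M (nat_lit 134717203391828721663)) (T.h (P (nat_lit 0)) (P (nat_lit 380097074482736)))) (T.h (P (nat_lit 0)) (P (nat_lit 47152487959216)))))))) (T.h (T.h (P (nat_lit 0)) (T.h (T.h (P (nat_lit 0)) (T.h (M (nat_lit 147716331585670091898879)) (T.h (P (nat_lit 0)) (M (nat_lit 333823299870392319))))) (T.h (P (nat_lit 0)) (T.h (T.h (P (nat_lit 0)) (M (nat_lit 16079452893478911))) (P (nat_lit 0)))))) (T.h (T.h (T.h (P (nat_lit 62908317290420788462092288)) (T.h (P (nat_lit 0)) (T.h (P (nat_lit 70650706991859630080)) (T.h (P (nat_lit 0)) (P (nat_lit 15312055836880))))))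 (T.h (P (nat_lit 0)) (T.h (T.h (P (nat_lit 353244082825657843712)) (T.h (P (nat_lit 0)) (P (nat_lit 156438964797936)))) (T.h (P (nat_lit 0)) (P (nat_lit 6561020761648)))))) (T.h (T.h (P (nat_lit 0)) (T.h (T.h (P (nat_lit 0)) (M (nat_lit 206444453519196159))) (P (nat_lit 0)))) (T.h (T.h (T.h (M (nat_lit 57603208335696330751)) (T.h (P (nat_lit 0)) (P (nat_lit 15255379029152)))) (T.h (P (nat_lit 0)) (M (nat_lit 182864937772351)))) (T.h (P (nat_lit 0)) (P (nat_lit 32945360427664)))))))), (T.h (T.h (T.h (P (nat_lit 0)) (T.h (M (nat_lit 124477985577735391278752858111)) (T.h (P (nat_lit 0)) (T.h (P (nat_lit 59189811737287431553024)) (T.h (P (nat_lit 0)) (M (nat_lit 270573737504702463))))))) (T.h (P (nat_lit 0)) (T.h (T.h (P (nat_lit 0)) (T.h (M (nat_lit 1388976807923062988079103)) (T.h (P (nat_lit 0)) (M (nat_lit 700169144483577855))))) (T.h (P (nat_lit 0)) (T.h (T.h (P (nat_lit 0)) (P (nat_lit 1734122613999009792))) (P (nat_lit 0))))))) (T.h (T.h (P (nat_lit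 0)) (T.h (T.h (M (nat_lit 106522973782614029300137983)) (T.h (P (nat_lit 0)) (T.h (P (nat_lit 297710025940637057024)) (T.h (P (nat_lit 0)) (P (nat_lit 311702795977728)))))) (T.h (P (nat_lit 0)) (T.h (T.h (M (nat_lit 1085227718858225221631)) (T.h (P (nat_lit 0)) (M (nat_lit 1390030806112639)))) (T.h (P (nat_lit 0)) (M (nat_lit 277312470248895))))))) (T.h (T.h (T.h (P (nat_lit 0)) (T.h (P (nat_lit 419296220032527832711168)) (T.h (P (nat_lit 0)) (P (nat_lit 134802808153112576))))) (T.h (P (nat_lit 0)) (T.h (T.h (P (nat_lit 0)) (P (nat_lit 1657989522486427648))) (P (nat_lit 0))))) (T.h (T.h (P (nat_lit 0)) (T.h (T.h (P (nat_lit 826922131149048250368)) (T.h (P (nat_lit 0)) (M (nat_lit 354448495594623)))) (T.h (P (nat_lit 0)) (P (nat_lit 342744375083456))))) (T.h (T.h (T.h (P (nat_lit 0)) (M (nat_lit 33893754375471103))) (P (nat_lit 0))) (T.h (T.h (P (nat_lit 0)) (M (nat_lit 132154973296255))) (P (nat_lit 0)))))))), (T.h (T.h (T.h (P (nat_lit 29133889140904033940829913481216))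 (T.h (P (nat_lit 0)) (T.h (M (nat_lit 78259562126569195421302783)) (T.h (P (nat_lit 0)) (T.h (P (nat_lit 184012764304375808000)) (T.h (P (nat_lit 0)) (M (nat_lit 166012573297471)))))))) (T.h (P (nat_lit 0)) (T.h (T.h (M (nat_lit 69578769534689795039559679)) (T.h (P (nat_lit 0)) (T.h (P (nat_lit 1222433144295145865216)) (T.h (P (nat_lit 0)) (P (nat_lit 1119727182666224)))))) (T.h (P (nat_lit 0)) (T.h (T.h (P (nat_lit 598845763806870634496)) (T.h (P (nat_lit 0)) (M (nat_lit 656354816351871)))) (T.h (P (nat_lit 0)) (M (nat_lit 565101010931423)))))))) (T.h (T.h (P (nat_lit 0)) (T.h (T.h (P (nat_lit 0)) (T.h (M (nat_lit 1555406208796902731808767)) (T.h (P (nat_lit 0)) (P (nat_lit 1311042492508045312))))) (T.h (P (nat_lit 0)) (T.h (T.h (P (nat_lit 0)) (M (nat_lit 573179026936856575))) (P (nat_lit 0)))))) (T.h (T.h (T.h (P (nat_lit 31369799751954130356142080)) (T.h (P (nat_lit 0)) (T.h (M (nat_lit 160797060183757946879)) (T.h (P (nat_lit 0)) (P (nat_lit 164939948929712))))))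 (T.h (P (nat_lit 0)) (T.h (T.h (P (nat_lit 280128650407288242176)) (T.h (P (nat_lit 0)) (M (nat_lit 3579213217635615)))) (T.h (P (nat_lit 0)) (M (nat_lit 358552290717807)))))) (T.h (T.h (P (nat_lit 0)) (T.h (T.h (P (nat_lit 0)) (P (nat_lit 4548714069999091712))) (P (nat_lit 0)))) (T.h (T.h (T.h (P (nat_lit 94474055083723063296)) (T.h (P (nat_lit 0)) (P (nat_lit 809824381242272)))) (T.h (P (nat_lit 0)) (P (nat_lit 808827678891936)))) (T.h (P (nat_lit 0)) (P (nat_lit 10963431041552)))))))), (T.h (T.h (T.h (P (nat_lit 0)) (T.h (P (nat_lit 96028659766766875552285458432)) (T.h (P (nat_lit 0)) (T.h (P (nat_lit 56222622037623007346688)) (T.h (P (nat_lit 0)) (P (nat_lit 192174861502152704))))))) (T.h (P (nat_lit 0)) (T.h (T.h (P (nat_lit 0)) (T.h (M (nat_lit 655207257772216320786431)) (T.h (P (nat_lit 0)) (P (nat_lit 291100983990091776))))) (T.h (P (nat_lit 0)) (T.h (T.h (P (nat_lit 0)) (P (nat_lit 927531057910808576))) (P (nat_lit 0))))))) (T.h (T.h (P (nat_lit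 0)) (T.h (T.h (M (nat_lit 71042538693187191808458751)) (T.h (P (nat_lit 0)) (M (nat_lit 957110902588079865855)))) (T.h (P (nat_lit 0)) (M (nat_lit 27742157568141688831))))) (T.h (T.h (T.h (P (nat_lit 0)) (T.h (M (nat_lit 291330409486159831891967)) (T.h (P (nat_lit 0)) (M (nat_lit 110686140479963135))))) (T.h (P (nat_lit 0)) (T.h (T.h (P (nat_lit 0)) (P (nat_lit 1225003800259493888))) (P (nat_lit 0))))) (T.h (T.h (P (nat_lit 0)) (M (nat_lit 440070239446538125311))) (T.h (T.h (T.h (P (nat_lit 0)) (P (nat_lit 59052743298482176))) (P (nat_lit 0))) (P (nat_lit 0)))))))]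
def lP11_25 : List (T ℤ) := [(T.h (T.h (P (nat_lit 0)) (T.h (T.h (P (nat_lit 5536517775313953227465031680)) (T.h (P (nat_lit 0)) (T.h (P (nat_lit 17664319466823093321728)) (T.h (P (nat_lit 0)) (P (nat_lit 12246139095220224)))))) (T.h (P (nat_lit 0)) (T.h (T.h (M (nat_lit 39520826410458918420479)) (T.h (P (nat_lit 0)) (M (nat_lit 298464201601384447)))) (T.h (P (nat_lit 0)) (M (nat_lit 336560590512717823))))))) (T.h (T.h (T.h (P (nat_lit 0)) (T.h (P (nat_lit 4838277074386559868862464)) (T.h (P (nat_lit 0)) (T.h (M (nat_lit 26416126705784586239)) (T.h (P (nat_lit 0)) (P (nat_lit 14078924721560))))))) (T.h (P (nat_lit 0)) (T.h (T.h (P (nat_lit 0)) (T.h (M (nat_lit 41118186614139387903)) (T.h (P (nat_lit 0)) (M (nat_lit 162557263420767))))) (T.h (P (nat_lit 0)) (T.h (T.h (P (nat_lit 0)) (P (nat_lit 68225235025664))) (P (nat_lit 0))))))) (T.h (T.h (P (nat_lit 0)) (T.h (T.h (P (nat_lit 34900946057874913624064)) (T.h (P (nat_lit 0)) (P (nat_lit 68076245493448704))))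 (T.h (P (nat_lit 0)) (M (nat_lit 188382228777992191))))) (T.h (T.h (T.h (P (nat_lit 0)) (T.h (M (nat_lit 9223641221782568959)) (T.h (P (nat_lit 0)) (P (nat_lit 110655826750672))))) (T.h (P (nat_lit 0)) (T.h (T.h (P (nat_lit 0)) (M (nat_lit 252444885394407))) (P (nat_lit 0))))) (T.h (T.h (P (nat_lit 0)) (P (nat_lit 49004058925662208))) (T.h (T.h (T.h (P (nat_lit 0)) (P (nat_lit 61292889872256))) (P (nat_lit 0))) (P (nat_lit 0)))))))), (T.h (T.h (P (nat_lit 0)) (T.h (T.h (P (nat_lit 0)) (T.h (M (nat_lit 56893329156838638189805567)) (T.h (P (nat_lit 0)) (T.h (P (nat_lit 9873005398850535424)) (T.h (P (nat_lit 0)) (M (nat_lit 27301389521663))))))) (T.h (P (nat_lit 0)) (T.h (T.h (P (nat_lit 0)) (T.h (P (nat_lit 187656404562520047616)) (T.h (P (nat_lit 0)) (M (nat_lit 23184625981519))))) (T.h (P (nat_lit 0)) (T.h (T.h (P (nat_lit 0)) (P (nat_lit 54540451790880))) (P (nat_lit 0)))))))) (T.h (T.h (T.h (P (nat_lit 15707926973580838579302563840)) (T.h (P (nat_lit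 0)) (T.h (M (nat_lit 23387986454769641193471)) (T.h (P (nat_lit 0)) (P (nat_lit 141691193762234368)))))) (T.h (P (nat_lit 0)) (T.h (T.h (P (nat_lit 230462501992212293746688)) (T.h (P (nat_lit 0)) (M (nat_lit 473527641361252351)))) (T.h (P (nat_lit 0)) (P (nat_lit 819454962603540480)))))) (T.h (T.h (P (nat_lit 0)) (T.h (T.h (P (nat_lit 0)) (T.h (M (nat_lit 68682849468171681791)) (T.h (P (nat_lit 0)) (P (nat_lit 12300914941840))))) (T.h (P (nat_lit 0)) (T.h (T.h (P (nat_lit 0)) (M (nat_lit 55080966983023))) (P (nat_lit 0)))))) (T.h (T.h (T.h (P (nat_lit 21382032223597555089408)) (T.h (P (nat_lit 0)) (P (nat_lit 84637835870339072)))) (T.h (P (nat_lit 0)) (M (nat_lit 485708767605440511)))) (T.h (T.h (P (nat_lit 0)) (T.h (T.h (P (nat_lit 0)) (M (nat_lit 9950524029199))) (P (nat_lit 0)))) (M (nat_lit 33809884209004543))))))), (T.h (T.h (P (nat_lit 0)) (T.h (T.h (M (nat_lit 21475815305388814924186124287)) (T.h (P (nat_lit 0)) (T.h (M (nat_lit 290119102082331707441151))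 (T.h (P (nat_lit 0)) (P (nat_lit 117816140800720896)))))) (T.h (P (nat_lit 0)) (T.h (T.h (M (nat_lit 403340895958938008158207)) (T.h (P (nat_lit 0)) (P (nat_lit 796641548586090496)))) (T.h (P (nat_lit 0)) (P (nat_lit 288587955582861312))))))) (T.h (T.h (T.h (P (nat_lit 0)) (T.h (P (nat_lit 2180457922692902528483328)) (T.h (P (nat_lit 0)) (T.h (P (nat_lit 51898114833580556288)) (T.h (P (nat_lit 0)) (P (nat_lit 5341289507200))))))) (T.h (P (nat_lit 0)) (T.h (T.h (P (nat_lit 0)) (T.h (M (nat_lit 687447118557137076223)) (T.h (P (nat_lit 0)) (P (nat_lit 344876861264960))))) (T.h (P (nat_lit 0)) (T.h (T.h (P (nat_lit 0)) (M (nat_lit 616520728501823))) (P (nat_lit 0))))))) (T.h (T.h (P (nat_lit 0)) (T.h (T.h (M (nat_lit 334922431163377383374847)) (T.h (P (nat_lit 0)) (P (nat_lit 675793229276348416)))) (T.h (P (nat_lit 0)) (P (nat_lit 345080001020461056))))) (T.h (T.h (T.h (P (nat_lit 0)) (T.h (P (nat_lit 4838559620425318400)) (T.h (P (nat_lit 0)) (M (nat_lit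 195956809373759))))) (T.h (P (nat_lit 0)) (T.h (T.h (P (nat_lit 0)) (P (nat_lit 348521922324800))) (P (nat_lit 0))))) (T.h (T.h (P (nat_lit 0)) (M (nat_lit 343375147726274559))) (T.h (T.h (T.h (P (nat_lit 0)) (P (nat_lit 19174769323136))) (P (nat_lit 0))) (P (nat_lit 0)))))))), (T.h (T.h (P (nat_lit 0)) (T.h (T.h (P (nat_lit 0)) (T.h (M (nat_lit 225476304066940349997645823)) (T.h (P (nat_lit 0)) (T.h (P (nat_lit 554670739826271059968)) (T.h (P (nat_lit 0)) (M (nat_lit 223939804868031))))))) (T.h (P (nat_lit 0)) (T.h (T.h (P (nat_lit 0)) (T.h (M (nat_lit 236780059099068891135)) (T.h (P (nat_lit 0)) (M (nat_lit 245292104547071))))) (T.h (P (nat_lit 0)) (T.h (T.h (P (nat_lit 0)) (P (nat_lit 144708727166960))) (P (nat_lit 0)))))))) (T.h (T.h (T.h (P (nat_lit 30911329824371918256220405760)) (T.h (P (nat_lit 0)) (T.h (M (nat_lit 57177540964645888589823)) (T.h (P (nat_lit 0)) (M (nat_lit 89760417283244031)))))) (T.h (P (nat_lit 0)) (T.h (T.h (M (nat_lit 271138119989090173583359))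 (T.h (P (nat_lit 0)) (M (nat_lit 53081248036339711)))) (T.h (P (nat_lit 0)) (P (nat_lit 346646336941424640)))))) (T.h (T.h (P (nat_lit 0)) (T.h (T.h (P (nat_lit 0)) (T.h (P (nat_lit 608582383515736211456)) (T.h (P (nat_lit 0)) (P (nat_lit 141508223711712))))) (T.h (P (nat_lit 0)) (T.h (T.h (P (nat_lit 0)) (M (nat_lit 370753656199167))) (P (nat_lit 0)))))) (T.h (T.h (T.h (P (nat_lit 135305056654935805919232)) (T.h (P (nat_lit 0)) (P (nat_lit 266952139872157696)))) (T.h (P (nat_lit 0)) (M (nat_lit 640962173614653439)))) (T.h (T.h (P (nat_lit 0)) (T.h (T.h (P (nat_lit 0)) (M (nat_lit 889444151852255))) (P (nat_lit 0)))) (M (nat_lit 117758441303965695))))))), (T.h (T.h (P (nat_lit 0)) (T.h (T.h (P (nat_lit 81723471967295498092208455680)) (T.h (P (nat_lit 0)) (T.h (M (nat_lit 262320612458681044303871)) (T.h (P (nat_lit 0)) (M (nat_lit 218921978668482559)))))) (T.h (P (nat_lit 0)) (T.h (T.h (M (nat_lit 48306181907224534712319)) (T.h (P (nat_lit 0)) (P (nat_lit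 653852938299801600)))) (T.h (P (nat_lit 0)) (P (nat_lit 580415398995525632))))))) (T.h (T.h (T.h (P (nat_lit 0)) (T.h (P (nat_lit 41701646712498679734861824)) (T.h (P (nat_lit 0)) (M (nat_lit 171387007687188283391))))) (T.h (P (nat_lit 0)) (T.h (T.h (P (nat_lit 0)) (P (nat_lit 8404216807191216128))) (P (nat_lit 0))))) (T.h (T.h (P (nat_lit 0)) (T.h (T.h (M (nat_lit 394903523492071357808639)) (T.h (P (nat_lit 0)) (P (nat_lit 1603294888650309632)))) (T.h (P (nat_lit 0)) (P (nat_lit 406538586978025472))))) (T.h (T.h (T.h (P (nat_lit 0)) (M (nat_lit 551540981728408502271))) (P (nat_lit 0))) (T.h (T.h (P (nat_lit 0)) (P (nat_lit 23939575716872192))) (P (nat_lit 0))))))), (T.h (T.h (T.h (P (nat_lit 23554052749273041441003961057280)) (T.h (P (nat_lit 0)) (T.h (M (nat_lit 1116594654860944001204223)) (T.h (P (nat_lit 0)) (T.h (M (nat_lit 2642978377501245439)) (T.h (P (nat_lit 0)) (M (nat_lit 2424212061055)))))))) (T.h (P (nat_lit 0)) (T.h (T.h (M (nat_lit 3591785376948345362186239))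 (T.h (P (nat_lit 0)) (T.h (P (nat_lit 113362164939430559744)) (T.h (P (nat_lit 0)) (M (nat_lit 42796093805007)))))) (T.h (P (nat_lit 0)) (T.h (T.h (M (nat_lit 138932654950995460095)) (T.h (P (nat_lit 0)) (P (nat_lit 93912456396352)))) (T.h (P (nat_lit 0)) (P (nat_lit 54124853331920)))))))) (T.h (T.h (P (nat_lit 0)) (T.h (T.h (P (nat_lit 0)) (T.h (P (nat_lit 7376399792568524603392)) (T.h (P (nat_lit 0)) (P (nat_lit 49912040392163328))))) (T.h (P (nat_lit 0)) (T.h (T.h (P (nat_lit 0)) (P (nat_lit 176471059806552064))) (P (nat_lit 0)))))) (T.h (T.h (T.h (M (nat_lit 18169799066327984273096703)) (T.h (P (nat_lit 0)) (T.h (P (nat_lit 6840648437726183424)) (T.h (P (nat_lit 0)) (P (nat_lit 3538756460992)))))) (T.h (P (nat_lit 0)) (T.h (T.h (M (nat_lit 24034483529502949375)) (T.h (P (nat_lit 0)) (P (nat_lit 32985262238352)))) (T.h (P (nat_lit 0)) (P (nat_lit 467448510117440)))))) (T.h (T.h (P (nat_lit 0)) (T.h (T.h (P (nat_lit 0)) (M (nat_lit 77466805959032831)))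 (P (nat_lit 0)))) (T.h (T.h (T.h (M (nat_lit 9779192698496876543)) (T.h (P (nat_lit 0)) (P (nat_lit 3595433268720)))) (T.h (P (nat_lit 0)) (M (nat_lit 40893905747535)))) (T.h (P (nat_lit 0)) (P (nat_lit 7015901246208)))))))), (T.h (T.h (T.h (P (nat_lit 0)) (T.h (P (nat_lit 27573468619294519107795288064)) (T.h (P (nat_lit 0)) (T.h (M (nat_lit 148336140461852793503743)) (T.h (P (nat_lit 0)) (P (nat_lit 45632158743527424))))))) (T.h (P (nat_lit 0)) (T.h (T.h (P (nat_lit 0)) (T.h (M (nat_lit 123217807114262095593471)) (T.h (P (nat_lit 0)) (M (nat_lit 436771630305247231))))) (T.h (P (nat_lit 0)) (T.h (T.h (P (nat_lit 0)) (P (nat_lit 1820843924937015296))) (P (nat_lit 0))))))) (T.h (T.h (P (nat_lit 0)) (T.h (T.h (P (nat_lit 34466885455667510214918144)) (T.h (P (nat_lit 0)) (T.h (M (nat_lit 83920714297373622271)) (T.h (P (nat_lit 0)) (M (nat_lit 5358175711231)))))) (T.h (P (nat_lit 0)) (T.h (T.h (M (nat_lit 2149898102889653469183)) (T.h (P (nat_lit 0)) (M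 (nat_lit 404041203420735)))) (T.h (P (nat_lit 0)) (M (nat_lit 560598551876287))))))) (T.h (T.h (T.h (P (nat_lit 0)) (T.h (M (nat_lit 31046409416632053006335)) (T.h (P (nat_lit 0)) (M (nat_lit 5069160912617471))))) (T.h (P (nat_lit 0)) (T.h (T.h (P (nat_lit 0)) (P (nat_lit 136885449423552512))) (P (nat_lit 0))))) (T.h (T.h (P (nat_lit 0)) (T.h (T.h (M (nat_lit 130383032005731287039)) (T.h (P (nat_lit 0)) (P (nat_lit 7847311340096)))) (T.h (P (nat_lit 0)) (M (nat_lit 506477718526207))))) (T.h (T.h (T.h (P (nat_lit 0)) (M (nat_lit 137409582491303935))) (P (nat_lit 0))) (T.h (T.h (P (nat_lit 0)) (M (nat_lit 29199094884671))) (P (nat_lit 0)))))))), (T.h (T.h (T.h (P (nat_lit 10877977710155974109859130900480)) (T.h (P (nat_lit 0)) (T.h (M (nat_lit 61470405535673140513865727)) (T.h (P (nat_lit 0)) (T.h (M (nat_lit 50862680575049727)) (T.h (P (nat_lit 0)) (M (nat_lit 46802093501151)))))))) (T.h (P (nat_lit 0)) (T.h (T.h (P (nat_lit 348488690592711051371872256))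 (T.h (P (nat_lit 0)) (T.h (M (nat_lit 795348076552467251199)) (T.h (P (nat_lit 0)) (M (nat_lit 23690217743455)))))) (T.h (P (nat_lit 0)) (T.h (T.h (M (nat_lit 281544365791718146047)) (T.h (P (nat_lit 0)) (P (nat_lit 138393168762288)))) (T.h (P (nat_lit 0)) (P (nat_lit 459920579849456)))))))) (T.h (T.h (P (nat_lit 0)) (T.h (T.h (P (nat_lit 0)) (T.h (P (nat_lit 340517685100624094429184)) (T.h (P (nat_lit 0)) (M (nat_lit 417141615237103615))))) (T.h (P (nat_lit 0)) (T.h (T.h (P (nat_lit 0)) (P (nat_lit 704798644617248768))) (P (nat_lit 0)))))) (T.h (T.h (T.h (M (nat_lit 68229778942906977077952511)) (T.h (P (nat_lit 0)) (T.h (P (nat_lit 149211963080098971648)) (T.h (P (nat_lit 0)) (P (nat_lit 63046380271776)))))) (T.h (P (nat_lit 0)) (T.h (T.h (M (nat_lit 745495223274313875455)) (T.h (P (nat_lit 0)) (P (nat_lit 1655875951737040)))) (T.h (P (nat_lit 0)) (P (nat_lit 93462001685360)))))) (T.h (T.h (P (nat_lit 0)) (T.h (T.h (P (nat_lit 0)) (M (nat_lit 521171706628800511)))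 (P (nat_lit 0)))) (T.h (T.h (T.h (P (nat_lit 11424615447304077312)) (T.h (P (nat_lit 0)) (P (nat_lit 66587590602896)))) (T.h (P (nat_lit 0)) (M (nat_lit 171203489465711)))) (T.h (P (nat_lit 0)) (M (nat_lit 44566472717007))))))))]
def lP11_26 : List (T ℤ) := [(T.h (T.h (T.h (P (nat_lit 0)) (T.h (P (nat_lit 143248602005615764954310246400)) (T.h (P (nat_lit 0)) (T.h (M (nat_lit 37275923750201581371391)) (T.h (P (nat_lit 0)) (P (nat_lit 61768686202978304))))))) (T.h (P (nat_lit 0)) (T.h (T.h (P (nat_lit 0)) (T.h (P (nat_lit 831504563151167433998336)) (T.h (P (nat_lit 0)) (P (nat_lit 87289895111000064))))) (T.h (P (nat_lit 0)) (T.h (T.h (P (nat_lit 0)) (M (nat_lit 536696647482572799))) (P (nat_lit 0))))))) (T.h (T.h (P (nat_lit 0)) (T.h (T.h (P (nat_lit 140298656222780133453332480)) (T.h (P (nat_lit 0)) (P (nat_lit 331040896155440381952)))) (T.h (P (nat_lit 0)) (P (nat_lit 160702012152763908096))))) (T.h (T.h (T.h (P (nat_lit 0)) (T.h (M (nat_lit 281221776321966440972287))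 (T.h (P (nat_lit 0)) (M (nat_lit 59304357145706495))))) (T.h (P (nat_lit 0)) (T.h (T.h (P (nat_lit 0)) (M (nat_lit 482443184742957055))) (P (nat_lit 0))))) (T.h (T.h (P (nat_lit 0)) (P (nat_lit 305348348258564440064))) (T.h (T.h (T.h (P (nat_lit 0)) (P (nat_lit 37610701693222912))) (P (nat_lit 0))) (P (nat_lit 0))))))), (T.h (T.h (P (nat_lit 0)) (T.h (T.h (P (nat_lit 21593207691449267749075812352)) (T.h (P (nat_lit 0)) (T.h (M (nat_lit 57490015930355973881855)) (T.h (P (nat_lit 0)) (P (nat_lit 6823743286345728)))))) (T.h (P (nat_lit 0)) (T.h (T.h (P (nat_lit 215615569639635138117632)) (T.h (P (nat_lit 0)) (P (nat_lit 290864835074621440)))) (T.h (P (nat_lit 0)) (M (nat_lit 40820331771592703))))))) (T.h (T.h (T.h (P (nat_lit 0)) (T.h (P (nat_lit 6322265044331844677402624)) (T.h (P (nat_lit 0)) (T.h (M (nat_lit 23752581499227996159)) (T.h (P (nat_lit 0)) (M (nat_lit 10564542817535))))))) (T.h (P (nat_lit 0)) (T.h (T.h (P (nat_lit 0)) (T.h (P (nat_lit 268115569555179307008))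 (T.h (P (nat_lit 0)) (P (nat_lit 75175935420288))))) (T.h (P (nat_lit 0)) (T.h (T.h (P (nat_lit 0)) (M (nat_lit 89742622536511))) (P (nat_lit 0))))))) (T.h (T.h (P (nat_lit 0)) (T.h (T.h (M (nat_lit 127704811112245661532159)) (T.h (P (nat_lit 0)) (P (nat_lit 84535012944216064)))) (T.h (P (nat_lit 0)) (P (nat_lit 180504344546279424))))) (T.h (T.h (T.h (P (nat_lit 0)) (T.h (P (nat_lit 4016770770368724992)) (T.h (P (nat_lit 0)) (M (nat_lit 42294255463359))))) (T.h (P (nat_lit 0)) (T.h (T.h (P (nat_lit 0)) (P (nat_lit 71530874360448))) (P (nat_lit 0))))) (T.h (T.h (P (nat_lit 0)) (P (nat_lit 129461206011281408))) (T.h (T.h (T.h (P (nat_lit 0)) (M (nat_lit 24398022633471))) (P (nat_lit 0))) (P (nat_lit 0)))))))), (T.h (T.h (P (nat_lit 0)) (T.h (T.h (P (nat_lit 0)) (T.h (P (nat_lit 73000951250190410272735232)) (T.h (P (nat_lit 0)) (T.h (P (nat_lit 16018835821503184896)) (T.h (P (nat_lit 0)) (P (nat_lit 50098001398720))))))) (T.h (P (nat_lit 0)) (T.h (T.h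 (P (nat_lit 0)) (T.h (P (nat_lit 171865168955112947712)) (T.h (P (nat_lit 0)) (P (nat_lit 187035232750432))))) (T.h (P (nat_lit 0)) (T.h (T.h (P (nat_lit 0)) (M (nat_lit 106676676447967))) (P (nat_lit 0)))))))) (T.h (T.h (T.h (P (nat_lit 23051141008790165780355350528)) (T.h (P (nat_lit 0)) (T.h (P (nat_lit 24908532925303422451712)) (T.h (P (nat_lit 0)) (P (nat_lit 73765069373112320)))))) (T.h (P (nat_lit 0)) (T.h (T.h (P (nat_lit 37170274258167498014720)) (T.h (P (nat_lit 0)) (P (nat_lit 312519832877809664)))) (T.h (P (nat_lit 0)) (M (nat_lit 1482711047397277695)))))) (T.h (T.h (P (nat_lit 0)) (T.h (T.h (P (nat_lit 0)) (T.h (P (nat_lit 59724000703880888320)) (T.h (P (nat_lit 0)) (M (nat_lit 57847326960367))))) (T.h (P (nat_lit 0)) (T.h (T.h (P (nat_lit 0)) (P (nat_lit 292515884447072))) (P (nat_lit 0)))))) (T.h (T.h (T.h (M (nat_lit 60062730209987028582399)) (T.h (P (nat_lit 0)) (P (nat_lit 62907179918098432)))) (T.h (P (nat_lit 0)) (P (nat_lit 367237435614855168))))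 (T.h (T.h (P (nat_lit 0)) (T.h (T.h (P (nat_lit 0)) (P (nat_lit 90782218487136))) (P (nat_lit 0)))) (P (nat_lit 95348375668375552))))))), (T.h (T.h (P (nat_lit 0)) (T.h (T.h (M (nat_lit 26209441321129543010852274175)) (T.h (P (nat_lit 0)) (T.h (P (nat_lit 341031198450498016378880)) (T.h (P (nat_lit 0)) (M (nat_lit 47692615347077119)))))) (T.h (P (nat_lit 0)) (T.h (T.h (M (nat_lit 49438412129668532535295)) (T.h (P (nat_lit 0)) (M (nat_lit 274047386810875903)))) (T.h (P (nat_lit 0)) (M (nat_lit 554228412046475263))))))) (T.h (T.h (T.h (P (nat_lit 0)) (T.h (M (nat_lit 91888388661317631653969919)) (T.h (P (nat_lit 0)) (P (nat_lit 28717635963342290944))))) (T.h (P (nat_lit 0)) (T.h (T.h (P (nat_lit 0)) (P (nat_lit 223978408355584540672))) (P (nat_lit 0))))) (T.h (T.h (P (nat_lit 0)) (T.h (T.h (P (nat_lit 321749021409978611662848)) (T.h (P (nat_lit 0)) (M (nat_lit 551833843922272255)))) (T.h (P (nat_lit 0)) (M (nat_lit 228059255975477247))))) (T.h (T.h (T.h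 (P (nat_lit 0)) (P (nat_lit 40151734690248654848))) (P (nat_lit 0))) (T.h (T.h (P (nat_lit 0)) (M (nat_lit 5990963912114175))) (P (nat_lit 0))))))), (T.h (T.h (T.h (M (nat_lit 1897610530039319708766159503359)) (T.h (P (nat_lit 0)) (T.h (P (nat_lit 4900160410865909649899520)) (T.h (P (nat_lit 0)) (T.h (M (nat_lit 28736025228476415)) (T.h (P (nat_lit 0)) (P (nat_lit 4563917164224)))))))) (T.h (P (nat_lit 0)) (T.h (T.h (M (nat_lit 11050327236405624798445567)) (T.h (P (nat_lit 0)) (T.h (M (nat_lit 184178114273411596287)) (T.h (P (nat_lit 0)) (M (nat_lit 5489871499375)))))) (T.h (P (nat_lit 0)) (T.h (T.h (M (nat_lit 83270179112102133759)) (T.h (P (nat_lit 0)) (M (nat_lit 22887554581935)))) (T.h (P (nat_lit 0)) (P (nat_lit 144993577875696)))))))) (T.h (T.h (P (nat_lit 0)) (T.h (T.h (P (nat_lit 0)) (T.h (M (nat_lit 47308519645167134703615)) (T.h (P (nat_lit 0)) (M (nat_lit 108885679429091327))))) (T.h (P (nat_lit 0)) (T.h (T.h (P (nat_lit 0)) (P (nat_lit 263943871069847552)))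 (P (nat_lit 0)))))) (T.h (T.h (T.h (P (nat_lit 11659533818099746213986304)) (T.h (P (nat_lit 0)) (T.h (P (nat_lit 1796875283924516864)) (T.h (P (nat_lit 0)) (M (nat_lit 41575545036607)))))) (T.h (P (nat_lit 0)) (T.h (T.h (M (nat_lit 234030967551564972031)) (T.h (P (nat_lit 0)) (P (nat_lit 54272564669136)))) (T.h (P (nat_lit 0)) (P (nat_lit 22043612494992)))))) (T.h (T.h (P (nat_lit 0)) (T.h (T.h (P (nat_lit 0)) (M (nat_lit 4855588037394431))) (P (nat_lit 0)))) (T.h (T.h (T.h (M (nat_lit 11504214153107603455)) (T.h (P (nat_lit 0)) (M (nat_lit 45116755367727)))) (T.h (P (nat_lit 0)) (P (nat_lit 142023400222880)))) (T.h (P (nat_lit 0)) (P (nat_lit 2328296380080)))))))), (T.h (T.h (T.h (P (nat_lit 0)) (T.h (M (nat_lit 7701889658509832260839014399)) (T.h (P (nat_lit 0)) (T.h (P (nat_lit 20335915801868752650240)) (T.h (P (nat_lit 0)) (M (nat_lit 4538660560863231))))))) (T.h (P (nat_lit 0)) (T.h (T.h (P (nat_lit 0)) (T.h (M (nat_lit 253363119254356700954623))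 (T.h (P (nat_lit 0)) (M (nat_lit 57126328100290559))))) (T.h (P (nat_lit 0)) (T.h (T.h (P (nat_lit 0)) (P (nat_lit 139548628168081408))) (P (nat_lit 0))))))) (T.h (T.h (P (nat_lit 0)) (T.h (T.h (M (nat_lit 68293177357854968704401407)) (T.h (P (nat_lit 0)) (P (nat_lit 92955797684135919616)))) (T.h (P (nat_lit 0)) (P (nat_lit 1625468407039609798656))))) (T.h (T.h (T.h (P (nat_lit 0)) (T.h (P (nat_lit 6519229612818935316480)) (T.h (P (nat_lit 0)) (P (nat_lit 40970222475575296))))) (T.h (P (nat_lit 0)) (T.h (T.h (P (nat_lit 0)) (M (nat_lit 53833865286352895))) (P (nat_lit 0))))) (T.h (T.h (P (nat_lit 0)) (M (nat_lit 13677298616308334591))) (T.h (T.h (T.h (P (nat_lit 0)) (P (nat_lit 49332774597263360))) (P (nat_lit 0))) (P (nat_lit 0))))))), (T.h (T.h (P (nat_lit 0)) (T.h (T.h (M (nat_lit 2730455200263472533804679167)) (T.h (P (nat_lit 0)) (T.h (P (nat_lit 30056970466909975740416)) (T.h (P (nat_lit 0)) (M (nat_lit 4980463948005375)))))) (T.h (P (nat_lit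 0)) (T.h (T.h (P (nat_lit 24394744105435544944640)) (T.h (P (nat_lit 0)) (P (nat_lit 29098387471630336)))) (T.h (P (nat_lit 0)) (M (nat_lit 81793179171323903))))))) (T.h (T.h (T.h (P (nat_lit 0)) (T.h (P (nat_lit 10154437232380696105844736)) (T.h (P (nat_lit 0)) (P (nat_lit 11009277610239721472))))) (T.h (P (nat_lit 0)) (T.h (T.h (P (nat_lit 0)) (M (nat_lit 102181312474403307519))) (P (nat_lit 0))))) (T.h (T.h (P (nat_lit 0)) (T.h (T.h (P (nat_lit 49339147507429380456448)) (T.h (P (nat_lit 0)) (M (nat_lit 20342553305972735)))) (T.h (P (nat_lit 0)) (M (nat_lit 16889743363768319))))) (T.h (T.h (T.h (P (nat_lit 0)) (M (nat_lit 424821116666642431))) (P (nat_lit 0))) (T.h (T.h (P (nat_lit 0)) (M (nat_lit 46682115382968319))) (P (nat_lit 0))))))), (P (nat_lit 0))]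
def lP11_27 : List (T ℤ) := [(P (nat_lit 0)), (T.h (T.h (P (nat_lit 0)) (T.h (T.h (P (nat_lit 0)) (T.h (M (nat_lit 122639602115953821745151)) (T.h (P (nat_lit 0)) (T.h (P (nat_lit 23265789879055810560)) (T.h (P (nat_lit 0)) (M (nat_lit 36276789813271))))))) (T.h (P (nat_lit 0)) (T.h (T.h (P (nat_lit 0)) (T.h (P (nat_lit 2240755757060456448)) (T.h (P (nat_lit 0)) (M (nat_lit 20913852849103))))) (T.h (P (nat_lit 0)) (T.h (T.h (P (nat_lit 0)) (M (nat_lit 3482561271999))) (P (nat_lit 0)))))))) (T.h (T.h (T.h (P (nat_lit 13204927875378715774934843392)) (T.h (P (nat_lit 0)) (T.h (P (nat_lit 13539892843789789691904)) (T.h (P (nat_lit 0)) (M (nat_lit 11870878074175487)))))) (T.h (P (nat_lit 0)) (T.h (T.h (P (nat_lit 3282297356631899373568)) (T.h (P (nat_lit 0)) (M (nat_lit 21109903815409663)))) (T.h (P (nat_lit 0)) (M (nat_lit 2513831367540735)))))) (T.h (T.h (P (nat_lit 0)) (T.h (T.h (P (nat_lit 0)) (T.h (P (nat_lit 17277838074277003264)) (T.h (P (nat_lit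 0)) (M (nat_lit 33347038321839))))) (T.h (P (nat_lit 0)) (T.h (T.h (P (nat_lit 0)) (M (nat_lit 4134781533415))) (P (nat_lit 0)))))) (T.h (T.h (T.h (M (nat_lit 590497161174321201151)) (T.h (P (nat_lit 0)) (M (nat_lit 27032684399165439)))) (T.h (P (nat_lit 0)) (M (nat_lit 7315163158740991)))) (T.h (T.h (P (nat_lit 0)) (T.h (T.h (P (nat_lit 0)) (M (nat_lit 26065790100687))) (P (nat_lit 0)))) (M (nat_lit 17312308370309119))))))), (T.h (T.h (P (nat_lit 0)) (T.h (T.h (P (nat_lit 825243808494547520458850304)) (T.h (P (nat_lit 0)) (T.h (M (nat_lit 26344594233526511992831)) (T.h (P (nat_lit 0)) (M (nat_lit 391640158868422655)))))) (T.h (P (nat_lit 0)) (T.h (T.h (P (nat_lit 452590592553853648896)) (T.h (P (nat_lit 0)) (M (nat_lit 39437525538734079)))) (T.h (P (nat_lit 0)) (P (nat_lit 2367037161553920))))))) (T.h (T.h (T.h (P (nat_lit 0)) (T.h (M (nat_lit 3746786908111961168281599)) (T.h (P (nat_lit 0)) (T.h (P (nat_lit 150605351395472179200)) (T.h (P (nat_lit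 0)) (P (nat_lit 126624751875824))))))) (T.h (P (nat_lit 0)) (T.h (T.h (P (nat_lit 0)) (T.h (P (nat_lit 6725667058576523264)) (T.h (P (nat_lit 0)) (P (nat_lit 20853968390928))))) (T.h (P (nat_lit 0)) (T.h (T.h (P (nat_lit 0)) (M (nat_lit 14115448294655))) (P (nat_lit 0))))))) (T.h (T.h (P (nat_lit 0)) (T.h (T.h (M (nat_lit 4538456619322401882111)) (T.h (P (nat_lit 0)) (M (nat_lit 9636131581935615)))) (T.h (P (nat_lit 0)) (M (nat_lit 18297077188886527))))) (T.h (T.h (T.h (P (nat_lit 0)) (T.h (P (nat_lit 21421683604952449024)) (T.h (P (nat_lit 0)) (M (nat_lit 29896136530671))))) (T.h (P (nat_lit 0)) (T.h (T.h (P (nat_lit 0)) (M (nat_lit 4256921589567))) (P (nat_lit 0))))) (T.h (T.h (P (nat_lit 0)) (P (nat_lit 1673160524251136))) (T.h (T.h (T.h (P (nat_lit 0)) (P (nat_lit 7351350546784))) (P (nat_lit 0))) (P (nat_lit 0)))))))), (T.h (T.h (P (nat_lit 0)) (T.h (T.h (P (nat_lit 0)) (T.h (P (nat_lit 6837049029011826800590848)) (T.h (P (nat_lit 0)) (T.h (P (nat_lit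 198712546212878221312)) (T.h (P (nat_lit 0)) (M (nat_lit 519960225386687))))))) (T.h (P (nat_lit 0)) (T.h (T.h (P (nat_lit 0)) (T.h (P (nat_lit 1303559475084394496)) (T.h (P (nat_lit 0)) (P (nat_lit 62827191098304))))) (T.h (P (nat_lit 0)) (T.h (T.h (P (nat_lit 0)) (P (nat_lit 5360624420992))) (P (nat_lit 0)))))))) (T.h (T.h (T.h (M (nat_lit 11148306687387311073933656063)) (T.h (P (nat_lit 0)) (T.h (M (nat_lit 42457184328535899111423)) (T.h (P (nat_lit 0)) (P (nat_lit 107454521002655744)))))) (T.h (P (nat_lit 0)) (T.h (T.h (M (nat_lit 10168343157988999036927)) (T.h (P (nat_lit 0)) (P (nat_lit 138485348847714304)))) (T.h (P (nat_lit 0)) (P (nat_lit 11197351691255808)))))) (T.h (T.h (P (nat_lit 0)) (T.h (T.h (P (nat_lit 0)) (T.h (P (nat_lit 59282405974557589504)) (T.h (P (nat_lit 0)) (M (nat_lit 50830335485887))))) (T.h (P (nat_lit 0)) (T.h (T.h (P (nat_lit 0)) (M (nat_lit 8555555049535))) (P (nat_lit 0)))))) (T.h (T.h (T.h (P (nat_lit 9990154410232597446656))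 (T.h (P (nat_lit 0)) (P (nat_lit 177198910576820224)))) (T.h (P (nat_lit 0)) (P (nat_lit 15342922548215808)))) (T.h (T.h (P (nat_lit 0)) (T.h (T.h (P (nat_lit 0)) (P (nat_lit 30400262961600))) (P (nat_lit 0)))) (P (nat_lit 15339279740928000))))))), (T.h (T.h (P (nat_lit 0)) (T.h (T.h (P (nat_lit 994755837398416160144228352)) (T.h (P (nat_lit 0)) (T.h (P (nat_lit 62873011426048620888064)) (T.h (P (nat_lit 0)) (P (nat_lit 866541895063420928)))))) (T.h (P (nat_lit 0)) (T.h (T.h (P (nat_lit 1627259457768127463424)) (T.h (P (nat_lit 0)) (P (nat_lit 40138936817926144)))) (T.h (P (nat_lit 0)) (M (nat_lit 1438415993520127))))))) (T.h (T.h (T.h (P (nat_lit 0)) (T.h (P (nat_lit 20370376071632726442115072)) (T.h (P (nat_lit 0)) (T.h (M (nat_lit 74258750209269956607)) (T.h (P (nat_lit 0)) (M (nat_lit 430642633814447))))))) (T.h (P (nat_lit 0)) (T.h (T.h (P (nat_lit 0)) (T.h (M (nat_lit 52736164427403886591)) (T.h (P (nat_lit 0)) (M (nat_lit 64739948756207)))))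 (T.h (P (nat_lit 0)) (T.h (T.h (P (nat_lit 0)) (P (nat_lit 37730281781984))) (P (nat_lit 0))))))) (T.h (T.h (P (nat_lit 0)) (T.h (T.h (P (nat_lit 385848081155304194048)) (T.h (P (nat_lit 0)) (P (nat_lit 102840527015788544)))) (T.h (P (nat_lit 0)) (P (nat_lit 1901487044935680))))) (T.h (T.h (T.h (P (nat_lit 0)) (T.h (M (nat_lit 14468998367255986175)) (T.h (P (nat_lit 0)) (P (nat_lit 847315013424))))) (T.h (P (nat_lit 0)) (T.h (T.h (P (nat_lit 0)) (P (nat_lit 238877194160))) (P (nat_lit 0))))) (T.h (T.h (P (nat_lit 0)) (M (nat_lit 26168110165688319))) (T.h (T.h (T.h (P (nat_lit 0)) (M (nat_lit 6662556455103))) (P (nat_lit 0))) (P (nat_lit 0)))))))), (T.h (T.h (P (nat_lit 0)) (T.h (T.h (P (nat_lit 0)) (T.h (M (nat_lit 8685767576524368306503679)) (T.h (P (nat_lit 0)) (M (nat_lit 126973145165437337599))))) (T.h (P (nat_lit 0)) (T.h (T.h (P (nat_lit 0)) (M (nat_lit 32111403715541336063))) (P (nat_lit 0)))))) (T.h (T.h (T.h (M (nat_lit 3849283284899336926831575039))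 (T.h (P (nat_lit 0)) (T.h (M (nat_lit 7915433807328952975359)) (T.h (P (nat_lit 0)) (P (nat_lit 421785709203062784)))))) (T.h (P (nat_lit 0)) (T.h (T.h (M (nat_lit 318127756473987497983)) (T.h (P (nat_lit 0)) (P (nat_lit 56882161005330432)))) (T.h (P (nat_lit 0)) (M (nat_lit 9836419181182975)))))) (T.h (T.h (P (nat_lit 0)) (T.h (T.h (P (nat_lit 0)) (M (nat_lit 21352153951422644223))) (P (nat_lit 0)))) (T.h (T.h (T.h (M (nat_lit 2169209033493156200447)) (T.h (P (nat_lit 0)) (M (nat_lit 9664805248008191)))) (T.h (P (nat_lit 0)) (M (nat_lit 5667928027332607)))) (T.h (P (nat_lit 0)) (P (nat_lit 411400681750528))))))), (P (nat_lit 0)), (P (nat_lit 0))]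
def lP11_28 : List (T ℤ) := [(T.h (T.h (T.h (M (nat_lit 3050221165982965858891387109375)) (T.h (P (nat_lit 0)) (T.h (M (nat_lit 10781205320472671966724095)) (T.h (P (nat_lit 0)) (T.h (M (nat_lit 127519819597720059903)) (T.h (P (nat_lit 0)) (P (nat_lit 91885726740320)))))))) (T.h (P (nat_lit 0)) (T.h (T.h (P (nat_lit 9117757203258986322722816)) (T.h (P (nat_lit 0)) (T.h (P (nat_lit 34309527410996936704)) (T.h (P (nat_lit 0)) (M (nat_lit 178724609607039)))))) (T.h (P (nat_lit 0)) (T.h (T.h (P (nat_lit 3026623075966779392)) (T.h (P (nat_lit 0)) (P (nat_lit 106079842663632)))) (T.h (P (nat_lit 0)) (P (nat_lit 4793578431152)))))))) (T.h (T.h (P (nat_lit 0)) (T.h (T.h (P (nat_lit 0)) (T.h (M (nat_lit 36962998555645520642047)) (T.h (P (nat_lit 0)) (M (nat_lit 106571254110420991))))) (T.h (P (nat_lit 0)) (T.h (T.h (P (nat_lit 0)) (M (nat_lit 28969748299710463))) (P (nat_lit 0)))))) (T.h (T.h (T.h (P (nat_lit 11271137998804260396990464)) (T.h (P (nat_lit 0))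 (T.h (M (nat_lit 22808272842543595519)) (T.h (P (nat_lit 0)) (M (nat_lit 573700470264399)))))) (T.h (P (nat_lit 0)) (T.h (T.h (M (nat_lit 11974111649612169215)) (T.h (P (nat_lit 0)) (P (nat_lit 129124711451760)))) (T.h (P (nat_lit 0)) (M (nat_lit 3296272730431)))))) (T.h (T.h (P (nat_lit 0)) (T.h (T.h (P (nat_lit 0)) (P (nat_lit 6628057925877760))) (P (nat_lit 0)))) (T.h (T.h (T.h (M (nat_lit 34847022814194565119)) (T.h (P (nat_lit 0)) (M (nat_lit 253534071292367)))) (T.h (P (nat_lit 0)) (P (nat_lit 45205290417088)))) (T.h (P (nat_lit 0)) (P (nat_lit 52247510850896)))))))), (T.h (T.h (T.h (P (nat_lit 0)) (T.h (M (nat_lit 10568642270593862374394953727)) (T.h (P (nat_lit 0)) (T.h (P (nat_lit 140262297202309164171264)) (T.h (P (nat_lit 0)) (M (nat_lit 263332630997860351))))))) (T.h (P (nat_lit 0)) (T.h (T.h (P (nat_lit 0)) (T.h (P (nat_lit 8179832511665811750912)) (T.h (P (nat_lit 0)) (P (nat_lit 126396749802356736))))) (T.h (P (nat_lit 0)) (T.h (T.h (P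 (nat_lit 0)) (P (nat_lit 42281017820037120))) (P (nat_lit 0))))))) (T.h (T.h (P (nat_lit 0)) (T.h (T.h (P (nat_lit 11439208824090017958723584)) (T.h (P (nat_lit 0)) (T.h (P (nat_lit 167073992415295569920)) (T.h (P (nat_lit 0)) (M (nat_lit 216448194887871)))))) (T.h (P (nat_lit 0)) (T.h (T.h (M (nat_lit 25606197467787821055)) (T.h (P (nat_lit 0)) (P (nat_lit 13668783183072)))) (T.h (P (nat_lit 0)) (M (nat_lit 9359451847407))))))) (T.h (T.h (T.h (P (nat_lit 0)) (T.h (P (nat_lit 8179832511665811750912)) (T.h (P (nat_lit 0)) (P (nat_lit 126396749802356736))))) (T.h (P (nat_lit 0)) (T.h (T.h (P (nat_lit 0)) (M (nat_lit 83790289926193151))) (P (nat_lit 0))))) (T.h (T.h (P (nat_lit 0)) (T.h (T.h (M (nat_lit 25606197467787821055)) (T.h (P (nat_lit 0)) (P (nat_lit 13668783183072)))) (T.h (P (nat_lit 0)) (M (nat_lit 9080975901567))))) (T.h (T.h (T.h (P (nat_lit 0)) (P (nat_lit 42281017820037120))) (P (nat_lit 0))) (T.h (T.h (P (nat_lit 0)) (M (nat_lit 9359451847407)))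 (P (nat_lit 0)))))))), (T.h (T.h (T.h (M (nat_lit 451371570892644458700375851007)) (T.h (P (nat_lit 0)) (T.h (M (nat_lit 124140892935933662322491391)) (T.h (P (nat_lit 0)) (T.h (P (nat_lit 110870326665958916096)) (T.h (P (nat_lit 0)) (M (nat_lit 259896371934719)))))))) (T.h (P (nat_lit 0)) (T.h (T.h (P (nat_lit 4672964246757204557824)) (T.h (P (nat_lit 0)) (T.h (M (nat_lit 278979030134133096447)) (T.h (P (nat_lit 0)) (P (nat_lit 25220496191936)))))) (T.h (P (nat_lit 0)) (T.h (T.h (P (nat_lit 20156511356041822208)) (T.h (P (nat_lit 0)) (P (nat_lit 87479027713152)))) (T.h (P (nat_lit 0)) (M (nat_lit 33585842871871)))))))) (T.h (T.h (P (nat_lit 0)) (T.h (T.h (P (nat_lit 0)) (T.h (M (nat_lit 42988637549822149132287)) (T.h (P (nat_lit 0)) (P (nat_lit 1038887502988050432))))) (T.h (P (nat_lit 0)) (T.h (T.h (P (nat_lit 0)) (M (nat_lit 42406834708414463))) (P (nat_lit 0)))))) (T.h (T.h (T.h (M (nat_lit 37919151538686333718364159)) (T.h (P (nat_lit 0)) (T.h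 (M (nat_lit 358588512846512914431)) (T.h (P (nat_lit 0)) (P (nat_lit 25220496191936)))))) (T.h (P (nat_lit 0)) (T.h (T.h (M (nat_lit 38660472408677285887)) (T.h (P (nat_lit 0)) (M (nat_lit 190117580289279)))) (T.h (P (nat_lit 0)) (M (nat_lit 49145268336255)))))) (T.h (T.h (P (nat_lit 0)) (T.h (T.h (P (nat_lit 0)) (P (nat_lit 54255412921630720))) (P (nat_lit 0)))) (T.h (T.h (T.h (M (nat_lit 24796098954929373183)) (T.h (P (nat_lit 0)) (P (nat_lit 87479027713152)))) (T.h (P (nat_lit 0)) (M (nat_lit 49145268336255)))) (T.h (P (nat_lit 0)) (M (nat_lit 33585842871871)))))))), (T.h (T.h (T.h (P (nat_lit 0)) (T.h (P (nat_lit 17659136188694529823951814656)) (T.h (P (nat_lit 0)) (T.h (P (nat_lit 73861470267005309288448)) (T.h (P (nat_lit 0)) (P (nat_lit 598338107407433728))))))) (T.h (P (nat_lit 0)) (T.h (T.h (P (nat_lit 0)) (T.h (P (nat_lit 39795335775124061159424)) (T.h (P (nat_lit 0)) (M (nat_lit 78670430591942655))))) (T.h (P (nat_lit 0)) (T.h (T.h (P (nat_lit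 0)) (M (nat_lit 99868825715032063))) (P (nat_lit 0))))))) (T.h (T.h (P (nat_lit 0)) (T.h (T.h (P (nat_lit 12728157364842137498157056)) (T.h (P (nat_lit 0)) (T.h (M (nat_lit 303699369560303992831)) (T.h (P (nat_lit 0)) (M (nat_lit 170370273170943)))))) (T.h (P (nat_lit 0)) (T.h (T.h (M (nat_lit 15539825767377534975)) (T.h (P (nat_lit 0)) (M (nat_lit 232315348433871)))) (T.h (P (nat_lit 0)) (M (nat_lit 53103933012239))))))) (T.h (T.h (T.h (P (nat_lit 0)) (T.h (P (nat_lit 39795335775124061159424)) (T.h (P (nat_lit 0)) (M (nat_lit 78670430591942655))))) (T.h (P (nat_lit 0)) (T.h (T.h (P (nat_lit 0)) (P (nat_lit 10397342753980416))) (P (nat_lit 0))))) (T.h (T.h (P (nat_lit 0)) (T.h (T.h (M (nat_lit 15539825767377534975)) (T.h (P (nat_lit 0)) (M (nat_lit 232315348433871)))) (T.h (P (nat_lit 0)) (P (nat_lit 1364867077376))))) (T.h (T.h (T.h (P (nat_lit 0)) (M (nat_lit 99868825715032063))) (P (nat_lit 0))) (T.h (T.h (P (nat_lit 0)) (M (nat_lit 53103933012239)))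 (P (nat_lit 0)))))))), (T.h (T.h (T.h (P (nat_lit 6680708591493659502204118106112)) (T.h (P (nat_lit 0)) (T.h (M (nat_lit 2149890956194024676917247)) (T.h (P (nat_lit 0)) (M (nat_lit 8287550168841060351)))))) (T.h (P (nat_lit 0)) (T.h (T.h (P (nat_lit 3152629237428887272554496)) (T.h (P (nat_lit 0)) (M (nat_lit 48278542870674145279)))) (T.h (P (nat_lit 0)) (P (nat_lit 9809641144634572800)))))) (T.h (T.h (P (nat_lit 0)) (T.h (T.h (P (nat_lit 0)) (T.h (M (nat_lit 65334891981411134210047)) (T.h (P (nat_lit 0)) (P (nat_lit 175092994366111744))))) (T.h (P (nat_lit 0)) (T.h (T.h (P (nat_lit 0)) (P (nat_lit 58318068894531584))) (P (nat_lit 0)))))) (T.h (T.h (T.h (P (nat_lit 3152629237428887272554496)) (T.h (P (nat_lit 0)) (M (nat_lit 48278542870674145279)))) (T.h (P (nat_lit 0)) (P (nat_lit 9895869601147781120)))) (T.h (T.h (P (nat_lit 0)) (T.h (T.h (P (nat_lit 0)) (P (nat_lit 58318068894531584))) (P (nat_lit 0)))) (P (nat_lit 9809641144634572800)))))), (P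 (nat_lit 0)), (P (nat_lit 0)), (T.h (T.h (P (nat_lit 0)) (T.h (T.h (P (nat_lit 0)) (T.h (M (nat_lit 135375362320327097479856127)) (T.h (P (nat_lit 0)) (T.h (M (nat_lit 155606382169957597183)) (T.h (P (nat_lit 0)) (P (nat_lit 209652406465312))))))) (T.h (P (nat_lit 0)) (T.h (T.h (P (nat_lit 0)) (T.h (P (nat_lit 73970947616961200128)) (T.h (P (nat_lit 0)) (P (nat_lit 250958008136960))))) (T.h (P (nat_lit 0)) (T.h (T.h (P (nat_lit 0)) (P (nat_lit 65624005949104))) (P (nat_lit 0)))))))) (T.h (T.h (T.h (M (nat_lit 2701803597464350379122622463)) (T.h (P (nat_lit 0)) (T.h (P (nat_lit 130791519240976360013824)) (T.h (P (nat_lit 0)) (P (nat_lit 367126490482573312)))))) (T.h (P (nat_lit 0)) (T.h (T.h (M (nat_lit 87112788446216649179135)) (T.h (P (nat_lit 0)) (M (nat_lit 204153046309240831)))) (T.h (P (nat_lit 0)) (M (nat_lit 20265644861390847)))))) (T.h (T.h (P (nat_lit 0)) (T.h (T.h (P (nat_lit 0)) (T.h (M (nat_lit 123741823817952002047)) (T.h (P (nat_lit 0))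 (P (nat_lit 746115527544112))))) (T.h (P (nat_lit 0)) (T.h (T.h (P (nat_lit 0)) (P (nat_lit 229864588273376))) (P (nat_lit 0)))))) (T.h (T.h (T.h (P (nat_lit 42408897784464348807168)) (T.h (P (nat_lit 0)) (P (nat_lit 32593169109319680)))) (T.h (P (nat_lit 0)) (P (nat_lit 89162228750811136)))) (T.h (T.h (P (nat_lit 0)) (T.h (T.h (P (nat_lit 0)) (M (nat_lit 297684511264999))) (P (nat_lit 0)))) (P (nat_lit 67411441131356160)))))))]
def lP11_29 : List (T ℤ) := [(T.h (T.h (P (nat_lit 0)) (T.h (T.h (P (nat_lit 15380115727653131485035102208)) (T.h (P (nat_lit 0)) (T.h (P (nat_lit 216780055610455473782784)) (T.h (P (nat_lit 0)) (P (nat_lit 1247862232905646080)))))) (T.h (P (nat_lit 0)) (T.h (T.h (P (nat_lit 23791495973334847324160)) (T.h (P (nat_lit 0)) (M (nat_lit 484054019528278015)))) (T.h (P (nat_lit 0)) (M (nat_lit 26364715809570815))))))) (T.h (T.h (T.h (P (nat_lit 0)) (T.h (P (nat_lit 17379666816507119761620992)) (T.h (P (nat_lit 0)) (T.h (M (nat_lit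 780718172717187071999)) (T.h (P (nat_lit 0)) (M (nat_lit 66454312782383))))))) (T.h (P (nat_lit 0)) (T.h (T.h (P (nat_lit 0)) (T.h (M (nat_lit 178655606925126795263)) (T.h (P (nat_lit 0)) (M (nat_lit 214678815772191))))) (T.h (P (nat_lit 0)) (T.h (T.h (P (nat_lit 0)) (P (nat_lit 37646666864368))) (P (nat_lit 0))))))) (T.h (T.h (P (nat_lit 0)) (T.h (T.h (M (nat_lit 11973165008297945726975)) (T.h (P (nat_lit 0)) (M (nat_lit 609359773776707583)))) (T.h (P (nat_lit 0)) (P (nat_lit 148820429166133248))))) (T.h (T.h (T.h (P (nat_lit 0)) (T.h (P (nat_lit 11789433114952990720)) (T.h (P (nat_lit 0)) (P (nat_lit 353039296888688))))) (T.h (P (nat_lit 0)) (T.h (T.h (P (nat_lit 0)) (P (nat_lit 34912500471408))) (P (nat_lit 0))))) (T.h (T.h (P (nat_lit 0)) (P (nat_lit 146359645562765312))) (T.h (T.h (T.h (P (nat_lit 0)) (M (nat_lit 55568670508703))) (P (nat_lit 0))) (P (nat_lit 0)))))))), (T.h (T.h (P (nat_lit 0)) (T.h (T.h (P (nat_lit 0)) (T.h (P (nat_lit 78643091181592859119714304))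 (T.h (P (nat_lit 0)) (T.h (M (nat_lit 490118295586210840575)) (T.h (P (nat_lit 0)) (P (nat_lit 51752019734528))))))) (T.h (P (nat_lit 0)) (T.h (T.h (P (nat_lit 0)) (T.h (M (nat_lit 94555034986383147007)) (T.h (P (nat_lit 0)) (M (nat_lit 742633037618623))))) (T.h (P (nat_lit 0)) (T.h (T.h (P (nat_lit 0)) (M (nat_lit 44899184523903))) (P (nat_lit 0)))))))) (T.h (T.h (T.h (P (nat_lit 16668059683528823549844258816)) (T.h (P (nat_lit 0)) (T.h (P (nat_lit 349617350202979222814720)) (T.h (P (nat_lit 0)) (P (nat_lit 2397534844890349568)))))) (T.h (P (nat_lit 0)) (T.h (T.h (P (nat_lit 20938238415108967497728)) (T.h (P (nat_lit 0)) (M (nat_lit 336951512124850175)))) (T.h (P (nat_lit 0)) (P (nat_lit 400568970346496)))))) (T.h (T.h (P (nat_lit 0)) (T.h (T.h (P (nat_lit 0)) (T.h (M (nat_lit 117641187764599783423)) (T.h (P (nat_lit 0)) (M (nat_lit 29409860822207))))) (T.h (P (nat_lit 0)) (T.h (T.h (P (nat_lit 0)) (M (nat_lit 113277908187199))) (P (nat_lit 0))))))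 (T.h (T.h (T.h (M (nat_lit 228711732591196530278399)) (T.h (P (nat_lit 0)) (M (nat_lit 925108444240871423)))) (T.h (P (nat_lit 0)) (P (nat_lit 134406886334005248)))) (T.h (T.h (P (nat_lit 0)) (T.h (T.h (P (nat_lit 0)) (M (nat_lit 170850741107391))) (P (nat_lit 0)))) (P (nat_lit 288226290564268032))))))), (T.h (T.h (P (nat_lit 0)) (T.h (T.h (P (nat_lit 37290123923396345576130871296)) (T.h (P (nat_lit 0)) (T.h (M (nat_lit 216615402926984000438271)) (T.h (P (nat_lit 0)) (M (nat_lit 2408653964429623295)))))) (T.h (P (nat_lit 0)) (T.h (T.h (M (nat_lit 83384638649807436513279)) (T.h (P (nat_lit 0)) (P (nat_lit 444163933741268992)))) (T.h (P (nat_lit 0)) (P (nat_lit 88760662273196032))))))) (T.h (T.h (T.h (P (nat_lit 0)) (T.h (M (nat_lit 28274635799503944084881407)) (T.h (P (nat_lit 0)) (T.h (P (nat_lit 1212621973166793687040)) (T.h (P (nat_lit 0)) (P (nat_lit 121955344170176))))))) (T.h (P (nat_lit 0)) (T.h (T.h (P (nat_lit 0)) (T.h (P (nat_lit 292845057866878418944))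 (T.h (P (nat_lit 0)) (P (nat_lit 196489953460944))))) (T.h (P (nat_lit 0)) (T.h (T.h (P (nat_lit 0)) (P (nat_lit 6113804648160))) (P (nat_lit 0))))))) (T.h (T.h (P (nat_lit 0)) (T.h (T.h (M (nat_lit 26065561976378344079359)) (T.h (P (nat_lit 0)) (M (nat_lit 271446362752925695)))) (T.h (P (nat_lit 0)) (P (nat_lit 214512770539110400))))) (T.h (T.h (T.h (P (nat_lit 0)) (T.h (P (nat_lit 135197495194252476416)) (T.h (P (nat_lit 0)) (P (nat_lit 145380656903328))))) (T.h (P (nat_lit 0)) (T.h (T.h (P (nat_lit 0)) (M (nat_lit 212037508337423))) (P (nat_lit 0))))) (T.h (T.h (P (nat_lit 0)) (P (nat_lit 137590494587011072))) (T.h (T.h (T.h (P (nat_lit 0)) (P (nat_lit 66604191561776))) (P (nat_lit 0))) (P (nat_lit 0)))))))), (T.h (T.h (P (nat_lit 0)) (T.h (T.h (P (nat_lit 0)) (T.h (P (nat_lit 8873249925010409236987904)) (T.h (P (nat_lit 0)) (P (nat_lit 1675819003399964196864))))) (T.h (P (nat_lit 0)) (T.h (T.h (P (nat_lit 0)) (P (nat_lit 30364639935229591552)))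 (P (nat_lit 0)))))) (T.h (T.h (T.h (P (nat_lit 5627338853244708344937054208)) (T.h (P (nat_lit 0)) (T.h (M (nat_lit 497853062471768386568191)) (T.h (P (nat_lit 0)) (M (nat_lit 123288370909806591)))))) (T.h (P (nat_lit 0)) (T.h (T.h (M (nat_lit 8392513750900005666815)) (T.h (P (nat_lit 0)) (M (nat_lit 61852061350625279)))) (T.h (P (nat_lit 0)) (P (nat_lit 86201168399007744)))))) (T.h (T.h (P (nat_lit 0)) (T.h (T.h (P (nat_lit 0)) (P (nat_lit 142869371267454074880))) (P (nat_lit 0)))) (T.h (T.h (T.h (P (nat_lit 14449164374880544620544)) (T.h (P (nat_lit 0)) (M (nat_lit 121245971013926911)))) (T.h (P (nat_lit 0)) (P (nat_lit 114524215843454976)))) (T.h (P (nat_lit 0)) (M (nat_lit 8554639390932991))))))), (P (nat_lit 0)), (P (nat_lit 0)), (T.h (T.h (T.h (M (nat_lit 10677134915845016086041795231743)) (T.h (P (nat_lit 0)) (T.h (M (nat_lit 170594560245177994887299071)) (T.h (P (nat_lit 0)) (T.h (P (nat_lit 69669518531524296704)) (T.h (P (nat_lit 0)) (M (nat_lit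 462544101866687)))))))) (T.h (P (nat_lit 0)) (T.h (T.h (M (nat_lit 26886512860853551021162495)) (T.h (P (nat_lit 0)) (T.h (P (nat_lit 44281650571529682944)) (T.h (P (nat_lit 0)) (P (nat_lit 886265207257184)))))) (T.h (P (nat_lit 0)) (T.h (T.h (P (nat_lit 3634635453669310464)) (T.h (P (nat_lit 0)) (M (nat_lit 665232243263807)))) (T.h (P (nat_lit 0)) (M (nat_lit 83858094054175)))))))) (T.h (T.h (P (nat_lit 0)) (T.h (T.h (P (nat_lit 0)) (T.h (M (nat_lit 491421155550159397978111)) (T.h (P (nat_lit 0)) (M (nat_lit 1989392484117512191))))) (T.h (P (nat_lit 0)) (T.h (T.h (P (nat_lit 0)) (M (nat_lit 1042249217235222527))) (P (nat_lit 0)))))) (T.h (T.h (T.h (M (nat_lit 26886512860853551021162495)) (T.h (P (nat_lit 0)) (T.h (P (nat_lit 44281650571529682944)) (T.h (P (nat_lit 0)) (P (nat_lit 886265207257184)))))) (T.h (P (nat_lit 0)) (T.h (T.h (M (nat_lit 229208813868960186367)) (T.h (P (nat_lit 0)) (P (nat_lit 1155003099060480)))) (T.h (P (nat_lit 0)) (M (nat_lit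 134309146506911)))))) (T.h (T.h (P (nat_lit 0)) (T.h (T.h (P (nat_lit 0)) (M (nat_lit 1042249217235222527))) (P (nat_lit 0)))) (T.h (T.h (T.h (P (nat_lit 3634635453669310464)) (T.h (P (nat_lit 0)) (M (nat_lit 665232243263807)))) (T.h (P (nat_lit 0)) (M (nat_lit 134309146506911)))) (T.h (P (nat_lit 0)) (M (nat_lit 83858094054175)))))))), (T.h (T.h (T.h (P (nat_lit 0)) (T.h (P (nat_lit 331315366373518868555497472)) (T.h (P (nat_lit 0)) (T.h (M (nat_lit 303050861242745637306367)) (T.h (P (nat_lit 0)) (M (nat_lit 9532603432566783))))))) (T.h (P (nat_lit 0)) (T.h (T.h (P (nat_lit 0)) (T.h (P (nat_lit 3943045166463602130944)) (T.h (P (nat_lit 0)) (M (nat_lit 831040885806137343))))) (T.h (P (nat_lit 0)) (T.h (T.h (P (nat_lit 0)) (P (nat_lit 552500136685928448))) (P (nat_lit 0))))))) (T.h (T.h (P (nat_lit 0)) (T.h (T.h (M (nat_lit 139285893050371934072602623)) (T.h (P (nat_lit 0)) (T.h (P (nat_lit 797514584793605472256)) (T.h (P (nat_lit 0)) (P (nat_lit 40938352532672))))))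 (T.h (P (nat_lit 0)) (T.h (T.h (M (nat_lit 77157487730600443903)) (T.h (P (nat_lit 0)) (P (nat_lit 859487121822080)))) (T.h (P (nat_lit 0)) (M (nat_lit 1532119905423))))))) (T.h (T.h (T.h (P (nat_lit 0)) (T.h (P (nat_lit 3943045166463602130944)) (T.h (P (nat_lit 0)) (M (nat_lit 831040885806137343))))) (T.h (P (nat_lit 0)) (T.h (T.h (P (nat_lit 0)) (P (nat_lit 55394378035003392))) (P (nat_lit 0))))) (T.h (T.h (P (nat_lit 0)) (T.h (T.h (M (nat_lit 77157487730600443903)) (T.h (P (nat_lit 0)) (P (nat_lit 859487121822080)))) (T.h (P (nat_lit 0)) (M (nat_lit 90951640090911))))) (T.h (T.h (T.h (P (nat_lit 0)) (P (nat_lit 552500136685928448))) (P (nat_lit 0))) (T.h (T.h (P (nat_lit 0)) (M (nat_lit 1532119905423))) (P (nat_lit 0))))))))]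
def lP11_30 : List (T ℤ) := [(T.h (T.h (T.h (M (nat_lit 17636706048359863470403769860095)) (T.h (P (nat_lit 0)) (T.h (P (nat_lit 333732033007599774670520320)) (T.h (P (nat_lit 0)) (T.h (M (nat_lit 367160996929212514303)) (T.h (P (nat_lit 0)) (M (nat_lit 289724187304703)))))))) (T.h (P (nat_lit 0)) (T.h (T.h (M (nat_lit 68092611027882501256249343)) (T.h (P (nat_lit 0)) (T.h (M (nat_lit 350371070517081800703)) (T.h (P (nat_lit 0)) (P (nat_lit 272295348003136)))))) (T.h (P (nat_lit 0)) (T.h (T.h (P (nat_lit 52619288293568151552)) (T.h (P (nat_lit 0)) (P (nat_lit 1171677425673536)))) (T.h (P (nat_lit 0)) (M (nat_lit 160954619470975)))))))) (T.h (T.h (P (nat_lit 0)) (T.h (T.h (P (nat_lit 0)) (T.h (M (nat_lit 393495445805633405714431)) (T.h (P (nat_lit 0)) (M (nat_lit 706739742689460223))))) (T.h (P (nat_lit 0)) (T.h (T.h (P (nat_lit 0)) (P (nat_lit 117741655567564800))) (P (nat_lit 0)))))) (T.h (T.h (T.h (M (nat_lit 68092611027882501256249343)) (T.h (P (nat_lit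 0)) (T.h (M (nat_lit 350371070517081800703)) (T.h (P (nat_lit 0)) (P (nat_lit 272295348003136)))))) (T.h (P (nat_lit 0)) (T.h (T.h (P (nat_lit 233296241049410207744)) (T.h (P (nat_lit 0)) (P (nat_lit 1330661983622784)))) (T.h (P (nat_lit 0)) (P (nat_lit 144828275473920)))))) (T.h (T.h (P (nat_lit 0)) (T.h (T.h (P (nat_lit 0)) (P (nat_lit 117741655567564800))) (P (nat_lit 0)))) (T.h (T.h (T.h (P (nat_lit 52619288293568151552)) (T.h (P (nat_lit 0)) (P (nat_lit 1171677425673536)))) (T.h (P (nat_lit 0)) (P (nat_lit 144828275473920)))) (T.h (P (nat_lit 0)) (M (nat_lit 160954619470975)))))))), (T.h (T.h (T.h (P (nat_lit 0)) (T.h (P (nat_lit 35408779058237194496632684544)) (T.h (P (nat_lit 0)) (T.h (M (nat_lit 161225207131123774128127)) (T.h (P (nat_lit 0)) (P (nat_lit 1104398522254360576))))))) (T.h (P (nat_lit 0)) (T.h (T.h (P (nat_lit 0)) (T.h (P (nat_lit 89098204011013234229248)) (T.h (P (nat_lit 0)) (M (nat_lit 53497933747453951))))) (T.h (P (nat_lit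 0)) (T.h (T.h (P (nat_lit 0)) (M (nat_lit 309177889667301375))) (P (nat_lit 0))))))) (T.h (T.h (P (nat_lit 0)) (T.h (T.h (P (nat_lit 181111108326985304968790016)) (T.h (P (nat_lit 0)) (T.h (P (nat_lit 76277699546884079616)) (T.h (P (nat_lit 0)) (P (nat_lit 3764636071160448)))))) (T.h (P (nat_lit 0)) (T.h (T.h (M (nat_lit 56953247612568338431)) (T.h (P (nat_lit 0)) (P (nat_lit 492380521021664)))) (T.h (P (nat_lit 0)) (P (nat_lit 283838634634192))))))) (T.h (T.h (T.h (P (nat_lit 0)) (T.h (P (nat_lit 89098204011013234229248)) (T.h (P (nat_lit 0)) (M (nat_lit 53497933747453951))))) (T.h (P (nat_lit 0)) (T.h (T.h (P (nat_lit 0)) (M (nat_lit 542176237411598335))) (P (nat_lit 0))))) (T.h (T.h (P (nat_lit 0)) (T.h (T.h (M (nat_lit 56953247612568338431)) (T.h (P (nat_lit 0)) (P (nat_lit 492380521021664)))) (T.h (P (nat_lit 0)) (M (nat_lit 50109655190495))))) (T.h (T.h (T.h (P (nat_lit 0)) (M (nat_lit 309177889667301375))) (P (nat_lit 0))) (T.h (T.h (P (nat_lit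 0)) (P (nat_lit 283838634634192))) (P (nat_lit 0)))))))), (T.h (T.h (T.h (M (nat_lit 33220262474101938314445762592767)) (T.h (P (nat_lit 0)) (T.h (M (nat_lit 46253504220323500802441215)) (T.h (P (nat_lit 0)) (P (nat_lit 237824211651852763136)))))) (T.h (P (nat_lit 0)) (T.h (T.h (P (nat_lit 66418560991289622354984960)) (T.h (P (nat_lit 0)) (P (nat_lit 241990254336743047168)))) (T.h (P (nat_lit 0)) (M (nat_lit 52906395774008426495)))))) (T.h (T.h (P (nat_lit 0)) (T.h (T.h (P (nat_lit 0)) (T.h (P (nat_lit 341548766090070176301056)) (T.h (P (nat_lit 0)) (M (nat_lit 2949958581245313023))))) (T.h (P (nat_lit 0)) (T.h (T.h (P (nat_lit 0)) (M (nat_lit 108942660693852159))) (P (nat_lit 0)))))) (T.h (T.h (T.h (P (nat_lit 66418560991289622354984960)) (T.h (P (nat_lit 0)) (P (nat_lit 241990254336743047168)))) (T.h (P (nat_lit 0)) (M (nat_lit 53833967209428287487)))) (T.h (T.h (P (nat_lit 0)) (T.h (T.h (P (nat_lit 0)) (M (nat_lit 108942660693852159))) (P (nat_lit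 0)))) (M (nat_lit 52906395774008426495)))))), (P (nat_lit 0)), (P (nat_lit 0)), (T.h (T.h (P (nat_lit 0)) (T.h (T.h (P (nat_lit 0)) (T.h (M (nat_lit 41189532378361209735348223)) (T.h (P (nat_lit 0)) (T.h (M (nat_lit 46655078414092861439)) (T.h (P (nat_lit 0)) (M (nat_lit 34980200138519))))))) (T.h (P (nat_lit 0)) (T.h (T.h (P (nat_lit 0)) (T.h (P (nat_lit 486125676611887955968)) (T.h (P (nat_lit 0)) (M (nat_lit 1501100673922575))))) (T.h (P (nat_lit 0)) (T.h (T.h (P (nat_lit 0)) (P (nat_lit 410497940195888))) (P (nat_lit 0)))))))) (T.h (T.h (T.h (P (nat_lit 111178484058619237873389404160)) (T.h (P (nat_lit 0)) (T.h (M (nat_lit 115850023633569521336319)) (T.h (P (nat_lit 0)) (M (nat_lit 41342384774774783)))))) (T.h (P (nat_lit 0)) (T.h (T.h (P (nat_lit 40760733975397705711616)) (T.h (P (nat_lit 0)) (M (nat_lit 187280388125884415)))) (T.h (P (nat_lit 0)) (P (nat_lit 21188157654433792)))))) (T.h (T.h (P (nat_lit 0)) (T.h (T.h (P (nat_lit 0)) (T.h (M (nat_lit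 675868454042908753919)) (T.h (P (nat_lit 0)) (P (nat_lit 674159898158272))))) (T.h (P (nat_lit 0)) (T.h (T.h (P (nat_lit 0)) (P (nat_lit 869756130706808))) (P (nat_lit 0)))))) (T.h (T.h (T.h (M (nat_lit 137288147945334882959359)) (T.h (P (nat_lit 0)) (P (nat_lit 222497719356063744)))) (T.h (P (nat_lit 0)) (P (nat_lit 928411721710764032)))) (T.h (T.h (P (nat_lit 0)) (T.h (T.h (P (nat_lit 0)) (M (nat_lit 273236532926343))) (P (nat_lit 0)))) (P (nat_lit 4785968924459008))))))), (T.h (T.h (P (nat_lit 0)) (T.h (T.h (P (nat_lit 43277155415059202772708622336)) (T.h (P (nat_lit 0)) (T.h (P (nat_lit 170186113998269844553728)) (T.h (P (nat_lit 0)) (P (nat_lit 937968967112327168)))))) (T.h (P (nat_lit 0)) (T.h (T.h (M (nat_lit 254507504074819192750079)) (T.h (P (nat_lit 0)) (M (nat_lit 335012596202733567)))) (T.h (P (nat_lit 0)) (P (nat_lit 50133245051371520))))))) (T.h (T.h (T.h (P (nat_lit 0)) (T.h (M (nat_lit 71680159886675777702330367)) (T.h (P (nat_lit 0))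 (T.h (M (nat_lit 552929872375034413055)) (T.h (P (nat_lit 0)) (M (nat_lit 196060949436703))))))) (T.h (P (nat_lit 0)) (T.h (T.h (P (nat_lit 0)) (T.h (M (nat_lit 235845349929507618815)) (T.h (P (nat_lit 0)) (P (nat_lit 284497740592896))))) (T.h (P (nat_lit 0)) (T.h (T.h (P (nat_lit 0)) (P (nat_lit 375373675342624))) (P (nat_lit 0))))))) (T.h (T.h (P (nat_lit 0)) (T.h (T.h (P (nat_lit 148186376742795959336960)) (T.h (P (nat_lit 0)) (M (nat_lit 1671646665212379135)))) (T.h (P (nat_lit 0)) (M (nat_lit 159617239653646335))))) (T.h (T.h (T.h (P (nat_lit 0)) (T.h (M (nat_lit 414865321548121636863)) (T.h (P (nat_lit 0)) (P (nat_lit 74063858113264))))) (T.h (P (nat_lit 0)) (T.h (T.h (P (nat_lit 0)) (P (nat_lit 852961503396064))) (P (nat_lit 0))))) (T.h (T.h (P (nat_lit 0)) (P (nat_lit 47304382030217216))) (T.h (T.h (T.h (P (nat_lit 0)) (M (nat_lit 238584807373775))) (P (nat_lit 0))) (P (nat_lit 0)))))))), (T.h (T.h (P (nat_lit 0)) (T.h (T.h (P (nat_lit 0)) (T.h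 (M (nat_lit 305341496380382908069707775)) (T.h (P (nat_lit 0)) (T.h (P (nat_lit 195462500300215025664)) (T.h (P (nat_lit 0)) (M (nat_lit 10379191674367))))))) (T.h (P (nat_lit 0)) (T.h (T.h (P (nat_lit 0)) (T.h (M (nat_lit 1530808288139588665343)) (T.h (P (nat_lit 0)) (M (nat_lit 861174941379135))))) (T.h (P (nat_lit 0)) (T.h (T.h (P (nat_lit 0)) (P (nat_lit 237508116720640))) (P (nat_lit 0)))))))) (T.h (T.h (T.h (P (nat_lit 62643655476449485939370098688)) (T.h (P (nat_lit 0)) (T.h (P (nat_lit 950643573431573778792448)) (T.h (P (nat_lit 0)) (M (nat_lit 232229606802161663)))))) (T.h (P (nat_lit 0)) (T.h (T.h (P (nat_lit 369848850225058518401024)) (T.h (P (nat_lit 0)) (M (nat_lit 1184918964387414015)))) (T.h (P (nat_lit 0)) (P (nat_lit 356312655989800960)))))) (T.h (T.h (P (nat_lit 0)) (T.h (T.h (P (nat_lit 0)) (T.h (P (nat_lit 2558449103850272980992)) (T.h (P (nat_lit 0)) (M (nat_lit 1485327107605247))))) (T.h (P (nat_lit 0)) (T.h (T.h (P (nat_lit 0))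 (P (nat_lit 3736984602240))) (P (nat_lit 0)))))) (T.h (T.h (T.h (P (nat_lit 287654487705655938383872)) (T.h (P (nat_lit 0)) (M (nat_lit 774131983532556287)))) (T.h (P (nat_lit 0)) (P (nat_lit 136851684765433856)))) (T.h (T.h (P (nat_lit 0)) (T.h (T.h (P (nat_lit 0)) (M (nat_lit 676794945140223))) (P (nat_lit 0)))) (M (nat_lit 174897995144101887)))))))]
def lP11_31 : List (T ℤ) := [(T.h (T.h (P (nat_lit 0)) (T.h (T.h (P (nat_lit 54332242541957806865850040320)) (T.h (P (nat_lit 0)) (T.h (P (nat_lit 174146129207516448423936)) (T.h (P (nat_lit 0)) (M (nat_lit 457285292616204287)))))) (T.h (P (nat_lit 0)) (T.h (T.h (P (nat_lit 232429605756821879914496)) (T.h (P (nat_lit 0)) (M (nat_lit 2490888803706617855)))) (T.h (P (nat_lit 0)) (M (nat_lit 25360039011237887))))))) (T.h (T.h (T.h (P (nat_lit 0)) (T.h (M (nat_lit 226576445221383062727688191)) (T.h (P (nat_lit 0)) (T.h (M (nat_lit 1196022857367273078783)) (T.h (P (nat_lit 0)) (P (nat_lit 475151156836224)))))))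 (T.h (P (nat_lit 0)) (T.h (T.h (P (nat_lit 0)) (T.h (P (nat_lit 434979439076475666432)) (T.h (P (nat_lit 0)) (M (nat_lit 360597627729327))))) (T.h (P (nat_lit 0)) (T.h (T.h (P (nat_lit 0)) (M (nat_lit 786410889423631))) (P (nat_lit 0))))))) (T.h (T.h (P (nat_lit 0)) (T.h (T.h (M (nat_lit 405458993047623369228287)) (T.h (P (nat_lit 0)) (P (nat_lit 1033407023379251200)))) (T.h (P (nat_lit 0)) (P (nat_lit 9917964440911872))))) (T.h (T.h (T.h (P (nat_lit 0)) (T.h (P (nat_lit 490315886064140550144)) (T.h (P (nat_lit 0)) (M (nat_lit 330682858573759))))) (T.h (P (nat_lit 0)) (T.h (T.h (P (nat_lit 0)) (M (nat_lit 330388936005567))) (P (nat_lit 0))))) (T.h (T.h (P (nat_lit 0)) (M (nat_lit 49825124056350719))) (T.h (T.h (T.h (P (nat_lit 0)) (M (nat_lit 405142020864415))) (P (nat_lit 0))) (P (nat_lit 0)))))))), (T.h (T.h (P (nat_lit 0)) (T.h (T.h (P (nat_lit 0)) (T.h (P (nat_lit 250268644846211475984875520)) (T.h (P (nat_lit 0)) (P (nat_lit 705506721799809794048)))))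 (T.h (P (nat_lit 0)) (T.h (T.h (P (nat_lit 0)) (P (nat_lit 606120902321160323072))) (P (nat_lit 0)))))) (T.h (T.h (T.h (P (nat_lit 146032963074621426709357920256)) (T.h (P (nat_lit 0)) (T.h (P (nat_lit 1156061246247929066291200)) (T.h (P (nat_lit 0)) (M (nat_lit 1049521667825401855)))))) (T.h (P (nat_lit 0)) (T.h (T.h (M (nat_lit 392707064808358482542591)) (T.h (P (nat_lit 0)) (M (nat_lit 201991493659361279)))) (T.h (P (nat_lit 0)) (M (nat_lit 239694345730588671)))))) (T.h (T.h (P (nat_lit 0)) (T.h (T.h (P (nat_lit 0)) (M (nat_lit 329954917730706522111))) (P (nat_lit 0)))) (T.h (T.h (T.h (M (nat_lit 67571660984610788999167)) (T.h (P (nat_lit 0)) (P (nat_lit 173085373524672512)))) (T.h (P (nat_lit 0)) (M (nat_lit 31580471776182271)))) (T.h (P (nat_lit 0)) (P (nat_lit 88359397427150848))))))), (P (nat_lit 0)), (T.h (T.h (T.h (P (nat_lit 20743555868700945240925390503936)) (T.h (P (nat_lit 0)) (T.h (M (nat_lit 14191767757941870574960639)) (T.h (P (nat_lit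 0)) (T.h (P (nat_lit 10808073746795986944)) (T.h (P (nat_lit 0)) (M (nat_lit 57073925797807)))))))) (T.h (P (nat_lit 0)) (T.h (T.h (M (nat_lit 126538475152262420242628607)) (T.h (P (nat_lit 0)) (T.h (P (nat_lit 217299382818360524800)) (T.h (P (nat_lit 0)) (P (nat_lit 955630288563504)))))) (T.h (P (nat_lit 0)) (T.h (T.h (P (nat_lit 257618270563300540416)) (T.h (P (nat_lit 0)) (P (nat_lit 348167733077024)))) (T.h (P (nat_lit 0)) (M (nat_lit 71435997734031)))))))) (T.h (T.h (P (nat_lit 0)) (T.h (T.h (P (nat_lit 0)) (T.h (P (nat_lit 132597205529526087450624)) (T.h (P (nat_lit 0)) (M (nat_lit 202785366568468479))))) (T.h (P (nat_lit 0)) (T.h (T.h (P (nat_lit 0)) (P (nat_lit 625557144947785728))) (P (nat_lit 0)))))) (T.h (T.h (T.h (P (nat_lit 52833143079341340567273472)) (T.h (P (nat_lit 0)) (T.h (M (nat_lit 183827353451553095679)) (T.h (P (nat_lit 0)) (M (nat_lit 222986468349919)))))) (T.h (P (nat_lit 0)) (T.h (T.h (M (nat_lit 6776842254796455935)) (T.h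 (P (nat_lit 0)) (M (nat_lit 678744366478943)))) (T.h (P (nat_lit 0)) (P (nat_lit 1276459735382992)))))) (T.h (T.h (P (nat_lit 0)) (T.h (T.h (P (nat_lit 0)) (M (nat_lit 330832510011703295))) (P (nat_lit 0)))) (T.h (T.h (T.h (M (nat_lit 45242550057263169535)) (T.h (P (nat_lit 0)) (M (nat_lit 160649772632287)))) (T.h (P (nat_lit 0)) (M (nat_lit 1879280720920079)))) (T.h (P (nat_lit 0)) (P (nat_lit 125938963766608)))))))), (T.h (T.h (T.h (P (nat_lit 0)) (T.h (P (nat_lit 57994180896958734397274587136)) (T.h (P (nat_lit 0)) (T.h (M (nat_lit 82052631822402672656383)) (T.h (P (nat_lit 0)) (P (nat_lit 18722625397096448))))))) (T.h (P (nat_lit 0)) (T.h (T.h (P (nat_lit 0)) (T.h (P (nat_lit 414021819013039906619392)) (T.h (P (nat_lit 0)) (M (nat_lit 278065717091827711))))) (T.h (P (nat_lit 0)) (T.h (T.h (P (nat_lit 0)) (P (nat_lit 1427481727700271104))) (P (nat_lit 0))))))) (T.h (T.h (P (nat_lit 0)) (T.h (T.h (M (nat_lit 55183755610216487687553023)) (T.h (P (nat_lit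 0)) (T.h (M (nat_lit 710011158853058559999)) (T.h (P (nat_lit 0)) (P (nat_lit 359069423341744)))))) (T.h (P (nat_lit 0)) (T.h (T.h (M (nat_lit 408267799929229934591)) (T.h (P (nat_lit 0)) (P (nat_lit 63051125709488)))) (T.h (P (nat_lit 0)) (M (nat_lit 288641118537471))))))) (T.h (T.h (T.h (P (nat_lit 0)) (T.h (P (nat_lit 138365192951853861568512)) (T.h (P (nat_lit 0)) (P (nat_lit 271140438034104320))))) (T.h (P (nat_lit 0)) (T.h (T.h (P (nat_lit 0)) (M (nat_lit 2163235364009197567))) (P (nat_lit 0))))) (T.h (T.h (P (nat_lit 0)) (T.h (T.h (M (nat_lit 456867531302379716607)) (T.h (P (nat_lit 0)) (P (nat_lit 155543897614848)))) (T.h (P (nat_lit 0)) (P (nat_lit 126251188707872))))) (T.h (T.h (T.h (P (nat_lit 0)) (P (nat_lit 356404639466291200))) (P (nat_lit 0))) (T.h (T.h (P (nat_lit 0)) (M (nat_lit 251209558520975))) (P (nat_lit 0)))))))), (T.h (T.h (T.h (P (nat_lit 8672144251072055142269421879296)) (T.h (P (nat_lit 0)) (T.h (P (nat_lit 52203338297337221887295488))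 (T.h (P (nat_lit 0)) (T.h (P (nat_lit 182219310675538214912)) (T.h (P (nat_lit 0)) (P (nat_lit 138181558684160)))))))) (T.h (P (nat_lit 0)) (T.h (T.h (M (nat_lit 98174644956404253603135487)) (T.h (P (nat_lit 0)) (T.h (M (nat_lit 494864817962816110591)) (T.h (P (nat_lit 0)) (P (nat_lit 1595243876387712)))))) (T.h (P (nat_lit 0)) (T.h (T.h (P (nat_lit 184313809258969825280)) (T.h (P (nat_lit 0)) (P (nat_lit 219326478655680)))) (T.h (P (nat_lit 0)) (P (nat_lit 170268051335168)))))))) (T.h (T.h (P (nat_lit 0)) (T.h (T.h (P (nat_lit 0)) (T.h (P (nat_lit 1827916960278311027605504)) (T.h (P (nat_lit 0)) (P (nat_lit 2261587329154351104))))) (T.h (P (nat_lit 0)) (T.h (T.h (P (nat_lit 0)) (P (nat_lit 1867445329870454784))) (P (nat_lit 0)))))) (T.h (T.h (T.h (P (nat_lit 282432436235834643670106112)) (T.h (P (nat_lit 0)) (T.h (P (nat_lit 319235676355883433984)) (T.h (P (nat_lit 0)) (M (nat_lit 38227661955583)))))) (T.h (P (nat_lit 0)) (T.h (T.h (P (nat_lit 253797208460602900480))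 (T.h (P (nat_lit 0)) (M (nat_lit 1067173656779327)))) (T.h (P (nat_lit 0)) (M (nat_lit 33754948139007)))))) (T.h (T.h (P (nat_lit 0)) (T.h (T.h (P (nat_lit 0)) (M (nat_lit 2133192283411972095))) (P (nat_lit 0)))) (T.h (T.h (T.h (M (nat_lit 647444136297196683263)) (T.h (P (nat_lit 0)) (P (nat_lit 96332119943040)))) (T.h (P (nat_lit 0)) (M (nat_lit 510290268200639)))) (T.h (P (nat_lit 0)) (P (nat_lit 331124111819904)))))))), (T.h (T.h (T.h (P (nat_lit 0)) (T.h (M (nat_lit 51498733683589352236464996351)) (T.h (P (nat_lit 0)) (T.h (P (nat_lit 225288650562591942246400)) (T.h (P (nat_lit 0)) (M (nat_lit 106478721017135103))))))) (T.h (P (nat_lit 0)) (T.h (T.h (P (nat_lit 0)) (T.h (M (nat_lit 121919307147249805426687)) (T.h (P (nat_lit 0)) (M (nat_lit 947020992432717823))))) (T.h (P (nat_lit 0)) (T.h (T.h (P (nat_lit 0)) (M (nat_lit 1612725140369457151))) (P (nat_lit 0))))))) (T.h (T.h (P (nat_lit 0)) (T.h (T.h (P (nat_lit 272424232745593113487081472)) (T.h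 (P (nat_lit 0)) (T.h (M (nat_lit 700055577696789331967)) (T.h (P (nat_lit 0)) (P (nat_lit 834357742763952)))))) (T.h (P (nat_lit 0)) (T.h (T.h (M (nat_lit 786378330991149187071)) (T.h (P (nat_lit 0)) (M (nat_lit 4341126166089503)))) (T.h (P (nat_lit 0)) (P (nat_lit 655659257804496))))))) (T.h (T.h (T.h (P (nat_lit 0)) (T.h (M (nat_lit 775160589488257492844543)) (T.h (P (nat_lit 0)) (P (nat_lit 682313104949608448))))) (T.h (P (nat_lit 0)) (T.h (T.h (P (nat_lit 0)) (P (nat_lit 2380572877393657856))) (P (nat_lit 0))))) (T.h (T.h (P (nat_lit 0)) (T.h (T.h (M (nat_lit 753278779481992986623)) (T.h (P (nat_lit 0)) (M (nat_lit 4816364778717183)))) (T.h (P (nat_lit 0)) (P (nat_lit 373288598706320))))) (T.h (T.h (T.h (P (nat_lit 0)) (M (nat_lit 671799880567799807))) (P (nat_lit 0))) (T.h (T.h (P (nat_lit 0)) (P (nat_lit 355868859043104))) (P (nat_lit 0)))))))), (T.h (T.h (T.h (P (nat_lit 9431356806008164362888463515648)) (T.h (P (nat_lit 0)) (T.h (P (nat_lit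 118941544028583319870373888)) (T.h (P (nat_lit 0)) (P (nat_lit 70264016489016197120)))))) (T.h (P (nat_lit 0)) (T.h (T.h (M (nat_lit 164393955999626290582781951)) (T.h (P (nat_lit 0)) (P (nat_lit 1310144403147484823552)))) (T.h (P (nat_lit 0)) (P (nat_lit 335746420760794628096)))))) (T.h (T.h (P (nat_lit 0)) (T.h (T.h (P (nat_lit 0)) (T.h (M (nat_lit 1978089946966143371575295)) (T.h (P (nat_lit 0)) (M (nat_lit 603771901767450623))))) (T.h (P (nat_lit 0)) (T.h (T.h (P (nat_lit 0)) (P (nat_lit 1897252586358046720))) (P (nat_lit 0)))))) (T.h (T.h (T.h (M (nat_lit 68311294616328140016844799)) (T.h (P (nat_lit 0)) (M (nat_lit 48279662455234232319)))) (T.h (P (nat_lit 0)) (M (nat_lit 354375818373150801919)))) (T.h (T.h (P (nat_lit 0)) (T.h (T.h (P (nat_lit 0)) (P (nat_lit 2720794459306983424))) (P (nat_lit 0)))) (P (nat_lit 288451859077039915008))))))]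
def lP11_32 : List (T ℤ) := [(T.h (T.h (P (nat_lit 0)) (T.h (T.h (P (nat_lit 0)) (T.h (M (nat_lit 71440463722844327224803327)) (T.h (P (nat_lit 0)) (T.h (P (nat_lit 21808900994653749248)) (T.h (P (nat_lit 0)) (P (nat_lit 40951311509944))))))) (T.h (P (nat_lit 0)) (T.h (T.h (P (nat_lit 0)) (T.h (M (nat_lit 80031877047164862463)) (T.h (P (nat_lit 0)) (P (nat_lit 389423140897216))))) (T.h (P (nat_lit 0)) (T.h (T.h (P (nat_lit 0)) (M (nat_lit 109931233387399))) (P (nat_lit 0)))))))) (T.h (T.h (T.h (P (nat_lit 11226552536872670058376069120)) (T.h (P (nat_lit 0)) (T.h (M (nat_lit 24366320025064756477951)) (T.h (P (nat_lit 0)) (M (nat_lit 3433990289195007)))))) (T.h (P (nat_lit 0)) (T.h (T.h (M (nat_lit 70320940951416229330943)) (T.h (P (nat_lit 0)) (P (nat_lit 258372745212231680)))) (T.h (P (nat_lit 0)) (P (nat_lit 784923959251894272)))))) (T.h (T.h (P (nat_lit 0)) (T.h (T.h (P (nat_lit 0)) (T.h (M (nat_lit 84152052307019694079)) (T.h (P (nat_lit 0)) (P (nat_lit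 290397087801984))))) (T.h (P (nat_lit 0)) (T.h (T.h (P (nat_lit 0)) (M (nat_lit 521677075544719))) (P (nat_lit 0)))))) (T.h (T.h (T.h (P (nat_lit 1558477172255024480256)) (T.h (P (nat_lit 0)) (P (nat_lit 27845166307540992)))) (T.h (P (nat_lit 0)) (P (nat_lit 237438564384833536)))) (T.h (T.h (P (nat_lit 0)) (T.h (T.h (P (nat_lit 0)) (P (nat_lit 268620149612704))) (P (nat_lit 0)))) (P (nat_lit 2267793512923136))))))), (T.h (T.h (P (nat_lit 0)) (T.h (T.h (M (nat_lit 10402984587407102940117204991)) (T.h (P (nat_lit 0)) (T.h (M (nat_lit 848513532839329791999)) (T.h (P (nat_lit 0)) (M (nat_lit 126801206378053631)))))) (T.h (P (nat_lit 0)) (T.h (T.h (M (nat_lit 11263133419063654481919)) (T.h (P (nat_lit 0)) (M (nat_lit 201426014826168319)))) (T.h (P (nat_lit 0)) (M (nat_lit 268098932714143743))))))) (T.h (T.h (T.h (P (nat_lit 0)) (T.h (M (nat_lit 58203737701095949077577727)) (T.h (P (nat_lit 0)) (T.h (P (nat_lit 4847334080368345088)) (T.h (P (nat_lit 0)) (M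 (nat_lit 31387440768655))))))) (T.h (P (nat_lit 0)) (T.h (T.h (P (nat_lit 0)) (T.h (P (nat_lit 565831284812098306048)) (T.h (P (nat_lit 0)) (P (nat_lit 727644225495696))))) (T.h (P (nat_lit 0)) (T.h (T.h (P (nat_lit 0)) (M (nat_lit 195979018621535))) (P (nat_lit 0))))))) (T.h (T.h (P (nat_lit 0)) (T.h (T.h (P (nat_lit 21151223722634555424768)) (T.h (P (nat_lit 0)) (M (nat_lit 56093100908691455)))) (T.h (P (nat_lit 0)) (M (nat_lit 376821371375255551))))) (T.h (T.h (T.h (P (nat_lit 0)) (T.h (M (nat_lit 133217216746544431103)) (T.h (P (nat_lit 0)) (M (nat_lit 54556795947023))))) (T.h (P (nat_lit 0)) (T.h (T.h (P (nat_lit 0)) (P (nat_lit 159180462692528))) (P (nat_lit 0))))) (T.h (T.h (P (nat_lit 0)) (P (nat_lit 763863378704056320))) (T.h (T.h (T.h (P (nat_lit 0)) (P (nat_lit 11136417168416))) (P (nat_lit 0))) (P (nat_lit 0)))))))), (T.h (T.h (P (nat_lit 0)) (T.h (T.h (P (nat_lit 0)) (T.h (P (nat_lit 124450535264434341185323008)) (T.h (P (nat_lit 0)) (T.h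 (M (nat_lit 1587920065444525899775)) (T.h (P (nat_lit 0)) (M (nat_lit 156375227383679))))))) (T.h (P (nat_lit 0)) (T.h (T.h (P (nat_lit 0)) (T.h (P (nat_lit 1322793846230740893696)) (T.h (P (nat_lit 0)) (M (nat_lit 53232406546943))))) (T.h (P (nat_lit 0)) (T.h (T.h (P (nat_lit 0)) (M (nat_lit 410341142962623))) (P (nat_lit 0)))))))) (T.h (T.h (T.h (M (nat_lit 202341610778254602853670715391)) (T.h (P (nat_lit 0)) (T.h (P (nat_lit 358977257559124955103232)) (T.h (P (nat_lit 0)) (P (nat_lit 164258997652750336)))))) (T.h (P (nat_lit 0)) (T.h (T.h (M (nat_lit 1597998801319966791434239)) (T.h (P (nat_lit 0)) (P (nat_lit 288359306200940544)))) (T.h (P (nat_lit 0)) (M (nat_lit 3893759105025802239)))))) (T.h (T.h (P (nat_lit 0)) (T.h (T.h (P (nat_lit 0)) (T.h (P (nat_lit 561249849141891170304)) (T.h (P (nat_lit 0)) (M (nat_lit 208364854628159))))) (T.h (P (nat_lit 0)) (T.h (T.h (P (nat_lit 0)) (M (nat_lit 2067042681160127))) (P (nat_lit 0)))))) (T.h (T.h (T.h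 (P (nat_lit 161510812024141449789440)) (T.h (P (nat_lit 0)) (M (nat_lit 53510967238000639)))) (T.h (P (nat_lit 0)) (M (nat_lit 1110157451269832703)))) (T.h (T.h (P (nat_lit 0)) (T.h (T.h (P (nat_lit 0)) (P (nat_lit 411036659739456))) (P (nat_lit 0)))) (M (nat_lit 268069805626327039))))))), (T.h (T.h (P (nat_lit 0)) (T.h (T.h (M (nat_lit 72448995624061239553698037759)) (T.h (P (nat_lit 0)) (T.h (M (nat_lit 466222176649486289338367)) (T.h (P (nat_lit 0)) (M (nat_lit 1387168308914126847)))))) (T.h (P (nat_lit 0)) (T.h (T.h (P (nat_lit 69246146877196261654528)) (T.h (P (nat_lit 0)) (P (nat_lit 470650442438574080)))) (T.h (P (nat_lit 0)) (P (nat_lit 361348267206017024))))))) (T.h (T.h (T.h (P (nat_lit 0)) (T.h (P (nat_lit 444985139041590106617020416)) (T.h (P (nat_lit 0)) (T.h (M (nat_lit 864773674999394336767)) (T.h (P (nat_lit 0)) (P (nat_lit 700214402795952))))))) (T.h (P (nat_lit 0)) (T.h (T.h (P (nat_lit 0)) (T.h (M (nat_lit 668698676219680391167))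 (T.h (P (nat_lit 0)) (M (nat_lit 3828721340270815))))) (T.h (P (nat_lit 0)) (T.h (T.h (P (nat_lit 0)) (P (nat_lit 2660580647972544))) (P (nat_lit 0))))))) (T.h (T.h (P (nat_lit 0)) (T.h (T.h (M (nat_lit 197261400509007576170495)) (T.h (P (nat_lit 0)) (P (nat_lit 1504122155887214592)))) (T.h (P (nat_lit 0)) (P (nat_lit 1047532029243785216))))) (T.h (T.h (T.h (P (nat_lit 0)) (T.h (M (nat_lit 779446746063885565951)) (T.h (P (nat_lit 0)) (P (nat_lit 474431785971440))))) (T.h (P (nat_lit 0)) (T.h (T.h (P (nat_lit 0)) (M (nat_lit 4059930768341535))) (P (nat_lit 0))))) (T.h (T.h (P (nat_lit 0)) (M (nat_lit 420794558438981631))) (T.h (T.h (T.h (P (nat_lit 0)) (P (nat_lit 638079114501312))) (P (nat_lit 0))) (P (nat_lit 0)))))))), (T.h (T.h (P (nat_lit 0)) (T.h (T.h (P (nat_lit 0)) (T.h (P (nat_lit 325586501371689684210548736)) (T.h (P (nat_lit 0)) (P (nat_lit 570095336763246510080))))) (T.h (P (nat_lit 0)) (T.h (T.h (P (nat_lit 0)) (P (nat_lit 725574408706616983552)))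 (P (nat_lit 0)))))) (T.h (T.h (T.h (M (nat_lit 377033689143862434681109610495)) (T.h (P (nat_lit 0)) (T.h (M (nat_lit 350492722377713201971199)) (T.h (P (nat_lit 0)) (M (nat_lit 868595833875202047)))))) (T.h (P (nat_lit 0)) (T.h (T.h (M (nat_lit 151626256699107238215679)) (T.h (P (nat_lit 0)) (P (nat_lit 5896000038046662656)))) (T.h (P (nat_lit 0)) (M (nat_lit 972199071289606143)))))) (T.h (T.h (P (nat_lit 0)) (T.h (T.h (P (nat_lit 0)) (M (nat_lit 2568905051824067706879))) (P (nat_lit 0)))) (T.h (T.h (T.h (P (nat_lit 41832751533718155296768)) (T.h (P (nat_lit 0)) (P (nat_lit 28629531151597568)))) (T.h (P (nat_lit 0)) (M (nat_lit 54969389306445823)))) (T.h (P (nat_lit 0)) (M (nat_lit 197302190041595903))))))), (T.h (T.h (T.h (P (nat_lit 0)) (T.h (P (nat_lit 1322676371061387946650238976)) (T.h (P (nat_lit 0)) (T.h (P (nat_lit 3314644934844999532544)) (T.h (P (nat_lit 0)) (P (nat_lit 12179242722541568))))))) (T.h (P (nat_lit 0)) (T.h (T.h (P (nat_lit 0))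 (T.h (M (nat_lit 66371634848809843949567)) (T.h (P (nat_lit 0)) (M (nat_lit 77220303000305663))))) (T.h (P (nat_lit 0)) (T.h (T.h (P (nat_lit 0)) (M (nat_lit 354873047434739711))) (P (nat_lit 0))))))) (T.h (T.h (P (nat_lit 0)) (T.h (T.h (P (nat_lit 66779422157121835614863360)) (T.h (P (nat_lit 0)) (T.h (M (nat_lit 96521423339802066943)) (T.h (P (nat_lit 0)) (P (nat_lit 19366294304256)))))) (T.h (P (nat_lit 0)) (T.h (T.h (M (nat_lit 667163874488762761215)) (T.h (P (nat_lit 0)) (M (nat_lit 117889912007311)))) (T.h (P (nat_lit 0)) (P (nat_lit 132254739178384))))))) (T.h (T.h (T.h (P (nat_lit 0)) (T.h (P (nat_lit 2337908207826891702272)) (T.h (P (nat_lit 0)) (P (nat_lit 27588438918021120))))) (T.h (P (nat_lit 0)) (T.h (T.h (P (nat_lit 0)) (M (nat_lit 155104395579326463))) (P (nat_lit 0))))) (T.h (T.h (P (nat_lit 0)) (T.h (T.h (P (nat_lit 44759794926007353344)) (T.h (P (nat_lit 0)) (P (nat_lit 14097742350432)))) (T.h (P (nat_lit 0)) (P (nat_lit 316431649808864)))))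 (T.h (T.h (T.h (P (nat_lit 0)) (P (nat_lit 8014772849033216))) (P (nat_lit 0))) (T.h (T.h (P (nat_lit 0)) (M (nat_lit 13564579893471))) (P (nat_lit 0)))))))), (T.h (T.h (T.h (P (nat_lit 5033591476955802500417638629376)) (T.h (P (nat_lit 0)) (T.h (M (nat_lit 1685068590728999644168191)) (T.h (P (nat_lit 0)) (T.h (P (nat_lit 53834262178789588992)) (T.h (P (nat_lit 0)) (M (nat_lit 17591876039487)))))))) (T.h (P (nat_lit 0)) (T.h (T.h (P (nat_lit 98224269161431528468643840)) (T.h (P (nat_lit 0)) (T.h (P (nat_lit 131465900530277023744)) (T.h (P (nat_lit 0)) (M (nat_lit 379449331744255)))))) (T.h (P (nat_lit 0)) (T.h (T.h (M (nat_lit 2030541996830729699327)) (T.h (P (nat_lit 0)) (P (nat_lit 34827456796160)))) (T.h (P (nat_lit 0)) (M (nat_lit 404758465587071)))))))) (T.h (T.h (P (nat_lit 0)) (T.h (T.h (P (nat_lit 0)) (T.h (M (nat_lit 285019034605349217763327)) (T.h (P (nat_lit 0)) (P (nat_lit 341444793480249344))))) (T.h (P (nat_lit 0)) (T.h (T.h (P (nat_lit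 0)) (M (nat_lit 1621407300997873663))) (P (nat_lit 0)))))) (T.h (T.h (T.h (M (nat_lit 180605214646128135809007615)) (T.h (P (nat_lit 0)) (T.h (P (nat_lit 178182192678395969536)) (T.h (P (nat_lit 0)) (P (nat_lit 90548760350016)))))) (T.h (P (nat_lit 0)) (T.h (T.h (P (nat_lit 59625221583861186560)) (T.h (P (nat_lit 0)) (P (nat_lit 475213411522112)))) (T.h (P (nat_lit 0)) (P (nat_lit 287908883590848)))))) (T.h (T.h (P (nat_lit 0)) (T.h (T.h (P (nat_lit 0)) (P (nat_lit 372148674531491840))) (P (nat_lit 0)))) (T.h (T.h (T.h (P (nat_lit 233930281628603514880)) (T.h (P (nat_lit 0)) (M (nat_lit 44011021548607)))) (T.h (P (nat_lit 0)) (P (nat_lit 1726084812844096)))) (T.h (P (nat_lit 0)) (M (nat_lit 210534429175231)))))))), (T.h (T.h (T.h (P (nat_lit 0)) (T.h (P (nat_lit 37733976243759071920511778816)) (T.h (P (nat_lit 0)) (T.h (P (nat_lit 95309715969232930340864)) (T.h (P (nat_lit 0)) (M (nat_lit 12945520253370367))))))) (T.h (P (nat_lit 0)) (T.h (T.h (P (nat_lit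 0)) (T.h (M (nat_lit 105928191397868418891775)) (T.h (P (nat_lit 0)) (M (nat_lit 430929109762064383))))) (T.h (P (nat_lit 0)) (T.h (T.h (P (nat_lit 0)) (M (nat_lit 1943205583550349311))) (P (nat_lit 0))))))) (T.h (T.h (P (nat_lit 0)) (T.h (T.h (M (nat_lit 91940517910321038251524095)) (T.h (P (nat_lit 0)) (T.h (P (nat_lit 540657655911427342336)) (T.h (P (nat_lit 0)) (M (nat_lit 789454083090111)))))) (T.h (P (nat_lit 0)) (T.h (T.h (M (nat_lit 957154193937096769535)) (T.h (P (nat_lit 0)) (P (nat_lit 147268056746448)))) (T.h (P (nat_lit 0)) (P (nat_lit 670685297729744))))))) (T.h (T.h (T.h (P (nat_lit 0)) (T.h (P (nat_lit 17933390700028692004864)) (T.h (P (nat_lit 0)) (P (nat_lit 174450755079372800))))) (T.h (P (nat_lit 0)) (T.h (T.h (P (nat_lit 0)) (P (nat_lit 637723726440628224))) (P (nat_lit 0))))) (T.h (T.h (P (nat_lit 0)) (T.h (T.h (P (nat_lit 480448913009536925696)) (T.h (P (nat_lit 0)) (P (nat_lit 237373323740080)))) (T.h (P (nat_lit 0)) (M (nat_lit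 18296925976383))))) (T.h (T.h (T.h (P (nat_lit 0)) (M (nat_lit 27484552792653823))) (P (nat_lit 0))) (T.h (T.h (P (nat_lit 0)) (M (nat_lit 177022880722159))) (P (nat_lit 0))))))))]
def lP11_33 : List (T ℤ) := [(T.h (T.h (T.h (M (nat_lit 27090461416385597190112410599423)) (T.h (P (nat_lit 0)) (T.h (M (nat_lit 19599926762324988130230271)) (T.h (P (nat_lit 0)) (P (nat_lit 201899917648039247872)))))) (T.h (P (nat_lit 0)) (T.h (T.h (P (nat_lit 162031074772779359918882816)) (T.h (P (nat_lit 0)) (P (nat_lit 360413849700880351232)))) (T.h (P (nat_lit 0)) (P (nat_lit 99693049936091283456)))))) (T.h (T.h (P (nat_lit 0)) (T.h (T.h (P (nat_lit 0)) (T.h (M (nat_lit 1129105501571561629417471)) (T.h (P (nat_lit 0)) (P (nat_lit 1960912070372753408))))) (T.h (P (nat_lit 0)) (T.h (T.h (P (nat_lit 0)) (M (nat_lit 1898189059348430847))) (P (nat_lit 0)))))) (T.h (T.h (T.h (M (nat_lit 110336858536922389780889599)) (T.h (P (nat_lit 0)) (M (nat_lit 227475733942231891967))))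 (T.h (P (nat_lit 0)) (P (nat_lit 92651215796660338688)))) (T.h (T.h (P (nat_lit 0)) (T.h (T.h (P (nat_lit 0)) (P (nat_lit 2085774707732840448))) (P (nat_lit 0)))) (P (nat_lit 237720383341838991360)))))), (T.h (T.h (P (nat_lit 0)) (T.h (T.h (P (nat_lit 0)) (T.h (M (nat_lit 107616031060821464577998847)) (T.h (P (nat_lit 0)) (T.h (M (nat_lit 52097767407718760447)) (T.h (P (nat_lit 0)) (M (nat_lit 4978840797247))))))) (T.h (P (nat_lit 0)) (T.h (T.h (P (nat_lit 0)) (T.h (M (nat_lit 307788482951491092479)) (T.h (P (nat_lit 0)) (M (nat_lit 110500936895807))))) (T.h (P (nat_lit 0)) (T.h (T.h (P (nat_lit 0)) (M (nat_lit 427569879162559))) (P (nat_lit 0)))))))) (T.h (T.h (T.h (M (nat_lit 30743316187595668895993692159)) (T.h (P (nat_lit 0)) (T.h (P (nat_lit 30159946862833371709440)) (T.h (P (nat_lit 0)) (P (nat_lit 38451470573731840)))))) (T.h (P (nat_lit 0)) (T.h (T.h (P (nat_lit 130065404514620449751040)) (T.h (P (nat_lit 0)) (M (nat_lit 261196326978060287))))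 (T.h (P (nat_lit 0)) (P (nat_lit 425943098470891520)))))) (T.h (T.h (P (nat_lit 0)) (T.h (T.h (P (nat_lit 0)) (T.h (M (nat_lit 134759294785770487807)) (T.h (P (nat_lit 0)) (M (nat_lit 138236329626367))))) (T.h (P (nat_lit 0)) (T.h (T.h (P (nat_lit 0)) (P (nat_lit 272970671626752))) (P (nat_lit 0)))))) (T.h (T.h (T.h (M (nat_lit 31990051572355434545151)) (T.h (P (nat_lit 0)) (M (nat_lit 63879557127372799)))) (T.h (P (nat_lit 0)) (M (nat_lit 46881492679327743)))) (T.h (T.h (P (nat_lit 0)) (T.h (T.h (P (nat_lit 0)) (M (nat_lit 104692039472959))) (P (nat_lit 0)))) (P (nat_lit 107647830557327360))))))), (T.h (T.h (P (nat_lit 0)) (T.h (T.h (P (nat_lit 35363525717813127072268156928)) (T.h (P (nat_lit 0)) (T.h (P (nat_lit 218824825850870034857984)) (T.h (P (nat_lit 0)) (P (nat_lit 228729104688889856)))))) (T.h (P (nat_lit 0)) (T.h (T.h (M (nat_lit 6751133298556577775615)) (T.h (P (nat_lit 0)) (P (nat_lit 183021395936935936)))) (T.h (P (nat_lit 0)) (P (nat_lit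 1150537368534614016))))))) (T.h (T.h (T.h (P (nat_lit 0)) (T.h (P (nat_lit 103283711528334789982552064)) (T.h (P (nat_lit 0)) (T.h (M (nat_lit 1352985105907318783)) (T.h (P (nat_lit 0)) (P (nat_lit 57747740157536))))))) (T.h (P (nat_lit 0)) (T.h (T.h (P (nat_lit 0)) (T.h (M (nat_lit 265560519786861953023)) (T.h (P (nat_lit 0)) (M (nat_lit 101729801958399))))) (T.h (P (nat_lit 0)) (T.h (T.h (P (nat_lit 0)) (P (nat_lit 1711947762409280))) (P (nat_lit 0))))))) (T.h (T.h (P (nat_lit 0)) (T.h (T.h (M (nat_lit 50135950289608678309887)) (T.h (P (nat_lit 0)) (M (nat_lit 260690775951818751)))) (T.h (P (nat_lit 0)) (M (nat_lit 393860190868275199))))) (T.h (T.h (T.h (P (nat_lit 0)) (T.h (M (nat_lit 86679914041416089599)) (T.h (P (nat_lit 0)) (M (nat_lit 23689960517871))))) (T.h (P (nat_lit 0)) (T.h (T.h (P (nat_lit 0)) (P (nat_lit 129479626112320))) (P (nat_lit 0))))) (T.h (T.h (P (nat_lit 0)) (M (nat_lit 737644645786255359))) (T.h (T.h (T.h (P (nat_lit 0)) (P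 (nat_lit 119883028452176))) (P (nat_lit 0))) (P (nat_lit 0)))))))), (T.h (T.h (P (nat_lit 0)) (T.h (T.h (P (nat_lit 0)) (T.h (P (nat_lit 12210586735108523420549120)) (T.h (P (nat_lit 0)) (P (nat_lit 311851918521800851456))))) (T.h (P (nat_lit 0)) (T.h (T.h (P (nat_lit 0)) (P (nat_lit 1989766113162893983744))) (P (nat_lit 0)))))) (T.h (T.h (T.h (P (nat_lit 129916050405150065941358313472)) (T.h (P (nat_lit 0)) (T.h (M (nat_lit 259154547832480589676543)) (T.h (P (nat_lit 0)) (P (nat_lit 69747920851107840)))))) (T.h (P (nat_lit 0)) (T.h (T.h (P (nat_lit 838462254728880324608000)) (T.h (P (nat_lit 0)) (M (nat_lit 642023175975698431)))) (T.h (P (nat_lit 0)) (M (nat_lit 977882438642728959)))))) (T.h (T.h (P (nat_lit 0)) (T.h (T.h (P (nat_lit 0)) (P (nat_lit 416787428159103434752))) (P (nat_lit 0)))) (T.h (T.h (T.h (M (nat_lit 6714838454358308290559)) (T.h (P (nat_lit 0)) (M (nat_lit 80552271983345663)))) (T.h (P (nat_lit 0)) (P (nat_lit 113612820420362240))))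 (T.h (P (nat_lit 0)) (P (nat_lit 60423203108683776))))))), (T.h (T.h (T.h (P (nat_lit 0)) (T.h (P (nat_lit 16228494589403012116063977472)) (T.h (P (nat_lit 0)) (T.h (M (nat_lit 20067389524284153004031)) (T.h (P (nat_lit 0)) (M (nat_lit 9464545382219775))))))) (T.h (P (nat_lit 0)) (T.h (T.h (P (nat_lit 0)) (T.h (M (nat_lit 128039654333054256676863)) (T.h (P (nat_lit 0)) (P (nat_lit 157204371762266112))))) (T.h (P (nat_lit 0)) (T.h (T.h (P (nat_lit 0)) (P (nat_lit 807140873094496256))) (P (nat_lit 0))))))) (T.h (T.h (P (nat_lit 0)) (T.h (T.h (M (nat_lit 60534834906428901473386495)) (T.h (P (nat_lit 0)) (T.h (P (nat_lit 127648728308189757440)) (T.h (P (nat_lit 0)) (M (nat_lit 9207850275007)))))) (T.h (P (nat_lit 0)) (T.h (T.h (P (nat_lit 892239303793140826112)) (T.h (P (nat_lit 0)) (M (nat_lit 225505828498543)))) (T.h (P (nat_lit 0)) (M (nat_lit 632653247010751))))))) (T.h (T.h (T.h (P (nat_lit 0)) (T.h (M (nat_lit 50202398739371158142975)) (T.h (P (nat_lit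 0)) (P (nat_lit 155408564710883328))))) (T.h (P (nat_lit 0)) (T.h (T.h (P (nat_lit 0)) (M (nat_lit 378285141599158271))) (P (nat_lit 0))))) (T.h (T.h (P (nat_lit 0)) (T.h (T.h (P (nat_lit 90240662638237319168)) (T.h (P (nat_lit 0)) (M (nat_lit 153712426988735)))) (T.h (P (nat_lit 0)) (M (nat_lit 39959945820255))))) (T.h (T.h (T.h (P (nat_lit 0)) (P (nat_lit 11489204882522112))) (P (nat_lit 0))) (T.h (T.h (P (nat_lit 0)) (P (nat_lit 3181077252848))) (P (nat_lit 0)))))))), (T.h (T.h (T.h (M (nat_lit 9929422645557309655018763190271)) (T.h (P (nat_lit 0)) (T.h (M (nat_lit 9006556154225002375282687)) (T.h (P (nat_lit 0)) (P (nat_lit 1266676104530231296)))))) (T.h (P (nat_lit 0)) (T.h (T.h (M (nat_lit 25276643066355775078137855)) (T.h (P (nat_lit 0)) (M (nat_lit 61164732654412627967)))) (T.h (P (nat_lit 0)) (P (nat_lit 110624555657085321216)))))) (T.h (T.h (P (nat_lit 0)) (T.h (T.h (P (nat_lit 0)) (T.h (P (nat_lit 105439491063623953940480)) (T.h (P (nat_lit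 0)) (P (nat_lit 66278057227649024))))) (T.h (P (nat_lit 0)) (T.h (T.h (P (nat_lit 0)) (M (nat_lit 1299886296256544767))) (P (nat_lit 0)))))) (T.h (T.h (T.h (P (nat_lit 81730375620372399275376640)) (T.h (P (nat_lit 0)) (M (nat_lit 17021114003566362623)))) (T.h (P (nat_lit 0)) (P (nat_lit 206597901249807384576)))) (T.h (T.h (P (nat_lit 0)) (T.h (T.h (P (nat_lit 0)) (M (nat_lit 58584580132438015))) (P (nat_lit 0)))) (M (nat_lit 34553789589269512191)))))), (T.h (T.h (P (nat_lit 0)) (T.h (T.h (P (nat_lit 0)) (T.h (P (nat_lit 59794892129816641328381952)) (T.h (P (nat_lit 0)) (M (nat_lit 20180868879544745983))))) (T.h (P (nat_lit 0)) (T.h (T.h (P (nat_lit 0)) (M (nat_lit 203595693970520276991))) (P (nat_lit 0)))))) (T.h (T.h (T.h (P (nat_lit 5630661941955866752112918528)) (T.h (P (nat_lit 0)) (T.h (M (nat_lit 15547998876666915979263)) (T.h (P (nat_lit 0)) (P (nat_lit 17195555439378432)))))) (T.h (P (nat_lit 0)) (T.h (T.h (M (nat_lit 260320810832069591564287))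 (T.h (P (nat_lit 0)) (P (nat_lit 105746125946388480)))) (T.h (P (nat_lit 0)) (P (nat_lit 580734419328237568)))))) (T.h (T.h (P (nat_lit 0)) (T.h (T.h (P (nat_lit 0)) (P (nat_lit 7209265680472866816))) (P (nat_lit 0)))) (T.h (T.h (T.h (M (nat_lit 10225169493974520430591)) (T.h (P (nat_lit 0)) (P (nat_lit 62218137313214464)))) (T.h (P (nat_lit 0)) (M (nat_lit 83449253409652735)))) (T.h (P (nat_lit 0)) (M (nat_lit 3193177466568703))))))), (P (nat_lit 0))]
def lP11_34 : List (T ℤ) := [(P (nat_lit 0)), (T.h (T.h (T.h (P (nat_lit 0)) (T.h (M (nat_lit 12684840511315129229494976511)) (T.h (P (nat_lit 0)) (T.h (M (nat_lit 53016593064264569192447)) (T.h (P (nat_lit 0)) (P (nat_lit 2782105205997568))))))) (T.h (P (nat_lit 0)) (T.h (T.h (P (nat_lit 0)) (T.h (M (nat_lit 7879741752788425637887)) (T.h (P (nat_lit 0)) (M (nat_lit 7310596866047999))))) (T.h (P (nat_lit 0)) (T.h (T.h (P (nat_lit 0)) (P (nat_lit 9953376213958656))) (P (nat_lit 0))))))) (T.h (T.h (P (nat_lit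 0)) (T.h (T.h (P (nat_lit 1387203145980497050468352)) (T.h (P (nat_lit 0)) (T.h (P (nat_lit 7509937226516529152)) (T.h (P (nat_lit 0)) (M (nat_lit 18001481031807)))))) (T.h (P (nat_lit 0)) (T.h (T.h (M (nat_lit 3278463469824770047)) (T.h (P (nat_lit 0)) (M (nat_lit 24712533350719)))) (T.h (P (nat_lit 0)) (P (nat_lit 15368633917056))))))) (T.h (T.h (T.h (P (nat_lit 0)) (T.h (P (nat_lit 4077642440654830174208)) (T.h (P (nat_lit 0)) (P (nat_lit 42281672534786048))))) (T.h (P (nat_lit 0)) (T.h (T.h (P (nat_lit 0)) (P (nat_lit 3910183346012160))) (P (nat_lit 0))))) (T.h (T.h (P (nat_lit 0)) (T.h (T.h (P (nat_lit 5129996790287826944)) (T.h (P (nat_lit 0)) (P (nat_lit 80491955580040)))) (T.h (P (nat_lit 0)) (P (nat_lit 5615599430704))))) (T.h (T.h (T.h (P (nat_lit 0)) (M (nat_lit 4290026769317887))) (P (nat_lit 0))) (T.h (T.h (P (nat_lit 0)) (M (nat_lit 5667384178967))) (P (nat_lit 0)))))))), (T.h (T.h (T.h (P (nat_lit 15172213786557349686731121623040)) (T.h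 (P (nat_lit 0)) (T.h (P (nat_lit 21374983709252717796917248)) (T.h (P (nat_lit 0)) (T.h (M (nat_lit 47365347442010619903)) (T.h (P (nat_lit 0)) (P (nat_lit 63359498543120)))))))) (T.h (P (nat_lit 0)) (T.h (T.h (M (nat_lit 1210949200232913911676927)) (T.h (P (nat_lit 0)) (T.h (P (nat_lit 104816937201435672576)) (T.h (P (nat_lit 0)) (P (nat_lit 65805890694080)))))) (T.h (P (nat_lit 0)) (T.h (T.h (M (nat_lit 1640313288946352127)) (T.h (P (nat_lit 0)) (M (nat_lit 27352561037247)))) (T.h (P (nat_lit 0)) (M (nat_lit 2258787755471)))))))) (T.h (T.h (P (nat_lit 0)) (T.h (T.h (P (nat_lit 0)) (T.h (P (nat_lit 2070260029915047919616)) (T.h (P (nat_lit 0)) (P (nat_lit 184625113980796928))))) (T.h (P (nat_lit 0)) (T.h (T.h (P (nat_lit 0)) (P (nat_lit 71083122527076352))) (P (nat_lit 0)))))) (T.h (T.h (T.h (M (nat_lit 18264153611699954183569407)) (T.h (P (nat_lit 0)) (T.h (M (nat_lit 32579711267497836543)) (T.h (P (nat_lit 0)) (P (nat_lit 439341944415168)))))) (T.h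 (P (nat_lit 0)) (T.h (T.h (M (nat_lit 1443524170846568447)) (T.h (P (nat_lit 0)) (M (nat_lit 2428238407215)))) (T.h (P (nat_lit 0)) (P (nat_lit 7778266412928)))))) (T.h (T.h (P (nat_lit 0)) (T.h (T.h (P (nat_lit 0)) (M (nat_lit 56295723824119807))) (P (nat_lit 0)))) (T.h (T.h (T.h (M (nat_lit 8776527609941983231)) (T.h (P (nat_lit 0)) (M (nat_lit 25450372979775)))) (T.h (P (nat_lit 0)) (P (nat_lit 7834943220656)))) (T.h (P (nat_lit 0)) (P (nat_lit 7181325551792)))))))), (T.h (T.h (T.h (P (nat_lit 0)) (T.h (P (nat_lit 556240270776678431303139328)) (T.h (P (nat_lit 0)) (T.h (M (nat_lit 106146170585502539841535)) (T.h (P (nat_lit 0)) (P (nat_lit 294432181340930048))))))) (T.h (P (nat_lit 0)) (T.h (T.h (P (nat_lit 0)) (T.h (M (nat_lit 29407020964897829683199)) (T.h (P (nat_lit 0)) (P (nat_lit 8952162460336128))))) (T.h (P (nat_lit 0)) (T.h (T.h (P (nat_lit 0)) (M (nat_lit 37480698153926655))) (P (nat_lit 0))))))) (T.h (T.h (P (nat_lit 0)) (T.h (T.h (M (nat_lit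 33674519128823394065186815)) (T.h (P (nat_lit 0)) (T.h (P (nat_lit 56544454345603678208)) (T.h (P (nat_lit 0)) (M (nat_lit 46655458843455)))))) (T.h (P (nat_lit 0)) (T.h (T.h (P (nat_lit 19058927348914061312)) (T.h (P (nat_lit 0)) (P (nat_lit 86144119924352)))) (T.h (P (nat_lit 0)) (M (nat_lit 13089198389183))))))) (T.h (T.h (T.h (P (nat_lit 0)) (T.h (M (nat_lit 22709465110943195201535)) (T.h (P (nat_lit 0)) (P (nat_lit 97128441095356416))))) (T.h (P (nat_lit 0)) (T.h (T.h (P (nat_lit 0)) (M (nat_lit 23264011617468415))) (P (nat_lit 0))))) (T.h (T.h (P (nat_lit 0)) (T.h (T.h (M (nat_lit 1924344881111629823)) (T.h (P (nat_lit 0)) (P (nat_lit 82499058864512)))) (T.h (P (nat_lit 0)) (M (nat_lit 52855227214911))))) (T.h (T.h (T.h (P (nat_lit 0)) (M (nat_lit 81212293442699263))) (P (nat_lit 0))) (T.h (T.h (P (nat_lit 0)) (M (nat_lit 26922678205119))) (P (nat_lit 0)))))))), (T.h (T.h (T.h (P (nat_lit 1125191178323626060599525376000)) (T.h (P (nat_lit 0))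 (T.h (M (nat_lit 46278492287481778855215103)) (T.h (P (nat_lit 0)) (T.h (M (nat_lit 156129275264035192831)) (T.h (P (nat_lit 0)) (P (nat_lit 130481994932784)))))))) (T.h (P (nat_lit 0)) (T.h (T.h (P (nat_lit 5767003101391923837927424)) (T.h (P (nat_lit 0)) (T.h (M (nat_lit 217516683191390306303)) (T.h (P (nat_lit 0)) (P (nat_lit 33231154151888)))))) (T.h (P (nat_lit 0)) (T.h (T.h (P (nat_lit 2169328327335084032)) (T.h (P (nat_lit 0)) (M (nat_lit 17832029004943)))) (T.h (P (nat_lit 0)) (P (nat_lit 3821769693456)))))))) (T.h (T.h (P (nat_lit 0)) (T.h (T.h (P (nat_lit 0)) (T.h (M (nat_lit 56440631814495246745599)) (T.h (P (nat_lit 0)) (P (nat_lit 297687919684386816))))) (T.h (P (nat_lit 0)) (T.h (T.h (P (nat_lit 0)) (M (nat_lit 115810020998676479))) (P (nat_lit 0)))))) (T.h (T.h (T.h (P (nat_lit 12526376508625760402014208)) (T.h (P (nat_lit 0)) (T.h (M (nat_lit 267369536469543682047)) (T.h (P (nat_lit 0)) (P (nat_lit 78162321228816)))))) (T.h (P (nat_lit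 0)) (T.h (T.h (P (nat_lit 1877110365234397184)) (T.h (P (nat_lit 0)) (P (nat_lit 109922351265936)))) (T.h (P (nat_lit 0)) (M (nat_lit 49126568938831)))))) (T.h (T.h (P (nat_lit 0)) (T.h (T.h (P (nat_lit 0)) (M (nat_lit 11779929606979583))) (P (nat_lit 0)))) (T.h (T.h (T.h (M (nat_lit 9306149800544043007)) (T.h (P (nat_lit 0)) (P (nat_lit 129681242717312)))) (T.h (P (nat_lit 0)) (M (nat_lit 52667779269951)))) (T.h (P (nat_lit 0)) (P (nat_lit 1586148909312)))))))), (T.h (T.h (T.h (P (nat_lit 0)) (T.h (P (nat_lit 3166846873336167602856132608)) (T.h (P (nat_lit 0)) (T.h (M (nat_lit 14344602706940511911935)) (T.h (P (nat_lit 0)) (M (nat_lit 65582421789278207))))))) (T.h (P (nat_lit 0)) (T.h (T.h (P (nat_lit 0)) (T.h (P (nat_lit 35266817870928178839552)) (T.h (P (nat_lit 0)) (M (nat_lit 12694745432686591))))) (T.h (P (nat_lit 0)) (T.h (T.h (P (nat_lit 0)) (M (nat_lit 384693298659327))) (P (nat_lit 0))))))) (T.h (T.h (P (nat_lit 0)) (T.h (T.h (P (nat_lit 9767776142240778154934272))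 (T.h (P (nat_lit 0)) (M (nat_lit 145672624222347722751)))) (T.h (P (nat_lit 0)) (P (nat_lit 11252920928419446784))))) (T.h (T.h (T.h (P (nat_lit 0)) (T.h (P (nat_lit 54548994911447583555584)) (T.h (P (nat_lit 0)) (M (nat_lit 58682876268085247))))) (T.h (P (nat_lit 0)) (T.h (T.h (P (nat_lit 0)) (M (nat_lit 41064510206017535))) (P (nat_lit 0))))) (T.h (T.h (P (nat_lit 0)) (M (nat_lit 181177798486917119))) (T.h (T.h (T.h (P (nat_lit 0)) (M (nat_lit 42086344733622271))) (P (nat_lit 0))) (P (nat_lit 0))))))), (P (nat_lit 0)), (P (nat_lit 0))]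
def lP11_35 : List (T ℤ) := [(T.h (T.h (P (nat_lit 0)) (T.h (T.h (P (nat_lit 24720628873632274064840065024)) (T.h (P (nat_lit 0)) (T.h (M (nat_lit 1513734822001993842687)) (T.h (P (nat_lit 0)) (M (nat_lit 36128524567314431)))))) (T.h (P (nat_lit 0)) (T.h (T.h (M (nat_lit 6216352766518433415167)) (T.h (P (nat_lit 0)) (P (nat_lit 44587433648488448)))) (T.h (P (nat_lit 0)) (M (nat_lit 7346128619438079))))))) (T.h (T.h (T.h (P (nat_lit 0)) (T.h (P (nat_lit 23184063137846014708285440)) (T.h (P (nat_lit 0)) (T.h (P (nat_lit 84380841537177649152)) (T.h (P (nat_lit 0)) (M (nat_lit 758417917878207))))))) (T.h (P (nat_lit 0)) (T.h (T.h (P (nat_lit 0)) (T.h (M (nat_lit 330605202168002641919)) (T.h (P (nat_lit 0)) (P (nat_lit 479727104432))))) (T.h (P (nat_lit 0)) (T.h (T.h (P (nat_lit 0)) (P (nat_lit 454401778969128))) (P (nat_lit 0))))))) (T.h (T.h (P (nat_lit 0)) (T.h (T.h (M (nat_lit 385743763890107318271)) (T.h (P (nat_lit 0)) (M (nat_lit 507231716894048255))))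 (T.h (P (nat_lit 0)) (P (nat_lit 16071640280662016))))) (T.h (T.h (T.h (P (nat_lit 0)) (T.h (P (nat_lit 114263556908772229120)) (T.h (P (nat_lit 0)) (P (nat_lit 1540299680151472))))) (T.h (P (nat_lit 0)) (T.h (T.h (P (nat_lit 0)) (M (nat_lit 28042525457543))) (P (nat_lit 0))))) (T.h (T.h (P (nat_lit 0)) (M (nat_lit 40305488974905343))) (T.h (T.h (T.h (P (nat_lit 0)) (M (nat_lit 136357517418903))) (P (nat_lit 0))) (P (nat_lit 0)))))))), (T.h (T.h (P (nat_lit 0)) (T.h (T.h (P (nat_lit 0)) (T.h (M (nat_lit 53146542248726677021523967)) (T.h (P (nat_lit 0)) (T.h (P (nat_lit 37051053167047868416)) (T.h (P (nat_lit 0)) (M (nat_lit 72084300084943))))))) (T.h (P (nat_lit 0)) (T.h (T.h (P (nat_lit 0)) (T.h (M (nat_lit 11548678206101913599)) (T.h (P (nat_lit 0)) (P (nat_lit 6711510549152))))) (T.h (P (nat_lit 0)) (T.h (T.h (P (nat_lit 0)) (M (nat_lit 34652740068447))) (P (nat_lit 0)))))))) (T.h (T.h (T.h (P (nat_lit 14882683165086291058843713536)) (T.h (P (nat_lit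 0)) (T.h (P (nat_lit 256807096225738805739520)) (T.h (P (nat_lit 0)) (P (nat_lit 1211095121471963136)))))) (T.h (P (nat_lit 0)) (T.h (T.h (M (nat_lit 18849529835447239311359)) (T.h (P (nat_lit 0)) (M (nat_lit 463891509779316735)))) (T.h (P (nat_lit 0)) (P (nat_lit 140018033237983232)))))) (T.h (T.h (P (nat_lit 0)) (T.h (T.h (P (nat_lit 0)) (T.h (M (nat_lit 75408516526748205055)) (T.h (P (nat_lit 0)) (M (nat_lit 75934935373951))))) (T.h (P (nat_lit 0)) (T.h (T.h (P (nat_lit 0)) (P (nat_lit 16557836531408))) (P (nat_lit 0)))))) (T.h (T.h (T.h (P (nat_lit 20929441631043701440512)) (T.h (P (nat_lit 0)) (M (nat_lit 446271242066706431)))) (T.h (P (nat_lit 0)) (P (nat_lit 102934913059225600)))) (T.h (T.h (P (nat_lit 0)) (T.h (T.h (P (nat_lit 0)) (P (nat_lit 4164924265456))) (P (nat_lit 0)))) (M (nat_lit 36176921370558463))))))), (T.h (T.h (P (nat_lit 0)) (T.h (T.h (P (nat_lit 51582408548206184494769635328)) (T.h (P (nat_lit 0)) (T.h (M (nat_lit 200904069181834157621247))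 (T.h (P (nat_lit 0)) (P (nat_lit 1043993211476312064)))))) (T.h (P (nat_lit 0)) (T.h (T.h (M (nat_lit 117139666033039860826111)) (T.h (P (nat_lit 0)) (P (nat_lit 185561712988880896)))) (T.h (P (nat_lit 0)) (P (nat_lit 70419940393320448))))))) (T.h (T.h (T.h (P (nat_lit 0)) (T.h (M (nat_lit 40829821524197619261243391)) (T.h (P (nat_lit 0)) (T.h (M (nat_lit 950575920179983679487)) (T.h (P (nat_lit 0)) (M (nat_lit 40638326489599))))))) (T.h (P (nat_lit 0)) (T.h (T.h (P (nat_lit 0)) (T.h (P (nat_lit 95133925868226740224)) (T.h (P (nat_lit 0)) (M (nat_lit 353210867934847))))) (T.h (P (nat_lit 0)) (T.h (T.h (P (nat_lit 0)) (M (nat_lit 35758438672831))) (P (nat_lit 0))))))) (T.h (T.h (P (nat_lit 0)) (T.h (T.h (M (nat_lit 99487948763324301180927)) (T.h (P (nat_lit 0)) (M (nat_lit 96430074812661759)))) (T.h (P (nat_lit 0)) (P (nat_lit 199864390115131392))))) (T.h (T.h (T.h (P (nat_lit 0)) (T.h (P (nat_lit 181847495206936510464)) (T.h (P (nat_lit 0)) (M (nat_lit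 569304909624511))))) (T.h (P (nat_lit 0)) (T.h (T.h (P (nat_lit 0)) (P (nat_lit 16402866389632))) (P (nat_lit 0))))) (T.h (T.h (P (nat_lit 0)) (P (nat_lit 196616084993900544))) (T.h (T.h (T.h (P (nat_lit 0)) (M (nat_lit 34559719305663))) (P (nat_lit 0))) (P (nat_lit 0)))))))), (T.h (T.h (P (nat_lit 0)) (T.h (T.h (P (nat_lit 0)) (T.h (P (nat_lit 52630575178557683830620160)) (T.h (P (nat_lit 0)) (T.h (P (nat_lit 246123919164382904320)) (T.h (P (nat_lit 0)) (P (nat_lit 323965957366480))))))) (T.h (P (nat_lit 0)) (T.h (T.h (P (nat_lit 0)) (T.h (P (nat_lit 30487834188759171072)) (T.h (P (nat_lit 0)) (P (nat_lit 186187917737008))))) (T.h (P (nat_lit 0)) (T.h (T.h (P (nat_lit 0)) (P (nat_lit 56760557853824))) (P (nat_lit 0)))))))) (T.h (T.h (T.h (P (nat_lit 22056385171391749620211122176)) (T.h (P (nat_lit 0)) (T.h (M (nat_lit 25702737167881122873343)) (T.h (P (nat_lit 0)) (M (nat_lit 2349252942460698623)))))) (T.h (P (nat_lit 0)) (T.h (T.h (P (nat_lit 24522684844148118257664))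 (T.h (P (nat_lit 0)) (P (nat_lit 209679305862021120)))) (T.h (P (nat_lit 0)) (P (nat_lit 99933179538800640)))))) (T.h (T.h (P (nat_lit 0)) (T.h (T.h (P (nat_lit 0)) (T.h (P (nat_lit 112460165131284774912)) (T.h (P (nat_lit 0)) (P (nat_lit 357255833203280))))) (T.h (P (nat_lit 0)) (T.h (T.h (P (nat_lit 0)) (M (nat_lit 58086204154527))) (P (nat_lit 0)))))) (T.h (T.h (T.h (M (nat_lit 61689989667755156045823)) (T.h (P (nat_lit 0)) (P (nat_lit 327098498796929024)))) (T.h (P (nat_lit 0)) (P (nat_lit 61005692873162752)))) (T.h (T.h (P (nat_lit 0)) (T.h (T.h (P (nat_lit 0)) (P (nat_lit 53051936705152))) (P (nat_lit 0)))) (P (nat_lit 96786791661895680))))))), (T.h (T.h (P (nat_lit 0)) (T.h (T.h (M (nat_lit 3852606373610495334007439359)) (T.h (P (nat_lit 0)) (T.h (M (nat_lit 245447685447027747979263)) (T.h (P (nat_lit 0)) (M (nat_lit 282237081034981375)))))) (T.h (P (nat_lit 0)) (T.h (T.h (P (nat_lit 22505124835361908850688)) (T.h (P (nat_lit 0)) (M (nat_lit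 47461522852282367)))) (T.h (P (nat_lit 0)) (M (nat_lit 4950061242613759))))))) (T.h (T.h (T.h (P (nat_lit 0)) (T.h (M (nat_lit 59607409781330600397897727)) (T.h (P (nat_lit 0)) (P (nat_lit 1752441552205047136256))))) (T.h (P (nat_lit 0)) (T.h (T.h (P (nat_lit 0)) (P (nat_lit 114307951635558563840))) (P (nat_lit 0))))) (T.h (T.h (P (nat_lit 0)) (T.h (T.h (P (nat_lit 6837357369292922814464)) (T.h (P (nat_lit 0)) (M (nat_lit 110716026291683327)))) (T.h (P (nat_lit 0)) (P (nat_lit 46638150502907904))))) (T.h (T.h (T.h (P (nat_lit 0)) (P (nat_lit 18434105099233001472))) (P (nat_lit 0))) (T.h (T.h (P (nat_lit 0)) (P (nat_lit 59169193778446336))) (P (nat_lit 0))))))), (P (nat_lit 0)), (P (nat_lit 0)), (T.h (T.h (T.h (P (nat_lit 0)) (T.h (M (nat_lit 22104091901107504304376250367)) (T.h (P (nat_lit 0)) (T.h (M (nat_lit 101575603554824172339199)) (T.h (P (nat_lit 0)) (P (nat_lit 166862766999830528))))))) (T.h (P (nat_lit 0)) (T.h (T.h (P (nat_lit 0)) (T.h (M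 (nat_lit 124784113349167094431743)) (T.h (P (nat_lit 0)) (M (nat_lit 310718183101726719))))) (T.h (P (nat_lit 0)) (T.h (T.h (P (nat_lit 0)) (M (nat_lit 28025252770054143))) (P (nat_lit 0))))))) (T.h (T.h (P (nat_lit 0)) (T.h (T.h (M (nat_lit 34254519714937530390413311)) (T.h (P (nat_lit 0)) (T.h (M (nat_lit 415238262945889648639)) (T.h (P (nat_lit 0)) (M (nat_lit 322669152633231)))))) (T.h (P (nat_lit 0)) (T.h (T.h (P (nat_lit 38720956170330177536)) (T.h (P (nat_lit 0)) (M (nat_lit 454489044396063)))) (T.h (P (nat_lit 0)) (P (nat_lit 212987210345448))))))) (T.h (T.h (T.h (P (nat_lit 0)) (T.h (P (nat_lit 265432002081934186381312)) (T.h (P (nat_lit 0)) (P (nat_lit 692769815332487168))))) (T.h (P (nat_lit 0)) (T.h (T.h (P (nat_lit 0)) (M (nat_lit 956220861495934975))) (P (nat_lit 0))))) (T.h (T.h (P (nat_lit 0)) (T.h (T.h (P (nat_lit 221365810823784562688)) (T.h (P (nat_lit 0)) (P (nat_lit 1811791968199640)))) (T.h (P (nat_lit 0)) (P (nat_lit 217997659630480)))))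 (T.h (T.h (T.h (P (nat_lit 0)) (M (nat_lit 108164584080244735))) (P (nat_lit 0))) (T.h (T.h (P (nat_lit 0)) (P (nat_lit 119255286284848))) (P (nat_lit 0))))))))]
def lP11_36 : List (T ℤ) := [(T.h (T.h (T.h (P (nat_lit 43208653158815113777419300896768)) (T.h (P (nat_lit 0)) (T.h (M (nat_lit 4719205070773021623451647)) (T.h (P (nat_lit 0)) (T.h (M (nat_lit 13314922712594907135)) (T.h (P (nat_lit 0)) (M (nat_lit 42414864655807)))))))) (T.h (P (nat_lit 0)) (T.h (T.h (P (nat_lit 67259404014983158622584832)) (T.h (P (nat_lit 0)) (T.h (P (nat_lit 293885440176372580352)) (T.h (P (nat_lit 0)) (M (nat_lit 44080486814863)))))) (T.h (P (nat_lit 0)) (T.h (T.h (M (nat_lit 69697321268815069183)) (T.h (P (nat_lit 0)) (M (nat_lit 136648851742367)))) (T.h (P (nat_lit 0)) (P (nat_lit 42191720135392)))))))) (T.h (T.h (P (nat_lit 0)) (T.h (T.h (P (nat_lit 0)) (T.h (P (nat_lit 286759272025000683503616)) (T.h (P (nat_lit 0)) (P (nat_lit 30305883593474048))))) (T.h (P (nat_lit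 0)) (T.h (T.h (P (nat_lit 0)) (M (nat_lit 463859412333428735))) (P (nat_lit 0)))))) (T.h (T.h (T.h (P (nat_lit 72576428199824804957650944)) (T.h (P (nat_lit 0)) (T.h (P (nat_lit 349703550122757980160)) (T.h (P (nat_lit 0)) (M (nat_lit 231229981354351)))))) (T.h (P (nat_lit 0)) (T.h (T.h (P (nat_lit 117552525714856607744)) (T.h (P (nat_lit 0)) (P (nat_lit 1072805312553536)))) (T.h (P (nat_lit 0)) (P (nat_lit 26340637608960)))))) (T.h (T.h (P (nat_lit 0)) (T.h (T.h (P (nat_lit 0)) (M (nat_lit 46517125578522623))) (P (nat_lit 0)))) (T.h (T.h (T.h (P (nat_lit 18074038190473216000)) (T.h (P (nat_lit 0)) (M (nat_lit 327497488157023)))) (T.h (P (nat_lit 0)) (P (nat_lit 22641495733792)))) (T.h (P (nat_lit 0)) (P (nat_lit 8996294111232)))))))), (T.h (T.h (T.h (P (nat_lit 0)) (T.h (M (nat_lit 39922114480524796813220249599)) (T.h (P (nat_lit 0)) (T.h (M (nat_lit 760442022012652592562175)) (T.h (P (nat_lit 0)) (P (nat_lit 321913026383773696))))))) (T.h (P (nat_lit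 0)) (T.h (T.h (P (nat_lit 0)) (T.h (M (nat_lit 354108966750097843945471)) (T.h (P (nat_lit 0)) (M (nat_lit 1339971673303810047))))) (T.h (P (nat_lit 0)) (T.h (T.h (P (nat_lit 0)) (M (nat_lit 254820433037426687))) (P (nat_lit 0))))))) (T.h (T.h (P (nat_lit 0)) (T.h (T.h (M (nat_lit 170225242134397112389992447)) (T.h (P (nat_lit 0)) (T.h (M (nat_lit 172626538980066721791)) (T.h (P (nat_lit 0)) (M (nat_lit 304057911904575)))))) (T.h (P (nat_lit 0)) (T.h (T.h (P (nat_lit 479259445294006272)) (T.h (P (nat_lit 0)) (P (nat_lit 299226266042112)))) (T.h (P (nat_lit 0)) (P (nat_lit 43684823795648))))))) (T.h (T.h (T.h (P (nat_lit 0)) (T.h (M (nat_lit 235705695844198669877247)) (T.h (P (nat_lit 0)) (P (nat_lit 44325914313588736))))) (T.h (P (nat_lit 0)) (T.h (T.h (P (nat_lit 0)) (P (nat_lit 1143806116378148864))) (P (nat_lit 0))))) (T.h (T.h (P (nat_lit 0)) (T.h (T.h (P (nat_lit 299863005869694255104)) (T.h (P (nat_lit 0)) (M (nat_lit 71092680409855)))) (T.h (P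 (nat_lit 0)) (P (nat_lit 54212487964352))))) (T.h (T.h (T.h (P (nat_lit 0)) (P (nat_lit 251989686659973120))) (P (nat_lit 0))) (T.h (T.h (P (nat_lit 0)) (P (nat_lit 139590809213760))) (P (nat_lit 0)))))))), (T.h (T.h (T.h (P (nat_lit 9842828176903212546727859978240)) (T.h (P (nat_lit 0)) (T.h (P (nat_lit 320469631190882521324716032)) (T.h (P (nat_lit 0)) (T.h (P (nat_lit 210997532023150608384)) (T.h (P (nat_lit 0)) (M (nat_lit 170030783852159)))))))) (T.h (P (nat_lit 0)) (T.h (T.h (M (nat_lit 83811693614592676266508287)) (T.h (P (nat_lit 0)) (T.h (M (nat_lit 186299037107603111935)) (T.h (P (nat_lit 0)) (M (nat_lit 251656292397487)))))) (T.h (P (nat_lit 0)) (T.h (T.h (P (nat_lit 19580335360942538752)) (T.h (P (nat_lit 0)) (M (nat_lit 107497428313791)))) (T.h (P (nat_lit 0)) (M (nat_lit 58880536840751)))))))) (T.h (T.h (P (nat_lit 0)) (T.h (T.h (P (nat_lit 0)) (T.h (M (nat_lit 68708426816214420946943)) (T.h (P (nat_lit 0)) (M (nat_lit 941031378902941695)))))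 (T.h (P (nat_lit 0)) (T.h (T.h (P (nat_lit 0)) (P (nat_lit 19545118180081664))) (P (nat_lit 0)))))) (T.h (T.h (T.h (M (nat_lit 156975126325488610199994367)) (T.h (P (nat_lit 0)) (T.h (M (nat_lit 342410088431271018495)) (T.h (P (nat_lit 0)) (M (nat_lit 1488234846215567)))))) (T.h (P (nat_lit 0)) (T.h (T.h (P (nat_lit 48088645099138842624)) (T.h (P (nat_lit 0)) (P (nat_lit 344783284634976)))) (T.h (P (nat_lit 0)) (P (nat_lit 162584894039040)))))) (T.h (T.h (P (nat_lit 0)) (T.h (T.h (P (nat_lit 0)) (P (nat_lit 130717729978974208))) (P (nat_lit 0)))) (T.h (T.h (T.h (M (nat_lit 69165089831692271615)) (T.h (P (nat_lit 0)) (P (nat_lit 74244844808288)))) (T.h (P (nat_lit 0)) (P (nat_lit 327319259258288)))) (T.h (P (nat_lit 0)) (M (nat_lit 148769173545343)))))))), (T.h (T.h (T.h (P (nat_lit 0)) (T.h (M (nat_lit 6186404307439879652053614591)) (T.h (P (nat_lit 0)) (T.h (M (nat_lit 278193744780241659756543)) (T.h (P (nat_lit 0)) (P (nat_lit 106917404220751872)))))))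 (T.h (P (nat_lit 0)) (T.h (T.h (P (nat_lit 0)) (T.h (P (nat_lit 198966467875785016344576)) (T.h (P (nat_lit 0)) (P (nat_lit 46838032368730112))))) (T.h (P (nat_lit 0)) (T.h (T.h (P (nat_lit 0)) (M (nat_lit 13949065269936127))) (P (nat_lit 0))))))) (T.h (T.h (P (nat_lit 0)) (T.h (T.h (P (nat_lit 2557549714804987748417536)) (T.h (P (nat_lit 0)) (P (nat_lit 940983863521673478144)))) (T.h (P (nat_lit 0)) (M (nat_lit 71045193053887266815))))) (T.h (T.h (T.h (P (nat_lit 0)) (T.h (P (nat_lit 252526146684295426605056)) (T.h (P (nat_lit 0)) (P (nat_lit 960612832525778944))))) (T.h (P (nat_lit 0)) (T.h (T.h (P (nat_lit 0)) (P (nat_lit 22491614153244672))) (P (nat_lit 0))))) (T.h (T.h (P (nat_lit 0)) (P (nat_lit 10009059546149945344))) (T.h (T.h (T.h (P (nat_lit 0)) (M (nat_lit 99525833845407743))) (P (nat_lit 0))) (P (nat_lit 0))))))), (P (nat_lit 0)), (P (nat_lit 0)), (T.h (T.h (P (nat_lit 0)) (T.h (T.h (P (nat_lit 111178484058619237873389404160)) (T.h (P (nat_lit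 0)) (T.h (M (nat_lit 115850023633569521336319)) (T.h (P (nat_lit 0)) (M (nat_lit 41342384774774783)))))) (T.h (P (nat_lit 0)) (T.h (T.h (M (nat_lit 137288147945334882959359)) (T.h (P (nat_lit 0)) (P (nat_lit 222497719356063744)))) (T.h (P (nat_lit 0)) (P (nat_lit 4785968924459008))))))) (T.h (T.h (T.h (P (nat_lit 0)) (T.h (M (nat_lit 41189532378361209735348223)) (T.h (P (nat_lit 0)) (T.h (M (nat_lit 46655078414092861439)) (T.h (P (nat_lit 0)) (M (nat_lit 34980200138519))))))) (T.h (P (nat_lit 0)) (T.h (T.h (P (nat_lit 0)) (T.h (M (nat_lit 675868454042908753919)) (T.h (P (nat_lit 0)) (P (nat_lit 674159898158272))))) (T.h (P (nat_lit 0)) (T.h (T.h (P (nat_lit 0)) (M (nat_lit 273236532926343))) (P (nat_lit 0))))))) (T.h (T.h (P (nat_lit 0)) (T.h (T.h (P (nat_lit 40760733975397705711616)) (T.h (P (nat_lit 0)) (M (nat_lit 187280388125884415)))) (T.h (P (nat_lit 0)) (P (nat_lit 928411721710764032))))) (T.h (T.h (T.h (P (nat_lit 0)) (T.h (P (nat_lit 486125676611887955968))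 (T.h (P (nat_lit 0)) (M (nat_lit 1501100673922575))))) (T.h (P (nat_lit 0)) (T.h (T.h (P (nat_lit 0)) (P (nat_lit 869756130706808))) (P (nat_lit 0))))) (T.h (T.h (P (nat_lit 0)) (P (nat_lit 21188157654433792))) (T.h (T.h (T.h (P (nat_lit 0)) (P (nat_lit 410497940195888))) (P (nat_lit 0))) (P (nat_lit 0)))))))), (T.h (T.h (P (nat_lit 0)) (T.h (T.h (P (nat_lit 0)) (T.h (M (nat_lit 71680159886675777702330367)) (T.h (P (nat_lit 0)) (T.h (M (nat_lit 552929872375034413055)) (T.h (P (nat_lit 0)) (M (nat_lit 196060949436703))))))) (T.h (P (nat_lit 0)) (T.h (T.h (P (nat_lit 0)) (T.h (M (nat_lit 414865321548121636863)) (T.h (P (nat_lit 0)) (P (nat_lit 74063858113264))))) (T.h (P (nat_lit 0)) (T.h (T.h (P (nat_lit 0)) (M (nat_lit 238584807373775))) (P (nat_lit 0)))))))) (T.h (T.h (T.h (P (nat_lit 43277155415059202772708622336)) (T.h (P (nat_lit 0)) (T.h (P (nat_lit 170186113998269844553728)) (T.h (P (nat_lit 0)) (P (nat_lit 937968967112327168)))))) (T.h (P (nat_lit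 0)) (T.h (T.h (P (nat_lit 148186376742795959336960)) (T.h (P (nat_lit 0)) (M (nat_lit 1671646665212379135)))) (T.h (P (nat_lit 0)) (P (nat_lit 47304382030217216)))))) (T.h (T.h (P (nat_lit 0)) (T.h (T.h (P (nat_lit 0)) (T.h (M (nat_lit 235845349929507618815)) (T.h (P (nat_lit 0)) (P (nat_lit 284497740592896))))) (T.h (P (nat_lit 0)) (T.h (T.h (P (nat_lit 0)) (P (nat_lit 852961503396064))) (P (nat_lit 0)))))) (T.h (T.h (T.h (M (nat_lit 254507504074819192750079)) (T.h (P (nat_lit 0)) (M (nat_lit 335012596202733567)))) (T.h (P (nat_lit 0)) (M (nat_lit 159617239653646335)))) (T.h (T.h (P (nat_lit 0)) (T.h (T.h (P (nat_lit 0)) (P (nat_lit 375373675342624))) (P (nat_lit 0)))) (P (nat_lit 50133245051371520)))))))]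
def lP11_37 : List (T ℤ) := [(T.h (T.h (P (nat_lit 0)) (T.h (T.h (P (nat_lit 62643655476449485939370098688)) (T.h (P (nat_lit 0)) (T.h (P (nat_lit 950643573431573778792448)) (T.h (P (nat_lit 0)) (M (nat_lit 232229606802161663)))))) (T.h (P (nat_lit 0)) (T.h (T.h (P (nat_lit 287654487705655938383872)) (T.h (P (nat_lit 0)) (M (nat_lit 774131983532556287)))) (T.h (P (nat_lit 0)) (M (nat_lit 174897995144101887))))))) (T.h (T.h (T.h (P (nat_lit 0)) (T.h (M (nat_lit 305341496380382908069707775)) (T.h (P (nat_lit 0)) (T.h (P (nat_lit 195462500300215025664)) (T.h (P (nat_lit 0)) (M (nat_lit 10379191674367))))))) (T.h (P (nat_lit 0)) (T.h (T.h (P (nat_lit 0)) (T.h (P (nat_lit 2558449103850272980992)) (T.h (P (nat_lit 0)) (M (nat_lit 1485327107605247))))) (T.h (P (nat_lit 0)) (T.h (T.h (P (nat_lit 0)) (M (nat_lit 676794945140223))) (P (nat_lit 0))))))) (T.h (T.h (P (nat_lit 0)) (T.h (T.h (P (nat_lit 369848850225058518401024)) (T.h (P (nat_lit 0)) (M (nat_lit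 1184918964387414015)))) (T.h (P (nat_lit 0)) (P (nat_lit 136851684765433856))))) (T.h (T.h (T.h (P (nat_lit 0)) (T.h (M (nat_lit 1530808288139588665343)) (T.h (P (nat_lit 0)) (M (nat_lit 861174941379135))))) (T.h (P (nat_lit 0)) (T.h (T.h (P (nat_lit 0)) (P (nat_lit 3736984602240))) (P (nat_lit 0))))) (T.h (T.h (P (nat_lit 0)) (P (nat_lit 356312655989800960))) (T.h (T.h (T.h (P (nat_lit 0)) (P (nat_lit 237508116720640))) (P (nat_lit 0))) (P (nat_lit 0)))))))), (T.h (T.h (P (nat_lit 0)) (T.h (T.h (P (nat_lit 0)) (T.h (M (nat_lit 226576445221383062727688191)) (T.h (P (nat_lit 0)) (T.h (M (nat_lit 1196022857367273078783)) (T.h (P (nat_lit 0)) (P (nat_lit 475151156836224))))))) (T.h (P (nat_lit 0)) (T.h (T.h (P (nat_lit 0)) (T.h (P (nat_lit 490315886064140550144)) (T.h (P (nat_lit 0)) (M (nat_lit 330682858573759))))) (T.h (P (nat_lit 0)) (T.h (T.h (P (nat_lit 0)) (M (nat_lit 405142020864415))) (P (nat_lit 0)))))))) (T.h (T.h (T.h (P (nat_lit 54332242541957806865850040320))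 (T.h (P (nat_lit 0)) (T.h (P (nat_lit 174146129207516448423936)) (T.h (P (nat_lit 0)) (M (nat_lit 457285292616204287)))))) (T.h (P (nat_lit 0)) (T.h (T.h (M (nat_lit 405458993047623369228287)) (T.h (P (nat_lit 0)) (P (nat_lit 1033407023379251200)))) (T.h (P (nat_lit 0)) (M (nat_lit 49825124056350719)))))) (T.h (T.h (P (nat_lit 0)) (T.h (T.h (P (nat_lit 0)) (T.h (P (nat_lit 434979439076475666432)) (T.h (P (nat_lit 0)) (M (nat_lit 360597627729327))))) (T.h (P (nat_lit 0)) (T.h (T.h (P (nat_lit 0)) (M (nat_lit 330388936005567))) (P (nat_lit 0)))))) (T.h (T.h (T.h (P (nat_lit 232429605756821879914496)) (T.h (P (nat_lit 0)) (M (nat_lit 2490888803706617855)))) (T.h (P (nat_lit 0)) (P (nat_lit 9917964440911872)))) (T.h (T.h (P (nat_lit 0)) (T.h (T.h (P (nat_lit 0)) (M (nat_lit 786410889423631))) (P (nat_lit 0)))) (M (nat_lit 25360039011237887))))))), (T.h (T.h (P (nat_lit 0)) (T.h (T.h (P (nat_lit 146032963074621426709357920256)) (T.h (P (nat_lit 0)) (T.h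 (P (nat_lit 1156061246247929066291200)) (T.h (P (nat_lit 0)) (M (nat_lit 1049521667825401855)))))) (T.h (P (nat_lit 0)) (T.h (T.h (M (nat_lit 67571660984610788999167)) (T.h (P (nat_lit 0)) (P (nat_lit 173085373524672512)))) (T.h (P (nat_lit 0)) (P (nat_lit 88359397427150848))))))) (T.h (T.h (T.h (P (nat_lit 0)) (T.h (P (nat_lit 250268644846211475984875520)) (T.h (P (nat_lit 0)) (P (nat_lit 705506721799809794048))))) (T.h (P (nat_lit 0)) (T.h (T.h (P (nat_lit 0)) (M (nat_lit 329954917730706522111))) (P (nat_lit 0))))) (T.h (T.h (P (nat_lit 0)) (T.h (T.h (M (nat_lit 392707064808358482542591)) (T.h (P (nat_lit 0)) (M (nat_lit 201991493659361279)))) (T.h (P (nat_lit 0)) (M (nat_lit 31580471776182271))))) (T.h (T.h (T.h (P (nat_lit 0)) (P (nat_lit 606120902321160323072))) (P (nat_lit 0))) (T.h (T.h (P (nat_lit 0)) (M (nat_lit 239694345730588671))) (P (nat_lit 0))))))), (P (nat_lit 0)), (T.h (T.h (T.h (P (nat_lit 0)) (T.h (P (nat_lit 251021938902855966266700595200))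 (T.h (P (nat_lit 0)) (T.h (M (nat_lit 533005722685375850217471)) (T.h (P (nat_lit 0)) (P (nat_lit 173289875154141184))))))) (T.h (P (nat_lit 0)) (T.h (T.h (P (nat_lit 0)) (T.h (M (nat_lit 232858302656583858913279)) (T.h (P (nat_lit 0)) (M (nat_lit 207525434107330559))))) (T.h (P (nat_lit 0)) (T.h (T.h (P (nat_lit 0)) (M (nat_lit 116908142202126335))) (P (nat_lit 0))))))) (T.h (T.h (P (nat_lit 0)) (T.h (T.h (P (nat_lit 329786219524332246169288704)) (T.h (P (nat_lit 0)) (T.h (M (nat_lit 1362341235062512549887)) (T.h (P (nat_lit 0)) (P (nat_lit 1338376529166768)))))) (T.h (P (nat_lit 0)) (T.h (T.h (P (nat_lit 567880259456544538624)) (T.h (P (nat_lit 0)) (M (nat_lit 429446612886951)))) (T.h (P (nat_lit 0)) (P (nat_lit 176128185699800))))))) (T.h (T.h (T.h (P (nat_lit 0)) (T.h (M (nat_lit 232858302656583858913279)) (T.h (P (nat_lit 0)) (M (nat_lit 207525434107330559))))) (T.h (P (nat_lit 0)) (T.h (T.h (P (nat_lit 0)) (M (nat_lit 2050806935147511807))) (P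 (nat_lit 0))))) (T.h (T.h (P (nat_lit 0)) (T.h (T.h (P (nat_lit 567880259456544538624)) (T.h (P (nat_lit 0)) (M (nat_lit 429446612886951)))) (T.h (P (nat_lit 0)) (M (nat_lit 326104471389535))))) (T.h (T.h (T.h (P (nat_lit 0)) (M (nat_lit 116908142202126335))) (P (nat_lit 0))) (T.h (T.h (P (nat_lit 0)) (P (nat_lit 176128185699800))) (P (nat_lit 0)))))))), (T.h (T.h (T.h (P (nat_lit 41183129304564248849643321950208)) (T.h (P (nat_lit 0)) (T.h (P (nat_lit 128238532981307404747538432)) (T.h (P (nat_lit 0)) (T.h (M (nat_lit 111925790093499957247)) (T.h (P (nat_lit 0)) (P (nat_lit 70408296366272)))))))) (T.h (P (nat_lit 0)) (T.h (T.h (P (nat_lit 50942899710709578166435840)) (T.h (P (nat_lit 0)) (T.h (P (nat_lit 320521376786928369664)) (T.h (P (nat_lit 0)) (M (nat_lit 148035264118879)))))) (T.h (P (nat_lit 0)) (T.h (T.h (M (nat_lit 143314750996568080383)) (T.h (P (nat_lit 0)) (M (nat_lit 51767757316207)))) (T.h (P (nat_lit 0)) (P (nat_lit 18997137599232))))))))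 (T.h (T.h (P (nat_lit 0)) (T.h (T.h (P (nat_lit 0)) (T.h (M (nat_lit 299573183231170279636991)) (T.h (P (nat_lit 0)) (M (nat_lit 555055152092545023))))) (T.h (P (nat_lit 0)) (T.h (T.h (P (nat_lit 0)) (M (nat_lit 478232142920548351))) (P (nat_lit 0)))))) (T.h (T.h (T.h (P (nat_lit 50942899710709578166435840)) (T.h (P (nat_lit 0)) (T.h (P (nat_lit 320521376786928369664)) (T.h (P (nat_lit 0)) (M (nat_lit 148035264118879)))))) (T.h (P (nat_lit 0)) (T.h (T.h (P (nat_lit 496854291248444342272)) (T.h (P (nat_lit 0)) (P (nat_lit 317734406410304)))) (T.h (P (nat_lit 0)) (M (nat_lit 214757246667535)))))) (T.h (T.h (P (nat_lit 0)) (T.h (T.h (P (nat_lit 0)) (M (nat_lit 478232142920548351))) (P (nat_lit 0)))) (T.h (T.h (T.h (M (nat_lit 143314750996568080383)) (T.h (P (nat_lit 0)) (M (nat_lit 51767757316207)))) (T.h (P (nat_lit 0)) (M (nat_lit 214757246667535)))) (T.h (P (nat_lit 0)) (P (nat_lit 18997137599232)))))))), (T.h (T.h (T.h (P (nat_lit 0)) (T.h (P (nat_lit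 180100306156332347575301570560)) (T.h (P (nat_lit 0)) (T.h (P (nat_lit 202670261781272798953472)) (T.h (P (nat_lit 0)) (P (nat_lit 153654664496545792))))))) (T.h (P (nat_lit 0)) (T.h (T.h (P (nat_lit 0)) (T.h (M (nat_lit 747416846741254860439551)) (T.h (P (nat_lit 0)) (M (nat_lit 736608973095469055))))) (T.h (P (nat_lit 0)) (T.h (T.h (P (nat_lit 0)) (P (nat_lit 1115387847050067968))) (P (nat_lit 0))))))) (T.h (T.h (P (nat_lit 0)) (T.h (T.h (P (nat_lit 361895769704158551676551168)) (T.h (P (nat_lit 0)) (T.h (P (nat_lit 3209291828451105308672)) (T.h (P (nat_lit 0)) (P (nat_lit 893590196824576)))))) (T.h (P (nat_lit 0)) (T.h (T.h (M (nat_lit 563885296431342288895)) (T.h (P (nat_lit 0)) (M (nat_lit 1938599534243071)))) (T.h (P (nat_lit 0)) (M (nat_lit 491518324551039))))))) (T.h (T.h (T.h (P (nat_lit 0)) (T.h (M (nat_lit 747416846741254860439551)) (T.h (P (nat_lit 0)) (M (nat_lit 736608973095469055))))) (T.h (P (nat_lit 0)) (T.h (T.h (P (nat_lit 0)) (M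 (nat_lit 3002951874471460863))) (P (nat_lit 0))))) (T.h (T.h (P (nat_lit 0)) (T.h (T.h (M (nat_lit 563885296431342288895)) (T.h (P (nat_lit 0)) (M (nat_lit 1938599534243071)))) (T.h (P (nat_lit 0)) (P (nat_lit 1032145006155136))))) (T.h (T.h (T.h (P (nat_lit 0)) (P (nat_lit 1115387847050067968))) (P (nat_lit 0))) (T.h (T.h (P (nat_lit 0)) (M (nat_lit 491518324551039))) (P (nat_lit 0)))))))), (T.h (T.h (T.h (P (nat_lit 58087694991666338886723318054912)) (T.h (P (nat_lit 0)) (T.h (P (nat_lit 9437564309241027725623296)) (T.h (P (nat_lit 0)) (T.h (P (nat_lit 524866282512074145792)) (T.h (P (nat_lit 0)) (M (nat_lit 131263284325183)))))))) (T.h (P (nat_lit 0)) (T.h (T.h (P (nat_lit 45903493476868419569582080)) (T.h (P (nat_lit 0)) (T.h (P (nat_lit 975313840075461099520)) (T.h (P (nat_lit 0)) (P (nat_lit 845445726610320)))))) (T.h (P (nat_lit 0)) (T.h (T.h (P (nat_lit 346582148098786590720)) (T.h (P (nat_lit 0)) (P (nat_lit 1655064524142128)))) (T.h (P (nat_lit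 0)) (M (nat_lit 44175916690751)))))))) (T.h (T.h (P (nat_lit 0)) (T.h (T.h (P (nat_lit 0)) (T.h (M (nat_lit 2179478930131137939374079)) (T.h (P (nat_lit 0)) (P (nat_lit 1549926153797894144))))) (T.h (P (nat_lit 0)) (T.h (T.h (P (nat_lit 0)) (P (nat_lit 4898770343087833088))) (P (nat_lit 0)))))) (T.h (T.h (T.h (P (nat_lit 45903493476868419569582080)) (T.h (P (nat_lit 0)) (T.h (P (nat_lit 975313840075461099520)) (T.h (P (nat_lit 0)) (P (nat_lit 845445726610320)))))) (T.h (P (nat_lit 0)) (T.h (T.h (M (nat_lit 123101705136064430079)) (T.h (P (nat_lit 0)) (M (nat_lit 4756085803598975)))) (T.h (P (nat_lit 0)) (P (nat_lit 716288495958112)))))) (T.h (T.h (P (nat_lit 0)) (T.h (T.h (P (nat_lit 0)) (P (nat_lit 4898770343087833088))) (P (nat_lit 0)))) (T.h (T.h (T.h (P (nat_lit 346582148098786590720)) (T.h (P (nat_lit 0)) (P (nat_lit 1655064524142128)))) (T.h (P (nat_lit 0)) (P (nat_lit 716288495958112)))) (T.h (P (nat_lit 0)) (M (nat_lit 44175916690751))))))))]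
def lP11_38 : List (T ℤ) := [(T.h (T.h (T.h (P (nat_lit 0)) (T.h (P (nat_lit 117067176160539334261107326976)) (T.h (P (nat_lit 0)) (T.h (P (nat_lit 389587506900578208841728)) (T.h (P (nat_lit 0)) (M (nat_lit 30295990964846591))))))) (T.h (P (nat_lit 0)) (T.h (T.h (P (nat_lit 0)) (T.h (M (nat_lit 535752343432731979415551)) (T.h (P (nat_lit 0)) (M (nat_lit 377788360702263295))))) (T.h (P (nat_lit 0)) (T.h (T.h (P (nat_lit 0)) (M (nat_lit 92720045063176191))) (P (nat_lit 0))))))) (T.h (T.h (P (nat_lit 0)) (T.h (T.h (M (nat_lit 125024135611729435644919807)) (T.h (P (nat_lit 0)) (M (nat_lit 1125857228273099997183)))) (T.h (P (nat_lit 0)) (M (nat_lit 604094228384201048063))))) (T.h (T.h (T.h (P (nat_lit 0)) (T.h (M (nat_lit 535752343432731979415551)) (T.h (P (nat_lit 0)) (M (nat_lit 377788360702263295))))) (T.h (P (nat_lit 0)) (T.h (T.h (P (nat_lit 0)) (P (nat_lit 2140067881561620480))) (P (nat_lit 0))))) (T.h (T.h (P (nat_lit 0)) (M (nat_lit 604094228384201048063)))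 (T.h (T.h (T.h (P (nat_lit 0)) (M (nat_lit 92720045063176191))) (P (nat_lit 0))) (P (nat_lit 0))))))), (T.h (T.h (P (nat_lit 0)) (T.h (T.h (M (nat_lit 971868537751051024134569983)) (T.h (P (nat_lit 0)) (T.h (P (nat_lit 373971790970277068800)) (T.h (P (nat_lit 0)) (M (nat_lit 11433130962321407)))))) (T.h (P (nat_lit 0)) (T.h (T.h (M (nat_lit 63766021657352615231487)) (T.h (P (nat_lit 0)) (P (nat_lit 295832223095455744)))) (T.h (P (nat_lit 0)) (P (nat_lit 109955964714844160))))))) (T.h (T.h (T.h (P (nat_lit 0)) (T.h (P (nat_lit 47619769514643203467247616)) (T.h (P (nat_lit 0)) (T.h (M (nat_lit 2943982405888770047)) (T.h (P (nat_lit 0)) (M (nat_lit 21420526282247))))))) (T.h (P (nat_lit 0)) (T.h (T.h (P (nat_lit 0)) (T.h (M (nat_lit 65582464776871608319)) (T.h (P (nat_lit 0)) (M (nat_lit 22083636817703))))) (T.h (P (nat_lit 0)) (T.h (T.h (P (nat_lit 0)) (M (nat_lit 541243479832879))) (P (nat_lit 0))))))) (T.h (T.h (P (nat_lit 0)) (T.h (T.h (P (nat_lit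 4880592087944064401408)) (T.h (P (nat_lit 0)) (M (nat_lit 449558098796150783)))) (T.h (P (nat_lit 0)) (M (nat_lit 46489590790291455))))) (T.h (T.h (T.h (P (nat_lit 0)) (T.h (P (nat_lit 2296114596097818624)) (T.h (P (nat_lit 0)) (M (nat_lit 378390707617215))))) (T.h (P (nat_lit 0)) (T.h (T.h (P (nat_lit 0)) (P (nat_lit 679026910399288))) (P (nat_lit 0))))) (T.h (T.h (P (nat_lit 0)) (M (nat_lit 431268146137530367))) (T.h (T.h (T.h (P (nat_lit 0)) (M (nat_lit 170413629576327))) (P (nat_lit 0))) (P (nat_lit 0)))))))), (T.h (T.h (P (nat_lit 0)) (T.h (T.h (P (nat_lit 0)) (T.h (M (nat_lit 122789488773912644057825279)) (T.h (P (nat_lit 0)) (T.h (P (nat_lit 18904853342054252544)) (T.h (P (nat_lit 0)) (M (nat_lit 56680728989695))))))) (T.h (P (nat_lit 0)) (T.h (T.h (P (nat_lit 0)) (T.h (M (nat_lit 70559966111708741631)) (T.h (P (nat_lit 0)) (M (nat_lit 38764309496303))))) (T.h (P (nat_lit 0)) (T.h (T.h (P (nat_lit 0)) (M (nat_lit 51588431069119))) (P (nat_lit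 0)))))))) (T.h (T.h (T.h (P (nat_lit 15048340848273050493121462272)) (T.h (P (nat_lit 0)) (T.h (M (nat_lit 27877875879952380854271)) (T.h (P (nat_lit 0)) (M (nat_lit 29064190960107519)))))) (T.h (P (nat_lit 0)) (T.h (T.h (P (nat_lit 269778487436707549413376)) (T.h (P (nat_lit 0)) (M (nat_lit 436194320761815039)))) (T.h (P (nat_lit 0)) (P (nat_lit 1932677482355982336)))))) (T.h (T.h (P (nat_lit 0)) (T.h (T.h (P (nat_lit 0)) (T.h (P (nat_lit 323348775870054531072)) (T.h (P (nat_lit 0)) (P (nat_lit 730533278844032))))) (T.h (P (nat_lit 0)) (T.h (T.h (P (nat_lit 0)) (P (nat_lit 69576744135504))) (P (nat_lit 0)))))) (T.h (T.h (T.h (M (nat_lit 130595988990329117212671)) (T.h (P (nat_lit 0)) (M (nat_lit 224887851569299455)))) (T.h (P (nat_lit 0)) (M (nat_lit 949489363244318719)))) (T.h (T.h (P (nat_lit 0)) (T.h (T.h (P (nat_lit 0)) (P (nat_lit 24634100531792))) (P (nat_lit 0)))) (M (nat_lit 40943223086841855))))))), (T.h (T.h (P (nat_lit 0)) (T.h (T.h (M (nat_lit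 60396523417661277367456235519)) (T.h (P (nat_lit 0)) (T.h (P (nat_lit 647252363648153207963648)) (T.h (P (nat_lit 0)) (P (nat_lit 543528863019859968)))))) (T.h (P (nat_lit 0)) (T.h (T.h (M (nat_lit 335287961257012828831743)) (T.h (P (nat_lit 0)) (P (nat_lit 1992973045643804672)))) (T.h (P (nat_lit 0)) (P (nat_lit 427508663967023104))))))) (T.h (T.h (T.h (P (nat_lit 0)) (T.h (P (nat_lit 152274439347066394745241600)) (T.h (P (nat_lit 0)) (T.h (P (nat_lit 357963800871996227584)) (T.h (P (nat_lit 0)) (M (nat_lit 89551540365695))))))) (T.h (P (nat_lit 0)) (T.h (T.h (P (nat_lit 0)) (T.h (P (nat_lit 488454092369736761344)) (T.h (P (nat_lit 0)) (P (nat_lit 37610081382656))))) (T.h (P (nat_lit 0)) (T.h (T.h (P (nat_lit 0)) (M (nat_lit 123070171246079))) (P (nat_lit 0))))))) (T.h (T.h (P (nat_lit 0)) (T.h (T.h (P (nat_lit 187537380045765723815936)) (T.h (P (nat_lit 0)) (M (nat_lit 4156243945349283839)))) (T.h (P (nat_lit 0)) (P (nat_lit 3160839316528529408)))))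 (T.h (T.h (T.h (P (nat_lit 0)) (T.h (M (nat_lit 204878908917010137087)) (T.h (P (nat_lit 0)) (P (nat_lit 372970920918720))))) (T.h (P (nat_lit 0)) (T.h (T.h (P (nat_lit 0)) (M (nat_lit 1451454010824831))) (P (nat_lit 0))))) (T.h (T.h (P (nat_lit 0)) (M (nat_lit 964231163423981567))) (T.h (T.h (T.h (P (nat_lit 0)) (M (nat_lit 337438848760703))) (P (nat_lit 0))) (P (nat_lit 0)))))))), (T.h (T.h (P (nat_lit 0)) (T.h (T.h (P (nat_lit 0)) (T.h (P (nat_lit 209858491789218732050481152)) (T.h (P (nat_lit 0)) (T.h (M (nat_lit 343672507904578027519)) (T.h (P (nat_lit 0)) (P (nat_lit 293444002755552))))))) (T.h (P (nat_lit 0)) (T.h (T.h (P (nat_lit 0)) (T.h (M (nat_lit 1996911699826835455999)) (T.h (P (nat_lit 0)) (P (nat_lit 295001769853296))))) (T.h (P (nat_lit 0)) (T.h (T.h (P (nat_lit 0)) (P (nat_lit 873946781694800))) (P (nat_lit 0)))))))) (T.h (T.h (T.h (M (nat_lit 74475794080812514501713723391)) (T.h (P (nat_lit 0)) (T.h (M (nat_lit 382880184728872976121855))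 (T.h (P (nat_lit 0)) (M (nat_lit 876810221174358015)))))) (T.h (P (nat_lit 0)) (T.h (T.h (M (nat_lit 456516344814740845887487)) (T.h (P (nat_lit 0)) (P (nat_lit 2203254695171620864)))) (T.h (P (nat_lit 0)) (M (nat_lit 343345129932554239)))))) (T.h (T.h (P (nat_lit 0)) (T.h (T.h (P (nat_lit 0)) (T.h (M (nat_lit 278640035212979863551)) (T.h (P (nat_lit 0)) (M (nat_lit 3895056786922399))))) (T.h (P (nat_lit 0)) (T.h (T.h (P (nat_lit 0)) (M (nat_lit 4400504091273839))) (P (nat_lit 0)))))) (T.h (T.h (T.h (P (nat_lit 306858456079746235105280)) (T.h (P (nat_lit 0)) (P (nat_lit 899285264921116672)))) (T.h (P (nat_lit 0)) (P (nat_lit 27812594155913216)))) (T.h (T.h (P (nat_lit 0)) (T.h (T.h (P (nat_lit 0)) (M (nat_lit 64243407402943))) (P (nat_lit 0)))) (M (nat_lit 300583305836429311))))))), (T.h (T.h (P (nat_lit 0)) (T.h (T.h (M (nat_lit 330764407359453632984548114431)) (T.h (P (nat_lit 0)) (T.h (M (nat_lit 452142118375054270005247)) (T.h (P (nat_lit 0)) (M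 (nat_lit 743325176508481535)))))) (T.h (P (nat_lit 0)) (T.h (T.h (P (nat_lit 274978202678897831575552)) (T.h (P (nat_lit 0)) (M (nat_lit 589104824327241727)))) (T.h (P (nat_lit 0)) (M (nat_lit 235436318599872511))))))) (T.h (T.h (T.h (P (nat_lit 0)) (T.h (P (nat_lit 84623785236052614221660160)) (T.h (P (nat_lit 0)) (P (nat_lit 104894994393145016320))))) (T.h (P (nat_lit 0)) (T.h (T.h (P (nat_lit 0)) (M (nat_lit 2499399271706366312447))) (P (nat_lit 0))))) (T.h (T.h (P (nat_lit 0)) (T.h (T.h (M (nat_lit 531165350599934173249535)) (T.h (P (nat_lit 0)) (P (nat_lit 6636718322802819072)))) (T.h (P (nat_lit 0)) (P (nat_lit 77355624508030976))))) (T.h (T.h (T.h (P (nat_lit 0)) (M (nat_lit 194204727048037990399))) (P (nat_lit 0))) (T.h (T.h (P (nat_lit 0)) (M (nat_lit 586040390698598399))) (P (nat_lit 0))))))), (T.h (T.h (T.h (P (nat_lit 37789302293090339039328761544704)) (T.h (P (nat_lit 0)) (T.h (P (nat_lit 1929188324096542337138688)) (T.h (P (nat_lit 0))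 (T.h (M (nat_lit 15374739511011442687)) (T.h (P (nat_lit 0)) (P (nat_lit 4728784196784)))))))) (T.h (P (nat_lit 0)) (T.h (T.h (P (nat_lit 29832145418423820380798976)) (T.h (P (nat_lit 0)) (T.h (P (nat_lit 150275231753586081792)) (T.h (P (nat_lit 0)) (M (nat_lit 8489036044511)))))) (T.h (P (nat_lit 0)) (T.h (T.h (P (nat_lit 26671585795212574720)) (T.h (P (nat_lit 0)) (P (nat_lit 80970273811648)))) (T.h (P (nat_lit 0)) (P (nat_lit 37151644471216)))))))) (T.h (T.h (P (nat_lit 0)) (T.h (T.h (P (nat_lit 0)) (T.h (P (nat_lit 438616123670500871241728)) (T.h (P (nat_lit 0)) (M (nat_lit 115248713760079871))))) (T.h (P (nat_lit 0)) (T.h (T.h (P (nat_lit 0)) (P (nat_lit 415635564448546816))) (P (nat_lit 0)))))) (T.h (T.h (T.h (M (nat_lit 9806991902528851599687679)) (T.h (P (nat_lit 0)) (T.h (P (nat_lit 44014770381303840768)) (T.h (P (nat_lit 0)) (P (nat_lit 26641791405664)))))) (T.h (P (nat_lit 0)) (T.h (T.h (P (nat_lit 68696693231037972480)) (T.h (P (nat_lit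 0)) (P (nat_lit 911509870941168)))) (T.h (P (nat_lit 0)) (P (nat_lit 267356832993248)))))) (T.h (T.h (P (nat_lit 0)) (T.h (T.h (P (nat_lit 0)) (P (nat_lit 174714726643630080))) (P (nat_lit 0)))) (T.h (T.h (T.h (P (nat_lit 65260405627281211392)) (T.h (P (nat_lit 0)) (P (nat_lit 22999326338224)))) (T.h (P (nat_lit 0)) (M (nat_lit 197435484401695)))) (T.h (P (nat_lit 0)) (M (nat_lit 19026528520111)))))))), (T.h (T.h (T.h (P (nat_lit 0)) (T.h (M (nat_lit 98074772315051461801324576767)) (T.h (P (nat_lit 0)) (T.h (P (nat_lit 172399831671198820859904)) (T.h (P (nat_lit 0)) (M (nat_lit 45375358251859967))))))) (T.h (P (nat_lit 0)) (T.h (T.h (P (nat_lit 0)) (T.h (P (nat_lit 263562671525433075302400)) (T.h (P (nat_lit 0)) (M (nat_lit 441985228758188031))))) (T.h (P (nat_lit 0)) (T.h (T.h (P (nat_lit 0)) (M (nat_lit 681802411379392511))) (P (nat_lit 0))))))) (T.h (T.h (P (nat_lit 0)) (T.h (T.h (M (nat_lit 350165860970823752058142719)) (T.h (P (nat_lit 0)) (T.h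 (P (nat_lit 1119380752306257526784)) (T.h (P (nat_lit 0)) (M (nat_lit 1159348482225343)))))) (T.h (P (nat_lit 0)) (T.h (T.h (P (nat_lit 1894259260669573464064)) (T.h (P (nat_lit 0)) (M (nat_lit 124706162314815)))) (T.h (P (nat_lit 0)) (P (nat_lit 318685298309056))))))) (T.h (T.h (T.h (P (nat_lit 0)) (T.h (P (nat_lit 140016498596705176911872)) (T.h (P (nat_lit 0)) (M (nat_lit 121386703445065727))))) (T.h (P (nat_lit 0)) (T.h (T.h (P (nat_lit 0)) (P (nat_lit 1744267616311083008))) (P (nat_lit 0))))) (T.h (T.h (P (nat_lit 0)) (T.h (T.h (M (nat_lit 698795816044137021439)) (T.h (P (nat_lit 0)) (P (nat_lit 244907572009664)))) (T.h (P (nat_lit 0)) (M (nat_lit 1946552354081215))))) (T.h (T.h (T.h (P (nat_lit 0)) (P (nat_lit 292351308589072384))) (P (nat_lit 0))) (T.h (T.h (P (nat_lit 0)) (P (nat_lit 324763905492992))) (P (nat_lit 0))))))))]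
def lP11_39 : List (T ℤ) := [(T.h (T.h (T.h (P (nat_lit 38796634027665517492621264551936)) (T.h (P (nat_lit 0)) (T.h (M (nat_lit 32812070722050995209109503)) (T.h (P (nat_lit 0)) (T.h (P (nat_lit 93404293962718511104)) (T.h (P (nat_lit 0)) (M (nat_lit 26932516938623)))))))) (T.h (P (nat_lit 0)) (T.h (T.h (P (nat_lit 399485965034813344089899008)) (T.h (P (nat_lit 0)) (T.h (M (nat_lit 589529392650955784191)) (T.h (P (nat_lit 0)) (P (nat_lit 609582186284192)))))) (T.h (P (nat_lit 0)) (T.h (T.h (P (nat_lit 137018050728354119680)) (T.h (P (nat_lit 0)) (P (nat_lit 13565696746624)))) (T.h (P (nat_lit 0)) (P (nat_lit 263806942754080)))))))) (T.h (T.h (P (nat_lit 0)) (T.h (T.h (P (nat_lit 0)) (T.h (M (nat_lit 692781148150449628512255)) (T.h (P (nat_lit 0)) (P (nat_lit 3718445580558761984))))) (T.h (P (nat_lit 0)) (T.h (T.h (P (nat_lit 0)) (P (nat_lit 1182073801831809024))) (P (nat_lit 0)))))) (T.h (T.h (T.h (M (nat_lit 69277999889678387053068287)) (T.h (P (nat_lit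 0)) (T.h (P (nat_lit 85784000146832359424)) (T.h (P (nat_lit 0)) (P (nat_lit 878667806286688)))))) (T.h (P (nat_lit 0)) (T.h (T.h (P (nat_lit 508886152560569745408)) (T.h (P (nat_lit 0)) (M (nat_lit 832089301328383)))) (T.h (P (nat_lit 0)) (P (nat_lit 952341724930640)))))) (T.h (T.h (P (nat_lit 0)) (T.h (T.h (P (nat_lit 0)) (P (nat_lit 369601391268823040))) (P (nat_lit 0)))) (T.h (T.h (T.h (P (nat_lit 271688428376006066176)) (T.h (P (nat_lit 0)) (P (nat_lit 69049008754880)))) (T.h (P (nat_lit 0)) (P (nat_lit 738739416936400)))) (T.h (P (nat_lit 0)) (M (nat_lit 114019884573055)))))))), (T.h (T.h (T.h (P (nat_lit 0)) (T.h (M (nat_lit 255529338660962738839736025087)) (T.h (P (nat_lit 0)) (T.h (P (nat_lit 50964485938888510013440)) (T.h (P (nat_lit 0)) (M (nat_lit 154915058766151679))))))) (T.h (P (nat_lit 0)) (T.h (T.h (P (nat_lit 0)) (T.h (P (nat_lit 860132377404779840667648)) (T.h (P (nat_lit 0)) (P (nat_lit 94093923714170880))))) (T.h (P (nat_lit 0))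 (T.h (T.h (P (nat_lit 0)) (M (nat_lit 1313968118679699455))) (P (nat_lit 0))))))) (T.h (T.h (P (nat_lit 0)) (T.h (T.h (P (nat_lit 218953849558356455862566912)) (T.h (P (nat_lit 0)) (M (nat_lit 1633991181046271442943)))) (T.h (P (nat_lit 0)) (P (nat_lit 494716808822500884480))))) (T.h (T.h (T.h (P (nat_lit 0)) (T.h (M (nat_lit 489769467972901744410623)) (T.h (P (nat_lit 0)) (M (nat_lit 194170842044727295))))) (T.h (P (nat_lit 0)) (T.h (T.h (P (nat_lit 0)) (P (nat_lit 5035377232337993728))) (P (nat_lit 0))))) (T.h (T.h (P (nat_lit 0)) (P (nat_lit 550810061287221886976))) (T.h (T.h (T.h (P (nat_lit 0)) (M (nat_lit 607744033999290367))) (P (nat_lit 0))) (P (nat_lit 0))))))), (T.h (T.h (P (nat_lit 0)) (T.h (T.h (M (nat_lit 64992694580624542968554979327)) (T.h (P (nat_lit 0)) (T.h (P (nat_lit 220049294875900201926656)) (T.h (P (nat_lit 0)) (M (nat_lit 79078662425346047)))))) (T.h (P (nat_lit 0)) (T.h (T.h (P (nat_lit 536888143402194482233344)) (T.h (P (nat_lit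 0)) (M (nat_lit 500905265731371007)))) (T.h (P (nat_lit 0)) (M (nat_lit 1330455881578708991))))))) (T.h (T.h (T.h (P (nat_lit 0)) (T.h (M (nat_lit 151701986456157759318523903)) (T.h (P (nat_lit 0)) (T.h (P (nat_lit 136309182447111634944)) (T.h (P (nat_lit 0)) (M (nat_lit 1668342305855))))))) (T.h (P (nat_lit 0)) (T.h (T.h (P (nat_lit 0)) (T.h (M (nat_lit 487018562812427370495)) (T.h (P (nat_lit 0)) (P (nat_lit 122992583566016))))) (T.h (P (nat_lit 0)) (T.h (T.h (P (nat_lit 0)) (P (nat_lit 219151898910336))) (P (nat_lit 0))))))) (T.h (T.h (P (nat_lit 0)) (T.h (T.h (P (nat_lit 194673461557123887398912)) (T.h (P (nat_lit 0)) (M (nat_lit 881224778607362047)))) (T.h (P (nat_lit 0)) (M (nat_lit 2094652237629292543))))) (T.h (T.h (T.h (P (nat_lit 0)) (T.h (P (nat_lit 150099858493408280576)) (T.h (P (nat_lit 0)) (P (nat_lit 144458842908288))))) (T.h (P (nat_lit 0)) (T.h (T.h (P (nat_lit 0)) (M (nat_lit 250971423945791))) (P (nat_lit 0))))) (T.h (T.h (P (nat_lit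 0)) (P (nat_lit 329044677284331520))) (T.h (T.h (T.h (P (nat_lit 0)) (P (nat_lit 80404163296320))) (P (nat_lit 0))) (P (nat_lit 0)))))))), (T.h (T.h (P (nat_lit 0)) (T.h (T.h (P (nat_lit 0)) (T.h (M (nat_lit 29374776953946656814923775)) (T.h (P (nat_lit 0)) (T.h (P (nat_lit 70842641432121966592)) (T.h (P (nat_lit 0)) (M (nat_lit 114598024434607))))))) (T.h (P (nat_lit 0)) (T.h (T.h (P (nat_lit 0)) (T.h (P (nat_lit 253379174898589499392)) (T.h (P (nat_lit 0)) (P (nat_lit 59989902876640))))) (T.h (P (nat_lit 0)) (T.h (T.h (P (nat_lit 0)) (P (nat_lit 452397773839440))) (P (nat_lit 0)))))))) (T.h (T.h (T.h (P (nat_lit 60711036640982234185760505856)) (T.h (P (nat_lit 0)) (T.h (M (nat_lit 374347014059355824717823)) (T.h (P (nat_lit 0)) (P (nat_lit 177525787813904384)))))) (T.h (P (nat_lit 0)) (T.h (T.h (P (nat_lit 228668846269622621569024)) (T.h (P (nat_lit 0)) (P (nat_lit 815041908662665216)))) (T.h (P (nat_lit 0)) (M (nat_lit 3212585593987252223)))))) (T.h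 (T.h (P (nat_lit 0)) (T.h (T.h (P (nat_lit 0)) (T.h (P (nat_lit 119242113427617873920)) (T.h (P (nat_lit 0)) (M (nat_lit 683934668054703))))) (T.h (P (nat_lit 0)) (T.h (T.h (P (nat_lit 0)) (P (nat_lit 206645981930784))) (P (nat_lit 0)))))) (T.h (T.h (T.h (P (nat_lit 13739910452078637481984)) (T.h (P (nat_lit 0)) (M (nat_lit 42521404892135423)))) (T.h (P (nat_lit 0)) (M (nat_lit 1405762696350695423)))) (T.h (T.h (P (nat_lit 0)) (T.h (T.h (P (nat_lit 0)) (P (nat_lit 109147067076784))) (P (nat_lit 0)))) (P (nat_lit 181159064565923840))))))), (T.h (T.h (P (nat_lit 0)) (T.h (T.h (P (nat_lit 29157299885803956516845256704)) (T.h (P (nat_lit 0)) (T.h (M (nat_lit 20905584289755508506623)) (T.h (P (nat_lit 0)) (P (nat_lit 26676099759898624)))))) (T.h (P (nat_lit 0)) (T.h (T.h (P (nat_lit 159699944027561083797504)) (T.h (P (nat_lit 0)) (M (nat_lit 71028466476285951)))) (T.h (P (nat_lit 0)) (M (nat_lit 503793985739620351))))))) (T.h (T.h (T.h (P (nat_lit 0)) (T.h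 (M (nat_lit 164168232609423127631364095)) (T.h (P (nat_lit 0)) (M (nat_lit 422698161150862819327))))) (T.h (P (nat_lit 0)) (T.h (T.h (P (nat_lit 0)) (M (nat_lit 193277581558617735167))) (P (nat_lit 0))))) (T.h (T.h (P (nat_lit 0)) (T.h (T.h (P (nat_lit 58117647935124394737664)) (T.h (P (nat_lit 0)) (P (nat_lit 559264607064555520)))) (T.h (P (nat_lit 0)) (M (nat_lit 737488915311558655))))) (T.h (T.h (T.h (P (nat_lit 0)) (M (nat_lit 123598439709679812607))) (P (nat_lit 0))) (T.h (T.h (P (nat_lit 0)) (M (nat_lit 130608686049984511))) (P (nat_lit 0))))))), (T.h (T.h (T.h (P (nat_lit 1215232823394490558067779829760)) (T.h (P (nat_lit 0)) (T.h (M (nat_lit 4047908468901851512700927)) (T.h (P (nat_lit 0)) (T.h (P (nat_lit 12494376568308629504)) (T.h (P (nat_lit 0)) (M (nat_lit 6670524736831)))))))) (T.h (P (nat_lit 0)) (T.h (T.h (M (nat_lit 120576043976792087757586431)) (T.h (P (nat_lit 0)) (T.h (P (nat_lit 124162819783930150912)) (T.h (P (nat_lit 0)) (P (nat_lit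 28042003142032)))))) (T.h (P (nat_lit 0)) (T.h (T.h (P (nat_lit 180283347286798368768)) (T.h (P (nat_lit 0)) (M (nat_lit 278655985779071)))) (T.h (P (nat_lit 0)) (M (nat_lit 368987373836047)))))))) (T.h (T.h (P (nat_lit 0)) (T.h (T.h (P (nat_lit 0)) (T.h (M (nat_lit 522107375545829008867327)) (T.h (P (nat_lit 0)) (P (nat_lit 309096782811529216))))) (T.h (P (nat_lit 0)) (T.h (T.h (P (nat_lit 0)) (M (nat_lit 1050454184151416831))) (P (nat_lit 0)))))) (T.h (T.h (T.h (M (nat_lit 70451967772563948882100223)) (T.h (P (nat_lit 0)) (T.h (M (nat_lit 97369097250491334655)) (T.h (P (nat_lit 0)) (M (nat_lit 2255834441519)))))) (T.h (P (nat_lit 0)) (T.h (T.h (M (nat_lit 81801084817891131391)) (T.h (P (nat_lit 0)) (M (nat_lit 1091247964570191)))) (T.h (P (nat_lit 0)) (M (nat_lit 1470303372520223)))))) (T.h (T.h (P (nat_lit 0)) (T.h (T.h (P (nat_lit 0)) (P (nat_lit 524299486002118656))) (P (nat_lit 0)))) (T.h (T.h (T.h (M (nat_lit 87726526752205307903)) (T.h (P (nat_lit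 0)) (P (nat_lit 158937320446608)))) (T.h (P (nat_lit 0)) (P (nat_lit 357297547986368)))) (T.h (P (nat_lit 0)) (M (nat_lit 98794782225567)))))))), (T.h (T.h (T.h (P (nat_lit 0)) (T.h (P (nat_lit 8411699922250370099984728064)) (T.h (P (nat_lit 0)) (T.h (M (nat_lit 15846572859528663007231)) (T.h (P (nat_lit 0)) (P (nat_lit 18036071833239552))))))) (T.h (P (nat_lit 0)) (T.h (T.h (P (nat_lit 0)) (T.h (M (nat_lit 173296379375006754275327)) (T.h (P (nat_lit 0)) (M (nat_lit 35450492600254463))))) (T.h (P (nat_lit 0)) (T.h (T.h (P (nat_lit 0)) (M (nat_lit 636113391252635647))) (P (nat_lit 0))))))) (T.h (T.h (P (nat_lit 0)) (T.h (T.h (P (nat_lit 118843238548441751768530944)) (T.h (P (nat_lit 0)) (M (nat_lit 518126442618692829183)))) (T.h (P (nat_lit 0)) (P (nat_lit 2220623713047010082816))))) (T.h (T.h (T.h (P (nat_lit 0)) (T.h (M (nat_lit 119877802237292047237119)) (T.h (P (nat_lit 0)) (P (nat_lit 142248101212979200))))) (T.h (P (nat_lit 0)) (T.h (T.h (P (nat_lit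 0)) (P (nat_lit 218599629732970496))) (P (nat_lit 0))))) (T.h (T.h (P (nat_lit 0)) (P (nat_lit 331137193997825474560))) (T.h (T.h (T.h (P (nat_lit 0)) (M (nat_lit 191103879024803839))) (P (nat_lit 0))) (P (nat_lit 0))))))), (T.h (T.h (P (nat_lit 0)) (T.h (T.h (P (nat_lit 26356730760361998564510924800)) (T.h (P (nat_lit 0)) (T.h (M (nat_lit 52248917792337237639167)) (T.h (P (nat_lit 0)) (M (nat_lit 8727487955140607)))))) (T.h (P (nat_lit 0)) (T.h (T.h (M (nat_lit 257444538064454151045119)) (T.h (P (nat_lit 0)) (P (nat_lit 249507797478834176)))) (T.h (P (nat_lit 0)) (P (nat_lit 529980972688670720))))))) (T.h (T.h (T.h (P (nat_lit 0)) (T.h (P (nat_lit 113981490660604175712256000)) (T.h (P (nat_lit 0)) (M (nat_lit 88691085887297028095))))) (T.h (P (nat_lit 0)) (T.h (T.h (P (nat_lit 0)) (P (nat_lit 425660206721393491968))) (P (nat_lit 0))))) (T.h (T.h (P (nat_lit 0)) (T.h (T.h (P (nat_lit 20592938056692577337344)) (T.h (P (nat_lit 0)) (P (nat_lit 492196437663481856))))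 (T.h (P (nat_lit 0)) (P (nat_lit 1117294466800484352))))) (T.h (T.h (T.h (P (nat_lit 0)) (M (nat_lit 19070932014166179839))) (P (nat_lit 0))) (T.h (T.h (P (nat_lit 0)) (M (nat_lit 136005907965575167))) (P (nat_lit 0)))))))]
def lP11_40 : List (T ℤ) := [(P (nat_lit 0)), (P (nat_lit 0)), (T.h (T.h (P (nat_lit 0)) (T.h (T.h (P (nat_lit 0)) (T.h (P (nat_lit 4354070054196628359741440)) (T.h (P (nat_lit 0)) (T.h (M (nat_lit 23581198596863688703)) (T.h (P (nat_lit 0)) (M (nat_lit 38572669247583))))))) (T.h (P (nat_lit 0)) (T.h (T.h (P (nat_lit 0)) (T.h (M (nat_lit 7919079678348886015)) (T.h (P (nat_lit 0)) (M (nat_lit 21853032059887))))) (T.h (P (nat_lit 0)) (T.h (T.h (P (nat_lit 0)) (M (nat_lit 16789819801463))) (P (nat_lit 0)))))))) (T.h (T.h (T.h (P (nat_lit 5685019875831698336482590720)) (T.h (P (nat_lit 0)) (T.h (M (nat_lit 25833449350720953253887)) (T.h (P (nat_lit 0)) (P (nat_lit 68134088225685504)))))) (T.h (P (nat_lit 0)) (T.h (T.h (P (nat_lit 6175853262312199684096))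 (T.h (P (nat_lit 0)) (P (nat_lit 104075782460309504)))) (T.h (P (nat_lit 0)) (M (nat_lit 2208110231322623)))))) (T.h (T.h (P (nat_lit 0)) (T.h (T.h (P (nat_lit 0)) (T.h (P (nat_lit 54497507742234705920)) (T.h (P (nat_lit 0)) (M (nat_lit 92577900358719))))) (T.h (P (nat_lit 0)) (T.h (T.h (P (nat_lit 0)) (M (nat_lit 26900757114903))) (P (nat_lit 0)))))) (T.h (T.h (T.h (P (nat_lit 22558137889650198446080)) (T.h (P (nat_lit 0)) (P (nat_lit 51659034939162624)))) (T.h (P (nat_lit 0)) (M (nat_lit 22392977002594303)))) (T.h (T.h (P (nat_lit 0)) (T.h (T.h (P (nat_lit 0)) (P (nat_lit 27630245357104))) (P (nat_lit 0)))) (M (nat_lit 43592615886290943))))))), (T.h (T.h (P (nat_lit 0)) (T.h (T.h (P (nat_lit 497432562566840426191388672)) (T.h (P (nat_lit 0)) (T.h (M (nat_lit 40027040615283331956735)) (T.h (P (nat_lit 0)) (P (nat_lit 36767111433682944)))))) (T.h (P (nat_lit 0)) (T.h (T.h (P (nat_lit 2862054342291145883648)) (T.h (P (nat_lit 0)) (M (nat_lit 37782777461571583))))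 (T.h (P (nat_lit 0)) (P (nat_lit 9812205560987648))))))) (T.h (T.h (T.h (P (nat_lit 0)) (T.h (P (nat_lit 70526209065233796783144960)) (T.h (P (nat_lit 0)) (T.h (M (nat_lit 817769225884234940415)) (T.h (P (nat_lit 0)) (P (nat_lit 5629987302560))))))) (T.h (P (nat_lit 0)) (T.h (T.h (P (nat_lit 0)) (T.h (M (nat_lit 103247090398378590207)) (T.h (P (nat_lit 0)) (M (nat_lit 138743880398239))))) (T.h (P (nat_lit 0)) (T.h (T.h (P (nat_lit 0)) (P (nat_lit 33481742598912))) (P (nat_lit 0))))))) (T.h (T.h (P (nat_lit 0)) (T.h (T.h (P (nat_lit 6876364827149293584384)) (T.h (P (nat_lit 0)) (M (nat_lit 145468263997390847)))) (T.h (P (nat_lit 0)) (P (nat_lit 45885516106907648))))) (T.h (T.h (T.h (P (nat_lit 0)) (T.h (P (nat_lit 23338111321054904320)) (T.h (P (nat_lit 0)) (P (nat_lit 346327786339536))))) (T.h (P (nat_lit 0)) (T.h (T.h (P (nat_lit 0)) (P (nat_lit 18354663940000))) (P (nat_lit 0))))) (T.h (T.h (P (nat_lit 0)) (P (nat_lit 6341612324782080))) (T.h (T.h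 (T.h (P (nat_lit 0)) (M (nat_lit 20915930440255))) (P (nat_lit 0))) (P (nat_lit 0)))))))), (T.h (T.h (P (nat_lit 0)) (T.h (T.h (P (nat_lit 0)) (T.h (P (nat_lit 23381767355945894354616320)) (T.h (P (nat_lit 0)) (T.h (P (nat_lit 256980490934963666944)) (T.h (P (nat_lit 0)) (P (nat_lit 92390346224128))))))) (T.h (P (nat_lit 0)) (T.h (T.h (P (nat_lit 0)) (T.h (M (nat_lit 7445068234803380223)) (T.h (P (nat_lit 0)) (M (nat_lit 173328127994111))))) (T.h (P (nat_lit 0)) (T.h (T.h (P (nat_lit 0)) (M (nat_lit 10339465218239))) (P (nat_lit 0)))))))) (T.h (T.h (T.h (M (nat_lit 29811794875768097430166306815)) (T.h (P (nat_lit 0)) (T.h (P (nat_lit 506275462163121936793600)) (T.h (P (nat_lit 0)) (M (nat_lit 1512792907138695167)))))) (T.h (P (nat_lit 0)) (T.h (T.h (P (nat_lit 14483498916290326691840)) (T.h (P (nat_lit 0)) (M (nat_lit 163866416494804991)))) (T.h (P (nat_lit 0)) (M (nat_lit 104316820470300671)))))) (T.h (T.h (P (nat_lit 0)) (T.h (T.h (P (nat_lit 0))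 (T.h (P (nat_lit 41452185600745537536)) (T.h (P (nat_lit 0)) (P (nat_lit 323801007112640))))) (T.h (P (nat_lit 0)) (T.h (T.h (P (nat_lit 0)) (M (nat_lit 129680774576831))) (P (nat_lit 0)))))) (T.h (T.h (T.h (P (nat_lit 18779666287450602340352)) (T.h (P (nat_lit 0)) (M (nat_lit 125947280191946751)))) (T.h (P (nat_lit 0)) (M (nat_lit 66990179196731391)))) (T.h (T.h (P (nat_lit 0)) (T.h (T.h (P (nat_lit 0)) (M (nat_lit 135092302434559))) (P (nat_lit 0)))) (M (nat_lit 23750232742199295))))))), (T.h (T.h (P (nat_lit 0)) (T.h (T.h (P (nat_lit 15233738752004595955919749120)) (T.h (P (nat_lit 0)) (T.h (M (nat_lit 190912665759102877564927)) (T.h (P (nat_lit 0)) (M (nat_lit 59401021968924671)))))) (T.h (P (nat_lit 0)) (T.h (T.h (M (nat_lit 21694648982052280467455)) (T.h (P (nat_lit 0)) (P (nat_lit 117065434944339968)))) (T.h (P (nat_lit 0)) (M (nat_lit 8026129388699647))))))) (T.h (T.h (T.h (P (nat_lit 0)) (T.h (M (nat_lit 80905210978061627915501567)) (T.h (P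 (nat_lit 0)) (T.h (P (nat_lit 966498054002410782720)) (T.h (P (nat_lit 0)) (M (nat_lit 202010613196303))))))) (T.h (P (nat_lit 0)) (T.h (T.h (P (nat_lit 0)) (T.h (P (nat_lit 180384892735593644032)) (T.h (P (nat_lit 0)) (M (nat_lit 160765879742335))))) (T.h (P (nat_lit 0)) (T.h (T.h (P (nat_lit 0)) (M (nat_lit 46938132056991))) (P (nat_lit 0))))))) (T.h (T.h (P (nat_lit 0)) (T.h (T.h (M (nat_lit 50588246820526462337023)) (T.h (P (nat_lit 0)) (M (nat_lit 481125668614946815)))) (T.h (P (nat_lit 0)) (P (nat_lit 153507077665947648))))) (T.h (T.h (T.h (P (nat_lit 0)) (T.h (P (nat_lit 104709661005493305344)) (T.h (P (nat_lit 0)) (M (nat_lit 40807260833679))))) (T.h (P (nat_lit 0)) (T.h (T.h (P (nat_lit 0)) (M (nat_lit 153951304182895))) (P (nat_lit 0))))) (T.h (T.h (P (nat_lit 0)) (P (nat_lit 37657315048210432))) (T.h (T.h (T.h (P (nat_lit 0)) (P (nat_lit 9843633707952))) (P (nat_lit 0))) (P (nat_lit 0)))))))), (T.h (T.h (P (nat_lit 0)) (T.h (T.h (P (nat_lit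 0)) (T.h (P (nat_lit 68480659706341009634885632)) (T.h (P (nat_lit 0)) (M (nat_lit 76622548805082939391))))) (T.h (P (nat_lit 0)) (T.h (T.h (P (nat_lit 0)) (P (nat_lit 11930534835996590080))) (P (nat_lit 0)))))) (T.h (T.h (T.h (P (nat_lit 9479945226855203678944493568)) (T.h (P (nat_lit 0)) (T.h (M (nat_lit 252405377024740638588927)) (T.h (P (nat_lit 0)) (P (nat_lit 158948710125174784)))))) (T.h (P (nat_lit 0)) (T.h (T.h (M (nat_lit 15229871120192928481279)) (T.h (P (nat_lit 0)) (P (nat_lit 48863964941058048)))) (T.h (P (nat_lit 0)) (P (nat_lit 27031974620561408)))))) (T.h (T.h (P (nat_lit 0)) (T.h (T.h (P (nat_lit 0)) (P (nat_lit 28561419631895511040))) (P (nat_lit 0)))) (T.h (T.h (T.h (M (nat_lit 8055960460481364230143)) (T.h (P (nat_lit 0)) (M (nat_lit 73784448161644543)))) (T.h (P (nat_lit 0)) (P (nat_lit 67886065340547072)))) (T.h (P (nat_lit 0)) (M (nat_lit 3604578148319231))))))), (P (nat_lit 0))]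
def lP11_41 : List (T ℤ) := [(P (nat_lit 0)), (T.h (T.h (T.h (P (nat_lit 8948906623492049372850681806848)) (T.h (P (nat_lit 0)) (T.h (P (nat_lit 58882065422910461715677184)) (T.h (P (nat_lit 0)) (T.h (M (nat_lit 68214842172949659647)) (T.h (P (nat_lit 0)) (P (nat_lit 175710697989216)))))))) (T.h (P (nat_lit 0)) (T.h (T.h (P (nat_lit 36267432805759554466873344)) (T.h (P (nat_lit 0)) (T.h (P (nat_lit 30799174921044885504)) (T.h (P (nat_lit 0)) (P (nat_lit 105175988639904)))))) (T.h (P (nat_lit 0)) (T.h (T.h (M (nat_lit 22390230653014638591)) (T.h (P (nat_lit 0)) (M (nat_lit 53105316292191)))) (T.h (P (nat_lit 0)) (P (nat_lit 20292413701888)))))))) (T.h (T.h (P (nat_lit 0)) (T.h (T.h (P (nat_lit 0)) (T.h (P (nat_lit 310208173592460922978304)) (T.h (P (nat_lit 0)) (P (nat_lit 271959458402074624))))) (T.h (P (nat_lit 0)) (T.h (T.h (P (nat_lit 0)) (M (nat_lit 43875112969502719))) (P (nat_lit 0)))))) (T.h (T.h (T.h (M (nat_lit 4345724974159103378063359)) (T.h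 (P (nat_lit 0)) (T.h (P (nat_lit 125185706528037928960)) (T.h (P (nat_lit 0)) (M (nat_lit 1144396778049439)))))) (T.h (P (nat_lit 0)) (T.h (T.h (P (nat_lit 173799879924342849536)) (T.h (P (nat_lit 0)) (M (nat_lit 781042328595599)))) (T.h (P (nat_lit 0)) (M (nat_lit 127853412312319)))))) (T.h (T.h (P (nat_lit 0)) (T.h (T.h (P (nat_lit 0)) (P (nat_lit 427093878656663552))) (P (nat_lit 0)))) (T.h (T.h (T.h (M (nat_lit 150082100589540409343)) (T.h (P (nat_lit 0)) (M (nat_lit 1228136039916415)))) (T.h (P (nat_lit 0)) (M (nat_lit 188657044678431)))) (T.h (P (nat_lit 0)) (P (nat_lit 269274458298416)))))))), (T.h (T.h (T.h (P (nat_lit 0)) (T.h (P (nat_lit 165657683186759434277748736)) (T.h (P (nat_lit 0)) (T.h (M (nat_lit 151525430621372818653183)) (T.h (P (nat_lit 0)) (M (nat_lit 4766301716283391))))))) (T.h (P (nat_lit 0)) (T.h (T.h (P (nat_lit 0)) (T.h (M (nat_lit 9028346044505141542911)) (T.h (P (nat_lit 0)) (M (nat_lit 327822764628525055))))) (T.h (P (nat_lit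 0)) (T.h (T.h (P (nat_lit 0)) (M (nat_lit 169082224198090751))) (P (nat_lit 0))))))) (T.h (T.h (P (nat_lit 0)) (T.h (T.h (M (nat_lit 69642946525185967036301311)) (T.h (P (nat_lit 0)) (T.h (P (nat_lit 398757292396802736128)) (T.h (P (nat_lit 0)) (P (nat_lit 20469176266336)))))) (T.h (P (nat_lit 0)) (T.h (T.h (P (nat_lit 30453531548156166144)) (T.h (P (nat_lit 0)) (P (nat_lit 713975442312624)))) (T.h (P (nat_lit 0)) (M (nat_lit 22027988921247))))))) (T.h (T.h (T.h (P (nat_lit 0)) (T.h (P (nat_lit 12971391210968743673856)) (T.h (P (nat_lit 0)) (M (nat_lit 503218121177612287))))) (T.h (P (nat_lit 0)) (T.h (T.h (P (nat_lit 0)) (P (nat_lit 27697189017501696))) (P (nat_lit 0))))) (T.h (T.h (P (nat_lit 0)) (T.h (T.h (M (nat_lit 107611019278756610047)) (T.h (P (nat_lit 0)) (P (nat_lit 145511679509456)))) (T.h (P (nat_lit 0)) (M (nat_lit 45475820045455))))) (T.h (T.h (T.h (P (nat_lit 0)) (P (nat_lit 721582360884019200))) (P (nat_lit 0))) (T.h (T.h (P (nat_lit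 0)) (P (nat_lit 20495869015824))) (P (nat_lit 0)))))))), (T.h (T.h (T.h (M (nat_lit 26819273438698777877612882558975)) (T.h (P (nat_lit 0)) (T.h (P (nat_lit 94956833367416378281164800)) (T.h (P (nat_lit 0)) (T.h (M (nat_lit 105726602434612035583)) (T.h (P (nat_lit 0)) (M (nat_lit 144862093652351)))))))) (T.h (P (nat_lit 0)) (T.h (T.h (M (nat_lit 34474436911378699967791103)) (T.h (P (nat_lit 0)) (T.h (P (nat_lit 338747948474786906112)) (T.h (P (nat_lit 0)) (P (nat_lit 9606960604224)))))) (T.h (P (nat_lit 0)) (T.h (T.h (M (nat_lit 43197256603180990463)) (T.h (P (nat_lit 0)) (M (nat_lit 466928359457407)))) (T.h (P (nat_lit 0)) (P (nat_lit 15993966832384)))))))) (T.h (T.h (P (nat_lit 0)) (T.h (T.h (P (nat_lit 0)) (T.h (P (nat_lit 452762698442645379743744)) (T.h (P (nat_lit 0)) (P (nat_lit 68776434946539520))))) (T.h (P (nat_lit 0)) (T.h (T.h (P (nat_lit 0)) (M (nat_lit 568913496075010047))) (P (nat_lit 0)))))) (T.h (T.h (T.h (M (nat_lit 102711645931231509722693631))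 (T.h (P (nat_lit 0)) (T.h (M (nat_lit 534161483143095255039)) (T.h (P (nat_lit 0)) (P (nat_lit 262688387398912)))))) (T.h (P (nat_lit 0)) (T.h (T.h (P (nat_lit 358647636008428896256)) (T.h (P (nat_lit 0)) (P (nat_lit 665330991811392)))) (T.h (P (nat_lit 0)) (P (nat_lit 139694028686272)))))) (T.h (T.h (P (nat_lit 0)) (T.h (T.h (P (nat_lit 0)) (M (nat_lit 536783623510491135))) (P (nat_lit 0)))) (T.h (T.h (T.h (M (nat_lit 338273258655384076287)) (T.h (P (nat_lit 0)) (P (nat_lit 1638605785130944)))) (T.h (P (nat_lit 0)) (P (nat_lit 5134246787648)))) (T.h (P (nat_lit 0)) (M (nat_lit 176948586303359)))))))), (T.h (T.h (T.h (P (nat_lit 0)) (T.h (P (nat_lit 17704389529118597248316342272)) (T.h (P (nat_lit 0)) (T.h (M (nat_lit 80612603565561887064063)) (T.h (P (nat_lit 0)) (P (nat_lit 552199261127180288))))))) (T.h (P (nat_lit 0)) (T.h (T.h (P (nat_lit 0)) (T.h (P (nat_lit 179029490075745973698560)) (T.h (P (nat_lit 0)) (P (nat_lit 261691826528878592))))) (T.h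 (P (nat_lit 0)) (T.h (T.h (P (nat_lit 0)) (P (nat_lit 328597930403921920))) (P (nat_lit 0))))))) (T.h (T.h (P (nat_lit 0)) (T.h (T.h (P (nat_lit 90555554163492652484395008)) (T.h (P (nat_lit 0)) (T.h (P (nat_lit 38138849773442039808)) (T.h (P (nat_lit 0)) (P (nat_lit 1882318035580224)))))) (T.h (P (nat_lit 0)) (T.h (T.h (P (nat_lit 14186840661470216192)) (T.h (P (nat_lit 0)) (P (nat_lit 130585546475472)))) (T.h (P (nat_lit 0)) (P (nat_lit 110851673169776))))))) (T.h (T.h (T.h (P (nat_lit 0)) (T.h (M (nat_lit 89931286064732739469311)) (T.h (P (nat_lit 0)) (M (nat_lit 315189760276332543))))) (T.h (P (nat_lit 0)) (T.h (T.h (P (nat_lit 0)) (M (nat_lit 271088118705799167))) (P (nat_lit 0))))) (T.h (T.h (P (nat_lit 0)) (T.h (T.h (M (nat_lit 71140088274038554623)) (T.h (P (nat_lit 0)) (P (nat_lit 361794974546192)))) (T.h (P (nat_lit 0)) (M (nat_lit 25054827595247))))) (T.h (T.h (T.h (P (nat_lit 0)) (M (nat_lit 637775820071223295))) (P (nat_lit 0))) (T.h (T.h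 (P (nat_lit 0)) (P (nat_lit 172986961464416))) (P (nat_lit 0)))))))), (T.h (T.h (T.h (M (nat_lit 16610131237050969157222881296383)) (T.h (P (nat_lit 0)) (T.h (M (nat_lit 23126752110161750401220607)) (T.h (P (nat_lit 0)) (P (nat_lit 118912105825926381568)))))) (T.h (P (nat_lit 0)) (T.h (T.h (M (nat_lit 12159185391653889647837183)) (T.h (P (nat_lit 0)) (M (nat_lit 12886189783738482687)))) (T.h (P (nat_lit 0)) (M (nat_lit 8542965040104341503)))))) (T.h (T.h (P (nat_lit 0)) (T.h (T.h (P (nat_lit 0)) (T.h (P (nat_lit 170774383045035088150528)) (T.h (P (nat_lit 0)) (M (nat_lit 1474979290622656511))))) (T.h (P (nat_lit 0)) (T.h (T.h (P (nat_lit 0)) (P (nat_lit 7959988333117440))) (P (nat_lit 0)))))) (T.h (T.h (T.h (P (nat_lit 78577746382943512002822144)) (T.h (P (nat_lit 0)) (P (nat_lit 254876444120481529856)))) (T.h (P (nat_lit 0)) (M (nat_lit 26916983604714143743)))) (T.h (T.h (P (nat_lit 0)) (T.h (T.h (P (nat_lit 0)) (M (nat_lit 116902649026969599))) (P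 (nat_lit 0)))) (M (nat_lit 44363430733904084991)))))), (P (nat_lit 0)), (P (nat_lit 0))]
def lP11_42 : List (T ℤ) := [(T.h (T.h (P (nat_lit 0)) (T.h (T.h (P (nat_lit 0)) (T.h (P (nat_lit 60883256690989353754689536)) (T.h (P (nat_lit 0)) (T.h (M (nat_lit 42063747234597437439)) (T.h (P (nat_lit 0)) (M (nat_lit 1677232300423))))))) (T.h (P (nat_lit 0)) (T.h (T.h (P (nat_lit 0)) (T.h (M (nat_lit 43666829013879357439)) (T.h (P (nat_lit 0)) (P (nat_lit 100633830132304))))) (T.h (P (nat_lit 0)) (T.h (T.h (P (nat_lit 0)) (M (nat_lit 76044014823727))) (P (nat_lit 0)))))))) (T.h (T.h (T.h (P (nat_lit 44043784279207796534442721280)) (T.h (P (nat_lit 0)) (T.h (P (nat_lit 37034566795540832452608)) (T.h (P (nat_lit 0)) (P (nat_lit 104435568755769344)))))) (T.h (P (nat_lit 0)) (T.h (T.h (P (nat_lit 46838045802751248564224)) (T.h (P (nat_lit 0)) (M (nat_lit 188076409481560063)))) (T.h (P (nat_lit 0)) (M (nat_lit 75287729253220351)))))) (T.h (T.h (P (nat_lit 0)) (T.h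 (T.h (P (nat_lit 0)) (T.h (P (nat_lit 195431889491831291904)) (T.h (P (nat_lit 0)) (P (nat_lit 163138853477600))))) (T.h (P (nat_lit 0)) (T.h (T.h (P (nat_lit 0)) (M (nat_lit 303064938009303))) (P (nat_lit 0)))))) (T.h (T.h (T.h (P (nat_lit 253142148029226709680128)) (T.h (P (nat_lit 0)) (P (nat_lit 361247566721351680)))) (T.h (P (nat_lit 0)) (M (nat_lit 446840307743752191)))) (T.h (T.h (P (nat_lit 0)) (T.h (T.h (P (nat_lit 0)) (P (nat_lit 323372860184928))) (P (nat_lit 0)))) (P (nat_lit 62156344611700736))))))), (T.h (T.h (P (nat_lit 0)) (T.h (T.h (P (nat_lit 43608930294439283764622262272)) (T.h (P (nat_lit 0)) (T.h (P (nat_lit 164091087614450394464256)) (T.h (P (nat_lit 0)) (P (nat_lit 222728218553090048)))))) (T.h (P (nat_lit 0)) (T.h (T.h (M (nat_lit 100120019111155228213247)) (T.h (P (nat_lit 0)) (P (nat_lit 214091041081786368)))) (T.h (P (nat_lit 0)) (P (nat_lit 64711752328642560))))))) (T.h (T.h (T.h (P (nat_lit 0)) (T.h (P (nat_lit 68488995703743986117115904))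 (T.h (P (nat_lit 0)) (T.h (M (nat_lit 421980741775222898687)) (T.h (P (nat_lit 0)) (M (nat_lit 237472748892783))))))) (T.h (P (nat_lit 0)) (T.h (T.h (P (nat_lit 0)) (T.h (M (nat_lit 737849732724688945151)) (T.h (P (nat_lit 0)) (P (nat_lit 157340725023440))))) (T.h (P (nat_lit 0)) (T.h (T.h (P (nat_lit 0)) (P (nat_lit 388386241675200))) (P (nat_lit 0))))))) (T.h (T.h (P (nat_lit 0)) (T.h (T.h (P (nat_lit 117187682172017768923136)) (T.h (P (nat_lit 0)) (M (nat_lit 1844812118227271679)))) (T.h (P (nat_lit 0)) (P (nat_lit 130422747513307136))))) (T.h (T.h (T.h (P (nat_lit 0)) (T.h (M (nat_lit 1263088078980512743423)) (T.h (P (nat_lit 0)) (P (nat_lit 465867464498256))))) (T.h (P (nat_lit 0)) (T.h (T.h (P (nat_lit 0)) (P (nat_lit 242180685200))) (P (nat_lit 0))))) (T.h (T.h (P (nat_lit 0)) (P (nat_lit 253153717661990912))) (T.h (T.h (T.h (P (nat_lit 0)) (M (nat_lit 210926831149967))) (P (nat_lit 0))) (P (nat_lit 0)))))))), (T.h (T.h (P (nat_lit 0)) (T.h (T.h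 (P (nat_lit 0)) (T.h (P (nat_lit 166380298136373605257183232)) (T.h (P (nat_lit 0)) (T.h (M (nat_lit 211747638831982051327)) (T.h (P (nat_lit 0)) (M (nat_lit 262375974971583))))))) (T.h (P (nat_lit 0)) (T.h (T.h (P (nat_lit 0)) (T.h (P (nat_lit 606827558921878634496)) (T.h (P (nat_lit 0)) (P (nat_lit 713386573200768))))) (T.h (P (nat_lit 0)) (T.h (T.h (P (nat_lit 0)) (M (nat_lit 110394651994687))) (P (nat_lit 0)))))))) (T.h (T.h (T.h (M (nat_lit 179129466089127010116653023231)) (T.h (P (nat_lit 0)) (T.h (M (nat_lit 75495560259066698661887)) (T.h (P (nat_lit 0)) (P (nat_lit 990591122640437248)))))) (T.h (P (nat_lit 0)) (T.h (T.h (P (nat_lit 490425074098850205007872)) (T.h (P (nat_lit 0)) (P (nat_lit 2923461180412002304)))) (T.h (P (nat_lit 0)) (M (nat_lit 318881228964265983)))))) (T.h (T.h (P (nat_lit 0)) (T.h (T.h (P (nat_lit 0)) (T.h (P (nat_lit 1638052505897047949312)) (T.h (P (nat_lit 0)) (M (nat_lit 2047302296035583))))) (T.h (P (nat_lit 0)) (T.h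 (T.h (P (nat_lit 0)) (M (nat_lit 187919257376127))) (P (nat_lit 0)))))) (T.h (T.h (T.h (P (nat_lit 214622762663695834152960)) (T.h (P (nat_lit 0)) (M (nat_lit 3427589559710580735)))) (T.h (P (nat_lit 0)) (M (nat_lit 774191190274736127)))) (T.h (T.h (P (nat_lit 0)) (T.h (T.h (P (nat_lit 0)) (P (nat_lit 712602456166080))) (P (nat_lit 0)))) (M (nat_lit 1087246410095067135))))))), (T.h (T.h (P (nat_lit 0)) (T.h (T.h (P (nat_lit 18006126417590266352059285504)) (T.h (P (nat_lit 0)) (T.h (P (nat_lit 166813920078919525990400)) (T.h (P (nat_lit 0)) (P (nat_lit 260646802695290880)))))) (T.h (P (nat_lit 0)) (T.h (T.h (P (nat_lit 161363873385588098859008)) (T.h (P (nat_lit 0)) (M (nat_lit 1138641939821658111)))) (T.h (P (nat_lit 0)) (M (nat_lit 111337717693054975))))))) (T.h (T.h (T.h (P (nat_lit 0)) (T.h (M (nat_lit 174896056153274827600297983)) (T.h (P (nat_lit 0)) (T.h (M (nat_lit 659523898980142415871)) (T.h (P (nat_lit 0)) (M (nat_lit 164545574209455)))))))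 (T.h (P (nat_lit 0)) (T.h (T.h (P (nat_lit 0)) (T.h (P (nat_lit 276686059498119364608)) (T.h (P (nat_lit 0)) (P (nat_lit 313339886205808))))) (T.h (P (nat_lit 0)) (T.h (T.h (P (nat_lit 0)) (M (nat_lit 1080033671493215))) (P (nat_lit 0))))))) (T.h (T.h (P (nat_lit 0)) (T.h (T.h (P (nat_lit 240450080164787395756032)) (T.h (P (nat_lit 0)) (P (nat_lit 1658338079030738944)))) (T.h (P (nat_lit 0)) (M (nat_lit 267169269056454655))))) (T.h (T.h (T.h (P (nat_lit 0)) (T.h (P (nat_lit 993715292942115012608)) (T.h (P (nat_lit 0)) (M (nat_lit 1963943185040143))))) (T.h (P (nat_lit 0)) (T.h (T.h (P (nat_lit 0)) (P (nat_lit 818787190557248))) (P (nat_lit 0))))) (T.h (T.h (P (nat_lit 0)) (M (nat_lit 272818288546512895))) (T.h (T.h (T.h (P (nat_lit 0)) (M (nat_lit 745048353148703))) (P (nat_lit 0))) (P (nat_lit 0)))))))), (T.h (T.h (P (nat_lit 0)) (T.h (T.h (P (nat_lit 0)) (T.h (P (nat_lit 63287525629116649832448000)) (T.h (P (nat_lit 0)) (P (nat_lit 362079656861214179328)))))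 (T.h (P (nat_lit 0)) (T.h (T.h (P (nat_lit 0)) (P (nat_lit 304944548888721752064))) (P (nat_lit 0)))))) (T.h (T.h (T.h (P (nat_lit 171263728465257769697097547776)) (T.h (P (nat_lit 0)) (T.h (P (nat_lit 657067238007617789886464)) (T.h (P (nat_lit 0)) (P (nat_lit 356888115739590656)))))) (T.h (P (nat_lit 0)) (T.h (T.h (M (nat_lit 249934526859127403053055)) (T.h (P (nat_lit 0)) (M (nat_lit 376337290205331455)))) (T.h (P (nat_lit 0)) (P (nat_lit 37349099997790208)))))) (T.h (T.h (P (nat_lit 0)) (T.h (T.h (P (nat_lit 0)) (M (nat_lit 91702811927984996351))) (P (nat_lit 0)))) (T.h (T.h (T.h (M (nat_lit 167791094702386314215423)) (T.h (P (nat_lit 0)) (P (nat_lit 974299732031504384)))) (T.h (P (nat_lit 0)) (M (nat_lit 382212607032721407)))) (T.h (P (nat_lit 0)) (P (nat_lit 272696121335873536))))))), (P (nat_lit 0)), (T.h (T.h (T.h (P (nat_lit 20743555868700945240925390503936)) (T.h (P (nat_lit 0)) (T.h (M (nat_lit 14191767757941870574960639)) (T.h (P (nat_lit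 0)) (T.h (P (nat_lit 10808073746795986944)) (T.h (P (nat_lit 0)) (M (nat_lit 57073925797807)))))))) (T.h (P (nat_lit 0)) (T.h (T.h (P (nat_lit 52833143079341340567273472)) (T.h (P (nat_lit 0)) (T.h (M (nat_lit 183827353451553095679)) (T.h (P (nat_lit 0)) (M (nat_lit 222986468349919)))))) (T.h (P (nat_lit 0)) (T.h (T.h (M (nat_lit 45242550057263169535)) (T.h (P (nat_lit 0)) (M (nat_lit 160649772632287)))) (T.h (P (nat_lit 0)) (P (nat_lit 125938963766608)))))))) (T.h (T.h (P (nat_lit 0)) (T.h (T.h (P (nat_lit 0)) (T.h (P (nat_lit 132597205529526087450624)) (T.h (P (nat_lit 0)) (M (nat_lit 202785366568468479))))) (T.h (P (nat_lit 0)) (T.h (T.h (P (nat_lit 0)) (M (nat_lit 330832510011703295))) (P (nat_lit 0)))))) (T.h (T.h (T.h (M (nat_lit 126538475152262420242628607)) (T.h (P (nat_lit 0)) (T.h (P (nat_lit 217299382818360524800)) (T.h (P (nat_lit 0)) (P (nat_lit 955630288563504)))))) (T.h (P (nat_lit 0)) (T.h (T.h (M (nat_lit 6776842254796455935)) (T.h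 (P (nat_lit 0)) (M (nat_lit 678744366478943)))) (T.h (P (nat_lit 0)) (M (nat_lit 1879280720920079)))))) (T.h (T.h (P (nat_lit 0)) (T.h (T.h (P (nat_lit 0)) (P (nat_lit 625557144947785728))) (P (nat_lit 0)))) (T.h (T.h (T.h (P (nat_lit 257618270563300540416)) (T.h (P (nat_lit 0)) (P (nat_lit 348167733077024)))) (T.h (P (nat_lit 0)) (P (nat_lit 1276459735382992)))) (T.h (P (nat_lit 0)) (M (nat_lit 71435997734031)))))))), (T.h (T.h (T.h (P (nat_lit 0)) (T.h (P (nat_lit 57994180896958734397274587136)) (T.h (P (nat_lit 0)) (T.h (M (nat_lit 82052631822402672656383)) (T.h (P (nat_lit 0)) (P (nat_lit 18722625397096448))))))) (T.h (P (nat_lit 0)) (T.h (T.h (P (nat_lit 0)) (T.h (P (nat_lit 138365192951853861568512)) (T.h (P (nat_lit 0)) (P (nat_lit 271140438034104320))))) (T.h (P (nat_lit 0)) (T.h (T.h (P (nat_lit 0)) (P (nat_lit 356404639466291200))) (P (nat_lit 0))))))) (T.h (T.h (P (nat_lit 0)) (T.h (T.h (M (nat_lit 55183755610216487687553023)) (T.h (P (nat_lit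 0)) (T.h (M (nat_lit 710011158853058559999)) (T.h (P (nat_lit 0)) (P (nat_lit 359069423341744)))))) (T.h (P (nat_lit 0)) (T.h (T.h (M (nat_lit 456867531302379716607)) (T.h (P (nat_lit 0)) (P (nat_lit 155543897614848)))) (T.h (P (nat_lit 0)) (M (nat_lit 251209558520975))))))) (T.h (T.h (T.h (P (nat_lit 0)) (T.h (P (nat_lit 414021819013039906619392)) (T.h (P (nat_lit 0)) (M (nat_lit 278065717091827711))))) (T.h (P (nat_lit 0)) (T.h (T.h (P (nat_lit 0)) (M (nat_lit 2163235364009197567))) (P (nat_lit 0))))) (T.h (T.h (P (nat_lit 0)) (T.h (T.h (M (nat_lit 408267799929229934591)) (T.h (P (nat_lit 0)) (P (nat_lit 63051125709488)))) (T.h (P (nat_lit 0)) (P (nat_lit 126251188707872))))) (T.h (T.h (T.h (P (nat_lit 0)) (P (nat_lit 1427481727700271104))) (P (nat_lit 0))) (T.h (T.h (P (nat_lit 0)) (M (nat_lit 288641118537471))) (P (nat_lit 0))))))))]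
def lP11_43 : List (T ℤ) := [(T.h (T.h (T.h (P (nat_lit 8672144251072055142269421879296)) (T.h (P (nat_lit 0)) (T.h (P (nat_lit 52203338297337221887295488)) (T.h (P (nat_lit 0)) (T.h (P (nat_lit 182219310675538214912)) (T.h (P (nat_lit 0)) (P (nat_lit 138181558684160)))))))) (T.h (P (nat_lit 0)) (T.h (T.h (P (nat_lit 282432436235834643670106112)) (T.h (P (nat_lit 0)) (T.h (P (nat_lit 319235676355883433984)) (T.h (P (nat_lit 0)) (M (nat_lit 38227661955583)))))) (T.h (P (nat_lit 0)) (T.h (T.h (M (nat_lit 647444136297196683263)) (T.h (P (nat_lit 0)) (P (nat_lit 96332119943040)))) (T.h (P (nat_lit 0)) (P (nat_lit 331124111819904)))))))) (T.h (T.h (P (nat_lit 0)) (T.h (T.h (P (nat_lit 0)) (T.h (P (nat_lit 1827916960278311027605504)) (T.h (P (nat_lit 0)) (P (nat_lit 2261587329154351104))))) (T.h (P (nat_lit 0)) (T.h (T.h (P (nat_lit 0)) (M (nat_lit 2133192283411972095))) (P (nat_lit 0)))))) (T.h (T.h (T.h (M (nat_lit 98174644956404253603135487)) (T.h (P (nat_lit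 0)) (T.h (M (nat_lit 494864817962816110591)) (T.h (P (nat_lit 0)) (P (nat_lit 1595243876387712)))))) (T.h (P (nat_lit 0)) (T.h (T.h (P (nat_lit 253797208460602900480)) (T.h (P (nat_lit 0)) (M (nat_lit 1067173656779327)))) (T.h (P (nat_lit 0)) (M (nat_lit 510290268200639)))))) (T.h (T.h (P (nat_lit 0)) (T.h (T.h (P (nat_lit 0)) (P (nat_lit 1867445329870454784))) (P (nat_lit 0)))) (T.h (T.h (T.h (P (nat_lit 184313809258969825280)) (T.h (P (nat_lit 0)) (P (nat_lit 219326478655680)))) (T.h (P (nat_lit 0)) (M (nat_lit 33754948139007)))) (T.h (P (nat_lit 0)) (P (nat_lit 170268051335168)))))))), (T.h (T.h (T.h (P (nat_lit 0)) (T.h (M (nat_lit 51498733683589352236464996351)) (T.h (P (nat_lit 0)) (T.h (P (nat_lit 225288650562591942246400)) (T.h (P (nat_lit 0)) (M (nat_lit 106478721017135103))))))) (T.h (P (nat_lit 0)) (T.h (T.h (P (nat_lit 0)) (T.h (M (nat_lit 775160589488257492844543)) (T.h (P (nat_lit 0)) (P (nat_lit 682313104949608448))))) (T.h (P (nat_lit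 0)) (T.h (T.h (P (nat_lit 0)) (M (nat_lit 671799880567799807))) (P (nat_lit 0))))))) (T.h (T.h (P (nat_lit 0)) (T.h (T.h (P (nat_lit 272424232745593113487081472)) (T.h (P (nat_lit 0)) (T.h (M (nat_lit 700055577696789331967)) (T.h (P (nat_lit 0)) (P (nat_lit 834357742763952)))))) (T.h (P (nat_lit 0)) (T.h (T.h (M (nat_lit 753278779481992986623)) (T.h (P (nat_lit 0)) (M (nat_lit 4816364778717183)))) (T.h (P (nat_lit 0)) (P (nat_lit 355868859043104))))))) (T.h (T.h (T.h (P (nat_lit 0)) (T.h (M (nat_lit 121919307147249805426687)) (T.h (P (nat_lit 0)) (M (nat_lit 947020992432717823))))) (T.h (P (nat_lit 0)) (T.h (T.h (P (nat_lit 0)) (P (nat_lit 2380572877393657856))) (P (nat_lit 0))))) (T.h (T.h (P (nat_lit 0)) (T.h (T.h (M (nat_lit 786378330991149187071)) (T.h (P (nat_lit 0)) (M (nat_lit 4341126166089503)))) (T.h (P (nat_lit 0)) (P (nat_lit 373288598706320))))) (T.h (T.h (T.h (P (nat_lit 0)) (M (nat_lit 1612725140369457151))) (P (nat_lit 0))) (T.h (T.h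 (P (nat_lit 0)) (P (nat_lit 655659257804496))) (P (nat_lit 0)))))))), (T.h (T.h (T.h (P (nat_lit 9431356806008164362888463515648)) (T.h (P (nat_lit 0)) (T.h (P (nat_lit 118941544028583319870373888)) (T.h (P (nat_lit 0)) (P (nat_lit 70264016489016197120)))))) (T.h (P (nat_lit 0)) (T.h (T.h (M (nat_lit 68311294616328140016844799)) (T.h (P (nat_lit 0)) (M (nat_lit 48279662455234232319)))) (T.h (P (nat_lit 0)) (P (nat_lit 288451859077039915008)))))) (T.h (T.h (P (nat_lit 0)) (T.h (T.h (P (nat_lit 0)) (T.h (M (nat_lit 1978089946966143371575295)) (T.h (P (nat_lit 0)) (M (nat_lit 603771901767450623))))) (T.h (P (nat_lit 0)) (T.h (T.h (P (nat_lit 0)) (P (nat_lit 2720794459306983424))) (P (nat_lit 0)))))) (T.h (T.h (T.h (M (nat_lit 164393955999626290582781951)) (T.h (P (nat_lit 0)) (P (nat_lit 1310144403147484823552)))) (T.h (P (nat_lit 0)) (M (nat_lit 354375818373150801919)))) (T.h (T.h (P (nat_lit 0)) (T.h (T.h (P (nat_lit 0)) (P (nat_lit 1897252586358046720)))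 (P (nat_lit 0)))) (P (nat_lit 335746420760794628096)))))), (T.h (T.h (P (nat_lit 0)) (T.h (T.h (P (nat_lit 0)) (T.h (P (nat_lit 47619769514643203467247616)) (T.h (P (nat_lit 0)) (T.h (M (nat_lit 2943982405888770047)) (T.h (P (nat_lit 0)) (M (nat_lit 21420526282247))))))) (T.h (P (nat_lit 0)) (T.h (T.h (P (nat_lit 0)) (T.h (P (nat_lit 2296114596097818624)) (T.h (P (nat_lit 0)) (M (nat_lit 378390707617215))))) (T.h (P (nat_lit 0)) (T.h (T.h (P (nat_lit 0)) (M (nat_lit 170413629576327))) (P (nat_lit 0)))))))) (T.h (T.h (T.h (M (nat_lit 971868537751051024134569983)) (T.h (P (nat_lit 0)) (T.h (P (nat_lit 373971790970277068800)) (T.h (P (nat_lit 0)) (M (nat_lit 11433130962321407)))))) (T.h (P (nat_lit 0)) (T.h (T.h (P (nat_lit 4880592087944064401408)) (T.h (P (nat_lit 0)) (M (nat_lit 449558098796150783)))) (T.h (P (nat_lit 0)) (M (nat_lit 431268146137530367)))))) (T.h (T.h (P (nat_lit 0)) (T.h (T.h (P (nat_lit 0)) (T.h (M (nat_lit 65582464776871608319)) (T.h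 (P (nat_lit 0)) (M (nat_lit 22083636817703))))) (T.h (P (nat_lit 0)) (T.h (T.h (P (nat_lit 0)) (P (nat_lit 679026910399288))) (P (nat_lit 0)))))) (T.h (T.h (T.h (M (nat_lit 63766021657352615231487)) (T.h (P (nat_lit 0)) (P (nat_lit 295832223095455744)))) (T.h (P (nat_lit 0)) (M (nat_lit 46489590790291455)))) (T.h (T.h (P (nat_lit 0)) (T.h (T.h (P (nat_lit 0)) (M (nat_lit 541243479832879))) (P (nat_lit 0)))) (P (nat_lit 109955964714844160))))))), (T.h (T.h (P (nat_lit 0)) (T.h (T.h (P (nat_lit 15048340848273050493121462272)) (T.h (P (nat_lit 0)) (T.h (M (nat_lit 27877875879952380854271)) (T.h (P (nat_lit 0)) (M (nat_lit 29064190960107519)))))) (T.h (P (nat_lit 0)) (T.h (T.h (M (nat_lit 130595988990329117212671)) (T.h (P (nat_lit 0)) (M (nat_lit 224887851569299455)))) (T.h (P (nat_lit 0)) (M (nat_lit 40943223086841855))))))) (T.h (T.h (T.h (P (nat_lit 0)) (T.h (M (nat_lit 122789488773912644057825279)) (T.h (P (nat_lit 0)) (T.h (P (nat_lit 18904853342054252544))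 (T.h (P (nat_lit 0)) (M (nat_lit 56680728989695))))))) (T.h (P (nat_lit 0)) (T.h (T.h (P (nat_lit 0)) (T.h (P (nat_lit 323348775870054531072)) (T.h (P (nat_lit 0)) (P (nat_lit 730533278844032))))) (T.h (P (nat_lit 0)) (T.h (T.h (P (nat_lit 0)) (P (nat_lit 24634100531792))) (P (nat_lit 0))))))) (T.h (T.h (P (nat_lit 0)) (T.h (T.h (P (nat_lit 269778487436707549413376)) (T.h (P (nat_lit 0)) (M (nat_lit 436194320761815039)))) (T.h (P (nat_lit 0)) (M (nat_lit 949489363244318719))))) (T.h (T.h (T.h (P (nat_lit 0)) (T.h (M (nat_lit 70559966111708741631)) (T.h (P (nat_lit 0)) (M (nat_lit 38764309496303))))) (T.h (P (nat_lit 0)) (T.h (T.h (P (nat_lit 0)) (P (nat_lit 69576744135504))) (P (nat_lit 0))))) (T.h (T.h (P (nat_lit 0)) (P (nat_lit 1932677482355982336))) (T.h (T.h (T.h (P (nat_lit 0)) (M (nat_lit 51588431069119))) (P (nat_lit 0))) (P (nat_lit 0)))))))), (T.h (T.h (P (nat_lit 0)) (T.h (T.h (P (nat_lit 0)) (T.h (P (nat_lit 152274439347066394745241600))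 (T.h (P (nat_lit 0)) (T.h (P (nat_lit 357963800871996227584)) (T.h (P (nat_lit 0)) (M (nat_lit 89551540365695))))))) (T.h (P (nat_lit 0)) (T.h (T.h (P (nat_lit 0)) (T.h (M (nat_lit 204878908917010137087)) (T.h (P (nat_lit 0)) (P (nat_lit 372970920918720))))) (T.h (P (nat_lit 0)) (T.h (T.h (P (nat_lit 0)) (M (nat_lit 337438848760703))) (P (nat_lit 0)))))))) (T.h (T.h (T.h (M (nat_lit 60396523417661277367456235519)) (T.h (P (nat_lit 0)) (T.h (P (nat_lit 647252363648153207963648)) (T.h (P (nat_lit 0)) (P (nat_lit 543528863019859968)))))) (T.h (P (nat_lit 0)) (T.h (T.h (P (nat_lit 187537380045765723815936)) (T.h (P (nat_lit 0)) (M (nat_lit 4156243945349283839)))) (T.h (P (nat_lit 0)) (M (nat_lit 964231163423981567)))))) (T.h (T.h (P (nat_lit 0)) (T.h (T.h (P (nat_lit 0)) (T.h (P (nat_lit 488454092369736761344)) (T.h (P (nat_lit 0)) (P (nat_lit 37610081382656))))) (T.h (P (nat_lit 0)) (T.h (T.h (P (nat_lit 0)) (M (nat_lit 1451454010824831))) (P (nat_lit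 0)))))) (T.h (T.h (T.h (M (nat_lit 335287961257012828831743)) (T.h (P (nat_lit 0)) (P (nat_lit 1992973045643804672)))) (T.h (P (nat_lit 0)) (P (nat_lit 3160839316528529408)))) (T.h (T.h (P (nat_lit 0)) (T.h (T.h (P (nat_lit 0)) (M (nat_lit 123070171246079))) (P (nat_lit 0)))) (P (nat_lit 427508663967023104))))))), (T.h (T.h (P (nat_lit 0)) (T.h (T.h (M (nat_lit 74475794080812514501713723391)) (T.h (P (nat_lit 0)) (T.h (M (nat_lit 382880184728872976121855)) (T.h (P (nat_lit 0)) (M (nat_lit 876810221174358015)))))) (T.h (P (nat_lit 0)) (T.h (T.h (P (nat_lit 306858456079746235105280)) (T.h (P (nat_lit 0)) (P (nat_lit 899285264921116672)))) (T.h (P (nat_lit 0)) (M (nat_lit 300583305836429311))))))) (T.h (T.h (T.h (P (nat_lit 0)) (T.h (P (nat_lit 209858491789218732050481152)) (T.h (P (nat_lit 0)) (T.h (M (nat_lit 343672507904578027519)) (T.h (P (nat_lit 0)) (P (nat_lit 293444002755552))))))) (T.h (P (nat_lit 0)) (T.h (T.h (P (nat_lit 0)) (T.h (M (nat_lit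 278640035212979863551)) (T.h (P (nat_lit 0)) (M (nat_lit 3895056786922399))))) (T.h (P (nat_lit 0)) (T.h (T.h (P (nat_lit 0)) (M (nat_lit 64243407402943))) (P (nat_lit 0))))))) (T.h (T.h (P (nat_lit 0)) (T.h (T.h (M (nat_lit 456516344814740845887487)) (T.h (P (nat_lit 0)) (P (nat_lit 2203254695171620864)))) (T.h (P (nat_lit 0)) (P (nat_lit 27812594155913216))))) (T.h (T.h (T.h (P (nat_lit 0)) (T.h (M (nat_lit 1996911699826835455999)) (T.h (P (nat_lit 0)) (P (nat_lit 295001769853296))))) (T.h (P (nat_lit 0)) (T.h (T.h (P (nat_lit 0)) (M (nat_lit 4400504091273839))) (P (nat_lit 0))))) (T.h (T.h (P (nat_lit 0)) (M (nat_lit 343345129932554239))) (T.h (T.h (T.h (P (nat_lit 0)) (P (nat_lit 873946781694800))) (P (nat_lit 0))) (P (nat_lit 0)))))))), (T.h (T.h (P (nat_lit 0)) (T.h (T.h (P (nat_lit 0)) (T.h (P (nat_lit 84623785236052614221660160)) (T.h (P (nat_lit 0)) (P (nat_lit 104894994393145016320))))) (T.h (P (nat_lit 0)) (T.h (T.h (P (nat_lit 0)) (M (nat_lit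 194204727048037990399))) (P (nat_lit 0)))))) (T.h (T.h (T.h (M (nat_lit 330764407359453632984548114431)) (T.h (P (nat_lit 0)) (T.h (M (nat_lit 452142118375054270005247)) (T.h (P (nat_lit 0)) (M (nat_lit 743325176508481535)))))) (T.h (P (nat_lit 0)) (T.h (T.h (M (nat_lit 531165350599934173249535)) (T.h (P (nat_lit 0)) (P (nat_lit 6636718322802819072)))) (T.h (P (nat_lit 0)) (M (nat_lit 586040390698598399)))))) (T.h (T.h (P (nat_lit 0)) (T.h (T.h (P (nat_lit 0)) (M (nat_lit 2499399271706366312447))) (P (nat_lit 0)))) (T.h (T.h (T.h (P (nat_lit 274978202678897831575552)) (T.h (P (nat_lit 0)) (M (nat_lit 589104824327241727)))) (T.h (P (nat_lit 0)) (P (nat_lit 77355624508030976)))) (T.h (P (nat_lit 0)) (M (nat_lit 235436318599872511)))))))]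
def lP11_44 : List (T ℤ) := [(T.h (T.h (T.h (P (nat_lit 0)) (T.h (P (nat_lit 994865125133680852382777344)) (T.h (P (nat_lit 0)) (T.h (P (nat_lit 5724108684582291767296)) (T.h (P (nat_lit 0)) (P (nat_lit 19624411121975296))))))) (T.h (P (nat_lit 0)) (T.h (T.h (P (nat_lit 0)) (T.h (M (nat_lit 33150675788134038372351)) (T.h (P (nat_lit 0)) (P (nat_lit 8102738645336064))))) (T.h (P (nat_lit 0)) (T.h (T.h (P (nat_lit 0)) (P (nat_lit 43108723758465024))) (P (nat_lit 0))))))) (T.h (T.h (P (nat_lit 0)) (T.h (T.h (P (nat_lit 141052418130467593566289920)) (T.h (P (nat_lit 0)) (T.h (M (nat_lit 206494180796757180415)) (T.h (P (nat_lit 0)) (P (nat_lit 66963485197824)))))) (T.h (P (nat_lit 0)) (T.h (T.h (M (nat_lit 794431114563180036095)) (T.h (P (nat_lit 0)) (M (nat_lit 120389216458239)))) (T.h (P (nat_lit 0)) (M (nat_lit 15285943137695))))))) (T.h (T.h (T.h (P (nat_lit 0)) (T.h (M (nat_lit 33150675788134038372351)) (T.h (P (nat_lit 0)) (P (nat_lit 8102738645336064)))))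 (T.h (P (nat_lit 0)) (T.h (T.h (P (nat_lit 0)) (M (nat_lit 290936527994781695))) (P (nat_lit 0))))) (T.h (T.h (P (nat_lit 0)) (T.h (T.h (M (nat_lit 794431114563180036095)) (T.h (P (nat_lit 0)) (M (nat_lit 120389216458239)))) (T.h (P (nat_lit 0)) (P (nat_lit 692655572679072))))) (T.h (T.h (T.h (P (nat_lit 0)) (P (nat_lit 43108723758465024))) (P (nat_lit 0))) (T.h (T.h (P (nat_lit 0)) (M (nat_lit 15285943137695))) (P (nat_lit 0)))))))), (T.h (T.h (T.h (M (nat_lit 39469309745708086546099590922239)) (T.h (P (nat_lit 0)) (T.h (M (nat_lit 53170727737276660726104063)) (T.h (P (nat_lit 0)) (T.h (P (nat_lit 19128559476672561152)) (T.h (P (nat_lit 0)) (P (nat_lit 31987933664768)))))))) (T.h (P (nat_lit 0)) (T.h (T.h (P (nat_lit 158866437218368845248462848)) (T.h (P (nat_lit 0)) (T.h (M (nat_lit 650167948385529626623)) (T.h (P (nat_lit 0)) (M (nat_lit 327234330771135)))))) (T.h (P (nat_lit 0)) (T.h (T.h (P (nat_lit 433321781000660844544)) (T.h (P (nat_lit 0))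 (P (nat_lit 14741207391872)))) (T.h (P (nat_lit 0)) (M (nat_lit 321810679955711)))))))) (T.h (T.h (P (nat_lit 0)) (T.h (T.h (P (nat_lit 0)) (T.h (M (nat_lit 360790033318880431046655)) (T.h (P (nat_lit 0)) (P (nat_lit 403127968010862592))))) (T.h (P (nat_lit 0)) (T.h (T.h (P (nat_lit 0)) (M (nat_lit 64703321162973183))) (P (nat_lit 0)))))) (T.h (T.h (T.h (P (nat_lit 158866437218368845248462848)) (T.h (P (nat_lit 0)) (T.h (M (nat_lit 650167948385529626623)) (T.h (P (nat_lit 0)) (M (nat_lit 327234330771135)))))) (T.h (P (nat_lit 0)) (T.h (T.h (M (nat_lit 1532092211709377249279)) (T.h (P (nat_lit 0)) (P (nat_lit 1330661983622784)))) (T.h (P (nat_lit 0)) (P (nat_lit 1901294172529856)))))) (T.h (T.h (P (nat_lit 0)) (T.h (T.h (P (nat_lit 0)) (M (nat_lit 64703321162973183))) (P (nat_lit 0)))) (T.h (T.h (T.h (P (nat_lit 433321781000660844544)) (T.h (P (nat_lit 0)) (P (nat_lit 14741207391872)))) (T.h (P (nat_lit 0)) (P (nat_lit 1901294172529856)))) (T.h (P (nat_lit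 0)) (M (nat_lit 321810679955711)))))))), (T.h (T.h (T.h (P (nat_lit 0)) (T.h (P (nat_lit 31355182144734644600601313280)) (T.h (P (nat_lit 0)) (T.h (P (nat_lit 313999411273976172773376)) (T.h (P (nat_lit 0)) (M (nat_lit 219464623830532095))))))) (T.h (P (nat_lit 0)) (T.h (T.h (P (nat_lit 0)) (T.h (M (nat_lit 86814748374106722271231)) (T.h (P (nat_lit 0)) (M (nat_lit 644582546352783359))))) (T.h (P (nat_lit 0)) (T.h (T.h (P (nat_lit 0)) (P (nat_lit 278629626578894848))) (P (nat_lit 0))))))) (T.h (T.h (P (nat_lit 0)) (T.h (T.h (M (nat_lit 289142186177757444164288511)) (T.h (P (nat_lit 0)) (T.h (P (nat_lit 856394981560285134848)) (T.h (P (nat_lit 0)) (M (nat_lit 1685012039590527)))))) (T.h (P (nat_lit 0)) (T.h (T.h (M (nat_lit 753317034280701919231)) (T.h (P (nat_lit 0)) (P (nat_lit 85471751437776)))) (T.h (P (nat_lit 0)) (P (nat_lit 112935901787280))))))) (T.h (T.h (T.h (P (nat_lit 0)) (T.h (M (nat_lit 86814748374106722271231)) (T.h (P (nat_lit 0)) (M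 (nat_lit 644582546352783359))))) (T.h (P (nat_lit 0)) (T.h (T.h (P (nat_lit 0)) (P (nat_lit 856088841157214208))) (P (nat_lit 0))))) (T.h (T.h (P (nat_lit 0)) (T.h (T.h (M (nat_lit 753317034280701919231)) (T.h (P (nat_lit 0)) (P (nat_lit 85471751437776)))) (T.h (P (nat_lit 0)) (M (nat_lit 408969687426783))))) (T.h (T.h (T.h (P (nat_lit 0)) (P (nat_lit 278629626578894848))) (P (nat_lit 0))) (T.h (T.h (P (nat_lit 0)) (P (nat_lit 112935901787280))) (P (nat_lit 0)))))))), (T.h (T.h (T.h (M (nat_lit 20960660358669256065779058606079)) (T.h (P (nat_lit 0)) (T.h (M (nat_lit 196355346290537000266104831)) (T.h (P (nat_lit 0)) (P (nat_lit 492526696763886665728)))))) (T.h (P (nat_lit 0)) (T.h (T.h (P (nat_lit 86980153737672610187051008)) (T.h (P (nat_lit 0)) (M (nat_lit 95021344757118926847)))) (T.h (P (nat_lit 0)) (P (nat_lit 227044292492108234752)))))) (T.h (T.h (P (nat_lit 0)) (T.h (T.h (P (nat_lit 0)) (T.h (M (nat_lit 2599759769233193435135999)) (T.h (P (nat_lit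 0)) (P (nat_lit 4155629438799446016))))) (T.h (P (nat_lit 0)) (T.h (T.h (P (nat_lit 0)) (P (nat_lit 1654604950673948672))) (P (nat_lit 0)))))) (T.h (T.h (T.h (P (nat_lit 86980153737672610187051008)) (T.h (P (nat_lit 0)) (M (nat_lit 95021344757118926847)))) (T.h (P (nat_lit 0)) (P (nat_lit 211074811160797642752)))) (T.h (T.h (P (nat_lit 0)) (T.h (T.h (P (nat_lit 0)) (P (nat_lit 1654604950673948672))) (P (nat_lit 0)))) (P (nat_lit 227044292492108234752)))))), (T.h (T.h (P (nat_lit 0)) (T.h (T.h (P (nat_lit 0)) (T.h (P (nat_lit 91153552696466832009199616)) (T.h (P (nat_lit 0)) (T.h (M (nat_lit 103363700487176060927)) (T.h (P (nat_lit 0)) (P (nat_lit 1081390865088))))))) (T.h (P (nat_lit 0)) (T.h (T.h (P (nat_lit 0)) (T.h (M (nat_lit 315551464536024285183)) (T.h (P (nat_lit 0)) (P (nat_lit 23985942129088))))) (T.h (P (nat_lit 0)) (T.h (T.h (P (nat_lit 0)) (P (nat_lit 199717187725568))) (P (nat_lit 0)))))))) (T.h (T.h (T.h (M (nat_lit 114115918580355154959424028671))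 (T.h (P (nat_lit 0)) (T.h (M (nat_lit 6027653185679260647423)) (T.h (P (nat_lit 0)) (M (nat_lit 53385315126083583)))))) (T.h (P (nat_lit 0)) (T.h (T.h (P (nat_lit 572036271422275183443968)) (T.h (P (nat_lit 0)) (M (nat_lit 268595618393128959)))) (T.h (P (nat_lit 0)) (M (nat_lit 1331859517574512639)))))) (T.h (T.h (P (nat_lit 0)) (T.h (T.h (P (nat_lit 0)) (T.h (P (nat_lit 1459764794665597927424)) (T.h (P (nat_lit 0)) (M (nat_lit 92832310935167))))) (T.h (P (nat_lit 0)) (T.h (T.h (P (nat_lit 0)) (M (nat_lit 9669475697663))) (P (nat_lit 0)))))) (T.h (T.h (T.h (P (nat_lit 112089447587515851603968)) (T.h (P (nat_lit 0)) (P (nat_lit 334670280262942720)))) (T.h (P (nat_lit 0)) (M (nat_lit 1532950112553402367)))) (T.h (T.h (P (nat_lit 0)) (T.h (T.h (P (nat_lit 0)) (P (nat_lit 130715055319232))) (P (nat_lit 0)))) (M (nat_lit 413373386104930303))))))), (T.h (T.h (P (nat_lit 0)) (T.h (T.h (P (nat_lit 56359040998709081813865725952)) (T.h (P (nat_lit 0)) (T.h (M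 (nat_lit 219840208827757969276927)) (T.h (P (nat_lit 0)) (P (nat_lit 406190538679025664)))))) (T.h (P (nat_lit 0)) (T.h (T.h (M (nat_lit 5182703445728093536255)) (T.h (P (nat_lit 0)) (P (nat_lit 158164728763580416)))) (T.h (P (nat_lit 0)) (P (nat_lit 636571534031208448))))))) (T.h (T.h (T.h (P (nat_lit 0)) (T.h (P (nat_lit 8550202030988311838851072)) (T.h (P (nat_lit 0)) (T.h (P (nat_lit 54541647904833011712)) (T.h (P (nat_lit 0)) (M (nat_lit 60506909118655))))))) (T.h (P (nat_lit 0)) (T.h (T.h (P (nat_lit 0)) (T.h (P (nat_lit 44920798069775138816)) (T.h (P (nat_lit 0)) (M (nat_lit 495262917424703))))) (T.h (P (nat_lit 0)) (T.h (T.h (P (nat_lit 0)) (P (nat_lit 1938413165951856))) (P (nat_lit 0))))))) (T.h (T.h (P (nat_lit 0)) (T.h (T.h (P (nat_lit 164440297372771004973056)) (T.h (P (nat_lit 0)) (P (nat_lit 334274484094844928)))) (T.h (P (nat_lit 0)) (M (nat_lit 2048050955423956991))))) (T.h (T.h (T.h (P (nat_lit 0)) (T.h (M (nat_lit 63884832539831959551))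 (T.h (P (nat_lit 0)) (M (nat_lit 151252842455615))))) (T.h (P (nat_lit 0)) (T.h (T.h (P (nat_lit 0)) (P (nat_lit 211185123273696))) (P (nat_lit 0))))) (T.h (T.h (P (nat_lit 0)) (M (nat_lit 1501108471597776895))) (T.h (T.h (T.h (P (nat_lit 0)) (P (nat_lit 301418777937376))) (P (nat_lit 0))) (P (nat_lit 0)))))))), (T.h (T.h (P (nat_lit 0)) (T.h (T.h (P (nat_lit 0)) (T.h (P (nat_lit 9305928710574405995986944)) (T.h (P (nat_lit 0)) (M (nat_lit 158179161490124177407))))) (T.h (P (nat_lit 0)) (T.h (T.h (P (nat_lit 0)) (P (nat_lit 84827307486337826816))) (P (nat_lit 0)))))) (T.h (T.h (T.h (P (nat_lit 192302244859030228405919416320)) (T.h (P (nat_lit 0)) (T.h (M (nat_lit 573379693030579453820927)) (T.h (P (nat_lit 0)) (P (nat_lit 42861097446014976)))))) (T.h (P (nat_lit 0)) (T.h (T.h (P (nat_lit 855545384571982034501632)) (T.h (P (nat_lit 0)) (P (nat_lit 538726791096795136)))) (T.h (P (nat_lit 0)) (M (nat_lit 820647773044277247)))))) (T.h (T.h (P (nat_lit 0))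 (T.h (T.h (P (nat_lit 0)) (M (nat_lit 260449137613005127679))) (P (nat_lit 0)))) (T.h (T.h (T.h (P (nat_lit 165573790160568887279616)) (T.h (P (nat_lit 0)) (P (nat_lit 17145621580251136)))) (T.h (P (nat_lit 0)) (M (nat_lit 361050061496123391)))) (T.h (P (nat_lit 0)) (P (nat_lit 50225268868874240))))))), (T.h (T.h (T.h (P (nat_lit 0)) (T.h (P (nat_lit 17562274097227540007678377984)) (T.h (P (nat_lit 0)) (T.h (M (nat_lit 17330481233452267995135)) (T.h (P (nat_lit 0)) (M (nat_lit 9631535166488575))))))) (T.h (P (nat_lit 0)) (T.h (T.h (P (nat_lit 0)) (T.h (P (nat_lit 56126708549803944443904)) (T.h (P (nat_lit 0)) (M (nat_lit 263548896318324735))))) (T.h (P (nat_lit 0)) (T.h (T.h (P (nat_lit 0)) (M (nat_lit 204801578183983103))) (P (nat_lit 0))))))) (T.h (T.h (P (nat_lit 0)) (T.h (T.h (M (nat_lit 111230174042457733433655295)) (T.h (P (nat_lit 0)) (T.h (P (nat_lit 28873461453570441216)) (T.h (P (nat_lit 0)) (M (nat_lit 284465783754943)))))) (T.h (P (nat_lit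 0)) (T.h (T.h (P (nat_lit 1510252268123748040704)) (T.h (P (nat_lit 0)) (P (nat_lit 362561782920304)))) (T.h (P (nat_lit 0)) (M (nat_lit 713275527769023))))))) (T.h (T.h (T.h (P (nat_lit 0)) (T.h (P (nat_lit 196451127488380359671808)) (T.h (P (nat_lit 0)) (M (nat_lit 227107253596717055))))) (T.h (P (nat_lit 0)) (T.h (T.h (P (nat_lit 0)) (P (nat_lit 749167989837185024))) (P (nat_lit 0))))) (T.h (T.h (P (nat_lit 0)) (T.h (T.h (P (nat_lit 648463875126830563328)) (T.h (P (nat_lit 0)) (P (nat_lit 369376358479744)))) (T.h (P (nat_lit 0)) (M (nat_lit 1800265602160431))))) (T.h (T.h (T.h (P (nat_lit 0)) (M (nat_lit 107743241166847999))) (P (nat_lit 0))) (T.h (T.h (P (nat_lit 0)) (M (nat_lit 501421280864767))) (P (nat_lit 0))))))))]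
def lP11_45 : List (T ℤ) := [(T.h (T.h (T.h (P (nat_lit 3301555748291823238555111522304)) (T.h (P (nat_lit 0)) (T.h (P (nat_lit 17707193137286470468370432)) (T.h (P (nat_lit 0)) (P (nat_lit 33645545654992240640)))))) (T.h (P (nat_lit 0)) (T.h (T.h (M (nat_lit 89343034964519540850950143)) (T.h (P (nat_lit 0)) (M (nat_lit 166703257819371536383)))) (T.h (P (nat_lit 0)) (P (nat_lit 208395178204777676800)))))) (T.h (T.h (P (nat_lit 0)) (T.h (T.h (P (nat_lit 0)) (T.h (M (nat_lit 507435679304511565856767)) (T.h (P (nat_lit 0)) (P (nat_lit 650939728240377856))))) (T.h (P (nat_lit 0)) (T.h (T.h (P (nat_lit 0)) (M (nat_lit 1655541423664332799))) (P (nat_lit 0)))))) (T.h (T.h (T.h (P (nat_lit 12361463528585721553092608)) (T.h (P (nat_lit 0)) (M (nat_lit 180734051640347197439)))) (T.h (P (nat_lit 0)) (P (nat_lit 1459483441687567532032)))) (T.h (T.h (P (nat_lit 0)) (T.h (T.h (P (nat_lit 0)) (M (nat_lit 297464782068645887))) (P (nat_lit 0)))) (P (nat_lit 45119641644947210240)))))),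 (T.h (T.h (P (nat_lit 0)) (T.h (T.h (P (nat_lit 0)) (T.h (P (nat_lit 59950188819018535648886784)) (T.h (P (nat_lit 0)) (P (nat_lit 23457270302150492160))))) (T.h (P (nat_lit 0)) (T.h (T.h (P (nat_lit 0)) (P (nat_lit 48132547098284392448))) (P (nat_lit 0)))))) (T.h (T.h (T.h (P (nat_lit 46975016913352412100676288512)) (T.h (P (nat_lit 0)) (T.h (P (nat_lit 827507222453180956672)) (T.h (P (nat_lit 0)) (P (nat_lit 53802347545690112)))))) (T.h (P (nat_lit 0)) (T.h (T.h (M (nat_lit 679248079193030921289727)) (T.h (P (nat_lit 0)) (P (nat_lit 203833824419741696)))) (T.h (P (nat_lit 0)) (P (nat_lit 1211482183472513024)))))) (T.h (T.h (P (nat_lit 0)) (T.h (T.h (P (nat_lit 0)) (M (nat_lit 365620868819634356223))) (P (nat_lit 0)))) (T.h (T.h (T.h (M (nat_lit 146627091873147461304319)) (T.h (P (nat_lit 0)) (M (nat_lit 187136119205920767)))) (T.h (P (nat_lit 0)) (P (nat_lit 739440940597215232)))) (T.h (P (nat_lit 0)) (P (nat_lit 203718278836256768))))))), (P (nat_lit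 0)), (P (nat_lit 0)), (T.h (T.h (T.h (P (nat_lit 0)) (T.h (P (nat_lit 5685019875831698336482590720)) (T.h (P (nat_lit 0)) (T.h (P (nat_lit 22558137889650198446080)) (T.h (P (nat_lit 0)) (M (nat_lit 43592615886290943))))))) (T.h (P (nat_lit 0)) (T.h (T.h (P (nat_lit 0)) (T.h (P (nat_lit 6175853262312199684096)) (T.h (P (nat_lit 0)) (M (nat_lit 22392977002594303))))) (T.h (P (nat_lit 0)) (T.h (T.h (P (nat_lit 0)) (M (nat_lit 2208110231322623))) (P (nat_lit 0))))))) (T.h (T.h (P (nat_lit 0)) (T.h (T.h (P (nat_lit 4354070054196628359741440)) (T.h (P (nat_lit 0)) (T.h (P (nat_lit 54497507742234705920)) (T.h (P (nat_lit 0)) (P (nat_lit 27630245357104)))))) (T.h (P (nat_lit 0)) (T.h (T.h (M (nat_lit 7919079678348886015)) (T.h (P (nat_lit 0)) (M (nat_lit 26900757114903)))) (T.h (P (nat_lit 0)) (M (nat_lit 16789819801463))))))) (T.h (T.h (T.h (P (nat_lit 0)) (T.h (M (nat_lit 25833449350720953253887)) (T.h (P (nat_lit 0)) (P (nat_lit 51659034939162624))))) (T.h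 (P (nat_lit 0)) (T.h (T.h (P (nat_lit 0)) (P (nat_lit 104075782460309504))) (P (nat_lit 0))))) (T.h (T.h (P (nat_lit 0)) (T.h (T.h (M (nat_lit 23581198596863688703)) (T.h (P (nat_lit 0)) (M (nat_lit 92577900358719)))) (T.h (P (nat_lit 0)) (M (nat_lit 21853032059887))))) (T.h (T.h (T.h (P (nat_lit 0)) (P (nat_lit 68134088225685504))) (P (nat_lit 0))) (T.h (T.h (P (nat_lit 0)) (M (nat_lit 38572669247583))) (P (nat_lit 0)))))))), (T.h (T.h (T.h (P (nat_lit 22617088506532989352597639921664)) (T.h (P (nat_lit 0)) (T.h (P (nat_lit 8457161709171102583881728)) (T.h (P (nat_lit 0)) (T.h (P (nat_lit 74036933237223194624)) (T.h (P (nat_lit 0)) (M (nat_lit 26207854071903)))))))) (T.h (P (nat_lit 0)) (T.h (T.h (P (nat_lit 3140137524329456248815616)) (T.h (P (nat_lit 0)) (T.h (P (nat_lit 45458294552150409216)) (T.h (P (nat_lit 0)) (P (nat_lit 15164383117568)))))) (T.h (P (nat_lit 0)) (T.h (T.h (M (nat_lit 13734426222065090559)) (T.h (P (nat_lit 0)) (P (nat_lit 18863524992736))))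 (T.h (P (nat_lit 0)) (P (nat_lit 6987571952256)))))))) (T.h (T.h (P (nat_lit 0)) (T.h (T.h (P (nat_lit 0)) (T.h (P (nat_lit 436545863640585823322112)) (T.h (P (nat_lit 0)) (P (nat_lit 231010450467749888))))) (T.h (P (nat_lit 0)) (T.h (T.h (P (nat_lit 0)) (M (nat_lit 186331836287156223))) (P (nat_lit 0)))))) (T.h (T.h (T.h (P (nat_lit 8457161709171102583881728)) (T.h (P (nat_lit 0)) (T.h (P (nat_lit 101276404498535809024)) (T.h (P (nat_lit 0)) (M (nat_lit 171985111421919)))))) (T.h (P (nat_lit 0)) (T.h (T.h (P (nat_lit 45458294552150409216)) (T.h (P (nat_lit 0)) (P (nat_lit 913938109348384)))) (T.h (P (nat_lit 0)) (P (nat_lit 18863524992736)))))) (T.h (T.h (P (nat_lit 0)) (T.h (T.h (P (nat_lit 0)) (P (nat_lit 231010450467749888))) (P (nat_lit 0)))) (T.h (T.h (T.h (P (nat_lit 74036933237223194624)) (T.h (P (nat_lit 0)) (M (nat_lit 171985111421919)))) (T.h (P (nat_lit 0)) (P (nat_lit 15164383117568)))) (T.h (P (nat_lit 0)) (M (nat_lit 26207854071903)))))))),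 (T.h (T.h (T.h (P (nat_lit 0)) (T.h (P (nat_lit 46792758968280233293480198144)) (T.h (P (nat_lit 0)) (T.h (P (nat_lit 216971507881601824456704)) (T.h (P (nat_lit 0)) (P (nat_lit 11969581587103744))))))) (T.h (P (nat_lit 0)) (T.h (T.h (P (nat_lit 0)) (T.h (M (nat_lit 24332516310276678615039)) (T.h (P (nat_lit 0)) (M (nat_lit 21901407346294783))))) (T.h (P (nat_lit 0)) (T.h (T.h (P (nat_lit 0)) (P (nat_lit 116005186613870592))) (P (nat_lit 0))))))) (T.h (T.h (P (nat_lit 0)) (T.h (T.h (M (nat_lit 83626387721824454582468607)) (T.h (P (nat_lit 0)) (T.h (M (nat_lit 696900677064655372287)) (T.h (P (nat_lit 0)) (P (nat_lit 265807357753792)))))) (T.h (P (nat_lit 0)) (T.h (T.h (P (nat_lit 85766246270368743424)) (T.h (P (nat_lit 0)) (P (nat_lit 36848463641664)))) (T.h (P (nat_lit 0)) (P (nat_lit 11420856083328))))))) (T.h (T.h (T.h (P (nat_lit 0)) (T.h (M (nat_lit 125136616968347103264767)) (T.h (P (nat_lit 0)) (M (nat_lit 277069416380858367))))) (T.h (P (nat_lit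 0)) (T.h (T.h (P (nat_lit 0)) (P (nat_lit 122755825063264256))) (P (nat_lit 0))))) (T.h (T.h (P (nat_lit 0)) (T.h (T.h (M (nat_lit 94436845230223261695)) (T.h (P (nat_lit 0)) (M (nat_lit 333470482810303)))) (T.h (P (nat_lit 0)) (P (nat_lit 197314070123200))))) (T.h (T.h (T.h (P (nat_lit 0)) (P (nat_lit 265822393296289792))) (P (nat_lit 0))) (T.h (T.h (P (nat_lit 0)) (P (nat_lit 107326841501440))) (P (nat_lit 0)))))))), (T.h (T.h (T.h (P (nat_lit 90041645070864497468254453760)) (T.h (P (nat_lit 0)) (T.h (M (nat_lit 74297551689310308902371327)) (T.h (P (nat_lit 0)) (T.h (P (nat_lit 336412622550833561600)) (T.h (P (nat_lit 0)) (M (nat_lit 499469368768831)))))))) (T.h (P (nat_lit 0)) (T.h (T.h (M (nat_lit 9814911570293775350628351)) (T.h (P (nat_lit 0)) (T.h (P (nat_lit 341679502975320457216)) (T.h (P (nat_lit 0)) (M (nat_lit 311887139930959)))))) (T.h (P (nat_lit 0)) (T.h (T.h (P (nat_lit 10325048240973545472)) (T.h (P (nat_lit 0)) (P (nat_lit 45874032146976))))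 (T.h (P (nat_lit 0)) (M (nat_lit 10492294430287)))))))) (T.h (T.h (P (nat_lit 0)) (T.h (T.h (P (nat_lit 0)) (T.h (M (nat_lit 465666743731333762121727)) (T.h (P (nat_lit 0)) (M (nat_lit 1348142103835803647))))) (T.h (P (nat_lit 0)) (T.h (T.h (P (nat_lit 0)) (P (nat_lit 424906803810205696))) (P (nat_lit 0)))))) (T.h (T.h (T.h (M (nat_lit 82978344281189709284114431)) (T.h (P (nat_lit 0)) (T.h (P (nat_lit 185568451651652550656)) (T.h (P (nat_lit 0)) (M (nat_lit 1548465693749039)))))) (T.h (P (nat_lit 0)) (T.h (T.h (M (nat_lit 99246207615725731839)) (T.h (P (nat_lit 0)) (M (nat_lit 1201170315836127)))) (T.h (P (nat_lit 0)) (P (nat_lit 46870734497312)))))) (T.h (T.h (P (nat_lit 0)) (T.h (T.h (P (nat_lit 0)) (P (nat_lit 536079415609098240))) (P (nat_lit 0)))) (T.h (T.h (T.h (M (nat_lit 78420376951661264895)) (T.h (P (nat_lit 0)) (P (nat_lit 227616305269056)))) (T.h (P (nat_lit 0)) (P (nat_lit 211605099716560)))) (T.h (P (nat_lit 0)) (M (nat_lit 100380931134879))))))))]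
def lP11_46 : List (T ℤ) := [(T.h (T.h (T.h (P (nat_lit 0)) (T.h (P (nat_lit 23189883887025830961654792192)) (T.h (P (nat_lit 0)) (T.h (M (nat_lit 243099935357513639133183)) (T.h (P (nat_lit 0)) (P (nat_lit 595563394477948928))))))) (T.h (P (nat_lit 0)) (T.h (T.h (P (nat_lit 0)) (T.h (M (nat_lit 87515735663265416478719)) (T.h (P (nat_lit 0)) (P (nat_lit 262202542911520768))))) (T.h (P (nat_lit 0)) (T.h (T.h (P (nat_lit 0)) (M (nat_lit 8342794656481279))) (P (nat_lit 0))))))) (T.h (T.h (P (nat_lit 0)) (T.h (T.h (P (nat_lit 104213714518363397557321728)) (T.h (P (nat_lit 0)) (P (nat_lit 571332830943741214720)))) (T.h (P (nat_lit 0)) (M (nat_lit 99944006815716474879))))) (T.h (T.h (T.h (P (nat_lit 0)) (T.h (M (nat_lit 33956056854755006218239)) (T.h (P (nat_lit 0)) (P (nat_lit 1175977343068569600))))) (T.h (P (nat_lit 0)) (T.h (T.h (P (nat_lit 0)) (P (nat_lit 533260947869499392))) (P (nat_lit 0))))) (T.h (T.h (P (nat_lit 0)) (M (nat_lit 18889754215679262719)))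 (T.h (T.h (T.h (P (nat_lit 0)) (M (nat_lit 93919563231952895))) (P (nat_lit 0))) (P (nat_lit 0))))))), (P (nat_lit 0)), (P (nat_lit 0)), (T.h (T.h (P (nat_lit 0)) (T.h (T.h (M (nat_lit 4200348833059441627065483263)) (T.h (P (nat_lit 0)) (T.h (P (nat_lit 65771125361030157303808)) (T.h (P (nat_lit 0)) (M (nat_lit 30167563418533887)))))) (T.h (P (nat_lit 0)) (T.h (T.h (P (nat_lit 57632162401080854970368)) (T.h (P (nat_lit 0)) (P (nat_lit 6577370794098688)))) (T.h (P (nat_lit 0)) (M (nat_lit 30785319001522175))))))) (T.h (T.h (T.h (P (nat_lit 0)) (T.h (P (nat_lit 73173747939004148132872192)) (T.h (P (nat_lit 0)) (T.h (P (nat_lit 100116920423084457984)) (T.h (P (nat_lit 0)) (P (nat_lit 117991229823800))))))) (T.h (P (nat_lit 0)) (T.h (T.h (P (nat_lit 0)) (T.h (M (nat_lit 188914717246885986303)) (T.h (P (nat_lit 0)) (P (nat_lit 85922873224584))))) (T.h (P (nat_lit 0)) (T.h (T.h (P (nat_lit 0)) (P (nat_lit 150784410835384))) (P (nat_lit 0))))))) (T.h (T.h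 (P (nat_lit 0)) (T.h (T.h (P (nat_lit 69003529597436569845760)) (T.h (P (nat_lit 0)) (M (nat_lit 57670842199441407)))) (T.h (P (nat_lit 0)) (P (nat_lit 124992677276909568))))) (T.h (T.h (T.h (P (nat_lit 0)) (T.h (M (nat_lit 116599803523993960447)) (T.h (P (nat_lit 0)) (P (nat_lit 653171963338736))))) (T.h (P (nat_lit 0)) (T.h (T.h (P (nat_lit 0)) (M (nat_lit 231844959378511))) (P (nat_lit 0))))) (T.h (T.h (P (nat_lit 0)) (P (nat_lit 41492378451836928))) (T.h (T.h (T.h (P (nat_lit 0)) (M (nat_lit 337384071588415))) (P (nat_lit 0))) (P (nat_lit 0)))))))), (T.h (T.h (P (nat_lit 0)) (T.h (T.h (P (nat_lit 0)) (T.h (M (nat_lit 69642946525185967036301311)) (T.h (P (nat_lit 0)) (T.h (M (nat_lit 107611019278756610047)) (T.h (P (nat_lit 0)) (P (nat_lit 20495869015824))))))) (T.h (P (nat_lit 0)) (T.h (T.h (P (nat_lit 0)) (T.h (P (nat_lit 30453531548156166144)) (T.h (P (nat_lit 0)) (M (nat_lit 45475820045455))))) (T.h (P (nat_lit 0)) (T.h (T.h (P (nat_lit 0)) (M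 (nat_lit 22027988921247))) (P (nat_lit 0)))))))) (T.h (T.h (T.h (P (nat_lit 165657683186759434277748736)) (T.h (P (nat_lit 0)) (T.h (P (nat_lit 12971391210968743673856)) (T.h (P (nat_lit 0)) (P (nat_lit 721582360884019200)))))) (T.h (P (nat_lit 0)) (T.h (T.h (M (nat_lit 9028346044505141542911)) (T.h (P (nat_lit 0)) (P (nat_lit 27697189017501696)))) (T.h (P (nat_lit 0)) (M (nat_lit 169082224198090751)))))) (T.h (T.h (P (nat_lit 0)) (T.h (T.h (P (nat_lit 0)) (T.h (P (nat_lit 398757292396802736128)) (T.h (P (nat_lit 0)) (P (nat_lit 145511679509456))))) (T.h (P (nat_lit 0)) (T.h (T.h (P (nat_lit 0)) (P (nat_lit 713975442312624))) (P (nat_lit 0)))))) (T.h (T.h (T.h (M (nat_lit 151525430621372818653183)) (T.h (P (nat_lit 0)) (M (nat_lit 503218121177612287)))) (T.h (P (nat_lit 0)) (M (nat_lit 327822764628525055)))) (T.h (T.h (P (nat_lit 0)) (T.h (T.h (P (nat_lit 0)) (P (nat_lit 20469176266336))) (P (nat_lit 0)))) (M (nat_lit 4766301716283391))))))), (T.h (T.h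 (P (nat_lit 0)) (T.h (T.h (M (nat_lit 204624579741806548629973893119)) (T.h (P (nat_lit 0)) (T.h (P (nat_lit 372232361390405832409088)) (T.h (P (nat_lit 0)) (P (nat_lit 259054959866544128)))))) (T.h (P (nat_lit 0)) (T.h (T.h (P (nat_lit 327501886745863012745216)) (T.h (P (nat_lit 0)) (M (nat_lit 162434554484064255)))) (T.h (P (nat_lit 0)) (M (nat_lit 168862143760629759))))))) (T.h (T.h (T.h (P (nat_lit 0)) (T.h (M (nat_lit 379881761952645680249962495)) (T.h (P (nat_lit 0)) (T.h (M (nat_lit 1061532454852640112639)) (T.h (P (nat_lit 0)) (P (nat_lit 359323624798656))))))) (T.h (P (nat_lit 0)) (T.h (T.h (P (nat_lit 0)) (T.h (P (nat_lit 2192958142800296148992)) (T.h (P (nat_lit 0)) (P (nat_lit 228504705620032))))) (T.h (P (nat_lit 0)) (T.h (T.h (P (nat_lit 0)) (M (nat_lit 1123590043552511))) (P (nat_lit 0))))))) (T.h (T.h (P (nat_lit 0)) (T.h (T.h (M (nat_lit 87372054093438497325055)) (T.h (P (nat_lit 0)) (P (nat_lit 299268860508438528)))) (T.h (P (nat_lit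 0)) (M (nat_lit 118178916928159743))))) (T.h (T.h (T.h (P (nat_lit 0)) (T.h (M (nat_lit 1952937546873269387263)) (T.h (P (nat_lit 0)) (M (nat_lit 1377247444456703))))) (T.h (P (nat_lit 0)) (T.h (T.h (P (nat_lit 0)) (P (nat_lit 228504705620032))) (P (nat_lit 0))))) (T.h (T.h (P (nat_lit 0)) (P (nat_lit 506848848190963712))) (T.h (T.h (T.h (P (nat_lit 0)) (P (nat_lit 359323624798656))) (P (nat_lit 0))) (P (nat_lit 0)))))))), (T.h (T.h (P (nat_lit 0)) (T.h (T.h (P (nat_lit 0)) (T.h (M (nat_lit 82005352132504340645543935)) (T.h (P (nat_lit 0)) (T.h (P (nat_lit 7255255734206595072)) (T.h (P (nat_lit 0)) (P (nat_lit 128431816472960))))))) (T.h (P (nat_lit 0)) (T.h (T.h (P (nat_lit 0)) (T.h (P (nat_lit 40354807243362795520)) (T.h (P (nat_lit 0)) (M (nat_lit 126198014860367))))) (T.h (P (nat_lit 0)) (T.h (T.h (P (nat_lit 0)) (M (nat_lit 171358582288431))) (P (nat_lit 0)))))))) (T.h (T.h (T.h (P (nat_lit 38654651469590484565549383680)) (T.h (P (nat_lit 0)) (T.h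 (P (nat_lit 254371583437503744442368)) (T.h (P (nat_lit 0)) (M (nat_lit 863332651526553599)))))) (T.h (P (nat_lit 0)) (T.h (T.h (M (nat_lit 398869698903503942975487)) (T.h (P (nat_lit 0)) (P (nat_lit 605362602800644096)))) (T.h (P (nat_lit 0)) (P (nat_lit 77592608275103744)))))) (T.h (T.h (P (nat_lit 0)) (T.h (T.h (P (nat_lit 0)) (T.h (P (nat_lit 6781948296333099008)) (T.h (P (nat_lit 0)) (M (nat_lit 150609851272495))))) (T.h (P (nat_lit 0)) (T.h (T.h (P (nat_lit 0)) (M (nat_lit 625848463900175))) (P (nat_lit 0)))))) (T.h (T.h (T.h (P (nat_lit 75429900119833793527808)) (T.h (P (nat_lit 0)) (M (nat_lit 1732861195147624447)))) (T.h (P (nat_lit 0)) (M (nat_lit 103527097765298175)))) (T.h (T.h (P (nat_lit 0)) (T.h (T.h (P (nat_lit 0)) (P (nat_lit 56095130371632))) (P (nat_lit 0)))) (P (nat_lit 84372272904028160))))))), (T.h (T.h (P (nat_lit 0)) (T.h (T.h (P (nat_lit 12264306295860865433992167424)) (T.h (P (nat_lit 0)) (T.h (P (nat_lit 72151306072020993703936))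 (T.h (P (nat_lit 0)) (M (nat_lit 353876310217654271)))))) (T.h (P (nat_lit 0)) (T.h (T.h (M (nat_lit 38351697694890571857919)) (T.h (P (nat_lit 0)) (P (nat_lit 12011030252027904)))) (T.h (P (nat_lit 0)) (P (nat_lit 22986133075853312))))))) (T.h (T.h (T.h (P (nat_lit 0)) (T.h (P (nat_lit 178450648329772352166428672)) (T.h (P (nat_lit 0)) (P (nat_lit 468182160841962946560))))) (T.h (P (nat_lit 0)) (T.h (T.h (P (nat_lit 0)) (M (nat_lit 632434394254251393023))) (P (nat_lit 0))))) (T.h (T.h (P (nat_lit 0)) (T.h (T.h (M (nat_lit 126715159606584970051583)) (T.h (P (nat_lit 0)) (P (nat_lit 329315656024653824)))) (T.h (P (nat_lit 0)) (P (nat_lit 95609950710071296))))) (T.h (T.h (T.h (P (nat_lit 0)) (P (nat_lit 312703088898592473088))) (P (nat_lit 0))) (T.h (T.h (P (nat_lit 0)) (M (nat_lit 250273072803250175))) (P (nat_lit 0)))))))]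
def lP11_47 : List (T ℤ) := [(P (nat_lit 0)), (T.h (T.h (T.h (P (nat_lit 0)) (T.h (M (nat_lit 86394741291898989137845288959)) (T.h (P (nat_lit 0)) (T.h (P (nat_lit 185869005889168557998080)) (T.h (P (nat_lit 0)) (M (nat_lit 22397046942760959))))))) (T.h (P (nat_lit 0)) (T.h (T.h (P (nat_lit 0)) (T.h (M (nat_lit 2285398374446989836287)) (T.h (P (nat_lit 0)) (P (nat_lit 29521778791677952))))) (T.h (P (nat_lit 0)) (T.h (T.h (P (nat_lit 0)) (M (nat_lit 16100912104275967))) (P (nat_lit 0))))))) (T.h (T.h (P (nat_lit 0)) (T.h (T.h (M (nat_lit 66250249002747418730561535)) (T.h (P (nat_lit 0)) (T.h (P (nat_lit 92667667655465893888)) (T.h (P (nat_lit 0)) (M (nat_lit 48648137756583)))))) (T.h (P (nat_lit 0)) (T.h (T.h (P (nat_lit 56213929714272698368)) (T.h (P (nat_lit 0)) (M (nat_lit 145406365404319)))) (T.h (P (nat_lit 0)) (M (nat_lit 57593272112311))))))) (T.h (T.h (T.h (P (nat_lit 0)) (T.h (P (nat_lit 64179087763474688770048)) (T.h (P (nat_lit 0)) (P (nat_lit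 393699495897628672))))) (T.h (P (nat_lit 0)) (T.h (T.h (P (nat_lit 0)) (P (nat_lit 504104890202783744))) (P (nat_lit 0))))) (T.h (T.h (P (nat_lit 0)) (T.h (T.h (M (nat_lit 607715442782195679231)) (T.h (P (nat_lit 0)) (P (nat_lit 979698769586624)))) (T.h (P (nat_lit 0)) (P (nat_lit 587132495999520))))) (T.h (T.h (T.h (P (nat_lit 0)) (P (nat_lit 172348565131526144))) (P (nat_lit 0))) (T.h (T.h (P (nat_lit 0)) (P (nat_lit 88901919179672))) (P (nat_lit 0)))))))), (T.h (T.h (T.h (P (nat_lit 35763778438839474111552782598144)) (T.h (P (nat_lit 0)) (T.h (P (nat_lit 45855112878953748190199808)) (T.h (P (nat_lit 0)) (T.h (M (nat_lit 64739422656691961855)) (T.h (P (nat_lit 0)) (P (nat_lit 42385473734928)))))))) (T.h (P (nat_lit 0)) (T.h (T.h (P (nat_lit 62908317290420788462092288)) (T.h (P (nat_lit 0)) (T.h (P (nat_lit 70650706991859630080)) (T.h (P (nat_lit 0)) (P (nat_lit 15312055836880)))))) (T.h (P (nat_lit 0)) (T.h (T.h (M (nat_lit 57603208335696330751))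 (T.h (P (nat_lit 0)) (P (nat_lit 15255379029152)))) (T.h (P (nat_lit 0)) (P (nat_lit 32945360427664)))))))) (T.h (T.h (P (nat_lit 0)) (T.h (T.h (P (nat_lit 0)) (T.h (M (nat_lit 147716331585670091898879)) (T.h (P (nat_lit 0)) (M (nat_lit 333823299870392319))))) (T.h (P (nat_lit 0)) (T.h (T.h (P (nat_lit 0)) (M (nat_lit 206444453519196159))) (P (nat_lit 0)))))) (T.h (T.h (T.h (P (nat_lit 8198616929308593589583872)) (T.h (P (nat_lit 0)) (T.h (P (nat_lit 215847434356724334592)) (T.h (P (nat_lit 0)) (M (nat_lit 180962749714879)))))) (T.h (P (nat_lit 0)) (T.h (T.h (P (nat_lit 353244082825657843712)) (T.h (P (nat_lit 0)) (P (nat_lit 156438964797936)))) (T.h (P (nat_lit 0)) (M (nat_lit 182864937772351)))))) (T.h (T.h (P (nat_lit 0)) (T.h (T.h (P (nat_lit 0)) (M (nat_lit 16079452893478911))) (P (nat_lit 0)))) (T.h (T.h (T.h (M (nat_lit 134717203391828721663)) (T.h (P (nat_lit 0)) (P (nat_lit 380097074482736)))) (T.h (P (nat_lit 0)) (P (nat_lit 6561020761648))))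 (T.h (P (nat_lit 0)) (P (nat_lit 47152487959216)))))))), (T.h (T.h (T.h (P (nat_lit 0)) (T.h (M (nat_lit 124477985577735391278752858111)) (T.h (P (nat_lit 0)) (T.h (P (nat_lit 59189811737287431553024)) (T.h (P (nat_lit 0)) (M (nat_lit 270573737504702463))))))) (T.h (P (nat_lit 0)) (T.h (T.h (P (nat_lit 0)) (T.h (P (nat_lit 419296220032527832711168)) (T.h (P (nat_lit 0)) (P (nat_lit 134802808153112576))))) (T.h (P (nat_lit 0)) (T.h (T.h (P (nat_lit 0)) (M (nat_lit 33893754375471103))) (P (nat_lit 0))))))) (T.h (T.h (P (nat_lit 0)) (T.h (T.h (M (nat_lit 106522973782614029300137983)) (T.h (P (nat_lit 0)) (T.h (P (nat_lit 297710025940637057024)) (T.h (P (nat_lit 0)) (P (nat_lit 311702795977728)))))) (T.h (P (nat_lit 0)) (T.h (T.h (P (nat_lit 826922131149048250368)) (T.h (P (nat_lit 0)) (M (nat_lit 354448495594623)))) (T.h (P (nat_lit 0)) (M (nat_lit 132154973296255))))))) (T.h (T.h (T.h (P (nat_lit 0)) (T.h (M (nat_lit 1388976807923062988079103)) (T.h (P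 (nat_lit 0)) (M (nat_lit 700169144483577855))))) (T.h (P (nat_lit 0)) (T.h (T.h (P (nat_lit 0)) (P (nat_lit 1657989522486427648))) (P (nat_lit 0))))) (T.h (T.h (P (nat_lit 0)) (T.h (T.h (M (nat_lit 1085227718858225221631)) (T.h (P (nat_lit 0)) (M (nat_lit 1390030806112639)))) (T.h (P (nat_lit 0)) (P (nat_lit 342744375083456))))) (T.h (T.h (T.h (P (nat_lit 0)) (P (nat_lit 1734122613999009792))) (P (nat_lit 0))) (T.h (T.h (P (nat_lit 0)) (M (nat_lit 277312470248895))) (P (nat_lit 0)))))))), (T.h (T.h (T.h (P (nat_lit 29133889140904033940829913481216)) (T.h (P (nat_lit 0)) (T.h (M (nat_lit 78259562126569195421302783)) (T.h (P (nat_lit 0)) (T.h (P (nat_lit 184012764304375808000)) (T.h (P (nat_lit 0)) (M (nat_lit 166012573297471)))))))) (T.h (P (nat_lit 0)) (T.h (T.h (P (nat_lit 31369799751954130356142080)) (T.h (P (nat_lit 0)) (T.h (M (nat_lit 160797060183757946879)) (T.h (P (nat_lit 0)) (P (nat_lit 164939948929712)))))) (T.h (P (nat_lit 0)) (T.h (T.h (P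 (nat_lit 94474055083723063296)) (T.h (P (nat_lit 0)) (P (nat_lit 809824381242272)))) (T.h (P (nat_lit 0)) (P (nat_lit 10963431041552)))))))) (T.h (T.h (P (nat_lit 0)) (T.h (T.h (P (nat_lit 0)) (T.h (M (nat_lit 1555406208796902731808767)) (T.h (P (nat_lit 0)) (P (nat_lit 1311042492508045312))))) (T.h (P (nat_lit 0)) (T.h (T.h (P (nat_lit 0)) (P (nat_lit 4548714069999091712))) (P (nat_lit 0)))))) (T.h (T.h (T.h (M (nat_lit 69578769534689795039559679)) (T.h (P (nat_lit 0)) (T.h (P (nat_lit 1222433144295145865216)) (T.h (P (nat_lit 0)) (P (nat_lit 1119727182666224)))))) (T.h (P (nat_lit 0)) (T.h (T.h (P (nat_lit 280128650407288242176)) (T.h (P (nat_lit 0)) (M (nat_lit 3579213217635615)))) (T.h (P (nat_lit 0)) (P (nat_lit 808827678891936)))))) (T.h (T.h (P (nat_lit 0)) (T.h (T.h (P (nat_lit 0)) (M (nat_lit 573179026936856575))) (P (nat_lit 0)))) (T.h (T.h (T.h (P (nat_lit 598845763806870634496)) (T.h (P (nat_lit 0)) (M (nat_lit 656354816351871)))) (T.h (P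 (nat_lit 0)) (M (nat_lit 358552290717807)))) (T.h (P (nat_lit 0)) (M (nat_lit 565101010931423)))))))), (T.h (T.h (T.h (P (nat_lit 0)) (T.h (P (nat_lit 96028659766766875552285458432)) (T.h (P (nat_lit 0)) (T.h (P (nat_lit 56222622037623007346688)) (T.h (P (nat_lit 0)) (P (nat_lit 192174861502152704))))))) (T.h (P (nat_lit 0)) (T.h (T.h (P (nat_lit 0)) (T.h (M (nat_lit 291330409486159831891967)) (T.h (P (nat_lit 0)) (M (nat_lit 110686140479963135))))) (T.h (P (nat_lit 0)) (T.h (T.h (P (nat_lit 0)) (P (nat_lit 59052743298482176))) (P (nat_lit 0))))))) (T.h (T.h (P (nat_lit 0)) (T.h (T.h (M (nat_lit 71042538693187191808458751)) (T.h (P (nat_lit 0)) (M (nat_lit 957110902588079865855)))) (T.h (P (nat_lit 0)) (M (nat_lit 440070239446538125311))))) (T.h (T.h (T.h (P (nat_lit 0)) (T.h (M (nat_lit 655207257772216320786431)) (T.h (P (nat_lit 0)) (P (nat_lit 291100983990091776))))) (T.h (P (nat_lit 0)) (T.h (T.h (P (nat_lit 0)) (P (nat_lit 1225003800259493888)))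 (P (nat_lit 0))))) (T.h (T.h (P (nat_lit 0)) (M (nat_lit 27742157568141688831))) (T.h (T.h (T.h (P (nat_lit 0)) (P (nat_lit 927531057910808576))) (P (nat_lit 0))) (P (nat_lit 0))))))), (T.h (T.h (P (nat_lit 0)) (T.h (T.h (P (nat_lit 11226552536872670058376069120)) (T.h (P (nat_lit 0)) (T.h (M (nat_lit 24366320025064756477951)) (T.h (P (nat_lit 0)) (M (nat_lit 3433990289195007)))))) (T.h (P (nat_lit 0)) (T.h (T.h (P (nat_lit 1558477172255024480256)) (T.h (P (nat_lit 0)) (P (nat_lit 27845166307540992)))) (T.h (P (nat_lit 0)) (P (nat_lit 2267793512923136))))))) (T.h (T.h (T.h (P (nat_lit 0)) (T.h (M (nat_lit 71440463722844327224803327)) (T.h (P (nat_lit 0)) (T.h (P (nat_lit 21808900994653749248)) (T.h (P (nat_lit 0)) (P (nat_lit 40951311509944))))))) (T.h (P (nat_lit 0)) (T.h (T.h (P (nat_lit 0)) (T.h (M (nat_lit 84152052307019694079)) (T.h (P (nat_lit 0)) (P (nat_lit 290397087801984))))) (T.h (P (nat_lit 0)) (T.h (T.h (P (nat_lit 0)) (P (nat_lit 268620149612704)))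 (P (nat_lit 0))))))) (T.h (T.h (P (nat_lit 0)) (T.h (T.h (M (nat_lit 70320940951416229330943)) (T.h (P (nat_lit 0)) (P (nat_lit 258372745212231680)))) (T.h (P (nat_lit 0)) (P (nat_lit 237438564384833536))))) (T.h (T.h (T.h (P (nat_lit 0)) (T.h (M (nat_lit 80031877047164862463)) (T.h (P (nat_lit 0)) (P (nat_lit 389423140897216))))) (T.h (P (nat_lit 0)) (T.h (T.h (P (nat_lit 0)) (M (nat_lit 521677075544719))) (P (nat_lit 0))))) (T.h (T.h (P (nat_lit 0)) (P (nat_lit 784923959251894272))) (T.h (T.h (T.h (P (nat_lit 0)) (M (nat_lit 109931233387399))) (P (nat_lit 0))) (P (nat_lit 0)))))))), (T.h (T.h (P (nat_lit 0)) (T.h (T.h (P (nat_lit 0)) (T.h (M (nat_lit 58203737701095949077577727)) (T.h (P (nat_lit 0)) (T.h (P (nat_lit 4847334080368345088)) (T.h (P (nat_lit 0)) (M (nat_lit 31387440768655))))))) (T.h (P (nat_lit 0)) (T.h (T.h (P (nat_lit 0)) (T.h (M (nat_lit 133217216746544431103)) (T.h (P (nat_lit 0)) (M (nat_lit 54556795947023))))) (T.h (P (nat_lit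 0)) (T.h (T.h (P (nat_lit 0)) (P (nat_lit 11136417168416))) (P (nat_lit 0)))))))) (T.h (T.h (T.h (M (nat_lit 10402984587407102940117204991)) (T.h (P (nat_lit 0)) (T.h (M (nat_lit 848513532839329791999)) (T.h (P (nat_lit 0)) (M (nat_lit 126801206378053631)))))) (T.h (P (nat_lit 0)) (T.h (T.h (P (nat_lit 21151223722634555424768)) (T.h (P (nat_lit 0)) (M (nat_lit 56093100908691455)))) (T.h (P (nat_lit 0)) (P (nat_lit 763863378704056320)))))) (T.h (T.h (P (nat_lit 0)) (T.h (T.h (P (nat_lit 0)) (T.h (P (nat_lit 565831284812098306048)) (T.h (P (nat_lit 0)) (P (nat_lit 727644225495696))))) (T.h (P (nat_lit 0)) (T.h (T.h (P (nat_lit 0)) (P (nat_lit 159180462692528))) (P (nat_lit 0)))))) (T.h (T.h (T.h (M (nat_lit 11263133419063654481919)) (T.h (P (nat_lit 0)) (M (nat_lit 201426014826168319)))) (T.h (P (nat_lit 0)) (M (nat_lit 376821371375255551)))) (T.h (T.h (P (nat_lit 0)) (T.h (T.h (P (nat_lit 0)) (M (nat_lit 195979018621535))) (P (nat_lit 0)))) (M (nat_lit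 268098932714143743)))))))]
def lP11_48 : List (T ℤ) := [(T.h (T.h (P (nat_lit 0)) (T.h (T.h (M (nat_lit 202341610778254602853670715391)) (T.h (P (nat_lit 0)) (T.h (P (nat_lit 358977257559124955103232)) (T.h (P (nat_lit 0)) (P (nat_lit 164258997652750336)))))) (T.h (P (nat_lit 0)) (T.h (T.h (P (nat_lit 161510812024141449789440)) (T.h (P (nat_lit 0)) (M (nat_lit 53510967238000639)))) (T.h (P (nat_lit 0)) (M (nat_lit 268069805626327039))))))) (T.h (T.h (T.h (P (nat_lit 0)) (T.h (P (nat_lit 124450535264434341185323008)) (T.h (P (nat_lit 0)) (T.h (M (nat_lit 1587920065444525899775)) (T.h (P (nat_lit 0)) (M (nat_lit 156375227383679))))))) (T.h (P (nat_lit 0)) (T.h (T.h (P (nat_lit 0)) (T.h (P (nat_lit 561249849141891170304)) (T.h (P (nat_lit 0)) (M (nat_lit 208364854628159))))) (T.h (P (nat_lit 0)) (T.h (T.h (P (nat_lit 0)) (P (nat_lit 411036659739456))) (P (nat_lit 0))))))) (T.h (T.h (P (nat_lit 0)) (T.h (T.h (M (nat_lit 1597998801319966791434239)) (T.h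 (P (nat_lit 0)) (P (nat_lit 288359306200940544)))) (T.h (P (nat_lit 0)) (M (nat_lit 1110157451269832703))))) (T.h (T.h (T.h (P (nat_lit 0)) (T.h (P (nat_lit 1322793846230740893696)) (T.h (P (nat_lit 0)) (M (nat_lit 53232406546943))))) (T.h (P (nat_lit 0)) (T.h (T.h (P (nat_lit 0)) (M (nat_lit 2067042681160127))) (P (nat_lit 0))))) (T.h (T.h (P (nat_lit 0)) (M (nat_lit 3893759105025802239))) (T.h (T.h (T.h (P (nat_lit 0)) (M (nat_lit 410341142962623))) (P (nat_lit 0))) (P (nat_lit 0)))))))), (T.h (T.h (P (nat_lit 0)) (T.h (T.h (P (nat_lit 0)) (T.h (P (nat_lit 444985139041590106617020416)) (T.h (P (nat_lit 0)) (T.h (M (nat_lit 864773674999394336767)) (T.h (P (nat_lit 0)) (P (nat_lit 700214402795952))))))) (T.h (P (nat_lit 0)) (T.h (T.h (P (nat_lit 0)) (T.h (M (nat_lit 779446746063885565951)) (T.h (P (nat_lit 0)) (P (nat_lit 474431785971440))))) (T.h (P (nat_lit 0)) (T.h (T.h (P (nat_lit 0)) (P (nat_lit 638079114501312))) (P (nat_lit 0)))))))) (T.h (T.h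 (T.h (M (nat_lit 72448995624061239553698037759)) (T.h (P (nat_lit 0)) (T.h (M (nat_lit 466222176649486289338367)) (T.h (P (nat_lit 0)) (M (nat_lit 1387168308914126847)))))) (T.h (P (nat_lit 0)) (T.h (T.h (M (nat_lit 197261400509007576170495)) (T.h (P (nat_lit 0)) (P (nat_lit 1504122155887214592)))) (T.h (P (nat_lit 0)) (M (nat_lit 420794558438981631)))))) (T.h (T.h (P (nat_lit 0)) (T.h (T.h (P (nat_lit 0)) (T.h (M (nat_lit 668698676219680391167)) (T.h (P (nat_lit 0)) (M (nat_lit 3828721340270815))))) (T.h (P (nat_lit 0)) (T.h (T.h (P (nat_lit 0)) (M (nat_lit 4059930768341535))) (P (nat_lit 0)))))) (T.h (T.h (T.h (P (nat_lit 69246146877196261654528)) (T.h (P (nat_lit 0)) (P (nat_lit 470650442438574080)))) (T.h (P (nat_lit 0)) (P (nat_lit 1047532029243785216)))) (T.h (T.h (P (nat_lit 0)) (T.h (T.h (P (nat_lit 0)) (P (nat_lit 2660580647972544))) (P (nat_lit 0)))) (P (nat_lit 361348267206017024))))))), (T.h (T.h (P (nat_lit 0)) (T.h (T.h (M (nat_lit 377033689143862434681109610495))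 (T.h (P (nat_lit 0)) (T.h (M (nat_lit 350492722377713201971199)) (T.h (P (nat_lit 0)) (M (nat_lit 868595833875202047)))))) (T.h (P (nat_lit 0)) (T.h (T.h (P (nat_lit 41832751533718155296768)) (T.h (P (nat_lit 0)) (P (nat_lit 28629531151597568)))) (T.h (P (nat_lit 0)) (M (nat_lit 197302190041595903))))))) (T.h (T.h (T.h (P (nat_lit 0)) (T.h (P (nat_lit 325586501371689684210548736)) (T.h (P (nat_lit 0)) (P (nat_lit 570095336763246510080))))) (T.h (P (nat_lit 0)) (T.h (T.h (P (nat_lit 0)) (M (nat_lit 2568905051824067706879))) (P (nat_lit 0))))) (T.h (T.h (P (nat_lit 0)) (T.h (T.h (M (nat_lit 151626256699107238215679)) (T.h (P (nat_lit 0)) (P (nat_lit 5896000038046662656)))) (T.h (P (nat_lit 0)) (M (nat_lit 54969389306445823))))) (T.h (T.h (T.h (P (nat_lit 0)) (P (nat_lit 725574408706616983552))) (P (nat_lit 0))) (T.h (T.h (P (nat_lit 0)) (M (nat_lit 972199071289606143))) (P (nat_lit 0))))))), (T.h (T.h (T.h (P (nat_lit 37789302293090339039328761544704))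 (T.h (P (nat_lit 0)) (T.h (P (nat_lit 1929188324096542337138688)) (T.h (P (nat_lit 0)) (T.h (M (nat_lit 15374739511011442687)) (T.h (P (nat_lit 0)) (P (nat_lit 4728784196784)))))))) (T.h (P (nat_lit 0)) (T.h (T.h (M (nat_lit 9806991902528851599687679)) (T.h (P (nat_lit 0)) (T.h (P (nat_lit 44014770381303840768)) (T.h (P (nat_lit 0)) (P (nat_lit 26641791405664)))))) (T.h (P (nat_lit 0)) (T.h (T.h (P (nat_lit 65260405627281211392)) (T.h (P (nat_lit 0)) (P (nat_lit 22999326338224)))) (T.h (P (nat_lit 0)) (M (nat_lit 19026528520111)))))))) (T.h (T.h (P (nat_lit 0)) (T.h (T.h (P (nat_lit 0)) (T.h (P (nat_lit 438616123670500871241728)) (T.h (P (nat_lit 0)) (M (nat_lit 115248713760079871))))) (T.h (P (nat_lit 0)) (T.h (T.h (P (nat_lit 0)) (P (nat_lit 174714726643630080))) (P (nat_lit 0)))))) (T.h (T.h (T.h (P (nat_lit 29832145418423820380798976)) (T.h (P (nat_lit 0)) (T.h (P (nat_lit 150275231753586081792)) (T.h (P (nat_lit 0)) (M (nat_lit 8489036044511))))))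 (T.h (P (nat_lit 0)) (T.h (T.h (P (nat_lit 68696693231037972480)) (T.h (P (nat_lit 0)) (P (nat_lit 911509870941168)))) (T.h (P (nat_lit 0)) (M (nat_lit 197435484401695)))))) (T.h (T.h (P (nat_lit 0)) (T.h (T.h (P (nat_lit 0)) (P (nat_lit 415635564448546816))) (P (nat_lit 0)))) (T.h (T.h (T.h (P (nat_lit 26671585795212574720)) (T.h (P (nat_lit 0)) (P (nat_lit 80970273811648)))) (T.h (P (nat_lit 0)) (P (nat_lit 267356832993248)))) (T.h (P (nat_lit 0)) (P (nat_lit 37151644471216)))))))), (T.h (T.h (T.h (P (nat_lit 0)) (T.h (M (nat_lit 98074772315051461801324576767)) (T.h (P (nat_lit 0)) (T.h (P (nat_lit 172399831671198820859904)) (T.h (P (nat_lit 0)) (M (nat_lit 45375358251859967))))))) (T.h (P (nat_lit 0)) (T.h (T.h (P (nat_lit 0)) (T.h (P (nat_lit 140016498596705176911872)) (T.h (P (nat_lit 0)) (M (nat_lit 121386703445065727))))) (T.h (P (nat_lit 0)) (T.h (T.h (P (nat_lit 0)) (P (nat_lit 292351308589072384))) (P (nat_lit 0))))))) (T.h (T.h (P (nat_lit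 0)) (T.h (T.h (M (nat_lit 350165860970823752058142719)) (T.h (P (nat_lit 0)) (T.h (P (nat_lit 1119380752306257526784)) (T.h (P (nat_lit 0)) (M (nat_lit 1159348482225343)))))) (T.h (P (nat_lit 0)) (T.h (T.h (M (nat_lit 698795816044137021439)) (T.h (P (nat_lit 0)) (P (nat_lit 244907572009664)))) (T.h (P (nat_lit 0)) (P (nat_lit 324763905492992))))))) (T.h (T.h (T.h (P (nat_lit 0)) (T.h (P (nat_lit 263562671525433075302400)) (T.h (P (nat_lit 0)) (M (nat_lit 441985228758188031))))) (T.h (P (nat_lit 0)) (T.h (T.h (P (nat_lit 0)) (P (nat_lit 1744267616311083008))) (P (nat_lit 0))))) (T.h (T.h (P (nat_lit 0)) (T.h (T.h (P (nat_lit 1894259260669573464064)) (T.h (P (nat_lit 0)) (M (nat_lit 124706162314815)))) (T.h (P (nat_lit 0)) (M (nat_lit 1946552354081215))))) (T.h (T.h (T.h (P (nat_lit 0)) (M (nat_lit 681802411379392511))) (P (nat_lit 0))) (T.h (T.h (P (nat_lit 0)) (P (nat_lit 318685298309056))) (P (nat_lit 0)))))))), (T.h (T.h (T.h (P (nat_lit 38796634027665517492621264551936))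 (T.h (P (nat_lit 0)) (T.h (M (nat_lit 32812070722050995209109503)) (T.h (P (nat_lit 0)) (T.h (P (nat_lit 93404293962718511104)) (T.h (P (nat_lit 0)) (M (nat_lit 26932516938623)))))))) (T.h (P (nat_lit 0)) (T.h (T.h (M (nat_lit 69277999889678387053068287)) (T.h (P (nat_lit 0)) (T.h (P (nat_lit 85784000146832359424)) (T.h (P (nat_lit 0)) (P (nat_lit 878667806286688)))))) (T.h (P (nat_lit 0)) (T.h (T.h (P (nat_lit 271688428376006066176)) (T.h (P (nat_lit 0)) (P (nat_lit 69049008754880)))) (T.h (P (nat_lit 0)) (M (nat_lit 114019884573055)))))))) (T.h (T.h (P (nat_lit 0)) (T.h (T.h (P (nat_lit 0)) (T.h (M (nat_lit 692781148150449628512255)) (T.h (P (nat_lit 0)) (P (nat_lit 3718445580558761984))))) (T.h (P (nat_lit 0)) (T.h (T.h (P (nat_lit 0)) (P (nat_lit 369601391268823040))) (P (nat_lit 0)))))) (T.h (T.h (T.h (P (nat_lit 399485965034813344089899008)) (T.h (P (nat_lit 0)) (T.h (M (nat_lit 589529392650955784191)) (T.h (P (nat_lit 0)) (P (nat_lit 609582186284192))))))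 (T.h (P (nat_lit 0)) (T.h (T.h (P (nat_lit 508886152560569745408)) (T.h (P (nat_lit 0)) (M (nat_lit 832089301328383)))) (T.h (P (nat_lit 0)) (P (nat_lit 738739416936400)))))) (T.h (T.h (P (nat_lit 0)) (T.h (T.h (P (nat_lit 0)) (P (nat_lit 1182073801831809024))) (P (nat_lit 0)))) (T.h (T.h (T.h (P (nat_lit 137018050728354119680)) (T.h (P (nat_lit 0)) (P (nat_lit 13565696746624)))) (T.h (P (nat_lit 0)) (P (nat_lit 952341724930640)))) (T.h (P (nat_lit 0)) (P (nat_lit 263806942754080)))))))), (T.h (T.h (T.h (P (nat_lit 0)) (T.h (M (nat_lit 255529338660962738839736025087)) (T.h (P (nat_lit 0)) (T.h (P (nat_lit 50964485938888510013440)) (T.h (P (nat_lit 0)) (M (nat_lit 154915058766151679))))))) (T.h (P (nat_lit 0)) (T.h (T.h (P (nat_lit 0)) (T.h (M (nat_lit 489769467972901744410623)) (T.h (P (nat_lit 0)) (M (nat_lit 194170842044727295))))) (T.h (P (nat_lit 0)) (T.h (T.h (P (nat_lit 0)) (M (nat_lit 607744033999290367))) (P (nat_lit 0))))))) (T.h (T.h (P (nat_lit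 0)) (T.h (T.h (P (nat_lit 218953849558356455862566912)) (T.h (P (nat_lit 0)) (M (nat_lit 1633991181046271442943)))) (T.h (P (nat_lit 0)) (P (nat_lit 550810061287221886976))))) (T.h (T.h (T.h (P (nat_lit 0)) (T.h (P (nat_lit 860132377404779840667648)) (T.h (P (nat_lit 0)) (P (nat_lit 94093923714170880))))) (T.h (P (nat_lit 0)) (T.h (T.h (P (nat_lit 0)) (P (nat_lit 5035377232337993728))) (P (nat_lit 0))))) (T.h (T.h (P (nat_lit 0)) (P (nat_lit 494716808822500884480))) (T.h (T.h (T.h (P (nat_lit 0)) (M (nat_lit 1313968118679699455))) (P (nat_lit 0))) (P (nat_lit 0))))))), (T.h (T.h (P (nat_lit 0)) (T.h (T.h (M (nat_lit 114115918580355154959424028671)) (T.h (P (nat_lit 0)) (T.h (M (nat_lit 6027653185679260647423)) (T.h (P (nat_lit 0)) (M (nat_lit 53385315126083583)))))) (T.h (P (nat_lit 0)) (T.h (T.h (P (nat_lit 112089447587515851603968)) (T.h (P (nat_lit 0)) (P (nat_lit 334670280262942720)))) (T.h (P (nat_lit 0)) (M (nat_lit 413373386104930303))))))) (T.h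 (T.h (T.h (P (nat_lit 0)) (T.h (P (nat_lit 91153552696466832009199616)) (T.h (P (nat_lit 0)) (T.h (M (nat_lit 103363700487176060927)) (T.h (P (nat_lit 0)) (P (nat_lit 1081390865088))))))) (T.h (P (nat_lit 0)) (T.h (T.h (P (nat_lit 0)) (T.h (P (nat_lit 1459764794665597927424)) (T.h (P (nat_lit 0)) (M (nat_lit 92832310935167))))) (T.h (P (nat_lit 0)) (T.h (T.h (P (nat_lit 0)) (P (nat_lit 130715055319232))) (P (nat_lit 0))))))) (T.h (T.h (P (nat_lit 0)) (T.h (T.h (P (nat_lit 572036271422275183443968)) (T.h (P (nat_lit 0)) (M (nat_lit 268595618393128959)))) (T.h (P (nat_lit 0)) (M (nat_lit 1532950112553402367))))) (T.h (T.h (T.h (P (nat_lit 0)) (T.h (M (nat_lit 315551464536024285183)) (T.h (P (nat_lit 0)) (P (nat_lit 23985942129088))))) (T.h (P (nat_lit 0)) (T.h (T.h (P (nat_lit 0)) (M (nat_lit 9669475697663))) (P (nat_lit 0))))) (T.h (T.h (P (nat_lit 0)) (M (nat_lit 1331859517574512639))) (T.h (T.h (T.h (P (nat_lit 0)) (P (nat_lit 199717187725568))) (P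 (nat_lit 0))) (P (nat_lit 0))))))))]
def lP11_49 : List (T ℤ) := [(T.h (T.h (P (nat_lit 0)) (T.h (T.h (P (nat_lit 0)) (T.h (P (nat_lit 8550202030988311838851072)) (T.h (P (nat_lit 0)) (T.h (P (nat_lit 54541647904833011712)) (T.h (P (nat_lit 0)) (M (nat_lit 60506909118655))))))) (T.h (P (nat_lit 0)) (T.h (T.h (P (nat_lit 0)) (T.h (M (nat_lit 63884832539831959551)) (T.h (P (nat_lit 0)) (M (nat_lit 151252842455615))))) (T.h (P (nat_lit 0)) (T.h (T.h (P (nat_lit 0)) (P (nat_lit 301418777937376))) (P (nat_lit 0)))))))) (T.h (T.h (T.h (P (nat_lit 56359040998709081813865725952)) (T.h (P (nat_lit 0)) (T.h (M (nat_lit 219840208827757969276927)) (T.h (P (nat_lit 0)) (P (nat_lit 406190538679025664)))))) (T.h (P (nat_lit 0)) (T.h (T.h (P (nat_lit 164440297372771004973056)) (T.h (P (nat_lit 0)) (P (nat_lit 334274484094844928)))) (T.h (P (nat_lit 0)) (M (nat_lit 1501108471597776895)))))) (T.h (T.h (P (nat_lit 0)) (T.h (T.h (P (nat_lit 0)) (T.h (P (nat_lit 44920798069775138816))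 (T.h (P (nat_lit 0)) (M (nat_lit 495262917424703))))) (T.h (P (nat_lit 0)) (T.h (T.h (P (nat_lit 0)) (P (nat_lit 211185123273696))) (P (nat_lit 0)))))) (T.h (T.h (T.h (M (nat_lit 5182703445728093536255)) (T.h (P (nat_lit 0)) (P (nat_lit 158164728763580416)))) (T.h (P (nat_lit 0)) (M (nat_lit 2048050955423956991)))) (T.h (T.h (P (nat_lit 0)) (T.h (T.h (P (nat_lit 0)) (P (nat_lit 1938413165951856))) (P (nat_lit 0)))) (P (nat_lit 636571534031208448))))))), (T.h (T.h (P (nat_lit 0)) (T.h (T.h (P (nat_lit 192302244859030228405919416320)) (T.h (P (nat_lit 0)) (T.h (M (nat_lit 573379693030579453820927)) (T.h (P (nat_lit 0)) (P (nat_lit 42861097446014976)))))) (T.h (P (nat_lit 0)) (T.h (T.h (P (nat_lit 165573790160568887279616)) (T.h (P (nat_lit 0)) (P (nat_lit 17145621580251136)))) (T.h (P (nat_lit 0)) (P (nat_lit 50225268868874240))))))) (T.h (T.h (T.h (P (nat_lit 0)) (T.h (P (nat_lit 9305928710574405995986944)) (T.h (P (nat_lit 0)) (M (nat_lit 158179161490124177407)))))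 (T.h (P (nat_lit 0)) (T.h (T.h (P (nat_lit 0)) (M (nat_lit 260449137613005127679))) (P (nat_lit 0))))) (T.h (T.h (P (nat_lit 0)) (T.h (T.h (P (nat_lit 855545384571982034501632)) (T.h (P (nat_lit 0)) (P (nat_lit 538726791096795136)))) (T.h (P (nat_lit 0)) (M (nat_lit 361050061496123391))))) (T.h (T.h (T.h (P (nat_lit 0)) (P (nat_lit 84827307486337826816))) (P (nat_lit 0))) (T.h (T.h (P (nat_lit 0)) (M (nat_lit 820647773044277247))) (P (nat_lit 0))))))), (T.h (T.h (T.h (P (nat_lit 180083290141728994936508907520)) (T.h (P (nat_lit 0)) (T.h (M (nat_lit 19629823140587550701256703)) (T.h (P (nat_lit 0)) (T.h (P (nat_lit 20650096481947090944)) (T.h (P (nat_lit 0)) (M (nat_lit 20984588860575)))))))) (T.h (P (nat_lit 0)) (T.h (T.h (M (nat_lit 157275895970500018186485759)) (T.h (P (nat_lit 0)) (T.h (P (nat_lit 242433295359594725376)) (T.h (P (nat_lit 0)) (P (nat_lit 92744766644288)))))) (T.h (P (nat_lit 0)) (T.h (T.h (P (nat_lit 257992245599172296704)) (T.h (P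 (nat_lit 0)) (M (nat_lit 100282040214399)))) (T.h (P (nat_lit 0)) (M (nat_lit 599850299903711)))))))) (T.h (T.h (P (nat_lit 0)) (T.h (T.h (P (nat_lit 0)) (T.h (M (nat_lit 931333487462667524243455)) (T.h (P (nat_lit 0)) (P (nat_lit 849813607620411392))))) (T.h (P (nat_lit 0)) (T.h (T.h (P (nat_lit 0)) (M (nat_lit 812062688226705407))) (P (nat_lit 0)))))) (T.h (T.h (T.h (M (nat_lit 157275895970500018186485759)) (T.h (P (nat_lit 0)) (T.h (P (nat_lit 242433295359594725376)) (T.h (P (nat_lit 0)) (P (nat_lit 92744766644288)))))) (T.h (P (nat_lit 0)) (T.h (T.h (P (nat_lit 371136903303305101312)) (T.h (P (nat_lit 0)) (M (nat_lit 2402340631672255)))) (T.h (P (nat_lit 0)) (M (nat_lit 1320849388479983)))))) (T.h (T.h (P (nat_lit 0)) (T.h (T.h (P (nat_lit 0)) (M (nat_lit 812062688226705407))) (P (nat_lit 0)))) (T.h (T.h (T.h (P (nat_lit 257992245599172296704)) (T.h (P (nat_lit 0)) (M (nat_lit 100282040214399)))) (T.h (P (nat_lit 0)) (M (nat_lit 1320849388479983))))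 (T.h (P (nat_lit 0)) (M (nat_lit 599850299903711)))))))), (T.h (T.h (T.h (P (nat_lit 0)) (T.h (P (nat_lit 24528612591721730867984334848)) (T.h (P (nat_lit 0)) (T.h (M (nat_lit 76703395389781143715839)) (T.h (P (nat_lit 0)) (P (nat_lit 45972266151706624))))))) (T.h (P (nat_lit 0)) (T.h (T.h (P (nat_lit 0)) (T.h (M (nat_lit 54563853534563976347647)) (T.h (P (nat_lit 0)) (P (nat_lit 107620980962099200))))) (T.h (P (nat_lit 0)) (T.h (T.h (P (nat_lit 0)) (M (nat_lit 604149383020904447))) (P (nat_lit 0))))))) (T.h (T.h (P (nat_lit 0)) (T.h (T.h (P (nat_lit 356901296659544704332857344)) (T.h (P (nat_lit 0)) (M (nat_lit 1264868788508502786047)))) (T.h (P (nat_lit 0)) (P (nat_lit 780885249740555419648))))) (T.h (T.h (T.h (P (nat_lit 0)) (T.h (M (nat_lit 54563853534563976347647)) (T.h (P (nat_lit 0)) (P (nat_lit 107620980962099200))))) (T.h (P (nat_lit 0)) (T.h (T.h (P (nat_lit 0)) (P (nat_lit 658631312049307648))) (P (nat_lit 0))))) (T.h (T.h (P (nat_lit 0))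 (P (nat_lit 780885249740555419648))) (T.h (T.h (T.h (P (nat_lit 0)) (M (nat_lit 604149383020904447))) (P (nat_lit 0))) (P (nat_lit 0))))))), (T.h (T.h (P (nat_lit 0)) (T.h (T.h (P (nat_lit 60684955573523039383386587136)) (T.h (P (nat_lit 0)) (T.h (M (nat_lit 71458357320619307040767)) (T.h (P (nat_lit 0)) (P (nat_lit 18427578268647424)))))) (T.h (P (nat_lit 0)) (T.h (T.h (M (nat_lit 381671066770179736207359)) (T.h (P (nat_lit 0)) (P (nat_lit 7180358365052928)))) (T.h (P (nat_lit 0)) (P (nat_lit 802886251462524928))))))) (T.h (T.h (T.h (P (nat_lit 0)) (T.h (P (nat_lit 95683243631040923571322880)) (T.h (P (nat_lit 0)) (M (nat_lit 88417271349562572799))))) (T.h (P (nat_lit 0)) (T.h (T.h (P (nat_lit 0)) (P (nat_lit 177150542492211347456))) (P (nat_lit 0))))) (T.h (T.h (P (nat_lit 0)) (T.h (T.h (M (nat_lit 460798759023045288919039)) (T.h (P (nat_lit 0)) (P (nat_lit 688230807348183040)))) (T.h (P (nat_lit 0)) (P (nat_lit 1989202731827429376))))) (T.h (T.h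 (T.h (P (nat_lit 0)) (P (nat_lit 105865341687688069120))) (P (nat_lit 0))) (T.h (T.h (P (nat_lit 0)) (P (nat_lit 958613910115385344))) (P (nat_lit 0))))))), (P (nat_lit 0)), (P (nat_lit 0)), (T.h (T.h (P (nat_lit 0)) (T.h (T.h (P (nat_lit 0)) (T.h (P (nat_lit 1387203145980497050468352)) (T.h (P (nat_lit 0)) (T.h (P (nat_lit 5129996790287826944)) (T.h (P (nat_lit 0)) (M (nat_lit 5667384178967))))))) (T.h (P (nat_lit 0)) (T.h (T.h (P (nat_lit 0)) (T.h (M (nat_lit 3278463469824770047)) (T.h (P (nat_lit 0)) (P (nat_lit 5615599430704))))) (T.h (P (nat_lit 0)) (T.h (T.h (P (nat_lit 0)) (P (nat_lit 15368633917056))) (P (nat_lit 0)))))))) (T.h (T.h (T.h (M (nat_lit 12684840511315129229494976511)) (T.h (P (nat_lit 0)) (T.h (P (nat_lit 4077642440654830174208)) (T.h (P (nat_lit 0)) (M (nat_lit 4290026769317887)))))) (T.h (P (nat_lit 0)) (T.h (T.h (M (nat_lit 7879741752788425637887)) (T.h (P (nat_lit 0)) (P (nat_lit 3910183346012160)))) (T.h (P (nat_lit 0)) (P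 (nat_lit 9953376213958656)))))) (T.h (T.h (P (nat_lit 0)) (T.h (T.h (P (nat_lit 0)) (T.h (P (nat_lit 7509937226516529152)) (T.h (P (nat_lit 0)) (P (nat_lit 80491955580040))))) (T.h (P (nat_lit 0)) (T.h (T.h (P (nat_lit 0)) (M (nat_lit 24712533350719))) (P (nat_lit 0)))))) (T.h (T.h (T.h (M (nat_lit 53016593064264569192447)) (T.h (P (nat_lit 0)) (P (nat_lit 42281672534786048)))) (T.h (P (nat_lit 0)) (M (nat_lit 7310596866047999)))) (T.h (T.h (P (nat_lit 0)) (T.h (T.h (P (nat_lit 0)) (M (nat_lit 18001481031807))) (P (nat_lit 0)))) (P (nat_lit 2782105205997568)))))))]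
def lP11_50 : List (T ℤ) := [(T.h (T.h (P (nat_lit 0)) (T.h (T.h (P (nat_lit 497432562566840426191388672)) (T.h (P (nat_lit 0)) (T.h (P (nat_lit 6876364827149293584384)) (T.h (P (nat_lit 0)) (P (nat_lit 6341612324782080)))))) (T.h (P (nat_lit 0)) (T.h (T.h (P (nat_lit 2862054342291145883648)) (T.h (P (nat_lit 0)) (P (nat_lit 45885516106907648)))) (T.h (P (nat_lit 0)) (P (nat_lit 9812205560987648))))))) (T.h (T.h (T.h (P (nat_lit 0)) (T.h (P (nat_lit 70526209065233796783144960)) (T.h (P (nat_lit 0)) (T.h (P (nat_lit 23338111321054904320)) (T.h (P (nat_lit 0)) (M (nat_lit 20915930440255))))))) (T.h (P (nat_lit 0)) (T.h (T.h (P (nat_lit 0)) (T.h (M (nat_lit 103247090398378590207)) (T.h (P (nat_lit 0)) (P (nat_lit 18354663940000))))) (T.h (P (nat_lit 0)) (T.h (T.h (P (nat_lit 0)) (P (nat_lit 33481742598912))) (P (nat_lit 0))))))) (T.h (T.h (P (nat_lit 0)) (T.h (T.h (M (nat_lit 40027040615283331956735)) (T.h (P (nat_lit 0)) (M (nat_lit 145468263997390847))))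 (T.h (P (nat_lit 0)) (M (nat_lit 37782777461571583))))) (T.h (T.h (T.h (P (nat_lit 0)) (T.h (M (nat_lit 817769225884234940415)) (T.h (P (nat_lit 0)) (P (nat_lit 346327786339536))))) (T.h (P (nat_lit 0)) (T.h (T.h (P (nat_lit 0)) (M (nat_lit 138743880398239))) (P (nat_lit 0))))) (T.h (T.h (P (nat_lit 0)) (P (nat_lit 36767111433682944))) (T.h (T.h (T.h (P (nat_lit 0)) (P (nat_lit 5629987302560))) (P (nat_lit 0))) (P (nat_lit 0)))))))), (T.h (T.h (P (nat_lit 0)) (T.h (T.h (P (nat_lit 0)) (T.h (M (nat_lit 83626387721824454582468607)) (T.h (P (nat_lit 0)) (T.h (M (nat_lit 94436845230223261695)) (T.h (P (nat_lit 0)) (P (nat_lit 107326841501440))))))) (T.h (P (nat_lit 0)) (T.h (T.h (P (nat_lit 0)) (T.h (P (nat_lit 85766246270368743424)) (T.h (P (nat_lit 0)) (P (nat_lit 197314070123200))))) (T.h (P (nat_lit 0)) (T.h (T.h (P (nat_lit 0)) (P (nat_lit 11420856083328))) (P (nat_lit 0)))))))) (T.h (T.h (T.h (P (nat_lit 46792758968280233293480198144)) (T.h (P (nat_lit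 0)) (T.h (M (nat_lit 125136616968347103264767)) (T.h (P (nat_lit 0)) (P (nat_lit 265822393296289792)))))) (T.h (P (nat_lit 0)) (T.h (T.h (M (nat_lit 24332516310276678615039)) (T.h (P (nat_lit 0)) (P (nat_lit 122755825063264256)))) (T.h (P (nat_lit 0)) (P (nat_lit 116005186613870592)))))) (T.h (T.h (P (nat_lit 0)) (T.h (T.h (P (nat_lit 0)) (T.h (M (nat_lit 696900677064655372287)) (T.h (P (nat_lit 0)) (M (nat_lit 333470482810303))))) (T.h (P (nat_lit 0)) (T.h (T.h (P (nat_lit 0)) (P (nat_lit 36848463641664))) (P (nat_lit 0)))))) (T.h (T.h (T.h (P (nat_lit 216971507881601824456704)) (T.h (P (nat_lit 0)) (M (nat_lit 277069416380858367)))) (T.h (P (nat_lit 0)) (M (nat_lit 21901407346294783)))) (T.h (T.h (P (nat_lit 0)) (T.h (T.h (P (nat_lit 0)) (P (nat_lit 265807357753792))) (P (nat_lit 0)))) (P (nat_lit 11969581587103744))))))), (T.h (T.h (P (nat_lit 0)) (T.h (T.h (P (nat_lit 2328535345222944051758628864)) (T.h (P (nat_lit 0)) (T.h (P (nat_lit 247039374308906822008832))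 (T.h (P (nat_lit 0)) (M (nat_lit 145400556215058431)))))) (T.h (P (nat_lit 0)) (T.h (T.h (P (nat_lit 4364167748600012472320)) (T.h (P (nat_lit 0)) (M (nat_lit 380614331262664703)))) (T.h (P (nat_lit 0)) (M (nat_lit 1605405777788927))))))) (T.h (T.h (T.h (P (nat_lit 0)) (T.h (M (nat_lit 30324963064396105518153727)) (T.h (P (nat_lit 0)) (T.h (P (nat_lit 543754214121337257984)) (T.h (P (nat_lit 0)) (M (nat_lit 511264914572719))))))) (T.h (P (nat_lit 0)) (T.h (T.h (P (nat_lit 0)) (T.h (M (nat_lit 151511431282023202815)) (T.h (P (nat_lit 0)) (P (nat_lit 523327662662640))))) (T.h (P (nat_lit 0)) (T.h (T.h (P (nat_lit 0)) (M (nat_lit 237527651697951))) (P (nat_lit 0))))))) (T.h (T.h (P (nat_lit 0)) (T.h (T.h (P (nat_lit 247039374308906822008832)) (T.h (P (nat_lit 0)) (P (nat_lit 1230293658452131840)))) (T.h (P (nat_lit 0)) (M (nat_lit 380614331262664703))))) (T.h (T.h (T.h (P (nat_lit 0)) (T.h (P (nat_lit 543754214121337257984)) (T.h (P (nat_lit 0)) (M (nat_lit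 1759458341326751))))) (T.h (P (nat_lit 0)) (T.h (T.h (P (nat_lit 0)) (P (nat_lit 523327662662640))) (P (nat_lit 0))))) (T.h (T.h (P (nat_lit 0)) (M (nat_lit 145400556215058431))) (T.h (T.h (T.h (P (nat_lit 0)) (M (nat_lit 511264914572719))) (P (nat_lit 0))) (P (nat_lit 0)))))))), (T.h (T.h (P (nat_lit 0)) (T.h (T.h (P (nat_lit 0)) (T.h (M (nat_lit 8530470887322473985998847)) (T.h (P (nat_lit 0)) (P (nat_lit 124755095903367331840))))) (T.h (P (nat_lit 0)) (T.h (T.h (P (nat_lit 0)) (P (nat_lit 11526735466153902080))) (P (nat_lit 0)))))) (T.h (T.h (T.h (P (nat_lit 37495071686497208421731794944)) (T.h (P (nat_lit 0)) (T.h (M (nat_lit 426842702168290282700799)) (T.h (P (nat_lit 0)) (P (nat_lit 1052533473347338240)))))) (T.h (P (nat_lit 0)) (T.h (T.h (P (nat_lit 16057378342646109437952)) (T.h (P (nat_lit 0)) (P (nat_lit 154969859478683648)))) (T.h (P (nat_lit 0)) (P (nat_lit 26770372925128704)))))) (T.h (T.h (P (nat_lit 0)) (T.h (T.h (P (nat_lit 0)) (M (nat_lit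 394182288451529867263))) (P (nat_lit 0)))) (T.h (T.h (T.h (M (nat_lit 138571131412666097074175)) (T.h (P (nat_lit 0)) (P (nat_lit 813225388758859776)))) (T.h (P (nat_lit 0)) (M (nat_lit 255022184546467839)))) (T.h (P (nat_lit 0)) (P (nat_lit 207322856984576000))))))), (P (nat_lit 0)), (T.h (T.h (T.h (M (nat_lit 2690135357055830871430104350719)) (T.h (P (nat_lit 0)) (T.h (P (nat_lit 14384806625130163086557184)) (T.h (P (nat_lit 0)) (T.h (M (nat_lit 38373990668330598399)) (T.h (P (nat_lit 0)) (P (nat_lit 47418413224544)))))))) (T.h (P (nat_lit 0)) (T.h (T.h (P (nat_lit 16316861935119989947236352)) (T.h (P (nat_lit 0)) (T.h (P (nat_lit 5131986785001275392)) (T.h (P (nat_lit 0)) (P (nat_lit 45051490068976)))))) (T.h (P (nat_lit 0)) (T.h (T.h (M (nat_lit 1828277438623252479)) (T.h (P (nat_lit 0)) (P (nat_lit 48382225412400)))) (T.h (P (nat_lit 0)) (P (nat_lit 18111614746944)))))))) (T.h (T.h (P (nat_lit 0)) (T.h (T.h (P (nat_lit 0)) (T.h (P (nat_lit 22079614946469096718336))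 (T.h (P (nat_lit 0)) (M (nat_lit 17947052546981887))))) (T.h (P (nat_lit 0)) (T.h (T.h (P (nat_lit 0)) (M (nat_lit 7266021438980095))) (P (nat_lit 0)))))) (T.h (T.h (T.h (P (nat_lit 90428011681613564753215488)) (T.h (P (nat_lit 0)) (T.h (P (nat_lit 133324918198473064448)) (T.h (P (nat_lit 0)) (M (nat_lit 295100164764815)))))) (T.h (P (nat_lit 0)) (T.h (T.h (P (nat_lit 28548711468448612352)) (T.h (P (nat_lit 0)) (P (nat_lit 185852562425680)))) (T.h (P (nat_lit 0)) (P (nat_lit 121191003591552)))))) (T.h (T.h (P (nat_lit 0)) (T.h (T.h (P (nat_lit 0)) (M (nat_lit 508194556798828543))) (P (nat_lit 0)))) (T.h (T.h (T.h (P (nat_lit 43844494366368333824)) (T.h (P (nat_lit 0)) (M (nat_lit 695768952324207)))) (T.h (P (nat_lit 0)) (P (nat_lit 611702451510640)))) (T.h (P (nat_lit 0)) (P (nat_lit 224402492659280)))))))), (T.h (T.h (T.h (P (nat_lit 0)) (T.h (P (nat_lit 14882683165086291058843713536)) (T.h (P (nat_lit 0)) (T.h (P (nat_lit 20929441631043701440512))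 (T.h (P (nat_lit 0)) (M (nat_lit 36176921370558463))))))) (T.h (P (nat_lit 0)) (T.h (T.h (P (nat_lit 0)) (T.h (M (nat_lit 18849529835447239311359)) (T.h (P (nat_lit 0)) (P (nat_lit 102934913059225600))))) (T.h (P (nat_lit 0)) (T.h (T.h (P (nat_lit 0)) (P (nat_lit 140018033237983232))) (P (nat_lit 0))))))) (T.h (T.h (P (nat_lit 0)) (T.h (T.h (M (nat_lit 53146542248726677021523967)) (T.h (P (nat_lit 0)) (T.h (M (nat_lit 75408516526748205055)) (T.h (P (nat_lit 0)) (P (nat_lit 4164924265456)))))) (T.h (P (nat_lit 0)) (T.h (T.h (M (nat_lit 11548678206101913599)) (T.h (P (nat_lit 0)) (P (nat_lit 16557836531408)))) (T.h (P (nat_lit 0)) (M (nat_lit 34652740068447))))))) (T.h (T.h (T.h (P (nat_lit 0)) (T.h (P (nat_lit 256807096225738805739520)) (T.h (P (nat_lit 0)) (M (nat_lit 446271242066706431))))) (T.h (P (nat_lit 0)) (T.h (T.h (P (nat_lit 0)) (M (nat_lit 463891509779316735))) (P (nat_lit 0))))) (T.h (T.h (P (nat_lit 0)) (T.h (T.h (P (nat_lit 37051053167047868416))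 (T.h (P (nat_lit 0)) (M (nat_lit 75934935373951)))) (T.h (P (nat_lit 0)) (P (nat_lit 6711510549152))))) (T.h (T.h (T.h (P (nat_lit 0)) (P (nat_lit 1211095121471963136))) (P (nat_lit 0))) (T.h (T.h (P (nat_lit 0)) (M (nat_lit 72084300084943))) (P (nat_lit 0)))))))), (T.h (T.h (T.h (P (nat_lit 6079050956271828798893774077952)) (T.h (P (nat_lit 0)) (T.h (M (nat_lit 91783584266237386185244671)) (T.h (P (nat_lit 0)) (T.h (P (nat_lit 72341885501719969792)) (T.h (P (nat_lit 0)) (M (nat_lit 176948586303359)))))))) (T.h (P (nat_lit 0)) (T.h (T.h (M (nat_lit 35360767025395417506381823)) (T.h (P (nat_lit 0)) (T.h (P (nat_lit 66966561222490587136)) (T.h (P (nat_lit 0)) (P (nat_lit 5134246787648)))))) (T.h (P (nat_lit 0)) (T.h (T.h (M (nat_lit 3904517961192308735)) (T.h (P (nat_lit 0)) (P (nat_lit 139694028686272)))) (T.h (P (nat_lit 0)) (P (nat_lit 15993966832384)))))))) (T.h (T.h (P (nat_lit 0)) (T.h (T.h (P (nat_lit 0)) (T.h (M (nat_lit 470964527959331362045951))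 (T.h (P (nat_lit 0)) (M (nat_lit 107001692910714879))))) (T.h (P (nat_lit 0)) (T.h (T.h (P (nat_lit 0)) (M (nat_lit 5975604795670527))) (P (nat_lit 0)))))) (T.h (T.h (T.h (P (nat_lit 14183898082384610450210816)) (T.h (P (nat_lit 0)) (T.h (M (nat_lit 483902684680515747839)) (T.h (P (nat_lit 0)) (P (nat_lit 1638605785130944)))))) (T.h (P (nat_lit 0)) (T.h (T.h (M (nat_lit 429635777253873811455)) (T.h (P (nat_lit 0)) (P (nat_lit 665330991811392)))) (T.h (P (nat_lit 0)) (M (nat_lit 466928359457407)))))) (T.h (T.h (P (nat_lit 0)) (T.h (T.h (P (nat_lit 0)) (P (nat_lit 3661697074891587584))) (P (nat_lit 0)))) (T.h (T.h (T.h (P (nat_lit 1576207568408653332480)) (T.h (P (nat_lit 0)) (P (nat_lit 262688387398912)))) (T.h (P (nat_lit 0)) (P (nat_lit 9606960604224)))) (T.h (P (nat_lit 0)) (M (nat_lit 144862093652351))))))))]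
def lP11_51 : List (T ℤ) := [(T.h (T.h (T.h (P (nat_lit 0)) (T.h (P (nat_lit 38654651469590484565549383680)) (T.h (P (nat_lit 0)) (T.h (P (nat_lit 75429900119833793527808)) (T.h (P (nat_lit 0)) (P (nat_lit 84372272904028160))))))) (T.h (P (nat_lit 0)) (T.h (T.h (P (nat_lit 0)) (T.h (M (nat_lit 398869698903503942975487)) (T.h (P (nat_lit 0)) (M (nat_lit 103527097765298175))))) (T.h (P (nat_lit 0)) (T.h (T.h (P (nat_lit 0)) (P (nat_lit 77592608275103744))) (P (nat_lit 0))))))) (T.h (T.h (P (nat_lit 0)) (T.h (T.h (M (nat_lit 82005352132504340645543935)) (T.h (P (nat_lit 0)) (T.h (P (nat_lit 6781948296333099008)) (T.h (P (nat_lit 0)) (P (nat_lit 56095130371632)))))) (T.h (P (nat_lit 0)) (T.h (T.h (P (nat_lit 40354807243362795520)) (T.h (P (nat_lit 0)) (M (nat_lit 625848463900175)))) (T.h (P (nat_lit 0)) (M (nat_lit 171358582288431))))))) (T.h (T.h (T.h (P (nat_lit 0)) (T.h (P (nat_lit 254371583437503744442368)) (T.h (P (nat_lit 0)) (M (nat_lit 1732861195147624447)))))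 (T.h (P (nat_lit 0)) (T.h (T.h (P (nat_lit 0)) (P (nat_lit 605362602800644096))) (P (nat_lit 0))))) (T.h (T.h (P (nat_lit 0)) (T.h (T.h (P (nat_lit 7255255734206595072)) (T.h (P (nat_lit 0)) (M (nat_lit 150609851272495)))) (T.h (P (nat_lit 0)) (M (nat_lit 126198014860367))))) (T.h (T.h (T.h (P (nat_lit 0)) (M (nat_lit 863332651526553599))) (P (nat_lit 0))) (T.h (T.h (P (nat_lit 0)) (P (nat_lit 128431816472960))) (P (nat_lit 0)))))))), (T.h (T.h (T.h (P (nat_lit 19911686985342792395777992818688)) (T.h (P (nat_lit 0)) (T.h (M (nat_lit 66216282854357790449729535)) (T.h (P (nat_lit 0)) (P (nat_lit 89483072378851295232)))))) (T.h (P (nat_lit 0)) (T.h (T.h (P (nat_lit 29866378528940360116207616)) (T.h (P (nat_lit 0)) (M (nat_lit 153817068035633053695)))) (T.h (P (nat_lit 0)) (P (nat_lit 42188510695096582144)))))) (T.h (T.h (P (nat_lit 0)) (T.h (T.h (P (nat_lit 0)) (T.h (M (nat_lit 678210062349546654007295)) (T.h (P (nat_lit 0)) (M (nat_lit 180562133041676287)))))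 (T.h (P (nat_lit 0)) (T.h (T.h (P (nat_lit 0)) (P (nat_lit 642979739907260416))) (P (nat_lit 0)))))) (T.h (T.h (T.h (M (nat_lit 66216282854357790449729535)) (T.h (P (nat_lit 0)) (P (nat_lit 1204606997567086002176)))) (T.h (P (nat_lit 0)) (M (nat_lit 153817068035633053695)))) (T.h (T.h (P (nat_lit 0)) (T.h (T.h (P (nat_lit 0)) (M (nat_lit 180562133041676287))) (P (nat_lit 0)))) (P (nat_lit 89483072378851295232)))))), (T.h (T.h (P (nat_lit 0)) (T.h (T.h (P (nat_lit 0)) (T.h (P (nat_lit 4838277074386559868862464)) (T.h (P (nat_lit 0)) (T.h (M (nat_lit 26416126705784586239)) (T.h (P (nat_lit 0)) (P (nat_lit 14078924721560))))))) (T.h (P (nat_lit 0)) (T.h (T.h (P (nat_lit 0)) (T.h (M (nat_lit 9223641221782568959)) (T.h (P (nat_lit 0)) (P (nat_lit 110655826750672))))) (T.h (P (nat_lit 0)) (T.h (T.h (P (nat_lit 0)) (P (nat_lit 61292889872256))) (P (nat_lit 0)))))))) (T.h (T.h (T.h (P (nat_lit 5536517775313953227465031680)) (T.h (P (nat_lit 0)) (T.h (P (nat_lit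 17664319466823093321728)) (T.h (P (nat_lit 0)) (P (nat_lit 12246139095220224)))))) (T.h (P (nat_lit 0)) (T.h (T.h (P (nat_lit 34900946057874913624064)) (T.h (P (nat_lit 0)) (P (nat_lit 68076245493448704)))) (T.h (P (nat_lit 0)) (P (nat_lit 49004058925662208)))))) (T.h (T.h (P (nat_lit 0)) (T.h (T.h (P (nat_lit 0)) (T.h (M (nat_lit 41118186614139387903)) (T.h (P (nat_lit 0)) (M (nat_lit 162557263420767))))) (T.h (P (nat_lit 0)) (T.h (T.h (P (nat_lit 0)) (M (nat_lit 252444885394407))) (P (nat_lit 0)))))) (T.h (T.h (T.h (M (nat_lit 39520826410458918420479)) (T.h (P (nat_lit 0)) (M (nat_lit 298464201601384447)))) (T.h (P (nat_lit 0)) (M (nat_lit 188382228777992191)))) (T.h (T.h (P (nat_lit 0)) (T.h (T.h (P (nat_lit 0)) (P (nat_lit 68225235025664))) (P (nat_lit 0)))) (M (nat_lit 336560590512717823))))))), (T.h (T.h (P (nat_lit 0)) (T.h (T.h (P (nat_lit 15707926973580838579302563840)) (T.h (P (nat_lit 0)) (T.h (M (nat_lit 23387986454769641193471)) (T.h (P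 (nat_lit 0)) (P (nat_lit 141691193762234368)))))) (T.h (P (nat_lit 0)) (T.h (T.h (P (nat_lit 21382032223597555089408)) (T.h (P (nat_lit 0)) (P (nat_lit 84637835870339072)))) (T.h (P (nat_lit 0)) (M (nat_lit 33809884209004543))))))) (T.h (T.h (T.h (P (nat_lit 0)) (T.h (M (nat_lit 56893329156838638189805567)) (T.h (P (nat_lit 0)) (T.h (P (nat_lit 9873005398850535424)) (T.h (P (nat_lit 0)) (M (nat_lit 27301389521663))))))) (T.h (P (nat_lit 0)) (T.h (T.h (P (nat_lit 0)) (T.h (M (nat_lit 68682849468171681791)) (T.h (P (nat_lit 0)) (P (nat_lit 12300914941840))))) (T.h (P (nat_lit 0)) (T.h (T.h (P (nat_lit 0)) (M (nat_lit 9950524029199))) (P (nat_lit 0))))))) (T.h (T.h (P (nat_lit 0)) (T.h (T.h (P (nat_lit 230462501992212293746688)) (T.h (P (nat_lit 0)) (M (nat_lit 473527641361252351)))) (T.h (P (nat_lit 0)) (M (nat_lit 485708767605440511))))) (T.h (T.h (T.h (P (nat_lit 0)) (T.h (P (nat_lit 187656404562520047616)) (T.h (P (nat_lit 0)) (M (nat_lit 23184625981519)))))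 (T.h (P (nat_lit 0)) (T.h (T.h (P (nat_lit 0)) (M (nat_lit 55080966983023))) (P (nat_lit 0))))) (T.h (T.h (P (nat_lit 0)) (P (nat_lit 819454962603540480))) (T.h (T.h (T.h (P (nat_lit 0)) (P (nat_lit 54540451790880))) (P (nat_lit 0))) (P (nat_lit 0)))))))), (T.h (T.h (P (nat_lit 0)) (T.h (T.h (P (nat_lit 0)) (T.h (P (nat_lit 2180457922692902528483328)) (T.h (P (nat_lit 0)) (T.h (P (nat_lit 51898114833580556288)) (T.h (P (nat_lit 0)) (P (nat_lit 5341289507200))))))) (T.h (P (nat_lit 0)) (T.h (T.h (P (nat_lit 0)) (T.h (P (nat_lit 4838559620425318400)) (T.h (P (nat_lit 0)) (M (nat_lit 195956809373759))))) (T.h (P (nat_lit 0)) (T.h (T.h (P (nat_lit 0)) (P (nat_lit 19174769323136))) (P (nat_lit 0)))))))) (T.h (T.h (T.h (M (nat_lit 21475815305388814924186124287)) (T.h (P (nat_lit 0)) (T.h (M (nat_lit 290119102082331707441151)) (T.h (P (nat_lit 0)) (P (nat_lit 117816140800720896)))))) (T.h (P (nat_lit 0)) (T.h (T.h (M (nat_lit 334922431163377383374847)) (T.h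 (P (nat_lit 0)) (P (nat_lit 675793229276348416)))) (T.h (P (nat_lit 0)) (M (nat_lit 343375147726274559)))))) (T.h (T.h (P (nat_lit 0)) (T.h (T.h (P (nat_lit 0)) (T.h (M (nat_lit 687447118557137076223)) (T.h (P (nat_lit 0)) (P (nat_lit 344876861264960))))) (T.h (P (nat_lit 0)) (T.h (T.h (P (nat_lit 0)) (P (nat_lit 348521922324800))) (P (nat_lit 0)))))) (T.h (T.h (T.h (M (nat_lit 403340895958938008158207)) (T.h (P (nat_lit 0)) (P (nat_lit 796641548586090496)))) (T.h (P (nat_lit 0)) (P (nat_lit 345080001020461056)))) (T.h (T.h (P (nat_lit 0)) (T.h (T.h (P (nat_lit 0)) (M (nat_lit 616520728501823))) (P (nat_lit 0)))) (P (nat_lit 288587955582861312))))))), (T.h (T.h (P (nat_lit 0)) (T.h (T.h (P (nat_lit 30911329824371918256220405760)) (T.h (P (nat_lit 0)) (T.h (M (nat_lit 57177540964645888589823)) (T.h (P (nat_lit 0)) (M (nat_lit 89760417283244031)))))) (T.h (P (nat_lit 0)) (T.h (T.h (P (nat_lit 135305056654935805919232)) (T.h (P (nat_lit 0)) (P (nat_lit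 266952139872157696)))) (T.h (P (nat_lit 0)) (M (nat_lit 117758441303965695))))))) (T.h (T.h (T.h (P (nat_lit 0)) (T.h (M (nat_lit 225476304066940349997645823)) (T.h (P (nat_lit 0)) (T.h (P (nat_lit 554670739826271059968)) (T.h (P (nat_lit 0)) (M (nat_lit 223939804868031))))))) (T.h (P (nat_lit 0)) (T.h (T.h (P (nat_lit 0)) (T.h (P (nat_lit 608582383515736211456)) (T.h (P (nat_lit 0)) (P (nat_lit 141508223711712))))) (T.h (P (nat_lit 0)) (T.h (T.h (P (nat_lit 0)) (M (nat_lit 889444151852255))) (P (nat_lit 0))))))) (T.h (T.h (P (nat_lit 0)) (T.h (T.h (M (nat_lit 271138119989090173583359)) (T.h (P (nat_lit 0)) (M (nat_lit 53081248036339711)))) (T.h (P (nat_lit 0)) (M (nat_lit 640962173614653439))))) (T.h (T.h (T.h (P (nat_lit 0)) (T.h (M (nat_lit 236780059099068891135)) (T.h (P (nat_lit 0)) (M (nat_lit 245292104547071))))) (T.h (P (nat_lit 0)) (T.h (T.h (P (nat_lit 0)) (M (nat_lit 370753656199167))) (P (nat_lit 0))))) (T.h (T.h (P (nat_lit 0)) (P (nat_lit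 346646336941424640))) (T.h (T.h (T.h (P (nat_lit 0)) (P (nat_lit 144708727166960))) (P (nat_lit 0))) (P (nat_lit 0)))))))), (T.h (T.h (P (nat_lit 0)) (T.h (T.h (P (nat_lit 0)) (T.h (P (nat_lit 41701646712498679734861824)) (T.h (P (nat_lit 0)) (M (nat_lit 171387007687188283391))))) (T.h (P (nat_lit 0)) (T.h (T.h (P (nat_lit 0)) (M (nat_lit 551540981728408502271))) (P (nat_lit 0)))))) (T.h (T.h (T.h (P (nat_lit 81723471967295498092208455680)) (T.h (P (nat_lit 0)) (T.h (M (nat_lit 262320612458681044303871)) (T.h (P (nat_lit 0)) (M (nat_lit 218921978668482559)))))) (T.h (P (nat_lit 0)) (T.h (T.h (M (nat_lit 394903523492071357808639)) (T.h (P (nat_lit 0)) (P (nat_lit 1603294888650309632)))) (T.h (P (nat_lit 0)) (P (nat_lit 23939575716872192)))))) (T.h (T.h (P (nat_lit 0)) (T.h (T.h (P (nat_lit 0)) (P (nat_lit 8404216807191216128))) (P (nat_lit 0)))) (T.h (T.h (T.h (M (nat_lit 48306181907224534712319)) (T.h (P (nat_lit 0)) (P (nat_lit 653852938299801600))))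 (T.h (P (nat_lit 0)) (P (nat_lit 406538586978025472)))) (T.h (P (nat_lit 0)) (P (nat_lit 580415398995525632))))))), (T.h (T.h (T.h (P (nat_lit 0)) (T.h (P (nat_lit 1322676371061387946650238976)) (T.h (P (nat_lit 0)) (T.h (P (nat_lit 3314644934844999532544)) (T.h (P (nat_lit 0)) (P (nat_lit 12179242722541568))))))) (T.h (P (nat_lit 0)) (T.h (T.h (P (nat_lit 0)) (T.h (P (nat_lit 2337908207826891702272)) (T.h (P (nat_lit 0)) (P (nat_lit 27588438918021120))))) (T.h (P (nat_lit 0)) (T.h (T.h (P (nat_lit 0)) (P (nat_lit 8014772849033216))) (P (nat_lit 0))))))) (T.h (T.h (P (nat_lit 0)) (T.h (T.h (P (nat_lit 66779422157121835614863360)) (T.h (P (nat_lit 0)) (T.h (M (nat_lit 96521423339802066943)) (T.h (P (nat_lit 0)) (P (nat_lit 19366294304256)))))) (T.h (P (nat_lit 0)) (T.h (T.h (P (nat_lit 44759794926007353344)) (T.h (P (nat_lit 0)) (P (nat_lit 14097742350432)))) (T.h (P (nat_lit 0)) (M (nat_lit 13564579893471))))))) (T.h (T.h (T.h (P (nat_lit 0)) (T.h (M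 (nat_lit 66371634848809843949567)) (T.h (P (nat_lit 0)) (M (nat_lit 77220303000305663))))) (T.h (P (nat_lit 0)) (T.h (T.h (P (nat_lit 0)) (M (nat_lit 155104395579326463))) (P (nat_lit 0))))) (T.h (T.h (P (nat_lit 0)) (T.h (T.h (M (nat_lit 667163874488762761215)) (T.h (P (nat_lit 0)) (M (nat_lit 117889912007311)))) (T.h (P (nat_lit 0)) (P (nat_lit 316431649808864))))) (T.h (T.h (T.h (P (nat_lit 0)) (M (nat_lit 354873047434739711))) (P (nat_lit 0))) (T.h (T.h (P (nat_lit 0)) (P (nat_lit 132254739178384))) (P (nat_lit 0))))))))]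
def lP11_52 : List (T ℤ) := [(T.h (T.h (T.h (P (nat_lit 5033591476955802500417638629376)) (T.h (P (nat_lit 0)) (T.h (M (nat_lit 1685068590728999644168191)) (T.h (P (nat_lit 0)) (T.h (P (nat_lit 53834262178789588992)) (T.h (P (nat_lit 0)) (M (nat_lit 17591876039487)))))))) (T.h (P (nat_lit 0)) (T.h (T.h (M (nat_lit 180605214646128135809007615)) (T.h (P (nat_lit 0)) (T.h (P (nat_lit 178182192678395969536)) (T.h (P (nat_lit 0)) (P (nat_lit 90548760350016)))))) (T.h (P (nat_lit 0)) (T.h (T.h (P (nat_lit 233930281628603514880)) (T.h (P (nat_lit 0)) (M (nat_lit 44011021548607)))) (T.h (P (nat_lit 0)) (M (nat_lit 210534429175231)))))))) (T.h (T.h (P (nat_lit 0)) (T.h (T.h (P (nat_lit 0)) (T.h (M (nat_lit 285019034605349217763327)) (T.h (P (nat_lit 0)) (P (nat_lit 341444793480249344))))) (T.h (P (nat_lit 0)) (T.h (T.h (P (nat_lit 0)) (P (nat_lit 372148674531491840))) (P (nat_lit 0)))))) (T.h (T.h (T.h (P (nat_lit 98224269161431528468643840)) (T.h (P (nat_lit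 0)) (T.h (P (nat_lit 131465900530277023744)) (T.h (P (nat_lit 0)) (M (nat_lit 379449331744255)))))) (T.h (P (nat_lit 0)) (T.h (T.h (P (nat_lit 59625221583861186560)) (T.h (P (nat_lit 0)) (P (nat_lit 475213411522112)))) (T.h (P (nat_lit 0)) (P (nat_lit 1726084812844096)))))) (T.h (T.h (P (nat_lit 0)) (T.h (T.h (P (nat_lit 0)) (M (nat_lit 1621407300997873663))) (P (nat_lit 0)))) (T.h (T.h (T.h (M (nat_lit 2030541996830729699327)) (T.h (P (nat_lit 0)) (P (nat_lit 34827456796160)))) (T.h (P (nat_lit 0)) (P (nat_lit 287908883590848)))) (T.h (P (nat_lit 0)) (M (nat_lit 404758465587071)))))))), (T.h (T.h (T.h (P (nat_lit 0)) (T.h (P (nat_lit 37733976243759071920511778816)) (T.h (P (nat_lit 0)) (T.h (P (nat_lit 95309715969232930340864)) (T.h (P (nat_lit 0)) (M (nat_lit 12945520253370367))))))) (T.h (P (nat_lit 0)) (T.h (T.h (P (nat_lit 0)) (T.h (P (nat_lit 17933390700028692004864)) (T.h (P (nat_lit 0)) (P (nat_lit 174450755079372800))))) (T.h (P (nat_lit 0))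 (T.h (T.h (P (nat_lit 0)) (M (nat_lit 27484552792653823))) (P (nat_lit 0))))))) (T.h (T.h (P (nat_lit 0)) (T.h (T.h (M (nat_lit 91940517910321038251524095)) (T.h (P (nat_lit 0)) (T.h (P (nat_lit 540657655911427342336)) (T.h (P (nat_lit 0)) (M (nat_lit 789454083090111)))))) (T.h (P (nat_lit 0)) (T.h (T.h (P (nat_lit 480448913009536925696)) (T.h (P (nat_lit 0)) (P (nat_lit 237373323740080)))) (T.h (P (nat_lit 0)) (M (nat_lit 177022880722159))))))) (T.h (T.h (T.h (P (nat_lit 0)) (T.h (M (nat_lit 105928191397868418891775)) (T.h (P (nat_lit 0)) (M (nat_lit 430929109762064383))))) (T.h (P (nat_lit 0)) (T.h (T.h (P (nat_lit 0)) (P (nat_lit 637723726440628224))) (P (nat_lit 0))))) (T.h (T.h (P (nat_lit 0)) (T.h (T.h (M (nat_lit 957154193937096769535)) (T.h (P (nat_lit 0)) (P (nat_lit 147268056746448)))) (T.h (P (nat_lit 0)) (M (nat_lit 18296925976383))))) (T.h (T.h (T.h (P (nat_lit 0)) (M (nat_lit 1943205583550349311))) (P (nat_lit 0))) (T.h (T.h (P (nat_lit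 0)) (P (nat_lit 670685297729744))) (P (nat_lit 0)))))))), (T.h (T.h (T.h (M (nat_lit 27090461416385597190112410599423)) (T.h (P (nat_lit 0)) (T.h (M (nat_lit 19599926762324988130230271)) (T.h (P (nat_lit 0)) (P (nat_lit 201899917648039247872)))))) (T.h (P (nat_lit 0)) (T.h (T.h (M (nat_lit 110336858536922389780889599)) (T.h (P (nat_lit 0)) (M (nat_lit 227475733942231891967)))) (T.h (P (nat_lit 0)) (P (nat_lit 237720383341838991360)))))) (T.h (T.h (P (nat_lit 0)) (T.h (T.h (P (nat_lit 0)) (T.h (M (nat_lit 1129105501571561629417471)) (T.h (P (nat_lit 0)) (P (nat_lit 1960912070372753408))))) (T.h (P (nat_lit 0)) (T.h (T.h (P (nat_lit 0)) (P (nat_lit 2085774707732840448))) (P (nat_lit 0)))))) (T.h (T.h (T.h (P (nat_lit 162031074772779359918882816)) (T.h (P (nat_lit 0)) (P (nat_lit 360413849700880351232)))) (T.h (P (nat_lit 0)) (P (nat_lit 92651215796660338688)))) (T.h (T.h (P (nat_lit 0)) (T.h (T.h (P (nat_lit 0)) (M (nat_lit 1898189059348430847))) (P (nat_lit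 0)))) (P (nat_lit 99693049936091283456)))))), (T.h (T.h (P (nat_lit 0)) (T.h (T.h (P (nat_lit 0)) (T.h (M (nat_lit 151701986456157759318523903)) (T.h (P (nat_lit 0)) (T.h (P (nat_lit 136309182447111634944)) (T.h (P (nat_lit 0)) (M (nat_lit 1668342305855))))))) (T.h (P (nat_lit 0)) (T.h (T.h (P (nat_lit 0)) (T.h (P (nat_lit 150099858493408280576)) (T.h (P (nat_lit 0)) (P (nat_lit 144458842908288))))) (T.h (P (nat_lit 0)) (T.h (T.h (P (nat_lit 0)) (P (nat_lit 80404163296320))) (P (nat_lit 0)))))))) (T.h (T.h (T.h (M (nat_lit 64992694580624542968554979327)) (T.h (P (nat_lit 0)) (T.h (P (nat_lit 220049294875900201926656)) (T.h (P (nat_lit 0)) (M (nat_lit 79078662425346047)))))) (T.h (P (nat_lit 0)) (T.h (T.h (P (nat_lit 194673461557123887398912)) (T.h (P (nat_lit 0)) (M (nat_lit 881224778607362047)))) (T.h (P (nat_lit 0)) (P (nat_lit 329044677284331520)))))) (T.h (T.h (P (nat_lit 0)) (T.h (T.h (P (nat_lit 0)) (T.h (M (nat_lit 487018562812427370495)) (T.h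 (P (nat_lit 0)) (P (nat_lit 122992583566016))))) (T.h (P (nat_lit 0)) (T.h (T.h (P (nat_lit 0)) (M (nat_lit 250971423945791))) (P (nat_lit 0)))))) (T.h (T.h (T.h (P (nat_lit 536888143402194482233344)) (T.h (P (nat_lit 0)) (M (nat_lit 500905265731371007)))) (T.h (P (nat_lit 0)) (M (nat_lit 2094652237629292543)))) (T.h (T.h (P (nat_lit 0)) (T.h (T.h (P (nat_lit 0)) (P (nat_lit 219151898910336))) (P (nat_lit 0)))) (M (nat_lit 1330455881578708991))))))), (T.h (T.h (P (nat_lit 0)) (T.h (T.h (P (nat_lit 60711036640982234185760505856)) (T.h (P (nat_lit 0)) (T.h (M (nat_lit 374347014059355824717823)) (T.h (P (nat_lit 0)) (P (nat_lit 177525787813904384)))))) (T.h (P (nat_lit 0)) (T.h (T.h (P (nat_lit 13739910452078637481984)) (T.h (P (nat_lit 0)) (M (nat_lit 42521404892135423)))) (T.h (P (nat_lit 0)) (P (nat_lit 181159064565923840))))))) (T.h (T.h (T.h (P (nat_lit 0)) (T.h (M (nat_lit 29374776953946656814923775)) (T.h (P (nat_lit 0)) (T.h (P (nat_lit 70842641432121966592))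 (T.h (P (nat_lit 0)) (M (nat_lit 114598024434607))))))) (T.h (P (nat_lit 0)) (T.h (T.h (P (nat_lit 0)) (T.h (P (nat_lit 119242113427617873920)) (T.h (P (nat_lit 0)) (M (nat_lit 683934668054703))))) (T.h (P (nat_lit 0)) (T.h (T.h (P (nat_lit 0)) (P (nat_lit 109147067076784))) (P (nat_lit 0))))))) (T.h (T.h (P (nat_lit 0)) (T.h (T.h (P (nat_lit 228668846269622621569024)) (T.h (P (nat_lit 0)) (P (nat_lit 815041908662665216)))) (T.h (P (nat_lit 0)) (M (nat_lit 1405762696350695423))))) (T.h (T.h (T.h (P (nat_lit 0)) (T.h (P (nat_lit 253379174898589499392)) (T.h (P (nat_lit 0)) (P (nat_lit 59989902876640))))) (T.h (P (nat_lit 0)) (T.h (T.h (P (nat_lit 0)) (P (nat_lit 206645981930784))) (P (nat_lit 0))))) (T.h (T.h (P (nat_lit 0)) (M (nat_lit 3212585593987252223))) (T.h (T.h (T.h (P (nat_lit 0)) (P (nat_lit 452397773839440))) (P (nat_lit 0))) (P (nat_lit 0)))))))), (T.h (T.h (P (nat_lit 0)) (T.h (T.h (P (nat_lit 0)) (T.h (M (nat_lit 164168232609423127631364095))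 (T.h (P (nat_lit 0)) (M (nat_lit 422698161150862819327))))) (T.h (P (nat_lit 0)) (T.h (T.h (P (nat_lit 0)) (M (nat_lit 123598439709679812607))) (P (nat_lit 0)))))) (T.h (T.h (T.h (P (nat_lit 29157299885803956516845256704)) (T.h (P (nat_lit 0)) (T.h (M (nat_lit 20905584289755508506623)) (T.h (P (nat_lit 0)) (P (nat_lit 26676099759898624)))))) (T.h (P (nat_lit 0)) (T.h (T.h (P (nat_lit 58117647935124394737664)) (T.h (P (nat_lit 0)) (P (nat_lit 559264607064555520)))) (T.h (P (nat_lit 0)) (M (nat_lit 130608686049984511)))))) (T.h (T.h (P (nat_lit 0)) (T.h (T.h (P (nat_lit 0)) (M (nat_lit 193277581558617735167))) (P (nat_lit 0)))) (T.h (T.h (T.h (P (nat_lit 159699944027561083797504)) (T.h (P (nat_lit 0)) (M (nat_lit 71028466476285951)))) (T.h (P (nat_lit 0)) (M (nat_lit 737488915311558655)))) (T.h (P (nat_lit 0)) (M (nat_lit 503793985739620351))))))), (T.h (T.h (T.h (P (nat_lit 0)) (T.h (P (nat_lit 17562274097227540007678377984)) (T.h (P (nat_lit 0)) (T.h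 (M (nat_lit 17330481233452267995135)) (T.h (P (nat_lit 0)) (M (nat_lit 9631535166488575))))))) (T.h (P (nat_lit 0)) (T.h (T.h (P (nat_lit 0)) (T.h (P (nat_lit 196451127488380359671808)) (T.h (P (nat_lit 0)) (M (nat_lit 227107253596717055))))) (T.h (P (nat_lit 0)) (T.h (T.h (P (nat_lit 0)) (M (nat_lit 107743241166847999))) (P (nat_lit 0))))))) (T.h (T.h (P (nat_lit 0)) (T.h (T.h (M (nat_lit 111230174042457733433655295)) (T.h (P (nat_lit 0)) (T.h (P (nat_lit 28873461453570441216)) (T.h (P (nat_lit 0)) (M (nat_lit 284465783754943)))))) (T.h (P (nat_lit 0)) (T.h (T.h (P (nat_lit 648463875126830563328)) (T.h (P (nat_lit 0)) (P (nat_lit 369376358479744)))) (T.h (P (nat_lit 0)) (M (nat_lit 501421280864767))))))) (T.h (T.h (T.h (P (nat_lit 0)) (T.h (P (nat_lit 56126708549803944443904)) (T.h (P (nat_lit 0)) (M (nat_lit 263548896318324735))))) (T.h (P (nat_lit 0)) (T.h (T.h (P (nat_lit 0)) (P (nat_lit 749167989837185024))) (P (nat_lit 0))))) (T.h (T.h (P (nat_lit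 0)) (T.h (T.h (P (nat_lit 1510252268123748040704)) (T.h (P (nat_lit 0)) (P (nat_lit 362561782920304)))) (T.h (P (nat_lit 0)) (M (nat_lit 1800265602160431))))) (T.h (T.h (T.h (P (nat_lit 0)) (M (nat_lit 204801578183983103))) (P (nat_lit 0))) (T.h (T.h (P (nat_lit 0)) (M (nat_lit 713275527769023))) (P (nat_lit 0)))))))), (T.h (T.h (T.h (P (nat_lit 3301555748291823238555111522304)) (T.h (P (nat_lit 0)) (T.h (P (nat_lit 17707193137286470468370432)) (T.h (P (nat_lit 0)) (P (nat_lit 33645545654992240640)))))) (T.h (P (nat_lit 0)) (T.h (T.h (P (nat_lit 12361463528585721553092608)) (T.h (P (nat_lit 0)) (M (nat_lit 180734051640347197439)))) (T.h (P (nat_lit 0)) (P (nat_lit 45119641644947210240)))))) (T.h (T.h (P (nat_lit 0)) (T.h (T.h (P (nat_lit 0)) (T.h (M (nat_lit 507435679304511565856767)) (T.h (P (nat_lit 0)) (P (nat_lit 650939728240377856))))) (T.h (P (nat_lit 0)) (T.h (T.h (P (nat_lit 0)) (M (nat_lit 297464782068645887))) (P (nat_lit 0)))))) (T.h (T.h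 (T.h (M (nat_lit 89343034964519540850950143)) (T.h (P (nat_lit 0)) (M (nat_lit 166703257819371536383)))) (T.h (P (nat_lit 0)) (P (nat_lit 1459483441687567532032)))) (T.h (T.h (P (nat_lit 0)) (T.h (T.h (P (nat_lit 0)) (M (nat_lit 1655541423664332799))) (P (nat_lit 0)))) (P (nat_lit 208395178204777676800))))))]
def lP11_53 : List (T ℤ) := [(T.h (T.h (P (nat_lit 0)) (T.h (T.h (P (nat_lit 0)) (T.h (P (nat_lit 95683243631040923571322880)) (T.h (P (nat_lit 0)) (M (nat_lit 88417271349562572799))))) (T.h (P (nat_lit 0)) (T.h (T.h (P (nat_lit 0)) (P (nat_lit 105865341687688069120))) (P (nat_lit 0)))))) (T.h (T.h (T.h (P (nat_lit 60684955573523039383386587136)) (T.h (P (nat_lit 0)) (T.h (M (nat_lit 71458357320619307040767)) (T.h (P (nat_lit 0)) (P (nat_lit 18427578268647424)))))) (T.h (P (nat_lit 0)) (T.h (T.h (M (nat_lit 460798759023045288919039)) (T.h (P (nat_lit 0)) (P (nat_lit 688230807348183040)))) (T.h (P (nat_lit 0)) (P (nat_lit 958613910115385344))))))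 (T.h (T.h (P (nat_lit 0)) (T.h (T.h (P (nat_lit 0)) (P (nat_lit 177150542492211347456))) (P (nat_lit 0)))) (T.h (T.h (T.h (M (nat_lit 381671066770179736207359)) (T.h (P (nat_lit 0)) (P (nat_lit 7180358365052928)))) (T.h (P (nat_lit 0)) (P (nat_lit 1989202731827429376)))) (T.h (P (nat_lit 0)) (P (nat_lit 802886251462524928))))))), (P (nat_lit 0)), (T.h (T.h (T.h (P (nat_lit 0)) (T.h (P (nat_lit 13204927875378715774934843392)) (T.h (P (nat_lit 0)) (T.h (M (nat_lit 590497161174321201151)) (T.h (P (nat_lit 0)) (M (nat_lit 17312308370309119))))))) (T.h (P (nat_lit 0)) (T.h (T.h (P (nat_lit 0)) (T.h (P (nat_lit 3282297356631899373568)) (T.h (P (nat_lit 0)) (M (nat_lit 7315163158740991))))) (T.h (P (nat_lit 0)) (T.h (T.h (P (nat_lit 0)) (M (nat_lit 2513831367540735))) (P (nat_lit 0))))))) (T.h (T.h (P (nat_lit 0)) (T.h (T.h (M (nat_lit 122639602115953821745151)) (T.h (P (nat_lit 0)) (T.h (P (nat_lit 17277838074277003264)) (T.h (P (nat_lit 0)) (M (nat_lit 26065790100687))))))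 (T.h (P (nat_lit 0)) (T.h (T.h (P (nat_lit 2240755757060456448)) (T.h (P (nat_lit 0)) (M (nat_lit 4134781533415)))) (T.h (P (nat_lit 0)) (M (nat_lit 3482561271999))))))) (T.h (T.h (T.h (P (nat_lit 0)) (T.h (P (nat_lit 13539892843789789691904)) (T.h (P (nat_lit 0)) (M (nat_lit 27032684399165439))))) (T.h (P (nat_lit 0)) (T.h (T.h (P (nat_lit 0)) (M (nat_lit 21109903815409663))) (P (nat_lit 0))))) (T.h (T.h (P (nat_lit 0)) (T.h (T.h (P (nat_lit 23265789879055810560)) (T.h (P (nat_lit 0)) (M (nat_lit 33347038321839)))) (T.h (P (nat_lit 0)) (M (nat_lit 20913852849103))))) (T.h (T.h (T.h (P (nat_lit 0)) (M (nat_lit 11870878074175487))) (P (nat_lit 0))) (T.h (T.h (P (nat_lit 0)) (M (nat_lit 36276789813271))) (P (nat_lit 0)))))))), (T.h (T.h (T.h (P (nat_lit 15172213786557349686731121623040)) (T.h (P (nat_lit 0)) (T.h (M (nat_lit 18264153611699954183569407)) (T.h (P (nat_lit 0)) (T.h (M (nat_lit 8776527609941983231)) (T.h (P (nat_lit 0)) (P (nat_lit 7181325551792))))))))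 (T.h (P (nat_lit 0)) (T.h (T.h (M (nat_lit 1210949200232913911676927)) (T.h (P (nat_lit 0)) (T.h (M (nat_lit 1443524170846568447)) (T.h (P (nat_lit 0)) (P (nat_lit 7834943220656)))))) (T.h (P (nat_lit 0)) (T.h (T.h (M (nat_lit 1640313288946352127)) (T.h (P (nat_lit 0)) (P (nat_lit 7778266412928)))) (T.h (P (nat_lit 0)) (M (nat_lit 2258787755471)))))))) (T.h (T.h (P (nat_lit 0)) (T.h (T.h (P (nat_lit 0)) (T.h (P (nat_lit 2070260029915047919616)) (T.h (P (nat_lit 0)) (M (nat_lit 56295723824119807))))) (T.h (P (nat_lit 0)) (T.h (T.h (P (nat_lit 0)) (P (nat_lit 71083122527076352))) (P (nat_lit 0)))))) (T.h (T.h (T.h (P (nat_lit 21374983709252717796917248)) (T.h (P (nat_lit 0)) (T.h (M (nat_lit 32579711267497836543)) (T.h (P (nat_lit 0)) (M (nat_lit 25450372979775)))))) (T.h (P (nat_lit 0)) (T.h (T.h (P (nat_lit 104816937201435672576)) (T.h (P (nat_lit 0)) (M (nat_lit 2428238407215)))) (T.h (P (nat_lit 0)) (M (nat_lit 27352561037247)))))) (T.h (T.h (P (nat_lit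 0)) (T.h (T.h (P (nat_lit 0)) (P (nat_lit 184625113980796928))) (P (nat_lit 0)))) (T.h (T.h (T.h (M (nat_lit 47365347442010619903)) (T.h (P (nat_lit 0)) (P (nat_lit 439341944415168)))) (T.h (P (nat_lit 0)) (P (nat_lit 65805890694080)))) (T.h (P (nat_lit 0)) (P (nat_lit 63359498543120)))))))), (T.h (T.h (T.h (P (nat_lit 0)) (T.h (M (nat_lit 29811794875768097430166306815)) (T.h (P (nat_lit 0)) (T.h (P (nat_lit 18779666287450602340352)) (T.h (P (nat_lit 0)) (M (nat_lit 23750232742199295))))))) (T.h (P (nat_lit 0)) (T.h (T.h (P (nat_lit 0)) (T.h (P (nat_lit 14483498916290326691840)) (T.h (P (nat_lit 0)) (M (nat_lit 66990179196731391))))) (T.h (P (nat_lit 0)) (T.h (T.h (P (nat_lit 0)) (M (nat_lit 104316820470300671))) (P (nat_lit 0))))))) (T.h (T.h (P (nat_lit 0)) (T.h (T.h (P (nat_lit 23381767355945894354616320)) (T.h (P (nat_lit 0)) (T.h (P (nat_lit 41452185600745537536)) (T.h (P (nat_lit 0)) (M (nat_lit 135092302434559)))))) (T.h (P (nat_lit 0)) (T.h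 (T.h (M (nat_lit 7445068234803380223)) (T.h (P (nat_lit 0)) (M (nat_lit 129680774576831)))) (T.h (P (nat_lit 0)) (M (nat_lit 10339465218239))))))) (T.h (T.h (T.h (P (nat_lit 0)) (T.h (P (nat_lit 506275462163121936793600)) (T.h (P (nat_lit 0)) (M (nat_lit 125947280191946751))))) (T.h (P (nat_lit 0)) (T.h (T.h (P (nat_lit 0)) (M (nat_lit 163866416494804991))) (P (nat_lit 0))))) (T.h (T.h (P (nat_lit 0)) (T.h (T.h (P (nat_lit 256980490934963666944)) (T.h (P (nat_lit 0)) (P (nat_lit 323801007112640)))) (T.h (P (nat_lit 0)) (M (nat_lit 173328127994111))))) (T.h (T.h (T.h (P (nat_lit 0)) (M (nat_lit 1512792907138695167))) (P (nat_lit 0))) (T.h (T.h (P (nat_lit 0)) (P (nat_lit 92390346224128))) (P (nat_lit 0)))))))), (T.h (T.h (T.h (P (nat_lit 90041645070864497468254453760)) (T.h (P (nat_lit 0)) (T.h (M (nat_lit 82978344281189709284114431)) (T.h (P (nat_lit 0)) (T.h (M (nat_lit 78420376951661264895)) (T.h (P (nat_lit 0)) (M (nat_lit 100380931134879))))))))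 (T.h (P (nat_lit 0)) (T.h (T.h (M (nat_lit 9814911570293775350628351)) (T.h (P (nat_lit 0)) (T.h (M (nat_lit 99246207615725731839)) (T.h (P (nat_lit 0)) (P (nat_lit 211605099716560)))))) (T.h (P (nat_lit 0)) (T.h (T.h (P (nat_lit 10325048240973545472)) (T.h (P (nat_lit 0)) (P (nat_lit 46870734497312)))) (T.h (P (nat_lit 0)) (M (nat_lit 10492294430287)))))))) (T.h (T.h (P (nat_lit 0)) (T.h (T.h (P (nat_lit 0)) (T.h (M (nat_lit 465666743731333762121727)) (T.h (P (nat_lit 0)) (P (nat_lit 536079415609098240))))) (T.h (P (nat_lit 0)) (T.h (T.h (P (nat_lit 0)) (P (nat_lit 424906803810205696))) (P (nat_lit 0)))))) (T.h (T.h (T.h (M (nat_lit 74297551689310308902371327)) (T.h (P (nat_lit 0)) (T.h (P (nat_lit 185568451651652550656)) (T.h (P (nat_lit 0)) (P (nat_lit 227616305269056)))))) (T.h (P (nat_lit 0)) (T.h (T.h (P (nat_lit 341679502975320457216)) (T.h (P (nat_lit 0)) (M (nat_lit 1201170315836127)))) (T.h (P (nat_lit 0)) (P (nat_lit 45874032146976))))))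 (T.h (T.h (P (nat_lit 0)) (T.h (T.h (P (nat_lit 0)) (M (nat_lit 1348142103835803647))) (P (nat_lit 0)))) (T.h (T.h (T.h (P (nat_lit 336412622550833561600)) (T.h (P (nat_lit 0)) (M (nat_lit 1548465693749039)))) (T.h (P (nat_lit 0)) (M (nat_lit 311887139930959)))) (T.h (P (nat_lit 0)) (M (nat_lit 499469368768831)))))))), (T.h (T.h (T.h (P (nat_lit 0)) (T.h (P (nat_lit 37495071686497208421731794944)) (T.h (P (nat_lit 0)) (T.h (M (nat_lit 138571131412666097074175)) (T.h (P (nat_lit 0)) (P (nat_lit 207322856984576000))))))) (T.h (P (nat_lit 0)) (T.h (T.h (P (nat_lit 0)) (T.h (P (nat_lit 16057378342646109437952)) (T.h (P (nat_lit 0)) (M (nat_lit 255022184546467839))))) (T.h (P (nat_lit 0)) (T.h (T.h (P (nat_lit 0)) (P (nat_lit 26770372925128704))) (P (nat_lit 0))))))) (T.h (T.h (P (nat_lit 0)) (T.h (T.h (M (nat_lit 8530470887322473985998847)) (T.h (P (nat_lit 0)) (M (nat_lit 394182288451529867263)))) (T.h (P (nat_lit 0)) (P (nat_lit 11526735466153902080)))))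 (T.h (T.h (T.h (P (nat_lit 0)) (T.h (M (nat_lit 426842702168290282700799)) (T.h (P (nat_lit 0)) (P (nat_lit 813225388758859776))))) (T.h (P (nat_lit 0)) (T.h (T.h (P (nat_lit 0)) (P (nat_lit 154969859478683648))) (P (nat_lit 0))))) (T.h (T.h (P (nat_lit 0)) (P (nat_lit 124755095903367331840))) (T.h (T.h (T.h (P (nat_lit 0)) (P (nat_lit 1052533473347338240))) (P (nat_lit 0))) (P (nat_lit 0))))))), (T.h (T.h (P (nat_lit 0)) (T.h (T.h (P (nat_lit 9422099133578870097476321280)) (T.h (P (nat_lit 0)) (T.h (P (nat_lit 7610511668739915644928)) (T.h (P (nat_lit 0)) (P (nat_lit 11273812219789312)))))) (T.h (P (nat_lit 0)) (T.h (T.h (M (nat_lit 3603468943921617305599)) (T.h (P (nat_lit 0)) (M (nat_lit 11067179892670463)))) (T.h (P (nat_lit 0)) (M (nat_lit 16078282145431551))))))) (T.h (T.h (T.h (P (nat_lit 0)) (T.h (P (nat_lit 7767568136061330661572608)) (T.h (P (nat_lit 0)) (T.h (P (nat_lit 16006873665018789888)) (T.h (P (nat_lit 0)) (M (nat_lit 7238687569983)))))))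 (T.h (P (nat_lit 0)) (T.h (T.h (P (nat_lit 0)) (T.h (M (nat_lit 27999267637092679679)) (T.h (P (nat_lit 0)) (P (nat_lit 21245891632488))))) (T.h (P (nat_lit 0)) (T.h (T.h (P (nat_lit 0)) (M (nat_lit 34734735822511))) (P (nat_lit 0))))))) (T.h (T.h (P (nat_lit 0)) (T.h (T.h (M (nat_lit 19998323685167607054335)) (T.h (P (nat_lit 0)) (M (nat_lit 131379255298686975)))) (T.h (P (nat_lit 0)) (M (nat_lit 91833471907921919))))) (T.h (T.h (T.h (P (nat_lit 0)) (T.h (P (nat_lit 62422039299732013056)) (T.h (P (nat_lit 0)) (M (nat_lit 104740529347503))))) (T.h (P (nat_lit 0)) (T.h (T.h (P (nat_lit 0)) (P (nat_lit 135007709293616))) (P (nat_lit 0))))) (T.h (T.h (P (nat_lit 0)) (M (nat_lit 167818423914430463))) (T.h (T.h (T.h (P (nat_lit 0)) (P (nat_lit 1076197240586648))) (P (nat_lit 0))) (P (nat_lit 0))))))))]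
def lP11_54 : List (T ℤ) := [(T.h (T.h (P (nat_lit 0)) (T.h (T.h (P (nat_lit 0)) (T.h (P (nat_lit 11439208824090017958723584)) (T.h (P (nat_lit 0)) (T.h (M (nat_lit 25606197467787821055)) (T.h (P (nat_lit 0)) (M (nat_lit 9359451847407))))))) (T.h (P (nat_lit 0)) (T.h (T.h (P (nat_lit 0)) (T.h (M (nat_lit 25606197467787821055)) (T.h (P (nat_lit 0)) (M (nat_lit 9080975901567))))) (T.h (P (nat_lit 0)) (T.h (T.h (P (nat_lit 0)) (M (nat_lit 9359451847407))) (P (nat_lit 0)))))))) (T.h (T.h (T.h (M (nat_lit 10568642270593862374394953727)) (T.h (P (nat_lit 0)) (T.h (P (nat_lit 8179832511665811750912)) (T.h (P (nat_lit 0)) (P (nat_lit 42281017820037120)))))) (T.h (P (nat_lit 0)) (T.h (T.h (P (nat_lit 8179832511665811750912)) (T.h (P (nat_lit 0)) (M (nat_lit 83790289926193151)))) (T.h (P (nat_lit 0)) (P (nat_lit 42281017820037120)))))) (T.h (T.h (P (nat_lit 0)) (T.h (T.h (P (nat_lit 0)) (T.h (P (nat_lit 167073992415295569920)) (T.h (P (nat_lit 0)) (P (nat_lit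 13668783183072))))) (T.h (P (nat_lit 0)) (T.h (T.h (P (nat_lit 0)) (P (nat_lit 13668783183072))) (P (nat_lit 0)))))) (T.h (T.h (T.h (P (nat_lit 140262297202309164171264)) (T.h (P (nat_lit 0)) (P (nat_lit 126396749802356736)))) (T.h (P (nat_lit 0)) (P (nat_lit 126396749802356736)))) (T.h (T.h (P (nat_lit 0)) (T.h (T.h (P (nat_lit 0)) (M (nat_lit 216448194887871))) (P (nat_lit 0)))) (M (nat_lit 263332630997860351))))))), (T.h (T.h (P (nat_lit 0)) (T.h (T.h (P (nat_lit 38925463074152110333261512704)) (T.h (P (nat_lit 0)) (T.h (M (nat_lit 58325728174218793713663)) (T.h (P (nat_lit 0)) (P (nat_lit 112449897471967232)))))) (T.h (P (nat_lit 0)) (T.h (T.h (M (nat_lit 132791242963890449940479)) (T.h (P (nat_lit 0)) (M (nat_lit 80061814870507519)))) (T.h (P (nat_lit 0)) (P (nat_lit 45792333411090432))))))) (T.h (T.h (T.h (P (nat_lit 0)) (T.h (P (nat_lit 24593617747856343332552704)) (T.h (P (nat_lit 0)) (T.h (M (nat_lit 130968615643038875647)) (T.h (P (nat_lit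 0)) (M (nat_lit 34559719305663))))))) (T.h (P (nat_lit 0)) (T.h (T.h (P (nat_lit 0)) (T.h (P (nat_lit 87989143565492027392)) (T.h (P (nat_lit 0)) (P (nat_lit 16402866389632))))) (T.h (P (nat_lit 0)) (T.h (T.h (P (nat_lit 0)) (M (nat_lit 35758438672831))) (P (nat_lit 0))))))) (T.h (T.h (P (nat_lit 0)) (T.h (T.h (P (nat_lit 369545719271725232816128)) (T.h (P (nat_lit 0)) (M (nat_lit 175201446627147775)))) (T.h (P (nat_lit 0)) (P (nat_lit 300563387517009920))))) (T.h (T.h (T.h (P (nat_lit 0)) (T.h (M (nat_lit 1007912995429982142463)) (T.h (P (nat_lit 0)) (M (nat_lit 569304909624511))))) (T.h (P (nat_lit 0)) (T.h (T.h (P (nat_lit 0)) (M (nat_lit 353210867934847))) (P (nat_lit 0))))) (T.h (T.h (P (nat_lit 0)) (M (nat_lit 852549878750838783))) (T.h (T.h (T.h (P (nat_lit 0)) (M (nat_lit 40638326489599))) (P (nat_lit 0))) (P (nat_lit 0)))))))), (T.h (T.h (P (nat_lit 0)) (T.h (T.h (P (nat_lit 0)) (T.h (P (nat_lit 90555554163492652484395008)) (T.h (P (nat_lit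 0)) (T.h (M (nat_lit 71140088274038554623)) (T.h (P (nat_lit 0)) (P (nat_lit 172986961464416))))))) (T.h (P (nat_lit 0)) (T.h (T.h (P (nat_lit 0)) (T.h (P (nat_lit 14186840661470216192)) (T.h (P (nat_lit 0)) (M (nat_lit 25054827595247))))) (T.h (P (nat_lit 0)) (T.h (T.h (P (nat_lit 0)) (P (nat_lit 110851673169776))) (P (nat_lit 0)))))))) (T.h (T.h (T.h (P (nat_lit 17704389529118597248316342272)) (T.h (P (nat_lit 0)) (T.h (M (nat_lit 89931286064732739469311)) (T.h (P (nat_lit 0)) (M (nat_lit 637775820071223295)))))) (T.h (P (nat_lit 0)) (T.h (T.h (P (nat_lit 179029490075745973698560)) (T.h (P (nat_lit 0)) (M (nat_lit 271088118705799167)))) (T.h (P (nat_lit 0)) (P (nat_lit 328597930403921920)))))) (T.h (T.h (P (nat_lit 0)) (T.h (T.h (P (nat_lit 0)) (T.h (P (nat_lit 38138849773442039808)) (T.h (P (nat_lit 0)) (P (nat_lit 361794974546192))))) (T.h (P (nat_lit 0)) (T.h (T.h (P (nat_lit 0)) (P (nat_lit 130585546475472))) (P (nat_lit 0)))))) (T.h (T.h (T.h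 (M (nat_lit 80612603565561887064063)) (T.h (P (nat_lit 0)) (M (nat_lit 315189760276332543)))) (T.h (P (nat_lit 0)) (P (nat_lit 261691826528878592)))) (T.h (T.h (P (nat_lit 0)) (T.h (T.h (P (nat_lit 0)) (P (nat_lit 1882318035580224))) (P (nat_lit 0)))) (P (nat_lit 552199261127180288))))))), (T.h (T.h (P (nat_lit 0)) (T.h (T.h (P (nat_lit 12264306295860865433992167424)) (T.h (P (nat_lit 0)) (T.h (M (nat_lit 126715159606584970051583)) (T.h (P (nat_lit 0)) (M (nat_lit 250273072803250175)))))) (T.h (P (nat_lit 0)) (T.h (T.h (M (nat_lit 38351697694890571857919)) (T.h (P (nat_lit 0)) (P (nat_lit 95609950710071296)))) (T.h (P (nat_lit 0)) (P (nat_lit 22986133075853312))))))) (T.h (T.h (T.h (P (nat_lit 0)) (T.h (P (nat_lit 178450648329772352166428672)) (T.h (P (nat_lit 0)) (P (nat_lit 312703088898592473088))))) (T.h (P (nat_lit 0)) (T.h (T.h (P (nat_lit 0)) (M (nat_lit 632434394254251393023))) (P (nat_lit 0))))) (T.h (T.h (P (nat_lit 0)) (T.h (T.h (P (nat_lit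 72151306072020993703936)) (T.h (P (nat_lit 0)) (P (nat_lit 329315656024653824)))) (T.h (P (nat_lit 0)) (P (nat_lit 12011030252027904))))) (T.h (T.h (T.h (P (nat_lit 0)) (P (nat_lit 468182160841962946560))) (P (nat_lit 0))) (T.h (T.h (P (nat_lit 0)) (M (nat_lit 353876310217654271))) (P (nat_lit 0))))))), (T.h (T.h (T.h (P (nat_lit 23554052749273041441003961057280)) (T.h (P (nat_lit 0)) (T.h (M (nat_lit 1116594654860944001204223)) (T.h (P (nat_lit 0)) (T.h (M (nat_lit 2642978377501245439)) (T.h (P (nat_lit 0)) (M (nat_lit 2424212061055)))))))) (T.h (P (nat_lit 0)) (T.h (T.h (M (nat_lit 18169799066327984273096703)) (T.h (P (nat_lit 0)) (T.h (P (nat_lit 6840648437726183424)) (T.h (P (nat_lit 0)) (P (nat_lit 3538756460992)))))) (T.h (P (nat_lit 0)) (T.h (T.h (M (nat_lit 9779192698496876543)) (T.h (P (nat_lit 0)) (P (nat_lit 3595433268720)))) (T.h (P (nat_lit 0)) (P (nat_lit 7015901246208)))))))) (T.h (T.h (P (nat_lit 0)) (T.h (T.h (P (nat_lit 0)) (T.h (P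 (nat_lit 7376399792568524603392)) (T.h (P (nat_lit 0)) (P (nat_lit 49912040392163328))))) (T.h (P (nat_lit 0)) (T.h (T.h (P (nat_lit 0)) (M (nat_lit 77466805959032831))) (P (nat_lit 0)))))) (T.h (T.h (T.h (M (nat_lit 3591785376948345362186239)) (T.h (P (nat_lit 0)) (T.h (P (nat_lit 113362164939430559744)) (T.h (P (nat_lit 0)) (M (nat_lit 42796093805007)))))) (T.h (P (nat_lit 0)) (T.h (T.h (M (nat_lit 24034483529502949375)) (T.h (P (nat_lit 0)) (P (nat_lit 32985262238352)))) (T.h (P (nat_lit 0)) (M (nat_lit 40893905747535)))))) (T.h (T.h (P (nat_lit 0)) (T.h (T.h (P (nat_lit 0)) (P (nat_lit 176471059806552064))) (P (nat_lit 0)))) (T.h (T.h (T.h (M (nat_lit 138932654950995460095)) (T.h (P (nat_lit 0)) (P (nat_lit 93912456396352)))) (T.h (P (nat_lit 0)) (P (nat_lit 467448510117440)))) (T.h (P (nat_lit 0)) (P (nat_lit 54124853331920)))))))), (T.h (T.h (T.h (P (nat_lit 0)) (T.h (P (nat_lit 27573468619294519107795288064)) (T.h (P (nat_lit 0)) (T.h (M (nat_lit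 148336140461852793503743)) (T.h (P (nat_lit 0)) (P (nat_lit 45632158743527424))))))) (T.h (P (nat_lit 0)) (T.h (T.h (P (nat_lit 0)) (T.h (M (nat_lit 31046409416632053006335)) (T.h (P (nat_lit 0)) (M (nat_lit 5069160912617471))))) (T.h (P (nat_lit 0)) (T.h (T.h (P (nat_lit 0)) (M (nat_lit 137409582491303935))) (P (nat_lit 0))))))) (T.h (T.h (P (nat_lit 0)) (T.h (T.h (P (nat_lit 34466885455667510214918144)) (T.h (P (nat_lit 0)) (T.h (M (nat_lit 83920714297373622271)) (T.h (P (nat_lit 0)) (M (nat_lit 5358175711231)))))) (T.h (P (nat_lit 0)) (T.h (T.h (M (nat_lit 130383032005731287039)) (T.h (P (nat_lit 0)) (P (nat_lit 7847311340096)))) (T.h (P (nat_lit 0)) (M (nat_lit 29199094884671))))))) (T.h (T.h (T.h (P (nat_lit 0)) (T.h (M (nat_lit 123217807114262095593471)) (T.h (P (nat_lit 0)) (M (nat_lit 436771630305247231))))) (T.h (P (nat_lit 0)) (T.h (T.h (P (nat_lit 0)) (P (nat_lit 136885449423552512))) (P (nat_lit 0))))) (T.h (T.h (P (nat_lit 0)) (T.h (T.h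 (M (nat_lit 2149898102889653469183)) (T.h (P (nat_lit 0)) (M (nat_lit 404041203420735)))) (T.h (P (nat_lit 0)) (M (nat_lit 506477718526207))))) (T.h (T.h (T.h (P (nat_lit 0)) (P (nat_lit 1820843924937015296))) (P (nat_lit 0))) (T.h (T.h (P (nat_lit 0)) (M (nat_lit 560598551876287))) (P (nat_lit 0)))))))), (T.h (T.h (T.h (P (nat_lit 10877977710155974109859130900480)) (T.h (P (nat_lit 0)) (T.h (M (nat_lit 61470405535673140513865727)) (T.h (P (nat_lit 0)) (T.h (M (nat_lit 50862680575049727)) (T.h (P (nat_lit 0)) (M (nat_lit 46802093501151)))))))) (T.h (P (nat_lit 0)) (T.h (T.h (M (nat_lit 68229778942906977077952511)) (T.h (P (nat_lit 0)) (T.h (P (nat_lit 149211963080098971648)) (T.h (P (nat_lit 0)) (P (nat_lit 63046380271776)))))) (T.h (P (nat_lit 0)) (T.h (T.h (P (nat_lit 11424615447304077312)) (T.h (P (nat_lit 0)) (P (nat_lit 66587590602896)))) (T.h (P (nat_lit 0)) (M (nat_lit 44566472717007)))))))) (T.h (T.h (P (nat_lit 0)) (T.h (T.h (P (nat_lit 0))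 (T.h (P (nat_lit 340517685100624094429184)) (T.h (P (nat_lit 0)) (M (nat_lit 417141615237103615))))) (T.h (P (nat_lit 0)) (T.h (T.h (P (nat_lit 0)) (M (nat_lit 521171706628800511))) (P (nat_lit 0)))))) (T.h (T.h (T.h (P (nat_lit 348488690592711051371872256)) (T.h (P (nat_lit 0)) (T.h (M (nat_lit 795348076552467251199)) (T.h (P (nat_lit 0)) (M (nat_lit 23690217743455)))))) (T.h (P (nat_lit 0)) (T.h (T.h (M (nat_lit 745495223274313875455)) (T.h (P (nat_lit 0)) (P (nat_lit 1655875951737040)))) (T.h (P (nat_lit 0)) (M (nat_lit 171203489465711)))))) (T.h (T.h (P (nat_lit 0)) (T.h (T.h (P (nat_lit 0)) (P (nat_lit 704798644617248768))) (P (nat_lit 0)))) (T.h (T.h (T.h (M (nat_lit 281544365791718146047)) (T.h (P (nat_lit 0)) (P (nat_lit 138393168762288)))) (T.h (P (nat_lit 0)) (P (nat_lit 93462001685360)))) (T.h (P (nat_lit 0)) (P (nat_lit 459920579849456)))))))), (T.h (T.h (T.h (P (nat_lit 0)) (T.h (P (nat_lit 143248602005615764954310246400)) (T.h (P (nat_lit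 0)) (T.h (M (nat_lit 37275923750201581371391)) (T.h (P (nat_lit 0)) (P (nat_lit 61768686202978304))))))) (T.h (P (nat_lit 0)) (T.h (T.h (P (nat_lit 0)) (T.h (M (nat_lit 281221776321966440972287)) (T.h (P (nat_lit 0)) (M (nat_lit 59304357145706495))))) (T.h (P (nat_lit 0)) (T.h (T.h (P (nat_lit 0)) (P (nat_lit 37610701693222912))) (P (nat_lit 0))))))) (T.h (T.h (P (nat_lit 0)) (T.h (T.h (P (nat_lit 140298656222780133453332480)) (T.h (P (nat_lit 0)) (P (nat_lit 331040896155440381952)))) (T.h (P (nat_lit 0)) (P (nat_lit 305348348258564440064))))) (T.h (T.h (T.h (P (nat_lit 0)) (T.h (P (nat_lit 831504563151167433998336)) (T.h (P (nat_lit 0)) (P (nat_lit 87289895111000064))))) (T.h (P (nat_lit 0)) (T.h (T.h (P (nat_lit 0)) (M (nat_lit 482443184742957055))) (P (nat_lit 0))))) (T.h (T.h (P (nat_lit 0)) (P (nat_lit 160702012152763908096))) (T.h (T.h (T.h (P (nat_lit 0)) (M (nat_lit 536696647482572799))) (P (nat_lit 0))) (P (nat_lit 0)))))))]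
def lP11_55 : List (T ℤ) := [(T.h (T.h (P (nat_lit 0)) (T.h (T.h (M (nat_lit 30743316187595668895993692159)) (T.h (P (nat_lit 0)) (T.h (P (nat_lit 30159946862833371709440)) (T.h (P (nat_lit 0)) (P (nat_lit 38451470573731840)))))) (T.h (P (nat_lit 0)) (T.h (T.h (M (nat_lit 31990051572355434545151)) (T.h (P (nat_lit 0)) (M (nat_lit 63879557127372799)))) (T.h (P (nat_lit 0)) (P (nat_lit 107647830557327360))))))) (T.h (T.h (T.h (P (nat_lit 0)) (T.h (M (nat_lit 107616031060821464577998847)) (T.h (P (nat_lit 0)) (T.h (M (nat_lit 52097767407718760447)) (T.h (P (nat_lit 0)) (M (nat_lit 4978840797247))))))) (T.h (P (nat_lit 0)) (T.h (T.h (P (nat_lit 0)) (T.h (M (nat_lit 134759294785770487807)) (T.h (P (nat_lit 0)) (M (nat_lit 138236329626367))))) (T.h (P (nat_lit 0)) (T.h (T.h (P (nat_lit 0)) (M (nat_lit 104692039472959))) (P (nat_lit 0))))))) (T.h (T.h (P (nat_lit 0)) (T.h (T.h (P (nat_lit 130065404514620449751040)) (T.h (P (nat_lit 0)) (M (nat_lit 261196326978060287))))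 (T.h (P (nat_lit 0)) (M (nat_lit 46881492679327743))))) (T.h (T.h (T.h (P (nat_lit 0)) (T.h (M (nat_lit 307788482951491092479)) (T.h (P (nat_lit 0)) (M (nat_lit 110500936895807))))) (T.h (P (nat_lit 0)) (T.h (T.h (P (nat_lit 0)) (P (nat_lit 272970671626752))) (P (nat_lit 0))))) (T.h (T.h (P (nat_lit 0)) (P (nat_lit 425943098470891520))) (T.h (T.h (T.h (P (nat_lit 0)) (M (nat_lit 427569879162559))) (P (nat_lit 0))) (P (nat_lit 0)))))))), (T.h (T.h (P (nat_lit 0)) (T.h (T.h (P (nat_lit 0)) (T.h (P (nat_lit 103283711528334789982552064)) (T.h (P (nat_lit 0)) (T.h (M (nat_lit 1352985105907318783)) (T.h (P (nat_lit 0)) (P (nat_lit 57747740157536))))))) (T.h (P (nat_lit 0)) (T.h (T.h (P (nat_lit 0)) (T.h (M (nat_lit 86679914041416089599)) (T.h (P (nat_lit 0)) (M (nat_lit 23689960517871))))) (T.h (P (nat_lit 0)) (T.h (T.h (P (nat_lit 0)) (P (nat_lit 119883028452176))) (P (nat_lit 0)))))))) (T.h (T.h (T.h (P (nat_lit 35363525717813127072268156928)) (T.h (P (nat_lit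 0)) (T.h (P (nat_lit 218824825850870034857984)) (T.h (P (nat_lit 0)) (P (nat_lit 228729104688889856)))))) (T.h (P (nat_lit 0)) (T.h (T.h (M (nat_lit 50135950289608678309887)) (T.h (P (nat_lit 0)) (M (nat_lit 260690775951818751)))) (T.h (P (nat_lit 0)) (M (nat_lit 737644645786255359)))))) (T.h (T.h (P (nat_lit 0)) (T.h (T.h (P (nat_lit 0)) (T.h (M (nat_lit 265560519786861953023)) (T.h (P (nat_lit 0)) (M (nat_lit 101729801958399))))) (T.h (P (nat_lit 0)) (T.h (T.h (P (nat_lit 0)) (P (nat_lit 129479626112320))) (P (nat_lit 0)))))) (T.h (T.h (T.h (M (nat_lit 6751133298556577775615)) (T.h (P (nat_lit 0)) (P (nat_lit 183021395936935936)))) (T.h (P (nat_lit 0)) (M (nat_lit 393860190868275199)))) (T.h (T.h (P (nat_lit 0)) (T.h (T.h (P (nat_lit 0)) (P (nat_lit 1711947762409280))) (P (nat_lit 0)))) (P (nat_lit 1150537368534614016))))))), (T.h (T.h (P (nat_lit 0)) (T.h (T.h (P (nat_lit 129916050405150065941358313472)) (T.h (P (nat_lit 0)) (T.h (M (nat_lit 259154547832480589676543))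 (T.h (P (nat_lit 0)) (P (nat_lit 69747920851107840)))))) (T.h (P (nat_lit 0)) (T.h (T.h (M (nat_lit 6714838454358308290559)) (T.h (P (nat_lit 0)) (M (nat_lit 80552271983345663)))) (T.h (P (nat_lit 0)) (P (nat_lit 60423203108683776))))))) (T.h (T.h (T.h (P (nat_lit 0)) (T.h (P (nat_lit 12210586735108523420549120)) (T.h (P (nat_lit 0)) (P (nat_lit 311851918521800851456))))) (T.h (P (nat_lit 0)) (T.h (T.h (P (nat_lit 0)) (P (nat_lit 416787428159103434752))) (P (nat_lit 0))))) (T.h (T.h (P (nat_lit 0)) (T.h (T.h (P (nat_lit 838462254728880324608000)) (T.h (P (nat_lit 0)) (M (nat_lit 642023175975698431)))) (T.h (P (nat_lit 0)) (P (nat_lit 113612820420362240))))) (T.h (T.h (T.h (P (nat_lit 0)) (P (nat_lit 1989766113162893983744))) (P (nat_lit 0))) (T.h (T.h (P (nat_lit 0)) (M (nat_lit 977882438642728959))) (P (nat_lit 0))))))), (T.h (T.h (T.h (P (nat_lit 1215232823394490558067779829760)) (T.h (P (nat_lit 0)) (T.h (M (nat_lit 4047908468901851512700927)) (T.h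 (P (nat_lit 0)) (T.h (P (nat_lit 12494376568308629504)) (T.h (P (nat_lit 0)) (M (nat_lit 6670524736831)))))))) (T.h (P (nat_lit 0)) (T.h (T.h (M (nat_lit 70451967772563948882100223)) (T.h (P (nat_lit 0)) (T.h (M (nat_lit 97369097250491334655)) (T.h (P (nat_lit 0)) (M (nat_lit 2255834441519)))))) (T.h (P (nat_lit 0)) (T.h (T.h (M (nat_lit 87726526752205307903)) (T.h (P (nat_lit 0)) (P (nat_lit 158937320446608)))) (T.h (P (nat_lit 0)) (M (nat_lit 98794782225567)))))))) (T.h (T.h (P (nat_lit 0)) (T.h (T.h (P (nat_lit 0)) (T.h (M (nat_lit 522107375545829008867327)) (T.h (P (nat_lit 0)) (P (nat_lit 309096782811529216))))) (T.h (P (nat_lit 0)) (T.h (T.h (P (nat_lit 0)) (P (nat_lit 524299486002118656))) (P (nat_lit 0)))))) (T.h (T.h (T.h (M (nat_lit 120576043976792087757586431)) (T.h (P (nat_lit 0)) (T.h (P (nat_lit 124162819783930150912)) (T.h (P (nat_lit 0)) (P (nat_lit 28042003142032)))))) (T.h (P (nat_lit 0)) (T.h (T.h (M (nat_lit 81801084817891131391))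 (T.h (P (nat_lit 0)) (M (nat_lit 1091247964570191)))) (T.h (P (nat_lit 0)) (P (nat_lit 357297547986368)))))) (T.h (T.h (P (nat_lit 0)) (T.h (T.h (P (nat_lit 0)) (M (nat_lit 1050454184151416831))) (P (nat_lit 0)))) (T.h (T.h (T.h (P (nat_lit 180283347286798368768)) (T.h (P (nat_lit 0)) (M (nat_lit 278655985779071)))) (T.h (P (nat_lit 0)) (M (nat_lit 1470303372520223)))) (T.h (P (nat_lit 0)) (M (nat_lit 368987373836047)))))))), (T.h (T.h (T.h (P (nat_lit 0)) (T.h (P (nat_lit 8411699922250370099984728064)) (T.h (P (nat_lit 0)) (T.h (M (nat_lit 15846572859528663007231)) (T.h (P (nat_lit 0)) (P (nat_lit 18036071833239552))))))) (T.h (P (nat_lit 0)) (T.h (T.h (P (nat_lit 0)) (T.h (M (nat_lit 119877802237292047237119)) (T.h (P (nat_lit 0)) (P (nat_lit 142248101212979200))))) (T.h (P (nat_lit 0)) (T.h (T.h (P (nat_lit 0)) (M (nat_lit 191103879024803839))) (P (nat_lit 0))))))) (T.h (T.h (P (nat_lit 0)) (T.h (T.h (P (nat_lit 118843238548441751768530944)) (T.h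 (P (nat_lit 0)) (M (nat_lit 518126442618692829183)))) (T.h (P (nat_lit 0)) (P (nat_lit 331137193997825474560))))) (T.h (T.h (T.h (P (nat_lit 0)) (T.h (M (nat_lit 173296379375006754275327)) (T.h (P (nat_lit 0)) (M (nat_lit 35450492600254463))))) (T.h (P (nat_lit 0)) (T.h (T.h (P (nat_lit 0)) (P (nat_lit 218599629732970496))) (P (nat_lit 0))))) (T.h (T.h (P (nat_lit 0)) (P (nat_lit 2220623713047010082816))) (T.h (T.h (T.h (P (nat_lit 0)) (M (nat_lit 636113391252635647))) (P (nat_lit 0))) (P (nat_lit 0))))))), (T.h (T.h (P (nat_lit 0)) (T.h (T.h (P (nat_lit 46975016913352412100676288512)) (T.h (P (nat_lit 0)) (T.h (P (nat_lit 827507222453180956672)) (T.h (P (nat_lit 0)) (P (nat_lit 53802347545690112)))))) (T.h (P (nat_lit 0)) (T.h (T.h (M (nat_lit 146627091873147461304319)) (T.h (P (nat_lit 0)) (M (nat_lit 187136119205920767)))) (T.h (P (nat_lit 0)) (P (nat_lit 203718278836256768))))))) (T.h (T.h (T.h (P (nat_lit 0)) (T.h (P (nat_lit 59950188819018535648886784))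 (T.h (P (nat_lit 0)) (P (nat_lit 23457270302150492160))))) (T.h (P (nat_lit 0)) (T.h (T.h (P (nat_lit 0)) (M (nat_lit 365620868819634356223))) (P (nat_lit 0))))) (T.h (T.h (P (nat_lit 0)) (T.h (T.h (M (nat_lit 679248079193030921289727)) (T.h (P (nat_lit 0)) (P (nat_lit 203833824419741696)))) (T.h (P (nat_lit 0)) (P (nat_lit 739440940597215232))))) (T.h (T.h (T.h (P (nat_lit 0)) (P (nat_lit 48132547098284392448))) (P (nat_lit 0))) (T.h (T.h (P (nat_lit 0)) (P (nat_lit 1211482183472513024))) (P (nat_lit 0))))))), (T.h (T.h (P (nat_lit 0)) (T.h (T.h (P (nat_lit 0)) (T.h (P (nat_lit 988941334891427054747648)) (T.h (P (nat_lit 0)) (T.h (P (nat_lit 4289571691257921536)) (T.h (P (nat_lit 0)) (M (nat_lit 1780149283047))))))) (T.h (P (nat_lit 0)) (T.h (T.h (P (nat_lit 0)) (T.h (P (nat_lit 2589773294710292480)) (T.h (P (nat_lit 0)) (M (nat_lit 10560971751551))))) (T.h (P (nat_lit 0)) (T.h (T.h (P (nat_lit 0)) (M (nat_lit 3269161860247))) (P (nat_lit 0))))))))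 (T.h (T.h (T.h (M (nat_lit 13616060523248372760361041919)) (T.h (P (nat_lit 0)) (T.h (M (nat_lit 1018639444731261616127)) (T.h (P (nat_lit 0)) (M (nat_lit 3105598149197823)))))) (T.h (P (nat_lit 0)) (T.h (T.h (P (nat_lit 267052711276420530176)) (T.h (P (nat_lit 0)) (M (nat_lit 15203226427064319)))) (T.h (P (nat_lit 0)) (M (nat_lit 1271887051128831)))))) (T.h (T.h (P (nat_lit 0)) (T.h (T.h (P (nat_lit 0)) (T.h (P (nat_lit 21892392839739867136)) (T.h (P (nat_lit 0)) (P (nat_lit 6954812085344))))) (T.h (P (nat_lit 0)) (T.h (T.h (P (nat_lit 0)) (P (nat_lit 14981556922784))) (P (nat_lit 0)))))) (T.h (T.h (T.h (P (nat_lit 25248286323423985008640)) (T.h (P (nat_lit 0)) (P (nat_lit 21287966337204224)))) (T.h (P (nat_lit 0)) (P (nat_lit 29095574034907136)))) (T.h (T.h (P (nat_lit 0)) (T.h (T.h (P (nat_lit 0)) (P (nat_lit 43087163693056))) (P (nat_lit 0)))) (P (nat_lit 97560360966946816))))))), (T.h (T.h (P (nat_lit 0)) (T.h (T.h (P (nat_lit 825243808494547520458850304))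 (T.h (P (nat_lit 0)) (T.h (M (nat_lit 4538456619322401882111)) (T.h (P (nat_lit 0)) (P (nat_lit 1673160524251136)))))) (T.h (P (nat_lit 0)) (T.h (T.h (P (nat_lit 452590592553853648896)) (T.h (P (nat_lit 0)) (M (nat_lit 18297077188886527)))) (T.h (P (nat_lit 0)) (P (nat_lit 2367037161553920))))))) (T.h (T.h (T.h (P (nat_lit 0)) (T.h (M (nat_lit 3746786908111961168281599)) (T.h (P (nat_lit 0)) (T.h (P (nat_lit 21421683604952449024)) (T.h (P (nat_lit 0)) (P (nat_lit 7351350546784))))))) (T.h (P (nat_lit 0)) (T.h (T.h (P (nat_lit 0)) (T.h (P (nat_lit 6725667058576523264)) (T.h (P (nat_lit 0)) (M (nat_lit 4256921589567))))) (T.h (P (nat_lit 0)) (T.h (T.h (P (nat_lit 0)) (M (nat_lit 14115448294655))) (P (nat_lit 0))))))) (T.h (T.h (P (nat_lit 0)) (T.h (T.h (M (nat_lit 26344594233526511992831)) (T.h (P (nat_lit 0)) (M (nat_lit 9636131581935615)))) (T.h (P (nat_lit 0)) (M (nat_lit 39437525538734079))))) (T.h (T.h (T.h (P (nat_lit 0)) (T.h (P (nat_lit 150605351395472179200))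 (T.h (P (nat_lit 0)) (M (nat_lit 29896136530671))))) (T.h (P (nat_lit 0)) (T.h (T.h (P (nat_lit 0)) (P (nat_lit 20853968390928))) (P (nat_lit 0))))) (T.h (T.h (P (nat_lit 0)) (M (nat_lit 391640158868422655))) (T.h (T.h (T.h (P (nat_lit 0)) (P (nat_lit 126624751875824))) (P (nat_lit 0))) (P (nat_lit 0))))))))]
def lP11_56 : List (T ℤ) := [(T.h (T.h (P (nat_lit 0)) (T.h (T.h (P (nat_lit 0)) (T.h (M (nat_lit 33674519128823394065186815)) (T.h (P (nat_lit 0)) (T.h (M (nat_lit 1924344881111629823)) (T.h (P (nat_lit 0)) (M (nat_lit 26922678205119))))))) (T.h (P (nat_lit 0)) (T.h (T.h (P (nat_lit 0)) (T.h (P (nat_lit 19058927348914061312)) (T.h (P (nat_lit 0)) (M (nat_lit 52855227214911))))) (T.h (P (nat_lit 0)) (T.h (T.h (P (nat_lit 0)) (M (nat_lit 13089198389183))) (P (nat_lit 0)))))))) (T.h (T.h (T.h (P (nat_lit 556240270776678431303139328)) (T.h (P (nat_lit 0)) (T.h (M (nat_lit 22709465110943195201535)) (T.h (P (nat_lit 0)) (M (nat_lit 81212293442699263))))))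 (T.h (P (nat_lit 0)) (T.h (T.h (M (nat_lit 29407020964897829683199)) (T.h (P (nat_lit 0)) (M (nat_lit 23264011617468415)))) (T.h (P (nat_lit 0)) (M (nat_lit 37480698153926655)))))) (T.h (T.h (P (nat_lit 0)) (T.h (T.h (P (nat_lit 0)) (T.h (P (nat_lit 56544454345603678208)) (T.h (P (nat_lit 0)) (P (nat_lit 82499058864512))))) (T.h (P (nat_lit 0)) (T.h (T.h (P (nat_lit 0)) (P (nat_lit 86144119924352))) (P (nat_lit 0)))))) (T.h (T.h (T.h (M (nat_lit 106146170585502539841535)) (T.h (P (nat_lit 0)) (P (nat_lit 97128441095356416)))) (T.h (P (nat_lit 0)) (P (nat_lit 8952162460336128)))) (T.h (T.h (P (nat_lit 0)) (T.h (T.h (P (nat_lit 0)) (M (nat_lit 46655458843455))) (P (nat_lit 0)))) (P (nat_lit 294432181340930048))))))), (T.h (T.h (P (nat_lit 0)) (T.h (T.h (P (nat_lit 15233738752004595955919749120)) (T.h (P (nat_lit 0)) (T.h (M (nat_lit 50588246820526462337023)) (T.h (P (nat_lit 0)) (P (nat_lit 37657315048210432)))))) (T.h (P (nat_lit 0)) (T.h (T.h (M (nat_lit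 21694648982052280467455)) (T.h (P (nat_lit 0)) (P (nat_lit 153507077665947648)))) (T.h (P (nat_lit 0)) (M (nat_lit 8026129388699647))))))) (T.h (T.h (T.h (P (nat_lit 0)) (T.h (M (nat_lit 80905210978061627915501567)) (T.h (P (nat_lit 0)) (T.h (P (nat_lit 104709661005493305344)) (T.h (P (nat_lit 0)) (P (nat_lit 9843633707952))))))) (T.h (P (nat_lit 0)) (T.h (T.h (P (nat_lit 0)) (T.h (P (nat_lit 180384892735593644032)) (T.h (P (nat_lit 0)) (M (nat_lit 153951304182895))))) (T.h (P (nat_lit 0)) (T.h (T.h (P (nat_lit 0)) (M (nat_lit 46938132056991))) (P (nat_lit 0))))))) (T.h (T.h (P (nat_lit 0)) (T.h (T.h (M (nat_lit 190912665759102877564927)) (T.h (P (nat_lit 0)) (M (nat_lit 481125668614946815)))) (T.h (P (nat_lit 0)) (P (nat_lit 117065434944339968))))) (T.h (T.h (T.h (P (nat_lit 0)) (T.h (P (nat_lit 966498054002410782720)) (T.h (P (nat_lit 0)) (M (nat_lit 40807260833679))))) (T.h (P (nat_lit 0)) (T.h (T.h (P (nat_lit 0)) (M (nat_lit 160765879742335)))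 (P (nat_lit 0))))) (T.h (T.h (P (nat_lit 0)) (M (nat_lit 59401021968924671))) (T.h (T.h (T.h (P (nat_lit 0)) (M (nat_lit 202010613196303))) (P (nat_lit 0))) (P (nat_lit 0)))))))), (T.h (T.h (P (nat_lit 0)) (T.h (T.h (P (nat_lit 0)) (T.h (P (nat_lit 104213714518363397557321728)) (T.h (P (nat_lit 0)) (M (nat_lit 18889754215679262719))))) (T.h (P (nat_lit 0)) (T.h (T.h (P (nat_lit 0)) (M (nat_lit 99944006815716474879))) (P (nat_lit 0)))))) (T.h (T.h (T.h (P (nat_lit 23189883887025830961654792192)) (T.h (P (nat_lit 0)) (T.h (M (nat_lit 33956056854755006218239)) (T.h (P (nat_lit 0)) (M (nat_lit 93919563231952895)))))) (T.h (P (nat_lit 0)) (T.h (T.h (M (nat_lit 87515735663265416478719)) (T.h (P (nat_lit 0)) (P (nat_lit 533260947869499392)))) (T.h (P (nat_lit 0)) (M (nat_lit 8342794656481279)))))) (T.h (T.h (P (nat_lit 0)) (T.h (T.h (P (nat_lit 0)) (P (nat_lit 571332830943741214720))) (P (nat_lit 0)))) (T.h (T.h (T.h (M (nat_lit 243099935357513639133183))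 (T.h (P (nat_lit 0)) (P (nat_lit 1175977343068569600)))) (T.h (P (nat_lit 0)) (P (nat_lit 262202542911520768)))) (T.h (P (nat_lit 0)) (P (nat_lit 595563394477948928))))))), (T.h (T.h (T.h (P (nat_lit 0)) (T.h (P (nat_lit 825243808494547520458850304)) (T.h (P (nat_lit 0)) (T.h (P (nat_lit 452590592553853648896)) (T.h (P (nat_lit 0)) (P (nat_lit 2367037161553920))))))) (T.h (P (nat_lit 0)) (T.h (T.h (P (nat_lit 0)) (T.h (M (nat_lit 4538456619322401882111)) (T.h (P (nat_lit 0)) (M (nat_lit 18297077188886527))))) (T.h (P (nat_lit 0)) (T.h (T.h (P (nat_lit 0)) (P (nat_lit 1673160524251136))) (P (nat_lit 0))))))) (T.h (T.h (P (nat_lit 0)) (T.h (T.h (M (nat_lit 3746786908111961168281599)) (T.h (P (nat_lit 0)) (T.h (P (nat_lit 6725667058576523264)) (T.h (P (nat_lit 0)) (M (nat_lit 14115448294655)))))) (T.h (P (nat_lit 0)) (T.h (T.h (P (nat_lit 21421683604952449024)) (T.h (P (nat_lit 0)) (M (nat_lit 4256921589567)))) (T.h (P (nat_lit 0)) (P (nat_lit 7351350546784)))))))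 (T.h (T.h (T.h (P (nat_lit 0)) (T.h (M (nat_lit 26344594233526511992831)) (T.h (P (nat_lit 0)) (M (nat_lit 39437525538734079))))) (T.h (P (nat_lit 0)) (T.h (T.h (P (nat_lit 0)) (M (nat_lit 9636131581935615))) (P (nat_lit 0))))) (T.h (T.h (P (nat_lit 0)) (T.h (T.h (P (nat_lit 150605351395472179200)) (T.h (P (nat_lit 0)) (P (nat_lit 20853968390928)))) (T.h (P (nat_lit 0)) (M (nat_lit 29896136530671))))) (T.h (T.h (T.h (P (nat_lit 0)) (M (nat_lit 391640158868422655))) (P (nat_lit 0))) (T.h (T.h (P (nat_lit 0)) (P (nat_lit 126624751875824))) (P (nat_lit 0)))))))), (T.h (T.h (T.h (M (nat_lit 4938571078680980398957746192383)) (T.h (P (nat_lit 0)) (T.h (M (nat_lit 17641388210366794535272447)) (T.h (P (nat_lit 0)) (T.h (P (nat_lit 962233098714480640)) (T.h (P (nat_lit 0)) (M (nat_lit 33585842871871)))))))) (T.h (P (nat_lit 0)) (T.h (T.h (M (nat_lit 17836594619523343820259327)) (T.h (P (nat_lit 0)) (T.h (M (nat_lit 23610914926365769727)) (T.h (P (nat_lit 0))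 (M (nat_lit 49145268336255)))))) (T.h (P (nat_lit 0)) (T.h (T.h (P (nat_lit 25787116305046831104)) (T.h (P (nat_lit 0)) (M (nat_lit 49145268336255)))) (T.h (P (nat_lit 0)) (M (nat_lit 33585842871871)))))))) (T.h (T.h (P (nat_lit 0)) (T.h (T.h (P (nat_lit 0)) (T.h (P (nat_lit 29511643764035099295744)) (T.h (P (nat_lit 0)) (M (nat_lit 47850695632617471))))) (T.h (P (nat_lit 0)) (T.h (T.h (P (nat_lit 0)) (M (nat_lit 27056780088442879))) (P (nat_lit 0)))))) (T.h (T.h (T.h (M (nat_lit 98586966737565796458823679)) (T.h (P (nat_lit 0)) (T.h (P (nat_lit 22918409602132344832)) (T.h (P (nat_lit 0)) (P (nat_lit 87479027713152)))))) (T.h (P (nat_lit 0)) (T.h (T.h (M (nat_lit 171860310786876375039)) (T.h (P (nat_lit 0)) (M (nat_lit 190117580289279)))) (T.h (P (nat_lit 0)) (P (nat_lit 87479027713152)))))) (T.h (T.h (P (nat_lit 0)) (T.h (T.h (P (nat_lit 0)) (P (nat_lit 374144111672688640))) (P (nat_lit 0)))) (T.h (T.h (T.h (M (nat_lit 17050150359080632319)) (T.h (P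 (nat_lit 0)) (P (nat_lit 25220496191936)))) (T.h (P (nat_lit 0)) (P (nat_lit 25220496191936)))) (T.h (P (nat_lit 0)) (M (nat_lit 259896371934719)))))))), (T.h (T.h (T.h (P (nat_lit 0)) (T.h (P (nat_lit 22056385171391749620211122176)) (T.h (P (nat_lit 0)) (T.h (M (nat_lit 61689989667755156045823)) (T.h (P (nat_lit 0)) (P (nat_lit 96786791661895680))))))) (T.h (P (nat_lit 0)) (T.h (T.h (P (nat_lit 0)) (T.h (P (nat_lit 24522684844148118257664)) (T.h (P (nat_lit 0)) (P (nat_lit 61005692873162752))))) (T.h (P (nat_lit 0)) (T.h (T.h (P (nat_lit 0)) (P (nat_lit 99933179538800640))) (P (nat_lit 0))))))) (T.h (T.h (P (nat_lit 0)) (T.h (T.h (P (nat_lit 52630575178557683830620160)) (T.h (P (nat_lit 0)) (T.h (P (nat_lit 112460165131284774912)) (T.h (P (nat_lit 0)) (P (nat_lit 53051936705152)))))) (T.h (P (nat_lit 0)) (T.h (T.h (P (nat_lit 30487834188759171072)) (T.h (P (nat_lit 0)) (M (nat_lit 58086204154527)))) (T.h (P (nat_lit 0)) (P (nat_lit 56760557853824)))))))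 (T.h (T.h (T.h (P (nat_lit 0)) (T.h (M (nat_lit 25702737167881122873343)) (T.h (P (nat_lit 0)) (P (nat_lit 327098498796929024))))) (T.h (P (nat_lit 0)) (T.h (T.h (P (nat_lit 0)) (P (nat_lit 209679305862021120))) (P (nat_lit 0))))) (T.h (T.h (P (nat_lit 0)) (T.h (T.h (P (nat_lit 246123919164382904320)) (T.h (P (nat_lit 0)) (P (nat_lit 357255833203280)))) (T.h (P (nat_lit 0)) (P (nat_lit 186187917737008))))) (T.h (T.h (T.h (P (nat_lit 0)) (M (nat_lit 2349252942460698623))) (P (nat_lit 0))) (T.h (T.h (P (nat_lit 0)) (P (nat_lit 323965957366480))) (P (nat_lit 0)))))))), (T.h (T.h (T.h (M (nat_lit 16610131237050969157222881296383)) (T.h (P (nat_lit 0)) (T.h (P (nat_lit 78577746382943512002822144)) (T.h (P (nat_lit 0)) (M (nat_lit 44363430733904084991)))))) (T.h (P (nat_lit 0)) (T.h (T.h (M (nat_lit 12159185391653889647837183)) (T.h (P (nat_lit 0)) (M (nat_lit 26916983604714143743)))) (T.h (P (nat_lit 0)) (M (nat_lit 8542965040104341503)))))) (T.h (T.h (P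 (nat_lit 0)) (T.h (T.h (P (nat_lit 0)) (T.h (P (nat_lit 170774383045035088150528)) (T.h (P (nat_lit 0)) (M (nat_lit 116902649026969599))))) (T.h (P (nat_lit 0)) (T.h (T.h (P (nat_lit 0)) (P (nat_lit 7959988333117440))) (P (nat_lit 0)))))) (T.h (T.h (T.h (M (nat_lit 23126752110161750401220607)) (T.h (P (nat_lit 0)) (P (nat_lit 254876444120481529856)))) (T.h (P (nat_lit 0)) (M (nat_lit 12886189783738482687)))) (T.h (T.h (P (nat_lit 0)) (T.h (T.h (P (nat_lit 0)) (M (nat_lit 1474979290622656511))) (P (nat_lit 0)))) (P (nat_lit 118912105825926381568)))))), (T.h (T.h (P (nat_lit 0)) (T.h (T.h (P (nat_lit 0)) (T.h (P (nat_lit 6322265044331844677402624)) (T.h (P (nat_lit 0)) (T.h (M (nat_lit 23752581499227996159)) (T.h (P (nat_lit 0)) (M (nat_lit 10564542817535))))))) (T.h (P (nat_lit 0)) (T.h (T.h (P (nat_lit 0)) (T.h (P (nat_lit 4016770770368724992)) (T.h (P (nat_lit 0)) (M (nat_lit 42294255463359))))) (T.h (P (nat_lit 0)) (T.h (T.h (P (nat_lit 0)) (M (nat_lit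 24398022633471))) (P (nat_lit 0)))))))) (T.h (T.h (T.h (P (nat_lit 21593207691449267749075812352)) (T.h (P (nat_lit 0)) (T.h (M (nat_lit 57490015930355973881855)) (T.h (P (nat_lit 0)) (P (nat_lit 6823743286345728)))))) (T.h (P (nat_lit 0)) (T.h (T.h (M (nat_lit 127704811112245661532159)) (T.h (P (nat_lit 0)) (P (nat_lit 84535012944216064)))) (T.h (P (nat_lit 0)) (P (nat_lit 129461206011281408)))))) (T.h (T.h (P (nat_lit 0)) (T.h (T.h (P (nat_lit 0)) (T.h (P (nat_lit 268115569555179307008)) (T.h (P (nat_lit 0)) (P (nat_lit 75175935420288))))) (T.h (P (nat_lit 0)) (T.h (T.h (P (nat_lit 0)) (P (nat_lit 71530874360448))) (P (nat_lit 0)))))) (T.h (T.h (T.h (P (nat_lit 215615569639635138117632)) (T.h (P (nat_lit 0)) (P (nat_lit 290864835074621440)))) (T.h (P (nat_lit 0)) (P (nat_lit 180504344546279424)))) (T.h (T.h (P (nat_lit 0)) (T.h (T.h (P (nat_lit 0)) (M (nat_lit 89742622536511))) (P (nat_lit 0)))) (M (nat_lit 40820331771592703)))))))]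
def lP11_57 : List (T ℤ) := [(T.h (T.h (P (nat_lit 0)) (T.h (T.h (P (nat_lit 23051141008790165780355350528)) (T.h (P (nat_lit 0)) (T.h (P (nat_lit 24908532925303422451712)) (T.h (P (nat_lit 0)) (P (nat_lit 73765069373112320)))))) (T.h (P (nat_lit 0)) (T.h (T.h (M (nat_lit 60062730209987028582399)) (T.h (P (nat_lit 0)) (P (nat_lit 62907179918098432)))) (T.h (P (nat_lit 0)) (P (nat_lit 95348375668375552))))))) (T.h (T.h (T.h (P (nat_lit 0)) (T.h (P (nat_lit 73000951250190410272735232)) (T.h (P (nat_lit 0)) (T.h (P (nat_lit 16018835821503184896)) (T.h (P (nat_lit 0)) (P (nat_lit 50098001398720))))))) (T.h (P (nat_lit 0)) (T.h (T.h (P (nat_lit 0)) (T.h (P (nat_lit 59724000703880888320)) (T.h (P (nat_lit 0)) (M (nat_lit 57847326960367))))) (T.h (P (nat_lit 0)) (T.h (T.h (P (nat_lit 0)) (P (nat_lit 90782218487136))) (P (nat_lit 0))))))) (T.h (T.h (P (nat_lit 0)) (T.h (T.h (P (nat_lit 37170274258167498014720)) (T.h (P (nat_lit 0)) (P (nat_lit 312519832877809664))))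 (T.h (P (nat_lit 0)) (P (nat_lit 367237435614855168))))) (T.h (T.h (T.h (P (nat_lit 0)) (T.h (P (nat_lit 171865168955112947712)) (T.h (P (nat_lit 0)) (P (nat_lit 187035232750432))))) (T.h (P (nat_lit 0)) (T.h (T.h (P (nat_lit 0)) (P (nat_lit 292515884447072))) (P (nat_lit 0))))) (T.h (T.h (P (nat_lit 0)) (M (nat_lit 1482711047397277695))) (T.h (T.h (T.h (P (nat_lit 0)) (M (nat_lit 106676676447967))) (P (nat_lit 0))) (P (nat_lit 0)))))))), (T.h (T.h (P (nat_lit 0)) (T.h (T.h (P (nat_lit 0)) (T.h (M (nat_lit 91888388661317631653969919)) (T.h (P (nat_lit 0)) (P (nat_lit 28717635963342290944))))) (T.h (P (nat_lit 0)) (T.h (T.h (P (nat_lit 0)) (P (nat_lit 40151734690248654848))) (P (nat_lit 0)))))) (T.h (T.h (T.h (M (nat_lit 26209441321129543010852274175)) (T.h (P (nat_lit 0)) (T.h (P (nat_lit 341031198450498016378880)) (T.h (P (nat_lit 0)) (M (nat_lit 47692615347077119)))))) (T.h (P (nat_lit 0)) (T.h (T.h (P (nat_lit 321749021409978611662848)) (T.h (P (nat_lit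 0)) (M (nat_lit 551833843922272255)))) (T.h (P (nat_lit 0)) (M (nat_lit 5990963912114175)))))) (T.h (T.h (P (nat_lit 0)) (T.h (T.h (P (nat_lit 0)) (P (nat_lit 223978408355584540672))) (P (nat_lit 0)))) (T.h (T.h (T.h (M (nat_lit 49438412129668532535295)) (T.h (P (nat_lit 0)) (M (nat_lit 274047386810875903)))) (T.h (P (nat_lit 0)) (M (nat_lit 228059255975477247)))) (T.h (P (nat_lit 0)) (M (nat_lit 554228412046475263))))))), (T.h (T.h (T.h (P (nat_lit 0)) (T.h (P (nat_lit 16228494589403012116063977472)) (T.h (P (nat_lit 0)) (T.h (M (nat_lit 20067389524284153004031)) (T.h (P (nat_lit 0)) (M (nat_lit 9464545382219775))))))) (T.h (P (nat_lit 0)) (T.h (T.h (P (nat_lit 0)) (T.h (M (nat_lit 50202398739371158142975)) (T.h (P (nat_lit 0)) (P (nat_lit 155408564710883328))))) (T.h (P (nat_lit 0)) (T.h (T.h (P (nat_lit 0)) (P (nat_lit 11489204882522112))) (P (nat_lit 0))))))) (T.h (T.h (P (nat_lit 0)) (T.h (T.h (M (nat_lit 60534834906428901473386495)) (T.h (P (nat_lit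 0)) (T.h (P (nat_lit 127648728308189757440)) (T.h (P (nat_lit 0)) (M (nat_lit 9207850275007)))))) (T.h (P (nat_lit 0)) (T.h (T.h (P (nat_lit 90240662638237319168)) (T.h (P (nat_lit 0)) (M (nat_lit 153712426988735)))) (T.h (P (nat_lit 0)) (P (nat_lit 3181077252848))))))) (T.h (T.h (T.h (P (nat_lit 0)) (T.h (M (nat_lit 128039654333054256676863)) (T.h (P (nat_lit 0)) (P (nat_lit 157204371762266112))))) (T.h (P (nat_lit 0)) (T.h (T.h (P (nat_lit 0)) (M (nat_lit 378285141599158271))) (P (nat_lit 0))))) (T.h (T.h (P (nat_lit 0)) (T.h (T.h (P (nat_lit 892239303793140826112)) (T.h (P (nat_lit 0)) (M (nat_lit 225505828498543)))) (T.h (P (nat_lit 0)) (M (nat_lit 39959945820255))))) (T.h (T.h (T.h (P (nat_lit 0)) (P (nat_lit 807140873094496256))) (P (nat_lit 0))) (T.h (T.h (P (nat_lit 0)) (M (nat_lit 632653247010751))) (P (nat_lit 0)))))))), (T.h (T.h (T.h (M (nat_lit 9929422645557309655018763190271)) (T.h (P (nat_lit 0)) (T.h (M (nat_lit 9006556154225002375282687))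 (T.h (P (nat_lit 0)) (P (nat_lit 1266676104530231296)))))) (T.h (P (nat_lit 0)) (T.h (T.h (P (nat_lit 81730375620372399275376640)) (T.h (P (nat_lit 0)) (M (nat_lit 17021114003566362623)))) (T.h (P (nat_lit 0)) (M (nat_lit 34553789589269512191)))))) (T.h (T.h (P (nat_lit 0)) (T.h (T.h (P (nat_lit 0)) (T.h (P (nat_lit 105439491063623953940480)) (T.h (P (nat_lit 0)) (P (nat_lit 66278057227649024))))) (T.h (P (nat_lit 0)) (T.h (T.h (P (nat_lit 0)) (M (nat_lit 58584580132438015))) (P (nat_lit 0)))))) (T.h (T.h (T.h (M (nat_lit 25276643066355775078137855)) (T.h (P (nat_lit 0)) (M (nat_lit 61164732654412627967)))) (T.h (P (nat_lit 0)) (P (nat_lit 206597901249807384576)))) (T.h (T.h (P (nat_lit 0)) (T.h (T.h (P (nat_lit 0)) (M (nat_lit 1299886296256544767))) (P (nat_lit 0)))) (P (nat_lit 110624555657085321216)))))), (T.h (T.h (P (nat_lit 0)) (T.h (T.h (P (nat_lit 0)) (T.h (P (nat_lit 113981490660604175712256000)) (T.h (P (nat_lit 0)) (M (nat_lit 88691085887297028095)))))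 (T.h (P (nat_lit 0)) (T.h (T.h (P (nat_lit 0)) (M (nat_lit 19070932014166179839))) (P (nat_lit 0)))))) (T.h (T.h (T.h (P (nat_lit 26356730760361998564510924800)) (T.h (P (nat_lit 0)) (T.h (M (nat_lit 52248917792337237639167)) (T.h (P (nat_lit 0)) (M (nat_lit 8727487955140607)))))) (T.h (P (nat_lit 0)) (T.h (T.h (P (nat_lit 20592938056692577337344)) (T.h (P (nat_lit 0)) (P (nat_lit 492196437663481856)))) (T.h (P (nat_lit 0)) (M (nat_lit 136005907965575167)))))) (T.h (T.h (P (nat_lit 0)) (T.h (T.h (P (nat_lit 0)) (P (nat_lit 425660206721393491968))) (P (nat_lit 0)))) (T.h (T.h (T.h (M (nat_lit 257444538064454151045119)) (T.h (P (nat_lit 0)) (P (nat_lit 249507797478834176)))) (T.h (P (nat_lit 0)) (P (nat_lit 1117294466800484352)))) (T.h (P (nat_lit 0)) (P (nat_lit 529980972688670720))))))), (T.h (T.h (T.h (P (nat_lit 8381838962715691754272839434240)) (T.h (P (nat_lit 0)) (T.h (P (nat_lit 94354545371969910472704)) (T.h (P (nat_lit 0)) (T.h (M (nat_lit 1002665088554893311))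 (T.h (P (nat_lit 0)) (M (nat_lit 165424305583)))))))) (T.h (P (nat_lit 0)) (T.h (T.h (P (nat_lit 94354545371969910472704)) (T.h (P (nat_lit 0)) (T.h (P (nat_lit 8284172608572751872)) (T.h (P (nat_lit 0)) (M (nat_lit 4239509951935)))))) (T.h (P (nat_lit 0)) (T.h (T.h (M (nat_lit 1002665088554893311)) (T.h (P (nat_lit 0)) (M (nat_lit 4239509951935)))) (T.h (P (nat_lit 0)) (M (nat_lit 165424305583)))))))) (T.h (T.h (P (nat_lit 0)) (T.h (T.h (P (nat_lit 0)) (T.h (P (nat_lit 5306139762653476683776)) (T.h (P (nat_lit 0)) (M (nat_lit 21171082134913023))))) (T.h (P (nat_lit 0)) (T.h (T.h (P (nat_lit 0)) (M (nat_lit 21171082134913023))) (P (nat_lit 0)))))) (T.h (T.h (T.h (M (nat_lit 24966769086201063159103487)) (T.h (P (nat_lit 0)) (T.h (P (nat_lit 8545227737994887168)) (T.h (P (nat_lit 0)) (M (nat_lit 15443532767759)))))) (T.h (P (nat_lit 0)) (T.h (T.h (P (nat_lit 8545227737994887168)) (T.h (P (nat_lit 0)) (P (nat_lit 35413500645568)))) (T.h (P (nat_lit 0))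 (M (nat_lit 15443532767759)))))) (T.h (T.h (P (nat_lit 0)) (T.h (T.h (P (nat_lit 0)) (M (nat_lit 8154054174244863))) (P (nat_lit 0)))) (T.h (T.h (T.h (M (nat_lit 91567307508984840191)) (T.h (P (nat_lit 0)) (P (nat_lit 28106565702272)))) (T.h (P (nat_lit 0)) (P (nat_lit 28106565702272)))) (T.h (P (nat_lit 0)) (M (nat_lit 9234645211199)))))))), (T.h (T.h (T.h (P (nat_lit 0)) (T.h (M (nat_lit 11148306687387311073933656063)) (T.h (P (nat_lit 0)) (T.h (P (nat_lit 9990154410232597446656)) (T.h (P (nat_lit 0)) (P (nat_lit 15339279740928000))))))) (T.h (P (nat_lit 0)) (T.h (T.h (P (nat_lit 0)) (T.h (M (nat_lit 10168343157988999036927)) (T.h (P (nat_lit 0)) (P (nat_lit 15342922548215808))))) (T.h (P (nat_lit 0)) (T.h (T.h (P (nat_lit 0)) (P (nat_lit 11197351691255808))) (P (nat_lit 0))))))) (T.h (T.h (P (nat_lit 0)) (T.h (T.h (P (nat_lit 6837049029011826800590848)) (T.h (P (nat_lit 0)) (T.h (P (nat_lit 59282405974557589504)) (T.h (P (nat_lit 0)) (P (nat_lit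 30400262961600)))))) (T.h (P (nat_lit 0)) (T.h (T.h (P (nat_lit 1303559475084394496)) (T.h (P (nat_lit 0)) (M (nat_lit 8555555049535)))) (T.h (P (nat_lit 0)) (P (nat_lit 5360624420992))))))) (T.h (T.h (T.h (P (nat_lit 0)) (T.h (M (nat_lit 42457184328535899111423)) (T.h (P (nat_lit 0)) (P (nat_lit 177198910576820224))))) (T.h (P (nat_lit 0)) (T.h (T.h (P (nat_lit 0)) (P (nat_lit 138485348847714304))) (P (nat_lit 0))))) (T.h (T.h (P (nat_lit 0)) (T.h (T.h (P (nat_lit 198712546212878221312)) (T.h (P (nat_lit 0)) (M (nat_lit 50830335485887)))) (T.h (P (nat_lit 0)) (P (nat_lit 62827191098304))))) (T.h (T.h (T.h (P (nat_lit 0)) (P (nat_lit 107454521002655744))) (P (nat_lit 0))) (T.h (T.h (P (nat_lit 0)) (M (nat_lit 519960225386687))) (P (nat_lit 0)))))))), (T.h (T.h (T.h (P (nat_lit 1125191178323626060599525376000)) (T.h (P (nat_lit 0)) (T.h (P (nat_lit 12526376508625760402014208)) (T.h (P (nat_lit 0)) (T.h (M (nat_lit 9306149800544043007)) (T.h (P (nat_lit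 0)) (P (nat_lit 1586148909312)))))))) (T.h (P (nat_lit 0)) (T.h (T.h (P (nat_lit 5767003101391923837927424)) (T.h (P (nat_lit 0)) (T.h (P (nat_lit 1877110365234397184)) (T.h (P (nat_lit 0)) (M (nat_lit 52667779269951)))))) (T.h (P (nat_lit 0)) (T.h (T.h (P (nat_lit 2169328327335084032)) (T.h (P (nat_lit 0)) (M (nat_lit 49126568938831)))) (T.h (P (nat_lit 0)) (P (nat_lit 3821769693456)))))))) (T.h (T.h (P (nat_lit 0)) (T.h (T.h (P (nat_lit 0)) (T.h (M (nat_lit 56440631814495246745599)) (T.h (P (nat_lit 0)) (M (nat_lit 11779929606979583))))) (T.h (P (nat_lit 0)) (T.h (T.h (P (nat_lit 0)) (M (nat_lit 115810020998676479))) (P (nat_lit 0)))))) (T.h (T.h (T.h (M (nat_lit 46278492287481778855215103)) (T.h (P (nat_lit 0)) (T.h (M (nat_lit 267369536469543682047)) (T.h (P (nat_lit 0)) (P (nat_lit 129681242717312)))))) (T.h (P (nat_lit 0)) (T.h (T.h (M (nat_lit 217516683191390306303)) (T.h (P (nat_lit 0)) (P (nat_lit 109922351265936)))) (T.h (P (nat_lit 0)) (M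 (nat_lit 17832029004943)))))) (T.h (T.h (P (nat_lit 0)) (T.h (T.h (P (nat_lit 0)) (P (nat_lit 297687919684386816))) (P (nat_lit 0)))) (T.h (T.h (T.h (M (nat_lit 156129275264035192831)) (T.h (P (nat_lit 0)) (P (nat_lit 78162321228816)))) (T.h (P (nat_lit 0)) (P (nat_lit 33231154151888)))) (T.h (P (nat_lit 0)) (P (nat_lit 130481994932784))))))))]
def lP11_58 : List (T ℤ) := [(T.h (T.h (T.h (P (nat_lit 0)) (T.h (P (nat_lit 9479945226855203678944493568)) (T.h (P (nat_lit 0)) (T.h (M (nat_lit 8055960460481364230143)) (T.h (P (nat_lit 0)) (M (nat_lit 3604578148319231))))))) (T.h (P (nat_lit 0)) (T.h (T.h (P (nat_lit 0)) (T.h (M (nat_lit 15229871120192928481279)) (T.h (P (nat_lit 0)) (P (nat_lit 67886065340547072))))) (T.h (P (nat_lit 0)) (T.h (T.h (P (nat_lit 0)) (P (nat_lit 27031974620561408))) (P (nat_lit 0))))))) (T.h (T.h (P (nat_lit 0)) (T.h (T.h (P (nat_lit 68480659706341009634885632)) (T.h (P (nat_lit 0)) (P (nat_lit 28561419631895511040)))) (T.h (P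 (nat_lit 0)) (P (nat_lit 11930534835996590080))))) (T.h (T.h (T.h (P (nat_lit 0)) (T.h (M (nat_lit 252405377024740638588927)) (T.h (P (nat_lit 0)) (M (nat_lit 73784448161644543))))) (T.h (P (nat_lit 0)) (T.h (T.h (P (nat_lit 0)) (P (nat_lit 48863964941058048))) (P (nat_lit 0))))) (T.h (T.h (P (nat_lit 0)) (M (nat_lit 76622548805082939391))) (T.h (T.h (T.h (P (nat_lit 0)) (P (nat_lit 158948710125174784))) (P (nat_lit 0))) (P (nat_lit 0))))))), (T.h (T.h (P (nat_lit 0)) (T.h (T.h (M (nat_lit 3780153751771600944814358527)) (T.h (P (nat_lit 0)) (T.h (M (nat_lit 88210354434840985599)) (T.h (P (nat_lit 0)) (M (nat_lit 284494181138431)))))) (T.h (P (nat_lit 0)) (T.h (T.h (M (nat_lit 1457770238150346539007)) (T.h (P (nat_lit 0)) (P (nat_lit 14375276557860864)))) (T.h (P (nat_lit 0)) (P (nat_lit 17228509411311616))))))) (T.h (T.h (T.h (P (nat_lit 0)) (T.h (P (nat_lit 2889557590091532972589056)) (T.h (P (nat_lit 0)) (T.h (P (nat_lit 44671618533919031296)) (T.h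 (P (nat_lit 0)) (P (nat_lit 5360624420992))))))) (T.h (P (nat_lit 0)) (T.h (T.h (P (nat_lit 0)) (T.h (M (nat_lit 5856668508896624639)) (T.h (P (nat_lit 0)) (M (nat_lit 8555555049535))))) (T.h (P (nat_lit 0)) (T.h (T.h (P (nat_lit 0)) (P (nat_lit 30400262961600))) (P (nat_lit 0))))))) (T.h (T.h (P (nat_lit 0)) (T.h (T.h (P (nat_lit 64746482784571622424576)) (T.h (P (nat_lit 0)) (M (nat_lit 99760511744278527)))) (T.h (P (nat_lit 0)) (M (nat_lit 39003143773716479))))) (T.h (T.h (T.h (P (nat_lit 0)) (T.h (M (nat_lit 30454085060791369727)) (T.h (P (nat_lit 0)) (P (nat_lit 62827191098304))))) (T.h (P (nat_lit 0)) (T.h (T.h (P (nat_lit 0)) (M (nat_lit 50830335485887))) (P (nat_lit 0))))) (T.h (T.h (P (nat_lit 0)) (M (nat_lit 771336637420175359))) (T.h (T.h (T.h (P (nat_lit 0)) (M (nat_lit 519960225386687))) (P (nat_lit 0))) (P (nat_lit 0)))))))), (T.h (T.h (P (nat_lit 0)) (T.h (T.h (P (nat_lit 0)) (T.h (P (nat_lit 12728157364842137498157056)) (T.h (P (nat_lit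 0)) (T.h (M (nat_lit 15539825767377534975)) (T.h (P (nat_lit 0)) (M (nat_lit 53103933012239))))))) (T.h (P (nat_lit 0)) (T.h (T.h (P (nat_lit 0)) (T.h (M (nat_lit 15539825767377534975)) (T.h (P (nat_lit 0)) (P (nat_lit 1364867077376))))) (T.h (P (nat_lit 0)) (T.h (T.h (P (nat_lit 0)) (M (nat_lit 53103933012239))) (P (nat_lit 0)))))))) (T.h (T.h (T.h (P (nat_lit 17659136188694529823951814656)) (T.h (P (nat_lit 0)) (T.h (P (nat_lit 39795335775124061159424)) (T.h (P (nat_lit 0)) (M (nat_lit 99868825715032063)))))) (T.h (P (nat_lit 0)) (T.h (T.h (P (nat_lit 39795335775124061159424)) (T.h (P (nat_lit 0)) (P (nat_lit 10397342753980416)))) (T.h (P (nat_lit 0)) (M (nat_lit 99868825715032063)))))) (T.h (T.h (P (nat_lit 0)) (T.h (T.h (P (nat_lit 0)) (T.h (M (nat_lit 303699369560303992831)) (T.h (P (nat_lit 0)) (M (nat_lit 232315348433871))))) (T.h (P (nat_lit 0)) (T.h (T.h (P (nat_lit 0)) (M (nat_lit 232315348433871))) (P (nat_lit 0)))))) (T.h (T.h (T.h (P (nat_lit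 73861470267005309288448)) (T.h (P (nat_lit 0)) (M (nat_lit 78670430591942655)))) (T.h (P (nat_lit 0)) (M (nat_lit 78670430591942655)))) (T.h (T.h (P (nat_lit 0)) (T.h (T.h (P (nat_lit 0)) (M (nat_lit 170370273170943))) (P (nat_lit 0)))) (P (nat_lit 598338107407433728))))))), (T.h (T.h (P (nat_lit 0)) (T.h (T.h (M (nat_lit 3852606373610495334007439359)) (T.h (P (nat_lit 0)) (T.h (P (nat_lit 6837357369292922814464)) (T.h (P (nat_lit 0)) (P (nat_lit 59169193778446336)))))) (T.h (P (nat_lit 0)) (T.h (T.h (P (nat_lit 22505124835361908850688)) (T.h (P (nat_lit 0)) (P (nat_lit 46638150502907904)))) (T.h (P (nat_lit 0)) (M (nat_lit 4950061242613759))))))) (T.h (T.h (T.h (P (nat_lit 0)) (T.h (M (nat_lit 59607409781330600397897727)) (T.h (P (nat_lit 0)) (P (nat_lit 18434105099233001472))))) (T.h (P (nat_lit 0)) (T.h (T.h (P (nat_lit 0)) (P (nat_lit 114307951635558563840))) (P (nat_lit 0))))) (T.h (T.h (P (nat_lit 0)) (T.h (T.h (M (nat_lit 245447685447027747979263))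 (T.h (P (nat_lit 0)) (M (nat_lit 110716026291683327)))) (T.h (P (nat_lit 0)) (M (nat_lit 47461522852282367))))) (T.h (T.h (T.h (P (nat_lit 0)) (P (nat_lit 1752441552205047136256))) (P (nat_lit 0))) (T.h (T.h (P (nat_lit 0)) (M (nat_lit 282237081034981375))) (P (nat_lit 0))))))), (T.h (T.h (T.h (M (nat_lit 1897610530039319708766159503359)) (T.h (P (nat_lit 0)) (T.h (P (nat_lit 4900160410865909649899520)) (T.h (P (nat_lit 0)) (T.h (M (nat_lit 28736025228476415)) (T.h (P (nat_lit 0)) (P (nat_lit 4563917164224)))))))) (T.h (P (nat_lit 0)) (T.h (T.h (P (nat_lit 11659533818099746213986304)) (T.h (P (nat_lit 0)) (T.h (P (nat_lit 1796875283924516864)) (T.h (P (nat_lit 0)) (M (nat_lit 41575545036607)))))) (T.h (P (nat_lit 0)) (T.h (T.h (M (nat_lit 11504214153107603455)) (T.h (P (nat_lit 0)) (M (nat_lit 45116755367727)))) (T.h (P (nat_lit 0)) (P (nat_lit 2328296380080)))))))) (T.h (T.h (P (nat_lit 0)) (T.h (T.h (P (nat_lit 0)) (T.h (M (nat_lit 47308519645167134703615))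 (T.h (P (nat_lit 0)) (M (nat_lit 108885679429091327))))) (T.h (P (nat_lit 0)) (T.h (T.h (P (nat_lit 0)) (M (nat_lit 4855588037394431))) (P (nat_lit 0)))))) (T.h (T.h (T.h (M (nat_lit 11050327236405624798445567)) (T.h (P (nat_lit 0)) (T.h (M (nat_lit 184178114273411596287)) (T.h (P (nat_lit 0)) (M (nat_lit 5489871499375)))))) (T.h (P (nat_lit 0)) (T.h (T.h (M (nat_lit 234030967551564972031)) (T.h (P (nat_lit 0)) (P (nat_lit 54272564669136)))) (T.h (P (nat_lit 0)) (P (nat_lit 142023400222880)))))) (T.h (T.h (P (nat_lit 0)) (T.h (T.h (P (nat_lit 0)) (P (nat_lit 263943871069847552))) (P (nat_lit 0)))) (T.h (T.h (T.h (M (nat_lit 83270179112102133759)) (T.h (P (nat_lit 0)) (M (nat_lit 22887554581935)))) (T.h (P (nat_lit 0)) (P (nat_lit 22043612494992)))) (T.h (P (nat_lit 0)) (P (nat_lit 144993577875696)))))))), (T.h (T.h (T.h (P (nat_lit 0)) (T.h (M (nat_lit 7701889658509832260839014399)) (T.h (P (nat_lit 0)) (T.h (P (nat_lit 20335915801868752650240)) (T.h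 (P (nat_lit 0)) (M (nat_lit 4538660560863231))))))) (T.h (P (nat_lit 0)) (T.h (T.h (P (nat_lit 0)) (T.h (P (nat_lit 6519229612818935316480)) (T.h (P (nat_lit 0)) (P (nat_lit 40970222475575296))))) (T.h (P (nat_lit 0)) (T.h (T.h (P (nat_lit 0)) (P (nat_lit 49332774597263360))) (P (nat_lit 0))))))) (T.h (T.h (P (nat_lit 0)) (T.h (T.h (M (nat_lit 68293177357854968704401407)) (T.h (P (nat_lit 0)) (P (nat_lit 92955797684135919616)))) (T.h (P (nat_lit 0)) (M (nat_lit 13677298616308334591))))) (T.h (T.h (T.h (P (nat_lit 0)) (T.h (M (nat_lit 253363119254356700954623)) (T.h (P (nat_lit 0)) (M (nat_lit 57126328100290559))))) (T.h (P (nat_lit 0)) (T.h (T.h (P (nat_lit 0)) (M (nat_lit 53833865286352895))) (P (nat_lit 0))))) (T.h (T.h (P (nat_lit 0)) (P (nat_lit 1625468407039609798656))) (T.h (T.h (T.h (P (nat_lit 0)) (P (nat_lit 139548628168081408))) (P (nat_lit 0))) (P (nat_lit 0))))))), (T.h (T.h (P (nat_lit 0)) (T.h (T.h (P (nat_lit 5630661941955866752112918528))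 (T.h (P (nat_lit 0)) (T.h (M (nat_lit 15547998876666915979263)) (T.h (P (nat_lit 0)) (P (nat_lit 17195555439378432)))))) (T.h (P (nat_lit 0)) (T.h (T.h (M (nat_lit 10225169493974520430591)) (T.h (P (nat_lit 0)) (P (nat_lit 62218137313214464)))) (T.h (P (nat_lit 0)) (M (nat_lit 3193177466568703))))))) (T.h (T.h (T.h (P (nat_lit 0)) (T.h (P (nat_lit 59794892129816641328381952)) (T.h (P (nat_lit 0)) (M (nat_lit 20180868879544745983))))) (T.h (P (nat_lit 0)) (T.h (T.h (P (nat_lit 0)) (P (nat_lit 7209265680472866816))) (P (nat_lit 0))))) (T.h (T.h (P (nat_lit 0)) (T.h (T.h (M (nat_lit 260320810832069591564287)) (T.h (P (nat_lit 0)) (P (nat_lit 105746125946388480)))) (T.h (P (nat_lit 0)) (M (nat_lit 83449253409652735))))) (T.h (T.h (T.h (P (nat_lit 0)) (M (nat_lit 203595693970520276991))) (P (nat_lit 0))) (T.h (T.h (P (nat_lit 0)) (P (nat_lit 580734419328237568))) (P (nat_lit 0))))))), (T.h (T.h (P (nat_lit 0)) (T.h (T.h (P (nat_lit 0)) (T.h (M (nat_lit 1375602425031345005658111))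 (T.h (P (nat_lit 0)) (T.h (M (nat_lit 8805342538014654463)) (T.h (P (nat_lit 0)) (P (nat_lit 2524655571648))))))) (T.h (P (nat_lit 0)) (T.h (T.h (P (nat_lit 0)) (T.h (P (nat_lit 2413284188405891072)) (T.h (P (nat_lit 0)) (P (nat_lit 10560971751552))))) (T.h (P (nat_lit 0)) (T.h (T.h (P (nat_lit 0)) (P (nat_lit 2524655571648))) (P (nat_lit 0)))))))) (T.h (T.h (T.h (P (nat_lit 19513362596848012897021853696)) (T.h (P (nat_lit 0)) (T.h (P (nat_lit 4107924079950048526336)) (T.h (P (nat_lit 0)) (M (nat_lit 1307171908157439)))))) (T.h (P (nat_lit 0)) (T.h (T.h (P (nat_lit 7063357461541198757888)) (T.h (P (nat_lit 0)) (M (nat_lit 5518730472980479)))) (T.h (P (nat_lit 0)) (P (nat_lit 14876198407176192)))))) (T.h (T.h (P (nat_lit 0)) (T.h (T.h (P (nat_lit 0)) (T.h (M (nat_lit 65383704587684282367)) (T.h (P (nat_lit 0)) (M (nat_lit 10968184504063))))) (T.h (P (nat_lit 0)) (T.h (T.h (P (nat_lit 0)) (M (nat_lit 10968184504063))) (P (nat_lit 0)))))) (T.h (T.h (T.h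 (M (nat_lit 63987633135800041865215)) (T.h (P (nat_lit 0)) (M (nat_lit 85837983571574783)))) (T.h (P (nat_lit 0)) (M (nat_lit 48131822609170431)))) (T.h (T.h (P (nat_lit 0)) (T.h (T.h (P (nat_lit 0)) (M (nat_lit 43087163693055))) (P (nat_lit 0)))) (M (nat_lit 81349603584901119)))))))]
def lP11_59 : List (T ℤ) := [(T.h (T.h (P (nat_lit 0)) (T.h (T.h (P (nat_lit 994755837398416160144228352)) (T.h (P (nat_lit 0)) (T.h (P (nat_lit 385848081155304194048)) (T.h (P (nat_lit 0)) (M (nat_lit 26168110165688319)))))) (T.h (P (nat_lit 0)) (T.h (T.h (P (nat_lit 1627259457768127463424)) (T.h (P (nat_lit 0)) (P (nat_lit 1901487044935680)))) (T.h (P (nat_lit 0)) (M (nat_lit 1438415993520127))))))) (T.h (T.h (T.h (P (nat_lit 0)) (T.h (P (nat_lit 20370376071632726442115072)) (T.h (P (nat_lit 0)) (T.h (M (nat_lit 14468998367255986175)) (T.h (P (nat_lit 0)) (M (nat_lit 6662556455103))))))) (T.h (P (nat_lit 0)) (T.h (T.h (P (nat_lit 0)) (T.h (M (nat_lit 52736164427403886591))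 (T.h (P (nat_lit 0)) (P (nat_lit 238877194160))))) (T.h (P (nat_lit 0)) (T.h (T.h (P (nat_lit 0)) (P (nat_lit 37730281781984))) (P (nat_lit 0))))))) (T.h (T.h (P (nat_lit 0)) (T.h (T.h (P (nat_lit 62873011426048620888064)) (T.h (P (nat_lit 0)) (P (nat_lit 102840527015788544)))) (T.h (P (nat_lit 0)) (P (nat_lit 40138936817926144))))) (T.h (T.h (T.h (P (nat_lit 0)) (T.h (M (nat_lit 74258750209269956607)) (T.h (P (nat_lit 0)) (P (nat_lit 847315013424))))) (T.h (P (nat_lit 0)) (T.h (T.h (P (nat_lit 0)) (M (nat_lit 64739948756207))) (P (nat_lit 0))))) (T.h (T.h (P (nat_lit 0)) (P (nat_lit 866541895063420928))) (T.h (T.h (T.h (P (nat_lit 0)) (M (nat_lit 430642633814447))) (P (nat_lit 0))) (P (nat_lit 0)))))))), (T.h (T.h (P (nat_lit 0)) (T.h (T.h (P (nat_lit 0)) (T.h (P (nat_lit 9767776142240778154934272)) (T.h (P (nat_lit 0)) (M (nat_lit 181177798486917119))))) (T.h (P (nat_lit 0)) (T.h (T.h (P (nat_lit 0)) (P (nat_lit 11252920928419446784))) (P (nat_lit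 0)))))) (T.h (T.h (T.h (P (nat_lit 3166846873336167602856132608)) (T.h (P (nat_lit 0)) (T.h (P (nat_lit 54548994911447583555584)) (T.h (P (nat_lit 0)) (M (nat_lit 42086344733622271)))))) (T.h (P (nat_lit 0)) (T.h (T.h (P (nat_lit 35266817870928178839552)) (T.h (P (nat_lit 0)) (M (nat_lit 41064510206017535)))) (T.h (P (nat_lit 0)) (M (nat_lit 384693298659327)))))) (T.h (T.h (P (nat_lit 0)) (T.h (T.h (P (nat_lit 0)) (M (nat_lit 145672624222347722751))) (P (nat_lit 0)))) (T.h (T.h (T.h (M (nat_lit 14344602706940511911935)) (T.h (P (nat_lit 0)) (M (nat_lit 58682876268085247)))) (T.h (P (nat_lit 0)) (M (nat_lit 12694745432686591)))) (T.h (P (nat_lit 0)) (M (nat_lit 65582421789278207))))))), (T.h (T.h (T.h (P (nat_lit 0)) (T.h (P (nat_lit 994755837398416160144228352)) (T.h (P (nat_lit 0)) (T.h (P (nat_lit 1627259457768127463424)) (T.h (P (nat_lit 0)) (M (nat_lit 1438415993520127))))))) (T.h (P (nat_lit 0)) (T.h (T.h (P (nat_lit 0)) (T.h (P (nat_lit 385848081155304194048))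 (T.h (P (nat_lit 0)) (P (nat_lit 1901487044935680))))) (T.h (P (nat_lit 0)) (T.h (T.h (P (nat_lit 0)) (M (nat_lit 26168110165688319))) (P (nat_lit 0))))))) (T.h (T.h (P (nat_lit 0)) (T.h (T.h (P (nat_lit 20370376071632726442115072)) (T.h (P (nat_lit 0)) (T.h (M (nat_lit 52736164427403886591)) (T.h (P (nat_lit 0)) (P (nat_lit 37730281781984)))))) (T.h (P (nat_lit 0)) (T.h (T.h (M (nat_lit 14468998367255986175)) (T.h (P (nat_lit 0)) (P (nat_lit 238877194160)))) (T.h (P (nat_lit 0)) (M (nat_lit 6662556455103))))))) (T.h (T.h (T.h (P (nat_lit 0)) (T.h (P (nat_lit 62873011426048620888064)) (T.h (P (nat_lit 0)) (P (nat_lit 40138936817926144))))) (T.h (P (nat_lit 0)) (T.h (T.h (P (nat_lit 0)) (P (nat_lit 102840527015788544))) (P (nat_lit 0))))) (T.h (T.h (P (nat_lit 0)) (T.h (T.h (M (nat_lit 74258750209269956607)) (T.h (P (nat_lit 0)) (M (nat_lit 64739948756207)))) (T.h (P (nat_lit 0)) (P (nat_lit 847315013424))))) (T.h (T.h (T.h (P (nat_lit 0)) (P (nat_lit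 866541895063420928))) (P (nat_lit 0))) (T.h (T.h (P (nat_lit 0)) (M (nat_lit 430642633814447))) (P (nat_lit 0)))))))), (T.h (T.h (T.h (P (nat_lit 6680708591493659502204118106112)) (T.h (P (nat_lit 0)) (T.h (P (nat_lit 3152629237428887272554496)) (T.h (P (nat_lit 0)) (P (nat_lit 9809641144634572800)))))) (T.h (P (nat_lit 0)) (T.h (T.h (P (nat_lit 3152629237428887272554496)) (T.h (P (nat_lit 0)) (P (nat_lit 9895869601147781120)))) (T.h (P (nat_lit 0)) (P (nat_lit 9809641144634572800)))))) (T.h (T.h (P (nat_lit 0)) (T.h (T.h (P (nat_lit 0)) (T.h (M (nat_lit 65334891981411134210047)) (T.h (P (nat_lit 0)) (P (nat_lit 58318068894531584))))) (T.h (P (nat_lit 0)) (T.h (T.h (P (nat_lit 0)) (P (nat_lit 58318068894531584))) (P (nat_lit 0)))))) (T.h (T.h (T.h (M (nat_lit 2149890956194024676917247)) (T.h (P (nat_lit 0)) (M (nat_lit 48278542870674145279)))) (T.h (P (nat_lit 0)) (M (nat_lit 48278542870674145279)))) (T.h (T.h (P (nat_lit 0)) (T.h (T.h (P (nat_lit 0))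 (P (nat_lit 175092994366111744))) (P (nat_lit 0)))) (M (nat_lit 8287550168841060351)))))), (T.h (T.h (P (nat_lit 0)) (T.h (T.h (P (nat_lit 0)) (T.h (P (nat_lit 10154437232380696105844736)) (T.h (P (nat_lit 0)) (P (nat_lit 11009277610239721472))))) (T.h (P (nat_lit 0)) (T.h (T.h (P (nat_lit 0)) (M (nat_lit 424821116666642431))) (P (nat_lit 0)))))) (T.h (T.h (T.h (M (nat_lit 2730455200263472533804679167)) (T.h (P (nat_lit 0)) (T.h (P (nat_lit 30056970466909975740416)) (T.h (P (nat_lit 0)) (M (nat_lit 4980463948005375)))))) (T.h (P (nat_lit 0)) (T.h (T.h (P (nat_lit 49339147507429380456448)) (T.h (P (nat_lit 0)) (M (nat_lit 20342553305972735)))) (T.h (P (nat_lit 0)) (M (nat_lit 46682115382968319)))))) (T.h (T.h (P (nat_lit 0)) (T.h (T.h (P (nat_lit 0)) (M (nat_lit 102181312474403307519))) (P (nat_lit 0)))) (T.h (T.h (T.h (P (nat_lit 24394744105435544944640)) (T.h (P (nat_lit 0)) (P (nat_lit 29098387471630336)))) (T.h (P (nat_lit 0)) (M (nat_lit 16889743363768319))))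 (T.h (P (nat_lit 0)) (M (nat_lit 81793179171323903))))))), (T.h (T.h (T.h (M (nat_lit 3022801708362945769365684879359)) (T.h (P (nat_lit 0)) (T.h (M (nat_lit 866842690526014188027903)) (T.h (P (nat_lit 0)) (T.h (M (nat_lit 2198064352563560447)) (T.h (P (nat_lit 0)) (P (nat_lit 742147470768)))))))) (T.h (P (nat_lit 0)) (T.h (T.h (M (nat_lit 866842690526014188027903)) (T.h (P (nat_lit 0)) (T.h (M (nat_lit 80235081309880319)) (T.h (P (nat_lit 0)) (P (nat_lit 7551023902224)))))) (T.h (P (nat_lit 0)) (T.h (T.h (M (nat_lit 2198064352563560447)) (T.h (P (nat_lit 0)) (P (nat_lit 7551023902224)))) (T.h (P (nat_lit 0)) (P (nat_lit 742147470768)))))))) (T.h (T.h (P (nat_lit 0)) (T.h (T.h (P (nat_lit 0)) (T.h (P (nat_lit 9132112169328112041984)) (T.h (P (nat_lit 0)) (P (nat_lit 6924341569585152))))) (T.h (P (nat_lit 0)) (T.h (T.h (P (nat_lit 0)) (P (nat_lit 6924341569585152))) (P (nat_lit 0)))))) (T.h (T.h (T.h (P (nat_lit 35228165051076154056769536)) (T.h (P (nat_lit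 0)) (T.h (P (nat_lit 33338568917978710016)) (T.h (P (nat_lit 0)) (P (nat_lit 12342157505568)))))) (T.h (P (nat_lit 0)) (T.h (T.h (P (nat_lit 33338568917978710016)) (T.h (P (nat_lit 0)) (M (nat_lit 55649786596799)))) (T.h (P (nat_lit 0)) (P (nat_lit 12342157505568)))))) (T.h (T.h (P (nat_lit 0)) (T.h (T.h (P (nat_lit 0)) (M (nat_lit 33744048614539263))) (P (nat_lit 0)))) (T.h (T.h (T.h (P (nat_lit 72859096151933059072)) (T.h (P (nat_lit 0)) (M (nat_lit 56118708733823)))) (T.h (P (nat_lit 0)) (M (nat_lit 56118708733823)))) (T.h (P (nat_lit 0)) (P (nat_lit 14511582942912)))))))), (T.h (T.h (T.h (P (nat_lit 0)) (T.h (M (nat_lit 3849283284899336926831575039)) (T.h (P (nat_lit 0)) (T.h (M (nat_lit 2169209033493156200447)) (T.h (P (nat_lit 0)) (P (nat_lit 411400681750528))))))) (T.h (P (nat_lit 0)) (T.h (T.h (P (nat_lit 0)) (T.h (M (nat_lit 318127756473987497983)) (T.h (P (nat_lit 0)) (M (nat_lit 5667928027332607))))) (T.h (P (nat_lit 0)) (T.h (T.h (P (nat_lit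 0)) (M (nat_lit 9836419181182975))) (P (nat_lit 0))))))) (T.h (T.h (P (nat_lit 0)) (T.h (T.h (M (nat_lit 8685767576524368306503679)) (T.h (P (nat_lit 0)) (M (nat_lit 21352153951422644223)))) (T.h (P (nat_lit 0)) (M (nat_lit 32111403715541336063))))) (T.h (T.h (T.h (P (nat_lit 0)) (T.h (M (nat_lit 7915433807328952975359)) (T.h (P (nat_lit 0)) (M (nat_lit 9664805248008191))))) (T.h (P (nat_lit 0)) (T.h (T.h (P (nat_lit 0)) (P (nat_lit 56882161005330432))) (P (nat_lit 0))))) (T.h (T.h (P (nat_lit 0)) (M (nat_lit 126973145165437337599))) (T.h (T.h (T.h (P (nat_lit 0)) (P (nat_lit 421785709203062784))) (P (nat_lit 0))) (P (nat_lit 0))))))), (T.h (T.h (P (nat_lit 0)) (T.h (T.h (M (nat_lit 3849283284899336926831575039)) (T.h (P (nat_lit 0)) (T.h (M (nat_lit 318127756473987497983)) (T.h (P (nat_lit 0)) (M (nat_lit 9836419181182975)))))) (T.h (P (nat_lit 0)) (T.h (T.h (M (nat_lit 2169209033493156200447)) (T.h (P (nat_lit 0)) (M (nat_lit 5667928027332607))))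 (T.h (P (nat_lit 0)) (P (nat_lit 411400681750528))))))) (T.h (T.h (T.h (P (nat_lit 0)) (T.h (M (nat_lit 8685767576524368306503679)) (T.h (P (nat_lit 0)) (M (nat_lit 32111403715541336063))))) (T.h (P (nat_lit 0)) (T.h (T.h (P (nat_lit 0)) (M (nat_lit 21352153951422644223))) (P (nat_lit 0))))) (T.h (T.h (P (nat_lit 0)) (T.h (T.h (M (nat_lit 7915433807328952975359)) (T.h (P (nat_lit 0)) (P (nat_lit 56882161005330432)))) (T.h (P (nat_lit 0)) (M (nat_lit 9664805248008191))))) (T.h (T.h (T.h (P (nat_lit 0)) (M (nat_lit 126973145165437337599))) (P (nat_lit 0))) (T.h (T.h (P (nat_lit 0)) (P (nat_lit 421785709203062784))) (P (nat_lit 0)))))))]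
def lP11_60 : List (T ℤ) := [(T.h (T.h (P (nat_lit 0)) (T.h (T.h (P (nat_lit 0)) (T.h (P (nat_lit 386661090139917950910464)) (T.h (P (nat_lit 0)) (M (nat_lit 243643318179725311))))) (T.h (P (nat_lit 0)) (T.h (T.h (P (nat_lit 0)) (M (nat_lit 243643318179725311))) (P (nat_lit 0)))))) (T.h (T.h (T.h (M (nat_lit 5897302073599640136660811775)) (T.h (P (nat_lit 0)) (T.h (M (nat_lit 5209847404018203099135)) (T.h (P (nat_lit 0)) (M (nat_lit 4595770649346047)))))) (T.h (P (nat_lit 0)) (T.h (T.h (M (nat_lit 5209847404018203099135)) (T.h (P (nat_lit 0)) (P (nat_lit 20721956900044800)))) (T.h (P (nat_lit 0)) (M (nat_lit 4595770649346047)))))) (T.h (T.h (P (nat_lit 0)) (T.h (T.h (P (nat_lit 0)) (P (nat_lit 43491311747944415232))) (P (nat_lit 0)))) (T.h (T.h (T.h (P (nat_lit 38739346812376056856576)) (T.h (P (nat_lit 0)) (P (nat_lit 41793132904316928)))) (T.h (P (nat_lit 0)) (P (nat_lit 41793132904316928)))) (T.h (P (nat_lit 0)) (M (nat_lit 16210757382045695)))))))]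

def CP11 : List (T ℤ) := lP11_0 ++ (lP11_1 ++ (lP11_2 ++ (lP11_3 ++ (lP11_4 ++ (lP11_5 ++ (lP11_6 ++ (lP11_7 ++ (lP11_8 ++ (lP11_9 ++ (lP11_10 ++ (lP11_11 ++ (lP11_12 ++ (lP11_13 ++ (lP11_14 ++ (lP11_15 ++ (lP11_16 ++ (lP11_17 ++ (lP11_18 ++ (lP11_19 ++ (lP11_20 ++ (lP11_21 ++ (lP11_22 ++ (lP11_23 ++ (lP11_24 ++ (lP11_25 ++ (lP11_26 ++ (lP11_27 ++ (lP11_28 ++ (lP11_29 ++ (lP11_30 ++ (lP11_31 ++ (lP11_32 ++ (lP11_33 ++ (lP11_34 ++ (lP11_35 ++ (lP11_36 ++ (lP11_37 ++ (lP11_38 ++ (lP11_39 ++ (lP11_40 ++ (lP11_41 ++ (lP11_42 ++ (lP11_43 ++ (lP11_44 ++ (lP11_45 ++ (lP11_46 ++ (lP11_47 ++ (lP11_48 ++ (lP11_49 ++ (lP11_50 ++ (lP11_51 ++ (lP11_52 ++ (lP11_53 ++ (lP11_54 ++ (lP11_55 ++ (lP11_56 ++ (lP11_57 ++ (lP11_58 ++ (lP11_59 ++ (lP11_60))))))))))))))))))))))))))))))))))))))))))))))))))))))))))))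

/-- norms at radius 1536 -/
def NP11 : List ℕ := [(nat_lit 0), (nat_lit 0), (nat_lit 0), (nat_lit 0), (nat_lit 0), (nat_lit 0), (nat_lit 0), (nat_lit 0), (nat_lit 0), (nat_lit 0), (nat_lit 0), (nat_lit 0), (nat_lit 0), (nat_lit 0), (nat_lit 0), (nat_lit 0), (nat_lit 0), (nat_lit 4410501400340933843783516160000), (nat_lit 0), (nat_lit 0), (nat_lit 2770780515915101647538260518371328), (nat_lit 3026666278049953124190857776332800), (nat_lit 3817384993184792899949358389133312), (nat_lit 4269181169851866762775489262125056), (nat_lit 1541913322740312906285538672115712), (nat_lit 0), (nat_lit 0), (nat_lit 2698308797350543333042680716328960), (nat_lit 7744837773727458214948963960750080), (nat_lit 14582276879944386808388201352265728), (nat_lit 17058513610406557094197680949690368), (nat_lit 5379688343161541790212226337996800), (nat_lit 0), (nat_lit 0), (nat_lit 2917825142975451000966071313235968), (nat_lit 12401335324151854908856447549833216), (nat_lit 9770363086773468619751794466095104),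 (nat_lit 15601474116902674588712447682543616), (nat_lit 3165067436911905324468088300634112), (nat_lit 0), (nat_lit 0), (nat_lit 6138455378442065377369010252808192), (nat_lit 15415132514259252010624711246479360), (nat_lit 32193186518115343436727638311305216), (nat_lit 23527614955310736656204170449125376), (nat_lit 5077039350393258466700208019341312), (nat_lit 0), (nat_lit 0), (nat_lit 6138455378442065377369010252808192), (nat_lit 27359010896273283590877279187632128), (nat_lit 25956486550867083752991426185527296), (nat_lit 82885013538485318390689981735632896), (nat_lit 28266015128656486240017912900354048), (nat_lit 0), (nat_lit 0), (nat_lit 2917825142975451000966071313235968), (nat_lit 15415132514259252010624711246479360), (nat_lit 25956486550867083752991426185527296), (nat_lit 81704266077862341288385759143788544), (nat_lit 26596281468057084762184039595507712), (nat_lit 0), (nat_lit 2698308797350543333042680716328960), (nat_lit 12401335324151854908856447549833216),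 (nat_lit 32193186518115343436727638311305216), (nat_lit 82885013538485318390689981735632896), (nat_lit 26596281468057084762184039595507712), (nat_lit 2770780515915101647538260518371328), (nat_lit 7744837773727458214948963960750080), (nat_lit 9770363086773468619751794466095104), (nat_lit 23527614955310736656204170449125376), (nat_lit 28266015128656486240017912900354048), (nat_lit 3026666278049953124190857776332800), (nat_lit 14582276879944386808388201352265728), (nat_lit 15601474116902674588712447682543616), (nat_lit 5077039350393258466700208019341312), (nat_lit 3817384993184792899949358389133312), (nat_lit 17058513610406557094197680949690368), (nat_lit 3165067436911905324468088300634112), (nat_lit 4269181169851866762775489262125056), (nat_lit 5379688343161541790212226337996800), (nat_lit 1541913322740312906285538672115712), (nat_lit 0), (nat_lit 0), (nat_lit 0), (nat_lit 0), (nat_lit 0), (nat_lit 0), (nat_lit 0), (nat_lit 0), (nat_lit 0), (nat_lit 3287659447703174667347572249591808),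 (nat_lit 0), (nat_lit 1703097830988996073977950813290496), (nat_lit 0), (nat_lit 0), (nat_lit 0), (nat_lit 0), (nat_lit 9774950999957258903014968530042880), (nat_lit 7744837773727458214948963960750080), (nat_lit 16242677782044431669578955055169536), (nat_lit 17058513610406557094197680949690368), (nat_lit 5379688343161541790212226337996800), (nat_lit 0), (nat_lit 0), (nat_lit 21623572752553988887925136335831040), (nat_lit 11244596572723401517330460917628928), (nat_lit 25921539138610232199301481938026496), (nat_lit 20486083958012563272134776722554880), (nat_lit 3505504948021139736566282493886464), (nat_lit 0), (nat_lit 0), (nat_lit 46960301288515192195492092353445888), (nat_lit 25195364946231402831637849086885888), (nat_lit 37637866839617320940751367811629056), (nat_lit 43203980105732716982969654505897984), (nat_lit 16348222677415602568976898566651904), (nat_lit 0), (nat_lit 0), (nat_lit 64654912827748552524355890445287424), (nat_lit 31490972846843091411598260723253248),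 (nat_lit 68126319610658925157010482617384960), (nat_lit 57670633083597397830057624103550976), (nat_lit 17179104328625352243046203671969792), (nat_lit 0), (nat_lit 0), (nat_lit 26339319189446538102430695042318336), (nat_lit 31490972846843091411598260723253248), (nat_lit 94280415469801125107270775233052672), (nat_lit 49366601036775609081023428609179648), (nat_lit 18264041879335211232804045431242752), (nat_lit 0), (nat_lit 36439011695590252712979716630380544), (nat_lit 25195364946231402831637849086885888), (nat_lit 95277202938335754195122642437013504), (nat_lit 49366601036775609081023428609179648), (nat_lit 21094026943910034324907254895083520), (nat_lit 22521909876490115032851830041214976), (nat_lit 11244596572723401517330460917628928), (nat_lit 36160452224635039155063625724461056), (nat_lit 57670633083597397830057624103550976), (nat_lit 18264041879335211232804045431242752), (nat_lit 7744837773727458214948963960750080), (nat_lit 16769694874482071026036369042440192),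 (nat_lit 43203980105732716982969654505897984), (nat_lit 17179104328625352243046203671969792), (nat_lit 17660414469863700815821455784673280), (nat_lit 20486083958012563272134776722554880), (nat_lit 16348222677415602568976898566651904), (nat_lit 17058513610406557094197680949690368), (nat_lit 3505504948021139736566282493886464), (nat_lit 5379688343161541790212226337996800), (nat_lit 4410501400340933843783516160000), (nat_lit 0), (nat_lit 0), (nat_lit 2770780515915101647538260518371328), (nat_lit 3026666278049953124190857776332800), (nat_lit 3817384993184792899949358389133312), (nat_lit 4269181169851866762775489262125056), (nat_lit 1541913322740312906285538672115712), (nat_lit 0), (nat_lit 0), (nat_lit 9774950999957258903014968530042880), (nat_lit 7744837773727458214948963960750080), (nat_lit 16242677782044431669578955055169536), (nat_lit 17058513610406557094197680949690368), (nat_lit 5379688343161541790212226337996800), (nat_lit 0), (nat_lit 0), (nat_lit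 27098642173270274719848029006856192), (nat_lit 22033356426199696253710736415522816), (nat_lit 23812454113851383654234316494340096), (nat_lit 30217931664029900196122533610651648), (nat_lit 6326100930127153396299039762284544), (nat_lit 0), (nat_lit 0), (nat_lit 33545657975302002270424714016980992), (nat_lit 39163080503023211307855049994010624), (nat_lit 56337202300692127956223187365134336), (nat_lit 50749887278666132402222461429481472), (nat_lit 16617701240990523596265171311394816), (nat_lit 0), (nat_lit 0), (nat_lit 66227577932907316844500254524964864), (nat_lit 36517587903479694978515211596595200), (nat_lit 48664044128371671717091159591354368), (nat_lit 56949684705063080417224489334472704), (nat_lit 19038894390308053501027131599093760), (nat_lit 0), (nat_lit 0), (nat_lit 26294012825642973864381359352446976), (nat_lit 57614169225237729755250251029020672), (nat_lit 151557676302664637990773240268587008), (nat_lit 111742144144741429382349647517843456),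 (nat_lit 29048249418586681596429926035095552), (nat_lit 0), (nat_lit 40194686810794044575635298857254912), (nat_lit 24515650460352250208757311971786752), (nat_lit 95135763675520591608674242365751296), (nat_lit 183436486537834477380232491239997440), (nat_lit 35867405320144018933700841783164928), (nat_lit 17715556088442950615720792715952128), (nat_lit 22463999547880911609133358565556224), (nat_lit 49954927165130423305230037089779712), (nat_lit 49477321680440659667699857763598336), (nat_lit 36664315958200431950844200837185536), (nat_lit 14180230935132368184596835904520192), (nat_lit 56337205884540570716975828828160000), (nat_lit 63751974859460315526374318304919552), (nat_lit 19971806010851987922963376845619200), (nat_lit 13534381567027566780837789243015168), (nat_lit 32809349021145141656141187313041408), (nat_lit 18676625879838758359395666694766592), (nat_lit 12706317909713886832561702905577472), (nat_lit 13782467098934978302095887494545408), (nat_lit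 2744826322585587985525937541218304), (nat_lit 0), (nat_lit 0), (nat_lit 2698308797350543333042680716328960), (nat_lit 7744837773727458214948963960750080), (nat_lit 14582276879944386808388201352265728), (nat_lit 17058513610406557094197680949690368), (nat_lit 5379688343161541790212226337996800), (nat_lit 0), (nat_lit 0), (nat_lit 21623572752553988887925136335831040), (nat_lit 11244596572723401517330460917628928), (nat_lit 25921539138610232199301481938026496), (nat_lit 20486083958012563272134776722554880), (nat_lit 3505504948021139736566282493886464), (nat_lit 0), (nat_lit 0), (nat_lit 33545657975302002270424714016980992), (nat_lit 39163080503023211307855049994010624), (nat_lit 56337202300692127956223187365134336), (nat_lit 50749887278666132402222461429481472), (nat_lit 16617701240990523596265171311394816), (nat_lit 0), (nat_lit 0), (nat_lit 107071573964077170825187752646017024), (nat_lit 55313897777238299165587557977161728), (nat_lit 85673771582121444522192244786069504),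 (nat_lit 93534351156845668569036315823177728), (nat_lit 33684322438466561289629799584628736), (nat_lit 0), (nat_lit 0), (nat_lit 69504670140640898320616383894781952), (nat_lit 62933091578419655428323722982850560), (nat_lit 97948990463064041503902005005910016), (nat_lit 85442978744204415746996137585803264), (nat_lit 31064526005409505750403402849845248), (nat_lit 0), (nat_lit 90743255428224669253223063010410496), (nat_lit 66222655350413565449052472454676480), (nat_lit 127938499861454017440395045327863808), (nat_lit 221386562142933098885582650135805952), (nat_lit 66052438021375992469068299567628288), (nat_lit 34094493914360916781891172186456064), (nat_lit 35017431279760764578255130442334208), (nat_lit 120430407073274022528524279070326784), (nat_lit 223421466835569194768115712024117248), (nat_lit 93379507034860329572504470642753536), (nat_lit 18407740488946628509943526145916928), (nat_lit 84831790718437744663922509619396608), (nat_lit 66460269693642287896473179598618624),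 (nat_lit 62425231052141402212802079882215424), (nat_lit 25728671176216854657644949871263744), (nat_lit 56687939677104644794069535164465152), (nat_lit 35984606273084729716262699721031680), (nat_lit 34028638268133129821460711761510400), (nat_lit 15247400629501473077005611985534976), (nat_lit 9761243731153513024965160174878720), (nat_lit 0), (nat_lit 0), (nat_lit 2917825142975451000966071313235968), (nat_lit 12401335324151854908856447549833216), (nat_lit 9770363086773468619751794466095104), (nat_lit 15601474116902674588712447682543616), (nat_lit 3165067436911905324468088300634112), (nat_lit 0), (nat_lit 0), (nat_lit 46960301288515192195492092353445888), (nat_lit 25195364946231402831637849086885888), (nat_lit 37637866839617320940751367811629056), (nat_lit 43203980105732716982969654505897984), (nat_lit 16348222677415602568976898566651904), (nat_lit 0), (nat_lit 0), (nat_lit 66227577932907316844500254524964864), (nat_lit 36517587903479694978515211596595200),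 (nat_lit 48664044128371671717091159591354368), (nat_lit 56949684705063080417224489334472704), (nat_lit 19038894390308053501027131599093760), (nat_lit 0), (nat_lit 0), (nat_lit 69504670140640898320616383894781952), (nat_lit 62933091578419655428323722982850560), (nat_lit 97948990463064041503902005005910016), (nat_lit 85442978744204415746996137585803264), (nat_lit 31064526005409505750403402849845248), (nat_lit 0), (nat_lit 81015492443488523566515263398477824), (nat_lit 39629909134344366675889074380734464), (nat_lit 179196810590577913358285309076307968), (nat_lit 273369141613253184965907170086354944), (nat_lit 45363241286127828578667515646836736), (nat_lit 36057395163033099323645838263058432), (nat_lit 47817075065474116179823614247305216), (nat_lit 138366202576535666986579781140611072), (nat_lit 188098608006403701748682016971292672), (nat_lit 96664286043385744587653791340298240), (nat_lit 30520120956126686893278713763332096), (nat_lit 106267426005975931335378089313042432),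 (nat_lit 117258083390552373926318944511066112), (nat_lit 84171420530917649153661291882086400), (nat_lit 63565698962271298192007628186451968), (nat_lit 76113502545775902832436174483619840), (nat_lit 22760244741178022892821930198433792), (nat_lit 72416960029676106843061894697189376), (nat_lit 29116026279312381455657442075475968), (nat_lit 26138240151374877534700108184027136), (nat_lit 0), (nat_lit 0), (nat_lit 6138455378442065377369010252808192), (nat_lit 15415132514259252010624711246479360), (nat_lit 32193186518115343436727638311305216), (nat_lit 23527614955310736656204170449125376), (nat_lit 5077039350393258466700208019341312), (nat_lit 0), (nat_lit 0), (nat_lit 64654912827748552524355890445287424), (nat_lit 31490972846843091411598260723253248), (nat_lit 68126319610658925157010482617384960), (nat_lit 57670633083597397830057624103550976), (nat_lit 17179104328625352243046203671969792), (nat_lit 0), (nat_lit 0), (nat_lit 26294012825642973864381359352446976),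 (nat_lit 57614169225237729755250251029020672), (nat_lit 151557676302664637990773240268587008), (nat_lit 111742144144741429382349647517843456), (nat_lit 29048249418586681596429926035095552), (nat_lit 0), (nat_lit 90743255428224669253223063010410496), (nat_lit 66222655350413565449052472454676480), (nat_lit 127938499861454017440395045327863808), (nat_lit 221386562142933098885582650135805952), (nat_lit 66052438021375992469068299567628288), (nat_lit 36057395163033099323645838263058432), (nat_lit 47817075065474116179823614247305216), (nat_lit 138366202576535666986579781140611072), (nat_lit 188098608006403701748682016971292672), (nat_lit 96664286043385744587653791340298240), (nat_lit 27658908431448449165923324262350848), (nat_lit 112738414266494245217807928685232128), (nat_lit 73343433570604378176010985089794048), (nat_lit 81640615095395491770043884873187328), (nat_lit 53005383055598427172532408945737728), (nat_lit 87370568993875395537594828919406592), (nat_lit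 24549728115953803767169540310433792), (nat_lit 79740946549885170427494268265299968), (nat_lit 36043374496142889912538827635818496), (nat_lit 27867573599310986671317501427580928), (nat_lit 0), (nat_lit 0), (nat_lit 6138455378442065377369010252808192), (nat_lit 27359010896273283590877279187632128), (nat_lit 25956486550867083752991426185527296), (nat_lit 82885013538485318390689981735632896), (nat_lit 28266015128656486240017912900354048), (nat_lit 0), (nat_lit 0), (nat_lit 26339319189446538102430695042318336), (nat_lit 31490972846843091411598260723253248), (nat_lit 94280415469801125107270775233052672), (nat_lit 49366601036775609081023428609179648), (nat_lit 18264041879335211232804045431242752), (nat_lit 0), (nat_lit 40194686810794044575635298857254912), (nat_lit 24515650460352250208757311971786752), (nat_lit 95135763675520591608674242365751296), (nat_lit 183436486537834477380232491239997440), (nat_lit 35867405320144018933700841783164928), (nat_lit 34094493914360916781891172186456064),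 (nat_lit 35017431279760764578255130442334208), (nat_lit 120430407073274022528524279070326784), (nat_lit 223421466835569194768115712024117248), (nat_lit 93379507034860329572504470642753536), (nat_lit 30520120956126686893278713763332096), (nat_lit 106267426005975931335378089313042432), (nat_lit 117258083390552373926318944511066112), (nat_lit 84171420530917649153661291882086400), (nat_lit 53005383055598427172532408945737728), (nat_lit 87370568993875395537594828919406592), (nat_lit 24549728115953803767169540310433792), (nat_lit 120408474333358921106350328642535424), (nat_lit 35482213446362742154137674648125440), (nat_lit 43869370965698476648168509658890240), (nat_lit 0), (nat_lit 0), (nat_lit 2917825142975451000966071313235968), (nat_lit 15415132514259252010624711246479360), (nat_lit 25956486550867083752991426185527296), (nat_lit 81704266077862341288385759143788544), (nat_lit 26596281468057084762184039595507712), (nat_lit 0), (nat_lit 36439011695590252712979716630380544),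 (nat_lit 25195364946231402831637849086885888), (nat_lit 95277202938335754195122642437013504), (nat_lit 49366601036775609081023428609179648), (nat_lit 21094026943910034324907254895083520), (nat_lit 17715556088442950615720792715952128), (nat_lit 22463999547880911609133358565556224), (nat_lit 49954927165130423305230037089779712), (nat_lit 49477321680440659667699857763598336), (nat_lit 36664315958200431950844200837185536), (nat_lit 18407740488946628509943526145916928), (nat_lit 84831790718437744663922509619396608), (nat_lit 66460269693642287896473179598618624), (nat_lit 62425231052141402212802079882215424), (nat_lit 63565698962271298192007628186451968), (nat_lit 76113502545775902832436174483619840), (nat_lit 22760244741178022892821930198433792), (nat_lit 79740946549885170427494268265299968), (nat_lit 36043374496142889912538827635818496), (nat_lit 43869370965698476648168509658890240), (nat_lit 0), (nat_lit 2698308797350543333042680716328960), (nat_lit 12401335324151854908856447549833216),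 (nat_lit 32193186518115343436727638311305216), (nat_lit 82885013538485318390689981735632896), (nat_lit 26596281468057084762184039595507712), (nat_lit 22521909876490115032851830041214976), (nat_lit 11244596572723401517330460917628928), (nat_lit 36160452224635039155063625724461056), (nat_lit 57670633083597397830057624103550976), (nat_lit 18264041879335211232804045431242752), (nat_lit 14180230935132368184596835904520192), (nat_lit 56337205884540570716975828828160000), (nat_lit 63751974859460315526374318304919552), (nat_lit 19971806010851987922963376845619200), (nat_lit 25728671176216854657644949871263744), (nat_lit 56687939677104644794069535164465152), (nat_lit 35984606273084729716262699721031680), (nat_lit 72416960029676106843061894697189376), (nat_lit 29116026279312381455657442075475968), (nat_lit 27867573599310986671317501427580928), (nat_lit 2770780515915101647538260518371328), (nat_lit 7744837773727458214948963960750080), (nat_lit 9770363086773468619751794466095104),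 (nat_lit 23527614955310736656204170449125376), (nat_lit 28266015128656486240017912900354048), (nat_lit 7744837773727458214948963960750080), (nat_lit 16769694874482071026036369042440192), (nat_lit 43203980105732716982969654505897984), (nat_lit 17179104328625352243046203671969792), (nat_lit 13534381567027566780837789243015168), (nat_lit 32809349021145141656141187313041408), (nat_lit 18676625879838758359395666694766592), (nat_lit 34028638268133129821460711761510400), (nat_lit 15247400629501473077005611985534976), (nat_lit 26138240151374877534700108184027136), (nat_lit 3026666278049953124190857776332800), (nat_lit 14582276879944386808388201352265728), (nat_lit 15601474116902674588712447682543616), (nat_lit 5077039350393258466700208019341312), (nat_lit 17660414469863700815821455784673280), (nat_lit 20486083958012563272134776722554880), (nat_lit 16348222677415602568976898566651904), (nat_lit 12706317909713886832561702905577472), (nat_lit 13782467098934978302095887494545408),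 (nat_lit 9761243731153513024965160174878720), (nat_lit 3817384993184792899949358389133312), (nat_lit 17058513610406557094197680949690368), (nat_lit 3165067436911905324468088300634112), (nat_lit 17058513610406557094197680949690368), (nat_lit 3505504948021139736566282493886464), (nat_lit 2744826322585587985525937541218304), (nat_lit 4269181169851866762775489262125056), (nat_lit 5379688343161541790212226337996800), (nat_lit 5379688343161541790212226337996800), (nat_lit 1541913322740312906285538672115712)]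


def lP12_0 : List (T ℤ) := [(P (nat_lit 0)), (P (nat_lit 0)), (P (nat_lit 0)), (P (nat_lit 0)), (P (nat_lit 0)), (P (nat_lit 0)), (P (nat_lit 0)), (P (nat_lit 0))]
def lP12_1 : List (T ℤ) := [(P (nat_lit 0)), (M (nat_lit 4410501400340933843783516159999)), (P (nat_lit 0)), (P (nat_lit 0)), (T.h (T.h (T.h (P (nat_lit 0)) (T.h (M (nat_lit 13616060523248372760361041919)) (T.h (P (nat_lit 0)) (T.h (P (nat_lit 25248286323423985008640)) (T.h (P (nat_lit 0)) (P (nat_lit 97560360966946816))))))) (T.h (P (nat_lit 0)) (T.h (T.h (P (nat_lit 0)) (T.h (M (nat_lit 1018639444731261616127)) (T.h (P (nat_lit 0)) (P (nat_lit 21287966337204224))))) (T.h (P (nat_lit 0)) (T.h (T.h (P (nat_lit 0)) (M (nat_lit 3105598149197823))) (P (nat_lit 0))))))) (T.h (T.h (P (nat_lit 0)) (T.h (T.h (P (nat_lit 988941334891427054747648)) (T.h (P (nat_lit 0)) (T.h (P (nat_lit 21892392839739867136)) (T.h (P (nat_lit 0)) (P (nat_lit 43087163693056)))))) (T.h (P (nat_lit 0)) (T.h (T.h (P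 (nat_lit 4289571691257921536)) (T.h (P (nat_lit 0)) (P (nat_lit 6954812085344)))) (T.h (P (nat_lit 0)) (M (nat_lit 1780149283047))))))) (T.h (T.h (T.h (P (nat_lit 0)) (T.h (P (nat_lit 267052711276420530176)) (T.h (P (nat_lit 0)) (P (nat_lit 29095574034907136))))) (T.h (P (nat_lit 0)) (T.h (T.h (P (nat_lit 0)) (M (nat_lit 15203226427064319))) (P (nat_lit 0))))) (T.h (T.h (P (nat_lit 0)) (T.h (T.h (P (nat_lit 2589773294710292480)) (T.h (P (nat_lit 0)) (P (nat_lit 14981556922784)))) (T.h (P (nat_lit 0)) (M (nat_lit 10560971751551))))) (T.h (T.h (T.h (P (nat_lit 0)) (M (nat_lit 1271887051128831))) (P (nat_lit 0))) (T.h (T.h (P (nat_lit 0)) (M (nat_lit 3269161860247))) (P (nat_lit 0)))))))), (T.h (T.h (T.h (P (nat_lit 8381838962715691754272839434240)) (T.h (P (nat_lit 0)) (T.h (M (nat_lit 24966769086201063159103487)) (T.h (P (nat_lit 0)) (T.h (M (nat_lit 91567307508984840191)) (T.h (P (nat_lit 0)) (M (nat_lit 9234645211199)))))))) (T.h (P (nat_lit 0)) (T.h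 (T.h (P (nat_lit 94354545371969910472704)) (T.h (P (nat_lit 0)) (T.h (P (nat_lit 8545227737994887168)) (T.h (P (nat_lit 0)) (P (nat_lit 28106565702272)))))) (T.h (P (nat_lit 0)) (T.h (T.h (M (nat_lit 1002665088554893311)) (T.h (P (nat_lit 0)) (M (nat_lit 15443532767759)))) (T.h (P (nat_lit 0)) (M (nat_lit 165424305583)))))))) (T.h (T.h (P (nat_lit 0)) (T.h (T.h (P (nat_lit 0)) (T.h (P (nat_lit 5306139762653476683776)) (T.h (P (nat_lit 0)) (M (nat_lit 8154054174244863))))) (T.h (P (nat_lit 0)) (T.h (T.h (P (nat_lit 0)) (M (nat_lit 21171082134913023))) (P (nat_lit 0)))))) (T.h (T.h (T.h (P (nat_lit 94354545371969910472704)) (T.h (P (nat_lit 0)) (T.h (P (nat_lit 8545227737994887168)) (T.h (P (nat_lit 0)) (P (nat_lit 28106565702272)))))) (T.h (P (nat_lit 0)) (T.h (T.h (P (nat_lit 8284172608572751872)) (T.h (P (nat_lit 0)) (P (nat_lit 35413500645568)))) (T.h (P (nat_lit 0)) (M (nat_lit 4239509951935)))))) (T.h (T.h (P (nat_lit 0)) (T.h (T.h (P (nat_lit 0))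 (M (nat_lit 21171082134913023))) (P (nat_lit 0)))) (T.h (T.h (T.h (M (nat_lit 1002665088554893311)) (T.h (P (nat_lit 0)) (M (nat_lit 15443532767759)))) (T.h (P (nat_lit 0)) (M (nat_lit 4239509951935)))) (T.h (P (nat_lit 0)) (M (nat_lit 165424305583)))))))), (T.h (T.h (T.h (P (nat_lit 0)) (T.h (P (nat_lit 19513362596848012897021853696)) (T.h (P (nat_lit 0)) (T.h (M (nat_lit 63987633135800041865215)) (T.h (P (nat_lit 0)) (M (nat_lit 81349603584901119))))))) (T.h (P (nat_lit 0)) (T.h (T.h (P (nat_lit 0)) (T.h (P (nat_lit 4107924079950048526336)) (T.h (P (nat_lit 0)) (M (nat_lit 85837983571574783))))) (T.h (P (nat_lit 0)) (T.h (T.h (P (nat_lit 0)) (M (nat_lit 1307171908157439))) (P (nat_lit 0))))))) (T.h (T.h (P (nat_lit 0)) (T.h (T.h (M (nat_lit 1375602425031345005658111)) (T.h (P (nat_lit 0)) (T.h (M (nat_lit 65383704587684282367)) (T.h (P (nat_lit 0)) (M (nat_lit 43087163693055)))))) (T.h (P (nat_lit 0)) (T.h (T.h (M (nat_lit 8805342538014654463)) (T.h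 (P (nat_lit 0)) (M (nat_lit 10968184504063)))) (T.h (P (nat_lit 0)) (P (nat_lit 2524655571648))))))) (T.h (T.h (T.h (P (nat_lit 0)) (T.h (P (nat_lit 7063357461541198757888)) (T.h (P (nat_lit 0)) (M (nat_lit 48131822609170431))))) (T.h (P (nat_lit 0)) (T.h (T.h (P (nat_lit 0)) (M (nat_lit 5518730472980479))) (P (nat_lit 0))))) (T.h (T.h (P (nat_lit 0)) (T.h (T.h (P (nat_lit 2413284188405891072)) (T.h (P (nat_lit 0)) (M (nat_lit 10968184504063)))) (T.h (P (nat_lit 0)) (P (nat_lit 10560971751552))))) (T.h (T.h (T.h (P (nat_lit 0)) (P (nat_lit 14876198407176192))) (P (nat_lit 0))) (T.h (T.h (P (nat_lit 0)) (P (nat_lit 2524655571648))) (P (nat_lit 0)))))))), (T.h (T.h (T.h (M (nat_lit 3022801708362945769365684879359)) (T.h (P (nat_lit 0)) (T.h (P (nat_lit 35228165051076154056769536)) (T.h (P (nat_lit 0)) (T.h (P (nat_lit 72859096151933059072)) (T.h (P (nat_lit 0)) (P (nat_lit 14511582942912)))))))) (T.h (P (nat_lit 0)) (T.h (T.h (M (nat_lit 866842690526014188027903))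 (T.h (P (nat_lit 0)) (T.h (P (nat_lit 33338568917978710016)) (T.h (P (nat_lit 0)) (M (nat_lit 56118708733823)))))) (T.h (P (nat_lit 0)) (T.h (T.h (M (nat_lit 2198064352563560447)) (T.h (P (nat_lit 0)) (P (nat_lit 12342157505568)))) (T.h (P (nat_lit 0)) (P (nat_lit 742147470768)))))))) (T.h (T.h (P (nat_lit 0)) (T.h (T.h (P (nat_lit 0)) (T.h (P (nat_lit 9132112169328112041984)) (T.h (P (nat_lit 0)) (M (nat_lit 33744048614539263))))) (T.h (P (nat_lit 0)) (T.h (T.h (P (nat_lit 0)) (P (nat_lit 6924341569585152))) (P (nat_lit 0)))))) (T.h (T.h (T.h (M (nat_lit 866842690526014188027903)) (T.h (P (nat_lit 0)) (T.h (P (nat_lit 33338568917978710016)) (T.h (P (nat_lit 0)) (M (nat_lit 56118708733823)))))) (T.h (P (nat_lit 0)) (T.h (T.h (M (nat_lit 80235081309880319)) (T.h (P (nat_lit 0)) (M (nat_lit 55649786596799)))) (T.h (P (nat_lit 0)) (P (nat_lit 7551023902224)))))) (T.h (T.h (P (nat_lit 0)) (T.h (T.h (P (nat_lit 0)) (P (nat_lit 6924341569585152))) (P (nat_lit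 0)))) (T.h (T.h (T.h (M (nat_lit 2198064352563560447)) (T.h (P (nat_lit 0)) (P (nat_lit 12342157505568)))) (T.h (P (nat_lit 0)) (P (nat_lit 7551023902224)))) (T.h (P (nat_lit 0)) (P (nat_lit 742147470768))))))))]
def lP12_2 : List (T ℤ) := [(T.h (T.h (T.h (P (nat_lit 0)) (T.h (M (nat_lit 5897302073599640136660811775)) (T.h (P (nat_lit 0)) (T.h (P (nat_lit 38739346812376056856576)) (T.h (P (nat_lit 0)) (M (nat_lit 16210757382045695))))))) (T.h (P (nat_lit 0)) (T.h (T.h (P (nat_lit 0)) (T.h (M (nat_lit 5209847404018203099135)) (T.h (P (nat_lit 0)) (P (nat_lit 41793132904316928))))) (T.h (P (nat_lit 0)) (T.h (T.h (P (nat_lit 0)) (M (nat_lit 4595770649346047))) (P (nat_lit 0))))))) (T.h (T.h (P (nat_lit 0)) (T.h (T.h (P (nat_lit 386661090139917950910464)) (T.h (P (nat_lit 0)) (P (nat_lit 43491311747944415232)))) (T.h (P (nat_lit 0)) (M (nat_lit 243643318179725311))))) (T.h (T.h (T.h (P (nat_lit 0)) (T.h (M (nat_lit 5209847404018203099135)) (T.h (P (nat_lit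 0)) (P (nat_lit 41793132904316928))))) (T.h (P (nat_lit 0)) (T.h (T.h (P (nat_lit 0)) (P (nat_lit 20721956900044800))) (P (nat_lit 0))))) (T.h (T.h (P (nat_lit 0)) (M (nat_lit 243643318179725311))) (T.h (T.h (T.h (P (nat_lit 0)) (M (nat_lit 4595770649346047))) (P (nat_lit 0))) (P (nat_lit 0))))))), (P (nat_lit 0)), (P (nat_lit 0)), (P (nat_lit 0)), (T.h (T.h (P (nat_lit 0)) (T.h (T.h (P (nat_lit 13204927875378715774934843392)) (T.h (P (nat_lit 0)) (T.h (P (nat_lit 13539892843789789691904)) (T.h (P (nat_lit 0)) (M (nat_lit 11870878074175487)))))) (T.h (P (nat_lit 0)) (T.h (T.h (M (nat_lit 590497161174321201151)) (T.h (P (nat_lit 0)) (M (nat_lit 27032684399165439)))) (T.h (P (nat_lit 0)) (M (nat_lit 17312308370309119))))))) (T.h (T.h (T.h (P (nat_lit 0)) (T.h (M (nat_lit 122639602115953821745151)) (T.h (P (nat_lit 0)) (T.h (P (nat_lit 23265789879055810560)) (T.h (P (nat_lit 0)) (M (nat_lit 36276789813271))))))) (T.h (P (nat_lit 0)) (T.h (T.h (P (nat_lit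 0)) (T.h (P (nat_lit 17277838074277003264)) (T.h (P (nat_lit 0)) (M (nat_lit 33347038321839))))) (T.h (P (nat_lit 0)) (T.h (T.h (P (nat_lit 0)) (M (nat_lit 26065790100687))) (P (nat_lit 0))))))) (T.h (T.h (P (nat_lit 0)) (T.h (T.h (P (nat_lit 3282297356631899373568)) (T.h (P (nat_lit 0)) (M (nat_lit 21109903815409663)))) (T.h (P (nat_lit 0)) (M (nat_lit 7315163158740991))))) (T.h (T.h (T.h (P (nat_lit 0)) (T.h (P (nat_lit 2240755757060456448)) (T.h (P (nat_lit 0)) (M (nat_lit 20913852849103))))) (T.h (P (nat_lit 0)) (T.h (T.h (P (nat_lit 0)) (M (nat_lit 4134781533415))) (P (nat_lit 0))))) (T.h (T.h (P (nat_lit 0)) (M (nat_lit 2513831367540735))) (T.h (T.h (T.h (P (nat_lit 0)) (M (nat_lit 3482561271999))) (P (nat_lit 0))) (P (nat_lit 0)))))))), (T.h (T.h (P (nat_lit 0)) (T.h (T.h (P (nat_lit 0)) (T.h (M (nat_lit 3746786908111961168281599)) (T.h (P (nat_lit 0)) (T.h (P (nat_lit 150605351395472179200)) (T.h (P (nat_lit 0)) (P (nat_lit 126624751875824)))))))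 (T.h (P (nat_lit 0)) (T.h (T.h (P (nat_lit 0)) (T.h (P (nat_lit 21421683604952449024)) (T.h (P (nat_lit 0)) (M (nat_lit 29896136530671))))) (T.h (P (nat_lit 0)) (T.h (T.h (P (nat_lit 0)) (P (nat_lit 7351350546784))) (P (nat_lit 0)))))))) (T.h (T.h (T.h (P (nat_lit 825243808494547520458850304)) (T.h (P (nat_lit 0)) (T.h (M (nat_lit 26344594233526511992831)) (T.h (P (nat_lit 0)) (M (nat_lit 391640158868422655)))))) (T.h (P (nat_lit 0)) (T.h (T.h (M (nat_lit 4538456619322401882111)) (T.h (P (nat_lit 0)) (M (nat_lit 9636131581935615)))) (T.h (P (nat_lit 0)) (P (nat_lit 1673160524251136)))))) (T.h (T.h (P (nat_lit 0)) (T.h (T.h (P (nat_lit 0)) (T.h (P (nat_lit 6725667058576523264)) (T.h (P (nat_lit 0)) (P (nat_lit 20853968390928))))) (T.h (P (nat_lit 0)) (T.h (T.h (P (nat_lit 0)) (M (nat_lit 4256921589567))) (P (nat_lit 0)))))) (T.h (T.h (T.h (P (nat_lit 452590592553853648896)) (T.h (P (nat_lit 0)) (M (nat_lit 39437525538734079)))) (T.h (P (nat_lit 0)) (M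 (nat_lit 18297077188886527)))) (T.h (T.h (P (nat_lit 0)) (T.h (T.h (P (nat_lit 0)) (M (nat_lit 14115448294655))) (P (nat_lit 0)))) (P (nat_lit 2367037161553920))))))), (T.h (T.h (P (nat_lit 0)) (T.h (T.h (M (nat_lit 11148306687387311073933656063)) (T.h (P (nat_lit 0)) (T.h (M (nat_lit 42457184328535899111423)) (T.h (P (nat_lit 0)) (P (nat_lit 107454521002655744)))))) (T.h (P (nat_lit 0)) (T.h (T.h (P (nat_lit 9990154410232597446656)) (T.h (P (nat_lit 0)) (P (nat_lit 177198910576820224)))) (T.h (P (nat_lit 0)) (P (nat_lit 15339279740928000))))))) (T.h (T.h (T.h (P (nat_lit 0)) (T.h (P (nat_lit 6837049029011826800590848)) (T.h (P (nat_lit 0)) (T.h (P (nat_lit 198712546212878221312)) (T.h (P (nat_lit 0)) (M (nat_lit 519960225386687))))))) (T.h (P (nat_lit 0)) (T.h (T.h (P (nat_lit 0)) (T.h (P (nat_lit 59282405974557589504)) (T.h (P (nat_lit 0)) (M (nat_lit 50830335485887))))) (T.h (P (nat_lit 0)) (T.h (T.h (P (nat_lit 0)) (P (nat_lit 30400262961600)))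 (P (nat_lit 0))))))) (T.h (T.h (P (nat_lit 0)) (T.h (T.h (M (nat_lit 10168343157988999036927)) (T.h (P (nat_lit 0)) (P (nat_lit 138485348847714304)))) (T.h (P (nat_lit 0)) (P (nat_lit 15342922548215808))))) (T.h (T.h (T.h (P (nat_lit 0)) (T.h (P (nat_lit 1303559475084394496)) (T.h (P (nat_lit 0)) (P (nat_lit 62827191098304))))) (T.h (P (nat_lit 0)) (T.h (T.h (P (nat_lit 0)) (M (nat_lit 8555555049535))) (P (nat_lit 0))))) (T.h (T.h (P (nat_lit 0)) (P (nat_lit 11197351691255808))) (T.h (T.h (T.h (P (nat_lit 0)) (P (nat_lit 5360624420992))) (P (nat_lit 0))) (P (nat_lit 0)))))))), (T.h (T.h (P (nat_lit 0)) (T.h (T.h (P (nat_lit 0)) (T.h (P (nat_lit 20370376071632726442115072)) (T.h (P (nat_lit 0)) (T.h (M (nat_lit 74258750209269956607)) (T.h (P (nat_lit 0)) (M (nat_lit 430642633814447))))))) (T.h (P (nat_lit 0)) (T.h (T.h (P (nat_lit 0)) (T.h (M (nat_lit 14468998367255986175)) (T.h (P (nat_lit 0)) (P (nat_lit 847315013424))))) (T.h (P (nat_lit 0)) (T.h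 (T.h (P (nat_lit 0)) (M (nat_lit 6662556455103))) (P (nat_lit 0)))))))) (T.h (T.h (T.h (P (nat_lit 994755837398416160144228352)) (T.h (P (nat_lit 0)) (T.h (P (nat_lit 62873011426048620888064)) (T.h (P (nat_lit 0)) (P (nat_lit 866541895063420928)))))) (T.h (P (nat_lit 0)) (T.h (T.h (P (nat_lit 385848081155304194048)) (T.h (P (nat_lit 0)) (P (nat_lit 102840527015788544)))) (T.h (P (nat_lit 0)) (M (nat_lit 26168110165688319)))))) (T.h (T.h (P (nat_lit 0)) (T.h (T.h (P (nat_lit 0)) (T.h (M (nat_lit 52736164427403886591)) (T.h (P (nat_lit 0)) (M (nat_lit 64739948756207))))) (T.h (P (nat_lit 0)) (T.h (T.h (P (nat_lit 0)) (P (nat_lit 238877194160))) (P (nat_lit 0)))))) (T.h (T.h (T.h (P (nat_lit 1627259457768127463424)) (T.h (P (nat_lit 0)) (P (nat_lit 40138936817926144)))) (T.h (P (nat_lit 0)) (P (nat_lit 1901487044935680)))) (T.h (T.h (P (nat_lit 0)) (T.h (T.h (P (nat_lit 0)) (P (nat_lit 37730281781984))) (P (nat_lit 0)))) (M (nat_lit 1438415993520127)))))))]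
def lP12_3 : List (T ℤ) := [(T.h (T.h (P (nat_lit 0)) (T.h (T.h (M (nat_lit 3849283284899336926831575039)) (T.h (P (nat_lit 0)) (T.h (M (nat_lit 7915433807328952975359)) (T.h (P (nat_lit 0)) (P (nat_lit 421785709203062784)))))) (T.h (P (nat_lit 0)) (T.h (T.h (M (nat_lit 2169209033493156200447)) (T.h (P (nat_lit 0)) (M (nat_lit 9664805248008191)))) (T.h (P (nat_lit 0)) (P (nat_lit 411400681750528))))))) (T.h (T.h (T.h (P (nat_lit 0)) (T.h (M (nat_lit 8685767576524368306503679)) (T.h (P (nat_lit 0)) (M (nat_lit 126973145165437337599))))) (T.h (P (nat_lit 0)) (T.h (T.h (P (nat_lit 0)) (M (nat_lit 21352153951422644223))) (P (nat_lit 0))))) (T.h (T.h (P (nat_lit 0)) (T.h (T.h (M (nat_lit 318127756473987497983)) (T.h (P (nat_lit 0)) (P (nat_lit 56882161005330432)))) (T.h (P (nat_lit 0)) (M (nat_lit 5667928027332607))))) (T.h (T.h (T.h (P (nat_lit 0)) (M (nat_lit 32111403715541336063))) (P (nat_lit 0))) (T.h (T.h (P (nat_lit 0)) (M (nat_lit 9836419181182975)))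 (P (nat_lit 0))))))), (P (nat_lit 0)), (P (nat_lit 0)), (T.h (T.h (T.h (P (nat_lit 0)) (T.h (M (nat_lit 12684840511315129229494976511)) (T.h (P (nat_lit 0)) (T.h (M (nat_lit 53016593064264569192447)) (T.h (P (nat_lit 0)) (P (nat_lit 2782105205997568))))))) (T.h (P (nat_lit 0)) (T.h (T.h (P (nat_lit 0)) (T.h (P (nat_lit 4077642440654830174208)) (T.h (P (nat_lit 0)) (P (nat_lit 42281672534786048))))) (T.h (P (nat_lit 0)) (T.h (T.h (P (nat_lit 0)) (M (nat_lit 4290026769317887))) (P (nat_lit 0))))))) (T.h (T.h (P (nat_lit 0)) (T.h (T.h (P (nat_lit 1387203145980497050468352)) (T.h (P (nat_lit 0)) (T.h (P (nat_lit 7509937226516529152)) (T.h (P (nat_lit 0)) (M (nat_lit 18001481031807)))))) (T.h (P (nat_lit 0)) (T.h (T.h (P (nat_lit 5129996790287826944)) (T.h (P (nat_lit 0)) (P (nat_lit 80491955580040)))) (T.h (P (nat_lit 0)) (M (nat_lit 5667384178967))))))) (T.h (T.h (T.h (P (nat_lit 0)) (T.h (M (nat_lit 7879741752788425637887)) (T.h (P (nat_lit 0)) (M (nat_lit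 7310596866047999))))) (T.h (P (nat_lit 0)) (T.h (T.h (P (nat_lit 0)) (P (nat_lit 3910183346012160))) (P (nat_lit 0))))) (T.h (T.h (P (nat_lit 0)) (T.h (T.h (M (nat_lit 3278463469824770047)) (T.h (P (nat_lit 0)) (M (nat_lit 24712533350719)))) (T.h (P (nat_lit 0)) (P (nat_lit 5615599430704))))) (T.h (T.h (T.h (P (nat_lit 0)) (P (nat_lit 9953376213958656))) (P (nat_lit 0))) (T.h (T.h (P (nat_lit 0)) (P (nat_lit 15368633917056))) (P (nat_lit 0)))))))), (T.h (T.h (T.h (P (nat_lit 15172213786557349686731121623040)) (T.h (P (nat_lit 0)) (T.h (P (nat_lit 21374983709252717796917248)) (T.h (P (nat_lit 0)) (T.h (M (nat_lit 47365347442010619903)) (T.h (P (nat_lit 0)) (P (nat_lit 63359498543120)))))))) (T.h (P (nat_lit 0)) (T.h (T.h (M (nat_lit 18264153611699954183569407)) (T.h (P (nat_lit 0)) (T.h (M (nat_lit 32579711267497836543)) (T.h (P (nat_lit 0)) (P (nat_lit 439341944415168)))))) (T.h (P (nat_lit 0)) (T.h (T.h (M (nat_lit 8776527609941983231)) (T.h (P (nat_lit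 0)) (M (nat_lit 25450372979775)))) (T.h (P (nat_lit 0)) (P (nat_lit 7181325551792)))))))) (T.h (T.h (P (nat_lit 0)) (T.h (T.h (P (nat_lit 0)) (T.h (P (nat_lit 2070260029915047919616)) (T.h (P (nat_lit 0)) (P (nat_lit 184625113980796928))))) (T.h (P (nat_lit 0)) (T.h (T.h (P (nat_lit 0)) (M (nat_lit 56295723824119807))) (P (nat_lit 0)))))) (T.h (T.h (T.h (M (nat_lit 1210949200232913911676927)) (T.h (P (nat_lit 0)) (T.h (P (nat_lit 104816937201435672576)) (T.h (P (nat_lit 0)) (P (nat_lit 65805890694080)))))) (T.h (P (nat_lit 0)) (T.h (T.h (M (nat_lit 1443524170846568447)) (T.h (P (nat_lit 0)) (M (nat_lit 2428238407215)))) (T.h (P (nat_lit 0)) (P (nat_lit 7834943220656)))))) (T.h (T.h (P (nat_lit 0)) (T.h (T.h (P (nat_lit 0)) (P (nat_lit 71083122527076352))) (P (nat_lit 0)))) (T.h (T.h (T.h (M (nat_lit 1640313288946352127)) (T.h (P (nat_lit 0)) (M (nat_lit 27352561037247)))) (T.h (P (nat_lit 0)) (P (nat_lit 7778266412928)))) (T.h (P (nat_lit 0)) (M (nat_lit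 2258787755471)))))))), (T.h (T.h (T.h (P (nat_lit 0)) (T.h (P (nat_lit 556240270776678431303139328)) (T.h (P (nat_lit 0)) (T.h (M (nat_lit 106146170585502539841535)) (T.h (P (nat_lit 0)) (P (nat_lit 294432181340930048))))))) (T.h (P (nat_lit 0)) (T.h (T.h (P (nat_lit 0)) (T.h (M (nat_lit 22709465110943195201535)) (T.h (P (nat_lit 0)) (P (nat_lit 97128441095356416))))) (T.h (P (nat_lit 0)) (T.h (T.h (P (nat_lit 0)) (M (nat_lit 81212293442699263))) (P (nat_lit 0))))))) (T.h (T.h (P (nat_lit 0)) (T.h (T.h (M (nat_lit 33674519128823394065186815)) (T.h (P (nat_lit 0)) (T.h (P (nat_lit 56544454345603678208)) (T.h (P (nat_lit 0)) (M (nat_lit 46655458843455)))))) (T.h (P (nat_lit 0)) (T.h (T.h (M (nat_lit 1924344881111629823)) (T.h (P (nat_lit 0)) (P (nat_lit 82499058864512)))) (T.h (P (nat_lit 0)) (M (nat_lit 26922678205119))))))) (T.h (T.h (T.h (P (nat_lit 0)) (T.h (M (nat_lit 29407020964897829683199)) (T.h (P (nat_lit 0)) (P (nat_lit 8952162460336128)))))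 (T.h (P (nat_lit 0)) (T.h (T.h (P (nat_lit 0)) (M (nat_lit 23264011617468415))) (P (nat_lit 0))))) (T.h (T.h (P (nat_lit 0)) (T.h (T.h (P (nat_lit 19058927348914061312)) (T.h (P (nat_lit 0)) (P (nat_lit 86144119924352)))) (T.h (P (nat_lit 0)) (M (nat_lit 52855227214911))))) (T.h (T.h (T.h (P (nat_lit 0)) (M (nat_lit 37480698153926655))) (P (nat_lit 0))) (T.h (T.h (P (nat_lit 0)) (M (nat_lit 13089198389183))) (P (nat_lit 0)))))))), (T.h (T.h (T.h (P (nat_lit 1125191178323626060599525376000)) (T.h (P (nat_lit 0)) (T.h (M (nat_lit 46278492287481778855215103)) (T.h (P (nat_lit 0)) (T.h (M (nat_lit 156129275264035192831)) (T.h (P (nat_lit 0)) (P (nat_lit 130481994932784)))))))) (T.h (P (nat_lit 0)) (T.h (T.h (P (nat_lit 12526376508625760402014208)) (T.h (P (nat_lit 0)) (T.h (M (nat_lit 267369536469543682047)) (T.h (P (nat_lit 0)) (P (nat_lit 78162321228816)))))) (T.h (P (nat_lit 0)) (T.h (T.h (M (nat_lit 9306149800544043007)) (T.h (P (nat_lit 0)) (P (nat_lit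 129681242717312)))) (T.h (P (nat_lit 0)) (P (nat_lit 1586148909312)))))))) (T.h (T.h (P (nat_lit 0)) (T.h (T.h (P (nat_lit 0)) (T.h (M (nat_lit 56440631814495246745599)) (T.h (P (nat_lit 0)) (P (nat_lit 297687919684386816))))) (T.h (P (nat_lit 0)) (T.h (T.h (P (nat_lit 0)) (M (nat_lit 11779929606979583))) (P (nat_lit 0)))))) (T.h (T.h (T.h (P (nat_lit 5767003101391923837927424)) (T.h (P (nat_lit 0)) (T.h (M (nat_lit 217516683191390306303)) (T.h (P (nat_lit 0)) (P (nat_lit 33231154151888)))))) (T.h (P (nat_lit 0)) (T.h (T.h (P (nat_lit 1877110365234397184)) (T.h (P (nat_lit 0)) (P (nat_lit 109922351265936)))) (T.h (P (nat_lit 0)) (M (nat_lit 52667779269951)))))) (T.h (T.h (P (nat_lit 0)) (T.h (T.h (P (nat_lit 0)) (M (nat_lit 115810020998676479))) (P (nat_lit 0)))) (T.h (T.h (T.h (P (nat_lit 2169328327335084032)) (T.h (P (nat_lit 0)) (M (nat_lit 17832029004943)))) (T.h (P (nat_lit 0)) (M (nat_lit 49126568938831)))) (T.h (P (nat_lit 0)) (P (nat_lit 3821769693456)))))))),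 (T.h (T.h (T.h (P (nat_lit 0)) (T.h (P (nat_lit 3166846873336167602856132608)) (T.h (P (nat_lit 0)) (T.h (M (nat_lit 14344602706940511911935)) (T.h (P (nat_lit 0)) (M (nat_lit 65582421789278207))))))) (T.h (P (nat_lit 0)) (T.h (T.h (P (nat_lit 0)) (T.h (P (nat_lit 54548994911447583555584)) (T.h (P (nat_lit 0)) (M (nat_lit 58682876268085247))))) (T.h (P (nat_lit 0)) (T.h (T.h (P (nat_lit 0)) (M (nat_lit 42086344733622271))) (P (nat_lit 0))))))) (T.h (T.h (P (nat_lit 0)) (T.h (T.h (P (nat_lit 9767776142240778154934272)) (T.h (P (nat_lit 0)) (M (nat_lit 145672624222347722751)))) (T.h (P (nat_lit 0)) (M (nat_lit 181177798486917119))))) (T.h (T.h (T.h (P (nat_lit 0)) (T.h (P (nat_lit 35266817870928178839552)) (T.h (P (nat_lit 0)) (M (nat_lit 12694745432686591))))) (T.h (P (nat_lit 0)) (T.h (T.h (P (nat_lit 0)) (M (nat_lit 41064510206017535))) (P (nat_lit 0))))) (T.h (T.h (P (nat_lit 0)) (P (nat_lit 11252920928419446784))) (T.h (T.h (T.h (P (nat_lit 0)) (M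 (nat_lit 384693298659327))) (P (nat_lit 0))) (P (nat_lit 0)))))))]
def lP12_4 : List (T ℤ) := [(P (nat_lit 0)), (P (nat_lit 0)), (T.h (T.h (P (nat_lit 0)) (T.h (T.h (P (nat_lit 5685019875831698336482590720)) (T.h (P (nat_lit 0)) (T.h (M (nat_lit 25833449350720953253887)) (T.h (P (nat_lit 0)) (P (nat_lit 68134088225685504)))))) (T.h (P (nat_lit 0)) (T.h (T.h (P (nat_lit 22558137889650198446080)) (T.h (P (nat_lit 0)) (P (nat_lit 51659034939162624)))) (T.h (P (nat_lit 0)) (M (nat_lit 43592615886290943))))))) (T.h (T.h (T.h (P (nat_lit 0)) (T.h (P (nat_lit 4354070054196628359741440)) (T.h (P (nat_lit 0)) (T.h (M (nat_lit 23581198596863688703)) (T.h (P (nat_lit 0)) (M (nat_lit 38572669247583))))))) (T.h (P (nat_lit 0)) (T.h (T.h (P (nat_lit 0)) (T.h (P (nat_lit 54497507742234705920)) (T.h (P (nat_lit 0)) (M (nat_lit 92577900358719))))) (T.h (P (nat_lit 0)) (T.h (T.h (P (nat_lit 0)) (P (nat_lit 27630245357104))) (P (nat_lit 0))))))) (T.h (T.h (P (nat_lit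 0)) (T.h (T.h (P (nat_lit 6175853262312199684096)) (T.h (P (nat_lit 0)) (P (nat_lit 104075782460309504)))) (T.h (P (nat_lit 0)) (M (nat_lit 22392977002594303))))) (T.h (T.h (T.h (P (nat_lit 0)) (T.h (M (nat_lit 7919079678348886015)) (T.h (P (nat_lit 0)) (M (nat_lit 21853032059887))))) (T.h (P (nat_lit 0)) (T.h (T.h (P (nat_lit 0)) (M (nat_lit 26900757114903))) (P (nat_lit 0))))) (T.h (T.h (P (nat_lit 0)) (M (nat_lit 2208110231322623))) (T.h (T.h (T.h (P (nat_lit 0)) (M (nat_lit 16789819801463))) (P (nat_lit 0))) (P (nat_lit 0)))))))), (T.h (T.h (P (nat_lit 0)) (T.h (T.h (P (nat_lit 0)) (T.h (P (nat_lit 70526209065233796783144960)) (T.h (P (nat_lit 0)) (T.h (M (nat_lit 817769225884234940415)) (T.h (P (nat_lit 0)) (P (nat_lit 5629987302560))))))) (T.h (P (nat_lit 0)) (T.h (T.h (P (nat_lit 0)) (T.h (P (nat_lit 23338111321054904320)) (T.h (P (nat_lit 0)) (P (nat_lit 346327786339536))))) (T.h (P (nat_lit 0)) (T.h (T.h (P (nat_lit 0)) (M (nat_lit 20915930440255)))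 (P (nat_lit 0)))))))) (T.h (T.h (T.h (P (nat_lit 497432562566840426191388672)) (T.h (P (nat_lit 0)) (T.h (M (nat_lit 40027040615283331956735)) (T.h (P (nat_lit 0)) (P (nat_lit 36767111433682944)))))) (T.h (P (nat_lit 0)) (T.h (T.h (P (nat_lit 6876364827149293584384)) (T.h (P (nat_lit 0)) (M (nat_lit 145468263997390847)))) (T.h (P (nat_lit 0)) (P (nat_lit 6341612324782080)))))) (T.h (T.h (P (nat_lit 0)) (T.h (T.h (P (nat_lit 0)) (T.h (M (nat_lit 103247090398378590207)) (T.h (P (nat_lit 0)) (M (nat_lit 138743880398239))))) (T.h (P (nat_lit 0)) (T.h (T.h (P (nat_lit 0)) (P (nat_lit 18354663940000))) (P (nat_lit 0)))))) (T.h (T.h (T.h (P (nat_lit 2862054342291145883648)) (T.h (P (nat_lit 0)) (M (nat_lit 37782777461571583)))) (T.h (P (nat_lit 0)) (P (nat_lit 45885516106907648)))) (T.h (T.h (P (nat_lit 0)) (T.h (T.h (P (nat_lit 0)) (P (nat_lit 33481742598912))) (P (nat_lit 0)))) (P (nat_lit 9812205560987648))))))), (T.h (T.h (P (nat_lit 0)) (T.h (T.h (M (nat_lit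 29811794875768097430166306815)) (T.h (P (nat_lit 0)) (T.h (P (nat_lit 506275462163121936793600)) (T.h (P (nat_lit 0)) (M (nat_lit 1512792907138695167)))))) (T.h (P (nat_lit 0)) (T.h (T.h (P (nat_lit 18779666287450602340352)) (T.h (P (nat_lit 0)) (M (nat_lit 125947280191946751)))) (T.h (P (nat_lit 0)) (M (nat_lit 23750232742199295))))))) (T.h (T.h (T.h (P (nat_lit 0)) (T.h (P (nat_lit 23381767355945894354616320)) (T.h (P (nat_lit 0)) (T.h (P (nat_lit 256980490934963666944)) (T.h (P (nat_lit 0)) (P (nat_lit 92390346224128))))))) (T.h (P (nat_lit 0)) (T.h (T.h (P (nat_lit 0)) (T.h (P (nat_lit 41452185600745537536)) (T.h (P (nat_lit 0)) (P (nat_lit 323801007112640))))) (T.h (P (nat_lit 0)) (T.h (T.h (P (nat_lit 0)) (M (nat_lit 135092302434559))) (P (nat_lit 0))))))) (T.h (T.h (P (nat_lit 0)) (T.h (T.h (P (nat_lit 14483498916290326691840)) (T.h (P (nat_lit 0)) (M (nat_lit 163866416494804991)))) (T.h (P (nat_lit 0)) (M (nat_lit 66990179196731391))))) (T.h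 (T.h (T.h (P (nat_lit 0)) (T.h (M (nat_lit 7445068234803380223)) (T.h (P (nat_lit 0)) (M (nat_lit 173328127994111))))) (T.h (P (nat_lit 0)) (T.h (T.h (P (nat_lit 0)) (M (nat_lit 129680774576831))) (P (nat_lit 0))))) (T.h (T.h (P (nat_lit 0)) (M (nat_lit 104316820470300671))) (T.h (T.h (T.h (P (nat_lit 0)) (M (nat_lit 10339465218239))) (P (nat_lit 0))) (P (nat_lit 0)))))))), (T.h (T.h (P (nat_lit 0)) (T.h (T.h (P (nat_lit 0)) (T.h (M (nat_lit 80905210978061627915501567)) (T.h (P (nat_lit 0)) (T.h (P (nat_lit 966498054002410782720)) (T.h (P (nat_lit 0)) (M (nat_lit 202010613196303))))))) (T.h (P (nat_lit 0)) (T.h (T.h (P (nat_lit 0)) (T.h (P (nat_lit 104709661005493305344)) (T.h (P (nat_lit 0)) (M (nat_lit 40807260833679))))) (T.h (P (nat_lit 0)) (T.h (T.h (P (nat_lit 0)) (P (nat_lit 9843633707952))) (P (nat_lit 0)))))))) (T.h (T.h (T.h (P (nat_lit 15233738752004595955919749120)) (T.h (P (nat_lit 0)) (T.h (M (nat_lit 190912665759102877564927)) (T.h (P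 (nat_lit 0)) (M (nat_lit 59401021968924671)))))) (T.h (P (nat_lit 0)) (T.h (T.h (M (nat_lit 50588246820526462337023)) (T.h (P (nat_lit 0)) (M (nat_lit 481125668614946815)))) (T.h (P (nat_lit 0)) (P (nat_lit 37657315048210432)))))) (T.h (T.h (P (nat_lit 0)) (T.h (T.h (P (nat_lit 0)) (T.h (P (nat_lit 180384892735593644032)) (T.h (P (nat_lit 0)) (M (nat_lit 160765879742335))))) (T.h (P (nat_lit 0)) (T.h (T.h (P (nat_lit 0)) (M (nat_lit 153951304182895))) (P (nat_lit 0)))))) (T.h (T.h (T.h (M (nat_lit 21694648982052280467455)) (T.h (P (nat_lit 0)) (P (nat_lit 117065434944339968)))) (T.h (P (nat_lit 0)) (P (nat_lit 153507077665947648)))) (T.h (T.h (P (nat_lit 0)) (T.h (T.h (P (nat_lit 0)) (M (nat_lit 46938132056991))) (P (nat_lit 0)))) (M (nat_lit 8026129388699647))))))), (T.h (T.h (P (nat_lit 0)) (T.h (T.h (P (nat_lit 9479945226855203678944493568)) (T.h (P (nat_lit 0)) (T.h (M (nat_lit 252405377024740638588927)) (T.h (P (nat_lit 0)) (P (nat_lit 158948710125174784))))))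 (T.h (P (nat_lit 0)) (T.h (T.h (M (nat_lit 8055960460481364230143)) (T.h (P (nat_lit 0)) (M (nat_lit 73784448161644543)))) (T.h (P (nat_lit 0)) (M (nat_lit 3604578148319231))))))) (T.h (T.h (T.h (P (nat_lit 0)) (T.h (P (nat_lit 68480659706341009634885632)) (T.h (P (nat_lit 0)) (M (nat_lit 76622548805082939391))))) (T.h (P (nat_lit 0)) (T.h (T.h (P (nat_lit 0)) (P (nat_lit 28561419631895511040))) (P (nat_lit 0))))) (T.h (T.h (P (nat_lit 0)) (T.h (T.h (M (nat_lit 15229871120192928481279)) (T.h (P (nat_lit 0)) (P (nat_lit 48863964941058048)))) (T.h (P (nat_lit 0)) (P (nat_lit 67886065340547072))))) (T.h (T.h (T.h (P (nat_lit 0)) (P (nat_lit 11930534835996590080))) (P (nat_lit 0))) (T.h (T.h (P (nat_lit 0)) (P (nat_lit 27031974620561408))) (P (nat_lit 0))))))), (P (nat_lit 0))]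
def lP12_5 : List (T ℤ) := [(P (nat_lit 0)), (T.h (T.h (T.h (P (nat_lit 0)) (T.h (P (nat_lit 5685019875831698336482590720)) (T.h (P (nat_lit 0)) (T.h (P (nat_lit 22558137889650198446080)) (T.h (P (nat_lit 0)) (M (nat_lit 43592615886290943))))))) (T.h (P (nat_lit 0)) (T.h (T.h (P (nat_lit 0)) (T.h (M (nat_lit 25833449350720953253887)) (T.h (P (nat_lit 0)) (P (nat_lit 51659034939162624))))) (T.h (P (nat_lit 0)) (T.h (T.h (P (nat_lit 0)) (P (nat_lit 68134088225685504))) (P (nat_lit 0))))))) (T.h (T.h (P (nat_lit 0)) (T.h (T.h (P (nat_lit 4354070054196628359741440)) (T.h (P (nat_lit 0)) (T.h (P (nat_lit 54497507742234705920)) (T.h (P (nat_lit 0)) (P (nat_lit 27630245357104)))))) (T.h (P (nat_lit 0)) (T.h (T.h (M (nat_lit 23581198596863688703)) (T.h (P (nat_lit 0)) (M (nat_lit 92577900358719)))) (T.h (P (nat_lit 0)) (M (nat_lit 38572669247583))))))) (T.h (T.h (T.h (P (nat_lit 0)) (T.h (P (nat_lit 6175853262312199684096)) (T.h (P (nat_lit 0)) (M (nat_lit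 22392977002594303))))) (T.h (P (nat_lit 0)) (T.h (T.h (P (nat_lit 0)) (P (nat_lit 104075782460309504))) (P (nat_lit 0))))) (T.h (T.h (P (nat_lit 0)) (T.h (T.h (M (nat_lit 7919079678348886015)) (T.h (P (nat_lit 0)) (M (nat_lit 26900757114903)))) (T.h (P (nat_lit 0)) (M (nat_lit 21853032059887))))) (T.h (T.h (T.h (P (nat_lit 0)) (M (nat_lit 2208110231322623))) (P (nat_lit 0))) (T.h (T.h (P (nat_lit 0)) (M (nat_lit 16789819801463))) (P (nat_lit 0)))))))), (T.h (T.h (T.h (P (nat_lit 22617088506532989352597639921664)) (T.h (P (nat_lit 0)) (T.h (P (nat_lit 8457161709171102583881728)) (T.h (P (nat_lit 0)) (T.h (P (nat_lit 74036933237223194624)) (T.h (P (nat_lit 0)) (M (nat_lit 26207854071903)))))))) (T.h (P (nat_lit 0)) (T.h (T.h (P (nat_lit 8457161709171102583881728)) (T.h (P (nat_lit 0)) (T.h (P (nat_lit 101276404498535809024)) (T.h (P (nat_lit 0)) (M (nat_lit 171985111421919)))))) (T.h (P (nat_lit 0)) (T.h (T.h (P (nat_lit 74036933237223194624)) (T.h (P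 (nat_lit 0)) (M (nat_lit 171985111421919)))) (T.h (P (nat_lit 0)) (M (nat_lit 26207854071903)))))))) (T.h (T.h (P (nat_lit 0)) (T.h (T.h (P (nat_lit 0)) (T.h (P (nat_lit 436545863640585823322112)) (T.h (P (nat_lit 0)) (P (nat_lit 231010450467749888))))) (T.h (P (nat_lit 0)) (T.h (T.h (P (nat_lit 0)) (P (nat_lit 231010450467749888))) (P (nat_lit 0)))))) (T.h (T.h (T.h (P (nat_lit 3140137524329456248815616)) (T.h (P (nat_lit 0)) (T.h (P (nat_lit 45458294552150409216)) (T.h (P (nat_lit 0)) (P (nat_lit 15164383117568)))))) (T.h (P (nat_lit 0)) (T.h (T.h (P (nat_lit 45458294552150409216)) (T.h (P (nat_lit 0)) (P (nat_lit 913938109348384)))) (T.h (P (nat_lit 0)) (P (nat_lit 15164383117568)))))) (T.h (T.h (P (nat_lit 0)) (T.h (T.h (P (nat_lit 0)) (M (nat_lit 186331836287156223))) (P (nat_lit 0)))) (T.h (T.h (T.h (M (nat_lit 13734426222065090559)) (T.h (P (nat_lit 0)) (P (nat_lit 18863524992736)))) (T.h (P (nat_lit 0)) (P (nat_lit 18863524992736)))) (T.h (P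 (nat_lit 0)) (P (nat_lit 6987571952256)))))))), (T.h (T.h (T.h (P (nat_lit 0)) (T.h (P (nat_lit 46792758968280233293480198144)) (T.h (P (nat_lit 0)) (T.h (P (nat_lit 216971507881601824456704)) (T.h (P (nat_lit 0)) (P (nat_lit 11969581587103744))))))) (T.h (P (nat_lit 0)) (T.h (T.h (P (nat_lit 0)) (T.h (M (nat_lit 125136616968347103264767)) (T.h (P (nat_lit 0)) (M (nat_lit 277069416380858367))))) (T.h (P (nat_lit 0)) (T.h (T.h (P (nat_lit 0)) (P (nat_lit 265822393296289792))) (P (nat_lit 0))))))) (T.h (T.h (P (nat_lit 0)) (T.h (T.h (M (nat_lit 83626387721824454582468607)) (T.h (P (nat_lit 0)) (T.h (M (nat_lit 696900677064655372287)) (T.h (P (nat_lit 0)) (P (nat_lit 265807357753792)))))) (T.h (P (nat_lit 0)) (T.h (T.h (M (nat_lit 94436845230223261695)) (T.h (P (nat_lit 0)) (M (nat_lit 333470482810303)))) (T.h (P (nat_lit 0)) (P (nat_lit 107326841501440))))))) (T.h (T.h (T.h (P (nat_lit 0)) (T.h (M (nat_lit 24332516310276678615039)) (T.h (P (nat_lit 0))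 (M (nat_lit 21901407346294783))))) (T.h (P (nat_lit 0)) (T.h (T.h (P (nat_lit 0)) (P (nat_lit 122755825063264256))) (P (nat_lit 0))))) (T.h (T.h (P (nat_lit 0)) (T.h (T.h (P (nat_lit 85766246270368743424)) (T.h (P (nat_lit 0)) (P (nat_lit 36848463641664)))) (T.h (P (nat_lit 0)) (P (nat_lit 197314070123200))))) (T.h (T.h (T.h (P (nat_lit 0)) (P (nat_lit 116005186613870592))) (P (nat_lit 0))) (T.h (T.h (P (nat_lit 0)) (P (nat_lit 11420856083328))) (P (nat_lit 0)))))))), (T.h (T.h (T.h (P (nat_lit 90041645070864497468254453760)) (T.h (P (nat_lit 0)) (T.h (M (nat_lit 74297551689310308902371327)) (T.h (P (nat_lit 0)) (T.h (P (nat_lit 336412622550833561600)) (T.h (P (nat_lit 0)) (M (nat_lit 499469368768831)))))))) (T.h (P (nat_lit 0)) (T.h (T.h (M (nat_lit 82978344281189709284114431)) (T.h (P (nat_lit 0)) (T.h (P (nat_lit 185568451651652550656)) (T.h (P (nat_lit 0)) (M (nat_lit 1548465693749039)))))) (T.h (P (nat_lit 0)) (T.h (T.h (M (nat_lit 78420376951661264895))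 (T.h (P (nat_lit 0)) (P (nat_lit 227616305269056)))) (T.h (P (nat_lit 0)) (M (nat_lit 100380931134879)))))))) (T.h (T.h (P (nat_lit 0)) (T.h (T.h (P (nat_lit 0)) (T.h (M (nat_lit 465666743731333762121727)) (T.h (P (nat_lit 0)) (M (nat_lit 1348142103835803647))))) (T.h (P (nat_lit 0)) (T.h (T.h (P (nat_lit 0)) (P (nat_lit 536079415609098240))) (P (nat_lit 0)))))) (T.h (T.h (T.h (M (nat_lit 9814911570293775350628351)) (T.h (P (nat_lit 0)) (T.h (P (nat_lit 341679502975320457216)) (T.h (P (nat_lit 0)) (M (nat_lit 311887139930959)))))) (T.h (P (nat_lit 0)) (T.h (T.h (M (nat_lit 99246207615725731839)) (T.h (P (nat_lit 0)) (M (nat_lit 1201170315836127)))) (T.h (P (nat_lit 0)) (P (nat_lit 211605099716560)))))) (T.h (T.h (P (nat_lit 0)) (T.h (T.h (P (nat_lit 0)) (P (nat_lit 424906803810205696))) (P (nat_lit 0)))) (T.h (T.h (T.h (P (nat_lit 10325048240973545472)) (T.h (P (nat_lit 0)) (P (nat_lit 45874032146976)))) (T.h (P (nat_lit 0)) (P (nat_lit 46870734497312))))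 (T.h (P (nat_lit 0)) (M (nat_lit 10492294430287)))))))), (T.h (T.h (T.h (P (nat_lit 0)) (T.h (P (nat_lit 23189883887025830961654792192)) (T.h (P (nat_lit 0)) (T.h (M (nat_lit 243099935357513639133183)) (T.h (P (nat_lit 0)) (P (nat_lit 595563394477948928))))))) (T.h (P (nat_lit 0)) (T.h (T.h (P (nat_lit 0)) (T.h (M (nat_lit 33956056854755006218239)) (T.h (P (nat_lit 0)) (P (nat_lit 1175977343068569600))))) (T.h (P (nat_lit 0)) (T.h (T.h (P (nat_lit 0)) (M (nat_lit 93919563231952895))) (P (nat_lit 0))))))) (T.h (T.h (P (nat_lit 0)) (T.h (T.h (P (nat_lit 104213714518363397557321728)) (T.h (P (nat_lit 0)) (P (nat_lit 571332830943741214720)))) (T.h (P (nat_lit 0)) (M (nat_lit 18889754215679262719))))) (T.h (T.h (T.h (P (nat_lit 0)) (T.h (M (nat_lit 87515735663265416478719)) (T.h (P (nat_lit 0)) (P (nat_lit 262202542911520768))))) (T.h (P (nat_lit 0)) (T.h (T.h (P (nat_lit 0)) (P (nat_lit 533260947869499392))) (P (nat_lit 0))))) (T.h (T.h (P (nat_lit 0))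 (M (nat_lit 99944006815716474879))) (T.h (T.h (T.h (P (nat_lit 0)) (M (nat_lit 8342794656481279))) (P (nat_lit 0))) (P (nat_lit 0))))))), (P (nat_lit 0)), (P (nat_lit 0))]
def lP12_6 : List (T ℤ) := [(T.h (T.h (P (nat_lit 0)) (T.h (T.h (M (nat_lit 12684840511315129229494976511)) (T.h (P (nat_lit 0)) (T.h (P (nat_lit 4077642440654830174208)) (T.h (P (nat_lit 0)) (M (nat_lit 4290026769317887)))))) (T.h (P (nat_lit 0)) (T.h (T.h (M (nat_lit 53016593064264569192447)) (T.h (P (nat_lit 0)) (P (nat_lit 42281672534786048)))) (T.h (P (nat_lit 0)) (P (nat_lit 2782105205997568))))))) (T.h (T.h (T.h (P (nat_lit 0)) (T.h (P (nat_lit 1387203145980497050468352)) (T.h (P (nat_lit 0)) (T.h (P (nat_lit 5129996790287826944)) (T.h (P (nat_lit 0)) (M (nat_lit 5667384178967))))))) (T.h (P (nat_lit 0)) (T.h (T.h (P (nat_lit 0)) (T.h (P (nat_lit 7509937226516529152)) (T.h (P (nat_lit 0)) (P (nat_lit 80491955580040))))) (T.h (P (nat_lit 0)) (T.h (T.h (P (nat_lit 0)) (M (nat_lit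 18001481031807))) (P (nat_lit 0))))))) (T.h (T.h (P (nat_lit 0)) (T.h (T.h (M (nat_lit 7879741752788425637887)) (T.h (P (nat_lit 0)) (P (nat_lit 3910183346012160)))) (T.h (P (nat_lit 0)) (M (nat_lit 7310596866047999))))) (T.h (T.h (T.h (P (nat_lit 0)) (T.h (M (nat_lit 3278463469824770047)) (T.h (P (nat_lit 0)) (P (nat_lit 5615599430704))))) (T.h (P (nat_lit 0)) (T.h (T.h (P (nat_lit 0)) (M (nat_lit 24712533350719))) (P (nat_lit 0))))) (T.h (T.h (P (nat_lit 0)) (P (nat_lit 9953376213958656))) (T.h (T.h (T.h (P (nat_lit 0)) (P (nat_lit 15368633917056))) (P (nat_lit 0))) (P (nat_lit 0)))))))), (T.h (T.h (P (nat_lit 0)) (T.h (T.h (P (nat_lit 0)) (T.h (P (nat_lit 70526209065233796783144960)) (T.h (P (nat_lit 0)) (T.h (P (nat_lit 23338111321054904320)) (T.h (P (nat_lit 0)) (M (nat_lit 20915930440255))))))) (T.h (P (nat_lit 0)) (T.h (T.h (P (nat_lit 0)) (T.h (M (nat_lit 817769225884234940415)) (T.h (P (nat_lit 0)) (P (nat_lit 346327786339536))))) (T.h (P (nat_lit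 0)) (T.h (T.h (P (nat_lit 0)) (P (nat_lit 5629987302560))) (P (nat_lit 0)))))))) (T.h (T.h (T.h (P (nat_lit 497432562566840426191388672)) (T.h (P (nat_lit 0)) (T.h (P (nat_lit 6876364827149293584384)) (T.h (P (nat_lit 0)) (P (nat_lit 6341612324782080)))))) (T.h (P (nat_lit 0)) (T.h (T.h (M (nat_lit 40027040615283331956735)) (T.h (P (nat_lit 0)) (M (nat_lit 145468263997390847)))) (T.h (P (nat_lit 0)) (P (nat_lit 36767111433682944)))))) (T.h (T.h (P (nat_lit 0)) (T.h (T.h (P (nat_lit 0)) (T.h (M (nat_lit 103247090398378590207)) (T.h (P (nat_lit 0)) (P (nat_lit 18354663940000))))) (T.h (P (nat_lit 0)) (T.h (T.h (P (nat_lit 0)) (M (nat_lit 138743880398239))) (P (nat_lit 0)))))) (T.h (T.h (T.h (P (nat_lit 2862054342291145883648)) (T.h (P (nat_lit 0)) (P (nat_lit 45885516106907648)))) (T.h (P (nat_lit 0)) (M (nat_lit 37782777461571583)))) (T.h (T.h (P (nat_lit 0)) (T.h (T.h (P (nat_lit 0)) (P (nat_lit 33481742598912))) (P (nat_lit 0)))) (P (nat_lit 9812205560987648))))))),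 (T.h (T.h (P (nat_lit 0)) (T.h (T.h (P (nat_lit 46792758968280233293480198144)) (T.h (P (nat_lit 0)) (T.h (M (nat_lit 125136616968347103264767)) (T.h (P (nat_lit 0)) (P (nat_lit 265822393296289792)))))) (T.h (P (nat_lit 0)) (T.h (T.h (P (nat_lit 216971507881601824456704)) (T.h (P (nat_lit 0)) (M (nat_lit 277069416380858367)))) (T.h (P (nat_lit 0)) (P (nat_lit 11969581587103744))))))) (T.h (T.h (T.h (P (nat_lit 0)) (T.h (M (nat_lit 83626387721824454582468607)) (T.h (P (nat_lit 0)) (T.h (M (nat_lit 94436845230223261695)) (T.h (P (nat_lit 0)) (P (nat_lit 107326841501440))))))) (T.h (P (nat_lit 0)) (T.h (T.h (P (nat_lit 0)) (T.h (M (nat_lit 696900677064655372287)) (T.h (P (nat_lit 0)) (M (nat_lit 333470482810303))))) (T.h (P (nat_lit 0)) (T.h (T.h (P (nat_lit 0)) (P (nat_lit 265807357753792))) (P (nat_lit 0))))))) (T.h (T.h (P (nat_lit 0)) (T.h (T.h (M (nat_lit 24332516310276678615039)) (T.h (P (nat_lit 0)) (P (nat_lit 122755825063264256)))) (T.h (P (nat_lit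 0)) (M (nat_lit 21901407346294783))))) (T.h (T.h (T.h (P (nat_lit 0)) (T.h (P (nat_lit 85766246270368743424)) (T.h (P (nat_lit 0)) (P (nat_lit 197314070123200))))) (T.h (P (nat_lit 0)) (T.h (T.h (P (nat_lit 0)) (P (nat_lit 36848463641664))) (P (nat_lit 0))))) (T.h (T.h (P (nat_lit 0)) (P (nat_lit 116005186613870592))) (T.h (T.h (T.h (P (nat_lit 0)) (P (nat_lit 11420856083328))) (P (nat_lit 0))) (P (nat_lit 0)))))))), (T.h (T.h (P (nat_lit 0)) (T.h (T.h (P (nat_lit 0)) (T.h (M (nat_lit 30324963064396105518153727)) (T.h (P (nat_lit 0)) (T.h (P (nat_lit 543754214121337257984)) (T.h (P (nat_lit 0)) (M (nat_lit 511264914572719))))))) (T.h (P (nat_lit 0)) (T.h (T.h (P (nat_lit 0)) (T.h (P (nat_lit 543754214121337257984)) (T.h (P (nat_lit 0)) (M (nat_lit 1759458341326751))))) (T.h (P (nat_lit 0)) (T.h (T.h (P (nat_lit 0)) (M (nat_lit 511264914572719))) (P (nat_lit 0)))))))) (T.h (T.h (T.h (P (nat_lit 2328535345222944051758628864)) (T.h (P (nat_lit 0)) (T.h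 (P (nat_lit 247039374308906822008832)) (T.h (P (nat_lit 0)) (M (nat_lit 145400556215058431)))))) (T.h (P (nat_lit 0)) (T.h (T.h (P (nat_lit 247039374308906822008832)) (T.h (P (nat_lit 0)) (P (nat_lit 1230293658452131840)))) (T.h (P (nat_lit 0)) (M (nat_lit 145400556215058431)))))) (T.h (T.h (P (nat_lit 0)) (T.h (T.h (P (nat_lit 0)) (T.h (M (nat_lit 151511431282023202815)) (T.h (P (nat_lit 0)) (P (nat_lit 523327662662640))))) (T.h (P (nat_lit 0)) (T.h (T.h (P (nat_lit 0)) (P (nat_lit 523327662662640))) (P (nat_lit 0)))))) (T.h (T.h (T.h (P (nat_lit 4364167748600012472320)) (T.h (P (nat_lit 0)) (M (nat_lit 380614331262664703)))) (T.h (P (nat_lit 0)) (M (nat_lit 380614331262664703)))) (T.h (T.h (P (nat_lit 0)) (T.h (T.h (P (nat_lit 0)) (M (nat_lit 237527651697951))) (P (nat_lit 0)))) (M (nat_lit 1605405777788927))))))), (T.h (T.h (P (nat_lit 0)) (T.h (T.h (P (nat_lit 37495071686497208421731794944)) (T.h (P (nat_lit 0)) (T.h (M (nat_lit 426842702168290282700799))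 (T.h (P (nat_lit 0)) (P (nat_lit 1052533473347338240)))))) (T.h (P (nat_lit 0)) (T.h (T.h (M (nat_lit 138571131412666097074175)) (T.h (P (nat_lit 0)) (P (nat_lit 813225388758859776)))) (T.h (P (nat_lit 0)) (P (nat_lit 207322856984576000))))))) (T.h (T.h (T.h (P (nat_lit 0)) (T.h (M (nat_lit 8530470887322473985998847)) (T.h (P (nat_lit 0)) (P (nat_lit 124755095903367331840))))) (T.h (P (nat_lit 0)) (T.h (T.h (P (nat_lit 0)) (M (nat_lit 394182288451529867263))) (P (nat_lit 0))))) (T.h (T.h (P (nat_lit 0)) (T.h (T.h (P (nat_lit 16057378342646109437952)) (T.h (P (nat_lit 0)) (P (nat_lit 154969859478683648)))) (T.h (P (nat_lit 0)) (M (nat_lit 255022184546467839))))) (T.h (T.h (T.h (P (nat_lit 0)) (P (nat_lit 11526735466153902080))) (P (nat_lit 0))) (T.h (T.h (P (nat_lit 0)) (P (nat_lit 26770372925128704))) (P (nat_lit 0))))))), (P (nat_lit 0)), (P (nat_lit 0)), (T.h (T.h (T.h (P (nat_lit 0)) (T.h (P (nat_lit 13204927875378715774934843392)) (T.h (P (nat_lit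 0)) (T.h (M (nat_lit 590497161174321201151)) (T.h (P (nat_lit 0)) (M (nat_lit 17312308370309119))))))) (T.h (P (nat_lit 0)) (T.h (T.h (P (nat_lit 0)) (T.h (P (nat_lit 13539892843789789691904)) (T.h (P (nat_lit 0)) (M (nat_lit 27032684399165439))))) (T.h (P (nat_lit 0)) (T.h (T.h (P (nat_lit 0)) (M (nat_lit 11870878074175487))) (P (nat_lit 0))))))) (T.h (T.h (P (nat_lit 0)) (T.h (T.h (M (nat_lit 122639602115953821745151)) (T.h (P (nat_lit 0)) (T.h (P (nat_lit 17277838074277003264)) (T.h (P (nat_lit 0)) (M (nat_lit 26065790100687)))))) (T.h (P (nat_lit 0)) (T.h (T.h (P (nat_lit 23265789879055810560)) (T.h (P (nat_lit 0)) (M (nat_lit 33347038321839)))) (T.h (P (nat_lit 0)) (M (nat_lit 36276789813271))))))) (T.h (T.h (T.h (P (nat_lit 0)) (T.h (P (nat_lit 3282297356631899373568)) (T.h (P (nat_lit 0)) (M (nat_lit 7315163158740991))))) (T.h (P (nat_lit 0)) (T.h (T.h (P (nat_lit 0)) (M (nat_lit 21109903815409663))) (P (nat_lit 0))))) (T.h (T.h (P (nat_lit 0))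 (T.h (T.h (P (nat_lit 2240755757060456448)) (T.h (P (nat_lit 0)) (M (nat_lit 4134781533415)))) (T.h (P (nat_lit 0)) (M (nat_lit 20913852849103))))) (T.h (T.h (T.h (P (nat_lit 0)) (M (nat_lit 2513831367540735))) (P (nat_lit 0))) (T.h (T.h (P (nat_lit 0)) (M (nat_lit 3482561271999))) (P (nat_lit 0))))))))]
def lP12_7 : List (T ℤ) := [(T.h (T.h (T.h (P (nat_lit 15172213786557349686731121623040)) (T.h (P (nat_lit 0)) (T.h (M (nat_lit 18264153611699954183569407)) (T.h (P (nat_lit 0)) (T.h (M (nat_lit 8776527609941983231)) (T.h (P (nat_lit 0)) (P (nat_lit 7181325551792)))))))) (T.h (P (nat_lit 0)) (T.h (T.h (P (nat_lit 21374983709252717796917248)) (T.h (P (nat_lit 0)) (T.h (M (nat_lit 32579711267497836543)) (T.h (P (nat_lit 0)) (M (nat_lit 25450372979775)))))) (T.h (P (nat_lit 0)) (T.h (T.h (M (nat_lit 47365347442010619903)) (T.h (P (nat_lit 0)) (P (nat_lit 439341944415168)))) (T.h (P (nat_lit 0)) (P (nat_lit 63359498543120)))))))) (T.h (T.h (P (nat_lit 0))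 (T.h (T.h (P (nat_lit 0)) (T.h (P (nat_lit 2070260029915047919616)) (T.h (P (nat_lit 0)) (M (nat_lit 56295723824119807))))) (T.h (P (nat_lit 0)) (T.h (T.h (P (nat_lit 0)) (P (nat_lit 184625113980796928))) (P (nat_lit 0)))))) (T.h (T.h (T.h (M (nat_lit 1210949200232913911676927)) (T.h (P (nat_lit 0)) (T.h (M (nat_lit 1443524170846568447)) (T.h (P (nat_lit 0)) (P (nat_lit 7834943220656)))))) (T.h (P (nat_lit 0)) (T.h (T.h (P (nat_lit 104816937201435672576)) (T.h (P (nat_lit 0)) (M (nat_lit 2428238407215)))) (T.h (P (nat_lit 0)) (P (nat_lit 65805890694080)))))) (T.h (T.h (P (nat_lit 0)) (T.h (T.h (P (nat_lit 0)) (P (nat_lit 71083122527076352))) (P (nat_lit 0)))) (T.h (T.h (T.h (M (nat_lit 1640313288946352127)) (T.h (P (nat_lit 0)) (P (nat_lit 7778266412928)))) (T.h (P (nat_lit 0)) (M (nat_lit 27352561037247)))) (T.h (P (nat_lit 0)) (M (nat_lit 2258787755471)))))))), (T.h (T.h (T.h (P (nat_lit 0)) (T.h (M (nat_lit 29811794875768097430166306815)) (T.h (P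 (nat_lit 0)) (T.h (P (nat_lit 18779666287450602340352)) (T.h (P (nat_lit 0)) (M (nat_lit 23750232742199295))))))) (T.h (P (nat_lit 0)) (T.h (T.h (P (nat_lit 0)) (T.h (P (nat_lit 506275462163121936793600)) (T.h (P (nat_lit 0)) (M (nat_lit 125947280191946751))))) (T.h (P (nat_lit 0)) (T.h (T.h (P (nat_lit 0)) (M (nat_lit 1512792907138695167))) (P (nat_lit 0))))))) (T.h (T.h (P (nat_lit 0)) (T.h (T.h (P (nat_lit 23381767355945894354616320)) (T.h (P (nat_lit 0)) (T.h (P (nat_lit 41452185600745537536)) (T.h (P (nat_lit 0)) (M (nat_lit 135092302434559)))))) (T.h (P (nat_lit 0)) (T.h (T.h (P (nat_lit 256980490934963666944)) (T.h (P (nat_lit 0)) (P (nat_lit 323801007112640)))) (T.h (P (nat_lit 0)) (P (nat_lit 92390346224128))))))) (T.h (T.h (T.h (P (nat_lit 0)) (T.h (P (nat_lit 14483498916290326691840)) (T.h (P (nat_lit 0)) (M (nat_lit 66990179196731391))))) (T.h (P (nat_lit 0)) (T.h (T.h (P (nat_lit 0)) (M (nat_lit 163866416494804991))) (P (nat_lit 0)))))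 (T.h (T.h (P (nat_lit 0)) (T.h (T.h (M (nat_lit 7445068234803380223)) (T.h (P (nat_lit 0)) (M (nat_lit 129680774576831)))) (T.h (P (nat_lit 0)) (M (nat_lit 173328127994111))))) (T.h (T.h (T.h (P (nat_lit 0)) (M (nat_lit 104316820470300671))) (P (nat_lit 0))) (T.h (T.h (P (nat_lit 0)) (M (nat_lit 10339465218239))) (P (nat_lit 0)))))))), (T.h (T.h (T.h (P (nat_lit 90041645070864497468254453760)) (T.h (P (nat_lit 0)) (T.h (M (nat_lit 82978344281189709284114431)) (T.h (P (nat_lit 0)) (T.h (M (nat_lit 78420376951661264895)) (T.h (P (nat_lit 0)) (M (nat_lit 100380931134879)))))))) (T.h (P (nat_lit 0)) (T.h (T.h (M (nat_lit 74297551689310308902371327)) (T.h (P (nat_lit 0)) (T.h (P (nat_lit 185568451651652550656)) (T.h (P (nat_lit 0)) (P (nat_lit 227616305269056)))))) (T.h (P (nat_lit 0)) (T.h (T.h (P (nat_lit 336412622550833561600)) (T.h (P (nat_lit 0)) (M (nat_lit 1548465693749039)))) (T.h (P (nat_lit 0)) (M (nat_lit 499469368768831)))))))) (T.h (T.h (P (nat_lit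 0)) (T.h (T.h (P (nat_lit 0)) (T.h (M (nat_lit 465666743731333762121727)) (T.h (P (nat_lit 0)) (P (nat_lit 536079415609098240))))) (T.h (P (nat_lit 0)) (T.h (T.h (P (nat_lit 0)) (M (nat_lit 1348142103835803647))) (P (nat_lit 0)))))) (T.h (T.h (T.h (M (nat_lit 9814911570293775350628351)) (T.h (P (nat_lit 0)) (T.h (M (nat_lit 99246207615725731839)) (T.h (P (nat_lit 0)) (P (nat_lit 211605099716560)))))) (T.h (P (nat_lit 0)) (T.h (T.h (P (nat_lit 341679502975320457216)) (T.h (P (nat_lit 0)) (M (nat_lit 1201170315836127)))) (T.h (P (nat_lit 0)) (M (nat_lit 311887139930959)))))) (T.h (T.h (P (nat_lit 0)) (T.h (T.h (P (nat_lit 0)) (P (nat_lit 424906803810205696))) (P (nat_lit 0)))) (T.h (T.h (T.h (P (nat_lit 10325048240973545472)) (T.h (P (nat_lit 0)) (P (nat_lit 46870734497312)))) (T.h (P (nat_lit 0)) (P (nat_lit 45874032146976)))) (T.h (P (nat_lit 0)) (M (nat_lit 10492294430287)))))))), (T.h (T.h (T.h (P (nat_lit 0)) (T.h (P (nat_lit 37495071686497208421731794944))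 (T.h (P (nat_lit 0)) (T.h (M (nat_lit 138571131412666097074175)) (T.h (P (nat_lit 0)) (P (nat_lit 207322856984576000))))))) (T.h (P (nat_lit 0)) (T.h (T.h (P (nat_lit 0)) (T.h (M (nat_lit 426842702168290282700799)) (T.h (P (nat_lit 0)) (P (nat_lit 813225388758859776))))) (T.h (P (nat_lit 0)) (T.h (T.h (P (nat_lit 0)) (P (nat_lit 1052533473347338240))) (P (nat_lit 0))))))) (T.h (T.h (P (nat_lit 0)) (T.h (T.h (M (nat_lit 8530470887322473985998847)) (T.h (P (nat_lit 0)) (M (nat_lit 394182288451529867263)))) (T.h (P (nat_lit 0)) (P (nat_lit 124755095903367331840))))) (T.h (T.h (T.h (P (nat_lit 0)) (T.h (P (nat_lit 16057378342646109437952)) (T.h (P (nat_lit 0)) (M (nat_lit 255022184546467839))))) (T.h (P (nat_lit 0)) (T.h (T.h (P (nat_lit 0)) (P (nat_lit 154969859478683648))) (P (nat_lit 0))))) (T.h (T.h (P (nat_lit 0)) (P (nat_lit 11526735466153902080))) (T.h (T.h (T.h (P (nat_lit 0)) (P (nat_lit 26770372925128704))) (P (nat_lit 0))) (P (nat_lit 0))))))),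 (P (nat_lit 0)), (T.h (T.h (P (nat_lit 0)) (T.h (T.h (M (nat_lit 13616060523248372760361041919)) (T.h (P (nat_lit 0)) (T.h (M (nat_lit 1018639444731261616127)) (T.h (P (nat_lit 0)) (M (nat_lit 3105598149197823)))))) (T.h (P (nat_lit 0)) (T.h (T.h (P (nat_lit 25248286323423985008640)) (T.h (P (nat_lit 0)) (P (nat_lit 21287966337204224)))) (T.h (P (nat_lit 0)) (P (nat_lit 97560360966946816))))))) (T.h (T.h (T.h (P (nat_lit 0)) (T.h (P (nat_lit 988941334891427054747648)) (T.h (P (nat_lit 0)) (T.h (P (nat_lit 4289571691257921536)) (T.h (P (nat_lit 0)) (M (nat_lit 1780149283047))))))) (T.h (P (nat_lit 0)) (T.h (T.h (P (nat_lit 0)) (T.h (P (nat_lit 21892392839739867136)) (T.h (P (nat_lit 0)) (P (nat_lit 6954812085344))))) (T.h (P (nat_lit 0)) (T.h (T.h (P (nat_lit 0)) (P (nat_lit 43087163693056))) (P (nat_lit 0))))))) (T.h (T.h (P (nat_lit 0)) (T.h (T.h (P (nat_lit 267052711276420530176)) (T.h (P (nat_lit 0)) (M (nat_lit 15203226427064319)))) (T.h (P (nat_lit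 0)) (P (nat_lit 29095574034907136))))) (T.h (T.h (T.h (P (nat_lit 0)) (T.h (P (nat_lit 2589773294710292480)) (T.h (P (nat_lit 0)) (M (nat_lit 10560971751551))))) (T.h (P (nat_lit 0)) (T.h (T.h (P (nat_lit 0)) (P (nat_lit 14981556922784))) (P (nat_lit 0))))) (T.h (T.h (P (nat_lit 0)) (M (nat_lit 1271887051128831))) (T.h (T.h (T.h (P (nat_lit 0)) (M (nat_lit 3269161860247))) (P (nat_lit 0))) (P (nat_lit 0)))))))), (T.h (T.h (P (nat_lit 0)) (T.h (T.h (P (nat_lit 0)) (T.h (M (nat_lit 3746786908111961168281599)) (T.h (P (nat_lit 0)) (T.h (P (nat_lit 21421683604952449024)) (T.h (P (nat_lit 0)) (P (nat_lit 7351350546784))))))) (T.h (P (nat_lit 0)) (T.h (T.h (P (nat_lit 0)) (T.h (P (nat_lit 150605351395472179200)) (T.h (P (nat_lit 0)) (M (nat_lit 29896136530671))))) (T.h (P (nat_lit 0)) (T.h (T.h (P (nat_lit 0)) (P (nat_lit 126624751875824))) (P (nat_lit 0)))))))) (T.h (T.h (T.h (P (nat_lit 825243808494547520458850304)) (T.h (P (nat_lit 0)) (T.h (M (nat_lit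 4538456619322401882111)) (T.h (P (nat_lit 0)) (P (nat_lit 1673160524251136)))))) (T.h (P (nat_lit 0)) (T.h (T.h (M (nat_lit 26344594233526511992831)) (T.h (P (nat_lit 0)) (M (nat_lit 9636131581935615)))) (T.h (P (nat_lit 0)) (M (nat_lit 391640158868422655)))))) (T.h (T.h (P (nat_lit 0)) (T.h (T.h (P (nat_lit 0)) (T.h (P (nat_lit 6725667058576523264)) (T.h (P (nat_lit 0)) (M (nat_lit 4256921589567))))) (T.h (P (nat_lit 0)) (T.h (T.h (P (nat_lit 0)) (P (nat_lit 20853968390928))) (P (nat_lit 0)))))) (T.h (T.h (T.h (P (nat_lit 452590592553853648896)) (T.h (P (nat_lit 0)) (M (nat_lit 18297077188886527)))) (T.h (P (nat_lit 0)) (M (nat_lit 39437525538734079)))) (T.h (T.h (P (nat_lit 0)) (T.h (T.h (P (nat_lit 0)) (M (nat_lit 14115448294655))) (P (nat_lit 0)))) (P (nat_lit 2367037161553920))))))), (T.h (T.h (P (nat_lit 0)) (T.h (T.h (P (nat_lit 556240270776678431303139328)) (T.h (P (nat_lit 0)) (T.h (M (nat_lit 22709465110943195201535)) (T.h (P (nat_lit 0))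 (M (nat_lit 81212293442699263)))))) (T.h (P (nat_lit 0)) (T.h (T.h (M (nat_lit 106146170585502539841535)) (T.h (P (nat_lit 0)) (P (nat_lit 97128441095356416)))) (T.h (P (nat_lit 0)) (P (nat_lit 294432181340930048))))))) (T.h (T.h (T.h (P (nat_lit 0)) (T.h (M (nat_lit 33674519128823394065186815)) (T.h (P (nat_lit 0)) (T.h (M (nat_lit 1924344881111629823)) (T.h (P (nat_lit 0)) (M (nat_lit 26922678205119))))))) (T.h (P (nat_lit 0)) (T.h (T.h (P (nat_lit 0)) (T.h (P (nat_lit 56544454345603678208)) (T.h (P (nat_lit 0)) (P (nat_lit 82499058864512))))) (T.h (P (nat_lit 0)) (T.h (T.h (P (nat_lit 0)) (M (nat_lit 46655458843455))) (P (nat_lit 0))))))) (T.h (T.h (P (nat_lit 0)) (T.h (T.h (M (nat_lit 29407020964897829683199)) (T.h (P (nat_lit 0)) (M (nat_lit 23264011617468415)))) (T.h (P (nat_lit 0)) (P (nat_lit 8952162460336128))))) (T.h (T.h (T.h (P (nat_lit 0)) (T.h (P (nat_lit 19058927348914061312)) (T.h (P (nat_lit 0)) (M (nat_lit 52855227214911))))) (T.h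 (P (nat_lit 0)) (T.h (T.h (P (nat_lit 0)) (P (nat_lit 86144119924352))) (P (nat_lit 0))))) (T.h (T.h (P (nat_lit 0)) (M (nat_lit 37480698153926655))) (T.h (T.h (T.h (P (nat_lit 0)) (M (nat_lit 13089198389183))) (P (nat_lit 0))) (P (nat_lit 0))))))))]
def lP12_8 : List (T ℤ) := [(T.h (T.h (P (nat_lit 0)) (T.h (T.h (P (nat_lit 0)) (T.h (M (nat_lit 80905210978061627915501567)) (T.h (P (nat_lit 0)) (T.h (P (nat_lit 104709661005493305344)) (T.h (P (nat_lit 0)) (P (nat_lit 9843633707952))))))) (T.h (P (nat_lit 0)) (T.h (T.h (P (nat_lit 0)) (T.h (P (nat_lit 966498054002410782720)) (T.h (P (nat_lit 0)) (M (nat_lit 40807260833679))))) (T.h (P (nat_lit 0)) (T.h (T.h (P (nat_lit 0)) (M (nat_lit 202010613196303))) (P (nat_lit 0)))))))) (T.h (T.h (T.h (P (nat_lit 15233738752004595955919749120)) (T.h (P (nat_lit 0)) (T.h (M (nat_lit 50588246820526462337023)) (T.h (P (nat_lit 0)) (P (nat_lit 37657315048210432)))))) (T.h (P (nat_lit 0)) (T.h (T.h (M (nat_lit 190912665759102877564927))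 (T.h (P (nat_lit 0)) (M (nat_lit 481125668614946815)))) (T.h (P (nat_lit 0)) (M (nat_lit 59401021968924671)))))) (T.h (T.h (P (nat_lit 0)) (T.h (T.h (P (nat_lit 0)) (T.h (P (nat_lit 180384892735593644032)) (T.h (P (nat_lit 0)) (M (nat_lit 153951304182895))))) (T.h (P (nat_lit 0)) (T.h (T.h (P (nat_lit 0)) (M (nat_lit 160765879742335))) (P (nat_lit 0)))))) (T.h (T.h (T.h (M (nat_lit 21694648982052280467455)) (T.h (P (nat_lit 0)) (P (nat_lit 153507077665947648)))) (T.h (P (nat_lit 0)) (P (nat_lit 117065434944339968)))) (T.h (T.h (P (nat_lit 0)) (T.h (T.h (P (nat_lit 0)) (M (nat_lit 46938132056991))) (P (nat_lit 0)))) (M (nat_lit 8026129388699647))))))), (T.h (T.h (P (nat_lit 0)) (T.h (T.h (P (nat_lit 23189883887025830961654792192)) (T.h (P (nat_lit 0)) (T.h (M (nat_lit 33956056854755006218239)) (T.h (P (nat_lit 0)) (M (nat_lit 93919563231952895)))))) (T.h (P (nat_lit 0)) (T.h (T.h (M (nat_lit 243099935357513639133183)) (T.h (P (nat_lit 0)) (P (nat_lit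 1175977343068569600)))) (T.h (P (nat_lit 0)) (P (nat_lit 595563394477948928))))))) (T.h (T.h (T.h (P (nat_lit 0)) (T.h (P (nat_lit 104213714518363397557321728)) (T.h (P (nat_lit 0)) (M (nat_lit 18889754215679262719))))) (T.h (P (nat_lit 0)) (T.h (T.h (P (nat_lit 0)) (P (nat_lit 571332830943741214720))) (P (nat_lit 0))))) (T.h (T.h (P (nat_lit 0)) (T.h (T.h (M (nat_lit 87515735663265416478719)) (T.h (P (nat_lit 0)) (P (nat_lit 533260947869499392)))) (T.h (P (nat_lit 0)) (P (nat_lit 262202542911520768))))) (T.h (T.h (T.h (P (nat_lit 0)) (M (nat_lit 99944006815716474879))) (P (nat_lit 0))) (T.h (T.h (P (nat_lit 0)) (M (nat_lit 8342794656481279))) (P (nat_lit 0))))))), (P (nat_lit 0)), (T.h (T.h (T.h (P (nat_lit 8381838962715691754272839434240)) (T.h (P (nat_lit 0)) (T.h (P (nat_lit 94354545371969910472704)) (T.h (P (nat_lit 0)) (T.h (M (nat_lit 1002665088554893311)) (T.h (P (nat_lit 0)) (M (nat_lit 165424305583)))))))) (T.h (P (nat_lit 0)) (T.h (T.h (M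 (nat_lit 24966769086201063159103487)) (T.h (P (nat_lit 0)) (T.h (P (nat_lit 8545227737994887168)) (T.h (P (nat_lit 0)) (M (nat_lit 15443532767759)))))) (T.h (P (nat_lit 0)) (T.h (T.h (M (nat_lit 91567307508984840191)) (T.h (P (nat_lit 0)) (P (nat_lit 28106565702272)))) (T.h (P (nat_lit 0)) (M (nat_lit 9234645211199)))))))) (T.h (T.h (P (nat_lit 0)) (T.h (T.h (P (nat_lit 0)) (T.h (P (nat_lit 5306139762653476683776)) (T.h (P (nat_lit 0)) (M (nat_lit 21171082134913023))))) (T.h (P (nat_lit 0)) (T.h (T.h (P (nat_lit 0)) (M (nat_lit 8154054174244863))) (P (nat_lit 0)))))) (T.h (T.h (T.h (P (nat_lit 94354545371969910472704)) (T.h (P (nat_lit 0)) (T.h (P (nat_lit 8284172608572751872)) (T.h (P (nat_lit 0)) (M (nat_lit 4239509951935)))))) (T.h (P (nat_lit 0)) (T.h (T.h (P (nat_lit 8545227737994887168)) (T.h (P (nat_lit 0)) (P (nat_lit 35413500645568)))) (T.h (P (nat_lit 0)) (P (nat_lit 28106565702272)))))) (T.h (T.h (P (nat_lit 0)) (T.h (T.h (P (nat_lit 0))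 (M (nat_lit 21171082134913023))) (P (nat_lit 0)))) (T.h (T.h (T.h (M (nat_lit 1002665088554893311)) (T.h (P (nat_lit 0)) (M (nat_lit 4239509951935)))) (T.h (P (nat_lit 0)) (M (nat_lit 15443532767759)))) (T.h (P (nat_lit 0)) (M (nat_lit 165424305583)))))))), (T.h (T.h (T.h (P (nat_lit 0)) (T.h (M (nat_lit 11148306687387311073933656063)) (T.h (P (nat_lit 0)) (T.h (P (nat_lit 9990154410232597446656)) (T.h (P (nat_lit 0)) (P (nat_lit 15339279740928000))))))) (T.h (P (nat_lit 0)) (T.h (T.h (P (nat_lit 0)) (T.h (M (nat_lit 42457184328535899111423)) (T.h (P (nat_lit 0)) (P (nat_lit 177198910576820224))))) (T.h (P (nat_lit 0)) (T.h (T.h (P (nat_lit 0)) (P (nat_lit 107454521002655744))) (P (nat_lit 0))))))) (T.h (T.h (P (nat_lit 0)) (T.h (T.h (P (nat_lit 6837049029011826800590848)) (T.h (P (nat_lit 0)) (T.h (P (nat_lit 59282405974557589504)) (T.h (P (nat_lit 0)) (P (nat_lit 30400262961600)))))) (T.h (P (nat_lit 0)) (T.h (T.h (P (nat_lit 198712546212878221312))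 (T.h (P (nat_lit 0)) (M (nat_lit 50830335485887)))) (T.h (P (nat_lit 0)) (M (nat_lit 519960225386687))))))) (T.h (T.h (T.h (P (nat_lit 0)) (T.h (M (nat_lit 10168343157988999036927)) (T.h (P (nat_lit 0)) (P (nat_lit 15342922548215808))))) (T.h (P (nat_lit 0)) (T.h (T.h (P (nat_lit 0)) (P (nat_lit 138485348847714304))) (P (nat_lit 0))))) (T.h (T.h (P (nat_lit 0)) (T.h (T.h (P (nat_lit 1303559475084394496)) (T.h (P (nat_lit 0)) (M (nat_lit 8555555049535)))) (T.h (P (nat_lit 0)) (P (nat_lit 62827191098304))))) (T.h (T.h (T.h (P (nat_lit 0)) (P (nat_lit 11197351691255808))) (P (nat_lit 0))) (T.h (T.h (P (nat_lit 0)) (P (nat_lit 5360624420992))) (P (nat_lit 0)))))))), (T.h (T.h (T.h (P (nat_lit 1125191178323626060599525376000)) (T.h (P (nat_lit 0)) (T.h (P (nat_lit 12526376508625760402014208)) (T.h (P (nat_lit 0)) (T.h (M (nat_lit 9306149800544043007)) (T.h (P (nat_lit 0)) (P (nat_lit 1586148909312)))))))) (T.h (P (nat_lit 0)) (T.h (T.h (M (nat_lit 46278492287481778855215103))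 (T.h (P (nat_lit 0)) (T.h (M (nat_lit 267369536469543682047)) (T.h (P (nat_lit 0)) (P (nat_lit 129681242717312)))))) (T.h (P (nat_lit 0)) (T.h (T.h (M (nat_lit 156129275264035192831)) (T.h (P (nat_lit 0)) (P (nat_lit 78162321228816)))) (T.h (P (nat_lit 0)) (P (nat_lit 130481994932784)))))))) (T.h (T.h (P (nat_lit 0)) (T.h (T.h (P (nat_lit 0)) (T.h (M (nat_lit 56440631814495246745599)) (T.h (P (nat_lit 0)) (M (nat_lit 11779929606979583))))) (T.h (P (nat_lit 0)) (T.h (T.h (P (nat_lit 0)) (P (nat_lit 297687919684386816))) (P (nat_lit 0)))))) (T.h (T.h (T.h (P (nat_lit 5767003101391923837927424)) (T.h (P (nat_lit 0)) (T.h (P (nat_lit 1877110365234397184)) (T.h (P (nat_lit 0)) (M (nat_lit 52667779269951)))))) (T.h (P (nat_lit 0)) (T.h (T.h (M (nat_lit 217516683191390306303)) (T.h (P (nat_lit 0)) (P (nat_lit 109922351265936)))) (T.h (P (nat_lit 0)) (P (nat_lit 33231154151888)))))) (T.h (T.h (P (nat_lit 0)) (T.h (T.h (P (nat_lit 0)) (M (nat_lit 115810020998676479)))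 (P (nat_lit 0)))) (T.h (T.h (T.h (P (nat_lit 2169328327335084032)) (T.h (P (nat_lit 0)) (M (nat_lit 49126568938831)))) (T.h (P (nat_lit 0)) (M (nat_lit 17832029004943)))) (T.h (P (nat_lit 0)) (P (nat_lit 3821769693456)))))))), (T.h (T.h (T.h (P (nat_lit 0)) (T.h (P (nat_lit 9479945226855203678944493568)) (T.h (P (nat_lit 0)) (T.h (M (nat_lit 8055960460481364230143)) (T.h (P (nat_lit 0)) (M (nat_lit 3604578148319231))))))) (T.h (P (nat_lit 0)) (T.h (T.h (P (nat_lit 0)) (T.h (M (nat_lit 252405377024740638588927)) (T.h (P (nat_lit 0)) (M (nat_lit 73784448161644543))))) (T.h (P (nat_lit 0)) (T.h (T.h (P (nat_lit 0)) (P (nat_lit 158948710125174784))) (P (nat_lit 0))))))) (T.h (T.h (P (nat_lit 0)) (T.h (T.h (P (nat_lit 68480659706341009634885632)) (T.h (P (nat_lit 0)) (P (nat_lit 28561419631895511040)))) (T.h (P (nat_lit 0)) (M (nat_lit 76622548805082939391))))) (T.h (T.h (T.h (P (nat_lit 0)) (T.h (M (nat_lit 15229871120192928481279)) (T.h (P (nat_lit 0))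 (P (nat_lit 67886065340547072))))) (T.h (P (nat_lit 0)) (T.h (T.h (P (nat_lit 0)) (P (nat_lit 48863964941058048))) (P (nat_lit 0))))) (T.h (T.h (P (nat_lit 0)) (P (nat_lit 11930534835996590080))) (T.h (T.h (T.h (P (nat_lit 0)) (P (nat_lit 27031974620561408))) (P (nat_lit 0))) (P (nat_lit 0))))))), (P (nat_lit 0))]
def lP12_9 : List (T ℤ) := [(T.h (T.h (P (nat_lit 0)) (T.h (T.h (P (nat_lit 19513362596848012897021853696)) (T.h (P (nat_lit 0)) (T.h (P (nat_lit 4107924079950048526336)) (T.h (P (nat_lit 0)) (M (nat_lit 1307171908157439)))))) (T.h (P (nat_lit 0)) (T.h (T.h (M (nat_lit 63987633135800041865215)) (T.h (P (nat_lit 0)) (M (nat_lit 85837983571574783)))) (T.h (P (nat_lit 0)) (M (nat_lit 81349603584901119))))))) (T.h (T.h (T.h (P (nat_lit 0)) (T.h (M (nat_lit 1375602425031345005658111)) (T.h (P (nat_lit 0)) (T.h (M (nat_lit 8805342538014654463)) (T.h (P (nat_lit 0)) (P (nat_lit 2524655571648))))))) (T.h (P (nat_lit 0)) (T.h (T.h (P (nat_lit 0)) (T.h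 (M (nat_lit 65383704587684282367)) (T.h (P (nat_lit 0)) (M (nat_lit 10968184504063))))) (T.h (P (nat_lit 0)) (T.h (T.h (P (nat_lit 0)) (M (nat_lit 43087163693055))) (P (nat_lit 0))))))) (T.h (T.h (P (nat_lit 0)) (T.h (T.h (P (nat_lit 7063357461541198757888)) (T.h (P (nat_lit 0)) (M (nat_lit 5518730472980479)))) (T.h (P (nat_lit 0)) (M (nat_lit 48131822609170431))))) (T.h (T.h (T.h (P (nat_lit 0)) (T.h (P (nat_lit 2413284188405891072)) (T.h (P (nat_lit 0)) (P (nat_lit 10560971751552))))) (T.h (P (nat_lit 0)) (T.h (T.h (P (nat_lit 0)) (M (nat_lit 10968184504063))) (P (nat_lit 0))))) (T.h (T.h (P (nat_lit 0)) (P (nat_lit 14876198407176192))) (T.h (T.h (T.h (P (nat_lit 0)) (P (nat_lit 2524655571648))) (P (nat_lit 0))) (P (nat_lit 0)))))))), (T.h (T.h (P (nat_lit 0)) (T.h (T.h (P (nat_lit 0)) (T.h (P (nat_lit 20370376071632726442115072)) (T.h (P (nat_lit 0)) (T.h (M (nat_lit 14468998367255986175)) (T.h (P (nat_lit 0)) (M (nat_lit 6662556455103))))))) (T.h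 (P (nat_lit 0)) (T.h (T.h (P (nat_lit 0)) (T.h (M (nat_lit 74258750209269956607)) (T.h (P (nat_lit 0)) (P (nat_lit 847315013424))))) (T.h (P (nat_lit 0)) (T.h (T.h (P (nat_lit 0)) (M (nat_lit 430642633814447))) (P (nat_lit 0)))))))) (T.h (T.h (T.h (P (nat_lit 994755837398416160144228352)) (T.h (P (nat_lit 0)) (T.h (P (nat_lit 385848081155304194048)) (T.h (P (nat_lit 0)) (M (nat_lit 26168110165688319)))))) (T.h (P (nat_lit 0)) (T.h (T.h (P (nat_lit 62873011426048620888064)) (T.h (P (nat_lit 0)) (P (nat_lit 102840527015788544)))) (T.h (P (nat_lit 0)) (P (nat_lit 866541895063420928)))))) (T.h (T.h (P (nat_lit 0)) (T.h (T.h (P (nat_lit 0)) (T.h (M (nat_lit 52736164427403886591)) (T.h (P (nat_lit 0)) (P (nat_lit 238877194160))))) (T.h (P (nat_lit 0)) (T.h (T.h (P (nat_lit 0)) (M (nat_lit 64739948756207))) (P (nat_lit 0)))))) (T.h (T.h (T.h (P (nat_lit 1627259457768127463424)) (T.h (P (nat_lit 0)) (P (nat_lit 1901487044935680)))) (T.h (P (nat_lit 0)) (P (nat_lit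 40138936817926144)))) (T.h (T.h (P (nat_lit 0)) (T.h (T.h (P (nat_lit 0)) (P (nat_lit 37730281781984))) (P (nat_lit 0)))) (M (nat_lit 1438415993520127))))))), (T.h (T.h (P (nat_lit 0)) (T.h (T.h (P (nat_lit 3166846873336167602856132608)) (T.h (P (nat_lit 0)) (T.h (P (nat_lit 54548994911447583555584)) (T.h (P (nat_lit 0)) (M (nat_lit 42086344733622271)))))) (T.h (P (nat_lit 0)) (T.h (T.h (M (nat_lit 14344602706940511911935)) (T.h (P (nat_lit 0)) (M (nat_lit 58682876268085247)))) (T.h (P (nat_lit 0)) (M (nat_lit 65582421789278207))))))) (T.h (T.h (T.h (P (nat_lit 0)) (T.h (P (nat_lit 9767776142240778154934272)) (T.h (P (nat_lit 0)) (M (nat_lit 181177798486917119))))) (T.h (P (nat_lit 0)) (T.h (T.h (P (nat_lit 0)) (M (nat_lit 145672624222347722751))) (P (nat_lit 0))))) (T.h (T.h (P (nat_lit 0)) (T.h (T.h (P (nat_lit 35266817870928178839552)) (T.h (P (nat_lit 0)) (M (nat_lit 41064510206017535)))) (T.h (P (nat_lit 0)) (M (nat_lit 12694745432686591))))) (T.h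 (T.h (T.h (P (nat_lit 0)) (P (nat_lit 11252920928419446784))) (P (nat_lit 0))) (T.h (T.h (P (nat_lit 0)) (M (nat_lit 384693298659327))) (P (nat_lit 0))))))), (P (nat_lit 0)), (T.h (T.h (T.h (M (nat_lit 3022801708362945769365684879359)) (T.h (P (nat_lit 0)) (T.h (M (nat_lit 866842690526014188027903)) (T.h (P (nat_lit 0)) (T.h (M (nat_lit 2198064352563560447)) (T.h (P (nat_lit 0)) (P (nat_lit 742147470768)))))))) (T.h (P (nat_lit 0)) (T.h (T.h (P (nat_lit 35228165051076154056769536)) (T.h (P (nat_lit 0)) (T.h (P (nat_lit 33338568917978710016)) (T.h (P (nat_lit 0)) (P (nat_lit 12342157505568)))))) (T.h (P (nat_lit 0)) (T.h (T.h (P (nat_lit 72859096151933059072)) (T.h (P (nat_lit 0)) (M (nat_lit 56118708733823)))) (T.h (P (nat_lit 0)) (P (nat_lit 14511582942912)))))))) (T.h (T.h (P (nat_lit 0)) (T.h (T.h (P (nat_lit 0)) (T.h (P (nat_lit 9132112169328112041984)) (T.h (P (nat_lit 0)) (P (nat_lit 6924341569585152))))) (T.h (P (nat_lit 0)) (T.h (T.h (P (nat_lit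 0)) (M (nat_lit 33744048614539263))) (P (nat_lit 0)))))) (T.h (T.h (T.h (M (nat_lit 866842690526014188027903)) (T.h (P (nat_lit 0)) (T.h (M (nat_lit 80235081309880319)) (T.h (P (nat_lit 0)) (P (nat_lit 7551023902224)))))) (T.h (P (nat_lit 0)) (T.h (T.h (P (nat_lit 33338568917978710016)) (T.h (P (nat_lit 0)) (M (nat_lit 55649786596799)))) (T.h (P (nat_lit 0)) (M (nat_lit 56118708733823)))))) (T.h (T.h (P (nat_lit 0)) (T.h (T.h (P (nat_lit 0)) (P (nat_lit 6924341569585152))) (P (nat_lit 0)))) (T.h (T.h (T.h (M (nat_lit 2198064352563560447)) (T.h (P (nat_lit 0)) (P (nat_lit 7551023902224)))) (T.h (P (nat_lit 0)) (P (nat_lit 12342157505568)))) (T.h (P (nat_lit 0)) (P (nat_lit 742147470768)))))))), (T.h (T.h (T.h (P (nat_lit 0)) (T.h (M (nat_lit 3849283284899336926831575039)) (T.h (P (nat_lit 0)) (T.h (M (nat_lit 2169209033493156200447)) (T.h (P (nat_lit 0)) (P (nat_lit 411400681750528))))))) (T.h (P (nat_lit 0)) (T.h (T.h (P (nat_lit 0)) (T.h (M (nat_lit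 7915433807328952975359)) (T.h (P (nat_lit 0)) (M (nat_lit 9664805248008191))))) (T.h (P (nat_lit 0)) (T.h (T.h (P (nat_lit 0)) (P (nat_lit 421785709203062784))) (P (nat_lit 0))))))) (T.h (T.h (P (nat_lit 0)) (T.h (T.h (M (nat_lit 8685767576524368306503679)) (T.h (P (nat_lit 0)) (M (nat_lit 21352153951422644223)))) (T.h (P (nat_lit 0)) (M (nat_lit 126973145165437337599))))) (T.h (T.h (T.h (P (nat_lit 0)) (T.h (M (nat_lit 318127756473987497983)) (T.h (P (nat_lit 0)) (M (nat_lit 5667928027332607))))) (T.h (P (nat_lit 0)) (T.h (T.h (P (nat_lit 0)) (P (nat_lit 56882161005330432))) (P (nat_lit 0))))) (T.h (T.h (P (nat_lit 0)) (M (nat_lit 32111403715541336063))) (T.h (T.h (T.h (P (nat_lit 0)) (M (nat_lit 9836419181182975))) (P (nat_lit 0))) (P (nat_lit 0))))))), (P (nat_lit 0)), (T.h (T.h (P (nat_lit 0)) (T.h (T.h (M (nat_lit 5897302073599640136660811775)) (T.h (P (nat_lit 0)) (T.h (M (nat_lit 5209847404018203099135)) (T.h (P (nat_lit 0)) (M (nat_lit 4595770649346047))))))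 (T.h (P (nat_lit 0)) (T.h (T.h (P (nat_lit 38739346812376056856576)) (T.h (P (nat_lit 0)) (P (nat_lit 41793132904316928)))) (T.h (P (nat_lit 0)) (M (nat_lit 16210757382045695))))))) (T.h (T.h (T.h (P (nat_lit 0)) (T.h (P (nat_lit 386661090139917950910464)) (T.h (P (nat_lit 0)) (M (nat_lit 243643318179725311))))) (T.h (P (nat_lit 0)) (T.h (T.h (P (nat_lit 0)) (P (nat_lit 43491311747944415232))) (P (nat_lit 0))))) (T.h (T.h (P (nat_lit 0)) (T.h (T.h (M (nat_lit 5209847404018203099135)) (T.h (P (nat_lit 0)) (P (nat_lit 20721956900044800)))) (T.h (P (nat_lit 0)) (P (nat_lit 41793132904316928))))) (T.h (T.h (T.h (P (nat_lit 0)) (M (nat_lit 243643318179725311))) (P (nat_lit 0))) (T.h (T.h (P (nat_lit 0)) (M (nat_lit 4595770649346047))) (P (nat_lit 0)))))))]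
def lP12_10 : List (T ℤ) := [(P (nat_lit 0)), (P (nat_lit 0)), (P (nat_lit 0)), (T.h (T.h (T.h (P (nat_lit 648510499834292230905124618240)) (T.h (P (nat_lit 0)) (T.h (P (nat_lit 9397805998054045143531520)) (T.h (P (nat_lit 0)) (T.h (P (nat_lit 18967275497743974400)) (T.h (P (nat_lit 0)) (P (nat_lit 35493879275440)))))))) (T.h (P (nat_lit 0)) (T.h (T.h (M (nat_lit 267778688070692003381247)) (T.h (P (nat_lit 0)) (T.h (P (nat_lit 7819433302292430848)) (T.h (P (nat_lit 0)) (P (nat_lit 16812754214848)))))) (T.h (P (nat_lit 0)) (T.h (T.h (M (nat_lit 2121261778112348159)) (T.h (P (nat_lit 0)) (M (nat_lit 524447126519)))) (T.h (P (nat_lit 0)) (P (nat_lit 820828886128)))))))) (T.h (T.h (P (nat_lit 0)) (T.h (T.h (P (nat_lit 0)) (T.h (P (nat_lit 3710911782576434708480)) (T.h (P (nat_lit 0)) (M (nat_lit 29454675766411263))))) (T.h (P (nat_lit 0)) (T.h (T.h (P (nat_lit 0)) (M (nat_lit 4069514409377791))) (P (nat_lit 0)))))) (T.h (T.h (T.h (M (nat_lit 267778688070692003381247))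 (T.h (P (nat_lit 0)) (T.h (P (nat_lit 7819433302292430848)) (T.h (P (nat_lit 0)) (P (nat_lit 16812754214848)))))) (T.h (P (nat_lit 0)) (T.h (T.h (P (nat_lit 1042001163668422656)) (T.h (P (nat_lit 0)) (P (nat_lit 4265017863600)))) (T.h (P (nat_lit 0)) (P (nat_lit 2428410595568)))))) (T.h (T.h (P (nat_lit 0)) (T.h (T.h (P (nat_lit 0)) (M (nat_lit 4069514409377791))) (P (nat_lit 0)))) (T.h (T.h (T.h (M (nat_lit 2121261778112348159)) (T.h (P (nat_lit 0)) (M (nat_lit 524447126519)))) (T.h (P (nat_lit 0)) (P (nat_lit 2428410595568)))) (T.h (P (nat_lit 0)) (P (nat_lit 820828886128)))))))), (P (nat_lit 0)), (T.h (T.h (T.h (P (nat_lit 299487344408859537278607818752)) (T.h (P (nat_lit 0)) (T.h (P (nat_lit 911040014092211238993920)) (T.h (P (nat_lit 0)) (M (nat_lit 37474069336190615551)))))) (T.h (P (nat_lit 0)) (T.h (T.h (M (nat_lit 496693414538202608304127)) (T.h (P (nat_lit 0)) (P (nat_lit 33993245327292891136)))) (T.h (P (nat_lit 0)) (M (nat_lit 961920014925955071))))))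 (T.h (T.h (P (nat_lit 0)) (T.h (T.h (P (nat_lit 0)) (T.h (P (nat_lit 10032721488330503487488)) (T.h (P (nat_lit 0)) (M (nat_lit 11587873473560575))))) (T.h (P (nat_lit 0)) (T.h (T.h (P (nat_lit 0)) (M (nat_lit 4188279631642623))) (P (nat_lit 0)))))) (T.h (T.h (T.h (M (nat_lit 496693414538202608304127)) (T.h (P (nat_lit 0)) (P (nat_lit 33993245327292891136)))) (T.h (P (nat_lit 0)) (P (nat_lit 7541057376548290560)))) (T.h (T.h (P (nat_lit 0)) (T.h (T.h (P (nat_lit 0)) (M (nat_lit 4188279631642623))) (P (nat_lit 0)))) (M (nat_lit 961920014925955071)))))), (P (nat_lit 0)), (P (nat_lit 0))]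
def lP12_11 : List (T ℤ) := [(P (nat_lit 0)), (P (nat_lit 0)), (T.h (T.h (P (nat_lit 0)) (T.h (T.h (P (nat_lit 0)) (T.h (P (nat_lit 19332935593951336454946816)) (T.h (P (nat_lit 0)) (T.h (P (nat_lit 46551256201590472704)) (T.h (P (nat_lit 0)) (P (nat_lit 702978022987296))))))) (T.h (P (nat_lit 0)) (T.h (T.h (P (nat_lit 0)) (T.h (P (nat_lit 23112981758911447040)) (T.h (P (nat_lit 0)) (M (nat_lit 103217584718367))))) (T.h (P (nat_lit 0)) (T.h (T.h (P (nat_lit 0)) (P (nat_lit 741396664928))) (P (nat_lit 0)))))))) (T.h (T.h (T.h (P (nat_lit 13071161762673440767275433984)) (T.h (P (nat_lit 0)) (T.h (M (nat_lit 19006160098902656679935)) (T.h (P (nat_lit 0)) (M (nat_lit 174802119803011071)))))) (T.h (P (nat_lit 0)) (T.h (T.h (P (nat_lit 9775986957007970107392)) (T.h (P (nat_lit 0)) (M (nat_lit 59140324211294207)))) (T.h (P (nat_lit 0)) (P (nat_lit 1704117821964288)))))) (T.h (T.h (P (nat_lit 0)) (T.h (T.h (P (nat_lit 0)) (T.h (M (nat_lit 25402305556716191743))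 (T.h (P (nat_lit 0)) (P (nat_lit 46787817477600))))) (T.h (P (nat_lit 0)) (T.h (T.h (P (nat_lit 0)) (P (nat_lit 23961825516480))) (P (nat_lit 0)))))) (T.h (T.h (T.h (M (nat_lit 3862433004999571144703)) (T.h (P (nat_lit 0)) (M (nat_lit 56539456355434495)))) (T.h (P (nat_lit 0)) (M (nat_lit 3781501453205503)))) (T.h (T.h (P (nat_lit 0)) (T.h (T.h (P (nat_lit 0)) (M (nat_lit 32677065777823))) (P (nat_lit 0)))) (M (nat_lit 11824119324475391))))))), (T.h (T.h (P (nat_lit 0)) (T.h (T.h (P (nat_lit 825243808494547520458850304)) (T.h (P (nat_lit 0)) (T.h (M (nat_lit 26344594233526511992831)) (T.h (P (nat_lit 0)) (M (nat_lit 391640158868422655)))))) (T.h (P (nat_lit 0)) (T.h (T.h (P (nat_lit 452590592553853648896)) (T.h (P (nat_lit 0)) (M (nat_lit 39437525538734079)))) (T.h (P (nat_lit 0)) (P (nat_lit 2367037161553920))))))) (T.h (T.h (T.h (P (nat_lit 0)) (T.h (M (nat_lit 3746786908111961168281599)) (T.h (P (nat_lit 0)) (T.h (P (nat_lit 150605351395472179200))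 (T.h (P (nat_lit 0)) (P (nat_lit 126624751875824))))))) (T.h (P (nat_lit 0)) (T.h (T.h (P (nat_lit 0)) (T.h (P (nat_lit 6725667058576523264)) (T.h (P (nat_lit 0)) (P (nat_lit 20853968390928))))) (T.h (P (nat_lit 0)) (T.h (T.h (P (nat_lit 0)) (M (nat_lit 14115448294655))) (P (nat_lit 0))))))) (T.h (T.h (P (nat_lit 0)) (T.h (T.h (M (nat_lit 4538456619322401882111)) (T.h (P (nat_lit 0)) (M (nat_lit 9636131581935615)))) (T.h (P (nat_lit 0)) (M (nat_lit 18297077188886527))))) (T.h (T.h (T.h (P (nat_lit 0)) (T.h (P (nat_lit 21421683604952449024)) (T.h (P (nat_lit 0)) (M (nat_lit 29896136530671))))) (T.h (P (nat_lit 0)) (T.h (T.h (P (nat_lit 0)) (M (nat_lit 4256921589567))) (P (nat_lit 0))))) (T.h (T.h (P (nat_lit 0)) (P (nat_lit 1673160524251136))) (T.h (T.h (T.h (P (nat_lit 0)) (P (nat_lit 7351350546784))) (P (nat_lit 0))) (P (nat_lit 0)))))))), (T.h (T.h (P (nat_lit 0)) (T.h (T.h (P (nat_lit 0)) (T.h (P (nat_lit 8788571713592715865227264)) (T.h (P (nat_lit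 0)) (T.h (P (nat_lit 115210426436351426560)) (T.h (P (nat_lit 0)) (M (nat_lit 519960225386687))))))) (T.h (P (nat_lit 0)) (T.h (T.h (P (nat_lit 0)) (T.h (P (nat_lit 32178743285991342080)) (T.h (P (nat_lit 0)) (P (nat_lit 62827191098304))))) (T.h (P (nat_lit 0)) (T.h (T.h (P (nat_lit 0)) (P (nat_lit 5360624420992))) (P (nat_lit 0)))))))) (T.h (T.h (T.h (M (nat_lit 5663016986882203131215609855)) (T.h (P (nat_lit 0)) (T.h (P (nat_lit 100301875757134123106304)) (T.h (P (nat_lit 0)) (M (nat_lit 513761173719777279)))))) (T.h (P (nat_lit 0)) (T.h (T.h (M (nat_lit 5355392879700423475199)) (T.h (P (nat_lit 0)) (M (nat_lit 73527978861330431)))) (T.h (P (nat_lit 0)) (M (nat_lit 24144562736136191)))))) (T.h (T.h (P (nat_lit 0)) (T.h (T.h (P (nat_lit 0)) (T.h (M (nat_lit 54383589208778342399)) (T.h (P (nat_lit 0)) (M (nat_lit 50830335485887))))) (T.h (P (nat_lit 0)) (T.h (T.h (P (nat_lit 0)) (M (nat_lit 8555555049535))) (P (nat_lit 0)))))) (T.h (T.h (T.h (M (nat_lit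 263220801103435137023)) (T.h (P (nat_lit 0)) (M (nat_lit 93226215672709119)))) (T.h (P (nat_lit 0)) (M (nat_lit 7495516092727295)))) (T.h (T.h (P (nat_lit 0)) (T.h (T.h (P (nat_lit 0)) (P (nat_lit 30400262961600))) (P (nat_lit 0)))) (P (nat_lit 14923526352732160))))))), (T.h (T.h (P (nat_lit 0)) (T.h (T.h (P (nat_lit 994755837398416160144228352)) (T.h (P (nat_lit 0)) (T.h (P (nat_lit 62873011426048620888064)) (T.h (P (nat_lit 0)) (P (nat_lit 866541895063420928)))))) (T.h (P (nat_lit 0)) (T.h (T.h (P (nat_lit 1627259457768127463424)) (T.h (P (nat_lit 0)) (P (nat_lit 40138936817926144)))) (T.h (P (nat_lit 0)) (M (nat_lit 1438415993520127))))))) (T.h (T.h (T.h (P (nat_lit 0)) (T.h (P (nat_lit 20370376071632726442115072)) (T.h (P (nat_lit 0)) (T.h (M (nat_lit 74258750209269956607)) (T.h (P (nat_lit 0)) (M (nat_lit 430642633814447))))))) (T.h (P (nat_lit 0)) (T.h (T.h (P (nat_lit 0)) (T.h (M (nat_lit 52736164427403886591)) (T.h (P (nat_lit 0)) (M (nat_lit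 64739948756207))))) (T.h (P (nat_lit 0)) (T.h (T.h (P (nat_lit 0)) (P (nat_lit 37730281781984))) (P (nat_lit 0))))))) (T.h (T.h (P (nat_lit 0)) (T.h (T.h (P (nat_lit 385848081155304194048)) (T.h (P (nat_lit 0)) (P (nat_lit 102840527015788544)))) (T.h (P (nat_lit 0)) (P (nat_lit 1901487044935680))))) (T.h (T.h (T.h (P (nat_lit 0)) (T.h (M (nat_lit 14468998367255986175)) (T.h (P (nat_lit 0)) (P (nat_lit 847315013424))))) (T.h (P (nat_lit 0)) (T.h (T.h (P (nat_lit 0)) (P (nat_lit 238877194160))) (P (nat_lit 0))))) (T.h (T.h (P (nat_lit 0)) (M (nat_lit 26168110165688319))) (T.h (T.h (T.h (P (nat_lit 0)) (M (nat_lit 6662556455103))) (P (nat_lit 0))) (P (nat_lit 0)))))))), (T.h (T.h (P (nat_lit 0)) (T.h (T.h (P (nat_lit 0)) (T.h (M (nat_lit 8685767576524368306503679)) (T.h (P (nat_lit 0)) (M (nat_lit 126973145165437337599))))) (T.h (P (nat_lit 0)) (T.h (T.h (P (nat_lit 0)) (M (nat_lit 32111403715541336063))) (P (nat_lit 0)))))) (T.h (T.h (T.h (M (nat_lit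 3849283284899336926831575039)) (T.h (P (nat_lit 0)) (T.h (M (nat_lit 7915433807328952975359)) (T.h (P (nat_lit 0)) (P (nat_lit 421785709203062784)))))) (T.h (P (nat_lit 0)) (T.h (T.h (M (nat_lit 318127756473987497983)) (T.h (P (nat_lit 0)) (P (nat_lit 56882161005330432)))) (T.h (P (nat_lit 0)) (M (nat_lit 9836419181182975)))))) (T.h (T.h (P (nat_lit 0)) (T.h (T.h (P (nat_lit 0)) (M (nat_lit 21352153951422644223))) (P (nat_lit 0)))) (T.h (T.h (T.h (M (nat_lit 2169209033493156200447)) (T.h (P (nat_lit 0)) (M (nat_lit 9664805248008191)))) (T.h (P (nat_lit 0)) (M (nat_lit 5667928027332607)))) (T.h (P (nat_lit 0)) (P (nat_lit 411400681750528))))))), (P (nat_lit 0))]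
def lP12_12 : List (T ℤ) := [(P (nat_lit 0)), (T.h (T.h (T.h (M (nat_lit 2870178261519398365160745730047)) (T.h (P (nat_lit 0)) (T.h (P (nat_lit 39823403180570446393245696)) (T.h (P (nat_lit 0)) (T.h (M (nat_lit 41837662615675863039)) (T.h (P (nat_lit 0)) (P (nat_lit 158144109699800)))))))) (T.h (P (nat_lit 0)) (T.h (T.h (P (nat_lit 12827972311967211741773824)) (T.h (P (nat_lit 0)) (T.h (P (nat_lit 55258322677964734464)) (T.h (P (nat_lit 0)) (M (nat_lit 634734711294303)))))) (T.h (P (nat_lit 0)) (T.h (T.h (M (nat_lit 36610506741262581759)) (T.h (P (nat_lit 0)) (M (nat_lit 274317118028591)))) (T.h (P (nat_lit 0)) (P (nat_lit 49832962037720)))))))) (T.h (T.h (P (nat_lit 0)) (T.h (T.h (P (nat_lit 0)) (T.h (M (nat_lit 7441691804588211961855)) (T.h (P (nat_lit 0)) (M (nat_lit 307382905454624767))))) (T.h (P (nat_lit 0)) (T.h (T.h (P (nat_lit 0)) (M (nat_lit 5659497310552063))) (P (nat_lit 0)))))) (T.h (T.h (T.h (P (nat_lit 12717309569189488134979584)) (T.h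 (P (nat_lit 0)) (T.h (P (nat_lit 31429119439722774528)) (T.h (P (nat_lit 0)) (P (nat_lit 216488920951800)))))) (T.h (P (nat_lit 0)) (T.h (T.h (M (nat_lit 3421062432305446911)) (T.h (P (nat_lit 0)) (P (nat_lit 157488636938720)))) (T.h (P (nat_lit 0)) (P (nat_lit 45128390243032)))))) (T.h (T.h (P (nat_lit 0)) (T.h (T.h (P (nat_lit 0)) (M (nat_lit 18117884869345279))) (P (nat_lit 0)))) (T.h (T.h (T.h (P (nat_lit 599172818671763456)) (T.h (P (nat_lit 0)) (P (nat_lit 113635423127592)))) (T.h (P (nat_lit 0)) (P (nat_lit 22542976340984)))) (T.h (P (nat_lit 0)) (P (nat_lit 11452596589048)))))))), (T.h (T.h (T.h (P (nat_lit 0)) (T.h (M (nat_lit 10568642270593862374394953727)) (T.h (P (nat_lit 0)) (T.h (P (nat_lit 140262297202309164171264)) (T.h (P (nat_lit 0)) (M (nat_lit 263332630997860351))))))) (T.h (P (nat_lit 0)) (T.h (T.h (P (nat_lit 0)) (T.h (P (nat_lit 8179832511665811750912)) (T.h (P (nat_lit 0)) (P (nat_lit 126396749802356736))))) (T.h (P (nat_lit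 0)) (T.h (T.h (P (nat_lit 0)) (P (nat_lit 42281017820037120))) (P (nat_lit 0))))))) (T.h (T.h (P (nat_lit 0)) (T.h (T.h (P (nat_lit 11439208824090017958723584)) (T.h (P (nat_lit 0)) (T.h (P (nat_lit 167073992415295569920)) (T.h (P (nat_lit 0)) (M (nat_lit 216448194887871)))))) (T.h (P (nat_lit 0)) (T.h (T.h (M (nat_lit 25606197467787821055)) (T.h (P (nat_lit 0)) (P (nat_lit 13668783183072)))) (T.h (P (nat_lit 0)) (M (nat_lit 9359451847407))))))) (T.h (T.h (T.h (P (nat_lit 0)) (T.h (P (nat_lit 8179832511665811750912)) (T.h (P (nat_lit 0)) (P (nat_lit 126396749802356736))))) (T.h (P (nat_lit 0)) (T.h (T.h (P (nat_lit 0)) (M (nat_lit 83790289926193151))) (P (nat_lit 0))))) (T.h (T.h (P (nat_lit 0)) (T.h (T.h (M (nat_lit 25606197467787821055)) (T.h (P (nat_lit 0)) (P (nat_lit 13668783183072)))) (T.h (P (nat_lit 0)) (M (nat_lit 9080975901567))))) (T.h (T.h (T.h (P (nat_lit 0)) (P (nat_lit 42281017820037120))) (P (nat_lit 0))) (T.h (T.h (P (nat_lit 0)) (M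 (nat_lit 9359451847407))) (P (nat_lit 0)))))))), (T.h (T.h (T.h (M (nat_lit 2694971324786812428829061021695)) (T.h (P (nat_lit 0)) (T.h (M (nat_lit 111363929836749729390657535)) (T.h (P (nat_lit 0)) (T.h (P (nat_lit 46910088153439141888)) (T.h (P (nat_lit 0)) (M (nat_lit 259896371934719)))))))) (T.h (P (nat_lit 0)) (T.h (T.h (M (nat_lit 27780269874526564126818303)) (T.h (P (nat_lit 0)) (T.h (M (nat_lit 167835051622190284799)) (T.h (P (nat_lit 0)) (P (nat_lit 25220496191936)))))) (T.h (P (nat_lit 0)) (T.h (T.h (M (nat_lit 11916932928107446271)) (T.h (P (nat_lit 0)) (P (nat_lit 87479027713152)))) (T.h (P (nat_lit 0)) (M (nat_lit 33585842871871)))))))) (T.h (T.h (P (nat_lit 0)) (T.h (T.h (P (nat_lit 0)) (T.h (M (nat_lit 6738496892893524918271)) (T.h (P (nat_lit 0)) (P (nat_lit 706515807330369536))))) (T.h (P (nat_lit 0)) (T.h (T.h (P (nat_lit 0)) (P (nat_lit 3202358644506624))) (P (nat_lit 0)))))) (T.h (T.h (T.h (M (nat_lit 8915960827638293307850751))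 (T.h (P (nat_lit 0)) (T.h (M (nat_lit 225419670460504735743)) (T.h (P (nat_lit 0)) (P (nat_lit 25220496191936)))))) (T.h (P (nat_lit 0)) (T.h (T.h (M (nat_lit 31135693667521527807)) (T.h (P (nat_lit 0)) (M (nat_lit 190117580289279)))) (T.h (P (nat_lit 0)) (M (nat_lit 49145268336255)))))) (T.h (T.h (P (nat_lit 0)) (T.h (T.h (P (nat_lit 0)) (M (nat_lit 34731807398428671))) (P (nat_lit 0)))) (T.h (T.h (T.h (P (nat_lit 22971813830544326656)) (T.h (P (nat_lit 0)) (P (nat_lit 87479027713152)))) (T.h (P (nat_lit 0)) (M (nat_lit 49145268336255)))) (T.h (P (nat_lit 0)) (M (nat_lit 33585842871871)))))))), (T.h (T.h (T.h (P (nat_lit 0)) (T.h (P (nat_lit 17659136188694529823951814656)) (T.h (P (nat_lit 0)) (T.h (P (nat_lit 73861470267005309288448)) (T.h (P (nat_lit 0)) (P (nat_lit 598338107407433728))))))) (T.h (P (nat_lit 0)) (T.h (T.h (P (nat_lit 0)) (T.h (P (nat_lit 39795335775124061159424)) (T.h (P (nat_lit 0)) (M (nat_lit 78670430591942655))))) (T.h (P (nat_lit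 0)) (T.h (T.h (P (nat_lit 0)) (M (nat_lit 99868825715032063))) (P (nat_lit 0))))))) (T.h (T.h (P (nat_lit 0)) (T.h (T.h (P (nat_lit 12728157364842137498157056)) (T.h (P (nat_lit 0)) (T.h (M (nat_lit 303699369560303992831)) (T.h (P (nat_lit 0)) (M (nat_lit 170370273170943)))))) (T.h (P (nat_lit 0)) (T.h (T.h (M (nat_lit 15539825767377534975)) (T.h (P (nat_lit 0)) (M (nat_lit 232315348433871)))) (T.h (P (nat_lit 0)) (M (nat_lit 53103933012239))))))) (T.h (T.h (T.h (P (nat_lit 0)) (T.h (P (nat_lit 39795335775124061159424)) (T.h (P (nat_lit 0)) (M (nat_lit 78670430591942655))))) (T.h (P (nat_lit 0)) (T.h (T.h (P (nat_lit 0)) (P (nat_lit 10397342753980416))) (P (nat_lit 0))))) (T.h (T.h (P (nat_lit 0)) (T.h (T.h (M (nat_lit 15539825767377534975)) (T.h (P (nat_lit 0)) (M (nat_lit 232315348433871)))) (T.h (P (nat_lit 0)) (P (nat_lit 1364867077376))))) (T.h (T.h (T.h (P (nat_lit 0)) (M (nat_lit 99868825715032063))) (P (nat_lit 0))) (T.h (T.h (P (nat_lit 0))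 (M (nat_lit 53103933012239))) (P (nat_lit 0)))))))), (T.h (T.h (T.h (P (nat_lit 6680708591493659502204118106112)) (T.h (P (nat_lit 0)) (T.h (M (nat_lit 2149890956194024676917247)) (T.h (P (nat_lit 0)) (M (nat_lit 8287550168841060351)))))) (T.h (P (nat_lit 0)) (T.h (T.h (P (nat_lit 3152629237428887272554496)) (T.h (P (nat_lit 0)) (M (nat_lit 48278542870674145279)))) (T.h (P (nat_lit 0)) (P (nat_lit 9809641144634572800)))))) (T.h (T.h (P (nat_lit 0)) (T.h (T.h (P (nat_lit 0)) (T.h (M (nat_lit 65334891981411134210047)) (T.h (P (nat_lit 0)) (P (nat_lit 175092994366111744))))) (T.h (P (nat_lit 0)) (T.h (T.h (P (nat_lit 0)) (P (nat_lit 58318068894531584))) (P (nat_lit 0)))))) (T.h (T.h (T.h (P (nat_lit 3152629237428887272554496)) (T.h (P (nat_lit 0)) (M (nat_lit 48278542870674145279)))) (T.h (P (nat_lit 0)) (P (nat_lit 9895869601147781120)))) (T.h (T.h (P (nat_lit 0)) (T.h (T.h (P (nat_lit 0)) (P (nat_lit 58318068894531584))) (P (nat_lit 0)))) (P (nat_lit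 9809641144634572800)))))), (P (nat_lit 0)), (P (nat_lit 0))]
def lP12_13 : List (T ℤ) := [(T.h (T.h (P (nat_lit 0)) (T.h (T.h (P (nat_lit 0)) (T.h (P (nat_lit 48178905538425081420578816)) (T.h (P (nat_lit 0)) (T.h (M (nat_lit 16109480993408155647)) (T.h (P (nat_lit 0)) (M (nat_lit 547900994733311))))))) (T.h (P (nat_lit 0)) (T.h (T.h (P (nat_lit 0)) (T.h (P (nat_lit 107190238665928343552)) (T.h (P (nat_lit 0)) (P (nat_lit 1096735821745104))))) (T.h (P (nat_lit 0)) (T.h (T.h (P (nat_lit 0)) (M (nat_lit 9183143797551))) (P (nat_lit 0)))))))) (T.h (T.h (T.h (P (nat_lit 10260140020286416218887290880)) (T.h (P (nat_lit 0)) (T.h (P (nat_lit 33744897387717288001536)) (T.h (P (nat_lit 0)) (P (nat_lit 2681926942261248)))))) (T.h (P (nat_lit 0)) (T.h (T.h (P (nat_lit 32692690798570024992768)) (T.h (P (nat_lit 0)) (M (nat_lit 282451279546744831)))) (T.h (P (nat_lit 0)) (M (nat_lit 35236526196719615)))))) (T.h (T.h (P (nat_lit 0)) (T.h (T.h (P (nat_lit 0)) (T.h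 (M (nat_lit 259759959707444314111)) (T.h (P (nat_lit 0)) (M (nat_lit 115682616137039))))) (T.h (P (nat_lit 0)) (T.h (T.h (P (nat_lit 0)) (P (nat_lit 28940173883520))) (P (nat_lit 0)))))) (T.h (T.h (T.h (P (nat_lit 25707904817281210777600)) (T.h (P (nat_lit 0)) (P (nat_lit 84790055462699008)))) (T.h (P (nat_lit 0)) (P (nat_lit 11324505537380352)))) (T.h (T.h (P (nat_lit 0)) (T.h (T.h (P (nat_lit 0)) (P (nat_lit 302593094902256))) (P (nat_lit 0)))) (M (nat_lit 19065723810480127))))))), (T.h (T.h (P (nat_lit 0)) (T.h (T.h (P (nat_lit 14882683165086291058843713536)) (T.h (P (nat_lit 0)) (T.h (P (nat_lit 256807096225738805739520)) (T.h (P (nat_lit 0)) (P (nat_lit 1211095121471963136)))))) (T.h (P (nat_lit 0)) (T.h (T.h (P (nat_lit 20929441631043701440512)) (T.h (P (nat_lit 0)) (M (nat_lit 446271242066706431)))) (T.h (P (nat_lit 0)) (M (nat_lit 36176921370558463))))))) (T.h (T.h (T.h (P (nat_lit 0)) (T.h (M (nat_lit 53146542248726677021523967)) (T.h (P (nat_lit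 0)) (T.h (P (nat_lit 37051053167047868416)) (T.h (P (nat_lit 0)) (M (nat_lit 72084300084943))))))) (T.h (P (nat_lit 0)) (T.h (T.h (P (nat_lit 0)) (T.h (M (nat_lit 75408516526748205055)) (T.h (P (nat_lit 0)) (M (nat_lit 75934935373951))))) (T.h (P (nat_lit 0)) (T.h (T.h (P (nat_lit 0)) (P (nat_lit 4164924265456))) (P (nat_lit 0))))))) (T.h (T.h (P (nat_lit 0)) (T.h (T.h (M (nat_lit 18849529835447239311359)) (T.h (P (nat_lit 0)) (M (nat_lit 463891509779316735)))) (T.h (P (nat_lit 0)) (P (nat_lit 102934913059225600))))) (T.h (T.h (T.h (P (nat_lit 0)) (T.h (M (nat_lit 11548678206101913599)) (T.h (P (nat_lit 0)) (P (nat_lit 6711510549152))))) (T.h (P (nat_lit 0)) (T.h (T.h (P (nat_lit 0)) (P (nat_lit 16557836531408))) (P (nat_lit 0))))) (T.h (T.h (P (nat_lit 0)) (P (nat_lit 140018033237983232))) (T.h (T.h (T.h (P (nat_lit 0)) (M (nat_lit 34652740068447))) (P (nat_lit 0))) (P (nat_lit 0)))))))), (T.h (T.h (P (nat_lit 0)) (T.h (T.h (P (nat_lit 0)) (T.h (M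 (nat_lit 8118101888170637964345343)) (T.h (P (nat_lit 0)) (T.h (M (nat_lit 979244457804982910975)) (T.h (P (nat_lit 0)) (M (nat_lit 40638326489599))))))) (T.h (P (nat_lit 0)) (T.h (T.h (P (nat_lit 0)) (T.h (P (nat_lit 25439439781948817408)) (T.h (P (nat_lit 0)) (M (nat_lit 569304909624511))))) (T.h (P (nat_lit 0)) (T.h (T.h (P (nat_lit 0)) (M (nat_lit 34559719305663))) (P (nat_lit 0)))))))) (T.h (T.h (T.h (P (nat_lit 45253935811179147414015574016)) (T.h (P (nat_lit 0)) (T.h (P (nat_lit 84320825044945537597440)) (T.h (P (nat_lit 0)) (P (nat_lit 95721666362736640)))))) (T.h (P (nat_lit 0)) (T.h (T.h (M (nat_lit 78906838468771547447295)) (T.h (P (nat_lit 0)) (M (nat_lit 135815760719904767)))) (T.h (P (nat_lit 0)) (P (nat_lit 154532991232933888)))))) (T.h (T.h (P (nat_lit 0)) (T.h (T.h (P (nat_lit 0)) (T.h (P (nat_lit 91561534716859383808)) (T.h (P (nat_lit 0)) (M (nat_lit 353210867934847))))) (T.h (P (nat_lit 0)) (T.h (T.h (P (nat_lit 0)) (P (nat_lit 16402866389632)))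 (P (nat_lit 0)))))) (T.h (T.h (T.h (M (nat_lit 124965454498465155383295)) (T.h (P (nat_lit 0)) (P (nat_lit 243062550252945408)))) (T.h (P (nat_lit 0)) (P (nat_lit 59901287622311936)))) (T.h (T.h (P (nat_lit 0)) (T.h (T.h (P (nat_lit 0)) (M (nat_lit 35758438672831))) (P (nat_lit 0)))) (P (nat_lit 58106136902205440))))))), (T.h (T.h (P (nat_lit 0)) (T.h (T.h (P (nat_lit 22056385171391749620211122176)) (T.h (P (nat_lit 0)) (T.h (M (nat_lit 25702737167881122873343)) (T.h (P (nat_lit 0)) (M (nat_lit 2349252942460698623)))))) (T.h (P (nat_lit 0)) (T.h (T.h (M (nat_lit 61689989667755156045823)) (T.h (P (nat_lit 0)) (P (nat_lit 327098498796929024)))) (T.h (P (nat_lit 0)) (P (nat_lit 96786791661895680))))))) (T.h (T.h (T.h (P (nat_lit 0)) (T.h (P (nat_lit 52630575178557683830620160)) (T.h (P (nat_lit 0)) (T.h (P (nat_lit 246123919164382904320)) (T.h (P (nat_lit 0)) (P (nat_lit 323965957366480))))))) (T.h (P (nat_lit 0)) (T.h (T.h (P (nat_lit 0)) (T.h (P (nat_lit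 112460165131284774912)) (T.h (P (nat_lit 0)) (P (nat_lit 357255833203280))))) (T.h (P (nat_lit 0)) (T.h (T.h (P (nat_lit 0)) (P (nat_lit 53051936705152))) (P (nat_lit 0))))))) (T.h (T.h (P (nat_lit 0)) (T.h (T.h (P (nat_lit 24522684844148118257664)) (T.h (P (nat_lit 0)) (P (nat_lit 209679305862021120)))) (T.h (P (nat_lit 0)) (P (nat_lit 61005692873162752))))) (T.h (T.h (T.h (P (nat_lit 0)) (T.h (P (nat_lit 30487834188759171072)) (T.h (P (nat_lit 0)) (P (nat_lit 186187917737008))))) (T.h (P (nat_lit 0)) (T.h (T.h (P (nat_lit 0)) (M (nat_lit 58086204154527))) (P (nat_lit 0))))) (T.h (T.h (P (nat_lit 0)) (P (nat_lit 99933179538800640))) (T.h (T.h (T.h (P (nat_lit 0)) (P (nat_lit 56760557853824))) (P (nat_lit 0))) (P (nat_lit 0)))))))), (T.h (T.h (P (nat_lit 0)) (T.h (T.h (P (nat_lit 0)) (T.h (M (nat_lit 59607409781330600397897727)) (T.h (P (nat_lit 0)) (P (nat_lit 1752441552205047136256))))) (T.h (P (nat_lit 0)) (T.h (T.h (P (nat_lit 0)) (P (nat_lit 18434105099233001472)))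 (P (nat_lit 0)))))) (T.h (T.h (T.h (M (nat_lit 3852606373610495334007439359)) (T.h (P (nat_lit 0)) (T.h (M (nat_lit 245447685447027747979263)) (T.h (P (nat_lit 0)) (M (nat_lit 282237081034981375)))))) (T.h (P (nat_lit 0)) (T.h (T.h (P (nat_lit 6837357369292922814464)) (T.h (P (nat_lit 0)) (M (nat_lit 110716026291683327)))) (T.h (P (nat_lit 0)) (P (nat_lit 59169193778446336)))))) (T.h (T.h (P (nat_lit 0)) (T.h (T.h (P (nat_lit 0)) (P (nat_lit 114307951635558563840))) (P (nat_lit 0)))) (T.h (T.h (T.h (P (nat_lit 22505124835361908850688)) (T.h (P (nat_lit 0)) (M (nat_lit 47461522852282367)))) (T.h (P (nat_lit 0)) (P (nat_lit 46638150502907904)))) (T.h (P (nat_lit 0)) (M (nat_lit 4950061242613759))))))), (P (nat_lit 0)), (P (nat_lit 0)), (T.h (T.h (T.h (P (nat_lit 8948906623492049372850681806848)) (T.h (P (nat_lit 0)) (T.h (P (nat_lit 27268170224375679168806912)) (T.h (P (nat_lit 0)) (T.h (M (nat_lit 109148471381245034495)) (T.h (P (nat_lit 0)) (P (nat_lit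 222492578143816)))))))) (T.h (P (nat_lit 0)) (T.h (T.h (P (nat_lit 27268170224375679168806912)) (T.h (P (nat_lit 0)) (T.h (P (nat_lit 125185706528037928960)) (T.h (P (nat_lit 0)) (M (nat_lit 1186266408982927)))))) (T.h (P (nat_lit 0)) (T.h (T.h (M (nat_lit 109148471381245034495)) (T.h (P (nat_lit 0)) (M (nat_lit 1186266408982927)))) (T.h (P (nat_lit 0)) (P (nat_lit 222492578143816)))))))) (T.h (T.h (P (nat_lit 0)) (T.h (T.h (P (nat_lit 0)) (T.h (P (nat_lit 310208173592460922978304)) (T.h (P (nat_lit 0)) (P (nat_lit 349526668529369088))))) (T.h (P (nat_lit 0)) (T.h (T.h (P (nat_lit 0)) (P (nat_lit 349526668529369088))) (P (nat_lit 0)))))) (T.h (T.h (T.h (P (nat_lit 36267432805759554466873344)) (T.h (P (nat_lit 0)) (T.h (P (nat_lit 102299527422693867520)) (T.h (P (nat_lit 0)) (M (nat_lit 41740528019263)))))) (T.h (P (nat_lit 0)) (T.h (T.h (P (nat_lit 102299527422693867520)) (T.h (P (nat_lit 0)) (M (nat_lit 781042328595599)))) (T.h (P (nat_lit 0)) (M (nat_lit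 41740528019263)))))) (T.h (T.h (P (nat_lit 0)) (T.h (T.h (P (nat_lit 0)) (M (nat_lit 43875112969502719))) (P (nat_lit 0)))) (T.h (T.h (T.h (M (nat_lit 22390230653014638591)) (T.h (P (nat_lit 0)) (M (nat_lit 90479364302255)))) (T.h (P (nat_lit 0)) (M (nat_lit 90479364302255)))) (T.h (P (nat_lit 0)) (P (nat_lit 20292413701888))))))))]
def lP12_14 : List (T ℤ) := [(T.h (T.h (T.h (P (nat_lit 0)) (T.h (P (nat_lit 165657683186759434277748736)) (T.h (P (nat_lit 0)) (T.h (M (nat_lit 151525430621372818653183)) (T.h (P (nat_lit 0)) (M (nat_lit 4766301716283391))))))) (T.h (P (nat_lit 0)) (T.h (T.h (P (nat_lit 0)) (T.h (P (nat_lit 12971391210968743673856)) (T.h (P (nat_lit 0)) (M (nat_lit 503218121177612287))))) (T.h (P (nat_lit 0)) (T.h (T.h (P (nat_lit 0)) (P (nat_lit 721582360884019200))) (P (nat_lit 0))))))) (T.h (T.h (P (nat_lit 0)) (T.h (T.h (M (nat_lit 69642946525185967036301311)) (T.h (P (nat_lit 0)) (T.h (P (nat_lit 398757292396802736128)) (T.h (P (nat_lit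 0)) (P (nat_lit 20469176266336)))))) (T.h (P (nat_lit 0)) (T.h (T.h (M (nat_lit 107611019278756610047)) (T.h (P (nat_lit 0)) (P (nat_lit 145511679509456)))) (T.h (P (nat_lit 0)) (P (nat_lit 20495869015824))))))) (T.h (T.h (T.h (P (nat_lit 0)) (T.h (M (nat_lit 9028346044505141542911)) (T.h (P (nat_lit 0)) (M (nat_lit 327822764628525055))))) (T.h (P (nat_lit 0)) (T.h (T.h (P (nat_lit 0)) (P (nat_lit 27697189017501696))) (P (nat_lit 0))))) (T.h (T.h (P (nat_lit 0)) (T.h (T.h (P (nat_lit 30453531548156166144)) (T.h (P (nat_lit 0)) (P (nat_lit 713975442312624)))) (T.h (P (nat_lit 0)) (M (nat_lit 45475820045455))))) (T.h (T.h (T.h (P (nat_lit 0)) (M (nat_lit 169082224198090751))) (P (nat_lit 0))) (T.h (T.h (P (nat_lit 0)) (M (nat_lit 22027988921247))) (P (nat_lit 0)))))))), (T.h (T.h (T.h (M (nat_lit 10370111241213474539359554240511)) (T.h (P (nat_lit 0)) (T.h (P (nat_lit 54570365724900494365687808)) (T.h (P (nat_lit 0)) (T.h (P (nat_lit 735240482987020648448))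 (T.h (P (nat_lit 0)) (M (nat_lit 144862093652351)))))))) (T.h (P (nat_lit 0)) (T.h (T.h (M (nat_lit 97247615098734447953969151)) (T.h (P (nat_lit 0)) (T.h (M (nat_lit 509032083911805501439)) (T.h (P (nat_lit 0)) (P (nat_lit 262688387398912)))))) (T.h (P (nat_lit 0)) (T.h (T.h (M (nat_lit 132965686576832053247)) (T.h (P (nat_lit 0)) (P (nat_lit 1638605785130944)))) (T.h (P (nat_lit 0)) (M (nat_lit 176948586303359)))))))) (T.h (T.h (P (nat_lit 0)) (T.h (T.h (P (nat_lit 0)) (T.h (M (nat_lit 9100914758342991151103)) (T.h (P (nat_lit 0)) (P (nat_lit 1865236754919063552))))) (T.h (P (nat_lit 0)) (T.h (T.h (P (nat_lit 0)) (M (nat_lit 321892658210603007))) (P (nat_lit 0)))))) (T.h (T.h (T.h (M (nat_lit 34917601968387058737086463)) (T.h (P (nat_lit 0)) (T.h (M (nat_lit 45443914389543452671)) (T.h (P (nat_lit 0)) (P (nat_lit 9606960604224)))))) (T.h (P (nat_lit 0)) (T.h (T.h (P (nat_lit 212807098615459741696)) (T.h (P (nat_lit 0)) (P (nat_lit 665330991811392))))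 (T.h (P (nat_lit 0)) (P (nat_lit 5134246787648)))))) (T.h (T.h (P (nat_lit 0)) (T.h (T.h (P (nat_lit 0)) (M (nat_lit 287444550435340287))) (P (nat_lit 0)))) (T.h (T.h (T.h (M (nat_lit 23550887282186649599)) (T.h (P (nat_lit 0)) (M (nat_lit 466928359457407)))) (T.h (P (nat_lit 0)) (P (nat_lit 139694028686272)))) (T.h (P (nat_lit 0)) (P (nat_lit 15993966832384)))))))), (T.h (T.h (T.h (P (nat_lit 0)) (T.h (P (nat_lit 17704389529118597248316342272)) (T.h (P (nat_lit 0)) (T.h (M (nat_lit 80612603565561887064063)) (T.h (P (nat_lit 0)) (P (nat_lit 552199261127180288))))))) (T.h (P (nat_lit 0)) (T.h (T.h (P (nat_lit 0)) (T.h (M (nat_lit 89931286064732739469311)) (T.h (P (nat_lit 0)) (M (nat_lit 315189760276332543))))) (T.h (P (nat_lit 0)) (T.h (T.h (P (nat_lit 0)) (M (nat_lit 637775820071223295))) (P (nat_lit 0))))))) (T.h (T.h (P (nat_lit 0)) (T.h (T.h (P (nat_lit 90555554163492652484395008)) (T.h (P (nat_lit 0)) (T.h (P (nat_lit 38138849773442039808)) (T.h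 (P (nat_lit 0)) (P (nat_lit 1882318035580224)))))) (T.h (P (nat_lit 0)) (T.h (T.h (M (nat_lit 71140088274038554623)) (T.h (P (nat_lit 0)) (P (nat_lit 361794974546192)))) (T.h (P (nat_lit 0)) (P (nat_lit 172986961464416))))))) (T.h (T.h (T.h (P (nat_lit 0)) (T.h (P (nat_lit 179029490075745973698560)) (T.h (P (nat_lit 0)) (P (nat_lit 261691826528878592))))) (T.h (P (nat_lit 0)) (T.h (T.h (P (nat_lit 0)) (M (nat_lit 271088118705799167))) (P (nat_lit 0))))) (T.h (T.h (P (nat_lit 0)) (T.h (T.h (P (nat_lit 14186840661470216192)) (T.h (P (nat_lit 0)) (P (nat_lit 130585546475472)))) (T.h (P (nat_lit 0)) (M (nat_lit 25054827595247))))) (T.h (T.h (T.h (P (nat_lit 0)) (P (nat_lit 328597930403921920))) (P (nat_lit 0))) (T.h (T.h (P (nat_lit 0)) (P (nat_lit 110851673169776))) (P (nat_lit 0)))))))), (T.h (T.h (T.h (M (nat_lit 16610131237050969157222881296383)) (T.h (P (nat_lit 0)) (T.h (M (nat_lit 23126752110161750401220607)) (T.h (P (nat_lit 0)) (P (nat_lit 118912105825926381568))))))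 (T.h (P (nat_lit 0)) (T.h (T.h (P (nat_lit 78577746382943512002822144)) (T.h (P (nat_lit 0)) (P (nat_lit 254876444120481529856)))) (T.h (P (nat_lit 0)) (M (nat_lit 44363430733904084991)))))) (T.h (T.h (P (nat_lit 0)) (T.h (T.h (P (nat_lit 0)) (T.h (P (nat_lit 170774383045035088150528)) (T.h (P (nat_lit 0)) (M (nat_lit 1474979290622656511))))) (T.h (P (nat_lit 0)) (T.h (T.h (P (nat_lit 0)) (M (nat_lit 116902649026969599))) (P (nat_lit 0)))))) (T.h (T.h (T.h (M (nat_lit 12159185391653889647837183)) (T.h (P (nat_lit 0)) (M (nat_lit 12886189783738482687)))) (T.h (P (nat_lit 0)) (M (nat_lit 26916983604714143743)))) (T.h (T.h (P (nat_lit 0)) (T.h (T.h (P (nat_lit 0)) (P (nat_lit 7959988333117440))) (P (nat_lit 0)))) (M (nat_lit 8542965040104341503)))))), (P (nat_lit 0)), (P (nat_lit 0)), (T.h (T.h (P (nat_lit 0)) (T.h (T.h (P (nat_lit 0)) (T.h (P (nat_lit 48178905538425081420578816)) (T.h (P (nat_lit 0)) (T.h (P (nat_lit 107190238665928343552)) (T.h (P (nat_lit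 0)) (M (nat_lit 9183143797551))))))) (T.h (P (nat_lit 0)) (T.h (T.h (P (nat_lit 0)) (T.h (M (nat_lit 16109480993408155647)) (T.h (P (nat_lit 0)) (P (nat_lit 1096735821745104))))) (T.h (P (nat_lit 0)) (T.h (T.h (P (nat_lit 0)) (M (nat_lit 547900994733311))) (P (nat_lit 0)))))))) (T.h (T.h (T.h (P (nat_lit 10260140020286416218887290880)) (T.h (P (nat_lit 0)) (T.h (P (nat_lit 32692690798570024992768)) (T.h (P (nat_lit 0)) (M (nat_lit 35236526196719615)))))) (T.h (P (nat_lit 0)) (T.h (T.h (P (nat_lit 33744897387717288001536)) (T.h (P (nat_lit 0)) (M (nat_lit 282451279546744831)))) (T.h (P (nat_lit 0)) (P (nat_lit 2681926942261248)))))) (T.h (T.h (P (nat_lit 0)) (T.h (T.h (P (nat_lit 0)) (T.h (M (nat_lit 259759959707444314111)) (T.h (P (nat_lit 0)) (P (nat_lit 28940173883520))))) (T.h (P (nat_lit 0)) (T.h (T.h (P (nat_lit 0)) (M (nat_lit 115682616137039))) (P (nat_lit 0)))))) (T.h (T.h (T.h (P (nat_lit 25707904817281210777600)) (T.h (P (nat_lit 0)) (P (nat_lit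 11324505537380352)))) (T.h (P (nat_lit 0)) (P (nat_lit 84790055462699008)))) (T.h (T.h (P (nat_lit 0)) (T.h (T.h (P (nat_lit 0)) (P (nat_lit 302593094902256))) (P (nat_lit 0)))) (M (nat_lit 19065723810480127))))))), (T.h (T.h (P (nat_lit 0)) (T.h (T.h (P (nat_lit 165657683186759434277748736)) (T.h (P (nat_lit 0)) (T.h (P (nat_lit 12971391210968743673856)) (T.h (P (nat_lit 0)) (P (nat_lit 721582360884019200)))))) (T.h (P (nat_lit 0)) (T.h (T.h (M (nat_lit 151525430621372818653183)) (T.h (P (nat_lit 0)) (M (nat_lit 503218121177612287)))) (T.h (P (nat_lit 0)) (M (nat_lit 4766301716283391))))))) (T.h (T.h (T.h (P (nat_lit 0)) (T.h (M (nat_lit 69642946525185967036301311)) (T.h (P (nat_lit 0)) (T.h (M (nat_lit 107611019278756610047)) (T.h (P (nat_lit 0)) (P (nat_lit 20495869015824))))))) (T.h (P (nat_lit 0)) (T.h (T.h (P (nat_lit 0)) (T.h (P (nat_lit 398757292396802736128)) (T.h (P (nat_lit 0)) (P (nat_lit 145511679509456))))) (T.h (P (nat_lit 0)) (T.h (T.h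 (P (nat_lit 0)) (P (nat_lit 20469176266336))) (P (nat_lit 0))))))) (T.h (T.h (P (nat_lit 0)) (T.h (T.h (M (nat_lit 9028346044505141542911)) (T.h (P (nat_lit 0)) (P (nat_lit 27697189017501696)))) (T.h (P (nat_lit 0)) (M (nat_lit 327822764628525055))))) (T.h (T.h (T.h (P (nat_lit 0)) (T.h (P (nat_lit 30453531548156166144)) (T.h (P (nat_lit 0)) (M (nat_lit 45475820045455))))) (T.h (P (nat_lit 0)) (T.h (T.h (P (nat_lit 0)) (P (nat_lit 713975442312624))) (P (nat_lit 0))))) (T.h (T.h (P (nat_lit 0)) (M (nat_lit 169082224198090751))) (T.h (T.h (T.h (P (nat_lit 0)) (M (nat_lit 22027988921247))) (P (nat_lit 0))) (P (nat_lit 0))))))))]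
def lP12_15 : List (T ℤ) := [(T.h (T.h (P (nat_lit 0)) (T.h (T.h (P (nat_lit 0)) (T.h (M (nat_lit 379881761952645680249962495)) (T.h (P (nat_lit 0)) (T.h (M (nat_lit 1507235000862954749951)) (T.h (P (nat_lit 0)) (P (nat_lit 359323624798656))))))) (T.h (P (nat_lit 0)) (T.h (T.h (P (nat_lit 0)) (T.h (M (nat_lit 1507235000862954749951)) (T.h (P (nat_lit 0)) (M (nat_lit 1377247444456703))))) (T.h (P (nat_lit 0)) (T.h (T.h (P (nat_lit 0)) (P (nat_lit 359323624798656))) (P (nat_lit 0)))))))) (T.h (T.h (T.h (M (nat_lit 204624579741806548629973893119)) (T.h (P (nat_lit 0)) (T.h (P (nat_lit 142430153648483667542016)) (T.h (P (nat_lit 0)) (P (nat_lit 382951904028753920)))))) (T.h (P (nat_lit 0)) (T.h (T.h (P (nat_lit 142430153648483667542016)) (T.h (P (nat_lit 0)) (P (nat_lit 299268860508438528)))) (T.h (P (nat_lit 0)) (P (nat_lit 382951904028753920)))))) (T.h (T.h (P (nat_lit 0)) (T.h (T.h (P (nat_lit 0)) (T.h (P (nat_lit 2192958142800296148992)) (T.h (P (nat_lit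 0)) (P (nat_lit 228504705620032))))) (T.h (P (nat_lit 0)) (T.h (T.h (P (nat_lit 0)) (P (nat_lit 228504705620032))) (P (nat_lit 0)))))) (T.h (T.h (T.h (P (nat_lit 327501886745863012745216)) (T.h (P (nat_lit 0)) (M (nat_lit 140306735706111999)))) (T.h (P (nat_lit 0)) (M (nat_lit 140306735706111999)))) (T.h (T.h (P (nat_lit 0)) (T.h (T.h (P (nat_lit 0)) (M (nat_lit 1123590043552511))) (P (nat_lit 0)))) (M (nat_lit 168862143760629759))))))), (T.h (T.h (P (nat_lit 0)) (T.h (T.h (P (nat_lit 38654651469590484565549383680)) (T.h (P (nat_lit 0)) (T.h (P (nat_lit 254371583437503744442368)) (T.h (P (nat_lit 0)) (M (nat_lit 863332651526553599)))))) (T.h (P (nat_lit 0)) (T.h (T.h (P (nat_lit 75429900119833793527808)) (T.h (P (nat_lit 0)) (M (nat_lit 1732861195147624447)))) (T.h (P (nat_lit 0)) (P (nat_lit 84372272904028160))))))) (T.h (T.h (T.h (P (nat_lit 0)) (T.h (M (nat_lit 82005352132504340645543935)) (T.h (P (nat_lit 0)) (T.h (P (nat_lit 7255255734206595072))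 (T.h (P (nat_lit 0)) (P (nat_lit 128431816472960))))))) (T.h (P (nat_lit 0)) (T.h (T.h (P (nat_lit 0)) (T.h (P (nat_lit 6781948296333099008)) (T.h (P (nat_lit 0)) (M (nat_lit 150609851272495))))) (T.h (P (nat_lit 0)) (T.h (T.h (P (nat_lit 0)) (P (nat_lit 56095130371632))) (P (nat_lit 0))))))) (T.h (T.h (P (nat_lit 0)) (T.h (T.h (M (nat_lit 398869698903503942975487)) (T.h (P (nat_lit 0)) (P (nat_lit 605362602800644096)))) (T.h (P (nat_lit 0)) (M (nat_lit 103527097765298175))))) (T.h (T.h (T.h (P (nat_lit 0)) (T.h (P (nat_lit 40354807243362795520)) (T.h (P (nat_lit 0)) (M (nat_lit 126198014860367))))) (T.h (P (nat_lit 0)) (T.h (T.h (P (nat_lit 0)) (M (nat_lit 625848463900175))) (P (nat_lit 0))))) (T.h (T.h (P (nat_lit 0)) (P (nat_lit 77592608275103744))) (T.h (T.h (T.h (P (nat_lit 0)) (M (nat_lit 171358582288431))) (P (nat_lit 0))) (P (nat_lit 0)))))))), (T.h (T.h (P (nat_lit 0)) (T.h (T.h (P (nat_lit 0)) (T.h (P (nat_lit 178450648329772352166428672))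 (T.h (P (nat_lit 0)) (P (nat_lit 468182160841962946560))))) (T.h (P (nat_lit 0)) (T.h (T.h (P (nat_lit 0)) (P (nat_lit 312703088898592473088))) (P (nat_lit 0)))))) (T.h (T.h (T.h (P (nat_lit 12264306295860865433992167424)) (T.h (P (nat_lit 0)) (T.h (P (nat_lit 72151306072020993703936)) (T.h (P (nat_lit 0)) (M (nat_lit 353876310217654271)))))) (T.h (P (nat_lit 0)) (T.h (T.h (M (nat_lit 126715159606584970051583)) (T.h (P (nat_lit 0)) (P (nat_lit 329315656024653824)))) (T.h (P (nat_lit 0)) (M (nat_lit 250273072803250175)))))) (T.h (T.h (P (nat_lit 0)) (T.h (T.h (P (nat_lit 0)) (M (nat_lit 632434394254251393023))) (P (nat_lit 0)))) (T.h (T.h (T.h (M (nat_lit 38351697694890571857919)) (T.h (P (nat_lit 0)) (P (nat_lit 12011030252027904)))) (T.h (P (nat_lit 0)) (P (nat_lit 95609950710071296)))) (T.h (P (nat_lit 0)) (P (nat_lit 22986133075853312))))))), (P (nat_lit 0)), (P (nat_lit 0)), (T.h (T.h (T.h (M (nat_lit 2870178261519398365160745730047)) (T.h (P (nat_lit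 0)) (T.h (P (nat_lit 12827972311967211741773824)) (T.h (P (nat_lit 0)) (T.h (M (nat_lit 36610506741262581759)) (T.h (P (nat_lit 0)) (P (nat_lit 49832962037720)))))))) (T.h (P (nat_lit 0)) (T.h (T.h (P (nat_lit 39823403180570446393245696)) (T.h (P (nat_lit 0)) (T.h (P (nat_lit 55258322677964734464)) (T.h (P (nat_lit 0)) (M (nat_lit 274317118028591)))))) (T.h (P (nat_lit 0)) (T.h (T.h (M (nat_lit 41837662615675863039)) (T.h (P (nat_lit 0)) (M (nat_lit 634734711294303)))) (T.h (P (nat_lit 0)) (P (nat_lit 158144109699800)))))))) (T.h (T.h (P (nat_lit 0)) (T.h (T.h (P (nat_lit 0)) (T.h (M (nat_lit 7441691804588211961855)) (T.h (P (nat_lit 0)) (M (nat_lit 5659497310552063))))) (T.h (P (nat_lit 0)) (T.h (T.h (P (nat_lit 0)) (M (nat_lit 307382905454624767))) (P (nat_lit 0)))))) (T.h (T.h (T.h (P (nat_lit 12717309569189488134979584)) (T.h (P (nat_lit 0)) (T.h (M (nat_lit 3421062432305446911)) (T.h (P (nat_lit 0)) (P (nat_lit 45128390243032)))))) (T.h (P (nat_lit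 0)) (T.h (T.h (P (nat_lit 31429119439722774528)) (T.h (P (nat_lit 0)) (P (nat_lit 157488636938720)))) (T.h (P (nat_lit 0)) (P (nat_lit 216488920951800)))))) (T.h (T.h (P (nat_lit 0)) (T.h (T.h (P (nat_lit 0)) (M (nat_lit 18117884869345279))) (P (nat_lit 0)))) (T.h (T.h (T.h (P (nat_lit 599172818671763456)) (T.h (P (nat_lit 0)) (P (nat_lit 22542976340984)))) (T.h (P (nat_lit 0)) (P (nat_lit 113635423127592)))) (T.h (P (nat_lit 0)) (P (nat_lit 11452596589048)))))))), (T.h (T.h (T.h (P (nat_lit 0)) (T.h (P (nat_lit 14882683165086291058843713536)) (T.h (P (nat_lit 0)) (T.h (P (nat_lit 20929441631043701440512)) (T.h (P (nat_lit 0)) (M (nat_lit 36176921370558463))))))) (T.h (P (nat_lit 0)) (T.h (T.h (P (nat_lit 0)) (T.h (P (nat_lit 256807096225738805739520)) (T.h (P (nat_lit 0)) (M (nat_lit 446271242066706431))))) (T.h (P (nat_lit 0)) (T.h (T.h (P (nat_lit 0)) (P (nat_lit 1211095121471963136))) (P (nat_lit 0))))))) (T.h (T.h (P (nat_lit 0)) (T.h (T.h (M (nat_lit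 53146542248726677021523967)) (T.h (P (nat_lit 0)) (T.h (M (nat_lit 75408516526748205055)) (T.h (P (nat_lit 0)) (P (nat_lit 4164924265456)))))) (T.h (P (nat_lit 0)) (T.h (T.h (P (nat_lit 37051053167047868416)) (T.h (P (nat_lit 0)) (M (nat_lit 75934935373951)))) (T.h (P (nat_lit 0)) (M (nat_lit 72084300084943))))))) (T.h (T.h (T.h (P (nat_lit 0)) (T.h (M (nat_lit 18849529835447239311359)) (T.h (P (nat_lit 0)) (P (nat_lit 102934913059225600))))) (T.h (P (nat_lit 0)) (T.h (T.h (P (nat_lit 0)) (M (nat_lit 463891509779316735))) (P (nat_lit 0))))) (T.h (T.h (P (nat_lit 0)) (T.h (T.h (M (nat_lit 11548678206101913599)) (T.h (P (nat_lit 0)) (P (nat_lit 16557836531408)))) (T.h (P (nat_lit 0)) (P (nat_lit 6711510549152))))) (T.h (T.h (T.h (P (nat_lit 0)) (P (nat_lit 140018033237983232))) (P (nat_lit 0))) (T.h (T.h (P (nat_lit 0)) (M (nat_lit 34652740068447))) (P (nat_lit 0)))))))), (T.h (T.h (T.h (M (nat_lit 10370111241213474539359554240511)) (T.h (P (nat_lit 0))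 (T.h (M (nat_lit 97247615098734447953969151)) (T.h (P (nat_lit 0)) (T.h (M (nat_lit 132965686576832053247)) (T.h (P (nat_lit 0)) (M (nat_lit 176948586303359)))))))) (T.h (P (nat_lit 0)) (T.h (T.h (P (nat_lit 54570365724900494365687808)) (T.h (P (nat_lit 0)) (T.h (M (nat_lit 509032083911805501439)) (T.h (P (nat_lit 0)) (P (nat_lit 1638605785130944)))))) (T.h (P (nat_lit 0)) (T.h (T.h (P (nat_lit 735240482987020648448)) (T.h (P (nat_lit 0)) (P (nat_lit 262688387398912)))) (T.h (P (nat_lit 0)) (M (nat_lit 144862093652351)))))))) (T.h (T.h (P (nat_lit 0)) (T.h (T.h (P (nat_lit 0)) (T.h (M (nat_lit 9100914758342991151103)) (T.h (P (nat_lit 0)) (M (nat_lit 321892658210603007))))) (T.h (P (nat_lit 0)) (T.h (T.h (P (nat_lit 0)) (P (nat_lit 1865236754919063552))) (P (nat_lit 0)))))) (T.h (T.h (T.h (M (nat_lit 34917601968387058737086463)) (T.h (P (nat_lit 0)) (T.h (P (nat_lit 212807098615459741696)) (T.h (P (nat_lit 0)) (P (nat_lit 5134246787648)))))) (T.h (P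 (nat_lit 0)) (T.h (T.h (M (nat_lit 45443914389543452671)) (T.h (P (nat_lit 0)) (P (nat_lit 665330991811392)))) (T.h (P (nat_lit 0)) (P (nat_lit 9606960604224)))))) (T.h (T.h (P (nat_lit 0)) (T.h (T.h (P (nat_lit 0)) (M (nat_lit 287444550435340287))) (P (nat_lit 0)))) (T.h (T.h (T.h (M (nat_lit 23550887282186649599)) (T.h (P (nat_lit 0)) (P (nat_lit 139694028686272)))) (T.h (P (nat_lit 0)) (M (nat_lit 466928359457407)))) (T.h (P (nat_lit 0)) (P (nat_lit 15993966832384))))))))]
def lP12_16 : List (T ℤ) := [(T.h (T.h (T.h (P (nat_lit 0)) (T.h (P (nat_lit 38654651469590484565549383680)) (T.h (P (nat_lit 0)) (T.h (P (nat_lit 75429900119833793527808)) (T.h (P (nat_lit 0)) (P (nat_lit 84372272904028160))))))) (T.h (P (nat_lit 0)) (T.h (T.h (P (nat_lit 0)) (T.h (P (nat_lit 254371583437503744442368)) (T.h (P (nat_lit 0)) (M (nat_lit 1732861195147624447))))) (T.h (P (nat_lit 0)) (T.h (T.h (P (nat_lit 0)) (M (nat_lit 863332651526553599))) (P (nat_lit 0)))))))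 (T.h (T.h (P (nat_lit 0)) (T.h (T.h (M (nat_lit 82005352132504340645543935)) (T.h (P (nat_lit 0)) (T.h (P (nat_lit 6781948296333099008)) (T.h (P (nat_lit 0)) (P (nat_lit 56095130371632)))))) (T.h (P (nat_lit 0)) (T.h (T.h (P (nat_lit 7255255734206595072)) (T.h (P (nat_lit 0)) (M (nat_lit 150609851272495)))) (T.h (P (nat_lit 0)) (P (nat_lit 128431816472960))))))) (T.h (T.h (T.h (P (nat_lit 0)) (T.h (M (nat_lit 398869698903503942975487)) (T.h (P (nat_lit 0)) (M (nat_lit 103527097765298175))))) (T.h (P (nat_lit 0)) (T.h (T.h (P (nat_lit 0)) (P (nat_lit 605362602800644096))) (P (nat_lit 0))))) (T.h (T.h (P (nat_lit 0)) (T.h (T.h (P (nat_lit 40354807243362795520)) (T.h (P (nat_lit 0)) (M (nat_lit 625848463900175)))) (T.h (P (nat_lit 0)) (M (nat_lit 126198014860367))))) (T.h (T.h (T.h (P (nat_lit 0)) (P (nat_lit 77592608275103744))) (P (nat_lit 0))) (T.h (T.h (P (nat_lit 0)) (M (nat_lit 171358582288431))) (P (nat_lit 0)))))))), (T.h (T.h (T.h (P (nat_lit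 19911686985342792395777992818688)) (T.h (P (nat_lit 0)) (T.h (M (nat_lit 66216282854357790449729535)) (T.h (P (nat_lit 0)) (P (nat_lit 89483072378851295232)))))) (T.h (P (nat_lit 0)) (T.h (T.h (M (nat_lit 66216282854357790449729535)) (T.h (P (nat_lit 0)) (P (nat_lit 1204606997567086002176)))) (T.h (P (nat_lit 0)) (P (nat_lit 89483072378851295232)))))) (T.h (T.h (P (nat_lit 0)) (T.h (T.h (P (nat_lit 0)) (T.h (M (nat_lit 678210062349546654007295)) (T.h (P (nat_lit 0)) (M (nat_lit 180562133041676287))))) (T.h (P (nat_lit 0)) (T.h (T.h (P (nat_lit 0)) (M (nat_lit 180562133041676287))) (P (nat_lit 0)))))) (T.h (T.h (T.h (P (nat_lit 29866378528940360116207616)) (T.h (P (nat_lit 0)) (M (nat_lit 153817068035633053695)))) (T.h (P (nat_lit 0)) (M (nat_lit 153817068035633053695)))) (T.h (T.h (P (nat_lit 0)) (T.h (T.h (P (nat_lit 0)) (P (nat_lit 642979739907260416))) (P (nat_lit 0)))) (P (nat_lit 42188510695096582144)))))), (P (nat_lit 0)), (T.h (T.h (P (nat_lit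 0)) (T.h (T.h (P (nat_lit 0)) (T.h (P (nat_lit 19332935593951336454946816)) (T.h (P (nat_lit 0)) (T.h (P (nat_lit 23112981758911447040)) (T.h (P (nat_lit 0)) (P (nat_lit 741396664928))))))) (T.h (P (nat_lit 0)) (T.h (T.h (P (nat_lit 0)) (T.h (P (nat_lit 46551256201590472704)) (T.h (P (nat_lit 0)) (M (nat_lit 103217584718367))))) (T.h (P (nat_lit 0)) (T.h (T.h (P (nat_lit 0)) (P (nat_lit 702978022987296))) (P (nat_lit 0)))))))) (T.h (T.h (T.h (P (nat_lit 13071161762673440767275433984)) (T.h (P (nat_lit 0)) (T.h (P (nat_lit 9775986957007970107392)) (T.h (P (nat_lit 0)) (P (nat_lit 1704117821964288)))))) (T.h (P (nat_lit 0)) (T.h (T.h (M (nat_lit 19006160098902656679935)) (T.h (P (nat_lit 0)) (M (nat_lit 59140324211294207)))) (T.h (P (nat_lit 0)) (M (nat_lit 174802119803011071)))))) (T.h (T.h (P (nat_lit 0)) (T.h (T.h (P (nat_lit 0)) (T.h (M (nat_lit 25402305556716191743)) (T.h (P (nat_lit 0)) (P (nat_lit 23961825516480))))) (T.h (P (nat_lit 0)) (T.h (T.h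 (P (nat_lit 0)) (P (nat_lit 46787817477600))) (P (nat_lit 0)))))) (T.h (T.h (T.h (M (nat_lit 3862433004999571144703)) (T.h (P (nat_lit 0)) (M (nat_lit 3781501453205503)))) (T.h (P (nat_lit 0)) (M (nat_lit 56539456355434495)))) (T.h (T.h (P (nat_lit 0)) (T.h (T.h (P (nat_lit 0)) (M (nat_lit 32677065777823))) (P (nat_lit 0)))) (M (nat_lit 11824119324475391))))))), (T.h (T.h (P (nat_lit 0)) (T.h (T.h (M (nat_lit 10568642270593862374394953727)) (T.h (P (nat_lit 0)) (T.h (P (nat_lit 8179832511665811750912)) (T.h (P (nat_lit 0)) (P (nat_lit 42281017820037120)))))) (T.h (P (nat_lit 0)) (T.h (T.h (P (nat_lit 140262297202309164171264)) (T.h (P (nat_lit 0)) (P (nat_lit 126396749802356736)))) (T.h (P (nat_lit 0)) (M (nat_lit 263332630997860351))))))) (T.h (T.h (T.h (P (nat_lit 0)) (T.h (P (nat_lit 11439208824090017958723584)) (T.h (P (nat_lit 0)) (T.h (M (nat_lit 25606197467787821055)) (T.h (P (nat_lit 0)) (M (nat_lit 9359451847407))))))) (T.h (P (nat_lit 0))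 (T.h (T.h (P (nat_lit 0)) (T.h (P (nat_lit 167073992415295569920)) (T.h (P (nat_lit 0)) (P (nat_lit 13668783183072))))) (T.h (P (nat_lit 0)) (T.h (T.h (P (nat_lit 0)) (M (nat_lit 216448194887871))) (P (nat_lit 0))))))) (T.h (T.h (P (nat_lit 0)) (T.h (T.h (P (nat_lit 8179832511665811750912)) (T.h (P (nat_lit 0)) (M (nat_lit 83790289926193151)))) (T.h (P (nat_lit 0)) (P (nat_lit 126396749802356736))))) (T.h (T.h (T.h (P (nat_lit 0)) (T.h (M (nat_lit 25606197467787821055)) (T.h (P (nat_lit 0)) (M (nat_lit 9080975901567))))) (T.h (P (nat_lit 0)) (T.h (T.h (P (nat_lit 0)) (P (nat_lit 13668783183072))) (P (nat_lit 0))))) (T.h (T.h (P (nat_lit 0)) (P (nat_lit 42281017820037120))) (T.h (T.h (T.h (P (nat_lit 0)) (M (nat_lit 9359451847407))) (P (nat_lit 0))) (P (nat_lit 0)))))))), (T.h (T.h (P (nat_lit 0)) (T.h (T.h (P (nat_lit 0)) (T.h (M (nat_lit 8118101888170637964345343)) (T.h (P (nat_lit 0)) (T.h (P (nat_lit 25439439781948817408)) (T.h (P (nat_lit 0)) (M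 (nat_lit 34559719305663))))))) (T.h (P (nat_lit 0)) (T.h (T.h (P (nat_lit 0)) (T.h (M (nat_lit 979244457804982910975)) (T.h (P (nat_lit 0)) (M (nat_lit 569304909624511))))) (T.h (P (nat_lit 0)) (T.h (T.h (P (nat_lit 0)) (M (nat_lit 40638326489599))) (P (nat_lit 0)))))))) (T.h (T.h (T.h (P (nat_lit 45253935811179147414015574016)) (T.h (P (nat_lit 0)) (T.h (M (nat_lit 78906838468771547447295)) (T.h (P (nat_lit 0)) (P (nat_lit 154532991232933888)))))) (T.h (P (nat_lit 0)) (T.h (T.h (P (nat_lit 84320825044945537597440)) (T.h (P (nat_lit 0)) (M (nat_lit 135815760719904767)))) (T.h (P (nat_lit 0)) (P (nat_lit 95721666362736640)))))) (T.h (T.h (P (nat_lit 0)) (T.h (T.h (P (nat_lit 0)) (T.h (P (nat_lit 91561534716859383808)) (T.h (P (nat_lit 0)) (P (nat_lit 16402866389632))))) (T.h (P (nat_lit 0)) (T.h (T.h (P (nat_lit 0)) (M (nat_lit 353210867934847))) (P (nat_lit 0)))))) (T.h (T.h (T.h (M (nat_lit 124965454498465155383295)) (T.h (P (nat_lit 0)) (P (nat_lit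 59901287622311936)))) (T.h (P (nat_lit 0)) (P (nat_lit 243062550252945408)))) (T.h (T.h (P (nat_lit 0)) (T.h (T.h (P (nat_lit 0)) (M (nat_lit 35758438672831))) (P (nat_lit 0)))) (P (nat_lit 58106136902205440))))))), (T.h (T.h (P (nat_lit 0)) (T.h (T.h (P (nat_lit 17704389529118597248316342272)) (T.h (P (nat_lit 0)) (T.h (M (nat_lit 89931286064732739469311)) (T.h (P (nat_lit 0)) (M (nat_lit 637775820071223295)))))) (T.h (P (nat_lit 0)) (T.h (T.h (M (nat_lit 80612603565561887064063)) (T.h (P (nat_lit 0)) (M (nat_lit 315189760276332543)))) (T.h (P (nat_lit 0)) (P (nat_lit 552199261127180288))))))) (T.h (T.h (T.h (P (nat_lit 0)) (T.h (P (nat_lit 90555554163492652484395008)) (T.h (P (nat_lit 0)) (T.h (M (nat_lit 71140088274038554623)) (T.h (P (nat_lit 0)) (P (nat_lit 172986961464416))))))) (T.h (P (nat_lit 0)) (T.h (T.h (P (nat_lit 0)) (T.h (P (nat_lit 38138849773442039808)) (T.h (P (nat_lit 0)) (P (nat_lit 361794974546192))))) (T.h (P (nat_lit 0)) (T.h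 (T.h (P (nat_lit 0)) (P (nat_lit 1882318035580224))) (P (nat_lit 0))))))) (T.h (T.h (P (nat_lit 0)) (T.h (T.h (P (nat_lit 179029490075745973698560)) (T.h (P (nat_lit 0)) (M (nat_lit 271088118705799167)))) (T.h (P (nat_lit 0)) (P (nat_lit 261691826528878592))))) (T.h (T.h (T.h (P (nat_lit 0)) (T.h (P (nat_lit 14186840661470216192)) (T.h (P (nat_lit 0)) (M (nat_lit 25054827595247))))) (T.h (P (nat_lit 0)) (T.h (T.h (P (nat_lit 0)) (P (nat_lit 130585546475472))) (P (nat_lit 0))))) (T.h (T.h (P (nat_lit 0)) (P (nat_lit 328597930403921920))) (T.h (T.h (T.h (P (nat_lit 0)) (P (nat_lit 110851673169776))) (P (nat_lit 0))) (P (nat_lit 0)))))))), (T.h (T.h (P (nat_lit 0)) (T.h (T.h (P (nat_lit 0)) (T.h (P (nat_lit 178450648329772352166428672)) (T.h (P (nat_lit 0)) (P (nat_lit 312703088898592473088))))) (T.h (P (nat_lit 0)) (T.h (T.h (P (nat_lit 0)) (P (nat_lit 468182160841962946560))) (P (nat_lit 0)))))) (T.h (T.h (T.h (P (nat_lit 12264306295860865433992167424))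 (T.h (P (nat_lit 0)) (T.h (M (nat_lit 126715159606584970051583)) (T.h (P (nat_lit 0)) (M (nat_lit 250273072803250175)))))) (T.h (P (nat_lit 0)) (T.h (T.h (P (nat_lit 72151306072020993703936)) (T.h (P (nat_lit 0)) (P (nat_lit 329315656024653824)))) (T.h (P (nat_lit 0)) (M (nat_lit 353876310217654271)))))) (T.h (T.h (P (nat_lit 0)) (T.h (T.h (P (nat_lit 0)) (M (nat_lit 632434394254251393023))) (P (nat_lit 0)))) (T.h (T.h (T.h (M (nat_lit 38351697694890571857919)) (T.h (P (nat_lit 0)) (P (nat_lit 95609950710071296)))) (T.h (P (nat_lit 0)) (P (nat_lit 12011030252027904)))) (T.h (P (nat_lit 0)) (P (nat_lit 22986133075853312)))))))]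
def lP12_17 : List (T ℤ) := [(T.h (T.h (T.h (P (nat_lit 648510499834292230905124618240)) (T.h (P (nat_lit 0)) (T.h (M (nat_lit 267778688070692003381247)) (T.h (P (nat_lit 0)) (T.h (M (nat_lit 2121261778112348159)) (T.h (P (nat_lit 0)) (P (nat_lit 820828886128)))))))) (T.h (P (nat_lit 0)) (T.h (T.h (P (nat_lit 9397805998054045143531520)) (T.h (P (nat_lit 0)) (T.h (P (nat_lit 7819433302292430848)) (T.h (P (nat_lit 0)) (M (nat_lit 524447126519)))))) (T.h (P (nat_lit 0)) (T.h (T.h (P (nat_lit 18967275497743974400)) (T.h (P (nat_lit 0)) (P (nat_lit 16812754214848)))) (T.h (P (nat_lit 0)) (P (nat_lit 35493879275440)))))))) (T.h (T.h (P (nat_lit 0)) (T.h (T.h (P (nat_lit 0)) (T.h (P (nat_lit 3710911782576434708480)) (T.h (P (nat_lit 0)) (M (nat_lit 4069514409377791))))) (T.h (P (nat_lit 0)) (T.h (T.h (P (nat_lit 0)) (M (nat_lit 29454675766411263))) (P (nat_lit 0)))))) (T.h (T.h (T.h (M (nat_lit 267778688070692003381247)) (T.h (P (nat_lit 0)) (T.h (P (nat_lit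 1042001163668422656)) (T.h (P (nat_lit 0)) (P (nat_lit 2428410595568)))))) (T.h (P (nat_lit 0)) (T.h (T.h (P (nat_lit 7819433302292430848)) (T.h (P (nat_lit 0)) (P (nat_lit 4265017863600)))) (T.h (P (nat_lit 0)) (P (nat_lit 16812754214848)))))) (T.h (T.h (P (nat_lit 0)) (T.h (T.h (P (nat_lit 0)) (M (nat_lit 4069514409377791))) (P (nat_lit 0)))) (T.h (T.h (T.h (M (nat_lit 2121261778112348159)) (T.h (P (nat_lit 0)) (P (nat_lit 2428410595568)))) (T.h (P (nat_lit 0)) (M (nat_lit 524447126519)))) (T.h (P (nat_lit 0)) (P (nat_lit 820828886128)))))))), (T.h (T.h (T.h (P (nat_lit 0)) (T.h (P (nat_lit 825243808494547520458850304)) (T.h (P (nat_lit 0)) (T.h (P (nat_lit 452590592553853648896)) (T.h (P (nat_lit 0)) (P (nat_lit 2367037161553920))))))) (T.h (P (nat_lit 0)) (T.h (T.h (P (nat_lit 0)) (T.h (M (nat_lit 26344594233526511992831)) (T.h (P (nat_lit 0)) (M (nat_lit 39437525538734079))))) (T.h (P (nat_lit 0)) (T.h (T.h (P (nat_lit 0)) (M (nat_lit 391640158868422655)))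 (P (nat_lit 0))))))) (T.h (T.h (P (nat_lit 0)) (T.h (T.h (M (nat_lit 3746786908111961168281599)) (T.h (P (nat_lit 0)) (T.h (P (nat_lit 6725667058576523264)) (T.h (P (nat_lit 0)) (M (nat_lit 14115448294655)))))) (T.h (P (nat_lit 0)) (T.h (T.h (P (nat_lit 150605351395472179200)) (T.h (P (nat_lit 0)) (P (nat_lit 20853968390928)))) (T.h (P (nat_lit 0)) (P (nat_lit 126624751875824))))))) (T.h (T.h (T.h (P (nat_lit 0)) (T.h (M (nat_lit 4538456619322401882111)) (T.h (P (nat_lit 0)) (M (nat_lit 18297077188886527))))) (T.h (P (nat_lit 0)) (T.h (T.h (P (nat_lit 0)) (M (nat_lit 9636131581935615))) (P (nat_lit 0))))) (T.h (T.h (P (nat_lit 0)) (T.h (T.h (P (nat_lit 21421683604952449024)) (T.h (P (nat_lit 0)) (M (nat_lit 4256921589567)))) (T.h (P (nat_lit 0)) (M (nat_lit 29896136530671))))) (T.h (T.h (T.h (P (nat_lit 0)) (P (nat_lit 1673160524251136))) (P (nat_lit 0))) (T.h (T.h (P (nat_lit 0)) (P (nat_lit 7351350546784))) (P (nat_lit 0)))))))), (T.h (T.h (T.h (M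 (nat_lit 2694971324786812428829061021695)) (T.h (P (nat_lit 0)) (T.h (M (nat_lit 27780269874526564126818303)) (T.h (P (nat_lit 0)) (T.h (M (nat_lit 11916932928107446271)) (T.h (P (nat_lit 0)) (M (nat_lit 33585842871871)))))))) (T.h (P (nat_lit 0)) (T.h (T.h (M (nat_lit 111363929836749729390657535)) (T.h (P (nat_lit 0)) (T.h (M (nat_lit 167835051622190284799)) (T.h (P (nat_lit 0)) (P (nat_lit 87479027713152)))))) (T.h (P (nat_lit 0)) (T.h (T.h (P (nat_lit 46910088153439141888)) (T.h (P (nat_lit 0)) (P (nat_lit 25220496191936)))) (T.h (P (nat_lit 0)) (M (nat_lit 259896371934719)))))))) (T.h (T.h (P (nat_lit 0)) (T.h (T.h (P (nat_lit 0)) (T.h (M (nat_lit 6738496892893524918271)) (T.h (P (nat_lit 0)) (P (nat_lit 3202358644506624))))) (T.h (P (nat_lit 0)) (T.h (T.h (P (nat_lit 0)) (P (nat_lit 706515807330369536))) (P (nat_lit 0)))))) (T.h (T.h (T.h (M (nat_lit 8915960827638293307850751)) (T.h (P (nat_lit 0)) (T.h (M (nat_lit 31135693667521527807)) (T.h (P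 (nat_lit 0)) (M (nat_lit 49145268336255)))))) (T.h (P (nat_lit 0)) (T.h (T.h (M (nat_lit 225419670460504735743)) (T.h (P (nat_lit 0)) (M (nat_lit 190117580289279)))) (T.h (P (nat_lit 0)) (P (nat_lit 25220496191936)))))) (T.h (T.h (P (nat_lit 0)) (T.h (T.h (P (nat_lit 0)) (M (nat_lit 34731807398428671))) (P (nat_lit 0)))) (T.h (T.h (T.h (P (nat_lit 22971813830544326656)) (T.h (P (nat_lit 0)) (M (nat_lit 49145268336255)))) (T.h (P (nat_lit 0)) (P (nat_lit 87479027713152)))) (T.h (P (nat_lit 0)) (M (nat_lit 33585842871871)))))))), (T.h (T.h (T.h (P (nat_lit 0)) (T.h (P (nat_lit 22056385171391749620211122176)) (T.h (P (nat_lit 0)) (T.h (M (nat_lit 61689989667755156045823)) (T.h (P (nat_lit 0)) (P (nat_lit 96786791661895680))))))) (T.h (P (nat_lit 0)) (T.h (T.h (P (nat_lit 0)) (T.h (M (nat_lit 25702737167881122873343)) (T.h (P (nat_lit 0)) (P (nat_lit 327098498796929024))))) (T.h (P (nat_lit 0)) (T.h (T.h (P (nat_lit 0)) (M (nat_lit 2349252942460698623)))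 (P (nat_lit 0))))))) (T.h (T.h (P (nat_lit 0)) (T.h (T.h (P (nat_lit 52630575178557683830620160)) (T.h (P (nat_lit 0)) (T.h (P (nat_lit 112460165131284774912)) (T.h (P (nat_lit 0)) (P (nat_lit 53051936705152)))))) (T.h (P (nat_lit 0)) (T.h (T.h (P (nat_lit 246123919164382904320)) (T.h (P (nat_lit 0)) (P (nat_lit 357255833203280)))) (T.h (P (nat_lit 0)) (P (nat_lit 323965957366480))))))) (T.h (T.h (T.h (P (nat_lit 0)) (T.h (P (nat_lit 24522684844148118257664)) (T.h (P (nat_lit 0)) (P (nat_lit 61005692873162752))))) (T.h (P (nat_lit 0)) (T.h (T.h (P (nat_lit 0)) (P (nat_lit 209679305862021120))) (P (nat_lit 0))))) (T.h (T.h (P (nat_lit 0)) (T.h (T.h (P (nat_lit 30487834188759171072)) (T.h (P (nat_lit 0)) (M (nat_lit 58086204154527)))) (T.h (P (nat_lit 0)) (P (nat_lit 186187917737008))))) (T.h (T.h (T.h (P (nat_lit 0)) (P (nat_lit 99933179538800640))) (P (nat_lit 0))) (T.h (T.h (P (nat_lit 0)) (P (nat_lit 56760557853824))) (P (nat_lit 0)))))))), (T.h (T.h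 (T.h (M (nat_lit 16610131237050969157222881296383)) (T.h (P (nat_lit 0)) (T.h (P (nat_lit 78577746382943512002822144)) (T.h (P (nat_lit 0)) (M (nat_lit 44363430733904084991)))))) (T.h (P (nat_lit 0)) (T.h (T.h (M (nat_lit 23126752110161750401220607)) (T.h (P (nat_lit 0)) (P (nat_lit 254876444120481529856)))) (T.h (P (nat_lit 0)) (P (nat_lit 118912105825926381568)))))) (T.h (T.h (P (nat_lit 0)) (T.h (T.h (P (nat_lit 0)) (T.h (P (nat_lit 170774383045035088150528)) (T.h (P (nat_lit 0)) (M (nat_lit 116902649026969599))))) (T.h (P (nat_lit 0)) (T.h (T.h (P (nat_lit 0)) (M (nat_lit 1474979290622656511))) (P (nat_lit 0)))))) (T.h (T.h (T.h (M (nat_lit 12159185391653889647837183)) (T.h (P (nat_lit 0)) (M (nat_lit 26916983604714143743)))) (T.h (P (nat_lit 0)) (M (nat_lit 12886189783738482687)))) (T.h (T.h (P (nat_lit 0)) (T.h (T.h (P (nat_lit 0)) (P (nat_lit 7959988333117440))) (P (nat_lit 0)))) (M (nat_lit 8542965040104341503)))))), (P (nat_lit 0)), (T.h (T.h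 (P (nat_lit 0)) (T.h (T.h (P (nat_lit 0)) (T.h (P (nat_lit 8788571713592715865227264)) (T.h (P (nat_lit 0)) (T.h (P (nat_lit 32178743285991342080)) (T.h (P (nat_lit 0)) (P (nat_lit 5360624420992))))))) (T.h (P (nat_lit 0)) (T.h (T.h (P (nat_lit 0)) (T.h (P (nat_lit 115210426436351426560)) (T.h (P (nat_lit 0)) (P (nat_lit 62827191098304))))) (T.h (P (nat_lit 0)) (T.h (T.h (P (nat_lit 0)) (M (nat_lit 519960225386687))) (P (nat_lit 0)))))))) (T.h (T.h (T.h (M (nat_lit 5663016986882203131215609855)) (T.h (P (nat_lit 0)) (T.h (M (nat_lit 5355392879700423475199)) (T.h (P (nat_lit 0)) (M (nat_lit 24144562736136191)))))) (T.h (P (nat_lit 0)) (T.h (T.h (P (nat_lit 100301875757134123106304)) (T.h (P (nat_lit 0)) (M (nat_lit 73527978861330431)))) (T.h (P (nat_lit 0)) (M (nat_lit 513761173719777279)))))) (T.h (T.h (P (nat_lit 0)) (T.h (T.h (P (nat_lit 0)) (T.h (M (nat_lit 54383589208778342399)) (T.h (P (nat_lit 0)) (M (nat_lit 8555555049535))))) (T.h (P (nat_lit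 0)) (T.h (T.h (P (nat_lit 0)) (M (nat_lit 50830335485887))) (P (nat_lit 0)))))) (T.h (T.h (T.h (M (nat_lit 263220801103435137023)) (T.h (P (nat_lit 0)) (M (nat_lit 7495516092727295)))) (T.h (P (nat_lit 0)) (M (nat_lit 93226215672709119)))) (T.h (T.h (P (nat_lit 0)) (T.h (T.h (P (nat_lit 0)) (P (nat_lit 30400262961600))) (P (nat_lit 0)))) (P (nat_lit 14923526352732160))))))), (T.h (T.h (P (nat_lit 0)) (T.h (T.h (P (nat_lit 17659136188694529823951814656)) (T.h (P (nat_lit 0)) (T.h (P (nat_lit 39795335775124061159424)) (T.h (P (nat_lit 0)) (M (nat_lit 99868825715032063)))))) (T.h (P (nat_lit 0)) (T.h (T.h (P (nat_lit 73861470267005309288448)) (T.h (P (nat_lit 0)) (M (nat_lit 78670430591942655)))) (T.h (P (nat_lit 0)) (P (nat_lit 598338107407433728))))))) (T.h (T.h (T.h (P (nat_lit 0)) (T.h (P (nat_lit 12728157364842137498157056)) (T.h (P (nat_lit 0)) (T.h (M (nat_lit 15539825767377534975)) (T.h (P (nat_lit 0)) (M (nat_lit 53103933012239))))))) (T.h (P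 (nat_lit 0)) (T.h (T.h (P (nat_lit 0)) (T.h (M (nat_lit 303699369560303992831)) (T.h (P (nat_lit 0)) (M (nat_lit 232315348433871))))) (T.h (P (nat_lit 0)) (T.h (T.h (P (nat_lit 0)) (M (nat_lit 170370273170943))) (P (nat_lit 0))))))) (T.h (T.h (P (nat_lit 0)) (T.h (T.h (P (nat_lit 39795335775124061159424)) (T.h (P (nat_lit 0)) (P (nat_lit 10397342753980416)))) (T.h (P (nat_lit 0)) (M (nat_lit 78670430591942655))))) (T.h (T.h (T.h (P (nat_lit 0)) (T.h (M (nat_lit 15539825767377534975)) (T.h (P (nat_lit 0)) (P (nat_lit 1364867077376))))) (T.h (P (nat_lit 0)) (T.h (T.h (P (nat_lit 0)) (M (nat_lit 232315348433871))) (P (nat_lit 0))))) (T.h (T.h (P (nat_lit 0)) (M (nat_lit 99868825715032063))) (T.h (T.h (T.h (P (nat_lit 0)) (M (nat_lit 53103933012239))) (P (nat_lit 0))) (P (nat_lit 0))))))))]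
def lP12_18 : List (T ℤ) := [(T.h (T.h (P (nat_lit 0)) (T.h (T.h (P (nat_lit 0)) (T.h (M (nat_lit 59607409781330600397897727)) (T.h (P (nat_lit 0)) (P (nat_lit 18434105099233001472))))) (T.h (P (nat_lit 0)) (T.h (T.h (P (nat_lit 0)) (P (nat_lit 1752441552205047136256))) (P (nat_lit 0)))))) (T.h (T.h (T.h (M (nat_lit 3852606373610495334007439359)) (T.h (P (nat_lit 0)) (T.h (P (nat_lit 6837357369292922814464)) (T.h (P (nat_lit 0)) (P (nat_lit 59169193778446336)))))) (T.h (P (nat_lit 0)) (T.h (T.h (M (nat_lit 245447685447027747979263)) (T.h (P (nat_lit 0)) (M (nat_lit 110716026291683327)))) (T.h (P (nat_lit 0)) (M (nat_lit 282237081034981375)))))) (T.h (T.h (P (nat_lit 0)) (T.h (T.h (P (nat_lit 0)) (P (nat_lit 114307951635558563840))) (P (nat_lit 0)))) (T.h (T.h (T.h (P (nat_lit 22505124835361908850688)) (T.h (P (nat_lit 0)) (P (nat_lit 46638150502907904)))) (T.h (P (nat_lit 0)) (M (nat_lit 47461522852282367)))) (T.h (P (nat_lit 0)) (M (nat_lit 4950061242613759))))))),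 (T.h (T.h (T.h (P (nat_lit 299487344408859537278607818752)) (T.h (P (nat_lit 0)) (T.h (M (nat_lit 496693414538202608304127)) (T.h (P (nat_lit 0)) (M (nat_lit 961920014925955071)))))) (T.h (P (nat_lit 0)) (T.h (T.h (P (nat_lit 911040014092211238993920)) (T.h (P (nat_lit 0)) (P (nat_lit 33993245327292891136)))) (T.h (P (nat_lit 0)) (M (nat_lit 37474069336190615551)))))) (T.h (T.h (P (nat_lit 0)) (T.h (T.h (P (nat_lit 0)) (T.h (P (nat_lit 10032721488330503487488)) (T.h (P (nat_lit 0)) (M (nat_lit 4188279631642623))))) (T.h (P (nat_lit 0)) (T.h (T.h (P (nat_lit 0)) (M (nat_lit 11587873473560575))) (P (nat_lit 0)))))) (T.h (T.h (T.h (M (nat_lit 496693414538202608304127)) (T.h (P (nat_lit 0)) (P (nat_lit 7541057376548290560)))) (T.h (P (nat_lit 0)) (P (nat_lit 33993245327292891136)))) (T.h (T.h (P (nat_lit 0)) (T.h (T.h (P (nat_lit 0)) (M (nat_lit 4188279631642623))) (P (nat_lit 0)))) (M (nat_lit 961920014925955071)))))), (T.h (T.h (T.h (P (nat_lit 0)) (T.h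 (P (nat_lit 994755837398416160144228352)) (T.h (P (nat_lit 0)) (T.h (P (nat_lit 1627259457768127463424)) (T.h (P (nat_lit 0)) (M (nat_lit 1438415993520127))))))) (T.h (P (nat_lit 0)) (T.h (T.h (P (nat_lit 0)) (T.h (P (nat_lit 62873011426048620888064)) (T.h (P (nat_lit 0)) (P (nat_lit 40138936817926144))))) (T.h (P (nat_lit 0)) (T.h (T.h (P (nat_lit 0)) (P (nat_lit 866541895063420928))) (P (nat_lit 0))))))) (T.h (T.h (P (nat_lit 0)) (T.h (T.h (P (nat_lit 20370376071632726442115072)) (T.h (P (nat_lit 0)) (T.h (M (nat_lit 52736164427403886591)) (T.h (P (nat_lit 0)) (P (nat_lit 37730281781984)))))) (T.h (P (nat_lit 0)) (T.h (T.h (M (nat_lit 74258750209269956607)) (T.h (P (nat_lit 0)) (M (nat_lit 64739948756207)))) (T.h (P (nat_lit 0)) (M (nat_lit 430642633814447))))))) (T.h (T.h (T.h (P (nat_lit 0)) (T.h (P (nat_lit 385848081155304194048)) (T.h (P (nat_lit 0)) (P (nat_lit 1901487044935680))))) (T.h (P (nat_lit 0)) (T.h (T.h (P (nat_lit 0)) (P (nat_lit 102840527015788544)))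 (P (nat_lit 0))))) (T.h (T.h (P (nat_lit 0)) (T.h (T.h (M (nat_lit 14468998367255986175)) (T.h (P (nat_lit 0)) (P (nat_lit 238877194160)))) (T.h (P (nat_lit 0)) (P (nat_lit 847315013424))))) (T.h (T.h (T.h (P (nat_lit 0)) (M (nat_lit 26168110165688319))) (P (nat_lit 0))) (T.h (T.h (P (nat_lit 0)) (M (nat_lit 6662556455103))) (P (nat_lit 0)))))))), (T.h (T.h (T.h (P (nat_lit 6680708591493659502204118106112)) (T.h (P (nat_lit 0)) (T.h (P (nat_lit 3152629237428887272554496)) (T.h (P (nat_lit 0)) (P (nat_lit 9809641144634572800)))))) (T.h (P (nat_lit 0)) (T.h (T.h (M (nat_lit 2149890956194024676917247)) (T.h (P (nat_lit 0)) (M (nat_lit 48278542870674145279)))) (T.h (P (nat_lit 0)) (M (nat_lit 8287550168841060351)))))) (T.h (T.h (P (nat_lit 0)) (T.h (T.h (P (nat_lit 0)) (T.h (M (nat_lit 65334891981411134210047)) (T.h (P (nat_lit 0)) (P (nat_lit 58318068894531584))))) (T.h (P (nat_lit 0)) (T.h (T.h (P (nat_lit 0)) (P (nat_lit 175092994366111744))) (P (nat_lit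 0)))))) (T.h (T.h (T.h (P (nat_lit 3152629237428887272554496)) (T.h (P (nat_lit 0)) (P (nat_lit 9895869601147781120)))) (T.h (P (nat_lit 0)) (M (nat_lit 48278542870674145279)))) (T.h (T.h (P (nat_lit 0)) (T.h (T.h (P (nat_lit 0)) (P (nat_lit 58318068894531584))) (P (nat_lit 0)))) (P (nat_lit 9809641144634572800)))))), (P (nat_lit 0)), (T.h (T.h (P (nat_lit 0)) (T.h (T.h (P (nat_lit 0)) (T.h (M (nat_lit 8685767576524368306503679)) (T.h (P (nat_lit 0)) (M (nat_lit 32111403715541336063))))) (T.h (P (nat_lit 0)) (T.h (T.h (P (nat_lit 0)) (M (nat_lit 126973145165437337599))) (P (nat_lit 0)))))) (T.h (T.h (T.h (M (nat_lit 3849283284899336926831575039)) (T.h (P (nat_lit 0)) (T.h (M (nat_lit 318127756473987497983)) (T.h (P (nat_lit 0)) (M (nat_lit 9836419181182975)))))) (T.h (P (nat_lit 0)) (T.h (T.h (M (nat_lit 7915433807328952975359)) (T.h (P (nat_lit 0)) (P (nat_lit 56882161005330432)))) (T.h (P (nat_lit 0)) (P (nat_lit 421785709203062784)))))) (T.h (T.h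 (P (nat_lit 0)) (T.h (T.h (P (nat_lit 0)) (M (nat_lit 21352153951422644223))) (P (nat_lit 0)))) (T.h (T.h (T.h (M (nat_lit 2169209033493156200447)) (T.h (P (nat_lit 0)) (M (nat_lit 5667928027332607)))) (T.h (P (nat_lit 0)) (M (nat_lit 9664805248008191)))) (T.h (P (nat_lit 0)) (P (nat_lit 411400681750528))))))), (P (nat_lit 0)), (P (nat_lit 0))]
def lP12_19 : List (T ℤ) := [(P (nat_lit 0)), (P (nat_lit 0)), (T.h (T.h (P (nat_lit 0)) (T.h (T.h (P (nat_lit 3649062629094570669799112704)) (T.h (P (nat_lit 0)) (T.h (P (nat_lit 992163586264950374400)) (T.h (P (nat_lit 0)) (M (nat_lit 6983695888580607)))))) (T.h (P (nat_lit 0)) (T.h (T.h (M (nat_lit 258964061077953839103)) (T.h (P (nat_lit 0)) (P (nat_lit 35294015552487424)))) (T.h (P (nat_lit 0)) (P (nat_lit 4254162820956160))))))) (T.h (T.h (T.h (P (nat_lit 0)) (T.h (P (nat_lit 11565367457890005793374208)) (T.h (P (nat_lit 0)) (T.h (M (nat_lit 15870783098141540351)) (T.h (P (nat_lit 0)) (M (nat_lit 373219217599351)))))))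 (T.h (P (nat_lit 0)) (T.h (T.h (P (nat_lit 0)) (T.h (P (nat_lit 2596962080376487936)) (T.h (P (nat_lit 0)) (M (nat_lit 88219891816015))))) (T.h (P (nat_lit 0)) (T.h (T.h (P (nat_lit 0)) (P (nat_lit 2057670044688))) (P (nat_lit 0))))))) (T.h (T.h (P (nat_lit 0)) (T.h (T.h (P (nat_lit 2165475288268054462464)) (T.h (P (nat_lit 0)) (P (nat_lit 72238931087392768)))) (T.h (P (nat_lit 0)) (P (nat_lit 7285678439464960))))) (T.h (T.h (T.h (P (nat_lit 0)) (T.h (P (nat_lit 7106108093892657152)) (T.h (P (nat_lit 0)) (P (nat_lit 1522944629136))))) (T.h (P (nat_lit 0)) (T.h (T.h (P (nat_lit 0)) (P (nat_lit 2715933883992))) (P (nat_lit 0))))) (T.h (T.h (P (nat_lit 0)) (M (nat_lit 9569694397825023))) (T.h (T.h (T.h (P (nat_lit 0)) (P (nat_lit 7980084234912))) (P (nat_lit 0))) (P (nat_lit 0)))))))), (P (nat_lit 0)), (T.h (T.h (P (nat_lit 0)) (T.h (T.h (M (nat_lit 1882863235110602186401251327)) (T.h (P (nat_lit 0)) (T.h (P (nat_lit 35555392972562500681728)) (T.h (P (nat_lit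 0)) (P (nat_lit 257575463700398080)))))) (T.h (P (nat_lit 0)) (T.h (T.h (P (nat_lit 1194549437046911401984)) (T.h (P (nat_lit 0)) (M (nat_lit 54223071898992639)))) (T.h (P (nat_lit 0)) (M (nat_lit 2304983058579455))))))) (T.h (T.h (T.h (P (nat_lit 0)) (T.h (P (nat_lit 5899014123501182892638208)) (T.h (P (nat_lit 0)) (P (nat_lit 145664511497142796288))))) (T.h (P (nat_lit 0)) (T.h (T.h (P (nat_lit 0)) (M (nat_lit 48526920699881717759))) (P (nat_lit 0))))) (T.h (T.h (P (nat_lit 0)) (T.h (T.h (M (nat_lit 5267182525265582489599)) (T.h (P (nat_lit 0)) (P (nat_lit 26232532882948096)))) (T.h (P (nat_lit 0)) (M (nat_lit 21870792650588159))))) (T.h (T.h (T.h (P (nat_lit 0)) (M (nat_lit 12492875247927689215))) (P (nat_lit 0))) (T.h (T.h (P (nat_lit 0)) (M (nat_lit 23860068554997759))) (P (nat_lit 0))))))), (P (nat_lit 0)), (P (nat_lit 0)), (P (nat_lit 0))]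
def lP12_20 : List (T ℤ) := [(P (nat_lit 0)), (T.h (T.h (T.h (P (nat_lit 0)) (T.h (M (nat_lit 2053770059227372152703418367)) (T.h (P (nat_lit 0)) (T.h (P (nat_lit 137957374097299825754112)) (T.h (P (nat_lit 0)) (M (nat_lit 32198804802240511))))))) (T.h (P (nat_lit 0)) (T.h (T.h (P (nat_lit 0)) (T.h (P (nat_lit 29587353799910813073408)) (T.h (P (nat_lit 0)) (M (nat_lit 229520958115610623))))) (T.h (P (nat_lit 0)) (T.h (T.h (P (nat_lit 0)) (M (nat_lit 3488276855980031))) (P (nat_lit 0))))))) (T.h (T.h (P (nat_lit 0)) (T.h (T.h (P (nat_lit 6143249289756674625634304)) (T.h (P (nat_lit 0)) (T.h (M (nat_lit 231524691204898815)) (T.h (P (nat_lit 0)) (P (nat_lit 246492409473440)))))) (T.h (P (nat_lit 0)) (T.h (T.h (M (nat_lit 22716939234223063039)) (T.h (P (nat_lit 0)) (M (nat_lit 147470949147775)))) (T.h (P (nat_lit 0)) (M (nat_lit 17010326725591))))))) (T.h (T.h (T.h (P (nat_lit 0)) (T.h (P (nat_lit 46823980390962633375744)) (T.h (P (nat_lit 0)) (M (nat_lit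 119438985292218367))))) (T.h (P (nat_lit 0)) (T.h (T.h (P (nat_lit 0)) (P (nat_lit 7144007440760832))) (P (nat_lit 0))))) (T.h (T.h (P (nat_lit 0)) (T.h (T.h (M (nat_lit 5524453750221045759)) (T.h (P (nat_lit 0)) (M (nat_lit 237358571121415)))) (T.h (P (nat_lit 0)) (P (nat_lit 42467752026544))))) (T.h (T.h (T.h (P (nat_lit 0)) (P (nat_lit 33269642974461952))) (P (nat_lit 0))) (T.h (T.h (P (nat_lit 0)) (P (nat_lit 30203638425104))) (P (nat_lit 0)))))))), (T.h (T.h (T.h (P (nat_lit 15172213786557349686731121623040)) (T.h (P (nat_lit 0)) (T.h (P (nat_lit 21374983709252717796917248)) (T.h (P (nat_lit 0)) (T.h (M (nat_lit 47365347442010619903)) (T.h (P (nat_lit 0)) (P (nat_lit 63359498543120)))))))) (T.h (P (nat_lit 0)) (T.h (T.h (M (nat_lit 1210949200232913911676927)) (T.h (P (nat_lit 0)) (T.h (P (nat_lit 104816937201435672576)) (T.h (P (nat_lit 0)) (P (nat_lit 65805890694080)))))) (T.h (P (nat_lit 0)) (T.h (T.h (M (nat_lit 1640313288946352127)) (T.h (P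 (nat_lit 0)) (M (nat_lit 27352561037247)))) (T.h (P (nat_lit 0)) (M (nat_lit 2258787755471)))))))) (T.h (T.h (P (nat_lit 0)) (T.h (T.h (P (nat_lit 0)) (T.h (P (nat_lit 2070260029915047919616)) (T.h (P (nat_lit 0)) (P (nat_lit 184625113980796928))))) (T.h (P (nat_lit 0)) (T.h (T.h (P (nat_lit 0)) (P (nat_lit 71083122527076352))) (P (nat_lit 0)))))) (T.h (T.h (T.h (M (nat_lit 18264153611699954183569407)) (T.h (P (nat_lit 0)) (T.h (M (nat_lit 32579711267497836543)) (T.h (P (nat_lit 0)) (P (nat_lit 439341944415168)))))) (T.h (P (nat_lit 0)) (T.h (T.h (M (nat_lit 1443524170846568447)) (T.h (P (nat_lit 0)) (M (nat_lit 2428238407215)))) (T.h (P (nat_lit 0)) (P (nat_lit 7778266412928)))))) (T.h (T.h (P (nat_lit 0)) (T.h (T.h (P (nat_lit 0)) (M (nat_lit 56295723824119807))) (P (nat_lit 0)))) (T.h (T.h (T.h (M (nat_lit 8776527609941983231)) (T.h (P (nat_lit 0)) (M (nat_lit 25450372979775)))) (T.h (P (nat_lit 0)) (P (nat_lit 7834943220656)))) (T.h (P (nat_lit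 0)) (P (nat_lit 7181325551792)))))))), (T.h (T.h (T.h (P (nat_lit 0)) (T.h (P (nat_lit 29626472539123649918546214912)) (T.h (P (nat_lit 0)) (T.h (P (nat_lit 114624316406438995951616)) (T.h (P (nat_lit 0)) (P (nat_lit 406318619204648960))))))) (T.h (P (nat_lit 0)) (T.h (T.h (P (nat_lit 0)) (T.h (M (nat_lit 43001802459388592521215)) (T.h (P (nat_lit 0)) (P (nat_lit 117706230388064256))))) (T.h (P (nat_lit 0)) (T.h (T.h (P (nat_lit 0)) (M (nat_lit 3665591229349887))) (P (nat_lit 0))))))) (T.h (T.h (P (nat_lit 0)) (T.h (T.h (P (nat_lit 25234779344860994926018560)) (T.h (P (nat_lit 0)) (T.h (P (nat_lit 134311577726461411328)) (T.h (P (nat_lit 0)) (M (nat_lit 46655458843455)))))) (T.h (P (nat_lit 0)) (T.h (T.h (M (nat_lit 711397696602111999)) (T.h (P (nat_lit 0)) (P (nat_lit 86144119924352)))) (T.h (P (nat_lit 0)) (M (nat_lit 13089198389183))))))) (T.h (T.h (T.h (P (nat_lit 0)) (T.h (M (nat_lit 113216597641278280171519)) (T.h (P (nat_lit 0)) (P (nat_lit 7345739859722240)))))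 (T.h (P (nat_lit 0)) (T.h (T.h (P (nat_lit 0)) (M (nat_lit 40874695931691007))) (P (nat_lit 0))))) (T.h (T.h (P (nat_lit 0)) (T.h (T.h (P (nat_lit 27057954572994609152)) (T.h (P (nat_lit 0)) (P (nat_lit 82499058864512)))) (T.h (P (nat_lit 0)) (M (nat_lit 52855227214911))))) (T.h (T.h (T.h (P (nat_lit 0)) (P (nat_lit 118971871495585792))) (P (nat_lit 0))) (T.h (T.h (P (nat_lit 0)) (M (nat_lit 26922678205119))) (P (nat_lit 0)))))))), (T.h (T.h (T.h (P (nat_lit 1125191178323626060599525376000)) (T.h (P (nat_lit 0)) (T.h (M (nat_lit 46278492287481778855215103)) (T.h (P (nat_lit 0)) (T.h (M (nat_lit 156129275264035192831)) (T.h (P (nat_lit 0)) (P (nat_lit 130481994932784)))))))) (T.h (P (nat_lit 0)) (T.h (T.h (P (nat_lit 5767003101391923837927424)) (T.h (P (nat_lit 0)) (T.h (M (nat_lit 217516683191390306303)) (T.h (P (nat_lit 0)) (P (nat_lit 33231154151888)))))) (T.h (P (nat_lit 0)) (T.h (T.h (P (nat_lit 2169328327335084032)) (T.h (P (nat_lit 0)) (M (nat_lit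 17832029004943)))) (T.h (P (nat_lit 0)) (P (nat_lit 3821769693456)))))))) (T.h (T.h (P (nat_lit 0)) (T.h (T.h (P (nat_lit 0)) (T.h (M (nat_lit 56440631814495246745599)) (T.h (P (nat_lit 0)) (P (nat_lit 297687919684386816))))) (T.h (P (nat_lit 0)) (T.h (T.h (P (nat_lit 0)) (M (nat_lit 115810020998676479))) (P (nat_lit 0)))))) (T.h (T.h (T.h (P (nat_lit 12526376508625760402014208)) (T.h (P (nat_lit 0)) (T.h (M (nat_lit 267369536469543682047)) (T.h (P (nat_lit 0)) (P (nat_lit 78162321228816)))))) (T.h (P (nat_lit 0)) (T.h (T.h (P (nat_lit 1877110365234397184)) (T.h (P (nat_lit 0)) (P (nat_lit 109922351265936)))) (T.h (P (nat_lit 0)) (M (nat_lit 49126568938831)))))) (T.h (T.h (P (nat_lit 0)) (T.h (T.h (P (nat_lit 0)) (M (nat_lit 11779929606979583))) (P (nat_lit 0)))) (T.h (T.h (T.h (M (nat_lit 9306149800544043007)) (T.h (P (nat_lit 0)) (P (nat_lit 129681242717312)))) (T.h (P (nat_lit 0)) (M (nat_lit 52667779269951)))) (T.h (P (nat_lit 0)) (P (nat_lit 1586148909312)))))))),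 (T.h (T.h (T.h (P (nat_lit 0)) (T.h (P (nat_lit 3166846873336167602856132608)) (T.h (P (nat_lit 0)) (T.h (M (nat_lit 14344602706940511911935)) (T.h (P (nat_lit 0)) (M (nat_lit 65582421789278207))))))) (T.h (P (nat_lit 0)) (T.h (T.h (P (nat_lit 0)) (T.h (P (nat_lit 35266817870928178839552)) (T.h (P (nat_lit 0)) (M (nat_lit 12694745432686591))))) (T.h (P (nat_lit 0)) (T.h (T.h (P (nat_lit 0)) (M (nat_lit 384693298659327))) (P (nat_lit 0))))))) (T.h (T.h (P (nat_lit 0)) (T.h (T.h (P (nat_lit 9767776142240778154934272)) (T.h (P (nat_lit 0)) (M (nat_lit 145672624222347722751)))) (T.h (P (nat_lit 0)) (P (nat_lit 11252920928419446784))))) (T.h (T.h (T.h (P (nat_lit 0)) (T.h (P (nat_lit 54548994911447583555584)) (T.h (P (nat_lit 0)) (M (nat_lit 58682876268085247))))) (T.h (P (nat_lit 0)) (T.h (T.h (P (nat_lit 0)) (M (nat_lit 41064510206017535))) (P (nat_lit 0))))) (T.h (T.h (P (nat_lit 0)) (M (nat_lit 181177798486917119))) (T.h (T.h (T.h (P (nat_lit 0)) (M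 (nat_lit 42086344733622271))) (P (nat_lit 0))) (P (nat_lit 0))))))), (P (nat_lit 0)), (P (nat_lit 0))]
def lP12_21 : List (T ℤ) := [(T.h (T.h (P (nat_lit 0)) (T.h (T.h (M (nat_lit 50161548713118004787671990271)) (T.h (P (nat_lit 0)) (T.h (P (nat_lit 132645773977933639057408)) (T.h (P (nat_lit 0)) (M (nat_lit 122724451818897407)))))) (T.h (P (nat_lit 0)) (T.h (T.h (P (nat_lit 113359713250688941162496)) (T.h (P (nat_lit 0)) (P (nat_lit 94427050311057408)))) (T.h (P (nat_lit 0)) (P (nat_lit 21373300337836032))))))) (T.h (T.h (T.h (P (nat_lit 0)) (T.h (M (nat_lit 65092573800115094492807167)) (T.h (P (nat_lit 0)) (T.h (M (nat_lit 341644973952494206975)) (T.h (P (nat_lit 0)) (P (nat_lit 204242779516192))))))) (T.h (P (nat_lit 0)) (T.h (T.h (P (nat_lit 0)) (T.h (P (nat_lit 26538948072266792960)) (T.h (P (nat_lit 0)) (P (nat_lit 1123745686337728))))) (T.h (P (nat_lit 0)) (T.h (T.h (P (nat_lit 0)) (M (nat_lit 307476399317143))) (P (nat_lit 0))))))) (T.h (T.h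 (P (nat_lit 0)) (T.h (T.h (M (nat_lit 32515933397799441268735)) (T.h (P (nat_lit 0)) (P (nat_lit 20789549340655616)))) (T.h (P (nat_lit 0)) (P (nat_lit 45419420617474048))))) (T.h (T.h (T.h (P (nat_lit 0)) (T.h (P (nat_lit 54187988168290074624)) (T.h (P (nat_lit 0)) (P (nat_lit 224333681619632))))) (T.h (P (nat_lit 0)) (T.h (T.h (P (nat_lit 0)) (M (nat_lit 102969432466463))) (P (nat_lit 0))))) (T.h (T.h (P (nat_lit 0)) (M (nat_lit 16466283338235903))) (T.h (T.h (T.h (P (nat_lit 0)) (M (nat_lit 16460288836575))) (P (nat_lit 0))) (P (nat_lit 0)))))))), (T.h (T.h (P (nat_lit 0)) (T.h (T.h (P (nat_lit 0)) (T.h (M (nat_lit 53146542248726677021523967)) (T.h (P (nat_lit 0)) (T.h (P (nat_lit 37051053167047868416)) (T.h (P (nat_lit 0)) (M (nat_lit 72084300084943))))))) (T.h (P (nat_lit 0)) (T.h (T.h (P (nat_lit 0)) (T.h (M (nat_lit 11548678206101913599)) (T.h (P (nat_lit 0)) (P (nat_lit 6711510549152))))) (T.h (P (nat_lit 0)) (T.h (T.h (P (nat_lit 0)) (M (nat_lit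 34652740068447))) (P (nat_lit 0)))))))) (T.h (T.h (T.h (P (nat_lit 14882683165086291058843713536)) (T.h (P (nat_lit 0)) (T.h (P (nat_lit 256807096225738805739520)) (T.h (P (nat_lit 0)) (P (nat_lit 1211095121471963136)))))) (T.h (P (nat_lit 0)) (T.h (T.h (M (nat_lit 18849529835447239311359)) (T.h (P (nat_lit 0)) (M (nat_lit 463891509779316735)))) (T.h (P (nat_lit 0)) (P (nat_lit 140018033237983232)))))) (T.h (T.h (P (nat_lit 0)) (T.h (T.h (P (nat_lit 0)) (T.h (M (nat_lit 75408516526748205055)) (T.h (P (nat_lit 0)) (M (nat_lit 75934935373951))))) (T.h (P (nat_lit 0)) (T.h (T.h (P (nat_lit 0)) (P (nat_lit 16557836531408))) (P (nat_lit 0)))))) (T.h (T.h (T.h (P (nat_lit 20929441631043701440512)) (T.h (P (nat_lit 0)) (M (nat_lit 446271242066706431)))) (T.h (P (nat_lit 0)) (P (nat_lit 102934913059225600)))) (T.h (T.h (P (nat_lit 0)) (T.h (T.h (P (nat_lit 0)) (P (nat_lit 4164924265456))) (P (nat_lit 0)))) (M (nat_lit 36176921370558463))))))), (T.h (T.h (P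 (nat_lit 0)) (T.h (T.h (P (nat_lit 37492422245209505776816619520)) (T.h (P (nat_lit 0)) (T.h (P (nat_lit 48167069287048338735104)) (T.h (P (nat_lit 0)) (P (nat_lit 1896217835678236672)))))) (T.h (P (nat_lit 0)) (T.h (T.h (M (nat_lit 172528910740346944618495)) (T.h (P (nat_lit 0)) (M (nat_lit 657499290933395455)))) (T.h (P (nat_lit 0)) (P (nat_lit 113105309375234048))))))) (T.h (T.h (T.h (P (nat_lit 0)) (T.h (P (nat_lit 110363003849040916956315648)) (T.h (P (nat_lit 0)) (T.h (M (nat_lit 1166113957762186608639)) (T.h (P (nat_lit 0)) (M (nat_lit 40638326489599))))))) (T.h (P (nat_lit 0)) (T.h (T.h (P (nat_lit 0)) (T.h (M (nat_lit 33401303638101458943)) (T.h (P (nat_lit 0)) (M (nat_lit 353210867934847))))) (T.h (P (nat_lit 0)) (T.h (T.h (P (nat_lit 0)) (M (nat_lit 35758438672831))) (P (nat_lit 0))))))) (T.h (T.h (P (nat_lit 0)) (T.h (T.h (M (nat_lit 20134058932178228609023)) (T.h (P (nat_lit 0)) (P (nat_lit 30565132138381312)))) (T.h (P (nat_lit 0)) (P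 (nat_lit 96608641274380288))))) (T.h (T.h (T.h (P (nat_lit 0)) (T.h (M (nat_lit 86420149792197836799)) (T.h (P (nat_lit 0)) (M (nat_lit 569304909624511))))) (T.h (P (nat_lit 0)) (T.h (T.h (P (nat_lit 0)) (P (nat_lit 16402866389632))) (P (nat_lit 0))))) (T.h (T.h (P (nat_lit 0)) (M (nat_lit 87730242047344639))) (T.h (T.h (T.h (P (nat_lit 0)) (M (nat_lit 34559719305663))) (P (nat_lit 0))) (P (nat_lit 0)))))))), (T.h (T.h (P (nat_lit 0)) (T.h (T.h (P (nat_lit 0)) (T.h (P (nat_lit 52630575178557683830620160)) (T.h (P (nat_lit 0)) (T.h (P (nat_lit 246123919164382904320)) (T.h (P (nat_lit 0)) (P (nat_lit 323965957366480))))))) (T.h (P (nat_lit 0)) (T.h (T.h (P (nat_lit 0)) (T.h (P (nat_lit 30487834188759171072)) (T.h (P (nat_lit 0)) (P (nat_lit 186187917737008))))) (T.h (P (nat_lit 0)) (T.h (T.h (P (nat_lit 0)) (P (nat_lit 56760557853824))) (P (nat_lit 0)))))))) (T.h (T.h (T.h (P (nat_lit 22056385171391749620211122176)) (T.h (P (nat_lit 0)) (T.h (M (nat_lit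 25702737167881122873343)) (T.h (P (nat_lit 0)) (M (nat_lit 2349252942460698623)))))) (T.h (P (nat_lit 0)) (T.h (T.h (P (nat_lit 24522684844148118257664)) (T.h (P (nat_lit 0)) (P (nat_lit 209679305862021120)))) (T.h (P (nat_lit 0)) (P (nat_lit 99933179538800640)))))) (T.h (T.h (P (nat_lit 0)) (T.h (T.h (P (nat_lit 0)) (T.h (P (nat_lit 112460165131284774912)) (T.h (P (nat_lit 0)) (P (nat_lit 357255833203280))))) (T.h (P (nat_lit 0)) (T.h (T.h (P (nat_lit 0)) (M (nat_lit 58086204154527))) (P (nat_lit 0)))))) (T.h (T.h (T.h (M (nat_lit 61689989667755156045823)) (T.h (P (nat_lit 0)) (P (nat_lit 327098498796929024)))) (T.h (P (nat_lit 0)) (P (nat_lit 61005692873162752)))) (T.h (T.h (P (nat_lit 0)) (T.h (T.h (P (nat_lit 0)) (P (nat_lit 53051936705152))) (P (nat_lit 0)))) (P (nat_lit 96786791661895680))))))), (T.h (T.h (P (nat_lit 0)) (T.h (T.h (M (nat_lit 3852606373610495334007439359)) (T.h (P (nat_lit 0)) (T.h (M (nat_lit 245447685447027747979263)) (T.h (P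 (nat_lit 0)) (M (nat_lit 282237081034981375)))))) (T.h (P (nat_lit 0)) (T.h (T.h (P (nat_lit 22505124835361908850688)) (T.h (P (nat_lit 0)) (M (nat_lit 47461522852282367)))) (T.h (P (nat_lit 0)) (M (nat_lit 4950061242613759))))))) (T.h (T.h (T.h (P (nat_lit 0)) (T.h (M (nat_lit 59607409781330600397897727)) (T.h (P (nat_lit 0)) (P (nat_lit 1752441552205047136256))))) (T.h (P (nat_lit 0)) (T.h (T.h (P (nat_lit 0)) (P (nat_lit 114307951635558563840))) (P (nat_lit 0))))) (T.h (T.h (P (nat_lit 0)) (T.h (T.h (P (nat_lit 6837357369292922814464)) (T.h (P (nat_lit 0)) (M (nat_lit 110716026291683327)))) (T.h (P (nat_lit 0)) (P (nat_lit 46638150502907904))))) (T.h (T.h (T.h (P (nat_lit 0)) (P (nat_lit 18434105099233001472))) (P (nat_lit 0))) (T.h (T.h (P (nat_lit 0)) (P (nat_lit 59169193778446336))) (P (nat_lit 0))))))), (P (nat_lit 0)), (P (nat_lit 0)), (T.h (T.h (T.h (P (nat_lit 0)) (T.h (P (nat_lit 11455780457925671627100520448)) (T.h (P (nat_lit 0)) (T.h (P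 (nat_lit 107666283065877576286208)) (T.h (P (nat_lit 0)) (P (nat_lit 59531573448343552))))))) (T.h (P (nat_lit 0)) (T.h (T.h (P (nat_lit 0)) (T.h (P (nat_lit 148792988394765477216256)) (T.h (P (nat_lit 0)) (P (nat_lit 550253486422065152))))) (T.h (P (nat_lit 0)) (T.h (T.h (P (nat_lit 0)) (P (nat_lit 213769565406527488))) (P (nat_lit 0))))))) (T.h (T.h (P (nat_lit 0)) (T.h (T.h (M (nat_lit 10495516269295690051485695)) (T.h (P (nat_lit 0)) (T.h (M (nat_lit 77111954338593374207)) (T.h (P (nat_lit 0)) (P (nat_lit 270973593692288)))))) (T.h (P (nat_lit 0)) (T.h (T.h (P (nat_lit 88502974496544653312)) (T.h (P (nat_lit 0)) (P (nat_lit 647951955638976)))) (T.h (P (nat_lit 0)) (P (nat_lit 143995841780376))))))) (T.h (T.h (T.h (P (nat_lit 0)) (T.h (M (nat_lit 39160019668693061468159)) (T.h (P (nat_lit 0)) (M (nat_lit 526695356970467327))))) (T.h (P (nat_lit 0)) (T.h (T.h (P (nat_lit 0)) (M (nat_lit 347369586090672127))) (P (nat_lit 0))))) (T.h (T.h (P (nat_lit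 0)) (T.h (T.h (M (nat_lit 1000945218830204927)) (T.h (P (nat_lit 0)) (M (nat_lit 367735172793831)))) (T.h (P (nat_lit 0)) (P (nat_lit 348511098690000))))) (T.h (T.h (T.h (P (nat_lit 0)) (M (nat_lit 45939925530476543))) (P (nat_lit 0))) (T.h (T.h (P (nat_lit 0)) (P (nat_lit 79181860901984))) (P (nat_lit 0))))))))]
def lP12_22 : List (T ℤ) := [(T.h (T.h (T.h (P (nat_lit 20591564652282124424821660975104)) (T.h (P (nat_lit 0)) (T.h (M (nat_lit 13176366779944124207333375)) (T.h (P (nat_lit 0)) (T.h (M (nat_lit 87351855949818101759)) (T.h (P (nat_lit 0)) (M (nat_lit 16207010583903)))))))) (T.h (P (nat_lit 0)) (T.h (T.h (P (nat_lit 64119266490653702373769216)) (T.h (P (nat_lit 0)) (T.h (P (nat_lit 248427145624222171136)) (T.h (P (nat_lit 0)) (M (nat_lit 59244869932431)))))) (T.h (P (nat_lit 0)) (T.h (T.h (M (nat_lit 55962895046749978623)) (T.h (P (nat_lit 0)) (M (nat_lit 155512376735103)))) (T.h (P (nat_lit 0)) (P (nat_lit 35204148183136)))))))) (T.h (T.h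 (P (nat_lit 0)) (T.h (T.h (P (nat_lit 0)) (T.h (M (nat_lit 149786591615585139818495)) (T.h (P (nat_lit 0)) (M (nat_lit 200704566874275839))))) (T.h (P (nat_lit 0)) (T.h (T.h (P (nat_lit 0)) (M (nat_lit 277527576046272511))) (P (nat_lit 0)))))) (T.h (T.h (T.h (P (nat_lit 64119266490653702373769216)) (T.h (P (nat_lit 0)) (T.h (P (nat_lit 248427145624222171136)) (T.h (P (nat_lit 0)) (M (nat_lit 59244869932431)))))) (T.h (P (nat_lit 0)) (T.h (T.h (P (nat_lit 72094231162706198528)) (T.h (P (nat_lit 0)) (P (nat_lit 158867203205152)))) (T.h (P (nat_lit 0)) (P (nat_lit 7477112616224)))))) (T.h (T.h (P (nat_lit 0)) (T.h (T.h (P (nat_lit 0)) (M (nat_lit 277527576046272511))) (P (nat_lit 0)))) (T.h (T.h (T.h (M (nat_lit 55962895046749978623)) (T.h (P (nat_lit 0)) (M (nat_lit 155512376735103)))) (T.h (P (nat_lit 0)) (P (nat_lit 7477112616224)))) (T.h (P (nat_lit 0)) (P (nat_lit 35204148183136)))))))), (T.h (T.h (T.h (P (nat_lit 0)) (T.h (P (nat_lit 1797382397355465615574302720))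 (T.h (P (nat_lit 0)) (T.h (M (nat_lit 850335530686892541476863)) (T.h (P (nat_lit 0)) (P (nat_lit 970478431772672000))))))) (T.h (P (nat_lit 0)) (T.h (T.h (P (nat_lit 0)) (T.h (M (nat_lit 360249129741827132358655)) (T.h (P (nat_lit 0)) (P (nat_lit 1467809850264485888))))) (T.h (P (nat_lit 0)) (T.h (T.h (P (nat_lit 0)) (P (nat_lit 20380575088181248))) (P (nat_lit 0))))))) (T.h (T.h (P (nat_lit 0)) (T.h (T.h (M (nat_lit 8171398877773225271492607)) (T.h (P (nat_lit 0)) (T.h (M (nat_lit 186527547362388213759)) (T.h (P (nat_lit 0)) (M (nat_lit 569865269658367)))))) (T.h (P (nat_lit 0)) (T.h (T.h (P (nat_lit 100830631104933265408)) (T.h (P (nat_lit 0)) (P (nat_lit 262377802400448)))) (T.h (P (nat_lit 0)) (P (nat_lit 32263967712320))))))) (T.h (T.h (T.h (P (nat_lit 0)) (T.h (M (nat_lit 454540346394687714623487)) (T.h (P (nat_lit 0)) (M (nat_lit 246993203275988991))))) (T.h (P (nat_lit 0)) (T.h (T.h (P (nat_lit 0)) (P (nat_lit 1350412062130929664))) (P (nat_lit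 0))))) (T.h (T.h (P (nat_lit 0)) (T.h (T.h (M (nat_lit 65495681690696155135)) (T.h (P (nat_lit 0)) (P (nat_lit 262377802400448)))) (T.h (P (nat_lit 0)) (M (nat_lit 143101582158847))))) (T.h (T.h (T.h (P (nat_lit 0)) (M (nat_lit 259558459169177599))) (P (nat_lit 0))) (T.h (T.h (P (nat_lit 0)) (P (nat_lit 32263967712320))) (P (nat_lit 0)))))))), (T.h (T.h (T.h (P (nat_lit 9752786531832348049259605524480)) (T.h (P (nat_lit 0)) (T.h (P (nat_lit 394767182880192830227087360)) (T.h (P (nat_lit 0)) (T.h (M (nat_lit 125415090527682953215)) (T.h (P (nat_lit 0)) (P (nat_lit 329438584916672)))))))) (T.h (P (nat_lit 0)) (T.h (T.h (M (nat_lit 73996782044298900915879935)) (T.h (P (nat_lit 0)) (T.h (M (nat_lit 527978540082923569151)) (T.h (P (nat_lit 0)) (P (nat_lit 60230847533472)))))) (T.h (P (nat_lit 0)) (T.h (T.h (P (nat_lit 9255287119968993280)) (T.h (P (nat_lit 0)) (M (nat_lit 153371460460767)))) (T.h (P (nat_lit 0)) (M (nat_lit 48388242410463)))))))) (T.h (T.h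 (P (nat_lit 0)) (T.h (T.h (P (nat_lit 0)) (T.h (P (nat_lit 396958316915119341174784)) (T.h (P (nat_lit 0)) (P (nat_lit 407110724932861952))))) (T.h (P (nat_lit 0)) (T.h (T.h (P (nat_lit 0)) (M (nat_lit 405361685630124031))) (P (nat_lit 0)))))) (T.h (T.h (T.h (M (nat_lit 73996782044298900915879935)) (T.h (P (nat_lit 0)) (T.h (M (nat_lit 527978540082923569151)) (T.h (P (nat_lit 0)) (P (nat_lit 60230847533472)))))) (T.h (P (nat_lit 0)) (T.h (T.h (P (nat_lit 147334852714864574464)) (T.h (P (nat_lit 0)) (P (nat_lit 1545953600471104)))) (T.h (P (nat_lit 0)) (P (nat_lit 115714159541728)))))) (T.h (T.h (P (nat_lit 0)) (T.h (T.h (P (nat_lit 0)) (M (nat_lit 405361685630124031))) (P (nat_lit 0)))) (T.h (T.h (T.h (P (nat_lit 9255287119968993280)) (T.h (P (nat_lit 0)) (M (nat_lit 153371460460767)))) (T.h (P (nat_lit 0)) (P (nat_lit 115714159541728)))) (T.h (P (nat_lit 0)) (M (nat_lit 48388242410463)))))))), (T.h (T.h (T.h (P (nat_lit 0)) (T.h (M (nat_lit 29376288194465710613708406783))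 (T.h (P (nat_lit 0)) (T.h (M (nat_lit 35093809422728020623359)) (T.h (P (nat_lit 0)) (M (nat_lit 488645990257197055))))))) (T.h (P (nat_lit 0)) (T.h (T.h (P (nat_lit 0)) (T.h (P (nat_lit 286482203539050432823296)) (T.h (P (nat_lit 0)) (M (nat_lit 215364510542790655))))) (T.h (P (nat_lit 0)) (T.h (T.h (P (nat_lit 0)) (M (nat_lit 5606270613454847))) (P (nat_lit 0))))))) (T.h (T.h (P (nat_lit 0)) (T.h (T.h (M (nat_lit 101656164803558409808904191)) (T.h (P (nat_lit 0)) (P (nat_lit 369651032577932263424)))) (T.h (P (nat_lit 0)) (P (nat_lit 28898813761829208064))))) (T.h (T.h (T.h (P (nat_lit 0)) (T.h (P (nat_lit 286482203539050432823296)) (T.h (P (nat_lit 0)) (M (nat_lit 215364510542790655))))) (T.h (P (nat_lit 0)) (T.h (T.h (P (nat_lit 0)) (M (nat_lit 510769333716254719))) (P (nat_lit 0))))) (T.h (T.h (P (nat_lit 0)) (P (nat_lit 28898813761829208064))) (T.h (T.h (T.h (P (nat_lit 0)) (M (nat_lit 5606270613454847))) (P (nat_lit 0))) (P (nat_lit 0))))))),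 (P (nat_lit 0)), (P (nat_lit 0)), (T.h (T.h (P (nat_lit 0)) (T.h (T.h (P (nat_lit 11455780457925671627100520448)) (T.h (P (nat_lit 0)) (T.h (P (nat_lit 148792988394765477216256)) (T.h (P (nat_lit 0)) (P (nat_lit 213769565406527488)))))) (T.h (P (nat_lit 0)) (T.h (T.h (P (nat_lit 107666283065877576286208)) (T.h (P (nat_lit 0)) (P (nat_lit 550253486422065152)))) (T.h (P (nat_lit 0)) (P (nat_lit 59531573448343552))))))) (T.h (T.h (T.h (P (nat_lit 0)) (T.h (M (nat_lit 10495516269295690051485695)) (T.h (P (nat_lit 0)) (T.h (P (nat_lit 88502974496544653312)) (T.h (P (nat_lit 0)) (P (nat_lit 143995841780376))))))) (T.h (P (nat_lit 0)) (T.h (T.h (P (nat_lit 0)) (T.h (M (nat_lit 77111954338593374207)) (T.h (P (nat_lit 0)) (P (nat_lit 647951955638976))))) (T.h (P (nat_lit 0)) (T.h (T.h (P (nat_lit 0)) (P (nat_lit 270973593692288))) (P (nat_lit 0))))))) (T.h (T.h (P (nat_lit 0)) (T.h (T.h (M (nat_lit 39160019668693061468159)) (T.h (P (nat_lit 0)) (M (nat_lit 347369586090672127))))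 (T.h (P (nat_lit 0)) (M (nat_lit 526695356970467327))))) (T.h (T.h (T.h (P (nat_lit 0)) (T.h (M (nat_lit 1000945218830204927)) (T.h (P (nat_lit 0)) (P (nat_lit 348511098690000))))) (T.h (P (nat_lit 0)) (T.h (T.h (P (nat_lit 0)) (M (nat_lit 367735172793831))) (P (nat_lit 0))))) (T.h (T.h (P (nat_lit 0)) (M (nat_lit 45939925530476543))) (T.h (T.h (T.h (P (nat_lit 0)) (P (nat_lit 79181860901984))) (P (nat_lit 0))) (P (nat_lit 0)))))))), (T.h (T.h (P (nat_lit 0)) (T.h (T.h (P (nat_lit 0)) (T.h (M (nat_lit 2037213361489810666029055)) (T.h (P (nat_lit 0)) (T.h (M (nat_lit 445318853096277803007)) (T.h (P (nat_lit 0)) (M (nat_lit 216556818452527))))))) (T.h (P (nat_lit 0)) (T.h (T.h (P (nat_lit 0)) (T.h (M (nat_lit 445318853096277803007)) (T.h (P (nat_lit 0)) (P (nat_lit 119539678158720))))) (T.h (P (nat_lit 0)) (T.h (T.h (P (nat_lit 0)) (M (nat_lit 216556818452527))) (P (nat_lit 0)))))))) (T.h (T.h (T.h (P (nat_lit 43111497731872443338430873600)) (T.h (P (nat_lit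 0)) (T.h (P (nat_lit 157214722787301100879872)) (T.h (P (nat_lit 0)) (P (nat_lit 216386606228307968)))))) (T.h (P (nat_lit 0)) (T.h (T.h (P (nat_lit 157214722787301100879872)) (T.h (P (nat_lit 0)) (M (nat_lit 1699343854229880831)))) (T.h (P (nat_lit 0)) (P (nat_lit 216386606228307968)))))) (T.h (T.h (P (nat_lit 0)) (T.h (T.h (P (nat_lit 0)) (T.h (M (nat_lit 634602642326310354943)) (T.h (P (nat_lit 0)) (P (nat_lit 138986061083440))))) (T.h (P (nat_lit 0)) (T.h (T.h (P (nat_lit 0)) (P (nat_lit 138986061083440))) (P (nat_lit 0)))))) (T.h (T.h (T.h (M (nat_lit 102982073453446374096895)) (T.h (P (nat_lit 0)) (P (nat_lit 168205524974878720)))) (T.h (P (nat_lit 0)) (P (nat_lit 168205524974878720)))) (T.h (T.h (P (nat_lit 0)) (T.h (T.h (P (nat_lit 0)) (P (nat_lit 354904499076288))) (P (nat_lit 0)))) (P (nat_lit 54899546767654912)))))))]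
def lP12_23 : List (T ℤ) := [(T.h (T.h (P (nat_lit 0)) (T.h (T.h (M (nat_lit 94745766543253623217990926335)) (T.h (P (nat_lit 0)) (T.h (M (nat_lit 1018254319802202435092479)) (T.h (P (nat_lit 0)) (P (nat_lit 2028286627106979840)))))) (T.h (P (nat_lit 0)) (T.h (T.h (P (nat_lit 80861563406733707051008)) (T.h (P (nat_lit 0)) (M (nat_lit 1297404295820378111)))) (T.h (P (nat_lit 0)) (M (nat_lit 472223380747419647))))))) (T.h (T.h (T.h (P (nat_lit 0)) (T.h (M (nat_lit 15648114171353628026077183)) (T.h (P (nat_lit 0)) (T.h (M (nat_lit 490711946577091493887)) (T.h (P (nat_lit 0)) (M (nat_lit 369702816473023))))))) (T.h (P (nat_lit 0)) (T.h (T.h (P (nat_lit 0)) (T.h (P (nat_lit 237998868586043539456)) (T.h (P (nat_lit 0)) (M (nat_lit 1713831813225279))))) (T.h (P (nat_lit 0)) (T.h (T.h (P (nat_lit 0)) (P (nat_lit 446795098412288))) (P (nat_lit 0))))))) (T.h (T.h (P (nat_lit 0)) (T.h (T.h (P (nat_lit 457874473658528649183232)) (T.h (P (nat_lit 0)) (P (nat_lit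 2425023160645779456)))) (T.h (P (nat_lit 0)) (M (nat_lit 487029331192283135))))) (T.h (T.h (T.h (P (nat_lit 0)) (T.h (P (nat_lit 768556695279051472896)) (T.h (P (nat_lit 0)) (P (nat_lit 516072503077568))))) (T.h (P (nat_lit 0)) (T.h (T.h (P (nat_lit 0)) (M (nat_lit 224767721017791))) (P (nat_lit 0))))) (T.h (T.h (P (nat_lit 0)) (M (nat_lit 149694834106826751))) (T.h (T.h (T.h (P (nat_lit 0)) (M (nat_lit 121815508078015))) (P (nat_lit 0))) (P (nat_lit 0)))))))), (T.h (T.h (P (nat_lit 0)) (T.h (T.h (P (nat_lit 0)) (T.h (M (nat_lit 144571093088878722082144255)) (T.h (P (nat_lit 0)) (T.h (M (nat_lit 1203278113101479673855)) (T.h (P (nat_lit 0)) (P (nat_lit 346719340363264))))))) (T.h (P (nat_lit 0)) (T.h (T.h (P (nat_lit 0)) (T.h (P (nat_lit 449961078820777754624)) (T.h (P (nat_lit 0)) (M (nat_lit 204484843713391))))) (T.h (P (nat_lit 0)) (T.h (T.h (P (nat_lit 0)) (M (nat_lit 233783438575983))) (P (nat_lit 0)))))))) (T.h (T.h (T.h (P (nat_lit 15677591072367322300300656640))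 (T.h (P (nat_lit 0)) (T.h (M (nat_lit 80225454229987296018431)) (T.h (P (nat_lit 0)) (P (nat_lit 406047358910349312)))))) (T.h (P (nat_lit 0)) (T.h (T.h (M (nat_lit 6589294144119426252799)) (T.h (P (nat_lit 0)) (P (nat_lit 428044420578607104)))) (T.h (P (nat_lit 0)) (M (nat_lit 127417732331454463)))))) (T.h (T.h (P (nat_lit 0)) (T.h (T.h (P (nat_lit 0)) (T.h (P (nat_lit 428197490780142567424)) (T.h (P (nat_lit 0)) (M (nat_lit 209987776456831))))) (T.h (P (nat_lit 0)) (T.h (T.h (P (nat_lit 0)) (P (nat_lit 295459527894608))) (P (nat_lit 0)))))) (T.h (T.h (T.h (P (nat_lit 156999705636988086386688)) (T.h (P (nat_lit 0)) (M (nat_lit 758027608558993407)))) (T.h (P (nat_lit 0)) (P (nat_lit 113445062206210048)))) (T.h (T.h (P (nat_lit 0)) (T.h (T.h (P (nat_lit 0)) (M (nat_lit 842506019795263))) (P (nat_lit 0)))) (M (nat_lit 109732311915266047))))))), (T.h (T.h (P (nat_lit 0)) (T.h (T.h (P (nat_lit 133768656778760561275365752832)) (T.h (P (nat_lit 0)) (T.h (P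 (nat_lit 1083909940175908072587264)) (T.h (P (nat_lit 0)) (M (nat_lit 695645357607747583)))))) (T.h (P (nat_lit 0)) (T.h (T.h (M (nat_lit 29219963289720217141247)) (T.h (P (nat_lit 0)) (P (nat_lit 161074343272644608)))) (T.h (P (nat_lit 0)) (P (nat_lit 65373264351297536))))))) (T.h (T.h (T.h (P (nat_lit 0)) (T.h (P (nat_lit 71817996516439123818446848)) (T.h (P (nat_lit 0)) (P (nat_lit 237324560957846847488))))) (T.h (P (nat_lit 0)) (T.h (T.h (P (nat_lit 0)) (P (nat_lit 302479476523544870912))) (P (nat_lit 0))))) (T.h (T.h (P (nat_lit 0)) (T.h (T.h (M (nat_lit 265991905201773512491007)) (T.h (P (nat_lit 0)) (M (nat_lit 531307149684015103)))) (T.h (P (nat_lit 0)) (M (nat_lit 127190422486253567))))) (T.h (T.h (T.h (P (nat_lit 0)) (P (nat_lit 293417813422567849984))) (P (nat_lit 0))) (T.h (T.h (P (nat_lit 0)) (P (nat_lit 10578727072661504))) (P (nat_lit 0))))))), (P (nat_lit 0)), (P (nat_lit 0)), (T.h (T.h (T.h (P (nat_lit 0)) (T.h (M (nat_lit 50161548713118004787671990271))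 (T.h (P (nat_lit 0)) (T.h (P (nat_lit 113359713250688941162496)) (T.h (P (nat_lit 0)) (P (nat_lit 21373300337836032))))))) (T.h (P (nat_lit 0)) (T.h (T.h (P (nat_lit 0)) (T.h (P (nat_lit 132645773977933639057408)) (T.h (P (nat_lit 0)) (P (nat_lit 94427050311057408))))) (T.h (P (nat_lit 0)) (T.h (T.h (P (nat_lit 0)) (M (nat_lit 122724451818897407))) (P (nat_lit 0))))))) (T.h (T.h (P (nat_lit 0)) (T.h (T.h (M (nat_lit 65092573800115094492807167)) (T.h (P (nat_lit 0)) (T.h (P (nat_lit 26538948072266792960)) (T.h (P (nat_lit 0)) (M (nat_lit 307476399317143)))))) (T.h (P (nat_lit 0)) (T.h (T.h (M (nat_lit 341644973952494206975)) (T.h (P (nat_lit 0)) (P (nat_lit 1123745686337728)))) (T.h (P (nat_lit 0)) (P (nat_lit 204242779516192))))))) (T.h (T.h (T.h (P (nat_lit 0)) (T.h (M (nat_lit 32515933397799441268735)) (T.h (P (nat_lit 0)) (P (nat_lit 45419420617474048))))) (T.h (P (nat_lit 0)) (T.h (T.h (P (nat_lit 0)) (P (nat_lit 20789549340655616))) (P (nat_lit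 0))))) (T.h (T.h (P (nat_lit 0)) (T.h (T.h (P (nat_lit 54187988168290074624)) (T.h (P (nat_lit 0)) (M (nat_lit 102969432466463)))) (T.h (P (nat_lit 0)) (P (nat_lit 224333681619632))))) (T.h (T.h (T.h (P (nat_lit 0)) (M (nat_lit 16466283338235903))) (P (nat_lit 0))) (T.h (T.h (P (nat_lit 0)) (M (nat_lit 16460288836575))) (P (nat_lit 0)))))))), (T.h (T.h (T.h (P (nat_lit 20591564652282124424821660975104)) (T.h (P (nat_lit 0)) (T.h (P (nat_lit 64119266490653702373769216)) (T.h (P (nat_lit 0)) (T.h (M (nat_lit 55962895046749978623)) (T.h (P (nat_lit 0)) (P (nat_lit 35204148183136)))))))) (T.h (P (nat_lit 0)) (T.h (T.h (M (nat_lit 13176366779944124207333375)) (T.h (P (nat_lit 0)) (T.h (P (nat_lit 248427145624222171136)) (T.h (P (nat_lit 0)) (M (nat_lit 155512376735103)))))) (T.h (P (nat_lit 0)) (T.h (T.h (M (nat_lit 87351855949818101759)) (T.h (P (nat_lit 0)) (M (nat_lit 59244869932431)))) (T.h (P (nat_lit 0)) (M (nat_lit 16207010583903)))))))) (T.h (T.h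 (P (nat_lit 0)) (T.h (T.h (P (nat_lit 0)) (T.h (M (nat_lit 149786591615585139818495)) (T.h (P (nat_lit 0)) (M (nat_lit 277527576046272511))))) (T.h (P (nat_lit 0)) (T.h (T.h (P (nat_lit 0)) (M (nat_lit 200704566874275839))) (P (nat_lit 0)))))) (T.h (T.h (T.h (P (nat_lit 64119266490653702373769216)) (T.h (P (nat_lit 0)) (T.h (P (nat_lit 72094231162706198528)) (T.h (P (nat_lit 0)) (P (nat_lit 7477112616224)))))) (T.h (P (nat_lit 0)) (T.h (T.h (P (nat_lit 248427145624222171136)) (T.h (P (nat_lit 0)) (P (nat_lit 158867203205152)))) (T.h (P (nat_lit 0)) (M (nat_lit 59244869932431)))))) (T.h (T.h (P (nat_lit 0)) (T.h (T.h (P (nat_lit 0)) (M (nat_lit 277527576046272511))) (P (nat_lit 0)))) (T.h (T.h (T.h (M (nat_lit 55962895046749978623)) (T.h (P (nat_lit 0)) (P (nat_lit 7477112616224)))) (T.h (P (nat_lit 0)) (M (nat_lit 155512376735103)))) (T.h (P (nat_lit 0)) (P (nat_lit 35204148183136)))))))), (T.h (T.h (T.h (P (nat_lit 0)) (T.h (M (nat_lit 94745766543253623217990926335))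 (T.h (P (nat_lit 0)) (T.h (P (nat_lit 80861563406733707051008)) (T.h (P (nat_lit 0)) (M (nat_lit 472223380747419647))))))) (T.h (P (nat_lit 0)) (T.h (T.h (P (nat_lit 0)) (T.h (M (nat_lit 1018254319802202435092479)) (T.h (P (nat_lit 0)) (M (nat_lit 1297404295820378111))))) (T.h (P (nat_lit 0)) (T.h (T.h (P (nat_lit 0)) (P (nat_lit 2028286627106979840))) (P (nat_lit 0))))))) (T.h (T.h (P (nat_lit 0)) (T.h (T.h (M (nat_lit 15648114171353628026077183)) (T.h (P (nat_lit 0)) (T.h (P (nat_lit 237998868586043539456)) (T.h (P (nat_lit 0)) (P (nat_lit 446795098412288)))))) (T.h (P (nat_lit 0)) (T.h (T.h (M (nat_lit 490711946577091493887)) (T.h (P (nat_lit 0)) (M (nat_lit 1713831813225279)))) (T.h (P (nat_lit 0)) (M (nat_lit 369702816473023))))))) (T.h (T.h (T.h (P (nat_lit 0)) (T.h (P (nat_lit 457874473658528649183232)) (T.h (P (nat_lit 0)) (M (nat_lit 487029331192283135))))) (T.h (P (nat_lit 0)) (T.h (T.h (P (nat_lit 0)) (P (nat_lit 2425023160645779456))) (P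 (nat_lit 0))))) (T.h (T.h (P (nat_lit 0)) (T.h (T.h (P (nat_lit 768556695279051472896)) (T.h (P (nat_lit 0)) (M (nat_lit 224767721017791)))) (T.h (P (nat_lit 0)) (P (nat_lit 516072503077568))))) (T.h (T.h (T.h (P (nat_lit 0)) (M (nat_lit 149694834106826751))) (P (nat_lit 0))) (T.h (T.h (P (nat_lit 0)) (M (nat_lit 121815508078015))) (P (nat_lit 0))))))))]
def lP12_24 : List (T ℤ) := [(T.h (T.h (T.h (P (nat_lit 29043847495833169443361659027456)) (T.h (P (nat_lit 0)) (T.h (P (nat_lit 4718782154620513862811648)) (T.h (P (nat_lit 0)) (T.h (P (nat_lit 262433141256037072896)) (T.h (P (nat_lit 0)) (M (nat_lit 65631642162591)))))))) (T.h (P (nat_lit 0)) (T.h (T.h (P (nat_lit 4718782154620513862811648)) (T.h (P (nat_lit 0)) (T.h (P (nat_lit 1036864692643493314560)) (T.h (P (nat_lit 0)) (P (nat_lit 892110877397168)))))) (T.h (P (nat_lit 0)) (T.h (T.h (P (nat_lit 262433141256037072896)) (T.h (P (nat_lit 0)) (P (nat_lit 892110877397168)))) (T.h (P (nat_lit 0)) (M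 (nat_lit 65631642162591)))))))) (T.h (T.h (P (nat_lit 0)) (T.h (T.h (P (nat_lit 0)) (T.h (M (nat_lit 1089739465065568969687039)) (T.h (P (nat_lit 0)) (P (nat_lit 774963076898947072))))) (T.h (P (nat_lit 0)) (T.h (T.h (P (nat_lit 0)) (P (nat_lit 774963076898947072))) (P (nat_lit 0)))))) (T.h (T.h (T.h (P (nat_lit 41184711322247905706770432)) (T.h (P (nat_lit 0)) (T.h (M (nat_lit 61550852568032215039)) (T.h (P (nat_lit 0)) (M (nat_lit 46665150786847)))))) (T.h (P (nat_lit 0)) (T.h (T.h (M (nat_lit 61550852568032215039)) (T.h (P (nat_lit 0)) (M (nat_lit 2378042901799487)))) (T.h (P (nat_lit 0)) (M (nat_lit 46665150786847)))))) (T.h (T.h (P (nat_lit 0)) (T.h (T.h (P (nat_lit 0)) (P (nat_lit 4123807266188886016))) (P (nat_lit 0)))) (T.h (T.h (T.h (P (nat_lit 84149006842749517824)) (T.h (P (nat_lit 0)) (P (nat_lit 762953646744960)))) (T.h (P (nat_lit 0)) (P (nat_lit 762953646744960)))) (T.h (P (nat_lit 0)) (P (nat_lit 21455725471840)))))))), (T.h (T.h (T.h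 (P (nat_lit 0)) (T.h (P (nat_lit 58533588080269667130553663488)) (T.h (P (nat_lit 0)) (T.h (P (nat_lit 194793753450289104420864)) (T.h (P (nat_lit 0)) (M (nat_lit 15147995482423295))))))) (T.h (P (nat_lit 0)) (T.h (T.h (P (nat_lit 0)) (T.h (M (nat_lit 228364555603926038085631)) (T.h (P (nat_lit 0)) (M (nat_lit 522124404768767999))))) (T.h (P (nat_lit 0)) (T.h (T.h (P (nat_lit 0)) (M (nat_lit 125002415436529663))) (P (nat_lit 0))))))) (T.h (T.h (P (nat_lit 0)) (T.h (T.h (M (nat_lit 62512067805864717822459903)) (T.h (P (nat_lit 0)) (M (nat_lit 562928614136549998591)))) (T.h (P (nat_lit 0)) (M (nat_lit 152497253471509020671))))) (T.h (T.h (T.h (P (nat_lit 0)) (T.h (M (nat_lit 307387787828805941329919)) (T.h (P (nat_lit 0)) (P (nat_lit 144336044066504704))))) (T.h (P (nat_lit 0)) (T.h (T.h (P (nat_lit 0)) (P (nat_lit 1070033940780810240))) (P (nat_lit 0))))) (T.h (T.h (P (nat_lit 0)) (M (nat_lit 451596974912692027391))) (T.h (T.h (T.h (P (nat_lit 0)) (P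 (nat_lit 32282370373353472))) (P (nat_lit 0))) (P (nat_lit 0))))))), (P (nat_lit 0)), (T.h (T.h (P (nat_lit 0)) (T.h (T.h (M (nat_lit 2053770059227372152703418367)) (T.h (P (nat_lit 0)) (T.h (P (nat_lit 29587353799910813073408)) (T.h (P (nat_lit 0)) (M (nat_lit 3488276855980031)))))) (T.h (P (nat_lit 0)) (T.h (T.h (P (nat_lit 137957374097299825754112)) (T.h (P (nat_lit 0)) (M (nat_lit 229520958115610623)))) (T.h (P (nat_lit 0)) (M (nat_lit 32198804802240511))))))) (T.h (T.h (T.h (P (nat_lit 0)) (T.h (P (nat_lit 6143249289756674625634304)) (T.h (P (nat_lit 0)) (T.h (M (nat_lit 22716939234223063039)) (T.h (P (nat_lit 0)) (M (nat_lit 17010326725591))))))) (T.h (P (nat_lit 0)) (T.h (T.h (P (nat_lit 0)) (T.h (M (nat_lit 231524691204898815)) (T.h (P (nat_lit 0)) (M (nat_lit 147470949147775))))) (T.h (P (nat_lit 0)) (T.h (T.h (P (nat_lit 0)) (P (nat_lit 246492409473440))) (P (nat_lit 0))))))) (T.h (T.h (P (nat_lit 0)) (T.h (T.h (P (nat_lit 46823980390962633375744))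 (T.h (P (nat_lit 0)) (P (nat_lit 7144007440760832)))) (T.h (P (nat_lit 0)) (M (nat_lit 119438985292218367))))) (T.h (T.h (T.h (P (nat_lit 0)) (T.h (M (nat_lit 5524453750221045759)) (T.h (P (nat_lit 0)) (P (nat_lit 42467752026544))))) (T.h (P (nat_lit 0)) (T.h (T.h (P (nat_lit 0)) (M (nat_lit 237358571121415))) (P (nat_lit 0))))) (T.h (T.h (P (nat_lit 0)) (P (nat_lit 33269642974461952))) (T.h (T.h (T.h (P (nat_lit 0)) (P (nat_lit 30203638425104))) (P (nat_lit 0))) (P (nat_lit 0)))))))), (T.h (T.h (P (nat_lit 0)) (T.h (T.h (P (nat_lit 0)) (T.h (M (nat_lit 53146542248726677021523967)) (T.h (P (nat_lit 0)) (T.h (M (nat_lit 11548678206101913599)) (T.h (P (nat_lit 0)) (M (nat_lit 34652740068447))))))) (T.h (P (nat_lit 0)) (T.h (T.h (P (nat_lit 0)) (T.h (P (nat_lit 37051053167047868416)) (T.h (P (nat_lit 0)) (P (nat_lit 6711510549152))))) (T.h (P (nat_lit 0)) (T.h (T.h (P (nat_lit 0)) (M (nat_lit 72084300084943))) (P (nat_lit 0)))))))) (T.h (T.h (T.h (P (nat_lit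 14882683165086291058843713536)) (T.h (P (nat_lit 0)) (T.h (M (nat_lit 18849529835447239311359)) (T.h (P (nat_lit 0)) (P (nat_lit 140018033237983232)))))) (T.h (P (nat_lit 0)) (T.h (T.h (P (nat_lit 256807096225738805739520)) (T.h (P (nat_lit 0)) (M (nat_lit 463891509779316735)))) (T.h (P (nat_lit 0)) (P (nat_lit 1211095121471963136)))))) (T.h (T.h (P (nat_lit 0)) (T.h (T.h (P (nat_lit 0)) (T.h (M (nat_lit 75408516526748205055)) (T.h (P (nat_lit 0)) (P (nat_lit 16557836531408))))) (T.h (P (nat_lit 0)) (T.h (T.h (P (nat_lit 0)) (M (nat_lit 75934935373951))) (P (nat_lit 0)))))) (T.h (T.h (T.h (P (nat_lit 20929441631043701440512)) (T.h (P (nat_lit 0)) (P (nat_lit 102934913059225600)))) (T.h (P (nat_lit 0)) (M (nat_lit 446271242066706431)))) (T.h (T.h (P (nat_lit 0)) (T.h (T.h (P (nat_lit 0)) (P (nat_lit 4164924265456))) (P (nat_lit 0)))) (M (nat_lit 36176921370558463))))))), (T.h (T.h (P (nat_lit 0)) (T.h (T.h (P (nat_lit 1797382397355465615574302720)) (T.h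 (P (nat_lit 0)) (T.h (M (nat_lit 360249129741827132358655)) (T.h (P (nat_lit 0)) (P (nat_lit 20380575088181248)))))) (T.h (P (nat_lit 0)) (T.h (T.h (M (nat_lit 850335530686892541476863)) (T.h (P (nat_lit 0)) (P (nat_lit 1467809850264485888)))) (T.h (P (nat_lit 0)) (P (nat_lit 970478431772672000))))))) (T.h (T.h (T.h (P (nat_lit 0)) (T.h (M (nat_lit 8171398877773225271492607)) (T.h (P (nat_lit 0)) (T.h (P (nat_lit 100830631104933265408)) (T.h (P (nat_lit 0)) (P (nat_lit 32263967712320))))))) (T.h (P (nat_lit 0)) (T.h (T.h (P (nat_lit 0)) (T.h (M (nat_lit 186527547362388213759)) (T.h (P (nat_lit 0)) (P (nat_lit 262377802400448))))) (T.h (P (nat_lit 0)) (T.h (T.h (P (nat_lit 0)) (M (nat_lit 569865269658367))) (P (nat_lit 0))))))) (T.h (T.h (P (nat_lit 0)) (T.h (T.h (M (nat_lit 454540346394687714623487)) (T.h (P (nat_lit 0)) (P (nat_lit 1350412062130929664)))) (T.h (P (nat_lit 0)) (M (nat_lit 246993203275988991))))) (T.h (T.h (T.h (P (nat_lit 0)) (T.h (M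 (nat_lit 65495681690696155135)) (T.h (P (nat_lit 0)) (M (nat_lit 143101582158847))))) (T.h (P (nat_lit 0)) (T.h (T.h (P (nat_lit 0)) (P (nat_lit 262377802400448))) (P (nat_lit 0))))) (T.h (T.h (P (nat_lit 0)) (M (nat_lit 259558459169177599))) (T.h (T.h (T.h (P (nat_lit 0)) (P (nat_lit 32263967712320))) (P (nat_lit 0))) (P (nat_lit 0)))))))), (T.h (T.h (P (nat_lit 0)) (T.h (T.h (P (nat_lit 0)) (T.h (M (nat_lit 144571093088878722082144255)) (T.h (P (nat_lit 0)) (T.h (P (nat_lit 449961078820777754624)) (T.h (P (nat_lit 0)) (M (nat_lit 233783438575983))))))) (T.h (P (nat_lit 0)) (T.h (T.h (P (nat_lit 0)) (T.h (M (nat_lit 1203278113101479673855)) (T.h (P (nat_lit 0)) (M (nat_lit 204484843713391))))) (T.h (P (nat_lit 0)) (T.h (T.h (P (nat_lit 0)) (P (nat_lit 346719340363264))) (P (nat_lit 0)))))))) (T.h (T.h (T.h (P (nat_lit 15677591072367322300300656640)) (T.h (P (nat_lit 0)) (T.h (M (nat_lit 6589294144119426252799)) (T.h (P (nat_lit 0)) (M (nat_lit 127417732331454463))))))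 (T.h (P (nat_lit 0)) (T.h (T.h (M (nat_lit 80225454229987296018431)) (T.h (P (nat_lit 0)) (P (nat_lit 428044420578607104)))) (T.h (P (nat_lit 0)) (P (nat_lit 406047358910349312)))))) (T.h (T.h (P (nat_lit 0)) (T.h (T.h (P (nat_lit 0)) (T.h (P (nat_lit 428197490780142567424)) (T.h (P (nat_lit 0)) (P (nat_lit 295459527894608))))) (T.h (P (nat_lit 0)) (T.h (T.h (P (nat_lit 0)) (M (nat_lit 209987776456831))) (P (nat_lit 0)))))) (T.h (T.h (T.h (P (nat_lit 156999705636988086386688)) (T.h (P (nat_lit 0)) (P (nat_lit 113445062206210048)))) (T.h (P (nat_lit 0)) (M (nat_lit 758027608558993407)))) (T.h (T.h (P (nat_lit 0)) (T.h (T.h (P (nat_lit 0)) (M (nat_lit 842506019795263))) (P (nat_lit 0)))) (M (nat_lit 109732311915266047))))))), (T.h (T.h (P (nat_lit 0)) (T.h (T.h (P (nat_lit 58533588080269667130553663488)) (T.h (P (nat_lit 0)) (T.h (M (nat_lit 228364555603926038085631)) (T.h (P (nat_lit 0)) (M (nat_lit 125002415436529663)))))) (T.h (P (nat_lit 0)) (T.h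 (T.h (P (nat_lit 194793753450289104420864)) (T.h (P (nat_lit 0)) (M (nat_lit 522124404768767999)))) (T.h (P (nat_lit 0)) (M (nat_lit 15147995482423295))))))) (T.h (T.h (T.h (P (nat_lit 0)) (T.h (M (nat_lit 62512067805864717822459903)) (T.h (P (nat_lit 0)) (M (nat_lit 152497253471509020671))))) (T.h (P (nat_lit 0)) (T.h (T.h (P (nat_lit 0)) (M (nat_lit 562928614136549998591))) (P (nat_lit 0))))) (T.h (T.h (P (nat_lit 0)) (T.h (T.h (M (nat_lit 307387787828805941329919)) (T.h (P (nat_lit 0)) (P (nat_lit 1070033940780810240)))) (T.h (P (nat_lit 0)) (P (nat_lit 144336044066504704))))) (T.h (T.h (T.h (P (nat_lit 0)) (M (nat_lit 451596974912692027391))) (P (nat_lit 0))) (T.h (T.h (P (nat_lit 0)) (P (nat_lit 32282370373353472))) (P (nat_lit 0)))))))]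
def lP12_25 : List (T ℤ) := [(T.h (T.h (T.h (P (nat_lit 0)) (T.h (P (nat_lit 3649062629094570669799112704)) (T.h (P (nat_lit 0)) (T.h (M (nat_lit 258964061077953839103)) (T.h (P (nat_lit 0)) (P (nat_lit 4254162820956160))))))) (T.h (P (nat_lit 0)) (T.h (T.h (P (nat_lit 0)) (T.h (P (nat_lit 992163586264950374400)) (T.h (P (nat_lit 0)) (P (nat_lit 35294015552487424))))) (T.h (P (nat_lit 0)) (T.h (T.h (P (nat_lit 0)) (M (nat_lit 6983695888580607))) (P (nat_lit 0))))))) (T.h (T.h (P (nat_lit 0)) (T.h (T.h (P (nat_lit 11565367457890005793374208)) (T.h (P (nat_lit 0)) (T.h (P (nat_lit 2596962080376487936)) (T.h (P (nat_lit 0)) (P (nat_lit 2057670044688)))))) (T.h (P (nat_lit 0)) (T.h (T.h (M (nat_lit 15870783098141540351)) (T.h (P (nat_lit 0)) (M (nat_lit 88219891816015)))) (T.h (P (nat_lit 0)) (M (nat_lit 373219217599351))))))) (T.h (T.h (T.h (P (nat_lit 0)) (T.h (P (nat_lit 2165475288268054462464)) (T.h (P (nat_lit 0)) (P (nat_lit 7285678439464960)))))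 (T.h (P (nat_lit 0)) (T.h (T.h (P (nat_lit 0)) (P (nat_lit 72238931087392768))) (P (nat_lit 0))))) (T.h (T.h (P (nat_lit 0)) (T.h (T.h (P (nat_lit 7106108093892657152)) (T.h (P (nat_lit 0)) (P (nat_lit 2715933883992)))) (T.h (P (nat_lit 0)) (P (nat_lit 1522944629136))))) (T.h (T.h (T.h (P (nat_lit 0)) (M (nat_lit 9569694397825023))) (P (nat_lit 0))) (T.h (T.h (P (nat_lit 0)) (P (nat_lit 7980084234912))) (P (nat_lit 0)))))))), (T.h (T.h (T.h (P (nat_lit 15172213786557349686731121623040)) (T.h (P (nat_lit 0)) (T.h (M (nat_lit 1210949200232913911676927)) (T.h (P (nat_lit 0)) (T.h (M (nat_lit 1640313288946352127)) (T.h (P (nat_lit 0)) (M (nat_lit 2258787755471)))))))) (T.h (P (nat_lit 0)) (T.h (T.h (P (nat_lit 21374983709252717796917248)) (T.h (P (nat_lit 0)) (T.h (P (nat_lit 104816937201435672576)) (T.h (P (nat_lit 0)) (M (nat_lit 27352561037247)))))) (T.h (P (nat_lit 0)) (T.h (T.h (M (nat_lit 47365347442010619903)) (T.h (P (nat_lit 0)) (P (nat_lit 65805890694080))))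 (T.h (P (nat_lit 0)) (P (nat_lit 63359498543120)))))))) (T.h (T.h (P (nat_lit 0)) (T.h (T.h (P (nat_lit 0)) (T.h (P (nat_lit 2070260029915047919616)) (T.h (P (nat_lit 0)) (P (nat_lit 71083122527076352))))) (T.h (P (nat_lit 0)) (T.h (T.h (P (nat_lit 0)) (P (nat_lit 184625113980796928))) (P (nat_lit 0)))))) (T.h (T.h (T.h (M (nat_lit 18264153611699954183569407)) (T.h (P (nat_lit 0)) (T.h (M (nat_lit 1443524170846568447)) (T.h (P (nat_lit 0)) (P (nat_lit 7778266412928)))))) (T.h (P (nat_lit 0)) (T.h (T.h (M (nat_lit 32579711267497836543)) (T.h (P (nat_lit 0)) (M (nat_lit 2428238407215)))) (T.h (P (nat_lit 0)) (P (nat_lit 439341944415168)))))) (T.h (T.h (P (nat_lit 0)) (T.h (T.h (P (nat_lit 0)) (M (nat_lit 56295723824119807))) (P (nat_lit 0)))) (T.h (T.h (T.h (M (nat_lit 8776527609941983231)) (T.h (P (nat_lit 0)) (P (nat_lit 7834943220656)))) (T.h (P (nat_lit 0)) (M (nat_lit 25450372979775)))) (T.h (P (nat_lit 0)) (P (nat_lit 7181325551792)))))))), (T.h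 (T.h (T.h (P (nat_lit 0)) (T.h (P (nat_lit 37492422245209505776816619520)) (T.h (P (nat_lit 0)) (T.h (M (nat_lit 172528910740346944618495)) (T.h (P (nat_lit 0)) (P (nat_lit 113105309375234048))))))) (T.h (P (nat_lit 0)) (T.h (T.h (P (nat_lit 0)) (T.h (P (nat_lit 48167069287048338735104)) (T.h (P (nat_lit 0)) (M (nat_lit 657499290933395455))))) (T.h (P (nat_lit 0)) (T.h (T.h (P (nat_lit 0)) (P (nat_lit 1896217835678236672))) (P (nat_lit 0))))))) (T.h (T.h (P (nat_lit 0)) (T.h (T.h (P (nat_lit 110363003849040916956315648)) (T.h (P (nat_lit 0)) (T.h (M (nat_lit 33401303638101458943)) (T.h (P (nat_lit 0)) (M (nat_lit 35758438672831)))))) (T.h (P (nat_lit 0)) (T.h (T.h (M (nat_lit 1166113957762186608639)) (T.h (P (nat_lit 0)) (M (nat_lit 353210867934847)))) (T.h (P (nat_lit 0)) (M (nat_lit 40638326489599))))))) (T.h (T.h (T.h (P (nat_lit 0)) (T.h (M (nat_lit 20134058932178228609023)) (T.h (P (nat_lit 0)) (P (nat_lit 96608641274380288))))) (T.h (P (nat_lit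 0)) (T.h (T.h (P (nat_lit 0)) (P (nat_lit 30565132138381312))) (P (nat_lit 0))))) (T.h (T.h (P (nat_lit 0)) (T.h (T.h (M (nat_lit 86420149792197836799)) (T.h (P (nat_lit 0)) (P (nat_lit 16402866389632)))) (T.h (P (nat_lit 0)) (M (nat_lit 569304909624511))))) (T.h (T.h (T.h (P (nat_lit 0)) (M (nat_lit 87730242047344639))) (P (nat_lit 0))) (T.h (T.h (P (nat_lit 0)) (M (nat_lit 34559719305663))) (P (nat_lit 0)))))))), (T.h (T.h (T.h (P (nat_lit 9752786531832348049259605524480)) (T.h (P (nat_lit 0)) (T.h (M (nat_lit 73996782044298900915879935)) (T.h (P (nat_lit 0)) (T.h (P (nat_lit 9255287119968993280)) (T.h (P (nat_lit 0)) (M (nat_lit 48388242410463)))))))) (T.h (P (nat_lit 0)) (T.h (T.h (P (nat_lit 394767182880192830227087360)) (T.h (P (nat_lit 0)) (T.h (M (nat_lit 527978540082923569151)) (T.h (P (nat_lit 0)) (M (nat_lit 153371460460767)))))) (T.h (P (nat_lit 0)) (T.h (T.h (M (nat_lit 125415090527682953215)) (T.h (P (nat_lit 0)) (P (nat_lit 60230847533472))))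 (T.h (P (nat_lit 0)) (P (nat_lit 329438584916672)))))))) (T.h (T.h (P (nat_lit 0)) (T.h (T.h (P (nat_lit 0)) (T.h (P (nat_lit 396958316915119341174784)) (T.h (P (nat_lit 0)) (M (nat_lit 405361685630124031))))) (T.h (P (nat_lit 0)) (T.h (T.h (P (nat_lit 0)) (P (nat_lit 407110724932861952))) (P (nat_lit 0)))))) (T.h (T.h (T.h (M (nat_lit 73996782044298900915879935)) (T.h (P (nat_lit 0)) (T.h (P (nat_lit 147334852714864574464)) (T.h (P (nat_lit 0)) (P (nat_lit 115714159541728)))))) (T.h (P (nat_lit 0)) (T.h (T.h (M (nat_lit 527978540082923569151)) (T.h (P (nat_lit 0)) (P (nat_lit 1545953600471104)))) (T.h (P (nat_lit 0)) (P (nat_lit 60230847533472)))))) (T.h (T.h (P (nat_lit 0)) (T.h (T.h (P (nat_lit 0)) (M (nat_lit 405361685630124031))) (P (nat_lit 0)))) (T.h (T.h (T.h (P (nat_lit 9255287119968993280)) (T.h (P (nat_lit 0)) (P (nat_lit 115714159541728)))) (T.h (P (nat_lit 0)) (M (nat_lit 153371460460767)))) (T.h (P (nat_lit 0)) (M (nat_lit 48388242410463)))))))),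 (T.h (T.h (T.h (P (nat_lit 0)) (T.h (P (nat_lit 133768656778760561275365752832)) (T.h (P (nat_lit 0)) (T.h (M (nat_lit 29219963289720217141247)) (T.h (P (nat_lit 0)) (P (nat_lit 65373264351297536))))))) (T.h (P (nat_lit 0)) (T.h (T.h (P (nat_lit 0)) (T.h (P (nat_lit 1083909940175908072587264)) (T.h (P (nat_lit 0)) (P (nat_lit 161074343272644608))))) (T.h (P (nat_lit 0)) (T.h (T.h (P (nat_lit 0)) (M (nat_lit 695645357607747583))) (P (nat_lit 0))))))) (T.h (T.h (P (nat_lit 0)) (T.h (T.h (P (nat_lit 71817996516439123818446848)) (T.h (P (nat_lit 0)) (P (nat_lit 302479476523544870912)))) (T.h (P (nat_lit 0)) (P (nat_lit 237324560957846847488))))) (T.h (T.h (T.h (P (nat_lit 0)) (T.h (M (nat_lit 265991905201773512491007)) (T.h (P (nat_lit 0)) (M (nat_lit 127190422486253567))))) (T.h (P (nat_lit 0)) (T.h (T.h (P (nat_lit 0)) (M (nat_lit 531307149684015103))) (P (nat_lit 0))))) (T.h (T.h (P (nat_lit 0)) (P (nat_lit 293417813422567849984))) (T.h (T.h (T.h (P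 (nat_lit 0)) (P (nat_lit 10578727072661504))) (P (nat_lit 0))) (P (nat_lit 0))))))), (P (nat_lit 0)), (T.h (T.h (P (nat_lit 0)) (T.h (T.h (P (nat_lit 29626472539123649918546214912)) (T.h (P (nat_lit 0)) (T.h (M (nat_lit 43001802459388592521215)) (T.h (P (nat_lit 0)) (M (nat_lit 3665591229349887)))))) (T.h (P (nat_lit 0)) (T.h (T.h (P (nat_lit 114624316406438995951616)) (T.h (P (nat_lit 0)) (P (nat_lit 117706230388064256)))) (T.h (P (nat_lit 0)) (P (nat_lit 406318619204648960))))))) (T.h (T.h (T.h (P (nat_lit 0)) (T.h (P (nat_lit 25234779344860994926018560)) (T.h (P (nat_lit 0)) (T.h (M (nat_lit 711397696602111999)) (T.h (P (nat_lit 0)) (M (nat_lit 13089198389183))))))) (T.h (P (nat_lit 0)) (T.h (T.h (P (nat_lit 0)) (T.h (P (nat_lit 134311577726461411328)) (T.h (P (nat_lit 0)) (P (nat_lit 86144119924352))))) (T.h (P (nat_lit 0)) (T.h (T.h (P (nat_lit 0)) (M (nat_lit 46655458843455))) (P (nat_lit 0))))))) (T.h (T.h (P (nat_lit 0)) (T.h (T.h (M (nat_lit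 113216597641278280171519)) (T.h (P (nat_lit 0)) (M (nat_lit 40874695931691007)))) (T.h (P (nat_lit 0)) (P (nat_lit 7345739859722240))))) (T.h (T.h (T.h (P (nat_lit 0)) (T.h (P (nat_lit 27057954572994609152)) (T.h (P (nat_lit 0)) (M (nat_lit 52855227214911))))) (T.h (P (nat_lit 0)) (T.h (T.h (P (nat_lit 0)) (P (nat_lit 82499058864512))) (P (nat_lit 0))))) (T.h (T.h (P (nat_lit 0)) (P (nat_lit 118971871495585792))) (T.h (T.h (T.h (P (nat_lit 0)) (M (nat_lit 26922678205119))) (P (nat_lit 0))) (P (nat_lit 0)))))))), (T.h (T.h (P (nat_lit 0)) (T.h (T.h (P (nat_lit 0)) (T.h (P (nat_lit 52630575178557683830620160)) (T.h (P (nat_lit 0)) (T.h (P (nat_lit 30487834188759171072)) (T.h (P (nat_lit 0)) (P (nat_lit 56760557853824))))))) (T.h (P (nat_lit 0)) (T.h (T.h (P (nat_lit 0)) (T.h (P (nat_lit 246123919164382904320)) (T.h (P (nat_lit 0)) (P (nat_lit 186187917737008))))) (T.h (P (nat_lit 0)) (T.h (T.h (P (nat_lit 0)) (P (nat_lit 323965957366480))) (P (nat_lit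 0)))))))) (T.h (T.h (T.h (P (nat_lit 22056385171391749620211122176)) (T.h (P (nat_lit 0)) (T.h (P (nat_lit 24522684844148118257664)) (T.h (P (nat_lit 0)) (P (nat_lit 99933179538800640)))))) (T.h (P (nat_lit 0)) (T.h (T.h (M (nat_lit 25702737167881122873343)) (T.h (P (nat_lit 0)) (P (nat_lit 209679305862021120)))) (T.h (P (nat_lit 0)) (M (nat_lit 2349252942460698623)))))) (T.h (T.h (P (nat_lit 0)) (T.h (T.h (P (nat_lit 0)) (T.h (P (nat_lit 112460165131284774912)) (T.h (P (nat_lit 0)) (M (nat_lit 58086204154527))))) (T.h (P (nat_lit 0)) (T.h (T.h (P (nat_lit 0)) (P (nat_lit 357255833203280))) (P (nat_lit 0)))))) (T.h (T.h (T.h (M (nat_lit 61689989667755156045823)) (T.h (P (nat_lit 0)) (P (nat_lit 61005692873162752)))) (T.h (P (nat_lit 0)) (P (nat_lit 327098498796929024)))) (T.h (T.h (P (nat_lit 0)) (T.h (T.h (P (nat_lit 0)) (P (nat_lit 53051936705152))) (P (nat_lit 0)))) (P (nat_lit 96786791661895680)))))))]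
def lP12_26 : List (T ℤ) := [(T.h (T.h (P (nat_lit 0)) (T.h (T.h (M (nat_lit 29376288194465710613708406783)) (T.h (P (nat_lit 0)) (T.h (P (nat_lit 286482203539050432823296)) (T.h (P (nat_lit 0)) (M (nat_lit 5606270613454847)))))) (T.h (P (nat_lit 0)) (T.h (T.h (M (nat_lit 35093809422728020623359)) (T.h (P (nat_lit 0)) (M (nat_lit 215364510542790655)))) (T.h (P (nat_lit 0)) (M (nat_lit 488645990257197055))))))) (T.h (T.h (T.h (P (nat_lit 0)) (T.h (M (nat_lit 101656164803558409808904191)) (T.h (P (nat_lit 0)) (P (nat_lit 28898813761829208064))))) (T.h (P (nat_lit 0)) (T.h (T.h (P (nat_lit 0)) (P (nat_lit 369651032577932263424))) (P (nat_lit 0))))) (T.h (T.h (P (nat_lit 0)) (T.h (T.h (P (nat_lit 286482203539050432823296)) (T.h (P (nat_lit 0)) (M (nat_lit 510769333716254719)))) (T.h (P (nat_lit 0)) (M (nat_lit 215364510542790655))))) (T.h (T.h (T.h (P (nat_lit 0)) (P (nat_lit 28898813761829208064))) (P (nat_lit 0))) (T.h (T.h (P (nat_lit 0)) (M (nat_lit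 5606270613454847))) (P (nat_lit 0))))))), (T.h (T.h (T.h (P (nat_lit 0)) (T.h (M (nat_lit 1882863235110602186401251327)) (T.h (P (nat_lit 0)) (T.h (P (nat_lit 1194549437046911401984)) (T.h (P (nat_lit 0)) (M (nat_lit 2304983058579455))))))) (T.h (P (nat_lit 0)) (T.h (T.h (P (nat_lit 0)) (T.h (P (nat_lit 35555392972562500681728)) (T.h (P (nat_lit 0)) (M (nat_lit 54223071898992639))))) (T.h (P (nat_lit 0)) (T.h (T.h (P (nat_lit 0)) (P (nat_lit 257575463700398080))) (P (nat_lit 0))))))) (T.h (T.h (P (nat_lit 0)) (T.h (T.h (P (nat_lit 5899014123501182892638208)) (T.h (P (nat_lit 0)) (M (nat_lit 48526920699881717759)))) (T.h (P (nat_lit 0)) (P (nat_lit 145664511497142796288))))) (T.h (T.h (T.h (P (nat_lit 0)) (T.h (M (nat_lit 5267182525265582489599)) (T.h (P (nat_lit 0)) (M (nat_lit 21870792650588159))))) (T.h (P (nat_lit 0)) (T.h (T.h (P (nat_lit 0)) (P (nat_lit 26232532882948096))) (P (nat_lit 0))))) (T.h (T.h (P (nat_lit 0)) (M (nat_lit 12492875247927689215)))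 (T.h (T.h (T.h (P (nat_lit 0)) (M (nat_lit 23860068554997759))) (P (nat_lit 0))) (P (nat_lit 0))))))), (T.h (T.h (T.h (P (nat_lit 1125191178323626060599525376000)) (T.h (P (nat_lit 0)) (T.h (P (nat_lit 5767003101391923837927424)) (T.h (P (nat_lit 0)) (T.h (P (nat_lit 2169328327335084032)) (T.h (P (nat_lit 0)) (P (nat_lit 3821769693456)))))))) (T.h (P (nat_lit 0)) (T.h (T.h (M (nat_lit 46278492287481778855215103)) (T.h (P (nat_lit 0)) (T.h (M (nat_lit 217516683191390306303)) (T.h (P (nat_lit 0)) (M (nat_lit 17832029004943)))))) (T.h (P (nat_lit 0)) (T.h (T.h (M (nat_lit 156129275264035192831)) (T.h (P (nat_lit 0)) (P (nat_lit 33231154151888)))) (T.h (P (nat_lit 0)) (P (nat_lit 130481994932784)))))))) (T.h (T.h (P (nat_lit 0)) (T.h (T.h (P (nat_lit 0)) (T.h (M (nat_lit 56440631814495246745599)) (T.h (P (nat_lit 0)) (M (nat_lit 115810020998676479))))) (T.h (P (nat_lit 0)) (T.h (T.h (P (nat_lit 0)) (P (nat_lit 297687919684386816))) (P (nat_lit 0)))))) (T.h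 (T.h (T.h (P (nat_lit 12526376508625760402014208)) (T.h (P (nat_lit 0)) (T.h (P (nat_lit 1877110365234397184)) (T.h (P (nat_lit 0)) (M (nat_lit 49126568938831)))))) (T.h (P (nat_lit 0)) (T.h (T.h (M (nat_lit 267369536469543682047)) (T.h (P (nat_lit 0)) (P (nat_lit 109922351265936)))) (T.h (P (nat_lit 0)) (P (nat_lit 78162321228816)))))) (T.h (T.h (P (nat_lit 0)) (T.h (T.h (P (nat_lit 0)) (M (nat_lit 11779929606979583))) (P (nat_lit 0)))) (T.h (T.h (T.h (M (nat_lit 9306149800544043007)) (T.h (P (nat_lit 0)) (M (nat_lit 52667779269951)))) (T.h (P (nat_lit 0)) (P (nat_lit 129681242717312)))) (T.h (P (nat_lit 0)) (P (nat_lit 1586148909312)))))))), (T.h (T.h (T.h (P (nat_lit 0)) (T.h (M (nat_lit 3852606373610495334007439359)) (T.h (P (nat_lit 0)) (T.h (P (nat_lit 22505124835361908850688)) (T.h (P (nat_lit 0)) (M (nat_lit 4950061242613759))))))) (T.h (P (nat_lit 0)) (T.h (T.h (P (nat_lit 0)) (T.h (M (nat_lit 245447685447027747979263)) (T.h (P (nat_lit 0))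 (M (nat_lit 47461522852282367))))) (T.h (P (nat_lit 0)) (T.h (T.h (P (nat_lit 0)) (M (nat_lit 282237081034981375))) (P (nat_lit 0))))))) (T.h (T.h (P (nat_lit 0)) (T.h (T.h (M (nat_lit 59607409781330600397897727)) (T.h (P (nat_lit 0)) (P (nat_lit 114307951635558563840)))) (T.h (P (nat_lit 0)) (P (nat_lit 1752441552205047136256))))) (T.h (T.h (T.h (P (nat_lit 0)) (T.h (P (nat_lit 6837357369292922814464)) (T.h (P (nat_lit 0)) (P (nat_lit 46638150502907904))))) (T.h (P (nat_lit 0)) (T.h (T.h (P (nat_lit 0)) (M (nat_lit 110716026291683327))) (P (nat_lit 0))))) (T.h (T.h (P (nat_lit 0)) (P (nat_lit 18434105099233001472))) (T.h (T.h (T.h (P (nat_lit 0)) (P (nat_lit 59169193778446336))) (P (nat_lit 0))) (P (nat_lit 0))))))), (P (nat_lit 0)), (T.h (T.h (P (nat_lit 0)) (T.h (T.h (P (nat_lit 3166846873336167602856132608)) (T.h (P (nat_lit 0)) (T.h (P (nat_lit 35266817870928178839552)) (T.h (P (nat_lit 0)) (M (nat_lit 384693298659327)))))) (T.h (P (nat_lit 0))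 (T.h (T.h (M (nat_lit 14344602706940511911935)) (T.h (P (nat_lit 0)) (M (nat_lit 12694745432686591)))) (T.h (P (nat_lit 0)) (M (nat_lit 65582421789278207))))))) (T.h (T.h (T.h (P (nat_lit 0)) (T.h (P (nat_lit 9767776142240778154934272)) (T.h (P (nat_lit 0)) (P (nat_lit 11252920928419446784))))) (T.h (P (nat_lit 0)) (T.h (T.h (P (nat_lit 0)) (M (nat_lit 145672624222347722751))) (P (nat_lit 0))))) (T.h (T.h (P (nat_lit 0)) (T.h (T.h (P (nat_lit 54548994911447583555584)) (T.h (P (nat_lit 0)) (M (nat_lit 41064510206017535)))) (T.h (P (nat_lit 0)) (M (nat_lit 58682876268085247))))) (T.h (T.h (T.h (P (nat_lit 0)) (M (nat_lit 181177798486917119))) (P (nat_lit 0))) (T.h (T.h (P (nat_lit 0)) (M (nat_lit 42086344733622271))) (P (nat_lit 0))))))), (P (nat_lit 0)), (P (nat_lit 0))]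
def lP12_27 : List (T ℤ) := [(P (nat_lit 0)), (T.h (T.h (T.h (M (nat_lit 180042904463567493730641379327)) (T.h (P (nat_lit 0)) (T.h (M (nat_lit 50604608501043118359969791)) (T.h (P (nat_lit 0)) (T.h (M (nat_lit 85682156982044196863)) (T.h (P (nat_lit 0)) (M (nat_lit 66258382959479)))))))) (T.h (P (nat_lit 0)) (T.h (T.h (M (nat_lit 3599552365930501812256767)) (T.h (P (nat_lit 0)) (T.h (P (nat_lit 2880407971274162176)) (T.h (P (nat_lit 0)) (M (nat_lit 395213530558839)))))) (T.h (P (nat_lit 0)) (T.h (T.h (P (nat_lit 2427450257295015936)) (T.h (P (nat_lit 0)) (M (nat_lit 7555580463959)))) (T.h (P (nat_lit 0)) (M (nat_lit 6659018157895)))))))) (T.h (T.h (P (nat_lit 0)) (T.h (T.h (P (nat_lit 0)) (T.h (M (nat_lit 29521306751057308680191)) (T.h (P (nat_lit 0)) (P (nat_lit 200811651344203776))))) (T.h (P (nat_lit 0)) (T.h (T.h (P (nat_lit 0)) (M (nat_lit 10851863430365183))) (P (nat_lit 0)))))) (T.h (T.h (T.h (M (nat_lit 1556834313162951344783359)) (T.h (P (nat_lit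 0)) (T.h (M (nat_lit 78066595520508329983)) (T.h (P (nat_lit 0)) (P (nat_lit 61034241029904)))))) (T.h (P (nat_lit 0)) (T.h (T.h (M (nat_lit 8553049217306722303)) (T.h (P (nat_lit 0)) (M (nat_lit 28363925486959)))) (T.h (P (nat_lit 0)) (M (nat_lit 25839249071415)))))) (T.h (T.h (P (nat_lit 0)) (T.h (T.h (P (nat_lit 0)) (P (nat_lit 12287555236429824))) (P (nat_lit 0)))) (T.h (T.h (T.h (P (nat_lit 1763483927068016640)) (T.h (P (nat_lit 0)) (P (nat_lit 20783046736224)))) (T.h (P (nat_lit 0)) (P (nat_lit 76900174056)))) (T.h (P (nat_lit 0)) (P (nat_lit 2414548813176)))))))), (P (nat_lit 0)), (T.h (T.h (T.h (P (nat_lit 2243599753894167970128685170688)) (T.h (P (nat_lit 0)) (T.h (M (nat_lit 12776963099183932931833855)) (T.h (P (nat_lit 0)) (P (nat_lit 63960238512519774208)))))) (T.h (P (nat_lit 0)) (T.h (T.h (P (nat_lit 8920633791885050512408576)) (T.h (P (nat_lit 0)) (M (nat_lit 53559359673628360703)))) (T.h (P (nat_lit 0)) (M (nat_lit 2815302474502504447))))))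 (T.h (T.h (P (nat_lit 0)) (T.h (T.h (P (nat_lit 0)) (T.h (M (nat_lit 36250140656928624214015)) (T.h (P (nat_lit 0)) (P (nat_lit 332371695657680896))))) (T.h (P (nat_lit 0)) (T.h (T.h (P (nat_lit 0)) (M (nat_lit 7675027309985791))) (P (nat_lit 0)))))) (T.h (T.h (T.h (M (nat_lit 10138881664159769591545855)) (T.h (P (nat_lit 0)) (M (nat_lit 190753461224322629631)))) (T.h (P (nat_lit 0)) (M (nat_lit 7524778741155758079)))) (T.h (T.h (P (nat_lit 0)) (T.h (T.h (P (nat_lit 0)) (P (nat_lit 51053054277124096))) (P (nat_lit 0)))) (M (nat_lit 12879166026821926911)))))), (P (nat_lit 0)), (P (nat_lit 0)), (P (nat_lit 0)), (P (nat_lit 0))]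
def lP12_28 : List (T ℤ) := [(T.h (T.h (P (nat_lit 0)) (T.h (T.h (P (nat_lit 0)) (T.h (M (nat_lit 70282788520212002987048959)) (T.h (P (nat_lit 0)) (T.h (P (nat_lit 186038591782536609792)) (T.h (P (nat_lit 0)) (P (nat_lit 5409626949120))))))) (T.h (P (nat_lit 0)) (T.h (T.h (P (nat_lit 0)) (T.h (P (nat_lit 19782959448671125504)) (T.h (P (nat_lit 0)) (P (nat_lit 26624326517328))))) (T.h (P (nat_lit 0)) (T.h (T.h (P (nat_lit 0)) (P (nat_lit 82084294785680))) (P (nat_lit 0)))))))) (T.h (T.h (T.h (P (nat_lit 47459745115653654408549367808)) (T.h (P (nat_lit 0)) (T.h (M (nat_lit 1854254736957279043583)) (T.h (P (nat_lit 0)) (P (nat_lit 489850942301470720)))))) (T.h (P (nat_lit 0)) (T.h (T.h (M (nat_lit 54596855048417207910399)) (T.h (P (nat_lit 0)) (M (nat_lit 224942595649896447)))) (T.h (P (nat_lit 0)) (M (nat_lit 3799361523154943)))))) (T.h (T.h (P (nat_lit 0)) (T.h (T.h (P (nat_lit 0)) (T.h (M (nat_lit 150280771890218795007)) (T.h (P (nat_lit 0)) (M (nat_lit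 377630158793615))))) (T.h (P (nat_lit 0)) (T.h (T.h (P (nat_lit 0)) (P (nat_lit 332834020739840))) (P (nat_lit 0)))))) (T.h (T.h (T.h (M (nat_lit 70950815466224592355327)) (T.h (P (nat_lit 0)) (M (nat_lit 61833881201737727)))) (T.h (P (nat_lit 0)) (P (nat_lit 43742808133337088)))) (T.h (T.h (P (nat_lit 0)) (T.h (T.h (P (nat_lit 0)) (P (nat_lit 9791888052144))) (P (nat_lit 0)))) (P (nat_lit 46038140793520128))))))), (T.h (T.h (P (nat_lit 0)) (T.h (T.h (P (nat_lit 497432562566840426191388672)) (T.h (P (nat_lit 0)) (T.h (M (nat_lit 40027040615283331956735)) (T.h (P (nat_lit 0)) (P (nat_lit 36767111433682944)))))) (T.h (P (nat_lit 0)) (T.h (T.h (P (nat_lit 2862054342291145883648)) (T.h (P (nat_lit 0)) (M (nat_lit 37782777461571583)))) (T.h (P (nat_lit 0)) (P (nat_lit 9812205560987648))))))) (T.h (T.h (T.h (P (nat_lit 0)) (T.h (P (nat_lit 70526209065233796783144960)) (T.h (P (nat_lit 0)) (T.h (M (nat_lit 817769225884234940415)) (T.h (P (nat_lit 0)) (P (nat_lit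 5629987302560))))))) (T.h (P (nat_lit 0)) (T.h (T.h (P (nat_lit 0)) (T.h (M (nat_lit 103247090398378590207)) (T.h (P (nat_lit 0)) (M (nat_lit 138743880398239))))) (T.h (P (nat_lit 0)) (T.h (T.h (P (nat_lit 0)) (P (nat_lit 33481742598912))) (P (nat_lit 0))))))) (T.h (T.h (P (nat_lit 0)) (T.h (T.h (P (nat_lit 6876364827149293584384)) (T.h (P (nat_lit 0)) (M (nat_lit 145468263997390847)))) (T.h (P (nat_lit 0)) (P (nat_lit 45885516106907648))))) (T.h (T.h (T.h (P (nat_lit 0)) (T.h (P (nat_lit 23338111321054904320)) (T.h (P (nat_lit 0)) (P (nat_lit 346327786339536))))) (T.h (P (nat_lit 0)) (T.h (T.h (P (nat_lit 0)) (P (nat_lit 18354663940000))) (P (nat_lit 0))))) (T.h (T.h (P (nat_lit 0)) (P (nat_lit 6341612324782080))) (T.h (T.h (T.h (P (nat_lit 0)) (M (nat_lit 20915930440255))) (P (nat_lit 0))) (P (nat_lit 0)))))))), (T.h (T.h (P (nat_lit 0)) (T.h (T.h (P (nat_lit 0)) (T.h (M (nat_lit 31719912667448057836601343)) (T.h (P (nat_lit 0)) (T.h (P (nat_lit 675995662175975768064))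 (T.h (P (nat_lit 0)) (P (nat_lit 92390346224128))))))) (T.h (P (nat_lit 0)) (T.h (T.h (P (nat_lit 0)) (T.h (M (nat_lit 8134885194185310207)) (T.h (P (nat_lit 0)) (M (nat_lit 173328127994111))))) (T.h (P (nat_lit 0)) (T.h (T.h (P (nat_lit 0)) (M (nat_lit 10339465218239))) (P (nat_lit 0)))))))) (T.h (T.h (T.h (M (nat_lit 20824362561680682226972360703)) (T.h (P (nat_lit 0)) (T.h (P (nat_lit 301450280915930884079616)) (T.h (P (nat_lit 0)) (P (nat_lit 501317009212112896)))))) (T.h (P (nat_lit 0)) (T.h (T.h (P (nat_lit 41072297347287196106752)) (T.h (P (nat_lit 0)) (M (nat_lit 367516644263231487)))) (T.h (P (nat_lit 0)) (P (nat_lit 88130811017691136)))))) (T.h (T.h (P (nat_lit 0)) (T.h (T.h (P (nat_lit 0)) (T.h (M (nat_lit 84239884126498324479)) (T.h (P (nat_lit 0)) (P (nat_lit 323801007112640))))) (T.h (P (nat_lit 0)) (T.h (T.h (P (nat_lit 0)) (M (nat_lit 129680774576831))) (P (nat_lit 0)))))) (T.h (T.h (T.h (M (nat_lit 56182821850849585659903)) (T.h (P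 (nat_lit 0)) (M (nat_lit 267609153307475967)))) (T.h (P (nat_lit 0)) (P (nat_lit 37798245059624960)))) (T.h (T.h (P (nat_lit 0)) (T.h (T.h (P (nat_lit 0)) (M (nat_lit 135092302434559))) (P (nat_lit 0)))) (P (nat_lit 175120981189033984))))))), (T.h (T.h (P (nat_lit 0)) (T.h (T.h (P (nat_lit 15233738752004595955919749120)) (T.h (P (nat_lit 0)) (T.h (M (nat_lit 190912665759102877564927)) (T.h (P (nat_lit 0)) (M (nat_lit 59401021968924671)))))) (T.h (P (nat_lit 0)) (T.h (T.h (M (nat_lit 21694648982052280467455)) (T.h (P (nat_lit 0)) (P (nat_lit 117065434944339968)))) (T.h (P (nat_lit 0)) (M (nat_lit 8026129388699647))))))) (T.h (T.h (T.h (P (nat_lit 0)) (T.h (M (nat_lit 80905210978061627915501567)) (T.h (P (nat_lit 0)) (T.h (P (nat_lit 966498054002410782720)) (T.h (P (nat_lit 0)) (M (nat_lit 202010613196303))))))) (T.h (P (nat_lit 0)) (T.h (T.h (P (nat_lit 0)) (T.h (P (nat_lit 180384892735593644032)) (T.h (P (nat_lit 0)) (M (nat_lit 160765879742335)))))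 (T.h (P (nat_lit 0)) (T.h (T.h (P (nat_lit 0)) (M (nat_lit 46938132056991))) (P (nat_lit 0))))))) (T.h (T.h (P (nat_lit 0)) (T.h (T.h (M (nat_lit 50588246820526462337023)) (T.h (P (nat_lit 0)) (M (nat_lit 481125668614946815)))) (T.h (P (nat_lit 0)) (P (nat_lit 153507077665947648))))) (T.h (T.h (T.h (P (nat_lit 0)) (T.h (P (nat_lit 104709661005493305344)) (T.h (P (nat_lit 0)) (M (nat_lit 40807260833679))))) (T.h (P (nat_lit 0)) (T.h (T.h (P (nat_lit 0)) (M (nat_lit 153951304182895))) (P (nat_lit 0))))) (T.h (T.h (P (nat_lit 0)) (P (nat_lit 37657315048210432))) (T.h (T.h (T.h (P (nat_lit 0)) (P (nat_lit 9843633707952))) (P (nat_lit 0))) (P (nat_lit 0)))))))), (T.h (T.h (P (nat_lit 0)) (T.h (T.h (P (nat_lit 0)) (T.h (P (nat_lit 68480659706341009634885632)) (T.h (P (nat_lit 0)) (M (nat_lit 76622548805082939391))))) (T.h (P (nat_lit 0)) (T.h (T.h (P (nat_lit 0)) (P (nat_lit 11930534835996590080))) (P (nat_lit 0)))))) (T.h (T.h (T.h (P (nat_lit 9479945226855203678944493568))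 (T.h (P (nat_lit 0)) (T.h (M (nat_lit 252405377024740638588927)) (T.h (P (nat_lit 0)) (P (nat_lit 158948710125174784)))))) (T.h (P (nat_lit 0)) (T.h (T.h (M (nat_lit 15229871120192928481279)) (T.h (P (nat_lit 0)) (P (nat_lit 48863964941058048)))) (T.h (P (nat_lit 0)) (P (nat_lit 27031974620561408)))))) (T.h (T.h (P (nat_lit 0)) (T.h (T.h (P (nat_lit 0)) (P (nat_lit 28561419631895511040))) (P (nat_lit 0)))) (T.h (T.h (T.h (M (nat_lit 8055960460481364230143)) (T.h (P (nat_lit 0)) (M (nat_lit 73784448161644543)))) (T.h (P (nat_lit 0)) (P (nat_lit 67886065340547072)))) (T.h (P (nat_lit 0)) (M (nat_lit 3604578148319231))))))), (P (nat_lit 0)), (P (nat_lit 0)), (T.h (T.h (T.h (M (nat_lit 5338567457922508043020897615871)) (T.h (P (nat_lit 0)) (T.h (M (nat_lit 85297280122588997443649535)) (T.h (P (nat_lit 0)) (T.h (P (nat_lit 34834759265762148352)) (T.h (P (nat_lit 0)) (M (nat_lit 231272050933343)))))))) (T.h (P (nat_lit 0)) (T.h (T.h (M (nat_lit 46955711849068381081698303))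 (T.h (P (nat_lit 0)) (T.h (P (nat_lit 134178937822343331840)) (T.h (P (nat_lit 0)) (M (nat_lit 21013397524391)))))) (T.h (P (nat_lit 0)) (T.h (T.h (P (nat_lit 29842629628864233472)) (T.h (P (nat_lit 0)) (P (nat_lit 1084839383109888)))) (T.h (P (nat_lit 0)) (M (nat_lit 133435491809295)))))))) (T.h (T.h (P (nat_lit 0)) (T.h (T.h (P (nat_lit 0)) (T.h (M (nat_lit 245710577775079698989055)) (T.h (P (nat_lit 0)) (M (nat_lit 994696242058756095))))) (T.h (P (nat_lit 0)) (T.h (T.h (P (nat_lit 0)) (M (nat_lit 457101036895993855))) (P (nat_lit 0)))))) (T.h (T.h (T.h (P (nat_lit 20069198988214830060535808)) (T.h (P (nat_lit 0)) (T.h (M (nat_lit 89897287250813648895)) (T.h (P (nat_lit 0)) (P (nat_lit 907278604781576)))))) (T.h (P (nat_lit 0)) (T.h (T.h (M (nat_lit 114604406934480093183)) (T.h (P (nat_lit 0)) (P (nat_lit 577501549530240)))) (T.h (P (nat_lit 0)) (M (nat_lit 98322921112271)))))) (T.h (T.h (P (nat_lit 0)) (T.h (T.h (P (nat_lit 0)) (M (nat_lit 585148180339228671)))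 (P (nat_lit 0)))) (T.h (T.h (T.h (M (nat_lit 26207994175194923007)) (T.h (P (nat_lit 0)) (M (nat_lit 1750071626373695)))) (T.h (P (nat_lit 0)) (M (nat_lit 35986225394639)))) (T.h (P (nat_lit 0)) (P (nat_lit 49577397755120))))))))]
def lP12_29 : List (T ℤ) := [(T.h (T.h (T.h (P (nat_lit 0)) (T.h (P (nat_lit 165657683186759434277748736)) (T.h (P (nat_lit 0)) (T.h (M (nat_lit 151525430621372818653183)) (T.h (P (nat_lit 0)) (M (nat_lit 4766301716283391))))))) (T.h (P (nat_lit 0)) (T.h (T.h (P (nat_lit 0)) (T.h (M (nat_lit 9028346044505141542911)) (T.h (P (nat_lit 0)) (M (nat_lit 327822764628525055))))) (T.h (P (nat_lit 0)) (T.h (T.h (P (nat_lit 0)) (M (nat_lit 169082224198090751))) (P (nat_lit 0))))))) (T.h (T.h (P (nat_lit 0)) (T.h (T.h (M (nat_lit 69642946525185967036301311)) (T.h (P (nat_lit 0)) (T.h (P (nat_lit 398757292396802736128)) (T.h (P (nat_lit 0)) (P (nat_lit 20469176266336)))))) (T.h (P (nat_lit 0)) (T.h (T.h (P (nat_lit 30453531548156166144))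 (T.h (P (nat_lit 0)) (P (nat_lit 713975442312624)))) (T.h (P (nat_lit 0)) (M (nat_lit 22027988921247))))))) (T.h (T.h (T.h (P (nat_lit 0)) (T.h (P (nat_lit 12971391210968743673856)) (T.h (P (nat_lit 0)) (M (nat_lit 503218121177612287))))) (T.h (P (nat_lit 0)) (T.h (T.h (P (nat_lit 0)) (P (nat_lit 27697189017501696))) (P (nat_lit 0))))) (T.h (T.h (P (nat_lit 0)) (T.h (T.h (M (nat_lit 107611019278756610047)) (T.h (P (nat_lit 0)) (P (nat_lit 145511679509456)))) (T.h (P (nat_lit 0)) (M (nat_lit 45475820045455))))) (T.h (T.h (T.h (P (nat_lit 0)) (P (nat_lit 721582360884019200))) (P (nat_lit 0))) (T.h (T.h (P (nat_lit 0)) (P (nat_lit 20495869015824))) (P (nat_lit 0)))))))), (T.h (T.h (T.h (M (nat_lit 8818353024179931735201884930047)) (T.h (P (nat_lit 0)) (T.h (P (nat_lit 166866016503799887335260160)) (T.h (P (nat_lit 0)) (T.h (M (nat_lit 183580498464606257151)) (T.h (P (nat_lit 0)) (M (nat_lit 144862093652351)))))))) (T.h (P (nat_lit 0)) (T.h (T.h (P (nat_lit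 55413767513758317454295040)) (T.h (P (nat_lit 0)) (T.h (M (nat_lit 139265195785332981759)) (T.h (P (nat_lit 0)) (P (nat_lit 9606960604224)))))) (T.h (P (nat_lit 0)) (T.h (T.h (M (nat_lit 63738365578122887167)) (T.h (P (nat_lit 0)) (M (nat_lit 466928359457407)))) (T.h (P (nat_lit 0)) (P (nat_lit 15993966832384)))))))) (T.h (T.h (P (nat_lit 0)) (T.h (T.h (P (nat_lit 0)) (T.h (M (nat_lit 196747722902816702857215)) (T.h (P (nat_lit 0)) (M (nat_lit 353369871344730111))))) (T.h (P (nat_lit 0)) (T.h (T.h (P (nat_lit 0)) (P (nat_lit 43518887258161152))) (P (nat_lit 0)))))) (T.h (T.h (T.h (M (nat_lit 123506378541640818710544383)) (T.h (P (nat_lit 0)) (T.h (M (nat_lit 211105874731748818943)) (T.h (P (nat_lit 0)) (P (nat_lit 262688387398912)))))) (T.h (P (nat_lit 0)) (T.h (T.h (P (nat_lit 116648120524705103872)) (T.h (P (nat_lit 0)) (P (nat_lit 665330991811392)))) (T.h (P (nat_lit 0)) (P (nat_lit 139694028686272)))))) (T.h (T.h (P (nat_lit 0)) (T.h (T.h (P (nat_lit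 0)) (P (nat_lit 74222768309403648))) (P (nat_lit 0)))) (T.h (T.h (T.h (P (nat_lit 116357653871691038720)) (T.h (P (nat_lit 0)) (P (nat_lit 1638605785130944)))) (T.h (P (nat_lit 0)) (P (nat_lit 5134246787648)))) (T.h (P (nat_lit 0)) (M (nat_lit 176948586303359)))))))), (T.h (T.h (T.h (P (nat_lit 0)) (T.h (P (nat_lit 17704389529118597248316342272)) (T.h (P (nat_lit 0)) (T.h (M (nat_lit 80612603565561887064063)) (T.h (P (nat_lit 0)) (P (nat_lit 552199261127180288))))))) (T.h (P (nat_lit 0)) (T.h (T.h (P (nat_lit 0)) (T.h (P (nat_lit 179029490075745973698560)) (T.h (P (nat_lit 0)) (P (nat_lit 261691826528878592))))) (T.h (P (nat_lit 0)) (T.h (T.h (P (nat_lit 0)) (P (nat_lit 328597930403921920))) (P (nat_lit 0))))))) (T.h (T.h (P (nat_lit 0)) (T.h (T.h (P (nat_lit 90555554163492652484395008)) (T.h (P (nat_lit 0)) (T.h (P (nat_lit 38138849773442039808)) (T.h (P (nat_lit 0)) (P (nat_lit 1882318035580224)))))) (T.h (P (nat_lit 0)) (T.h (T.h (P (nat_lit 14186840661470216192))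 (T.h (P (nat_lit 0)) (P (nat_lit 130585546475472)))) (T.h (P (nat_lit 0)) (P (nat_lit 110851673169776))))))) (T.h (T.h (T.h (P (nat_lit 0)) (T.h (M (nat_lit 89931286064732739469311)) (T.h (P (nat_lit 0)) (M (nat_lit 315189760276332543))))) (T.h (P (nat_lit 0)) (T.h (T.h (P (nat_lit 0)) (M (nat_lit 271088118705799167))) (P (nat_lit 0))))) (T.h (T.h (P (nat_lit 0)) (T.h (T.h (M (nat_lit 71140088274038554623)) (T.h (P (nat_lit 0)) (P (nat_lit 361794974546192)))) (T.h (P (nat_lit 0)) (M (nat_lit 25054827595247))))) (T.h (T.h (T.h (P (nat_lit 0)) (M (nat_lit 637775820071223295))) (P (nat_lit 0))) (T.h (T.h (P (nat_lit 0)) (P (nat_lit 172986961464416))) (P (nat_lit 0)))))))), (T.h (T.h (T.h (M (nat_lit 16610131237050969157222881296383)) (T.h (P (nat_lit 0)) (T.h (M (nat_lit 23126752110161750401220607)) (T.h (P (nat_lit 0)) (P (nat_lit 118912105825926381568)))))) (T.h (P (nat_lit 0)) (T.h (T.h (M (nat_lit 12159185391653889647837183)) (T.h (P (nat_lit 0)) (M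 (nat_lit 12886189783738482687)))) (T.h (P (nat_lit 0)) (M (nat_lit 8542965040104341503)))))) (T.h (T.h (P (nat_lit 0)) (T.h (T.h (P (nat_lit 0)) (T.h (P (nat_lit 170774383045035088150528)) (T.h (P (nat_lit 0)) (M (nat_lit 1474979290622656511))))) (T.h (P (nat_lit 0)) (T.h (T.h (P (nat_lit 0)) (P (nat_lit 7959988333117440))) (P (nat_lit 0)))))) (T.h (T.h (T.h (P (nat_lit 78577746382943512002822144)) (T.h (P (nat_lit 0)) (P (nat_lit 254876444120481529856)))) (T.h (P (nat_lit 0)) (M (nat_lit 26916983604714143743)))) (T.h (T.h (P (nat_lit 0)) (T.h (T.h (P (nat_lit 0)) (M (nat_lit 116902649026969599))) (P (nat_lit 0)))) (M (nat_lit 44363430733904084991)))))), (P (nat_lit 0)), (P (nat_lit 0)), (T.h (T.h (P (nat_lit 0)) (T.h (T.h (P (nat_lit 0)) (T.h (M (nat_lit 206082642140527332819992575)) (T.h (P (nat_lit 0)) (T.h (M (nat_lit 64204830629374722047)) (T.h (P (nat_lit 0)) (P (nat_lit 99694777178784))))))) (T.h (P (nat_lit 0)) (T.h (T.h (P (nat_lit 0)) (T.h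 (M (nat_lit 64204830629374722047)) (T.h (P (nat_lit 0)) (M (nat_lit 1338048438227807))))) (T.h (P (nat_lit 0)) (T.h (T.h (P (nat_lit 0)) (P (nat_lit 99694777178784))) (P (nat_lit 0)))))))) (T.h (T.h (T.h (M (nat_lit 14332485392808745259960893439)) (T.h (P (nat_lit 0)) (T.h (P (nat_lit 78884506499206021644288)) (T.h (P (nat_lit 0)) (P (nat_lit 48376957540892672)))))) (T.h (P (nat_lit 0)) (T.h (T.h (P (nat_lit 78884506499206021644288)) (T.h (P (nat_lit 0)) (P (nat_lit 838123079447871488)))) (T.h (P (nat_lit 0)) (P (nat_lit 48376957540892672)))))) (T.h (T.h (P (nat_lit 0)) (T.h (T.h (P (nat_lit 0)) (T.h (P (nat_lit 5302163488347521024)) (T.h (P (nat_lit 0)) (P (nat_lit 986681320876016))))) (T.h (P (nat_lit 0)) (T.h (T.h (P (nat_lit 0)) (P (nat_lit 986681320876016))) (P (nat_lit 0)))))) (T.h (T.h (T.h (P (nat_lit 129214713397353042149376)) (T.h (P (nat_lit 0)) (P (nat_lit 679217437587079168)))) (T.h (P (nat_lit 0)) (P (nat_lit 679217437587079168)))) (T.h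 (T.h (P (nat_lit 0)) (T.h (T.h (P (nat_lit 0)) (M (nat_lit 942424797509727))) (P (nat_lit 0)))) (M (nat_lit 81858968652611583))))))), (T.h (T.h (P (nat_lit 0)) (T.h (T.h (P (nat_lit 43111497731872443338430873600)) (T.h (P (nat_lit 0)) (T.h (P (nat_lit 157214722787301100879872)) (T.h (P (nat_lit 0)) (P (nat_lit 216386606228307968)))))) (T.h (P (nat_lit 0)) (T.h (T.h (M (nat_lit 102982073453446374096895)) (T.h (P (nat_lit 0)) (P (nat_lit 168205524974878720)))) (T.h (P (nat_lit 0)) (P (nat_lit 54899546767654912))))))) (T.h (T.h (T.h (P (nat_lit 0)) (T.h (M (nat_lit 2037213361489810666029055)) (T.h (P (nat_lit 0)) (T.h (M (nat_lit 445318853096277803007)) (T.h (P (nat_lit 0)) (M (nat_lit 216556818452527))))))) (T.h (P (nat_lit 0)) (T.h (T.h (P (nat_lit 0)) (T.h (M (nat_lit 634602642326310354943)) (T.h (P (nat_lit 0)) (P (nat_lit 138986061083440))))) (T.h (P (nat_lit 0)) (T.h (T.h (P (nat_lit 0)) (P (nat_lit 354904499076288))) (P (nat_lit 0))))))) (T.h (T.h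 (P (nat_lit 0)) (T.h (T.h (P (nat_lit 157214722787301100879872)) (T.h (P (nat_lit 0)) (M (nat_lit 1699343854229880831)))) (T.h (P (nat_lit 0)) (P (nat_lit 168205524974878720))))) (T.h (T.h (T.h (P (nat_lit 0)) (T.h (M (nat_lit 445318853096277803007)) (T.h (P (nat_lit 0)) (P (nat_lit 119539678158720))))) (T.h (P (nat_lit 0)) (T.h (T.h (P (nat_lit 0)) (P (nat_lit 138986061083440))) (P (nat_lit 0))))) (T.h (T.h (P (nat_lit 0)) (P (nat_lit 216386606228307968))) (T.h (T.h (T.h (P (nat_lit 0)) (M (nat_lit 216556818452527))) (P (nat_lit 0))) (P (nat_lit 0))))))))]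
def lP12_30 : List (T ℤ) := [(T.h (T.h (P (nat_lit 0)) (T.h (T.h (P (nat_lit 0)) (T.h (P (nat_lit 84637449927437592586878976)) (T.h (P (nat_lit 0)) (T.h (M (nat_lit 188001457069308772351)) (T.h (P (nat_lit 0)) (M (nat_lit 369702816473023))))))) (T.h (P (nat_lit 0)) (T.h (T.h (P (nat_lit 0)) (T.h (M (nat_lit 1209966268769988771839)) (T.h (P (nat_lit 0)) (P (nat_lit 516072503077568))))) (T.h (P (nat_lit 0)) (T.h (T.h (P (nat_lit 0)) (M (nat_lit 121815508078015))) (P (nat_lit 0)))))))) (T.h (T.h (T.h (M (nat_lit 20811591493376827556488019967)) (T.h (P (nat_lit 0)) (T.h (M (nat_lit 455458949706913043972095)) (T.h (P (nat_lit 0)) (M (nat_lit 1722093150224285695)))))) (T.h (P (nat_lit 0)) (T.h (T.h (P (nat_lit 294404804593739148296192)) (T.h (P (nat_lit 0)) (M (nat_lit 1320413637248778239)))) (T.h (P (nat_lit 0)) (P (nat_lit 114110172526739456)))))) (T.h (T.h (P (nat_lit 0)) (T.h (T.h (P (nat_lit 0)) (T.h (P (nat_lit 1000159100342953312256)) (T.h (P (nat_lit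 0)) (M (nat_lit 1713831813225279))))) (T.h (P (nat_lit 0)) (T.h (T.h (P (nat_lit 0)) (M (nat_lit 224767721017791))) (P (nat_lit 0)))))) (T.h (T.h (T.h (P (nat_lit 138382734029299283656704)) (T.h (P (nat_lit 0)) (M (nat_lit 721152103022100479)))) (T.h (P (nat_lit 0)) (P (nat_lit 102363710486249472)))) (T.h (T.h (P (nat_lit 0)) (T.h (T.h (P (nat_lit 0)) (P (nat_lit 446795098412288))) (P (nat_lit 0)))) (M (nat_lit 198796221259284479))))))), (T.h (T.h (P (nat_lit 0)) (T.h (T.h (P (nat_lit 15677591072367322300300656640)) (T.h (P (nat_lit 0)) (T.h (M (nat_lit 80225454229987296018431)) (T.h (P (nat_lit 0)) (P (nat_lit 406047358910349312)))))) (T.h (P (nat_lit 0)) (T.h (T.h (P (nat_lit 156999705636988086386688)) (T.h (P (nat_lit 0)) (M (nat_lit 758027608558993407)))) (T.h (P (nat_lit 0)) (M (nat_lit 109732311915266047))))))) (T.h (T.h (T.h (P (nat_lit 0)) (T.h (M (nat_lit 144571093088878722082144255)) (T.h (P (nat_lit 0)) (T.h (M (nat_lit 1203278113101479673855))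 (T.h (P (nat_lit 0)) (P (nat_lit 346719340363264))))))) (T.h (P (nat_lit 0)) (T.h (T.h (P (nat_lit 0)) (T.h (P (nat_lit 428197490780142567424)) (T.h (P (nat_lit 0)) (M (nat_lit 209987776456831))))) (T.h (P (nat_lit 0)) (T.h (T.h (P (nat_lit 0)) (M (nat_lit 842506019795263))) (P (nat_lit 0))))))) (T.h (T.h (P (nat_lit 0)) (T.h (T.h (M (nat_lit 6589294144119426252799)) (T.h (P (nat_lit 0)) (P (nat_lit 428044420578607104)))) (T.h (P (nat_lit 0)) (P (nat_lit 113445062206210048))))) (T.h (T.h (T.h (P (nat_lit 0)) (T.h (P (nat_lit 449961078820777754624)) (T.h (P (nat_lit 0)) (M (nat_lit 204484843713391))))) (T.h (P (nat_lit 0)) (T.h (T.h (P (nat_lit 0)) (P (nat_lit 295459527894608))) (P (nat_lit 0))))) (T.h (T.h (P (nat_lit 0)) (M (nat_lit 127417732331454463))) (T.h (T.h (T.h (P (nat_lit 0)) (M (nat_lit 233783438575983))) (P (nat_lit 0))) (P (nat_lit 0)))))))), (T.h (T.h (P (nat_lit 0)) (T.h (T.h (P (nat_lit 0)) (T.h (P (nat_lit 71817996516439123818446848))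 (T.h (P (nat_lit 0)) (P (nat_lit 237324560957846847488))))) (T.h (P (nat_lit 0)) (T.h (T.h (P (nat_lit 0)) (P (nat_lit 293417813422567849984))) (P (nat_lit 0)))))) (T.h (T.h (T.h (P (nat_lit 133768656778760561275365752832)) (T.h (P (nat_lit 0)) (T.h (P (nat_lit 1083909940175908072587264)) (T.h (P (nat_lit 0)) (M (nat_lit 695645357607747583)))))) (T.h (P (nat_lit 0)) (T.h (T.h (M (nat_lit 265991905201773512491007)) (T.h (P (nat_lit 0)) (M (nat_lit 531307149684015103)))) (T.h (P (nat_lit 0)) (P (nat_lit 10578727072661504)))))) (T.h (T.h (P (nat_lit 0)) (T.h (T.h (P (nat_lit 0)) (P (nat_lit 302479476523544870912))) (P (nat_lit 0)))) (T.h (T.h (T.h (M (nat_lit 29219963289720217141247)) (T.h (P (nat_lit 0)) (P (nat_lit 161074343272644608)))) (T.h (P (nat_lit 0)) (M (nat_lit 127190422486253567)))) (T.h (P (nat_lit 0)) (P (nat_lit 65373264351297536))))))), (P (nat_lit 0)), (P (nat_lit 0)), (T.h (T.h (T.h (M (nat_lit 5338567457922508043020897615871)) (T.h (P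 (nat_lit 0)) (T.h (M (nat_lit 46955711849068381081698303)) (T.h (P (nat_lit 0)) (T.h (P (nat_lit 29842629628864233472)) (T.h (P (nat_lit 0)) (M (nat_lit 133435491809295)))))))) (T.h (P (nat_lit 0)) (T.h (T.h (M (nat_lit 85297280122588997443649535)) (T.h (P (nat_lit 0)) (T.h (P (nat_lit 134178937822343331840)) (T.h (P (nat_lit 0)) (P (nat_lit 1084839383109888)))))) (T.h (P (nat_lit 0)) (T.h (T.h (P (nat_lit 34834759265762148352)) (T.h (P (nat_lit 0)) (M (nat_lit 21013397524391)))) (T.h (P (nat_lit 0)) (M (nat_lit 231272050933343)))))))) (T.h (T.h (P (nat_lit 0)) (T.h (T.h (P (nat_lit 0)) (T.h (M (nat_lit 245710577775079698989055)) (T.h (P (nat_lit 0)) (M (nat_lit 457101036895993855))))) (T.h (P (nat_lit 0)) (T.h (T.h (P (nat_lit 0)) (M (nat_lit 994696242058756095))) (P (nat_lit 0)))))) (T.h (T.h (T.h (P (nat_lit 20069198988214830060535808)) (T.h (P (nat_lit 0)) (T.h (M (nat_lit 114604406934480093183)) (T.h (P (nat_lit 0)) (M (nat_lit 98322921112271))))))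 (T.h (P (nat_lit 0)) (T.h (T.h (M (nat_lit 89897287250813648895)) (T.h (P (nat_lit 0)) (P (nat_lit 577501549530240)))) (T.h (P (nat_lit 0)) (P (nat_lit 907278604781576)))))) (T.h (T.h (P (nat_lit 0)) (T.h (T.h (P (nat_lit 0)) (M (nat_lit 585148180339228671))) (P (nat_lit 0)))) (T.h (T.h (T.h (M (nat_lit 26207994175194923007)) (T.h (P (nat_lit 0)) (M (nat_lit 35986225394639)))) (T.h (P (nat_lit 0)) (M (nat_lit 1750071626373695)))) (T.h (P (nat_lit 0)) (P (nat_lit 49577397755120)))))))), (T.h (T.h (T.h (P (nat_lit 0)) (T.h (P (nat_lit 43111497731872443338430873600)) (T.h (P (nat_lit 0)) (T.h (M (nat_lit 102982073453446374096895)) (T.h (P (nat_lit 0)) (P (nat_lit 54899546767654912))))))) (T.h (P (nat_lit 0)) (T.h (T.h (P (nat_lit 0)) (T.h (P (nat_lit 157214722787301100879872)) (T.h (P (nat_lit 0)) (P (nat_lit 168205524974878720))))) (T.h (P (nat_lit 0)) (T.h (T.h (P (nat_lit 0)) (P (nat_lit 216386606228307968))) (P (nat_lit 0))))))) (T.h (T.h (P (nat_lit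 0)) (T.h (T.h (M (nat_lit 2037213361489810666029055)) (T.h (P (nat_lit 0)) (T.h (M (nat_lit 634602642326310354943)) (T.h (P (nat_lit 0)) (P (nat_lit 354904499076288)))))) (T.h (P (nat_lit 0)) (T.h (T.h (M (nat_lit 445318853096277803007)) (T.h (P (nat_lit 0)) (P (nat_lit 138986061083440)))) (T.h (P (nat_lit 0)) (M (nat_lit 216556818452527))))))) (T.h (T.h (T.h (P (nat_lit 0)) (T.h (P (nat_lit 157214722787301100879872)) (T.h (P (nat_lit 0)) (P (nat_lit 168205524974878720))))) (T.h (P (nat_lit 0)) (T.h (T.h (P (nat_lit 0)) (M (nat_lit 1699343854229880831))) (P (nat_lit 0))))) (T.h (T.h (P (nat_lit 0)) (T.h (T.h (M (nat_lit 445318853096277803007)) (T.h (P (nat_lit 0)) (P (nat_lit 138986061083440)))) (T.h (P (nat_lit 0)) (P (nat_lit 119539678158720))))) (T.h (T.h (T.h (P (nat_lit 0)) (P (nat_lit 216386606228307968))) (P (nat_lit 0))) (T.h (T.h (P (nat_lit 0)) (M (nat_lit 216556818452527))) (P (nat_lit 0)))))))), (T.h (T.h (T.h (P (nat_lit 28406799123926098415319217340416))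 (T.h (P (nat_lit 0)) (T.h (M (nat_lit 102418871938717938482151423)) (T.h (P (nat_lit 0)) (T.h (M (nat_lit 33394330533076402175)) (T.h (P (nat_lit 0)) (P (nat_lit 315130144987520)))))))) (T.h (P (nat_lit 0)) (T.h (T.h (M (nat_lit 102418871938717938482151423)) (T.h (P (nat_lit 0)) (T.h (P (nat_lit 271181287891872514048)) (T.h (P (nat_lit 0)) (M (nat_lit 43361908743231)))))) (T.h (P (nat_lit 0)) (T.h (T.h (M (nat_lit 33394330533076402175)) (T.h (P (nat_lit 0)) (M (nat_lit 43361908743231)))) (T.h (P (nat_lit 0)) (P (nat_lit 315130144987520)))))))) (T.h (T.h (P (nat_lit 0)) (T.h (T.h (P (nat_lit 0)) (T.h (P (nat_lit 2008311976937751243128832)) (T.h (P (nat_lit 0)) (P (nat_lit 2096867990093889536))))) (T.h (P (nat_lit 0)) (T.h (T.h (P (nat_lit 0)) (P (nat_lit 2096867990093889536))) (P (nat_lit 0)))))) (T.h (T.h (T.h (P (nat_lit 309017800104472974033158144)) (T.h (P (nat_lit 0)) (T.h (P (nat_lit 611600416601007980544)) (T.h (P (nat_lit 0)) (M (nat_lit 43361908743231))))))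 (T.h (P (nat_lit 0)) (T.h (T.h (P (nat_lit 611600416601007980544)) (T.h (P (nat_lit 0)) (M (nat_lit 1732504648590719)))) (T.h (P (nat_lit 0)) (M (nat_lit 43361908743231)))))) (T.h (T.h (P (nat_lit 0)) (T.h (T.h (P (nat_lit 0)) (M (nat_lit 2334756267417403391))) (P (nat_lit 0)))) (T.h (T.h (T.h (M (nat_lit 657008416035532963839)) (T.h (P (nat_lit 0)) (M (nat_lit 43361908743231)))) (T.h (P (nat_lit 0)) (M (nat_lit 43361908743231)))) (T.h (P (nat_lit 0)) (P (nat_lit 315130144987520))))))))]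
def lP12_31 : List (T ℤ) := [(T.h (T.h (T.h (P (nat_lit 0)) (T.h (M (nat_lit 90153385153179836802014380031)) (T.h (P (nat_lit 0)) (T.h (P (nat_lit 149858750442758148718592)) (T.h (P (nat_lit 0)) (M (nat_lit 190850993921163263))))))) (T.h (P (nat_lit 0)) (T.h (T.h (P (nat_lit 0)) (T.h (M (nat_lit 376290890584753549869055)) (T.h (P (nat_lit 0)) (P (nat_lit 785840202714906624))))) (T.h (P (nat_lit 0)) (T.h (T.h (P (nat_lit 0)) (M (nat_lit 749392488842903551))) (P (nat_lit 0))))))) (T.h (T.h (P (nat_lit 0)) (T.h (T.h (P (nat_lit 354429584878097454132625408)) (T.h (P (nat_lit 0)) (T.h (M (nat_lit 706837525993122430975)) (T.h (P (nat_lit 0)) (P (nat_lit 778262612392320)))))) (T.h (P (nat_lit 0)) (T.h (T.h (M (nat_lit 793633586725355782143)) (T.h (P (nat_lit 0)) (M (nat_lit 4190516314817007)))) (T.h (P (nat_lit 0)) (P (nat_lit 527227441331536))))))) (T.h (T.h (T.h (P (nat_lit 0)) (T.h (M (nat_lit 376290890584753549869055)) (T.h (P (nat_lit 0)) (P (nat_lit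 785840202714906624))))) (T.h (P (nat_lit 0)) (T.h (T.h (P (nat_lit 0)) (P (nat_lit 1775210274593013760))) (P (nat_lit 0))))) (T.h (T.h (P (nat_lit 0)) (T.h (T.h (M (nat_lit 793633586725355782143)) (T.h (P (nat_lit 0)) (M (nat_lit 4190516314817007)))) (T.h (P (nat_lit 0)) (P (nat_lit 499486613566688))))) (T.h (T.h (T.h (P (nat_lit 0)) (M (nat_lit 749392488842903551))) (P (nat_lit 0))) (T.h (T.h (P (nat_lit 0)) (P (nat_lit 527227441331536))) (P (nat_lit 0)))))))), (T.h (T.h (T.h (M (nat_lit 10480330179334628032889529303039)) (T.h (P (nat_lit 0)) (T.h (P (nat_lit 185157826882941110320103424)) (T.h (P (nat_lit 0)) (M (nat_lit 19219055889835098111)))))) (T.h (P (nat_lit 0)) (T.h (T.h (M (nat_lit 98177673145268500133052415)) (T.h (P (nat_lit 0)) (P (nat_lit 105537405580398821376)))) (T.h (P (nat_lit 0)) (P (nat_lit 246263348381943332864)))))) (T.h (T.h (P (nat_lit 0)) (T.h (T.h (P (nat_lit 0)) (T.h (M (nat_lit 1299879884616596717567999)) (T.h (P (nat_lit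 0)) (M (nat_lit 423209768725774335))))) (T.h (P (nat_lit 0)) (T.h (T.h (P (nat_lit 0)) (P (nat_lit 2077814719399723008))) (P (nat_lit 0)))))) (T.h (T.h (T.h (M (nat_lit 98177673145268500133052415)) (T.h (P (nat_lit 0)) (P (nat_lit 105537405580398821376)))) (T.h (P (nat_lit 0)) (M (nat_lit 200558750337517748223)))) (T.h (T.h (P (nat_lit 0)) (T.h (T.h (P (nat_lit 0)) (P (nat_lit 2077814719399723008))) (P (nat_lit 0)))) (P (nat_lit 246263348381943332864)))))), (P (nat_lit 0)), (T.h (T.h (P (nat_lit 0)) (T.h (T.h (P (nat_lit 0)) (T.h (M (nat_lit 70282788520212002987048959)) (T.h (P (nat_lit 0)) (T.h (P (nat_lit 19782959448671125504)) (T.h (P (nat_lit 0)) (P (nat_lit 82084294785680))))))) (T.h (P (nat_lit 0)) (T.h (T.h (P (nat_lit 0)) (T.h (P (nat_lit 186038591782536609792)) (T.h (P (nat_lit 0)) (P (nat_lit 26624326517328))))) (T.h (P (nat_lit 0)) (T.h (T.h (P (nat_lit 0)) (P (nat_lit 5409626949120))) (P (nat_lit 0)))))))) (T.h (T.h (T.h (P (nat_lit 47459745115653654408549367808))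 (T.h (P (nat_lit 0)) (T.h (M (nat_lit 54596855048417207910399)) (T.h (P (nat_lit 0)) (M (nat_lit 3799361523154943)))))) (T.h (P (nat_lit 0)) (T.h (T.h (M (nat_lit 1854254736957279043583)) (T.h (P (nat_lit 0)) (M (nat_lit 224942595649896447)))) (T.h (P (nat_lit 0)) (P (nat_lit 489850942301470720)))))) (T.h (T.h (P (nat_lit 0)) (T.h (T.h (P (nat_lit 0)) (T.h (M (nat_lit 150280771890218795007)) (T.h (P (nat_lit 0)) (P (nat_lit 332834020739840))))) (T.h (P (nat_lit 0)) (T.h (T.h (P (nat_lit 0)) (M (nat_lit 377630158793615))) (P (nat_lit 0)))))) (T.h (T.h (T.h (M (nat_lit 70950815466224592355327)) (T.h (P (nat_lit 0)) (P (nat_lit 43742808133337088)))) (T.h (P (nat_lit 0)) (M (nat_lit 61833881201737727)))) (T.h (T.h (P (nat_lit 0)) (T.h (T.h (P (nat_lit 0)) (P (nat_lit 9791888052144))) (P (nat_lit 0)))) (P (nat_lit 46038140793520128))))))), (T.h (T.h (P (nat_lit 0)) (T.h (T.h (P (nat_lit 165657683186759434277748736)) (T.h (P (nat_lit 0)) (T.h (M (nat_lit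 9028346044505141542911)) (T.h (P (nat_lit 0)) (M (nat_lit 169082224198090751)))))) (T.h (P (nat_lit 0)) (T.h (T.h (M (nat_lit 151525430621372818653183)) (T.h (P (nat_lit 0)) (M (nat_lit 327822764628525055)))) (T.h (P (nat_lit 0)) (M (nat_lit 4766301716283391))))))) (T.h (T.h (T.h (P (nat_lit 0)) (T.h (M (nat_lit 69642946525185967036301311)) (T.h (P (nat_lit 0)) (T.h (P (nat_lit 30453531548156166144)) (T.h (P (nat_lit 0)) (M (nat_lit 22027988921247))))))) (T.h (P (nat_lit 0)) (T.h (T.h (P (nat_lit 0)) (T.h (P (nat_lit 398757292396802736128)) (T.h (P (nat_lit 0)) (P (nat_lit 713975442312624))))) (T.h (P (nat_lit 0)) (T.h (T.h (P (nat_lit 0)) (P (nat_lit 20469176266336))) (P (nat_lit 0))))))) (T.h (T.h (P (nat_lit 0)) (T.h (T.h (P (nat_lit 12971391210968743673856)) (T.h (P (nat_lit 0)) (P (nat_lit 27697189017501696)))) (T.h (P (nat_lit 0)) (M (nat_lit 503218121177612287))))) (T.h (T.h (T.h (P (nat_lit 0)) (T.h (M (nat_lit 107611019278756610047)) (T.h (P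 (nat_lit 0)) (M (nat_lit 45475820045455))))) (T.h (P (nat_lit 0)) (T.h (T.h (P (nat_lit 0)) (P (nat_lit 145511679509456))) (P (nat_lit 0))))) (T.h (T.h (P (nat_lit 0)) (P (nat_lit 721582360884019200))) (T.h (T.h (T.h (P (nat_lit 0)) (P (nat_lit 20495869015824))) (P (nat_lit 0))) (P (nat_lit 0)))))))), (T.h (T.h (P (nat_lit 0)) (T.h (T.h (P (nat_lit 0)) (T.h (P (nat_lit 84637449927437592586878976)) (T.h (P (nat_lit 0)) (T.h (M (nat_lit 1209966268769988771839)) (T.h (P (nat_lit 0)) (M (nat_lit 121815508078015))))))) (T.h (P (nat_lit 0)) (T.h (T.h (P (nat_lit 0)) (T.h (M (nat_lit 188001457069308772351)) (T.h (P (nat_lit 0)) (P (nat_lit 516072503077568))))) (T.h (P (nat_lit 0)) (T.h (T.h (P (nat_lit 0)) (M (nat_lit 369702816473023))) (P (nat_lit 0)))))))) (T.h (T.h (T.h (M (nat_lit 20811591493376827556488019967)) (T.h (P (nat_lit 0)) (T.h (P (nat_lit 294404804593739148296192)) (T.h (P (nat_lit 0)) (P (nat_lit 114110172526739456)))))) (T.h (P (nat_lit 0))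 (T.h (T.h (M (nat_lit 455458949706913043972095)) (T.h (P (nat_lit 0)) (M (nat_lit 1320413637248778239)))) (T.h (P (nat_lit 0)) (M (nat_lit 1722093150224285695)))))) (T.h (T.h (P (nat_lit 0)) (T.h (T.h (P (nat_lit 0)) (T.h (P (nat_lit 1000159100342953312256)) (T.h (P (nat_lit 0)) (M (nat_lit 224767721017791))))) (T.h (P (nat_lit 0)) (T.h (T.h (P (nat_lit 0)) (M (nat_lit 1713831813225279))) (P (nat_lit 0)))))) (T.h (T.h (T.h (P (nat_lit 138382734029299283656704)) (T.h (P (nat_lit 0)) (P (nat_lit 102363710486249472)))) (T.h (P (nat_lit 0)) (M (nat_lit 721152103022100479)))) (T.h (T.h (P (nat_lit 0)) (T.h (T.h (P (nat_lit 0)) (P (nat_lit 446795098412288))) (P (nat_lit 0)))) (M (nat_lit 198796221259284479))))))), (T.h (T.h (P (nat_lit 0)) (T.h (T.h (M (nat_lit 90153385153179836802014380031)) (T.h (P (nat_lit 0)) (T.h (M (nat_lit 376290890584753549869055)) (T.h (P (nat_lit 0)) (M (nat_lit 749392488842903551)))))) (T.h (P (nat_lit 0)) (T.h (T.h (P (nat_lit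 149858750442758148718592)) (T.h (P (nat_lit 0)) (P (nat_lit 785840202714906624)))) (T.h (P (nat_lit 0)) (M (nat_lit 190850993921163263))))))) (T.h (T.h (T.h (P (nat_lit 0)) (T.h (P (nat_lit 354429584878097454132625408)) (T.h (P (nat_lit 0)) (T.h (M (nat_lit 793633586725355782143)) (T.h (P (nat_lit 0)) (P (nat_lit 527227441331536))))))) (T.h (P (nat_lit 0)) (T.h (T.h (P (nat_lit 0)) (T.h (M (nat_lit 706837525993122430975)) (T.h (P (nat_lit 0)) (M (nat_lit 4190516314817007))))) (T.h (P (nat_lit 0)) (T.h (T.h (P (nat_lit 0)) (P (nat_lit 778262612392320))) (P (nat_lit 0))))))) (T.h (T.h (P (nat_lit 0)) (T.h (T.h (M (nat_lit 376290890584753549869055)) (T.h (P (nat_lit 0)) (P (nat_lit 1775210274593013760)))) (T.h (P (nat_lit 0)) (P (nat_lit 785840202714906624))))) (T.h (T.h (T.h (P (nat_lit 0)) (T.h (M (nat_lit 793633586725355782143)) (T.h (P (nat_lit 0)) (P (nat_lit 499486613566688))))) (T.h (P (nat_lit 0)) (T.h (T.h (P (nat_lit 0)) (M (nat_lit 4190516314817007)))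 (P (nat_lit 0))))) (T.h (T.h (P (nat_lit 0)) (M (nat_lit 749392488842903551))) (T.h (T.h (T.h (P (nat_lit 0)) (P (nat_lit 527227441331536))) (P (nat_lit 0))) (P (nat_lit 0)))))))), (T.h (T.h (P (nat_lit 0)) (T.h (T.h (P (nat_lit 0)) (T.h (P (nat_lit 147135853041917332044120064)) (T.h (P (nat_lit 0)) (P (nat_lit 257392247864654036992))))) (T.h (P (nat_lit 0)) (T.h (T.h (P (nat_lit 0)) (P (nat_lit 257392247864654036992))) (P (nat_lit 0)))))) (T.h (T.h (T.h (M (nat_lit 389297995439723300115101777919)) (T.h (P (nat_lit 0)) (T.h (M (nat_lit 223777562771128231919615)) (T.h (P (nat_lit 0)) (M (nat_lit 618322761071951871)))))) (T.h (P (nat_lit 0)) (T.h (T.h (M (nat_lit 223777562771128231919615)) (T.h (P (nat_lit 0)) (P (nat_lit 5566684382022008832)))) (T.h (P (nat_lit 0)) (M (nat_lit 618322761071951871)))))) (T.h (T.h (P (nat_lit 0)) (T.h (T.h (P (nat_lit 0)) (M (nat_lit 1936470657569816313855))) (P (nat_lit 0)))) (T.h (T.h (T.h (P (nat_lit 80184449228608727154688))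 (T.h (P (nat_lit 0)) (M (nat_lit 66980419558473727)))) (T.h (P (nat_lit 0)) (M (nat_lit 66980419558473727)))) (T.h (P (nat_lit 0)) (M (nat_lit 220288323117449215)))))))]
def lP12_32 : List (T ℤ) := [(T.h (T.h (T.h (M (nat_lit 180042904463567493730641379327)) (T.h (P (nat_lit 0)) (T.h (M (nat_lit 3599552365930501812256767)) (T.h (P (nat_lit 0)) (T.h (P (nat_lit 2427450257295015936)) (T.h (P (nat_lit 0)) (M (nat_lit 6659018157895)))))))) (T.h (P (nat_lit 0)) (T.h (T.h (M (nat_lit 50604608501043118359969791)) (T.h (P (nat_lit 0)) (T.h (P (nat_lit 2880407971274162176)) (T.h (P (nat_lit 0)) (M (nat_lit 7555580463959)))))) (T.h (P (nat_lit 0)) (T.h (T.h (M (nat_lit 85682156982044196863)) (T.h (P (nat_lit 0)) (M (nat_lit 395213530558839)))) (T.h (P (nat_lit 0)) (M (nat_lit 66258382959479)))))))) (T.h (T.h (P (nat_lit 0)) (T.h (T.h (P (nat_lit 0)) (T.h (M (nat_lit 29521306751057308680191)) (T.h (P (nat_lit 0)) (M (nat_lit 10851863430365183))))) (T.h (P (nat_lit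 0)) (T.h (T.h (P (nat_lit 0)) (P (nat_lit 200811651344203776))) (P (nat_lit 0)))))) (T.h (T.h (T.h (M (nat_lit 1556834313162951344783359)) (T.h (P (nat_lit 0)) (T.h (M (nat_lit 8553049217306722303)) (T.h (P (nat_lit 0)) (M (nat_lit 25839249071415)))))) (T.h (P (nat_lit 0)) (T.h (T.h (M (nat_lit 78066595520508329983)) (T.h (P (nat_lit 0)) (M (nat_lit 28363925486959)))) (T.h (P (nat_lit 0)) (P (nat_lit 61034241029904)))))) (T.h (T.h (P (nat_lit 0)) (T.h (T.h (P (nat_lit 0)) (P (nat_lit 12287555236429824))) (P (nat_lit 0)))) (T.h (T.h (T.h (P (nat_lit 1763483927068016640)) (T.h (P (nat_lit 0)) (P (nat_lit 76900174056)))) (T.h (P (nat_lit 0)) (P (nat_lit 20783046736224)))) (T.h (P (nat_lit 0)) (P (nat_lit 2414548813176)))))))), (T.h (T.h (T.h (P (nat_lit 0)) (T.h (P (nat_lit 497432562566840426191388672)) (T.h (P (nat_lit 0)) (T.h (P (nat_lit 2862054342291145883648)) (T.h (P (nat_lit 0)) (P (nat_lit 9812205560987648))))))) (T.h (P (nat_lit 0)) (T.h (T.h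 (P (nat_lit 0)) (T.h (M (nat_lit 40027040615283331956735)) (T.h (P (nat_lit 0)) (M (nat_lit 37782777461571583))))) (T.h (P (nat_lit 0)) (T.h (T.h (P (nat_lit 0)) (P (nat_lit 36767111433682944))) (P (nat_lit 0))))))) (T.h (T.h (P (nat_lit 0)) (T.h (T.h (P (nat_lit 70526209065233796783144960)) (T.h (P (nat_lit 0)) (T.h (M (nat_lit 103247090398378590207)) (T.h (P (nat_lit 0)) (P (nat_lit 33481742598912)))))) (T.h (P (nat_lit 0)) (T.h (T.h (M (nat_lit 817769225884234940415)) (T.h (P (nat_lit 0)) (M (nat_lit 138743880398239)))) (T.h (P (nat_lit 0)) (P (nat_lit 5629987302560))))))) (T.h (T.h (T.h (P (nat_lit 0)) (T.h (P (nat_lit 6876364827149293584384)) (T.h (P (nat_lit 0)) (P (nat_lit 45885516106907648))))) (T.h (P (nat_lit 0)) (T.h (T.h (P (nat_lit 0)) (M (nat_lit 145468263997390847))) (P (nat_lit 0))))) (T.h (T.h (P (nat_lit 0)) (T.h (T.h (P (nat_lit 23338111321054904320)) (T.h (P (nat_lit 0)) (P (nat_lit 18354663940000)))) (T.h (P (nat_lit 0)) (P (nat_lit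 346327786339536))))) (T.h (T.h (T.h (P (nat_lit 0)) (P (nat_lit 6341612324782080))) (P (nat_lit 0))) (T.h (T.h (P (nat_lit 0)) (M (nat_lit 20915930440255))) (P (nat_lit 0)))))))), (T.h (T.h (T.h (M (nat_lit 8818353024179931735201884930047)) (T.h (P (nat_lit 0)) (T.h (P (nat_lit 55413767513758317454295040)) (T.h (P (nat_lit 0)) (T.h (M (nat_lit 63738365578122887167)) (T.h (P (nat_lit 0)) (P (nat_lit 15993966832384)))))))) (T.h (P (nat_lit 0)) (T.h (T.h (P (nat_lit 166866016503799887335260160)) (T.h (P (nat_lit 0)) (T.h (M (nat_lit 139265195785332981759)) (T.h (P (nat_lit 0)) (M (nat_lit 466928359457407)))))) (T.h (P (nat_lit 0)) (T.h (T.h (M (nat_lit 183580498464606257151)) (T.h (P (nat_lit 0)) (P (nat_lit 9606960604224)))) (T.h (P (nat_lit 0)) (M (nat_lit 144862093652351)))))))) (T.h (T.h (P (nat_lit 0)) (T.h (T.h (P (nat_lit 0)) (T.h (M (nat_lit 196747722902816702857215)) (T.h (P (nat_lit 0)) (P (nat_lit 43518887258161152))))) (T.h (P (nat_lit 0))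 (T.h (T.h (P (nat_lit 0)) (M (nat_lit 353369871344730111))) (P (nat_lit 0)))))) (T.h (T.h (T.h (M (nat_lit 123506378541640818710544383)) (T.h (P (nat_lit 0)) (T.h (P (nat_lit 116648120524705103872)) (T.h (P (nat_lit 0)) (P (nat_lit 139694028686272)))))) (T.h (P (nat_lit 0)) (T.h (T.h (M (nat_lit 211105874731748818943)) (T.h (P (nat_lit 0)) (P (nat_lit 665330991811392)))) (T.h (P (nat_lit 0)) (P (nat_lit 262688387398912)))))) (T.h (T.h (P (nat_lit 0)) (T.h (T.h (P (nat_lit 0)) (P (nat_lit 74222768309403648))) (P (nat_lit 0)))) (T.h (T.h (T.h (P (nat_lit 116357653871691038720)) (T.h (P (nat_lit 0)) (P (nat_lit 5134246787648)))) (T.h (P (nat_lit 0)) (P (nat_lit 1638605785130944)))) (T.h (P (nat_lit 0)) (M (nat_lit 176948586303359)))))))), (T.h (T.h (T.h (P (nat_lit 0)) (T.h (P (nat_lit 15677591072367322300300656640)) (T.h (P (nat_lit 0)) (T.h (P (nat_lit 156999705636988086386688)) (T.h (P (nat_lit 0)) (M (nat_lit 109732311915266047))))))) (T.h (P (nat_lit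 0)) (T.h (T.h (P (nat_lit 0)) (T.h (M (nat_lit 80225454229987296018431)) (T.h (P (nat_lit 0)) (M (nat_lit 758027608558993407))))) (T.h (P (nat_lit 0)) (T.h (T.h (P (nat_lit 0)) (P (nat_lit 406047358910349312))) (P (nat_lit 0))))))) (T.h (T.h (P (nat_lit 0)) (T.h (T.h (M (nat_lit 144571093088878722082144255)) (T.h (P (nat_lit 0)) (T.h (P (nat_lit 428197490780142567424)) (T.h (P (nat_lit 0)) (M (nat_lit 842506019795263)))))) (T.h (P (nat_lit 0)) (T.h (T.h (M (nat_lit 1203278113101479673855)) (T.h (P (nat_lit 0)) (M (nat_lit 209987776456831)))) (T.h (P (nat_lit 0)) (P (nat_lit 346719340363264))))))) (T.h (T.h (T.h (P (nat_lit 0)) (T.h (M (nat_lit 6589294144119426252799)) (T.h (P (nat_lit 0)) (P (nat_lit 113445062206210048))))) (T.h (P (nat_lit 0)) (T.h (T.h (P (nat_lit 0)) (P (nat_lit 428044420578607104))) (P (nat_lit 0))))) (T.h (T.h (P (nat_lit 0)) (T.h (T.h (P (nat_lit 449961078820777754624)) (T.h (P (nat_lit 0)) (P (nat_lit 295459527894608)))) (T.h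 (P (nat_lit 0)) (M (nat_lit 204484843713391))))) (T.h (T.h (T.h (P (nat_lit 0)) (M (nat_lit 127417732331454463))) (P (nat_lit 0))) (T.h (T.h (P (nat_lit 0)) (M (nat_lit 233783438575983))) (P (nat_lit 0)))))))), (T.h (T.h (T.h (M (nat_lit 10480330179334628032889529303039)) (T.h (P (nat_lit 0)) (T.h (M (nat_lit 98177673145268500133052415)) (T.h (P (nat_lit 0)) (P (nat_lit 246263348381943332864)))))) (T.h (P (nat_lit 0)) (T.h (T.h (P (nat_lit 185157826882941110320103424)) (T.h (P (nat_lit 0)) (P (nat_lit 105537405580398821376)))) (T.h (P (nat_lit 0)) (M (nat_lit 19219055889835098111)))))) (T.h (T.h (P (nat_lit 0)) (T.h (T.h (P (nat_lit 0)) (T.h (M (nat_lit 1299879884616596717567999)) (T.h (P (nat_lit 0)) (P (nat_lit 2077814719399723008))))) (T.h (P (nat_lit 0)) (T.h (T.h (P (nat_lit 0)) (M (nat_lit 423209768725774335))) (P (nat_lit 0)))))) (T.h (T.h (T.h (M (nat_lit 98177673145268500133052415)) (T.h (P (nat_lit 0)) (M (nat_lit 200558750337517748223))))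 (T.h (P (nat_lit 0)) (P (nat_lit 105537405580398821376)))) (T.h (T.h (P (nat_lit 0)) (T.h (T.h (P (nat_lit 0)) (P (nat_lit 2077814719399723008))) (P (nat_lit 0)))) (P (nat_lit 246263348381943332864)))))), (P (nat_lit 0)), (T.h (T.h (P (nat_lit 0)) (T.h (T.h (P (nat_lit 0)) (T.h (M (nat_lit 31719912667448057836601343)) (T.h (P (nat_lit 0)) (T.h (M (nat_lit 8134885194185310207)) (T.h (P (nat_lit 0)) (M (nat_lit 10339465218239))))))) (T.h (P (nat_lit 0)) (T.h (T.h (P (nat_lit 0)) (T.h (P (nat_lit 675995662175975768064)) (T.h (P (nat_lit 0)) (M (nat_lit 173328127994111))))) (T.h (P (nat_lit 0)) (T.h (T.h (P (nat_lit 0)) (P (nat_lit 92390346224128))) (P (nat_lit 0)))))))) (T.h (T.h (T.h (M (nat_lit 20824362561680682226972360703)) (T.h (P (nat_lit 0)) (T.h (P (nat_lit 41072297347287196106752)) (T.h (P (nat_lit 0)) (P (nat_lit 88130811017691136)))))) (T.h (P (nat_lit 0)) (T.h (T.h (P (nat_lit 301450280915930884079616)) (T.h (P (nat_lit 0)) (M (nat_lit 367516644263231487))))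 (T.h (P (nat_lit 0)) (P (nat_lit 501317009212112896)))))) (T.h (T.h (P (nat_lit 0)) (T.h (T.h (P (nat_lit 0)) (T.h (M (nat_lit 84239884126498324479)) (T.h (P (nat_lit 0)) (M (nat_lit 129680774576831))))) (T.h (P (nat_lit 0)) (T.h (T.h (P (nat_lit 0)) (P (nat_lit 323801007112640))) (P (nat_lit 0)))))) (T.h (T.h (T.h (M (nat_lit 56182821850849585659903)) (T.h (P (nat_lit 0)) (P (nat_lit 37798245059624960)))) (T.h (P (nat_lit 0)) (M (nat_lit 267609153307475967)))) (T.h (T.h (P (nat_lit 0)) (T.h (T.h (P (nat_lit 0)) (M (nat_lit 135092302434559))) (P (nat_lit 0)))) (P (nat_lit 175120981189033984))))))), (T.h (T.h (P (nat_lit 0)) (T.h (T.h (P (nat_lit 17704389529118597248316342272)) (T.h (P (nat_lit 0)) (T.h (P (nat_lit 179029490075745973698560)) (T.h (P (nat_lit 0)) (P (nat_lit 328597930403921920)))))) (T.h (P (nat_lit 0)) (T.h (T.h (M (nat_lit 80612603565561887064063)) (T.h (P (nat_lit 0)) (P (nat_lit 261691826528878592)))) (T.h (P (nat_lit 0)) (P (nat_lit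 552199261127180288))))))) (T.h (T.h (T.h (P (nat_lit 0)) (T.h (P (nat_lit 90555554163492652484395008)) (T.h (P (nat_lit 0)) (T.h (P (nat_lit 14186840661470216192)) (T.h (P (nat_lit 0)) (P (nat_lit 110851673169776))))))) (T.h (P (nat_lit 0)) (T.h (T.h (P (nat_lit 0)) (T.h (P (nat_lit 38138849773442039808)) (T.h (P (nat_lit 0)) (P (nat_lit 130585546475472))))) (T.h (P (nat_lit 0)) (T.h (T.h (P (nat_lit 0)) (P (nat_lit 1882318035580224))) (P (nat_lit 0))))))) (T.h (T.h (P (nat_lit 0)) (T.h (T.h (M (nat_lit 89931286064732739469311)) (T.h (P (nat_lit 0)) (M (nat_lit 271088118705799167)))) (T.h (P (nat_lit 0)) (M (nat_lit 315189760276332543))))) (T.h (T.h (T.h (P (nat_lit 0)) (T.h (M (nat_lit 71140088274038554623)) (T.h (P (nat_lit 0)) (M (nat_lit 25054827595247))))) (T.h (P (nat_lit 0)) (T.h (T.h (P (nat_lit 0)) (P (nat_lit 361794974546192))) (P (nat_lit 0))))) (T.h (T.h (P (nat_lit 0)) (M (nat_lit 637775820071223295))) (T.h (T.h (T.h (P (nat_lit 0)) (P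 (nat_lit 172986961464416))) (P (nat_lit 0))) (P (nat_lit 0))))))))]
def lP12_33 : List (T ℤ) := [(T.h (T.h (P (nat_lit 0)) (T.h (T.h (P (nat_lit 0)) (T.h (P (nat_lit 71817996516439123818446848)) (T.h (P (nat_lit 0)) (P (nat_lit 293417813422567849984))))) (T.h (P (nat_lit 0)) (T.h (T.h (P (nat_lit 0)) (P (nat_lit 237324560957846847488))) (P (nat_lit 0)))))) (T.h (T.h (T.h (P (nat_lit 133768656778760561275365752832)) (T.h (P (nat_lit 0)) (T.h (M (nat_lit 265991905201773512491007)) (T.h (P (nat_lit 0)) (P (nat_lit 10578727072661504)))))) (T.h (P (nat_lit 0)) (T.h (T.h (P (nat_lit 1083909940175908072587264)) (T.h (P (nat_lit 0)) (M (nat_lit 531307149684015103)))) (T.h (P (nat_lit 0)) (M (nat_lit 695645357607747583)))))) (T.h (T.h (P (nat_lit 0)) (T.h (T.h (P (nat_lit 0)) (P (nat_lit 302479476523544870912))) (P (nat_lit 0)))) (T.h (T.h (T.h (M (nat_lit 29219963289720217141247)) (T.h (P (nat_lit 0)) (M (nat_lit 127190422486253567)))) (T.h (P (nat_lit 0))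 (P (nat_lit 161074343272644608)))) (T.h (P (nat_lit 0)) (P (nat_lit 65373264351297536))))))), (T.h (T.h (T.h (P (nat_lit 2243599753894167970128685170688)) (T.h (P (nat_lit 0)) (T.h (P (nat_lit 8920633791885050512408576)) (T.h (P (nat_lit 0)) (M (nat_lit 2815302474502504447)))))) (T.h (P (nat_lit 0)) (T.h (T.h (M (nat_lit 12776963099183932931833855)) (T.h (P (nat_lit 0)) (M (nat_lit 53559359673628360703)))) (T.h (P (nat_lit 0)) (P (nat_lit 63960238512519774208)))))) (T.h (T.h (P (nat_lit 0)) (T.h (T.h (P (nat_lit 0)) (T.h (M (nat_lit 36250140656928624214015)) (T.h (P (nat_lit 0)) (M (nat_lit 7675027309985791))))) (T.h (P (nat_lit 0)) (T.h (T.h (P (nat_lit 0)) (P (nat_lit 332371695657680896))) (P (nat_lit 0)))))) (T.h (T.h (T.h (M (nat_lit 10138881664159769591545855)) (T.h (P (nat_lit 0)) (M (nat_lit 7524778741155758079)))) (T.h (P (nat_lit 0)) (M (nat_lit 190753461224322629631)))) (T.h (T.h (P (nat_lit 0)) (T.h (T.h (P (nat_lit 0)) (P (nat_lit 51053054277124096)))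 (P (nat_lit 0)))) (M (nat_lit 12879166026821926911)))))), (T.h (T.h (T.h (P (nat_lit 0)) (T.h (P (nat_lit 15233738752004595955919749120)) (T.h (P (nat_lit 0)) (T.h (M (nat_lit 21694648982052280467455)) (T.h (P (nat_lit 0)) (M (nat_lit 8026129388699647))))))) (T.h (P (nat_lit 0)) (T.h (T.h (P (nat_lit 0)) (T.h (M (nat_lit 190912665759102877564927)) (T.h (P (nat_lit 0)) (P (nat_lit 117065434944339968))))) (T.h (P (nat_lit 0)) (T.h (T.h (P (nat_lit 0)) (M (nat_lit 59401021968924671))) (P (nat_lit 0))))))) (T.h (T.h (P (nat_lit 0)) (T.h (T.h (M (nat_lit 80905210978061627915501567)) (T.h (P (nat_lit 0)) (T.h (P (nat_lit 180384892735593644032)) (T.h (P (nat_lit 0)) (M (nat_lit 46938132056991)))))) (T.h (P (nat_lit 0)) (T.h (T.h (P (nat_lit 966498054002410782720)) (T.h (P (nat_lit 0)) (M (nat_lit 160765879742335)))) (T.h (P (nat_lit 0)) (M (nat_lit 202010613196303))))))) (T.h (T.h (T.h (P (nat_lit 0)) (T.h (M (nat_lit 50588246820526462337023)) (T.h (P (nat_lit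 0)) (P (nat_lit 153507077665947648))))) (T.h (P (nat_lit 0)) (T.h (T.h (P (nat_lit 0)) (M (nat_lit 481125668614946815))) (P (nat_lit 0))))) (T.h (T.h (P (nat_lit 0)) (T.h (T.h (P (nat_lit 104709661005493305344)) (T.h (P (nat_lit 0)) (M (nat_lit 153951304182895)))) (T.h (P (nat_lit 0)) (M (nat_lit 40807260833679))))) (T.h (T.h (T.h (P (nat_lit 0)) (P (nat_lit 37657315048210432))) (P (nat_lit 0))) (T.h (T.h (P (nat_lit 0)) (P (nat_lit 9843633707952))) (P (nat_lit 0)))))))), (T.h (T.h (T.h (M (nat_lit 16610131237050969157222881296383)) (T.h (P (nat_lit 0)) (T.h (M (nat_lit 12159185391653889647837183)) (T.h (P (nat_lit 0)) (M (nat_lit 8542965040104341503)))))) (T.h (P (nat_lit 0)) (T.h (T.h (M (nat_lit 23126752110161750401220607)) (T.h (P (nat_lit 0)) (M (nat_lit 12886189783738482687)))) (T.h (P (nat_lit 0)) (P (nat_lit 118912105825926381568)))))) (T.h (T.h (P (nat_lit 0)) (T.h (T.h (P (nat_lit 0)) (T.h (P (nat_lit 170774383045035088150528)) (T.h (P (nat_lit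 0)) (P (nat_lit 7959988333117440))))) (T.h (P (nat_lit 0)) (T.h (T.h (P (nat_lit 0)) (M (nat_lit 1474979290622656511))) (P (nat_lit 0)))))) (T.h (T.h (T.h (P (nat_lit 78577746382943512002822144)) (T.h (P (nat_lit 0)) (M (nat_lit 26916983604714143743)))) (T.h (P (nat_lit 0)) (P (nat_lit 254876444120481529856)))) (T.h (T.h (P (nat_lit 0)) (T.h (T.h (P (nat_lit 0)) (M (nat_lit 116902649026969599))) (P (nat_lit 0)))) (M (nat_lit 44363430733904084991)))))), (P (nat_lit 0)), (T.h (T.h (P (nat_lit 0)) (T.h (T.h (P (nat_lit 0)) (T.h (P (nat_lit 68480659706341009634885632)) (T.h (P (nat_lit 0)) (P (nat_lit 11930534835996590080))))) (T.h (P (nat_lit 0)) (T.h (T.h (P (nat_lit 0)) (M (nat_lit 76622548805082939391))) (P (nat_lit 0)))))) (T.h (T.h (T.h (P (nat_lit 9479945226855203678944493568)) (T.h (P (nat_lit 0)) (T.h (M (nat_lit 15229871120192928481279)) (T.h (P (nat_lit 0)) (P (nat_lit 27031974620561408)))))) (T.h (P (nat_lit 0)) (T.h (T.h (M (nat_lit 252405377024740638588927))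 (T.h (P (nat_lit 0)) (P (nat_lit 48863964941058048)))) (T.h (P (nat_lit 0)) (P (nat_lit 158948710125174784)))))) (T.h (T.h (P (nat_lit 0)) (T.h (T.h (P (nat_lit 0)) (P (nat_lit 28561419631895511040))) (P (nat_lit 0)))) (T.h (T.h (T.h (M (nat_lit 8055960460481364230143)) (T.h (P (nat_lit 0)) (P (nat_lit 67886065340547072)))) (T.h (P (nat_lit 0)) (M (nat_lit 73784448161644543)))) (T.h (P (nat_lit 0)) (M (nat_lit 3604578148319231))))))), (P (nat_lit 0)), (P (nat_lit 0))]
def lP12_34 : List (T ℤ) := [(P (nat_lit 0)), (T.h (T.h (P (nat_lit 0)) (T.h (T.h (P (nat_lit 14460488853345857845952774144)) (T.h (P (nat_lit 0)) (T.h (M (nat_lit 35258632209719281844223)) (T.h (P (nat_lit 0)) (M (nat_lit 38810451509575679)))))) (T.h (P (nat_lit 0)) (T.h (T.h (M (nat_lit 31924257583799644192767)) (T.h (P (nat_lit 0)) (M (nat_lit 40202621814210559)))) (T.h (P (nat_lit 0)) (P (nat_lit 11719595191042048))))))) (T.h (T.h (T.h (P (nat_lit 0)) (T.h (M (nat_lit 24994842400579066712293375))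 (T.h (P (nat_lit 0)) (T.h (P (nat_lit 100490322530585804800)) (T.h (P (nat_lit 0)) (M (nat_lit 210516923144895))))))) (T.h (P (nat_lit 0)) (T.h (T.h (P (nat_lit 0)) (T.h (M (nat_lit 70845242460558327807)) (T.h (P (nat_lit 0)) (P (nat_lit 116162343241472))))) (T.h (P (nat_lit 0)) (T.h (T.h (P (nat_lit 0)) (P (nat_lit 151808684066872))) (P (nat_lit 0))))))) (T.h (T.h (P (nat_lit 0)) (T.h (T.h (M (nat_lit 33078434562460132311039)) (T.h (P (nat_lit 0)) (M (nat_lit 224780437347303423)))) (T.h (P (nat_lit 0)) (P (nat_lit 4747134743281664))))) (T.h (T.h (T.h (P (nat_lit 0)) (T.h (P (nat_lit 7073318242843885568)) (T.h (P (nat_lit 0)) (P (nat_lit 443563858406368))))) (T.h (P (nat_lit 0)) (T.h (T.h (P (nat_lit 0)) (M (nat_lit 56982699341063))) (P (nat_lit 0))))) (T.h (T.h (P (nat_lit 0)) (M (nat_lit 5068962778185727))) (T.h (T.h (T.h (P (nat_lit 0)) (M (nat_lit 127174373621351))) (P (nat_lit 0))) (P (nat_lit 0)))))))), (P (nat_lit 0)), (T.h (T.h (P (nat_lit 0))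 (T.h (T.h (P (nat_lit 6328472737027037080754061312)) (T.h (P (nat_lit 0)) (T.h (M (nat_lit 285224894226779695218687)) (T.h (P (nat_lit 0)) (P (nat_lit 948271545113575424)))))) (T.h (P (nat_lit 0)) (T.h (T.h (P (nat_lit 7825788465425294557184)) (T.h (P (nat_lit 0)) (M (nat_lit 57500837264064511)))) (T.h (P (nat_lit 0)) (P (nat_lit 12313803491115008))))))) (T.h (T.h (T.h (P (nat_lit 0)) (T.h (M (nat_lit 32711719636026981296898047)) (T.h (P (nat_lit 0)) (P (nat_lit 28668537624999231488))))) (T.h (P (nat_lit 0)) (T.h (T.h (P (nat_lit 0)) (P (nat_lit 3572391151367356416))) (P (nat_lit 0))))) (T.h (T.h (P (nat_lit 0)) (T.h (T.h (M (nat_lit 20581110294552753733631)) (T.h (P (nat_lit 0)) (P (nat_lit 39385685907243008)))) (T.h (P (nat_lit 0)) (P (nat_lit 139963102492819456))))) (T.h (T.h (T.h (P (nat_lit 0)) (P (nat_lit 156408055424987693056))) (P (nat_lit 0))) (T.h (T.h (P (nat_lit 0)) (P (nat_lit 42083093760966656))) (P (nat_lit 0))))))), (P (nat_lit 0)),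 (P (nat_lit 0)), (P (nat_lit 0)), (P (nat_lit 0))]
def lP12_35 : List (T ℤ) := [(T.h (T.h (T.h (P (nat_lit 0)) (T.h (M (nat_lit 33559872359033175931476770815)) (T.h (P (nat_lit 0)) (T.h (M (nat_lit 209241886620701748625407)) (T.h (P (nat_lit 0)) (P (nat_lit 107331193551486976))))))) (T.h (P (nat_lit 0)) (T.h (T.h (P (nat_lit 0)) (T.h (M (nat_lit 85624093680474032963583)) (T.h (P (nat_lit 0)) (P (nat_lit 215977173868740608))))) (T.h (P (nat_lit 0)) (T.h (T.h (P (nat_lit 0)) (P (nat_lit 17914672760422400))) (P (nat_lit 0))))))) (T.h (T.h (P (nat_lit 0)) (T.h (T.h (M (nat_lit 23759003445641840338927615)) (T.h (P (nat_lit 0)) (T.h (M (nat_lit 338126308607296274431)) (T.h (P (nat_lit 0)) (M (nat_lit 593642746325519)))))) (T.h (P (nat_lit 0)) (T.h (T.h (P (nat_lit 39721901389160382464)) (T.h (P (nat_lit 0)) (M (nat_lit 86753871602231)))) (T.h (P (nat_lit 0)) (P (nat_lit 133805349443464))))))) (T.h (T.h (T.h (P (nat_lit 0)) (T.h (P (nat_lit 116639013687168709165056))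 (T.h (P (nat_lit 0)) (P (nat_lit 142516328910422016))))) (T.h (P (nat_lit 0)) (T.h (T.h (P (nat_lit 0)) (M (nat_lit 608851275405262847))) (P (nat_lit 0))))) (T.h (T.h (P (nat_lit 0)) (T.h (T.h (P (nat_lit 132862836327239909376)) (T.h (P (nat_lit 0)) (P (nat_lit 1163840012560664)))) (T.h (P (nat_lit 0)) (M (nat_lit 130513439059519))))) (T.h (T.h (T.h (P (nat_lit 0)) (M (nat_lit 321934149486772223))) (P (nat_lit 0))) (T.h (T.h (P (nat_lit 0)) (M (nat_lit 24740555495527))) (P (nat_lit 0)))))))), (T.h (T.h (T.h (P (nat_lit 22617088506532989352597639921664)) (T.h (P (nat_lit 0)) (T.h (P (nat_lit 8457161709171102583881728)) (T.h (P (nat_lit 0)) (T.h (P (nat_lit 74036933237223194624)) (T.h (P (nat_lit 0)) (M (nat_lit 26207854071903)))))))) (T.h (P (nat_lit 0)) (T.h (T.h (P (nat_lit 3140137524329456248815616)) (T.h (P (nat_lit 0)) (T.h (P (nat_lit 45458294552150409216)) (T.h (P (nat_lit 0)) (P (nat_lit 15164383117568)))))) (T.h (P (nat_lit 0)) (T.h (T.h (M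 (nat_lit 13734426222065090559)) (T.h (P (nat_lit 0)) (P (nat_lit 18863524992736)))) (T.h (P (nat_lit 0)) (P (nat_lit 6987571952256)))))))) (T.h (T.h (P (nat_lit 0)) (T.h (T.h (P (nat_lit 0)) (T.h (P (nat_lit 436545863640585823322112)) (T.h (P (nat_lit 0)) (P (nat_lit 231010450467749888))))) (T.h (P (nat_lit 0)) (T.h (T.h (P (nat_lit 0)) (M (nat_lit 186331836287156223))) (P (nat_lit 0)))))) (T.h (T.h (T.h (P (nat_lit 8457161709171102583881728)) (T.h (P (nat_lit 0)) (T.h (P (nat_lit 101276404498535809024)) (T.h (P (nat_lit 0)) (M (nat_lit 171985111421919)))))) (T.h (P (nat_lit 0)) (T.h (T.h (P (nat_lit 45458294552150409216)) (T.h (P (nat_lit 0)) (P (nat_lit 913938109348384)))) (T.h (P (nat_lit 0)) (P (nat_lit 18863524992736)))))) (T.h (T.h (P (nat_lit 0)) (T.h (T.h (P (nat_lit 0)) (P (nat_lit 231010450467749888))) (P (nat_lit 0)))) (T.h (T.h (T.h (P (nat_lit 74036933237223194624)) (T.h (P (nat_lit 0)) (M (nat_lit 171985111421919)))) (T.h (P (nat_lit 0))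 (P (nat_lit 15164383117568)))) (T.h (P (nat_lit 0)) (M (nat_lit 26207854071903)))))))), (T.h (T.h (T.h (P (nat_lit 0)) (T.h (M (nat_lit 41719496877880262428794552319)) (T.h (P (nat_lit 0)) (T.h (P (nat_lit 89893508674239948914688)) (T.h (P (nat_lit 0)) (M (nat_lit 648565405388898303))))))) (T.h (P (nat_lit 0)) (T.h (T.h (P (nat_lit 0)) (T.h (P (nat_lit 100431379644589870678016)) (T.h (P (nat_lit 0)) (M (nat_lit 1092978470027821055))))) (T.h (P (nat_lit 0)) (T.h (T.h (P (nat_lit 0)) (P (nat_lit 4738026131750912))) (P (nat_lit 0))))))) (T.h (T.h (P (nat_lit 0)) (T.h (T.h (M (nat_lit 162053843256623887118499839)) (T.h (P (nat_lit 0)) (T.h (P (nat_lit 13901008382321491968)) (T.h (P (nat_lit 0)) (P (nat_lit 265807357753792)))))) (T.h (P (nat_lit 0)) (T.h (T.h (P (nat_lit 65974941135990161408)) (T.h (P (nat_lit 0)) (P (nat_lit 36848463641664)))) (T.h (P (nat_lit 0)) (P (nat_lit 11420856083328))))))) (T.h (T.h (T.h (P (nat_lit 0)) (T.h (P (nat_lit 124543433897628462481408))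 (T.h (P (nat_lit 0)) (M (nat_lit 1423483935950897151))))) (T.h (P (nat_lit 0)) (T.h (T.h (P (nat_lit 0)) (M (nat_lit 206605945752780799))) (P (nat_lit 0))))) (T.h (T.h (P (nat_lit 0)) (T.h (T.h (P (nat_lit 199032374764760989696)) (T.h (P (nat_lit 0)) (M (nat_lit 333470482810303)))) (T.h (P (nat_lit 0)) (P (nat_lit 197314070123200))))) (T.h (T.h (T.h (P (nat_lit 0)) (P (nat_lit 231609111571791872))) (P (nat_lit 0))) (T.h (T.h (P (nat_lit 0)) (P (nat_lit 107326841501440))) (P (nat_lit 0)))))))), (T.h (T.h (T.h (P (nat_lit 90041645070864497468254453760)) (T.h (P (nat_lit 0)) (T.h (M (nat_lit 74297551689310308902371327)) (T.h (P (nat_lit 0)) (T.h (P (nat_lit 336412622550833561600)) (T.h (P (nat_lit 0)) (M (nat_lit 499469368768831)))))))) (T.h (P (nat_lit 0)) (T.h (T.h (M (nat_lit 9814911570293775350628351)) (T.h (P (nat_lit 0)) (T.h (P (nat_lit 341679502975320457216)) (T.h (P (nat_lit 0)) (M (nat_lit 311887139930959)))))) (T.h (P (nat_lit 0)) (T.h (T.h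 (P (nat_lit 10325048240973545472)) (T.h (P (nat_lit 0)) (P (nat_lit 45874032146976)))) (T.h (P (nat_lit 0)) (M (nat_lit 10492294430287)))))))) (T.h (T.h (P (nat_lit 0)) (T.h (T.h (P (nat_lit 0)) (T.h (M (nat_lit 465666743731333762121727)) (T.h (P (nat_lit 0)) (M (nat_lit 1348142103835803647))))) (T.h (P (nat_lit 0)) (T.h (T.h (P (nat_lit 0)) (P (nat_lit 424906803810205696))) (P (nat_lit 0)))))) (T.h (T.h (T.h (M (nat_lit 82978344281189709284114431)) (T.h (P (nat_lit 0)) (T.h (P (nat_lit 185568451651652550656)) (T.h (P (nat_lit 0)) (M (nat_lit 1548465693749039)))))) (T.h (P (nat_lit 0)) (T.h (T.h (M (nat_lit 99246207615725731839)) (T.h (P (nat_lit 0)) (M (nat_lit 1201170315836127)))) (T.h (P (nat_lit 0)) (P (nat_lit 46870734497312)))))) (T.h (T.h (P (nat_lit 0)) (T.h (T.h (P (nat_lit 0)) (P (nat_lit 536079415609098240))) (P (nat_lit 0)))) (T.h (T.h (T.h (M (nat_lit 78420376951661264895)) (T.h (P (nat_lit 0)) (P (nat_lit 227616305269056)))) (T.h (P (nat_lit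 0)) (P (nat_lit 211605099716560)))) (T.h (P (nat_lit 0)) (M (nat_lit 100380931134879)))))))), (T.h (T.h (T.h (P (nat_lit 0)) (T.h (P (nat_lit 23189883887025830961654792192)) (T.h (P (nat_lit 0)) (T.h (M (nat_lit 243099935357513639133183)) (T.h (P (nat_lit 0)) (P (nat_lit 595563394477948928))))))) (T.h (P (nat_lit 0)) (T.h (T.h (P (nat_lit 0)) (T.h (M (nat_lit 87515735663265416478719)) (T.h (P (nat_lit 0)) (P (nat_lit 262202542911520768))))) (T.h (P (nat_lit 0)) (T.h (T.h (P (nat_lit 0)) (M (nat_lit 8342794656481279))) (P (nat_lit 0))))))) (T.h (T.h (P (nat_lit 0)) (T.h (T.h (P (nat_lit 104213714518363397557321728)) (T.h (P (nat_lit 0)) (P (nat_lit 571332830943741214720)))) (T.h (P (nat_lit 0)) (M (nat_lit 99944006815716474879))))) (T.h (T.h (T.h (P (nat_lit 0)) (T.h (M (nat_lit 33956056854755006218239)) (T.h (P (nat_lit 0)) (P (nat_lit 1175977343068569600))))) (T.h (P (nat_lit 0)) (T.h (T.h (P (nat_lit 0)) (P (nat_lit 533260947869499392))) (P (nat_lit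 0))))) (T.h (T.h (P (nat_lit 0)) (M (nat_lit 18889754215679262719))) (T.h (T.h (T.h (P (nat_lit 0)) (M (nat_lit 93919563231952895))) (P (nat_lit 0))) (P (nat_lit 0))))))), (P (nat_lit 0)), (P (nat_lit 0)), (T.h (T.h (P (nat_lit 0)) (T.h (T.h (P (nat_lit 125510969451427983133350297600)) (T.h (P (nat_lit 0)) (T.h (M (nat_lit 194734530132775542980607)) (T.h (P (nat_lit 0)) (M (nat_lit 89719342315667455)))))) (T.h (P (nat_lit 0)) (T.h (T.h (M (nat_lit 266502861342687925108735)) (T.h (P (nat_lit 0)) (M (nat_lit 456719718231015423)))) (T.h (P (nat_lit 0)) (P (nat_lit 86644937577070592))))))) (T.h (T.h (T.h (P (nat_lit 0)) (T.h (P (nat_lit 164893109762166123084644352)) (T.h (P (nat_lit 0)) (T.h (P (nat_lit 17549752215281860608)) (T.h (P (nat_lit 0)) (M (nat_lit 134674977317303))))))) (T.h (P (nat_lit 0)) (T.h (T.h (P (nat_lit 0)) (T.h (M (nat_lit 681170617531256274943)) (T.h (P (nat_lit 0)) (M (nat_lit 312521422717743))))) (T.h (P (nat_lit 0)) (T.h (T.h (P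 (nat_lit 0)) (P (nat_lit 669188264583384))) (P (nat_lit 0))))))) (T.h (T.h (P (nat_lit 0)) (T.h (T.h (M (nat_lit 38123772523808315932671)) (T.h (P (nat_lit 0)) (M (nat_lit 1025403467573755903)))) (T.h (P (nat_lit 0)) (P (nat_lit 249194284123684864))))) (T.h (T.h (T.h (P (nat_lit 0)) (T.h (P (nat_lit 550330507241262678016)) (T.h (P (nat_lit 0)) (M (nat_lit 163052235694767))))) (T.h (P (nat_lit 0)) (T.h (T.h (P (nat_lit 0)) (M (nat_lit 116925190169207))) (P (nat_lit 0))))) (T.h (T.h (P (nat_lit 0)) (M (nat_lit 27188799886458879))) (T.h (T.h (T.h (P (nat_lit 0)) (P (nat_lit 310803163017104))) (P (nat_lit 0))) (P (nat_lit 0))))))))]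
def lP12_36 : List (T ℤ) := [(T.h (T.h (P (nat_lit 0)) (T.h (T.h (P (nat_lit 0)) (T.h (M (nat_lit 69642946525185967036301311)) (T.h (P (nat_lit 0)) (T.h (M (nat_lit 107611019278756610047)) (T.h (P (nat_lit 0)) (P (nat_lit 20495869015824))))))) (T.h (P (nat_lit 0)) (T.h (T.h (P (nat_lit 0)) (T.h (P (nat_lit 30453531548156166144)) (T.h (P (nat_lit 0)) (M (nat_lit 45475820045455))))) (T.h (P (nat_lit 0)) (T.h (T.h (P (nat_lit 0)) (M (nat_lit 22027988921247))) (P (nat_lit 0)))))))) (T.h (T.h (T.h (P (nat_lit 165657683186759434277748736)) (T.h (P (nat_lit 0)) (T.h (P (nat_lit 12971391210968743673856)) (T.h (P (nat_lit 0)) (P (nat_lit 721582360884019200)))))) (T.h (P (nat_lit 0)) (T.h (T.h (M (nat_lit 9028346044505141542911)) (T.h (P (nat_lit 0)) (P (nat_lit 27697189017501696)))) (T.h (P (nat_lit 0)) (M (nat_lit 169082224198090751)))))) (T.h (T.h (P (nat_lit 0)) (T.h (T.h (P (nat_lit 0)) (T.h (P (nat_lit 398757292396802736128)) (T.h (P (nat_lit 0)) (P (nat_lit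 145511679509456))))) (T.h (P (nat_lit 0)) (T.h (T.h (P (nat_lit 0)) (P (nat_lit 713975442312624))) (P (nat_lit 0)))))) (T.h (T.h (T.h (M (nat_lit 151525430621372818653183)) (T.h (P (nat_lit 0)) (M (nat_lit 503218121177612287)))) (T.h (P (nat_lit 0)) (M (nat_lit 327822764628525055)))) (T.h (T.h (P (nat_lit 0)) (T.h (T.h (P (nat_lit 0)) (P (nat_lit 20469176266336))) (P (nat_lit 0)))) (M (nat_lit 4766301716283391))))))), (T.h (T.h (P (nat_lit 0)) (T.h (T.h (P (nat_lit 83455246969826313495858118656)) (T.h (P (nat_lit 0)) (T.h (P (nat_lit 1406102523138486822764544)) (T.h (P (nat_lit 0)) (P (nat_lit 1489863543422124032)))))) (T.h (P (nat_lit 0)) (T.h (T.h (P (nat_lit 149271753676356654727168)) (T.h (P (nat_lit 0)) (M (nat_lit 52979880510455807)))) (T.h (P (nat_lit 0)) (P (nat_lit 23898226115182592))))))) (T.h (T.h (T.h (P (nat_lit 0)) (T.h (M (nat_lit 389978946307820500656586751)) (T.h (P (nat_lit 0)) (T.h (P (nat_lit 383463957369523798016)) (T.h (P (nat_lit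 0)) (P (nat_lit 359323624798656))))))) (T.h (P (nat_lit 0)) (T.h (T.h (P (nat_lit 0)) (T.h (P (nat_lit 1558290003507319668736)) (T.h (P (nat_lit 0)) (P (nat_lit 228504705620032))))) (T.h (P (nat_lit 0)) (T.h (T.h (P (nat_lit 0)) (M (nat_lit 1123590043552511))) (P (nat_lit 0))))))) (T.h (T.h (P (nat_lit 0)) (T.h (T.h (P (nat_lit 75444045631319370104832)) (T.h (P (nat_lit 0)) (P (nat_lit 135494672861364224)))) (T.h (P (nat_lit 0)) (P (nat_lit 34487974279184384))))) (T.h (T.h (T.h (P (nat_lit 0)) (T.h (M (nat_lit 320842019369599893503)) (T.h (P (nat_lit 0)) (M (nat_lit 1377247444456703))))) (T.h (P (nat_lit 0)) (T.h (T.h (P (nat_lit 0)) (P (nat_lit 228504705620032))) (P (nat_lit 0))))) (T.h (T.h (P (nat_lit 0)) (P (nat_lit 242202483463061504))) (T.h (T.h (T.h (P (nat_lit 0)) (P (nat_lit 359323624798656))) (P (nat_lit 0))) (P (nat_lit 0)))))))), (T.h (T.h (P (nat_lit 0)) (T.h (T.h (P (nat_lit 0)) (T.h (M (nat_lit 82005352132504340645543935)) (T.h (P (nat_lit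 0)) (T.h (P (nat_lit 7255255734206595072)) (T.h (P (nat_lit 0)) (P (nat_lit 128431816472960))))))) (T.h (P (nat_lit 0)) (T.h (T.h (P (nat_lit 0)) (T.h (P (nat_lit 40354807243362795520)) (T.h (P (nat_lit 0)) (M (nat_lit 126198014860367))))) (T.h (P (nat_lit 0)) (T.h (T.h (P (nat_lit 0)) (M (nat_lit 171358582288431))) (P (nat_lit 0)))))))) (T.h (T.h (T.h (P (nat_lit 38654651469590484565549383680)) (T.h (P (nat_lit 0)) (T.h (P (nat_lit 254371583437503744442368)) (T.h (P (nat_lit 0)) (M (nat_lit 863332651526553599)))))) (T.h (P (nat_lit 0)) (T.h (T.h (M (nat_lit 398869698903503942975487)) (T.h (P (nat_lit 0)) (P (nat_lit 605362602800644096)))) (T.h (P (nat_lit 0)) (P (nat_lit 77592608275103744)))))) (T.h (T.h (P (nat_lit 0)) (T.h (T.h (P (nat_lit 0)) (T.h (P (nat_lit 6781948296333099008)) (T.h (P (nat_lit 0)) (M (nat_lit 150609851272495))))) (T.h (P (nat_lit 0)) (T.h (T.h (P (nat_lit 0)) (M (nat_lit 625848463900175))) (P (nat_lit 0)))))) (T.h (T.h (T.h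 (P (nat_lit 75429900119833793527808)) (T.h (P (nat_lit 0)) (M (nat_lit 1732861195147624447)))) (T.h (P (nat_lit 0)) (M (nat_lit 103527097765298175)))) (T.h (T.h (P (nat_lit 0)) (T.h (T.h (P (nat_lit 0)) (P (nat_lit 56095130371632))) (P (nat_lit 0)))) (P (nat_lit 84372272904028160))))))), (T.h (T.h (P (nat_lit 0)) (T.h (T.h (P (nat_lit 12264306295860865433992167424)) (T.h (P (nat_lit 0)) (T.h (P (nat_lit 72151306072020993703936)) (T.h (P (nat_lit 0)) (M (nat_lit 353876310217654271)))))) (T.h (P (nat_lit 0)) (T.h (T.h (M (nat_lit 38351697694890571857919)) (T.h (P (nat_lit 0)) (P (nat_lit 12011030252027904)))) (T.h (P (nat_lit 0)) (P (nat_lit 22986133075853312))))))) (T.h (T.h (T.h (P (nat_lit 0)) (T.h (P (nat_lit 178450648329772352166428672)) (T.h (P (nat_lit 0)) (P (nat_lit 468182160841962946560))))) (T.h (P (nat_lit 0)) (T.h (T.h (P (nat_lit 0)) (M (nat_lit 632434394254251393023))) (P (nat_lit 0))))) (T.h (T.h (P (nat_lit 0)) (T.h (T.h (M (nat_lit 126715159606584970051583))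 (T.h (P (nat_lit 0)) (P (nat_lit 329315656024653824)))) (T.h (P (nat_lit 0)) (P (nat_lit 95609950710071296))))) (T.h (T.h (T.h (P (nat_lit 0)) (P (nat_lit 312703088898592473088))) (P (nat_lit 0))) (T.h (T.h (P (nat_lit 0)) (M (nat_lit 250273072803250175))) (P (nat_lit 0))))))), (P (nat_lit 0)), (P (nat_lit 0)), (T.h (T.h (T.h (P (nat_lit 0)) (T.h (P (nat_lit 125510969451427983133350297600)) (T.h (P (nat_lit 0)) (T.h (M (nat_lit 266502861342687925108735)) (T.h (P (nat_lit 0)) (P (nat_lit 86644937577070592))))))) (T.h (P (nat_lit 0)) (T.h (T.h (P (nat_lit 0)) (T.h (M (nat_lit 194734530132775542980607)) (T.h (P (nat_lit 0)) (M (nat_lit 456719718231015423))))) (T.h (P (nat_lit 0)) (T.h (T.h (P (nat_lit 0)) (M (nat_lit 89719342315667455))) (P (nat_lit 0))))))) (T.h (T.h (P (nat_lit 0)) (T.h (T.h (P (nat_lit 164893109762166123084644352)) (T.h (P (nat_lit 0)) (T.h (M (nat_lit 681170617531256274943)) (T.h (P (nat_lit 0)) (P (nat_lit 669188264583384)))))) (T.h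 (P (nat_lit 0)) (T.h (T.h (P (nat_lit 17549752215281860608)) (T.h (P (nat_lit 0)) (M (nat_lit 312521422717743)))) (T.h (P (nat_lit 0)) (M (nat_lit 134674977317303))))))) (T.h (T.h (T.h (P (nat_lit 0)) (T.h (M (nat_lit 38123772523808315932671)) (T.h (P (nat_lit 0)) (P (nat_lit 249194284123684864))))) (T.h (P (nat_lit 0)) (T.h (T.h (P (nat_lit 0)) (M (nat_lit 1025403467573755903))) (P (nat_lit 0))))) (T.h (T.h (P (nat_lit 0)) (T.h (T.h (P (nat_lit 550330507241262678016)) (T.h (P (nat_lit 0)) (M (nat_lit 116925190169207)))) (T.h (P (nat_lit 0)) (M (nat_lit 163052235694767))))) (T.h (T.h (T.h (P (nat_lit 0)) (M (nat_lit 27188799886458879))) (P (nat_lit 0))) (T.h (T.h (P (nat_lit 0)) (P (nat_lit 310803163017104))) (P (nat_lit 0)))))))), (T.h (T.h (T.h (P (nat_lit 20591564652282124424821660975104)) (T.h (P (nat_lit 0)) (T.h (P (nat_lit 64119266490653702373769216)) (T.h (P (nat_lit 0)) (T.h (M (nat_lit 55962895046749978623)) (T.h (P (nat_lit 0)) (P (nat_lit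 35204148183136)))))))) (T.h (P (nat_lit 0)) (T.h (T.h (P (nat_lit 64119266490653702373769216)) (T.h (P (nat_lit 0)) (T.h (P (nat_lit 72094231162706198528)) (T.h (P (nat_lit 0)) (P (nat_lit 7477112616224)))))) (T.h (P (nat_lit 0)) (T.h (T.h (M (nat_lit 55962895046749978623)) (T.h (P (nat_lit 0)) (P (nat_lit 7477112616224)))) (T.h (P (nat_lit 0)) (P (nat_lit 35204148183136)))))))) (T.h (T.h (P (nat_lit 0)) (T.h (T.h (P (nat_lit 0)) (T.h (M (nat_lit 149786591615585139818495)) (T.h (P (nat_lit 0)) (M (nat_lit 277527576046272511))))) (T.h (P (nat_lit 0)) (T.h (T.h (P (nat_lit 0)) (M (nat_lit 277527576046272511))) (P (nat_lit 0)))))) (T.h (T.h (T.h (M (nat_lit 13176366779944124207333375)) (T.h (P (nat_lit 0)) (T.h (P (nat_lit 248427145624222171136)) (T.h (P (nat_lit 0)) (M (nat_lit 155512376735103)))))) (T.h (P (nat_lit 0)) (T.h (T.h (P (nat_lit 248427145624222171136)) (T.h (P (nat_lit 0)) (P (nat_lit 158867203205152)))) (T.h (P (nat_lit 0)) (M (nat_lit 155512376735103))))))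 (T.h (T.h (P (nat_lit 0)) (T.h (T.h (P (nat_lit 0)) (M (nat_lit 200704566874275839))) (P (nat_lit 0)))) (T.h (T.h (T.h (M (nat_lit 87351855949818101759)) (T.h (P (nat_lit 0)) (M (nat_lit 59244869932431)))) (T.h (P (nat_lit 0)) (M (nat_lit 59244869932431)))) (T.h (P (nat_lit 0)) (M (nat_lit 16207010583903))))))))]
def lP12_37 : List (T ℤ) := [(T.h (T.h (T.h (P (nat_lit 0)) (T.h (P (nat_lit 90050153078166173787650785280)) (T.h (P (nat_lit 0)) (T.h (P (nat_lit 101335130890636399476736)) (T.h (P (nat_lit 0)) (P (nat_lit 76827332248272896))))))) (T.h (P (nat_lit 0)) (T.h (T.h (P (nat_lit 0)) (T.h (M (nat_lit 143850931569433688145919)) (T.h (P (nat_lit 0)) (M (nat_lit 952237621990096895))))) (T.h (P (nat_lit 0)) (T.h (T.h (P (nat_lit 0)) (P (nat_lit 1311573936746954752))) (P (nat_lit 0))))))) (T.h (T.h (P (nat_lit 0)) (T.h (T.h (P (nat_lit 180947884852079275838275584)) (T.h (P (nat_lit 0)) (T.h (P (nat_lit 1604645914225552654336)) (T.h (P (nat_lit 0)) (P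 (nat_lit 446795098412288)))))) (T.h (P (nat_lit 0)) (T.h (T.h (M (nat_lit 521293321167962111)) (T.h (P (nat_lit 0)) (M (nat_lit 224767721017791)))) (T.h (P (nat_lit 0)) (M (nat_lit 121815508078015))))))) (T.h (T.h (T.h (P (nat_lit 0)) (T.h (M (nat_lit 603565915171821172293631)) (T.h (P (nat_lit 0)) (P (nat_lit 215628648894627840))))) (T.h (P (nat_lit 0)) (T.h (T.h (P (nat_lit 0)) (M (nat_lit 1501475937235730431))) (P (nat_lit 0))))) (T.h (T.h (P (nat_lit 0)) (T.h (T.h (M (nat_lit 563364003110174326783)) (T.h (P (nat_lit 0)) (M (nat_lit 1713831813225279)))) (T.h (P (nat_lit 0)) (P (nat_lit 516072503077568))))) (T.h (T.h (T.h (P (nat_lit 0)) (M (nat_lit 196186089696886783))) (P (nat_lit 0))) (T.h (T.h (P (nat_lit 0)) (M (nat_lit 369702816473023))) (P (nat_lit 0)))))))), (T.h (T.h (T.h (P (nat_lit 29043847495833169443361659027456)) (T.h (P (nat_lit 0)) (T.h (P (nat_lit 4718782154620513862811648)) (T.h (P (nat_lit 0)) (T.h (P (nat_lit 262433141256037072896))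 (T.h (P (nat_lit 0)) (M (nat_lit 65631642162591)))))))) (T.h (P (nat_lit 0)) (T.h (T.h (P (nat_lit 41184711322247905706770432)) (T.h (P (nat_lit 0)) (T.h (M (nat_lit 61550852568032215039)) (T.h (P (nat_lit 0)) (M (nat_lit 46665150786847)))))) (T.h (P (nat_lit 0)) (T.h (T.h (P (nat_lit 84149006842749517824)) (T.h (P (nat_lit 0)) (P (nat_lit 762953646744960)))) (T.h (P (nat_lit 0)) (P (nat_lit 21455725471840)))))))) (T.h (T.h (P (nat_lit 0)) (T.h (T.h (P (nat_lit 0)) (T.h (M (nat_lit 1089739465065568969687039)) (T.h (P (nat_lit 0)) (P (nat_lit 774963076898947072))))) (T.h (P (nat_lit 0)) (T.h (T.h (P (nat_lit 0)) (P (nat_lit 4123807266188886016))) (P (nat_lit 0)))))) (T.h (T.h (T.h (P (nat_lit 4718782154620513862811648)) (T.h (P (nat_lit 0)) (T.h (P (nat_lit 1036864692643493314560)) (T.h (P (nat_lit 0)) (P (nat_lit 892110877397168)))))) (T.h (P (nat_lit 0)) (T.h (T.h (M (nat_lit 61550852568032215039)) (T.h (P (nat_lit 0)) (M (nat_lit 2378042901799487))))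 (T.h (P (nat_lit 0)) (P (nat_lit 762953646744960)))))) (T.h (T.h (P (nat_lit 0)) (T.h (T.h (P (nat_lit 0)) (P (nat_lit 774963076898947072))) (P (nat_lit 0)))) (T.h (T.h (T.h (P (nat_lit 262433141256037072896)) (T.h (P (nat_lit 0)) (P (nat_lit 892110877397168)))) (T.h (P (nat_lit 0)) (M (nat_lit 46665150786847)))) (T.h (P (nat_lit 0)) (M (nat_lit 65631642162591)))))))), (T.h (T.h (T.h (P (nat_lit 0)) (T.h (P (nat_lit 58533588080269667130553663488)) (T.h (P (nat_lit 0)) (T.h (P (nat_lit 194793753450289104420864)) (T.h (P (nat_lit 0)) (M (nat_lit 15147995482423295))))))) (T.h (P (nat_lit 0)) (T.h (T.h (P (nat_lit 0)) (T.h (M (nat_lit 307387787828805941329919)) (T.h (P (nat_lit 0)) (P (nat_lit 144336044066504704))))) (T.h (P (nat_lit 0)) (T.h (T.h (P (nat_lit 0)) (P (nat_lit 32282370373353472))) (P (nat_lit 0))))))) (T.h (T.h (P (nat_lit 0)) (T.h (T.h (M (nat_lit 62512067805864717822459903)) (T.h (P (nat_lit 0)) (M (nat_lit 562928614136549998591)))) (T.h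 (P (nat_lit 0)) (M (nat_lit 451596974912692027391))))) (T.h (T.h (T.h (P (nat_lit 0)) (T.h (M (nat_lit 228364555603926038085631)) (T.h (P (nat_lit 0)) (M (nat_lit 522124404768767999))))) (T.h (P (nat_lit 0)) (T.h (T.h (P (nat_lit 0)) (P (nat_lit 1070033940780810240))) (P (nat_lit 0))))) (T.h (T.h (P (nat_lit 0)) (M (nat_lit 152497253471509020671))) (T.h (T.h (T.h (P (nat_lit 0)) (M (nat_lit 125002415436529663))) (P (nat_lit 0))) (P (nat_lit 0))))))), (P (nat_lit 0)), (T.h (T.h (P (nat_lit 0)) (T.h (T.h (M (nat_lit 33559872359033175931476770815)) (T.h (P (nat_lit 0)) (T.h (M (nat_lit 85624093680474032963583)) (T.h (P (nat_lit 0)) (P (nat_lit 17914672760422400)))))) (T.h (P (nat_lit 0)) (T.h (T.h (M (nat_lit 209241886620701748625407)) (T.h (P (nat_lit 0)) (P (nat_lit 215977173868740608)))) (T.h (P (nat_lit 0)) (P (nat_lit 107331193551486976))))))) (T.h (T.h (T.h (P (nat_lit 0)) (T.h (M (nat_lit 23759003445641840338927615)) (T.h (P (nat_lit 0)) (T.h (P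 (nat_lit 39721901389160382464)) (T.h (P (nat_lit 0)) (P (nat_lit 133805349443464))))))) (T.h (P (nat_lit 0)) (T.h (T.h (P (nat_lit 0)) (T.h (M (nat_lit 338126308607296274431)) (T.h (P (nat_lit 0)) (M (nat_lit 86753871602231))))) (T.h (P (nat_lit 0)) (T.h (T.h (P (nat_lit 0)) (M (nat_lit 593642746325519))) (P (nat_lit 0))))))) (T.h (T.h (P (nat_lit 0)) (T.h (T.h (P (nat_lit 116639013687168709165056)) (T.h (P (nat_lit 0)) (M (nat_lit 608851275405262847)))) (T.h (P (nat_lit 0)) (P (nat_lit 142516328910422016))))) (T.h (T.h (T.h (P (nat_lit 0)) (T.h (P (nat_lit 132862836327239909376)) (T.h (P (nat_lit 0)) (M (nat_lit 130513439059519))))) (T.h (P (nat_lit 0)) (T.h (T.h (P (nat_lit 0)) (P (nat_lit 1163840012560664))) (P (nat_lit 0))))) (T.h (T.h (P (nat_lit 0)) (M (nat_lit 321934149486772223))) (T.h (T.h (T.h (P (nat_lit 0)) (M (nat_lit 24740555495527))) (P (nat_lit 0))) (P (nat_lit 0)))))))), (T.h (T.h (P (nat_lit 0)) (T.h (T.h (P (nat_lit 0)) (T.h (M (nat_lit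 69642946525185967036301311)) (T.h (P (nat_lit 0)) (T.h (P (nat_lit 30453531548156166144)) (T.h (P (nat_lit 0)) (M (nat_lit 22027988921247))))))) (T.h (P (nat_lit 0)) (T.h (T.h (P (nat_lit 0)) (T.h (M (nat_lit 107611019278756610047)) (T.h (P (nat_lit 0)) (M (nat_lit 45475820045455))))) (T.h (P (nat_lit 0)) (T.h (T.h (P (nat_lit 0)) (P (nat_lit 20495869015824))) (P (nat_lit 0)))))))) (T.h (T.h (T.h (P (nat_lit 165657683186759434277748736)) (T.h (P (nat_lit 0)) (T.h (M (nat_lit 9028346044505141542911)) (T.h (P (nat_lit 0)) (M (nat_lit 169082224198090751)))))) (T.h (P (nat_lit 0)) (T.h (T.h (P (nat_lit 12971391210968743673856)) (T.h (P (nat_lit 0)) (P (nat_lit 27697189017501696)))) (T.h (P (nat_lit 0)) (P (nat_lit 721582360884019200)))))) (T.h (T.h (P (nat_lit 0)) (T.h (T.h (P (nat_lit 0)) (T.h (P (nat_lit 398757292396802736128)) (T.h (P (nat_lit 0)) (P (nat_lit 713975442312624))))) (T.h (P (nat_lit 0)) (T.h (T.h (P (nat_lit 0)) (P (nat_lit 145511679509456)))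 (P (nat_lit 0)))))) (T.h (T.h (T.h (M (nat_lit 151525430621372818653183)) (T.h (P (nat_lit 0)) (M (nat_lit 327822764628525055)))) (T.h (P (nat_lit 0)) (M (nat_lit 503218121177612287)))) (T.h (T.h (P (nat_lit 0)) (T.h (T.h (P (nat_lit 0)) (P (nat_lit 20469176266336))) (P (nat_lit 0)))) (M (nat_lit 4766301716283391))))))), (T.h (T.h (P (nat_lit 0)) (T.h (T.h (P (nat_lit 90050153078166173787650785280)) (T.h (P (nat_lit 0)) (T.h (M (nat_lit 143850931569433688145919)) (T.h (P (nat_lit 0)) (P (nat_lit 1311573936746954752)))))) (T.h (P (nat_lit 0)) (T.h (T.h (P (nat_lit 101335130890636399476736)) (T.h (P (nat_lit 0)) (M (nat_lit 952237621990096895)))) (T.h (P (nat_lit 0)) (P (nat_lit 76827332248272896))))))) (T.h (T.h (T.h (P (nat_lit 0)) (T.h (P (nat_lit 180947884852079275838275584)) (T.h (P (nat_lit 0)) (T.h (M (nat_lit 521293321167962111)) (T.h (P (nat_lit 0)) (M (nat_lit 121815508078015))))))) (T.h (P (nat_lit 0)) (T.h (T.h (P (nat_lit 0)) (T.h (P (nat_lit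 1604645914225552654336)) (T.h (P (nat_lit 0)) (M (nat_lit 224767721017791))))) (T.h (P (nat_lit 0)) (T.h (T.h (P (nat_lit 0)) (P (nat_lit 446795098412288))) (P (nat_lit 0))))))) (T.h (T.h (P (nat_lit 0)) (T.h (T.h (M (nat_lit 603565915171821172293631)) (T.h (P (nat_lit 0)) (M (nat_lit 1501475937235730431)))) (T.h (P (nat_lit 0)) (P (nat_lit 215628648894627840))))) (T.h (T.h (T.h (P (nat_lit 0)) (T.h (M (nat_lit 563364003110174326783)) (T.h (P (nat_lit 0)) (P (nat_lit 516072503077568))))) (T.h (P (nat_lit 0)) (T.h (T.h (P (nat_lit 0)) (M (nat_lit 1713831813225279))) (P (nat_lit 0))))) (T.h (T.h (P (nat_lit 0)) (M (nat_lit 196186089696886783))) (T.h (T.h (T.h (P (nat_lit 0)) (M (nat_lit 369702816473023))) (P (nat_lit 0))) (P (nat_lit 0)))))))), (T.h (T.h (P (nat_lit 0)) (T.h (T.h (P (nat_lit 0)) (T.h (P (nat_lit 354429584878097454132625408)) (T.h (P (nat_lit 0)) (T.h (M (nat_lit 793633586725355782143)) (T.h (P (nat_lit 0)) (P (nat_lit 527227441331536)))))))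 (T.h (P (nat_lit 0)) (T.h (T.h (P (nat_lit 0)) (T.h (M (nat_lit 793633586725355782143)) (T.h (P (nat_lit 0)) (P (nat_lit 499486613566688))))) (T.h (P (nat_lit 0)) (T.h (T.h (P (nat_lit 0)) (P (nat_lit 527227441331536))) (P (nat_lit 0)))))))) (T.h (T.h (T.h (M (nat_lit 90153385153179836802014380031)) (T.h (P (nat_lit 0)) (T.h (M (nat_lit 376290890584753549869055)) (T.h (P (nat_lit 0)) (M (nat_lit 749392488842903551)))))) (T.h (P (nat_lit 0)) (T.h (T.h (M (nat_lit 376290890584753549869055)) (T.h (P (nat_lit 0)) (P (nat_lit 1775210274593013760)))) (T.h (P (nat_lit 0)) (M (nat_lit 749392488842903551)))))) (T.h (T.h (P (nat_lit 0)) (T.h (T.h (P (nat_lit 0)) (T.h (M (nat_lit 706837525993122430975)) (T.h (P (nat_lit 0)) (M (nat_lit 4190516314817007))))) (T.h (P (nat_lit 0)) (T.h (T.h (P (nat_lit 0)) (M (nat_lit 4190516314817007))) (P (nat_lit 0)))))) (T.h (T.h (T.h (P (nat_lit 149858750442758148718592)) (T.h (P (nat_lit 0)) (P (nat_lit 785840202714906624))))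 (T.h (P (nat_lit 0)) (P (nat_lit 785840202714906624)))) (T.h (T.h (P (nat_lit 0)) (T.h (T.h (P (nat_lit 0)) (P (nat_lit 778262612392320))) (P (nat_lit 0)))) (M (nat_lit 190850993921163263)))))))]
def lP12_38 : List (T ℤ) := [(T.h (T.h (P (nat_lit 0)) (T.h (T.h (M (nat_lit 389297995439723300115101777919)) (T.h (P (nat_lit 0)) (T.h (M (nat_lit 223777562771128231919615)) (T.h (P (nat_lit 0)) (M (nat_lit 618322761071951871)))))) (T.h (P (nat_lit 0)) (T.h (T.h (P (nat_lit 80184449228608727154688)) (T.h (P (nat_lit 0)) (M (nat_lit 66980419558473727)))) (T.h (P (nat_lit 0)) (M (nat_lit 220288323117449215))))))) (T.h (T.h (T.h (P (nat_lit 0)) (T.h (P (nat_lit 147135853041917332044120064)) (T.h (P (nat_lit 0)) (P (nat_lit 257392247864654036992))))) (T.h (P (nat_lit 0)) (T.h (T.h (P (nat_lit 0)) (M (nat_lit 1936470657569816313855))) (P (nat_lit 0))))) (T.h (T.h (P (nat_lit 0)) (T.h (T.h (M (nat_lit 223777562771128231919615)) (T.h (P (nat_lit 0)) (P (nat_lit 5566684382022008832))))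 (T.h (P (nat_lit 0)) (M (nat_lit 66980419558473727))))) (T.h (T.h (T.h (P (nat_lit 0)) (P (nat_lit 257392247864654036992))) (P (nat_lit 0))) (T.h (T.h (P (nat_lit 0)) (M (nat_lit 618322761071951871))) (P (nat_lit 0))))))), (T.h (T.h (T.h (P (nat_lit 0)) (T.h (P (nat_lit 14460488853345857845952774144)) (T.h (P (nat_lit 0)) (T.h (M (nat_lit 31924257583799644192767)) (T.h (P (nat_lit 0)) (P (nat_lit 11719595191042048))))))) (T.h (P (nat_lit 0)) (T.h (T.h (P (nat_lit 0)) (T.h (M (nat_lit 35258632209719281844223)) (T.h (P (nat_lit 0)) (M (nat_lit 40202621814210559))))) (T.h (P (nat_lit 0)) (T.h (T.h (P (nat_lit 0)) (M (nat_lit 38810451509575679))) (P (nat_lit 0))))))) (T.h (T.h (P (nat_lit 0)) (T.h (T.h (M (nat_lit 24994842400579066712293375)) (T.h (P (nat_lit 0)) (T.h (M (nat_lit 70845242460558327807)) (T.h (P (nat_lit 0)) (P (nat_lit 151808684066872)))))) (T.h (P (nat_lit 0)) (T.h (T.h (P (nat_lit 100490322530585804800)) (T.h (P (nat_lit 0)) (P (nat_lit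 116162343241472)))) (T.h (P (nat_lit 0)) (M (nat_lit 210516923144895))))))) (T.h (T.h (T.h (P (nat_lit 0)) (T.h (M (nat_lit 33078434562460132311039)) (T.h (P (nat_lit 0)) (P (nat_lit 4747134743281664))))) (T.h (P (nat_lit 0)) (T.h (T.h (P (nat_lit 0)) (M (nat_lit 224780437347303423))) (P (nat_lit 0))))) (T.h (T.h (P (nat_lit 0)) (T.h (T.h (P (nat_lit 7073318242843885568)) (T.h (P (nat_lit 0)) (M (nat_lit 56982699341063)))) (T.h (P (nat_lit 0)) (P (nat_lit 443563858406368))))) (T.h (T.h (T.h (P (nat_lit 0)) (M (nat_lit 5068962778185727))) (P (nat_lit 0))) (T.h (T.h (P (nat_lit 0)) (M (nat_lit 127174373621351))) (P (nat_lit 0)))))))), (T.h (T.h (T.h (P (nat_lit 22617088506532989352597639921664)) (T.h (P (nat_lit 0)) (T.h (P (nat_lit 3140137524329456248815616)) (T.h (P (nat_lit 0)) (T.h (M (nat_lit 13734426222065090559)) (T.h (P (nat_lit 0)) (P (nat_lit 6987571952256)))))))) (T.h (P (nat_lit 0)) (T.h (T.h (P (nat_lit 8457161709171102583881728)) (T.h (P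 (nat_lit 0)) (T.h (P (nat_lit 45458294552150409216)) (T.h (P (nat_lit 0)) (P (nat_lit 18863524992736)))))) (T.h (P (nat_lit 0)) (T.h (T.h (P (nat_lit 74036933237223194624)) (T.h (P (nat_lit 0)) (P (nat_lit 15164383117568)))) (T.h (P (nat_lit 0)) (M (nat_lit 26207854071903)))))))) (T.h (T.h (P (nat_lit 0)) (T.h (T.h (P (nat_lit 0)) (T.h (P (nat_lit 436545863640585823322112)) (T.h (P (nat_lit 0)) (M (nat_lit 186331836287156223))))) (T.h (P (nat_lit 0)) (T.h (T.h (P (nat_lit 0)) (P (nat_lit 231010450467749888))) (P (nat_lit 0)))))) (T.h (T.h (T.h (P (nat_lit 8457161709171102583881728)) (T.h (P (nat_lit 0)) (T.h (P (nat_lit 45458294552150409216)) (T.h (P (nat_lit 0)) (P (nat_lit 18863524992736)))))) (T.h (P (nat_lit 0)) (T.h (T.h (P (nat_lit 101276404498535809024)) (T.h (P (nat_lit 0)) (P (nat_lit 913938109348384)))) (T.h (P (nat_lit 0)) (M (nat_lit 171985111421919)))))) (T.h (T.h (P (nat_lit 0)) (T.h (T.h (P (nat_lit 0)) (P (nat_lit 231010450467749888)))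 (P (nat_lit 0)))) (T.h (T.h (T.h (P (nat_lit 74036933237223194624)) (T.h (P (nat_lit 0)) (P (nat_lit 15164383117568)))) (T.h (P (nat_lit 0)) (M (nat_lit 171985111421919)))) (T.h (P (nat_lit 0)) (M (nat_lit 26207854071903)))))))), (T.h (T.h (T.h (P (nat_lit 0)) (T.h (P (nat_lit 83455246969826313495858118656)) (T.h (P (nat_lit 0)) (T.h (P (nat_lit 149271753676356654727168)) (T.h (P (nat_lit 0)) (P (nat_lit 23898226115182592))))))) (T.h (P (nat_lit 0)) (T.h (T.h (P (nat_lit 0)) (T.h (P (nat_lit 1406102523138486822764544)) (T.h (P (nat_lit 0)) (M (nat_lit 52979880510455807))))) (T.h (P (nat_lit 0)) (T.h (T.h (P (nat_lit 0)) (P (nat_lit 1489863543422124032))) (P (nat_lit 0))))))) (T.h (T.h (P (nat_lit 0)) (T.h (T.h (M (nat_lit 389978946307820500656586751)) (T.h (P (nat_lit 0)) (T.h (P (nat_lit 1558290003507319668736)) (T.h (P (nat_lit 0)) (M (nat_lit 1123590043552511)))))) (T.h (P (nat_lit 0)) (T.h (T.h (P (nat_lit 383463957369523798016)) (T.h (P (nat_lit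 0)) (P (nat_lit 228504705620032)))) (T.h (P (nat_lit 0)) (P (nat_lit 359323624798656))))))) (T.h (T.h (T.h (P (nat_lit 0)) (T.h (P (nat_lit 75444045631319370104832)) (T.h (P (nat_lit 0)) (P (nat_lit 34487974279184384))))) (T.h (P (nat_lit 0)) (T.h (T.h (P (nat_lit 0)) (P (nat_lit 135494672861364224))) (P (nat_lit 0))))) (T.h (T.h (P (nat_lit 0)) (T.h (T.h (M (nat_lit 320842019369599893503)) (T.h (P (nat_lit 0)) (P (nat_lit 228504705620032)))) (T.h (P (nat_lit 0)) (M (nat_lit 1377247444456703))))) (T.h (T.h (T.h (P (nat_lit 0)) (P (nat_lit 242202483463061504))) (P (nat_lit 0))) (T.h (T.h (P (nat_lit 0)) (P (nat_lit 359323624798656))) (P (nat_lit 0)))))))), (T.h (T.h (T.h (P (nat_lit 29043847495833169443361659027456)) (T.h (P (nat_lit 0)) (T.h (P (nat_lit 41184711322247905706770432)) (T.h (P (nat_lit 0)) (T.h (P (nat_lit 84149006842749517824)) (T.h (P (nat_lit 0)) (P (nat_lit 21455725471840)))))))) (T.h (P (nat_lit 0)) (T.h (T.h (P (nat_lit 4718782154620513862811648))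 (T.h (P (nat_lit 0)) (T.h (M (nat_lit 61550852568032215039)) (T.h (P (nat_lit 0)) (P (nat_lit 762953646744960)))))) (T.h (P (nat_lit 0)) (T.h (T.h (P (nat_lit 262433141256037072896)) (T.h (P (nat_lit 0)) (M (nat_lit 46665150786847)))) (T.h (P (nat_lit 0)) (M (nat_lit 65631642162591)))))))) (T.h (T.h (P (nat_lit 0)) (T.h (T.h (P (nat_lit 0)) (T.h (M (nat_lit 1089739465065568969687039)) (T.h (P (nat_lit 0)) (P (nat_lit 4123807266188886016))))) (T.h (P (nat_lit 0)) (T.h (T.h (P (nat_lit 0)) (P (nat_lit 774963076898947072))) (P (nat_lit 0)))))) (T.h (T.h (T.h (P (nat_lit 4718782154620513862811648)) (T.h (P (nat_lit 0)) (T.h (M (nat_lit 61550852568032215039)) (T.h (P (nat_lit 0)) (P (nat_lit 762953646744960)))))) (T.h (P (nat_lit 0)) (T.h (T.h (P (nat_lit 1036864692643493314560)) (T.h (P (nat_lit 0)) (M (nat_lit 2378042901799487)))) (T.h (P (nat_lit 0)) (P (nat_lit 892110877397168)))))) (T.h (T.h (P (nat_lit 0)) (T.h (T.h (P (nat_lit 0)) (P (nat_lit 774963076898947072)))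 (P (nat_lit 0)))) (T.h (T.h (T.h (P (nat_lit 262433141256037072896)) (T.h (P (nat_lit 0)) (M (nat_lit 46665150786847)))) (T.h (P (nat_lit 0)) (P (nat_lit 892110877397168)))) (T.h (P (nat_lit 0)) (M (nat_lit 65631642162591)))))))), (T.h (T.h (T.h (P (nat_lit 0)) (T.h (M (nat_lit 389297995439723300115101777919)) (T.h (P (nat_lit 0)) (T.h (P (nat_lit 80184449228608727154688)) (T.h (P (nat_lit 0)) (M (nat_lit 220288323117449215))))))) (T.h (P (nat_lit 0)) (T.h (T.h (P (nat_lit 0)) (T.h (M (nat_lit 223777562771128231919615)) (T.h (P (nat_lit 0)) (M (nat_lit 66980419558473727))))) (T.h (P (nat_lit 0)) (T.h (T.h (P (nat_lit 0)) (M (nat_lit 618322761071951871))) (P (nat_lit 0))))))) (T.h (T.h (P (nat_lit 0)) (T.h (T.h (P (nat_lit 147135853041917332044120064)) (T.h (P (nat_lit 0)) (M (nat_lit 1936470657569816313855)))) (T.h (P (nat_lit 0)) (P (nat_lit 257392247864654036992))))) (T.h (T.h (T.h (P (nat_lit 0)) (T.h (M (nat_lit 223777562771128231919615)) (T.h (P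 (nat_lit 0)) (M (nat_lit 66980419558473727))))) (T.h (P (nat_lit 0)) (T.h (T.h (P (nat_lit 0)) (P (nat_lit 5566684382022008832))) (P (nat_lit 0))))) (T.h (T.h (P (nat_lit 0)) (P (nat_lit 257392247864654036992))) (T.h (T.h (T.h (P (nat_lit 0)) (M (nat_lit 618322761071951871))) (P (nat_lit 0))) (P (nat_lit 0))))))), (P (nat_lit 0)), (T.h (T.h (P (nat_lit 0)) (T.h (T.h (M (nat_lit 41719496877880262428794552319)) (T.h (P (nat_lit 0)) (T.h (P (nat_lit 100431379644589870678016)) (T.h (P (nat_lit 0)) (P (nat_lit 4738026131750912)))))) (T.h (P (nat_lit 0)) (T.h (T.h (P (nat_lit 89893508674239948914688)) (T.h (P (nat_lit 0)) (M (nat_lit 1092978470027821055)))) (T.h (P (nat_lit 0)) (M (nat_lit 648565405388898303))))))) (T.h (T.h (T.h (P (nat_lit 0)) (T.h (M (nat_lit 162053843256623887118499839)) (T.h (P (nat_lit 0)) (T.h (P (nat_lit 65974941135990161408)) (T.h (P (nat_lit 0)) (P (nat_lit 11420856083328))))))) (T.h (P (nat_lit 0)) (T.h (T.h (P (nat_lit 0)) (T.h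 (P (nat_lit 13901008382321491968)) (T.h (P (nat_lit 0)) (P (nat_lit 36848463641664))))) (T.h (P (nat_lit 0)) (T.h (T.h (P (nat_lit 0)) (P (nat_lit 265807357753792))) (P (nat_lit 0))))))) (T.h (T.h (P (nat_lit 0)) (T.h (T.h (P (nat_lit 124543433897628462481408)) (T.h (P (nat_lit 0)) (M (nat_lit 206605945752780799)))) (T.h (P (nat_lit 0)) (M (nat_lit 1423483935950897151))))) (T.h (T.h (T.h (P (nat_lit 0)) (T.h (P (nat_lit 199032374764760989696)) (T.h (P (nat_lit 0)) (P (nat_lit 197314070123200))))) (T.h (P (nat_lit 0)) (T.h (T.h (P (nat_lit 0)) (M (nat_lit 333470482810303))) (P (nat_lit 0))))) (T.h (T.h (P (nat_lit 0)) (P (nat_lit 231609111571791872))) (T.h (T.h (T.h (P (nat_lit 0)) (P (nat_lit 107326841501440))) (P (nat_lit 0))) (P (nat_lit 0))))))))]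
def lP12_39 : List (T ℤ) := [(T.h (T.h (P (nat_lit 0)) (T.h (T.h (P (nat_lit 0)) (T.h (M (nat_lit 82005352132504340645543935)) (T.h (P (nat_lit 0)) (T.h (P (nat_lit 40354807243362795520)) (T.h (P (nat_lit 0)) (M (nat_lit 171358582288431))))))) (T.h (P (nat_lit 0)) (T.h (T.h (P (nat_lit 0)) (T.h (P (nat_lit 7255255734206595072)) (T.h (P (nat_lit 0)) (M (nat_lit 126198014860367))))) (T.h (P (nat_lit 0)) (T.h (T.h (P (nat_lit 0)) (P (nat_lit 128431816472960))) (P (nat_lit 0)))))))) (T.h (T.h (T.h (P (nat_lit 38654651469590484565549383680)) (T.h (P (nat_lit 0)) (T.h (M (nat_lit 398869698903503942975487)) (T.h (P (nat_lit 0)) (P (nat_lit 77592608275103744)))))) (T.h (P (nat_lit 0)) (T.h (T.h (P (nat_lit 254371583437503744442368)) (T.h (P (nat_lit 0)) (P (nat_lit 605362602800644096)))) (T.h (P (nat_lit 0)) (M (nat_lit 863332651526553599)))))) (T.h (T.h (P (nat_lit 0)) (T.h (T.h (P (nat_lit 0)) (T.h (P (nat_lit 6781948296333099008)) (T.h (P (nat_lit 0)) (M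 (nat_lit 625848463900175))))) (T.h (P (nat_lit 0)) (T.h (T.h (P (nat_lit 0)) (M (nat_lit 150609851272495))) (P (nat_lit 0)))))) (T.h (T.h (T.h (P (nat_lit 75429900119833793527808)) (T.h (P (nat_lit 0)) (M (nat_lit 103527097765298175)))) (T.h (P (nat_lit 0)) (M (nat_lit 1732861195147624447)))) (T.h (T.h (P (nat_lit 0)) (T.h (T.h (P (nat_lit 0)) (P (nat_lit 56095130371632))) (P (nat_lit 0)))) (P (nat_lit 84372272904028160))))))), (T.h (T.h (P (nat_lit 0)) (T.h (T.h (P (nat_lit 58533588080269667130553663488)) (T.h (P (nat_lit 0)) (T.h (M (nat_lit 307387787828805941329919)) (T.h (P (nat_lit 0)) (P (nat_lit 32282370373353472)))))) (T.h (P (nat_lit 0)) (T.h (T.h (P (nat_lit 194793753450289104420864)) (T.h (P (nat_lit 0)) (P (nat_lit 144336044066504704)))) (T.h (P (nat_lit 0)) (M (nat_lit 15147995482423295))))))) (T.h (T.h (T.h (P (nat_lit 0)) (T.h (M (nat_lit 62512067805864717822459903)) (T.h (P (nat_lit 0)) (M (nat_lit 451596974912692027391))))) (T.h (P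 (nat_lit 0)) (T.h (T.h (P (nat_lit 0)) (M (nat_lit 562928614136549998591))) (P (nat_lit 0))))) (T.h (T.h (P (nat_lit 0)) (T.h (T.h (M (nat_lit 228364555603926038085631)) (T.h (P (nat_lit 0)) (P (nat_lit 1070033940780810240)))) (T.h (P (nat_lit 0)) (M (nat_lit 522124404768767999))))) (T.h (T.h (T.h (P (nat_lit 0)) (M (nat_lit 152497253471509020671))) (P (nat_lit 0))) (T.h (T.h (P (nat_lit 0)) (M (nat_lit 125002415436529663))) (P (nat_lit 0))))))), (T.h (T.h (T.h (P (nat_lit 0)) (T.h (P (nat_lit 6328472737027037080754061312)) (T.h (P (nat_lit 0)) (T.h (P (nat_lit 7825788465425294557184)) (T.h (P (nat_lit 0)) (P (nat_lit 12313803491115008))))))) (T.h (P (nat_lit 0)) (T.h (T.h (P (nat_lit 0)) (T.h (M (nat_lit 285224894226779695218687)) (T.h (P (nat_lit 0)) (M (nat_lit 57500837264064511))))) (T.h (P (nat_lit 0)) (T.h (T.h (P (nat_lit 0)) (P (nat_lit 948271545113575424))) (P (nat_lit 0))))))) (T.h (T.h (P (nat_lit 0)) (T.h (T.h (M (nat_lit 32711719636026981296898047))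 (T.h (P (nat_lit 0)) (P (nat_lit 3572391151367356416)))) (T.h (P (nat_lit 0)) (P (nat_lit 28668537624999231488))))) (T.h (T.h (T.h (P (nat_lit 0)) (T.h (M (nat_lit 20581110294552753733631)) (T.h (P (nat_lit 0)) (P (nat_lit 139963102492819456))))) (T.h (P (nat_lit 0)) (T.h (T.h (P (nat_lit 0)) (P (nat_lit 39385685907243008))) (P (nat_lit 0))))) (T.h (T.h (P (nat_lit 0)) (P (nat_lit 156408055424987693056))) (T.h (T.h (T.h (P (nat_lit 0)) (P (nat_lit 42083093760966656))) (P (nat_lit 0))) (P (nat_lit 0))))))), (T.h (T.h (T.h (P (nat_lit 90041645070864497468254453760)) (T.h (P (nat_lit 0)) (T.h (M (nat_lit 9814911570293775350628351)) (T.h (P (nat_lit 0)) (T.h (P (nat_lit 10325048240973545472)) (T.h (P (nat_lit 0)) (M (nat_lit 10492294430287)))))))) (T.h (P (nat_lit 0)) (T.h (T.h (M (nat_lit 74297551689310308902371327)) (T.h (P (nat_lit 0)) (T.h (P (nat_lit 341679502975320457216)) (T.h (P (nat_lit 0)) (P (nat_lit 45874032146976)))))) (T.h (P (nat_lit 0))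 (T.h (T.h (P (nat_lit 336412622550833561600)) (T.h (P (nat_lit 0)) (M (nat_lit 311887139930959)))) (T.h (P (nat_lit 0)) (M (nat_lit 499469368768831)))))))) (T.h (T.h (P (nat_lit 0)) (T.h (T.h (P (nat_lit 0)) (T.h (M (nat_lit 465666743731333762121727)) (T.h (P (nat_lit 0)) (P (nat_lit 424906803810205696))))) (T.h (P (nat_lit 0)) (T.h (T.h (P (nat_lit 0)) (M (nat_lit 1348142103835803647))) (P (nat_lit 0)))))) (T.h (T.h (T.h (M (nat_lit 82978344281189709284114431)) (T.h (P (nat_lit 0)) (T.h (M (nat_lit 99246207615725731839)) (T.h (P (nat_lit 0)) (P (nat_lit 46870734497312)))))) (T.h (P (nat_lit 0)) (T.h (T.h (P (nat_lit 185568451651652550656)) (T.h (P (nat_lit 0)) (M (nat_lit 1201170315836127)))) (T.h (P (nat_lit 0)) (M (nat_lit 1548465693749039)))))) (T.h (T.h (P (nat_lit 0)) (T.h (T.h (P (nat_lit 0)) (P (nat_lit 536079415609098240))) (P (nat_lit 0)))) (T.h (T.h (T.h (M (nat_lit 78420376951661264895)) (T.h (P (nat_lit 0)) (P (nat_lit 211605099716560))))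 (T.h (P (nat_lit 0)) (P (nat_lit 227616305269056)))) (T.h (P (nat_lit 0)) (M (nat_lit 100380931134879)))))))), (T.h (T.h (T.h (P (nat_lit 0)) (T.h (P (nat_lit 12264306295860865433992167424)) (T.h (P (nat_lit 0)) (T.h (M (nat_lit 38351697694890571857919)) (T.h (P (nat_lit 0)) (P (nat_lit 22986133075853312))))))) (T.h (P (nat_lit 0)) (T.h (T.h (P (nat_lit 0)) (T.h (P (nat_lit 72151306072020993703936)) (T.h (P (nat_lit 0)) (P (nat_lit 12011030252027904))))) (T.h (P (nat_lit 0)) (T.h (T.h (P (nat_lit 0)) (M (nat_lit 353876310217654271))) (P (nat_lit 0))))))) (T.h (T.h (P (nat_lit 0)) (T.h (T.h (P (nat_lit 178450648329772352166428672)) (T.h (P (nat_lit 0)) (M (nat_lit 632434394254251393023)))) (T.h (P (nat_lit 0)) (P (nat_lit 468182160841962946560))))) (T.h (T.h (T.h (P (nat_lit 0)) (T.h (M (nat_lit 126715159606584970051583)) (T.h (P (nat_lit 0)) (P (nat_lit 95609950710071296))))) (T.h (P (nat_lit 0)) (T.h (T.h (P (nat_lit 0)) (P (nat_lit 329315656024653824)))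 (P (nat_lit 0))))) (T.h (T.h (P (nat_lit 0)) (P (nat_lit 312703088898592473088))) (T.h (T.h (T.h (P (nat_lit 0)) (M (nat_lit 250273072803250175))) (P (nat_lit 0))) (P (nat_lit 0))))))), (P (nat_lit 0)), (T.h (T.h (P (nat_lit 0)) (T.h (T.h (P (nat_lit 23189883887025830961654792192)) (T.h (P (nat_lit 0)) (T.h (M (nat_lit 87515735663265416478719)) (T.h (P (nat_lit 0)) (M (nat_lit 8342794656481279)))))) (T.h (P (nat_lit 0)) (T.h (T.h (M (nat_lit 243099935357513639133183)) (T.h (P (nat_lit 0)) (P (nat_lit 262202542911520768)))) (T.h (P (nat_lit 0)) (P (nat_lit 595563394477948928))))))) (T.h (T.h (T.h (P (nat_lit 0)) (T.h (P (nat_lit 104213714518363397557321728)) (T.h (P (nat_lit 0)) (M (nat_lit 99944006815716474879))))) (T.h (P (nat_lit 0)) (T.h (T.h (P (nat_lit 0)) (P (nat_lit 571332830943741214720))) (P (nat_lit 0))))) (T.h (T.h (P (nat_lit 0)) (T.h (T.h (M (nat_lit 33956056854755006218239)) (T.h (P (nat_lit 0)) (P (nat_lit 533260947869499392)))) (T.h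 (P (nat_lit 0)) (P (nat_lit 1175977343068569600))))) (T.h (T.h (T.h (P (nat_lit 0)) (M (nat_lit 18889754215679262719))) (P (nat_lit 0))) (T.h (T.h (P (nat_lit 0)) (M (nat_lit 93919563231952895))) (P (nat_lit 0))))))), (P (nat_lit 0))]
def lP12_40 : List (T ℤ) := [(P (nat_lit 0)), (P (nat_lit 0)), (T.h (T.h (T.h (P (nat_lit 0)) (T.h (P (nat_lit 0)) (T.h (P (nat_lit 31613895198534782546870272)) (T.h (P (nat_lit 0)) (T.h (P (nat_lit 40933629208295374848)) (T.h (P (nat_lit 0)) (M (nat_lit 46781880154599)))))))) (T.h (P (nat_lit 0)) (T.h (T.h (P (nat_lit 0)) (T.h (P (nat_lit 0)) (T.h (M (nat_lit 71500352501648982015)) (T.h (P (nat_lit 0)) (P (nat_lit 146916516659168)))))) (T.h (P (nat_lit 0)) (T.h (T.h (P (nat_lit 0)) (T.h (P (nat_lit 0)) (P (nat_lit 37374048010064)))) (P (nat_lit 0))))))) (T.h (T.h (P (nat_lit 0)) (T.h (T.h (P (nat_lit 0)) (T.h (P (nat_lit 0)) (T.h (P (nat_lit 0)) (M (nat_lit 77567210127294463))))) (P (nat_lit 0)))) (T.h (T.h (T.h (M (nat_lit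 31613895198534782546870271)) (T.h (P (nat_lit 0)) (T.h (P (nat_lit 0)) (T.h (P (nat_lit 0)) (P (nat_lit 41869630933488)))))) (T.h (P (nat_lit 0)) (T.h (P (nat_lit 71500352501648982016)) (T.h (P (nat_lit 0)) (M (nat_lit 37374048010063)))))) (T.h (T.h (P (nat_lit 0)) (T.h (T.h (P (nat_lit 0)) (P (nat_lit 77567210127294464))) (P (nat_lit 0)))) (T.h (T.h (T.h (M (nat_lit 40933629208295374847)) (T.h (P (nat_lit 0)) (M (nat_lit 41869630933487)))) (T.h (P (nat_lit 0)) (M (nat_lit 146916516659167)))) (T.h (P (nat_lit 0)) (P (nat_lit 46781880154600)))))))), (P (nat_lit 0)), (T.h (T.h (T.h (M (nat_lit 16449162197485303338253328318463)) (T.h (P (nat_lit 0)) (T.h (P (nat_lit 40386467642515883915476992)) (T.h (P (nat_lit 0)) (M (nat_lit 840967085421632684031)))))) (T.h (P (nat_lit 0)) (T.h (T.h (P (nat_lit 443165057008358769295360)) (T.h (P (nat_lit 0)) (P (nat_lit 384191862864330358784)))) (T.h (P (nat_lit 0)) (M (nat_lit 19646369320994340863)))))) (T.h (T.h (P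 (nat_lit 0)) (T.h (T.h (P (nat_lit 0)) (T.h (P (nat_lit 461863613200988370894848)) (T.h (P (nat_lit 0)) (M (nat_lit 1796460319972524031))))) (T.h (P (nat_lit 0)) (T.h (T.h (P (nat_lit 0)) (M (nat_lit 281468945639669759))) (P (nat_lit 0)))))) (T.h (T.h (T.h (M (nat_lit 5464030832497061768724479)) (T.h (P (nat_lit 0)) (M (nat_lit 25129399231289753599)))) (T.h (P (nat_lit 0)) (P (nat_lit 145840537392969154560)))) (T.h (T.h (P (nat_lit 0)) (T.h (T.h (P (nat_lit 0)) (M (nat_lit 214890965299888127))) (P (nat_lit 0)))) (M (nat_lit 205307572078552023039)))))), (P (nat_lit 0)), (P (nat_lit 0)), (P (nat_lit 0))]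
def lP12_41 : List (T ℤ) := [(P (nat_lit 0)), (T.h (T.h (P (nat_lit 0)) (T.h (T.h (P (nat_lit 0)) (T.h (P (nat_lit 71378772960285043806175232)) (T.h (P (nat_lit 0)) (T.h (M (nat_lit 130566721731142090751)) (T.h (P (nat_lit 0)) (M (nat_lit 145673074080799))))))) (T.h (P (nat_lit 0)) (T.h (T.h (P (nat_lit 0)) (T.h (M (nat_lit 42665883795049152511)) (T.h (P (nat_lit 0)) (M (nat_lit 247877268557695))))) (T.h (P (nat_lit 0)) (T.h (T.h (P (nat_lit 0)) (M (nat_lit 155225875725711))) (P (nat_lit 0)))))))) (T.h (T.h (T.h (P (nat_lit 32588003821282124907342200832)) (T.h (P (nat_lit 0)) (T.h (M (nat_lit 111758421599224644763647)) (T.h (P (nat_lit 0)) (M (nat_lit 109333996650758143)))))) (T.h (P (nat_lit 0)) (T.h (T.h (P (nat_lit 85998065471444310032384)) (T.h (P (nat_lit 0)) (P (nat_lit 159293176609112064)))) (T.h (P (nat_lit 0)) (M (nat_lit 29347803722743807)))))) (T.h (T.h (P (nat_lit 0)) (T.h (T.h (P (nat_lit 0)) (T.h (P (nat_lit 272543843830424666112)) (T.h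 (P (nat_lit 0)) (M (nat_lit 484813102161375))))) (T.h (P (nat_lit 0)) (T.h (T.h (P (nat_lit 0)) (P (nat_lit 64670234784528))) (P (nat_lit 0)))))) (T.h (T.h (T.h (P (nat_lit 145475864963349133393920)) (T.h (P (nat_lit 0)) (M (nat_lit 189005919700713471)))) (T.h (P (nat_lit 0)) (P (nat_lit 79855049226715136)))) (T.h (T.h (P (nat_lit 0)) (T.h (T.h (P (nat_lit 0)) (P (nat_lit 52399266492640))) (P (nat_lit 0)))) (P (nat_lit 2624771163357184))))))), (T.h (T.h (P (nat_lit 0)) (T.h (T.h (P (nat_lit 497432562566840426191388672)) (T.h (P (nat_lit 0)) (T.h (P (nat_lit 6876364827149293584384)) (T.h (P (nat_lit 0)) (P (nat_lit 6341612324782080)))))) (T.h (P (nat_lit 0)) (T.h (T.h (P (nat_lit 2862054342291145883648)) (T.h (P (nat_lit 0)) (P (nat_lit 45885516106907648)))) (T.h (P (nat_lit 0)) (P (nat_lit 9812205560987648))))))) (T.h (T.h (T.h (P (nat_lit 0)) (T.h (P (nat_lit 70526209065233796783144960)) (T.h (P (nat_lit 0)) (T.h (P (nat_lit 23338111321054904320))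 (T.h (P (nat_lit 0)) (M (nat_lit 20915930440255))))))) (T.h (P (nat_lit 0)) (T.h (T.h (P (nat_lit 0)) (T.h (M (nat_lit 103247090398378590207)) (T.h (P (nat_lit 0)) (P (nat_lit 18354663940000))))) (T.h (P (nat_lit 0)) (T.h (T.h (P (nat_lit 0)) (P (nat_lit 33481742598912))) (P (nat_lit 0))))))) (T.h (T.h (P (nat_lit 0)) (T.h (T.h (M (nat_lit 40027040615283331956735)) (T.h (P (nat_lit 0)) (M (nat_lit 145468263997390847)))) (T.h (P (nat_lit 0)) (M (nat_lit 37782777461571583))))) (T.h (T.h (T.h (P (nat_lit 0)) (T.h (M (nat_lit 817769225884234940415)) (T.h (P (nat_lit 0)) (P (nat_lit 346327786339536))))) (T.h (P (nat_lit 0)) (T.h (T.h (P (nat_lit 0)) (M (nat_lit 138743880398239))) (P (nat_lit 0))))) (T.h (T.h (P (nat_lit 0)) (P (nat_lit 36767111433682944))) (T.h (T.h (T.h (P (nat_lit 0)) (P (nat_lit 5629987302560))) (P (nat_lit 0))) (P (nat_lit 0)))))))), (T.h (T.h (P (nat_lit 0)) (T.h (T.h (P (nat_lit 0)) (T.h (P (nat_lit 182028412307727233283260416)) (T.h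 (P (nat_lit 0)) (T.h (P (nat_lit 278964307745109442560)) (T.h (P (nat_lit 0)) (P (nat_lit 107326841501440))))))) (T.h (P (nat_lit 0)) (T.h (T.h (P (nat_lit 0)) (T.h (M (nat_lit 161729136357172838399)) (T.h (P (nat_lit 0)) (P (nat_lit 197314070123200))))) (T.h (P (nat_lit 0)) (T.h (T.h (P (nat_lit 0)) (P (nat_lit 11420856083328))) (P (nat_lit 0)))))))) (T.h (T.h (T.h (M (nat_lit 84383699545873386898662096895)) (T.h (P (nat_lit 0)) (T.h (P (nat_lit 942758759543135736430592)) (T.h (P (nat_lit 0)) (M (nat_lit 1037695504466542591)))))) (T.h (P (nat_lit 0)) (T.h (T.h (P (nat_lit 32550600440321555824640)) (T.h (P (nat_lit 0)) (P (nat_lit 498438019766222848)))) (T.h (P (nat_lit 0)) (M (nat_lit 169186394857439231)))))) (T.h (T.h (P (nat_lit 0)) (T.h (T.h (P (nat_lit 0)) (T.h (P (nat_lit 1400053637311004409856)) (T.h (P (nat_lit 0)) (M (nat_lit 333470482810303))))) (T.h (P (nat_lit 0)) (T.h (T.h (P (nat_lit 0)) (P (nat_lit 36848463641664))) (P (nat_lit 0))))))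 (T.h (T.h (T.h (P (nat_lit 133761199256962127101952)) (T.h (P (nat_lit 0)) (M (nat_lit 2130185263890202623)))) (T.h (P (nat_lit 0)) (M (nat_lit 287161859082452991)))) (T.h (T.h (P (nat_lit 0)) (T.h (T.h (P (nat_lit 0)) (P (nat_lit 265807357753792))) (P (nat_lit 0)))) (M (nat_lit 615023029347647487))))))), (T.h (T.h (P (nat_lit 0)) (T.h (T.h (P (nat_lit 2328535345222944051758628864)) (T.h (P (nat_lit 0)) (T.h (P (nat_lit 247039374308906822008832)) (T.h (P (nat_lit 0)) (M (nat_lit 145400556215058431)))))) (T.h (P (nat_lit 0)) (T.h (T.h (P (nat_lit 4364167748600012472320)) (T.h (P (nat_lit 0)) (M (nat_lit 380614331262664703)))) (T.h (P (nat_lit 0)) (M (nat_lit 1605405777788927))))))) (T.h (T.h (T.h (P (nat_lit 0)) (T.h (M (nat_lit 30324963064396105518153727)) (T.h (P (nat_lit 0)) (T.h (P (nat_lit 543754214121337257984)) (T.h (P (nat_lit 0)) (M (nat_lit 511264914572719))))))) (T.h (P (nat_lit 0)) (T.h (T.h (P (nat_lit 0)) (T.h (M (nat_lit 151511431282023202815))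 (T.h (P (nat_lit 0)) (P (nat_lit 523327662662640))))) (T.h (P (nat_lit 0)) (T.h (T.h (P (nat_lit 0)) (M (nat_lit 237527651697951))) (P (nat_lit 0))))))) (T.h (T.h (P (nat_lit 0)) (T.h (T.h (P (nat_lit 247039374308906822008832)) (T.h (P (nat_lit 0)) (P (nat_lit 1230293658452131840)))) (T.h (P (nat_lit 0)) (M (nat_lit 380614331262664703))))) (T.h (T.h (T.h (P (nat_lit 0)) (T.h (P (nat_lit 543754214121337257984)) (T.h (P (nat_lit 0)) (M (nat_lit 1759458341326751))))) (T.h (P (nat_lit 0)) (T.h (T.h (P (nat_lit 0)) (P (nat_lit 523327662662640))) (P (nat_lit 0))))) (T.h (T.h (P (nat_lit 0)) (M (nat_lit 145400556215058431))) (T.h (T.h (T.h (P (nat_lit 0)) (M (nat_lit 511264914572719))) (P (nat_lit 0))) (P (nat_lit 0)))))))), (T.h (T.h (P (nat_lit 0)) (T.h (T.h (P (nat_lit 0)) (T.h (M (nat_lit 8530470887322473985998847)) (T.h (P (nat_lit 0)) (P (nat_lit 124755095903367331840))))) (T.h (P (nat_lit 0)) (T.h (T.h (P (nat_lit 0)) (P (nat_lit 11526735466153902080)))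 (P (nat_lit 0)))))) (T.h (T.h (T.h (P (nat_lit 37495071686497208421731794944)) (T.h (P (nat_lit 0)) (T.h (M (nat_lit 426842702168290282700799)) (T.h (P (nat_lit 0)) (P (nat_lit 1052533473347338240)))))) (T.h (P (nat_lit 0)) (T.h (T.h (P (nat_lit 16057378342646109437952)) (T.h (P (nat_lit 0)) (P (nat_lit 154969859478683648)))) (T.h (P (nat_lit 0)) (P (nat_lit 26770372925128704)))))) (T.h (T.h (P (nat_lit 0)) (T.h (T.h (P (nat_lit 0)) (M (nat_lit 394182288451529867263))) (P (nat_lit 0)))) (T.h (T.h (T.h (M (nat_lit 138571131412666097074175)) (T.h (P (nat_lit 0)) (P (nat_lit 813225388758859776)))) (T.h (P (nat_lit 0)) (M (nat_lit 255022184546467839)))) (T.h (P (nat_lit 0)) (P (nat_lit 207322856984576000))))))), (P (nat_lit 0)), (P (nat_lit 0))]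
def lP12_42 : List (T ℤ) := [(T.h (T.h (T.h (P (nat_lit 26082123326623453283946288119808)) (T.h (P (nat_lit 0)) (T.h (P (nat_lit 32763944091126510506737664)) (T.h (P (nat_lit 0)) (T.h (M (nat_lit 19034555882068246527)) (T.h (P (nat_lit 0)) (P (nat_lit 76361566011488)))))))) (T.h (P (nat_lit 0)) (T.h (T.h (P (nat_lit 32763944091126510506737664)) (T.h (P (nat_lit 0)) (T.h (M (nat_lit 69222946517073002495)) (T.h (P (nat_lit 0)) (M (nat_lit 124663547237647)))))) (T.h (P (nat_lit 0)) (T.h (T.h (M (nat_lit 19034555882068246527)) (T.h (P (nat_lit 0)) (M (nat_lit 124663547237647)))) (T.h (P (nat_lit 0)) (P (nat_lit 76361566011488)))))))) (T.h (T.h (P (nat_lit 0)) (T.h (T.h (P (nat_lit 0)) (T.h (P (nat_lit 378307783304605786439680)) (T.h (P (nat_lit 0)) (P (nat_lit 254315670327525376))))) (T.h (P (nat_lit 0)) (T.h (T.h (P (nat_lit 0)) (P (nat_lit 254315670327525376))) (P (nat_lit 0)))))) (T.h (T.h (T.h (M (nat_lit 41241195029673422798979071)) (T.h (P (nat_lit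 0)) (T.h (P (nat_lit 83120444996017192960)) (T.h (P (nat_lit 0)) (M (nat_lit 129209094546383)))))) (T.h (P (nat_lit 0)) (T.h (T.h (P (nat_lit 83120444996017192960)) (T.h (P (nat_lit 0)) (M (nat_lit 1256245916009183)))) (T.h (P (nat_lit 0)) (M (nat_lit 129209094546383)))))) (T.h (T.h (P (nat_lit 0)) (T.h (T.h (P (nat_lit 0)) (P (nat_lit 1620253387006541824))) (P (nat_lit 0)))) (T.h (T.h (T.h (P (nat_lit 222783511297538392064)) (T.h (P (nat_lit 0)) (P (nat_lit 369181130601416)))) (T.h (P (nat_lit 0)) (P (nat_lit 369181130601416)))) (T.h (P (nat_lit 0)) (P (nat_lit 159836053199312)))))))), (T.h (T.h (T.h (P (nat_lit 0)) (T.h (P (nat_lit 14882683165086291058843713536)) (T.h (P (nat_lit 0)) (T.h (P (nat_lit 20929441631043701440512)) (T.h (P (nat_lit 0)) (M (nat_lit 36176921370558463))))))) (T.h (P (nat_lit 0)) (T.h (T.h (P (nat_lit 0)) (T.h (M (nat_lit 18849529835447239311359)) (T.h (P (nat_lit 0)) (P (nat_lit 102934913059225600))))) (T.h (P (nat_lit 0))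 (T.h (T.h (P (nat_lit 0)) (P (nat_lit 140018033237983232))) (P (nat_lit 0))))))) (T.h (T.h (P (nat_lit 0)) (T.h (T.h (M (nat_lit 53146542248726677021523967)) (T.h (P (nat_lit 0)) (T.h (M (nat_lit 75408516526748205055)) (T.h (P (nat_lit 0)) (P (nat_lit 4164924265456)))))) (T.h (P (nat_lit 0)) (T.h (T.h (M (nat_lit 11548678206101913599)) (T.h (P (nat_lit 0)) (P (nat_lit 16557836531408)))) (T.h (P (nat_lit 0)) (M (nat_lit 34652740068447))))))) (T.h (T.h (T.h (P (nat_lit 0)) (T.h (P (nat_lit 256807096225738805739520)) (T.h (P (nat_lit 0)) (M (nat_lit 446271242066706431))))) (T.h (P (nat_lit 0)) (T.h (T.h (P (nat_lit 0)) (M (nat_lit 463891509779316735))) (P (nat_lit 0))))) (T.h (T.h (P (nat_lit 0)) (T.h (T.h (P (nat_lit 37051053167047868416)) (T.h (P (nat_lit 0)) (M (nat_lit 75934935373951)))) (T.h (P (nat_lit 0)) (P (nat_lit 6711510549152))))) (T.h (T.h (T.h (P (nat_lit 0)) (P (nat_lit 1211095121471963136))) (P (nat_lit 0))) (T.h (T.h (P (nat_lit 0)) (M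 (nat_lit 72084300084943))) (P (nat_lit 0)))))))), (T.h (T.h (T.h (M (nat_lit 19734654872854043273049795461119)) (T.h (P (nat_lit 0)) (T.h (P (nat_lit 154622210236055160369446912)) (T.h (P (nat_lit 0)) (T.h (P (nat_lit 215613641208614617088)) (T.h (P (nat_lit 0)) (M (nat_lit 176948586303359)))))))) (T.h (P (nat_lit 0)) (T.h (T.h (M (nat_lit 26585363868638330363052031)) (T.h (P (nat_lit 0)) (T.h (M (nat_lit 292364740245124546559)) (T.h (P (nat_lit 0)) (P (nat_lit 5134246787648)))))) (T.h (P (nat_lit 0)) (T.h (T.h (P (nat_lit 9564279738336280576)) (T.h (P (nat_lit 0)) (P (nat_lit 139694028686272)))) (T.h (P (nat_lit 0)) (P (nat_lit 15993966832384)))))))) (T.h (T.h (P (nat_lit 0)) (T.h (T.h (P (nat_lit 0)) (T.h (M (nat_lit 180395016659440215523327)) (T.h (P (nat_lit 0)) (P (nat_lit 164719339060461568))))) (T.h (P (nat_lit 0)) (T.h (T.h (P (nat_lit 0)) (P (nat_lit 201563984005431296))) (P (nat_lit 0)))))) (T.h (T.h (T.h (P (nat_lit 4244226982313684879015936))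 (T.h (P (nat_lit 0)) (T.h (M (nat_lit 766046105854688624639)) (T.h (P (nat_lit 0)) (P (nat_lit 1638605785130944)))))) (T.h (P (nat_lit 0)) (T.h (T.h (M (nat_lit 357803208140405080063)) (T.h (P (nat_lit 0)) (P (nat_lit 665330991811392)))) (T.h (P (nat_lit 0)) (M (nat_lit 466928359457407)))))) (T.h (T.h (P (nat_lit 0)) (T.h (T.h (P (nat_lit 0)) (M (nat_lit 229422660223434751))) (P (nat_lit 0)))) (T.h (T.h (T.h (P (nat_lit 217708139792046227456)) (T.h (P (nat_lit 0)) (P (nat_lit 262688387398912)))) (T.h (P (nat_lit 0)) (P (nat_lit 9606960604224)))) (T.h (P (nat_lit 0)) (M (nat_lit 144862093652351)))))))), (T.h (T.h (T.h (P (nat_lit 0)) (T.h (P (nat_lit 38654651469590484565549383680)) (T.h (P (nat_lit 0)) (T.h (P (nat_lit 75429900119833793527808)) (T.h (P (nat_lit 0)) (P (nat_lit 84372272904028160))))))) (T.h (P (nat_lit 0)) (T.h (T.h (P (nat_lit 0)) (T.h (M (nat_lit 398869698903503942975487)) (T.h (P (nat_lit 0)) (M (nat_lit 103527097765298175))))) (T.h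 (P (nat_lit 0)) (T.h (T.h (P (nat_lit 0)) (P (nat_lit 77592608275103744))) (P (nat_lit 0))))))) (T.h (T.h (P (nat_lit 0)) (T.h (T.h (M (nat_lit 82005352132504340645543935)) (T.h (P (nat_lit 0)) (T.h (P (nat_lit 6781948296333099008)) (T.h (P (nat_lit 0)) (P (nat_lit 56095130371632)))))) (T.h (P (nat_lit 0)) (T.h (T.h (P (nat_lit 40354807243362795520)) (T.h (P (nat_lit 0)) (M (nat_lit 625848463900175)))) (T.h (P (nat_lit 0)) (M (nat_lit 171358582288431))))))) (T.h (T.h (T.h (P (nat_lit 0)) (T.h (P (nat_lit 254371583437503744442368)) (T.h (P (nat_lit 0)) (M (nat_lit 1732861195147624447))))) (T.h (P (nat_lit 0)) (T.h (T.h (P (nat_lit 0)) (P (nat_lit 605362602800644096))) (P (nat_lit 0))))) (T.h (T.h (P (nat_lit 0)) (T.h (T.h (P (nat_lit 7255255734206595072)) (T.h (P (nat_lit 0)) (M (nat_lit 150609851272495)))) (T.h (P (nat_lit 0)) (M (nat_lit 126198014860367))))) (T.h (T.h (T.h (P (nat_lit 0)) (M (nat_lit 863332651526553599))) (P (nat_lit 0))) (T.h (T.h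 (P (nat_lit 0)) (P (nat_lit 128431816472960))) (P (nat_lit 0)))))))), (T.h (T.h (T.h (P (nat_lit 19911686985342792395777992818688)) (T.h (P (nat_lit 0)) (T.h (M (nat_lit 66216282854357790449729535)) (T.h (P (nat_lit 0)) (P (nat_lit 89483072378851295232)))))) (T.h (P (nat_lit 0)) (T.h (T.h (P (nat_lit 29866378528940360116207616)) (T.h (P (nat_lit 0)) (M (nat_lit 153817068035633053695)))) (T.h (P (nat_lit 0)) (P (nat_lit 42188510695096582144)))))) (T.h (T.h (P (nat_lit 0)) (T.h (T.h (P (nat_lit 0)) (T.h (M (nat_lit 678210062349546654007295)) (T.h (P (nat_lit 0)) (M (nat_lit 180562133041676287))))) (T.h (P (nat_lit 0)) (T.h (T.h (P (nat_lit 0)) (P (nat_lit 642979739907260416))) (P (nat_lit 0)))))) (T.h (T.h (T.h (M (nat_lit 66216282854357790449729535)) (T.h (P (nat_lit 0)) (P (nat_lit 1204606997567086002176)))) (T.h (P (nat_lit 0)) (M (nat_lit 153817068035633053695)))) (T.h (T.h (P (nat_lit 0)) (T.h (T.h (P (nat_lit 0)) (M (nat_lit 180562133041676287)))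 (P (nat_lit 0)))) (P (nat_lit 89483072378851295232)))))), (P (nat_lit 0)), (T.h (T.h (P (nat_lit 0)) (T.h (T.h (P (nat_lit 0)) (T.h (P (nat_lit 71378772960285043806175232)) (T.h (P (nat_lit 0)) (T.h (M (nat_lit 42665883795049152511)) (T.h (P (nat_lit 0)) (M (nat_lit 155225875725711))))))) (T.h (P (nat_lit 0)) (T.h (T.h (P (nat_lit 0)) (T.h (M (nat_lit 130566721731142090751)) (T.h (P (nat_lit 0)) (M (nat_lit 247877268557695))))) (T.h (P (nat_lit 0)) (T.h (T.h (P (nat_lit 0)) (M (nat_lit 145673074080799))) (P (nat_lit 0)))))))) (T.h (T.h (T.h (P (nat_lit 32588003821282124907342200832)) (T.h (P (nat_lit 0)) (T.h (P (nat_lit 85998065471444310032384)) (T.h (P (nat_lit 0)) (M (nat_lit 29347803722743807)))))) (T.h (P (nat_lit 0)) (T.h (T.h (M (nat_lit 111758421599224644763647)) (T.h (P (nat_lit 0)) (P (nat_lit 159293176609112064)))) (T.h (P (nat_lit 0)) (M (nat_lit 109333996650758143)))))) (T.h (T.h (P (nat_lit 0)) (T.h (T.h (P (nat_lit 0)) (T.h (P (nat_lit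 272543843830424666112)) (T.h (P (nat_lit 0)) (P (nat_lit 64670234784528))))) (T.h (P (nat_lit 0)) (T.h (T.h (P (nat_lit 0)) (M (nat_lit 484813102161375))) (P (nat_lit 0)))))) (T.h (T.h (T.h (P (nat_lit 145475864963349133393920)) (T.h (P (nat_lit 0)) (P (nat_lit 79855049226715136)))) (T.h (P (nat_lit 0)) (M (nat_lit 189005919700713471)))) (T.h (T.h (P (nat_lit 0)) (T.h (T.h (P (nat_lit 0)) (P (nat_lit 52399266492640))) (P (nat_lit 0)))) (P (nat_lit 2624771163357184))))))), (T.h (T.h (P (nat_lit 0)) (T.h (T.h (P (nat_lit 14882683165086291058843713536)) (T.h (P (nat_lit 0)) (T.h (M (nat_lit 18849529835447239311359)) (T.h (P (nat_lit 0)) (P (nat_lit 140018033237983232)))))) (T.h (P (nat_lit 0)) (T.h (T.h (P (nat_lit 20929441631043701440512)) (T.h (P (nat_lit 0)) (P (nat_lit 102934913059225600)))) (T.h (P (nat_lit 0)) (M (nat_lit 36176921370558463))))))) (T.h (T.h (T.h (P (nat_lit 0)) (T.h (M (nat_lit 53146542248726677021523967)) (T.h (P (nat_lit 0)) (T.h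 (M (nat_lit 11548678206101913599)) (T.h (P (nat_lit 0)) (M (nat_lit 34652740068447))))))) (T.h (P (nat_lit 0)) (T.h (T.h (P (nat_lit 0)) (T.h (M (nat_lit 75408516526748205055)) (T.h (P (nat_lit 0)) (P (nat_lit 16557836531408))))) (T.h (P (nat_lit 0)) (T.h (T.h (P (nat_lit 0)) (P (nat_lit 4164924265456))) (P (nat_lit 0))))))) (T.h (T.h (P (nat_lit 0)) (T.h (T.h (P (nat_lit 256807096225738805739520)) (T.h (P (nat_lit 0)) (M (nat_lit 463891509779316735)))) (T.h (P (nat_lit 0)) (M (nat_lit 446271242066706431))))) (T.h (T.h (T.h (P (nat_lit 0)) (T.h (P (nat_lit 37051053167047868416)) (T.h (P (nat_lit 0)) (P (nat_lit 6711510549152))))) (T.h (P (nat_lit 0)) (T.h (T.h (P (nat_lit 0)) (M (nat_lit 75934935373951))) (P (nat_lit 0))))) (T.h (T.h (P (nat_lit 0)) (P (nat_lit 1211095121471963136))) (T.h (T.h (T.h (P (nat_lit 0)) (M (nat_lit 72084300084943))) (P (nat_lit 0))) (P (nat_lit 0))))))))]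
def lP12_43 : List (T ℤ) := [(T.h (T.h (P (nat_lit 0)) (T.h (T.h (P (nat_lit 0)) (T.h (M (nat_lit 28673445505012881093033983)) (T.h (P (nat_lit 0)) (T.h (P (nat_lit 358485094193164189696)) (T.h (P (nat_lit 0)) (P (nat_lit 32263967712320))))))) (T.h (P (nat_lit 0)) (T.h (T.h (P (nat_lit 0)) (T.h (P (nat_lit 358485094193164189696)) (T.h (P (nat_lit 0)) (M (nat_lit 143101582158847))))) (T.h (P (nat_lit 0)) (T.h (T.h (P (nat_lit 0)) (P (nat_lit 32263967712320))) (P (nat_lit 0)))))))) (T.h (T.h (T.h (M (nat_lit 150446676495827451155107020799)) (T.h (P (nat_lit 0)) (T.h (P (nat_lit 791103295217586896109568)) (T.h (P (nat_lit 0)) (M (nat_lit 768045073727094783)))))) (T.h (P (nat_lit 0)) (T.h (T.h (P (nat_lit 791103295217586896109568)) (T.h (P (nat_lit 0)) (M (nat_lit 2654768008113553407)))) (T.h (P (nat_lit 0)) (M (nat_lit 768045073727094783)))))) (T.h (T.h (P (nat_lit 0)) (T.h (T.h (P (nat_lit 0)) (T.h (M (nat_lit 1116191821855815892991)) (T.h (P (nat_lit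 0)) (P (nat_lit 262377802400448))))) (T.h (P (nat_lit 0)) (T.h (T.h (P (nat_lit 0)) (P (nat_lit 262377802400448))) (P (nat_lit 0)))))) (T.h (T.h (T.h (M (nat_lit 436623092147649228308479)) (T.h (P (nat_lit 0)) (P (nat_lit 2945210667633901568)))) (T.h (P (nat_lit 0)) (P (nat_lit 2945210667633901568)))) (T.h (T.h (P (nat_lit 0)) (T.h (T.h (P (nat_lit 0)) (M (nat_lit 569865269658367))) (P (nat_lit 0)))) (P (nat_lit 350681331718750208))))))), (T.h (T.h (P (nat_lit 0)) (T.h (T.h (P (nat_lit 15677591072367322300300656640)) (T.h (P (nat_lit 0)) (T.h (M (nat_lit 6589294144119426252799)) (T.h (P (nat_lit 0)) (M (nat_lit 127417732331454463)))))) (T.h (P (nat_lit 0)) (T.h (T.h (P (nat_lit 156999705636988086386688)) (T.h (P (nat_lit 0)) (P (nat_lit 113445062206210048)))) (T.h (P (nat_lit 0)) (M (nat_lit 109732311915266047))))))) (T.h (T.h (T.h (P (nat_lit 0)) (T.h (M (nat_lit 144571093088878722082144255)) (T.h (P (nat_lit 0)) (T.h (P (nat_lit 449961078820777754624))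 (T.h (P (nat_lit 0)) (M (nat_lit 233783438575983))))))) (T.h (P (nat_lit 0)) (T.h (T.h (P (nat_lit 0)) (T.h (P (nat_lit 428197490780142567424)) (T.h (P (nat_lit 0)) (P (nat_lit 295459527894608))))) (T.h (P (nat_lit 0)) (T.h (T.h (P (nat_lit 0)) (M (nat_lit 842506019795263))) (P (nat_lit 0))))))) (T.h (T.h (P (nat_lit 0)) (T.h (T.h (M (nat_lit 80225454229987296018431)) (T.h (P (nat_lit 0)) (P (nat_lit 428044420578607104)))) (T.h (P (nat_lit 0)) (M (nat_lit 758027608558993407))))) (T.h (T.h (T.h (P (nat_lit 0)) (T.h (M (nat_lit 1203278113101479673855)) (T.h (P (nat_lit 0)) (M (nat_lit 204484843713391))))) (T.h (P (nat_lit 0)) (T.h (T.h (P (nat_lit 0)) (M (nat_lit 209987776456831))) (P (nat_lit 0))))) (T.h (T.h (P (nat_lit 0)) (P (nat_lit 406047358910349312))) (T.h (T.h (T.h (P (nat_lit 0)) (P (nat_lit 346719340363264))) (P (nat_lit 0))) (P (nat_lit 0)))))))), (T.h (T.h (P (nat_lit 0)) (T.h (T.h (P (nat_lit 0)) (T.h (M (nat_lit 62512067805864717822459903))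 (T.h (P (nat_lit 0)) (M (nat_lit 152497253471509020671))))) (T.h (P (nat_lit 0)) (T.h (T.h (P (nat_lit 0)) (M (nat_lit 451596974912692027391))) (P (nat_lit 0)))))) (T.h (T.h (T.h (P (nat_lit 58533588080269667130553663488)) (T.h (P (nat_lit 0)) (T.h (M (nat_lit 228364555603926038085631)) (T.h (P (nat_lit 0)) (M (nat_lit 125002415436529663)))))) (T.h (P (nat_lit 0)) (T.h (T.h (M (nat_lit 307387787828805941329919)) (T.h (P (nat_lit 0)) (P (nat_lit 1070033940780810240)))) (T.h (P (nat_lit 0)) (P (nat_lit 32282370373353472)))))) (T.h (T.h (P (nat_lit 0)) (T.h (T.h (P (nat_lit 0)) (M (nat_lit 562928614136549998591))) (P (nat_lit 0)))) (T.h (T.h (T.h (P (nat_lit 194793753450289104420864)) (T.h (P (nat_lit 0)) (M (nat_lit 522124404768767999)))) (T.h (P (nat_lit 0)) (P (nat_lit 144336044066504704)))) (T.h (P (nat_lit 0)) (M (nat_lit 15147995482423295))))))), (T.h (T.h (P (nat_lit 0)) (T.h (P (nat_lit 0)) (T.h (T.h (P (nat_lit 31613895198534782546870272)) (T.h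 (P (nat_lit 0)) (T.h (M (nat_lit 71500352501648982015)) (T.h (P (nat_lit 0)) (P (nat_lit 37374048010064)))))) (T.h (P (nat_lit 0)) (T.h (T.h (P (nat_lit 40933629208295374848)) (T.h (P (nat_lit 0)) (P (nat_lit 146916516659168)))) (T.h (P (nat_lit 0)) (M (nat_lit 46781880154599)))))))) (T.h (T.h (P (nat_lit 0)) (T.h (P (nat_lit 0)) (T.h (P (nat_lit 0)) (T.h (T.h (P (nat_lit 0)) (M (nat_lit 77567210127294463))) (P (nat_lit 0)))))) (T.h (T.h (T.h (M (nat_lit 31613895198534782546870271)) (T.h (P (nat_lit 0)) (T.h (P (nat_lit 71500352501648982016)) (T.h (P (nat_lit 0)) (M (nat_lit 37374048010063)))))) (T.h (P (nat_lit 0)) (T.h (P (nat_lit 0)) (T.h (P (nat_lit 0)) (P (nat_lit 41869630933488)))))) (T.h (T.h (P (nat_lit 0)) (T.h (T.h (P (nat_lit 0)) (P (nat_lit 77567210127294464))) (P (nat_lit 0)))) (T.h (T.h (T.h (M (nat_lit 40933629208295374847)) (T.h (P (nat_lit 0)) (M (nat_lit 146916516659167)))) (T.h (P (nat_lit 0)) (M (nat_lit 41869630933487)))) (T.h (P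 (nat_lit 0)) (P (nat_lit 46781880154600)))))))), (T.h (T.h (T.h (P (nat_lit 0)) (T.h (P (nat_lit 497432562566840426191388672)) (T.h (P (nat_lit 0)) (T.h (P (nat_lit 2862054342291145883648)) (T.h (P (nat_lit 0)) (P (nat_lit 9812205560987648))))))) (T.h (P (nat_lit 0)) (T.h (T.h (P (nat_lit 0)) (T.h (P (nat_lit 6876364827149293584384)) (T.h (P (nat_lit 0)) (P (nat_lit 45885516106907648))))) (T.h (P (nat_lit 0)) (T.h (T.h (P (nat_lit 0)) (P (nat_lit 6341612324782080))) (P (nat_lit 0))))))) (T.h (T.h (P (nat_lit 0)) (T.h (T.h (P (nat_lit 70526209065233796783144960)) (T.h (P (nat_lit 0)) (T.h (M (nat_lit 103247090398378590207)) (T.h (P (nat_lit 0)) (P (nat_lit 33481742598912)))))) (T.h (P (nat_lit 0)) (T.h (T.h (P (nat_lit 23338111321054904320)) (T.h (P (nat_lit 0)) (P (nat_lit 18354663940000)))) (T.h (P (nat_lit 0)) (M (nat_lit 20915930440255))))))) (T.h (T.h (T.h (P (nat_lit 0)) (T.h (M (nat_lit 40027040615283331956735)) (T.h (P (nat_lit 0)) (M (nat_lit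 37782777461571583))))) (T.h (P (nat_lit 0)) (T.h (T.h (P (nat_lit 0)) (M (nat_lit 145468263997390847))) (P (nat_lit 0))))) (T.h (T.h (P (nat_lit 0)) (T.h (T.h (M (nat_lit 817769225884234940415)) (T.h (P (nat_lit 0)) (M (nat_lit 138743880398239)))) (T.h (P (nat_lit 0)) (P (nat_lit 346327786339536))))) (T.h (T.h (T.h (P (nat_lit 0)) (P (nat_lit 36767111433682944))) (P (nat_lit 0))) (T.h (T.h (P (nat_lit 0)) (P (nat_lit 5629987302560))) (P (nat_lit 0)))))))), (T.h (T.h (T.h (M (nat_lit 19734654872854043273049795461119)) (T.h (P (nat_lit 0)) (T.h (M (nat_lit 26585363868638330363052031)) (T.h (P (nat_lit 0)) (T.h (P (nat_lit 9564279738336280576)) (T.h (P (nat_lit 0)) (P (nat_lit 15993966832384)))))))) (T.h (P (nat_lit 0)) (T.h (T.h (P (nat_lit 154622210236055160369446912)) (T.h (P (nat_lit 0)) (T.h (M (nat_lit 292364740245124546559)) (T.h (P (nat_lit 0)) (P (nat_lit 139694028686272)))))) (T.h (P (nat_lit 0)) (T.h (T.h (P (nat_lit 215613641208614617088))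 (T.h (P (nat_lit 0)) (P (nat_lit 5134246787648)))) (T.h (P (nat_lit 0)) (M (nat_lit 176948586303359)))))))) (T.h (T.h (P (nat_lit 0)) (T.h (T.h (P (nat_lit 0)) (T.h (M (nat_lit 180395016659440215523327)) (T.h (P (nat_lit 0)) (P (nat_lit 201563984005431296))))) (T.h (P (nat_lit 0)) (T.h (T.h (P (nat_lit 0)) (P (nat_lit 164719339060461568))) (P (nat_lit 0)))))) (T.h (T.h (T.h (P (nat_lit 4244226982313684879015936)) (T.h (P (nat_lit 0)) (T.h (M (nat_lit 357803208140405080063)) (T.h (P (nat_lit 0)) (M (nat_lit 466928359457407)))))) (T.h (P (nat_lit 0)) (T.h (T.h (M (nat_lit 766046105854688624639)) (T.h (P (nat_lit 0)) (P (nat_lit 665330991811392)))) (T.h (P (nat_lit 0)) (P (nat_lit 1638605785130944)))))) (T.h (T.h (P (nat_lit 0)) (T.h (T.h (P (nat_lit 0)) (M (nat_lit 229422660223434751))) (P (nat_lit 0)))) (T.h (T.h (T.h (P (nat_lit 217708139792046227456)) (T.h (P (nat_lit 0)) (P (nat_lit 9606960604224)))) (T.h (P (nat_lit 0)) (P (nat_lit 262688387398912))))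 (T.h (P (nat_lit 0)) (M (nat_lit 144862093652351)))))))), (T.h (T.h (T.h (P (nat_lit 0)) (T.h (P (nat_lit 15677591072367322300300656640)) (T.h (P (nat_lit 0)) (T.h (P (nat_lit 156999705636988086386688)) (T.h (P (nat_lit 0)) (M (nat_lit 109732311915266047))))))) (T.h (P (nat_lit 0)) (T.h (T.h (P (nat_lit 0)) (T.h (M (nat_lit 6589294144119426252799)) (T.h (P (nat_lit 0)) (P (nat_lit 113445062206210048))))) (T.h (P (nat_lit 0)) (T.h (T.h (P (nat_lit 0)) (M (nat_lit 127417732331454463))) (P (nat_lit 0))))))) (T.h (T.h (P (nat_lit 0)) (T.h (T.h (M (nat_lit 144571093088878722082144255)) (T.h (P (nat_lit 0)) (T.h (P (nat_lit 428197490780142567424)) (T.h (P (nat_lit 0)) (M (nat_lit 842506019795263)))))) (T.h (P (nat_lit 0)) (T.h (T.h (P (nat_lit 449961078820777754624)) (T.h (P (nat_lit 0)) (P (nat_lit 295459527894608)))) (T.h (P (nat_lit 0)) (M (nat_lit 233783438575983))))))) (T.h (T.h (T.h (P (nat_lit 0)) (T.h (M (nat_lit 80225454229987296018431)) (T.h (P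 (nat_lit 0)) (M (nat_lit 758027608558993407))))) (T.h (P (nat_lit 0)) (T.h (T.h (P (nat_lit 0)) (P (nat_lit 428044420578607104))) (P (nat_lit 0))))) (T.h (T.h (P (nat_lit 0)) (T.h (T.h (M (nat_lit 1203278113101479673855)) (T.h (P (nat_lit 0)) (M (nat_lit 209987776456831)))) (T.h (P (nat_lit 0)) (M (nat_lit 204484843713391))))) (T.h (T.h (T.h (P (nat_lit 0)) (P (nat_lit 406047358910349312))) (P (nat_lit 0))) (T.h (T.h (P (nat_lit 0)) (P (nat_lit 346719340363264))) (P (nat_lit 0)))))))), (T.h (T.h (T.h (M (nat_lit 10480330179334628032889529303039)) (T.h (P (nat_lit 0)) (T.h (M (nat_lit 98177673145268500133052415)) (T.h (P (nat_lit 0)) (P (nat_lit 246263348381943332864)))))) (T.h (P (nat_lit 0)) (T.h (T.h (M (nat_lit 98177673145268500133052415)) (T.h (P (nat_lit 0)) (M (nat_lit 200558750337517748223)))) (T.h (P (nat_lit 0)) (P (nat_lit 246263348381943332864)))))) (T.h (T.h (P (nat_lit 0)) (T.h (T.h (P (nat_lit 0)) (T.h (M (nat_lit 1299879884616596717567999))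 (T.h (P (nat_lit 0)) (P (nat_lit 2077814719399723008))))) (T.h (P (nat_lit 0)) (T.h (T.h (P (nat_lit 0)) (P (nat_lit 2077814719399723008))) (P (nat_lit 0)))))) (T.h (T.h (T.h (P (nat_lit 185157826882941110320103424)) (T.h (P (nat_lit 0)) (P (nat_lit 105537405580398821376)))) (T.h (P (nat_lit 0)) (P (nat_lit 105537405580398821376)))) (T.h (T.h (P (nat_lit 0)) (T.h (T.h (P (nat_lit 0)) (M (nat_lit 423209768725774335))) (P (nat_lit 0)))) (M (nat_lit 19219055889835098111))))))]
def lP12_44 : List (T ℤ) := [(P (nat_lit 0)), (T.h (T.h (P (nat_lit 0)) (T.h (T.h (P (nat_lit 0)) (T.h (P (nat_lit 182028412307727233283260416)) (T.h (P (nat_lit 0)) (T.h (M (nat_lit 161729136357172838399)) (T.h (P (nat_lit 0)) (P (nat_lit 11420856083328))))))) (T.h (P (nat_lit 0)) (T.h (T.h (P (nat_lit 0)) (T.h (P (nat_lit 278964307745109442560)) (T.h (P (nat_lit 0)) (P (nat_lit 197314070123200))))) (T.h (P (nat_lit 0)) (T.h (T.h (P (nat_lit 0)) (P (nat_lit 107326841501440))) (P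 (nat_lit 0)))))))) (T.h (T.h (T.h (M (nat_lit 84383699545873386898662096895)) (T.h (P (nat_lit 0)) (T.h (P (nat_lit 32550600440321555824640)) (T.h (P (nat_lit 0)) (M (nat_lit 169186394857439231)))))) (T.h (P (nat_lit 0)) (T.h (T.h (P (nat_lit 942758759543135736430592)) (T.h (P (nat_lit 0)) (P (nat_lit 498438019766222848)))) (T.h (P (nat_lit 0)) (M (nat_lit 1037695504466542591)))))) (T.h (T.h (P (nat_lit 0)) (T.h (T.h (P (nat_lit 0)) (T.h (P (nat_lit 1400053637311004409856)) (T.h (P (nat_lit 0)) (P (nat_lit 36848463641664))))) (T.h (P (nat_lit 0)) (T.h (T.h (P (nat_lit 0)) (M (nat_lit 333470482810303))) (P (nat_lit 0)))))) (T.h (T.h (T.h (P (nat_lit 133761199256962127101952)) (T.h (P (nat_lit 0)) (M (nat_lit 287161859082452991)))) (T.h (P (nat_lit 0)) (M (nat_lit 2130185263890202623)))) (T.h (T.h (P (nat_lit 0)) (T.h (T.h (P (nat_lit 0)) (P (nat_lit 265807357753792))) (P (nat_lit 0)))) (M (nat_lit 615023029347647487))))))), (T.h (T.h (P (nat_lit 0))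 (T.h (T.h (P (nat_lit 38654651469590484565549383680)) (T.h (P (nat_lit 0)) (T.h (M (nat_lit 398869698903503942975487)) (T.h (P (nat_lit 0)) (P (nat_lit 77592608275103744)))))) (T.h (P (nat_lit 0)) (T.h (T.h (P (nat_lit 75429900119833793527808)) (T.h (P (nat_lit 0)) (M (nat_lit 103527097765298175)))) (T.h (P (nat_lit 0)) (P (nat_lit 84372272904028160))))))) (T.h (T.h (T.h (P (nat_lit 0)) (T.h (M (nat_lit 82005352132504340645543935)) (T.h (P (nat_lit 0)) (T.h (P (nat_lit 40354807243362795520)) (T.h (P (nat_lit 0)) (M (nat_lit 171358582288431))))))) (T.h (P (nat_lit 0)) (T.h (T.h (P (nat_lit 0)) (T.h (P (nat_lit 6781948296333099008)) (T.h (P (nat_lit 0)) (M (nat_lit 625848463900175))))) (T.h (P (nat_lit 0)) (T.h (T.h (P (nat_lit 0)) (P (nat_lit 56095130371632))) (P (nat_lit 0))))))) (T.h (T.h (P (nat_lit 0)) (T.h (T.h (P (nat_lit 254371583437503744442368)) (T.h (P (nat_lit 0)) (P (nat_lit 605362602800644096)))) (T.h (P (nat_lit 0)) (M (nat_lit 1732861195147624447)))))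 (T.h (T.h (T.h (P (nat_lit 0)) (T.h (P (nat_lit 7255255734206595072)) (T.h (P (nat_lit 0)) (M (nat_lit 126198014860367))))) (T.h (P (nat_lit 0)) (T.h (T.h (P (nat_lit 0)) (M (nat_lit 150609851272495))) (P (nat_lit 0))))) (T.h (T.h (P (nat_lit 0)) (M (nat_lit 863332651526553599))) (T.h (T.h (T.h (P (nat_lit 0)) (P (nat_lit 128431816472960))) (P (nat_lit 0))) (P (nat_lit 0)))))))), (T.h (T.h (P (nat_lit 0)) (T.h (T.h (P (nat_lit 0)) (T.h (M (nat_lit 62512067805864717822459903)) (T.h (P (nat_lit 0)) (M (nat_lit 451596974912692027391))))) (T.h (P (nat_lit 0)) (T.h (T.h (P (nat_lit 0)) (M (nat_lit 152497253471509020671))) (P (nat_lit 0)))))) (T.h (T.h (T.h (P (nat_lit 58533588080269667130553663488)) (T.h (P (nat_lit 0)) (T.h (M (nat_lit 307387787828805941329919)) (T.h (P (nat_lit 0)) (P (nat_lit 32282370373353472)))))) (T.h (P (nat_lit 0)) (T.h (T.h (M (nat_lit 228364555603926038085631)) (T.h (P (nat_lit 0)) (P (nat_lit 1070033940780810240)))) (T.h (P (nat_lit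 0)) (M (nat_lit 125002415436529663)))))) (T.h (T.h (P (nat_lit 0)) (T.h (T.h (P (nat_lit 0)) (M (nat_lit 562928614136549998591))) (P (nat_lit 0)))) (T.h (T.h (T.h (P (nat_lit 194793753450289104420864)) (T.h (P (nat_lit 0)) (P (nat_lit 144336044066504704)))) (T.h (P (nat_lit 0)) (M (nat_lit 522124404768767999)))) (T.h (P (nat_lit 0)) (M (nat_lit 15147995482423295))))))), (T.h (T.h (T.h (M (nat_lit 16449162197485303338253328318463)) (T.h (P (nat_lit 0)) (T.h (P (nat_lit 443165057008358769295360)) (T.h (P (nat_lit 0)) (M (nat_lit 19646369320994340863)))))) (T.h (P (nat_lit 0)) (T.h (T.h (P (nat_lit 40386467642515883915476992)) (T.h (P (nat_lit 0)) (P (nat_lit 384191862864330358784)))) (T.h (P (nat_lit 0)) (M (nat_lit 840967085421632684031)))))) (T.h (T.h (P (nat_lit 0)) (T.h (T.h (P (nat_lit 0)) (T.h (P (nat_lit 461863613200988370894848)) (T.h (P (nat_lit 0)) (M (nat_lit 281468945639669759))))) (T.h (P (nat_lit 0)) (T.h (T.h (P (nat_lit 0)) (M (nat_lit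 1796460319972524031))) (P (nat_lit 0)))))) (T.h (T.h (T.h (M (nat_lit 5464030832497061768724479)) (T.h (P (nat_lit 0)) (P (nat_lit 145840537392969154560)))) (T.h (P (nat_lit 0)) (M (nat_lit 25129399231289753599)))) (T.h (T.h (P (nat_lit 0)) (T.h (T.h (P (nat_lit 0)) (M (nat_lit 214890965299888127))) (P (nat_lit 0)))) (M (nat_lit 205307572078552023039)))))), (T.h (T.h (T.h (P (nat_lit 0)) (T.h (P (nat_lit 2328535345222944051758628864)) (T.h (P (nat_lit 0)) (T.h (P (nat_lit 4364167748600012472320)) (T.h (P (nat_lit 0)) (M (nat_lit 1605405777788927))))))) (T.h (P (nat_lit 0)) (T.h (T.h (P (nat_lit 0)) (T.h (P (nat_lit 247039374308906822008832)) (T.h (P (nat_lit 0)) (M (nat_lit 380614331262664703))))) (T.h (P (nat_lit 0)) (T.h (T.h (P (nat_lit 0)) (M (nat_lit 145400556215058431))) (P (nat_lit 0))))))) (T.h (T.h (P (nat_lit 0)) (T.h (T.h (M (nat_lit 30324963064396105518153727)) (T.h (P (nat_lit 0)) (T.h (M (nat_lit 151511431282023202815)) (T.h (P (nat_lit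 0)) (M (nat_lit 237527651697951)))))) (T.h (P (nat_lit 0)) (T.h (T.h (P (nat_lit 543754214121337257984)) (T.h (P (nat_lit 0)) (P (nat_lit 523327662662640)))) (T.h (P (nat_lit 0)) (M (nat_lit 511264914572719))))))) (T.h (T.h (T.h (P (nat_lit 0)) (T.h (P (nat_lit 247039374308906822008832)) (T.h (P (nat_lit 0)) (M (nat_lit 380614331262664703))))) (T.h (P (nat_lit 0)) (T.h (T.h (P (nat_lit 0)) (P (nat_lit 1230293658452131840))) (P (nat_lit 0))))) (T.h (T.h (P (nat_lit 0)) (T.h (T.h (P (nat_lit 543754214121337257984)) (T.h (P (nat_lit 0)) (P (nat_lit 523327662662640)))) (T.h (P (nat_lit 0)) (M (nat_lit 1759458341326751))))) (T.h (T.h (T.h (P (nat_lit 0)) (M (nat_lit 145400556215058431))) (P (nat_lit 0))) (T.h (T.h (P (nat_lit 0)) (M (nat_lit 511264914572719))) (P (nat_lit 0)))))))), (T.h (T.h (T.h (P (nat_lit 19911686985342792395777992818688)) (T.h (P (nat_lit 0)) (T.h (P (nat_lit 29866378528940360116207616)) (T.h (P (nat_lit 0)) (P (nat_lit 42188510695096582144))))))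 (T.h (P (nat_lit 0)) (T.h (T.h (M (nat_lit 66216282854357790449729535)) (T.h (P (nat_lit 0)) (M (nat_lit 153817068035633053695)))) (T.h (P (nat_lit 0)) (P (nat_lit 89483072378851295232)))))) (T.h (T.h (P (nat_lit 0)) (T.h (T.h (P (nat_lit 0)) (T.h (M (nat_lit 678210062349546654007295)) (T.h (P (nat_lit 0)) (P (nat_lit 642979739907260416))))) (T.h (P (nat_lit 0)) (T.h (T.h (P (nat_lit 0)) (M (nat_lit 180562133041676287))) (P (nat_lit 0)))))) (T.h (T.h (T.h (M (nat_lit 66216282854357790449729535)) (T.h (P (nat_lit 0)) (M (nat_lit 153817068035633053695)))) (T.h (P (nat_lit 0)) (P (nat_lit 1204606997567086002176)))) (T.h (T.h (P (nat_lit 0)) (T.h (T.h (P (nat_lit 0)) (M (nat_lit 180562133041676287))) (P (nat_lit 0)))) (P (nat_lit 89483072378851295232)))))), (P (nat_lit 0))]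
def lP12_45 : List (T ℤ) := [(T.h (T.h (P (nat_lit 0)) (T.h (T.h (P (nat_lit 0)) (T.h (M (nat_lit 8530470887322473985998847)) (T.h (P (nat_lit 0)) (P (nat_lit 11526735466153902080))))) (T.h (P (nat_lit 0)) (T.h (T.h (P (nat_lit 0)) (P (nat_lit 124755095903367331840))) (P (nat_lit 0)))))) (T.h (T.h (T.h (P (nat_lit 37495071686497208421731794944)) (T.h (P (nat_lit 0)) (T.h (P (nat_lit 16057378342646109437952)) (T.h (P (nat_lit 0)) (P (nat_lit 26770372925128704)))))) (T.h (P (nat_lit 0)) (T.h (T.h (M (nat_lit 426842702168290282700799)) (T.h (P (nat_lit 0)) (P (nat_lit 154969859478683648)))) (T.h (P (nat_lit 0)) (P (nat_lit 1052533473347338240)))))) (T.h (T.h (P (nat_lit 0)) (T.h (T.h (P (nat_lit 0)) (M (nat_lit 394182288451529867263))) (P (nat_lit 0)))) (T.h (T.h (T.h (M (nat_lit 138571131412666097074175)) (T.h (P (nat_lit 0)) (M (nat_lit 255022184546467839)))) (T.h (P (nat_lit 0)) (P (nat_lit 813225388758859776)))) (T.h (P (nat_lit 0)) (P (nat_lit 207322856984576000))))))),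 (P (nat_lit 0)), (P (nat_lit 0)), (P (nat_lit 0)), (T.h (T.h (P (nat_lit 0)) (T.h (T.h (M (nat_lit 14460488853345857845952774143)) (T.h (P (nat_lit 0)) (T.h (P (nat_lit 33078434562460132311040)) (T.h (P (nat_lit 0)) (P (nat_lit 5068962778185728)))))) (T.h (P (nat_lit 0)) (T.h (T.h (P (nat_lit 31924257583799644192768)) (T.h (P (nat_lit 0)) (M (nat_lit 4747134743281663)))) (T.h (P (nat_lit 0)) (M (nat_lit 11719595191042047))))))) (T.h (T.h (T.h (P (nat_lit 0)) (T.h (P (nat_lit 24994842400579066712293376)) (T.h (P (nat_lit 0)) (T.h (M (nat_lit 7073318242843885567)) (T.h (P (nat_lit 0)) (P (nat_lit 127174373621352))))))) (T.h (P (nat_lit 0)) (T.h (T.h (P (nat_lit 0)) (T.h (P (nat_lit 70845242460558327808)) (T.h (P (nat_lit 0)) (P (nat_lit 56982699341064))))) (T.h (P (nat_lit 0)) (T.h (T.h (P (nat_lit 0)) (M (nat_lit 151808684066871))) (P (nat_lit 0))))))) (T.h (T.h (P (nat_lit 0)) (T.h (T.h (P (nat_lit 35258632209719281844224)) (T.h (P (nat_lit 0)) (P (nat_lit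 224780437347303424)))) (T.h (P (nat_lit 0)) (P (nat_lit 40202621814210560))))) (T.h (T.h (T.h (P (nat_lit 0)) (T.h (M (nat_lit 100490322530585804799)) (T.h (P (nat_lit 0)) (M (nat_lit 443563858406367))))) (T.h (P (nat_lit 0)) (T.h (T.h (P (nat_lit 0)) (M (nat_lit 116162343241471))) (P (nat_lit 0))))) (T.h (T.h (P (nat_lit 0)) (P (nat_lit 38810451509575680))) (T.h (T.h (T.h (P (nat_lit 0)) (P (nat_lit 210516923144896))) (P (nat_lit 0))) (P (nat_lit 0)))))))), (P (nat_lit 0)), (T.h (T.h (P (nat_lit 0)) (T.h (T.h (P (nat_lit 0)) (T.h (P (nat_lit 0)) (T.h (P (nat_lit 229802207741922164867072)) (T.h (P (nat_lit 0)) (M (nat_lit 123896944162209791)))))) (T.h (P (nat_lit 0)) (T.h (T.h (P (nat_lit 0)) (T.h (P (nat_lit 0)) (M (nat_lit 22127818777952255)))) (P (nat_lit 0)))))) (T.h (T.h (T.h (P (nat_lit 0)) (T.h (P (nat_lit 0)) (T.h (P (nat_lit 0)) (P (nat_lit 445702546010314637312))))) (P (nat_lit 0))) (T.h (T.h (P (nat_lit 0)) (T.h (M (nat_lit 229802207741922164867071))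 (T.h (P (nat_lit 0)) (P (nat_lit 22127818777952256))))) (T.h (T.h (T.h (P (nat_lit 0)) (M (nat_lit 445702546010314637311))) (P (nat_lit 0))) (T.h (T.h (P (nat_lit 0)) (P (nat_lit 123896944162209792))) (P (nat_lit 0))))))), (P (nat_lit 0))]
def lP12_46 : List (T ℤ) := [(P (nat_lit 0)), (P (nat_lit 0)), (P (nat_lit 0)), (T.h (T.h (T.h (P (nat_lit 0)) (T.h (M (nat_lit 36233192578780984350173298687)) (T.h (P (nat_lit 0)) (T.h (P (nat_lit 72509292638479616835584)) (T.h (P (nat_lit 0)) (M (nat_lit 43770347280596991))))))) (T.h (P (nat_lit 0)) (T.h (T.h (P (nat_lit 0)) (T.h (P (nat_lit 30230535023352451432448)) (T.h (P (nat_lit 0)) (M (nat_lit 15897641825796095))))) (T.h (P (nat_lit 0)) (T.h (T.h (P (nat_lit 0)) (P (nat_lit 365371233959936))) (P (nat_lit 0))))))) (T.h (T.h (P (nat_lit 0)) (T.h (T.h (M (nat_lit 1157675202632324237754367)) (T.h (P (nat_lit 0)) (T.h (P (nat_lit 66128719583199100928)) (T.h (P (nat_lit 0)) (P (nat_lit 258828261560560)))))) (T.h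 (P (nat_lit 0)) (T.h (T.h (P (nat_lit 2025941545982623744)) (T.h (P (nat_lit 0)) (M (nat_lit 42436932937855)))) (T.h (P (nat_lit 0)) (M (nat_lit 41132983275735))))))) (T.h (T.h (T.h (P (nat_lit 0)) (T.h (M (nat_lit 68466686214458950287359)) (T.h (P (nat_lit 0)) (P (nat_lit 299272445586571264))))) (T.h (P (nat_lit 0)) (T.h (T.h (P (nat_lit 0)) (P (nat_lit 483315340862128128))) (P (nat_lit 0))))) (T.h (T.h (P (nat_lit 0)) (T.h (T.h (M (nat_lit 266070468829701472255)) (T.h (P (nat_lit 0)) (M (nat_lit 144046916751103)))) (T.h (P (nat_lit 0)) (P (nat_lit 362798814379888))))) (T.h (T.h (T.h (P (nat_lit 0)) (P (nat_lit 295073016950423552))) (P (nat_lit 0))) (T.h (T.h (P (nat_lit 0)) (M (nat_lit 115340860336519))) (P (nat_lit 0)))))))), (T.h (T.h (T.h (P (nat_lit 15172213786557349686731121623040)) (T.h (P (nat_lit 0)) (T.h (M (nat_lit 18264153611699954183569407)) (T.h (P (nat_lit 0)) (T.h (M (nat_lit 8776527609941983231)) (T.h (P (nat_lit 0)) (P (nat_lit 7181325551792))))))))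 (T.h (P (nat_lit 0)) (T.h (T.h (M (nat_lit 1210949200232913911676927)) (T.h (P (nat_lit 0)) (T.h (M (nat_lit 1443524170846568447)) (T.h (P (nat_lit 0)) (P (nat_lit 7834943220656)))))) (T.h (P (nat_lit 0)) (T.h (T.h (M (nat_lit 1640313288946352127)) (T.h (P (nat_lit 0)) (P (nat_lit 7778266412928)))) (T.h (P (nat_lit 0)) (M (nat_lit 2258787755471)))))))) (T.h (T.h (P (nat_lit 0)) (T.h (T.h (P (nat_lit 0)) (T.h (P (nat_lit 2070260029915047919616)) (T.h (P (nat_lit 0)) (M (nat_lit 56295723824119807))))) (T.h (P (nat_lit 0)) (T.h (T.h (P (nat_lit 0)) (P (nat_lit 71083122527076352))) (P (nat_lit 0)))))) (T.h (T.h (T.h (P (nat_lit 21374983709252717796917248)) (T.h (P (nat_lit 0)) (T.h (M (nat_lit 32579711267497836543)) (T.h (P (nat_lit 0)) (M (nat_lit 25450372979775)))))) (T.h (P (nat_lit 0)) (T.h (T.h (P (nat_lit 104816937201435672576)) (T.h (P (nat_lit 0)) (M (nat_lit 2428238407215)))) (T.h (P (nat_lit 0)) (M (nat_lit 27352561037247)))))) (T.h (T.h (P (nat_lit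 0)) (T.h (T.h (P (nat_lit 0)) (P (nat_lit 184625113980796928))) (P (nat_lit 0)))) (T.h (T.h (T.h (M (nat_lit 47365347442010619903)) (T.h (P (nat_lit 0)) (P (nat_lit 439341944415168)))) (T.h (P (nat_lit 0)) (P (nat_lit 65805890694080)))) (T.h (P (nat_lit 0)) (P (nat_lit 63359498543120)))))))), (T.h (T.h (T.h (P (nat_lit 0)) (T.h (M (nat_lit 29732219034481768060761931775)) (T.h (P (nat_lit 0)) (T.h (M (nat_lit 21671751669446275497983)) (T.h (P (nat_lit 0)) (P (nat_lit 201649643242717184))))))) (T.h (P (nat_lit 0)) (T.h (T.h (P (nat_lit 0)) (T.h (M (nat_lit 38578253626000816472063)) (T.h (P (nat_lit 0)) (P (nat_lit 621832139345395712))))) (T.h (P (nat_lit 0)) (T.h (T.h (P (nat_lit 0)) (P (nat_lit 115801079731355648))) (P (nat_lit 0))))))) (T.h (T.h (P (nat_lit 0)) (T.h (T.h (M (nat_lit 90874859611260401274060799)) (T.h (P (nat_lit 0)) (T.h (P (nat_lit 59711157354593517568)) (T.h (P (nat_lit 0)) (M (nat_lit 135092302434559)))))) (T.h (P (nat_lit 0)) (T.h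 (T.h (P (nat_lit 58365435869996777472)) (T.h (P (nat_lit 0)) (M (nat_lit 129680774576831)))) (T.h (P (nat_lit 0)) (M (nat_lit 10339465218239))))))) (T.h (T.h (T.h (P (nat_lit 0)) (T.h (M (nat_lit 370722488120860552986623)) (T.h (P (nat_lit 0)) (P (nat_lit 597235151336800256))))) (T.h (P (nat_lit 0)) (T.h (T.h (P (nat_lit 0)) (M (nat_lit 767033638159351807))) (P (nat_lit 0))))) (T.h (T.h (P (nat_lit 0)) (T.h (T.h (M (nat_lit 594515772281133727743)) (T.h (P (nat_lit 0)) (P (nat_lit 323801007112640)))) (T.h (P (nat_lit 0)) (M (nat_lit 173328127994111))))) (T.h (T.h (T.h (P (nat_lit 0)) (M (nat_lit 294164013107970047))) (P (nat_lit 0))) (T.h (T.h (P (nat_lit 0)) (P (nat_lit 92390346224128))) (P (nat_lit 0)))))))), (T.h (T.h (T.h (P (nat_lit 90041645070864497468254453760)) (T.h (P (nat_lit 0)) (T.h (M (nat_lit 82978344281189709284114431)) (T.h (P (nat_lit 0)) (T.h (M (nat_lit 78420376951661264895)) (T.h (P (nat_lit 0)) (M (nat_lit 100380931134879))))))))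 (T.h (P (nat_lit 0)) (T.h (T.h (M (nat_lit 9814911570293775350628351)) (T.h (P (nat_lit 0)) (T.h (M (nat_lit 99246207615725731839)) (T.h (P (nat_lit 0)) (P (nat_lit 211605099716560)))))) (T.h (P (nat_lit 0)) (T.h (T.h (P (nat_lit 10325048240973545472)) (T.h (P (nat_lit 0)) (P (nat_lit 46870734497312)))) (T.h (P (nat_lit 0)) (M (nat_lit 10492294430287)))))))) (T.h (T.h (P (nat_lit 0)) (T.h (T.h (P (nat_lit 0)) (T.h (M (nat_lit 465666743731333762121727)) (T.h (P (nat_lit 0)) (P (nat_lit 536079415609098240))))) (T.h (P (nat_lit 0)) (T.h (T.h (P (nat_lit 0)) (P (nat_lit 424906803810205696))) (P (nat_lit 0)))))) (T.h (T.h (T.h (M (nat_lit 74297551689310308902371327)) (T.h (P (nat_lit 0)) (T.h (P (nat_lit 185568451651652550656)) (T.h (P (nat_lit 0)) (P (nat_lit 227616305269056)))))) (T.h (P (nat_lit 0)) (T.h (T.h (P (nat_lit 341679502975320457216)) (T.h (P (nat_lit 0)) (M (nat_lit 1201170315836127)))) (T.h (P (nat_lit 0)) (P (nat_lit 45874032146976))))))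 (T.h (T.h (P (nat_lit 0)) (T.h (T.h (P (nat_lit 0)) (M (nat_lit 1348142103835803647))) (P (nat_lit 0)))) (T.h (T.h (T.h (P (nat_lit 336412622550833561600)) (T.h (P (nat_lit 0)) (M (nat_lit 1548465693749039)))) (T.h (P (nat_lit 0)) (M (nat_lit 311887139930959)))) (T.h (P (nat_lit 0)) (M (nat_lit 499469368768831)))))))), (T.h (T.h (T.h (P (nat_lit 0)) (T.h (P (nat_lit 37495071686497208421731794944)) (T.h (P (nat_lit 0)) (T.h (M (nat_lit 138571131412666097074175)) (T.h (P (nat_lit 0)) (P (nat_lit 207322856984576000))))))) (T.h (P (nat_lit 0)) (T.h (T.h (P (nat_lit 0)) (T.h (P (nat_lit 16057378342646109437952)) (T.h (P (nat_lit 0)) (M (nat_lit 255022184546467839))))) (T.h (P (nat_lit 0)) (T.h (T.h (P (nat_lit 0)) (P (nat_lit 26770372925128704))) (P (nat_lit 0))))))) (T.h (T.h (P (nat_lit 0)) (T.h (T.h (M (nat_lit 8530470887322473985998847)) (T.h (P (nat_lit 0)) (M (nat_lit 394182288451529867263)))) (T.h (P (nat_lit 0)) (P (nat_lit 11526735466153902080)))))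 (T.h (T.h (T.h (P (nat_lit 0)) (T.h (M (nat_lit 426842702168290282700799)) (T.h (P (nat_lit 0)) (P (nat_lit 813225388758859776))))) (T.h (P (nat_lit 0)) (T.h (T.h (P (nat_lit 0)) (P (nat_lit 154969859478683648))) (P (nat_lit 0))))) (T.h (T.h (P (nat_lit 0)) (P (nat_lit 124755095903367331840))) (T.h (T.h (T.h (P (nat_lit 0)) (P (nat_lit 1052533473347338240))) (P (nat_lit 0))) (P (nat_lit 0)))))))]
def lP12_47 : List (T ℤ) := [(P (nat_lit 0)), (T.h (T.h (P (nat_lit 0)) (T.h (T.h (M (nat_lit 36233192578780984350173298687)) (T.h (P (nat_lit 0)) (T.h (P (nat_lit 30230535023352451432448)) (T.h (P (nat_lit 0)) (P (nat_lit 365371233959936)))))) (T.h (P (nat_lit 0)) (T.h (T.h (P (nat_lit 72509292638479616835584)) (T.h (P (nat_lit 0)) (M (nat_lit 15897641825796095)))) (T.h (P (nat_lit 0)) (M (nat_lit 43770347280596991))))))) (T.h (T.h (T.h (P (nat_lit 0)) (T.h (M (nat_lit 1157675202632324237754367)) (T.h (P (nat_lit 0)) (T.h (P (nat_lit 2025941545982623744))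 (T.h (P (nat_lit 0)) (M (nat_lit 41132983275735))))))) (T.h (P (nat_lit 0)) (T.h (T.h (P (nat_lit 0)) (T.h (P (nat_lit 66128719583199100928)) (T.h (P (nat_lit 0)) (M (nat_lit 42436932937855))))) (T.h (P (nat_lit 0)) (T.h (T.h (P (nat_lit 0)) (P (nat_lit 258828261560560))) (P (nat_lit 0))))))) (T.h (T.h (P (nat_lit 0)) (T.h (T.h (M (nat_lit 68466686214458950287359)) (T.h (P (nat_lit 0)) (P (nat_lit 483315340862128128)))) (T.h (P (nat_lit 0)) (P (nat_lit 299272445586571264))))) (T.h (T.h (T.h (P (nat_lit 0)) (T.h (M (nat_lit 266070468829701472255)) (T.h (P (nat_lit 0)) (P (nat_lit 362798814379888))))) (T.h (P (nat_lit 0)) (T.h (T.h (P (nat_lit 0)) (M (nat_lit 144046916751103))) (P (nat_lit 0))))) (T.h (T.h (P (nat_lit 0)) (P (nat_lit 295073016950423552))) (T.h (T.h (T.h (P (nat_lit 0)) (M (nat_lit 115340860336519))) (P (nat_lit 0))) (P (nat_lit 0)))))))), (T.h (T.h (P (nat_lit 0)) (T.h (T.h (P (nat_lit 0)) (T.h (P (nat_lit 11439208824090017958723584))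 (T.h (P (nat_lit 0)) (T.h (M (nat_lit 25606197467787821055)) (T.h (P (nat_lit 0)) (M (nat_lit 9359451847407))))))) (T.h (P (nat_lit 0)) (T.h (T.h (P (nat_lit 0)) (T.h (M (nat_lit 25606197467787821055)) (T.h (P (nat_lit 0)) (M (nat_lit 9080975901567))))) (T.h (P (nat_lit 0)) (T.h (T.h (P (nat_lit 0)) (M (nat_lit 9359451847407))) (P (nat_lit 0)))))))) (T.h (T.h (T.h (M (nat_lit 10568642270593862374394953727)) (T.h (P (nat_lit 0)) (T.h (P (nat_lit 8179832511665811750912)) (T.h (P (nat_lit 0)) (P (nat_lit 42281017820037120)))))) (T.h (P (nat_lit 0)) (T.h (T.h (P (nat_lit 8179832511665811750912)) (T.h (P (nat_lit 0)) (M (nat_lit 83790289926193151)))) (T.h (P (nat_lit 0)) (P (nat_lit 42281017820037120)))))) (T.h (T.h (P (nat_lit 0)) (T.h (T.h (P (nat_lit 0)) (T.h (P (nat_lit 167073992415295569920)) (T.h (P (nat_lit 0)) (P (nat_lit 13668783183072))))) (T.h (P (nat_lit 0)) (T.h (T.h (P (nat_lit 0)) (P (nat_lit 13668783183072))) (P (nat_lit 0)))))) (T.h (T.h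 (T.h (P (nat_lit 140262297202309164171264)) (T.h (P (nat_lit 0)) (P (nat_lit 126396749802356736)))) (T.h (P (nat_lit 0)) (P (nat_lit 126396749802356736)))) (T.h (T.h (P (nat_lit 0)) (T.h (T.h (P (nat_lit 0)) (M (nat_lit 216448194887871))) (P (nat_lit 0)))) (M (nat_lit 263332630997860351))))))), (T.h (T.h (P (nat_lit 0)) (T.h (T.h (M (nat_lit 181530019284877775297182695423)) (T.h (P (nat_lit 0)) (T.h (P (nat_lit 64572452965385806807040)) (T.h (P (nat_lit 0)) (P (nat_lit 50148825126010880)))))) (T.h (P (nat_lit 0)) (T.h (T.h (P (nat_lit 23128077994842166132736)) (T.h (P (nat_lit 0)) (M (nat_lit 155874677724250111)))) (T.h (P (nat_lit 0)) (M (nat_lit 69273584367042559))))))) (T.h (T.h (T.h (P (nat_lit 0)) (T.h (P (nat_lit 39813085336996748598444032)) (T.h (P (nat_lit 0)) (T.h (M (nat_lit 377953796674537127935)) (T.h (P (nat_lit 0)) (M (nat_lit 34559719305663))))))) (T.h (P (nat_lit 0)) (T.h (T.h (P (nat_lit 0)) (T.h (M (nat_lit 438909251201062141951))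 (T.h (P (nat_lit 0)) (P (nat_lit 16402866389632))))) (T.h (P (nat_lit 0)) (T.h (T.h (P (nat_lit 0)) (M (nat_lit 35758438672831))) (P (nat_lit 0))))))) (T.h (T.h (P (nat_lit 0)) (T.h (T.h (M (nat_lit 1142539851613053747462143)) (T.h (P (nat_lit 0)) (P (nat_lit 1608772943449718784)))) (T.h (P (nat_lit 0)) (M (nat_lit 389005348247732223))))) (T.h (T.h (T.h (P (nat_lit 0)) (T.h (P (nat_lit 1510795303300049666048)) (T.h (P (nat_lit 0)) (M (nat_lit 569304909624511))))) (T.h (P (nat_lit 0)) (T.h (T.h (P (nat_lit 0)) (M (nat_lit 353210867934847))) (P (nat_lit 0))))) (T.h (T.h (P (nat_lit 0)) (M (nat_lit 2171665954801516543))) (T.h (T.h (T.h (P (nat_lit 0)) (M (nat_lit 40638326489599))) (P (nat_lit 0))) (P (nat_lit 0)))))))), (T.h (T.h (P (nat_lit 0)) (T.h (T.h (P (nat_lit 0)) (T.h (P (nat_lit 90555554163492652484395008)) (T.h (P (nat_lit 0)) (T.h (M (nat_lit 71140088274038554623)) (T.h (P (nat_lit 0)) (P (nat_lit 172986961464416))))))) (T.h (P (nat_lit 0))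 (T.h (T.h (P (nat_lit 0)) (T.h (P (nat_lit 14186840661470216192)) (T.h (P (nat_lit 0)) (M (nat_lit 25054827595247))))) (T.h (P (nat_lit 0)) (T.h (T.h (P (nat_lit 0)) (P (nat_lit 110851673169776))) (P (nat_lit 0)))))))) (T.h (T.h (T.h (P (nat_lit 17704389529118597248316342272)) (T.h (P (nat_lit 0)) (T.h (M (nat_lit 89931286064732739469311)) (T.h (P (nat_lit 0)) (M (nat_lit 637775820071223295)))))) (T.h (P (nat_lit 0)) (T.h (T.h (P (nat_lit 179029490075745973698560)) (T.h (P (nat_lit 0)) (M (nat_lit 271088118705799167)))) (T.h (P (nat_lit 0)) (P (nat_lit 328597930403921920)))))) (T.h (T.h (P (nat_lit 0)) (T.h (T.h (P (nat_lit 0)) (T.h (P (nat_lit 38138849773442039808)) (T.h (P (nat_lit 0)) (P (nat_lit 361794974546192))))) (T.h (P (nat_lit 0)) (T.h (T.h (P (nat_lit 0)) (P (nat_lit 130585546475472))) (P (nat_lit 0)))))) (T.h (T.h (T.h (M (nat_lit 80612603565561887064063)) (T.h (P (nat_lit 0)) (M (nat_lit 315189760276332543)))) (T.h (P (nat_lit 0)) (P (nat_lit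 261691826528878592)))) (T.h (T.h (P (nat_lit 0)) (T.h (T.h (P (nat_lit 0)) (P (nat_lit 1882318035580224))) (P (nat_lit 0)))) (P (nat_lit 552199261127180288))))))), (T.h (T.h (P (nat_lit 0)) (T.h (T.h (P (nat_lit 12264306295860865433992167424)) (T.h (P (nat_lit 0)) (T.h (M (nat_lit 126715159606584970051583)) (T.h (P (nat_lit 0)) (M (nat_lit 250273072803250175)))))) (T.h (P (nat_lit 0)) (T.h (T.h (M (nat_lit 38351697694890571857919)) (T.h (P (nat_lit 0)) (P (nat_lit 95609950710071296)))) (T.h (P (nat_lit 0)) (P (nat_lit 22986133075853312))))))) (T.h (T.h (T.h (P (nat_lit 0)) (T.h (P (nat_lit 178450648329772352166428672)) (T.h (P (nat_lit 0)) (P (nat_lit 312703088898592473088))))) (T.h (P (nat_lit 0)) (T.h (T.h (P (nat_lit 0)) (M (nat_lit 632434394254251393023))) (P (nat_lit 0))))) (T.h (T.h (P (nat_lit 0)) (T.h (T.h (P (nat_lit 72151306072020993703936)) (T.h (P (nat_lit 0)) (P (nat_lit 329315656024653824)))) (T.h (P (nat_lit 0)) (P (nat_lit 12011030252027904)))))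 (T.h (T.h (T.h (P (nat_lit 0)) (P (nat_lit 468182160841962946560))) (P (nat_lit 0))) (T.h (T.h (P (nat_lit 0)) (M (nat_lit 353876310217654271))) (P (nat_lit 0))))))), (T.h (T.h (T.h (P (nat_lit 0)) (T.h (M (nat_lit 14460488853345857845952774143)) (T.h (P (nat_lit 0)) (T.h (P (nat_lit 31924257583799644192768)) (T.h (P (nat_lit 0)) (M (nat_lit 11719595191042047))))))) (T.h (P (nat_lit 0)) (T.h (T.h (P (nat_lit 0)) (T.h (P (nat_lit 33078434562460132311040)) (T.h (P (nat_lit 0)) (M (nat_lit 4747134743281663))))) (T.h (P (nat_lit 0)) (T.h (T.h (P (nat_lit 0)) (P (nat_lit 5068962778185728))) (P (nat_lit 0))))))) (T.h (T.h (P (nat_lit 0)) (T.h (T.h (P (nat_lit 24994842400579066712293376)) (T.h (P (nat_lit 0)) (T.h (P (nat_lit 70845242460558327808)) (T.h (P (nat_lit 0)) (M (nat_lit 151808684066871)))))) (T.h (P (nat_lit 0)) (T.h (T.h (M (nat_lit 7073318242843885567)) (T.h (P (nat_lit 0)) (P (nat_lit 56982699341064)))) (T.h (P (nat_lit 0)) (P (nat_lit 127174373621352)))))))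 (T.h (T.h (T.h (P (nat_lit 0)) (T.h (P (nat_lit 35258632209719281844224)) (T.h (P (nat_lit 0)) (P (nat_lit 40202621814210560))))) (T.h (P (nat_lit 0)) (T.h (T.h (P (nat_lit 0)) (P (nat_lit 224780437347303424))) (P (nat_lit 0))))) (T.h (T.h (P (nat_lit 0)) (T.h (T.h (M (nat_lit 100490322530585804799)) (T.h (P (nat_lit 0)) (M (nat_lit 116162343241471)))) (T.h (P (nat_lit 0)) (M (nat_lit 443563858406367))))) (T.h (T.h (T.h (P (nat_lit 0)) (P (nat_lit 38810451509575680))) (P (nat_lit 0))) (T.h (T.h (P (nat_lit 0)) (P (nat_lit 210516923144896))) (P (nat_lit 0)))))))), (T.h (T.h (T.h (P (nat_lit 15172213786557349686731121623040)) (T.h (P (nat_lit 0)) (T.h (M (nat_lit 1210949200232913911676927)) (T.h (P (nat_lit 0)) (T.h (M (nat_lit 1640313288946352127)) (T.h (P (nat_lit 0)) (M (nat_lit 2258787755471)))))))) (T.h (P (nat_lit 0)) (T.h (T.h (M (nat_lit 18264153611699954183569407)) (T.h (P (nat_lit 0)) (T.h (M (nat_lit 1443524170846568447)) (T.h (P (nat_lit 0))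 (P (nat_lit 7778266412928)))))) (T.h (P (nat_lit 0)) (T.h (T.h (M (nat_lit 8776527609941983231)) (T.h (P (nat_lit 0)) (P (nat_lit 7834943220656)))) (T.h (P (nat_lit 0)) (P (nat_lit 7181325551792)))))))) (T.h (T.h (P (nat_lit 0)) (T.h (T.h (P (nat_lit 0)) (T.h (P (nat_lit 2070260029915047919616)) (T.h (P (nat_lit 0)) (P (nat_lit 71083122527076352))))) (T.h (P (nat_lit 0)) (T.h (T.h (P (nat_lit 0)) (M (nat_lit 56295723824119807))) (P (nat_lit 0)))))) (T.h (T.h (T.h (P (nat_lit 21374983709252717796917248)) (T.h (P (nat_lit 0)) (T.h (P (nat_lit 104816937201435672576)) (T.h (P (nat_lit 0)) (M (nat_lit 27352561037247)))))) (T.h (P (nat_lit 0)) (T.h (T.h (M (nat_lit 32579711267497836543)) (T.h (P (nat_lit 0)) (M (nat_lit 2428238407215)))) (T.h (P (nat_lit 0)) (M (nat_lit 25450372979775)))))) (T.h (T.h (P (nat_lit 0)) (T.h (T.h (P (nat_lit 0)) (P (nat_lit 184625113980796928))) (P (nat_lit 0)))) (T.h (T.h (T.h (M (nat_lit 47365347442010619903)) (T.h (P (nat_lit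 0)) (P (nat_lit 65805890694080)))) (T.h (P (nat_lit 0)) (P (nat_lit 439341944415168)))) (T.h (P (nat_lit 0)) (P (nat_lit 63359498543120))))))))]
def lP12_48 : List (T ℤ) := [(T.h (T.h (T.h (P (nat_lit 0)) (T.h (M (nat_lit 181530019284877775297182695423)) (T.h (P (nat_lit 0)) (T.h (P (nat_lit 23128077994842166132736)) (T.h (P (nat_lit 0)) (M (nat_lit 69273584367042559))))))) (T.h (P (nat_lit 0)) (T.h (T.h (P (nat_lit 0)) (T.h (P (nat_lit 64572452965385806807040)) (T.h (P (nat_lit 0)) (M (nat_lit 155874677724250111))))) (T.h (P (nat_lit 0)) (T.h (T.h (P (nat_lit 0)) (P (nat_lit 50148825126010880))) (P (nat_lit 0))))))) (T.h (T.h (P (nat_lit 0)) (T.h (T.h (P (nat_lit 39813085336996748598444032)) (T.h (P (nat_lit 0)) (T.h (M (nat_lit 438909251201062141951)) (T.h (P (nat_lit 0)) (M (nat_lit 35758438672831)))))) (T.h (P (nat_lit 0)) (T.h (T.h (M (nat_lit 377953796674537127935)) (T.h (P (nat_lit 0)) (P (nat_lit 16402866389632)))) (T.h (P (nat_lit 0)) (M (nat_lit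 34559719305663))))))) (T.h (T.h (T.h (P (nat_lit 0)) (T.h (M (nat_lit 1142539851613053747462143)) (T.h (P (nat_lit 0)) (M (nat_lit 389005348247732223))))) (T.h (P (nat_lit 0)) (T.h (T.h (P (nat_lit 0)) (P (nat_lit 1608772943449718784))) (P (nat_lit 0))))) (T.h (T.h (P (nat_lit 0)) (T.h (T.h (P (nat_lit 1510795303300049666048)) (T.h (P (nat_lit 0)) (M (nat_lit 353210867934847)))) (T.h (P (nat_lit 0)) (M (nat_lit 569304909624511))))) (T.h (T.h (T.h (P (nat_lit 0)) (M (nat_lit 2171665954801516543))) (P (nat_lit 0))) (T.h (T.h (P (nat_lit 0)) (M (nat_lit 40638326489599))) (P (nat_lit 0)))))))), (T.h (T.h (T.h (P (nat_lit 9752786531832348049259605524480)) (T.h (P (nat_lit 0)) (T.h (M (nat_lit 73996782044298900915879935)) (T.h (P (nat_lit 0)) (T.h (P (nat_lit 9255287119968993280)) (T.h (P (nat_lit 0)) (M (nat_lit 48388242410463)))))))) (T.h (P (nat_lit 0)) (T.h (T.h (M (nat_lit 73996782044298900915879935)) (T.h (P (nat_lit 0)) (T.h (P (nat_lit 147334852714864574464))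 (T.h (P (nat_lit 0)) (P (nat_lit 115714159541728)))))) (T.h (P (nat_lit 0)) (T.h (T.h (P (nat_lit 9255287119968993280)) (T.h (P (nat_lit 0)) (P (nat_lit 115714159541728)))) (T.h (P (nat_lit 0)) (M (nat_lit 48388242410463)))))))) (T.h (T.h (P (nat_lit 0)) (T.h (T.h (P (nat_lit 0)) (T.h (P (nat_lit 396958316915119341174784)) (T.h (P (nat_lit 0)) (M (nat_lit 405361685630124031))))) (T.h (P (nat_lit 0)) (T.h (T.h (P (nat_lit 0)) (M (nat_lit 405361685630124031))) (P (nat_lit 0)))))) (T.h (T.h (T.h (P (nat_lit 394767182880192830227087360)) (T.h (P (nat_lit 0)) (T.h (M (nat_lit 527978540082923569151)) (T.h (P (nat_lit 0)) (M (nat_lit 153371460460767)))))) (T.h (P (nat_lit 0)) (T.h (T.h (M (nat_lit 527978540082923569151)) (T.h (P (nat_lit 0)) (P (nat_lit 1545953600471104)))) (T.h (P (nat_lit 0)) (M (nat_lit 153371460460767)))))) (T.h (T.h (P (nat_lit 0)) (T.h (T.h (P (nat_lit 0)) (P (nat_lit 407110724932861952))) (P (nat_lit 0)))) (T.h (T.h (T.h (M (nat_lit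 125415090527682953215)) (T.h (P (nat_lit 0)) (P (nat_lit 60230847533472)))) (T.h (P (nat_lit 0)) (P (nat_lit 60230847533472)))) (T.h (P (nat_lit 0)) (P (nat_lit 329438584916672)))))))), (T.h (T.h (T.h (P (nat_lit 0)) (T.h (P (nat_lit 133768656778760561275365752832)) (T.h (P (nat_lit 0)) (T.h (M (nat_lit 29219963289720217141247)) (T.h (P (nat_lit 0)) (P (nat_lit 65373264351297536))))))) (T.h (P (nat_lit 0)) (T.h (T.h (P (nat_lit 0)) (T.h (M (nat_lit 265991905201773512491007)) (T.h (P (nat_lit 0)) (M (nat_lit 127190422486253567))))) (T.h (P (nat_lit 0)) (T.h (T.h (P (nat_lit 0)) (P (nat_lit 10578727072661504))) (P (nat_lit 0))))))) (T.h (T.h (P (nat_lit 0)) (T.h (T.h (P (nat_lit 71817996516439123818446848)) (T.h (P (nat_lit 0)) (P (nat_lit 302479476523544870912)))) (T.h (P (nat_lit 0)) (P (nat_lit 293417813422567849984))))) (T.h (T.h (T.h (P (nat_lit 0)) (T.h (P (nat_lit 1083909940175908072587264)) (T.h (P (nat_lit 0)) (P (nat_lit 161074343272644608)))))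 (T.h (P (nat_lit 0)) (T.h (T.h (P (nat_lit 0)) (M (nat_lit 531307149684015103))) (P (nat_lit 0))))) (T.h (T.h (P (nat_lit 0)) (P (nat_lit 237324560957846847488))) (T.h (T.h (T.h (P (nat_lit 0)) (M (nat_lit 695645357607747583))) (P (nat_lit 0))) (P (nat_lit 0))))))), (P (nat_lit 0)), (T.h (T.h (P (nat_lit 0)) (T.h (T.h (M (nat_lit 29732219034481768060761931775)) (T.h (P (nat_lit 0)) (T.h (M (nat_lit 38578253626000816472063)) (T.h (P (nat_lit 0)) (P (nat_lit 115801079731355648)))))) (T.h (P (nat_lit 0)) (T.h (T.h (M (nat_lit 21671751669446275497983)) (T.h (P (nat_lit 0)) (P (nat_lit 621832139345395712)))) (T.h (P (nat_lit 0)) (P (nat_lit 201649643242717184))))))) (T.h (T.h (T.h (P (nat_lit 0)) (T.h (M (nat_lit 90874859611260401274060799)) (T.h (P (nat_lit 0)) (T.h (P (nat_lit 58365435869996777472)) (T.h (P (nat_lit 0)) (M (nat_lit 10339465218239))))))) (T.h (P (nat_lit 0)) (T.h (T.h (P (nat_lit 0)) (T.h (P (nat_lit 59711157354593517568)) (T.h (P (nat_lit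 0)) (M (nat_lit 129680774576831))))) (T.h (P (nat_lit 0)) (T.h (T.h (P (nat_lit 0)) (M (nat_lit 135092302434559))) (P (nat_lit 0))))))) (T.h (T.h (P (nat_lit 0)) (T.h (T.h (M (nat_lit 370722488120860552986623)) (T.h (P (nat_lit 0)) (M (nat_lit 767033638159351807)))) (T.h (P (nat_lit 0)) (P (nat_lit 597235151336800256))))) (T.h (T.h (T.h (P (nat_lit 0)) (T.h (M (nat_lit 594515772281133727743)) (T.h (P (nat_lit 0)) (M (nat_lit 173328127994111))))) (T.h (P (nat_lit 0)) (T.h (T.h (P (nat_lit 0)) (P (nat_lit 323801007112640))) (P (nat_lit 0))))) (T.h (T.h (P (nat_lit 0)) (M (nat_lit 294164013107970047))) (T.h (T.h (T.h (P (nat_lit 0)) (P (nat_lit 92390346224128))) (P (nat_lit 0))) (P (nat_lit 0)))))))), (T.h (T.h (P (nat_lit 0)) (T.h (T.h (P (nat_lit 0)) (T.h (P (nat_lit 90555554163492652484395008)) (T.h (P (nat_lit 0)) (T.h (P (nat_lit 14186840661470216192)) (T.h (P (nat_lit 0)) (P (nat_lit 110851673169776))))))) (T.h (P (nat_lit 0)) (T.h (T.h (P (nat_lit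 0)) (T.h (M (nat_lit 71140088274038554623)) (T.h (P (nat_lit 0)) (M (nat_lit 25054827595247))))) (T.h (P (nat_lit 0)) (T.h (T.h (P (nat_lit 0)) (P (nat_lit 172986961464416))) (P (nat_lit 0)))))))) (T.h (T.h (T.h (P (nat_lit 17704389529118597248316342272)) (T.h (P (nat_lit 0)) (T.h (P (nat_lit 179029490075745973698560)) (T.h (P (nat_lit 0)) (P (nat_lit 328597930403921920)))))) (T.h (P (nat_lit 0)) (T.h (T.h (M (nat_lit 89931286064732739469311)) (T.h (P (nat_lit 0)) (M (nat_lit 271088118705799167)))) (T.h (P (nat_lit 0)) (M (nat_lit 637775820071223295)))))) (T.h (T.h (P (nat_lit 0)) (T.h (T.h (P (nat_lit 0)) (T.h (P (nat_lit 38138849773442039808)) (T.h (P (nat_lit 0)) (P (nat_lit 130585546475472))))) (T.h (P (nat_lit 0)) (T.h (T.h (P (nat_lit 0)) (P (nat_lit 361794974546192))) (P (nat_lit 0)))))) (T.h (T.h (T.h (M (nat_lit 80612603565561887064063)) (T.h (P (nat_lit 0)) (P (nat_lit 261691826528878592)))) (T.h (P (nat_lit 0)) (M (nat_lit 315189760276332543))))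 (T.h (T.h (P (nat_lit 0)) (T.h (T.h (P (nat_lit 0)) (P (nat_lit 1882318035580224))) (P (nat_lit 0)))) (P (nat_lit 552199261127180288))))))), (T.h (T.h (P (nat_lit 0)) (T.h (T.h (P (nat_lit 133768656778760561275365752832)) (T.h (P (nat_lit 0)) (T.h (M (nat_lit 265991905201773512491007)) (T.h (P (nat_lit 0)) (P (nat_lit 10578727072661504)))))) (T.h (P (nat_lit 0)) (T.h (T.h (M (nat_lit 29219963289720217141247)) (T.h (P (nat_lit 0)) (M (nat_lit 127190422486253567)))) (T.h (P (nat_lit 0)) (P (nat_lit 65373264351297536))))))) (T.h (T.h (T.h (P (nat_lit 0)) (T.h (P (nat_lit 71817996516439123818446848)) (T.h (P (nat_lit 0)) (P (nat_lit 293417813422567849984))))) (T.h (P (nat_lit 0)) (T.h (T.h (P (nat_lit 0)) (P (nat_lit 302479476523544870912))) (P (nat_lit 0))))) (T.h (T.h (P (nat_lit 0)) (T.h (T.h (P (nat_lit 1083909940175908072587264)) (T.h (P (nat_lit 0)) (M (nat_lit 531307149684015103)))) (T.h (P (nat_lit 0)) (P (nat_lit 161074343272644608))))) (T.h (T.h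 (T.h (P (nat_lit 0)) (P (nat_lit 237324560957846847488))) (P (nat_lit 0))) (T.h (T.h (P (nat_lit 0)) (M (nat_lit 695645357607747583))) (P (nat_lit 0))))))), (T.h (T.h (P (nat_lit 0)) (T.h (P (nat_lit 0)) (T.h (T.h (P (nat_lit 0)) (T.h (P (nat_lit 229802207741922164867072)) (T.h (P (nat_lit 0)) (M (nat_lit 22127818777952255))))) (T.h (P (nat_lit 0)) (T.h (T.h (P (nat_lit 0)) (M (nat_lit 123896944162209791))) (P (nat_lit 0))))))) (T.h (T.h (P (nat_lit 0)) (T.h (P (nat_lit 0)) (T.h (P (nat_lit 0)) (P (nat_lit 445702546010314637312))))) (T.h (T.h (T.h (P (nat_lit 0)) (T.h (M (nat_lit 229802207741922164867071)) (T.h (P (nat_lit 0)) (P (nat_lit 22127818777952256))))) (P (nat_lit 0))) (T.h (T.h (P (nat_lit 0)) (M (nat_lit 445702546010314637311))) (T.h (T.h (T.h (P (nat_lit 0)) (P (nat_lit 123896944162209792))) (P (nat_lit 0))) (P (nat_lit 0)))))))]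
def lP12_49 : List (T ℤ) := [(T.h (T.h (T.h (P (nat_lit 90041645070864497468254453760)) (T.h (P (nat_lit 0)) (T.h (M (nat_lit 9814911570293775350628351)) (T.h (P (nat_lit 0)) (T.h (P (nat_lit 10325048240973545472)) (T.h (P (nat_lit 0)) (M (nat_lit 10492294430287)))))))) (T.h (P (nat_lit 0)) (T.h (T.h (M (nat_lit 82978344281189709284114431)) (T.h (P (nat_lit 0)) (T.h (M (nat_lit 99246207615725731839)) (T.h (P (nat_lit 0)) (P (nat_lit 46870734497312)))))) (T.h (P (nat_lit 0)) (T.h (T.h (M (nat_lit 78420376951661264895)) (T.h (P (nat_lit 0)) (P (nat_lit 211605099716560)))) (T.h (P (nat_lit 0)) (M (nat_lit 100380931134879)))))))) (T.h (T.h (P (nat_lit 0)) (T.h (T.h (P (nat_lit 0)) (T.h (M (nat_lit 465666743731333762121727)) (T.h (P (nat_lit 0)) (P (nat_lit 424906803810205696))))) (T.h (P (nat_lit 0)) (T.h (T.h (P (nat_lit 0)) (P (nat_lit 536079415609098240))) (P (nat_lit 0)))))) (T.h (T.h (T.h (M (nat_lit 74297551689310308902371327)) (T.h (P (nat_lit 0))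 (T.h (P (nat_lit 341679502975320457216)) (T.h (P (nat_lit 0)) (P (nat_lit 45874032146976)))))) (T.h (P (nat_lit 0)) (T.h (T.h (P (nat_lit 185568451651652550656)) (T.h (P (nat_lit 0)) (M (nat_lit 1201170315836127)))) (T.h (P (nat_lit 0)) (P (nat_lit 227616305269056)))))) (T.h (T.h (P (nat_lit 0)) (T.h (T.h (P (nat_lit 0)) (M (nat_lit 1348142103835803647))) (P (nat_lit 0)))) (T.h (T.h (T.h (P (nat_lit 336412622550833561600)) (T.h (P (nat_lit 0)) (M (nat_lit 311887139930959)))) (T.h (P (nat_lit 0)) (M (nat_lit 1548465693749039)))) (T.h (P (nat_lit 0)) (M (nat_lit 499469368768831)))))))), (T.h (T.h (T.h (P (nat_lit 0)) (T.h (P (nat_lit 12264306295860865433992167424)) (T.h (P (nat_lit 0)) (T.h (M (nat_lit 38351697694890571857919)) (T.h (P (nat_lit 0)) (P (nat_lit 22986133075853312))))))) (T.h (P (nat_lit 0)) (T.h (T.h (P (nat_lit 0)) (T.h (M (nat_lit 126715159606584970051583)) (T.h (P (nat_lit 0)) (P (nat_lit 95609950710071296))))) (T.h (P (nat_lit 0)) (T.h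 (T.h (P (nat_lit 0)) (M (nat_lit 250273072803250175))) (P (nat_lit 0))))))) (T.h (T.h (P (nat_lit 0)) (T.h (T.h (P (nat_lit 178450648329772352166428672)) (T.h (P (nat_lit 0)) (M (nat_lit 632434394254251393023)))) (T.h (P (nat_lit 0)) (P (nat_lit 312703088898592473088))))) (T.h (T.h (T.h (P (nat_lit 0)) (T.h (P (nat_lit 72151306072020993703936)) (T.h (P (nat_lit 0)) (P (nat_lit 12011030252027904))))) (T.h (P (nat_lit 0)) (T.h (T.h (P (nat_lit 0)) (P (nat_lit 329315656024653824))) (P (nat_lit 0))))) (T.h (T.h (P (nat_lit 0)) (P (nat_lit 468182160841962946560))) (T.h (T.h (T.h (P (nat_lit 0)) (M (nat_lit 353876310217654271))) (P (nat_lit 0))) (P (nat_lit 0))))))), (P (nat_lit 0)), (T.h (T.h (P (nat_lit 0)) (T.h (T.h (P (nat_lit 37495071686497208421731794944)) (T.h (P (nat_lit 0)) (T.h (P (nat_lit 16057378342646109437952)) (T.h (P (nat_lit 0)) (P (nat_lit 26770372925128704)))))) (T.h (P (nat_lit 0)) (T.h (T.h (M (nat_lit 138571131412666097074175)) (T.h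 (P (nat_lit 0)) (M (nat_lit 255022184546467839)))) (T.h (P (nat_lit 0)) (P (nat_lit 207322856984576000))))))) (T.h (T.h (T.h (P (nat_lit 0)) (T.h (M (nat_lit 8530470887322473985998847)) (T.h (P (nat_lit 0)) (P (nat_lit 11526735466153902080))))) (T.h (P (nat_lit 0)) (T.h (T.h (P (nat_lit 0)) (M (nat_lit 394182288451529867263))) (P (nat_lit 0))))) (T.h (T.h (P (nat_lit 0)) (T.h (T.h (M (nat_lit 426842702168290282700799)) (T.h (P (nat_lit 0)) (P (nat_lit 154969859478683648)))) (T.h (P (nat_lit 0)) (P (nat_lit 813225388758859776))))) (T.h (T.h (T.h (P (nat_lit 0)) (P (nat_lit 124755095903367331840))) (P (nat_lit 0))) (T.h (T.h (P (nat_lit 0)) (P (nat_lit 1052533473347338240))) (P (nat_lit 0))))))), (P (nat_lit 0)), (P (nat_lit 0)), (P (nat_lit 0)), (T.h (T.h (T.h (P (nat_lit 180042904463567493730641379328)) (T.h (P (nat_lit 0)) (T.h (P (nat_lit 1556834313162951344783360)) (T.h (P (nat_lit 0)) (T.h (M (nat_lit 1763483927068016639)) (T.h (P (nat_lit 0)) (M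 (nat_lit 2414548813175)))))))) (T.h (P (nat_lit 0)) (T.h (T.h (P (nat_lit 3599552365930501812256768)) (T.h (P (nat_lit 0)) (T.h (P (nat_lit 8553049217306722304)) (T.h (P (nat_lit 0)) (M (nat_lit 76900174055)))))) (T.h (P (nat_lit 0)) (T.h (T.h (M (nat_lit 2427450257295015935)) (T.h (P (nat_lit 0)) (P (nat_lit 25839249071416)))) (T.h (P (nat_lit 0)) (P (nat_lit 6659018157896)))))))) (T.h (T.h (P (nat_lit 0)) (T.h (T.h (P (nat_lit 0)) (T.h (P (nat_lit 29521306751057308680192)) (T.h (P (nat_lit 0)) (M (nat_lit 12287555236429823))))) (T.h (P (nat_lit 0)) (T.h (T.h (P (nat_lit 0)) (P (nat_lit 10851863430365184))) (P (nat_lit 0)))))) (T.h (T.h (T.h (P (nat_lit 50604608501043118359969792)) (T.h (P (nat_lit 0)) (T.h (P (nat_lit 78066595520508329984)) (T.h (P (nat_lit 0)) (M (nat_lit 20783046736223)))))) (T.h (P (nat_lit 0)) (T.h (T.h (M (nat_lit 2880407971274162175)) (T.h (P (nat_lit 0)) (P (nat_lit 28363925486960)))) (T.h (P (nat_lit 0)) (P (nat_lit 7555580463960))))))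 (T.h (T.h (P (nat_lit 0)) (T.h (T.h (P (nat_lit 0)) (M (nat_lit 200811651344203775))) (P (nat_lit 0)))) (T.h (T.h (T.h (P (nat_lit 85682156982044196864)) (T.h (P (nat_lit 0)) (M (nat_lit 61034241029903)))) (T.h (P (nat_lit 0)) (P (nat_lit 395213530558840)))) (T.h (P (nat_lit 0)) (P (nat_lit 66258382959480))))))))]
def lP12_50 : List (T ℤ) := [(P (nat_lit 0)), (T.h (T.h (T.h (P (nat_lit 16449162197485303338253328318464)) (T.h (P (nat_lit 0)) (T.h (P (nat_lit 5464030832497061768724480)) (T.h (P (nat_lit 0)) (P (nat_lit 205307572078552023040)))))) (T.h (P (nat_lit 0)) (T.h (T.h (M (nat_lit 443165057008358769295359)) (T.h (P (nat_lit 0)) (M (nat_lit 145840537392969154559)))) (T.h (P (nat_lit 0)) (P (nat_lit 19646369320994340864)))))) (T.h (T.h (P (nat_lit 0)) (T.h (T.h (P (nat_lit 0)) (T.h (M (nat_lit 461863613200988370894847)) (T.h (P (nat_lit 0)) (P (nat_lit 214890965299888128))))) (T.h (P (nat_lit 0)) (T.h (T.h (P (nat_lit 0)) (P (nat_lit 281468945639669760)))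 (P (nat_lit 0)))))) (T.h (T.h (T.h (M (nat_lit 40386467642515883915476991)) (T.h (P (nat_lit 0)) (P (nat_lit 25129399231289753600)))) (T.h (P (nat_lit 0)) (M (nat_lit 384191862864330358783)))) (T.h (T.h (P (nat_lit 0)) (T.h (T.h (P (nat_lit 0)) (P (nat_lit 1796460319972524032))) (P (nat_lit 0)))) (P (nat_lit 840967085421632684032)))))), (P (nat_lit 0)), (P (nat_lit 0)), (P (nat_lit 0)), (T.h (T.h (P (nat_lit 0)) (T.h (T.h (P (nat_lit 0)) (T.h (M (nat_lit 1304972215370114756771839)) (T.h (P (nat_lit 0)) (T.h (M (nat_lit 3699187471561523199)) (T.h (P (nat_lit 0)) (P (nat_lit 31089251447152))))))) (T.h (P (nat_lit 0)) (T.h (T.h (P (nat_lit 0)) (T.h (M (nat_lit 3699187471561523199)) (T.h (P (nat_lit 0)) (P (nat_lit 68188074724128))))) (T.h (P (nat_lit 0)) (T.h (T.h (P (nat_lit 0)) (P (nat_lit 31089251447152))) (P (nat_lit 0)))))))) (T.h (T.h (T.h (P (nat_lit 7590287834541325380168450048)) (T.h (P (nat_lit 0)) (T.h (M (nat_lit 11923034333087719751679)) (T.h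 (P (nat_lit 0)) (P (nat_lit 15734415951200256)))))) (T.h (P (nat_lit 0)) (T.h (T.h (M (nat_lit 11923034333087719751679)) (T.h (P (nat_lit 0)) (P (nat_lit 60932238052687872)))) (T.h (P (nat_lit 0)) (P (nat_lit 15734415951200256)))))) (T.h (T.h (P (nat_lit 0)) (T.h (T.h (P (nat_lit 0)) (T.h (M (nat_lit 40886661922934489087)) (T.h (P (nat_lit 0)) (M (nat_lit 15086314272991))))) (T.h (P (nat_lit 0)) (T.h (T.h (P (nat_lit 0)) (M (nat_lit 15086314272991))) (P (nat_lit 0)))))) (T.h (T.h (T.h (M (nat_lit 177478200507758744174591)) (T.h (P (nat_lit 0)) (M (nat_lit 68943243485773823)))) (T.h (P (nat_lit 0)) (M (nat_lit 68943243485773823)))) (T.h (T.h (P (nat_lit 0)) (T.h (T.h (P (nat_lit 0)) (M (nat_lit 178267174447775))) (P (nat_lit 0)))) (M (nat_lit 304361785710477311))))))), (T.h (T.h (P (nat_lit 0)) (T.h (T.h (P (nat_lit 825243808494547520458850304)) (T.h (P (nat_lit 0)) (T.h (M (nat_lit 4538456619322401882111)) (T.h (P (nat_lit 0)) (P (nat_lit 1673160524251136))))))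 (T.h (P (nat_lit 0)) (T.h (T.h (P (nat_lit 452590592553853648896)) (T.h (P (nat_lit 0)) (M (nat_lit 18297077188886527)))) (T.h (P (nat_lit 0)) (P (nat_lit 2367037161553920))))))) (T.h (T.h (T.h (P (nat_lit 0)) (T.h (M (nat_lit 3746786908111961168281599)) (T.h (P (nat_lit 0)) (T.h (P (nat_lit 21421683604952449024)) (T.h (P (nat_lit 0)) (P (nat_lit 7351350546784))))))) (T.h (P (nat_lit 0)) (T.h (T.h (P (nat_lit 0)) (T.h (P (nat_lit 6725667058576523264)) (T.h (P (nat_lit 0)) (M (nat_lit 4256921589567))))) (T.h (P (nat_lit 0)) (T.h (T.h (P (nat_lit 0)) (M (nat_lit 14115448294655))) (P (nat_lit 0))))))) (T.h (T.h (P (nat_lit 0)) (T.h (T.h (M (nat_lit 26344594233526511992831)) (T.h (P (nat_lit 0)) (M (nat_lit 9636131581935615)))) (T.h (P (nat_lit 0)) (M (nat_lit 39437525538734079))))) (T.h (T.h (T.h (P (nat_lit 0)) (T.h (P (nat_lit 150605351395472179200)) (T.h (P (nat_lit 0)) (M (nat_lit 29896136530671))))) (T.h (P (nat_lit 0)) (T.h (T.h (P (nat_lit 0)) (P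 (nat_lit 20853968390928))) (P (nat_lit 0))))) (T.h (T.h (P (nat_lit 0)) (M (nat_lit 391640158868422655))) (T.h (T.h (T.h (P (nat_lit 0)) (P (nat_lit 126624751875824))) (P (nat_lit 0))) (P (nat_lit 0)))))))), (T.h (T.h (P (nat_lit 0)) (T.h (T.h (P (nat_lit 0)) (T.h (P (nat_lit 10351856800466127799975936)) (T.h (P (nat_lit 0)) (T.h (M (nat_lit 48932516271352709119)) (T.h (P (nat_lit 0)) (M (nat_lit 26922678205119))))))) (T.h (P (nat_lit 0)) (T.h (T.h (P (nat_lit 0)) (T.h (P (nat_lit 70334241311121473536)) (T.h (P (nat_lit 0)) (M (nat_lit 52855227214911))))) (T.h (P (nat_lit 0)) (T.h (T.h (P (nat_lit 0)) (M (nat_lit 13089198389183))) (P (nat_lit 0)))))))) (T.h (T.h (T.h (M (nat_lit 23273197702744280539760427007)) (T.h (P (nat_lit 0)) (T.h (P (nat_lit 70130027659495424917504)) (T.h (P (nat_lit 0)) (P (nat_lit 97435565712539648)))))) (T.h (P (nat_lit 0)) (T.h (T.h (P (nat_lit 119617915231310331248640)) (T.h (P (nat_lit 0)) (M (nat_lit 674618832854581247))))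 (T.h (P (nat_lit 0)) (M (nat_lit 83816688557096959)))))) (T.h (T.h (P (nat_lit 0)) (T.h (T.h (P (nat_lit 0)) (T.h (M (nat_lit 500919571194748862463)) (T.h (P (nat_lit 0)) (P (nat_lit 82499058864512))))) (T.h (P (nat_lit 0)) (T.h (T.h (P (nat_lit 0)) (P (nat_lit 86144119924352))) (P (nat_lit 0)))))) (T.h (T.h (T.h (P (nat_lit 446994634727954533318656)) (T.h (P (nat_lit 0)) (M (nat_lit 671168301678395391)))) (T.h (P (nat_lit 0)) (P (nat_lit 592073204296450048)))) (T.h (T.h (P (nat_lit 0)) (T.h (T.h (P (nat_lit 0)) (M (nat_lit 46655458843455))) (P (nat_lit 0)))) (M (nat_lit 681890476189810687)))))))]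
def lP12_51 : List (T ℤ) := [(T.h (T.h (P (nat_lit 0)) (T.h (T.h (P (nat_lit 15233738752004595955919749120)) (T.h (P (nat_lit 0)) (T.h (M (nat_lit 50588246820526462337023)) (T.h (P (nat_lit 0)) (P (nat_lit 37657315048210432)))))) (T.h (P (nat_lit 0)) (T.h (T.h (M (nat_lit 21694648982052280467455)) (T.h (P (nat_lit 0)) (P (nat_lit 153507077665947648)))) (T.h (P (nat_lit 0)) (M (nat_lit 8026129388699647))))))) (T.h (T.h (T.h (P (nat_lit 0)) (T.h (M (nat_lit 80905210978061627915501567)) (T.h (P (nat_lit 0)) (T.h (P (nat_lit 104709661005493305344)) (T.h (P (nat_lit 0)) (P (nat_lit 9843633707952))))))) (T.h (P (nat_lit 0)) (T.h (T.h (P (nat_lit 0)) (T.h (P (nat_lit 180384892735593644032)) (T.h (P (nat_lit 0)) (M (nat_lit 153951304182895))))) (T.h (P (nat_lit 0)) (T.h (T.h (P (nat_lit 0)) (M (nat_lit 46938132056991))) (P (nat_lit 0))))))) (T.h (T.h (P (nat_lit 0)) (T.h (T.h (M (nat_lit 190912665759102877564927)) (T.h (P (nat_lit 0)) (M (nat_lit 481125668614946815))))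 (T.h (P (nat_lit 0)) (P (nat_lit 117065434944339968))))) (T.h (T.h (T.h (P (nat_lit 0)) (T.h (P (nat_lit 966498054002410782720)) (T.h (P (nat_lit 0)) (M (nat_lit 40807260833679))))) (T.h (P (nat_lit 0)) (T.h (T.h (P (nat_lit 0)) (M (nat_lit 160765879742335))) (P (nat_lit 0))))) (T.h (T.h (P (nat_lit 0)) (M (nat_lit 59401021968924671))) (T.h (T.h (T.h (P (nat_lit 0)) (M (nat_lit 202010613196303))) (P (nat_lit 0))) (P (nat_lit 0)))))))), (T.h (T.h (P (nat_lit 0)) (T.h (T.h (P (nat_lit 0)) (T.h (P (nat_lit 104213714518363397557321728)) (T.h (P (nat_lit 0)) (M (nat_lit 18889754215679262719))))) (T.h (P (nat_lit 0)) (T.h (T.h (P (nat_lit 0)) (M (nat_lit 99944006815716474879))) (P (nat_lit 0)))))) (T.h (T.h (T.h (P (nat_lit 23189883887025830961654792192)) (T.h (P (nat_lit 0)) (T.h (M (nat_lit 33956056854755006218239)) (T.h (P (nat_lit 0)) (M (nat_lit 93919563231952895)))))) (T.h (P (nat_lit 0)) (T.h (T.h (M (nat_lit 87515735663265416478719)) (T.h (P (nat_lit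 0)) (P (nat_lit 533260947869499392)))) (T.h (P (nat_lit 0)) (M (nat_lit 8342794656481279)))))) (T.h (T.h (P (nat_lit 0)) (T.h (T.h (P (nat_lit 0)) (P (nat_lit 571332830943741214720))) (P (nat_lit 0)))) (T.h (T.h (T.h (M (nat_lit 243099935357513639133183)) (T.h (P (nat_lit 0)) (P (nat_lit 1175977343068569600)))) (T.h (P (nat_lit 0)) (P (nat_lit 262202542911520768)))) (T.h (P (nat_lit 0)) (P (nat_lit 595563394477948928))))))), (T.h (T.h (T.h (P (nat_lit 180042904463567493730641379328)) (T.h (P (nat_lit 0)) (T.h (P (nat_lit 3599552365930501812256768)) (T.h (P (nat_lit 0)) (T.h (M (nat_lit 2427450257295015935)) (T.h (P (nat_lit 0)) (P (nat_lit 6659018157896)))))))) (T.h (P (nat_lit 0)) (T.h (T.h (P (nat_lit 1556834313162951344783360)) (T.h (P (nat_lit 0)) (T.h (P (nat_lit 8553049217306722304)) (T.h (P (nat_lit 0)) (P (nat_lit 25839249071416)))))) (T.h (P (nat_lit 0)) (T.h (T.h (M (nat_lit 1763483927068016639)) (T.h (P (nat_lit 0)) (M (nat_lit 76900174055))))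 (T.h (P (nat_lit 0)) (M (nat_lit 2414548813175)))))))) (T.h (T.h (P (nat_lit 0)) (T.h (T.h (P (nat_lit 0)) (T.h (P (nat_lit 29521306751057308680192)) (T.h (P (nat_lit 0)) (P (nat_lit 10851863430365184))))) (T.h (P (nat_lit 0)) (T.h (T.h (P (nat_lit 0)) (M (nat_lit 12287555236429823))) (P (nat_lit 0)))))) (T.h (T.h (T.h (P (nat_lit 50604608501043118359969792)) (T.h (P (nat_lit 0)) (T.h (M (nat_lit 2880407971274162175)) (T.h (P (nat_lit 0)) (P (nat_lit 7555580463960)))))) (T.h (P (nat_lit 0)) (T.h (T.h (P (nat_lit 78066595520508329984)) (T.h (P (nat_lit 0)) (P (nat_lit 28363925486960)))) (T.h (P (nat_lit 0)) (M (nat_lit 20783046736223)))))) (T.h (T.h (P (nat_lit 0)) (T.h (T.h (P (nat_lit 0)) (M (nat_lit 200811651344203775))) (P (nat_lit 0)))) (T.h (T.h (T.h (P (nat_lit 85682156982044196864)) (T.h (P (nat_lit 0)) (P (nat_lit 395213530558840)))) (T.h (P (nat_lit 0)) (M (nat_lit 61034241029903)))) (T.h (P (nat_lit 0)) (P (nat_lit 66258382959480)))))))),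 (T.h (T.h (T.h (P (nat_lit 0)) (T.h (P (nat_lit 825243808494547520458850304)) (T.h (P (nat_lit 0)) (T.h (P (nat_lit 452590592553853648896)) (T.h (P (nat_lit 0)) (P (nat_lit 2367037161553920))))))) (T.h (P (nat_lit 0)) (T.h (T.h (P (nat_lit 0)) (T.h (M (nat_lit 4538456619322401882111)) (T.h (P (nat_lit 0)) (M (nat_lit 18297077188886527))))) (T.h (P (nat_lit 0)) (T.h (T.h (P (nat_lit 0)) (P (nat_lit 1673160524251136))) (P (nat_lit 0))))))) (T.h (T.h (P (nat_lit 0)) (T.h (T.h (M (nat_lit 3746786908111961168281599)) (T.h (P (nat_lit 0)) (T.h (P (nat_lit 6725667058576523264)) (T.h (P (nat_lit 0)) (M (nat_lit 14115448294655)))))) (T.h (P (nat_lit 0)) (T.h (T.h (P (nat_lit 21421683604952449024)) (T.h (P (nat_lit 0)) (M (nat_lit 4256921589567)))) (T.h (P (nat_lit 0)) (P (nat_lit 7351350546784))))))) (T.h (T.h (T.h (P (nat_lit 0)) (T.h (M (nat_lit 26344594233526511992831)) (T.h (P (nat_lit 0)) (M (nat_lit 39437525538734079))))) (T.h (P (nat_lit 0)) (T.h (T.h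 (P (nat_lit 0)) (M (nat_lit 9636131581935615))) (P (nat_lit 0))))) (T.h (T.h (P (nat_lit 0)) (T.h (T.h (P (nat_lit 150605351395472179200)) (T.h (P (nat_lit 0)) (P (nat_lit 20853968390928)))) (T.h (P (nat_lit 0)) (M (nat_lit 29896136530671))))) (T.h (T.h (T.h (P (nat_lit 0)) (M (nat_lit 391640158868422655))) (P (nat_lit 0))) (T.h (T.h (P (nat_lit 0)) (P (nat_lit 126624751875824))) (P (nat_lit 0)))))))), (T.h (T.h (T.h (P (nat_lit 13851944501135734235619523559424)) (T.h (P (nat_lit 0)) (T.h (M (nat_lit 57098836104487317098463231)) (T.h (P (nat_lit 0)) (T.h (P (nat_lit 117572627756912476160)) (T.h (P (nat_lit 0)) (M (nat_lit 33585842871871)))))))) (T.h (P (nat_lit 0)) (T.h (T.h (M (nat_lit 57098836104487317098463231)) (T.h (P (nat_lit 0)) (T.h (P (nat_lit 61534072153690865664)) (T.h (P (nat_lit 0)) (M (nat_lit 49145268336255)))))) (T.h (P (nat_lit 0)) (T.h (T.h (P (nat_lit 117572627756912476160)) (T.h (P (nat_lit 0)) (M (nat_lit 49145268336255)))) (T.h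 (P (nat_lit 0)) (M (nat_lit 33585842871871)))))))) (T.h (T.h (P (nat_lit 0)) (T.h (T.h (P (nat_lit 0)) (T.h (M (nat_lit 88271311702532514906111)) (T.h (P (nat_lit 0)) (P (nat_lit 297925906222088192))))) (T.h (P (nat_lit 0)) (T.h (T.h (P (nat_lit 0)) (P (nat_lit 297925906222088192))) (P (nat_lit 0)))))) (T.h (T.h (T.h (M (nat_lit 68641747342368358866616319)) (T.h (P (nat_lit 0)) (T.h (P (nat_lit 270731096315610005504)) (T.h (P (nat_lit 0)) (P (nat_lit 87479027713152)))))) (T.h (P (nat_lit 0)) (T.h (T.h (P (nat_lit 270731096315610005504)) (T.h (P (nat_lit 0)) (M (nat_lit 190117580289279)))) (T.h (P (nat_lit 0)) (P (nat_lit 87479027713152)))))) (T.h (T.h (P (nat_lit 0)) (T.h (T.h (P (nat_lit 0)) (M (nat_lit 1268037429653143551))) (P (nat_lit 0)))) (T.h (T.h (T.h (M (nat_lit 1846961498366123442175)) (T.h (P (nat_lit 0)) (P (nat_lit 25220496191936)))) (T.h (P (nat_lit 0)) (P (nat_lit 25220496191936)))) (T.h (P (nat_lit 0)) (M (nat_lit 259896371934719)))))))),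 (T.h (T.h (T.h (P (nat_lit 0)) (T.h (P (nat_lit 22056385171391749620211122176)) (T.h (P (nat_lit 0)) (T.h (M (nat_lit 61689989667755156045823)) (T.h (P (nat_lit 0)) (P (nat_lit 96786791661895680))))))) (T.h (P (nat_lit 0)) (T.h (T.h (P (nat_lit 0)) (T.h (P (nat_lit 24522684844148118257664)) (T.h (P (nat_lit 0)) (P (nat_lit 61005692873162752))))) (T.h (P (nat_lit 0)) (T.h (T.h (P (nat_lit 0)) (P (nat_lit 99933179538800640))) (P (nat_lit 0))))))) (T.h (T.h (P (nat_lit 0)) (T.h (T.h (P (nat_lit 52630575178557683830620160)) (T.h (P (nat_lit 0)) (T.h (P (nat_lit 112460165131284774912)) (T.h (P (nat_lit 0)) (P (nat_lit 53051936705152)))))) (T.h (P (nat_lit 0)) (T.h (T.h (P (nat_lit 30487834188759171072)) (T.h (P (nat_lit 0)) (M (nat_lit 58086204154527)))) (T.h (P (nat_lit 0)) (P (nat_lit 56760557853824))))))) (T.h (T.h (T.h (P (nat_lit 0)) (T.h (M (nat_lit 25702737167881122873343)) (T.h (P (nat_lit 0)) (P (nat_lit 327098498796929024))))) (T.h (P (nat_lit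 0)) (T.h (T.h (P (nat_lit 0)) (P (nat_lit 209679305862021120))) (P (nat_lit 0))))) (T.h (T.h (P (nat_lit 0)) (T.h (T.h (P (nat_lit 246123919164382904320)) (T.h (P (nat_lit 0)) (P (nat_lit 357255833203280)))) (T.h (P (nat_lit 0)) (P (nat_lit 186187917737008))))) (T.h (T.h (T.h (P (nat_lit 0)) (M (nat_lit 2349252942460698623))) (P (nat_lit 0))) (T.h (T.h (P (nat_lit 0)) (P (nat_lit 323965957366480))) (P (nat_lit 0)))))))), (T.h (T.h (T.h (M (nat_lit 16610131237050969157222881296383)) (T.h (P (nat_lit 0)) (T.h (P (nat_lit 78577746382943512002822144)) (T.h (P (nat_lit 0)) (M (nat_lit 44363430733904084991)))))) (T.h (P (nat_lit 0)) (T.h (T.h (M (nat_lit 12159185391653889647837183)) (T.h (P (nat_lit 0)) (M (nat_lit 26916983604714143743)))) (T.h (P (nat_lit 0)) (M (nat_lit 8542965040104341503)))))) (T.h (T.h (P (nat_lit 0)) (T.h (T.h (P (nat_lit 0)) (T.h (P (nat_lit 170774383045035088150528)) (T.h (P (nat_lit 0)) (M (nat_lit 116902649026969599))))) (T.h (P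 (nat_lit 0)) (T.h (T.h (P (nat_lit 0)) (P (nat_lit 7959988333117440))) (P (nat_lit 0)))))) (T.h (T.h (T.h (M (nat_lit 23126752110161750401220607)) (T.h (P (nat_lit 0)) (P (nat_lit 254876444120481529856)))) (T.h (P (nat_lit 0)) (M (nat_lit 12886189783738482687)))) (T.h (T.h (P (nat_lit 0)) (T.h (T.h (P (nat_lit 0)) (M (nat_lit 1474979290622656511))) (P (nat_lit 0)))) (P (nat_lit 118912105825926381568)))))), (P (nat_lit 0))]
def lP12_52 : List (T ℤ) := [(T.h (T.h (P (nat_lit 0)) (T.h (T.h (P (nat_lit 0)) (T.h (P (nat_lit 10351856800466127799975936)) (T.h (P (nat_lit 0)) (T.h (P (nat_lit 70334241311121473536)) (T.h (P (nat_lit 0)) (M (nat_lit 13089198389183))))))) (T.h (P (nat_lit 0)) (T.h (T.h (P (nat_lit 0)) (T.h (M (nat_lit 48932516271352709119)) (T.h (P (nat_lit 0)) (M (nat_lit 52855227214911))))) (T.h (P (nat_lit 0)) (T.h (T.h (P (nat_lit 0)) (M (nat_lit 26922678205119))) (P (nat_lit 0)))))))) (T.h (T.h (T.h (M (nat_lit 23273197702744280539760427007))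 (T.h (P (nat_lit 0)) (T.h (P (nat_lit 119617915231310331248640)) (T.h (P (nat_lit 0)) (M (nat_lit 83816688557096959)))))) (T.h (P (nat_lit 0)) (T.h (T.h (P (nat_lit 70130027659495424917504)) (T.h (P (nat_lit 0)) (M (nat_lit 674618832854581247)))) (T.h (P (nat_lit 0)) (P (nat_lit 97435565712539648)))))) (T.h (T.h (P (nat_lit 0)) (T.h (T.h (P (nat_lit 0)) (T.h (M (nat_lit 500919571194748862463)) (T.h (P (nat_lit 0)) (P (nat_lit 86144119924352))))) (T.h (P (nat_lit 0)) (T.h (T.h (P (nat_lit 0)) (P (nat_lit 82499058864512))) (P (nat_lit 0)))))) (T.h (T.h (T.h (P (nat_lit 446994634727954533318656)) (T.h (P (nat_lit 0)) (P (nat_lit 592073204296450048)))) (T.h (P (nat_lit 0)) (M (nat_lit 671168301678395391)))) (T.h (T.h (P (nat_lit 0)) (T.h (T.h (P (nat_lit 0)) (M (nat_lit 46655458843455))) (P (nat_lit 0)))) (M (nat_lit 681890476189810687))))))), (T.h (T.h (P (nat_lit 0)) (T.h (T.h (P (nat_lit 22056385171391749620211122176)) (T.h (P (nat_lit 0)) (T.h (P (nat_lit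 24522684844148118257664)) (T.h (P (nat_lit 0)) (P (nat_lit 99933179538800640)))))) (T.h (P (nat_lit 0)) (T.h (T.h (M (nat_lit 61689989667755156045823)) (T.h (P (nat_lit 0)) (P (nat_lit 61005692873162752)))) (T.h (P (nat_lit 0)) (P (nat_lit 96786791661895680))))))) (T.h (T.h (T.h (P (nat_lit 0)) (T.h (P (nat_lit 52630575178557683830620160)) (T.h (P (nat_lit 0)) (T.h (P (nat_lit 30487834188759171072)) (T.h (P (nat_lit 0)) (P (nat_lit 56760557853824))))))) (T.h (P (nat_lit 0)) (T.h (T.h (P (nat_lit 0)) (T.h (P (nat_lit 112460165131284774912)) (T.h (P (nat_lit 0)) (M (nat_lit 58086204154527))))) (T.h (P (nat_lit 0)) (T.h (T.h (P (nat_lit 0)) (P (nat_lit 53051936705152))) (P (nat_lit 0))))))) (T.h (T.h (P (nat_lit 0)) (T.h (T.h (M (nat_lit 25702737167881122873343)) (T.h (P (nat_lit 0)) (P (nat_lit 209679305862021120)))) (T.h (P (nat_lit 0)) (P (nat_lit 327098498796929024))))) (T.h (T.h (T.h (P (nat_lit 0)) (T.h (P (nat_lit 246123919164382904320)) (T.h (P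 (nat_lit 0)) (P (nat_lit 186187917737008))))) (T.h (P (nat_lit 0)) (T.h (T.h (P (nat_lit 0)) (P (nat_lit 357255833203280))) (P (nat_lit 0))))) (T.h (T.h (P (nat_lit 0)) (M (nat_lit 2349252942460698623))) (T.h (T.h (T.h (P (nat_lit 0)) (P (nat_lit 323965957366480))) (P (nat_lit 0))) (P (nat_lit 0)))))))), (T.h (T.h (P (nat_lit 0)) (T.h (T.h (P (nat_lit 0)) (T.h (M (nat_lit 101656164803558409808904191)) (T.h (P (nat_lit 0)) (P (nat_lit 28898813761829208064))))) (T.h (P (nat_lit 0)) (T.h (T.h (P (nat_lit 0)) (P (nat_lit 28898813761829208064))) (P (nat_lit 0)))))) (T.h (T.h (T.h (M (nat_lit 29376288194465710613708406783)) (T.h (P (nat_lit 0)) (T.h (P (nat_lit 286482203539050432823296)) (T.h (P (nat_lit 0)) (M (nat_lit 5606270613454847)))))) (T.h (P (nat_lit 0)) (T.h (T.h (P (nat_lit 286482203539050432823296)) (T.h (P (nat_lit 0)) (M (nat_lit 510769333716254719)))) (T.h (P (nat_lit 0)) (M (nat_lit 5606270613454847)))))) (T.h (T.h (P (nat_lit 0)) (T.h (T.h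 (P (nat_lit 0)) (P (nat_lit 369651032577932263424))) (P (nat_lit 0)))) (T.h (T.h (T.h (M (nat_lit 35093809422728020623359)) (T.h (P (nat_lit 0)) (M (nat_lit 215364510542790655)))) (T.h (P (nat_lit 0)) (M (nat_lit 215364510542790655)))) (T.h (P (nat_lit 0)) (M (nat_lit 488645990257197055))))))), (T.h (T.h (T.h (P (nat_lit 16449162197485303338253328318464)) (T.h (P (nat_lit 0)) (T.h (M (nat_lit 443165057008358769295359)) (T.h (P (nat_lit 0)) (P (nat_lit 19646369320994340864)))))) (T.h (P (nat_lit 0)) (T.h (T.h (P (nat_lit 5464030832497061768724480)) (T.h (P (nat_lit 0)) (M (nat_lit 145840537392969154559)))) (T.h (P (nat_lit 0)) (P (nat_lit 205307572078552023040)))))) (T.h (T.h (P (nat_lit 0)) (T.h (T.h (P (nat_lit 0)) (T.h (M (nat_lit 461863613200988370894847)) (T.h (P (nat_lit 0)) (P (nat_lit 281468945639669760))))) (T.h (P (nat_lit 0)) (T.h (T.h (P (nat_lit 0)) (P (nat_lit 214890965299888128))) (P (nat_lit 0)))))) (T.h (T.h (T.h (M (nat_lit 40386467642515883915476991))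 (T.h (P (nat_lit 0)) (M (nat_lit 384191862864330358783)))) (T.h (P (nat_lit 0)) (P (nat_lit 25129399231289753600)))) (T.h (T.h (P (nat_lit 0)) (T.h (T.h (P (nat_lit 0)) (P (nat_lit 1796460319972524032))) (P (nat_lit 0)))) (P (nat_lit 840967085421632684032)))))), (T.h (T.h (T.h (P (nat_lit 0)) (T.h (P (nat_lit 15233738752004595955919749120)) (T.h (P (nat_lit 0)) (T.h (M (nat_lit 21694648982052280467455)) (T.h (P (nat_lit 0)) (M (nat_lit 8026129388699647))))))) (T.h (P (nat_lit 0)) (T.h (T.h (P (nat_lit 0)) (T.h (M (nat_lit 50588246820526462337023)) (T.h (P (nat_lit 0)) (P (nat_lit 153507077665947648))))) (T.h (P (nat_lit 0)) (T.h (T.h (P (nat_lit 0)) (P (nat_lit 37657315048210432))) (P (nat_lit 0))))))) (T.h (T.h (P (nat_lit 0)) (T.h (T.h (M (nat_lit 80905210978061627915501567)) (T.h (P (nat_lit 0)) (T.h (P (nat_lit 180384892735593644032)) (T.h (P (nat_lit 0)) (M (nat_lit 46938132056991)))))) (T.h (P (nat_lit 0)) (T.h (T.h (P (nat_lit 104709661005493305344))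 (T.h (P (nat_lit 0)) (M (nat_lit 153951304182895)))) (T.h (P (nat_lit 0)) (P (nat_lit 9843633707952))))))) (T.h (T.h (T.h (P (nat_lit 0)) (T.h (M (nat_lit 190912665759102877564927)) (T.h (P (nat_lit 0)) (P (nat_lit 117065434944339968))))) (T.h (P (nat_lit 0)) (T.h (T.h (P (nat_lit 0)) (M (nat_lit 481125668614946815))) (P (nat_lit 0))))) (T.h (T.h (P (nat_lit 0)) (T.h (T.h (P (nat_lit 966498054002410782720)) (T.h (P (nat_lit 0)) (M (nat_lit 160765879742335)))) (T.h (P (nat_lit 0)) (M (nat_lit 40807260833679))))) (T.h (T.h (T.h (P (nat_lit 0)) (M (nat_lit 59401021968924671))) (P (nat_lit 0))) (T.h (T.h (P (nat_lit 0)) (M (nat_lit 202010613196303))) (P (nat_lit 0)))))))), (T.h (T.h (T.h (M (nat_lit 16610131237050969157222881296383)) (T.h (P (nat_lit 0)) (T.h (M (nat_lit 12159185391653889647837183)) (T.h (P (nat_lit 0)) (M (nat_lit 8542965040104341503)))))) (T.h (P (nat_lit 0)) (T.h (T.h (P (nat_lit 78577746382943512002822144)) (T.h (P (nat_lit 0)) (M (nat_lit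 26916983604714143743)))) (T.h (P (nat_lit 0)) (M (nat_lit 44363430733904084991)))))) (T.h (T.h (P (nat_lit 0)) (T.h (T.h (P (nat_lit 0)) (T.h (P (nat_lit 170774383045035088150528)) (T.h (P (nat_lit 0)) (P (nat_lit 7959988333117440))))) (T.h (P (nat_lit 0)) (T.h (T.h (P (nat_lit 0)) (M (nat_lit 116902649026969599))) (P (nat_lit 0)))))) (T.h (T.h (T.h (M (nat_lit 23126752110161750401220607)) (T.h (P (nat_lit 0)) (M (nat_lit 12886189783738482687)))) (T.h (P (nat_lit 0)) (P (nat_lit 254876444120481529856)))) (T.h (T.h (P (nat_lit 0)) (T.h (T.h (P (nat_lit 0)) (M (nat_lit 1474979290622656511))) (P (nat_lit 0)))) (P (nat_lit 118912105825926381568)))))), (P (nat_lit 0)), (T.h (T.h (P (nat_lit 0)) (T.h (T.h (P (nat_lit 0)) (T.h (P (nat_lit 104213714518363397557321728)) (T.h (P (nat_lit 0)) (M (nat_lit 99944006815716474879))))) (T.h (P (nat_lit 0)) (T.h (T.h (P (nat_lit 0)) (M (nat_lit 18889754215679262719))) (P (nat_lit 0)))))) (T.h (T.h (T.h (P (nat_lit 23189883887025830961654792192))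 (T.h (P (nat_lit 0)) (T.h (M (nat_lit 87515735663265416478719)) (T.h (P (nat_lit 0)) (M (nat_lit 8342794656481279)))))) (T.h (P (nat_lit 0)) (T.h (T.h (M (nat_lit 33956056854755006218239)) (T.h (P (nat_lit 0)) (P (nat_lit 533260947869499392)))) (T.h (P (nat_lit 0)) (M (nat_lit 93919563231952895)))))) (T.h (T.h (P (nat_lit 0)) (T.h (T.h (P (nat_lit 0)) (P (nat_lit 571332830943741214720))) (P (nat_lit 0)))) (T.h (T.h (T.h (M (nat_lit 243099935357513639133183)) (T.h (P (nat_lit 0)) (P (nat_lit 262202542911520768)))) (T.h (P (nat_lit 0)) (P (nat_lit 1175977343068569600)))) (T.h (P (nat_lit 0)) (P (nat_lit 595563394477948928)))))))]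
def lP12_53 : List (T ℤ) := [(P (nat_lit 0)), (P (nat_lit 0)), (T.h (T.h (P (nat_lit 0)) (T.h (T.h (M (nat_lit 3649062629094570669799112703)) (T.h (P (nat_lit 0)) (T.h (M (nat_lit 2165475288268054462463)) (T.h (P (nat_lit 0)) (P (nat_lit 9569694397825024)))))) (T.h (P (nat_lit 0)) (T.h (T.h (P (nat_lit 258964061077953839104)) (T.h (P (nat_lit 0)) (M (nat_lit 7285678439464959)))) (T.h (P (nat_lit 0)) (M (nat_lit 4254162820956159))))))) (T.h (T.h (T.h (P (nat_lit 0)) (T.h (M (nat_lit 11565367457890005793374207)) (T.h (P (nat_lit 0)) (T.h (M (nat_lit 7106108093892657151)) (T.h (P (nat_lit 0)) (M (nat_lit 7980084234911))))))) (T.h (P (nat_lit 0)) (T.h (T.h (P (nat_lit 0)) (T.h (M (nat_lit 2596962080376487935)) (T.h (P (nat_lit 0)) (M (nat_lit 2715933883991))))) (T.h (P (nat_lit 0)) (T.h (T.h (P (nat_lit 0)) (M (nat_lit 2057670044687))) (P (nat_lit 0))))))) (T.h (T.h (P (nat_lit 0)) (T.h (T.h (M (nat_lit 992163586264950374399)) (T.h (P (nat_lit 0)) (M (nat_lit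 72238931087392767)))) (T.h (P (nat_lit 0)) (M (nat_lit 35294015552487423))))) (T.h (T.h (T.h (P (nat_lit 0)) (T.h (P (nat_lit 15870783098141540352)) (T.h (P (nat_lit 0)) (M (nat_lit 1522944629135))))) (T.h (P (nat_lit 0)) (T.h (T.h (P (nat_lit 0)) (P (nat_lit 88219891816016))) (P (nat_lit 0))))) (T.h (T.h (P (nat_lit 0)) (P (nat_lit 6983695888580608))) (T.h (T.h (T.h (P (nat_lit 0)) (P (nat_lit 373219217599352))) (P (nat_lit 0))) (P (nat_lit 0)))))))), (P (nat_lit 0)), (T.h (T.h (P (nat_lit 0)) (T.h (T.h (M (nat_lit 6328472737027037080754061311)) (T.h (P (nat_lit 0)) (T.h (P (nat_lit 20581110294552753733632)) (T.h (P (nat_lit 0)) (M (nat_lit 42083093760966655)))))) (T.h (P (nat_lit 0)) (T.h (T.h (M (nat_lit 7825788465425294557183)) (T.h (P (nat_lit 0)) (M (nat_lit 139963102492819455)))) (T.h (P (nat_lit 0)) (M (nat_lit 12313803491115007))))))) (T.h (T.h (T.h (P (nat_lit 0)) (T.h (P (nat_lit 32711719636026981296898048)) (T.h (P (nat_lit 0)) (M (nat_lit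 156408055424987693055))))) (T.h (P (nat_lit 0)) (T.h (T.h (P (nat_lit 0)) (M (nat_lit 3572391151367356415))) (P (nat_lit 0))))) (T.h (T.h (P (nat_lit 0)) (T.h (T.h (P (nat_lit 285224894226779695218688)) (T.h (P (nat_lit 0)) (M (nat_lit 39385685907243007)))) (T.h (P (nat_lit 0)) (P (nat_lit 57500837264064512))))) (T.h (T.h (T.h (P (nat_lit 0)) (M (nat_lit 28668537624999231487))) (P (nat_lit 0))) (T.h (T.h (P (nat_lit 0)) (M (nat_lit 948271545113575423))) (P (nat_lit 0))))))), (P (nat_lit 0)), (P (nat_lit 0)), (T.h (T.h (T.h (P (nat_lit 0)) (T.h (M (nat_lit 3649062629094570669799112703)) (T.h (P (nat_lit 0)) (T.h (P (nat_lit 258964061077953839104)) (T.h (P (nat_lit 0)) (M (nat_lit 4254162820956159))))))) (T.h (P (nat_lit 0)) (T.h (T.h (P (nat_lit 0)) (T.h (M (nat_lit 2165475288268054462463)) (T.h (P (nat_lit 0)) (M (nat_lit 7285678439464959))))) (T.h (P (nat_lit 0)) (T.h (T.h (P (nat_lit 0)) (P (nat_lit 9569694397825024))) (P (nat_lit 0))))))) (T.h (T.h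 (P (nat_lit 0)) (T.h (T.h (M (nat_lit 11565367457890005793374207)) (T.h (P (nat_lit 0)) (T.h (M (nat_lit 2596962080376487935)) (T.h (P (nat_lit 0)) (M (nat_lit 2057670044687)))))) (T.h (P (nat_lit 0)) (T.h (T.h (M (nat_lit 7106108093892657151)) (T.h (P (nat_lit 0)) (M (nat_lit 2715933883991)))) (T.h (P (nat_lit 0)) (M (nat_lit 7980084234911))))))) (T.h (T.h (T.h (P (nat_lit 0)) (T.h (M (nat_lit 992163586264950374399)) (T.h (P (nat_lit 0)) (M (nat_lit 35294015552487423))))) (T.h (P (nat_lit 0)) (T.h (T.h (P (nat_lit 0)) (M (nat_lit 72238931087392767))) (P (nat_lit 0))))) (T.h (T.h (P (nat_lit 0)) (T.h (T.h (P (nat_lit 15870783098141540352)) (T.h (P (nat_lit 0)) (P (nat_lit 88219891816016)))) (T.h (P (nat_lit 0)) (M (nat_lit 1522944629135))))) (T.h (T.h (T.h (P (nat_lit 0)) (P (nat_lit 6983695888580608))) (P (nat_lit 0))) (T.h (T.h (P (nat_lit 0)) (P (nat_lit 373219217599352))) (P (nat_lit 0))))))))]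
def lP12_54 : List (T ℤ) := [(T.h (T.h (T.h (P (nat_lit 8381838962715691754272839434240)) (T.h (P (nat_lit 0)) (T.h (P (nat_lit 94354545371969910472704)) (T.h (P (nat_lit 0)) (T.h (M (nat_lit 1002665088554893311)) (T.h (P (nat_lit 0)) (M (nat_lit 165424305583)))))))) (T.h (P (nat_lit 0)) (T.h (T.h (P (nat_lit 94354545371969910472704)) (T.h (P (nat_lit 0)) (T.h (P (nat_lit 8284172608572751872)) (T.h (P (nat_lit 0)) (M (nat_lit 4239509951935)))))) (T.h (P (nat_lit 0)) (T.h (T.h (M (nat_lit 1002665088554893311)) (T.h (P (nat_lit 0)) (M (nat_lit 4239509951935)))) (T.h (P (nat_lit 0)) (M (nat_lit 165424305583)))))))) (T.h (T.h (P (nat_lit 0)) (T.h (T.h (P (nat_lit 0)) (T.h (P (nat_lit 5306139762653476683776)) (T.h (P (nat_lit 0)) (M (nat_lit 21171082134913023))))) (T.h (P (nat_lit 0)) (T.h (T.h (P (nat_lit 0)) (M (nat_lit 21171082134913023))) (P (nat_lit 0)))))) (T.h (T.h (T.h (M (nat_lit 24966769086201063159103487)) (T.h (P (nat_lit 0)) (T.h (P (nat_lit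 8545227737994887168)) (T.h (P (nat_lit 0)) (M (nat_lit 15443532767759)))))) (T.h (P (nat_lit 0)) (T.h (T.h (P (nat_lit 8545227737994887168)) (T.h (P (nat_lit 0)) (P (nat_lit 35413500645568)))) (T.h (P (nat_lit 0)) (M (nat_lit 15443532767759)))))) (T.h (T.h (P (nat_lit 0)) (T.h (T.h (P (nat_lit 0)) (M (nat_lit 8154054174244863))) (P (nat_lit 0)))) (T.h (T.h (T.h (M (nat_lit 91567307508984840191)) (T.h (P (nat_lit 0)) (P (nat_lit 28106565702272)))) (T.h (P (nat_lit 0)) (P (nat_lit 28106565702272)))) (T.h (P (nat_lit 0)) (M (nat_lit 9234645211199)))))))), (T.h (T.h (T.h (P (nat_lit 0)) (T.h (M (nat_lit 9918953625914986669021331455)) (T.h (P (nat_lit 0)) (T.h (P (nat_lit 24192770278494151114752)) (T.h (P (nat_lit 0)) (M (nat_lit 67473150631706623))))))) (T.h (P (nat_lit 0)) (T.h (T.h (P (nat_lit 0)) (T.h (M (nat_lit 10912350484453824397311)) (T.h (P (nat_lit 0)) (M (nat_lit 101677802186997759))))) (T.h (P (nat_lit 0)) (T.h (T.h (P (nat_lit 0)) (M (nat_lit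 49679340443959295))) (P (nat_lit 0))))))) (T.h (T.h (P (nat_lit 0)) (T.h (T.h (M (nat_lit 75896118393373406741397503)) (T.h (P (nat_lit 0)) (T.h (M (nat_lit 50519410659272163327)) (T.h (P (nat_lit 0)) (P (nat_lit 30400262961600)))))) (T.h (P (nat_lit 0)) (T.h (T.h (M (nat_lit 43962882213533450239)) (T.h (P (nat_lit 0)) (M (nat_lit 8555555049535)))) (T.h (P (nat_lit 0)) (P (nat_lit 5360624420992))))))) (T.h (T.h (T.h (P (nat_lit 0)) (T.h (M (nat_lit 171384876401310434328575)) (T.h (P (nat_lit 0)) (P (nat_lit 220727660628148224))))) (T.h (P (nat_lit 0)) (T.h (T.h (P (nat_lit 0)) (P (nat_lit 106320317285171200))) (P (nat_lit 0))))) (T.h (T.h (P (nat_lit 0)) (T.h (T.h (M (nat_lit 983784145127466860543)) (T.h (P (nat_lit 0)) (M (nat_lit 50830335485887)))) (T.h (P (nat_lit 0)) (P (nat_lit 62827191098304))))) (T.h (T.h (T.h (P (nat_lit 0)) (M (nat_lit 75373910741221375))) (P (nat_lit 0))) (T.h (T.h (P (nat_lit 0)) (M (nat_lit 519960225386687))) (P (nat_lit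 0)))))))), (T.h (T.h (T.h (P (nat_lit 1125191178323626060599525376000)) (T.h (P (nat_lit 0)) (T.h (P (nat_lit 12526376508625760402014208)) (T.h (P (nat_lit 0)) (T.h (M (nat_lit 9306149800544043007)) (T.h (P (nat_lit 0)) (P (nat_lit 1586148909312)))))))) (T.h (P (nat_lit 0)) (T.h (T.h (P (nat_lit 5767003101391923837927424)) (T.h (P (nat_lit 0)) (T.h (P (nat_lit 1877110365234397184)) (T.h (P (nat_lit 0)) (M (nat_lit 52667779269951)))))) (T.h (P (nat_lit 0)) (T.h (T.h (P (nat_lit 2169328327335084032)) (T.h (P (nat_lit 0)) (M (nat_lit 49126568938831)))) (T.h (P (nat_lit 0)) (P (nat_lit 3821769693456)))))))) (T.h (T.h (P (nat_lit 0)) (T.h (T.h (P (nat_lit 0)) (T.h (M (nat_lit 56440631814495246745599)) (T.h (P (nat_lit 0)) (M (nat_lit 11779929606979583))))) (T.h (P (nat_lit 0)) (T.h (T.h (P (nat_lit 0)) (M (nat_lit 115810020998676479))) (P (nat_lit 0)))))) (T.h (T.h (T.h (M (nat_lit 46278492287481778855215103)) (T.h (P (nat_lit 0)) (T.h (M (nat_lit 267369536469543682047))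 (T.h (P (nat_lit 0)) (P (nat_lit 129681242717312)))))) (T.h (P (nat_lit 0)) (T.h (T.h (M (nat_lit 217516683191390306303)) (T.h (P (nat_lit 0)) (P (nat_lit 109922351265936)))) (T.h (P (nat_lit 0)) (M (nat_lit 17832029004943)))))) (T.h (T.h (P (nat_lit 0)) (T.h (T.h (P (nat_lit 0)) (P (nat_lit 297687919684386816))) (P (nat_lit 0)))) (T.h (T.h (T.h (M (nat_lit 156129275264035192831)) (T.h (P (nat_lit 0)) (P (nat_lit 78162321228816)))) (T.h (P (nat_lit 0)) (P (nat_lit 33231154151888)))) (T.h (P (nat_lit 0)) (P (nat_lit 130481994932784)))))))), (T.h (T.h (T.h (P (nat_lit 0)) (T.h (P (nat_lit 9479945226855203678944493568)) (T.h (P (nat_lit 0)) (T.h (M (nat_lit 8055960460481364230143)) (T.h (P (nat_lit 0)) (M (nat_lit 3604578148319231))))))) (T.h (P (nat_lit 0)) (T.h (T.h (P (nat_lit 0)) (T.h (M (nat_lit 15229871120192928481279)) (T.h (P (nat_lit 0)) (P (nat_lit 67886065340547072))))) (T.h (P (nat_lit 0)) (T.h (T.h (P (nat_lit 0)) (P (nat_lit 27031974620561408)))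 (P (nat_lit 0))))))) (T.h (T.h (P (nat_lit 0)) (T.h (T.h (P (nat_lit 68480659706341009634885632)) (T.h (P (nat_lit 0)) (P (nat_lit 28561419631895511040)))) (T.h (P (nat_lit 0)) (P (nat_lit 11930534835996590080))))) (T.h (T.h (T.h (P (nat_lit 0)) (T.h (M (nat_lit 252405377024740638588927)) (T.h (P (nat_lit 0)) (M (nat_lit 73784448161644543))))) (T.h (P (nat_lit 0)) (T.h (T.h (P (nat_lit 0)) (P (nat_lit 48863964941058048))) (P (nat_lit 0))))) (T.h (T.h (P (nat_lit 0)) (M (nat_lit 76622548805082939391))) (T.h (T.h (T.h (P (nat_lit 0)) (P (nat_lit 158948710125174784))) (P (nat_lit 0))) (P (nat_lit 0))))))), (P (nat_lit 0)), (T.h (T.h (P (nat_lit 0)) (T.h (T.h (M (nat_lit 9918953625914986669021331455)) (T.h (P (nat_lit 0)) (T.h (M (nat_lit 10912350484453824397311)) (T.h (P (nat_lit 0)) (M (nat_lit 49679340443959295)))))) (T.h (P (nat_lit 0)) (T.h (T.h (P (nat_lit 24192770278494151114752)) (T.h (P (nat_lit 0)) (M (nat_lit 101677802186997759)))) (T.h (P (nat_lit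 0)) (M (nat_lit 67473150631706623))))))) (T.h (T.h (T.h (P (nat_lit 0)) (T.h (M (nat_lit 75896118393373406741397503)) (T.h (P (nat_lit 0)) (T.h (M (nat_lit 43962882213533450239)) (T.h (P (nat_lit 0)) (P (nat_lit 5360624420992))))))) (T.h (P (nat_lit 0)) (T.h (T.h (P (nat_lit 0)) (T.h (M (nat_lit 50519410659272163327)) (T.h (P (nat_lit 0)) (M (nat_lit 8555555049535))))) (T.h (P (nat_lit 0)) (T.h (T.h (P (nat_lit 0)) (P (nat_lit 30400262961600))) (P (nat_lit 0))))))) (T.h (T.h (P (nat_lit 0)) (T.h (T.h (M (nat_lit 171384876401310434328575)) (T.h (P (nat_lit 0)) (P (nat_lit 106320317285171200)))) (T.h (P (nat_lit 0)) (P (nat_lit 220727660628148224))))) (T.h (T.h (T.h (P (nat_lit 0)) (T.h (M (nat_lit 983784145127466860543)) (T.h (P (nat_lit 0)) (P (nat_lit 62827191098304))))) (T.h (P (nat_lit 0)) (T.h (T.h (P (nat_lit 0)) (M (nat_lit 50830335485887))) (P (nat_lit 0))))) (T.h (T.h (P (nat_lit 0)) (M (nat_lit 75373910741221375))) (T.h (T.h (T.h (P (nat_lit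 0)) (M (nat_lit 519960225386687))) (P (nat_lit 0))) (P (nat_lit 0)))))))), (T.h (T.h (P (nat_lit 0)) (T.h (T.h (P (nat_lit 0)) (T.h (P (nat_lit 12728157364842137498157056)) (T.h (P (nat_lit 0)) (T.h (M (nat_lit 15539825767377534975)) (T.h (P (nat_lit 0)) (M (nat_lit 53103933012239))))))) (T.h (P (nat_lit 0)) (T.h (T.h (P (nat_lit 0)) (T.h (M (nat_lit 15539825767377534975)) (T.h (P (nat_lit 0)) (P (nat_lit 1364867077376))))) (T.h (P (nat_lit 0)) (T.h (T.h (P (nat_lit 0)) (M (nat_lit 53103933012239))) (P (nat_lit 0)))))))) (T.h (T.h (T.h (P (nat_lit 17659136188694529823951814656)) (T.h (P (nat_lit 0)) (T.h (P (nat_lit 39795335775124061159424)) (T.h (P (nat_lit 0)) (M (nat_lit 99868825715032063)))))) (T.h (P (nat_lit 0)) (T.h (T.h (P (nat_lit 39795335775124061159424)) (T.h (P (nat_lit 0)) (P (nat_lit 10397342753980416)))) (T.h (P (nat_lit 0)) (M (nat_lit 99868825715032063)))))) (T.h (T.h (P (nat_lit 0)) (T.h (T.h (P (nat_lit 0)) (T.h (M (nat_lit 303699369560303992831))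 (T.h (P (nat_lit 0)) (M (nat_lit 232315348433871))))) (T.h (P (nat_lit 0)) (T.h (T.h (P (nat_lit 0)) (M (nat_lit 232315348433871))) (P (nat_lit 0)))))) (T.h (T.h (T.h (P (nat_lit 73861470267005309288448)) (T.h (P (nat_lit 0)) (M (nat_lit 78670430591942655)))) (T.h (P (nat_lit 0)) (M (nat_lit 78670430591942655)))) (T.h (T.h (P (nat_lit 0)) (T.h (T.h (P (nat_lit 0)) (M (nat_lit 170370273170943))) (P (nat_lit 0)))) (P (nat_lit 598338107407433728))))))), (T.h (T.h (P (nat_lit 0)) (T.h (T.h (M (nat_lit 3852606373610495334007439359)) (T.h (P (nat_lit 0)) (T.h (P (nat_lit 6837357369292922814464)) (T.h (P (nat_lit 0)) (P (nat_lit 59169193778446336)))))) (T.h (P (nat_lit 0)) (T.h (T.h (P (nat_lit 22505124835361908850688)) (T.h (P (nat_lit 0)) (P (nat_lit 46638150502907904)))) (T.h (P (nat_lit 0)) (M (nat_lit 4950061242613759))))))) (T.h (T.h (T.h (P (nat_lit 0)) (T.h (M (nat_lit 59607409781330600397897727)) (T.h (P (nat_lit 0)) (P (nat_lit 18434105099233001472)))))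 (T.h (P (nat_lit 0)) (T.h (T.h (P (nat_lit 0)) (P (nat_lit 114307951635558563840))) (P (nat_lit 0))))) (T.h (T.h (P (nat_lit 0)) (T.h (T.h (M (nat_lit 245447685447027747979263)) (T.h (P (nat_lit 0)) (M (nat_lit 110716026291683327)))) (T.h (P (nat_lit 0)) (M (nat_lit 47461522852282367))))) (T.h (T.h (T.h (P (nat_lit 0)) (P (nat_lit 1752441552205047136256))) (P (nat_lit 0))) (T.h (T.h (P (nat_lit 0)) (M (nat_lit 282237081034981375))) (P (nat_lit 0)))))))]
def lP12_55 : List (T ℤ) := [(T.h (T.h (T.h (P (nat_lit 0)) (T.h (M (nat_lit 6328472737027037080754061311)) (T.h (P (nat_lit 0)) (T.h (M (nat_lit 7825788465425294557183)) (T.h (P (nat_lit 0)) (M (nat_lit 12313803491115007))))))) (T.h (P (nat_lit 0)) (T.h (T.h (P (nat_lit 0)) (T.h (P (nat_lit 20581110294552753733632)) (T.h (P (nat_lit 0)) (M (nat_lit 139963102492819455))))) (T.h (P (nat_lit 0)) (T.h (T.h (P (nat_lit 0)) (M (nat_lit 42083093760966655))) (P (nat_lit 0))))))) (T.h (T.h (P (nat_lit 0)) (T.h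 (T.h (P (nat_lit 32711719636026981296898048)) (T.h (P (nat_lit 0)) (M (nat_lit 3572391151367356415)))) (T.h (P (nat_lit 0)) (M (nat_lit 156408055424987693055))))) (T.h (T.h (T.h (P (nat_lit 0)) (T.h (P (nat_lit 285224894226779695218688)) (T.h (P (nat_lit 0)) (P (nat_lit 57500837264064512))))) (T.h (P (nat_lit 0)) (T.h (T.h (P (nat_lit 0)) (M (nat_lit 39385685907243007))) (P (nat_lit 0))))) (T.h (T.h (P (nat_lit 0)) (M (nat_lit 28668537624999231487))) (T.h (T.h (T.h (P (nat_lit 0)) (M (nat_lit 948271545113575423))) (P (nat_lit 0))) (P (nat_lit 0))))))), (T.h (T.h (T.h (P (nat_lit 1125191178323626060599525376000)) (T.h (P (nat_lit 0)) (T.h (P (nat_lit 5767003101391923837927424)) (T.h (P (nat_lit 0)) (T.h (P (nat_lit 2169328327335084032)) (T.h (P (nat_lit 0)) (P (nat_lit 3821769693456)))))))) (T.h (P (nat_lit 0)) (T.h (T.h (P (nat_lit 12526376508625760402014208)) (T.h (P (nat_lit 0)) (T.h (P (nat_lit 1877110365234397184)) (T.h (P (nat_lit 0)) (M (nat_lit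 49126568938831)))))) (T.h (P (nat_lit 0)) (T.h (T.h (M (nat_lit 9306149800544043007)) (T.h (P (nat_lit 0)) (M (nat_lit 52667779269951)))) (T.h (P (nat_lit 0)) (P (nat_lit 1586148909312)))))))) (T.h (T.h (P (nat_lit 0)) (T.h (T.h (P (nat_lit 0)) (T.h (M (nat_lit 56440631814495246745599)) (T.h (P (nat_lit 0)) (M (nat_lit 115810020998676479))))) (T.h (P (nat_lit 0)) (T.h (T.h (P (nat_lit 0)) (M (nat_lit 11779929606979583))) (P (nat_lit 0)))))) (T.h (T.h (T.h (M (nat_lit 46278492287481778855215103)) (T.h (P (nat_lit 0)) (T.h (M (nat_lit 217516683191390306303)) (T.h (P (nat_lit 0)) (M (nat_lit 17832029004943)))))) (T.h (P (nat_lit 0)) (T.h (T.h (M (nat_lit 267369536469543682047)) (T.h (P (nat_lit 0)) (P (nat_lit 109922351265936)))) (T.h (P (nat_lit 0)) (P (nat_lit 129681242717312)))))) (T.h (T.h (P (nat_lit 0)) (T.h (T.h (P (nat_lit 0)) (P (nat_lit 297687919684386816))) (P (nat_lit 0)))) (T.h (T.h (T.h (M (nat_lit 156129275264035192831)) (T.h (P (nat_lit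 0)) (P (nat_lit 33231154151888)))) (T.h (P (nat_lit 0)) (P (nat_lit 78162321228816)))) (T.h (P (nat_lit 0)) (P (nat_lit 130481994932784)))))))), (T.h (T.h (T.h (P (nat_lit 0)) (T.h (M (nat_lit 3852606373610495334007439359)) (T.h (P (nat_lit 0)) (T.h (P (nat_lit 22505124835361908850688)) (T.h (P (nat_lit 0)) (M (nat_lit 4950061242613759))))))) (T.h (P (nat_lit 0)) (T.h (T.h (P (nat_lit 0)) (T.h (P (nat_lit 6837357369292922814464)) (T.h (P (nat_lit 0)) (P (nat_lit 46638150502907904))))) (T.h (P (nat_lit 0)) (T.h (T.h (P (nat_lit 0)) (P (nat_lit 59169193778446336))) (P (nat_lit 0))))))) (T.h (T.h (P (nat_lit 0)) (T.h (T.h (M (nat_lit 59607409781330600397897727)) (T.h (P (nat_lit 0)) (P (nat_lit 114307951635558563840)))) (T.h (P (nat_lit 0)) (P (nat_lit 18434105099233001472))))) (T.h (T.h (T.h (P (nat_lit 0)) (T.h (M (nat_lit 245447685447027747979263)) (T.h (P (nat_lit 0)) (M (nat_lit 47461522852282367))))) (T.h (P (nat_lit 0)) (T.h (T.h (P (nat_lit 0))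 (M (nat_lit 110716026291683327))) (P (nat_lit 0))))) (T.h (T.h (P (nat_lit 0)) (P (nat_lit 1752441552205047136256))) (T.h (T.h (T.h (P (nat_lit 0)) (M (nat_lit 282237081034981375))) (P (nat_lit 0))) (P (nat_lit 0))))))), (P (nat_lit 0)), (T.h (T.h (P (nat_lit 0)) (T.h (T.h (P (nat_lit 9479945226855203678944493568)) (T.h (P (nat_lit 0)) (T.h (M (nat_lit 15229871120192928481279)) (T.h (P (nat_lit 0)) (P (nat_lit 27031974620561408)))))) (T.h (P (nat_lit 0)) (T.h (T.h (M (nat_lit 8055960460481364230143)) (T.h (P (nat_lit 0)) (P (nat_lit 67886065340547072)))) (T.h (P (nat_lit 0)) (M (nat_lit 3604578148319231))))))) (T.h (T.h (T.h (P (nat_lit 0)) (T.h (P (nat_lit 68480659706341009634885632)) (T.h (P (nat_lit 0)) (P (nat_lit 11930534835996590080))))) (T.h (P (nat_lit 0)) (T.h (T.h (P (nat_lit 0)) (P (nat_lit 28561419631895511040))) (P (nat_lit 0))))) (T.h (T.h (P (nat_lit 0)) (T.h (T.h (M (nat_lit 252405377024740638588927)) (T.h (P (nat_lit 0)) (P (nat_lit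 48863964941058048)))) (T.h (P (nat_lit 0)) (M (nat_lit 73784448161644543))))) (T.h (T.h (T.h (P (nat_lit 0)) (M (nat_lit 76622548805082939391))) (P (nat_lit 0))) (T.h (T.h (P (nat_lit 0)) (P (nat_lit 158948710125174784))) (P (nat_lit 0))))))), (P (nat_lit 0)), (T.h (T.h (T.h (M (nat_lit 648510499834292230905124618239)) (T.h (P (nat_lit 0)) (T.h (P (nat_lit 267778688070692003381248)) (T.h (P (nat_lit 0)) (T.h (P (nat_lit 2121261778112348160)) (T.h (P (nat_lit 0)) (M (nat_lit 820828886127)))))))) (T.h (P (nat_lit 0)) (T.h (T.h (P (nat_lit 267778688070692003381248)) (T.h (P (nat_lit 0)) (T.h (M (nat_lit 1042001163668422655)) (T.h (P (nat_lit 0)) (M (nat_lit 2428410595567)))))) (T.h (P (nat_lit 0)) (T.h (T.h (P (nat_lit 2121261778112348160)) (T.h (P (nat_lit 0)) (M (nat_lit 2428410595567)))) (T.h (P (nat_lit 0)) (M (nat_lit 820828886127)))))))) (T.h (T.h (P (nat_lit 0)) (T.h (T.h (P (nat_lit 0)) (T.h (M (nat_lit 3710911782576434708479)) (T.h (P (nat_lit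 0)) (P (nat_lit 4069514409377792))))) (T.h (P (nat_lit 0)) (T.h (T.h (P (nat_lit 0)) (P (nat_lit 4069514409377792))) (P (nat_lit 0)))))) (T.h (T.h (T.h (M (nat_lit 9397805998054045143531519)) (T.h (P (nat_lit 0)) (T.h (M (nat_lit 7819433302292430847)) (T.h (P (nat_lit 0)) (P (nat_lit 524447126520)))))) (T.h (P (nat_lit 0)) (T.h (T.h (M (nat_lit 7819433302292430847)) (T.h (P (nat_lit 0)) (M (nat_lit 4265017863599)))) (T.h (P (nat_lit 0)) (P (nat_lit 524447126520)))))) (T.h (T.h (P (nat_lit 0)) (T.h (T.h (P (nat_lit 0)) (P (nat_lit 29454675766411264))) (P (nat_lit 0)))) (T.h (T.h (T.h (M (nat_lit 18967275497743974399)) (T.h (P (nat_lit 0)) (M (nat_lit 16812754214847)))) (T.h (P (nat_lit 0)) (M (nat_lit 16812754214847)))) (T.h (P (nat_lit 0)) (M (nat_lit 35493879275439)))))))), (P (nat_lit 0))]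
def lP12_56 : List (T ℤ) := [(T.h (T.h (T.h (M (nat_lit 2243599753894167970128685170687)) (T.h (P (nat_lit 0)) (T.h (P (nat_lit 10138881664159769591545856)) (T.h (P (nat_lit 0)) (P (nat_lit 12879166026821926912)))))) (T.h (P (nat_lit 0)) (T.h (T.h (M (nat_lit 8920633791885050512408575)) (T.h (P (nat_lit 0)) (P (nat_lit 7524778741155758080)))) (T.h (P (nat_lit 0)) (P (nat_lit 2815302474502504448)))))) (T.h (T.h (P (nat_lit 0)) (T.h (T.h (P (nat_lit 0)) (T.h (P (nat_lit 36250140656928624214016)) (T.h (P (nat_lit 0)) (M (nat_lit 51053054277124095))))) (T.h (P (nat_lit 0)) (T.h (T.h (P (nat_lit 0)) (P (nat_lit 7675027309985792))) (P (nat_lit 0)))))) (T.h (T.h (T.h (P (nat_lit 12776963099183932931833856)) (T.h (P (nat_lit 0)) (P (nat_lit 190753461224322629632)))) (T.h (P (nat_lit 0)) (P (nat_lit 53559359673628360704)))) (T.h (T.h (P (nat_lit 0)) (T.h (T.h (P (nat_lit 0)) (M (nat_lit 332371695657680895))) (P (nat_lit 0)))) (M (nat_lit 63960238512519774207)))))),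 (P (nat_lit 0)), (P (nat_lit 0)), (P (nat_lit 0)), (T.h (T.h (P (nat_lit 0)) (T.h (T.h (P (nat_lit 0)) (T.h (M (nat_lit 18912514300529150248615935)) (T.h (P (nat_lit 0)) (T.h (M (nat_lit 23041183802625884159)) (T.h (P (nat_lit 0)) (P (nat_lit 2524655571648))))))) (T.h (P (nat_lit 0)) (T.h (T.h (P (nat_lit 0)) (T.h (M (nat_lit 23041183802625884159)) (T.h (P (nat_lit 0)) (P (nat_lit 10560971751552))))) (T.h (P (nat_lit 0)) (T.h (T.h (P (nat_lit 0)) (P (nat_lit 2524655571648))) (P (nat_lit 0)))))))) (T.h (T.h (T.h (M (nat_lit 8033264847674382169470402559)) (T.h (P (nat_lit 0)) (T.h (M (nat_lit 14488213470967381360639)) (T.h (P (nat_lit 0)) (P (nat_lit 10489334515695616)))))) (T.h (P (nat_lit 0)) (T.h (T.h (M (nat_lit 14488213470967381360639)) (T.h (P (nat_lit 0)) (P (nat_lit 125409708875907072)))) (T.h (P (nat_lit 0)) (P (nat_lit 10489334515695616)))))) (T.h (T.h (P (nat_lit 0)) (T.h (T.h (P (nat_lit 0)) (T.h (P (nat_lit 133803991828717895680)) (T.h (P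 (nat_lit 0)) (M (nat_lit 10968184504063))))) (T.h (P (nat_lit 0)) (T.h (T.h (P (nat_lit 0)) (M (nat_lit 10968184504063))) (P (nat_lit 0)))))) (T.h (T.h (T.h (P (nat_lit 100991253233196142166016)) (T.h (P (nat_lit 0)) (P (nat_lit 173158604686557184)))) (T.h (P (nat_lit 0)) (P (nat_lit 173158604686557184)))) (T.h (T.h (P (nat_lit 0)) (T.h (T.h (P (nat_lit 0)) (M (nat_lit 43087163693055))) (P (nat_lit 0)))) (M (nat_lit 447138950976241663))))))), (T.h (T.h (P (nat_lit 0)) (T.h (T.h (P (nat_lit 994755837398416160144228352)) (T.h (P (nat_lit 0)) (T.h (P (nat_lit 385848081155304194048)) (T.h (P (nat_lit 0)) (M (nat_lit 26168110165688319)))))) (T.h (P (nat_lit 0)) (T.h (T.h (P (nat_lit 1627259457768127463424)) (T.h (P (nat_lit 0)) (P (nat_lit 1901487044935680)))) (T.h (P (nat_lit 0)) (M (nat_lit 1438415993520127))))))) (T.h (T.h (T.h (P (nat_lit 0)) (T.h (P (nat_lit 20370376071632726442115072)) (T.h (P (nat_lit 0)) (T.h (M (nat_lit 14468998367255986175)) (T.h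 (P (nat_lit 0)) (M (nat_lit 6662556455103))))))) (T.h (P (nat_lit 0)) (T.h (T.h (P (nat_lit 0)) (T.h (M (nat_lit 52736164427403886591)) (T.h (P (nat_lit 0)) (P (nat_lit 238877194160))))) (T.h (P (nat_lit 0)) (T.h (T.h (P (nat_lit 0)) (P (nat_lit 37730281781984))) (P (nat_lit 0))))))) (T.h (T.h (P (nat_lit 0)) (T.h (T.h (P (nat_lit 62873011426048620888064)) (T.h (P (nat_lit 0)) (P (nat_lit 102840527015788544)))) (T.h (P (nat_lit 0)) (P (nat_lit 40138936817926144))))) (T.h (T.h (T.h (P (nat_lit 0)) (T.h (M (nat_lit 74258750209269956607)) (T.h (P (nat_lit 0)) (P (nat_lit 847315013424))))) (T.h (P (nat_lit 0)) (T.h (T.h (P (nat_lit 0)) (M (nat_lit 64739948756207))) (P (nat_lit 0))))) (T.h (T.h (P (nat_lit 0)) (P (nat_lit 866541895063420928))) (T.h (T.h (T.h (P (nat_lit 0)) (M (nat_lit 430642633814447))) (P (nat_lit 0))) (P (nat_lit 0)))))))), (T.h (T.h (P (nat_lit 0)) (T.h (T.h (P (nat_lit 0)) (T.h (P (nat_lit 9767776142240778154934272)) (T.h (P (nat_lit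 0)) (M (nat_lit 181177798486917119))))) (T.h (P (nat_lit 0)) (T.h (T.h (P (nat_lit 0)) (P (nat_lit 11252920928419446784))) (P (nat_lit 0)))))) (T.h (T.h (T.h (P (nat_lit 3166846873336167602856132608)) (T.h (P (nat_lit 0)) (T.h (P (nat_lit 54548994911447583555584)) (T.h (P (nat_lit 0)) (M (nat_lit 42086344733622271)))))) (T.h (P (nat_lit 0)) (T.h (T.h (P (nat_lit 35266817870928178839552)) (T.h (P (nat_lit 0)) (M (nat_lit 41064510206017535)))) (T.h (P (nat_lit 0)) (M (nat_lit 384693298659327)))))) (T.h (T.h (P (nat_lit 0)) (T.h (T.h (P (nat_lit 0)) (M (nat_lit 145672624222347722751))) (P (nat_lit 0)))) (T.h (T.h (T.h (M (nat_lit 14344602706940511911935)) (T.h (P (nat_lit 0)) (M (nat_lit 58682876268085247)))) (T.h (P (nat_lit 0)) (M (nat_lit 12694745432686591)))) (T.h (P (nat_lit 0)) (M (nat_lit 65582421789278207))))))), (T.h (T.h (T.h (M (nat_lit 2243599753894167970128685170687)) (T.h (P (nat_lit 0)) (T.h (M (nat_lit 8920633791885050512408575)) (T.h (P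 (nat_lit 0)) (P (nat_lit 2815302474502504448)))))) (T.h (P (nat_lit 0)) (T.h (T.h (P (nat_lit 10138881664159769591545856)) (T.h (P (nat_lit 0)) (P (nat_lit 7524778741155758080)))) (T.h (P (nat_lit 0)) (P (nat_lit 12879166026821926912)))))) (T.h (T.h (P (nat_lit 0)) (T.h (T.h (P (nat_lit 0)) (T.h (P (nat_lit 36250140656928624214016)) (T.h (P (nat_lit 0)) (P (nat_lit 7675027309985792))))) (T.h (P (nat_lit 0)) (T.h (T.h (P (nat_lit 0)) (M (nat_lit 51053054277124095))) (P (nat_lit 0)))))) (T.h (T.h (T.h (P (nat_lit 12776963099183932931833856)) (T.h (P (nat_lit 0)) (P (nat_lit 53559359673628360704)))) (T.h (P (nat_lit 0)) (P (nat_lit 190753461224322629632)))) (T.h (T.h (P (nat_lit 0)) (T.h (T.h (P (nat_lit 0)) (M (nat_lit 332371695657680895))) (P (nat_lit 0)))) (M (nat_lit 63960238512519774207))))))]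
def lP12_57 : List (T ℤ) := [(T.h (T.h (T.h (P (nat_lit 0)) (T.h (P (nat_lit 994755837398416160144228352)) (T.h (P (nat_lit 0)) (T.h (P (nat_lit 1627259457768127463424)) (T.h (P (nat_lit 0)) (M (nat_lit 1438415993520127))))))) (T.h (P (nat_lit 0)) (T.h (T.h (P (nat_lit 0)) (T.h (P (nat_lit 385848081155304194048)) (T.h (P (nat_lit 0)) (P (nat_lit 1901487044935680))))) (T.h (P (nat_lit 0)) (T.h (T.h (P (nat_lit 0)) (M (nat_lit 26168110165688319))) (P (nat_lit 0))))))) (T.h (T.h (P (nat_lit 0)) (T.h (T.h (P (nat_lit 20370376071632726442115072)) (T.h (P (nat_lit 0)) (T.h (M (nat_lit 52736164427403886591)) (T.h (P (nat_lit 0)) (P (nat_lit 37730281781984)))))) (T.h (P (nat_lit 0)) (T.h (T.h (M (nat_lit 14468998367255986175)) (T.h (P (nat_lit 0)) (P (nat_lit 238877194160)))) (T.h (P (nat_lit 0)) (M (nat_lit 6662556455103))))))) (T.h (T.h (T.h (P (nat_lit 0)) (T.h (P (nat_lit 62873011426048620888064)) (T.h (P (nat_lit 0)) (P (nat_lit 40138936817926144)))))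 (T.h (P (nat_lit 0)) (T.h (T.h (P (nat_lit 0)) (P (nat_lit 102840527015788544))) (P (nat_lit 0))))) (T.h (T.h (P (nat_lit 0)) (T.h (T.h (M (nat_lit 74258750209269956607)) (T.h (P (nat_lit 0)) (M (nat_lit 64739948756207)))) (T.h (P (nat_lit 0)) (P (nat_lit 847315013424))))) (T.h (T.h (T.h (P (nat_lit 0)) (P (nat_lit 866541895063420928))) (P (nat_lit 0))) (T.h (T.h (P (nat_lit 0)) (M (nat_lit 430642633814447))) (P (nat_lit 0)))))))), (T.h (T.h (T.h (P (nat_lit 6680708591493659502204118106112)) (T.h (P (nat_lit 0)) (T.h (P (nat_lit 3152629237428887272554496)) (T.h (P (nat_lit 0)) (P (nat_lit 9809641144634572800)))))) (T.h (P (nat_lit 0)) (T.h (T.h (P (nat_lit 3152629237428887272554496)) (T.h (P (nat_lit 0)) (P (nat_lit 9895869601147781120)))) (T.h (P (nat_lit 0)) (P (nat_lit 9809641144634572800)))))) (T.h (T.h (P (nat_lit 0)) (T.h (T.h (P (nat_lit 0)) (T.h (M (nat_lit 65334891981411134210047)) (T.h (P (nat_lit 0)) (P (nat_lit 58318068894531584))))) (T.h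 (P (nat_lit 0)) (T.h (T.h (P (nat_lit 0)) (P (nat_lit 58318068894531584))) (P (nat_lit 0)))))) (T.h (T.h (T.h (M (nat_lit 2149890956194024676917247)) (T.h (P (nat_lit 0)) (M (nat_lit 48278542870674145279)))) (T.h (P (nat_lit 0)) (M (nat_lit 48278542870674145279)))) (T.h (T.h (P (nat_lit 0)) (T.h (T.h (P (nat_lit 0)) (P (nat_lit 175092994366111744))) (P (nat_lit 0)))) (M (nat_lit 8287550168841060351)))))), (P (nat_lit 0)), (T.h (T.h (P (nat_lit 0)) (T.h (T.h (P (nat_lit 0)) (T.h (P (nat_lit 9767776142240778154934272)) (T.h (P (nat_lit 0)) (P (nat_lit 11252920928419446784))))) (T.h (P (nat_lit 0)) (T.h (T.h (P (nat_lit 0)) (M (nat_lit 181177798486917119))) (P (nat_lit 0)))))) (T.h (T.h (T.h (P (nat_lit 3166846873336167602856132608)) (T.h (P (nat_lit 0)) (T.h (P (nat_lit 35266817870928178839552)) (T.h (P (nat_lit 0)) (M (nat_lit 384693298659327)))))) (T.h (P (nat_lit 0)) (T.h (T.h (P (nat_lit 54548994911447583555584)) (T.h (P (nat_lit 0)) (M (nat_lit 41064510206017535))))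 (T.h (P (nat_lit 0)) (M (nat_lit 42086344733622271)))))) (T.h (T.h (P (nat_lit 0)) (T.h (T.h (P (nat_lit 0)) (M (nat_lit 145672624222347722751))) (P (nat_lit 0)))) (T.h (T.h (T.h (M (nat_lit 14344602706940511911935)) (T.h (P (nat_lit 0)) (M (nat_lit 12694745432686591)))) (T.h (P (nat_lit 0)) (M (nat_lit 58682876268085247)))) (T.h (P (nat_lit 0)) (M (nat_lit 65582421789278207))))))), (P (nat_lit 0)), (P (nat_lit 0)), (T.h (T.h (P (nat_lit 0)) (T.h (T.h (P (nat_lit 1882863235110602186401251328)) (T.h (P (nat_lit 0)) (T.h (P (nat_lit 5267182525265582489600)) (T.h (P (nat_lit 0)) (P (nat_lit 23860068554997760)))))) (T.h (P (nat_lit 0)) (T.h (T.h (M (nat_lit 1194549437046911401983)) (T.h (P (nat_lit 0)) (P (nat_lit 21870792650588160)))) (T.h (P (nat_lit 0)) (P (nat_lit 2304983058579456))))))) (T.h (T.h (T.h (P (nat_lit 0)) (T.h (M (nat_lit 5899014123501182892638207)) (T.h (P (nat_lit 0)) (P (nat_lit 12492875247927689216))))) (T.h (P (nat_lit 0)) (T.h (T.h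 (P (nat_lit 0)) (P (nat_lit 48526920699881717760))) (P (nat_lit 0))))) (T.h (T.h (P (nat_lit 0)) (T.h (T.h (M (nat_lit 35555392972562500681727)) (T.h (P (nat_lit 0)) (M (nat_lit 26232532882948095)))) (T.h (P (nat_lit 0)) (P (nat_lit 54223071898992640))))) (T.h (T.h (T.h (P (nat_lit 0)) (M (nat_lit 145664511497142796287))) (P (nat_lit 0))) (T.h (T.h (P (nat_lit 0)) (M (nat_lit 257575463700398079))) (P (nat_lit 0))))))), (P (nat_lit 0))]
def lP12_58 : List (T ℤ) := [(P (nat_lit 0)), (T.h (T.h (T.h (P (nat_lit 0)) (T.h (P (nat_lit 1882863235110602186401251328)) (T.h (P (nat_lit 0)) (T.h (M (nat_lit 1194549437046911401983)) (T.h (P (nat_lit 0)) (P (nat_lit 2304983058579456))))))) (T.h (P (nat_lit 0)) (T.h (T.h (P (nat_lit 0)) (T.h (P (nat_lit 5267182525265582489600)) (T.h (P (nat_lit 0)) (P (nat_lit 21870792650588160))))) (T.h (P (nat_lit 0)) (T.h (T.h (P (nat_lit 0)) (P (nat_lit 23860068554997760))) (P (nat_lit 0))))))) (T.h (T.h (P (nat_lit 0)) (T.h (T.h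 (M (nat_lit 5899014123501182892638207)) (T.h (P (nat_lit 0)) (P (nat_lit 48526920699881717760)))) (T.h (P (nat_lit 0)) (P (nat_lit 12492875247927689216))))) (T.h (T.h (T.h (P (nat_lit 0)) (T.h (M (nat_lit 35555392972562500681727)) (T.h (P (nat_lit 0)) (P (nat_lit 54223071898992640))))) (T.h (P (nat_lit 0)) (T.h (T.h (P (nat_lit 0)) (M (nat_lit 26232532882948095))) (P (nat_lit 0))))) (T.h (T.h (P (nat_lit 0)) (M (nat_lit 145664511497142796287))) (T.h (T.h (T.h (P (nat_lit 0)) (M (nat_lit 257575463700398079))) (P (nat_lit 0))) (P (nat_lit 0))))))), (T.h (T.h (T.h (M (nat_lit 3022801708362945769365684879359)) (T.h (P (nat_lit 0)) (T.h (M (nat_lit 866842690526014188027903)) (T.h (P (nat_lit 0)) (T.h (M (nat_lit 2198064352563560447)) (T.h (P (nat_lit 0)) (P (nat_lit 742147470768)))))))) (T.h (P (nat_lit 0)) (T.h (T.h (M (nat_lit 866842690526014188027903)) (T.h (P (nat_lit 0)) (T.h (M (nat_lit 80235081309880319)) (T.h (P (nat_lit 0)) (P (nat_lit 7551023902224))))))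 (T.h (P (nat_lit 0)) (T.h (T.h (M (nat_lit 2198064352563560447)) (T.h (P (nat_lit 0)) (P (nat_lit 7551023902224)))) (T.h (P (nat_lit 0)) (P (nat_lit 742147470768)))))))) (T.h (T.h (P (nat_lit 0)) (T.h (T.h (P (nat_lit 0)) (T.h (P (nat_lit 9132112169328112041984)) (T.h (P (nat_lit 0)) (P (nat_lit 6924341569585152))))) (T.h (P (nat_lit 0)) (T.h (T.h (P (nat_lit 0)) (P (nat_lit 6924341569585152))) (P (nat_lit 0)))))) (T.h (T.h (T.h (P (nat_lit 35228165051076154056769536)) (T.h (P (nat_lit 0)) (T.h (P (nat_lit 33338568917978710016)) (T.h (P (nat_lit 0)) (P (nat_lit 12342157505568)))))) (T.h (P (nat_lit 0)) (T.h (T.h (P (nat_lit 33338568917978710016)) (T.h (P (nat_lit 0)) (M (nat_lit 55649786596799)))) (T.h (P (nat_lit 0)) (P (nat_lit 12342157505568)))))) (T.h (T.h (P (nat_lit 0)) (T.h (T.h (P (nat_lit 0)) (M (nat_lit 33744048614539263))) (P (nat_lit 0)))) (T.h (T.h (T.h (P (nat_lit 72859096151933059072)) (T.h (P (nat_lit 0)) (M (nat_lit 56118708733823))))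 (T.h (P (nat_lit 0)) (M (nat_lit 56118708733823)))) (T.h (P (nat_lit 0)) (P (nat_lit 14511582942912)))))))), (T.h (T.h (T.h (P (nat_lit 0)) (T.h (M (nat_lit 3849283284899336926831575039)) (T.h (P (nat_lit 0)) (T.h (M (nat_lit 2169209033493156200447)) (T.h (P (nat_lit 0)) (P (nat_lit 411400681750528))))))) (T.h (P (nat_lit 0)) (T.h (T.h (P (nat_lit 0)) (T.h (M (nat_lit 318127756473987497983)) (T.h (P (nat_lit 0)) (M (nat_lit 5667928027332607))))) (T.h (P (nat_lit 0)) (T.h (T.h (P (nat_lit 0)) (M (nat_lit 9836419181182975))) (P (nat_lit 0))))))) (T.h (T.h (P (nat_lit 0)) (T.h (T.h (M (nat_lit 8685767576524368306503679)) (T.h (P (nat_lit 0)) (M (nat_lit 21352153951422644223)))) (T.h (P (nat_lit 0)) (M (nat_lit 32111403715541336063))))) (T.h (T.h (T.h (P (nat_lit 0)) (T.h (M (nat_lit 7915433807328952975359)) (T.h (P (nat_lit 0)) (M (nat_lit 9664805248008191))))) (T.h (P (nat_lit 0)) (T.h (T.h (P (nat_lit 0)) (P (nat_lit 56882161005330432))) (P (nat_lit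 0))))) (T.h (T.h (P (nat_lit 0)) (M (nat_lit 126973145165437337599))) (T.h (T.h (T.h (P (nat_lit 0)) (P (nat_lit 421785709203062784))) (P (nat_lit 0))) (P (nat_lit 0))))))), (P (nat_lit 0)), (T.h (T.h (P (nat_lit 0)) (T.h (T.h (M (nat_lit 3849283284899336926831575039)) (T.h (P (nat_lit 0)) (T.h (M (nat_lit 318127756473987497983)) (T.h (P (nat_lit 0)) (M (nat_lit 9836419181182975)))))) (T.h (P (nat_lit 0)) (T.h (T.h (M (nat_lit 2169209033493156200447)) (T.h (P (nat_lit 0)) (M (nat_lit 5667928027332607)))) (T.h (P (nat_lit 0)) (P (nat_lit 411400681750528))))))) (T.h (T.h (T.h (P (nat_lit 0)) (T.h (M (nat_lit 8685767576524368306503679)) (T.h (P (nat_lit 0)) (M (nat_lit 32111403715541336063))))) (T.h (P (nat_lit 0)) (T.h (T.h (P (nat_lit 0)) (M (nat_lit 21352153951422644223))) (P (nat_lit 0))))) (T.h (T.h (P (nat_lit 0)) (T.h (T.h (M (nat_lit 7915433807328952975359)) (T.h (P (nat_lit 0)) (P (nat_lit 56882161005330432)))) (T.h (P (nat_lit 0)) (M (nat_lit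 9664805248008191))))) (T.h (T.h (T.h (P (nat_lit 0)) (M (nat_lit 126973145165437337599))) (P (nat_lit 0))) (T.h (T.h (P (nat_lit 0)) (P (nat_lit 421785709203062784))) (P (nat_lit 0))))))), (P (nat_lit 0)), (T.h (T.h (T.h (M (nat_lit 299487344408859537278607818751)) (T.h (P (nat_lit 0)) (T.h (P (nat_lit 496693414538202608304128)) (T.h (P (nat_lit 0)) (P (nat_lit 961920014925955072)))))) (T.h (P (nat_lit 0)) (T.h (T.h (P (nat_lit 496693414538202608304128)) (T.h (P (nat_lit 0)) (M (nat_lit 7541057376548290559)))) (T.h (P (nat_lit 0)) (P (nat_lit 961920014925955072)))))) (T.h (T.h (P (nat_lit 0)) (T.h (T.h (P (nat_lit 0)) (T.h (M (nat_lit 10032721488330503487487)) (T.h (P (nat_lit 0)) (P (nat_lit 4188279631642624))))) (T.h (P (nat_lit 0)) (T.h (T.h (P (nat_lit 0)) (P (nat_lit 4188279631642624))) (P (nat_lit 0)))))) (T.h (T.h (T.h (M (nat_lit 911040014092211238993919)) (T.h (P (nat_lit 0)) (M (nat_lit 33993245327292891135)))) (T.h (P (nat_lit 0)) (M (nat_lit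 33993245327292891135)))) (T.h (T.h (P (nat_lit 0)) (T.h (T.h (P (nat_lit 0)) (P (nat_lit 11587873473560576))) (P (nat_lit 0)))) (P (nat_lit 37474069336190615552))))))]
def lP12_59 : List (T ℤ) := [(P (nat_lit 0)), (P (nat_lit 0)), (P (nat_lit 0)), (T.h (T.h (P (nat_lit 0)) (T.h (T.h (P (nat_lit 0)) (T.h (P (nat_lit 386661090139917950910464)) (T.h (P (nat_lit 0)) (M (nat_lit 243643318179725311))))) (T.h (P (nat_lit 0)) (T.h (T.h (P (nat_lit 0)) (M (nat_lit 243643318179725311))) (P (nat_lit 0)))))) (T.h (T.h (T.h (M (nat_lit 5897302073599640136660811775)) (T.h (P (nat_lit 0)) (T.h (M (nat_lit 5209847404018203099135)) (T.h (P (nat_lit 0)) (M (nat_lit 4595770649346047)))))) (T.h (P (nat_lit 0)) (T.h (T.h (M (nat_lit 5209847404018203099135)) (T.h (P (nat_lit 0)) (P (nat_lit 20721956900044800)))) (T.h (P (nat_lit 0)) (M (nat_lit 4595770649346047)))))) (T.h (T.h (P (nat_lit 0)) (T.h (T.h (P (nat_lit 0)) (P (nat_lit 43491311747944415232))) (P (nat_lit 0))))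 (T.h (T.h (T.h (P (nat_lit 38739346812376056856576)) (T.h (P (nat_lit 0)) (P (nat_lit 41793132904316928)))) (T.h (P (nat_lit 0)) (P (nat_lit 41793132904316928)))) (T.h (P (nat_lit 0)) (M (nat_lit 16210757382045695))))))), (P (nat_lit 0)), (P (nat_lit 0)), (P (nat_lit 0)), (P (nat_lit 0))]
def lP12_60 : List (T ℤ) := [(P (nat_lit 0))]

def CP12 : List (T ℤ) := lP12_0 ++ (lP12_1 ++ (lP12_2 ++ (lP12_3 ++ (lP12_4 ++ (lP12_5 ++ (lP12_6 ++ (lP12_7 ++ (lP12_8 ++ (lP12_9 ++ (lP12_10 ++ (lP12_11 ++ (lP12_12 ++ (lP12_13 ++ (lP12_14 ++ (lP12_15 ++ (lP12_16 ++ (lP12_17 ++ (lP12_18 ++ (lP12_19 ++ (lP12_20 ++ (lP12_21 ++ (lP12_22 ++ (lP12_23 ++ (lP12_24 ++ (lP12_25 ++ (lP12_26 ++ (lP12_27 ++ (lP12_28 ++ (lP12_29 ++ (lP12_30 ++ (lP12_31 ++ (lP12_32 ++ (lP12_33 ++ (lP12_34 ++ (lP12_35 ++ (lP12_36 ++ (lP12_37 ++ (lP12_38 ++ (lP12_39 ++ (lP12_40 ++ (lP12_41 ++ (lP12_42 ++ (lP12_43 ++ (lP12_44 ++ (lP12_45 ++ (lP12_46 ++ (lP12_47 ++ (lP12_48 ++ (lP12_49 ++ (lP12_50 ++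 (lP12_51 ++ (lP12_52 ++ (lP12_53 ++ (lP12_54 ++ (lP12_55 ++ (lP12_56 ++ (lP12_57 ++ (lP12_58 ++ (lP12_59 ++ (lP12_60))))))))))))))))))))))))))))))))))))))))))))))))))))))))))))

/-- norms at radius 1536 -/
def NP12 : List ℕ := [(nat_lit 0), (nat_lit 0), (nat_lit 0), (nat_lit 0), (nat_lit 0), (nat_lit 0), (nat_lit 0), (nat_lit 0), (nat_lit 0), (nat_lit 4410501400340933843783516160000), (nat_lit 0), (nat_lit 0), (nat_lit 2770780515915101647538260518371328), (nat_lit 3026666278049953124190857776332800), (nat_lit 3817384993184792899949358389133312), (nat_lit 4269181169851866762775489262125056), (nat_lit 1541913322740312906285538672115712), (nat_lit 0), (nat_lit 0), (nat_lit 0), (nat_lit 2698308797350543333042680716328960), (nat_lit 7744837773727458214948963960750080), (nat_lit 14582276879944386808388201352265728), (nat_lit 17058513610406557094197680949690368), (nat_lit 5379688343161541790212226337996800), (nat_lit 0), (nat_lit 0), (nat_lit 2917825142975451000966071313235968),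 (nat_lit 12401335324151854908856447549833216), (nat_lit 9770363086773468619751794466095104), (nat_lit 15601474116902674588712447682543616), (nat_lit 3165067436911905324468088300634112), (nat_lit 0), (nat_lit 0), (nat_lit 6138455378442065377369010252808192), (nat_lit 15415132514259252010624711246479360), (nat_lit 32193186518115343436727638311305216), (nat_lit 23527614955310736656204170449125376), (nat_lit 5077039350393258466700208019341312), (nat_lit 0), (nat_lit 0), (nat_lit 6138455378442065377369010252808192), (nat_lit 27359010896273283590877279187632128), (nat_lit 25956486550867083752991426185527296), (nat_lit 82885013538485318390689981735632896), (nat_lit 28266015128656486240017912900354048), (nat_lit 0), (nat_lit 0), (nat_lit 2917825142975451000966071313235968), (nat_lit 15415132514259252010624711246479360), (nat_lit 25956486550867083752991426185527296), (nat_lit 81704266077862341288385759143788544), (nat_lit 26596281468057084762184039595507712),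 (nat_lit 0), (nat_lit 0), (nat_lit 2698308797350543333042680716328960), (nat_lit 12401335324151854908856447549833216), (nat_lit 32193186518115343436727638311305216), (nat_lit 82885013538485318390689981735632896), (nat_lit 26596281468057084762184039595507712), (nat_lit 0), (nat_lit 2770780515915101647538260518371328), (nat_lit 7744837773727458214948963960750080), (nat_lit 9770363086773468619751794466095104), (nat_lit 23527614955310736656204170449125376), (nat_lit 28266015128656486240017912900354048), (nat_lit 0), (nat_lit 3026666278049953124190857776332800), (nat_lit 14582276879944386808388201352265728), (nat_lit 15601474116902674588712447682543616), (nat_lit 5077039350393258466700208019341312), (nat_lit 0), (nat_lit 3817384993184792899949358389133312), (nat_lit 17058513610406557094197680949690368), (nat_lit 3165067436911905324468088300634112), (nat_lit 0), (nat_lit 4269181169851866762775489262125056), (nat_lit 5379688343161541790212226337996800), (nat_lit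 0), (nat_lit 1541913322740312906285538672115712), (nat_lit 0), (nat_lit 0), (nat_lit 0), (nat_lit 1643829723851587333673786124795904), (nat_lit 0), (nat_lit 851548915494498036988975406645248), (nat_lit 0), (nat_lit 0), (nat_lit 0), (nat_lit 0), (nat_lit 15300062179927447928093147110834176), (nat_lit 7744837773727458214948963960750080), (nat_lit 16655749437742731755253082814939136), (nat_lit 17058513610406557094197680949690368), (nat_lit 5379688343161541790212226337996800), (nat_lit 0), (nat_lit 0), (nat_lit 26069034566722913772038144552599552), (nat_lit 11244596572723401517330460917628928), (nat_lit 20601713215298515732748996477714432), (nat_lit 20486083958012563272134776722554880), (nat_lit 3505504948021139736566282493886464), (nat_lit 0), (nat_lit 0), (nat_lit 33911280982435803006447774848778240), (nat_lit 25195364946231402831637849086885888), (nat_lit 27410430553541549885589252118413312), (nat_lit 43203980105732716982969654505897984), (nat_lit 16348222677415602568976898566651904),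 (nat_lit 0), (nat_lit 0), (nat_lit 61871960516434809312978254027554816), (nat_lit 31490972846843091411598260723253248), (nat_lit 77178181383044159756489230131396608), (nat_lit 57670633083597397830057624103550976), (nat_lit 17179104328625352243046203671969792), (nat_lit 0), (nat_lit 0), (nat_lit 33911280982435803006447774848778240), (nat_lit 31490972846843091411598260723253248), (nat_lit 93647164025880946707060808168243200), (nat_lit 49366601036775609081023428609179648), (nat_lit 18264041879335211232804045431242752), (nat_lit 0), (nat_lit 0), (nat_lit 26069034566722913772038144552599552), (nat_lit 25195364946231402831637849086885888), (nat_lit 77178181383044159756489230131396608), (nat_lit 49366601036775609081023428609179648), (nat_lit 21094026943910034324907254895083520), (nat_lit 0), (nat_lit 15300062179927447928093147110834176), (nat_lit 11244596572723401517330460917628928), (nat_lit 27410430553541549885589252118413312), (nat_lit 57670633083597397830057624103550976),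 (nat_lit 18264041879335211232804045431242752), (nat_lit 1643829723851587333673786124795904), (nat_lit 7744837773727458214948963960750080), (nat_lit 20601713215298515732748996477714432), (nat_lit 43203980105732716982969654505897984), (nat_lit 17179104328625352243046203671969792), (nat_lit 0), (nat_lit 16655749437742731755253082814939136), (nat_lit 20486083958012563272134776722554880), (nat_lit 16348222677415602568976898566651904), (nat_lit 851548915494498036988975406645248), (nat_lit 17058513610406557094197680949690368), (nat_lit 3505504948021139736566282493886464), (nat_lit 0), (nat_lit 5379688343161541790212226337996800), (nat_lit 0), (nat_lit 0), (nat_lit 0), (nat_lit 0), (nat_lit 7594535958921751719857693770383360), (nat_lit 0), (nat_lit 4620332618572654249482273857470464), (nat_lit 0), (nat_lit 0), (nat_lit 0), (nat_lit 0), (nat_lit 14055745355259757593200733594845184), (nat_lit 12401335324151854908856447549833216), (nat_lit 11976826892583642774985087201050624),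 (nat_lit 15601474116902674588712447682543616), (nat_lit 3165067436911905324468088300634112), (nat_lit 0), (nat_lit 0), (nat_lit 32329393271728489489739840678264832), (nat_lit 25195364946231402831637849086885888), (nat_lit 46774252931314731819648670708531200), (nat_lit 43203980105732716982969654505897984), (nat_lit 16348222677415602568976898566651904), (nat_lit 0), (nat_lit 0), (nat_lit 41352934571828357620793666609086464), (nat_lit 20695578107472819828915060885946368), (nat_lit 62019937656765475489911275796824064), (nat_lit 55189035783634962519194481161404416), (nat_lit 17191102653566429062841068456771584), (nat_lit 0), (nat_lit 0), (nat_lit 41352934571828357620793666609086464), (nat_lit 47217361247091762884243030204743680), (nat_lit 117366120092379141436454096036954112), (nat_lit 57455239821611056846458946603450368), (nat_lit 23614805616898103220892522908745728), (nat_lit 0), (nat_lit 0), (nat_lit 32329393271728489489739840678264832), (nat_lit 20695578107472819828915060885946368),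 (nat_lit 117366120092379141436454096036954112), (nat_lit 140384643272297547310894902562258944), (nat_lit 25701725736600187509343177219768320), (nat_lit 0), (nat_lit 14055745355259757593200733594845184), (nat_lit 25195364946231402831637849086885888), (nat_lit 62019937656765475489911275796824064), (nat_lit 57455239821611056846458946603450368), (nat_lit 25701725736600187509343177219768320), (nat_lit 7594535958921751719857693770383360), (nat_lit 12401335324151854908856447549833216), (nat_lit 46774252931314731819648670708531200), (nat_lit 55189035783634962519194481161404416), (nat_lit 23614805616898103220892522908745728), (nat_lit 0), (nat_lit 11976826892583642774985087201050624), (nat_lit 43203980105732716982969654505897984), (nat_lit 17191102653566429062841068456771584), (nat_lit 4620332618572654249482273857470464), (nat_lit 15601474116902674588712447682543616), (nat_lit 16348222677415602568976898566651904), (nat_lit 0), (nat_lit 3165067436911905324468088300634112),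 (nat_lit 0), (nat_lit 0), (nat_lit 0), (nat_lit 11217855139144863284909447189626880), (nat_lit 0), (nat_lit 5397725414543135482378088674754560), (nat_lit 0), (nat_lit 0), (nat_lit 0), (nat_lit 0), (nat_lit 21080091522017154953437740319899648), (nat_lit 15415132514259252010624711246479360), (nat_lit 29473702834925301262932476895952896), (nat_lit 23527614955310736656204170449125376), (nat_lit 5077039350393258466700208019341312), (nat_lit 0), (nat_lit 0), (nat_lit 85270399380324007226547355439333376), (nat_lit 31490972846843091411598260723253248), (nat_lit 56491883158787276890806513022533632), (nat_lit 57670633083597397830057624103550976), (nat_lit 17179104328625352243046203671969792), (nat_lit 0), (nat_lit 0), (nat_lit 81081704821704578882893956897570816), (nat_lit 47217361247091762884243030204743680), (nat_lit 97086575513531870701307618169716736), (nat_lit 57455239821611056846458946603450368), (nat_lit 23614805616898103220892522908745728), (nat_lit 0),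 (nat_lit 0), (nat_lit 85270399380324007226547355439333376), (nat_lit 47217361247091762884243030204743680), (nat_lit 115267091596900581042703873651769344), (nat_lit 200767490373543608197176699440332800), (nat_lit 49909145936145494412896563231719424), (nat_lit 0), (nat_lit 21080091522017154953437740319899648), (nat_lit 31490972846843091411598260723253248), (nat_lit 97086575513531870701307618169716736), (nat_lit 200767490373543608197176699440332800), (nat_lit 77697816427418304057586141649436672), (nat_lit 11217855139144863284909447189626880), (nat_lit 15415132514259252010624711246479360), (nat_lit 56491883158787276890806513022533632), (nat_lit 57455239821611056846458946603450368), (nat_lit 49909145936145494412896563231719424), (nat_lit 0), (nat_lit 29473702834925301262932476895952896), (nat_lit 57670633083597397830057624103550976), (nat_lit 23614805616898103220892522908745728), (nat_lit 5397725414543135482378088674754560), (nat_lit 23527614955310736656204170449125376),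 (nat_lit 17179104328625352243046203671969792), (nat_lit 0), (nat_lit 5077039350393258466700208019341312), (nat_lit 0), (nat_lit 0), (nat_lit 0), (nat_lit 18746374482337380406493996705120256), (nat_lit 0), (nat_lit 12871167916513684041649511032946688), (nat_lit 0), (nat_lit 0), (nat_lit 0), (nat_lit 0), (nat_lit 44551015565846526883499420241887232), (nat_lit 27359010896273283590877279187632128), (nat_lit 46492070197671327412582252164415488), (nat_lit 82885013538485318390689981735632896), (nat_lit 28266015128656486240017912900354048), (nat_lit 0), (nat_lit 0), (nat_lit 48306107347569704958001977992675328), (nat_lit 31490972846843091411598260723253248), (nat_lit 84753367660756771158394921417703424), (nat_lit 49366601036775609081023428609179648), (nat_lit 18264041879335211232804045431242752), (nat_lit 0), (nat_lit 0), (nat_lit 48306107347569704958001977992675328), (nat_lit 20695578107472819828915060885946368), (nat_lit 96640274590503658327491986306629632),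 (nat_lit 140384643272297547310894902562258944), (nat_lit 25701725736600187509343177219768320), (nat_lit 0), (nat_lit 44551015565846526883499420241887232), (nat_lit 31490972846843091411598260723253248), (nat_lit 96640274590503658327491986306629632), (nat_lit 200767490373543608197176699440332800), (nat_lit 77697816427418304057586141649436672), (nat_lit 18746374482337380406493996705120256), (nat_lit 27359010896273283590877279187632128), (nat_lit 84753367660756771158394921417703424), (nat_lit 140384643272297547310894902562258944), (nat_lit 77697816427418304057586141649436672), (nat_lit 0), (nat_lit 46492070197671327412582252164415488), (nat_lit 49366601036775609081023428609179648), (nat_lit 25701725736600187509343177219768320), (nat_lit 12871167916513684041649511032946688), (nat_lit 82885013538485318390689981735632896), (nat_lit 18264041879335211232804045431242752), (nat_lit 0), (nat_lit 28266015128656486240017912900354048), (nat_lit 0), (nat_lit 0), (nat_lit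 0), (nat_lit 9896040942062520656903236579491840), (nat_lit 0), (nat_lit 30425964309746226387992975742337024), (nat_lit 0), (nat_lit 0), (nat_lit 0), (nat_lit 0), (nat_lit 23923406274613197949868684064325632), (nat_lit 15415132514259252010624711246479360), (nat_lit 67835239231296491832935784892071936), (nat_lit 81704266077862341288385759143788544), (nat_lit 26596281468057084762184039595507712), (nat_lit 0), (nat_lit 0), (nat_lit 59579932995268899998966254286143488), (nat_lit 25195364946231402831637849086885888), (nat_lit 62854905429225773553414140051062784), (nat_lit 49366601036775609081023428609179648), (nat_lit 21094026943910034324907254895083520), (nat_lit 0), (nat_lit 23923406274613197949868684064325632), (nat_lit 25195364946231402831637849086885888), (nat_lit 124111620294533732990118477164445696), (nat_lit 57455239821611056846458946603450368), (nat_lit 25701725736600187509343177219768320), (nat_lit 9896040942062520656903236579491840), (nat_lit 15415132514259252010624711246479360),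 (nat_lit 62854905429225773553414140051062784), (nat_lit 57455239821611056846458946603450368), (nat_lit 49909145936145494412896563231719424), (nat_lit 0), (nat_lit 67835239231296491832935784892071936), (nat_lit 49366601036775609081023428609179648), (nat_lit 25701725736600187509343177219768320), (nat_lit 30425964309746226387992975742337024), (nat_lit 81704266077862341288385759143788544), (nat_lit 21094026943910034324907254895083520), (nat_lit 0), (nat_lit 26596281468057084762184039595507712), (nat_lit 0), (nat_lit 0), (nat_lit 0), (nat_lit 18746374482337380406493996705120256), (nat_lit 0), (nat_lit 9124324584062300197194721860255744), (nat_lit 0), (nat_lit 0), (nat_lit 0), (nat_lit 0), (nat_lit 24933673403717094985123911557971968), (nat_lit 12401335324151854908856447549833216), (nat_lit 39353081041564495604483817996288000), (nat_lit 82885013538485318390689981735632896), (nat_lit 26596281468057084762184039595507712), (nat_lit 0), (nat_lit 24933673403717094985123911557971968),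 (nat_lit 11244596572723401517330460917628928), (nat_lit 69576537067720405978616545834696704), (nat_lit 57670633083597397830057624103550976), (nat_lit 18264041879335211232804045431242752), (nat_lit 18746374482337380406493996705120256), (nat_lit 12401335324151854908856447549833216), (nat_lit 69576537067720405978616545834696704), (nat_lit 55189035783634962519194481161404416), (nat_lit 23614805616898103220892522908745728), (nat_lit 0), (nat_lit 39353081041564495604483817996288000), (nat_lit 57670633083597397830057624103550976), (nat_lit 23614805616898103220892522908745728), (nat_lit 9124324584062300197194721860255744), (nat_lit 82885013538485318390689981735632896), (nat_lit 18264041879335211232804045431242752), (nat_lit 0), (nat_lit 26596281468057084762184039595507712), (nat_lit 0), (nat_lit 0), (nat_lit 0), (nat_lit 11217855139144863284909447189626880), (nat_lit 0), (nat_lit 30425964309746226387992975742337024), (nat_lit 0), (nat_lit 0), (nat_lit 0), (nat_lit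 10033599994063763588203631339372544), (nat_lit 7744837773727458214948963960750080), (nat_lit 33814786180302520528845784265785344), (nat_lit 23527614955310736656204170449125376), (nat_lit 28266015128656486240017912900354048), (nat_lit 11217855139144863284909447189626880), (nat_lit 7744837773727458214948963960750080), (nat_lit 42689813281765705930307341004046336), (nat_lit 43203980105732716982969654505897984), (nat_lit 17179104328625352243046203671969792), (nat_lit 0), (nat_lit 33814786180302520528845784265785344), (nat_lit 43203980105732716982969654505897984), (nat_lit 17191102653566429062841068456771584), (nat_lit 30425964309746226387992975742337024), (nat_lit 23527614955310736656204170449125376), (nat_lit 17179104328625352243046203671969792), (nat_lit 0), (nat_lit 28266015128656486240017912900354048), (nat_lit 0), (nat_lit 0), (nat_lit 7594535958921751719857693770383360), (nat_lit 0), (nat_lit 12871167916513684041649511032946688), (nat_lit 0), (nat_lit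 0), (nat_lit 7594535958921751719857693770383360), (nat_lit 3026666278049953124190857776332800), (nat_lit 21159073803429314056884336564633600), (nat_lit 15601474116902674588712447682543616), (nat_lit 5077039350393258466700208019341312), (nat_lit 0), (nat_lit 21159073803429314056884336564633600), (nat_lit 20486083958012563272134776722554880), (nat_lit 16348222677415602568976898566651904), (nat_lit 12871167916513684041649511032946688), (nat_lit 15601474116902674588712447682543616), (nat_lit 16348222677415602568976898566651904), (nat_lit 0), (nat_lit 5077039350393258466700208019341312), (nat_lit 0), (nat_lit 1643829723851587333673786124795904), (nat_lit 0), (nat_lit 5397725414543135482378088674754560), (nat_lit 0), (nat_lit 0), (nat_lit 0), (nat_lit 10623652239693592158082813950689280), (nat_lit 17058513610406557094197680949690368), (nat_lit 3165067436911905324468088300634112), (nat_lit 5397725414543135482378088674754560), (nat_lit 17058513610406557094197680949690368),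 (nat_lit 3505504948021139736566282493886464), (nat_lit 0), (nat_lit 3165067436911905324468088300634112), (nat_lit 0), (nat_lit 0), (nat_lit 4620332618572654249482273857470464), (nat_lit 0), (nat_lit 0), (nat_lit 4620332618572654249482273857470464), (nat_lit 4269181169851866762775489262125056), (nat_lit 5379688343161541790212226337996800), (nat_lit 0), (nat_lit 5379688343161541790212226337996800), (nat_lit 0), (nat_lit 851548915494498036988975406645248), (nat_lit 0), (nat_lit 0), (nat_lit 0), (nat_lit 1541913322740312906285538672115712), (nat_lit 0), (nat_lit 0), (nat_lit 0), (nat_lit 0), (nat_lit 0)]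


def lP22_0 : List (T ℤ) := [(P (nat_lit 0)), (M (nat_lit 4410501400340933843783516159999)), (P (nat_lit 0)), (P (nat_lit 0)), (T.h (T.h (T.h (P (nat_lit 0)) (T.h (M (nat_lit 13616060523248372760361041919)) (T.h (P (nat_lit 0)) (T.h (P (nat_lit 25248286323423985008640)) (T.h (P (nat_lit 0)) (P (nat_lit 97560360966946816))))))) (T.h (P (nat_lit 0)) (T.h (T.h (P (nat_lit 0)) (T.h (M (nat_lit 1018639444731261616127)) (T.h (P (nat_lit 0)) (P (nat_lit 21287966337204224))))) (T.h (P (nat_lit 0)) (T.h (T.h (P (nat_lit 0)) (M (nat_lit 3105598149197823))) (P (nat_lit 0))))))) (T.h (T.h (P (nat_lit 0)) (T.h (T.h (P (nat_lit 988941334891427054747648)) (T.h (P (nat_lit 0)) (T.h (P (nat_lit 21892392839739867136)) (T.h (P (nat_lit 0)) (P (nat_lit 43087163693056)))))) (T.h (P (nat_lit 0)) (T.h (T.h (P (nat_lit 4289571691257921536)) (T.h (P (nat_lit 0)) (P (nat_lit 6954812085344)))) (T.h (P (nat_lit 0)) (M (nat_lit 1780149283047))))))) (T.h (T.h (T.h (P (nat_lit 0))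 (T.h (P (nat_lit 267052711276420530176)) (T.h (P (nat_lit 0)) (P (nat_lit 29095574034907136))))) (T.h (P (nat_lit 0)) (T.h (T.h (P (nat_lit 0)) (M (nat_lit 15203226427064319))) (P (nat_lit 0))))) (T.h (T.h (P (nat_lit 0)) (T.h (T.h (P (nat_lit 2589773294710292480)) (T.h (P (nat_lit 0)) (P (nat_lit 14981556922784)))) (T.h (P (nat_lit 0)) (M (nat_lit 10560971751551))))) (T.h (T.h (T.h (P (nat_lit 0)) (M (nat_lit 1271887051128831))) (P (nat_lit 0))) (T.h (T.h (P (nat_lit 0)) (M (nat_lit 3269161860247))) (P (nat_lit 0)))))))), (T.h (T.h (T.h (P (nat_lit 8381838962715691754272839434240)) (T.h (P (nat_lit 0)) (T.h (M (nat_lit 24966769086201063159103487)) (T.h (P (nat_lit 0)) (T.h (M (nat_lit 91567307508984840191)) (T.h (P (nat_lit 0)) (M (nat_lit 9234645211199)))))))) (T.h (P (nat_lit 0)) (T.h (T.h (P (nat_lit 94354545371969910472704)) (T.h (P (nat_lit 0)) (T.h (P (nat_lit 8545227737994887168)) (T.h (P (nat_lit 0)) (P (nat_lit 28106565702272)))))) (T.h (P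 (nat_lit 0)) (T.h (T.h (M (nat_lit 1002665088554893311)) (T.h (P (nat_lit 0)) (M (nat_lit 15443532767759)))) (T.h (P (nat_lit 0)) (M (nat_lit 165424305583)))))))) (T.h (T.h (P (nat_lit 0)) (T.h (T.h (P (nat_lit 0)) (T.h (P (nat_lit 5306139762653476683776)) (T.h (P (nat_lit 0)) (M (nat_lit 8154054174244863))))) (T.h (P (nat_lit 0)) (T.h (T.h (P (nat_lit 0)) (M (nat_lit 21171082134913023))) (P (nat_lit 0)))))) (T.h (T.h (T.h (P (nat_lit 94354545371969910472704)) (T.h (P (nat_lit 0)) (T.h (P (nat_lit 8545227737994887168)) (T.h (P (nat_lit 0)) (P (nat_lit 28106565702272)))))) (T.h (P (nat_lit 0)) (T.h (T.h (P (nat_lit 8284172608572751872)) (T.h (P (nat_lit 0)) (P (nat_lit 35413500645568)))) (T.h (P (nat_lit 0)) (M (nat_lit 4239509951935)))))) (T.h (T.h (P (nat_lit 0)) (T.h (T.h (P (nat_lit 0)) (M (nat_lit 21171082134913023))) (P (nat_lit 0)))) (T.h (T.h (T.h (M (nat_lit 1002665088554893311)) (T.h (P (nat_lit 0)) (M (nat_lit 15443532767759)))) (T.h (P (nat_lit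 0)) (M (nat_lit 4239509951935)))) (T.h (P (nat_lit 0)) (M (nat_lit 165424305583)))))))), (T.h (T.h (T.h (P (nat_lit 0)) (T.h (P (nat_lit 19513362596848012897021853696)) (T.h (P (nat_lit 0)) (T.h (M (nat_lit 63987633135800041865215)) (T.h (P (nat_lit 0)) (M (nat_lit 81349603584901119))))))) (T.h (P (nat_lit 0)) (T.h (T.h (P (nat_lit 0)) (T.h (P (nat_lit 4107924079950048526336)) (T.h (P (nat_lit 0)) (M (nat_lit 85837983571574783))))) (T.h (P (nat_lit 0)) (T.h (T.h (P (nat_lit 0)) (M (nat_lit 1307171908157439))) (P (nat_lit 0))))))) (T.h (T.h (P (nat_lit 0)) (T.h (T.h (M (nat_lit 1375602425031345005658111)) (T.h (P (nat_lit 0)) (T.h (M (nat_lit 65383704587684282367)) (T.h (P (nat_lit 0)) (M (nat_lit 43087163693055)))))) (T.h (P (nat_lit 0)) (T.h (T.h (M (nat_lit 8805342538014654463)) (T.h (P (nat_lit 0)) (M (nat_lit 10968184504063)))) (T.h (P (nat_lit 0)) (P (nat_lit 2524655571648))))))) (T.h (T.h (T.h (P (nat_lit 0)) (T.h (P (nat_lit 7063357461541198757888))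 (T.h (P (nat_lit 0)) (M (nat_lit 48131822609170431))))) (T.h (P (nat_lit 0)) (T.h (T.h (P (nat_lit 0)) (M (nat_lit 5518730472980479))) (P (nat_lit 0))))) (T.h (T.h (P (nat_lit 0)) (T.h (T.h (P (nat_lit 2413284188405891072)) (T.h (P (nat_lit 0)) (M (nat_lit 10968184504063)))) (T.h (P (nat_lit 0)) (P (nat_lit 10560971751552))))) (T.h (T.h (T.h (P (nat_lit 0)) (P (nat_lit 14876198407176192))) (P (nat_lit 0))) (T.h (T.h (P (nat_lit 0)) (P (nat_lit 2524655571648))) (P (nat_lit 0)))))))), (T.h (T.h (T.h (M (nat_lit 3022801708362945769365684879359)) (T.h (P (nat_lit 0)) (T.h (P (nat_lit 35228165051076154056769536)) (T.h (P (nat_lit 0)) (T.h (P (nat_lit 72859096151933059072)) (T.h (P (nat_lit 0)) (P (nat_lit 14511582942912)))))))) (T.h (P (nat_lit 0)) (T.h (T.h (M (nat_lit 866842690526014188027903)) (T.h (P (nat_lit 0)) (T.h (P (nat_lit 33338568917978710016)) (T.h (P (nat_lit 0)) (M (nat_lit 56118708733823)))))) (T.h (P (nat_lit 0)) (T.h (T.h (M (nat_lit 2198064352563560447))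 (T.h (P (nat_lit 0)) (P (nat_lit 12342157505568)))) (T.h (P (nat_lit 0)) (P (nat_lit 742147470768)))))))) (T.h (T.h (P (nat_lit 0)) (T.h (T.h (P (nat_lit 0)) (T.h (P (nat_lit 9132112169328112041984)) (T.h (P (nat_lit 0)) (M (nat_lit 33744048614539263))))) (T.h (P (nat_lit 0)) (T.h (T.h (P (nat_lit 0)) (P (nat_lit 6924341569585152))) (P (nat_lit 0)))))) (T.h (T.h (T.h (M (nat_lit 866842690526014188027903)) (T.h (P (nat_lit 0)) (T.h (P (nat_lit 33338568917978710016)) (T.h (P (nat_lit 0)) (M (nat_lit 56118708733823)))))) (T.h (P (nat_lit 0)) (T.h (T.h (M (nat_lit 80235081309880319)) (T.h (P (nat_lit 0)) (M (nat_lit 55649786596799)))) (T.h (P (nat_lit 0)) (P (nat_lit 7551023902224)))))) (T.h (T.h (P (nat_lit 0)) (T.h (T.h (P (nat_lit 0)) (P (nat_lit 6924341569585152))) (P (nat_lit 0)))) (T.h (T.h (T.h (M (nat_lit 2198064352563560447)) (T.h (P (nat_lit 0)) (P (nat_lit 12342157505568)))) (T.h (P (nat_lit 0)) (P (nat_lit 7551023902224)))) (T.h (P (nat_lit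 0)) (P (nat_lit 742147470768))))))))]
def lP22_1 : List (T ℤ) := [(T.h (T.h (T.h (P (nat_lit 0)) (T.h (M (nat_lit 5897302073599640136660811775)) (T.h (P (nat_lit 0)) (T.h (P (nat_lit 38739346812376056856576)) (T.h (P (nat_lit 0)) (M (nat_lit 16210757382045695))))))) (T.h (P (nat_lit 0)) (T.h (T.h (P (nat_lit 0)) (T.h (M (nat_lit 5209847404018203099135)) (T.h (P (nat_lit 0)) (P (nat_lit 41793132904316928))))) (T.h (P (nat_lit 0)) (T.h (T.h (P (nat_lit 0)) (M (nat_lit 4595770649346047))) (P (nat_lit 0))))))) (T.h (T.h (P (nat_lit 0)) (T.h (T.h (P (nat_lit 386661090139917950910464)) (T.h (P (nat_lit 0)) (P (nat_lit 43491311747944415232)))) (T.h (P (nat_lit 0)) (M (nat_lit 243643318179725311))))) (T.h (T.h (T.h (P (nat_lit 0)) (T.h (M (nat_lit 5209847404018203099135)) (T.h (P (nat_lit 0)) (P (nat_lit 41793132904316928))))) (T.h (P (nat_lit 0)) (T.h (T.h (P (nat_lit 0)) (P (nat_lit 20721956900044800))) (P (nat_lit 0))))) (T.h (T.h (P (nat_lit 0)) (M (nat_lit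 243643318179725311))) (T.h (T.h (T.h (P (nat_lit 0)) (M (nat_lit 4595770649346047))) (P (nat_lit 0))) (P (nat_lit 0))))))), (P (nat_lit 0)), (P (nat_lit 0)), (P (nat_lit 0)), (T.h (T.h (P (nat_lit 0)) (T.h (T.h (P (nat_lit 13204927875378715774934843392)) (T.h (P (nat_lit 0)) (T.h (P (nat_lit 13539892843789789691904)) (T.h (P (nat_lit 0)) (M (nat_lit 11870878074175487)))))) (T.h (P (nat_lit 0)) (T.h (T.h (M (nat_lit 590497161174321201151)) (T.h (P (nat_lit 0)) (M (nat_lit 27032684399165439)))) (T.h (P (nat_lit 0)) (M (nat_lit 17312308370309119))))))) (T.h (T.h (T.h (P (nat_lit 0)) (T.h (M (nat_lit 122639602115953821745151)) (T.h (P (nat_lit 0)) (T.h (P (nat_lit 23265789879055810560)) (T.h (P (nat_lit 0)) (M (nat_lit 36276789813271))))))) (T.h (P (nat_lit 0)) (T.h (T.h (P (nat_lit 0)) (T.h (P (nat_lit 17277838074277003264)) (T.h (P (nat_lit 0)) (M (nat_lit 33347038321839))))) (T.h (P (nat_lit 0)) (T.h (T.h (P (nat_lit 0)) (M (nat_lit 26065790100687)))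 (P (nat_lit 0))))))) (T.h (T.h (P (nat_lit 0)) (T.h (T.h (P (nat_lit 3282297356631899373568)) (T.h (P (nat_lit 0)) (M (nat_lit 21109903815409663)))) (T.h (P (nat_lit 0)) (M (nat_lit 7315163158740991))))) (T.h (T.h (T.h (P (nat_lit 0)) (T.h (P (nat_lit 2240755757060456448)) (T.h (P (nat_lit 0)) (M (nat_lit 20913852849103))))) (T.h (P (nat_lit 0)) (T.h (T.h (P (nat_lit 0)) (M (nat_lit 4134781533415))) (P (nat_lit 0))))) (T.h (T.h (P (nat_lit 0)) (M (nat_lit 2513831367540735))) (T.h (T.h (T.h (P (nat_lit 0)) (M (nat_lit 3482561271999))) (P (nat_lit 0))) (P (nat_lit 0)))))))), (T.h (T.h (P (nat_lit 0)) (T.h (T.h (P (nat_lit 0)) (T.h (M (nat_lit 3746786908111961168281599)) (T.h (P (nat_lit 0)) (T.h (P (nat_lit 150605351395472179200)) (T.h (P (nat_lit 0)) (P (nat_lit 126624751875824))))))) (T.h (P (nat_lit 0)) (T.h (T.h (P (nat_lit 0)) (T.h (P (nat_lit 21421683604952449024)) (T.h (P (nat_lit 0)) (M (nat_lit 29896136530671))))) (T.h (P (nat_lit 0)) (T.h (T.h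 (P (nat_lit 0)) (P (nat_lit 7351350546784))) (P (nat_lit 0)))))))) (T.h (T.h (T.h (P (nat_lit 825243808494547520458850304)) (T.h (P (nat_lit 0)) (T.h (M (nat_lit 26344594233526511992831)) (T.h (P (nat_lit 0)) (M (nat_lit 391640158868422655)))))) (T.h (P (nat_lit 0)) (T.h (T.h (M (nat_lit 4538456619322401882111)) (T.h (P (nat_lit 0)) (M (nat_lit 9636131581935615)))) (T.h (P (nat_lit 0)) (P (nat_lit 1673160524251136)))))) (T.h (T.h (P (nat_lit 0)) (T.h (T.h (P (nat_lit 0)) (T.h (P (nat_lit 6725667058576523264)) (T.h (P (nat_lit 0)) (P (nat_lit 20853968390928))))) (T.h (P (nat_lit 0)) (T.h (T.h (P (nat_lit 0)) (M (nat_lit 4256921589567))) (P (nat_lit 0)))))) (T.h (T.h (T.h (P (nat_lit 452590592553853648896)) (T.h (P (nat_lit 0)) (M (nat_lit 39437525538734079)))) (T.h (P (nat_lit 0)) (M (nat_lit 18297077188886527)))) (T.h (T.h (P (nat_lit 0)) (T.h (T.h (P (nat_lit 0)) (M (nat_lit 14115448294655))) (P (nat_lit 0)))) (P (nat_lit 2367037161553920))))))), (T.h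 (T.h (P (nat_lit 0)) (T.h (T.h (M (nat_lit 11148306687387311073933656063)) (T.h (P (nat_lit 0)) (T.h (M (nat_lit 42457184328535899111423)) (T.h (P (nat_lit 0)) (P (nat_lit 107454521002655744)))))) (T.h (P (nat_lit 0)) (T.h (T.h (P (nat_lit 9990154410232597446656)) (T.h (P (nat_lit 0)) (P (nat_lit 177198910576820224)))) (T.h (P (nat_lit 0)) (P (nat_lit 15339279740928000))))))) (T.h (T.h (T.h (P (nat_lit 0)) (T.h (P (nat_lit 6837049029011826800590848)) (T.h (P (nat_lit 0)) (T.h (P (nat_lit 198712546212878221312)) (T.h (P (nat_lit 0)) (M (nat_lit 519960225386687))))))) (T.h (P (nat_lit 0)) (T.h (T.h (P (nat_lit 0)) (T.h (P (nat_lit 59282405974557589504)) (T.h (P (nat_lit 0)) (M (nat_lit 50830335485887))))) (T.h (P (nat_lit 0)) (T.h (T.h (P (nat_lit 0)) (P (nat_lit 30400262961600))) (P (nat_lit 0))))))) (T.h (T.h (P (nat_lit 0)) (T.h (T.h (M (nat_lit 10168343157988999036927)) (T.h (P (nat_lit 0)) (P (nat_lit 138485348847714304)))) (T.h (P (nat_lit 0)) (P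 (nat_lit 15342922548215808))))) (T.h (T.h (T.h (P (nat_lit 0)) (T.h (P (nat_lit 1303559475084394496)) (T.h (P (nat_lit 0)) (P (nat_lit 62827191098304))))) (T.h (P (nat_lit 0)) (T.h (T.h (P (nat_lit 0)) (M (nat_lit 8555555049535))) (P (nat_lit 0))))) (T.h (T.h (P (nat_lit 0)) (P (nat_lit 11197351691255808))) (T.h (T.h (T.h (P (nat_lit 0)) (P (nat_lit 5360624420992))) (P (nat_lit 0))) (P (nat_lit 0)))))))), (T.h (T.h (P (nat_lit 0)) (T.h (T.h (P (nat_lit 0)) (T.h (P (nat_lit 20370376071632726442115072)) (T.h (P (nat_lit 0)) (T.h (M (nat_lit 74258750209269956607)) (T.h (P (nat_lit 0)) (M (nat_lit 430642633814447))))))) (T.h (P (nat_lit 0)) (T.h (T.h (P (nat_lit 0)) (T.h (M (nat_lit 14468998367255986175)) (T.h (P (nat_lit 0)) (P (nat_lit 847315013424))))) (T.h (P (nat_lit 0)) (T.h (T.h (P (nat_lit 0)) (M (nat_lit 6662556455103))) (P (nat_lit 0)))))))) (T.h (T.h (T.h (P (nat_lit 994755837398416160144228352)) (T.h (P (nat_lit 0)) (T.h (P (nat_lit 62873011426048620888064))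 (T.h (P (nat_lit 0)) (P (nat_lit 866541895063420928)))))) (T.h (P (nat_lit 0)) (T.h (T.h (P (nat_lit 385848081155304194048)) (T.h (P (nat_lit 0)) (P (nat_lit 102840527015788544)))) (T.h (P (nat_lit 0)) (M (nat_lit 26168110165688319)))))) (T.h (T.h (P (nat_lit 0)) (T.h (T.h (P (nat_lit 0)) (T.h (M (nat_lit 52736164427403886591)) (T.h (P (nat_lit 0)) (M (nat_lit 64739948756207))))) (T.h (P (nat_lit 0)) (T.h (T.h (P (nat_lit 0)) (P (nat_lit 238877194160))) (P (nat_lit 0)))))) (T.h (T.h (T.h (P (nat_lit 1627259457768127463424)) (T.h (P (nat_lit 0)) (P (nat_lit 40138936817926144)))) (T.h (P (nat_lit 0)) (P (nat_lit 1901487044935680)))) (T.h (T.h (P (nat_lit 0)) (T.h (T.h (P (nat_lit 0)) (P (nat_lit 37730281781984))) (P (nat_lit 0)))) (M (nat_lit 1438415993520127)))))))]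
def lP22_2 : List (T ℤ) := [(T.h (T.h (P (nat_lit 0)) (T.h (T.h (M (nat_lit 3849283284899336926831575039)) (T.h (P (nat_lit 0)) (T.h (M (nat_lit 7915433807328952975359)) (T.h (P (nat_lit 0)) (P (nat_lit 421785709203062784)))))) (T.h (P (nat_lit 0)) (T.h (T.h (M (nat_lit 2169209033493156200447)) (T.h (P (nat_lit 0)) (M (nat_lit 9664805248008191)))) (T.h (P (nat_lit 0)) (P (nat_lit 411400681750528))))))) (T.h (T.h (T.h (P (nat_lit 0)) (T.h (M (nat_lit 8685767576524368306503679)) (T.h (P (nat_lit 0)) (M (nat_lit 126973145165437337599))))) (T.h (P (nat_lit 0)) (T.h (T.h (P (nat_lit 0)) (M (nat_lit 21352153951422644223))) (P (nat_lit 0))))) (T.h (T.h (P (nat_lit 0)) (T.h (T.h (M (nat_lit 318127756473987497983)) (T.h (P (nat_lit 0)) (P (nat_lit 56882161005330432)))) (T.h (P (nat_lit 0)) (M (nat_lit 5667928027332607))))) (T.h (T.h (T.h (P (nat_lit 0)) (M (nat_lit 32111403715541336063))) (P (nat_lit 0))) (T.h (T.h (P (nat_lit 0)) (M (nat_lit 9836419181182975)))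 (P (nat_lit 0))))))), (P (nat_lit 0)), (P (nat_lit 0)), (P (nat_lit 0)), (T.h (T.h (T.h (P (nat_lit 0)) (T.h (M (nat_lit 12684840511315129229494976511)) (T.h (P (nat_lit 0)) (T.h (M (nat_lit 53016593064264569192447)) (T.h (P (nat_lit 0)) (P (nat_lit 2782105205997568))))))) (T.h (P (nat_lit 0)) (T.h (T.h (P (nat_lit 0)) (T.h (P (nat_lit 4077642440654830174208)) (T.h (P (nat_lit 0)) (P (nat_lit 42281672534786048))))) (T.h (P (nat_lit 0)) (T.h (T.h (P (nat_lit 0)) (M (nat_lit 4290026769317887))) (P (nat_lit 0))))))) (T.h (T.h (P (nat_lit 0)) (T.h (T.h (P (nat_lit 1387203145980497050468352)) (T.h (P (nat_lit 0)) (T.h (P (nat_lit 7509937226516529152)) (T.h (P (nat_lit 0)) (M (nat_lit 18001481031807)))))) (T.h (P (nat_lit 0)) (T.h (T.h (P (nat_lit 5129996790287826944)) (T.h (P (nat_lit 0)) (P (nat_lit 80491955580040)))) (T.h (P (nat_lit 0)) (M (nat_lit 5667384178967))))))) (T.h (T.h (T.h (P (nat_lit 0)) (T.h (M (nat_lit 7879741752788425637887)) (T.h (P (nat_lit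 0)) (M (nat_lit 7310596866047999))))) (T.h (P (nat_lit 0)) (T.h (T.h (P (nat_lit 0)) (P (nat_lit 3910183346012160))) (P (nat_lit 0))))) (T.h (T.h (P (nat_lit 0)) (T.h (T.h (M (nat_lit 3278463469824770047)) (T.h (P (nat_lit 0)) (M (nat_lit 24712533350719)))) (T.h (P (nat_lit 0)) (P (nat_lit 5615599430704))))) (T.h (T.h (T.h (P (nat_lit 0)) (P (nat_lit 9953376213958656))) (P (nat_lit 0))) (T.h (T.h (P (nat_lit 0)) (P (nat_lit 15368633917056))) (P (nat_lit 0)))))))), (T.h (T.h (T.h (P (nat_lit 15172213786557349686731121623040)) (T.h (P (nat_lit 0)) (T.h (P (nat_lit 21374983709252717796917248)) (T.h (P (nat_lit 0)) (T.h (M (nat_lit 47365347442010619903)) (T.h (P (nat_lit 0)) (P (nat_lit 63359498543120)))))))) (T.h (P (nat_lit 0)) (T.h (T.h (M (nat_lit 18264153611699954183569407)) (T.h (P (nat_lit 0)) (T.h (M (nat_lit 32579711267497836543)) (T.h (P (nat_lit 0)) (P (nat_lit 439341944415168)))))) (T.h (P (nat_lit 0)) (T.h (T.h (M (nat_lit 8776527609941983231))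 (T.h (P (nat_lit 0)) (M (nat_lit 25450372979775)))) (T.h (P (nat_lit 0)) (P (nat_lit 7181325551792)))))))) (T.h (T.h (P (nat_lit 0)) (T.h (T.h (P (nat_lit 0)) (T.h (P (nat_lit 2070260029915047919616)) (T.h (P (nat_lit 0)) (P (nat_lit 184625113980796928))))) (T.h (P (nat_lit 0)) (T.h (T.h (P (nat_lit 0)) (M (nat_lit 56295723824119807))) (P (nat_lit 0)))))) (T.h (T.h (T.h (M (nat_lit 1210949200232913911676927)) (T.h (P (nat_lit 0)) (T.h (P (nat_lit 104816937201435672576)) (T.h (P (nat_lit 0)) (P (nat_lit 65805890694080)))))) (T.h (P (nat_lit 0)) (T.h (T.h (M (nat_lit 1443524170846568447)) (T.h (P (nat_lit 0)) (M (nat_lit 2428238407215)))) (T.h (P (nat_lit 0)) (P (nat_lit 7834943220656)))))) (T.h (T.h (P (nat_lit 0)) (T.h (T.h (P (nat_lit 0)) (P (nat_lit 71083122527076352))) (P (nat_lit 0)))) (T.h (T.h (T.h (M (nat_lit 1640313288946352127)) (T.h (P (nat_lit 0)) (M (nat_lit 27352561037247)))) (T.h (P (nat_lit 0)) (P (nat_lit 7778266412928)))) (T.h (P (nat_lit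 0)) (M (nat_lit 2258787755471)))))))), (T.h (T.h (T.h (P (nat_lit 0)) (T.h (P (nat_lit 556240270776678431303139328)) (T.h (P (nat_lit 0)) (T.h (M (nat_lit 106146170585502539841535)) (T.h (P (nat_lit 0)) (P (nat_lit 294432181340930048))))))) (T.h (P (nat_lit 0)) (T.h (T.h (P (nat_lit 0)) (T.h (M (nat_lit 22709465110943195201535)) (T.h (P (nat_lit 0)) (P (nat_lit 97128441095356416))))) (T.h (P (nat_lit 0)) (T.h (T.h (P (nat_lit 0)) (M (nat_lit 81212293442699263))) (P (nat_lit 0))))))) (T.h (T.h (P (nat_lit 0)) (T.h (T.h (M (nat_lit 33674519128823394065186815)) (T.h (P (nat_lit 0)) (T.h (P (nat_lit 56544454345603678208)) (T.h (P (nat_lit 0)) (M (nat_lit 46655458843455)))))) (T.h (P (nat_lit 0)) (T.h (T.h (M (nat_lit 1924344881111629823)) (T.h (P (nat_lit 0)) (P (nat_lit 82499058864512)))) (T.h (P (nat_lit 0)) (M (nat_lit 26922678205119))))))) (T.h (T.h (T.h (P (nat_lit 0)) (T.h (M (nat_lit 29407020964897829683199)) (T.h (P (nat_lit 0)) (P (nat_lit 8952162460336128)))))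 (T.h (P (nat_lit 0)) (T.h (T.h (P (nat_lit 0)) (M (nat_lit 23264011617468415))) (P (nat_lit 0))))) (T.h (T.h (P (nat_lit 0)) (T.h (T.h (P (nat_lit 19058927348914061312)) (T.h (P (nat_lit 0)) (P (nat_lit 86144119924352)))) (T.h (P (nat_lit 0)) (M (nat_lit 52855227214911))))) (T.h (T.h (T.h (P (nat_lit 0)) (M (nat_lit 37480698153926655))) (P (nat_lit 0))) (T.h (T.h (P (nat_lit 0)) (M (nat_lit 13089198389183))) (P (nat_lit 0)))))))), (T.h (T.h (T.h (P (nat_lit 1125191178323626060599525376000)) (T.h (P (nat_lit 0)) (T.h (M (nat_lit 46278492287481778855215103)) (T.h (P (nat_lit 0)) (T.h (M (nat_lit 156129275264035192831)) (T.h (P (nat_lit 0)) (P (nat_lit 130481994932784)))))))) (T.h (P (nat_lit 0)) (T.h (T.h (P (nat_lit 12526376508625760402014208)) (T.h (P (nat_lit 0)) (T.h (M (nat_lit 267369536469543682047)) (T.h (P (nat_lit 0)) (P (nat_lit 78162321228816)))))) (T.h (P (nat_lit 0)) (T.h (T.h (M (nat_lit 9306149800544043007)) (T.h (P (nat_lit 0)) (P (nat_lit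 129681242717312)))) (T.h (P (nat_lit 0)) (P (nat_lit 1586148909312)))))))) (T.h (T.h (P (nat_lit 0)) (T.h (T.h (P (nat_lit 0)) (T.h (M (nat_lit 56440631814495246745599)) (T.h (P (nat_lit 0)) (P (nat_lit 297687919684386816))))) (T.h (P (nat_lit 0)) (T.h (T.h (P (nat_lit 0)) (M (nat_lit 11779929606979583))) (P (nat_lit 0)))))) (T.h (T.h (T.h (P (nat_lit 5767003101391923837927424)) (T.h (P (nat_lit 0)) (T.h (M (nat_lit 217516683191390306303)) (T.h (P (nat_lit 0)) (P (nat_lit 33231154151888)))))) (T.h (P (nat_lit 0)) (T.h (T.h (P (nat_lit 1877110365234397184)) (T.h (P (nat_lit 0)) (P (nat_lit 109922351265936)))) (T.h (P (nat_lit 0)) (M (nat_lit 52667779269951)))))) (T.h (T.h (P (nat_lit 0)) (T.h (T.h (P (nat_lit 0)) (M (nat_lit 115810020998676479))) (P (nat_lit 0)))) (T.h (T.h (T.h (P (nat_lit 2169328327335084032)) (T.h (P (nat_lit 0)) (M (nat_lit 17832029004943)))) (T.h (P (nat_lit 0)) (M (nat_lit 49126568938831)))) (T.h (P (nat_lit 0)) (P (nat_lit 3821769693456))))))))]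
def lP22_3 : List (T ℤ) := [(T.h (T.h (T.h (P (nat_lit 0)) (T.h (P (nat_lit 3166846873336167602856132608)) (T.h (P (nat_lit 0)) (T.h (M (nat_lit 14344602706940511911935)) (T.h (P (nat_lit 0)) (M (nat_lit 65582421789278207))))))) (T.h (P (nat_lit 0)) (T.h (T.h (P (nat_lit 0)) (T.h (P (nat_lit 54548994911447583555584)) (T.h (P (nat_lit 0)) (M (nat_lit 58682876268085247))))) (T.h (P (nat_lit 0)) (T.h (T.h (P (nat_lit 0)) (M (nat_lit 42086344733622271))) (P (nat_lit 0))))))) (T.h (T.h (P (nat_lit 0)) (T.h (T.h (P (nat_lit 9767776142240778154934272)) (T.h (P (nat_lit 0)) (M (nat_lit 145672624222347722751)))) (T.h (P (nat_lit 0)) (M (nat_lit 181177798486917119))))) (T.h (T.h (T.h (P (nat_lit 0)) (T.h (P (nat_lit 35266817870928178839552)) (T.h (P (nat_lit 0)) (M (nat_lit 12694745432686591))))) (T.h (P (nat_lit 0)) (T.h (T.h (P (nat_lit 0)) (M (nat_lit 41064510206017535))) (P (nat_lit 0))))) (T.h (T.h (P (nat_lit 0)) (P (nat_lit 11252920928419446784))) (T.h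 (T.h (T.h (P (nat_lit 0)) (M (nat_lit 384693298659327))) (P (nat_lit 0))) (P (nat_lit 0))))))), (P (nat_lit 0)), (P (nat_lit 0)), (T.h (T.h (P (nat_lit 0)) (T.h (T.h (P (nat_lit 5685019875831698336482590720)) (T.h (P (nat_lit 0)) (T.h (M (nat_lit 25833449350720953253887)) (T.h (P (nat_lit 0)) (P (nat_lit 68134088225685504)))))) (T.h (P (nat_lit 0)) (T.h (T.h (P (nat_lit 22558137889650198446080)) (T.h (P (nat_lit 0)) (P (nat_lit 51659034939162624)))) (T.h (P (nat_lit 0)) (M (nat_lit 43592615886290943))))))) (T.h (T.h (T.h (P (nat_lit 0)) (T.h (P (nat_lit 4354070054196628359741440)) (T.h (P (nat_lit 0)) (T.h (M (nat_lit 23581198596863688703)) (T.h (P (nat_lit 0)) (M (nat_lit 38572669247583))))))) (T.h (P (nat_lit 0)) (T.h (T.h (P (nat_lit 0)) (T.h (P (nat_lit 54497507742234705920)) (T.h (P (nat_lit 0)) (M (nat_lit 92577900358719))))) (T.h (P (nat_lit 0)) (T.h (T.h (P (nat_lit 0)) (P (nat_lit 27630245357104))) (P (nat_lit 0))))))) (T.h (T.h (P (nat_lit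 0)) (T.h (T.h (P (nat_lit 6175853262312199684096)) (T.h (P (nat_lit 0)) (P (nat_lit 104075782460309504)))) (T.h (P (nat_lit 0)) (M (nat_lit 22392977002594303))))) (T.h (T.h (T.h (P (nat_lit 0)) (T.h (M (nat_lit 7919079678348886015)) (T.h (P (nat_lit 0)) (M (nat_lit 21853032059887))))) (T.h (P (nat_lit 0)) (T.h (T.h (P (nat_lit 0)) (M (nat_lit 26900757114903))) (P (nat_lit 0))))) (T.h (T.h (P (nat_lit 0)) (M (nat_lit 2208110231322623))) (T.h (T.h (T.h (P (nat_lit 0)) (M (nat_lit 16789819801463))) (P (nat_lit 0))) (P (nat_lit 0)))))))), (T.h (T.h (P (nat_lit 0)) (T.h (T.h (P (nat_lit 0)) (T.h (P (nat_lit 70526209065233796783144960)) (T.h (P (nat_lit 0)) (T.h (M (nat_lit 817769225884234940415)) (T.h (P (nat_lit 0)) (P (nat_lit 5629987302560))))))) (T.h (P (nat_lit 0)) (T.h (T.h (P (nat_lit 0)) (T.h (P (nat_lit 23338111321054904320)) (T.h (P (nat_lit 0)) (P (nat_lit 346327786339536))))) (T.h (P (nat_lit 0)) (T.h (T.h (P (nat_lit 0)) (M (nat_lit 20915930440255)))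 (P (nat_lit 0)))))))) (T.h (T.h (T.h (P (nat_lit 497432562566840426191388672)) (T.h (P (nat_lit 0)) (T.h (M (nat_lit 40027040615283331956735)) (T.h (P (nat_lit 0)) (P (nat_lit 36767111433682944)))))) (T.h (P (nat_lit 0)) (T.h (T.h (P (nat_lit 6876364827149293584384)) (T.h (P (nat_lit 0)) (M (nat_lit 145468263997390847)))) (T.h (P (nat_lit 0)) (P (nat_lit 6341612324782080)))))) (T.h (T.h (P (nat_lit 0)) (T.h (T.h (P (nat_lit 0)) (T.h (M (nat_lit 103247090398378590207)) (T.h (P (nat_lit 0)) (M (nat_lit 138743880398239))))) (T.h (P (nat_lit 0)) (T.h (T.h (P (nat_lit 0)) (P (nat_lit 18354663940000))) (P (nat_lit 0)))))) (T.h (T.h (T.h (P (nat_lit 2862054342291145883648)) (T.h (P (nat_lit 0)) (M (nat_lit 37782777461571583)))) (T.h (P (nat_lit 0)) (P (nat_lit 45885516106907648)))) (T.h (T.h (P (nat_lit 0)) (T.h (T.h (P (nat_lit 0)) (P (nat_lit 33481742598912))) (P (nat_lit 0)))) (P (nat_lit 9812205560987648))))))), (T.h (T.h (P (nat_lit 0)) (T.h (T.h (M (nat_lit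 29811794875768097430166306815)) (T.h (P (nat_lit 0)) (T.h (P (nat_lit 506275462163121936793600)) (T.h (P (nat_lit 0)) (M (nat_lit 1512792907138695167)))))) (T.h (P (nat_lit 0)) (T.h (T.h (P (nat_lit 18779666287450602340352)) (T.h (P (nat_lit 0)) (M (nat_lit 125947280191946751)))) (T.h (P (nat_lit 0)) (M (nat_lit 23750232742199295))))))) (T.h (T.h (T.h (P (nat_lit 0)) (T.h (P (nat_lit 23381767355945894354616320)) (T.h (P (nat_lit 0)) (T.h (P (nat_lit 256980490934963666944)) (T.h (P (nat_lit 0)) (P (nat_lit 92390346224128))))))) (T.h (P (nat_lit 0)) (T.h (T.h (P (nat_lit 0)) (T.h (P (nat_lit 41452185600745537536)) (T.h (P (nat_lit 0)) (P (nat_lit 323801007112640))))) (T.h (P (nat_lit 0)) (T.h (T.h (P (nat_lit 0)) (M (nat_lit 135092302434559))) (P (nat_lit 0))))))) (T.h (T.h (P (nat_lit 0)) (T.h (T.h (P (nat_lit 14483498916290326691840)) (T.h (P (nat_lit 0)) (M (nat_lit 163866416494804991)))) (T.h (P (nat_lit 0)) (M (nat_lit 66990179196731391))))) (T.h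 (T.h (T.h (P (nat_lit 0)) (T.h (M (nat_lit 7445068234803380223)) (T.h (P (nat_lit 0)) (M (nat_lit 173328127994111))))) (T.h (P (nat_lit 0)) (T.h (T.h (P (nat_lit 0)) (M (nat_lit 129680774576831))) (P (nat_lit 0))))) (T.h (T.h (P (nat_lit 0)) (M (nat_lit 104316820470300671))) (T.h (T.h (T.h (P (nat_lit 0)) (M (nat_lit 10339465218239))) (P (nat_lit 0))) (P (nat_lit 0)))))))), (T.h (T.h (P (nat_lit 0)) (T.h (T.h (P (nat_lit 0)) (T.h (M (nat_lit 80905210978061627915501567)) (T.h (P (nat_lit 0)) (T.h (P (nat_lit 966498054002410782720)) (T.h (P (nat_lit 0)) (M (nat_lit 202010613196303))))))) (T.h (P (nat_lit 0)) (T.h (T.h (P (nat_lit 0)) (T.h (P (nat_lit 104709661005493305344)) (T.h (P (nat_lit 0)) (M (nat_lit 40807260833679))))) (T.h (P (nat_lit 0)) (T.h (T.h (P (nat_lit 0)) (P (nat_lit 9843633707952))) (P (nat_lit 0)))))))) (T.h (T.h (T.h (P (nat_lit 15233738752004595955919749120)) (T.h (P (nat_lit 0)) (T.h (M (nat_lit 190912665759102877564927)) (T.h (P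 (nat_lit 0)) (M (nat_lit 59401021968924671)))))) (T.h (P (nat_lit 0)) (T.h (T.h (M (nat_lit 50588246820526462337023)) (T.h (P (nat_lit 0)) (M (nat_lit 481125668614946815)))) (T.h (P (nat_lit 0)) (P (nat_lit 37657315048210432)))))) (T.h (T.h (P (nat_lit 0)) (T.h (T.h (P (nat_lit 0)) (T.h (P (nat_lit 180384892735593644032)) (T.h (P (nat_lit 0)) (M (nat_lit 160765879742335))))) (T.h (P (nat_lit 0)) (T.h (T.h (P (nat_lit 0)) (M (nat_lit 153951304182895))) (P (nat_lit 0)))))) (T.h (T.h (T.h (M (nat_lit 21694648982052280467455)) (T.h (P (nat_lit 0)) (P (nat_lit 117065434944339968)))) (T.h (P (nat_lit 0)) (P (nat_lit 153507077665947648)))) (T.h (T.h (P (nat_lit 0)) (T.h (T.h (P (nat_lit 0)) (M (nat_lit 46938132056991))) (P (nat_lit 0)))) (M (nat_lit 8026129388699647))))))), (T.h (T.h (P (nat_lit 0)) (T.h (T.h (P (nat_lit 9479945226855203678944493568)) (T.h (P (nat_lit 0)) (T.h (M (nat_lit 252405377024740638588927)) (T.h (P (nat_lit 0)) (P (nat_lit 158948710125174784))))))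 (T.h (P (nat_lit 0)) (T.h (T.h (M (nat_lit 8055960460481364230143)) (T.h (P (nat_lit 0)) (M (nat_lit 73784448161644543)))) (T.h (P (nat_lit 0)) (M (nat_lit 3604578148319231))))))) (T.h (T.h (T.h (P (nat_lit 0)) (T.h (P (nat_lit 68480659706341009634885632)) (T.h (P (nat_lit 0)) (M (nat_lit 76622548805082939391))))) (T.h (P (nat_lit 0)) (T.h (T.h (P (nat_lit 0)) (P (nat_lit 28561419631895511040))) (P (nat_lit 0))))) (T.h (T.h (P (nat_lit 0)) (T.h (T.h (M (nat_lit 15229871120192928481279)) (T.h (P (nat_lit 0)) (P (nat_lit 48863964941058048)))) (T.h (P (nat_lit 0)) (P (nat_lit 67886065340547072))))) (T.h (T.h (T.h (P (nat_lit 0)) (P (nat_lit 11930534835996590080))) (P (nat_lit 0))) (T.h (T.h (P (nat_lit 0)) (P (nat_lit 27031974620561408))) (P (nat_lit 0)))))))]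
def lP22_4 : List (T ℤ) := [(P (nat_lit 0)), (P (nat_lit 0)), (T.h (T.h (T.h (P (nat_lit 0)) (T.h (P (nat_lit 5685019875831698336482590720)) (T.h (P (nat_lit 0)) (T.h (P (nat_lit 22558137889650198446080)) (T.h (P (nat_lit 0)) (M (nat_lit 43592615886290943))))))) (T.h (P (nat_lit 0)) (T.h (T.h (P (nat_lit 0)) (T.h (M (nat_lit 25833449350720953253887)) (T.h (P (nat_lit 0)) (P (nat_lit 51659034939162624))))) (T.h (P (nat_lit 0)) (T.h (T.h (P (nat_lit 0)) (P (nat_lit 68134088225685504))) (P (nat_lit 0))))))) (T.h (T.h (P (nat_lit 0)) (T.h (T.h (P (nat_lit 4354070054196628359741440)) (T.h (P (nat_lit 0)) (T.h (P (nat_lit 54497507742234705920)) (T.h (P (nat_lit 0)) (P (nat_lit 27630245357104)))))) (T.h (P (nat_lit 0)) (T.h (T.h (M (nat_lit 23581198596863688703)) (T.h (P (nat_lit 0)) (M (nat_lit 92577900358719)))) (T.h (P (nat_lit 0)) (M (nat_lit 38572669247583))))))) (T.h (T.h (T.h (P (nat_lit 0)) (T.h (P (nat_lit 6175853262312199684096)) (T.h (P (nat_lit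 0)) (M (nat_lit 22392977002594303))))) (T.h (P (nat_lit 0)) (T.h (T.h (P (nat_lit 0)) (P (nat_lit 104075782460309504))) (P (nat_lit 0))))) (T.h (T.h (P (nat_lit 0)) (T.h (T.h (M (nat_lit 7919079678348886015)) (T.h (P (nat_lit 0)) (M (nat_lit 26900757114903)))) (T.h (P (nat_lit 0)) (M (nat_lit 21853032059887))))) (T.h (T.h (T.h (P (nat_lit 0)) (M (nat_lit 2208110231322623))) (P (nat_lit 0))) (T.h (T.h (P (nat_lit 0)) (M (nat_lit 16789819801463))) (P (nat_lit 0)))))))), (T.h (T.h (T.h (P (nat_lit 22617088506532989352597639921664)) (T.h (P (nat_lit 0)) (T.h (P (nat_lit 8457161709171102583881728)) (T.h (P (nat_lit 0)) (T.h (P (nat_lit 74036933237223194624)) (T.h (P (nat_lit 0)) (M (nat_lit 26207854071903)))))))) (T.h (P (nat_lit 0)) (T.h (T.h (P (nat_lit 8457161709171102583881728)) (T.h (P (nat_lit 0)) (T.h (P (nat_lit 101276404498535809024)) (T.h (P (nat_lit 0)) (M (nat_lit 171985111421919)))))) (T.h (P (nat_lit 0)) (T.h (T.h (P (nat_lit 74036933237223194624))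 (T.h (P (nat_lit 0)) (M (nat_lit 171985111421919)))) (T.h (P (nat_lit 0)) (M (nat_lit 26207854071903)))))))) (T.h (T.h (P (nat_lit 0)) (T.h (T.h (P (nat_lit 0)) (T.h (P (nat_lit 436545863640585823322112)) (T.h (P (nat_lit 0)) (P (nat_lit 231010450467749888))))) (T.h (P (nat_lit 0)) (T.h (T.h (P (nat_lit 0)) (P (nat_lit 231010450467749888))) (P (nat_lit 0)))))) (T.h (T.h (T.h (P (nat_lit 3140137524329456248815616)) (T.h (P (nat_lit 0)) (T.h (P (nat_lit 45458294552150409216)) (T.h (P (nat_lit 0)) (P (nat_lit 15164383117568)))))) (T.h (P (nat_lit 0)) (T.h (T.h (P (nat_lit 45458294552150409216)) (T.h (P (nat_lit 0)) (P (nat_lit 913938109348384)))) (T.h (P (nat_lit 0)) (P (nat_lit 15164383117568)))))) (T.h (T.h (P (nat_lit 0)) (T.h (T.h (P (nat_lit 0)) (M (nat_lit 186331836287156223))) (P (nat_lit 0)))) (T.h (T.h (T.h (M (nat_lit 13734426222065090559)) (T.h (P (nat_lit 0)) (P (nat_lit 18863524992736)))) (T.h (P (nat_lit 0)) (P (nat_lit 18863524992736))))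 (T.h (P (nat_lit 0)) (P (nat_lit 6987571952256)))))))), (T.h (T.h (T.h (P (nat_lit 0)) (T.h (P (nat_lit 46792758968280233293480198144)) (T.h (P (nat_lit 0)) (T.h (P (nat_lit 216971507881601824456704)) (T.h (P (nat_lit 0)) (P (nat_lit 11969581587103744))))))) (T.h (P (nat_lit 0)) (T.h (T.h (P (nat_lit 0)) (T.h (M (nat_lit 125136616968347103264767)) (T.h (P (nat_lit 0)) (M (nat_lit 277069416380858367))))) (T.h (P (nat_lit 0)) (T.h (T.h (P (nat_lit 0)) (P (nat_lit 265822393296289792))) (P (nat_lit 0))))))) (T.h (T.h (P (nat_lit 0)) (T.h (T.h (M (nat_lit 83626387721824454582468607)) (T.h (P (nat_lit 0)) (T.h (M (nat_lit 696900677064655372287)) (T.h (P (nat_lit 0)) (P (nat_lit 265807357753792)))))) (T.h (P (nat_lit 0)) (T.h (T.h (M (nat_lit 94436845230223261695)) (T.h (P (nat_lit 0)) (M (nat_lit 333470482810303)))) (T.h (P (nat_lit 0)) (P (nat_lit 107326841501440))))))) (T.h (T.h (T.h (P (nat_lit 0)) (T.h (M (nat_lit 24332516310276678615039)) (T.h (P (nat_lit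 0)) (M (nat_lit 21901407346294783))))) (T.h (P (nat_lit 0)) (T.h (T.h (P (nat_lit 0)) (P (nat_lit 122755825063264256))) (P (nat_lit 0))))) (T.h (T.h (P (nat_lit 0)) (T.h (T.h (P (nat_lit 85766246270368743424)) (T.h (P (nat_lit 0)) (P (nat_lit 36848463641664)))) (T.h (P (nat_lit 0)) (P (nat_lit 197314070123200))))) (T.h (T.h (T.h (P (nat_lit 0)) (P (nat_lit 116005186613870592))) (P (nat_lit 0))) (T.h (T.h (P (nat_lit 0)) (P (nat_lit 11420856083328))) (P (nat_lit 0)))))))), (T.h (T.h (T.h (P (nat_lit 90041645070864497468254453760)) (T.h (P (nat_lit 0)) (T.h (M (nat_lit 74297551689310308902371327)) (T.h (P (nat_lit 0)) (T.h (P (nat_lit 336412622550833561600)) (T.h (P (nat_lit 0)) (M (nat_lit 499469368768831)))))))) (T.h (P (nat_lit 0)) (T.h (T.h (M (nat_lit 82978344281189709284114431)) (T.h (P (nat_lit 0)) (T.h (P (nat_lit 185568451651652550656)) (T.h (P (nat_lit 0)) (M (nat_lit 1548465693749039)))))) (T.h (P (nat_lit 0)) (T.h (T.h (M (nat_lit 78420376951661264895))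 (T.h (P (nat_lit 0)) (P (nat_lit 227616305269056)))) (T.h (P (nat_lit 0)) (M (nat_lit 100380931134879)))))))) (T.h (T.h (P (nat_lit 0)) (T.h (T.h (P (nat_lit 0)) (T.h (M (nat_lit 465666743731333762121727)) (T.h (P (nat_lit 0)) (M (nat_lit 1348142103835803647))))) (T.h (P (nat_lit 0)) (T.h (T.h (P (nat_lit 0)) (P (nat_lit 536079415609098240))) (P (nat_lit 0)))))) (T.h (T.h (T.h (M (nat_lit 9814911570293775350628351)) (T.h (P (nat_lit 0)) (T.h (P (nat_lit 341679502975320457216)) (T.h (P (nat_lit 0)) (M (nat_lit 311887139930959)))))) (T.h (P (nat_lit 0)) (T.h (T.h (M (nat_lit 99246207615725731839)) (T.h (P (nat_lit 0)) (M (nat_lit 1201170315836127)))) (T.h (P (nat_lit 0)) (P (nat_lit 211605099716560)))))) (T.h (T.h (P (nat_lit 0)) (T.h (T.h (P (nat_lit 0)) (P (nat_lit 424906803810205696))) (P (nat_lit 0)))) (T.h (T.h (T.h (P (nat_lit 10325048240973545472)) (T.h (P (nat_lit 0)) (P (nat_lit 45874032146976)))) (T.h (P (nat_lit 0)) (P (nat_lit 46870734497312))))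 (T.h (P (nat_lit 0)) (M (nat_lit 10492294430287)))))))), (T.h (T.h (T.h (P (nat_lit 0)) (T.h (P (nat_lit 23189883887025830961654792192)) (T.h (P (nat_lit 0)) (T.h (M (nat_lit 243099935357513639133183)) (T.h (P (nat_lit 0)) (P (nat_lit 595563394477948928))))))) (T.h (P (nat_lit 0)) (T.h (T.h (P (nat_lit 0)) (T.h (M (nat_lit 33956056854755006218239)) (T.h (P (nat_lit 0)) (P (nat_lit 1175977343068569600))))) (T.h (P (nat_lit 0)) (T.h (T.h (P (nat_lit 0)) (M (nat_lit 93919563231952895))) (P (nat_lit 0))))))) (T.h (T.h (P (nat_lit 0)) (T.h (T.h (P (nat_lit 104213714518363397557321728)) (T.h (P (nat_lit 0)) (P (nat_lit 571332830943741214720)))) (T.h (P (nat_lit 0)) (M (nat_lit 18889754215679262719))))) (T.h (T.h (T.h (P (nat_lit 0)) (T.h (M (nat_lit 87515735663265416478719)) (T.h (P (nat_lit 0)) (P (nat_lit 262202542911520768))))) (T.h (P (nat_lit 0)) (T.h (T.h (P (nat_lit 0)) (P (nat_lit 533260947869499392))) (P (nat_lit 0))))) (T.h (T.h (P (nat_lit 0))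 (M (nat_lit 99944006815716474879))) (T.h (T.h (T.h (P (nat_lit 0)) (M (nat_lit 8342794656481279))) (P (nat_lit 0))) (P (nat_lit 0))))))), (P (nat_lit 0))]
def lP22_5 : List (T ℤ) := [(P (nat_lit 0)), (T.h (T.h (P (nat_lit 0)) (T.h (T.h (M (nat_lit 12684840511315129229494976511)) (T.h (P (nat_lit 0)) (T.h (P (nat_lit 4077642440654830174208)) (T.h (P (nat_lit 0)) (M (nat_lit 4290026769317887)))))) (T.h (P (nat_lit 0)) (T.h (T.h (M (nat_lit 53016593064264569192447)) (T.h (P (nat_lit 0)) (P (nat_lit 42281672534786048)))) (T.h (P (nat_lit 0)) (P (nat_lit 2782105205997568))))))) (T.h (T.h (T.h (P (nat_lit 0)) (T.h (P (nat_lit 1387203145980497050468352)) (T.h (P (nat_lit 0)) (T.h (P (nat_lit 5129996790287826944)) (T.h (P (nat_lit 0)) (M (nat_lit 5667384178967))))))) (T.h (P (nat_lit 0)) (T.h (T.h (P (nat_lit 0)) (T.h (P (nat_lit 7509937226516529152)) (T.h (P (nat_lit 0)) (P (nat_lit 80491955580040))))) (T.h (P (nat_lit 0)) (T.h (T.h (P (nat_lit 0)) (M (nat_lit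 18001481031807))) (P (nat_lit 0))))))) (T.h (T.h (P (nat_lit 0)) (T.h (T.h (M (nat_lit 7879741752788425637887)) (T.h (P (nat_lit 0)) (P (nat_lit 3910183346012160)))) (T.h (P (nat_lit 0)) (M (nat_lit 7310596866047999))))) (T.h (T.h (T.h (P (nat_lit 0)) (T.h (M (nat_lit 3278463469824770047)) (T.h (P (nat_lit 0)) (P (nat_lit 5615599430704))))) (T.h (P (nat_lit 0)) (T.h (T.h (P (nat_lit 0)) (M (nat_lit 24712533350719))) (P (nat_lit 0))))) (T.h (T.h (P (nat_lit 0)) (P (nat_lit 9953376213958656))) (T.h (T.h (T.h (P (nat_lit 0)) (P (nat_lit 15368633917056))) (P (nat_lit 0))) (P (nat_lit 0)))))))), (T.h (T.h (P (nat_lit 0)) (T.h (T.h (P (nat_lit 0)) (T.h (P (nat_lit 70526209065233796783144960)) (T.h (P (nat_lit 0)) (T.h (P (nat_lit 23338111321054904320)) (T.h (P (nat_lit 0)) (M (nat_lit 20915930440255))))))) (T.h (P (nat_lit 0)) (T.h (T.h (P (nat_lit 0)) (T.h (M (nat_lit 817769225884234940415)) (T.h (P (nat_lit 0)) (P (nat_lit 346327786339536))))) (T.h (P (nat_lit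 0)) (T.h (T.h (P (nat_lit 0)) (P (nat_lit 5629987302560))) (P (nat_lit 0)))))))) (T.h (T.h (T.h (P (nat_lit 497432562566840426191388672)) (T.h (P (nat_lit 0)) (T.h (P (nat_lit 6876364827149293584384)) (T.h (P (nat_lit 0)) (P (nat_lit 6341612324782080)))))) (T.h (P (nat_lit 0)) (T.h (T.h (M (nat_lit 40027040615283331956735)) (T.h (P (nat_lit 0)) (M (nat_lit 145468263997390847)))) (T.h (P (nat_lit 0)) (P (nat_lit 36767111433682944)))))) (T.h (T.h (P (nat_lit 0)) (T.h (T.h (P (nat_lit 0)) (T.h (M (nat_lit 103247090398378590207)) (T.h (P (nat_lit 0)) (P (nat_lit 18354663940000))))) (T.h (P (nat_lit 0)) (T.h (T.h (P (nat_lit 0)) (M (nat_lit 138743880398239))) (P (nat_lit 0)))))) (T.h (T.h (T.h (P (nat_lit 2862054342291145883648)) (T.h (P (nat_lit 0)) (P (nat_lit 45885516106907648)))) (T.h (P (nat_lit 0)) (M (nat_lit 37782777461571583)))) (T.h (T.h (P (nat_lit 0)) (T.h (T.h (P (nat_lit 0)) (P (nat_lit 33481742598912))) (P (nat_lit 0)))) (P (nat_lit 9812205560987648))))))),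 (T.h (T.h (P (nat_lit 0)) (T.h (T.h (P (nat_lit 46792758968280233293480198144)) (T.h (P (nat_lit 0)) (T.h (M (nat_lit 125136616968347103264767)) (T.h (P (nat_lit 0)) (P (nat_lit 265822393296289792)))))) (T.h (P (nat_lit 0)) (T.h (T.h (P (nat_lit 216971507881601824456704)) (T.h (P (nat_lit 0)) (M (nat_lit 277069416380858367)))) (T.h (P (nat_lit 0)) (P (nat_lit 11969581587103744))))))) (T.h (T.h (T.h (P (nat_lit 0)) (T.h (M (nat_lit 83626387721824454582468607)) (T.h (P (nat_lit 0)) (T.h (M (nat_lit 94436845230223261695)) (T.h (P (nat_lit 0)) (P (nat_lit 107326841501440))))))) (T.h (P (nat_lit 0)) (T.h (T.h (P (nat_lit 0)) (T.h (M (nat_lit 696900677064655372287)) (T.h (P (nat_lit 0)) (M (nat_lit 333470482810303))))) (T.h (P (nat_lit 0)) (T.h (T.h (P (nat_lit 0)) (P (nat_lit 265807357753792))) (P (nat_lit 0))))))) (T.h (T.h (P (nat_lit 0)) (T.h (T.h (M (nat_lit 24332516310276678615039)) (T.h (P (nat_lit 0)) (P (nat_lit 122755825063264256)))) (T.h (P (nat_lit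 0)) (M (nat_lit 21901407346294783))))) (T.h (T.h (T.h (P (nat_lit 0)) (T.h (P (nat_lit 85766246270368743424)) (T.h (P (nat_lit 0)) (P (nat_lit 197314070123200))))) (T.h (P (nat_lit 0)) (T.h (T.h (P (nat_lit 0)) (P (nat_lit 36848463641664))) (P (nat_lit 0))))) (T.h (T.h (P (nat_lit 0)) (P (nat_lit 116005186613870592))) (T.h (T.h (T.h (P (nat_lit 0)) (P (nat_lit 11420856083328))) (P (nat_lit 0))) (P (nat_lit 0)))))))), (T.h (T.h (P (nat_lit 0)) (T.h (T.h (P (nat_lit 0)) (T.h (M (nat_lit 30324963064396105518153727)) (T.h (P (nat_lit 0)) (T.h (P (nat_lit 543754214121337257984)) (T.h (P (nat_lit 0)) (M (nat_lit 511264914572719))))))) (T.h (P (nat_lit 0)) (T.h (T.h (P (nat_lit 0)) (T.h (P (nat_lit 543754214121337257984)) (T.h (P (nat_lit 0)) (M (nat_lit 1759458341326751))))) (T.h (P (nat_lit 0)) (T.h (T.h (P (nat_lit 0)) (M (nat_lit 511264914572719))) (P (nat_lit 0)))))))) (T.h (T.h (T.h (P (nat_lit 2328535345222944051758628864)) (T.h (P (nat_lit 0)) (T.h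 (P (nat_lit 247039374308906822008832)) (T.h (P (nat_lit 0)) (M (nat_lit 145400556215058431)))))) (T.h (P (nat_lit 0)) (T.h (T.h (P (nat_lit 247039374308906822008832)) (T.h (P (nat_lit 0)) (P (nat_lit 1230293658452131840)))) (T.h (P (nat_lit 0)) (M (nat_lit 145400556215058431)))))) (T.h (T.h (P (nat_lit 0)) (T.h (T.h (P (nat_lit 0)) (T.h (M (nat_lit 151511431282023202815)) (T.h (P (nat_lit 0)) (P (nat_lit 523327662662640))))) (T.h (P (nat_lit 0)) (T.h (T.h (P (nat_lit 0)) (P (nat_lit 523327662662640))) (P (nat_lit 0)))))) (T.h (T.h (T.h (P (nat_lit 4364167748600012472320)) (T.h (P (nat_lit 0)) (M (nat_lit 380614331262664703)))) (T.h (P (nat_lit 0)) (M (nat_lit 380614331262664703)))) (T.h (T.h (P (nat_lit 0)) (T.h (T.h (P (nat_lit 0)) (M (nat_lit 237527651697951))) (P (nat_lit 0)))) (M (nat_lit 1605405777788927))))))), (T.h (T.h (P (nat_lit 0)) (T.h (T.h (P (nat_lit 37495071686497208421731794944)) (T.h (P (nat_lit 0)) (T.h (M (nat_lit 426842702168290282700799))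 (T.h (P (nat_lit 0)) (P (nat_lit 1052533473347338240)))))) (T.h (P (nat_lit 0)) (T.h (T.h (M (nat_lit 138571131412666097074175)) (T.h (P (nat_lit 0)) (P (nat_lit 813225388758859776)))) (T.h (P (nat_lit 0)) (P (nat_lit 207322856984576000))))))) (T.h (T.h (T.h (P (nat_lit 0)) (T.h (M (nat_lit 8530470887322473985998847)) (T.h (P (nat_lit 0)) (P (nat_lit 124755095903367331840))))) (T.h (P (nat_lit 0)) (T.h (T.h (P (nat_lit 0)) (M (nat_lit 394182288451529867263))) (P (nat_lit 0))))) (T.h (T.h (P (nat_lit 0)) (T.h (T.h (P (nat_lit 16057378342646109437952)) (T.h (P (nat_lit 0)) (P (nat_lit 154969859478683648)))) (T.h (P (nat_lit 0)) (M (nat_lit 255022184546467839))))) (T.h (T.h (T.h (P (nat_lit 0)) (P (nat_lit 11526735466153902080))) (P (nat_lit 0))) (T.h (T.h (P (nat_lit 0)) (P (nat_lit 26770372925128704))) (P (nat_lit 0))))))), (P (nat_lit 0)), (P (nat_lit 0))]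
def lP22_6 : List (T ℤ) := [(T.h (T.h (T.h (P (nat_lit 0)) (T.h (P (nat_lit 13204927875378715774934843392)) (T.h (P (nat_lit 0)) (T.h (M (nat_lit 590497161174321201151)) (T.h (P (nat_lit 0)) (M (nat_lit 17312308370309119))))))) (T.h (P (nat_lit 0)) (T.h (T.h (P (nat_lit 0)) (T.h (P (nat_lit 13539892843789789691904)) (T.h (P (nat_lit 0)) (M (nat_lit 27032684399165439))))) (T.h (P (nat_lit 0)) (T.h (T.h (P (nat_lit 0)) (M (nat_lit 11870878074175487))) (P (nat_lit 0))))))) (T.h (T.h (P (nat_lit 0)) (T.h (T.h (M (nat_lit 122639602115953821745151)) (T.h (P (nat_lit 0)) (T.h (P (nat_lit 17277838074277003264)) (T.h (P (nat_lit 0)) (M (nat_lit 26065790100687)))))) (T.h (P (nat_lit 0)) (T.h (T.h (P (nat_lit 23265789879055810560)) (T.h (P (nat_lit 0)) (M (nat_lit 33347038321839)))) (T.h (P (nat_lit 0)) (M (nat_lit 36276789813271))))))) (T.h (T.h (T.h (P (nat_lit 0)) (T.h (P (nat_lit 3282297356631899373568)) (T.h (P (nat_lit 0)) (M (nat_lit 7315163158740991)))))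 (T.h (P (nat_lit 0)) (T.h (T.h (P (nat_lit 0)) (M (nat_lit 21109903815409663))) (P (nat_lit 0))))) (T.h (T.h (P (nat_lit 0)) (T.h (T.h (P (nat_lit 2240755757060456448)) (T.h (P (nat_lit 0)) (M (nat_lit 4134781533415)))) (T.h (P (nat_lit 0)) (M (nat_lit 20913852849103))))) (T.h (T.h (T.h (P (nat_lit 0)) (M (nat_lit 2513831367540735))) (P (nat_lit 0))) (T.h (T.h (P (nat_lit 0)) (M (nat_lit 3482561271999))) (P (nat_lit 0)))))))), (T.h (T.h (T.h (P (nat_lit 15172213786557349686731121623040)) (T.h (P (nat_lit 0)) (T.h (M (nat_lit 18264153611699954183569407)) (T.h (P (nat_lit 0)) (T.h (M (nat_lit 8776527609941983231)) (T.h (P (nat_lit 0)) (P (nat_lit 7181325551792)))))))) (T.h (P (nat_lit 0)) (T.h (T.h (P (nat_lit 21374983709252717796917248)) (T.h (P (nat_lit 0)) (T.h (M (nat_lit 32579711267497836543)) (T.h (P (nat_lit 0)) (M (nat_lit 25450372979775)))))) (T.h (P (nat_lit 0)) (T.h (T.h (M (nat_lit 47365347442010619903)) (T.h (P (nat_lit 0)) (P (nat_lit 439341944415168))))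 (T.h (P (nat_lit 0)) (P (nat_lit 63359498543120)))))))) (T.h (T.h (P (nat_lit 0)) (T.h (T.h (P (nat_lit 0)) (T.h (P (nat_lit 2070260029915047919616)) (T.h (P (nat_lit 0)) (M (nat_lit 56295723824119807))))) (T.h (P (nat_lit 0)) (T.h (T.h (P (nat_lit 0)) (P (nat_lit 184625113980796928))) (P (nat_lit 0)))))) (T.h (T.h (T.h (M (nat_lit 1210949200232913911676927)) (T.h (P (nat_lit 0)) (T.h (M (nat_lit 1443524170846568447)) (T.h (P (nat_lit 0)) (P (nat_lit 7834943220656)))))) (T.h (P (nat_lit 0)) (T.h (T.h (P (nat_lit 104816937201435672576)) (T.h (P (nat_lit 0)) (M (nat_lit 2428238407215)))) (T.h (P (nat_lit 0)) (P (nat_lit 65805890694080)))))) (T.h (T.h (P (nat_lit 0)) (T.h (T.h (P (nat_lit 0)) (P (nat_lit 71083122527076352))) (P (nat_lit 0)))) (T.h (T.h (T.h (M (nat_lit 1640313288946352127)) (T.h (P (nat_lit 0)) (P (nat_lit 7778266412928)))) (T.h (P (nat_lit 0)) (M (nat_lit 27352561037247)))) (T.h (P (nat_lit 0)) (M (nat_lit 2258787755471)))))))), (T.h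 (T.h (T.h (P (nat_lit 0)) (T.h (M (nat_lit 29811794875768097430166306815)) (T.h (P (nat_lit 0)) (T.h (P (nat_lit 18779666287450602340352)) (T.h (P (nat_lit 0)) (M (nat_lit 23750232742199295))))))) (T.h (P (nat_lit 0)) (T.h (T.h (P (nat_lit 0)) (T.h (P (nat_lit 506275462163121936793600)) (T.h (P (nat_lit 0)) (M (nat_lit 125947280191946751))))) (T.h (P (nat_lit 0)) (T.h (T.h (P (nat_lit 0)) (M (nat_lit 1512792907138695167))) (P (nat_lit 0))))))) (T.h (T.h (P (nat_lit 0)) (T.h (T.h (P (nat_lit 23381767355945894354616320)) (T.h (P (nat_lit 0)) (T.h (P (nat_lit 41452185600745537536)) (T.h (P (nat_lit 0)) (M (nat_lit 135092302434559)))))) (T.h (P (nat_lit 0)) (T.h (T.h (P (nat_lit 256980490934963666944)) (T.h (P (nat_lit 0)) (P (nat_lit 323801007112640)))) (T.h (P (nat_lit 0)) (P (nat_lit 92390346224128))))))) (T.h (T.h (T.h (P (nat_lit 0)) (T.h (P (nat_lit 14483498916290326691840)) (T.h (P (nat_lit 0)) (M (nat_lit 66990179196731391))))) (T.h (P (nat_lit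 0)) (T.h (T.h (P (nat_lit 0)) (M (nat_lit 163866416494804991))) (P (nat_lit 0))))) (T.h (T.h (P (nat_lit 0)) (T.h (T.h (M (nat_lit 7445068234803380223)) (T.h (P (nat_lit 0)) (M (nat_lit 129680774576831)))) (T.h (P (nat_lit 0)) (M (nat_lit 173328127994111))))) (T.h (T.h (T.h (P (nat_lit 0)) (M (nat_lit 104316820470300671))) (P (nat_lit 0))) (T.h (T.h (P (nat_lit 0)) (M (nat_lit 10339465218239))) (P (nat_lit 0)))))))), (T.h (T.h (T.h (P (nat_lit 90041645070864497468254453760)) (T.h (P (nat_lit 0)) (T.h (M (nat_lit 82978344281189709284114431)) (T.h (P (nat_lit 0)) (T.h (M (nat_lit 78420376951661264895)) (T.h (P (nat_lit 0)) (M (nat_lit 100380931134879)))))))) (T.h (P (nat_lit 0)) (T.h (T.h (M (nat_lit 74297551689310308902371327)) (T.h (P (nat_lit 0)) (T.h (P (nat_lit 185568451651652550656)) (T.h (P (nat_lit 0)) (P (nat_lit 227616305269056)))))) (T.h (P (nat_lit 0)) (T.h (T.h (P (nat_lit 336412622550833561600)) (T.h (P (nat_lit 0)) (M (nat_lit 1548465693749039))))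 (T.h (P (nat_lit 0)) (M (nat_lit 499469368768831)))))))) (T.h (T.h (P (nat_lit 0)) (T.h (T.h (P (nat_lit 0)) (T.h (M (nat_lit 465666743731333762121727)) (T.h (P (nat_lit 0)) (P (nat_lit 536079415609098240))))) (T.h (P (nat_lit 0)) (T.h (T.h (P (nat_lit 0)) (M (nat_lit 1348142103835803647))) (P (nat_lit 0)))))) (T.h (T.h (T.h (M (nat_lit 9814911570293775350628351)) (T.h (P (nat_lit 0)) (T.h (M (nat_lit 99246207615725731839)) (T.h (P (nat_lit 0)) (P (nat_lit 211605099716560)))))) (T.h (P (nat_lit 0)) (T.h (T.h (P (nat_lit 341679502975320457216)) (T.h (P (nat_lit 0)) (M (nat_lit 1201170315836127)))) (T.h (P (nat_lit 0)) (M (nat_lit 311887139930959)))))) (T.h (T.h (P (nat_lit 0)) (T.h (T.h (P (nat_lit 0)) (P (nat_lit 424906803810205696))) (P (nat_lit 0)))) (T.h (T.h (T.h (P (nat_lit 10325048240973545472)) (T.h (P (nat_lit 0)) (P (nat_lit 46870734497312)))) (T.h (P (nat_lit 0)) (P (nat_lit 45874032146976)))) (T.h (P (nat_lit 0)) (M (nat_lit 10492294430287)))))))),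 (T.h (T.h (T.h (P (nat_lit 0)) (T.h (P (nat_lit 37495071686497208421731794944)) (T.h (P (nat_lit 0)) (T.h (M (nat_lit 138571131412666097074175)) (T.h (P (nat_lit 0)) (P (nat_lit 207322856984576000))))))) (T.h (P (nat_lit 0)) (T.h (T.h (P (nat_lit 0)) (T.h (M (nat_lit 426842702168290282700799)) (T.h (P (nat_lit 0)) (P (nat_lit 813225388758859776))))) (T.h (P (nat_lit 0)) (T.h (T.h (P (nat_lit 0)) (P (nat_lit 1052533473347338240))) (P (nat_lit 0))))))) (T.h (T.h (P (nat_lit 0)) (T.h (T.h (M (nat_lit 8530470887322473985998847)) (T.h (P (nat_lit 0)) (M (nat_lit 394182288451529867263)))) (T.h (P (nat_lit 0)) (P (nat_lit 124755095903367331840))))) (T.h (T.h (T.h (P (nat_lit 0)) (T.h (P (nat_lit 16057378342646109437952)) (T.h (P (nat_lit 0)) (M (nat_lit 255022184546467839))))) (T.h (P (nat_lit 0)) (T.h (T.h (P (nat_lit 0)) (P (nat_lit 154969859478683648))) (P (nat_lit 0))))) (T.h (T.h (P (nat_lit 0)) (P (nat_lit 11526735466153902080))) (T.h (T.h (T.h (P (nat_lit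 0)) (P (nat_lit 26770372925128704))) (P (nat_lit 0))) (P (nat_lit 0))))))), (P (nat_lit 0)), (P (nat_lit 0)), (T.h (T.h (P (nat_lit 0)) (T.h (T.h (M (nat_lit 13616060523248372760361041919)) (T.h (P (nat_lit 0)) (T.h (M (nat_lit 1018639444731261616127)) (T.h (P (nat_lit 0)) (M (nat_lit 3105598149197823)))))) (T.h (P (nat_lit 0)) (T.h (T.h (P (nat_lit 25248286323423985008640)) (T.h (P (nat_lit 0)) (P (nat_lit 21287966337204224)))) (T.h (P (nat_lit 0)) (P (nat_lit 97560360966946816))))))) (T.h (T.h (T.h (P (nat_lit 0)) (T.h (P (nat_lit 988941334891427054747648)) (T.h (P (nat_lit 0)) (T.h (P (nat_lit 4289571691257921536)) (T.h (P (nat_lit 0)) (M (nat_lit 1780149283047))))))) (T.h (P (nat_lit 0)) (T.h (T.h (P (nat_lit 0)) (T.h (P (nat_lit 21892392839739867136)) (T.h (P (nat_lit 0)) (P (nat_lit 6954812085344))))) (T.h (P (nat_lit 0)) (T.h (T.h (P (nat_lit 0)) (P (nat_lit 43087163693056))) (P (nat_lit 0))))))) (T.h (T.h (P (nat_lit 0)) (T.h (T.h (P (nat_lit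 267052711276420530176)) (T.h (P (nat_lit 0)) (M (nat_lit 15203226427064319)))) (T.h (P (nat_lit 0)) (P (nat_lit 29095574034907136))))) (T.h (T.h (T.h (P (nat_lit 0)) (T.h (P (nat_lit 2589773294710292480)) (T.h (P (nat_lit 0)) (M (nat_lit 10560971751551))))) (T.h (P (nat_lit 0)) (T.h (T.h (P (nat_lit 0)) (P (nat_lit 14981556922784))) (P (nat_lit 0))))) (T.h (T.h (P (nat_lit 0)) (M (nat_lit 1271887051128831))) (T.h (T.h (T.h (P (nat_lit 0)) (M (nat_lit 3269161860247))) (P (nat_lit 0))) (P (nat_lit 0))))))))]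
def lP22_7 : List (T ℤ) := [(T.h (T.h (P (nat_lit 0)) (T.h (T.h (P (nat_lit 0)) (T.h (M (nat_lit 3746786908111961168281599)) (T.h (P (nat_lit 0)) (T.h (P (nat_lit 21421683604952449024)) (T.h (P (nat_lit 0)) (P (nat_lit 7351350546784))))))) (T.h (P (nat_lit 0)) (T.h (T.h (P (nat_lit 0)) (T.h (P (nat_lit 150605351395472179200)) (T.h (P (nat_lit 0)) (M (nat_lit 29896136530671))))) (T.h (P (nat_lit 0)) (T.h (T.h (P (nat_lit 0)) (P (nat_lit 126624751875824))) (P (nat_lit 0)))))))) (T.h (T.h (T.h (P (nat_lit 825243808494547520458850304)) (T.h (P (nat_lit 0)) (T.h (M (nat_lit 4538456619322401882111)) (T.h (P (nat_lit 0)) (P (nat_lit 1673160524251136)))))) (T.h (P (nat_lit 0)) (T.h (T.h (M (nat_lit 26344594233526511992831)) (T.h (P (nat_lit 0)) (M (nat_lit 9636131581935615)))) (T.h (P (nat_lit 0)) (M (nat_lit 391640158868422655)))))) (T.h (T.h (P (nat_lit 0)) (T.h (T.h (P (nat_lit 0)) (T.h (P (nat_lit 6725667058576523264)) (T.h (P (nat_lit 0)) (M (nat_lit 4256921589567)))))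 (T.h (P (nat_lit 0)) (T.h (T.h (P (nat_lit 0)) (P (nat_lit 20853968390928))) (P (nat_lit 0)))))) (T.h (T.h (T.h (P (nat_lit 452590592553853648896)) (T.h (P (nat_lit 0)) (M (nat_lit 18297077188886527)))) (T.h (P (nat_lit 0)) (M (nat_lit 39437525538734079)))) (T.h (T.h (P (nat_lit 0)) (T.h (T.h (P (nat_lit 0)) (M (nat_lit 14115448294655))) (P (nat_lit 0)))) (P (nat_lit 2367037161553920))))))), (T.h (T.h (P (nat_lit 0)) (T.h (T.h (P (nat_lit 556240270776678431303139328)) (T.h (P (nat_lit 0)) (T.h (M (nat_lit 22709465110943195201535)) (T.h (P (nat_lit 0)) (M (nat_lit 81212293442699263)))))) (T.h (P (nat_lit 0)) (T.h (T.h (M (nat_lit 106146170585502539841535)) (T.h (P (nat_lit 0)) (P (nat_lit 97128441095356416)))) (T.h (P (nat_lit 0)) (P (nat_lit 294432181340930048))))))) (T.h (T.h (T.h (P (nat_lit 0)) (T.h (M (nat_lit 33674519128823394065186815)) (T.h (P (nat_lit 0)) (T.h (M (nat_lit 1924344881111629823)) (T.h (P (nat_lit 0)) (M (nat_lit 26922678205119)))))))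 (T.h (P (nat_lit 0)) (T.h (T.h (P (nat_lit 0)) (T.h (P (nat_lit 56544454345603678208)) (T.h (P (nat_lit 0)) (P (nat_lit 82499058864512))))) (T.h (P (nat_lit 0)) (T.h (T.h (P (nat_lit 0)) (M (nat_lit 46655458843455))) (P (nat_lit 0))))))) (T.h (T.h (P (nat_lit 0)) (T.h (T.h (M (nat_lit 29407020964897829683199)) (T.h (P (nat_lit 0)) (M (nat_lit 23264011617468415)))) (T.h (P (nat_lit 0)) (P (nat_lit 8952162460336128))))) (T.h (T.h (T.h (P (nat_lit 0)) (T.h (P (nat_lit 19058927348914061312)) (T.h (P (nat_lit 0)) (M (nat_lit 52855227214911))))) (T.h (P (nat_lit 0)) (T.h (T.h (P (nat_lit 0)) (P (nat_lit 86144119924352))) (P (nat_lit 0))))) (T.h (T.h (P (nat_lit 0)) (M (nat_lit 37480698153926655))) (T.h (T.h (T.h (P (nat_lit 0)) (M (nat_lit 13089198389183))) (P (nat_lit 0))) (P (nat_lit 0)))))))), (T.h (T.h (P (nat_lit 0)) (T.h (T.h (P (nat_lit 0)) (T.h (M (nat_lit 80905210978061627915501567)) (T.h (P (nat_lit 0)) (T.h (P (nat_lit 104709661005493305344)) (T.h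 (P (nat_lit 0)) (P (nat_lit 9843633707952))))))) (T.h (P (nat_lit 0)) (T.h (T.h (P (nat_lit 0)) (T.h (P (nat_lit 966498054002410782720)) (T.h (P (nat_lit 0)) (M (nat_lit 40807260833679))))) (T.h (P (nat_lit 0)) (T.h (T.h (P (nat_lit 0)) (M (nat_lit 202010613196303))) (P (nat_lit 0)))))))) (T.h (T.h (T.h (P (nat_lit 15233738752004595955919749120)) (T.h (P (nat_lit 0)) (T.h (M (nat_lit 50588246820526462337023)) (T.h (P (nat_lit 0)) (P (nat_lit 37657315048210432)))))) (T.h (P (nat_lit 0)) (T.h (T.h (M (nat_lit 190912665759102877564927)) (T.h (P (nat_lit 0)) (M (nat_lit 481125668614946815)))) (T.h (P (nat_lit 0)) (M (nat_lit 59401021968924671)))))) (T.h (T.h (P (nat_lit 0)) (T.h (T.h (P (nat_lit 0)) (T.h (P (nat_lit 180384892735593644032)) (T.h (P (nat_lit 0)) (M (nat_lit 153951304182895))))) (T.h (P (nat_lit 0)) (T.h (T.h (P (nat_lit 0)) (M (nat_lit 160765879742335))) (P (nat_lit 0)))))) (T.h (T.h (T.h (M (nat_lit 21694648982052280467455)) (T.h (P (nat_lit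 0)) (P (nat_lit 153507077665947648)))) (T.h (P (nat_lit 0)) (P (nat_lit 117065434944339968)))) (T.h (T.h (P (nat_lit 0)) (T.h (T.h (P (nat_lit 0)) (M (nat_lit 46938132056991))) (P (nat_lit 0)))) (M (nat_lit 8026129388699647))))))), (T.h (T.h (P (nat_lit 0)) (T.h (T.h (P (nat_lit 23189883887025830961654792192)) (T.h (P (nat_lit 0)) (T.h (M (nat_lit 33956056854755006218239)) (T.h (P (nat_lit 0)) (M (nat_lit 93919563231952895)))))) (T.h (P (nat_lit 0)) (T.h (T.h (M (nat_lit 243099935357513639133183)) (T.h (P (nat_lit 0)) (P (nat_lit 1175977343068569600)))) (T.h (P (nat_lit 0)) (P (nat_lit 595563394477948928))))))) (T.h (T.h (T.h (P (nat_lit 0)) (T.h (P (nat_lit 104213714518363397557321728)) (T.h (P (nat_lit 0)) (M (nat_lit 18889754215679262719))))) (T.h (P (nat_lit 0)) (T.h (T.h (P (nat_lit 0)) (P (nat_lit 571332830943741214720))) (P (nat_lit 0))))) (T.h (T.h (P (nat_lit 0)) (T.h (T.h (M (nat_lit 87515735663265416478719)) (T.h (P (nat_lit 0)) (P (nat_lit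 533260947869499392)))) (T.h (P (nat_lit 0)) (P (nat_lit 262202542911520768))))) (T.h (T.h (T.h (P (nat_lit 0)) (M (nat_lit 99944006815716474879))) (P (nat_lit 0))) (T.h (T.h (P (nat_lit 0)) (M (nat_lit 8342794656481279))) (P (nat_lit 0))))))), (P (nat_lit 0)), (P (nat_lit 0)), (T.h (T.h (T.h (P (nat_lit 8381838962715691754272839434240)) (T.h (P (nat_lit 0)) (T.h (P (nat_lit 94354545371969910472704)) (T.h (P (nat_lit 0)) (T.h (M (nat_lit 1002665088554893311)) (T.h (P (nat_lit 0)) (M (nat_lit 165424305583)))))))) (T.h (P (nat_lit 0)) (T.h (T.h (M (nat_lit 24966769086201063159103487)) (T.h (P (nat_lit 0)) (T.h (P (nat_lit 8545227737994887168)) (T.h (P (nat_lit 0)) (M (nat_lit 15443532767759)))))) (T.h (P (nat_lit 0)) (T.h (T.h (M (nat_lit 91567307508984840191)) (T.h (P (nat_lit 0)) (P (nat_lit 28106565702272)))) (T.h (P (nat_lit 0)) (M (nat_lit 9234645211199)))))))) (T.h (T.h (P (nat_lit 0)) (T.h (T.h (P (nat_lit 0)) (T.h (P (nat_lit 5306139762653476683776))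 (T.h (P (nat_lit 0)) (M (nat_lit 21171082134913023))))) (T.h (P (nat_lit 0)) (T.h (T.h (P (nat_lit 0)) (M (nat_lit 8154054174244863))) (P (nat_lit 0)))))) (T.h (T.h (T.h (P (nat_lit 94354545371969910472704)) (T.h (P (nat_lit 0)) (T.h (P (nat_lit 8284172608572751872)) (T.h (P (nat_lit 0)) (M (nat_lit 4239509951935)))))) (T.h (P (nat_lit 0)) (T.h (T.h (P (nat_lit 8545227737994887168)) (T.h (P (nat_lit 0)) (P (nat_lit 35413500645568)))) (T.h (P (nat_lit 0)) (P (nat_lit 28106565702272)))))) (T.h (T.h (P (nat_lit 0)) (T.h (T.h (P (nat_lit 0)) (M (nat_lit 21171082134913023))) (P (nat_lit 0)))) (T.h (T.h (T.h (M (nat_lit 1002665088554893311)) (T.h (P (nat_lit 0)) (M (nat_lit 4239509951935)))) (T.h (P (nat_lit 0)) (M (nat_lit 15443532767759)))) (T.h (P (nat_lit 0)) (M (nat_lit 165424305583)))))))), (T.h (T.h (T.h (P (nat_lit 0)) (T.h (M (nat_lit 11148306687387311073933656063)) (T.h (P (nat_lit 0)) (T.h (P (nat_lit 9990154410232597446656)) (T.h (P (nat_lit 0))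 (P (nat_lit 15339279740928000))))))) (T.h (P (nat_lit 0)) (T.h (T.h (P (nat_lit 0)) (T.h (M (nat_lit 42457184328535899111423)) (T.h (P (nat_lit 0)) (P (nat_lit 177198910576820224))))) (T.h (P (nat_lit 0)) (T.h (T.h (P (nat_lit 0)) (P (nat_lit 107454521002655744))) (P (nat_lit 0))))))) (T.h (T.h (P (nat_lit 0)) (T.h (T.h (P (nat_lit 6837049029011826800590848)) (T.h (P (nat_lit 0)) (T.h (P (nat_lit 59282405974557589504)) (T.h (P (nat_lit 0)) (P (nat_lit 30400262961600)))))) (T.h (P (nat_lit 0)) (T.h (T.h (P (nat_lit 198712546212878221312)) (T.h (P (nat_lit 0)) (M (nat_lit 50830335485887)))) (T.h (P (nat_lit 0)) (M (nat_lit 519960225386687))))))) (T.h (T.h (T.h (P (nat_lit 0)) (T.h (M (nat_lit 10168343157988999036927)) (T.h (P (nat_lit 0)) (P (nat_lit 15342922548215808))))) (T.h (P (nat_lit 0)) (T.h (T.h (P (nat_lit 0)) (P (nat_lit 138485348847714304))) (P (nat_lit 0))))) (T.h (T.h (P (nat_lit 0)) (T.h (T.h (P (nat_lit 1303559475084394496)) (T.h (P (nat_lit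 0)) (M (nat_lit 8555555049535)))) (T.h (P (nat_lit 0)) (P (nat_lit 62827191098304))))) (T.h (T.h (T.h (P (nat_lit 0)) (P (nat_lit 11197351691255808))) (P (nat_lit 0))) (T.h (T.h (P (nat_lit 0)) (P (nat_lit 5360624420992))) (P (nat_lit 0))))))))]
def lP22_8 : List (T ℤ) := [(T.h (T.h (T.h (P (nat_lit 1125191178323626060599525376000)) (T.h (P (nat_lit 0)) (T.h (P (nat_lit 12526376508625760402014208)) (T.h (P (nat_lit 0)) (T.h (M (nat_lit 9306149800544043007)) (T.h (P (nat_lit 0)) (P (nat_lit 1586148909312)))))))) (T.h (P (nat_lit 0)) (T.h (T.h (M (nat_lit 46278492287481778855215103)) (T.h (P (nat_lit 0)) (T.h (M (nat_lit 267369536469543682047)) (T.h (P (nat_lit 0)) (P (nat_lit 129681242717312)))))) (T.h (P (nat_lit 0)) (T.h (T.h (M (nat_lit 156129275264035192831)) (T.h (P (nat_lit 0)) (P (nat_lit 78162321228816)))) (T.h (P (nat_lit 0)) (P (nat_lit 130481994932784)))))))) (T.h (T.h (P (nat_lit 0)) (T.h (T.h (P (nat_lit 0)) (T.h (M (nat_lit 56440631814495246745599))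 (T.h (P (nat_lit 0)) (M (nat_lit 11779929606979583))))) (T.h (P (nat_lit 0)) (T.h (T.h (P (nat_lit 0)) (P (nat_lit 297687919684386816))) (P (nat_lit 0)))))) (T.h (T.h (T.h (P (nat_lit 5767003101391923837927424)) (T.h (P (nat_lit 0)) (T.h (P (nat_lit 1877110365234397184)) (T.h (P (nat_lit 0)) (M (nat_lit 52667779269951)))))) (T.h (P (nat_lit 0)) (T.h (T.h (M (nat_lit 217516683191390306303)) (T.h (P (nat_lit 0)) (P (nat_lit 109922351265936)))) (T.h (P (nat_lit 0)) (P (nat_lit 33231154151888)))))) (T.h (T.h (P (nat_lit 0)) (T.h (T.h (P (nat_lit 0)) (M (nat_lit 115810020998676479))) (P (nat_lit 0)))) (T.h (T.h (T.h (P (nat_lit 2169328327335084032)) (T.h (P (nat_lit 0)) (M (nat_lit 49126568938831)))) (T.h (P (nat_lit 0)) (M (nat_lit 17832029004943)))) (T.h (P (nat_lit 0)) (P (nat_lit 3821769693456)))))))), (T.h (T.h (T.h (P (nat_lit 0)) (T.h (P (nat_lit 9479945226855203678944493568)) (T.h (P (nat_lit 0)) (T.h (M (nat_lit 8055960460481364230143)) (T.h (P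 (nat_lit 0)) (M (nat_lit 3604578148319231))))))) (T.h (P (nat_lit 0)) (T.h (T.h (P (nat_lit 0)) (T.h (M (nat_lit 252405377024740638588927)) (T.h (P (nat_lit 0)) (M (nat_lit 73784448161644543))))) (T.h (P (nat_lit 0)) (T.h (T.h (P (nat_lit 0)) (P (nat_lit 158948710125174784))) (P (nat_lit 0))))))) (T.h (T.h (P (nat_lit 0)) (T.h (T.h (P (nat_lit 68480659706341009634885632)) (T.h (P (nat_lit 0)) (P (nat_lit 28561419631895511040)))) (T.h (P (nat_lit 0)) (M (nat_lit 76622548805082939391))))) (T.h (T.h (T.h (P (nat_lit 0)) (T.h (M (nat_lit 15229871120192928481279)) (T.h (P (nat_lit 0)) (P (nat_lit 67886065340547072))))) (T.h (P (nat_lit 0)) (T.h (T.h (P (nat_lit 0)) (P (nat_lit 48863964941058048))) (P (nat_lit 0))))) (T.h (T.h (P (nat_lit 0)) (P (nat_lit 11930534835996590080))) (T.h (T.h (T.h (P (nat_lit 0)) (P (nat_lit 27031974620561408))) (P (nat_lit 0))) (P (nat_lit 0))))))), (P (nat_lit 0)), (P (nat_lit 0)), (T.h (T.h (P (nat_lit 0)) (T.h (T.h (P (nat_lit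 19513362596848012897021853696)) (T.h (P (nat_lit 0)) (T.h (P (nat_lit 4107924079950048526336)) (T.h (P (nat_lit 0)) (M (nat_lit 1307171908157439)))))) (T.h (P (nat_lit 0)) (T.h (T.h (M (nat_lit 63987633135800041865215)) (T.h (P (nat_lit 0)) (M (nat_lit 85837983571574783)))) (T.h (P (nat_lit 0)) (M (nat_lit 81349603584901119))))))) (T.h (T.h (T.h (P (nat_lit 0)) (T.h (M (nat_lit 1375602425031345005658111)) (T.h (P (nat_lit 0)) (T.h (M (nat_lit 8805342538014654463)) (T.h (P (nat_lit 0)) (P (nat_lit 2524655571648))))))) (T.h (P (nat_lit 0)) (T.h (T.h (P (nat_lit 0)) (T.h (M (nat_lit 65383704587684282367)) (T.h (P (nat_lit 0)) (M (nat_lit 10968184504063))))) (T.h (P (nat_lit 0)) (T.h (T.h (P (nat_lit 0)) (M (nat_lit 43087163693055))) (P (nat_lit 0))))))) (T.h (T.h (P (nat_lit 0)) (T.h (T.h (P (nat_lit 7063357461541198757888)) (T.h (P (nat_lit 0)) (M (nat_lit 5518730472980479)))) (T.h (P (nat_lit 0)) (M (nat_lit 48131822609170431))))) (T.h (T.h (T.h (P (nat_lit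 0)) (T.h (P (nat_lit 2413284188405891072)) (T.h (P (nat_lit 0)) (P (nat_lit 10560971751552))))) (T.h (P (nat_lit 0)) (T.h (T.h (P (nat_lit 0)) (M (nat_lit 10968184504063))) (P (nat_lit 0))))) (T.h (T.h (P (nat_lit 0)) (P (nat_lit 14876198407176192))) (T.h (T.h (T.h (P (nat_lit 0)) (P (nat_lit 2524655571648))) (P (nat_lit 0))) (P (nat_lit 0)))))))), (T.h (T.h (P (nat_lit 0)) (T.h (T.h (P (nat_lit 0)) (T.h (P (nat_lit 20370376071632726442115072)) (T.h (P (nat_lit 0)) (T.h (M (nat_lit 14468998367255986175)) (T.h (P (nat_lit 0)) (M (nat_lit 6662556455103))))))) (T.h (P (nat_lit 0)) (T.h (T.h (P (nat_lit 0)) (T.h (M (nat_lit 74258750209269956607)) (T.h (P (nat_lit 0)) (P (nat_lit 847315013424))))) (T.h (P (nat_lit 0)) (T.h (T.h (P (nat_lit 0)) (M (nat_lit 430642633814447))) (P (nat_lit 0)))))))) (T.h (T.h (T.h (P (nat_lit 994755837398416160144228352)) (T.h (P (nat_lit 0)) (T.h (P (nat_lit 385848081155304194048)) (T.h (P (nat_lit 0)) (M (nat_lit 26168110165688319))))))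 (T.h (P (nat_lit 0)) (T.h (T.h (P (nat_lit 62873011426048620888064)) (T.h (P (nat_lit 0)) (P (nat_lit 102840527015788544)))) (T.h (P (nat_lit 0)) (P (nat_lit 866541895063420928)))))) (T.h (T.h (P (nat_lit 0)) (T.h (T.h (P (nat_lit 0)) (T.h (M (nat_lit 52736164427403886591)) (T.h (P (nat_lit 0)) (P (nat_lit 238877194160))))) (T.h (P (nat_lit 0)) (T.h (T.h (P (nat_lit 0)) (M (nat_lit 64739948756207))) (P (nat_lit 0)))))) (T.h (T.h (T.h (P (nat_lit 1627259457768127463424)) (T.h (P (nat_lit 0)) (P (nat_lit 1901487044935680)))) (T.h (P (nat_lit 0)) (P (nat_lit 40138936817926144)))) (T.h (T.h (P (nat_lit 0)) (T.h (T.h (P (nat_lit 0)) (P (nat_lit 37730281781984))) (P (nat_lit 0)))) (M (nat_lit 1438415993520127))))))), (T.h (T.h (P (nat_lit 0)) (T.h (T.h (P (nat_lit 3166846873336167602856132608)) (T.h (P (nat_lit 0)) (T.h (P (nat_lit 54548994911447583555584)) (T.h (P (nat_lit 0)) (M (nat_lit 42086344733622271)))))) (T.h (P (nat_lit 0)) (T.h (T.h (M (nat_lit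 14344602706940511911935)) (T.h (P (nat_lit 0)) (M (nat_lit 58682876268085247)))) (T.h (P (nat_lit 0)) (M (nat_lit 65582421789278207))))))) (T.h (T.h (T.h (P (nat_lit 0)) (T.h (P (nat_lit 9767776142240778154934272)) (T.h (P (nat_lit 0)) (M (nat_lit 181177798486917119))))) (T.h (P (nat_lit 0)) (T.h (T.h (P (nat_lit 0)) (M (nat_lit 145672624222347722751))) (P (nat_lit 0))))) (T.h (T.h (P (nat_lit 0)) (T.h (T.h (P (nat_lit 35266817870928178839552)) (T.h (P (nat_lit 0)) (M (nat_lit 41064510206017535)))) (T.h (P (nat_lit 0)) (M (nat_lit 12694745432686591))))) (T.h (T.h (T.h (P (nat_lit 0)) (P (nat_lit 11252920928419446784))) (P (nat_lit 0))) (T.h (T.h (P (nat_lit 0)) (M (nat_lit 384693298659327))) (P (nat_lit 0))))))), (P (nat_lit 0))]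
def lP22_9 : List (T ℤ) := [(P (nat_lit 0)), (T.h (T.h (T.h (M (nat_lit 3022801708362945769365684879359)) (T.h (P (nat_lit 0)) (T.h (M (nat_lit 866842690526014188027903)) (T.h (P (nat_lit 0)) (T.h (M (nat_lit 2198064352563560447)) (T.h (P (nat_lit 0)) (P (nat_lit 742147470768)))))))) (T.h (P (nat_lit 0)) (T.h (T.h (P (nat_lit 35228165051076154056769536)) (T.h (P (nat_lit 0)) (T.h (P (nat_lit 33338568917978710016)) (T.h (P (nat_lit 0)) (P (nat_lit 12342157505568)))))) (T.h (P (nat_lit 0)) (T.h (T.h (P (nat_lit 72859096151933059072)) (T.h (P (nat_lit 0)) (M (nat_lit 56118708733823)))) (T.h (P (nat_lit 0)) (P (nat_lit 14511582942912)))))))) (T.h (T.h (P (nat_lit 0)) (T.h (T.h (P (nat_lit 0)) (T.h (P (nat_lit 9132112169328112041984)) (T.h (P (nat_lit 0)) (P (nat_lit 6924341569585152))))) (T.h (P (nat_lit 0)) (T.h (T.h (P (nat_lit 0)) (M (nat_lit 33744048614539263))) (P (nat_lit 0)))))) (T.h (T.h (T.h (M (nat_lit 866842690526014188027903)) (T.h (P (nat_lit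 0)) (T.h (M (nat_lit 80235081309880319)) (T.h (P (nat_lit 0)) (P (nat_lit 7551023902224)))))) (T.h (P (nat_lit 0)) (T.h (T.h (P (nat_lit 33338568917978710016)) (T.h (P (nat_lit 0)) (M (nat_lit 55649786596799)))) (T.h (P (nat_lit 0)) (M (nat_lit 56118708733823)))))) (T.h (T.h (P (nat_lit 0)) (T.h (T.h (P (nat_lit 0)) (P (nat_lit 6924341569585152))) (P (nat_lit 0)))) (T.h (T.h (T.h (M (nat_lit 2198064352563560447)) (T.h (P (nat_lit 0)) (P (nat_lit 7551023902224)))) (T.h (P (nat_lit 0)) (P (nat_lit 12342157505568)))) (T.h (P (nat_lit 0)) (P (nat_lit 742147470768)))))))), (T.h (T.h (T.h (P (nat_lit 0)) (T.h (M (nat_lit 3849283284899336926831575039)) (T.h (P (nat_lit 0)) (T.h (M (nat_lit 2169209033493156200447)) (T.h (P (nat_lit 0)) (P (nat_lit 411400681750528))))))) (T.h (P (nat_lit 0)) (T.h (T.h (P (nat_lit 0)) (T.h (M (nat_lit 7915433807328952975359)) (T.h (P (nat_lit 0)) (M (nat_lit 9664805248008191))))) (T.h (P (nat_lit 0)) (T.h (T.h (P (nat_lit 0))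 (P (nat_lit 421785709203062784))) (P (nat_lit 0))))))) (T.h (T.h (P (nat_lit 0)) (T.h (T.h (M (nat_lit 8685767576524368306503679)) (T.h (P (nat_lit 0)) (M (nat_lit 21352153951422644223)))) (T.h (P (nat_lit 0)) (M (nat_lit 126973145165437337599))))) (T.h (T.h (T.h (P (nat_lit 0)) (T.h (M (nat_lit 318127756473987497983)) (T.h (P (nat_lit 0)) (M (nat_lit 5667928027332607))))) (T.h (P (nat_lit 0)) (T.h (T.h (P (nat_lit 0)) (P (nat_lit 56882161005330432))) (P (nat_lit 0))))) (T.h (T.h (P (nat_lit 0)) (M (nat_lit 32111403715541336063))) (T.h (T.h (T.h (P (nat_lit 0)) (M (nat_lit 9836419181182975))) (P (nat_lit 0))) (P (nat_lit 0))))))), (P (nat_lit 0)), (P (nat_lit 0)), (T.h (T.h (P (nat_lit 0)) (T.h (T.h (M (nat_lit 5897302073599640136660811775)) (T.h (P (nat_lit 0)) (T.h (M (nat_lit 5209847404018203099135)) (T.h (P (nat_lit 0)) (M (nat_lit 4595770649346047)))))) (T.h (P (nat_lit 0)) (T.h (T.h (P (nat_lit 38739346812376056856576)) (T.h (P (nat_lit 0)) (P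 (nat_lit 41793132904316928)))) (T.h (P (nat_lit 0)) (M (nat_lit 16210757382045695))))))) (T.h (T.h (T.h (P (nat_lit 0)) (T.h (P (nat_lit 386661090139917950910464)) (T.h (P (nat_lit 0)) (M (nat_lit 243643318179725311))))) (T.h (P (nat_lit 0)) (T.h (T.h (P (nat_lit 0)) (P (nat_lit 43491311747944415232))) (P (nat_lit 0))))) (T.h (T.h (P (nat_lit 0)) (T.h (T.h (M (nat_lit 5209847404018203099135)) (T.h (P (nat_lit 0)) (P (nat_lit 20721956900044800)))) (T.h (P (nat_lit 0)) (P (nat_lit 41793132904316928))))) (T.h (T.h (T.h (P (nat_lit 0)) (M (nat_lit 243643318179725311))) (P (nat_lit 0))) (T.h (T.h (P (nat_lit 0)) (M (nat_lit 4595770649346047))) (P (nat_lit 0))))))), (P (nat_lit 0)), (P (nat_lit 0))]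
def lP22_10 : List (T ℤ) := [(P (nat_lit 0)), (P (nat_lit 0)), (P (nat_lit 0)), (T.h (T.h (P (nat_lit 0)) (T.h (T.h (P (nat_lit 0)) (T.h (P (nat_lit 7767568136061330661572608)) (T.h (P (nat_lit 0)) (T.h (P (nat_lit 62422039299732013056)) (T.h (P (nat_lit 0)) (P (nat_lit 1076197240586648))))))) (T.h (P (nat_lit 0)) (T.h (T.h (P (nat_lit 0)) (T.h (P (nat_lit 16006873665018789888)) (T.h (P (nat_lit 0)) (M (nat_lit 104740529347503))))) (T.h (P (nat_lit 0)) (T.h (T.h (P (nat_lit 0)) (M (nat_lit 7238687569983))) (P (nat_lit 0)))))))) (T.h (T.h (T.h (P (nat_lit 9422099133578870097476321280)) (T.h (P (nat_lit 0)) (T.h (M (nat_lit 19998323685167607054335)) (T.h (P (nat_lit 0)) (M (nat_lit 167818423914430463)))))) (T.h (P (nat_lit 0)) (T.h (T.h (P (nat_lit 7610511668739915644928)) (T.h (P (nat_lit 0)) (M (nat_lit 131379255298686975)))) (T.h (P (nat_lit 0)) (P (nat_lit 11273812219789312)))))) (T.h (T.h (P (nat_lit 0)) (T.h (T.h (P (nat_lit 0)) (T.h (M (nat_lit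 27999267637092679679)) (T.h (P (nat_lit 0)) (P (nat_lit 135007709293616))))) (T.h (P (nat_lit 0)) (T.h (T.h (P (nat_lit 0)) (P (nat_lit 21245891632488))) (P (nat_lit 0)))))) (T.h (T.h (T.h (M (nat_lit 3603468943921617305599)) (T.h (P (nat_lit 0)) (M (nat_lit 91833471907921919)))) (T.h (P (nat_lit 0)) (M (nat_lit 11067179892670463)))) (T.h (T.h (P (nat_lit 0)) (T.h (T.h (P (nat_lit 0)) (M (nat_lit 34734735822511))) (P (nat_lit 0)))) (M (nat_lit 16078282145431551))))))), (T.h (T.h (P (nat_lit 0)) (T.h (T.h (P (nat_lit 825243808494547520458850304)) (T.h (P (nat_lit 0)) (T.h (M (nat_lit 26344594233526511992831)) (T.h (P (nat_lit 0)) (M (nat_lit 391640158868422655)))))) (T.h (P (nat_lit 0)) (T.h (T.h (P (nat_lit 452590592553853648896)) (T.h (P (nat_lit 0)) (M (nat_lit 39437525538734079)))) (T.h (P (nat_lit 0)) (P (nat_lit 2367037161553920))))))) (T.h (T.h (T.h (P (nat_lit 0)) (T.h (M (nat_lit 3746786908111961168281599)) (T.h (P (nat_lit 0)) (T.h (P (nat_lit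 150605351395472179200)) (T.h (P (nat_lit 0)) (P (nat_lit 126624751875824))))))) (T.h (P (nat_lit 0)) (T.h (T.h (P (nat_lit 0)) (T.h (P (nat_lit 6725667058576523264)) (T.h (P (nat_lit 0)) (P (nat_lit 20853968390928))))) (T.h (P (nat_lit 0)) (T.h (T.h (P (nat_lit 0)) (M (nat_lit 14115448294655))) (P (nat_lit 0))))))) (T.h (T.h (P (nat_lit 0)) (T.h (T.h (M (nat_lit 4538456619322401882111)) (T.h (P (nat_lit 0)) (M (nat_lit 9636131581935615)))) (T.h (P (nat_lit 0)) (M (nat_lit 18297077188886527))))) (T.h (T.h (T.h (P (nat_lit 0)) (T.h (P (nat_lit 21421683604952449024)) (T.h (P (nat_lit 0)) (M (nat_lit 29896136530671))))) (T.h (P (nat_lit 0)) (T.h (T.h (P (nat_lit 0)) (M (nat_lit 4256921589567))) (P (nat_lit 0))))) (T.h (T.h (P (nat_lit 0)) (P (nat_lit 1673160524251136))) (T.h (T.h (T.h (P (nat_lit 0)) (P (nat_lit 7351350546784))) (P (nat_lit 0))) (P (nat_lit 0)))))))), (T.h (T.h (P (nat_lit 0)) (T.h (T.h (P (nat_lit 0)) (T.h (P (nat_lit 2889557590091532972589056))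 (T.h (P (nat_lit 0)) (T.h (M (nat_lit 30454085060791369727)) (T.h (P (nat_lit 0)) (M (nat_lit 519960225386687))))))) (T.h (P (nat_lit 0)) (T.h (T.h (P (nat_lit 0)) (T.h (P (nat_lit 44671618533919031296)) (T.h (P (nat_lit 0)) (P (nat_lit 62827191098304))))) (T.h (P (nat_lit 0)) (T.h (T.h (P (nat_lit 0)) (P (nat_lit 5360624420992))) (P (nat_lit 0)))))))) (T.h (T.h (T.h (M (nat_lit 3780153751771600944814358527)) (T.h (P (nat_lit 0)) (T.h (P (nat_lit 64746482784571622424576)) (T.h (P (nat_lit 0)) (M (nat_lit 771336637420175359)))))) (T.h (P (nat_lit 0)) (T.h (T.h (M (nat_lit 88210354434840985599)) (T.h (P (nat_lit 0)) (M (nat_lit 99760511744278527)))) (T.h (P (nat_lit 0)) (M (nat_lit 284494181138431)))))) (T.h (T.h (P (nat_lit 0)) (T.h (T.h (P (nat_lit 0)) (T.h (M (nat_lit 5856668508896624639)) (T.h (P (nat_lit 0)) (M (nat_lit 50830335485887))))) (T.h (P (nat_lit 0)) (T.h (T.h (P (nat_lit 0)) (M (nat_lit 8555555049535))) (P (nat_lit 0)))))) (T.h (T.h (T.h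 (M (nat_lit 1457770238150346539007)) (T.h (P (nat_lit 0)) (M (nat_lit 39003143773716479)))) (T.h (P (nat_lit 0)) (P (nat_lit 14375276557860864)))) (T.h (T.h (P (nat_lit 0)) (T.h (T.h (P (nat_lit 0)) (P (nat_lit 30400262961600))) (P (nat_lit 0)))) (P (nat_lit 17228509411311616))))))), (T.h (T.h (P (nat_lit 0)) (T.h (T.h (P (nat_lit 994755837398416160144228352)) (T.h (P (nat_lit 0)) (T.h (P (nat_lit 62873011426048620888064)) (T.h (P (nat_lit 0)) (P (nat_lit 866541895063420928)))))) (T.h (P (nat_lit 0)) (T.h (T.h (P (nat_lit 1627259457768127463424)) (T.h (P (nat_lit 0)) (P (nat_lit 40138936817926144)))) (T.h (P (nat_lit 0)) (M (nat_lit 1438415993520127))))))) (T.h (T.h (T.h (P (nat_lit 0)) (T.h (P (nat_lit 20370376071632726442115072)) (T.h (P (nat_lit 0)) (T.h (M (nat_lit 74258750209269956607)) (T.h (P (nat_lit 0)) (M (nat_lit 430642633814447))))))) (T.h (P (nat_lit 0)) (T.h (T.h (P (nat_lit 0)) (T.h (M (nat_lit 52736164427403886591)) (T.h (P (nat_lit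 0)) (M (nat_lit 64739948756207))))) (T.h (P (nat_lit 0)) (T.h (T.h (P (nat_lit 0)) (P (nat_lit 37730281781984))) (P (nat_lit 0))))))) (T.h (T.h (P (nat_lit 0)) (T.h (T.h (P (nat_lit 385848081155304194048)) (T.h (P (nat_lit 0)) (P (nat_lit 102840527015788544)))) (T.h (P (nat_lit 0)) (P (nat_lit 1901487044935680))))) (T.h (T.h (T.h (P (nat_lit 0)) (T.h (M (nat_lit 14468998367255986175)) (T.h (P (nat_lit 0)) (P (nat_lit 847315013424))))) (T.h (P (nat_lit 0)) (T.h (T.h (P (nat_lit 0)) (P (nat_lit 238877194160))) (P (nat_lit 0))))) (T.h (T.h (P (nat_lit 0)) (M (nat_lit 26168110165688319))) (T.h (T.h (T.h (P (nat_lit 0)) (M (nat_lit 6662556455103))) (P (nat_lit 0))) (P (nat_lit 0)))))))), (T.h (T.h (P (nat_lit 0)) (T.h (T.h (P (nat_lit 0)) (T.h (M (nat_lit 8685767576524368306503679)) (T.h (P (nat_lit 0)) (M (nat_lit 126973145165437337599))))) (T.h (P (nat_lit 0)) (T.h (T.h (P (nat_lit 0)) (M (nat_lit 32111403715541336063))) (P (nat_lit 0)))))) (T.h (T.h (T.h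 (M (nat_lit 3849283284899336926831575039)) (T.h (P (nat_lit 0)) (T.h (M (nat_lit 7915433807328952975359)) (T.h (P (nat_lit 0)) (P (nat_lit 421785709203062784)))))) (T.h (P (nat_lit 0)) (T.h (T.h (M (nat_lit 318127756473987497983)) (T.h (P (nat_lit 0)) (P (nat_lit 56882161005330432)))) (T.h (P (nat_lit 0)) (M (nat_lit 9836419181182975)))))) (T.h (T.h (P (nat_lit 0)) (T.h (T.h (P (nat_lit 0)) (M (nat_lit 21352153951422644223))) (P (nat_lit 0)))) (T.h (T.h (T.h (M (nat_lit 2169209033493156200447)) (T.h (P (nat_lit 0)) (M (nat_lit 9664805248008191)))) (T.h (P (nat_lit 0)) (M (nat_lit 5667928027332607)))) (T.h (P (nat_lit 0)) (P (nat_lit 411400681750528)))))))]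
def lP22_11 : List (T ℤ) := [(P (nat_lit 0)), (P (nat_lit 0)), (T.h (T.h (T.h (M (nat_lit 2690135357055830871430104350719)) (T.h (P (nat_lit 0)) (T.h (P (nat_lit 90428011681613564753215488)) (T.h (P (nat_lit 0)) (T.h (P (nat_lit 43844494366368333824)) (T.h (P (nat_lit 0)) (P (nat_lit 224402492659280)))))))) (T.h (P (nat_lit 0)) (T.h (T.h (P (nat_lit 14384806625130163086557184)) (T.h (P (nat_lit 0)) (T.h (P (nat_lit 133324918198473064448)) (T.h (P (nat_lit 0)) (M (nat_lit 695768952324207)))))) (T.h (P (nat_lit 0)) (T.h (T.h (M (nat_lit 38373990668330598399)) (T.h (P (nat_lit 0)) (M (nat_lit 295100164764815)))) (T.h (P (nat_lit 0)) (P (nat_lit 47418413224544)))))))) (T.h (T.h (P (nat_lit 0)) (T.h (T.h (P (nat_lit 0)) (T.h (P (nat_lit 22079614946469096718336)) (T.h (P (nat_lit 0)) (M (nat_lit 508194556798828543))))) (T.h (P (nat_lit 0)) (T.h (T.h (P (nat_lit 0)) (M (nat_lit 17947052546981887))) (P (nat_lit 0)))))) (T.h (T.h (T.h (P (nat_lit 16316861935119989947236352))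 (T.h (P (nat_lit 0)) (T.h (P (nat_lit 28548711468448612352)) (T.h (P (nat_lit 0)) (P (nat_lit 611702451510640)))))) (T.h (P (nat_lit 0)) (T.h (T.h (P (nat_lit 5131986785001275392)) (T.h (P (nat_lit 0)) (P (nat_lit 185852562425680)))) (T.h (P (nat_lit 0)) (P (nat_lit 45051490068976)))))) (T.h (T.h (P (nat_lit 0)) (T.h (T.h (P (nat_lit 0)) (M (nat_lit 7266021438980095))) (P (nat_lit 0)))) (T.h (T.h (T.h (M (nat_lit 1828277438623252479)) (T.h (P (nat_lit 0)) (P (nat_lit 121191003591552)))) (T.h (P (nat_lit 0)) (P (nat_lit 48382225412400)))) (T.h (P (nat_lit 0)) (P (nat_lit 18111614746944)))))))), (T.h (T.h (T.h (P (nat_lit 0)) (T.h (M (nat_lit 10568642270593862374394953727)) (T.h (P (nat_lit 0)) (T.h (P (nat_lit 140262297202309164171264)) (T.h (P (nat_lit 0)) (M (nat_lit 263332630997860351))))))) (T.h (P (nat_lit 0)) (T.h (T.h (P (nat_lit 0)) (T.h (P (nat_lit 8179832511665811750912)) (T.h (P (nat_lit 0)) (P (nat_lit 126396749802356736))))) (T.h (P (nat_lit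 0)) (T.h (T.h (P (nat_lit 0)) (P (nat_lit 42281017820037120))) (P (nat_lit 0))))))) (T.h (T.h (P (nat_lit 0)) (T.h (T.h (P (nat_lit 11439208824090017958723584)) (T.h (P (nat_lit 0)) (T.h (P (nat_lit 167073992415295569920)) (T.h (P (nat_lit 0)) (M (nat_lit 216448194887871)))))) (T.h (P (nat_lit 0)) (T.h (T.h (M (nat_lit 25606197467787821055)) (T.h (P (nat_lit 0)) (P (nat_lit 13668783183072)))) (T.h (P (nat_lit 0)) (M (nat_lit 9359451847407))))))) (T.h (T.h (T.h (P (nat_lit 0)) (T.h (P (nat_lit 8179832511665811750912)) (T.h (P (nat_lit 0)) (P (nat_lit 126396749802356736))))) (T.h (P (nat_lit 0)) (T.h (T.h (P (nat_lit 0)) (M (nat_lit 83790289926193151))) (P (nat_lit 0))))) (T.h (T.h (P (nat_lit 0)) (T.h (T.h (M (nat_lit 25606197467787821055)) (T.h (P (nat_lit 0)) (P (nat_lit 13668783183072)))) (T.h (P (nat_lit 0)) (M (nat_lit 9080975901567))))) (T.h (T.h (T.h (P (nat_lit 0)) (P (nat_lit 42281017820037120))) (P (nat_lit 0))) (T.h (T.h (P (nat_lit 0)) (M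 (nat_lit 9359451847407))) (P (nat_lit 0)))))))), (T.h (T.h (T.h (M (nat_lit 4938571078680980398957746192383)) (T.h (P (nat_lit 0)) (T.h (M (nat_lit 98586966737565796458823679)) (T.h (P (nat_lit 0)) (T.h (M (nat_lit 17050150359080632319)) (T.h (P (nat_lit 0)) (M (nat_lit 259896371934719)))))))) (T.h (P (nat_lit 0)) (T.h (T.h (M (nat_lit 17641388210366794535272447)) (T.h (P (nat_lit 0)) (T.h (P (nat_lit 22918409602132344832)) (T.h (P (nat_lit 0)) (P (nat_lit 25220496191936)))))) (T.h (P (nat_lit 0)) (T.h (T.h (P (nat_lit 962233098714480640)) (T.h (P (nat_lit 0)) (P (nat_lit 87479027713152)))) (T.h (P (nat_lit 0)) (M (nat_lit 33585842871871)))))))) (T.h (T.h (P (nat_lit 0)) (T.h (T.h (P (nat_lit 0)) (T.h (P (nat_lit 29511643764035099295744)) (T.h (P (nat_lit 0)) (P (nat_lit 374144111672688640))))) (T.h (P (nat_lit 0)) (T.h (T.h (P (nat_lit 0)) (M (nat_lit 47850695632617471))) (P (nat_lit 0)))))) (T.h (T.h (T.h (M (nat_lit 17836594619523343820259327)) (T.h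 (P (nat_lit 0)) (T.h (M (nat_lit 171860310786876375039)) (T.h (P (nat_lit 0)) (P (nat_lit 25220496191936)))))) (T.h (P (nat_lit 0)) (T.h (T.h (M (nat_lit 23610914926365769727)) (T.h (P (nat_lit 0)) (M (nat_lit 190117580289279)))) (T.h (P (nat_lit 0)) (M (nat_lit 49145268336255)))))) (T.h (T.h (P (nat_lit 0)) (T.h (T.h (P (nat_lit 0)) (M (nat_lit 27056780088442879))) (P (nat_lit 0)))) (T.h (T.h (T.h (P (nat_lit 25787116305046831104)) (T.h (P (nat_lit 0)) (P (nat_lit 87479027713152)))) (T.h (P (nat_lit 0)) (M (nat_lit 49145268336255)))) (T.h (P (nat_lit 0)) (M (nat_lit 33585842871871)))))))), (T.h (T.h (T.h (P (nat_lit 0)) (T.h (P (nat_lit 17659136188694529823951814656)) (T.h (P (nat_lit 0)) (T.h (P (nat_lit 73861470267005309288448)) (T.h (P (nat_lit 0)) (P (nat_lit 598338107407433728))))))) (T.h (P (nat_lit 0)) (T.h (T.h (P (nat_lit 0)) (T.h (P (nat_lit 39795335775124061159424)) (T.h (P (nat_lit 0)) (M (nat_lit 78670430591942655))))) (T.h (P (nat_lit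 0)) (T.h (T.h (P (nat_lit 0)) (M (nat_lit 99868825715032063))) (P (nat_lit 0))))))) (T.h (T.h (P (nat_lit 0)) (T.h (T.h (P (nat_lit 12728157364842137498157056)) (T.h (P (nat_lit 0)) (T.h (M (nat_lit 303699369560303992831)) (T.h (P (nat_lit 0)) (M (nat_lit 170370273170943)))))) (T.h (P (nat_lit 0)) (T.h (T.h (M (nat_lit 15539825767377534975)) (T.h (P (nat_lit 0)) (M (nat_lit 232315348433871)))) (T.h (P (nat_lit 0)) (M (nat_lit 53103933012239))))))) (T.h (T.h (T.h (P (nat_lit 0)) (T.h (P (nat_lit 39795335775124061159424)) (T.h (P (nat_lit 0)) (M (nat_lit 78670430591942655))))) (T.h (P (nat_lit 0)) (T.h (T.h (P (nat_lit 0)) (P (nat_lit 10397342753980416))) (P (nat_lit 0))))) (T.h (T.h (P (nat_lit 0)) (T.h (T.h (M (nat_lit 15539825767377534975)) (T.h (P (nat_lit 0)) (M (nat_lit 232315348433871)))) (T.h (P (nat_lit 0)) (P (nat_lit 1364867077376))))) (T.h (T.h (T.h (P (nat_lit 0)) (M (nat_lit 99868825715032063))) (P (nat_lit 0))) (T.h (T.h (P (nat_lit 0))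 (M (nat_lit 53103933012239))) (P (nat_lit 0)))))))), (T.h (T.h (T.h (P (nat_lit 6680708591493659502204118106112)) (T.h (P (nat_lit 0)) (T.h (M (nat_lit 2149890956194024676917247)) (T.h (P (nat_lit 0)) (M (nat_lit 8287550168841060351)))))) (T.h (P (nat_lit 0)) (T.h (T.h (P (nat_lit 3152629237428887272554496)) (T.h (P (nat_lit 0)) (M (nat_lit 48278542870674145279)))) (T.h (P (nat_lit 0)) (P (nat_lit 9809641144634572800)))))) (T.h (T.h (P (nat_lit 0)) (T.h (T.h (P (nat_lit 0)) (T.h (M (nat_lit 65334891981411134210047)) (T.h (P (nat_lit 0)) (P (nat_lit 175092994366111744))))) (T.h (P (nat_lit 0)) (T.h (T.h (P (nat_lit 0)) (P (nat_lit 58318068894531584))) (P (nat_lit 0)))))) (T.h (T.h (T.h (P (nat_lit 3152629237428887272554496)) (T.h (P (nat_lit 0)) (M (nat_lit 48278542870674145279)))) (T.h (P (nat_lit 0)) (P (nat_lit 9895869601147781120)))) (T.h (T.h (P (nat_lit 0)) (T.h (T.h (P (nat_lit 0)) (P (nat_lit 58318068894531584))) (P (nat_lit 0)))) (P (nat_lit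 9809641144634572800)))))), (P (nat_lit 0))]
def lP22_12 : List (T ℤ) := [(P (nat_lit 0)), (T.h (T.h (P (nat_lit 0)) (T.h (T.h (P (nat_lit 0)) (T.h (P (nat_lit 73173747939004148132872192)) (T.h (P (nat_lit 0)) (T.h (M (nat_lit 116599803523993960447)) (T.h (P (nat_lit 0)) (M (nat_lit 337384071588415))))))) (T.h (P (nat_lit 0)) (T.h (T.h (P (nat_lit 0)) (T.h (P (nat_lit 100116920423084457984)) (T.h (P (nat_lit 0)) (P (nat_lit 653171963338736))))) (T.h (P (nat_lit 0)) (T.h (T.h (P (nat_lit 0)) (P (nat_lit 117991229823800))) (P (nat_lit 0)))))))) (T.h (T.h (T.h (M (nat_lit 4200348833059441627065483263)) (T.h (P (nat_lit 0)) (T.h (P (nat_lit 69003529597436569845760)) (T.h (P (nat_lit 0)) (P (nat_lit 41492378451836928)))))) (T.h (P (nat_lit 0)) (T.h (T.h (P (nat_lit 65771125361030157303808)) (T.h (P (nat_lit 0)) (M (nat_lit 57670842199441407)))) (T.h (P (nat_lit 0)) (M (nat_lit 30167563418533887)))))) (T.h (T.h (P (nat_lit 0)) (T.h (T.h (P (nat_lit 0)) (T.h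 (M (nat_lit 188914717246885986303)) (T.h (P (nat_lit 0)) (M (nat_lit 231844959378511))))) (T.h (P (nat_lit 0)) (T.h (T.h (P (nat_lit 0)) (P (nat_lit 85922873224584))) (P (nat_lit 0)))))) (T.h (T.h (T.h (P (nat_lit 57632162401080854970368)) (T.h (P (nat_lit 0)) (P (nat_lit 124992677276909568)))) (T.h (P (nat_lit 0)) (P (nat_lit 6577370794098688)))) (T.h (T.h (P (nat_lit 0)) (T.h (T.h (P (nat_lit 0)) (P (nat_lit 150784410835384))) (P (nat_lit 0)))) (M (nat_lit 30785319001522175))))))), (T.h (T.h (P (nat_lit 0)) (T.h (T.h (P (nat_lit 14882683165086291058843713536)) (T.h (P (nat_lit 0)) (T.h (P (nat_lit 256807096225738805739520)) (T.h (P (nat_lit 0)) (P (nat_lit 1211095121471963136)))))) (T.h (P (nat_lit 0)) (T.h (T.h (P (nat_lit 20929441631043701440512)) (T.h (P (nat_lit 0)) (M (nat_lit 446271242066706431)))) (T.h (P (nat_lit 0)) (M (nat_lit 36176921370558463))))))) (T.h (T.h (T.h (P (nat_lit 0)) (T.h (M (nat_lit 53146542248726677021523967)) (T.h (P (nat_lit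 0)) (T.h (P (nat_lit 37051053167047868416)) (T.h (P (nat_lit 0)) (M (nat_lit 72084300084943))))))) (T.h (P (nat_lit 0)) (T.h (T.h (P (nat_lit 0)) (T.h (M (nat_lit 75408516526748205055)) (T.h (P (nat_lit 0)) (M (nat_lit 75934935373951))))) (T.h (P (nat_lit 0)) (T.h (T.h (P (nat_lit 0)) (P (nat_lit 4164924265456))) (P (nat_lit 0))))))) (T.h (T.h (P (nat_lit 0)) (T.h (T.h (M (nat_lit 18849529835447239311359)) (T.h (P (nat_lit 0)) (M (nat_lit 463891509779316735)))) (T.h (P (nat_lit 0)) (P (nat_lit 102934913059225600))))) (T.h (T.h (T.h (P (nat_lit 0)) (T.h (M (nat_lit 11548678206101913599)) (T.h (P (nat_lit 0)) (P (nat_lit 6711510549152))))) (T.h (P (nat_lit 0)) (T.h (T.h (P (nat_lit 0)) (P (nat_lit 16557836531408))) (P (nat_lit 0))))) (T.h (T.h (P (nat_lit 0)) (P (nat_lit 140018033237983232))) (T.h (T.h (T.h (P (nat_lit 0)) (M (nat_lit 34652740068447))) (P (nat_lit 0))) (P (nat_lit 0)))))))), (T.h (T.h (P (nat_lit 0)) (T.h (T.h (P (nat_lit 0)) (T.h (P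 (nat_lit 24593617747856343332552704)) (T.h (P (nat_lit 0)) (T.h (M (nat_lit 1007912995429982142463)) (T.h (P (nat_lit 0)) (M (nat_lit 40638326489599))))))) (T.h (P (nat_lit 0)) (T.h (T.h (P (nat_lit 0)) (T.h (M (nat_lit 130968615643038875647)) (T.h (P (nat_lit 0)) (M (nat_lit 569304909624511))))) (T.h (P (nat_lit 0)) (T.h (T.h (P (nat_lit 0)) (M (nat_lit 34559719305663))) (P (nat_lit 0)))))))) (T.h (T.h (T.h (P (nat_lit 38925463074152110333261512704)) (T.h (P (nat_lit 0)) (T.h (P (nat_lit 369545719271725232816128)) (T.h (P (nat_lit 0)) (M (nat_lit 852549878750838783)))))) (T.h (P (nat_lit 0)) (T.h (T.h (M (nat_lit 58325728174218793713663)) (T.h (P (nat_lit 0)) (M (nat_lit 175201446627147775)))) (T.h (P (nat_lit 0)) (P (nat_lit 112449897471967232)))))) (T.h (T.h (P (nat_lit 0)) (T.h (T.h (P (nat_lit 0)) (T.h (P (nat_lit 87989143565492027392)) (T.h (P (nat_lit 0)) (M (nat_lit 353210867934847))))) (T.h (P (nat_lit 0)) (T.h (T.h (P (nat_lit 0)) (P (nat_lit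 16402866389632))) (P (nat_lit 0)))))) (T.h (T.h (T.h (M (nat_lit 132791242963890449940479)) (T.h (P (nat_lit 0)) (P (nat_lit 300563387517009920)))) (T.h (P (nat_lit 0)) (M (nat_lit 80061814870507519)))) (T.h (T.h (P (nat_lit 0)) (T.h (T.h (P (nat_lit 0)) (M (nat_lit 35758438672831))) (P (nat_lit 0)))) (P (nat_lit 45792333411090432))))))), (T.h (T.h (P (nat_lit 0)) (T.h (T.h (P (nat_lit 22056385171391749620211122176)) (T.h (P (nat_lit 0)) (T.h (M (nat_lit 25702737167881122873343)) (T.h (P (nat_lit 0)) (M (nat_lit 2349252942460698623)))))) (T.h (P (nat_lit 0)) (T.h (T.h (M (nat_lit 61689989667755156045823)) (T.h (P (nat_lit 0)) (P (nat_lit 327098498796929024)))) (T.h (P (nat_lit 0)) (P (nat_lit 96786791661895680))))))) (T.h (T.h (T.h (P (nat_lit 0)) (T.h (P (nat_lit 52630575178557683830620160)) (T.h (P (nat_lit 0)) (T.h (P (nat_lit 246123919164382904320)) (T.h (P (nat_lit 0)) (P (nat_lit 323965957366480))))))) (T.h (P (nat_lit 0)) (T.h (T.h (P (nat_lit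 0)) (T.h (P (nat_lit 112460165131284774912)) (T.h (P (nat_lit 0)) (P (nat_lit 357255833203280))))) (T.h (P (nat_lit 0)) (T.h (T.h (P (nat_lit 0)) (P (nat_lit 53051936705152))) (P (nat_lit 0))))))) (T.h (T.h (P (nat_lit 0)) (T.h (T.h (P (nat_lit 24522684844148118257664)) (T.h (P (nat_lit 0)) (P (nat_lit 209679305862021120)))) (T.h (P (nat_lit 0)) (P (nat_lit 61005692873162752))))) (T.h (T.h (T.h (P (nat_lit 0)) (T.h (P (nat_lit 30487834188759171072)) (T.h (P (nat_lit 0)) (P (nat_lit 186187917737008))))) (T.h (P (nat_lit 0)) (T.h (T.h (P (nat_lit 0)) (M (nat_lit 58086204154527))) (P (nat_lit 0))))) (T.h (T.h (P (nat_lit 0)) (P (nat_lit 99933179538800640))) (T.h (T.h (T.h (P (nat_lit 0)) (P (nat_lit 56760557853824))) (P (nat_lit 0))) (P (nat_lit 0)))))))), (T.h (T.h (P (nat_lit 0)) (T.h (T.h (P (nat_lit 0)) (T.h (M (nat_lit 59607409781330600397897727)) (T.h (P (nat_lit 0)) (P (nat_lit 1752441552205047136256))))) (T.h (P (nat_lit 0)) (T.h (T.h (P (nat_lit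 0)) (P (nat_lit 18434105099233001472))) (P (nat_lit 0)))))) (T.h (T.h (T.h (M (nat_lit 3852606373610495334007439359)) (T.h (P (nat_lit 0)) (T.h (M (nat_lit 245447685447027747979263)) (T.h (P (nat_lit 0)) (M (nat_lit 282237081034981375)))))) (T.h (P (nat_lit 0)) (T.h (T.h (P (nat_lit 6837357369292922814464)) (T.h (P (nat_lit 0)) (M (nat_lit 110716026291683327)))) (T.h (P (nat_lit 0)) (P (nat_lit 59169193778446336)))))) (T.h (T.h (P (nat_lit 0)) (T.h (T.h (P (nat_lit 0)) (P (nat_lit 114307951635558563840))) (P (nat_lit 0)))) (T.h (T.h (T.h (P (nat_lit 22505124835361908850688)) (T.h (P (nat_lit 0)) (M (nat_lit 47461522852282367)))) (T.h (P (nat_lit 0)) (P (nat_lit 46638150502907904)))) (T.h (P (nat_lit 0)) (M (nat_lit 4950061242613759))))))), (P (nat_lit 0)), (P (nat_lit 0))]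
def lP22_13 : List (T ℤ) := [(T.h (T.h (T.h (P (nat_lit 8948906623492049372850681806848)) (T.h (P (nat_lit 0)) (T.h (M (nat_lit 4345724974159103378063359)) (T.h (P (nat_lit 0)) (T.h (M (nat_lit 150082100589540409343)) (T.h (P (nat_lit 0)) (P (nat_lit 269274458298416)))))))) (T.h (P (nat_lit 0)) (T.h (T.h (P (nat_lit 58882065422910461715677184)) (T.h (P (nat_lit 0)) (T.h (P (nat_lit 125185706528037928960)) (T.h (P (nat_lit 0)) (M (nat_lit 1228136039916415)))))) (T.h (P (nat_lit 0)) (T.h (T.h (M (nat_lit 68214842172949659647)) (T.h (P (nat_lit 0)) (M (nat_lit 1144396778049439)))) (T.h (P (nat_lit 0)) (P (nat_lit 175710697989216)))))))) (T.h (T.h (P (nat_lit 0)) (T.h (T.h (P (nat_lit 0)) (T.h (P (nat_lit 310208173592460922978304)) (T.h (P (nat_lit 0)) (P (nat_lit 427093878656663552))))) (T.h (P (nat_lit 0)) (T.h (T.h (P (nat_lit 0)) (P (nat_lit 271959458402074624))) (P (nat_lit 0)))))) (T.h (T.h (T.h (P (nat_lit 36267432805759554466873344)) (T.h (P (nat_lit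 0)) (T.h (P (nat_lit 173799879924342849536)) (T.h (P (nat_lit 0)) (M (nat_lit 188657044678431)))))) (T.h (P (nat_lit 0)) (T.h (T.h (P (nat_lit 30799174921044885504)) (T.h (P (nat_lit 0)) (M (nat_lit 781042328595599)))) (T.h (P (nat_lit 0)) (P (nat_lit 105175988639904)))))) (T.h (T.h (P (nat_lit 0)) (T.h (T.h (P (nat_lit 0)) (M (nat_lit 43875112969502719))) (P (nat_lit 0)))) (T.h (T.h (T.h (M (nat_lit 22390230653014638591)) (T.h (P (nat_lit 0)) (M (nat_lit 127853412312319)))) (T.h (P (nat_lit 0)) (M (nat_lit 53105316292191)))) (T.h (P (nat_lit 0)) (P (nat_lit 20292413701888)))))))), (T.h (T.h (T.h (P (nat_lit 0)) (T.h (P (nat_lit 165657683186759434277748736)) (T.h (P (nat_lit 0)) (T.h (M (nat_lit 151525430621372818653183)) (T.h (P (nat_lit 0)) (M (nat_lit 4766301716283391))))))) (T.h (P (nat_lit 0)) (T.h (T.h (P (nat_lit 0)) (T.h (P (nat_lit 12971391210968743673856)) (T.h (P (nat_lit 0)) (M (nat_lit 503218121177612287))))) (T.h (P (nat_lit 0)) (T.h (T.h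 (P (nat_lit 0)) (P (nat_lit 721582360884019200))) (P (nat_lit 0))))))) (T.h (T.h (P (nat_lit 0)) (T.h (T.h (M (nat_lit 69642946525185967036301311)) (T.h (P (nat_lit 0)) (T.h (P (nat_lit 398757292396802736128)) (T.h (P (nat_lit 0)) (P (nat_lit 20469176266336)))))) (T.h (P (nat_lit 0)) (T.h (T.h (M (nat_lit 107611019278756610047)) (T.h (P (nat_lit 0)) (P (nat_lit 145511679509456)))) (T.h (P (nat_lit 0)) (P (nat_lit 20495869015824))))))) (T.h (T.h (T.h (P (nat_lit 0)) (T.h (M (nat_lit 9028346044505141542911)) (T.h (P (nat_lit 0)) (M (nat_lit 327822764628525055))))) (T.h (P (nat_lit 0)) (T.h (T.h (P (nat_lit 0)) (P (nat_lit 27697189017501696))) (P (nat_lit 0))))) (T.h (T.h (P (nat_lit 0)) (T.h (T.h (P (nat_lit 30453531548156166144)) (T.h (P (nat_lit 0)) (P (nat_lit 713975442312624)))) (T.h (P (nat_lit 0)) (M (nat_lit 45475820045455))))) (T.h (T.h (T.h (P (nat_lit 0)) (M (nat_lit 169082224198090751))) (P (nat_lit 0))) (T.h (T.h (P (nat_lit 0)) (M (nat_lit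 22027988921247))) (P (nat_lit 0)))))))), (T.h (T.h (T.h (P (nat_lit 6079050956271828798893774077952)) (T.h (P (nat_lit 0)) (T.h (P (nat_lit 14183898082384610450210816)) (T.h (P (nat_lit 0)) (T.h (P (nat_lit 1576207568408653332480)) (T.h (P (nat_lit 0)) (M (nat_lit 144862093652351)))))))) (T.h (P (nat_lit 0)) (T.h (T.h (M (nat_lit 91783584266237386185244671)) (T.h (P (nat_lit 0)) (T.h (M (nat_lit 483902684680515747839)) (T.h (P (nat_lit 0)) (P (nat_lit 262688387398912)))))) (T.h (P (nat_lit 0)) (T.h (T.h (P (nat_lit 72341885501719969792)) (T.h (P (nat_lit 0)) (P (nat_lit 1638605785130944)))) (T.h (P (nat_lit 0)) (M (nat_lit 176948586303359)))))))) (T.h (T.h (P (nat_lit 0)) (T.h (T.h (P (nat_lit 0)) (T.h (M (nat_lit 470964527959331362045951)) (T.h (P (nat_lit 0)) (P (nat_lit 3661697074891587584))))) (T.h (P (nat_lit 0)) (T.h (T.h (P (nat_lit 0)) (M (nat_lit 107001692910714879))) (P (nat_lit 0)))))) (T.h (T.h (T.h (M (nat_lit 35360767025395417506381823))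 (T.h (P (nat_lit 0)) (T.h (M (nat_lit 429635777253873811455)) (T.h (P (nat_lit 0)) (P (nat_lit 9606960604224)))))) (T.h (P (nat_lit 0)) (T.h (T.h (P (nat_lit 66966561222490587136)) (T.h (P (nat_lit 0)) (P (nat_lit 665330991811392)))) (T.h (P (nat_lit 0)) (P (nat_lit 5134246787648)))))) (T.h (T.h (P (nat_lit 0)) (T.h (T.h (P (nat_lit 0)) (M (nat_lit 5975604795670527))) (P (nat_lit 0)))) (T.h (T.h (T.h (M (nat_lit 3904517961192308735)) (T.h (P (nat_lit 0)) (M (nat_lit 466928359457407)))) (T.h (P (nat_lit 0)) (P (nat_lit 139694028686272)))) (T.h (P (nat_lit 0)) (P (nat_lit 15993966832384)))))))), (T.h (T.h (T.h (P (nat_lit 0)) (T.h (P (nat_lit 17704389529118597248316342272)) (T.h (P (nat_lit 0)) (T.h (M (nat_lit 80612603565561887064063)) (T.h (P (nat_lit 0)) (P (nat_lit 552199261127180288))))))) (T.h (P (nat_lit 0)) (T.h (T.h (P (nat_lit 0)) (T.h (M (nat_lit 89931286064732739469311)) (T.h (P (nat_lit 0)) (M (nat_lit 315189760276332543))))) (T.h (P (nat_lit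 0)) (T.h (T.h (P (nat_lit 0)) (M (nat_lit 637775820071223295))) (P (nat_lit 0))))))) (T.h (T.h (P (nat_lit 0)) (T.h (T.h (P (nat_lit 90555554163492652484395008)) (T.h (P (nat_lit 0)) (T.h (P (nat_lit 38138849773442039808)) (T.h (P (nat_lit 0)) (P (nat_lit 1882318035580224)))))) (T.h (P (nat_lit 0)) (T.h (T.h (M (nat_lit 71140088274038554623)) (T.h (P (nat_lit 0)) (P (nat_lit 361794974546192)))) (T.h (P (nat_lit 0)) (P (nat_lit 172986961464416))))))) (T.h (T.h (T.h (P (nat_lit 0)) (T.h (P (nat_lit 179029490075745973698560)) (T.h (P (nat_lit 0)) (P (nat_lit 261691826528878592))))) (T.h (P (nat_lit 0)) (T.h (T.h (P (nat_lit 0)) (M (nat_lit 271088118705799167))) (P (nat_lit 0))))) (T.h (T.h (P (nat_lit 0)) (T.h (T.h (P (nat_lit 14186840661470216192)) (T.h (P (nat_lit 0)) (P (nat_lit 130585546475472)))) (T.h (P (nat_lit 0)) (M (nat_lit 25054827595247))))) (T.h (T.h (T.h (P (nat_lit 0)) (P (nat_lit 328597930403921920))) (P (nat_lit 0))) (T.h (T.h (P (nat_lit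 0)) (P (nat_lit 110851673169776))) (P (nat_lit 0)))))))), (T.h (T.h (T.h (M (nat_lit 16610131237050969157222881296383)) (T.h (P (nat_lit 0)) (T.h (M (nat_lit 23126752110161750401220607)) (T.h (P (nat_lit 0)) (P (nat_lit 118912105825926381568)))))) (T.h (P (nat_lit 0)) (T.h (T.h (P (nat_lit 78577746382943512002822144)) (T.h (P (nat_lit 0)) (P (nat_lit 254876444120481529856)))) (T.h (P (nat_lit 0)) (M (nat_lit 44363430733904084991)))))) (T.h (T.h (P (nat_lit 0)) (T.h (T.h (P (nat_lit 0)) (T.h (P (nat_lit 170774383045035088150528)) (T.h (P (nat_lit 0)) (M (nat_lit 1474979290622656511))))) (T.h (P (nat_lit 0)) (T.h (T.h (P (nat_lit 0)) (M (nat_lit 116902649026969599))) (P (nat_lit 0)))))) (T.h (T.h (T.h (M (nat_lit 12159185391653889647837183)) (T.h (P (nat_lit 0)) (M (nat_lit 12886189783738482687)))) (T.h (P (nat_lit 0)) (M (nat_lit 26916983604714143743)))) (T.h (T.h (P (nat_lit 0)) (T.h (T.h (P (nat_lit 0)) (P (nat_lit 7959988333117440))) (P (nat_lit 0))))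 (M (nat_lit 8542965040104341503)))))), (P (nat_lit 0)), (P (nat_lit 0)), (T.h (T.h (P (nat_lit 0)) (T.h (T.h (P (nat_lit 0)) (T.h (P (nat_lit 23184063137846014708285440)) (T.h (P (nat_lit 0)) (T.h (P (nat_lit 114263556908772229120)) (T.h (P (nat_lit 0)) (M (nat_lit 136357517418903))))))) (T.h (P (nat_lit 0)) (T.h (T.h (P (nat_lit 0)) (T.h (P (nat_lit 84380841537177649152)) (T.h (P (nat_lit 0)) (P (nat_lit 1540299680151472))))) (T.h (P (nat_lit 0)) (T.h (T.h (P (nat_lit 0)) (M (nat_lit 758417917878207))) (P (nat_lit 0)))))))) (T.h (T.h (T.h (P (nat_lit 24720628873632274064840065024)) (T.h (P (nat_lit 0)) (T.h (M (nat_lit 385743763890107318271)) (T.h (P (nat_lit 0)) (M (nat_lit 40305488974905343)))))) (T.h (P (nat_lit 0)) (T.h (T.h (M (nat_lit 1513734822001993842687)) (T.h (P (nat_lit 0)) (M (nat_lit 507231716894048255)))) (T.h (P (nat_lit 0)) (M (nat_lit 36128524567314431)))))) (T.h (T.h (P (nat_lit 0)) (T.h (T.h (P (nat_lit 0)) (T.h (M (nat_lit 330605202168002641919))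 (T.h (P (nat_lit 0)) (M (nat_lit 28042525457543))))) (T.h (P (nat_lit 0)) (T.h (T.h (P (nat_lit 0)) (P (nat_lit 479727104432))) (P (nat_lit 0)))))) (T.h (T.h (T.h (M (nat_lit 6216352766518433415167)) (T.h (P (nat_lit 0)) (P (nat_lit 16071640280662016)))) (T.h (P (nat_lit 0)) (P (nat_lit 44587433648488448)))) (T.h (T.h (P (nat_lit 0)) (T.h (T.h (P (nat_lit 0)) (P (nat_lit 454401778969128))) (P (nat_lit 0)))) (M (nat_lit 7346128619438079)))))))]
def lP22_14 : List (T ℤ) := [(T.h (T.h (P (nat_lit 0)) (T.h (T.h (P (nat_lit 165657683186759434277748736)) (T.h (P (nat_lit 0)) (T.h (P (nat_lit 12971391210968743673856)) (T.h (P (nat_lit 0)) (P (nat_lit 721582360884019200)))))) (T.h (P (nat_lit 0)) (T.h (T.h (M (nat_lit 151525430621372818653183)) (T.h (P (nat_lit 0)) (M (nat_lit 503218121177612287)))) (T.h (P (nat_lit 0)) (M (nat_lit 4766301716283391))))))) (T.h (T.h (T.h (P (nat_lit 0)) (T.h (M (nat_lit 69642946525185967036301311)) (T.h (P (nat_lit 0)) (T.h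 (M (nat_lit 107611019278756610047)) (T.h (P (nat_lit 0)) (P (nat_lit 20495869015824))))))) (T.h (P (nat_lit 0)) (T.h (T.h (P (nat_lit 0)) (T.h (P (nat_lit 398757292396802736128)) (T.h (P (nat_lit 0)) (P (nat_lit 145511679509456))))) (T.h (P (nat_lit 0)) (T.h (T.h (P (nat_lit 0)) (P (nat_lit 20469176266336))) (P (nat_lit 0))))))) (T.h (T.h (P (nat_lit 0)) (T.h (T.h (M (nat_lit 9028346044505141542911)) (T.h (P (nat_lit 0)) (P (nat_lit 27697189017501696)))) (T.h (P (nat_lit 0)) (M (nat_lit 327822764628525055))))) (T.h (T.h (T.h (P (nat_lit 0)) (T.h (P (nat_lit 30453531548156166144)) (T.h (P (nat_lit 0)) (M (nat_lit 45475820045455))))) (T.h (P (nat_lit 0)) (T.h (T.h (P (nat_lit 0)) (P (nat_lit 713975442312624))) (P (nat_lit 0))))) (T.h (T.h (P (nat_lit 0)) (M (nat_lit 169082224198090751))) (T.h (T.h (T.h (P (nat_lit 0)) (M (nat_lit 22027988921247))) (P (nat_lit 0))) (P (nat_lit 0)))))))), (T.h (T.h (P (nat_lit 0)) (T.h (T.h (P (nat_lit 0)) (T.h (M (nat_lit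 379881761952645680249962495)) (T.h (P (nat_lit 0)) (T.h (M (nat_lit 1952937546873269387263)) (T.h (P (nat_lit 0)) (P (nat_lit 359323624798656))))))) (T.h (P (nat_lit 0)) (T.h (T.h (P (nat_lit 0)) (T.h (M (nat_lit 1061532454852640112639)) (T.h (P (nat_lit 0)) (M (nat_lit 1377247444456703))))) (T.h (P (nat_lit 0)) (T.h (T.h (P (nat_lit 0)) (P (nat_lit 359323624798656))) (P (nat_lit 0)))))))) (T.h (T.h (T.h (M (nat_lit 204624579741806548629973893119)) (T.h (P (nat_lit 0)) (T.h (M (nat_lit 87372054093438497325055)) (T.h (P (nat_lit 0)) (P (nat_lit 506848848190963712)))))) (T.h (P (nat_lit 0)) (T.h (T.h (P (nat_lit 372232361390405832409088)) (T.h (P (nat_lit 0)) (P (nat_lit 299268860508438528)))) (T.h (P (nat_lit 0)) (P (nat_lit 259054959866544128)))))) (T.h (T.h (P (nat_lit 0)) (T.h (T.h (P (nat_lit 0)) (T.h (P (nat_lit 2192958142800296148992)) (T.h (P (nat_lit 0)) (P (nat_lit 228504705620032))))) (T.h (P (nat_lit 0)) (T.h (T.h (P (nat_lit 0)) (P (nat_lit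 228504705620032))) (P (nat_lit 0)))))) (T.h (T.h (T.h (P (nat_lit 327501886745863012745216)) (T.h (P (nat_lit 0)) (M (nat_lit 118178916928159743)))) (T.h (P (nat_lit 0)) (M (nat_lit 162434554484064255)))) (T.h (T.h (P (nat_lit 0)) (T.h (T.h (P (nat_lit 0)) (M (nat_lit 1123590043552511))) (P (nat_lit 0)))) (M (nat_lit 168862143760629759))))))), (T.h (T.h (P (nat_lit 0)) (T.h (T.h (P (nat_lit 38654651469590484565549383680)) (T.h (P (nat_lit 0)) (T.h (P (nat_lit 254371583437503744442368)) (T.h (P (nat_lit 0)) (M (nat_lit 863332651526553599)))))) (T.h (P (nat_lit 0)) (T.h (T.h (P (nat_lit 75429900119833793527808)) (T.h (P (nat_lit 0)) (M (nat_lit 1732861195147624447)))) (T.h (P (nat_lit 0)) (P (nat_lit 84372272904028160))))))) (T.h (T.h (T.h (P (nat_lit 0)) (T.h (M (nat_lit 82005352132504340645543935)) (T.h (P (nat_lit 0)) (T.h (P (nat_lit 7255255734206595072)) (T.h (P (nat_lit 0)) (P (nat_lit 128431816472960))))))) (T.h (P (nat_lit 0)) (T.h (T.h (P (nat_lit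 0)) (T.h (P (nat_lit 6781948296333099008)) (T.h (P (nat_lit 0)) (M (nat_lit 150609851272495))))) (T.h (P (nat_lit 0)) (T.h (T.h (P (nat_lit 0)) (P (nat_lit 56095130371632))) (P (nat_lit 0))))))) (T.h (T.h (P (nat_lit 0)) (T.h (T.h (M (nat_lit 398869698903503942975487)) (T.h (P (nat_lit 0)) (P (nat_lit 605362602800644096)))) (T.h (P (nat_lit 0)) (M (nat_lit 103527097765298175))))) (T.h (T.h (T.h (P (nat_lit 0)) (T.h (P (nat_lit 40354807243362795520)) (T.h (P (nat_lit 0)) (M (nat_lit 126198014860367))))) (T.h (P (nat_lit 0)) (T.h (T.h (P (nat_lit 0)) (M (nat_lit 625848463900175))) (P (nat_lit 0))))) (T.h (T.h (P (nat_lit 0)) (P (nat_lit 77592608275103744))) (T.h (T.h (T.h (P (nat_lit 0)) (M (nat_lit 171358582288431))) (P (nat_lit 0))) (P (nat_lit 0)))))))), (T.h (T.h (P (nat_lit 0)) (T.h (T.h (P (nat_lit 0)) (T.h (P (nat_lit 178450648329772352166428672)) (T.h (P (nat_lit 0)) (P (nat_lit 468182160841962946560))))) (T.h (P (nat_lit 0)) (T.h (T.h (P (nat_lit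 0)) (P (nat_lit 312703088898592473088))) (P (nat_lit 0)))))) (T.h (T.h (T.h (P (nat_lit 12264306295860865433992167424)) (T.h (P (nat_lit 0)) (T.h (P (nat_lit 72151306072020993703936)) (T.h (P (nat_lit 0)) (M (nat_lit 353876310217654271)))))) (T.h (P (nat_lit 0)) (T.h (T.h (M (nat_lit 126715159606584970051583)) (T.h (P (nat_lit 0)) (P (nat_lit 329315656024653824)))) (T.h (P (nat_lit 0)) (M (nat_lit 250273072803250175)))))) (T.h (T.h (P (nat_lit 0)) (T.h (T.h (P (nat_lit 0)) (M (nat_lit 632434394254251393023))) (P (nat_lit 0)))) (T.h (T.h (T.h (M (nat_lit 38351697694890571857919)) (T.h (P (nat_lit 0)) (P (nat_lit 12011030252027904)))) (T.h (P (nat_lit 0)) (P (nat_lit 95609950710071296)))) (T.h (P (nat_lit 0)) (P (nat_lit 22986133075853312))))))), (P (nat_lit 0)), (P (nat_lit 0)), (T.h (T.h (T.h (M (nat_lit 3050221165982965858891387109375)) (T.h (P (nat_lit 0)) (T.h (P (nat_lit 11271137998804260396990464)) (T.h (P (nat_lit 0)) (T.h (M (nat_lit 34847022814194565119))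 (T.h (P (nat_lit 0)) (P (nat_lit 52247510850896)))))))) (T.h (P (nat_lit 0)) (T.h (T.h (M (nat_lit 10781205320472671966724095)) (T.h (P (nat_lit 0)) (T.h (M (nat_lit 22808272842543595519)) (T.h (P (nat_lit 0)) (M (nat_lit 253534071292367)))))) (T.h (P (nat_lit 0)) (T.h (T.h (M (nat_lit 127519819597720059903)) (T.h (P (nat_lit 0)) (M (nat_lit 573700470264399)))) (T.h (P (nat_lit 0)) (P (nat_lit 91885726740320)))))))) (T.h (T.h (P (nat_lit 0)) (T.h (T.h (P (nat_lit 0)) (T.h (M (nat_lit 36962998555645520642047)) (T.h (P (nat_lit 0)) (P (nat_lit 6628057925877760))))) (T.h (P (nat_lit 0)) (T.h (T.h (P (nat_lit 0)) (M (nat_lit 106571254110420991))) (P (nat_lit 0)))))) (T.h (T.h (T.h (P (nat_lit 9117757203258986322722816)) (T.h (P (nat_lit 0)) (T.h (M (nat_lit 11974111649612169215)) (T.h (P (nat_lit 0)) (P (nat_lit 45205290417088)))))) (T.h (P (nat_lit 0)) (T.h (T.h (P (nat_lit 34309527410996936704)) (T.h (P (nat_lit 0)) (P (nat_lit 129124711451760)))) (T.h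 (P (nat_lit 0)) (M (nat_lit 178724609607039)))))) (T.h (T.h (P (nat_lit 0)) (T.h (T.h (P (nat_lit 0)) (M (nat_lit 28969748299710463))) (P (nat_lit 0)))) (T.h (T.h (T.h (P (nat_lit 3026623075966779392)) (T.h (P (nat_lit 0)) (M (nat_lit 3296272730431)))) (T.h (P (nat_lit 0)) (P (nat_lit 106079842663632)))) (T.h (P (nat_lit 0)) (P (nat_lit 4793578431152)))))))), (T.h (T.h (T.h (P (nat_lit 0)) (T.h (P (nat_lit 14882683165086291058843713536)) (T.h (P (nat_lit 0)) (T.h (P (nat_lit 20929441631043701440512)) (T.h (P (nat_lit 0)) (M (nat_lit 36176921370558463))))))) (T.h (P (nat_lit 0)) (T.h (T.h (P (nat_lit 0)) (T.h (P (nat_lit 256807096225738805739520)) (T.h (P (nat_lit 0)) (M (nat_lit 446271242066706431))))) (T.h (P (nat_lit 0)) (T.h (T.h (P (nat_lit 0)) (P (nat_lit 1211095121471963136))) (P (nat_lit 0))))))) (T.h (T.h (P (nat_lit 0)) (T.h (T.h (M (nat_lit 53146542248726677021523967)) (T.h (P (nat_lit 0)) (T.h (M (nat_lit 75408516526748205055)) (T.h (P (nat_lit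 0)) (P (nat_lit 4164924265456)))))) (T.h (P (nat_lit 0)) (T.h (T.h (P (nat_lit 37051053167047868416)) (T.h (P (nat_lit 0)) (M (nat_lit 75934935373951)))) (T.h (P (nat_lit 0)) (M (nat_lit 72084300084943))))))) (T.h (T.h (T.h (P (nat_lit 0)) (T.h (M (nat_lit 18849529835447239311359)) (T.h (P (nat_lit 0)) (P (nat_lit 102934913059225600))))) (T.h (P (nat_lit 0)) (T.h (T.h (P (nat_lit 0)) (M (nat_lit 463891509779316735))) (P (nat_lit 0))))) (T.h (T.h (P (nat_lit 0)) (T.h (T.h (M (nat_lit 11548678206101913599)) (T.h (P (nat_lit 0)) (P (nat_lit 16557836531408)))) (T.h (P (nat_lit 0)) (P (nat_lit 6711510549152))))) (T.h (T.h (T.h (P (nat_lit 0)) (P (nat_lit 140018033237983232))) (P (nat_lit 0))) (T.h (T.h (P (nat_lit 0)) (M (nat_lit 34652740068447))) (P (nat_lit 0))))))))]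
def lP22_15 : List (T ℤ) := [(T.h (T.h (T.h (M (nat_lit 26819273438698777877612882558975)) (T.h (P (nat_lit 0)) (T.h (M (nat_lit 102711645931231509722693631)) (T.h (P (nat_lit 0)) (T.h (M (nat_lit 338273258655384076287)) (T.h (P (nat_lit 0)) (M (nat_lit 176948586303359)))))))) (T.h (P (nat_lit 0)) (T.h (T.h (P (nat_lit 94956833367416378281164800)) (T.h (P (nat_lit 0)) (T.h (M (nat_lit 534161483143095255039)) (T.h (P (nat_lit 0)) (P (nat_lit 1638605785130944)))))) (T.h (P (nat_lit 0)) (T.h (T.h (M (nat_lit 105726602434612035583)) (T.h (P (nat_lit 0)) (P (nat_lit 262688387398912)))) (T.h (P (nat_lit 0)) (M (nat_lit 144862093652351)))))))) (T.h (T.h (P (nat_lit 0)) (T.h (T.h (P (nat_lit 0)) (T.h (P (nat_lit 452762698442645379743744)) (T.h (P (nat_lit 0)) (M (nat_lit 536783623510491135))))) (T.h (P (nat_lit 0)) (T.h (T.h (P (nat_lit 0)) (P (nat_lit 68776434946539520))) (P (nat_lit 0)))))) (T.h (T.h (T.h (M (nat_lit 34474436911378699967791103)) (T.h (P (nat_lit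 0)) (T.h (P (nat_lit 358647636008428896256)) (T.h (P (nat_lit 0)) (P (nat_lit 5134246787648)))))) (T.h (P (nat_lit 0)) (T.h (T.h (P (nat_lit 338747948474786906112)) (T.h (P (nat_lit 0)) (P (nat_lit 665330991811392)))) (T.h (P (nat_lit 0)) (P (nat_lit 9606960604224)))))) (T.h (T.h (P (nat_lit 0)) (T.h (T.h (P (nat_lit 0)) (M (nat_lit 568913496075010047))) (P (nat_lit 0)))) (T.h (T.h (T.h (M (nat_lit 43197256603180990463)) (T.h (P (nat_lit 0)) (P (nat_lit 139694028686272)))) (T.h (P (nat_lit 0)) (M (nat_lit 466928359457407)))) (T.h (P (nat_lit 0)) (P (nat_lit 15993966832384)))))))), (T.h (T.h (T.h (P (nat_lit 0)) (T.h (P (nat_lit 38654651469590484565549383680)) (T.h (P (nat_lit 0)) (T.h (P (nat_lit 75429900119833793527808)) (T.h (P (nat_lit 0)) (P (nat_lit 84372272904028160))))))) (T.h (P (nat_lit 0)) (T.h (T.h (P (nat_lit 0)) (T.h (P (nat_lit 254371583437503744442368)) (T.h (P (nat_lit 0)) (M (nat_lit 1732861195147624447))))) (T.h (P (nat_lit 0)) (T.h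 (T.h (P (nat_lit 0)) (M (nat_lit 863332651526553599))) (P (nat_lit 0))))))) (T.h (T.h (P (nat_lit 0)) (T.h (T.h (M (nat_lit 82005352132504340645543935)) (T.h (P (nat_lit 0)) (T.h (P (nat_lit 6781948296333099008)) (T.h (P (nat_lit 0)) (P (nat_lit 56095130371632)))))) (T.h (P (nat_lit 0)) (T.h (T.h (P (nat_lit 7255255734206595072)) (T.h (P (nat_lit 0)) (M (nat_lit 150609851272495)))) (T.h (P (nat_lit 0)) (P (nat_lit 128431816472960))))))) (T.h (T.h (T.h (P (nat_lit 0)) (T.h (M (nat_lit 398869698903503942975487)) (T.h (P (nat_lit 0)) (M (nat_lit 103527097765298175))))) (T.h (P (nat_lit 0)) (T.h (T.h (P (nat_lit 0)) (P (nat_lit 605362602800644096))) (P (nat_lit 0))))) (T.h (T.h (P (nat_lit 0)) (T.h (T.h (P (nat_lit 40354807243362795520)) (T.h (P (nat_lit 0)) (M (nat_lit 625848463900175)))) (T.h (P (nat_lit 0)) (M (nat_lit 126198014860367))))) (T.h (T.h (T.h (P (nat_lit 0)) (P (nat_lit 77592608275103744))) (P (nat_lit 0))) (T.h (T.h (P (nat_lit 0)) (M (nat_lit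 171358582288431))) (P (nat_lit 0)))))))), (T.h (T.h (T.h (P (nat_lit 19911686985342792395777992818688)) (T.h (P (nat_lit 0)) (T.h (M (nat_lit 66216282854357790449729535)) (T.h (P (nat_lit 0)) (P (nat_lit 89483072378851295232)))))) (T.h (P (nat_lit 0)) (T.h (T.h (M (nat_lit 66216282854357790449729535)) (T.h (P (nat_lit 0)) (P (nat_lit 1204606997567086002176)))) (T.h (P (nat_lit 0)) (P (nat_lit 89483072378851295232)))))) (T.h (T.h (P (nat_lit 0)) (T.h (T.h (P (nat_lit 0)) (T.h (M (nat_lit 678210062349546654007295)) (T.h (P (nat_lit 0)) (M (nat_lit 180562133041676287))))) (T.h (P (nat_lit 0)) (T.h (T.h (P (nat_lit 0)) (M (nat_lit 180562133041676287))) (P (nat_lit 0)))))) (T.h (T.h (T.h (P (nat_lit 29866378528940360116207616)) (T.h (P (nat_lit 0)) (M (nat_lit 153817068035633053695)))) (T.h (P (nat_lit 0)) (M (nat_lit 153817068035633053695)))) (T.h (T.h (P (nat_lit 0)) (T.h (T.h (P (nat_lit 0)) (P (nat_lit 642979739907260416))) (P (nat_lit 0)))) (P (nat_lit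 42188510695096582144)))))), (P (nat_lit 0)), (P (nat_lit 0)), (T.h (T.h (P (nat_lit 0)) (T.h (T.h (P (nat_lit 0)) (T.h (P (nat_lit 30898303051841342248321024)) (T.h (P (nat_lit 0)) (T.h (P (nat_lit 30219089852804104192)) (T.h (P (nat_lit 0)) (P (nat_lit 8721480899840))))))) (T.h (P (nat_lit 0)) (T.h (T.h (P (nat_lit 0)) (T.h (P (nat_lit 30680473103448932352)) (T.h (P (nat_lit 0)) (M (nat_lit 101694640089231))))) (T.h (P (nat_lit 0)) (T.h (T.h (P (nat_lit 0)) (P (nat_lit 329758805387944))) (P (nat_lit 0)))))))) (T.h (T.h (T.h (P (nat_lit 16720224391768011437074546688)) (T.h (P (nat_lit 0)) (T.h (P (nat_lit 11941462245276024569856)) (T.h (P (nat_lit 0)) (M (nat_lit 7865576575860735)))))) (T.h (P (nat_lit 0)) (T.h (T.h (M (nat_lit 18013996512637706305535)) (T.h (P (nat_lit 0)) (P (nat_lit 13098606876098560)))) (T.h (P (nat_lit 0)) (M (nat_lit 181785815691591679)))))) (T.h (T.h (P (nat_lit 0)) (T.h (T.h (P (nat_lit 0)) (T.h (M (nat_lit 22805343476339703807))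 (T.h (P (nat_lit 0)) (P (nat_lit 26677759400472))))) (T.h (P (nat_lit 0)) (T.h (T.h (P (nat_lit 0)) (M (nat_lit 41432074338415))) (P (nat_lit 0)))))) (T.h (T.h (T.h (M (nat_lit 4121397066077524983807)) (T.h (P (nat_lit 0)) (P (nat_lit 3504176986259456)))) (T.h (P (nat_lit 0)) (M (nat_lit 21245440802947071)))) (T.h (T.h (P (nat_lit 0)) (T.h (T.h (P (nat_lit 0)) (M (nat_lit 30619395733135))) (P (nat_lit 0)))) (M (nat_lit 7569956503519231))))))), (T.h (T.h (P (nat_lit 0)) (T.h (T.h (M (nat_lit 10568642270593862374394953727)) (T.h (P (nat_lit 0)) (T.h (P (nat_lit 8179832511665811750912)) (T.h (P (nat_lit 0)) (P (nat_lit 42281017820037120)))))) (T.h (P (nat_lit 0)) (T.h (T.h (P (nat_lit 140262297202309164171264)) (T.h (P (nat_lit 0)) (P (nat_lit 126396749802356736)))) (T.h (P (nat_lit 0)) (M (nat_lit 263332630997860351))))))) (T.h (T.h (T.h (P (nat_lit 0)) (T.h (P (nat_lit 11439208824090017958723584)) (T.h (P (nat_lit 0)) (T.h (M (nat_lit 25606197467787821055))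 (T.h (P (nat_lit 0)) (M (nat_lit 9359451847407))))))) (T.h (P (nat_lit 0)) (T.h (T.h (P (nat_lit 0)) (T.h (P (nat_lit 167073992415295569920)) (T.h (P (nat_lit 0)) (P (nat_lit 13668783183072))))) (T.h (P (nat_lit 0)) (T.h (T.h (P (nat_lit 0)) (M (nat_lit 216448194887871))) (P (nat_lit 0))))))) (T.h (T.h (P (nat_lit 0)) (T.h (T.h (P (nat_lit 8179832511665811750912)) (T.h (P (nat_lit 0)) (M (nat_lit 83790289926193151)))) (T.h (P (nat_lit 0)) (P (nat_lit 126396749802356736))))) (T.h (T.h (T.h (P (nat_lit 0)) (T.h (M (nat_lit 25606197467787821055)) (T.h (P (nat_lit 0)) (M (nat_lit 9080975901567))))) (T.h (P (nat_lit 0)) (T.h (T.h (P (nat_lit 0)) (P (nat_lit 13668783183072))) (P (nat_lit 0))))) (T.h (T.h (P (nat_lit 0)) (P (nat_lit 42281017820037120))) (T.h (T.h (T.h (P (nat_lit 0)) (M (nat_lit 9359451847407))) (P (nat_lit 0))) (P (nat_lit 0)))))))), (T.h (T.h (P (nat_lit 0)) (T.h (T.h (P (nat_lit 0)) (T.h (M (nat_lit 40829821524197619261243391)) (T.h (P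 (nat_lit 0)) (T.h (P (nat_lit 181847495206936510464)) (T.h (P (nat_lit 0)) (M (nat_lit 34559719305663))))))) (T.h (P (nat_lit 0)) (T.h (T.h (P (nat_lit 0)) (T.h (M (nat_lit 950575920179983679487)) (T.h (P (nat_lit 0)) (M (nat_lit 569304909624511))))) (T.h (P (nat_lit 0)) (T.h (T.h (P (nat_lit 0)) (M (nat_lit 40638326489599))) (P (nat_lit 0)))))))) (T.h (T.h (T.h (P (nat_lit 51582408548206184494769635328)) (T.h (P (nat_lit 0)) (T.h (M (nat_lit 99487948763324301180927)) (T.h (P (nat_lit 0)) (P (nat_lit 196616084993900544)))))) (T.h (P (nat_lit 0)) (T.h (T.h (M (nat_lit 200904069181834157621247)) (T.h (P (nat_lit 0)) (M (nat_lit 96430074812661759)))) (T.h (P (nat_lit 0)) (P (nat_lit 1043993211476312064)))))) (T.h (T.h (P (nat_lit 0)) (T.h (T.h (P (nat_lit 0)) (T.h (P (nat_lit 95133925868226740224)) (T.h (P (nat_lit 0)) (P (nat_lit 16402866389632))))) (T.h (P (nat_lit 0)) (T.h (T.h (P (nat_lit 0)) (M (nat_lit 353210867934847))) (P (nat_lit 0)))))) (T.h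 (T.h (T.h (M (nat_lit 117139666033039860826111)) (T.h (P (nat_lit 0)) (P (nat_lit 199864390115131392)))) (T.h (P (nat_lit 0)) (P (nat_lit 185561712988880896)))) (T.h (T.h (P (nat_lit 0)) (T.h (T.h (P (nat_lit 0)) (M (nat_lit 35758438672831))) (P (nat_lit 0)))) (P (nat_lit 70419940393320448)))))))]
def lP22_16 : List (T ℤ) := [(T.h (T.h (P (nat_lit 0)) (T.h (T.h (P (nat_lit 17704389529118597248316342272)) (T.h (P (nat_lit 0)) (T.h (M (nat_lit 89931286064732739469311)) (T.h (P (nat_lit 0)) (M (nat_lit 637775820071223295)))))) (T.h (P (nat_lit 0)) (T.h (T.h (M (nat_lit 80612603565561887064063)) (T.h (P (nat_lit 0)) (M (nat_lit 315189760276332543)))) (T.h (P (nat_lit 0)) (P (nat_lit 552199261127180288))))))) (T.h (T.h (T.h (P (nat_lit 0)) (T.h (P (nat_lit 90555554163492652484395008)) (T.h (P (nat_lit 0)) (T.h (M (nat_lit 71140088274038554623)) (T.h (P (nat_lit 0)) (P (nat_lit 172986961464416))))))) (T.h (P (nat_lit 0)) (T.h (T.h (P (nat_lit 0)) (T.h (P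 (nat_lit 38138849773442039808)) (T.h (P (nat_lit 0)) (P (nat_lit 361794974546192))))) (T.h (P (nat_lit 0)) (T.h (T.h (P (nat_lit 0)) (P (nat_lit 1882318035580224))) (P (nat_lit 0))))))) (T.h (T.h (P (nat_lit 0)) (T.h (T.h (P (nat_lit 179029490075745973698560)) (T.h (P (nat_lit 0)) (M (nat_lit 271088118705799167)))) (T.h (P (nat_lit 0)) (P (nat_lit 261691826528878592))))) (T.h (T.h (T.h (P (nat_lit 0)) (T.h (P (nat_lit 14186840661470216192)) (T.h (P (nat_lit 0)) (M (nat_lit 25054827595247))))) (T.h (P (nat_lit 0)) (T.h (T.h (P (nat_lit 0)) (P (nat_lit 130585546475472))) (P (nat_lit 0))))) (T.h (T.h (P (nat_lit 0)) (P (nat_lit 328597930403921920))) (T.h (T.h (T.h (P (nat_lit 0)) (P (nat_lit 110851673169776))) (P (nat_lit 0))) (P (nat_lit 0)))))))), (T.h (T.h (P (nat_lit 0)) (T.h (T.h (P (nat_lit 0)) (T.h (P (nat_lit 178450648329772352166428672)) (T.h (P (nat_lit 0)) (P (nat_lit 312703088898592473088))))) (T.h (P (nat_lit 0)) (T.h (T.h (P (nat_lit 0))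 (P (nat_lit 468182160841962946560))) (P (nat_lit 0)))))) (T.h (T.h (T.h (P (nat_lit 12264306295860865433992167424)) (T.h (P (nat_lit 0)) (T.h (M (nat_lit 126715159606584970051583)) (T.h (P (nat_lit 0)) (M (nat_lit 250273072803250175)))))) (T.h (P (nat_lit 0)) (T.h (T.h (P (nat_lit 72151306072020993703936)) (T.h (P (nat_lit 0)) (P (nat_lit 329315656024653824)))) (T.h (P (nat_lit 0)) (M (nat_lit 353876310217654271)))))) (T.h (T.h (P (nat_lit 0)) (T.h (T.h (P (nat_lit 0)) (M (nat_lit 632434394254251393023))) (P (nat_lit 0)))) (T.h (T.h (T.h (M (nat_lit 38351697694890571857919)) (T.h (P (nat_lit 0)) (P (nat_lit 95609950710071296)))) (T.h (P (nat_lit 0)) (P (nat_lit 12011030252027904)))) (T.h (P (nat_lit 0)) (P (nat_lit 22986133075853312))))))), (P (nat_lit 0)), (T.h (T.h (T.h (P (nat_lit 1297020999668584461810249236480)) (T.h (P (nat_lit 0)) (T.h (M (nat_lit 535557376141384006762495)) (T.h (P (nat_lit 0)) (T.h (M (nat_lit 4242523556224696319)) (T.h (P (nat_lit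 0)) (P (nat_lit 1641657772256)))))))) (T.h (P (nat_lit 0)) (T.h (T.h (P (nat_lit 18795611996108090287063040)) (T.h (P (nat_lit 0)) (T.h (P (nat_lit 15638866604584861696)) (T.h (P (nat_lit 0)) (M (nat_lit 1048894253039)))))) (T.h (P (nat_lit 0)) (T.h (T.h (P (nat_lit 37934550995487948800)) (T.h (P (nat_lit 0)) (P (nat_lit 33625508429696)))) (T.h (P (nat_lit 0)) (P (nat_lit 70987758550880)))))))) (T.h (T.h (P (nat_lit 0)) (T.h (T.h (P (nat_lit 0)) (T.h (P (nat_lit 7421823565152869416960)) (T.h (P (nat_lit 0)) (M (nat_lit 8139028818755583))))) (T.h (P (nat_lit 0)) (T.h (T.h (P (nat_lit 0)) (M (nat_lit 58909351532822527))) (P (nat_lit 0)))))) (T.h (T.h (T.h (M (nat_lit 535557376141384006762495)) (T.h (P (nat_lit 0)) (T.h (P (nat_lit 2084002327336845312)) (T.h (P (nat_lit 0)) (P (nat_lit 4856821191136)))))) (T.h (P (nat_lit 0)) (T.h (T.h (P (nat_lit 15638866604584861696)) (T.h (P (nat_lit 0)) (P (nat_lit 8530035727200)))) (T.h (P (nat_lit 0)) (P (nat_lit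 33625508429696)))))) (T.h (T.h (P (nat_lit 0)) (T.h (T.h (P (nat_lit 0)) (M (nat_lit 8139028818755583))) (P (nat_lit 0)))) (T.h (T.h (T.h (M (nat_lit 4242523556224696319)) (T.h (P (nat_lit 0)) (P (nat_lit 4856821191136)))) (T.h (P (nat_lit 0)) (M (nat_lit 1048894253039)))) (T.h (P (nat_lit 0)) (P (nat_lit 1641657772256)))))))), (T.h (T.h (T.h (P (nat_lit 0)) (T.h (P (nat_lit 825243808494547520458850304)) (T.h (P (nat_lit 0)) (T.h (P (nat_lit 452590592553853648896)) (T.h (P (nat_lit 0)) (P (nat_lit 2367037161553920))))))) (T.h (P (nat_lit 0)) (T.h (T.h (P (nat_lit 0)) (T.h (M (nat_lit 26344594233526511992831)) (T.h (P (nat_lit 0)) (M (nat_lit 39437525538734079))))) (T.h (P (nat_lit 0)) (T.h (T.h (P (nat_lit 0)) (M (nat_lit 391640158868422655))) (P (nat_lit 0))))))) (T.h (T.h (P (nat_lit 0)) (T.h (T.h (M (nat_lit 3746786908111961168281599)) (T.h (P (nat_lit 0)) (T.h (P (nat_lit 6725667058576523264)) (T.h (P (nat_lit 0)) (M (nat_lit 14115448294655))))))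 (T.h (P (nat_lit 0)) (T.h (T.h (P (nat_lit 150605351395472179200)) (T.h (P (nat_lit 0)) (P (nat_lit 20853968390928)))) (T.h (P (nat_lit 0)) (P (nat_lit 126624751875824))))))) (T.h (T.h (T.h (P (nat_lit 0)) (T.h (M (nat_lit 4538456619322401882111)) (T.h (P (nat_lit 0)) (M (nat_lit 18297077188886527))))) (T.h (P (nat_lit 0)) (T.h (T.h (P (nat_lit 0)) (M (nat_lit 9636131581935615))) (P (nat_lit 0))))) (T.h (T.h (P (nat_lit 0)) (T.h (T.h (P (nat_lit 21421683604952449024)) (T.h (P (nat_lit 0)) (M (nat_lit 4256921589567)))) (T.h (P (nat_lit 0)) (M (nat_lit 29896136530671))))) (T.h (T.h (T.h (P (nat_lit 0)) (P (nat_lit 1673160524251136))) (P (nat_lit 0))) (T.h (T.h (P (nat_lit 0)) (P (nat_lit 7351350546784))) (P (nat_lit 0)))))))), (T.h (T.h (T.h (M (nat_lit 451371570892644458700375851007)) (T.h (P (nat_lit 0)) (T.h (M (nat_lit 37919151538686333718364159)) (T.h (P (nat_lit 0)) (T.h (M (nat_lit 24796098954929373183)) (T.h (P (nat_lit 0)) (M (nat_lit 33585842871871))))))))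 (T.h (P (nat_lit 0)) (T.h (T.h (M (nat_lit 124140892935933662322491391)) (T.h (P (nat_lit 0)) (T.h (M (nat_lit 358588512846512914431)) (T.h (P (nat_lit 0)) (P (nat_lit 87479027713152)))))) (T.h (P (nat_lit 0)) (T.h (T.h (P (nat_lit 110870326665958916096)) (T.h (P (nat_lit 0)) (P (nat_lit 25220496191936)))) (T.h (P (nat_lit 0)) (M (nat_lit 259896371934719)))))))) (T.h (T.h (P (nat_lit 0)) (T.h (T.h (P (nat_lit 0)) (T.h (M (nat_lit 42988637549822149132287)) (T.h (P (nat_lit 0)) (P (nat_lit 54255412921630720))))) (T.h (P (nat_lit 0)) (T.h (T.h (P (nat_lit 0)) (P (nat_lit 1038887502988050432))) (P (nat_lit 0)))))) (T.h (T.h (T.h (P (nat_lit 4672964246757204557824)) (T.h (P (nat_lit 0)) (T.h (M (nat_lit 38660472408677285887)) (T.h (P (nat_lit 0)) (M (nat_lit 49145268336255)))))) (T.h (P (nat_lit 0)) (T.h (T.h (M (nat_lit 278979030134133096447)) (T.h (P (nat_lit 0)) (M (nat_lit 190117580289279)))) (T.h (P (nat_lit 0)) (P (nat_lit 25220496191936)))))) (T.h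 (T.h (P (nat_lit 0)) (T.h (T.h (P (nat_lit 0)) (M (nat_lit 42406834708414463))) (P (nat_lit 0)))) (T.h (T.h (T.h (P (nat_lit 20156511356041822208)) (T.h (P (nat_lit 0)) (M (nat_lit 49145268336255)))) (T.h (P (nat_lit 0)) (P (nat_lit 87479027713152)))) (T.h (P (nat_lit 0)) (M (nat_lit 33585842871871)))))))), (T.h (T.h (T.h (P (nat_lit 0)) (T.h (P (nat_lit 22056385171391749620211122176)) (T.h (P (nat_lit 0)) (T.h (M (nat_lit 61689989667755156045823)) (T.h (P (nat_lit 0)) (P (nat_lit 96786791661895680))))))) (T.h (P (nat_lit 0)) (T.h (T.h (P (nat_lit 0)) (T.h (M (nat_lit 25702737167881122873343)) (T.h (P (nat_lit 0)) (P (nat_lit 327098498796929024))))) (T.h (P (nat_lit 0)) (T.h (T.h (P (nat_lit 0)) (M (nat_lit 2349252942460698623))) (P (nat_lit 0))))))) (T.h (T.h (P (nat_lit 0)) (T.h (T.h (P (nat_lit 52630575178557683830620160)) (T.h (P (nat_lit 0)) (T.h (P (nat_lit 112460165131284774912)) (T.h (P (nat_lit 0)) (P (nat_lit 53051936705152)))))) (T.h (P (nat_lit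 0)) (T.h (T.h (P (nat_lit 246123919164382904320)) (T.h (P (nat_lit 0)) (P (nat_lit 357255833203280)))) (T.h (P (nat_lit 0)) (P (nat_lit 323965957366480))))))) (T.h (T.h (T.h (P (nat_lit 0)) (T.h (P (nat_lit 24522684844148118257664)) (T.h (P (nat_lit 0)) (P (nat_lit 61005692873162752))))) (T.h (P (nat_lit 0)) (T.h (T.h (P (nat_lit 0)) (P (nat_lit 209679305862021120))) (P (nat_lit 0))))) (T.h (T.h (P (nat_lit 0)) (T.h (T.h (P (nat_lit 30487834188759171072)) (T.h (P (nat_lit 0)) (M (nat_lit 58086204154527)))) (T.h (P (nat_lit 0)) (P (nat_lit 186187917737008))))) (T.h (T.h (T.h (P (nat_lit 0)) (P (nat_lit 99933179538800640))) (P (nat_lit 0))) (T.h (T.h (P (nat_lit 0)) (P (nat_lit 56760557853824))) (P (nat_lit 0)))))))), (T.h (T.h (T.h (M (nat_lit 16610131237050969157222881296383)) (T.h (P (nat_lit 0)) (T.h (P (nat_lit 78577746382943512002822144)) (T.h (P (nat_lit 0)) (M (nat_lit 44363430733904084991)))))) (T.h (P (nat_lit 0)) (T.h (T.h (M (nat_lit 23126752110161750401220607))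 (T.h (P (nat_lit 0)) (P (nat_lit 254876444120481529856)))) (T.h (P (nat_lit 0)) (P (nat_lit 118912105825926381568)))))) (T.h (T.h (P (nat_lit 0)) (T.h (T.h (P (nat_lit 0)) (T.h (P (nat_lit 170774383045035088150528)) (T.h (P (nat_lit 0)) (M (nat_lit 116902649026969599))))) (T.h (P (nat_lit 0)) (T.h (T.h (P (nat_lit 0)) (M (nat_lit 1474979290622656511))) (P (nat_lit 0)))))) (T.h (T.h (T.h (M (nat_lit 12159185391653889647837183)) (T.h (P (nat_lit 0)) (M (nat_lit 26916983604714143743)))) (T.h (P (nat_lit 0)) (M (nat_lit 12886189783738482687)))) (T.h (T.h (P (nat_lit 0)) (T.h (T.h (P (nat_lit 0)) (P (nat_lit 7959988333117440))) (P (nat_lit 0)))) (M (nat_lit 8542965040104341503))))))]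
def lP22_17 : List (T ℤ) := [(P (nat_lit 0)), (P (nat_lit 0)), (T.h (T.h (P (nat_lit 0)) (T.h (T.h (P (nat_lit 0)) (T.h (P (nat_lit 14687585837093898757865472)) (T.h (P (nat_lit 0)) (T.h (P (nat_lit 19685868038063652864)) (T.h (P (nat_lit 0)) (P (nat_lit 5360624420992))))))) (T.h (P (nat_lit 0)) (T.h (T.h (P (nat_lit 0)) (T.h (P (nat_lit 260874937933494222848)) (T.h (P (nat_lit 0)) (P (nat_lit 62827191098304))))) (T.h (P (nat_lit 0)) (T.h (T.h (P (nat_lit 0)) (M (nat_lit 519960225386687))) (P (nat_lit 0)))))))) (T.h (T.h (T.h (M (nat_lit 7545880221992805317616861183)) (T.h (P (nat_lit 0)) (T.h (M (nat_lit 10622575404966005964799)) (T.h (P (nat_lit 0)) (M (nat_lit 48004631291133951)))))) (T.h (P (nat_lit 0)) (T.h (T.h (P (nat_lit 135857268729696623788032)) (T.h (P (nat_lit 0)) (M (nat_lit 47295445978382335)))) (T.h (P (nat_lit 0)) (M (nat_lit 256185710019379199)))))) (T.h (T.h (P (nat_lit 0)) (T.h (T.h (P (nat_lit 0)) (T.h (M (nat_lit 102910509908660060159))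 (T.h (P (nat_lit 0)) (M (nat_lit 8555555049535))))) (T.h (P (nat_lit 0)) (T.h (T.h (P (nat_lit 0)) (M (nat_lit 50830335485887))) (P (nat_lit 0)))))) (T.h (T.h (T.h (P (nat_lit 931328635943476264960)) (T.h (P (nat_lit 0)) (M (nat_lit 29366308743315455)))) (T.h (P (nat_lit 0)) (M (nat_lit 147449287571701759)))) (T.h (T.h (P (nat_lit 0)) (T.h (T.h (P (nat_lit 0)) (P (nat_lit 30400262961600))) (P (nat_lit 0)))) (P (nat_lit 12618543294152704))))))), (T.h (T.h (P (nat_lit 0)) (T.h (T.h (P (nat_lit 17659136188694529823951814656)) (T.h (P (nat_lit 0)) (T.h (P (nat_lit 39795335775124061159424)) (T.h (P (nat_lit 0)) (M (nat_lit 99868825715032063)))))) (T.h (P (nat_lit 0)) (T.h (T.h (P (nat_lit 73861470267005309288448)) (T.h (P (nat_lit 0)) (M (nat_lit 78670430591942655)))) (T.h (P (nat_lit 0)) (P (nat_lit 598338107407433728))))))) (T.h (T.h (T.h (P (nat_lit 0)) (T.h (P (nat_lit 12728157364842137498157056)) (T.h (P (nat_lit 0)) (T.h (M (nat_lit 15539825767377534975))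 (T.h (P (nat_lit 0)) (M (nat_lit 53103933012239))))))) (T.h (P (nat_lit 0)) (T.h (T.h (P (nat_lit 0)) (T.h (M (nat_lit 303699369560303992831)) (T.h (P (nat_lit 0)) (M (nat_lit 232315348433871))))) (T.h (P (nat_lit 0)) (T.h (T.h (P (nat_lit 0)) (M (nat_lit 170370273170943))) (P (nat_lit 0))))))) (T.h (T.h (P (nat_lit 0)) (T.h (T.h (P (nat_lit 39795335775124061159424)) (T.h (P (nat_lit 0)) (P (nat_lit 10397342753980416)))) (T.h (P (nat_lit 0)) (M (nat_lit 78670430591942655))))) (T.h (T.h (T.h (P (nat_lit 0)) (T.h (M (nat_lit 15539825767377534975)) (T.h (P (nat_lit 0)) (P (nat_lit 1364867077376))))) (T.h (P (nat_lit 0)) (T.h (T.h (P (nat_lit 0)) (M (nat_lit 232315348433871))) (P (nat_lit 0))))) (T.h (T.h (P (nat_lit 0)) (M (nat_lit 99868825715032063))) (T.h (T.h (T.h (P (nat_lit 0)) (M (nat_lit 53103933012239))) (P (nat_lit 0))) (P (nat_lit 0)))))))), (T.h (T.h (P (nat_lit 0)) (T.h (T.h (P (nat_lit 0)) (T.h (M (nat_lit 59607409781330600397897727)) (T.h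 (P (nat_lit 0)) (P (nat_lit 18434105099233001472))))) (T.h (P (nat_lit 0)) (T.h (T.h (P (nat_lit 0)) (P (nat_lit 1752441552205047136256))) (P (nat_lit 0)))))) (T.h (T.h (T.h (M (nat_lit 3852606373610495334007439359)) (T.h (P (nat_lit 0)) (T.h (P (nat_lit 6837357369292922814464)) (T.h (P (nat_lit 0)) (P (nat_lit 59169193778446336)))))) (T.h (P (nat_lit 0)) (T.h (T.h (M (nat_lit 245447685447027747979263)) (T.h (P (nat_lit 0)) (M (nat_lit 110716026291683327)))) (T.h (P (nat_lit 0)) (M (nat_lit 282237081034981375)))))) (T.h (T.h (P (nat_lit 0)) (T.h (T.h (P (nat_lit 0)) (P (nat_lit 114307951635558563840))) (P (nat_lit 0)))) (T.h (T.h (T.h (P (nat_lit 22505124835361908850688)) (T.h (P (nat_lit 0)) (P (nat_lit 46638150502907904)))) (T.h (P (nat_lit 0)) (M (nat_lit 47461522852282367)))) (T.h (P (nat_lit 0)) (M (nat_lit 4950061242613759))))))), (P (nat_lit 0)), (T.h (T.h (T.h (P (nat_lit 598974688817719074557215637504)) (T.h (P (nat_lit 0)) (T.h (M (nat_lit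 993386829076405216608255)) (T.h (P (nat_lit 0)) (M (nat_lit 1923840029851910143)))))) (T.h (P (nat_lit 0)) (T.h (T.h (P (nat_lit 1822080028184422477987840)) (T.h (P (nat_lit 0)) (P (nat_lit 67986490654585782272)))) (T.h (P (nat_lit 0)) (M (nat_lit 74948138672381231103)))))) (T.h (T.h (P (nat_lit 0)) (T.h (T.h (P (nat_lit 0)) (T.h (P (nat_lit 20065442976661006974976)) (T.h (P (nat_lit 0)) (M (nat_lit 8376559263285247))))) (T.h (P (nat_lit 0)) (T.h (T.h (P (nat_lit 0)) (M (nat_lit 23175746947121151))) (P (nat_lit 0)))))) (T.h (T.h (T.h (M (nat_lit 993386829076405216608255)) (T.h (P (nat_lit 0)) (P (nat_lit 15082114753096581120)))) (T.h (P (nat_lit 0)) (P (nat_lit 67986490654585782272)))) (T.h (T.h (P (nat_lit 0)) (T.h (T.h (P (nat_lit 0)) (M (nat_lit 8376559263285247))) (P (nat_lit 0)))) (M (nat_lit 1923840029851910143)))))), (T.h (T.h (T.h (P (nat_lit 0)) (T.h (P (nat_lit 994755837398416160144228352)) (T.h (P (nat_lit 0)) (T.h (P (nat_lit 1627259457768127463424))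 (T.h (P (nat_lit 0)) (M (nat_lit 1438415993520127))))))) (T.h (P (nat_lit 0)) (T.h (T.h (P (nat_lit 0)) (T.h (P (nat_lit 62873011426048620888064)) (T.h (P (nat_lit 0)) (P (nat_lit 40138936817926144))))) (T.h (P (nat_lit 0)) (T.h (T.h (P (nat_lit 0)) (P (nat_lit 866541895063420928))) (P (nat_lit 0))))))) (T.h (T.h (P (nat_lit 0)) (T.h (T.h (P (nat_lit 20370376071632726442115072)) (T.h (P (nat_lit 0)) (T.h (M (nat_lit 52736164427403886591)) (T.h (P (nat_lit 0)) (P (nat_lit 37730281781984)))))) (T.h (P (nat_lit 0)) (T.h (T.h (M (nat_lit 74258750209269956607)) (T.h (P (nat_lit 0)) (M (nat_lit 64739948756207)))) (T.h (P (nat_lit 0)) (M (nat_lit 430642633814447))))))) (T.h (T.h (T.h (P (nat_lit 0)) (T.h (P (nat_lit 385848081155304194048)) (T.h (P (nat_lit 0)) (P (nat_lit 1901487044935680))))) (T.h (P (nat_lit 0)) (T.h (T.h (P (nat_lit 0)) (P (nat_lit 102840527015788544))) (P (nat_lit 0))))) (T.h (T.h (P (nat_lit 0)) (T.h (T.h (M (nat_lit 14468998367255986175))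 (T.h (P (nat_lit 0)) (P (nat_lit 238877194160)))) (T.h (P (nat_lit 0)) (P (nat_lit 847315013424))))) (T.h (T.h (T.h (P (nat_lit 0)) (M (nat_lit 26168110165688319))) (P (nat_lit 0))) (T.h (T.h (P (nat_lit 0)) (M (nat_lit 6662556455103))) (P (nat_lit 0))))))))]
def lP22_18 : List (T ℤ) := [(T.h (T.h (T.h (P (nat_lit 6680708591493659502204118106112)) (T.h (P (nat_lit 0)) (T.h (P (nat_lit 3152629237428887272554496)) (T.h (P (nat_lit 0)) (P (nat_lit 9809641144634572800)))))) (T.h (P (nat_lit 0)) (T.h (T.h (M (nat_lit 2149890956194024676917247)) (T.h (P (nat_lit 0)) (M (nat_lit 48278542870674145279)))) (T.h (P (nat_lit 0)) (M (nat_lit 8287550168841060351)))))) (T.h (T.h (P (nat_lit 0)) (T.h (T.h (P (nat_lit 0)) (T.h (M (nat_lit 65334891981411134210047)) (T.h (P (nat_lit 0)) (P (nat_lit 58318068894531584))))) (T.h (P (nat_lit 0)) (T.h (T.h (P (nat_lit 0)) (P (nat_lit 175092994366111744))) (P (nat_lit 0)))))) (T.h (T.h (T.h (P (nat_lit 3152629237428887272554496))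 (T.h (P (nat_lit 0)) (P (nat_lit 9895869601147781120)))) (T.h (P (nat_lit 0)) (M (nat_lit 48278542870674145279)))) (T.h (T.h (P (nat_lit 0)) (T.h (T.h (P (nat_lit 0)) (P (nat_lit 58318068894531584))) (P (nat_lit 0)))) (P (nat_lit 9809641144634572800)))))), (P (nat_lit 0)), (P (nat_lit 0)), (T.h (T.h (P (nat_lit 0)) (T.h (T.h (P (nat_lit 0)) (T.h (M (nat_lit 8685767576524368306503679)) (T.h (P (nat_lit 0)) (M (nat_lit 32111403715541336063))))) (T.h (P (nat_lit 0)) (T.h (T.h (P (nat_lit 0)) (M (nat_lit 126973145165437337599))) (P (nat_lit 0)))))) (T.h (T.h (T.h (M (nat_lit 3849283284899336926831575039)) (T.h (P (nat_lit 0)) (T.h (M (nat_lit 318127756473987497983)) (T.h (P (nat_lit 0)) (M (nat_lit 9836419181182975)))))) (T.h (P (nat_lit 0)) (T.h (T.h (M (nat_lit 7915433807328952975359)) (T.h (P (nat_lit 0)) (P (nat_lit 56882161005330432)))) (T.h (P (nat_lit 0)) (P (nat_lit 421785709203062784)))))) (T.h (T.h (P (nat_lit 0)) (T.h (T.h (P (nat_lit 0)) (M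 (nat_lit 21352153951422644223))) (P (nat_lit 0)))) (T.h (T.h (T.h (M (nat_lit 2169209033493156200447)) (T.h (P (nat_lit 0)) (M (nat_lit 5667928027332607)))) (T.h (P (nat_lit 0)) (M (nat_lit 9664805248008191)))) (T.h (P (nat_lit 0)) (P (nat_lit 411400681750528))))))), (P (nat_lit 0)), (P (nat_lit 0)), (P (nat_lit 0)), (M (nat_lit 4410501400340933843783516159999))]
def lP22_19 : List (T ℤ) := [(P (nat_lit 0)), (P (nat_lit 0)), (T.h (T.h (T.h (P (nat_lit 0)) (T.h (P (nat_lit 5536517775313953227465031680)) (T.h (P (nat_lit 0)) (T.h (M (nat_lit 39520826410458918420479)) (T.h (P (nat_lit 0)) (M (nat_lit 336560590512717823))))))) (T.h (P (nat_lit 0)) (T.h (T.h (P (nat_lit 0)) (T.h (P (nat_lit 17664319466823093321728)) (T.h (P (nat_lit 0)) (M (nat_lit 298464201601384447))))) (T.h (P (nat_lit 0)) (T.h (T.h (P (nat_lit 0)) (P (nat_lit 12246139095220224))) (P (nat_lit 0))))))) (T.h (T.h (P (nat_lit 0)) (T.h (T.h (P (nat_lit 4838277074386559868862464)) (T.h (P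 (nat_lit 0)) (T.h (M (nat_lit 41118186614139387903)) (T.h (P (nat_lit 0)) (P (nat_lit 68225235025664)))))) (T.h (P (nat_lit 0)) (T.h (T.h (M (nat_lit 26416126705784586239)) (T.h (P (nat_lit 0)) (M (nat_lit 162557263420767)))) (T.h (P (nat_lit 0)) (P (nat_lit 14078924721560))))))) (T.h (T.h (T.h (P (nat_lit 0)) (T.h (P (nat_lit 34900946057874913624064)) (T.h (P (nat_lit 0)) (M (nat_lit 188382228777992191))))) (T.h (P (nat_lit 0)) (T.h (T.h (P (nat_lit 0)) (P (nat_lit 68076245493448704))) (P (nat_lit 0))))) (T.h (T.h (P (nat_lit 0)) (T.h (T.h (M (nat_lit 9223641221782568959)) (T.h (P (nat_lit 0)) (M (nat_lit 252444885394407)))) (T.h (P (nat_lit 0)) (P (nat_lit 110655826750672))))) (T.h (T.h (T.h (P (nat_lit 0)) (P (nat_lit 49004058925662208))) (P (nat_lit 0))) (T.h (T.h (P (nat_lit 0)) (P (nat_lit 61292889872256))) (P (nat_lit 0)))))))), (T.h (T.h (T.h (P (nat_lit 23554052749273041441003961057280)) (T.h (P (nat_lit 0)) (T.h (M (nat_lit 3591785376948345362186239))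 (T.h (P (nat_lit 0)) (T.h (M (nat_lit 138932654950995460095)) (T.h (P (nat_lit 0)) (P (nat_lit 54124853331920)))))))) (T.h (P (nat_lit 0)) (T.h (T.h (M (nat_lit 1116594654860944001204223)) (T.h (P (nat_lit 0)) (T.h (P (nat_lit 113362164939430559744)) (T.h (P (nat_lit 0)) (P (nat_lit 93912456396352)))))) (T.h (P (nat_lit 0)) (T.h (T.h (M (nat_lit 2642978377501245439)) (T.h (P (nat_lit 0)) (M (nat_lit 42796093805007)))) (T.h (P (nat_lit 0)) (M (nat_lit 2424212061055)))))))) (T.h (T.h (P (nat_lit 0)) (T.h (T.h (P (nat_lit 0)) (T.h (P (nat_lit 7376399792568524603392)) (T.h (P (nat_lit 0)) (P (nat_lit 176471059806552064))))) (T.h (P (nat_lit 0)) (T.h (T.h (P (nat_lit 0)) (P (nat_lit 49912040392163328))) (P (nat_lit 0)))))) (T.h (T.h (T.h (M (nat_lit 18169799066327984273096703)) (T.h (P (nat_lit 0)) (T.h (M (nat_lit 24034483529502949375)) (T.h (P (nat_lit 0)) (P (nat_lit 467448510117440)))))) (T.h (P (nat_lit 0)) (T.h (T.h (P (nat_lit 6840648437726183424))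 (T.h (P (nat_lit 0)) (P (nat_lit 32985262238352)))) (T.h (P (nat_lit 0)) (P (nat_lit 3538756460992)))))) (T.h (T.h (P (nat_lit 0)) (T.h (T.h (P (nat_lit 0)) (M (nat_lit 77466805959032831))) (P (nat_lit 0)))) (T.h (T.h (T.h (M (nat_lit 9779192698496876543)) (T.h (P (nat_lit 0)) (M (nat_lit 40893905747535)))) (T.h (P (nat_lit 0)) (P (nat_lit 3595433268720)))) (T.h (P (nat_lit 0)) (P (nat_lit 7015901246208)))))))), (T.h (T.h (T.h (P (nat_lit 0)) (T.h (P (nat_lit 21593207691449267749075812352)) (T.h (P (nat_lit 0)) (T.h (P (nat_lit 215615569639635138117632)) (T.h (P (nat_lit 0)) (M (nat_lit 40820331771592703))))))) (T.h (P (nat_lit 0)) (T.h (T.h (P (nat_lit 0)) (T.h (M (nat_lit 57490015930355973881855)) (T.h (P (nat_lit 0)) (P (nat_lit 290864835074621440))))) (T.h (P (nat_lit 0)) (T.h (T.h (P (nat_lit 0)) (P (nat_lit 6823743286345728))) (P (nat_lit 0))))))) (T.h (T.h (P (nat_lit 0)) (T.h (T.h (P (nat_lit 6322265044331844677402624)) (T.h (P (nat_lit 0))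 (T.h (P (nat_lit 268115569555179307008)) (T.h (P (nat_lit 0)) (M (nat_lit 89742622536511)))))) (T.h (P (nat_lit 0)) (T.h (T.h (M (nat_lit 23752581499227996159)) (T.h (P (nat_lit 0)) (P (nat_lit 75175935420288)))) (T.h (P (nat_lit 0)) (M (nat_lit 10564542817535))))))) (T.h (T.h (T.h (P (nat_lit 0)) (T.h (M (nat_lit 127704811112245661532159)) (T.h (P (nat_lit 0)) (P (nat_lit 180504344546279424))))) (T.h (P (nat_lit 0)) (T.h (T.h (P (nat_lit 0)) (P (nat_lit 84535012944216064))) (P (nat_lit 0))))) (T.h (T.h (P (nat_lit 0)) (T.h (T.h (P (nat_lit 4016770770368724992)) (T.h (P (nat_lit 0)) (P (nat_lit 71530874360448)))) (T.h (P (nat_lit 0)) (M (nat_lit 42294255463359))))) (T.h (T.h (T.h (P (nat_lit 0)) (P (nat_lit 129461206011281408))) (P (nat_lit 0))) (T.h (T.h (P (nat_lit 0)) (M (nat_lit 24398022633471))) (P (nat_lit 0)))))))), (T.h (T.h (T.h (M (nat_lit 1897610530039319708766159503359)) (T.h (P (nat_lit 0)) (T.h (M (nat_lit 11050327236405624798445567))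 (T.h (P (nat_lit 0)) (T.h (M (nat_lit 83270179112102133759)) (T.h (P (nat_lit 0)) (P (nat_lit 144993577875696)))))))) (T.h (P (nat_lit 0)) (T.h (T.h (P (nat_lit 4900160410865909649899520)) (T.h (P (nat_lit 0)) (T.h (M (nat_lit 184178114273411596287)) (T.h (P (nat_lit 0)) (M (nat_lit 22887554581935)))))) (T.h (P (nat_lit 0)) (T.h (T.h (M (nat_lit 28736025228476415)) (T.h (P (nat_lit 0)) (M (nat_lit 5489871499375)))) (T.h (P (nat_lit 0)) (P (nat_lit 4563917164224)))))))) (T.h (T.h (P (nat_lit 0)) (T.h (T.h (P (nat_lit 0)) (T.h (M (nat_lit 47308519645167134703615)) (T.h (P (nat_lit 0)) (P (nat_lit 263943871069847552))))) (T.h (P (nat_lit 0)) (T.h (T.h (P (nat_lit 0)) (M (nat_lit 108885679429091327))) (P (nat_lit 0)))))) (T.h (T.h (T.h (P (nat_lit 11659533818099746213986304)) (T.h (P (nat_lit 0)) (T.h (M (nat_lit 234030967551564972031)) (T.h (P (nat_lit 0)) (P (nat_lit 22043612494992)))))) (T.h (P (nat_lit 0)) (T.h (T.h (P (nat_lit 1796875283924516864))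 (T.h (P (nat_lit 0)) (P (nat_lit 54272564669136)))) (T.h (P (nat_lit 0)) (M (nat_lit 41575545036607)))))) (T.h (T.h (P (nat_lit 0)) (T.h (T.h (P (nat_lit 0)) (M (nat_lit 4855588037394431))) (P (nat_lit 0)))) (T.h (T.h (T.h (M (nat_lit 11504214153107603455)) (T.h (P (nat_lit 0)) (P (nat_lit 142023400222880)))) (T.h (P (nat_lit 0)) (M (nat_lit 45116755367727)))) (T.h (P (nat_lit 0)) (P (nat_lit 2328296380080)))))))), (T.h (T.h (T.h (P (nat_lit 0)) (T.h (M (nat_lit 2730455200263472533804679167)) (T.h (P (nat_lit 0)) (T.h (P (nat_lit 24394744105435544944640)) (T.h (P (nat_lit 0)) (M (nat_lit 81793179171323903))))))) (T.h (P (nat_lit 0)) (T.h (T.h (P (nat_lit 0)) (T.h (P (nat_lit 30056970466909975740416)) (T.h (P (nat_lit 0)) (P (nat_lit 29098387471630336))))) (T.h (P (nat_lit 0)) (T.h (T.h (P (nat_lit 0)) (M (nat_lit 4980463948005375))) (P (nat_lit 0))))))) (T.h (T.h (P (nat_lit 0)) (T.h (T.h (P (nat_lit 10154437232380696105844736)) (T.h (P (nat_lit 0))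 (M (nat_lit 102181312474403307519)))) (T.h (P (nat_lit 0)) (P (nat_lit 11009277610239721472))))) (T.h (T.h (T.h (P (nat_lit 0)) (T.h (P (nat_lit 49339147507429380456448)) (T.h (P (nat_lit 0)) (M (nat_lit 16889743363768319))))) (T.h (P (nat_lit 0)) (T.h (T.h (P (nat_lit 0)) (M (nat_lit 20342553305972735))) (P (nat_lit 0))))) (T.h (T.h (P (nat_lit 0)) (M (nat_lit 424821116666642431))) (T.h (T.h (T.h (P (nat_lit 0)) (M (nat_lit 46682115382968319))) (P (nat_lit 0))) (P (nat_lit 0))))))), (P (nat_lit 0))]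
def lP22_20 : List (T ℤ) := [(P (nat_lit 0)), (T.h (T.h (P (nat_lit 0)) (T.h (T.h (M (nat_lit 86394741291898989137845288959)) (T.h (P (nat_lit 0)) (T.h (P (nat_lit 64179087763474688770048)) (T.h (P (nat_lit 0)) (P (nat_lit 172348565131526144)))))) (T.h (P (nat_lit 0)) (T.h (T.h (P (nat_lit 185869005889168557998080)) (T.h (P (nat_lit 0)) (P (nat_lit 393699495897628672)))) (T.h (P (nat_lit 0)) (M (nat_lit 22397046942760959))))))) (T.h (T.h (T.h (P (nat_lit 0)) (T.h (M (nat_lit 66250249002747418730561535)) (T.h (P (nat_lit 0)) (T.h (M (nat_lit 607715442782195679231)) (T.h (P (nat_lit 0)) (P (nat_lit 88901919179672))))))) (T.h (P (nat_lit 0)) (T.h (T.h (P (nat_lit 0)) (T.h (P (nat_lit 92667667655465893888)) (T.h (P (nat_lit 0)) (P (nat_lit 979698769586624))))) (T.h (P (nat_lit 0)) (T.h (T.h (P (nat_lit 0)) (M (nat_lit 48648137756583))) (P (nat_lit 0))))))) (T.h (T.h (P (nat_lit 0)) (T.h (T.h (M (nat_lit 2285398374446989836287)) (T.h (P (nat_lit 0)) (P (nat_lit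 504104890202783744)))) (T.h (P (nat_lit 0)) (P (nat_lit 29521778791677952))))) (T.h (T.h (T.h (P (nat_lit 0)) (T.h (P (nat_lit 56213929714272698368)) (T.h (P (nat_lit 0)) (P (nat_lit 587132495999520))))) (T.h (P (nat_lit 0)) (T.h (T.h (P (nat_lit 0)) (M (nat_lit 145406365404319))) (P (nat_lit 0))))) (T.h (T.h (P (nat_lit 0)) (M (nat_lit 16100912104275967))) (T.h (T.h (T.h (P (nat_lit 0)) (M (nat_lit 57593272112311))) (P (nat_lit 0))) (P (nat_lit 0)))))))), (T.h (T.h (P (nat_lit 0)) (T.h (T.h (P (nat_lit 0)) (T.h (M (nat_lit 56893329156838638189805567)) (T.h (P (nat_lit 0)) (T.h (P (nat_lit 187656404562520047616)) (T.h (P (nat_lit 0)) (P (nat_lit 54540451790880))))))) (T.h (P (nat_lit 0)) (T.h (T.h (P (nat_lit 0)) (T.h (P (nat_lit 9873005398850535424)) (T.h (P (nat_lit 0)) (M (nat_lit 23184625981519))))) (T.h (P (nat_lit 0)) (T.h (T.h (P (nat_lit 0)) (M (nat_lit 27301389521663))) (P (nat_lit 0)))))))) (T.h (T.h (T.h (P (nat_lit 15707926973580838579302563840))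 (T.h (P (nat_lit 0)) (T.h (P (nat_lit 230462501992212293746688)) (T.h (P (nat_lit 0)) (P (nat_lit 819454962603540480)))))) (T.h (P (nat_lit 0)) (T.h (T.h (M (nat_lit 23387986454769641193471)) (T.h (P (nat_lit 0)) (M (nat_lit 473527641361252351)))) (T.h (P (nat_lit 0)) (P (nat_lit 141691193762234368)))))) (T.h (T.h (P (nat_lit 0)) (T.h (T.h (P (nat_lit 0)) (T.h (M (nat_lit 68682849468171681791)) (T.h (P (nat_lit 0)) (M (nat_lit 55080966983023))))) (T.h (P (nat_lit 0)) (T.h (T.h (P (nat_lit 0)) (P (nat_lit 12300914941840))) (P (nat_lit 0)))))) (T.h (T.h (T.h (P (nat_lit 21382032223597555089408)) (T.h (P (nat_lit 0)) (M (nat_lit 485708767605440511)))) (T.h (P (nat_lit 0)) (P (nat_lit 84637835870339072)))) (T.h (T.h (P (nat_lit 0)) (T.h (T.h (P (nat_lit 0)) (M (nat_lit 9950524029199))) (P (nat_lit 0)))) (M (nat_lit 33809884209004543))))))), (T.h (T.h (P (nat_lit 0)) (T.h (T.h (P (nat_lit 27573468619294519107795288064)) (T.h (P (nat_lit 0)) (T.h (M (nat_lit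 123217807114262095593471)) (T.h (P (nat_lit 0)) (P (nat_lit 1820843924937015296)))))) (T.h (P (nat_lit 0)) (T.h (T.h (M (nat_lit 148336140461852793503743)) (T.h (P (nat_lit 0)) (M (nat_lit 436771630305247231)))) (T.h (P (nat_lit 0)) (P (nat_lit 45632158743527424))))))) (T.h (T.h (T.h (P (nat_lit 0)) (T.h (P (nat_lit 34466885455667510214918144)) (T.h (P (nat_lit 0)) (T.h (M (nat_lit 2149898102889653469183)) (T.h (P (nat_lit 0)) (M (nat_lit 560598551876287))))))) (T.h (P (nat_lit 0)) (T.h (T.h (P (nat_lit 0)) (T.h (M (nat_lit 83920714297373622271)) (T.h (P (nat_lit 0)) (M (nat_lit 404041203420735))))) (T.h (P (nat_lit 0)) (T.h (T.h (P (nat_lit 0)) (M (nat_lit 5358175711231))) (P (nat_lit 0))))))) (T.h (T.h (P (nat_lit 0)) (T.h (T.h (M (nat_lit 31046409416632053006335)) (T.h (P (nat_lit 0)) (P (nat_lit 136885449423552512)))) (T.h (P (nat_lit 0)) (M (nat_lit 5069160912617471))))) (T.h (T.h (T.h (P (nat_lit 0)) (T.h (M (nat_lit 130383032005731287039)) (T.h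 (P (nat_lit 0)) (M (nat_lit 506477718526207))))) (T.h (P (nat_lit 0)) (T.h (T.h (P (nat_lit 0)) (P (nat_lit 7847311340096))) (P (nat_lit 0))))) (T.h (T.h (P (nat_lit 0)) (M (nat_lit 137409582491303935))) (T.h (T.h (T.h (P (nat_lit 0)) (M (nat_lit 29199094884671))) (P (nat_lit 0))) (P (nat_lit 0)))))))), (T.h (T.h (P (nat_lit 0)) (T.h (T.h (P (nat_lit 0)) (T.h (P (nat_lit 73000951250190410272735232)) (T.h (P (nat_lit 0)) (T.h (P (nat_lit 171865168955112947712)) (T.h (P (nat_lit 0)) (M (nat_lit 106676676447967))))))) (T.h (P (nat_lit 0)) (T.h (T.h (P (nat_lit 0)) (T.h (P (nat_lit 16018835821503184896)) (T.h (P (nat_lit 0)) (P (nat_lit 187035232750432))))) (T.h (P (nat_lit 0)) (T.h (T.h (P (nat_lit 0)) (P (nat_lit 50098001398720))) (P (nat_lit 0)))))))) (T.h (T.h (T.h (P (nat_lit 23051141008790165780355350528)) (T.h (P (nat_lit 0)) (T.h (P (nat_lit 37170274258167498014720)) (T.h (P (nat_lit 0)) (M (nat_lit 1482711047397277695)))))) (T.h (P (nat_lit 0))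 (T.h (T.h (P (nat_lit 24908532925303422451712)) (T.h (P (nat_lit 0)) (P (nat_lit 312519832877809664)))) (T.h (P (nat_lit 0)) (P (nat_lit 73765069373112320)))))) (T.h (T.h (P (nat_lit 0)) (T.h (T.h (P (nat_lit 0)) (T.h (P (nat_lit 59724000703880888320)) (T.h (P (nat_lit 0)) (P (nat_lit 292515884447072))))) (T.h (P (nat_lit 0)) (T.h (T.h (P (nat_lit 0)) (M (nat_lit 57847326960367))) (P (nat_lit 0)))))) (T.h (T.h (T.h (M (nat_lit 60062730209987028582399)) (T.h (P (nat_lit 0)) (P (nat_lit 367237435614855168)))) (T.h (P (nat_lit 0)) (P (nat_lit 62907179918098432)))) (T.h (T.h (P (nat_lit 0)) (T.h (T.h (P (nat_lit 0)) (P (nat_lit 90782218487136))) (P (nat_lit 0)))) (P (nat_lit 95348375668375552))))))), (T.h (T.h (P (nat_lit 0)) (T.h (T.h (M (nat_lit 7701889658509832260839014399)) (T.h (P (nat_lit 0)) (T.h (M (nat_lit 253363119254356700954623)) (T.h (P (nat_lit 0)) (P (nat_lit 139548628168081408)))))) (T.h (P (nat_lit 0)) (T.h (T.h (P (nat_lit 20335915801868752650240))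 (T.h (P (nat_lit 0)) (M (nat_lit 57126328100290559)))) (T.h (P (nat_lit 0)) (M (nat_lit 4538660560863231))))))) (T.h (T.h (T.h (P (nat_lit 0)) (T.h (M (nat_lit 68293177357854968704401407)) (T.h (P (nat_lit 0)) (P (nat_lit 1625468407039609798656))))) (T.h (P (nat_lit 0)) (T.h (T.h (P (nat_lit 0)) (P (nat_lit 92955797684135919616))) (P (nat_lit 0))))) (T.h (T.h (P (nat_lit 0)) (T.h (T.h (P (nat_lit 6519229612818935316480)) (T.h (P (nat_lit 0)) (M (nat_lit 53833865286352895)))) (T.h (P (nat_lit 0)) (P (nat_lit 40970222475575296))))) (T.h (T.h (T.h (P (nat_lit 0)) (M (nat_lit 13677298616308334591))) (P (nat_lit 0))) (T.h (T.h (P (nat_lit 0)) (P (nat_lit 49332774597263360))) (P (nat_lit 0))))))), (P (nat_lit 0)), (P (nat_lit 0))]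
def lP22_21 : List (T ℤ) := [(T.h (T.h (T.h (P (nat_lit 0)) (T.h (P (nat_lit 44043784279207796534442721280)) (T.h (P (nat_lit 0)) (T.h (P (nat_lit 253142148029226709680128)) (T.h (P (nat_lit 0)) (P (nat_lit 62156344611700736))))))) (T.h (P (nat_lit 0)) (T.h (T.h (P (nat_lit 0)) (T.h (P (nat_lit 37034566795540832452608)) (T.h (P (nat_lit 0)) (P (nat_lit 361247566721351680))))) (T.h (P (nat_lit 0)) (T.h (T.h (P (nat_lit 0)) (P (nat_lit 104435568755769344))) (P (nat_lit 0))))))) (T.h (T.h (P (nat_lit 0)) (T.h (T.h (P (nat_lit 60883256690989353754689536)) (T.h (P (nat_lit 0)) (T.h (P (nat_lit 195431889491831291904)) (T.h (P (nat_lit 0)) (P (nat_lit 323372860184928)))))) (T.h (P (nat_lit 0)) (T.h (T.h (M (nat_lit 42063747234597437439)) (T.h (P (nat_lit 0)) (P (nat_lit 163138853477600)))) (T.h (P (nat_lit 0)) (M (nat_lit 1677232300423))))))) (T.h (T.h (T.h (P (nat_lit 0)) (T.h (P (nat_lit 46838045802751248564224)) (T.h (P (nat_lit 0)) (M (nat_lit 446840307743752191)))))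 (T.h (P (nat_lit 0)) (T.h (T.h (P (nat_lit 0)) (M (nat_lit 188076409481560063))) (P (nat_lit 0))))) (T.h (T.h (P (nat_lit 0)) (T.h (T.h (M (nat_lit 43666829013879357439)) (T.h (P (nat_lit 0)) (M (nat_lit 303064938009303)))) (T.h (P (nat_lit 0)) (P (nat_lit 100633830132304))))) (T.h (T.h (T.h (P (nat_lit 0)) (M (nat_lit 75287729253220351))) (P (nat_lit 0))) (T.h (T.h (P (nat_lit 0)) (M (nat_lit 76044014823727))) (P (nat_lit 0)))))))), (T.h (T.h (T.h (P (nat_lit 35763778438839474111552782598144)) (T.h (P (nat_lit 0)) (T.h (P (nat_lit 8198616929308593589583872)) (T.h (P (nat_lit 0)) (T.h (M (nat_lit 134717203391828721663)) (T.h (P (nat_lit 0)) (P (nat_lit 47152487959216)))))))) (T.h (P (nat_lit 0)) (T.h (T.h (P (nat_lit 45855112878953748190199808)) (T.h (P (nat_lit 0)) (T.h (P (nat_lit 215847434356724334592)) (T.h (P (nat_lit 0)) (P (nat_lit 380097074482736)))))) (T.h (P (nat_lit 0)) (T.h (T.h (M (nat_lit 64739422656691961855)) (T.h (P (nat_lit 0)) (M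 (nat_lit 180962749714879)))) (T.h (P (nat_lit 0)) (P (nat_lit 42385473734928)))))))) (T.h (T.h (P (nat_lit 0)) (T.h (T.h (P (nat_lit 0)) (T.h (M (nat_lit 147716331585670091898879)) (T.h (P (nat_lit 0)) (M (nat_lit 16079452893478911))))) (T.h (P (nat_lit 0)) (T.h (T.h (P (nat_lit 0)) (M (nat_lit 333823299870392319))) (P (nat_lit 0)))))) (T.h (T.h (T.h (P (nat_lit 62908317290420788462092288)) (T.h (P (nat_lit 0)) (T.h (P (nat_lit 353244082825657843712)) (T.h (P (nat_lit 0)) (P (nat_lit 6561020761648)))))) (T.h (P (nat_lit 0)) (T.h (T.h (P (nat_lit 70650706991859630080)) (T.h (P (nat_lit 0)) (P (nat_lit 156438964797936)))) (T.h (P (nat_lit 0)) (P (nat_lit 15312055836880)))))) (T.h (T.h (P (nat_lit 0)) (T.h (T.h (P (nat_lit 0)) (M (nat_lit 206444453519196159))) (P (nat_lit 0)))) (T.h (T.h (T.h (M (nat_lit 57603208335696330751)) (T.h (P (nat_lit 0)) (M (nat_lit 182864937772351)))) (T.h (P (nat_lit 0)) (P (nat_lit 15255379029152)))) (T.h (P (nat_lit 0)) (P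 (nat_lit 32945360427664)))))))), (T.h (T.h (T.h (P (nat_lit 0)) (T.h (M (nat_lit 21475815305388814924186124287)) (T.h (P (nat_lit 0)) (T.h (M (nat_lit 403340895958938008158207)) (T.h (P (nat_lit 0)) (P (nat_lit 288587955582861312))))))) (T.h (P (nat_lit 0)) (T.h (T.h (P (nat_lit 0)) (T.h (M (nat_lit 290119102082331707441151)) (T.h (P (nat_lit 0)) (P (nat_lit 796641548586090496))))) (T.h (P (nat_lit 0)) (T.h (T.h (P (nat_lit 0)) (P (nat_lit 117816140800720896))) (P (nat_lit 0))))))) (T.h (T.h (P (nat_lit 0)) (T.h (T.h (P (nat_lit 2180457922692902528483328)) (T.h (P (nat_lit 0)) (T.h (M (nat_lit 687447118557137076223)) (T.h (P (nat_lit 0)) (M (nat_lit 616520728501823)))))) (T.h (P (nat_lit 0)) (T.h (T.h (P (nat_lit 51898114833580556288)) (T.h (P (nat_lit 0)) (P (nat_lit 344876861264960)))) (T.h (P (nat_lit 0)) (P (nat_lit 5341289507200))))))) (T.h (T.h (T.h (P (nat_lit 0)) (T.h (M (nat_lit 334922431163377383374847)) (T.h (P (nat_lit 0)) (P (nat_lit 345080001020461056)))))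 (T.h (P (nat_lit 0)) (T.h (T.h (P (nat_lit 0)) (P (nat_lit 675793229276348416))) (P (nat_lit 0))))) (T.h (T.h (P (nat_lit 0)) (T.h (T.h (P (nat_lit 4838559620425318400)) (T.h (P (nat_lit 0)) (P (nat_lit 348521922324800)))) (T.h (P (nat_lit 0)) (M (nat_lit 195956809373759))))) (T.h (T.h (T.h (P (nat_lit 0)) (M (nat_lit 343375147726274559))) (P (nat_lit 0))) (T.h (T.h (P (nat_lit 0)) (P (nat_lit 19174769323136))) (P (nat_lit 0)))))))), (T.h (T.h (T.h (P (nat_lit 10877977710155974109859130900480)) (T.h (P (nat_lit 0)) (T.h (P (nat_lit 348488690592711051371872256)) (T.h (P (nat_lit 0)) (T.h (M (nat_lit 281544365791718146047)) (T.h (P (nat_lit 0)) (P (nat_lit 459920579849456)))))))) (T.h (P (nat_lit 0)) (T.h (T.h (M (nat_lit 61470405535673140513865727)) (T.h (P (nat_lit 0)) (T.h (M (nat_lit 795348076552467251199)) (T.h (P (nat_lit 0)) (P (nat_lit 138393168762288)))))) (T.h (P (nat_lit 0)) (T.h (T.h (M (nat_lit 50862680575049727)) (T.h (P (nat_lit 0)) (M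 (nat_lit 23690217743455)))) (T.h (P (nat_lit 0)) (M (nat_lit 46802093501151)))))))) (T.h (T.h (P (nat_lit 0)) (T.h (T.h (P (nat_lit 0)) (T.h (P (nat_lit 340517685100624094429184)) (T.h (P (nat_lit 0)) (P (nat_lit 704798644617248768))))) (T.h (P (nat_lit 0)) (T.h (T.h (P (nat_lit 0)) (M (nat_lit 417141615237103615))) (P (nat_lit 0)))))) (T.h (T.h (T.h (M (nat_lit 68229778942906977077952511)) (T.h (P (nat_lit 0)) (T.h (M (nat_lit 745495223274313875455)) (T.h (P (nat_lit 0)) (P (nat_lit 93462001685360)))))) (T.h (P (nat_lit 0)) (T.h (T.h (P (nat_lit 149211963080098971648)) (T.h (P (nat_lit 0)) (P (nat_lit 1655875951737040)))) (T.h (P (nat_lit 0)) (P (nat_lit 63046380271776)))))) (T.h (T.h (P (nat_lit 0)) (T.h (T.h (P (nat_lit 0)) (M (nat_lit 521171706628800511))) (P (nat_lit 0)))) (T.h (T.h (T.h (P (nat_lit 11424615447304077312)) (T.h (P (nat_lit 0)) (M (nat_lit 171203489465711)))) (T.h (P (nat_lit 0)) (P (nat_lit 66587590602896)))) (T.h (P (nat_lit 0))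 (M (nat_lit 44566472717007)))))))), (T.h (T.h (T.h (P (nat_lit 0)) (T.h (M (nat_lit 26209441321129543010852274175)) (T.h (P (nat_lit 0)) (T.h (M (nat_lit 49438412129668532535295)) (T.h (P (nat_lit 0)) (M (nat_lit 554228412046475263))))))) (T.h (P (nat_lit 0)) (T.h (T.h (P (nat_lit 0)) (T.h (P (nat_lit 341031198450498016378880)) (T.h (P (nat_lit 0)) (M (nat_lit 274047386810875903))))) (T.h (P (nat_lit 0)) (T.h (T.h (P (nat_lit 0)) (M (nat_lit 47692615347077119))) (P (nat_lit 0))))))) (T.h (T.h (P (nat_lit 0)) (T.h (T.h (M (nat_lit 91888388661317631653969919)) (T.h (P (nat_lit 0)) (P (nat_lit 223978408355584540672)))) (T.h (P (nat_lit 0)) (P (nat_lit 28717635963342290944))))) (T.h (T.h (T.h (P (nat_lit 0)) (T.h (P (nat_lit 321749021409978611662848)) (T.h (P (nat_lit 0)) (M (nat_lit 228059255975477247))))) (T.h (P (nat_lit 0)) (T.h (T.h (P (nat_lit 0)) (M (nat_lit 551833843922272255))) (P (nat_lit 0))))) (T.h (T.h (P (nat_lit 0)) (P (nat_lit 40151734690248654848)))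 (T.h (T.h (T.h (P (nat_lit 0)) (M (nat_lit 5990963912114175))) (P (nat_lit 0))) (P (nat_lit 0))))))), (P (nat_lit 0)), (P (nat_lit 0)), (T.h (T.h (P (nat_lit 0)) (T.h (T.h (M (nat_lit 22104091901107504304376250367)) (T.h (P (nat_lit 0)) (T.h (P (nat_lit 265432002081934186381312)) (T.h (P (nat_lit 0)) (M (nat_lit 108164584080244735)))))) (T.h (P (nat_lit 0)) (T.h (T.h (M (nat_lit 101575603554824172339199)) (T.h (P (nat_lit 0)) (P (nat_lit 692769815332487168)))) (T.h (P (nat_lit 0)) (P (nat_lit 166862766999830528))))))) (T.h (T.h (T.h (P (nat_lit 0)) (T.h (M (nat_lit 34254519714937530390413311)) (T.h (P (nat_lit 0)) (T.h (P (nat_lit 221365810823784562688)) (T.h (P (nat_lit 0)) (P (nat_lit 119255286284848))))))) (T.h (P (nat_lit 0)) (T.h (T.h (P (nat_lit 0)) (T.h (M (nat_lit 415238262945889648639)) (T.h (P (nat_lit 0)) (P (nat_lit 1811791968199640))))) (T.h (P (nat_lit 0)) (T.h (T.h (P (nat_lit 0)) (M (nat_lit 322669152633231))) (P (nat_lit 0))))))) (T.h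 (T.h (P (nat_lit 0)) (T.h (T.h (M (nat_lit 124784113349167094431743)) (T.h (P (nat_lit 0)) (M (nat_lit 956220861495934975)))) (T.h (P (nat_lit 0)) (M (nat_lit 310718183101726719))))) (T.h (T.h (T.h (P (nat_lit 0)) (T.h (P (nat_lit 38720956170330177536)) (T.h (P (nat_lit 0)) (P (nat_lit 217997659630480))))) (T.h (P (nat_lit 0)) (T.h (T.h (P (nat_lit 0)) (M (nat_lit 454489044396063))) (P (nat_lit 0))))) (T.h (T.h (P (nat_lit 0)) (M (nat_lit 28025252770054143))) (T.h (T.h (T.h (P (nat_lit 0)) (P (nat_lit 212987210345448))) (P (nat_lit 0))) (P (nat_lit 0))))))))]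
def lP22_22 : List (T ℤ) := [(T.h (T.h (P (nat_lit 0)) (T.h (T.h (P (nat_lit 0)) (T.h (P (nat_lit 68488995703743986117115904)) (T.h (P (nat_lit 0)) (T.h (M (nat_lit 1263088078980512743423)) (T.h (P (nat_lit 0)) (M (nat_lit 210926831149967))))))) (T.h (P (nat_lit 0)) (T.h (T.h (P (nat_lit 0)) (T.h (M (nat_lit 421980741775222898687)) (T.h (P (nat_lit 0)) (P (nat_lit 465867464498256))))) (T.h (P (nat_lit 0)) (T.h (T.h (P (nat_lit 0)) (M (nat_lit 237472748892783))) (P (nat_lit 0)))))))) (T.h (T.h (T.h (P (nat_lit 43608930294439283764622262272)) (T.h (P (nat_lit 0)) (T.h (P (nat_lit 117187682172017768923136)) (T.h (P (nat_lit 0)) (P (nat_lit 253153717661990912)))))) (T.h (P (nat_lit 0)) (T.h (T.h (P (nat_lit 164091087614450394464256)) (T.h (P (nat_lit 0)) (M (nat_lit 1844812118227271679)))) (T.h (P (nat_lit 0)) (P (nat_lit 222728218553090048)))))) (T.h (T.h (P (nat_lit 0)) (T.h (T.h (P (nat_lit 0)) (T.h (M (nat_lit 737849732724688945151)) (T.h (P (nat_lit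 0)) (P (nat_lit 242180685200))))) (T.h (P (nat_lit 0)) (T.h (T.h (P (nat_lit 0)) (P (nat_lit 157340725023440))) (P (nat_lit 0)))))) (T.h (T.h (T.h (M (nat_lit 100120019111155228213247)) (T.h (P (nat_lit 0)) (P (nat_lit 130422747513307136)))) (T.h (P (nat_lit 0)) (P (nat_lit 214091041081786368)))) (T.h (T.h (P (nat_lit 0)) (T.h (T.h (P (nat_lit 0)) (P (nat_lit 388386241675200))) (P (nat_lit 0)))) (P (nat_lit 64711752328642560))))))), (T.h (T.h (P (nat_lit 0)) (T.h (T.h (M (nat_lit 124477985577735391278752858111)) (T.h (P (nat_lit 0)) (T.h (M (nat_lit 1388976807923062988079103)) (T.h (P (nat_lit 0)) (P (nat_lit 1734122613999009792)))))) (T.h (P (nat_lit 0)) (T.h (T.h (P (nat_lit 59189811737287431553024)) (T.h (P (nat_lit 0)) (M (nat_lit 700169144483577855)))) (T.h (P (nat_lit 0)) (M (nat_lit 270573737504702463))))))) (T.h (T.h (T.h (P (nat_lit 0)) (T.h (M (nat_lit 106522973782614029300137983)) (T.h (P (nat_lit 0)) (T.h (M (nat_lit 1085227718858225221631))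 (T.h (P (nat_lit 0)) (M (nat_lit 277312470248895))))))) (T.h (P (nat_lit 0)) (T.h (T.h (P (nat_lit 0)) (T.h (P (nat_lit 297710025940637057024)) (T.h (P (nat_lit 0)) (M (nat_lit 1390030806112639))))) (T.h (P (nat_lit 0)) (T.h (T.h (P (nat_lit 0)) (P (nat_lit 311702795977728))) (P (nat_lit 0))))))) (T.h (T.h (P (nat_lit 0)) (T.h (T.h (P (nat_lit 419296220032527832711168)) (T.h (P (nat_lit 0)) (P (nat_lit 1657989522486427648)))) (T.h (P (nat_lit 0)) (P (nat_lit 134802808153112576))))) (T.h (T.h (T.h (P (nat_lit 0)) (T.h (P (nat_lit 826922131149048250368)) (T.h (P (nat_lit 0)) (P (nat_lit 342744375083456))))) (T.h (P (nat_lit 0)) (T.h (T.h (P (nat_lit 0)) (M (nat_lit 354448495594623))) (P (nat_lit 0))))) (T.h (T.h (P (nat_lit 0)) (M (nat_lit 33893754375471103))) (T.h (T.h (T.h (P (nat_lit 0)) (M (nat_lit 132154973296255))) (P (nat_lit 0))) (P (nat_lit 0)))))))), (T.h (T.h (P (nat_lit 0)) (T.h (T.h (P (nat_lit 0)) (T.h (M (nat_lit 225476304066940349997645823))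 (T.h (P (nat_lit 0)) (T.h (M (nat_lit 236780059099068891135)) (T.h (P (nat_lit 0)) (P (nat_lit 144708727166960))))))) (T.h (P (nat_lit 0)) (T.h (T.h (P (nat_lit 0)) (T.h (P (nat_lit 554670739826271059968)) (T.h (P (nat_lit 0)) (M (nat_lit 245292104547071))))) (T.h (P (nat_lit 0)) (T.h (T.h (P (nat_lit 0)) (M (nat_lit 223939804868031))) (P (nat_lit 0)))))))) (T.h (T.h (T.h (P (nat_lit 30911329824371918256220405760)) (T.h (P (nat_lit 0)) (T.h (M (nat_lit 271138119989090173583359)) (T.h (P (nat_lit 0)) (P (nat_lit 346646336941424640)))))) (T.h (P (nat_lit 0)) (T.h (T.h (M (nat_lit 57177540964645888589823)) (T.h (P (nat_lit 0)) (M (nat_lit 53081248036339711)))) (T.h (P (nat_lit 0)) (M (nat_lit 89760417283244031)))))) (T.h (T.h (P (nat_lit 0)) (T.h (T.h (P (nat_lit 0)) (T.h (P (nat_lit 608582383515736211456)) (T.h (P (nat_lit 0)) (M (nat_lit 370753656199167))))) (T.h (P (nat_lit 0)) (T.h (T.h (P (nat_lit 0)) (P (nat_lit 141508223711712))) (P (nat_lit 0))))))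 (T.h (T.h (T.h (P (nat_lit 135305056654935805919232)) (T.h (P (nat_lit 0)) (M (nat_lit 640962173614653439)))) (T.h (P (nat_lit 0)) (P (nat_lit 266952139872157696)))) (T.h (T.h (P (nat_lit 0)) (T.h (T.h (P (nat_lit 0)) (M (nat_lit 889444151852255))) (P (nat_lit 0)))) (M (nat_lit 117758441303965695))))))), (T.h (T.h (P (nat_lit 0)) (T.h (T.h (P (nat_lit 143248602005615764954310246400)) (T.h (P (nat_lit 0)) (T.h (P (nat_lit 831504563151167433998336)) (T.h (P (nat_lit 0)) (M (nat_lit 536696647482572799)))))) (T.h (P (nat_lit 0)) (T.h (T.h (M (nat_lit 37275923750201581371391)) (T.h (P (nat_lit 0)) (P (nat_lit 87289895111000064)))) (T.h (P (nat_lit 0)) (P (nat_lit 61768686202978304))))))) (T.h (T.h (T.h (P (nat_lit 0)) (T.h (P (nat_lit 140298656222780133453332480)) (T.h (P (nat_lit 0)) (P (nat_lit 160702012152763908096))))) (T.h (P (nat_lit 0)) (T.h (T.h (P (nat_lit 0)) (P (nat_lit 331040896155440381952))) (P (nat_lit 0))))) (T.h (T.h (P (nat_lit 0)) (T.h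 (T.h (M (nat_lit 281221776321966440972287)) (T.h (P (nat_lit 0)) (M (nat_lit 482443184742957055)))) (T.h (P (nat_lit 0)) (M (nat_lit 59304357145706495))))) (T.h (T.h (T.h (P (nat_lit 0)) (P (nat_lit 305348348258564440064))) (P (nat_lit 0))) (T.h (T.h (P (nat_lit 0)) (P (nat_lit 37610701693222912))) (P (nat_lit 0))))))), (P (nat_lit 0)), (P (nat_lit 0)), (T.h (T.h (T.h (P (nat_lit 0)) (T.h (M (nat_lit 2701803597464350379122622463)) (T.h (P (nat_lit 0)) (T.h (P (nat_lit 42408897784464348807168)) (T.h (P (nat_lit 0)) (P (nat_lit 67411441131356160))))))) (T.h (P (nat_lit 0)) (T.h (T.h (P (nat_lit 0)) (T.h (P (nat_lit 130791519240976360013824)) (T.h (P (nat_lit 0)) (P (nat_lit 32593169109319680))))) (T.h (P (nat_lit 0)) (T.h (T.h (P (nat_lit 0)) (P (nat_lit 367126490482573312))) (P (nat_lit 0))))))) (T.h (T.h (P (nat_lit 0)) (T.h (T.h (M (nat_lit 135375362320327097479856127)) (T.h (P (nat_lit 0)) (T.h (M (nat_lit 123741823817952002047)) (T.h (P (nat_lit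 0)) (M (nat_lit 297684511264999)))))) (T.h (P (nat_lit 0)) (T.h (T.h (M (nat_lit 155606382169957597183)) (T.h (P (nat_lit 0)) (P (nat_lit 746115527544112)))) (T.h (P (nat_lit 0)) (P (nat_lit 209652406465312))))))) (T.h (T.h (T.h (P (nat_lit 0)) (T.h (M (nat_lit 87112788446216649179135)) (T.h (P (nat_lit 0)) (P (nat_lit 89162228750811136))))) (T.h (P (nat_lit 0)) (T.h (T.h (P (nat_lit 0)) (M (nat_lit 204153046309240831))) (P (nat_lit 0))))) (T.h (T.h (P (nat_lit 0)) (T.h (T.h (P (nat_lit 73970947616961200128)) (T.h (P (nat_lit 0)) (P (nat_lit 229864588273376)))) (T.h (P (nat_lit 0)) (P (nat_lit 250958008136960))))) (T.h (T.h (T.h (P (nat_lit 0)) (M (nat_lit 20265644861390847))) (P (nat_lit 0))) (T.h (T.h (P (nat_lit 0)) (P (nat_lit 65624005949104))) (P (nat_lit 0)))))))), (T.h (T.h (T.h (P (nat_lit 43208653158815113777419300896768)) (T.h (P (nat_lit 0)) (T.h (P (nat_lit 72576428199824804957650944)) (T.h (P (nat_lit 0)) (T.h (P (nat_lit 18074038190473216000))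 (T.h (P (nat_lit 0)) (P (nat_lit 8996294111232)))))))) (T.h (P (nat_lit 0)) (T.h (T.h (M (nat_lit 4719205070773021623451647)) (T.h (P (nat_lit 0)) (T.h (P (nat_lit 349703550122757980160)) (T.h (P (nat_lit 0)) (M (nat_lit 327497488157023)))))) (T.h (P (nat_lit 0)) (T.h (T.h (M (nat_lit 13314922712594907135)) (T.h (P (nat_lit 0)) (M (nat_lit 231229981354351)))) (T.h (P (nat_lit 0)) (M (nat_lit 42414864655807)))))))) (T.h (T.h (P (nat_lit 0)) (T.h (T.h (P (nat_lit 0)) (T.h (P (nat_lit 286759272025000683503616)) (T.h (P (nat_lit 0)) (M (nat_lit 46517125578522623))))) (T.h (P (nat_lit 0)) (T.h (T.h (P (nat_lit 0)) (P (nat_lit 30305883593474048))) (P (nat_lit 0)))))) (T.h (T.h (T.h (P (nat_lit 67259404014983158622584832)) (T.h (P (nat_lit 0)) (T.h (P (nat_lit 117552525714856607744)) (T.h (P (nat_lit 0)) (P (nat_lit 22641495733792)))))) (T.h (P (nat_lit 0)) (T.h (T.h (P (nat_lit 293885440176372580352)) (T.h (P (nat_lit 0)) (P (nat_lit 1072805312553536))))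 (T.h (P (nat_lit 0)) (M (nat_lit 44080486814863)))))) (T.h (T.h (P (nat_lit 0)) (T.h (T.h (P (nat_lit 0)) (M (nat_lit 463859412333428735))) (P (nat_lit 0)))) (T.h (T.h (T.h (M (nat_lit 69697321268815069183)) (T.h (P (nat_lit 0)) (P (nat_lit 26340637608960)))) (T.h (P (nat_lit 0)) (M (nat_lit 136648851742367)))) (T.h (P (nat_lit 0)) (P (nat_lit 42191720135392))))))))]
def lP22_23 : List (T ℤ) := [(T.h (T.h (T.h (P (nat_lit 0)) (T.h (M (nat_lit 179129466089127010116653023231)) (T.h (P (nat_lit 0)) (T.h (P (nat_lit 214622762663695834152960)) (T.h (P (nat_lit 0)) (M (nat_lit 1087246410095067135))))))) (T.h (P (nat_lit 0)) (T.h (T.h (P (nat_lit 0)) (T.h (M (nat_lit 75495560259066698661887)) (T.h (P (nat_lit 0)) (M (nat_lit 3427589559710580735))))) (T.h (P (nat_lit 0)) (T.h (T.h (P (nat_lit 0)) (P (nat_lit 990591122640437248))) (P (nat_lit 0))))))) (T.h (T.h (P (nat_lit 0)) (T.h (T.h (P (nat_lit 166380298136373605257183232)) (T.h (P (nat_lit 0)) (T.h (P (nat_lit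 1638052505897047949312)) (T.h (P (nat_lit 0)) (P (nat_lit 712602456166080)))))) (T.h (P (nat_lit 0)) (T.h (T.h (M (nat_lit 211747638831982051327)) (T.h (P (nat_lit 0)) (M (nat_lit 2047302296035583)))) (T.h (P (nat_lit 0)) (M (nat_lit 262375974971583))))))) (T.h (T.h (T.h (P (nat_lit 0)) (T.h (P (nat_lit 490425074098850205007872)) (T.h (P (nat_lit 0)) (M (nat_lit 774191190274736127))))) (T.h (P (nat_lit 0)) (T.h (T.h (P (nat_lit 0)) (P (nat_lit 2923461180412002304))) (P (nat_lit 0))))) (T.h (T.h (P (nat_lit 0)) (T.h (T.h (P (nat_lit 606827558921878634496)) (T.h (P (nat_lit 0)) (M (nat_lit 187919257376127)))) (T.h (P (nat_lit 0)) (P (nat_lit 713386573200768))))) (T.h (T.h (T.h (P (nat_lit 0)) (M (nat_lit 318881228964265983))) (P (nat_lit 0))) (T.h (T.h (P (nat_lit 0)) (M (nat_lit 110394651994687))) (P (nat_lit 0)))))))), (T.h (T.h (T.h (P (nat_lit 29133889140904033940829913481216)) (T.h (P (nat_lit 0)) (T.h (M (nat_lit 69578769534689795039559679)) (T.h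 (P (nat_lit 0)) (T.h (P (nat_lit 598845763806870634496)) (T.h (P (nat_lit 0)) (M (nat_lit 565101010931423)))))))) (T.h (P (nat_lit 0)) (T.h (T.h (M (nat_lit 78259562126569195421302783)) (T.h (P (nat_lit 0)) (T.h (P (nat_lit 1222433144295145865216)) (T.h (P (nat_lit 0)) (M (nat_lit 656354816351871)))))) (T.h (P (nat_lit 0)) (T.h (T.h (P (nat_lit 184012764304375808000)) (T.h (P (nat_lit 0)) (P (nat_lit 1119727182666224)))) (T.h (P (nat_lit 0)) (M (nat_lit 166012573297471)))))))) (T.h (T.h (P (nat_lit 0)) (T.h (T.h (P (nat_lit 0)) (T.h (M (nat_lit 1555406208796902731808767)) (T.h (P (nat_lit 0)) (M (nat_lit 573179026936856575))))) (T.h (P (nat_lit 0)) (T.h (T.h (P (nat_lit 0)) (P (nat_lit 1311042492508045312))) (P (nat_lit 0)))))) (T.h (T.h (T.h (P (nat_lit 31369799751954130356142080)) (T.h (P (nat_lit 0)) (T.h (P (nat_lit 280128650407288242176)) (T.h (P (nat_lit 0)) (M (nat_lit 358552290717807)))))) (T.h (P (nat_lit 0)) (T.h (T.h (M (nat_lit 160797060183757946879))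 (T.h (P (nat_lit 0)) (M (nat_lit 3579213217635615)))) (T.h (P (nat_lit 0)) (P (nat_lit 164939948929712)))))) (T.h (T.h (P (nat_lit 0)) (T.h (T.h (P (nat_lit 0)) (P (nat_lit 4548714069999091712))) (P (nat_lit 0)))) (T.h (T.h (T.h (P (nat_lit 94474055083723063296)) (T.h (P (nat_lit 0)) (P (nat_lit 808827678891936)))) (T.h (P (nat_lit 0)) (P (nat_lit 809824381242272)))) (T.h (P (nat_lit 0)) (P (nat_lit 10963431041552)))))))), (T.h (T.h (T.h (P (nat_lit 0)) (T.h (P (nat_lit 81723471967295498092208455680)) (T.h (P (nat_lit 0)) (T.h (M (nat_lit 48306181907224534712319)) (T.h (P (nat_lit 0)) (P (nat_lit 580415398995525632))))))) (T.h (P (nat_lit 0)) (T.h (T.h (P (nat_lit 0)) (T.h (M (nat_lit 262320612458681044303871)) (T.h (P (nat_lit 0)) (P (nat_lit 653852938299801600))))) (T.h (P (nat_lit 0)) (T.h (T.h (P (nat_lit 0)) (M (nat_lit 218921978668482559))) (P (nat_lit 0))))))) (T.h (T.h (P (nat_lit 0)) (T.h (T.h (P (nat_lit 41701646712498679734861824)) (T.h (P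 (nat_lit 0)) (P (nat_lit 8404216807191216128)))) (T.h (P (nat_lit 0)) (M (nat_lit 171387007687188283391))))) (T.h (T.h (T.h (P (nat_lit 0)) (T.h (M (nat_lit 394903523492071357808639)) (T.h (P (nat_lit 0)) (P (nat_lit 406538586978025472))))) (T.h (P (nat_lit 0)) (T.h (T.h (P (nat_lit 0)) (P (nat_lit 1603294888650309632))) (P (nat_lit 0))))) (T.h (T.h (P (nat_lit 0)) (M (nat_lit 551540981728408502271))) (T.h (T.h (T.h (P (nat_lit 0)) (P (nat_lit 23939575716872192))) (P (nat_lit 0))) (P (nat_lit 0))))))), (P (nat_lit 0)), (P (nat_lit 0)), (T.h (T.h (P (nat_lit 0)) (T.h (T.h (M (nat_lit 4107540118454744305406836735)) (T.h (P (nat_lit 0)) (T.h (P (nat_lit 76411334190873446449152)) (T.h (P (nat_lit 0)) (P (nat_lit 29781366118481920)))))) (T.h (P (nat_lit 0)) (T.h (T.h (P (nat_lit 275914748194599651508224)) (T.h (P (nat_lit 0)) (M (nat_lit 348959943407828991)))) (T.h (P (nat_lit 0)) (M (nat_lit 64397609604481023))))))) (T.h (T.h (T.h (P (nat_lit 0)) (T.h (P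 (nat_lit 12286498579513349251268608)) (T.h (P (nat_lit 0)) (T.h (M (nat_lit 28241392984444108799)) (T.h (P (nat_lit 0)) (P (nat_lit 13193311699512))))))) (T.h (P (nat_lit 0)) (T.h (T.h (P (nat_lit 0)) (T.h (M (nat_lit 463049382409797631)) (T.h (P (nat_lit 0)) (M (nat_lit 384829520269191))))) (T.h (P (nat_lit 0)) (T.h (T.h (P (nat_lit 0)) (P (nat_lit 492984818946880))) (P (nat_lit 0))))))) (T.h (T.h (P (nat_lit 0)) (T.h (T.h (P (nat_lit 76411334190873446449152)) (T.h (P (nat_lit 0)) (P (nat_lit 14288014881521664)))) (T.h (P (nat_lit 0)) (M (nat_lit 348959943407828991))))) (T.h (T.h (T.h (P (nat_lit 0)) (T.h (M (nat_lit 28241392984444108799)) (T.h (P (nat_lit 0)) (P (nat_lit 84935504053088))))) (T.h (P (nat_lit 0)) (T.h (T.h (P (nat_lit 0)) (M (nat_lit 384829520269191))) (P (nat_lit 0))))) (T.h (T.h (P (nat_lit 0)) (P (nat_lit 29781366118481920))) (T.h (T.h (T.h (P (nat_lit 0)) (P (nat_lit 13193311699512))) (P (nat_lit 0))) (P (nat_lit 0)))))))), (T.h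 (T.h (P (nat_lit 0)) (T.h (T.h (P (nat_lit 0)) (T.h (P (nat_lit 17379666816507119761620992)) (T.h (P (nat_lit 0)) (T.h (P (nat_lit 11789433114952990720)) (T.h (P (nat_lit 0)) (M (nat_lit 55568670508703))))))) (T.h (P (nat_lit 0)) (T.h (T.h (P (nat_lit 0)) (T.h (M (nat_lit 780718172717187071999)) (T.h (P (nat_lit 0)) (P (nat_lit 353039296888688))))) (T.h (P (nat_lit 0)) (T.h (T.h (P (nat_lit 0)) (M (nat_lit 66454312782383))) (P (nat_lit 0)))))))) (T.h (T.h (T.h (P (nat_lit 15380115727653131485035102208)) (T.h (P (nat_lit 0)) (T.h (M (nat_lit 11973165008297945726975)) (T.h (P (nat_lit 0)) (P (nat_lit 146359645562765312)))))) (T.h (P (nat_lit 0)) (T.h (T.h (P (nat_lit 216780055610455473782784)) (T.h (P (nat_lit 0)) (M (nat_lit 609359773776707583)))) (T.h (P (nat_lit 0)) (P (nat_lit 1247862232905646080)))))) (T.h (T.h (P (nat_lit 0)) (T.h (T.h (P (nat_lit 0)) (T.h (M (nat_lit 178655606925126795263)) (T.h (P (nat_lit 0)) (P (nat_lit 34912500471408))))) (T.h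 (P (nat_lit 0)) (T.h (T.h (P (nat_lit 0)) (M (nat_lit 214678815772191))) (P (nat_lit 0)))))) (T.h (T.h (T.h (P (nat_lit 23791495973334847324160)) (T.h (P (nat_lit 0)) (P (nat_lit 148820429166133248)))) (T.h (P (nat_lit 0)) (M (nat_lit 484054019528278015)))) (T.h (T.h (P (nat_lit 0)) (T.h (T.h (P (nat_lit 0)) (P (nat_lit 37646666864368))) (P (nat_lit 0)))) (M (nat_lit 26364715809570815))))))), (T.h (T.h (P (nat_lit 0)) (T.h (T.h (M (nat_lit 39922114480524796813220249599)) (T.h (P (nat_lit 0)) (T.h (M (nat_lit 235705695844198669877247)) (T.h (P (nat_lit 0)) (P (nat_lit 251989686659973120)))))) (T.h (P (nat_lit 0)) (T.h (T.h (M (nat_lit 760442022012652592562175)) (T.h (P (nat_lit 0)) (P (nat_lit 44325914313588736)))) (T.h (P (nat_lit 0)) (P (nat_lit 321913026383773696))))))) (T.h (T.h (T.h (P (nat_lit 0)) (T.h (M (nat_lit 170225242134397112389992447)) (T.h (P (nat_lit 0)) (T.h (P (nat_lit 299863005869694255104)) (T.h (P (nat_lit 0)) (P (nat_lit 139590809213760)))))))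 (T.h (P (nat_lit 0)) (T.h (T.h (P (nat_lit 0)) (T.h (M (nat_lit 172626538980066721791)) (T.h (P (nat_lit 0)) (M (nat_lit 71092680409855))))) (T.h (P (nat_lit 0)) (T.h (T.h (P (nat_lit 0)) (M (nat_lit 304057911904575))) (P (nat_lit 0))))))) (T.h (T.h (P (nat_lit 0)) (T.h (T.h (M (nat_lit 354108966750097843945471)) (T.h (P (nat_lit 0)) (P (nat_lit 1143806116378148864)))) (T.h (P (nat_lit 0)) (M (nat_lit 1339971673303810047))))) (T.h (T.h (T.h (P (nat_lit 0)) (T.h (P (nat_lit 479259445294006272)) (T.h (P (nat_lit 0)) (P (nat_lit 54212487964352))))) (T.h (P (nat_lit 0)) (T.h (T.h (P (nat_lit 0)) (P (nat_lit 299226266042112))) (P (nat_lit 0))))) (T.h (T.h (P (nat_lit 0)) (M (nat_lit 254820433037426687))) (T.h (T.h (T.h (P (nat_lit 0)) (P (nat_lit 43684823795648))) (P (nat_lit 0))) (P (nat_lit 0))))))))]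
def lP22_24 : List (T ℤ) := [(T.h (T.h (P (nat_lit 0)) (T.h (T.h (P (nat_lit 0)) (T.h (M (nat_lit 174896056153274827600297983)) (T.h (P (nat_lit 0)) (T.h (P (nat_lit 993715292942115012608)) (T.h (P (nat_lit 0)) (M (nat_lit 745048353148703))))))) (T.h (P (nat_lit 0)) (T.h (T.h (P (nat_lit 0)) (T.h (M (nat_lit 659523898980142415871)) (T.h (P (nat_lit 0)) (M (nat_lit 1963943185040143))))) (T.h (P (nat_lit 0)) (T.h (T.h (P (nat_lit 0)) (M (nat_lit 164545574209455))) (P (nat_lit 0)))))))) (T.h (T.h (T.h (P (nat_lit 18006126417590266352059285504)) (T.h (P (nat_lit 0)) (T.h (P (nat_lit 240450080164787395756032)) (T.h (P (nat_lit 0)) (M (nat_lit 272818288546512895)))))) (T.h (P (nat_lit 0)) (T.h (T.h (P (nat_lit 166813920078919525990400)) (T.h (P (nat_lit 0)) (P (nat_lit 1658338079030738944)))) (T.h (P (nat_lit 0)) (P (nat_lit 260646802695290880)))))) (T.h (T.h (P (nat_lit 0)) (T.h (T.h (P (nat_lit 0)) (T.h (P (nat_lit 276686059498119364608)) (T.h (P (nat_lit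 0)) (P (nat_lit 818787190557248))))) (T.h (P (nat_lit 0)) (T.h (T.h (P (nat_lit 0)) (P (nat_lit 313339886205808))) (P (nat_lit 0)))))) (T.h (T.h (T.h (P (nat_lit 161363873385588098859008)) (T.h (P (nat_lit 0)) (M (nat_lit 267169269056454655)))) (T.h (P (nat_lit 0)) (M (nat_lit 1138641939821658111)))) (T.h (T.h (P (nat_lit 0)) (T.h (T.h (P (nat_lit 0)) (M (nat_lit 1080033671493215))) (P (nat_lit 0)))) (M (nat_lit 111337717693054975))))))), (T.h (T.h (P (nat_lit 0)) (T.h (T.h (P (nat_lit 96028659766766875552285458432)) (T.h (P (nat_lit 0)) (T.h (M (nat_lit 655207257772216320786431)) (T.h (P (nat_lit 0)) (P (nat_lit 927531057910808576)))))) (T.h (P (nat_lit 0)) (T.h (T.h (P (nat_lit 56222622037623007346688)) (T.h (P (nat_lit 0)) (P (nat_lit 291100983990091776)))) (T.h (P (nat_lit 0)) (P (nat_lit 192174861502152704))))))) (T.h (T.h (T.h (P (nat_lit 0)) (T.h (M (nat_lit 71042538693187191808458751)) (T.h (P (nat_lit 0)) (M (nat_lit 27742157568141688831)))))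 (T.h (P (nat_lit 0)) (T.h (T.h (P (nat_lit 0)) (M (nat_lit 957110902588079865855))) (P (nat_lit 0))))) (T.h (T.h (P (nat_lit 0)) (T.h (T.h (M (nat_lit 291330409486159831891967)) (T.h (P (nat_lit 0)) (P (nat_lit 1225003800259493888)))) (T.h (P (nat_lit 0)) (M (nat_lit 110686140479963135))))) (T.h (T.h (T.h (P (nat_lit 0)) (M (nat_lit 440070239446538125311))) (P (nat_lit 0))) (T.h (T.h (P (nat_lit 0)) (P (nat_lit 59052743298482176))) (P (nat_lit 0))))))), (P (nat_lit 0)), (T.h (T.h (T.h (P (nat_lit 0)) (T.h (P (nat_lit 16720224391768011437074546688)) (T.h (P (nat_lit 0)) (T.h (M (nat_lit 4121397066077524983807)) (T.h (P (nat_lit 0)) (M (nat_lit 7569956503519231))))))) (T.h (P (nat_lit 0)) (T.h (T.h (P (nat_lit 0)) (T.h (M (nat_lit 18013996512637706305535)) (T.h (P (nat_lit 0)) (M (nat_lit 21245440802947071))))) (T.h (P (nat_lit 0)) (T.h (T.h (P (nat_lit 0)) (M (nat_lit 181785815691591679))) (P (nat_lit 0))))))) (T.h (T.h (P (nat_lit 0)) (T.h (T.h (P (nat_lit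 30898303051841342248321024)) (T.h (P (nat_lit 0)) (T.h (M (nat_lit 22805343476339703807)) (T.h (P (nat_lit 0)) (M (nat_lit 30619395733135)))))) (T.h (P (nat_lit 0)) (T.h (T.h (P (nat_lit 30680473103448932352)) (T.h (P (nat_lit 0)) (M (nat_lit 41432074338415)))) (T.h (P (nat_lit 0)) (P (nat_lit 329758805387944))))))) (T.h (T.h (T.h (P (nat_lit 0)) (T.h (P (nat_lit 11941462245276024569856)) (T.h (P (nat_lit 0)) (P (nat_lit 3504176986259456))))) (T.h (P (nat_lit 0)) (T.h (T.h (P (nat_lit 0)) (P (nat_lit 13098606876098560))) (P (nat_lit 0))))) (T.h (T.h (P (nat_lit 0)) (T.h (T.h (P (nat_lit 30219089852804104192)) (T.h (P (nat_lit 0)) (P (nat_lit 26677759400472)))) (T.h (P (nat_lit 0)) (M (nat_lit 101694640089231))))) (T.h (T.h (T.h (P (nat_lit 0)) (M (nat_lit 7865576575860735))) (P (nat_lit 0))) (T.h (T.h (P (nat_lit 0)) (P (nat_lit 8721480899840))) (P (nat_lit 0)))))))), (T.h (T.h (T.h (P (nat_lit 30344427573114699373462243246080)) (T.h (P (nat_lit 0))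 (T.h (M (nat_lit 19475102811932868095246335)) (T.h (P (nat_lit 0)) (T.h (M (nat_lit 10416840898888335359)) (T.h (P (nat_lit 0)) (P (nat_lit 4922537796320)))))))) (T.h (P (nat_lit 0)) (T.h (T.h (P (nat_lit 42749967418505435593834496)) (T.h (P (nat_lit 0)) (T.h (P (nat_lit 72237225933937836032)) (T.h (P (nat_lit 0)) (M (nat_lit 52802934017023)))))) (T.h (P (nat_lit 0)) (T.h (T.h (M (nat_lit 94730694884021239807)) (T.h (P (nat_lit 0)) (P (nat_lit 505147835109248)))) (T.h (P (nat_lit 0)) (P (nat_lit 126718997086240)))))))) (T.h (T.h (P (nat_lit 0)) (T.h (T.h (P (nat_lit 0)) (T.h (P (nat_lit 4140520059830095839232)) (T.h (P (nat_lit 0)) (P (nat_lit 14787398702956544))))) (T.h (P (nat_lit 0)) (T.h (T.h (P (nat_lit 0)) (P (nat_lit 369250227961593856))) (P (nat_lit 0)))))) (T.h (T.h (T.h (M (nat_lit 19475102811932868095246335)) (T.h (P (nat_lit 0)) (T.h (M (nat_lit 2887048341693136895)) (T.h (P (nat_lit 0)) (P (nat_lit 15613209633584)))))) (T.h (P (nat_lit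 0)) (T.h (T.h (P (nat_lit 72237225933937836032)) (T.h (P (nat_lit 0)) (M (nat_lit 4856476814431)))) (T.h (P (nat_lit 0)) (P (nat_lit 505147835109248)))))) (T.h (T.h (P (nat_lit 0)) (T.h (T.h (P (nat_lit 0)) (P (nat_lit 14787398702956544))) (P (nat_lit 0)))) (T.h (T.h (T.h (M (nat_lit 10416840898888335359)) (T.h (P (nat_lit 0)) (P (nat_lit 15613209633584)))) (T.h (P (nat_lit 0)) (M (nat_lit 52802934017023)))) (T.h (P (nat_lit 0)) (P (nat_lit 4922537796320)))))))), (T.h (T.h (T.h (P (nat_lit 0)) (T.h (P (nat_lit 16668059683528823549844258816)) (T.h (P (nat_lit 0)) (T.h (M (nat_lit 228711732591196530278399)) (T.h (P (nat_lit 0)) (P (nat_lit 288226290564268032))))))) (T.h (P (nat_lit 0)) (T.h (T.h (P (nat_lit 0)) (T.h (P (nat_lit 349617350202979222814720)) (T.h (P (nat_lit 0)) (M (nat_lit 925108444240871423))))) (T.h (P (nat_lit 0)) (T.h (T.h (P (nat_lit 0)) (P (nat_lit 2397534844890349568))) (P (nat_lit 0))))))) (T.h (T.h (P (nat_lit 0)) (T.h (T.h (P (nat_lit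 78643091181592859119714304)) (T.h (P (nat_lit 0)) (T.h (M (nat_lit 117641187764599783423)) (T.h (P (nat_lit 0)) (M (nat_lit 170850741107391)))))) (T.h (P (nat_lit 0)) (T.h (T.h (M (nat_lit 490118295586210840575)) (T.h (P (nat_lit 0)) (M (nat_lit 29409860822207)))) (T.h (P (nat_lit 0)) (P (nat_lit 51752019734528))))))) (T.h (T.h (T.h (P (nat_lit 0)) (T.h (P (nat_lit 20938238415108967497728)) (T.h (P (nat_lit 0)) (P (nat_lit 134406886334005248))))) (T.h (P (nat_lit 0)) (T.h (T.h (P (nat_lit 0)) (M (nat_lit 336951512124850175))) (P (nat_lit 0))))) (T.h (T.h (P (nat_lit 0)) (T.h (T.h (M (nat_lit 94555034986383147007)) (T.h (P (nat_lit 0)) (M (nat_lit 113277908187199)))) (T.h (P (nat_lit 0)) (M (nat_lit 742633037618623))))) (T.h (T.h (T.h (P (nat_lit 0)) (P (nat_lit 400568970346496))) (P (nat_lit 0))) (T.h (T.h (P (nat_lit 0)) (M (nat_lit 44899184523903))) (P (nat_lit 0)))))))), (T.h (T.h (T.h (P (nat_lit 9842828176903212546727859978240)) (T.h (P (nat_lit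 0)) (T.h (M (nat_lit 156975126325488610199994367)) (T.h (P (nat_lit 0)) (T.h (M (nat_lit 69165089831692271615)) (T.h (P (nat_lit 0)) (M (nat_lit 148769173545343)))))))) (T.h (P (nat_lit 0)) (T.h (T.h (P (nat_lit 320469631190882521324716032)) (T.h (P (nat_lit 0)) (T.h (M (nat_lit 342410088431271018495)) (T.h (P (nat_lit 0)) (P (nat_lit 74244844808288)))))) (T.h (P (nat_lit 0)) (T.h (T.h (P (nat_lit 210997532023150608384)) (T.h (P (nat_lit 0)) (M (nat_lit 1488234846215567)))) (T.h (P (nat_lit 0)) (M (nat_lit 170030783852159)))))))) (T.h (T.h (P (nat_lit 0)) (T.h (T.h (P (nat_lit 0)) (T.h (M (nat_lit 68708426816214420946943)) (T.h (P (nat_lit 0)) (P (nat_lit 130717729978974208))))) (T.h (P (nat_lit 0)) (T.h (T.h (P (nat_lit 0)) (M (nat_lit 941031378902941695))) (P (nat_lit 0)))))) (T.h (T.h (T.h (M (nat_lit 83811693614592676266508287)) (T.h (P (nat_lit 0)) (T.h (P (nat_lit 48088645099138842624)) (T.h (P (nat_lit 0)) (P (nat_lit 327319259258288)))))) (T.h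 (P (nat_lit 0)) (T.h (T.h (M (nat_lit 186299037107603111935)) (T.h (P (nat_lit 0)) (P (nat_lit 344783284634976)))) (T.h (P (nat_lit 0)) (M (nat_lit 251656292397487)))))) (T.h (T.h (P (nat_lit 0)) (T.h (T.h (P (nat_lit 0)) (P (nat_lit 19545118180081664))) (P (nat_lit 0)))) (T.h (T.h (T.h (P (nat_lit 19580335360942538752)) (T.h (P (nat_lit 0)) (P (nat_lit 162584894039040)))) (T.h (P (nat_lit 0)) (M (nat_lit 107497428313791)))) (T.h (P (nat_lit 0)) (M (nat_lit 58880536840751)))))))), (T.h (T.h (T.h (P (nat_lit 0)) (T.h (P (nat_lit 171263728465257769697097547776)) (T.h (P (nat_lit 0)) (T.h (M (nat_lit 167791094702386314215423)) (T.h (P (nat_lit 0)) (P (nat_lit 272696121335873536))))))) (T.h (P (nat_lit 0)) (T.h (T.h (P (nat_lit 0)) (T.h (P (nat_lit 657067238007617789886464)) (T.h (P (nat_lit 0)) (P (nat_lit 974299732031504384))))) (T.h (P (nat_lit 0)) (T.h (T.h (P (nat_lit 0)) (P (nat_lit 356888115739590656))) (P (nat_lit 0))))))) (T.h (T.h (P (nat_lit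 0)) (T.h (T.h (P (nat_lit 63287525629116649832448000)) (T.h (P (nat_lit 0)) (M (nat_lit 91702811927984996351)))) (T.h (P (nat_lit 0)) (P (nat_lit 362079656861214179328))))) (T.h (T.h (T.h (P (nat_lit 0)) (T.h (M (nat_lit 249934526859127403053055)) (T.h (P (nat_lit 0)) (M (nat_lit 382212607032721407))))) (T.h (P (nat_lit 0)) (T.h (T.h (P (nat_lit 0)) (M (nat_lit 376337290205331455))) (P (nat_lit 0))))) (T.h (T.h (P (nat_lit 0)) (P (nat_lit 304944548888721752064))) (T.h (T.h (T.h (P (nat_lit 0)) (P (nat_lit 37349099997790208))) (P (nat_lit 0))) (P (nat_lit 0)))))))]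
def lP22_25 : List (T ℤ) := [(T.h (T.h (P (nat_lit 0)) (T.h (T.h (M (nat_lit 13616060523248372760361041919)) (T.h (P (nat_lit 0)) (T.h (P (nat_lit 267052711276420530176)) (T.h (P (nat_lit 0)) (M (nat_lit 1271887051128831)))))) (T.h (P (nat_lit 0)) (T.h (T.h (P (nat_lit 25248286323423985008640)) (T.h (P (nat_lit 0)) (P (nat_lit 29095574034907136)))) (T.h (P (nat_lit 0)) (P (nat_lit 97560360966946816))))))) (T.h (T.h (T.h (P (nat_lit 0)) (T.h (P (nat_lit 988941334891427054747648)) (T.h (P (nat_lit 0)) (T.h (P (nat_lit 2589773294710292480)) (T.h (P (nat_lit 0)) (M (nat_lit 3269161860247))))))) (T.h (P (nat_lit 0)) (T.h (T.h (P (nat_lit 0)) (T.h (P (nat_lit 21892392839739867136)) (T.h (P (nat_lit 0)) (P (nat_lit 14981556922784))))) (T.h (P (nat_lit 0)) (T.h (T.h (P (nat_lit 0)) (P (nat_lit 43087163693056))) (P (nat_lit 0))))))) (T.h (T.h (P (nat_lit 0)) (T.h (T.h (M (nat_lit 1018639444731261616127)) (T.h (P (nat_lit 0)) (M (nat_lit 15203226427064319))))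 (T.h (P (nat_lit 0)) (P (nat_lit 21287966337204224))))) (T.h (T.h (T.h (P (nat_lit 0)) (T.h (P (nat_lit 4289571691257921536)) (T.h (P (nat_lit 0)) (M (nat_lit 10560971751551))))) (T.h (P (nat_lit 0)) (T.h (T.h (P (nat_lit 0)) (P (nat_lit 6954812085344))) (P (nat_lit 0))))) (T.h (T.h (P (nat_lit 0)) (M (nat_lit 3105598149197823))) (T.h (T.h (T.h (P (nat_lit 0)) (M (nat_lit 1780149283047))) (P (nat_lit 0))) (P (nat_lit 0)))))))), (T.h (T.h (P (nat_lit 0)) (T.h (T.h (P (nat_lit 0)) (T.h (M (nat_lit 3746786908111961168281599)) (T.h (P (nat_lit 0)) (T.h (P (nat_lit 21421683604952449024)) (T.h (P (nat_lit 0)) (P (nat_lit 7351350546784))))))) (T.h (P (nat_lit 0)) (T.h (T.h (P (nat_lit 0)) (T.h (P (nat_lit 150605351395472179200)) (T.h (P (nat_lit 0)) (M (nat_lit 29896136530671))))) (T.h (P (nat_lit 0)) (T.h (T.h (P (nat_lit 0)) (P (nat_lit 126624751875824))) (P (nat_lit 0)))))))) (T.h (T.h (T.h (P (nat_lit 825243808494547520458850304)) (T.h (P (nat_lit 0))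 (T.h (M (nat_lit 4538456619322401882111)) (T.h (P (nat_lit 0)) (P (nat_lit 1673160524251136)))))) (T.h (P (nat_lit 0)) (T.h (T.h (M (nat_lit 26344594233526511992831)) (T.h (P (nat_lit 0)) (M (nat_lit 9636131581935615)))) (T.h (P (nat_lit 0)) (M (nat_lit 391640158868422655)))))) (T.h (T.h (P (nat_lit 0)) (T.h (T.h (P (nat_lit 0)) (T.h (P (nat_lit 6725667058576523264)) (T.h (P (nat_lit 0)) (M (nat_lit 4256921589567))))) (T.h (P (nat_lit 0)) (T.h (T.h (P (nat_lit 0)) (P (nat_lit 20853968390928))) (P (nat_lit 0)))))) (T.h (T.h (T.h (P (nat_lit 452590592553853648896)) (T.h (P (nat_lit 0)) (M (nat_lit 18297077188886527)))) (T.h (P (nat_lit 0)) (M (nat_lit 39437525538734079)))) (T.h (T.h (P (nat_lit 0)) (T.h (T.h (P (nat_lit 0)) (M (nat_lit 14115448294655))) (P (nat_lit 0)))) (P (nat_lit 2367037161553920))))))), (T.h (T.h (P (nat_lit 0)) (T.h (T.h (P (nat_lit 59252945078247299837092429824)) (T.h (P (nat_lit 0)) (T.h (M (nat_lit 156218400100666872692735)) (T.h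 (P (nat_lit 0)) (P (nat_lit 115306280266235904)))))) (T.h (P (nat_lit 0)) (T.h (T.h (P (nat_lit 229248632812877991903232)) (T.h (P (nat_lit 0)) (P (nat_lit 125051970247786496)))) (T.h (P (nat_lit 0)) (P (nat_lit 812637238409297920))))))) (T.h (T.h (T.h (P (nat_lit 0)) (T.h (P (nat_lit 50469558689721989852037120)) (T.h (P (nat_lit 0)) (T.h (P (nat_lit 26346556876392497152)) (T.h (P (nat_lit 0)) (M (nat_lit 40011876594303))))))) (T.h (P (nat_lit 0)) (T.h (T.h (P (nat_lit 0)) (T.h (P (nat_lit 268623155452922822656)) (T.h (P (nat_lit 0)) (P (nat_lit 168643178788864))))) (T.h (P (nat_lit 0)) (T.h (T.h (P (nat_lit 0)) (M (nat_lit 93310917686911))) (P (nat_lit 0))))))) (T.h (T.h (P (nat_lit 0)) (T.h (T.h (M (nat_lit 156218400100666872692735)) (T.h (P (nat_lit 0)) (M (nat_lit 81749391863382015)))) (T.h (P (nat_lit 0)) (P (nat_lit 125051970247786496))))) (T.h (T.h (T.h (P (nat_lit 0)) (T.h (P (nat_lit 26346556876392497152)) (T.h (P (nat_lit 0)) (M (nat_lit 105710454429823)))))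 (T.h (P (nat_lit 0)) (T.h (T.h (P (nat_lit 0)) (P (nat_lit 168643178788864))) (P (nat_lit 0))))) (T.h (T.h (P (nat_lit 0)) (P (nat_lit 115306280266235904))) (T.h (T.h (T.h (P (nat_lit 0)) (M (nat_lit 40011876594303))) (P (nat_lit 0))) (P (nat_lit 0)))))))), (T.h (T.h (P (nat_lit 0)) (T.h (T.h (P (nat_lit 0)) (T.h (M (nat_lit 28274635799503944084881407)) (T.h (P (nat_lit 0)) (T.h (P (nat_lit 135197495194252476416)) (T.h (P (nat_lit 0)) (P (nat_lit 66604191561776))))))) (T.h (P (nat_lit 0)) (T.h (T.h (P (nat_lit 0)) (T.h (P (nat_lit 1212621973166793687040)) (T.h (P (nat_lit 0)) (P (nat_lit 145380656903328))))) (T.h (P (nat_lit 0)) (T.h (T.h (P (nat_lit 0)) (P (nat_lit 121955344170176))) (P (nat_lit 0)))))))) (T.h (T.h (T.h (P (nat_lit 37290123923396345576130871296)) (T.h (P (nat_lit 0)) (T.h (M (nat_lit 26065561976378344079359)) (T.h (P (nat_lit 0)) (P (nat_lit 137590494587011072)))))) (T.h (P (nat_lit 0)) (T.h (T.h (M (nat_lit 216615402926984000438271))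 (T.h (P (nat_lit 0)) (M (nat_lit 271446362752925695)))) (T.h (P (nat_lit 0)) (M (nat_lit 2408653964429623295)))))) (T.h (T.h (P (nat_lit 0)) (T.h (T.h (P (nat_lit 0)) (T.h (P (nat_lit 292845057866878418944)) (T.h (P (nat_lit 0)) (M (nat_lit 212037508337423))))) (T.h (P (nat_lit 0)) (T.h (T.h (P (nat_lit 0)) (P (nat_lit 196489953460944))) (P (nat_lit 0)))))) (T.h (T.h (T.h (M (nat_lit 83384638649807436513279)) (T.h (P (nat_lit 0)) (P (nat_lit 214512770539110400)))) (T.h (P (nat_lit 0)) (P (nat_lit 444163933741268992)))) (T.h (T.h (P (nat_lit 0)) (T.h (T.h (P (nat_lit 0)) (P (nat_lit 6113804648160))) (P (nat_lit 0)))) (P (nat_lit 88760662273196032))))))), (T.h (T.h (P (nat_lit 0)) (T.h (T.h (M (nat_lit 6186404307439879652053614591)) (T.h (P (nat_lit 0)) (T.h (P (nat_lit 252526146684295426605056)) (T.h (P (nat_lit 0)) (M (nat_lit 99525833845407743)))))) (T.h (P (nat_lit 0)) (T.h (T.h (M (nat_lit 278193744780241659756543)) (T.h (P (nat_lit 0)) (P (nat_lit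 960612832525778944)))) (T.h (P (nat_lit 0)) (P (nat_lit 106917404220751872))))))) (T.h (T.h (T.h (P (nat_lit 0)) (T.h (P (nat_lit 2557549714804987748417536)) (T.h (P (nat_lit 0)) (P (nat_lit 10009059546149945344))))) (T.h (P (nat_lit 0)) (T.h (T.h (P (nat_lit 0)) (P (nat_lit 940983863521673478144))) (P (nat_lit 0))))) (T.h (T.h (P (nat_lit 0)) (T.h (T.h (P (nat_lit 198966467875785016344576)) (T.h (P (nat_lit 0)) (P (nat_lit 22491614153244672)))) (T.h (P (nat_lit 0)) (P (nat_lit 46838032368730112))))) (T.h (T.h (T.h (P (nat_lit 0)) (M (nat_lit 71045193053887266815))) (P (nat_lit 0))) (T.h (T.h (P (nat_lit 0)) (M (nat_lit 13949065269936127))) (P (nat_lit 0))))))), (T.h (T.h (T.h (P (nat_lit 8381838962715691754272839434240)) (T.h (P (nat_lit 0)) (T.h (P (nat_lit 94354545371969910472704)) (T.h (P (nat_lit 0)) (T.h (M (nat_lit 1002665088554893311)) (T.h (P (nat_lit 0)) (M (nat_lit 165424305583)))))))) (T.h (P (nat_lit 0)) (T.h (T.h (M (nat_lit 24966769086201063159103487))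 (T.h (P (nat_lit 0)) (T.h (P (nat_lit 8545227737994887168)) (T.h (P (nat_lit 0)) (M (nat_lit 15443532767759)))))) (T.h (P (nat_lit 0)) (T.h (T.h (M (nat_lit 91567307508984840191)) (T.h (P (nat_lit 0)) (P (nat_lit 28106565702272)))) (T.h (P (nat_lit 0)) (M (nat_lit 9234645211199)))))))) (T.h (T.h (P (nat_lit 0)) (T.h (T.h (P (nat_lit 0)) (T.h (P (nat_lit 5306139762653476683776)) (T.h (P (nat_lit 0)) (M (nat_lit 21171082134913023))))) (T.h (P (nat_lit 0)) (T.h (T.h (P (nat_lit 0)) (M (nat_lit 8154054174244863))) (P (nat_lit 0)))))) (T.h (T.h (T.h (P (nat_lit 94354545371969910472704)) (T.h (P (nat_lit 0)) (T.h (P (nat_lit 8284172608572751872)) (T.h (P (nat_lit 0)) (M (nat_lit 4239509951935)))))) (T.h (P (nat_lit 0)) (T.h (T.h (P (nat_lit 8545227737994887168)) (T.h (P (nat_lit 0)) (P (nat_lit 35413500645568)))) (T.h (P (nat_lit 0)) (P (nat_lit 28106565702272)))))) (T.h (T.h (P (nat_lit 0)) (T.h (T.h (P (nat_lit 0)) (M (nat_lit 21171082134913023))) (P (nat_lit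 0)))) (T.h (T.h (T.h (M (nat_lit 1002665088554893311)) (T.h (P (nat_lit 0)) (M (nat_lit 4239509951935)))) (T.h (P (nat_lit 0)) (M (nat_lit 15443532767759)))) (T.h (P (nat_lit 0)) (M (nat_lit 165424305583)))))))), (T.h (T.h (T.h (P (nat_lit 0)) (T.h (M (nat_lit 7545880221992805317616861183)) (T.h (P (nat_lit 0)) (T.h (P (nat_lit 931328635943476264960)) (T.h (P (nat_lit 0)) (P (nat_lit 12618543294152704))))))) (T.h (P (nat_lit 0)) (T.h (T.h (P (nat_lit 0)) (T.h (P (nat_lit 135857268729696623788032)) (T.h (P (nat_lit 0)) (M (nat_lit 147449287571701759))))) (T.h (P (nat_lit 0)) (T.h (T.h (P (nat_lit 0)) (M (nat_lit 256185710019379199))) (P (nat_lit 0))))))) (T.h (T.h (P (nat_lit 0)) (T.h (T.h (P (nat_lit 14687585837093898757865472)) (T.h (P (nat_lit 0)) (T.h (M (nat_lit 102910509908660060159)) (T.h (P (nat_lit 0)) (P (nat_lit 30400262961600)))))) (T.h (P (nat_lit 0)) (T.h (T.h (P (nat_lit 260874937933494222848)) (T.h (P (nat_lit 0)) (M (nat_lit 50830335485887))))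 (T.h (P (nat_lit 0)) (M (nat_lit 519960225386687))))))) (T.h (T.h (T.h (P (nat_lit 0)) (T.h (M (nat_lit 10622575404966005964799)) (T.h (P (nat_lit 0)) (M (nat_lit 29366308743315455))))) (T.h (P (nat_lit 0)) (T.h (T.h (P (nat_lit 0)) (M (nat_lit 47295445978382335))) (P (nat_lit 0))))) (T.h (T.h (P (nat_lit 0)) (T.h (T.h (P (nat_lit 19685868038063652864)) (T.h (P (nat_lit 0)) (M (nat_lit 8555555049535)))) (T.h (P (nat_lit 0)) (P (nat_lit 62827191098304))))) (T.h (T.h (T.h (P (nat_lit 0)) (M (nat_lit 48004631291133951))) (P (nat_lit 0))) (T.h (T.h (P (nat_lit 0)) (P (nat_lit 5360624420992))) (P (nat_lit 0)))))))), (T.h (T.h (T.h (P (nat_lit 2250382356647252121199050752000)) (T.h (P (nat_lit 0)) (T.h (P (nat_lit 18293379610017684239941632)) (T.h (P (nat_lit 0)) (T.h (M (nat_lit 7136821473208958975)) (T.h (P (nat_lit 0)) (P (nat_lit 5407918602768)))))))) (T.h (P (nat_lit 0)) (T.h (T.h (M (nat_lit 92556984574963557710430207)) (T.h (P (nat_lit 0)) (T.h (M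 (nat_lit 484886219660933988351)) (T.h (P (nat_lit 0)) (P (nat_lit 111849213712368)))))) (T.h (P (nat_lit 0)) (T.h (T.h (M (nat_lit 312258550528070385663)) (T.h (P (nat_lit 0)) (P (nat_lit 111393475380704)))) (T.h (P (nat_lit 0)) (P (nat_lit 260963989865568)))))))) (T.h (T.h (P (nat_lit 0)) (T.h (T.h (P (nat_lit 0)) (T.h (M (nat_lit 112881263628990493491199)) (T.h (P (nat_lit 0)) (M (nat_lit 127589950605656063))))) (T.h (P (nat_lit 0)) (T.h (T.h (P (nat_lit 0)) (P (nat_lit 595375839368773632))) (P (nat_lit 0)))))) (T.h (T.h (T.h (P (nat_lit 18293379610017684239941632)) (T.h (P (nat_lit 0)) (T.h (P (nat_lit 3754220730468794368)) (T.h (P (nat_lit 0)) (M (nat_lit 101794348208783)))))) (T.h (P (nat_lit 0)) (T.h (T.h (M (nat_lit 484886219660933988351)) (T.h (P (nat_lit 0)) (P (nat_lit 219844702531872)))) (T.h (P (nat_lit 0)) (P (nat_lit 111393475380704)))))) (T.h (T.h (P (nat_lit 0)) (T.h (T.h (P (nat_lit 0)) (M (nat_lit 127589950605656063))) (P (nat_lit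 0)))) (T.h (T.h (T.h (M (nat_lit 7136821473208958975)) (T.h (P (nat_lit 0)) (M (nat_lit 101794348208783)))) (T.h (P (nat_lit 0)) (P (nat_lit 111849213712368)))) (T.h (P (nat_lit 0)) (P (nat_lit 5407918602768))))))))]
def lP22_26 : List (T ℤ) := [(T.h (T.h (T.h (P (nat_lit 0)) (T.h (P (nat_lit 5627338853244708344937054208)) (T.h (P (nat_lit 0)) (T.h (P (nat_lit 14449164374880544620544)) (T.h (P (nat_lit 0)) (M (nat_lit 8554639390932991))))))) (T.h (P (nat_lit 0)) (T.h (T.h (P (nat_lit 0)) (T.h (M (nat_lit 497853062471768386568191)) (T.h (P (nat_lit 0)) (M (nat_lit 121245971013926911))))) (T.h (P (nat_lit 0)) (T.h (T.h (P (nat_lit 0)) (M (nat_lit 123288370909806591))) (P (nat_lit 0))))))) (T.h (T.h (P (nat_lit 0)) (T.h (T.h (P (nat_lit 8873249925010409236987904)) (T.h (P (nat_lit 0)) (P (nat_lit 142869371267454074880)))) (T.h (P (nat_lit 0)) (P (nat_lit 1675819003399964196864))))) (T.h (T.h (T.h (P (nat_lit 0)) (T.h (M (nat_lit 8392513750900005666815))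 (T.h (P (nat_lit 0)) (P (nat_lit 114524215843454976))))) (T.h (P (nat_lit 0)) (T.h (T.h (P (nat_lit 0)) (M (nat_lit 61852061350625279))) (P (nat_lit 0))))) (T.h (T.h (P (nat_lit 0)) (P (nat_lit 30364639935229591552))) (T.h (T.h (T.h (P (nat_lit 0)) (P (nat_lit 86201168399007744))) (P (nat_lit 0))) (P (nat_lit 0))))))), (T.h (T.h (P (nat_lit 0)) (T.h (T.h (P (nat_lit 19513362596848012897021853696)) (T.h (P (nat_lit 0)) (T.h (P (nat_lit 7063357461541198757888)) (T.h (P (nat_lit 0)) (P (nat_lit 14876198407176192)))))) (T.h (P (nat_lit 0)) (T.h (T.h (M (nat_lit 63987633135800041865215)) (T.h (P (nat_lit 0)) (M (nat_lit 48131822609170431)))) (T.h (P (nat_lit 0)) (M (nat_lit 81349603584901119))))))) (T.h (T.h (T.h (P (nat_lit 0)) (T.h (M (nat_lit 1375602425031345005658111)) (T.h (P (nat_lit 0)) (T.h (P (nat_lit 2413284188405891072)) (T.h (P (nat_lit 0)) (P (nat_lit 2524655571648))))))) (T.h (P (nat_lit 0)) (T.h (T.h (P (nat_lit 0)) (T.h (M (nat_lit 65383704587684282367))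 (T.h (P (nat_lit 0)) (M (nat_lit 10968184504063))))) (T.h (P (nat_lit 0)) (T.h (T.h (P (nat_lit 0)) (M (nat_lit 43087163693055))) (P (nat_lit 0))))))) (T.h (T.h (P (nat_lit 0)) (T.h (T.h (P (nat_lit 4107924079950048526336)) (T.h (P (nat_lit 0)) (M (nat_lit 5518730472980479)))) (T.h (P (nat_lit 0)) (M (nat_lit 85837983571574783))))) (T.h (T.h (T.h (P (nat_lit 0)) (T.h (M (nat_lit 8805342538014654463)) (T.h (P (nat_lit 0)) (P (nat_lit 10560971751552))))) (T.h (P (nat_lit 0)) (T.h (T.h (P (nat_lit 0)) (M (nat_lit 10968184504063))) (P (nat_lit 0))))) (T.h (T.h (P (nat_lit 0)) (M (nat_lit 1307171908157439))) (T.h (T.h (T.h (P (nat_lit 0)) (P (nat_lit 2524655571648))) (P (nat_lit 0))) (P (nat_lit 0)))))))), (T.h (T.h (P (nat_lit 0)) (T.h (T.h (P (nat_lit 0)) (T.h (P (nat_lit 20370376071632726442115072)) (T.h (P (nat_lit 0)) (T.h (M (nat_lit 14468998367255986175)) (T.h (P (nat_lit 0)) (M (nat_lit 6662556455103))))))) (T.h (P (nat_lit 0)) (T.h (T.h (P (nat_lit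 0)) (T.h (M (nat_lit 74258750209269956607)) (T.h (P (nat_lit 0)) (P (nat_lit 847315013424))))) (T.h (P (nat_lit 0)) (T.h (T.h (P (nat_lit 0)) (M (nat_lit 430642633814447))) (P (nat_lit 0)))))))) (T.h (T.h (T.h (P (nat_lit 994755837398416160144228352)) (T.h (P (nat_lit 0)) (T.h (P (nat_lit 385848081155304194048)) (T.h (P (nat_lit 0)) (M (nat_lit 26168110165688319)))))) (T.h (P (nat_lit 0)) (T.h (T.h (P (nat_lit 62873011426048620888064)) (T.h (P (nat_lit 0)) (P (nat_lit 102840527015788544)))) (T.h (P (nat_lit 0)) (P (nat_lit 866541895063420928)))))) (T.h (T.h (P (nat_lit 0)) (T.h (T.h (P (nat_lit 0)) (T.h (M (nat_lit 52736164427403886591)) (T.h (P (nat_lit 0)) (P (nat_lit 238877194160))))) (T.h (P (nat_lit 0)) (T.h (T.h (P (nat_lit 0)) (M (nat_lit 64739948756207))) (P (nat_lit 0)))))) (T.h (T.h (T.h (P (nat_lit 1627259457768127463424)) (T.h (P (nat_lit 0)) (P (nat_lit 1901487044935680)))) (T.h (P (nat_lit 0)) (P (nat_lit 40138936817926144)))) (T.h (T.h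 (P (nat_lit 0)) (T.h (T.h (P (nat_lit 0)) (P (nat_lit 37730281781984))) (P (nat_lit 0)))) (M (nat_lit 1438415993520127))))))), (T.h (T.h (P (nat_lit 0)) (T.h (T.h (P (nat_lit 6333693746672335205712265216)) (T.h (P (nat_lit 0)) (T.h (P (nat_lit 89815812782375762395136)) (T.h (P (nat_lit 0)) (M (nat_lit 42471038032281599)))))) (T.h (P (nat_lit 0)) (T.h (T.h (M (nat_lit 28689205413881023823871)) (T.h (P (nat_lit 0)) (M (nat_lit 71377621700771839)))) (T.h (P (nat_lit 0)) (M (nat_lit 131164843578556415))))))) (T.h (T.h (T.h (P (nat_lit 0)) (T.h (P (nat_lit 19535552284481556309868544)) (T.h (P (nat_lit 0)) (P (nat_lit 11071743129932529664))))) (T.h (P (nat_lit 0)) (T.h (T.h (P (nat_lit 0)) (M (nat_lit 291345248444695445503))) (P (nat_lit 0))))) (T.h (T.h (P (nat_lit 0)) (T.h (T.h (P (nat_lit 89815812782375762395136)) (T.h (P (nat_lit 0)) (M (nat_lit 82129020412035071)))) (T.h (P (nat_lit 0)) (M (nat_lit 71377621700771839))))) (T.h (T.h (T.h (P (nat_lit 0))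 (P (nat_lit 11071743129932529664))) (P (nat_lit 0))) (T.h (T.h (P (nat_lit 0)) (M (nat_lit 42471038032281599))) (P (nat_lit 0))))))), (T.h (T.h (T.h (M (nat_lit 3022801708362945769365684879359)) (T.h (P (nat_lit 0)) (T.h (M (nat_lit 866842690526014188027903)) (T.h (P (nat_lit 0)) (T.h (M (nat_lit 2198064352563560447)) (T.h (P (nat_lit 0)) (P (nat_lit 742147470768)))))))) (T.h (P (nat_lit 0)) (T.h (T.h (P (nat_lit 35228165051076154056769536)) (T.h (P (nat_lit 0)) (T.h (P (nat_lit 33338568917978710016)) (T.h (P (nat_lit 0)) (P (nat_lit 12342157505568)))))) (T.h (P (nat_lit 0)) (T.h (T.h (P (nat_lit 72859096151933059072)) (T.h (P (nat_lit 0)) (M (nat_lit 56118708733823)))) (T.h (P (nat_lit 0)) (P (nat_lit 14511582942912)))))))) (T.h (T.h (P (nat_lit 0)) (T.h (T.h (P (nat_lit 0)) (T.h (P (nat_lit 9132112169328112041984)) (T.h (P (nat_lit 0)) (P (nat_lit 6924341569585152))))) (T.h (P (nat_lit 0)) (T.h (T.h (P (nat_lit 0)) (M (nat_lit 33744048614539263)))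 (P (nat_lit 0)))))) (T.h (T.h (T.h (M (nat_lit 866842690526014188027903)) (T.h (P (nat_lit 0)) (T.h (M (nat_lit 80235081309880319)) (T.h (P (nat_lit 0)) (P (nat_lit 7551023902224)))))) (T.h (P (nat_lit 0)) (T.h (T.h (P (nat_lit 33338568917978710016)) (T.h (P (nat_lit 0)) (M (nat_lit 55649786596799)))) (T.h (P (nat_lit 0)) (M (nat_lit 56118708733823)))))) (T.h (T.h (P (nat_lit 0)) (T.h (T.h (P (nat_lit 0)) (P (nat_lit 6924341569585152))) (P (nat_lit 0)))) (T.h (T.h (T.h (M (nat_lit 2198064352563560447)) (T.h (P (nat_lit 0)) (P (nat_lit 7551023902224)))) (T.h (P (nat_lit 0)) (P (nat_lit 12342157505568)))) (T.h (P (nat_lit 0)) (P (nat_lit 742147470768)))))))), (T.h (T.h (T.h (P (nat_lit 0)) (T.h (M (nat_lit 3849283284899336926831575039)) (T.h (P (nat_lit 0)) (T.h (M (nat_lit 2169209033493156200447)) (T.h (P (nat_lit 0)) (P (nat_lit 411400681750528))))))) (T.h (P (nat_lit 0)) (T.h (T.h (P (nat_lit 0)) (T.h (M (nat_lit 7915433807328952975359)) (T.h (P (nat_lit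 0)) (M (nat_lit 9664805248008191))))) (T.h (P (nat_lit 0)) (T.h (T.h (P (nat_lit 0)) (P (nat_lit 421785709203062784))) (P (nat_lit 0))))))) (T.h (T.h (P (nat_lit 0)) (T.h (T.h (M (nat_lit 8685767576524368306503679)) (T.h (P (nat_lit 0)) (M (nat_lit 21352153951422644223)))) (T.h (P (nat_lit 0)) (M (nat_lit 126973145165437337599))))) (T.h (T.h (T.h (P (nat_lit 0)) (T.h (M (nat_lit 318127756473987497983)) (T.h (P (nat_lit 0)) (M (nat_lit 5667928027332607))))) (T.h (P (nat_lit 0)) (T.h (T.h (P (nat_lit 0)) (P (nat_lit 56882161005330432))) (P (nat_lit 0))))) (T.h (T.h (P (nat_lit 0)) (M (nat_lit 32111403715541336063))) (T.h (T.h (T.h (P (nat_lit 0)) (M (nat_lit 9836419181182975))) (P (nat_lit 0))) (P (nat_lit 0))))))), (T.h (T.h (P (nat_lit 0)) (T.h (T.h (M (nat_lit 5897302073599640136660811775)) (T.h (P (nat_lit 0)) (T.h (M (nat_lit 5209847404018203099135)) (T.h (P (nat_lit 0)) (M (nat_lit 4595770649346047)))))) (T.h (P (nat_lit 0)) (T.h (T.h (P (nat_lit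 38739346812376056856576)) (T.h (P (nat_lit 0)) (P (nat_lit 41793132904316928)))) (T.h (P (nat_lit 0)) (M (nat_lit 16210757382045695))))))) (T.h (T.h (T.h (P (nat_lit 0)) (T.h (P (nat_lit 386661090139917950910464)) (T.h (P (nat_lit 0)) (M (nat_lit 243643318179725311))))) (T.h (P (nat_lit 0)) (T.h (T.h (P (nat_lit 0)) (P (nat_lit 43491311747944415232))) (P (nat_lit 0))))) (T.h (T.h (P (nat_lit 0)) (T.h (T.h (M (nat_lit 5209847404018203099135)) (T.h (P (nat_lit 0)) (P (nat_lit 20721956900044800)))) (T.h (P (nat_lit 0)) (P (nat_lit 41793132904316928))))) (T.h (T.h (T.h (P (nat_lit 0)) (M (nat_lit 243643318179725311))) (P (nat_lit 0))) (T.h (T.h (P (nat_lit 0)) (M (nat_lit 4595770649346047))) (P (nat_lit 0))))))), (P (nat_lit 0))]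
def lP22_27 : List (T ℤ) := [(P (nat_lit 0)), (T.h (T.h (P (nat_lit 0)) (T.h (T.h (P (nat_lit 0)) (T.h (M (nat_lit 71440463722844327224803327)) (T.h (P (nat_lit 0)) (T.h (M (nat_lit 80031877047164862463)) (T.h (P (nat_lit 0)) (M (nat_lit 109931233387399))))))) (T.h (P (nat_lit 0)) (T.h (T.h (P (nat_lit 0)) (T.h (P (nat_lit 21808900994653749248)) (T.h (P (nat_lit 0)) (P (nat_lit 389423140897216))))) (T.h (P (nat_lit 0)) (T.h (T.h (P (nat_lit 0)) (P (nat_lit 40951311509944))) (P (nat_lit 0)))))))) (T.h (T.h (T.h (P (nat_lit 11226552536872670058376069120)) (T.h (P (nat_lit 0)) (T.h (M (nat_lit 70320940951416229330943)) (T.h (P (nat_lit 0)) (P (nat_lit 784923959251894272)))))) (T.h (P (nat_lit 0)) (T.h (T.h (M (nat_lit 24366320025064756477951)) (T.h (P (nat_lit 0)) (P (nat_lit 258372745212231680)))) (T.h (P (nat_lit 0)) (M (nat_lit 3433990289195007)))))) (T.h (T.h (P (nat_lit 0)) (T.h (T.h (P (nat_lit 0)) (T.h (M (nat_lit 84152052307019694079)) (T.h (P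 (nat_lit 0)) (M (nat_lit 521677075544719))))) (T.h (P (nat_lit 0)) (T.h (T.h (P (nat_lit 0)) (P (nat_lit 290397087801984))) (P (nat_lit 0)))))) (T.h (T.h (T.h (P (nat_lit 1558477172255024480256)) (T.h (P (nat_lit 0)) (P (nat_lit 237438564384833536)))) (T.h (P (nat_lit 0)) (P (nat_lit 27845166307540992)))) (T.h (T.h (P (nat_lit 0)) (T.h (T.h (P (nat_lit 0)) (P (nat_lit 268620149612704))) (P (nat_lit 0)))) (P (nat_lit 2267793512923136))))))), (T.h (T.h (P (nat_lit 0)) (T.h (T.h (P (nat_lit 1322676371061387946650238976)) (T.h (P (nat_lit 0)) (T.h (M (nat_lit 66371634848809843949567)) (T.h (P (nat_lit 0)) (M (nat_lit 354873047434739711)))))) (T.h (P (nat_lit 0)) (T.h (T.h (P (nat_lit 3314644934844999532544)) (T.h (P (nat_lit 0)) (M (nat_lit 77220303000305663)))) (T.h (P (nat_lit 0)) (P (nat_lit 12179242722541568))))))) (T.h (T.h (T.h (P (nat_lit 0)) (T.h (P (nat_lit 66779422157121835614863360)) (T.h (P (nat_lit 0)) (T.h (M (nat_lit 667163874488762761215))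 (T.h (P (nat_lit 0)) (P (nat_lit 132254739178384))))))) (T.h (P (nat_lit 0)) (T.h (T.h (P (nat_lit 0)) (T.h (M (nat_lit 96521423339802066943)) (T.h (P (nat_lit 0)) (M (nat_lit 117889912007311))))) (T.h (P (nat_lit 0)) (T.h (T.h (P (nat_lit 0)) (P (nat_lit 19366294304256))) (P (nat_lit 0))))))) (T.h (T.h (P (nat_lit 0)) (T.h (T.h (P (nat_lit 2337908207826891702272)) (T.h (P (nat_lit 0)) (M (nat_lit 155104395579326463)))) (T.h (P (nat_lit 0)) (P (nat_lit 27588438918021120))))) (T.h (T.h (T.h (P (nat_lit 0)) (T.h (P (nat_lit 44759794926007353344)) (T.h (P (nat_lit 0)) (P (nat_lit 316431649808864))))) (T.h (P (nat_lit 0)) (T.h (T.h (P (nat_lit 0)) (P (nat_lit 14097742350432))) (P (nat_lit 0))))) (T.h (T.h (P (nat_lit 0)) (P (nat_lit 8014772849033216))) (T.h (T.h (T.h (P (nat_lit 0)) (M (nat_lit 13564579893471))) (P (nat_lit 0))) (P (nat_lit 0)))))))), (T.h (T.h (P (nat_lit 0)) (T.h (T.h (P (nat_lit 0)) (T.h (M (nat_lit 107616031060821464577998847)) (T.h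 (P (nat_lit 0)) (T.h (M (nat_lit 307788482951491092479)) (T.h (P (nat_lit 0)) (M (nat_lit 427569879162559))))))) (T.h (P (nat_lit 0)) (T.h (T.h (P (nat_lit 0)) (T.h (M (nat_lit 52097767407718760447)) (T.h (P (nat_lit 0)) (M (nat_lit 110500936895807))))) (T.h (P (nat_lit 0)) (T.h (T.h (P (nat_lit 0)) (M (nat_lit 4978840797247))) (P (nat_lit 0)))))))) (T.h (T.h (T.h (M (nat_lit 30743316187595668895993692159)) (T.h (P (nat_lit 0)) (T.h (P (nat_lit 130065404514620449751040)) (T.h (P (nat_lit 0)) (P (nat_lit 425943098470891520)))))) (T.h (P (nat_lit 0)) (T.h (T.h (P (nat_lit 30159946862833371709440)) (T.h (P (nat_lit 0)) (M (nat_lit 261196326978060287)))) (T.h (P (nat_lit 0)) (P (nat_lit 38451470573731840)))))) (T.h (T.h (P (nat_lit 0)) (T.h (T.h (P (nat_lit 0)) (T.h (M (nat_lit 134759294785770487807)) (T.h (P (nat_lit 0)) (P (nat_lit 272970671626752))))) (T.h (P (nat_lit 0)) (T.h (T.h (P (nat_lit 0)) (M (nat_lit 138236329626367))) (P (nat_lit 0)))))) (T.h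 (T.h (T.h (M (nat_lit 31990051572355434545151)) (T.h (P (nat_lit 0)) (M (nat_lit 46881492679327743)))) (T.h (P (nat_lit 0)) (M (nat_lit 63879557127372799)))) (T.h (T.h (P (nat_lit 0)) (T.h (T.h (P (nat_lit 0)) (M (nat_lit 104692039472959))) (P (nat_lit 0)))) (P (nat_lit 107647830557327360))))))), (T.h (T.h (P (nat_lit 0)) (T.h (T.h (P (nat_lit 16228494589403012116063977472)) (T.h (P (nat_lit 0)) (T.h (M (nat_lit 128039654333054256676863)) (T.h (P (nat_lit 0)) (P (nat_lit 807140873094496256)))))) (T.h (P (nat_lit 0)) (T.h (T.h (M (nat_lit 20067389524284153004031)) (T.h (P (nat_lit 0)) (P (nat_lit 157204371762266112)))) (T.h (P (nat_lit 0)) (M (nat_lit 9464545382219775))))))) (T.h (T.h (T.h (P (nat_lit 0)) (T.h (M (nat_lit 60534834906428901473386495)) (T.h (P (nat_lit 0)) (T.h (P (nat_lit 892239303793140826112)) (T.h (P (nat_lit 0)) (M (nat_lit 632653247010751))))))) (T.h (P (nat_lit 0)) (T.h (T.h (P (nat_lit 0)) (T.h (P (nat_lit 127648728308189757440))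 (T.h (P (nat_lit 0)) (M (nat_lit 225505828498543))))) (T.h (P (nat_lit 0)) (T.h (T.h (P (nat_lit 0)) (M (nat_lit 9207850275007))) (P (nat_lit 0))))))) (T.h (T.h (P (nat_lit 0)) (T.h (T.h (M (nat_lit 50202398739371158142975)) (T.h (P (nat_lit 0)) (M (nat_lit 378285141599158271)))) (T.h (P (nat_lit 0)) (P (nat_lit 155408564710883328))))) (T.h (T.h (T.h (P (nat_lit 0)) (T.h (P (nat_lit 90240662638237319168)) (T.h (P (nat_lit 0)) (M (nat_lit 39959945820255))))) (T.h (P (nat_lit 0)) (T.h (T.h (P (nat_lit 0)) (M (nat_lit 153712426988735))) (P (nat_lit 0))))) (T.h (T.h (P (nat_lit 0)) (P (nat_lit 11489204882522112))) (T.h (T.h (T.h (P (nat_lit 0)) (P (nat_lit 3181077252848))) (P (nat_lit 0))) (P (nat_lit 0)))))))), (T.h (T.h (P (nat_lit 0)) (T.h (T.h (P (nat_lit 0)) (T.h (P (nat_lit 59794892129816641328381952)) (T.h (P (nat_lit 0)) (M (nat_lit 203595693970520276991))))) (T.h (P (nat_lit 0)) (T.h (T.h (P (nat_lit 0)) (M (nat_lit 20180868879544745983))) (P (nat_lit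 0)))))) (T.h (T.h (T.h (P (nat_lit 5630661941955866752112918528)) (T.h (P (nat_lit 0)) (T.h (M (nat_lit 260320810832069591564287)) (T.h (P (nat_lit 0)) (P (nat_lit 580734419328237568)))))) (T.h (P (nat_lit 0)) (T.h (T.h (M (nat_lit 15547998876666915979263)) (T.h (P (nat_lit 0)) (P (nat_lit 105746125946388480)))) (T.h (P (nat_lit 0)) (P (nat_lit 17195555439378432)))))) (T.h (T.h (P (nat_lit 0)) (T.h (T.h (P (nat_lit 0)) (P (nat_lit 7209265680472866816))) (P (nat_lit 0)))) (T.h (T.h (T.h (M (nat_lit 10225169493974520430591)) (T.h (P (nat_lit 0)) (M (nat_lit 83449253409652735)))) (T.h (P (nat_lit 0)) (P (nat_lit 62218137313214464)))) (T.h (P (nat_lit 0)) (M (nat_lit 3193177466568703))))))), (P (nat_lit 0)), (P (nat_lit 0))]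
def lP22_28 : List (T ℤ) := [(T.h (T.h (T.h (P (nat_lit 20743555868700945240925390503936)) (T.h (P (nat_lit 0)) (T.h (M (nat_lit 126538475152262420242628607)) (T.h (P (nat_lit 0)) (T.h (P (nat_lit 257618270563300540416)) (T.h (P (nat_lit 0)) (M (nat_lit 71435997734031)))))))) (T.h (P (nat_lit 0)) (T.h (T.h (M (nat_lit 14191767757941870574960639)) (T.h (P (nat_lit 0)) (T.h (P (nat_lit 217299382818360524800)) (T.h (P (nat_lit 0)) (P (nat_lit 348167733077024)))))) (T.h (P (nat_lit 0)) (T.h (T.h (P (nat_lit 10808073746795986944)) (T.h (P (nat_lit 0)) (P (nat_lit 955630288563504)))) (T.h (P (nat_lit 0)) (M (nat_lit 57073925797807)))))))) (T.h (T.h (P (nat_lit 0)) (T.h (T.h (P (nat_lit 0)) (T.h (P (nat_lit 132597205529526087450624)) (T.h (P (nat_lit 0)) (P (nat_lit 625557144947785728))))) (T.h (P (nat_lit 0)) (T.h (T.h (P (nat_lit 0)) (M (nat_lit 202785366568468479))) (P (nat_lit 0)))))) (T.h (T.h (T.h (P (nat_lit 52833143079341340567273472)) (T.h (P (nat_lit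 0)) (T.h (M (nat_lit 6776842254796455935)) (T.h (P (nat_lit 0)) (P (nat_lit 1276459735382992)))))) (T.h (P (nat_lit 0)) (T.h (T.h (M (nat_lit 183827353451553095679)) (T.h (P (nat_lit 0)) (M (nat_lit 678744366478943)))) (T.h (P (nat_lit 0)) (M (nat_lit 222986468349919)))))) (T.h (T.h (P (nat_lit 0)) (T.h (T.h (P (nat_lit 0)) (M (nat_lit 330832510011703295))) (P (nat_lit 0)))) (T.h (T.h (T.h (M (nat_lit 45242550057263169535)) (T.h (P (nat_lit 0)) (M (nat_lit 1879280720920079)))) (T.h (P (nat_lit 0)) (M (nat_lit 160649772632287)))) (T.h (P (nat_lit 0)) (P (nat_lit 125938963766608)))))))), (T.h (T.h (T.h (P (nat_lit 0)) (T.h (M (nat_lit 10402984587407102940117204991)) (T.h (P (nat_lit 0)) (T.h (M (nat_lit 11263133419063654481919)) (T.h (P (nat_lit 0)) (M (nat_lit 268098932714143743))))))) (T.h (P (nat_lit 0)) (T.h (T.h (P (nat_lit 0)) (T.h (M (nat_lit 848513532839329791999)) (T.h (P (nat_lit 0)) (M (nat_lit 201426014826168319))))) (T.h (P (nat_lit 0)) (T.h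 (T.h (P (nat_lit 0)) (M (nat_lit 126801206378053631))) (P (nat_lit 0))))))) (T.h (T.h (P (nat_lit 0)) (T.h (T.h (M (nat_lit 58203737701095949077577727)) (T.h (P (nat_lit 0)) (T.h (P (nat_lit 565831284812098306048)) (T.h (P (nat_lit 0)) (M (nat_lit 195979018621535)))))) (T.h (P (nat_lit 0)) (T.h (T.h (P (nat_lit 4847334080368345088)) (T.h (P (nat_lit 0)) (P (nat_lit 727644225495696)))) (T.h (P (nat_lit 0)) (M (nat_lit 31387440768655))))))) (T.h (T.h (T.h (P (nat_lit 0)) (T.h (P (nat_lit 21151223722634555424768)) (T.h (P (nat_lit 0)) (M (nat_lit 376821371375255551))))) (T.h (P (nat_lit 0)) (T.h (T.h (P (nat_lit 0)) (M (nat_lit 56093100908691455))) (P (nat_lit 0))))) (T.h (T.h (P (nat_lit 0)) (T.h (T.h (M (nat_lit 133217216746544431103)) (T.h (P (nat_lit 0)) (P (nat_lit 159180462692528)))) (T.h (P (nat_lit 0)) (M (nat_lit 54556795947023))))) (T.h (T.h (T.h (P (nat_lit 0)) (P (nat_lit 763863378704056320))) (P (nat_lit 0))) (T.h (T.h (P (nat_lit 0)) (P (nat_lit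 11136417168416))) (P (nat_lit 0)))))))), (T.h (T.h (T.h (P (nat_lit 5033591476955802500417638629376)) (T.h (P (nat_lit 0)) (T.h (P (nat_lit 98224269161431528468643840)) (T.h (P (nat_lit 0)) (T.h (M (nat_lit 2030541996830729699327)) (T.h (P (nat_lit 0)) (M (nat_lit 404758465587071)))))))) (T.h (P (nat_lit 0)) (T.h (T.h (M (nat_lit 1685068590728999644168191)) (T.h (P (nat_lit 0)) (T.h (P (nat_lit 131465900530277023744)) (T.h (P (nat_lit 0)) (P (nat_lit 34827456796160)))))) (T.h (P (nat_lit 0)) (T.h (T.h (P (nat_lit 53834262178789588992)) (T.h (P (nat_lit 0)) (M (nat_lit 379449331744255)))) (T.h (P (nat_lit 0)) (M (nat_lit 17591876039487)))))))) (T.h (T.h (P (nat_lit 0)) (T.h (T.h (P (nat_lit 0)) (T.h (M (nat_lit 285019034605349217763327)) (T.h (P (nat_lit 0)) (M (nat_lit 1621407300997873663))))) (T.h (P (nat_lit 0)) (T.h (T.h (P (nat_lit 0)) (P (nat_lit 341444793480249344))) (P (nat_lit 0)))))) (T.h (T.h (T.h (M (nat_lit 180605214646128135809007615))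 (T.h (P (nat_lit 0)) (T.h (P (nat_lit 59625221583861186560)) (T.h (P (nat_lit 0)) (P (nat_lit 287908883590848)))))) (T.h (P (nat_lit 0)) (T.h (T.h (P (nat_lit 178182192678395969536)) (T.h (P (nat_lit 0)) (P (nat_lit 475213411522112)))) (T.h (P (nat_lit 0)) (P (nat_lit 90548760350016)))))) (T.h (T.h (P (nat_lit 0)) (T.h (T.h (P (nat_lit 0)) (P (nat_lit 372148674531491840))) (P (nat_lit 0)))) (T.h (T.h (T.h (P (nat_lit 233930281628603514880)) (T.h (P (nat_lit 0)) (P (nat_lit 1726084812844096)))) (T.h (P (nat_lit 0)) (M (nat_lit 44011021548607)))) (T.h (P (nat_lit 0)) (M (nat_lit 210534429175231)))))))), (T.h (T.h (T.h (P (nat_lit 0)) (T.h (P (nat_lit 35363525717813127072268156928)) (T.h (P (nat_lit 0)) (T.h (M (nat_lit 6751133298556577775615)) (T.h (P (nat_lit 0)) (P (nat_lit 1150537368534614016))))))) (T.h (P (nat_lit 0)) (T.h (T.h (P (nat_lit 0)) (T.h (P (nat_lit 218824825850870034857984)) (T.h (P (nat_lit 0)) (P (nat_lit 183021395936935936))))) (T.h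 (P (nat_lit 0)) (T.h (T.h (P (nat_lit 0)) (P (nat_lit 228729104688889856))) (P (nat_lit 0))))))) (T.h (T.h (P (nat_lit 0)) (T.h (T.h (P (nat_lit 103283711528334789982552064)) (T.h (P (nat_lit 0)) (T.h (M (nat_lit 265560519786861953023)) (T.h (P (nat_lit 0)) (P (nat_lit 1711947762409280)))))) (T.h (P (nat_lit 0)) (T.h (T.h (M (nat_lit 1352985105907318783)) (T.h (P (nat_lit 0)) (M (nat_lit 101729801958399)))) (T.h (P (nat_lit 0)) (P (nat_lit 57747740157536))))))) (T.h (T.h (T.h (P (nat_lit 0)) (T.h (M (nat_lit 50135950289608678309887)) (T.h (P (nat_lit 0)) (M (nat_lit 393860190868275199))))) (T.h (P (nat_lit 0)) (T.h (T.h (P (nat_lit 0)) (M (nat_lit 260690775951818751))) (P (nat_lit 0))))) (T.h (T.h (P (nat_lit 0)) (T.h (T.h (M (nat_lit 86679914041416089599)) (T.h (P (nat_lit 0)) (P (nat_lit 129479626112320)))) (T.h (P (nat_lit 0)) (M (nat_lit 23689960517871))))) (T.h (T.h (T.h (P (nat_lit 0)) (M (nat_lit 737644645786255359))) (P (nat_lit 0))) (T.h (T.h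 (P (nat_lit 0)) (P (nat_lit 119883028452176))) (P (nat_lit 0)))))))), (T.h (T.h (T.h (M (nat_lit 9929422645557309655018763190271)) (T.h (P (nat_lit 0)) (T.h (M (nat_lit 25276643066355775078137855)) (T.h (P (nat_lit 0)) (P (nat_lit 110624555657085321216)))))) (T.h (P (nat_lit 0)) (T.h (T.h (M (nat_lit 9006556154225002375282687)) (T.h (P (nat_lit 0)) (M (nat_lit 61164732654412627967)))) (T.h (P (nat_lit 0)) (P (nat_lit 1266676104530231296)))))) (T.h (T.h (P (nat_lit 0)) (T.h (T.h (P (nat_lit 0)) (T.h (P (nat_lit 105439491063623953940480)) (T.h (P (nat_lit 0)) (M (nat_lit 1299886296256544767))))) (T.h (P (nat_lit 0)) (T.h (T.h (P (nat_lit 0)) (P (nat_lit 66278057227649024))) (P (nat_lit 0)))))) (T.h (T.h (T.h (P (nat_lit 81730375620372399275376640)) (T.h (P (nat_lit 0)) (P (nat_lit 206597901249807384576)))) (T.h (P (nat_lit 0)) (M (nat_lit 17021114003566362623)))) (T.h (T.h (P (nat_lit 0)) (T.h (T.h (P (nat_lit 0)) (M (nat_lit 58584580132438015))) (P (nat_lit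 0)))) (M (nat_lit 34553789589269512191)))))), (P (nat_lit 0)), (P (nat_lit 0)), (T.h (T.h (P (nat_lit 0)) (T.h (T.h (P (nat_lit 0)) (T.h (M (nat_lit 41189532378361209735348223)) (T.h (P (nat_lit 0)) (T.h (P (nat_lit 486125676611887955968)) (T.h (P (nat_lit 0)) (P (nat_lit 410497940195888))))))) (T.h (P (nat_lit 0)) (T.h (T.h (P (nat_lit 0)) (T.h (M (nat_lit 46655078414092861439)) (T.h (P (nat_lit 0)) (M (nat_lit 1501100673922575))))) (T.h (P (nat_lit 0)) (T.h (T.h (P (nat_lit 0)) (M (nat_lit 34980200138519))) (P (nat_lit 0)))))))) (T.h (T.h (T.h (P (nat_lit 111178484058619237873389404160)) (T.h (P (nat_lit 0)) (T.h (P (nat_lit 40760733975397705711616)) (T.h (P (nat_lit 0)) (P (nat_lit 21188157654433792)))))) (T.h (P (nat_lit 0)) (T.h (T.h (M (nat_lit 115850023633569521336319)) (T.h (P (nat_lit 0)) (M (nat_lit 187280388125884415)))) (T.h (P (nat_lit 0)) (M (nat_lit 41342384774774783)))))) (T.h (T.h (P (nat_lit 0)) (T.h (T.h (P (nat_lit 0)) (T.h (M (nat_lit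 675868454042908753919)) (T.h (P (nat_lit 0)) (P (nat_lit 869756130706808))))) (T.h (P (nat_lit 0)) (T.h (T.h (P (nat_lit 0)) (P (nat_lit 674159898158272))) (P (nat_lit 0)))))) (T.h (T.h (T.h (M (nat_lit 137288147945334882959359)) (T.h (P (nat_lit 0)) (P (nat_lit 928411721710764032)))) (T.h (P (nat_lit 0)) (P (nat_lit 222497719356063744)))) (T.h (T.h (P (nat_lit 0)) (T.h (T.h (P (nat_lit 0)) (M (nat_lit 273236532926343))) (P (nat_lit 0)))) (P (nat_lit 4785968924459008)))))))]
def lP22_29 : List (T ℤ) := [(T.h (T.h (P (nat_lit 0)) (T.h (T.h (P (nat_lit 57994180896958734397274587136)) (T.h (P (nat_lit 0)) (T.h (P (nat_lit 414021819013039906619392)) (T.h (P (nat_lit 0)) (P (nat_lit 1427481727700271104)))))) (T.h (P (nat_lit 0)) (T.h (T.h (M (nat_lit 82052631822402672656383)) (T.h (P (nat_lit 0)) (M (nat_lit 278065717091827711)))) (T.h (P (nat_lit 0)) (P (nat_lit 18722625397096448))))))) (T.h (T.h (T.h (P (nat_lit 0)) (T.h (M (nat_lit 55183755610216487687553023))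 (T.h (P (nat_lit 0)) (T.h (M (nat_lit 408267799929229934591)) (T.h (P (nat_lit 0)) (M (nat_lit 288641118537471))))))) (T.h (P (nat_lit 0)) (T.h (T.h (P (nat_lit 0)) (T.h (M (nat_lit 710011158853058559999)) (T.h (P (nat_lit 0)) (P (nat_lit 63051125709488))))) (T.h (P (nat_lit 0)) (T.h (T.h (P (nat_lit 0)) (P (nat_lit 359069423341744))) (P (nat_lit 0))))))) (T.h (T.h (P (nat_lit 0)) (T.h (T.h (P (nat_lit 138365192951853861568512)) (T.h (P (nat_lit 0)) (M (nat_lit 2163235364009197567)))) (T.h (P (nat_lit 0)) (P (nat_lit 271140438034104320))))) (T.h (T.h (T.h (P (nat_lit 0)) (T.h (M (nat_lit 456867531302379716607)) (T.h (P (nat_lit 0)) (P (nat_lit 126251188707872))))) (T.h (P (nat_lit 0)) (T.h (T.h (P (nat_lit 0)) (P (nat_lit 155543897614848))) (P (nat_lit 0))))) (T.h (T.h (P (nat_lit 0)) (P (nat_lit 356404639466291200))) (T.h (T.h (T.h (P (nat_lit 0)) (M (nat_lit 251209558520975))) (P (nat_lit 0))) (P (nat_lit 0)))))))), (T.h (T.h (P (nat_lit 0)) (T.h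 (T.h (P (nat_lit 0)) (T.h (P (nat_lit 124450535264434341185323008)) (T.h (P (nat_lit 0)) (T.h (P (nat_lit 1322793846230740893696)) (T.h (P (nat_lit 0)) (M (nat_lit 410341142962623))))))) (T.h (P (nat_lit 0)) (T.h (T.h (P (nat_lit 0)) (T.h (M (nat_lit 1587920065444525899775)) (T.h (P (nat_lit 0)) (M (nat_lit 53232406546943))))) (T.h (P (nat_lit 0)) (T.h (T.h (P (nat_lit 0)) (M (nat_lit 156375227383679))) (P (nat_lit 0)))))))) (T.h (T.h (T.h (M (nat_lit 202341610778254602853670715391)) (T.h (P (nat_lit 0)) (T.h (M (nat_lit 1597998801319966791434239)) (T.h (P (nat_lit 0)) (M (nat_lit 3893759105025802239)))))) (T.h (P (nat_lit 0)) (T.h (T.h (P (nat_lit 358977257559124955103232)) (T.h (P (nat_lit 0)) (P (nat_lit 288359306200940544)))) (T.h (P (nat_lit 0)) (P (nat_lit 164258997652750336)))))) (T.h (T.h (P (nat_lit 0)) (T.h (T.h (P (nat_lit 0)) (T.h (P (nat_lit 561249849141891170304)) (T.h (P (nat_lit 0)) (M (nat_lit 2067042681160127))))) (T.h (P (nat_lit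 0)) (T.h (T.h (P (nat_lit 0)) (M (nat_lit 208364854628159))) (P (nat_lit 0)))))) (T.h (T.h (T.h (P (nat_lit 161510812024141449789440)) (T.h (P (nat_lit 0)) (M (nat_lit 1110157451269832703)))) (T.h (P (nat_lit 0)) (M (nat_lit 53510967238000639)))) (T.h (T.h (P (nat_lit 0)) (T.h (T.h (P (nat_lit 0)) (P (nat_lit 411036659739456))) (P (nat_lit 0)))) (M (nat_lit 268069805626327039))))))), (T.h (T.h (P (nat_lit 0)) (T.h (T.h (P (nat_lit 37733976243759071920511778816)) (T.h (P (nat_lit 0)) (T.h (M (nat_lit 105928191397868418891775)) (T.h (P (nat_lit 0)) (M (nat_lit 1943205583550349311)))))) (T.h (P (nat_lit 0)) (T.h (T.h (P (nat_lit 95309715969232930340864)) (T.h (P (nat_lit 0)) (M (nat_lit 430929109762064383)))) (T.h (P (nat_lit 0)) (M (nat_lit 12945520253370367))))))) (T.h (T.h (T.h (P (nat_lit 0)) (T.h (M (nat_lit 91940517910321038251524095)) (T.h (P (nat_lit 0)) (T.h (M (nat_lit 957154193937096769535)) (T.h (P (nat_lit 0)) (P (nat_lit 670685297729744)))))))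 (T.h (P (nat_lit 0)) (T.h (T.h (P (nat_lit 0)) (T.h (P (nat_lit 540657655911427342336)) (T.h (P (nat_lit 0)) (P (nat_lit 147268056746448))))) (T.h (P (nat_lit 0)) (T.h (T.h (P (nat_lit 0)) (M (nat_lit 789454083090111))) (P (nat_lit 0))))))) (T.h (T.h (P (nat_lit 0)) (T.h (T.h (P (nat_lit 17933390700028692004864)) (T.h (P (nat_lit 0)) (P (nat_lit 637723726440628224)))) (T.h (P (nat_lit 0)) (P (nat_lit 174450755079372800))))) (T.h (T.h (T.h (P (nat_lit 0)) (T.h (P (nat_lit 480448913009536925696)) (T.h (P (nat_lit 0)) (M (nat_lit 18296925976383))))) (T.h (P (nat_lit 0)) (T.h (T.h (P (nat_lit 0)) (P (nat_lit 237373323740080))) (P (nat_lit 0))))) (T.h (T.h (P (nat_lit 0)) (M (nat_lit 27484552792653823))) (T.h (T.h (T.h (P (nat_lit 0)) (M (nat_lit 177022880722159))) (P (nat_lit 0))) (P (nat_lit 0)))))))), (T.h (T.h (P (nat_lit 0)) (T.h (T.h (P (nat_lit 0)) (T.h (P (nat_lit 12210586735108523420549120)) (T.h (P (nat_lit 0)) (P (nat_lit 1989766113162893983744)))))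 (T.h (P (nat_lit 0)) (T.h (T.h (P (nat_lit 0)) (P (nat_lit 311851918521800851456))) (P (nat_lit 0)))))) (T.h (T.h (T.h (P (nat_lit 129916050405150065941358313472)) (T.h (P (nat_lit 0)) (T.h (P (nat_lit 838462254728880324608000)) (T.h (P (nat_lit 0)) (M (nat_lit 977882438642728959)))))) (T.h (P (nat_lit 0)) (T.h (T.h (M (nat_lit 259154547832480589676543)) (T.h (P (nat_lit 0)) (M (nat_lit 642023175975698431)))) (T.h (P (nat_lit 0)) (P (nat_lit 69747920851107840)))))) (T.h (T.h (P (nat_lit 0)) (T.h (T.h (P (nat_lit 0)) (P (nat_lit 416787428159103434752))) (P (nat_lit 0)))) (T.h (T.h (T.h (M (nat_lit 6714838454358308290559)) (T.h (P (nat_lit 0)) (P (nat_lit 113612820420362240)))) (T.h (P (nat_lit 0)) (M (nat_lit 80552271983345663)))) (T.h (P (nat_lit 0)) (P (nat_lit 60423203108683776))))))), (P (nat_lit 0)), (P (nat_lit 0)), (T.h (T.h (T.h (M (nat_lit 10677134915845016086041795231743)) (T.h (P (nat_lit 0)) (T.h (M (nat_lit 26886512860853551021162495)) (T.h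 (P (nat_lit 0)) (T.h (P (nat_lit 3634635453669310464)) (T.h (P (nat_lit 0)) (M (nat_lit 83858094054175)))))))) (T.h (P (nat_lit 0)) (T.h (T.h (M (nat_lit 170594560245177994887299071)) (T.h (P (nat_lit 0)) (T.h (P (nat_lit 44281650571529682944)) (T.h (P (nat_lit 0)) (M (nat_lit 665232243263807)))))) (T.h (P (nat_lit 0)) (T.h (T.h (P (nat_lit 69669518531524296704)) (T.h (P (nat_lit 0)) (P (nat_lit 886265207257184)))) (T.h (P (nat_lit 0)) (M (nat_lit 462544101866687)))))))) (T.h (T.h (P (nat_lit 0)) (T.h (T.h (P (nat_lit 0)) (T.h (M (nat_lit 491421155550159397978111)) (T.h (P (nat_lit 0)) (M (nat_lit 1042249217235222527))))) (T.h (P (nat_lit 0)) (T.h (T.h (P (nat_lit 0)) (M (nat_lit 1989392484117512191))) (P (nat_lit 0)))))) (T.h (T.h (T.h (M (nat_lit 26886512860853551021162495)) (T.h (P (nat_lit 0)) (T.h (M (nat_lit 229208813868960186367)) (T.h (P (nat_lit 0)) (M (nat_lit 134309146506911)))))) (T.h (P (nat_lit 0)) (T.h (T.h (P (nat_lit 44281650571529682944))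 (T.h (P (nat_lit 0)) (P (nat_lit 1155003099060480)))) (T.h (P (nat_lit 0)) (P (nat_lit 886265207257184)))))) (T.h (T.h (P (nat_lit 0)) (T.h (T.h (P (nat_lit 0)) (M (nat_lit 1042249217235222527))) (P (nat_lit 0)))) (T.h (T.h (T.h (P (nat_lit 3634635453669310464)) (T.h (P (nat_lit 0)) (M (nat_lit 134309146506911)))) (T.h (P (nat_lit 0)) (M (nat_lit 665232243263807)))) (T.h (P (nat_lit 0)) (M (nat_lit 83858094054175)))))))), (T.h (T.h (T.h (P (nat_lit 0)) (T.h (P (nat_lit 43277155415059202772708622336)) (T.h (P (nat_lit 0)) (T.h (M (nat_lit 254507504074819192750079)) (T.h (P (nat_lit 0)) (P (nat_lit 50133245051371520))))))) (T.h (P (nat_lit 0)) (T.h (T.h (P (nat_lit 0)) (T.h (P (nat_lit 170186113998269844553728)) (T.h (P (nat_lit 0)) (M (nat_lit 335012596202733567))))) (T.h (P (nat_lit 0)) (T.h (T.h (P (nat_lit 0)) (P (nat_lit 937968967112327168))) (P (nat_lit 0))))))) (T.h (T.h (P (nat_lit 0)) (T.h (T.h (M (nat_lit 71680159886675777702330367)) (T.h (P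 (nat_lit 0)) (T.h (M (nat_lit 235845349929507618815)) (T.h (P (nat_lit 0)) (P (nat_lit 375373675342624)))))) (T.h (P (nat_lit 0)) (T.h (T.h (M (nat_lit 552929872375034413055)) (T.h (P (nat_lit 0)) (P (nat_lit 284497740592896)))) (T.h (P (nat_lit 0)) (M (nat_lit 196060949436703))))))) (T.h (T.h (T.h (P (nat_lit 0)) (T.h (P (nat_lit 148186376742795959336960)) (T.h (P (nat_lit 0)) (M (nat_lit 159617239653646335))))) (T.h (P (nat_lit 0)) (T.h (T.h (P (nat_lit 0)) (M (nat_lit 1671646665212379135))) (P (nat_lit 0))))) (T.h (T.h (P (nat_lit 0)) (T.h (T.h (M (nat_lit 414865321548121636863)) (T.h (P (nat_lit 0)) (P (nat_lit 852961503396064)))) (T.h (P (nat_lit 0)) (P (nat_lit 74063858113264))))) (T.h (T.h (T.h (P (nat_lit 0)) (P (nat_lit 47304382030217216))) (P (nat_lit 0))) (T.h (T.h (P (nat_lit 0)) (M (nat_lit 238584807373775))) (P (nat_lit 0))))))))]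
def lP22_30 : List (T ℤ) := [(T.h (T.h (T.h (P (nat_lit 8672144251072055142269421879296)) (T.h (P (nat_lit 0)) (T.h (M (nat_lit 98174644956404253603135487)) (T.h (P (nat_lit 0)) (T.h (P (nat_lit 184313809258969825280)) (T.h (P (nat_lit 0)) (P (nat_lit 170268051335168)))))))) (T.h (P (nat_lit 0)) (T.h (T.h (P (nat_lit 52203338297337221887295488)) (T.h (P (nat_lit 0)) (T.h (M (nat_lit 494864817962816110591)) (T.h (P (nat_lit 0)) (P (nat_lit 219326478655680)))))) (T.h (P (nat_lit 0)) (T.h (T.h (P (nat_lit 182219310675538214912)) (T.h (P (nat_lit 0)) (P (nat_lit 1595243876387712)))) (T.h (P (nat_lit 0)) (P (nat_lit 138181558684160)))))))) (T.h (T.h (P (nat_lit 0)) (T.h (T.h (P (nat_lit 0)) (T.h (P (nat_lit 1827916960278311027605504)) (T.h (P (nat_lit 0)) (P (nat_lit 1867445329870454784))))) (T.h (P (nat_lit 0)) (T.h (T.h (P (nat_lit 0)) (P (nat_lit 2261587329154351104))) (P (nat_lit 0)))))) (T.h (T.h (T.h (P (nat_lit 282432436235834643670106112)) (T.h (P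 (nat_lit 0)) (T.h (P (nat_lit 253797208460602900480)) (T.h (P (nat_lit 0)) (M (nat_lit 33754948139007)))))) (T.h (P (nat_lit 0)) (T.h (T.h (P (nat_lit 319235676355883433984)) (T.h (P (nat_lit 0)) (M (nat_lit 1067173656779327)))) (T.h (P (nat_lit 0)) (M (nat_lit 38227661955583)))))) (T.h (T.h (P (nat_lit 0)) (T.h (T.h (P (nat_lit 0)) (M (nat_lit 2133192283411972095))) (P (nat_lit 0)))) (T.h (T.h (T.h (M (nat_lit 647444136297196683263)) (T.h (P (nat_lit 0)) (M (nat_lit 510290268200639)))) (T.h (P (nat_lit 0)) (P (nat_lit 96332119943040)))) (T.h (P (nat_lit 0)) (P (nat_lit 331124111819904)))))))), (T.h (T.h (T.h (P (nat_lit 0)) (T.h (M (nat_lit 72448995624061239553698037759)) (T.h (P (nat_lit 0)) (T.h (P (nat_lit 69246146877196261654528)) (T.h (P (nat_lit 0)) (P (nat_lit 361348267206017024))))))) (T.h (P (nat_lit 0)) (T.h (T.h (P (nat_lit 0)) (T.h (M (nat_lit 466222176649486289338367)) (T.h (P (nat_lit 0)) (P (nat_lit 470650442438574080))))) (T.h (P (nat_lit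 0)) (T.h (T.h (P (nat_lit 0)) (M (nat_lit 1387168308914126847))) (P (nat_lit 0))))))) (T.h (T.h (P (nat_lit 0)) (T.h (T.h (P (nat_lit 444985139041590106617020416)) (T.h (P (nat_lit 0)) (T.h (M (nat_lit 668698676219680391167)) (T.h (P (nat_lit 0)) (P (nat_lit 2660580647972544)))))) (T.h (P (nat_lit 0)) (T.h (T.h (M (nat_lit 864773674999394336767)) (T.h (P (nat_lit 0)) (M (nat_lit 3828721340270815)))) (T.h (P (nat_lit 0)) (P (nat_lit 700214402795952))))))) (T.h (T.h (T.h (P (nat_lit 0)) (T.h (M (nat_lit 197261400509007576170495)) (T.h (P (nat_lit 0)) (P (nat_lit 1047532029243785216))))) (T.h (P (nat_lit 0)) (T.h (T.h (P (nat_lit 0)) (P (nat_lit 1504122155887214592))) (P (nat_lit 0))))) (T.h (T.h (P (nat_lit 0)) (T.h (T.h (M (nat_lit 779446746063885565951)) (T.h (P (nat_lit 0)) (M (nat_lit 4059930768341535)))) (T.h (P (nat_lit 0)) (P (nat_lit 474431785971440))))) (T.h (T.h (T.h (P (nat_lit 0)) (M (nat_lit 420794558438981631))) (P (nat_lit 0))) (T.h (T.h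 (P (nat_lit 0)) (P (nat_lit 638079114501312))) (P (nat_lit 0)))))))), (T.h (T.h (T.h (M (nat_lit 27090461416385597190112410599423)) (T.h (P (nat_lit 0)) (T.h (P (nat_lit 162031074772779359918882816)) (T.h (P (nat_lit 0)) (P (nat_lit 99693049936091283456)))))) (T.h (P (nat_lit 0)) (T.h (T.h (M (nat_lit 19599926762324988130230271)) (T.h (P (nat_lit 0)) (P (nat_lit 360413849700880351232)))) (T.h (P (nat_lit 0)) (P (nat_lit 201899917648039247872)))))) (T.h (T.h (P (nat_lit 0)) (T.h (T.h (P (nat_lit 0)) (T.h (M (nat_lit 1129105501571561629417471)) (T.h (P (nat_lit 0)) (M (nat_lit 1898189059348430847))))) (T.h (P (nat_lit 0)) (T.h (T.h (P (nat_lit 0)) (P (nat_lit 1960912070372753408))) (P (nat_lit 0)))))) (T.h (T.h (T.h (M (nat_lit 110336858536922389780889599)) (T.h (P (nat_lit 0)) (P (nat_lit 92651215796660338688)))) (T.h (P (nat_lit 0)) (M (nat_lit 227475733942231891967)))) (T.h (T.h (P (nat_lit 0)) (T.h (T.h (P (nat_lit 0)) (P (nat_lit 2085774707732840448)))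 (P (nat_lit 0)))) (P (nat_lit 237720383341838991360)))))), (P (nat_lit 0)), (P (nat_lit 0)), (T.h (T.h (P (nat_lit 0)) (T.h (T.h (P (nat_lit 0)) (T.h (M (nat_lit 135375362320327097479856127)) (T.h (P (nat_lit 0)) (T.h (P (nat_lit 73970947616961200128)) (T.h (P (nat_lit 0)) (P (nat_lit 65624005949104))))))) (T.h (P (nat_lit 0)) (T.h (T.h (P (nat_lit 0)) (T.h (M (nat_lit 155606382169957597183)) (T.h (P (nat_lit 0)) (P (nat_lit 250958008136960))))) (T.h (P (nat_lit 0)) (T.h (T.h (P (nat_lit 0)) (P (nat_lit 209652406465312))) (P (nat_lit 0)))))))) (T.h (T.h (T.h (M (nat_lit 2701803597464350379122622463)) (T.h (P (nat_lit 0)) (T.h (M (nat_lit 87112788446216649179135)) (T.h (P (nat_lit 0)) (M (nat_lit 20265644861390847)))))) (T.h (P (nat_lit 0)) (T.h (T.h (P (nat_lit 130791519240976360013824)) (T.h (P (nat_lit 0)) (M (nat_lit 204153046309240831)))) (T.h (P (nat_lit 0)) (P (nat_lit 367126490482573312)))))) (T.h (T.h (P (nat_lit 0)) (T.h (T.h (P (nat_lit 0))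 (T.h (M (nat_lit 123741823817952002047)) (T.h (P (nat_lit 0)) (P (nat_lit 229864588273376))))) (T.h (P (nat_lit 0)) (T.h (T.h (P (nat_lit 0)) (P (nat_lit 746115527544112))) (P (nat_lit 0)))))) (T.h (T.h (T.h (P (nat_lit 42408897784464348807168)) (T.h (P (nat_lit 0)) (P (nat_lit 89162228750811136)))) (T.h (P (nat_lit 0)) (P (nat_lit 32593169109319680)))) (T.h (T.h (P (nat_lit 0)) (T.h (T.h (P (nat_lit 0)) (M (nat_lit 297684511264999))) (P (nat_lit 0)))) (P (nat_lit 67411441131356160))))))), (T.h (T.h (P (nat_lit 0)) (T.h (T.h (P (nat_lit 331315366373518868555497472)) (T.h (P (nat_lit 0)) (T.h (P (nat_lit 3943045166463602130944)) (T.h (P (nat_lit 0)) (P (nat_lit 552500136685928448)))))) (T.h (P (nat_lit 0)) (T.h (T.h (M (nat_lit 303050861242745637306367)) (T.h (P (nat_lit 0)) (M (nat_lit 831040885806137343)))) (T.h (P (nat_lit 0)) (M (nat_lit 9532603432566783))))))) (T.h (T.h (T.h (P (nat_lit 0)) (T.h (M (nat_lit 139285893050371934072602623)) (T.h (P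 (nat_lit 0)) (T.h (M (nat_lit 77157487730600443903)) (T.h (P (nat_lit 0)) (M (nat_lit 1532119905423))))))) (T.h (P (nat_lit 0)) (T.h (T.h (P (nat_lit 0)) (T.h (P (nat_lit 797514584793605472256)) (T.h (P (nat_lit 0)) (P (nat_lit 859487121822080))))) (T.h (P (nat_lit 0)) (T.h (T.h (P (nat_lit 0)) (P (nat_lit 40938352532672))) (P (nat_lit 0))))))) (T.h (T.h (P (nat_lit 0)) (T.h (T.h (P (nat_lit 3943045166463602130944)) (T.h (P (nat_lit 0)) (P (nat_lit 55394378035003392)))) (T.h (P (nat_lit 0)) (M (nat_lit 831040885806137343))))) (T.h (T.h (T.h (P (nat_lit 0)) (T.h (M (nat_lit 77157487730600443903)) (T.h (P (nat_lit 0)) (M (nat_lit 90951640090911))))) (T.h (P (nat_lit 0)) (T.h (T.h (P (nat_lit 0)) (P (nat_lit 859487121822080))) (P (nat_lit 0))))) (T.h (T.h (P (nat_lit 0)) (P (nat_lit 552500136685928448))) (T.h (T.h (T.h (P (nat_lit 0)) (M (nat_lit 1532119905423))) (P (nat_lit 0))) (P (nat_lit 0)))))))), (T.h (T.h (P (nat_lit 0)) (T.h (T.h (P (nat_lit 0))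 (T.h (M (nat_lit 305341496380382908069707775)) (T.h (P (nat_lit 0)) (T.h (M (nat_lit 1530808288139588665343)) (T.h (P (nat_lit 0)) (P (nat_lit 237508116720640))))))) (T.h (P (nat_lit 0)) (T.h (T.h (P (nat_lit 0)) (T.h (P (nat_lit 195462500300215025664)) (T.h (P (nat_lit 0)) (M (nat_lit 861174941379135))))) (T.h (P (nat_lit 0)) (T.h (T.h (P (nat_lit 0)) (M (nat_lit 10379191674367))) (P (nat_lit 0)))))))) (T.h (T.h (T.h (P (nat_lit 62643655476449485939370098688)) (T.h (P (nat_lit 0)) (T.h (P (nat_lit 369848850225058518401024)) (T.h (P (nat_lit 0)) (P (nat_lit 356312655989800960)))))) (T.h (P (nat_lit 0)) (T.h (T.h (P (nat_lit 950643573431573778792448)) (T.h (P (nat_lit 0)) (M (nat_lit 1184918964387414015)))) (T.h (P (nat_lit 0)) (M (nat_lit 232229606802161663)))))) (T.h (T.h (P (nat_lit 0)) (T.h (T.h (P (nat_lit 0)) (T.h (P (nat_lit 2558449103850272980992)) (T.h (P (nat_lit 0)) (P (nat_lit 3736984602240))))) (T.h (P (nat_lit 0)) (T.h (T.h (P (nat_lit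 0)) (M (nat_lit 1485327107605247))) (P (nat_lit 0)))))) (T.h (T.h (T.h (P (nat_lit 287654487705655938383872)) (T.h (P (nat_lit 0)) (P (nat_lit 136851684765433856)))) (T.h (P (nat_lit 0)) (M (nat_lit 774131983532556287)))) (T.h (T.h (P (nat_lit 0)) (T.h (T.h (P (nat_lit 0)) (M (nat_lit 676794945140223))) (P (nat_lit 0)))) (M (nat_lit 174897995144101887)))))))]
def lP22_31 : List (T ℤ) := [(T.h (T.h (P (nat_lit 0)) (T.h (T.h (M (nat_lit 51498733683589352236464996351)) (T.h (P (nat_lit 0)) (T.h (M (nat_lit 121919307147249805426687)) (T.h (P (nat_lit 0)) (M (nat_lit 1612725140369457151)))))) (T.h (P (nat_lit 0)) (T.h (T.h (P (nat_lit 225288650562591942246400)) (T.h (P (nat_lit 0)) (M (nat_lit 947020992432717823)))) (T.h (P (nat_lit 0)) (M (nat_lit 106478721017135103))))))) (T.h (T.h (T.h (P (nat_lit 0)) (T.h (P (nat_lit 272424232745593113487081472)) (T.h (P (nat_lit 0)) (T.h (M (nat_lit 786378330991149187071)) (T.h (P (nat_lit 0)) (P (nat_lit 655659257804496)))))))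 (T.h (P (nat_lit 0)) (T.h (T.h (P (nat_lit 0)) (T.h (M (nat_lit 700055577696789331967)) (T.h (P (nat_lit 0)) (M (nat_lit 4341126166089503))))) (T.h (P (nat_lit 0)) (T.h (T.h (P (nat_lit 0)) (P (nat_lit 834357742763952))) (P (nat_lit 0))))))) (T.h (T.h (P (nat_lit 0)) (T.h (T.h (M (nat_lit 775160589488257492844543)) (T.h (P (nat_lit 0)) (P (nat_lit 2380572877393657856)))) (T.h (P (nat_lit 0)) (P (nat_lit 682313104949608448))))) (T.h (T.h (T.h (P (nat_lit 0)) (T.h (M (nat_lit 753278779481992986623)) (T.h (P (nat_lit 0)) (P (nat_lit 373288598706320))))) (T.h (P (nat_lit 0)) (T.h (T.h (P (nat_lit 0)) (M (nat_lit 4816364778717183))) (P (nat_lit 0))))) (T.h (T.h (P (nat_lit 0)) (M (nat_lit 671799880567799807))) (T.h (T.h (T.h (P (nat_lit 0)) (P (nat_lit 355868859043104))) (P (nat_lit 0))) (P (nat_lit 0)))))))), (T.h (T.h (P (nat_lit 0)) (T.h (T.h (P (nat_lit 0)) (T.h (P (nat_lit 325586501371689684210548736)) (T.h (P (nat_lit 0)) (P (nat_lit 725574408706616983552)))))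 (T.h (P (nat_lit 0)) (T.h (T.h (P (nat_lit 0)) (P (nat_lit 570095336763246510080))) (P (nat_lit 0)))))) (T.h (T.h (T.h (M (nat_lit 377033689143862434681109610495)) (T.h (P (nat_lit 0)) (T.h (M (nat_lit 151626256699107238215679)) (T.h (P (nat_lit 0)) (M (nat_lit 972199071289606143)))))) (T.h (P (nat_lit 0)) (T.h (T.h (M (nat_lit 350492722377713201971199)) (T.h (P (nat_lit 0)) (P (nat_lit 5896000038046662656)))) (T.h (P (nat_lit 0)) (M (nat_lit 868595833875202047)))))) (T.h (T.h (P (nat_lit 0)) (T.h (T.h (P (nat_lit 0)) (M (nat_lit 2568905051824067706879))) (P (nat_lit 0)))) (T.h (T.h (T.h (P (nat_lit 41832751533718155296768)) (T.h (P (nat_lit 0)) (M (nat_lit 54969389306445823)))) (T.h (P (nat_lit 0)) (P (nat_lit 28629531151597568)))) (T.h (P (nat_lit 0)) (M (nat_lit 197302190041595903))))))), (P (nat_lit 0)), (T.h (T.h (T.h (M (nat_lit 3050221165982965858891387109375)) (T.h (P (nat_lit 0)) (T.h (P (nat_lit 9117757203258986322722816)) (T.h (P (nat_lit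 0)) (T.h (P (nat_lit 3026623075966779392)) (T.h (P (nat_lit 0)) (P (nat_lit 4793578431152)))))))) (T.h (P (nat_lit 0)) (T.h (T.h (M (nat_lit 10781205320472671966724095)) (T.h (P (nat_lit 0)) (T.h (P (nat_lit 34309527410996936704)) (T.h (P (nat_lit 0)) (P (nat_lit 106079842663632)))))) (T.h (P (nat_lit 0)) (T.h (T.h (M (nat_lit 127519819597720059903)) (T.h (P (nat_lit 0)) (M (nat_lit 178724609607039)))) (T.h (P (nat_lit 0)) (P (nat_lit 91885726740320)))))))) (T.h (T.h (P (nat_lit 0)) (T.h (T.h (P (nat_lit 0)) (T.h (M (nat_lit 36962998555645520642047)) (T.h (P (nat_lit 0)) (M (nat_lit 28969748299710463))))) (T.h (P (nat_lit 0)) (T.h (T.h (P (nat_lit 0)) (M (nat_lit 106571254110420991))) (P (nat_lit 0)))))) (T.h (T.h (T.h (P (nat_lit 11271137998804260396990464)) (T.h (P (nat_lit 0)) (T.h (M (nat_lit 11974111649612169215)) (T.h (P (nat_lit 0)) (M (nat_lit 3296272730431)))))) (T.h (P (nat_lit 0)) (T.h (T.h (M (nat_lit 22808272842543595519)) (T.h (P (nat_lit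 0)) (P (nat_lit 129124711451760)))) (T.h (P (nat_lit 0)) (M (nat_lit 573700470264399)))))) (T.h (T.h (P (nat_lit 0)) (T.h (T.h (P (nat_lit 0)) (P (nat_lit 6628057925877760))) (P (nat_lit 0)))) (T.h (T.h (T.h (M (nat_lit 34847022814194565119)) (T.h (P (nat_lit 0)) (P (nat_lit 45205290417088)))) (T.h (P (nat_lit 0)) (M (nat_lit 253534071292367)))) (T.h (P (nat_lit 0)) (P (nat_lit 52247510850896)))))))), (T.h (T.h (T.h (P (nat_lit 0)) (T.h (P (nat_lit 15380115727653131485035102208)) (T.h (P (nat_lit 0)) (T.h (P (nat_lit 23791495973334847324160)) (T.h (P (nat_lit 0)) (M (nat_lit 26364715809570815))))))) (T.h (P (nat_lit 0)) (T.h (T.h (P (nat_lit 0)) (T.h (P (nat_lit 216780055610455473782784)) (T.h (P (nat_lit 0)) (M (nat_lit 484054019528278015))))) (T.h (P (nat_lit 0)) (T.h (T.h (P (nat_lit 0)) (P (nat_lit 1247862232905646080))) (P (nat_lit 0))))))) (T.h (T.h (P (nat_lit 0)) (T.h (T.h (P (nat_lit 17379666816507119761620992)) (T.h (P (nat_lit 0)) (T.h (M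 (nat_lit 178655606925126795263)) (T.h (P (nat_lit 0)) (P (nat_lit 37646666864368)))))) (T.h (P (nat_lit 0)) (T.h (T.h (M (nat_lit 780718172717187071999)) (T.h (P (nat_lit 0)) (M (nat_lit 214678815772191)))) (T.h (P (nat_lit 0)) (M (nat_lit 66454312782383))))))) (T.h (T.h (T.h (P (nat_lit 0)) (T.h (M (nat_lit 11973165008297945726975)) (T.h (P (nat_lit 0)) (P (nat_lit 148820429166133248))))) (T.h (P (nat_lit 0)) (T.h (T.h (P (nat_lit 0)) (M (nat_lit 609359773776707583))) (P (nat_lit 0))))) (T.h (T.h (P (nat_lit 0)) (T.h (T.h (P (nat_lit 11789433114952990720)) (T.h (P (nat_lit 0)) (P (nat_lit 34912500471408)))) (T.h (P (nat_lit 0)) (P (nat_lit 353039296888688))))) (T.h (T.h (T.h (P (nat_lit 0)) (P (nat_lit 146359645562765312))) (P (nat_lit 0))) (T.h (T.h (P (nat_lit 0)) (M (nat_lit 55568670508703))) (P (nat_lit 0)))))))), (T.h (T.h (T.h (M (nat_lit 17636706048359863470403769860095)) (T.h (P (nat_lit 0)) (T.h (M (nat_lit 68092611027882501256249343)) (T.h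 (P (nat_lit 0)) (T.h (P (nat_lit 52619288293568151552)) (T.h (P (nat_lit 0)) (M (nat_lit 160954619470975)))))))) (T.h (P (nat_lit 0)) (T.h (T.h (P (nat_lit 333732033007599774670520320)) (T.h (P (nat_lit 0)) (T.h (M (nat_lit 350371070517081800703)) (T.h (P (nat_lit 0)) (P (nat_lit 1171677425673536)))))) (T.h (P (nat_lit 0)) (T.h (T.h (M (nat_lit 367160996929212514303)) (T.h (P (nat_lit 0)) (P (nat_lit 272295348003136)))) (T.h (P (nat_lit 0)) (M (nat_lit 289724187304703)))))))) (T.h (T.h (P (nat_lit 0)) (T.h (T.h (P (nat_lit 0)) (T.h (M (nat_lit 393495445805633405714431)) (T.h (P (nat_lit 0)) (P (nat_lit 117741655567564800))))) (T.h (P (nat_lit 0)) (T.h (T.h (P (nat_lit 0)) (M (nat_lit 706739742689460223))) (P (nat_lit 0)))))) (T.h (T.h (T.h (M (nat_lit 68092611027882501256249343)) (T.h (P (nat_lit 0)) (T.h (P (nat_lit 233296241049410207744)) (T.h (P (nat_lit 0)) (P (nat_lit 144828275473920)))))) (T.h (P (nat_lit 0)) (T.h (T.h (M (nat_lit 350371070517081800703))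 (T.h (P (nat_lit 0)) (P (nat_lit 1330661983622784)))) (T.h (P (nat_lit 0)) (P (nat_lit 272295348003136)))))) (T.h (T.h (P (nat_lit 0)) (T.h (T.h (P (nat_lit 0)) (P (nat_lit 117741655567564800))) (P (nat_lit 0)))) (T.h (T.h (T.h (P (nat_lit 52619288293568151552)) (T.h (P (nat_lit 0)) (P (nat_lit 144828275473920)))) (T.h (P (nat_lit 0)) (P (nat_lit 1171677425673536)))) (T.h (P (nat_lit 0)) (M (nat_lit 160954619470975)))))))), (T.h (T.h (T.h (P (nat_lit 0)) (T.h (P (nat_lit 54332242541957806865850040320)) (T.h (P (nat_lit 0)) (T.h (P (nat_lit 232429605756821879914496)) (T.h (P (nat_lit 0)) (M (nat_lit 25360039011237887))))))) (T.h (P (nat_lit 0)) (T.h (T.h (P (nat_lit 0)) (T.h (P (nat_lit 174146129207516448423936)) (T.h (P (nat_lit 0)) (M (nat_lit 2490888803706617855))))) (T.h (P (nat_lit 0)) (T.h (T.h (P (nat_lit 0)) (M (nat_lit 457285292616204287))) (P (nat_lit 0))))))) (T.h (T.h (P (nat_lit 0)) (T.h (T.h (M (nat_lit 226576445221383062727688191)) (T.h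 (P (nat_lit 0)) (T.h (P (nat_lit 434979439076475666432)) (T.h (P (nat_lit 0)) (M (nat_lit 786410889423631)))))) (T.h (P (nat_lit 0)) (T.h (T.h (M (nat_lit 1196022857367273078783)) (T.h (P (nat_lit 0)) (M (nat_lit 360597627729327)))) (T.h (P (nat_lit 0)) (P (nat_lit 475151156836224))))))) (T.h (T.h (T.h (P (nat_lit 0)) (T.h (M (nat_lit 405458993047623369228287)) (T.h (P (nat_lit 0)) (P (nat_lit 9917964440911872))))) (T.h (P (nat_lit 0)) (T.h (T.h (P (nat_lit 0)) (P (nat_lit 1033407023379251200))) (P (nat_lit 0))))) (T.h (T.h (P (nat_lit 0)) (T.h (T.h (P (nat_lit 490315886064140550144)) (T.h (P (nat_lit 0)) (M (nat_lit 330388936005567)))) (T.h (P (nat_lit 0)) (M (nat_lit 330682858573759))))) (T.h (T.h (T.h (P (nat_lit 0)) (M (nat_lit 49825124056350719))) (P (nat_lit 0))) (T.h (T.h (P (nat_lit 0)) (M (nat_lit 405142020864415))) (P (nat_lit 0)))))))), (T.h (T.h (T.h (P (nat_lit 9431356806008164362888463515648)) (T.h (P (nat_lit 0)) (T.h (M (nat_lit 164393955999626290582781951))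 (T.h (P (nat_lit 0)) (P (nat_lit 335746420760794628096)))))) (T.h (P (nat_lit 0)) (T.h (T.h (P (nat_lit 118941544028583319870373888)) (T.h (P (nat_lit 0)) (P (nat_lit 1310144403147484823552)))) (T.h (P (nat_lit 0)) (P (nat_lit 70264016489016197120)))))) (T.h (T.h (P (nat_lit 0)) (T.h (T.h (P (nat_lit 0)) (T.h (M (nat_lit 1978089946966143371575295)) (T.h (P (nat_lit 0)) (P (nat_lit 1897252586358046720))))) (T.h (P (nat_lit 0)) (T.h (T.h (P (nat_lit 0)) (M (nat_lit 603771901767450623))) (P (nat_lit 0)))))) (T.h (T.h (T.h (M (nat_lit 68311294616328140016844799)) (T.h (P (nat_lit 0)) (M (nat_lit 354375818373150801919)))) (T.h (P (nat_lit 0)) (M (nat_lit 48279662455234232319)))) (T.h (T.h (P (nat_lit 0)) (T.h (T.h (P (nat_lit 0)) (P (nat_lit 2720794459306983424))) (P (nat_lit 0)))) (P (nat_lit 288451859077039915008))))))]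
def lP22_32 : List (T ℤ) := [(T.h (T.h (P (nat_lit 0)) (T.h (T.h (P (nat_lit 0)) (T.h (M (nat_lit 122639602115953821745151)) (T.h (P (nat_lit 0)) (T.h (P (nat_lit 2240755757060456448)) (T.h (P (nat_lit 0)) (M (nat_lit 3482561271999))))))) (T.h (P (nat_lit 0)) (T.h (T.h (P (nat_lit 0)) (T.h (P (nat_lit 23265789879055810560)) (T.h (P (nat_lit 0)) (M (nat_lit 20913852849103))))) (T.h (P (nat_lit 0)) (T.h (T.h (P (nat_lit 0)) (M (nat_lit 36276789813271))) (P (nat_lit 0)))))))) (T.h (T.h (T.h (P (nat_lit 13204927875378715774934843392)) (T.h (P (nat_lit 0)) (T.h (P (nat_lit 3282297356631899373568)) (T.h (P (nat_lit 0)) (M (nat_lit 2513831367540735)))))) (T.h (P (nat_lit 0)) (T.h (T.h (P (nat_lit 13539892843789789691904)) (T.h (P (nat_lit 0)) (M (nat_lit 21109903815409663)))) (T.h (P (nat_lit 0)) (M (nat_lit 11870878074175487)))))) (T.h (T.h (P (nat_lit 0)) (T.h (T.h (P (nat_lit 0)) (T.h (P (nat_lit 17277838074277003264)) (T.h (P (nat_lit 0)) (M (nat_lit 4134781533415)))))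 (T.h (P (nat_lit 0)) (T.h (T.h (P (nat_lit 0)) (M (nat_lit 33347038321839))) (P (nat_lit 0)))))) (T.h (T.h (T.h (M (nat_lit 590497161174321201151)) (T.h (P (nat_lit 0)) (M (nat_lit 7315163158740991)))) (T.h (P (nat_lit 0)) (M (nat_lit 27032684399165439)))) (T.h (T.h (P (nat_lit 0)) (T.h (T.h (P (nat_lit 0)) (M (nat_lit 26065790100687))) (P (nat_lit 0)))) (M (nat_lit 17312308370309119))))))), (T.h (T.h (P (nat_lit 0)) (T.h (T.h (M (nat_lit 10568642270593862374394953727)) (T.h (P (nat_lit 0)) (T.h (P (nat_lit 8179832511665811750912)) (T.h (P (nat_lit 0)) (P (nat_lit 42281017820037120)))))) (T.h (P (nat_lit 0)) (T.h (T.h (P (nat_lit 140262297202309164171264)) (T.h (P (nat_lit 0)) (P (nat_lit 126396749802356736)))) (T.h (P (nat_lit 0)) (M (nat_lit 263332630997860351))))))) (T.h (T.h (T.h (P (nat_lit 0)) (T.h (P (nat_lit 11439208824090017958723584)) (T.h (P (nat_lit 0)) (T.h (M (nat_lit 25606197467787821055)) (T.h (P (nat_lit 0)) (M (nat_lit 9359451847407)))))))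 (T.h (P (nat_lit 0)) (T.h (T.h (P (nat_lit 0)) (T.h (P (nat_lit 167073992415295569920)) (T.h (P (nat_lit 0)) (P (nat_lit 13668783183072))))) (T.h (P (nat_lit 0)) (T.h (T.h (P (nat_lit 0)) (M (nat_lit 216448194887871))) (P (nat_lit 0))))))) (T.h (T.h (P (nat_lit 0)) (T.h (T.h (P (nat_lit 8179832511665811750912)) (T.h (P (nat_lit 0)) (M (nat_lit 83790289926193151)))) (T.h (P (nat_lit 0)) (P (nat_lit 126396749802356736))))) (T.h (T.h (T.h (P (nat_lit 0)) (T.h (M (nat_lit 25606197467787821055)) (T.h (P (nat_lit 0)) (M (nat_lit 9080975901567))))) (T.h (P (nat_lit 0)) (T.h (T.h (P (nat_lit 0)) (P (nat_lit 13668783183072))) (P (nat_lit 0))))) (T.h (T.h (P (nat_lit 0)) (P (nat_lit 42281017820037120))) (T.h (T.h (T.h (P (nat_lit 0)) (M (nat_lit 9359451847407))) (P (nat_lit 0))) (P (nat_lit 0)))))))), (T.h (T.h (P (nat_lit 0)) (T.h (T.h (P (nat_lit 0)) (T.h (P (nat_lit 78643091181592859119714304)) (T.h (P (nat_lit 0)) (T.h (M (nat_lit 94555034986383147007)) (T.h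 (P (nat_lit 0)) (M (nat_lit 44899184523903))))))) (T.h (P (nat_lit 0)) (T.h (T.h (P (nat_lit 0)) (T.h (M (nat_lit 490118295586210840575)) (T.h (P (nat_lit 0)) (M (nat_lit 742633037618623))))) (T.h (P (nat_lit 0)) (T.h (T.h (P (nat_lit 0)) (P (nat_lit 51752019734528))) (P (nat_lit 0)))))))) (T.h (T.h (T.h (P (nat_lit 16668059683528823549844258816)) (T.h (P (nat_lit 0)) (T.h (P (nat_lit 20938238415108967497728)) (T.h (P (nat_lit 0)) (P (nat_lit 400568970346496)))))) (T.h (P (nat_lit 0)) (T.h (T.h (P (nat_lit 349617350202979222814720)) (T.h (P (nat_lit 0)) (M (nat_lit 336951512124850175)))) (T.h (P (nat_lit 0)) (P (nat_lit 2397534844890349568)))))) (T.h (T.h (P (nat_lit 0)) (T.h (T.h (P (nat_lit 0)) (T.h (M (nat_lit 117641187764599783423)) (T.h (P (nat_lit 0)) (M (nat_lit 113277908187199))))) (T.h (P (nat_lit 0)) (T.h (T.h (P (nat_lit 0)) (M (nat_lit 29409860822207))) (P (nat_lit 0)))))) (T.h (T.h (T.h (M (nat_lit 228711732591196530278399)) (T.h (P (nat_lit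 0)) (P (nat_lit 134406886334005248)))) (T.h (P (nat_lit 0)) (M (nat_lit 925108444240871423)))) (T.h (T.h (P (nat_lit 0)) (T.h (T.h (P (nat_lit 0)) (M (nat_lit 170850741107391))) (P (nat_lit 0)))) (P (nat_lit 288226290564268032))))))), (T.h (T.h (P (nat_lit 0)) (T.h (T.h (P (nat_lit 35408779058237194496632684544)) (T.h (P (nat_lit 0)) (T.h (P (nat_lit 89098204011013234229248)) (T.h (P (nat_lit 0)) (M (nat_lit 309177889667301375)))))) (T.h (P (nat_lit 0)) (T.h (T.h (M (nat_lit 161225207131123774128127)) (T.h (P (nat_lit 0)) (M (nat_lit 53497933747453951)))) (T.h (P (nat_lit 0)) (P (nat_lit 1104398522254360576))))))) (T.h (T.h (T.h (P (nat_lit 0)) (T.h (P (nat_lit 181111108326985304968790016)) (T.h (P (nat_lit 0)) (T.h (M (nat_lit 56953247612568338431)) (T.h (P (nat_lit 0)) (P (nat_lit 283838634634192))))))) (T.h (P (nat_lit 0)) (T.h (T.h (P (nat_lit 0)) (T.h (P (nat_lit 76277699546884079616)) (T.h (P (nat_lit 0)) (P (nat_lit 492380521021664))))) (T.h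 (P (nat_lit 0)) (T.h (T.h (P (nat_lit 0)) (P (nat_lit 3764636071160448))) (P (nat_lit 0))))))) (T.h (T.h (P (nat_lit 0)) (T.h (T.h (P (nat_lit 89098204011013234229248)) (T.h (P (nat_lit 0)) (M (nat_lit 542176237411598335)))) (T.h (P (nat_lit 0)) (M (nat_lit 53497933747453951))))) (T.h (T.h (T.h (P (nat_lit 0)) (T.h (M (nat_lit 56953247612568338431)) (T.h (P (nat_lit 0)) (M (nat_lit 50109655190495))))) (T.h (P (nat_lit 0)) (T.h (T.h (P (nat_lit 0)) (P (nat_lit 492380521021664))) (P (nat_lit 0))))) (T.h (T.h (P (nat_lit 0)) (M (nat_lit 309177889667301375))) (T.h (T.h (T.h (P (nat_lit 0)) (P (nat_lit 283838634634192))) (P (nat_lit 0))) (P (nat_lit 0)))))))), (T.h (T.h (P (nat_lit 0)) (T.h (T.h (P (nat_lit 0)) (T.h (P (nat_lit 250268644846211475984875520)) (T.h (P (nat_lit 0)) (P (nat_lit 606120902321160323072))))) (T.h (P (nat_lit 0)) (T.h (T.h (P (nat_lit 0)) (P (nat_lit 705506721799809794048))) (P (nat_lit 0)))))) (T.h (T.h (T.h (P (nat_lit 146032963074621426709357920256))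 (T.h (P (nat_lit 0)) (T.h (M (nat_lit 392707064808358482542591)) (T.h (P (nat_lit 0)) (M (nat_lit 239694345730588671)))))) (T.h (P (nat_lit 0)) (T.h (T.h (P (nat_lit 1156061246247929066291200)) (T.h (P (nat_lit 0)) (M (nat_lit 201991493659361279)))) (T.h (P (nat_lit 0)) (M (nat_lit 1049521667825401855)))))) (T.h (T.h (P (nat_lit 0)) (T.h (T.h (P (nat_lit 0)) (M (nat_lit 329954917730706522111))) (P (nat_lit 0)))) (T.h (T.h (T.h (M (nat_lit 67571660984610788999167)) (T.h (P (nat_lit 0)) (M (nat_lit 31580471776182271)))) (T.h (P (nat_lit 0)) (P (nat_lit 173085373524672512)))) (T.h (P (nat_lit 0)) (P (nat_lit 88359397427150848))))))), (T.h (T.h (T.h (P (nat_lit 0)) (T.h (P (nat_lit 825243808494547520458850304)) (T.h (P (nat_lit 0)) (T.h (P (nat_lit 452590592553853648896)) (T.h (P (nat_lit 0)) (P (nat_lit 2367037161553920))))))) (T.h (P (nat_lit 0)) (T.h (T.h (P (nat_lit 0)) (T.h (M (nat_lit 26344594233526511992831)) (T.h (P (nat_lit 0)) (M (nat_lit 39437525538734079)))))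 (T.h (P (nat_lit 0)) (T.h (T.h (P (nat_lit 0)) (M (nat_lit 391640158868422655))) (P (nat_lit 0))))))) (T.h (T.h (P (nat_lit 0)) (T.h (T.h (M (nat_lit 3746786908111961168281599)) (T.h (P (nat_lit 0)) (T.h (P (nat_lit 6725667058576523264)) (T.h (P (nat_lit 0)) (M (nat_lit 14115448294655)))))) (T.h (P (nat_lit 0)) (T.h (T.h (P (nat_lit 150605351395472179200)) (T.h (P (nat_lit 0)) (P (nat_lit 20853968390928)))) (T.h (P (nat_lit 0)) (P (nat_lit 126624751875824))))))) (T.h (T.h (T.h (P (nat_lit 0)) (T.h (M (nat_lit 4538456619322401882111)) (T.h (P (nat_lit 0)) (M (nat_lit 18297077188886527))))) (T.h (P (nat_lit 0)) (T.h (T.h (P (nat_lit 0)) (M (nat_lit 9636131581935615))) (P (nat_lit 0))))) (T.h (T.h (P (nat_lit 0)) (T.h (T.h (P (nat_lit 21421683604952449024)) (T.h (P (nat_lit 0)) (M (nat_lit 4256921589567)))) (T.h (P (nat_lit 0)) (M (nat_lit 29896136530671))))) (T.h (T.h (T.h (P (nat_lit 0)) (P (nat_lit 1673160524251136))) (P (nat_lit 0))) (T.h (T.h (P (nat_lit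 0)) (P (nat_lit 7351350546784))) (P (nat_lit 0)))))))), (T.h (T.h (T.h (M (nat_lit 451371570892644458700375851007)) (T.h (P (nat_lit 0)) (T.h (P (nat_lit 4672964246757204557824)) (T.h (P (nat_lit 0)) (T.h (P (nat_lit 20156511356041822208)) (T.h (P (nat_lit 0)) (M (nat_lit 33585842871871)))))))) (T.h (P (nat_lit 0)) (T.h (T.h (M (nat_lit 124140892935933662322491391)) (T.h (P (nat_lit 0)) (T.h (M (nat_lit 278979030134133096447)) (T.h (P (nat_lit 0)) (P (nat_lit 87479027713152)))))) (T.h (P (nat_lit 0)) (T.h (T.h (P (nat_lit 110870326665958916096)) (T.h (P (nat_lit 0)) (P (nat_lit 25220496191936)))) (T.h (P (nat_lit 0)) (M (nat_lit 259896371934719)))))))) (T.h (T.h (P (nat_lit 0)) (T.h (T.h (P (nat_lit 0)) (T.h (M (nat_lit 42988637549822149132287)) (T.h (P (nat_lit 0)) (M (nat_lit 42406834708414463))))) (T.h (P (nat_lit 0)) (T.h (T.h (P (nat_lit 0)) (P (nat_lit 1038887502988050432))) (P (nat_lit 0)))))) (T.h (T.h (T.h (M (nat_lit 37919151538686333718364159))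 (T.h (P (nat_lit 0)) (T.h (M (nat_lit 38660472408677285887)) (T.h (P (nat_lit 0)) (M (nat_lit 49145268336255)))))) (T.h (P (nat_lit 0)) (T.h (T.h (M (nat_lit 358588512846512914431)) (T.h (P (nat_lit 0)) (M (nat_lit 190117580289279)))) (T.h (P (nat_lit 0)) (P (nat_lit 25220496191936)))))) (T.h (T.h (P (nat_lit 0)) (T.h (T.h (P (nat_lit 0)) (P (nat_lit 54255412921630720))) (P (nat_lit 0)))) (T.h (T.h (T.h (M (nat_lit 24796098954929373183)) (T.h (P (nat_lit 0)) (M (nat_lit 49145268336255)))) (T.h (P (nat_lit 0)) (P (nat_lit 87479027713152)))) (T.h (P (nat_lit 0)) (M (nat_lit 33585842871871)))))))), (T.h (T.h (T.h (P (nat_lit 0)) (T.h (P (nat_lit 37290123923396345576130871296)) (T.h (P (nat_lit 0)) (T.h (M (nat_lit 83384638649807436513279)) (T.h (P (nat_lit 0)) (P (nat_lit 88760662273196032))))))) (T.h (P (nat_lit 0)) (T.h (T.h (P (nat_lit 0)) (T.h (M (nat_lit 216615402926984000438271)) (T.h (P (nat_lit 0)) (P (nat_lit 444163933741268992))))) (T.h (P (nat_lit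 0)) (T.h (T.h (P (nat_lit 0)) (M (nat_lit 2408653964429623295))) (P (nat_lit 0))))))) (T.h (T.h (P (nat_lit 0)) (T.h (T.h (M (nat_lit 28274635799503944084881407)) (T.h (P (nat_lit 0)) (T.h (P (nat_lit 292845057866878418944)) (T.h (P (nat_lit 0)) (P (nat_lit 6113804648160)))))) (T.h (P (nat_lit 0)) (T.h (T.h (P (nat_lit 1212621973166793687040)) (T.h (P (nat_lit 0)) (P (nat_lit 196489953460944)))) (T.h (P (nat_lit 0)) (P (nat_lit 121955344170176))))))) (T.h (T.h (T.h (P (nat_lit 0)) (T.h (M (nat_lit 26065561976378344079359)) (T.h (P (nat_lit 0)) (P (nat_lit 214512770539110400))))) (T.h (P (nat_lit 0)) (T.h (T.h (P (nat_lit 0)) (M (nat_lit 271446362752925695))) (P (nat_lit 0))))) (T.h (T.h (P (nat_lit 0)) (T.h (T.h (P (nat_lit 135197495194252476416)) (T.h (P (nat_lit 0)) (M (nat_lit 212037508337423)))) (T.h (P (nat_lit 0)) (P (nat_lit 145380656903328))))) (T.h (T.h (T.h (P (nat_lit 0)) (P (nat_lit 137590494587011072))) (P (nat_lit 0))) (T.h (T.h (P (nat_lit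 0)) (P (nat_lit 66604191561776))) (P (nat_lit 0))))))))]
def lP22_33 : List (T ℤ) := [(T.h (T.h (T.h (M (nat_lit 33220262474101938314445762592767)) (T.h (P (nat_lit 0)) (T.h (P (nat_lit 66418560991289622354984960)) (T.h (P (nat_lit 0)) (M (nat_lit 52906395774008426495)))))) (T.h (P (nat_lit 0)) (T.h (T.h (M (nat_lit 46253504220323500802441215)) (T.h (P (nat_lit 0)) (P (nat_lit 241990254336743047168)))) (T.h (P (nat_lit 0)) (P (nat_lit 237824211651852763136)))))) (T.h (T.h (P (nat_lit 0)) (T.h (T.h (P (nat_lit 0)) (T.h (P (nat_lit 341548766090070176301056)) (T.h (P (nat_lit 0)) (M (nat_lit 108942660693852159))))) (T.h (P (nat_lit 0)) (T.h (T.h (P (nat_lit 0)) (M (nat_lit 2949958581245313023))) (P (nat_lit 0)))))) (T.h (T.h (T.h (P (nat_lit 66418560991289622354984960)) (T.h (P (nat_lit 0)) (M (nat_lit 53833967209428287487)))) (T.h (P (nat_lit 0)) (P (nat_lit 241990254336743047168)))) (T.h (T.h (P (nat_lit 0)) (T.h (T.h (P (nat_lit 0)) (M (nat_lit 108942660693852159)))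 (P (nat_lit 0)))) (M (nat_lit 52906395774008426495)))))), (T.h (T.h (P (nat_lit 0)) (T.h (T.h (P (nat_lit 0)) (T.h (P (nat_lit 6837049029011826800590848)) (T.h (P (nat_lit 0)) (T.h (P (nat_lit 1303559475084394496)) (T.h (P (nat_lit 0)) (P (nat_lit 5360624420992))))))) (T.h (P (nat_lit 0)) (T.h (T.h (P (nat_lit 0)) (T.h (P (nat_lit 198712546212878221312)) (T.h (P (nat_lit 0)) (P (nat_lit 62827191098304))))) (T.h (P (nat_lit 0)) (T.h (T.h (P (nat_lit 0)) (M (nat_lit 519960225386687))) (P (nat_lit 0)))))))) (T.h (T.h (T.h (M (nat_lit 11148306687387311073933656063)) (T.h (P (nat_lit 0)) (T.h (M (nat_lit 10168343157988999036927)) (T.h (P (nat_lit 0)) (P (nat_lit 11197351691255808)))))) (T.h (P (nat_lit 0)) (T.h (T.h (M (nat_lit 42457184328535899111423)) (T.h (P (nat_lit 0)) (P (nat_lit 138485348847714304)))) (T.h (P (nat_lit 0)) (P (nat_lit 107454521002655744)))))) (T.h (T.h (P (nat_lit 0)) (T.h (T.h (P (nat_lit 0)) (T.h (P (nat_lit 59282405974557589504))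 (T.h (P (nat_lit 0)) (M (nat_lit 8555555049535))))) (T.h (P (nat_lit 0)) (T.h (T.h (P (nat_lit 0)) (M (nat_lit 50830335485887))) (P (nat_lit 0)))))) (T.h (T.h (T.h (P (nat_lit 9990154410232597446656)) (T.h (P (nat_lit 0)) (P (nat_lit 15342922548215808)))) (T.h (P (nat_lit 0)) (P (nat_lit 177198910576820224)))) (T.h (T.h (P (nat_lit 0)) (T.h (T.h (P (nat_lit 0)) (P (nat_lit 30400262961600))) (P (nat_lit 0)))) (P (nat_lit 15339279740928000))))))), (T.h (T.h (P (nat_lit 0)) (T.h (T.h (P (nat_lit 17659136188694529823951814656)) (T.h (P (nat_lit 0)) (T.h (P (nat_lit 39795335775124061159424)) (T.h (P (nat_lit 0)) (M (nat_lit 99868825715032063)))))) (T.h (P (nat_lit 0)) (T.h (T.h (P (nat_lit 73861470267005309288448)) (T.h (P (nat_lit 0)) (M (nat_lit 78670430591942655)))) (T.h (P (nat_lit 0)) (P (nat_lit 598338107407433728))))))) (T.h (T.h (T.h (P (nat_lit 0)) (T.h (P (nat_lit 12728157364842137498157056)) (T.h (P (nat_lit 0)) (T.h (M (nat_lit 15539825767377534975))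 (T.h (P (nat_lit 0)) (M (nat_lit 53103933012239))))))) (T.h (P (nat_lit 0)) (T.h (T.h (P (nat_lit 0)) (T.h (M (nat_lit 303699369560303992831)) (T.h (P (nat_lit 0)) (M (nat_lit 232315348433871))))) (T.h (P (nat_lit 0)) (T.h (T.h (P (nat_lit 0)) (M (nat_lit 170370273170943))) (P (nat_lit 0))))))) (T.h (T.h (P (nat_lit 0)) (T.h (T.h (P (nat_lit 39795335775124061159424)) (T.h (P (nat_lit 0)) (P (nat_lit 10397342753980416)))) (T.h (P (nat_lit 0)) (M (nat_lit 78670430591942655))))) (T.h (T.h (T.h (P (nat_lit 0)) (T.h (M (nat_lit 15539825767377534975)) (T.h (P (nat_lit 0)) (P (nat_lit 1364867077376))))) (T.h (P (nat_lit 0)) (T.h (T.h (P (nat_lit 0)) (M (nat_lit 232315348433871))) (P (nat_lit 0))))) (T.h (T.h (P (nat_lit 0)) (M (nat_lit 99868825715032063))) (T.h (T.h (T.h (P (nat_lit 0)) (M (nat_lit 53103933012239))) (P (nat_lit 0))) (P (nat_lit 0)))))))), (T.h (T.h (P (nat_lit 0)) (T.h (T.h (P (nat_lit 0)) (T.h (P (nat_lit 8873249925010409236987904)) (T.h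 (P (nat_lit 0)) (P (nat_lit 30364639935229591552))))) (T.h (P (nat_lit 0)) (T.h (T.h (P (nat_lit 0)) (P (nat_lit 1675819003399964196864))) (P (nat_lit 0)))))) (T.h (T.h (T.h (P (nat_lit 5627338853244708344937054208)) (T.h (P (nat_lit 0)) (T.h (M (nat_lit 8392513750900005666815)) (T.h (P (nat_lit 0)) (P (nat_lit 86201168399007744)))))) (T.h (P (nat_lit 0)) (T.h (T.h (M (nat_lit 497853062471768386568191)) (T.h (P (nat_lit 0)) (M (nat_lit 61852061350625279)))) (T.h (P (nat_lit 0)) (M (nat_lit 123288370909806591)))))) (T.h (T.h (P (nat_lit 0)) (T.h (T.h (P (nat_lit 0)) (P (nat_lit 142869371267454074880))) (P (nat_lit 0)))) (T.h (T.h (T.h (P (nat_lit 14449164374880544620544)) (T.h (P (nat_lit 0)) (P (nat_lit 114524215843454976)))) (T.h (P (nat_lit 0)) (M (nat_lit 121245971013926911)))) (T.h (P (nat_lit 0)) (M (nat_lit 8554639390932991))))))), (T.h (T.h (T.h (P (nat_lit 0)) (T.h (P (nat_lit 994755837398416160144228352)) (T.h (P (nat_lit 0)) (T.h (P (nat_lit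 1627259457768127463424)) (T.h (P (nat_lit 0)) (M (nat_lit 1438415993520127))))))) (T.h (P (nat_lit 0)) (T.h (T.h (P (nat_lit 0)) (T.h (P (nat_lit 62873011426048620888064)) (T.h (P (nat_lit 0)) (P (nat_lit 40138936817926144))))) (T.h (P (nat_lit 0)) (T.h (T.h (P (nat_lit 0)) (P (nat_lit 866541895063420928))) (P (nat_lit 0))))))) (T.h (T.h (P (nat_lit 0)) (T.h (T.h (P (nat_lit 20370376071632726442115072)) (T.h (P (nat_lit 0)) (T.h (M (nat_lit 52736164427403886591)) (T.h (P (nat_lit 0)) (P (nat_lit 37730281781984)))))) (T.h (P (nat_lit 0)) (T.h (T.h (M (nat_lit 74258750209269956607)) (T.h (P (nat_lit 0)) (M (nat_lit 64739948756207)))) (T.h (P (nat_lit 0)) (M (nat_lit 430642633814447))))))) (T.h (T.h (T.h (P (nat_lit 0)) (T.h (P (nat_lit 385848081155304194048)) (T.h (P (nat_lit 0)) (P (nat_lit 1901487044935680))))) (T.h (P (nat_lit 0)) (T.h (T.h (P (nat_lit 0)) (P (nat_lit 102840527015788544))) (P (nat_lit 0))))) (T.h (T.h (P (nat_lit 0)) (T.h (T.h (M (nat_lit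 14468998367255986175)) (T.h (P (nat_lit 0)) (P (nat_lit 238877194160)))) (T.h (P (nat_lit 0)) (P (nat_lit 847315013424))))) (T.h (T.h (T.h (P (nat_lit 0)) (M (nat_lit 26168110165688319))) (P (nat_lit 0))) (T.h (T.h (P (nat_lit 0)) (M (nat_lit 6662556455103))) (P (nat_lit 0)))))))), (T.h (T.h (T.h (P (nat_lit 6680708591493659502204118106112)) (T.h (P (nat_lit 0)) (T.h (P (nat_lit 3152629237428887272554496)) (T.h (P (nat_lit 0)) (P (nat_lit 9809641144634572800)))))) (T.h (P (nat_lit 0)) (T.h (T.h (M (nat_lit 2149890956194024676917247)) (T.h (P (nat_lit 0)) (M (nat_lit 48278542870674145279)))) (T.h (P (nat_lit 0)) (M (nat_lit 8287550168841060351)))))) (T.h (T.h (P (nat_lit 0)) (T.h (T.h (P (nat_lit 0)) (T.h (M (nat_lit 65334891981411134210047)) (T.h (P (nat_lit 0)) (P (nat_lit 58318068894531584))))) (T.h (P (nat_lit 0)) (T.h (T.h (P (nat_lit 0)) (P (nat_lit 175092994366111744))) (P (nat_lit 0)))))) (T.h (T.h (T.h (P (nat_lit 3152629237428887272554496))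 (T.h (P (nat_lit 0)) (P (nat_lit 9895869601147781120)))) (T.h (P (nat_lit 0)) (M (nat_lit 48278542870674145279)))) (T.h (T.h (P (nat_lit 0)) (T.h (T.h (P (nat_lit 0)) (P (nat_lit 58318068894531584))) (P (nat_lit 0)))) (P (nat_lit 9809641144634572800)))))), (T.h (T.h (P (nat_lit 0)) (T.h (T.h (P (nat_lit 0)) (T.h (M (nat_lit 8685767576524368306503679)) (T.h (P (nat_lit 0)) (M (nat_lit 32111403715541336063))))) (T.h (P (nat_lit 0)) (T.h (T.h (P (nat_lit 0)) (M (nat_lit 126973145165437337599))) (P (nat_lit 0)))))) (T.h (T.h (T.h (M (nat_lit 3849283284899336926831575039)) (T.h (P (nat_lit 0)) (T.h (M (nat_lit 318127756473987497983)) (T.h (P (nat_lit 0)) (M (nat_lit 9836419181182975)))))) (T.h (P (nat_lit 0)) (T.h (T.h (M (nat_lit 7915433807328952975359)) (T.h (P (nat_lit 0)) (P (nat_lit 56882161005330432)))) (T.h (P (nat_lit 0)) (P (nat_lit 421785709203062784)))))) (T.h (T.h (P (nat_lit 0)) (T.h (T.h (P (nat_lit 0)) (M (nat_lit 21352153951422644223))) (P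 (nat_lit 0)))) (T.h (T.h (T.h (M (nat_lit 2169209033493156200447)) (T.h (P (nat_lit 0)) (M (nat_lit 5667928027332607)))) (T.h (P (nat_lit 0)) (M (nat_lit 9664805248008191)))) (T.h (P (nat_lit 0)) (P (nat_lit 411400681750528))))))), (P (nat_lit 0))]
def lP22_34 : List (T ℤ) := [(P (nat_lit 0)), (T.h (T.h (T.h (P (nat_lit 0)) (T.h (M (nat_lit 971868537751051024134569983)) (T.h (P (nat_lit 0)) (T.h (M (nat_lit 63766021657352615231487)) (T.h (P (nat_lit 0)) (P (nat_lit 109955964714844160))))))) (T.h (P (nat_lit 0)) (T.h (T.h (P (nat_lit 0)) (T.h (P (nat_lit 373971790970277068800)) (T.h (P (nat_lit 0)) (P (nat_lit 295832223095455744))))) (T.h (P (nat_lit 0)) (T.h (T.h (P (nat_lit 0)) (M (nat_lit 11433130962321407))) (P (nat_lit 0))))))) (T.h (T.h (P (nat_lit 0)) (T.h (T.h (P (nat_lit 47619769514643203467247616)) (T.h (P (nat_lit 0)) (T.h (M (nat_lit 65582464776871608319)) (T.h (P (nat_lit 0)) (M (nat_lit 541243479832879)))))) (T.h (P (nat_lit 0)) (T.h (T.h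 (M (nat_lit 2943982405888770047)) (T.h (P (nat_lit 0)) (M (nat_lit 22083636817703)))) (T.h (P (nat_lit 0)) (M (nat_lit 21420526282247))))))) (T.h (T.h (T.h (P (nat_lit 0)) (T.h (P (nat_lit 4880592087944064401408)) (T.h (P (nat_lit 0)) (M (nat_lit 46489590790291455))))) (T.h (P (nat_lit 0)) (T.h (T.h (P (nat_lit 0)) (M (nat_lit 449558098796150783))) (P (nat_lit 0))))) (T.h (T.h (P (nat_lit 0)) (T.h (T.h (P (nat_lit 2296114596097818624)) (T.h (P (nat_lit 0)) (P (nat_lit 679026910399288)))) (T.h (P (nat_lit 0)) (M (nat_lit 378390707617215))))) (T.h (T.h (T.h (P (nat_lit 0)) (M (nat_lit 431268146137530367))) (P (nat_lit 0))) (T.h (T.h (P (nat_lit 0)) (M (nat_lit 170413629576327))) (P (nat_lit 0)))))))), (T.h (T.h (T.h (P (nat_lit 37789302293090339039328761544704)) (T.h (P (nat_lit 0)) (T.h (P (nat_lit 29832145418423820380798976)) (T.h (P (nat_lit 0)) (T.h (P (nat_lit 26671585795212574720)) (T.h (P (nat_lit 0)) (P (nat_lit 37151644471216)))))))) (T.h (P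 (nat_lit 0)) (T.h (T.h (P (nat_lit 1929188324096542337138688)) (T.h (P (nat_lit 0)) (T.h (P (nat_lit 150275231753586081792)) (T.h (P (nat_lit 0)) (P (nat_lit 80970273811648)))))) (T.h (P (nat_lit 0)) (T.h (T.h (M (nat_lit 15374739511011442687)) (T.h (P (nat_lit 0)) (M (nat_lit 8489036044511)))) (T.h (P (nat_lit 0)) (P (nat_lit 4728784196784)))))))) (T.h (T.h (P (nat_lit 0)) (T.h (T.h (P (nat_lit 0)) (T.h (P (nat_lit 438616123670500871241728)) (T.h (P (nat_lit 0)) (P (nat_lit 415635564448546816))))) (T.h (P (nat_lit 0)) (T.h (T.h (P (nat_lit 0)) (M (nat_lit 115248713760079871))) (P (nat_lit 0)))))) (T.h (T.h (T.h (M (nat_lit 9806991902528851599687679)) (T.h (P (nat_lit 0)) (T.h (P (nat_lit 68696693231037972480)) (T.h (P (nat_lit 0)) (P (nat_lit 267356832993248)))))) (T.h (P (nat_lit 0)) (T.h (T.h (P (nat_lit 44014770381303840768)) (T.h (P (nat_lit 0)) (P (nat_lit 911509870941168)))) (T.h (P (nat_lit 0)) (P (nat_lit 26641791405664)))))) (T.h (T.h (P (nat_lit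 0)) (T.h (T.h (P (nat_lit 0)) (P (nat_lit 174714726643630080))) (P (nat_lit 0)))) (T.h (T.h (T.h (P (nat_lit 65260405627281211392)) (T.h (P (nat_lit 0)) (M (nat_lit 197435484401695)))) (T.h (P (nat_lit 0)) (P (nat_lit 22999326338224)))) (T.h (P (nat_lit 0)) (M (nat_lit 19026528520111)))))))), (T.h (T.h (T.h (P (nat_lit 0)) (T.h (M (nat_lit 64992694580624542968554979327)) (T.h (P (nat_lit 0)) (T.h (P (nat_lit 536888143402194482233344)) (T.h (P (nat_lit 0)) (M (nat_lit 1330455881578708991))))))) (T.h (P (nat_lit 0)) (T.h (T.h (P (nat_lit 0)) (T.h (P (nat_lit 220049294875900201926656)) (T.h (P (nat_lit 0)) (M (nat_lit 500905265731371007))))) (T.h (P (nat_lit 0)) (T.h (T.h (P (nat_lit 0)) (M (nat_lit 79078662425346047))) (P (nat_lit 0))))))) (T.h (T.h (P (nat_lit 0)) (T.h (T.h (M (nat_lit 151701986456157759318523903)) (T.h (P (nat_lit 0)) (T.h (M (nat_lit 487018562812427370495)) (T.h (P (nat_lit 0)) (P (nat_lit 219151898910336)))))) (T.h (P (nat_lit 0))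 (T.h (T.h (P (nat_lit 136309182447111634944)) (T.h (P (nat_lit 0)) (P (nat_lit 122992583566016)))) (T.h (P (nat_lit 0)) (M (nat_lit 1668342305855))))))) (T.h (T.h (T.h (P (nat_lit 0)) (T.h (P (nat_lit 194673461557123887398912)) (T.h (P (nat_lit 0)) (M (nat_lit 2094652237629292543))))) (T.h (P (nat_lit 0)) (T.h (T.h (P (nat_lit 0)) (M (nat_lit 881224778607362047))) (P (nat_lit 0))))) (T.h (T.h (P (nat_lit 0)) (T.h (T.h (P (nat_lit 150099858493408280576)) (T.h (P (nat_lit 0)) (M (nat_lit 250971423945791)))) (T.h (P (nat_lit 0)) (P (nat_lit 144458842908288))))) (T.h (T.h (T.h (P (nat_lit 0)) (P (nat_lit 329044677284331520))) (P (nat_lit 0))) (T.h (T.h (P (nat_lit 0)) (P (nat_lit 80404163296320))) (P (nat_lit 0)))))))), (T.h (T.h (T.h (P (nat_lit 1215232823394490558067779829760)) (T.h (P (nat_lit 0)) (T.h (M (nat_lit 120576043976792087757586431)) (T.h (P (nat_lit 0)) (T.h (P (nat_lit 180283347286798368768)) (T.h (P (nat_lit 0)) (M (nat_lit 368987373836047))))))))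 (T.h (P (nat_lit 0)) (T.h (T.h (M (nat_lit 4047908468901851512700927)) (T.h (P (nat_lit 0)) (T.h (P (nat_lit 124162819783930150912)) (T.h (P (nat_lit 0)) (M (nat_lit 278655985779071)))))) (T.h (P (nat_lit 0)) (T.h (T.h (P (nat_lit 12494376568308629504)) (T.h (P (nat_lit 0)) (P (nat_lit 28042003142032)))) (T.h (P (nat_lit 0)) (M (nat_lit 6670524736831)))))))) (T.h (T.h (P (nat_lit 0)) (T.h (T.h (P (nat_lit 0)) (T.h (M (nat_lit 522107375545829008867327)) (T.h (P (nat_lit 0)) (M (nat_lit 1050454184151416831))))) (T.h (P (nat_lit 0)) (T.h (T.h (P (nat_lit 0)) (P (nat_lit 309096782811529216))) (P (nat_lit 0)))))) (T.h (T.h (T.h (M (nat_lit 70451967772563948882100223)) (T.h (P (nat_lit 0)) (T.h (M (nat_lit 81801084817891131391)) (T.h (P (nat_lit 0)) (M (nat_lit 1470303372520223)))))) (T.h (P (nat_lit 0)) (T.h (T.h (M (nat_lit 97369097250491334655)) (T.h (P (nat_lit 0)) (M (nat_lit 1091247964570191)))) (T.h (P (nat_lit 0)) (M (nat_lit 2255834441519)))))) (T.h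 (T.h (P (nat_lit 0)) (T.h (T.h (P (nat_lit 0)) (P (nat_lit 524299486002118656))) (P (nat_lit 0)))) (T.h (T.h (T.h (M (nat_lit 87726526752205307903)) (T.h (P (nat_lit 0)) (P (nat_lit 357297547986368)))) (T.h (P (nat_lit 0)) (P (nat_lit 158937320446608)))) (T.h (P (nat_lit 0)) (M (nat_lit 98794782225567)))))))), (T.h (T.h (T.h (P (nat_lit 0)) (T.h (P (nat_lit 26356730760361998564510924800)) (T.h (P (nat_lit 0)) (T.h (M (nat_lit 257444538064454151045119)) (T.h (P (nat_lit 0)) (P (nat_lit 529980972688670720))))))) (T.h (P (nat_lit 0)) (T.h (T.h (P (nat_lit 0)) (T.h (M (nat_lit 52248917792337237639167)) (T.h (P (nat_lit 0)) (P (nat_lit 249507797478834176))))) (T.h (P (nat_lit 0)) (T.h (T.h (P (nat_lit 0)) (M (nat_lit 8727487955140607))) (P (nat_lit 0))))))) (T.h (T.h (P (nat_lit 0)) (T.h (T.h (P (nat_lit 113981490660604175712256000)) (T.h (P (nat_lit 0)) (P (nat_lit 425660206721393491968)))) (T.h (P (nat_lit 0)) (M (nat_lit 88691085887297028095))))) (T.h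 (T.h (T.h (P (nat_lit 0)) (T.h (P (nat_lit 20592938056692577337344)) (T.h (P (nat_lit 0)) (P (nat_lit 1117294466800484352))))) (T.h (P (nat_lit 0)) (T.h (T.h (P (nat_lit 0)) (P (nat_lit 492196437663481856))) (P (nat_lit 0))))) (T.h (T.h (P (nat_lit 0)) (M (nat_lit 19070932014166179839))) (T.h (T.h (T.h (P (nat_lit 0)) (M (nat_lit 136005907965575167))) (P (nat_lit 0))) (P (nat_lit 0))))))), (P (nat_lit 0)), (P (nat_lit 0))]
def lP22_35 : List (T ℤ) := [(T.h (T.h (P (nat_lit 0)) (T.h (T.h (P (nat_lit 251021938902855966266700595200)) (T.h (P (nat_lit 0)) (T.h (M (nat_lit 232858302656583858913279)) (T.h (P (nat_lit 0)) (M (nat_lit 116908142202126335)))))) (T.h (P (nat_lit 0)) (T.h (T.h (M (nat_lit 533005722685375850217471)) (T.h (P (nat_lit 0)) (M (nat_lit 207525434107330559)))) (T.h (P (nat_lit 0)) (P (nat_lit 173289875154141184))))))) (T.h (T.h (T.h (P (nat_lit 0)) (T.h (P (nat_lit 329786219524332246169288704)) (T.h (P (nat_lit 0)) (T.h (P (nat_lit 567880259456544538624))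 (T.h (P (nat_lit 0)) (P (nat_lit 176128185699800))))))) (T.h (P (nat_lit 0)) (T.h (T.h (P (nat_lit 0)) (T.h (M (nat_lit 1362341235062512549887)) (T.h (P (nat_lit 0)) (M (nat_lit 429446612886951))))) (T.h (P (nat_lit 0)) (T.h (T.h (P (nat_lit 0)) (P (nat_lit 1338376529166768))) (P (nat_lit 0))))))) (T.h (T.h (P (nat_lit 0)) (T.h (T.h (M (nat_lit 232858302656583858913279)) (T.h (P (nat_lit 0)) (M (nat_lit 2050806935147511807)))) (T.h (P (nat_lit 0)) (M (nat_lit 207525434107330559))))) (T.h (T.h (T.h (P (nat_lit 0)) (T.h (P (nat_lit 567880259456544538624)) (T.h (P (nat_lit 0)) (M (nat_lit 326104471389535))))) (T.h (P (nat_lit 0)) (T.h (T.h (P (nat_lit 0)) (M (nat_lit 429446612886951))) (P (nat_lit 0))))) (T.h (T.h (P (nat_lit 0)) (M (nat_lit 116908142202126335))) (T.h (T.h (T.h (P (nat_lit 0)) (P (nat_lit 176128185699800))) (P (nat_lit 0))) (P (nat_lit 0)))))))), (T.h (T.h (P (nat_lit 0)) (T.h (T.h (P (nat_lit 0)) (T.h (M (nat_lit 122789488773912644057825279))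 (T.h (P (nat_lit 0)) (T.h (M (nat_lit 70559966111708741631)) (T.h (P (nat_lit 0)) (M (nat_lit 51588431069119))))))) (T.h (P (nat_lit 0)) (T.h (T.h (P (nat_lit 0)) (T.h (P (nat_lit 18904853342054252544)) (T.h (P (nat_lit 0)) (M (nat_lit 38764309496303))))) (T.h (P (nat_lit 0)) (T.h (T.h (P (nat_lit 0)) (M (nat_lit 56680728989695))) (P (nat_lit 0)))))))) (T.h (T.h (T.h (P (nat_lit 15048340848273050493121462272)) (T.h (P (nat_lit 0)) (T.h (P (nat_lit 269778487436707549413376)) (T.h (P (nat_lit 0)) (P (nat_lit 1932677482355982336)))))) (T.h (P (nat_lit 0)) (T.h (T.h (M (nat_lit 27877875879952380854271)) (T.h (P (nat_lit 0)) (M (nat_lit 436194320761815039)))) (T.h (P (nat_lit 0)) (M (nat_lit 29064190960107519)))))) (T.h (T.h (P (nat_lit 0)) (T.h (T.h (P (nat_lit 0)) (T.h (P (nat_lit 323348775870054531072)) (T.h (P (nat_lit 0)) (P (nat_lit 69576744135504))))) (T.h (P (nat_lit 0)) (T.h (T.h (P (nat_lit 0)) (P (nat_lit 730533278844032))) (P (nat_lit 0))))))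 (T.h (T.h (T.h (M (nat_lit 130595988990329117212671)) (T.h (P (nat_lit 0)) (M (nat_lit 949489363244318719)))) (T.h (P (nat_lit 0)) (M (nat_lit 224887851569299455)))) (T.h (T.h (P (nat_lit 0)) (T.h (T.h (P (nat_lit 0)) (P (nat_lit 24634100531792))) (P (nat_lit 0)))) (M (nat_lit 40943223086841855))))))), (T.h (T.h (P (nat_lit 0)) (T.h (T.h (M (nat_lit 98074772315051461801324576767)) (T.h (P (nat_lit 0)) (T.h (P (nat_lit 263562671525433075302400)) (T.h (P (nat_lit 0)) (M (nat_lit 681802411379392511)))))) (T.h (P (nat_lit 0)) (T.h (T.h (P (nat_lit 172399831671198820859904)) (T.h (P (nat_lit 0)) (M (nat_lit 441985228758188031)))) (T.h (P (nat_lit 0)) (M (nat_lit 45375358251859967))))))) (T.h (T.h (T.h (P (nat_lit 0)) (T.h (M (nat_lit 350165860970823752058142719)) (T.h (P (nat_lit 0)) (T.h (P (nat_lit 1894259260669573464064)) (T.h (P (nat_lit 0)) (P (nat_lit 318685298309056))))))) (T.h (P (nat_lit 0)) (T.h (T.h (P (nat_lit 0)) (T.h (P (nat_lit 1119380752306257526784))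 (T.h (P (nat_lit 0)) (M (nat_lit 124706162314815))))) (T.h (P (nat_lit 0)) (T.h (T.h (P (nat_lit 0)) (M (nat_lit 1159348482225343))) (P (nat_lit 0))))))) (T.h (T.h (P (nat_lit 0)) (T.h (T.h (P (nat_lit 140016498596705176911872)) (T.h (P (nat_lit 0)) (P (nat_lit 1744267616311083008)))) (T.h (P (nat_lit 0)) (M (nat_lit 121386703445065727))))) (T.h (T.h (T.h (P (nat_lit 0)) (T.h (M (nat_lit 698795816044137021439)) (T.h (P (nat_lit 0)) (M (nat_lit 1946552354081215))))) (T.h (P (nat_lit 0)) (T.h (T.h (P (nat_lit 0)) (P (nat_lit 244907572009664))) (P (nat_lit 0))))) (T.h (T.h (P (nat_lit 0)) (P (nat_lit 292351308589072384))) (T.h (T.h (T.h (P (nat_lit 0)) (P (nat_lit 324763905492992))) (P (nat_lit 0))) (P (nat_lit 0)))))))), (T.h (T.h (P (nat_lit 0)) (T.h (T.h (P (nat_lit 0)) (T.h (M (nat_lit 29374776953946656814923775)) (T.h (P (nat_lit 0)) (T.h (P (nat_lit 253379174898589499392)) (T.h (P (nat_lit 0)) (P (nat_lit 452397773839440))))))) (T.h (P (nat_lit 0))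 (T.h (T.h (P (nat_lit 0)) (T.h (P (nat_lit 70842641432121966592)) (T.h (P (nat_lit 0)) (P (nat_lit 59989902876640))))) (T.h (P (nat_lit 0)) (T.h (T.h (P (nat_lit 0)) (M (nat_lit 114598024434607))) (P (nat_lit 0)))))))) (T.h (T.h (T.h (P (nat_lit 60711036640982234185760505856)) (T.h (P (nat_lit 0)) (T.h (P (nat_lit 228668846269622621569024)) (T.h (P (nat_lit 0)) (M (nat_lit 3212585593987252223)))))) (T.h (P (nat_lit 0)) (T.h (T.h (M (nat_lit 374347014059355824717823)) (T.h (P (nat_lit 0)) (P (nat_lit 815041908662665216)))) (T.h (P (nat_lit 0)) (P (nat_lit 177525787813904384)))))) (T.h (T.h (P (nat_lit 0)) (T.h (T.h (P (nat_lit 0)) (T.h (P (nat_lit 119242113427617873920)) (T.h (P (nat_lit 0)) (P (nat_lit 206645981930784))))) (T.h (P (nat_lit 0)) (T.h (T.h (P (nat_lit 0)) (M (nat_lit 683934668054703))) (P (nat_lit 0)))))) (T.h (T.h (T.h (P (nat_lit 13739910452078637481984)) (T.h (P (nat_lit 0)) (M (nat_lit 1405762696350695423)))) (T.h (P (nat_lit 0)) (M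 (nat_lit 42521404892135423)))) (T.h (T.h (P (nat_lit 0)) (T.h (T.h (P (nat_lit 0)) (P (nat_lit 109147067076784))) (P (nat_lit 0)))) (P (nat_lit 181159064565923840))))))), (T.h (T.h (P (nat_lit 0)) (T.h (T.h (P (nat_lit 8411699922250370099984728064)) (T.h (P (nat_lit 0)) (T.h (M (nat_lit 173296379375006754275327)) (T.h (P (nat_lit 0)) (M (nat_lit 636113391252635647)))))) (T.h (P (nat_lit 0)) (T.h (T.h (M (nat_lit 15846572859528663007231)) (T.h (P (nat_lit 0)) (M (nat_lit 35450492600254463)))) (T.h (P (nat_lit 0)) (P (nat_lit 18036071833239552))))))) (T.h (T.h (T.h (P (nat_lit 0)) (T.h (P (nat_lit 118843238548441751768530944)) (T.h (P (nat_lit 0)) (P (nat_lit 2220623713047010082816))))) (T.h (P (nat_lit 0)) (T.h (T.h (P (nat_lit 0)) (M (nat_lit 518126442618692829183))) (P (nat_lit 0))))) (T.h (T.h (P (nat_lit 0)) (T.h (T.h (M (nat_lit 119877802237292047237119)) (T.h (P (nat_lit 0)) (P (nat_lit 218599629732970496)))) (T.h (P (nat_lit 0)) (P (nat_lit 142248101212979200)))))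 (T.h (T.h (T.h (P (nat_lit 0)) (P (nat_lit 331137193997825474560))) (P (nat_lit 0))) (T.h (T.h (P (nat_lit 0)) (M (nat_lit 191103879024803839))) (P (nat_lit 0))))))), (P (nat_lit 0)), (P (nat_lit 0)), (T.h (T.h (T.h (P (nat_lit 0)) (T.h (P (nat_lit 111178484058619237873389404160)) (T.h (P (nat_lit 0)) (T.h (M (nat_lit 137288147945334882959359)) (T.h (P (nat_lit 0)) (P (nat_lit 4785968924459008))))))) (T.h (P (nat_lit 0)) (T.h (T.h (P (nat_lit 0)) (T.h (M (nat_lit 115850023633569521336319)) (T.h (P (nat_lit 0)) (P (nat_lit 222497719356063744))))) (T.h (P (nat_lit 0)) (T.h (T.h (P (nat_lit 0)) (M (nat_lit 41342384774774783))) (P (nat_lit 0))))))) (T.h (T.h (P (nat_lit 0)) (T.h (T.h (M (nat_lit 41189532378361209735348223)) (T.h (P (nat_lit 0)) (T.h (M (nat_lit 675868454042908753919)) (T.h (P (nat_lit 0)) (M (nat_lit 273236532926343)))))) (T.h (P (nat_lit 0)) (T.h (T.h (M (nat_lit 46655078414092861439)) (T.h (P (nat_lit 0)) (P (nat_lit 674159898158272))))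 (T.h (P (nat_lit 0)) (M (nat_lit 34980200138519))))))) (T.h (T.h (T.h (P (nat_lit 0)) (T.h (P (nat_lit 40760733975397705711616)) (T.h (P (nat_lit 0)) (P (nat_lit 928411721710764032))))) (T.h (P (nat_lit 0)) (T.h (T.h (P (nat_lit 0)) (M (nat_lit 187280388125884415))) (P (nat_lit 0))))) (T.h (T.h (P (nat_lit 0)) (T.h (T.h (P (nat_lit 486125676611887955968)) (T.h (P (nat_lit 0)) (P (nat_lit 869756130706808)))) (T.h (P (nat_lit 0)) (M (nat_lit 1501100673922575))))) (T.h (T.h (T.h (P (nat_lit 0)) (P (nat_lit 21188157654433792))) (P (nat_lit 0))) (T.h (T.h (P (nat_lit 0)) (P (nat_lit 410497940195888))) (P (nat_lit 0))))))))]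
def lP22_36 : List (T ℤ) := [(T.h (T.h (T.h (P (nat_lit 41183129304564248849643321950208)) (T.h (P (nat_lit 0)) (T.h (P (nat_lit 50942899710709578166435840)) (T.h (P (nat_lit 0)) (T.h (M (nat_lit 143314750996568080383)) (T.h (P (nat_lit 0)) (P (nat_lit 18997137599232)))))))) (T.h (P (nat_lit 0)) (T.h (T.h (P (nat_lit 128238532981307404747538432)) (T.h (P (nat_lit 0)) (T.h (P (nat_lit 320521376786928369664)) (T.h (P (nat_lit 0)) (M (nat_lit 51767757316207)))))) (T.h (P (nat_lit 0)) (T.h (T.h (M (nat_lit 111925790093499957247)) (T.h (P (nat_lit 0)) (M (nat_lit 148035264118879)))) (T.h (P (nat_lit 0)) (P (nat_lit 70408296366272)))))))) (T.h (T.h (P (nat_lit 0)) (T.h (T.h (P (nat_lit 0)) (T.h (M (nat_lit 299573183231170279636991)) (T.h (P (nat_lit 0)) (M (nat_lit 478232142920548351))))) (T.h (P (nat_lit 0)) (T.h (T.h (P (nat_lit 0)) (M (nat_lit 555055152092545023))) (P (nat_lit 0)))))) (T.h (T.h (T.h (P (nat_lit 50942899710709578166435840)) (T.h (P (nat_lit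 0)) (T.h (P (nat_lit 496854291248444342272)) (T.h (P (nat_lit 0)) (M (nat_lit 214757246667535)))))) (T.h (P (nat_lit 0)) (T.h (T.h (P (nat_lit 320521376786928369664)) (T.h (P (nat_lit 0)) (P (nat_lit 317734406410304)))) (T.h (P (nat_lit 0)) (M (nat_lit 148035264118879)))))) (T.h (T.h (P (nat_lit 0)) (T.h (T.h (P (nat_lit 0)) (M (nat_lit 478232142920548351))) (P (nat_lit 0)))) (T.h (T.h (T.h (M (nat_lit 143314750996568080383)) (T.h (P (nat_lit 0)) (M (nat_lit 214757246667535)))) (T.h (P (nat_lit 0)) (M (nat_lit 51767757316207)))) (T.h (P (nat_lit 0)) (P (nat_lit 18997137599232)))))))), (T.h (T.h (T.h (P (nat_lit 0)) (T.h (M (nat_lit 60396523417661277367456235519)) (T.h (P (nat_lit 0)) (T.h (M (nat_lit 335287961257012828831743)) (T.h (P (nat_lit 0)) (P (nat_lit 427508663967023104))))))) (T.h (P (nat_lit 0)) (T.h (T.h (P (nat_lit 0)) (T.h (P (nat_lit 647252363648153207963648)) (T.h (P (nat_lit 0)) (P (nat_lit 1992973045643804672))))) (T.h (P (nat_lit 0))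 (T.h (T.h (P (nat_lit 0)) (P (nat_lit 543528863019859968))) (P (nat_lit 0))))))) (T.h (T.h (P (nat_lit 0)) (T.h (T.h (P (nat_lit 152274439347066394745241600)) (T.h (P (nat_lit 0)) (T.h (P (nat_lit 488454092369736761344)) (T.h (P (nat_lit 0)) (M (nat_lit 123070171246079)))))) (T.h (P (nat_lit 0)) (T.h (T.h (P (nat_lit 357963800871996227584)) (T.h (P (nat_lit 0)) (P (nat_lit 37610081382656)))) (T.h (P (nat_lit 0)) (M (nat_lit 89551540365695))))))) (T.h (T.h (T.h (P (nat_lit 0)) (T.h (P (nat_lit 187537380045765723815936)) (T.h (P (nat_lit 0)) (P (nat_lit 3160839316528529408))))) (T.h (P (nat_lit 0)) (T.h (T.h (P (nat_lit 0)) (M (nat_lit 4156243945349283839))) (P (nat_lit 0))))) (T.h (T.h (P (nat_lit 0)) (T.h (T.h (M (nat_lit 204878908917010137087)) (T.h (P (nat_lit 0)) (M (nat_lit 1451454010824831)))) (T.h (P (nat_lit 0)) (P (nat_lit 372970920918720))))) (T.h (T.h (T.h (P (nat_lit 0)) (M (nat_lit 964231163423981567))) (P (nat_lit 0))) (T.h (T.h (P (nat_lit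 0)) (M (nat_lit 337438848760703))) (P (nat_lit 0)))))))), (T.h (T.h (T.h (P (nat_lit 38796634027665517492621264551936)) (T.h (P (nat_lit 0)) (T.h (P (nat_lit 399485965034813344089899008)) (T.h (P (nat_lit 0)) (T.h (P (nat_lit 137018050728354119680)) (T.h (P (nat_lit 0)) (P (nat_lit 263806942754080)))))))) (T.h (P (nat_lit 0)) (T.h (T.h (M (nat_lit 32812070722050995209109503)) (T.h (P (nat_lit 0)) (T.h (M (nat_lit 589529392650955784191)) (T.h (P (nat_lit 0)) (P (nat_lit 13565696746624)))))) (T.h (P (nat_lit 0)) (T.h (T.h (P (nat_lit 93404293962718511104)) (T.h (P (nat_lit 0)) (P (nat_lit 609582186284192)))) (T.h (P (nat_lit 0)) (M (nat_lit 26932516938623)))))))) (T.h (T.h (P (nat_lit 0)) (T.h (T.h (P (nat_lit 0)) (T.h (M (nat_lit 692781148150449628512255)) (T.h (P (nat_lit 0)) (P (nat_lit 1182073801831809024))))) (T.h (P (nat_lit 0)) (T.h (T.h (P (nat_lit 0)) (P (nat_lit 3718445580558761984))) (P (nat_lit 0)))))) (T.h (T.h (T.h (M (nat_lit 69277999889678387053068287))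 (T.h (P (nat_lit 0)) (T.h (P (nat_lit 508886152560569745408)) (T.h (P (nat_lit 0)) (P (nat_lit 952341724930640)))))) (T.h (P (nat_lit 0)) (T.h (T.h (P (nat_lit 85784000146832359424)) (T.h (P (nat_lit 0)) (M (nat_lit 832089301328383)))) (T.h (P (nat_lit 0)) (P (nat_lit 878667806286688)))))) (T.h (T.h (P (nat_lit 0)) (T.h (T.h (P (nat_lit 0)) (P (nat_lit 369601391268823040))) (P (nat_lit 0)))) (T.h (T.h (T.h (P (nat_lit 271688428376006066176)) (T.h (P (nat_lit 0)) (P (nat_lit 738739416936400)))) (T.h (P (nat_lit 0)) (P (nat_lit 69049008754880)))) (T.h (P (nat_lit 0)) (M (nat_lit 114019884573055)))))))), (T.h (T.h (T.h (P (nat_lit 0)) (T.h (P (nat_lit 29157299885803956516845256704)) (T.h (P (nat_lit 0)) (T.h (P (nat_lit 159699944027561083797504)) (T.h (P (nat_lit 0)) (M (nat_lit 503793985739620351))))))) (T.h (P (nat_lit 0)) (T.h (T.h (P (nat_lit 0)) (T.h (M (nat_lit 20905584289755508506623)) (T.h (P (nat_lit 0)) (M (nat_lit 71028466476285951))))) (T.h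 (P (nat_lit 0)) (T.h (T.h (P (nat_lit 0)) (P (nat_lit 26676099759898624))) (P (nat_lit 0))))))) (T.h (T.h (P (nat_lit 0)) (T.h (T.h (M (nat_lit 164168232609423127631364095)) (T.h (P (nat_lit 0)) (M (nat_lit 193277581558617735167)))) (T.h (P (nat_lit 0)) (M (nat_lit 422698161150862819327))))) (T.h (T.h (T.h (P (nat_lit 0)) (T.h (P (nat_lit 58117647935124394737664)) (T.h (P (nat_lit 0)) (M (nat_lit 737488915311558655))))) (T.h (P (nat_lit 0)) (T.h (T.h (P (nat_lit 0)) (P (nat_lit 559264607064555520))) (P (nat_lit 0))))) (T.h (T.h (P (nat_lit 0)) (M (nat_lit 123598439709679812607))) (T.h (T.h (T.h (P (nat_lit 0)) (M (nat_lit 130608686049984511))) (P (nat_lit 0))) (P (nat_lit 0))))))), (P (nat_lit 0)), (P (nat_lit 0)), (T.h (T.h (P (nat_lit 0)) (T.h (T.h (M (nat_lit 22104091901107504304376250367)) (T.h (P (nat_lit 0)) (T.h (M (nat_lit 124784113349167094431743)) (T.h (P (nat_lit 0)) (M (nat_lit 28025252770054143)))))) (T.h (P (nat_lit 0)) (T.h (T.h (M (nat_lit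 101575603554824172339199)) (T.h (P (nat_lit 0)) (M (nat_lit 310718183101726719)))) (T.h (P (nat_lit 0)) (P (nat_lit 166862766999830528))))))) (T.h (T.h (T.h (P (nat_lit 0)) (T.h (M (nat_lit 34254519714937530390413311)) (T.h (P (nat_lit 0)) (T.h (P (nat_lit 38720956170330177536)) (T.h (P (nat_lit 0)) (P (nat_lit 212987210345448))))))) (T.h (P (nat_lit 0)) (T.h (T.h (P (nat_lit 0)) (T.h (M (nat_lit 415238262945889648639)) (T.h (P (nat_lit 0)) (M (nat_lit 454489044396063))))) (T.h (P (nat_lit 0)) (T.h (T.h (P (nat_lit 0)) (M (nat_lit 322669152633231))) (P (nat_lit 0))))))) (T.h (T.h (P (nat_lit 0)) (T.h (T.h (P (nat_lit 265432002081934186381312)) (T.h (P (nat_lit 0)) (M (nat_lit 956220861495934975)))) (T.h (P (nat_lit 0)) (P (nat_lit 692769815332487168))))) (T.h (T.h (T.h (P (nat_lit 0)) (T.h (P (nat_lit 221365810823784562688)) (T.h (P (nat_lit 0)) (P (nat_lit 217997659630480))))) (T.h (P (nat_lit 0)) (T.h (T.h (P (nat_lit 0)) (P (nat_lit 1811791968199640)))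 (P (nat_lit 0))))) (T.h (T.h (P (nat_lit 0)) (M (nat_lit 108164584080244735))) (T.h (T.h (T.h (P (nat_lit 0)) (P (nat_lit 119255286284848))) (P (nat_lit 0))) (P (nat_lit 0)))))))), (T.h (T.h (P (nat_lit 0)) (T.h (T.h (P (nat_lit 0)) (T.h (M (nat_lit 71680159886675777702330367)) (T.h (P (nat_lit 0)) (T.h (M (nat_lit 414865321548121636863)) (T.h (P (nat_lit 0)) (M (nat_lit 238584807373775))))))) (T.h (P (nat_lit 0)) (T.h (T.h (P (nat_lit 0)) (T.h (M (nat_lit 552929872375034413055)) (T.h (P (nat_lit 0)) (P (nat_lit 74063858113264))))) (T.h (P (nat_lit 0)) (T.h (T.h (P (nat_lit 0)) (M (nat_lit 196060949436703))) (P (nat_lit 0)))))))) (T.h (T.h (T.h (P (nat_lit 43277155415059202772708622336)) (T.h (P (nat_lit 0)) (T.h (P (nat_lit 148186376742795959336960)) (T.h (P (nat_lit 0)) (P (nat_lit 47304382030217216)))))) (T.h (P (nat_lit 0)) (T.h (T.h (P (nat_lit 170186113998269844553728)) (T.h (P (nat_lit 0)) (M (nat_lit 1671646665212379135)))) (T.h (P (nat_lit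 0)) (P (nat_lit 937968967112327168)))))) (T.h (T.h (P (nat_lit 0)) (T.h (T.h (P (nat_lit 0)) (T.h (M (nat_lit 235845349929507618815)) (T.h (P (nat_lit 0)) (P (nat_lit 852961503396064))))) (T.h (P (nat_lit 0)) (T.h (T.h (P (nat_lit 0)) (P (nat_lit 284497740592896))) (P (nat_lit 0)))))) (T.h (T.h (T.h (M (nat_lit 254507504074819192750079)) (T.h (P (nat_lit 0)) (M (nat_lit 159617239653646335)))) (T.h (P (nat_lit 0)) (M (nat_lit 335012596202733567)))) (T.h (T.h (P (nat_lit 0)) (T.h (T.h (P (nat_lit 0)) (P (nat_lit 375373675342624))) (P (nat_lit 0)))) (P (nat_lit 50133245051371520)))))))]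
def lP22_37 : List (T ℤ) := [(T.h (T.h (P (nat_lit 0)) (T.h (T.h (P (nat_lit 180100306156332347575301570560)) (T.h (P (nat_lit 0)) (T.h (M (nat_lit 747416846741254860439551)) (T.h (P (nat_lit 0)) (P (nat_lit 1115387847050067968)))))) (T.h (P (nat_lit 0)) (T.h (T.h (P (nat_lit 202670261781272798953472)) (T.h (P (nat_lit 0)) (M (nat_lit 736608973095469055)))) (T.h (P (nat_lit 0)) (P (nat_lit 153654664496545792))))))) (T.h (T.h (T.h (P (nat_lit 0)) (T.h (P (nat_lit 361895769704158551676551168)) (T.h (P (nat_lit 0)) (T.h (M (nat_lit 563885296431342288895)) (T.h (P (nat_lit 0)) (M (nat_lit 491518324551039))))))) (T.h (P (nat_lit 0)) (T.h (T.h (P (nat_lit 0)) (T.h (P (nat_lit 3209291828451105308672)) (T.h (P (nat_lit 0)) (M (nat_lit 1938599534243071))))) (T.h (P (nat_lit 0)) (T.h (T.h (P (nat_lit 0)) (P (nat_lit 893590196824576))) (P (nat_lit 0))))))) (T.h (T.h (P (nat_lit 0)) (T.h (T.h (M (nat_lit 747416846741254860439551)) (T.h (P (nat_lit 0)) (M (nat_lit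 3002951874471460863)))) (T.h (P (nat_lit 0)) (M (nat_lit 736608973095469055))))) (T.h (T.h (T.h (P (nat_lit 0)) (T.h (M (nat_lit 563885296431342288895)) (T.h (P (nat_lit 0)) (P (nat_lit 1032145006155136))))) (T.h (P (nat_lit 0)) (T.h (T.h (P (nat_lit 0)) (M (nat_lit 1938599534243071))) (P (nat_lit 0))))) (T.h (T.h (P (nat_lit 0)) (P (nat_lit 1115387847050067968))) (T.h (T.h (T.h (P (nat_lit 0)) (M (nat_lit 491518324551039))) (P (nat_lit 0))) (P (nat_lit 0)))))))), (T.h (T.h (P (nat_lit 0)) (T.h (T.h (P (nat_lit 0)) (T.h (P (nat_lit 209858491789218732050481152)) (T.h (P (nat_lit 0)) (T.h (M (nat_lit 1996911699826835455999)) (T.h (P (nat_lit 0)) (P (nat_lit 873946781694800))))))) (T.h (P (nat_lit 0)) (T.h (T.h (P (nat_lit 0)) (T.h (M (nat_lit 343672507904578027519)) (T.h (P (nat_lit 0)) (P (nat_lit 295001769853296))))) (T.h (P (nat_lit 0)) (T.h (T.h (P (nat_lit 0)) (P (nat_lit 293444002755552))) (P (nat_lit 0)))))))) (T.h (T.h (T.h (M (nat_lit 74475794080812514501713723391))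 (T.h (P (nat_lit 0)) (T.h (M (nat_lit 456516344814740845887487)) (T.h (P (nat_lit 0)) (M (nat_lit 343345129932554239)))))) (T.h (P (nat_lit 0)) (T.h (T.h (M (nat_lit 382880184728872976121855)) (T.h (P (nat_lit 0)) (P (nat_lit 2203254695171620864)))) (T.h (P (nat_lit 0)) (M (nat_lit 876810221174358015)))))) (T.h (T.h (P (nat_lit 0)) (T.h (T.h (P (nat_lit 0)) (T.h (M (nat_lit 278640035212979863551)) (T.h (P (nat_lit 0)) (M (nat_lit 4400504091273839))))) (T.h (P (nat_lit 0)) (T.h (T.h (P (nat_lit 0)) (M (nat_lit 3895056786922399))) (P (nat_lit 0)))))) (T.h (T.h (T.h (P (nat_lit 306858456079746235105280)) (T.h (P (nat_lit 0)) (P (nat_lit 27812594155913216)))) (T.h (P (nat_lit 0)) (P (nat_lit 899285264921116672)))) (T.h (T.h (P (nat_lit 0)) (T.h (T.h (P (nat_lit 0)) (M (nat_lit 64243407402943))) (P (nat_lit 0)))) (M (nat_lit 300583305836429311))))))), (T.h (T.h (P (nat_lit 0)) (T.h (T.h (M (nat_lit 255529338660962738839736025087)) (T.h (P (nat_lit 0)) (T.h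 (P (nat_lit 860132377404779840667648)) (T.h (P (nat_lit 0)) (M (nat_lit 1313968118679699455)))))) (T.h (P (nat_lit 0)) (T.h (T.h (P (nat_lit 50964485938888510013440)) (T.h (P (nat_lit 0)) (P (nat_lit 94093923714170880)))) (T.h (P (nat_lit 0)) (M (nat_lit 154915058766151679))))))) (T.h (T.h (T.h (P (nat_lit 0)) (T.h (P (nat_lit 218953849558356455862566912)) (T.h (P (nat_lit 0)) (P (nat_lit 494716808822500884480))))) (T.h (P (nat_lit 0)) (T.h (T.h (P (nat_lit 0)) (M (nat_lit 1633991181046271442943))) (P (nat_lit 0))))) (T.h (T.h (P (nat_lit 0)) (T.h (T.h (M (nat_lit 489769467972901744410623)) (T.h (P (nat_lit 0)) (P (nat_lit 5035377232337993728)))) (T.h (P (nat_lit 0)) (M (nat_lit 194170842044727295))))) (T.h (T.h (T.h (P (nat_lit 0)) (P (nat_lit 550810061287221886976))) (P (nat_lit 0))) (T.h (T.h (P (nat_lit 0)) (M (nat_lit 607744033999290367))) (P (nat_lit 0))))))), (P (nat_lit 0)), (T.h (T.h (T.h (P (nat_lit 0)) (T.h (P (nat_lit 24720628873632274064840065024))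 (T.h (P (nat_lit 0)) (T.h (M (nat_lit 6216352766518433415167)) (T.h (P (nat_lit 0)) (M (nat_lit 7346128619438079))))))) (T.h (P (nat_lit 0)) (T.h (T.h (P (nat_lit 0)) (T.h (M (nat_lit 1513734822001993842687)) (T.h (P (nat_lit 0)) (P (nat_lit 44587433648488448))))) (T.h (P (nat_lit 0)) (T.h (T.h (P (nat_lit 0)) (M (nat_lit 36128524567314431))) (P (nat_lit 0))))))) (T.h (T.h (P (nat_lit 0)) (T.h (T.h (P (nat_lit 23184063137846014708285440)) (T.h (P (nat_lit 0)) (T.h (M (nat_lit 330605202168002641919)) (T.h (P (nat_lit 0)) (P (nat_lit 454401778969128)))))) (T.h (P (nat_lit 0)) (T.h (T.h (P (nat_lit 84380841537177649152)) (T.h (P (nat_lit 0)) (P (nat_lit 479727104432)))) (T.h (P (nat_lit 0)) (M (nat_lit 758417917878207))))))) (T.h (T.h (T.h (P (nat_lit 0)) (T.h (M (nat_lit 385743763890107318271)) (T.h (P (nat_lit 0)) (P (nat_lit 16071640280662016))))) (T.h (P (nat_lit 0)) (T.h (T.h (P (nat_lit 0)) (M (nat_lit 507231716894048255))) (P (nat_lit 0))))) (T.h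 (T.h (P (nat_lit 0)) (T.h (T.h (P (nat_lit 114263556908772229120)) (T.h (P (nat_lit 0)) (M (nat_lit 28042525457543)))) (T.h (P (nat_lit 0)) (P (nat_lit 1540299680151472))))) (T.h (T.h (T.h (P (nat_lit 0)) (M (nat_lit 40305488974905343))) (P (nat_lit 0))) (T.h (T.h (P (nat_lit 0)) (M (nat_lit 136357517418903))) (P (nat_lit 0)))))))), (T.h (T.h (T.h (P (nat_lit 43208653158815113777419300896768)) (T.h (P (nat_lit 0)) (T.h (P (nat_lit 67259404014983158622584832)) (T.h (P (nat_lit 0)) (T.h (M (nat_lit 69697321268815069183)) (T.h (P (nat_lit 0)) (P (nat_lit 42191720135392)))))))) (T.h (P (nat_lit 0)) (T.h (T.h (M (nat_lit 4719205070773021623451647)) (T.h (P (nat_lit 0)) (T.h (P (nat_lit 293885440176372580352)) (T.h (P (nat_lit 0)) (M (nat_lit 136648851742367)))))) (T.h (P (nat_lit 0)) (T.h (T.h (M (nat_lit 13314922712594907135)) (T.h (P (nat_lit 0)) (M (nat_lit 44080486814863)))) (T.h (P (nat_lit 0)) (M (nat_lit 42414864655807)))))))) (T.h (T.h (P (nat_lit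 0)) (T.h (T.h (P (nat_lit 0)) (T.h (P (nat_lit 286759272025000683503616)) (T.h (P (nat_lit 0)) (M (nat_lit 463859412333428735))))) (T.h (P (nat_lit 0)) (T.h (T.h (P (nat_lit 0)) (P (nat_lit 30305883593474048))) (P (nat_lit 0)))))) (T.h (T.h (T.h (P (nat_lit 72576428199824804957650944)) (T.h (P (nat_lit 0)) (T.h (P (nat_lit 117552525714856607744)) (T.h (P (nat_lit 0)) (P (nat_lit 26340637608960)))))) (T.h (P (nat_lit 0)) (T.h (T.h (P (nat_lit 349703550122757980160)) (T.h (P (nat_lit 0)) (P (nat_lit 1072805312553536)))) (T.h (P (nat_lit 0)) (M (nat_lit 231229981354351)))))) (T.h (T.h (P (nat_lit 0)) (T.h (T.h (P (nat_lit 0)) (M (nat_lit 46517125578522623))) (P (nat_lit 0)))) (T.h (T.h (T.h (P (nat_lit 18074038190473216000)) (T.h (P (nat_lit 0)) (P (nat_lit 22641495733792)))) (T.h (P (nat_lit 0)) (M (nat_lit 327497488157023)))) (T.h (P (nat_lit 0)) (P (nat_lit 8996294111232)))))))), (T.h (T.h (T.h (P (nat_lit 0)) (T.h (P (nat_lit 62643655476449485939370098688))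 (T.h (P (nat_lit 0)) (T.h (P (nat_lit 287654487705655938383872)) (T.h (P (nat_lit 0)) (M (nat_lit 174897995144101887))))))) (T.h (P (nat_lit 0)) (T.h (T.h (P (nat_lit 0)) (T.h (P (nat_lit 950643573431573778792448)) (T.h (P (nat_lit 0)) (M (nat_lit 774131983532556287))))) (T.h (P (nat_lit 0)) (T.h (T.h (P (nat_lit 0)) (M (nat_lit 232229606802161663))) (P (nat_lit 0))))))) (T.h (T.h (P (nat_lit 0)) (T.h (T.h (M (nat_lit 305341496380382908069707775)) (T.h (P (nat_lit 0)) (T.h (P (nat_lit 2558449103850272980992)) (T.h (P (nat_lit 0)) (M (nat_lit 676794945140223)))))) (T.h (P (nat_lit 0)) (T.h (T.h (P (nat_lit 195462500300215025664)) (T.h (P (nat_lit 0)) (M (nat_lit 1485327107605247)))) (T.h (P (nat_lit 0)) (M (nat_lit 10379191674367))))))) (T.h (T.h (T.h (P (nat_lit 0)) (T.h (P (nat_lit 369848850225058518401024)) (T.h (P (nat_lit 0)) (P (nat_lit 136851684765433856))))) (T.h (P (nat_lit 0)) (T.h (T.h (P (nat_lit 0)) (M (nat_lit 1184918964387414015))) (P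 (nat_lit 0))))) (T.h (T.h (P (nat_lit 0)) (T.h (T.h (M (nat_lit 1530808288139588665343)) (T.h (P (nat_lit 0)) (P (nat_lit 3736984602240)))) (T.h (P (nat_lit 0)) (M (nat_lit 861174941379135))))) (T.h (T.h (T.h (P (nat_lit 0)) (P (nat_lit 356312655989800960))) (P (nat_lit 0))) (T.h (T.h (P (nat_lit 0)) (P (nat_lit 237508116720640))) (P (nat_lit 0)))))))), (T.h (T.h (T.h (P (nat_lit 58087694991666338886723318054912)) (T.h (P (nat_lit 0)) (T.h (P (nat_lit 45903493476868419569582080)) (T.h (P (nat_lit 0)) (T.h (P (nat_lit 346582148098786590720)) (T.h (P (nat_lit 0)) (M (nat_lit 44175916690751)))))))) (T.h (P (nat_lit 0)) (T.h (T.h (P (nat_lit 9437564309241027725623296)) (T.h (P (nat_lit 0)) (T.h (P (nat_lit 975313840075461099520)) (T.h (P (nat_lit 0)) (P (nat_lit 1655064524142128)))))) (T.h (P (nat_lit 0)) (T.h (T.h (P (nat_lit 524866282512074145792)) (T.h (P (nat_lit 0)) (P (nat_lit 845445726610320)))) (T.h (P (nat_lit 0)) (M (nat_lit 131263284325183))))))))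 (T.h (T.h (P (nat_lit 0)) (T.h (T.h (P (nat_lit 0)) (T.h (M (nat_lit 2179478930131137939374079)) (T.h (P (nat_lit 0)) (P (nat_lit 4898770343087833088))))) (T.h (P (nat_lit 0)) (T.h (T.h (P (nat_lit 0)) (P (nat_lit 1549926153797894144))) (P (nat_lit 0)))))) (T.h (T.h (T.h (P (nat_lit 45903493476868419569582080)) (T.h (P (nat_lit 0)) (T.h (M (nat_lit 123101705136064430079)) (T.h (P (nat_lit 0)) (P (nat_lit 716288495958112)))))) (T.h (P (nat_lit 0)) (T.h (T.h (P (nat_lit 975313840075461099520)) (T.h (P (nat_lit 0)) (M (nat_lit 4756085803598975)))) (T.h (P (nat_lit 0)) (P (nat_lit 845445726610320)))))) (T.h (T.h (P (nat_lit 0)) (T.h (T.h (P (nat_lit 0)) (P (nat_lit 4898770343087833088))) (P (nat_lit 0)))) (T.h (T.h (T.h (P (nat_lit 346582148098786590720)) (T.h (P (nat_lit 0)) (P (nat_lit 716288495958112)))) (T.h (P (nat_lit 0)) (P (nat_lit 1655064524142128)))) (T.h (P (nat_lit 0)) (M (nat_lit 44175916690751))))))))]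
def lP22_38 : List (T ℤ) := [(T.h (T.h (T.h (P (nat_lit 0)) (T.h (M (nat_lit 330764407359453632984548114431)) (T.h (P (nat_lit 0)) (T.h (P (nat_lit 274978202678897831575552)) (T.h (P (nat_lit 0)) (M (nat_lit 235436318599872511))))))) (T.h (P (nat_lit 0)) (T.h (T.h (P (nat_lit 0)) (T.h (M (nat_lit 452142118375054270005247)) (T.h (P (nat_lit 0)) (M (nat_lit 589104824327241727))))) (T.h (P (nat_lit 0)) (T.h (T.h (P (nat_lit 0)) (M (nat_lit 743325176508481535))) (P (nat_lit 0))))))) (T.h (T.h (P (nat_lit 0)) (T.h (T.h (P (nat_lit 84623785236052614221660160)) (T.h (P (nat_lit 0)) (M (nat_lit 2499399271706366312447)))) (T.h (P (nat_lit 0)) (P (nat_lit 104894994393145016320))))) (T.h (T.h (T.h (P (nat_lit 0)) (T.h (M (nat_lit 531165350599934173249535)) (T.h (P (nat_lit 0)) (P (nat_lit 77355624508030976))))) (T.h (P (nat_lit 0)) (T.h (T.h (P (nat_lit 0)) (P (nat_lit 6636718322802819072))) (P (nat_lit 0))))) (T.h (T.h (P (nat_lit 0)) (M (nat_lit 194204727048037990399)))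 (T.h (T.h (T.h (P (nat_lit 0)) (M (nat_lit 586040390698598399))) (P (nat_lit 0))) (P (nat_lit 0))))))), (T.h (T.h (P (nat_lit 0)) (T.h (T.h (M (nat_lit 12684840511315129229494976511)) (T.h (P (nat_lit 0)) (T.h (M (nat_lit 7879741752788425637887)) (T.h (P (nat_lit 0)) (P (nat_lit 9953376213958656)))))) (T.h (P (nat_lit 0)) (T.h (T.h (M (nat_lit 53016593064264569192447)) (T.h (P (nat_lit 0)) (M (nat_lit 7310596866047999)))) (T.h (P (nat_lit 0)) (P (nat_lit 2782105205997568))))))) (T.h (T.h (T.h (P (nat_lit 0)) (T.h (P (nat_lit 1387203145980497050468352)) (T.h (P (nat_lit 0)) (T.h (M (nat_lit 3278463469824770047)) (T.h (P (nat_lit 0)) (P (nat_lit 15368633917056))))))) (T.h (P (nat_lit 0)) (T.h (T.h (P (nat_lit 0)) (T.h (P (nat_lit 7509937226516529152)) (T.h (P (nat_lit 0)) (M (nat_lit 24712533350719))))) (T.h (P (nat_lit 0)) (T.h (T.h (P (nat_lit 0)) (M (nat_lit 18001481031807))) (P (nat_lit 0))))))) (T.h (T.h (P (nat_lit 0)) (T.h (T.h (P (nat_lit 4077642440654830174208))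 (T.h (P (nat_lit 0)) (P (nat_lit 3910183346012160)))) (T.h (P (nat_lit 0)) (P (nat_lit 42281672534786048))))) (T.h (T.h (T.h (P (nat_lit 0)) (T.h (P (nat_lit 5129996790287826944)) (T.h (P (nat_lit 0)) (P (nat_lit 5615599430704))))) (T.h (P (nat_lit 0)) (T.h (T.h (P (nat_lit 0)) (P (nat_lit 80491955580040))) (P (nat_lit 0))))) (T.h (T.h (P (nat_lit 0)) (M (nat_lit 4290026769317887))) (T.h (T.h (T.h (P (nat_lit 0)) (M (nat_lit 5667384178967))) (P (nat_lit 0))) (P (nat_lit 0)))))))), (T.h (T.h (P (nat_lit 0)) (T.h (T.h (P (nat_lit 0)) (T.h (M (nat_lit 53146542248726677021523967)) (T.h (P (nat_lit 0)) (T.h (M (nat_lit 11548678206101913599)) (T.h (P (nat_lit 0)) (M (nat_lit 34652740068447))))))) (T.h (P (nat_lit 0)) (T.h (T.h (P (nat_lit 0)) (T.h (P (nat_lit 37051053167047868416)) (T.h (P (nat_lit 0)) (P (nat_lit 6711510549152))))) (T.h (P (nat_lit 0)) (T.h (T.h (P (nat_lit 0)) (M (nat_lit 72084300084943))) (P (nat_lit 0)))))))) (T.h (T.h (T.h (P (nat_lit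 14882683165086291058843713536)) (T.h (P (nat_lit 0)) (T.h (M (nat_lit 18849529835447239311359)) (T.h (P (nat_lit 0)) (P (nat_lit 140018033237983232)))))) (T.h (P (nat_lit 0)) (T.h (T.h (P (nat_lit 256807096225738805739520)) (T.h (P (nat_lit 0)) (M (nat_lit 463891509779316735)))) (T.h (P (nat_lit 0)) (P (nat_lit 1211095121471963136)))))) (T.h (T.h (P (nat_lit 0)) (T.h (T.h (P (nat_lit 0)) (T.h (M (nat_lit 75408516526748205055)) (T.h (P (nat_lit 0)) (P (nat_lit 16557836531408))))) (T.h (P (nat_lit 0)) (T.h (T.h (P (nat_lit 0)) (M (nat_lit 75934935373951))) (P (nat_lit 0)))))) (T.h (T.h (T.h (P (nat_lit 20929441631043701440512)) (T.h (P (nat_lit 0)) (P (nat_lit 102934913059225600)))) (T.h (P (nat_lit 0)) (M (nat_lit 446271242066706431)))) (T.h (T.h (P (nat_lit 0)) (T.h (T.h (P (nat_lit 0)) (P (nat_lit 4164924265456))) (P (nat_lit 0)))) (M (nat_lit 36176921370558463))))))), (T.h (T.h (P (nat_lit 0)) (T.h (T.h (M (nat_lit 39922114480524796813220249599))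 (T.h (P (nat_lit 0)) (T.h (M (nat_lit 354108966750097843945471)) (T.h (P (nat_lit 0)) (M (nat_lit 254820433037426687)))))) (T.h (P (nat_lit 0)) (T.h (T.h (M (nat_lit 760442022012652592562175)) (T.h (P (nat_lit 0)) (M (nat_lit 1339971673303810047)))) (T.h (P (nat_lit 0)) (P (nat_lit 321913026383773696))))))) (T.h (T.h (T.h (P (nat_lit 0)) (T.h (M (nat_lit 170225242134397112389992447)) (T.h (P (nat_lit 0)) (T.h (P (nat_lit 479259445294006272)) (T.h (P (nat_lit 0)) (P (nat_lit 43684823795648))))))) (T.h (P (nat_lit 0)) (T.h (T.h (P (nat_lit 0)) (T.h (M (nat_lit 172626538980066721791)) (T.h (P (nat_lit 0)) (P (nat_lit 299226266042112))))) (T.h (P (nat_lit 0)) (T.h (T.h (P (nat_lit 0)) (M (nat_lit 304057911904575))) (P (nat_lit 0))))))) (T.h (T.h (P (nat_lit 0)) (T.h (T.h (M (nat_lit 235705695844198669877247)) (T.h (P (nat_lit 0)) (P (nat_lit 1143806116378148864)))) (T.h (P (nat_lit 0)) (P (nat_lit 44325914313588736))))) (T.h (T.h (T.h (P (nat_lit 0)) (T.h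 (P (nat_lit 299863005869694255104)) (T.h (P (nat_lit 0)) (P (nat_lit 54212487964352))))) (T.h (P (nat_lit 0)) (T.h (T.h (P (nat_lit 0)) (M (nat_lit 71092680409855))) (P (nat_lit 0))))) (T.h (T.h (P (nat_lit 0)) (P (nat_lit 251989686659973120))) (T.h (T.h (T.h (P (nat_lit 0)) (P (nat_lit 139590809213760))) (P (nat_lit 0))) (P (nat_lit 0)))))))), (T.h (T.h (P (nat_lit 0)) (T.h (T.h (P (nat_lit 0)) (T.h (M (nat_lit 226576445221383062727688191)) (T.h (P (nat_lit 0)) (T.h (P (nat_lit 490315886064140550144)) (T.h (P (nat_lit 0)) (M (nat_lit 405142020864415))))))) (T.h (P (nat_lit 0)) (T.h (T.h (P (nat_lit 0)) (T.h (M (nat_lit 1196022857367273078783)) (T.h (P (nat_lit 0)) (M (nat_lit 330682858573759))))) (T.h (P (nat_lit 0)) (T.h (T.h (P (nat_lit 0)) (P (nat_lit 475151156836224))) (P (nat_lit 0)))))))) (T.h (T.h (T.h (P (nat_lit 54332242541957806865850040320)) (T.h (P (nat_lit 0)) (T.h (M (nat_lit 405458993047623369228287)) (T.h (P (nat_lit 0)) (M (nat_lit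 49825124056350719)))))) (T.h (P (nat_lit 0)) (T.h (T.h (P (nat_lit 174146129207516448423936)) (T.h (P (nat_lit 0)) (P (nat_lit 1033407023379251200)))) (T.h (P (nat_lit 0)) (M (nat_lit 457285292616204287)))))) (T.h (T.h (P (nat_lit 0)) (T.h (T.h (P (nat_lit 0)) (T.h (P (nat_lit 434979439076475666432)) (T.h (P (nat_lit 0)) (M (nat_lit 330388936005567))))) (T.h (P (nat_lit 0)) (T.h (T.h (P (nat_lit 0)) (M (nat_lit 360597627729327))) (P (nat_lit 0)))))) (T.h (T.h (T.h (P (nat_lit 232429605756821879914496)) (T.h (P (nat_lit 0)) (P (nat_lit 9917964440911872)))) (T.h (P (nat_lit 0)) (M (nat_lit 2490888803706617855)))) (T.h (T.h (P (nat_lit 0)) (T.h (T.h (P (nat_lit 0)) (M (nat_lit 786410889423631))) (P (nat_lit 0)))) (M (nat_lit 25360039011237887))))))), (T.h (T.h (P (nat_lit 0)) (T.h (T.h (P (nat_lit 117067176160539334261107326976)) (T.h (P (nat_lit 0)) (T.h (M (nat_lit 535752343432731979415551)) (T.h (P (nat_lit 0)) (M (nat_lit 92720045063176191)))))) (T.h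 (P (nat_lit 0)) (T.h (T.h (P (nat_lit 389587506900578208841728)) (T.h (P (nat_lit 0)) (M (nat_lit 377788360702263295)))) (T.h (P (nat_lit 0)) (M (nat_lit 30295990964846591))))))) (T.h (T.h (T.h (P (nat_lit 0)) (T.h (M (nat_lit 125024135611729435644919807)) (T.h (P (nat_lit 0)) (M (nat_lit 604094228384201048063))))) (T.h (P (nat_lit 0)) (T.h (T.h (P (nat_lit 0)) (M (nat_lit 1125857228273099997183))) (P (nat_lit 0))))) (T.h (T.h (P (nat_lit 0)) (T.h (T.h (M (nat_lit 535752343432731979415551)) (T.h (P (nat_lit 0)) (P (nat_lit 2140067881561620480)))) (T.h (P (nat_lit 0)) (M (nat_lit 377788360702263295))))) (T.h (T.h (T.h (P (nat_lit 0)) (M (nat_lit 604094228384201048063))) (P (nat_lit 0))) (T.h (T.h (P (nat_lit 0)) (M (nat_lit 92720045063176191))) (P (nat_lit 0))))))), (T.h (T.h (T.h (P (nat_lit 15172213786557349686731121623040)) (T.h (P (nat_lit 0)) (T.h (M (nat_lit 1210949200232913911676927)) (T.h (P (nat_lit 0)) (T.h (M (nat_lit 1640313288946352127))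 (T.h (P (nat_lit 0)) (M (nat_lit 2258787755471)))))))) (T.h (P (nat_lit 0)) (T.h (T.h (P (nat_lit 21374983709252717796917248)) (T.h (P (nat_lit 0)) (T.h (P (nat_lit 104816937201435672576)) (T.h (P (nat_lit 0)) (M (nat_lit 27352561037247)))))) (T.h (P (nat_lit 0)) (T.h (T.h (M (nat_lit 47365347442010619903)) (T.h (P (nat_lit 0)) (P (nat_lit 65805890694080)))) (T.h (P (nat_lit 0)) (P (nat_lit 63359498543120)))))))) (T.h (T.h (P (nat_lit 0)) (T.h (T.h (P (nat_lit 0)) (T.h (P (nat_lit 2070260029915047919616)) (T.h (P (nat_lit 0)) (P (nat_lit 71083122527076352))))) (T.h (P (nat_lit 0)) (T.h (T.h (P (nat_lit 0)) (P (nat_lit 184625113980796928))) (P (nat_lit 0)))))) (T.h (T.h (T.h (M (nat_lit 18264153611699954183569407)) (T.h (P (nat_lit 0)) (T.h (M (nat_lit 1443524170846568447)) (T.h (P (nat_lit 0)) (P (nat_lit 7778266412928)))))) (T.h (P (nat_lit 0)) (T.h (T.h (M (nat_lit 32579711267497836543)) (T.h (P (nat_lit 0)) (M (nat_lit 2428238407215)))) (T.h (P (nat_lit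 0)) (P (nat_lit 439341944415168)))))) (T.h (T.h (P (nat_lit 0)) (T.h (T.h (P (nat_lit 0)) (M (nat_lit 56295723824119807))) (P (nat_lit 0)))) (T.h (T.h (T.h (M (nat_lit 8776527609941983231)) (T.h (P (nat_lit 0)) (P (nat_lit 7834943220656)))) (T.h (P (nat_lit 0)) (M (nat_lit 25450372979775)))) (T.h (P (nat_lit 0)) (P (nat_lit 7181325551792)))))))), (T.h (T.h (T.h (P (nat_lit 0)) (T.h (P (nat_lit 51582408548206184494769635328)) (T.h (P (nat_lit 0)) (T.h (M (nat_lit 117139666033039860826111)) (T.h (P (nat_lit 0)) (P (nat_lit 70419940393320448))))))) (T.h (P (nat_lit 0)) (T.h (T.h (P (nat_lit 0)) (T.h (M (nat_lit 200904069181834157621247)) (T.h (P (nat_lit 0)) (P (nat_lit 185561712988880896))))) (T.h (P (nat_lit 0)) (T.h (T.h (P (nat_lit 0)) (P (nat_lit 1043993211476312064))) (P (nat_lit 0))))))) (T.h (T.h (P (nat_lit 0)) (T.h (T.h (M (nat_lit 40829821524197619261243391)) (T.h (P (nat_lit 0)) (T.h (P (nat_lit 95133925868226740224)) (T.h (P (nat_lit 0)) (M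 (nat_lit 35758438672831)))))) (T.h (P (nat_lit 0)) (T.h (T.h (M (nat_lit 950575920179983679487)) (T.h (P (nat_lit 0)) (M (nat_lit 353210867934847)))) (T.h (P (nat_lit 0)) (M (nat_lit 40638326489599))))))) (T.h (T.h (T.h (P (nat_lit 0)) (T.h (M (nat_lit 99487948763324301180927)) (T.h (P (nat_lit 0)) (P (nat_lit 199864390115131392))))) (T.h (P (nat_lit 0)) (T.h (T.h (P (nat_lit 0)) (M (nat_lit 96430074812661759))) (P (nat_lit 0))))) (T.h (T.h (P (nat_lit 0)) (T.h (T.h (P (nat_lit 181847495206936510464)) (T.h (P (nat_lit 0)) (P (nat_lit 16402866389632)))) (T.h (P (nat_lit 0)) (M (nat_lit 569304909624511))))) (T.h (T.h (T.h (P (nat_lit 0)) (P (nat_lit 196616084993900544))) (P (nat_lit 0))) (T.h (T.h (P (nat_lit 0)) (M (nat_lit 34559719305663))) (P (nat_lit 0))))))))]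
def lP22_39 : List (T ℤ) := [(T.h (T.h (T.h (P (nat_lit 9842828176903212546727859978240)) (T.h (P (nat_lit 0)) (T.h (M (nat_lit 83811693614592676266508287)) (T.h (P (nat_lit 0)) (T.h (P (nat_lit 19580335360942538752)) (T.h (P (nat_lit 0)) (M (nat_lit 58880536840751)))))))) (T.h (P (nat_lit 0)) (T.h (T.h (P (nat_lit 320469631190882521324716032)) (T.h (P (nat_lit 0)) (T.h (M (nat_lit 186299037107603111935)) (T.h (P (nat_lit 0)) (M (nat_lit 107497428313791)))))) (T.h (P (nat_lit 0)) (T.h (T.h (P (nat_lit 210997532023150608384)) (T.h (P (nat_lit 0)) (M (nat_lit 251656292397487)))) (T.h (P (nat_lit 0)) (M (nat_lit 170030783852159)))))))) (T.h (T.h (P (nat_lit 0)) (T.h (T.h (P (nat_lit 0)) (T.h (M (nat_lit 68708426816214420946943)) (T.h (P (nat_lit 0)) (P (nat_lit 19545118180081664))))) (T.h (P (nat_lit 0)) (T.h (T.h (P (nat_lit 0)) (M (nat_lit 941031378902941695))) (P (nat_lit 0)))))) (T.h (T.h (T.h (M (nat_lit 156975126325488610199994367)) (T.h (P (nat_lit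 0)) (T.h (P (nat_lit 48088645099138842624)) (T.h (P (nat_lit 0)) (P (nat_lit 162584894039040)))))) (T.h (P (nat_lit 0)) (T.h (T.h (M (nat_lit 342410088431271018495)) (T.h (P (nat_lit 0)) (P (nat_lit 344783284634976)))) (T.h (P (nat_lit 0)) (M (nat_lit 1488234846215567)))))) (T.h (T.h (P (nat_lit 0)) (T.h (T.h (P (nat_lit 0)) (P (nat_lit 130717729978974208))) (P (nat_lit 0)))) (T.h (T.h (T.h (M (nat_lit 69165089831692271615)) (T.h (P (nat_lit 0)) (P (nat_lit 327319259258288)))) (T.h (P (nat_lit 0)) (P (nat_lit 74244844808288)))) (T.h (P (nat_lit 0)) (M (nat_lit 148769173545343)))))))), (T.h (T.h (T.h (P (nat_lit 0)) (T.h (P (nat_lit 146032963074621426709357920256)) (T.h (P (nat_lit 0)) (T.h (M (nat_lit 67571660984610788999167)) (T.h (P (nat_lit 0)) (P (nat_lit 88359397427150848))))))) (T.h (P (nat_lit 0)) (T.h (T.h (P (nat_lit 0)) (T.h (P (nat_lit 1156061246247929066291200)) (T.h (P (nat_lit 0)) (P (nat_lit 173085373524672512))))) (T.h (P (nat_lit 0))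 (T.h (T.h (P (nat_lit 0)) (M (nat_lit 1049521667825401855))) (P (nat_lit 0))))))) (T.h (T.h (P (nat_lit 0)) (T.h (T.h (P (nat_lit 250268644846211475984875520)) (T.h (P (nat_lit 0)) (M (nat_lit 329954917730706522111)))) (T.h (P (nat_lit 0)) (P (nat_lit 705506721799809794048))))) (T.h (T.h (T.h (P (nat_lit 0)) (T.h (M (nat_lit 392707064808358482542591)) (T.h (P (nat_lit 0)) (M (nat_lit 31580471776182271))))) (T.h (P (nat_lit 0)) (T.h (T.h (P (nat_lit 0)) (M (nat_lit 201991493659361279))) (P (nat_lit 0))))) (T.h (T.h (P (nat_lit 0)) (P (nat_lit 606120902321160323072))) (T.h (T.h (T.h (P (nat_lit 0)) (M (nat_lit 239694345730588671))) (P (nat_lit 0))) (P (nat_lit 0))))))), (T.h (T.h (P (nat_lit 0)) (T.h (T.h (P (nat_lit 556240270776678431303139328)) (T.h (P (nat_lit 0)) (T.h (M (nat_lit 29407020964897829683199)) (T.h (P (nat_lit 0)) (M (nat_lit 37480698153926655)))))) (T.h (P (nat_lit 0)) (T.h (T.h (M (nat_lit 106146170585502539841535)) (T.h (P (nat_lit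 0)) (P (nat_lit 8952162460336128)))) (T.h (P (nat_lit 0)) (P (nat_lit 294432181340930048))))))) (T.h (T.h (T.h (P (nat_lit 0)) (T.h (M (nat_lit 33674519128823394065186815)) (T.h (P (nat_lit 0)) (T.h (P (nat_lit 19058927348914061312)) (T.h (P (nat_lit 0)) (M (nat_lit 13089198389183))))))) (T.h (P (nat_lit 0)) (T.h (T.h (P (nat_lit 0)) (T.h (P (nat_lit 56544454345603678208)) (T.h (P (nat_lit 0)) (P (nat_lit 86144119924352))))) (T.h (P (nat_lit 0)) (T.h (T.h (P (nat_lit 0)) (M (nat_lit 46655458843455))) (P (nat_lit 0))))))) (T.h (T.h (P (nat_lit 0)) (T.h (T.h (M (nat_lit 22709465110943195201535)) (T.h (P (nat_lit 0)) (M (nat_lit 23264011617468415)))) (T.h (P (nat_lit 0)) (P (nat_lit 97128441095356416))))) (T.h (T.h (T.h (P (nat_lit 0)) (T.h (M (nat_lit 1924344881111629823)) (T.h (P (nat_lit 0)) (M (nat_lit 52855227214911))))) (T.h (P (nat_lit 0)) (T.h (T.h (P (nat_lit 0)) (P (nat_lit 82499058864512))) (P (nat_lit 0))))) (T.h (T.h (P (nat_lit 0)) (M (nat_lit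 81212293442699263))) (T.h (T.h (T.h (P (nat_lit 0)) (M (nat_lit 26922678205119))) (P (nat_lit 0))) (P (nat_lit 0)))))))), (T.h (T.h (P (nat_lit 0)) (T.h (T.h (P (nat_lit 0)) (T.h (P (nat_lit 52630575178557683830620160)) (T.h (P (nat_lit 0)) (T.h (P (nat_lit 30487834188759171072)) (T.h (P (nat_lit 0)) (P (nat_lit 56760557853824))))))) (T.h (P (nat_lit 0)) (T.h (T.h (P (nat_lit 0)) (T.h (P (nat_lit 246123919164382904320)) (T.h (P (nat_lit 0)) (P (nat_lit 186187917737008))))) (T.h (P (nat_lit 0)) (T.h (T.h (P (nat_lit 0)) (P (nat_lit 323965957366480))) (P (nat_lit 0)))))))) (T.h (T.h (T.h (P (nat_lit 22056385171391749620211122176)) (T.h (P (nat_lit 0)) (T.h (P (nat_lit 24522684844148118257664)) (T.h (P (nat_lit 0)) (P (nat_lit 99933179538800640)))))) (T.h (P (nat_lit 0)) (T.h (T.h (M (nat_lit 25702737167881122873343)) (T.h (P (nat_lit 0)) (P (nat_lit 209679305862021120)))) (T.h (P (nat_lit 0)) (M (nat_lit 2349252942460698623)))))) (T.h (T.h (P (nat_lit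 0)) (T.h (T.h (P (nat_lit 0)) (T.h (P (nat_lit 112460165131284774912)) (T.h (P (nat_lit 0)) (M (nat_lit 58086204154527))))) (T.h (P (nat_lit 0)) (T.h (T.h (P (nat_lit 0)) (P (nat_lit 357255833203280))) (P (nat_lit 0)))))) (T.h (T.h (T.h (M (nat_lit 61689989667755156045823)) (T.h (P (nat_lit 0)) (P (nat_lit 61005692873162752)))) (T.h (P (nat_lit 0)) (P (nat_lit 327098498796929024)))) (T.h (T.h (P (nat_lit 0)) (T.h (T.h (P (nat_lit 0)) (P (nat_lit 53051936705152))) (P (nat_lit 0)))) (P (nat_lit 96786791661895680))))))), (T.h (T.h (P (nat_lit 0)) (T.h (T.h (M (nat_lit 6186404307439879652053614591)) (T.h (P (nat_lit 0)) (T.h (P (nat_lit 198966467875785016344576)) (T.h (P (nat_lit 0)) (M (nat_lit 13949065269936127)))))) (T.h (P (nat_lit 0)) (T.h (T.h (M (nat_lit 278193744780241659756543)) (T.h (P (nat_lit 0)) (P (nat_lit 46838032368730112)))) (T.h (P (nat_lit 0)) (P (nat_lit 106917404220751872))))))) (T.h (T.h (T.h (P (nat_lit 0)) (T.h (P (nat_lit 2557549714804987748417536))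 (T.h (P (nat_lit 0)) (M (nat_lit 71045193053887266815))))) (T.h (P (nat_lit 0)) (T.h (T.h (P (nat_lit 0)) (P (nat_lit 940983863521673478144))) (P (nat_lit 0))))) (T.h (T.h (P (nat_lit 0)) (T.h (T.h (P (nat_lit 252526146684295426605056)) (T.h (P (nat_lit 0)) (P (nat_lit 22491614153244672)))) (T.h (P (nat_lit 0)) (P (nat_lit 960612832525778944))))) (T.h (T.h (T.h (P (nat_lit 0)) (P (nat_lit 10009059546149945344))) (P (nat_lit 0))) (T.h (T.h (P (nat_lit 0)) (M (nat_lit 99525833845407743))) (P (nat_lit 0))))))), (T.h (T.h (T.h (P (nat_lit 1125191178323626060599525376000)) (T.h (P (nat_lit 0)) (T.h (P (nat_lit 5767003101391923837927424)) (T.h (P (nat_lit 0)) (T.h (P (nat_lit 2169328327335084032)) (T.h (P (nat_lit 0)) (P (nat_lit 3821769693456)))))))) (T.h (P (nat_lit 0)) (T.h (T.h (M (nat_lit 46278492287481778855215103)) (T.h (P (nat_lit 0)) (T.h (M (nat_lit 217516683191390306303)) (T.h (P (nat_lit 0)) (M (nat_lit 17832029004943)))))) (T.h (P (nat_lit 0))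 (T.h (T.h (M (nat_lit 156129275264035192831)) (T.h (P (nat_lit 0)) (P (nat_lit 33231154151888)))) (T.h (P (nat_lit 0)) (P (nat_lit 130481994932784)))))))) (T.h (T.h (P (nat_lit 0)) (T.h (T.h (P (nat_lit 0)) (T.h (M (nat_lit 56440631814495246745599)) (T.h (P (nat_lit 0)) (M (nat_lit 115810020998676479))))) (T.h (P (nat_lit 0)) (T.h (T.h (P (nat_lit 0)) (P (nat_lit 297687919684386816))) (P (nat_lit 0)))))) (T.h (T.h (T.h (P (nat_lit 12526376508625760402014208)) (T.h (P (nat_lit 0)) (T.h (P (nat_lit 1877110365234397184)) (T.h (P (nat_lit 0)) (M (nat_lit 49126568938831)))))) (T.h (P (nat_lit 0)) (T.h (T.h (M (nat_lit 267369536469543682047)) (T.h (P (nat_lit 0)) (P (nat_lit 109922351265936)))) (T.h (P (nat_lit 0)) (P (nat_lit 78162321228816)))))) (T.h (T.h (P (nat_lit 0)) (T.h (T.h (P (nat_lit 0)) (M (nat_lit 11779929606979583))) (P (nat_lit 0)))) (T.h (T.h (T.h (M (nat_lit 9306149800544043007)) (T.h (P (nat_lit 0)) (M (nat_lit 52667779269951)))) (T.h (P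 (nat_lit 0)) (P (nat_lit 129681242717312)))) (T.h (P (nat_lit 0)) (P (nat_lit 1586148909312)))))))), (T.h (T.h (T.h (P (nat_lit 0)) (T.h (M (nat_lit 3852606373610495334007439359)) (T.h (P (nat_lit 0)) (T.h (P (nat_lit 22505124835361908850688)) (T.h (P (nat_lit 0)) (M (nat_lit 4950061242613759))))))) (T.h (P (nat_lit 0)) (T.h (T.h (P (nat_lit 0)) (T.h (M (nat_lit 245447685447027747979263)) (T.h (P (nat_lit 0)) (M (nat_lit 47461522852282367))))) (T.h (P (nat_lit 0)) (T.h (T.h (P (nat_lit 0)) (M (nat_lit 282237081034981375))) (P (nat_lit 0))))))) (T.h (T.h (P (nat_lit 0)) (T.h (T.h (M (nat_lit 59607409781330600397897727)) (T.h (P (nat_lit 0)) (P (nat_lit 114307951635558563840)))) (T.h (P (nat_lit 0)) (P (nat_lit 1752441552205047136256))))) (T.h (T.h (T.h (P (nat_lit 0)) (T.h (P (nat_lit 6837357369292922814464)) (T.h (P (nat_lit 0)) (P (nat_lit 46638150502907904))))) (T.h (P (nat_lit 0)) (T.h (T.h (P (nat_lit 0)) (M (nat_lit 110716026291683327))) (P (nat_lit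 0))))) (T.h (T.h (P (nat_lit 0)) (P (nat_lit 18434105099233001472))) (T.h (T.h (T.h (P (nat_lit 0)) (P (nat_lit 59169193778446336))) (P (nat_lit 0))) (P (nat_lit 0))))))), (T.h (T.h (P (nat_lit 0)) (T.h (T.h (P (nat_lit 3166846873336167602856132608)) (T.h (P (nat_lit 0)) (T.h (P (nat_lit 35266817870928178839552)) (T.h (P (nat_lit 0)) (M (nat_lit 384693298659327)))))) (T.h (P (nat_lit 0)) (T.h (T.h (M (nat_lit 14344602706940511911935)) (T.h (P (nat_lit 0)) (M (nat_lit 12694745432686591)))) (T.h (P (nat_lit 0)) (M (nat_lit 65582421789278207))))))) (T.h (T.h (T.h (P (nat_lit 0)) (T.h (P (nat_lit 9767776142240778154934272)) (T.h (P (nat_lit 0)) (P (nat_lit 11252920928419446784))))) (T.h (P (nat_lit 0)) (T.h (T.h (P (nat_lit 0)) (M (nat_lit 145672624222347722751))) (P (nat_lit 0))))) (T.h (T.h (P (nat_lit 0)) (T.h (T.h (P (nat_lit 54548994911447583555584)) (T.h (P (nat_lit 0)) (M (nat_lit 41064510206017535)))) (T.h (P (nat_lit 0)) (M (nat_lit 58682876268085247)))))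 (T.h (T.h (T.h (P (nat_lit 0)) (M (nat_lit 181177798486917119))) (P (nat_lit 0))) (T.h (T.h (P (nat_lit 0)) (M (nat_lit 42086344733622271))) (P (nat_lit 0)))))))]
def lP22_40 : List (T ℤ) := [(P (nat_lit 0)), (P (nat_lit 0)), (T.h (T.h (P (nat_lit 0)) (T.h (T.h (P (nat_lit 0)) (T.h (P (nat_lit 47619769514643203467247616)) (T.h (P (nat_lit 0)) (T.h (P (nat_lit 2296114596097818624)) (T.h (P (nat_lit 0)) (M (nat_lit 170413629576327))))))) (T.h (P (nat_lit 0)) (T.h (T.h (P (nat_lit 0)) (T.h (M (nat_lit 2943982405888770047)) (T.h (P (nat_lit 0)) (M (nat_lit 378390707617215))))) (T.h (P (nat_lit 0)) (T.h (T.h (P (nat_lit 0)) (M (nat_lit 21420526282247))) (P (nat_lit 0)))))))) (T.h (T.h (T.h (M (nat_lit 971868537751051024134569983)) (T.h (P (nat_lit 0)) (T.h (P (nat_lit 4880592087944064401408)) (T.h (P (nat_lit 0)) (M (nat_lit 431268146137530367)))))) (T.h (P (nat_lit 0)) (T.h (T.h (P (nat_lit 373971790970277068800)) (T.h (P (nat_lit 0)) (M (nat_lit 449558098796150783))))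 (T.h (P (nat_lit 0)) (M (nat_lit 11433130962321407)))))) (T.h (T.h (P (nat_lit 0)) (T.h (T.h (P (nat_lit 0)) (T.h (M (nat_lit 65582464776871608319)) (T.h (P (nat_lit 0)) (P (nat_lit 679026910399288))))) (T.h (P (nat_lit 0)) (T.h (T.h (P (nat_lit 0)) (M (nat_lit 22083636817703))) (P (nat_lit 0)))))) (T.h (T.h (T.h (M (nat_lit 63766021657352615231487)) (T.h (P (nat_lit 0)) (M (nat_lit 46489590790291455)))) (T.h (P (nat_lit 0)) (P (nat_lit 295832223095455744)))) (T.h (T.h (P (nat_lit 0)) (T.h (T.h (P (nat_lit 0)) (M (nat_lit 541243479832879))) (P (nat_lit 0)))) (P (nat_lit 109955964714844160))))))), (T.h (T.h (P (nat_lit 0)) (T.h (T.h (P (nat_lit 994865125133680852382777344)) (T.h (P (nat_lit 0)) (T.h (M (nat_lit 33150675788134038372351)) (T.h (P (nat_lit 0)) (P (nat_lit 43108723758465024)))))) (T.h (P (nat_lit 0)) (T.h (T.h (P (nat_lit 5724108684582291767296)) (T.h (P (nat_lit 0)) (P (nat_lit 8102738645336064)))) (T.h (P (nat_lit 0)) (P (nat_lit 19624411121975296)))))))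 (T.h (T.h (T.h (P (nat_lit 0)) (T.h (P (nat_lit 141052418130467593566289920)) (T.h (P (nat_lit 0)) (T.h (M (nat_lit 794431114563180036095)) (T.h (P (nat_lit 0)) (M (nat_lit 15285943137695))))))) (T.h (P (nat_lit 0)) (T.h (T.h (P (nat_lit 0)) (T.h (M (nat_lit 206494180796757180415)) (T.h (P (nat_lit 0)) (M (nat_lit 120389216458239))))) (T.h (P (nat_lit 0)) (T.h (T.h (P (nat_lit 0)) (P (nat_lit 66963485197824))) (P (nat_lit 0))))))) (T.h (T.h (P (nat_lit 0)) (T.h (T.h (M (nat_lit 33150675788134038372351)) (T.h (P (nat_lit 0)) (M (nat_lit 290936527994781695)))) (T.h (P (nat_lit 0)) (P (nat_lit 8102738645336064))))) (T.h (T.h (T.h (P (nat_lit 0)) (T.h (M (nat_lit 794431114563180036095)) (T.h (P (nat_lit 0)) (P (nat_lit 692655572679072))))) (T.h (P (nat_lit 0)) (T.h (T.h (P (nat_lit 0)) (M (nat_lit 120389216458239))) (P (nat_lit 0))))) (T.h (T.h (P (nat_lit 0)) (P (nat_lit 43108723758465024))) (T.h (T.h (T.h (P (nat_lit 0)) (M (nat_lit 15285943137695)))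 (P (nat_lit 0))) (P (nat_lit 0)))))))), (T.h (T.h (P (nat_lit 0)) (T.h (T.h (P (nat_lit 0)) (T.h (P (nat_lit 91153552696466832009199616)) (T.h (P (nat_lit 0)) (T.h (M (nat_lit 315551464536024285183)) (T.h (P (nat_lit 0)) (P (nat_lit 199717187725568))))))) (T.h (P (nat_lit 0)) (T.h (T.h (P (nat_lit 0)) (T.h (M (nat_lit 103363700487176060927)) (T.h (P (nat_lit 0)) (P (nat_lit 23985942129088))))) (T.h (P (nat_lit 0)) (T.h (T.h (P (nat_lit 0)) (P (nat_lit 1081390865088))) (P (nat_lit 0)))))))) (T.h (T.h (T.h (M (nat_lit 114115918580355154959424028671)) (T.h (P (nat_lit 0)) (T.h (P (nat_lit 572036271422275183443968)) (T.h (P (nat_lit 0)) (M (nat_lit 1331859517574512639)))))) (T.h (P (nat_lit 0)) (T.h (T.h (M (nat_lit 6027653185679260647423)) (T.h (P (nat_lit 0)) (M (nat_lit 268595618393128959)))) (T.h (P (nat_lit 0)) (M (nat_lit 53385315126083583)))))) (T.h (T.h (P (nat_lit 0)) (T.h (T.h (P (nat_lit 0)) (T.h (P (nat_lit 1459764794665597927424)) (T.h (P (nat_lit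 0)) (M (nat_lit 9669475697663))))) (T.h (P (nat_lit 0)) (T.h (T.h (P (nat_lit 0)) (M (nat_lit 92832310935167))) (P (nat_lit 0)))))) (T.h (T.h (T.h (P (nat_lit 112089447587515851603968)) (T.h (P (nat_lit 0)) (M (nat_lit 1532950112553402367)))) (T.h (P (nat_lit 0)) (P (nat_lit 334670280262942720)))) (T.h (T.h (P (nat_lit 0)) (T.h (T.h (P (nat_lit 0)) (P (nat_lit 130715055319232))) (P (nat_lit 0)))) (M (nat_lit 413373386104930303))))))), (T.h (T.h (P (nat_lit 0)) (T.h (T.h (P (nat_lit 17562274097227540007678377984)) (T.h (P (nat_lit 0)) (T.h (P (nat_lit 56126708549803944443904)) (T.h (P (nat_lit 0)) (M (nat_lit 204801578183983103)))))) (T.h (P (nat_lit 0)) (T.h (T.h (M (nat_lit 17330481233452267995135)) (T.h (P (nat_lit 0)) (M (nat_lit 263548896318324735)))) (T.h (P (nat_lit 0)) (M (nat_lit 9631535166488575))))))) (T.h (T.h (T.h (P (nat_lit 0)) (T.h (M (nat_lit 111230174042457733433655295)) (T.h (P (nat_lit 0)) (T.h (P (nat_lit 1510252268123748040704))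 (T.h (P (nat_lit 0)) (M (nat_lit 713275527769023))))))) (T.h (P (nat_lit 0)) (T.h (T.h (P (nat_lit 0)) (T.h (P (nat_lit 28873461453570441216)) (T.h (P (nat_lit 0)) (P (nat_lit 362561782920304))))) (T.h (P (nat_lit 0)) (T.h (T.h (P (nat_lit 0)) (M (nat_lit 284465783754943))) (P (nat_lit 0))))))) (T.h (T.h (P (nat_lit 0)) (T.h (T.h (P (nat_lit 196451127488380359671808)) (T.h (P (nat_lit 0)) (P (nat_lit 749167989837185024)))) (T.h (P (nat_lit 0)) (M (nat_lit 227107253596717055))))) (T.h (T.h (T.h (P (nat_lit 0)) (T.h (P (nat_lit 648463875126830563328)) (T.h (P (nat_lit 0)) (M (nat_lit 1800265602160431))))) (T.h (P (nat_lit 0)) (T.h (T.h (P (nat_lit 0)) (P (nat_lit 369376358479744))) (P (nat_lit 0))))) (T.h (T.h (P (nat_lit 0)) (M (nat_lit 107743241166847999))) (T.h (T.h (T.h (P (nat_lit 0)) (M (nat_lit 501421280864767))) (P (nat_lit 0))) (P (nat_lit 0)))))))), (T.h (T.h (P (nat_lit 0)) (T.h (T.h (P (nat_lit 0)) (T.h (P (nat_lit 59950188819018535648886784))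 (T.h (P (nat_lit 0)) (P (nat_lit 48132547098284392448))))) (T.h (P (nat_lit 0)) (T.h (T.h (P (nat_lit 0)) (P (nat_lit 23457270302150492160))) (P (nat_lit 0)))))) (T.h (T.h (T.h (P (nat_lit 46975016913352412100676288512)) (T.h (P (nat_lit 0)) (T.h (M (nat_lit 679248079193030921289727)) (T.h (P (nat_lit 0)) (P (nat_lit 1211482183472513024)))))) (T.h (P (nat_lit 0)) (T.h (T.h (P (nat_lit 827507222453180956672)) (T.h (P (nat_lit 0)) (P (nat_lit 203833824419741696)))) (T.h (P (nat_lit 0)) (P (nat_lit 53802347545690112)))))) (T.h (T.h (P (nat_lit 0)) (T.h (T.h (P (nat_lit 0)) (M (nat_lit 365620868819634356223))) (P (nat_lit 0)))) (T.h (T.h (T.h (M (nat_lit 146627091873147461304319)) (T.h (P (nat_lit 0)) (P (nat_lit 739440940597215232)))) (T.h (P (nat_lit 0)) (M (nat_lit 187136119205920767)))) (T.h (P (nat_lit 0)) (P (nat_lit 203718278836256768))))))), (P (nat_lit 0))]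
def lP22_41 : List (T ℤ) := [(P (nat_lit 0)), (T.h (T.h (T.h (P (nat_lit 20743555868700945240925390503936)) (T.h (P (nat_lit 0)) (T.h (P (nat_lit 52833143079341340567273472)) (T.h (P (nat_lit 0)) (T.h (M (nat_lit 45242550057263169535)) (T.h (P (nat_lit 0)) (P (nat_lit 125938963766608)))))))) (T.h (P (nat_lit 0)) (T.h (T.h (M (nat_lit 14191767757941870574960639)) (T.h (P (nat_lit 0)) (T.h (M (nat_lit 183827353451553095679)) (T.h (P (nat_lit 0)) (M (nat_lit 160649772632287)))))) (T.h (P (nat_lit 0)) (T.h (T.h (P (nat_lit 10808073746795986944)) (T.h (P (nat_lit 0)) (M (nat_lit 222986468349919)))) (T.h (P (nat_lit 0)) (M (nat_lit 57073925797807)))))))) (T.h (T.h (P (nat_lit 0)) (T.h (T.h (P (nat_lit 0)) (T.h (P (nat_lit 132597205529526087450624)) (T.h (P (nat_lit 0)) (M (nat_lit 330832510011703295))))) (T.h (P (nat_lit 0)) (T.h (T.h (P (nat_lit 0)) (M (nat_lit 202785366568468479))) (P (nat_lit 0)))))) (T.h (T.h (T.h (M (nat_lit 126538475152262420242628607))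 (T.h (P (nat_lit 0)) (T.h (M (nat_lit 6776842254796455935)) (T.h (P (nat_lit 0)) (M (nat_lit 1879280720920079)))))) (T.h (P (nat_lit 0)) (T.h (T.h (P (nat_lit 217299382818360524800)) (T.h (P (nat_lit 0)) (M (nat_lit 678744366478943)))) (T.h (P (nat_lit 0)) (P (nat_lit 955630288563504)))))) (T.h (T.h (P (nat_lit 0)) (T.h (T.h (P (nat_lit 0)) (P (nat_lit 625557144947785728))) (P (nat_lit 0)))) (T.h (T.h (T.h (P (nat_lit 257618270563300540416)) (T.h (P (nat_lit 0)) (P (nat_lit 1276459735382992)))) (T.h (P (nat_lit 0)) (P (nat_lit 348167733077024)))) (T.h (P (nat_lit 0)) (M (nat_lit 71435997734031)))))))), (T.h (T.h (T.h (P (nat_lit 0)) (T.h (P (nat_lit 15048340848273050493121462272)) (T.h (P (nat_lit 0)) (T.h (M (nat_lit 130595988990329117212671)) (T.h (P (nat_lit 0)) (M (nat_lit 40943223086841855))))))) (T.h (P (nat_lit 0)) (T.h (T.h (P (nat_lit 0)) (T.h (M (nat_lit 27877875879952380854271)) (T.h (P (nat_lit 0)) (M (nat_lit 224887851569299455))))) (T.h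 (P (nat_lit 0)) (T.h (T.h (P (nat_lit 0)) (M (nat_lit 29064190960107519))) (P (nat_lit 0))))))) (T.h (T.h (P (nat_lit 0)) (T.h (T.h (M (nat_lit 122789488773912644057825279)) (T.h (P (nat_lit 0)) (T.h (P (nat_lit 323348775870054531072)) (T.h (P (nat_lit 0)) (P (nat_lit 24634100531792)))))) (T.h (P (nat_lit 0)) (T.h (T.h (P (nat_lit 18904853342054252544)) (T.h (P (nat_lit 0)) (P (nat_lit 730533278844032)))) (T.h (P (nat_lit 0)) (M (nat_lit 56680728989695))))))) (T.h (T.h (T.h (P (nat_lit 0)) (T.h (P (nat_lit 269778487436707549413376)) (T.h (P (nat_lit 0)) (M (nat_lit 949489363244318719))))) (T.h (P (nat_lit 0)) (T.h (T.h (P (nat_lit 0)) (M (nat_lit 436194320761815039))) (P (nat_lit 0))))) (T.h (T.h (P (nat_lit 0)) (T.h (T.h (M (nat_lit 70559966111708741631)) (T.h (P (nat_lit 0)) (P (nat_lit 69576744135504)))) (T.h (P (nat_lit 0)) (M (nat_lit 38764309496303))))) (T.h (T.h (T.h (P (nat_lit 0)) (P (nat_lit 1932677482355982336))) (P (nat_lit 0))) (T.h (T.h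 (P (nat_lit 0)) (M (nat_lit 51588431069119))) (P (nat_lit 0)))))))), (T.h (T.h (T.h (M (nat_lit 39469309745708086546099590922239)) (T.h (P (nat_lit 0)) (T.h (P (nat_lit 158866437218368845248462848)) (T.h (P (nat_lit 0)) (T.h (P (nat_lit 433321781000660844544)) (T.h (P (nat_lit 0)) (M (nat_lit 321810679955711)))))))) (T.h (P (nat_lit 0)) (T.h (T.h (M (nat_lit 53170727737276660726104063)) (T.h (P (nat_lit 0)) (T.h (M (nat_lit 650167948385529626623)) (T.h (P (nat_lit 0)) (P (nat_lit 14741207391872)))))) (T.h (P (nat_lit 0)) (T.h (T.h (P (nat_lit 19128559476672561152)) (T.h (P (nat_lit 0)) (M (nat_lit 327234330771135)))) (T.h (P (nat_lit 0)) (P (nat_lit 31987933664768)))))))) (T.h (T.h (P (nat_lit 0)) (T.h (T.h (P (nat_lit 0)) (T.h (M (nat_lit 360790033318880431046655)) (T.h (P (nat_lit 0)) (M (nat_lit 64703321162973183))))) (T.h (P (nat_lit 0)) (T.h (T.h (P (nat_lit 0)) (P (nat_lit 403127968010862592))) (P (nat_lit 0)))))) (T.h (T.h (T.h (P (nat_lit 158866437218368845248462848))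 (T.h (P (nat_lit 0)) (T.h (M (nat_lit 1532092211709377249279)) (T.h (P (nat_lit 0)) (P (nat_lit 1901294172529856)))))) (T.h (P (nat_lit 0)) (T.h (T.h (M (nat_lit 650167948385529626623)) (T.h (P (nat_lit 0)) (P (nat_lit 1330661983622784)))) (T.h (P (nat_lit 0)) (M (nat_lit 327234330771135)))))) (T.h (T.h (P (nat_lit 0)) (T.h (T.h (P (nat_lit 0)) (M (nat_lit 64703321162973183))) (P (nat_lit 0)))) (T.h (T.h (T.h (P (nat_lit 433321781000660844544)) (T.h (P (nat_lit 0)) (P (nat_lit 1901294172529856)))) (T.h (P (nat_lit 0)) (P (nat_lit 14741207391872)))) (T.h (P (nat_lit 0)) (M (nat_lit 321810679955711)))))))), (T.h (T.h (T.h (P (nat_lit 0)) (T.h (P (nat_lit 56359040998709081813865725952)) (T.h (P (nat_lit 0)) (T.h (M (nat_lit 5182703445728093536255)) (T.h (P (nat_lit 0)) (P (nat_lit 636571534031208448))))))) (T.h (P (nat_lit 0)) (T.h (T.h (P (nat_lit 0)) (T.h (M (nat_lit 219840208827757969276927)) (T.h (P (nat_lit 0)) (P (nat_lit 158164728763580416)))))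 (T.h (P (nat_lit 0)) (T.h (T.h (P (nat_lit 0)) (P (nat_lit 406190538679025664))) (P (nat_lit 0))))))) (T.h (T.h (P (nat_lit 0)) (T.h (T.h (P (nat_lit 8550202030988311838851072)) (T.h (P (nat_lit 0)) (T.h (P (nat_lit 44920798069775138816)) (T.h (P (nat_lit 0)) (P (nat_lit 1938413165951856)))))) (T.h (P (nat_lit 0)) (T.h (T.h (P (nat_lit 54541647904833011712)) (T.h (P (nat_lit 0)) (M (nat_lit 495262917424703)))) (T.h (P (nat_lit 0)) (M (nat_lit 60506909118655))))))) (T.h (T.h (T.h (P (nat_lit 0)) (T.h (P (nat_lit 164440297372771004973056)) (T.h (P (nat_lit 0)) (M (nat_lit 2048050955423956991))))) (T.h (P (nat_lit 0)) (T.h (T.h (P (nat_lit 0)) (P (nat_lit 334274484094844928))) (P (nat_lit 0))))) (T.h (T.h (P (nat_lit 0)) (T.h (T.h (M (nat_lit 63884832539831959551)) (T.h (P (nat_lit 0)) (P (nat_lit 211185123273696)))) (T.h (P (nat_lit 0)) (M (nat_lit 151252842455615))))) (T.h (T.h (T.h (P (nat_lit 0)) (M (nat_lit 1501108471597776895))) (P (nat_lit 0)))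 (T.h (T.h (P (nat_lit 0)) (P (nat_lit 301418777937376))) (P (nat_lit 0)))))))), (T.h (T.h (T.h (P (nat_lit 3301555748291823238555111522304)) (T.h (P (nat_lit 0)) (T.h (M (nat_lit 89343034964519540850950143)) (T.h (P (nat_lit 0)) (P (nat_lit 208395178204777676800)))))) (T.h (P (nat_lit 0)) (T.h (T.h (P (nat_lit 17707193137286470468370432)) (T.h (P (nat_lit 0)) (M (nat_lit 166703257819371536383)))) (T.h (P (nat_lit 0)) (P (nat_lit 33645545654992240640)))))) (T.h (T.h (P (nat_lit 0)) (T.h (T.h (P (nat_lit 0)) (T.h (M (nat_lit 507435679304511565856767)) (T.h (P (nat_lit 0)) (M (nat_lit 1655541423664332799))))) (T.h (P (nat_lit 0)) (T.h (T.h (P (nat_lit 0)) (P (nat_lit 650939728240377856))) (P (nat_lit 0)))))) (T.h (T.h (T.h (P (nat_lit 12361463528585721553092608)) (T.h (P (nat_lit 0)) (P (nat_lit 1459483441687567532032)))) (T.h (P (nat_lit 0)) (M (nat_lit 180734051640347197439)))) (T.h (T.h (P (nat_lit 0)) (T.h (T.h (P (nat_lit 0)) (M (nat_lit 297464782068645887)))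 (P (nat_lit 0)))) (P (nat_lit 45119641644947210240)))))), (P (nat_lit 0)), (P (nat_lit 0))]
def lP22_42 : List (T ℤ) := [(T.h (T.h (P (nat_lit 0)) (T.h (T.h (P (nat_lit 0)) (T.h (P (nat_lit 60883256690989353754689536)) (T.h (P (nat_lit 0)) (T.h (M (nat_lit 43666829013879357439)) (T.h (P (nat_lit 0)) (M (nat_lit 76044014823727))))))) (T.h (P (nat_lit 0)) (T.h (T.h (P (nat_lit 0)) (T.h (M (nat_lit 42063747234597437439)) (T.h (P (nat_lit 0)) (P (nat_lit 100633830132304))))) (T.h (P (nat_lit 0)) (T.h (T.h (P (nat_lit 0)) (M (nat_lit 1677232300423))) (P (nat_lit 0)))))))) (T.h (T.h (T.h (P (nat_lit 44043784279207796534442721280)) (T.h (P (nat_lit 0)) (T.h (P (nat_lit 46838045802751248564224)) (T.h (P (nat_lit 0)) (M (nat_lit 75287729253220351)))))) (T.h (P (nat_lit 0)) (T.h (T.h (P (nat_lit 37034566795540832452608)) (T.h (P (nat_lit 0)) (M (nat_lit 188076409481560063)))) (T.h (P (nat_lit 0)) (P (nat_lit 104435568755769344)))))) (T.h (T.h (P (nat_lit 0))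 (T.h (T.h (P (nat_lit 0)) (T.h (P (nat_lit 195431889491831291904)) (T.h (P (nat_lit 0)) (M (nat_lit 303064938009303))))) (T.h (P (nat_lit 0)) (T.h (T.h (P (nat_lit 0)) (P (nat_lit 163138853477600))) (P (nat_lit 0)))))) (T.h (T.h (T.h (P (nat_lit 253142148029226709680128)) (T.h (P (nat_lit 0)) (M (nat_lit 446840307743752191)))) (T.h (P (nat_lit 0)) (P (nat_lit 361247566721351680)))) (T.h (T.h (P (nat_lit 0)) (T.h (T.h (P (nat_lit 0)) (P (nat_lit 323372860184928))) (P (nat_lit 0)))) (P (nat_lit 62156344611700736))))))), (T.h (T.h (P (nat_lit 0)) (T.h (T.h (P (nat_lit 57994180896958734397274587136)) (T.h (P (nat_lit 0)) (T.h (P (nat_lit 138365192951853861568512)) (T.h (P (nat_lit 0)) (P (nat_lit 356404639466291200)))))) (T.h (P (nat_lit 0)) (T.h (T.h (M (nat_lit 82052631822402672656383)) (T.h (P (nat_lit 0)) (P (nat_lit 271140438034104320)))) (T.h (P (nat_lit 0)) (P (nat_lit 18722625397096448))))))) (T.h (T.h (T.h (P (nat_lit 0)) (T.h (M (nat_lit 55183755610216487687553023))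 (T.h (P (nat_lit 0)) (T.h (M (nat_lit 456867531302379716607)) (T.h (P (nat_lit 0)) (M (nat_lit 251209558520975))))))) (T.h (P (nat_lit 0)) (T.h (T.h (P (nat_lit 0)) (T.h (M (nat_lit 710011158853058559999)) (T.h (P (nat_lit 0)) (P (nat_lit 155543897614848))))) (T.h (P (nat_lit 0)) (T.h (T.h (P (nat_lit 0)) (P (nat_lit 359069423341744))) (P (nat_lit 0))))))) (T.h (T.h (P (nat_lit 0)) (T.h (T.h (P (nat_lit 414021819013039906619392)) (T.h (P (nat_lit 0)) (M (nat_lit 2163235364009197567)))) (T.h (P (nat_lit 0)) (M (nat_lit 278065717091827711))))) (T.h (T.h (T.h (P (nat_lit 0)) (T.h (M (nat_lit 408267799929229934591)) (T.h (P (nat_lit 0)) (P (nat_lit 126251188707872))))) (T.h (P (nat_lit 0)) (T.h (T.h (P (nat_lit 0)) (P (nat_lit 63051125709488))) (P (nat_lit 0))))) (T.h (T.h (P (nat_lit 0)) (P (nat_lit 1427481727700271104))) (T.h (T.h (T.h (P (nat_lit 0)) (M (nat_lit 288641118537471))) (P (nat_lit 0))) (P (nat_lit 0)))))))), (T.h (T.h (P (nat_lit 0)) (T.h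 (T.h (P (nat_lit 0)) (T.h (P (nat_lit 152274439347066394745241600)) (T.h (P (nat_lit 0)) (T.h (M (nat_lit 204878908917010137087)) (T.h (P (nat_lit 0)) (M (nat_lit 337438848760703))))))) (T.h (P (nat_lit 0)) (T.h (T.h (P (nat_lit 0)) (T.h (P (nat_lit 357963800871996227584)) (T.h (P (nat_lit 0)) (P (nat_lit 372970920918720))))) (T.h (P (nat_lit 0)) (T.h (T.h (P (nat_lit 0)) (M (nat_lit 89551540365695))) (P (nat_lit 0)))))))) (T.h (T.h (T.h (M (nat_lit 60396523417661277367456235519)) (T.h (P (nat_lit 0)) (T.h (P (nat_lit 187537380045765723815936)) (T.h (P (nat_lit 0)) (M (nat_lit 964231163423981567)))))) (T.h (P (nat_lit 0)) (T.h (T.h (P (nat_lit 647252363648153207963648)) (T.h (P (nat_lit 0)) (M (nat_lit 4156243945349283839)))) (T.h (P (nat_lit 0)) (P (nat_lit 543528863019859968)))))) (T.h (T.h (P (nat_lit 0)) (T.h (T.h (P (nat_lit 0)) (T.h (P (nat_lit 488454092369736761344)) (T.h (P (nat_lit 0)) (M (nat_lit 1451454010824831))))) (T.h (P (nat_lit 0))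 (T.h (T.h (P (nat_lit 0)) (P (nat_lit 37610081382656))) (P (nat_lit 0)))))) (T.h (T.h (T.h (M (nat_lit 335287961257012828831743)) (T.h (P (nat_lit 0)) (P (nat_lit 3160839316528529408)))) (T.h (P (nat_lit 0)) (P (nat_lit 1992973045643804672)))) (T.h (T.h (P (nat_lit 0)) (T.h (T.h (P (nat_lit 0)) (M (nat_lit 123070171246079))) (P (nat_lit 0)))) (P (nat_lit 427508663967023104))))))), (T.h (T.h (P (nat_lit 0)) (T.h (T.h (P (nat_lit 31355182144734644600601313280)) (T.h (P (nat_lit 0)) (T.h (M (nat_lit 86814748374106722271231)) (T.h (P (nat_lit 0)) (P (nat_lit 278629626578894848)))))) (T.h (P (nat_lit 0)) (T.h (T.h (P (nat_lit 313999411273976172773376)) (T.h (P (nat_lit 0)) (M (nat_lit 644582546352783359)))) (T.h (P (nat_lit 0)) (M (nat_lit 219464623830532095))))))) (T.h (T.h (T.h (P (nat_lit 0)) (T.h (M (nat_lit 289142186177757444164288511)) (T.h (P (nat_lit 0)) (T.h (M (nat_lit 753317034280701919231)) (T.h (P (nat_lit 0)) (P (nat_lit 112935901787280)))))))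 (T.h (P (nat_lit 0)) (T.h (T.h (P (nat_lit 0)) (T.h (P (nat_lit 856394981560285134848)) (T.h (P (nat_lit 0)) (P (nat_lit 85471751437776))))) (T.h (P (nat_lit 0)) (T.h (T.h (P (nat_lit 0)) (M (nat_lit 1685012039590527))) (P (nat_lit 0))))))) (T.h (T.h (P (nat_lit 0)) (T.h (T.h (M (nat_lit 86814748374106722271231)) (T.h (P (nat_lit 0)) (P (nat_lit 856088841157214208)))) (T.h (P (nat_lit 0)) (M (nat_lit 644582546352783359))))) (T.h (T.h (T.h (P (nat_lit 0)) (T.h (M (nat_lit 753317034280701919231)) (T.h (P (nat_lit 0)) (M (nat_lit 408969687426783))))) (T.h (P (nat_lit 0)) (T.h (T.h (P (nat_lit 0)) (P (nat_lit 85471751437776))) (P (nat_lit 0))))) (T.h (T.h (P (nat_lit 0)) (P (nat_lit 278629626578894848))) (T.h (T.h (T.h (P (nat_lit 0)) (P (nat_lit 112935901787280))) (P (nat_lit 0))) (P (nat_lit 0)))))))), (T.h (T.h (P (nat_lit 0)) (T.h (T.h (P (nat_lit 0)) (T.h (P (nat_lit 9305928710574405995986944)) (T.h (P (nat_lit 0)) (P (nat_lit 84827307486337826816)))))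 (T.h (P (nat_lit 0)) (T.h (T.h (P (nat_lit 0)) (M (nat_lit 158179161490124177407))) (P (nat_lit 0)))))) (T.h (T.h (T.h (P (nat_lit 192302244859030228405919416320)) (T.h (P (nat_lit 0)) (T.h (P (nat_lit 855545384571982034501632)) (T.h (P (nat_lit 0)) (M (nat_lit 820647773044277247)))))) (T.h (P (nat_lit 0)) (T.h (T.h (M (nat_lit 573379693030579453820927)) (T.h (P (nat_lit 0)) (P (nat_lit 538726791096795136)))) (T.h (P (nat_lit 0)) (P (nat_lit 42861097446014976)))))) (T.h (T.h (P (nat_lit 0)) (T.h (T.h (P (nat_lit 0)) (M (nat_lit 260449137613005127679))) (P (nat_lit 0)))) (T.h (T.h (T.h (P (nat_lit 165573790160568887279616)) (T.h (P (nat_lit 0)) (M (nat_lit 361050061496123391)))) (T.h (P (nat_lit 0)) (P (nat_lit 17145621580251136)))) (T.h (P (nat_lit 0)) (P (nat_lit 50225268868874240))))))), (P (nat_lit 0)), (T.h (T.h (T.h (P (nat_lit 8948906623492049372850681806848)) (T.h (P (nat_lit 0)) (T.h (P (nat_lit 36267432805759554466873344)) (T.h (P (nat_lit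 0)) (T.h (M (nat_lit 22390230653014638591)) (T.h (P (nat_lit 0)) (P (nat_lit 20292413701888)))))))) (T.h (P (nat_lit 0)) (T.h (T.h (P (nat_lit 58882065422910461715677184)) (T.h (P (nat_lit 0)) (T.h (P (nat_lit 30799174921044885504)) (T.h (P (nat_lit 0)) (M (nat_lit 53105316292191)))))) (T.h (P (nat_lit 0)) (T.h (T.h (M (nat_lit 68214842172949659647)) (T.h (P (nat_lit 0)) (P (nat_lit 105175988639904)))) (T.h (P (nat_lit 0)) (P (nat_lit 175710697989216)))))))) (T.h (T.h (P (nat_lit 0)) (T.h (T.h (P (nat_lit 0)) (T.h (P (nat_lit 310208173592460922978304)) (T.h (P (nat_lit 0)) (M (nat_lit 43875112969502719))))) (T.h (P (nat_lit 0)) (T.h (T.h (P (nat_lit 0)) (P (nat_lit 271959458402074624))) (P (nat_lit 0)))))) (T.h (T.h (T.h (M (nat_lit 4345724974159103378063359)) (T.h (P (nat_lit 0)) (T.h (P (nat_lit 173799879924342849536)) (T.h (P (nat_lit 0)) (M (nat_lit 127853412312319)))))) (T.h (P (nat_lit 0)) (T.h (T.h (P (nat_lit 125185706528037928960)) (T.h (P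 (nat_lit 0)) (M (nat_lit 781042328595599)))) (T.h (P (nat_lit 0)) (M (nat_lit 1144396778049439)))))) (T.h (T.h (P (nat_lit 0)) (T.h (T.h (P (nat_lit 0)) (P (nat_lit 427093878656663552))) (P (nat_lit 0)))) (T.h (T.h (T.h (M (nat_lit 150082100589540409343)) (T.h (P (nat_lit 0)) (M (nat_lit 188657044678431)))) (T.h (P (nat_lit 0)) (M (nat_lit 1228136039916415)))) (T.h (P (nat_lit 0)) (P (nat_lit 269274458298416)))))))), (T.h (T.h (T.h (P (nat_lit 0)) (T.h (P (nat_lit 43608930294439283764622262272)) (T.h (P (nat_lit 0)) (T.h (M (nat_lit 100120019111155228213247)) (T.h (P (nat_lit 0)) (P (nat_lit 64711752328642560))))))) (T.h (P (nat_lit 0)) (T.h (T.h (P (nat_lit 0)) (T.h (P (nat_lit 164091087614450394464256)) (T.h (P (nat_lit 0)) (P (nat_lit 214091041081786368))))) (T.h (P (nat_lit 0)) (T.h (T.h (P (nat_lit 0)) (P (nat_lit 222728218553090048))) (P (nat_lit 0))))))) (T.h (T.h (P (nat_lit 0)) (T.h (T.h (P (nat_lit 68488995703743986117115904)) (T.h (P (nat_lit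 0)) (T.h (M (nat_lit 737849732724688945151)) (T.h (P (nat_lit 0)) (P (nat_lit 388386241675200)))))) (T.h (P (nat_lit 0)) (T.h (T.h (M (nat_lit 421980741775222898687)) (T.h (P (nat_lit 0)) (P (nat_lit 157340725023440)))) (T.h (P (nat_lit 0)) (M (nat_lit 237472748892783))))))) (T.h (T.h (T.h (P (nat_lit 0)) (T.h (P (nat_lit 117187682172017768923136)) (T.h (P (nat_lit 0)) (P (nat_lit 130422747513307136))))) (T.h (P (nat_lit 0)) (T.h (T.h (P (nat_lit 0)) (M (nat_lit 1844812118227271679))) (P (nat_lit 0))))) (T.h (T.h (P (nat_lit 0)) (T.h (T.h (M (nat_lit 1263088078980512743423)) (T.h (P (nat_lit 0)) (P (nat_lit 242180685200)))) (T.h (P (nat_lit 0)) (P (nat_lit 465867464498256))))) (T.h (T.h (T.h (P (nat_lit 0)) (P (nat_lit 253153717661990912))) (P (nat_lit 0))) (T.h (T.h (P (nat_lit 0)) (M (nat_lit 210926831149967))) (P (nat_lit 0))))))))]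
def lP22_43 : List (T ℤ) := [(T.h (T.h (T.h (P (nat_lit 8672144251072055142269421879296)) (T.h (P (nat_lit 0)) (T.h (P (nat_lit 282432436235834643670106112)) (T.h (P (nat_lit 0)) (T.h (M (nat_lit 647444136297196683263)) (T.h (P (nat_lit 0)) (P (nat_lit 331124111819904)))))))) (T.h (P (nat_lit 0)) (T.h (T.h (P (nat_lit 52203338297337221887295488)) (T.h (P (nat_lit 0)) (T.h (P (nat_lit 319235676355883433984)) (T.h (P (nat_lit 0)) (P (nat_lit 96332119943040)))))) (T.h (P (nat_lit 0)) (T.h (T.h (P (nat_lit 182219310675538214912)) (T.h (P (nat_lit 0)) (M (nat_lit 38227661955583)))) (T.h (P (nat_lit 0)) (P (nat_lit 138181558684160)))))))) (T.h (T.h (P (nat_lit 0)) (T.h (T.h (P (nat_lit 0)) (T.h (P (nat_lit 1827916960278311027605504)) (T.h (P (nat_lit 0)) (M (nat_lit 2133192283411972095))))) (T.h (P (nat_lit 0)) (T.h (T.h (P (nat_lit 0)) (P (nat_lit 2261587329154351104))) (P (nat_lit 0)))))) (T.h (T.h (T.h (M (nat_lit 98174644956404253603135487)) (T.h (P (nat_lit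 0)) (T.h (P (nat_lit 253797208460602900480)) (T.h (P (nat_lit 0)) (M (nat_lit 510290268200639)))))) (T.h (P (nat_lit 0)) (T.h (T.h (M (nat_lit 494864817962816110591)) (T.h (P (nat_lit 0)) (M (nat_lit 1067173656779327)))) (T.h (P (nat_lit 0)) (P (nat_lit 1595243876387712)))))) (T.h (T.h (P (nat_lit 0)) (T.h (T.h (P (nat_lit 0)) (P (nat_lit 1867445329870454784))) (P (nat_lit 0)))) (T.h (T.h (T.h (P (nat_lit 184313809258969825280)) (T.h (P (nat_lit 0)) (M (nat_lit 33754948139007)))) (T.h (P (nat_lit 0)) (P (nat_lit 219326478655680)))) (T.h (P (nat_lit 0)) (P (nat_lit 170268051335168)))))))), (T.h (T.h (T.h (P (nat_lit 0)) (T.h (M (nat_lit 74475794080812514501713723391)) (T.h (P (nat_lit 0)) (T.h (P (nat_lit 306858456079746235105280)) (T.h (P (nat_lit 0)) (M (nat_lit 300583305836429311))))))) (T.h (P (nat_lit 0)) (T.h (T.h (P (nat_lit 0)) (T.h (M (nat_lit 382880184728872976121855)) (T.h (P (nat_lit 0)) (P (nat_lit 899285264921116672))))) (T.h (P (nat_lit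 0)) (T.h (T.h (P (nat_lit 0)) (M (nat_lit 876810221174358015))) (P (nat_lit 0))))))) (T.h (T.h (P (nat_lit 0)) (T.h (T.h (P (nat_lit 209858491789218732050481152)) (T.h (P (nat_lit 0)) (T.h (M (nat_lit 278640035212979863551)) (T.h (P (nat_lit 0)) (M (nat_lit 64243407402943)))))) (T.h (P (nat_lit 0)) (T.h (T.h (M (nat_lit 343672507904578027519)) (T.h (P (nat_lit 0)) (M (nat_lit 3895056786922399)))) (T.h (P (nat_lit 0)) (P (nat_lit 293444002755552))))))) (T.h (T.h (T.h (P (nat_lit 0)) (T.h (M (nat_lit 456516344814740845887487)) (T.h (P (nat_lit 0)) (P (nat_lit 27812594155913216))))) (T.h (P (nat_lit 0)) (T.h (T.h (P (nat_lit 0)) (P (nat_lit 2203254695171620864))) (P (nat_lit 0))))) (T.h (T.h (P (nat_lit 0)) (T.h (T.h (M (nat_lit 1996911699826835455999)) (T.h (P (nat_lit 0)) (M (nat_lit 4400504091273839)))) (T.h (P (nat_lit 0)) (P (nat_lit 295001769853296))))) (T.h (T.h (T.h (P (nat_lit 0)) (M (nat_lit 343345129932554239))) (P (nat_lit 0))) (T.h (T.h (P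 (nat_lit 0)) (P (nat_lit 873946781694800))) (P (nat_lit 0)))))))), (T.h (T.h (T.h (M (nat_lit 20960660358669256065779058606079)) (T.h (P (nat_lit 0)) (T.h (P (nat_lit 86980153737672610187051008)) (T.h (P (nat_lit 0)) (P (nat_lit 227044292492108234752)))))) (T.h (P (nat_lit 0)) (T.h (T.h (M (nat_lit 196355346290537000266104831)) (T.h (P (nat_lit 0)) (M (nat_lit 95021344757118926847)))) (T.h (P (nat_lit 0)) (P (nat_lit 492526696763886665728)))))) (T.h (T.h (P (nat_lit 0)) (T.h (T.h (P (nat_lit 0)) (T.h (M (nat_lit 2599759769233193435135999)) (T.h (P (nat_lit 0)) (P (nat_lit 1654604950673948672))))) (T.h (P (nat_lit 0)) (T.h (T.h (P (nat_lit 0)) (P (nat_lit 4155629438799446016))) (P (nat_lit 0)))))) (T.h (T.h (T.h (P (nat_lit 86980153737672610187051008)) (T.h (P (nat_lit 0)) (P (nat_lit 211074811160797642752)))) (T.h (P (nat_lit 0)) (M (nat_lit 95021344757118926847)))) (T.h (T.h (P (nat_lit 0)) (T.h (T.h (P (nat_lit 0)) (P (nat_lit 1654604950673948672)))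 (P (nat_lit 0)))) (P (nat_lit 227044292492108234752)))))), (T.h (T.h (P (nat_lit 0)) (T.h (T.h (P (nat_lit 0)) (T.h (P (nat_lit 4354070054196628359741440)) (T.h (P (nat_lit 0)) (T.h (M (nat_lit 7919079678348886015)) (T.h (P (nat_lit 0)) (M (nat_lit 16789819801463))))))) (T.h (P (nat_lit 0)) (T.h (T.h (P (nat_lit 0)) (T.h (M (nat_lit 23581198596863688703)) (T.h (P (nat_lit 0)) (M (nat_lit 21853032059887))))) (T.h (P (nat_lit 0)) (T.h (T.h (P (nat_lit 0)) (M (nat_lit 38572669247583))) (P (nat_lit 0)))))))) (T.h (T.h (T.h (P (nat_lit 5685019875831698336482590720)) (T.h (P (nat_lit 0)) (T.h (P (nat_lit 6175853262312199684096)) (T.h (P (nat_lit 0)) (M (nat_lit 2208110231322623)))))) (T.h (P (nat_lit 0)) (T.h (T.h (M (nat_lit 25833449350720953253887)) (T.h (P (nat_lit 0)) (P (nat_lit 104075782460309504)))) (T.h (P (nat_lit 0)) (P (nat_lit 68134088225685504)))))) (T.h (T.h (P (nat_lit 0)) (T.h (T.h (P (nat_lit 0)) (T.h (P (nat_lit 54497507742234705920)) (T.h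 (P (nat_lit 0)) (M (nat_lit 26900757114903))))) (T.h (P (nat_lit 0)) (T.h (T.h (P (nat_lit 0)) (M (nat_lit 92577900358719))) (P (nat_lit 0)))))) (T.h (T.h (T.h (P (nat_lit 22558137889650198446080)) (T.h (P (nat_lit 0)) (M (nat_lit 22392977002594303)))) (T.h (P (nat_lit 0)) (P (nat_lit 51659034939162624)))) (T.h (T.h (P (nat_lit 0)) (T.h (T.h (P (nat_lit 0)) (P (nat_lit 27630245357104))) (P (nat_lit 0)))) (M (nat_lit 43592615886290943))))))), (T.h (T.h (P (nat_lit 0)) (T.h (T.h (P (nat_lit 165657683186759434277748736)) (T.h (P (nat_lit 0)) (T.h (M (nat_lit 9028346044505141542911)) (T.h (P (nat_lit 0)) (M (nat_lit 169082224198090751)))))) (T.h (P (nat_lit 0)) (T.h (T.h (M (nat_lit 151525430621372818653183)) (T.h (P (nat_lit 0)) (M (nat_lit 327822764628525055)))) (T.h (P (nat_lit 0)) (M (nat_lit 4766301716283391))))))) (T.h (T.h (T.h (P (nat_lit 0)) (T.h (M (nat_lit 69642946525185967036301311)) (T.h (P (nat_lit 0)) (T.h (P (nat_lit 30453531548156166144))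 (T.h (P (nat_lit 0)) (M (nat_lit 22027988921247))))))) (T.h (P (nat_lit 0)) (T.h (T.h (P (nat_lit 0)) (T.h (P (nat_lit 398757292396802736128)) (T.h (P (nat_lit 0)) (P (nat_lit 713975442312624))))) (T.h (P (nat_lit 0)) (T.h (T.h (P (nat_lit 0)) (P (nat_lit 20469176266336))) (P (nat_lit 0))))))) (T.h (T.h (P (nat_lit 0)) (T.h (T.h (P (nat_lit 12971391210968743673856)) (T.h (P (nat_lit 0)) (P (nat_lit 27697189017501696)))) (T.h (P (nat_lit 0)) (M (nat_lit 503218121177612287))))) (T.h (T.h (T.h (P (nat_lit 0)) (T.h (M (nat_lit 107611019278756610047)) (T.h (P (nat_lit 0)) (M (nat_lit 45475820045455))))) (T.h (P (nat_lit 0)) (T.h (T.h (P (nat_lit 0)) (P (nat_lit 145511679509456))) (P (nat_lit 0))))) (T.h (T.h (P (nat_lit 0)) (P (nat_lit 721582360884019200))) (T.h (T.h (T.h (P (nat_lit 0)) (P (nat_lit 20495869015824))) (P (nat_lit 0))) (P (nat_lit 0)))))))), (T.h (T.h (P (nat_lit 0)) (T.h (T.h (P (nat_lit 0)) (T.h (P (nat_lit 166380298136373605257183232))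 (T.h (P (nat_lit 0)) (T.h (P (nat_lit 606827558921878634496)) (T.h (P (nat_lit 0)) (M (nat_lit 110394651994687))))))) (T.h (P (nat_lit 0)) (T.h (T.h (P (nat_lit 0)) (T.h (M (nat_lit 211747638831982051327)) (T.h (P (nat_lit 0)) (P (nat_lit 713386573200768))))) (T.h (P (nat_lit 0)) (T.h (T.h (P (nat_lit 0)) (M (nat_lit 262375974971583))) (P (nat_lit 0)))))))) (T.h (T.h (T.h (M (nat_lit 179129466089127010116653023231)) (T.h (P (nat_lit 0)) (T.h (P (nat_lit 490425074098850205007872)) (T.h (P (nat_lit 0)) (M (nat_lit 318881228964265983)))))) (T.h (P (nat_lit 0)) (T.h (T.h (M (nat_lit 75495560259066698661887)) (T.h (P (nat_lit 0)) (P (nat_lit 2923461180412002304)))) (T.h (P (nat_lit 0)) (P (nat_lit 990591122640437248)))))) (T.h (T.h (P (nat_lit 0)) (T.h (T.h (P (nat_lit 0)) (T.h (P (nat_lit 1638052505897047949312)) (T.h (P (nat_lit 0)) (M (nat_lit 187919257376127))))) (T.h (P (nat_lit 0)) (T.h (T.h (P (nat_lit 0)) (M (nat_lit 2047302296035583))) (P (nat_lit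 0)))))) (T.h (T.h (T.h (P (nat_lit 214622762663695834152960)) (T.h (P (nat_lit 0)) (M (nat_lit 774191190274736127)))) (T.h (P (nat_lit 0)) (M (nat_lit 3427589559710580735)))) (T.h (T.h (P (nat_lit 0)) (T.h (T.h (P (nat_lit 0)) (P (nat_lit 712602456166080))) (P (nat_lit 0)))) (M (nat_lit 1087246410095067135))))))), (T.h (T.h (P (nat_lit 0)) (T.h (T.h (M (nat_lit 51498733683589352236464996351)) (T.h (P (nat_lit 0)) (T.h (M (nat_lit 775160589488257492844543)) (T.h (P (nat_lit 0)) (M (nat_lit 671799880567799807)))))) (T.h (P (nat_lit 0)) (T.h (T.h (P (nat_lit 225288650562591942246400)) (T.h (P (nat_lit 0)) (P (nat_lit 682313104949608448)))) (T.h (P (nat_lit 0)) (M (nat_lit 106478721017135103))))))) (T.h (T.h (T.h (P (nat_lit 0)) (T.h (P (nat_lit 272424232745593113487081472)) (T.h (P (nat_lit 0)) (T.h (M (nat_lit 753278779481992986623)) (T.h (P (nat_lit 0)) (P (nat_lit 355868859043104))))))) (T.h (P (nat_lit 0)) (T.h (T.h (P (nat_lit 0)) (T.h (M (nat_lit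 700055577696789331967)) (T.h (P (nat_lit 0)) (M (nat_lit 4816364778717183))))) (T.h (P (nat_lit 0)) (T.h (T.h (P (nat_lit 0)) (P (nat_lit 834357742763952))) (P (nat_lit 0))))))) (T.h (T.h (P (nat_lit 0)) (T.h (T.h (M (nat_lit 121919307147249805426687)) (T.h (P (nat_lit 0)) (P (nat_lit 2380572877393657856)))) (T.h (P (nat_lit 0)) (M (nat_lit 947020992432717823))))) (T.h (T.h (T.h (P (nat_lit 0)) (T.h (M (nat_lit 786378330991149187071)) (T.h (P (nat_lit 0)) (P (nat_lit 373288598706320))))) (T.h (P (nat_lit 0)) (T.h (T.h (P (nat_lit 0)) (M (nat_lit 4341126166089503))) (P (nat_lit 0))))) (T.h (T.h (P (nat_lit 0)) (M (nat_lit 1612725140369457151))) (T.h (T.h (T.h (P (nat_lit 0)) (P (nat_lit 655659257804496))) (P (nat_lit 0))) (P (nat_lit 0)))))))), (T.h (T.h (P (nat_lit 0)) (T.h (T.h (P (nat_lit 0)) (T.h (P (nat_lit 84623785236052614221660160)) (T.h (P (nat_lit 0)) (M (nat_lit 194204727048037990399))))) (T.h (P (nat_lit 0)) (T.h (T.h (P (nat_lit 0)) (P (nat_lit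 104894994393145016320))) (P (nat_lit 0)))))) (T.h (T.h (T.h (M (nat_lit 330764407359453632984548114431)) (T.h (P (nat_lit 0)) (T.h (M (nat_lit 531165350599934173249535)) (T.h (P (nat_lit 0)) (M (nat_lit 586040390698598399)))))) (T.h (P (nat_lit 0)) (T.h (T.h (M (nat_lit 452142118375054270005247)) (T.h (P (nat_lit 0)) (P (nat_lit 6636718322802819072)))) (T.h (P (nat_lit 0)) (M (nat_lit 743325176508481535)))))) (T.h (T.h (P (nat_lit 0)) (T.h (T.h (P (nat_lit 0)) (M (nat_lit 2499399271706366312447))) (P (nat_lit 0)))) (T.h (T.h (T.h (P (nat_lit 274978202678897831575552)) (T.h (P (nat_lit 0)) (P (nat_lit 77355624508030976)))) (T.h (P (nat_lit 0)) (M (nat_lit 589104824327241727)))) (T.h (P (nat_lit 0)) (M (nat_lit 235436318599872511)))))))]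
def lP22_44 : List (T ℤ) := [(T.h (T.h (T.h (P (nat_lit 0)) (T.h (P (nat_lit 497432562566840426191388672)) (T.h (P (nat_lit 0)) (T.h (P (nat_lit 2862054342291145883648)) (T.h (P (nat_lit 0)) (P (nat_lit 9812205560987648))))))) (T.h (P (nat_lit 0)) (T.h (T.h (P (nat_lit 0)) (T.h (M (nat_lit 40027040615283331956735)) (T.h (P (nat_lit 0)) (M (nat_lit 37782777461571583))))) (T.h (P (nat_lit 0)) (T.h (T.h (P (nat_lit 0)) (P (nat_lit 36767111433682944))) (P (nat_lit 0))))))) (T.h (T.h (P (nat_lit 0)) (T.h (T.h (P (nat_lit 70526209065233796783144960)) (T.h (P (nat_lit 0)) (T.h (M (nat_lit 103247090398378590207)) (T.h (P (nat_lit 0)) (P (nat_lit 33481742598912)))))) (T.h (P (nat_lit 0)) (T.h (T.h (M (nat_lit 817769225884234940415)) (T.h (P (nat_lit 0)) (M (nat_lit 138743880398239)))) (T.h (P (nat_lit 0)) (P (nat_lit 5629987302560))))))) (T.h (T.h (T.h (P (nat_lit 0)) (T.h (P (nat_lit 6876364827149293584384)) (T.h (P (nat_lit 0)) (P (nat_lit 45885516106907648)))))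 (T.h (P (nat_lit 0)) (T.h (T.h (P (nat_lit 0)) (M (nat_lit 145468263997390847))) (P (nat_lit 0))))) (T.h (T.h (P (nat_lit 0)) (T.h (T.h (P (nat_lit 23338111321054904320)) (T.h (P (nat_lit 0)) (P (nat_lit 18354663940000)))) (T.h (P (nat_lit 0)) (P (nat_lit 346327786339536))))) (T.h (T.h (T.h (P (nat_lit 0)) (P (nat_lit 6341612324782080))) (P (nat_lit 0))) (T.h (T.h (P (nat_lit 0)) (M (nat_lit 20915930440255))) (P (nat_lit 0)))))))), (T.h (T.h (T.h (M (nat_lit 26819273438698777877612882558975)) (T.h (P (nat_lit 0)) (T.h (M (nat_lit 34474436911378699967791103)) (T.h (P (nat_lit 0)) (T.h (M (nat_lit 43197256603180990463)) (T.h (P (nat_lit 0)) (P (nat_lit 15993966832384)))))))) (T.h (P (nat_lit 0)) (T.h (T.h (P (nat_lit 94956833367416378281164800)) (T.h (P (nat_lit 0)) (T.h (P (nat_lit 338747948474786906112)) (T.h (P (nat_lit 0)) (M (nat_lit 466928359457407)))))) (T.h (P (nat_lit 0)) (T.h (T.h (M (nat_lit 105726602434612035583)) (T.h (P (nat_lit 0)) (P (nat_lit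 9606960604224)))) (T.h (P (nat_lit 0)) (M (nat_lit 144862093652351)))))))) (T.h (T.h (P (nat_lit 0)) (T.h (T.h (P (nat_lit 0)) (T.h (P (nat_lit 452762698442645379743744)) (T.h (P (nat_lit 0)) (M (nat_lit 568913496075010047))))) (T.h (P (nat_lit 0)) (T.h (T.h (P (nat_lit 0)) (P (nat_lit 68776434946539520))) (P (nat_lit 0)))))) (T.h (T.h (T.h (M (nat_lit 102711645931231509722693631)) (T.h (P (nat_lit 0)) (T.h (P (nat_lit 358647636008428896256)) (T.h (P (nat_lit 0)) (P (nat_lit 139694028686272)))))) (T.h (P (nat_lit 0)) (T.h (T.h (M (nat_lit 534161483143095255039)) (T.h (P (nat_lit 0)) (P (nat_lit 665330991811392)))) (T.h (P (nat_lit 0)) (P (nat_lit 262688387398912)))))) (T.h (T.h (P (nat_lit 0)) (T.h (T.h (P (nat_lit 0)) (M (nat_lit 536783623510491135))) (P (nat_lit 0)))) (T.h (T.h (T.h (M (nat_lit 338273258655384076287)) (T.h (P (nat_lit 0)) (P (nat_lit 5134246787648)))) (T.h (P (nat_lit 0)) (P (nat_lit 1638605785130944)))) (T.h (P (nat_lit 0)) (M (nat_lit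 176948586303359)))))))), (T.h (T.h (T.h (P (nat_lit 0)) (T.h (P (nat_lit 18006126417590266352059285504)) (T.h (P (nat_lit 0)) (T.h (P (nat_lit 161363873385588098859008)) (T.h (P (nat_lit 0)) (M (nat_lit 111337717693054975))))))) (T.h (P (nat_lit 0)) (T.h (T.h (P (nat_lit 0)) (T.h (P (nat_lit 166813920078919525990400)) (T.h (P (nat_lit 0)) (M (nat_lit 1138641939821658111))))) (T.h (P (nat_lit 0)) (T.h (T.h (P (nat_lit 0)) (P (nat_lit 260646802695290880))) (P (nat_lit 0))))))) (T.h (T.h (P (nat_lit 0)) (T.h (T.h (M (nat_lit 174896056153274827600297983)) (T.h (P (nat_lit 0)) (T.h (P (nat_lit 276686059498119364608)) (T.h (P (nat_lit 0)) (M (nat_lit 1080033671493215)))))) (T.h (P (nat_lit 0)) (T.h (T.h (M (nat_lit 659523898980142415871)) (T.h (P (nat_lit 0)) (P (nat_lit 313339886205808)))) (T.h (P (nat_lit 0)) (M (nat_lit 164545574209455))))))) (T.h (T.h (T.h (P (nat_lit 0)) (T.h (P (nat_lit 240450080164787395756032)) (T.h (P (nat_lit 0)) (M (nat_lit 267169269056454655)))))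 (T.h (P (nat_lit 0)) (T.h (T.h (P (nat_lit 0)) (P (nat_lit 1658338079030738944))) (P (nat_lit 0))))) (T.h (T.h (P (nat_lit 0)) (T.h (T.h (P (nat_lit 993715292942115012608)) (T.h (P (nat_lit 0)) (P (nat_lit 818787190557248)))) (T.h (P (nat_lit 0)) (M (nat_lit 1963943185040143))))) (T.h (T.h (T.h (P (nat_lit 0)) (M (nat_lit 272818288546512895))) (P (nat_lit 0))) (T.h (T.h (P (nat_lit 0)) (M (nat_lit 745048353148703))) (P (nat_lit 0)))))))), (T.h (T.h (T.h (P (nat_lit 9431356806008164362888463515648)) (T.h (P (nat_lit 0)) (T.h (M (nat_lit 68311294616328140016844799)) (T.h (P (nat_lit 0)) (P (nat_lit 288451859077039915008)))))) (T.h (P (nat_lit 0)) (T.h (T.h (P (nat_lit 118941544028583319870373888)) (T.h (P (nat_lit 0)) (M (nat_lit 48279662455234232319)))) (T.h (P (nat_lit 0)) (P (nat_lit 70264016489016197120)))))) (T.h (T.h (P (nat_lit 0)) (T.h (T.h (P (nat_lit 0)) (T.h (M (nat_lit 1978089946966143371575295)) (T.h (P (nat_lit 0)) (P (nat_lit 2720794459306983424)))))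 (T.h (P (nat_lit 0)) (T.h (T.h (P (nat_lit 0)) (M (nat_lit 603771901767450623))) (P (nat_lit 0)))))) (T.h (T.h (T.h (M (nat_lit 164393955999626290582781951)) (T.h (P (nat_lit 0)) (M (nat_lit 354375818373150801919)))) (T.h (P (nat_lit 0)) (P (nat_lit 1310144403147484823552)))) (T.h (T.h (P (nat_lit 0)) (T.h (T.h (P (nat_lit 0)) (P (nat_lit 1897252586358046720))) (P (nat_lit 0)))) (P (nat_lit 335746420760794628096)))))), (T.h (T.h (P (nat_lit 0)) (T.h (T.h (P (nat_lit 0)) (T.h (P (nat_lit 23381767355945894354616320)) (T.h (P (nat_lit 0)) (T.h (M (nat_lit 7445068234803380223)) (T.h (P (nat_lit 0)) (M (nat_lit 10339465218239))))))) (T.h (P (nat_lit 0)) (T.h (T.h (P (nat_lit 0)) (T.h (P (nat_lit 256980490934963666944)) (T.h (P (nat_lit 0)) (M (nat_lit 173328127994111))))) (T.h (P (nat_lit 0)) (T.h (T.h (P (nat_lit 0)) (P (nat_lit 92390346224128))) (P (nat_lit 0)))))))) (T.h (T.h (T.h (M (nat_lit 29811794875768097430166306815)) (T.h (P (nat_lit 0)) (T.h (P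 (nat_lit 14483498916290326691840)) (T.h (P (nat_lit 0)) (M (nat_lit 104316820470300671)))))) (T.h (P (nat_lit 0)) (T.h (T.h (P (nat_lit 506275462163121936793600)) (T.h (P (nat_lit 0)) (M (nat_lit 163866416494804991)))) (T.h (P (nat_lit 0)) (M (nat_lit 1512792907138695167)))))) (T.h (T.h (P (nat_lit 0)) (T.h (T.h (P (nat_lit 0)) (T.h (P (nat_lit 41452185600745537536)) (T.h (P (nat_lit 0)) (M (nat_lit 129680774576831))))) (T.h (P (nat_lit 0)) (T.h (T.h (P (nat_lit 0)) (P (nat_lit 323801007112640))) (P (nat_lit 0)))))) (T.h (T.h (T.h (P (nat_lit 18779666287450602340352)) (T.h (P (nat_lit 0)) (M (nat_lit 66990179196731391)))) (T.h (P (nat_lit 0)) (M (nat_lit 125947280191946751)))) (T.h (T.h (P (nat_lit 0)) (T.h (T.h (P (nat_lit 0)) (M (nat_lit 135092302434559))) (P (nat_lit 0)))) (M (nat_lit 23750232742199295))))))), (T.h (T.h (P (nat_lit 0)) (T.h (T.h (P (nat_lit 17704389529118597248316342272)) (T.h (P (nat_lit 0)) (T.h (P (nat_lit 179029490075745973698560))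 (T.h (P (nat_lit 0)) (P (nat_lit 328597930403921920)))))) (T.h (P (nat_lit 0)) (T.h (T.h (M (nat_lit 80612603565561887064063)) (T.h (P (nat_lit 0)) (P (nat_lit 261691826528878592)))) (T.h (P (nat_lit 0)) (P (nat_lit 552199261127180288))))))) (T.h (T.h (T.h (P (nat_lit 0)) (T.h (P (nat_lit 90555554163492652484395008)) (T.h (P (nat_lit 0)) (T.h (P (nat_lit 14186840661470216192)) (T.h (P (nat_lit 0)) (P (nat_lit 110851673169776))))))) (T.h (P (nat_lit 0)) (T.h (T.h (P (nat_lit 0)) (T.h (P (nat_lit 38138849773442039808)) (T.h (P (nat_lit 0)) (P (nat_lit 130585546475472))))) (T.h (P (nat_lit 0)) (T.h (T.h (P (nat_lit 0)) (P (nat_lit 1882318035580224))) (P (nat_lit 0))))))) (T.h (T.h (P (nat_lit 0)) (T.h (T.h (M (nat_lit 89931286064732739469311)) (T.h (P (nat_lit 0)) (M (nat_lit 271088118705799167)))) (T.h (P (nat_lit 0)) (M (nat_lit 315189760276332543))))) (T.h (T.h (T.h (P (nat_lit 0)) (T.h (M (nat_lit 71140088274038554623)) (T.h (P (nat_lit 0)) (M (nat_lit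 25054827595247))))) (T.h (P (nat_lit 0)) (T.h (T.h (P (nat_lit 0)) (P (nat_lit 361794974546192))) (P (nat_lit 0))))) (T.h (T.h (P (nat_lit 0)) (M (nat_lit 637775820071223295))) (T.h (T.h (T.h (P (nat_lit 0)) (P (nat_lit 172986961464416))) (P (nat_lit 0))) (P (nat_lit 0)))))))), (T.h (T.h (P (nat_lit 0)) (T.h (T.h (P (nat_lit 0)) (T.h (P (nat_lit 63287525629116649832448000)) (T.h (P (nat_lit 0)) (P (nat_lit 304944548888721752064))))) (T.h (P (nat_lit 0)) (T.h (T.h (P (nat_lit 0)) (P (nat_lit 362079656861214179328))) (P (nat_lit 0)))))) (T.h (T.h (T.h (P (nat_lit 171263728465257769697097547776)) (T.h (P (nat_lit 0)) (T.h (M (nat_lit 249934526859127403053055)) (T.h (P (nat_lit 0)) (P (nat_lit 37349099997790208)))))) (T.h (P (nat_lit 0)) (T.h (T.h (P (nat_lit 657067238007617789886464)) (T.h (P (nat_lit 0)) (M (nat_lit 376337290205331455)))) (T.h (P (nat_lit 0)) (P (nat_lit 356888115739590656)))))) (T.h (T.h (P (nat_lit 0)) (T.h (T.h (P (nat_lit 0)) (M (nat_lit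 91702811927984996351))) (P (nat_lit 0)))) (T.h (T.h (T.h (M (nat_lit 167791094702386314215423)) (T.h (P (nat_lit 0)) (M (nat_lit 382212607032721407)))) (T.h (P (nat_lit 0)) (P (nat_lit 974299732031504384)))) (T.h (P (nat_lit 0)) (P (nat_lit 272696121335873536))))))), (T.h (T.h (T.h (P (nat_lit 0)) (T.h (P (nat_lit 15233738752004595955919749120)) (T.h (P (nat_lit 0)) (T.h (M (nat_lit 21694648982052280467455)) (T.h (P (nat_lit 0)) (M (nat_lit 8026129388699647))))))) (T.h (P (nat_lit 0)) (T.h (T.h (P (nat_lit 0)) (T.h (M (nat_lit 190912665759102877564927)) (T.h (P (nat_lit 0)) (P (nat_lit 117065434944339968))))) (T.h (P (nat_lit 0)) (T.h (T.h (P (nat_lit 0)) (M (nat_lit 59401021968924671))) (P (nat_lit 0))))))) (T.h (T.h (P (nat_lit 0)) (T.h (T.h (M (nat_lit 80905210978061627915501567)) (T.h (P (nat_lit 0)) (T.h (P (nat_lit 180384892735593644032)) (T.h (P (nat_lit 0)) (M (nat_lit 46938132056991)))))) (T.h (P (nat_lit 0)) (T.h (T.h (P (nat_lit 966498054002410782720))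 (T.h (P (nat_lit 0)) (M (nat_lit 160765879742335)))) (T.h (P (nat_lit 0)) (M (nat_lit 202010613196303))))))) (T.h (T.h (T.h (P (nat_lit 0)) (T.h (M (nat_lit 50588246820526462337023)) (T.h (P (nat_lit 0)) (P (nat_lit 153507077665947648))))) (T.h (P (nat_lit 0)) (T.h (T.h (P (nat_lit 0)) (M (nat_lit 481125668614946815))) (P (nat_lit 0))))) (T.h (T.h (P (nat_lit 0)) (T.h (T.h (P (nat_lit 104709661005493305344)) (T.h (P (nat_lit 0)) (M (nat_lit 153951304182895)))) (T.h (P (nat_lit 0)) (M (nat_lit 40807260833679))))) (T.h (T.h (T.h (P (nat_lit 0)) (P (nat_lit 37657315048210432))) (P (nat_lit 0))) (T.h (T.h (P (nat_lit 0)) (P (nat_lit 9843633707952))) (P (nat_lit 0))))))))]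
def lP22_45 : List (T ℤ) := [(T.h (T.h (T.h (M (nat_lit 16610131237050969157222881296383)) (T.h (P (nat_lit 0)) (T.h (M (nat_lit 12159185391653889647837183)) (T.h (P (nat_lit 0)) (M (nat_lit 8542965040104341503)))))) (T.h (P (nat_lit 0)) (T.h (T.h (M (nat_lit 23126752110161750401220607)) (T.h (P (nat_lit 0)) (M (nat_lit 12886189783738482687)))) (T.h (P (nat_lit 0)) (P (nat_lit 118912105825926381568)))))) (T.h (T.h (P (nat_lit 0)) (T.h (T.h (P (nat_lit 0)) (T.h (P (nat_lit 170774383045035088150528)) (T.h (P (nat_lit 0)) (P (nat_lit 7959988333117440))))) (T.h (P (nat_lit 0)) (T.h (T.h (P (nat_lit 0)) (M (nat_lit 1474979290622656511))) (P (nat_lit 0)))))) (T.h (T.h (T.h (P (nat_lit 78577746382943512002822144)) (T.h (P (nat_lit 0)) (M (nat_lit 26916983604714143743)))) (T.h (P (nat_lit 0)) (P (nat_lit 254876444120481529856)))) (T.h (T.h (P (nat_lit 0)) (T.h (T.h (P (nat_lit 0)) (M (nat_lit 116902649026969599))) (P (nat_lit 0)))) (M (nat_lit 44363430733904084991)))))),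 (T.h (T.h (P (nat_lit 0)) (T.h (T.h (P (nat_lit 0)) (T.h (P (nat_lit 68480659706341009634885632)) (T.h (P (nat_lit 0)) (P (nat_lit 11930534835996590080))))) (T.h (P (nat_lit 0)) (T.h (T.h (P (nat_lit 0)) (M (nat_lit 76622548805082939391))) (P (nat_lit 0)))))) (T.h (T.h (T.h (P (nat_lit 9479945226855203678944493568)) (T.h (P (nat_lit 0)) (T.h (M (nat_lit 15229871120192928481279)) (T.h (P (nat_lit 0)) (P (nat_lit 27031974620561408)))))) (T.h (P (nat_lit 0)) (T.h (T.h (M (nat_lit 252405377024740638588927)) (T.h (P (nat_lit 0)) (P (nat_lit 48863964941058048)))) (T.h (P (nat_lit 0)) (P (nat_lit 158948710125174784)))))) (T.h (T.h (P (nat_lit 0)) (T.h (T.h (P (nat_lit 0)) (P (nat_lit 28561419631895511040))) (P (nat_lit 0)))) (T.h (T.h (T.h (M (nat_lit 8055960460481364230143)) (T.h (P (nat_lit 0)) (P (nat_lit 67886065340547072)))) (T.h (P (nat_lit 0)) (M (nat_lit 73784448161644543)))) (T.h (P (nat_lit 0)) (M (nat_lit 3604578148319231))))))), (P (nat_lit 0)),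 (P (nat_lit 0)), (T.h (T.h (T.h (P (nat_lit 0)) (T.h (P (nat_lit 11226552536872670058376069120)) (T.h (P (nat_lit 0)) (T.h (P (nat_lit 1558477172255024480256)) (T.h (P (nat_lit 0)) (P (nat_lit 2267793512923136))))))) (T.h (P (nat_lit 0)) (T.h (T.h (P (nat_lit 0)) (T.h (M (nat_lit 24366320025064756477951)) (T.h (P (nat_lit 0)) (P (nat_lit 27845166307540992))))) (T.h (P (nat_lit 0)) (T.h (T.h (P (nat_lit 0)) (M (nat_lit 3433990289195007))) (P (nat_lit 0))))))) (T.h (T.h (P (nat_lit 0)) (T.h (T.h (M (nat_lit 71440463722844327224803327)) (T.h (P (nat_lit 0)) (T.h (M (nat_lit 84152052307019694079)) (T.h (P (nat_lit 0)) (P (nat_lit 268620149612704)))))) (T.h (P (nat_lit 0)) (T.h (T.h (P (nat_lit 21808900994653749248)) (T.h (P (nat_lit 0)) (P (nat_lit 290397087801984)))) (T.h (P (nat_lit 0)) (P (nat_lit 40951311509944))))))) (T.h (T.h (T.h (P (nat_lit 0)) (T.h (M (nat_lit 70320940951416229330943)) (T.h (P (nat_lit 0)) (P (nat_lit 237438564384833536))))) (T.h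 (P (nat_lit 0)) (T.h (T.h (P (nat_lit 0)) (P (nat_lit 258372745212231680))) (P (nat_lit 0))))) (T.h (T.h (P (nat_lit 0)) (T.h (T.h (M (nat_lit 80031877047164862463)) (T.h (P (nat_lit 0)) (M (nat_lit 521677075544719)))) (T.h (P (nat_lit 0)) (P (nat_lit 389423140897216))))) (T.h (T.h (T.h (P (nat_lit 0)) (P (nat_lit 784923959251894272))) (P (nat_lit 0))) (T.h (T.h (P (nat_lit 0)) (M (nat_lit 109931233387399))) (P (nat_lit 0)))))))), (T.h (T.h (T.h (P (nat_lit 37789302293090339039328761544704)) (T.h (P (nat_lit 0)) (T.h (M (nat_lit 9806991902528851599687679)) (T.h (P (nat_lit 0)) (T.h (P (nat_lit 65260405627281211392)) (T.h (P (nat_lit 0)) (M (nat_lit 19026528520111)))))))) (T.h (P (nat_lit 0)) (T.h (T.h (P (nat_lit 1929188324096542337138688)) (T.h (P (nat_lit 0)) (T.h (P (nat_lit 44014770381303840768)) (T.h (P (nat_lit 0)) (P (nat_lit 22999326338224)))))) (T.h (P (nat_lit 0)) (T.h (T.h (M (nat_lit 15374739511011442687)) (T.h (P (nat_lit 0)) (P (nat_lit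 26641791405664)))) (T.h (P (nat_lit 0)) (P (nat_lit 4728784196784)))))))) (T.h (T.h (P (nat_lit 0)) (T.h (T.h (P (nat_lit 0)) (T.h (P (nat_lit 438616123670500871241728)) (T.h (P (nat_lit 0)) (P (nat_lit 174714726643630080))))) (T.h (P (nat_lit 0)) (T.h (T.h (P (nat_lit 0)) (M (nat_lit 115248713760079871))) (P (nat_lit 0)))))) (T.h (T.h (T.h (P (nat_lit 29832145418423820380798976)) (T.h (P (nat_lit 0)) (T.h (P (nat_lit 68696693231037972480)) (T.h (P (nat_lit 0)) (M (nat_lit 197435484401695)))))) (T.h (P (nat_lit 0)) (T.h (T.h (P (nat_lit 150275231753586081792)) (T.h (P (nat_lit 0)) (P (nat_lit 911509870941168)))) (T.h (P (nat_lit 0)) (M (nat_lit 8489036044511)))))) (T.h (T.h (P (nat_lit 0)) (T.h (T.h (P (nat_lit 0)) (P (nat_lit 415635564448546816))) (P (nat_lit 0)))) (T.h (T.h (T.h (P (nat_lit 26671585795212574720)) (T.h (P (nat_lit 0)) (P (nat_lit 267356832993248)))) (T.h (P (nat_lit 0)) (P (nat_lit 80970273811648)))) (T.h (P (nat_lit 0)) (P (nat_lit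 37151644471216)))))))), (T.h (T.h (T.h (P (nat_lit 0)) (T.h (M (nat_lit 114115918580355154959424028671)) (T.h (P (nat_lit 0)) (T.h (P (nat_lit 112089447587515851603968)) (T.h (P (nat_lit 0)) (M (nat_lit 413373386104930303))))))) (T.h (P (nat_lit 0)) (T.h (T.h (P (nat_lit 0)) (T.h (M (nat_lit 6027653185679260647423)) (T.h (P (nat_lit 0)) (P (nat_lit 334670280262942720))))) (T.h (P (nat_lit 0)) (T.h (T.h (P (nat_lit 0)) (M (nat_lit 53385315126083583))) (P (nat_lit 0))))))) (T.h (T.h (P (nat_lit 0)) (T.h (T.h (P (nat_lit 91153552696466832009199616)) (T.h (P (nat_lit 0)) (T.h (P (nat_lit 1459764794665597927424)) (T.h (P (nat_lit 0)) (P (nat_lit 130715055319232)))))) (T.h (P (nat_lit 0)) (T.h (T.h (M (nat_lit 103363700487176060927)) (T.h (P (nat_lit 0)) (M (nat_lit 92832310935167)))) (T.h (P (nat_lit 0)) (P (nat_lit 1081390865088))))))) (T.h (T.h (T.h (P (nat_lit 0)) (T.h (P (nat_lit 572036271422275183443968)) (T.h (P (nat_lit 0)) (M (nat_lit 1532950112553402367)))))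 (T.h (P (nat_lit 0)) (T.h (T.h (P (nat_lit 0)) (M (nat_lit 268595618393128959))) (P (nat_lit 0))))) (T.h (T.h (P (nat_lit 0)) (T.h (T.h (M (nat_lit 315551464536024285183)) (T.h (P (nat_lit 0)) (M (nat_lit 9669475697663)))) (T.h (P (nat_lit 0)) (P (nat_lit 23985942129088))))) (T.h (T.h (T.h (P (nat_lit 0)) (M (nat_lit 1331859517574512639))) (P (nat_lit 0))) (T.h (T.h (P (nat_lit 0)) (P (nat_lit 199717187725568))) (P (nat_lit 0)))))))), (T.h (T.h (T.h (P (nat_lit 180083290141728994936508907520)) (T.h (P (nat_lit 0)) (T.h (M (nat_lit 157275895970500018186485759)) (T.h (P (nat_lit 0)) (T.h (P (nat_lit 257992245599172296704)) (T.h (P (nat_lit 0)) (M (nat_lit 599850299903711)))))))) (T.h (P (nat_lit 0)) (T.h (T.h (M (nat_lit 19629823140587550701256703)) (T.h (P (nat_lit 0)) (T.h (P (nat_lit 242433295359594725376)) (T.h (P (nat_lit 0)) (M (nat_lit 100282040214399)))))) (T.h (P (nat_lit 0)) (T.h (T.h (P (nat_lit 20650096481947090944)) (T.h (P (nat_lit 0)) (P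 (nat_lit 92744766644288)))) (T.h (P (nat_lit 0)) (M (nat_lit 20984588860575)))))))) (T.h (T.h (P (nat_lit 0)) (T.h (T.h (P (nat_lit 0)) (T.h (M (nat_lit 931333487462667524243455)) (T.h (P (nat_lit 0)) (M (nat_lit 812062688226705407))))) (T.h (P (nat_lit 0)) (T.h (T.h (P (nat_lit 0)) (P (nat_lit 849813607620411392))) (P (nat_lit 0)))))) (T.h (T.h (T.h (M (nat_lit 157275895970500018186485759)) (T.h (P (nat_lit 0)) (T.h (P (nat_lit 371136903303305101312)) (T.h (P (nat_lit 0)) (M (nat_lit 1320849388479983)))))) (T.h (P (nat_lit 0)) (T.h (T.h (P (nat_lit 242433295359594725376)) (T.h (P (nat_lit 0)) (M (nat_lit 2402340631672255)))) (T.h (P (nat_lit 0)) (P (nat_lit 92744766644288)))))) (T.h (T.h (P (nat_lit 0)) (T.h (T.h (P (nat_lit 0)) (M (nat_lit 812062688226705407))) (P (nat_lit 0)))) (T.h (T.h (T.h (P (nat_lit 257992245599172296704)) (T.h (P (nat_lit 0)) (M (nat_lit 1320849388479983)))) (T.h (P (nat_lit 0)) (M (nat_lit 100282040214399)))) (T.h (P (nat_lit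 0)) (M (nat_lit 599850299903711))))))))]
def lP22_46 : List (T ℤ) := [(T.h (T.h (T.h (P (nat_lit 0)) (T.h (P (nat_lit 60684955573523039383386587136)) (T.h (P (nat_lit 0)) (T.h (M (nat_lit 381671066770179736207359)) (T.h (P (nat_lit 0)) (P (nat_lit 802886251462524928))))))) (T.h (P (nat_lit 0)) (T.h (T.h (P (nat_lit 0)) (T.h (M (nat_lit 71458357320619307040767)) (T.h (P (nat_lit 0)) (P (nat_lit 7180358365052928))))) (T.h (P (nat_lit 0)) (T.h (T.h (P (nat_lit 0)) (P (nat_lit 18427578268647424))) (P (nat_lit 0))))))) (T.h (T.h (P (nat_lit 0)) (T.h (T.h (P (nat_lit 95683243631040923571322880)) (T.h (P (nat_lit 0)) (P (nat_lit 177150542492211347456)))) (T.h (P (nat_lit 0)) (M (nat_lit 88417271349562572799))))) (T.h (T.h (T.h (P (nat_lit 0)) (T.h (M (nat_lit 460798759023045288919039)) (T.h (P (nat_lit 0)) (P (nat_lit 1989202731827429376))))) (T.h (P (nat_lit 0)) (T.h (T.h (P (nat_lit 0)) (P (nat_lit 688230807348183040))) (P (nat_lit 0))))) (T.h (T.h (P (nat_lit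 0)) (P (nat_lit 105865341687688069120))) (T.h (T.h (T.h (P (nat_lit 0)) (P (nat_lit 958613910115385344))) (P (nat_lit 0))) (P (nat_lit 0))))))), (P (nat_lit 0)), (P (nat_lit 0)), (T.h (T.h (P (nat_lit 0)) (T.h (T.h (M (nat_lit 86394741291898989137845288959)) (T.h (P (nat_lit 0)) (T.h (M (nat_lit 2285398374446989836287)) (T.h (P (nat_lit 0)) (M (nat_lit 16100912104275967)))))) (T.h (P (nat_lit 0)) (T.h (T.h (P (nat_lit 185869005889168557998080)) (T.h (P (nat_lit 0)) (P (nat_lit 29521778791677952)))) (T.h (P (nat_lit 0)) (M (nat_lit 22397046942760959))))))) (T.h (T.h (T.h (P (nat_lit 0)) (T.h (M (nat_lit 66250249002747418730561535)) (T.h (P (nat_lit 0)) (T.h (P (nat_lit 56213929714272698368)) (T.h (P (nat_lit 0)) (M (nat_lit 57593272112311))))))) (T.h (P (nat_lit 0)) (T.h (T.h (P (nat_lit 0)) (T.h (P (nat_lit 92667667655465893888)) (T.h (P (nat_lit 0)) (M (nat_lit 145406365404319))))) (T.h (P (nat_lit 0)) (T.h (T.h (P (nat_lit 0)) (M (nat_lit 48648137756583)))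 (P (nat_lit 0))))))) (T.h (T.h (P (nat_lit 0)) (T.h (T.h (P (nat_lit 64179087763474688770048)) (T.h (P (nat_lit 0)) (P (nat_lit 504104890202783744)))) (T.h (P (nat_lit 0)) (P (nat_lit 393699495897628672))))) (T.h (T.h (T.h (P (nat_lit 0)) (T.h (M (nat_lit 607715442782195679231)) (T.h (P (nat_lit 0)) (P (nat_lit 587132495999520))))) (T.h (P (nat_lit 0)) (T.h (T.h (P (nat_lit 0)) (P (nat_lit 979698769586624))) (P (nat_lit 0))))) (T.h (T.h (P (nat_lit 0)) (P (nat_lit 172348565131526144))) (T.h (T.h (T.h (P (nat_lit 0)) (P (nat_lit 88901919179672))) (P (nat_lit 0))) (P (nat_lit 0)))))))), (T.h (T.h (P (nat_lit 0)) (T.h (T.h (P (nat_lit 0)) (T.h (M (nat_lit 58203737701095949077577727)) (T.h (P (nat_lit 0)) (T.h (M (nat_lit 133217216746544431103)) (T.h (P (nat_lit 0)) (P (nat_lit 11136417168416))))))) (T.h (P (nat_lit 0)) (T.h (T.h (P (nat_lit 0)) (T.h (P (nat_lit 4847334080368345088)) (T.h (P (nat_lit 0)) (M (nat_lit 54556795947023))))) (T.h (P (nat_lit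 0)) (T.h (T.h (P (nat_lit 0)) (M (nat_lit 31387440768655))) (P (nat_lit 0)))))))) (T.h (T.h (T.h (M (nat_lit 10402984587407102940117204991)) (T.h (P (nat_lit 0)) (T.h (P (nat_lit 21151223722634555424768)) (T.h (P (nat_lit 0)) (P (nat_lit 763863378704056320)))))) (T.h (P (nat_lit 0)) (T.h (T.h (M (nat_lit 848513532839329791999)) (T.h (P (nat_lit 0)) (M (nat_lit 56093100908691455)))) (T.h (P (nat_lit 0)) (M (nat_lit 126801206378053631)))))) (T.h (T.h (P (nat_lit 0)) (T.h (T.h (P (nat_lit 0)) (T.h (P (nat_lit 565831284812098306048)) (T.h (P (nat_lit 0)) (P (nat_lit 159180462692528))))) (T.h (P (nat_lit 0)) (T.h (T.h (P (nat_lit 0)) (P (nat_lit 727644225495696))) (P (nat_lit 0)))))) (T.h (T.h (T.h (M (nat_lit 11263133419063654481919)) (T.h (P (nat_lit 0)) (M (nat_lit 376821371375255551)))) (T.h (P (nat_lit 0)) (M (nat_lit 201426014826168319)))) (T.h (T.h (P (nat_lit 0)) (T.h (T.h (P (nat_lit 0)) (M (nat_lit 195979018621535))) (P (nat_lit 0)))) (M (nat_lit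 268098932714143743))))))), (T.h (T.h (P (nat_lit 0)) (T.h (T.h (M (nat_lit 98074772315051461801324576767)) (T.h (P (nat_lit 0)) (T.h (P (nat_lit 140016498596705176911872)) (T.h (P (nat_lit 0)) (P (nat_lit 292351308589072384)))))) (T.h (P (nat_lit 0)) (T.h (T.h (P (nat_lit 172399831671198820859904)) (T.h (P (nat_lit 0)) (M (nat_lit 121386703445065727)))) (T.h (P (nat_lit 0)) (M (nat_lit 45375358251859967))))))) (T.h (T.h (T.h (P (nat_lit 0)) (T.h (M (nat_lit 350165860970823752058142719)) (T.h (P (nat_lit 0)) (T.h (M (nat_lit 698795816044137021439)) (T.h (P (nat_lit 0)) (P (nat_lit 324763905492992))))))) (T.h (P (nat_lit 0)) (T.h (T.h (P (nat_lit 0)) (T.h (P (nat_lit 1119380752306257526784)) (T.h (P (nat_lit 0)) (P (nat_lit 244907572009664))))) (T.h (P (nat_lit 0)) (T.h (T.h (P (nat_lit 0)) (M (nat_lit 1159348482225343))) (P (nat_lit 0))))))) (T.h (T.h (P (nat_lit 0)) (T.h (T.h (P (nat_lit 263562671525433075302400)) (T.h (P (nat_lit 0)) (P (nat_lit 1744267616311083008))))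 (T.h (P (nat_lit 0)) (M (nat_lit 441985228758188031))))) (T.h (T.h (T.h (P (nat_lit 0)) (T.h (P (nat_lit 1894259260669573464064)) (T.h (P (nat_lit 0)) (M (nat_lit 1946552354081215))))) (T.h (P (nat_lit 0)) (T.h (T.h (P (nat_lit 0)) (M (nat_lit 124706162314815))) (P (nat_lit 0))))) (T.h (T.h (P (nat_lit 0)) (M (nat_lit 681802411379392511))) (T.h (T.h (T.h (P (nat_lit 0)) (P (nat_lit 318685298309056))) (P (nat_lit 0))) (P (nat_lit 0)))))))), (T.h (T.h (P (nat_lit 0)) (T.h (T.h (P (nat_lit 0)) (T.h (P (nat_lit 8550202030988311838851072)) (T.h (P (nat_lit 0)) (T.h (M (nat_lit 63884832539831959551)) (T.h (P (nat_lit 0)) (P (nat_lit 301418777937376))))))) (T.h (P (nat_lit 0)) (T.h (T.h (P (nat_lit 0)) (T.h (P (nat_lit 54541647904833011712)) (T.h (P (nat_lit 0)) (M (nat_lit 151252842455615))))) (T.h (P (nat_lit 0)) (T.h (T.h (P (nat_lit 0)) (M (nat_lit 60506909118655))) (P (nat_lit 0)))))))) (T.h (T.h (T.h (P (nat_lit 56359040998709081813865725952)) (T.h (P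 (nat_lit 0)) (T.h (P (nat_lit 164440297372771004973056)) (T.h (P (nat_lit 0)) (M (nat_lit 1501108471597776895)))))) (T.h (P (nat_lit 0)) (T.h (T.h (M (nat_lit 219840208827757969276927)) (T.h (P (nat_lit 0)) (P (nat_lit 334274484094844928)))) (T.h (P (nat_lit 0)) (P (nat_lit 406190538679025664)))))) (T.h (T.h (P (nat_lit 0)) (T.h (T.h (P (nat_lit 0)) (T.h (P (nat_lit 44920798069775138816)) (T.h (P (nat_lit 0)) (P (nat_lit 211185123273696))))) (T.h (P (nat_lit 0)) (T.h (T.h (P (nat_lit 0)) (M (nat_lit 495262917424703))) (P (nat_lit 0)))))) (T.h (T.h (T.h (M (nat_lit 5182703445728093536255)) (T.h (P (nat_lit 0)) (M (nat_lit 2048050955423956991)))) (T.h (P (nat_lit 0)) (P (nat_lit 158164728763580416)))) (T.h (T.h (P (nat_lit 0)) (T.h (T.h (P (nat_lit 0)) (P (nat_lit 1938413165951856))) (P (nat_lit 0)))) (P (nat_lit 636571534031208448))))))), (T.h (T.h (P (nat_lit 0)) (T.h (T.h (P (nat_lit 24528612591721730867984334848)) (T.h (P (nat_lit 0)) (T.h (M (nat_lit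 54563853534563976347647)) (T.h (P (nat_lit 0)) (M (nat_lit 604149383020904447)))))) (T.h (P (nat_lit 0)) (T.h (T.h (M (nat_lit 76703395389781143715839)) (T.h (P (nat_lit 0)) (P (nat_lit 107620980962099200)))) (T.h (P (nat_lit 0)) (P (nat_lit 45972266151706624))))))) (T.h (T.h (T.h (P (nat_lit 0)) (T.h (P (nat_lit 356901296659544704332857344)) (T.h (P (nat_lit 0)) (P (nat_lit 780885249740555419648))))) (T.h (P (nat_lit 0)) (T.h (T.h (P (nat_lit 0)) (M (nat_lit 1264868788508502786047))) (P (nat_lit 0))))) (T.h (T.h (P (nat_lit 0)) (T.h (T.h (M (nat_lit 54563853534563976347647)) (T.h (P (nat_lit 0)) (P (nat_lit 658631312049307648)))) (T.h (P (nat_lit 0)) (P (nat_lit 107620980962099200))))) (T.h (T.h (T.h (P (nat_lit 0)) (P (nat_lit 780885249740555419648))) (P (nat_lit 0))) (T.h (T.h (P (nat_lit 0)) (M (nat_lit 604149383020904447))) (P (nat_lit 0)))))))]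
def lP22_47 : List (T ℤ) := [(P (nat_lit 0)), (T.h (T.h (T.h (P (nat_lit 0)) (T.h (M (nat_lit 4200348833059441627065483263)) (T.h (P (nat_lit 0)) (T.h (P (nat_lit 57632162401080854970368)) (T.h (P (nat_lit 0)) (M (nat_lit 30785319001522175))))))) (T.h (P (nat_lit 0)) (T.h (T.h (P (nat_lit 0)) (T.h (P (nat_lit 65771125361030157303808)) (T.h (P (nat_lit 0)) (P (nat_lit 6577370794098688))))) (T.h (P (nat_lit 0)) (T.h (T.h (P (nat_lit 0)) (M (nat_lit 30167563418533887))) (P (nat_lit 0))))))) (T.h (T.h (P (nat_lit 0)) (T.h (T.h (P (nat_lit 73173747939004148132872192)) (T.h (P (nat_lit 0)) (T.h (M (nat_lit 188914717246885986303)) (T.h (P (nat_lit 0)) (P (nat_lit 150784410835384)))))) (T.h (P (nat_lit 0)) (T.h (T.h (P (nat_lit 100116920423084457984)) (T.h (P (nat_lit 0)) (P (nat_lit 85922873224584)))) (T.h (P (nat_lit 0)) (P (nat_lit 117991229823800))))))) (T.h (T.h (T.h (P (nat_lit 0)) (T.h (P (nat_lit 69003529597436569845760)) (T.h (P (nat_lit 0)) (P (nat_lit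 124992677276909568))))) (T.h (P (nat_lit 0)) (T.h (T.h (P (nat_lit 0)) (M (nat_lit 57670842199441407))) (P (nat_lit 0))))) (T.h (T.h (P (nat_lit 0)) (T.h (T.h (M (nat_lit 116599803523993960447)) (T.h (P (nat_lit 0)) (M (nat_lit 231844959378511)))) (T.h (P (nat_lit 0)) (P (nat_lit 653171963338736))))) (T.h (T.h (T.h (P (nat_lit 0)) (P (nat_lit 41492378451836928))) (P (nat_lit 0))) (T.h (T.h (P (nat_lit 0)) (M (nat_lit 337384071588415))) (P (nat_lit 0)))))))), (T.h (T.h (T.h (P (nat_lit 35763778438839474111552782598144)) (T.h (P (nat_lit 0)) (T.h (P (nat_lit 62908317290420788462092288)) (T.h (P (nat_lit 0)) (T.h (M (nat_lit 57603208335696330751)) (T.h (P (nat_lit 0)) (P (nat_lit 32945360427664)))))))) (T.h (P (nat_lit 0)) (T.h (T.h (P (nat_lit 45855112878953748190199808)) (T.h (P (nat_lit 0)) (T.h (P (nat_lit 70650706991859630080)) (T.h (P (nat_lit 0)) (P (nat_lit 15255379029152)))))) (T.h (P (nat_lit 0)) (T.h (T.h (M (nat_lit 64739422656691961855)) (T.h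 (P (nat_lit 0)) (P (nat_lit 15312055836880)))) (T.h (P (nat_lit 0)) (P (nat_lit 42385473734928)))))))) (T.h (T.h (P (nat_lit 0)) (T.h (T.h (P (nat_lit 0)) (T.h (M (nat_lit 147716331585670091898879)) (T.h (P (nat_lit 0)) (M (nat_lit 206444453519196159))))) (T.h (P (nat_lit 0)) (T.h (T.h (P (nat_lit 0)) (M (nat_lit 333823299870392319))) (P (nat_lit 0)))))) (T.h (T.h (T.h (P (nat_lit 8198616929308593589583872)) (T.h (P (nat_lit 0)) (T.h (P (nat_lit 353244082825657843712)) (T.h (P (nat_lit 0)) (M (nat_lit 182864937772351)))))) (T.h (P (nat_lit 0)) (T.h (T.h (P (nat_lit 215847434356724334592)) (T.h (P (nat_lit 0)) (P (nat_lit 156438964797936)))) (T.h (P (nat_lit 0)) (M (nat_lit 180962749714879)))))) (T.h (T.h (P (nat_lit 0)) (T.h (T.h (P (nat_lit 0)) (M (nat_lit 16079452893478911))) (P (nat_lit 0)))) (T.h (T.h (T.h (M (nat_lit 134717203391828721663)) (T.h (P (nat_lit 0)) (P (nat_lit 6561020761648)))) (T.h (P (nat_lit 0)) (P (nat_lit 380097074482736)))) (T.h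 (P (nat_lit 0)) (P (nat_lit 47152487959216)))))))), (T.h (T.h (T.h (P (nat_lit 0)) (T.h (M (nat_lit 202341610778254602853670715391)) (T.h (P (nat_lit 0)) (T.h (P (nat_lit 161510812024141449789440)) (T.h (P (nat_lit 0)) (M (nat_lit 268069805626327039))))))) (T.h (P (nat_lit 0)) (T.h (T.h (P (nat_lit 0)) (T.h (P (nat_lit 358977257559124955103232)) (T.h (P (nat_lit 0)) (M (nat_lit 53510967238000639))))) (T.h (P (nat_lit 0)) (T.h (T.h (P (nat_lit 0)) (P (nat_lit 164258997652750336))) (P (nat_lit 0))))))) (T.h (T.h (P (nat_lit 0)) (T.h (T.h (P (nat_lit 124450535264434341185323008)) (T.h (P (nat_lit 0)) (T.h (P (nat_lit 561249849141891170304)) (T.h (P (nat_lit 0)) (P (nat_lit 411036659739456)))))) (T.h (P (nat_lit 0)) (T.h (T.h (M (nat_lit 1587920065444525899775)) (T.h (P (nat_lit 0)) (M (nat_lit 208364854628159)))) (T.h (P (nat_lit 0)) (M (nat_lit 156375227383679))))))) (T.h (T.h (T.h (P (nat_lit 0)) (T.h (M (nat_lit 1597998801319966791434239)) (T.h (P (nat_lit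 0)) (M (nat_lit 1110157451269832703))))) (T.h (P (nat_lit 0)) (T.h (T.h (P (nat_lit 0)) (P (nat_lit 288359306200940544))) (P (nat_lit 0))))) (T.h (T.h (P (nat_lit 0)) (T.h (T.h (P (nat_lit 1322793846230740893696)) (T.h (P (nat_lit 0)) (M (nat_lit 2067042681160127)))) (T.h (P (nat_lit 0)) (M (nat_lit 53232406546943))))) (T.h (T.h (T.h (P (nat_lit 0)) (M (nat_lit 3893759105025802239))) (P (nat_lit 0))) (T.h (T.h (P (nat_lit 0)) (M (nat_lit 410341142962623))) (P (nat_lit 0)))))))), (T.h (T.h (T.h (P (nat_lit 38796634027665517492621264551936)) (T.h (P (nat_lit 0)) (T.h (M (nat_lit 69277999889678387053068287)) (T.h (P (nat_lit 0)) (T.h (P (nat_lit 271688428376006066176)) (T.h (P (nat_lit 0)) (M (nat_lit 114019884573055)))))))) (T.h (P (nat_lit 0)) (T.h (T.h (M (nat_lit 32812070722050995209109503)) (T.h (P (nat_lit 0)) (T.h (P (nat_lit 85784000146832359424)) (T.h (P (nat_lit 0)) (P (nat_lit 69049008754880)))))) (T.h (P (nat_lit 0)) (T.h (T.h (P (nat_lit 93404293962718511104))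 (T.h (P (nat_lit 0)) (P (nat_lit 878667806286688)))) (T.h (P (nat_lit 0)) (M (nat_lit 26932516938623)))))))) (T.h (T.h (P (nat_lit 0)) (T.h (T.h (P (nat_lit 0)) (T.h (M (nat_lit 692781148150449628512255)) (T.h (P (nat_lit 0)) (P (nat_lit 369601391268823040))))) (T.h (P (nat_lit 0)) (T.h (T.h (P (nat_lit 0)) (P (nat_lit 3718445580558761984))) (P (nat_lit 0)))))) (T.h (T.h (T.h (P (nat_lit 399485965034813344089899008)) (T.h (P (nat_lit 0)) (T.h (P (nat_lit 508886152560569745408)) (T.h (P (nat_lit 0)) (P (nat_lit 738739416936400)))))) (T.h (P (nat_lit 0)) (T.h (T.h (M (nat_lit 589529392650955784191)) (T.h (P (nat_lit 0)) (M (nat_lit 832089301328383)))) (T.h (P (nat_lit 0)) (P (nat_lit 609582186284192)))))) (T.h (T.h (P (nat_lit 0)) (T.h (T.h (P (nat_lit 0)) (P (nat_lit 1182073801831809024))) (P (nat_lit 0)))) (T.h (T.h (T.h (P (nat_lit 137018050728354119680)) (T.h (P (nat_lit 0)) (P (nat_lit 952341724930640)))) (T.h (P (nat_lit 0)) (P (nat_lit 13565696746624))))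 (T.h (P (nat_lit 0)) (P (nat_lit 263806942754080)))))))), (T.h (T.h (T.h (P (nat_lit 0)) (T.h (P (nat_lit 192302244859030228405919416320)) (T.h (P (nat_lit 0)) (T.h (P (nat_lit 165573790160568887279616)) (T.h (P (nat_lit 0)) (P (nat_lit 50225268868874240))))))) (T.h (P (nat_lit 0)) (T.h (T.h (P (nat_lit 0)) (T.h (M (nat_lit 573379693030579453820927)) (T.h (P (nat_lit 0)) (P (nat_lit 17145621580251136))))) (T.h (P (nat_lit 0)) (T.h (T.h (P (nat_lit 0)) (P (nat_lit 42861097446014976))) (P (nat_lit 0))))))) (T.h (T.h (P (nat_lit 0)) (T.h (T.h (P (nat_lit 9305928710574405995986944)) (T.h (P (nat_lit 0)) (M (nat_lit 260449137613005127679)))) (T.h (P (nat_lit 0)) (M (nat_lit 158179161490124177407))))) (T.h (T.h (T.h (P (nat_lit 0)) (T.h (P (nat_lit 855545384571982034501632)) (T.h (P (nat_lit 0)) (M (nat_lit 361050061496123391))))) (T.h (P (nat_lit 0)) (T.h (T.h (P (nat_lit 0)) (P (nat_lit 538726791096795136))) (P (nat_lit 0))))) (T.h (T.h (P (nat_lit 0))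 (P (nat_lit 84827307486337826816))) (T.h (T.h (T.h (P (nat_lit 0)) (M (nat_lit 820647773044277247))) (P (nat_lit 0))) (P (nat_lit 0))))))), (T.h (T.h (P (nat_lit 0)) (T.h (T.h (P (nat_lit 5685019875831698336482590720)) (T.h (P (nat_lit 0)) (T.h (P (nat_lit 6175853262312199684096)) (T.h (P (nat_lit 0)) (M (nat_lit 2208110231322623)))))) (T.h (P (nat_lit 0)) (T.h (T.h (P (nat_lit 22558137889650198446080)) (T.h (P (nat_lit 0)) (M (nat_lit 22392977002594303)))) (T.h (P (nat_lit 0)) (M (nat_lit 43592615886290943))))))) (T.h (T.h (T.h (P (nat_lit 0)) (T.h (P (nat_lit 4354070054196628359741440)) (T.h (P (nat_lit 0)) (T.h (M (nat_lit 7919079678348886015)) (T.h (P (nat_lit 0)) (M (nat_lit 16789819801463))))))) (T.h (P (nat_lit 0)) (T.h (T.h (P (nat_lit 0)) (T.h (P (nat_lit 54497507742234705920)) (T.h (P (nat_lit 0)) (M (nat_lit 26900757114903))))) (T.h (P (nat_lit 0)) (T.h (T.h (P (nat_lit 0)) (P (nat_lit 27630245357104))) (P (nat_lit 0))))))) (T.h (T.h (P (nat_lit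 0)) (T.h (T.h (M (nat_lit 25833449350720953253887)) (T.h (P (nat_lit 0)) (P (nat_lit 104075782460309504)))) (T.h (P (nat_lit 0)) (P (nat_lit 51659034939162624))))) (T.h (T.h (T.h (P (nat_lit 0)) (T.h (M (nat_lit 23581198596863688703)) (T.h (P (nat_lit 0)) (M (nat_lit 21853032059887))))) (T.h (P (nat_lit 0)) (T.h (T.h (P (nat_lit 0)) (M (nat_lit 92577900358719))) (P (nat_lit 0))))) (T.h (T.h (P (nat_lit 0)) (P (nat_lit 68134088225685504))) (T.h (T.h (T.h (P (nat_lit 0)) (M (nat_lit 38572669247583))) (P (nat_lit 0))) (P (nat_lit 0)))))))), (T.h (T.h (P (nat_lit 0)) (T.h (T.h (P (nat_lit 0)) (T.h (M (nat_lit 69642946525185967036301311)) (T.h (P (nat_lit 0)) (T.h (P (nat_lit 30453531548156166144)) (T.h (P (nat_lit 0)) (M (nat_lit 22027988921247))))))) (T.h (P (nat_lit 0)) (T.h (T.h (P (nat_lit 0)) (T.h (M (nat_lit 107611019278756610047)) (T.h (P (nat_lit 0)) (M (nat_lit 45475820045455))))) (T.h (P (nat_lit 0)) (T.h (T.h (P (nat_lit 0)) (P (nat_lit 20495869015824)))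 (P (nat_lit 0)))))))) (T.h (T.h (T.h (P (nat_lit 165657683186759434277748736)) (T.h (P (nat_lit 0)) (T.h (M (nat_lit 9028346044505141542911)) (T.h (P (nat_lit 0)) (M (nat_lit 169082224198090751)))))) (T.h (P (nat_lit 0)) (T.h (T.h (P (nat_lit 12971391210968743673856)) (T.h (P (nat_lit 0)) (P (nat_lit 27697189017501696)))) (T.h (P (nat_lit 0)) (P (nat_lit 721582360884019200)))))) (T.h (T.h (P (nat_lit 0)) (T.h (T.h (P (nat_lit 0)) (T.h (P (nat_lit 398757292396802736128)) (T.h (P (nat_lit 0)) (P (nat_lit 713975442312624))))) (T.h (P (nat_lit 0)) (T.h (T.h (P (nat_lit 0)) (P (nat_lit 145511679509456))) (P (nat_lit 0)))))) (T.h (T.h (T.h (M (nat_lit 151525430621372818653183)) (T.h (P (nat_lit 0)) (M (nat_lit 327822764628525055)))) (T.h (P (nat_lit 0)) (M (nat_lit 503218121177612287)))) (T.h (T.h (P (nat_lit 0)) (T.h (T.h (P (nat_lit 0)) (P (nat_lit 20469176266336))) (P (nat_lit 0)))) (M (nat_lit 4766301716283391)))))))]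
def lP22_48 : List (T ℤ) := [(T.h (T.h (P (nat_lit 0)) (T.h (T.h (M (nat_lit 124477985577735391278752858111)) (T.h (P (nat_lit 0)) (T.h (P (nat_lit 419296220032527832711168)) (T.h (P (nat_lit 0)) (M (nat_lit 33893754375471103)))))) (T.h (P (nat_lit 0)) (T.h (T.h (P (nat_lit 59189811737287431553024)) (T.h (P (nat_lit 0)) (P (nat_lit 134802808153112576)))) (T.h (P (nat_lit 0)) (M (nat_lit 270573737504702463))))))) (T.h (T.h (T.h (P (nat_lit 0)) (T.h (M (nat_lit 106522973782614029300137983)) (T.h (P (nat_lit 0)) (T.h (P (nat_lit 826922131149048250368)) (T.h (P (nat_lit 0)) (M (nat_lit 132154973296255))))))) (T.h (P (nat_lit 0)) (T.h (T.h (P (nat_lit 0)) (T.h (P (nat_lit 297710025940637057024)) (T.h (P (nat_lit 0)) (M (nat_lit 354448495594623))))) (T.h (P (nat_lit 0)) (T.h (T.h (P (nat_lit 0)) (P (nat_lit 311702795977728))) (P (nat_lit 0))))))) (T.h (T.h (P (nat_lit 0)) (T.h (T.h (M (nat_lit 1388976807923062988079103)) (T.h (P (nat_lit 0)) (P (nat_lit 1657989522486427648))))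 (T.h (P (nat_lit 0)) (M (nat_lit 700169144483577855))))) (T.h (T.h (T.h (P (nat_lit 0)) (T.h (M (nat_lit 1085227718858225221631)) (T.h (P (nat_lit 0)) (P (nat_lit 342744375083456))))) (T.h (P (nat_lit 0)) (T.h (T.h (P (nat_lit 0)) (M (nat_lit 1390030806112639))) (P (nat_lit 0))))) (T.h (T.h (P (nat_lit 0)) (P (nat_lit 1734122613999009792))) (T.h (T.h (T.h (P (nat_lit 0)) (M (nat_lit 277312470248895))) (P (nat_lit 0))) (P (nat_lit 0)))))))), (T.h (T.h (P (nat_lit 0)) (T.h (T.h (P (nat_lit 0)) (T.h (P (nat_lit 444985139041590106617020416)) (T.h (P (nat_lit 0)) (T.h (M (nat_lit 779446746063885565951)) (T.h (P (nat_lit 0)) (P (nat_lit 638079114501312))))))) (T.h (P (nat_lit 0)) (T.h (T.h (P (nat_lit 0)) (T.h (M (nat_lit 864773674999394336767)) (T.h (P (nat_lit 0)) (P (nat_lit 474431785971440))))) (T.h (P (nat_lit 0)) (T.h (T.h (P (nat_lit 0)) (P (nat_lit 700214402795952))) (P (nat_lit 0)))))))) (T.h (T.h (T.h (M (nat_lit 72448995624061239553698037759))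 (T.h (P (nat_lit 0)) (T.h (M (nat_lit 197261400509007576170495)) (T.h (P (nat_lit 0)) (M (nat_lit 420794558438981631)))))) (T.h (P (nat_lit 0)) (T.h (T.h (M (nat_lit 466222176649486289338367)) (T.h (P (nat_lit 0)) (P (nat_lit 1504122155887214592)))) (T.h (P (nat_lit 0)) (M (nat_lit 1387168308914126847)))))) (T.h (T.h (P (nat_lit 0)) (T.h (T.h (P (nat_lit 0)) (T.h (M (nat_lit 668698676219680391167)) (T.h (P (nat_lit 0)) (M (nat_lit 4059930768341535))))) (T.h (P (nat_lit 0)) (T.h (T.h (P (nat_lit 0)) (M (nat_lit 3828721340270815))) (P (nat_lit 0)))))) (T.h (T.h (T.h (P (nat_lit 69246146877196261654528)) (T.h (P (nat_lit 0)) (P (nat_lit 1047532029243785216)))) (T.h (P (nat_lit 0)) (P (nat_lit 470650442438574080)))) (T.h (T.h (P (nat_lit 0)) (T.h (T.h (P (nat_lit 0)) (P (nat_lit 2660580647972544))) (P (nat_lit 0)))) (P (nat_lit 361348267206017024))))))), (T.h (T.h (P (nat_lit 0)) (T.h (T.h (M (nat_lit 255529338660962738839736025087)) (T.h (P (nat_lit 0))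 (T.h (M (nat_lit 489769467972901744410623)) (T.h (P (nat_lit 0)) (M (nat_lit 607744033999290367)))))) (T.h (P (nat_lit 0)) (T.h (T.h (P (nat_lit 50964485938888510013440)) (T.h (P (nat_lit 0)) (M (nat_lit 194170842044727295)))) (T.h (P (nat_lit 0)) (M (nat_lit 154915058766151679))))))) (T.h (T.h (T.h (P (nat_lit 0)) (T.h (P (nat_lit 218953849558356455862566912)) (T.h (P (nat_lit 0)) (P (nat_lit 550810061287221886976))))) (T.h (P (nat_lit 0)) (T.h (T.h (P (nat_lit 0)) (M (nat_lit 1633991181046271442943))) (P (nat_lit 0))))) (T.h (T.h (P (nat_lit 0)) (T.h (T.h (P (nat_lit 860132377404779840667648)) (T.h (P (nat_lit 0)) (P (nat_lit 5035377232337993728)))) (T.h (P (nat_lit 0)) (P (nat_lit 94093923714170880))))) (T.h (T.h (T.h (P (nat_lit 0)) (P (nat_lit 494716808822500884480))) (P (nat_lit 0))) (T.h (T.h (P (nat_lit 0)) (M (nat_lit 1313968118679699455))) (P (nat_lit 0))))))), (T.h (T.h (T.h (P (nat_lit 22617088506532989352597639921664)) (T.h (P (nat_lit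 0)) (T.h (P (nat_lit 3140137524329456248815616)) (T.h (P (nat_lit 0)) (T.h (M (nat_lit 13734426222065090559)) (T.h (P (nat_lit 0)) (P (nat_lit 6987571952256)))))))) (T.h (P (nat_lit 0)) (T.h (T.h (P (nat_lit 8457161709171102583881728)) (T.h (P (nat_lit 0)) (T.h (P (nat_lit 45458294552150409216)) (T.h (P (nat_lit 0)) (P (nat_lit 18863524992736)))))) (T.h (P (nat_lit 0)) (T.h (T.h (P (nat_lit 74036933237223194624)) (T.h (P (nat_lit 0)) (P (nat_lit 15164383117568)))) (T.h (P (nat_lit 0)) (M (nat_lit 26207854071903)))))))) (T.h (T.h (P (nat_lit 0)) (T.h (T.h (P (nat_lit 0)) (T.h (P (nat_lit 436545863640585823322112)) (T.h (P (nat_lit 0)) (M (nat_lit 186331836287156223))))) (T.h (P (nat_lit 0)) (T.h (T.h (P (nat_lit 0)) (P (nat_lit 231010450467749888))) (P (nat_lit 0)))))) (T.h (T.h (T.h (P (nat_lit 8457161709171102583881728)) (T.h (P (nat_lit 0)) (T.h (P (nat_lit 45458294552150409216)) (T.h (P (nat_lit 0)) (P (nat_lit 18863524992736)))))) (T.h (P (nat_lit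 0)) (T.h (T.h (P (nat_lit 101276404498535809024)) (T.h (P (nat_lit 0)) (P (nat_lit 913938109348384)))) (T.h (P (nat_lit 0)) (M (nat_lit 171985111421919)))))) (T.h (T.h (P (nat_lit 0)) (T.h (T.h (P (nat_lit 0)) (P (nat_lit 231010450467749888))) (P (nat_lit 0)))) (T.h (T.h (T.h (P (nat_lit 74036933237223194624)) (T.h (P (nat_lit 0)) (P (nat_lit 15164383117568)))) (T.h (P (nat_lit 0)) (M (nat_lit 171985111421919)))) (T.h (P (nat_lit 0)) (M (nat_lit 26207854071903)))))))), (T.h (T.h (T.h (P (nat_lit 0)) (T.h (M (nat_lit 204624579741806548629973893119)) (T.h (P (nat_lit 0)) (T.h (P (nat_lit 327501886745863012745216)) (T.h (P (nat_lit 0)) (M (nat_lit 168862143760629759))))))) (T.h (P (nat_lit 0)) (T.h (T.h (P (nat_lit 0)) (T.h (P (nat_lit 372232361390405832409088)) (T.h (P (nat_lit 0)) (M (nat_lit 162434554484064255))))) (T.h (P (nat_lit 0)) (T.h (T.h (P (nat_lit 0)) (P (nat_lit 259054959866544128))) (P (nat_lit 0))))))) (T.h (T.h (P (nat_lit 0)) (T.h (T.h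 (M (nat_lit 379881761952645680249962495)) (T.h (P (nat_lit 0)) (T.h (P (nat_lit 2192958142800296148992)) (T.h (P (nat_lit 0)) (M (nat_lit 1123590043552511)))))) (T.h (P (nat_lit 0)) (T.h (T.h (M (nat_lit 1061532454852640112639)) (T.h (P (nat_lit 0)) (P (nat_lit 228504705620032)))) (T.h (P (nat_lit 0)) (P (nat_lit 359323624798656))))))) (T.h (T.h (T.h (P (nat_lit 0)) (T.h (M (nat_lit 87372054093438497325055)) (T.h (P (nat_lit 0)) (M (nat_lit 118178916928159743))))) (T.h (P (nat_lit 0)) (T.h (T.h (P (nat_lit 0)) (P (nat_lit 299268860508438528))) (P (nat_lit 0))))) (T.h (T.h (P (nat_lit 0)) (T.h (T.h (M (nat_lit 1952937546873269387263)) (T.h (P (nat_lit 0)) (P (nat_lit 228504705620032)))) (T.h (P (nat_lit 0)) (M (nat_lit 1377247444456703))))) (T.h (T.h (T.h (P (nat_lit 0)) (P (nat_lit 506848848190963712))) (P (nat_lit 0))) (T.h (T.h (P (nat_lit 0)) (P (nat_lit 359323624798656))) (P (nat_lit 0)))))))), (T.h (T.h (T.h (P (nat_lit 29133889140904033940829913481216))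 (T.h (P (nat_lit 0)) (T.h (P (nat_lit 31369799751954130356142080)) (T.h (P (nat_lit 0)) (T.h (P (nat_lit 94474055083723063296)) (T.h (P (nat_lit 0)) (P (nat_lit 10963431041552)))))))) (T.h (P (nat_lit 0)) (T.h (T.h (M (nat_lit 78259562126569195421302783)) (T.h (P (nat_lit 0)) (T.h (M (nat_lit 160797060183757946879)) (T.h (P (nat_lit 0)) (P (nat_lit 809824381242272)))))) (T.h (P (nat_lit 0)) (T.h (T.h (P (nat_lit 184012764304375808000)) (T.h (P (nat_lit 0)) (P (nat_lit 164939948929712)))) (T.h (P (nat_lit 0)) (M (nat_lit 166012573297471)))))))) (T.h (T.h (P (nat_lit 0)) (T.h (T.h (P (nat_lit 0)) (T.h (M (nat_lit 1555406208796902731808767)) (T.h (P (nat_lit 0)) (P (nat_lit 4548714069999091712))))) (T.h (P (nat_lit 0)) (T.h (T.h (P (nat_lit 0)) (P (nat_lit 1311042492508045312))) (P (nat_lit 0)))))) (T.h (T.h (T.h (M (nat_lit 69578769534689795039559679)) (T.h (P (nat_lit 0)) (T.h (P (nat_lit 280128650407288242176)) (T.h (P (nat_lit 0)) (P (nat_lit 808827678891936))))))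 (T.h (P (nat_lit 0)) (T.h (T.h (P (nat_lit 1222433144295145865216)) (T.h (P (nat_lit 0)) (M (nat_lit 3579213217635615)))) (T.h (P (nat_lit 0)) (P (nat_lit 1119727182666224)))))) (T.h (T.h (P (nat_lit 0)) (T.h (T.h (P (nat_lit 0)) (M (nat_lit 573179026936856575))) (P (nat_lit 0)))) (T.h (T.h (T.h (P (nat_lit 598845763806870634496)) (T.h (P (nat_lit 0)) (M (nat_lit 358552290717807)))) (T.h (P (nat_lit 0)) (M (nat_lit 656354816351871)))) (T.h (P (nat_lit 0)) (M (nat_lit 565101010931423)))))))), (T.h (T.h (T.h (P (nat_lit 0)) (T.h (M (nat_lit 377033689143862434681109610495)) (T.h (P (nat_lit 0)) (T.h (P (nat_lit 41832751533718155296768)) (T.h (P (nat_lit 0)) (M (nat_lit 197302190041595903))))))) (T.h (P (nat_lit 0)) (T.h (T.h (P (nat_lit 0)) (T.h (M (nat_lit 350492722377713201971199)) (T.h (P (nat_lit 0)) (P (nat_lit 28629531151597568))))) (T.h (P (nat_lit 0)) (T.h (T.h (P (nat_lit 0)) (M (nat_lit 868595833875202047))) (P (nat_lit 0))))))) (T.h (T.h (P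 (nat_lit 0)) (T.h (T.h (P (nat_lit 325586501371689684210548736)) (T.h (P (nat_lit 0)) (M (nat_lit 2568905051824067706879)))) (T.h (P (nat_lit 0)) (P (nat_lit 570095336763246510080))))) (T.h (T.h (T.h (P (nat_lit 0)) (T.h (M (nat_lit 151626256699107238215679)) (T.h (P (nat_lit 0)) (M (nat_lit 54969389306445823))))) (T.h (P (nat_lit 0)) (T.h (T.h (P (nat_lit 0)) (P (nat_lit 5896000038046662656))) (P (nat_lit 0))))) (T.h (T.h (P (nat_lit 0)) (P (nat_lit 725574408706616983552))) (T.h (T.h (T.h (P (nat_lit 0)) (M (nat_lit 972199071289606143))) (P (nat_lit 0))) (P (nat_lit 0))))))), (T.h (T.h (P (nat_lit 0)) (T.h (T.h (P (nat_lit 46792758968280233293480198144)) (T.h (P (nat_lit 0)) (T.h (M (nat_lit 24332516310276678615039)) (T.h (P (nat_lit 0)) (P (nat_lit 116005186613870592)))))) (T.h (P (nat_lit 0)) (T.h (T.h (P (nat_lit 216971507881601824456704)) (T.h (P (nat_lit 0)) (M (nat_lit 21901407346294783)))) (T.h (P (nat_lit 0)) (P (nat_lit 11969581587103744)))))))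 (T.h (T.h (T.h (P (nat_lit 0)) (T.h (M (nat_lit 83626387721824454582468607)) (T.h (P (nat_lit 0)) (T.h (P (nat_lit 85766246270368743424)) (T.h (P (nat_lit 0)) (P (nat_lit 11420856083328))))))) (T.h (P (nat_lit 0)) (T.h (T.h (P (nat_lit 0)) (T.h (M (nat_lit 696900677064655372287)) (T.h (P (nat_lit 0)) (P (nat_lit 36848463641664))))) (T.h (P (nat_lit 0)) (T.h (T.h (P (nat_lit 0)) (P (nat_lit 265807357753792))) (P (nat_lit 0))))))) (T.h (T.h (P (nat_lit 0)) (T.h (T.h (M (nat_lit 125136616968347103264767)) (T.h (P (nat_lit 0)) (P (nat_lit 122755825063264256)))) (T.h (P (nat_lit 0)) (M (nat_lit 277069416380858367))))) (T.h (T.h (T.h (P (nat_lit 0)) (T.h (M (nat_lit 94436845230223261695)) (T.h (P (nat_lit 0)) (P (nat_lit 197314070123200))))) (T.h (P (nat_lit 0)) (T.h (T.h (P (nat_lit 0)) (M (nat_lit 333470482810303))) (P (nat_lit 0))))) (T.h (T.h (P (nat_lit 0)) (P (nat_lit 265822393296289792))) (T.h (T.h (T.h (P (nat_lit 0)) (P (nat_lit 107326841501440)))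 (P (nat_lit 0))) (P (nat_lit 0))))))))]
def lP22_49 : List (T ℤ) := [(T.h (T.h (P (nat_lit 0)) (T.h (T.h (P (nat_lit 0)) (T.h (M (nat_lit 82005352132504340645543935)) (T.h (P (nat_lit 0)) (T.h (P (nat_lit 40354807243362795520)) (T.h (P (nat_lit 0)) (M (nat_lit 171358582288431))))))) (T.h (P (nat_lit 0)) (T.h (T.h (P (nat_lit 0)) (T.h (P (nat_lit 7255255734206595072)) (T.h (P (nat_lit 0)) (M (nat_lit 126198014860367))))) (T.h (P (nat_lit 0)) (T.h (T.h (P (nat_lit 0)) (P (nat_lit 128431816472960))) (P (nat_lit 0)))))))) (T.h (T.h (T.h (P (nat_lit 38654651469590484565549383680)) (T.h (P (nat_lit 0)) (T.h (M (nat_lit 398869698903503942975487)) (T.h (P (nat_lit 0)) (P (nat_lit 77592608275103744)))))) (T.h (P (nat_lit 0)) (T.h (T.h (P (nat_lit 254371583437503744442368)) (T.h (P (nat_lit 0)) (P (nat_lit 605362602800644096)))) (T.h (P (nat_lit 0)) (M (nat_lit 863332651526553599)))))) (T.h (T.h (P (nat_lit 0)) (T.h (T.h (P (nat_lit 0)) (T.h (P (nat_lit 6781948296333099008))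 (T.h (P (nat_lit 0)) (M (nat_lit 625848463900175))))) (T.h (P (nat_lit 0)) (T.h (T.h (P (nat_lit 0)) (M (nat_lit 150609851272495))) (P (nat_lit 0)))))) (T.h (T.h (T.h (P (nat_lit 75429900119833793527808)) (T.h (P (nat_lit 0)) (M (nat_lit 103527097765298175)))) (T.h (P (nat_lit 0)) (M (nat_lit 1732861195147624447)))) (T.h (T.h (P (nat_lit 0)) (T.h (T.h (P (nat_lit 0)) (P (nat_lit 56095130371632))) (P (nat_lit 0)))) (P (nat_lit 84372272904028160))))))), (T.h (T.h (P (nat_lit 0)) (T.h (T.h (P (nat_lit 96028659766766875552285458432)) (T.h (P (nat_lit 0)) (T.h (M (nat_lit 291330409486159831891967)) (T.h (P (nat_lit 0)) (P (nat_lit 59052743298482176)))))) (T.h (P (nat_lit 0)) (T.h (T.h (P (nat_lit 56222622037623007346688)) (T.h (P (nat_lit 0)) (M (nat_lit 110686140479963135)))) (T.h (P (nat_lit 0)) (P (nat_lit 192174861502152704))))))) (T.h (T.h (T.h (P (nat_lit 0)) (T.h (M (nat_lit 71042538693187191808458751)) (T.h (P (nat_lit 0)) (M (nat_lit 440070239446538125311)))))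 (T.h (P (nat_lit 0)) (T.h (T.h (P (nat_lit 0)) (M (nat_lit 957110902588079865855))) (P (nat_lit 0))))) (T.h (T.h (P (nat_lit 0)) (T.h (T.h (M (nat_lit 655207257772216320786431)) (T.h (P (nat_lit 0)) (P (nat_lit 1225003800259493888)))) (T.h (P (nat_lit 0)) (P (nat_lit 291100983990091776))))) (T.h (T.h (T.h (P (nat_lit 0)) (M (nat_lit 27742157568141688831))) (P (nat_lit 0))) (T.h (T.h (P (nat_lit 0)) (P (nat_lit 927531057910808576))) (P (nat_lit 0))))))), (T.h (T.h (T.h (P (nat_lit 90041645070864497468254453760)) (T.h (P (nat_lit 0)) (T.h (M (nat_lit 9814911570293775350628351)) (T.h (P (nat_lit 0)) (T.h (P (nat_lit 10325048240973545472)) (T.h (P (nat_lit 0)) (M (nat_lit 10492294430287)))))))) (T.h (P (nat_lit 0)) (T.h (T.h (M (nat_lit 74297551689310308902371327)) (T.h (P (nat_lit 0)) (T.h (P (nat_lit 341679502975320457216)) (T.h (P (nat_lit 0)) (P (nat_lit 45874032146976)))))) (T.h (P (nat_lit 0)) (T.h (T.h (P (nat_lit 336412622550833561600)) (T.h (P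 (nat_lit 0)) (M (nat_lit 311887139930959)))) (T.h (P (nat_lit 0)) (M (nat_lit 499469368768831)))))))) (T.h (T.h (P (nat_lit 0)) (T.h (T.h (P (nat_lit 0)) (T.h (M (nat_lit 465666743731333762121727)) (T.h (P (nat_lit 0)) (P (nat_lit 424906803810205696))))) (T.h (P (nat_lit 0)) (T.h (T.h (P (nat_lit 0)) (M (nat_lit 1348142103835803647))) (P (nat_lit 0)))))) (T.h (T.h (T.h (M (nat_lit 82978344281189709284114431)) (T.h (P (nat_lit 0)) (T.h (M (nat_lit 99246207615725731839)) (T.h (P (nat_lit 0)) (P (nat_lit 46870734497312)))))) (T.h (P (nat_lit 0)) (T.h (T.h (P (nat_lit 185568451651652550656)) (T.h (P (nat_lit 0)) (M (nat_lit 1201170315836127)))) (T.h (P (nat_lit 0)) (M (nat_lit 1548465693749039)))))) (T.h (T.h (P (nat_lit 0)) (T.h (T.h (P (nat_lit 0)) (P (nat_lit 536079415609098240))) (P (nat_lit 0)))) (T.h (T.h (T.h (M (nat_lit 78420376951661264895)) (T.h (P (nat_lit 0)) (P (nat_lit 211605099716560)))) (T.h (P (nat_lit 0)) (P (nat_lit 227616305269056))))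 (T.h (P (nat_lit 0)) (M (nat_lit 100380931134879)))))))), (T.h (T.h (T.h (P (nat_lit 0)) (T.h (P (nat_lit 12264306295860865433992167424)) (T.h (P (nat_lit 0)) (T.h (M (nat_lit 38351697694890571857919)) (T.h (P (nat_lit 0)) (P (nat_lit 22986133075853312))))))) (T.h (P (nat_lit 0)) (T.h (T.h (P (nat_lit 0)) (T.h (P (nat_lit 72151306072020993703936)) (T.h (P (nat_lit 0)) (P (nat_lit 12011030252027904))))) (T.h (P (nat_lit 0)) (T.h (T.h (P (nat_lit 0)) (M (nat_lit 353876310217654271))) (P (nat_lit 0))))))) (T.h (T.h (P (nat_lit 0)) (T.h (T.h (P (nat_lit 178450648329772352166428672)) (T.h (P (nat_lit 0)) (M (nat_lit 632434394254251393023)))) (T.h (P (nat_lit 0)) (P (nat_lit 468182160841962946560))))) (T.h (T.h (T.h (P (nat_lit 0)) (T.h (M (nat_lit 126715159606584970051583)) (T.h (P (nat_lit 0)) (P (nat_lit 95609950710071296))))) (T.h (P (nat_lit 0)) (T.h (T.h (P (nat_lit 0)) (P (nat_lit 329315656024653824))) (P (nat_lit 0))))) (T.h (T.h (P (nat_lit 0)) (P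 (nat_lit 312703088898592473088))) (T.h (T.h (T.h (P (nat_lit 0)) (M (nat_lit 250273072803250175))) (P (nat_lit 0))) (P (nat_lit 0))))))), (T.h (T.h (P (nat_lit 0)) (T.h (T.h (P (nat_lit 23189883887025830961654792192)) (T.h (P (nat_lit 0)) (T.h (M (nat_lit 87515735663265416478719)) (T.h (P (nat_lit 0)) (M (nat_lit 8342794656481279)))))) (T.h (P (nat_lit 0)) (T.h (T.h (M (nat_lit 243099935357513639133183)) (T.h (P (nat_lit 0)) (P (nat_lit 262202542911520768)))) (T.h (P (nat_lit 0)) (P (nat_lit 595563394477948928))))))) (T.h (T.h (T.h (P (nat_lit 0)) (T.h (P (nat_lit 104213714518363397557321728)) (T.h (P (nat_lit 0)) (M (nat_lit 99944006815716474879))))) (T.h (P (nat_lit 0)) (T.h (T.h (P (nat_lit 0)) (P (nat_lit 571332830943741214720))) (P (nat_lit 0))))) (T.h (T.h (P (nat_lit 0)) (T.h (T.h (M (nat_lit 33956056854755006218239)) (T.h (P (nat_lit 0)) (P (nat_lit 533260947869499392)))) (T.h (P (nat_lit 0)) (P (nat_lit 1175977343068569600))))) (T.h (T.h (T.h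 (P (nat_lit 0)) (M (nat_lit 18889754215679262719))) (P (nat_lit 0))) (T.h (T.h (P (nat_lit 0)) (M (nat_lit 93919563231952895))) (P (nat_lit 0))))))), (P (nat_lit 0)), (P (nat_lit 0)), (T.h (T.h (P (nat_lit 0)) (T.h (T.h (P (nat_lit 0)) (T.h (P (nat_lit 4838277074386559868862464)) (T.h (P (nat_lit 0)) (T.h (M (nat_lit 9223641221782568959)) (T.h (P (nat_lit 0)) (P (nat_lit 61292889872256))))))) (T.h (P (nat_lit 0)) (T.h (T.h (P (nat_lit 0)) (T.h (M (nat_lit 26416126705784586239)) (T.h (P (nat_lit 0)) (P (nat_lit 110655826750672))))) (T.h (P (nat_lit 0)) (T.h (T.h (P (nat_lit 0)) (P (nat_lit 14078924721560))) (P (nat_lit 0)))))))) (T.h (T.h (T.h (P (nat_lit 5536517775313953227465031680)) (T.h (P (nat_lit 0)) (T.h (P (nat_lit 34900946057874913624064)) (T.h (P (nat_lit 0)) (P (nat_lit 49004058925662208)))))) (T.h (P (nat_lit 0)) (T.h (T.h (P (nat_lit 17664319466823093321728)) (T.h (P (nat_lit 0)) (P (nat_lit 68076245493448704)))) (T.h (P (nat_lit 0)) (P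 (nat_lit 12246139095220224)))))) (T.h (T.h (P (nat_lit 0)) (T.h (T.h (P (nat_lit 0)) (T.h (M (nat_lit 41118186614139387903)) (T.h (P (nat_lit 0)) (M (nat_lit 252444885394407))))) (T.h (P (nat_lit 0)) (T.h (T.h (P (nat_lit 0)) (M (nat_lit 162557263420767))) (P (nat_lit 0)))))) (T.h (T.h (T.h (M (nat_lit 39520826410458918420479)) (T.h (P (nat_lit 0)) (M (nat_lit 188382228777992191)))) (T.h (P (nat_lit 0)) (M (nat_lit 298464201601384447)))) (T.h (T.h (P (nat_lit 0)) (T.h (T.h (P (nat_lit 0)) (P (nat_lit 68225235025664))) (P (nat_lit 0)))) (M (nat_lit 336560590512717823)))))))]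
def lP22_50 : List (T ℤ) := [(T.h (T.h (P (nat_lit 0)) (T.h (T.h (P (nat_lit 1322676371061387946650238976)) (T.h (P (nat_lit 0)) (T.h (P (nat_lit 2337908207826891702272)) (T.h (P (nat_lit 0)) (P (nat_lit 8014772849033216)))))) (T.h (P (nat_lit 0)) (T.h (T.h (P (nat_lit 3314644934844999532544)) (T.h (P (nat_lit 0)) (P (nat_lit 27588438918021120)))) (T.h (P (nat_lit 0)) (P (nat_lit 12179242722541568))))))) (T.h (T.h (T.h (P (nat_lit 0)) (T.h (P (nat_lit 66779422157121835614863360)) (T.h (P (nat_lit 0)) (T.h (P (nat_lit 44759794926007353344)) (T.h (P (nat_lit 0)) (M (nat_lit 13564579893471))))))) (T.h (P (nat_lit 0)) (T.h (T.h (P (nat_lit 0)) (T.h (M (nat_lit 96521423339802066943)) (T.h (P (nat_lit 0)) (P (nat_lit 14097742350432))))) (T.h (P (nat_lit 0)) (T.h (T.h (P (nat_lit 0)) (P (nat_lit 19366294304256))) (P (nat_lit 0))))))) (T.h (T.h (P (nat_lit 0)) (T.h (T.h (M (nat_lit 66371634848809843949567)) (T.h (P (nat_lit 0)) (M (nat_lit 155104395579326463))))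 (T.h (P (nat_lit 0)) (M (nat_lit 77220303000305663))))) (T.h (T.h (T.h (P (nat_lit 0)) (T.h (M (nat_lit 667163874488762761215)) (T.h (P (nat_lit 0)) (P (nat_lit 316431649808864))))) (T.h (P (nat_lit 0)) (T.h (T.h (P (nat_lit 0)) (M (nat_lit 117889912007311))) (P (nat_lit 0))))) (T.h (T.h (P (nat_lit 0)) (M (nat_lit 354873047434739711))) (T.h (T.h (T.h (P (nat_lit 0)) (P (nat_lit 132254739178384))) (P (nat_lit 0))) (P (nat_lit 0)))))))), (T.h (T.h (P (nat_lit 0)) (T.h (T.h (P (nat_lit 0)) (T.h (M (nat_lit 151701986456157759318523903)) (T.h (P (nat_lit 0)) (T.h (P (nat_lit 150099858493408280576)) (T.h (P (nat_lit 0)) (P (nat_lit 80404163296320))))))) (T.h (P (nat_lit 0)) (T.h (T.h (P (nat_lit 0)) (T.h (P (nat_lit 136309182447111634944)) (T.h (P (nat_lit 0)) (P (nat_lit 144458842908288))))) (T.h (P (nat_lit 0)) (T.h (T.h (P (nat_lit 0)) (M (nat_lit 1668342305855))) (P (nat_lit 0)))))))) (T.h (T.h (T.h (M (nat_lit 64992694580624542968554979327)) (T.h (P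 (nat_lit 0)) (T.h (P (nat_lit 194673461557123887398912)) (T.h (P (nat_lit 0)) (P (nat_lit 329044677284331520)))))) (T.h (P (nat_lit 0)) (T.h (T.h (P (nat_lit 220049294875900201926656)) (T.h (P (nat_lit 0)) (M (nat_lit 881224778607362047)))) (T.h (P (nat_lit 0)) (M (nat_lit 79078662425346047)))))) (T.h (T.h (P (nat_lit 0)) (T.h (T.h (P (nat_lit 0)) (T.h (M (nat_lit 487018562812427370495)) (T.h (P (nat_lit 0)) (M (nat_lit 250971423945791))))) (T.h (P (nat_lit 0)) (T.h (T.h (P (nat_lit 0)) (P (nat_lit 122992583566016))) (P (nat_lit 0)))))) (T.h (T.h (T.h (P (nat_lit 536888143402194482233344)) (T.h (P (nat_lit 0)) (M (nat_lit 2094652237629292543)))) (T.h (P (nat_lit 0)) (M (nat_lit 500905265731371007)))) (T.h (T.h (P (nat_lit 0)) (T.h (T.h (P (nat_lit 0)) (P (nat_lit 219151898910336))) (P (nat_lit 0)))) (M (nat_lit 1330455881578708991))))))), (T.h (T.h (P (nat_lit 0)) (T.h (T.h (P (nat_lit 17562274097227540007678377984)) (T.h (P (nat_lit 0)) (T.h (P (nat_lit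 196451127488380359671808)) (T.h (P (nat_lit 0)) (M (nat_lit 107743241166847999)))))) (T.h (P (nat_lit 0)) (T.h (T.h (M (nat_lit 17330481233452267995135)) (T.h (P (nat_lit 0)) (M (nat_lit 227107253596717055)))) (T.h (P (nat_lit 0)) (M (nat_lit 9631535166488575))))))) (T.h (T.h (T.h (P (nat_lit 0)) (T.h (M (nat_lit 111230174042457733433655295)) (T.h (P (nat_lit 0)) (T.h (P (nat_lit 648463875126830563328)) (T.h (P (nat_lit 0)) (M (nat_lit 501421280864767))))))) (T.h (P (nat_lit 0)) (T.h (T.h (P (nat_lit 0)) (T.h (P (nat_lit 28873461453570441216)) (T.h (P (nat_lit 0)) (P (nat_lit 369376358479744))))) (T.h (P (nat_lit 0)) (T.h (T.h (P (nat_lit 0)) (M (nat_lit 284465783754943))) (P (nat_lit 0))))))) (T.h (T.h (P (nat_lit 0)) (T.h (T.h (P (nat_lit 56126708549803944443904)) (T.h (P (nat_lit 0)) (P (nat_lit 749167989837185024)))) (T.h (P (nat_lit 0)) (M (nat_lit 263548896318324735))))) (T.h (T.h (T.h (P (nat_lit 0)) (T.h (P (nat_lit 1510252268123748040704))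 (T.h (P (nat_lit 0)) (M (nat_lit 1800265602160431))))) (T.h (P (nat_lit 0)) (T.h (T.h (P (nat_lit 0)) (P (nat_lit 362561782920304))) (P (nat_lit 0))))) (T.h (T.h (P (nat_lit 0)) (M (nat_lit 204801578183983103))) (T.h (T.h (T.h (P (nat_lit 0)) (M (nat_lit 713275527769023))) (P (nat_lit 0))) (P (nat_lit 0)))))))), (T.h (T.h (P (nat_lit 0)) (T.h (T.h (P (nat_lit 0)) (T.h (P (nat_lit 95683243631040923571322880)) (T.h (P (nat_lit 0)) (P (nat_lit 105865341687688069120))))) (T.h (P (nat_lit 0)) (T.h (T.h (P (nat_lit 0)) (M (nat_lit 88417271349562572799))) (P (nat_lit 0)))))) (T.h (T.h (T.h (P (nat_lit 60684955573523039383386587136)) (T.h (P (nat_lit 0)) (T.h (M (nat_lit 460798759023045288919039)) (T.h (P (nat_lit 0)) (P (nat_lit 958613910115385344)))))) (T.h (P (nat_lit 0)) (T.h (T.h (M (nat_lit 71458357320619307040767)) (T.h (P (nat_lit 0)) (P (nat_lit 688230807348183040)))) (T.h (P (nat_lit 0)) (P (nat_lit 18427578268647424)))))) (T.h (T.h (P (nat_lit 0))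 (T.h (T.h (P (nat_lit 0)) (P (nat_lit 177150542492211347456))) (P (nat_lit 0)))) (T.h (T.h (T.h (M (nat_lit 381671066770179736207359)) (T.h (P (nat_lit 0)) (P (nat_lit 1989202731827429376)))) (T.h (P (nat_lit 0)) (P (nat_lit 7180358365052928)))) (T.h (P (nat_lit 0)) (P (nat_lit 802886251462524928))))))), (P (nat_lit 0)), (T.h (T.h (T.h (M (nat_lit 2690135357055830871430104350719)) (T.h (P (nat_lit 0)) (T.h (P (nat_lit 16316861935119989947236352)) (T.h (P (nat_lit 0)) (T.h (M (nat_lit 1828277438623252479)) (T.h (P (nat_lit 0)) (P (nat_lit 18111614746944)))))))) (T.h (P (nat_lit 0)) (T.h (T.h (P (nat_lit 14384806625130163086557184)) (T.h (P (nat_lit 0)) (T.h (P (nat_lit 5131986785001275392)) (T.h (P (nat_lit 0)) (P (nat_lit 48382225412400)))))) (T.h (P (nat_lit 0)) (T.h (T.h (M (nat_lit 38373990668330598399)) (T.h (P (nat_lit 0)) (P (nat_lit 45051490068976)))) (T.h (P (nat_lit 0)) (P (nat_lit 47418413224544)))))))) (T.h (T.h (P (nat_lit 0)) (T.h (T.h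 (P (nat_lit 0)) (T.h (P (nat_lit 22079614946469096718336)) (T.h (P (nat_lit 0)) (M (nat_lit 7266021438980095))))) (T.h (P (nat_lit 0)) (T.h (T.h (P (nat_lit 0)) (M (nat_lit 17947052546981887))) (P (nat_lit 0)))))) (T.h (T.h (T.h (P (nat_lit 90428011681613564753215488)) (T.h (P (nat_lit 0)) (T.h (P (nat_lit 28548711468448612352)) (T.h (P (nat_lit 0)) (P (nat_lit 121191003591552)))))) (T.h (P (nat_lit 0)) (T.h (T.h (P (nat_lit 133324918198473064448)) (T.h (P (nat_lit 0)) (P (nat_lit 185852562425680)))) (T.h (P (nat_lit 0)) (M (nat_lit 295100164764815)))))) (T.h (T.h (P (nat_lit 0)) (T.h (T.h (P (nat_lit 0)) (M (nat_lit 508194556798828543))) (P (nat_lit 0)))) (T.h (T.h (T.h (P (nat_lit 43844494366368333824)) (T.h (P (nat_lit 0)) (P (nat_lit 611702451510640)))) (T.h (P (nat_lit 0)) (M (nat_lit 695768952324207)))) (T.h (P (nat_lit 0)) (P (nat_lit 224402492659280)))))))), (T.h (T.h (T.h (P (nat_lit 0)) (T.h (P (nat_lit 15707926973580838579302563840)) (T.h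 (P (nat_lit 0)) (T.h (P (nat_lit 21382032223597555089408)) (T.h (P (nat_lit 0)) (M (nat_lit 33809884209004543))))))) (T.h (P (nat_lit 0)) (T.h (T.h (P (nat_lit 0)) (T.h (M (nat_lit 23387986454769641193471)) (T.h (P (nat_lit 0)) (P (nat_lit 84637835870339072))))) (T.h (P (nat_lit 0)) (T.h (T.h (P (nat_lit 0)) (P (nat_lit 141691193762234368))) (P (nat_lit 0))))))) (T.h (T.h (P (nat_lit 0)) (T.h (T.h (M (nat_lit 56893329156838638189805567)) (T.h (P (nat_lit 0)) (T.h (M (nat_lit 68682849468171681791)) (T.h (P (nat_lit 0)) (M (nat_lit 9950524029199)))))) (T.h (P (nat_lit 0)) (T.h (T.h (P (nat_lit 9873005398850535424)) (T.h (P (nat_lit 0)) (P (nat_lit 12300914941840)))) (T.h (P (nat_lit 0)) (M (nat_lit 27301389521663))))))) (T.h (T.h (T.h (P (nat_lit 0)) (T.h (P (nat_lit 230462501992212293746688)) (T.h (P (nat_lit 0)) (M (nat_lit 485708767605440511))))) (T.h (P (nat_lit 0)) (T.h (T.h (P (nat_lit 0)) (M (nat_lit 473527641361252351))) (P (nat_lit 0))))) (T.h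 (T.h (P (nat_lit 0)) (T.h (T.h (P (nat_lit 187656404562520047616)) (T.h (P (nat_lit 0)) (M (nat_lit 55080966983023)))) (T.h (P (nat_lit 0)) (M (nat_lit 23184625981519))))) (T.h (T.h (T.h (P (nat_lit 0)) (P (nat_lit 819454962603540480))) (P (nat_lit 0))) (T.h (T.h (P (nat_lit 0)) (P (nat_lit 54540451790880))) (P (nat_lit 0)))))))), (T.h (T.h (T.h (P (nat_lit 5033591476955802500417638629376)) (T.h (P (nat_lit 0)) (T.h (M (nat_lit 180605214646128135809007615)) (T.h (P (nat_lit 0)) (T.h (P (nat_lit 233930281628603514880)) (T.h (P (nat_lit 0)) (M (nat_lit 210534429175231)))))))) (T.h (P (nat_lit 0)) (T.h (T.h (M (nat_lit 1685068590728999644168191)) (T.h (P (nat_lit 0)) (T.h (P (nat_lit 178182192678395969536)) (T.h (P (nat_lit 0)) (M (nat_lit 44011021548607)))))) (T.h (P (nat_lit 0)) (T.h (T.h (P (nat_lit 53834262178789588992)) (T.h (P (nat_lit 0)) (P (nat_lit 90548760350016)))) (T.h (P (nat_lit 0)) (M (nat_lit 17591876039487)))))))) (T.h (T.h (P (nat_lit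 0)) (T.h (T.h (P (nat_lit 0)) (T.h (M (nat_lit 285019034605349217763327)) (T.h (P (nat_lit 0)) (P (nat_lit 372148674531491840))))) (T.h (P (nat_lit 0)) (T.h (T.h (P (nat_lit 0)) (P (nat_lit 341444793480249344))) (P (nat_lit 0)))))) (T.h (T.h (T.h (P (nat_lit 98224269161431528468643840)) (T.h (P (nat_lit 0)) (T.h (P (nat_lit 59625221583861186560)) (T.h (P (nat_lit 0)) (P (nat_lit 1726084812844096)))))) (T.h (P (nat_lit 0)) (T.h (T.h (P (nat_lit 131465900530277023744)) (T.h (P (nat_lit 0)) (P (nat_lit 475213411522112)))) (T.h (P (nat_lit 0)) (M (nat_lit 379449331744255)))))) (T.h (T.h (P (nat_lit 0)) (T.h (T.h (P (nat_lit 0)) (M (nat_lit 1621407300997873663))) (P (nat_lit 0)))) (T.h (T.h (T.h (M (nat_lit 2030541996830729699327)) (T.h (P (nat_lit 0)) (P (nat_lit 287908883590848)))) (T.h (P (nat_lit 0)) (P (nat_lit 34827456796160)))) (T.h (P (nat_lit 0)) (M (nat_lit 404758465587071))))))))]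
def lP22_51 : List (T ℤ) := [(T.h (T.h (T.h (P (nat_lit 0)) (T.h (P (nat_lit 60711036640982234185760505856)) (T.h (P (nat_lit 0)) (T.h (P (nat_lit 13739910452078637481984)) (T.h (P (nat_lit 0)) (P (nat_lit 181159064565923840))))))) (T.h (P (nat_lit 0)) (T.h (T.h (P (nat_lit 0)) (T.h (M (nat_lit 374347014059355824717823)) (T.h (P (nat_lit 0)) (M (nat_lit 42521404892135423))))) (T.h (P (nat_lit 0)) (T.h (T.h (P (nat_lit 0)) (P (nat_lit 177525787813904384))) (P (nat_lit 0))))))) (T.h (T.h (P (nat_lit 0)) (T.h (T.h (M (nat_lit 29374776953946656814923775)) (T.h (P (nat_lit 0)) (T.h (P (nat_lit 119242113427617873920)) (T.h (P (nat_lit 0)) (P (nat_lit 109147067076784)))))) (T.h (P (nat_lit 0)) (T.h (T.h (P (nat_lit 70842641432121966592)) (T.h (P (nat_lit 0)) (M (nat_lit 683934668054703)))) (T.h (P (nat_lit 0)) (M (nat_lit 114598024434607))))))) (T.h (T.h (T.h (P (nat_lit 0)) (T.h (P (nat_lit 228668846269622621569024)) (T.h (P (nat_lit 0)) (M (nat_lit 1405762696350695423)))))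 (T.h (P (nat_lit 0)) (T.h (T.h (P (nat_lit 0)) (P (nat_lit 815041908662665216))) (P (nat_lit 0))))) (T.h (T.h (P (nat_lit 0)) (T.h (T.h (P (nat_lit 253379174898589499392)) (T.h (P (nat_lit 0)) (P (nat_lit 206645981930784)))) (T.h (P (nat_lit 0)) (P (nat_lit 59989902876640))))) (T.h (T.h (T.h (P (nat_lit 0)) (M (nat_lit 3212585593987252223))) (P (nat_lit 0))) (T.h (T.h (P (nat_lit 0)) (P (nat_lit 452397773839440))) (P (nat_lit 0)))))))), (T.h (T.h (T.h (P (nat_lit 3301555748291823238555111522304)) (T.h (P (nat_lit 0)) (T.h (P (nat_lit 12361463528585721553092608)) (T.h (P (nat_lit 0)) (P (nat_lit 45119641644947210240)))))) (T.h (P (nat_lit 0)) (T.h (T.h (P (nat_lit 17707193137286470468370432)) (T.h (P (nat_lit 0)) (M (nat_lit 180734051640347197439)))) (T.h (P (nat_lit 0)) (P (nat_lit 33645545654992240640)))))) (T.h (T.h (P (nat_lit 0)) (T.h (T.h (P (nat_lit 0)) (T.h (M (nat_lit 507435679304511565856767)) (T.h (P (nat_lit 0)) (M (nat_lit 297464782068645887)))))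 (T.h (P (nat_lit 0)) (T.h (T.h (P (nat_lit 0)) (P (nat_lit 650939728240377856))) (P (nat_lit 0)))))) (T.h (T.h (T.h (M (nat_lit 89343034964519540850950143)) (T.h (P (nat_lit 0)) (P (nat_lit 1459483441687567532032)))) (T.h (P (nat_lit 0)) (M (nat_lit 166703257819371536383)))) (T.h (T.h (P (nat_lit 0)) (T.h (T.h (P (nat_lit 0)) (M (nat_lit 1655541423664332799))) (P (nat_lit 0)))) (P (nat_lit 208395178204777676800)))))), (T.h (T.h (P (nat_lit 0)) (T.h (T.h (P (nat_lit 0)) (T.h (P (nat_lit 1387203145980497050468352)) (T.h (P (nat_lit 0)) (T.h (M (nat_lit 3278463469824770047)) (T.h (P (nat_lit 0)) (P (nat_lit 15368633917056))))))) (T.h (P (nat_lit 0)) (T.h (T.h (P (nat_lit 0)) (T.h (P (nat_lit 5129996790287826944)) (T.h (P (nat_lit 0)) (P (nat_lit 5615599430704))))) (T.h (P (nat_lit 0)) (T.h (T.h (P (nat_lit 0)) (M (nat_lit 5667384178967))) (P (nat_lit 0)))))))) (T.h (T.h (T.h (M (nat_lit 12684840511315129229494976511)) (T.h (P (nat_lit 0)) (T.h (M (nat_lit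 7879741752788425637887)) (T.h (P (nat_lit 0)) (P (nat_lit 9953376213958656)))))) (T.h (P (nat_lit 0)) (T.h (T.h (P (nat_lit 4077642440654830174208)) (T.h (P (nat_lit 0)) (P (nat_lit 3910183346012160)))) (T.h (P (nat_lit 0)) (M (nat_lit 4290026769317887)))))) (T.h (T.h (P (nat_lit 0)) (T.h (T.h (P (nat_lit 0)) (T.h (P (nat_lit 7509937226516529152)) (T.h (P (nat_lit 0)) (M (nat_lit 24712533350719))))) (T.h (P (nat_lit 0)) (T.h (T.h (P (nat_lit 0)) (P (nat_lit 80491955580040))) (P (nat_lit 0)))))) (T.h (T.h (T.h (M (nat_lit 53016593064264569192447)) (T.h (P (nat_lit 0)) (M (nat_lit 7310596866047999)))) (T.h (P (nat_lit 0)) (P (nat_lit 42281672534786048)))) (T.h (T.h (P (nat_lit 0)) (T.h (T.h (P (nat_lit 0)) (M (nat_lit 18001481031807))) (P (nat_lit 0)))) (P (nat_lit 2782105205997568))))))), (T.h (T.h (P (nat_lit 0)) (T.h (T.h (P (nat_lit 14882683165086291058843713536)) (T.h (P (nat_lit 0)) (T.h (M (nat_lit 18849529835447239311359)) (T.h (P (nat_lit 0))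 (P (nat_lit 140018033237983232)))))) (T.h (P (nat_lit 0)) (T.h (T.h (P (nat_lit 20929441631043701440512)) (T.h (P (nat_lit 0)) (P (nat_lit 102934913059225600)))) (T.h (P (nat_lit 0)) (M (nat_lit 36176921370558463))))))) (T.h (T.h (T.h (P (nat_lit 0)) (T.h (M (nat_lit 53146542248726677021523967)) (T.h (P (nat_lit 0)) (T.h (M (nat_lit 11548678206101913599)) (T.h (P (nat_lit 0)) (M (nat_lit 34652740068447))))))) (T.h (P (nat_lit 0)) (T.h (T.h (P (nat_lit 0)) (T.h (M (nat_lit 75408516526748205055)) (T.h (P (nat_lit 0)) (P (nat_lit 16557836531408))))) (T.h (P (nat_lit 0)) (T.h (T.h (P (nat_lit 0)) (P (nat_lit 4164924265456))) (P (nat_lit 0))))))) (T.h (T.h (P (nat_lit 0)) (T.h (T.h (P (nat_lit 256807096225738805739520)) (T.h (P (nat_lit 0)) (M (nat_lit 463891509779316735)))) (T.h (P (nat_lit 0)) (M (nat_lit 446271242066706431))))) (T.h (T.h (T.h (P (nat_lit 0)) (T.h (P (nat_lit 37051053167047868416)) (T.h (P (nat_lit 0)) (P (nat_lit 6711510549152))))) (T.h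 (P (nat_lit 0)) (T.h (T.h (P (nat_lit 0)) (M (nat_lit 75934935373951))) (P (nat_lit 0))))) (T.h (T.h (P (nat_lit 0)) (P (nat_lit 1211095121471963136))) (T.h (T.h (T.h (P (nat_lit 0)) (M (nat_lit 72084300084943))) (P (nat_lit 0))) (P (nat_lit 0)))))))), (T.h (T.h (P (nat_lit 0)) (T.h (T.h (P (nat_lit 0)) (T.h (P (nat_lit 2180457922692902528483328)) (T.h (P (nat_lit 0)) (T.h (P (nat_lit 4838559620425318400)) (T.h (P (nat_lit 0)) (P (nat_lit 19174769323136))))))) (T.h (P (nat_lit 0)) (T.h (T.h (P (nat_lit 0)) (T.h (P (nat_lit 51898114833580556288)) (T.h (P (nat_lit 0)) (M (nat_lit 195956809373759))))) (T.h (P (nat_lit 0)) (T.h (T.h (P (nat_lit 0)) (P (nat_lit 5341289507200))) (P (nat_lit 0)))))))) (T.h (T.h (T.h (M (nat_lit 21475815305388814924186124287)) (T.h (P (nat_lit 0)) (T.h (M (nat_lit 334922431163377383374847)) (T.h (P (nat_lit 0)) (M (nat_lit 343375147726274559)))))) (T.h (P (nat_lit 0)) (T.h (T.h (M (nat_lit 290119102082331707441151)) (T.h (P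 (nat_lit 0)) (P (nat_lit 675793229276348416)))) (T.h (P (nat_lit 0)) (P (nat_lit 117816140800720896)))))) (T.h (T.h (P (nat_lit 0)) (T.h (T.h (P (nat_lit 0)) (T.h (M (nat_lit 687447118557137076223)) (T.h (P (nat_lit 0)) (P (nat_lit 348521922324800))))) (T.h (P (nat_lit 0)) (T.h (T.h (P (nat_lit 0)) (P (nat_lit 344876861264960))) (P (nat_lit 0)))))) (T.h (T.h (T.h (M (nat_lit 403340895958938008158207)) (T.h (P (nat_lit 0)) (P (nat_lit 345080001020461056)))) (T.h (P (nat_lit 0)) (P (nat_lit 796641548586090496)))) (T.h (T.h (P (nat_lit 0)) (T.h (T.h (P (nat_lit 0)) (M (nat_lit 616520728501823))) (P (nat_lit 0)))) (P (nat_lit 288587955582861312))))))), (T.h (T.h (P (nat_lit 0)) (T.h (T.h (P (nat_lit 37733976243759071920511778816)) (T.h (P (nat_lit 0)) (T.h (P (nat_lit 17933390700028692004864)) (T.h (P (nat_lit 0)) (M (nat_lit 27484552792653823)))))) (T.h (P (nat_lit 0)) (T.h (T.h (P (nat_lit 95309715969232930340864)) (T.h (P (nat_lit 0)) (P (nat_lit 174450755079372800))))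 (T.h (P (nat_lit 0)) (M (nat_lit 12945520253370367))))))) (T.h (T.h (T.h (P (nat_lit 0)) (T.h (M (nat_lit 91940517910321038251524095)) (T.h (P (nat_lit 0)) (T.h (P (nat_lit 480448913009536925696)) (T.h (P (nat_lit 0)) (M (nat_lit 177022880722159))))))) (T.h (P (nat_lit 0)) (T.h (T.h (P (nat_lit 0)) (T.h (P (nat_lit 540657655911427342336)) (T.h (P (nat_lit 0)) (P (nat_lit 237373323740080))))) (T.h (P (nat_lit 0)) (T.h (T.h (P (nat_lit 0)) (M (nat_lit 789454083090111))) (P (nat_lit 0))))))) (T.h (T.h (P (nat_lit 0)) (T.h (T.h (M (nat_lit 105928191397868418891775)) (T.h (P (nat_lit 0)) (P (nat_lit 637723726440628224)))) (T.h (P (nat_lit 0)) (M (nat_lit 430929109762064383))))) (T.h (T.h (T.h (P (nat_lit 0)) (T.h (M (nat_lit 957154193937096769535)) (T.h (P (nat_lit 0)) (M (nat_lit 18296925976383))))) (T.h (P (nat_lit 0)) (T.h (T.h (P (nat_lit 0)) (P (nat_lit 147268056746448))) (P (nat_lit 0))))) (T.h (T.h (P (nat_lit 0)) (M (nat_lit 1943205583550349311)))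 (T.h (T.h (T.h (P (nat_lit 0)) (P (nat_lit 670685297729744))) (P (nat_lit 0))) (P (nat_lit 0)))))))), (T.h (T.h (P (nat_lit 0)) (T.h (T.h (P (nat_lit 0)) (T.h (M (nat_lit 164168232609423127631364095)) (T.h (P (nat_lit 0)) (M (nat_lit 123598439709679812607))))) (T.h (P (nat_lit 0)) (T.h (T.h (P (nat_lit 0)) (M (nat_lit 422698161150862819327))) (P (nat_lit 0)))))) (T.h (T.h (T.h (P (nat_lit 29157299885803956516845256704)) (T.h (P (nat_lit 0)) (T.h (P (nat_lit 58117647935124394737664)) (T.h (P (nat_lit 0)) (M (nat_lit 130608686049984511)))))) (T.h (P (nat_lit 0)) (T.h (T.h (M (nat_lit 20905584289755508506623)) (T.h (P (nat_lit 0)) (P (nat_lit 559264607064555520)))) (T.h (P (nat_lit 0)) (P (nat_lit 26676099759898624)))))) (T.h (T.h (P (nat_lit 0)) (T.h (T.h (P (nat_lit 0)) (M (nat_lit 193277581558617735167))) (P (nat_lit 0)))) (T.h (T.h (T.h (P (nat_lit 159699944027561083797504)) (T.h (P (nat_lit 0)) (M (nat_lit 737488915311558655)))) (T.h (P (nat_lit 0))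 (M (nat_lit 71028466476285951)))) (T.h (P (nat_lit 0)) (M (nat_lit 503793985739620351))))))), (T.h (T.h (T.h (P (nat_lit 0)) (T.h (P (nat_lit 497432562566840426191388672)) (T.h (P (nat_lit 0)) (T.h (P (nat_lit 2862054342291145883648)) (T.h (P (nat_lit 0)) (P (nat_lit 9812205560987648))))))) (T.h (P (nat_lit 0)) (T.h (T.h (P (nat_lit 0)) (T.h (P (nat_lit 6876364827149293584384)) (T.h (P (nat_lit 0)) (P (nat_lit 45885516106907648))))) (T.h (P (nat_lit 0)) (T.h (T.h (P (nat_lit 0)) (P (nat_lit 6341612324782080))) (P (nat_lit 0))))))) (T.h (T.h (P (nat_lit 0)) (T.h (T.h (P (nat_lit 70526209065233796783144960)) (T.h (P (nat_lit 0)) (T.h (M (nat_lit 103247090398378590207)) (T.h (P (nat_lit 0)) (P (nat_lit 33481742598912)))))) (T.h (P (nat_lit 0)) (T.h (T.h (P (nat_lit 23338111321054904320)) (T.h (P (nat_lit 0)) (P (nat_lit 18354663940000)))) (T.h (P (nat_lit 0)) (M (nat_lit 20915930440255))))))) (T.h (T.h (T.h (P (nat_lit 0)) (T.h (M (nat_lit 40027040615283331956735))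 (T.h (P (nat_lit 0)) (M (nat_lit 37782777461571583))))) (T.h (P (nat_lit 0)) (T.h (T.h (P (nat_lit 0)) (M (nat_lit 145468263997390847))) (P (nat_lit 0))))) (T.h (T.h (P (nat_lit 0)) (T.h (T.h (M (nat_lit 817769225884234940415)) (T.h (P (nat_lit 0)) (M (nat_lit 138743880398239)))) (T.h (P (nat_lit 0)) (P (nat_lit 346327786339536))))) (T.h (T.h (T.h (P (nat_lit 0)) (P (nat_lit 36767111433682944))) (P (nat_lit 0))) (T.h (T.h (P (nat_lit 0)) (P (nat_lit 5629987302560))) (P (nat_lit 0))))))))]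
def lP22_52 : List (T ℤ) := [(T.h (T.h (T.h (P (nat_lit 6079050956271828798893774077952)) (T.h (P (nat_lit 0)) (T.h (M (nat_lit 35360767025395417506381823)) (T.h (P (nat_lit 0)) (T.h (M (nat_lit 3904517961192308735)) (T.h (P (nat_lit 0)) (P (nat_lit 15993966832384)))))))) (T.h (P (nat_lit 0)) (T.h (T.h (M (nat_lit 91783584266237386185244671)) (T.h (P (nat_lit 0)) (T.h (P (nat_lit 66966561222490587136)) (T.h (P (nat_lit 0)) (P (nat_lit 139694028686272)))))) (T.h (P (nat_lit 0)) (T.h (T.h (P (nat_lit 72341885501719969792)) (T.h (P (nat_lit 0)) (P (nat_lit 5134246787648)))) (T.h (P (nat_lit 0)) (M (nat_lit 176948586303359)))))))) (T.h (T.h (P (nat_lit 0)) (T.h (T.h (P (nat_lit 0)) (T.h (M (nat_lit 470964527959331362045951)) (T.h (P (nat_lit 0)) (M (nat_lit 5975604795670527))))) (T.h (P (nat_lit 0)) (T.h (T.h (P (nat_lit 0)) (M (nat_lit 107001692910714879))) (P (nat_lit 0)))))) (T.h (T.h (T.h (P (nat_lit 14183898082384610450210816)) (T.h (P (nat_lit 0))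 (T.h (M (nat_lit 429635777253873811455)) (T.h (P (nat_lit 0)) (M (nat_lit 466928359457407)))))) (T.h (P (nat_lit 0)) (T.h (T.h (M (nat_lit 483902684680515747839)) (T.h (P (nat_lit 0)) (P (nat_lit 665330991811392)))) (T.h (P (nat_lit 0)) (P (nat_lit 1638605785130944)))))) (T.h (T.h (P (nat_lit 0)) (T.h (T.h (P (nat_lit 0)) (P (nat_lit 3661697074891587584))) (P (nat_lit 0)))) (T.h (T.h (T.h (P (nat_lit 1576207568408653332480)) (T.h (P (nat_lit 0)) (P (nat_lit 9606960604224)))) (T.h (P (nat_lit 0)) (P (nat_lit 262688387398912)))) (T.h (P (nat_lit 0)) (M (nat_lit 144862093652351)))))))), (T.h (T.h (T.h (P (nat_lit 0)) (T.h (P (nat_lit 30911329824371918256220405760)) (T.h (P (nat_lit 0)) (T.h (P (nat_lit 135305056654935805919232)) (T.h (P (nat_lit 0)) (M (nat_lit 117758441303965695))))))) (T.h (P (nat_lit 0)) (T.h (T.h (P (nat_lit 0)) (T.h (M (nat_lit 57177540964645888589823)) (T.h (P (nat_lit 0)) (P (nat_lit 266952139872157696))))) (T.h (P (nat_lit 0))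 (T.h (T.h (P (nat_lit 0)) (M (nat_lit 89760417283244031))) (P (nat_lit 0))))))) (T.h (T.h (P (nat_lit 0)) (T.h (T.h (M (nat_lit 225476304066940349997645823)) (T.h (P (nat_lit 0)) (T.h (P (nat_lit 608582383515736211456)) (T.h (P (nat_lit 0)) (M (nat_lit 889444151852255)))))) (T.h (P (nat_lit 0)) (T.h (T.h (P (nat_lit 554670739826271059968)) (T.h (P (nat_lit 0)) (P (nat_lit 141508223711712)))) (T.h (P (nat_lit 0)) (M (nat_lit 223939804868031))))))) (T.h (T.h (T.h (P (nat_lit 0)) (T.h (M (nat_lit 271138119989090173583359)) (T.h (P (nat_lit 0)) (M (nat_lit 640962173614653439))))) (T.h (P (nat_lit 0)) (T.h (T.h (P (nat_lit 0)) (M (nat_lit 53081248036339711))) (P (nat_lit 0))))) (T.h (T.h (P (nat_lit 0)) (T.h (T.h (M (nat_lit 236780059099068891135)) (T.h (P (nat_lit 0)) (M (nat_lit 370753656199167)))) (T.h (P (nat_lit 0)) (M (nat_lit 245292104547071))))) (T.h (T.h (T.h (P (nat_lit 0)) (P (nat_lit 346646336941424640))) (P (nat_lit 0))) (T.h (T.h (P (nat_lit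 0)) (P (nat_lit 144708727166960))) (P (nat_lit 0)))))))), (T.h (T.h (T.h (M (nat_lit 27090461416385597190112410599423)) (T.h (P (nat_lit 0)) (T.h (M (nat_lit 110336858536922389780889599)) (T.h (P (nat_lit 0)) (P (nat_lit 237720383341838991360)))))) (T.h (P (nat_lit 0)) (T.h (T.h (M (nat_lit 19599926762324988130230271)) (T.h (P (nat_lit 0)) (M (nat_lit 227475733942231891967)))) (T.h (P (nat_lit 0)) (P (nat_lit 201899917648039247872)))))) (T.h (T.h (P (nat_lit 0)) (T.h (T.h (P (nat_lit 0)) (T.h (M (nat_lit 1129105501571561629417471)) (T.h (P (nat_lit 0)) (P (nat_lit 2085774707732840448))))) (T.h (P (nat_lit 0)) (T.h (T.h (P (nat_lit 0)) (P (nat_lit 1960912070372753408))) (P (nat_lit 0)))))) (T.h (T.h (T.h (P (nat_lit 162031074772779359918882816)) (T.h (P (nat_lit 0)) (P (nat_lit 92651215796660338688)))) (T.h (P (nat_lit 0)) (P (nat_lit 360413849700880351232)))) (T.h (T.h (P (nat_lit 0)) (T.h (T.h (P (nat_lit 0)) (M (nat_lit 1898189059348430847))) (P (nat_lit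 0)))) (P (nat_lit 99693049936091283456)))))), (T.h (T.h (P (nat_lit 0)) (T.h (T.h (P (nat_lit 0)) (T.h (M (nat_lit 83626387721824454582468607)) (T.h (P (nat_lit 0)) (T.h (P (nat_lit 85766246270368743424)) (T.h (P (nat_lit 0)) (P (nat_lit 11420856083328))))))) (T.h (P (nat_lit 0)) (T.h (T.h (P (nat_lit 0)) (T.h (M (nat_lit 94436845230223261695)) (T.h (P (nat_lit 0)) (P (nat_lit 197314070123200))))) (T.h (P (nat_lit 0)) (T.h (T.h (P (nat_lit 0)) (P (nat_lit 107326841501440))) (P (nat_lit 0)))))))) (T.h (T.h (T.h (P (nat_lit 46792758968280233293480198144)) (T.h (P (nat_lit 0)) (T.h (M (nat_lit 24332516310276678615039)) (T.h (P (nat_lit 0)) (P (nat_lit 116005186613870592)))))) (T.h (P (nat_lit 0)) (T.h (T.h (M (nat_lit 125136616968347103264767)) (T.h (P (nat_lit 0)) (P (nat_lit 122755825063264256)))) (T.h (P (nat_lit 0)) (P (nat_lit 265822393296289792)))))) (T.h (T.h (P (nat_lit 0)) (T.h (T.h (P (nat_lit 0)) (T.h (M (nat_lit 696900677064655372287)) (T.h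 (P (nat_lit 0)) (P (nat_lit 36848463641664))))) (T.h (P (nat_lit 0)) (T.h (T.h (P (nat_lit 0)) (M (nat_lit 333470482810303))) (P (nat_lit 0)))))) (T.h (T.h (T.h (P (nat_lit 216971507881601824456704)) (T.h (P (nat_lit 0)) (M (nat_lit 21901407346294783)))) (T.h (P (nat_lit 0)) (M (nat_lit 277069416380858367)))) (T.h (T.h (P (nat_lit 0)) (T.h (T.h (P (nat_lit 0)) (P (nat_lit 265807357753792))) (P (nat_lit 0)))) (P (nat_lit 11969581587103744))))))), (T.h (T.h (P (nat_lit 0)) (T.h (T.h (P (nat_lit 38654651469590484565549383680)) (T.h (P (nat_lit 0)) (T.h (M (nat_lit 398869698903503942975487)) (T.h (P (nat_lit 0)) (P (nat_lit 77592608275103744)))))) (T.h (P (nat_lit 0)) (T.h (T.h (P (nat_lit 75429900119833793527808)) (T.h (P (nat_lit 0)) (M (nat_lit 103527097765298175)))) (T.h (P (nat_lit 0)) (P (nat_lit 84372272904028160))))))) (T.h (T.h (T.h (P (nat_lit 0)) (T.h (M (nat_lit 82005352132504340645543935)) (T.h (P (nat_lit 0)) (T.h (P (nat_lit 40354807243362795520))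 (T.h (P (nat_lit 0)) (M (nat_lit 171358582288431))))))) (T.h (P (nat_lit 0)) (T.h (T.h (P (nat_lit 0)) (T.h (P (nat_lit 6781948296333099008)) (T.h (P (nat_lit 0)) (M (nat_lit 625848463900175))))) (T.h (P (nat_lit 0)) (T.h (T.h (P (nat_lit 0)) (P (nat_lit 56095130371632))) (P (nat_lit 0))))))) (T.h (T.h (P (nat_lit 0)) (T.h (T.h (P (nat_lit 254371583437503744442368)) (T.h (P (nat_lit 0)) (P (nat_lit 605362602800644096)))) (T.h (P (nat_lit 0)) (M (nat_lit 1732861195147624447))))) (T.h (T.h (T.h (P (nat_lit 0)) (T.h (P (nat_lit 7255255734206595072)) (T.h (P (nat_lit 0)) (M (nat_lit 126198014860367))))) (T.h (P (nat_lit 0)) (T.h (T.h (P (nat_lit 0)) (M (nat_lit 150609851272495))) (P (nat_lit 0))))) (T.h (T.h (P (nat_lit 0)) (M (nat_lit 863332651526553599))) (T.h (T.h (T.h (P (nat_lit 0)) (P (nat_lit 128431816472960))) (P (nat_lit 0))) (P (nat_lit 0)))))))), (T.h (T.h (P (nat_lit 0)) (T.h (T.h (P (nat_lit 0)) (T.h (P (nat_lit 41701646712498679734861824))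 (T.h (P (nat_lit 0)) (M (nat_lit 551540981728408502271))))) (T.h (P (nat_lit 0)) (T.h (T.h (P (nat_lit 0)) (M (nat_lit 171387007687188283391))) (P (nat_lit 0)))))) (T.h (T.h (T.h (P (nat_lit 81723471967295498092208455680)) (T.h (P (nat_lit 0)) (T.h (M (nat_lit 394903523492071357808639)) (T.h (P (nat_lit 0)) (P (nat_lit 23939575716872192)))))) (T.h (P (nat_lit 0)) (T.h (T.h (M (nat_lit 262320612458681044303871)) (T.h (P (nat_lit 0)) (P (nat_lit 1603294888650309632)))) (T.h (P (nat_lit 0)) (M (nat_lit 218921978668482559)))))) (T.h (T.h (P (nat_lit 0)) (T.h (T.h (P (nat_lit 0)) (P (nat_lit 8404216807191216128))) (P (nat_lit 0)))) (T.h (T.h (T.h (M (nat_lit 48306181907224534712319)) (T.h (P (nat_lit 0)) (P (nat_lit 406538586978025472)))) (T.h (P (nat_lit 0)) (P (nat_lit 653852938299801600)))) (T.h (P (nat_lit 0)) (P (nat_lit 580415398995525632))))))), (T.h (T.h (T.h (P (nat_lit 0)) (T.h (P (nat_lit 2328535345222944051758628864)) (T.h (P (nat_lit 0)) (T.h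 (P (nat_lit 4364167748600012472320)) (T.h (P (nat_lit 0)) (M (nat_lit 1605405777788927))))))) (T.h (P (nat_lit 0)) (T.h (T.h (P (nat_lit 0)) (T.h (P (nat_lit 247039374308906822008832)) (T.h (P (nat_lit 0)) (M (nat_lit 380614331262664703))))) (T.h (P (nat_lit 0)) (T.h (T.h (P (nat_lit 0)) (M (nat_lit 145400556215058431))) (P (nat_lit 0))))))) (T.h (T.h (P (nat_lit 0)) (T.h (T.h (M (nat_lit 30324963064396105518153727)) (T.h (P (nat_lit 0)) (T.h (M (nat_lit 151511431282023202815)) (T.h (P (nat_lit 0)) (M (nat_lit 237527651697951)))))) (T.h (P (nat_lit 0)) (T.h (T.h (P (nat_lit 543754214121337257984)) (T.h (P (nat_lit 0)) (P (nat_lit 523327662662640)))) (T.h (P (nat_lit 0)) (M (nat_lit 511264914572719))))))) (T.h (T.h (T.h (P (nat_lit 0)) (T.h (P (nat_lit 247039374308906822008832)) (T.h (P (nat_lit 0)) (M (nat_lit 380614331262664703))))) (T.h (P (nat_lit 0)) (T.h (T.h (P (nat_lit 0)) (P (nat_lit 1230293658452131840))) (P (nat_lit 0))))) (T.h (T.h (P (nat_lit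 0)) (T.h (T.h (P (nat_lit 543754214121337257984)) (T.h (P (nat_lit 0)) (P (nat_lit 523327662662640)))) (T.h (P (nat_lit 0)) (M (nat_lit 1759458341326751))))) (T.h (T.h (T.h (P (nat_lit 0)) (M (nat_lit 145400556215058431))) (P (nat_lit 0))) (T.h (T.h (P (nat_lit 0)) (M (nat_lit 511264914572719))) (P (nat_lit 0)))))))), (T.h (T.h (T.h (P (nat_lit 19911686985342792395777992818688)) (T.h (P (nat_lit 0)) (T.h (P (nat_lit 29866378528940360116207616)) (T.h (P (nat_lit 0)) (P (nat_lit 42188510695096582144)))))) (T.h (P (nat_lit 0)) (T.h (T.h (M (nat_lit 66216282854357790449729535)) (T.h (P (nat_lit 0)) (M (nat_lit 153817068035633053695)))) (T.h (P (nat_lit 0)) (P (nat_lit 89483072378851295232)))))) (T.h (T.h (P (nat_lit 0)) (T.h (T.h (P (nat_lit 0)) (T.h (M (nat_lit 678210062349546654007295)) (T.h (P (nat_lit 0)) (P (nat_lit 642979739907260416))))) (T.h (P (nat_lit 0)) (T.h (T.h (P (nat_lit 0)) (M (nat_lit 180562133041676287))) (P (nat_lit 0)))))) (T.h (T.h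 (T.h (M (nat_lit 66216282854357790449729535)) (T.h (P (nat_lit 0)) (M (nat_lit 153817068035633053695)))) (T.h (P (nat_lit 0)) (P (nat_lit 1204606997567086002176)))) (T.h (T.h (P (nat_lit 0)) (T.h (T.h (P (nat_lit 0)) (M (nat_lit 180562133041676287))) (P (nat_lit 0)))) (P (nat_lit 89483072378851295232))))))]
def lP22_53 : List (T ℤ) := [(T.h (T.h (P (nat_lit 0)) (T.h (T.h (P (nat_lit 0)) (T.h (M (nat_lit 8530470887322473985998847)) (T.h (P (nat_lit 0)) (P (nat_lit 11526735466153902080))))) (T.h (P (nat_lit 0)) (T.h (T.h (P (nat_lit 0)) (P (nat_lit 124755095903367331840))) (P (nat_lit 0)))))) (T.h (T.h (T.h (P (nat_lit 37495071686497208421731794944)) (T.h (P (nat_lit 0)) (T.h (P (nat_lit 16057378342646109437952)) (T.h (P (nat_lit 0)) (P (nat_lit 26770372925128704)))))) (T.h (P (nat_lit 0)) (T.h (T.h (M (nat_lit 426842702168290282700799)) (T.h (P (nat_lit 0)) (P (nat_lit 154969859478683648)))) (T.h (P (nat_lit 0)) (P (nat_lit 1052533473347338240))))))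 (T.h (T.h (P (nat_lit 0)) (T.h (T.h (P (nat_lit 0)) (M (nat_lit 394182288451529867263))) (P (nat_lit 0)))) (T.h (T.h (T.h (M (nat_lit 138571131412666097074175)) (T.h (P (nat_lit 0)) (M (nat_lit 255022184546467839)))) (T.h (P (nat_lit 0)) (P (nat_lit 813225388758859776)))) (T.h (P (nat_lit 0)) (P (nat_lit 207322856984576000))))))), (P (nat_lit 0)), (T.h (T.h (T.h (P (nat_lit 0)) (T.h (P (nat_lit 9422099133578870097476321280)) (T.h (P (nat_lit 0)) (T.h (M (nat_lit 3603468943921617305599)) (T.h (P (nat_lit 0)) (M (nat_lit 16078282145431551))))))) (T.h (P (nat_lit 0)) (T.h (T.h (P (nat_lit 0)) (T.h (P (nat_lit 7610511668739915644928)) (T.h (P (nat_lit 0)) (M (nat_lit 11067179892670463))))) (T.h (P (nat_lit 0)) (T.h (T.h (P (nat_lit 0)) (P (nat_lit 11273812219789312))) (P (nat_lit 0))))))) (T.h (T.h (P (nat_lit 0)) (T.h (T.h (P (nat_lit 7767568136061330661572608)) (T.h (P (nat_lit 0)) (T.h (M (nat_lit 27999267637092679679)) (T.h (P (nat_lit 0)) (M (nat_lit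 34734735822511)))))) (T.h (P (nat_lit 0)) (T.h (T.h (P (nat_lit 16006873665018789888)) (T.h (P (nat_lit 0)) (P (nat_lit 21245891632488)))) (T.h (P (nat_lit 0)) (M (nat_lit 7238687569983))))))) (T.h (T.h (T.h (P (nat_lit 0)) (T.h (M (nat_lit 19998323685167607054335)) (T.h (P (nat_lit 0)) (M (nat_lit 91833471907921919))))) (T.h (P (nat_lit 0)) (T.h (T.h (P (nat_lit 0)) (M (nat_lit 131379255298686975))) (P (nat_lit 0))))) (T.h (T.h (P (nat_lit 0)) (T.h (T.h (P (nat_lit 62422039299732013056)) (T.h (P (nat_lit 0)) (P (nat_lit 135007709293616)))) (T.h (P (nat_lit 0)) (M (nat_lit 104740529347503))))) (T.h (T.h (T.h (P (nat_lit 0)) (M (nat_lit 167818423914430463))) (P (nat_lit 0))) (T.h (T.h (P (nat_lit 0)) (P (nat_lit 1076197240586648))) (P (nat_lit 0)))))))), (T.h (T.h (T.h (P (nat_lit 23554052749273041441003961057280)) (T.h (P (nat_lit 0)) (T.h (M (nat_lit 18169799066327984273096703)) (T.h (P (nat_lit 0)) (T.h (M (nat_lit 9779192698496876543)) (T.h (P (nat_lit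 0)) (P (nat_lit 7015901246208)))))))) (T.h (P (nat_lit 0)) (T.h (T.h (M (nat_lit 1116594654860944001204223)) (T.h (P (nat_lit 0)) (T.h (P (nat_lit 6840648437726183424)) (T.h (P (nat_lit 0)) (P (nat_lit 3595433268720)))))) (T.h (P (nat_lit 0)) (T.h (T.h (M (nat_lit 2642978377501245439)) (T.h (P (nat_lit 0)) (P (nat_lit 3538756460992)))) (T.h (P (nat_lit 0)) (M (nat_lit 2424212061055)))))))) (T.h (T.h (P (nat_lit 0)) (T.h (T.h (P (nat_lit 0)) (T.h (P (nat_lit 7376399792568524603392)) (T.h (P (nat_lit 0)) (M (nat_lit 77466805959032831))))) (T.h (P (nat_lit 0)) (T.h (T.h (P (nat_lit 0)) (P (nat_lit 49912040392163328))) (P (nat_lit 0)))))) (T.h (T.h (T.h (M (nat_lit 3591785376948345362186239)) (T.h (P (nat_lit 0)) (T.h (M (nat_lit 24034483529502949375)) (T.h (P (nat_lit 0)) (M (nat_lit 40893905747535)))))) (T.h (P (nat_lit 0)) (T.h (T.h (P (nat_lit 113362164939430559744)) (T.h (P (nat_lit 0)) (P (nat_lit 32985262238352)))) (T.h (P (nat_lit 0)) (M (nat_lit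 42796093805007)))))) (T.h (T.h (P (nat_lit 0)) (T.h (T.h (P (nat_lit 0)) (P (nat_lit 176471059806552064))) (P (nat_lit 0)))) (T.h (T.h (T.h (M (nat_lit 138932654950995460095)) (T.h (P (nat_lit 0)) (P (nat_lit 467448510117440)))) (T.h (P (nat_lit 0)) (P (nat_lit 93912456396352)))) (T.h (P (nat_lit 0)) (P (nat_lit 54124853331920)))))))), (T.h (T.h (T.h (P (nat_lit 0)) (T.h (M (nat_lit 30743316187595668895993692159)) (T.h (P (nat_lit 0)) (T.h (M (nat_lit 31990051572355434545151)) (T.h (P (nat_lit 0)) (P (nat_lit 107647830557327360))))))) (T.h (P (nat_lit 0)) (T.h (T.h (P (nat_lit 0)) (T.h (P (nat_lit 30159946862833371709440)) (T.h (P (nat_lit 0)) (M (nat_lit 63879557127372799))))) (T.h (P (nat_lit 0)) (T.h (T.h (P (nat_lit 0)) (P (nat_lit 38451470573731840))) (P (nat_lit 0))))))) (T.h (T.h (P (nat_lit 0)) (T.h (T.h (M (nat_lit 107616031060821464577998847)) (T.h (P (nat_lit 0)) (T.h (M (nat_lit 134759294785770487807)) (T.h (P (nat_lit 0)) (M (nat_lit 104692039472959))))))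 (T.h (P (nat_lit 0)) (T.h (T.h (M (nat_lit 52097767407718760447)) (T.h (P (nat_lit 0)) (M (nat_lit 138236329626367)))) (T.h (P (nat_lit 0)) (M (nat_lit 4978840797247))))))) (T.h (T.h (T.h (P (nat_lit 0)) (T.h (P (nat_lit 130065404514620449751040)) (T.h (P (nat_lit 0)) (M (nat_lit 46881492679327743))))) (T.h (P (nat_lit 0)) (T.h (T.h (P (nat_lit 0)) (M (nat_lit 261196326978060287))) (P (nat_lit 0))))) (T.h (T.h (P (nat_lit 0)) (T.h (T.h (M (nat_lit 307788482951491092479)) (T.h (P (nat_lit 0)) (P (nat_lit 272970671626752)))) (T.h (P (nat_lit 0)) (M (nat_lit 110500936895807))))) (T.h (T.h (T.h (P (nat_lit 0)) (P (nat_lit 425943098470891520))) (P (nat_lit 0))) (T.h (T.h (P (nat_lit 0)) (M (nat_lit 427569879162559))) (P (nat_lit 0)))))))), (T.h (T.h (T.h (P (nat_lit 1215232823394490558067779829760)) (T.h (P (nat_lit 0)) (T.h (M (nat_lit 70451967772563948882100223)) (T.h (P (nat_lit 0)) (T.h (M (nat_lit 87726526752205307903)) (T.h (P (nat_lit 0)) (M (nat_lit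 98794782225567)))))))) (T.h (P (nat_lit 0)) (T.h (T.h (M (nat_lit 4047908468901851512700927)) (T.h (P (nat_lit 0)) (T.h (M (nat_lit 97369097250491334655)) (T.h (P (nat_lit 0)) (P (nat_lit 158937320446608)))))) (T.h (P (nat_lit 0)) (T.h (T.h (P (nat_lit 12494376568308629504)) (T.h (P (nat_lit 0)) (M (nat_lit 2255834441519)))) (T.h (P (nat_lit 0)) (M (nat_lit 6670524736831)))))))) (T.h (T.h (P (nat_lit 0)) (T.h (T.h (P (nat_lit 0)) (T.h (M (nat_lit 522107375545829008867327)) (T.h (P (nat_lit 0)) (P (nat_lit 524299486002118656))))) (T.h (P (nat_lit 0)) (T.h (T.h (P (nat_lit 0)) (P (nat_lit 309096782811529216))) (P (nat_lit 0)))))) (T.h (T.h (T.h (M (nat_lit 120576043976792087757586431)) (T.h (P (nat_lit 0)) (T.h (M (nat_lit 81801084817891131391)) (T.h (P (nat_lit 0)) (P (nat_lit 357297547986368)))))) (T.h (P (nat_lit 0)) (T.h (T.h (P (nat_lit 124162819783930150912)) (T.h (P (nat_lit 0)) (M (nat_lit 1091247964570191)))) (T.h (P (nat_lit 0)) (P (nat_lit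 28042003142032)))))) (T.h (T.h (P (nat_lit 0)) (T.h (T.h (P (nat_lit 0)) (M (nat_lit 1050454184151416831))) (P (nat_lit 0)))) (T.h (T.h (T.h (P (nat_lit 180283347286798368768)) (T.h (P (nat_lit 0)) (M (nat_lit 1470303372520223)))) (T.h (P (nat_lit 0)) (M (nat_lit 278655985779071)))) (T.h (P (nat_lit 0)) (M (nat_lit 368987373836047)))))))), (T.h (T.h (T.h (P (nat_lit 0)) (T.h (P (nat_lit 46975016913352412100676288512)) (T.h (P (nat_lit 0)) (T.h (M (nat_lit 146627091873147461304319)) (T.h (P (nat_lit 0)) (P (nat_lit 203718278836256768))))))) (T.h (P (nat_lit 0)) (T.h (T.h (P (nat_lit 0)) (T.h (P (nat_lit 827507222453180956672)) (T.h (P (nat_lit 0)) (M (nat_lit 187136119205920767))))) (T.h (P (nat_lit 0)) (T.h (T.h (P (nat_lit 0)) (P (nat_lit 53802347545690112))) (P (nat_lit 0))))))) (T.h (T.h (P (nat_lit 0)) (T.h (T.h (P (nat_lit 59950188819018535648886784)) (T.h (P (nat_lit 0)) (M (nat_lit 365620868819634356223)))) (T.h (P (nat_lit 0)) (P (nat_lit 23457270302150492160)))))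 (T.h (T.h (T.h (P (nat_lit 0)) (T.h (M (nat_lit 679248079193030921289727)) (T.h (P (nat_lit 0)) (P (nat_lit 739440940597215232))))) (T.h (P (nat_lit 0)) (T.h (T.h (P (nat_lit 0)) (P (nat_lit 203833824419741696))) (P (nat_lit 0))))) (T.h (T.h (P (nat_lit 0)) (P (nat_lit 48132547098284392448))) (T.h (T.h (T.h (P (nat_lit 0)) (P (nat_lit 1211482183472513024))) (P (nat_lit 0))) (P (nat_lit 0))))))), (T.h (T.h (P (nat_lit 0)) (T.h (T.h (P (nat_lit 13204927875378715774934843392)) (T.h (P (nat_lit 0)) (T.h (P (nat_lit 3282297356631899373568)) (T.h (P (nat_lit 0)) (M (nat_lit 2513831367540735)))))) (T.h (P (nat_lit 0)) (T.h (T.h (M (nat_lit 590497161174321201151)) (T.h (P (nat_lit 0)) (M (nat_lit 7315163158740991)))) (T.h (P (nat_lit 0)) (M (nat_lit 17312308370309119))))))) (T.h (T.h (T.h (P (nat_lit 0)) (T.h (M (nat_lit 122639602115953821745151)) (T.h (P (nat_lit 0)) (T.h (P (nat_lit 2240755757060456448)) (T.h (P (nat_lit 0)) (M (nat_lit 3482561271999)))))))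 (T.h (P (nat_lit 0)) (T.h (T.h (P (nat_lit 0)) (T.h (P (nat_lit 17277838074277003264)) (T.h (P (nat_lit 0)) (M (nat_lit 4134781533415))))) (T.h (P (nat_lit 0)) (T.h (T.h (P (nat_lit 0)) (M (nat_lit 26065790100687))) (P (nat_lit 0))))))) (T.h (T.h (P (nat_lit 0)) (T.h (T.h (P (nat_lit 13539892843789789691904)) (T.h (P (nat_lit 0)) (M (nat_lit 21109903815409663)))) (T.h (P (nat_lit 0)) (M (nat_lit 27032684399165439))))) (T.h (T.h (T.h (P (nat_lit 0)) (T.h (P (nat_lit 23265789879055810560)) (T.h (P (nat_lit 0)) (M (nat_lit 20913852849103))))) (T.h (P (nat_lit 0)) (T.h (T.h (P (nat_lit 0)) (M (nat_lit 33347038321839))) (P (nat_lit 0))))) (T.h (T.h (P (nat_lit 0)) (M (nat_lit 11870878074175487))) (T.h (T.h (T.h (P (nat_lit 0)) (M (nat_lit 36276789813271))) (P (nat_lit 0))) (P (nat_lit 0))))))))]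
def lP22_54 : List (T ℤ) := [(T.h (T.h (P (nat_lit 0)) (T.h (T.h (P (nat_lit 0)) (T.h (P (nat_lit 11439208824090017958723584)) (T.h (P (nat_lit 0)) (T.h (M (nat_lit 25606197467787821055)) (T.h (P (nat_lit 0)) (M (nat_lit 9359451847407))))))) (T.h (P (nat_lit 0)) (T.h (T.h (P (nat_lit 0)) (T.h (M (nat_lit 25606197467787821055)) (T.h (P (nat_lit 0)) (M (nat_lit 9080975901567))))) (T.h (P (nat_lit 0)) (T.h (T.h (P (nat_lit 0)) (M (nat_lit 9359451847407))) (P (nat_lit 0)))))))) (T.h (T.h (T.h (M (nat_lit 10568642270593862374394953727)) (T.h (P (nat_lit 0)) (T.h (P (nat_lit 8179832511665811750912)) (T.h (P (nat_lit 0)) (P (nat_lit 42281017820037120)))))) (T.h (P (nat_lit 0)) (T.h (T.h (P (nat_lit 8179832511665811750912)) (T.h (P (nat_lit 0)) (M (nat_lit 83790289926193151)))) (T.h (P (nat_lit 0)) (P (nat_lit 42281017820037120)))))) (T.h (T.h (P (nat_lit 0)) (T.h (T.h (P (nat_lit 0)) (T.h (P (nat_lit 167073992415295569920)) (T.h (P (nat_lit 0)) (P (nat_lit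 13668783183072))))) (T.h (P (nat_lit 0)) (T.h (T.h (P (nat_lit 0)) (P (nat_lit 13668783183072))) (P (nat_lit 0)))))) (T.h (T.h (T.h (P (nat_lit 140262297202309164171264)) (T.h (P (nat_lit 0)) (P (nat_lit 126396749802356736)))) (T.h (P (nat_lit 0)) (P (nat_lit 126396749802356736)))) (T.h (T.h (P (nat_lit 0)) (T.h (T.h (P (nat_lit 0)) (M (nat_lit 216448194887871))) (P (nat_lit 0)))) (M (nat_lit 263332630997860351))))))), (T.h (T.h (P (nat_lit 0)) (T.h (T.h (P (nat_lit 27573468619294519107795288064)) (T.h (P (nat_lit 0)) (T.h (M (nat_lit 31046409416632053006335)) (T.h (P (nat_lit 0)) (M (nat_lit 137409582491303935)))))) (T.h (P (nat_lit 0)) (T.h (T.h (M (nat_lit 148336140461852793503743)) (T.h (P (nat_lit 0)) (M (nat_lit 5069160912617471)))) (T.h (P (nat_lit 0)) (P (nat_lit 45632158743527424))))))) (T.h (T.h (T.h (P (nat_lit 0)) (T.h (P (nat_lit 34466885455667510214918144)) (T.h (P (nat_lit 0)) (T.h (M (nat_lit 130383032005731287039)) (T.h (P (nat_lit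 0)) (M (nat_lit 29199094884671))))))) (T.h (P (nat_lit 0)) (T.h (T.h (P (nat_lit 0)) (T.h (M (nat_lit 83920714297373622271)) (T.h (P (nat_lit 0)) (P (nat_lit 7847311340096))))) (T.h (P (nat_lit 0)) (T.h (T.h (P (nat_lit 0)) (M (nat_lit 5358175711231))) (P (nat_lit 0))))))) (T.h (T.h (P (nat_lit 0)) (T.h (T.h (M (nat_lit 123217807114262095593471)) (T.h (P (nat_lit 0)) (P (nat_lit 136885449423552512)))) (T.h (P (nat_lit 0)) (M (nat_lit 436771630305247231))))) (T.h (T.h (T.h (P (nat_lit 0)) (T.h (M (nat_lit 2149898102889653469183)) (T.h (P (nat_lit 0)) (M (nat_lit 506477718526207))))) (T.h (P (nat_lit 0)) (T.h (T.h (P (nat_lit 0)) (M (nat_lit 404041203420735))) (P (nat_lit 0))))) (T.h (T.h (P (nat_lit 0)) (P (nat_lit 1820843924937015296))) (T.h (T.h (T.h (P (nat_lit 0)) (M (nat_lit 560598551876287))) (P (nat_lit 0))) (P (nat_lit 0)))))))), (T.h (T.h (P (nat_lit 0)) (T.h (T.h (P (nat_lit 0)) (T.h (P (nat_lit 103283711528334789982552064)) (T.h (P (nat_lit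 0)) (T.h (M (nat_lit 86679914041416089599)) (T.h (P (nat_lit 0)) (P (nat_lit 119883028452176))))))) (T.h (P (nat_lit 0)) (T.h (T.h (P (nat_lit 0)) (T.h (M (nat_lit 1352985105907318783)) (T.h (P (nat_lit 0)) (M (nat_lit 23689960517871))))) (T.h (P (nat_lit 0)) (T.h (T.h (P (nat_lit 0)) (P (nat_lit 57747740157536))) (P (nat_lit 0)))))))) (T.h (T.h (T.h (P (nat_lit 35363525717813127072268156928)) (T.h (P (nat_lit 0)) (T.h (M (nat_lit 50135950289608678309887)) (T.h (P (nat_lit 0)) (M (nat_lit 737644645786255359)))))) (T.h (P (nat_lit 0)) (T.h (T.h (P (nat_lit 218824825850870034857984)) (T.h (P (nat_lit 0)) (M (nat_lit 260690775951818751)))) (T.h (P (nat_lit 0)) (P (nat_lit 228729104688889856)))))) (T.h (T.h (P (nat_lit 0)) (T.h (T.h (P (nat_lit 0)) (T.h (M (nat_lit 265560519786861953023)) (T.h (P (nat_lit 0)) (P (nat_lit 129479626112320))))) (T.h (P (nat_lit 0)) (T.h (T.h (P (nat_lit 0)) (M (nat_lit 101729801958399))) (P (nat_lit 0)))))) (T.h (T.h (T.h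 (M (nat_lit 6751133298556577775615)) (T.h (P (nat_lit 0)) (M (nat_lit 393860190868275199)))) (T.h (P (nat_lit 0)) (P (nat_lit 183021395936935936)))) (T.h (T.h (P (nat_lit 0)) (T.h (T.h (P (nat_lit 0)) (P (nat_lit 1711947762409280))) (P (nat_lit 0)))) (P (nat_lit 1150537368534614016))))))), (T.h (T.h (P (nat_lit 0)) (T.h (T.h (P (nat_lit 8411699922250370099984728064)) (T.h (P (nat_lit 0)) (T.h (M (nat_lit 119877802237292047237119)) (T.h (P (nat_lit 0)) (M (nat_lit 191103879024803839)))))) (T.h (P (nat_lit 0)) (T.h (T.h (M (nat_lit 15846572859528663007231)) (T.h (P (nat_lit 0)) (P (nat_lit 142248101212979200)))) (T.h (P (nat_lit 0)) (P (nat_lit 18036071833239552))))))) (T.h (T.h (T.h (P (nat_lit 0)) (T.h (P (nat_lit 118843238548441751768530944)) (T.h (P (nat_lit 0)) (P (nat_lit 331137193997825474560))))) (T.h (P (nat_lit 0)) (T.h (T.h (P (nat_lit 0)) (M (nat_lit 518126442618692829183))) (P (nat_lit 0))))) (T.h (T.h (P (nat_lit 0)) (T.h (T.h (M (nat_lit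 173296379375006754275327)) (T.h (P (nat_lit 0)) (P (nat_lit 218599629732970496)))) (T.h (P (nat_lit 0)) (M (nat_lit 35450492600254463))))) (T.h (T.h (T.h (P (nat_lit 0)) (P (nat_lit 2220623713047010082816))) (P (nat_lit 0))) (T.h (T.h (P (nat_lit 0)) (M (nat_lit 636113391252635647))) (P (nat_lit 0))))))), (T.h (T.h (T.h (P (nat_lit 15172213786557349686731121623040)) (T.h (P (nat_lit 0)) (T.h (M (nat_lit 1210949200232913911676927)) (T.h (P (nat_lit 0)) (T.h (M (nat_lit 1640313288946352127)) (T.h (P (nat_lit 0)) (M (nat_lit 2258787755471)))))))) (T.h (P (nat_lit 0)) (T.h (T.h (M (nat_lit 18264153611699954183569407)) (T.h (P (nat_lit 0)) (T.h (M (nat_lit 1443524170846568447)) (T.h (P (nat_lit 0)) (P (nat_lit 7778266412928)))))) (T.h (P (nat_lit 0)) (T.h (T.h (M (nat_lit 8776527609941983231)) (T.h (P (nat_lit 0)) (P (nat_lit 7834943220656)))) (T.h (P (nat_lit 0)) (P (nat_lit 7181325551792)))))))) (T.h (T.h (P (nat_lit 0)) (T.h (T.h (P (nat_lit 0)) (T.h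 (P (nat_lit 2070260029915047919616)) (T.h (P (nat_lit 0)) (P (nat_lit 71083122527076352))))) (T.h (P (nat_lit 0)) (T.h (T.h (P (nat_lit 0)) (M (nat_lit 56295723824119807))) (P (nat_lit 0)))))) (T.h (T.h (T.h (P (nat_lit 21374983709252717796917248)) (T.h (P (nat_lit 0)) (T.h (P (nat_lit 104816937201435672576)) (T.h (P (nat_lit 0)) (M (nat_lit 27352561037247)))))) (T.h (P (nat_lit 0)) (T.h (T.h (M (nat_lit 32579711267497836543)) (T.h (P (nat_lit 0)) (M (nat_lit 2428238407215)))) (T.h (P (nat_lit 0)) (M (nat_lit 25450372979775)))))) (T.h (T.h (P (nat_lit 0)) (T.h (T.h (P (nat_lit 0)) (P (nat_lit 184625113980796928))) (P (nat_lit 0)))) (T.h (T.h (T.h (M (nat_lit 47365347442010619903)) (T.h (P (nat_lit 0)) (P (nat_lit 65805890694080)))) (T.h (P (nat_lit 0)) (P (nat_lit 439341944415168)))) (T.h (P (nat_lit 0)) (P (nat_lit 63359498543120)))))))), (T.h (T.h (T.h (P (nat_lit 0)) (T.h (P (nat_lit 38925463074152110333261512704)) (T.h (P (nat_lit 0)) (T.h (M (nat_lit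 132791242963890449940479)) (T.h (P (nat_lit 0)) (P (nat_lit 45792333411090432))))))) (T.h (P (nat_lit 0)) (T.h (T.h (P (nat_lit 0)) (T.h (M (nat_lit 58325728174218793713663)) (T.h (P (nat_lit 0)) (M (nat_lit 80061814870507519))))) (T.h (P (nat_lit 0)) (T.h (T.h (P (nat_lit 0)) (P (nat_lit 112449897471967232))) (P (nat_lit 0))))))) (T.h (T.h (P (nat_lit 0)) (T.h (T.h (P (nat_lit 24593617747856343332552704)) (T.h (P (nat_lit 0)) (T.h (P (nat_lit 87989143565492027392)) (T.h (P (nat_lit 0)) (M (nat_lit 35758438672831)))))) (T.h (P (nat_lit 0)) (T.h (T.h (M (nat_lit 130968615643038875647)) (T.h (P (nat_lit 0)) (P (nat_lit 16402866389632)))) (T.h (P (nat_lit 0)) (M (nat_lit 34559719305663))))))) (T.h (T.h (T.h (P (nat_lit 0)) (T.h (P (nat_lit 369545719271725232816128)) (T.h (P (nat_lit 0)) (P (nat_lit 300563387517009920))))) (T.h (P (nat_lit 0)) (T.h (T.h (P (nat_lit 0)) (M (nat_lit 175201446627147775))) (P (nat_lit 0))))) (T.h (T.h (P (nat_lit 0)) (T.h (T.h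 (M (nat_lit 1007912995429982142463)) (T.h (P (nat_lit 0)) (M (nat_lit 353210867934847)))) (T.h (P (nat_lit 0)) (M (nat_lit 569304909624511))))) (T.h (T.h (T.h (P (nat_lit 0)) (M (nat_lit 852549878750838783))) (P (nat_lit 0))) (T.h (T.h (P (nat_lit 0)) (M (nat_lit 40638326489599))) (P (nat_lit 0)))))))), (T.h (T.h (T.h (P (nat_lit 10877977710155974109859130900480)) (T.h (P (nat_lit 0)) (T.h (M (nat_lit 68229778942906977077952511)) (T.h (P (nat_lit 0)) (T.h (P (nat_lit 11424615447304077312)) (T.h (P (nat_lit 0)) (M (nat_lit 44566472717007)))))))) (T.h (P (nat_lit 0)) (T.h (T.h (M (nat_lit 61470405535673140513865727)) (T.h (P (nat_lit 0)) (T.h (P (nat_lit 149211963080098971648)) (T.h (P (nat_lit 0)) (P (nat_lit 66587590602896)))))) (T.h (P (nat_lit 0)) (T.h (T.h (M (nat_lit 50862680575049727)) (T.h (P (nat_lit 0)) (P (nat_lit 63046380271776)))) (T.h (P (nat_lit 0)) (M (nat_lit 46802093501151)))))))) (T.h (T.h (P (nat_lit 0)) (T.h (T.h (P (nat_lit 0)) (T.h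 (P (nat_lit 340517685100624094429184)) (T.h (P (nat_lit 0)) (M (nat_lit 521171706628800511))))) (T.h (P (nat_lit 0)) (T.h (T.h (P (nat_lit 0)) (M (nat_lit 417141615237103615))) (P (nat_lit 0)))))) (T.h (T.h (T.h (P (nat_lit 348488690592711051371872256)) (T.h (P (nat_lit 0)) (T.h (M (nat_lit 745495223274313875455)) (T.h (P (nat_lit 0)) (M (nat_lit 171203489465711)))))) (T.h (P (nat_lit 0)) (T.h (T.h (M (nat_lit 795348076552467251199)) (T.h (P (nat_lit 0)) (P (nat_lit 1655875951737040)))) (T.h (P (nat_lit 0)) (M (nat_lit 23690217743455)))))) (T.h (T.h (P (nat_lit 0)) (T.h (T.h (P (nat_lit 0)) (P (nat_lit 704798644617248768))) (P (nat_lit 0)))) (T.h (T.h (T.h (M (nat_lit 281544365791718146047)) (T.h (P (nat_lit 0)) (P (nat_lit 93462001685360)))) (T.h (P (nat_lit 0)) (P (nat_lit 138393168762288)))) (T.h (P (nat_lit 0)) (P (nat_lit 459920579849456)))))))), (T.h (T.h (T.h (P (nat_lit 0)) (T.h (P (nat_lit 129916050405150065941358313472)) (T.h (P (nat_lit 0))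 (T.h (M (nat_lit 6714838454358308290559)) (T.h (P (nat_lit 0)) (P (nat_lit 60423203108683776))))))) (T.h (P (nat_lit 0)) (T.h (T.h (P (nat_lit 0)) (T.h (M (nat_lit 259154547832480589676543)) (T.h (P (nat_lit 0)) (M (nat_lit 80552271983345663))))) (T.h (P (nat_lit 0)) (T.h (T.h (P (nat_lit 0)) (P (nat_lit 69747920851107840))) (P (nat_lit 0))))))) (T.h (T.h (P (nat_lit 0)) (T.h (T.h (P (nat_lit 12210586735108523420549120)) (T.h (P (nat_lit 0)) (P (nat_lit 416787428159103434752)))) (T.h (P (nat_lit 0)) (P (nat_lit 311851918521800851456))))) (T.h (T.h (T.h (P (nat_lit 0)) (T.h (P (nat_lit 838462254728880324608000)) (T.h (P (nat_lit 0)) (P (nat_lit 113612820420362240))))) (T.h (P (nat_lit 0)) (T.h (T.h (P (nat_lit 0)) (M (nat_lit 642023175975698431))) (P (nat_lit 0))))) (T.h (T.h (P (nat_lit 0)) (P (nat_lit 1989766113162893983744))) (T.h (T.h (T.h (P (nat_lit 0)) (M (nat_lit 977882438642728959))) (P (nat_lit 0))) (P (nat_lit 0)))))))]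
def lP22_55 : List (T ℤ) := [(T.h (T.h (P (nat_lit 0)) (T.h (T.h (M (nat_lit 29811794875768097430166306815)) (T.h (P (nat_lit 0)) (T.h (P (nat_lit 14483498916290326691840)) (T.h (P (nat_lit 0)) (M (nat_lit 104316820470300671)))))) (T.h (P (nat_lit 0)) (T.h (T.h (P (nat_lit 18779666287450602340352)) (T.h (P (nat_lit 0)) (M (nat_lit 66990179196731391)))) (T.h (P (nat_lit 0)) (M (nat_lit 23750232742199295))))))) (T.h (T.h (T.h (P (nat_lit 0)) (T.h (P (nat_lit 23381767355945894354616320)) (T.h (P (nat_lit 0)) (T.h (M (nat_lit 7445068234803380223)) (T.h (P (nat_lit 0)) (M (nat_lit 10339465218239))))))) (T.h (P (nat_lit 0)) (T.h (T.h (P (nat_lit 0)) (T.h (P (nat_lit 41452185600745537536)) (T.h (P (nat_lit 0)) (M (nat_lit 129680774576831))))) (T.h (P (nat_lit 0)) (T.h (T.h (P (nat_lit 0)) (M (nat_lit 135092302434559))) (P (nat_lit 0))))))) (T.h (T.h (P (nat_lit 0)) (T.h (T.h (P (nat_lit 506275462163121936793600)) (T.h (P (nat_lit 0)) (M (nat_lit 163866416494804991))))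 (T.h (P (nat_lit 0)) (M (nat_lit 125947280191946751))))) (T.h (T.h (T.h (P (nat_lit 0)) (T.h (P (nat_lit 256980490934963666944)) (T.h (P (nat_lit 0)) (M (nat_lit 173328127994111))))) (T.h (P (nat_lit 0)) (T.h (T.h (P (nat_lit 0)) (P (nat_lit 323801007112640))) (P (nat_lit 0))))) (T.h (T.h (P (nat_lit 0)) (M (nat_lit 1512792907138695167))) (T.h (T.h (T.h (P (nat_lit 0)) (P (nat_lit 92390346224128))) (P (nat_lit 0))) (P (nat_lit 0)))))))), (T.h (T.h (P (nat_lit 0)) (T.h (T.h (P (nat_lit 0)) (T.h (P (nat_lit 90555554163492652484395008)) (T.h (P (nat_lit 0)) (T.h (P (nat_lit 14186840661470216192)) (T.h (P (nat_lit 0)) (P (nat_lit 110851673169776))))))) (T.h (P (nat_lit 0)) (T.h (T.h (P (nat_lit 0)) (T.h (M (nat_lit 71140088274038554623)) (T.h (P (nat_lit 0)) (M (nat_lit 25054827595247))))) (T.h (P (nat_lit 0)) (T.h (T.h (P (nat_lit 0)) (P (nat_lit 172986961464416))) (P (nat_lit 0)))))))) (T.h (T.h (T.h (P (nat_lit 17704389529118597248316342272)) (T.h (P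 (nat_lit 0)) (T.h (P (nat_lit 179029490075745973698560)) (T.h (P (nat_lit 0)) (P (nat_lit 328597930403921920)))))) (T.h (P (nat_lit 0)) (T.h (T.h (M (nat_lit 89931286064732739469311)) (T.h (P (nat_lit 0)) (M (nat_lit 271088118705799167)))) (T.h (P (nat_lit 0)) (M (nat_lit 637775820071223295)))))) (T.h (T.h (P (nat_lit 0)) (T.h (T.h (P (nat_lit 0)) (T.h (P (nat_lit 38138849773442039808)) (T.h (P (nat_lit 0)) (P (nat_lit 130585546475472))))) (T.h (P (nat_lit 0)) (T.h (T.h (P (nat_lit 0)) (P (nat_lit 361794974546192))) (P (nat_lit 0)))))) (T.h (T.h (T.h (M (nat_lit 80612603565561887064063)) (T.h (P (nat_lit 0)) (P (nat_lit 261691826528878592)))) (T.h (P (nat_lit 0)) (M (nat_lit 315189760276332543)))) (T.h (T.h (P (nat_lit 0)) (T.h (T.h (P (nat_lit 0)) (P (nat_lit 1882318035580224))) (P (nat_lit 0)))) (P (nat_lit 552199261127180288))))))), (T.h (T.h (P (nat_lit 0)) (T.h (T.h (P (nat_lit 143248602005615764954310246400)) (T.h (P (nat_lit 0)) (T.h (M (nat_lit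 281221776321966440972287)) (T.h (P (nat_lit 0)) (P (nat_lit 37610701693222912)))))) (T.h (P (nat_lit 0)) (T.h (T.h (M (nat_lit 37275923750201581371391)) (T.h (P (nat_lit 0)) (M (nat_lit 59304357145706495)))) (T.h (P (nat_lit 0)) (P (nat_lit 61768686202978304))))))) (T.h (T.h (T.h (P (nat_lit 0)) (T.h (P (nat_lit 140298656222780133453332480)) (T.h (P (nat_lit 0)) (P (nat_lit 305348348258564440064))))) (T.h (P (nat_lit 0)) (T.h (T.h (P (nat_lit 0)) (P (nat_lit 331040896155440381952))) (P (nat_lit 0))))) (T.h (T.h (P (nat_lit 0)) (T.h (T.h (P (nat_lit 831504563151167433998336)) (T.h (P (nat_lit 0)) (M (nat_lit 482443184742957055)))) (T.h (P (nat_lit 0)) (P (nat_lit 87289895111000064))))) (T.h (T.h (T.h (P (nat_lit 0)) (P (nat_lit 160702012152763908096))) (P (nat_lit 0))) (T.h (T.h (P (nat_lit 0)) (M (nat_lit 536696647482572799))) (P (nat_lit 0))))))), (T.h (T.h (T.h (P (nat_lit 90041645070864497468254453760)) (T.h (P (nat_lit 0)) (T.h (M (nat_lit 9814911570293775350628351))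 (T.h (P (nat_lit 0)) (T.h (P (nat_lit 10325048240973545472)) (T.h (P (nat_lit 0)) (M (nat_lit 10492294430287)))))))) (T.h (P (nat_lit 0)) (T.h (T.h (M (nat_lit 82978344281189709284114431)) (T.h (P (nat_lit 0)) (T.h (M (nat_lit 99246207615725731839)) (T.h (P (nat_lit 0)) (P (nat_lit 46870734497312)))))) (T.h (P (nat_lit 0)) (T.h (T.h (M (nat_lit 78420376951661264895)) (T.h (P (nat_lit 0)) (P (nat_lit 211605099716560)))) (T.h (P (nat_lit 0)) (M (nat_lit 100380931134879)))))))) (T.h (T.h (P (nat_lit 0)) (T.h (T.h (P (nat_lit 0)) (T.h (M (nat_lit 465666743731333762121727)) (T.h (P (nat_lit 0)) (P (nat_lit 424906803810205696))))) (T.h (P (nat_lit 0)) (T.h (T.h (P (nat_lit 0)) (P (nat_lit 536079415609098240))) (P (nat_lit 0)))))) (T.h (T.h (T.h (M (nat_lit 74297551689310308902371327)) (T.h (P (nat_lit 0)) (T.h (P (nat_lit 341679502975320457216)) (T.h (P (nat_lit 0)) (P (nat_lit 45874032146976)))))) (T.h (P (nat_lit 0)) (T.h (T.h (P (nat_lit 185568451651652550656))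 (T.h (P (nat_lit 0)) (M (nat_lit 1201170315836127)))) (T.h (P (nat_lit 0)) (P (nat_lit 227616305269056)))))) (T.h (T.h (P (nat_lit 0)) (T.h (T.h (P (nat_lit 0)) (M (nat_lit 1348142103835803647))) (P (nat_lit 0)))) (T.h (T.h (T.h (P (nat_lit 336412622550833561600)) (T.h (P (nat_lit 0)) (M (nat_lit 311887139930959)))) (T.h (P (nat_lit 0)) (M (nat_lit 1548465693749039)))) (T.h (P (nat_lit 0)) (M (nat_lit 499469368768831)))))))), (T.h (T.h (T.h (P (nat_lit 0)) (T.h (P (nat_lit 12264306295860865433992167424)) (T.h (P (nat_lit 0)) (T.h (M (nat_lit 38351697694890571857919)) (T.h (P (nat_lit 0)) (P (nat_lit 22986133075853312))))))) (T.h (P (nat_lit 0)) (T.h (T.h (P (nat_lit 0)) (T.h (M (nat_lit 126715159606584970051583)) (T.h (P (nat_lit 0)) (P (nat_lit 95609950710071296))))) (T.h (P (nat_lit 0)) (T.h (T.h (P (nat_lit 0)) (M (nat_lit 250273072803250175))) (P (nat_lit 0))))))) (T.h (T.h (P (nat_lit 0)) (T.h (T.h (P (nat_lit 178450648329772352166428672)) (T.h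 (P (nat_lit 0)) (M (nat_lit 632434394254251393023)))) (T.h (P (nat_lit 0)) (P (nat_lit 312703088898592473088))))) (T.h (T.h (T.h (P (nat_lit 0)) (T.h (P (nat_lit 72151306072020993703936)) (T.h (P (nat_lit 0)) (P (nat_lit 12011030252027904))))) (T.h (P (nat_lit 0)) (T.h (T.h (P (nat_lit 0)) (P (nat_lit 329315656024653824))) (P (nat_lit 0))))) (T.h (T.h (P (nat_lit 0)) (P (nat_lit 468182160841962946560))) (T.h (T.h (T.h (P (nat_lit 0)) (M (nat_lit 353876310217654271))) (P (nat_lit 0))) (P (nat_lit 0))))))), (T.h (T.h (P (nat_lit 0)) (T.h (T.h (P (nat_lit 37495071686497208421731794944)) (T.h (P (nat_lit 0)) (T.h (P (nat_lit 16057378342646109437952)) (T.h (P (nat_lit 0)) (P (nat_lit 26770372925128704)))))) (T.h (P (nat_lit 0)) (T.h (T.h (M (nat_lit 138571131412666097074175)) (T.h (P (nat_lit 0)) (M (nat_lit 255022184546467839)))) (T.h (P (nat_lit 0)) (P (nat_lit 207322856984576000))))))) (T.h (T.h (T.h (P (nat_lit 0)) (T.h (M (nat_lit 8530470887322473985998847))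 (T.h (P (nat_lit 0)) (P (nat_lit 11526735466153902080))))) (T.h (P (nat_lit 0)) (T.h (T.h (P (nat_lit 0)) (M (nat_lit 394182288451529867263))) (P (nat_lit 0))))) (T.h (T.h (P (nat_lit 0)) (T.h (T.h (M (nat_lit 426842702168290282700799)) (T.h (P (nat_lit 0)) (P (nat_lit 154969859478683648)))) (T.h (P (nat_lit 0)) (P (nat_lit 813225388758859776))))) (T.h (T.h (T.h (P (nat_lit 0)) (P (nat_lit 124755095903367331840))) (P (nat_lit 0))) (T.h (T.h (P (nat_lit 0)) (P (nat_lit 1052533473347338240))) (P (nat_lit 0))))))), (T.h (T.h (P (nat_lit 0)) (T.h (T.h (P (nat_lit 0)) (T.h (P (nat_lit 988941334891427054747648)) (T.h (P (nat_lit 0)) (T.h (P (nat_lit 2589773294710292480)) (T.h (P (nat_lit 0)) (M (nat_lit 3269161860247))))))) (T.h (P (nat_lit 0)) (T.h (T.h (P (nat_lit 0)) (T.h (P (nat_lit 4289571691257921536)) (T.h (P (nat_lit 0)) (M (nat_lit 10560971751551))))) (T.h (P (nat_lit 0)) (T.h (T.h (P (nat_lit 0)) (M (nat_lit 1780149283047))) (P (nat_lit 0))))))))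 (T.h (T.h (T.h (M (nat_lit 13616060523248372760361041919)) (T.h (P (nat_lit 0)) (T.h (P (nat_lit 267052711276420530176)) (T.h (P (nat_lit 0)) (M (nat_lit 1271887051128831)))))) (T.h (P (nat_lit 0)) (T.h (T.h (M (nat_lit 1018639444731261616127)) (T.h (P (nat_lit 0)) (M (nat_lit 15203226427064319)))) (T.h (P (nat_lit 0)) (M (nat_lit 3105598149197823)))))) (T.h (T.h (P (nat_lit 0)) (T.h (T.h (P (nat_lit 0)) (T.h (P (nat_lit 21892392839739867136)) (T.h (P (nat_lit 0)) (P (nat_lit 14981556922784))))) (T.h (P (nat_lit 0)) (T.h (T.h (P (nat_lit 0)) (P (nat_lit 6954812085344))) (P (nat_lit 0)))))) (T.h (T.h (T.h (P (nat_lit 25248286323423985008640)) (T.h (P (nat_lit 0)) (P (nat_lit 29095574034907136)))) (T.h (P (nat_lit 0)) (P (nat_lit 21287966337204224)))) (T.h (T.h (P (nat_lit 0)) (T.h (T.h (P (nat_lit 0)) (P (nat_lit 43087163693056))) (P (nat_lit 0)))) (P (nat_lit 97560360966946816))))))), (T.h (T.h (P (nat_lit 0)) (T.h (T.h (P (nat_lit 825243808494547520458850304))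 (T.h (P (nat_lit 0)) (T.h (M (nat_lit 4538456619322401882111)) (T.h (P (nat_lit 0)) (P (nat_lit 1673160524251136)))))) (T.h (P (nat_lit 0)) (T.h (T.h (P (nat_lit 452590592553853648896)) (T.h (P (nat_lit 0)) (M (nat_lit 18297077188886527)))) (T.h (P (nat_lit 0)) (P (nat_lit 2367037161553920))))))) (T.h (T.h (T.h (P (nat_lit 0)) (T.h (M (nat_lit 3746786908111961168281599)) (T.h (P (nat_lit 0)) (T.h (P (nat_lit 21421683604952449024)) (T.h (P (nat_lit 0)) (P (nat_lit 7351350546784))))))) (T.h (P (nat_lit 0)) (T.h (T.h (P (nat_lit 0)) (T.h (P (nat_lit 6725667058576523264)) (T.h (P (nat_lit 0)) (M (nat_lit 4256921589567))))) (T.h (P (nat_lit 0)) (T.h (T.h (P (nat_lit 0)) (M (nat_lit 14115448294655))) (P (nat_lit 0))))))) (T.h (T.h (P (nat_lit 0)) (T.h (T.h (M (nat_lit 26344594233526511992831)) (T.h (P (nat_lit 0)) (M (nat_lit 9636131581935615)))) (T.h (P (nat_lit 0)) (M (nat_lit 39437525538734079))))) (T.h (T.h (T.h (P (nat_lit 0)) (T.h (P (nat_lit 150605351395472179200))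 (T.h (P (nat_lit 0)) (M (nat_lit 29896136530671))))) (T.h (P (nat_lit 0)) (T.h (T.h (P (nat_lit 0)) (P (nat_lit 20853968390928))) (P (nat_lit 0))))) (T.h (T.h (P (nat_lit 0)) (M (nat_lit 391640158868422655))) (T.h (T.h (T.h (P (nat_lit 0)) (P (nat_lit 126624751875824))) (P (nat_lit 0))) (P (nat_lit 0))))))))]
def lP22_56 : List (T ℤ) := [(T.h (T.h (P (nat_lit 0)) (T.h (T.h (P (nat_lit 0)) (T.h (P (nat_lit 6322265044331844677402624)) (T.h (P (nat_lit 0)) (T.h (P (nat_lit 4016770770368724992)) (T.h (P (nat_lit 0)) (M (nat_lit 24398022633471))))))) (T.h (P (nat_lit 0)) (T.h (T.h (P (nat_lit 0)) (T.h (M (nat_lit 23752581499227996159)) (T.h (P (nat_lit 0)) (M (nat_lit 42294255463359))))) (T.h (P (nat_lit 0)) (T.h (T.h (P (nat_lit 0)) (M (nat_lit 10564542817535))) (P (nat_lit 0)))))))) (T.h (T.h (T.h (P (nat_lit 21593207691449267749075812352)) (T.h (P (nat_lit 0)) (T.h (M (nat_lit 127704811112245661532159)) (T.h (P (nat_lit 0)) (P (nat_lit 129461206011281408))))))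 (T.h (P (nat_lit 0)) (T.h (T.h (M (nat_lit 57490015930355973881855)) (T.h (P (nat_lit 0)) (P (nat_lit 84535012944216064)))) (T.h (P (nat_lit 0)) (P (nat_lit 6823743286345728)))))) (T.h (T.h (P (nat_lit 0)) (T.h (T.h (P (nat_lit 0)) (T.h (P (nat_lit 268115569555179307008)) (T.h (P (nat_lit 0)) (P (nat_lit 71530874360448))))) (T.h (P (nat_lit 0)) (T.h (T.h (P (nat_lit 0)) (P (nat_lit 75175935420288))) (P (nat_lit 0)))))) (T.h (T.h (T.h (P (nat_lit 215615569639635138117632)) (T.h (P (nat_lit 0)) (P (nat_lit 180504344546279424)))) (T.h (P (nat_lit 0)) (P (nat_lit 290864835074621440)))) (T.h (T.h (P (nat_lit 0)) (T.h (T.h (P (nat_lit 0)) (M (nat_lit 89742622536511))) (P (nat_lit 0)))) (M (nat_lit 40820331771592703))))))), (T.h (T.h (P (nat_lit 0)) (T.h (T.h (P (nat_lit 16228494589403012116063977472)) (T.h (P (nat_lit 0)) (T.h (M (nat_lit 50202398739371158142975)) (T.h (P (nat_lit 0)) (P (nat_lit 11489204882522112)))))) (T.h (P (nat_lit 0)) (T.h (T.h (M (nat_lit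 20067389524284153004031)) (T.h (P (nat_lit 0)) (P (nat_lit 155408564710883328)))) (T.h (P (nat_lit 0)) (M (nat_lit 9464545382219775))))))) (T.h (T.h (T.h (P (nat_lit 0)) (T.h (M (nat_lit 60534834906428901473386495)) (T.h (P (nat_lit 0)) (T.h (P (nat_lit 90240662638237319168)) (T.h (P (nat_lit 0)) (P (nat_lit 3181077252848))))))) (T.h (P (nat_lit 0)) (T.h (T.h (P (nat_lit 0)) (T.h (P (nat_lit 127648728308189757440)) (T.h (P (nat_lit 0)) (M (nat_lit 153712426988735))))) (T.h (P (nat_lit 0)) (T.h (T.h (P (nat_lit 0)) (M (nat_lit 9207850275007))) (P (nat_lit 0))))))) (T.h (T.h (P (nat_lit 0)) (T.h (T.h (M (nat_lit 128039654333054256676863)) (T.h (P (nat_lit 0)) (M (nat_lit 378285141599158271)))) (T.h (P (nat_lit 0)) (P (nat_lit 157204371762266112))))) (T.h (T.h (T.h (P (nat_lit 0)) (T.h (P (nat_lit 892239303793140826112)) (T.h (P (nat_lit 0)) (M (nat_lit 39959945820255))))) (T.h (P (nat_lit 0)) (T.h (T.h (P (nat_lit 0)) (M (nat_lit 225505828498543))) (P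 (nat_lit 0))))) (T.h (T.h (P (nat_lit 0)) (P (nat_lit 807140873094496256))) (T.h (T.h (T.h (P (nat_lit 0)) (M (nat_lit 632653247010751))) (P (nat_lit 0))) (P (nat_lit 0)))))))), (T.h (T.h (P (nat_lit 0)) (T.h (T.h (P (nat_lit 0)) (T.h (P (nat_lit 113981490660604175712256000)) (T.h (P (nat_lit 0)) (M (nat_lit 19070932014166179839))))) (T.h (P (nat_lit 0)) (T.h (T.h (P (nat_lit 0)) (M (nat_lit 88691085887297028095))) (P (nat_lit 0)))))) (T.h (T.h (T.h (P (nat_lit 26356730760361998564510924800)) (T.h (P (nat_lit 0)) (T.h (P (nat_lit 20592938056692577337344)) (T.h (P (nat_lit 0)) (M (nat_lit 136005907965575167)))))) (T.h (P (nat_lit 0)) (T.h (T.h (M (nat_lit 52248917792337237639167)) (T.h (P (nat_lit 0)) (P (nat_lit 492196437663481856)))) (T.h (P (nat_lit 0)) (M (nat_lit 8727487955140607)))))) (T.h (T.h (P (nat_lit 0)) (T.h (T.h (P (nat_lit 0)) (P (nat_lit 425660206721393491968))) (P (nat_lit 0)))) (T.h (T.h (T.h (M (nat_lit 257444538064454151045119)) (T.h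 (P (nat_lit 0)) (P (nat_lit 1117294466800484352)))) (T.h (P (nat_lit 0)) (P (nat_lit 249507797478834176)))) (T.h (P (nat_lit 0)) (P (nat_lit 529980972688670720))))))), (T.h (T.h (T.h (P (nat_lit 0)) (T.h (P (nat_lit 825243808494547520458850304)) (T.h (P (nat_lit 0)) (T.h (P (nat_lit 452590592553853648896)) (T.h (P (nat_lit 0)) (P (nat_lit 2367037161553920))))))) (T.h (P (nat_lit 0)) (T.h (T.h (P (nat_lit 0)) (T.h (M (nat_lit 4538456619322401882111)) (T.h (P (nat_lit 0)) (M (nat_lit 18297077188886527))))) (T.h (P (nat_lit 0)) (T.h (T.h (P (nat_lit 0)) (P (nat_lit 1673160524251136))) (P (nat_lit 0))))))) (T.h (T.h (P (nat_lit 0)) (T.h (T.h (M (nat_lit 3746786908111961168281599)) (T.h (P (nat_lit 0)) (T.h (P (nat_lit 6725667058576523264)) (T.h (P (nat_lit 0)) (M (nat_lit 14115448294655)))))) (T.h (P (nat_lit 0)) (T.h (T.h (P (nat_lit 21421683604952449024)) (T.h (P (nat_lit 0)) (M (nat_lit 4256921589567)))) (T.h (P (nat_lit 0)) (P (nat_lit 7351350546784)))))))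 (T.h (T.h (T.h (P (nat_lit 0)) (T.h (M (nat_lit 26344594233526511992831)) (T.h (P (nat_lit 0)) (M (nat_lit 39437525538734079))))) (T.h (P (nat_lit 0)) (T.h (T.h (P (nat_lit 0)) (M (nat_lit 9636131581935615))) (P (nat_lit 0))))) (T.h (T.h (P (nat_lit 0)) (T.h (T.h (P (nat_lit 150605351395472179200)) (T.h (P (nat_lit 0)) (P (nat_lit 20853968390928)))) (T.h (P (nat_lit 0)) (M (nat_lit 29896136530671))))) (T.h (T.h (T.h (P (nat_lit 0)) (M (nat_lit 391640158868422655))) (P (nat_lit 0))) (T.h (T.h (P (nat_lit 0)) (P (nat_lit 126624751875824))) (P (nat_lit 0)))))))), (T.h (T.h (T.h (M (nat_lit 4938571078680980398957746192383)) (T.h (P (nat_lit 0)) (T.h (M (nat_lit 17836594619523343820259327)) (T.h (P (nat_lit 0)) (T.h (P (nat_lit 25787116305046831104)) (T.h (P (nat_lit 0)) (M (nat_lit 33585842871871)))))))) (T.h (P (nat_lit 0)) (T.h (T.h (M (nat_lit 17641388210366794535272447)) (T.h (P (nat_lit 0)) (T.h (M (nat_lit 23610914926365769727)) (T.h (P (nat_lit 0))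 (M (nat_lit 49145268336255)))))) (T.h (P (nat_lit 0)) (T.h (T.h (P (nat_lit 962233098714480640)) (T.h (P (nat_lit 0)) (M (nat_lit 49145268336255)))) (T.h (P (nat_lit 0)) (M (nat_lit 33585842871871)))))))) (T.h (T.h (P (nat_lit 0)) (T.h (T.h (P (nat_lit 0)) (T.h (P (nat_lit 29511643764035099295744)) (T.h (P (nat_lit 0)) (M (nat_lit 27056780088442879))))) (T.h (P (nat_lit 0)) (T.h (T.h (P (nat_lit 0)) (M (nat_lit 47850695632617471))) (P (nat_lit 0)))))) (T.h (T.h (T.h (M (nat_lit 98586966737565796458823679)) (T.h (P (nat_lit 0)) (T.h (M (nat_lit 171860310786876375039)) (T.h (P (nat_lit 0)) (P (nat_lit 87479027713152)))))) (T.h (P (nat_lit 0)) (T.h (T.h (P (nat_lit 22918409602132344832)) (T.h (P (nat_lit 0)) (M (nat_lit 190117580289279)))) (T.h (P (nat_lit 0)) (P (nat_lit 87479027713152)))))) (T.h (T.h (P (nat_lit 0)) (T.h (T.h (P (nat_lit 0)) (P (nat_lit 374144111672688640))) (P (nat_lit 0)))) (T.h (T.h (T.h (M (nat_lit 17050150359080632319)) (T.h (P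 (nat_lit 0)) (P (nat_lit 25220496191936)))) (T.h (P (nat_lit 0)) (P (nat_lit 25220496191936)))) (T.h (P (nat_lit 0)) (M (nat_lit 259896371934719)))))))), (T.h (T.h (T.h (P (nat_lit 0)) (T.h (P (nat_lit 23051141008790165780355350528)) (T.h (P (nat_lit 0)) (T.h (M (nat_lit 60062730209987028582399)) (T.h (P (nat_lit 0)) (P (nat_lit 95348375668375552))))))) (T.h (P (nat_lit 0)) (T.h (T.h (P (nat_lit 0)) (T.h (P (nat_lit 24908532925303422451712)) (T.h (P (nat_lit 0)) (P (nat_lit 62907179918098432))))) (T.h (P (nat_lit 0)) (T.h (T.h (P (nat_lit 0)) (P (nat_lit 73765069373112320))) (P (nat_lit 0))))))) (T.h (T.h (P (nat_lit 0)) (T.h (T.h (P (nat_lit 73000951250190410272735232)) (T.h (P (nat_lit 0)) (T.h (P (nat_lit 59724000703880888320)) (T.h (P (nat_lit 0)) (P (nat_lit 90782218487136)))))) (T.h (P (nat_lit 0)) (T.h (T.h (P (nat_lit 16018835821503184896)) (T.h (P (nat_lit 0)) (M (nat_lit 57847326960367)))) (T.h (P (nat_lit 0)) (P (nat_lit 50098001398720)))))))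 (T.h (T.h (T.h (P (nat_lit 0)) (T.h (P (nat_lit 37170274258167498014720)) (T.h (P (nat_lit 0)) (P (nat_lit 367237435614855168))))) (T.h (P (nat_lit 0)) (T.h (T.h (P (nat_lit 0)) (P (nat_lit 312519832877809664))) (P (nat_lit 0))))) (T.h (T.h (P (nat_lit 0)) (T.h (T.h (P (nat_lit 171865168955112947712)) (T.h (P (nat_lit 0)) (P (nat_lit 292515884447072)))) (T.h (P (nat_lit 0)) (P (nat_lit 187035232750432))))) (T.h (T.h (T.h (P (nat_lit 0)) (M (nat_lit 1482711047397277695))) (P (nat_lit 0))) (T.h (T.h (P (nat_lit 0)) (M (nat_lit 106676676447967))) (P (nat_lit 0)))))))), (T.h (T.h (T.h (M (nat_lit 9929422645557309655018763190271)) (T.h (P (nat_lit 0)) (T.h (P (nat_lit 81730375620372399275376640)) (T.h (P (nat_lit 0)) (M (nat_lit 34553789589269512191)))))) (T.h (P (nat_lit 0)) (T.h (T.h (M (nat_lit 9006556154225002375282687)) (T.h (P (nat_lit 0)) (M (nat_lit 17021114003566362623)))) (T.h (P (nat_lit 0)) (P (nat_lit 1266676104530231296)))))) (T.h (T.h (P (nat_lit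 0)) (T.h (T.h (P (nat_lit 0)) (T.h (P (nat_lit 105439491063623953940480)) (T.h (P (nat_lit 0)) (M (nat_lit 58584580132438015))))) (T.h (P (nat_lit 0)) (T.h (T.h (P (nat_lit 0)) (P (nat_lit 66278057227649024))) (P (nat_lit 0)))))) (T.h (T.h (T.h (M (nat_lit 25276643066355775078137855)) (T.h (P (nat_lit 0)) (P (nat_lit 206597901249807384576)))) (T.h (P (nat_lit 0)) (M (nat_lit 61164732654412627967)))) (T.h (T.h (P (nat_lit 0)) (T.h (T.h (P (nat_lit 0)) (M (nat_lit 1299886296256544767))) (P (nat_lit 0)))) (P (nat_lit 110624555657085321216)))))), (T.h (T.h (P (nat_lit 0)) (T.h (T.h (P (nat_lit 0)) (T.h (M (nat_lit 33674519128823394065186815)) (T.h (P (nat_lit 0)) (T.h (P (nat_lit 19058927348914061312)) (T.h (P (nat_lit 0)) (M (nat_lit 13089198389183))))))) (T.h (P (nat_lit 0)) (T.h (T.h (P (nat_lit 0)) (T.h (M (nat_lit 1924344881111629823)) (T.h (P (nat_lit 0)) (M (nat_lit 52855227214911))))) (T.h (P (nat_lit 0)) (T.h (T.h (P (nat_lit 0)) (M (nat_lit 26922678205119)))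 (P (nat_lit 0)))))))) (T.h (T.h (T.h (P (nat_lit 556240270776678431303139328)) (T.h (P (nat_lit 0)) (T.h (M (nat_lit 29407020964897829683199)) (T.h (P (nat_lit 0)) (M (nat_lit 37480698153926655)))))) (T.h (P (nat_lit 0)) (T.h (T.h (M (nat_lit 22709465110943195201535)) (T.h (P (nat_lit 0)) (M (nat_lit 23264011617468415)))) (T.h (P (nat_lit 0)) (M (nat_lit 81212293442699263)))))) (T.h (T.h (P (nat_lit 0)) (T.h (T.h (P (nat_lit 0)) (T.h (P (nat_lit 56544454345603678208)) (T.h (P (nat_lit 0)) (P (nat_lit 86144119924352))))) (T.h (P (nat_lit 0)) (T.h (T.h (P (nat_lit 0)) (P (nat_lit 82499058864512))) (P (nat_lit 0)))))) (T.h (T.h (T.h (M (nat_lit 106146170585502539841535)) (T.h (P (nat_lit 0)) (P (nat_lit 8952162460336128)))) (T.h (P (nat_lit 0)) (P (nat_lit 97128441095356416)))) (T.h (T.h (P (nat_lit 0)) (T.h (T.h (P (nat_lit 0)) (M (nat_lit 46655458843455))) (P (nat_lit 0)))) (P (nat_lit 294432181340930048)))))))]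
def lP22_57 : List (T ℤ) := [(T.h (T.h (P (nat_lit 0)) (T.h (T.h (P (nat_lit 22056385171391749620211122176)) (T.h (P (nat_lit 0)) (T.h (P (nat_lit 24522684844148118257664)) (T.h (P (nat_lit 0)) (P (nat_lit 99933179538800640)))))) (T.h (P (nat_lit 0)) (T.h (T.h (M (nat_lit 61689989667755156045823)) (T.h (P (nat_lit 0)) (P (nat_lit 61005692873162752)))) (T.h (P (nat_lit 0)) (P (nat_lit 96786791661895680))))))) (T.h (T.h (T.h (P (nat_lit 0)) (T.h (P (nat_lit 52630575178557683830620160)) (T.h (P (nat_lit 0)) (T.h (P (nat_lit 30487834188759171072)) (T.h (P (nat_lit 0)) (P (nat_lit 56760557853824))))))) (T.h (P (nat_lit 0)) (T.h (T.h (P (nat_lit 0)) (T.h (P (nat_lit 112460165131284774912)) (T.h (P (nat_lit 0)) (M (nat_lit 58086204154527))))) (T.h (P (nat_lit 0)) (T.h (T.h (P (nat_lit 0)) (P (nat_lit 53051936705152))) (P (nat_lit 0))))))) (T.h (T.h (P (nat_lit 0)) (T.h (T.h (M (nat_lit 25702737167881122873343)) (T.h (P (nat_lit 0)) (P (nat_lit 209679305862021120))))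 (T.h (P (nat_lit 0)) (P (nat_lit 327098498796929024))))) (T.h (T.h (T.h (P (nat_lit 0)) (T.h (P (nat_lit 246123919164382904320)) (T.h (P (nat_lit 0)) (P (nat_lit 186187917737008))))) (T.h (P (nat_lit 0)) (T.h (T.h (P (nat_lit 0)) (P (nat_lit 357255833203280))) (P (nat_lit 0))))) (T.h (T.h (P (nat_lit 0)) (M (nat_lit 2349252942460698623))) (T.h (T.h (T.h (P (nat_lit 0)) (P (nat_lit 323965957366480))) (P (nat_lit 0))) (P (nat_lit 0)))))))), (T.h (T.h (P (nat_lit 0)) (T.h (T.h (P (nat_lit 0)) (T.h (M (nat_lit 91888388661317631653969919)) (T.h (P (nat_lit 0)) (P (nat_lit 40151734690248654848))))) (T.h (P (nat_lit 0)) (T.h (T.h (P (nat_lit 0)) (P (nat_lit 28717635963342290944))) (P (nat_lit 0)))))) (T.h (T.h (T.h (M (nat_lit 26209441321129543010852274175)) (T.h (P (nat_lit 0)) (T.h (P (nat_lit 321749021409978611662848)) (T.h (P (nat_lit 0)) (M (nat_lit 5990963912114175)))))) (T.h (P (nat_lit 0)) (T.h (T.h (P (nat_lit 341031198450498016378880)) (T.h (P (nat_lit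 0)) (M (nat_lit 551833843922272255)))) (T.h (P (nat_lit 0)) (M (nat_lit 47692615347077119)))))) (T.h (T.h (P (nat_lit 0)) (T.h (T.h (P (nat_lit 0)) (P (nat_lit 223978408355584540672))) (P (nat_lit 0)))) (T.h (T.h (T.h (M (nat_lit 49438412129668532535295)) (T.h (P (nat_lit 0)) (M (nat_lit 228059255975477247)))) (T.h (P (nat_lit 0)) (M (nat_lit 274047386810875903)))) (T.h (P (nat_lit 0)) (M (nat_lit 554228412046475263))))))), (T.h (T.h (T.h (P (nat_lit 0)) (T.h (P (nat_lit 15233738752004595955919749120)) (T.h (P (nat_lit 0)) (T.h (M (nat_lit 21694648982052280467455)) (T.h (P (nat_lit 0)) (M (nat_lit 8026129388699647))))))) (T.h (P (nat_lit 0)) (T.h (T.h (P (nat_lit 0)) (T.h (M (nat_lit 50588246820526462337023)) (T.h (P (nat_lit 0)) (P (nat_lit 153507077665947648))))) (T.h (P (nat_lit 0)) (T.h (T.h (P (nat_lit 0)) (P (nat_lit 37657315048210432))) (P (nat_lit 0))))))) (T.h (T.h (P (nat_lit 0)) (T.h (T.h (M (nat_lit 80905210978061627915501567)) (T.h (P (nat_lit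 0)) (T.h (P (nat_lit 180384892735593644032)) (T.h (P (nat_lit 0)) (M (nat_lit 46938132056991)))))) (T.h (P (nat_lit 0)) (T.h (T.h (P (nat_lit 104709661005493305344)) (T.h (P (nat_lit 0)) (M (nat_lit 153951304182895)))) (T.h (P (nat_lit 0)) (P (nat_lit 9843633707952))))))) (T.h (T.h (T.h (P (nat_lit 0)) (T.h (M (nat_lit 190912665759102877564927)) (T.h (P (nat_lit 0)) (P (nat_lit 117065434944339968))))) (T.h (P (nat_lit 0)) (T.h (T.h (P (nat_lit 0)) (M (nat_lit 481125668614946815))) (P (nat_lit 0))))) (T.h (T.h (P (nat_lit 0)) (T.h (T.h (P (nat_lit 966498054002410782720)) (T.h (P (nat_lit 0)) (M (nat_lit 160765879742335)))) (T.h (P (nat_lit 0)) (M (nat_lit 40807260833679))))) (T.h (T.h (T.h (P (nat_lit 0)) (M (nat_lit 59401021968924671))) (P (nat_lit 0))) (T.h (T.h (P (nat_lit 0)) (M (nat_lit 202010613196303))) (P (nat_lit 0)))))))), (T.h (T.h (T.h (M (nat_lit 16610131237050969157222881296383)) (T.h (P (nat_lit 0)) (T.h (M (nat_lit 12159185391653889647837183))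 (T.h (P (nat_lit 0)) (M (nat_lit 8542965040104341503)))))) (T.h (P (nat_lit 0)) (T.h (T.h (P (nat_lit 78577746382943512002822144)) (T.h (P (nat_lit 0)) (M (nat_lit 26916983604714143743)))) (T.h (P (nat_lit 0)) (M (nat_lit 44363430733904084991)))))) (T.h (T.h (P (nat_lit 0)) (T.h (T.h (P (nat_lit 0)) (T.h (P (nat_lit 170774383045035088150528)) (T.h (P (nat_lit 0)) (P (nat_lit 7959988333117440))))) (T.h (P (nat_lit 0)) (T.h (T.h (P (nat_lit 0)) (M (nat_lit 116902649026969599))) (P (nat_lit 0)))))) (T.h (T.h (T.h (M (nat_lit 23126752110161750401220607)) (T.h (P (nat_lit 0)) (M (nat_lit 12886189783738482687)))) (T.h (P (nat_lit 0)) (P (nat_lit 254876444120481529856)))) (T.h (T.h (P (nat_lit 0)) (T.h (T.h (P (nat_lit 0)) (M (nat_lit 1474979290622656511))) (P (nat_lit 0)))) (P (nat_lit 118912105825926381568)))))), (T.h (T.h (P (nat_lit 0)) (T.h (T.h (P (nat_lit 0)) (T.h (P (nat_lit 104213714518363397557321728)) (T.h (P (nat_lit 0)) (M (nat_lit 99944006815716474879)))))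 (T.h (P (nat_lit 0)) (T.h (T.h (P (nat_lit 0)) (M (nat_lit 18889754215679262719))) (P (nat_lit 0)))))) (T.h (T.h (T.h (P (nat_lit 23189883887025830961654792192)) (T.h (P (nat_lit 0)) (T.h (M (nat_lit 87515735663265416478719)) (T.h (P (nat_lit 0)) (M (nat_lit 8342794656481279)))))) (T.h (P (nat_lit 0)) (T.h (T.h (M (nat_lit 33956056854755006218239)) (T.h (P (nat_lit 0)) (P (nat_lit 533260947869499392)))) (T.h (P (nat_lit 0)) (M (nat_lit 93919563231952895)))))) (T.h (T.h (P (nat_lit 0)) (T.h (T.h (P (nat_lit 0)) (P (nat_lit 571332830943741214720))) (P (nat_lit 0)))) (T.h (T.h (T.h (M (nat_lit 243099935357513639133183)) (T.h (P (nat_lit 0)) (P (nat_lit 262202542911520768)))) (T.h (P (nat_lit 0)) (P (nat_lit 1175977343068569600)))) (T.h (P (nat_lit 0)) (P (nat_lit 595563394477948928))))))), (T.h (T.h (T.h (P (nat_lit 8381838962715691754272839434240)) (T.h (P (nat_lit 0)) (T.h (P (nat_lit 94354545371969910472704)) (T.h (P (nat_lit 0)) (T.h (M (nat_lit 1002665088554893311))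 (T.h (P (nat_lit 0)) (M (nat_lit 165424305583)))))))) (T.h (P (nat_lit 0)) (T.h (T.h (P (nat_lit 94354545371969910472704)) (T.h (P (nat_lit 0)) (T.h (P (nat_lit 8284172608572751872)) (T.h (P (nat_lit 0)) (M (nat_lit 4239509951935)))))) (T.h (P (nat_lit 0)) (T.h (T.h (M (nat_lit 1002665088554893311)) (T.h (P (nat_lit 0)) (M (nat_lit 4239509951935)))) (T.h (P (nat_lit 0)) (M (nat_lit 165424305583)))))))) (T.h (T.h (P (nat_lit 0)) (T.h (T.h (P (nat_lit 0)) (T.h (P (nat_lit 5306139762653476683776)) (T.h (P (nat_lit 0)) (M (nat_lit 21171082134913023))))) (T.h (P (nat_lit 0)) (T.h (T.h (P (nat_lit 0)) (M (nat_lit 21171082134913023))) (P (nat_lit 0)))))) (T.h (T.h (T.h (M (nat_lit 24966769086201063159103487)) (T.h (P (nat_lit 0)) (T.h (P (nat_lit 8545227737994887168)) (T.h (P (nat_lit 0)) (M (nat_lit 15443532767759)))))) (T.h (P (nat_lit 0)) (T.h (T.h (P (nat_lit 8545227737994887168)) (T.h (P (nat_lit 0)) (P (nat_lit 35413500645568)))) (T.h (P (nat_lit 0))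 (M (nat_lit 15443532767759)))))) (T.h (T.h (P (nat_lit 0)) (T.h (T.h (P (nat_lit 0)) (M (nat_lit 8154054174244863))) (P (nat_lit 0)))) (T.h (T.h (T.h (M (nat_lit 91567307508984840191)) (T.h (P (nat_lit 0)) (P (nat_lit 28106565702272)))) (T.h (P (nat_lit 0)) (P (nat_lit 28106565702272)))) (T.h (P (nat_lit 0)) (M (nat_lit 9234645211199)))))))), (T.h (T.h (T.h (P (nat_lit 0)) (T.h (M (nat_lit 3780153751771600944814358527)) (T.h (P (nat_lit 0)) (T.h (M (nat_lit 1457770238150346539007)) (T.h (P (nat_lit 0)) (P (nat_lit 17228509411311616))))))) (T.h (P (nat_lit 0)) (T.h (T.h (P (nat_lit 0)) (T.h (M (nat_lit 88210354434840985599)) (T.h (P (nat_lit 0)) (P (nat_lit 14375276557860864))))) (T.h (P (nat_lit 0)) (T.h (T.h (P (nat_lit 0)) (M (nat_lit 284494181138431))) (P (nat_lit 0))))))) (T.h (T.h (P (nat_lit 0)) (T.h (T.h (P (nat_lit 2889557590091532972589056)) (T.h (P (nat_lit 0)) (T.h (M (nat_lit 5856668508896624639)) (T.h (P (nat_lit 0)) (P (nat_lit 30400262961600))))))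 (T.h (P (nat_lit 0)) (T.h (T.h (P (nat_lit 44671618533919031296)) (T.h (P (nat_lit 0)) (M (nat_lit 8555555049535)))) (T.h (P (nat_lit 0)) (P (nat_lit 5360624420992))))))) (T.h (T.h (T.h (P (nat_lit 0)) (T.h (P (nat_lit 64746482784571622424576)) (T.h (P (nat_lit 0)) (M (nat_lit 39003143773716479))))) (T.h (P (nat_lit 0)) (T.h (T.h (P (nat_lit 0)) (M (nat_lit 99760511744278527))) (P (nat_lit 0))))) (T.h (T.h (P (nat_lit 0)) (T.h (T.h (M (nat_lit 30454085060791369727)) (T.h (P (nat_lit 0)) (M (nat_lit 50830335485887)))) (T.h (P (nat_lit 0)) (P (nat_lit 62827191098304))))) (T.h (T.h (T.h (P (nat_lit 0)) (M (nat_lit 771336637420175359))) (P (nat_lit 0))) (T.h (T.h (P (nat_lit 0)) (M (nat_lit 519960225386687))) (P (nat_lit 0)))))))), (T.h (T.h (T.h (M (nat_lit 1897610530039319708766159503359)) (T.h (P (nat_lit 0)) (T.h (P (nat_lit 11659533818099746213986304)) (T.h (P (nat_lit 0)) (T.h (M (nat_lit 11504214153107603455)) (T.h (P (nat_lit 0)) (P (nat_lit 2328296380080))))))))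 (T.h (P (nat_lit 0)) (T.h (T.h (P (nat_lit 4900160410865909649899520)) (T.h (P (nat_lit 0)) (T.h (P (nat_lit 1796875283924516864)) (T.h (P (nat_lit 0)) (M (nat_lit 45116755367727)))))) (T.h (P (nat_lit 0)) (T.h (T.h (M (nat_lit 28736025228476415)) (T.h (P (nat_lit 0)) (M (nat_lit 41575545036607)))) (T.h (P (nat_lit 0)) (P (nat_lit 4563917164224)))))))) (T.h (T.h (P (nat_lit 0)) (T.h (T.h (P (nat_lit 0)) (T.h (M (nat_lit 47308519645167134703615)) (T.h (P (nat_lit 0)) (M (nat_lit 4855588037394431))))) (T.h (P (nat_lit 0)) (T.h (T.h (P (nat_lit 0)) (M (nat_lit 108885679429091327))) (P (nat_lit 0)))))) (T.h (T.h (T.h (M (nat_lit 11050327236405624798445567)) (T.h (P (nat_lit 0)) (T.h (M (nat_lit 234030967551564972031)) (T.h (P (nat_lit 0)) (P (nat_lit 142023400222880)))))) (T.h (P (nat_lit 0)) (T.h (T.h (M (nat_lit 184178114273411596287)) (T.h (P (nat_lit 0)) (P (nat_lit 54272564669136)))) (T.h (P (nat_lit 0)) (M (nat_lit 5489871499375)))))) (T.h (T.h (P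 (nat_lit 0)) (T.h (T.h (P (nat_lit 0)) (P (nat_lit 263943871069847552))) (P (nat_lit 0)))) (T.h (T.h (T.h (M (nat_lit 83270179112102133759)) (T.h (P (nat_lit 0)) (P (nat_lit 22043612494992)))) (T.h (P (nat_lit 0)) (M (nat_lit 22887554581935)))) (T.h (P (nat_lit 0)) (P (nat_lit 144993577875696))))))))]
def lP22_58 : List (T ℤ) := [(T.h (T.h (T.h (P (nat_lit 0)) (T.h (P (nat_lit 5630661941955866752112918528)) (T.h (P (nat_lit 0)) (T.h (M (nat_lit 10225169493974520430591)) (T.h (P (nat_lit 0)) (M (nat_lit 3193177466568703))))))) (T.h (P (nat_lit 0)) (T.h (T.h (P (nat_lit 0)) (T.h (M (nat_lit 15547998876666915979263)) (T.h (P (nat_lit 0)) (P (nat_lit 62218137313214464))))) (T.h (P (nat_lit 0)) (T.h (T.h (P (nat_lit 0)) (P (nat_lit 17195555439378432))) (P (nat_lit 0))))))) (T.h (T.h (P (nat_lit 0)) (T.h (T.h (P (nat_lit 59794892129816641328381952)) (T.h (P (nat_lit 0)) (P (nat_lit 7209265680472866816)))) (T.h (P (nat_lit 0)) (M (nat_lit 20180868879544745983)))))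 (T.h (T.h (T.h (P (nat_lit 0)) (T.h (M (nat_lit 260320810832069591564287)) (T.h (P (nat_lit 0)) (M (nat_lit 83449253409652735))))) (T.h (P (nat_lit 0)) (T.h (T.h (P (nat_lit 0)) (P (nat_lit 105746125946388480))) (P (nat_lit 0))))) (T.h (T.h (P (nat_lit 0)) (M (nat_lit 203595693970520276991))) (T.h (T.h (T.h (P (nat_lit 0)) (P (nat_lit 580734419328237568))) (P (nat_lit 0))) (P (nat_lit 0))))))), (T.h (T.h (P (nat_lit 0)) (T.h (T.h (M (nat_lit 11148306687387311073933656063)) (T.h (P (nat_lit 0)) (T.h (M (nat_lit 10168343157988999036927)) (T.h (P (nat_lit 0)) (P (nat_lit 11197351691255808)))))) (T.h (P (nat_lit 0)) (T.h (T.h (P (nat_lit 9990154410232597446656)) (T.h (P (nat_lit 0)) (P (nat_lit 15342922548215808)))) (T.h (P (nat_lit 0)) (P (nat_lit 15339279740928000))))))) (T.h (T.h (T.h (P (nat_lit 0)) (T.h (P (nat_lit 6837049029011826800590848)) (T.h (P (nat_lit 0)) (T.h (P (nat_lit 1303559475084394496)) (T.h (P (nat_lit 0)) (P (nat_lit 5360624420992)))))))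 (T.h (P (nat_lit 0)) (T.h (T.h (P (nat_lit 0)) (T.h (P (nat_lit 59282405974557589504)) (T.h (P (nat_lit 0)) (M (nat_lit 8555555049535))))) (T.h (P (nat_lit 0)) (T.h (T.h (P (nat_lit 0)) (P (nat_lit 30400262961600))) (P (nat_lit 0))))))) (T.h (T.h (P (nat_lit 0)) (T.h (T.h (M (nat_lit 42457184328535899111423)) (T.h (P (nat_lit 0)) (P (nat_lit 138485348847714304)))) (T.h (P (nat_lit 0)) (P (nat_lit 177198910576820224))))) (T.h (T.h (T.h (P (nat_lit 0)) (T.h (P (nat_lit 198712546212878221312)) (T.h (P (nat_lit 0)) (P (nat_lit 62827191098304))))) (T.h (P (nat_lit 0)) (T.h (T.h (P (nat_lit 0)) (M (nat_lit 50830335485887))) (P (nat_lit 0))))) (T.h (T.h (P (nat_lit 0)) (P (nat_lit 107454521002655744))) (T.h (T.h (T.h (P (nat_lit 0)) (M (nat_lit 519960225386687))) (P (nat_lit 0))) (P (nat_lit 0)))))))), (T.h (T.h (P (nat_lit 0)) (T.h (T.h (P (nat_lit 0)) (T.h (P (nat_lit 12728157364842137498157056)) (T.h (P (nat_lit 0)) (T.h (M (nat_lit 15539825767377534975))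 (T.h (P (nat_lit 0)) (M (nat_lit 53103933012239))))))) (T.h (P (nat_lit 0)) (T.h (T.h (P (nat_lit 0)) (T.h (M (nat_lit 15539825767377534975)) (T.h (P (nat_lit 0)) (P (nat_lit 1364867077376))))) (T.h (P (nat_lit 0)) (T.h (T.h (P (nat_lit 0)) (M (nat_lit 53103933012239))) (P (nat_lit 0)))))))) (T.h (T.h (T.h (P (nat_lit 17659136188694529823951814656)) (T.h (P (nat_lit 0)) (T.h (P (nat_lit 39795335775124061159424)) (T.h (P (nat_lit 0)) (M (nat_lit 99868825715032063)))))) (T.h (P (nat_lit 0)) (T.h (T.h (P (nat_lit 39795335775124061159424)) (T.h (P (nat_lit 0)) (P (nat_lit 10397342753980416)))) (T.h (P (nat_lit 0)) (M (nat_lit 99868825715032063)))))) (T.h (T.h (P (nat_lit 0)) (T.h (T.h (P (nat_lit 0)) (T.h (M (nat_lit 303699369560303992831)) (T.h (P (nat_lit 0)) (M (nat_lit 232315348433871))))) (T.h (P (nat_lit 0)) (T.h (T.h (P (nat_lit 0)) (M (nat_lit 232315348433871))) (P (nat_lit 0)))))) (T.h (T.h (T.h (P (nat_lit 73861470267005309288448)) (T.h (P (nat_lit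 0)) (M (nat_lit 78670430591942655)))) (T.h (P (nat_lit 0)) (M (nat_lit 78670430591942655)))) (T.h (T.h (P (nat_lit 0)) (T.h (T.h (P (nat_lit 0)) (M (nat_lit 170370273170943))) (P (nat_lit 0)))) (P (nat_lit 598338107407433728))))))), (T.h (T.h (P (nat_lit 0)) (T.h (T.h (M (nat_lit 7701889658509832260839014399)) (T.h (P (nat_lit 0)) (T.h (P (nat_lit 6519229612818935316480)) (T.h (P (nat_lit 0)) (P (nat_lit 49332774597263360)))))) (T.h (P (nat_lit 0)) (T.h (T.h (P (nat_lit 20335915801868752650240)) (T.h (P (nat_lit 0)) (P (nat_lit 40970222475575296)))) (T.h (P (nat_lit 0)) (M (nat_lit 4538660560863231))))))) (T.h (T.h (T.h (P (nat_lit 0)) (T.h (M (nat_lit 68293177357854968704401407)) (T.h (P (nat_lit 0)) (M (nat_lit 13677298616308334591))))) (T.h (P (nat_lit 0)) (T.h (T.h (P (nat_lit 0)) (P (nat_lit 92955797684135919616))) (P (nat_lit 0))))) (T.h (T.h (P (nat_lit 0)) (T.h (T.h (M (nat_lit 253363119254356700954623)) (T.h (P (nat_lit 0)) (M (nat_lit 53833865286352895))))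 (T.h (P (nat_lit 0)) (M (nat_lit 57126328100290559))))) (T.h (T.h (T.h (P (nat_lit 0)) (P (nat_lit 1625468407039609798656))) (P (nat_lit 0))) (T.h (T.h (P (nat_lit 0)) (P (nat_lit 139548628168081408))) (P (nat_lit 0))))))), (T.h (T.h (T.h (P (nat_lit 1125191178323626060599525376000)) (T.h (P (nat_lit 0)) (T.h (P (nat_lit 5767003101391923837927424)) (T.h (P (nat_lit 0)) (T.h (P (nat_lit 2169328327335084032)) (T.h (P (nat_lit 0)) (P (nat_lit 3821769693456)))))))) (T.h (P (nat_lit 0)) (T.h (T.h (P (nat_lit 12526376508625760402014208)) (T.h (P (nat_lit 0)) (T.h (P (nat_lit 1877110365234397184)) (T.h (P (nat_lit 0)) (M (nat_lit 49126568938831)))))) (T.h (P (nat_lit 0)) (T.h (T.h (M (nat_lit 9306149800544043007)) (T.h (P (nat_lit 0)) (M (nat_lit 52667779269951)))) (T.h (P (nat_lit 0)) (P (nat_lit 1586148909312)))))))) (T.h (T.h (P (nat_lit 0)) (T.h (T.h (P (nat_lit 0)) (T.h (M (nat_lit 56440631814495246745599)) (T.h (P (nat_lit 0)) (M (nat_lit 115810020998676479)))))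 (T.h (P (nat_lit 0)) (T.h (T.h (P (nat_lit 0)) (M (nat_lit 11779929606979583))) (P (nat_lit 0)))))) (T.h (T.h (T.h (M (nat_lit 46278492287481778855215103)) (T.h (P (nat_lit 0)) (T.h (M (nat_lit 217516683191390306303)) (T.h (P (nat_lit 0)) (M (nat_lit 17832029004943)))))) (T.h (P (nat_lit 0)) (T.h (T.h (M (nat_lit 267369536469543682047)) (T.h (P (nat_lit 0)) (P (nat_lit 109922351265936)))) (T.h (P (nat_lit 0)) (P (nat_lit 129681242717312)))))) (T.h (T.h (P (nat_lit 0)) (T.h (T.h (P (nat_lit 0)) (P (nat_lit 297687919684386816))) (P (nat_lit 0)))) (T.h (T.h (T.h (M (nat_lit 156129275264035192831)) (T.h (P (nat_lit 0)) (P (nat_lit 33231154151888)))) (T.h (P (nat_lit 0)) (P (nat_lit 78162321228816)))) (T.h (P (nat_lit 0)) (P (nat_lit 130481994932784)))))))), (T.h (T.h (T.h (P (nat_lit 0)) (T.h (M (nat_lit 3852606373610495334007439359)) (T.h (P (nat_lit 0)) (T.h (P (nat_lit 22505124835361908850688)) (T.h (P (nat_lit 0)) (M (nat_lit 4950061242613759)))))))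 (T.h (P (nat_lit 0)) (T.h (T.h (P (nat_lit 0)) (T.h (P (nat_lit 6837357369292922814464)) (T.h (P (nat_lit 0)) (P (nat_lit 46638150502907904))))) (T.h (P (nat_lit 0)) (T.h (T.h (P (nat_lit 0)) (P (nat_lit 59169193778446336))) (P (nat_lit 0))))))) (T.h (T.h (P (nat_lit 0)) (T.h (T.h (M (nat_lit 59607409781330600397897727)) (T.h (P (nat_lit 0)) (P (nat_lit 114307951635558563840)))) (T.h (P (nat_lit 0)) (P (nat_lit 18434105099233001472))))) (T.h (T.h (T.h (P (nat_lit 0)) (T.h (M (nat_lit 245447685447027747979263)) (T.h (P (nat_lit 0)) (M (nat_lit 47461522852282367))))) (T.h (P (nat_lit 0)) (T.h (T.h (P (nat_lit 0)) (M (nat_lit 110716026291683327))) (P (nat_lit 0))))) (T.h (T.h (P (nat_lit 0)) (P (nat_lit 1752441552205047136256))) (T.h (T.h (T.h (P (nat_lit 0)) (M (nat_lit 282237081034981375))) (P (nat_lit 0))) (P (nat_lit 0))))))), (T.h (T.h (P (nat_lit 0)) (T.h (T.h (P (nat_lit 9479945226855203678944493568)) (T.h (P (nat_lit 0)) (T.h (M (nat_lit 15229871120192928481279))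 (T.h (P (nat_lit 0)) (P (nat_lit 27031974620561408)))))) (T.h (P (nat_lit 0)) (T.h (T.h (M (nat_lit 8055960460481364230143)) (T.h (P (nat_lit 0)) (P (nat_lit 67886065340547072)))) (T.h (P (nat_lit 0)) (M (nat_lit 3604578148319231))))))) (T.h (T.h (T.h (P (nat_lit 0)) (T.h (P (nat_lit 68480659706341009634885632)) (T.h (P (nat_lit 0)) (P (nat_lit 11930534835996590080))))) (T.h (P (nat_lit 0)) (T.h (T.h (P (nat_lit 0)) (P (nat_lit 28561419631895511040))) (P (nat_lit 0))))) (T.h (T.h (P (nat_lit 0)) (T.h (T.h (M (nat_lit 252405377024740638588927)) (T.h (P (nat_lit 0)) (P (nat_lit 48863964941058048)))) (T.h (P (nat_lit 0)) (M (nat_lit 73784448161644543))))) (T.h (T.h (T.h (P (nat_lit 0)) (M (nat_lit 76622548805082939391))) (P (nat_lit 0))) (T.h (T.h (P (nat_lit 0)) (P (nat_lit 158948710125174784))) (P (nat_lit 0))))))), (T.h (T.h (P (nat_lit 0)) (T.h (T.h (P (nat_lit 0)) (T.h (M (nat_lit 1375602425031345005658111)) (T.h (P (nat_lit 0)) (T.h (P (nat_lit 2413284188405891072))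 (T.h (P (nat_lit 0)) (P (nat_lit 2524655571648))))))) (T.h (P (nat_lit 0)) (T.h (T.h (P (nat_lit 0)) (T.h (M (nat_lit 8805342538014654463)) (T.h (P (nat_lit 0)) (P (nat_lit 10560971751552))))) (T.h (P (nat_lit 0)) (T.h (T.h (P (nat_lit 0)) (P (nat_lit 2524655571648))) (P (nat_lit 0)))))))) (T.h (T.h (T.h (P (nat_lit 19513362596848012897021853696)) (T.h (P (nat_lit 0)) (T.h (P (nat_lit 7063357461541198757888)) (T.h (P (nat_lit 0)) (P (nat_lit 14876198407176192)))))) (T.h (P (nat_lit 0)) (T.h (T.h (P (nat_lit 4107924079950048526336)) (T.h (P (nat_lit 0)) (M (nat_lit 5518730472980479)))) (T.h (P (nat_lit 0)) (M (nat_lit 1307171908157439)))))) (T.h (T.h (P (nat_lit 0)) (T.h (T.h (P (nat_lit 0)) (T.h (M (nat_lit 65383704587684282367)) (T.h (P (nat_lit 0)) (M (nat_lit 10968184504063))))) (T.h (P (nat_lit 0)) (T.h (T.h (P (nat_lit 0)) (M (nat_lit 10968184504063))) (P (nat_lit 0)))))) (T.h (T.h (T.h (M (nat_lit 63987633135800041865215)) (T.h (P (nat_lit 0))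 (M (nat_lit 48131822609170431)))) (T.h (P (nat_lit 0)) (M (nat_lit 85837983571574783)))) (T.h (T.h (P (nat_lit 0)) (T.h (T.h (P (nat_lit 0)) (M (nat_lit 43087163693055))) (P (nat_lit 0)))) (M (nat_lit 81349603584901119)))))))]
def lP22_59 : List (T ℤ) := [(T.h (T.h (P (nat_lit 0)) (T.h (T.h (P (nat_lit 994755837398416160144228352)) (T.h (P (nat_lit 0)) (T.h (P (nat_lit 385848081155304194048)) (T.h (P (nat_lit 0)) (M (nat_lit 26168110165688319)))))) (T.h (P (nat_lit 0)) (T.h (T.h (P (nat_lit 1627259457768127463424)) (T.h (P (nat_lit 0)) (P (nat_lit 1901487044935680)))) (T.h (P (nat_lit 0)) (M (nat_lit 1438415993520127))))))) (T.h (T.h (T.h (P (nat_lit 0)) (T.h (P (nat_lit 20370376071632726442115072)) (T.h (P (nat_lit 0)) (T.h (M (nat_lit 14468998367255986175)) (T.h (P (nat_lit 0)) (M (nat_lit 6662556455103))))))) (T.h (P (nat_lit 0)) (T.h (T.h (P (nat_lit 0)) (T.h (M (nat_lit 52736164427403886591)) (T.h (P (nat_lit 0)) (P (nat_lit 238877194160))))) (T.h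 (P (nat_lit 0)) (T.h (T.h (P (nat_lit 0)) (P (nat_lit 37730281781984))) (P (nat_lit 0))))))) (T.h (T.h (P (nat_lit 0)) (T.h (T.h (P (nat_lit 62873011426048620888064)) (T.h (P (nat_lit 0)) (P (nat_lit 102840527015788544)))) (T.h (P (nat_lit 0)) (P (nat_lit 40138936817926144))))) (T.h (T.h (T.h (P (nat_lit 0)) (T.h (M (nat_lit 74258750209269956607)) (T.h (P (nat_lit 0)) (P (nat_lit 847315013424))))) (T.h (P (nat_lit 0)) (T.h (T.h (P (nat_lit 0)) (M (nat_lit 64739948756207))) (P (nat_lit 0))))) (T.h (T.h (P (nat_lit 0)) (P (nat_lit 866541895063420928))) (T.h (T.h (T.h (P (nat_lit 0)) (M (nat_lit 430642633814447))) (P (nat_lit 0))) (P (nat_lit 0)))))))), (T.h (T.h (P (nat_lit 0)) (T.h (T.h (P (nat_lit 0)) (T.h (P (nat_lit 10154437232380696105844736)) (T.h (P (nat_lit 0)) (M (nat_lit 424821116666642431))))) (T.h (P (nat_lit 0)) (T.h (T.h (P (nat_lit 0)) (P (nat_lit 11009277610239721472))) (P (nat_lit 0)))))) (T.h (T.h (T.h (M (nat_lit 2730455200263472533804679167))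 (T.h (P (nat_lit 0)) (T.h (P (nat_lit 49339147507429380456448)) (T.h (P (nat_lit 0)) (M (nat_lit 46682115382968319)))))) (T.h (P (nat_lit 0)) (T.h (T.h (P (nat_lit 30056970466909975740416)) (T.h (P (nat_lit 0)) (M (nat_lit 20342553305972735)))) (T.h (P (nat_lit 0)) (M (nat_lit 4980463948005375)))))) (T.h (T.h (P (nat_lit 0)) (T.h (T.h (P (nat_lit 0)) (M (nat_lit 102181312474403307519))) (P (nat_lit 0)))) (T.h (T.h (T.h (P (nat_lit 24394744105435544944640)) (T.h (P (nat_lit 0)) (M (nat_lit 16889743363768319)))) (T.h (P (nat_lit 0)) (P (nat_lit 29098387471630336)))) (T.h (P (nat_lit 0)) (M (nat_lit 81793179171323903))))))), (T.h (T.h (T.h (P (nat_lit 0)) (T.h (P (nat_lit 994755837398416160144228352)) (T.h (P (nat_lit 0)) (T.h (P (nat_lit 1627259457768127463424)) (T.h (P (nat_lit 0)) (M (nat_lit 1438415993520127))))))) (T.h (P (nat_lit 0)) (T.h (T.h (P (nat_lit 0)) (T.h (P (nat_lit 385848081155304194048)) (T.h (P (nat_lit 0)) (P (nat_lit 1901487044935680)))))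 (T.h (P (nat_lit 0)) (T.h (T.h (P (nat_lit 0)) (M (nat_lit 26168110165688319))) (P (nat_lit 0))))))) (T.h (T.h (P (nat_lit 0)) (T.h (T.h (P (nat_lit 20370376071632726442115072)) (T.h (P (nat_lit 0)) (T.h (M (nat_lit 52736164427403886591)) (T.h (P (nat_lit 0)) (P (nat_lit 37730281781984)))))) (T.h (P (nat_lit 0)) (T.h (T.h (M (nat_lit 14468998367255986175)) (T.h (P (nat_lit 0)) (P (nat_lit 238877194160)))) (T.h (P (nat_lit 0)) (M (nat_lit 6662556455103))))))) (T.h (T.h (T.h (P (nat_lit 0)) (T.h (P (nat_lit 62873011426048620888064)) (T.h (P (nat_lit 0)) (P (nat_lit 40138936817926144))))) (T.h (P (nat_lit 0)) (T.h (T.h (P (nat_lit 0)) (P (nat_lit 102840527015788544))) (P (nat_lit 0))))) (T.h (T.h (P (nat_lit 0)) (T.h (T.h (M (nat_lit 74258750209269956607)) (T.h (P (nat_lit 0)) (M (nat_lit 64739948756207)))) (T.h (P (nat_lit 0)) (P (nat_lit 847315013424))))) (T.h (T.h (T.h (P (nat_lit 0)) (P (nat_lit 866541895063420928))) (P (nat_lit 0))) (T.h (T.h (P (nat_lit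 0)) (M (nat_lit 430642633814447))) (P (nat_lit 0)))))))), (T.h (T.h (T.h (P (nat_lit 6680708591493659502204118106112)) (T.h (P (nat_lit 0)) (T.h (P (nat_lit 3152629237428887272554496)) (T.h (P (nat_lit 0)) (P (nat_lit 9809641144634572800)))))) (T.h (P (nat_lit 0)) (T.h (T.h (P (nat_lit 3152629237428887272554496)) (T.h (P (nat_lit 0)) (P (nat_lit 9895869601147781120)))) (T.h (P (nat_lit 0)) (P (nat_lit 9809641144634572800)))))) (T.h (T.h (P (nat_lit 0)) (T.h (T.h (P (nat_lit 0)) (T.h (M (nat_lit 65334891981411134210047)) (T.h (P (nat_lit 0)) (P (nat_lit 58318068894531584))))) (T.h (P (nat_lit 0)) (T.h (T.h (P (nat_lit 0)) (P (nat_lit 58318068894531584))) (P (nat_lit 0)))))) (T.h (T.h (T.h (M (nat_lit 2149890956194024676917247)) (T.h (P (nat_lit 0)) (M (nat_lit 48278542870674145279)))) (T.h (P (nat_lit 0)) (M (nat_lit 48278542870674145279)))) (T.h (T.h (P (nat_lit 0)) (T.h (T.h (P (nat_lit 0)) (P (nat_lit 175092994366111744))) (P (nat_lit 0)))) (M (nat_lit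 8287550168841060351)))))), (T.h (T.h (P (nat_lit 0)) (T.h (T.h (P (nat_lit 0)) (T.h (P (nat_lit 9767776142240778154934272)) (T.h (P (nat_lit 0)) (P (nat_lit 11252920928419446784))))) (T.h (P (nat_lit 0)) (T.h (T.h (P (nat_lit 0)) (M (nat_lit 181177798486917119))) (P (nat_lit 0)))))) (T.h (T.h (T.h (P (nat_lit 3166846873336167602856132608)) (T.h (P (nat_lit 0)) (T.h (P (nat_lit 35266817870928178839552)) (T.h (P (nat_lit 0)) (M (nat_lit 384693298659327)))))) (T.h (P (nat_lit 0)) (T.h (T.h (P (nat_lit 54548994911447583555584)) (T.h (P (nat_lit 0)) (M (nat_lit 41064510206017535)))) (T.h (P (nat_lit 0)) (M (nat_lit 42086344733622271)))))) (T.h (T.h (P (nat_lit 0)) (T.h (T.h (P (nat_lit 0)) (M (nat_lit 145672624222347722751))) (P (nat_lit 0)))) (T.h (T.h (T.h (M (nat_lit 14344602706940511911935)) (T.h (P (nat_lit 0)) (M (nat_lit 12694745432686591)))) (T.h (P (nat_lit 0)) (M (nat_lit 58682876268085247)))) (T.h (P (nat_lit 0)) (M (nat_lit 65582421789278207))))))),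 (T.h (T.h (T.h (M (nat_lit 3022801708362945769365684879359)) (T.h (P (nat_lit 0)) (T.h (M (nat_lit 866842690526014188027903)) (T.h (P (nat_lit 0)) (T.h (M (nat_lit 2198064352563560447)) (T.h (P (nat_lit 0)) (P (nat_lit 742147470768)))))))) (T.h (P (nat_lit 0)) (T.h (T.h (M (nat_lit 866842690526014188027903)) (T.h (P (nat_lit 0)) (T.h (M (nat_lit 80235081309880319)) (T.h (P (nat_lit 0)) (P (nat_lit 7551023902224)))))) (T.h (P (nat_lit 0)) (T.h (T.h (M (nat_lit 2198064352563560447)) (T.h (P (nat_lit 0)) (P (nat_lit 7551023902224)))) (T.h (P (nat_lit 0)) (P (nat_lit 742147470768)))))))) (T.h (T.h (P (nat_lit 0)) (T.h (T.h (P (nat_lit 0)) (T.h (P (nat_lit 9132112169328112041984)) (T.h (P (nat_lit 0)) (P (nat_lit 6924341569585152))))) (T.h (P (nat_lit 0)) (T.h (T.h (P (nat_lit 0)) (P (nat_lit 6924341569585152))) (P (nat_lit 0)))))) (T.h (T.h (T.h (P (nat_lit 35228165051076154056769536)) (T.h (P (nat_lit 0)) (T.h (P (nat_lit 33338568917978710016)) (T.h (P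 (nat_lit 0)) (P (nat_lit 12342157505568)))))) (T.h (P (nat_lit 0)) (T.h (T.h (P (nat_lit 33338568917978710016)) (T.h (P (nat_lit 0)) (M (nat_lit 55649786596799)))) (T.h (P (nat_lit 0)) (P (nat_lit 12342157505568)))))) (T.h (T.h (P (nat_lit 0)) (T.h (T.h (P (nat_lit 0)) (M (nat_lit 33744048614539263))) (P (nat_lit 0)))) (T.h (T.h (T.h (P (nat_lit 72859096151933059072)) (T.h (P (nat_lit 0)) (M (nat_lit 56118708733823)))) (T.h (P (nat_lit 0)) (M (nat_lit 56118708733823)))) (T.h (P (nat_lit 0)) (P (nat_lit 14511582942912)))))))), (T.h (T.h (T.h (P (nat_lit 0)) (T.h (M (nat_lit 3849283284899336926831575039)) (T.h (P (nat_lit 0)) (T.h (M (nat_lit 2169209033493156200447)) (T.h (P (nat_lit 0)) (P (nat_lit 411400681750528))))))) (T.h (P (nat_lit 0)) (T.h (T.h (P (nat_lit 0)) (T.h (M (nat_lit 318127756473987497983)) (T.h (P (nat_lit 0)) (M (nat_lit 5667928027332607))))) (T.h (P (nat_lit 0)) (T.h (T.h (P (nat_lit 0)) (M (nat_lit 9836419181182975))) (P (nat_lit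 0))))))) (T.h (T.h (P (nat_lit 0)) (T.h (T.h (M (nat_lit 8685767576524368306503679)) (T.h (P (nat_lit 0)) (M (nat_lit 21352153951422644223)))) (T.h (P (nat_lit 0)) (M (nat_lit 32111403715541336063))))) (T.h (T.h (T.h (P (nat_lit 0)) (T.h (M (nat_lit 7915433807328952975359)) (T.h (P (nat_lit 0)) (M (nat_lit 9664805248008191))))) (T.h (P (nat_lit 0)) (T.h (T.h (P (nat_lit 0)) (P (nat_lit 56882161005330432))) (P (nat_lit 0))))) (T.h (T.h (P (nat_lit 0)) (M (nat_lit 126973145165437337599))) (T.h (T.h (T.h (P (nat_lit 0)) (P (nat_lit 421785709203062784))) (P (nat_lit 0))) (P (nat_lit 0))))))), (T.h (T.h (P (nat_lit 0)) (T.h (T.h (M (nat_lit 3849283284899336926831575039)) (T.h (P (nat_lit 0)) (T.h (M (nat_lit 318127756473987497983)) (T.h (P (nat_lit 0)) (M (nat_lit 9836419181182975)))))) (T.h (P (nat_lit 0)) (T.h (T.h (M (nat_lit 2169209033493156200447)) (T.h (P (nat_lit 0)) (M (nat_lit 5667928027332607)))) (T.h (P (nat_lit 0)) (P (nat_lit 411400681750528)))))))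 (T.h (T.h (T.h (P (nat_lit 0)) (T.h (M (nat_lit 8685767576524368306503679)) (T.h (P (nat_lit 0)) (M (nat_lit 32111403715541336063))))) (T.h (P (nat_lit 0)) (T.h (T.h (P (nat_lit 0)) (M (nat_lit 21352153951422644223))) (P (nat_lit 0))))) (T.h (T.h (P (nat_lit 0)) (T.h (T.h (M (nat_lit 7915433807328952975359)) (T.h (P (nat_lit 0)) (P (nat_lit 56882161005330432)))) (T.h (P (nat_lit 0)) (M (nat_lit 9664805248008191))))) (T.h (T.h (T.h (P (nat_lit 0)) (M (nat_lit 126973145165437337599))) (P (nat_lit 0))) (T.h (T.h (P (nat_lit 0)) (P (nat_lit 421785709203062784))) (P (nat_lit 0)))))))]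
def lP22_60 : List (T ℤ) := [(T.h (T.h (P (nat_lit 0)) (T.h (T.h (P (nat_lit 0)) (T.h (P (nat_lit 386661090139917950910464)) (T.h (P (nat_lit 0)) (M (nat_lit 243643318179725311))))) (T.h (P (nat_lit 0)) (T.h (T.h (P (nat_lit 0)) (M (nat_lit 243643318179725311))) (P (nat_lit 0)))))) (T.h (T.h (T.h (M (nat_lit 5897302073599640136660811775)) (T.h (P (nat_lit 0)) (T.h (M (nat_lit 5209847404018203099135)) (T.h (P (nat_lit 0)) (M (nat_lit 4595770649346047)))))) (T.h (P (nat_lit 0)) (T.h (T.h (M (nat_lit 5209847404018203099135)) (T.h (P (nat_lit 0)) (P (nat_lit 20721956900044800)))) (T.h (P (nat_lit 0)) (M (nat_lit 4595770649346047)))))) (T.h (T.h (P (nat_lit 0)) (T.h (T.h (P (nat_lit 0)) (P (nat_lit 43491311747944415232))) (P (nat_lit 0)))) (T.h (T.h (T.h (P (nat_lit 38739346812376056856576)) (T.h (P (nat_lit 0)) (P (nat_lit 41793132904316928)))) (T.h (P (nat_lit 0)) (P (nat_lit 41793132904316928)))) (T.h (P (nat_lit 0)) (M (nat_lit 16210757382045695)))))))]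

def CP22 : List (T ℤ) := lP22_0 ++ (lP22_1 ++ (lP22_2 ++ (lP22_3 ++ (lP22_4 ++ (lP22_5 ++ (lP22_6 ++ (lP22_7 ++ (lP22_8 ++ (lP22_9 ++ (lP22_10 ++ (lP22_11 ++ (lP22_12 ++ (lP22_13 ++ (lP22_14 ++ (lP22_15 ++ (lP22_16 ++ (lP22_17 ++ (lP22_18 ++ (lP22_19 ++ (lP22_20 ++ (lP22_21 ++ (lP22_22 ++ (lP22_23 ++ (lP22_24 ++ (lP22_25 ++ (lP22_26 ++ (lP22_27 ++ (lP22_28 ++ (lP22_29 ++ (lP22_30 ++ (lP22_31 ++ (lP22_32 ++ (lP22_33 ++ (lP22_34 ++ (lP22_35 ++ (lP22_36 ++ (lP22_37 ++ (lP22_38 ++ (lP22_39 ++ (lP22_40 ++ (lP22_41 ++ (lP22_42 ++ (lP22_43 ++ (lP22_44 ++ (lP22_45 ++ (lP22_46 ++ (lP22_47 ++ (lP22_48 ++ (lP22_49 ++ (lP22_50 ++ (lP22_51 ++ (lP22_52 ++ (lP22_53 ++ (lP22_54 ++ (lP22_55 ++ (lP22_56 ++ (lP22_57 ++ (lP22_58 ++ (lP22_59 ++ (lP22_60))))))))))))))))))))))))))))))))))))))))))))))))))))))))))))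

/-- norms at radius 1536 -/
def NP22 : List ℕ := [(nat_lit 0), (nat_lit 4410501400340933843783516160000), (nat_lit 0), (nat_lit 0), (nat_lit 2770780515915101647538260518371328), (nat_lit 3026666278049953124190857776332800), (nat_lit 3817384993184792899949358389133312), (nat_lit 4269181169851866762775489262125056), (nat_lit 1541913322740312906285538672115712), (nat_lit 0), (nat_lit 0), (nat_lit 0), (nat_lit 2698308797350543333042680716328960), (nat_lit 7744837773727458214948963960750080), (nat_lit 14582276879944386808388201352265728), (nat_lit 17058513610406557094197680949690368), (nat_lit 5379688343161541790212226337996800), (nat_lit 0), (nat_lit 0), (nat_lit 0), (nat_lit 2917825142975451000966071313235968), (nat_lit 12401335324151854908856447549833216), (nat_lit 9770363086773468619751794466095104), (nat_lit 15601474116902674588712447682543616), (nat_lit 3165067436911905324468088300634112), (nat_lit 0), (nat_lit 0), (nat_lit 6138455378442065377369010252808192),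 (nat_lit 15415132514259252010624711246479360), (nat_lit 32193186518115343436727638311305216), (nat_lit 23527614955310736656204170449125376), (nat_lit 5077039350393258466700208019341312), (nat_lit 0), (nat_lit 0), (nat_lit 6138455378442065377369010252808192), (nat_lit 27359010896273283590877279187632128), (nat_lit 25956486550867083752991426185527296), (nat_lit 82885013538485318390689981735632896), (nat_lit 28266015128656486240017912900354048), (nat_lit 0), (nat_lit 0), (nat_lit 2917825142975451000966071313235968), (nat_lit 15415132514259252010624711246479360), (nat_lit 25956486550867083752991426185527296), (nat_lit 81704266077862341288385759143788544), (nat_lit 26596281468057084762184039595507712), (nat_lit 0), (nat_lit 0), (nat_lit 2698308797350543333042680716328960), (nat_lit 12401335324151854908856447549833216), (nat_lit 32193186518115343436727638311305216), (nat_lit 82885013538485318390689981735632896), (nat_lit 26596281468057084762184039595507712),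 (nat_lit 0), (nat_lit 0), (nat_lit 2770780515915101647538260518371328), (nat_lit 7744837773727458214948963960750080), (nat_lit 9770363086773468619751794466095104), (nat_lit 23527614955310736656204170449125376), (nat_lit 28266015128656486240017912900354048), (nat_lit 0), (nat_lit 0), (nat_lit 3026666278049953124190857776332800), (nat_lit 14582276879944386808388201352265728), (nat_lit 15601474116902674588712447682543616), (nat_lit 5077039350393258466700208019341312), (nat_lit 0), (nat_lit 0), (nat_lit 3817384993184792899949358389133312), (nat_lit 17058513610406557094197680949690368), (nat_lit 3165067436911905324468088300634112), (nat_lit 0), (nat_lit 0), (nat_lit 4269181169851866762775489262125056), (nat_lit 5379688343161541790212226337996800), (nat_lit 0), (nat_lit 0), (nat_lit 1541913322740312906285538672115712), (nat_lit 0), (nat_lit 0), (nat_lit 0), (nat_lit 0), (nat_lit 0), (nat_lit 22521909876490115032851830041214976), (nat_lit 7744837773727458214948963960750080),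 (nat_lit 17660414469863700815821455784673280), (nat_lit 17058513610406557094197680949690368), (nat_lit 5379688343161541790212226337996800), (nat_lit 0), (nat_lit 0), (nat_lit 36439011695590252712979716630380544), (nat_lit 11244596572723401517330460917628928), (nat_lit 16769694874482071026036369042440192), (nat_lit 20486083958012563272134776722554880), (nat_lit 3505504948021139736566282493886464), (nat_lit 0), (nat_lit 0), (nat_lit 26339319189446538102430695042318336), (nat_lit 25195364946231402831637849086885888), (nat_lit 36160452224635039155063625724461056), (nat_lit 43203980105732716982969654505897984), (nat_lit 16348222677415602568976898566651904), (nat_lit 0), (nat_lit 0), (nat_lit 64654912827748552524355890445287424), (nat_lit 31490972846843091411598260723253248), (nat_lit 95277202938335754195122642437013504), (nat_lit 57670633083597397830057624103550976), (nat_lit 17179104328625352243046203671969792), (nat_lit 0), (nat_lit 0), (nat_lit 46960301288515192195492092353445888),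 (nat_lit 31490972846843091411598260723253248), (nat_lit 94280415469801125107270775233052672), (nat_lit 49366601036775609081023428609179648), (nat_lit 18264041879335211232804045431242752), (nat_lit 0), (nat_lit 0), (nat_lit 21623572752553988887925136335831040), (nat_lit 25195364946231402831637849086885888), (nat_lit 68126319610658925157010482617384960), (nat_lit 49366601036775609081023428609179648), (nat_lit 21094026943910034324907254895083520), (nat_lit 0), (nat_lit 0), (nat_lit 9774950999957258903014968530042880), (nat_lit 11244596572723401517330460917628928), (nat_lit 37637866839617320940751367811629056), (nat_lit 57670633083597397830057624103550976), (nat_lit 18264041879335211232804045431242752), (nat_lit 0), (nat_lit 3287659447703174667347572249591808), (nat_lit 7744837773727458214948963960750080), (nat_lit 25921539138610232199301481938026496), (nat_lit 43203980105732716982969654505897984), (nat_lit 17179104328625352243046203671969792), (nat_lit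 0), (nat_lit 0), (nat_lit 16242677782044431669578955055169536), (nat_lit 20486083958012563272134776722554880), (nat_lit 16348222677415602568976898566651904), (nat_lit 0), (nat_lit 1703097830988996073977950813290496), (nat_lit 17058513610406557094197680949690368), (nat_lit 3505504948021139736566282493886464), (nat_lit 0), (nat_lit 0), (nat_lit 5379688343161541790212226337996800), (nat_lit 0), (nat_lit 0), (nat_lit 0), (nat_lit 4410501400340933843783516160000), (nat_lit 0), (nat_lit 0), (nat_lit 17715556088442950615720792715952128), (nat_lit 14180230935132368184596835904520192), (nat_lit 13534381567027566780837789243015168), (nat_lit 12706317909713886832561702905577472), (nat_lit 2744826322585587985525937541218304), (nat_lit 0), (nat_lit 0), (nat_lit 40194686810794044575635298857254912), (nat_lit 22463999547880911609133358565556224), (nat_lit 56337205884540570716975828828160000), (nat_lit 32809349021145141656141187313041408), (nat_lit 13782467098934978302095887494545408),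 (nat_lit 0), (nat_lit 0), (nat_lit 26294012825642973864381359352446976), (nat_lit 24515650460352250208757311971786752), (nat_lit 49954927165130423305230037089779712), (nat_lit 63751974859460315526374318304919552), (nat_lit 18676625879838758359395666694766592), (nat_lit 0), (nat_lit 0), (nat_lit 66227577932907316844500254524964864), (nat_lit 57614169225237729755250251029020672), (nat_lit 95135763675520591608674242365751296), (nat_lit 49477321680440659667699857763598336), (nat_lit 19971806010851987922963376845619200), (nat_lit 0), (nat_lit 0), (nat_lit 33545657975302002270424714016980992), (nat_lit 36517587903479694978515211596595200), (nat_lit 151557676302664637990773240268587008), (nat_lit 183436486537834477380232491239997440), (nat_lit 36664315958200431950844200837185536), (nat_lit 0), (nat_lit 0), (nat_lit 27098642173270274719848029006856192), (nat_lit 39163080503023211307855049994010624), (nat_lit 48664044128371671717091159591354368), (nat_lit 111742144144741429382349647517843456),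 (nat_lit 35867405320144018933700841783164928), (nat_lit 0), (nat_lit 9774950999957258903014968530042880), (nat_lit 22033356426199696253710736415522816), (nat_lit 56337202300692127956223187365134336), (nat_lit 56949684705063080417224489334472704), (nat_lit 29048249418586681596429926035095552), (nat_lit 2770780515915101647538260518371328), (nat_lit 7744837773727458214948963960750080), (nat_lit 23812454113851383654234316494340096), (nat_lit 50749887278666132402222461429481472), (nat_lit 19038894390308053501027131599093760), (nat_lit 3026666278049953124190857776332800), (nat_lit 16242677782044431669578955055169536), (nat_lit 30217931664029900196122533610651648), (nat_lit 16617701240990523596265171311394816), (nat_lit 3817384993184792899949358389133312), (nat_lit 17058513610406557094197680949690368), (nat_lit 6326100930127153396299039762284544), (nat_lit 4269181169851866762775489262125056), (nat_lit 5379688343161541790212226337996800), (nat_lit 1541913322740312906285538672115712),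 (nat_lit 0), (nat_lit 0), (nat_lit 34094493914360916781891172186456064), (nat_lit 18407740488946628509943526145916928), (nat_lit 25728671176216854657644949871263744), (nat_lit 34028638268133129821460711761510400), (nat_lit 9761243731153513024965160174878720), (nat_lit 0), (nat_lit 0), (nat_lit 90743255428224669253223063010410496), (nat_lit 35017431279760764578255130442334208), (nat_lit 84831790718437744663922509619396608), (nat_lit 56687939677104644794069535164465152), (nat_lit 15247400629501473077005611985534976), (nat_lit 0), (nat_lit 0), (nat_lit 69504670140640898320616383894781952), (nat_lit 66222655350413565449052472454676480), (nat_lit 120430407073274022528524279070326784), (nat_lit 66460269693642287896473179598618624), (nat_lit 35984606273084729716262699721031680), (nat_lit 0), (nat_lit 0), (nat_lit 107071573964077170825187752646017024), (nat_lit 62933091578419655428323722982850560), (nat_lit 127938499861454017440395045327863808), (nat_lit 223421466835569194768115712024117248),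 (nat_lit 62425231052141402212802079882215424), (nat_lit 0), (nat_lit 0), (nat_lit 33545657975302002270424714016980992), (nat_lit 55313897777238299165587557977161728), (nat_lit 97948990463064041503902005005910016), (nat_lit 221386562142933098885582650135805952), (nat_lit 93379507034860329572504470642753536), (nat_lit 0), (nat_lit 21623572752553988887925136335831040), (nat_lit 39163080503023211307855049994010624), (nat_lit 85673771582121444522192244786069504), (nat_lit 85442978744204415746996137585803264), (nat_lit 66052438021375992469068299567628288), (nat_lit 2698308797350543333042680716328960), (nat_lit 11244596572723401517330460917628928), (nat_lit 56337202300692127956223187365134336), (nat_lit 93534351156845668569036315823177728), (nat_lit 31064526005409505750403402849845248), (nat_lit 7744837773727458214948963960750080), (nat_lit 25921539138610232199301481938026496), (nat_lit 50749887278666132402222461429481472), (nat_lit 33684322438466561289629799584628736),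 (nat_lit 14582276879944386808388201352265728), (nat_lit 20486083958012563272134776722554880), (nat_lit 16617701240990523596265171311394816), (nat_lit 17058513610406557094197680949690368), (nat_lit 3505504948021139736566282493886464), (nat_lit 5379688343161541790212226337996800), (nat_lit 0), (nat_lit 0), (nat_lit 36057395163033099323645838263058432), (nat_lit 30520120956126686893278713763332096), (nat_lit 63565698962271298192007628186451968), (nat_lit 72416960029676106843061894697189376), (nat_lit 26138240151374877534700108184027136), (nat_lit 0), (nat_lit 0), (nat_lit 81015492443488523566515263398477824), (nat_lit 47817075065474116179823614247305216), (nat_lit 106267426005975931335378089313042432), (nat_lit 76113502545775902832436174483619840), (nat_lit 29116026279312381455657442075475968), (nat_lit 0), (nat_lit 0), (nat_lit 69504670140640898320616383894781952), (nat_lit 39629909134344366675889074380734464), (nat_lit 138366202576535666986579781140611072),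 (nat_lit 117258083390552373926318944511066112), (nat_lit 22760244741178022892821930198433792), (nat_lit 0), (nat_lit 0), (nat_lit 66227577932907316844500254524964864), (nat_lit 62933091578419655428323722982850560), (nat_lit 179196810590577913358285309076307968), (nat_lit 188098608006403701748682016971292672), (nat_lit 84171420530917649153661291882086400), (nat_lit 0), (nat_lit 46960301288515192195492092353445888), (nat_lit 36517587903479694978515211596595200), (nat_lit 97948990463064041503902005005910016), (nat_lit 273369141613253184965907170086354944), (nat_lit 96664286043385744587653791340298240), (nat_lit 2917825142975451000966071313235968), (nat_lit 25195364946231402831637849086885888), (nat_lit 48664044128371671717091159591354368), (nat_lit 85442978744204415746996137585803264), (nat_lit 45363241286127828578667515646836736), (nat_lit 12401335324151854908856447549833216), (nat_lit 37637866839617320940751367811629056), (nat_lit 56949684705063080417224489334472704),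 (nat_lit 31064526005409505750403402849845248), (nat_lit 9770363086773468619751794466095104), (nat_lit 43203980105732716982969654505897984), (nat_lit 19038894390308053501027131599093760), (nat_lit 15601474116902674588712447682543616), (nat_lit 16348222677415602568976898566651904), (nat_lit 3165067436911905324468088300634112), (nat_lit 0), (nat_lit 0), (nat_lit 36057395163033099323645838263058432), (nat_lit 27658908431448449165923324262350848), (nat_lit 53005383055598427172532408945737728), (nat_lit 79740946549885170427494268265299968), (nat_lit 27867573599310986671317501427580928), (nat_lit 0), (nat_lit 0), (nat_lit 90743255428224669253223063010410496), (nat_lit 47817075065474116179823614247305216), (nat_lit 112738414266494245217807928685232128), (nat_lit 87370568993875395537594828919406592), (nat_lit 36043374496142889912538827635818496), (nat_lit 0), (nat_lit 0), (nat_lit 26294012825642973864381359352446976), (nat_lit 66222655350413565449052472454676480),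 (nat_lit 138366202576535666986579781140611072), (nat_lit 73343433570604378176010985089794048), (nat_lit 24549728115953803767169540310433792), (nat_lit 0), (nat_lit 64654912827748552524355890445287424), (nat_lit 57614169225237729755250251029020672), (nat_lit 127938499861454017440395045327863808), (nat_lit 188098608006403701748682016971292672), (nat_lit 81640615095395491770043884873187328), (nat_lit 6138455378442065377369010252808192), (nat_lit 31490972846843091411598260723253248), (nat_lit 151557676302664637990773240268587008), (nat_lit 221386562142933098885582650135805952), (nat_lit 96664286043385744587653791340298240), (nat_lit 15415132514259252010624711246479360), (nat_lit 68126319610658925157010482617384960), (nat_lit 111742144144741429382349647517843456), (nat_lit 66052438021375992469068299567628288), (nat_lit 32193186518115343436727638311305216), (nat_lit 57670633083597397830057624103550976), (nat_lit 29048249418586681596429926035095552), (nat_lit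 23527614955310736656204170449125376), (nat_lit 17179104328625352243046203671969792), (nat_lit 5077039350393258466700208019341312), (nat_lit 0), (nat_lit 0), (nat_lit 34094493914360916781891172186456064), (nat_lit 30520120956126686893278713763332096), (nat_lit 53005383055598427172532408945737728), (nat_lit 120408474333358921106350328642535424), (nat_lit 43869370965698476648168509658890240), (nat_lit 0), (nat_lit 0), (nat_lit 40194686810794044575635298857254912), (nat_lit 35017431279760764578255130442334208), (nat_lit 106267426005975931335378089313042432), (nat_lit 87370568993875395537594828919406592), (nat_lit 35482213446362742154137674648125440), (nat_lit 0), (nat_lit 26339319189446538102430695042318336), (nat_lit 24515650460352250208757311971786752), (nat_lit 120430407073274022528524279070326784), (nat_lit 117258083390552373926318944511066112), (nat_lit 24549728115953803767169540310433792), (nat_lit 6138455378442065377369010252808192), (nat_lit 31490972846843091411598260723253248),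 (nat_lit 95135763675520591608674242365751296), (nat_lit 223421466835569194768115712024117248), (nat_lit 84171420530917649153661291882086400), (nat_lit 27359010896273283590877279187632128), (nat_lit 94280415469801125107270775233052672), (nat_lit 183436486537834477380232491239997440), (nat_lit 93379507034860329572504470642753536), (nat_lit 25956486550867083752991426185527296), (nat_lit 49366601036775609081023428609179648), (nat_lit 35867405320144018933700841783164928), (nat_lit 82885013538485318390689981735632896), (nat_lit 18264041879335211232804045431242752), (nat_lit 28266015128656486240017912900354048), (nat_lit 0), (nat_lit 0), (nat_lit 17715556088442950615720792715952128), (nat_lit 18407740488946628509943526145916928), (nat_lit 63565698962271298192007628186451968), (nat_lit 79740946549885170427494268265299968), (nat_lit 43869370965698476648168509658890240), (nat_lit 0), (nat_lit 36439011695590252712979716630380544), (nat_lit 22463999547880911609133358565556224),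 (nat_lit 84831790718437744663922509619396608), (nat_lit 76113502545775902832436174483619840), (nat_lit 36043374496142889912538827635818496), (nat_lit 2917825142975451000966071313235968), (nat_lit 25195364946231402831637849086885888), (nat_lit 49954927165130423305230037089779712), (nat_lit 66460269693642287896473179598618624), (nat_lit 22760244741178022892821930198433792), (nat_lit 15415132514259252010624711246479360), (nat_lit 95277202938335754195122642437013504), (nat_lit 49477321680440659667699857763598336), (nat_lit 62425231052141402212802079882215424), (nat_lit 25956486550867083752991426185527296), (nat_lit 49366601036775609081023428609179648), (nat_lit 36664315958200431950844200837185536), (nat_lit 81704266077862341288385759143788544), (nat_lit 21094026943910034324907254895083520), (nat_lit 26596281468057084762184039595507712), (nat_lit 0), (nat_lit 22521909876490115032851830041214976), (nat_lit 14180230935132368184596835904520192), (nat_lit 25728671176216854657644949871263744),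 (nat_lit 72416960029676106843061894697189376), (nat_lit 27867573599310986671317501427580928), (nat_lit 2698308797350543333042680716328960), (nat_lit 11244596572723401517330460917628928), (nat_lit 56337205884540570716975828828160000), (nat_lit 56687939677104644794069535164465152), (nat_lit 29116026279312381455657442075475968), (nat_lit 12401335324151854908856447549833216), (nat_lit 36160452224635039155063625724461056), (nat_lit 63751974859460315526374318304919552), (nat_lit 35984606273084729716262699721031680), (nat_lit 32193186518115343436727638311305216), (nat_lit 57670633083597397830057624103550976), (nat_lit 19971806010851987922963376845619200), (nat_lit 82885013538485318390689981735632896), (nat_lit 18264041879335211232804045431242752), (nat_lit 26596281468057084762184039595507712), (nat_lit 2770780515915101647538260518371328), (nat_lit 7744837773727458214948963960750080), (nat_lit 13534381567027566780837789243015168), (nat_lit 34028638268133129821460711761510400),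 (nat_lit 26138240151374877534700108184027136), (nat_lit 7744837773727458214948963960750080), (nat_lit 16769694874482071026036369042440192), (nat_lit 32809349021145141656141187313041408), (nat_lit 15247400629501473077005611985534976), (nat_lit 9770363086773468619751794466095104), (nat_lit 43203980105732716982969654505897984), (nat_lit 18676625879838758359395666694766592), (nat_lit 23527614955310736656204170449125376), (nat_lit 17179104328625352243046203671969792), (nat_lit 28266015128656486240017912900354048), (nat_lit 3026666278049953124190857776332800), (nat_lit 17660414469863700815821455784673280), (nat_lit 12706317909713886832561702905577472), (nat_lit 9761243731153513024965160174878720), (nat_lit 14582276879944386808388201352265728), (nat_lit 20486083958012563272134776722554880), (nat_lit 13782467098934978302095887494545408), (nat_lit 15601474116902674588712447682543616), (nat_lit 16348222677415602568976898566651904), (nat_lit 5077039350393258466700208019341312),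 (nat_lit 3817384993184792899949358389133312), (nat_lit 17058513610406557094197680949690368), (nat_lit 2744826322585587985525937541218304), (nat_lit 17058513610406557094197680949690368), (nat_lit 3505504948021139736566282493886464), (nat_lit 3165067436911905324468088300634112), (nat_lit 4269181169851866762775489262125056), (nat_lit 5379688343161541790212226337996800), (nat_lit 5379688343161541790212226337996800), (nat_lit 1541913322740312906285538672115712)]


end Pool.Agent.TOPR.R6116H
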