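import Pool.Agent.TOPR.R6116H.Cert

set_option autoImplicit false
set_option linter.all false
set_option maxRecDepth 100000

namespace Pool.Agent.TOPR.R6116H

open Helper10.PC hiding V3
open Helper80.CW.DL Pool.Agent.Helper6.TOP

def et0_0 : T ℤ := (T.h (T.h (T.h (T.h (T.h (P (nat_lit 15594888)) (T.h (P (nat_lit 0)) (T.h (M (nat_lit 476378103)) (T.h (P (nat_lit 0)) (T.h (M (nat_lit 10335611775)) (T.h (P (nat_lit 0)) (P (nat_lit 41356076396)))))))) (T.h (P (nat_lit 0)) (T.h (T.h (P (nat_lit 8951414800)) (T.h (P (nat_lit 0)) (T.h (P (nat_lit 49793365452)) (T.h (P (nat_lit 0)) (P (nat_lit 3860883191940)))))) (T.h (P (nat_lit 0)) (T.h (T.h (M (nat_lit 493265236943)) (T.h (P (nat_lit 0)) (M (nat_lit 7026641425567)))) (T.h (P (nat_lit 0)) (P (nat_lit 2308661302800)))))))) (T.h (T.h (P (nat_lit 0)) (T.h (T.h (P (nat_lit 0)) (T.h (M (nat_lit 4807936479)) (T.h (P (nat_lit 0)) (P (nat_lit 244164718320)))))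 (T.h (P (nat_lit 0)) (T.h (T.h (P (nat_lit 0)) (M (nat_lit 3024331543191))) (P (nat_lit 0)))))) (T.h (T.h (T.h (M (nat_lit 476378103)) (T.h (P (nat_lit 0)) (T.h (P (nat_lit 36145524616)) (T.h (P (nat_lit 0)) (P (nat_lit 1059877487984)))))) (T.h (P (nat_lit 0)) (T.h (T.h (P (nat_lit 49793365452)) (T.h (P (nat_lit 0)) (M (nat_lit 8853375161391)))) (T.h (P (nat_lit 0)) (M (nat_lit 7026641425567)))))) (T.h (T.h (P (nat_lit 0)) (T.h (T.h (P (nat_lit 0)) (P (nat_lit 244164718320))) (P (nat_lit 0)))) (T.h (T.h (T.h (M (nat_lit 10335611775)) (T.h (P (nat_lit 0)) (P (nat_lit 1059877487984)))) (T.h (P (nat_lit 0)) (P (nat_lit 3860883191940)))) (T.h (P (nat_lit 0)) (P (nat_lit 41356076396)))))))) (T.h (P (nat_lit 0)) (T.h (T.h (T.h (T.h (M (nat_lit 46945359)) (T.h (P (nat_lit 0)) (T.h (M (nat_lit 8240506955)) (T.h (P (nat_lit 0)) (T.h (M (nat_lit 100403257855)) (T.h (P (nat_lit 0)) (M (nat_lit 396537227327))))))))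 (T.h (P (nat_lit 0)) (T.h (T.h (P (nat_lit 17419653284)) (T.h (P (nat_lit 0)) (T.h (P (nat_lit 2589775590952)) (T.h (P (nat_lit 0)) (M (nat_lit 32420310679327)))))) (T.h (P (nat_lit 0)) (T.h (T.h (M (nat_lit 268974229215)) (T.h (P (nat_lit 0)) (M (nat_lit 19540580307203)))) (T.h (P (nat_lit 0)) (M (nat_lit 32620498733195)))))))) (T.h (T.h (P (nat_lit 0)) (T.h (T.h (P (nat_lit 0)) (T.h (P (nat_lit 184433471332)) (T.h (P (nat_lit 0)) (M (nat_lit 3759122180439))))) (T.h (P (nat_lit 0)) (T.h (T.h (P (nat_lit 0)) (M (nat_lit 13665014530023))) (P (nat_lit 0)))))) (T.h (T.h (T.h (M (nat_lit 2741020611)) (T.h (P (nat_lit 0)) (T.h (M (nat_lit 24850371303)) (T.h (P (nat_lit 0)) (P (nat_lit 13166944817488)))))) (T.h (P (nat_lit 0)) (T.h (T.h (P (nat_lit 1367229948084)) (T.h (P (nat_lit 0)) (M (nat_lit 27480587816483)))) (T.h (P (nat_lit 0)) (M (nat_lit 8307788537971)))))) (T.h (T.h (P (nat_lit 0)) (T.h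 (T.h (P (nat_lit 0)) (P (nat_lit 4643840074632))) (P (nat_lit 0)))) (T.h (T.h (T.h (P (nat_lit 24299109560)) (T.h (P (nat_lit 0)) (P (nat_lit 12281642234708)))) (T.h (P (nat_lit 0)) (P (nat_lit 4458007251236)))) (T.h (P (nat_lit 0)) (M (nat_lit 955442423363)))))))) (P (nat_lit 0))))) (T.h (T.h (P (nat_lit 0)) (T.h (T.h (T.h (P (nat_lit 0)) (T.h (T.h (P (nat_lit 0)) (T.h (M (nat_lit 19731896623)) (T.h (P (nat_lit 0)) (T.h (M (nat_lit 271231086103)) (T.h (P (nat_lit 0)) (P (nat_lit 1665639113776))))))) (T.h (P (nat_lit 0)) (T.h (T.h (P (nat_lit 0)) (T.h (M (nat_lit 72181017303)) (T.h (P (nat_lit 0)) (M (nat_lit 211828753355))))) (T.h (P (nat_lit 0)) (T.h (T.h (P (nat_lit 0)) (P (nat_lit 107660658453612))) (P (nat_lit 0)))))))) (T.h (T.h (T.h (P (nat_lit 51383376)) (T.h (P (nat_lit 0)) (T.h (P (nat_lit 3214072092)) (T.h (P (nat_lit 0)) (P (nat_lit 924931867420)))))) (T.h (P (nat_lit 0)) (T.h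 (T.h (M (nat_lit 88637288915)) (T.h (P (nat_lit 0)) (M (nat_lit 3380082010711)))) (T.h (P (nat_lit 0)) (M (nat_lit 11594390421327)))))) (T.h (T.h (P (nat_lit 0)) (T.h (T.h (P (nat_lit 0)) (T.h (P (nat_lit 88138696008)) (T.h (P (nat_lit 0)) (M (nat_lit 59719298539))))) (T.h (P (nat_lit 0)) (T.h (T.h (P (nat_lit 0)) (P (nat_lit 16184987189052))) (P (nat_lit 0)))))) (T.h (T.h (T.h (P (nat_lit 5780723828)) (T.h (P (nat_lit 0)) (M (nat_lit 477422562099)))) (T.h (P (nat_lit 0)) (M (nat_lit 5223532980247)))) (T.h (T.h (P (nat_lit 0)) (T.h (T.h (P (nat_lit 0)) (M (nat_lit 9432570445495))) (P (nat_lit 0)))) (M (nat_lit 35413554967))))))) (P (nat_lit 0)))) (T.h (T.h (T.h (T.h (T.h (M (nat_lit 24506239)) (T.h (P (nat_lit 0)) (T.h (P (nat_lit 684465452)) (T.h (P (nat_lit 0)) (T.h (P (nat_lit 24404320820)) (T.h (P (nat_lit 0)) (M (nat_lit 185536867691)))))))) (T.h (P (nat_lit 0)) (T.h (T.h (M (nat_lit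 14066508983)) (T.h (P (nat_lit 0)) (T.h (M (nat_lit 208486458883)) (T.h (P (nat_lit 0)) (M (nat_lit 3085539376391)))))) (T.h (P (nat_lit 0)) (T.h (T.h (P (nat_lit 775131074872)) (T.h (P (nat_lit 0)) (P (nat_lit 14029677183456)))) (T.h (P (nat_lit 0)) (M (nat_lit 3627895735727)))))))) (T.h (T.h (P (nat_lit 0)) (T.h (T.h (P (nat_lit 0)) (T.h (P (nat_lit 7555328792)) (T.h (P (nat_lit 0)) (M (nat_lit 79872503875))))) (T.h (P (nat_lit 0)) (T.h (T.h (P (nat_lit 0)) (P (nat_lit 4752521010512))) (P (nat_lit 0)))))) (T.h (T.h (T.h (P (nat_lit 684465452)) (T.h (P (nat_lit 0)) (T.h (M (nat_lit 56800110399)) (T.h (P (nat_lit 0)) (M (nat_lit 1887755975555)))))) (T.h (P (nat_lit 0)) (T.h (T.h (M (nat_lit 208486458883)) (T.h (P (nat_lit 0)) (P (nat_lit 13912446649200)))) (T.h (P (nat_lit 0)) (P (nat_lit 14029677183456)))))) (T.h (T.h (P (nat_lit 0)) (T.h (T.h (P (nat_lit 0)) (M (nat_lit 79872503875))) (P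 (nat_lit 0)))) (T.h (T.h (T.h (P (nat_lit 24404320820)) (T.h (P (nat_lit 0)) (M (nat_lit 1887755975555)))) (T.h (P (nat_lit 0)) (M (nat_lit 3085539376391)))) (T.h (P (nat_lit 0)) (M (nat_lit 185536867691)))))))) (P (nat_lit 0))) (P (nat_lit 0)))))
def et0_1 : T ℤ := (T.h (T.h (P (nat_lit 0)) (T.h (P (nat_lit 0)) (T.h (T.h (T.h (T.h (P (nat_lit 30128108)) (T.h (P (nat_lit 0)) (T.h (P (nat_lit 3616056120)) (T.h (P (nat_lit 0)) (T.h (P (nat_lit 86678978460)) (T.h (P (nat_lit 0)) (M (nat_lit 1795331387947)))))))) (T.h (P (nat_lit 0)) (T.h (T.h (M (nat_lit 14681066707)) (T.h (P (nat_lit 0)) (T.h (M (nat_lit 218563427315)) (T.h (P (nat_lit 0)) (P (nat_lit 6362593244944)))))) (T.h (P (nat_lit 0)) (T.h (T.h (P (nat_lit 368062827288)) (T.h (P (nat_lit 0)) (M (nat_lit 109835486103791)))) (T.h (P (nat_lit 0)) (M (nat_lit 15839874635779)))))))) (T.h (T.h (P (nat_lit 0)) (T.h (T.h (P (nat_lit 0)) (T.h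 (M (nat_lit 21975144131)) (T.h (P (nat_lit 0)) (M (nat_lit 203355425975))))) (T.h (P (nat_lit 0)) (T.h (T.h (P (nat_lit 0)) (P (nat_lit 181936539620))) (P (nat_lit 0)))))) (T.h (T.h (T.h (P (nat_lit 1149631928)) (T.h (P (nat_lit 0)) (T.h (P (nat_lit 12574033836)) (T.h (P (nat_lit 0)) (M (nat_lit 1958735805163)))))) (T.h (P (nat_lit 0)) (T.h (T.h (M (nat_lit 417292859023)) (T.h (P (nat_lit 0)) (P (nat_lit 607059601804)))) (T.h (P (nat_lit 0)) (M (nat_lit 16451472673519)))))) (T.h (T.h (P (nat_lit 0)) (T.h (T.h (P (nat_lit 0)) (M (nat_lit 287979988839))) (P (nat_lit 0)))) (T.h (T.h (T.h (M (nat_lit 18596284487)) (T.h (P (nat_lit 0)) (M (nat_lit 1944566603231)))) (T.h (P (nat_lit 0)) (P (nat_lit 6838140259312)))) (T.h (P (nat_lit 0)) (P (nat_lit 564696938868)))))))) (T.h (P (nat_lit 0)) (T.h (T.h (T.h (T.h (P (nat_lit 145292312)) (T.h (P (nat_lit 0)) (T.h (P (nat_lit 79804914728)) (T.h (P (nat_lit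 0)) (T.h (M (nat_lit 91458403519)) (T.h (P (nat_lit 0)) (P (nat_lit 25095232783720)))))))) (T.h (P (nat_lit 0)) (T.h (T.h (P (nat_lit 24461052660)) (T.h (P (nat_lit 0)) (T.h (M (nat_lit 994120471387)) (T.h (P (nat_lit 0)) (M (nat_lit 56904076317263)))))) (T.h (P (nat_lit 0)) (T.h (T.h (M (nat_lit 2749079082683)) (T.h (P (nat_lit 0)) (P (nat_lit 387116423437260)))) (T.h (P (nat_lit 0)) (P (nat_lit 124867342192208)))))))) (T.h (T.h (P (nat_lit 0)) (T.h (T.h (P (nat_lit 0)) (T.h (P (nat_lit 1679229542056)) (T.h (P (nat_lit 0)) (M (nat_lit 13855469404127))))) (T.h (P (nat_lit 0)) (T.h (T.h (P (nat_lit 0)) (P (nat_lit 55552322622940))) (P (nat_lit 0)))))) (T.h (T.h (T.h (P (nat_lit 6871335988)) (T.h (P (nat_lit 0)) (T.h (P (nat_lit 816726574796)) (T.h (P (nat_lit 0)) (M (nat_lit 52901274929139)))))) (T.h (P (nat_lit 0)) (T.h (T.h (M (nat_lit 2917569247163)) (T.h (P (nat_lit 0)) (P (nat_lit 300292578959032))))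 (T.h (P (nat_lit 0)) (P (nat_lit 77971784982740)))))) (T.h (T.h (P (nat_lit 0)) (T.h (T.h (P (nat_lit 0)) (M (nat_lit 23033243445519))) (P (nat_lit 0)))) (T.h (T.h (T.h (M (nat_lit 176445457935)) (T.h (P (nat_lit 0)) (M (nat_lit 11717683624327)))) (T.h (P (nat_lit 0)) (M (nat_lit 11468508036743)))) (T.h (P (nat_lit 0)) (P (nat_lit 2623073607572)))))))) (P (nat_lit 0))))))) (T.h (T.h (P (nat_lit 0)) (T.h (T.h (T.h (P (nat_lit 0)) (T.h (T.h (P (nat_lit 0)) (T.h (M (nat_lit 894095127)) (T.h (P (nat_lit 0)) (T.h (P (nat_lit 169616973732)) (T.h (P (nat_lit 0)) (M (nat_lit 1837837636695))))))) (T.h (P (nat_lit 0)) (T.h (T.h (P (nat_lit 0)) (T.h (P (nat_lit 36918942868)) (T.h (P (nat_lit 0)) (P (nat_lit 7474034132668))))) (T.h (P (nat_lit 0)) (T.h (T.h (P (nat_lit 0)) (M (nat_lit 31656187968955))) (P (nat_lit 0)))))))) (T.h (T.h (T.h (M (nat_lit 114010627)) (T.h (P (nat_lit 0)) (T.h (M (nat_lit 2868324747))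 (T.h (P (nat_lit 0)) (M (nat_lit 462597727287)))))) (T.h (P (nat_lit 0)) (T.h (T.h (P (nat_lit 23276552380)) (T.h (P (nat_lit 0)) (M (nat_lit 50734677655)))) (T.h (P (nat_lit 0)) (P (nat_lit 7416662447744)))))) (T.h (T.h (P (nat_lit 0)) (T.h (T.h (P (nat_lit 0)) (T.h (M (nat_lit 83476511179)) (T.h (P (nat_lit 0)) (P (nat_lit 1064230397392))))) (T.h (P (nat_lit 0)) (T.h (T.h (P (nat_lit 0)) (M (nat_lit 5213492097731))) (P (nat_lit 0)))))) (T.h (T.h (T.h (M (nat_lit 2217424347)) (T.h (P (nat_lit 0)) (P (nat_lit 4531008324)))) (T.h (P (nat_lit 0)) (P (nat_lit 1144449466972)))) (T.h (T.h (P (nat_lit 0)) (T.h (T.h (P (nat_lit 0)) (P (nat_lit 3528862073664))) (P (nat_lit 0)))) (P (nat_lit 18545896296))))))) (T.h (P (nat_lit 0)) (T.h (T.h (T.h (P (nat_lit 0)) (T.h (T.h (P (nat_lit 0)) (T.h (P (nat_lit 61704993636)) (T.h (P (nat_lit 0)) (T.h (M (nat_lit 243150063947)) (T.h (P (nat_lit 0)) (M (nat_lit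 2460908426987))))))) (T.h (P (nat_lit 0)) (T.h (T.h (P (nat_lit 0)) (T.h (M (nat_lit 8460316751655)) (T.h (P (nat_lit 0)) (P (nat_lit 10201815208420))))) (T.h (P (nat_lit 0)) (T.h (T.h (P (nat_lit 0)) (P (nat_lit 50502653299076))) (P (nat_lit 0)))))))) (T.h (T.h (T.h (M (nat_lit 4968475511)) (T.h (P (nat_lit 0)) (T.h (P (nat_lit 178549323964)) (T.h (P (nat_lit 0)) (P (nat_lit 1915731352392)))))) (T.h (P (nat_lit 0)) (T.h (T.h (P (nat_lit 576836749632)) (T.h (P (nat_lit 0)) (P (nat_lit 10320264767120)))) (T.h (P (nat_lit 0)) (M (nat_lit 2863453597047)))))) (T.h (T.h (P (nat_lit 0)) (T.h (T.h (P (nat_lit 0)) (T.h (M (nat_lit 1169230121531)) (T.h (P (nat_lit 0)) (P (nat_lit 38487826045724))))) (T.h (P (nat_lit 0)) (T.h (T.h (P (nat_lit 0)) (P (nat_lit 40191469935584))) (P (nat_lit 0)))))) (T.h (T.h (T.h (P (nat_lit 73814394588)) (T.h (P (nat_lit 0)) (M (nat_lit 4865477592359)))) (T.h (P (nat_lit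 0)) (M (nat_lit 366352987395)))) (T.h (T.h (P (nat_lit 0)) (T.h (T.h (P (nat_lit 0)) (P (nat_lit 11734533014248))) (P (nat_lit 0)))) (P (nat_lit 855948930188))))))) (P (nat_lit 0)))))) et0_0))
def et0_2 : T ℤ := (T.h (T.h (P (nat_lit 0)) (T.h (P (nat_lit 0)) (T.h (P (nat_lit 0)) (T.h (P (nat_lit 0)) (T.h (T.h (T.h (T.h (M (nat_lit 62528431)) (T.h (P (nat_lit 0)) (T.h (M (nat_lit 16900449979)) (T.h (P (nat_lit 0)) (T.h (M (nat_lit 125530406299)) (T.h (P (nat_lit 0)) (P (nat_lit 6551963517976)))))))) (T.h (P (nat_lit 0)) (T.h (T.h (M (nat_lit 16900449979)) (T.h (P (nat_lit 0)) (T.h (P (nat_lit 349308712920)) (T.h (P (nat_lit 0)) (P (nat_lit 42996277855480)))))) (T.h (P (nat_lit 0)) (T.h (T.h (M (nat_lit 125530406299)) (T.h (P (nat_lit 0)) (P (nat_lit 42996277855480)))) (T.h (P (nat_lit 0)) (P (nat_lit 6551963517976)))))))) (T.h (T.h (P (nat_lit 0)) (T.h (T.h (P (nat_lit 0)) (T.h (M (nat_lit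 1619404514743)) (T.h (P (nat_lit 0)) (M (nat_lit 8681024761855))))) (T.h (P (nat_lit 0)) (T.h (T.h (P (nat_lit 0)) (M (nat_lit 8681024761855))) (P (nat_lit 0)))))) (T.h (T.h (T.h (M (nat_lit 5223951071)) (T.h (P (nat_lit 0)) (T.h (P (nat_lit 98901628520)) (T.h (P (nat_lit 0)) (M (nat_lit 3791095779391)))))) (T.h (P (nat_lit 0)) (T.h (T.h (P (nat_lit 98901628520)) (T.h (P (nat_lit 0)) (M (nat_lit 228484527337095)))) (T.h (P (nat_lit 0)) (M (nat_lit 3791095779391)))))) (T.h (T.h (P (nat_lit 0)) (T.h (T.h (P (nat_lit 0)) (P (nat_lit 12638991270184))) (P (nat_lit 0)))) (T.h (T.h (T.h (P (nat_lit 130577256848)) (T.h (P (nat_lit 0)) (M (nat_lit 4715881248183)))) (T.h (P (nat_lit 0)) (M (nat_lit 4715881248183)))) (T.h (P (nat_lit 0)) (M (nat_lit 1746892988063)))))))) (T.h (P (nat_lit 0)) (T.h (T.h (T.h (T.h (P (nat_lit 145292312)) (T.h (P (nat_lit 0)) (T.h (P (nat_lit 24461052660)) (T.h (P (nat_lit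 0)) (T.h (M (nat_lit 2749079082683)) (T.h (P (nat_lit 0)) (P (nat_lit 124867342192208)))))))) (T.h (P (nat_lit 0)) (T.h (T.h (P (nat_lit 79804914728)) (T.h (P (nat_lit 0)) (T.h (M (nat_lit 994120471387)) (T.h (P (nat_lit 0)) (P (nat_lit 387116423437260)))))) (T.h (P (nat_lit 0)) (T.h (T.h (M (nat_lit 91458403519)) (T.h (P (nat_lit 0)) (M (nat_lit 56904076317263)))) (T.h (P (nat_lit 0)) (P (nat_lit 25095232783720)))))))) (T.h (T.h (P (nat_lit 0)) (T.h (T.h (P (nat_lit 0)) (T.h (P (nat_lit 1679229542056)) (T.h (P (nat_lit 0)) (P (nat_lit 55552322622940))))) (T.h (P (nat_lit 0)) (T.h (T.h (P (nat_lit 0)) (M (nat_lit 13855469404127))) (P (nat_lit 0)))))) (T.h (T.h (T.h (P (nat_lit 6871335988)) (T.h (P (nat_lit 0)) (T.h (M (nat_lit 2917569247163)) (T.h (P (nat_lit 0)) (P (nat_lit 77971784982740)))))) (T.h (P (nat_lit 0)) (T.h (T.h (P (nat_lit 816726574796)) (T.h (P (nat_lit 0)) (P (nat_lit 300292578959032))))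 (T.h (P (nat_lit 0)) (M (nat_lit 52901274929139)))))) (T.h (T.h (P (nat_lit 0)) (T.h (T.h (P (nat_lit 0)) (M (nat_lit 23033243445519))) (P (nat_lit 0)))) (T.h (T.h (T.h (M (nat_lit 176445457935)) (T.h (P (nat_lit 0)) (M (nat_lit 11468508036743)))) (T.h (P (nat_lit 0)) (M (nat_lit 11717683624327)))) (T.h (P (nat_lit 0)) (P (nat_lit 2623073607572)))))))) (P (nat_lit 0))))))))) (T.h (T.h (P (nat_lit 0)) (T.h (P (nat_lit 0)) (T.h (P (nat_lit 0)) (T.h (T.h (T.h (P (nat_lit 0)) (T.h (T.h (P (nat_lit 0)) (T.h (M (nat_lit 13753853663)) (T.h (P (nat_lit 0)) (T.h (P (nat_lit 49806175832)) (T.h (P (nat_lit 0)) (P (nat_lit 5228982610064))))))) (T.h (P (nat_lit 0)) (T.h (T.h (P (nat_lit 0)) (T.h (P (nat_lit 8235131811300)) (T.h (P (nat_lit 0)) (M (nat_lit 86581946584883))))) (T.h (P (nat_lit 0)) (T.h (T.h (P (nat_lit 0)) (M (nat_lit 1407496825639))) (P (nat_lit 0)))))))) (T.h (T.h (T.h (P (nat_lit 2270491464))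 (T.h (P (nat_lit 0)) (T.h (M (nat_lit 6929845307)) (T.h (P (nat_lit 0)) (M (nat_lit 270143222463)))))) (T.h (P (nat_lit 0)) (T.h (T.h (P (nat_lit 78860590644)) (T.h (P (nat_lit 0)) (P (nat_lit 4398689160504)))) (T.h (P (nat_lit 0)) (P (nat_lit 2878474024452)))))) (T.h (T.h (P (nat_lit 0)) (T.h (T.h (P (nat_lit 0)) (T.h (P (nat_lit 357097289124)) (T.h (P (nat_lit 0)) (M (nat_lit 4588665984999))))) (T.h (P (nat_lit 0)) (T.h (T.h (P (nat_lit 0)) (P (nat_lit 34685970099560))) (P (nat_lit 0)))))) (T.h (T.h (T.h (M (nat_lit 36798685715)) (T.h (P (nat_lit 0)) (M (nat_lit 59471335607)))) (T.h (P (nat_lit 0)) (P (nat_lit 1185726420524)))) (T.h (T.h (P (nat_lit 0)) (T.h (T.h (P (nat_lit 0)) (M (nat_lit 8370435649727))) (P (nat_lit 0)))) (M (nat_lit 417894551131))))))) (T.h (P (nat_lit 0)) (T.h (T.h (T.h (P (nat_lit 0)) (T.h (T.h (P (nat_lit 0)) (T.h (P (nat_lit 19260018536)) (T.h (P (nat_lit 0)) (T.h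 (M (nat_lit 10724780851707)) (T.h (P (nat_lit 0)) (P (nat_lit 127816228643180))))))) (T.h (P (nat_lit 0)) (T.h (T.h (P (nat_lit 0)) (T.h (M (nat_lit 10724780851707)) (T.h (P (nat_lit 0)) (P (nat_lit 439864585331688))))) (T.h (P (nat_lit 0)) (T.h (T.h (P (nat_lit 0)) (P (nat_lit 127816228643180))) (P (nat_lit 0)))))))) (T.h (T.h (T.h (P (nat_lit 2457212296)) (T.h (P (nat_lit 0)) (T.h (M (nat_lit 922957152699)) (T.h (P (nat_lit 0)) (M (nat_lit 3663603789779)))))) (T.h (P (nat_lit 0)) (T.h (T.h (M (nat_lit 922957152699)) (T.h (P (nat_lit 0)) (M (nat_lit 43828307913543)))) (T.h (P (nat_lit 0)) (M (nat_lit 3663603789779)))))) (T.h (T.h (P (nat_lit 0)) (T.h (T.h (P (nat_lit 0)) (T.h (M (nat_lit 348292303215)) (T.h (P (nat_lit 0)) (M (nat_lit 130831915665659))))) (T.h (P (nat_lit 0)) (T.h (T.h (P (nat_lit 0)) (M (nat_lit 130831915665659))) (P (nat_lit 0)))))) (T.h (T.h (T.h (M (nat_lit 29047071767))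 (T.h (P (nat_lit 0)) (P (nat_lit 13406000898180)))) (T.h (P (nat_lit 0)) (P (nat_lit 13406000898180)))) (T.h (T.h (P (nat_lit 0)) (T.h (T.h (P (nat_lit 0)) (P (nat_lit 59381912924488))) (P (nat_lit 0)))) (M (nat_lit 258915560111))))))) (P (nat_lit 0)))))))) et0_1))
def et0_3 : T ℤ := (T.h (T.h (P (nat_lit 0)) (T.h (P (nat_lit 0)) (T.h (P (nat_lit 0)) (T.h (P (nat_lit 0)) (T.h (P (nat_lit 0)) (T.h (P (nat_lit 0)) (T.h (T.h (T.h (T.h (P (nat_lit 30128108)) (T.h (P (nat_lit 0)) (T.h (M (nat_lit 14681066707)) (T.h (P (nat_lit 0)) (T.h (P (nat_lit 368062827288)) (T.h (P (nat_lit 0)) (M (nat_lit 15839874635779)))))))) (T.h (P (nat_lit 0)) (T.h (T.h (P (nat_lit 3616056120)) (T.h (P (nat_lit 0)) (T.h (M (nat_lit 218563427315)) (T.h (P (nat_lit 0)) (M (nat_lit 109835486103791)))))) (T.h (P (nat_lit 0)) (T.h (T.h (P (nat_lit 86678978460)) (T.h (P (nat_lit 0)) (P (nat_lit 6362593244944)))) (T.h (P (nat_lit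 0)) (M (nat_lit 1795331387947)))))))) (T.h (T.h (P (nat_lit 0)) (T.h (T.h (P (nat_lit 0)) (T.h (M (nat_lit 21975144131)) (T.h (P (nat_lit 0)) (P (nat_lit 181936539620))))) (T.h (P (nat_lit 0)) (T.h (T.h (P (nat_lit 0)) (M (nat_lit 203355425975))) (P (nat_lit 0)))))) (T.h (T.h (T.h (P (nat_lit 1149631928)) (T.h (P (nat_lit 0)) (T.h (M (nat_lit 417292859023)) (T.h (P (nat_lit 0)) (M (nat_lit 16451472673519)))))) (T.h (P (nat_lit 0)) (T.h (T.h (P (nat_lit 12574033836)) (T.h (P (nat_lit 0)) (P (nat_lit 607059601804)))) (T.h (P (nat_lit 0)) (M (nat_lit 1958735805163)))))) (T.h (T.h (P (nat_lit 0)) (T.h (T.h (P (nat_lit 0)) (M (nat_lit 287979988839))) (P (nat_lit 0)))) (T.h (T.h (T.h (M (nat_lit 18596284487)) (T.h (P (nat_lit 0)) (P (nat_lit 6838140259312)))) (T.h (P (nat_lit 0)) (M (nat_lit 1944566603231)))) (T.h (P (nat_lit 0)) (P (nat_lit 564696938868)))))))) (T.h (P (nat_lit 0)) (T.h (T.h (T.h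 (T.h (M (nat_lit 46945359)) (T.h (P (nat_lit 0)) (T.h (P (nat_lit 17419653284)) (T.h (P (nat_lit 0)) (T.h (M (nat_lit 268974229215)) (T.h (P (nat_lit 0)) (M (nat_lit 32620498733195)))))))) (T.h (P (nat_lit 0)) (T.h (T.h (M (nat_lit 8240506955)) (T.h (P (nat_lit 0)) (T.h (P (nat_lit 2589775590952)) (T.h (P (nat_lit 0)) (M (nat_lit 19540580307203)))))) (T.h (P (nat_lit 0)) (T.h (T.h (M (nat_lit 100403257855)) (T.h (P (nat_lit 0)) (M (nat_lit 32420310679327)))) (T.h (P (nat_lit 0)) (M (nat_lit 396537227327)))))))) (T.h (T.h (P (nat_lit 0)) (T.h (T.h (P (nat_lit 0)) (T.h (P (nat_lit 184433471332)) (T.h (P (nat_lit 0)) (M (nat_lit 13665014530023))))) (T.h (P (nat_lit 0)) (T.h (T.h (P (nat_lit 0)) (M (nat_lit 3759122180439))) (P (nat_lit 0)))))) (T.h (T.h (T.h (M (nat_lit 2741020611)) (T.h (P (nat_lit 0)) (T.h (P (nat_lit 1367229948084)) (T.h (P (nat_lit 0)) (M (nat_lit 8307788537971)))))) (T.h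 (P (nat_lit 0)) (T.h (T.h (M (nat_lit 24850371303)) (T.h (P (nat_lit 0)) (M (nat_lit 27480587816483)))) (T.h (P (nat_lit 0)) (P (nat_lit 13166944817488)))))) (T.h (T.h (P (nat_lit 0)) (T.h (T.h (P (nat_lit 0)) (P (nat_lit 4643840074632))) (P (nat_lit 0)))) (T.h (T.h (T.h (P (nat_lit 24299109560)) (T.h (P (nat_lit 0)) (P (nat_lit 4458007251236)))) (T.h (P (nat_lit 0)) (P (nat_lit 12281642234708)))) (T.h (P (nat_lit 0)) (M (nat_lit 955442423363)))))))) (P (nat_lit 0))))))))))) (T.h (T.h (P (nat_lit 0)) (T.h (P (nat_lit 0)) (T.h (P (nat_lit 0)) (T.h (P (nat_lit 0)) (T.h (P (nat_lit 0)) (T.h (T.h (T.h (P (nat_lit 0)) (T.h (T.h (P (nat_lit 0)) (T.h (M (nat_lit 13753853663)) (T.h (P (nat_lit 0)) (T.h (P (nat_lit 8235131811300)) (T.h (P (nat_lit 0)) (M (nat_lit 1407496825639))))))) (T.h (P (nat_lit 0)) (T.h (T.h (P (nat_lit 0)) (T.h (P (nat_lit 49806175832)) (T.h (P (nat_lit 0)) (M (nat_lit 86581946584883)))))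 (T.h (P (nat_lit 0)) (T.h (T.h (P (nat_lit 0)) (P (nat_lit 5228982610064))) (P (nat_lit 0)))))))) (T.h (T.h (T.h (P (nat_lit 2270491464)) (T.h (P (nat_lit 0)) (T.h (P (nat_lit 78860590644)) (T.h (P (nat_lit 0)) (P (nat_lit 2878474024452)))))) (T.h (P (nat_lit 0)) (T.h (T.h (M (nat_lit 6929845307)) (T.h (P (nat_lit 0)) (P (nat_lit 4398689160504)))) (T.h (P (nat_lit 0)) (M (nat_lit 270143222463)))))) (T.h (T.h (P (nat_lit 0)) (T.h (T.h (P (nat_lit 0)) (T.h (P (nat_lit 357097289124)) (T.h (P (nat_lit 0)) (P (nat_lit 34685970099560))))) (T.h (P (nat_lit 0)) (T.h (T.h (P (nat_lit 0)) (M (nat_lit 4588665984999))) (P (nat_lit 0)))))) (T.h (T.h (T.h (M (nat_lit 36798685715)) (T.h (P (nat_lit 0)) (P (nat_lit 1185726420524)))) (T.h (P (nat_lit 0)) (M (nat_lit 59471335607)))) (T.h (T.h (P (nat_lit 0)) (T.h (T.h (P (nat_lit 0)) (M (nat_lit 8370435649727))) (P (nat_lit 0)))) (M (nat_lit 417894551131)))))))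 (T.h (P (nat_lit 0)) (T.h (T.h (T.h (P (nat_lit 0)) (T.h (T.h (P (nat_lit 0)) (T.h (P (nat_lit 61704993636)) (T.h (P (nat_lit 0)) (T.h (M (nat_lit 8460316751655)) (T.h (P (nat_lit 0)) (P (nat_lit 50502653299076))))))) (T.h (P (nat_lit 0)) (T.h (T.h (P (nat_lit 0)) (T.h (M (nat_lit 243150063947)) (T.h (P (nat_lit 0)) (P (nat_lit 10201815208420))))) (T.h (P (nat_lit 0)) (T.h (T.h (P (nat_lit 0)) (M (nat_lit 2460908426987))) (P (nat_lit 0)))))))) (T.h (T.h (T.h (M (nat_lit 4968475511)) (T.h (P (nat_lit 0)) (T.h (P (nat_lit 576836749632)) (T.h (P (nat_lit 0)) (M (nat_lit 2863453597047)))))) (T.h (P (nat_lit 0)) (T.h (T.h (P (nat_lit 178549323964)) (T.h (P (nat_lit 0)) (P (nat_lit 10320264767120)))) (T.h (P (nat_lit 0)) (P (nat_lit 1915731352392)))))) (T.h (T.h (P (nat_lit 0)) (T.h (T.h (P (nat_lit 0)) (T.h (M (nat_lit 1169230121531)) (T.h (P (nat_lit 0)) (P (nat_lit 40191469935584))))) (T.h (P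 (nat_lit 0)) (T.h (T.h (P (nat_lit 0)) (P (nat_lit 38487826045724))) (P (nat_lit 0)))))) (T.h (T.h (T.h (P (nat_lit 73814394588)) (T.h (P (nat_lit 0)) (M (nat_lit 366352987395)))) (T.h (P (nat_lit 0)) (M (nat_lit 4865477592359)))) (T.h (T.h (P (nat_lit 0)) (T.h (T.h (P (nat_lit 0)) (P (nat_lit 11734533014248))) (P (nat_lit 0)))) (P (nat_lit 855948930188))))))) (P (nat_lit 0)))))))))) et0_2))
def et0_4 : T ℤ := (T.h (T.h (P (nat_lit 0)) (T.h (P (nat_lit 0)) (T.h (P (nat_lit 0)) (T.h (P (nat_lit 0)) (T.h (P (nat_lit 0)) (T.h (P (nat_lit 0)) (T.h (P (nat_lit 0)) (T.h (P (nat_lit 0)) (T.h (T.h (T.h (T.h (P (nat_lit 15594888)) (T.h (P (nat_lit 0)) (T.h (P (nat_lit 8951414800)) (T.h (P (nat_lit 0)) (T.h (M (nat_lit 493265236943)) (T.h (P (nat_lit 0)) (P (nat_lit 2308661302800)))))))) (T.h (P (nat_lit 0)) (T.h (T.h (M (nat_lit 476378103)) (T.h (P (nat_lit 0)) (T.h (P (nat_lit 49793365452)) (T.h (P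 (nat_lit 0)) (M (nat_lit 7026641425567)))))) (T.h (P (nat_lit 0)) (T.h (T.h (M (nat_lit 10335611775)) (T.h (P (nat_lit 0)) (P (nat_lit 3860883191940)))) (T.h (P (nat_lit 0)) (P (nat_lit 41356076396)))))))) (T.h (T.h (P (nat_lit 0)) (T.h (T.h (P (nat_lit 0)) (T.h (M (nat_lit 4807936479)) (T.h (P (nat_lit 0)) (M (nat_lit 3024331543191))))) (T.h (P (nat_lit 0)) (T.h (T.h (P (nat_lit 0)) (P (nat_lit 244164718320))) (P (nat_lit 0)))))) (T.h (T.h (T.h (M (nat_lit 476378103)) (T.h (P (nat_lit 0)) (T.h (P (nat_lit 49793365452)) (T.h (P (nat_lit 0)) (M (nat_lit 7026641425567)))))) (T.h (P (nat_lit 0)) (T.h (T.h (P (nat_lit 36145524616)) (T.h (P (nat_lit 0)) (M (nat_lit 8853375161391)))) (T.h (P (nat_lit 0)) (P (nat_lit 1059877487984)))))) (T.h (T.h (P (nat_lit 0)) (T.h (T.h (P (nat_lit 0)) (P (nat_lit 244164718320))) (P (nat_lit 0)))) (T.h (T.h (T.h (M (nat_lit 10335611775)) (T.h (P (nat_lit 0)) (P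 (nat_lit 3860883191940)))) (T.h (P (nat_lit 0)) (P (nat_lit 1059877487984)))) (T.h (P (nat_lit 0)) (P (nat_lit 41356076396)))))))) (T.h (P (nat_lit 0)) (T.h (T.h (T.h (T.h (M (nat_lit 24506239)) (T.h (P (nat_lit 0)) (T.h (M (nat_lit 14066508983)) (T.h (P (nat_lit 0)) (T.h (P (nat_lit 775131074872)) (T.h (P (nat_lit 0)) (M (nat_lit 3627895735727)))))))) (T.h (P (nat_lit 0)) (T.h (T.h (P (nat_lit 684465452)) (T.h (P (nat_lit 0)) (T.h (M (nat_lit 208486458883)) (T.h (P (nat_lit 0)) (P (nat_lit 14029677183456)))))) (T.h (P (nat_lit 0)) (T.h (T.h (P (nat_lit 24404320820)) (T.h (P (nat_lit 0)) (M (nat_lit 3085539376391)))) (T.h (P (nat_lit 0)) (M (nat_lit 185536867691)))))))) (T.h (T.h (P (nat_lit 0)) (T.h (T.h (P (nat_lit 0)) (T.h (P (nat_lit 7555328792)) (T.h (P (nat_lit 0)) (P (nat_lit 4752521010512))))) (T.h (P (nat_lit 0)) (T.h (T.h (P (nat_lit 0)) (M (nat_lit 79872503875))) (P (nat_lit 0))))))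 (T.h (T.h (T.h (P (nat_lit 684465452)) (T.h (P (nat_lit 0)) (T.h (M (nat_lit 208486458883)) (T.h (P (nat_lit 0)) (P (nat_lit 14029677183456)))))) (T.h (P (nat_lit 0)) (T.h (T.h (M (nat_lit 56800110399)) (T.h (P (nat_lit 0)) (P (nat_lit 13912446649200)))) (T.h (P (nat_lit 0)) (M (nat_lit 1887755975555)))))) (T.h (T.h (P (nat_lit 0)) (T.h (T.h (P (nat_lit 0)) (M (nat_lit 79872503875))) (P (nat_lit 0)))) (T.h (T.h (T.h (P (nat_lit 24404320820)) (T.h (P (nat_lit 0)) (M (nat_lit 3085539376391)))) (T.h (P (nat_lit 0)) (M (nat_lit 1887755975555)))) (T.h (P (nat_lit 0)) (M (nat_lit 185536867691)))))))) (P (nat_lit 0))))))))))))) (T.h (T.h (P (nat_lit 0)) (T.h (P (nat_lit 0)) (T.h (P (nat_lit 0)) (T.h (P (nat_lit 0)) (T.h (P (nat_lit 0)) (T.h (P (nat_lit 0)) (T.h (P (nat_lit 0)) (T.h (T.h (T.h (P (nat_lit 0)) (T.h (T.h (P (nat_lit 0)) (T.h (M (nat_lit 894095127)) (T.h (P (nat_lit 0)) (T.h (P (nat_lit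 36918942868)) (T.h (P (nat_lit 0)) (M (nat_lit 31656187968955))))))) (T.h (P (nat_lit 0)) (T.h (T.h (P (nat_lit 0)) (T.h (P (nat_lit 169616973732)) (T.h (P (nat_lit 0)) (P (nat_lit 7474034132668))))) (T.h (P (nat_lit 0)) (T.h (T.h (P (nat_lit 0)) (M (nat_lit 1837837636695))) (P (nat_lit 0)))))))) (T.h (T.h (T.h (M (nat_lit 114010627)) (T.h (P (nat_lit 0)) (T.h (P (nat_lit 23276552380)) (T.h (P (nat_lit 0)) (P (nat_lit 7416662447744)))))) (T.h (P (nat_lit 0)) (T.h (T.h (M (nat_lit 2868324747)) (T.h (P (nat_lit 0)) (M (nat_lit 50734677655)))) (T.h (P (nat_lit 0)) (M (nat_lit 462597727287)))))) (T.h (T.h (P (nat_lit 0)) (T.h (T.h (P (nat_lit 0)) (T.h (M (nat_lit 83476511179)) (T.h (P (nat_lit 0)) (M (nat_lit 5213492097731))))) (T.h (P (nat_lit 0)) (T.h (T.h (P (nat_lit 0)) (P (nat_lit 1064230397392))) (P (nat_lit 0)))))) (T.h (T.h (T.h (M (nat_lit 2217424347)) (T.h (P (nat_lit 0)) (P (nat_lit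 1144449466972)))) (T.h (P (nat_lit 0)) (P (nat_lit 4531008324)))) (T.h (T.h (P (nat_lit 0)) (T.h (T.h (P (nat_lit 0)) (P (nat_lit 3528862073664))) (P (nat_lit 0)))) (P (nat_lit 18545896296))))))) (T.h (P (nat_lit 0)) (T.h (T.h (T.h (P (nat_lit 0)) (T.h (T.h (P (nat_lit 0)) (T.h (M (nat_lit 19731896623)) (T.h (P (nat_lit 0)) (T.h (M (nat_lit 72181017303)) (T.h (P (nat_lit 0)) (P (nat_lit 107660658453612))))))) (T.h (P (nat_lit 0)) (T.h (T.h (P (nat_lit 0)) (T.h (M (nat_lit 271231086103)) (T.h (P (nat_lit 0)) (M (nat_lit 211828753355))))) (T.h (P (nat_lit 0)) (T.h (T.h (P (nat_lit 0)) (P (nat_lit 1665639113776))) (P (nat_lit 0)))))))) (T.h (T.h (T.h (P (nat_lit 51383376)) (T.h (P (nat_lit 0)) (T.h (M (nat_lit 88637288915)) (T.h (P (nat_lit 0)) (M (nat_lit 11594390421327)))))) (T.h (P (nat_lit 0)) (T.h (T.h (P (nat_lit 3214072092)) (T.h (P (nat_lit 0)) (M (nat_lit 3380082010711)))) (T.h (P (nat_lit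 0)) (P (nat_lit 924931867420)))))) (T.h (T.h (P (nat_lit 0)) (T.h (T.h (P (nat_lit 0)) (T.h (P (nat_lit 88138696008)) (T.h (P (nat_lit 0)) (P (nat_lit 16184987189052))))) (T.h (P (nat_lit 0)) (T.h (T.h (P (nat_lit 0)) (M (nat_lit 59719298539))) (P (nat_lit 0)))))) (T.h (T.h (T.h (P (nat_lit 5780723828)) (T.h (P (nat_lit 0)) (M (nat_lit 5223532980247)))) (T.h (P (nat_lit 0)) (M (nat_lit 477422562099)))) (T.h (T.h (P (nat_lit 0)) (T.h (T.h (P (nat_lit 0)) (M (nat_lit 9432570445495))) (P (nat_lit 0)))) (M (nat_lit 35413554967))))))) (P (nat_lit 0)))))))))))) et0_3))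
def et0_5 : T ℤ := (T.h (T.h (T.h (T.h (T.h (P (nat_lit 0)) (T.h (M (nat_lit 114010627)) (T.h (P (nat_lit 0)) (T.h (M (nat_lit 2217424347)) (T.h (P (nat_lit 0)) (P (nat_lit 18545896296))))))) (T.h (P (nat_lit 0)) (T.h (T.h (P (nat_lit 0)) (T.h (P (nat_lit 23276552380)) (T.h (P (nat_lit 0)) (P (nat_lit 1144449466972))))) (T.h (P (nat_lit 0)) (T.h (T.h (P (nat_lit 0)) (P (nat_lit 7416662447744))) (P (nat_lit 0))))))) (T.h (T.h (P (nat_lit 0)) (T.h (T.h (M (nat_lit 894095127)) (T.h (P (nat_lit 0)) (T.h (M (nat_lit 83476511179)) (T.h (P (nat_lit 0)) (P (nat_lit 3528862073664)))))) (T.h (P (nat_lit 0)) (T.h (T.h (P (nat_lit 36918942868)) (T.h (P (nat_lit 0)) (M (nat_lit 5213492097731)))) (T.h (P (nat_lit 0)) (M (nat_lit 31656187968955))))))) (T.h (T.h (T.h (P (nat_lit 0)) (T.h (M (nat_lit 2868324747)) (T.h (P (nat_lit 0)) (P (nat_lit 4531008324))))) (T.h (P (nat_lit 0)) (T.h (T.h (P (nat_lit 0))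 (M (nat_lit 50734677655))) (P (nat_lit 0))))) (T.h (T.h (P (nat_lit 0)) (T.h (T.h (P (nat_lit 169616973732)) (T.h (P (nat_lit 0)) (P (nat_lit 1064230397392)))) (T.h (P (nat_lit 0)) (P (nat_lit 7474034132668))))) (T.h (T.h (T.h (P (nat_lit 0)) (M (nat_lit 462597727287))) (P (nat_lit 0))) (T.h (T.h (P (nat_lit 0)) (M (nat_lit 1837837636695))) (P (nat_lit 0)))))))) (T.h (P (nat_lit 0)) (T.h (T.h (T.h (T.h (P (nat_lit 0)) (T.h (M (nat_lit 1858154275)) (T.h (P (nat_lit 0)) (T.h (P (nat_lit 228602320364)) (T.h (P (nat_lit 0)) (M (nat_lit 1798061721675))))))) (T.h (P (nat_lit 0)) (T.h (T.h (P (nat_lit 0)) (T.h (M (nat_lit 715624796919)) (T.h (P (nat_lit 0)) (M (nat_lit 34827371391))))) (T.h (P (nat_lit 0)) (T.h (T.h (P (nat_lit 0)) (P (nat_lit 146502740709292))) (P (nat_lit 0))))))) (T.h (T.h (P (nat_lit 0)) (T.h (T.h (M (nat_lit 12409465463)) (T.h (P (nat_lit 0)) (T.h (P (nat_lit 102959377444))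 (T.h (P (nat_lit 0)) (M (nat_lit 13262984176287)))))) (T.h (P (nat_lit 0)) (T.h (T.h (M (nat_lit 6529387513923)) (T.h (P (nat_lit 0)) (M (nat_lit 89313958300819)))) (T.h (P (nat_lit 0)) (M (nat_lit 80991489341619))))))) (T.h (T.h (T.h (P (nat_lit 0)) (T.h (M (nat_lit 171016141427)) (T.h (P (nat_lit 0)) (P (nat_lit 1569381262724))))) (T.h (P (nat_lit 0)) (T.h (T.h (P (nat_lit 0)) (P (nat_lit 5662119001352))) (P (nat_lit 0))))) (T.h (T.h (P (nat_lit 0)) (T.h (T.h (P (nat_lit 1539355602972)) (T.h (P (nat_lit 0)) (P (nat_lit 14521551038632)))) (T.h (P (nat_lit 0)) (M (nat_lit 46546979434251))))) (T.h (T.h (T.h (P (nat_lit 0)) (M (nat_lit 2982328363783))) (P (nat_lit 0))) (T.h (T.h (P (nat_lit 0)) (M (nat_lit 14190139463455))) (P (nat_lit 0)))))))) (P (nat_lit 0))))) (T.h (T.h (P (nat_lit 0)) (T.h (T.h (T.h (P (nat_lit 0)) (T.h (T.h (P (nat_lit 7678056144)) (T.h (P (nat_lit 0)) (T.h (P (nat_lit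 41045896012)) (T.h (P (nat_lit 0)) (P (nat_lit 2467986874320)))))) (T.h (P (nat_lit 0)) (T.h (T.h (P (nat_lit 45088623096)) (T.h (P (nat_lit 0)) (P (nat_lit 1074580420672)))) (T.h (P (nat_lit 0)) (P (nat_lit 4094382036272))))))) (T.h (T.h (T.h (P (nat_lit 0)) (T.h (M (nat_lit 487311791)) (T.h (P (nat_lit 0)) (T.h (P (nat_lit 164657637232)) (T.h (P (nat_lit 0)) (P (nat_lit 13275983253060))))))) (T.h (P (nat_lit 0)) (T.h (T.h (P (nat_lit 0)) (T.h (M (nat_lit 2790833868327)) (T.h (P (nat_lit 0)) (P (nat_lit 58078837108468))))) (T.h (P (nat_lit 0)) (T.h (T.h (P (nat_lit 0)) (P (nat_lit 42592568292736))) (P (nat_lit 0))))))) (T.h (T.h (P (nat_lit 0)) (T.h (T.h (P (nat_lit 41045896012)) (T.h (P (nat_lit 0)) (P (nat_lit 6108654230360)))) (T.h (P (nat_lit 0)) (P (nat_lit 1074580420672))))) (T.h (T.h (T.h (P (nat_lit 0)) (T.h (P (nat_lit 164657637232)) (T.h (P (nat_lit 0)) (M (nat_lit 341216769343)))))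 (T.h (P (nat_lit 0)) (T.h (T.h (P (nat_lit 0)) (P (nat_lit 58078837108468))) (P (nat_lit 0))))) (T.h (T.h (P (nat_lit 0)) (P (nat_lit 2467986874320))) (T.h (T.h (T.h (P (nat_lit 0)) (P (nat_lit 13275983253060))) (P (nat_lit 0))) (P (nat_lit 0)))))))) (P (nat_lit 0)))) (T.h (T.h (T.h (T.h (T.h (P (nat_lit 0)) (T.h (P (nat_lit 51383376)) (T.h (P (nat_lit 0)) (T.h (P (nat_lit 5780723828)) (T.h (P (nat_lit 0)) (M (nat_lit 35413554967))))))) (T.h (P (nat_lit 0)) (T.h (T.h (P (nat_lit 0)) (T.h (M (nat_lit 88637288915)) (T.h (P (nat_lit 0)) (M (nat_lit 5223532980247))))) (T.h (P (nat_lit 0)) (T.h (T.h (P (nat_lit 0)) (M (nat_lit 11594390421327))) (P (nat_lit 0))))))) (T.h (T.h (P (nat_lit 0)) (T.h (T.h (M (nat_lit 19731896623)) (T.h (P (nat_lit 0)) (T.h (P (nat_lit 88138696008)) (T.h (P (nat_lit 0)) (M (nat_lit 9432570445495)))))) (T.h (P (nat_lit 0)) (T.h (T.h (M (nat_lit 72181017303)) (T.h (P (nat_lit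 0)) (P (nat_lit 16184987189052)))) (T.h (P (nat_lit 0)) (P (nat_lit 107660658453612))))))) (T.h (T.h (T.h (P (nat_lit 0)) (T.h (P (nat_lit 3214072092)) (T.h (P (nat_lit 0)) (M (nat_lit 477422562099))))) (T.h (P (nat_lit 0)) (T.h (T.h (P (nat_lit 0)) (M (nat_lit 3380082010711))) (P (nat_lit 0))))) (T.h (T.h (P (nat_lit 0)) (T.h (T.h (M (nat_lit 271231086103)) (T.h (P (nat_lit 0)) (M (nat_lit 59719298539)))) (T.h (P (nat_lit 0)) (M (nat_lit 211828753355))))) (T.h (T.h (T.h (P (nat_lit 0)) (P (nat_lit 924931867420))) (P (nat_lit 0))) (T.h (T.h (P (nat_lit 0)) (P (nat_lit 1665639113776))) (P (nat_lit 0)))))))) (P (nat_lit 0))) (P (nat_lit 0)))))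
def et0_6 : T ℤ := (T.h (T.h (P (nat_lit 0)) (T.h (P (nat_lit 0)) (T.h (T.h (T.h (T.h (P (nat_lit 0)) (T.h (P (nat_lit 194212400)) (T.h (P (nat_lit 0)) (T.h (M (nat_lit 78065939751)) (T.h (P (nat_lit 0)) (P (nat_lit 1262840359700))))))) (T.h (P (nat_lit 0)) (T.h (T.h (P (nat_lit 0)) (T.h (P (nat_lit 34982029392)) (T.h (P (nat_lit 0)) (P (nat_lit 405159169784))))) (T.h (P (nat_lit 0)) (T.h (T.h (P (nat_lit 0)) (M (nat_lit 32469430145567))) (P (nat_lit 0))))))) (T.h (T.h (P (nat_lit 0)) (T.h (T.h (M (nat_lit 38147197239)) (T.h (P (nat_lit 0)) (T.h (P (nat_lit 193366473376)) (T.h (P (nat_lit 0)) (M (nat_lit 1041231066363)))))) (T.h (P (nat_lit 0)) (T.h (T.h (M (nat_lit 2644612159523)) (T.h (P (nat_lit 0)) (P (nat_lit 18983733843488)))) (T.h (P (nat_lit 0)) (P (nat_lit 18021075021236))))))) (T.h (T.h (T.h (P (nat_lit 0)) (T.h (P (nat_lit 35445446464)) (T.h (P (nat_lit 0)) (M (nat_lit 312770304675)))))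 (T.h (P (nat_lit 0)) (T.h (T.h (P (nat_lit 0)) (P (nat_lit 5611090088260))) (P (nat_lit 0))))) (T.h (T.h (P (nat_lit 0)) (T.h (T.h (P (nat_lit 52387848216)) (T.h (P (nat_lit 0)) (M (nat_lit 4139459132851)))) (T.h (P (nat_lit 0)) (M (nat_lit 1677877637287))))) (T.h (T.h (T.h (P (nat_lit 0)) (P (nat_lit 330710885556))) (P (nat_lit 0))) (T.h (T.h (P (nat_lit 0)) (P (nat_lit 8663185017112))) (P (nat_lit 0)))))))) (T.h (P (nat_lit 0)) (T.h (T.h (T.h (T.h (P (nat_lit 0)) (T.h (P (nat_lit 10366669104)) (T.h (P (nat_lit 0)) (T.h (M (nat_lit 201232817103)) (T.h (P (nat_lit 0)) (P (nat_lit 4147841570136))))))) (T.h (P (nat_lit 0)) (T.h (T.h (P (nat_lit 0)) (T.h (P (nat_lit 232794387804)) (T.h (P (nat_lit 0)) (P (nat_lit 73121542487532))))) (T.h (P (nat_lit 0)) (T.h (T.h (P (nat_lit 0)) (P (nat_lit 12259233023136))) (P (nat_lit 0))))))) (T.h (T.h (P (nat_lit 0)) (T.h (T.h (P (nat_lit 65294193316)) (T.h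 (P (nat_lit 0)) (T.h (M (nat_lit 13396079933103)) (T.h (P (nat_lit 0)) (M (nat_lit 14023782592907)))))) (T.h (P (nat_lit 0)) (T.h (T.h (P (nat_lit 1236508864492)) (T.h (P (nat_lit 0)) (P (nat_lit 37652462818124)))) (T.h (P (nat_lit 0)) (M (nat_lit 32107954118239))))))) (T.h (T.h (T.h (P (nat_lit 0)) (T.h (P (nat_lit 335364009376)) (T.h (P (nat_lit 0)) (M (nat_lit 6821580898351))))) (T.h (P (nat_lit 0)) (T.h (T.h (P (nat_lit 0)) (M (nat_lit 70178424353091))) (P (nat_lit 0))))) (T.h (T.h (P (nat_lit 0)) (T.h (T.h (M (nat_lit 1715443305399)) (T.h (P (nat_lit 0)) (P (nat_lit 156462115975044)))) (T.h (P (nat_lit 0)) (P (nat_lit 31549503715092))))) (T.h (T.h (T.h (P (nat_lit 0)) (P (nat_lit 7562524682636))) (P (nat_lit 0))) (T.h (T.h (P (nat_lit 0)) (P (nat_lit 42839645572108))) (P (nat_lit 0)))))))) (P (nat_lit 0))))))) (T.h (T.h (P (nat_lit 0)) (T.h (T.h (T.h (P (nat_lit 0)) (T.h (T.h (M (nat_lit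 1323814839)) (T.h (P (nat_lit 0)) (T.h (M (nat_lit 45141921803)) (T.h (P (nat_lit 0)) (P (nat_lit 297150536804)))))) (T.h (P (nat_lit 0)) (T.h (T.h (M (nat_lit 66059172439)) (T.h (P (nat_lit 0)) (M (nat_lit 2138155595283)))) (T.h (P (nat_lit 0)) (P (nat_lit 5984101061096))))))) (T.h (T.h (T.h (P (nat_lit 0)) (T.h (M (nat_lit 2274308831)) (T.h (P (nat_lit 0)) (T.h (M (nat_lit 44991340959)) (T.h (P (nat_lit 0)) (P (nat_lit 2339862961852))))))) (T.h (P (nat_lit 0)) (T.h (T.h (P (nat_lit 0)) (T.h (M (nat_lit 31066057199)) (T.h (P (nat_lit 0)) (M (nat_lit 3417195795767))))) (T.h (P (nat_lit 0)) (T.h (T.h (P (nat_lit 0)) (P (nat_lit 54112048721968))) (P (nat_lit 0))))))) (T.h (T.h (P (nat_lit 0)) (T.h (T.h (M (nat_lit 45141921803)) (T.h (P (nat_lit 0)) (M (nat_lit 750569287999)))) (T.h (P (nat_lit 0)) (M (nat_lit 2138155595283))))) (T.h (T.h (T.h (P (nat_lit 0)) (T.h (M (nat_lit 44991340959)) (T.h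 (P (nat_lit 0)) (P (nat_lit 2270243975392))))) (T.h (P (nat_lit 0)) (T.h (T.h (P (nat_lit 0)) (M (nat_lit 3417195795767))) (P (nat_lit 0))))) (T.h (T.h (P (nat_lit 0)) (P (nat_lit 297150536804))) (T.h (T.h (T.h (P (nat_lit 0)) (P (nat_lit 2339862961852))) (P (nat_lit 0))) (P (nat_lit 0)))))))) (T.h (P (nat_lit 0)) (T.h (T.h (T.h (P (nat_lit 0)) (T.h (T.h (M (nat_lit 12518696783)) (T.h (P (nat_lit 0)) (T.h (P (nat_lit 671047004276)) (T.h (P (nat_lit 0)) (M (nat_lit 7468888658527)))))) (T.h (P (nat_lit 0)) (T.h (T.h (M (nat_lit 104368986611)) (T.h (P (nat_lit 0)) (P (nat_lit 24446408956948)))) (T.h (P (nat_lit 0)) (M (nat_lit 20931372212475))))))) (T.h (T.h (T.h (P (nat_lit 0)) (T.h (M (nat_lit 20530120159)) (T.h (P (nat_lit 0)) (T.h (P (nat_lit 540303783140)) (T.h (P (nat_lit 0)) (M (nat_lit 43246740366103))))))) (T.h (P (nat_lit 0)) (T.h (T.h (P (nat_lit 0)) (T.h (P (nat_lit 7900280193520))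 (T.h (P (nat_lit 0)) (M (nat_lit 90448743636547))))) (T.h (P (nat_lit 0)) (T.h (T.h (P (nat_lit 0)) (M (nat_lit 470579508895055))) (P (nat_lit 0))))))) (T.h (T.h (P (nat_lit 0)) (T.h (T.h (M (nat_lit 288016615787)) (T.h (P (nat_lit 0)) (P (nat_lit 1064214134896)))) (T.h (P (nat_lit 0)) (M (nat_lit 2929160748095))))) (T.h (T.h (T.h (P (nat_lit 0)) (T.h (M (nat_lit 648273458315)) (T.h (P (nat_lit 0)) (P (nat_lit 6263706898812))))) (T.h (P (nat_lit 0)) (T.h (T.h (P (nat_lit 0)) (M (nat_lit 32646386618867))) (P (nat_lit 0))))) (T.h (T.h (P (nat_lit 0)) (M (nat_lit 4098018468147))) (T.h (T.h (T.h (P (nat_lit 0)) (M (nat_lit 27712918292443))) (P (nat_lit 0))) (P (nat_lit 0)))))))) (P (nat_lit 0)))))) et0_5))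
def et0_7 : T ℤ := (T.h (T.h (P (nat_lit 0)) (T.h (P (nat_lit 0)) (T.h (P (nat_lit 0)) (T.h (P (nat_lit 0)) (T.h (T.h (T.h (T.h (P (nat_lit 0)) (T.h (M (nat_lit 336812099)) (T.h (P (nat_lit 0)) (T.h (P (nat_lit 63880333092)) (T.h (P (nat_lit 0)) (P (nat_lit 1855884173668))))))) (T.h (P (nat_lit 0)) (T.h (T.h (P (nat_lit 0)) (T.h (P (nat_lit 148939436028)) (T.h (P (nat_lit 0)) (M (nat_lit 10129588388135))))) (T.h (P (nat_lit 0)) (T.h (T.h (P (nat_lit 0)) (P (nat_lit 412199573132))) (P (nat_lit 0))))))) (T.h (T.h (P (nat_lit 0)) (T.h (T.h (P (nat_lit 38217503048)) (T.h (P (nat_lit 0)) (T.h (P (nat_lit 3200040498660)) (T.h (P (nat_lit 0)) (M (nat_lit 5117294066583)))))) (T.h (P (nat_lit 0)) (T.h (T.h (M (nat_lit 17115355523)) (T.h (P (nat_lit 0)) (M (nat_lit 36377919877363)))) (T.h (P (nat_lit 0)) (M (nat_lit 5123967253955))))))) (T.h (T.h (T.h (P (nat_lit 0)) (T.h (M (nat_lit 130890979843))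 (T.h (P (nat_lit 0)) (P (nat_lit 9418316625904))))) (T.h (P (nat_lit 0)) (T.h (T.h (P (nat_lit 0)) (M (nat_lit 3794827816319))) (P (nat_lit 0))))) (T.h (T.h (P (nat_lit 0)) (T.h (T.h (M (nat_lit 746394479747)) (T.h (P (nat_lit 0)) (M (nat_lit 178493860578155)))) (T.h (P (nat_lit 0)) (P (nat_lit 11368955011364))))) (T.h (T.h (T.h (P (nat_lit 0)) (M (nat_lit 10447131595671))) (P (nat_lit 0))) (T.h (T.h (P (nat_lit 0)) (P (nat_lit 5506997230312))) (P (nat_lit 0)))))))) (T.h (P (nat_lit 0)) (T.h (T.h (T.h (T.h (P (nat_lit 0)) (T.h (M (nat_lit 12518696783)) (T.h (P (nat_lit 0)) (T.h (M (nat_lit 104368986611)) (T.h (P (nat_lit 0)) (M (nat_lit 20931372212475))))))) (T.h (P (nat_lit 0)) (T.h (T.h (P (nat_lit 0)) (T.h (P (nat_lit 671047004276)) (T.h (P (nat_lit 0)) (P (nat_lit 24446408956948))))) (T.h (P (nat_lit 0)) (T.h (T.h (P (nat_lit 0)) (M (nat_lit 7468888658527))) (P (nat_lit 0))))))) (T.h (T.h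 (P (nat_lit 0)) (T.h (T.h (M (nat_lit 20530120159)) (T.h (P (nat_lit 0)) (T.h (P (nat_lit 7900280193520)) (T.h (P (nat_lit 0)) (M (nat_lit 470579508895055)))))) (T.h (P (nat_lit 0)) (T.h (T.h (P (nat_lit 540303783140)) (T.h (P (nat_lit 0)) (M (nat_lit 90448743636547)))) (T.h (P (nat_lit 0)) (M (nat_lit 43246740366103))))))) (T.h (T.h (T.h (P (nat_lit 0)) (T.h (M (nat_lit 288016615787)) (T.h (P (nat_lit 0)) (M (nat_lit 2929160748095))))) (T.h (P (nat_lit 0)) (T.h (T.h (P (nat_lit 0)) (P (nat_lit 1064214134896))) (P (nat_lit 0))))) (T.h (T.h (P (nat_lit 0)) (T.h (T.h (M (nat_lit 648273458315)) (T.h (P (nat_lit 0)) (M (nat_lit 32646386618867)))) (T.h (P (nat_lit 0)) (P (nat_lit 6263706898812))))) (T.h (T.h (T.h (P (nat_lit 0)) (M (nat_lit 4098018468147))) (P (nat_lit 0))) (T.h (T.h (P (nat_lit 0)) (M (nat_lit 27712918292443))) (P (nat_lit 0)))))))) (P (nat_lit 0))))))))) (T.h (T.h (P (nat_lit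 0)) (T.h (P (nat_lit 0)) (T.h (P (nat_lit 0)) (T.h (T.h (T.h (P (nat_lit 0)) (T.h (T.h (M (nat_lit 336812099)) (T.h (P (nat_lit 0)) (T.h (P (nat_lit 148939436028)) (T.h (P (nat_lit 0)) (P (nat_lit 412199573132)))))) (T.h (P (nat_lit 0)) (T.h (T.h (P (nat_lit 63880333092)) (T.h (P (nat_lit 0)) (M (nat_lit 10129588388135)))) (T.h (P (nat_lit 0)) (P (nat_lit 1855884173668))))))) (T.h (T.h (T.h (P (nat_lit 0)) (T.h (P (nat_lit 38217503048)) (T.h (P (nat_lit 0)) (T.h (M (nat_lit 17115355523)) (T.h (P (nat_lit 0)) (M (nat_lit 5123967253955))))))) (T.h (P (nat_lit 0)) (T.h (T.h (P (nat_lit 0)) (T.h (P (nat_lit 3200040498660)) (T.h (P (nat_lit 0)) (M (nat_lit 36377919877363))))) (T.h (P (nat_lit 0)) (T.h (T.h (P (nat_lit 0)) (M (nat_lit 5117294066583))) (P (nat_lit 0))))))) (T.h (T.h (P (nat_lit 0)) (T.h (T.h (M (nat_lit 130890979843)) (T.h (P (nat_lit 0)) (M (nat_lit 3794827816319)))) (T.h (P (nat_lit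 0)) (P (nat_lit 9418316625904))))) (T.h (T.h (T.h (P (nat_lit 0)) (T.h (M (nat_lit 746394479747)) (T.h (P (nat_lit 0)) (P (nat_lit 11368955011364))))) (T.h (P (nat_lit 0)) (T.h (T.h (P (nat_lit 0)) (M (nat_lit 178493860578155))) (P (nat_lit 0))))) (T.h (T.h (P (nat_lit 0)) (M (nat_lit 10447131595671))) (T.h (T.h (T.h (P (nat_lit 0)) (P (nat_lit 5506997230312))) (P (nat_lit 0))) (P (nat_lit 0)))))))) (T.h (P (nat_lit 0)) (T.h (T.h (T.h (P (nat_lit 0)) (T.h (T.h (P (nat_lit 10366669104)) (T.h (P (nat_lit 0)) (T.h (P (nat_lit 232794387804)) (T.h (P (nat_lit 0)) (P (nat_lit 12259233023136)))))) (T.h (P (nat_lit 0)) (T.h (T.h (M (nat_lit 201232817103)) (T.h (P (nat_lit 0)) (P (nat_lit 73121542487532)))) (T.h (P (nat_lit 0)) (P (nat_lit 4147841570136))))))) (T.h (T.h (T.h (P (nat_lit 0)) (T.h (P (nat_lit 65294193316)) (T.h (P (nat_lit 0)) (T.h (P (nat_lit 1236508864492)) (T.h (P (nat_lit 0)) (M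 (nat_lit 32107954118239))))))) (T.h (P (nat_lit 0)) (T.h (T.h (P (nat_lit 0)) (T.h (M (nat_lit 13396079933103)) (T.h (P (nat_lit 0)) (P (nat_lit 37652462818124))))) (T.h (P (nat_lit 0)) (T.h (T.h (P (nat_lit 0)) (M (nat_lit 14023782592907))) (P (nat_lit 0))))))) (T.h (T.h (P (nat_lit 0)) (T.h (T.h (P (nat_lit 335364009376)) (T.h (P (nat_lit 0)) (M (nat_lit 70178424353091)))) (T.h (P (nat_lit 0)) (M (nat_lit 6821580898351))))) (T.h (T.h (T.h (P (nat_lit 0)) (T.h (M (nat_lit 1715443305399)) (T.h (P (nat_lit 0)) (P (nat_lit 31549503715092))))) (T.h (P (nat_lit 0)) (T.h (T.h (P (nat_lit 0)) (P (nat_lit 156462115975044))) (P (nat_lit 0))))) (T.h (T.h (P (nat_lit 0)) (P (nat_lit 7562524682636))) (T.h (T.h (T.h (P (nat_lit 0)) (P (nat_lit 42839645572108))) (P (nat_lit 0))) (P (nat_lit 0)))))))) (P (nat_lit 0)))))))) et0_6))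
def et0_8 : T ℤ := (T.h (T.h (P (nat_lit 0)) (T.h (P (nat_lit 0)) (T.h (P (nat_lit 0)) (T.h (P (nat_lit 0)) (T.h (P (nat_lit 0)) (T.h (P (nat_lit 0)) (T.h (T.h (T.h (T.h (P (nat_lit 0)) (T.h (M (nat_lit 1323814839)) (T.h (P (nat_lit 0)) (T.h (M (nat_lit 66059172439)) (T.h (P (nat_lit 0)) (P (nat_lit 5984101061096))))))) (T.h (P (nat_lit 0)) (T.h (T.h (P (nat_lit 0)) (T.h (M (nat_lit 45141921803)) (T.h (P (nat_lit 0)) (M (nat_lit 2138155595283))))) (T.h (P (nat_lit 0)) (T.h (T.h (P (nat_lit 0)) (P (nat_lit 297150536804))) (P (nat_lit 0))))))) (T.h (T.h (P (nat_lit 0)) (T.h (T.h (M (nat_lit 2274308831)) (T.h (P (nat_lit 0)) (T.h (M (nat_lit 31066057199)) (T.h (P (nat_lit 0)) (P (nat_lit 54112048721968)))))) (T.h (P (nat_lit 0)) (T.h (T.h (M (nat_lit 44991340959)) (T.h (P (nat_lit 0)) (M (nat_lit 3417195795767)))) (T.h (P (nat_lit 0)) (P (nat_lit 2339862961852))))))) (T.h (T.h (T.h (P (nat_lit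 0)) (T.h (M (nat_lit 45141921803)) (T.h (P (nat_lit 0)) (M (nat_lit 2138155595283))))) (T.h (P (nat_lit 0)) (T.h (T.h (P (nat_lit 0)) (M (nat_lit 750569287999))) (P (nat_lit 0))))) (T.h (T.h (P (nat_lit 0)) (T.h (T.h (M (nat_lit 44991340959)) (T.h (P (nat_lit 0)) (M (nat_lit 3417195795767)))) (T.h (P (nat_lit 0)) (P (nat_lit 2270243975392))))) (T.h (T.h (T.h (P (nat_lit 0)) (P (nat_lit 297150536804))) (P (nat_lit 0))) (T.h (T.h (P (nat_lit 0)) (P (nat_lit 2339862961852))) (P (nat_lit 0)))))))) (T.h (P (nat_lit 0)) (T.h (T.h (T.h (T.h (P (nat_lit 0)) (T.h (P (nat_lit 7678056144)) (T.h (P (nat_lit 0)) (T.h (P (nat_lit 45088623096)) (T.h (P (nat_lit 0)) (P (nat_lit 4094382036272))))))) (T.h (P (nat_lit 0)) (T.h (T.h (P (nat_lit 0)) (T.h (P (nat_lit 41045896012)) (T.h (P (nat_lit 0)) (P (nat_lit 1074580420672))))) (T.h (P (nat_lit 0)) (T.h (T.h (P (nat_lit 0)) (P (nat_lit 2467986874320))) (P (nat_lit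 0))))))) (T.h (T.h (P (nat_lit 0)) (T.h (T.h (M (nat_lit 487311791)) (T.h (P (nat_lit 0)) (T.h (M (nat_lit 2790833868327)) (T.h (P (nat_lit 0)) (P (nat_lit 42592568292736)))))) (T.h (P (nat_lit 0)) (T.h (T.h (P (nat_lit 164657637232)) (T.h (P (nat_lit 0)) (P (nat_lit 58078837108468)))) (T.h (P (nat_lit 0)) (P (nat_lit 13275983253060))))))) (T.h (T.h (T.h (P (nat_lit 0)) (T.h (P (nat_lit 41045896012)) (T.h (P (nat_lit 0)) (P (nat_lit 1074580420672))))) (T.h (P (nat_lit 0)) (T.h (T.h (P (nat_lit 0)) (P (nat_lit 6108654230360))) (P (nat_lit 0))))) (T.h (T.h (P (nat_lit 0)) (T.h (T.h (P (nat_lit 164657637232)) (T.h (P (nat_lit 0)) (P (nat_lit 58078837108468)))) (T.h (P (nat_lit 0)) (M (nat_lit 341216769343))))) (T.h (T.h (T.h (P (nat_lit 0)) (P (nat_lit 2467986874320))) (P (nat_lit 0))) (T.h (T.h (P (nat_lit 0)) (P (nat_lit 13275983253060))) (P (nat_lit 0)))))))) (P (nat_lit 0))))))))))) (T.h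 (T.h (P (nat_lit 0)) (T.h (P (nat_lit 0)) (T.h (P (nat_lit 0)) (T.h (P (nat_lit 0)) (T.h (P (nat_lit 0)) (T.h (T.h (T.h (P (nat_lit 0)) (T.h (T.h (P (nat_lit 194212400)) (T.h (P (nat_lit 0)) (T.h (P (nat_lit 34982029392)) (T.h (P (nat_lit 0)) (M (nat_lit 32469430145567)))))) (T.h (P (nat_lit 0)) (T.h (T.h (M (nat_lit 78065939751)) (T.h (P (nat_lit 0)) (P (nat_lit 405159169784)))) (T.h (P (nat_lit 0)) (P (nat_lit 1262840359700))))))) (T.h (T.h (T.h (P (nat_lit 0)) (T.h (M (nat_lit 38147197239)) (T.h (P (nat_lit 0)) (T.h (M (nat_lit 2644612159523)) (T.h (P (nat_lit 0)) (P (nat_lit 18021075021236))))))) (T.h (P (nat_lit 0)) (T.h (T.h (P (nat_lit 0)) (T.h (P (nat_lit 193366473376)) (T.h (P (nat_lit 0)) (P (nat_lit 18983733843488))))) (T.h (P (nat_lit 0)) (T.h (T.h (P (nat_lit 0)) (M (nat_lit 1041231066363))) (P (nat_lit 0))))))) (T.h (T.h (P (nat_lit 0)) (T.h (T.h (P (nat_lit 35445446464)) (T.h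 (P (nat_lit 0)) (P (nat_lit 5611090088260)))) (T.h (P (nat_lit 0)) (M (nat_lit 312770304675))))) (T.h (T.h (T.h (P (nat_lit 0)) (T.h (P (nat_lit 52387848216)) (T.h (P (nat_lit 0)) (M (nat_lit 1677877637287))))) (T.h (P (nat_lit 0)) (T.h (T.h (P (nat_lit 0)) (M (nat_lit 4139459132851))) (P (nat_lit 0))))) (T.h (T.h (P (nat_lit 0)) (P (nat_lit 330710885556))) (T.h (T.h (T.h (P (nat_lit 0)) (P (nat_lit 8663185017112))) (P (nat_lit 0))) (P (nat_lit 0)))))))) (T.h (P (nat_lit 0)) (T.h (T.h (T.h (P (nat_lit 0)) (T.h (T.h (M (nat_lit 1858154275)) (T.h (P (nat_lit 0)) (T.h (M (nat_lit 715624796919)) (T.h (P (nat_lit 0)) (P (nat_lit 146502740709292)))))) (T.h (P (nat_lit 0)) (T.h (T.h (P (nat_lit 228602320364)) (T.h (P (nat_lit 0)) (M (nat_lit 34827371391)))) (T.h (P (nat_lit 0)) (M (nat_lit 1798061721675))))))) (T.h (T.h (T.h (P (nat_lit 0)) (T.h (M (nat_lit 12409465463)) (T.h (P (nat_lit 0)) (T.h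 (M (nat_lit 6529387513923)) (T.h (P (nat_lit 0)) (M (nat_lit 80991489341619))))))) (T.h (P (nat_lit 0)) (T.h (T.h (P (nat_lit 0)) (T.h (P (nat_lit 102959377444)) (T.h (P (nat_lit 0)) (M (nat_lit 89313958300819))))) (T.h (P (nat_lit 0)) (T.h (T.h (P (nat_lit 0)) (M (nat_lit 13262984176287))) (P (nat_lit 0))))))) (T.h (T.h (P (nat_lit 0)) (T.h (T.h (M (nat_lit 171016141427)) (T.h (P (nat_lit 0)) (P (nat_lit 5662119001352)))) (T.h (P (nat_lit 0)) (P (nat_lit 1569381262724))))) (T.h (T.h (T.h (P (nat_lit 0)) (T.h (P (nat_lit 1539355602972)) (T.h (P (nat_lit 0)) (M (nat_lit 46546979434251))))) (T.h (P (nat_lit 0)) (T.h (T.h (P (nat_lit 0)) (P (nat_lit 14521551038632))) (P (nat_lit 0))))) (T.h (T.h (P (nat_lit 0)) (M (nat_lit 2982328363783))) (T.h (T.h (T.h (P (nat_lit 0)) (M (nat_lit 14190139463455))) (P (nat_lit 0))) (P (nat_lit 0)))))))) (P (nat_lit 0)))))))))) et0_7))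
def et0_9 : T ℤ := (T.h (T.h (T.h (T.h (T.h (P (nat_lit 30128108)) (T.h (P (nat_lit 0)) (T.h (P (nat_lit 1149631928)) (T.h (P (nat_lit 0)) (T.h (M (nat_lit 18596284487)) (T.h (P (nat_lit 0)) (P (nat_lit 564696938868)))))))) (T.h (P (nat_lit 0)) (T.h (T.h (M (nat_lit 14681066707)) (T.h (P (nat_lit 0)) (T.h (M (nat_lit 417292859023)) (T.h (P (nat_lit 0)) (P (nat_lit 6838140259312)))))) (T.h (P (nat_lit 0)) (T.h (T.h (P (nat_lit 368062827288)) (T.h (P (nat_lit 0)) (M (nat_lit 16451472673519)))) (T.h (P (nat_lit 0)) (M (nat_lit 15839874635779)))))))) (T.h (T.h (P (nat_lit 0)) (T.h (T.h (P (nat_lit 0)) (T.h (M (nat_lit 21975144131)) (T.h (P (nat_lit 0)) (M (nat_lit 287979988839))))) (T.h (P (nat_lit 0)) (T.h (T.h (P (nat_lit 0)) (P (nat_lit 181936539620))) (P (nat_lit 0)))))) (T.h (T.h (T.h (P (nat_lit 3616056120)) (T.h (P (nat_lit 0)) (T.h (P (nat_lit 12574033836)) (T.h (P (nat_lit 0)) (M (nat_lit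 1944566603231)))))) (T.h (P (nat_lit 0)) (T.h (T.h (M (nat_lit 218563427315)) (T.h (P (nat_lit 0)) (P (nat_lit 607059601804)))) (T.h (P (nat_lit 0)) (M (nat_lit 109835486103791)))))) (T.h (T.h (P (nat_lit 0)) (T.h (T.h (P (nat_lit 0)) (M (nat_lit 203355425975))) (P (nat_lit 0)))) (T.h (T.h (T.h (P (nat_lit 86678978460)) (T.h (P (nat_lit 0)) (M (nat_lit 1958735805163)))) (T.h (P (nat_lit 0)) (P (nat_lit 6362593244944)))) (T.h (P (nat_lit 0)) (M (nat_lit 1795331387947)))))))) (T.h (P (nat_lit 0)) (T.h (T.h (T.h (T.h (M (nat_lit 948428535)) (T.h (P (nat_lit 0)) (T.h (P (nat_lit 174162586224)) (T.h (P (nat_lit 0)) (T.h (M (nat_lit 708147791559)) (T.h (P (nat_lit 0)) (P (nat_lit 12097060602616)))))))) (T.h (P (nat_lit 0)) (T.h (T.h (M (nat_lit 57660172591)) (T.h (P (nat_lit 0)) (T.h (P (nat_lit 9103864942744)) (T.h (P (nat_lit 0)) (P (nat_lit 38342865115192)))))) (T.h (P (nat_lit 0)) (T.h (T.h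 (P (nat_lit 2562505814792)) (T.h (P (nat_lit 0)) (M (nat_lit 15057711883367)))) (T.h (P (nat_lit 0)) (M (nat_lit 82359646229167)))))))) (T.h (T.h (P (nat_lit 0)) (T.h (T.h (P (nat_lit 0)) (T.h (M (nat_lit 1302289294063)) (T.h (P (nat_lit 0)) (P (nat_lit 18264320337560))))) (T.h (P (nat_lit 0)) (T.h (T.h (P (nat_lit 0)) (P (nat_lit 32844191892248))) (P (nat_lit 0)))))) (T.h (T.h (T.h (P (nat_lit 174162586224)) (T.h (P (nat_lit 0)) (T.h (M (nat_lit 2432438624351)) (T.h (P (nat_lit 0)) (M (nat_lit 28928539885431)))))) (T.h (P (nat_lit 0)) (T.h (T.h (P (nat_lit 9103864942744)) (T.h (P (nat_lit 0)) (M (nat_lit 386488400117775)))) (T.h (P (nat_lit 0)) (M (nat_lit 15057711883367)))))) (T.h (T.h (P (nat_lit 0)) (T.h (T.h (P (nat_lit 0)) (P (nat_lit 18264320337560))) (P (nat_lit 0)))) (T.h (T.h (T.h (M (nat_lit 708147791559)) (T.h (P (nat_lit 0)) (M (nat_lit 28928539885431)))) (T.h (P (nat_lit 0))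 (P (nat_lit 38342865115192)))) (T.h (P (nat_lit 0)) (P (nat_lit 12097060602616)))))))) (P (nat_lit 0))))) (T.h (T.h (P (nat_lit 0)) (T.h (T.h (T.h (P (nat_lit 0)) (T.h (T.h (P (nat_lit 0)) (T.h (M (nat_lit 12409465463)) (T.h (P (nat_lit 0)) (T.h (P (nat_lit 1539355602972)) (T.h (P (nat_lit 0)) (M (nat_lit 14190139463455))))))) (T.h (P (nat_lit 0)) (T.h (T.h (P (nat_lit 0)) (T.h (M (nat_lit 6529387513923)) (T.h (P (nat_lit 0)) (M (nat_lit 46546979434251))))) (T.h (P (nat_lit 0)) (T.h (T.h (P (nat_lit 0)) (M (nat_lit 80991489341619))) (P (nat_lit 0)))))))) (T.h (T.h (T.h (M (nat_lit 1858154275)) (T.h (P (nat_lit 0)) (T.h (M (nat_lit 171016141427)) (T.h (P (nat_lit 0)) (M (nat_lit 2982328363783)))))) (T.h (P (nat_lit 0)) (T.h (T.h (M (nat_lit 715624796919)) (T.h (P (nat_lit 0)) (P (nat_lit 5662119001352)))) (T.h (P (nat_lit 0)) (P (nat_lit 146502740709292)))))) (T.h (T.h (P (nat_lit 0)) (T.h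 (T.h (P (nat_lit 0)) (T.h (P (nat_lit 102959377444)) (T.h (P (nat_lit 0)) (P (nat_lit 14521551038632))))) (T.h (P (nat_lit 0)) (T.h (T.h (P (nat_lit 0)) (M (nat_lit 89313958300819))) (P (nat_lit 0)))))) (T.h (T.h (T.h (P (nat_lit 228602320364)) (T.h (P (nat_lit 0)) (P (nat_lit 1569381262724)))) (T.h (P (nat_lit 0)) (M (nat_lit 34827371391)))) (T.h (T.h (P (nat_lit 0)) (T.h (T.h (P (nat_lit 0)) (M (nat_lit 13262984176287))) (P (nat_lit 0)))) (M (nat_lit 1798061721675))))))) (P (nat_lit 0)))) (T.h (T.h (T.h (T.h (T.h (M (nat_lit 46945359)) (T.h (P (nat_lit 0)) (T.h (M (nat_lit 2741020611)) (T.h (P (nat_lit 0)) (T.h (P (nat_lit 24299109560)) (T.h (P (nat_lit 0)) (M (nat_lit 955442423363)))))))) (T.h (P (nat_lit 0)) (T.h (T.h (P (nat_lit 17419653284)) (T.h (P (nat_lit 0)) (T.h (P (nat_lit 1367229948084)) (T.h (P (nat_lit 0)) (P (nat_lit 4458007251236)))))) (T.h (P (nat_lit 0)) (T.h (T.h (M (nat_lit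 268974229215)) (T.h (P (nat_lit 0)) (M (nat_lit 8307788537971)))) (T.h (P (nat_lit 0)) (M (nat_lit 32620498733195)))))))) (T.h (T.h (P (nat_lit 0)) (T.h (T.h (P (nat_lit 0)) (T.h (P (nat_lit 184433471332)) (T.h (P (nat_lit 0)) (P (nat_lit 4643840074632))))) (T.h (P (nat_lit 0)) (T.h (T.h (P (nat_lit 0)) (M (nat_lit 13665014530023))) (P (nat_lit 0)))))) (T.h (T.h (T.h (M (nat_lit 8240506955)) (T.h (P (nat_lit 0)) (T.h (M (nat_lit 24850371303)) (T.h (P (nat_lit 0)) (P (nat_lit 12281642234708)))))) (T.h (P (nat_lit 0)) (T.h (T.h (P (nat_lit 2589775590952)) (T.h (P (nat_lit 0)) (M (nat_lit 27480587816483)))) (T.h (P (nat_lit 0)) (M (nat_lit 19540580307203)))))) (T.h (T.h (P (nat_lit 0)) (T.h (T.h (P (nat_lit 0)) (M (nat_lit 3759122180439))) (P (nat_lit 0)))) (T.h (T.h (T.h (M (nat_lit 100403257855)) (T.h (P (nat_lit 0)) (P (nat_lit 13166944817488)))) (T.h (P (nat_lit 0)) (M (nat_lit 32420310679327))))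 (T.h (P (nat_lit 0)) (M (nat_lit 396537227327)))))))) (P (nat_lit 0))) (P (nat_lit 0)))))
def et0_10 : T ℤ := (T.h (T.h (P (nat_lit 0)) (T.h (P (nat_lit 0)) (T.h (T.h (T.h (T.h (M (nat_lit 79338175)) (T.h (P (nat_lit 0)) (T.h (M (nat_lit 37935907575)) (T.h (P (nat_lit 0)) (T.h (P (nat_lit 493281081036)) (T.h (P (nat_lit 0)) (M (nat_lit 8801037045783)))))))) (T.h (P (nat_lit 0)) (T.h (T.h (P (nat_lit 6895255216)) (T.h (P (nat_lit 0)) (T.h (M (nat_lit 4066782511959)) (T.h (P (nat_lit 0)) (P (nat_lit 38878094183776)))))) (T.h (P (nat_lit 0)) (T.h (T.h (P (nat_lit 131546175216)) (T.h (P (nat_lit 0)) (P (nat_lit 14811217483108)))) (T.h (P (nat_lit 0)) (P (nat_lit 4051752645976)))))))) (T.h (T.h (P (nat_lit 0)) (T.h (T.h (P (nat_lit 0)) (T.h (M (nat_lit 81650455719)) (T.h (P (nat_lit 0)) (P (nat_lit 17188792709200))))) (T.h (P (nat_lit 0)) (T.h (T.h (P (nat_lit 0)) (P (nat_lit 395445769296))) (P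 (nat_lit 0)))))) (T.h (T.h (T.h (M (nat_lit 37935907575)) (T.h (P (nat_lit 0)) (T.h (M (nat_lit 207137230895)) (T.h (P (nat_lit 0)) (M (nat_lit 1869278154055)))))) (T.h (P (nat_lit 0)) (T.h (T.h (M (nat_lit 4066782511959)) (T.h (P (nat_lit 0)) (M (nat_lit 39716800801287)))) (T.h (P (nat_lit 0)) (P (nat_lit 14811217483108)))))) (T.h (T.h (P (nat_lit 0)) (T.h (T.h (P (nat_lit 0)) (P (nat_lit 17188792709200))) (P (nat_lit 0)))) (T.h (T.h (T.h (P (nat_lit 493281081036)) (T.h (P (nat_lit 0)) (M (nat_lit 1869278154055)))) (T.h (P (nat_lit 0)) (P (nat_lit 38878094183776)))) (T.h (P (nat_lit 0)) (M (nat_lit 8801037045783)))))))) (T.h (P (nat_lit 0)) (T.h (T.h (T.h (T.h (P (nat_lit 1669016184)) (T.h (P (nat_lit 0)) (T.h (M (nat_lit 48203625359)) (T.h (P (nat_lit 0)) (T.h (M (nat_lit 1465130085891)) (T.h (P (nat_lit 0)) (P (nat_lit 16407910540648)))))))) (T.h (P (nat_lit 0)) (T.h (T.h (M (nat_lit 48203625359))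 (T.h (P (nat_lit 0)) (T.h (M (nat_lit 2371077620119)) (T.h (P (nat_lit 0)) (M (nat_lit 223027719349291)))))) (T.h (P (nat_lit 0)) (T.h (T.h (M (nat_lit 1465130085891)) (T.h (P (nat_lit 0)) (M (nat_lit 223027719349291)))) (T.h (P (nat_lit 0)) (P (nat_lit 16407910540648)))))))) (T.h (T.h (P (nat_lit 0)) (T.h (T.h (P (nat_lit 0)) (T.h (M (nat_lit 182961985095)) (T.h (P (nat_lit 0)) (M (nat_lit 28808214024611))))) (T.h (P (nat_lit 0)) (T.h (T.h (P (nat_lit 0)) (M (nat_lit 28808214024611))) (P (nat_lit 0)))))) (T.h (T.h (T.h (M (nat_lit 297127905095)) (T.h (P (nat_lit 0)) (T.h (M (nat_lit 2488254634403)) (T.h (P (nat_lit 0)) (P (nat_lit 11666287696712)))))) (T.h (P (nat_lit 0)) (T.h (T.h (M (nat_lit 2488254634403)) (T.h (P (nat_lit 0)) (P (nat_lit 594510725449872)))) (T.h (P (nat_lit 0)) (P (nat_lit 11666287696712)))))) (T.h (T.h (P (nat_lit 0)) (T.h (T.h (P (nat_lit 0)) (M (nat_lit 167424860551079)))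 (P (nat_lit 0)))) (T.h (T.h (T.h (M (nat_lit 83337004079)) (T.h (P (nat_lit 0)) (M (nat_lit 190738411686239)))) (T.h (P (nat_lit 0)) (M (nat_lit 190738411686239)))) (T.h (P (nat_lit 0)) (M (nat_lit 5363931367959)))))))) (P (nat_lit 0))))))) (T.h (T.h (P (nat_lit 0)) (T.h (T.h (T.h (P (nat_lit 0)) (T.h (T.h (P (nat_lit 0)) (T.h (M (nat_lit 38147197239)) (T.h (P (nat_lit 0)) (T.h (P (nat_lit 52387848216)) (T.h (P (nat_lit 0)) (P (nat_lit 8663185017112))))))) (T.h (P (nat_lit 0)) (T.h (T.h (P (nat_lit 0)) (T.h (M (nat_lit 2644612159523)) (T.h (P (nat_lit 0)) (M (nat_lit 1677877637287))))) (T.h (P (nat_lit 0)) (T.h (T.h (P (nat_lit 0)) (P (nat_lit 18021075021236))) (P (nat_lit 0)))))))) (T.h (T.h (T.h (P (nat_lit 194212400)) (T.h (P (nat_lit 0)) (T.h (P (nat_lit 35445446464)) (T.h (P (nat_lit 0)) (P (nat_lit 330710885556)))))) (T.h (P (nat_lit 0)) (T.h (T.h (P (nat_lit 34982029392)) (T.h (P (nat_lit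 0)) (P (nat_lit 5611090088260)))) (T.h (P (nat_lit 0)) (M (nat_lit 32469430145567)))))) (T.h (T.h (P (nat_lit 0)) (T.h (T.h (P (nat_lit 0)) (T.h (P (nat_lit 193366473376)) (T.h (P (nat_lit 0)) (M (nat_lit 4139459132851))))) (T.h (P (nat_lit 0)) (T.h (T.h (P (nat_lit 0)) (P (nat_lit 18983733843488))) (P (nat_lit 0)))))) (T.h (T.h (T.h (M (nat_lit 78065939751)) (T.h (P (nat_lit 0)) (M (nat_lit 312770304675)))) (T.h (P (nat_lit 0)) (P (nat_lit 405159169784)))) (T.h (T.h (P (nat_lit 0)) (T.h (T.h (P (nat_lit 0)) (M (nat_lit 1041231066363))) (P (nat_lit 0)))) (P (nat_lit 1262840359700))))))) (T.h (P (nat_lit 0)) (T.h (T.h (T.h (P (nat_lit 0)) (T.h (T.h (P (nat_lit 0)) (T.h (P (nat_lit 310346928188)) (T.h (P (nat_lit 0)) (T.h (M (nat_lit 46347975123)) (T.h (P (nat_lit 0)) (P (nat_lit 58445859643996))))))) (T.h (P (nat_lit 0)) (T.h (T.h (P (nat_lit 0)) (T.h (P (nat_lit 20214433508808)) (T.h (P (nat_lit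 0)) (P (nat_lit 51121210928348))))) (T.h (P (nat_lit 0)) (T.h (T.h (P (nat_lit 0)) (M (nat_lit 86679835090815))) (P (nat_lit 0)))))))) (T.h (T.h (T.h (M (nat_lit 3798648567)) (T.h (P (nat_lit 0)) (T.h (M (nat_lit 854623582383)) (T.h (P (nat_lit 0)) (M (nat_lit 1885279900459)))))) (T.h (P (nat_lit 0)) (T.h (T.h (P (nat_lit 1640820403992)) (T.h (P (nat_lit 0)) (P (nat_lit 21119555171352)))) (T.h (P (nat_lit 0)) (P (nat_lit 12703795860492)))))) (T.h (T.h (P (nat_lit 0)) (T.h (T.h (P (nat_lit 0)) (T.h (M (nat_lit 14479106483951)) (T.h (P (nat_lit 0)) (M (nat_lit 73864881973651))))) (T.h (P (nat_lit 0)) (T.h (T.h (P (nat_lit 0)) (P (nat_lit 52496944114208))) (P (nat_lit 0)))))) (T.h (T.h (T.h (M (nat_lit 609419066211)) (T.h (P (nat_lit 0)) (M (nat_lit 5435131585839)))) (T.h (P (nat_lit 0)) (P (nat_lit 47158804252032)))) (T.h (T.h (P (nat_lit 0)) (T.h (T.h (P (nat_lit 0)) (P (nat_lit 210626504948816)))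 (P (nat_lit 0)))) (P (nat_lit 6597337231100))))))) (P (nat_lit 0)))))) et0_9))
def et0_11 : T ℤ := (T.h (T.h (P (nat_lit 0)) (T.h (P (nat_lit 0)) (T.h (P (nat_lit 0)) (T.h (P (nat_lit 0)) (T.h (T.h (T.h (T.h (M (nat_lit 79338175)) (T.h (P (nat_lit 0)) (T.h (P (nat_lit 6895255216)) (T.h (P (nat_lit 0)) (T.h (P (nat_lit 131546175216)) (T.h (P (nat_lit 0)) (P (nat_lit 4051752645976)))))))) (T.h (P (nat_lit 0)) (T.h (T.h (M (nat_lit 37935907575)) (T.h (P (nat_lit 0)) (T.h (M (nat_lit 4066782511959)) (T.h (P (nat_lit 0)) (P (nat_lit 14811217483108)))))) (T.h (P (nat_lit 0)) (T.h (T.h (P (nat_lit 493281081036)) (T.h (P (nat_lit 0)) (P (nat_lit 38878094183776)))) (T.h (P (nat_lit 0)) (M (nat_lit 8801037045783)))))))) (T.h (T.h (P (nat_lit 0)) (T.h (T.h (P (nat_lit 0)) (T.h (M (nat_lit 81650455719)) (T.h (P (nat_lit 0)) (P (nat_lit 395445769296))))) (T.h (P (nat_lit 0)) (T.h (T.h (P (nat_lit 0)) (P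 (nat_lit 17188792709200))) (P (nat_lit 0)))))) (T.h (T.h (T.h (M (nat_lit 37935907575)) (T.h (P (nat_lit 0)) (T.h (M (nat_lit 4066782511959)) (T.h (P (nat_lit 0)) (P (nat_lit 14811217483108)))))) (T.h (P (nat_lit 0)) (T.h (T.h (M (nat_lit 207137230895)) (T.h (P (nat_lit 0)) (M (nat_lit 39716800801287)))) (T.h (P (nat_lit 0)) (M (nat_lit 1869278154055)))))) (T.h (T.h (P (nat_lit 0)) (T.h (T.h (P (nat_lit 0)) (P (nat_lit 17188792709200))) (P (nat_lit 0)))) (T.h (T.h (T.h (P (nat_lit 493281081036)) (T.h (P (nat_lit 0)) (P (nat_lit 38878094183776)))) (T.h (P (nat_lit 0)) (M (nat_lit 1869278154055)))) (T.h (P (nat_lit 0)) (M (nat_lit 8801037045783)))))))) (T.h (P (nat_lit 0)) (T.h (T.h (T.h (T.h (M (nat_lit 948428535)) (T.h (P (nat_lit 0)) (T.h (M (nat_lit 57660172591)) (T.h (P (nat_lit 0)) (T.h (P (nat_lit 2562505814792)) (T.h (P (nat_lit 0)) (M (nat_lit 82359646229167)))))))) (T.h (P (nat_lit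 0)) (T.h (T.h (P (nat_lit 174162586224)) (T.h (P (nat_lit 0)) (T.h (P (nat_lit 9103864942744)) (T.h (P (nat_lit 0)) (M (nat_lit 15057711883367)))))) (T.h (P (nat_lit 0)) (T.h (T.h (M (nat_lit 708147791559)) (T.h (P (nat_lit 0)) (P (nat_lit 38342865115192)))) (T.h (P (nat_lit 0)) (P (nat_lit 12097060602616)))))))) (T.h (T.h (P (nat_lit 0)) (T.h (T.h (P (nat_lit 0)) (T.h (M (nat_lit 1302289294063)) (T.h (P (nat_lit 0)) (P (nat_lit 32844191892248))))) (T.h (P (nat_lit 0)) (T.h (T.h (P (nat_lit 0)) (P (nat_lit 18264320337560))) (P (nat_lit 0)))))) (T.h (T.h (T.h (P (nat_lit 174162586224)) (T.h (P (nat_lit 0)) (T.h (P (nat_lit 9103864942744)) (T.h (P (nat_lit 0)) (M (nat_lit 15057711883367)))))) (T.h (P (nat_lit 0)) (T.h (T.h (M (nat_lit 2432438624351)) (T.h (P (nat_lit 0)) (M (nat_lit 386488400117775)))) (T.h (P (nat_lit 0)) (M (nat_lit 28928539885431)))))) (T.h (T.h (P (nat_lit 0)) (T.h (T.h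 (P (nat_lit 0)) (P (nat_lit 18264320337560))) (P (nat_lit 0)))) (T.h (T.h (T.h (M (nat_lit 708147791559)) (T.h (P (nat_lit 0)) (P (nat_lit 38342865115192)))) (T.h (P (nat_lit 0)) (M (nat_lit 28928539885431)))) (T.h (P (nat_lit 0)) (P (nat_lit 12097060602616)))))))) (P (nat_lit 0))))))))) (T.h (T.h (P (nat_lit 0)) (T.h (P (nat_lit 0)) (T.h (P (nat_lit 0)) (T.h (T.h (T.h (P (nat_lit 0)) (T.h (T.h (P (nat_lit 0)) (T.h (M (nat_lit 61545354535)) (T.h (P (nat_lit 0)) (T.h (P (nat_lit 1552476373052)) (T.h (P (nat_lit 0)) (P (nat_lit 54139204613132))))))) (T.h (P (nat_lit 0)) (T.h (T.h (P (nat_lit 0)) (T.h (P (nat_lit 1552476373052)) (T.h (P (nat_lit 0)) (M (nat_lit 29884919539679))))) (T.h (P (nat_lit 0)) (T.h (T.h (P (nat_lit 0)) (P (nat_lit 54139204613132))) (P (nat_lit 0)))))))) (T.h (T.h (T.h (P (nat_lit 819309936)) (T.h (P (nat_lit 0)) (T.h (M (nat_lit 644052308115)) (T.h (P (nat_lit 0)) (P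 (nat_lit 3485295898208)))))) (T.h (P (nat_lit 0)) (T.h (T.h (M (nat_lit 644052308115)) (T.h (P (nat_lit 0)) (M (nat_lit 29234568268951)))) (T.h (P (nat_lit 0)) (P (nat_lit 3485295898208)))))) (T.h (T.h (P (nat_lit 0)) (T.h (T.h (P (nat_lit 0)) (T.h (P (nat_lit 6693183202408)) (T.h (P (nat_lit 0)) (M (nat_lit 34746515270859))))) (T.h (P (nat_lit 0)) (T.h (T.h (P (nat_lit 0)) (M (nat_lit 34746515270859))) (P (nat_lit 0)))))) (T.h (T.h (T.h (P (nat_lit 275714310608)) (T.h (P (nat_lit 0)) (M (nat_lit 5810515058899)))) (T.h (P (nat_lit 0)) (M (nat_lit 5810515058899)))) (T.h (T.h (P (nat_lit 0)) (T.h (T.h (P (nat_lit 0)) (M (nat_lit 88726124769071))) (P (nat_lit 0)))) (M (nat_lit 2505680530919))))))) (T.h (P (nat_lit 0)) (T.h (T.h (T.h (P (nat_lit 0)) (T.h (T.h (P (nat_lit 0)) (T.h (P (nat_lit 310346928188)) (T.h (P (nat_lit 0)) (T.h (P (nat_lit 20214433508808)) (T.h (P (nat_lit 0)) (M (nat_lit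 86679835090815))))))) (T.h (P (nat_lit 0)) (T.h (T.h (P (nat_lit 0)) (T.h (M (nat_lit 46347975123)) (T.h (P (nat_lit 0)) (P (nat_lit 51121210928348))))) (T.h (P (nat_lit 0)) (T.h (T.h (P (nat_lit 0)) (P (nat_lit 58445859643996))) (P (nat_lit 0)))))))) (T.h (T.h (T.h (M (nat_lit 3798648567)) (T.h (P (nat_lit 0)) (T.h (P (nat_lit 1640820403992)) (T.h (P (nat_lit 0)) (P (nat_lit 12703795860492)))))) (T.h (P (nat_lit 0)) (T.h (T.h (M (nat_lit 854623582383)) (T.h (P (nat_lit 0)) (P (nat_lit 21119555171352)))) (T.h (P (nat_lit 0)) (M (nat_lit 1885279900459)))))) (T.h (T.h (P (nat_lit 0)) (T.h (T.h (P (nat_lit 0)) (T.h (M (nat_lit 14479106483951)) (T.h (P (nat_lit 0)) (P (nat_lit 52496944114208))))) (T.h (P (nat_lit 0)) (T.h (T.h (P (nat_lit 0)) (M (nat_lit 73864881973651))) (P (nat_lit 0)))))) (T.h (T.h (T.h (M (nat_lit 609419066211)) (T.h (P (nat_lit 0)) (P (nat_lit 47158804252032)))) (T.h (P (nat_lit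 0)) (M (nat_lit 5435131585839)))) (T.h (T.h (P (nat_lit 0)) (T.h (T.h (P (nat_lit 0)) (P (nat_lit 210626504948816))) (P (nat_lit 0)))) (P (nat_lit 6597337231100))))))) (P (nat_lit 0)))))))) et0_10))
def et0_12 : T ℤ := (T.h (T.h (P (nat_lit 0)) (T.h (P (nat_lit 0)) (T.h (P (nat_lit 0)) (T.h (P (nat_lit 0)) (T.h (P (nat_lit 0)) (T.h (P (nat_lit 0)) (T.h (T.h (T.h (T.h (P (nat_lit 30128108)) (T.h (P (nat_lit 0)) (T.h (M (nat_lit 14681066707)) (T.h (P (nat_lit 0)) (T.h (P (nat_lit 368062827288)) (T.h (P (nat_lit 0)) (M (nat_lit 15839874635779)))))))) (T.h (P (nat_lit 0)) (T.h (T.h (P (nat_lit 1149631928)) (T.h (P (nat_lit 0)) (T.h (M (nat_lit 417292859023)) (T.h (P (nat_lit 0)) (M (nat_lit 16451472673519)))))) (T.h (P (nat_lit 0)) (T.h (T.h (M (nat_lit 18596284487)) (T.h (P (nat_lit 0)) (P (nat_lit 6838140259312)))) (T.h (P (nat_lit 0)) (P (nat_lit 564696938868)))))))) (T.h (T.h (P (nat_lit 0))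 (T.h (T.h (P (nat_lit 0)) (T.h (M (nat_lit 21975144131)) (T.h (P (nat_lit 0)) (P (nat_lit 181936539620))))) (T.h (P (nat_lit 0)) (T.h (T.h (P (nat_lit 0)) (M (nat_lit 287979988839))) (P (nat_lit 0)))))) (T.h (T.h (T.h (P (nat_lit 3616056120)) (T.h (P (nat_lit 0)) (T.h (M (nat_lit 218563427315)) (T.h (P (nat_lit 0)) (M (nat_lit 109835486103791)))))) (T.h (P (nat_lit 0)) (T.h (T.h (P (nat_lit 12574033836)) (T.h (P (nat_lit 0)) (P (nat_lit 607059601804)))) (T.h (P (nat_lit 0)) (M (nat_lit 1944566603231)))))) (T.h (T.h (P (nat_lit 0)) (T.h (T.h (P (nat_lit 0)) (M (nat_lit 203355425975))) (P (nat_lit 0)))) (T.h (T.h (T.h (P (nat_lit 86678978460)) (T.h (P (nat_lit 0)) (P (nat_lit 6362593244944)))) (T.h (P (nat_lit 0)) (M (nat_lit 1958735805163)))) (T.h (P (nat_lit 0)) (M (nat_lit 1795331387947)))))))) (T.h (P (nat_lit 0)) (T.h (T.h (T.h (T.h (M (nat_lit 46945359)) (T.h (P (nat_lit 0)) (T.h (P (nat_lit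 17419653284)) (T.h (P (nat_lit 0)) (T.h (M (nat_lit 268974229215)) (T.h (P (nat_lit 0)) (M (nat_lit 32620498733195)))))))) (T.h (P (nat_lit 0)) (T.h (T.h (M (nat_lit 2741020611)) (T.h (P (nat_lit 0)) (T.h (P (nat_lit 1367229948084)) (T.h (P (nat_lit 0)) (M (nat_lit 8307788537971)))))) (T.h (P (nat_lit 0)) (T.h (T.h (P (nat_lit 24299109560)) (T.h (P (nat_lit 0)) (P (nat_lit 4458007251236)))) (T.h (P (nat_lit 0)) (M (nat_lit 955442423363)))))))) (T.h (T.h (P (nat_lit 0)) (T.h (T.h (P (nat_lit 0)) (T.h (P (nat_lit 184433471332)) (T.h (P (nat_lit 0)) (M (nat_lit 13665014530023))))) (T.h (P (nat_lit 0)) (T.h (T.h (P (nat_lit 0)) (P (nat_lit 4643840074632))) (P (nat_lit 0)))))) (T.h (T.h (T.h (M (nat_lit 8240506955)) (T.h (P (nat_lit 0)) (T.h (P (nat_lit 2589775590952)) (T.h (P (nat_lit 0)) (M (nat_lit 19540580307203)))))) (T.h (P (nat_lit 0)) (T.h (T.h (M (nat_lit 24850371303)) (T.h (P (nat_lit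 0)) (M (nat_lit 27480587816483)))) (T.h (P (nat_lit 0)) (P (nat_lit 12281642234708)))))) (T.h (T.h (P (nat_lit 0)) (T.h (T.h (P (nat_lit 0)) (M (nat_lit 3759122180439))) (P (nat_lit 0)))) (T.h (T.h (T.h (M (nat_lit 100403257855)) (T.h (P (nat_lit 0)) (M (nat_lit 32420310679327)))) (T.h (P (nat_lit 0)) (P (nat_lit 13166944817488)))) (T.h (P (nat_lit 0)) (M (nat_lit 396537227327)))))))) (P (nat_lit 0))))))))))) (T.h (T.h (P (nat_lit 0)) (T.h (P (nat_lit 0)) (T.h (P (nat_lit 0)) (T.h (P (nat_lit 0)) (T.h (P (nat_lit 0)) (T.h (T.h (T.h (P (nat_lit 0)) (T.h (T.h (P (nat_lit 0)) (T.h (M (nat_lit 38147197239)) (T.h (P (nat_lit 0)) (T.h (M (nat_lit 2644612159523)) (T.h (P (nat_lit 0)) (P (nat_lit 18021075021236))))))) (T.h (P (nat_lit 0)) (T.h (T.h (P (nat_lit 0)) (T.h (P (nat_lit 52387848216)) (T.h (P (nat_lit 0)) (M (nat_lit 1677877637287))))) (T.h (P (nat_lit 0)) (T.h (T.h (P (nat_lit 0)) (P (nat_lit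 8663185017112))) (P (nat_lit 0)))))))) (T.h (T.h (T.h (P (nat_lit 194212400)) (T.h (P (nat_lit 0)) (T.h (P (nat_lit 34982029392)) (T.h (P (nat_lit 0)) (M (nat_lit 32469430145567)))))) (T.h (P (nat_lit 0)) (T.h (T.h (P (nat_lit 35445446464)) (T.h (P (nat_lit 0)) (P (nat_lit 5611090088260)))) (T.h (P (nat_lit 0)) (P (nat_lit 330710885556)))))) (T.h (T.h (P (nat_lit 0)) (T.h (T.h (P (nat_lit 0)) (T.h (P (nat_lit 193366473376)) (T.h (P (nat_lit 0)) (P (nat_lit 18983733843488))))) (T.h (P (nat_lit 0)) (T.h (T.h (P (nat_lit 0)) (M (nat_lit 4139459132851))) (P (nat_lit 0)))))) (T.h (T.h (T.h (M (nat_lit 78065939751)) (T.h (P (nat_lit 0)) (P (nat_lit 405159169784)))) (T.h (P (nat_lit 0)) (M (nat_lit 312770304675)))) (T.h (T.h (P (nat_lit 0)) (T.h (T.h (P (nat_lit 0)) (M (nat_lit 1041231066363))) (P (nat_lit 0)))) (P (nat_lit 1262840359700))))))) (T.h (P (nat_lit 0)) (T.h (T.h (T.h (P (nat_lit 0))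 (T.h (T.h (P (nat_lit 0)) (T.h (M (nat_lit 12409465463)) (T.h (P (nat_lit 0)) (T.h (M (nat_lit 6529387513923)) (T.h (P (nat_lit 0)) (M (nat_lit 80991489341619))))))) (T.h (P (nat_lit 0)) (T.h (T.h (P (nat_lit 0)) (T.h (P (nat_lit 1539355602972)) (T.h (P (nat_lit 0)) (M (nat_lit 46546979434251))))) (T.h (P (nat_lit 0)) (T.h (T.h (P (nat_lit 0)) (M (nat_lit 14190139463455))) (P (nat_lit 0)))))))) (T.h (T.h (T.h (M (nat_lit 1858154275)) (T.h (P (nat_lit 0)) (T.h (M (nat_lit 715624796919)) (T.h (P (nat_lit 0)) (P (nat_lit 146502740709292)))))) (T.h (P (nat_lit 0)) (T.h (T.h (M (nat_lit 171016141427)) (T.h (P (nat_lit 0)) (P (nat_lit 5662119001352)))) (T.h (P (nat_lit 0)) (M (nat_lit 2982328363783)))))) (T.h (T.h (P (nat_lit 0)) (T.h (T.h (P (nat_lit 0)) (T.h (P (nat_lit 102959377444)) (T.h (P (nat_lit 0)) (M (nat_lit 89313958300819))))) (T.h (P (nat_lit 0)) (T.h (T.h (P (nat_lit 0)) (P (nat_lit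 14521551038632))) (P (nat_lit 0)))))) (T.h (T.h (T.h (P (nat_lit 228602320364)) (T.h (P (nat_lit 0)) (M (nat_lit 34827371391)))) (T.h (P (nat_lit 0)) (P (nat_lit 1569381262724)))) (T.h (T.h (P (nat_lit 0)) (T.h (T.h (P (nat_lit 0)) (M (nat_lit 13262984176287))) (P (nat_lit 0)))) (M (nat_lit 1798061721675))))))) (P (nat_lit 0)))))))))) et0_11))
def et0_13 : T ℤ := (T.h (T.h (T.h (T.h (T.h (P (nat_lit 0)) (T.h (P (nat_lit 2270491464)) (T.h (P (nat_lit 0)) (T.h (M (nat_lit 36798685715)) (T.h (P (nat_lit 0)) (M (nat_lit 417894551131))))))) (T.h (P (nat_lit 0)) (T.h (T.h (P (nat_lit 0)) (T.h (P (nat_lit 78860590644)) (T.h (P (nat_lit 0)) (P (nat_lit 1185726420524))))) (T.h (P (nat_lit 0)) (T.h (T.h (P (nat_lit 0)) (P (nat_lit 2878474024452))) (P (nat_lit 0))))))) (T.h (T.h (P (nat_lit 0)) (T.h (T.h (M (nat_lit 13753853663)) (T.h (P (nat_lit 0)) (T.h (P (nat_lit 357097289124)) (T.h (P (nat_lit 0))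 (M (nat_lit 8370435649727)))))) (T.h (P (nat_lit 0)) (T.h (T.h (P (nat_lit 8235131811300)) (T.h (P (nat_lit 0)) (P (nat_lit 34685970099560)))) (T.h (P (nat_lit 0)) (M (nat_lit 1407496825639))))))) (T.h (T.h (T.h (P (nat_lit 0)) (T.h (M (nat_lit 6929845307)) (T.h (P (nat_lit 0)) (M (nat_lit 59471335607))))) (T.h (P (nat_lit 0)) (T.h (T.h (P (nat_lit 0)) (P (nat_lit 4398689160504))) (P (nat_lit 0))))) (T.h (T.h (P (nat_lit 0)) (T.h (T.h (P (nat_lit 49806175832)) (T.h (P (nat_lit 0)) (M (nat_lit 4588665984999)))) (T.h (P (nat_lit 0)) (M (nat_lit 86581946584883))))) (T.h (T.h (T.h (P (nat_lit 0)) (M (nat_lit 270143222463))) (P (nat_lit 0))) (T.h (T.h (P (nat_lit 0)) (P (nat_lit 5228982610064))) (P (nat_lit 0)))))))) (T.h (P (nat_lit 0)) (T.h (T.h (T.h (T.h (P (nat_lit 0)) (T.h (M (nat_lit 3798648567)) (T.h (P (nat_lit 0)) (T.h (M (nat_lit 609419066211)) (T.h (P (nat_lit 0)) (P (nat_lit 6597337231100)))))))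 (T.h (P (nat_lit 0)) (T.h (T.h (P (nat_lit 0)) (T.h (P (nat_lit 1640820403992)) (T.h (P (nat_lit 0)) (P (nat_lit 47158804252032))))) (T.h (P (nat_lit 0)) (T.h (T.h (P (nat_lit 0)) (P (nat_lit 12703795860492))) (P (nat_lit 0))))))) (T.h (T.h (P (nat_lit 0)) (T.h (T.h (P (nat_lit 310346928188)) (T.h (P (nat_lit 0)) (T.h (M (nat_lit 14479106483951)) (T.h (P (nat_lit 0)) (P (nat_lit 210626504948816)))))) (T.h (P (nat_lit 0)) (T.h (T.h (P (nat_lit 20214433508808)) (T.h (P (nat_lit 0)) (P (nat_lit 52496944114208)))) (T.h (P (nat_lit 0)) (M (nat_lit 86679835090815))))))) (T.h (T.h (T.h (P (nat_lit 0)) (T.h (M (nat_lit 854623582383)) (T.h (P (nat_lit 0)) (M (nat_lit 5435131585839))))) (T.h (P (nat_lit 0)) (T.h (T.h (P (nat_lit 0)) (P (nat_lit 21119555171352))) (P (nat_lit 0))))) (T.h (T.h (P (nat_lit 0)) (T.h (T.h (M (nat_lit 46347975123)) (T.h (P (nat_lit 0)) (M (nat_lit 73864881973651)))) (T.h (P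 (nat_lit 0)) (P (nat_lit 51121210928348))))) (T.h (T.h (T.h (P (nat_lit 0)) (M (nat_lit 1885279900459))) (P (nat_lit 0))) (T.h (T.h (P (nat_lit 0)) (P (nat_lit 58445859643996))) (P (nat_lit 0)))))))) (P (nat_lit 0))))) (T.h (T.h (P (nat_lit 0)) (T.h (T.h (T.h (P (nat_lit 0)) (T.h (T.h (M (nat_lit 12518696783)) (T.h (P (nat_lit 0)) (T.h (M (nat_lit 288016615787)) (T.h (P (nat_lit 0)) (M (nat_lit 4098018468147)))))) (T.h (P (nat_lit 0)) (T.h (T.h (M (nat_lit 104368986611)) (T.h (P (nat_lit 0)) (M (nat_lit 2929160748095)))) (T.h (P (nat_lit 0)) (M (nat_lit 20931372212475))))))) (T.h (T.h (T.h (P (nat_lit 0)) (T.h (M (nat_lit 20530120159)) (T.h (P (nat_lit 0)) (T.h (M (nat_lit 648273458315)) (T.h (P (nat_lit 0)) (M (nat_lit 27712918292443))))))) (T.h (P (nat_lit 0)) (T.h (T.h (P (nat_lit 0)) (T.h (P (nat_lit 7900280193520)) (T.h (P (nat_lit 0)) (M (nat_lit 32646386618867))))) (T.h (P (nat_lit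 0)) (T.h (T.h (P (nat_lit 0)) (M (nat_lit 470579508895055))) (P (nat_lit 0))))))) (T.h (T.h (P (nat_lit 0)) (T.h (T.h (P (nat_lit 671047004276)) (T.h (P (nat_lit 0)) (P (nat_lit 1064214134896)))) (T.h (P (nat_lit 0)) (P (nat_lit 24446408956948))))) (T.h (T.h (T.h (P (nat_lit 0)) (T.h (P (nat_lit 540303783140)) (T.h (P (nat_lit 0)) (P (nat_lit 6263706898812))))) (T.h (P (nat_lit 0)) (T.h (T.h (P (nat_lit 0)) (M (nat_lit 90448743636547))) (P (nat_lit 0))))) (T.h (T.h (P (nat_lit 0)) (M (nat_lit 7468888658527))) (T.h (T.h (T.h (P (nat_lit 0)) (M (nat_lit 43246740366103))) (P (nat_lit 0))) (P (nat_lit 0)))))))) (P (nat_lit 0)))) (T.h (T.h (T.h (T.h (T.h (P (nat_lit 0)) (T.h (M (nat_lit 4968475511)) (T.h (P (nat_lit 0)) (T.h (P (nat_lit 73814394588)) (T.h (P (nat_lit 0)) (P (nat_lit 855948930188))))))) (T.h (P (nat_lit 0)) (T.h (T.h (P (nat_lit 0)) (T.h (P (nat_lit 576836749632)) (T.h (P (nat_lit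 0)) (M (nat_lit 366352987395))))) (T.h (P (nat_lit 0)) (T.h (T.h (P (nat_lit 0)) (M (nat_lit 2863453597047))) (P (nat_lit 0))))))) (T.h (T.h (P (nat_lit 0)) (T.h (T.h (P (nat_lit 61704993636)) (T.h (P (nat_lit 0)) (T.h (M (nat_lit 1169230121531)) (T.h (P (nat_lit 0)) (P (nat_lit 11734533014248)))))) (T.h (P (nat_lit 0)) (T.h (T.h (M (nat_lit 8460316751655)) (T.h (P (nat_lit 0)) (P (nat_lit 40191469935584)))) (T.h (P (nat_lit 0)) (P (nat_lit 50502653299076))))))) (T.h (T.h (T.h (P (nat_lit 0)) (T.h (P (nat_lit 178549323964)) (T.h (P (nat_lit 0)) (M (nat_lit 4865477592359))))) (T.h (P (nat_lit 0)) (T.h (T.h (P (nat_lit 0)) (P (nat_lit 10320264767120))) (P (nat_lit 0))))) (T.h (T.h (P (nat_lit 0)) (T.h (T.h (M (nat_lit 243150063947)) (T.h (P (nat_lit 0)) (P (nat_lit 38487826045724)))) (T.h (P (nat_lit 0)) (P (nat_lit 10201815208420))))) (T.h (T.h (T.h (P (nat_lit 0)) (P (nat_lit 1915731352392)))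 (P (nat_lit 0))) (T.h (T.h (P (nat_lit 0)) (M (nat_lit 2460908426987))) (P (nat_lit 0)))))))) (P (nat_lit 0))) (P (nat_lit 0)))))
def et0_14 : T ℤ := (T.h (T.h (P (nat_lit 0)) (T.h (P (nat_lit 0)) (T.h (T.h (T.h (T.h (P (nat_lit 0)) (T.h (P (nat_lit 819309936)) (T.h (P (nat_lit 0)) (T.h (P (nat_lit 275714310608)) (T.h (P (nat_lit 0)) (M (nat_lit 2505680530919))))))) (T.h (P (nat_lit 0)) (T.h (T.h (P (nat_lit 0)) (T.h (M (nat_lit 644052308115)) (T.h (P (nat_lit 0)) (M (nat_lit 5810515058899))))) (T.h (P (nat_lit 0)) (T.h (T.h (P (nat_lit 0)) (P (nat_lit 3485295898208))) (P (nat_lit 0))))))) (T.h (T.h (P (nat_lit 0)) (T.h (T.h (M (nat_lit 61545354535)) (T.h (P (nat_lit 0)) (T.h (P (nat_lit 6693183202408)) (T.h (P (nat_lit 0)) (M (nat_lit 88726124769071)))))) (T.h (P (nat_lit 0)) (T.h (T.h (P (nat_lit 1552476373052)) (T.h (P (nat_lit 0)) (M (nat_lit 34746515270859)))) (T.h (P (nat_lit 0)) (P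 (nat_lit 54139204613132))))))) (T.h (T.h (T.h (P (nat_lit 0)) (T.h (M (nat_lit 644052308115)) (T.h (P (nat_lit 0)) (M (nat_lit 5810515058899))))) (T.h (P (nat_lit 0)) (T.h (T.h (P (nat_lit 0)) (M (nat_lit 29234568268951))) (P (nat_lit 0))))) (T.h (T.h (P (nat_lit 0)) (T.h (T.h (P (nat_lit 1552476373052)) (T.h (P (nat_lit 0)) (M (nat_lit 34746515270859)))) (T.h (P (nat_lit 0)) (M (nat_lit 29884919539679))))) (T.h (T.h (T.h (P (nat_lit 0)) (P (nat_lit 3485295898208))) (P (nat_lit 0))) (T.h (T.h (P (nat_lit 0)) (P (nat_lit 54139204613132))) (P (nat_lit 0)))))))) (T.h (P (nat_lit 0)) (T.h (T.h (T.h (T.h (P (nat_lit 0)) (T.h (M (nat_lit 4608832183)) (T.h (P (nat_lit 0)) (T.h (P (nat_lit 112109761896)) (T.h (P (nat_lit 0)) (M (nat_lit 6341617843351))))))) (T.h (P (nat_lit 0)) (T.h (T.h (P (nat_lit 0)) (T.h (P (nat_lit 764496388172)) (T.h (P (nat_lit 0)) (M (nat_lit 42666036763899))))) (T.h (P (nat_lit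 0)) (T.h (T.h (P (nat_lit 0)) (P (nat_lit 49630010453232))) (P (nat_lit 0))))))) (T.h (T.h (P (nat_lit 0)) (T.h (T.h (M (nat_lit 631443106183)) (T.h (P (nat_lit 0)) (T.h (M (nat_lit 23060077224095)) (T.h (P (nat_lit 0)) (M (nat_lit 194565653098079)))))) (T.h (P (nat_lit 0)) (T.h (T.h (P (nat_lit 3375476604632)) (T.h (P (nat_lit 0)) (P (nat_lit 1047629078704252)))) (T.h (P (nat_lit 0)) (M (nat_lit 131806860332883))))))) (T.h (T.h (T.h (P (nat_lit 0)) (T.h (P (nat_lit 764496388172)) (T.h (P (nat_lit 0)) (M (nat_lit 42666036763899))))) (T.h (P (nat_lit 0)) (T.h (T.h (P (nat_lit 0)) (M (nat_lit 33137492372511))) (P (nat_lit 0))))) (T.h (T.h (P (nat_lit 0)) (T.h (T.h (P (nat_lit 3375476604632)) (T.h (P (nat_lit 0)) (P (nat_lit 1047629078704252)))) (T.h (P (nat_lit 0)) (M (nat_lit 124871653391671))))) (T.h (T.h (T.h (P (nat_lit 0)) (P (nat_lit 49630010453232))) (P (nat_lit 0))) (T.h (T.h (P (nat_lit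 0)) (M (nat_lit 131806860332883))) (P (nat_lit 0)))))))) (P (nat_lit 0))))))) (T.h (T.h (P (nat_lit 0)) (T.h (T.h (T.h (P (nat_lit 0)) (T.h (T.h (M (nat_lit 336812099)) (T.h (P (nat_lit 0)) (T.h (M (nat_lit 130890979843)) (T.h (P (nat_lit 0)) (M (nat_lit 10447131595671)))))) (T.h (P (nat_lit 0)) (T.h (T.h (P (nat_lit 63880333092)) (T.h (P (nat_lit 0)) (P (nat_lit 9418316625904)))) (T.h (P (nat_lit 0)) (P (nat_lit 1855884173668))))))) (T.h (T.h (T.h (P (nat_lit 0)) (T.h (P (nat_lit 38217503048)) (T.h (P (nat_lit 0)) (T.h (M (nat_lit 746394479747)) (T.h (P (nat_lit 0)) (P (nat_lit 5506997230312))))))) (T.h (P (nat_lit 0)) (T.h (T.h (P (nat_lit 0)) (T.h (P (nat_lit 3200040498660)) (T.h (P (nat_lit 0)) (M (nat_lit 178493860578155))))) (T.h (P (nat_lit 0)) (T.h (T.h (P (nat_lit 0)) (M (nat_lit 5117294066583))) (P (nat_lit 0))))))) (T.h (T.h (P (nat_lit 0)) (T.h (T.h (P (nat_lit 148939436028)) (T.h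 (P (nat_lit 0)) (M (nat_lit 3794827816319)))) (T.h (P (nat_lit 0)) (M (nat_lit 10129588388135))))) (T.h (T.h (T.h (P (nat_lit 0)) (T.h (M (nat_lit 17115355523)) (T.h (P (nat_lit 0)) (P (nat_lit 11368955011364))))) (T.h (P (nat_lit 0)) (T.h (T.h (P (nat_lit 0)) (M (nat_lit 36377919877363))) (P (nat_lit 0))))) (T.h (T.h (P (nat_lit 0)) (P (nat_lit 412199573132))) (T.h (T.h (T.h (P (nat_lit 0)) (M (nat_lit 5123967253955))) (P (nat_lit 0))) (P (nat_lit 0)))))))) (T.h (P (nat_lit 0)) (T.h (T.h (T.h (P (nat_lit 0)) (T.h (T.h (M (nat_lit 4608832183)) (T.h (P (nat_lit 0)) (T.h (P (nat_lit 764496388172)) (T.h (P (nat_lit 0)) (P (nat_lit 49630010453232)))))) (T.h (P (nat_lit 0)) (T.h (T.h (P (nat_lit 112109761896)) (T.h (P (nat_lit 0)) (M (nat_lit 42666036763899)))) (T.h (P (nat_lit 0)) (M (nat_lit 6341617843351))))))) (T.h (T.h (T.h (P (nat_lit 0)) (T.h (M (nat_lit 631443106183)) (T.h (P (nat_lit 0))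 (T.h (P (nat_lit 3375476604632)) (T.h (P (nat_lit 0)) (M (nat_lit 131806860332883))))))) (T.h (P (nat_lit 0)) (T.h (T.h (P (nat_lit 0)) (T.h (M (nat_lit 23060077224095)) (T.h (P (nat_lit 0)) (P (nat_lit 1047629078704252))))) (T.h (P (nat_lit 0)) (T.h (T.h (P (nat_lit 0)) (M (nat_lit 194565653098079))) (P (nat_lit 0))))))) (T.h (T.h (P (nat_lit 0)) (T.h (T.h (P (nat_lit 764496388172)) (T.h (P (nat_lit 0)) (M (nat_lit 33137492372511)))) (T.h (P (nat_lit 0)) (M (nat_lit 42666036763899))))) (T.h (T.h (T.h (P (nat_lit 0)) (T.h (P (nat_lit 3375476604632)) (T.h (P (nat_lit 0)) (M (nat_lit 124871653391671))))) (T.h (P (nat_lit 0)) (T.h (T.h (P (nat_lit 0)) (P (nat_lit 1047629078704252))) (P (nat_lit 0))))) (T.h (T.h (P (nat_lit 0)) (P (nat_lit 49630010453232))) (T.h (T.h (T.h (P (nat_lit 0)) (M (nat_lit 131806860332883))) (P (nat_lit 0))) (P (nat_lit 0)))))))) (P (nat_lit 0)))))) et0_13))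
def et0_15 : T ℤ := (T.h (T.h (P (nat_lit 0)) (T.h (P (nat_lit 0)) (T.h (P (nat_lit 0)) (T.h (P (nat_lit 0)) (T.h (T.h (T.h (T.h (P (nat_lit 0)) (T.h (M (nat_lit 336812099)) (T.h (P (nat_lit 0)) (T.h (P (nat_lit 63880333092)) (T.h (P (nat_lit 0)) (P (nat_lit 1855884173668))))))) (T.h (P (nat_lit 0)) (T.h (T.h (P (nat_lit 0)) (T.h (M (nat_lit 130890979843)) (T.h (P (nat_lit 0)) (P (nat_lit 9418316625904))))) (T.h (P (nat_lit 0)) (T.h (T.h (P (nat_lit 0)) (M (nat_lit 10447131595671))) (P (nat_lit 0))))))) (T.h (T.h (P (nat_lit 0)) (T.h (T.h (P (nat_lit 38217503048)) (T.h (P (nat_lit 0)) (T.h (P (nat_lit 3200040498660)) (T.h (P (nat_lit 0)) (M (nat_lit 5117294066583)))))) (T.h (P (nat_lit 0)) (T.h (T.h (M (nat_lit 746394479747)) (T.h (P (nat_lit 0)) (M (nat_lit 178493860578155)))) (T.h (P (nat_lit 0)) (P (nat_lit 5506997230312))))))) (T.h (T.h (T.h (P (nat_lit 0)) (T.h (P (nat_lit 148939436028))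 (T.h (P (nat_lit 0)) (M (nat_lit 10129588388135))))) (T.h (P (nat_lit 0)) (T.h (T.h (P (nat_lit 0)) (M (nat_lit 3794827816319))) (P (nat_lit 0))))) (T.h (T.h (P (nat_lit 0)) (T.h (T.h (M (nat_lit 17115355523)) (T.h (P (nat_lit 0)) (M (nat_lit 36377919877363)))) (T.h (P (nat_lit 0)) (P (nat_lit 11368955011364))))) (T.h (T.h (T.h (P (nat_lit 0)) (P (nat_lit 412199573132))) (P (nat_lit 0))) (T.h (T.h (P (nat_lit 0)) (M (nat_lit 5123967253955))) (P (nat_lit 0)))))))) (T.h (P (nat_lit 0)) (T.h (T.h (T.h (T.h (P (nat_lit 0)) (T.h (M (nat_lit 12518696783)) (T.h (P (nat_lit 0)) (T.h (M (nat_lit 104368986611)) (T.h (P (nat_lit 0)) (M (nat_lit 20931372212475))))))) (T.h (P (nat_lit 0)) (T.h (T.h (P (nat_lit 0)) (T.h (M (nat_lit 288016615787)) (T.h (P (nat_lit 0)) (M (nat_lit 2929160748095))))) (T.h (P (nat_lit 0)) (T.h (T.h (P (nat_lit 0)) (M (nat_lit 4098018468147))) (P (nat_lit 0))))))) (T.h (T.h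 (P (nat_lit 0)) (T.h (T.h (M (nat_lit 20530120159)) (T.h (P (nat_lit 0)) (T.h (P (nat_lit 7900280193520)) (T.h (P (nat_lit 0)) (M (nat_lit 470579508895055)))))) (T.h (P (nat_lit 0)) (T.h (T.h (M (nat_lit 648273458315)) (T.h (P (nat_lit 0)) (M (nat_lit 32646386618867)))) (T.h (P (nat_lit 0)) (M (nat_lit 27712918292443))))))) (T.h (T.h (T.h (P (nat_lit 0)) (T.h (P (nat_lit 671047004276)) (T.h (P (nat_lit 0)) (P (nat_lit 24446408956948))))) (T.h (P (nat_lit 0)) (T.h (T.h (P (nat_lit 0)) (P (nat_lit 1064214134896))) (P (nat_lit 0))))) (T.h (T.h (P (nat_lit 0)) (T.h (T.h (P (nat_lit 540303783140)) (T.h (P (nat_lit 0)) (M (nat_lit 90448743636547)))) (T.h (P (nat_lit 0)) (P (nat_lit 6263706898812))))) (T.h (T.h (T.h (P (nat_lit 0)) (M (nat_lit 7468888658527))) (P (nat_lit 0))) (T.h (T.h (P (nat_lit 0)) (M (nat_lit 43246740366103))) (P (nat_lit 0)))))))) (P (nat_lit 0))))))))) (T.h (T.h (P (nat_lit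 0)) (T.h (P (nat_lit 0)) (T.h (P (nat_lit 0)) (T.h (T.h (T.h (P (nat_lit 0)) (T.h (T.h (P (nat_lit 819309936)) (T.h (P (nat_lit 0)) (T.h (M (nat_lit 644052308115)) (T.h (P (nat_lit 0)) (P (nat_lit 3485295898208)))))) (T.h (P (nat_lit 0)) (T.h (T.h (P (nat_lit 275714310608)) (T.h (P (nat_lit 0)) (M (nat_lit 5810515058899)))) (T.h (P (nat_lit 0)) (M (nat_lit 2505680530919))))))) (T.h (T.h (T.h (P (nat_lit 0)) (T.h (M (nat_lit 61545354535)) (T.h (P (nat_lit 0)) (T.h (P (nat_lit 1552476373052)) (T.h (P (nat_lit 0)) (P (nat_lit 54139204613132))))))) (T.h (P (nat_lit 0)) (T.h (T.h (P (nat_lit 0)) (T.h (P (nat_lit 6693183202408)) (T.h (P (nat_lit 0)) (M (nat_lit 34746515270859))))) (T.h (P (nat_lit 0)) (T.h (T.h (P (nat_lit 0)) (M (nat_lit 88726124769071))) (P (nat_lit 0))))))) (T.h (T.h (P (nat_lit 0)) (T.h (T.h (M (nat_lit 644052308115)) (T.h (P (nat_lit 0)) (M (nat_lit 29234568268951)))) (T.h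 (P (nat_lit 0)) (M (nat_lit 5810515058899))))) (T.h (T.h (T.h (P (nat_lit 0)) (T.h (P (nat_lit 1552476373052)) (T.h (P (nat_lit 0)) (M (nat_lit 29884919539679))))) (T.h (P (nat_lit 0)) (T.h (T.h (P (nat_lit 0)) (M (nat_lit 34746515270859))) (P (nat_lit 0))))) (T.h (T.h (P (nat_lit 0)) (P (nat_lit 3485295898208))) (T.h (T.h (T.h (P (nat_lit 0)) (P (nat_lit 54139204613132))) (P (nat_lit 0))) (P (nat_lit 0)))))))) (T.h (P (nat_lit 0)) (T.h (T.h (T.h (P (nat_lit 0)) (T.h (T.h (M (nat_lit 3798648567)) (T.h (P (nat_lit 0)) (T.h (P (nat_lit 1640820403992)) (T.h (P (nat_lit 0)) (P (nat_lit 12703795860492)))))) (T.h (P (nat_lit 0)) (T.h (T.h (M (nat_lit 609419066211)) (T.h (P (nat_lit 0)) (P (nat_lit 47158804252032)))) (T.h (P (nat_lit 0)) (P (nat_lit 6597337231100))))))) (T.h (T.h (T.h (P (nat_lit 0)) (T.h (P (nat_lit 310346928188)) (T.h (P (nat_lit 0)) (T.h (P (nat_lit 20214433508808)) (T.h (P (nat_lit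 0)) (M (nat_lit 86679835090815))))))) (T.h (P (nat_lit 0)) (T.h (T.h (P (nat_lit 0)) (T.h (M (nat_lit 14479106483951)) (T.h (P (nat_lit 0)) (P (nat_lit 52496944114208))))) (T.h (P (nat_lit 0)) (T.h (T.h (P (nat_lit 0)) (P (nat_lit 210626504948816))) (P (nat_lit 0))))))) (T.h (T.h (P (nat_lit 0)) (T.h (T.h (M (nat_lit 854623582383)) (T.h (P (nat_lit 0)) (P (nat_lit 21119555171352)))) (T.h (P (nat_lit 0)) (M (nat_lit 5435131585839))))) (T.h (T.h (T.h (P (nat_lit 0)) (T.h (M (nat_lit 46347975123)) (T.h (P (nat_lit 0)) (P (nat_lit 51121210928348))))) (T.h (P (nat_lit 0)) (T.h (T.h (P (nat_lit 0)) (M (nat_lit 73864881973651))) (P (nat_lit 0))))) (T.h (T.h (P (nat_lit 0)) (M (nat_lit 1885279900459))) (T.h (T.h (T.h (P (nat_lit 0)) (P (nat_lit 58445859643996))) (P (nat_lit 0))) (P (nat_lit 0)))))))) (P (nat_lit 0)))))))) et0_14))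
def et0_16 : T ℤ := (T.h (T.h (T.h (T.h (T.h (M (nat_lit 62528431)) (T.h (P (nat_lit 0)) (T.h (M (nat_lit 5223951071)) (T.h (P (nat_lit 0)) (T.h (P (nat_lit 130577256848)) (T.h (P (nat_lit 0)) (M (nat_lit 1746892988063)))))))) (T.h (P (nat_lit 0)) (T.h (T.h (M (nat_lit 16900449979)) (T.h (P (nat_lit 0)) (T.h (P (nat_lit 98901628520)) (T.h (P (nat_lit 0)) (M (nat_lit 4715881248183)))))) (T.h (P (nat_lit 0)) (T.h (T.h (M (nat_lit 125530406299)) (T.h (P (nat_lit 0)) (M (nat_lit 3791095779391)))) (T.h (P (nat_lit 0)) (P (nat_lit 6551963517976)))))))) (T.h (T.h (P (nat_lit 0)) (T.h (T.h (P (nat_lit 0)) (T.h (M (nat_lit 1619404514743)) (T.h (P (nat_lit 0)) (P (nat_lit 12638991270184))))) (T.h (P (nat_lit 0)) (T.h (T.h (P (nat_lit 0)) (M (nat_lit 8681024761855))) (P (nat_lit 0)))))) (T.h (T.h (T.h (M (nat_lit 16900449979)) (T.h (P (nat_lit 0)) (T.h (P (nat_lit 98901628520)) (T.h (P (nat_lit 0)) (M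 (nat_lit 4715881248183)))))) (T.h (P (nat_lit 0)) (T.h (T.h (P (nat_lit 349308712920)) (T.h (P (nat_lit 0)) (M (nat_lit 228484527337095)))) (T.h (P (nat_lit 0)) (P (nat_lit 42996277855480)))))) (T.h (T.h (P (nat_lit 0)) (T.h (T.h (P (nat_lit 0)) (M (nat_lit 8681024761855))) (P (nat_lit 0)))) (T.h (T.h (T.h (M (nat_lit 125530406299)) (T.h (P (nat_lit 0)) (M (nat_lit 3791095779391)))) (T.h (P (nat_lit 0)) (P (nat_lit 42996277855480)))) (T.h (P (nat_lit 0)) (P (nat_lit 6551963517976)))))))) (T.h (P (nat_lit 0)) (T.h (T.h (T.h (T.h (P (nat_lit 1669016184)) (T.h (P (nat_lit 0)) (T.h (M (nat_lit 297127905095)) (T.h (P (nat_lit 0)) (T.h (M (nat_lit 83337004079)) (T.h (P (nat_lit 0)) (M (nat_lit 5363931367959)))))))) (T.h (P (nat_lit 0)) (T.h (T.h (M (nat_lit 48203625359)) (T.h (P (nat_lit 0)) (T.h (M (nat_lit 2488254634403)) (T.h (P (nat_lit 0)) (M (nat_lit 190738411686239)))))) (T.h (P (nat_lit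 0)) (T.h (T.h (M (nat_lit 1465130085891)) (T.h (P (nat_lit 0)) (P (nat_lit 11666287696712)))) (T.h (P (nat_lit 0)) (P (nat_lit 16407910540648)))))))) (T.h (T.h (P (nat_lit 0)) (T.h (T.h (P (nat_lit 0)) (T.h (M (nat_lit 182961985095)) (T.h (P (nat_lit 0)) (M (nat_lit 167424860551079))))) (T.h (P (nat_lit 0)) (T.h (T.h (P (nat_lit 0)) (M (nat_lit 28808214024611))) (P (nat_lit 0)))))) (T.h (T.h (T.h (M (nat_lit 48203625359)) (T.h (P (nat_lit 0)) (T.h (M (nat_lit 2488254634403)) (T.h (P (nat_lit 0)) (M (nat_lit 190738411686239)))))) (T.h (P (nat_lit 0)) (T.h (T.h (M (nat_lit 2371077620119)) (T.h (P (nat_lit 0)) (P (nat_lit 594510725449872)))) (T.h (P (nat_lit 0)) (M (nat_lit 223027719349291)))))) (T.h (T.h (P (nat_lit 0)) (T.h (T.h (P (nat_lit 0)) (M (nat_lit 28808214024611))) (P (nat_lit 0)))) (T.h (T.h (T.h (M (nat_lit 1465130085891)) (T.h (P (nat_lit 0)) (P (nat_lit 11666287696712)))) (T.h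 (P (nat_lit 0)) (M (nat_lit 223027719349291)))) (T.h (P (nat_lit 0)) (P (nat_lit 16407910540648)))))))) (P (nat_lit 0))))) (T.h (T.h (P (nat_lit 0)) (T.h (T.h (T.h (P (nat_lit 0)) (T.h (T.h (P (nat_lit 0)) (T.h (P (nat_lit 65294193316)) (T.h (P (nat_lit 0)) (T.h (M (nat_lit 1715443305399)) (T.h (P (nat_lit 0)) (P (nat_lit 42839645572108))))))) (T.h (P (nat_lit 0)) (T.h (T.h (P (nat_lit 0)) (T.h (P (nat_lit 1236508864492)) (T.h (P (nat_lit 0)) (P (nat_lit 31549503715092))))) (T.h (P (nat_lit 0)) (T.h (T.h (P (nat_lit 0)) (M (nat_lit 32107954118239))) (P (nat_lit 0)))))))) (T.h (T.h (T.h (P (nat_lit 10366669104)) (T.h (P (nat_lit 0)) (T.h (P (nat_lit 335364009376)) (T.h (P (nat_lit 0)) (P (nat_lit 7562524682636)))))) (T.h (P (nat_lit 0)) (T.h (T.h (P (nat_lit 232794387804)) (T.h (P (nat_lit 0)) (M (nat_lit 70178424353091)))) (T.h (P (nat_lit 0)) (P (nat_lit 12259233023136)))))) (T.h (T.h (P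 (nat_lit 0)) (T.h (T.h (P (nat_lit 0)) (T.h (M (nat_lit 13396079933103)) (T.h (P (nat_lit 0)) (P (nat_lit 156462115975044))))) (T.h (P (nat_lit 0)) (T.h (T.h (P (nat_lit 0)) (P (nat_lit 37652462818124))) (P (nat_lit 0)))))) (T.h (T.h (T.h (M (nat_lit 201232817103)) (T.h (P (nat_lit 0)) (M (nat_lit 6821580898351)))) (T.h (P (nat_lit 0)) (P (nat_lit 73121542487532)))) (T.h (T.h (P (nat_lit 0)) (T.h (T.h (P (nat_lit 0)) (M (nat_lit 14023782592907))) (P (nat_lit 0)))) (P (nat_lit 4147841570136))))))) (P (nat_lit 0)))) (T.h (T.h (T.h (T.h (T.h (P (nat_lit 145292312)) (T.h (P (nat_lit 0)) (T.h (P (nat_lit 6871335988)) (T.h (P (nat_lit 0)) (T.h (M (nat_lit 176445457935)) (T.h (P (nat_lit 0)) (P (nat_lit 2623073607572)))))))) (T.h (P (nat_lit 0)) (T.h (T.h (P (nat_lit 24461052660)) (T.h (P (nat_lit 0)) (T.h (M (nat_lit 2917569247163)) (T.h (P (nat_lit 0)) (M (nat_lit 11468508036743)))))) (T.h (P (nat_lit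 0)) (T.h (T.h (M (nat_lit 2749079082683)) (T.h (P (nat_lit 0)) (P (nat_lit 77971784982740)))) (T.h (P (nat_lit 0)) (P (nat_lit 124867342192208)))))))) (T.h (T.h (P (nat_lit 0)) (T.h (T.h (P (nat_lit 0)) (T.h (P (nat_lit 1679229542056)) (T.h (P (nat_lit 0)) (M (nat_lit 23033243445519))))) (T.h (P (nat_lit 0)) (T.h (T.h (P (nat_lit 0)) (P (nat_lit 55552322622940))) (P (nat_lit 0)))))) (T.h (T.h (T.h (P (nat_lit 79804914728)) (T.h (P (nat_lit 0)) (T.h (P (nat_lit 816726574796)) (T.h (P (nat_lit 0)) (M (nat_lit 11717683624327)))))) (T.h (P (nat_lit 0)) (T.h (T.h (M (nat_lit 994120471387)) (T.h (P (nat_lit 0)) (P (nat_lit 300292578959032)))) (T.h (P (nat_lit 0)) (P (nat_lit 387116423437260)))))) (T.h (T.h (P (nat_lit 0)) (T.h (T.h (P (nat_lit 0)) (M (nat_lit 13855469404127))) (P (nat_lit 0)))) (T.h (T.h (T.h (M (nat_lit 91458403519)) (T.h (P (nat_lit 0)) (M (nat_lit 52901274929139)))) (T.h (P (nat_lit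 0)) (M (nat_lit 56904076317263)))) (T.h (P (nat_lit 0)) (P (nat_lit 25095232783720)))))))) (P (nat_lit 0))) (P (nat_lit 0)))))
def et0_17 : T ℤ := (T.h (T.h (P (nat_lit 0)) (T.h (P (nat_lit 0)) (T.h (T.h (T.h (T.h (M (nat_lit 79338175)) (T.h (P (nat_lit 0)) (T.h (M (nat_lit 37935907575)) (T.h (P (nat_lit 0)) (T.h (P (nat_lit 493281081036)) (T.h (P (nat_lit 0)) (M (nat_lit 8801037045783)))))))) (T.h (P (nat_lit 0)) (T.h (T.h (M (nat_lit 37935907575)) (T.h (P (nat_lit 0)) (T.h (M (nat_lit 207137230895)) (T.h (P (nat_lit 0)) (M (nat_lit 1869278154055)))))) (T.h (P (nat_lit 0)) (T.h (T.h (P (nat_lit 493281081036)) (T.h (P (nat_lit 0)) (M (nat_lit 1869278154055)))) (T.h (P (nat_lit 0)) (M (nat_lit 8801037045783)))))))) (T.h (T.h (P (nat_lit 0)) (T.h (T.h (P (nat_lit 0)) (T.h (M (nat_lit 81650455719)) (T.h (P (nat_lit 0)) (P (nat_lit 17188792709200))))) (T.h (P (nat_lit 0)) (T.h (T.h (P (nat_lit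 0)) (P (nat_lit 17188792709200))) (P (nat_lit 0)))))) (T.h (T.h (T.h (P (nat_lit 6895255216)) (T.h (P (nat_lit 0)) (T.h (M (nat_lit 4066782511959)) (T.h (P (nat_lit 0)) (P (nat_lit 38878094183776)))))) (T.h (P (nat_lit 0)) (T.h (T.h (M (nat_lit 4066782511959)) (T.h (P (nat_lit 0)) (M (nat_lit 39716800801287)))) (T.h (P (nat_lit 0)) (P (nat_lit 38878094183776)))))) (T.h (T.h (P (nat_lit 0)) (T.h (T.h (P (nat_lit 0)) (P (nat_lit 395445769296))) (P (nat_lit 0)))) (T.h (T.h (T.h (P (nat_lit 131546175216)) (T.h (P (nat_lit 0)) (P (nat_lit 14811217483108)))) (T.h (P (nat_lit 0)) (P (nat_lit 14811217483108)))) (T.h (P (nat_lit 0)) (P (nat_lit 4051752645976)))))))) (T.h (P (nat_lit 0)) (T.h (T.h (T.h (T.h (P (nat_lit 1669016184)) (T.h (P (nat_lit 0)) (T.h (M (nat_lit 48203625359)) (T.h (P (nat_lit 0)) (T.h (M (nat_lit 1465130085891)) (T.h (P (nat_lit 0)) (P (nat_lit 16407910540648)))))))) (T.h (P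 (nat_lit 0)) (T.h (T.h (M (nat_lit 297127905095)) (T.h (P (nat_lit 0)) (T.h (M (nat_lit 2488254634403)) (T.h (P (nat_lit 0)) (P (nat_lit 11666287696712)))))) (T.h (P (nat_lit 0)) (T.h (T.h (M (nat_lit 83337004079)) (T.h (P (nat_lit 0)) (M (nat_lit 190738411686239)))) (T.h (P (nat_lit 0)) (M (nat_lit 5363931367959)))))))) (T.h (T.h (P (nat_lit 0)) (T.h (T.h (P (nat_lit 0)) (T.h (M (nat_lit 182961985095)) (T.h (P (nat_lit 0)) (M (nat_lit 28808214024611))))) (T.h (P (nat_lit 0)) (T.h (T.h (P (nat_lit 0)) (M (nat_lit 167424860551079))) (P (nat_lit 0)))))) (T.h (T.h (T.h (M (nat_lit 48203625359)) (T.h (P (nat_lit 0)) (T.h (M (nat_lit 2371077620119)) (T.h (P (nat_lit 0)) (M (nat_lit 223027719349291)))))) (T.h (P (nat_lit 0)) (T.h (T.h (M (nat_lit 2488254634403)) (T.h (P (nat_lit 0)) (P (nat_lit 594510725449872)))) (T.h (P (nat_lit 0)) (M (nat_lit 190738411686239)))))) (T.h (T.h (P (nat_lit 0)) (T.h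 (T.h (P (nat_lit 0)) (M (nat_lit 28808214024611))) (P (nat_lit 0)))) (T.h (T.h (T.h (M (nat_lit 1465130085891)) (T.h (P (nat_lit 0)) (M (nat_lit 223027719349291)))) (T.h (P (nat_lit 0)) (P (nat_lit 11666287696712)))) (T.h (P (nat_lit 0)) (P (nat_lit 16407910540648)))))))) (P (nat_lit 0))))))) (T.h (T.h (P (nat_lit 0)) (T.h (T.h (T.h (P (nat_lit 0)) (T.h (T.h (P (nat_lit 0)) (T.h (P (nat_lit 38217503048)) (T.h (P (nat_lit 0)) (T.h (M (nat_lit 746394479747)) (T.h (P (nat_lit 0)) (P (nat_lit 5506997230312))))))) (T.h (P (nat_lit 0)) (T.h (T.h (P (nat_lit 0)) (T.h (M (nat_lit 17115355523)) (T.h (P (nat_lit 0)) (P (nat_lit 11368955011364))))) (T.h (P (nat_lit 0)) (T.h (T.h (P (nat_lit 0)) (M (nat_lit 5123967253955))) (P (nat_lit 0)))))))) (T.h (T.h (T.h (M (nat_lit 336812099)) (T.h (P (nat_lit 0)) (T.h (M (nat_lit 130890979843)) (T.h (P (nat_lit 0)) (M (nat_lit 10447131595671)))))) (T.h (P (nat_lit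 0)) (T.h (T.h (P (nat_lit 148939436028)) (T.h (P (nat_lit 0)) (M (nat_lit 3794827816319)))) (T.h (P (nat_lit 0)) (P (nat_lit 412199573132)))))) (T.h (T.h (P (nat_lit 0)) (T.h (T.h (P (nat_lit 0)) (T.h (P (nat_lit 3200040498660)) (T.h (P (nat_lit 0)) (M (nat_lit 178493860578155))))) (T.h (P (nat_lit 0)) (T.h (T.h (P (nat_lit 0)) (M (nat_lit 36377919877363))) (P (nat_lit 0)))))) (T.h (T.h (T.h (P (nat_lit 63880333092)) (T.h (P (nat_lit 0)) (P (nat_lit 9418316625904)))) (T.h (P (nat_lit 0)) (M (nat_lit 10129588388135)))) (T.h (T.h (P (nat_lit 0)) (T.h (T.h (P (nat_lit 0)) (M (nat_lit 5117294066583))) (P (nat_lit 0)))) (P (nat_lit 1855884173668))))))) (T.h (P (nat_lit 0)) (T.h (T.h (T.h (P (nat_lit 0)) (T.h (T.h (P (nat_lit 0)) (T.h (M (nat_lit 631443106183)) (T.h (P (nat_lit 0)) (T.h (P (nat_lit 3375476604632)) (T.h (P (nat_lit 0)) (M (nat_lit 131806860332883))))))) (T.h (P (nat_lit 0)) (T.h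 (T.h (P (nat_lit 0)) (T.h (P (nat_lit 3375476604632)) (T.h (P (nat_lit 0)) (M (nat_lit 124871653391671))))) (T.h (P (nat_lit 0)) (T.h (T.h (P (nat_lit 0)) (M (nat_lit 131806860332883))) (P (nat_lit 0)))))))) (T.h (T.h (T.h (M (nat_lit 4608832183)) (T.h (P (nat_lit 0)) (T.h (P (nat_lit 764496388172)) (T.h (P (nat_lit 0)) (P (nat_lit 49630010453232)))))) (T.h (P (nat_lit 0)) (T.h (T.h (P (nat_lit 764496388172)) (T.h (P (nat_lit 0)) (M (nat_lit 33137492372511)))) (T.h (P (nat_lit 0)) (P (nat_lit 49630010453232)))))) (T.h (T.h (P (nat_lit 0)) (T.h (T.h (P (nat_lit 0)) (T.h (M (nat_lit 23060077224095)) (T.h (P (nat_lit 0)) (P (nat_lit 1047629078704252))))) (T.h (P (nat_lit 0)) (T.h (T.h (P (nat_lit 0)) (P (nat_lit 1047629078704252))) (P (nat_lit 0)))))) (T.h (T.h (T.h (P (nat_lit 112109761896)) (T.h (P (nat_lit 0)) (M (nat_lit 42666036763899)))) (T.h (P (nat_lit 0)) (M (nat_lit 42666036763899))))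 (T.h (T.h (P (nat_lit 0)) (T.h (T.h (P (nat_lit 0)) (M (nat_lit 194565653098079))) (P (nat_lit 0)))) (M (nat_lit 6341617843351))))))) (P (nat_lit 0)))))) et0_16))
def et0_18 : T ℤ := (T.h (T.h (P (nat_lit 0)) (T.h (P (nat_lit 0)) (T.h (P (nat_lit 0)) (T.h (P (nat_lit 0)) (T.h (T.h (T.h (T.h (M (nat_lit 62528431)) (T.h (P (nat_lit 0)) (T.h (M (nat_lit 16900449979)) (T.h (P (nat_lit 0)) (T.h (M (nat_lit 125530406299)) (T.h (P (nat_lit 0)) (P (nat_lit 6551963517976)))))))) (T.h (P (nat_lit 0)) (T.h (T.h (M (nat_lit 5223951071)) (T.h (P (nat_lit 0)) (T.h (P (nat_lit 98901628520)) (T.h (P (nat_lit 0)) (M (nat_lit 3791095779391)))))) (T.h (P (nat_lit 0)) (T.h (T.h (P (nat_lit 130577256848)) (T.h (P (nat_lit 0)) (M (nat_lit 4715881248183)))) (T.h (P (nat_lit 0)) (M (nat_lit 1746892988063)))))))) (T.h (T.h (P (nat_lit 0)) (T.h (T.h (P (nat_lit 0)) (T.h (M (nat_lit 1619404514743)) (T.h (P (nat_lit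 0)) (M (nat_lit 8681024761855))))) (T.h (P (nat_lit 0)) (T.h (T.h (P (nat_lit 0)) (P (nat_lit 12638991270184))) (P (nat_lit 0)))))) (T.h (T.h (T.h (M (nat_lit 16900449979)) (T.h (P (nat_lit 0)) (T.h (P (nat_lit 349308712920)) (T.h (P (nat_lit 0)) (P (nat_lit 42996277855480)))))) (T.h (P (nat_lit 0)) (T.h (T.h (P (nat_lit 98901628520)) (T.h (P (nat_lit 0)) (M (nat_lit 228484527337095)))) (T.h (P (nat_lit 0)) (M (nat_lit 4715881248183)))))) (T.h (T.h (P (nat_lit 0)) (T.h (T.h (P (nat_lit 0)) (M (nat_lit 8681024761855))) (P (nat_lit 0)))) (T.h (T.h (T.h (M (nat_lit 125530406299)) (T.h (P (nat_lit 0)) (P (nat_lit 42996277855480)))) (T.h (P (nat_lit 0)) (M (nat_lit 3791095779391)))) (T.h (P (nat_lit 0)) (P (nat_lit 6551963517976)))))))) (T.h (P (nat_lit 0)) (T.h (T.h (T.h (T.h (P (nat_lit 145292312)) (T.h (P (nat_lit 0)) (T.h (P (nat_lit 24461052660)) (T.h (P (nat_lit 0)) (T.h (M (nat_lit 2749079082683))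 (T.h (P (nat_lit 0)) (P (nat_lit 124867342192208)))))))) (T.h (P (nat_lit 0)) (T.h (T.h (P (nat_lit 6871335988)) (T.h (P (nat_lit 0)) (T.h (M (nat_lit 2917569247163)) (T.h (P (nat_lit 0)) (P (nat_lit 77971784982740)))))) (T.h (P (nat_lit 0)) (T.h (T.h (M (nat_lit 176445457935)) (T.h (P (nat_lit 0)) (M (nat_lit 11468508036743)))) (T.h (P (nat_lit 0)) (P (nat_lit 2623073607572)))))))) (T.h (T.h (P (nat_lit 0)) (T.h (T.h (P (nat_lit 0)) (T.h (P (nat_lit 1679229542056)) (T.h (P (nat_lit 0)) (P (nat_lit 55552322622940))))) (T.h (P (nat_lit 0)) (T.h (T.h (P (nat_lit 0)) (M (nat_lit 23033243445519))) (P (nat_lit 0)))))) (T.h (T.h (T.h (P (nat_lit 79804914728)) (T.h (P (nat_lit 0)) (T.h (M (nat_lit 994120471387)) (T.h (P (nat_lit 0)) (P (nat_lit 387116423437260)))))) (T.h (P (nat_lit 0)) (T.h (T.h (P (nat_lit 816726574796)) (T.h (P (nat_lit 0)) (P (nat_lit 300292578959032)))) (T.h (P (nat_lit 0))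 (M (nat_lit 11717683624327)))))) (T.h (T.h (P (nat_lit 0)) (T.h (T.h (P (nat_lit 0)) (M (nat_lit 13855469404127))) (P (nat_lit 0)))) (T.h (T.h (T.h (M (nat_lit 91458403519)) (T.h (P (nat_lit 0)) (M (nat_lit 56904076317263)))) (T.h (P (nat_lit 0)) (M (nat_lit 52901274929139)))) (T.h (P (nat_lit 0)) (P (nat_lit 25095232783720)))))))) (P (nat_lit 0))))))))) (T.h (T.h (P (nat_lit 0)) (T.h (P (nat_lit 0)) (T.h (P (nat_lit 0)) (T.h (T.h (T.h (P (nat_lit 0)) (T.h (T.h (P (nat_lit 0)) (T.h (P (nat_lit 38217503048)) (T.h (P (nat_lit 0)) (T.h (M (nat_lit 17115355523)) (T.h (P (nat_lit 0)) (M (nat_lit 5123967253955))))))) (T.h (P (nat_lit 0)) (T.h (T.h (P (nat_lit 0)) (T.h (M (nat_lit 746394479747)) (T.h (P (nat_lit 0)) (P (nat_lit 11368955011364))))) (T.h (P (nat_lit 0)) (T.h (T.h (P (nat_lit 0)) (P (nat_lit 5506997230312))) (P (nat_lit 0)))))))) (T.h (T.h (T.h (M (nat_lit 336812099)) (T.h (P (nat_lit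 0)) (T.h (P (nat_lit 148939436028)) (T.h (P (nat_lit 0)) (P (nat_lit 412199573132)))))) (T.h (P (nat_lit 0)) (T.h (T.h (M (nat_lit 130890979843)) (T.h (P (nat_lit 0)) (M (nat_lit 3794827816319)))) (T.h (P (nat_lit 0)) (M (nat_lit 10447131595671)))))) (T.h (T.h (P (nat_lit 0)) (T.h (T.h (P (nat_lit 0)) (T.h (P (nat_lit 3200040498660)) (T.h (P (nat_lit 0)) (M (nat_lit 36377919877363))))) (T.h (P (nat_lit 0)) (T.h (T.h (P (nat_lit 0)) (M (nat_lit 178493860578155))) (P (nat_lit 0)))))) (T.h (T.h (T.h (P (nat_lit 63880333092)) (T.h (P (nat_lit 0)) (M (nat_lit 10129588388135)))) (T.h (P (nat_lit 0)) (P (nat_lit 9418316625904)))) (T.h (T.h (P (nat_lit 0)) (T.h (T.h (P (nat_lit 0)) (M (nat_lit 5117294066583))) (P (nat_lit 0)))) (P (nat_lit 1855884173668))))))) (T.h (P (nat_lit 0)) (T.h (T.h (T.h (P (nat_lit 0)) (T.h (T.h (P (nat_lit 0)) (T.h (P (nat_lit 65294193316)) (T.h (P (nat_lit 0)) (T.h (P (nat_lit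 1236508864492)) (T.h (P (nat_lit 0)) (M (nat_lit 32107954118239))))))) (T.h (P (nat_lit 0)) (T.h (T.h (P (nat_lit 0)) (T.h (M (nat_lit 1715443305399)) (T.h (P (nat_lit 0)) (P (nat_lit 31549503715092))))) (T.h (P (nat_lit 0)) (T.h (T.h (P (nat_lit 0)) (P (nat_lit 42839645572108))) (P (nat_lit 0)))))))) (T.h (T.h (T.h (P (nat_lit 10366669104)) (T.h (P (nat_lit 0)) (T.h (P (nat_lit 232794387804)) (T.h (P (nat_lit 0)) (P (nat_lit 12259233023136)))))) (T.h (P (nat_lit 0)) (T.h (T.h (P (nat_lit 335364009376)) (T.h (P (nat_lit 0)) (M (nat_lit 70178424353091)))) (T.h (P (nat_lit 0)) (P (nat_lit 7562524682636)))))) (T.h (T.h (P (nat_lit 0)) (T.h (T.h (P (nat_lit 0)) (T.h (M (nat_lit 13396079933103)) (T.h (P (nat_lit 0)) (P (nat_lit 37652462818124))))) (T.h (P (nat_lit 0)) (T.h (T.h (P (nat_lit 0)) (P (nat_lit 156462115975044))) (P (nat_lit 0)))))) (T.h (T.h (T.h (M (nat_lit 201232817103)) (T.h (P (nat_lit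 0)) (P (nat_lit 73121542487532)))) (T.h (P (nat_lit 0)) (M (nat_lit 6821580898351)))) (T.h (T.h (P (nat_lit 0)) (T.h (T.h (P (nat_lit 0)) (M (nat_lit 14023782592907))) (P (nat_lit 0)))) (P (nat_lit 4147841570136))))))) (P (nat_lit 0)))))))) et0_17))
def et0_19 : T ℤ := (T.h (T.h (T.h (T.h (T.h (P (nat_lit 0)) (T.h (P (nat_lit 2270491464)) (T.h (P (nat_lit 0)) (T.h (M (nat_lit 36798685715)) (T.h (P (nat_lit 0)) (M (nat_lit 417894551131))))))) (T.h (P (nat_lit 0)) (T.h (T.h (P (nat_lit 0)) (T.h (M (nat_lit 6929845307)) (T.h (P (nat_lit 0)) (M (nat_lit 59471335607))))) (T.h (P (nat_lit 0)) (T.h (T.h (P (nat_lit 0)) (M (nat_lit 270143222463))) (P (nat_lit 0))))))) (T.h (T.h (P (nat_lit 0)) (T.h (T.h (M (nat_lit 13753853663)) (T.h (P (nat_lit 0)) (T.h (P (nat_lit 357097289124)) (T.h (P (nat_lit 0)) (M (nat_lit 8370435649727)))))) (T.h (P (nat_lit 0)) (T.h (T.h (P (nat_lit 49806175832)) (T.h (P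 (nat_lit 0)) (M (nat_lit 4588665984999)))) (T.h (P (nat_lit 0)) (P (nat_lit 5228982610064))))))) (T.h (T.h (T.h (P (nat_lit 0)) (T.h (P (nat_lit 78860590644)) (T.h (P (nat_lit 0)) (P (nat_lit 1185726420524))))) (T.h (P (nat_lit 0)) (T.h (T.h (P (nat_lit 0)) (P (nat_lit 4398689160504))) (P (nat_lit 0))))) (T.h (T.h (P (nat_lit 0)) (T.h (T.h (P (nat_lit 8235131811300)) (T.h (P (nat_lit 0)) (P (nat_lit 34685970099560)))) (T.h (P (nat_lit 0)) (M (nat_lit 86581946584883))))) (T.h (T.h (T.h (P (nat_lit 0)) (P (nat_lit 2878474024452))) (P (nat_lit 0))) (T.h (T.h (P (nat_lit 0)) (M (nat_lit 1407496825639))) (P (nat_lit 0)))))))) (T.h (P (nat_lit 0)) (T.h (T.h (T.h (T.h (P (nat_lit 0)) (T.h (M (nat_lit 3798648567)) (T.h (P (nat_lit 0)) (T.h (M (nat_lit 609419066211)) (T.h (P (nat_lit 0)) (P (nat_lit 6597337231100))))))) (T.h (P (nat_lit 0)) (T.h (T.h (P (nat_lit 0)) (T.h (M (nat_lit 854623582383))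 (T.h (P (nat_lit 0)) (M (nat_lit 5435131585839))))) (T.h (P (nat_lit 0)) (T.h (T.h (P (nat_lit 0)) (M (nat_lit 1885279900459))) (P (nat_lit 0))))))) (T.h (T.h (P (nat_lit 0)) (T.h (T.h (P (nat_lit 310346928188)) (T.h (P (nat_lit 0)) (T.h (M (nat_lit 14479106483951)) (T.h (P (nat_lit 0)) (P (nat_lit 210626504948816)))))) (T.h (P (nat_lit 0)) (T.h (T.h (M (nat_lit 46347975123)) (T.h (P (nat_lit 0)) (M (nat_lit 73864881973651)))) (T.h (P (nat_lit 0)) (P (nat_lit 58445859643996))))))) (T.h (T.h (T.h (P (nat_lit 0)) (T.h (P (nat_lit 1640820403992)) (T.h (P (nat_lit 0)) (P (nat_lit 47158804252032))))) (T.h (P (nat_lit 0)) (T.h (T.h (P (nat_lit 0)) (P (nat_lit 21119555171352))) (P (nat_lit 0))))) (T.h (T.h (P (nat_lit 0)) (T.h (T.h (P (nat_lit 20214433508808)) (T.h (P (nat_lit 0)) (P (nat_lit 52496944114208)))) (T.h (P (nat_lit 0)) (P (nat_lit 51121210928348))))) (T.h (T.h (T.h (P (nat_lit 0)) (P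 (nat_lit 12703795860492))) (P (nat_lit 0))) (T.h (T.h (P (nat_lit 0)) (M (nat_lit 86679835090815))) (P (nat_lit 0)))))))) (P (nat_lit 0))))) (T.h (T.h (P (nat_lit 0)) (T.h (T.h (T.h (P (nat_lit 0)) (T.h (T.h (P (nat_lit 10366669104)) (T.h (P (nat_lit 0)) (T.h (P (nat_lit 335364009376)) (T.h (P (nat_lit 0)) (P (nat_lit 7562524682636)))))) (T.h (P (nat_lit 0)) (T.h (T.h (M (nat_lit 201232817103)) (T.h (P (nat_lit 0)) (M (nat_lit 6821580898351)))) (T.h (P (nat_lit 0)) (P (nat_lit 4147841570136))))))) (T.h (T.h (T.h (P (nat_lit 0)) (T.h (P (nat_lit 65294193316)) (T.h (P (nat_lit 0)) (T.h (M (nat_lit 1715443305399)) (T.h (P (nat_lit 0)) (P (nat_lit 42839645572108))))))) (T.h (P (nat_lit 0)) (T.h (T.h (P (nat_lit 0)) (T.h (M (nat_lit 13396079933103)) (T.h (P (nat_lit 0)) (P (nat_lit 156462115975044))))) (T.h (P (nat_lit 0)) (T.h (T.h (P (nat_lit 0)) (M (nat_lit 14023782592907))) (P (nat_lit 0)))))))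 (T.h (T.h (P (nat_lit 0)) (T.h (T.h (P (nat_lit 232794387804)) (T.h (P (nat_lit 0)) (M (nat_lit 70178424353091)))) (T.h (P (nat_lit 0)) (P (nat_lit 73121542487532))))) (T.h (T.h (T.h (P (nat_lit 0)) (T.h (P (nat_lit 1236508864492)) (T.h (P (nat_lit 0)) (P (nat_lit 31549503715092))))) (T.h (P (nat_lit 0)) (T.h (T.h (P (nat_lit 0)) (P (nat_lit 37652462818124))) (P (nat_lit 0))))) (T.h (T.h (P (nat_lit 0)) (P (nat_lit 12259233023136))) (T.h (T.h (T.h (P (nat_lit 0)) (M (nat_lit 32107954118239))) (P (nat_lit 0))) (P (nat_lit 0)))))))) (P (nat_lit 0)))) (T.h (T.h (T.h (T.h (T.h (P (nat_lit 0)) (T.h (P (nat_lit 2457212296)) (T.h (P (nat_lit 0)) (T.h (M (nat_lit 29047071767)) (T.h (P (nat_lit 0)) (M (nat_lit 258915560111))))))) (T.h (P (nat_lit 0)) (T.h (T.h (P (nat_lit 0)) (T.h (M (nat_lit 922957152699)) (T.h (P (nat_lit 0)) (P (nat_lit 13406000898180))))) (T.h (P (nat_lit 0)) (T.h (T.h (P (nat_lit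 0)) (M (nat_lit 3663603789779))) (P (nat_lit 0))))))) (T.h (T.h (P (nat_lit 0)) (T.h (T.h (P (nat_lit 19260018536)) (T.h (P (nat_lit 0)) (T.h (M (nat_lit 348292303215)) (T.h (P (nat_lit 0)) (P (nat_lit 59381912924488)))))) (T.h (P (nat_lit 0)) (T.h (T.h (M (nat_lit 10724780851707)) (T.h (P (nat_lit 0)) (M (nat_lit 130831915665659)))) (T.h (P (nat_lit 0)) (P (nat_lit 127816228643180))))))) (T.h (T.h (T.h (P (nat_lit 0)) (T.h (M (nat_lit 922957152699)) (T.h (P (nat_lit 0)) (P (nat_lit 13406000898180))))) (T.h (P (nat_lit 0)) (T.h (T.h (P (nat_lit 0)) (M (nat_lit 43828307913543))) (P (nat_lit 0))))) (T.h (T.h (P (nat_lit 0)) (T.h (T.h (M (nat_lit 10724780851707)) (T.h (P (nat_lit 0)) (M (nat_lit 130831915665659)))) (T.h (P (nat_lit 0)) (P (nat_lit 439864585331688))))) (T.h (T.h (T.h (P (nat_lit 0)) (M (nat_lit 3663603789779))) (P (nat_lit 0))) (T.h (T.h (P (nat_lit 0)) (P (nat_lit 127816228643180)))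 (P (nat_lit 0)))))))) (P (nat_lit 0))) (P (nat_lit 0)))))
def et0_20 : T ℤ := (T.h (T.h (P (nat_lit 0)) (T.h (P (nat_lit 0)) (T.h (T.h (T.h (T.h (P (nat_lit 0)) (T.h (P (nat_lit 194212400)) (T.h (P (nat_lit 0)) (T.h (M (nat_lit 78065939751)) (T.h (P (nat_lit 0)) (P (nat_lit 1262840359700))))))) (T.h (P (nat_lit 0)) (T.h (T.h (P (nat_lit 0)) (T.h (P (nat_lit 35445446464)) (T.h (P (nat_lit 0)) (M (nat_lit 312770304675))))) (T.h (P (nat_lit 0)) (T.h (T.h (P (nat_lit 0)) (P (nat_lit 330710885556))) (P (nat_lit 0))))))) (T.h (T.h (P (nat_lit 0)) (T.h (T.h (M (nat_lit 38147197239)) (T.h (P (nat_lit 0)) (T.h (P (nat_lit 193366473376)) (T.h (P (nat_lit 0)) (M (nat_lit 1041231066363)))))) (T.h (P (nat_lit 0)) (T.h (T.h (P (nat_lit 52387848216)) (T.h (P (nat_lit 0)) (M (nat_lit 4139459132851)))) (T.h (P (nat_lit 0)) (P (nat_lit 8663185017112))))))) (T.h (T.h (T.h (P (nat_lit 0)) (T.h (P (nat_lit 34982029392))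 (T.h (P (nat_lit 0)) (P (nat_lit 405159169784))))) (T.h (P (nat_lit 0)) (T.h (T.h (P (nat_lit 0)) (P (nat_lit 5611090088260))) (P (nat_lit 0))))) (T.h (T.h (P (nat_lit 0)) (T.h (T.h (M (nat_lit 2644612159523)) (T.h (P (nat_lit 0)) (P (nat_lit 18983733843488)))) (T.h (P (nat_lit 0)) (M (nat_lit 1677877637287))))) (T.h (T.h (T.h (P (nat_lit 0)) (M (nat_lit 32469430145567))) (P (nat_lit 0))) (T.h (T.h (P (nat_lit 0)) (P (nat_lit 18021075021236))) (P (nat_lit 0)))))))) (T.h (P (nat_lit 0)) (T.h (T.h (T.h (T.h (P (nat_lit 0)) (T.h (P (nat_lit 10366669104)) (T.h (P (nat_lit 0)) (T.h (M (nat_lit 201232817103)) (T.h (P (nat_lit 0)) (P (nat_lit 4147841570136))))))) (T.h (P (nat_lit 0)) (T.h (T.h (P (nat_lit 0)) (T.h (P (nat_lit 335364009376)) (T.h (P (nat_lit 0)) (M (nat_lit 6821580898351))))) (T.h (P (nat_lit 0)) (T.h (T.h (P (nat_lit 0)) (P (nat_lit 7562524682636))) (P (nat_lit 0))))))) (T.h (T.h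 (P (nat_lit 0)) (T.h (T.h (P (nat_lit 65294193316)) (T.h (P (nat_lit 0)) (T.h (M (nat_lit 13396079933103)) (T.h (P (nat_lit 0)) (M (nat_lit 14023782592907)))))) (T.h (P (nat_lit 0)) (T.h (T.h (M (nat_lit 1715443305399)) (T.h (P (nat_lit 0)) (P (nat_lit 156462115975044)))) (T.h (P (nat_lit 0)) (P (nat_lit 42839645572108))))))) (T.h (T.h (T.h (P (nat_lit 0)) (T.h (P (nat_lit 232794387804)) (T.h (P (nat_lit 0)) (P (nat_lit 73121542487532))))) (T.h (P (nat_lit 0)) (T.h (T.h (P (nat_lit 0)) (M (nat_lit 70178424353091))) (P (nat_lit 0))))) (T.h (T.h (P (nat_lit 0)) (T.h (T.h (P (nat_lit 1236508864492)) (T.h (P (nat_lit 0)) (P (nat_lit 37652462818124)))) (T.h (P (nat_lit 0)) (P (nat_lit 31549503715092))))) (T.h (T.h (T.h (P (nat_lit 0)) (P (nat_lit 12259233023136))) (P (nat_lit 0))) (T.h (T.h (P (nat_lit 0)) (M (nat_lit 32107954118239))) (P (nat_lit 0)))))))) (P (nat_lit 0))))))) (T.h (T.h (P (nat_lit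 0)) (T.h (T.h (T.h (P (nat_lit 0)) (T.h (T.h (P (nat_lit 194212400)) (T.h (P (nat_lit 0)) (T.h (P (nat_lit 35445446464)) (T.h (P (nat_lit 0)) (P (nat_lit 330710885556)))))) (T.h (P (nat_lit 0)) (T.h (T.h (M (nat_lit 78065939751)) (T.h (P (nat_lit 0)) (M (nat_lit 312770304675)))) (T.h (P (nat_lit 0)) (P (nat_lit 1262840359700))))))) (T.h (T.h (T.h (P (nat_lit 0)) (T.h (M (nat_lit 38147197239)) (T.h (P (nat_lit 0)) (T.h (P (nat_lit 52387848216)) (T.h (P (nat_lit 0)) (P (nat_lit 8663185017112))))))) (T.h (P (nat_lit 0)) (T.h (T.h (P (nat_lit 0)) (T.h (P (nat_lit 193366473376)) (T.h (P (nat_lit 0)) (M (nat_lit 4139459132851))))) (T.h (P (nat_lit 0)) (T.h (T.h (P (nat_lit 0)) (M (nat_lit 1041231066363))) (P (nat_lit 0))))))) (T.h (T.h (P (nat_lit 0)) (T.h (T.h (P (nat_lit 34982029392)) (T.h (P (nat_lit 0)) (P (nat_lit 5611090088260)))) (T.h (P (nat_lit 0)) (P (nat_lit 405159169784))))) (T.h (T.h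 (T.h (P (nat_lit 0)) (T.h (M (nat_lit 2644612159523)) (T.h (P (nat_lit 0)) (M (nat_lit 1677877637287))))) (T.h (P (nat_lit 0)) (T.h (T.h (P (nat_lit 0)) (P (nat_lit 18983733843488))) (P (nat_lit 0))))) (T.h (T.h (P (nat_lit 0)) (M (nat_lit 32469430145567))) (T.h (T.h (T.h (P (nat_lit 0)) (P (nat_lit 18021075021236))) (P (nat_lit 0))) (P (nat_lit 0)))))))) (T.h (P (nat_lit 0)) (T.h (T.h (T.h (P (nat_lit 0)) (T.h (T.h (M (nat_lit 3798648567)) (T.h (P (nat_lit 0)) (T.h (M (nat_lit 854623582383)) (T.h (P (nat_lit 0)) (M (nat_lit 1885279900459)))))) (T.h (P (nat_lit 0)) (T.h (T.h (M (nat_lit 609419066211)) (T.h (P (nat_lit 0)) (M (nat_lit 5435131585839)))) (T.h (P (nat_lit 0)) (P (nat_lit 6597337231100))))))) (T.h (T.h (T.h (P (nat_lit 0)) (T.h (P (nat_lit 310346928188)) (T.h (P (nat_lit 0)) (T.h (M (nat_lit 46347975123)) (T.h (P (nat_lit 0)) (P (nat_lit 58445859643996))))))) (T.h (P (nat_lit 0))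 (T.h (T.h (P (nat_lit 0)) (T.h (M (nat_lit 14479106483951)) (T.h (P (nat_lit 0)) (M (nat_lit 73864881973651))))) (T.h (P (nat_lit 0)) (T.h (T.h (P (nat_lit 0)) (P (nat_lit 210626504948816))) (P (nat_lit 0))))))) (T.h (T.h (P (nat_lit 0)) (T.h (T.h (P (nat_lit 1640820403992)) (T.h (P (nat_lit 0)) (P (nat_lit 21119555171352)))) (T.h (P (nat_lit 0)) (P (nat_lit 47158804252032))))) (T.h (T.h (T.h (P (nat_lit 0)) (T.h (P (nat_lit 20214433508808)) (T.h (P (nat_lit 0)) (P (nat_lit 51121210928348))))) (T.h (P (nat_lit 0)) (T.h (T.h (P (nat_lit 0)) (P (nat_lit 52496944114208))) (P (nat_lit 0))))) (T.h (T.h (P (nat_lit 0)) (P (nat_lit 12703795860492))) (T.h (T.h (T.h (P (nat_lit 0)) (M (nat_lit 86679835090815))) (P (nat_lit 0))) (P (nat_lit 0)))))))) (P (nat_lit 0)))))) et0_19))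
def et0_21 : T ℤ := (T.h (T.h (T.h (T.h (T.h (P (nat_lit 30128108)) (T.h (P (nat_lit 0)) (T.h (P (nat_lit 1149631928)) (T.h (P (nat_lit 0)) (T.h (M (nat_lit 18596284487)) (T.h (P (nat_lit 0)) (P (nat_lit 564696938868)))))))) (T.h (P (nat_lit 0)) (T.h (T.h (P (nat_lit 3616056120)) (T.h (P (nat_lit 0)) (T.h (P (nat_lit 12574033836)) (T.h (P (nat_lit 0)) (M (nat_lit 1944566603231)))))) (T.h (P (nat_lit 0)) (T.h (T.h (P (nat_lit 86678978460)) (T.h (P (nat_lit 0)) (M (nat_lit 1958735805163)))) (T.h (P (nat_lit 0)) (M (nat_lit 1795331387947)))))))) (T.h (T.h (P (nat_lit 0)) (T.h (T.h (P (nat_lit 0)) (T.h (M (nat_lit 21975144131)) (T.h (P (nat_lit 0)) (M (nat_lit 287979988839))))) (T.h (P (nat_lit 0)) (T.h (T.h (P (nat_lit 0)) (M (nat_lit 203355425975))) (P (nat_lit 0)))))) (T.h (T.h (T.h (M (nat_lit 14681066707)) (T.h (P (nat_lit 0)) (T.h (M (nat_lit 417292859023)) (T.h (P (nat_lit 0)) (P (nat_lit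 6838140259312)))))) (T.h (P (nat_lit 0)) (T.h (T.h (M (nat_lit 218563427315)) (T.h (P (nat_lit 0)) (P (nat_lit 607059601804)))) (T.h (P (nat_lit 0)) (P (nat_lit 6362593244944)))))) (T.h (T.h (P (nat_lit 0)) (T.h (T.h (P (nat_lit 0)) (P (nat_lit 181936539620))) (P (nat_lit 0)))) (T.h (T.h (T.h (P (nat_lit 368062827288)) (T.h (P (nat_lit 0)) (M (nat_lit 16451472673519)))) (T.h (P (nat_lit 0)) (M (nat_lit 109835486103791)))) (T.h (P (nat_lit 0)) (M (nat_lit 15839874635779)))))))) (T.h (P (nat_lit 0)) (T.h (T.h (T.h (T.h (M (nat_lit 948428535)) (T.h (P (nat_lit 0)) (T.h (P (nat_lit 174162586224)) (T.h (P (nat_lit 0)) (T.h (M (nat_lit 708147791559)) (T.h (P (nat_lit 0)) (P (nat_lit 12097060602616)))))))) (T.h (P (nat_lit 0)) (T.h (T.h (P (nat_lit 174162586224)) (T.h (P (nat_lit 0)) (T.h (M (nat_lit 2432438624351)) (T.h (P (nat_lit 0)) (M (nat_lit 28928539885431)))))) (T.h (P (nat_lit 0)) (T.h (T.h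 (M (nat_lit 708147791559)) (T.h (P (nat_lit 0)) (M (nat_lit 28928539885431)))) (T.h (P (nat_lit 0)) (P (nat_lit 12097060602616)))))))) (T.h (T.h (P (nat_lit 0)) (T.h (T.h (P (nat_lit 0)) (T.h (M (nat_lit 1302289294063)) (T.h (P (nat_lit 0)) (P (nat_lit 18264320337560))))) (T.h (P (nat_lit 0)) (T.h (T.h (P (nat_lit 0)) (P (nat_lit 18264320337560))) (P (nat_lit 0)))))) (T.h (T.h (T.h (M (nat_lit 57660172591)) (T.h (P (nat_lit 0)) (T.h (P (nat_lit 9103864942744)) (T.h (P (nat_lit 0)) (P (nat_lit 38342865115192)))))) (T.h (P (nat_lit 0)) (T.h (T.h (P (nat_lit 9103864942744)) (T.h (P (nat_lit 0)) (M (nat_lit 386488400117775)))) (T.h (P (nat_lit 0)) (P (nat_lit 38342865115192)))))) (T.h (T.h (P (nat_lit 0)) (T.h (T.h (P (nat_lit 0)) (P (nat_lit 32844191892248))) (P (nat_lit 0)))) (T.h (T.h (T.h (P (nat_lit 2562505814792)) (T.h (P (nat_lit 0)) (M (nat_lit 15057711883367)))) (T.h (P (nat_lit 0)) (M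 (nat_lit 15057711883367)))) (T.h (P (nat_lit 0)) (M (nat_lit 82359646229167)))))))) (P (nat_lit 0))))) (T.h (T.h (P (nat_lit 0)) (T.h (T.h (T.h (P (nat_lit 0)) (T.h (T.h (P (nat_lit 0)) (T.h (M (nat_lit 20530120159)) (T.h (P (nat_lit 0)) (T.h (M (nat_lit 648273458315)) (T.h (P (nat_lit 0)) (M (nat_lit 27712918292443))))))) (T.h (P (nat_lit 0)) (T.h (T.h (P (nat_lit 0)) (T.h (P (nat_lit 540303783140)) (T.h (P (nat_lit 0)) (P (nat_lit 6263706898812))))) (T.h (P (nat_lit 0)) (T.h (T.h (P (nat_lit 0)) (M (nat_lit 43246740366103))) (P (nat_lit 0)))))))) (T.h (T.h (T.h (M (nat_lit 12518696783)) (T.h (P (nat_lit 0)) (T.h (M (nat_lit 288016615787)) (T.h (P (nat_lit 0)) (M (nat_lit 4098018468147)))))) (T.h (P (nat_lit 0)) (T.h (T.h (P (nat_lit 671047004276)) (T.h (P (nat_lit 0)) (P (nat_lit 1064214134896)))) (T.h (P (nat_lit 0)) (M (nat_lit 7468888658527)))))) (T.h (T.h (P (nat_lit 0)) (T.h (T.h (P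 (nat_lit 0)) (T.h (P (nat_lit 7900280193520)) (T.h (P (nat_lit 0)) (M (nat_lit 32646386618867))))) (T.h (P (nat_lit 0)) (T.h (T.h (P (nat_lit 0)) (M (nat_lit 90448743636547))) (P (nat_lit 0)))))) (T.h (T.h (T.h (M (nat_lit 104368986611)) (T.h (P (nat_lit 0)) (M (nat_lit 2929160748095)))) (T.h (P (nat_lit 0)) (P (nat_lit 24446408956948)))) (T.h (T.h (P (nat_lit 0)) (T.h (T.h (P (nat_lit 0)) (M (nat_lit 470579508895055))) (P (nat_lit 0)))) (M (nat_lit 20931372212475))))))) (P (nat_lit 0)))) (T.h (T.h (T.h (T.h (T.h (P (nat_lit 145292312)) (T.h (P (nat_lit 0)) (T.h (P (nat_lit 6871335988)) (T.h (P (nat_lit 0)) (T.h (M (nat_lit 176445457935)) (T.h (P (nat_lit 0)) (P (nat_lit 2623073607572)))))))) (T.h (P (nat_lit 0)) (T.h (T.h (P (nat_lit 79804914728)) (T.h (P (nat_lit 0)) (T.h (P (nat_lit 816726574796)) (T.h (P (nat_lit 0)) (M (nat_lit 11717683624327)))))) (T.h (P (nat_lit 0)) (T.h (T.h (M (nat_lit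 91458403519)) (T.h (P (nat_lit 0)) (M (nat_lit 52901274929139)))) (T.h (P (nat_lit 0)) (P (nat_lit 25095232783720)))))))) (T.h (T.h (P (nat_lit 0)) (T.h (T.h (P (nat_lit 0)) (T.h (P (nat_lit 1679229542056)) (T.h (P (nat_lit 0)) (M (nat_lit 23033243445519))))) (T.h (P (nat_lit 0)) (T.h (T.h (P (nat_lit 0)) (M (nat_lit 13855469404127))) (P (nat_lit 0)))))) (T.h (T.h (T.h (P (nat_lit 24461052660)) (T.h (P (nat_lit 0)) (T.h (M (nat_lit 2917569247163)) (T.h (P (nat_lit 0)) (M (nat_lit 11468508036743)))))) (T.h (P (nat_lit 0)) (T.h (T.h (M (nat_lit 994120471387)) (T.h (P (nat_lit 0)) (P (nat_lit 300292578959032)))) (T.h (P (nat_lit 0)) (M (nat_lit 56904076317263)))))) (T.h (T.h (P (nat_lit 0)) (T.h (T.h (P (nat_lit 0)) (P (nat_lit 55552322622940))) (P (nat_lit 0)))) (T.h (T.h (T.h (M (nat_lit 2749079082683)) (T.h (P (nat_lit 0)) (P (nat_lit 77971784982740)))) (T.h (P (nat_lit 0)) (P (nat_lit 387116423437260))))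 (T.h (P (nat_lit 0)) (P (nat_lit 124867342192208)))))))) (P (nat_lit 0))) (P (nat_lit 0)))))
def et0_22 : T ℤ := (T.h (T.h (P (nat_lit 0)) (T.h (P (nat_lit 0)) (T.h (T.h (T.h (T.h (P (nat_lit 30128108)) (T.h (P (nat_lit 0)) (T.h (P (nat_lit 3616056120)) (T.h (P (nat_lit 0)) (T.h (P (nat_lit 86678978460)) (T.h (P (nat_lit 0)) (M (nat_lit 1795331387947)))))))) (T.h (P (nat_lit 0)) (T.h (T.h (P (nat_lit 1149631928)) (T.h (P (nat_lit 0)) (T.h (P (nat_lit 12574033836)) (T.h (P (nat_lit 0)) (M (nat_lit 1958735805163)))))) (T.h (P (nat_lit 0)) (T.h (T.h (M (nat_lit 18596284487)) (T.h (P (nat_lit 0)) (M (nat_lit 1944566603231)))) (T.h (P (nat_lit 0)) (P (nat_lit 564696938868)))))))) (T.h (T.h (P (nat_lit 0)) (T.h (T.h (P (nat_lit 0)) (T.h (M (nat_lit 21975144131)) (T.h (P (nat_lit 0)) (M (nat_lit 203355425975))))) (T.h (P (nat_lit 0)) (T.h (T.h (P (nat_lit 0)) (M (nat_lit 287979988839))) (P (nat_lit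 0)))))) (T.h (T.h (T.h (M (nat_lit 14681066707)) (T.h (P (nat_lit 0)) (T.h (M (nat_lit 218563427315)) (T.h (P (nat_lit 0)) (P (nat_lit 6362593244944)))))) (T.h (P (nat_lit 0)) (T.h (T.h (M (nat_lit 417292859023)) (T.h (P (nat_lit 0)) (P (nat_lit 607059601804)))) (T.h (P (nat_lit 0)) (P (nat_lit 6838140259312)))))) (T.h (T.h (P (nat_lit 0)) (T.h (T.h (P (nat_lit 0)) (P (nat_lit 181936539620))) (P (nat_lit 0)))) (T.h (T.h (T.h (P (nat_lit 368062827288)) (T.h (P (nat_lit 0)) (M (nat_lit 109835486103791)))) (T.h (P (nat_lit 0)) (M (nat_lit 16451472673519)))) (T.h (P (nat_lit 0)) (M (nat_lit 15839874635779)))))))) (T.h (P (nat_lit 0)) (T.h (T.h (T.h (T.h (P (nat_lit 145292312)) (T.h (P (nat_lit 0)) (T.h (P (nat_lit 79804914728)) (T.h (P (nat_lit 0)) (T.h (M (nat_lit 91458403519)) (T.h (P (nat_lit 0)) (P (nat_lit 25095232783720)))))))) (T.h (P (nat_lit 0)) (T.h (T.h (P (nat_lit 6871335988)) (T.h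 (P (nat_lit 0)) (T.h (P (nat_lit 816726574796)) (T.h (P (nat_lit 0)) (M (nat_lit 52901274929139)))))) (T.h (P (nat_lit 0)) (T.h (T.h (M (nat_lit 176445457935)) (T.h (P (nat_lit 0)) (M (nat_lit 11717683624327)))) (T.h (P (nat_lit 0)) (P (nat_lit 2623073607572)))))))) (T.h (T.h (P (nat_lit 0)) (T.h (T.h (P (nat_lit 0)) (T.h (P (nat_lit 1679229542056)) (T.h (P (nat_lit 0)) (M (nat_lit 13855469404127))))) (T.h (P (nat_lit 0)) (T.h (T.h (P (nat_lit 0)) (M (nat_lit 23033243445519))) (P (nat_lit 0)))))) (T.h (T.h (T.h (P (nat_lit 24461052660)) (T.h (P (nat_lit 0)) (T.h (M (nat_lit 994120471387)) (T.h (P (nat_lit 0)) (M (nat_lit 56904076317263)))))) (T.h (P (nat_lit 0)) (T.h (T.h (M (nat_lit 2917569247163)) (T.h (P (nat_lit 0)) (P (nat_lit 300292578959032)))) (T.h (P (nat_lit 0)) (M (nat_lit 11468508036743)))))) (T.h (T.h (P (nat_lit 0)) (T.h (T.h (P (nat_lit 0)) (P (nat_lit 55552322622940))) (P (nat_lit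 0)))) (T.h (T.h (T.h (M (nat_lit 2749079082683)) (T.h (P (nat_lit 0)) (P (nat_lit 387116423437260)))) (T.h (P (nat_lit 0)) (P (nat_lit 77971784982740)))) (T.h (P (nat_lit 0)) (P (nat_lit 124867342192208)))))))) (P (nat_lit 0))))))) (T.h (T.h (P (nat_lit 0)) (T.h (T.h (T.h (P (nat_lit 0)) (T.h (T.h (P (nat_lit 0)) (T.h (M (nat_lit 2274308831)) (T.h (P (nat_lit 0)) (T.h (M (nat_lit 44991340959)) (T.h (P (nat_lit 0)) (P (nat_lit 2339862961852))))))) (T.h (P (nat_lit 0)) (T.h (T.h (P (nat_lit 0)) (T.h (M (nat_lit 44991340959)) (T.h (P (nat_lit 0)) (P (nat_lit 2270243975392))))) (T.h (P (nat_lit 0)) (T.h (T.h (P (nat_lit 0)) (P (nat_lit 2339862961852))) (P (nat_lit 0)))))))) (T.h (T.h (T.h (M (nat_lit 1323814839)) (T.h (P (nat_lit 0)) (T.h (M (nat_lit 45141921803)) (T.h (P (nat_lit 0)) (P (nat_lit 297150536804)))))) (T.h (P (nat_lit 0)) (T.h (T.h (M (nat_lit 45141921803)) (T.h (P (nat_lit 0)) (M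 (nat_lit 750569287999)))) (T.h (P (nat_lit 0)) (P (nat_lit 297150536804)))))) (T.h (T.h (P (nat_lit 0)) (T.h (T.h (P (nat_lit 0)) (T.h (M (nat_lit 31066057199)) (T.h (P (nat_lit 0)) (M (nat_lit 3417195795767))))) (T.h (P (nat_lit 0)) (T.h (T.h (P (nat_lit 0)) (M (nat_lit 3417195795767))) (P (nat_lit 0)))))) (T.h (T.h (T.h (M (nat_lit 66059172439)) (T.h (P (nat_lit 0)) (M (nat_lit 2138155595283)))) (T.h (P (nat_lit 0)) (M (nat_lit 2138155595283)))) (T.h (T.h (P (nat_lit 0)) (T.h (T.h (P (nat_lit 0)) (P (nat_lit 54112048721968))) (P (nat_lit 0)))) (P (nat_lit 5984101061096))))))) (T.h (P (nat_lit 0)) (T.h (T.h (T.h (P (nat_lit 0)) (T.h (T.h (P (nat_lit 0)) (T.h (M (nat_lit 20530120159)) (T.h (P (nat_lit 0)) (T.h (P (nat_lit 540303783140)) (T.h (P (nat_lit 0)) (M (nat_lit 43246740366103))))))) (T.h (P (nat_lit 0)) (T.h (T.h (P (nat_lit 0)) (T.h (M (nat_lit 648273458315)) (T.h (P (nat_lit 0))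 (P (nat_lit 6263706898812))))) (T.h (P (nat_lit 0)) (T.h (T.h (P (nat_lit 0)) (M (nat_lit 27712918292443))) (P (nat_lit 0)))))))) (T.h (T.h (T.h (M (nat_lit 12518696783)) (T.h (P (nat_lit 0)) (T.h (P (nat_lit 671047004276)) (T.h (P (nat_lit 0)) (M (nat_lit 7468888658527)))))) (T.h (P (nat_lit 0)) (T.h (T.h (M (nat_lit 288016615787)) (T.h (P (nat_lit 0)) (P (nat_lit 1064214134896)))) (T.h (P (nat_lit 0)) (M (nat_lit 4098018468147)))))) (T.h (T.h (P (nat_lit 0)) (T.h (T.h (P (nat_lit 0)) (T.h (P (nat_lit 7900280193520)) (T.h (P (nat_lit 0)) (M (nat_lit 90448743636547))))) (T.h (P (nat_lit 0)) (T.h (T.h (P (nat_lit 0)) (M (nat_lit 32646386618867))) (P (nat_lit 0)))))) (T.h (T.h (T.h (M (nat_lit 104368986611)) (T.h (P (nat_lit 0)) (P (nat_lit 24446408956948)))) (T.h (P (nat_lit 0)) (M (nat_lit 2929160748095)))) (T.h (T.h (P (nat_lit 0)) (T.h (T.h (P (nat_lit 0)) (M (nat_lit 470579508895055)))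 (P (nat_lit 0)))) (M (nat_lit 20931372212475))))))) (P (nat_lit 0)))))) et0_21))
def et0_23 : T ℤ := (T.h (T.h (T.h (T.h (T.h (P (nat_lit 0)) (T.h (M (nat_lit 114010627)) (T.h (P (nat_lit 0)) (T.h (M (nat_lit 2217424347)) (T.h (P (nat_lit 0)) (P (nat_lit 18545896296))))))) (T.h (P (nat_lit 0)) (T.h (T.h (P (nat_lit 0)) (T.h (M (nat_lit 2868324747)) (T.h (P (nat_lit 0)) (P (nat_lit 4531008324))))) (T.h (P (nat_lit 0)) (T.h (T.h (P (nat_lit 0)) (M (nat_lit 462597727287))) (P (nat_lit 0))))))) (T.h (T.h (P (nat_lit 0)) (T.h (T.h (M (nat_lit 894095127)) (T.h (P (nat_lit 0)) (T.h (M (nat_lit 83476511179)) (T.h (P (nat_lit 0)) (P (nat_lit 3528862073664)))))) (T.h (P (nat_lit 0)) (T.h (T.h (P (nat_lit 169616973732)) (T.h (P (nat_lit 0)) (P (nat_lit 1064230397392)))) (T.h (P (nat_lit 0)) (M (nat_lit 1837837636695))))))) (T.h (T.h (T.h (P (nat_lit 0)) (T.h (P (nat_lit 23276552380)) (T.h (P (nat_lit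 0)) (P (nat_lit 1144449466972))))) (T.h (P (nat_lit 0)) (T.h (T.h (P (nat_lit 0)) (M (nat_lit 50734677655))) (P (nat_lit 0))))) (T.h (T.h (P (nat_lit 0)) (T.h (T.h (P (nat_lit 36918942868)) (T.h (P (nat_lit 0)) (M (nat_lit 5213492097731)))) (T.h (P (nat_lit 0)) (P (nat_lit 7474034132668))))) (T.h (T.h (T.h (P (nat_lit 0)) (P (nat_lit 7416662447744))) (P (nat_lit 0))) (T.h (T.h (P (nat_lit 0)) (M (nat_lit 31656187968955))) (P (nat_lit 0)))))))) (T.h (P (nat_lit 0)) (T.h (T.h (T.h (T.h (P (nat_lit 0)) (T.h (M (nat_lit 1858154275)) (T.h (P (nat_lit 0)) (T.h (P (nat_lit 228602320364)) (T.h (P (nat_lit 0)) (M (nat_lit 1798061721675))))))) (T.h (P (nat_lit 0)) (T.h (T.h (P (nat_lit 0)) (T.h (M (nat_lit 171016141427)) (T.h (P (nat_lit 0)) (P (nat_lit 1569381262724))))) (T.h (P (nat_lit 0)) (T.h (T.h (P (nat_lit 0)) (M (nat_lit 2982328363783))) (P (nat_lit 0))))))) (T.h (T.h (P (nat_lit 0)) (T.h (T.h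 (M (nat_lit 12409465463)) (T.h (P (nat_lit 0)) (T.h (P (nat_lit 102959377444)) (T.h (P (nat_lit 0)) (M (nat_lit 13262984176287)))))) (T.h (P (nat_lit 0)) (T.h (T.h (P (nat_lit 1539355602972)) (T.h (P (nat_lit 0)) (P (nat_lit 14521551038632)))) (T.h (P (nat_lit 0)) (M (nat_lit 14190139463455))))))) (T.h (T.h (T.h (P (nat_lit 0)) (T.h (M (nat_lit 715624796919)) (T.h (P (nat_lit 0)) (M (nat_lit 34827371391))))) (T.h (P (nat_lit 0)) (T.h (T.h (P (nat_lit 0)) (P (nat_lit 5662119001352))) (P (nat_lit 0))))) (T.h (T.h (P (nat_lit 0)) (T.h (T.h (M (nat_lit 6529387513923)) (T.h (P (nat_lit 0)) (M (nat_lit 89313958300819)))) (T.h (P (nat_lit 0)) (M (nat_lit 46546979434251))))) (T.h (T.h (T.h (P (nat_lit 0)) (P (nat_lit 146502740709292))) (P (nat_lit 0))) (T.h (T.h (P (nat_lit 0)) (M (nat_lit 80991489341619))) (P (nat_lit 0)))))))) (P (nat_lit 0))))) (T.h (T.h (P (nat_lit 0)) (T.h (T.h (T.h (P (nat_lit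 0)) (T.h (T.h (M (nat_lit 1858154275)) (T.h (P (nat_lit 0)) (T.h (M (nat_lit 171016141427)) (T.h (P (nat_lit 0)) (M (nat_lit 2982328363783)))))) (T.h (P (nat_lit 0)) (T.h (T.h (P (nat_lit 228602320364)) (T.h (P (nat_lit 0)) (P (nat_lit 1569381262724)))) (T.h (P (nat_lit 0)) (M (nat_lit 1798061721675))))))) (T.h (T.h (T.h (P (nat_lit 0)) (T.h (M (nat_lit 12409465463)) (T.h (P (nat_lit 0)) (T.h (P (nat_lit 1539355602972)) (T.h (P (nat_lit 0)) (M (nat_lit 14190139463455))))))) (T.h (P (nat_lit 0)) (T.h (T.h (P (nat_lit 0)) (T.h (P (nat_lit 102959377444)) (T.h (P (nat_lit 0)) (P (nat_lit 14521551038632))))) (T.h (P (nat_lit 0)) (T.h (T.h (P (nat_lit 0)) (M (nat_lit 13262984176287))) (P (nat_lit 0))))))) (T.h (T.h (P (nat_lit 0)) (T.h (T.h (M (nat_lit 715624796919)) (T.h (P (nat_lit 0)) (P (nat_lit 5662119001352)))) (T.h (P (nat_lit 0)) (M (nat_lit 34827371391))))) (T.h (T.h (T.h (P (nat_lit 0))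 (T.h (M (nat_lit 6529387513923)) (T.h (P (nat_lit 0)) (M (nat_lit 46546979434251))))) (T.h (P (nat_lit 0)) (T.h (T.h (P (nat_lit 0)) (M (nat_lit 89313958300819))) (P (nat_lit 0))))) (T.h (T.h (P (nat_lit 0)) (P (nat_lit 146502740709292))) (T.h (T.h (T.h (P (nat_lit 0)) (M (nat_lit 80991489341619))) (P (nat_lit 0))) (P (nat_lit 0)))))))) (P (nat_lit 0)))) (T.h (T.h (T.h (T.h (T.h (P (nat_lit 0)) (T.h (M (nat_lit 4968475511)) (T.h (P (nat_lit 0)) (T.h (P (nat_lit 73814394588)) (T.h (P (nat_lit 0)) (P (nat_lit 855948930188))))))) (T.h (P (nat_lit 0)) (T.h (T.h (P (nat_lit 0)) (T.h (P (nat_lit 178549323964)) (T.h (P (nat_lit 0)) (M (nat_lit 4865477592359))))) (T.h (P (nat_lit 0)) (T.h (T.h (P (nat_lit 0)) (P (nat_lit 1915731352392))) (P (nat_lit 0))))))) (T.h (T.h (P (nat_lit 0)) (T.h (T.h (P (nat_lit 61704993636)) (T.h (P (nat_lit 0)) (T.h (M (nat_lit 1169230121531)) (T.h (P (nat_lit 0)) (P (nat_lit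 11734533014248)))))) (T.h (P (nat_lit 0)) (T.h (T.h (M (nat_lit 243150063947)) (T.h (P (nat_lit 0)) (P (nat_lit 38487826045724)))) (T.h (P (nat_lit 0)) (M (nat_lit 2460908426987))))))) (T.h (T.h (T.h (P (nat_lit 0)) (T.h (P (nat_lit 576836749632)) (T.h (P (nat_lit 0)) (M (nat_lit 366352987395))))) (T.h (P (nat_lit 0)) (T.h (T.h (P (nat_lit 0)) (P (nat_lit 10320264767120))) (P (nat_lit 0))))) (T.h (T.h (P (nat_lit 0)) (T.h (T.h (M (nat_lit 8460316751655)) (T.h (P (nat_lit 0)) (P (nat_lit 40191469935584)))) (T.h (P (nat_lit 0)) (P (nat_lit 10201815208420))))) (T.h (T.h (T.h (P (nat_lit 0)) (M (nat_lit 2863453597047))) (P (nat_lit 0))) (T.h (T.h (P (nat_lit 0)) (P (nat_lit 50502653299076))) (P (nat_lit 0)))))))) (P (nat_lit 0))) (P (nat_lit 0)))))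
def et0_24 : T ℤ := (T.h (T.h (T.h (T.h (T.h (P (nat_lit 15594888)) (T.h (P (nat_lit 0)) (T.h (M (nat_lit 476378103)) (T.h (P (nat_lit 0)) (T.h (M (nat_lit 10335611775)) (T.h (P (nat_lit 0)) (P (nat_lit 41356076396)))))))) (T.h (P (nat_lit 0)) (T.h (T.h (M (nat_lit 476378103)) (T.h (P (nat_lit 0)) (T.h (P (nat_lit 36145524616)) (T.h (P (nat_lit 0)) (P (nat_lit 1059877487984)))))) (T.h (P (nat_lit 0)) (T.h (T.h (M (nat_lit 10335611775)) (T.h (P (nat_lit 0)) (P (nat_lit 1059877487984)))) (T.h (P (nat_lit 0)) (P (nat_lit 41356076396)))))))) (T.h (T.h (P (nat_lit 0)) (T.h (T.h (P (nat_lit 0)) (T.h (M (nat_lit 4807936479)) (T.h (P (nat_lit 0)) (P (nat_lit 244164718320))))) (T.h (P (nat_lit 0)) (T.h (T.h (P (nat_lit 0)) (P (nat_lit 244164718320))) (P (nat_lit 0)))))) (T.h (T.h (T.h (P (nat_lit 8951414800)) (T.h (P (nat_lit 0)) (T.h (P (nat_lit 49793365452)) (T.h (P (nat_lit 0)) (P (nat_lit 3860883191940))))))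 (T.h (P (nat_lit 0)) (T.h (T.h (P (nat_lit 49793365452)) (T.h (P (nat_lit 0)) (M (nat_lit 8853375161391)))) (T.h (P (nat_lit 0)) (P (nat_lit 3860883191940)))))) (T.h (T.h (P (nat_lit 0)) (T.h (T.h (P (nat_lit 0)) (M (nat_lit 3024331543191))) (P (nat_lit 0)))) (T.h (T.h (T.h (M (nat_lit 493265236943)) (T.h (P (nat_lit 0)) (M (nat_lit 7026641425567)))) (T.h (P (nat_lit 0)) (M (nat_lit 7026641425567)))) (T.h (P (nat_lit 0)) (P (nat_lit 2308661302800)))))))) (T.h (P (nat_lit 0)) (T.h (T.h (T.h (T.h (M (nat_lit 46945359)) (T.h (P (nat_lit 0)) (T.h (M (nat_lit 8240506955)) (T.h (P (nat_lit 0)) (T.h (M (nat_lit 100403257855)) (T.h (P (nat_lit 0)) (M (nat_lit 396537227327)))))))) (T.h (P (nat_lit 0)) (T.h (T.h (M (nat_lit 2741020611)) (T.h (P (nat_lit 0)) (T.h (M (nat_lit 24850371303)) (T.h (P (nat_lit 0)) (P (nat_lit 13166944817488)))))) (T.h (P (nat_lit 0)) (T.h (T.h (P (nat_lit 24299109560)) (T.h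 (P (nat_lit 0)) (P (nat_lit 12281642234708)))) (T.h (P (nat_lit 0)) (M (nat_lit 955442423363)))))))) (T.h (T.h (P (nat_lit 0)) (T.h (T.h (P (nat_lit 0)) (T.h (P (nat_lit 184433471332)) (T.h (P (nat_lit 0)) (M (nat_lit 3759122180439))))) (T.h (P (nat_lit 0)) (T.h (T.h (P (nat_lit 0)) (P (nat_lit 4643840074632))) (P (nat_lit 0)))))) (T.h (T.h (T.h (P (nat_lit 17419653284)) (T.h (P (nat_lit 0)) (T.h (P (nat_lit 2589775590952)) (T.h (P (nat_lit 0)) (M (nat_lit 32420310679327)))))) (T.h (P (nat_lit 0)) (T.h (T.h (P (nat_lit 1367229948084)) (T.h (P (nat_lit 0)) (M (nat_lit 27480587816483)))) (T.h (P (nat_lit 0)) (P (nat_lit 4458007251236)))))) (T.h (T.h (P (nat_lit 0)) (T.h (T.h (P (nat_lit 0)) (M (nat_lit 13665014530023))) (P (nat_lit 0)))) (T.h (T.h (T.h (M (nat_lit 268974229215)) (T.h (P (nat_lit 0)) (M (nat_lit 19540580307203)))) (T.h (P (nat_lit 0)) (M (nat_lit 8307788537971)))) (T.h (P (nat_lit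 0)) (M (nat_lit 32620498733195)))))))) (P (nat_lit 0))))) (T.h (T.h (P (nat_lit 0)) (T.h (T.h (T.h (P (nat_lit 0)) (T.h (T.h (P (nat_lit 0)) (T.h (M (nat_lit 487311791)) (T.h (P (nat_lit 0)) (T.h (P (nat_lit 164657637232)) (T.h (P (nat_lit 0)) (P (nat_lit 13275983253060))))))) (T.h (P (nat_lit 0)) (T.h (T.h (P (nat_lit 0)) (T.h (P (nat_lit 164657637232)) (T.h (P (nat_lit 0)) (M (nat_lit 341216769343))))) (T.h (P (nat_lit 0)) (T.h (T.h (P (nat_lit 0)) (P (nat_lit 13275983253060))) (P (nat_lit 0)))))))) (T.h (T.h (T.h (P (nat_lit 7678056144)) (T.h (P (nat_lit 0)) (T.h (P (nat_lit 41045896012)) (T.h (P (nat_lit 0)) (P (nat_lit 2467986874320)))))) (T.h (P (nat_lit 0)) (T.h (T.h (P (nat_lit 41045896012)) (T.h (P (nat_lit 0)) (P (nat_lit 6108654230360)))) (T.h (P (nat_lit 0)) (P (nat_lit 2467986874320)))))) (T.h (T.h (P (nat_lit 0)) (T.h (T.h (P (nat_lit 0)) (T.h (M (nat_lit 2790833868327)) (T.h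 (P (nat_lit 0)) (P (nat_lit 58078837108468))))) (T.h (P (nat_lit 0)) (T.h (T.h (P (nat_lit 0)) (P (nat_lit 58078837108468))) (P (nat_lit 0)))))) (T.h (T.h (T.h (P (nat_lit 45088623096)) (T.h (P (nat_lit 0)) (P (nat_lit 1074580420672)))) (T.h (P (nat_lit 0)) (P (nat_lit 1074580420672)))) (T.h (T.h (P (nat_lit 0)) (T.h (T.h (P (nat_lit 0)) (P (nat_lit 42592568292736))) (P (nat_lit 0)))) (P (nat_lit 4094382036272))))))) (P (nat_lit 0)))) (T.h (T.h (T.h (T.h (T.h (M (nat_lit 46945359)) (T.h (P (nat_lit 0)) (T.h (M (nat_lit 2741020611)) (T.h (P (nat_lit 0)) (T.h (P (nat_lit 24299109560)) (T.h (P (nat_lit 0)) (M (nat_lit 955442423363)))))))) (T.h (P (nat_lit 0)) (T.h (T.h (M (nat_lit 8240506955)) (T.h (P (nat_lit 0)) (T.h (M (nat_lit 24850371303)) (T.h (P (nat_lit 0)) (P (nat_lit 12281642234708)))))) (T.h (P (nat_lit 0)) (T.h (T.h (M (nat_lit 100403257855)) (T.h (P (nat_lit 0)) (P (nat_lit 13166944817488))))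 (T.h (P (nat_lit 0)) (M (nat_lit 396537227327)))))))) (T.h (T.h (P (nat_lit 0)) (T.h (T.h (P (nat_lit 0)) (T.h (P (nat_lit 184433471332)) (T.h (P (nat_lit 0)) (P (nat_lit 4643840074632))))) (T.h (P (nat_lit 0)) (T.h (T.h (P (nat_lit 0)) (M (nat_lit 3759122180439))) (P (nat_lit 0)))))) (T.h (T.h (T.h (P (nat_lit 17419653284)) (T.h (P (nat_lit 0)) (T.h (P (nat_lit 1367229948084)) (T.h (P (nat_lit 0)) (P (nat_lit 4458007251236)))))) (T.h (P (nat_lit 0)) (T.h (T.h (P (nat_lit 2589775590952)) (T.h (P (nat_lit 0)) (M (nat_lit 27480587816483)))) (T.h (P (nat_lit 0)) (M (nat_lit 32420310679327)))))) (T.h (T.h (P (nat_lit 0)) (T.h (T.h (P (nat_lit 0)) (M (nat_lit 13665014530023))) (P (nat_lit 0)))) (T.h (T.h (T.h (M (nat_lit 268974229215)) (T.h (P (nat_lit 0)) (M (nat_lit 8307788537971)))) (T.h (P (nat_lit 0)) (M (nat_lit 19540580307203)))) (T.h (P (nat_lit 0)) (M (nat_lit 32620498733195)))))))) (P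 (nat_lit 0))) (P (nat_lit 0)))))
def et0_25 : T ℤ := (T.h (T.h (T.h (P (nat_lit 0)) (T.h (T.h (T.h (P (nat_lit 0)) (T.h (T.h (P (nat_lit 51383376)) (T.h (P (nat_lit 0)) (T.h (P (nat_lit 3214072092)) (T.h (P (nat_lit 0)) (P (nat_lit 924931867420)))))) (T.h (P (nat_lit 0)) (T.h (T.h (P (nat_lit 5780723828)) (T.h (P (nat_lit 0)) (M (nat_lit 477422562099)))) (T.h (P (nat_lit 0)) (M (nat_lit 35413554967))))))) (T.h (T.h (T.h (P (nat_lit 0)) (T.h (M (nat_lit 19731896623)) (T.h (P (nat_lit 0)) (T.h (M (nat_lit 271231086103)) (T.h (P (nat_lit 0)) (P (nat_lit 1665639113776))))))) (T.h (P (nat_lit 0)) (T.h (T.h (P (nat_lit 0)) (T.h (P (nat_lit 88138696008)) (T.h (P (nat_lit 0)) (M (nat_lit 59719298539))))) (T.h (P (nat_lit 0)) (T.h (T.h (P (nat_lit 0)) (M (nat_lit 9432570445495))) (P (nat_lit 0))))))) (T.h (T.h (P (nat_lit 0)) (T.h (T.h (M (nat_lit 88637288915)) (T.h (P (nat_lit 0)) (M (nat_lit 3380082010711))))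 (T.h (P (nat_lit 0)) (M (nat_lit 5223532980247))))) (T.h (T.h (T.h (P (nat_lit 0)) (T.h (M (nat_lit 72181017303)) (T.h (P (nat_lit 0)) (M (nat_lit 211828753355))))) (T.h (P (nat_lit 0)) (T.h (T.h (P (nat_lit 0)) (P (nat_lit 16184987189052))) (P (nat_lit 0))))) (T.h (T.h (P (nat_lit 0)) (M (nat_lit 11594390421327))) (T.h (T.h (T.h (P (nat_lit 0)) (P (nat_lit 107660658453612))) (P (nat_lit 0))) (P (nat_lit 0)))))))) (P (nat_lit 0)))) (T.h (T.h (T.h (T.h (T.h (P (nat_lit 0)) (T.h (P (nat_lit 51383376)) (T.h (P (nat_lit 0)) (T.h (P (nat_lit 5780723828)) (T.h (P (nat_lit 0)) (M (nat_lit 35413554967))))))) (T.h (P (nat_lit 0)) (T.h (T.h (P (nat_lit 0)) (T.h (P (nat_lit 3214072092)) (T.h (P (nat_lit 0)) (M (nat_lit 477422562099))))) (T.h (P (nat_lit 0)) (T.h (T.h (P (nat_lit 0)) (P (nat_lit 924931867420))) (P (nat_lit 0))))))) (T.h (T.h (P (nat_lit 0)) (T.h (T.h (M (nat_lit 19731896623)) (T.h (P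 (nat_lit 0)) (T.h (P (nat_lit 88138696008)) (T.h (P (nat_lit 0)) (M (nat_lit 9432570445495)))))) (T.h (P (nat_lit 0)) (T.h (T.h (M (nat_lit 271231086103)) (T.h (P (nat_lit 0)) (M (nat_lit 59719298539)))) (T.h (P (nat_lit 0)) (P (nat_lit 1665639113776))))))) (T.h (T.h (T.h (P (nat_lit 0)) (T.h (M (nat_lit 88637288915)) (T.h (P (nat_lit 0)) (M (nat_lit 5223532980247))))) (T.h (P (nat_lit 0)) (T.h (T.h (P (nat_lit 0)) (M (nat_lit 3380082010711))) (P (nat_lit 0))))) (T.h (T.h (P (nat_lit 0)) (T.h (T.h (M (nat_lit 72181017303)) (T.h (P (nat_lit 0)) (P (nat_lit 16184987189052)))) (T.h (P (nat_lit 0)) (M (nat_lit 211828753355))))) (T.h (T.h (T.h (P (nat_lit 0)) (M (nat_lit 11594390421327))) (P (nat_lit 0))) (T.h (T.h (P (nat_lit 0)) (P (nat_lit 107660658453612))) (P (nat_lit 0)))))))) (P (nat_lit 0))) (P (nat_lit 0)))) (T.h (T.h (T.h (T.h (T.h (T.h (M (nat_lit 24506239)) (T.h (P (nat_lit 0)) (T.h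 (P (nat_lit 684465452)) (T.h (P (nat_lit 0)) (T.h (P (nat_lit 24404320820)) (T.h (P (nat_lit 0)) (M (nat_lit 185536867691)))))))) (T.h (P (nat_lit 0)) (T.h (T.h (P (nat_lit 684465452)) (T.h (P (nat_lit 0)) (T.h (M (nat_lit 56800110399)) (T.h (P (nat_lit 0)) (M (nat_lit 1887755975555)))))) (T.h (P (nat_lit 0)) (T.h (T.h (P (nat_lit 24404320820)) (T.h (P (nat_lit 0)) (M (nat_lit 1887755975555)))) (T.h (P (nat_lit 0)) (M (nat_lit 185536867691)))))))) (T.h (T.h (P (nat_lit 0)) (T.h (T.h (P (nat_lit 0)) (T.h (P (nat_lit 7555328792)) (T.h (P (nat_lit 0)) (M (nat_lit 79872503875))))) (T.h (P (nat_lit 0)) (T.h (T.h (P (nat_lit 0)) (M (nat_lit 79872503875))) (P (nat_lit 0)))))) (T.h (T.h (T.h (M (nat_lit 14066508983)) (T.h (P (nat_lit 0)) (T.h (M (nat_lit 208486458883)) (T.h (P (nat_lit 0)) (M (nat_lit 3085539376391)))))) (T.h (P (nat_lit 0)) (T.h (T.h (M (nat_lit 208486458883)) (T.h (P (nat_lit 0))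 (P (nat_lit 13912446649200)))) (T.h (P (nat_lit 0)) (M (nat_lit 3085539376391)))))) (T.h (T.h (P (nat_lit 0)) (T.h (T.h (P (nat_lit 0)) (P (nat_lit 4752521010512))) (P (nat_lit 0)))) (T.h (T.h (T.h (P (nat_lit 775131074872)) (T.h (P (nat_lit 0)) (P (nat_lit 14029677183456)))) (T.h (P (nat_lit 0)) (P (nat_lit 14029677183456)))) (T.h (P (nat_lit 0)) (M (nat_lit 3627895735727)))))))) (P (nat_lit 0))) (P (nat_lit 0))) (P (nat_lit 0))))
def et0_26 : T ℤ := (T.h (T.h (T.h (P (nat_lit 0)) (T.h (P (nat_lit 0)) (T.h (P (nat_lit 0)) (T.h (T.h (T.h (P (nat_lit 0)) (T.h (T.h (P (nat_lit 2270491464)) (T.h (P (nat_lit 0)) (T.h (M (nat_lit 6929845307)) (T.h (P (nat_lit 0)) (M (nat_lit 270143222463)))))) (T.h (P (nat_lit 0)) (T.h (T.h (M (nat_lit 36798685715)) (T.h (P (nat_lit 0)) (M (nat_lit 59471335607)))) (T.h (P (nat_lit 0)) (M (nat_lit 417894551131))))))) (T.h (T.h (T.h (P (nat_lit 0)) (T.h (M (nat_lit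 13753853663)) (T.h (P (nat_lit 0)) (T.h (P (nat_lit 49806175832)) (T.h (P (nat_lit 0)) (P (nat_lit 5228982610064))))))) (T.h (P (nat_lit 0)) (T.h (T.h (P (nat_lit 0)) (T.h (P (nat_lit 357097289124)) (T.h (P (nat_lit 0)) (M (nat_lit 4588665984999))))) (T.h (P (nat_lit 0)) (T.h (T.h (P (nat_lit 0)) (M (nat_lit 8370435649727))) (P (nat_lit 0))))))) (T.h (T.h (P (nat_lit 0)) (T.h (T.h (P (nat_lit 78860590644)) (T.h (P (nat_lit 0)) (P (nat_lit 4398689160504)))) (T.h (P (nat_lit 0)) (P (nat_lit 1185726420524))))) (T.h (T.h (T.h (P (nat_lit 0)) (T.h (P (nat_lit 8235131811300)) (T.h (P (nat_lit 0)) (M (nat_lit 86581946584883))))) (T.h (P (nat_lit 0)) (T.h (T.h (P (nat_lit 0)) (P (nat_lit 34685970099560))) (P (nat_lit 0))))) (T.h (T.h (P (nat_lit 0)) (P (nat_lit 2878474024452))) (T.h (T.h (T.h (P (nat_lit 0)) (M (nat_lit 1407496825639))) (P (nat_lit 0))) (P (nat_lit 0)))))))) (T.h (P (nat_lit 0)) (T.h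 (T.h (T.h (P (nat_lit 0)) (T.h (T.h (P (nat_lit 2457212296)) (T.h (P (nat_lit 0)) (T.h (M (nat_lit 922957152699)) (T.h (P (nat_lit 0)) (M (nat_lit 3663603789779)))))) (T.h (P (nat_lit 0)) (T.h (T.h (M (nat_lit 29047071767)) (T.h (P (nat_lit 0)) (P (nat_lit 13406000898180)))) (T.h (P (nat_lit 0)) (M (nat_lit 258915560111))))))) (T.h (T.h (T.h (P (nat_lit 0)) (T.h (P (nat_lit 19260018536)) (T.h (P (nat_lit 0)) (T.h (M (nat_lit 10724780851707)) (T.h (P (nat_lit 0)) (P (nat_lit 127816228643180))))))) (T.h (P (nat_lit 0)) (T.h (T.h (P (nat_lit 0)) (T.h (M (nat_lit 348292303215)) (T.h (P (nat_lit 0)) (M (nat_lit 130831915665659))))) (T.h (P (nat_lit 0)) (T.h (T.h (P (nat_lit 0)) (P (nat_lit 59381912924488))) (P (nat_lit 0))))))) (T.h (T.h (P (nat_lit 0)) (T.h (T.h (M (nat_lit 922957152699)) (T.h (P (nat_lit 0)) (M (nat_lit 43828307913543)))) (T.h (P (nat_lit 0)) (P (nat_lit 13406000898180))))) (T.h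 (T.h (T.h (P (nat_lit 0)) (T.h (M (nat_lit 10724780851707)) (T.h (P (nat_lit 0)) (P (nat_lit 439864585331688))))) (T.h (P (nat_lit 0)) (T.h (T.h (P (nat_lit 0)) (M (nat_lit 130831915665659))) (P (nat_lit 0))))) (T.h (T.h (P (nat_lit 0)) (M (nat_lit 3663603789779))) (T.h (T.h (T.h (P (nat_lit 0)) (P (nat_lit 127816228643180))) (P (nat_lit 0))) (P (nat_lit 0)))))))) (P (nat_lit 0)))))))) et0_20) (T.h et0_22 (T.h (T.h (T.h (P (nat_lit 0)) (T.h (T.h (T.h (P (nat_lit 0)) (T.h (T.h (M (nat_lit 114010627)) (T.h (P (nat_lit 0)) (T.h (M (nat_lit 2868324747)) (T.h (P (nat_lit 0)) (M (nat_lit 462597727287)))))) (T.h (P (nat_lit 0)) (T.h (T.h (M (nat_lit 2217424347)) (T.h (P (nat_lit 0)) (P (nat_lit 4531008324)))) (T.h (P (nat_lit 0)) (P (nat_lit 18545896296))))))) (T.h (T.h (T.h (P (nat_lit 0)) (T.h (M (nat_lit 894095127)) (T.h (P (nat_lit 0)) (T.h (P (nat_lit 169616973732)) (T.h (P (nat_lit 0)) (M (nat_lit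 1837837636695))))))) (T.h (P (nat_lit 0)) (T.h (T.h (P (nat_lit 0)) (T.h (M (nat_lit 83476511179)) (T.h (P (nat_lit 0)) (P (nat_lit 1064230397392))))) (T.h (P (nat_lit 0)) (T.h (T.h (P (nat_lit 0)) (P (nat_lit 3528862073664))) (P (nat_lit 0))))))) (T.h (T.h (P (nat_lit 0)) (T.h (T.h (P (nat_lit 23276552380)) (T.h (P (nat_lit 0)) (M (nat_lit 50734677655)))) (T.h (P (nat_lit 0)) (P (nat_lit 1144449466972))))) (T.h (T.h (T.h (P (nat_lit 0)) (T.h (P (nat_lit 36918942868)) (T.h (P (nat_lit 0)) (P (nat_lit 7474034132668))))) (T.h (P (nat_lit 0)) (T.h (T.h (P (nat_lit 0)) (M (nat_lit 5213492097731))) (P (nat_lit 0))))) (T.h (T.h (P (nat_lit 0)) (P (nat_lit 7416662447744))) (T.h (T.h (T.h (P (nat_lit 0)) (M (nat_lit 31656187968955))) (P (nat_lit 0))) (P (nat_lit 0)))))))) (T.h (P (nat_lit 0)) (T.h (T.h (T.h (P (nat_lit 0)) (T.h (T.h (M (nat_lit 4968475511)) (T.h (P (nat_lit 0)) (T.h (P (nat_lit 178549323964))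 (T.h (P (nat_lit 0)) (P (nat_lit 1915731352392)))))) (T.h (P (nat_lit 0)) (T.h (T.h (P (nat_lit 73814394588)) (T.h (P (nat_lit 0)) (M (nat_lit 4865477592359)))) (T.h (P (nat_lit 0)) (P (nat_lit 855948930188))))))) (T.h (T.h (T.h (P (nat_lit 0)) (T.h (P (nat_lit 61704993636)) (T.h (P (nat_lit 0)) (T.h (M (nat_lit 243150063947)) (T.h (P (nat_lit 0)) (M (nat_lit 2460908426987))))))) (T.h (P (nat_lit 0)) (T.h (T.h (P (nat_lit 0)) (T.h (M (nat_lit 1169230121531)) (T.h (P (nat_lit 0)) (P (nat_lit 38487826045724))))) (T.h (P (nat_lit 0)) (T.h (T.h (P (nat_lit 0)) (P (nat_lit 11734533014248))) (P (nat_lit 0))))))) (T.h (T.h (P (nat_lit 0)) (T.h (T.h (P (nat_lit 576836749632)) (T.h (P (nat_lit 0)) (P (nat_lit 10320264767120)))) (T.h (P (nat_lit 0)) (M (nat_lit 366352987395))))) (T.h (T.h (T.h (P (nat_lit 0)) (T.h (M (nat_lit 8460316751655)) (T.h (P (nat_lit 0)) (P (nat_lit 10201815208420))))) (T.h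 (P (nat_lit 0)) (T.h (T.h (P (nat_lit 0)) (P (nat_lit 40191469935584))) (P (nat_lit 0))))) (T.h (T.h (P (nat_lit 0)) (M (nat_lit 2863453597047))) (T.h (T.h (T.h (P (nat_lit 0)) (P (nat_lit 50502653299076))) (P (nat_lit 0))) (P (nat_lit 0)))))))) (P (nat_lit 0)))))) et0_23) (T.h et0_24 et0_25))))
def et0_27 : T ℤ := (T.h (T.h (T.h (P (nat_lit 0)) (T.h (P (nat_lit 0)) (T.h (P (nat_lit 0)) (T.h (P (nat_lit 0)) (T.h (P (nat_lit 0)) (T.h (P (nat_lit 0)) (T.h (P (nat_lit 0)) (T.h (T.h (T.h (P (nat_lit 0)) (T.h (T.h (M (nat_lit 114010627)) (T.h (P (nat_lit 0)) (T.h (P (nat_lit 23276552380)) (T.h (P (nat_lit 0)) (P (nat_lit 7416662447744)))))) (T.h (P (nat_lit 0)) (T.h (T.h (M (nat_lit 2217424347)) (T.h (P (nat_lit 0)) (P (nat_lit 1144449466972)))) (T.h (P (nat_lit 0)) (P (nat_lit 18545896296))))))) (T.h (T.h (T.h (P (nat_lit 0)) (T.h (M (nat_lit 894095127)) (T.h (P (nat_lit 0)) (T.h (P (nat_lit 36918942868))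 (T.h (P (nat_lit 0)) (M (nat_lit 31656187968955))))))) (T.h (P (nat_lit 0)) (T.h (T.h (P (nat_lit 0)) (T.h (M (nat_lit 83476511179)) (T.h (P (nat_lit 0)) (M (nat_lit 5213492097731))))) (T.h (P (nat_lit 0)) (T.h (T.h (P (nat_lit 0)) (P (nat_lit 3528862073664))) (P (nat_lit 0))))))) (T.h (T.h (P (nat_lit 0)) (T.h (T.h (M (nat_lit 2868324747)) (T.h (P (nat_lit 0)) (M (nat_lit 50734677655)))) (T.h (P (nat_lit 0)) (P (nat_lit 4531008324))))) (T.h (T.h (T.h (P (nat_lit 0)) (T.h (P (nat_lit 169616973732)) (T.h (P (nat_lit 0)) (P (nat_lit 7474034132668))))) (T.h (P (nat_lit 0)) (T.h (T.h (P (nat_lit 0)) (P (nat_lit 1064230397392))) (P (nat_lit 0))))) (T.h (T.h (P (nat_lit 0)) (M (nat_lit 462597727287))) (T.h (T.h (T.h (P (nat_lit 0)) (M (nat_lit 1837837636695))) (P (nat_lit 0))) (P (nat_lit 0)))))))) (T.h (P (nat_lit 0)) (T.h (T.h (T.h (P (nat_lit 0)) (T.h (T.h (P (nat_lit 51383376)) (T.h (P (nat_lit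 0)) (T.h (M (nat_lit 88637288915)) (T.h (P (nat_lit 0)) (M (nat_lit 11594390421327)))))) (T.h (P (nat_lit 0)) (T.h (T.h (P (nat_lit 5780723828)) (T.h (P (nat_lit 0)) (M (nat_lit 5223532980247)))) (T.h (P (nat_lit 0)) (M (nat_lit 35413554967))))))) (T.h (T.h (T.h (P (nat_lit 0)) (T.h (M (nat_lit 19731896623)) (T.h (P (nat_lit 0)) (T.h (M (nat_lit 72181017303)) (T.h (P (nat_lit 0)) (P (nat_lit 107660658453612))))))) (T.h (P (nat_lit 0)) (T.h (T.h (P (nat_lit 0)) (T.h (P (nat_lit 88138696008)) (T.h (P (nat_lit 0)) (P (nat_lit 16184987189052))))) (T.h (P (nat_lit 0)) (T.h (T.h (P (nat_lit 0)) (M (nat_lit 9432570445495))) (P (nat_lit 0))))))) (T.h (T.h (P (nat_lit 0)) (T.h (T.h (P (nat_lit 3214072092)) (T.h (P (nat_lit 0)) (M (nat_lit 3380082010711)))) (T.h (P (nat_lit 0)) (M (nat_lit 477422562099))))) (T.h (T.h (T.h (P (nat_lit 0)) (T.h (M (nat_lit 271231086103)) (T.h (P (nat_lit 0)) (M (nat_lit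 211828753355))))) (T.h (P (nat_lit 0)) (T.h (T.h (P (nat_lit 0)) (M (nat_lit 59719298539))) (P (nat_lit 0))))) (T.h (T.h (P (nat_lit 0)) (P (nat_lit 924931867420))) (T.h (T.h (T.h (P (nat_lit 0)) (P (nat_lit 1665639113776))) (P (nat_lit 0))) (P (nat_lit 0)))))))) (P (nat_lit 0)))))))))))) et0_8) (T.h et0_12 (T.h (T.h (T.h (P (nat_lit 0)) (T.h (P (nat_lit 0)) (T.h (P (nat_lit 0)) (T.h (P (nat_lit 0)) (T.h (P (nat_lit 0)) (T.h (T.h (T.h (P (nat_lit 0)) (T.h (T.h (P (nat_lit 2270491464)) (T.h (P (nat_lit 0)) (T.h (P (nat_lit 78860590644)) (T.h (P (nat_lit 0)) (P (nat_lit 2878474024452)))))) (T.h (P (nat_lit 0)) (T.h (T.h (M (nat_lit 36798685715)) (T.h (P (nat_lit 0)) (P (nat_lit 1185726420524)))) (T.h (P (nat_lit 0)) (M (nat_lit 417894551131))))))) (T.h (T.h (T.h (P (nat_lit 0)) (T.h (M (nat_lit 13753853663)) (T.h (P (nat_lit 0)) (T.h (P (nat_lit 8235131811300)) (T.h (P (nat_lit 0)) (M (nat_lit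 1407496825639))))))) (T.h (P (nat_lit 0)) (T.h (T.h (P (nat_lit 0)) (T.h (P (nat_lit 357097289124)) (T.h (P (nat_lit 0)) (P (nat_lit 34685970099560))))) (T.h (P (nat_lit 0)) (T.h (T.h (P (nat_lit 0)) (M (nat_lit 8370435649727))) (P (nat_lit 0))))))) (T.h (T.h (P (nat_lit 0)) (T.h (T.h (M (nat_lit 6929845307)) (T.h (P (nat_lit 0)) (P (nat_lit 4398689160504)))) (T.h (P (nat_lit 0)) (M (nat_lit 59471335607))))) (T.h (T.h (T.h (P (nat_lit 0)) (T.h (P (nat_lit 49806175832)) (T.h (P (nat_lit 0)) (M (nat_lit 86581946584883))))) (T.h (P (nat_lit 0)) (T.h (T.h (P (nat_lit 0)) (M (nat_lit 4588665984999))) (P (nat_lit 0))))) (T.h (T.h (P (nat_lit 0)) (M (nat_lit 270143222463))) (T.h (T.h (T.h (P (nat_lit 0)) (P (nat_lit 5228982610064))) (P (nat_lit 0))) (P (nat_lit 0)))))))) (T.h (P (nat_lit 0)) (T.h (T.h (T.h (P (nat_lit 0)) (T.h (T.h (M (nat_lit 4968475511)) (T.h (P (nat_lit 0)) (T.h (P (nat_lit 576836749632))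 (T.h (P (nat_lit 0)) (M (nat_lit 2863453597047)))))) (T.h (P (nat_lit 0)) (T.h (T.h (P (nat_lit 73814394588)) (T.h (P (nat_lit 0)) (M (nat_lit 366352987395)))) (T.h (P (nat_lit 0)) (P (nat_lit 855948930188))))))) (T.h (T.h (T.h (P (nat_lit 0)) (T.h (P (nat_lit 61704993636)) (T.h (P (nat_lit 0)) (T.h (M (nat_lit 8460316751655)) (T.h (P (nat_lit 0)) (P (nat_lit 50502653299076))))))) (T.h (P (nat_lit 0)) (T.h (T.h (P (nat_lit 0)) (T.h (M (nat_lit 1169230121531)) (T.h (P (nat_lit 0)) (P (nat_lit 40191469935584))))) (T.h (P (nat_lit 0)) (T.h (T.h (P (nat_lit 0)) (P (nat_lit 11734533014248))) (P (nat_lit 0))))))) (T.h (T.h (P (nat_lit 0)) (T.h (T.h (P (nat_lit 178549323964)) (T.h (P (nat_lit 0)) (P (nat_lit 10320264767120)))) (T.h (P (nat_lit 0)) (M (nat_lit 4865477592359))))) (T.h (T.h (T.h (P (nat_lit 0)) (T.h (M (nat_lit 243150063947)) (T.h (P (nat_lit 0)) (P (nat_lit 10201815208420))))) (T.h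 (P (nat_lit 0)) (T.h (T.h (P (nat_lit 0)) (P (nat_lit 38487826045724))) (P (nat_lit 0))))) (T.h (T.h (P (nat_lit 0)) (P (nat_lit 1915731352392))) (T.h (T.h (T.h (P (nat_lit 0)) (M (nat_lit 2460908426987))) (P (nat_lit 0))) (P (nat_lit 0)))))))) (P (nat_lit 0)))))))))) et0_15) (T.h et0_18 et0_26))))

def t0 : T ℤ := (T.h et0_4 et0_27)

theorem h_t0 : chkT (c.G g0) t0 = true := by decide +kernel


end Pool.Agent.TOPR.R6116H
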