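import Pool.Agent.TOPR.R6116H.Cert

set_option autoImplicit false
set_option linter.all false
set_option maxRecDepth 100000

namespace Pool.Agent.TOPR.R6116H

open Helper10.PC hiding V3
open Helper80.CW.DL Pool.Agent.Helper6.TOP

def et1_0 : T ℤ := (T.h (T.h (T.h (T.h (P (nat_lit 0)) (T.h (T.h (P (nat_lit 4428768720)) (T.h (P (nat_lit 0)) (T.h (P (nat_lit 4791029040)) (T.h (P (nat_lit 0)) (P (nat_lit 298904863740)))))) (T.h (P (nat_lit 0)) (T.h (T.h (M (nat_lit 137779096823)) (T.h (P (nat_lit 0)) (M (nat_lit 1683970502711)))) (T.h (P (nat_lit 0)) (M (nat_lit 8931917922103))))))) (T.h (T.h (T.h (P (nat_lit 0)) (T.h (M (nat_lit 1317534535)) (T.h (P (nat_lit 0)) (T.h (M (nat_lit 84620760167)) (T.h (P (nat_lit 0)) (P (nat_lit 600266599468))))))) (T.h (P (nat_lit 0)) (T.h (T.h (P (nat_lit 0)) (T.h (M (nat_lit 489333112719)) (T.h (P (nat_lit 0)) (M (nat_lit 3077122735479))))) (T.h (P (nat_lit 0))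 (T.h (T.h (P (nat_lit 0)) (M (nat_lit 16157686682919))) (P (nat_lit 0))))))) (T.h (T.h (P (nat_lit 0)) (T.h (T.h (P (nat_lit 4791029040)) (T.h (P (nat_lit 0)) (P (nat_lit 1391896956600)))) (T.h (P (nat_lit 0)) (M (nat_lit 1683970502711))))) (T.h (T.h (T.h (P (nat_lit 0)) (T.h (M (nat_lit 84620760167)) (T.h (P (nat_lit 0)) (P (nat_lit 3960364400736))))) (T.h (P (nat_lit 0)) (T.h (T.h (P (nat_lit 0)) (M (nat_lit 3077122735479))) (P (nat_lit 0))))) (T.h (T.h (P (nat_lit 0)) (P (nat_lit 298904863740))) (T.h (T.h (T.h (P (nat_lit 0)) (P (nat_lit 600266599468))) (P (nat_lit 0))) (P (nat_lit 0)))))))) (T.h (P (nat_lit 0)) (T.h (T.h (T.h (P (nat_lit 0)) (T.h (T.h (M (nat_lit 5065377623)) (T.h (P (nat_lit 0)) (T.h (P (nat_lit 155359676448)) (T.h (P (nat_lit 0)) (P (nat_lit 2857024429812)))))) (T.h (P (nat_lit 0)) (T.h (T.h (M (nat_lit 275395995395)) (T.h (P (nat_lit 0)) (M (nat_lit 8570200417739))))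 (T.h (P (nat_lit 0)) (M (nat_lit 16219811394179))))))) (T.h (T.h (T.h (P (nat_lit 0)) (T.h (P (nat_lit 7208655228)) (T.h (P (nat_lit 0)) (T.h (P (nat_lit 3284486640)) (T.h (P (nat_lit 0)) (P (nat_lit 15144006490380))))))) (T.h (P (nat_lit 0)) (T.h (T.h (P (nat_lit 0)) (T.h (M (nat_lit 196402350311)) (T.h (P (nat_lit 0)) (M (nat_lit 46405720611287))))) (T.h (P (nat_lit 0)) (T.h (T.h (P (nat_lit 0)) (P (nat_lit 26243695599444))) (P (nat_lit 0))))))) (T.h (T.h (P (nat_lit 0)) (T.h (T.h (P (nat_lit 41138570772)) (T.h (P (nat_lit 0)) (P (nat_lit 3898993085568)))) (T.h (P (nat_lit 0)) (M (nat_lit 18998054656163))))) (T.h (T.h (T.h (P (nat_lit 0)) (T.h (M (nat_lit 454379901155)) (T.h (P (nat_lit 0)) (P (nat_lit 29731065308388))))) (T.h (P (nat_lit 0)) (T.h (T.h (P (nat_lit 0)) (M (nat_lit 48456067457447))) (P (nat_lit 0))))) (T.h (T.h (P (nat_lit 0)) (P (nat_lit 1436986193256))) (T.h (T.h (T.h (P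 (nat_lit 0)) (P (nat_lit 7362674093916))) (P (nat_lit 0))) (P (nat_lit 0)))))))) (P (nat_lit 0))))) (T.h (T.h (P (nat_lit 0)) (T.h (T.h (T.h (T.h (P (nat_lit 0)) (T.h (P (nat_lit 5519761164)) (T.h (P (nat_lit 0)) (T.h (M (nat_lit 17164754783)) (T.h (P (nat_lit 0)) (M (nat_lit 2292749898083))))))) (T.h (P (nat_lit 0)) (T.h (T.h (P (nat_lit 0)) (T.h (M (nat_lit 26432588843)) (T.h (P (nat_lit 0)) (M (nat_lit 8161891225919))))) (T.h (P (nat_lit 0)) (T.h (T.h (P (nat_lit 0)) (M (nat_lit 12338285201243))) (P (nat_lit 0))))))) (T.h (T.h (P (nat_lit 0)) (T.h (T.h (P (nat_lit 7638818112)) (T.h (P (nat_lit 0)) (T.h (M (nat_lit 179731968911)) (T.h (P (nat_lit 0)) (M (nat_lit 17100147915899)))))) (T.h (P (nat_lit 0)) (T.h (T.h (P (nat_lit 1436454174312)) (T.h (P (nat_lit 0)) (P (nat_lit 28592063710812)))) (T.h (P (nat_lit 0)) (P (nat_lit 292477626780012))))))) (T.h (T.h (T.h (P (nat_lit 0)) (T.h (P (nat_lit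 44581284432)) (T.h (P (nat_lit 0)) (M (nat_lit 1262215327931))))) (T.h (P (nat_lit 0)) (T.h (T.h (P (nat_lit 0)) (M (nat_lit 10470599609579))) (P (nat_lit 0))))) (T.h (T.h (P (nat_lit 0)) (T.h (T.h (P (nat_lit 305899725852)) (T.h (P (nat_lit 0)) (P (nat_lit 4812499715364)))) (T.h (P (nat_lit 0)) (M (nat_lit 35340294992795))))) (T.h (T.h (T.h (P (nat_lit 0)) (P (nat_lit 601500150072))) (P (nat_lit 0))) (T.h (T.h (P (nat_lit 0)) (M (nat_lit 3015351236807))) (P (nat_lit 0)))))))) (P (nat_lit 0)))) (T.h (T.h (T.h (T.h (P (nat_lit 0)) (T.h (T.h (M (nat_lit 6643153079)) (T.h (P (nat_lit 0)) (T.h (M (nat_lit 3076038683)) (T.h (P (nat_lit 0)) (M (nat_lit 300578054831)))))) (T.h (P (nat_lit 0)) (T.h (T.h (P (nat_lit 206668643760)) (T.h (P (nat_lit 0)) (P (nat_lit 3459563166420)))) (T.h (P (nat_lit 0)) (P (nat_lit 13397876719704))))))) (T.h (T.h (T.h (P (nat_lit 0)) (T.h (P (nat_lit 1976301792)) (T.h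 (P (nat_lit 0)) (T.h (P (nat_lit 115324007112)) (T.h (P (nat_lit 0)) (M (nat_lit 1420118759051))))))) (T.h (P (nat_lit 0)) (T.h (T.h (P (nat_lit 0)) (T.h (P (nat_lit 733999667904)) (T.h (P (nat_lit 0)) (P (nat_lit 6169603783536))))) (T.h (P (nat_lit 0)) (T.h (T.h (P (nat_lit 0)) (P (nat_lit 24236529577344))) (P (nat_lit 0))))))) (T.h (T.h (P (nat_lit 0)) (T.h (T.h (M (nat_lit 3076038683)) (T.h (P (nat_lit 0)) (M (nat_lit 2087845426079)))) (T.h (P (nat_lit 0)) (P (nat_lit 3459563166420))))) (T.h (T.h (T.h (P (nat_lit 0)) (T.h (P (nat_lit 115324007112)) (T.h (P (nat_lit 0)) (M (nat_lit 5940546610247))))) (T.h (P (nat_lit 0)) (T.h (T.h (P (nat_lit 0)) (P (nat_lit 6169603783536))) (P (nat_lit 0))))) (T.h (T.h (P (nat_lit 0)) (M (nat_lit 300578054831))) (T.h (T.h (T.h (P (nat_lit 0)) (M (nat_lit 1420118759051))) (P (nat_lit 0))) (P (nat_lit 0)))))))) (P (nat_lit 0))) (P (nat_lit 0)))))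
def et1_1 : T ℤ := (T.h (T.h (P (nat_lit 0)) (T.h (P (nat_lit 0)) (T.h (T.h (T.h (P (nat_lit 0)) (T.h (T.h (P (nat_lit 891412240)) (T.h (P (nat_lit 0)) (T.h (M (nat_lit 20130164395)) (T.h (P (nat_lit 0)) (M (nat_lit 299197327491)))))) (T.h (P (nat_lit 0)) (T.h (T.h (P (nat_lit 30915485352)) (T.h (P (nat_lit 0)) (M (nat_lit 1065069240007)))) (T.h (P (nat_lit 0)) (M (nat_lit 425449705575))))))) (T.h (T.h (T.h (P (nat_lit 0)) (T.h (M (nat_lit 3029248483)) (T.h (P (nat_lit 0)) (T.h (P (nat_lit 73803227824)) (T.h (P (nat_lit 0)) (M (nat_lit 3121382083019))))))) (T.h (P (nat_lit 0)) (T.h (T.h (P (nat_lit 0)) (T.h (P (nat_lit 26127840616)) (T.h (P (nat_lit 0)) (M (nat_lit 707781693867))))) (T.h (P (nat_lit 0)) (T.h (T.h (P (nat_lit 0)) (M (nat_lit 14468509037383))) (P (nat_lit 0))))))) (T.h (T.h (P (nat_lit 0)) (T.h (T.h (M (nat_lit 73017313779)) (T.h (P (nat_lit 0)) (P (nat_lit 55420225764)))) (T.h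 (P (nat_lit 0)) (P (nat_lit 5928842529912))))) (T.h (T.h (T.h (P (nat_lit 0)) (T.h (P (nat_lit 70862865896)) (T.h (P (nat_lit 0)) (P (nat_lit 1031708200808))))) (T.h (P (nat_lit 0)) (T.h (T.h (P (nat_lit 0)) (P (nat_lit 6281220142664))) (P (nat_lit 0))))) (T.h (T.h (P (nat_lit 0)) (P (nat_lit 497516710404))) (T.h (T.h (T.h (P (nat_lit 0)) (P (nat_lit 3579203459304))) (P (nat_lit 0))) (P (nat_lit 0)))))))) (T.h (P (nat_lit 0)) (T.h (T.h (T.h (P (nat_lit 0)) (T.h (T.h (M (nat_lit 1944657611)) (T.h (P (nat_lit 0)) (T.h (M (nat_lit 69065633123)) (T.h (P (nat_lit 0)) (M (nat_lit 25229009720843)))))) (T.h (P (nat_lit 0)) (T.h (T.h (M (nat_lit 385634981051)) (T.h (P (nat_lit 0)) (P (nat_lit 3258209611152)))) (T.h (P (nat_lit 0)) (P (nat_lit 4747841539848))))))) (T.h (T.h (T.h (P (nat_lit 0)) (T.h (P (nat_lit 53318392416)) (T.h (P (nat_lit 0)) (T.h (M (nat_lit 270820753451)) (T.h (P (nat_lit 0)) (M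 (nat_lit 60371348344559))))))) (T.h (P (nat_lit 0)) (T.h (T.h (P (nat_lit 0)) (T.h (M (nat_lit 59930939735)) (T.h (P (nat_lit 0)) (P (nat_lit 187577146580796))))) (T.h (P (nat_lit 0)) (T.h (T.h (P (nat_lit 0)) (M (nat_lit 149516638736507))) (P (nat_lit 0))))))) (T.h (T.h (P (nat_lit 0)) (T.h (T.h (M (nat_lit 5442984863)) (T.h (P (nat_lit 0)) (M (nat_lit 23453897071139)))) (T.h (P (nat_lit 0)) (P (nat_lit 18273604149180))))) (T.h (T.h (T.h (P (nat_lit 0)) (T.h (M (nat_lit 237065795783)) (T.h (P (nat_lit 0)) (M (nat_lit 110989164444299))))) (T.h (P (nat_lit 0)) (T.h (T.h (P (nat_lit 0)) (M (nat_lit 20727260798435))) (P (nat_lit 0))))) (T.h (T.h (P (nat_lit 0)) (M (nat_lit 253225592171))) (T.h (T.h (T.h (P (nat_lit 0)) (M (nat_lit 6424231546871))) (P (nat_lit 0))) (P (nat_lit 0)))))))) (P (nat_lit 0))))))) (T.h (T.h (P (nat_lit 0)) (T.h (T.h (T.h (T.h (P (nat_lit 0)) (T.h (M (nat_lit 5548556555))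 (T.h (P (nat_lit 0)) (T.h (P (nat_lit 10074941588)) (T.h (P (nat_lit 0)) (P (nat_lit 1500831158492))))))) (T.h (P (nat_lit 0)) (T.h (T.h (P (nat_lit 0)) (T.h (P (nat_lit 3608142680)) (T.h (P (nat_lit 0)) (P (nat_lit 1318160681048))))) (T.h (P (nat_lit 0)) (T.h (T.h (P (nat_lit 0)) (P (nat_lit 4735557164260))) (P (nat_lit 0))))))) (T.h (T.h (P (nat_lit 0)) (T.h (T.h (M (nat_lit 3300389015)) (T.h (P (nat_lit 0)) (T.h (P (nat_lit 17680943308)) (T.h (P (nat_lit 0)) (P (nat_lit 4217571608048)))))) (T.h (P (nat_lit 0)) (T.h (T.h (M (nat_lit 241633330899)) (T.h (P (nat_lit 0)) (M (nat_lit 6958331631127)))) (T.h (P (nat_lit 0)) (M (nat_lit 31235892314491))))))) (T.h (T.h (T.h (P (nat_lit 0)) (T.h (M (nat_lit 9882401987)) (T.h (P (nat_lit 0)) (P (nat_lit 16199186392))))) (T.h (P (nat_lit 0)) (T.h (T.h (P (nat_lit 0)) (P (nat_lit 581451294848))) (P (nat_lit 0))))) (T.h (T.h (P (nat_lit 0)) (T.h (T.h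 (M (nat_lit 155196221407)) (T.h (P (nat_lit 0)) (P (nat_lit 747653689724)))) (T.h (P (nat_lit 0)) (P (nat_lit 6584427779168))))) (T.h (T.h (T.h (P (nat_lit 0)) (P (nat_lit 13295152288))) (P (nat_lit 0))) (T.h (T.h (P (nat_lit 0)) (P (nat_lit 3944619294784))) (P (nat_lit 0)))))))) (T.h (P (nat_lit 0)) (T.h (T.h (T.h (T.h (P (nat_lit 0)) (T.h (P (nat_lit 7346784384)) (T.h (P (nat_lit 0)) (T.h (P (nat_lit 96285958128)) (T.h (P (nat_lit 0)) (M (nat_lit 4026292241615))))))) (T.h (P (nat_lit 0)) (T.h (T.h (P (nat_lit 0)) (T.h (M (nat_lit 338118514775)) (T.h (P (nat_lit 0)) (P (nat_lit 17994569658840))))) (T.h (P (nat_lit 0)) (T.h (T.h (P (nat_lit 0)) (P (nat_lit 57759739110036))) (P (nat_lit 0))))))) (T.h (T.h (P (nat_lit 0)) (T.h (T.h (M (nat_lit 67155314579)) (T.h (P (nat_lit 0)) (T.h (M (nat_lit 207480710771)) (T.h (P (nat_lit 0)) (P (nat_lit 75989420119440)))))) (T.h (P (nat_lit 0)) (T.h (T.h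 (M (nat_lit 1346926338755)) (T.h (P (nat_lit 0)) (M (nat_lit 182138066500859)))) (T.h (P (nat_lit 0)) (M (nat_lit 51969569751071))))))) (T.h (T.h (T.h (P (nat_lit 0)) (T.h (M (nat_lit 61015054895)) (T.h (P (nat_lit 0)) (M (nat_lit 127920262787))))) (T.h (P (nat_lit 0)) (T.h (T.h (P (nat_lit 0)) (P (nat_lit 23437863271440))) (P (nat_lit 0))))) (T.h (T.h (P (nat_lit 0)) (T.h (T.h (P (nat_lit 270409870260)) (T.h (P (nat_lit 0)) (P (nat_lit 72945435699468)))) (T.h (P (nat_lit 0)) (P (nat_lit 97497071996688))))) (T.h (T.h (T.h (P (nat_lit 0)) (M (nat_lit 560023399295))) (P (nat_lit 0))) (T.h (T.h (P (nat_lit 0)) (P (nat_lit 5815949185260))) (P (nat_lit 0)))))))) (P (nat_lit 0)))))) et1_0))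
def et1_2 : T ℤ := (T.h (T.h (P (nat_lit 0)) (T.h (P (nat_lit 0)) (T.h (P (nat_lit 0)) (T.h (P (nat_lit 0)) (T.h (T.h (T.h (P (nat_lit 0)) (T.h (T.h (M (nat_lit 4190400927)) (T.h (P (nat_lit 0)) (T.h (P (nat_lit 45588982648)) (T.h (P (nat_lit 0)) (M (nat_lit 7657985781195)))))) (T.h (P (nat_lit 0)) (T.h (T.h (P (nat_lit 2245046732)) (T.h (P (nat_lit 0)) (P (nat_lit 128582149096)))) (T.h (P (nat_lit 0)) (P (nat_lit 1105319544940))))))) (T.h (T.h (T.h (P (nat_lit 0)) (T.h (P (nat_lit 19643680872)) (T.h (P (nat_lit 0)) (T.h (M (nat_lit 431161122599)) (T.h (P (nat_lit 0)) (M (nat_lit 12614204027975))))))) (T.h (P (nat_lit 0)) (T.h (T.h (P (nat_lit 0)) (T.h (P (nat_lit 1223294689116)) (T.h (P (nat_lit 0)) (M (nat_lit 15315691732551))))) (T.h (P (nat_lit 0)) (T.h (T.h (P (nat_lit 0)) (P (nat_lit 10451887234888))) (P (nat_lit 0))))))) (T.h (T.h (P (nat_lit 0)) (T.h (T.h (P (nat_lit 49707721768))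 (T.h (P (nat_lit 0)) (P (nat_lit 8753185748148)))) (T.h (P (nat_lit 0)) (M (nat_lit 1207344138511))))) (T.h (T.h (T.h (P (nat_lit 0)) (T.h (M (nat_lit 342785750795)) (T.h (P (nat_lit 0)) (M (nat_lit 28274287932063))))) (T.h (P (nat_lit 0)) (T.h (T.h (P (nat_lit 0)) (M (nat_lit 8856716559715))) (P (nat_lit 0))))) (T.h (T.h (P (nat_lit 0)) (M (nat_lit 88552039683))) (T.h (T.h (T.h (P (nat_lit 0)) (M (nat_lit 8489352848291))) (P (nat_lit 0))) (P (nat_lit 0)))))))) (T.h (P (nat_lit 0)) (T.h (T.h (T.h (P (nat_lit 0)) (T.h (T.h (P (nat_lit 7346784384)) (T.h (P (nat_lit 0)) (T.h (M (nat_lit 338118514775)) (T.h (P (nat_lit 0)) (P (nat_lit 57759739110036)))))) (T.h (P (nat_lit 0)) (T.h (T.h (P (nat_lit 96285958128)) (T.h (P (nat_lit 0)) (P (nat_lit 17994569658840)))) (T.h (P (nat_lit 0)) (M (nat_lit 4026292241615))))))) (T.h (T.h (T.h (P (nat_lit 0)) (T.h (M (nat_lit 67155314579)) (T.h (P (nat_lit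 0)) (T.h (M (nat_lit 1346926338755)) (T.h (P (nat_lit 0)) (M (nat_lit 51969569751071))))))) (T.h (P (nat_lit 0)) (T.h (T.h (P (nat_lit 0)) (T.h (M (nat_lit 207480710771)) (T.h (P (nat_lit 0)) (M (nat_lit 182138066500859))))) (T.h (P (nat_lit 0)) (T.h (T.h (P (nat_lit 0)) (P (nat_lit 75989420119440))) (P (nat_lit 0))))))) (T.h (T.h (P (nat_lit 0)) (T.h (T.h (M (nat_lit 61015054895)) (T.h (P (nat_lit 0)) (P (nat_lit 23437863271440)))) (T.h (P (nat_lit 0)) (M (nat_lit 127920262787))))) (T.h (T.h (T.h (P (nat_lit 0)) (T.h (P (nat_lit 270409870260)) (T.h (P (nat_lit 0)) (P (nat_lit 97497071996688))))) (T.h (P (nat_lit 0)) (T.h (T.h (P (nat_lit 0)) (P (nat_lit 72945435699468))) (P (nat_lit 0))))) (T.h (T.h (P (nat_lit 0)) (M (nat_lit 560023399295))) (T.h (T.h (T.h (P (nat_lit 0)) (P (nat_lit 5815949185260))) (P (nat_lit 0))) (P (nat_lit 0)))))))) (P (nat_lit 0))))))))) (T.h (T.h (P (nat_lit 0))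 (T.h (P (nat_lit 0)) (T.h (P (nat_lit 0)) (T.h (T.h (T.h (T.h (P (nat_lit 0)) (T.h (M (nat_lit 4190400927)) (T.h (P (nat_lit 0)) (T.h (P (nat_lit 2245046732)) (T.h (P (nat_lit 0)) (P (nat_lit 1105319544940))))))) (T.h (P (nat_lit 0)) (T.h (T.h (P (nat_lit 0)) (T.h (P (nat_lit 45588982648)) (T.h (P (nat_lit 0)) (P (nat_lit 128582149096))))) (T.h (P (nat_lit 0)) (T.h (T.h (P (nat_lit 0)) (M (nat_lit 7657985781195))) (P (nat_lit 0))))))) (T.h (T.h (P (nat_lit 0)) (T.h (T.h (P (nat_lit 19643680872)) (T.h (P (nat_lit 0)) (T.h (P (nat_lit 1223294689116)) (T.h (P (nat_lit 0)) (P (nat_lit 10451887234888)))))) (T.h (P (nat_lit 0)) (T.h (T.h (M (nat_lit 431161122599)) (T.h (P (nat_lit 0)) (M (nat_lit 15315691732551)))) (T.h (P (nat_lit 0)) (M (nat_lit 12614204027975))))))) (T.h (T.h (T.h (P (nat_lit 0)) (T.h (P (nat_lit 49707721768)) (T.h (P (nat_lit 0)) (M (nat_lit 1207344138511))))) (T.h (P (nat_lit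 0)) (T.h (T.h (P (nat_lit 0)) (P (nat_lit 8753185748148))) (P (nat_lit 0))))) (T.h (T.h (P (nat_lit 0)) (T.h (T.h (M (nat_lit 342785750795)) (T.h (P (nat_lit 0)) (M (nat_lit 8856716559715)))) (T.h (P (nat_lit 0)) (M (nat_lit 28274287932063))))) (T.h (T.h (T.h (P (nat_lit 0)) (M (nat_lit 88552039683))) (P (nat_lit 0))) (T.h (T.h (P (nat_lit 0)) (M (nat_lit 8489352848291))) (P (nat_lit 0)))))))) (T.h (P (nat_lit 0)) (T.h (T.h (T.h (T.h (P (nat_lit 0)) (T.h (M (nat_lit 1944657611)) (T.h (P (nat_lit 0)) (T.h (M (nat_lit 385634981051)) (T.h (P (nat_lit 0)) (P (nat_lit 4747841539848))))))) (T.h (P (nat_lit 0)) (T.h (T.h (P (nat_lit 0)) (T.h (M (nat_lit 69065633123)) (T.h (P (nat_lit 0)) (P (nat_lit 3258209611152))))) (T.h (P (nat_lit 0)) (T.h (T.h (P (nat_lit 0)) (M (nat_lit 25229009720843))) (P (nat_lit 0))))))) (T.h (T.h (P (nat_lit 0)) (T.h (T.h (P (nat_lit 53318392416)) (T.h (P (nat_lit 0))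 (T.h (M (nat_lit 59930939735)) (T.h (P (nat_lit 0)) (M (nat_lit 149516638736507)))))) (T.h (P (nat_lit 0)) (T.h (T.h (M (nat_lit 270820753451)) (T.h (P (nat_lit 0)) (P (nat_lit 187577146580796)))) (T.h (P (nat_lit 0)) (M (nat_lit 60371348344559))))))) (T.h (T.h (T.h (P (nat_lit 0)) (T.h (M (nat_lit 5442984863)) (T.h (P (nat_lit 0)) (P (nat_lit 18273604149180))))) (T.h (P (nat_lit 0)) (T.h (T.h (P (nat_lit 0)) (M (nat_lit 23453897071139))) (P (nat_lit 0))))) (T.h (T.h (P (nat_lit 0)) (T.h (T.h (M (nat_lit 237065795783)) (T.h (P (nat_lit 0)) (M (nat_lit 20727260798435)))) (T.h (P (nat_lit 0)) (M (nat_lit 110989164444299))))) (T.h (T.h (T.h (P (nat_lit 0)) (M (nat_lit 253225592171))) (P (nat_lit 0))) (T.h (T.h (P (nat_lit 0)) (M (nat_lit 6424231546871))) (P (nat_lit 0)))))))) (P (nat_lit 0)))))))) et1_1))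
def et1_3 : T ℤ := (T.h (T.h (P (nat_lit 0)) (T.h (P (nat_lit 0)) (T.h (P (nat_lit 0)) (T.h (P (nat_lit 0)) (T.h (P (nat_lit 0)) (T.h (P (nat_lit 0)) (T.h (T.h (T.h (P (nat_lit 0)) (T.h (T.h (M (nat_lit 5548556555)) (T.h (P (nat_lit 0)) (T.h (P (nat_lit 3608142680)) (T.h (P (nat_lit 0)) (P (nat_lit 4735557164260)))))) (T.h (P (nat_lit 0)) (T.h (T.h (P (nat_lit 10074941588)) (T.h (P (nat_lit 0)) (P (nat_lit 1318160681048)))) (T.h (P (nat_lit 0)) (P (nat_lit 1500831158492))))))) (T.h (T.h (T.h (P (nat_lit 0)) (T.h (M (nat_lit 3300389015)) (T.h (P (nat_lit 0)) (T.h (M (nat_lit 241633330899)) (T.h (P (nat_lit 0)) (M (nat_lit 31235892314491))))))) (T.h (P (nat_lit 0)) (T.h (T.h (P (nat_lit 0)) (T.h (P (nat_lit 17680943308)) (T.h (P (nat_lit 0)) (M (nat_lit 6958331631127))))) (T.h (P (nat_lit 0)) (T.h (T.h (P (nat_lit 0)) (P (nat_lit 4217571608048))) (P (nat_lit 0))))))) (T.h (T.h (P (nat_lit 0))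 (T.h (T.h (M (nat_lit 9882401987)) (T.h (P (nat_lit 0)) (P (nat_lit 581451294848)))) (T.h (P (nat_lit 0)) (P (nat_lit 16199186392))))) (T.h (T.h (T.h (P (nat_lit 0)) (T.h (M (nat_lit 155196221407)) (T.h (P (nat_lit 0)) (P (nat_lit 6584427779168))))) (T.h (P (nat_lit 0)) (T.h (T.h (P (nat_lit 0)) (P (nat_lit 747653689724))) (P (nat_lit 0))))) (T.h (T.h (P (nat_lit 0)) (P (nat_lit 13295152288))) (T.h (T.h (T.h (P (nat_lit 0)) (P (nat_lit 3944619294784))) (P (nat_lit 0))) (P (nat_lit 0)))))))) (T.h (P (nat_lit 0)) (T.h (T.h (T.h (P (nat_lit 0)) (T.h (T.h (P (nat_lit 5519761164)) (T.h (P (nat_lit 0)) (T.h (M (nat_lit 26432588843)) (T.h (P (nat_lit 0)) (M (nat_lit 12338285201243)))))) (T.h (P (nat_lit 0)) (T.h (T.h (M (nat_lit 17164754783)) (T.h (P (nat_lit 0)) (M (nat_lit 8161891225919)))) (T.h (P (nat_lit 0)) (M (nat_lit 2292749898083))))))) (T.h (T.h (T.h (P (nat_lit 0)) (T.h (P (nat_lit 7638818112))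 (T.h (P (nat_lit 0)) (T.h (P (nat_lit 1436454174312)) (T.h (P (nat_lit 0)) (P (nat_lit 292477626780012))))))) (T.h (P (nat_lit 0)) (T.h (T.h (P (nat_lit 0)) (T.h (M (nat_lit 179731968911)) (T.h (P (nat_lit 0)) (P (nat_lit 28592063710812))))) (T.h (P (nat_lit 0)) (T.h (T.h (P (nat_lit 0)) (M (nat_lit 17100147915899))) (P (nat_lit 0))))))) (T.h (T.h (P (nat_lit 0)) (T.h (T.h (P (nat_lit 44581284432)) (T.h (P (nat_lit 0)) (M (nat_lit 10470599609579)))) (T.h (P (nat_lit 0)) (M (nat_lit 1262215327931))))) (T.h (T.h (T.h (P (nat_lit 0)) (T.h (P (nat_lit 305899725852)) (T.h (P (nat_lit 0)) (M (nat_lit 35340294992795))))) (T.h (P (nat_lit 0)) (T.h (T.h (P (nat_lit 0)) (P (nat_lit 4812499715364))) (P (nat_lit 0))))) (T.h (T.h (P (nat_lit 0)) (P (nat_lit 601500150072))) (T.h (T.h (T.h (P (nat_lit 0)) (M (nat_lit 3015351236807))) (P (nat_lit 0))) (P (nat_lit 0)))))))) (P (nat_lit 0))))))))))) (T.h (T.h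 (P (nat_lit 0)) (T.h (P (nat_lit 0)) (T.h (P (nat_lit 0)) (T.h (P (nat_lit 0)) (T.h (P (nat_lit 0)) (T.h (T.h (T.h (T.h (P (nat_lit 0)) (T.h (P (nat_lit 891412240)) (T.h (P (nat_lit 0)) (T.h (P (nat_lit 30915485352)) (T.h (P (nat_lit 0)) (M (nat_lit 425449705575))))))) (T.h (P (nat_lit 0)) (T.h (T.h (P (nat_lit 0)) (T.h (M (nat_lit 20130164395)) (T.h (P (nat_lit 0)) (M (nat_lit 1065069240007))))) (T.h (P (nat_lit 0)) (T.h (T.h (P (nat_lit 0)) (M (nat_lit 299197327491))) (P (nat_lit 0))))))) (T.h (T.h (P (nat_lit 0)) (T.h (T.h (M (nat_lit 3029248483)) (T.h (P (nat_lit 0)) (T.h (P (nat_lit 26127840616)) (T.h (P (nat_lit 0)) (M (nat_lit 14468509037383)))))) (T.h (P (nat_lit 0)) (T.h (T.h (P (nat_lit 73803227824)) (T.h (P (nat_lit 0)) (M (nat_lit 707781693867)))) (T.h (P (nat_lit 0)) (M (nat_lit 3121382083019))))))) (T.h (T.h (T.h (P (nat_lit 0)) (T.h (M (nat_lit 73017313779)) (T.h (P (nat_lit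 0)) (P (nat_lit 5928842529912))))) (T.h (P (nat_lit 0)) (T.h (T.h (P (nat_lit 0)) (P (nat_lit 55420225764))) (P (nat_lit 0))))) (T.h (T.h (P (nat_lit 0)) (T.h (T.h (P (nat_lit 70862865896)) (T.h (P (nat_lit 0)) (P (nat_lit 6281220142664)))) (T.h (P (nat_lit 0)) (P (nat_lit 1031708200808))))) (T.h (T.h (T.h (P (nat_lit 0)) (P (nat_lit 497516710404))) (P (nat_lit 0))) (T.h (T.h (P (nat_lit 0)) (P (nat_lit 3579203459304))) (P (nat_lit 0)))))))) (T.h (P (nat_lit 0)) (T.h (T.h (T.h (T.h (P (nat_lit 0)) (T.h (M (nat_lit 5065377623)) (T.h (P (nat_lit 0)) (T.h (M (nat_lit 275395995395)) (T.h (P (nat_lit 0)) (M (nat_lit 16219811394179))))))) (T.h (P (nat_lit 0)) (T.h (T.h (P (nat_lit 0)) (T.h (P (nat_lit 155359676448)) (T.h (P (nat_lit 0)) (M (nat_lit 8570200417739))))) (T.h (P (nat_lit 0)) (T.h (T.h (P (nat_lit 0)) (P (nat_lit 2857024429812))) (P (nat_lit 0))))))) (T.h (T.h (P (nat_lit 0)) (T.h (T.h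 (P (nat_lit 7208655228)) (T.h (P (nat_lit 0)) (T.h (M (nat_lit 196402350311)) (T.h (P (nat_lit 0)) (P (nat_lit 26243695599444)))))) (T.h (P (nat_lit 0)) (T.h (T.h (P (nat_lit 3284486640)) (T.h (P (nat_lit 0)) (M (nat_lit 46405720611287)))) (T.h (P (nat_lit 0)) (P (nat_lit 15144006490380))))))) (T.h (T.h (T.h (P (nat_lit 0)) (T.h (P (nat_lit 41138570772)) (T.h (P (nat_lit 0)) (M (nat_lit 18998054656163))))) (T.h (P (nat_lit 0)) (T.h (T.h (P (nat_lit 0)) (P (nat_lit 3898993085568))) (P (nat_lit 0))))) (T.h (T.h (P (nat_lit 0)) (T.h (T.h (M (nat_lit 454379901155)) (T.h (P (nat_lit 0)) (M (nat_lit 48456067457447)))) (T.h (P (nat_lit 0)) (P (nat_lit 29731065308388))))) (T.h (T.h (T.h (P (nat_lit 0)) (P (nat_lit 1436986193256))) (P (nat_lit 0))) (T.h (T.h (P (nat_lit 0)) (P (nat_lit 7362674093916))) (P (nat_lit 0)))))))) (P (nat_lit 0)))))))))) et1_2))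
def et1_4 : T ℤ := (T.h (T.h (T.h (T.h (P (nat_lit 0)) (T.h (T.h (P (nat_lit 0)) (T.h (M (nat_lit 3300389015)) (T.h (P (nat_lit 0)) (T.h (M (nat_lit 155196221407)) (T.h (P (nat_lit 0)) (P (nat_lit 3944619294784))))))) (T.h (P (nat_lit 0)) (T.h (T.h (P (nat_lit 0)) (T.h (M (nat_lit 241633330899)) (T.h (P (nat_lit 0)) (P (nat_lit 6584427779168))))) (T.h (P (nat_lit 0)) (T.h (T.h (P (nat_lit 0)) (M (nat_lit 31235892314491))) (P (nat_lit 0)))))))) (T.h (T.h (T.h (M (nat_lit 5548556555)) (T.h (P (nat_lit 0)) (T.h (M (nat_lit 9882401987)) (T.h (P (nat_lit 0)) (P (nat_lit 13295152288)))))) (T.h (P (nat_lit 0)) (T.h (T.h (P (nat_lit 3608142680)) (T.h (P (nat_lit 0)) (P (nat_lit 581451294848)))) (T.h (P (nat_lit 0)) (P (nat_lit 4735557164260)))))) (T.h (T.h (P (nat_lit 0)) (T.h (T.h (P (nat_lit 0)) (T.h (P (nat_lit 17680943308)) (T.h (P (nat_lit 0)) (P (nat_lit 747653689724))))) (T.h (P (nat_lit 0))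 (T.h (T.h (P (nat_lit 0)) (M (nat_lit 6958331631127))) (P (nat_lit 0)))))) (T.h (T.h (T.h (P (nat_lit 10074941588)) (T.h (P (nat_lit 0)) (P (nat_lit 16199186392)))) (T.h (P (nat_lit 0)) (P (nat_lit 1318160681048)))) (T.h (T.h (P (nat_lit 0)) (T.h (T.h (P (nat_lit 0)) (P (nat_lit 4217571608048))) (P (nat_lit 0)))) (P (nat_lit 1500831158492))))))) (T.h (P (nat_lit 0)) (T.h (T.h (T.h (P (nat_lit 0)) (T.h (T.h (P (nat_lit 0)) (T.h (P (nat_lit 37791571860)) (T.h (P (nat_lit 0)) (T.h (P (nat_lit 3127287067308)) (T.h (P (nat_lit 0)) (P (nat_lit 19439842109436))))))) (T.h (P (nat_lit 0)) (T.h (T.h (P (nat_lit 0)) (T.h (M (nat_lit 11627959010795)) (T.h (P (nat_lit 0)) (P (nat_lit 320234011663788))))) (T.h (P (nat_lit 0)) (T.h (T.h (P (nat_lit 0)) (P (nat_lit 22859058650400))) (P (nat_lit 0)))))))) (T.h (T.h (T.h (M (nat_lit 18021440231)) (T.h (P (nat_lit 0)) (T.h (P (nat_lit 308702830392)) (T.h (P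 (nat_lit 0)) (M (nat_lit 3717090369323)))))) (T.h (P (nat_lit 0)) (T.h (T.h (P (nat_lit 471353627124)) (T.h (P (nat_lit 0)) (P (nat_lit 31553603316612)))) (T.h (P (nat_lit 0)) (P (nat_lit 2201050956924)))))) (T.h (T.h (P (nat_lit 0)) (T.h (T.h (P (nat_lit 0)) (T.h (M (nat_lit 1995771262067)) (T.h (P (nat_lit 0)) (M (nat_lit 9226612344167))))) (T.h (P (nat_lit 0)) (T.h (T.h (P (nat_lit 0)) (P (nat_lit 198681113213352))) (P (nat_lit 0)))))) (T.h (T.h (T.h (P (nat_lit 979715851380)) (T.h (P (nat_lit 0)) (P (nat_lit 2719344628512)))) (T.h (P (nat_lit 0)) (P (nat_lit 34156956415896)))) (T.h (T.h (P (nat_lit 0)) (T.h (T.h (P (nat_lit 0)) (P (nat_lit 20114121753468))) (P (nat_lit 0)))) (M (nat_lit 4171530929795))))))) (P (nat_lit 0))))) (T.h (T.h (P (nat_lit 0)) (T.h (T.h (T.h (T.h (M (nat_lit 243186119)) (T.h (P (nat_lit 0)) (T.h (P (nat_lit 30142000080)) (T.h (P (nat_lit 0)) (T.h (M (nat_lit 745063880399))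 (T.h (P (nat_lit 0)) (P (nat_lit 18892036615428)))))))) (T.h (P (nat_lit 0)) (T.h (T.h (P (nat_lit 199492058232)) (T.h (P (nat_lit 0)) (T.h (P (nat_lit 2975785110972)) (T.h (P (nat_lit 0)) (M (nat_lit 49206953088647)))))) (T.h (P (nat_lit 0)) (T.h (T.h (P (nat_lit 2105928692136)) (T.h (P (nat_lit 0)) (M (nat_lit 14186529107963)))) (T.h (P (nat_lit 0)) (P (nat_lit 146191709213280)))))))) (T.h (T.h (P (nat_lit 0)) (T.h (T.h (P (nat_lit 0)) (T.h (P (nat_lit 211107126744)) (T.h (P (nat_lit 0)) (M (nat_lit 2290107156695))))) (T.h (P (nat_lit 0)) (T.h (T.h (P (nat_lit 0)) (M (nat_lit 73834886063951))) (P (nat_lit 0)))))) (T.h (T.h (T.h (P (nat_lit 30142000080)) (T.h (P (nat_lit 0)) (T.h (P (nat_lit 206999076672)) (T.h (P (nat_lit 0)) (P (nat_lit 27644213439144)))))) (T.h (P (nat_lit 0)) (T.h (T.h (P (nat_lit 2975785110972)) (T.h (P (nat_lit 0)) (P (nat_lit 106941138912720)))) (T.h (P (nat_lit 0))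 (M (nat_lit 14186529107963)))))) (T.h (T.h (P (nat_lit 0)) (T.h (T.h (P (nat_lit 0)) (M (nat_lit 2290107156695))) (P (nat_lit 0)))) (T.h (T.h (T.h (M (nat_lit 745063880399)) (T.h (P (nat_lit 0)) (P (nat_lit 27644213439144)))) (T.h (P (nat_lit 0)) (M (nat_lit 49206953088647)))) (T.h (P (nat_lit 0)) (P (nat_lit 18892036615428)))))))) (P (nat_lit 0)))) (T.h (T.h (T.h (T.h (P (nat_lit 0)) (T.h (T.h (P (nat_lit 0)) (T.h (P (nat_lit 7638818112)) (T.h (P (nat_lit 0)) (T.h (P (nat_lit 305899725852)) (T.h (P (nat_lit 0)) (M (nat_lit 3015351236807))))))) (T.h (P (nat_lit 0)) (T.h (T.h (P (nat_lit 0)) (T.h (P (nat_lit 1436454174312)) (T.h (P (nat_lit 0)) (M (nat_lit 35340294992795))))) (T.h (P (nat_lit 0)) (T.h (T.h (P (nat_lit 0)) (P (nat_lit 292477626780012))) (P (nat_lit 0)))))))) (T.h (T.h (T.h (P (nat_lit 5519761164)) (T.h (P (nat_lit 0)) (T.h (P (nat_lit 44581284432)) (T.h (P (nat_lit 0)) (P (nat_lit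 601500150072)))))) (T.h (P (nat_lit 0)) (T.h (T.h (M (nat_lit 26432588843)) (T.h (P (nat_lit 0)) (M (nat_lit 10470599609579)))) (T.h (P (nat_lit 0)) (M (nat_lit 12338285201243)))))) (T.h (T.h (P (nat_lit 0)) (T.h (T.h (P (nat_lit 0)) (T.h (M (nat_lit 179731968911)) (T.h (P (nat_lit 0)) (P (nat_lit 4812499715364))))) (T.h (P (nat_lit 0)) (T.h (T.h (P (nat_lit 0)) (P (nat_lit 28592063710812))) (P (nat_lit 0)))))) (T.h (T.h (T.h (M (nat_lit 17164754783)) (T.h (P (nat_lit 0)) (M (nat_lit 1262215327931)))) (T.h (P (nat_lit 0)) (M (nat_lit 8161891225919)))) (T.h (T.h (P (nat_lit 0)) (T.h (T.h (P (nat_lit 0)) (M (nat_lit 17100147915899))) (P (nat_lit 0)))) (M (nat_lit 2292749898083))))))) (P (nat_lit 0))) (P (nat_lit 0)))))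
def et1_5 : T ℤ := (T.h (T.h (P (nat_lit 0)) (T.h (P (nat_lit 0)) (T.h (T.h (T.h (P (nat_lit 0)) (T.h (T.h (P (nat_lit 0)) (T.h (M (nat_lit 29647351647)) (T.h (P (nat_lit 0)) (T.h (M (nat_lit 10879828367)) (T.h (P (nat_lit 0)) (M (nat_lit 13358497876483))))))) (T.h (P (nat_lit 0)) (T.h (T.h (P (nat_lit 0)) (T.h (P (nat_lit 2080713502172)) (T.h (P (nat_lit 0)) (M (nat_lit 191096131368247))))) (T.h (P (nat_lit 0)) (T.h (T.h (P (nat_lit 0)) (P (nat_lit 190413435571160))) (P (nat_lit 0)))))))) (T.h (T.h (T.h (M (nat_lit 6396741371)) (T.h (P (nat_lit 0)) (T.h (P (nat_lit 85781606708)) (T.h (P (nat_lit 0)) (M (nat_lit 377643828871)))))) (T.h (P (nat_lit 0)) (T.h (T.h (M (nat_lit 331628121171)) (T.h (P (nat_lit 0)) (P (nat_lit 23542778306056)))) (T.h (P (nat_lit 0)) (M (nat_lit 10054735523207)))))) (T.h (T.h (P (nat_lit 0)) (T.h (T.h (P (nat_lit 0)) (T.h (P (nat_lit 4851205873492)) (T.h (P (nat_lit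 0)) (M (nat_lit 31106696189171))))) (T.h (P (nat_lit 0)) (T.h (T.h (P (nat_lit 0)) (M (nat_lit 97114553006151))) (P (nat_lit 0)))))) (T.h (T.h (T.h (M (nat_lit 174384795643)) (T.h (P (nat_lit 0)) (M (nat_lit 1065183521967)))) (T.h (P (nat_lit 0)) (M (nat_lit 8991927718811)))) (T.h (T.h (P (nat_lit 0)) (T.h (T.h (P (nat_lit 0)) (M (nat_lit 84312873109539))) (P (nat_lit 0)))) (P (nat_lit 1917080548272))))))) (T.h (P (nat_lit 0)) (T.h (T.h (T.h (P (nat_lit 0)) (T.h (T.h (P (nat_lit 0)) (T.h (P (nat_lit 375853693968)) (T.h (P (nat_lit 0)) (T.h (P (nat_lit 12849870922272)) (T.h (P (nat_lit 0)) (M (nat_lit 202119538949243))))))) (T.h (P (nat_lit 0)) (T.h (T.h (P (nat_lit 0)) (T.h (P (nat_lit 12849870922272)) (T.h (P (nat_lit 0)) (P (nat_lit 774701687506896))))) (T.h (P (nat_lit 0)) (T.h (T.h (P (nat_lit 0)) (M (nat_lit 202119538949243))) (P (nat_lit 0)))))))) (T.h (T.h (T.h (P (nat_lit 73296641376))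 (T.h (P (nat_lit 0)) (T.h (M (nat_lit 960799312079)) (T.h (P (nat_lit 0)) (M (nat_lit 13275752271263)))))) (T.h (P (nat_lit 0)) (T.h (T.h (M (nat_lit 960799312079)) (T.h (P (nat_lit 0)) (M (nat_lit 210475412906039)))) (T.h (P (nat_lit 0)) (M (nat_lit 13275752271263)))))) (T.h (T.h (P (nat_lit 0)) (T.h (T.h (P (nat_lit 0)) (T.h (M (nat_lit 33922427808095)) (T.h (P (nat_lit 0)) (M (nat_lit 128533896911267))))) (T.h (P (nat_lit 0)) (T.h (T.h (P (nat_lit 0)) (M (nat_lit 128533896911267))) (P (nat_lit 0)))))) (T.h (T.h (T.h (M (nat_lit 2232330122735)) (T.h (P (nat_lit 0)) (M (nat_lit 10084512646511)))) (T.h (P (nat_lit 0)) (M (nat_lit 10084512646511)))) (T.h (T.h (P (nat_lit 0)) (T.h (T.h (P (nat_lit 0)) (P (nat_lit 632019399498288))) (P (nat_lit 0)))) (P (nat_lit 10890034189128))))))) (P (nat_lit 0))))))) (T.h (T.h (P (nat_lit 0)) (T.h (T.h (T.h (T.h (P (nat_lit 191368800)) (T.h (P (nat_lit 0))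 (T.h (M (nat_lit 14375232847)) (T.h (P (nat_lit 0)) (T.h (P (nat_lit 61461914608)) (T.h (P (nat_lit 0)) (M (nat_lit 6702957157231)))))))) (T.h (P (nat_lit 0)) (T.h (T.h (M (nat_lit 10943854559)) (T.h (P (nat_lit 0)) (T.h (M (nat_lit 34873274799)) (T.h (P (nat_lit 0)) (M (nat_lit 29911592320439)))))) (T.h (P (nat_lit 0)) (T.h (T.h (P (nat_lit 662553562528)) (T.h (P (nat_lit 0)) (P (nat_lit 44854019375104)))) (T.h (P (nat_lit 0)) (P (nat_lit 3006832295824)))))))) (T.h (T.h (P (nat_lit 0)) (T.h (T.h (P (nat_lit 0)) (T.h (P (nat_lit 7088180912)) (T.h (P (nat_lit 0)) (P (nat_lit 1892787154832))))) (T.h (P (nat_lit 0)) (T.h (T.h (P (nat_lit 0)) (P (nat_lit 9216669431744))) (P (nat_lit 0)))))) (T.h (T.h (T.h (M (nat_lit 14375232847)) (T.h (P (nat_lit 0)) (T.h (P (nat_lit 16108315056)) (T.h (P (nat_lit 0)) (P (nat_lit 2111538155432)))))) (T.h (P (nat_lit 0)) (T.h (T.h (M (nat_lit 34873274799)) (T.h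 (P (nat_lit 0)) (M (nat_lit 19499679307439)))) (T.h (P (nat_lit 0)) (P (nat_lit 44854019375104)))))) (T.h (T.h (P (nat_lit 0)) (T.h (T.h (P (nat_lit 0)) (P (nat_lit 1892787154832))) (P (nat_lit 0)))) (T.h (T.h (T.h (P (nat_lit 61461914608)) (T.h (P (nat_lit 0)) (P (nat_lit 2111538155432)))) (T.h (P (nat_lit 0)) (M (nat_lit 29911592320439)))) (T.h (P (nat_lit 0)) (M (nat_lit 6702957157231)))))))) (T.h (P (nat_lit 0)) (T.h (T.h (T.h (T.h (P (nat_lit 1586732076)) (T.h (P (nat_lit 0)) (T.h (P (nat_lit 122888046240)) (T.h (P (nat_lit 0)) (T.h (M (nat_lit 2486146493627)) (T.h (P (nat_lit 0)) (P (nat_lit 99533579795640)))))))) (T.h (P (nat_lit 0)) (T.h (T.h (M (nat_lit 141552175427)) (T.h (P (nat_lit 0)) (T.h (P (nat_lit 1602629801028)) (T.h (P (nat_lit 0)) (M (nat_lit 921715754136155)))))) (T.h (P (nat_lit 0)) (T.h (T.h (M (nat_lit 335002032323)) (T.h (P (nat_lit 0)) (M (nat_lit 147762217911887))))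 (T.h (P (nat_lit 0)) (P (nat_lit 81484927679448)))))))) (T.h (T.h (P (nat_lit 0)) (T.h (T.h (P (nat_lit 0)) (T.h (P (nat_lit 1661001726960)) (T.h (P (nat_lit 0)) (M (nat_lit 3587379021863))))) (T.h (P (nat_lit 0)) (T.h (T.h (P (nat_lit 0)) (P (nat_lit 64962142375536))) (P (nat_lit 0)))))) (T.h (T.h (T.h (P (nat_lit 31168490040)) (T.h (P (nat_lit 0)) (T.h (M (nat_lit 2766066438743)) (T.h (P (nat_lit 0)) (M (nat_lit 2888013818051)))))) (T.h (P (nat_lit 0)) (T.h (T.h (P (nat_lit 7131470574780)) (T.h (P (nat_lit 0)) (M (nat_lit 374248682893907)))) (T.h (P (nat_lit 0)) (M (nat_lit 5403915339875)))))) (T.h (T.h (P (nat_lit 0)) (T.h (T.h (P (nat_lit 0)) (M (nat_lit 18926025776207))) (P (nat_lit 0)))) (T.h (T.h (T.h (M (nat_lit 143423312291)) (T.h (P (nat_lit 0)) (M (nat_lit 78577891136027)))) (T.h (P (nat_lit 0)) (P (nat_lit 262647202194792)))) (T.h (P (nat_lit 0)) (M (nat_lit 8996606343215))))))))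 (P (nat_lit 0)))))) et1_4))
def et1_6 : T ℤ := (T.h (T.h (P (nat_lit 0)) (T.h (P (nat_lit 0)) (T.h (P (nat_lit 0)) (T.h (P (nat_lit 0)) (T.h (T.h (T.h (P (nat_lit 0)) (T.h (T.h (P (nat_lit 0)) (T.h (M (nat_lit 29647351647)) (T.h (P (nat_lit 0)) (T.h (P (nat_lit 2080713502172)) (T.h (P (nat_lit 0)) (P (nat_lit 190413435571160))))))) (T.h (P (nat_lit 0)) (T.h (T.h (P (nat_lit 0)) (T.h (M (nat_lit 10879828367)) (T.h (P (nat_lit 0)) (M (nat_lit 191096131368247))))) (T.h (P (nat_lit 0)) (T.h (T.h (P (nat_lit 0)) (M (nat_lit 13358497876483))) (P (nat_lit 0)))))))) (T.h (T.h (T.h (M (nat_lit 6396741371)) (T.h (P (nat_lit 0)) (T.h (M (nat_lit 331628121171)) (T.h (P (nat_lit 0)) (M (nat_lit 10054735523207)))))) (T.h (P (nat_lit 0)) (T.h (T.h (P (nat_lit 85781606708)) (T.h (P (nat_lit 0)) (P (nat_lit 23542778306056)))) (T.h (P (nat_lit 0)) (M (nat_lit 377643828871)))))) (T.h (T.h (P (nat_lit 0)) (T.h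 (T.h (P (nat_lit 0)) (T.h (P (nat_lit 4851205873492)) (T.h (P (nat_lit 0)) (M (nat_lit 97114553006151))))) (T.h (P (nat_lit 0)) (T.h (T.h (P (nat_lit 0)) (M (nat_lit 31106696189171))) (P (nat_lit 0)))))) (T.h (T.h (T.h (M (nat_lit 174384795643)) (T.h (P (nat_lit 0)) (M (nat_lit 8991927718811)))) (T.h (P (nat_lit 0)) (M (nat_lit 1065183521967)))) (T.h (T.h (P (nat_lit 0)) (T.h (T.h (P (nat_lit 0)) (M (nat_lit 84312873109539))) (P (nat_lit 0)))) (P (nat_lit 1917080548272))))))) (T.h (P (nat_lit 0)) (T.h (T.h (T.h (P (nat_lit 0)) (T.h (T.h (P (nat_lit 0)) (T.h (P (nat_lit 37791571860)) (T.h (P (nat_lit 0)) (T.h (M (nat_lit 11627959010795)) (T.h (P (nat_lit 0)) (P (nat_lit 22859058650400))))))) (T.h (P (nat_lit 0)) (T.h (T.h (P (nat_lit 0)) (T.h (P (nat_lit 3127287067308)) (T.h (P (nat_lit 0)) (P (nat_lit 320234011663788))))) (T.h (P (nat_lit 0)) (T.h (T.h (P (nat_lit 0)) (P (nat_lit 19439842109436)))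 (P (nat_lit 0)))))))) (T.h (T.h (T.h (M (nat_lit 18021440231)) (T.h (P (nat_lit 0)) (T.h (P (nat_lit 471353627124)) (T.h (P (nat_lit 0)) (P (nat_lit 2201050956924)))))) (T.h (P (nat_lit 0)) (T.h (T.h (P (nat_lit 308702830392)) (T.h (P (nat_lit 0)) (P (nat_lit 31553603316612)))) (T.h (P (nat_lit 0)) (M (nat_lit 3717090369323)))))) (T.h (T.h (P (nat_lit 0)) (T.h (T.h (P (nat_lit 0)) (T.h (M (nat_lit 1995771262067)) (T.h (P (nat_lit 0)) (P (nat_lit 198681113213352))))) (T.h (P (nat_lit 0)) (T.h (T.h (P (nat_lit 0)) (M (nat_lit 9226612344167))) (P (nat_lit 0)))))) (T.h (T.h (T.h (P (nat_lit 979715851380)) (T.h (P (nat_lit 0)) (P (nat_lit 34156956415896)))) (T.h (P (nat_lit 0)) (P (nat_lit 2719344628512)))) (T.h (T.h (P (nat_lit 0)) (T.h (T.h (P (nat_lit 0)) (P (nat_lit 20114121753468))) (P (nat_lit 0)))) (M (nat_lit 4171530929795))))))) (P (nat_lit 0))))))))) (T.h (T.h (P (nat_lit 0)) (T.h (P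 (nat_lit 0)) (T.h (P (nat_lit 0)) (T.h (T.h (T.h (T.h (M (nat_lit 423932111)) (T.h (P (nat_lit 0)) (T.h (M (nat_lit 29726566583)) (T.h (P (nat_lit 0)) (T.h (P (nat_lit 268521230920)) (T.h (P (nat_lit 0)) (M (nat_lit 12591969070359)))))))) (T.h (P (nat_lit 0)) (T.h (T.h (M (nat_lit 29726566583)) (T.h (P (nat_lit 0)) (T.h (M (nat_lit 2884552258719)) (T.h (P (nat_lit 0)) (P (nat_lit 300073004662544)))))) (T.h (P (nat_lit 0)) (T.h (T.h (P (nat_lit 268521230920)) (T.h (P (nat_lit 0)) (P (nat_lit 300073004662544)))) (T.h (P (nat_lit 0)) (M (nat_lit 12591969070359)))))))) (T.h (T.h (P (nat_lit 0)) (T.h (T.h (P (nat_lit 0)) (T.h (M (nat_lit 1340834800351)) (T.h (P (nat_lit 0)) (P (nat_lit 23905554666216))))) (T.h (P (nat_lit 0)) (T.h (T.h (P (nat_lit 0)) (P (nat_lit 23905554666216))) (P (nat_lit 0)))))) (T.h (T.h (T.h (M (nat_lit 36104749663)) (T.h (P (nat_lit 0)) (T.h (M (nat_lit 2419101748775))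 (T.h (P (nat_lit 0)) (P (nat_lit 10541060307472)))))) (T.h (P (nat_lit 0)) (T.h (T.h (M (nat_lit 2419101748775)) (T.h (P (nat_lit 0)) (P (nat_lit 216563078211696)))) (T.h (P (nat_lit 0)) (P (nat_lit 10541060307472)))))) (T.h (T.h (P (nat_lit 0)) (T.h (T.h (P (nat_lit 0)) (P (nat_lit 4280490756592))) (P (nat_lit 0)))) (T.h (T.h (T.h (P (nat_lit 359150202432)) (T.h (P (nat_lit 0)) (M (nat_lit 14274761453239)))) (T.h (P (nat_lit 0)) (M (nat_lit 14274761453239)))) (T.h (P (nat_lit 0)) (M (nat_lit 5166924887967)))))))) (T.h (P (nat_lit 0)) (T.h (T.h (T.h (T.h (P (nat_lit 1586732076)) (T.h (P (nat_lit 0)) (T.h (M (nat_lit 141552175427)) (T.h (P (nat_lit 0)) (T.h (M (nat_lit 335002032323)) (T.h (P (nat_lit 0)) (P (nat_lit 81484927679448)))))))) (T.h (P (nat_lit 0)) (T.h (T.h (P (nat_lit 122888046240)) (T.h (P (nat_lit 0)) (T.h (P (nat_lit 1602629801028)) (T.h (P (nat_lit 0)) (M (nat_lit 147762217911887))))))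 (T.h (P (nat_lit 0)) (T.h (T.h (M (nat_lit 2486146493627)) (T.h (P (nat_lit 0)) (M (nat_lit 921715754136155)))) (T.h (P (nat_lit 0)) (P (nat_lit 99533579795640)))))))) (T.h (T.h (P (nat_lit 0)) (T.h (T.h (P (nat_lit 0)) (T.h (P (nat_lit 1661001726960)) (T.h (P (nat_lit 0)) (P (nat_lit 64962142375536))))) (T.h (P (nat_lit 0)) (T.h (T.h (P (nat_lit 0)) (M (nat_lit 3587379021863))) (P (nat_lit 0)))))) (T.h (T.h (T.h (P (nat_lit 31168490040)) (T.h (P (nat_lit 0)) (T.h (P (nat_lit 7131470574780)) (T.h (P (nat_lit 0)) (M (nat_lit 5403915339875)))))) (T.h (P (nat_lit 0)) (T.h (T.h (M (nat_lit 2766066438743)) (T.h (P (nat_lit 0)) (M (nat_lit 374248682893907)))) (T.h (P (nat_lit 0)) (M (nat_lit 2888013818051)))))) (T.h (T.h (P (nat_lit 0)) (T.h (T.h (P (nat_lit 0)) (M (nat_lit 18926025776207))) (P (nat_lit 0)))) (T.h (T.h (T.h (M (nat_lit 143423312291)) (T.h (P (nat_lit 0)) (P (nat_lit 262647202194792))))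 (T.h (P (nat_lit 0)) (M (nat_lit 78577891136027)))) (T.h (P (nat_lit 0)) (M (nat_lit 8996606343215)))))))) (P (nat_lit 0)))))))) et1_5))
def et1_7 : T ℤ := (T.h (T.h (P (nat_lit 0)) (T.h (P (nat_lit 0)) (T.h (P (nat_lit 0)) (T.h (P (nat_lit 0)) (T.h (P (nat_lit 0)) (T.h (P (nat_lit 0)) (T.h (T.h (T.h (P (nat_lit 0)) (T.h (T.h (P (nat_lit 0)) (T.h (M (nat_lit 3300389015)) (T.h (P (nat_lit 0)) (T.h (M (nat_lit 241633330899)) (T.h (P (nat_lit 0)) (M (nat_lit 31235892314491))))))) (T.h (P (nat_lit 0)) (T.h (T.h (P (nat_lit 0)) (T.h (M (nat_lit 155196221407)) (T.h (P (nat_lit 0)) (P (nat_lit 6584427779168))))) (T.h (P (nat_lit 0)) (T.h (T.h (P (nat_lit 0)) (P (nat_lit 3944619294784))) (P (nat_lit 0)))))))) (T.h (T.h (T.h (M (nat_lit 5548556555)) (T.h (P (nat_lit 0)) (T.h (P (nat_lit 3608142680)) (T.h (P (nat_lit 0)) (P (nat_lit 4735557164260)))))) (T.h (P (nat_lit 0)) (T.h (T.h (M (nat_lit 9882401987))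 (T.h (P (nat_lit 0)) (P (nat_lit 581451294848)))) (T.h (P (nat_lit 0)) (P (nat_lit 13295152288)))))) (T.h (T.h (P (nat_lit 0)) (T.h (T.h (P (nat_lit 0)) (T.h (P (nat_lit 17680943308)) (T.h (P (nat_lit 0)) (M (nat_lit 6958331631127))))) (T.h (P (nat_lit 0)) (T.h (T.h (P (nat_lit 0)) (P (nat_lit 747653689724))) (P (nat_lit 0)))))) (T.h (T.h (T.h (P (nat_lit 10074941588)) (T.h (P (nat_lit 0)) (P (nat_lit 1318160681048)))) (T.h (P (nat_lit 0)) (P (nat_lit 16199186392)))) (T.h (T.h (P (nat_lit 0)) (T.h (T.h (P (nat_lit 0)) (P (nat_lit 4217571608048))) (P (nat_lit 0)))) (P (nat_lit 1500831158492))))))) (T.h (P (nat_lit 0)) (T.h (T.h (T.h (P (nat_lit 0)) (T.h (T.h (P (nat_lit 0)) (T.h (P (nat_lit 7638818112)) (T.h (P (nat_lit 0)) (T.h (P (nat_lit 1436454174312)) (T.h (P (nat_lit 0)) (P (nat_lit 292477626780012))))))) (T.h (P (nat_lit 0)) (T.h (T.h (P (nat_lit 0)) (T.h (P (nat_lit 305899725852)) (T.h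 (P (nat_lit 0)) (M (nat_lit 35340294992795))))) (T.h (P (nat_lit 0)) (T.h (T.h (P (nat_lit 0)) (M (nat_lit 3015351236807))) (P (nat_lit 0)))))))) (T.h (T.h (T.h (P (nat_lit 5519761164)) (T.h (P (nat_lit 0)) (T.h (M (nat_lit 26432588843)) (T.h (P (nat_lit 0)) (M (nat_lit 12338285201243)))))) (T.h (P (nat_lit 0)) (T.h (T.h (P (nat_lit 44581284432)) (T.h (P (nat_lit 0)) (M (nat_lit 10470599609579)))) (T.h (P (nat_lit 0)) (P (nat_lit 601500150072)))))) (T.h (T.h (P (nat_lit 0)) (T.h (T.h (P (nat_lit 0)) (T.h (M (nat_lit 179731968911)) (T.h (P (nat_lit 0)) (P (nat_lit 28592063710812))))) (T.h (P (nat_lit 0)) (T.h (T.h (P (nat_lit 0)) (P (nat_lit 4812499715364))) (P (nat_lit 0)))))) (T.h (T.h (T.h (M (nat_lit 17164754783)) (T.h (P (nat_lit 0)) (M (nat_lit 8161891225919)))) (T.h (P (nat_lit 0)) (M (nat_lit 1262215327931)))) (T.h (T.h (P (nat_lit 0)) (T.h (T.h (P (nat_lit 0)) (M (nat_lit 17100147915899)))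 (P (nat_lit 0)))) (M (nat_lit 2292749898083))))))) (P (nat_lit 0))))))))))) (T.h (T.h (P (nat_lit 0)) (T.h (P (nat_lit 0)) (T.h (P (nat_lit 0)) (T.h (P (nat_lit 0)) (T.h (P (nat_lit 0)) (T.h (T.h (T.h (T.h (P (nat_lit 191368800)) (T.h (P (nat_lit 0)) (T.h (M (nat_lit 10943854559)) (T.h (P (nat_lit 0)) (T.h (P (nat_lit 662553562528)) (T.h (P (nat_lit 0)) (P (nat_lit 3006832295824)))))))) (T.h (P (nat_lit 0)) (T.h (T.h (M (nat_lit 14375232847)) (T.h (P (nat_lit 0)) (T.h (M (nat_lit 34873274799)) (T.h (P (nat_lit 0)) (P (nat_lit 44854019375104)))))) (T.h (P (nat_lit 0)) (T.h (T.h (P (nat_lit 61461914608)) (T.h (P (nat_lit 0)) (M (nat_lit 29911592320439)))) (T.h (P (nat_lit 0)) (M (nat_lit 6702957157231)))))))) (T.h (T.h (P (nat_lit 0)) (T.h (T.h (P (nat_lit 0)) (T.h (P (nat_lit 7088180912)) (T.h (P (nat_lit 0)) (P (nat_lit 9216669431744))))) (T.h (P (nat_lit 0)) (T.h (T.h (P (nat_lit 0)) (P (nat_lit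 1892787154832))) (P (nat_lit 0)))))) (T.h (T.h (T.h (M (nat_lit 14375232847)) (T.h (P (nat_lit 0)) (T.h (M (nat_lit 34873274799)) (T.h (P (nat_lit 0)) (P (nat_lit 44854019375104)))))) (T.h (P (nat_lit 0)) (T.h (T.h (P (nat_lit 16108315056)) (T.h (P (nat_lit 0)) (M (nat_lit 19499679307439)))) (T.h (P (nat_lit 0)) (P (nat_lit 2111538155432)))))) (T.h (T.h (P (nat_lit 0)) (T.h (T.h (P (nat_lit 0)) (P (nat_lit 1892787154832))) (P (nat_lit 0)))) (T.h (T.h (T.h (P (nat_lit 61461914608)) (T.h (P (nat_lit 0)) (M (nat_lit 29911592320439)))) (T.h (P (nat_lit 0)) (P (nat_lit 2111538155432)))) (T.h (P (nat_lit 0)) (M (nat_lit 6702957157231)))))))) (T.h (P (nat_lit 0)) (T.h (T.h (T.h (T.h (M (nat_lit 243186119)) (T.h (P (nat_lit 0)) (T.h (P (nat_lit 199492058232)) (T.h (P (nat_lit 0)) (T.h (P (nat_lit 2105928692136)) (T.h (P (nat_lit 0)) (P (nat_lit 146191709213280)))))))) (T.h (P (nat_lit 0)) (T.h (T.h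 (P (nat_lit 30142000080)) (T.h (P (nat_lit 0)) (T.h (P (nat_lit 2975785110972)) (T.h (P (nat_lit 0)) (M (nat_lit 14186529107963)))))) (T.h (P (nat_lit 0)) (T.h (T.h (M (nat_lit 745063880399)) (T.h (P (nat_lit 0)) (M (nat_lit 49206953088647)))) (T.h (P (nat_lit 0)) (P (nat_lit 18892036615428)))))))) (T.h (T.h (P (nat_lit 0)) (T.h (T.h (P (nat_lit 0)) (T.h (P (nat_lit 211107126744)) (T.h (P (nat_lit 0)) (M (nat_lit 73834886063951))))) (T.h (P (nat_lit 0)) (T.h (T.h (P (nat_lit 0)) (M (nat_lit 2290107156695))) (P (nat_lit 0)))))) (T.h (T.h (T.h (P (nat_lit 30142000080)) (T.h (P (nat_lit 0)) (T.h (P (nat_lit 2975785110972)) (T.h (P (nat_lit 0)) (M (nat_lit 14186529107963)))))) (T.h (P (nat_lit 0)) (T.h (T.h (P (nat_lit 206999076672)) (T.h (P (nat_lit 0)) (P (nat_lit 106941138912720)))) (T.h (P (nat_lit 0)) (P (nat_lit 27644213439144)))))) (T.h (T.h (P (nat_lit 0)) (T.h (T.h (P (nat_lit 0)) (M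 (nat_lit 2290107156695))) (P (nat_lit 0)))) (T.h (T.h (T.h (M (nat_lit 745063880399)) (T.h (P (nat_lit 0)) (M (nat_lit 49206953088647)))) (T.h (P (nat_lit 0)) (P (nat_lit 27644213439144)))) (T.h (P (nat_lit 0)) (P (nat_lit 18892036615428)))))))) (P (nat_lit 0)))))))))) et1_6))
def et1_8 : T ℤ := (T.h (T.h (T.h (T.h (P (nat_lit 0)) (T.h (T.h (P (nat_lit 891412240)) (T.h (P (nat_lit 0)) (T.h (M (nat_lit 73017313779)) (T.h (P (nat_lit 0)) (P (nat_lit 497516710404)))))) (T.h (P (nat_lit 0)) (T.h (T.h (P (nat_lit 30915485352)) (T.h (P (nat_lit 0)) (P (nat_lit 5928842529912)))) (T.h (P (nat_lit 0)) (M (nat_lit 425449705575))))))) (T.h (T.h (T.h (P (nat_lit 0)) (T.h (M (nat_lit 3029248483)) (T.h (P (nat_lit 0)) (T.h (P (nat_lit 70862865896)) (T.h (P (nat_lit 0)) (P (nat_lit 3579203459304))))))) (T.h (P (nat_lit 0)) (T.h (T.h (P (nat_lit 0)) (T.h (P (nat_lit 26127840616)) (T.h (P (nat_lit 0)) (P (nat_lit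 6281220142664))))) (T.h (P (nat_lit 0)) (T.h (T.h (P (nat_lit 0)) (M (nat_lit 14468509037383))) (P (nat_lit 0))))))) (T.h (T.h (P (nat_lit 0)) (T.h (T.h (M (nat_lit 20130164395)) (T.h (P (nat_lit 0)) (P (nat_lit 55420225764)))) (T.h (P (nat_lit 0)) (M (nat_lit 1065069240007))))) (T.h (T.h (T.h (P (nat_lit 0)) (T.h (P (nat_lit 73803227824)) (T.h (P (nat_lit 0)) (P (nat_lit 1031708200808))))) (T.h (P (nat_lit 0)) (T.h (T.h (P (nat_lit 0)) (M (nat_lit 707781693867))) (P (nat_lit 0))))) (T.h (T.h (P (nat_lit 0)) (M (nat_lit 299197327491))) (T.h (T.h (T.h (P (nat_lit 0)) (M (nat_lit 3121382083019))) (P (nat_lit 0))) (P (nat_lit 0)))))))) (T.h (P (nat_lit 0)) (T.h (T.h (T.h (P (nat_lit 0)) (T.h (T.h (P (nat_lit 20486549088)) (T.h (P (nat_lit 0)) (T.h (P (nat_lit 655998301728)) (T.h (P (nat_lit 0)) (P (nat_lit 4046347431864)))))) (T.h (P (nat_lit 0)) (T.h (T.h (P (nat_lit 3201326489160)) (T.h (P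 (nat_lit 0)) (M (nat_lit 29838364867187)))) (T.h (P (nat_lit 0)) (P (nat_lit 4114042027056))))))) (T.h (T.h (T.h (P (nat_lit 0)) (T.h (P (nat_lit 133945866360)) (T.h (P (nat_lit 0)) (T.h (M (nat_lit 1910604020759)) (T.h (P (nat_lit 0)) (M (nat_lit 18148481838179))))))) (T.h (P (nat_lit 0)) (T.h (T.h (P (nat_lit 0)) (T.h (P (nat_lit 6544602227232)) (T.h (P (nat_lit 0)) (M (nat_lit 147587513850251))))) (T.h (P (nat_lit 0)) (T.h (T.h (P (nat_lit 0)) (P (nat_lit 320549214182832))) (P (nat_lit 0))))))) (T.h (T.h (P (nat_lit 0)) (T.h (T.h (P (nat_lit 655998301728)) (T.h (P (nat_lit 0)) (M (nat_lit 24847284215807)))) (T.h (P (nat_lit 0)) (M (nat_lit 29838364867187))))) (T.h (T.h (T.h (P (nat_lit 0)) (T.h (M (nat_lit 1910604020759)) (T.h (P (nat_lit 0)) (P (nat_lit 80494639964352))))) (T.h (P (nat_lit 0)) (T.h (T.h (P (nat_lit 0)) (M (nat_lit 147587513850251))) (P (nat_lit 0))))) (T.h (T.h (P (nat_lit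 0)) (P (nat_lit 4046347431864))) (T.h (T.h (T.h (P (nat_lit 0)) (M (nat_lit 18148481838179))) (P (nat_lit 0))) (P (nat_lit 0)))))))) (P (nat_lit 0))))) (T.h (T.h (P (nat_lit 0)) (T.h (T.h (T.h (T.h (P (nat_lit 0)) (T.h (M (nat_lit 18021440231)) (T.h (P (nat_lit 0)) (T.h (P (nat_lit 979715851380)) (T.h (P (nat_lit 0)) (M (nat_lit 4171530929795))))))) (T.h (P (nat_lit 0)) (T.h (T.h (P (nat_lit 0)) (T.h (P (nat_lit 471353627124)) (T.h (P (nat_lit 0)) (P (nat_lit 34156956415896))))) (T.h (P (nat_lit 0)) (T.h (T.h (P (nat_lit 0)) (P (nat_lit 2201050956924))) (P (nat_lit 0))))))) (T.h (T.h (P (nat_lit 0)) (T.h (T.h (P (nat_lit 37791571860)) (T.h (P (nat_lit 0)) (T.h (M (nat_lit 1995771262067)) (T.h (P (nat_lit 0)) (P (nat_lit 20114121753468)))))) (T.h (P (nat_lit 0)) (T.h (T.h (M (nat_lit 11627959010795)) (T.h (P (nat_lit 0)) (P (nat_lit 198681113213352)))) (T.h (P (nat_lit 0)) (P (nat_lit 22859058650400)))))))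 (T.h (T.h (T.h (P (nat_lit 0)) (T.h (P (nat_lit 308702830392)) (T.h (P (nat_lit 0)) (P (nat_lit 2719344628512))))) (T.h (P (nat_lit 0)) (T.h (T.h (P (nat_lit 0)) (P (nat_lit 31553603316612))) (P (nat_lit 0))))) (T.h (T.h (P (nat_lit 0)) (T.h (T.h (P (nat_lit 3127287067308)) (T.h (P (nat_lit 0)) (M (nat_lit 9226612344167)))) (T.h (P (nat_lit 0)) (P (nat_lit 320234011663788))))) (T.h (T.h (T.h (P (nat_lit 0)) (M (nat_lit 3717090369323))) (P (nat_lit 0))) (T.h (T.h (P (nat_lit 0)) (P (nat_lit 19439842109436))) (P (nat_lit 0)))))))) (P (nat_lit 0)))) (T.h (T.h (T.h (T.h (P (nat_lit 0)) (T.h (T.h (M (nat_lit 5065377623)) (T.h (P (nat_lit 0)) (T.h (P (nat_lit 41138570772)) (T.h (P (nat_lit 0)) (P (nat_lit 1436986193256)))))) (T.h (P (nat_lit 0)) (T.h (T.h (M (nat_lit 275395995395)) (T.h (P (nat_lit 0)) (M (nat_lit 18998054656163)))) (T.h (P (nat_lit 0)) (M (nat_lit 16219811394179))))))) (T.h (T.h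 (T.h (P (nat_lit 0)) (T.h (P (nat_lit 7208655228)) (T.h (P (nat_lit 0)) (T.h (M (nat_lit 454379901155)) (T.h (P (nat_lit 0)) (P (nat_lit 7362674093916))))))) (T.h (P (nat_lit 0)) (T.h (T.h (P (nat_lit 0)) (T.h (M (nat_lit 196402350311)) (T.h (P (nat_lit 0)) (M (nat_lit 48456067457447))))) (T.h (P (nat_lit 0)) (T.h (T.h (P (nat_lit 0)) (P (nat_lit 26243695599444))) (P (nat_lit 0))))))) (T.h (T.h (P (nat_lit 0)) (T.h (T.h (P (nat_lit 155359676448)) (T.h (P (nat_lit 0)) (P (nat_lit 3898993085568)))) (T.h (P (nat_lit 0)) (M (nat_lit 8570200417739))))) (T.h (T.h (T.h (P (nat_lit 0)) (T.h (P (nat_lit 3284486640)) (T.h (P (nat_lit 0)) (P (nat_lit 29731065308388))))) (T.h (P (nat_lit 0)) (T.h (T.h (P (nat_lit 0)) (M (nat_lit 46405720611287))) (P (nat_lit 0))))) (T.h (T.h (P (nat_lit 0)) (P (nat_lit 2857024429812))) (T.h (T.h (T.h (P (nat_lit 0)) (P (nat_lit 15144006490380))) (P (nat_lit 0))) (P (nat_lit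 0)))))))) (P (nat_lit 0))) (P (nat_lit 0)))))
def et1_9 : T ℤ := (T.h (T.h (P (nat_lit 0)) (T.h (P (nat_lit 0)) (T.h (T.h (T.h (P (nat_lit 0)) (T.h (T.h (M (nat_lit 4666954391)) (T.h (P (nat_lit 0)) (T.h (M (nat_lit 320557822011)) (T.h (P (nat_lit 0)) (M (nat_lit 4056642185511)))))) (T.h (P (nat_lit 0)) (T.h (T.h (P (nat_lit 1743888856)) (T.h (P (nat_lit 0)) (M (nat_lit 47750494794763)))) (T.h (P (nat_lit 0)) (P (nat_lit 742557077600))))))) (T.h (T.h (T.h (P (nat_lit 0)) (T.h (P (nat_lit 28635587088)) (T.h (P (nat_lit 0)) (T.h (M (nat_lit 831745655975)) (T.h (P (nat_lit 0)) (P (nat_lit 16940834763104))))))) (T.h (P (nat_lit 0)) (T.h (T.h (P (nat_lit 0)) (T.h (P (nat_lit 1954238853200)) (T.h (P (nat_lit 0)) (M (nat_lit 220464729893739))))) (T.h (P (nat_lit 0)) (T.h (T.h (P (nat_lit 0)) (P (nat_lit 24294655447352))) (P (nat_lit 0))))))) (T.h (T.h (P (nat_lit 0)) (T.h (T.h (M (nat_lit 320557822011))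 (T.h (P (nat_lit 0)) (M (nat_lit 4456143491295)))) (T.h (P (nat_lit 0)) (M (nat_lit 47750494794763))))) (T.h (T.h (T.h (P (nat_lit 0)) (T.h (M (nat_lit 831745655975)) (T.h (P (nat_lit 0)) (P (nat_lit 25566714196680))))) (T.h (P (nat_lit 0)) (T.h (T.h (P (nat_lit 0)) (M (nat_lit 220464729893739))) (P (nat_lit 0))))) (T.h (T.h (P (nat_lit 0)) (M (nat_lit 4056642185511))) (T.h (T.h (T.h (P (nat_lit 0)) (P (nat_lit 16940834763104))) (P (nat_lit 0))) (P (nat_lit 0)))))))) (T.h (P (nat_lit 0)) (T.h (T.h (T.h (P (nat_lit 0)) (T.h (T.h (P (nat_lit 21070203336)) (T.h (P (nat_lit 0)) (T.h (P (nat_lit 1788456892284)) (T.h (P (nat_lit 0)) (P (nat_lit 19236378299796)))))) (T.h (P (nat_lit 0)) (T.h (T.h (M (nat_lit 804035918663)) (T.h (P (nat_lit 0)) (P (nat_lit 113555697291360)))) (T.h (P (nat_lit 0)) (P (nat_lit 16414959667212))))))) (T.h (T.h (T.h (P (nat_lit 0)) (T.h (M (nat_lit 210650911127)) (T.h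 (P (nat_lit 0)) (T.h (P (nat_lit 9251695028304)) (T.h (P (nat_lit 0)) (P (nat_lit 207957834266076))))))) (T.h (P (nat_lit 0)) (T.h (T.h (P (nat_lit 0)) (T.h (M (nat_lit 20365485674255)) (T.h (P (nat_lit 0)) (P (nat_lit 964030394939220))))) (T.h (P (nat_lit 0)) (T.h (T.h (P (nat_lit 0)) (M (nat_lit 251322242856911))) (P (nat_lit 0))))))) (T.h (T.h (P (nat_lit 0)) (T.h (T.h (M (nat_lit 1341378414899)) (T.h (P (nat_lit 0)) (M (nat_lit 92536076838527)))) (T.h (P (nat_lit 0)) (P (nat_lit 64665871020))))) (T.h (T.h (T.h (P (nat_lit 0)) (T.h (P (nat_lit 1107028552068)) (T.h (P (nat_lit 0)) (M (nat_lit 290290782981131))))) (T.h (P (nat_lit 0)) (T.h (T.h (P (nat_lit 0)) (P (nat_lit 126431843072508))) (P (nat_lit 0))))) (T.h (T.h (P (nat_lit 0)) (M (nat_lit 6154629071471))) (T.h (T.h (T.h (P (nat_lit 0)) (P (nat_lit 68521223293884))) (P (nat_lit 0))) (P (nat_lit 0)))))))) (P (nat_lit 0))))))) (T.h (T.h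 (P (nat_lit 0)) (T.h (T.h (T.h (T.h (P (nat_lit 0)) (T.h (M (nat_lit 6396741371)) (T.h (P (nat_lit 0)) (T.h (M (nat_lit 174384795643)) (T.h (P (nat_lit 0)) (P (nat_lit 1917080548272))))))) (T.h (P (nat_lit 0)) (T.h (T.h (P (nat_lit 0)) (T.h (M (nat_lit 331628121171)) (T.h (P (nat_lit 0)) (M (nat_lit 8991927718811))))) (T.h (P (nat_lit 0)) (T.h (T.h (P (nat_lit 0)) (M (nat_lit 10054735523207))) (P (nat_lit 0))))))) (T.h (T.h (P (nat_lit 0)) (T.h (T.h (M (nat_lit 29647351647)) (T.h (P (nat_lit 0)) (T.h (P (nat_lit 4851205873492)) (T.h (P (nat_lit 0)) (M (nat_lit 84312873109539)))))) (T.h (P (nat_lit 0)) (T.h (T.h (P (nat_lit 2080713502172)) (T.h (P (nat_lit 0)) (M (nat_lit 97114553006151)))) (T.h (P (nat_lit 0)) (P (nat_lit 190413435571160))))))) (T.h (T.h (T.h (P (nat_lit 0)) (T.h (P (nat_lit 85781606708)) (T.h (P (nat_lit 0)) (M (nat_lit 1065183521967))))) (T.h (P (nat_lit 0)) (T.h (T.h (P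 (nat_lit 0)) (P (nat_lit 23542778306056))) (P (nat_lit 0))))) (T.h (T.h (P (nat_lit 0)) (T.h (T.h (M (nat_lit 10879828367)) (T.h (P (nat_lit 0)) (M (nat_lit 31106696189171)))) (T.h (P (nat_lit 0)) (M (nat_lit 191096131368247))))) (T.h (T.h (T.h (P (nat_lit 0)) (M (nat_lit 377643828871))) (P (nat_lit 0))) (T.h (T.h (P (nat_lit 0)) (M (nat_lit 13358497876483))) (P (nat_lit 0)))))))) (T.h (P (nat_lit 0)) (T.h (T.h (T.h (T.h (P (nat_lit 0)) (T.h (P (nat_lit 21070203336)) (T.h (P (nat_lit 0)) (T.h (M (nat_lit 804035918663)) (T.h (P (nat_lit 0)) (P (nat_lit 16414959667212))))))) (T.h (P (nat_lit 0)) (T.h (T.h (P (nat_lit 0)) (T.h (P (nat_lit 1788456892284)) (T.h (P (nat_lit 0)) (P (nat_lit 113555697291360))))) (T.h (P (nat_lit 0)) (T.h (T.h (P (nat_lit 0)) (P (nat_lit 19236378299796))) (P (nat_lit 0))))))) (T.h (T.h (P (nat_lit 0)) (T.h (T.h (M (nat_lit 210650911127)) (T.h (P (nat_lit 0)) (T.h (M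 (nat_lit 20365485674255)) (T.h (P (nat_lit 0)) (M (nat_lit 251322242856911)))))) (T.h (P (nat_lit 0)) (T.h (T.h (P (nat_lit 9251695028304)) (T.h (P (nat_lit 0)) (P (nat_lit 964030394939220)))) (T.h (P (nat_lit 0)) (P (nat_lit 207957834266076))))))) (T.h (T.h (T.h (P (nat_lit 0)) (T.h (M (nat_lit 1341378414899)) (T.h (P (nat_lit 0)) (P (nat_lit 64665871020))))) (T.h (P (nat_lit 0)) (T.h (T.h (P (nat_lit 0)) (M (nat_lit 92536076838527))) (P (nat_lit 0))))) (T.h (T.h (P (nat_lit 0)) (T.h (T.h (P (nat_lit 1107028552068)) (T.h (P (nat_lit 0)) (P (nat_lit 126431843072508)))) (T.h (P (nat_lit 0)) (M (nat_lit 290290782981131))))) (T.h (T.h (T.h (P (nat_lit 0)) (M (nat_lit 6154629071471))) (P (nat_lit 0))) (T.h (T.h (P (nat_lit 0)) (P (nat_lit 68521223293884))) (P (nat_lit 0)))))))) (P (nat_lit 0)))))) et1_8))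
def et1_10 : T ℤ := (T.h (T.h (P (nat_lit 0)) (T.h (P (nat_lit 0)) (T.h (P (nat_lit 0)) (T.h (P (nat_lit 0)) (T.h (T.h (T.h (P (nat_lit 0)) (T.h (T.h (M (nat_lit 6396741371)) (T.h (P (nat_lit 0)) (T.h (M (nat_lit 331628121171)) (T.h (P (nat_lit 0)) (M (nat_lit 10054735523207)))))) (T.h (P (nat_lit 0)) (T.h (T.h (M (nat_lit 174384795643)) (T.h (P (nat_lit 0)) (M (nat_lit 8991927718811)))) (T.h (P (nat_lit 0)) (P (nat_lit 1917080548272))))))) (T.h (T.h (T.h (P (nat_lit 0)) (T.h (M (nat_lit 29647351647)) (T.h (P (nat_lit 0)) (T.h (P (nat_lit 2080713502172)) (T.h (P (nat_lit 0)) (P (nat_lit 190413435571160))))))) (T.h (P (nat_lit 0)) (T.h (T.h (P (nat_lit 0)) (T.h (P (nat_lit 4851205873492)) (T.h (P (nat_lit 0)) (M (nat_lit 97114553006151))))) (T.h (P (nat_lit 0)) (T.h (T.h (P (nat_lit 0)) (M (nat_lit 84312873109539))) (P (nat_lit 0))))))) (T.h (T.h (P (nat_lit 0)) (T.h (T.h (P (nat_lit 85781606708))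 (T.h (P (nat_lit 0)) (P (nat_lit 23542778306056)))) (T.h (P (nat_lit 0)) (M (nat_lit 1065183521967))))) (T.h (T.h (T.h (P (nat_lit 0)) (T.h (M (nat_lit 10879828367)) (T.h (P (nat_lit 0)) (M (nat_lit 191096131368247))))) (T.h (P (nat_lit 0)) (T.h (T.h (P (nat_lit 0)) (M (nat_lit 31106696189171))) (P (nat_lit 0))))) (T.h (T.h (P (nat_lit 0)) (M (nat_lit 377643828871))) (T.h (T.h (T.h (P (nat_lit 0)) (M (nat_lit 13358497876483))) (P (nat_lit 0))) (P (nat_lit 0)))))))) (T.h (P (nat_lit 0)) (T.h (T.h (T.h (P (nat_lit 0)) (T.h (T.h (M (nat_lit 18021440231)) (T.h (P (nat_lit 0)) (T.h (P (nat_lit 471353627124)) (T.h (P (nat_lit 0)) (P (nat_lit 2201050956924)))))) (T.h (P (nat_lit 0)) (T.h (T.h (P (nat_lit 979715851380)) (T.h (P (nat_lit 0)) (P (nat_lit 34156956415896)))) (T.h (P (nat_lit 0)) (M (nat_lit 4171530929795))))))) (T.h (T.h (T.h (P (nat_lit 0)) (T.h (P (nat_lit 37791571860)) (T.h (P (nat_lit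 0)) (T.h (M (nat_lit 11627959010795)) (T.h (P (nat_lit 0)) (P (nat_lit 22859058650400))))))) (T.h (P (nat_lit 0)) (T.h (T.h (P (nat_lit 0)) (T.h (M (nat_lit 1995771262067)) (T.h (P (nat_lit 0)) (P (nat_lit 198681113213352))))) (T.h (P (nat_lit 0)) (T.h (T.h (P (nat_lit 0)) (P (nat_lit 20114121753468))) (P (nat_lit 0))))))) (T.h (T.h (P (nat_lit 0)) (T.h (T.h (P (nat_lit 308702830392)) (T.h (P (nat_lit 0)) (P (nat_lit 31553603316612)))) (T.h (P (nat_lit 0)) (P (nat_lit 2719344628512))))) (T.h (T.h (T.h (P (nat_lit 0)) (T.h (P (nat_lit 3127287067308)) (T.h (P (nat_lit 0)) (P (nat_lit 320234011663788))))) (T.h (P (nat_lit 0)) (T.h (T.h (P (nat_lit 0)) (M (nat_lit 9226612344167))) (P (nat_lit 0))))) (T.h (T.h (P (nat_lit 0)) (M (nat_lit 3717090369323))) (T.h (T.h (T.h (P (nat_lit 0)) (P (nat_lit 19439842109436))) (P (nat_lit 0))) (P (nat_lit 0)))))))) (P (nat_lit 0))))))))) (T.h (T.h (P (nat_lit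 0)) (T.h (P (nat_lit 0)) (T.h (P (nat_lit 0)) (T.h (T.h (T.h (T.h (P (nat_lit 0)) (T.h (M (nat_lit 4666954391)) (T.h (P (nat_lit 0)) (T.h (P (nat_lit 1743888856)) (T.h (P (nat_lit 0)) (P (nat_lit 742557077600))))))) (T.h (P (nat_lit 0)) (T.h (T.h (P (nat_lit 0)) (T.h (M (nat_lit 320557822011)) (T.h (P (nat_lit 0)) (M (nat_lit 47750494794763))))) (T.h (P (nat_lit 0)) (T.h (T.h (P (nat_lit 0)) (M (nat_lit 4056642185511))) (P (nat_lit 0))))))) (T.h (T.h (P (nat_lit 0)) (T.h (T.h (P (nat_lit 28635587088)) (T.h (P (nat_lit 0)) (T.h (P (nat_lit 1954238853200)) (T.h (P (nat_lit 0)) (P (nat_lit 24294655447352)))))) (T.h (P (nat_lit 0)) (T.h (T.h (M (nat_lit 831745655975)) (T.h (P (nat_lit 0)) (M (nat_lit 220464729893739)))) (T.h (P (nat_lit 0)) (P (nat_lit 16940834763104))))))) (T.h (T.h (T.h (P (nat_lit 0)) (T.h (M (nat_lit 320557822011)) (T.h (P (nat_lit 0)) (M (nat_lit 47750494794763))))) (T.h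 (P (nat_lit 0)) (T.h (T.h (P (nat_lit 0)) (M (nat_lit 4456143491295))) (P (nat_lit 0))))) (T.h (T.h (P (nat_lit 0)) (T.h (T.h (M (nat_lit 831745655975)) (T.h (P (nat_lit 0)) (M (nat_lit 220464729893739)))) (T.h (P (nat_lit 0)) (P (nat_lit 25566714196680))))) (T.h (T.h (T.h (P (nat_lit 0)) (M (nat_lit 4056642185511))) (P (nat_lit 0))) (T.h (T.h (P (nat_lit 0)) (P (nat_lit 16940834763104))) (P (nat_lit 0)))))))) (T.h (P (nat_lit 0)) (T.h (T.h (T.h (T.h (P (nat_lit 0)) (T.h (P (nat_lit 20486549088)) (T.h (P (nat_lit 0)) (T.h (P (nat_lit 3201326489160)) (T.h (P (nat_lit 0)) (P (nat_lit 4114042027056))))))) (T.h (P (nat_lit 0)) (T.h (T.h (P (nat_lit 0)) (T.h (P (nat_lit 655998301728)) (T.h (P (nat_lit 0)) (M (nat_lit 29838364867187))))) (T.h (P (nat_lit 0)) (T.h (T.h (P (nat_lit 0)) (P (nat_lit 4046347431864))) (P (nat_lit 0))))))) (T.h (T.h (P (nat_lit 0)) (T.h (T.h (P (nat_lit 133945866360))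 (T.h (P (nat_lit 0)) (T.h (P (nat_lit 6544602227232)) (T.h (P (nat_lit 0)) (P (nat_lit 320549214182832)))))) (T.h (P (nat_lit 0)) (T.h (T.h (M (nat_lit 1910604020759)) (T.h (P (nat_lit 0)) (M (nat_lit 147587513850251)))) (T.h (P (nat_lit 0)) (M (nat_lit 18148481838179))))))) (T.h (T.h (T.h (P (nat_lit 0)) (T.h (P (nat_lit 655998301728)) (T.h (P (nat_lit 0)) (M (nat_lit 29838364867187))))) (T.h (P (nat_lit 0)) (T.h (T.h (P (nat_lit 0)) (M (nat_lit 24847284215807))) (P (nat_lit 0))))) (T.h (T.h (P (nat_lit 0)) (T.h (T.h (M (nat_lit 1910604020759)) (T.h (P (nat_lit 0)) (M (nat_lit 147587513850251)))) (T.h (P (nat_lit 0)) (P (nat_lit 80494639964352))))) (T.h (T.h (T.h (P (nat_lit 0)) (P (nat_lit 4046347431864))) (P (nat_lit 0))) (T.h (T.h (P (nat_lit 0)) (M (nat_lit 18148481838179))) (P (nat_lit 0)))))))) (P (nat_lit 0)))))))) et1_9))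
def et1_11 : T ℤ := (T.h (T.h (T.h (T.h (P (nat_lit 0)) (T.h (T.h (P (nat_lit 0)) (T.h (P (nat_lit 19643680872)) (T.h (P (nat_lit 0)) (T.h (M (nat_lit 342785750795)) (T.h (P (nat_lit 0)) (M (nat_lit 8489352848291))))))) (T.h (P (nat_lit 0)) (T.h (T.h (P (nat_lit 0)) (T.h (M (nat_lit 431161122599)) (T.h (P (nat_lit 0)) (M (nat_lit 28274287932063))))) (T.h (P (nat_lit 0)) (T.h (T.h (P (nat_lit 0)) (M (nat_lit 12614204027975))) (P (nat_lit 0)))))))) (T.h (T.h (T.h (M (nat_lit 4190400927)) (T.h (P (nat_lit 0)) (T.h (P (nat_lit 49707721768)) (T.h (P (nat_lit 0)) (M (nat_lit 88552039683)))))) (T.h (P (nat_lit 0)) (T.h (T.h (P (nat_lit 45588982648)) (T.h (P (nat_lit 0)) (P (nat_lit 8753185748148)))) (T.h (P (nat_lit 0)) (M (nat_lit 7657985781195)))))) (T.h (T.h (P (nat_lit 0)) (T.h (T.h (P (nat_lit 0)) (T.h (P (nat_lit 1223294689116)) (T.h (P (nat_lit 0)) (M (nat_lit 8856716559715))))) (T.h (P (nat_lit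 0)) (T.h (T.h (P (nat_lit 0)) (M (nat_lit 15315691732551))) (P (nat_lit 0)))))) (T.h (T.h (T.h (P (nat_lit 2245046732)) (T.h (P (nat_lit 0)) (M (nat_lit 1207344138511)))) (T.h (P (nat_lit 0)) (P (nat_lit 128582149096)))) (T.h (T.h (P (nat_lit 0)) (T.h (T.h (P (nat_lit 0)) (P (nat_lit 10451887234888))) (P (nat_lit 0)))) (P (nat_lit 1105319544940))))))) (T.h (P (nat_lit 0)) (T.h (T.h (T.h (P (nat_lit 0)) (T.h (T.h (P (nat_lit 0)) (T.h (M (nat_lit 210650911127)) (T.h (P (nat_lit 0)) (T.h (P (nat_lit 1107028552068)) (T.h (P (nat_lit 0)) (P (nat_lit 68521223293884))))))) (T.h (P (nat_lit 0)) (T.h (T.h (P (nat_lit 0)) (T.h (P (nat_lit 9251695028304)) (T.h (P (nat_lit 0)) (M (nat_lit 290290782981131))))) (T.h (P (nat_lit 0)) (T.h (T.h (P (nat_lit 0)) (P (nat_lit 207957834266076))) (P (nat_lit 0)))))))) (T.h (T.h (T.h (P (nat_lit 21070203336)) (T.h (P (nat_lit 0)) (T.h (M (nat_lit 1341378414899))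 (T.h (P (nat_lit 0)) (M (nat_lit 6154629071471)))))) (T.h (P (nat_lit 0)) (T.h (T.h (P (nat_lit 1788456892284)) (T.h (P (nat_lit 0)) (M (nat_lit 92536076838527)))) (T.h (P (nat_lit 0)) (P (nat_lit 19236378299796)))))) (T.h (T.h (P (nat_lit 0)) (T.h (T.h (P (nat_lit 0)) (T.h (M (nat_lit 20365485674255)) (T.h (P (nat_lit 0)) (P (nat_lit 126431843072508))))) (T.h (P (nat_lit 0)) (T.h (T.h (P (nat_lit 0)) (P (nat_lit 964030394939220))) (P (nat_lit 0)))))) (T.h (T.h (T.h (M (nat_lit 804035918663)) (T.h (P (nat_lit 0)) (P (nat_lit 64665871020)))) (T.h (P (nat_lit 0)) (P (nat_lit 113555697291360)))) (T.h (T.h (P (nat_lit 0)) (T.h (T.h (P (nat_lit 0)) (M (nat_lit 251322242856911))) (P (nat_lit 0)))) (P (nat_lit 16414959667212))))))) (P (nat_lit 0))))) (T.h (T.h (P (nat_lit 0)) (T.h (T.h (T.h (T.h (P (nat_lit 1586732076)) (T.h (P (nat_lit 0)) (T.h (P (nat_lit 31168490040)) (T.h (P (nat_lit 0)) (T.h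 (M (nat_lit 143423312291)) (T.h (P (nat_lit 0)) (M (nat_lit 8996606343215)))))))) (T.h (P (nat_lit 0)) (T.h (T.h (M (nat_lit 141552175427)) (T.h (P (nat_lit 0)) (T.h (P (nat_lit 7131470574780)) (T.h (P (nat_lit 0)) (P (nat_lit 262647202194792)))))) (T.h (P (nat_lit 0)) (T.h (T.h (M (nat_lit 335002032323)) (T.h (P (nat_lit 0)) (M (nat_lit 5403915339875)))) (T.h (P (nat_lit 0)) (P (nat_lit 81484927679448)))))))) (T.h (T.h (P (nat_lit 0)) (T.h (T.h (P (nat_lit 0)) (T.h (P (nat_lit 1661001726960)) (T.h (P (nat_lit 0)) (M (nat_lit 18926025776207))))) (T.h (P (nat_lit 0)) (T.h (T.h (P (nat_lit 0)) (P (nat_lit 64962142375536))) (P (nat_lit 0)))))) (T.h (T.h (T.h (P (nat_lit 122888046240)) (T.h (P (nat_lit 0)) (T.h (M (nat_lit 2766066438743)) (T.h (P (nat_lit 0)) (M (nat_lit 78577891136027)))))) (T.h (P (nat_lit 0)) (T.h (T.h (P (nat_lit 1602629801028)) (T.h (P (nat_lit 0)) (M (nat_lit 374248682893907))))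 (T.h (P (nat_lit 0)) (M (nat_lit 147762217911887)))))) (T.h (T.h (P (nat_lit 0)) (T.h (T.h (P (nat_lit 0)) (M (nat_lit 3587379021863))) (P (nat_lit 0)))) (T.h (T.h (T.h (M (nat_lit 2486146493627)) (T.h (P (nat_lit 0)) (M (nat_lit 2888013818051)))) (T.h (P (nat_lit 0)) (M (nat_lit 921715754136155)))) (T.h (P (nat_lit 0)) (P (nat_lit 99533579795640)))))))) (P (nat_lit 0)))) (T.h (T.h (T.h (T.h (P (nat_lit 0)) (T.h (T.h (P (nat_lit 0)) (T.h (M (nat_lit 67155314579)) (T.h (P (nat_lit 0)) (T.h (P (nat_lit 270409870260)) (T.h (P (nat_lit 0)) (P (nat_lit 5815949185260))))))) (T.h (P (nat_lit 0)) (T.h (T.h (P (nat_lit 0)) (T.h (M (nat_lit 1346926338755)) (T.h (P (nat_lit 0)) (P (nat_lit 97497071996688))))) (T.h (P (nat_lit 0)) (T.h (T.h (P (nat_lit 0)) (M (nat_lit 51969569751071))) (P (nat_lit 0)))))))) (T.h (T.h (T.h (P (nat_lit 7346784384)) (T.h (P (nat_lit 0)) (T.h (M (nat_lit 61015054895)) (T.h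 (P (nat_lit 0)) (M (nat_lit 560023399295)))))) (T.h (P (nat_lit 0)) (T.h (T.h (M (nat_lit 338118514775)) (T.h (P (nat_lit 0)) (P (nat_lit 23437863271440)))) (T.h (P (nat_lit 0)) (P (nat_lit 57759739110036)))))) (T.h (T.h (P (nat_lit 0)) (T.h (T.h (P (nat_lit 0)) (T.h (M (nat_lit 207480710771)) (T.h (P (nat_lit 0)) (P (nat_lit 72945435699468))))) (T.h (P (nat_lit 0)) (T.h (T.h (P (nat_lit 0)) (M (nat_lit 182138066500859))) (P (nat_lit 0)))))) (T.h (T.h (T.h (P (nat_lit 96285958128)) (T.h (P (nat_lit 0)) (M (nat_lit 127920262787)))) (T.h (P (nat_lit 0)) (P (nat_lit 17994569658840)))) (T.h (T.h (P (nat_lit 0)) (T.h (T.h (P (nat_lit 0)) (P (nat_lit 75989420119440))) (P (nat_lit 0)))) (M (nat_lit 4026292241615))))))) (P (nat_lit 0))) (P (nat_lit 0)))))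
def et1_12 : T ℤ := (T.h (T.h (P (nat_lit 0)) (T.h (P (nat_lit 0)) (T.h (T.h (T.h (P (nat_lit 0)) (T.h (T.h (P (nat_lit 0)) (T.h (P (nat_lit 28635587088)) (T.h (P (nat_lit 0)) (T.h (M (nat_lit 831745655975)) (T.h (P (nat_lit 0)) (P (nat_lit 16940834763104))))))) (T.h (P (nat_lit 0)) (T.h (T.h (P (nat_lit 0)) (T.h (M (nat_lit 831745655975)) (T.h (P (nat_lit 0)) (P (nat_lit 25566714196680))))) (T.h (P (nat_lit 0)) (T.h (T.h (P (nat_lit 0)) (P (nat_lit 16940834763104))) (P (nat_lit 0)))))))) (T.h (T.h (T.h (M (nat_lit 4666954391)) (T.h (P (nat_lit 0)) (T.h (M (nat_lit 320557822011)) (T.h (P (nat_lit 0)) (M (nat_lit 4056642185511)))))) (T.h (P (nat_lit 0)) (T.h (T.h (M (nat_lit 320557822011)) (T.h (P (nat_lit 0)) (M (nat_lit 4456143491295)))) (T.h (P (nat_lit 0)) (M (nat_lit 4056642185511)))))) (T.h (T.h (P (nat_lit 0)) (T.h (T.h (P (nat_lit 0)) (T.h (P (nat_lit 1954238853200)) (T.h (P (nat_lit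 0)) (M (nat_lit 220464729893739))))) (T.h (P (nat_lit 0)) (T.h (T.h (P (nat_lit 0)) (M (nat_lit 220464729893739))) (P (nat_lit 0)))))) (T.h (T.h (T.h (P (nat_lit 1743888856)) (T.h (P (nat_lit 0)) (M (nat_lit 47750494794763)))) (T.h (P (nat_lit 0)) (M (nat_lit 47750494794763)))) (T.h (T.h (P (nat_lit 0)) (T.h (T.h (P (nat_lit 0)) (P (nat_lit 24294655447352))) (P (nat_lit 0)))) (P (nat_lit 742557077600))))))) (T.h (P (nat_lit 0)) (T.h (T.h (T.h (P (nat_lit 0)) (T.h (T.h (P (nat_lit 0)) (T.h (M (nat_lit 210650911127)) (T.h (P (nat_lit 0)) (T.h (P (nat_lit 9251695028304)) (T.h (P (nat_lit 0)) (P (nat_lit 207957834266076))))))) (T.h (P (nat_lit 0)) (T.h (T.h (P (nat_lit 0)) (T.h (P (nat_lit 1107028552068)) (T.h (P (nat_lit 0)) (M (nat_lit 290290782981131))))) (T.h (P (nat_lit 0)) (T.h (T.h (P (nat_lit 0)) (P (nat_lit 68521223293884))) (P (nat_lit 0)))))))) (T.h (T.h (T.h (P (nat_lit 21070203336))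 (T.h (P (nat_lit 0)) (T.h (P (nat_lit 1788456892284)) (T.h (P (nat_lit 0)) (P (nat_lit 19236378299796)))))) (T.h (P (nat_lit 0)) (T.h (T.h (M (nat_lit 1341378414899)) (T.h (P (nat_lit 0)) (M (nat_lit 92536076838527)))) (T.h (P (nat_lit 0)) (M (nat_lit 6154629071471)))))) (T.h (T.h (P (nat_lit 0)) (T.h (T.h (P (nat_lit 0)) (T.h (M (nat_lit 20365485674255)) (T.h (P (nat_lit 0)) (P (nat_lit 964030394939220))))) (T.h (P (nat_lit 0)) (T.h (T.h (P (nat_lit 0)) (P (nat_lit 126431843072508))) (P (nat_lit 0)))))) (T.h (T.h (T.h (M (nat_lit 804035918663)) (T.h (P (nat_lit 0)) (P (nat_lit 113555697291360)))) (T.h (P (nat_lit 0)) (P (nat_lit 64665871020)))) (T.h (T.h (P (nat_lit 0)) (T.h (T.h (P (nat_lit 0)) (M (nat_lit 251322242856911))) (P (nat_lit 0)))) (P (nat_lit 16414959667212))))))) (P (nat_lit 0))))))) (T.h (T.h (P (nat_lit 0)) (T.h (T.h (T.h (T.h (M (nat_lit 423932111)) (T.h (P (nat_lit 0)) (T.h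 (M (nat_lit 36104749663)) (T.h (P (nat_lit 0)) (T.h (P (nat_lit 359150202432)) (T.h (P (nat_lit 0)) (M (nat_lit 5166924887967)))))))) (T.h (P (nat_lit 0)) (T.h (T.h (M (nat_lit 29726566583)) (T.h (P (nat_lit 0)) (T.h (M (nat_lit 2419101748775)) (T.h (P (nat_lit 0)) (M (nat_lit 14274761453239)))))) (T.h (P (nat_lit 0)) (T.h (T.h (P (nat_lit 268521230920)) (T.h (P (nat_lit 0)) (P (nat_lit 10541060307472)))) (T.h (P (nat_lit 0)) (M (nat_lit 12591969070359)))))))) (T.h (T.h (P (nat_lit 0)) (T.h (T.h (P (nat_lit 0)) (T.h (M (nat_lit 1340834800351)) (T.h (P (nat_lit 0)) (P (nat_lit 4280490756592))))) (T.h (P (nat_lit 0)) (T.h (T.h (P (nat_lit 0)) (P (nat_lit 23905554666216))) (P (nat_lit 0)))))) (T.h (T.h (T.h (M (nat_lit 29726566583)) (T.h (P (nat_lit 0)) (T.h (M (nat_lit 2419101748775)) (T.h (P (nat_lit 0)) (M (nat_lit 14274761453239)))))) (T.h (P (nat_lit 0)) (T.h (T.h (M (nat_lit 2884552258719))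 (T.h (P (nat_lit 0)) (P (nat_lit 216563078211696)))) (T.h (P (nat_lit 0)) (P (nat_lit 300073004662544)))))) (T.h (T.h (P (nat_lit 0)) (T.h (T.h (P (nat_lit 0)) (P (nat_lit 23905554666216))) (P (nat_lit 0)))) (T.h (T.h (T.h (P (nat_lit 268521230920)) (T.h (P (nat_lit 0)) (P (nat_lit 10541060307472)))) (T.h (P (nat_lit 0)) (P (nat_lit 300073004662544)))) (T.h (P (nat_lit 0)) (M (nat_lit 12591969070359)))))))) (T.h (P (nat_lit 0)) (T.h (T.h (T.h (T.h (M (nat_lit 1907694503)) (T.h (P (nat_lit 0)) (T.h (M (nat_lit 224188253927)) (T.h (P (nat_lit 0)) (T.h (P (nat_lit 1289786966424)) (T.h (P (nat_lit 0)) (M (nat_lit 177260706555479)))))))) (T.h (P (nat_lit 0)) (T.h (T.h (M (nat_lit 224188253927)) (T.h (P (nat_lit 0)) (T.h (M (nat_lit 2357754138359)) (T.h (P (nat_lit 0)) (P (nat_lit 24391073668068)))))) (T.h (P (nat_lit 0)) (T.h (T.h (P (nat_lit 1289786966424)) (T.h (P (nat_lit 0)) (P (nat_lit 24391073668068))))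 (T.h (P (nat_lit 0)) (M (nat_lit 177260706555479)))))))) (T.h (T.h (P (nat_lit 0)) (T.h (T.h (P (nat_lit 0)) (T.h (M (nat_lit 6033756653711)) (T.h (P (nat_lit 0)) (M (nat_lit 279731889856655))))) (T.h (P (nat_lit 0)) (T.h (T.h (P (nat_lit 0)) (M (nat_lit 279731889856655))) (P (nat_lit 0)))))) (T.h (T.h (T.h (M (nat_lit 224188253927)) (T.h (P (nat_lit 0)) (T.h (M (nat_lit 2357754138359)) (T.h (P (nat_lit 0)) (P (nat_lit 24391073668068)))))) (T.h (P (nat_lit 0)) (T.h (T.h (M (nat_lit 2357754138359)) (T.h (P (nat_lit 0)) (P (nat_lit 974533864832280)))) (T.h (P (nat_lit 0)) (P (nat_lit 24391073668068)))))) (T.h (T.h (P (nat_lit 0)) (T.h (T.h (P (nat_lit 0)) (M (nat_lit 279731889856655))) (P (nat_lit 0)))) (T.h (T.h (T.h (P (nat_lit 1289786966424)) (T.h (P (nat_lit 0)) (P (nat_lit 24391073668068)))) (T.h (P (nat_lit 0)) (P (nat_lit 24391073668068)))) (T.h (P (nat_lit 0)) (M (nat_lit 177260706555479))))))))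 (P (nat_lit 0)))))) et1_11))
def et1_13 : T ℤ := (T.h (T.h (P (nat_lit 0)) (T.h (P (nat_lit 0)) (T.h (P (nat_lit 0)) (T.h (P (nat_lit 0)) (T.h (T.h (T.h (P (nat_lit 0)) (T.h (T.h (P (nat_lit 0)) (T.h (P (nat_lit 19643680872)) (T.h (P (nat_lit 0)) (T.h (M (nat_lit 431161122599)) (T.h (P (nat_lit 0)) (M (nat_lit 12614204027975))))))) (T.h (P (nat_lit 0)) (T.h (T.h (P (nat_lit 0)) (T.h (M (nat_lit 342785750795)) (T.h (P (nat_lit 0)) (M (nat_lit 28274287932063))))) (T.h (P (nat_lit 0)) (T.h (T.h (P (nat_lit 0)) (M (nat_lit 8489352848291))) (P (nat_lit 0)))))))) (T.h (T.h (T.h (M (nat_lit 4190400927)) (T.h (P (nat_lit 0)) (T.h (P (nat_lit 45588982648)) (T.h (P (nat_lit 0)) (M (nat_lit 7657985781195)))))) (T.h (P (nat_lit 0)) (T.h (T.h (P (nat_lit 49707721768)) (T.h (P (nat_lit 0)) (P (nat_lit 8753185748148)))) (T.h (P (nat_lit 0)) (M (nat_lit 88552039683)))))) (T.h (T.h (P (nat_lit 0)) (T.h (T.h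 (P (nat_lit 0)) (T.h (P (nat_lit 1223294689116)) (T.h (P (nat_lit 0)) (M (nat_lit 15315691732551))))) (T.h (P (nat_lit 0)) (T.h (T.h (P (nat_lit 0)) (M (nat_lit 8856716559715))) (P (nat_lit 0)))))) (T.h (T.h (T.h (P (nat_lit 2245046732)) (T.h (P (nat_lit 0)) (P (nat_lit 128582149096)))) (T.h (P (nat_lit 0)) (M (nat_lit 1207344138511)))) (T.h (T.h (P (nat_lit 0)) (T.h (T.h (P (nat_lit 0)) (P (nat_lit 10451887234888))) (P (nat_lit 0)))) (P (nat_lit 1105319544940))))))) (T.h (P (nat_lit 0)) (T.h (T.h (T.h (P (nat_lit 0)) (T.h (T.h (P (nat_lit 0)) (T.h (M (nat_lit 67155314579)) (T.h (P (nat_lit 0)) (T.h (M (nat_lit 1346926338755)) (T.h (P (nat_lit 0)) (M (nat_lit 51969569751071))))))) (T.h (P (nat_lit 0)) (T.h (T.h (P (nat_lit 0)) (T.h (P (nat_lit 270409870260)) (T.h (P (nat_lit 0)) (P (nat_lit 97497071996688))))) (T.h (P (nat_lit 0)) (T.h (T.h (P (nat_lit 0)) (P (nat_lit 5815949185260))) (P (nat_lit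 0)))))))) (T.h (T.h (T.h (P (nat_lit 7346784384)) (T.h (P (nat_lit 0)) (T.h (M (nat_lit 338118514775)) (T.h (P (nat_lit 0)) (P (nat_lit 57759739110036)))))) (T.h (P (nat_lit 0)) (T.h (T.h (M (nat_lit 61015054895)) (T.h (P (nat_lit 0)) (P (nat_lit 23437863271440)))) (T.h (P (nat_lit 0)) (M (nat_lit 560023399295)))))) (T.h (T.h (P (nat_lit 0)) (T.h (T.h (P (nat_lit 0)) (T.h (M (nat_lit 207480710771)) (T.h (P (nat_lit 0)) (M (nat_lit 182138066500859))))) (T.h (P (nat_lit 0)) (T.h (T.h (P (nat_lit 0)) (P (nat_lit 72945435699468))) (P (nat_lit 0)))))) (T.h (T.h (T.h (P (nat_lit 96285958128)) (T.h (P (nat_lit 0)) (P (nat_lit 17994569658840)))) (T.h (P (nat_lit 0)) (M (nat_lit 127920262787)))) (T.h (T.h (P (nat_lit 0)) (T.h (T.h (P (nat_lit 0)) (P (nat_lit 75989420119440))) (P (nat_lit 0)))) (M (nat_lit 4026292241615))))))) (P (nat_lit 0))))))))) (T.h (T.h (P (nat_lit 0)) (T.h (P (nat_lit 0)) (T.h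 (P (nat_lit 0)) (T.h (T.h (T.h (T.h (M (nat_lit 423932111)) (T.h (P (nat_lit 0)) (T.h (M (nat_lit 29726566583)) (T.h (P (nat_lit 0)) (T.h (P (nat_lit 268521230920)) (T.h (P (nat_lit 0)) (M (nat_lit 12591969070359)))))))) (T.h (P (nat_lit 0)) (T.h (T.h (M (nat_lit 36104749663)) (T.h (P (nat_lit 0)) (T.h (M (nat_lit 2419101748775)) (T.h (P (nat_lit 0)) (P (nat_lit 10541060307472)))))) (T.h (P (nat_lit 0)) (T.h (T.h (P (nat_lit 359150202432)) (T.h (P (nat_lit 0)) (M (nat_lit 14274761453239)))) (T.h (P (nat_lit 0)) (M (nat_lit 5166924887967)))))))) (T.h (T.h (P (nat_lit 0)) (T.h (T.h (P (nat_lit 0)) (T.h (M (nat_lit 1340834800351)) (T.h (P (nat_lit 0)) (P (nat_lit 23905554666216))))) (T.h (P (nat_lit 0)) (T.h (T.h (P (nat_lit 0)) (P (nat_lit 4280490756592))) (P (nat_lit 0)))))) (T.h (T.h (T.h (M (nat_lit 29726566583)) (T.h (P (nat_lit 0)) (T.h (M (nat_lit 2884552258719)) (T.h (P (nat_lit 0)) (P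 (nat_lit 300073004662544)))))) (T.h (P (nat_lit 0)) (T.h (T.h (M (nat_lit 2419101748775)) (T.h (P (nat_lit 0)) (P (nat_lit 216563078211696)))) (T.h (P (nat_lit 0)) (M (nat_lit 14274761453239)))))) (T.h (T.h (P (nat_lit 0)) (T.h (T.h (P (nat_lit 0)) (P (nat_lit 23905554666216))) (P (nat_lit 0)))) (T.h (T.h (T.h (P (nat_lit 268521230920)) (T.h (P (nat_lit 0)) (P (nat_lit 300073004662544)))) (T.h (P (nat_lit 0)) (P (nat_lit 10541060307472)))) (T.h (P (nat_lit 0)) (M (nat_lit 12591969070359)))))))) (T.h (P (nat_lit 0)) (T.h (T.h (T.h (T.h (P (nat_lit 1586732076)) (T.h (P (nat_lit 0)) (T.h (M (nat_lit 141552175427)) (T.h (P (nat_lit 0)) (T.h (M (nat_lit 335002032323)) (T.h (P (nat_lit 0)) (P (nat_lit 81484927679448)))))))) (T.h (P (nat_lit 0)) (T.h (T.h (P (nat_lit 31168490040)) (T.h (P (nat_lit 0)) (T.h (P (nat_lit 7131470574780)) (T.h (P (nat_lit 0)) (M (nat_lit 5403915339875)))))) (T.h (P (nat_lit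 0)) (T.h (T.h (M (nat_lit 143423312291)) (T.h (P (nat_lit 0)) (P (nat_lit 262647202194792)))) (T.h (P (nat_lit 0)) (M (nat_lit 8996606343215)))))))) (T.h (T.h (P (nat_lit 0)) (T.h (T.h (P (nat_lit 0)) (T.h (P (nat_lit 1661001726960)) (T.h (P (nat_lit 0)) (P (nat_lit 64962142375536))))) (T.h (P (nat_lit 0)) (T.h (T.h (P (nat_lit 0)) (M (nat_lit 18926025776207))) (P (nat_lit 0)))))) (T.h (T.h (T.h (P (nat_lit 122888046240)) (T.h (P (nat_lit 0)) (T.h (P (nat_lit 1602629801028)) (T.h (P (nat_lit 0)) (M (nat_lit 147762217911887)))))) (T.h (P (nat_lit 0)) (T.h (T.h (M (nat_lit 2766066438743)) (T.h (P (nat_lit 0)) (M (nat_lit 374248682893907)))) (T.h (P (nat_lit 0)) (M (nat_lit 78577891136027)))))) (T.h (T.h (P (nat_lit 0)) (T.h (T.h (P (nat_lit 0)) (M (nat_lit 3587379021863))) (P (nat_lit 0)))) (T.h (T.h (T.h (M (nat_lit 2486146493627)) (T.h (P (nat_lit 0)) (M (nat_lit 921715754136155)))) (T.h (P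 (nat_lit 0)) (M (nat_lit 2888013818051)))) (T.h (P (nat_lit 0)) (P (nat_lit 99533579795640)))))))) (P (nat_lit 0)))))))) et1_12))
def et1_14 : T ℤ := (T.h (T.h (T.h (T.h (P (nat_lit 0)) (T.h (T.h (M (nat_lit 4190400927)) (T.h (P (nat_lit 0)) (T.h (P (nat_lit 49707721768)) (T.h (P (nat_lit 0)) (M (nat_lit 88552039683)))))) (T.h (P (nat_lit 0)) (T.h (T.h (P (nat_lit 2245046732)) (T.h (P (nat_lit 0)) (M (nat_lit 1207344138511)))) (T.h (P (nat_lit 0)) (P (nat_lit 1105319544940))))))) (T.h (T.h (T.h (P (nat_lit 0)) (T.h (P (nat_lit 19643680872)) (T.h (P (nat_lit 0)) (T.h (M (nat_lit 342785750795)) (T.h (P (nat_lit 0)) (M (nat_lit 8489352848291))))))) (T.h (P (nat_lit 0)) (T.h (T.h (P (nat_lit 0)) (T.h (P (nat_lit 1223294689116)) (T.h (P (nat_lit 0)) (M (nat_lit 8856716559715))))) (T.h (P (nat_lit 0)) (T.h (T.h (P (nat_lit 0)) (P (nat_lit 10451887234888))) (P (nat_lit 0))))))) (T.h (T.h (P (nat_lit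 0)) (T.h (T.h (P (nat_lit 45588982648)) (T.h (P (nat_lit 0)) (P (nat_lit 8753185748148)))) (T.h (P (nat_lit 0)) (P (nat_lit 128582149096))))) (T.h (T.h (T.h (P (nat_lit 0)) (T.h (M (nat_lit 431161122599)) (T.h (P (nat_lit 0)) (M (nat_lit 28274287932063))))) (T.h (P (nat_lit 0)) (T.h (T.h (P (nat_lit 0)) (M (nat_lit 15315691732551))) (P (nat_lit 0))))) (T.h (T.h (P (nat_lit 0)) (M (nat_lit 7657985781195))) (T.h (T.h (T.h (P (nat_lit 0)) (M (nat_lit 12614204027975))) (P (nat_lit 0))) (P (nat_lit 0)))))))) (T.h (P (nat_lit 0)) (T.h (T.h (T.h (P (nat_lit 0)) (T.h (T.h (P (nat_lit 21070203336)) (T.h (P (nat_lit 0)) (T.h (M (nat_lit 1341378414899)) (T.h (P (nat_lit 0)) (M (nat_lit 6154629071471)))))) (T.h (P (nat_lit 0)) (T.h (T.h (M (nat_lit 804035918663)) (T.h (P (nat_lit 0)) (P (nat_lit 64665871020)))) (T.h (P (nat_lit 0)) (P (nat_lit 16414959667212))))))) (T.h (T.h (T.h (P (nat_lit 0)) (T.h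 (M (nat_lit 210650911127)) (T.h (P (nat_lit 0)) (T.h (P (nat_lit 1107028552068)) (T.h (P (nat_lit 0)) (P (nat_lit 68521223293884))))))) (T.h (P (nat_lit 0)) (T.h (T.h (P (nat_lit 0)) (T.h (M (nat_lit 20365485674255)) (T.h (P (nat_lit 0)) (P (nat_lit 126431843072508))))) (T.h (P (nat_lit 0)) (T.h (T.h (P (nat_lit 0)) (M (nat_lit 251322242856911))) (P (nat_lit 0))))))) (T.h (T.h (P (nat_lit 0)) (T.h (T.h (P (nat_lit 1788456892284)) (T.h (P (nat_lit 0)) (M (nat_lit 92536076838527)))) (T.h (P (nat_lit 0)) (P (nat_lit 113555697291360))))) (T.h (T.h (T.h (P (nat_lit 0)) (T.h (P (nat_lit 9251695028304)) (T.h (P (nat_lit 0)) (M (nat_lit 290290782981131))))) (T.h (P (nat_lit 0)) (T.h (T.h (P (nat_lit 0)) (P (nat_lit 964030394939220))) (P (nat_lit 0))))) (T.h (T.h (P (nat_lit 0)) (P (nat_lit 19236378299796))) (T.h (T.h (T.h (P (nat_lit 0)) (P (nat_lit 207957834266076))) (P (nat_lit 0))) (P (nat_lit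 0)))))))) (P (nat_lit 0))))) (T.h (T.h (P (nat_lit 0)) (T.h (T.h (T.h (T.h (P (nat_lit 0)) (T.h (P (nat_lit 73296641376)) (T.h (P (nat_lit 0)) (T.h (M (nat_lit 2232330122735)) (T.h (P (nat_lit 0)) (P (nat_lit 10890034189128))))))) (T.h (P (nat_lit 0)) (T.h (T.h (P (nat_lit 0)) (T.h (M (nat_lit 960799312079)) (T.h (P (nat_lit 0)) (M (nat_lit 10084512646511))))) (T.h (P (nat_lit 0)) (T.h (T.h (P (nat_lit 0)) (M (nat_lit 13275752271263))) (P (nat_lit 0))))))) (T.h (T.h (P (nat_lit 0)) (T.h (T.h (P (nat_lit 375853693968)) (T.h (P (nat_lit 0)) (T.h (M (nat_lit 33922427808095)) (T.h (P (nat_lit 0)) (P (nat_lit 632019399498288)))))) (T.h (P (nat_lit 0)) (T.h (T.h (P (nat_lit 12849870922272)) (T.h (P (nat_lit 0)) (M (nat_lit 128533896911267)))) (T.h (P (nat_lit 0)) (M (nat_lit 202119538949243))))))) (T.h (T.h (T.h (P (nat_lit 0)) (T.h (M (nat_lit 960799312079)) (T.h (P (nat_lit 0)) (M (nat_lit 10084512646511)))))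 (T.h (P (nat_lit 0)) (T.h (T.h (P (nat_lit 0)) (M (nat_lit 210475412906039))) (P (nat_lit 0))))) (T.h (T.h (P (nat_lit 0)) (T.h (T.h (P (nat_lit 12849870922272)) (T.h (P (nat_lit 0)) (M (nat_lit 128533896911267)))) (T.h (P (nat_lit 0)) (P (nat_lit 774701687506896))))) (T.h (T.h (T.h (P (nat_lit 0)) (M (nat_lit 13275752271263))) (P (nat_lit 0))) (T.h (T.h (P (nat_lit 0)) (M (nat_lit 202119538949243))) (P (nat_lit 0)))))))) (P (nat_lit 0)))) (T.h (T.h (T.h (T.h (P (nat_lit 0)) (T.h (T.h (M (nat_lit 1944657611)) (T.h (P (nat_lit 0)) (T.h (M (nat_lit 5442984863)) (T.h (P (nat_lit 0)) (M (nat_lit 253225592171)))))) (T.h (P (nat_lit 0)) (T.h (T.h (M (nat_lit 385634981051)) (T.h (P (nat_lit 0)) (P (nat_lit 18273604149180)))) (T.h (P (nat_lit 0)) (P (nat_lit 4747841539848))))))) (T.h (T.h (T.h (P (nat_lit 0)) (T.h (P (nat_lit 53318392416)) (T.h (P (nat_lit 0)) (T.h (M (nat_lit 237065795783)) (T.h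 (P (nat_lit 0)) (M (nat_lit 6424231546871))))))) (T.h (P (nat_lit 0)) (T.h (T.h (P (nat_lit 0)) (T.h (M (nat_lit 59930939735)) (T.h (P (nat_lit 0)) (M (nat_lit 20727260798435))))) (T.h (P (nat_lit 0)) (T.h (T.h (P (nat_lit 0)) (M (nat_lit 149516638736507))) (P (nat_lit 0))))))) (T.h (T.h (P (nat_lit 0)) (T.h (T.h (M (nat_lit 69065633123)) (T.h (P (nat_lit 0)) (M (nat_lit 23453897071139)))) (T.h (P (nat_lit 0)) (P (nat_lit 3258209611152))))) (T.h (T.h (T.h (P (nat_lit 0)) (T.h (M (nat_lit 270820753451)) (T.h (P (nat_lit 0)) (M (nat_lit 110989164444299))))) (T.h (P (nat_lit 0)) (T.h (T.h (P (nat_lit 0)) (P (nat_lit 187577146580796))) (P (nat_lit 0))))) (T.h (T.h (P (nat_lit 0)) (M (nat_lit 25229009720843))) (T.h (T.h (T.h (P (nat_lit 0)) (M (nat_lit 60371348344559))) (P (nat_lit 0))) (P (nat_lit 0)))))))) (P (nat_lit 0))) (P (nat_lit 0)))))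
def et1_15 : T ℤ := (T.h (T.h (P (nat_lit 0)) (T.h (P (nat_lit 0)) (T.h (T.h (T.h (P (nat_lit 0)) (T.h (T.h (M (nat_lit 6396741371)) (T.h (P (nat_lit 0)) (T.h (P (nat_lit 85781606708)) (T.h (P (nat_lit 0)) (M (nat_lit 377643828871)))))) (T.h (P (nat_lit 0)) (T.h (T.h (M (nat_lit 174384795643)) (T.h (P (nat_lit 0)) (M (nat_lit 1065183521967)))) (T.h (P (nat_lit 0)) (P (nat_lit 1917080548272))))))) (T.h (T.h (T.h (P (nat_lit 0)) (T.h (M (nat_lit 29647351647)) (T.h (P (nat_lit 0)) (T.h (M (nat_lit 10879828367)) (T.h (P (nat_lit 0)) (M (nat_lit 13358497876483))))))) (T.h (P (nat_lit 0)) (T.h (T.h (P (nat_lit 0)) (T.h (P (nat_lit 4851205873492)) (T.h (P (nat_lit 0)) (M (nat_lit 31106696189171))))) (T.h (P (nat_lit 0)) (T.h (T.h (P (nat_lit 0)) (M (nat_lit 84312873109539))) (P (nat_lit 0))))))) (T.h (T.h (P (nat_lit 0)) (T.h (T.h (M (nat_lit 331628121171)) (T.h (P (nat_lit 0)) (P (nat_lit 23542778306056))))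 (T.h (P (nat_lit 0)) (M (nat_lit 8991927718811))))) (T.h (T.h (T.h (P (nat_lit 0)) (T.h (P (nat_lit 2080713502172)) (T.h (P (nat_lit 0)) (M (nat_lit 191096131368247))))) (T.h (P (nat_lit 0)) (T.h (T.h (P (nat_lit 0)) (M (nat_lit 97114553006151))) (P (nat_lit 0))))) (T.h (T.h (P (nat_lit 0)) (M (nat_lit 10054735523207))) (T.h (T.h (T.h (P (nat_lit 0)) (P (nat_lit 190413435571160))) (P (nat_lit 0))) (P (nat_lit 0)))))))) (T.h (P (nat_lit 0)) (T.h (T.h (T.h (P (nat_lit 0)) (T.h (T.h (P (nat_lit 73296641376)) (T.h (P (nat_lit 0)) (T.h (M (nat_lit 960799312079)) (T.h (P (nat_lit 0)) (M (nat_lit 13275752271263)))))) (T.h (P (nat_lit 0)) (T.h (T.h (M (nat_lit 2232330122735)) (T.h (P (nat_lit 0)) (M (nat_lit 10084512646511)))) (T.h (P (nat_lit 0)) (P (nat_lit 10890034189128))))))) (T.h (T.h (T.h (P (nat_lit 0)) (T.h (P (nat_lit 375853693968)) (T.h (P (nat_lit 0)) (T.h (P (nat_lit 12849870922272))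 (T.h (P (nat_lit 0)) (M (nat_lit 202119538949243))))))) (T.h (P (nat_lit 0)) (T.h (T.h (P (nat_lit 0)) (T.h (M (nat_lit 33922427808095)) (T.h (P (nat_lit 0)) (M (nat_lit 128533896911267))))) (T.h (P (nat_lit 0)) (T.h (T.h (P (nat_lit 0)) (P (nat_lit 632019399498288))) (P (nat_lit 0))))))) (T.h (T.h (P (nat_lit 0)) (T.h (T.h (M (nat_lit 960799312079)) (T.h (P (nat_lit 0)) (M (nat_lit 210475412906039)))) (T.h (P (nat_lit 0)) (M (nat_lit 10084512646511))))) (T.h (T.h (T.h (P (nat_lit 0)) (T.h (P (nat_lit 12849870922272)) (T.h (P (nat_lit 0)) (P (nat_lit 774701687506896))))) (T.h (P (nat_lit 0)) (T.h (T.h (P (nat_lit 0)) (M (nat_lit 128533896911267))) (P (nat_lit 0))))) (T.h (T.h (P (nat_lit 0)) (M (nat_lit 13275752271263))) (T.h (T.h (T.h (P (nat_lit 0)) (M (nat_lit 202119538949243))) (P (nat_lit 0))) (P (nat_lit 0)))))))) (P (nat_lit 0))))))) (T.h (T.h (P (nat_lit 0)) (T.h (T.h (T.h (T.h (P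 (nat_lit 0)) (T.h (M (nat_lit 6396741371)) (T.h (P (nat_lit 0)) (T.h (M (nat_lit 174384795643)) (T.h (P (nat_lit 0)) (P (nat_lit 1917080548272))))))) (T.h (P (nat_lit 0)) (T.h (T.h (P (nat_lit 0)) (T.h (P (nat_lit 85781606708)) (T.h (P (nat_lit 0)) (M (nat_lit 1065183521967))))) (T.h (P (nat_lit 0)) (T.h (T.h (P (nat_lit 0)) (M (nat_lit 377643828871))) (P (nat_lit 0))))))) (T.h (T.h (P (nat_lit 0)) (T.h (T.h (M (nat_lit 29647351647)) (T.h (P (nat_lit 0)) (T.h (P (nat_lit 4851205873492)) (T.h (P (nat_lit 0)) (M (nat_lit 84312873109539)))))) (T.h (P (nat_lit 0)) (T.h (T.h (M (nat_lit 10879828367)) (T.h (P (nat_lit 0)) (M (nat_lit 31106696189171)))) (T.h (P (nat_lit 0)) (M (nat_lit 13358497876483))))))) (T.h (T.h (T.h (P (nat_lit 0)) (T.h (M (nat_lit 331628121171)) (T.h (P (nat_lit 0)) (M (nat_lit 8991927718811))))) (T.h (P (nat_lit 0)) (T.h (T.h (P (nat_lit 0)) (P (nat_lit 23542778306056)))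 (P (nat_lit 0))))) (T.h (T.h (P (nat_lit 0)) (T.h (T.h (P (nat_lit 2080713502172)) (T.h (P (nat_lit 0)) (M (nat_lit 97114553006151)))) (T.h (P (nat_lit 0)) (M (nat_lit 191096131368247))))) (T.h (T.h (T.h (P (nat_lit 0)) (M (nat_lit 10054735523207))) (P (nat_lit 0))) (T.h (T.h (P (nat_lit 0)) (P (nat_lit 190413435571160))) (P (nat_lit 0)))))))) (T.h (P (nat_lit 0)) (T.h (T.h (T.h (T.h (P (nat_lit 0)) (T.h (P (nat_lit 21070203336)) (T.h (P (nat_lit 0)) (T.h (M (nat_lit 804035918663)) (T.h (P (nat_lit 0)) (P (nat_lit 16414959667212))))))) (T.h (P (nat_lit 0)) (T.h (T.h (P (nat_lit 0)) (T.h (M (nat_lit 1341378414899)) (T.h (P (nat_lit 0)) (P (nat_lit 64665871020))))) (T.h (P (nat_lit 0)) (T.h (T.h (P (nat_lit 0)) (M (nat_lit 6154629071471))) (P (nat_lit 0))))))) (T.h (T.h (P (nat_lit 0)) (T.h (T.h (M (nat_lit 210650911127)) (T.h (P (nat_lit 0)) (T.h (M (nat_lit 20365485674255)) (T.h (P (nat_lit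 0)) (M (nat_lit 251322242856911)))))) (T.h (P (nat_lit 0)) (T.h (T.h (P (nat_lit 1107028552068)) (T.h (P (nat_lit 0)) (P (nat_lit 126431843072508)))) (T.h (P (nat_lit 0)) (P (nat_lit 68521223293884))))))) (T.h (T.h (T.h (P (nat_lit 0)) (T.h (P (nat_lit 1788456892284)) (T.h (P (nat_lit 0)) (P (nat_lit 113555697291360))))) (T.h (P (nat_lit 0)) (T.h (T.h (P (nat_lit 0)) (M (nat_lit 92536076838527))) (P (nat_lit 0))))) (T.h (T.h (P (nat_lit 0)) (T.h (T.h (P (nat_lit 9251695028304)) (T.h (P (nat_lit 0)) (P (nat_lit 964030394939220)))) (T.h (P (nat_lit 0)) (M (nat_lit 290290782981131))))) (T.h (T.h (T.h (P (nat_lit 0)) (P (nat_lit 19236378299796))) (P (nat_lit 0))) (T.h (T.h (P (nat_lit 0)) (P (nat_lit 207957834266076))) (P (nat_lit 0)))))))) (P (nat_lit 0)))))) et1_14))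
def et1_16 : T ℤ := (T.h (T.h (T.h (T.h (P (nat_lit 0)) (T.h (T.h (P (nat_lit 0)) (T.h (M (nat_lit 3029248483)) (T.h (P (nat_lit 0)) (T.h (P (nat_lit 70862865896)) (T.h (P (nat_lit 0)) (P (nat_lit 3579203459304))))))) (T.h (P (nat_lit 0)) (T.h (T.h (P (nat_lit 0)) (T.h (P (nat_lit 73803227824)) (T.h (P (nat_lit 0)) (P (nat_lit 1031708200808))))) (T.h (P (nat_lit 0)) (T.h (T.h (P (nat_lit 0)) (M (nat_lit 3121382083019))) (P (nat_lit 0)))))))) (T.h (T.h (T.h (P (nat_lit 891412240)) (T.h (P (nat_lit 0)) (T.h (M (nat_lit 73017313779)) (T.h (P (nat_lit 0)) (P (nat_lit 497516710404)))))) (T.h (P (nat_lit 0)) (T.h (T.h (M (nat_lit 20130164395)) (T.h (P (nat_lit 0)) (P (nat_lit 55420225764)))) (T.h (P (nat_lit 0)) (M (nat_lit 299197327491)))))) (T.h (T.h (P (nat_lit 0)) (T.h (T.h (P (nat_lit 0)) (T.h (P (nat_lit 26127840616)) (T.h (P (nat_lit 0)) (P (nat_lit 6281220142664))))) (T.h (P (nat_lit 0))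 (T.h (T.h (P (nat_lit 0)) (M (nat_lit 707781693867))) (P (nat_lit 0)))))) (T.h (T.h (T.h (P (nat_lit 30915485352)) (T.h (P (nat_lit 0)) (P (nat_lit 5928842529912)))) (T.h (P (nat_lit 0)) (M (nat_lit 1065069240007)))) (T.h (T.h (P (nat_lit 0)) (T.h (T.h (P (nat_lit 0)) (M (nat_lit 14468509037383))) (P (nat_lit 0)))) (M (nat_lit 425449705575))))))) (T.h (P (nat_lit 0)) (T.h (T.h (T.h (P (nat_lit 0)) (T.h (T.h (P (nat_lit 0)) (T.h (P (nat_lit 133945866360)) (T.h (P (nat_lit 0)) (T.h (M (nat_lit 1910604020759)) (T.h (P (nat_lit 0)) (M (nat_lit 18148481838179))))))) (T.h (P (nat_lit 0)) (T.h (T.h (P (nat_lit 0)) (T.h (M (nat_lit 1910604020759)) (T.h (P (nat_lit 0)) (P (nat_lit 80494639964352))))) (T.h (P (nat_lit 0)) (T.h (T.h (P (nat_lit 0)) (M (nat_lit 18148481838179))) (P (nat_lit 0)))))))) (T.h (T.h (T.h (P (nat_lit 20486549088)) (T.h (P (nat_lit 0)) (T.h (P (nat_lit 655998301728)) (T.h (P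 (nat_lit 0)) (P (nat_lit 4046347431864)))))) (T.h (P (nat_lit 0)) (T.h (T.h (P (nat_lit 655998301728)) (T.h (P (nat_lit 0)) (M (nat_lit 24847284215807)))) (T.h (P (nat_lit 0)) (P (nat_lit 4046347431864)))))) (T.h (T.h (P (nat_lit 0)) (T.h (T.h (P (nat_lit 0)) (T.h (P (nat_lit 6544602227232)) (T.h (P (nat_lit 0)) (M (nat_lit 147587513850251))))) (T.h (P (nat_lit 0)) (T.h (T.h (P (nat_lit 0)) (M (nat_lit 147587513850251))) (P (nat_lit 0)))))) (T.h (T.h (T.h (P (nat_lit 3201326489160)) (T.h (P (nat_lit 0)) (M (nat_lit 29838364867187)))) (T.h (P (nat_lit 0)) (M (nat_lit 29838364867187)))) (T.h (T.h (P (nat_lit 0)) (T.h (T.h (P (nat_lit 0)) (P (nat_lit 320549214182832))) (P (nat_lit 0)))) (P (nat_lit 4114042027056))))))) (P (nat_lit 0))))) (T.h (T.h (P (nat_lit 0)) (T.h (T.h (T.h (T.h (P (nat_lit 1586732076)) (T.h (P (nat_lit 0)) (T.h (P (nat_lit 31168490040)) (T.h (P (nat_lit 0)) (T.h (M (nat_lit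 143423312291)) (T.h (P (nat_lit 0)) (M (nat_lit 8996606343215)))))))) (T.h (P (nat_lit 0)) (T.h (T.h (P (nat_lit 122888046240)) (T.h (P (nat_lit 0)) (T.h (M (nat_lit 2766066438743)) (T.h (P (nat_lit 0)) (M (nat_lit 78577891136027)))))) (T.h (P (nat_lit 0)) (T.h (T.h (M (nat_lit 2486146493627)) (T.h (P (nat_lit 0)) (M (nat_lit 2888013818051)))) (T.h (P (nat_lit 0)) (P (nat_lit 99533579795640)))))))) (T.h (T.h (P (nat_lit 0)) (T.h (T.h (P (nat_lit 0)) (T.h (P (nat_lit 1661001726960)) (T.h (P (nat_lit 0)) (M (nat_lit 18926025776207))))) (T.h (P (nat_lit 0)) (T.h (T.h (P (nat_lit 0)) (M (nat_lit 3587379021863))) (P (nat_lit 0)))))) (T.h (T.h (T.h (M (nat_lit 141552175427)) (T.h (P (nat_lit 0)) (T.h (P (nat_lit 7131470574780)) (T.h (P (nat_lit 0)) (P (nat_lit 262647202194792)))))) (T.h (P (nat_lit 0)) (T.h (T.h (P (nat_lit 1602629801028)) (T.h (P (nat_lit 0)) (M (nat_lit 374248682893907)))) (T.h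 (P (nat_lit 0)) (M (nat_lit 921715754136155)))))) (T.h (T.h (P (nat_lit 0)) (T.h (T.h (P (nat_lit 0)) (P (nat_lit 64962142375536))) (P (nat_lit 0)))) (T.h (T.h (T.h (M (nat_lit 335002032323)) (T.h (P (nat_lit 0)) (M (nat_lit 5403915339875)))) (T.h (P (nat_lit 0)) (M (nat_lit 147762217911887)))) (T.h (P (nat_lit 0)) (P (nat_lit 81484927679448)))))))) (P (nat_lit 0)))) (T.h (T.h (T.h (T.h (P (nat_lit 0)) (T.h (T.h (P (nat_lit 0)) (T.h (P (nat_lit 53318392416)) (T.h (P (nat_lit 0)) (T.h (M (nat_lit 237065795783)) (T.h (P (nat_lit 0)) (M (nat_lit 6424231546871))))))) (T.h (P (nat_lit 0)) (T.h (T.h (P (nat_lit 0)) (T.h (M (nat_lit 270820753451)) (T.h (P (nat_lit 0)) (M (nat_lit 110989164444299))))) (T.h (P (nat_lit 0)) (T.h (T.h (P (nat_lit 0)) (M (nat_lit 60371348344559))) (P (nat_lit 0)))))))) (T.h (T.h (T.h (M (nat_lit 1944657611)) (T.h (P (nat_lit 0)) (T.h (M (nat_lit 5442984863)) (T.h (P (nat_lit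 0)) (M (nat_lit 253225592171)))))) (T.h (P (nat_lit 0)) (T.h (T.h (M (nat_lit 69065633123)) (T.h (P (nat_lit 0)) (M (nat_lit 23453897071139)))) (T.h (P (nat_lit 0)) (M (nat_lit 25229009720843)))))) (T.h (T.h (P (nat_lit 0)) (T.h (T.h (P (nat_lit 0)) (T.h (M (nat_lit 59930939735)) (T.h (P (nat_lit 0)) (M (nat_lit 20727260798435))))) (T.h (P (nat_lit 0)) (T.h (T.h (P (nat_lit 0)) (P (nat_lit 187577146580796))) (P (nat_lit 0)))))) (T.h (T.h (T.h (M (nat_lit 385634981051)) (T.h (P (nat_lit 0)) (P (nat_lit 18273604149180)))) (T.h (P (nat_lit 0)) (P (nat_lit 3258209611152)))) (T.h (T.h (P (nat_lit 0)) (T.h (T.h (P (nat_lit 0)) (M (nat_lit 149516638736507))) (P (nat_lit 0)))) (P (nat_lit 4747841539848))))))) (P (nat_lit 0))) (P (nat_lit 0)))))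
def et1_17 : T ℤ := (T.h (T.h (P (nat_lit 0)) (T.h (P (nat_lit 0)) (T.h (T.h (T.h (P (nat_lit 0)) (T.h (T.h (P (nat_lit 0)) (T.h (M (nat_lit 3029248483)) (T.h (P (nat_lit 0)) (T.h (P (nat_lit 73803227824)) (T.h (P (nat_lit 0)) (M (nat_lit 3121382083019))))))) (T.h (P (nat_lit 0)) (T.h (T.h (P (nat_lit 0)) (T.h (P (nat_lit 70862865896)) (T.h (P (nat_lit 0)) (P (nat_lit 1031708200808))))) (T.h (P (nat_lit 0)) (T.h (T.h (P (nat_lit 0)) (P (nat_lit 3579203459304))) (P (nat_lit 0)))))))) (T.h (T.h (T.h (P (nat_lit 891412240)) (T.h (P (nat_lit 0)) (T.h (M (nat_lit 20130164395)) (T.h (P (nat_lit 0)) (M (nat_lit 299197327491)))))) (T.h (P (nat_lit 0)) (T.h (T.h (M (nat_lit 73017313779)) (T.h (P (nat_lit 0)) (P (nat_lit 55420225764)))) (T.h (P (nat_lit 0)) (P (nat_lit 497516710404)))))) (T.h (T.h (P (nat_lit 0)) (T.h (T.h (P (nat_lit 0)) (T.h (P (nat_lit 26127840616)) (T.h (P (nat_lit 0)) (M (nat_lit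 707781693867))))) (T.h (P (nat_lit 0)) (T.h (T.h (P (nat_lit 0)) (P (nat_lit 6281220142664))) (P (nat_lit 0)))))) (T.h (T.h (T.h (P (nat_lit 30915485352)) (T.h (P (nat_lit 0)) (M (nat_lit 1065069240007)))) (T.h (P (nat_lit 0)) (P (nat_lit 5928842529912)))) (T.h (T.h (P (nat_lit 0)) (T.h (T.h (P (nat_lit 0)) (M (nat_lit 14468509037383))) (P (nat_lit 0)))) (M (nat_lit 425449705575))))))) (T.h (P (nat_lit 0)) (T.h (T.h (T.h (P (nat_lit 0)) (T.h (T.h (P (nat_lit 0)) (T.h (P (nat_lit 53318392416)) (T.h (P (nat_lit 0)) (T.h (M (nat_lit 270820753451)) (T.h (P (nat_lit 0)) (M (nat_lit 60371348344559))))))) (T.h (P (nat_lit 0)) (T.h (T.h (P (nat_lit 0)) (T.h (M (nat_lit 237065795783)) (T.h (P (nat_lit 0)) (M (nat_lit 110989164444299))))) (T.h (P (nat_lit 0)) (T.h (T.h (P (nat_lit 0)) (M (nat_lit 6424231546871))) (P (nat_lit 0)))))))) (T.h (T.h (T.h (M (nat_lit 1944657611)) (T.h (P (nat_lit 0)) (T.h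 (M (nat_lit 69065633123)) (T.h (P (nat_lit 0)) (M (nat_lit 25229009720843)))))) (T.h (P (nat_lit 0)) (T.h (T.h (M (nat_lit 5442984863)) (T.h (P (nat_lit 0)) (M (nat_lit 23453897071139)))) (T.h (P (nat_lit 0)) (M (nat_lit 253225592171)))))) (T.h (T.h (P (nat_lit 0)) (T.h (T.h (P (nat_lit 0)) (T.h (M (nat_lit 59930939735)) (T.h (P (nat_lit 0)) (P (nat_lit 187577146580796))))) (T.h (P (nat_lit 0)) (T.h (T.h (P (nat_lit 0)) (M (nat_lit 20727260798435))) (P (nat_lit 0)))))) (T.h (T.h (T.h (M (nat_lit 385634981051)) (T.h (P (nat_lit 0)) (P (nat_lit 3258209611152)))) (T.h (P (nat_lit 0)) (P (nat_lit 18273604149180)))) (T.h (T.h (P (nat_lit 0)) (T.h (T.h (P (nat_lit 0)) (M (nat_lit 149516638736507))) (P (nat_lit 0)))) (P (nat_lit 4747841539848))))))) (P (nat_lit 0))))))) (T.h (T.h (P (nat_lit 0)) (T.h (T.h (T.h (T.h (P (nat_lit 191368800)) (T.h (P (nat_lit 0)) (T.h (M (nat_lit 14375232847)) (T.h (P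 (nat_lit 0)) (T.h (P (nat_lit 61461914608)) (T.h (P (nat_lit 0)) (M (nat_lit 6702957157231)))))))) (T.h (P (nat_lit 0)) (T.h (T.h (M (nat_lit 14375232847)) (T.h (P (nat_lit 0)) (T.h (P (nat_lit 16108315056)) (T.h (P (nat_lit 0)) (P (nat_lit 2111538155432)))))) (T.h (P (nat_lit 0)) (T.h (T.h (P (nat_lit 61461914608)) (T.h (P (nat_lit 0)) (P (nat_lit 2111538155432)))) (T.h (P (nat_lit 0)) (M (nat_lit 6702957157231)))))))) (T.h (T.h (P (nat_lit 0)) (T.h (T.h (P (nat_lit 0)) (T.h (P (nat_lit 7088180912)) (T.h (P (nat_lit 0)) (P (nat_lit 1892787154832))))) (T.h (P (nat_lit 0)) (T.h (T.h (P (nat_lit 0)) (P (nat_lit 1892787154832))) (P (nat_lit 0)))))) (T.h (T.h (T.h (M (nat_lit 10943854559)) (T.h (P (nat_lit 0)) (T.h (M (nat_lit 34873274799)) (T.h (P (nat_lit 0)) (M (nat_lit 29911592320439)))))) (T.h (P (nat_lit 0)) (T.h (T.h (M (nat_lit 34873274799)) (T.h (P (nat_lit 0)) (M (nat_lit 19499679307439))))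 (T.h (P (nat_lit 0)) (M (nat_lit 29911592320439)))))) (T.h (T.h (P (nat_lit 0)) (T.h (T.h (P (nat_lit 0)) (P (nat_lit 9216669431744))) (P (nat_lit 0)))) (T.h (T.h (T.h (P (nat_lit 662553562528)) (T.h (P (nat_lit 0)) (P (nat_lit 44854019375104)))) (T.h (P (nat_lit 0)) (P (nat_lit 44854019375104)))) (T.h (P (nat_lit 0)) (P (nat_lit 3006832295824)))))))) (T.h (P (nat_lit 0)) (T.h (T.h (T.h (T.h (P (nat_lit 1586732076)) (T.h (P (nat_lit 0)) (T.h (P (nat_lit 122888046240)) (T.h (P (nat_lit 0)) (T.h (M (nat_lit 2486146493627)) (T.h (P (nat_lit 0)) (P (nat_lit 99533579795640)))))))) (T.h (P (nat_lit 0)) (T.h (T.h (P (nat_lit 31168490040)) (T.h (P (nat_lit 0)) (T.h (M (nat_lit 2766066438743)) (T.h (P (nat_lit 0)) (M (nat_lit 2888013818051)))))) (T.h (P (nat_lit 0)) (T.h (T.h (M (nat_lit 143423312291)) (T.h (P (nat_lit 0)) (M (nat_lit 78577891136027)))) (T.h (P (nat_lit 0)) (M (nat_lit 8996606343215))))))))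 (T.h (T.h (P (nat_lit 0)) (T.h (T.h (P (nat_lit 0)) (T.h (P (nat_lit 1661001726960)) (T.h (P (nat_lit 0)) (M (nat_lit 3587379021863))))) (T.h (P (nat_lit 0)) (T.h (T.h (P (nat_lit 0)) (M (nat_lit 18926025776207))) (P (nat_lit 0)))))) (T.h (T.h (T.h (M (nat_lit 141552175427)) (T.h (P (nat_lit 0)) (T.h (P (nat_lit 1602629801028)) (T.h (P (nat_lit 0)) (M (nat_lit 921715754136155)))))) (T.h (P (nat_lit 0)) (T.h (T.h (P (nat_lit 7131470574780)) (T.h (P (nat_lit 0)) (M (nat_lit 374248682893907)))) (T.h (P (nat_lit 0)) (P (nat_lit 262647202194792)))))) (T.h (T.h (P (nat_lit 0)) (T.h (T.h (P (nat_lit 0)) (P (nat_lit 64962142375536))) (P (nat_lit 0)))) (T.h (T.h (T.h (M (nat_lit 335002032323)) (T.h (P (nat_lit 0)) (M (nat_lit 147762217911887)))) (T.h (P (nat_lit 0)) (M (nat_lit 5403915339875)))) (T.h (P (nat_lit 0)) (P (nat_lit 81484927679448)))))))) (P (nat_lit 0)))))) et1_16))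
def et1_18 : T ℤ := (T.h (T.h (T.h (T.h (P (nat_lit 0)) (T.h (T.h (M (nat_lit 5548556555)) (T.h (P (nat_lit 0)) (T.h (M (nat_lit 9882401987)) (T.h (P (nat_lit 0)) (P (nat_lit 13295152288)))))) (T.h (P (nat_lit 0)) (T.h (T.h (P (nat_lit 10074941588)) (T.h (P (nat_lit 0)) (P (nat_lit 16199186392)))) (T.h (P (nat_lit 0)) (P (nat_lit 1500831158492))))))) (T.h (T.h (T.h (P (nat_lit 0)) (T.h (M (nat_lit 3300389015)) (T.h (P (nat_lit 0)) (T.h (M (nat_lit 155196221407)) (T.h (P (nat_lit 0)) (P (nat_lit 3944619294784))))))) (T.h (P (nat_lit 0)) (T.h (T.h (P (nat_lit 0)) (T.h (P (nat_lit 17680943308)) (T.h (P (nat_lit 0)) (P (nat_lit 747653689724))))) (T.h (P (nat_lit 0)) (T.h (T.h (P (nat_lit 0)) (P (nat_lit 4217571608048))) (P (nat_lit 0))))))) (T.h (T.h (P (nat_lit 0)) (T.h (T.h (P (nat_lit 3608142680)) (T.h (P (nat_lit 0)) (P (nat_lit 581451294848)))) (T.h (P (nat_lit 0)) (P (nat_lit 1318160681048)))))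 (T.h (T.h (T.h (P (nat_lit 0)) (T.h (M (nat_lit 241633330899)) (T.h (P (nat_lit 0)) (P (nat_lit 6584427779168))))) (T.h (P (nat_lit 0)) (T.h (T.h (P (nat_lit 0)) (M (nat_lit 6958331631127))) (P (nat_lit 0))))) (T.h (T.h (P (nat_lit 0)) (P (nat_lit 4735557164260))) (T.h (T.h (T.h (P (nat_lit 0)) (M (nat_lit 31235892314491))) (P (nat_lit 0))) (P (nat_lit 0)))))))) (T.h (P (nat_lit 0)) (T.h (T.h (T.h (P (nat_lit 0)) (T.h (T.h (M (nat_lit 18021440231)) (T.h (P (nat_lit 0)) (T.h (P (nat_lit 308702830392)) (T.h (P (nat_lit 0)) (M (nat_lit 3717090369323)))))) (T.h (P (nat_lit 0)) (T.h (T.h (P (nat_lit 979715851380)) (T.h (P (nat_lit 0)) (P (nat_lit 2719344628512)))) (T.h (P (nat_lit 0)) (M (nat_lit 4171530929795))))))) (T.h (T.h (T.h (P (nat_lit 0)) (T.h (P (nat_lit 37791571860)) (T.h (P (nat_lit 0)) (T.h (P (nat_lit 3127287067308)) (T.h (P (nat_lit 0)) (P (nat_lit 19439842109436))))))) (T.h (P (nat_lit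 0)) (T.h (T.h (P (nat_lit 0)) (T.h (M (nat_lit 1995771262067)) (T.h (P (nat_lit 0)) (M (nat_lit 9226612344167))))) (T.h (P (nat_lit 0)) (T.h (T.h (P (nat_lit 0)) (P (nat_lit 20114121753468))) (P (nat_lit 0))))))) (T.h (T.h (P (nat_lit 0)) (T.h (T.h (P (nat_lit 471353627124)) (T.h (P (nat_lit 0)) (P (nat_lit 31553603316612)))) (T.h (P (nat_lit 0)) (P (nat_lit 34156956415896))))) (T.h (T.h (T.h (P (nat_lit 0)) (T.h (M (nat_lit 11627959010795)) (T.h (P (nat_lit 0)) (P (nat_lit 320234011663788))))) (T.h (P (nat_lit 0)) (T.h (T.h (P (nat_lit 0)) (P (nat_lit 198681113213352))) (P (nat_lit 0))))) (T.h (T.h (P (nat_lit 0)) (P (nat_lit 2201050956924))) (T.h (T.h (T.h (P (nat_lit 0)) (P (nat_lit 22859058650400))) (P (nat_lit 0))) (P (nat_lit 0)))))))) (P (nat_lit 0))))) (T.h (T.h (P (nat_lit 0)) (T.h (T.h (T.h (T.h (P (nat_lit 0)) (T.h (M (nat_lit 18021440231)) (T.h (P (nat_lit 0)) (T.h (P (nat_lit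 979715851380)) (T.h (P (nat_lit 0)) (M (nat_lit 4171530929795))))))) (T.h (P (nat_lit 0)) (T.h (T.h (P (nat_lit 0)) (T.h (P (nat_lit 308702830392)) (T.h (P (nat_lit 0)) (P (nat_lit 2719344628512))))) (T.h (P (nat_lit 0)) (T.h (T.h (P (nat_lit 0)) (M (nat_lit 3717090369323))) (P (nat_lit 0))))))) (T.h (T.h (P (nat_lit 0)) (T.h (T.h (P (nat_lit 37791571860)) (T.h (P (nat_lit 0)) (T.h (M (nat_lit 1995771262067)) (T.h (P (nat_lit 0)) (P (nat_lit 20114121753468)))))) (T.h (P (nat_lit 0)) (T.h (T.h (P (nat_lit 3127287067308)) (T.h (P (nat_lit 0)) (M (nat_lit 9226612344167)))) (T.h (P (nat_lit 0)) (P (nat_lit 19439842109436))))))) (T.h (T.h (T.h (P (nat_lit 0)) (T.h (P (nat_lit 471353627124)) (T.h (P (nat_lit 0)) (P (nat_lit 34156956415896))))) (T.h (P (nat_lit 0)) (T.h (T.h (P (nat_lit 0)) (P (nat_lit 31553603316612))) (P (nat_lit 0))))) (T.h (T.h (P (nat_lit 0)) (T.h (T.h (M (nat_lit 11627959010795))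 (T.h (P (nat_lit 0)) (P (nat_lit 198681113213352)))) (T.h (P (nat_lit 0)) (P (nat_lit 320234011663788))))) (T.h (T.h (T.h (P (nat_lit 0)) (P (nat_lit 2201050956924))) (P (nat_lit 0))) (T.h (T.h (P (nat_lit 0)) (P (nat_lit 22859058650400))) (P (nat_lit 0)))))))) (P (nat_lit 0)))) (T.h (T.h (T.h (T.h (P (nat_lit 0)) (T.h (T.h (P (nat_lit 7346784384)) (T.h (P (nat_lit 0)) (T.h (M (nat_lit 61015054895)) (T.h (P (nat_lit 0)) (M (nat_lit 560023399295)))))) (T.h (P (nat_lit 0)) (T.h (T.h (P (nat_lit 96285958128)) (T.h (P (nat_lit 0)) (M (nat_lit 127920262787)))) (T.h (P (nat_lit 0)) (M (nat_lit 4026292241615))))))) (T.h (T.h (T.h (P (nat_lit 0)) (T.h (M (nat_lit 67155314579)) (T.h (P (nat_lit 0)) (T.h (P (nat_lit 270409870260)) (T.h (P (nat_lit 0)) (P (nat_lit 5815949185260))))))) (T.h (P (nat_lit 0)) (T.h (T.h (P (nat_lit 0)) (T.h (M (nat_lit 207480710771)) (T.h (P (nat_lit 0)) (P (nat_lit 72945435699468)))))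 (T.h (P (nat_lit 0)) (T.h (T.h (P (nat_lit 0)) (P (nat_lit 75989420119440))) (P (nat_lit 0))))))) (T.h (T.h (P (nat_lit 0)) (T.h (T.h (M (nat_lit 338118514775)) (T.h (P (nat_lit 0)) (P (nat_lit 23437863271440)))) (T.h (P (nat_lit 0)) (P (nat_lit 17994569658840))))) (T.h (T.h (T.h (P (nat_lit 0)) (T.h (M (nat_lit 1346926338755)) (T.h (P (nat_lit 0)) (P (nat_lit 97497071996688))))) (T.h (P (nat_lit 0)) (T.h (T.h (P (nat_lit 0)) (M (nat_lit 182138066500859))) (P (nat_lit 0))))) (T.h (T.h (P (nat_lit 0)) (P (nat_lit 57759739110036))) (T.h (T.h (T.h (P (nat_lit 0)) (M (nat_lit 51969569751071))) (P (nat_lit 0))) (P (nat_lit 0)))))))) (P (nat_lit 0))) (P (nat_lit 0)))))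
def et1_19 : T ℤ := (T.h (T.h (T.h (T.h (P (nat_lit 0)) (T.h (T.h (P (nat_lit 0)) (T.h (M (nat_lit 1317534535)) (T.h (P (nat_lit 0)) (T.h (M (nat_lit 84620760167)) (T.h (P (nat_lit 0)) (P (nat_lit 600266599468))))))) (T.h (P (nat_lit 0)) (T.h (T.h (P (nat_lit 0)) (T.h (M (nat_lit 84620760167)) (T.h (P (nat_lit 0)) (P (nat_lit 3960364400736))))) (T.h (P (nat_lit 0)) (T.h (T.h (P (nat_lit 0)) (P (nat_lit 600266599468))) (P (nat_lit 0)))))))) (T.h (T.h (T.h (P (nat_lit 4428768720)) (T.h (P (nat_lit 0)) (T.h (P (nat_lit 4791029040)) (T.h (P (nat_lit 0)) (P (nat_lit 298904863740)))))) (T.h (P (nat_lit 0)) (T.h (T.h (P (nat_lit 4791029040)) (T.h (P (nat_lit 0)) (P (nat_lit 1391896956600)))) (T.h (P (nat_lit 0)) (P (nat_lit 298904863740)))))) (T.h (T.h (P (nat_lit 0)) (T.h (T.h (P (nat_lit 0)) (T.h (M (nat_lit 489333112719)) (T.h (P (nat_lit 0)) (M (nat_lit 3077122735479))))) (T.h (P (nat_lit 0))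 (T.h (T.h (P (nat_lit 0)) (M (nat_lit 3077122735479))) (P (nat_lit 0)))))) (T.h (T.h (T.h (M (nat_lit 137779096823)) (T.h (P (nat_lit 0)) (M (nat_lit 1683970502711)))) (T.h (P (nat_lit 0)) (M (nat_lit 1683970502711)))) (T.h (T.h (P (nat_lit 0)) (T.h (T.h (P (nat_lit 0)) (M (nat_lit 16157686682919))) (P (nat_lit 0)))) (M (nat_lit 8931917922103))))))) (T.h (P (nat_lit 0)) (T.h (T.h (T.h (P (nat_lit 0)) (T.h (T.h (P (nat_lit 0)) (T.h (P (nat_lit 7208655228)) (T.h (P (nat_lit 0)) (T.h (P (nat_lit 3284486640)) (T.h (P (nat_lit 0)) (P (nat_lit 15144006490380))))))) (T.h (P (nat_lit 0)) (T.h (T.h (P (nat_lit 0)) (T.h (M (nat_lit 454379901155)) (T.h (P (nat_lit 0)) (P (nat_lit 29731065308388))))) (T.h (P (nat_lit 0)) (T.h (T.h (P (nat_lit 0)) (P (nat_lit 7362674093916))) (P (nat_lit 0)))))))) (T.h (T.h (T.h (M (nat_lit 5065377623)) (T.h (P (nat_lit 0)) (T.h (P (nat_lit 155359676448)) (T.h (P (nat_lit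 0)) (P (nat_lit 2857024429812)))))) (T.h (P (nat_lit 0)) (T.h (T.h (P (nat_lit 41138570772)) (T.h (P (nat_lit 0)) (P (nat_lit 3898993085568)))) (T.h (P (nat_lit 0)) (P (nat_lit 1436986193256)))))) (T.h (T.h (P (nat_lit 0)) (T.h (T.h (P (nat_lit 0)) (T.h (M (nat_lit 196402350311)) (T.h (P (nat_lit 0)) (M (nat_lit 46405720611287))))) (T.h (P (nat_lit 0)) (T.h (T.h (P (nat_lit 0)) (M (nat_lit 48456067457447))) (P (nat_lit 0)))))) (T.h (T.h (T.h (M (nat_lit 275395995395)) (T.h (P (nat_lit 0)) (M (nat_lit 8570200417739)))) (T.h (P (nat_lit 0)) (M (nat_lit 18998054656163)))) (T.h (T.h (P (nat_lit 0)) (T.h (T.h (P (nat_lit 0)) (P (nat_lit 26243695599444))) (P (nat_lit 0)))) (M (nat_lit 16219811394179))))))) (P (nat_lit 0))))) (T.h (T.h (P (nat_lit 0)) (T.h (T.h (T.h (T.h (M (nat_lit 243186119)) (T.h (P (nat_lit 0)) (T.h (P (nat_lit 30142000080)) (T.h (P (nat_lit 0)) (T.h (M (nat_lit 745063880399))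 (T.h (P (nat_lit 0)) (P (nat_lit 18892036615428)))))))) (T.h (P (nat_lit 0)) (T.h (T.h (P (nat_lit 30142000080)) (T.h (P (nat_lit 0)) (T.h (P (nat_lit 206999076672)) (T.h (P (nat_lit 0)) (P (nat_lit 27644213439144)))))) (T.h (P (nat_lit 0)) (T.h (T.h (M (nat_lit 745063880399)) (T.h (P (nat_lit 0)) (P (nat_lit 27644213439144)))) (T.h (P (nat_lit 0)) (P (nat_lit 18892036615428)))))))) (T.h (T.h (P (nat_lit 0)) (T.h (T.h (P (nat_lit 0)) (T.h (P (nat_lit 211107126744)) (T.h (P (nat_lit 0)) (M (nat_lit 2290107156695))))) (T.h (P (nat_lit 0)) (T.h (T.h (P (nat_lit 0)) (M (nat_lit 2290107156695))) (P (nat_lit 0)))))) (T.h (T.h (T.h (P (nat_lit 199492058232)) (T.h (P (nat_lit 0)) (T.h (P (nat_lit 2975785110972)) (T.h (P (nat_lit 0)) (M (nat_lit 49206953088647)))))) (T.h (P (nat_lit 0)) (T.h (T.h (P (nat_lit 2975785110972)) (T.h (P (nat_lit 0)) (P (nat_lit 106941138912720)))) (T.h (P (nat_lit 0)) (M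 (nat_lit 49206953088647)))))) (T.h (T.h (P (nat_lit 0)) (T.h (T.h (P (nat_lit 0)) (M (nat_lit 73834886063951))) (P (nat_lit 0)))) (T.h (T.h (T.h (P (nat_lit 2105928692136)) (T.h (P (nat_lit 0)) (M (nat_lit 14186529107963)))) (T.h (P (nat_lit 0)) (M (nat_lit 14186529107963)))) (T.h (P (nat_lit 0)) (P (nat_lit 146191709213280)))))))) (P (nat_lit 0)))) (T.h (T.h (T.h (T.h (P (nat_lit 0)) (T.h (T.h (P (nat_lit 0)) (T.h (P (nat_lit 7208655228)) (T.h (P (nat_lit 0)) (T.h (M (nat_lit 454379901155)) (T.h (P (nat_lit 0)) (P (nat_lit 7362674093916))))))) (T.h (P (nat_lit 0)) (T.h (T.h (P (nat_lit 0)) (T.h (P (nat_lit 3284486640)) (T.h (P (nat_lit 0)) (P (nat_lit 29731065308388))))) (T.h (P (nat_lit 0)) (T.h (T.h (P (nat_lit 0)) (P (nat_lit 15144006490380))) (P (nat_lit 0)))))))) (T.h (T.h (T.h (M (nat_lit 5065377623)) (T.h (P (nat_lit 0)) (T.h (P (nat_lit 41138570772)) (T.h (P (nat_lit 0)) (P (nat_lit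 1436986193256)))))) (T.h (P (nat_lit 0)) (T.h (T.h (P (nat_lit 155359676448)) (T.h (P (nat_lit 0)) (P (nat_lit 3898993085568)))) (T.h (P (nat_lit 0)) (P (nat_lit 2857024429812)))))) (T.h (T.h (P (nat_lit 0)) (T.h (T.h (P (nat_lit 0)) (T.h (M (nat_lit 196402350311)) (T.h (P (nat_lit 0)) (M (nat_lit 48456067457447))))) (T.h (P (nat_lit 0)) (T.h (T.h (P (nat_lit 0)) (M (nat_lit 46405720611287))) (P (nat_lit 0)))))) (T.h (T.h (T.h (M (nat_lit 275395995395)) (T.h (P (nat_lit 0)) (M (nat_lit 18998054656163)))) (T.h (P (nat_lit 0)) (M (nat_lit 8570200417739)))) (T.h (T.h (P (nat_lit 0)) (T.h (T.h (P (nat_lit 0)) (P (nat_lit 26243695599444))) (P (nat_lit 0)))) (M (nat_lit 16219811394179))))))) (P (nat_lit 0))) (P (nat_lit 0)))))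
def et1_20 : T ℤ := (T.h (T.h (T.h (P (nat_lit 0)) (T.h (T.h (T.h (T.h (P (nat_lit 0)) (T.h (P (nat_lit 5519761164)) (T.h (P (nat_lit 0)) (T.h (M (nat_lit 17164754783)) (T.h (P (nat_lit 0)) (M (nat_lit 2292749898083))))))) (T.h (P (nat_lit 0)) (T.h (T.h (P (nat_lit 0)) (T.h (P (nat_lit 44581284432)) (T.h (P (nat_lit 0)) (M (nat_lit 1262215327931))))) (T.h (P (nat_lit 0)) (T.h (T.h (P (nat_lit 0)) (P (nat_lit 601500150072))) (P (nat_lit 0))))))) (T.h (T.h (P (nat_lit 0)) (T.h (T.h (P (nat_lit 7638818112)) (T.h (P (nat_lit 0)) (T.h (M (nat_lit 179731968911)) (T.h (P (nat_lit 0)) (M (nat_lit 17100147915899)))))) (T.h (P (nat_lit 0)) (T.h (T.h (P (nat_lit 305899725852)) (T.h (P (nat_lit 0)) (P (nat_lit 4812499715364)))) (T.h (P (nat_lit 0)) (M (nat_lit 3015351236807))))))) (T.h (T.h (T.h (P (nat_lit 0)) (T.h (M (nat_lit 26432588843)) (T.h (P (nat_lit 0)) (M (nat_lit 8161891225919))))) (T.h (P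 (nat_lit 0)) (T.h (T.h (P (nat_lit 0)) (M (nat_lit 10470599609579))) (P (nat_lit 0))))) (T.h (T.h (P (nat_lit 0)) (T.h (T.h (P (nat_lit 1436454174312)) (T.h (P (nat_lit 0)) (P (nat_lit 28592063710812)))) (T.h (P (nat_lit 0)) (M (nat_lit 35340294992795))))) (T.h (T.h (T.h (P (nat_lit 0)) (M (nat_lit 12338285201243))) (P (nat_lit 0))) (T.h (T.h (P (nat_lit 0)) (P (nat_lit 292477626780012))) (P (nat_lit 0)))))))) (P (nat_lit 0)))) (T.h (T.h (T.h (T.h (P (nat_lit 0)) (T.h (T.h (P (nat_lit 5519761164)) (T.h (P (nat_lit 0)) (T.h (P (nat_lit 44581284432)) (T.h (P (nat_lit 0)) (P (nat_lit 601500150072)))))) (T.h (P (nat_lit 0)) (T.h (T.h (M (nat_lit 17164754783)) (T.h (P (nat_lit 0)) (M (nat_lit 1262215327931)))) (T.h (P (nat_lit 0)) (M (nat_lit 2292749898083))))))) (T.h (T.h (T.h (P (nat_lit 0)) (T.h (P (nat_lit 7638818112)) (T.h (P (nat_lit 0)) (T.h (P (nat_lit 305899725852)) (T.h (P (nat_lit 0))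 (M (nat_lit 3015351236807))))))) (T.h (P (nat_lit 0)) (T.h (T.h (P (nat_lit 0)) (T.h (M (nat_lit 179731968911)) (T.h (P (nat_lit 0)) (P (nat_lit 4812499715364))))) (T.h (P (nat_lit 0)) (T.h (T.h (P (nat_lit 0)) (M (nat_lit 17100147915899))) (P (nat_lit 0))))))) (T.h (T.h (P (nat_lit 0)) (T.h (T.h (M (nat_lit 26432588843)) (T.h (P (nat_lit 0)) (M (nat_lit 10470599609579)))) (T.h (P (nat_lit 0)) (M (nat_lit 8161891225919))))) (T.h (T.h (T.h (P (nat_lit 0)) (T.h (P (nat_lit 1436454174312)) (T.h (P (nat_lit 0)) (M (nat_lit 35340294992795))))) (T.h (P (nat_lit 0)) (T.h (T.h (P (nat_lit 0)) (P (nat_lit 28592063710812))) (P (nat_lit 0))))) (T.h (T.h (P (nat_lit 0)) (M (nat_lit 12338285201243))) (T.h (T.h (T.h (P (nat_lit 0)) (P (nat_lit 292477626780012))) (P (nat_lit 0))) (P (nat_lit 0)))))))) (P (nat_lit 0))) (P (nat_lit 0)))) (T.h (T.h (T.h (T.h (T.h (P (nat_lit 0)) (T.h (T.h (P (nat_lit 0)) (T.h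 (P (nat_lit 1976301792)) (T.h (P (nat_lit 0)) (T.h (P (nat_lit 115324007112)) (T.h (P (nat_lit 0)) (M (nat_lit 1420118759051))))))) (T.h (P (nat_lit 0)) (T.h (T.h (P (nat_lit 0)) (T.h (P (nat_lit 115324007112)) (T.h (P (nat_lit 0)) (M (nat_lit 5940546610247))))) (T.h (P (nat_lit 0)) (T.h (T.h (P (nat_lit 0)) (M (nat_lit 1420118759051))) (P (nat_lit 0)))))))) (T.h (T.h (T.h (M (nat_lit 6643153079)) (T.h (P (nat_lit 0)) (T.h (M (nat_lit 3076038683)) (T.h (P (nat_lit 0)) (M (nat_lit 300578054831)))))) (T.h (P (nat_lit 0)) (T.h (T.h (M (nat_lit 3076038683)) (T.h (P (nat_lit 0)) (M (nat_lit 2087845426079)))) (T.h (P (nat_lit 0)) (M (nat_lit 300578054831)))))) (T.h (T.h (P (nat_lit 0)) (T.h (T.h (P (nat_lit 0)) (T.h (P (nat_lit 733999667904)) (T.h (P (nat_lit 0)) (P (nat_lit 6169603783536))))) (T.h (P (nat_lit 0)) (T.h (T.h (P (nat_lit 0)) (P (nat_lit 6169603783536))) (P (nat_lit 0)))))) (T.h (T.h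 (T.h (P (nat_lit 206668643760)) (T.h (P (nat_lit 0)) (P (nat_lit 3459563166420)))) (T.h (P (nat_lit 0)) (P (nat_lit 3459563166420)))) (T.h (T.h (P (nat_lit 0)) (T.h (T.h (P (nat_lit 0)) (P (nat_lit 24236529577344))) (P (nat_lit 0)))) (P (nat_lit 13397876719704))))))) (P (nat_lit 0))) (P (nat_lit 0))) (P (nat_lit 0))))
def et1_21 : T ℤ := (T.h (T.h (T.h (P (nat_lit 0)) (T.h (P (nat_lit 0)) (T.h (P (nat_lit 0)) (T.h (T.h (T.h (T.h (P (nat_lit 0)) (T.h (M (nat_lit 4190400927)) (T.h (P (nat_lit 0)) (T.h (P (nat_lit 2245046732)) (T.h (P (nat_lit 0)) (P (nat_lit 1105319544940))))))) (T.h (P (nat_lit 0)) (T.h (T.h (P (nat_lit 0)) (T.h (P (nat_lit 49707721768)) (T.h (P (nat_lit 0)) (M (nat_lit 1207344138511))))) (T.h (P (nat_lit 0)) (T.h (T.h (P (nat_lit 0)) (M (nat_lit 88552039683))) (P (nat_lit 0))))))) (T.h (T.h (P (nat_lit 0)) (T.h (T.h (P (nat_lit 19643680872)) (T.h (P (nat_lit 0)) (T.h (P (nat_lit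 1223294689116)) (T.h (P (nat_lit 0)) (P (nat_lit 10451887234888)))))) (T.h (P (nat_lit 0)) (T.h (T.h (M (nat_lit 342785750795)) (T.h (P (nat_lit 0)) (M (nat_lit 8856716559715)))) (T.h (P (nat_lit 0)) (M (nat_lit 8489352848291))))))) (T.h (T.h (T.h (P (nat_lit 0)) (T.h (P (nat_lit 45588982648)) (T.h (P (nat_lit 0)) (P (nat_lit 128582149096))))) (T.h (P (nat_lit 0)) (T.h (T.h (P (nat_lit 0)) (P (nat_lit 8753185748148))) (P (nat_lit 0))))) (T.h (T.h (P (nat_lit 0)) (T.h (T.h (M (nat_lit 431161122599)) (T.h (P (nat_lit 0)) (M (nat_lit 15315691732551)))) (T.h (P (nat_lit 0)) (M (nat_lit 28274287932063))))) (T.h (T.h (T.h (P (nat_lit 0)) (M (nat_lit 7657985781195))) (P (nat_lit 0))) (T.h (T.h (P (nat_lit 0)) (M (nat_lit 12614204027975))) (P (nat_lit 0)))))))) (T.h (P (nat_lit 0)) (T.h (T.h (T.h (T.h (P (nat_lit 0)) (T.h (M (nat_lit 1944657611)) (T.h (P (nat_lit 0)) (T.h (M (nat_lit 385634981051))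 (T.h (P (nat_lit 0)) (P (nat_lit 4747841539848))))))) (T.h (P (nat_lit 0)) (T.h (T.h (P (nat_lit 0)) (T.h (M (nat_lit 5442984863)) (T.h (P (nat_lit 0)) (P (nat_lit 18273604149180))))) (T.h (P (nat_lit 0)) (T.h (T.h (P (nat_lit 0)) (M (nat_lit 253225592171))) (P (nat_lit 0))))))) (T.h (T.h (P (nat_lit 0)) (T.h (T.h (P (nat_lit 53318392416)) (T.h (P (nat_lit 0)) (T.h (M (nat_lit 59930939735)) (T.h (P (nat_lit 0)) (M (nat_lit 149516638736507)))))) (T.h (P (nat_lit 0)) (T.h (T.h (M (nat_lit 237065795783)) (T.h (P (nat_lit 0)) (M (nat_lit 20727260798435)))) (T.h (P (nat_lit 0)) (M (nat_lit 6424231546871))))))) (T.h (T.h (T.h (P (nat_lit 0)) (T.h (M (nat_lit 69065633123)) (T.h (P (nat_lit 0)) (P (nat_lit 3258209611152))))) (T.h (P (nat_lit 0)) (T.h (T.h (P (nat_lit 0)) (M (nat_lit 23453897071139))) (P (nat_lit 0))))) (T.h (T.h (P (nat_lit 0)) (T.h (T.h (M (nat_lit 270820753451)) (T.h (P (nat_lit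 0)) (P (nat_lit 187577146580796)))) (T.h (P (nat_lit 0)) (M (nat_lit 110989164444299))))) (T.h (T.h (T.h (P (nat_lit 0)) (M (nat_lit 25229009720843))) (P (nat_lit 0))) (T.h (T.h (P (nat_lit 0)) (M (nat_lit 60371348344559))) (P (nat_lit 0)))))))) (P (nat_lit 0)))))))) et1_15) (T.h et1_17 (T.h (T.h (T.h (P (nat_lit 0)) (T.h (T.h (T.h (T.h (P (nat_lit 0)) (T.h (M (nat_lit 5548556555)) (T.h (P (nat_lit 0)) (T.h (P (nat_lit 10074941588)) (T.h (P (nat_lit 0)) (P (nat_lit 1500831158492))))))) (T.h (P (nat_lit 0)) (T.h (T.h (P (nat_lit 0)) (T.h (M (nat_lit 9882401987)) (T.h (P (nat_lit 0)) (P (nat_lit 16199186392))))) (T.h (P (nat_lit 0)) (T.h (T.h (P (nat_lit 0)) (P (nat_lit 13295152288))) (P (nat_lit 0))))))) (T.h (T.h (P (nat_lit 0)) (T.h (T.h (M (nat_lit 3300389015)) (T.h (P (nat_lit 0)) (T.h (P (nat_lit 17680943308)) (T.h (P (nat_lit 0)) (P (nat_lit 4217571608048)))))) (T.h (P (nat_lit 0)) (T.h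 (T.h (M (nat_lit 155196221407)) (T.h (P (nat_lit 0)) (P (nat_lit 747653689724)))) (T.h (P (nat_lit 0)) (P (nat_lit 3944619294784))))))) (T.h (T.h (T.h (P (nat_lit 0)) (T.h (P (nat_lit 3608142680)) (T.h (P (nat_lit 0)) (P (nat_lit 1318160681048))))) (T.h (P (nat_lit 0)) (T.h (T.h (P (nat_lit 0)) (P (nat_lit 581451294848))) (P (nat_lit 0))))) (T.h (T.h (P (nat_lit 0)) (T.h (T.h (M (nat_lit 241633330899)) (T.h (P (nat_lit 0)) (M (nat_lit 6958331631127)))) (T.h (P (nat_lit 0)) (P (nat_lit 6584427779168))))) (T.h (T.h (T.h (P (nat_lit 0)) (P (nat_lit 4735557164260))) (P (nat_lit 0))) (T.h (T.h (P (nat_lit 0)) (M (nat_lit 31235892314491))) (P (nat_lit 0)))))))) (T.h (P (nat_lit 0)) (T.h (T.h (T.h (T.h (P (nat_lit 0)) (T.h (P (nat_lit 7346784384)) (T.h (P (nat_lit 0)) (T.h (P (nat_lit 96285958128)) (T.h (P (nat_lit 0)) (M (nat_lit 4026292241615))))))) (T.h (P (nat_lit 0)) (T.h (T.h (P (nat_lit 0))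 (T.h (M (nat_lit 61015054895)) (T.h (P (nat_lit 0)) (M (nat_lit 127920262787))))) (T.h (P (nat_lit 0)) (T.h (T.h (P (nat_lit 0)) (M (nat_lit 560023399295))) (P (nat_lit 0))))))) (T.h (T.h (P (nat_lit 0)) (T.h (T.h (M (nat_lit 67155314579)) (T.h (P (nat_lit 0)) (T.h (M (nat_lit 207480710771)) (T.h (P (nat_lit 0)) (P (nat_lit 75989420119440)))))) (T.h (P (nat_lit 0)) (T.h (T.h (P (nat_lit 270409870260)) (T.h (P (nat_lit 0)) (P (nat_lit 72945435699468)))) (T.h (P (nat_lit 0)) (P (nat_lit 5815949185260))))))) (T.h (T.h (T.h (P (nat_lit 0)) (T.h (M (nat_lit 338118514775)) (T.h (P (nat_lit 0)) (P (nat_lit 17994569658840))))) (T.h (P (nat_lit 0)) (T.h (T.h (P (nat_lit 0)) (P (nat_lit 23437863271440))) (P (nat_lit 0))))) (T.h (T.h (P (nat_lit 0)) (T.h (T.h (M (nat_lit 1346926338755)) (T.h (P (nat_lit 0)) (M (nat_lit 182138066500859)))) (T.h (P (nat_lit 0)) (P (nat_lit 97497071996688))))) (T.h (T.h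 (T.h (P (nat_lit 0)) (P (nat_lit 57759739110036))) (P (nat_lit 0))) (T.h (T.h (P (nat_lit 0)) (M (nat_lit 51969569751071))) (P (nat_lit 0)))))))) (P (nat_lit 0)))))) et1_18) (T.h et1_19 et1_20))))
def et1_22 : T ℤ := (T.h (T.h (T.h (P (nat_lit 0)) (T.h (P (nat_lit 0)) (T.h (P (nat_lit 0)) (T.h (P (nat_lit 0)) (T.h (P (nat_lit 0)) (T.h (P (nat_lit 0)) (T.h (P (nat_lit 0)) (T.h (T.h (T.h (T.h (P (nat_lit 0)) (T.h (P (nat_lit 4428768720)) (T.h (P (nat_lit 0)) (T.h (M (nat_lit 137779096823)) (T.h (P (nat_lit 0)) (M (nat_lit 8931917922103))))))) (T.h (P (nat_lit 0)) (T.h (T.h (P (nat_lit 0)) (T.h (P (nat_lit 4791029040)) (T.h (P (nat_lit 0)) (M (nat_lit 1683970502711))))) (T.h (P (nat_lit 0)) (T.h (T.h (P (nat_lit 0)) (P (nat_lit 298904863740))) (P (nat_lit 0))))))) (T.h (T.h (P (nat_lit 0)) (T.h (T.h (M (nat_lit 1317534535)) (T.h (P (nat_lit 0)) (T.h (M (nat_lit 489333112719)) (T.h (P (nat_lit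 0)) (M (nat_lit 16157686682919)))))) (T.h (P (nat_lit 0)) (T.h (T.h (M (nat_lit 84620760167)) (T.h (P (nat_lit 0)) (M (nat_lit 3077122735479)))) (T.h (P (nat_lit 0)) (P (nat_lit 600266599468))))))) (T.h (T.h (T.h (P (nat_lit 0)) (T.h (P (nat_lit 4791029040)) (T.h (P (nat_lit 0)) (M (nat_lit 1683970502711))))) (T.h (P (nat_lit 0)) (T.h (T.h (P (nat_lit 0)) (P (nat_lit 1391896956600))) (P (nat_lit 0))))) (T.h (T.h (P (nat_lit 0)) (T.h (T.h (M (nat_lit 84620760167)) (T.h (P (nat_lit 0)) (M (nat_lit 3077122735479)))) (T.h (P (nat_lit 0)) (P (nat_lit 3960364400736))))) (T.h (T.h (T.h (P (nat_lit 0)) (P (nat_lit 298904863740))) (P (nat_lit 0))) (T.h (T.h (P (nat_lit 0)) (P (nat_lit 600266599468))) (P (nat_lit 0)))))))) (T.h (P (nat_lit 0)) (T.h (T.h (T.h (T.h (P (nat_lit 0)) (T.h (M (nat_lit 6643153079)) (T.h (P (nat_lit 0)) (T.h (P (nat_lit 206668643760)) (T.h (P (nat_lit 0)) (P (nat_lit 13397876719704)))))))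 (T.h (P (nat_lit 0)) (T.h (T.h (P (nat_lit 0)) (T.h (M (nat_lit 3076038683)) (T.h (P (nat_lit 0)) (P (nat_lit 3459563166420))))) (T.h (P (nat_lit 0)) (T.h (T.h (P (nat_lit 0)) (M (nat_lit 300578054831))) (P (nat_lit 0))))))) (T.h (T.h (P (nat_lit 0)) (T.h (T.h (P (nat_lit 1976301792)) (T.h (P (nat_lit 0)) (T.h (P (nat_lit 733999667904)) (T.h (P (nat_lit 0)) (P (nat_lit 24236529577344)))))) (T.h (P (nat_lit 0)) (T.h (T.h (P (nat_lit 115324007112)) (T.h (P (nat_lit 0)) (P (nat_lit 6169603783536)))) (T.h (P (nat_lit 0)) (M (nat_lit 1420118759051))))))) (T.h (T.h (T.h (P (nat_lit 0)) (T.h (M (nat_lit 3076038683)) (T.h (P (nat_lit 0)) (P (nat_lit 3459563166420))))) (T.h (P (nat_lit 0)) (T.h (T.h (P (nat_lit 0)) (M (nat_lit 2087845426079))) (P (nat_lit 0))))) (T.h (T.h (P (nat_lit 0)) (T.h (T.h (P (nat_lit 115324007112)) (T.h (P (nat_lit 0)) (P (nat_lit 6169603783536)))) (T.h (P (nat_lit 0)) (M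 (nat_lit 5940546610247))))) (T.h (T.h (T.h (P (nat_lit 0)) (M (nat_lit 300578054831))) (P (nat_lit 0))) (T.h (T.h (P (nat_lit 0)) (M (nat_lit 1420118759051))) (P (nat_lit 0)))))))) (P (nat_lit 0)))))))))))) et1_3) (T.h et1_7 (T.h (T.h (T.h (P (nat_lit 0)) (T.h (P (nat_lit 0)) (T.h (P (nat_lit 0)) (T.h (P (nat_lit 0)) (T.h (P (nat_lit 0)) (T.h (T.h (T.h (T.h (P (nat_lit 0)) (T.h (P (nat_lit 891412240)) (T.h (P (nat_lit 0)) (T.h (P (nat_lit 30915485352)) (T.h (P (nat_lit 0)) (M (nat_lit 425449705575))))))) (T.h (P (nat_lit 0)) (T.h (T.h (P (nat_lit 0)) (T.h (M (nat_lit 73017313779)) (T.h (P (nat_lit 0)) (P (nat_lit 5928842529912))))) (T.h (P (nat_lit 0)) (T.h (T.h (P (nat_lit 0)) (P (nat_lit 497516710404))) (P (nat_lit 0))))))) (T.h (T.h (P (nat_lit 0)) (T.h (T.h (M (nat_lit 3029248483)) (T.h (P (nat_lit 0)) (T.h (P (nat_lit 26127840616)) (T.h (P (nat_lit 0)) (M (nat_lit 14468509037383))))))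 (T.h (P (nat_lit 0)) (T.h (T.h (P (nat_lit 70862865896)) (T.h (P (nat_lit 0)) (P (nat_lit 6281220142664)))) (T.h (P (nat_lit 0)) (P (nat_lit 3579203459304))))))) (T.h (T.h (T.h (P (nat_lit 0)) (T.h (M (nat_lit 20130164395)) (T.h (P (nat_lit 0)) (M (nat_lit 1065069240007))))) (T.h (P (nat_lit 0)) (T.h (T.h (P (nat_lit 0)) (P (nat_lit 55420225764))) (P (nat_lit 0))))) (T.h (T.h (P (nat_lit 0)) (T.h (T.h (P (nat_lit 73803227824)) (T.h (P (nat_lit 0)) (M (nat_lit 707781693867)))) (T.h (P (nat_lit 0)) (P (nat_lit 1031708200808))))) (T.h (T.h (T.h (P (nat_lit 0)) (M (nat_lit 299197327491))) (P (nat_lit 0))) (T.h (T.h (P (nat_lit 0)) (M (nat_lit 3121382083019))) (P (nat_lit 0)))))))) (T.h (P (nat_lit 0)) (T.h (T.h (T.h (T.h (P (nat_lit 0)) (T.h (M (nat_lit 5065377623)) (T.h (P (nat_lit 0)) (T.h (M (nat_lit 275395995395)) (T.h (P (nat_lit 0)) (M (nat_lit 16219811394179))))))) (T.h (P (nat_lit 0))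 (T.h (T.h (P (nat_lit 0)) (T.h (P (nat_lit 41138570772)) (T.h (P (nat_lit 0)) (M (nat_lit 18998054656163))))) (T.h (P (nat_lit 0)) (T.h (T.h (P (nat_lit 0)) (P (nat_lit 1436986193256))) (P (nat_lit 0))))))) (T.h (T.h (P (nat_lit 0)) (T.h (T.h (P (nat_lit 7208655228)) (T.h (P (nat_lit 0)) (T.h (M (nat_lit 196402350311)) (T.h (P (nat_lit 0)) (P (nat_lit 26243695599444)))))) (T.h (P (nat_lit 0)) (T.h (T.h (M (nat_lit 454379901155)) (T.h (P (nat_lit 0)) (M (nat_lit 48456067457447)))) (T.h (P (nat_lit 0)) (P (nat_lit 7362674093916))))))) (T.h (T.h (T.h (P (nat_lit 0)) (T.h (P (nat_lit 155359676448)) (T.h (P (nat_lit 0)) (M (nat_lit 8570200417739))))) (T.h (P (nat_lit 0)) (T.h (T.h (P (nat_lit 0)) (P (nat_lit 3898993085568))) (P (nat_lit 0))))) (T.h (T.h (P (nat_lit 0)) (T.h (T.h (P (nat_lit 3284486640)) (T.h (P (nat_lit 0)) (M (nat_lit 46405720611287)))) (T.h (P (nat_lit 0)) (P (nat_lit 29731065308388)))))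 (T.h (T.h (T.h (P (nat_lit 0)) (P (nat_lit 2857024429812))) (P (nat_lit 0))) (T.h (T.h (P (nat_lit 0)) (P (nat_lit 15144006490380))) (P (nat_lit 0)))))))) (P (nat_lit 0)))))))))) et1_10) (T.h et1_13 et1_21))))

def t1 : T ℤ := et1_22

theorem h_t1 : chkT (c.G g1) t1 = true := by decide +kernel


end Pool.Agent.TOPR.R6116H
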