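import Pool.Agent.TOPR.R6116H.Cert

set_option autoImplicit false
set_option linter.all false
set_option maxRecDepth 100000

namespace Pool.Agent.TOPR.R6116H

open Helper10.PC hiding V3
open Helper80.CW.DL Pool.Agent.Helper6.TOP

def et2_0 : T ℤ := (T.h (T.h (P (nat_lit 0)) (T.h (T.h (T.h (P (nat_lit 0)) (T.h (T.h (P (nat_lit 0)) (T.h (M (nat_lit 16887641611)) (T.h (P (nat_lit 0)) (P (nat_lit 1955299736692))))) (T.h (P (nat_lit 0)) (T.h (T.h (P (nat_lit 0)) (P (nat_lit 9124454242672))) (P (nat_lit 0)))))) (T.h (T.h (T.h (P (nat_lit 259742392)) (T.h (P (nat_lit 0)) (T.h (M (nat_lit 77516534983)) (T.h (P (nat_lit 0)) (M (nat_lit 1441904453035)))))) (T.h (P (nat_lit 0)) (T.h (T.h (M (nat_lit 290258092491)) (T.h (P (nat_lit 0)) (M (nat_lit 2555509897619)))) (T.h (P (nat_lit 0)) (M (nat_lit 65948623370259)))))) (T.h (T.h (P (nat_lit 0)) (T.h (T.h (P (nat_lit 0)) (P (nat_lit 66974951184))) (P (nat_lit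 0)))) (T.h (T.h (T.h (M (nat_lit 2283637455)) (T.h (P (nat_lit 0)) (M (nat_lit 4448935827271)))) (T.h (P (nat_lit 0)) (M (nat_lit 5050504265591)))) (T.h (P (nat_lit 0)) (P (nat_lit 652073517204))))))) (T.h (P (nat_lit 0)) (T.h (T.h (T.h (P (nat_lit 0)) (T.h (T.h (P (nat_lit 0)) (T.h (M (nat_lit 40613075183)) (T.h (P (nat_lit 0)) (P (nat_lit 5268581892992))))) (T.h (P (nat_lit 0)) (T.h (T.h (P (nat_lit 0)) (P (nat_lit 23766506178296))) (P (nat_lit 0)))))) (T.h (T.h (T.h (M (nat_lit 6660739927)) (T.h (P (nat_lit 0)) (T.h (M (nat_lit 21958583427)) (T.h (P (nat_lit 0)) (P (nat_lit 16856605841260)))))) (T.h (P (nat_lit 0)) (T.h (T.h (M (nat_lit 470797929619)) (T.h (P (nat_lit 0)) (M (nat_lit 76181262370715)))) (T.h (P (nat_lit 0)) (M (nat_lit 25956017017323)))))) (T.h (T.h (P (nat_lit 0)) (T.h (T.h (P (nat_lit 0)) (P (nat_lit 6074856968224))) (P (nat_lit 0)))) (T.h (T.h (T.h (M (nat_lit 20441114543))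 (T.h (P (nat_lit 0)) (P (nat_lit 18015403513848)))) (T.h (P (nat_lit 0)) (P (nat_lit 27115016503624)))) (T.h (P (nat_lit 0)) (P (nat_lit 1464291475464))))))) (P (nat_lit 0)))))) (T.h (T.h (T.h (T.h (T.h (P (nat_lit 1837302992)) (T.h (P (nat_lit 0)) (T.h (M (nat_lit 1570297731)) (T.h (P (nat_lit 0)) (M (nat_lit 101105943535)))))) (T.h (P (nat_lit 0)) (T.h (T.h (M (nat_lit 52894122847)) (T.h (P (nat_lit 0)) (P (nat_lit 708508725656)))) (T.h (P (nat_lit 0)) (M (nat_lit 7430897784887)))))) (T.h (T.h (P (nat_lit 0)) (T.h (T.h (P (nat_lit 0)) (T.h (P (nat_lit 57982750096)) (T.h (P (nat_lit 0)) (M (nat_lit 4192062351063))))) (T.h (P (nat_lit 0)) (T.h (T.h (P (nat_lit 0)) (M (nat_lit 14088062055151))) (P (nat_lit 0)))))) (T.h (T.h (T.h (M (nat_lit 1570297731)) (T.h (P (nat_lit 0)) (P (nat_lit 638357264056)))) (T.h (P (nat_lit 0)) (P (nat_lit 708508725656)))) (T.h (T.h (P (nat_lit 0)) (T.h (T.h (P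 (nat_lit 0)) (M (nat_lit 4192062351063))) (P (nat_lit 0)))) (M (nat_lit 101105943535)))))) (T.h (P (nat_lit 0)) (T.h (T.h (T.h (T.h (P (nat_lit 50487060)) (T.h (P (nat_lit 0)) (T.h (P (nat_lit 11540601344)) (T.h (P (nat_lit 0)) (M (nat_lit 956302784511)))))) (T.h (P (nat_lit 0)) (T.h (T.h (M (nat_lit 94735619447)) (T.h (P (nat_lit 0)) (M (nat_lit 5577363881219)))) (T.h (P (nat_lit 0)) (M (nat_lit 10381926908015)))))) (T.h (T.h (P (nat_lit 0)) (T.h (T.h (P (nat_lit 0)) (T.h (M (nat_lit 83585404271)) (T.h (P (nat_lit 0)) (M (nat_lit 17912448098463))))) (T.h (P (nat_lit 0)) (T.h (T.h (P (nat_lit 0)) (P (nat_lit 18017656646600))) (P (nat_lit 0)))))) (T.h (T.h (T.h (P (nat_lit 9524428356)) (T.h (P (nat_lit 0)) (P (nat_lit 12483011308)))) (T.h (P (nat_lit 0)) (M (nat_lit 7496084842007)))) (T.h (T.h (P (nat_lit 0)) (T.h (T.h (P (nat_lit 0)) (M (nat_lit 9698570609351))) (P (nat_lit 0)))) (P (nat_lit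 226498482592)))))) (P (nat_lit 0))))) (T.h (T.h (P (nat_lit 0)) (T.h (T.h (T.h (P (nat_lit 0)) (T.h (T.h (P (nat_lit 0)) (T.h (M (nat_lit 6557472783)) (T.h (P (nat_lit 0)) (M (nat_lit 1947343852351))))) (T.h (P (nat_lit 0)) (T.h (T.h (P (nat_lit 0)) (M (nat_lit 4714890496903))) (P (nat_lit 0)))))) (T.h (T.h (T.h (P (nat_lit 1068346656)) (T.h (P (nat_lit 0)) (T.h (P (nat_lit 18471116936)) (T.h (P (nat_lit 0)) (M (nat_lit 2688971301239)))))) (T.h (P (nat_lit 0)) (T.h (T.h (P (nat_lit 560373576760)) (T.h (P (nat_lit 0)) (P (nat_lit 11587222498116)))) (T.h (P (nat_lit 0)) (P (nat_lit 165180518164156)))))) (T.h (T.h (P (nat_lit 0)) (T.h (T.h (P (nat_lit 0)) (M (nat_lit 2790765563479))) (P (nat_lit 0)))) (T.h (T.h (T.h (P (nat_lit 46802636996)) (T.h (P (nat_lit 0)) (M (nat_lit 1445460012819)))) (T.h (P (nat_lit 0)) (M (nat_lit 11094586799427)))) (T.h (P (nat_lit 0)) (M (nat_lit 492829999539)))))))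 (P (nat_lit 0)))) (T.h (T.h (T.h (T.h (T.h (M (nat_lit 738128119)) (T.h (P (nat_lit 0)) (T.h (M (nat_lit 341782075)) (T.h (P (nat_lit 0)) (M (nat_lit 33397561647)))))) (T.h (P (nat_lit 0)) (T.h (T.h (P (nat_lit 68889547920)) (T.h (P (nat_lit 0)) (P (nat_lit 1153187722140)))) (T.h (P (nat_lit 0)) (P (nat_lit 7443264844280)))))) (T.h (T.h (P (nat_lit 0)) (T.h (T.h (P (nat_lit 0)) (T.h (P (nat_lit 163111037312)) (T.h (P (nat_lit 0)) (P (nat_lit 1371023063008))))) (T.h (P (nat_lit 0)) (T.h (T.h (P (nat_lit 0)) (P (nat_lit 10771790923264))) (P (nat_lit 0)))))) (T.h (T.h (T.h (M (nat_lit 341782075)) (T.h (P (nat_lit 0)) (M (nat_lit 231982825119)))) (T.h (P (nat_lit 0)) (P (nat_lit 1153187722140)))) (T.h (T.h (P (nat_lit 0)) (T.h (T.h (P (nat_lit 0)) (P (nat_lit 1371023063008))) (P (nat_lit 0)))) (M (nat_lit 33397561647)))))) (P (nat_lit 0))) (P (nat_lit 0))))))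
def et2_1 : T ℤ := (T.h (T.h (P (nat_lit 0)) (T.h (P (nat_lit 0)) (T.h (P (nat_lit 0)) (T.h (P (nat_lit 0)) (T.h (T.h (T.h (T.h (P (nat_lit 4539241056)) (T.h (P (nat_lit 0)) (T.h (M (nat_lit 37555925831)) (T.h (P (nat_lit 0)) (P (nat_lit 3910823480664)))))) (T.h (P (nat_lit 0)) (T.h (T.h (M (nat_lit 37555925831)) (T.h (P (nat_lit 0)) (P (nat_lit 7433778965944)))) (T.h (P (nat_lit 0)) (P (nat_lit 3910823480664)))))) (T.h (T.h (P (nat_lit 0)) (T.h (T.h (P (nat_lit 0)) (T.h (M (nat_lit 125039657983)) (T.h (P (nat_lit 0)) (P (nat_lit 21674936711304))))) (T.h (P (nat_lit 0)) (T.h (T.h (P (nat_lit 0)) (P (nat_lit 21674936711304))) (P (nat_lit 0)))))) (T.h (T.h (T.h (M (nat_lit 9739794751)) (T.h (P (nat_lit 0)) (P (nat_lit 3105132012956)))) (T.h (P (nat_lit 0)) (P (nat_lit 3105132012956)))) (T.h (T.h (P (nat_lit 0)) (T.h (T.h (P (nat_lit 0)) (P (nat_lit 5064794112192))) (P (nat_lit 0)))) (M (nat_lit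 296326568767)))))) (T.h (P (nat_lit 0)) (T.h (T.h (T.h (T.h (P (nat_lit 600236308)) (T.h (P (nat_lit 0)) (T.h (M (nat_lit 166113717547)) (T.h (P (nat_lit 0)) (P (nat_lit 9055438534364)))))) (T.h (P (nat_lit 0)) (T.h (T.h (P (nat_lit 24421360140)) (T.h (P (nat_lit 0)) (P (nat_lit 7084259756664)))) (T.h (P (nat_lit 0)) (M (nat_lit 5040052325435)))))) (T.h (T.h (P (nat_lit 0)) (T.h (T.h (P (nat_lit 0)) (T.h (M (nat_lit 59424811223)) (T.h (P (nat_lit 0)) (M (nat_lit 106926965327527))))) (T.h (P (nat_lit 0)) (T.h (T.h (P (nat_lit 0)) (P (nat_lit 75456885959928))) (P (nat_lit 0)))))) (T.h (T.h (T.h (M (nat_lit 7384226639)) (T.h (P (nat_lit 0)) (P (nat_lit 8695408413220)))) (T.h (P (nat_lit 0)) (M (nat_lit 2648628651055)))) (T.h (T.h (P (nat_lit 0)) (T.h (T.h (P (nat_lit 0)) (P (nat_lit 11604038866896))) (P (nat_lit 0)))) (M (nat_lit 90360999051)))))) (P (nat_lit 0))))))))) (T.h (T.h (P (nat_lit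 0)) (T.h (P (nat_lit 0)) (T.h (P (nat_lit 0)) (T.h (T.h (T.h (P (nat_lit 0)) (T.h (T.h (P (nat_lit 0)) (T.h (P (nat_lit 195544013004)) (T.h (P (nat_lit 0)) (P (nat_lit 1590284538348))))) (T.h (P (nat_lit 0)) (T.h (T.h (P (nat_lit 0)) (M (nat_lit 15802316971875))) (P (nat_lit 0)))))) (T.h (T.h (T.h (P (nat_lit 9513419828)) (T.h (P (nat_lit 0)) (T.h (P (nat_lit 72344896812)) (T.h (P (nat_lit 0)) (P (nat_lit 467672306624)))))) (T.h (P (nat_lit 0)) (T.h (T.h (M (nat_lit 267027739299)) (T.h (P (nat_lit 0)) (M (nat_lit 17919956247971)))) (T.h (P (nat_lit 0)) (P (nat_lit 20490241662672)))))) (T.h (T.h (P (nat_lit 0)) (T.h (T.h (P (nat_lit 0)) (M (nat_lit 4725616990791))) (P (nat_lit 0)))) (T.h (T.h (T.h (M (nat_lit 105546370695)) (T.h (P (nat_lit 0)) (P (nat_lit 10964633238356)))) (T.h (P (nat_lit 0)) (M (nat_lit 4481405221607)))) (T.h (P (nat_lit 0)) (P (nat_lit 723979793760))))))) (T.h (P (nat_lit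 0)) (T.h (T.h (T.h (P (nat_lit 0)) (T.h (T.h (P (nat_lit 0)) (T.h (M (nat_lit 30695836943)) (T.h (P (nat_lit 0)) (M (nat_lit 10488846629007))))) (T.h (P (nat_lit 0)) (T.h (T.h (P (nat_lit 0)) (M (nat_lit 10488846629007))) (P (nat_lit 0)))))) (T.h (T.h (T.h (P (nat_lit 11848531648)) (T.h (P (nat_lit 0)) (T.h (M (nat_lit 96932577787)) (T.h (P (nat_lit 0)) (M (nat_lit 50152597828811)))))) (T.h (P (nat_lit 0)) (T.h (T.h (M (nat_lit 96932577787)) (T.h (P (nat_lit 0)) (P (nat_lit 125051431053864)))) (T.h (P (nat_lit 0)) (M (nat_lit 50152597828811)))))) (T.h (T.h (P (nat_lit 0)) (T.h (T.h (P (nat_lit 0)) (M (nat_lit 10423954253839))) (P (nat_lit 0)))) (T.h (T.h (T.h (M (nat_lit 52681287951)) (T.h (P (nat_lit 0)) (M (nat_lit 39299417125703)))) (T.h (P (nat_lit 0)) (M (nat_lit 39299417125703)))) (T.h (P (nat_lit 0)) (M (nat_lit 1427607010415))))))) (P (nat_lit 0)))))))) (T.h (T.h (P (nat_lit 0))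 (T.h (P (nat_lit 0)) (T.h (T.h (T.h (T.h (P (nat_lit 3333353672)) (T.h (P (nat_lit 0)) (T.h (M (nat_lit 50423083887)) (T.h (P (nat_lit 0)) (M (nat_lit 176405896711)))))) (T.h (P (nat_lit 0)) (T.h (T.h (P (nat_lit 17214930176)) (T.h (P (nat_lit 0)) (M (nat_lit 2816155826247)))) (T.h (P (nat_lit 0)) (M (nat_lit 1350943399791)))))) (T.h (T.h (P (nat_lit 0)) (T.h (T.h (P (nat_lit 0)) (T.h (M (nat_lit 57774328071)) (T.h (P (nat_lit 0)) (M (nat_lit 14557494903151))))) (T.h (P (nat_lit 0)) (T.h (T.h (P (nat_lit 0)) (P (nat_lit 45802236876448))) (P (nat_lit 0)))))) (T.h (T.h (T.h (P (nat_lit 296371924)) (T.h (P (nat_lit 0)) (M (nat_lit 35744610083)))) (T.h (P (nat_lit 0)) (P (nat_lit 4578404872240)))) (T.h (T.h (P (nat_lit 0)) (T.h (T.h (P (nat_lit 0)) (P (nat_lit 16202358005352))) (P (nat_lit 0)))) (M (nat_lit 172155428859)))))) (T.h (P (nat_lit 0)) (T.h (T.h (T.h (T.h (P (nat_lit 600236308)) (T.h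 (P (nat_lit 0)) (T.h (P (nat_lit 24421360140)) (T.h (P (nat_lit 0)) (M (nat_lit 5040052325435)))))) (T.h (P (nat_lit 0)) (T.h (T.h (M (nat_lit 166113717547)) (T.h (P (nat_lit 0)) (P (nat_lit 7084259756664)))) (T.h (P (nat_lit 0)) (P (nat_lit 9055438534364)))))) (T.h (T.h (P (nat_lit 0)) (T.h (T.h (P (nat_lit 0)) (T.h (M (nat_lit 59424811223)) (T.h (P (nat_lit 0)) (P (nat_lit 75456885959928))))) (T.h (P (nat_lit 0)) (T.h (T.h (P (nat_lit 0)) (M (nat_lit 106926965327527))) (P (nat_lit 0)))))) (T.h (T.h (T.h (M (nat_lit 7384226639)) (T.h (P (nat_lit 0)) (M (nat_lit 2648628651055)))) (T.h (P (nat_lit 0)) (P (nat_lit 8695408413220)))) (T.h (T.h (P (nat_lit 0)) (T.h (T.h (P (nat_lit 0)) (P (nat_lit 11604038866896))) (P (nat_lit 0)))) (M (nat_lit 90360999051)))))) (P (nat_lit 0))))))) et2_0)))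
def et2_2 : T ℤ := (T.h (T.h (P (nat_lit 0)) (T.h (P (nat_lit 0)) (T.h (P (nat_lit 0)) (T.h (P (nat_lit 0)) (T.h (P (nat_lit 0)) (T.h (P (nat_lit 0)) (T.h (T.h (T.h (T.h (P (nat_lit 3333353672)) (T.h (P (nat_lit 0)) (T.h (P (nat_lit 17214930176)) (T.h (P (nat_lit 0)) (M (nat_lit 1350943399791)))))) (T.h (P (nat_lit 0)) (T.h (T.h (M (nat_lit 50423083887)) (T.h (P (nat_lit 0)) (M (nat_lit 2816155826247)))) (T.h (P (nat_lit 0)) (M (nat_lit 176405896711)))))) (T.h (T.h (P (nat_lit 0)) (T.h (T.h (P (nat_lit 0)) (T.h (M (nat_lit 57774328071)) (T.h (P (nat_lit 0)) (P (nat_lit 45802236876448))))) (T.h (P (nat_lit 0)) (T.h (T.h (P (nat_lit 0)) (M (nat_lit 14557494903151))) (P (nat_lit 0)))))) (T.h (T.h (T.h (P (nat_lit 296371924)) (T.h (P (nat_lit 0)) (P (nat_lit 4578404872240)))) (T.h (P (nat_lit 0)) (M (nat_lit 35744610083)))) (T.h (T.h (P (nat_lit 0)) (T.h (T.h (P (nat_lit 0)) (P (nat_lit 16202358005352)))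 (P (nat_lit 0)))) (M (nat_lit 172155428859)))))) (T.h (P (nat_lit 0)) (T.h (T.h (T.h (T.h (P (nat_lit 50487060)) (T.h (P (nat_lit 0)) (T.h (M (nat_lit 94735619447)) (T.h (P (nat_lit 0)) (M (nat_lit 10381926908015)))))) (T.h (P (nat_lit 0)) (T.h (T.h (P (nat_lit 11540601344)) (T.h (P (nat_lit 0)) (M (nat_lit 5577363881219)))) (T.h (P (nat_lit 0)) (M (nat_lit 956302784511)))))) (T.h (T.h (P (nat_lit 0)) (T.h (T.h (P (nat_lit 0)) (T.h (M (nat_lit 83585404271)) (T.h (P (nat_lit 0)) (P (nat_lit 18017656646600))))) (T.h (P (nat_lit 0)) (T.h (T.h (P (nat_lit 0)) (M (nat_lit 17912448098463))) (P (nat_lit 0)))))) (T.h (T.h (T.h (P (nat_lit 9524428356)) (T.h (P (nat_lit 0)) (M (nat_lit 7496084842007)))) (T.h (P (nat_lit 0)) (P (nat_lit 12483011308)))) (T.h (T.h (P (nat_lit 0)) (T.h (T.h (P (nat_lit 0)) (M (nat_lit 9698570609351))) (P (nat_lit 0)))) (P (nat_lit 226498482592)))))) (P (nat_lit 0)))))))))))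 (T.h (T.h (P (nat_lit 0)) (T.h (P (nat_lit 0)) (T.h (P (nat_lit 0)) (T.h (P (nat_lit 0)) (T.h (P (nat_lit 0)) (T.h (T.h (T.h (P (nat_lit 0)) (T.h (T.h (P (nat_lit 0)) (T.h (P (nat_lit 195544013004)) (T.h (P (nat_lit 0)) (M (nat_lit 15802316971875))))) (T.h (P (nat_lit 0)) (T.h (T.h (P (nat_lit 0)) (P (nat_lit 1590284538348))) (P (nat_lit 0)))))) (T.h (T.h (T.h (P (nat_lit 9513419828)) (T.h (P (nat_lit 0)) (T.h (M (nat_lit 267027739299)) (T.h (P (nat_lit 0)) (P (nat_lit 20490241662672)))))) (T.h (P (nat_lit 0)) (T.h (T.h (P (nat_lit 72344896812)) (T.h (P (nat_lit 0)) (M (nat_lit 17919956247971)))) (T.h (P (nat_lit 0)) (P (nat_lit 467672306624)))))) (T.h (T.h (P (nat_lit 0)) (T.h (T.h (P (nat_lit 0)) (M (nat_lit 4725616990791))) (P (nat_lit 0)))) (T.h (T.h (T.h (M (nat_lit 105546370695)) (T.h (P (nat_lit 0)) (M (nat_lit 4481405221607)))) (T.h (P (nat_lit 0)) (P (nat_lit 10964633238356))))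 (T.h (P (nat_lit 0)) (P (nat_lit 723979793760))))))) (T.h (P (nat_lit 0)) (T.h (T.h (T.h (P (nat_lit 0)) (T.h (T.h (P (nat_lit 0)) (T.h (M (nat_lit 40613075183)) (T.h (P (nat_lit 0)) (P (nat_lit 23766506178296))))) (T.h (P (nat_lit 0)) (T.h (T.h (P (nat_lit 0)) (P (nat_lit 5268581892992))) (P (nat_lit 0)))))) (T.h (T.h (T.h (M (nat_lit 6660739927)) (T.h (P (nat_lit 0)) (T.h (M (nat_lit 470797929619)) (T.h (P (nat_lit 0)) (M (nat_lit 25956017017323)))))) (T.h (P (nat_lit 0)) (T.h (T.h (M (nat_lit 21958583427)) (T.h (P (nat_lit 0)) (M (nat_lit 76181262370715)))) (T.h (P (nat_lit 0)) (P (nat_lit 16856605841260)))))) (T.h (T.h (P (nat_lit 0)) (T.h (T.h (P (nat_lit 0)) (P (nat_lit 6074856968224))) (P (nat_lit 0)))) (T.h (T.h (T.h (M (nat_lit 20441114543)) (T.h (P (nat_lit 0)) (P (nat_lit 27115016503624)))) (T.h (P (nat_lit 0)) (P (nat_lit 18015403513848)))) (T.h (P (nat_lit 0)) (P (nat_lit 1464291475464)))))))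 (P (nat_lit 0)))))))))) et2_1))
def et2_3 : T ℤ := (T.h (T.h (P (nat_lit 0)) (T.h (P (nat_lit 0)) (T.h (P (nat_lit 0)) (T.h (P (nat_lit 0)) (T.h (P (nat_lit 0)) (T.h (P (nat_lit 0)) (T.h (P (nat_lit 0)) (T.h (P (nat_lit 0)) (T.h (T.h (T.h (T.h (P (nat_lit 1837302992)) (T.h (P (nat_lit 0)) (T.h (M (nat_lit 52894122847)) (T.h (P (nat_lit 0)) (M (nat_lit 7430897784887)))))) (T.h (P (nat_lit 0)) (T.h (T.h (M (nat_lit 1570297731)) (T.h (P (nat_lit 0)) (P (nat_lit 708508725656)))) (T.h (P (nat_lit 0)) (M (nat_lit 101105943535)))))) (T.h (T.h (P (nat_lit 0)) (T.h (T.h (P (nat_lit 0)) (T.h (P (nat_lit 57982750096)) (T.h (P (nat_lit 0)) (M (nat_lit 14088062055151))))) (T.h (P (nat_lit 0)) (T.h (T.h (P (nat_lit 0)) (M (nat_lit 4192062351063))) (P (nat_lit 0)))))) (T.h (T.h (T.h (M (nat_lit 1570297731)) (T.h (P (nat_lit 0)) (P (nat_lit 708508725656)))) (T.h (P (nat_lit 0)) (P (nat_lit 638357264056))))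 (T.h (T.h (P (nat_lit 0)) (T.h (T.h (P (nat_lit 0)) (M (nat_lit 4192062351063))) (P (nat_lit 0)))) (M (nat_lit 101105943535)))))) (T.h (P (nat_lit 0)) (T.h (T.h (T.h (T.h (M (nat_lit 738128119)) (T.h (P (nat_lit 0)) (T.h (P (nat_lit 68889547920)) (T.h (P (nat_lit 0)) (P (nat_lit 7443264844280)))))) (T.h (P (nat_lit 0)) (T.h (T.h (M (nat_lit 341782075)) (T.h (P (nat_lit 0)) (P (nat_lit 1153187722140)))) (T.h (P (nat_lit 0)) (M (nat_lit 33397561647)))))) (T.h (T.h (P (nat_lit 0)) (T.h (T.h (P (nat_lit 0)) (T.h (P (nat_lit 163111037312)) (T.h (P (nat_lit 0)) (P (nat_lit 10771790923264))))) (T.h (P (nat_lit 0)) (T.h (T.h (P (nat_lit 0)) (P (nat_lit 1371023063008))) (P (nat_lit 0)))))) (T.h (T.h (T.h (M (nat_lit 341782075)) (T.h (P (nat_lit 0)) (P (nat_lit 1153187722140)))) (T.h (P (nat_lit 0)) (M (nat_lit 231982825119)))) (T.h (T.h (P (nat_lit 0)) (T.h (T.h (P (nat_lit 0)) (P (nat_lit 1371023063008)))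 (P (nat_lit 0)))) (M (nat_lit 33397561647)))))) (P (nat_lit 0))))))))))))) (T.h (T.h (P (nat_lit 0)) (T.h (P (nat_lit 0)) (T.h (P (nat_lit 0)) (T.h (P (nat_lit 0)) (T.h (P (nat_lit 0)) (T.h (P (nat_lit 0)) (T.h (P (nat_lit 0)) (T.h (T.h (T.h (P (nat_lit 0)) (T.h (T.h (P (nat_lit 0)) (T.h (M (nat_lit 16887641611)) (T.h (P (nat_lit 0)) (P (nat_lit 9124454242672))))) (T.h (P (nat_lit 0)) (T.h (T.h (P (nat_lit 0)) (P (nat_lit 1955299736692))) (P (nat_lit 0)))))) (T.h (T.h (T.h (P (nat_lit 259742392)) (T.h (P (nat_lit 0)) (T.h (M (nat_lit 290258092491)) (T.h (P (nat_lit 0)) (M (nat_lit 65948623370259)))))) (T.h (P (nat_lit 0)) (T.h (T.h (M (nat_lit 77516534983)) (T.h (P (nat_lit 0)) (M (nat_lit 2555509897619)))) (T.h (P (nat_lit 0)) (M (nat_lit 1441904453035)))))) (T.h (T.h (P (nat_lit 0)) (T.h (T.h (P (nat_lit 0)) (P (nat_lit 66974951184))) (P (nat_lit 0)))) (T.h (T.h (T.h (M (nat_lit 2283637455))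 (T.h (P (nat_lit 0)) (M (nat_lit 5050504265591)))) (T.h (P (nat_lit 0)) (M (nat_lit 4448935827271)))) (T.h (P (nat_lit 0)) (P (nat_lit 652073517204))))))) (T.h (P (nat_lit 0)) (T.h (T.h (T.h (P (nat_lit 0)) (T.h (T.h (P (nat_lit 0)) (T.h (M (nat_lit 6557472783)) (T.h (P (nat_lit 0)) (M (nat_lit 4714890496903))))) (T.h (P (nat_lit 0)) (T.h (T.h (P (nat_lit 0)) (M (nat_lit 1947343852351))) (P (nat_lit 0)))))) (T.h (T.h (T.h (P (nat_lit 1068346656)) (T.h (P (nat_lit 0)) (T.h (P (nat_lit 560373576760)) (T.h (P (nat_lit 0)) (P (nat_lit 165180518164156)))))) (T.h (P (nat_lit 0)) (T.h (T.h (P (nat_lit 18471116936)) (T.h (P (nat_lit 0)) (P (nat_lit 11587222498116)))) (T.h (P (nat_lit 0)) (M (nat_lit 2688971301239)))))) (T.h (T.h (P (nat_lit 0)) (T.h (T.h (P (nat_lit 0)) (M (nat_lit 2790765563479))) (P (nat_lit 0)))) (T.h (T.h (T.h (P (nat_lit 46802636996)) (T.h (P (nat_lit 0)) (M (nat_lit 11094586799427))))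 (T.h (P (nat_lit 0)) (M (nat_lit 1445460012819)))) (T.h (P (nat_lit 0)) (M (nat_lit 492829999539))))))) (P (nat_lit 0)))))))))))) et2_2))
def et2_4 : T ℤ := (T.h (T.h (T.h (T.h (T.h (P (nat_lit 0)) (T.h (P (nat_lit 259742392)) (T.h (P (nat_lit 0)) (T.h (M (nat_lit 2283637455)) (T.h (P (nat_lit 0)) (P (nat_lit 652073517204))))))) (T.h (P (nat_lit 0)) (T.h (T.h (P (nat_lit 0)) (T.h (M (nat_lit 290258092491)) (T.h (P (nat_lit 0)) (M (nat_lit 5050504265591))))) (T.h (P (nat_lit 0)) (T.h (T.h (P (nat_lit 0)) (M (nat_lit 65948623370259))) (P (nat_lit 0))))))) (T.h (T.h (P (nat_lit 0)) (T.h (T.h (M (nat_lit 16887641611)) (T.h (P (nat_lit 0)) (P (nat_lit 66974951184)))) (T.h (P (nat_lit 0)) (P (nat_lit 9124454242672))))) (T.h (T.h (T.h (P (nat_lit 0)) (T.h (M (nat_lit 77516534983)) (T.h (P (nat_lit 0)) (M (nat_lit 4448935827271))))) (T.h (P (nat_lit 0)) (T.h (T.h (P (nat_lit 0)) (M (nat_lit 2555509897619)))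 (P (nat_lit 0))))) (T.h (T.h (P (nat_lit 0)) (P (nat_lit 1955299736692))) (T.h (T.h (T.h (P (nat_lit 0)) (M (nat_lit 1441904453035))) (P (nat_lit 0))) (P (nat_lit 0))))))) (T.h (P (nat_lit 0)) (T.h (T.h (T.h (T.h (P (nat_lit 0)) (T.h (P (nat_lit 11698247472)) (T.h (P (nat_lit 0)) (T.h (P (nat_lit 16701781372)) (T.h (P (nat_lit 0)) (P (nat_lit 16437340921376))))))) (T.h (P (nat_lit 0)) (T.h (T.h (P (nat_lit 0)) (T.h (M (nat_lit 3236523240083)) (T.h (P (nat_lit 0)) (P (nat_lit 79718722447276))))) (T.h (P (nat_lit 0)) (T.h (T.h (P (nat_lit 0)) (P (nat_lit 12462881181724))) (P (nat_lit 0))))))) (T.h (T.h (P (nat_lit 0)) (T.h (T.h (P (nat_lit 137343502504)) (T.h (P (nat_lit 0)) (P (nat_lit 7114985703808)))) (T.h (P (nat_lit 0)) (M (nat_lit 11447421283175))))) (T.h (T.h (T.h (P (nat_lit 0)) (T.h (M (nat_lit 327212534687)) (T.h (P (nat_lit 0)) (P (nat_lit 21171493037508))))) (T.h (P (nat_lit 0))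 (T.h (T.h (P (nat_lit 0)) (P (nat_lit 73839712788128))) (P (nat_lit 0))))) (T.h (T.h (P (nat_lit 0)) (P (nat_lit 7974638938680))) (T.h (T.h (T.h (P (nat_lit 0)) (P (nat_lit 12468435455704))) (P (nat_lit 0))) (P (nat_lit 0))))))) (P (nat_lit 0))))) (T.h (T.h (P (nat_lit 0)) (T.h (T.h (T.h (P (nat_lit 0)) (T.h (T.h (P (nat_lit 46029083632)) (T.h (P (nat_lit 0)) (T.h (P (nat_lit 743281936732)) (T.h (P (nat_lit 0)) (M (nat_lit 14510090030803)))))) (T.h (P (nat_lit 0)) (T.h (T.h (P (nat_lit 1255180346352)) (T.h (P (nat_lit 0)) (M (nat_lit 14908326411047)))) (T.h (P (nat_lit 0)) (P (nat_lit 162456167648856))))))) (T.h (T.h (T.h (P (nat_lit 0)) (T.h (P (nat_lit 43270251608)) (T.h (P (nat_lit 0)) (M (nat_lit 267615245807))))) (T.h (P (nat_lit 0)) (T.h (T.h (P (nat_lit 0)) (M (nat_lit 29265228514463))) (P (nat_lit 0))))) (T.h (T.h (P (nat_lit 0)) (T.h (T.h (P (nat_lit 743281936732)) (T.h (P (nat_lit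 0)) (P (nat_lit 26973030679736)))) (T.h (P (nat_lit 0)) (M (nat_lit 14908326411047))))) (T.h (T.h (T.h (P (nat_lit 0)) (M (nat_lit 267615245807))) (P (nat_lit 0))) (T.h (T.h (P (nat_lit 0)) (M (nat_lit 14510090030803))) (P (nat_lit 0))))))) (P (nat_lit 0)))) (T.h (T.h (T.h (T.h (T.h (P (nat_lit 0)) (T.h (P (nat_lit 1068346656)) (T.h (P (nat_lit 0)) (T.h (P (nat_lit 46802636996)) (T.h (P (nat_lit 0)) (M (nat_lit 492829999539))))))) (T.h (P (nat_lit 0)) (T.h (T.h (P (nat_lit 0)) (T.h (P (nat_lit 560373576760)) (T.h (P (nat_lit 0)) (M (nat_lit 11094586799427))))) (T.h (P (nat_lit 0)) (T.h (T.h (P (nat_lit 0)) (P (nat_lit 165180518164156))) (P (nat_lit 0))))))) (T.h (T.h (P (nat_lit 0)) (T.h (T.h (M (nat_lit 6557472783)) (T.h (P (nat_lit 0)) (M (nat_lit 2790765563479)))) (T.h (P (nat_lit 0)) (M (nat_lit 4714890496903))))) (T.h (T.h (T.h (P (nat_lit 0)) (T.h (P (nat_lit 18471116936)) (T.h (P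 (nat_lit 0)) (M (nat_lit 1445460012819))))) (T.h (P (nat_lit 0)) (T.h (T.h (P (nat_lit 0)) (P (nat_lit 11587222498116))) (P (nat_lit 0))))) (T.h (T.h (P (nat_lit 0)) (M (nat_lit 1947343852351))) (T.h (T.h (T.h (P (nat_lit 0)) (M (nat_lit 2688971301239))) (P (nat_lit 0))) (P (nat_lit 0))))))) (P (nat_lit 0))) (P (nat_lit 0)))))
def et2_5 : T ℤ := (T.h (T.h (P (nat_lit 0)) (T.h (P (nat_lit 0)) (T.h (T.h (T.h (T.h (P (nat_lit 0)) (T.h (P (nat_lit 13685519536)) (T.h (P (nat_lit 0)) (T.h (M (nat_lit 7700298615)) (T.h (P (nat_lit 0)) (M (nat_lit 3780894755183))))))) (T.h (P (nat_lit 0)) (T.h (T.h (P (nat_lit 0)) (T.h (P (nat_lit 3876963211888)) (T.h (P (nat_lit 0)) (M (nat_lit 107332303278555))))) (T.h (P (nat_lit 0)) (T.h (T.h (P (nat_lit 0)) (P (nat_lit 165799799308344))) (P (nat_lit 0))))))) (T.h (T.h (P (nat_lit 0)) (T.h (T.h (M (nat_lit 341403236587)) (T.h (P (nat_lit 0)) (M (nat_lit 3721231947111))))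 (T.h (P (nat_lit 0)) (M (nat_lit 8370033775519))))) (T.h (T.h (T.h (P (nat_lit 0)) (T.h (M (nat_lit 132514974403)) (T.h (P (nat_lit 0)) (P (nat_lit 23879512789896))))) (T.h (P (nat_lit 0)) (T.h (T.h (P (nat_lit 0)) (M (nat_lit 90810402776675))) (P (nat_lit 0))))) (T.h (T.h (P (nat_lit 0)) (M (nat_lit 478803469235))) (T.h (T.h (T.h (P (nat_lit 0)) (P (nat_lit 35506933688216))) (P (nat_lit 0))) (P (nat_lit 0))))))) (T.h (P (nat_lit 0)) (T.h (T.h (T.h (T.h (P (nat_lit 0)) (T.h (P (nat_lit 74994242096)) (T.h (P (nat_lit 0)) (T.h (P (nat_lit 292718243812)) (T.h (P (nat_lit 0)) (P (nat_lit 37190065720004))))))) (T.h (P (nat_lit 0)) (T.h (T.h (P (nat_lit 0)) (T.h (P (nat_lit 4632771269904)) (T.h (P (nat_lit 0)) (M (nat_lit 130575645271459))))) (T.h (P (nat_lit 0)) (T.h (T.h (P (nat_lit 0)) (M (nat_lit 161737641034055))) (P (nat_lit 0))))))) (T.h (T.h (P (nat_lit 0)) (T.h (T.h (M (nat_lit 30164762991))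 (T.h (P (nat_lit 0)) (M (nat_lit 53180084113327)))) (T.h (P (nat_lit 0)) (P (nat_lit 5378482398760))))) (T.h (T.h (T.h (P (nat_lit 0)) (T.h (M (nat_lit 4462862008103)) (T.h (P (nat_lit 0)) (M (nat_lit 52561493946263))))) (T.h (P (nat_lit 0)) (T.h (T.h (P (nat_lit 0)) (M (nat_lit 132920093212991))) (P (nat_lit 0))))) (T.h (T.h (P (nat_lit 0)) (M (nat_lit 4456439270879))) (T.h (T.h (T.h (P (nat_lit 0)) (P (nat_lit 49193606610208))) (P (nat_lit 0))) (P (nat_lit 0))))))) (P (nat_lit 0))))))) (T.h (T.h (P (nat_lit 0)) (T.h (T.h (T.h (P (nat_lit 0)) (T.h (T.h (M (nat_lit 14462095287)) (T.h (P (nat_lit 0)) (T.h (M (nat_lit 61535457923)) (T.h (P (nat_lit 0)) (P (nat_lit 11511116263436)))))) (T.h (P (nat_lit 0)) (T.h (T.h (P (nat_lit 1776848368864)) (T.h (P (nat_lit 0)) (P (nat_lit 22305959113580)))) (T.h (P (nat_lit 0)) (M (nat_lit 40353788870327))))))) (T.h (T.h (T.h (P (nat_lit 0)) (T.h (P (nat_lit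 31542998336)) (T.h (P (nat_lit 0)) (M (nat_lit 1706213667955))))) (T.h (P (nat_lit 0)) (T.h (T.h (P (nat_lit 0)) (P (nat_lit 9834121740320))) (P (nat_lit 0))))) (T.h (T.h (P (nat_lit 0)) (T.h (T.h (M (nat_lit 61535457923)) (T.h (P (nat_lit 0)) (M (nat_lit 23458890903511)))) (T.h (P (nat_lit 0)) (P (nat_lit 22305959113580))))) (T.h (T.h (T.h (P (nat_lit 0)) (M (nat_lit 1706213667955))) (P (nat_lit 0))) (T.h (T.h (P (nat_lit 0)) (P (nat_lit 11511116263436))) (P (nat_lit 0))))))) (T.h (P (nat_lit 0)) (T.h (T.h (T.h (P (nat_lit 0)) (T.h (T.h (M (nat_lit 34718677063)) (T.h (P (nat_lit 0)) (T.h (P (nat_lit 1375515565912)) (T.h (P (nat_lit 0)) (M (nat_lit 185582541956187)))))) (T.h (P (nat_lit 0)) (T.h (T.h (M (nat_lit 1590543719871)) (T.h (P (nat_lit 0)) (P (nat_lit 20835010760328)))) (T.h (P (nat_lit 0)) (P (nat_lit 51088783886224))))))) (T.h (T.h (T.h (P (nat_lit 0)) (T.h (P (nat_lit 239597475328))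 (T.h (P (nat_lit 0)) (M (nat_lit 2079064558303))))) (T.h (P (nat_lit 0)) (T.h (T.h (P (nat_lit 0)) (P (nat_lit 33874373366968))) (P (nat_lit 0))))) (T.h (T.h (P (nat_lit 0)) (T.h (T.h (P (nat_lit 1453155499808)) (T.h (P (nat_lit 0)) (M (nat_lit 61926766191323)))) (T.h (P (nat_lit 0)) (P (nat_lit 52172963093768))))) (T.h (T.h (T.h (P (nat_lit 0)) (M (nat_lit 1747492235151))) (P (nat_lit 0))) (T.h (T.h (P (nat_lit 0)) (P (nat_lit 63832030229928))) (P (nat_lit 0))))))) (P (nat_lit 0)))))) et2_4))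
def et2_6 : T ℤ := (T.h (T.h (P (nat_lit 0)) (T.h (P (nat_lit 0)) (T.h (P (nat_lit 0)) (T.h (P (nat_lit 0)) (T.h (T.h (T.h (T.h (P (nat_lit 0)) (T.h (M (nat_lit 1203563263)) (T.h (P (nat_lit 0)) (T.h (M (nat_lit 1949463888975)) (T.h (P (nat_lit 0)) (P (nat_lit 6259888814720))))))) (T.h (P (nat_lit 0)) (T.h (T.h (P (nat_lit 0)) (T.h (P (nat_lit 784516329408)) (T.h (P (nat_lit 0)) (M (nat_lit 163374340168171))))) (T.h (P (nat_lit 0)) (T.h (T.h (P (nat_lit 0)) (P (nat_lit 177816366867728))) (P (nat_lit 0))))))) (T.h (T.h (P (nat_lit 0)) (T.h (T.h (M (nat_lit 94551436559)) (T.h (P (nat_lit 0)) (P (nat_lit 36567948759548)))) (T.h (P (nat_lit 0)) (M (nat_lit 6482578000123))))) (T.h (T.h (T.h (P (nat_lit 0)) (T.h (M (nat_lit 654943645667)) (T.h (P (nat_lit 0)) (M (nat_lit 42361588142019))))) (T.h (P (nat_lit 0)) (T.h (T.h (P (nat_lit 0)) (M (nat_lit 8417302227803))) (P (nat_lit 0))))) (T.h (T.h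 (P (nat_lit 0)) (M (nat_lit 1170405988907))) (T.h (T.h (T.h (P (nat_lit 0)) (M (nat_lit 83068366274799))) (P (nat_lit 0))) (P (nat_lit 0))))))) (T.h (P (nat_lit 0)) (T.h (T.h (T.h (T.h (P (nat_lit 0)) (T.h (M (nat_lit 34718677063)) (T.h (P (nat_lit 0)) (T.h (M (nat_lit 1590543719871)) (T.h (P (nat_lit 0)) (P (nat_lit 51088783886224))))))) (T.h (P (nat_lit 0)) (T.h (T.h (P (nat_lit 0)) (T.h (P (nat_lit 1375515565912)) (T.h (P (nat_lit 0)) (P (nat_lit 20835010760328))))) (T.h (P (nat_lit 0)) (T.h (T.h (P (nat_lit 0)) (M (nat_lit 185582541956187))) (P (nat_lit 0))))))) (T.h (T.h (P (nat_lit 0)) (T.h (T.h (P (nat_lit 239597475328)) (T.h (P (nat_lit 0)) (P (nat_lit 33874373366968)))) (T.h (P (nat_lit 0)) (M (nat_lit 2079064558303))))) (T.h (T.h (T.h (P (nat_lit 0)) (T.h (P (nat_lit 1453155499808)) (T.h (P (nat_lit 0)) (P (nat_lit 52172963093768))))) (T.h (P (nat_lit 0)) (T.h (T.h (P (nat_lit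 0)) (M (nat_lit 61926766191323))) (P (nat_lit 0))))) (T.h (T.h (P (nat_lit 0)) (M (nat_lit 1747492235151))) (T.h (T.h (T.h (P (nat_lit 0)) (P (nat_lit 63832030229928))) (P (nat_lit 0))) (P (nat_lit 0))))))) (P (nat_lit 0))))))))) (T.h (T.h (P (nat_lit 0)) (T.h (P (nat_lit 0)) (T.h (P (nat_lit 0)) (T.h (T.h (T.h (P (nat_lit 0)) (T.h (T.h (M (nat_lit 1203563263)) (T.h (P (nat_lit 0)) (T.h (P (nat_lit 784516329408)) (T.h (P (nat_lit 0)) (P (nat_lit 177816366867728)))))) (T.h (P (nat_lit 0)) (T.h (T.h (M (nat_lit 1949463888975)) (T.h (P (nat_lit 0)) (M (nat_lit 163374340168171)))) (T.h (P (nat_lit 0)) (P (nat_lit 6259888814720))))))) (T.h (T.h (T.h (P (nat_lit 0)) (T.h (M (nat_lit 94551436559)) (T.h (P (nat_lit 0)) (M (nat_lit 6482578000123))))) (T.h (P (nat_lit 0)) (T.h (T.h (P (nat_lit 0)) (P (nat_lit 36567948759548))) (P (nat_lit 0))))) (T.h (T.h (P (nat_lit 0)) (T.h (T.h (M (nat_lit 654943645667))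 (T.h (P (nat_lit 0)) (M (nat_lit 8417302227803)))) (T.h (P (nat_lit 0)) (M (nat_lit 42361588142019))))) (T.h (T.h (T.h (P (nat_lit 0)) (M (nat_lit 1170405988907))) (P (nat_lit 0))) (T.h (T.h (P (nat_lit 0)) (M (nat_lit 83068366274799))) (P (nat_lit 0))))))) (T.h (P (nat_lit 0)) (T.h (T.h (T.h (P (nat_lit 0)) (T.h (T.h (P (nat_lit 74994242096)) (T.h (P (nat_lit 0)) (T.h (P (nat_lit 4632771269904)) (T.h (P (nat_lit 0)) (M (nat_lit 161737641034055)))))) (T.h (P (nat_lit 0)) (T.h (T.h (P (nat_lit 292718243812)) (T.h (P (nat_lit 0)) (M (nat_lit 130575645271459)))) (T.h (P (nat_lit 0)) (P (nat_lit 37190065720004))))))) (T.h (T.h (T.h (P (nat_lit 0)) (T.h (M (nat_lit 30164762991)) (T.h (P (nat_lit 0)) (P (nat_lit 5378482398760))))) (T.h (P (nat_lit 0)) (T.h (T.h (P (nat_lit 0)) (M (nat_lit 53180084113327))) (P (nat_lit 0))))) (T.h (T.h (P (nat_lit 0)) (T.h (T.h (M (nat_lit 4462862008103)) (T.h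 (P (nat_lit 0)) (M (nat_lit 132920093212991)))) (T.h (P (nat_lit 0)) (M (nat_lit 52561493946263))))) (T.h (T.h (T.h (P (nat_lit 0)) (M (nat_lit 4456439270879))) (P (nat_lit 0))) (T.h (T.h (P (nat_lit 0)) (P (nat_lit 49193606610208))) (P (nat_lit 0))))))) (P (nat_lit 0)))))))) et2_5))
def et2_7 : T ℤ := (T.h (T.h (P (nat_lit 0)) (T.h (P (nat_lit 0)) (T.h (P (nat_lit 0)) (T.h (P (nat_lit 0)) (T.h (P (nat_lit 0)) (T.h (P (nat_lit 0)) (T.h (T.h (T.h (T.h (P (nat_lit 0)) (T.h (M (nat_lit 14462095287)) (T.h (P (nat_lit 0)) (T.h (P (nat_lit 1776848368864)) (T.h (P (nat_lit 0)) (M (nat_lit 40353788870327))))))) (T.h (P (nat_lit 0)) (T.h (T.h (P (nat_lit 0)) (T.h (M (nat_lit 61535457923)) (T.h (P (nat_lit 0)) (P (nat_lit 22305959113580))))) (T.h (P (nat_lit 0)) (T.h (T.h (P (nat_lit 0)) (P (nat_lit 11511116263436))) (P (nat_lit 0))))))) (T.h (T.h (P (nat_lit 0)) (T.h (T.h (P (nat_lit 31542998336))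 (T.h (P (nat_lit 0)) (P (nat_lit 9834121740320)))) (T.h (P (nat_lit 0)) (M (nat_lit 1706213667955))))) (T.h (T.h (T.h (P (nat_lit 0)) (T.h (M (nat_lit 61535457923)) (T.h (P (nat_lit 0)) (P (nat_lit 22305959113580))))) (T.h (P (nat_lit 0)) (T.h (T.h (P (nat_lit 0)) (M (nat_lit 23458890903511))) (P (nat_lit 0))))) (T.h (T.h (P (nat_lit 0)) (M (nat_lit 1706213667955))) (T.h (T.h (T.h (P (nat_lit 0)) (P (nat_lit 11511116263436))) (P (nat_lit 0))) (P (nat_lit 0))))))) (T.h (P (nat_lit 0)) (T.h (T.h (T.h (T.h (P (nat_lit 0)) (T.h (P (nat_lit 46029083632)) (T.h (P (nat_lit 0)) (T.h (P (nat_lit 1255180346352)) (T.h (P (nat_lit 0)) (P (nat_lit 162456167648856))))))) (T.h (P (nat_lit 0)) (T.h (T.h (P (nat_lit 0)) (T.h (P (nat_lit 743281936732)) (T.h (P (nat_lit 0)) (M (nat_lit 14908326411047))))) (T.h (P (nat_lit 0)) (T.h (T.h (P (nat_lit 0)) (M (nat_lit 14510090030803))) (P (nat_lit 0))))))) (T.h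 (T.h (P (nat_lit 0)) (T.h (T.h (P (nat_lit 43270251608)) (T.h (P (nat_lit 0)) (M (nat_lit 29265228514463)))) (T.h (P (nat_lit 0)) (M (nat_lit 267615245807))))) (T.h (T.h (T.h (P (nat_lit 0)) (T.h (P (nat_lit 743281936732)) (T.h (P (nat_lit 0)) (M (nat_lit 14908326411047))))) (T.h (P (nat_lit 0)) (T.h (T.h (P (nat_lit 0)) (P (nat_lit 26973030679736))) (P (nat_lit 0))))) (T.h (T.h (P (nat_lit 0)) (M (nat_lit 267615245807))) (T.h (T.h (T.h (P (nat_lit 0)) (M (nat_lit 14510090030803))) (P (nat_lit 0))) (P (nat_lit 0))))))) (P (nat_lit 0))))))))))) (T.h (T.h (P (nat_lit 0)) (T.h (P (nat_lit 0)) (T.h (P (nat_lit 0)) (T.h (P (nat_lit 0)) (T.h (P (nat_lit 0)) (T.h (T.h (T.h (P (nat_lit 0)) (T.h (T.h (P (nat_lit 13685519536)) (T.h (P (nat_lit 0)) (T.h (P (nat_lit 3876963211888)) (T.h (P (nat_lit 0)) (P (nat_lit 165799799308344)))))) (T.h (P (nat_lit 0)) (T.h (T.h (M (nat_lit 7700298615)) (T.h (P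 (nat_lit 0)) (M (nat_lit 107332303278555)))) (T.h (P (nat_lit 0)) (M (nat_lit 3780894755183))))))) (T.h (T.h (T.h (P (nat_lit 0)) (T.h (M (nat_lit 341403236587)) (T.h (P (nat_lit 0)) (M (nat_lit 8370033775519))))) (T.h (P (nat_lit 0)) (T.h (T.h (P (nat_lit 0)) (M (nat_lit 3721231947111))) (P (nat_lit 0))))) (T.h (T.h (P (nat_lit 0)) (T.h (T.h (M (nat_lit 132514974403)) (T.h (P (nat_lit 0)) (M (nat_lit 90810402776675)))) (T.h (P (nat_lit 0)) (P (nat_lit 23879512789896))))) (T.h (T.h (T.h (P (nat_lit 0)) (M (nat_lit 478803469235))) (P (nat_lit 0))) (T.h (T.h (P (nat_lit 0)) (P (nat_lit 35506933688216))) (P (nat_lit 0))))))) (T.h (P (nat_lit 0)) (T.h (T.h (T.h (P (nat_lit 0)) (T.h (T.h (P (nat_lit 11698247472)) (T.h (P (nat_lit 0)) (T.h (M (nat_lit 3236523240083)) (T.h (P (nat_lit 0)) (P (nat_lit 12462881181724)))))) (T.h (P (nat_lit 0)) (T.h (T.h (P (nat_lit 16701781372)) (T.h (P (nat_lit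 0)) (P (nat_lit 79718722447276)))) (T.h (P (nat_lit 0)) (P (nat_lit 16437340921376))))))) (T.h (T.h (T.h (P (nat_lit 0)) (T.h (P (nat_lit 137343502504)) (T.h (P (nat_lit 0)) (M (nat_lit 11447421283175))))) (T.h (P (nat_lit 0)) (T.h (T.h (P (nat_lit 0)) (P (nat_lit 7114985703808))) (P (nat_lit 0))))) (T.h (T.h (P (nat_lit 0)) (T.h (T.h (M (nat_lit 327212534687)) (T.h (P (nat_lit 0)) (P (nat_lit 73839712788128)))) (T.h (P (nat_lit 0)) (P (nat_lit 21171493037508))))) (T.h (T.h (T.h (P (nat_lit 0)) (P (nat_lit 7974638938680))) (P (nat_lit 0))) (T.h (T.h (P (nat_lit 0)) (P (nat_lit 12468435455704))) (P (nat_lit 0))))))) (P (nat_lit 0)))))))))) et2_6))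
def et2_8 : T ℤ := (T.h (T.h (P (nat_lit 0)) (T.h (T.h (T.h (P (nat_lit 0)) (T.h (T.h (P (nat_lit 0)) (T.h (M (nat_lit 341403236587)) (T.h (P (nat_lit 0)) (M (nat_lit 478803469235))))) (T.h (P (nat_lit 0)) (T.h (T.h (P (nat_lit 0)) (M (nat_lit 8370033775519))) (P (nat_lit 0)))))) (T.h (T.h (T.h (P (nat_lit 13685519536)) (T.h (P (nat_lit 0)) (T.h (M (nat_lit 132514974403)) (T.h (P (nat_lit 0)) (P (nat_lit 35506933688216)))))) (T.h (P (nat_lit 0)) (T.h (T.h (P (nat_lit 3876963211888)) (T.h (P (nat_lit 0)) (M (nat_lit 90810402776675)))) (T.h (P (nat_lit 0)) (P (nat_lit 165799799308344)))))) (T.h (T.h (P (nat_lit 0)) (T.h (T.h (P (nat_lit 0)) (M (nat_lit 3721231947111))) (P (nat_lit 0)))) (T.h (T.h (T.h (M (nat_lit 7700298615)) (T.h (P (nat_lit 0)) (P (nat_lit 23879512789896)))) (T.h (P (nat_lit 0)) (M (nat_lit 107332303278555)))) (T.h (P (nat_lit 0)) (M (nat_lit 3780894755183))))))) (T.h (P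 (nat_lit 0)) (T.h (T.h (T.h (P (nat_lit 0)) (T.h (T.h (P (nat_lit 0)) (T.h (P (nat_lit 727768012776)) (T.h (P (nat_lit 0)) (P (nat_lit 26634378365368))))) (T.h (P (nat_lit 0)) (T.h (T.h (P (nat_lit 0)) (P (nat_lit 9136769537816))) (P (nat_lit 0)))))) (T.h (T.h (T.h (M (nat_lit 1596451631)) (T.h (P (nat_lit 0)) (T.h (M (nat_lit 3514381179335)) (T.h (P (nat_lit 0)) (M (nat_lit 38648964409323)))))) (T.h (P (nat_lit 0)) (T.h (T.h (P (nat_lit 5395847606856)) (T.h (P (nat_lit 0)) (P (nat_lit 188981253053232)))) (T.h (P (nat_lit 0)) (P (nat_lit 149947839425940)))))) (T.h (T.h (P (nat_lit 0)) (T.h (T.h (P (nat_lit 0)) (M (nat_lit 32393866604143))) (P (nat_lit 0)))) (T.h (T.h (T.h (M (nat_lit 153029857539)) (T.h (P (nat_lit 0)) (P (nat_lit 5956022046828)))) (T.h (P (nat_lit 0)) (P (nat_lit 3569882887280)))) (T.h (P (nat_lit 0)) (M (nat_lit 400766289287))))))) (P (nat_lit 0)))))) (T.h (T.h (T.h (T.h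 (T.h (P (nat_lit 3333353672)) (T.h (P (nat_lit 0)) (T.h (P (nat_lit 296371924)) (T.h (P (nat_lit 0)) (M (nat_lit 172155428859)))))) (T.h (P (nat_lit 0)) (T.h (T.h (P (nat_lit 17214930176)) (T.h (P (nat_lit 0)) (P (nat_lit 4578404872240)))) (T.h (P (nat_lit 0)) (M (nat_lit 1350943399791)))))) (T.h (T.h (P (nat_lit 0)) (T.h (T.h (P (nat_lit 0)) (T.h (M (nat_lit 57774328071)) (T.h (P (nat_lit 0)) (P (nat_lit 16202358005352))))) (T.h (P (nat_lit 0)) (T.h (T.h (P (nat_lit 0)) (P (nat_lit 45802236876448))) (P (nat_lit 0)))))) (T.h (T.h (T.h (M (nat_lit 50423083887)) (T.h (P (nat_lit 0)) (M (nat_lit 35744610083)))) (T.h (P (nat_lit 0)) (M (nat_lit 2816155826247)))) (T.h (T.h (P (nat_lit 0)) (T.h (T.h (P (nat_lit 0)) (M (nat_lit 14557494903151))) (P (nat_lit 0)))) (M (nat_lit 176405896711)))))) (T.h (P (nat_lit 0)) (T.h (T.h (T.h (T.h (M (nat_lit 1728481263)) (T.h (P (nat_lit 0)) (T.h (P (nat_lit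 433760965140)) (T.h (P (nat_lit 0)) (M (nat_lit 2280933065159)))))) (T.h (P (nat_lit 0)) (T.h (T.h (P (nat_lit 1171854080192)) (T.h (P (nat_lit 0)) (P (nat_lit 4945486440304)))) (T.h (P (nat_lit 0)) (P (nat_lit 2774701338792)))))) (T.h (T.h (P (nat_lit 0)) (T.h (T.h (P (nat_lit 0)) (T.h (P (nat_lit 567346600688)) (T.h (P (nat_lit 0)) (M (nat_lit 25907973930551))))) (T.h (P (nat_lit 0)) (T.h (T.h (P (nat_lit 0)) (P (nat_lit 230769034398304))) (P (nat_lit 0)))))) (T.h (T.h (T.h (P (nat_lit 433760965140)) (T.h (P (nat_lit 0)) (M (nat_lit 947912938303)))) (T.h (P (nat_lit 0)) (P (nat_lit 4945486440304)))) (T.h (T.h (P (nat_lit 0)) (T.h (T.h (P (nat_lit 0)) (M (nat_lit 25907973930551))) (P (nat_lit 0)))) (M (nat_lit 2280933065159)))))) (P (nat_lit 0))))) (T.h (T.h (P (nat_lit 0)) (T.h (T.h (T.h (P (nat_lit 0)) (T.h (T.h (P (nat_lit 0)) (T.h (P (nat_lit 137343502504)) (T.h (P (nat_lit 0)) (P (nat_lit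 7974638938680))))) (T.h (P (nat_lit 0)) (T.h (T.h (P (nat_lit 0)) (M (nat_lit 11447421283175))) (P (nat_lit 0)))))) (T.h (T.h (T.h (P (nat_lit 11698247472)) (T.h (P (nat_lit 0)) (T.h (M (nat_lit 327212534687)) (T.h (P (nat_lit 0)) (P (nat_lit 12468435455704)))))) (T.h (P (nat_lit 0)) (T.h (T.h (M (nat_lit 3236523240083)) (T.h (P (nat_lit 0)) (P (nat_lit 73839712788128)))) (T.h (P (nat_lit 0)) (P (nat_lit 12462881181724)))))) (T.h (T.h (P (nat_lit 0)) (T.h (T.h (P (nat_lit 0)) (P (nat_lit 7114985703808))) (P (nat_lit 0)))) (T.h (T.h (T.h (P (nat_lit 16701781372)) (T.h (P (nat_lit 0)) (P (nat_lit 21171493037508)))) (T.h (P (nat_lit 0)) (P (nat_lit 79718722447276)))) (T.h (P (nat_lit 0)) (P (nat_lit 16437340921376))))))) (P (nat_lit 0)))) (T.h (T.h (T.h (T.h (T.h (P (nat_lit 50487060)) (T.h (P (nat_lit 0)) (T.h (P (nat_lit 9524428356)) (T.h (P (nat_lit 0)) (P (nat_lit 226498482592)))))) (T.h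 (P (nat_lit 0)) (T.h (T.h (M (nat_lit 94735619447)) (T.h (P (nat_lit 0)) (M (nat_lit 7496084842007)))) (T.h (P (nat_lit 0)) (M (nat_lit 10381926908015)))))) (T.h (T.h (P (nat_lit 0)) (T.h (T.h (P (nat_lit 0)) (T.h (M (nat_lit 83585404271)) (T.h (P (nat_lit 0)) (M (nat_lit 9698570609351))))) (T.h (P (nat_lit 0)) (T.h (T.h (P (nat_lit 0)) (P (nat_lit 18017656646600))) (P (nat_lit 0)))))) (T.h (T.h (T.h (P (nat_lit 11540601344)) (T.h (P (nat_lit 0)) (P (nat_lit 12483011308)))) (T.h (P (nat_lit 0)) (M (nat_lit 5577363881219)))) (T.h (T.h (P (nat_lit 0)) (T.h (T.h (P (nat_lit 0)) (M (nat_lit 17912448098463))) (P (nat_lit 0)))) (M (nat_lit 956302784511)))))) (P (nat_lit 0))) (P (nat_lit 0))))))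
def et2_9 : T ℤ := (T.h (T.h (P (nat_lit 0)) (T.h (P (nat_lit 0)) (T.h (P (nat_lit 0)) (T.h (P (nat_lit 0)) (T.h (T.h (T.h (T.h (P (nat_lit 4043080720)) (T.h (P (nat_lit 0)) (T.h (M (nat_lit 19230837631)) (T.h (P (nat_lit 0)) (M (nat_lit 4680391643495)))))) (T.h (P (nat_lit 0)) (T.h (T.h (P (nat_lit 76053764832)) (T.h (P (nat_lit 0)) (M (nat_lit 1459718280343)))) (T.h (P (nat_lit 0)) (M (nat_lit 1362524155719)))))) (T.h (T.h (P (nat_lit 0)) (T.h (T.h (P (nat_lit 0)) (T.h (M (nat_lit 2506283606415)) (T.h (P (nat_lit 0)) (M (nat_lit 47418355319855))))) (T.h (P (nat_lit 0)) (T.h (T.h (P (nat_lit 0)) (P (nat_lit 999414966128))) (P (nat_lit 0)))))) (T.h (T.h (T.h (P (nat_lit 76053764832)) (T.h (P (nat_lit 0)) (M (nat_lit 1459718280343)))) (T.h (P (nat_lit 0)) (P (nat_lit 3468602115224)))) (T.h (T.h (P (nat_lit 0)) (T.h (T.h (P (nat_lit 0)) (P (nat_lit 999414966128))) (P (nat_lit 0)))) (M (nat_lit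 1362524155719)))))) (T.h (P (nat_lit 0)) (T.h (T.h (T.h (T.h (M (nat_lit 1728481263)) (T.h (P (nat_lit 0)) (T.h (P (nat_lit 1171854080192)) (T.h (P (nat_lit 0)) (P (nat_lit 2774701338792)))))) (T.h (P (nat_lit 0)) (T.h (T.h (P (nat_lit 433760965140)) (T.h (P (nat_lit 0)) (P (nat_lit 4945486440304)))) (T.h (P (nat_lit 0)) (M (nat_lit 2280933065159)))))) (T.h (T.h (P (nat_lit 0)) (T.h (T.h (P (nat_lit 0)) (T.h (P (nat_lit 567346600688)) (T.h (P (nat_lit 0)) (P (nat_lit 230769034398304))))) (T.h (P (nat_lit 0)) (T.h (T.h (P (nat_lit 0)) (M (nat_lit 25907973930551))) (P (nat_lit 0)))))) (T.h (T.h (T.h (P (nat_lit 433760965140)) (T.h (P (nat_lit 0)) (P (nat_lit 4945486440304)))) (T.h (P (nat_lit 0)) (M (nat_lit 947912938303)))) (T.h (T.h (P (nat_lit 0)) (T.h (T.h (P (nat_lit 0)) (M (nat_lit 25907973930551))) (P (nat_lit 0)))) (M (nat_lit 2280933065159)))))) (P (nat_lit 0))))))))) (T.h (T.h (P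 (nat_lit 0)) (T.h (P (nat_lit 0)) (T.h (P (nat_lit 0)) (T.h (T.h (T.h (P (nat_lit 0)) (T.h (T.h (P (nat_lit 0)) (T.h (M (nat_lit 253419053919)) (T.h (P (nat_lit 0)) (M (nat_lit 20333166558379))))) (T.h (P (nat_lit 0)) (T.h (T.h (P (nat_lit 0)) (M (nat_lit 20333166558379))) (P (nat_lit 0)))))) (T.h (T.h (T.h (P (nat_lit 40670503344)) (T.h (P (nat_lit 0)) (T.h (M (nat_lit 288433913811)) (T.h (P (nat_lit 0)) (P (nat_lit 66769944879040)))))) (T.h (P (nat_lit 0)) (T.h (T.h (M (nat_lit 288433913811)) (T.h (P (nat_lit 0)) (M (nat_lit 531817143737399)))) (T.h (P (nat_lit 0)) (P (nat_lit 66769944879040)))))) (T.h (T.h (P (nat_lit 0)) (T.h (T.h (P (nat_lit 0)) (M (nat_lit 11052532259751))) (P (nat_lit 0)))) (T.h (T.h (T.h (M (nat_lit 395729160503)) (T.h (P (nat_lit 0)) (P (nat_lit 17823741760220)))) (T.h (P (nat_lit 0)) (P (nat_lit 17823741760220)))) (T.h (P (nat_lit 0)) (P (nat_lit 3380487536392)))))))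 (T.h (P (nat_lit 0)) (T.h (T.h (T.h (P (nat_lit 0)) (T.h (T.h (P (nat_lit 0)) (T.h (P (nat_lit 727768012776)) (T.h (P (nat_lit 0)) (P (nat_lit 9136769537816))))) (T.h (P (nat_lit 0)) (T.h (T.h (P (nat_lit 0)) (P (nat_lit 26634378365368))) (P (nat_lit 0)))))) (T.h (T.h (T.h (M (nat_lit 1596451631)) (T.h (P (nat_lit 0)) (T.h (P (nat_lit 5395847606856)) (T.h (P (nat_lit 0)) (P (nat_lit 149947839425940)))))) (T.h (P (nat_lit 0)) (T.h (T.h (M (nat_lit 3514381179335)) (T.h (P (nat_lit 0)) (P (nat_lit 188981253053232)))) (T.h (P (nat_lit 0)) (M (nat_lit 38648964409323)))))) (T.h (T.h (P (nat_lit 0)) (T.h (T.h (P (nat_lit 0)) (M (nat_lit 32393866604143))) (P (nat_lit 0)))) (T.h (T.h (T.h (M (nat_lit 153029857539)) (T.h (P (nat_lit 0)) (P (nat_lit 3569882887280)))) (T.h (P (nat_lit 0)) (P (nat_lit 5956022046828)))) (T.h (P (nat_lit 0)) (M (nat_lit 400766289287))))))) (P (nat_lit 0)))))))) (T.h (T.h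 (P (nat_lit 0)) (T.h (P (nat_lit 0)) (T.h (T.h (T.h (T.h (P (nat_lit 4043080720)) (T.h (P (nat_lit 0)) (T.h (P (nat_lit 76053764832)) (T.h (P (nat_lit 0)) (M (nat_lit 1362524155719)))))) (T.h (P (nat_lit 0)) (T.h (T.h (M (nat_lit 19230837631)) (T.h (P (nat_lit 0)) (M (nat_lit 1459718280343)))) (T.h (P (nat_lit 0)) (M (nat_lit 4680391643495)))))) (T.h (T.h (P (nat_lit 0)) (T.h (T.h (P (nat_lit 0)) (T.h (M (nat_lit 2506283606415)) (T.h (P (nat_lit 0)) (P (nat_lit 999414966128))))) (T.h (P (nat_lit 0)) (T.h (T.h (P (nat_lit 0)) (M (nat_lit 47418355319855))) (P (nat_lit 0)))))) (T.h (T.h (T.h (P (nat_lit 76053764832)) (T.h (P (nat_lit 0)) (P (nat_lit 3468602115224)))) (T.h (P (nat_lit 0)) (M (nat_lit 1459718280343)))) (T.h (T.h (P (nat_lit 0)) (T.h (T.h (P (nat_lit 0)) (P (nat_lit 999414966128))) (P (nat_lit 0)))) (M (nat_lit 1362524155719)))))) (T.h (P (nat_lit 0)) (T.h (T.h (T.h (T.h (P (nat_lit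 12826338672)) (T.h (P (nat_lit 0)) (T.h (M (nat_lit 176050019531)) (T.h (P (nat_lit 0)) (P (nat_lit 9781713818288)))))) (T.h (P (nat_lit 0)) (T.h (T.h (M (nat_lit 176050019531)) (T.h (P (nat_lit 0)) (P (nat_lit 52317641204680)))) (T.h (P (nat_lit 0)) (P (nat_lit 9781713818288)))))) (T.h (T.h (P (nat_lit 0)) (T.h (T.h (P (nat_lit 0)) (T.h (M (nat_lit 16589644257023)) (T.h (P (nat_lit 0)) (P (nat_lit 73967113847584))))) (T.h (P (nat_lit 0)) (T.h (T.h (P (nat_lit 0)) (P (nat_lit 73967113847584))) (P (nat_lit 0)))))) (T.h (T.h (T.h (M (nat_lit 1042194133111)) (T.h (P (nat_lit 0)) (M (nat_lit 13621735240555)))) (T.h (P (nat_lit 0)) (M (nat_lit 13621735240555)))) (T.h (T.h (P (nat_lit 0)) (T.h (T.h (P (nat_lit 0)) (P (nat_lit 337089441142576))) (P (nat_lit 0)))) (P (nat_lit 4682323644744)))))) (P (nat_lit 0))))))) et2_8)))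
def et2_10 : T ℤ := (T.h (T.h (P (nat_lit 0)) (T.h (P (nat_lit 0)) (T.h (P (nat_lit 0)) (T.h (P (nat_lit 0)) (T.h (P (nat_lit 0)) (T.h (P (nat_lit 0)) (T.h (T.h (T.h (T.h (P (nat_lit 3333353672)) (T.h (P (nat_lit 0)) (T.h (P (nat_lit 17214930176)) (T.h (P (nat_lit 0)) (M (nat_lit 1350943399791)))))) (T.h (P (nat_lit 0)) (T.h (T.h (P (nat_lit 296371924)) (T.h (P (nat_lit 0)) (P (nat_lit 4578404872240)))) (T.h (P (nat_lit 0)) (M (nat_lit 172155428859)))))) (T.h (T.h (P (nat_lit 0)) (T.h (T.h (P (nat_lit 0)) (T.h (M (nat_lit 57774328071)) (T.h (P (nat_lit 0)) (P (nat_lit 45802236876448))))) (T.h (P (nat_lit 0)) (T.h (T.h (P (nat_lit 0)) (P (nat_lit 16202358005352))) (P (nat_lit 0)))))) (T.h (T.h (T.h (M (nat_lit 50423083887)) (T.h (P (nat_lit 0)) (M (nat_lit 2816155826247)))) (T.h (P (nat_lit 0)) (M (nat_lit 35744610083)))) (T.h (T.h (P (nat_lit 0)) (T.h (T.h (P (nat_lit 0)) (M (nat_lit 14557494903151)))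 (P (nat_lit 0)))) (M (nat_lit 176405896711)))))) (T.h (P (nat_lit 0)) (T.h (T.h (T.h (T.h (P (nat_lit 50487060)) (T.h (P (nat_lit 0)) (T.h (M (nat_lit 94735619447)) (T.h (P (nat_lit 0)) (M (nat_lit 10381926908015)))))) (T.h (P (nat_lit 0)) (T.h (T.h (P (nat_lit 9524428356)) (T.h (P (nat_lit 0)) (M (nat_lit 7496084842007)))) (T.h (P (nat_lit 0)) (P (nat_lit 226498482592)))))) (T.h (T.h (P (nat_lit 0)) (T.h (T.h (P (nat_lit 0)) (T.h (M (nat_lit 83585404271)) (T.h (P (nat_lit 0)) (P (nat_lit 18017656646600))))) (T.h (P (nat_lit 0)) (T.h (T.h (P (nat_lit 0)) (M (nat_lit 9698570609351))) (P (nat_lit 0)))))) (T.h (T.h (T.h (P (nat_lit 11540601344)) (T.h (P (nat_lit 0)) (M (nat_lit 5577363881219)))) (T.h (P (nat_lit 0)) (P (nat_lit 12483011308)))) (T.h (T.h (P (nat_lit 0)) (T.h (T.h (P (nat_lit 0)) (M (nat_lit 17912448098463))) (P (nat_lit 0)))) (M (nat_lit 956302784511)))))) (P (nat_lit 0)))))))))))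 (T.h (T.h (P (nat_lit 0)) (T.h (P (nat_lit 0)) (T.h (P (nat_lit 0)) (T.h (P (nat_lit 0)) (T.h (P (nat_lit 0)) (T.h (T.h (T.h (P (nat_lit 0)) (T.h (T.h (P (nat_lit 0)) (T.h (M (nat_lit 341403236587)) (T.h (P (nat_lit 0)) (M (nat_lit 8370033775519))))) (T.h (P (nat_lit 0)) (T.h (T.h (P (nat_lit 0)) (M (nat_lit 478803469235))) (P (nat_lit 0)))))) (T.h (T.h (T.h (P (nat_lit 13685519536)) (T.h (P (nat_lit 0)) (T.h (P (nat_lit 3876963211888)) (T.h (P (nat_lit 0)) (P (nat_lit 165799799308344)))))) (T.h (P (nat_lit 0)) (T.h (T.h (M (nat_lit 132514974403)) (T.h (P (nat_lit 0)) (M (nat_lit 90810402776675)))) (T.h (P (nat_lit 0)) (P (nat_lit 35506933688216)))))) (T.h (T.h (P (nat_lit 0)) (T.h (T.h (P (nat_lit 0)) (M (nat_lit 3721231947111))) (P (nat_lit 0)))) (T.h (T.h (T.h (M (nat_lit 7700298615)) (T.h (P (nat_lit 0)) (M (nat_lit 107332303278555)))) (T.h (P (nat_lit 0)) (P (nat_lit 23879512789896))))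 (T.h (P (nat_lit 0)) (M (nat_lit 3780894755183))))))) (T.h (P (nat_lit 0)) (T.h (T.h (T.h (P (nat_lit 0)) (T.h (T.h (P (nat_lit 0)) (T.h (P (nat_lit 137343502504)) (T.h (P (nat_lit 0)) (M (nat_lit 11447421283175))))) (T.h (P (nat_lit 0)) (T.h (T.h (P (nat_lit 0)) (P (nat_lit 7974638938680))) (P (nat_lit 0)))))) (T.h (T.h (T.h (P (nat_lit 11698247472)) (T.h (P (nat_lit 0)) (T.h (M (nat_lit 3236523240083)) (T.h (P (nat_lit 0)) (P (nat_lit 12462881181724)))))) (T.h (P (nat_lit 0)) (T.h (T.h (M (nat_lit 327212534687)) (T.h (P (nat_lit 0)) (P (nat_lit 73839712788128)))) (T.h (P (nat_lit 0)) (P (nat_lit 12468435455704)))))) (T.h (T.h (P (nat_lit 0)) (T.h (T.h (P (nat_lit 0)) (P (nat_lit 7114985703808))) (P (nat_lit 0)))) (T.h (T.h (T.h (P (nat_lit 16701781372)) (T.h (P (nat_lit 0)) (P (nat_lit 79718722447276)))) (T.h (P (nat_lit 0)) (P (nat_lit 21171493037508)))) (T.h (P (nat_lit 0)) (P (nat_lit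 16437340921376))))))) (P (nat_lit 0)))))))))) et2_9))
def et2_11 : T ℤ := (T.h (T.h (T.h (T.h (T.h (P (nat_lit 0)) (T.h (P (nat_lit 9513419828)) (T.h (P (nat_lit 0)) (T.h (M (nat_lit 105546370695)) (T.h (P (nat_lit 0)) (P (nat_lit 723979793760))))))) (T.h (P (nat_lit 0)) (T.h (T.h (P (nat_lit 0)) (T.h (M (nat_lit 267027739299)) (T.h (P (nat_lit 0)) (M (nat_lit 4481405221607))))) (T.h (P (nat_lit 0)) (T.h (T.h (P (nat_lit 0)) (P (nat_lit 20490241662672))) (P (nat_lit 0))))))) (T.h (T.h (P (nat_lit 0)) (T.h (T.h (P (nat_lit 195544013004)) (T.h (P (nat_lit 0)) (M (nat_lit 4725616990791)))) (T.h (P (nat_lit 0)) (M (nat_lit 15802316971875))))) (T.h (T.h (T.h (P (nat_lit 0)) (T.h (P (nat_lit 72344896812)) (T.h (P (nat_lit 0)) (P (nat_lit 10964633238356))))) (T.h (P (nat_lit 0)) (T.h (T.h (P (nat_lit 0)) (M (nat_lit 17919956247971))) (P (nat_lit 0))))) (T.h (T.h (P (nat_lit 0)) (P (nat_lit 1590284538348)))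 (T.h (T.h (T.h (P (nat_lit 0)) (P (nat_lit 467672306624))) (P (nat_lit 0))) (P (nat_lit 0))))))) (T.h (P (nat_lit 0)) (T.h (T.h (T.h (T.h (P (nat_lit 0)) (T.h (M (nat_lit 1596451631)) (T.h (P (nat_lit 0)) (T.h (M (nat_lit 153029857539)) (T.h (P (nat_lit 0)) (M (nat_lit 400766289287))))))) (T.h (P (nat_lit 0)) (T.h (T.h (P (nat_lit 0)) (T.h (P (nat_lit 5395847606856)) (T.h (P (nat_lit 0)) (P (nat_lit 3569882887280))))) (T.h (P (nat_lit 0)) (T.h (T.h (P (nat_lit 0)) (P (nat_lit 149947839425940))) (P (nat_lit 0))))))) (T.h (T.h (P (nat_lit 0)) (T.h (T.h (P (nat_lit 727768012776)) (T.h (P (nat_lit 0)) (M (nat_lit 32393866604143)))) (T.h (P (nat_lit 0)) (P (nat_lit 9136769537816))))) (T.h (T.h (T.h (P (nat_lit 0)) (T.h (M (nat_lit 3514381179335)) (T.h (P (nat_lit 0)) (P (nat_lit 5956022046828))))) (T.h (P (nat_lit 0)) (T.h (T.h (P (nat_lit 0)) (P (nat_lit 188981253053232))) (P (nat_lit 0)))))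 (T.h (T.h (P (nat_lit 0)) (P (nat_lit 26634378365368))) (T.h (T.h (T.h (P (nat_lit 0)) (M (nat_lit 38648964409323))) (P (nat_lit 0))) (P (nat_lit 0))))))) (P (nat_lit 0))))) (T.h (T.h (P (nat_lit 0)) (T.h (T.h (T.h (P (nat_lit 0)) (T.h (T.h (M (nat_lit 34718677063)) (T.h (P (nat_lit 0)) (T.h (P (nat_lit 1453155499808)) (T.h (P (nat_lit 0)) (P (nat_lit 63832030229928)))))) (T.h (P (nat_lit 0)) (T.h (T.h (M (nat_lit 1590543719871)) (T.h (P (nat_lit 0)) (P (nat_lit 52172963093768)))) (T.h (P (nat_lit 0)) (P (nat_lit 51088783886224))))))) (T.h (T.h (T.h (P (nat_lit 0)) (T.h (P (nat_lit 239597475328)) (T.h (P (nat_lit 0)) (M (nat_lit 1747492235151))))) (T.h (P (nat_lit 0)) (T.h (T.h (P (nat_lit 0)) (P (nat_lit 33874373366968))) (P (nat_lit 0))))) (T.h (T.h (P (nat_lit 0)) (T.h (T.h (P (nat_lit 1375515565912)) (T.h (P (nat_lit 0)) (M (nat_lit 61926766191323)))) (T.h (P (nat_lit 0)) (P (nat_lit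 20835010760328))))) (T.h (T.h (T.h (P (nat_lit 0)) (M (nat_lit 2079064558303))) (P (nat_lit 0))) (T.h (T.h (P (nat_lit 0)) (M (nat_lit 185582541956187))) (P (nat_lit 0))))))) (P (nat_lit 0)))) (T.h (T.h (T.h (T.h (T.h (P (nat_lit 0)) (T.h (M (nat_lit 6660739927)) (T.h (P (nat_lit 0)) (T.h (M (nat_lit 20441114543)) (T.h (P (nat_lit 0)) (P (nat_lit 1464291475464))))))) (T.h (P (nat_lit 0)) (T.h (T.h (P (nat_lit 0)) (T.h (M (nat_lit 470797929619)) (T.h (P (nat_lit 0)) (P (nat_lit 27115016503624))))) (T.h (P (nat_lit 0)) (T.h (T.h (P (nat_lit 0)) (M (nat_lit 25956017017323))) (P (nat_lit 0))))))) (T.h (T.h (P (nat_lit 0)) (T.h (T.h (M (nat_lit 40613075183)) (T.h (P (nat_lit 0)) (P (nat_lit 6074856968224)))) (T.h (P (nat_lit 0)) (P (nat_lit 23766506178296))))) (T.h (T.h (T.h (P (nat_lit 0)) (T.h (M (nat_lit 21958583427)) (T.h (P (nat_lit 0)) (P (nat_lit 18015403513848))))) (T.h (P (nat_lit 0))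 (T.h (T.h (P (nat_lit 0)) (M (nat_lit 76181262370715))) (P (nat_lit 0))))) (T.h (T.h (P (nat_lit 0)) (P (nat_lit 5268581892992))) (T.h (T.h (T.h (P (nat_lit 0)) (P (nat_lit 16856605841260))) (P (nat_lit 0))) (P (nat_lit 0))))))) (P (nat_lit 0))) (P (nat_lit 0)))))
def et2_12 : T ℤ := (T.h (T.h (P (nat_lit 0)) (T.h (P (nat_lit 0)) (T.h (T.h (T.h (T.h (P (nat_lit 0)) (T.h (P (nat_lit 40670503344)) (T.h (P (nat_lit 0)) (T.h (M (nat_lit 395729160503)) (T.h (P (nat_lit 0)) (P (nat_lit 3380487536392))))))) (T.h (P (nat_lit 0)) (T.h (T.h (P (nat_lit 0)) (T.h (M (nat_lit 288433913811)) (T.h (P (nat_lit 0)) (P (nat_lit 17823741760220))))) (T.h (P (nat_lit 0)) (T.h (T.h (P (nat_lit 0)) (P (nat_lit 66769944879040))) (P (nat_lit 0))))))) (T.h (T.h (P (nat_lit 0)) (T.h (T.h (M (nat_lit 253419053919)) (T.h (P (nat_lit 0)) (M (nat_lit 11052532259751)))) (T.h (P (nat_lit 0)) (M (nat_lit 20333166558379)))))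 (T.h (T.h (T.h (P (nat_lit 0)) (T.h (M (nat_lit 288433913811)) (T.h (P (nat_lit 0)) (P (nat_lit 17823741760220))))) (T.h (P (nat_lit 0)) (T.h (T.h (P (nat_lit 0)) (M (nat_lit 531817143737399))) (P (nat_lit 0))))) (T.h (T.h (P (nat_lit 0)) (M (nat_lit 20333166558379))) (T.h (T.h (T.h (P (nat_lit 0)) (P (nat_lit 66769944879040))) (P (nat_lit 0))) (P (nat_lit 0))))))) (T.h (P (nat_lit 0)) (T.h (T.h (T.h (T.h (P (nat_lit 0)) (T.h (M (nat_lit 96630925567)) (T.h (P (nat_lit 0)) (T.h (P (nat_lit 2629170880256)) (T.h (P (nat_lit 0)) (M (nat_lit 71960952311191))))))) (T.h (P (nat_lit 0)) (T.h (T.h (P (nat_lit 0)) (T.h (M (nat_lit 2417767588307)) (T.h (P (nat_lit 0)) (P (nat_lit 21191371185344))))) (T.h (P (nat_lit 0)) (T.h (T.h (P (nat_lit 0)) (P (nat_lit 15562891216516))) (P (nat_lit 0))))))) (T.h (T.h (P (nat_lit 0)) (T.h (T.h (M (nat_lit 1266585590367)) (T.h (P (nat_lit 0)) (M (nat_lit 134371108547119))))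 (T.h (P (nat_lit 0)) (M (nat_lit 33802341600055))))) (T.h (T.h (T.h (P (nat_lit 0)) (T.h (M (nat_lit 2417767588307)) (T.h (P (nat_lit 0)) (P (nat_lit 21191371185344))))) (T.h (P (nat_lit 0)) (T.h (T.h (P (nat_lit 0)) (P (nat_lit 300850976455512))) (P (nat_lit 0))))) (T.h (T.h (P (nat_lit 0)) (M (nat_lit 33802341600055))) (T.h (T.h (T.h (P (nat_lit 0)) (P (nat_lit 15562891216516))) (P (nat_lit 0))) (P (nat_lit 0))))))) (P (nat_lit 0))))))) (T.h (T.h (P (nat_lit 0)) (T.h (T.h (T.h (P (nat_lit 0)) (T.h (T.h (M (nat_lit 1203563263)) (T.h (P (nat_lit 0)) (T.h (M (nat_lit 654943645667)) (T.h (P (nat_lit 0)) (M (nat_lit 83068366274799)))))) (T.h (P (nat_lit 0)) (T.h (T.h (M (nat_lit 1949463888975)) (T.h (P (nat_lit 0)) (M (nat_lit 42361588142019)))) (T.h (P (nat_lit 0)) (P (nat_lit 6259888814720))))))) (T.h (T.h (T.h (P (nat_lit 0)) (T.h (M (nat_lit 94551436559)) (T.h (P (nat_lit 0)) (M (nat_lit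 1170405988907))))) (T.h (P (nat_lit 0)) (T.h (T.h (P (nat_lit 0)) (P (nat_lit 36567948759548))) (P (nat_lit 0))))) (T.h (T.h (P (nat_lit 0)) (T.h (T.h (P (nat_lit 784516329408)) (T.h (P (nat_lit 0)) (M (nat_lit 8417302227803)))) (T.h (P (nat_lit 0)) (M (nat_lit 163374340168171))))) (T.h (T.h (T.h (P (nat_lit 0)) (M (nat_lit 6482578000123))) (P (nat_lit 0))) (T.h (T.h (P (nat_lit 0)) (P (nat_lit 177816366867728))) (P (nat_lit 0))))))) (T.h (P (nat_lit 0)) (T.h (T.h (T.h (P (nat_lit 0)) (T.h (T.h (M (nat_lit 96630925567)) (T.h (P (nat_lit 0)) (T.h (M (nat_lit 2417767588307)) (T.h (P (nat_lit 0)) (P (nat_lit 15562891216516)))))) (T.h (P (nat_lit 0)) (T.h (T.h (P (nat_lit 2629170880256)) (T.h (P (nat_lit 0)) (P (nat_lit 21191371185344)))) (T.h (P (nat_lit 0)) (M (nat_lit 71960952311191))))))) (T.h (T.h (T.h (P (nat_lit 0)) (T.h (M (nat_lit 1266585590367)) (T.h (P (nat_lit 0)) (M (nat_lit 33802341600055)))))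 (T.h (P (nat_lit 0)) (T.h (T.h (P (nat_lit 0)) (M (nat_lit 134371108547119))) (P (nat_lit 0))))) (T.h (T.h (P (nat_lit 0)) (T.h (T.h (M (nat_lit 2417767588307)) (T.h (P (nat_lit 0)) (P (nat_lit 300850976455512)))) (T.h (P (nat_lit 0)) (P (nat_lit 21191371185344))))) (T.h (T.h (T.h (P (nat_lit 0)) (M (nat_lit 33802341600055))) (P (nat_lit 0))) (T.h (T.h (P (nat_lit 0)) (P (nat_lit 15562891216516))) (P (nat_lit 0))))))) (P (nat_lit 0)))))) et2_11))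
def et2_13 : T ℤ := (T.h (T.h (P (nat_lit 0)) (T.h (P (nat_lit 0)) (T.h (P (nat_lit 0)) (T.h (P (nat_lit 0)) (T.h (T.h (T.h (T.h (P (nat_lit 0)) (T.h (M (nat_lit 1203563263)) (T.h (P (nat_lit 0)) (T.h (M (nat_lit 1949463888975)) (T.h (P (nat_lit 0)) (P (nat_lit 6259888814720))))))) (T.h (P (nat_lit 0)) (T.h (T.h (P (nat_lit 0)) (T.h (M (nat_lit 654943645667)) (T.h (P (nat_lit 0)) (M (nat_lit 42361588142019))))) (T.h (P (nat_lit 0)) (T.h (T.h (P (nat_lit 0)) (M (nat_lit 83068366274799))) (P (nat_lit 0))))))) (T.h (T.h (P (nat_lit 0)) (T.h (T.h (M (nat_lit 94551436559)) (T.h (P (nat_lit 0)) (P (nat_lit 36567948759548)))) (T.h (P (nat_lit 0)) (M (nat_lit 1170405988907))))) (T.h (T.h (T.h (P (nat_lit 0)) (T.h (P (nat_lit 784516329408)) (T.h (P (nat_lit 0)) (M (nat_lit 163374340168171))))) (T.h (P (nat_lit 0)) (T.h (T.h (P (nat_lit 0)) (M (nat_lit 8417302227803))) (P (nat_lit 0))))) (T.h (T.h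 (P (nat_lit 0)) (M (nat_lit 6482578000123))) (T.h (T.h (T.h (P (nat_lit 0)) (P (nat_lit 177816366867728))) (P (nat_lit 0))) (P (nat_lit 0))))))) (T.h (P (nat_lit 0)) (T.h (T.h (T.h (T.h (P (nat_lit 0)) (T.h (M (nat_lit 34718677063)) (T.h (P (nat_lit 0)) (T.h (M (nat_lit 1590543719871)) (T.h (P (nat_lit 0)) (P (nat_lit 51088783886224))))))) (T.h (P (nat_lit 0)) (T.h (T.h (P (nat_lit 0)) (T.h (P (nat_lit 1453155499808)) (T.h (P (nat_lit 0)) (P (nat_lit 52172963093768))))) (T.h (P (nat_lit 0)) (T.h (T.h (P (nat_lit 0)) (P (nat_lit 63832030229928))) (P (nat_lit 0))))))) (T.h (T.h (P (nat_lit 0)) (T.h (T.h (P (nat_lit 239597475328)) (T.h (P (nat_lit 0)) (P (nat_lit 33874373366968)))) (T.h (P (nat_lit 0)) (M (nat_lit 1747492235151))))) (T.h (T.h (T.h (P (nat_lit 0)) (T.h (P (nat_lit 1375515565912)) (T.h (P (nat_lit 0)) (P (nat_lit 20835010760328))))) (T.h (P (nat_lit 0)) (T.h (T.h (P (nat_lit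 0)) (M (nat_lit 61926766191323))) (P (nat_lit 0))))) (T.h (T.h (P (nat_lit 0)) (M (nat_lit 2079064558303))) (T.h (T.h (T.h (P (nat_lit 0)) (M (nat_lit 185582541956187))) (P (nat_lit 0))) (P (nat_lit 0))))))) (P (nat_lit 0))))))))) (T.h (T.h (P (nat_lit 0)) (T.h (P (nat_lit 0)) (T.h (P (nat_lit 0)) (T.h (T.h (T.h (P (nat_lit 0)) (T.h (T.h (P (nat_lit 40670503344)) (T.h (P (nat_lit 0)) (T.h (M (nat_lit 288433913811)) (T.h (P (nat_lit 0)) (P (nat_lit 66769944879040)))))) (T.h (P (nat_lit 0)) (T.h (T.h (M (nat_lit 395729160503)) (T.h (P (nat_lit 0)) (P (nat_lit 17823741760220)))) (T.h (P (nat_lit 0)) (P (nat_lit 3380487536392))))))) (T.h (T.h (T.h (P (nat_lit 0)) (T.h (M (nat_lit 253419053919)) (T.h (P (nat_lit 0)) (M (nat_lit 20333166558379))))) (T.h (P (nat_lit 0)) (T.h (T.h (P (nat_lit 0)) (M (nat_lit 11052532259751))) (P (nat_lit 0))))) (T.h (T.h (P (nat_lit 0)) (T.h (T.h (M (nat_lit 288433913811))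 (T.h (P (nat_lit 0)) (M (nat_lit 531817143737399)))) (T.h (P (nat_lit 0)) (P (nat_lit 17823741760220))))) (T.h (T.h (T.h (P (nat_lit 0)) (M (nat_lit 20333166558379))) (P (nat_lit 0))) (T.h (T.h (P (nat_lit 0)) (P (nat_lit 66769944879040))) (P (nat_lit 0))))))) (T.h (P (nat_lit 0)) (T.h (T.h (T.h (P (nat_lit 0)) (T.h (T.h (M (nat_lit 1596451631)) (T.h (P (nat_lit 0)) (T.h (P (nat_lit 5395847606856)) (T.h (P (nat_lit 0)) (P (nat_lit 149947839425940)))))) (T.h (P (nat_lit 0)) (T.h (T.h (M (nat_lit 153029857539)) (T.h (P (nat_lit 0)) (P (nat_lit 3569882887280)))) (T.h (P (nat_lit 0)) (M (nat_lit 400766289287))))))) (T.h (T.h (T.h (P (nat_lit 0)) (T.h (P (nat_lit 727768012776)) (T.h (P (nat_lit 0)) (P (nat_lit 9136769537816))))) (T.h (P (nat_lit 0)) (T.h (T.h (P (nat_lit 0)) (M (nat_lit 32393866604143))) (P (nat_lit 0))))) (T.h (T.h (P (nat_lit 0)) (T.h (T.h (M (nat_lit 3514381179335)) (T.h (P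 (nat_lit 0)) (P (nat_lit 188981253053232)))) (T.h (P (nat_lit 0)) (P (nat_lit 5956022046828))))) (T.h (T.h (T.h (P (nat_lit 0)) (P (nat_lit 26634378365368))) (P (nat_lit 0))) (T.h (T.h (P (nat_lit 0)) (M (nat_lit 38648964409323))) (P (nat_lit 0))))))) (P (nat_lit 0)))))))) et2_12))
def et2_14 : T ℤ := (T.h (T.h (P (nat_lit 0)) (T.h (T.h (T.h (P (nat_lit 0)) (T.h (T.h (P (nat_lit 0)) (T.h (M (nat_lit 94551436559)) (T.h (P (nat_lit 0)) (M (nat_lit 1170405988907))))) (T.h (P (nat_lit 0)) (T.h (T.h (P (nat_lit 0)) (M (nat_lit 6482578000123))) (P (nat_lit 0)))))) (T.h (T.h (T.h (M (nat_lit 1203563263)) (T.h (P (nat_lit 0)) (T.h (M (nat_lit 654943645667)) (T.h (P (nat_lit 0)) (M (nat_lit 83068366274799)))))) (T.h (P (nat_lit 0)) (T.h (T.h (P (nat_lit 784516329408)) (T.h (P (nat_lit 0)) (M (nat_lit 8417302227803)))) (T.h (P (nat_lit 0)) (P (nat_lit 177816366867728)))))) (T.h (T.h (P (nat_lit 0))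 (T.h (T.h (P (nat_lit 0)) (P (nat_lit 36567948759548))) (P (nat_lit 0)))) (T.h (T.h (T.h (M (nat_lit 1949463888975)) (T.h (P (nat_lit 0)) (M (nat_lit 42361588142019)))) (T.h (P (nat_lit 0)) (M (nat_lit 163374340168171)))) (T.h (P (nat_lit 0)) (P (nat_lit 6259888814720))))))) (T.h (P (nat_lit 0)) (T.h (T.h (T.h (P (nat_lit 0)) (T.h (T.h (P (nat_lit 0)) (T.h (M (nat_lit 1266585590367)) (T.h (P (nat_lit 0)) (M (nat_lit 33802341600055))))) (T.h (P (nat_lit 0)) (T.h (T.h (P (nat_lit 0)) (M (nat_lit 33802341600055))) (P (nat_lit 0)))))) (T.h (T.h (T.h (M (nat_lit 96630925567)) (T.h (P (nat_lit 0)) (T.h (M (nat_lit 2417767588307)) (T.h (P (nat_lit 0)) (P (nat_lit 15562891216516)))))) (T.h (P (nat_lit 0)) (T.h (T.h (M (nat_lit 2417767588307)) (T.h (P (nat_lit 0)) (P (nat_lit 300850976455512)))) (T.h (P (nat_lit 0)) (P (nat_lit 15562891216516)))))) (T.h (T.h (P (nat_lit 0)) (T.h (T.h (P (nat_lit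 0)) (M (nat_lit 134371108547119))) (P (nat_lit 0)))) (T.h (T.h (T.h (P (nat_lit 2629170880256)) (T.h (P (nat_lit 0)) (P (nat_lit 21191371185344)))) (T.h (P (nat_lit 0)) (P (nat_lit 21191371185344)))) (T.h (P (nat_lit 0)) (M (nat_lit 71960952311191))))))) (P (nat_lit 0)))))) (T.h (T.h (T.h (T.h (T.h (P (nat_lit 4539241056)) (T.h (P (nat_lit 0)) (T.h (M (nat_lit 9739794751)) (T.h (P (nat_lit 0)) (M (nat_lit 296326568767)))))) (T.h (P (nat_lit 0)) (T.h (T.h (M (nat_lit 37555925831)) (T.h (P (nat_lit 0)) (P (nat_lit 3105132012956)))) (T.h (P (nat_lit 0)) (P (nat_lit 3910823480664)))))) (T.h (T.h (P (nat_lit 0)) (T.h (T.h (P (nat_lit 0)) (T.h (M (nat_lit 125039657983)) (T.h (P (nat_lit 0)) (P (nat_lit 5064794112192))))) (T.h (P (nat_lit 0)) (T.h (T.h (P (nat_lit 0)) (P (nat_lit 21674936711304))) (P (nat_lit 0)))))) (T.h (T.h (T.h (M (nat_lit 37555925831)) (T.h (P (nat_lit 0)) (P (nat_lit 3105132012956))))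 (T.h (P (nat_lit 0)) (P (nat_lit 7433778965944)))) (T.h (T.h (P (nat_lit 0)) (T.h (T.h (P (nat_lit 0)) (P (nat_lit 21674936711304))) (P (nat_lit 0)))) (P (nat_lit 3910823480664)))))) (T.h (P (nat_lit 0)) (T.h (T.h (T.h (T.h (P (nat_lit 12826338672)) (T.h (P (nat_lit 0)) (T.h (M (nat_lit 1042194133111)) (T.h (P (nat_lit 0)) (P (nat_lit 4682323644744)))))) (T.h (P (nat_lit 0)) (T.h (T.h (M (nat_lit 176050019531)) (T.h (P (nat_lit 0)) (M (nat_lit 13621735240555)))) (T.h (P (nat_lit 0)) (P (nat_lit 9781713818288)))))) (T.h (T.h (P (nat_lit 0)) (T.h (T.h (P (nat_lit 0)) (T.h (M (nat_lit 16589644257023)) (T.h (P (nat_lit 0)) (P (nat_lit 337089441142576))))) (T.h (P (nat_lit 0)) (T.h (T.h (P (nat_lit 0)) (P (nat_lit 73967113847584))) (P (nat_lit 0)))))) (T.h (T.h (T.h (M (nat_lit 176050019531)) (T.h (P (nat_lit 0)) (M (nat_lit 13621735240555)))) (T.h (P (nat_lit 0)) (P (nat_lit 52317641204680))))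 (T.h (T.h (P (nat_lit 0)) (T.h (T.h (P (nat_lit 0)) (P (nat_lit 73967113847584))) (P (nat_lit 0)))) (P (nat_lit 9781713818288)))))) (P (nat_lit 0))))) (T.h (T.h (P (nat_lit 0)) (T.h (T.h (T.h (P (nat_lit 0)) (T.h (T.h (P (nat_lit 0)) (T.h (M (nat_lit 30164762991)) (T.h (P (nat_lit 0)) (M (nat_lit 4456439270879))))) (T.h (P (nat_lit 0)) (T.h (T.h (P (nat_lit 0)) (P (nat_lit 5378482398760))) (P (nat_lit 0)))))) (T.h (T.h (T.h (P (nat_lit 74994242096)) (T.h (P (nat_lit 0)) (T.h (M (nat_lit 4462862008103)) (T.h (P (nat_lit 0)) (P (nat_lit 49193606610208)))))) (T.h (P (nat_lit 0)) (T.h (T.h (P (nat_lit 4632771269904)) (T.h (P (nat_lit 0)) (M (nat_lit 132920093212991)))) (T.h (P (nat_lit 0)) (M (nat_lit 161737641034055)))))) (T.h (T.h (P (nat_lit 0)) (T.h (T.h (P (nat_lit 0)) (M (nat_lit 53180084113327))) (P (nat_lit 0)))) (T.h (T.h (T.h (P (nat_lit 292718243812)) (T.h (P (nat_lit 0)) (M (nat_lit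 52561493946263)))) (T.h (P (nat_lit 0)) (M (nat_lit 130575645271459)))) (T.h (P (nat_lit 0)) (P (nat_lit 37190065720004))))))) (P (nat_lit 0)))) (T.h (T.h (T.h (T.h (T.h (P (nat_lit 600236308)) (T.h (P (nat_lit 0)) (T.h (M (nat_lit 7384226639)) (T.h (P (nat_lit 0)) (M (nat_lit 90360999051)))))) (T.h (P (nat_lit 0)) (T.h (T.h (M (nat_lit 166113717547)) (T.h (P (nat_lit 0)) (P (nat_lit 8695408413220)))) (T.h (P (nat_lit 0)) (P (nat_lit 9055438534364)))))) (T.h (T.h (P (nat_lit 0)) (T.h (T.h (P (nat_lit 0)) (T.h (M (nat_lit 59424811223)) (T.h (P (nat_lit 0)) (P (nat_lit 11604038866896))))) (T.h (P (nat_lit 0)) (T.h (T.h (P (nat_lit 0)) (M (nat_lit 106926965327527))) (P (nat_lit 0)))))) (T.h (T.h (T.h (P (nat_lit 24421360140)) (T.h (P (nat_lit 0)) (M (nat_lit 2648628651055)))) (T.h (P (nat_lit 0)) (P (nat_lit 7084259756664)))) (T.h (T.h (P (nat_lit 0)) (T.h (T.h (P (nat_lit 0)) (P (nat_lit 75456885959928)))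 (P (nat_lit 0)))) (M (nat_lit 5040052325435)))))) (P (nat_lit 0))) (P (nat_lit 0))))))
def et2_15 : T ℤ := (T.h (T.h (P (nat_lit 0)) (T.h (P (nat_lit 0)) (T.h (P (nat_lit 0)) (T.h (P (nat_lit 0)) (T.h (T.h (T.h (T.h (P (nat_lit 4539241056)) (T.h (P (nat_lit 0)) (T.h (M (nat_lit 37555925831)) (T.h (P (nat_lit 0)) (P (nat_lit 3910823480664)))))) (T.h (P (nat_lit 0)) (T.h (T.h (M (nat_lit 9739794751)) (T.h (P (nat_lit 0)) (P (nat_lit 3105132012956)))) (T.h (P (nat_lit 0)) (M (nat_lit 296326568767)))))) (T.h (T.h (P (nat_lit 0)) (T.h (T.h (P (nat_lit 0)) (T.h (M (nat_lit 125039657983)) (T.h (P (nat_lit 0)) (P (nat_lit 21674936711304))))) (T.h (P (nat_lit 0)) (T.h (T.h (P (nat_lit 0)) (P (nat_lit 5064794112192))) (P (nat_lit 0)))))) (T.h (T.h (T.h (M (nat_lit 37555925831)) (T.h (P (nat_lit 0)) (P (nat_lit 7433778965944)))) (T.h (P (nat_lit 0)) (P (nat_lit 3105132012956)))) (T.h (T.h (P (nat_lit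 0)) (T.h (T.h (P (nat_lit 0)) (P (nat_lit 21674936711304))) (P (nat_lit 0)))) (P (nat_lit 3910823480664)))))) (T.h (P (nat_lit 0)) (T.h (T.h (T.h (T.h (P (nat_lit 600236308)) (T.h (P (nat_lit 0)) (T.h (M (nat_lit 166113717547)) (T.h (P (nat_lit 0)) (P (nat_lit 9055438534364)))))) (T.h (P (nat_lit 0)) (T.h (T.h (M (nat_lit 7384226639)) (T.h (P (nat_lit 0)) (P (nat_lit 8695408413220)))) (T.h (P (nat_lit 0)) (M (nat_lit 90360999051)))))) (T.h (T.h (P (nat_lit 0)) (T.h (T.h (P (nat_lit 0)) (T.h (M (nat_lit 59424811223)) (T.h (P (nat_lit 0)) (M (nat_lit 106926965327527))))) (T.h (P (nat_lit 0)) (T.h (T.h (P (nat_lit 0)) (P (nat_lit 11604038866896))) (P (nat_lit 0)))))) (T.h (T.h (T.h (P (nat_lit 24421360140)) (T.h (P (nat_lit 0)) (P (nat_lit 7084259756664)))) (T.h (P (nat_lit 0)) (M (nat_lit 2648628651055)))) (T.h (T.h (P (nat_lit 0)) (T.h (T.h (P (nat_lit 0)) (P (nat_lit 75456885959928))) (P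 (nat_lit 0)))) (M (nat_lit 5040052325435)))))) (P (nat_lit 0))))))))) (T.h (T.h (P (nat_lit 0)) (T.h (P (nat_lit 0)) (T.h (P (nat_lit 0)) (T.h (T.h (T.h (P (nat_lit 0)) (T.h (T.h (P (nat_lit 0)) (T.h (M (nat_lit 94551436559)) (T.h (P (nat_lit 0)) (M (nat_lit 6482578000123))))) (T.h (P (nat_lit 0)) (T.h (T.h (P (nat_lit 0)) (M (nat_lit 1170405988907))) (P (nat_lit 0)))))) (T.h (T.h (T.h (M (nat_lit 1203563263)) (T.h (P (nat_lit 0)) (T.h (P (nat_lit 784516329408)) (T.h (P (nat_lit 0)) (P (nat_lit 177816366867728)))))) (T.h (P (nat_lit 0)) (T.h (T.h (M (nat_lit 654943645667)) (T.h (P (nat_lit 0)) (M (nat_lit 8417302227803)))) (T.h (P (nat_lit 0)) (M (nat_lit 83068366274799)))))) (T.h (T.h (P (nat_lit 0)) (T.h (T.h (P (nat_lit 0)) (P (nat_lit 36567948759548))) (P (nat_lit 0)))) (T.h (T.h (T.h (M (nat_lit 1949463888975)) (T.h (P (nat_lit 0)) (M (nat_lit 163374340168171)))) (T.h (P (nat_lit 0))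 (M (nat_lit 42361588142019)))) (T.h (P (nat_lit 0)) (P (nat_lit 6259888814720))))))) (T.h (P (nat_lit 0)) (T.h (T.h (T.h (P (nat_lit 0)) (T.h (T.h (P (nat_lit 0)) (T.h (M (nat_lit 30164762991)) (T.h (P (nat_lit 0)) (P (nat_lit 5378482398760))))) (T.h (P (nat_lit 0)) (T.h (T.h (P (nat_lit 0)) (M (nat_lit 4456439270879))) (P (nat_lit 0)))))) (T.h (T.h (T.h (P (nat_lit 74994242096)) (T.h (P (nat_lit 0)) (T.h (P (nat_lit 4632771269904)) (T.h (P (nat_lit 0)) (M (nat_lit 161737641034055)))))) (T.h (P (nat_lit 0)) (T.h (T.h (M (nat_lit 4462862008103)) (T.h (P (nat_lit 0)) (M (nat_lit 132920093212991)))) (T.h (P (nat_lit 0)) (P (nat_lit 49193606610208)))))) (T.h (T.h (P (nat_lit 0)) (T.h (T.h (P (nat_lit 0)) (M (nat_lit 53180084113327))) (P (nat_lit 0)))) (T.h (T.h (T.h (P (nat_lit 292718243812)) (T.h (P (nat_lit 0)) (M (nat_lit 130575645271459)))) (T.h (P (nat_lit 0)) (M (nat_lit 52561493946263))))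 (T.h (P (nat_lit 0)) (P (nat_lit 37190065720004))))))) (P (nat_lit 0)))))))) (T.h (T.h (P (nat_lit 0)) (T.h (P (nat_lit 0)) (T.h (T.h (T.h (T.h (P (nat_lit 4043080720)) (T.h (P (nat_lit 0)) (T.h (P (nat_lit 76053764832)) (T.h (P (nat_lit 0)) (M (nat_lit 1362524155719)))))) (T.h (P (nat_lit 0)) (T.h (T.h (P (nat_lit 76053764832)) (T.h (P (nat_lit 0)) (P (nat_lit 3468602115224)))) (T.h (P (nat_lit 0)) (M (nat_lit 1362524155719)))))) (T.h (T.h (P (nat_lit 0)) (T.h (T.h (P (nat_lit 0)) (T.h (M (nat_lit 2506283606415)) (T.h (P (nat_lit 0)) (P (nat_lit 999414966128))))) (T.h (P (nat_lit 0)) (T.h (T.h (P (nat_lit 0)) (P (nat_lit 999414966128))) (P (nat_lit 0)))))) (T.h (T.h (T.h (M (nat_lit 19230837631)) (T.h (P (nat_lit 0)) (M (nat_lit 1459718280343)))) (T.h (P (nat_lit 0)) (M (nat_lit 1459718280343)))) (T.h (T.h (P (nat_lit 0)) (T.h (T.h (P (nat_lit 0)) (M (nat_lit 47418355319855))) (P (nat_lit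 0)))) (M (nat_lit 4680391643495)))))) (T.h (P (nat_lit 0)) (T.h (T.h (T.h (T.h (P (nat_lit 12826338672)) (T.h (P (nat_lit 0)) (T.h (M (nat_lit 176050019531)) (T.h (P (nat_lit 0)) (P (nat_lit 9781713818288)))))) (T.h (P (nat_lit 0)) (T.h (T.h (M (nat_lit 1042194133111)) (T.h (P (nat_lit 0)) (M (nat_lit 13621735240555)))) (T.h (P (nat_lit 0)) (P (nat_lit 4682323644744)))))) (T.h (T.h (P (nat_lit 0)) (T.h (T.h (P (nat_lit 0)) (T.h (M (nat_lit 16589644257023)) (T.h (P (nat_lit 0)) (P (nat_lit 73967113847584))))) (T.h (P (nat_lit 0)) (T.h (T.h (P (nat_lit 0)) (P (nat_lit 337089441142576))) (P (nat_lit 0)))))) (T.h (T.h (T.h (M (nat_lit 176050019531)) (T.h (P (nat_lit 0)) (P (nat_lit 52317641204680)))) (T.h (P (nat_lit 0)) (M (nat_lit 13621735240555)))) (T.h (T.h (P (nat_lit 0)) (T.h (T.h (P (nat_lit 0)) (P (nat_lit 73967113847584))) (P (nat_lit 0)))) (P (nat_lit 9781713818288)))))) (P (nat_lit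 0))))))) et2_14)))
def et2_16 : T ℤ := (T.h (T.h (T.h (T.h (T.h (P (nat_lit 0)) (T.h (P (nat_lit 9513419828)) (T.h (P (nat_lit 0)) (T.h (M (nat_lit 105546370695)) (T.h (P (nat_lit 0)) (P (nat_lit 723979793760))))))) (T.h (P (nat_lit 0)) (T.h (T.h (P (nat_lit 0)) (T.h (P (nat_lit 72344896812)) (T.h (P (nat_lit 0)) (P (nat_lit 10964633238356))))) (T.h (P (nat_lit 0)) (T.h (T.h (P (nat_lit 0)) (P (nat_lit 467672306624))) (P (nat_lit 0))))))) (T.h (T.h (P (nat_lit 0)) (T.h (T.h (P (nat_lit 195544013004)) (T.h (P (nat_lit 0)) (M (nat_lit 4725616990791)))) (T.h (P (nat_lit 0)) (P (nat_lit 1590284538348))))) (T.h (T.h (T.h (P (nat_lit 0)) (T.h (M (nat_lit 267027739299)) (T.h (P (nat_lit 0)) (M (nat_lit 4481405221607))))) (T.h (P (nat_lit 0)) (T.h (T.h (P (nat_lit 0)) (M (nat_lit 17919956247971))) (P (nat_lit 0))))) (T.h (T.h (P (nat_lit 0)) (M (nat_lit 15802316971875))) (T.h (T.h (T.h (P (nat_lit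 0)) (P (nat_lit 20490241662672))) (P (nat_lit 0))) (P (nat_lit 0))))))) (T.h (P (nat_lit 0)) (T.h (T.h (T.h (T.h (P (nat_lit 0)) (T.h (M (nat_lit 1596451631)) (T.h (P (nat_lit 0)) (T.h (M (nat_lit 153029857539)) (T.h (P (nat_lit 0)) (M (nat_lit 400766289287))))))) (T.h (P (nat_lit 0)) (T.h (T.h (P (nat_lit 0)) (T.h (M (nat_lit 3514381179335)) (T.h (P (nat_lit 0)) (P (nat_lit 5956022046828))))) (T.h (P (nat_lit 0)) (T.h (T.h (P (nat_lit 0)) (M (nat_lit 38648964409323))) (P (nat_lit 0))))))) (T.h (T.h (P (nat_lit 0)) (T.h (T.h (P (nat_lit 727768012776)) (T.h (P (nat_lit 0)) (M (nat_lit 32393866604143)))) (T.h (P (nat_lit 0)) (P (nat_lit 26634378365368))))) (T.h (T.h (T.h (P (nat_lit 0)) (T.h (P (nat_lit 5395847606856)) (T.h (P (nat_lit 0)) (P (nat_lit 3569882887280))))) (T.h (P (nat_lit 0)) (T.h (T.h (P (nat_lit 0)) (P (nat_lit 188981253053232))) (P (nat_lit 0))))) (T.h (T.h (P (nat_lit 0))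 (P (nat_lit 9136769537816))) (T.h (T.h (T.h (P (nat_lit 0)) (P (nat_lit 149947839425940))) (P (nat_lit 0))) (P (nat_lit 0))))))) (P (nat_lit 0))))) (T.h (T.h (P (nat_lit 0)) (T.h (T.h (T.h (P (nat_lit 0)) (T.h (T.h (P (nat_lit 74994242096)) (T.h (P (nat_lit 0)) (T.h (M (nat_lit 4462862008103)) (T.h (P (nat_lit 0)) (P (nat_lit 49193606610208)))))) (T.h (P (nat_lit 0)) (T.h (T.h (P (nat_lit 292718243812)) (T.h (P (nat_lit 0)) (M (nat_lit 52561493946263)))) (T.h (P (nat_lit 0)) (P (nat_lit 37190065720004))))))) (T.h (T.h (T.h (P (nat_lit 0)) (T.h (M (nat_lit 30164762991)) (T.h (P (nat_lit 0)) (M (nat_lit 4456439270879))))) (T.h (P (nat_lit 0)) (T.h (T.h (P (nat_lit 0)) (M (nat_lit 53180084113327))) (P (nat_lit 0))))) (T.h (T.h (P (nat_lit 0)) (T.h (T.h (P (nat_lit 4632771269904)) (T.h (P (nat_lit 0)) (M (nat_lit 132920093212991)))) (T.h (P (nat_lit 0)) (M (nat_lit 130575645271459))))) (T.h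 (T.h (T.h (P (nat_lit 0)) (P (nat_lit 5378482398760))) (P (nat_lit 0))) (T.h (T.h (P (nat_lit 0)) (M (nat_lit 161737641034055))) (P (nat_lit 0))))))) (P (nat_lit 0)))) (T.h (T.h (T.h (T.h (T.h (P (nat_lit 0)) (T.h (P (nat_lit 11848531648)) (T.h (P (nat_lit 0)) (T.h (M (nat_lit 52681287951)) (T.h (P (nat_lit 0)) (M (nat_lit 1427607010415))))))) (T.h (P (nat_lit 0)) (T.h (T.h (P (nat_lit 0)) (T.h (M (nat_lit 96932577787)) (T.h (P (nat_lit 0)) (M (nat_lit 39299417125703))))) (T.h (P (nat_lit 0)) (T.h (T.h (P (nat_lit 0)) (M (nat_lit 50152597828811))) (P (nat_lit 0))))))) (T.h (T.h (P (nat_lit 0)) (T.h (T.h (M (nat_lit 30695836943)) (T.h (P (nat_lit 0)) (M (nat_lit 10423954253839)))) (T.h (P (nat_lit 0)) (M (nat_lit 10488846629007))))) (T.h (T.h (T.h (P (nat_lit 0)) (T.h (M (nat_lit 96932577787)) (T.h (P (nat_lit 0)) (M (nat_lit 39299417125703))))) (T.h (P (nat_lit 0)) (T.h (T.h (P (nat_lit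 0)) (P (nat_lit 125051431053864))) (P (nat_lit 0))))) (T.h (T.h (P (nat_lit 0)) (M (nat_lit 10488846629007))) (T.h (T.h (T.h (P (nat_lit 0)) (M (nat_lit 50152597828811))) (P (nat_lit 0))) (P (nat_lit 0))))))) (P (nat_lit 0))) (P (nat_lit 0)))))
def et2_17 : T ℤ := (T.h (T.h (P (nat_lit 0)) (T.h (P (nat_lit 0)) (T.h (T.h (T.h (T.h (P (nat_lit 0)) (T.h (P (nat_lit 13685519536)) (T.h (P (nat_lit 0)) (T.h (M (nat_lit 7700298615)) (T.h (P (nat_lit 0)) (M (nat_lit 3780894755183))))))) (T.h (P (nat_lit 0)) (T.h (T.h (P (nat_lit 0)) (T.h (M (nat_lit 132514974403)) (T.h (P (nat_lit 0)) (P (nat_lit 23879512789896))))) (T.h (P (nat_lit 0)) (T.h (T.h (P (nat_lit 0)) (P (nat_lit 35506933688216))) (P (nat_lit 0))))))) (T.h (T.h (P (nat_lit 0)) (T.h (T.h (M (nat_lit 341403236587)) (T.h (P (nat_lit 0)) (M (nat_lit 3721231947111)))) (T.h (P (nat_lit 0)) (M (nat_lit 478803469235))))) (T.h (T.h (T.h (P (nat_lit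 0)) (T.h (P (nat_lit 3876963211888)) (T.h (P (nat_lit 0)) (M (nat_lit 107332303278555))))) (T.h (P (nat_lit 0)) (T.h (T.h (P (nat_lit 0)) (M (nat_lit 90810402776675))) (P (nat_lit 0))))) (T.h (T.h (P (nat_lit 0)) (M (nat_lit 8370033775519))) (T.h (T.h (T.h (P (nat_lit 0)) (P (nat_lit 165799799308344))) (P (nat_lit 0))) (P (nat_lit 0))))))) (T.h (P (nat_lit 0)) (T.h (T.h (T.h (T.h (P (nat_lit 0)) (T.h (P (nat_lit 74994242096)) (T.h (P (nat_lit 0)) (T.h (P (nat_lit 292718243812)) (T.h (P (nat_lit 0)) (P (nat_lit 37190065720004))))))) (T.h (P (nat_lit 0)) (T.h (T.h (P (nat_lit 0)) (T.h (M (nat_lit 4462862008103)) (T.h (P (nat_lit 0)) (M (nat_lit 52561493946263))))) (T.h (P (nat_lit 0)) (T.h (T.h (P (nat_lit 0)) (P (nat_lit 49193606610208))) (P (nat_lit 0))))))) (T.h (T.h (P (nat_lit 0)) (T.h (T.h (M (nat_lit 30164762991)) (T.h (P (nat_lit 0)) (M (nat_lit 53180084113327)))) (T.h (P (nat_lit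 0)) (M (nat_lit 4456439270879))))) (T.h (T.h (T.h (P (nat_lit 0)) (T.h (P (nat_lit 4632771269904)) (T.h (P (nat_lit 0)) (M (nat_lit 130575645271459))))) (T.h (P (nat_lit 0)) (T.h (T.h (P (nat_lit 0)) (M (nat_lit 132920093212991))) (P (nat_lit 0))))) (T.h (T.h (P (nat_lit 0)) (P (nat_lit 5378482398760))) (T.h (T.h (T.h (P (nat_lit 0)) (M (nat_lit 161737641034055))) (P (nat_lit 0))) (P (nat_lit 0))))))) (P (nat_lit 0))))))) (T.h (T.h (P (nat_lit 0)) (T.h (T.h (T.h (P (nat_lit 0)) (T.h (T.h (P (nat_lit 13685519536)) (T.h (P (nat_lit 0)) (T.h (M (nat_lit 132514974403)) (T.h (P (nat_lit 0)) (P (nat_lit 35506933688216)))))) (T.h (P (nat_lit 0)) (T.h (T.h (M (nat_lit 7700298615)) (T.h (P (nat_lit 0)) (P (nat_lit 23879512789896)))) (T.h (P (nat_lit 0)) (M (nat_lit 3780894755183))))))) (T.h (T.h (T.h (P (nat_lit 0)) (T.h (M (nat_lit 341403236587)) (T.h (P (nat_lit 0)) (M (nat_lit 478803469235)))))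 (T.h (P (nat_lit 0)) (T.h (T.h (P (nat_lit 0)) (M (nat_lit 3721231947111))) (P (nat_lit 0))))) (T.h (T.h (P (nat_lit 0)) (T.h (T.h (P (nat_lit 3876963211888)) (T.h (P (nat_lit 0)) (M (nat_lit 90810402776675)))) (T.h (P (nat_lit 0)) (M (nat_lit 107332303278555))))) (T.h (T.h (T.h (P (nat_lit 0)) (M (nat_lit 8370033775519))) (P (nat_lit 0))) (T.h (T.h (P (nat_lit 0)) (P (nat_lit 165799799308344))) (P (nat_lit 0))))))) (T.h (P (nat_lit 0)) (T.h (T.h (T.h (P (nat_lit 0)) (T.h (T.h (M (nat_lit 1596451631)) (T.h (P (nat_lit 0)) (T.h (M (nat_lit 3514381179335)) (T.h (P (nat_lit 0)) (M (nat_lit 38648964409323)))))) (T.h (P (nat_lit 0)) (T.h (T.h (M (nat_lit 153029857539)) (T.h (P (nat_lit 0)) (P (nat_lit 5956022046828)))) (T.h (P (nat_lit 0)) (M (nat_lit 400766289287))))))) (T.h (T.h (T.h (P (nat_lit 0)) (T.h (P (nat_lit 727768012776)) (T.h (P (nat_lit 0)) (P (nat_lit 26634378365368))))) (T.h (P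 (nat_lit 0)) (T.h (T.h (P (nat_lit 0)) (M (nat_lit 32393866604143))) (P (nat_lit 0))))) (T.h (T.h (P (nat_lit 0)) (T.h (T.h (P (nat_lit 5395847606856)) (T.h (P (nat_lit 0)) (P (nat_lit 188981253053232)))) (T.h (P (nat_lit 0)) (P (nat_lit 3569882887280))))) (T.h (T.h (T.h (P (nat_lit 0)) (P (nat_lit 9136769537816))) (P (nat_lit 0))) (T.h (T.h (P (nat_lit 0)) (P (nat_lit 149947839425940))) (P (nat_lit 0))))))) (P (nat_lit 0)))))) et2_16))
def et2_18 : T ℤ := (T.h (T.h (P (nat_lit 0)) (T.h (T.h (T.h (P (nat_lit 0)) (T.h (T.h (P (nat_lit 0)) (T.h (P (nat_lit 31542998336)) (T.h (P (nat_lit 0)) (M (nat_lit 1706213667955))))) (T.h (P (nat_lit 0)) (T.h (T.h (P (nat_lit 0)) (M (nat_lit 1706213667955))) (P (nat_lit 0)))))) (T.h (T.h (T.h (M (nat_lit 14462095287)) (T.h (P (nat_lit 0)) (T.h (M (nat_lit 61535457923)) (T.h (P (nat_lit 0)) (P (nat_lit 11511116263436)))))) (T.h (P (nat_lit 0)) (T.h (T.h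 (M (nat_lit 61535457923)) (T.h (P (nat_lit 0)) (M (nat_lit 23458890903511)))) (T.h (P (nat_lit 0)) (P (nat_lit 11511116263436)))))) (T.h (T.h (P (nat_lit 0)) (T.h (T.h (P (nat_lit 0)) (P (nat_lit 9834121740320))) (P (nat_lit 0)))) (T.h (T.h (T.h (P (nat_lit 1776848368864)) (T.h (P (nat_lit 0)) (P (nat_lit 22305959113580)))) (T.h (P (nat_lit 0)) (P (nat_lit 22305959113580)))) (T.h (P (nat_lit 0)) (M (nat_lit 40353788870327))))))) (T.h (P (nat_lit 0)) (T.h (T.h (T.h (P (nat_lit 0)) (T.h (T.h (P (nat_lit 0)) (T.h (P (nat_lit 239597475328)) (T.h (P (nat_lit 0)) (M (nat_lit 2079064558303))))) (T.h (P (nat_lit 0)) (T.h (T.h (P (nat_lit 0)) (M (nat_lit 1747492235151))) (P (nat_lit 0)))))) (T.h (T.h (T.h (M (nat_lit 34718677063)) (T.h (P (nat_lit 0)) (T.h (P (nat_lit 1375515565912)) (T.h (P (nat_lit 0)) (M (nat_lit 185582541956187)))))) (T.h (P (nat_lit 0)) (T.h (T.h (P (nat_lit 1453155499808))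 (T.h (P (nat_lit 0)) (M (nat_lit 61926766191323)))) (T.h (P (nat_lit 0)) (P (nat_lit 63832030229928)))))) (T.h (T.h (P (nat_lit 0)) (T.h (T.h (P (nat_lit 0)) (P (nat_lit 33874373366968))) (P (nat_lit 0)))) (T.h (T.h (T.h (M (nat_lit 1590543719871)) (T.h (P (nat_lit 0)) (P (nat_lit 20835010760328)))) (T.h (P (nat_lit 0)) (P (nat_lit 52172963093768)))) (T.h (P (nat_lit 0)) (P (nat_lit 51088783886224))))))) (P (nat_lit 0)))))) (T.h (T.h (T.h (T.h (T.h (P (nat_lit 3333353672)) (T.h (P (nat_lit 0)) (T.h (P (nat_lit 296371924)) (T.h (P (nat_lit 0)) (M (nat_lit 172155428859)))))) (T.h (P (nat_lit 0)) (T.h (T.h (M (nat_lit 50423083887)) (T.h (P (nat_lit 0)) (M (nat_lit 35744610083)))) (T.h (P (nat_lit 0)) (M (nat_lit 176405896711)))))) (T.h (T.h (P (nat_lit 0)) (T.h (T.h (P (nat_lit 0)) (T.h (M (nat_lit 57774328071)) (T.h (P (nat_lit 0)) (P (nat_lit 16202358005352))))) (T.h (P (nat_lit 0)) (T.h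 (T.h (P (nat_lit 0)) (M (nat_lit 14557494903151))) (P (nat_lit 0)))))) (T.h (T.h (T.h (P (nat_lit 17214930176)) (T.h (P (nat_lit 0)) (P (nat_lit 4578404872240)))) (T.h (P (nat_lit 0)) (M (nat_lit 2816155826247)))) (T.h (T.h (P (nat_lit 0)) (T.h (T.h (P (nat_lit 0)) (P (nat_lit 45802236876448))) (P (nat_lit 0)))) (M (nat_lit 1350943399791)))))) (T.h (P (nat_lit 0)) (T.h (T.h (T.h (T.h (M (nat_lit 1728481263)) (T.h (P (nat_lit 0)) (T.h (P (nat_lit 433760965140)) (T.h (P (nat_lit 0)) (M (nat_lit 2280933065159)))))) (T.h (P (nat_lit 0)) (T.h (T.h (P (nat_lit 433760965140)) (T.h (P (nat_lit 0)) (M (nat_lit 947912938303)))) (T.h (P (nat_lit 0)) (M (nat_lit 2280933065159)))))) (T.h (T.h (P (nat_lit 0)) (T.h (T.h (P (nat_lit 0)) (T.h (P (nat_lit 567346600688)) (T.h (P (nat_lit 0)) (M (nat_lit 25907973930551))))) (T.h (P (nat_lit 0)) (T.h (T.h (P (nat_lit 0)) (M (nat_lit 25907973930551))) (P (nat_lit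 0)))))) (T.h (T.h (T.h (P (nat_lit 1171854080192)) (T.h (P (nat_lit 0)) (P (nat_lit 4945486440304)))) (T.h (P (nat_lit 0)) (P (nat_lit 4945486440304)))) (T.h (T.h (P (nat_lit 0)) (T.h (T.h (P (nat_lit 0)) (P (nat_lit 230769034398304))) (P (nat_lit 0)))) (P (nat_lit 2774701338792)))))) (P (nat_lit 0))))) (T.h (T.h (P (nat_lit 0)) (T.h (T.h (T.h (P (nat_lit 0)) (T.h (T.h (P (nat_lit 0)) (T.h (P (nat_lit 239597475328)) (T.h (P (nat_lit 0)) (M (nat_lit 1747492235151))))) (T.h (P (nat_lit 0)) (T.h (T.h (P (nat_lit 0)) (M (nat_lit 2079064558303))) (P (nat_lit 0)))))) (T.h (T.h (T.h (M (nat_lit 34718677063)) (T.h (P (nat_lit 0)) (T.h (P (nat_lit 1453155499808)) (T.h (P (nat_lit 0)) (P (nat_lit 63832030229928)))))) (T.h (P (nat_lit 0)) (T.h (T.h (P (nat_lit 1375515565912)) (T.h (P (nat_lit 0)) (M (nat_lit 61926766191323)))) (T.h (P (nat_lit 0)) (M (nat_lit 185582541956187)))))) (T.h (T.h (P (nat_lit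 0)) (T.h (T.h (P (nat_lit 0)) (P (nat_lit 33874373366968))) (P (nat_lit 0)))) (T.h (T.h (T.h (M (nat_lit 1590543719871)) (T.h (P (nat_lit 0)) (P (nat_lit 52172963093768)))) (T.h (P (nat_lit 0)) (P (nat_lit 20835010760328)))) (T.h (P (nat_lit 0)) (P (nat_lit 51088783886224))))))) (P (nat_lit 0)))) (T.h (T.h (T.h (T.h (T.h (P (nat_lit 600236308)) (T.h (P (nat_lit 0)) (T.h (M (nat_lit 7384226639)) (T.h (P (nat_lit 0)) (M (nat_lit 90360999051)))))) (T.h (P (nat_lit 0)) (T.h (T.h (P (nat_lit 24421360140)) (T.h (P (nat_lit 0)) (M (nat_lit 2648628651055)))) (T.h (P (nat_lit 0)) (M (nat_lit 5040052325435)))))) (T.h (T.h (P (nat_lit 0)) (T.h (T.h (P (nat_lit 0)) (T.h (M (nat_lit 59424811223)) (T.h (P (nat_lit 0)) (P (nat_lit 11604038866896))))) (T.h (P (nat_lit 0)) (T.h (T.h (P (nat_lit 0)) (P (nat_lit 75456885959928))) (P (nat_lit 0)))))) (T.h (T.h (T.h (M (nat_lit 166113717547)) (T.h (P (nat_lit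 0)) (P (nat_lit 8695408413220)))) (T.h (P (nat_lit 0)) (P (nat_lit 7084259756664)))) (T.h (T.h (P (nat_lit 0)) (T.h (T.h (P (nat_lit 0)) (M (nat_lit 106926965327527))) (P (nat_lit 0)))) (P (nat_lit 9055438534364)))))) (P (nat_lit 0))) (P (nat_lit 0))))))
def et2_19 : T ℤ := (T.h (T.h (T.h (T.h (T.h (P (nat_lit 0)) (T.h (P (nat_lit 259742392)) (T.h (P (nat_lit 0)) (T.h (M (nat_lit 2283637455)) (T.h (P (nat_lit 0)) (P (nat_lit 652073517204))))))) (T.h (P (nat_lit 0)) (T.h (T.h (P (nat_lit 0)) (T.h (M (nat_lit 77516534983)) (T.h (P (nat_lit 0)) (M (nat_lit 4448935827271))))) (T.h (P (nat_lit 0)) (T.h (T.h (P (nat_lit 0)) (M (nat_lit 1441904453035))) (P (nat_lit 0))))))) (T.h (T.h (P (nat_lit 0)) (T.h (T.h (M (nat_lit 16887641611)) (T.h (P (nat_lit 0)) (P (nat_lit 66974951184)))) (T.h (P (nat_lit 0)) (P (nat_lit 1955299736692))))) (T.h (T.h (T.h (P (nat_lit 0)) (T.h (M (nat_lit 290258092491))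 (T.h (P (nat_lit 0)) (M (nat_lit 5050504265591))))) (T.h (P (nat_lit 0)) (T.h (T.h (P (nat_lit 0)) (M (nat_lit 2555509897619))) (P (nat_lit 0))))) (T.h (T.h (P (nat_lit 0)) (P (nat_lit 9124454242672))) (T.h (T.h (T.h (P (nat_lit 0)) (M (nat_lit 65948623370259))) (P (nat_lit 0))) (P (nat_lit 0))))))) (T.h (P (nat_lit 0)) (T.h (T.h (T.h (T.h (P (nat_lit 0)) (T.h (P (nat_lit 11698247472)) (T.h (P (nat_lit 0)) (T.h (P (nat_lit 16701781372)) (T.h (P (nat_lit 0)) (P (nat_lit 16437340921376))))))) (T.h (P (nat_lit 0)) (T.h (T.h (P (nat_lit 0)) (T.h (M (nat_lit 327212534687)) (T.h (P (nat_lit 0)) (P (nat_lit 21171493037508))))) (T.h (P (nat_lit 0)) (T.h (T.h (P (nat_lit 0)) (P (nat_lit 12468435455704))) (P (nat_lit 0))))))) (T.h (T.h (P (nat_lit 0)) (T.h (T.h (P (nat_lit 137343502504)) (T.h (P (nat_lit 0)) (P (nat_lit 7114985703808)))) (T.h (P (nat_lit 0)) (P (nat_lit 7974638938680))))) (T.h (T.h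 (T.h (P (nat_lit 0)) (T.h (M (nat_lit 3236523240083)) (T.h (P (nat_lit 0)) (P (nat_lit 79718722447276))))) (T.h (P (nat_lit 0)) (T.h (T.h (P (nat_lit 0)) (P (nat_lit 73839712788128))) (P (nat_lit 0))))) (T.h (T.h (P (nat_lit 0)) (M (nat_lit 11447421283175))) (T.h (T.h (T.h (P (nat_lit 0)) (P (nat_lit 12462881181724))) (P (nat_lit 0))) (P (nat_lit 0))))))) (P (nat_lit 0))))) (T.h (T.h (P (nat_lit 0)) (T.h (T.h (T.h (P (nat_lit 0)) (T.h (T.h (P (nat_lit 11698247472)) (T.h (P (nat_lit 0)) (T.h (M (nat_lit 327212534687)) (T.h (P (nat_lit 0)) (P (nat_lit 12468435455704)))))) (T.h (P (nat_lit 0)) (T.h (T.h (P (nat_lit 16701781372)) (T.h (P (nat_lit 0)) (P (nat_lit 21171493037508)))) (T.h (P (nat_lit 0)) (P (nat_lit 16437340921376))))))) (T.h (T.h (T.h (P (nat_lit 0)) (T.h (P (nat_lit 137343502504)) (T.h (P (nat_lit 0)) (P (nat_lit 7974638938680))))) (T.h (P (nat_lit 0)) (T.h (T.h (P (nat_lit 0))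 (P (nat_lit 7114985703808))) (P (nat_lit 0))))) (T.h (T.h (P (nat_lit 0)) (T.h (T.h (M (nat_lit 3236523240083)) (T.h (P (nat_lit 0)) (P (nat_lit 73839712788128)))) (T.h (P (nat_lit 0)) (P (nat_lit 79718722447276))))) (T.h (T.h (T.h (P (nat_lit 0)) (M (nat_lit 11447421283175))) (P (nat_lit 0))) (T.h (T.h (P (nat_lit 0)) (P (nat_lit 12462881181724))) (P (nat_lit 0))))))) (P (nat_lit 0)))) (T.h (T.h (T.h (T.h (T.h (P (nat_lit 0)) (T.h (M (nat_lit 6660739927)) (T.h (P (nat_lit 0)) (T.h (M (nat_lit 20441114543)) (T.h (P (nat_lit 0)) (P (nat_lit 1464291475464))))))) (T.h (P (nat_lit 0)) (T.h (T.h (P (nat_lit 0)) (T.h (M (nat_lit 21958583427)) (T.h (P (nat_lit 0)) (P (nat_lit 18015403513848))))) (T.h (P (nat_lit 0)) (T.h (T.h (P (nat_lit 0)) (P (nat_lit 16856605841260))) (P (nat_lit 0))))))) (T.h (T.h (P (nat_lit 0)) (T.h (T.h (M (nat_lit 40613075183)) (T.h (P (nat_lit 0)) (P (nat_lit 6074856968224))))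 (T.h (P (nat_lit 0)) (P (nat_lit 5268581892992))))) (T.h (T.h (T.h (P (nat_lit 0)) (T.h (M (nat_lit 470797929619)) (T.h (P (nat_lit 0)) (P (nat_lit 27115016503624))))) (T.h (P (nat_lit 0)) (T.h (T.h (P (nat_lit 0)) (M (nat_lit 76181262370715))) (P (nat_lit 0))))) (T.h (T.h (P (nat_lit 0)) (P (nat_lit 23766506178296))) (T.h (T.h (T.h (P (nat_lit 0)) (M (nat_lit 25956017017323))) (P (nat_lit 0))) (P (nat_lit 0))))))) (P (nat_lit 0))) (P (nat_lit 0)))))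
def et2_20 : T ℤ := (T.h (T.h (T.h (T.h (T.h (T.h (P (nat_lit 1837302992)) (T.h (P (nat_lit 0)) (T.h (M (nat_lit 1570297731)) (T.h (P (nat_lit 0)) (M (nat_lit 101105943535)))))) (T.h (P (nat_lit 0)) (T.h (T.h (M (nat_lit 1570297731)) (T.h (P (nat_lit 0)) (P (nat_lit 638357264056)))) (T.h (P (nat_lit 0)) (M (nat_lit 101105943535)))))) (T.h (T.h (P (nat_lit 0)) (T.h (T.h (P (nat_lit 0)) (T.h (P (nat_lit 57982750096)) (T.h (P (nat_lit 0)) (M (nat_lit 4192062351063))))) (T.h (P (nat_lit 0)) (T.h (T.h (P (nat_lit 0)) (M (nat_lit 4192062351063))) (P (nat_lit 0)))))) (T.h (T.h (T.h (M (nat_lit 52894122847)) (T.h (P (nat_lit 0)) (P (nat_lit 708508725656)))) (T.h (P (nat_lit 0)) (P (nat_lit 708508725656)))) (T.h (T.h (P (nat_lit 0)) (T.h (T.h (P (nat_lit 0)) (M (nat_lit 14088062055151))) (P (nat_lit 0)))) (M (nat_lit 7430897784887)))))) (T.h (P (nat_lit 0)) (T.h (T.h (T.h (T.h (P (nat_lit 50487060))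 (T.h (P (nat_lit 0)) (T.h (P (nat_lit 11540601344)) (T.h (P (nat_lit 0)) (M (nat_lit 956302784511)))))) (T.h (P (nat_lit 0)) (T.h (T.h (P (nat_lit 9524428356)) (T.h (P (nat_lit 0)) (P (nat_lit 12483011308)))) (T.h (P (nat_lit 0)) (P (nat_lit 226498482592)))))) (T.h (T.h (P (nat_lit 0)) (T.h (T.h (P (nat_lit 0)) (T.h (M (nat_lit 83585404271)) (T.h (P (nat_lit 0)) (M (nat_lit 17912448098463))))) (T.h (P (nat_lit 0)) (T.h (T.h (P (nat_lit 0)) (M (nat_lit 9698570609351))) (P (nat_lit 0)))))) (T.h (T.h (T.h (M (nat_lit 94735619447)) (T.h (P (nat_lit 0)) (M (nat_lit 5577363881219)))) (T.h (P (nat_lit 0)) (M (nat_lit 7496084842007)))) (T.h (T.h (P (nat_lit 0)) (T.h (T.h (P (nat_lit 0)) (P (nat_lit 18017656646600))) (P (nat_lit 0)))) (M (nat_lit 10381926908015)))))) (P (nat_lit 0))))) (T.h (T.h (P (nat_lit 0)) (T.h (T.h (T.h (P (nat_lit 0)) (T.h (T.h (P (nat_lit 0)) (T.h (P (nat_lit 43270251608))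 (T.h (P (nat_lit 0)) (M (nat_lit 267615245807))))) (T.h (P (nat_lit 0)) (T.h (T.h (P (nat_lit 0)) (M (nat_lit 267615245807))) (P (nat_lit 0)))))) (T.h (T.h (T.h (P (nat_lit 46029083632)) (T.h (P (nat_lit 0)) (T.h (P (nat_lit 743281936732)) (T.h (P (nat_lit 0)) (M (nat_lit 14510090030803)))))) (T.h (P (nat_lit 0)) (T.h (T.h (P (nat_lit 743281936732)) (T.h (P (nat_lit 0)) (P (nat_lit 26973030679736)))) (T.h (P (nat_lit 0)) (M (nat_lit 14510090030803)))))) (T.h (T.h (P (nat_lit 0)) (T.h (T.h (P (nat_lit 0)) (M (nat_lit 29265228514463))) (P (nat_lit 0)))) (T.h (T.h (T.h (P (nat_lit 1255180346352)) (T.h (P (nat_lit 0)) (M (nat_lit 14908326411047)))) (T.h (P (nat_lit 0)) (M (nat_lit 14908326411047)))) (T.h (P (nat_lit 0)) (P (nat_lit 162456167648856))))))) (P (nat_lit 0)))) (T.h (T.h (T.h (T.h (T.h (P (nat_lit 50487060)) (T.h (P (nat_lit 0)) (T.h (P (nat_lit 9524428356)) (T.h (P (nat_lit 0)) (P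 (nat_lit 226498482592)))))) (T.h (P (nat_lit 0)) (T.h (T.h (P (nat_lit 11540601344)) (T.h (P (nat_lit 0)) (P (nat_lit 12483011308)))) (T.h (P (nat_lit 0)) (M (nat_lit 956302784511)))))) (T.h (T.h (P (nat_lit 0)) (T.h (T.h (P (nat_lit 0)) (T.h (M (nat_lit 83585404271)) (T.h (P (nat_lit 0)) (M (nat_lit 9698570609351))))) (T.h (P (nat_lit 0)) (T.h (T.h (P (nat_lit 0)) (M (nat_lit 17912448098463))) (P (nat_lit 0)))))) (T.h (T.h (T.h (M (nat_lit 94735619447)) (T.h (P (nat_lit 0)) (M (nat_lit 7496084842007)))) (T.h (P (nat_lit 0)) (M (nat_lit 5577363881219)))) (T.h (T.h (P (nat_lit 0)) (T.h (T.h (P (nat_lit 0)) (P (nat_lit 18017656646600))) (P (nat_lit 0)))) (M (nat_lit 10381926908015)))))) (P (nat_lit 0))) (P (nat_lit 0))))) (T.h (T.h (T.h (P (nat_lit 0)) (T.h (T.h (T.h (P (nat_lit 0)) (T.h (T.h (P (nat_lit 1068346656)) (T.h (P (nat_lit 0)) (T.h (P (nat_lit 18471116936)) (T.h (P (nat_lit 0))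 (M (nat_lit 2688971301239)))))) (T.h (P (nat_lit 0)) (T.h (T.h (P (nat_lit 46802636996)) (T.h (P (nat_lit 0)) (M (nat_lit 1445460012819)))) (T.h (P (nat_lit 0)) (M (nat_lit 492829999539))))))) (T.h (T.h (T.h (P (nat_lit 0)) (T.h (M (nat_lit 6557472783)) (T.h (P (nat_lit 0)) (M (nat_lit 1947343852351))))) (T.h (P (nat_lit 0)) (T.h (T.h (P (nat_lit 0)) (M (nat_lit 2790765563479))) (P (nat_lit 0))))) (T.h (T.h (P (nat_lit 0)) (T.h (T.h (P (nat_lit 560373576760)) (T.h (P (nat_lit 0)) (P (nat_lit 11587222498116)))) (T.h (P (nat_lit 0)) (M (nat_lit 11094586799427))))) (T.h (T.h (T.h (P (nat_lit 0)) (M (nat_lit 4714890496903))) (P (nat_lit 0))) (T.h (T.h (P (nat_lit 0)) (P (nat_lit 165180518164156))) (P (nat_lit 0))))))) (P (nat_lit 0)))) (T.h (T.h (T.h (T.h (T.h (P (nat_lit 0)) (T.h (P (nat_lit 1068346656)) (T.h (P (nat_lit 0)) (T.h (P (nat_lit 46802636996)) (T.h (P (nat_lit 0)) (M (nat_lit 492829999539)))))))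 (T.h (P (nat_lit 0)) (T.h (T.h (P (nat_lit 0)) (T.h (P (nat_lit 18471116936)) (T.h (P (nat_lit 0)) (M (nat_lit 1445460012819))))) (T.h (P (nat_lit 0)) (T.h (T.h (P (nat_lit 0)) (M (nat_lit 2688971301239))) (P (nat_lit 0))))))) (T.h (T.h (P (nat_lit 0)) (T.h (T.h (M (nat_lit 6557472783)) (T.h (P (nat_lit 0)) (M (nat_lit 2790765563479)))) (T.h (P (nat_lit 0)) (M (nat_lit 1947343852351))))) (T.h (T.h (T.h (P (nat_lit 0)) (T.h (P (nat_lit 560373576760)) (T.h (P (nat_lit 0)) (M (nat_lit 11094586799427))))) (T.h (P (nat_lit 0)) (T.h (T.h (P (nat_lit 0)) (P (nat_lit 11587222498116))) (P (nat_lit 0))))) (T.h (T.h (P (nat_lit 0)) (M (nat_lit 4714890496903))) (T.h (T.h (T.h (P (nat_lit 0)) (P (nat_lit 165180518164156))) (P (nat_lit 0))) (P (nat_lit 0))))))) (P (nat_lit 0))) (P (nat_lit 0)))) (T.h (T.h (T.h (T.h (T.h (T.h (M (nat_lit 738128119)) (T.h (P (nat_lit 0)) (T.h (M (nat_lit 341782075)) (T.h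 (P (nat_lit 0)) (M (nat_lit 33397561647)))))) (T.h (P (nat_lit 0)) (T.h (T.h (M (nat_lit 341782075)) (T.h (P (nat_lit 0)) (M (nat_lit 231982825119)))) (T.h (P (nat_lit 0)) (M (nat_lit 33397561647)))))) (T.h (T.h (P (nat_lit 0)) (T.h (T.h (P (nat_lit 0)) (T.h (P (nat_lit 163111037312)) (T.h (P (nat_lit 0)) (P (nat_lit 1371023063008))))) (T.h (P (nat_lit 0)) (T.h (T.h (P (nat_lit 0)) (P (nat_lit 1371023063008))) (P (nat_lit 0)))))) (T.h (T.h (T.h (P (nat_lit 68889547920)) (T.h (P (nat_lit 0)) (P (nat_lit 1153187722140)))) (T.h (P (nat_lit 0)) (P (nat_lit 1153187722140)))) (T.h (T.h (P (nat_lit 0)) (T.h (T.h (P (nat_lit 0)) (P (nat_lit 10771790923264))) (P (nat_lit 0)))) (P (nat_lit 7443264844280)))))) (P (nat_lit 0))) (P (nat_lit 0))) (P (nat_lit 0)))))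
def et2_21 : T ℤ := (T.h (T.h (T.h (P (nat_lit 0)) (T.h (P (nat_lit 0)) (T.h (P (nat_lit 0)) (T.h (T.h (T.h (P (nat_lit 0)) (T.h (T.h (P (nat_lit 9513419828)) (T.h (P (nat_lit 0)) (T.h (P (nat_lit 72344896812)) (T.h (P (nat_lit 0)) (P (nat_lit 467672306624)))))) (T.h (P (nat_lit 0)) (T.h (T.h (M (nat_lit 105546370695)) (T.h (P (nat_lit 0)) (P (nat_lit 10964633238356)))) (T.h (P (nat_lit 0)) (P (nat_lit 723979793760))))))) (T.h (T.h (T.h (P (nat_lit 0)) (T.h (P (nat_lit 195544013004)) (T.h (P (nat_lit 0)) (P (nat_lit 1590284538348))))) (T.h (P (nat_lit 0)) (T.h (T.h (P (nat_lit 0)) (M (nat_lit 4725616990791))) (P (nat_lit 0))))) (T.h (T.h (P (nat_lit 0)) (T.h (T.h (M (nat_lit 267027739299)) (T.h (P (nat_lit 0)) (M (nat_lit 17919956247971)))) (T.h (P (nat_lit 0)) (M (nat_lit 4481405221607))))) (T.h (T.h (T.h (P (nat_lit 0)) (M (nat_lit 15802316971875))) (P (nat_lit 0))) (T.h (T.h (P (nat_lit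 0)) (P (nat_lit 20490241662672))) (P (nat_lit 0))))))) (T.h (P (nat_lit 0)) (T.h (T.h (T.h (P (nat_lit 0)) (T.h (T.h (P (nat_lit 11848531648)) (T.h (P (nat_lit 0)) (T.h (M (nat_lit 96932577787)) (T.h (P (nat_lit 0)) (M (nat_lit 50152597828811)))))) (T.h (P (nat_lit 0)) (T.h (T.h (M (nat_lit 52681287951)) (T.h (P (nat_lit 0)) (M (nat_lit 39299417125703)))) (T.h (P (nat_lit 0)) (M (nat_lit 1427607010415))))))) (T.h (T.h (T.h (P (nat_lit 0)) (T.h (M (nat_lit 30695836943)) (T.h (P (nat_lit 0)) (M (nat_lit 10488846629007))))) (T.h (P (nat_lit 0)) (T.h (T.h (P (nat_lit 0)) (M (nat_lit 10423954253839))) (P (nat_lit 0))))) (T.h (T.h (P (nat_lit 0)) (T.h (T.h (M (nat_lit 96932577787)) (T.h (P (nat_lit 0)) (P (nat_lit 125051431053864)))) (T.h (P (nat_lit 0)) (M (nat_lit 39299417125703))))) (T.h (T.h (T.h (P (nat_lit 0)) (M (nat_lit 10488846629007))) (P (nat_lit 0))) (T.h (T.h (P (nat_lit 0)) (M (nat_lit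 50152597828811))) (P (nat_lit 0))))))) (P (nat_lit 0)))))))) et2_17) (T.h (T.h (T.h (P (nat_lit 0)) (T.h (P (nat_lit 0)) (T.h (T.h (T.h (T.h (P (nat_lit 3333353672)) (T.h (P (nat_lit 0)) (T.h (M (nat_lit 50423083887)) (T.h (P (nat_lit 0)) (M (nat_lit 176405896711)))))) (T.h (P (nat_lit 0)) (T.h (T.h (P (nat_lit 296371924)) (T.h (P (nat_lit 0)) (M (nat_lit 35744610083)))) (T.h (P (nat_lit 0)) (M (nat_lit 172155428859)))))) (T.h (T.h (P (nat_lit 0)) (T.h (T.h (P (nat_lit 0)) (T.h (M (nat_lit 57774328071)) (T.h (P (nat_lit 0)) (M (nat_lit 14557494903151))))) (T.h (P (nat_lit 0)) (T.h (T.h (P (nat_lit 0)) (P (nat_lit 16202358005352))) (P (nat_lit 0)))))) (T.h (T.h (T.h (P (nat_lit 17214930176)) (T.h (P (nat_lit 0)) (M (nat_lit 2816155826247)))) (T.h (P (nat_lit 0)) (P (nat_lit 4578404872240)))) (T.h (T.h (P (nat_lit 0)) (T.h (T.h (P (nat_lit 0)) (P (nat_lit 45802236876448))) (P (nat_lit 0))))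 (M (nat_lit 1350943399791)))))) (T.h (P (nat_lit 0)) (T.h (T.h (T.h (T.h (P (nat_lit 600236308)) (T.h (P (nat_lit 0)) (T.h (P (nat_lit 24421360140)) (T.h (P (nat_lit 0)) (M (nat_lit 5040052325435)))))) (T.h (P (nat_lit 0)) (T.h (T.h (M (nat_lit 7384226639)) (T.h (P (nat_lit 0)) (M (nat_lit 2648628651055)))) (T.h (P (nat_lit 0)) (M (nat_lit 90360999051)))))) (T.h (T.h (P (nat_lit 0)) (T.h (T.h (P (nat_lit 0)) (T.h (M (nat_lit 59424811223)) (T.h (P (nat_lit 0)) (P (nat_lit 75456885959928))))) (T.h (P (nat_lit 0)) (T.h (T.h (P (nat_lit 0)) (P (nat_lit 11604038866896))) (P (nat_lit 0)))))) (T.h (T.h (T.h (M (nat_lit 166113717547)) (T.h (P (nat_lit 0)) (P (nat_lit 7084259756664)))) (T.h (P (nat_lit 0)) (P (nat_lit 8695408413220)))) (T.h (T.h (P (nat_lit 0)) (T.h (T.h (P (nat_lit 0)) (M (nat_lit 106926965327527))) (P (nat_lit 0)))) (P (nat_lit 9055438534364)))))) (P (nat_lit 0))))))) et2_18) (T.h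 (T.h (T.h (P (nat_lit 0)) (T.h (T.h (T.h (P (nat_lit 0)) (T.h (T.h (P (nat_lit 259742392)) (T.h (P (nat_lit 0)) (T.h (M (nat_lit 77516534983)) (T.h (P (nat_lit 0)) (M (nat_lit 1441904453035)))))) (T.h (P (nat_lit 0)) (T.h (T.h (M (nat_lit 2283637455)) (T.h (P (nat_lit 0)) (M (nat_lit 4448935827271)))) (T.h (P (nat_lit 0)) (P (nat_lit 652073517204))))))) (T.h (T.h (T.h (P (nat_lit 0)) (T.h (M (nat_lit 16887641611)) (T.h (P (nat_lit 0)) (P (nat_lit 1955299736692))))) (T.h (P (nat_lit 0)) (T.h (T.h (P (nat_lit 0)) (P (nat_lit 66974951184))) (P (nat_lit 0))))) (T.h (T.h (P (nat_lit 0)) (T.h (T.h (M (nat_lit 290258092491)) (T.h (P (nat_lit 0)) (M (nat_lit 2555509897619)))) (T.h (P (nat_lit 0)) (M (nat_lit 5050504265591))))) (T.h (T.h (T.h (P (nat_lit 0)) (P (nat_lit 9124454242672))) (P (nat_lit 0))) (T.h (T.h (P (nat_lit 0)) (M (nat_lit 65948623370259))) (P (nat_lit 0))))))) (T.h (P (nat_lit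 0)) (T.h (T.h (T.h (P (nat_lit 0)) (T.h (T.h (M (nat_lit 6660739927)) (T.h (P (nat_lit 0)) (T.h (M (nat_lit 21958583427)) (T.h (P (nat_lit 0)) (P (nat_lit 16856605841260)))))) (T.h (P (nat_lit 0)) (T.h (T.h (M (nat_lit 20441114543)) (T.h (P (nat_lit 0)) (P (nat_lit 18015403513848)))) (T.h (P (nat_lit 0)) (P (nat_lit 1464291475464))))))) (T.h (T.h (T.h (P (nat_lit 0)) (T.h (M (nat_lit 40613075183)) (T.h (P (nat_lit 0)) (P (nat_lit 5268581892992))))) (T.h (P (nat_lit 0)) (T.h (T.h (P (nat_lit 0)) (P (nat_lit 6074856968224))) (P (nat_lit 0))))) (T.h (T.h (P (nat_lit 0)) (T.h (T.h (M (nat_lit 470797929619)) (T.h (P (nat_lit 0)) (M (nat_lit 76181262370715)))) (T.h (P (nat_lit 0)) (P (nat_lit 27115016503624))))) (T.h (T.h (T.h (P (nat_lit 0)) (P (nat_lit 23766506178296))) (P (nat_lit 0))) (T.h (T.h (P (nat_lit 0)) (M (nat_lit 25956017017323))) (P (nat_lit 0))))))) (P (nat_lit 0)))))) et2_19) et2_20)))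
def et2_22 : T ℤ := (T.h (T.h (T.h (P (nat_lit 0)) (T.h (P (nat_lit 0)) (T.h (P (nat_lit 0)) (T.h (P (nat_lit 0)) (T.h (P (nat_lit 0)) (T.h (P (nat_lit 0)) (T.h (P (nat_lit 0)) (T.h (T.h (T.h (P (nat_lit 0)) (T.h (T.h (P (nat_lit 259742392)) (T.h (P (nat_lit 0)) (T.h (M (nat_lit 290258092491)) (T.h (P (nat_lit 0)) (M (nat_lit 65948623370259)))))) (T.h (P (nat_lit 0)) (T.h (T.h (M (nat_lit 2283637455)) (T.h (P (nat_lit 0)) (M (nat_lit 5050504265591)))) (T.h (P (nat_lit 0)) (P (nat_lit 652073517204))))))) (T.h (T.h (T.h (P (nat_lit 0)) (T.h (M (nat_lit 16887641611)) (T.h (P (nat_lit 0)) (P (nat_lit 9124454242672))))) (T.h (P (nat_lit 0)) (T.h (T.h (P (nat_lit 0)) (P (nat_lit 66974951184))) (P (nat_lit 0))))) (T.h (T.h (P (nat_lit 0)) (T.h (T.h (M (nat_lit 77516534983)) (T.h (P (nat_lit 0)) (M (nat_lit 2555509897619)))) (T.h (P (nat_lit 0)) (M (nat_lit 4448935827271))))) (T.h (T.h (T.h (P (nat_lit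 0)) (P (nat_lit 1955299736692))) (P (nat_lit 0))) (T.h (T.h (P (nat_lit 0)) (M (nat_lit 1441904453035))) (P (nat_lit 0))))))) (T.h (P (nat_lit 0)) (T.h (T.h (T.h (P (nat_lit 0)) (T.h (T.h (P (nat_lit 1068346656)) (T.h (P (nat_lit 0)) (T.h (P (nat_lit 560373576760)) (T.h (P (nat_lit 0)) (P (nat_lit 165180518164156)))))) (T.h (P (nat_lit 0)) (T.h (T.h (P (nat_lit 46802636996)) (T.h (P (nat_lit 0)) (M (nat_lit 11094586799427)))) (T.h (P (nat_lit 0)) (M (nat_lit 492829999539))))))) (T.h (T.h (T.h (P (nat_lit 0)) (T.h (M (nat_lit 6557472783)) (T.h (P (nat_lit 0)) (M (nat_lit 4714890496903))))) (T.h (P (nat_lit 0)) (T.h (T.h (P (nat_lit 0)) (M (nat_lit 2790765563479))) (P (nat_lit 0))))) (T.h (T.h (P (nat_lit 0)) (T.h (T.h (P (nat_lit 18471116936)) (T.h (P (nat_lit 0)) (P (nat_lit 11587222498116)))) (T.h (P (nat_lit 0)) (M (nat_lit 1445460012819))))) (T.h (T.h (T.h (P (nat_lit 0)) (M (nat_lit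 1947343852351))) (P (nat_lit 0))) (T.h (T.h (P (nat_lit 0)) (M (nat_lit 2688971301239))) (P (nat_lit 0))))))) (P (nat_lit 0)))))))))))) et2_7) (T.h et2_10 (T.h (T.h (T.h (P (nat_lit 0)) (T.h (P (nat_lit 0)) (T.h (P (nat_lit 0)) (T.h (P (nat_lit 0)) (T.h (P (nat_lit 0)) (T.h (T.h (T.h (P (nat_lit 0)) (T.h (T.h (P (nat_lit 9513419828)) (T.h (P (nat_lit 0)) (T.h (M (nat_lit 267027739299)) (T.h (P (nat_lit 0)) (P (nat_lit 20490241662672)))))) (T.h (P (nat_lit 0)) (T.h (T.h (M (nat_lit 105546370695)) (T.h (P (nat_lit 0)) (M (nat_lit 4481405221607)))) (T.h (P (nat_lit 0)) (P (nat_lit 723979793760))))))) (T.h (T.h (T.h (P (nat_lit 0)) (T.h (P (nat_lit 195544013004)) (T.h (P (nat_lit 0)) (M (nat_lit 15802316971875))))) (T.h (P (nat_lit 0)) (T.h (T.h (P (nat_lit 0)) (M (nat_lit 4725616990791))) (P (nat_lit 0))))) (T.h (T.h (P (nat_lit 0)) (T.h (T.h (P (nat_lit 72344896812)) (T.h (P (nat_lit 0)) (M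 (nat_lit 17919956247971)))) (T.h (P (nat_lit 0)) (P (nat_lit 10964633238356))))) (T.h (T.h (T.h (P (nat_lit 0)) (P (nat_lit 1590284538348))) (P (nat_lit 0))) (T.h (T.h (P (nat_lit 0)) (P (nat_lit 467672306624))) (P (nat_lit 0))))))) (T.h (P (nat_lit 0)) (T.h (T.h (T.h (P (nat_lit 0)) (T.h (T.h (M (nat_lit 6660739927)) (T.h (P (nat_lit 0)) (T.h (M (nat_lit 470797929619)) (T.h (P (nat_lit 0)) (M (nat_lit 25956017017323)))))) (T.h (P (nat_lit 0)) (T.h (T.h (M (nat_lit 20441114543)) (T.h (P (nat_lit 0)) (P (nat_lit 27115016503624)))) (T.h (P (nat_lit 0)) (P (nat_lit 1464291475464))))))) (T.h (T.h (T.h (P (nat_lit 0)) (T.h (M (nat_lit 40613075183)) (T.h (P (nat_lit 0)) (P (nat_lit 23766506178296))))) (T.h (P (nat_lit 0)) (T.h (T.h (P (nat_lit 0)) (P (nat_lit 6074856968224))) (P (nat_lit 0))))) (T.h (T.h (P (nat_lit 0)) (T.h (T.h (M (nat_lit 21958583427)) (T.h (P (nat_lit 0)) (M (nat_lit 76181262370715))))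 (T.h (P (nat_lit 0)) (P (nat_lit 18015403513848))))) (T.h (T.h (T.h (P (nat_lit 0)) (P (nat_lit 5268581892992))) (P (nat_lit 0))) (T.h (T.h (P (nat_lit 0)) (P (nat_lit 16856605841260))) (P (nat_lit 0))))))) (P (nat_lit 0)))))))))) et2_13) (T.h et2_15 et2_21))))

def t2 : T ℤ := (T.h et2_3 et2_22)

theorem h_t2 : chkT (c.G g2) t2 = true := by decide +kernel


end Pool.Agent.TOPR.R6116H
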