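import Pool.Agent.TOPR.R6116H.Cert

set_option autoImplicit false
set_option linter.all false
set_option maxRecDepth 100000

namespace Pool.Agent.TOPR.R6116H

open Helper10.PC hiding V3
open Helper80.CW.DL Pool.Agent.Helper6.TOP

def en00_0 : T ℤ := (T.h (T.h (T.h (T.h (P (nat_lit 0)) (T.h (T.h (P (nat_lit 738128120)) (T.h (P (nat_lit 0)) (T.h (P (nat_lit 1310274192)) (T.h (P (nat_lit 0)) (P (nat_lit 40098236416)))))) (T.h (P (nat_lit 0)) (T.h (T.h (M (nat_lit 22963182147)) (T.h (P (nat_lit 0)) (M (nat_lit 457329100279)))) (T.h (P (nat_lit 0)) (M (nat_lit 1488652914371))))))) (T.h (T.h (T.h (P (nat_lit 0)) (T.h (M (nat_lit 219589083)) (T.h (P (nat_lit 0)) (T.h (M (nat_lit 21609219139)) (T.h (P (nat_lit 0)) (P (nat_lit 144904021028))))))) (T.h (P (nat_lit 0)) (T.h (T.h (P (nat_lit 0)) (T.h (M (nat_lit 81555518263)) (T.h (P (nat_lit 0)) (M (nat_lit 200141653595))))) (T.h (P (nat_lit 0)) (T.h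 (T.h (P (nat_lit 0)) (M (nat_lit 2692947581803))) (P (nat_lit 0))))))) (T.h (T.h (P (nat_lit 0)) (T.h (T.h (M (nat_lit 3367046623)) (T.h (P (nat_lit 0)) (P (nat_lit 231982822180)))) (T.h (P (nat_lit 0)) (M (nat_lit 933867656047))))) (T.h (T.h (T.h (P (nat_lit 0)) (T.h (P (nat_lit 3719750764)) (T.h (P (nat_lit 0)) (P (nat_lit 660060737520))))) (T.h (P (nat_lit 0)) (T.h (T.h (P (nat_lit 0)) (M (nat_lit 2206827862955))) (P (nat_lit 0))))) (T.h (T.h (P (nat_lit 0)) (M (nat_lit 71822606971))) (T.h (T.h (T.h (P (nat_lit 0)) (P (nat_lit 517157165328))) (P (nat_lit 0))) (P (nat_lit 0)))))))) (T.h (P (nat_lit 0)) (T.h (T.h (T.h (P (nat_lit 0)) (T.h (T.h (P (nat_lit 364313088)) (T.h (P (nat_lit 0)) (T.h (M (nat_lit 51206329255)) (T.h (P (nat_lit 0)) (P (nat_lit 1452247209668)))))) (T.h (P (nat_lit 0)) (T.h (T.h (P (nat_lit 716160306856)) (T.h (P (nat_lit 0)) (M (nat_lit 922640087167)))) (T.h (P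 (nat_lit 0)) (M (nat_lit 11150579149519))))))) (T.h (T.h (T.h (P (nat_lit 0)) (T.h (P (nat_lit 24993278432)) (T.h (P (nat_lit 0)) (M (nat_lit 297387238943))))) (T.h (P (nat_lit 0)) (T.h (T.h (P (nat_lit 0)) (P (nat_lit 228656868672))) (P (nat_lit 0))))) (T.h (T.h (P (nat_lit 0)) (T.h (T.h (M (nat_lit 117621695939)) (T.h (P (nat_lit 0)) (P (nat_lit 625345891476)))) (T.h (P (nat_lit 0)) (P (nat_lit 8378314667592))))) (T.h (T.h (T.h (P (nat_lit 0)) (M (nat_lit 316525650751))) (P (nat_lit 0))) (T.h (T.h (P (nat_lit 0)) (P (nat_lit 4227978417300))) (P (nat_lit 0))))))) (P (nat_lit 0))))) (T.h (T.h (P (nat_lit 0)) (T.h (T.h (T.h (T.h (P (nat_lit 0)) (T.h (P (nat_lit 401202000)) (T.h (P (nat_lit 0)) (T.h (P (nat_lit 193401020)) (T.h (P (nat_lit 0)) (M (nat_lit 435051246951))))))) (T.h (P (nat_lit 0)) (T.h (T.h (P (nat_lit 0)) (T.h (P (nat_lit 132033760396)) (T.h (P (nat_lit 0)) (M (nat_lit 972586501071)))))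 (T.h (P (nat_lit 0)) (T.h (T.h (P (nat_lit 0)) (M (nat_lit 10954700798983))) (P (nat_lit 0))))))) (T.h (T.h (P (nat_lit 0)) (T.h (T.h (M (nat_lit 3750712711)) (T.h (P (nat_lit 0)) (M (nat_lit 305142427591)))) (T.h (P (nat_lit 0)) (M (nat_lit 317125588127))))) (T.h (T.h (T.h (P (nat_lit 0)) (T.h (M (nat_lit 2232690347)) (T.h (P (nat_lit 0)) (M (nat_lit 1088592424967))))) (T.h (P (nat_lit 0)) (T.h (T.h (P (nat_lit 0)) (M (nat_lit 8421400337243))) (P (nat_lit 0))))) (T.h (T.h (P (nat_lit 0)) (M (nat_lit 86693591455))) (T.h (T.h (T.h (P (nat_lit 0)) (M (nat_lit 1713971080759))) (P (nat_lit 0))) (P (nat_lit 0))))))) (P (nat_lit 0)))) (T.h (T.h (T.h (T.h (P (nat_lit 0)) (T.h (T.h (P (nat_lit 1415224972)) (T.h (P (nat_lit 0)) (T.h (P (nat_lit 18249414076)) (T.h (P (nat_lit 0)) (P (nat_lit 47383819388)))))) (T.h (P (nat_lit 0)) (T.h (T.h (M (nat_lit 31013508347)) (T.h (P (nat_lit 0)) (M (nat_lit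 353633834031)))) (T.h (P (nat_lit 0)) (M (nat_lit 7107340149591))))))) (T.h (T.h (T.h (P (nat_lit 0)) (T.h (M (nat_lit 562508071)) (T.h (P (nat_lit 0)) (P (nat_lit 74913674360))))) (T.h (P (nat_lit 0)) (T.h (T.h (P (nat_lit 0)) (P (nat_lit 484221864808))) (P (nat_lit 0))))) (T.h (T.h (P (nat_lit 0)) (T.h (T.h (P (nat_lit 7497610068)) (T.h (P (nat_lit 0)) (M (nat_lit 1051199821535)))) (T.h (P (nat_lit 0)) (M (nat_lit 2655035259959))))) (T.h (T.h (T.h (P (nat_lit 0)) (M (nat_lit 92256890863))) (P (nat_lit 0))) (T.h (T.h (P (nat_lit 0)) (M (nat_lit 940370716459))) (P (nat_lit 0))))))) (P (nat_lit 0))) (P (nat_lit 0)))))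
def en00_1 : T ℤ := (T.h (T.h (P (nat_lit 0)) (T.h (P (nat_lit 0)) (T.h (T.h (T.h (P (nat_lit 0)) (T.h (T.h (P (nat_lit 2304880208)) (T.h (P (nat_lit 0)) (T.h (M (nat_lit 4769294583)) (T.h (P (nat_lit 0)) (P (nat_lit 411441117928)))))) (T.h (P (nat_lit 0)) (T.h (T.h (P (nat_lit 177415499316)) (T.h (P (nat_lit 0)) (M (nat_lit 2048133869667)))) (T.h (P (nat_lit 0)) (P (nat_lit 42918626836))))))) (T.h (T.h (T.h (P (nat_lit 0)) (T.h (P (nat_lit 282540344)) (T.h (P (nat_lit 0)) (T.h (M (nat_lit 113344523007)) (T.h (P (nat_lit 0)) (P (nat_lit 2977537086252))))))) (T.h (P (nat_lit 0)) (T.h (T.h (P (nat_lit 0)) (T.h (M (nat_lit 124970705475)) (T.h (P (nat_lit 0)) (M (nat_lit 19769098048075))))) (T.h (P (nat_lit 0)) (T.h (T.h (P (nat_lit 0)) (P (nat_lit 11734624776644))) (P (nat_lit 0))))))) (T.h (T.h (P (nat_lit 0)) (T.h (T.h (P (nat_lit 65174990392)) (T.h (P (nat_lit 0)) (M (nat_lit 266368764371))))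 (T.h (P (nat_lit 0)) (M (nat_lit 2518217842955))))) (T.h (T.h (T.h (P (nat_lit 0)) (T.h (P (nat_lit 13421479684)) (T.h (P (nat_lit 0)) (M (nat_lit 1919753958079))))) (T.h (P (nat_lit 0)) (T.h (T.h (P (nat_lit 0)) (P (nat_lit 3037523266348))) (P (nat_lit 0))))) (T.h (T.h (P (nat_lit 0)) (M (nat_lit 856264227635))) (T.h (T.h (T.h (P (nat_lit 0)) (M (nat_lit 5631760208915))) (P (nat_lit 0))) (P (nat_lit 0)))))))) (T.h (P (nat_lit 0)) (T.h (T.h (T.h (P (nat_lit 0)) (T.h (T.h (M (nat_lit 11476931071)) (T.h (P (nat_lit 0)) (T.h (P (nat_lit 1123688970460)) (T.h (P (nat_lit 0)) (M (nat_lit 6482409106659)))))) (T.h (P (nat_lit 0)) (T.h (T.h (M (nat_lit 273794546579)) (T.h (P (nat_lit 0)) (P (nat_lit 10527531333752)))) (T.h (P (nat_lit 0)) (P (nat_lit 4145567647808))))))) (T.h (T.h (T.h (P (nat_lit 0)) (T.h (M (nat_lit 53824456511)) (T.h (P (nat_lit 0)) (P (nat_lit 4350077317928))))) (T.h (P (nat_lit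 0)) (T.h (T.h (P (nat_lit 0)) (P (nat_lit 13850743947416))) (P (nat_lit 0))))) (T.h (T.h (P (nat_lit 0)) (T.h (T.h (P (nat_lit 353179207728)) (T.h (P (nat_lit 0)) (M (nat_lit 46314397769531)))) (T.h (P (nat_lit 0)) (M (nat_lit 9597521096483))))) (T.h (T.h (T.h (P (nat_lit 0)) (M (nat_lit 2355258886975))) (P (nat_lit 0))) (T.h (T.h (P (nat_lit 0)) (M (nat_lit 18784799521659))) (P (nat_lit 0))))))) (P (nat_lit 0))))))) (T.h (T.h (P (nat_lit 0)) (T.h (T.h (T.h (T.h (P (nat_lit 0)) (T.h (M (nat_lit 89084019)) (T.h (P (nat_lit 0)) (T.h (M (nat_lit 2889254635)) (T.h (P (nat_lit 0)) (P (nat_lit 306243867184))))))) (T.h (P (nat_lit 0)) (T.h (T.h (P (nat_lit 0)) (T.h (M (nat_lit 51061914555)) (T.h (P (nat_lit 0)) (P (nat_lit 990863775636))))) (T.h (P (nat_lit 0)) (T.h (T.h (P (nat_lit 0)) (M (nat_lit 1643237684047))) (P (nat_lit 0))))))) (T.h (T.h (P (nat_lit 0)) (T.h (T.h (P (nat_lit 1759120356))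 (T.h (P (nat_lit 0)) (T.h (M (nat_lit 266300321879)) (T.h (P (nat_lit 0)) (P (nat_lit 4407661721148)))))) (T.h (P (nat_lit 0)) (T.h (T.h (M (nat_lit 225870619839)) (T.h (P (nat_lit 0)) (P (nat_lit 11815925396024)))) (T.h (P (nat_lit 0)) (P (nat_lit 24687143610564))))))) (T.h (T.h (T.h (P (nat_lit 0)) (T.h (M (nat_lit 6999727227)) (T.h (P (nat_lit 0)) (P (nat_lit 438382533192))))) (T.h (P (nat_lit 0)) (T.h (T.h (P (nat_lit 0)) (P (nat_lit 997720630372))) (P (nat_lit 0))))) (T.h (T.h (P (nat_lit 0)) (T.h (T.h (P (nat_lit 44208247972)) (T.h (P (nat_lit 0)) (P (nat_lit 659868538492)))) (T.h (P (nat_lit 0)) (P (nat_lit 1936249322692))))) (T.h (T.h (T.h (P (nat_lit 0)) (P (nat_lit 146784514160))) (P (nat_lit 0))) (T.h (T.h (P (nat_lit 0)) (M (nat_lit 1101669329391))) (P (nat_lit 0)))))))) (T.h (P (nat_lit 0)) (T.h (T.h (T.h (T.h (P (nat_lit 0)) (T.h (P (nat_lit 3622660884)) (T.h (P (nat_lit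 0)) (T.h (M (nat_lit 51728881979)) (T.h (P (nat_lit 0)) (P (nat_lit 563022471588))))))) (T.h (P (nat_lit 0)) (T.h (T.h (P (nat_lit 0)) (T.h (M (nat_lit 621922421831)) (T.h (P (nat_lit 0)) (P (nat_lit 2777049595252))))) (T.h (P (nat_lit 0)) (T.h (T.h (P (nat_lit 0)) (P (nat_lit 67185962351320))) (P (nat_lit 0))))))) (T.h (T.h (P (nat_lit 0)) (T.h (T.h (M (nat_lit 6217123479)) (T.h (P (nat_lit 0)) (M (nat_lit 2365108767407)))) (T.h (P (nat_lit 0)) (M (nat_lit 5127791079143))))) (T.h (T.h (T.h (P (nat_lit 0)) (T.h (M (nat_lit 874322999)) (T.h (P (nat_lit 0)) (P (nat_lit 8651504345700))))) (T.h (P (nat_lit 0)) (T.h (T.h (P (nat_lit 0)) (M (nat_lit 10161657522923))) (P (nat_lit 0))))) (T.h (T.h (P (nat_lit 0)) (P (nat_lit 1759442450032))) (T.h (T.h (T.h (P (nat_lit 0)) (P (nat_lit 15807580178060))) (P (nat_lit 0))) (P (nat_lit 0))))))) (P (nat_lit 0)))))) en00_0))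
def en00_2 : T ℤ := (T.h (T.h (P (nat_lit 0)) (T.h (P (nat_lit 0)) (T.h (P (nat_lit 0)) (T.h (P (nat_lit 0)) (T.h (T.h (T.h (P (nat_lit 0)) (T.h (T.h (P (nat_lit 862458284)) (T.h (P (nat_lit 0)) (T.h (P (nat_lit 71187049928)) (T.h (P (nat_lit 0)) (M (nat_lit 329581830207)))))) (T.h (P (nat_lit 0)) (T.h (T.h (M (nat_lit 83188550935)) (T.h (P (nat_lit 0)) (M (nat_lit 3217308343783)))) (T.h (P (nat_lit 0)) (P (nat_lit 2108022349496))))))) (T.h (T.h (T.h (P (nat_lit 0)) (T.h (M (nat_lit 13689031495)) (T.h (P (nat_lit 0)) (T.h (P (nat_lit 566967802736)) (T.h (P (nat_lit 0)) (P (nat_lit 15950269325884))))))) (T.h (P (nat_lit 0)) (T.h (T.h (P (nat_lit 0)) (T.h (M (nat_lit 1423723492087)) (T.h (P (nat_lit 0)) (P (nat_lit 30802320955956))))) (T.h (P (nat_lit 0)) (T.h (T.h (P (nat_lit 0)) (M (nat_lit 12133504956719))) (P (nat_lit 0))))))) (T.h (T.h (P (nat_lit 0)) (T.h (T.h (M (nat_lit 47321484167))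 (T.h (P (nat_lit 0)) (M (nat_lit 10728874518379)))) (T.h (P (nat_lit 0)) (P (nat_lit 1970430919512))))) (T.h (T.h (T.h (P (nat_lit 0)) (T.h (P (nat_lit 289396358192)) (T.h (P (nat_lit 0)) (P (nat_lit 19600401981004))))) (T.h (P (nat_lit 0)) (T.h (T.h (P (nat_lit 0)) (P (nat_lit 11153547558584))) (P (nat_lit 0))))) (T.h (T.h (P (nat_lit 0)) (P (nat_lit 179048372828))) (T.h (T.h (T.h (P (nat_lit 0)) (P (nat_lit 8442131374512))) (P (nat_lit 0))) (P (nat_lit 0)))))))) (T.h (P (nat_lit 0)) (T.h (T.h (T.h (P (nat_lit 0)) (T.h (T.h (P (nat_lit 3622660884)) (T.h (P (nat_lit 0)) (T.h (M (nat_lit 621922421831)) (T.h (P (nat_lit 0)) (P (nat_lit 67185962351320)))))) (T.h (P (nat_lit 0)) (T.h (T.h (M (nat_lit 51728881979)) (T.h (P (nat_lit 0)) (P (nat_lit 2777049595252)))) (T.h (P (nat_lit 0)) (P (nat_lit 563022471588))))))) (T.h (T.h (T.h (P (nat_lit 0)) (T.h (M (nat_lit 6217123479)) (T.h (P (nat_lit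 0)) (M (nat_lit 5127791079143))))) (T.h (P (nat_lit 0)) (T.h (T.h (P (nat_lit 0)) (M (nat_lit 2365108767407))) (P (nat_lit 0))))) (T.h (T.h (P (nat_lit 0)) (T.h (T.h (M (nat_lit 874322999)) (T.h (P (nat_lit 0)) (M (nat_lit 10161657522923)))) (T.h (P (nat_lit 0)) (P (nat_lit 8651504345700))))) (T.h (T.h (T.h (P (nat_lit 0)) (P (nat_lit 1759442450032))) (P (nat_lit 0))) (T.h (T.h (P (nat_lit 0)) (P (nat_lit 15807580178060))) (P (nat_lit 0))))))) (P (nat_lit 0))))))))) (T.h (T.h (P (nat_lit 0)) (T.h (P (nat_lit 0)) (T.h (P (nat_lit 0)) (T.h (T.h (T.h (T.h (P (nat_lit 0)) (T.h (P (nat_lit 862458284)) (T.h (P (nat_lit 0)) (T.h (M (nat_lit 83188550935)) (T.h (P (nat_lit 0)) (P (nat_lit 2108022349496))))))) (T.h (P (nat_lit 0)) (T.h (T.h (P (nat_lit 0)) (T.h (P (nat_lit 71187049928)) (T.h (P (nat_lit 0)) (M (nat_lit 3217308343783))))) (T.h (P (nat_lit 0)) (T.h (T.h (P (nat_lit 0)) (M (nat_lit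 329581830207))) (P (nat_lit 0))))))) (T.h (T.h (P (nat_lit 0)) (T.h (T.h (M (nat_lit 13689031495)) (T.h (P (nat_lit 0)) (T.h (M (nat_lit 1423723492087)) (T.h (P (nat_lit 0)) (M (nat_lit 12133504956719)))))) (T.h (P (nat_lit 0)) (T.h (T.h (P (nat_lit 566967802736)) (T.h (P (nat_lit 0)) (P (nat_lit 30802320955956)))) (T.h (P (nat_lit 0)) (P (nat_lit 15950269325884))))))) (T.h (T.h (T.h (P (nat_lit 0)) (T.h (M (nat_lit 47321484167)) (T.h (P (nat_lit 0)) (P (nat_lit 1970430919512))))) (T.h (P (nat_lit 0)) (T.h (T.h (P (nat_lit 0)) (M (nat_lit 10728874518379))) (P (nat_lit 0))))) (T.h (T.h (P (nat_lit 0)) (T.h (T.h (P (nat_lit 289396358192)) (T.h (P (nat_lit 0)) (P (nat_lit 11153547558584)))) (T.h (P (nat_lit 0)) (P (nat_lit 19600401981004))))) (T.h (T.h (T.h (P (nat_lit 0)) (P (nat_lit 179048372828))) (P (nat_lit 0))) (T.h (T.h (P (nat_lit 0)) (P (nat_lit 8442131374512))) (P (nat_lit 0))))))))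 (T.h (P (nat_lit 0)) (T.h (T.h (T.h (T.h (P (nat_lit 0)) (T.h (M (nat_lit 11476931071)) (T.h (P (nat_lit 0)) (T.h (M (nat_lit 273794546579)) (T.h (P (nat_lit 0)) (P (nat_lit 4145567647808))))))) (T.h (P (nat_lit 0)) (T.h (T.h (P (nat_lit 0)) (T.h (P (nat_lit 1123688970460)) (T.h (P (nat_lit 0)) (P (nat_lit 10527531333752))))) (T.h (P (nat_lit 0)) (T.h (T.h (P (nat_lit 0)) (M (nat_lit 6482409106659))) (P (nat_lit 0))))))) (T.h (T.h (P (nat_lit 0)) (T.h (T.h (M (nat_lit 53824456511)) (T.h (P (nat_lit 0)) (P (nat_lit 13850743947416)))) (T.h (P (nat_lit 0)) (P (nat_lit 4350077317928))))) (T.h (T.h (T.h (P (nat_lit 0)) (T.h (P (nat_lit 353179207728)) (T.h (P (nat_lit 0)) (M (nat_lit 9597521096483))))) (T.h (P (nat_lit 0)) (T.h (T.h (P (nat_lit 0)) (M (nat_lit 46314397769531))) (P (nat_lit 0))))) (T.h (T.h (P (nat_lit 0)) (M (nat_lit 2355258886975))) (T.h (T.h (T.h (P (nat_lit 0)) (M (nat_lit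 18784799521659))) (P (nat_lit 0))) (P (nat_lit 0))))))) (P (nat_lit 0)))))))) en00_1))
def en00_3 : T ℤ := (T.h (T.h (P (nat_lit 0)) (T.h (P (nat_lit 0)) (T.h (P (nat_lit 0)) (T.h (P (nat_lit 0)) (T.h (P (nat_lit 0)) (T.h (P (nat_lit 0)) (T.h (T.h (T.h (P (nat_lit 0)) (T.h (T.h (M (nat_lit 89084019)) (T.h (P (nat_lit 0)) (T.h (M (nat_lit 51061914555)) (T.h (P (nat_lit 0)) (M (nat_lit 1643237684047)))))) (T.h (P (nat_lit 0)) (T.h (T.h (M (nat_lit 2889254635)) (T.h (P (nat_lit 0)) (P (nat_lit 990863775636)))) (T.h (P (nat_lit 0)) (P (nat_lit 306243867184))))))) (T.h (T.h (T.h (P (nat_lit 0)) (T.h (P (nat_lit 1759120356)) (T.h (P (nat_lit 0)) (T.h (M (nat_lit 225870619839)) (T.h (P (nat_lit 0)) (P (nat_lit 24687143610564))))))) (T.h (P (nat_lit 0)) (T.h (T.h (P (nat_lit 0)) (T.h (M (nat_lit 266300321879)) (T.h (P (nat_lit 0)) (P (nat_lit 11815925396024))))) (T.h (P (nat_lit 0)) (T.h (T.h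 (P (nat_lit 0)) (P (nat_lit 4407661721148))) (P (nat_lit 0))))))) (T.h (T.h (P (nat_lit 0)) (T.h (T.h (M (nat_lit 6999727227)) (T.h (P (nat_lit 0)) (P (nat_lit 997720630372)))) (T.h (P (nat_lit 0)) (P (nat_lit 438382533192))))) (T.h (T.h (T.h (P (nat_lit 0)) (T.h (P (nat_lit 44208247972)) (T.h (P (nat_lit 0)) (P (nat_lit 1936249322692))))) (T.h (P (nat_lit 0)) (T.h (T.h (P (nat_lit 0)) (P (nat_lit 659868538492))) (P (nat_lit 0))))) (T.h (T.h (P (nat_lit 0)) (P (nat_lit 146784514160))) (T.h (T.h (T.h (P (nat_lit 0)) (M (nat_lit 1101669329391))) (P (nat_lit 0))) (P (nat_lit 0)))))))) (T.h (P (nat_lit 0)) (T.h (T.h (T.h (P (nat_lit 0)) (T.h (T.h (P (nat_lit 401202000)) (T.h (P (nat_lit 0)) (T.h (P (nat_lit 132033760396)) (T.h (P (nat_lit 0)) (M (nat_lit 10954700798983)))))) (T.h (P (nat_lit 0)) (T.h (T.h (P (nat_lit 193401020)) (T.h (P (nat_lit 0)) (M (nat_lit 972586501071)))) (T.h (P (nat_lit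 0)) (M (nat_lit 435051246951))))))) (T.h (T.h (T.h (P (nat_lit 0)) (T.h (M (nat_lit 3750712711)) (T.h (P (nat_lit 0)) (M (nat_lit 317125588127))))) (T.h (P (nat_lit 0)) (T.h (T.h (P (nat_lit 0)) (M (nat_lit 305142427591))) (P (nat_lit 0))))) (T.h (T.h (P (nat_lit 0)) (T.h (T.h (M (nat_lit 2232690347)) (T.h (P (nat_lit 0)) (M (nat_lit 8421400337243)))) (T.h (P (nat_lit 0)) (M (nat_lit 1088592424967))))) (T.h (T.h (T.h (P (nat_lit 0)) (M (nat_lit 86693591455))) (P (nat_lit 0))) (T.h (T.h (P (nat_lit 0)) (M (nat_lit 1713971080759))) (P (nat_lit 0))))))) (P (nat_lit 0))))))))))) (T.h (T.h (P (nat_lit 0)) (T.h (P (nat_lit 0)) (T.h (P (nat_lit 0)) (T.h (P (nat_lit 0)) (T.h (P (nat_lit 0)) (T.h (T.h (T.h (T.h (P (nat_lit 0)) (T.h (P (nat_lit 2304880208)) (T.h (P (nat_lit 0)) (T.h (P (nat_lit 177415499316)) (T.h (P (nat_lit 0)) (P (nat_lit 42918626836))))))) (T.h (P (nat_lit 0)) (T.h (T.h (P (nat_lit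 0)) (T.h (M (nat_lit 4769294583)) (T.h (P (nat_lit 0)) (M (nat_lit 2048133869667))))) (T.h (P (nat_lit 0)) (T.h (T.h (P (nat_lit 0)) (P (nat_lit 411441117928))) (P (nat_lit 0))))))) (T.h (T.h (P (nat_lit 0)) (T.h (T.h (P (nat_lit 282540344)) (T.h (P (nat_lit 0)) (T.h (M (nat_lit 124970705475)) (T.h (P (nat_lit 0)) (P (nat_lit 11734624776644)))))) (T.h (P (nat_lit 0)) (T.h (T.h (M (nat_lit 113344523007)) (T.h (P (nat_lit 0)) (M (nat_lit 19769098048075)))) (T.h (P (nat_lit 0)) (P (nat_lit 2977537086252))))))) (T.h (T.h (T.h (P (nat_lit 0)) (T.h (P (nat_lit 65174990392)) (T.h (P (nat_lit 0)) (M (nat_lit 2518217842955))))) (T.h (P (nat_lit 0)) (T.h (T.h (P (nat_lit 0)) (M (nat_lit 266368764371))) (P (nat_lit 0))))) (T.h (T.h (P (nat_lit 0)) (T.h (T.h (P (nat_lit 13421479684)) (T.h (P (nat_lit 0)) (P (nat_lit 3037523266348)))) (T.h (P (nat_lit 0)) (M (nat_lit 1919753958079))))) (T.h (T.h (T.h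 (P (nat_lit 0)) (M (nat_lit 856264227635))) (P (nat_lit 0))) (T.h (T.h (P (nat_lit 0)) (M (nat_lit 5631760208915))) (P (nat_lit 0)))))))) (T.h (P (nat_lit 0)) (T.h (T.h (T.h (T.h (P (nat_lit 0)) (T.h (P (nat_lit 364313088)) (T.h (P (nat_lit 0)) (T.h (P (nat_lit 716160306856)) (T.h (P (nat_lit 0)) (M (nat_lit 11150579149519))))))) (T.h (P (nat_lit 0)) (T.h (T.h (P (nat_lit 0)) (T.h (M (nat_lit 51206329255)) (T.h (P (nat_lit 0)) (M (nat_lit 922640087167))))) (T.h (P (nat_lit 0)) (T.h (T.h (P (nat_lit 0)) (P (nat_lit 1452247209668))) (P (nat_lit 0))))))) (T.h (T.h (P (nat_lit 0)) (T.h (T.h (P (nat_lit 24993278432)) (T.h (P (nat_lit 0)) (P (nat_lit 228656868672)))) (T.h (P (nat_lit 0)) (M (nat_lit 297387238943))))) (T.h (T.h (T.h (P (nat_lit 0)) (T.h (M (nat_lit 117621695939)) (T.h (P (nat_lit 0)) (P (nat_lit 8378314667592))))) (T.h (P (nat_lit 0)) (T.h (T.h (P (nat_lit 0)) (P (nat_lit 625345891476)))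 (P (nat_lit 0))))) (T.h (T.h (P (nat_lit 0)) (M (nat_lit 316525650751))) (T.h (T.h (T.h (P (nat_lit 0)) (P (nat_lit 4227978417300))) (P (nat_lit 0))) (P (nat_lit 0))))))) (P (nat_lit 0)))))))))) en00_2))
def en00_4 : T ℤ := (T.h (T.h (T.h (T.h (P (nat_lit 0)) (T.h (T.h (P (nat_lit 0)) (T.h (M (nat_lit 1261866695)) (T.h (P (nat_lit 0)) (T.h (M (nat_lit 50865851087)) (T.h (P (nat_lit 0)) (P (nat_lit 1190908831856))))))) (T.h (P (nat_lit 0)) (T.h (T.h (P (nat_lit 0)) (T.h (M (nat_lit 324964279575)) (T.h (P (nat_lit 0)) (P (nat_lit 6450281285560))))) (T.h (P (nat_lit 0)) (T.h (T.h (P (nat_lit 0)) (M (nat_lit 17294135928631))) (P (nat_lit 0)))))))) (T.h (T.h (T.h (M (nat_lit 2502619047)) (T.h (P (nat_lit 0)) (T.h (M (nat_lit 7320450303)) (T.h (P (nat_lit 0)) (P (nat_lit 58013064464)))))) (T.h (P (nat_lit 0)) (T.h (T.h (P (nat_lit 12028464336)) (T.h (P (nat_lit 0)) (P (nat_lit 780014585104))))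 (T.h (P (nat_lit 0)) (P (nat_lit 6460839857328)))))) (T.h (T.h (P (nat_lit 0)) (T.h (T.h (P (nat_lit 0)) (T.h (P (nat_lit 1496781984)) (T.h (P (nat_lit 0)) (P (nat_lit 1825608648928))))) (T.h (P (nat_lit 0)) (T.h (T.h (P (nat_lit 0)) (M (nat_lit 21292391059167))) (P (nat_lit 0)))))) (T.h (T.h (T.h (P (nat_lit 7135613160)) (T.h (P (nat_lit 0)) (P (nat_lit 53037801160)))) (T.h (P (nat_lit 0)) (P (nat_lit 1623359180624)))) (T.h (T.h (P (nat_lit 0)) (T.h (T.h (P (nat_lit 0)) (P (nat_lit 6123607364944))) (P (nat_lit 0)))) (P (nat_lit 27294566120))))))) (T.h (P (nat_lit 0)) (T.h (T.h (T.h (P (nat_lit 0)) (T.h (T.h (P (nat_lit 0)) (T.h (P (nat_lit 18369735540)) (T.h (P (nat_lit 0)) (P (nat_lit 267200740744))))) (T.h (P (nat_lit 0)) (T.h (T.h (P (nat_lit 0)) (M (nat_lit 1295195049175))) (P (nat_lit 0)))))) (T.h (T.h (T.h (M (nat_lit 412849823)) (T.h (P (nat_lit 0)) (T.h (P (nat_lit 13993552968))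 (T.h (P (nat_lit 0)) (P (nat_lit 5232358169144)))))) (T.h (P (nat_lit 0)) (T.h (T.h (P (nat_lit 281248367064)) (T.h (P (nat_lit 0)) (M (nat_lit 4581490401583)))) (T.h (P (nat_lit 0)) (P (nat_lit 16635817342784)))))) (T.h (T.h (P (nat_lit 0)) (T.h (T.h (P (nat_lit 0)) (M (nat_lit 2650287474083))) (P (nat_lit 0)))) (T.h (T.h (T.h (M (nat_lit 9491421487)) (T.h (P (nat_lit 0)) (M (nat_lit 1495853935887)))) (T.h (P (nat_lit 0)) (M (nat_lit 24124817777343)))) (T.h (P (nat_lit 0)) (P (nat_lit 360509025792))))))) (P (nat_lit 0))))) (T.h (T.h (P (nat_lit 0)) (T.h (T.h (T.h (T.h (P (nat_lit 33811156)) (T.h (P (nat_lit 0)) (T.h (P (nat_lit 8182613044)) (T.h (P (nat_lit 0)) (P (nat_lit 177092440952)))))) (T.h (P (nat_lit 0)) (T.h (T.h (P (nat_lit 18512829316)) (T.h (P (nat_lit 0)) (P (nat_lit 119358297216)))) (T.h (P (nat_lit 0)) (M (nat_lit 4637652491895)))))) (T.h (T.h (P (nat_lit 0)) (T.h (T.h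 (P (nat_lit 0)) (T.h (P (nat_lit 152836048968)) (T.h (P (nat_lit 0)) (M (nat_lit 1943919455999))))) (T.h (P (nat_lit 0)) (T.h (T.h (P (nat_lit 0)) (P (nat_lit 14729201091560))) (P (nat_lit 0)))))) (T.h (T.h (T.h (P (nat_lit 154363764)) (T.h (P (nat_lit 0)) (M (nat_lit 303270917987)))) (T.h (P (nat_lit 0)) (P (nat_lit 1269436843116)))) (T.h (T.h (P (nat_lit 0)) (T.h (T.h (P (nat_lit 0)) (M (nat_lit 4353340825951))) (P (nat_lit 0)))) (M (nat_lit 71384425439)))))) (P (nat_lit 0)))) (T.h (T.h (T.h (T.h (P (nat_lit 0)) (T.h (T.h (P (nat_lit 0)) (T.h (P (nat_lit 686848084)) (T.h (P (nat_lit 0)) (M (nat_lit 211689077543))))) (T.h (P (nat_lit 0)) (T.h (T.h (P (nat_lit 0)) (P (nat_lit 432047369068))) (P (nat_lit 0)))))) (T.h (T.h (T.h (P (nat_lit 94265224)) (T.h (P (nat_lit 0)) (T.h (M (nat_lit 10327292983)) (T.h (P (nat_lit 0)) (M (nat_lit 622562645319)))))) (T.h (P (nat_lit 0)) (T.h (T.h (M (nat_lit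 313104804759)) (T.h (P (nat_lit 0)) (P (nat_lit 2529535733408)))) (T.h (P (nat_lit 0)) (P (nat_lit 4594903721520)))))) (T.h (T.h (P (nat_lit 0)) (T.h (T.h (P (nat_lit 0)) (P (nat_lit 1171510696260))) (P (nat_lit 0)))) (T.h (T.h (T.h (P (nat_lit 35465613152)) (T.h (P (nat_lit 0)) (M (nat_lit 693475222879)))) (T.h (P (nat_lit 0)) (P (nat_lit 10690318726512)))) (T.h (P (nat_lit 0)) (M (nat_lit 637232890535))))))) (P (nat_lit 0))) (P (nat_lit 0)))))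
def en00_5 : T ℤ := (T.h (T.h (P (nat_lit 0)) (T.h (P (nat_lit 0)) (T.h (T.h (T.h (P (nat_lit 0)) (T.h (T.h (P (nat_lit 0)) (T.h (P (nat_lit 9202336240)) (T.h (P (nat_lit 0)) (T.h (M (nat_lit 489082064271)) (T.h (P (nat_lit 0)) (M (nat_lit 3443761647711))))))) (T.h (P (nat_lit 0)) (T.h (T.h (P (nat_lit 0)) (T.h (P (nat_lit 224151765672)) (T.h (P (nat_lit 0)) (M (nat_lit 78143153046359))))) (T.h (P (nat_lit 0)) (T.h (T.h (P (nat_lit 0)) (P (nat_lit 29093241032920))) (P (nat_lit 0)))))))) (T.h (T.h (T.h (M (nat_lit 1709603535)) (T.h (P (nat_lit 0)) (T.h (M (nat_lit 145412565559)) (T.h (P (nat_lit 0)) (P (nat_lit 64807884032)))))) (T.h (P (nat_lit 0)) (T.h (T.h (P (nat_lit 16615003808)) (T.h (P (nat_lit 0)) (M (nat_lit 3561967195879)))) (T.h (P (nat_lit 0)) (P (nat_lit 2823999007936)))))) (T.h (T.h (P (nat_lit 0)) (T.h (T.h (P (nat_lit 0)) (T.h (P (nat_lit 276022367008)) (T.h (P (nat_lit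 0)) (P (nat_lit 12910099114136))))) (T.h (P (nat_lit 0)) (T.h (T.h (P (nat_lit 0)) (M (nat_lit 585481940791))) (P (nat_lit 0)))))) (T.h (T.h (T.h (M (nat_lit 10553657623)) (T.h (P (nat_lit 0)) (M (nat_lit 413510095551)))) (T.h (P (nat_lit 0)) (M (nat_lit 341487758127)))) (T.h (T.h (P (nat_lit 0)) (T.h (T.h (P (nat_lit 0)) (M (nat_lit 7287719171831))) (P (nat_lit 0)))) (P (nat_lit 174281177960))))))) (T.h (P (nat_lit 0)) (T.h (T.h (T.h (P (nat_lit 0)) (T.h (T.h (P (nat_lit 0)) (T.h (P (nat_lit 179933834216)) (T.h (P (nat_lit 0)) (P (nat_lit 3065998614144))))) (T.h (P (nat_lit 0)) (T.h (T.h (P (nat_lit 0)) (P (nat_lit 3065998614144))) (P (nat_lit 0)))))) (T.h (T.h (T.h (P (nat_lit 1160878016)) (T.h (P (nat_lit 0)) (T.h (P (nat_lit 8338959040)) (T.h (P (nat_lit 0)) (M (nat_lit 26065995496263)))))) (T.h (P (nat_lit 0)) (T.h (T.h (P (nat_lit 8338959040)) (T.h (P (nat_lit 0)) (P (nat_lit 50774339705488))))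 (T.h (P (nat_lit 0)) (M (nat_lit 26065995496263)))))) (T.h (T.h (P (nat_lit 0)) (T.h (T.h (P (nat_lit 0)) (M (nat_lit 4212997029407))) (P (nat_lit 0)))) (T.h (T.h (T.h (M (nat_lit 58034336767)) (T.h (P (nat_lit 0)) (P (nat_lit 8437600209184)))) (T.h (P (nat_lit 0)) (P (nat_lit 8437600209184)))) (T.h (P (nat_lit 0)) (P (nat_lit 1164595318656))))))) (P (nat_lit 0))))))) (T.h (T.h (P (nat_lit 0)) (T.h (T.h (T.h (T.h (P (nat_lit 191368800)) (T.h (P (nat_lit 0)) (T.h (M (nat_lit 3551466039)) (T.h (P (nat_lit 0)) (T.h (P (nat_lit 77640980504)) (T.h (P (nat_lit 0)) (M (nat_lit 3684025561247)))))))) (T.h (P (nat_lit 0)) (T.h (T.h (M (nat_lit 10943854583)) (T.h (P (nat_lit 0)) (T.h (M (nat_lit 353038328911)) (T.h (P (nat_lit 0)) (P (nat_lit 61273207590648)))))) (T.h (P (nat_lit 0)) (T.h (T.h (P (nat_lit 662553565624)) (T.h (P (nat_lit 0)) (P (nat_lit 19738923275224)))) (T.h (P (nat_lit 0)) (P (nat_lit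 3006833027488)))))))) (T.h (T.h (P (nat_lit 0)) (T.h (T.h (P (nat_lit 0)) (T.h (P (nat_lit 7088177816)) (T.h (P (nat_lit 0)) (M (nat_lit 3419979763063))))) (T.h (P (nat_lit 0)) (T.h (T.h (P (nat_lit 0)) (P (nat_lit 9216669545936))) (P (nat_lit 0)))))) (T.h (T.h (T.h (M (nat_lit 5021990855)) (T.h (P (nat_lit 0)) (T.h (P (nat_lit 16108314072)) (T.h (P (nat_lit 0)) (M (nat_lit 7090432082271)))))) (T.h (P (nat_lit 0)) (T.h (T.h (M (nat_lit 197721503951)) (T.h (P (nat_lit 0)) (M (nat_lit 19499679855119)))) (T.h (P (nat_lit 0)) (M (nat_lit 4696993933807)))))) (T.h (T.h (P (nat_lit 0)) (T.h (T.h (P (nat_lit 0)) (P (nat_lit 73329338640))) (P (nat_lit 0)))) (T.h (T.h (T.h (M (nat_lit 21704805791)) (T.h (P (nat_lit 0)) (M (nat_lit 6165349912551)))) (T.h (P (nat_lit 0)) (M (nat_lit 130321257335)))) (T.h (P (nat_lit 0)) (P (nat_lit 254778299912)))))))) (T.h (P (nat_lit 0)) (T.h (T.h (T.h (T.h (P (nat_lit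 56337088)) (T.h (P (nat_lit 0)) (T.h (P (nat_lit 7663907340)) (T.h (P (nat_lit 0)) (P (nat_lit 327966765136)))))) (T.h (P (nat_lit 0)) (T.h (T.h (M (nat_lit 51894860131)) (T.h (P (nat_lit 0)) (M (nat_lit 15199702911)))) (T.h (P (nat_lit 0)) (M (nat_lit 2559052169731)))))) (T.h (T.h (P (nat_lit 0)) (T.h (T.h (P (nat_lit 0)) (T.h (M (nat_lit 386771056711)) (T.h (P (nat_lit 0)) (P (nat_lit 31688404091200))))) (T.h (P (nat_lit 0)) (T.h (T.h (P (nat_lit 0)) (M (nat_lit 7492551676639))) (P (nat_lit 0)))))) (T.h (T.h (T.h (M (nat_lit 2460385691)) (T.h (P (nat_lit 0)) (P (nat_lit 868130286840)))) (T.h (P (nat_lit 0)) (M (nat_lit 98739308459)))) (T.h (T.h (P (nat_lit 0)) (T.h (T.h (P (nat_lit 0)) (P (nat_lit 12942319876000))) (P (nat_lit 0)))) (M (nat_lit 18909798459)))))) (P (nat_lit 0)))))) en00_4))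
def en00_6 : T ℤ := (T.h (T.h (P (nat_lit 0)) (T.h (P (nat_lit 0)) (T.h (P (nat_lit 0)) (T.h (P (nat_lit 0)) (T.h (T.h (T.h (P (nat_lit 0)) (T.h (T.h (P (nat_lit 0)) (T.h (P (nat_lit 9202336240)) (T.h (P (nat_lit 0)) (T.h (P (nat_lit 224151765672)) (T.h (P (nat_lit 0)) (P (nat_lit 29093241032920))))))) (T.h (P (nat_lit 0)) (T.h (T.h (P (nat_lit 0)) (T.h (M (nat_lit 489082064271)) (T.h (P (nat_lit 0)) (M (nat_lit 78143153046359))))) (T.h (P (nat_lit 0)) (T.h (T.h (P (nat_lit 0)) (M (nat_lit 3443761647711))) (P (nat_lit 0)))))))) (T.h (T.h (T.h (M (nat_lit 1709603535)) (T.h (P (nat_lit 0)) (T.h (P (nat_lit 16615003808)) (T.h (P (nat_lit 0)) (P (nat_lit 2823999007936)))))) (T.h (P (nat_lit 0)) (T.h (T.h (M (nat_lit 145412565559)) (T.h (P (nat_lit 0)) (M (nat_lit 3561967195879)))) (T.h (P (nat_lit 0)) (P (nat_lit 64807884032)))))) (T.h (T.h (P (nat_lit 0)) (T.h (T.h (P (nat_lit 0)) (T.h (P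 (nat_lit 276022367008)) (T.h (P (nat_lit 0)) (M (nat_lit 585481940791))))) (T.h (P (nat_lit 0)) (T.h (T.h (P (nat_lit 0)) (P (nat_lit 12910099114136))) (P (nat_lit 0)))))) (T.h (T.h (T.h (M (nat_lit 10553657623)) (T.h (P (nat_lit 0)) (M (nat_lit 341487758127)))) (T.h (P (nat_lit 0)) (M (nat_lit 413510095551)))) (T.h (T.h (P (nat_lit 0)) (T.h (T.h (P (nat_lit 0)) (M (nat_lit 7287719171831))) (P (nat_lit 0)))) (P (nat_lit 174281177960))))))) (T.h (P (nat_lit 0)) (T.h (T.h (T.h (P (nat_lit 0)) (T.h (T.h (P (nat_lit 0)) (T.h (P (nat_lit 18369735540)) (T.h (P (nat_lit 0)) (M (nat_lit 1295195049175))))) (T.h (P (nat_lit 0)) (T.h (T.h (P (nat_lit 0)) (P (nat_lit 267200740744))) (P (nat_lit 0)))))) (T.h (T.h (T.h (M (nat_lit 412849823)) (T.h (P (nat_lit 0)) (T.h (P (nat_lit 281248367064)) (T.h (P (nat_lit 0)) (P (nat_lit 16635817342784)))))) (T.h (P (nat_lit 0)) (T.h (T.h (P (nat_lit 13993552968))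 (T.h (P (nat_lit 0)) (M (nat_lit 4581490401583)))) (T.h (P (nat_lit 0)) (P (nat_lit 5232358169144)))))) (T.h (T.h (P (nat_lit 0)) (T.h (T.h (P (nat_lit 0)) (M (nat_lit 2650287474083))) (P (nat_lit 0)))) (T.h (T.h (T.h (M (nat_lit 9491421487)) (T.h (P (nat_lit 0)) (M (nat_lit 24124817777343)))) (T.h (P (nat_lit 0)) (M (nat_lit 1495853935887)))) (T.h (P (nat_lit 0)) (P (nat_lit 360509025792))))))) (P (nat_lit 0))))))))) (T.h (T.h (P (nat_lit 0)) (T.h (P (nat_lit 0)) (T.h (P (nat_lit 0)) (T.h (T.h (T.h (T.h (M (nat_lit 141310703)) (T.h (P (nat_lit 0)) (T.h (M (nat_lit 18892347735)) (T.h (P (nat_lit 0)) (T.h (P (nat_lit 83451296008)) (T.h (P (nat_lit 0)) (M (nat_lit 18834479904247)))))))) (T.h (P (nat_lit 0)) (T.h (T.h (M (nat_lit 18892347735)) (T.h (P (nat_lit 0)) (T.h (M (nat_lit 961517485599)) (T.h (P (nat_lit 0)) (P (nat_lit 11047063553744)))))) (T.h (P (nat_lit 0)) (T.h (T.h (P (nat_lit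 83451296008)) (T.h (P (nat_lit 0)) (P (nat_lit 11047063553744)))) (T.h (P (nat_lit 0)) (M (nat_lit 18834479904247)))))))) (T.h (T.h (P (nat_lit 0)) (T.h (T.h (P (nat_lit 0)) (T.h (M (nat_lit 446944937311)) (T.h (P (nat_lit 0)) (M (nat_lit 31794736113863))))) (T.h (P (nat_lit 0)) (T.h (T.h (P (nat_lit 0)) (M (nat_lit 31794736113863))) (P (nat_lit 0)))))) (T.h (T.h (T.h (M (nat_lit 12034916511)) (T.h (P (nat_lit 0)) (T.h (P (nat_lit 218786060760)) (T.h (P (nat_lit 0)) (M (nat_lit 17670296707007)))))) (T.h (P (nat_lit 0)) (T.h (T.h (P (nat_lit 218786060760)) (T.h (P (nat_lit 0)) (P (nat_lit 72187693691280)))) (T.h (P (nat_lit 0)) (M (nat_lit 17670296707007)))))) (T.h (T.h (P (nat_lit 0)) (T.h (T.h (P (nat_lit 0)) (P (nat_lit 1426830037360))) (P (nat_lit 0)))) (T.h (T.h (T.h (P (nat_lit 119716733856)) (T.h (P (nat_lit 0)) (P (nat_lit 12043471746168)))) (T.h (P (nat_lit 0)) (P (nat_lit 12043471746168))))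 (T.h (P (nat_lit 0)) (M (nat_lit 1722308314943)))))))) (T.h (P (nat_lit 0)) (T.h (T.h (T.h (T.h (P (nat_lit 56337088)) (T.h (P (nat_lit 0)) (T.h (M (nat_lit 51894860131)) (T.h (P (nat_lit 0)) (M (nat_lit 2559052169731)))))) (T.h (P (nat_lit 0)) (T.h (T.h (P (nat_lit 7663907340)) (T.h (P (nat_lit 0)) (M (nat_lit 15199702911)))) (T.h (P (nat_lit 0)) (P (nat_lit 327966765136)))))) (T.h (T.h (P (nat_lit 0)) (T.h (T.h (P (nat_lit 0)) (T.h (M (nat_lit 386771056711)) (T.h (P (nat_lit 0)) (M (nat_lit 7492551676639))))) (T.h (P (nat_lit 0)) (T.h (T.h (P (nat_lit 0)) (P (nat_lit 31688404091200))) (P (nat_lit 0)))))) (T.h (T.h (T.h (M (nat_lit 2460385691)) (T.h (P (nat_lit 0)) (M (nat_lit 98739308459)))) (T.h (P (nat_lit 0)) (P (nat_lit 868130286840)))) (T.h (T.h (P (nat_lit 0)) (T.h (T.h (P (nat_lit 0)) (P (nat_lit 12942319876000))) (P (nat_lit 0)))) (M (nat_lit 18909798459)))))) (P (nat_lit 0))))))))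 en00_5))
def en00_7 : T ℤ := (T.h (T.h (P (nat_lit 0)) (T.h (P (nat_lit 0)) (T.h (P (nat_lit 0)) (T.h (P (nat_lit 0)) (T.h (P (nat_lit 0)) (T.h (P (nat_lit 0)) (T.h (T.h (T.h (P (nat_lit 0)) (T.h (T.h (P (nat_lit 0)) (T.h (M (nat_lit 1261866695)) (T.h (P (nat_lit 0)) (T.h (M (nat_lit 324964279575)) (T.h (P (nat_lit 0)) (M (nat_lit 17294135928631))))))) (T.h (P (nat_lit 0)) (T.h (T.h (P (nat_lit 0)) (T.h (M (nat_lit 50865851087)) (T.h (P (nat_lit 0)) (P (nat_lit 6450281285560))))) (T.h (P (nat_lit 0)) (T.h (T.h (P (nat_lit 0)) (P (nat_lit 1190908831856))) (P (nat_lit 0)))))))) (T.h (T.h (T.h (M (nat_lit 2502619047)) (T.h (P (nat_lit 0)) (T.h (P (nat_lit 12028464336)) (T.h (P (nat_lit 0)) (P (nat_lit 6460839857328)))))) (T.h (P (nat_lit 0)) (T.h (T.h (M (nat_lit 7320450303)) (T.h (P (nat_lit 0)) (P (nat_lit 780014585104)))) (T.h (P (nat_lit 0)) (P (nat_lit 58013064464)))))) (T.h (T.h (P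 (nat_lit 0)) (T.h (T.h (P (nat_lit 0)) (T.h (P (nat_lit 1496781984)) (T.h (P (nat_lit 0)) (M (nat_lit 21292391059167))))) (T.h (P (nat_lit 0)) (T.h (T.h (P (nat_lit 0)) (P (nat_lit 1825608648928))) (P (nat_lit 0)))))) (T.h (T.h (T.h (P (nat_lit 7135613160)) (T.h (P (nat_lit 0)) (P (nat_lit 1623359180624)))) (T.h (P (nat_lit 0)) (P (nat_lit 53037801160)))) (T.h (T.h (P (nat_lit 0)) (T.h (T.h (P (nat_lit 0)) (P (nat_lit 6123607364944))) (P (nat_lit 0)))) (P (nat_lit 27294566120))))))) (T.h (P (nat_lit 0)) (T.h (T.h (T.h (P (nat_lit 0)) (T.h (T.h (P (nat_lit 0)) (T.h (P (nat_lit 686848084)) (T.h (P (nat_lit 0)) (P (nat_lit 432047369068))))) (T.h (P (nat_lit 0)) (T.h (T.h (P (nat_lit 0)) (M (nat_lit 211689077543))) (P (nat_lit 0)))))) (T.h (T.h (T.h (P (nat_lit 94265224)) (T.h (P (nat_lit 0)) (T.h (M (nat_lit 313104804759)) (T.h (P (nat_lit 0)) (P (nat_lit 4594903721520)))))) (T.h (P (nat_lit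 0)) (T.h (T.h (M (nat_lit 10327292983)) (T.h (P (nat_lit 0)) (P (nat_lit 2529535733408)))) (T.h (P (nat_lit 0)) (M (nat_lit 622562645319)))))) (T.h (T.h (P (nat_lit 0)) (T.h (T.h (P (nat_lit 0)) (P (nat_lit 1171510696260))) (P (nat_lit 0)))) (T.h (T.h (T.h (P (nat_lit 35465613152)) (T.h (P (nat_lit 0)) (P (nat_lit 10690318726512)))) (T.h (P (nat_lit 0)) (M (nat_lit 693475222879)))) (T.h (P (nat_lit 0)) (M (nat_lit 637232890535))))))) (P (nat_lit 0))))))))))) (T.h (T.h (P (nat_lit 0)) (T.h (P (nat_lit 0)) (T.h (P (nat_lit 0)) (T.h (P (nat_lit 0)) (T.h (P (nat_lit 0)) (T.h (T.h (T.h (T.h (P (nat_lit 191368800)) (T.h (P (nat_lit 0)) (T.h (M (nat_lit 10943854583)) (T.h (P (nat_lit 0)) (T.h (P (nat_lit 662553565624)) (T.h (P (nat_lit 0)) (P (nat_lit 3006833027488)))))))) (T.h (P (nat_lit 0)) (T.h (T.h (M (nat_lit 3551466039)) (T.h (P (nat_lit 0)) (T.h (M (nat_lit 353038328911)) (T.h (P (nat_lit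 0)) (P (nat_lit 19738923275224)))))) (T.h (P (nat_lit 0)) (T.h (T.h (P (nat_lit 77640980504)) (T.h (P (nat_lit 0)) (P (nat_lit 61273207590648)))) (T.h (P (nat_lit 0)) (M (nat_lit 3684025561247)))))))) (T.h (T.h (P (nat_lit 0)) (T.h (T.h (P (nat_lit 0)) (T.h (P (nat_lit 7088177816)) (T.h (P (nat_lit 0)) (P (nat_lit 9216669545936))))) (T.h (P (nat_lit 0)) (T.h (T.h (P (nat_lit 0)) (M (nat_lit 3419979763063))) (P (nat_lit 0)))))) (T.h (T.h (T.h (M (nat_lit 5021990855)) (T.h (P (nat_lit 0)) (T.h (M (nat_lit 197721503951)) (T.h (P (nat_lit 0)) (M (nat_lit 4696993933807)))))) (T.h (P (nat_lit 0)) (T.h (T.h (P (nat_lit 16108314072)) (T.h (P (nat_lit 0)) (M (nat_lit 19499679855119)))) (T.h (P (nat_lit 0)) (M (nat_lit 7090432082271)))))) (T.h (T.h (P (nat_lit 0)) (T.h (T.h (P (nat_lit 0)) (P (nat_lit 73329338640))) (P (nat_lit 0)))) (T.h (T.h (T.h (M (nat_lit 21704805791)) (T.h (P (nat_lit 0))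 (M (nat_lit 130321257335)))) (T.h (P (nat_lit 0)) (M (nat_lit 6165349912551)))) (T.h (P (nat_lit 0)) (P (nat_lit 254778299912)))))))) (T.h (P (nat_lit 0)) (T.h (T.h (T.h (T.h (P (nat_lit 33811156)) (T.h (P (nat_lit 0)) (T.h (P (nat_lit 18512829316)) (T.h (P (nat_lit 0)) (M (nat_lit 4637652491895)))))) (T.h (P (nat_lit 0)) (T.h (T.h (P (nat_lit 8182613044)) (T.h (P (nat_lit 0)) (P (nat_lit 119358297216)))) (T.h (P (nat_lit 0)) (P (nat_lit 177092440952)))))) (T.h (T.h (P (nat_lit 0)) (T.h (T.h (P (nat_lit 0)) (T.h (P (nat_lit 152836048968)) (T.h (P (nat_lit 0)) (P (nat_lit 14729201091560))))) (T.h (P (nat_lit 0)) (T.h (T.h (P (nat_lit 0)) (M (nat_lit 1943919455999))) (P (nat_lit 0)))))) (T.h (T.h (T.h (P (nat_lit 154363764)) (T.h (P (nat_lit 0)) (P (nat_lit 1269436843116)))) (T.h (P (nat_lit 0)) (M (nat_lit 303270917987)))) (T.h (T.h (P (nat_lit 0)) (T.h (T.h (P (nat_lit 0)) (M (nat_lit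 4353340825951))) (P (nat_lit 0)))) (M (nat_lit 71384425439)))))) (P (nat_lit 0)))))))))) en00_6))
def en00_8 : T ℤ := (T.h (T.h (T.h (T.h (P (nat_lit 0)) (T.h (T.h (P (nat_lit 4609394688)) (T.h (P (nat_lit 0)) (T.h (M (nat_lit 11721745307)) (T.h (P (nat_lit 0)) (M (nat_lit 358653859775)))))) (T.h (P (nat_lit 0)) (T.h (T.h (M (nat_lit 162512747291)) (T.h (P (nat_lit 0)) (P (nat_lit 6510770482140)))) (T.h (P (nat_lit 0)) (P (nat_lit 2263821188628))))))) (T.h (T.h (T.h (P (nat_lit 0)) (T.h (M (nat_lit 3376596515)) (T.h (P (nat_lit 0)) (T.h (P (nat_lit 88980273684)) (T.h (P (nat_lit 0)) (M (nat_lit 1986468520163))))))) (T.h (P (nat_lit 0)) (T.h (T.h (P (nat_lit 0)) (T.h (M (nat_lit 259555344515)) (T.h (P (nat_lit 0)) (P (nat_lit 21784451641044))))) (T.h (P (nat_lit 0)) (T.h (T.h (P (nat_lit 0)) (M (nat_lit 30919598296379))) (P (nat_lit 0))))))) (T.h (T.h (P (nat_lit 0)) (T.h (T.h (M (nat_lit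 98875938395)) (T.h (P (nat_lit 0)) (M (nat_lit 996483252023)))) (T.h (P (nat_lit 0)) (P (nat_lit 3223464118548))))) (T.h (T.h (T.h (P (nat_lit 0)) (T.h (P (nat_lit 59670142008)) (T.h (P (nat_lit 0)) (M (nat_lit 14972300023199))))) (T.h (P (nat_lit 0)) (T.h (T.h (P (nat_lit 0)) (P (nat_lit 38173059638400))) (P (nat_lit 0))))) (T.h (T.h (P (nat_lit 0)) (M (nat_lit 2447862385475))) (T.h (T.h (T.h (P (nat_lit 0)) (M (nat_lit 6849216338183))) (P (nat_lit 0))) (P (nat_lit 0)))))))) (T.h (P (nat_lit 0)) (T.h (T.h (T.h (P (nat_lit 0)) (T.h (T.h (M (nat_lit 19585414651)) (T.h (P (nat_lit 0)) (T.h (P (nat_lit 171031296968)) (T.h (P (nat_lit 0)) (M (nat_lit 4638218914519)))))) (T.h (P (nat_lit 0)) (T.h (T.h (M (nat_lit 1398405439067)) (T.h (P (nat_lit 0)) (P (nat_lit 10035224278828)))) (T.h (P (nat_lit 0)) (M (nat_lit 23674167390499))))))) (T.h (T.h (T.h (P (nat_lit 0)) (T.h (P (nat_lit 58378121608))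 (T.h (P (nat_lit 0)) (M (nat_lit 410384172543))))) (T.h (P (nat_lit 0)) (T.h (T.h (P (nat_lit 0)) (P (nat_lit 7884307641376))) (P (nat_lit 0))))) (T.h (T.h (P (nat_lit 0)) (T.h (T.h (P (nat_lit 243162747684)) (T.h (P (nat_lit 0)) (M (nat_lit 14607410331071)))) (T.h (P (nat_lit 0)) (M (nat_lit 25285643784011))))) (T.h (T.h (T.h (P (nat_lit 0)) (P (nat_lit 73890798432))) (P (nat_lit 0))) (T.h (T.h (P (nat_lit 0)) (P (nat_lit 23164928838160))) (P (nat_lit 0))))))) (P (nat_lit 0))))) (T.h (T.h (P (nat_lit 0)) (T.h (T.h (T.h (T.h (P (nat_lit 0)) (T.h (P (nat_lit 758102916)) (T.h (P (nat_lit 0)) (T.h (P (nat_lit 37529575616)) (T.h (P (nat_lit 0)) (M (nat_lit 529004835575))))))) (T.h (P (nat_lit 0)) (T.h (T.h (P (nat_lit 0)) (T.h (P (nat_lit 10355349852)) (T.h (P (nat_lit 0)) (P (nat_lit 4325758367852))))) (T.h (P (nat_lit 0)) (T.h (T.h (P (nat_lit 0)) (M (nat_lit 18037350205743))) (P (nat_lit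 0))))))) (T.h (T.h (P (nat_lit 0)) (T.h (T.h (M (nat_lit 38624957703)) (T.h (P (nat_lit 0)) (P (nat_lit 500379569088)))) (T.h (P (nat_lit 0)) (M (nat_lit 662354953063))))) (T.h (T.h (T.h (P (nat_lit 0)) (T.h (M (nat_lit 28686244619)) (T.h (P (nat_lit 0)) (M (nat_lit 2270243963939))))) (T.h (P (nat_lit 0)) (T.h (T.h (P (nat_lit 0)) (M (nat_lit 2351238271643))) (P (nat_lit 0))))) (T.h (T.h (P (nat_lit 0)) (P (nat_lit 2353916776384))) (T.h (T.h (T.h (P (nat_lit 0)) (P (nat_lit 16003268426240))) (P (nat_lit 0))) (P (nat_lit 0))))))) (P (nat_lit 0)))) (T.h (T.h (T.h (T.h (P (nat_lit 0)) (T.h (T.h (M (nat_lit 3287351443)) (T.h (P (nat_lit 0)) (T.h (P (nat_lit 25100823384)) (T.h (P (nat_lit 0)) (M (nat_lit 931891698915)))))) (T.h (P (nat_lit 0)) (T.h (T.h (M (nat_lit 116894151759)) (T.h (P (nat_lit 0)) (M (nat_lit 1818131770955)))) (T.h (P (nat_lit 0)) (M (nat_lit 9398611279647))))))) (T.h (T.h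 (T.h (P (nat_lit 0)) (T.h (M (nat_lit 10963463103)) (T.h (P (nat_lit 0)) (P (nat_lit 58059602960))))) (T.h (P (nat_lit 0)) (T.h (T.h (P (nat_lit 0)) (M (nat_lit 691446977975))) (P (nat_lit 0))))) (T.h (T.h (P (nat_lit 0)) (T.h (T.h (P (nat_lit 79421539836)) (T.h (P (nat_lit 0)) (M (nat_lit 1215662423735)))) (T.h (P (nat_lit 0)) (P (nat_lit 5400045019884))))) (T.h (T.h (T.h (P (nat_lit 0)) (M (nat_lit 303052456415))) (P (nat_lit 0))) (T.h (T.h (P (nat_lit 0)) (M (nat_lit 6471228137219))) (P (nat_lit 0))))))) (P (nat_lit 0))) (P (nat_lit 0)))))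
def en00_9 : T ℤ := (T.h (T.h (P (nat_lit 0)) (T.h (P (nat_lit 0)) (T.h (T.h (T.h (P (nat_lit 0)) (T.h (T.h (P (nat_lit 7000431564)) (T.h (P (nat_lit 0)) (T.h (M (nat_lit 87042837455)) (T.h (P (nat_lit 0)) (M (nat_lit 2685899968355)))))) (T.h (P (nat_lit 0)) (T.h (T.h (M (nat_lit 2615833643)) (T.h (P (nat_lit 0)) (M (nat_lit 5269472324867)))) (T.h (P (nat_lit 0)) (M (nat_lit 1113835593023))))))) (T.h (T.h (T.h (P (nat_lit 0)) (T.h (M (nat_lit 42953380247)) (T.h (P (nat_lit 0)) (T.h (P (nat_lit 234443539188)) (T.h (P (nat_lit 0)) (P (nat_lit 2679656112660))))))) (T.h (P (nat_lit 0)) (T.h (T.h (P (nat_lit 0)) (T.h (M (nat_lit 2931358298999)) (T.h (P (nat_lit 0)) (M (nat_lit 10681843656119))))) (T.h (P (nat_lit 0)) (T.h (T.h (P (nat_lit 0)) (M (nat_lit 36441987324395))) (P (nat_lit 0))))))) (T.h (T.h (P (nat_lit 0)) (T.h (T.h (P (nat_lit 357668641932)) (T.h (P (nat_lit 0)) (P (nat_lit 6684215402784))))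 (T.h (P (nat_lit 0)) (P (nat_lit 48016055765664))))) (T.h (T.h (T.h (P (nat_lit 0)) (T.h (P (nat_lit 1046767286052)) (T.h (P (nat_lit 0)) (M (nat_lit 38350070700515))))) (T.h (P (nat_lit 0)) (T.h (T.h (P (nat_lit 0)) (P (nat_lit 229814725023060))) (P (nat_lit 0))))) (T.h (T.h (P (nat_lit 0)) (P (nat_lit 3164873078652))) (T.h (T.h (T.h (P (nat_lit 0)) (M (nat_lit 22171391438339))) (P (nat_lit 0))) (P (nat_lit 0)))))))) (T.h (P (nat_lit 0)) (T.h (T.h (T.h (P (nat_lit 0)) (T.h (T.h (P (nat_lit 22547423880)) (T.h (P (nat_lit 0)) (T.h (P (nat_lit 1717503646660)) (T.h (P (nat_lit 0)) (M (nat_lit 28719403495)))))) (T.h (P (nat_lit 0)) (T.h (T.h (P (nat_lit 110441812836)) (T.h (P (nat_lit 0)) (M (nat_lit 13295706483663)))) (T.h (P (nat_lit 0)) (P (nat_lit 3321463208012))))))) (T.h (T.h (T.h (P (nat_lit 0)) (T.h (M (nat_lit 142548248039)) (T.h (P (nat_lit 0)) (P (nat_lit 6885342172064))))) (T.h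 (P (nat_lit 0)) (T.h (T.h (P (nat_lit 0)) (M (nat_lit 2834414413911))) (P (nat_lit 0))))) (T.h (T.h (P (nat_lit 0)) (T.h (T.h (M (nat_lit 1249432108703)) (T.h (P (nat_lit 0)) (M (nat_lit 272369282357663)))) (T.h (P (nat_lit 0)) (P (nat_lit 8062476636732))))) (T.h (T.h (T.h (P (nat_lit 0)) (M (nat_lit 20837568429247))) (P (nat_lit 0))) (T.h (T.h (P (nat_lit 0)) (P (nat_lit 14808522927260))) (P (nat_lit 0))))))) (P (nat_lit 0))))))) (T.h (T.h (P (nat_lit 0)) (T.h (T.h (T.h (T.h (P (nat_lit 0)) (T.h (P (nat_lit 13767354588)) (T.h (P (nat_lit 0)) (T.h (M (nat_lit 373622445491)) (T.h (P (nat_lit 0)) (P (nat_lit 1780956793368))))))) (T.h (P (nat_lit 0)) (T.h (T.h (P (nat_lit 0)) (T.h (M (nat_lit 203759799875)) (T.h (P (nat_lit 0)) (M (nat_lit 4701210176339))))) (T.h (P (nat_lit 0)) (T.h (T.h (P (nat_lit 0)) (M (nat_lit 3766931845307))) (P (nat_lit 0))))))) (T.h (T.h (P (nat_lit 0)) (T.h (T.h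 (P (nat_lit 65175360528)) (T.h (P (nat_lit 0)) (T.h (M (nat_lit 5507939346899)) (T.h (P (nat_lit 0)) (P (nat_lit 92889095088192)))))) (T.h (P (nat_lit 0)) (T.h (T.h (P (nat_lit 3618919736256)) (T.h (P (nat_lit 0)) (M (nat_lit 70962486440975)))) (T.h (P (nat_lit 0)) (M (nat_lit 46669246452899))))))) (T.h (T.h (T.h (P (nat_lit 0)) (T.h (M (nat_lit 51417093467)) (T.h (P (nat_lit 0)) (P (nat_lit 1751441395260))))) (T.h (P (nat_lit 0)) (T.h (T.h (P (nat_lit 0)) (M (nat_lit 30340749779915))) (P (nat_lit 0))))) (T.h (T.h (P (nat_lit 0)) (T.h (T.h (M (nat_lit 322310273399)) (T.h (P (nat_lit 0)) (P (nat_lit 47144352527796)))) (T.h (P (nat_lit 0)) (P (nat_lit 56969211345768))))) (T.h (T.h (T.h (P (nat_lit 0)) (P (nat_lit 1706307298680))) (P (nat_lit 0))) (T.h (T.h (P (nat_lit 0)) (P (nat_lit 16607145678216))) (P (nat_lit 0)))))))) (T.h (P (nat_lit 0)) (T.h (T.h (T.h (T.h (P (nat_lit 0)) (T.h (P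 (nat_lit 22547423880)) (T.h (P (nat_lit 0)) (T.h (P (nat_lit 110441812836)) (T.h (P (nat_lit 0)) (P (nat_lit 3321463208012))))))) (T.h (P (nat_lit 0)) (T.h (T.h (P (nat_lit 0)) (T.h (P (nat_lit 1717503646660)) (T.h (P (nat_lit 0)) (M (nat_lit 13295706483663))))) (T.h (P (nat_lit 0)) (T.h (T.h (P (nat_lit 0)) (M (nat_lit 28719403495))) (P (nat_lit 0))))))) (T.h (T.h (P (nat_lit 0)) (T.h (T.h (M (nat_lit 142548248039)) (T.h (P (nat_lit 0)) (M (nat_lit 2834414413911)))) (T.h (P (nat_lit 0)) (P (nat_lit 6885342172064))))) (T.h (T.h (T.h (P (nat_lit 0)) (T.h (M (nat_lit 1249432108703)) (T.h (P (nat_lit 0)) (P (nat_lit 8062476636732))))) (T.h (P (nat_lit 0)) (T.h (T.h (P (nat_lit 0)) (M (nat_lit 272369282357663))) (P (nat_lit 0))))) (T.h (T.h (P (nat_lit 0)) (M (nat_lit 20837568429247))) (T.h (T.h (T.h (P (nat_lit 0)) (P (nat_lit 14808522927260))) (P (nat_lit 0))) (P (nat_lit 0))))))) (P (nat_lit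 0)))))) en00_8))
def en00_10 : T ℤ := (T.h (T.h (P (nat_lit 0)) (T.h (P (nat_lit 0)) (T.h (P (nat_lit 0)) (T.h (P (nat_lit 0)) (T.h (T.h (T.h (P (nat_lit 0)) (T.h (T.h (P (nat_lit 13767354588)) (T.h (P (nat_lit 0)) (T.h (M (nat_lit 203759799875)) (T.h (P (nat_lit 0)) (M (nat_lit 3766931845307)))))) (T.h (P (nat_lit 0)) (T.h (T.h (M (nat_lit 373622445491)) (T.h (P (nat_lit 0)) (M (nat_lit 4701210176339)))) (T.h (P (nat_lit 0)) (P (nat_lit 1780956793368))))))) (T.h (T.h (T.h (P (nat_lit 0)) (T.h (P (nat_lit 65175360528)) (T.h (P (nat_lit 0)) (T.h (P (nat_lit 3618919736256)) (T.h (P (nat_lit 0)) (M (nat_lit 46669246452899))))))) (T.h (P (nat_lit 0)) (T.h (T.h (P (nat_lit 0)) (T.h (M (nat_lit 5507939346899)) (T.h (P (nat_lit 0)) (M (nat_lit 70962486440975))))) (T.h (P (nat_lit 0)) (T.h (T.h (P (nat_lit 0)) (P (nat_lit 92889095088192))) (P (nat_lit 0))))))) (T.h (T.h (P (nat_lit 0)) (T.h (T.h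 (M (nat_lit 51417093467)) (T.h (P (nat_lit 0)) (M (nat_lit 30340749779915)))) (T.h (P (nat_lit 0)) (P (nat_lit 1751441395260))))) (T.h (T.h (T.h (P (nat_lit 0)) (T.h (M (nat_lit 322310273399)) (T.h (P (nat_lit 0)) (P (nat_lit 56969211345768))))) (T.h (P (nat_lit 0)) (T.h (T.h (P (nat_lit 0)) (P (nat_lit 47144352527796))) (P (nat_lit 0))))) (T.h (T.h (P (nat_lit 0)) (P (nat_lit 1706307298680))) (T.h (T.h (T.h (P (nat_lit 0)) (P (nat_lit 16607145678216))) (P (nat_lit 0))) (P (nat_lit 0)))))))) (T.h (P (nat_lit 0)) (T.h (T.h (T.h (P (nat_lit 0)) (T.h (T.h (P (nat_lit 758102916)) (T.h (P (nat_lit 0)) (T.h (P (nat_lit 10355349852)) (T.h (P (nat_lit 0)) (M (nat_lit 18037350205743)))))) (T.h (P (nat_lit 0)) (T.h (T.h (P (nat_lit 37529575616)) (T.h (P (nat_lit 0)) (P (nat_lit 4325758367852)))) (T.h (P (nat_lit 0)) (M (nat_lit 529004835575))))))) (T.h (T.h (T.h (P (nat_lit 0)) (T.h (M (nat_lit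 38624957703)) (T.h (P (nat_lit 0)) (M (nat_lit 662354953063))))) (T.h (P (nat_lit 0)) (T.h (T.h (P (nat_lit 0)) (P (nat_lit 500379569088))) (P (nat_lit 0))))) (T.h (T.h (P (nat_lit 0)) (T.h (T.h (M (nat_lit 28686244619)) (T.h (P (nat_lit 0)) (M (nat_lit 2351238271643)))) (T.h (P (nat_lit 0)) (M (nat_lit 2270243963939))))) (T.h (T.h (T.h (P (nat_lit 0)) (P (nat_lit 2353916776384))) (P (nat_lit 0))) (T.h (T.h (P (nat_lit 0)) (P (nat_lit 16003268426240))) (P (nat_lit 0))))))) (P (nat_lit 0))))))))) (T.h (T.h (P (nat_lit 0)) (T.h (P (nat_lit 0)) (T.h (P (nat_lit 0)) (T.h (T.h (T.h (T.h (P (nat_lit 0)) (T.h (P (nat_lit 7000431564)) (T.h (P (nat_lit 0)) (T.h (M (nat_lit 2615833643)) (T.h (P (nat_lit 0)) (M (nat_lit 1113835593023))))))) (T.h (P (nat_lit 0)) (T.h (T.h (P (nat_lit 0)) (T.h (M (nat_lit 87042837455)) (T.h (P (nat_lit 0)) (M (nat_lit 5269472324867))))) (T.h (P (nat_lit 0)) (T.h (T.h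 (P (nat_lit 0)) (M (nat_lit 2685899968355))) (P (nat_lit 0))))))) (T.h (T.h (P (nat_lit 0)) (T.h (T.h (M (nat_lit 42953380247)) (T.h (P (nat_lit 0)) (T.h (M (nat_lit 2931358298999)) (T.h (P (nat_lit 0)) (M (nat_lit 36441987324395)))))) (T.h (P (nat_lit 0)) (T.h (T.h (P (nat_lit 234443539188)) (T.h (P (nat_lit 0)) (M (nat_lit 10681843656119)))) (T.h (P (nat_lit 0)) (P (nat_lit 2679656112660))))))) (T.h (T.h (T.h (P (nat_lit 0)) (T.h (P (nat_lit 357668641932)) (T.h (P (nat_lit 0)) (P (nat_lit 48016055765664))))) (T.h (P (nat_lit 0)) (T.h (T.h (P (nat_lit 0)) (P (nat_lit 6684215402784))) (P (nat_lit 0))))) (T.h (T.h (P (nat_lit 0)) (T.h (T.h (P (nat_lit 1046767286052)) (T.h (P (nat_lit 0)) (P (nat_lit 229814725023060)))) (T.h (P (nat_lit 0)) (M (nat_lit 38350070700515))))) (T.h (T.h (T.h (P (nat_lit 0)) (P (nat_lit 3164873078652))) (P (nat_lit 0))) (T.h (T.h (P (nat_lit 0)) (M (nat_lit 22171391438339)))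 (P (nat_lit 0)))))))) (T.h (P (nat_lit 0)) (T.h (T.h (T.h (T.h (P (nat_lit 0)) (T.h (M (nat_lit 19585414651)) (T.h (P (nat_lit 0)) (T.h (M (nat_lit 1398405439067)) (T.h (P (nat_lit 0)) (M (nat_lit 23674167390499))))))) (T.h (P (nat_lit 0)) (T.h (T.h (P (nat_lit 0)) (T.h (P (nat_lit 171031296968)) (T.h (P (nat_lit 0)) (P (nat_lit 10035224278828))))) (T.h (P (nat_lit 0)) (T.h (T.h (P (nat_lit 0)) (M (nat_lit 4638218914519))) (P (nat_lit 0))))))) (T.h (T.h (P (nat_lit 0)) (T.h (T.h (P (nat_lit 58378121608)) (T.h (P (nat_lit 0)) (P (nat_lit 7884307641376)))) (T.h (P (nat_lit 0)) (M (nat_lit 410384172543))))) (T.h (T.h (T.h (P (nat_lit 0)) (T.h (P (nat_lit 243162747684)) (T.h (P (nat_lit 0)) (M (nat_lit 25285643784011))))) (T.h (P (nat_lit 0)) (T.h (T.h (P (nat_lit 0)) (M (nat_lit 14607410331071))) (P (nat_lit 0))))) (T.h (T.h (P (nat_lit 0)) (P (nat_lit 73890798432))) (T.h (T.h (T.h (P (nat_lit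 0)) (P (nat_lit 23164928838160))) (P (nat_lit 0))) (P (nat_lit 0))))))) (P (nat_lit 0)))))))) en00_9))
def en00_11 : T ℤ := (T.h (T.h (T.h (T.h (P (nat_lit 0)) (T.h (T.h (P (nat_lit 0)) (T.h (P (nat_lit 28199191984)) (T.h (P (nat_lit 0)) (T.h (M (nat_lit 224002940815)) (T.h (P (nat_lit 0)) (M (nat_lit 206589327279))))))) (T.h (P (nat_lit 0)) (T.h (T.h (P (nat_lit 0)) (T.h (M (nat_lit 199924968655)) (T.h (P (nat_lit 0)) (M (nat_lit 29365450833199))))) (T.h (P (nat_lit 0)) (T.h (T.h (P (nat_lit 0)) (M (nat_lit 17699421924447))) (P (nat_lit 0)))))))) (T.h (T.h (T.h (M (nat_lit 7010151855)) (T.h (P (nat_lit 0)) (T.h (P (nat_lit 13209889360)) (T.h (P (nat_lit 0)) (P (nat_lit 365660438736)))))) (T.h (P (nat_lit 0)) (T.h (T.h (P (nat_lit 101138747584)) (T.h (P (nat_lit 0)) (M (nat_lit 9095309917807)))) (T.h (P (nat_lit 0)) (M (nat_lit 7949076695295)))))) (T.h (T.h (P (nat_lit 0)) (T.h (T.h (P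 (nat_lit 0)) (T.h (P (nat_lit 319437819472)) (T.h (P (nat_lit 0)) (M (nat_lit 38258051431807))))) (T.h (P (nat_lit 0)) (T.h (T.h (P (nat_lit 0)) (P (nat_lit 32470207851376))) (P (nat_lit 0)))))) (T.h (T.h (T.h (P (nat_lit 45290338144)) (T.h (P (nat_lit 0)) (M (nat_lit 559425465439)))) (T.h (P (nat_lit 0)) (M (nat_lit 2849858997551)))) (T.h (T.h (P (nat_lit 0)) (T.h (T.h (P (nat_lit 0)) (M (nat_lit 25225708376607))) (P (nat_lit 0)))) (M (nat_lit 908276456015))))))) (T.h (P (nat_lit 0)) (T.h (T.h (T.h (P (nat_lit 0)) (T.h (T.h (P (nat_lit 0)) (T.h (M (nat_lit 81650463239)) (T.h (P (nat_lit 0)) (P (nat_lit 8312387105708))))) (T.h (P (nat_lit 0)) (T.h (T.h (P (nat_lit 0)) (P (nat_lit 395445568396))) (P (nat_lit 0)))))) (T.h (T.h (T.h (M (nat_lit 1692538511)) (T.h (P (nat_lit 0)) (T.h (M (nat_lit 414274462071)) (T.h (P (nat_lit 0)) (M (nat_lit 1545006080567)))))) (T.h (P (nat_lit 0)) (T.h (T.h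 (P (nat_lit 254364572640)) (T.h (P (nat_lit 0)) (M (nat_lit 79433599439095)))) (T.h (P (nat_lit 0)) (P (nat_lit 105020843408056)))))) (T.h (T.h (P (nat_lit 0)) (T.h (T.h (P (nat_lit 0)) (M (nat_lit 2527546904543))) (P (nat_lit 0)))) (T.h (T.h (T.h (M (nat_lit 140128568495)) (T.h (P (nat_lit 0)) (M (nat_lit 1986703122351)))) (T.h (P (nat_lit 0)) (M (nat_lit 57448128722943)))) (T.h (P (nat_lit 0)) (P (nat_lit 2369727437520))))))) (P (nat_lit 0))))) (T.h (T.h (P (nat_lit 0)) (T.h (T.h (T.h (T.h (M (nat_lit 127978623)) (T.h (P (nat_lit 0)) (T.h (P (nat_lit 2620435576)) (T.h (P (nat_lit 0)) (M (nat_lit 248397635379)))))) (T.h (P (nat_lit 0)) (T.h (T.h (M (nat_lit 70935153767)) (T.h (P (nat_lit 0)) (P (nat_lit 739110460796)))) (T.h (P (nat_lit 0)) (P (nat_lit 2397406502736)))))) (T.h (T.h (P (nat_lit 0)) (T.h (T.h (P (nat_lit 0)) (T.h (P (nat_lit 39155807488)) (T.h (P (nat_lit 0)) (P (nat_lit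 5959062571480))))) (T.h (P (nat_lit 0)) (T.h (T.h (P (nat_lit 0)) (M (nat_lit 7434437660143))) (P (nat_lit 0)))))) (T.h (T.h (T.h (P (nat_lit 30421403952)) (T.h (P (nat_lit 0)) (M (nat_lit 545063541635)))) (T.h (P (nat_lit 0)) (P (nat_lit 1108856697984)))) (T.h (T.h (P (nat_lit 0)) (T.h (T.h (P (nat_lit 0)) (P (nat_lit 4245765035344))) (P (nat_lit 0)))) (M (nat_lit 215467122259)))))) (P (nat_lit 0)))) (T.h (T.h (T.h (T.h (P (nat_lit 0)) (T.h (T.h (P (nat_lit 0)) (T.h (P (nat_lit 27276603800)) (T.h (P (nat_lit 0)) (P (nat_lit 689598860988))))) (T.h (P (nat_lit 0)) (T.h (T.h (P (nat_lit 0)) (M (nat_lit 1398151721671))) (P (nat_lit 0)))))) (T.h (T.h (T.h (M (nat_lit 453475783)) (T.h (P (nat_lit 0)) (T.h (M (nat_lit 30921427159)) (T.h (P (nat_lit 0)) (P (nat_lit 2710678756744)))))) (T.h (P (nat_lit 0)) (T.h (T.h (P (nat_lit 103125021688)) (T.h (P (nat_lit 0)) (M (nat_lit 3824311281855))))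 (T.h (P (nat_lit 0)) (M (nat_lit 90176455149511)))))) (T.h (T.h (P (nat_lit 0)) (T.h (T.h (P (nat_lit 0)) (M (nat_lit 129199869059))) (P (nat_lit 0)))) (T.h (T.h (T.h (P (nat_lit 174867987616)) (T.h (P (nat_lit 0)) (P (nat_lit 3453957805440)))) (T.h (P (nat_lit 0)) (P (nat_lit 11580157032320)))) (T.h (P (nat_lit 0)) (M (nat_lit 7433066873543))))))) (P (nat_lit 0))) (P (nat_lit 0)))))
def en00_12 : T ℤ := (T.h (T.h (P (nat_lit 0)) (T.h (P (nat_lit 0)) (T.h (T.h (T.h (P (nat_lit 0)) (T.h (T.h (P (nat_lit 0)) (T.h (P (nat_lit 57271173408)) (T.h (P (nat_lit 0)) (T.h (M (nat_lit 449465169263)) (T.h (P (nat_lit 0)) (P (nat_lit 2550900562576))))))) (T.h (P (nat_lit 0)) (T.h (T.h (P (nat_lit 0)) (T.h (M (nat_lit 449465169263)) (T.h (P (nat_lit 0)) (P (nat_lit 51133427204352))))) (T.h (P (nat_lit 0)) (T.h (T.h (P (nat_lit 0)) (P (nat_lit 2550900562576))) (P (nat_lit 0)))))))) (T.h (T.h (T.h (M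 (nat_lit 9333908735)) (T.h (P (nat_lit 0)) (T.h (P (nat_lit 49932017536)) (T.h (P (nat_lit 0)) (P (nat_lit 3577669075216)))))) (T.h (P (nat_lit 0)) (T.h (T.h (P (nat_lit 49932017536)) (T.h (P (nat_lit 0)) (M (nat_lit 8912287314271)))) (T.h (P (nat_lit 0)) (P (nat_lit 3577669075216)))))) (T.h (T.h (P (nat_lit 0)) (T.h (T.h (P (nat_lit 0)) (T.h (P (nat_lit 3908477744800)) (T.h (P (nat_lit 0)) (P (nat_lit 1331848526800))))) (T.h (P (nat_lit 0)) (T.h (T.h (P (nat_lit 0)) (P (nat_lit 1331848526800))) (P (nat_lit 0)))))) (T.h (T.h (T.h (P (nat_lit 3487778432)) (T.h (P (nat_lit 0)) (P (nat_lit 5003911353968)))) (T.h (P (nat_lit 0)) (P (nat_lit 5003911353968)))) (T.h (T.h (P (nat_lit 0)) (T.h (T.h (P (nat_lit 0)) (P (nat_lit 48589319201440))) (P (nat_lit 0)))) (P (nat_lit 1485114108448))))))) (T.h (P (nat_lit 0)) (T.h (T.h (T.h (P (nat_lit 0)) (T.h (T.h (P (nat_lit 0)) (T.h (M (nat_lit 81650463239))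 (T.h (P (nat_lit 0)) (P (nat_lit 395445568396))))) (T.h (P (nat_lit 0)) (T.h (T.h (P (nat_lit 0)) (P (nat_lit 8312387105708))) (P (nat_lit 0)))))) (T.h (T.h (T.h (M (nat_lit 1692538511)) (T.h (P (nat_lit 0)) (T.h (P (nat_lit 254364572640)) (T.h (P (nat_lit 0)) (P (nat_lit 105020843408056)))))) (T.h (P (nat_lit 0)) (T.h (T.h (M (nat_lit 414274462071)) (T.h (P (nat_lit 0)) (M (nat_lit 79433599439095)))) (T.h (P (nat_lit 0)) (M (nat_lit 1545006080567)))))) (T.h (T.h (P (nat_lit 0)) (T.h (T.h (P (nat_lit 0)) (M (nat_lit 2527546904543))) (P (nat_lit 0)))) (T.h (T.h (T.h (M (nat_lit 140128568495)) (T.h (P (nat_lit 0)) (M (nat_lit 57448128722943)))) (T.h (P (nat_lit 0)) (M (nat_lit 1986703122351)))) (T.h (P (nat_lit 0)) (P (nat_lit 2369727437520))))))) (P (nat_lit 0))))))) (T.h (T.h (P (nat_lit 0)) (T.h (T.h (T.h (T.h (P (nat_lit 282621408)) (T.h (P (nat_lit 0)) (T.h (P (nat_lit 24069833088))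 (T.h (P (nat_lit 0)) (T.h (M (nat_lit 239433468143)) (T.h (P (nat_lit 0)) (P (nat_lit 3444616601456)))))))) (T.h (P (nat_lit 0)) (T.h (T.h (P (nat_lit 62283965152)) (T.h (P (nat_lit 0)) (T.h (M (nat_lit 1045153018767)) (T.h (P (nat_lit 0)) (M (nat_lit 17558065705279)))))) (T.h (P (nat_lit 0)) (T.h (T.h (M (nat_lit 528162034415)) (T.h (P (nat_lit 0)) (M (nat_lit 85307946463)))) (T.h (P (nat_lit 0)) (P (nat_lit 35862277412144)))))))) (T.h (T.h (P (nat_lit 0)) (T.h (T.h (P (nat_lit 0)) (T.h (P (nat_lit 893889868832)) (T.h (P (nat_lit 0)) (M (nat_lit 2853660396975))))) (T.h (P (nat_lit 0)) (T.h (T.h (P (nat_lit 0)) (P (nat_lit 1066559051440))) (P (nat_lit 0)))))) (T.h (T.h (T.h (M (nat_lit 13665050831)) (T.h (P (nat_lit 0)) (T.h (P (nat_lit 3245468706784)) (T.h (P (nat_lit 0)) (P (nat_lit 19789355412352)))))) (T.h (P (nat_lit 0)) (T.h (T.h (P (nat_lit 1923034872160)) (T.h (P (nat_lit 0)) (M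 (nat_lit 144375385951487)))) (T.h (P (nat_lit 0)) (M (nat_lit 386722876082735)))))) (T.h (T.h (P (nat_lit 0)) (T.h (T.h (P (nat_lit 0)) (P (nat_lit 6822622396208))) (P (nat_lit 0)))) (T.h (T.h (T.h (P (nat_lit 176189507488)) (T.h (P (nat_lit 0)) (P (nat_lit 7214544346000)))) (T.h (P (nat_lit 0)) (P (nat_lit 75602807866448)))) (T.h (P (nat_lit 0)) (M (nat_lit 4435828437535)))))))) (T.h (P (nat_lit 0)) (T.h (T.h (T.h (T.h (M (nat_lit 163861967)) (T.h (P (nat_lit 0)) (T.h (M (nat_lit 8240882523)) (T.h (P (nat_lit 0)) (M (nat_lit 99326669855)))))) (T.h (P (nat_lit 0)) (T.h (T.h (M (nat_lit 8240882523)) (T.h (P (nat_lit 0)) (P (nat_lit 5846913720504)))) (T.h (P (nat_lit 0)) (M (nat_lit 99326669855)))))) (T.h (T.h (P (nat_lit 0)) (T.h (T.h (P (nat_lit 0)) (T.h (M (nat_lit 2677273273167)) (T.h (P (nat_lit 0)) (P (nat_lit 17692920229240))))) (T.h (P (nat_lit 0)) (T.h (T.h (P (nat_lit 0)) (P (nat_lit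 17692920229240))) (P (nat_lit 0)))))) (T.h (T.h (T.h (M (nat_lit 165428586191)) (T.h (P (nat_lit 0)) (M (nat_lit 436334530547)))) (T.h (P (nat_lit 0)) (M (nat_lit 436334530547)))) (T.h (T.h (P (nat_lit 0)) (T.h (T.h (P (nat_lit 0)) (P (nat_lit 70980901809088))) (P (nat_lit 0)))) (P (nat_lit 2505680501800)))))) (P (nat_lit 0)))))) en00_11))
def en00_13 : T ℤ := (T.h (T.h (P (nat_lit 0)) (T.h (P (nat_lit 0)) (T.h (P (nat_lit 0)) (T.h (P (nat_lit 0)) (T.h (T.h (T.h (P (nat_lit 0)) (T.h (T.h (P (nat_lit 0)) (T.h (P (nat_lit 28199191984)) (T.h (P (nat_lit 0)) (T.h (M (nat_lit 199924968655)) (T.h (P (nat_lit 0)) (M (nat_lit 17699421924447))))))) (T.h (P (nat_lit 0)) (T.h (T.h (P (nat_lit 0)) (T.h (M (nat_lit 224002940815)) (T.h (P (nat_lit 0)) (M (nat_lit 29365450833199))))) (T.h (P (nat_lit 0)) (T.h (T.h (P (nat_lit 0)) (M (nat_lit 206589327279))) (P (nat_lit 0)))))))) (T.h (T.h (T.h (M (nat_lit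 7010151855)) (T.h (P (nat_lit 0)) (T.h (P (nat_lit 101138747584)) (T.h (P (nat_lit 0)) (M (nat_lit 7949076695295)))))) (T.h (P (nat_lit 0)) (T.h (T.h (P (nat_lit 13209889360)) (T.h (P (nat_lit 0)) (M (nat_lit 9095309917807)))) (T.h (P (nat_lit 0)) (P (nat_lit 365660438736)))))) (T.h (T.h (P (nat_lit 0)) (T.h (T.h (P (nat_lit 0)) (T.h (P (nat_lit 319437819472)) (T.h (P (nat_lit 0)) (P (nat_lit 32470207851376))))) (T.h (P (nat_lit 0)) (T.h (T.h (P (nat_lit 0)) (M (nat_lit 38258051431807))) (P (nat_lit 0)))))) (T.h (T.h (T.h (P (nat_lit 45290338144)) (T.h (P (nat_lit 0)) (M (nat_lit 2849858997551)))) (T.h (P (nat_lit 0)) (M (nat_lit 559425465439)))) (T.h (T.h (P (nat_lit 0)) (T.h (T.h (P (nat_lit 0)) (M (nat_lit 25225708376607))) (P (nat_lit 0)))) (M (nat_lit 908276456015))))))) (T.h (P (nat_lit 0)) (T.h (T.h (T.h (P (nat_lit 0)) (T.h (T.h (P (nat_lit 0)) (T.h (P (nat_lit 27276603800)) (T.h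 (P (nat_lit 0)) (M (nat_lit 1398151721671))))) (T.h (P (nat_lit 0)) (T.h (T.h (P (nat_lit 0)) (P (nat_lit 689598860988))) (P (nat_lit 0)))))) (T.h (T.h (T.h (M (nat_lit 453475783)) (T.h (P (nat_lit 0)) (T.h (P (nat_lit 103125021688)) (T.h (P (nat_lit 0)) (M (nat_lit 90176455149511)))))) (T.h (P (nat_lit 0)) (T.h (T.h (M (nat_lit 30921427159)) (T.h (P (nat_lit 0)) (M (nat_lit 3824311281855)))) (T.h (P (nat_lit 0)) (P (nat_lit 2710678756744)))))) (T.h (T.h (P (nat_lit 0)) (T.h (T.h (P (nat_lit 0)) (M (nat_lit 129199869059))) (P (nat_lit 0)))) (T.h (T.h (T.h (P (nat_lit 174867987616)) (T.h (P (nat_lit 0)) (P (nat_lit 11580157032320)))) (T.h (P (nat_lit 0)) (P (nat_lit 3453957805440)))) (T.h (P (nat_lit 0)) (M (nat_lit 7433066873543))))))) (P (nat_lit 0))))))))) (T.h (T.h (P (nat_lit 0)) (T.h (P (nat_lit 0)) (T.h (P (nat_lit 0)) (T.h (T.h (T.h (T.h (P (nat_lit 282621408)) (T.h (P (nat_lit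 0)) (T.h (P (nat_lit 62283965152)) (T.h (P (nat_lit 0)) (T.h (M (nat_lit 528162034415)) (T.h (P (nat_lit 0)) (P (nat_lit 35862277412144)))))))) (T.h (P (nat_lit 0)) (T.h (T.h (P (nat_lit 24069833088)) (T.h (P (nat_lit 0)) (T.h (M (nat_lit 1045153018767)) (T.h (P (nat_lit 0)) (M (nat_lit 85307946463)))))) (T.h (P (nat_lit 0)) (T.h (T.h (M (nat_lit 239433468143)) (T.h (P (nat_lit 0)) (M (nat_lit 17558065705279)))) (T.h (P (nat_lit 0)) (P (nat_lit 3444616601456)))))))) (T.h (T.h (P (nat_lit 0)) (T.h (T.h (P (nat_lit 0)) (T.h (P (nat_lit 893889868832)) (T.h (P (nat_lit 0)) (P (nat_lit 1066559051440))))) (T.h (P (nat_lit 0)) (T.h (T.h (P (nat_lit 0)) (M (nat_lit 2853660396975))) (P (nat_lit 0)))))) (T.h (T.h (T.h (M (nat_lit 13665050831)) (T.h (P (nat_lit 0)) (T.h (P (nat_lit 1923034872160)) (T.h (P (nat_lit 0)) (M (nat_lit 386722876082735)))))) (T.h (P (nat_lit 0)) (T.h (T.h (P (nat_lit 3245468706784))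 (T.h (P (nat_lit 0)) (M (nat_lit 144375385951487)))) (T.h (P (nat_lit 0)) (P (nat_lit 19789355412352)))))) (T.h (T.h (P (nat_lit 0)) (T.h (T.h (P (nat_lit 0)) (P (nat_lit 6822622396208))) (P (nat_lit 0)))) (T.h (T.h (T.h (P (nat_lit 176189507488)) (T.h (P (nat_lit 0)) (P (nat_lit 75602807866448)))) (T.h (P (nat_lit 0)) (P (nat_lit 7214544346000)))) (T.h (P (nat_lit 0)) (M (nat_lit 4435828437535)))))))) (T.h (P (nat_lit 0)) (T.h (T.h (T.h (T.h (M (nat_lit 127978623)) (T.h (P (nat_lit 0)) (T.h (M (nat_lit 70935153767)) (T.h (P (nat_lit 0)) (P (nat_lit 2397406502736)))))) (T.h (P (nat_lit 0)) (T.h (T.h (P (nat_lit 2620435576)) (T.h (P (nat_lit 0)) (P (nat_lit 739110460796)))) (T.h (P (nat_lit 0)) (M (nat_lit 248397635379)))))) (T.h (T.h (P (nat_lit 0)) (T.h (T.h (P (nat_lit 0)) (T.h (P (nat_lit 39155807488)) (T.h (P (nat_lit 0)) (M (nat_lit 7434437660143))))) (T.h (P (nat_lit 0)) (T.h (T.h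 (P (nat_lit 0)) (P (nat_lit 5959062571480))) (P (nat_lit 0)))))) (T.h (T.h (T.h (P (nat_lit 30421403952)) (T.h (P (nat_lit 0)) (P (nat_lit 1108856697984)))) (T.h (P (nat_lit 0)) (M (nat_lit 545063541635)))) (T.h (T.h (P (nat_lit 0)) (T.h (T.h (P (nat_lit 0)) (P (nat_lit 4245765035344))) (P (nat_lit 0)))) (M (nat_lit 215467122259)))))) (P (nat_lit 0)))))))) en00_12))
def en00_14 : T ℤ := (T.h (T.h (T.h (T.h (P (nat_lit 0)) (T.h (T.h (P (nat_lit 10338094500)) (T.h (P (nat_lit 0)) (T.h (M (nat_lit 15596126959)) (T.h (P (nat_lit 0)) (M (nat_lit 456156771879)))))) (T.h (P (nat_lit 0)) (T.h (T.h (P (nat_lit 35653166060)) (T.h (P (nat_lit 0)) (M (nat_lit 203661315559)))) (T.h (P (nat_lit 0)) (M (nat_lit 2305065438419))))))) (T.h (T.h (T.h (P (nat_lit 0)) (T.h (M (nat_lit 34153841359)) (T.h (P (nat_lit 0)) (T.h (P (nat_lit 277392333420)) (T.h (P (nat_lit 0)) (P (nat_lit 253810801060))))))) (T.h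 (P (nat_lit 0)) (T.h (T.h (P (nat_lit 0)) (T.h (M (nat_lit 119009016499)) (T.h (P (nat_lit 0)) (P (nat_lit 35961220432940))))) (T.h (P (nat_lit 0)) (T.h (T.h (P (nat_lit 0)) (P (nat_lit 26907326098440))) (P (nat_lit 0))))))) (T.h (T.h (P (nat_lit 0)) (T.h (T.h (M (nat_lit 217914780159)) (T.h (P (nat_lit 0)) (P (nat_lit 11070998688040)))) (T.h (P (nat_lit 0)) (P (nat_lit 5938585192240))))) (T.h (T.h (T.h (P (nat_lit 0)) (T.h (P (nat_lit 64118288520)) (T.h (P (nat_lit 0)) (P (nat_lit 38039336784260))))) (T.h (P (nat_lit 0)) (T.h (T.h (P (nat_lit 0)) (M (nat_lit 47956837074779))) (P (nat_lit 0))))) (T.h (T.h (P (nat_lit 0)) (P (nat_lit 15936644306700))) (T.h (T.h (T.h (P (nat_lit 0)) (P (nat_lit 14363356626540))) (P (nat_lit 0))) (P (nat_lit 0)))))))) (T.h (P (nat_lit 0)) (T.h (T.h (T.h (P (nat_lit 0)) (T.h (T.h (M (nat_lit 12309070935)) (T.h (P (nat_lit 0)) (T.h (P (nat_lit 1338636639020))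 (T.h (P (nat_lit 0)) (M (nat_lit 17745225140735)))))) (T.h (P (nat_lit 0)) (T.h (T.h (M (nat_lit 53950184039)) (T.h (P (nat_lit 0)) (M (nat_lit 4260075998243)))) (T.h (P (nat_lit 0)) (M (nat_lit 6879672960339))))))) (T.h (T.h (T.h (P (nat_lit 0)) (T.h (M (nat_lit 391344999871)) (T.h (P (nat_lit 0)) (M (nat_lit 3506926655039))))) (T.h (P (nat_lit 0)) (T.h (T.h (P (nat_lit 0)) (M (nat_lit 11693827357615))) (P (nat_lit 0))))) (T.h (T.h (P (nat_lit 0)) (T.h (T.h (P (nat_lit 1328066225664)) (T.h (P (nat_lit 0)) (M (nat_lit 33184193716307)))) (T.h (P (nat_lit 0)) (M (nat_lit 17930951901251))))) (T.h (T.h (T.h (P (nat_lit 0)) (P (nat_lit 4483477439312))) (P (nat_lit 0))) (T.h (T.h (P (nat_lit 0)) (P (nat_lit 80700092861940))) (P (nat_lit 0))))))) (P (nat_lit 0))))) (T.h (T.h (P (nat_lit 0)) (T.h (T.h (T.h (T.h (P (nat_lit 0)) (T.h (P (nat_lit 1423650372)) (T.h (P (nat_lit 0)) (T.h (M (nat_lit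 5479705327)) (T.h (P (nat_lit 0)) (P (nat_lit 37340754392))))))) (T.h (P (nat_lit 0)) (T.h (T.h (P (nat_lit 0)) (T.h (P (nat_lit 74558574260)) (T.h (P (nat_lit 0)) (M (nat_lit 1765227420899))))) (T.h (P (nat_lit 0)) (T.h (T.h (P (nat_lit 0)) (P (nat_lit 6695857174452))) (P (nat_lit 0))))))) (T.h (T.h (P (nat_lit 0)) (T.h (T.h (P (nat_lit 135253291832)) (T.h (P (nat_lit 0)) (M (nat_lit 2569251350263)))) (T.h (P (nat_lit 0)) (M (nat_lit 6970144871951))))) (T.h (T.h (T.h (P (nat_lit 0)) (T.h (M (nat_lit 224145877571)) (T.h (P (nat_lit 0)) (P (nat_lit 14607408041952))))) (T.h (P (nat_lit 0)) (T.h (T.h (P (nat_lit 0)) (M (nat_lit 30699791006891))) (P (nat_lit 0))))) (T.h (T.h (P (nat_lit 0)) (P (nat_lit 1344646693760))) (T.h (T.h (T.h (P (nat_lit 0)) (M (nat_lit 15757652678899))) (P (nat_lit 0))) (P (nat_lit 0))))))) (P (nat_lit 0)))) (T.h (T.h (T.h (T.h (P (nat_lit 0)) (T.h (T.h (M (nat_lit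 875455387)) (T.h (P (nat_lit 0)) (T.h (P (nat_lit 15831468328)) (T.h (P (nat_lit 0)) (M (nat_lit 2699177860203)))))) (T.h (P (nat_lit 0)) (T.h (T.h (P (nat_lit 950251937228)) (T.h (P (nat_lit 0)) (P (nat_lit 12361518819252)))) (T.h (P (nat_lit 0)) (M (nat_lit 11416599132599))))))) (T.h (T.h (T.h (P (nat_lit 0)) (T.h (P (nat_lit 24953199192)) (T.h (P (nat_lit 0)) (M (nat_lit 1414283078783))))) (T.h (P (nat_lit 0)) (T.h (T.h (P (nat_lit 0)) (P (nat_lit 3984391628504))) (P (nat_lit 0))))) (T.h (T.h (P (nat_lit 0)) (T.h (T.h (P (nat_lit 74184420600)) (T.h (P (nat_lit 0)) (M (nat_lit 1403124912575)))) (T.h (P (nat_lit 0)) (M (nat_lit 59981534363411))))) (T.h (T.h (T.h (P (nat_lit 0)) (M (nat_lit 7744298191))) (P (nat_lit 0))) (T.h (T.h (P (nat_lit 0)) (M (nat_lit 1015290083899))) (P (nat_lit 0))))))) (P (nat_lit 0))) (P (nat_lit 0)))))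
def en00_15 : T ℤ := (T.h (T.h (P (nat_lit 0)) (T.h (P (nat_lit 0)) (T.h (T.h (T.h (P (nat_lit 0)) (T.h (T.h (M (nat_lit 5661009679)) (T.h (P (nat_lit 0)) (T.h (P (nat_lit 111048052320)) (T.h (P (nat_lit 0)) (M (nat_lit 1393471353839)))))) (T.h (P (nat_lit 0)) (T.h (T.h (P (nat_lit 558560898760)) (T.h (P (nat_lit 0)) (M (nat_lit 272747777739)))) (T.h (P (nat_lit 0)) (M (nat_lit 3872318519599))))))) (T.h (T.h (T.h (P (nat_lit 0)) (T.h (M (nat_lit 44730345119)) (T.h (P (nat_lit 0)) (T.h (P (nat_lit 822272166040)) (T.h (P (nat_lit 0)) (P (nat_lit 195113845980))))))) (T.h (P (nat_lit 0)) (T.h (T.h (P (nat_lit 0)) (T.h (P (nat_lit 380711106400)) (T.h (P (nat_lit 0)) (M (nat_lit 28947755452759))))) (T.h (P (nat_lit 0)) (T.h (T.h (P (nat_lit 0)) (M (nat_lit 1288502806819))) (P (nat_lit 0))))))) (T.h (T.h (P (nat_lit 0)) (T.h (T.h (P (nat_lit 518772917240)) (T.h (P (nat_lit 0)) (P (nat_lit 10359938669740))))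 (T.h (P (nat_lit 0)) (P (nat_lit 14034625653280))))) (T.h (T.h (T.h (P (nat_lit 0)) (T.h (M (nat_lit 5923785004099)) (T.h (P (nat_lit 0)) (P (nat_lit 212270073068840))))) (T.h (P (nat_lit 0)) (T.h (T.h (P (nat_lit 0)) (P (nat_lit 168662521387920))) (P (nat_lit 0))))) (T.h (T.h (P (nat_lit 0)) (P (nat_lit 10997668360580))) (T.h (T.h (T.h (P (nat_lit 0)) (M (nat_lit 172837430151179))) (P (nat_lit 0))) (P (nat_lit 0)))))))) (T.h (P (nat_lit 0)) (T.h (T.h (T.h (P (nat_lit 0)) (T.h (T.h (P (nat_lit 1423650372)) (T.h (P (nat_lit 0)) (T.h (P (nat_lit 74558574260)) (T.h (P (nat_lit 0)) (P (nat_lit 6695857174452)))))) (T.h (P (nat_lit 0)) (T.h (T.h (M (nat_lit 5479705327)) (T.h (P (nat_lit 0)) (M (nat_lit 1765227420899)))) (T.h (P (nat_lit 0)) (P (nat_lit 37340754392))))))) (T.h (T.h (T.h (P (nat_lit 0)) (T.h (P (nat_lit 135253291832)) (T.h (P (nat_lit 0)) (M (nat_lit 6970144871951))))) (T.h (P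 (nat_lit 0)) (T.h (T.h (P (nat_lit 0)) (M (nat_lit 2569251350263))) (P (nat_lit 0))))) (T.h (T.h (P (nat_lit 0)) (T.h (T.h (M (nat_lit 224145877571)) (T.h (P (nat_lit 0)) (M (nat_lit 30699791006891)))) (T.h (P (nat_lit 0)) (P (nat_lit 14607408041952))))) (T.h (T.h (T.h (P (nat_lit 0)) (P (nat_lit 1344646693760))) (P (nat_lit 0))) (T.h (T.h (P (nat_lit 0)) (M (nat_lit 15757652678899))) (P (nat_lit 0))))))) (P (nat_lit 0))))))) (T.h (T.h (P (nat_lit 0)) (T.h (T.h (T.h (T.h (P (nat_lit 0)) (T.h (M (nat_lit 5661009679)) (T.h (P (nat_lit 0)) (T.h (P (nat_lit 558560898760)) (T.h (P (nat_lit 0)) (M (nat_lit 3872318519599))))))) (T.h (P (nat_lit 0)) (T.h (T.h (P (nat_lit 0)) (T.h (P (nat_lit 111048052320)) (T.h (P (nat_lit 0)) (M (nat_lit 272747777739))))) (T.h (P (nat_lit 0)) (T.h (T.h (P (nat_lit 0)) (M (nat_lit 1393471353839))) (P (nat_lit 0))))))) (T.h (T.h (P (nat_lit 0)) (T.h (T.h (M (nat_lit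 44730345119)) (T.h (P (nat_lit 0)) (T.h (P (nat_lit 380711106400)) (T.h (P (nat_lit 0)) (M (nat_lit 1288502806819)))))) (T.h (P (nat_lit 0)) (T.h (T.h (P (nat_lit 822272166040)) (T.h (P (nat_lit 0)) (M (nat_lit 28947755452759)))) (T.h (P (nat_lit 0)) (P (nat_lit 195113845980))))))) (T.h (T.h (T.h (P (nat_lit 0)) (T.h (P (nat_lit 518772917240)) (T.h (P (nat_lit 0)) (P (nat_lit 14034625653280))))) (T.h (P (nat_lit 0)) (T.h (T.h (P (nat_lit 0)) (P (nat_lit 10359938669740))) (P (nat_lit 0))))) (T.h (T.h (P (nat_lit 0)) (T.h (T.h (M (nat_lit 5923785004099)) (T.h (P (nat_lit 0)) (P (nat_lit 168662521387920)))) (T.h (P (nat_lit 0)) (P (nat_lit 212270073068840))))) (T.h (T.h (T.h (P (nat_lit 0)) (P (nat_lit 10997668360580))) (P (nat_lit 0))) (T.h (T.h (P (nat_lit 0)) (M (nat_lit 172837430151179))) (P (nat_lit 0)))))))) (T.h (P (nat_lit 0)) (T.h (T.h (T.h (T.h (P (nat_lit 0)) (T.h (M (nat_lit 12309070935))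 (T.h (P (nat_lit 0)) (T.h (M (nat_lit 53950184039)) (T.h (P (nat_lit 0)) (M (nat_lit 6879672960339))))))) (T.h (P (nat_lit 0)) (T.h (T.h (P (nat_lit 0)) (T.h (P (nat_lit 1338636639020)) (T.h (P (nat_lit 0)) (M (nat_lit 4260075998243))))) (T.h (P (nat_lit 0)) (T.h (T.h (P (nat_lit 0)) (M (nat_lit 17745225140735))) (P (nat_lit 0))))))) (T.h (T.h (P (nat_lit 0)) (T.h (T.h (M (nat_lit 391344999871)) (T.h (P (nat_lit 0)) (M (nat_lit 11693827357615)))) (T.h (P (nat_lit 0)) (M (nat_lit 3506926655039))))) (T.h (T.h (T.h (P (nat_lit 0)) (T.h (P (nat_lit 1328066225664)) (T.h (P (nat_lit 0)) (M (nat_lit 17930951901251))))) (T.h (P (nat_lit 0)) (T.h (T.h (P (nat_lit 0)) (M (nat_lit 33184193716307))) (P (nat_lit 0))))) (T.h (T.h (P (nat_lit 0)) (P (nat_lit 4483477439312))) (T.h (T.h (T.h (P (nat_lit 0)) (P (nat_lit 80700092861940))) (P (nat_lit 0))) (P (nat_lit 0))))))) (P (nat_lit 0)))))) en00_14))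
def en00_16 : T ℤ := (T.h (T.h (T.h (T.h (P (nat_lit 0)) (T.h (T.h (P (nat_lit 0)) (T.h (P (nat_lit 6123304656)) (T.h (P (nat_lit 0)) (T.h (M (nat_lit 173264619263)) (T.h (P (nat_lit 0)) (P (nat_lit 4039025269776))))))) (T.h (P (nat_lit 0)) (T.h (T.h (P (nat_lit 0)) (T.h (M (nat_lit 20128846823)) (T.h (P (nat_lit 0)) (P (nat_lit 15860345780472))))) (T.h (P (nat_lit 0)) (T.h (T.h (P (nat_lit 0)) (P (nat_lit 6993061334952))) (P (nat_lit 0)))))))) (T.h (T.h (T.h (M (nat_lit 7805687135)) (T.h (P (nat_lit 0)) (T.h (P (nat_lit 19564068696)) (T.h (P (nat_lit 0)) (P (nat_lit 717401377008)))))) (T.h (P (nat_lit 0)) (T.h (T.h (P (nat_lit 123775397376)) (T.h (P (nat_lit 0)) (P (nat_lit 1207431790632)))) (T.h (P (nat_lit 0)) (P (nat_lit 2335618595040)))))) (T.h (T.h (P (nat_lit 0)) (T.h (T.h (P (nat_lit 0)) (T.h (P (nat_lit 358398209376)) (T.h (P (nat_lit 0)) (M (nat_lit 31103195050055))))) (T.h (P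 (nat_lit 0)) (T.h (T.h (P (nat_lit 0)) (M (nat_lit 17696179896455))) (P (nat_lit 0)))))) (T.h (T.h (T.h (M (nat_lit 45818237375)) (T.h (P (nat_lit 0)) (M (nat_lit 9921395169095)))) (T.h (P (nat_lit 0)) (M (nat_lit 110261008871)))) (T.h (T.h (P (nat_lit 0)) (T.h (T.h (P (nat_lit 0)) (P (nat_lit 33653482557120))) (P (nat_lit 0)))) (M (nat_lit 1881290109887))))))) (T.h (P (nat_lit 0)) (T.h (T.h (T.h (P (nat_lit 0)) (T.h (T.h (P (nat_lit 0)) (T.h (P (nat_lit 81650464744)) (T.h (P (nat_lit 0)) (M (nat_lit 1044164340675))))) (T.h (P (nat_lit 0)) (T.h (T.h (P (nat_lit 0)) (M (nat_lit 1044164340675))) (P (nat_lit 0)))))) (T.h (T.h (T.h (M (nat_lit 13790511295)) (T.h (P (nat_lit 0)) (T.h (M (nat_lit 2294339010303)) (T.h (P (nat_lit 0)) (P (nat_lit 13582125975400)))))) (T.h (P (nat_lit 0)) (T.h (T.h (M (nat_lit 2294339010303)) (T.h (P (nat_lit 0)) (P (nat_lit 79433599006400)))) (T.h (P (nat_lit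 0)) (P (nat_lit 13582125975400)))))) (T.h (T.h (P (nat_lit 0)) (T.h (T.h (P (nat_lit 0)) (M (nat_lit 1186336584647))) (P (nat_lit 0)))) (T.h (T.h (T.h (M (nat_lit 526184633471)) (T.h (P (nat_lit 0)) (M (nat_lit 144101882711007)))) (T.h (P (nat_lit 0)) (M (nat_lit 144101882711007)))) (T.h (P (nat_lit 0)) (M (nat_lit 24310517419247))))))) (P (nat_lit 0))))) (T.h (T.h (P (nat_lit 0)) (T.h (T.h (T.h (T.h (P (nat_lit 42168116)) (T.h (P (nat_lit 0)) (T.h (P (nat_lit 7288129268)) (T.h (P (nat_lit 0)) (M (nat_lit 125437566807)))))) (T.h (P (nat_lit 0)) (T.h (T.h (M (nat_lit 28319563483)) (T.h (P (nat_lit 0)) (P (nat_lit 835617859624)))) (T.h (P (nat_lit 0)) (M (nat_lit 505249282147)))))) (T.h (T.h (P (nat_lit 0)) (T.h (T.h (P (nat_lit 0)) (T.h (M (nat_lit 213280436679)) (T.h (P (nat_lit 0)) (P (nat_lit 4058628270888))))) (T.h (P (nat_lit 0)) (T.h (T.h (P (nat_lit 0)) (P (nat_lit 12458619106328)))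 (P (nat_lit 0)))))) (T.h (T.h (T.h (M (nat_lit 45254597483)) (T.h (P (nat_lit 0)) (P (nat_lit 4815481697232)))) (T.h (P (nat_lit 0)) (P (nat_lit 1588615566600)))) (T.h (T.h (P (nat_lit 0)) (T.h (T.h (P (nat_lit 0)) (M (nat_lit 25474627165919))) (P (nat_lit 0)))) (M (nat_lit 1379030665419)))))) (P (nat_lit 0)))) (T.h (T.h (T.h (T.h (P (nat_lit 0)) (T.h (T.h (P (nat_lit 0)) (T.h (M (nat_lit 179933834895)) (T.h (P (nat_lit 0)) (P (nat_lit 1404332361332))))) (T.h (P (nat_lit 0)) (T.h (T.h (P (nat_lit 0)) (P (nat_lit 1302654750668))) (P (nat_lit 0)))))) (T.h (T.h (T.h (P (nat_lit 7963064144)) (T.h (P (nat_lit 0)) (T.h (P (nat_lit 155467173312)) (T.h (P (nat_lit 0)) (M (nat_lit 2149921695143)))))) (T.h (P (nat_lit 0)) (T.h (T.h (P (nat_lit 77624154928)) (T.h (P (nat_lit 0)) (M (nat_lit 50774339437967)))) (T.h (P (nat_lit 0)) (P (nat_lit 4556117177888)))))) (T.h (T.h (P (nat_lit 0)) (T.h (T.h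 (P (nat_lit 0)) (M (nat_lit 10956178277603))) (P (nat_lit 0)))) (T.h (T.h (T.h (P (nat_lit 11842361200)) (T.h (P (nat_lit 0)) (M (nat_lit 8389347866527)))) (T.h (P (nat_lit 0)) (P (nat_lit 39583301776384)))) (T.h (P (nat_lit 0)) (P (nat_lit 21243600936216))))))) (P (nat_lit 0))) (P (nat_lit 0)))))
def en00_17 : T ℤ := (T.h (T.h (P (nat_lit 0)) (T.h (P (nat_lit 0)) (T.h (T.h (T.h (P (nat_lit 0)) (T.h (T.h (P (nat_lit 0)) (T.h (P (nat_lit 6123304656)) (T.h (P (nat_lit 0)) (T.h (M (nat_lit 20128846823)) (T.h (P (nat_lit 0)) (P (nat_lit 6993061334952))))))) (T.h (P (nat_lit 0)) (T.h (T.h (P (nat_lit 0)) (T.h (M (nat_lit 173264619263)) (T.h (P (nat_lit 0)) (P (nat_lit 15860345780472))))) (T.h (P (nat_lit 0)) (T.h (T.h (P (nat_lit 0)) (P (nat_lit 4039025269776))) (P (nat_lit 0)))))))) (T.h (T.h (T.h (M (nat_lit 7805687135)) (T.h (P (nat_lit 0)) (T.h (P (nat_lit 123775397376)) (T.h (P (nat_lit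 0)) (P (nat_lit 2335618595040)))))) (T.h (P (nat_lit 0)) (T.h (T.h (P (nat_lit 19564068696)) (T.h (P (nat_lit 0)) (P (nat_lit 1207431790632)))) (T.h (P (nat_lit 0)) (P (nat_lit 717401377008)))))) (T.h (T.h (P (nat_lit 0)) (T.h (T.h (P (nat_lit 0)) (T.h (P (nat_lit 358398209376)) (T.h (P (nat_lit 0)) (M (nat_lit 17696179896455))))) (T.h (P (nat_lit 0)) (T.h (T.h (P (nat_lit 0)) (M (nat_lit 31103195050055))) (P (nat_lit 0)))))) (T.h (T.h (T.h (M (nat_lit 45818237375)) (T.h (P (nat_lit 0)) (M (nat_lit 110261008871)))) (T.h (P (nat_lit 0)) (M (nat_lit 9921395169095)))) (T.h (T.h (P (nat_lit 0)) (T.h (T.h (P (nat_lit 0)) (P (nat_lit 33653482557120))) (P (nat_lit 0)))) (M (nat_lit 1881290109887))))))) (T.h (P (nat_lit 0)) (T.h (T.h (T.h (P (nat_lit 0)) (T.h (T.h (P (nat_lit 0)) (T.h (M (nat_lit 179933834895)) (T.h (P (nat_lit 0)) (P (nat_lit 1302654750668))))) (T.h (P (nat_lit 0)) (T.h (T.h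 (P (nat_lit 0)) (P (nat_lit 1404332361332))) (P (nat_lit 0)))))) (T.h (T.h (T.h (P (nat_lit 7963064144)) (T.h (P (nat_lit 0)) (T.h (P (nat_lit 77624154928)) (T.h (P (nat_lit 0)) (P (nat_lit 4556117177888)))))) (T.h (P (nat_lit 0)) (T.h (T.h (P (nat_lit 155467173312)) (T.h (P (nat_lit 0)) (M (nat_lit 50774339437967)))) (T.h (P (nat_lit 0)) (M (nat_lit 2149921695143)))))) (T.h (T.h (P (nat_lit 0)) (T.h (T.h (P (nat_lit 0)) (M (nat_lit 10956178277603))) (P (nat_lit 0)))) (T.h (T.h (T.h (P (nat_lit 11842361200)) (T.h (P (nat_lit 0)) (P (nat_lit 39583301776384)))) (T.h (P (nat_lit 0)) (M (nat_lit 8389347866527)))) (T.h (P (nat_lit 0)) (P (nat_lit 21243600936216))))))) (P (nat_lit 0))))))) (T.h (T.h (P (nat_lit 0)) (T.h (T.h (T.h (T.h (M (nat_lit 574106399)) (T.h (P (nat_lit 0)) (T.h (P (nat_lit 22948689744)) (T.h (P (nat_lit 0)) (T.h (M (nat_lit 117398089319)) (T.h (P (nat_lit 0)) (P (nat_lit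 10132204418568)))))))) (T.h (P (nat_lit 0)) (T.h (T.h (P (nat_lit 22948689744)) (T.h (P (nat_lit 0)) (T.h (M (nat_lit 48324943199)) (T.h (P (nat_lit 0)) (P (nat_lit 11144243839392)))))) (T.h (P (nat_lit 0)) (T.h (T.h (M (nat_lit 117398089319)) (T.h (P (nat_lit 0)) (P (nat_lit 11144243839392)))) (T.h (P (nat_lit 0)) (P (nat_lit 10132204418568)))))))) (T.h (T.h (P (nat_lit 0)) (T.h (T.h (P (nat_lit 0)) (T.h (M (nat_lit 21264536543)) (T.h (P (nat_lit 0)) (P (nat_lit 1453863269592))))) (T.h (P (nat_lit 0)) (T.h (T.h (P (nat_lit 0)) (P (nat_lit 1453863269592))) (P (nat_lit 0)))))) (T.h (T.h (T.h (P (nat_lit 32831563728)) (T.h (P (nat_lit 0)) (T.h (P (nat_lit 585633107664)) (T.h (P (nat_lit 0)) (M (nat_lit 31231294012871)))))) (T.h (P (nat_lit 0)) (T.h (T.h (P (nat_lit 585633107664)) (T.h (P (nat_lit 0)) (P (nat_lit 58499039017680)))) (T.h (P (nat_lit 0)) (M (nat_lit 31231294012871)))))) (T.h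 (T.h (P (nat_lit 0)) (T.h (T.h (P (nat_lit 0)) (M (nat_lit 27650008523615))) (P (nat_lit 0)))) (T.h (T.h (T.h (M (nat_lit 1987660693775)) (T.h (P (nat_lit 0)) (M (nat_lit 59895948716519)))) (T.h (P (nat_lit 0)) (M (nat_lit 59895948716519)))) (T.h (P (nat_lit 0)) (M (nat_lit 9020498350799)))))))) (T.h (P (nat_lit 0)) (T.h (T.h (T.h (T.h (P (nat_lit 42168116)) (T.h (P (nat_lit 0)) (T.h (M (nat_lit 28319563483)) (T.h (P (nat_lit 0)) (M (nat_lit 505249282147)))))) (T.h (P (nat_lit 0)) (T.h (T.h (P (nat_lit 7288129268)) (T.h (P (nat_lit 0)) (P (nat_lit 835617859624)))) (T.h (P (nat_lit 0)) (M (nat_lit 125437566807)))))) (T.h (T.h (P (nat_lit 0)) (T.h (T.h (P (nat_lit 0)) (T.h (M (nat_lit 213280436679)) (T.h (P (nat_lit 0)) (P (nat_lit 12458619106328))))) (T.h (P (nat_lit 0)) (T.h (T.h (P (nat_lit 0)) (P (nat_lit 4058628270888))) (P (nat_lit 0)))))) (T.h (T.h (T.h (M (nat_lit 45254597483)) (T.h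 (P (nat_lit 0)) (P (nat_lit 1588615566600)))) (T.h (P (nat_lit 0)) (P (nat_lit 4815481697232)))) (T.h (T.h (P (nat_lit 0)) (T.h (T.h (P (nat_lit 0)) (M (nat_lit 25474627165919))) (P (nat_lit 0)))) (M (nat_lit 1379030665419)))))) (P (nat_lit 0)))))) en00_16))
def en00_18 : T ℤ := (T.h (T.h (T.h (T.h (P (nat_lit 0)) (T.h (T.h (P (nat_lit 8140259624)) (T.h (P (nat_lit 0)) (T.h (P (nat_lit 24202579520)) (T.h (P (nat_lit 0)) (M (nat_lit 218092730911)))))) (T.h (P (nat_lit 0)) (T.h (T.h (M (nat_lit 14321300111)) (T.h (P (nat_lit 0)) (M (nat_lit 507619520743)))) (T.h (P (nat_lit 0)) (M (nat_lit 1834369591795))))))) (T.h (T.h (T.h (P (nat_lit 0)) (T.h (P (nat_lit 2803135356)) (T.h (P (nat_lit 0)) (T.h (P (nat_lit 161853824524)) (T.h (P (nat_lit 0)) (M (nat_lit 4033858797247))))))) (T.h (P (nat_lit 0)) (T.h (T.h (P (nat_lit 0)) (T.h (P (nat_lit 247122596588)) (T.h (P (nat_lit 0)) (M (nat_lit 3233130877143)))))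 (T.h (P (nat_lit 0)) (T.h (T.h (P (nat_lit 0)) (M (nat_lit 14748840694139))) (P (nat_lit 0))))))) (T.h (T.h (P (nat_lit 0)) (T.h (T.h (P (nat_lit 35425307540)) (T.h (P (nat_lit 0)) (M (nat_lit 2359186510323)))) (T.h (P (nat_lit 0)) (M (nat_lit 3932383637307))))) (T.h (T.h (T.h (P (nat_lit 0)) (T.h (P (nat_lit 792468230316)) (T.h (P (nat_lit 0)) (M (nat_lit 14970958387419))))) (T.h (P (nat_lit 0)) (T.h (T.h (P (nat_lit 0)) (P (nat_lit 16434797294272))) (P (nat_lit 0))))) (T.h (T.h (P (nat_lit 0)) (M (nat_lit 9553159337539))) (T.h (T.h (T.h (P (nat_lit 0)) (P (nat_lit 23842884632560))) (P (nat_lit 0))) (P (nat_lit 0)))))))) (T.h (P (nat_lit 0)) (T.h (T.h (T.h (P (nat_lit 0)) (T.h (T.h (M (nat_lit 1888117127)) (T.h (P (nat_lit 0)) (T.h (M (nat_lit 34571638631)) (T.h (P (nat_lit 0)) (P (nat_lit 841813831028)))))) (T.h (P (nat_lit 0)) (T.h (T.h (M (nat_lit 40138122115)) (T.h (P (nat_lit 0))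 (M (nat_lit 556629906003)))) (T.h (P (nat_lit 0)) (M (nat_lit 13017377747))))))) (T.h (T.h (T.h (P (nat_lit 0)) (T.h (P (nat_lit 16994584368)) (T.h (P (nat_lit 0)) (P (nat_lit 1432625885648))))) (T.h (P (nat_lit 0)) (T.h (T.h (P (nat_lit 0)) (M (nat_lit 1496849645167))) (P (nat_lit 0))))) (T.h (T.h (P (nat_lit 0)) (T.h (T.h (M (nat_lit 278050554191)) (T.h (P (nat_lit 0)) (P (nat_lit 5032470888024)))) (T.h (P (nat_lit 0)) (P (nat_lit 14396757634152))))) (T.h (T.h (T.h (P (nat_lit 0)) (M (nat_lit 26818822805359))) (P (nat_lit 0))) (T.h (T.h (P (nat_lit 0)) (P (nat_lit 49662338649000))) (P (nat_lit 0))))))) (P (nat_lit 0))))) (T.h (T.h (P (nat_lit 0)) (T.h (T.h (T.h (T.h (P (nat_lit 0)) (T.h (M (nat_lit 1888117127)) (T.h (P (nat_lit 0)) (T.h (M (nat_lit 40138122115)) (T.h (P (nat_lit 0)) (M (nat_lit 13017377747))))))) (T.h (P (nat_lit 0)) (T.h (T.h (P (nat_lit 0)) (T.h (M (nat_lit 34571638631))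 (T.h (P (nat_lit 0)) (M (nat_lit 556629906003))))) (T.h (P (nat_lit 0)) (T.h (T.h (P (nat_lit 0)) (P (nat_lit 841813831028))) (P (nat_lit 0))))))) (T.h (T.h (P (nat_lit 0)) (T.h (T.h (P (nat_lit 16994584368)) (T.h (P (nat_lit 0)) (M (nat_lit 1496849645167)))) (T.h (P (nat_lit 0)) (P (nat_lit 1432625885648))))) (T.h (T.h (T.h (P (nat_lit 0)) (T.h (M (nat_lit 278050554191)) (T.h (P (nat_lit 0)) (P (nat_lit 14396757634152))))) (T.h (P (nat_lit 0)) (T.h (T.h (P (nat_lit 0)) (P (nat_lit 5032470888024))) (P (nat_lit 0))))) (T.h (T.h (P (nat_lit 0)) (M (nat_lit 26818822805359))) (T.h (T.h (T.h (P (nat_lit 0)) (P (nat_lit 49662338649000))) (P (nat_lit 0))) (P (nat_lit 0))))))) (P (nat_lit 0)))) (T.h (T.h (T.h (T.h (P (nat_lit 0)) (T.h (T.h (M (nat_lit 2322193431)) (T.h (P (nat_lit 0)) (T.h (P (nat_lit 81192824028)) (T.h (P (nat_lit 0)) (M (nat_lit 134884029651)))))) (T.h (P (nat_lit 0)) (T.h (T.h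 (M (nat_lit 4369295343)) (T.h (P (nat_lit 0)) (M (nat_lit 3093672468971)))) (T.h (P (nat_lit 0)) (P (nat_lit 1517964575352))))))) (T.h (T.h (T.h (P (nat_lit 0)) (T.h (M (nat_lit 51652977879)) (T.h (P (nat_lit 0)) (P (nat_lit 1088327594432))))) (T.h (P (nat_lit 0)) (T.h (T.h (P (nat_lit 0)) (M (nat_lit 1184964797863))) (P (nat_lit 0))))) (T.h (T.h (P (nat_lit 0)) (T.h (T.h (P (nat_lit 2658041569368)) (T.h (P (nat_lit 0)) (M (nat_lit 5506914669563)))) (T.h (P (nat_lit 0)) (M (nat_lit 8182358258543))))) (T.h (T.h (T.h (P (nat_lit 0)) (P (nat_lit 2731708224048))) (P (nat_lit 0))) (T.h (T.h (P (nat_lit 0)) (P (nat_lit 24037304898660))) (P (nat_lit 0))))))) (P (nat_lit 0))) (P (nat_lit 0)))))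
def en00_19 : T ℤ := (T.h (T.h (T.h (T.h (P (nat_lit 0)) (T.h (T.h (P (nat_lit 0)) (T.h (P (nat_lit 1756712704)) (T.h (P (nat_lit 0)) (T.h (P (nat_lit 102510228544)) (T.h (P (nat_lit 0)) (M (nat_lit 1262327785823))))))) (T.h (P (nat_lit 0)) (T.h (T.h (P (nat_lit 0)) (T.h (P (nat_lit 102510228544)) (T.h (P (nat_lit 0)) (M (nat_lit 5280485875775))))) (T.h (P (nat_lit 0)) (T.h (T.h (P (nat_lit 0)) (M (nat_lit 1262327785823))) (P (nat_lit 0)))))))) (T.h (T.h (T.h (M (nat_lit 5905024959)) (T.h (P (nat_lit 0)) (T.h (M (nat_lit 2734256607)) (T.h (P (nat_lit 0)) (M (nat_lit 267180493183)))))) (T.h (P (nat_lit 0)) (T.h (T.h (M (nat_lit 2734256607)) (T.h (P (nat_lit 0)) (M (nat_lit 1855862600959)))) (T.h (P (nat_lit 0)) (M (nat_lit 267180493183)))))) (T.h (T.h (P (nat_lit 0)) (T.h (T.h (P (nat_lit 0)) (T.h (P (nat_lit 652444149248)) (T.h (P (nat_lit 0)) (P (nat_lit 5484092252032))))) (T.h (P (nat_lit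 0)) (T.h (T.h (P (nat_lit 0)) (P (nat_lit 5484092252032))) (P (nat_lit 0)))))) (T.h (T.h (T.h (P (nat_lit 183705461120)) (T.h (P (nat_lit 0)) (P (nat_lit 3075167259040)))) (T.h (P (nat_lit 0)) (P (nat_lit 3075167259040)))) (T.h (T.h (P (nat_lit 0)) (T.h (T.h (P (nat_lit 0)) (P (nat_lit 21543581846528))) (P (nat_lit 0)))) (P (nat_lit 11909223750848))))))) (T.h (P (nat_lit 0)) (T.h (T.h (T.h (P (nat_lit 0)) (T.h (T.h (P (nat_lit 0)) (T.h (M (nat_lit 17453527295)) (T.h (P (nat_lit 0)) (M (nat_lit 48765185379))))) (T.h (P (nat_lit 0)) (T.h (T.h (P (nat_lit 0)) (M (nat_lit 210478201967))) (P (nat_lit 0)))))) (T.h (T.h (T.h (M (nat_lit 609662591)) (T.h (P (nat_lit 0)) (T.h (M (nat_lit 157763484503)) (T.h (P (nat_lit 0)) (P (nat_lit 549442578440)))))) (T.h (P (nat_lit 0)) (T.h (T.h (M (nat_lit 320119138959)) (T.h (P (nat_lit 0)) (P (nat_lit 2466934778680)))) (T.h (P (nat_lit 0)) (P (nat_lit 1861910640520))))))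 (T.h (T.h (P (nat_lit 0)) (T.h (T.h (P (nat_lit 0)) (P (nat_lit 2430680037348))) (P (nat_lit 0)))) (T.h (T.h (T.h (M (nat_lit 184057019823)) (T.h (P (nat_lit 0)) (M (nat_lit 2084141876783)))) (T.h (P (nat_lit 0)) (M (nat_lit 5597919986735)))) (T.h (P (nat_lit 0)) (P (nat_lit 19771850388312))))))) (P (nat_lit 0))))) (T.h (T.h (P (nat_lit 0)) (T.h (T.h (T.h (T.h (M (nat_lit 441271607)) (T.h (P (nat_lit 0)) (T.h (M (nat_lit 7217783779)) (T.h (P (nat_lit 0)) (M (nat_lit 142293718131)))))) (T.h (P (nat_lit 0)) (T.h (T.h (M (nat_lit 7217783779)) (T.h (P (nat_lit 0)) (M (nat_lit 250189775167)))) (T.h (P (nat_lit 0)) (M (nat_lit 142293718131)))))) (T.h (T.h (P (nat_lit 0)) (T.h (T.h (P (nat_lit 0)) (T.h (M (nat_lit 20710701887)) (T.h (P (nat_lit 0)) (M (nat_lit 3000348671535))))) (T.h (P (nat_lit 0)) (T.h (T.h (P (nat_lit 0)) (M (nat_lit 3000348671535))) (P (nat_lit 0)))))) (T.h (T.h (T.h (M (nat_lit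 66059175527)) (T.h (P (nat_lit 0)) (M (nat_lit 1682505116291)))) (T.h (P (nat_lit 0)) (M (nat_lit 1682505116291)))) (T.h (T.h (P (nat_lit 0)) (T.h (T.h (P (nat_lit 0)) (P (nat_lit 72149399739968))) (P (nat_lit 0)))) (P (nat_lit 9973501579720)))))) (P (nat_lit 0)))) (T.h (T.h (T.h (T.h (P (nat_lit 0)) (T.h (T.h (P (nat_lit 0)) (T.h (M (nat_lit 17453527295)) (T.h (P (nat_lit 0)) (M (nat_lit 210478201967))))) (T.h (P (nat_lit 0)) (T.h (T.h (P (nat_lit 0)) (M (nat_lit 48765185379))) (P (nat_lit 0)))))) (T.h (T.h (T.h (M (nat_lit 609662591)) (T.h (P (nat_lit 0)) (T.h (M (nat_lit 320119138959)) (T.h (P (nat_lit 0)) (P (nat_lit 1861910640520)))))) (T.h (P (nat_lit 0)) (T.h (T.h (M (nat_lit 157763484503)) (T.h (P (nat_lit 0)) (P (nat_lit 2466934778680)))) (T.h (P (nat_lit 0)) (P (nat_lit 549442578440)))))) (T.h (T.h (P (nat_lit 0)) (T.h (T.h (P (nat_lit 0)) (P (nat_lit 2430680037348))) (P (nat_lit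 0)))) (T.h (T.h (T.h (M (nat_lit 184057019823)) (T.h (P (nat_lit 0)) (M (nat_lit 5597919986735)))) (T.h (P (nat_lit 0)) (M (nat_lit 2084141876783)))) (T.h (P (nat_lit 0)) (P (nat_lit 19771850388312))))))) (P (nat_lit 0))) (P (nat_lit 0)))))
def en00_20 : T ℤ := (T.h (T.h (T.h (P (nat_lit 0)) (T.h (T.h (T.h (T.h (P (nat_lit 0)) (T.h (P (nat_lit 8140259624)) (T.h (P (nat_lit 0)) (T.h (M (nat_lit 14321300111)) (T.h (P (nat_lit 0)) (M (nat_lit 1834369591795))))))) (T.h (P (nat_lit 0)) (T.h (T.h (P (nat_lit 0)) (T.h (P (nat_lit 24202579520)) (T.h (P (nat_lit 0)) (M (nat_lit 507619520743))))) (T.h (P (nat_lit 0)) (T.h (T.h (P (nat_lit 0)) (M (nat_lit 218092730911))) (P (nat_lit 0))))))) (T.h (T.h (P (nat_lit 0)) (T.h (T.h (P (nat_lit 2803135356)) (T.h (P (nat_lit 0)) (T.h (P (nat_lit 247122596588)) (T.h (P (nat_lit 0)) (M (nat_lit 14748840694139)))))) (T.h (P (nat_lit 0)) (T.h (T.h (P (nat_lit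 161853824524)) (T.h (P (nat_lit 0)) (M (nat_lit 3233130877143)))) (T.h (P (nat_lit 0)) (M (nat_lit 4033858797247))))))) (T.h (T.h (T.h (P (nat_lit 0)) (T.h (P (nat_lit 35425307540)) (T.h (P (nat_lit 0)) (M (nat_lit 3932383637307))))) (T.h (P (nat_lit 0)) (T.h (T.h (P (nat_lit 0)) (M (nat_lit 2359186510323))) (P (nat_lit 0))))) (T.h (T.h (P (nat_lit 0)) (T.h (T.h (P (nat_lit 792468230316)) (T.h (P (nat_lit 0)) (P (nat_lit 16434797294272)))) (T.h (P (nat_lit 0)) (M (nat_lit 14970958387419))))) (T.h (T.h (T.h (P (nat_lit 0)) (M (nat_lit 9553159337539))) (P (nat_lit 0))) (T.h (T.h (P (nat_lit 0)) (P (nat_lit 23842884632560))) (P (nat_lit 0)))))))) (T.h (P (nat_lit 0)) (T.h (T.h (T.h (T.h (P (nat_lit 0)) (T.h (M (nat_lit 2322193431)) (T.h (P (nat_lit 0)) (T.h (M (nat_lit 4369295343)) (T.h (P (nat_lit 0)) (P (nat_lit 1517964575352))))))) (T.h (P (nat_lit 0)) (T.h (T.h (P (nat_lit 0)) (T.h (P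 (nat_lit 81192824028)) (T.h (P (nat_lit 0)) (M (nat_lit 3093672468971))))) (T.h (P (nat_lit 0)) (T.h (T.h (P (nat_lit 0)) (M (nat_lit 134884029651))) (P (nat_lit 0))))))) (T.h (T.h (P (nat_lit 0)) (T.h (T.h (M (nat_lit 51652977879)) (T.h (P (nat_lit 0)) (M (nat_lit 1184964797863)))) (T.h (P (nat_lit 0)) (P (nat_lit 1088327594432))))) (T.h (T.h (T.h (P (nat_lit 0)) (T.h (P (nat_lit 2658041569368)) (T.h (P (nat_lit 0)) (M (nat_lit 8182358258543))))) (T.h (P (nat_lit 0)) (T.h (T.h (P (nat_lit 0)) (M (nat_lit 5506914669563))) (P (nat_lit 0))))) (T.h (T.h (P (nat_lit 0)) (P (nat_lit 2731708224048))) (T.h (T.h (T.h (P (nat_lit 0)) (P (nat_lit 24037304898660))) (P (nat_lit 0))) (P (nat_lit 0))))))) (P (nat_lit 0)))))) en00_18) (T.h en00_19 (T.h (T.h (T.h (P (nat_lit 0)) (T.h (T.h (T.h (T.h (P (nat_lit 0)) (T.h (P (nat_lit 378583812)) (T.h (P (nat_lit 0)) (T.h (P (nat_lit 22158168108)) (T.h (P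 (nat_lit 0)) (P (nat_lit 36652405676))))))) (T.h (P (nat_lit 0)) (T.h (T.h (P (nat_lit 0)) (T.h (M (nat_lit 26262022803)) (T.h (P (nat_lit 0)) (P (nat_lit 355828967652))))) (T.h (P (nat_lit 0)) (T.h (T.h (P (nat_lit 0)) (P (nat_lit 810122584748))) (P (nat_lit 0))))))) (T.h (T.h (P (nat_lit 0)) (T.h (T.h (P (nat_lit 14497538552)) (T.h (P (nat_lit 0)) (P (nat_lit 130338500776)))) (T.h (P (nat_lit 0)) (P (nat_lit 435755453240))))) (T.h (T.h (T.h (P (nat_lit 0)) (T.h (P (nat_lit 112726257036)) (T.h (P (nat_lit 0)) (P (nat_lit 2712806738148))))) (T.h (P (nat_lit 0)) (T.h (T.h (P (nat_lit 0)) (M (nat_lit 3353185913099))) (P (nat_lit 0))))) (T.h (T.h (P (nat_lit 0)) (P (nat_lit 6449770562464))) (T.h (T.h (T.h (P (nat_lit 0)) (M (nat_lit 13399962185499))) (P (nat_lit 0))) (P (nat_lit 0))))))) (P (nat_lit 0)))) (T.h (T.h (T.h (T.h (P (nat_lit 0)) (T.h (T.h (P (nat_lit 378583812)) (T.h (P (nat_lit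 0)) (T.h (M (nat_lit 26262022803)) (T.h (P (nat_lit 0)) (P (nat_lit 810122584748)))))) (T.h (P (nat_lit 0)) (T.h (T.h (P (nat_lit 22158168108)) (T.h (P (nat_lit 0)) (P (nat_lit 355828967652)))) (T.h (P (nat_lit 0)) (P (nat_lit 36652405676))))))) (T.h (T.h (T.h (P (nat_lit 0)) (T.h (P (nat_lit 14497538552)) (T.h (P (nat_lit 0)) (P (nat_lit 435755453240))))) (T.h (P (nat_lit 0)) (T.h (T.h (P (nat_lit 0)) (P (nat_lit 130338500776))) (P (nat_lit 0))))) (T.h (T.h (P (nat_lit 0)) (T.h (T.h (P (nat_lit 112726257036)) (T.h (P (nat_lit 0)) (M (nat_lit 3353185913099)))) (T.h (P (nat_lit 0)) (P (nat_lit 2712806738148))))) (T.h (T.h (T.h (P (nat_lit 0)) (P (nat_lit 6449770562464))) (P (nat_lit 0))) (T.h (T.h (P (nat_lit 0)) (M (nat_lit 13399962185499))) (P (nat_lit 0))))))) (P (nat_lit 0))) (P (nat_lit 0)))) (T.h (T.h (T.h (T.h (T.h (P (nat_lit 0)) (T.h (T.h (P (nat_lit 0)) (T.h (M (nat_lit 686848071))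 (T.h (P (nat_lit 0)) (P (nat_lit 7261136716))))) (T.h (P (nat_lit 0)) (T.h (T.h (P (nat_lit 0)) (P (nat_lit 7261136716))) (P (nat_lit 0)))))) (T.h (T.h (T.h (P (nat_lit 2557547088)) (T.h (P (nat_lit 0)) (T.h (P (nat_lit 37906628888)) (T.h (P (nat_lit 0)) (P (nat_lit 561007159344)))))) (T.h (P (nat_lit 0)) (T.h (T.h (P (nat_lit 37906628888)) (T.h (P (nat_lit 0)) (M (nat_lit 2529535754399)))) (T.h (P (nat_lit 0)) (P (nat_lit 561007159344)))))) (T.h (T.h (P (nat_lit 0)) (T.h (T.h (P (nat_lit 0)) (M (nat_lit 1296142093775))) (P (nat_lit 0)))) (T.h (T.h (T.h (M (nat_lit 281865845407)) (T.h (P (nat_lit 0)) (M (nat_lit 5101700793983)))) (T.h (P (nat_lit 0)) (M (nat_lit 5101700793983)))) (T.h (P (nat_lit 0)) (P (nat_lit 1978852219488))))))) (P (nat_lit 0))) (P (nat_lit 0))) (P (nat_lit 0))))))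
def en00_21 : T ℤ := (T.h (T.h (T.h (P (nat_lit 0)) (T.h (P (nat_lit 0)) (T.h (P (nat_lit 0)) (T.h (P (nat_lit 0)) (T.h (P (nat_lit 0)) (T.h (T.h (T.h (T.h (P (nat_lit 0)) (T.h (P (nat_lit 4609394688)) (T.h (P (nat_lit 0)) (T.h (M (nat_lit 162512747291)) (T.h (P (nat_lit 0)) (P (nat_lit 2263821188628))))))) (T.h (P (nat_lit 0)) (T.h (T.h (P (nat_lit 0)) (T.h (M (nat_lit 11721745307)) (T.h (P (nat_lit 0)) (P (nat_lit 6510770482140))))) (T.h (P (nat_lit 0)) (T.h (T.h (P (nat_lit 0)) (M (nat_lit 358653859775))) (P (nat_lit 0))))))) (T.h (T.h (P (nat_lit 0)) (T.h (T.h (M (nat_lit 3376596515)) (T.h (P (nat_lit 0)) (T.h (M (nat_lit 259555344515)) (T.h (P (nat_lit 0)) (M (nat_lit 30919598296379)))))) (T.h (P (nat_lit 0)) (T.h (T.h (P (nat_lit 88980273684)) (T.h (P (nat_lit 0)) (P (nat_lit 21784451641044)))) (T.h (P (nat_lit 0)) (M (nat_lit 1986468520163))))))) (T.h (T.h (T.h (P (nat_lit 0)) (T.h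 (M (nat_lit 98875938395)) (T.h (P (nat_lit 0)) (P (nat_lit 3223464118548))))) (T.h (P (nat_lit 0)) (T.h (T.h (P (nat_lit 0)) (M (nat_lit 996483252023))) (P (nat_lit 0))))) (T.h (T.h (P (nat_lit 0)) (T.h (T.h (P (nat_lit 59670142008)) (T.h (P (nat_lit 0)) (P (nat_lit 38173059638400)))) (T.h (P (nat_lit 0)) (M (nat_lit 14972300023199))))) (T.h (T.h (T.h (P (nat_lit 0)) (M (nat_lit 2447862385475))) (P (nat_lit 0))) (T.h (T.h (P (nat_lit 0)) (M (nat_lit 6849216338183))) (P (nat_lit 0)))))))) (T.h (P (nat_lit 0)) (T.h (T.h (T.h (T.h (P (nat_lit 0)) (T.h (M (nat_lit 3287351443)) (T.h (P (nat_lit 0)) (T.h (M (nat_lit 116894151759)) (T.h (P (nat_lit 0)) (M (nat_lit 9398611279647))))))) (T.h (P (nat_lit 0)) (T.h (T.h (P (nat_lit 0)) (T.h (P (nat_lit 25100823384)) (T.h (P (nat_lit 0)) (M (nat_lit 1818131770955))))) (T.h (P (nat_lit 0)) (T.h (T.h (P (nat_lit 0)) (M (nat_lit 931891698915))) (P (nat_lit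 0))))))) (T.h (T.h (P (nat_lit 0)) (T.h (T.h (M (nat_lit 10963463103)) (T.h (P (nat_lit 0)) (M (nat_lit 691446977975)))) (T.h (P (nat_lit 0)) (P (nat_lit 58059602960))))) (T.h (T.h (T.h (P (nat_lit 0)) (T.h (P (nat_lit 79421539836)) (T.h (P (nat_lit 0)) (P (nat_lit 5400045019884))))) (T.h (P (nat_lit 0)) (T.h (T.h (P (nat_lit 0)) (M (nat_lit 1215662423735))) (P (nat_lit 0))))) (T.h (T.h (P (nat_lit 0)) (M (nat_lit 303052456415))) (T.h (T.h (T.h (P (nat_lit 0)) (M (nat_lit 6471228137219))) (P (nat_lit 0))) (P (nat_lit 0))))))) (P (nat_lit 0)))))))))) en00_10) (T.h en00_13 (T.h (T.h (T.h (P (nat_lit 0)) (T.h (P (nat_lit 0)) (T.h (P (nat_lit 0)) (T.h (T.h (T.h (T.h (P (nat_lit 0)) (T.h (P (nat_lit 10338094500)) (T.h (P (nat_lit 0)) (T.h (P (nat_lit 35653166060)) (T.h (P (nat_lit 0)) (M (nat_lit 2305065438419))))))) (T.h (P (nat_lit 0)) (T.h (T.h (P (nat_lit 0)) (T.h (M (nat_lit 15596126959))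 (T.h (P (nat_lit 0)) (M (nat_lit 203661315559))))) (T.h (P (nat_lit 0)) (T.h (T.h (P (nat_lit 0)) (M (nat_lit 456156771879))) (P (nat_lit 0))))))) (T.h (T.h (P (nat_lit 0)) (T.h (T.h (M (nat_lit 34153841359)) (T.h (P (nat_lit 0)) (T.h (M (nat_lit 119009016499)) (T.h (P (nat_lit 0)) (P (nat_lit 26907326098440)))))) (T.h (P (nat_lit 0)) (T.h (T.h (P (nat_lit 277392333420)) (T.h (P (nat_lit 0)) (P (nat_lit 35961220432940)))) (T.h (P (nat_lit 0)) (P (nat_lit 253810801060))))))) (T.h (T.h (T.h (P (nat_lit 0)) (T.h (M (nat_lit 217914780159)) (T.h (P (nat_lit 0)) (P (nat_lit 5938585192240))))) (T.h (P (nat_lit 0)) (T.h (T.h (P (nat_lit 0)) (P (nat_lit 11070998688040))) (P (nat_lit 0))))) (T.h (T.h (P (nat_lit 0)) (T.h (T.h (P (nat_lit 64118288520)) (T.h (P (nat_lit 0)) (M (nat_lit 47956837074779)))) (T.h (P (nat_lit 0)) (P (nat_lit 38039336784260))))) (T.h (T.h (T.h (P (nat_lit 0)) (P (nat_lit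 15936644306700))) (P (nat_lit 0))) (T.h (T.h (P (nat_lit 0)) (P (nat_lit 14363356626540))) (P (nat_lit 0)))))))) (T.h (P (nat_lit 0)) (T.h (T.h (T.h (T.h (P (nat_lit 0)) (T.h (M (nat_lit 875455387)) (T.h (P (nat_lit 0)) (T.h (P (nat_lit 950251937228)) (T.h (P (nat_lit 0)) (M (nat_lit 11416599132599))))))) (T.h (P (nat_lit 0)) (T.h (T.h (P (nat_lit 0)) (T.h (P (nat_lit 15831468328)) (T.h (P (nat_lit 0)) (P (nat_lit 12361518819252))))) (T.h (P (nat_lit 0)) (T.h (T.h (P (nat_lit 0)) (M (nat_lit 2699177860203))) (P (nat_lit 0))))))) (T.h (T.h (P (nat_lit 0)) (T.h (T.h (P (nat_lit 24953199192)) (T.h (P (nat_lit 0)) (P (nat_lit 3984391628504)))) (T.h (P (nat_lit 0)) (M (nat_lit 1414283078783))))) (T.h (T.h (T.h (P (nat_lit 0)) (T.h (P (nat_lit 74184420600)) (T.h (P (nat_lit 0)) (M (nat_lit 59981534363411))))) (T.h (P (nat_lit 0)) (T.h (T.h (P (nat_lit 0)) (M (nat_lit 1403124912575))) (P (nat_lit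 0))))) (T.h (T.h (P (nat_lit 0)) (M (nat_lit 7744298191))) (T.h (T.h (T.h (P (nat_lit 0)) (M (nat_lit 1015290083899))) (P (nat_lit 0))) (P (nat_lit 0))))))) (P (nat_lit 0)))))))) en00_15) (T.h en00_17 en00_20))))

def n00 : T ℤ := (T.h (T.h (T.h (P (nat_lit 0)) (T.h (P (nat_lit 0)) (T.h (P (nat_lit 0)) (T.h (P (nat_lit 0)) (T.h (P (nat_lit 0)) (T.h (P (nat_lit 0)) (T.h (P (nat_lit 0)) (T.h (T.h (T.h (T.h (P (nat_lit 0)) (T.h (P (nat_lit 738128120)) (T.h (P (nat_lit 0)) (T.h (M (nat_lit 22963182147)) (T.h (P (nat_lit 0)) (M (nat_lit 1488652914371))))))) (T.h (P (nat_lit 0)) (T.h (T.h (P (nat_lit 0)) (T.h (P (nat_lit 1310274192)) (T.h (P (nat_lit 0)) (M (nat_lit 457329100279))))) (T.h (P (nat_lit 0)) (T.h (T.h (P (nat_lit 0)) (P (nat_lit 40098236416))) (P (nat_lit 0))))))) (T.h (T.h (P (nat_lit 0)) (T.h (T.h (M (nat_lit 219589083)) (T.h (P (nat_lit 0)) (T.h (M (nat_lit 81555518263)) (T.h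 (P (nat_lit 0)) (M (nat_lit 2692947581803)))))) (T.h (P (nat_lit 0)) (T.h (T.h (M (nat_lit 21609219139)) (T.h (P (nat_lit 0)) (M (nat_lit 200141653595)))) (T.h (P (nat_lit 0)) (P (nat_lit 144904021028))))))) (T.h (T.h (T.h (P (nat_lit 0)) (T.h (M (nat_lit 3367046623)) (T.h (P (nat_lit 0)) (M (nat_lit 933867656047))))) (T.h (P (nat_lit 0)) (T.h (T.h (P (nat_lit 0)) (P (nat_lit 231982822180))) (P (nat_lit 0))))) (T.h (T.h (P (nat_lit 0)) (T.h (T.h (P (nat_lit 3719750764)) (T.h (P (nat_lit 0)) (M (nat_lit 2206827862955)))) (T.h (P (nat_lit 0)) (P (nat_lit 660060737520))))) (T.h (T.h (T.h (P (nat_lit 0)) (M (nat_lit 71822606971))) (P (nat_lit 0))) (T.h (T.h (P (nat_lit 0)) (P (nat_lit 517157165328))) (P (nat_lit 0)))))))) (T.h (P (nat_lit 0)) (T.h (T.h (T.h (T.h (P (nat_lit 0)) (T.h (P (nat_lit 1415224972)) (T.h (P (nat_lit 0)) (T.h (M (nat_lit 31013508347)) (T.h (P (nat_lit 0)) (M (nat_lit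 7107340149591))))))) (T.h (P (nat_lit 0)) (T.h (T.h (P (nat_lit 0)) (T.h (P (nat_lit 18249414076)) (T.h (P (nat_lit 0)) (M (nat_lit 353633834031))))) (T.h (P (nat_lit 0)) (T.h (T.h (P (nat_lit 0)) (P (nat_lit 47383819388))) (P (nat_lit 0))))))) (T.h (T.h (P (nat_lit 0)) (T.h (T.h (M (nat_lit 562508071)) (T.h (P (nat_lit 0)) (P (nat_lit 484221864808)))) (T.h (P (nat_lit 0)) (P (nat_lit 74913674360))))) (T.h (T.h (T.h (P (nat_lit 0)) (T.h (P (nat_lit 7497610068)) (T.h (P (nat_lit 0)) (M (nat_lit 2655035259959))))) (T.h (P (nat_lit 0)) (T.h (T.h (P (nat_lit 0)) (M (nat_lit 1051199821535))) (P (nat_lit 0))))) (T.h (T.h (P (nat_lit 0)) (M (nat_lit 92256890863))) (T.h (T.h (T.h (P (nat_lit 0)) (M (nat_lit 940370716459))) (P (nat_lit 0))) (P (nat_lit 0))))))) (P (nat_lit 0)))))))))))) en00_3) (T.h en00_7 en00_21))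

theorem h_n00 : chkT (c.Nn 0 0) n00 = true := by decide +kernel


end Pool.Agent.TOPR.R6116H
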