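import Pool.Agent.TOPR.R6116H.Cert

set_option autoImplicit false
set_option linter.all false
set_option maxRecDepth 100000

namespace Pool.Agent.TOPR.R6116H

open Helper10.PC hiding V3
open Helper80.CW.DL Pool.Agent.Helper6.TOP

def en02_0 : T ℤ := (T.h (T.h (T.h (T.h (T.h (P (nat_lit 68663720)) (T.h (P (nat_lit 0)) (T.h (M (nat_lit 475670503)) (T.h (P (nat_lit 0)) (T.h (M (nat_lit 63218527379)) (T.h (P (nat_lit 0)) (P (nat_lit 410414443064)))))))) (T.h (P (nat_lit 0)) (T.h (T.h (P (nat_lit 16693856960)) (T.h (P (nat_lit 0)) (T.h (P (nat_lit 233037272164)) (T.h (P (nat_lit 0)) (M (nat_lit 262223563259)))))) (T.h (P (nat_lit 0)) (T.h (T.h (P (nat_lit 565268859200)) (T.h (P (nat_lit 0)) (P (nat_lit 8406377107424)))) (T.h (P (nat_lit 0)) (P (nat_lit 17746939637720)))))))) (T.h (T.h (P (nat_lit 0)) (T.h (T.h (P (nat_lit 0)) (T.h (P (nat_lit 27000436840)) (T.h (P (nat_lit 0)) (M (nat_lit 496766895675)))))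 (T.h (P (nat_lit 0)) (T.h (T.h (P (nat_lit 0)) (M (nat_lit 3595541475391))) (P (nat_lit 0)))))) (T.h (T.h (T.h (M (nat_lit 475670503)) (T.h (P (nat_lit 0)) (T.h (P (nat_lit 31054054608)) (T.h (P (nat_lit 0)) (P (nat_lit 1214205297784)))))) (T.h (P (nat_lit 0)) (T.h (T.h (P (nat_lit 233037272164)) (T.h (P (nat_lit 0)) (P (nat_lit 2132508931800)))) (T.h (P (nat_lit 0)) (P (nat_lit 8406377107424)))))) (T.h (T.h (P (nat_lit 0)) (T.h (T.h (P (nat_lit 0)) (M (nat_lit 496766895675))) (P (nat_lit 0)))) (T.h (T.h (T.h (M (nat_lit 63218527379)) (T.h (P (nat_lit 0)) (P (nat_lit 1214205297784)))) (T.h (P (nat_lit 0)) (M (nat_lit 262223563259)))) (T.h (P (nat_lit 0)) (P (nat_lit 410414443064)))))))) (T.h (P (nat_lit 0)) (T.h (T.h (T.h (T.h (P (nat_lit 88657672)) (T.h (P (nat_lit 0)) (T.h (M (nat_lit 12659511079)) (T.h (P (nat_lit 0)) (M (nat_lit 505244877643)))))) (T.h (P (nat_lit 0)) (T.h (T.h (P (nat_lit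 11433462648)) (T.h (P (nat_lit 0)) (M (nat_lit 3754600786559)))) (T.h (P (nat_lit 0)) (M (nat_lit 2398685872979)))))) (T.h (T.h (P (nat_lit 0)) (T.h (T.h (P (nat_lit 0)) (T.h (M (nat_lit 52211011743)) (T.h (P (nat_lit 0)) (P (nat_lit 4998547222848))))) (T.h (P (nat_lit 0)) (T.h (T.h (P (nat_lit 0)) (M (nat_lit 5481543716247))) (P (nat_lit 0)))))) (T.h (T.h (T.h (P (nat_lit 12995362156)) (T.h (P (nat_lit 0)) (M (nat_lit 358991453975)))) (T.h (P (nat_lit 0)) (M (nat_lit 1418248506203)))) (T.h (T.h (P (nat_lit 0)) (T.h (T.h (P (nat_lit 0)) (M (nat_lit 3310669534679))) (P (nat_lit 0)))) (M (nat_lit 83875651707)))))) (P (nat_lit 0))))) (T.h (T.h (P (nat_lit 0)) (T.h (T.h (T.h (P (nat_lit 0)) (T.h (T.h (P (nat_lit 0)) (T.h (P (nat_lit 11410238172)) (T.h (P (nat_lit 0)) (P (nat_lit 148922256924))))) (T.h (P (nat_lit 0)) (T.h (T.h (P (nat_lit 0)) (P (nat_lit 1675464776420))) (P (nat_lit 0))))))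 (T.h (T.h (T.h (P (nat_lit 474214944)) (T.h (P (nat_lit 0)) (T.h (M (nat_lit 9747089923)) (T.h (P (nat_lit 0)) (M (nat_lit 2521993846199)))))) (T.h (P (nat_lit 0)) (T.h (T.h (P (nat_lit 203565636068)) (T.h (P (nat_lit 0)) (M (nat_lit 388223769807)))) (T.h (P (nat_lit 0)) (M (nat_lit 6645233798711)))))) (T.h (T.h (P (nat_lit 0)) (T.h (T.h (P (nat_lit 0)) (M (nat_lit 940209660223))) (P (nat_lit 0)))) (T.h (T.h (T.h (P (nat_lit 2316395948)) (T.h (P (nat_lit 0)) (M (nat_lit 2333717715607)))) (T.h (P (nat_lit 0)) (M (nat_lit 8152048272691)))) (T.h (P (nat_lit 0)) (M (nat_lit 368242217727))))))) (P (nat_lit 0)))) (T.h (T.h (T.h (T.h (T.h (P (nat_lit 31709456)) (T.h (P (nat_lit 0)) (T.h (M (nat_lit 882304743)) (T.h (P (nat_lit 0)) (M (nat_lit 28667450395)))))) (T.h (P (nat_lit 0)) (T.h (T.h (P (nat_lit 1618332160)) (T.h (P (nat_lit 0)) (P (nat_lit 1013077656248)))) (T.h (P (nat_lit 0)) (M (nat_lit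 1116814295535)))))) (T.h (T.h (P (nat_lit 0)) (T.h (T.h (P (nat_lit 0)) (T.h (P (nat_lit 72997656304)) (T.h (P (nat_lit 0)) (M (nat_lit 511264603471))))) (T.h (P (nat_lit 0)) (T.h (T.h (P (nat_lit 0)) (M (nat_lit 1414535336127))) (P (nat_lit 0)))))) (T.h (T.h (T.h (M (nat_lit 882304743)) (T.h (P (nat_lit 0)) (P (nat_lit 224741023080)))) (T.h (P (nat_lit 0)) (P (nat_lit 1013077656248)))) (T.h (T.h (P (nat_lit 0)) (T.h (T.h (P (nat_lit 0)) (M (nat_lit 511264603471))) (P (nat_lit 0)))) (M (nat_lit 28667450395)))))) (P (nat_lit 0))) (P (nat_lit 0)))))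
def en02_1 : T ℤ := (T.h (T.h (P (nat_lit 0)) (T.h (P (nat_lit 0)) (T.h (T.h (T.h (T.h (P (nat_lit 125575836)) (T.h (P (nat_lit 0)) (T.h (M (nat_lit 728300927)) (T.h (P (nat_lit 0)) (T.h (M (nat_lit 410889166271)) (T.h (P (nat_lit 0)) (P (nat_lit 6026373572860)))))))) (T.h (P (nat_lit 0)) (T.h (T.h (M (nat_lit 25991415767)) (T.h (P (nat_lit 0)) (T.h (M (nat_lit 710344716491)) (T.h (P (nat_lit 0)) (M (nat_lit 17066106392663)))))) (T.h (P (nat_lit 0)) (T.h (T.h (M (nat_lit 906363040347)) (T.h (P (nat_lit 0)) (M (nat_lit 101259184603323)))) (T.h (P (nat_lit 0)) (P (nat_lit 27481680860480)))))))) (T.h (T.h (P (nat_lit 0)) (T.h (T.h (P (nat_lit 0)) (T.h (M (nat_lit 123838337119)) (T.h (P (nat_lit 0)) (M (nat_lit 2069041634507))))) (T.h (P (nat_lit 0)) (T.h (T.h (P (nat_lit 0)) (P (nat_lit 7320411115420))) (P (nat_lit 0)))))) (T.h (T.h (T.h (M (nat_lit 4111412095)) (T.h (P (nat_lit 0)) (T.h (M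 (nat_lit 154265696243)) (T.h (P (nat_lit 0)) (P (nat_lit 5266659599716)))))) (T.h (P (nat_lit 0)) (T.h (T.h (P (nat_lit 296093657084)) (T.h (P (nat_lit 0)) (P (nat_lit 3031658354100)))) (T.h (P (nat_lit 0)) (M (nat_lit 26951136648015)))))) (T.h (T.h (P (nat_lit 0)) (T.h (T.h (P (nat_lit 0)) (M (nat_lit 748450197939))) (P (nat_lit 0)))) (T.h (T.h (T.h (P (nat_lit 54126349840)) (T.h (P (nat_lit 0)) (M (nat_lit 5933649017443)))) (T.h (P (nat_lit 0)) (P (nat_lit 11433843248352)))) (T.h (P (nat_lit 0)) (M (nat_lit 1898305670915)))))))) (T.h (P (nat_lit 0)) (T.h (T.h (T.h (T.h (M (nat_lit 643512459)) (T.h (P (nat_lit 0)) (T.h (M (nat_lit 33828324491)) (T.h (P (nat_lit 0)) (M (nat_lit 5621276767187)))))) (T.h (P (nat_lit 0)) (T.h (T.h (P (nat_lit 53573977792)) (T.h (P (nat_lit 0)) (M (nat_lit 8603682436039)))) (T.h (P (nat_lit 0)) (M (nat_lit 3513052941023)))))) (T.h (T.h (P (nat_lit 0)) (T.h (T.h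 (P (nat_lit 0)) (T.h (P (nat_lit 2279040877576)) (T.h (P (nat_lit 0)) (M (nat_lit 26865053035023))))) (T.h (P (nat_lit 0)) (T.h (T.h (P (nat_lit 0)) (P (nat_lit 45778100306008))) (P (nat_lit 0)))))) (T.h (T.h (T.h (M (nat_lit 22951263923)) (T.h (P (nat_lit 0)) (P (nat_lit 4403691358716)))) (T.h (P (nat_lit 0)) (P (nat_lit 5390614528744)))) (T.h (T.h (P (nat_lit 0)) (T.h (T.h (P (nat_lit 0)) (M (nat_lit 41672976620503))) (P (nat_lit 0)))) (M (nat_lit 529970276263)))))) (P (nat_lit 0))))))) (T.h (T.h (P (nat_lit 0)) (T.h (T.h (T.h (P (nat_lit 0)) (T.h (T.h (P (nat_lit 0)) (T.h (P (nat_lit 24531144772)) (T.h (P (nat_lit 0)) (T.h (P (nat_lit 321835567236)) (T.h (P (nat_lit 0)) (P (nat_lit 5343588704208))))))) (T.h (P (nat_lit 0)) (T.h (T.h (P (nat_lit 0)) (T.h (P (nat_lit 11393730192)) (T.h (P (nat_lit 0)) (M (nat_lit 15681164847163))))) (T.h (P (nat_lit 0)) (T.h (T.h (P (nat_lit 0)) (P (nat_lit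 49527619261108))) (P (nat_lit 0)))))))) (T.h (T.h (T.h (M (nat_lit 1651276603)) (T.h (P (nat_lit 0)) (T.h (P (nat_lit 31181135276)) (T.h (P (nat_lit 0)) (M (nat_lit 415416054695)))))) (T.h (P (nat_lit 0)) (T.h (T.h (M (nat_lit 51702001867)) (T.h (P (nat_lit 0)) (P (nat_lit 1870215749868)))) (T.h (P (nat_lit 0)) (M (nat_lit 2266707225311)))))) (T.h (T.h (P (nat_lit 0)) (T.h (T.h (P (nat_lit 0)) (T.h (M (nat_lit 329488845583)) (T.h (P (nat_lit 0)) (P (nat_lit 8868875343908))))) (T.h (P (nat_lit 0)) (T.h (T.h (P (nat_lit 0)) (M (nat_lit 35129575459335))) (P (nat_lit 0)))))) (T.h (T.h (T.h (M (nat_lit 2820471227)) (T.h (P (nat_lit 0)) (P (nat_lit 275015384240)))) (T.h (P (nat_lit 0)) (P (nat_lit 985720722140)))) (T.h (T.h (P (nat_lit 0)) (T.h (T.h (P (nat_lit 0)) (P (nat_lit 577544235684))) (P (nat_lit 0)))) (P (nat_lit 315676667368))))))) (T.h (P (nat_lit 0)) (T.h (T.h (T.h (P (nat_lit 0))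 (T.h (T.h (P (nat_lit 0)) (T.h (P (nat_lit 532142240)) (T.h (P (nat_lit 0)) (P (nat_lit 2339973241380))))) (T.h (P (nat_lit 0)) (T.h (T.h (P (nat_lit 0)) (M (nat_lit 6239675441543))) (P (nat_lit 0)))))) (T.h (T.h (T.h (P (nat_lit 3534205084)) (T.h (P (nat_lit 0)) (T.h (M (nat_lit 186108073099)) (T.h (P (nat_lit 0)) (P (nat_lit 4542091260660)))))) (T.h (P (nat_lit 0)) (T.h (T.h (M (nat_lit 246922459295)) (T.h (P (nat_lit 0)) (P (nat_lit 4506837503900)))) (T.h (P (nat_lit 0)) (P (nat_lit 57203948105904)))))) (T.h (T.h (P (nat_lit 0)) (T.h (T.h (P (nat_lit 0)) (M (nat_lit 296312184443))) (P (nat_lit 0)))) (T.h (T.h (T.h (P (nat_lit 5836207288)) (T.h (P (nat_lit 0)) (P (nat_lit 14072861859188)))) (T.h (P (nat_lit 0)) (P (nat_lit 5082990774796)))) (T.h (P (nat_lit 0)) (P (nat_lit 2895343938004))))))) (P (nat_lit 0)))))) en02_0))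
def en02_2 : T ℤ := (T.h (T.h (P (nat_lit 0)) (T.h (P (nat_lit 0)) (T.h (P (nat_lit 0)) (T.h (P (nat_lit 0)) (T.h (T.h (T.h (T.h (P (nat_lit 120474412)) (T.h (P (nat_lit 0)) (T.h (M (nat_lit 37615410167)) (T.h (P (nat_lit 0)) (T.h (M (nat_lit 2018685661727)) (T.h (P (nat_lit 0)) (P (nat_lit 42188150135176)))))))) (T.h (P (nat_lit 0)) (T.h (T.h (P (nat_lit 18542148788)) (T.h (P (nat_lit 0)) (T.h (M (nat_lit 538381222819)) (T.h (P (nat_lit 0)) (M (nat_lit 145950444094087)))))) (T.h (P (nat_lit 0)) (T.h (T.h (M (nat_lit 798768447563)) (T.h (P (nat_lit 0)) (M (nat_lit 125015628627343)))) (T.h (P (nat_lit 0)) (P (nat_lit 18797210057876)))))))) (T.h (T.h (P (nat_lit 0)) (T.h (T.h (P (nat_lit 0)) (T.h (P (nat_lit 11168423828)) (T.h (P (nat_lit 0)) (P (nat_lit 6225782836472))))) (T.h (P (nat_lit 0)) (T.h (T.h (P (nat_lit 0)) (M (nat_lit 3242870743519))) (P (nat_lit 0)))))) (T.h (T.h (T.h (P (nat_lit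 2124659812)) (T.h (P (nat_lit 0)) (T.h (P (nat_lit 1599055212596)) (T.h (P (nat_lit 0)) (M (nat_lit 59564027722879)))))) (T.h (P (nat_lit 0)) (T.h (T.h (M (nat_lit 531821343491)) (T.h (P (nat_lit 0)) (M (nat_lit 14791349351771)))) (T.h (P (nat_lit 0)) (P (nat_lit 13894230606704)))))) (T.h (T.h (P (nat_lit 0)) (T.h (T.h (P (nat_lit 0)) (P (nat_lit 889151040076))) (P (nat_lit 0)))) (T.h (T.h (T.h (M (nat_lit 34348601055)) (T.h (P (nat_lit 0)) (M (nat_lit 27057262058531)))) (T.h (P (nat_lit 0)) (M (nat_lit 8370238053499)))) (T.h (P (nat_lit 0)) (P (nat_lit 767332666544)))))))) (T.h (P (nat_lit 0)) (T.h (T.h (T.h (T.h (P (nat_lit 1098110332)) (T.h (P (nat_lit 0)) (T.h (M (nat_lit 18166800223)) (T.h (P (nat_lit 0)) (P (nat_lit 21549719256152)))))) (T.h (P (nat_lit 0)) (T.h (T.h (M (nat_lit 24122255951)) (T.h (P (nat_lit 0)) (M (nat_lit 7854767978739)))) (T.h (P (nat_lit 0)) (P (nat_lit 497365684532))))))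 (T.h (T.h (P (nat_lit 0)) (T.h (T.h (P (nat_lit 0)) (T.h (M (nat_lit 1081459195607)) (T.h (P (nat_lit 0)) (P (nat_lit 265072572958904))))) (T.h (P (nat_lit 0)) (T.h (T.h (P (nat_lit 0)) (M (nat_lit 633245747439))) (P (nat_lit 0)))))) (T.h (T.h (T.h (M (nat_lit 23738483203)) (T.h (P (nat_lit 0)) (M (nat_lit 6059195227067)))) (T.h (P (nat_lit 0)) (P (nat_lit 57304646136)))) (T.h (T.h (P (nat_lit 0)) (T.h (T.h (P (nat_lit 0)) (M (nat_lit 7313974467223))) (P (nat_lit 0)))) (P (nat_lit 55537155988)))))) (P (nat_lit 0))))))))) (T.h (T.h (P (nat_lit 0)) (T.h (P (nat_lit 0)) (T.h (P (nat_lit 0)) (T.h (T.h (T.h (P (nat_lit 0)) (T.h (T.h (P (nat_lit 0)) (T.h (P (nat_lit 14970244976)) (T.h (P (nat_lit 0)) (T.h (P (nat_lit 1208137701624)) (T.h (P (nat_lit 0)) (M (nat_lit 44212389940679))))))) (T.h (P (nat_lit 0)) (T.h (T.h (P (nat_lit 0)) (T.h (P (nat_lit 2521881038176)) (T.h (P (nat_lit 0)) (P (nat_lit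 211383701307384))))) (T.h (P (nat_lit 0)) (T.h (T.h (P (nat_lit 0)) (M (nat_lit 65304520651051))) (P (nat_lit 0)))))))) (T.h (T.h (T.h (P (nat_lit 452457684)) (T.h (P (nat_lit 0)) (T.h (M (nat_lit 103925089843)) (T.h (P (nat_lit 0)) (M (nat_lit 2584065847719)))))) (T.h (P (nat_lit 0)) (T.h (T.h (M (nat_lit 154705991979)) (T.h (P (nat_lit 0)) (M (nat_lit 22749545138435)))) (T.h (P (nat_lit 0)) (M (nat_lit 4408478895715)))))) (T.h (T.h (P (nat_lit 0)) (T.h (T.h (P (nat_lit 0)) (T.h (M (nat_lit 2224776105275)) (T.h (P (nat_lit 0)) (M (nat_lit 9653880344835))))) (T.h (P (nat_lit 0)) (T.h (T.h (P (nat_lit 0)) (M (nat_lit 49022826667759))) (P (nat_lit 0)))))) (T.h (T.h (T.h (M (nat_lit 120361015067)) (T.h (P (nat_lit 0)) (P (nat_lit 34833219188)))) (T.h (P (nat_lit 0)) (M (nat_lit 2116050638011)))) (T.h (T.h (P (nat_lit 0)) (T.h (T.h (P (nat_lit 0)) (P (nat_lit 64156289015680))) (P (nat_lit 0))))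 (P (nat_lit 684449343976))))))) (T.h (P (nat_lit 0)) (T.h (T.h (T.h (P (nat_lit 0)) (T.h (T.h (P (nat_lit 0)) (T.h (M (nat_lit 215643071519)) (T.h (P (nat_lit 0)) (M (nat_lit 19044235048075))))) (T.h (P (nat_lit 0)) (T.h (T.h (P (nat_lit 0)) (M (nat_lit 5761264082859))) (P (nat_lit 0)))))) (T.h (T.h (T.h (M (nat_lit 12637809087)) (T.h (P (nat_lit 0)) (T.h (M (nat_lit 665916466427)) (T.h (P (nat_lit 0)) (P (nat_lit 16533164305776)))))) (T.h (P (nat_lit 0)) (T.h (T.h (P (nat_lit 1006114656748)) (T.h (P (nat_lit 0)) (M (nat_lit 19191745436711)))) (T.h (P (nat_lit 0)) (P (nat_lit 1409025614100)))))) (T.h (T.h (P (nat_lit 0)) (T.h (T.h (P (nat_lit 0)) (P (nat_lit 18063741031412))) (P (nat_lit 0)))) (T.h (T.h (T.h (P (nat_lit 175760738992)) (T.h (P (nat_lit 0)) (M (nat_lit 13897364486771)))) (T.h (P (nat_lit 0)) (M (nat_lit 16598514239939)))) (T.h (P (nat_lit 0)) (M (nat_lit 4921555229035)))))))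 (P (nat_lit 0)))))))) en02_1))
def en02_3 : T ℤ := (T.h (T.h (P (nat_lit 0)) (T.h (P (nat_lit 0)) (T.h (P (nat_lit 0)) (T.h (P (nat_lit 0)) (T.h (P (nat_lit 0)) (T.h (P (nat_lit 0)) (T.h (T.h (T.h (T.h (P (nat_lit 144638620)) (T.h (P (nat_lit 0)) (T.h (P (nat_lit 63900426648)) (T.h (P (nat_lit 0)) (T.h (P (nat_lit 1647164224904)) (T.h (P (nat_lit 0)) (P (nat_lit 60610872340220)))))))) (T.h (P (nat_lit 0)) (T.h (T.h (P (nat_lit 2037192352)) (T.h (P (nat_lit 0)) (T.h (P (nat_lit 1616221130920)) (T.h (P (nat_lit 0)) (M (nat_lit 131776305118275)))))) (T.h (P (nat_lit 0)) (T.h (T.h (M (nat_lit 463445082791)) (T.h (P (nat_lit 0)) (M (nat_lit 27457629760775)))) (T.h (P (nat_lit 0)) (P (nat_lit 4819099166272)))))))) (T.h (T.h (P (nat_lit 0)) (T.h (T.h (P (nat_lit 0)) (T.h (P (nat_lit 90957439516)) (T.h (P (nat_lit 0)) (M (nat_lit 17192729917807))))) (T.h (P (nat_lit 0)) (T.h (T.h (P (nat_lit 0))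 (M (nat_lit 3568987342079))) (P (nat_lit 0)))))) (T.h (T.h (T.h (P (nat_lit 2282677368)) (T.h (P (nat_lit 0)) (T.h (P (nat_lit 210250810116)) (T.h (P (nat_lit 0)) (P (nat_lit 170655628631404)))))) (T.h (P (nat_lit 0)) (T.h (T.h (P (nat_lit 100635033928)) (T.h (P (nat_lit 0)) (P (nat_lit 17213621097580)))) (T.h (P (nat_lit 0)) (P (nat_lit 5228209512688)))))) (T.h (T.h (P (nat_lit 0)) (T.h (T.h (P (nat_lit 0)) (P (nat_lit 576240162212))) (P (nat_lit 0)))) (T.h (T.h (T.h (M (nat_lit 18217305307)) (T.h (P (nat_lit 0)) (P (nat_lit 15211633480332)))) (T.h (P (nat_lit 0)) (P (nat_lit 6985975518264)))) (T.h (P (nat_lit 0)) (P (nat_lit 1431203408032)))))))) (T.h (P (nat_lit 0)) (T.h (T.h (T.h (T.h (M (nat_lit 148892691)) (T.h (P (nat_lit 0)) (T.h (P (nat_lit 34129908436)) (T.h (P (nat_lit 0)) (M (nat_lit 4304849521123)))))) (T.h (P (nat_lit 0)) (T.h (T.h (P (nat_lit 5350760708)) (T.h (P (nat_lit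 0)) (P (nat_lit 1930295361416)))) (T.h (P (nat_lit 0)) (M (nat_lit 121415819627)))))) (T.h (T.h (P (nat_lit 0)) (T.h (T.h (P (nat_lit 0)) (T.h (P (nat_lit 211543475184)) (T.h (P (nat_lit 0)) (M (nat_lit 46054260471335))))) (T.h (P (nat_lit 0)) (T.h (T.h (P (nat_lit 0)) (M (nat_lit 1233515066839))) (P (nat_lit 0)))))) (T.h (T.h (T.h (M (nat_lit 2850866691)) (T.h (P (nat_lit 0)) (P (nat_lit 177944797668)))) (T.h (P (nat_lit 0)) (M (nat_lit 134735572035)))) (T.h (T.h (P (nat_lit 0)) (T.h (T.h (P (nat_lit 0)) (M (nat_lit 2373776552503))) (P (nat_lit 0)))) (P (nat_lit 26900256)))))) (P (nat_lit 0))))))))))) (T.h (T.h (P (nat_lit 0)) (T.h (P (nat_lit 0)) (T.h (P (nat_lit 0)) (T.h (P (nat_lit 0)) (T.h (P (nat_lit 0)) (T.h (T.h (T.h (P (nat_lit 0)) (T.h (T.h (P (nat_lit 0)) (T.h (P (nat_lit 59370004224)) (T.h (P (nat_lit 0)) (T.h (M (nat_lit 472963950723)) (T.h (P (nat_lit 0)) (P (nat_lit 39953940921396)))))))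 (T.h (P (nat_lit 0)) (T.h (T.h (P (nat_lit 0)) (T.h (P (nat_lit 997336391000)) (T.h (P (nat_lit 0)) (M (nat_lit 10398227895799))))) (T.h (P (nat_lit 0)) (T.h (T.h (P (nat_lit 0)) (P (nat_lit 19374796869996))) (P (nat_lit 0)))))))) (T.h (T.h (T.h (M (nat_lit 5818779687)) (T.h (P (nat_lit 0)) (T.h (P (nat_lit 101834321512)) (T.h (P (nat_lit 0)) (P (nat_lit 329125048324)))))) (T.h (P (nat_lit 0)) (T.h (T.h (P (nat_lit 136752197976)) (T.h (P (nat_lit 0)) (P (nat_lit 4689473092436)))) (T.h (P (nat_lit 0)) (M (nat_lit 1965295977335)))))) (T.h (T.h (P (nat_lit 0)) (T.h (T.h (P (nat_lit 0)) (T.h (M (nat_lit 113423349831)) (T.h (P (nat_lit 0)) (M (nat_lit 107103998288495))))) (T.h (P (nat_lit 0)) (T.h (T.h (P (nat_lit 0)) (P (nat_lit 18837469325696))) (P (nat_lit 0)))))) (T.h (T.h (T.h (P (nat_lit 111918529976)) (T.h (P (nat_lit 0)) (P (nat_lit 2791495970168)))) (T.h (P (nat_lit 0)) (M (nat_lit 544651002403))))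 (T.h (T.h (P (nat_lit 0)) (T.h (T.h (P (nat_lit 0)) (M (nat_lit 11748053017755))) (P (nat_lit 0)))) (M (nat_lit 746165303367))))))) (T.h (P (nat_lit 0)) (T.h (T.h (T.h (P (nat_lit 0)) (T.h (T.h (P (nat_lit 0)) (T.h (P (nat_lit 58639829144)) (T.h (P (nat_lit 0)) (M (nat_lit 7094064442227))))) (T.h (P (nat_lit 0)) (T.h (T.h (P (nat_lit 0)) (M (nat_lit 2321350050427))) (P (nat_lit 0)))))) (T.h (T.h (T.h (P (nat_lit 789667528)) (T.h (P (nat_lit 0)) (T.h (P (nat_lit 1828361781608)) (T.h (P (nat_lit 0)) (M (nat_lit 58551855740967)))))) (T.h (P (nat_lit 0)) (T.h (T.h (M (nat_lit 36360786943)) (T.h (P (nat_lit 0)) (M (nat_lit 300985482823)))) (T.h (P (nat_lit 0)) (M (nat_lit 595005145707)))))) (T.h (T.h (P (nat_lit 0)) (T.h (T.h (P (nat_lit 0)) (M (nat_lit 402777737231))) (P (nat_lit 0)))) (T.h (T.h (T.h (M (nat_lit 51103897883)) (T.h (P (nat_lit 0)) (P (nat_lit 12102135948632)))) (T.h (P (nat_lit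 0)) (M (nat_lit 3012477800579)))) (T.h (P (nat_lit 0)) (P (nat_lit 1392194097780))))))) (P (nat_lit 0)))))))))) en02_2))
def en02_4 : T ℤ := (T.h (T.h (T.h (T.h (T.h (P (nat_lit 0)) (T.h (M (nat_lit 1651276603)) (T.h (P (nat_lit 0)) (T.h (M (nat_lit 2820471227)) (T.h (P (nat_lit 0)) (P (nat_lit 315676667368))))))) (T.h (P (nat_lit 0)) (T.h (T.h (P (nat_lit 0)) (T.h (M (nat_lit 51702001867)) (T.h (P (nat_lit 0)) (P (nat_lit 985720722140))))) (T.h (P (nat_lit 0)) (T.h (T.h (P (nat_lit 0)) (M (nat_lit 2266707225311))) (P (nat_lit 0))))))) (T.h (T.h (P (nat_lit 0)) (T.h (T.h (P (nat_lit 24531144772)) (T.h (P (nat_lit 0)) (T.h (M (nat_lit 329488845583)) (T.h (P (nat_lit 0)) (P (nat_lit 577544235684)))))) (T.h (P (nat_lit 0)) (T.h (T.h (P (nat_lit 11393730192)) (T.h (P (nat_lit 0)) (M (nat_lit 35129575459335)))) (T.h (P (nat_lit 0)) (P (nat_lit 49527619261108))))))) (T.h (T.h (T.h (P (nat_lit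 0)) (T.h (P (nat_lit 31181135276)) (T.h (P (nat_lit 0)) (P (nat_lit 275015384240))))) (T.h (P (nat_lit 0)) (T.h (T.h (P (nat_lit 0)) (P (nat_lit 1870215749868))) (P (nat_lit 0))))) (T.h (T.h (P (nat_lit 0)) (T.h (T.h (P (nat_lit 321835567236)) (T.h (P (nat_lit 0)) (P (nat_lit 8868875343908)))) (T.h (P (nat_lit 0)) (M (nat_lit 15681164847163))))) (T.h (T.h (T.h (P (nat_lit 0)) (M (nat_lit 415416054695))) (P (nat_lit 0))) (T.h (T.h (P (nat_lit 0)) (P (nat_lit 5343588704208))) (P (nat_lit 0)))))))) (T.h (P (nat_lit 0)) (T.h (T.h (T.h (T.h (P (nat_lit 0)) (T.h (M (nat_lit 477418867)) (T.h (P (nat_lit 0)) (T.h (M (nat_lit 194762767571)) (T.h (P (nat_lit 0)) (P (nat_lit 8753184512824))))))) (T.h (P (nat_lit 0)) (T.h (T.h (P (nat_lit 0)) (T.h (P (nat_lit 368197821684)) (T.h (P (nat_lit 0)) (M (nat_lit 17766040305891))))) (T.h (P (nat_lit 0)) (T.h (T.h (P (nat_lit 0)) (P (nat_lit 40115539603952)))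 (P (nat_lit 0))))))) (T.h (T.h (P (nat_lit 0)) (T.h (T.h (P (nat_lit 62377257900)) (T.h (P (nat_lit 0)) (P (nat_lit 1301981791320)))) (T.h (P (nat_lit 0)) (P (nat_lit 1154849579952))))) (T.h (T.h (T.h (P (nat_lit 0)) (T.h (P (nat_lit 126582279816)) (T.h (P (nat_lit 0)) (P (nat_lit 8194472374348))))) (T.h (P (nat_lit 0)) (T.h (T.h (P (nat_lit 0)) (P (nat_lit 8395784701972))) (P (nat_lit 0))))) (T.h (T.h (P (nat_lit 0)) (M (nat_lit 650932806955))) (T.h (T.h (T.h (P (nat_lit 0)) (M (nat_lit 3392951145823))) (P (nat_lit 0))) (P (nat_lit 0))))))) (P (nat_lit 0))))) (T.h (T.h (P (nat_lit 0)) (T.h (T.h (T.h (P (nat_lit 0)) (T.h (T.h (P (nat_lit 5303874528)) (T.h (P (nat_lit 0)) (T.h (M (nat_lit 105370168583)) (T.h (P (nat_lit 0)) (P (nat_lit 1198836657432)))))) (T.h (P (nat_lit 0)) (T.h (T.h (M (nat_lit 59792211415)) (T.h (P (nat_lit 0)) (M (nat_lit 2715841001167)))) (T.h (P (nat_lit 0)) (P (nat_lit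 17161948174280))))))) (T.h (T.h (T.h (P (nat_lit 0)) (T.h (P (nat_lit 32730452176)) (T.h (P (nat_lit 0)) (P (nat_lit 506189151816))))) (T.h (P (nat_lit 0)) (T.h (T.h (P (nat_lit 0)) (P (nat_lit 477433188864))) (P (nat_lit 0))))) (T.h (T.h (P (nat_lit 0)) (T.h (T.h (M (nat_lit 105370168583)) (T.h (P (nat_lit 0)) (M (nat_lit 5831758367999)))) (T.h (P (nat_lit 0)) (M (nat_lit 2715841001167))))) (T.h (T.h (T.h (P (nat_lit 0)) (P (nat_lit 506189151816))) (P (nat_lit 0))) (T.h (T.h (P (nat_lit 0)) (P (nat_lit 1198836657432))) (P (nat_lit 0))))))) (P (nat_lit 0)))) (T.h (T.h (T.h (T.h (T.h (P (nat_lit 0)) (T.h (P (nat_lit 474214944)) (T.h (P (nat_lit 0)) (T.h (P (nat_lit 2316395948)) (T.h (P (nat_lit 0)) (M (nat_lit 368242217727))))))) (T.h (P (nat_lit 0)) (T.h (T.h (P (nat_lit 0)) (T.h (P (nat_lit 203565636068)) (T.h (P (nat_lit 0)) (M (nat_lit 8152048272691))))) (T.h (P (nat_lit 0)) (T.h (T.h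 (P (nat_lit 0)) (M (nat_lit 6645233798711))) (P (nat_lit 0))))))) (T.h (T.h (P (nat_lit 0)) (T.h (T.h (P (nat_lit 11410238172)) (T.h (P (nat_lit 0)) (M (nat_lit 940209660223)))) (T.h (P (nat_lit 0)) (P (nat_lit 1675464776420))))) (T.h (T.h (T.h (P (nat_lit 0)) (T.h (M (nat_lit 9747089923)) (T.h (P (nat_lit 0)) (M (nat_lit 2333717715607))))) (T.h (P (nat_lit 0)) (T.h (T.h (P (nat_lit 0)) (M (nat_lit 388223769807))) (P (nat_lit 0))))) (T.h (T.h (P (nat_lit 0)) (P (nat_lit 148922256924))) (T.h (T.h (T.h (P (nat_lit 0)) (M (nat_lit 2521993846199))) (P (nat_lit 0))) (P (nat_lit 0))))))) (P (nat_lit 0))) (P (nat_lit 0)))))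
def en02_5 : T ℤ := (T.h (T.h (P (nat_lit 0)) (T.h (P (nat_lit 0)) (T.h (T.h (T.h (T.h (P (nat_lit 0)) (T.h (P (nat_lit 877771316)) (T.h (P (nat_lit 0)) (T.h (M (nat_lit 260119310431)) (T.h (P (nat_lit 0)) (P (nat_lit 6498348226448))))))) (T.h (P (nat_lit 0)) (T.h (T.h (P (nat_lit 0)) (T.h (P (nat_lit 230176153592)) (T.h (P (nat_lit 0)) (M (nat_lit 9993412789479))))) (T.h (P (nat_lit 0)) (T.h (T.h (P (nat_lit 0)) (P (nat_lit 1835253517312))) (P (nat_lit 0))))))) (T.h (T.h (P (nat_lit 0)) (T.h (T.h (M (nat_lit 31864758247)) (T.h (P (nat_lit 0)) (T.h (M (nat_lit 3995148109255)) (T.h (P (nat_lit 0)) (M (nat_lit 43688234041991)))))) (T.h (P (nat_lit 0)) (T.h (T.h (P (nat_lit 1925055173880)) (T.h (P (nat_lit 0)) (P (nat_lit 91821480927076)))) (T.h (P (nat_lit 0)) (P (nat_lit 76944049010572))))))) (T.h (T.h (T.h (P (nat_lit 0)) (T.h (M (nat_lit 287377018063)) (T.h (P (nat_lit 0)) (P (nat_lit 5497782662984)))))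 (T.h (P (nat_lit 0)) (T.h (T.h (P (nat_lit 0)) (M (nat_lit 35748590751019))) (P (nat_lit 0))))) (T.h (T.h (P (nat_lit 0)) (T.h (T.h (P (nat_lit 379107010304)) (T.h (P (nat_lit 0)) (P (nat_lit 46370741789888)))) (T.h (P (nat_lit 0)) (M (nat_lit 19341947103347))))) (T.h (T.h (T.h (P (nat_lit 0)) (P (nat_lit 601953002516))) (P (nat_lit 0))) (T.h (T.h (P (nat_lit 0)) (P (nat_lit 21882632475824))) (P (nat_lit 0)))))))) (T.h (P (nat_lit 0)) (T.h (T.h (T.h (T.h (P (nat_lit 0)) (T.h (M (nat_lit 1910026747)) (T.h (P (nat_lit 0)) (T.h (P (nat_lit 72003207956)) (T.h (P (nat_lit 0)) (M (nat_lit 38781544521123))))))) (T.h (P (nat_lit 0)) (T.h (T.h (P (nat_lit 0)) (T.h (M (nat_lit 3065549179)) (T.h (P (nat_lit 0)) (M (nat_lit 81725832907843))))) (T.h (P (nat_lit 0)) (T.h (T.h (P (nat_lit 0)) (M (nat_lit 29050427444987))) (P (nat_lit 0))))))) (T.h (T.h (P (nat_lit 0)) (T.h (T.h (P (nat_lit 167542145144))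 (T.h (P (nat_lit 0)) (P (nat_lit 6628744492168)))) (T.h (P (nat_lit 0)) (P (nat_lit 319584426704))))) (T.h (T.h (T.h (P (nat_lit 0)) (T.h (M (nat_lit 8100156943)) (T.h (P (nat_lit 0)) (M (nat_lit 37524582950575))))) (T.h (P (nat_lit 0)) (T.h (T.h (P (nat_lit 0)) (P (nat_lit 45478657442788))) (P (nat_lit 0))))) (T.h (T.h (P (nat_lit 0)) (M (nat_lit 805491890143))) (T.h (T.h (T.h (P (nat_lit 0)) (P (nat_lit 4405503876552))) (P (nat_lit 0))) (P (nat_lit 0))))))) (P (nat_lit 0))))))) (T.h (T.h (P (nat_lit 0)) (T.h (T.h (T.h (P (nat_lit 0)) (T.h (T.h (P (nat_lit 9219520832)) (T.h (P (nat_lit 0)) (T.h (P (nat_lit 120811391616)) (T.h (P (nat_lit 0)) (M (nat_lit 889646219415)))))) (T.h (P (nat_lit 0)) (T.h (T.h (P (nat_lit 709661997264)) (T.h (P (nat_lit 0)) (M (nat_lit 9132703425247)))) (T.h (P (nat_lit 0)) (P (nat_lit 171674507344))))))) (T.h (T.h (T.h (P (nat_lit 0)) (T.h (P (nat_lit 1130161376))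 (T.h (P (nat_lit 0)) (T.h (M (nat_lit 199846086647)) (T.h (P (nat_lit 0)) (M (nat_lit 5308446245327))))))) (T.h (P (nat_lit 0)) (T.h (T.h (P (nat_lit 0)) (T.h (M (nat_lit 499882821903)) (T.h (P (nat_lit 0)) (M (nat_lit 33463149563455))))) (T.h (P (nat_lit 0)) (T.h (T.h (P (nat_lit 0)) (P (nat_lit 46938499106576))) (P (nat_lit 0))))))) (T.h (T.h (P (nat_lit 0)) (T.h (T.h (P (nat_lit 120811391616)) (T.h (P (nat_lit 0)) (M (nat_lit 1065475057487)))) (T.h (P (nat_lit 0)) (M (nat_lit 9132703425247))))) (T.h (T.h (T.h (P (nat_lit 0)) (T.h (M (nat_lit 199846086647)) (T.h (P (nat_lit 0)) (M (nat_lit 7679015832319))))) (T.h (P (nat_lit 0)) (T.h (T.h (P (nat_lit 0)) (M (nat_lit 33463149563455))) (P (nat_lit 0))))) (T.h (T.h (P (nat_lit 0)) (M (nat_lit 889646219415))) (T.h (T.h (T.h (P (nat_lit 0)) (M (nat_lit 5308446245327))) (P (nat_lit 0))) (P (nat_lit 0)))))))) (T.h (P (nat_lit 0)) (T.h (T.h (T.h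 (P (nat_lit 0)) (T.h (T.h (P (nat_lit 7798573424)) (T.h (P (nat_lit 0)) (T.h (M (nat_lit 49093934967)) (T.h (P (nat_lit 0)) (M (nat_lit 14271422615803)))))) (T.h (P (nat_lit 0)) (T.h (T.h (M (nat_lit 645859134015)) (T.h (P (nat_lit 0)) (P (nat_lit 25557228420188)))) (T.h (P (nat_lit 0)) (P (nat_lit 17339001634180))))))) (T.h (T.h (T.h (P (nat_lit 0)) (T.h (P (nat_lit 20568685832)) (T.h (P (nat_lit 0)) (P (nat_lit 948491366120))))) (T.h (P (nat_lit 0)) (T.h (T.h (P (nat_lit 0)) (P (nat_lit 1447821515768))) (P (nat_lit 0))))) (T.h (T.h (P (nat_lit 0)) (T.h (T.h (M (nat_lit 62277445899)) (T.h (P (nat_lit 0)) (P (nat_lit 56471199994020)))) (T.h (P (nat_lit 0)) (M (nat_lit 17360572887903))))) (T.h (T.h (T.h (P (nat_lit 0)) (M (nat_lit 414837016959))) (P (nat_lit 0))) (T.h (T.h (P (nat_lit 0)) (P (nat_lit 2361109549560))) (P (nat_lit 0))))))) (P (nat_lit 0)))))) en02_4))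
def en02_6 : T ℤ := (T.h (T.h (P (nat_lit 0)) (T.h (P (nat_lit 0)) (T.h (P (nat_lit 0)) (T.h (P (nat_lit 0)) (T.h (T.h (T.h (T.h (P (nat_lit 0)) (T.h (P (nat_lit 6857446672)) (T.h (P (nat_lit 0)) (T.h (P (nat_lit 888821385796)) (T.h (P (nat_lit 0)) (P (nat_lit 957150188404))))))) (T.h (P (nat_lit 0)) (T.h (T.h (P (nat_lit 0)) (T.h (P (nat_lit 1119535848)) (T.h (P (nat_lit 0)) (M (nat_lit 7738713671355))))) (T.h (P (nat_lit 0)) (T.h (T.h (P (nat_lit 0)) (P (nat_lit 3846040127248))) (P (nat_lit 0))))))) (T.h (T.h (P (nat_lit 0)) (T.h (T.h (P (nat_lit 30048288424)) (T.h (P (nat_lit 0)) (T.h (P (nat_lit 1329385345020)) (T.h (P (nat_lit 0)) (P (nat_lit 82967783483940)))))) (T.h (P (nat_lit 0)) (T.h (T.h (M (nat_lit 791455199671)) (T.h (P (nat_lit 0)) (M (nat_lit 98179565976979)))) (T.h (P (nat_lit 0)) (P (nat_lit 16163135712548))))))) (T.h (T.h (T.h (P (nat_lit 0)) (T.h (P (nat_lit 350840960728))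 (T.h (P (nat_lit 0)) (M (nat_lit 10089133537795))))) (T.h (P (nat_lit 0)) (T.h (T.h (P (nat_lit 0)) (M (nat_lit 5787987478995))) (P (nat_lit 0))))) (T.h (T.h (P (nat_lit 0)) (T.h (T.h (M (nat_lit 157625186211)) (T.h (P (nat_lit 0)) (P (nat_lit 15853540595140)))) (T.h (P (nat_lit 0)) (P (nat_lit 15967943811776))))) (T.h (T.h (T.h (P (nat_lit 0)) (M (nat_lit 2492486600571))) (P (nat_lit 0))) (T.h (T.h (P (nat_lit 0)) (M (nat_lit 26883350763291))) (P (nat_lit 0)))))))) (T.h (P (nat_lit 0)) (T.h (T.h (T.h (T.h (P (nat_lit 0)) (T.h (P (nat_lit 10248972392)) (T.h (P (nat_lit 0)) (T.h (M (nat_lit 295501349471)) (T.h (P (nat_lit 0)) (P (nat_lit 44549448138288))))))) (T.h (P (nat_lit 0)) (T.h (T.h (P (nat_lit 0)) (T.h (P (nat_lit 323270833200)) (T.h (P (nat_lit 0)) (P (nat_lit 117983269915400))))) (T.h (P (nat_lit 0)) (T.h (T.h (P (nat_lit 0)) (M (nat_lit 7649333276643))) (P (nat_lit 0))))))) (T.h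 (T.h (P (nat_lit 0)) (T.h (T.h (P (nat_lit 8105074916)) (T.h (P (nat_lit 0)) (M (nat_lit 5382434792695)))) (T.h (P (nat_lit 0)) (P (nat_lit 481426543912))))) (T.h (T.h (T.h (P (nat_lit 0)) (T.h (P (nat_lit 160834000716)) (T.h (P (nat_lit 0)) (P (nat_lit 47668392319720))))) (T.h (P (nat_lit 0)) (T.h (T.h (P (nat_lit 0)) (M (nat_lit 6251380119595))) (P (nat_lit 0))))) (T.h (T.h (P (nat_lit 0)) (M (nat_lit 190790229707))) (T.h (T.h (T.h (P (nat_lit 0)) (M (nat_lit 12127495777411))) (P (nat_lit 0))) (P (nat_lit 0))))))) (P (nat_lit 0))))))))) (T.h (T.h (P (nat_lit 0)) (T.h (P (nat_lit 0)) (T.h (P (nat_lit 0)) (T.h (T.h (T.h (P (nat_lit 0)) (T.h (T.h (P (nat_lit 8116787512)) (T.h (P (nat_lit 0)) (T.h (P (nat_lit 523193961000)) (T.h (P (nat_lit 0)) (P (nat_lit 791588064936)))))) (T.h (P (nat_lit 0)) (T.h (T.h (M (nat_lit 334498092839)) (T.h (P (nat_lit 0)) (P (nat_lit 19141470468640)))) (T.h (P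 (nat_lit 0)) (P (nat_lit 7689532335968))))))) (T.h (T.h (T.h (P (nat_lit 0)) (T.h (M (nat_lit 83391712815)) (T.h (P (nat_lit 0)) (T.h (P (nat_lit 2965716068312)) (T.h (P (nat_lit 0)) (P (nat_lit 49020149677976))))))) (T.h (P (nat_lit 0)) (T.h (T.h (P (nat_lit 0)) (T.h (M (nat_lit 7649132834351)) (T.h (P (nat_lit 0)) (P (nat_lit 276419100505864))))) (T.h (P (nat_lit 0)) (T.h (T.h (P (nat_lit 0)) (M (nat_lit 72828678043143))) (P (nat_lit 0))))))) (T.h (T.h (P (nat_lit 0)) (T.h (T.h (M (nat_lit 247314494975)) (T.h (P (nat_lit 0)) (M (nat_lit 38459354471663)))) (T.h (P (nat_lit 0)) (P (nat_lit 4368742128136))))) (T.h (T.h (T.h (P (nat_lit 0)) (T.h (P (nat_lit 1313881125560)) (T.h (P (nat_lit 0)) (P (nat_lit 52834894123672))))) (T.h (P (nat_lit 0)) (T.h (T.h (P (nat_lit 0)) (P (nat_lit 37492961130256))) (P (nat_lit 0))))) (T.h (T.h (P (nat_lit 0)) (M (nat_lit 1074406487591))) (T.h (T.h (T.h (P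 (nat_lit 0)) (P (nat_lit 35554962906488))) (P (nat_lit 0))) (P (nat_lit 0)))))))) (T.h (P (nat_lit 0)) (T.h (T.h (T.h (P (nat_lit 0)) (T.h (T.h (P (nat_lit 1166739240)) (T.h (P (nat_lit 0)) (T.h (M (nat_lit 2752517447383)) (T.h (P (nat_lit 0)) (P (nat_lit 70702012340360)))))) (T.h (P (nat_lit 0)) (T.h (T.h (M (nat_lit 10718175123)) (T.h (P (nat_lit 0)) (P (nat_lit 35503756803424)))) (T.h (P (nat_lit 0)) (M (nat_lit 2898727080299))))))) (T.h (T.h (T.h (P (nat_lit 0)) (T.h (M (nat_lit 89213461727)) (T.h (P (nat_lit 0)) (M (nat_lit 7025887547439))))) (T.h (P (nat_lit 0)) (T.h (T.h (P (nat_lit 0)) (P (nat_lit 1640836313424))) (P (nat_lit 0))))) (T.h (T.h (P (nat_lit 0)) (T.h (T.h (M (nat_lit 128298079935)) (T.h (P (nat_lit 0)) (M (nat_lit 5150885108627)))) (T.h (P (nat_lit 0)) (P (nat_lit 7754657964164))))) (T.h (T.h (T.h (P (nat_lit 0)) (M (nat_lit 567576472871))) (P (nat_lit 0))) (T.h (T.h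 (P (nat_lit 0)) (P (nat_lit 2669805010840))) (P (nat_lit 0))))))) (P (nat_lit 0)))))))) en02_5))
def en02_7 : T ℤ := (T.h (T.h (P (nat_lit 0)) (T.h (P (nat_lit 0)) (T.h (P (nat_lit 0)) (T.h (P (nat_lit 0)) (T.h (P (nat_lit 0)) (T.h (P (nat_lit 0)) (T.h (T.h (T.h (T.h (P (nat_lit 0)) (T.h (P (nat_lit 2565001128)) (T.h (P (nat_lit 0)) (T.h (M (nat_lit 176015020827)) (T.h (P (nat_lit 0)) (M (nat_lit 11047667103899))))))) (T.h (P (nat_lit 0)) (T.h (T.h (P (nat_lit 0)) (T.h (P (nat_lit 15693275576)) (T.h (P (nat_lit 0)) (M (nat_lit 6508435424991))))) (T.h (P (nat_lit 0)) (T.h (T.h (P (nat_lit 0)) (P (nat_lit 519821447248))) (P (nat_lit 0))))))) (T.h (T.h (P (nat_lit 0)) (T.h (T.h (P (nat_lit 503977964)) (T.h (P (nat_lit 0)) (T.h (M (nat_lit 451422558055)) (T.h (P (nat_lit 0)) (M (nat_lit 7632805553587)))))) (T.h (P (nat_lit 0)) (T.h (T.h (M (nat_lit 209019407067)) (T.h (P (nat_lit 0)) (M (nat_lit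 11768723258523)))) (T.h (P (nat_lit 0)) (P (nat_lit 2360669903788))))))) (T.h (T.h (T.h (P (nat_lit 0)) (T.h (P (nat_lit 17689139424)) (T.h (P (nat_lit 0)) (M (nat_lit 6573827261959))))) (T.h (P (nat_lit 0)) (T.h (T.h (P (nat_lit 0)) (P (nat_lit 2026357018804))) (P (nat_lit 0))))) (T.h (T.h (P (nat_lit 0)) (T.h (T.h (P (nat_lit 19328639740)) (T.h (P (nat_lit 0)) (M (nat_lit 21346521672843)))) (T.h (P (nat_lit 0)) (P (nat_lit 9907207089464))))) (T.h (T.h (T.h (P (nat_lit 0)) (P (nat_lit 275781282876))) (P (nat_lit 0))) (T.h (T.h (P (nat_lit 0)) (P (nat_lit 5951120602280))) (P (nat_lit 0)))))))) (T.h (P (nat_lit 0)) (T.h (T.h (T.h (T.h (P (nat_lit 0)) (T.h (M (nat_lit 2178963283)) (T.h (P (nat_lit 0)) (T.h (P (nat_lit 319441249460)) (T.h (P (nat_lit 0)) (M (nat_lit 4658843516395))))))) (T.h (P (nat_lit 0)) (T.h (T.h (P (nat_lit 0)) (T.h (P (nat_lit 45269852868)) (T.h (P (nat_lit 0)) (P (nat_lit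 7501205362844))))) (T.h (P (nat_lit 0)) (T.h (T.h (P (nat_lit 0)) (M (nat_lit 1862334828723))) (P (nat_lit 0))))))) (T.h (T.h (P (nat_lit 0)) (T.h (T.h (P (nat_lit 664979412)) (T.h (P (nat_lit 0)) (P (nat_lit 1426480607980)))) (T.h (P (nat_lit 0)) (M (nat_lit 199798649703))))) (T.h (T.h (T.h (P (nat_lit 0)) (T.h (M (nat_lit 246630300435)) (T.h (P (nat_lit 0)) (P (nat_lit 11902614181188))))) (T.h (P (nat_lit 0)) (T.h (T.h (P (nat_lit 0)) (P (nat_lit 3597022636364))) (P (nat_lit 0))))) (T.h (T.h (P (nat_lit 0)) (P (nat_lit 146421595404))) (T.h (T.h (T.h (P (nat_lit 0)) (P (nat_lit 5528421391636))) (P (nat_lit 0))) (P (nat_lit 0))))))) (P (nat_lit 0))))))))))) (T.h (T.h (P (nat_lit 0)) (T.h (P (nat_lit 0)) (T.h (P (nat_lit 0)) (T.h (P (nat_lit 0)) (T.h (P (nat_lit 0)) (T.h (T.h (T.h (P (nat_lit 0)) (T.h (T.h (M (nat_lit 2798907991)) (T.h (P (nat_lit 0)) (T.h (M (nat_lit 98862320439)) (T.h (P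 (nat_lit 0)) (M (nat_lit 5460358760055)))))) (T.h (P (nat_lit 0)) (T.h (T.h (P (nat_lit 206088831688)) (T.h (P (nat_lit 0)) (P (nat_lit 11559032915128)))) (T.h (P (nat_lit 0)) (P (nat_lit 288535795264))))))) (T.h (T.h (T.h (P (nat_lit 0)) (T.h (M (nat_lit 7337415911)) (T.h (P (nat_lit 0)) (T.h (M (nat_lit 3724737720679)) (T.h (P (nat_lit 0)) (P (nat_lit 78987889602912))))))) (T.h (P (nat_lit 0)) (T.h (T.h (P (nat_lit 0)) (T.h (M (nat_lit 1445517488719)) (T.h (P (nat_lit 0)) (P (nat_lit 138360560931312))))) (T.h (P (nat_lit 0)) (T.h (T.h (P (nat_lit 0)) (P (nat_lit 25930569204160))) (P (nat_lit 0))))))) (T.h (T.h (P (nat_lit 0)) (T.h (T.h (P (nat_lit 2420857560)) (T.h (P (nat_lit 0)) (P (nat_lit 10130299250128)))) (T.h (P (nat_lit 0)) (P (nat_lit 2521196088056))))) (T.h (T.h (T.h (P (nat_lit 0)) (T.h (P (nat_lit 594158354248)) (T.h (P (nat_lit 0)) (P (nat_lit 96525525163688))))) (T.h (P (nat_lit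 0)) (T.h (T.h (P (nat_lit 0)) (M (nat_lit 7619890950151))) (P (nat_lit 0))))) (T.h (T.h (P (nat_lit 0)) (P (nat_lit 323318543424))) (T.h (T.h (T.h (P (nat_lit 0)) (M (nat_lit 6531970437959))) (P (nat_lit 0))) (P (nat_lit 0)))))))) (T.h (P (nat_lit 0)) (T.h (T.h (T.h (P (nat_lit 0)) (T.h (T.h (P (nat_lit 1893834336)) (T.h (P (nat_lit 0)) (T.h (M (nat_lit 100043668067)) (T.h (P (nat_lit 0)) (P (nat_lit 60942220370692)))))) (T.h (P (nat_lit 0)) (T.h (T.h (M (nat_lit 75014111371)) (T.h (P (nat_lit 0)) (M (nat_lit 11580615882715)))) (T.h (P (nat_lit 0)) (P (nat_lit 28372267428))))))) (T.h (T.h (T.h (P (nat_lit 0)) (T.h (P (nat_lit 22590091072)) (T.h (P (nat_lit 0)) (M (nat_lit 19672280045111))))) (T.h (P (nat_lit 0)) (T.h (T.h (P (nat_lit 0)) (M (nat_lit 261662955903))) (P (nat_lit 0))))) (T.h (T.h (P (nat_lit 0)) (T.h (T.h (P (nat_lit 33163883436)) (T.h (P (nat_lit 0)) (P (nat_lit 17593278630036))))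 (T.h (P (nat_lit 0)) (P (nat_lit 1298284240848))))) (T.h (T.h (T.h (P (nat_lit 0)) (P (nat_lit 277116356216))) (P (nat_lit 0))) (T.h (T.h (P (nat_lit 0)) (M (nat_lit 3233645733267))) (P (nat_lit 0))))))) (P (nat_lit 0)))))))))) en02_6))
def en02_8 : T ℤ := (T.h (T.h (T.h (T.h (T.h (P (nat_lit 125575836)) (T.h (P (nat_lit 0)) (T.h (M (nat_lit 4111412095)) (T.h (P (nat_lit 0)) (T.h (P (nat_lit 54126349840)) (T.h (P (nat_lit 0)) (M (nat_lit 1898305670915)))))))) (T.h (P (nat_lit 0)) (T.h (T.h (M (nat_lit 25991415767)) (T.h (P (nat_lit 0)) (T.h (P (nat_lit 296093657084)) (T.h (P (nat_lit 0)) (P (nat_lit 11433843248352)))))) (T.h (P (nat_lit 0)) (T.h (T.h (M (nat_lit 906363040347)) (T.h (P (nat_lit 0)) (M (nat_lit 26951136648015)))) (T.h (P (nat_lit 0)) (P (nat_lit 27481680860480)))))))) (T.h (T.h (P (nat_lit 0)) (T.h (T.h (P (nat_lit 0)) (T.h (M (nat_lit 123838337119)) (T.h (P (nat_lit 0)) (M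 (nat_lit 748450197939))))) (T.h (P (nat_lit 0)) (T.h (T.h (P (nat_lit 0)) (P (nat_lit 7320411115420))) (P (nat_lit 0)))))) (T.h (T.h (T.h (M (nat_lit 728300927)) (T.h (P (nat_lit 0)) (T.h (M (nat_lit 154265696243)) (T.h (P (nat_lit 0)) (M (nat_lit 5933649017443)))))) (T.h (P (nat_lit 0)) (T.h (T.h (M (nat_lit 710344716491)) (T.h (P (nat_lit 0)) (P (nat_lit 3031658354100)))) (T.h (P (nat_lit 0)) (M (nat_lit 101259184603323)))))) (T.h (T.h (P (nat_lit 0)) (T.h (T.h (P (nat_lit 0)) (M (nat_lit 2069041634507))) (P (nat_lit 0)))) (T.h (T.h (T.h (M (nat_lit 410889166271)) (T.h (P (nat_lit 0)) (P (nat_lit 5266659599716)))) (T.h (P (nat_lit 0)) (M (nat_lit 17066106392663)))) (T.h (P (nat_lit 0)) (P (nat_lit 6026373572860)))))))) (T.h (P (nat_lit 0)) (T.h (T.h (T.h (T.h (P (nat_lit 250265240)) (T.h (P (nat_lit 0)) (T.h (P (nat_lit 32426060072)) (T.h (P (nat_lit 0)) (M (nat_lit 455726632431))))))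 (T.h (P (nat_lit 0)) (T.h (T.h (P (nat_lit 196803737592)) (T.h (P (nat_lit 0)) (M (nat_lit 3560208957027)))) (T.h (P (nat_lit 0)) (P (nat_lit 566584554264)))))) (T.h (T.h (P (nat_lit 0)) (T.h (T.h (P (nat_lit 0)) (T.h (P (nat_lit 684125187872)) (T.h (P (nat_lit 0)) (M (nat_lit 28291149212127))))) (T.h (P (nat_lit 0)) (T.h (T.h (P (nat_lit 0)) (P (nat_lit 40140897115312))) (P (nat_lit 0)))))) (T.h (T.h (T.h (P (nat_lit 32426060072)) (T.h (P (nat_lit 0)) (M (nat_lit 1231152517631)))) (T.h (P (nat_lit 0)) (M (nat_lit 3560208957027)))) (T.h (T.h (P (nat_lit 0)) (T.h (T.h (P (nat_lit 0)) (M (nat_lit 28291149212127))) (P (nat_lit 0)))) (M (nat_lit 455726632431)))))) (P (nat_lit 0))))) (T.h (T.h (P (nat_lit 0)) (T.h (T.h (T.h (P (nat_lit 0)) (T.h (T.h (P (nat_lit 0)) (T.h (P (nat_lit 62377257900)) (T.h (P (nat_lit 0)) (M (nat_lit 650932806955))))) (T.h (P (nat_lit 0)) (T.h (T.h (P (nat_lit 0))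 (P (nat_lit 1154849579952))) (P (nat_lit 0)))))) (T.h (T.h (T.h (M (nat_lit 477418867)) (T.h (P (nat_lit 0)) (T.h (P (nat_lit 126582279816)) (T.h (P (nat_lit 0)) (M (nat_lit 3392951145823)))))) (T.h (P (nat_lit 0)) (T.h (T.h (P (nat_lit 368197821684)) (T.h (P (nat_lit 0)) (P (nat_lit 8395784701972)))) (T.h (P (nat_lit 0)) (P (nat_lit 40115539603952)))))) (T.h (T.h (P (nat_lit 0)) (T.h (T.h (P (nat_lit 0)) (P (nat_lit 1301981791320))) (P (nat_lit 0)))) (T.h (T.h (T.h (M (nat_lit 194762767571)) (T.h (P (nat_lit 0)) (P (nat_lit 8194472374348)))) (T.h (P (nat_lit 0)) (M (nat_lit 17766040305891)))) (T.h (P (nat_lit 0)) (P (nat_lit 8753184512824))))))) (P (nat_lit 0)))) (T.h (T.h (T.h (T.h (T.h (P (nat_lit 88657672)) (T.h (P (nat_lit 0)) (T.h (P (nat_lit 12995362156)) (T.h (P (nat_lit 0)) (M (nat_lit 83875651707)))))) (T.h (P (nat_lit 0)) (T.h (T.h (P (nat_lit 11433462648)) (T.h (P (nat_lit 0))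 (M (nat_lit 1418248506203)))) (T.h (P (nat_lit 0)) (M (nat_lit 2398685872979)))))) (T.h (T.h (P (nat_lit 0)) (T.h (T.h (P (nat_lit 0)) (T.h (M (nat_lit 52211011743)) (T.h (P (nat_lit 0)) (M (nat_lit 3310669534679))))) (T.h (P (nat_lit 0)) (T.h (T.h (P (nat_lit 0)) (M (nat_lit 5481543716247))) (P (nat_lit 0)))))) (T.h (T.h (T.h (M (nat_lit 12659511079)) (T.h (P (nat_lit 0)) (M (nat_lit 358991453975)))) (T.h (P (nat_lit 0)) (M (nat_lit 3754600786559)))) (T.h (T.h (P (nat_lit 0)) (T.h (T.h (P (nat_lit 0)) (P (nat_lit 4998547222848))) (P (nat_lit 0)))) (M (nat_lit 505244877643)))))) (P (nat_lit 0))) (P (nat_lit 0)))))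
def en02_9 : T ℤ := (T.h (T.h (P (nat_lit 0)) (T.h (P (nat_lit 0)) (T.h (T.h (T.h (T.h (M (nat_lit 423932111)) (T.h (P (nat_lit 0)) (T.h (M (nat_lit 46390896371)) (T.h (P (nat_lit 0)) (T.h (P (nat_lit 304752044796)) (T.h (P (nat_lit 0)) (M (nat_lit 30835182328787)))))))) (T.h (P (nat_lit 0)) (T.h (T.h (M (nat_lit 56677043207)) (T.h (P (nat_lit 0)) (T.h (M (nat_lit 1114097137259)) (T.h (P (nat_lit 0)) (P (nat_lit 34635802949868)))))) (T.h (P (nat_lit 0)) (T.h (T.h (P (nat_lit 250353888024)) (T.h (P (nat_lit 0)) (M (nat_lit 9934849729895)))) (T.h (P (nat_lit 0)) (M (nat_lit 56503439712743)))))))) (T.h (T.h (P (nat_lit 0)) (T.h (T.h (P (nat_lit 0)) (T.h (M (nat_lit 1340834811935)) (T.h (P (nat_lit 0)) (M (nat_lit 45551859114755))))) (T.h (P (nat_lit 0)) (T.h (T.h (P (nat_lit 0)) (M (nat_lit 95384208341591))) (P (nat_lit 0)))))) (T.h (T.h (T.h (M (nat_lit 46390896371)) (T.h (P (nat_lit 0)) (T.h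 (P (nat_lit 656358182280)) (T.h (P (nat_lit 0)) (M (nat_lit 8440237441259)))))) (T.h (P (nat_lit 0)) (T.h (T.h (M (nat_lit 1114097137259)) (T.h (P (nat_lit 0)) (P (nat_lit 216563081073840)))) (T.h (P (nat_lit 0)) (M (nat_lit 9934849729895)))))) (T.h (T.h (P (nat_lit 0)) (T.h (T.h (P (nat_lit 0)) (M (nat_lit 45551859114755))) (P (nat_lit 0)))) (T.h (T.h (T.h (P (nat_lit 304752044796)) (T.h (P (nat_lit 0)) (M (nat_lit 8440237441259)))) (T.h (P (nat_lit 0)) (P (nat_lit 34635802949868)))) (T.h (P (nat_lit 0)) (M (nat_lit 30835182328787)))))))) (T.h (P (nat_lit 0)) (T.h (T.h (T.h (T.h (P (nat_lit 455285336)) (T.h (P (nat_lit 0)) (T.h (M (nat_lit 128245901643)) (T.h (P (nat_lit 0)) (P (nat_lit 1309305891508)))))) (T.h (P (nat_lit 0)) (T.h (T.h (P (nat_lit 50855419692)) (T.h (P (nat_lit 0)) (M (nat_lit 4102400561655)))) (T.h (P (nat_lit 0)) (P (nat_lit 621849262172)))))) (T.h (T.h (P (nat_lit 0))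 (T.h (T.h (P (nat_lit 0)) (T.h (P (nat_lit 6112280571360)) (T.h (P (nat_lit 0)) (M (nat_lit 22237673424855))))) (T.h (P (nat_lit 0)) (T.h (T.h (P (nat_lit 0)) (M (nat_lit 35111564963815))) (P (nat_lit 0)))))) (T.h (T.h (T.h (P (nat_lit 94154462280)) (T.h (P (nat_lit 0)) (P (nat_lit 5067623275536)))) (T.h (P (nat_lit 0)) (M (nat_lit 187452620659)))) (T.h (T.h (P (nat_lit 0)) (T.h (T.h (P (nat_lit 0)) (M (nat_lit 252560422134719))) (P (nat_lit 0)))) (M (nat_lit 7715072627311)))))) (P (nat_lit 0))))))) (T.h (T.h (P (nat_lit 0)) (T.h (T.h (T.h (P (nat_lit 0)) (T.h (T.h (P (nat_lit 0)) (T.h (M (nat_lit 31864758247)) (T.h (P (nat_lit 0)) (T.h (P (nat_lit 379107010304)) (T.h (P (nat_lit 0)) (P (nat_lit 21882632475824))))))) (T.h (P (nat_lit 0)) (T.h (T.h (P (nat_lit 0)) (T.h (P (nat_lit 1925055173880)) (T.h (P (nat_lit 0)) (M (nat_lit 19341947103347))))) (T.h (P (nat_lit 0)) (T.h (T.h (P (nat_lit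 0)) (P (nat_lit 76944049010572))) (P (nat_lit 0)))))))) (T.h (T.h (T.h (P (nat_lit 877771316)) (T.h (P (nat_lit 0)) (T.h (M (nat_lit 287377018063)) (T.h (P (nat_lit 0)) (P (nat_lit 601953002516)))))) (T.h (P (nat_lit 0)) (T.h (T.h (P (nat_lit 230176153592)) (T.h (P (nat_lit 0)) (M (nat_lit 35748590751019)))) (T.h (P (nat_lit 0)) (P (nat_lit 1835253517312)))))) (T.h (T.h (P (nat_lit 0)) (T.h (T.h (P (nat_lit 0)) (T.h (M (nat_lit 3995148109255)) (T.h (P (nat_lit 0)) (P (nat_lit 46370741789888))))) (T.h (P (nat_lit 0)) (T.h (T.h (P (nat_lit 0)) (P (nat_lit 91821480927076))) (P (nat_lit 0)))))) (T.h (T.h (T.h (M (nat_lit 260119310431)) (T.h (P (nat_lit 0)) (P (nat_lit 5497782662984)))) (T.h (P (nat_lit 0)) (M (nat_lit 9993412789479)))) (T.h (T.h (P (nat_lit 0)) (T.h (T.h (P (nat_lit 0)) (M (nat_lit 43688234041991))) (P (nat_lit 0)))) (P (nat_lit 6498348226448))))))) (T.h (P (nat_lit 0)) (T.h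 (T.h (T.h (P (nat_lit 0)) (T.h (T.h (P (nat_lit 0)) (T.h (M (nat_lit 61619793455)) (T.h (P (nat_lit 0)) (P (nat_lit 2345082945376))))) (T.h (P (nat_lit 0)) (T.h (T.h (P (nat_lit 0)) (P (nat_lit 1558454313164))) (P (nat_lit 0)))))) (T.h (T.h (T.h (P (nat_lit 48978612608)) (T.h (P (nat_lit 0)) (T.h (M (nat_lit 82949023563)) (T.h (P (nat_lit 0)) (P (nat_lit 15613964478884)))))) (T.h (P (nat_lit 0)) (T.h (T.h (P (nat_lit 2575849083220)) (T.h (P (nat_lit 0)) (M (nat_lit 119320718890087)))) (T.h (P (nat_lit 0)) (P (nat_lit 24909484436360)))))) (T.h (T.h (P (nat_lit 0)) (T.h (T.h (P (nat_lit 0)) (P (nat_lit 22102746903212))) (P (nat_lit 0)))) (T.h (T.h (T.h (M (nat_lit 372308018623)) (T.h (P (nat_lit 0)) (P (nat_lit 4972464475596)))) (T.h (P (nat_lit 0)) (M (nat_lit 26777926402575)))) (T.h (P (nat_lit 0)) (P (nat_lit 3842297299204))))))) (P (nat_lit 0)))))) en02_8))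
def en02_10 : T ℤ := (T.h (T.h (P (nat_lit 0)) (T.h (P (nat_lit 0)) (T.h (P (nat_lit 0)) (T.h (P (nat_lit 0)) (T.h (T.h (T.h (T.h (P (nat_lit 690388056)) (T.h (P (nat_lit 0)) (T.h (M (nat_lit 37608424583)) (T.h (P (nat_lit 0)) (T.h (P (nat_lit 1788526044676)) (T.h (P (nat_lit 0)) (P (nat_lit 4190211240568)))))))) (T.h (P (nat_lit 0)) (T.h (T.h (P (nat_lit 9173709716)) (T.h (P (nat_lit 0)) (T.h (P (nat_lit 1551505707808)) (T.h (P (nat_lit 0)) (P (nat_lit 54758216447560)))))) (T.h (P (nat_lit 0)) (T.h (T.h (P (nat_lit 14527350152)) (T.h (P (nat_lit 0)) (P (nat_lit 168025035535884)))) (T.h (P (nat_lit 0)) (M (nat_lit 6626601452027)))))))) (T.h (T.h (P (nat_lit 0)) (T.h (T.h (P (nat_lit 0)) (T.h (P (nat_lit 688137846164)) (T.h (P (nat_lit 0)) (P (nat_lit 28158640661996))))) (T.h (P (nat_lit 0)) (T.h (T.h (P (nat_lit 0)) (M (nat_lit 10690194705391))) (P (nat_lit 0)))))) (T.h (T.h (T.h (P (nat_lit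 34157996724)) (T.h (P (nat_lit 0)) (T.h (P (nat_lit 947972394240)) (T.h (P (nat_lit 0)) (P (nat_lit 44959621065316)))))) (T.h (P (nat_lit 0)) (T.h (T.h (M (nat_lit 743593978895)) (T.h (P (nat_lit 0)) (M (nat_lit 157030739101415)))) (T.h (P (nat_lit 0)) (M (nat_lit 30894629484639)))))) (T.h (T.h (P (nat_lit 0)) (T.h (T.h (P (nat_lit 0)) (P (nat_lit 983242635180))) (P (nat_lit 0)))) (T.h (T.h (T.h (M (nat_lit 450383540291)) (T.h (P (nat_lit 0)) (M (nat_lit 290367960205391)))) (T.h (P (nat_lit 0)) (M (nat_lit 15477355741227)))) (T.h (P (nat_lit 0)) (P (nat_lit 27533653808888)))))))) (T.h (P (nat_lit 0)) (T.h (T.h (T.h (T.h (P (nat_lit 495918776)) (T.h (P (nat_lit 0)) (T.h (P (nat_lit 74556470028)) (T.h (P (nat_lit 0)) (M (nat_lit 16678207139479)))))) (T.h (P (nat_lit 0)) (T.h (T.h (P (nat_lit 16871430868)) (T.h (P (nat_lit 0)) (P (nat_lit 2926642121108)))) (T.h (P (nat_lit 0)) (P (nat_lit 231283819848))))))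 (T.h (T.h (P (nat_lit 0)) (T.h (T.h (P (nat_lit 0)) (T.h (M (nat_lit 48432577559)) (T.h (P (nat_lit 0)) (M (nat_lit 68794420230959))))) (T.h (P (nat_lit 0)) (T.h (T.h (P (nat_lit 0)) (P (nat_lit 7538256923696))) (P (nat_lit 0)))))) (T.h (T.h (T.h (M (nat_lit 74635150459)) (T.h (P (nat_lit 0)) (P (nat_lit 1155406398876)))) (T.h (P (nat_lit 0)) (P (nat_lit 571528489296)))) (T.h (T.h (P (nat_lit 0)) (T.h (T.h (P (nat_lit 0)) (P (nat_lit 1799763143016))) (P (nat_lit 0)))) (P (nat_lit 1906646165656)))))) (P (nat_lit 0))))))))) (T.h (T.h (P (nat_lit 0)) (T.h (P (nat_lit 0)) (T.h (P (nat_lit 0)) (T.h (T.h (T.h (P (nat_lit 0)) (T.h (T.h (P (nat_lit 0)) (T.h (M (nat_lit 24548707767)) (T.h (P (nat_lit 0)) (T.h (P (nat_lit 1495070817396)) (T.h (P (nat_lit 0)) (P (nat_lit 36015090627500))))))) (T.h (P (nat_lit 0)) (T.h (T.h (P (nat_lit 0)) (T.h (M (nat_lit 743720589355)) (T.h (P (nat_lit 0)) (M (nat_lit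 194636376793235))))) (T.h (P (nat_lit 0)) (T.h (T.h (P (nat_lit 0)) (M (nat_lit 4207867182763))) (P (nat_lit 0)))))))) (T.h (T.h (T.h (P (nat_lit 3581224492)) (T.h (P (nat_lit 0)) (T.h (P (nat_lit 390898649548)) (T.h (P (nat_lit 0)) (P (nat_lit 8812871094524)))))) (T.h (P (nat_lit 0)) (T.h (T.h (M (nat_lit 377867968575)) (T.h (P (nat_lit 0)) (M (nat_lit 439718988975)))) (T.h (P (nat_lit 0)) (M (nat_lit 2556284200291)))))) (T.h (T.h (P (nat_lit 0)) (T.h (T.h (P (nat_lit 0)) (T.h (M (nat_lit 2379313564983)) (T.h (P (nat_lit 0)) (P (nat_lit 228643761141476))))) (T.h (P (nat_lit 0)) (T.h (T.h (P (nat_lit 0)) (P (nat_lit 15138354572152))) (P (nat_lit 0)))))) (T.h (T.h (T.h (M (nat_lit 23723148891)) (T.h (P (nat_lit 0)) (P (nat_lit 47333080249408)))) (T.h (P (nat_lit 0)) (M (nat_lit 6096492515971)))) (T.h (T.h (P (nat_lit 0)) (T.h (T.h (P (nat_lit 0)) (M (nat_lit 51017425668059))) (P (nat_lit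 0)))) (M (nat_lit 765273237103))))))) (T.h (P (nat_lit 0)) (T.h (T.h (T.h (P (nat_lit 0)) (T.h (T.h (P (nat_lit 0)) (T.h (P (nat_lit 278454202336)) (T.h (P (nat_lit 0)) (P (nat_lit 737723580312))))) (T.h (P (nat_lit 0)) (T.h (T.h (P (nat_lit 0)) (M (nat_lit 6045739525819))) (P (nat_lit 0)))))) (T.h (T.h (T.h (M (nat_lit 49602967811)) (T.h (P (nat_lit 0)) (T.h (M (nat_lit 6489555327507)) (T.h (P (nat_lit 0)) (M (nat_lit 190421778308003)))))) (T.h (P (nat_lit 0)) (T.h (T.h (P (nat_lit 585305759096)) (T.h (P (nat_lit 0)) (P (nat_lit 109539271842884)))) (T.h (P (nat_lit 0)) (M (nat_lit 3862915591095)))))) (T.h (T.h (P (nat_lit 0)) (T.h (T.h (P (nat_lit 0)) (P (nat_lit 4751814619348))) (P (nat_lit 0)))) (T.h (T.h (T.h (P (nat_lit 533254644588)) (T.h (P (nat_lit 0)) (P (nat_lit 1878608166788)))) (T.h (P (nat_lit 0)) (M (nat_lit 3318530130175)))) (T.h (P (nat_lit 0)) (M (nat_lit 7878450778071)))))))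 (P (nat_lit 0)))))))) en02_9))
def en02_11 : T ℤ := (T.h (T.h (T.h (T.h (T.h (P (nat_lit 0)) (T.h (P (nat_lit 452457684)) (T.h (P (nat_lit 0)) (T.h (M (nat_lit 120361015067)) (T.h (P (nat_lit 0)) (P (nat_lit 684449343976))))))) (T.h (P (nat_lit 0)) (T.h (T.h (P (nat_lit 0)) (T.h (M (nat_lit 154705991979)) (T.h (P (nat_lit 0)) (M (nat_lit 2116050638011))))) (T.h (P (nat_lit 0)) (T.h (T.h (P (nat_lit 0)) (M (nat_lit 4408478895715))) (P (nat_lit 0))))))) (T.h (T.h (P (nat_lit 0)) (T.h (T.h (P (nat_lit 14970244976)) (T.h (P (nat_lit 0)) (T.h (M (nat_lit 2224776105275)) (T.h (P (nat_lit 0)) (P (nat_lit 64156289015680)))))) (T.h (P (nat_lit 0)) (T.h (T.h (P (nat_lit 2521881038176)) (T.h (P (nat_lit 0)) (M (nat_lit 49022826667759)))) (T.h (P (nat_lit 0)) (M (nat_lit 65304520651051))))))) (T.h (T.h (T.h (P (nat_lit 0)) (T.h (M (nat_lit 103925089843)) (T.h (P (nat_lit 0)) (P (nat_lit 34833219188)))))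 (T.h (P (nat_lit 0)) (T.h (T.h (P (nat_lit 0)) (M (nat_lit 22749545138435))) (P (nat_lit 0))))) (T.h (T.h (P (nat_lit 0)) (T.h (T.h (P (nat_lit 1208137701624)) (T.h (P (nat_lit 0)) (M (nat_lit 9653880344835)))) (T.h (P (nat_lit 0)) (P (nat_lit 211383701307384))))) (T.h (T.h (T.h (P (nat_lit 0)) (M (nat_lit 2584065847719))) (P (nat_lit 0))) (T.h (T.h (P (nat_lit 0)) (M (nat_lit 44212389940679))) (P (nat_lit 0)))))))) (T.h (P (nat_lit 0)) (T.h (T.h (T.h (T.h (P (nat_lit 0)) (T.h (P (nat_lit 48978612608)) (T.h (P (nat_lit 0)) (T.h (M (nat_lit 372308018623)) (T.h (P (nat_lit 0)) (P (nat_lit 3842297299204))))))) (T.h (P (nat_lit 0)) (T.h (T.h (P (nat_lit 0)) (T.h (P (nat_lit 2575849083220)) (T.h (P (nat_lit 0)) (M (nat_lit 26777926402575))))) (T.h (P (nat_lit 0)) (T.h (T.h (P (nat_lit 0)) (P (nat_lit 24909484436360))) (P (nat_lit 0))))))) (T.h (T.h (P (nat_lit 0)) (T.h (T.h (M (nat_lit 61619793455))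 (T.h (P (nat_lit 0)) (P (nat_lit 22102746903212)))) (T.h (P (nat_lit 0)) (P (nat_lit 1558454313164))))) (T.h (T.h (T.h (P (nat_lit 0)) (T.h (M (nat_lit 82949023563)) (T.h (P (nat_lit 0)) (P (nat_lit 4972464475596))))) (T.h (P (nat_lit 0)) (T.h (T.h (P (nat_lit 0)) (M (nat_lit 119320718890087))) (P (nat_lit 0))))) (T.h (T.h (P (nat_lit 0)) (P (nat_lit 2345082945376))) (T.h (T.h (T.h (P (nat_lit 0)) (P (nat_lit 15613964478884))) (P (nat_lit 0))) (P (nat_lit 0))))))) (P (nat_lit 0))))) (T.h (T.h (P (nat_lit 0)) (T.h (T.h (T.h (P (nat_lit 0)) (T.h (T.h (P (nat_lit 7798573424)) (T.h (P (nat_lit 0)) (T.h (M (nat_lit 62277445899)) (T.h (P (nat_lit 0)) (P (nat_lit 2361109549560)))))) (T.h (P (nat_lit 0)) (T.h (T.h (M (nat_lit 645859134015)) (T.h (P (nat_lit 0)) (M (nat_lit 17360572887903)))) (T.h (P (nat_lit 0)) (P (nat_lit 17339001634180))))))) (T.h (T.h (T.h (P (nat_lit 0)) (T.h (P (nat_lit 20568685832))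 (T.h (P (nat_lit 0)) (M (nat_lit 414837016959))))) (T.h (P (nat_lit 0)) (T.h (T.h (P (nat_lit 0)) (P (nat_lit 1447821515768))) (P (nat_lit 0))))) (T.h (T.h (P (nat_lit 0)) (T.h (T.h (M (nat_lit 49093934967)) (T.h (P (nat_lit 0)) (P (nat_lit 56471199994020)))) (T.h (P (nat_lit 0)) (P (nat_lit 25557228420188))))) (T.h (T.h (T.h (P (nat_lit 0)) (P (nat_lit 948491366120))) (P (nat_lit 0))) (T.h (T.h (P (nat_lit 0)) (M (nat_lit 14271422615803))) (P (nat_lit 0))))))) (P (nat_lit 0)))) (T.h (T.h (T.h (T.h (T.h (P (nat_lit 0)) (T.h (P (nat_lit 3534205084)) (T.h (P (nat_lit 0)) (T.h (P (nat_lit 5836207288)) (T.h (P (nat_lit 0)) (P (nat_lit 2895343938004))))))) (T.h (P (nat_lit 0)) (T.h (T.h (P (nat_lit 0)) (T.h (M (nat_lit 246922459295)) (T.h (P (nat_lit 0)) (P (nat_lit 5082990774796))))) (T.h (P (nat_lit 0)) (T.h (T.h (P (nat_lit 0)) (P (nat_lit 57203948105904))) (P (nat_lit 0))))))) (T.h (T.h (P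 (nat_lit 0)) (T.h (T.h (P (nat_lit 532142240)) (T.h (P (nat_lit 0)) (M (nat_lit 296312184443)))) (T.h (P (nat_lit 0)) (M (nat_lit 6239675441543))))) (T.h (T.h (T.h (P (nat_lit 0)) (T.h (M (nat_lit 186108073099)) (T.h (P (nat_lit 0)) (P (nat_lit 14072861859188))))) (T.h (P (nat_lit 0)) (T.h (T.h (P (nat_lit 0)) (P (nat_lit 4506837503900))) (P (nat_lit 0))))) (T.h (T.h (P (nat_lit 0)) (P (nat_lit 2339973241380))) (T.h (T.h (T.h (P (nat_lit 0)) (P (nat_lit 4542091260660))) (P (nat_lit 0))) (P (nat_lit 0))))))) (P (nat_lit 0))) (P (nat_lit 0)))))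
def en02_12 : T ℤ := (T.h (T.h (P (nat_lit 0)) (T.h (P (nat_lit 0)) (T.h (T.h (T.h (T.h (P (nat_lit 0)) (T.h (P (nat_lit 3581224492)) (T.h (P (nat_lit 0)) (T.h (M (nat_lit 23723148891)) (T.h (P (nat_lit 0)) (M (nat_lit 765273237103))))))) (T.h (P (nat_lit 0)) (T.h (T.h (P (nat_lit 0)) (T.h (M (nat_lit 377867968575)) (T.h (P (nat_lit 0)) (M (nat_lit 6096492515971))))) (T.h (P (nat_lit 0)) (T.h (T.h (P (nat_lit 0)) (M (nat_lit 2556284200291))) (P (nat_lit 0))))))) (T.h (T.h (P (nat_lit 0)) (T.h (T.h (M (nat_lit 24548707767)) (T.h (P (nat_lit 0)) (T.h (M (nat_lit 2379313564983)) (T.h (P (nat_lit 0)) (M (nat_lit 51017425668059)))))) (T.h (P (nat_lit 0)) (T.h (T.h (M (nat_lit 743720589355)) (T.h (P (nat_lit 0)) (P (nat_lit 15138354572152)))) (T.h (P (nat_lit 0)) (M (nat_lit 4207867182763))))))) (T.h (T.h (T.h (P (nat_lit 0)) (T.h (P (nat_lit 390898649548)) (T.h (P (nat_lit 0)) (P (nat_lit 47333080249408)))))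 (T.h (P (nat_lit 0)) (T.h (T.h (P (nat_lit 0)) (M (nat_lit 439718988975))) (P (nat_lit 0))))) (T.h (T.h (P (nat_lit 0)) (T.h (T.h (P (nat_lit 1495070817396)) (T.h (P (nat_lit 0)) (P (nat_lit 228643761141476)))) (T.h (P (nat_lit 0)) (M (nat_lit 194636376793235))))) (T.h (T.h (T.h (P (nat_lit 0)) (P (nat_lit 8812871094524))) (P (nat_lit 0))) (T.h (T.h (P (nat_lit 0)) (P (nat_lit 36015090627500))) (P (nat_lit 0)))))))) (T.h (P (nat_lit 0)) (T.h (T.h (T.h (T.h (P (nat_lit 0)) (T.h (P (nat_lit 1481440216)) (T.h (P (nat_lit 0)) (T.h (P (nat_lit 968873386592)) (T.h (P (nat_lit 0)) (P (nat_lit 40450535734404))))))) (T.h (P (nat_lit 0)) (T.h (T.h (P (nat_lit 0)) (T.h (P (nat_lit 2196982075580)) (T.h (P (nat_lit 0)) (P (nat_lit 38815009774276))))) (T.h (P (nat_lit 0)) (T.h (T.h (P (nat_lit 0)) (P (nat_lit 14260692050920))) (P (nat_lit 0))))))) (T.h (T.h (P (nat_lit 0)) (T.h (T.h (P (nat_lit 29706360))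 (T.h (P (nat_lit 0)) (M (nat_lit 10507490652427)))) (T.h (P (nat_lit 0)) (P (nat_lit 9132223496572))))) (T.h (T.h (T.h (P (nat_lit 0)) (T.h (P (nat_lit 92514020520)) (T.h (P (nat_lit 0)) (P (nat_lit 192110734914860))))) (T.h (P (nat_lit 0)) (T.h (T.h (P (nat_lit 0)) (M (nat_lit 92213827433827))) (P (nat_lit 0))))) (T.h (T.h (P (nat_lit 0)) (M (nat_lit 1542717166383))) (T.h (T.h (T.h (P (nat_lit 0)) (M (nat_lit 63122429163171))) (P (nat_lit 0))) (P (nat_lit 0))))))) (P (nat_lit 0))))))) (T.h (T.h (P (nat_lit 0)) (T.h (T.h (T.h (P (nat_lit 0)) (T.h (T.h (P (nat_lit 8116787512)) (T.h (P (nat_lit 0)) (T.h (M (nat_lit 247314494975)) (T.h (P (nat_lit 0)) (M (nat_lit 1074406487591)))))) (T.h (P (nat_lit 0)) (T.h (T.h (M (nat_lit 334498092839)) (T.h (P (nat_lit 0)) (P (nat_lit 4368742128136)))) (T.h (P (nat_lit 0)) (P (nat_lit 7689532335968))))))) (T.h (T.h (T.h (P (nat_lit 0)) (T.h (M (nat_lit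 83391712815)) (T.h (P (nat_lit 0)) (T.h (P (nat_lit 1313881125560)) (T.h (P (nat_lit 0)) (P (nat_lit 35554962906488))))))) (T.h (P (nat_lit 0)) (T.h (T.h (P (nat_lit 0)) (T.h (M (nat_lit 7649132834351)) (T.h (P (nat_lit 0)) (P (nat_lit 37492961130256))))) (T.h (P (nat_lit 0)) (T.h (T.h (P (nat_lit 0)) (M (nat_lit 72828678043143))) (P (nat_lit 0))))))) (T.h (T.h (P (nat_lit 0)) (T.h (T.h (P (nat_lit 523193961000)) (T.h (P (nat_lit 0)) (M (nat_lit 38459354471663)))) (T.h (P (nat_lit 0)) (P (nat_lit 19141470468640))))) (T.h (T.h (T.h (P (nat_lit 0)) (T.h (P (nat_lit 2965716068312)) (T.h (P (nat_lit 0)) (P (nat_lit 52834894123672))))) (T.h (P (nat_lit 0)) (T.h (T.h (P (nat_lit 0)) (P (nat_lit 276419100505864))) (P (nat_lit 0))))) (T.h (T.h (P (nat_lit 0)) (P (nat_lit 791588064936))) (T.h (T.h (T.h (P (nat_lit 0)) (P (nat_lit 49020149677976))) (P (nat_lit 0))) (P (nat_lit 0)))))))) (T.h (P (nat_lit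 0)) (T.h (T.h (T.h (P (nat_lit 0)) (T.h (T.h (P (nat_lit 24618141968)) (T.h (P (nat_lit 0)) (T.h (M (nat_lit 1341114494923)) (T.h (P (nat_lit 0)) (P (nat_lit 46241595727172)))))) (T.h (P (nat_lit 0)) (T.h (T.h (M (nat_lit 1651905559)) (T.h (P (nat_lit 0)) (P (nat_lit 26777412311612)))) (T.h (P (nat_lit 0)) (P (nat_lit 11398548109960))))))) (T.h (T.h (T.h (P (nat_lit 0)) (T.h (M (nat_lit 32963530095)) (T.h (P (nat_lit 0)) (M (nat_lit 688196366455))))) (T.h (P (nat_lit 0)) (T.h (T.h (P (nat_lit 0)) (P (nat_lit 23387654882016))) (P (nat_lit 0))))) (T.h (T.h (P (nat_lit 0)) (T.h (T.h (M (nat_lit 1341114494923)) (T.h (P (nat_lit 0)) (P (nat_lit 53078760687720)))) (T.h (P (nat_lit 0)) (P (nat_lit 26777412311612))))) (T.h (T.h (T.h (P (nat_lit 0)) (M (nat_lit 688196366455))) (P (nat_lit 0))) (T.h (T.h (P (nat_lit 0)) (P (nat_lit 46241595727172))) (P (nat_lit 0))))))) (P (nat_lit 0)))))) en02_11))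
def en02_13 : T ℤ := (T.h (T.h (P (nat_lit 0)) (T.h (P (nat_lit 0)) (T.h (P (nat_lit 0)) (T.h (P (nat_lit 0)) (T.h (T.h (T.h (T.h (P (nat_lit 0)) (T.h (P (nat_lit 672172624)) (T.h (P (nat_lit 0)) (T.h (M (nat_lit 225564240675)) (T.h (P (nat_lit 0)) (P (nat_lit 2864758858364))))))) (T.h (P (nat_lit 0)) (T.h (T.h (P (nat_lit 0)) (T.h (M (nat_lit 6326352819)) (T.h (P (nat_lit 0)) (P (nat_lit 10291858671460))))) (T.h (P (nat_lit 0)) (T.h (T.h (P (nat_lit 0)) (M (nat_lit 232095994223))) (P (nat_lit 0))))))) (T.h (T.h (P (nat_lit 0)) (T.h (T.h (P (nat_lit 22571531124)) (T.h (P (nat_lit 0)) (T.h (M (nat_lit 113154421387)) (T.h (P (nat_lit 0)) (M (nat_lit 76758372203907)))))) (T.h (P (nat_lit 0)) (T.h (T.h (M (nat_lit 75702484675)) (T.h (P (nat_lit 0)) (M (nat_lit 1950632030067)))) (T.h (P (nat_lit 0)) (M (nat_lit 3517370194219))))))) (T.h (T.h (T.h (P (nat_lit 0)) (T.h (M (nat_lit 63654483075))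 (T.h (P (nat_lit 0)) (P (nat_lit 2522581200028))))) (T.h (P (nat_lit 0)) (T.h (T.h (P (nat_lit 0)) (M (nat_lit 10756115337847))) (P (nat_lit 0))))) (T.h (T.h (P (nat_lit 0)) (T.h (T.h (M (nat_lit 100474731975)) (T.h (P (nat_lit 0)) (P (nat_lit 96091973915376)))) (T.h (P (nat_lit 0)) (M (nat_lit 54319284205199))))) (T.h (T.h (T.h (P (nat_lit 0)) (M (nat_lit 12028847337755))) (P (nat_lit 0))) (T.h (T.h (P (nat_lit 0)) (M (nat_lit 29114782488087))) (P (nat_lit 0)))))))) (T.h (P (nat_lit 0)) (T.h (T.h (T.h (T.h (P (nat_lit 0)) (T.h (M (nat_lit 14732721695)) (T.h (P (nat_lit 0)) (T.h (P (nat_lit 1873836616232)) (T.h (P (nat_lit 0)) (M (nat_lit 84545599334051))))))) (T.h (P (nat_lit 0)) (T.h (T.h (P (nat_lit 0)) (T.h (P (nat_lit 456192786564)) (T.h (P (nat_lit 0)) (M (nat_lit 21799666714019))))) (T.h (P (nat_lit 0)) (T.h (T.h (P (nat_lit 0)) (P (nat_lit 4100220944900))) (P (nat_lit 0))))))) (T.h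 (T.h (P (nat_lit 0)) (T.h (T.h (P (nat_lit 5776553456)) (T.h (P (nat_lit 0)) (M (nat_lit 5379419962879)))) (T.h (P (nat_lit 0)) (P (nat_lit 1516171547548))))) (T.h (T.h (T.h (P (nat_lit 0)) (T.h (P (nat_lit 90017135656)) (T.h (P (nat_lit 0)) (M (nat_lit 188535268557567))))) (T.h (P (nat_lit 0)) (T.h (T.h (P (nat_lit 0)) (M (nat_lit 13105328688771))) (P (nat_lit 0))))) (T.h (T.h (P (nat_lit 0)) (M (nat_lit 436643749291))) (T.h (T.h (T.h (P (nat_lit 0)) (P (nat_lit 13379901392920))) (P (nat_lit 0))) (P (nat_lit 0))))))) (P (nat_lit 0))))))))) (T.h (T.h (P (nat_lit 0)) (T.h (P (nat_lit 0)) (T.h (P (nat_lit 0)) (T.h (T.h (T.h (P (nat_lit 0)) (T.h (T.h (P (nat_lit 36712945568)) (T.h (P (nat_lit 0)) (T.h (M (nat_lit 340235857791)) (T.h (P (nat_lit 0)) (M (nat_lit 2747499395503)))))) (T.h (P (nat_lit 0)) (T.h (T.h (M (nat_lit 996326521311)) (T.h (P (nat_lit 0)) (M (nat_lit 3933025041439)))) (T.h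 (P (nat_lit 0)) (P (nat_lit 4749218115648))))))) (T.h (T.h (T.h (P (nat_lit 0)) (T.h (P (nat_lit 173800961408)) (T.h (P (nat_lit 0)) (T.h (P (nat_lit 4395479283808)) (T.h (P (nat_lit 0)) (M (nat_lit 40082801032911))))))) (T.h (P (nat_lit 0)) (T.h (T.h (P (nat_lit 0)) (T.h (M (nat_lit 14687838258399)) (T.h (P (nat_lit 0)) (M (nat_lit 31757511884239))))) (T.h (P (nat_lit 0)) (T.h (T.h (P (nat_lit 0)) (P (nat_lit 247704253568512))) (P (nat_lit 0))))))) (T.h (T.h (P (nat_lit 0)) (T.h (T.h (M (nat_lit 340235857791)) (T.h (P (nat_lit 0)) (M (nat_lit 80908666079775)))) (T.h (P (nat_lit 0)) (M (nat_lit 3933025041439))))) (T.h (T.h (T.h (P (nat_lit 0)) (T.h (P (nat_lit 4395479283808)) (T.h (P (nat_lit 0)) (P (nat_lit 151917896922048))))) (T.h (P (nat_lit 0)) (T.h (T.h (P (nat_lit 0)) (M (nat_lit 31757511884239))) (P (nat_lit 0))))) (T.h (T.h (P (nat_lit 0)) (M (nat_lit 2747499395503))) (T.h (T.h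 (T.h (P (nat_lit 0)) (M (nat_lit 40082801032911))) (P (nat_lit 0))) (P (nat_lit 0)))))))) (T.h (P (nat_lit 0)) (T.h (T.h (T.h (P (nat_lit 0)) (T.h (T.h (P (nat_lit 1603055704)) (T.h (P (nat_lit 0)) (T.h (P (nat_lit 601659608656)) (T.h (P (nat_lit 0)) (P (nat_lit 3255682247580)))))) (T.h (P (nat_lit 0)) (T.h (T.h (P (nat_lit 65398510292)) (T.h (P (nat_lit 0)) (M (nat_lit 11584982914139)))) (T.h (P (nat_lit 0)) (M (nat_lit 288049075519))))))) (T.h (T.h (T.h (P (nat_lit 0)) (T.h (M (nat_lit 198509434503)) (T.h (P (nat_lit 0)) (P (nat_lit 10648703055344))))) (T.h (P (nat_lit 0)) (T.h (T.h (P (nat_lit 0)) (P (nat_lit 3149456640840))) (P (nat_lit 0))))) (T.h (T.h (P (nat_lit 0)) (T.h (T.h (P (nat_lit 56095217084)) (T.h (P (nat_lit 0)) (P (nat_lit 7536272169276)))) (T.h (P (nat_lit 0)) (M (nat_lit 5110012795695))))) (T.h (T.h (T.h (P (nat_lit 0)) (M (nat_lit 1281759329935))) (P (nat_lit 0))) (T.h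 (T.h (P (nat_lit 0)) (P (nat_lit 1900669731976))) (P (nat_lit 0))))))) (P (nat_lit 0)))))))) en02_12))
def en02_14 : T ℤ := (T.h (T.h (T.h (T.h (T.h (P (nat_lit 120474412)) (T.h (P (nat_lit 0)) (T.h (P (nat_lit 2124659812)) (T.h (P (nat_lit 0)) (T.h (M (nat_lit 34348601055)) (T.h (P (nat_lit 0)) (P (nat_lit 767332666544)))))))) (T.h (P (nat_lit 0)) (T.h (T.h (P (nat_lit 18542148788)) (T.h (P (nat_lit 0)) (T.h (M (nat_lit 531821343491)) (T.h (P (nat_lit 0)) (M (nat_lit 8370238053499)))))) (T.h (P (nat_lit 0)) (T.h (T.h (M (nat_lit 798768447563)) (T.h (P (nat_lit 0)) (P (nat_lit 13894230606704)))) (T.h (P (nat_lit 0)) (P (nat_lit 18797210057876)))))))) (T.h (T.h (P (nat_lit 0)) (T.h (T.h (P (nat_lit 0)) (T.h (P (nat_lit 11168423828)) (T.h (P (nat_lit 0)) (P (nat_lit 889151040076))))) (T.h (P (nat_lit 0)) (T.h (T.h (P (nat_lit 0)) (M (nat_lit 3242870743519))) (P (nat_lit 0)))))) (T.h (T.h (T.h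 (M (nat_lit 37615410167)) (T.h (P (nat_lit 0)) (T.h (P (nat_lit 1599055212596)) (T.h (P (nat_lit 0)) (M (nat_lit 27057262058531)))))) (T.h (P (nat_lit 0)) (T.h (T.h (M (nat_lit 538381222819)) (T.h (P (nat_lit 0)) (M (nat_lit 14791349351771)))) (T.h (P (nat_lit 0)) (M (nat_lit 125015628627343)))))) (T.h (T.h (P (nat_lit 0)) (T.h (T.h (P (nat_lit 0)) (P (nat_lit 6225782836472))) (P (nat_lit 0)))) (T.h (T.h (T.h (M (nat_lit 2018685661727)) (T.h (P (nat_lit 0)) (M (nat_lit 59564027722879)))) (T.h (P (nat_lit 0)) (M (nat_lit 145950444094087)))) (T.h (P (nat_lit 0)) (P (nat_lit 42188150135176)))))))) (T.h (P (nat_lit 0)) (T.h (T.h (T.h (T.h (P (nat_lit 455285336)) (T.h (P (nat_lit 0)) (T.h (P (nat_lit 94154462280)) (T.h (P (nat_lit 0)) (M (nat_lit 7715072627311)))))) (T.h (P (nat_lit 0)) (T.h (T.h (P (nat_lit 50855419692)) (T.h (P (nat_lit 0)) (M (nat_lit 187452620659)))) (T.h (P (nat_lit 0))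 (P (nat_lit 621849262172)))))) (T.h (T.h (P (nat_lit 0)) (T.h (T.h (P (nat_lit 0)) (T.h (P (nat_lit 6112280571360)) (T.h (P (nat_lit 0)) (M (nat_lit 252560422134719))))) (T.h (P (nat_lit 0)) (T.h (T.h (P (nat_lit 0)) (M (nat_lit 35111564963815))) (P (nat_lit 0)))))) (T.h (T.h (T.h (M (nat_lit 128245901643)) (T.h (P (nat_lit 0)) (P (nat_lit 5067623275536)))) (T.h (P (nat_lit 0)) (M (nat_lit 4102400561655)))) (T.h (T.h (P (nat_lit 0)) (T.h (T.h (P (nat_lit 0)) (M (nat_lit 22237673424855))) (P (nat_lit 0)))) (P (nat_lit 1309305891508)))))) (P (nat_lit 0))))) (T.h (T.h (P (nat_lit 0)) (T.h (T.h (T.h (P (nat_lit 0)) (T.h (T.h (P (nat_lit 0)) (T.h (P (nat_lit 167542145144)) (T.h (P (nat_lit 0)) (M (nat_lit 805491890143))))) (T.h (P (nat_lit 0)) (T.h (T.h (P (nat_lit 0)) (P (nat_lit 319584426704))) (P (nat_lit 0)))))) (T.h (T.h (T.h (M (nat_lit 1910026747)) (T.h (P (nat_lit 0)) (T.h (M (nat_lit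 8100156943)) (T.h (P (nat_lit 0)) (P (nat_lit 4405503876552)))))) (T.h (P (nat_lit 0)) (T.h (T.h (M (nat_lit 3065549179)) (T.h (P (nat_lit 0)) (P (nat_lit 45478657442788)))) (T.h (P (nat_lit 0)) (M (nat_lit 29050427444987)))))) (T.h (T.h (P (nat_lit 0)) (T.h (T.h (P (nat_lit 0)) (P (nat_lit 6628744492168))) (P (nat_lit 0)))) (T.h (T.h (T.h (P (nat_lit 72003207956)) (T.h (P (nat_lit 0)) (M (nat_lit 37524582950575)))) (T.h (P (nat_lit 0)) (M (nat_lit 81725832907843)))) (T.h (P (nat_lit 0)) (M (nat_lit 38781544521123))))))) (P (nat_lit 0)))) (T.h (T.h (T.h (T.h (T.h (M (nat_lit 643512459)) (T.h (P (nat_lit 0)) (T.h (M (nat_lit 22951263923)) (T.h (P (nat_lit 0)) (M (nat_lit 529970276263)))))) (T.h (P (nat_lit 0)) (T.h (T.h (P (nat_lit 53573977792)) (T.h (P (nat_lit 0)) (P (nat_lit 5390614528744)))) (T.h (P (nat_lit 0)) (M (nat_lit 3513052941023)))))) (T.h (T.h (P (nat_lit 0)) (T.h (T.h (P (nat_lit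 0)) (T.h (P (nat_lit 2279040877576)) (T.h (P (nat_lit 0)) (M (nat_lit 41672976620503))))) (T.h (P (nat_lit 0)) (T.h (T.h (P (nat_lit 0)) (P (nat_lit 45778100306008))) (P (nat_lit 0)))))) (T.h (T.h (T.h (M (nat_lit 33828324491)) (T.h (P (nat_lit 0)) (P (nat_lit 4403691358716)))) (T.h (P (nat_lit 0)) (M (nat_lit 8603682436039)))) (T.h (T.h (P (nat_lit 0)) (T.h (T.h (P (nat_lit 0)) (M (nat_lit 26865053035023))) (P (nat_lit 0)))) (M (nat_lit 5621276767187)))))) (P (nat_lit 0))) (P (nat_lit 0)))))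
def en02_15 : T ℤ := (T.h (T.h (P (nat_lit 0)) (T.h (P (nat_lit 0)) (T.h (T.h (T.h (T.h (P (nat_lit 690388056)) (T.h (P (nat_lit 0)) (T.h (P (nat_lit 34157996724)) (T.h (P (nat_lit 0)) (T.h (M (nat_lit 450383540291)) (T.h (P (nat_lit 0)) (P (nat_lit 27533653808888)))))))) (T.h (P (nat_lit 0)) (T.h (T.h (P (nat_lit 9173709716)) (T.h (P (nat_lit 0)) (T.h (M (nat_lit 743593978895)) (T.h (P (nat_lit 0)) (M (nat_lit 15477355741227)))))) (T.h (P (nat_lit 0)) (T.h (T.h (P (nat_lit 14527350152)) (T.h (P (nat_lit 0)) (M (nat_lit 30894629484639)))) (T.h (P (nat_lit 0)) (M (nat_lit 6626601452027)))))))) (T.h (T.h (P (nat_lit 0)) (T.h (T.h (P (nat_lit 0)) (T.h (P (nat_lit 688137846164)) (T.h (P (nat_lit 0)) (P (nat_lit 983242635180))))) (T.h (P (nat_lit 0)) (T.h (T.h (P (nat_lit 0)) (M (nat_lit 10690194705391))) (P (nat_lit 0)))))) (T.h (T.h (T.h (M (nat_lit 37608424583)) (T.h (P (nat_lit 0)) (T.h (P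 (nat_lit 947972394240)) (T.h (P (nat_lit 0)) (M (nat_lit 290367960205391)))))) (T.h (P (nat_lit 0)) (T.h (T.h (P (nat_lit 1551505707808)) (T.h (P (nat_lit 0)) (M (nat_lit 157030739101415)))) (T.h (P (nat_lit 0)) (P (nat_lit 168025035535884)))))) (T.h (T.h (P (nat_lit 0)) (T.h (T.h (P (nat_lit 0)) (P (nat_lit 28158640661996))) (P (nat_lit 0)))) (T.h (T.h (T.h (P (nat_lit 1788526044676)) (T.h (P (nat_lit 0)) (P (nat_lit 44959621065316)))) (T.h (P (nat_lit 0)) (P (nat_lit 54758216447560)))) (T.h (P (nat_lit 0)) (P (nat_lit 4190211240568)))))))) (T.h (P (nat_lit 0)) (T.h (T.h (T.h (T.h (M (nat_lit 565249695)) (T.h (P (nat_lit 0)) (T.h (P (nat_lit 138391843444)) (T.h (P (nat_lit 0)) (P (nat_lit 4285586956460)))))) (T.h (P (nat_lit 0)) (T.h (T.h (M (nat_lit 12391689071)) (T.h (P (nat_lit 0)) (M (nat_lit 5404246956291)))) (T.h (P (nat_lit 0)) (P (nat_lit 299420226496)))))) (T.h (T.h (P (nat_lit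 0)) (T.h (T.h (P (nat_lit 0)) (T.h (P (nat_lit 298234297040)) (T.h (P (nat_lit 0)) (P (nat_lit 6316901359880))))) (T.h (P (nat_lit 0)) (T.h (T.h (P (nat_lit 0)) (M (nat_lit 7060909683599))) (P (nat_lit 0)))))) (T.h (T.h (T.h (P (nat_lit 138391843444)) (T.h (P (nat_lit 0)) (M (nat_lit 20910434615855)))) (T.h (P (nat_lit 0)) (M (nat_lit 5404246956291)))) (T.h (T.h (P (nat_lit 0)) (T.h (T.h (P (nat_lit 0)) (P (nat_lit 6316901359880))) (P (nat_lit 0)))) (P (nat_lit 4285586956460)))))) (P (nat_lit 0))))))) (T.h (T.h (P (nat_lit 0)) (T.h (T.h (T.h (P (nat_lit 0)) (T.h (T.h (P (nat_lit 0)) (T.h (P (nat_lit 30048288424)) (T.h (P (nat_lit 0)) (T.h (M (nat_lit 157625186211)) (T.h (P (nat_lit 0)) (M (nat_lit 26883350763291))))))) (T.h (P (nat_lit 0)) (T.h (T.h (P (nat_lit 0)) (T.h (M (nat_lit 791455199671)) (T.h (P (nat_lit 0)) (P (nat_lit 15967943811776))))) (T.h (P (nat_lit 0)) (T.h (T.h (P (nat_lit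 0)) (P (nat_lit 16163135712548))) (P (nat_lit 0)))))))) (T.h (T.h (T.h (P (nat_lit 6857446672)) (T.h (P (nat_lit 0)) (T.h (P (nat_lit 350840960728)) (T.h (P (nat_lit 0)) (M (nat_lit 2492486600571)))))) (T.h (P (nat_lit 0)) (T.h (T.h (P (nat_lit 1119535848)) (T.h (P (nat_lit 0)) (M (nat_lit 5787987478995)))) (T.h (P (nat_lit 0)) (P (nat_lit 3846040127248)))))) (T.h (T.h (P (nat_lit 0)) (T.h (T.h (P (nat_lit 0)) (T.h (P (nat_lit 1329385345020)) (T.h (P (nat_lit 0)) (P (nat_lit 15853540595140))))) (T.h (P (nat_lit 0)) (T.h (T.h (P (nat_lit 0)) (M (nat_lit 98179565976979))) (P (nat_lit 0)))))) (T.h (T.h (T.h (P (nat_lit 888821385796)) (T.h (P (nat_lit 0)) (M (nat_lit 10089133537795)))) (T.h (P (nat_lit 0)) (M (nat_lit 7738713671355)))) (T.h (T.h (P (nat_lit 0)) (T.h (T.h (P (nat_lit 0)) (P (nat_lit 82967783483940))) (P (nat_lit 0)))) (P (nat_lit 957150188404))))))) (T.h (P (nat_lit 0)) (T.h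 (T.h (T.h (P (nat_lit 0)) (T.h (T.h (P (nat_lit 0)) (T.h (P (nat_lit 29706360)) (T.h (P (nat_lit 0)) (M (nat_lit 1542717166383))))) (T.h (P (nat_lit 0)) (T.h (T.h (P (nat_lit 0)) (P (nat_lit 9132223496572))) (P (nat_lit 0)))))) (T.h (T.h (T.h (P (nat_lit 1481440216)) (T.h (P (nat_lit 0)) (T.h (P (nat_lit 92514020520)) (T.h (P (nat_lit 0)) (M (nat_lit 63122429163171)))))) (T.h (P (nat_lit 0)) (T.h (T.h (P (nat_lit 2196982075580)) (T.h (P (nat_lit 0)) (M (nat_lit 92213827433827)))) (T.h (P (nat_lit 0)) (P (nat_lit 14260692050920)))))) (T.h (T.h (P (nat_lit 0)) (T.h (T.h (P (nat_lit 0)) (M (nat_lit 10507490652427))) (P (nat_lit 0)))) (T.h (T.h (T.h (P (nat_lit 968873386592)) (T.h (P (nat_lit 0)) (P (nat_lit 192110734914860)))) (T.h (P (nat_lit 0)) (P (nat_lit 38815009774276)))) (T.h (P (nat_lit 0)) (P (nat_lit 40450535734404))))))) (P (nat_lit 0)))))) en02_14))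
def en02_16 : T ℤ := (T.h (T.h (T.h (T.h (T.h (P (nat_lit 0)) (T.h (M (nat_lit 5818779687)) (T.h (P (nat_lit 0)) (T.h (P (nat_lit 111918529976)) (T.h (P (nat_lit 0)) (M (nat_lit 746165303367))))))) (T.h (P (nat_lit 0)) (T.h (T.h (P (nat_lit 0)) (T.h (P (nat_lit 136752197976)) (T.h (P (nat_lit 0)) (M (nat_lit 544651002403))))) (T.h (P (nat_lit 0)) (T.h (T.h (P (nat_lit 0)) (M (nat_lit 1965295977335))) (P (nat_lit 0))))))) (T.h (T.h (P (nat_lit 0)) (T.h (T.h (P (nat_lit 59370004224)) (T.h (P (nat_lit 0)) (T.h (M (nat_lit 113423349831)) (T.h (P (nat_lit 0)) (M (nat_lit 11748053017755)))))) (T.h (P (nat_lit 0)) (T.h (T.h (P (nat_lit 997336391000)) (T.h (P (nat_lit 0)) (P (nat_lit 18837469325696)))) (T.h (P (nat_lit 0)) (P (nat_lit 19374796869996))))))) (T.h (T.h (T.h (P (nat_lit 0)) (T.h (P (nat_lit 101834321512)) (T.h (P (nat_lit 0)) (P (nat_lit 2791495970168))))) (T.h (P (nat_lit 0)) (T.h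 (T.h (P (nat_lit 0)) (P (nat_lit 4689473092436))) (P (nat_lit 0))))) (T.h (T.h (P (nat_lit 0)) (T.h (T.h (M (nat_lit 472963950723)) (T.h (P (nat_lit 0)) (M (nat_lit 107103998288495)))) (T.h (P (nat_lit 0)) (M (nat_lit 10398227895799))))) (T.h (T.h (T.h (P (nat_lit 0)) (P (nat_lit 329125048324))) (P (nat_lit 0))) (T.h (T.h (P (nat_lit 0)) (P (nat_lit 39953940921396))) (P (nat_lit 0)))))))) (T.h (P (nat_lit 0)) (T.h (T.h (T.h (T.h (P (nat_lit 0)) (T.h (M (nat_lit 49602967811)) (T.h (P (nat_lit 0)) (T.h (P (nat_lit 533254644588)) (T.h (P (nat_lit 0)) (M (nat_lit 7878450778071))))))) (T.h (P (nat_lit 0)) (T.h (T.h (P (nat_lit 0)) (T.h (P (nat_lit 585305759096)) (T.h (P (nat_lit 0)) (M (nat_lit 3318530130175))))) (T.h (P (nat_lit 0)) (T.h (T.h (P (nat_lit 0)) (M (nat_lit 3862915591095))) (P (nat_lit 0))))))) (T.h (T.h (P (nat_lit 0)) (T.h (T.h (P (nat_lit 278454202336)) (T.h (P (nat_lit 0)) (P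 (nat_lit 4751814619348)))) (T.h (P (nat_lit 0)) (M (nat_lit 6045739525819))))) (T.h (T.h (T.h (P (nat_lit 0)) (T.h (M (nat_lit 6489555327507)) (T.h (P (nat_lit 0)) (P (nat_lit 1878608166788))))) (T.h (P (nat_lit 0)) (T.h (T.h (P (nat_lit 0)) (P (nat_lit 109539271842884))) (P (nat_lit 0))))) (T.h (T.h (P (nat_lit 0)) (P (nat_lit 737723580312))) (T.h (T.h (T.h (P (nat_lit 0)) (M (nat_lit 190421778308003))) (P (nat_lit 0))) (P (nat_lit 0))))))) (P (nat_lit 0))))) (T.h (T.h (P (nat_lit 0)) (T.h (T.h (T.h (P (nat_lit 0)) (T.h (T.h (P (nat_lit 1166739240)) (T.h (P (nat_lit 0)) (T.h (M (nat_lit 128298079935)) (T.h (P (nat_lit 0)) (P (nat_lit 2669805010840)))))) (T.h (P (nat_lit 0)) (T.h (T.h (M (nat_lit 10718175123)) (T.h (P (nat_lit 0)) (P (nat_lit 7754657964164)))) (T.h (P (nat_lit 0)) (M (nat_lit 2898727080299))))))) (T.h (T.h (T.h (P (nat_lit 0)) (T.h (M (nat_lit 89213461727)) (T.h (P (nat_lit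 0)) (M (nat_lit 567576472871))))) (T.h (P (nat_lit 0)) (T.h (T.h (P (nat_lit 0)) (P (nat_lit 1640836313424))) (P (nat_lit 0))))) (T.h (T.h (P (nat_lit 0)) (T.h (T.h (M (nat_lit 2752517447383)) (T.h (P (nat_lit 0)) (M (nat_lit 5150885108627)))) (T.h (P (nat_lit 0)) (P (nat_lit 35503756803424))))) (T.h (T.h (T.h (P (nat_lit 0)) (M (nat_lit 7025887547439))) (P (nat_lit 0))) (T.h (T.h (P (nat_lit 0)) (P (nat_lit 70702012340360))) (P (nat_lit 0))))))) (P (nat_lit 0)))) (T.h (T.h (T.h (T.h (T.h (P (nat_lit 0)) (T.h (M (nat_lit 12637809087)) (T.h (P (nat_lit 0)) (T.h (P (nat_lit 175760738992)) (T.h (P (nat_lit 0)) (M (nat_lit 4921555229035))))))) (T.h (P (nat_lit 0)) (T.h (T.h (P (nat_lit 0)) (T.h (P (nat_lit 1006114656748)) (T.h (P (nat_lit 0)) (M (nat_lit 16598514239939))))) (T.h (P (nat_lit 0)) (T.h (T.h (P (nat_lit 0)) (P (nat_lit 1409025614100))) (P (nat_lit 0))))))) (T.h (T.h (P (nat_lit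 0)) (T.h (T.h (M (nat_lit 215643071519)) (T.h (P (nat_lit 0)) (P (nat_lit 18063741031412)))) (T.h (P (nat_lit 0)) (M (nat_lit 5761264082859))))) (T.h (T.h (T.h (P (nat_lit 0)) (T.h (M (nat_lit 665916466427)) (T.h (P (nat_lit 0)) (M (nat_lit 13897364486771))))) (T.h (P (nat_lit 0)) (T.h (T.h (P (nat_lit 0)) (M (nat_lit 19191745436711))) (P (nat_lit 0))))) (T.h (T.h (P (nat_lit 0)) (M (nat_lit 19044235048075))) (T.h (T.h (T.h (P (nat_lit 0)) (P (nat_lit 16533164305776))) (P (nat_lit 0))) (P (nat_lit 0))))))) (P (nat_lit 0))) (P (nat_lit 0)))))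
def en02_17 : T ℤ := (T.h (T.h (P (nat_lit 0)) (T.h (P (nat_lit 0)) (T.h (T.h (T.h (T.h (P (nat_lit 0)) (T.h (M (nat_lit 1305000443)) (T.h (P (nat_lit 0)) (T.h (P (nat_lit 42798739116)) (T.h (P (nat_lit 0)) (M (nat_lit 1301155564691))))))) (T.h (P (nat_lit 0)) (T.h (T.h (P (nat_lit 0)) (T.h (M (nat_lit 31319027087)) (T.h (P (nat_lit 0)) (P (nat_lit 36916614144))))) (T.h (P (nat_lit 0)) (T.h (T.h (P (nat_lit 0)) (M (nat_lit 99654869735))) (P (nat_lit 0))))))) (T.h (T.h (P (nat_lit 0)) (T.h (T.h (M (nat_lit 24277904903)) (T.h (P (nat_lit 0)) (T.h (M (nat_lit 66915063947)) (T.h (P (nat_lit 0)) (P (nat_lit 34515217753896)))))) (T.h (P (nat_lit 0)) (T.h (T.h (P (nat_lit 13837846788)) (T.h (P (nat_lit 0)) (P (nat_lit 27053558206548)))) (T.h (P (nat_lit 0)) (P (nat_lit 3725012976204))))))) (T.h (T.h (T.h (P (nat_lit 0)) (T.h (M (nat_lit 94663475087)) (T.h (P (nat_lit 0)) (P (nat_lit 8433228657216)))))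 (T.h (P (nat_lit 0)) (T.h (T.h (P (nat_lit 0)) (P (nat_lit 8982642968136))) (P (nat_lit 0))))) (T.h (T.h (P (nat_lit 0)) (T.h (T.h (M (nat_lit 936421865615)) (T.h (P (nat_lit 0)) (M (nat_lit 92651275422371)))) (T.h (P (nat_lit 0)) (P (nat_lit 42174445927236))))) (T.h (T.h (T.h (P (nat_lit 0)) (P (nat_lit 28944506156004))) (P (nat_lit 0))) (T.h (T.h (P (nat_lit 0)) (M (nat_lit 43264393809971))) (P (nat_lit 0)))))))) (T.h (P (nat_lit 0)) (T.h (T.h (T.h (T.h (P (nat_lit 0)) (T.h (M (nat_lit 14931964099)) (T.h (P (nat_lit 0)) (T.h (M (nat_lit 116882246135)) (T.h (P (nat_lit 0)) (M (nat_lit 6458299934355))))))) (T.h (P (nat_lit 0)) (T.h (T.h (P (nat_lit 0)) (T.h (M (nat_lit 101742845383)) (T.h (P (nat_lit 0)) (P (nat_lit 15315161137328))))) (T.h (P (nat_lit 0)) (T.h (T.h (P (nat_lit 0)) (M (nat_lit 3279368685251))) (P (nat_lit 0))))))) (T.h (T.h (P (nat_lit 0)) (T.h (T.h (M (nat_lit 37076642687))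 (T.h (P (nat_lit 0)) (P (nat_lit 7892355880508)))) (T.h (P (nat_lit 0)) (P (nat_lit 381160731356))))) (T.h (T.h (T.h (P (nat_lit 0)) (T.h (P (nat_lit 2928379966612)) (T.h (P (nat_lit 0)) (M (nat_lit 50869300007635))))) (T.h (P (nat_lit 0)) (T.h (T.h (P (nat_lit 0)) (M (nat_lit 13689782980211))) (P (nat_lit 0))))) (T.h (T.h (P (nat_lit 0)) (M (nat_lit 2312095567755))) (T.h (T.h (T.h (P (nat_lit 0)) (M (nat_lit 37291344774807))) (P (nat_lit 0))) (P (nat_lit 0))))))) (P (nat_lit 0))))))) (T.h (T.h (P (nat_lit 0)) (T.h (T.h (T.h (P (nat_lit 0)) (T.h (T.h (M (nat_lit 2798907991)) (T.h (P (nat_lit 0)) (T.h (P (nat_lit 2420857560)) (T.h (P (nat_lit 0)) (P (nat_lit 323318543424)))))) (T.h (P (nat_lit 0)) (T.h (T.h (P (nat_lit 206088831688)) (T.h (P (nat_lit 0)) (P (nat_lit 2521196088056)))) (T.h (P (nat_lit 0)) (P (nat_lit 288535795264))))))) (T.h (T.h (T.h (P (nat_lit 0)) (T.h (M (nat_lit 7337415911))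 (T.h (P (nat_lit 0)) (T.h (P (nat_lit 594158354248)) (T.h (P (nat_lit 0)) (M (nat_lit 6531970437959))))))) (T.h (P (nat_lit 0)) (T.h (T.h (P (nat_lit 0)) (T.h (M (nat_lit 1445517488719)) (T.h (P (nat_lit 0)) (M (nat_lit 7619890950151))))) (T.h (P (nat_lit 0)) (T.h (T.h (P (nat_lit 0)) (P (nat_lit 25930569204160))) (P (nat_lit 0))))))) (T.h (T.h (P (nat_lit 0)) (T.h (T.h (M (nat_lit 98862320439)) (T.h (P (nat_lit 0)) (P (nat_lit 10130299250128)))) (T.h (P (nat_lit 0)) (P (nat_lit 11559032915128))))) (T.h (T.h (T.h (P (nat_lit 0)) (T.h (M (nat_lit 3724737720679)) (T.h (P (nat_lit 0)) (P (nat_lit 96525525163688))))) (T.h (P (nat_lit 0)) (T.h (T.h (P (nat_lit 0)) (P (nat_lit 138360560931312))) (P (nat_lit 0))))) (T.h (T.h (P (nat_lit 0)) (M (nat_lit 5460358760055))) (T.h (T.h (T.h (P (nat_lit 0)) (P (nat_lit 78987889602912))) (P (nat_lit 0))) (P (nat_lit 0)))))))) (T.h (P (nat_lit 0)) (T.h (T.h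 (T.h (P (nat_lit 0)) (T.h (T.h (P (nat_lit 1603055704)) (T.h (P (nat_lit 0)) (T.h (P (nat_lit 56095217084)) (T.h (P (nat_lit 0)) (P (nat_lit 1900669731976)))))) (T.h (P (nat_lit 0)) (T.h (T.h (P (nat_lit 65398510292)) (T.h (P (nat_lit 0)) (M (nat_lit 5110012795695)))) (T.h (P (nat_lit 0)) (M (nat_lit 288049075519))))))) (T.h (T.h (T.h (P (nat_lit 0)) (T.h (M (nat_lit 198509434503)) (T.h (P (nat_lit 0)) (M (nat_lit 1281759329935))))) (T.h (P (nat_lit 0)) (T.h (T.h (P (nat_lit 0)) (P (nat_lit 3149456640840))) (P (nat_lit 0))))) (T.h (T.h (P (nat_lit 0)) (T.h (T.h (P (nat_lit 601659608656)) (T.h (P (nat_lit 0)) (P (nat_lit 7536272169276)))) (T.h (P (nat_lit 0)) (M (nat_lit 11584982914139))))) (T.h (T.h (T.h (P (nat_lit 0)) (P (nat_lit 10648703055344))) (P (nat_lit 0))) (T.h (T.h (P (nat_lit 0)) (P (nat_lit 3255682247580))) (P (nat_lit 0))))))) (P (nat_lit 0)))))) en02_16))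
def en02_18 : T ℤ := (T.h (T.h (T.h (T.h (T.h (P (nat_lit 144638620)) (T.h (P (nat_lit 0)) (T.h (P (nat_lit 2282677368)) (T.h (P (nat_lit 0)) (T.h (M (nat_lit 18217305307)) (T.h (P (nat_lit 0)) (P (nat_lit 1431203408032)))))))) (T.h (P (nat_lit 0)) (T.h (T.h (P (nat_lit 2037192352)) (T.h (P (nat_lit 0)) (T.h (P (nat_lit 100635033928)) (T.h (P (nat_lit 0)) (P (nat_lit 6985975518264)))))) (T.h (P (nat_lit 0)) (T.h (T.h (M (nat_lit 463445082791)) (T.h (P (nat_lit 0)) (P (nat_lit 5228209512688)))) (T.h (P (nat_lit 0)) (P (nat_lit 4819099166272)))))))) (T.h (T.h (P (nat_lit 0)) (T.h (T.h (P (nat_lit 0)) (T.h (P (nat_lit 90957439516)) (T.h (P (nat_lit 0)) (P (nat_lit 576240162212))))) (T.h (P (nat_lit 0)) (T.h (T.h (P (nat_lit 0)) (M (nat_lit 3568987342079))) (P (nat_lit 0)))))) (T.h (T.h (T.h (P (nat_lit 63900426648)) (T.h (P (nat_lit 0)) (T.h (P (nat_lit 210250810116)) (T.h (P (nat_lit 0)) (P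 (nat_lit 15211633480332)))))) (T.h (P (nat_lit 0)) (T.h (T.h (P (nat_lit 1616221130920)) (T.h (P (nat_lit 0)) (P (nat_lit 17213621097580)))) (T.h (P (nat_lit 0)) (M (nat_lit 27457629760775)))))) (T.h (T.h (P (nat_lit 0)) (T.h (T.h (P (nat_lit 0)) (M (nat_lit 17192729917807))) (P (nat_lit 0)))) (T.h (T.h (T.h (P (nat_lit 1647164224904)) (T.h (P (nat_lit 0)) (P (nat_lit 170655628631404)))) (T.h (P (nat_lit 0)) (M (nat_lit 131776305118275)))) (T.h (P (nat_lit 0)) (P (nat_lit 60610872340220)))))))) (T.h (P (nat_lit 0)) (T.h (T.h (T.h (T.h (P (nat_lit 495918776)) (T.h (P (nat_lit 0)) (T.h (M (nat_lit 74635150459)) (T.h (P (nat_lit 0)) (P (nat_lit 1906646165656)))))) (T.h (P (nat_lit 0)) (T.h (T.h (P (nat_lit 16871430868)) (T.h (P (nat_lit 0)) (P (nat_lit 571528489296)))) (T.h (P (nat_lit 0)) (P (nat_lit 231283819848)))))) (T.h (T.h (P (nat_lit 0)) (T.h (T.h (P (nat_lit 0)) (T.h (M (nat_lit 48432577559))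 (T.h (P (nat_lit 0)) (P (nat_lit 1799763143016))))) (T.h (P (nat_lit 0)) (T.h (T.h (P (nat_lit 0)) (P (nat_lit 7538256923696))) (P (nat_lit 0)))))) (T.h (T.h (T.h (P (nat_lit 74556470028)) (T.h (P (nat_lit 0)) (P (nat_lit 1155406398876)))) (T.h (P (nat_lit 0)) (P (nat_lit 2926642121108)))) (T.h (T.h (P (nat_lit 0)) (T.h (T.h (P (nat_lit 0)) (M (nat_lit 68794420230959))) (P (nat_lit 0)))) (M (nat_lit 16678207139479)))))) (P (nat_lit 0))))) (T.h (T.h (P (nat_lit 0)) (T.h (T.h (T.h (P (nat_lit 0)) (T.h (T.h (P (nat_lit 0)) (T.h (P (nat_lit 8105074916)) (T.h (P (nat_lit 0)) (M (nat_lit 190790229707))))) (T.h (P (nat_lit 0)) (T.h (T.h (P (nat_lit 0)) (P (nat_lit 481426543912))) (P (nat_lit 0)))))) (T.h (T.h (T.h (P (nat_lit 10248972392)) (T.h (P (nat_lit 0)) (T.h (P (nat_lit 160834000716)) (T.h (P (nat_lit 0)) (M (nat_lit 12127495777411)))))) (T.h (P (nat_lit 0)) (T.h (T.h (P (nat_lit 323270833200))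 (T.h (P (nat_lit 0)) (M (nat_lit 6251380119595)))) (T.h (P (nat_lit 0)) (M (nat_lit 7649333276643)))))) (T.h (T.h (P (nat_lit 0)) (T.h (T.h (P (nat_lit 0)) (M (nat_lit 5382434792695))) (P (nat_lit 0)))) (T.h (T.h (T.h (M (nat_lit 295501349471)) (T.h (P (nat_lit 0)) (P (nat_lit 47668392319720)))) (T.h (P (nat_lit 0)) (P (nat_lit 117983269915400)))) (T.h (P (nat_lit 0)) (P (nat_lit 44549448138288))))))) (P (nat_lit 0)))) (T.h (T.h (T.h (T.h (T.h (P (nat_lit 1098110332)) (T.h (P (nat_lit 0)) (T.h (M (nat_lit 23738483203)) (T.h (P (nat_lit 0)) (P (nat_lit 55537155988)))))) (T.h (P (nat_lit 0)) (T.h (T.h (M (nat_lit 24122255951)) (T.h (P (nat_lit 0)) (P (nat_lit 57304646136)))) (T.h (P (nat_lit 0)) (P (nat_lit 497365684532)))))) (T.h (T.h (P (nat_lit 0)) (T.h (T.h (P (nat_lit 0)) (T.h (M (nat_lit 1081459195607)) (T.h (P (nat_lit 0)) (M (nat_lit 7313974467223))))) (T.h (P (nat_lit 0)) (T.h (T.h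 (P (nat_lit 0)) (M (nat_lit 633245747439))) (P (nat_lit 0)))))) (T.h (T.h (T.h (M (nat_lit 18166800223)) (T.h (P (nat_lit 0)) (M (nat_lit 6059195227067)))) (T.h (P (nat_lit 0)) (M (nat_lit 7854767978739)))) (T.h (T.h (P (nat_lit 0)) (T.h (T.h (P (nat_lit 0)) (P (nat_lit 265072572958904))) (P (nat_lit 0)))) (P (nat_lit 21549719256152)))))) (P (nat_lit 0))) (P (nat_lit 0)))))
def en02_19 : T ℤ := (T.h (T.h (T.h (T.h (T.h (P (nat_lit 0)) (T.h (M (nat_lit 3233805255)) (T.h (P (nat_lit 0)) (T.h (M (nat_lit 936259695)) (T.h (P (nat_lit 0)) (M (nat_lit 203630317611))))))) (T.h (P (nat_lit 0)) (T.h (T.h (P (nat_lit 0)) (T.h (P (nat_lit 15425228864)) (T.h (P (nat_lit 0)) (M (nat_lit 614349659639))))) (T.h (P (nat_lit 0)) (T.h (T.h (P (nat_lit 0)) (P (nat_lit 752759530976))) (P (nat_lit 0))))))) (T.h (T.h (P (nat_lit 0)) (T.h (T.h (P (nat_lit 3986925188)) (T.h (P (nat_lit 0)) (T.h (M (nat_lit 406884346731))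 (T.h (P (nat_lit 0)) (M (nat_lit 451290786659)))))) (T.h (P (nat_lit 0)) (T.h (T.h (P (nat_lit 110057042900)) (T.h (P (nat_lit 0)) (P (nat_lit 7510908401912)))) (T.h (P (nat_lit 0)) (P (nat_lit 1353546586752))))))) (T.h (T.h (T.h (P (nat_lit 0)) (T.h (M (nat_lit 58920942067)) (T.h (P (nat_lit 0)) (M (nat_lit 3322630785731))))) (T.h (P (nat_lit 0)) (T.h (T.h (P (nat_lit 0)) (M (nat_lit 6948013142635))) (P (nat_lit 0))))) (T.h (T.h (P (nat_lit 0)) (T.h (T.h (P (nat_lit 484379924628)) (T.h (P (nat_lit 0)) (P (nat_lit 8980370448672)))) (T.h (P (nat_lit 0)) (M (nat_lit 16442637161731))))) (T.h (T.h (T.h (P (nat_lit 0)) (M (nat_lit 1414205285787))) (P (nat_lit 0))) (T.h (T.h (P (nat_lit 0)) (P (nat_lit 236137228060784))) (P (nat_lit 0)))))))) (T.h (P (nat_lit 0)) (T.h (T.h (T.h (T.h (P (nat_lit 0)) (T.h (M (nat_lit 1883342675)) (T.h (P (nat_lit 0)) (T.h (P (nat_lit 27518509044)) (T.h (P (nat_lit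 0)) (M (nat_lit 440719703819))))))) (T.h (P (nat_lit 0)) (T.h (T.h (P (nat_lit 0)) (T.h (P (nat_lit 39946365696)) (T.h (P (nat_lit 0)) (M (nat_lit 4499725518663))))) (T.h (P (nat_lit 0)) (T.h (T.h (P (nat_lit 0)) (M (nat_lit 2542354914451))) (P (nat_lit 0))))))) (T.h (T.h (P (nat_lit 0)) (T.h (T.h (M (nat_lit 70679958439)) (T.h (P (nat_lit 0)) (M (nat_lit 837742534115)))) (T.h (P (nat_lit 0)) (M (nat_lit 1232196162327))))) (T.h (T.h (T.h (P (nat_lit 0)) (T.h (M (nat_lit 508445939783)) (T.h (P (nat_lit 0)) (P (nat_lit 6498930176764))))) (T.h (P (nat_lit 0)) (T.h (T.h (P (nat_lit 0)) (M (nat_lit 2987460534187))) (P (nat_lit 0))))) (T.h (T.h (P (nat_lit 0)) (M (nat_lit 880225691459))) (T.h (T.h (T.h (P (nat_lit 0)) (M (nat_lit 48035127336631))) (P (nat_lit 0))) (P (nat_lit 0))))))) (P (nat_lit 0))))) (T.h (T.h (P (nat_lit 0)) (T.h (T.h (T.h (P (nat_lit 0)) (T.h (T.h (P (nat_lit 1893834336))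 (T.h (P (nat_lit 0)) (T.h (P (nat_lit 33163883436)) (T.h (P (nat_lit 0)) (M (nat_lit 3233645733267)))))) (T.h (P (nat_lit 0)) (T.h (T.h (M (nat_lit 75014111371)) (T.h (P (nat_lit 0)) (P (nat_lit 1298284240848)))) (T.h (P (nat_lit 0)) (P (nat_lit 28372267428))))))) (T.h (T.h (T.h (P (nat_lit 0)) (T.h (P (nat_lit 22590091072)) (T.h (P (nat_lit 0)) (P (nat_lit 277116356216))))) (T.h (P (nat_lit 0)) (T.h (T.h (P (nat_lit 0)) (M (nat_lit 261662955903))) (P (nat_lit 0))))) (T.h (T.h (P (nat_lit 0)) (T.h (T.h (M (nat_lit 100043668067)) (T.h (P (nat_lit 0)) (P (nat_lit 17593278630036)))) (T.h (P (nat_lit 0)) (M (nat_lit 11580615882715))))) (T.h (T.h (T.h (P (nat_lit 0)) (M (nat_lit 19672280045111))) (P (nat_lit 0))) (T.h (T.h (P (nat_lit 0)) (P (nat_lit 60942220370692))) (P (nat_lit 0))))))) (P (nat_lit 0)))) (T.h (T.h (T.h (T.h (T.h (P (nat_lit 0)) (T.h (P (nat_lit 789667528)) (T.h (P (nat_lit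 0)) (T.h (M (nat_lit 51103897883)) (T.h (P (nat_lit 0)) (P (nat_lit 1392194097780))))))) (T.h (P (nat_lit 0)) (T.h (T.h (P (nat_lit 0)) (T.h (M (nat_lit 36360786943)) (T.h (P (nat_lit 0)) (M (nat_lit 3012477800579))))) (T.h (P (nat_lit 0)) (T.h (T.h (P (nat_lit 0)) (M (nat_lit 595005145707))) (P (nat_lit 0))))))) (T.h (T.h (P (nat_lit 0)) (T.h (T.h (P (nat_lit 58639829144)) (T.h (P (nat_lit 0)) (M (nat_lit 402777737231)))) (T.h (P (nat_lit 0)) (M (nat_lit 2321350050427))))) (T.h (T.h (T.h (P (nat_lit 0)) (T.h (P (nat_lit 1828361781608)) (T.h (P (nat_lit 0)) (P (nat_lit 12102135948632))))) (T.h (P (nat_lit 0)) (T.h (T.h (P (nat_lit 0)) (M (nat_lit 300985482823))) (P (nat_lit 0))))) (T.h (T.h (P (nat_lit 0)) (M (nat_lit 7094064442227))) (T.h (T.h (T.h (P (nat_lit 0)) (M (nat_lit 58551855740967))) (P (nat_lit 0))) (P (nat_lit 0))))))) (P (nat_lit 0))) (P (nat_lit 0)))))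
def en02_20 : T ℤ := (T.h (T.h (T.h (P (nat_lit 0)) (T.h (T.h (T.h (P (nat_lit 0)) (T.h (T.h (P (nat_lit 0)) (T.h (P (nat_lit 503977964)) (T.h (P (nat_lit 0)) (T.h (P (nat_lit 19328639740)) (T.h (P (nat_lit 0)) (P (nat_lit 5951120602280))))))) (T.h (P (nat_lit 0)) (T.h (T.h (P (nat_lit 0)) (T.h (M (nat_lit 209019407067)) (T.h (P (nat_lit 0)) (P (nat_lit 9907207089464))))) (T.h (P (nat_lit 0)) (T.h (T.h (P (nat_lit 0)) (P (nat_lit 2360669903788))) (P (nat_lit 0)))))))) (T.h (T.h (T.h (P (nat_lit 2565001128)) (T.h (P (nat_lit 0)) (T.h (P (nat_lit 17689139424)) (T.h (P (nat_lit 0)) (P (nat_lit 275781282876)))))) (T.h (P (nat_lit 0)) (T.h (T.h (P (nat_lit 15693275576)) (T.h (P (nat_lit 0)) (P (nat_lit 2026357018804)))) (T.h (P (nat_lit 0)) (P (nat_lit 519821447248)))))) (T.h (T.h (P (nat_lit 0)) (T.h (T.h (P (nat_lit 0)) (T.h (M (nat_lit 451422558055)) (T.h (P (nat_lit 0)) (M (nat_lit 21346521672843)))))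 (T.h (P (nat_lit 0)) (T.h (T.h (P (nat_lit 0)) (M (nat_lit 11768723258523))) (P (nat_lit 0)))))) (T.h (T.h (T.h (M (nat_lit 176015020827)) (T.h (P (nat_lit 0)) (M (nat_lit 6573827261959)))) (T.h (P (nat_lit 0)) (M (nat_lit 6508435424991)))) (T.h (T.h (P (nat_lit 0)) (T.h (T.h (P (nat_lit 0)) (M (nat_lit 7632805553587))) (P (nat_lit 0)))) (M (nat_lit 11047667103899))))))) (T.h (P (nat_lit 0)) (T.h (T.h (T.h (P (nat_lit 0)) (T.h (T.h (P (nat_lit 0)) (T.h (P (nat_lit 5776553456)) (T.h (P (nat_lit 0)) (M (nat_lit 436643749291))))) (T.h (P (nat_lit 0)) (T.h (T.h (P (nat_lit 0)) (P (nat_lit 1516171547548))) (P (nat_lit 0)))))) (T.h (T.h (T.h (M (nat_lit 14732721695)) (T.h (P (nat_lit 0)) (T.h (P (nat_lit 90017135656)) (T.h (P (nat_lit 0)) (P (nat_lit 13379901392920)))))) (T.h (P (nat_lit 0)) (T.h (T.h (P (nat_lit 456192786564)) (T.h (P (nat_lit 0)) (M (nat_lit 13105328688771)))) (T.h (P (nat_lit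 0)) (P (nat_lit 4100220944900)))))) (T.h (T.h (P (nat_lit 0)) (T.h (T.h (P (nat_lit 0)) (M (nat_lit 5379419962879))) (P (nat_lit 0)))) (T.h (T.h (T.h (P (nat_lit 1873836616232)) (T.h (P (nat_lit 0)) (M (nat_lit 188535268557567)))) (T.h (P (nat_lit 0)) (M (nat_lit 21799666714019)))) (T.h (P (nat_lit 0)) (M (nat_lit 84545599334051))))))) (P (nat_lit 0)))))) en02_18) (T.h en02_19 (T.h (T.h (T.h (P (nat_lit 0)) (T.h (T.h (T.h (P (nat_lit 0)) (T.h (T.h (P (nat_lit 0)) (T.h (P (nat_lit 664979412)) (T.h (P (nat_lit 0)) (P (nat_lit 146421595404))))) (T.h (P (nat_lit 0)) (T.h (T.h (P (nat_lit 0)) (M (nat_lit 199798649703))) (P (nat_lit 0)))))) (T.h (T.h (T.h (M (nat_lit 2178963283)) (T.h (P (nat_lit 0)) (T.h (M (nat_lit 246630300435)) (T.h (P (nat_lit 0)) (P (nat_lit 5528421391636)))))) (T.h (P (nat_lit 0)) (T.h (T.h (P (nat_lit 45269852868)) (T.h (P (nat_lit 0)) (P (nat_lit 3597022636364)))) (T.h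 (P (nat_lit 0)) (M (nat_lit 1862334828723)))))) (T.h (T.h (P (nat_lit 0)) (T.h (T.h (P (nat_lit 0)) (P (nat_lit 1426480607980))) (P (nat_lit 0)))) (T.h (T.h (T.h (P (nat_lit 319441249460)) (T.h (P (nat_lit 0)) (P (nat_lit 11902614181188)))) (T.h (P (nat_lit 0)) (P (nat_lit 7501205362844)))) (T.h (P (nat_lit 0)) (M (nat_lit 4658843516395))))))) (P (nat_lit 0)))) (T.h (T.h (T.h (T.h (T.h (M (nat_lit 148892691)) (T.h (P (nat_lit 0)) (T.h (M (nat_lit 2850866691)) (T.h (P (nat_lit 0)) (P (nat_lit 26900256)))))) (T.h (P (nat_lit 0)) (T.h (T.h (P (nat_lit 5350760708)) (T.h (P (nat_lit 0)) (M (nat_lit 134735572035)))) (T.h (P (nat_lit 0)) (M (nat_lit 121415819627)))))) (T.h (T.h (P (nat_lit 0)) (T.h (T.h (P (nat_lit 0)) (T.h (P (nat_lit 211543475184)) (T.h (P (nat_lit 0)) (M (nat_lit 2373776552503))))) (T.h (P (nat_lit 0)) (T.h (T.h (P (nat_lit 0)) (M (nat_lit 1233515066839))) (P (nat_lit 0))))))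 (T.h (T.h (T.h (P (nat_lit 34129908436)) (T.h (P (nat_lit 0)) (P (nat_lit 177944797668)))) (T.h (P (nat_lit 0)) (P (nat_lit 1930295361416)))) (T.h (T.h (P (nat_lit 0)) (T.h (T.h (P (nat_lit 0)) (M (nat_lit 46054260471335))) (P (nat_lit 0)))) (M (nat_lit 4304849521123)))))) (P (nat_lit 0))) (P (nat_lit 0)))) (T.h (T.h (T.h (T.h (T.h (T.h (P (nat_lit 0)) (T.h (P (nat_lit 1290776708)) (T.h (P (nat_lit 0)) (T.h (M (nat_lit 6375095123)) (T.h (P (nat_lit 0)) (M (nat_lit 86872215459))))))) (T.h (P (nat_lit 0)) (T.h (T.h (P (nat_lit 0)) (T.h (P (nat_lit 28576706876)) (T.h (P (nat_lit 0)) (P (nat_lit 336056777872))))) (T.h (P (nat_lit 0)) (T.h (T.h (P (nat_lit 0)) (P (nat_lit 390612178580))) (P (nat_lit 0))))))) (T.h (T.h (P (nat_lit 0)) (T.h (T.h (P (nat_lit 931484088)) (T.h (P (nat_lit 0)) (P (nat_lit 506005274956)))) (T.h (P (nat_lit 0)) (P (nat_lit 521238952612))))) (T.h (T.h (T.h (P (nat_lit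 0)) (T.h (M (nat_lit 55133896155)) (T.h (P (nat_lit 0)) (M (nat_lit 1533020941271))))) (T.h (P (nat_lit 0)) (T.h (T.h (P (nat_lit 0)) (M (nat_lit 3590437256495))) (P (nat_lit 0))))) (T.h (T.h (P (nat_lit 0)) (M (nat_lit 2665675955663))) (T.h (T.h (T.h (P (nat_lit 0)) (M (nat_lit 38087551144951))) (P (nat_lit 0))) (P (nat_lit 0))))))) (P (nat_lit 0))) (P (nat_lit 0))) (P (nat_lit 0))))))
def en02_21 : T ℤ := (T.h (T.h (T.h (P (nat_lit 0)) (T.h (P (nat_lit 0)) (T.h (P (nat_lit 0)) (T.h (P (nat_lit 0)) (T.h (P (nat_lit 0)) (T.h (T.h (T.h (P (nat_lit 0)) (T.h (T.h (P (nat_lit 0)) (T.h (M (nat_lit 24277904903)) (T.h (P (nat_lit 0)) (T.h (M (nat_lit 936421865615)) (T.h (P (nat_lit 0)) (M (nat_lit 43264393809971))))))) (T.h (P (nat_lit 0)) (T.h (T.h (P (nat_lit 0)) (T.h (P (nat_lit 13837846788)) (T.h (P (nat_lit 0)) (P (nat_lit 42174445927236))))) (T.h (P (nat_lit 0)) (T.h (T.h (P (nat_lit 0))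 (P (nat_lit 3725012976204))) (P (nat_lit 0)))))))) (T.h (T.h (T.h (M (nat_lit 1305000443)) (T.h (P (nat_lit 0)) (T.h (M (nat_lit 94663475087)) (T.h (P (nat_lit 0)) (P (nat_lit 28944506156004)))))) (T.h (P (nat_lit 0)) (T.h (T.h (M (nat_lit 31319027087)) (T.h (P (nat_lit 0)) (P (nat_lit 8982642968136)))) (T.h (P (nat_lit 0)) (M (nat_lit 99654869735)))))) (T.h (T.h (P (nat_lit 0)) (T.h (T.h (P (nat_lit 0)) (T.h (M (nat_lit 66915063947)) (T.h (P (nat_lit 0)) (M (nat_lit 92651275422371))))) (T.h (P (nat_lit 0)) (T.h (T.h (P (nat_lit 0)) (P (nat_lit 27053558206548))) (P (nat_lit 0)))))) (T.h (T.h (T.h (P (nat_lit 42798739116)) (T.h (P (nat_lit 0)) (P (nat_lit 8433228657216)))) (T.h (P (nat_lit 0)) (P (nat_lit 36916614144)))) (T.h (T.h (P (nat_lit 0)) (T.h (T.h (P (nat_lit 0)) (P (nat_lit 34515217753896))) (P (nat_lit 0)))) (M (nat_lit 1301155564691))))))) (T.h (P (nat_lit 0)) (T.h (T.h (T.h (P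 (nat_lit 0)) (T.h (T.h (P (nat_lit 0)) (T.h (M (nat_lit 70679958439)) (T.h (P (nat_lit 0)) (M (nat_lit 880225691459))))) (T.h (P (nat_lit 0)) (T.h (T.h (P (nat_lit 0)) (M (nat_lit 1232196162327))) (P (nat_lit 0)))))) (T.h (T.h (T.h (M (nat_lit 1883342675)) (T.h (P (nat_lit 0)) (T.h (M (nat_lit 508445939783)) (T.h (P (nat_lit 0)) (M (nat_lit 48035127336631)))))) (T.h (P (nat_lit 0)) (T.h (T.h (P (nat_lit 39946365696)) (T.h (P (nat_lit 0)) (M (nat_lit 2987460534187)))) (T.h (P (nat_lit 0)) (M (nat_lit 2542354914451)))))) (T.h (T.h (P (nat_lit 0)) (T.h (T.h (P (nat_lit 0)) (M (nat_lit 837742534115))) (P (nat_lit 0)))) (T.h (T.h (T.h (P (nat_lit 27518509044)) (T.h (P (nat_lit 0)) (P (nat_lit 6498930176764)))) (T.h (P (nat_lit 0)) (M (nat_lit 4499725518663)))) (T.h (P (nat_lit 0)) (M (nat_lit 440719703819))))))) (P (nat_lit 0)))))))))) en02_10) (T.h en02_13 (T.h (T.h (T.h (P (nat_lit 0)) (T.h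 (P (nat_lit 0)) (T.h (P (nat_lit 0)) (T.h (T.h (T.h (P (nat_lit 0)) (T.h (T.h (P (nat_lit 0)) (T.h (P (nat_lit 22571531124)) (T.h (P (nat_lit 0)) (T.h (M (nat_lit 100474731975)) (T.h (P (nat_lit 0)) (M (nat_lit 29114782488087))))))) (T.h (P (nat_lit 0)) (T.h (T.h (P (nat_lit 0)) (T.h (M (nat_lit 75702484675)) (T.h (P (nat_lit 0)) (M (nat_lit 54319284205199))))) (T.h (P (nat_lit 0)) (T.h (T.h (P (nat_lit 0)) (M (nat_lit 3517370194219))) (P (nat_lit 0)))))))) (T.h (T.h (T.h (P (nat_lit 672172624)) (T.h (P (nat_lit 0)) (T.h (M (nat_lit 63654483075)) (T.h (P (nat_lit 0)) (M (nat_lit 12028847337755)))))) (T.h (P (nat_lit 0)) (T.h (T.h (M (nat_lit 6326352819)) (T.h (P (nat_lit 0)) (M (nat_lit 10756115337847)))) (T.h (P (nat_lit 0)) (M (nat_lit 232095994223)))))) (T.h (T.h (P (nat_lit 0)) (T.h (T.h (P (nat_lit 0)) (T.h (M (nat_lit 113154421387)) (T.h (P (nat_lit 0)) (P (nat_lit 96091973915376)))))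 (T.h (P (nat_lit 0)) (T.h (T.h (P (nat_lit 0)) (M (nat_lit 1950632030067))) (P (nat_lit 0)))))) (T.h (T.h (T.h (M (nat_lit 225564240675)) (T.h (P (nat_lit 0)) (P (nat_lit 2522581200028)))) (T.h (P (nat_lit 0)) (P (nat_lit 10291858671460)))) (T.h (T.h (P (nat_lit 0)) (T.h (T.h (P (nat_lit 0)) (M (nat_lit 76758372203907))) (P (nat_lit 0)))) (P (nat_lit 2864758858364))))))) (T.h (P (nat_lit 0)) (T.h (T.h (T.h (P (nat_lit 0)) (T.h (T.h (P (nat_lit 0)) (T.h (M (nat_lit 37076642687)) (T.h (P (nat_lit 0)) (M (nat_lit 2312095567755))))) (T.h (P (nat_lit 0)) (T.h (T.h (P (nat_lit 0)) (P (nat_lit 381160731356))) (P (nat_lit 0)))))) (T.h (T.h (T.h (M (nat_lit 14931964099)) (T.h (P (nat_lit 0)) (T.h (P (nat_lit 2928379966612)) (T.h (P (nat_lit 0)) (M (nat_lit 37291344774807)))))) (T.h (P (nat_lit 0)) (T.h (T.h (M (nat_lit 101742845383)) (T.h (P (nat_lit 0)) (M (nat_lit 13689782980211)))) (T.h (P (nat_lit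 0)) (M (nat_lit 3279368685251)))))) (T.h (T.h (P (nat_lit 0)) (T.h (T.h (P (nat_lit 0)) (P (nat_lit 7892355880508))) (P (nat_lit 0)))) (T.h (T.h (T.h (M (nat_lit 116882246135)) (T.h (P (nat_lit 0)) (M (nat_lit 50869300007635)))) (T.h (P (nat_lit 0)) (P (nat_lit 15315161137328)))) (T.h (P (nat_lit 0)) (M (nat_lit 6458299934355))))))) (P (nat_lit 0)))))))) en02_15) (T.h en02_17 en02_20))))

def n02 : T ℤ := (T.h (T.h (T.h (P (nat_lit 0)) (T.h (P (nat_lit 0)) (T.h (P (nat_lit 0)) (T.h (P (nat_lit 0)) (T.h (P (nat_lit 0)) (T.h (P (nat_lit 0)) (T.h (P (nat_lit 0)) (T.h (T.h (T.h (P (nat_lit 0)) (T.h (T.h (P (nat_lit 0)) (T.h (P (nat_lit 3986925188)) (T.h (P (nat_lit 0)) (T.h (P (nat_lit 484379924628)) (T.h (P (nat_lit 0)) (P (nat_lit 236137228060784))))))) (T.h (P (nat_lit 0)) (T.h (T.h (P (nat_lit 0)) (T.h (P (nat_lit 110057042900)) (T.h (P (nat_lit 0)) (M (nat_lit 16442637161731))))) (T.h (P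 (nat_lit 0)) (T.h (T.h (P (nat_lit 0)) (P (nat_lit 1353546586752))) (P (nat_lit 0)))))))) (T.h (T.h (T.h (M (nat_lit 3233805255)) (T.h (P (nat_lit 0)) (T.h (M (nat_lit 58920942067)) (T.h (P (nat_lit 0)) (M (nat_lit 1414205285787)))))) (T.h (P (nat_lit 0)) (T.h (T.h (P (nat_lit 15425228864)) (T.h (P (nat_lit 0)) (M (nat_lit 6948013142635)))) (T.h (P (nat_lit 0)) (P (nat_lit 752759530976)))))) (T.h (T.h (P (nat_lit 0)) (T.h (T.h (P (nat_lit 0)) (T.h (M (nat_lit 406884346731)) (T.h (P (nat_lit 0)) (P (nat_lit 8980370448672))))) (T.h (P (nat_lit 0)) (T.h (T.h (P (nat_lit 0)) (P (nat_lit 7510908401912))) (P (nat_lit 0)))))) (T.h (T.h (T.h (M (nat_lit 936259695)) (T.h (P (nat_lit 0)) (M (nat_lit 3322630785731)))) (T.h (P (nat_lit 0)) (M (nat_lit 614349659639)))) (T.h (T.h (P (nat_lit 0)) (T.h (T.h (P (nat_lit 0)) (M (nat_lit 451290786659))) (P (nat_lit 0)))) (M (nat_lit 203630317611))))))) (T.h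 (P (nat_lit 0)) (T.h (T.h (T.h (P (nat_lit 0)) (T.h (T.h (P (nat_lit 0)) (T.h (P (nat_lit 931484088)) (T.h (P (nat_lit 0)) (M (nat_lit 2665675955663))))) (T.h (P (nat_lit 0)) (T.h (T.h (P (nat_lit 0)) (P (nat_lit 521238952612))) (P (nat_lit 0)))))) (T.h (T.h (T.h (P (nat_lit 1290776708)) (T.h (P (nat_lit 0)) (T.h (M (nat_lit 55133896155)) (T.h (P (nat_lit 0)) (M (nat_lit 38087551144951)))))) (T.h (P (nat_lit 0)) (T.h (T.h (P (nat_lit 28576706876)) (T.h (P (nat_lit 0)) (M (nat_lit 3590437256495)))) (T.h (P (nat_lit 0)) (P (nat_lit 390612178580)))))) (T.h (T.h (P (nat_lit 0)) (T.h (T.h (P (nat_lit 0)) (P (nat_lit 506005274956))) (P (nat_lit 0)))) (T.h (T.h (T.h (M (nat_lit 6375095123)) (T.h (P (nat_lit 0)) (M (nat_lit 1533020941271)))) (T.h (P (nat_lit 0)) (P (nat_lit 336056777872)))) (T.h (P (nat_lit 0)) (M (nat_lit 86872215459))))))) (P (nat_lit 0)))))))))))) en02_3) (T.h en02_7 en02_21))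

theorem h_n02 : chkT (c.Nn 0 2 ++ c.Nn 2 0) n02 = true := by decide +kernel


end Pool.Agent.TOPR.R6116H
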